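import Pool.Agent.Lib.MP_6359c9_pr.BmBas

/-! The approximate Ito formula. -/

namespace Pool.Agent.Lib.MP_6359c9_pr.Bm

open Set Filter Topology End

namespace AM

variable {α : Type} {S : Set α} {W : α → ℝ → ℝ} {L T e : ℝ} (A : AM S W L T e)
  {x : α} {σ σ' : α → ℕ}

/-- the block started at `σ` is complete at step `k` -/
def Full (δ : ℝ) (σ : α → ℕ) (k : ℕ) (x : α) : Prop :=
  δ ≤ |A.w k x - A.w (σ x) x| ∨ δ ^ 2 ≤ A.t k x - A.t (σ x) x

/-- the mesoscopic steps -/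
noncomputable def ms (δ : ℝ) (σ σ' : α → ℕ) : ℕ → α → ℕ
  | 0 => σ
  | i + 1 => hit (ms δ σ σ' i) σ' (A.Full δ (ms δ σ σ' i))

variable {A}

lemma ms_le (δ : ℝ) (hle : σ x ≤ σ' x) (i : ℕ) :
    σ x ≤ A.ms δ σ σ' i x ∧ A.ms δ σ σ' i x ≤ σ' x := by
  induction i with
  | zero => exact ⟨le_rfl, hle⟩
  | succ i ih => exact ⟨ih.1.trans (hit_spec _ ih.2).1, (hit_spec _ ih.2).2.1⟩

lemma St.full (h : A.St σ) (h' : A.St σ') (hle : ∀ x ∈ S, σ x ≤ σ' x) (δ δ' : ℝ) :
    A.St (AM.hit σ σ' fun k x => δ ≤ |A.w k x - A.w (σ x) x| ∨ δ' ≤ A.t k x - A.t (σ x) x) := by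
  refine h.hit h' hle fun k x y hr h1 h2 hp => ?_
  have hl := (h'.2 x (A.mem _ _ _ hr)).mono h2
  obtain ⟨e1, e2⟩ := A.ad_tw hr hl le_rfl
  obtain ⟨e3, e4⟩ := A.ad_tw hr hl h1
  rw [h.eq hr h1, ← e1, ← e2, ← e3, ← e4]
  exact hp

lemma St.ms (h : A.St σ) (h' : A.St σ') (hle : ∀ x ∈ S, σ x ≤ σ' x) (δ : ℝ) (i : ℕ) :
    A.St (A.ms δ σ σ' i) := by
  induction i with
  | zero => exact h
  | succ i ih => exact ih.full h' (fun x hx => (ms_le δ (hle x hx) i).2) δ (δ ^ 2)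

/-- size of one block -/
lemma block (he : 0 ≤ e) {δ δ' : ℝ} (hδ : 0 ≤ δ) (hδ' : 0 ≤ δ') (hx : x ∈ S) {j k : ℕ} (hjk : j ≤ k)
    (hl : A.Lv k x)
    (hn : ∀ i, j ≤ i → i < k → ¬(δ ≤ |A.w i x - A.w j x| ∨ δ' ≤ A.t i x - A.t j x)) :
    A.t k x - A.t j x ≤ δ' + e ∧ ∀ u ∈ Icc (A.t j x) (A.t k x), |W x u - A.w j x| ≤ δ + e := by
  refine ⟨?_, A.osc he hx hjk hl (by simpa using hδ) fun i h1 h2 =>
    (not_le.1 fun hc => hn i h1 h2 (Or.inl hc)).le⟩
  rcases hjk.eq_or_lt with h | h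
  · rw [h, sub_self]; positivity
  · obtain ⟨m, rfl⟩ : ∃ m, k = m + 1 := ⟨k - 1, by omega⟩
    have h1 := (A.step x hx m hl).2.1
    have h2 := not_le.1 fun hc => hn m (by omega) (Nat.lt_succ_self m) (Or.inr hc)
    linarith

/-- the formula with explicit error -/
lemma ito_aux (hS : S.Finite) (hn : S.Nonempty) (hL : 0 ≤ L) (hT : 0 ≤ T) (h : A.St σ)
    (h' : A.St σ') (hle : ∀ x ∈ S, σ x ≤ σ' x) {Φ a b : ℕ → α → ℝ} {C ρ0 δ : ℝ} (hC : 0 ≤ C)
    (hΦ : A.Tay σ σ' Φ a b C ρ0) (hδ : 0 < δ) (hδ1 : δ ≤ 1) (hρ : 2 * δ ≤ ρ0) (heδ : e ≤ δ)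
    (K : ℕ) (hK : 0 < K) :
    mean S (fun x => Φ (σ' x) x - Φ (σ x) x) ≤ K * (C * ((4 + 4 * (L + e)) * e)) +
      (C * (2 * δ) + 2 * C / (K * δ ^ 2)) * (K * ((2 + 4 * (L + e)) * e) + 5 * (T + e)) := by
  classical
  have he := A.e_nn hS
  set m := A.ms δ σ σ' with hm
  have hst : ∀ i, A.St (m i) := h.ms h' hle δ
  have hb : ∀ x ∈ S, ∀ i, σ x ≤ m i x ∧ m i x ≤ σ' x := fun x hx => ms_le δ (hle x hx)
  have hsp : ∀ x ∈ S, ∀ i, m i x ≤ m (i + 1) x ∧ m (i + 1) x ≤ σ' x ∧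
      (A.Full δ (m i) (m (i + 1) x) x ∨ m (i + 1) x = σ' x) ∧
      ∀ k, m i x ≤ k → k < m (i + 1) x → ¬A.Full δ (m i) k x :=
    fun x hx i => hit_spec _ (hb x hx i).2
  let d : ℕ → α → ℝ := fun i x => A.w (m (i + 1) x) x - A.w (m i x) x
  let s : ℕ → α → ℝ := fun i x => A.t (m (i + 1) x) x - A.t (m i x) x
  have hs0 : ∀ x ∈ S, ∀ i, 0 ≤ s i x := fun x hx i =>
    sub_nonneg.2 (A.t_mono hx ((hst _).2 x hx) (hsp x hx i).1)
  let q : α → ℝ := fun x => ∑ i ∈ Finset.range K, (d i x ^ 2 + s i x)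
  let a' : ℕ → α → ℝ := fun i x => if m i x < σ' x then a (m i x) x else 0
  let b' : ℕ → α → ℝ := fun i x => if m i x < σ' x then b (m i x) x else 0
  have hmes : ∀ i, A.Mes (m i) (a' i) ∧ A.Mes (m i) (b' i) := by
    intro i
    have aux : ∀ x y, A.r (m i x) x y → (m i x < σ' x ↔ m i y < σ' y) := fun x y hr => by
      have e1 := (hst i).1 x y hr
      rw [e1]
      exact ⟨h'.lt hr, h'.lt (A.symm _ _ _ hr)⟩
    constructor <;> intro x y hr <;> simp only [a', b', ← aux x y hr] <;> split_ifs with hc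
    · rw [(hst i).1 x y hr]; exact (hΦ.ad _ x y hr (hb x (A.mem _ _ _ hr) i).1 hc).1
    · rfl
    · rw [(hst i).1 x y hr]; exact (hΦ.ad _ x y hr (hb x (A.mem _ _ _ hr) i).1 hc).2
    · rfl
  have hbd : ∀ i, ∀ x ∈ S, |a' i x| ≤ C ∧ |b' i x| ≤ C := fun i x hx => by
    have := hΦ.bd x hx _ (hb x hx i).1 (hb x hx i).2
    simp only [a', b']
    split_ifs
    · exact this.2
    · simpa using hC
  -- second moment
  have hq : mean S q ≤ K * ((2 + 4 * (L + e)) * e) + 5 * (T + e) := by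
    have e1 : mean S q = mean S (fun x => ∑ i ∈ Finset.range K, 1 * (d i x ^ 2 - 4 * s i x)) +
        mean S fun x => 5 * (A.t (m K x) x - A.t (m 0 x) x) := by
      rw [← mean_add hS]
      refine mean_congr hS fun x _ => ?_
      rw [← Finset.sum_range_sub (fun i => A.t (m i x) x), Finset.mul_sum, ← Finset.sum_add_distrib]
      exact Finset.sum_congr rfl fun i _ => by simp only [s]; ring
    rw [e1, mean_sum hS]
    refine add_le_add ?_ ?_
    · refine (Finset.sum_le_card_nsmul _ _ ((2 + 4 * (L + e)) * e) fun i _ => ?_).trans (by simp)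
      have := (opt_w hS hL (hst i) (hst (i + 1)) (fun x hx => (hsp x hx i).1) (g := fun _ => 1)
        (fun _ _ _ => rfl) zero_le_one (by simp)).2
      rw [one_mul] at this
      exact (le_abs_self _).trans this
    · rw [← mean_const hS hn (5 * (T + e))]
      refine mean_mono hS fun x hx => ?_
      linarith [A.t_le hT he hx ((hst K).2 x hx), A.t_nn hx ((hst 0).2 x hx)]
  -- pathwise bound
  have hp : ∀ x ∈ S, Φ (σ' x) x - Φ (σ x) x ≤
      ∑ i ∈ Finset.range K, (a' i x * d i x + b' i x * (d i x ^ 2 - 4 * s i x)) +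
        (C * (2 * δ) + 2 * C / (K * δ ^ 2)) * q x := by
    intro x hx
    have hq0 : ∀ i, 0 ≤ d i x ^ 2 + s i x := fun i => add_nonneg (sq_nonneg _) (hs0 x hx i)
    have h1 : Φ (m K x) x - Φ (σ x) x ≤
        ∑ i ∈ Finset.range K, (a' i x * d i x + b' i x * (d i x ^ 2 - 4 * s i x)) +
          C * (2 * δ) * q x := by
      have e0 : σ x = m 0 x := rfl
      rw [e0, ← Finset.sum_range_sub (fun i => Φ (m i x) x), Finset.mul_sum,
        ← Finset.sum_add_distrib]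
      refine Finset.sum_le_sum fun i _ => ?_
      obtain ⟨s1, s2, -, s4⟩ := hsp x hx i
      obtain ⟨b1, b2⟩ := block he hδ.le (sq_nonneg δ) hx s1 ((hst _).2 x hx) s4
      have := hΦ.tay x hx _ _ (hb x hx i).1 s1 s2 (2 * δ) (by positivity) hρ (by nlinarith)
        fun u hu => (b2 u hu).trans (by linarith)
      by_cases hc : m i x < σ' x
      · simp only [a', b', if_pos hc, d, s]
        linarith
      · have e1 : m (i + 1) x = m i x := by omega
        simp only [d, s, e1]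
        simp
    have h2 : Φ (σ' x) x - Φ (m K x) x ≤ 2 * C / (K * δ ^ 2) * q x := by
      by_cases hc : m K x = σ' x
      · rw [hc, sub_self]
        exact mul_nonneg (by positivity) (Finset.sum_nonneg fun i _ => hq0 i)
      · have hmono : Monotone fun i => m i x := monotone_nat_of_le_succ fun i => (hsp x hx i).1
        have h3 : (K : ℝ) * δ ^ 2 ≤ q x := by
          refine le_trans (by simp) (Finset.card_nsmul_le_sum _ _ (δ ^ 2) fun i hi => ?_)
          have h4 : m (i + 1) x ≤ m K x := hmono (Finset.mem_range.1 hi)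
          have h5 := (hb x hx K).2
          rcases (hsp x hx i).2.2.1 with (h6 | h6) | h6
          · have : δ ^ 2 ≤ d i x ^ 2 := by
              rw [← sq_abs (d i x)]; exact pow_le_pow_left₀ hδ.le h6 2
            linarith [hs0 x hx i]
          · exact h6.trans (le_add_of_nonneg_left (sq_nonneg _))
          · omega
        have h4 := abs_le.1 (hΦ.bd x hx _ (hle x hx) le_rfl).1
        have h5 := abs_le.1 (hΦ.bd x hx _ (hb x hx K).1 (hb x hx K).2).1
        have h6 : (0 : ℝ) < K * δ ^ 2 := by positivity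
        calc _ ≤ 2 * C / (K * δ ^ 2) * (K * δ ^ 2) := by rw [div_mul_cancel₀ _ h6.ne']; linarith
          _ ≤ _ := mul_le_mul_of_nonneg_left h3 (by positivity)
    linarith
  refine (mean_mono hS hp).trans ?_
  rw [mean_add hS, mean_mul hS, mean_sum hS]
  refine add_le_add ?_ (mul_le_mul_of_nonneg_left hq (by positivity))
  refine (Finset.sum_le_card_nsmul _ _ (C * ((4 + 4 * (L + e)) * e)) fun i _ => ?_).trans (by simp)
  have h1 := (opt_w hS hL (hst i) (hst (i + 1)) (fun x hx => (hsp x hx i).1) (hmes i).1 hC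
    fun x hx => (hbd i x hx).1).1
  have h2 := (opt_w hS hL (hst i) (hst (i + 1)) (fun x hx => (hsp x hx i).1) (hmes i).2 hC
    fun x hx => (hbd i x hx).2).2
  rw [mean_add hS]
  linarith [le_abs_self (mean S fun x => a' i x * d i x), h1, h2,
    le_abs_self (mean S fun x => b' i x * (d i x ^ 2 - 4 * s i x))]

end AM

theorem ito : ItoSt := by
  intro C ρ0 L T ε hC hρ hL hT hε
  let B := C * (5 * (T + 1) + 1) * 4 + C * 2
  have hB : 0 < B := by positivity
  obtain ⟨δ, hδ, hδ1, hδρ, hδε⟩ : ∃ δ : ℝ, 0 < δ ∧ δ ≤ 1 ∧ 2 * δ ≤ ρ0 ∧ B * δ ≤ ε := by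
    refine ⟨min (min 1 (ρ0 / 2)) (ε / B), by positivity, (min_le_left _ _).trans (min_le_left _ _),
      ?_, ?_⟩
    · linarith [(min_le_left _ (ε / B)).trans (min_le_right 1 (ρ0 / 2))]
    · rw [mul_comm, ← le_div_iff₀ hB]; exact min_le_right _ _
  obtain ⟨K, hK⟩ := exists_nat_gt (1 / δ ^ 3)
  have hK0 : (0 : ℝ) < K := lt_trans (by positivity) hK
  have hK1 : (1 : ℝ) ≤ K := by exact_mod_cast Nat.cast_pos.1 hK0
  refine ⟨δ / (K * (8 + 4 * L)), by positivity, fun α S W e A hS hn he σ σ' h h' hle Φ a b hΦ => ?_⟩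
  have he0 := A.e_nn hS
  rw [le_div_iff₀ (by positivity)] at he
  have heδ : e ≤ δ := by nlinarith [mul_nonneg he0 hL.le, mul_nonneg (mul_nonneg he0 hL.le) hK0.le]
  refine (AM.ito_aux hS hn hL.le hT.le h h' hle hC.le hΦ hδ hδ1 hδρ heδ K
    (Nat.cast_pos.1 hK0)).trans (le_trans ?_ hδε)
  have h1 : K * ((4 + 4 * (L + e)) * e) ≤ δ := by
    refine le_trans ?_ he
    have : (4 + 4 * (L + e)) * e ≤ (8 + 4 * L) * e := mul_le_mul_of_nonneg_right (by linarith) he0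
    nlinarith
  have h2 : K * ((2 + 4 * (L + e)) * e) ≤ δ := le_trans (by gcongr; norm_num) h1
  have h3 : 2 * C / (K * δ ^ 2) ≤ C * (2 * δ) := by
    rw [div_le_iff₀ (by positivity)]
    rw [div_lt_iff₀ (by positivity)] at hK
    nlinarith
  have h4 : (C * (2 * δ) + 2 * C / (K * δ ^ 2)) * (K * ((2 + 4 * (L + e)) * e) + 5 * (T + e)) ≤
      (C * (2 * δ) + C * (2 * δ)) * (5 * (T + 1) + 1) :=
    mul_le_mul (by linarith) (by linarith) (by positivity) (by positivity)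
  have h5 : K * (C * ((4 + 4 * (L + e)) * e)) ≤ C * δ := by nlinarith
  simp only [B]
  nlinarith [mul_pos hC hδ]

end Pool.Agent.Lib.MP_6359c9_pr.Bm
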