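import Pool.Agent.Lib.MP_6359c9_pr.Bm4
import Pool.Agent.Lib.MP_6359c9_pr.BmIto

/-! One sided barriers for the driving function, and final forms of the Bessel estimate. -/

namespace Pool.Agent.Lib.MP_6359c9_pr.Bes

open Set Bm

/-- after the stopping step `σ` the path stays above `W (t σ) - a` during time `s` with
(conditional) probability at most `a / √s` -/
theorem above {a s L T ε : ℝ} (ha : 0 < a) (hs : 0 < s) (hL : 0 < L) (hT : 0 < T) (hε : 0 < ε) :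
    ∃ e0 > (0 : ℝ), ∀ (α : Type) (S : Set α) (W : α → ℝ → ℝ) (e : ℝ) (A : AM S W L T e),
      S.Finite → S.Nonempty → e ≤ e0 → ∀ σ : α → ℕ, A.St σ → ∀ g : α → ℝ,
      (∀ x x', A.r (σ x) x x' → g x = g x') → (∀ x ∈ S, 0 ≤ g x ∧ g x ≤ 1) →
      mean S (fun x => g x * {x | (∀ u ∈ Icc 0 T, |W x u| < L) ∧ A.t (σ x) x + s ≤ T ∧
        ∀ u ∈ Icc (A.t (σ x) x) (A.t (σ x) x + s), A.w (σ x) x - a < W x u}.indicator 1 x) ≤
        a / √s * mean S g + ε := by
  obtain ⟨β, hβ⟩ : ∃ β, β = 2 * √s := ⟨_, rfl⟩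
  have hs' : 0 < √s := Real.sqrt_pos.2 hs
  have hβ0 : 0 < β := hβ ▸ by positivity
  have hβ2 : β ^ 2 = 4 * s := by rw [hβ, mul_pow, Real.sq_sqrt hs.le]; norm_num
  obtain ⟨B, hB⟩ : ∃ B, B = 2 * L + 2 + a := ⟨_, rfl⟩
  have hB0 : 0 < B := hB ▸ by positivity
  obtain ⟨C, hC⟩ : ∃ C, C = B / β + (4 * (T + 1) + B ^ 2 + β * B) / β ^ 2 +
    (1 / β + (2 * B + β) / β ^ 2) + 1 / β ^ 2 := ⟨_, rfl⟩
  have c1 : 0 < B / β := by positivity
  have c2 : 0 < (4 * (T + 1) + B ^ 2 + β * B) / β ^ 2 := by positivity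
  have c3 : 0 < 1 / β + (2 * B + β) / β ^ 2 := by positivity
  have c4 : 0 < 1 / β ^ 2 := by positivity
  obtain ⟨e0, he0, H⟩ := ito C 1 L T (ε / 2) (by linarith) one_pos hL hT (half_pos hε)
  obtain ⟨c, hc⟩ : ∃ c, c = 1 / β + (β + 1) / β ^ 2 := ⟨_, rfl⟩
  have hc0 : 0 < c := hc ▸ by positivity
  refine ⟨min e0 (min 1 (ε / 2 / c)), by positivity, ?_⟩
  intro α S W e A hS hne he σ hσ g had hg
  have he1 : e ≤ 1 := he.trans ((min_le_right _ _).trans (min_le_left _ _))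
  have he3 : c * e ≤ ε / 2 := by
    rw [mul_comm, ← le_div_iff₀ hc0]; exact he.trans ((min_le_right _ _).trans (min_le_right _ _))
  have he2 : 0 ≤ e := e_nn A hL hT hne.some_mem
  obtain ⟨D, hD⟩ : ∃ D : ℕ → α → ℝ, D = fun k x => A.w k x - A.w (σ x) x + a := ⟨_, rfl⟩
  obtain ⟨U, hU⟩ : ∃ U : ℕ → α → ℝ, U = fun k x => A.t k x - A.t (σ x) x := ⟨_, rfl⟩
  have ad : ∀ k x x', A.r k x x' → A.Lv k x → σ x ≤ k → D k x' = D k x ∧ U k x' = U k x :=
    fun k x x' hr hl hk => by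
      have hr' := r_le hk hr
      have hl' := lv_le hk hl
      simp only [hD, hU, st_eq hσ hr hk, ad_w hr hl, ad_t hr hl, ad_w hr' hl', ad_t hr' hl',
        and_self]
  obtain ⟨σ', hσ', hp⟩ := hit hσ (p := fun k x => D k x ≤ 0 ∨ β ≤ D k x ∨ s ≤ U k x)
    fun k x x' hr hl hk hp => by simpa only [(ad k x x' hr hl hk).1, (ad k x x' hr hl hk).2] using hp
  have bd : ∀ x ∈ S, ∀ j, σ x ≤ j → j ≤ σ' x → |D j x| ≤ B ∧ 0 ≤ U j x ∧ U j x ≤ T + 1 :=
    fun x hx j h1 h2 => by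
      have hl := lv_le h2 (hσ'.2 x hx)
      have hl' := hσ.2 x hx
      obtain ⟨k1, k2⟩ := abs_le.1 (w_bd hL he2 hx hl ⟨t_nn hx hl, le_rfl⟩)
      obtain ⟨k3, k4⟩ := abs_le.1 (w_bd hL he2 hx hl' ⟨t_nn hx hl', le_rfl⟩)
      simp only [hD, hU, hB, AM.w]
      exact ⟨abs_le.2 ⟨by linarith, by linarith⟩, sub_nonneg.2 (t_le_t hx h1 hl),
        by linarith [t_bd hT he2 hx hl, t_nn hx hl']⟩
  have key := H α S W e A hS hne (he.trans (min_le_left _ _)) σ σ' hσ hσ' (fun x hx => (hp x hx).1)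
    (fun k x => g x * (D k x / β + (4 * U k x - D k x ^ 2 + β * D k x) / β ^ 2))
    (fun k x => g x * (1 / β + (β - 2 * D k x) / β ^ 2)) (fun k x => g x * (-1 / β ^ 2))
    ⟨fun j x x' hr h1 h2 => ?_, fun x hx j h1 h2 => ?_,
      fun x hx j k h1 h2 h3 ρ hr0 hr1 h4 h5 => ?_⟩
  rotate_left
  · have hl := lv_le h2.le (hσ'.2 x (A.mem j x x' hr))
    simp only [(ad j x x' hr hl h1).1, had x x' (r_le h1 hr), and_self]
  · obtain ⟨b1, b2, b3⟩ := bd x hx j h1 h2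
    have hg' : ∀ z, |g x * z| ≤ |z| := fun z => by
      rw [abs_mul, abs_of_nonneg (hg x hx).1]
      exact mul_le_of_le_one_left (abs_nonneg _) (hg x hx).2
    obtain ⟨b4, b5⟩ := abs_le.1 b1
    have b6 : D j x ^ 2 ≤ B ^ 2 := sq_le_sq' b4 b5
    have l1 : |D j x / β| ≤ B / β := by rw [abs_div, abs_of_pos hβ0]; gcongr
    have l2 : |(4 * U j x - D j x ^ 2 + β * D j x) / β ^ 2| ≤
        (4 * (T + 1) + B ^ 2 + β * B) / β ^ 2 := by
      rw [abs_div, abs_of_pos (by positivity : 0 < β ^ 2)]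
      gcongr
      exact abs_le.2 ⟨by nlinarith, by nlinarith [sq_nonneg (D j x)]⟩
    have l3 : |(β - 2 * D j x) / β ^ 2| ≤ (2 * B + β) / β ^ 2 := by
      rw [abs_div, abs_of_pos (by positivity : 0 < β ^ 2)]
      gcongr
      exact abs_le.2 ⟨by linarith, by linarith⟩
    refine ⟨(hg' _).trans ((abs_add_le _ _).trans (by linarith)),
      (hg' _).trans ((abs_add_le _ _).trans ?_), (hg' _).trans ?_⟩
    · rw [abs_of_pos (by positivity)]; linarith
    · rw [neg_div, abs_neg, abs_of_pos c4]; linarith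
  · have hjk := t_le_t hx h2 (lv_le h3 (hσ'.2 x hx))
    refine le_trans (le_of_eq ?_) (mul_nonneg (mul_nonneg (by linarith) hr0.le)
      (add_nonneg (sq_nonneg _) (sub_nonneg.2 hjk)))
    simp only [hD, hU]
    field_simp
    ring
  rw [← End.mean_mul hS]
  have hm : mean S (fun _ => ε / 2) = ε / 2 := End.mean_const hS hne _
  refine le_trans ?_ (show mean S (fun x => a / √s * g x) + (ε / 2 + ε / 2) ≤ _ by linarith)
  refine le_trans ?_ (add_le_add le_rfl (add_le_add key hm.le))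
  rw [← End.mean_add hS, ← End.mean_add hS]
  refine End.mean_mono hS fun x hx => ?_
  obtain ⟨g0, g1⟩ := hg x hx
  have D0 : D (σ x) x = a := by simp [hD]
  have U0 : U (σ x) x = 0 := by simp [hU]
  obtain ⟨-, b2, -⟩ := bd x hx _ (hp x hx).1 le_rfl
  have k0 : a / β + (4 * 0 - a ^ 2 + β * a) / β ^ 2 ≤ a / √s := by
    have : a / √s = a / β + β * a / β ^ 2 := by rw [hβ]; field_simp; norm_num
    rw [this]
    gcongr
    nlinarith [sq_nonneg a]
  rw [D0, U0]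
  have k1 := mul_le_mul_of_nonneg_left k0 g0
  have k2 : c * e * g x ≤ ε / 2 :=
    (mul_le_of_le_one_right (mul_nonneg hc0.le he2) g1).trans he3
  have hi : ∀ E : Set α, E.indicator (1 : α → ℝ) x ≤ 1 := fun E =>
    indicator_le_self' (fun _ _ => zero_le_one) x
  rcases (hp x hx).1.eq_or_lt with h0 | h0
  · -- immediate stop
    rw [← h0, D0, U0, sub_self]
    by_cases hb : x ∈ {x | (∀ u ∈ Icc 0 T, |W x u| < L) ∧ A.t (σ x) x + s ≤ T ∧
        ∀ u ∈ Icc (A.t (σ x) x) (A.t (σ x) x + s), A.w (σ x) x - a < W x u}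
    · have h1 : β ≤ a := by
        rcases (hp x hx).2.2 with (h1 | h1 | h1) | h1
        · rw [← h0, D0] at h1; linarith
        · rwa [← h0, D0] at h1
        · rw [← h0, U0] at h1; linarith
        · have := T_le hx (hσ'.2 x hx) h1 hb.1
          rw [← h0] at this
          linarith [hb.2.1]
      have h2 : 1 ≤ a / √s := by rw [le_div_iff₀ hs']; linarith
      rw [indicator_of_mem hb]
      simp only [Pi.one_apply]
      nlinarith
    · rw [indicator_of_notMem hb]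
      have : 0 ≤ a / √s * g x := by positivity
      linarith
  obtain ⟨i, hi'⟩ : ∃ i, σ' x = i + 1 := ⟨σ' x - 1, by omega⟩
  have hl := hσ'.2 x hx
  have hst := A.step x hx i (hi' ▸ hl)
  have h1 := (hp x hx).2.1 i (by omega) (by omega)
  simp only [not_or, not_le] at h1
  have h2 : |D (σ' x) x - D i x| ≤ e := by
    have := hst.2.2 _ ⟨hst.1, le_rfl⟩
    simp only [hD, hi', AM.w]
    rwa [add_sub_add_right_eq_sub, sub_sub_sub_cancel_right]
  obtain ⟨h3, h4⟩ := abs_le.1 h2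
  have h5 : -e ≤ D (σ' x) x := by linarith [h1.1]
  have h6 : D (σ' x) x ≤ β + e := by linarith [h1.2.1]
  have h7 : -(e * (β + 1)) ≤ -D (σ' x) x ^ 2 + β * D (σ' x) x := by
    nlinarith [mul_nonneg (sub_nonneg.2 h5) (sub_nonneg.2 h6)]
  have h8 : -(e * (1 / β)) ≤ D (σ' x) x / β := by
    rw [mul_one_div, ← neg_div]; gcongr
  have h9 : U (σ' x) x / s - e * ((β + 1) / β ^ 2) ≤
      (4 * U (σ' x) x - D (σ' x) x ^ 2 + β * D (σ' x) x) / β ^ 2 := by
    rw [show U (σ' x) x / s - e * ((β + 1) / β ^ 2) = (4 * U (σ' x) x - e * (β + 1)) / β ^ 2 by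
      rw [sub_div, hβ2]; field_simp]
    gcongr ?_ / _
    linarith
  have h10 : 0 ≤ U (σ' x) x / s := by positivity
  have h11 : c * e = e * (1 / β) + e * ((β + 1) / β ^ 2) := by rw [hc]; ring
  have h12 : 0 ≤ e * (1 / β) := by positivity
  suffices hh : {x | (∀ u ∈ Icc 0 T, |W x u| < L) ∧ A.t (σ x) x + s ≤ T ∧
        ∀ u ∈ Icc (A.t (σ x) x) (A.t (σ x) x + s), A.w (σ x) x - a < W x u}.indicator 1 x - c * e ≤
      D (σ' x) x / β + (4 * U (σ' x) x - D (σ' x) x ^ 2 + β * D (σ' x) x) / β ^ 2 by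
    have := mul_le_mul_of_nonneg_left hh g0
    linarith
  by_cases hb : x ∈ {x | (∀ u ∈ Icc 0 T, |W x u| < L) ∧ A.t (σ x) x + s ≤ T ∧
      ∀ u ∈ Icc (A.t (σ x) x) (A.t (σ x) x + s), A.w (σ x) x - a < W x u}
  · rw [indicator_of_mem hb]
    simp only [Pi.one_apply]
    by_cases hu : s ≤ U (σ' x) x
    · have : 1 ≤ U (σ' x) x / s := by rwa [one_le_div hs]
      linarith
    · have hu' : A.t (σ' x) x < A.t (σ x) x + s := by
        simp only [hU, not_le] at hu; linarith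
      rcases (hp x hx).2.2 with (h13 | h13 | h13) | h13
      · have := hb.2.2 _ ⟨t_le_t hx h0.le hl, hu'.le⟩
        simp only [hD, AM.w] at h13 this
        linarith
      · have : 1 ≤ D (σ' x) x / β := by rwa [one_le_div hβ0]
        linarith
      · exact absurd h13 hu
      · linarith [T_le hx hl h13 hb.1, hb.2.1]
  · rw [indicator_of_notMem hb]
    linarith

/-- the mirror image of `above` -/
theorem below {a s L T ε : ℝ} (ha : 0 < a) (hs : 0 < s) (hL : 0 < L) (hT : 0 < T) (hε : 0 < ε) :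
    ∃ e0 > (0 : ℝ), ∀ (α : Type) (S : Set α) (W : α → ℝ → ℝ) (e : ℝ) (A : AM S W L T e),
      S.Finite → S.Nonempty → e ≤ e0 → ∀ σ : α → ℕ, A.St σ → ∀ g : α → ℝ,
      (∀ x x', A.r (σ x) x x' → g x = g x') → (∀ x ∈ S, 0 ≤ g x ∧ g x ≤ 1) →
      mean S (fun x => g x * {x | (∀ u ∈ Icc 0 T, |W x u| < L) ∧ A.t (σ x) x + s ≤ T ∧
        ∀ u ∈ Icc (A.t (σ x) x) (A.t (σ x) x + s), W x u < A.w (σ x) x + a}.indicator 1 x) ≤
        a / √s * mean S g + ε := by
  obtain ⟨e0, he0, H⟩ := above ha hs hL hT hε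
  refine ⟨e0, he0, fun α S W e A hS hne he σ hσ g h1 h2 => ?_⟩
  refine le_trans (le_of_eq ?_) (H α S _ e (neg A hS) hS hne he σ (st_neg hS hσ) g h1 h2)
  congr 1; ext x; congr 2; ext x
  simp only [mem_ofPred_eq, abs_neg, AM.w, neg]
  refine and_congr_right fun _ => and_congr_right fun _ => forall₂_congr fun u _ => ?_
  constructor <;> intro h <;> linarith

/-- `Stay` for points on the left -/
def StayL (w : ℝ → ℝ) (θ s T x : ℝ) : Prop :=
  ∃ G : ℝ → ℝ, G s = x ∧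
    ∀ u ∈ Icc s T, θ < w u - G u ∧ HasDerivWithinAt G (2 / (G u - w u)) (Icc s T) u

lemma Stay.left {w : ℝ → ℝ} {θ s T x : ℝ} (h : Stay (fun u => -w u) θ s T (-x)) :
    StayL w θ s T x := by
  obtain ⟨G, h0, hG⟩ := h
  refine ⟨fun u => -G u, by simp [h0], fun u hu => ⟨by linarith [(hG u hu).1], ?_⟩⟩
  rw [show 2 / (-G u - w u) = -(2 / (G u - -w u)) by rw [← div_neg]; congr 1; ring]
  exact (hG u hu).2.neg

/-- real points on both sides of `W`, at distance `y ∈ [a, b]` at the stopping step `σ`, stay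
`θ` away from `W` up to time `T` with probability at least `1 - γ` -/
theorem stay {a b L T γ : ℝ} (ha : 0 < a) (hab : a ≤ b) (hL : 0 < L) (hT : 0 < T) (hγ : 0 < γ) :
    ∃ θ > (0 : ℝ), ∃ e0 > (0 : ℝ), ∀ (α : Type) (S : Set α) (W : α → ℝ → ℝ) (e : ℝ)
      (A : AM S W L T e), S.Finite → S.Nonempty → e ≤ e0 → (∀ x ∈ S, Continuous (W x)) →
      ∀ σ : α → ℕ, A.St σ → ∀ y : α → ℝ, (∀ x x', A.r (σ x) x x' → y x = y x') →
      (∀ x ∈ S, a ≤ y x ∧ y x ≤ b) →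
      mean S ({x | (∀ u ∈ Icc 0 T, |W x u| < L) ∧
          ¬Stay (W x) θ (A.t (σ x) x) T (A.w (σ x) x + y x)}.indicator 1) ≤ γ ∧
        mean S ({x | (∀ u ∈ Icc 0 T, |W x u| < L) ∧
          ¬StayL (W x) θ (A.t (σ x) x) T (A.w (σ x) x - y x)}.indicator 1) ≤ γ := by
  obtain ⟨M, hM⟩ : ∃ M, M = b + 2 * L + 3 * T + 6 := ⟨_, rfl⟩
  have hM0 : 0 < M := by linarith
  have hl : 0 ≤ Real.log (M / a) := Real.log_nonneg (by rw [one_le_div ha]; linarith)
  obtain ⟨Λ, hΛ⟩ : ∃ Λ, Λ = (Real.log (M / a) + 1) / γ := ⟨_, rfl⟩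
  have hΛ0 : 0 < Λ := hΛ ▸ by positivity
  have hθ : 0 < M / 2 / Real.exp Λ := by positivity
  obtain ⟨e0, he0, H⟩ := b4 ito (b := b) ha hL hT hθ one_pos
  rw [← hM, show M / (2 * (M / 2 / Real.exp Λ)) = Real.exp Λ by field_simp, Real.log_exp] at H
  have H' : ∀ (α : Type) (S : Set α) (W : α → ℝ → ℝ) (e : ℝ)
      (A : AM S W L T e), S.Finite → S.Nonempty → e ≤ e0 → (∀ x ∈ S, Continuous (W x)) →
      ∀ σ : α → ℕ, A.St σ → ∀ y : α → ℝ, (∀ x x', A.r (σ x) x x' → y x = y x') →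
      (∀ x ∈ S, a ≤ y x ∧ y x ≤ b) →
      mean S ({x | (∀ u ∈ Icc 0 T, |W x u| < L) ∧ ¬Stay (W x) (M / 2 / Real.exp Λ)
        (A.t (σ x) x) T (A.w (σ x) x + y x)}.indicator 1) ≤ γ :=
    fun α S W e A hS hne he hW σ hσ y h1 h2 => by
      have := H α S W e A hS hne he hW σ hσ y (fun _ => 1) (fun x x' h => ⟨h1 x x' h, rfl⟩) h2
        fun _ _ => ⟨zero_le_one, le_rfl⟩
      simp only [one_mul, End.mean_const hS hne, mul_one] at this
      refine le_of_mul_le_mul_left (this.trans (le_of_eq ?_)) hΛ0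
      rw [hΛ]; field_simp
  refine ⟨_, hθ, e0, he0, fun α S W e A hS hne he hW σ hσ y h1 h2 =>
    ⟨H' α S W e A hS hne he hW σ hσ y h1 h2, le_trans (End.mean_mono hS fun x _ => ?_)
      (H' α S _ e (neg A hS) hS hne he (fun x hx => (hW x hx).neg) σ (st_neg hS hσ) y h1 h2)⟩⟩
  refine indicator_le_indicator_of_subset (fun x hx => ?_) (fun _ => zero_le_one) x
  refine ⟨by simpa using hx.1, fun h => hx.2 (Stay.left ?_)⟩
  rw [neg_sub, sub_eq_neg_add]
  exact h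

end Pool.Agent.Lib.MP_6359c9_pr.Bes
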