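import Pool.Agent.Lib.MP_6359c9_pr.BmDef

/-! Elementary facts on approximate martingale chains: hitting steps, reflection. -/

namespace Pool.Agent.Lib.MP_6359c9_pr.Bes

open Set Bm

variable {α : Type} {S : Set α} {W : α → ℝ → ℝ} {L T e : ℝ} {A : AM S W L T e}
  {x y : α} {j k : ℕ}

lemma r_le (hjk : j ≤ k) (h : A.r k x y) : A.r j x y := by
  induction k, hjk using Nat.le_induction with
  | base => exact h
  | succ k _ ih => exact ih (A.anti k x y h)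

lemma lv_le (hjk : j ≤ k) (h : A.Lv k x) : A.Lv j x := fun i hi => h i (hi.trans_le hjk)

lemma t_le_t (hx : x ∈ S) (hjk : j ≤ k) (h : A.Lv k x) : A.t j x ≤ A.t k x := by
  induction k, hjk using Nat.le_induction with
  | base => exact le_rfl
  | succ k _ ih => exact (ih (lv_le k.le_succ h)).trans (A.step x hx k h).1

lemma t_nn (hx : x ∈ S) (h : A.Lv k x) : 0 ≤ A.t k x := by
  rw [← A.t0 x hx]; exact t_le_t hx k.zero_le h

lemma ad_t (h : A.r k x y) (hl : A.Lv k x) : A.t k y = A.t k x := (A.ad k x y h hl).1.symm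

lemma ad_w (h : A.r k x y) (hl : A.Lv k x) : A.w k y = A.w k x := by
  rw [AM.w, AM.w, ad_t h hl]
  exact ((A.ad k x y h hl).2 _ ⟨t_nn (A.mem k x y h) hl, le_rfl⟩).symm

lemma lv_r (h : A.r k x y) (hl : A.Lv k x) : A.Lv k y := fun j hj => by
  have h1 := ad_t (r_le hj.le h) (lv_le hj.le hl)
  have h2 := ad_w (r_le hj.le h) (lv_le hj.le hl)
  have h3 := hl j hj
  simp only [AM.w] at h2 ⊢
  rw [h2, h1]; exact h3

lemma lv_succ : A.Lv (k + 1) x ↔ A.Lv k x ∧ |A.w k x| < L ∧ A.t k x < T :=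
  ⟨fun h => ⟨lv_le k.le_succ h, h k k.lt_succ_self⟩, fun h j hj =>
    (Nat.lt_succ_iff_lt_or_eq.1 hj).elim (h.1 j) fun e => e ▸ h.2⟩

lemma e_nn (A : AM S W L T e) (hL : 0 < L) (hT : 0 < T) (hx : x ∈ S) : 0 ≤ e := by
  have h : A.Lv 1 x := lv_succ.2 ⟨fun _ h => absurd h (Nat.not_lt_zero _), by
    simpa [AM.w, A.t0 x hx, A.w0 x hx] using ⟨hL, hT⟩⟩
  have := A.step x hx 0 h
  linarith [this.1, this.2.1]

lemma cover (hjk : j < k) {u : ℝ} (hu : u ∈ Icc (A.t j x) (A.t k x)) :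
    ∃ i, j ≤ i ∧ i < k ∧ u ∈ Icc (A.t i x) (A.t (i + 1) x) := by
  induction k, hjk using Nat.le_induction with
  | base => exact ⟨j, le_rfl, j.lt_succ_self, hu⟩
  | succ k hk ih =>
    by_cases h : u ≤ A.t k x
    · obtain ⟨i, h1, h2, h3⟩ := ih ⟨hu.1, h⟩
      exact ⟨i, h1, h2.trans k.lt_succ_self, h3⟩
    · exact ⟨k, by omega, k.lt_succ_self, (not_le.1 h).le, hu.2⟩

lemma t_bd (hT : 0 < T) (he : 0 ≤ e) (hx : x ∈ S) (h : A.Lv k x) : A.t k x ≤ T + e := by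
  rcases k with _ | k
  · rw [A.t0 x hx]; positivity
  · linarith [(A.step x hx k h).2.1, (lv_succ.1 h).2.2]

lemma w_bd (hL : 0 < L) (he : 0 ≤ e) (hx : x ∈ S) (h : A.Lv k x) {u : ℝ}
    (hu : u ∈ Icc 0 (A.t k x)) : |W x u| ≤ L + e := by
  rcases k.eq_zero_or_pos with rfl | hk
  · rw [A.t0 x hx] at hu
    rw [le_antisymm hu.2 hu.1, A.w0 x hx, abs_zero]; positivity
  · rw [← A.t0 x hx] at hu
    obtain ⟨i, -, h2, h3⟩ := cover hk hu
    have h4 := lv_le (Nat.succ_le_of_lt h2) h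
    have h5 := (A.step x hx i h4).2.2 u h3
    have h6 : |W x (A.t i x)| < L := (lv_succ.1 h4).2.1
    have := abs_add_le (W x u - W x (A.t i x)) (W x (A.t i x))
    rw [sub_add_cancel] at this
    linarith

lemma st_eq {σ : α → ℕ} (hσ : A.St σ) (h : A.r k x y) (hk : σ x ≤ k) : σ y = σ x :=
  hσ.1 x y (r_le hk h)

/-- the first step after `σ` at which `p` holds or the chain ends -/
lemma hit {σ : α → ℕ} (hσ : A.St σ) {p : ℕ → α → Prop}
    (hp : ∀ k x y, A.r k x y → A.Lv k x → σ x ≤ k → p k x → p k y) :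
    ∃ σ', A.St σ' ∧ ∀ x ∈ S, σ x ≤ σ' x ∧ (∀ j, σ x ≤ j → j < σ' x → ¬p j x) ∧
      (p (σ' x) x ∨ ¬A.Lv (σ' x + 1) x) := by
  let q : ℕ → α → Prop := fun k x => σ x ≤ k ∧ (p k x ∨ ¬A.Lv (k + 1) x)
  have hne : ∀ x ∈ S, {k | q k x}.Nonempty := fun x hx => by
    obtain ⟨k, hk⟩ := A.exit x hx
    exact ⟨max k (σ x), le_max_right _ _, Or.inr fun h => hk (lv_le (by omega) h)⟩
  have hm : ∀ x ∈ S, q (sInf {k | q k x}) x := fun x hx => Nat.sInf_mem (hne x hx)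
  have hn : ∀ x j, j < sInf {k | q k x} → ¬q j x := fun x j hj => Nat.notMem_of_lt_sInf hj
  have hl : ∀ x ∈ S, A.Lv (sInf {k | q k x}) x := fun x hx j hj => by
    rcases lt_or_ge j (σ x) with h | h
    · exact hσ.2 x hx j h
    · have : A.Lv (j + 1) x := by_contra fun hc => hn x j hj ⟨h, Or.inr hc⟩
      exact this j j.lt_succ_self
  have hq : ∀ k x y, A.r k x y → A.Lv k x → q k x → q k y := fun k x y h hlv hx => by
    refine ⟨(st_eq hσ h hx.1).le.trans hx.1, hx.2.imp (hp k x y h hlv hx.1) fun h1 h2 => h1 ?_⟩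
    rw [lv_succ, ad_t h hlv, ad_w h hlv] at h2
    exact lv_succ.2 ⟨hlv, h2.2⟩
  refine ⟨fun x => sInf {k | q k x}, ⟨fun x y h => ?_, hl⟩, fun x hx =>
    ⟨(hm x hx).1, fun j h1 h2 h3 => hn x j h2 ⟨h1, Or.inl h3⟩, (hm x hx).2⟩⟩
  have hx := A.mem _ x y h
  have hy := A.mem _ y x (A.symm _ x y h)
  have h1 : sInf {k | q k y} ≤ sInf {k | q k x} :=
    Nat.sInf_le (s := {k | q k y}) (hq _ x y h (hl x hx) (hm x hx))
  exact le_antisymm h1 (Nat.sInf_le (s := {k | q k x})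
    (hq _ y x (A.symm _ x y (r_le h1 h)) (hl y hy) (hm y hy)))

/-- if the chain ends at step `k` and `|W| < L` on `[0, T]`, the time has reached `T` -/
lemma T_le (hx : x ∈ S) (h : A.Lv k x) (h' : ¬A.Lv (k + 1) x) (hb : ∀ u ∈ Icc 0 T, |W x u| < L) :
    T ≤ A.t k x := by
  by_contra hc
  exact h' (lv_succ.2 ⟨h, hb _ ⟨t_nn hx h, (not_le.1 hc).le⟩, not_le.1 hc⟩)

lemma live_neg {w : ℝ → ℝ} {t : ℕ → ℝ} : Live (fun u => -w u) t L T k ↔ Live w t L T k := by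
  simp only [Live, abs_neg]

/-- the reflected chain -/
def neg (A : AM S W L T e) (hS : S.Finite) : AM S (fun x u => -W x u) L T e where
  r := A.r
  t := A.t
  M := fun k x => -A.M k x
  N := A.N
  E := A.E
  mem := A.mem
  symm := A.symm
  anti := A.anti
  ad k x y h hl := ⟨(A.ad k x y h (live_neg.1 hl)).1,
    fun u hu => by rw [(A.ad k x y h (live_neg.1 hl)).2 u hu]⟩
  t0 := A.t0
  w0 x hx := by rw [A.w0 x hx, neg_zero]
  step x hx k hl := ⟨(A.step x hx k (live_neg.1 hl)).1, (A.step x hx k (live_neg.1 hl)).2.1,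
    fun u hu => by
      rw [neg_sub_neg, abs_sub_comm]; exact (A.step x hx k (live_neg.1 hl)).2.2 u hu⟩
  exit x hx := (A.exit x hx).imp fun k hk h => hk (live_neg.1 h)
  errM x hx k hl := by rw [neg_sub_neg, abs_sub_comm]; exact A.errM x hx k (live_neg.1 hl)
  errN x hx k hl := by rw [neg_sq]; exact A.errN x hx k (live_neg.1 hl)
  errE := A.errE
  mart k g h1 h2 := by
    obtain ⟨h3, h4⟩ := A.mart k g h1 fun x hx => h2 x fun h => hx (live_neg.1 h)
    refine ⟨?_, h4⟩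
    rw [← neg_eq_zero, ← End.mean_neg hS, ← h3]
    congr 1; ext x; ring

lemma st_neg (hS : S.Finite) {σ : α → ℕ} (hσ : A.St σ) : (neg A hS).St σ :=
  ⟨hσ.1, fun x hx => live_neg.2 (hσ.2 x hx)⟩

lemma st_zero (A : AM S W L T e) : A.St fun _ => 0 :=
  ⟨fun _ _ _ => rfl, fun _ _ _ h => absurd h (Nat.not_lt_zero _)⟩

end Pool.Agent.Lib.MP_6359c9_pr.Bes
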