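import Pool.Agent.Lib.MP_6359c9_pr.Bm4A
import Pool.Agent.Lib.MP_6359c9_pr.Bm4B

/-! Real points stay away from the driving function (the logarithm of a Bessel process). -/

namespace Pool.Agent.Lib.MP_6359c9_pr.Bes

open Set Bm

/-- the solution of `G' = 2 / (G - w)` with `G s = x` exists on `[s, T]` and `G - w > θ` there -/
def Stay (w : ℝ → ℝ) (θ s T x : ℝ) : Prop :=
  ∃ G : ℝ → ℝ, G s = x ∧
    ∀ u ∈ Icc s T, θ < G u - w u ∧ HasDerivWithinAt G (2 / (G u - w u)) (Icc s T) u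

/-- a real point at distance `y ∈ [a, b]` to the right of `W` at the stopping step `σ` comes
`θ` close to `W` before time `T` with (conditional) probability at most
`log (M / a) / log (M / (2 θ))`, `M = b + 2 L + 3 T + 6` -/
theorem b4 (h : ItoSt) {a b L T θ ε : ℝ} (ha : 0 < a) (hL : 0 < L) (hT : 0 < T) (hθ : 0 < θ)
    (hε : 0 < ε) : ∃ e0 > (0 : ℝ), ∀ (α : Type) (S : Set α) (W : α → ℝ → ℝ) (e : ℝ)
      (A : AM S W L T e), S.Finite → S.Nonempty → e ≤ e0 → (∀ x ∈ S, Continuous (W x)) →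
      ∀ σ : α → ℕ, A.St σ → ∀ y g : α → ℝ, (∀ x x', A.r (σ x) x x' → y x = y x' ∧ g x = g x') →
      (∀ x ∈ S, a ≤ y x ∧ y x ≤ b) → (∀ x ∈ S, 0 ≤ g x ∧ g x ≤ 1) →
      Real.log ((b + 2 * L + 3 * T + 6) / (2 * θ)) *
        mean S (fun x => g x * {x | (∀ u ∈ Icc 0 T, |W x u| < L) ∧
          ¬Stay (W x) θ (A.t (σ x) x) T (A.w (σ x) x + y x)}.indicator 1 x) ≤
        Real.log ((b + 2 * L + 3 * T + 6) / a) * mean S g + ε := by
  obtain ⟨M, hM⟩ : ∃ M, M = b + 2 * L + 3 * T + 6 := ⟨_, rfl⟩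
  obtain ⟨m, hm⟩ : ∃ m, m = min a θ := ⟨_, rfl⟩
  obtain ⟨ρ0, hρ0⟩ : ∃ ρ0, ρ0 = min 1 (θ / 2 / (1 + 2 / θ)) := ⟨_, rfl⟩
  have hK : 0 < 1 + 2 / θ := by positivity
  have hm0 : 0 < m := hm ▸ lt_min ha hθ
  have hρ : 0 < ρ0 := hρ0 ▸ lt_min one_pos (by positivity)
  have hρ1 : ρ0 ≤ 1 := hρ0 ▸ min_le_left _ _
  have hρ2 : (1 + 2 / θ) * ρ0 ≤ θ / 2 := by
    rw [mul_comm, ← le_div_iff₀ hK, hρ0]; exact min_le_right _ _
  have hρ3 : ρ0 ≤ θ := by nlinarith [mul_pos (div_pos two_pos hθ) hρ]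
  obtain ⟨C, hC⟩ : ∃ C, C = |Real.log m| + |Real.log M| + 1 / m + 1 / (2 * m ^ 2) +
    8 * (1 + 2 / θ) ^ 3 / θ ^ 3 := ⟨_, rfl⟩
  have c1 : 0 ≤ |Real.log m| := abs_nonneg _
  have c2 : 0 ≤ |Real.log M| := abs_nonneg _
  have c3 : 0 < 1 / m := by positivity
  have c4 : 0 < 1 / (2 * m ^ 2) := by positivity
  have c5 : 0 < 8 * (1 + 2 / θ) ^ 3 / θ ^ 3 := by positivity
  obtain ⟨e0, he0, H⟩ := h C ρ0 L T ε (by linarith) hρ hL hT hε
  refine ⟨min e0 (ρ0 / 2), lt_min he0 (half_pos hρ), ?_⟩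
  intro α S W e A hS hne he hW σ hσ y g had hy hg
  rw [← hM]
  have he1 : e ≤ ρ0 / 2 := he.trans (min_le_right _ _)
  have he2 : 0 ≤ e := e_nn A hL hT hne.some_mem
  have hT1 : ∀ {x k}, x ∈ S → A.Lv k x → A.t k x ≤ T + 1 := fun hx hl => by
    linarith [t_bd hT he2 hx hl]
  have : ∀ x, ∃ G : ℝ → ℝ, x ∈ S →
      G (A.t (σ x) x) = A.w (σ x) x + y x ∧ Tr (W x) θ (A.t (σ x) x) (T + 1) G := fun x => by
    by_cases hx : x ∈ S
    · obtain ⟨G, hG⟩ := exists_tr (hW x hx) hθ (hT1 hx (hσ.2 x hx)) (A.w (σ x) x + y x)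
      exact ⟨G, fun _ => hG⟩
    · exact ⟨0, fun h => absurd h hx⟩
  choose G hG using this
  obtain ⟨X, hX⟩ : ∃ X : ℕ → α → ℝ, X = fun k x => G x (A.t k x) - A.w k x := ⟨_, rfl⟩
  have hX' : ∀ k x, X k x = G x (A.t k x) - W x (A.t k x) := fun k x => by rw [hX]; rfl
  have X0 : ∀ x ∈ S, X (σ x) x = y x := fun x hx => by rw [hX]; simp [(hG x hx).1]
  have tr : ∀ {x j k}, x ∈ S → σ x ≤ j → A.Lv j x → A.Lv k x →
      Tr (W x) θ (A.t j x) (A.t k x) (G x) := fun hx hj hl hl' =>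
    (hG _ hx).2.mono (t_le_t hx hj hl) (hT1 hx hl')
  have Xad : ∀ k x x', A.r k x x' → A.Lv k x → σ x ≤ k → X k x' = X k x :=
    fun k x x' hr hl hk => by
      have hx := A.mem k x x' hr
      have hx' := A.mem k x' x (A.symm k x x' hr)
      have e1 := st_eq hσ hr hk
      have hr' := r_le hk hr
      have h1 := tr hx le_rfl (hσ.2 x hx) hl
      have h2 := tr hx' le_rfl (hσ.2 x' hx') (lv_r hr hl)
      rw [e1, ad_t hr' (hσ.2 x hx), ad_t hr hl] at h2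
      have h3 := Tr.unique hθ h1 h2 (by
        have := (hG x' hx').1
        rw [e1, ad_t hr' (hσ.2 x hx), ad_w hr' (hσ.2 x hx), ← (had x x' hr').1] at this
        rw [this, (hG x hx).1])
        (fun u hu => (A.ad k x x' hr hl).2 u ⟨(t_nn hx (hσ.2 x hx)).trans hu.1, hu.2⟩)
        ⟨t_le_t hx hk hl, le_rfl⟩
      rw [hX]
      simp only [ad_t hr hl, ad_w hr hl, h3]
  obtain ⟨σ', hσ', hp⟩ := hit hσ (p := fun k x => X k x < θ + ρ0) fun k x x' hr hl hk hp => by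
    simpa only [Xad k x x' hr hl hk] using hp
  have mic : ∀ x ∈ S, ∀ i, σ x ≤ i → i < σ' x → ∀ u ∈ Icc (A.t i x) (A.t (i + 1) x),
      θ < G x u - W x u := fun x hx i h1 h2 u hu => by
    have hl := lv_le (Nat.succ_le_of_lt h2) (hσ'.2 x hx)
    have h3 := (tr hx h1 (lv_le i.le_succ hl) hl).low hθ (A.step x hx i hl).2.2 hu
    have h4 := not_lt.1 ((hp x hx).2.1 i h1 h2)
    rw [hX'] at h4
    linarith
  have bd : ∀ x ∈ S, ∀ j, σ x ≤ j → j ≤ σ' x → m ≤ X j x ∧ X j x ≤ M := fun x hx j h1 h2 => by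
    have hl := lv_le h2 (hσ'.2 x hx)
    constructor
    · rcases h1.eq_or_lt with rfl | h3
      · rw [X0 x hx, hm]; exact (min_le_left _ _).trans (hy x hx).1
      · obtain ⟨i, rfl⟩ : ∃ i, j = i + 1 := ⟨j - 1, by omega⟩
        rw [hX', hm]
        exact (min_le_right _ _).trans
          (mic x hx i (by omega) (by omega) _ ⟨(A.step x hx i hl).1, le_rfl⟩).le
    · have h0 := t_nn hx (hσ.2 x hx)
      have h3 := (tr hx le_rfl (hσ.2 x hx) hl).apriori (M := L + 1) (fun s hs => by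
        linarith [(abs_le.1 (w_bd hL he2 hx hl ⟨h0.trans hs.1, hs.2⟩)).2])
        ⟨t_le_t hx h1 hl, le_rfl⟩
      have h4 := (abs_le.1 (w_bd hL he2 hx hl ⟨t_nn hx hl, le_rfl⟩)).1
      have h5 := (abs_le.1 (w_bd hL he2 hx (hσ.2 x hx) ⟨h0, le_rfl⟩)).2
      have h6 : max (G x (A.t (σ x) x)) (L + 1 + 1) ≤ b + L + 2 := by
        rw [(hG x hx).1, AM.w]
        exact max_le (by linarith [(hy x hx).2]) (by linarith [(hy x hx).1, (hy x hx).2])
      rw [hX']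
      linarith [hT1 hx hl]
  have key := H α S W e A hS hne (he.trans (min_le_left _ _)) σ σ' hσ hσ' (fun x hx => (hp x hx).1)
    (fun k x => -(g x * Real.log (X k x))) (fun k x => g x * (1 / X k x))
    (fun k x => g x * (1 / (2 * X k x ^ 2))) ⟨fun j x x' hr h1 h2 => ?_, fun x hx j h1 h2 => ?_,
      fun x hx j k h1 h2 h3 ρ hr0 hr1 h4 h5 => ?_⟩
  rotate_left
  · have hl := lv_le h2.le (hσ'.2 x (A.mem j x x' hr))
    simp only [Xad j x x' hr hl h1, (had x x' (r_le h1 hr)).2, and_self]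
  · obtain ⟨b1, b2⟩ := bd x hx j h1 h2
    have b0 : 0 < X j x := hm0.trans_le b1
    have hg' : ∀ z, |g x * z| ≤ |z| := fun z => by
      rw [abs_mul, abs_of_nonneg (hg x hx).1]
      exact mul_le_of_le_one_left (abs_nonneg _) (hg x hx).2
    have l1 := Real.log_le_log hm0 b1
    have l2 := Real.log_le_log b0 b2
    have l3 : 1 / X j x ≤ 1 / m := by gcongr
    have l4 : 1 / (2 * X j x ^ 2) ≤ 1 / (2 * m ^ 2) := by gcongr
    refine ⟨?_, (hg' _).trans ?_, (hg' _).trans ?_⟩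
    · rw [abs_neg]
      refine (hg' _).trans (abs_le.2 ⟨?_, ?_⟩)
      · linarith [neg_abs_le (Real.log m)]
      · linarith [le_abs_self (Real.log M)]
    · rw [abs_of_pos (by positivity)]; linarith
    · rw [abs_of_pos (by positivity)]; linarith
  · rcases h2.eq_or_lt with rfl | h6
    · simp
    have hl := lv_le h3 (hσ'.2 x hx)
    have hjk := t_le_t hx h2 hl
    have h7 := not_lt.1 ((hp x hx).2.1 j h1 (h6.trans_le h3))
    rw [hX'] at h7
    have h8 := (tr hx h1 (lv_le h2 hl) hl).step hθ hjk hr0.le (hr1.trans hρ1)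
      (le_trans (by gcongr) hρ2) h4 h5 (by linarith)
    rw [← hX', ← hX'] at h8
    simp only [AM.w]
    have h9 : 0 ≤ ρ * ((W x (A.t k x) - W x (A.t j x)) ^ 2 + (A.t k x - A.t j x)) :=
      mul_nonneg hr0.le (add_nonneg (sq_nonneg _) (sub_nonneg.2 hjk))
    rw [mul_assoc] at h8
    rw [mul_assoc C]
    have h10 := mul_le_mul_of_nonneg_right (show 8 * (1 + 2 / θ) ^ 3 / θ ^ 3 ≤ C by linarith) h9
    have h11 := mul_le_mul_of_nonneg_left (neg_le_of_abs_le h8) (hg x hx).1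
    have h12 := mul_le_of_le_one_left (mul_nonneg c5.le h9) (hg x hx).2
    linarith
  rw [← End.mean_mul hS, ← End.mean_mul hS]
  refine le_trans ?_ (add_le_add le_rfl key)
  rw [← End.mean_add hS]
  refine End.mean_mono hS fun x hx => ?_
  obtain ⟨b1, b2⟩ := bd x hx _ (hp x hx).1 le_rfl
  have b0 : 0 < X (σ' x) x := hm0.trans_le b1
  have hM0 : 0 < M := b0.trans_le b2
  have l1 := Real.log_le_log ha (hy x hx).1
  have l2 := Real.log_le_log b0 b2
  have g0 := (hg x hx).1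
  rw [X0 x hx, Real.log_div hM0.ne' (by positivity), Real.log_div hM0.ne' ha.ne']
  by_cases hb : x ∈ {x | (∀ u ∈ Icc 0 T, |W x u| < L) ∧
      ¬Stay (W x) θ (A.t (σ x) x) T (A.w (σ x) x + y x)}
  · rw [indicator_of_mem hb]
    have : X (σ' x) x < θ + ρ0 := by
      by_contra hc
      have h1 := T_le hx (hσ'.2 x hx) ((hp x hx).2.2.resolve_left hc) hb.1
      refine hb.2 ⟨G x, (hG x hx).1, fun u hu => ?_⟩
      have h2 : θ < G x u - W x u := by
        rcases (hp x hx).1.eq_or_lt with h3 | h3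
        · have : u = A.t (σ' x) x := le_antisymm (hu.2.trans h1) (h3 ▸ hu.1)
          rw [this, ← hX']; linarith
        · obtain ⟨i, h4, h5, h6⟩ := cover (A := A) h3 ⟨hu.1, hu.2.trans h1⟩
          exact mic x hx i h4 h5 u h6
      refine ⟨h2, ?_⟩
      have := ((hG x hx).2.mono le_rfl (by linarith : T ≤ T + 1)) u hu
      rwa [max_eq_left h2.le] at this
    have l3 := Real.log_le_log b0 (show X (σ' x) x ≤ 2 * θ by linarith)
    simp only [Pi.one_apply]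
    nlinarith
  · rw [indicator_of_notMem hb]
    nlinarith

end Pool.Agent.Lib.MP_6359c9_pr.Bes
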