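import Mathlib

/-! The truncated Loewner equation for real points: existence, uniqueness, one step. -/

namespace Pool.Agent.Lib.MP_6359c9_pr.Bes

open Set

/-- `G` solves `G' = 2 / max (G - W) θ` on `[a, b]` -/
def Tr (W : ℝ → ℝ) (θ a b : ℝ) (G : ℝ → ℝ) : Prop :=
  ∀ s ∈ Icc a b, HasDerivWithinAt G (2 / max (G s - W s) θ) (Icc a b) s

variable {W W' G G' : ℝ → ℝ} {θ a b b' c : ℝ}

lemma lip (hθ : 0 < θ) (w : ℝ) :
    LipschitzWith (2 / θ ^ 2).toNNReal fun x : ℝ => 2 / max (x - w) θ := by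
  refine LipschitzWith.of_dist_le_mul fun x y => ?_
  have h1 : θ ≤ max (x - w) θ := le_max_right _ _
  have h2 : θ ≤ max (y - w) θ := le_max_right _ _
  have h3 : |max (y - w) θ - max (x - w) θ| ≤ |x - y| := by
    have := abs_max_sub_max_le_abs (y - w) (x - w) θ
    rwa [show y - w - (x - w) = -(x - y) by ring, abs_neg] at this
  rw [Real.coe_toNNReal _ (by positivity), Real.dist_eq, Real.dist_eq]
  generalize max (x - w) θ = p at *
  generalize max (y - w) θ = q at *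
  have hp : 0 < p := by linarith
  have hq : 0 < q := by linarith
  rw [show 2 / p - 2 / q = 2 / (p * q) * (q - p) by field_simp, abs_mul,
    abs_of_pos (by positivity : 0 < 2 / (p * q))]
  gcongr
  nlinarith

lemma exists_tr (hW : Continuous W) (hθ : 0 < θ) (hab : a ≤ b) (x : ℝ) :
    ∃ G, G a = x ∧ Tr W θ a b G := by
  have h : IsPicardLindelof (fun s y => 2 / max (y - W s) θ) (⟨a, left_mem_Icc.2 hab⟩ : Icc a b)
      x (2 / θ * (b - a)).toNNReal 0 (2 / θ).toNNReal (2 / θ ^ 2).toNNReal := by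
    refine ⟨fun s _ => (lip hθ _).lipschitzOnWith, fun y _ => ?_, fun s _ y _ => ?_, ?_⟩
    · refine Continuous.continuousOn (Continuous.div continuous_const (by fun_prop) fun s => ?_)
      exact (hθ.trans_le (le_max_right _ _)).ne'
    · have h1 : θ ≤ max (y - W s) θ := le_max_right _ _
      rw [Real.coe_toNNReal _ (by positivity), Real.norm_eq_abs,
        abs_of_pos (div_pos two_pos (hθ.trans_le h1))]
      gcongr
    · rw [Real.coe_toNNReal _ (by positivity),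
        Real.coe_toNNReal _ (mul_nonneg (by positivity) (sub_nonneg.2 hab))]
      simp [sub_nonneg.2 hab]
  exact h.exists_eq_forall_mem_Icc_hasDerivWithinAt₀

lemma Tr.mono (h : Tr W θ a b G) {a' b' : ℝ} (ha : a ≤ a') (hb : b' ≤ b) : Tr W θ a' b' G :=
  fun s hs => (h s ⟨ha.trans hs.1, hs.2.trans hb⟩).mono (Icc_subset_Icc ha hb)

lemma Tr.cont (h : Tr W θ a b G) : ContinuousOn G (Icc a b) :=
  fun s hs => (h s hs).continuousWithinAt

lemma Tr.right (h : Tr W θ a b G) {s : ℝ} (hs : s ∈ Ico a b) :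
    HasDerivWithinAt G (2 / max (G s - W s) θ) (Ici s) s :=
  (h s (Ico_subset_Icc_self hs)).mono_of_mem_nhdsWithin (Icc_mem_nhdsGE_of_mem hs)

lemma Tr.unique (hθ : 0 < θ) (h : Tr W θ a b G) (h' : Tr W' θ a b G') (h0 : G a = G' a)
    (hW : EqOn W W' (Icc a b)) : EqOn G G' (Icc a b) :=
  ODE_solution_unique (v := fun s y => 2 / max (y - W s) θ) (fun _ => lip hθ _) h.cont
    (fun s hs => h.right hs) h'.cont
    (fun s hs => by simpa only [hW (Ico_subset_Icc_self hs)] using h'.right hs) h0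

lemma Tr.le (hθ : 0 < θ) (h : Tr W θ a b G) {s : ℝ} (hs : s ∈ Icc a b) : G a ≤ G s := by
  have := image_le_of_deriv_right_le_deriv_boundary (f := fun _ => G a) (f' := fun _ => 0)
    continuousOn_const (fun x _ => hasDerivWithinAt_const _ _ _) le_rfl h.cont
    (fun x hx => h.right hx)
    (fun x _ => (div_pos two_pos (hθ.trans_le (le_max_right _ _))).le) hs
  exact this

lemma Tr.sub_le (hθ : 0 < θ) (h : Tr W θ a b G) {s : ℝ} (hs : s ∈ Icc a b) :
    G s - G a ≤ 2 / θ * (s - a) := by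
  refine (le_abs_self _).trans (norm_image_sub_le_of_norm_deriv_le_segment' h (fun x _ => ?_) s hs)
  have h1 : θ ≤ max (G x - W x) θ := le_max_right _ _
  rw [Real.norm_eq_abs, abs_of_pos (div_pos two_pos (hθ.trans_le h1))]
  gcongr

/-- a bound that does not depend on the truncation -/
lemma Tr.apriori (h : Tr W θ a b G) {M : ℝ} (hM : ∀ s ∈ Icc a b, W s ≤ M) {s : ℝ}
    (hs : s ∈ Icc a b) : G s ≤ max (G a) (M + 1) + 3 * (s - a) := by
  refine image_le_of_deriv_right_lt_deriv_boundary (B := fun s => max (G a) (M + 1) + 3 * (s - a))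
    (B' := fun _ => 3) h.cont (fun x hx => h.right hx) (by simp) (fun x => ?_)
    (fun x hx he => ?_) hs
  · simpa using (((hasDerivAt_id x).sub_const a).const_mul 3).const_add (max (G a) (M + 1))
  · have h1 := hM x (Ico_subset_Icc_self hx)
    have h2 : M + 1 ≤ max (G a) (M + 1) := le_max_right _ _
    have h3 : 1 ≤ max (G x - W x) θ := le_max_of_le_left (by linarith [hx.1])
    have : 2 / max (G x - W x) θ ≤ 2 := div_le_self two_pos.le h3
    linarith

lemma log_exp {u : ℝ} (hu : |u| ≤ 1 / 2) : |Real.log (1 + u) - (u - u ^ 2 / 2)| ≤ 2 * |u| ^ 3 := by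
  have h := Real.abs_log_sub_add_sum_range_le (x := -u) (by rw [abs_neg]; linarith) 2
  simp only [Finset.sum_range_succ, Finset.range_zero, Finset.sum_empty, abs_neg,
    sub_neg_eq_add] at h
  have e : Real.log (1 + u) - (u - u ^ 2 / 2) =
      0 + (-u) ^ (0 + 1) / (((0 : ℕ) : ℝ) + 1) + (-u) ^ (1 + 1) / (((1 : ℕ) : ℝ) + 1) +
        Real.log (1 + u) := by
    push_cast; ring
  rw [e]
  refine h.trans ?_
  rw [div_le_iff₀ (by linarith)]
  have : 0 ≤ |u| ^ 3 := by positivity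
  norm_num
  nlinarith

lemma Tr.low (hθ : 0 < θ) (h : Tr W θ a b G) {ρ : ℝ} (hW : ∀ u ∈ Icc a b, |W u - W a| ≤ ρ)
    {u : ℝ} (hu : u ∈ Icc a b) : G a - W a - ρ ≤ G u - W u := by
  linarith [h.le hθ hu, (abs_le.1 (hW u hu)).2]

/-- second order expansion of the logarithm along a block -/
lemma Tr.step (hθ : 0 < θ) (h : Tr W θ a b G) (hab : a ≤ b) {ρ : ℝ} (hρ : 0 ≤ ρ) (hρ1 : ρ ≤ 1)
    (hρθ : (1 + 2 / θ) * ρ ≤ θ / 2) (ht : b - a ≤ ρ) (hW : ∀ u ∈ Icc a b, |W u - W a| ≤ ρ)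
    (hy : θ + ρ ≤ G a - W a) :
    |Real.log (G b - W b) - Real.log (G a - W a) - (-(1 / (G a - W a)) * (W b - W a) -
      1 / (2 * (G a - W a) ^ 2) * ((W b - W a) ^ 2 - 4 * (b - a)))| ≤
      8 * (1 + 2 / θ) ^ 3 / θ ^ 3 * ρ * ((W b - W a) ^ 2 + (b - a)) := by
  obtain ⟨K, hK⟩ : ∃ K, K = 1 + 2 / θ := ⟨_, rfl⟩
  rw [← hK] at hρθ ⊢
  have hθ2 : 0 < 2 / θ := by positivity
  have hK1 : 1 ≤ K := by linarith
  have hG : ∀ u ∈ Icc a b, 0 ≤ G u - G a ∧ G u - G a ≤ 2 / θ * (b - a) ∧ G u - G a ≤ 2 / θ * ρ :=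
    fun u hu => by
      have h1 := h.sub_le hθ hu
      have h2 : 2 / θ * (u - a) ≤ 2 / θ * (b - a) := by gcongr; exact hu.2
      have h3 : 2 / θ * (b - a) ≤ 2 / θ * ρ := by gcongr
      exact ⟨sub_nonneg.2 (h.le hθ hu), by linarith, by linarith⟩
  have hX : ∀ u ∈ Icc a b, |G u - W u - (G a - W a)| ≤ K * ρ := fun u hu => by
    obtain ⟨h1, -, h2⟩ := hG u hu
    obtain ⟨h3, h4⟩ := abs_le.1 (hW u hu)
    have : 0 ≤ 2 / θ * ρ := by positivity
    rw [hK]
    exact abs_le.2 ⟨by linarith, by linarith⟩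
  have hb : b ∈ Icc a b := right_mem_Icc.2 hab
  have hlow := fun u hu => h.low hθ hW (u := u) hu
  obtain ⟨y, hy'⟩ : ∃ y, y = G a - W a := ⟨_, rfl⟩
  rw [← hy'] at hy hX hlow ⊢
  have hyθ : θ ≤ y := by linarith
  have hy0 : 0 < y := by linarith
  have h1 : |G b - G a - 2 * (b - a) / y| ≤ 2 / θ ^ 2 * (K * ρ) * (b - a) := by
    have := norm_image_sub_le_of_norm_deriv_le_segment' (f := fun s => G s - 2 / y * s)
      (f' := fun s => 2 / max (G s - W s) θ - 2 / y * 1) (C := 2 / θ ^ 2 * (K * ρ)) (a := a) (b := b)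
      (fun s hs => (h s hs).sub (((hasDerivAt_id s).const_mul (2 / y)).hasDerivWithinAt))
      (fun s hs => by
        have h2 := hX s (Ico_subset_Icc_self hs)
        have h4 : θ ≤ G s - W s := by linarith [hlow s (Ico_subset_Icc_self hs)]
        rw [max_eq_left h4, Real.norm_eq_abs]
        generalize G s - W s = p at *
        have hp : 0 < p := by linarith
        rw [show 2 / p - 2 / y * 1 = 2 / (p * y) * -(p - y) by field_simp; ring, abs_mul, abs_neg,
          abs_of_pos (by positivity : 0 < 2 / (p * y)), sq]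
        gcongr) b hb
    rwa [Real.norm_eq_abs, show G b - 2 / y * b - (G a - 2 / y * a) =
      G b - G a - 2 * (b - a) / y by ring] at this
  obtain ⟨g0, g1, g2⟩ := hG b hb
  have hw := hW b hb
  have hu0 := hX b hb
  have e0 : G b - W b = y + (G b - G a - (W b - W a)) := by rw [hy']; ring
  rw [e0] at hu0 ⊢
  have hτ : 0 ≤ b - a := sub_nonneg.2 hab
  generalize G b - G a = g at *
  generalize W b - W a = w at *
  generalize b - a = τ at *
  rw [add_sub_cancel_left] at hu0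
  have e1 : y + (g - w) = y * (1 + (g - w) / y) := by field_simp
  have hu : |(g - w) / y| ≤ K * ρ / θ := by
    rw [abs_div, abs_of_pos hy0]
    gcongr
  have hu2 : |(g - w) / y| ≤ 1 / 2 := hu.trans (by rw [div_le_iff₀ hθ]; linarith)
  have h2 := log_exp hu2
  have hK3 : K ≤ K ^ 3 := le_self_pow₀ hK1 (by norm_num)
  have h3 : 2 * |(g - w) / y| ^ 3 ≤ 4 * K ^ 3 / θ ^ 3 * ρ * (w ^ 2 + τ) := by
    have k1 : g ^ 2 ≤ K ^ 2 * τ := by
      have : g ≤ K * τ := g1.trans (by gcongr; linarith)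
      calc g ^ 2 ≤ (K * τ) ^ 2 := by gcongr
        _ = K ^ 2 * τ * τ := by ring
        _ ≤ K ^ 2 * τ * 1 := by gcongr; linarith
        _ = K ^ 2 * τ := mul_one _
    have k2 : w ^ 2 ≤ K ^ 2 * w ^ 2 := le_mul_of_one_le_left (sq_nonneg _) (one_le_pow₀ hK1)
    have k3 : (g - w) ^ 2 ≤ 2 * K ^ 2 * (w ^ 2 + τ) := by nlinarith [sq_nonneg (g + w)]
    have k4 : |(g - w) / y| ^ 2 ≤ 2 * K ^ 2 * (w ^ 2 + τ) / θ ^ 2 := by
      rw [sq_abs, div_pow]
      gcongr
    calc 2 * |(g - w) / y| ^ 3 = 2 * (|(g - w) / y| * |(g - w) / y| ^ 2) := by ring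
      _ ≤ 2 * (K * ρ / θ * (2 * K ^ 2 * (w ^ 2 + τ) / θ ^ 2)) := by gcongr
      _ = _ := by field_simp; ring
  have h4 : |(g - 2 * τ / y) / y| ≤ 2 * K / θ ^ 3 * ρ * τ := by
    rw [abs_div, abs_of_pos hy0,
      show 2 * K / θ ^ 3 * ρ * τ = 2 / θ ^ 2 * (K * ρ) * τ / θ by field_simp]
    gcongr
  have h5 : |g * (g - 2 * w) / (2 * y ^ 2)| ≤ 2 * K / θ ^ 3 * ρ * τ := by
    have : |g - 2 * w| ≤ 2 * (K * ρ) := by
      obtain ⟨k1, k2⟩ := abs_le.1 hw
      have : 0 ≤ 2 / θ * ρ := by positivity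
      rw [hK]
      exact abs_le.2 ⟨by linarith, by linarith⟩
    rw [abs_div, abs_mul, abs_of_nonneg g0, abs_of_pos (by positivity : 0 < 2 * y ^ 2),
      show 2 * K / θ ^ 3 * ρ * τ = 2 / θ * τ * (2 * (K * ρ)) / (2 * θ ^ 2) by field_simp]
    gcongr
  rw [e1, Real.log_mul hy0.ne' (by linarith [(abs_le.1 hu2).1]),
    show Real.log y + Real.log (1 + (g - w) / y) - Real.log y - (-(1 / y) * w -
      1 / (2 * y ^ 2) * (w ^ 2 - 4 * τ)) =
      (Real.log (1 + (g - w) / y) - ((g - w) / y - ((g - w) / y) ^ 2 / 2)) +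
        ((g - 2 * τ / y) / y - g * (g - 2 * w) / (2 * y ^ 2)) by field_simp; ring]
  refine (abs_add_le _ _).trans ((add_le_add le_rfl (abs_sub _ _)).trans ?_)
  have h6 : 2 * K / θ ^ 3 * ρ * τ ≤ 2 * K ^ 3 / θ ^ 3 * ρ * (w ^ 2 + τ) := by
    gcongr
    linarith [sq_nonneg w]
  have : 8 * K ^ 3 / θ ^ 3 * ρ * (w ^ 2 + τ) = 4 * K ^ 3 / θ ^ 3 * ρ * (w ^ 2 + τ) +
      (2 * K ^ 3 / θ ^ 3 * ρ * (w ^ 2 + τ) + 2 * K ^ 3 / θ ^ 3 * ρ * (w ^ 2 + τ)) := by ring
  linarith

/-- uniqueness for the equation `G' = 2 / (G - W)` -/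
lemma sol_unique (hW : ContinuousOn W (Icc a b)) (h0 : G a = G' a)
    (h : ∀ s ∈ Icc a b, W s < G s ∧ HasDerivWithinAt G (2 / (G s - W s)) (Icc a b) s)
    (h' : ∀ s ∈ Icc a b, W s < G' s ∧ HasDerivWithinAt G' (2 / (G' s - W s)) (Icc a b) s) :
    EqOn G G' (Icc a b) := by
  rcases (Icc a b).eq_empty_or_nonempty with he | hne
  · simp [he]
  have c1 : ContinuousOn G (Icc a b) := fun s hs => (h s hs).2.continuousWithinAt
  have c2 : ContinuousOn G' (Icc a b) := fun s hs => (h' s hs).2.continuousWithinAt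
  obtain ⟨p, hp, h1⟩ := isCompact_Icc.exists_isMinOn hne (c1.sub hW)
  obtain ⟨q, hq, h2⟩ := isCompact_Icc.exists_isMinOn hne (c2.sub hW)
  refine Tr.unique (W := W) (W' := W) (θ := min (G p - W p) (G' q - W q))
    (lt_min (sub_pos.2 (h p hp).1) (sub_pos.2 (h' q hq).1)) (fun s hs => ?_) (fun s hs => ?_) h0
    fun _ _ => rfl
  · rw [max_eq_left ((min_le_left _ _).trans (h1 hs))]; exact (h s hs).2
  · rw [max_eq_left ((min_le_right _ _).trans (h2 hs))]; exact (h' s hs).2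

end Pool.Agent.Lib.MP_6359c9_pr.Bes
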