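import Pool.Agent.Lib.MP_6359c9_pr.BmChf

/-! Modulus of continuity and the uniform bound. -/

namespace Pool.Agent.Lib.MP_6359c9_pr.Bm

open Set Filter Topology End

/-- a large increment in a short time is unlikely -/
lemma tail_one {L T η h : ℝ} (hL : 0 < L) (hT : 0 < T) (hη : 0 < η) (hh : 0 < h) :
    ∃ e0 > (0 : ℝ), ∀ (α : Type) (S : Set α) (W : α → ℝ → ℝ) (e : ℝ) (A : AM S W L T e), S.Finite →
    S.Nonempty → e ≤ e0 → ∀ σ σ' : α → ℕ, A.St σ → A.St σ' → (∀ x ∈ S, σ x ≤ σ' x) →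
    (∀ x ∈ S, A.t (σ' x) x - A.t (σ x) x ≤ h) →
    mean S ({x | η ≤ |A.w (σ' x) x - A.w (σ x) x|}.indicator 1) ≤
      4 * Real.exp (-(η ^ 2 / (8 * h))) := by
  let θ := η / (4 * h)
  have hθ : 0 < θ := by positivity
  obtain ⟨e1, he1, H1⟩ := exp_mart (θ : ℂ) hL hT one_pos
  obtain ⟨e2, he2, H2⟩ := exp_mart ((-θ : ℝ) : ℂ) hL hT one_pos
  refine ⟨min e1 e2, by positivity, fun α S W e A hS hn he σ σ' h1 h2 hle ht => ?_⟩
  have eX : ∀ (a : ℝ) x, (1 : ℝ) * (1 * A.X a (σ x) (σ' x) x).re = Real.exp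
      (a * (A.w (σ' x) x - A.w (σ x) x) - 2 * a ^ 2 * (A.t (σ' x) x - A.t (σ x) x)) := by
    intro a x
    rw [one_mul, one_mul, AM.X, ← Complex.exp_ofReal_re]
    congr 2
    push_cast
    ring
  have K1 := H1 α S W e A hS hn (he.trans (min_le_left _ _)) σ σ' h1 h2 hle (fun _ => 1)
    (fun _ _ _ => rfl) (by simp) 1 (by simp)
  have K2 := H2 α S W e A hS hn (he.trans (min_le_right _ _)) σ σ' h1 h2 hle (fun _ => 1)
    (fun _ _ _ => rfl) (by simp) 1 (by simp)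
  simp only [eX, mean_const hS hn, Complex.one_re, mul_one] at K1 K2
  have K3 := mean_mono hS (f := {x | η ≤ |A.w (σ' x) x - A.w (σ x) x|}.indicator 1)
    (g := fun x => Real.exp (-(η ^ 2 / (8 * h))) * (Real.exp
      (θ * (A.w (σ' x) x - A.w (σ x) x) - 2 * θ ^ 2 * (A.t (σ' x) x - A.t (σ x) x)) + Real.exp
      (-θ * (A.w (σ' x) x - A.w (σ x) x) - 2 * (-θ) ^ 2 * (A.t (σ' x) x - A.t (σ x) x))))
    fun x hx => by
      by_cases hb : x ∈ {x | η ≤ |A.w (σ' x) x - A.w (σ x) x|}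
      · rw [indicator_of_mem hb, Pi.one_apply, mul_add, ← Real.exp_add, ← Real.exp_add]
        have e1 : η ^ 2 / (8 * h) = θ * η - 2 * θ ^ 2 * h := by simp only [θ]; field_simp; ring
        have a1 := mul_le_mul_of_nonneg_left (ht x hx) (sq_nonneg θ)
        rcases le_abs.1 (show η ≤ _ from hb) with hc | hc
        · refine le_add_of_le_of_nonneg (Real.one_le_exp ?_) (Real.exp_pos _).le
          nlinarith [mul_le_mul_of_nonneg_left hc hθ.le]
        · refine le_add_of_nonneg_of_le (Real.exp_pos _).le (Real.one_le_exp ?_)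
          nlinarith [mul_le_mul_of_nonneg_left hc hθ.le]
      · rw [indicator_of_notMem hb]; positivity
  rw [mean_mul hS, mean_add hS] at K3
  nlinarith [(abs_le.1 K1).2, (abs_le.1 K2).2, Real.exp_pos (-(η ^ 2 / (8 * h)))]

theorem mod_one {T ε : ℝ} (hT : 0 < T) (hε : 0 < ε) : ∃ h > (0 : ℝ), ∃ L > (0 : ℝ),
    ∃ e0 > (0 : ℝ), ∀ (α : Type) (S : Set α) (W : α → ℝ → ℝ) (e : ℝ) (_ : AM S W L (T + 2) e),
    S.Finite → S.Nonempty → e ≤ e0 →
    mean S ({x | ∃ u ∈ Icc 0 T, ∃ v ∈ Icc 0 T, |u - v| ≤ h ∧ ε < |W x u - W x v|}.indicator 1) ≤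
      ε := by
  classical
  have hT2 : 0 < T + 2 := by positivity
  let η := ε / 4
  have hη : 0 < η := by positivity
  obtain ⟨h, hh, hh1, hh2⟩ : ∃ h > (0 : ℝ), h ≤ 1 ∧ 4608 * (T + 1) * h ≤ ε / 2 * η ^ 4 := by
    refine ⟨min 1 (ε / 2 * η ^ 4 / (4608 * (T + 1))), by positivity, min_le_left _ _, ?_⟩
    rw [mul_comm, ← le_div_iff₀ (by positivity)]
    exact min_le_right _ _
  obtain ⟨L, hL, H1⟩ := exit_small hT2 (half_pos hε)
  obtain ⟨e1, he1, H2⟩ := tail_one hL hT2 hη (h := 3 * h) (by positivity)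
  refine ⟨h, hh, L, hL, min (min e1 1) (min h (ε / 8)), by positivity,
    fun α S W e A hS hn he => ?_⟩
  simp only [le_min_iff] at he
  obtain ⟨⟨ha, hb⟩, hc, hd⟩ := he
  have he0 := A.e_nn hS
  let σ : ℕ → α → ℕ := fun j => A.at' (j * h)
  let P : ℕ → ℕ → α → Prop := fun j k x =>
    η ≤ |A.w k x - A.w (σ j x) x| ∨ 2 * h ≤ A.t k x - A.t (σ j x) x
  let σ' : ℕ → α → ℕ := fun j => AM.hit (σ j) A.tau (P j)
  have s1 : ∀ j, A.St (σ j) := fun j => A.st_at _
  have s2 : ∀ j, A.St (σ' j) := fun j => (s1 j).full A.st_tau (fun x hx => (s1 j).le_tau hx) _ _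
  have s3 : ∀ j, ∀ x ∈ S, σ j x ≤ σ' j x ∧ σ' j x ≤ A.tau x ∧ (P j (σ' j x) x ∨ σ' j x = A.tau x) ∧
      ∀ k, σ j x ≤ k → k < σ' j x → ¬P j k x := fun j x hx => AM.hit_spec _ ((s1 j).le_tau hx)
  have s4 : ∀ j, ∀ x ∈ S, A.t (σ' j x) x - A.t (σ j x) x ≤ 2 * h + e ∧
      ∀ u ∈ Icc (A.t (σ j x) x) (A.t (σ' j x) x), |W x u - A.w (σ j x) x| ≤ η + e :=
    fun j x hx => AM.block he0 hη.le (by positivity) hx (s3 j x hx).1 ((s2 j).2 x hx)
      (s3 j x hx).2.2.2
  let B : ℕ → Set α := fun j => {x | η ≤ |A.w (σ' j x) x - A.w (σ j x) x|}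
  let J := ⌊T / h⌋₊ + 1
  have K1 := H1 L le_rfl α S W e A hS hn hb
  have K2 : ∀ j, mean S ((B j).indicator 1) ≤ 4608 * h ^ 2 / η ^ 4 := fun j => by
    refine (H2 α S W e A hS hn ha _ _ (s1 j) (s2 j) (fun x hx => (s3 j x hx).1)
      fun x hx => by linarith [(s4 j x hx).1]).trans ?_
    have a1 := Real.quadratic_le_exp_of_nonneg (x := η ^ 2 / (8 * (3 * h))) (by positivity)
    have a2 : (η ^ 2 / (8 * (3 * h))) ^ 2 / 2 ≤ Real.exp (η ^ 2 / (8 * (3 * h))) :=
      le_trans (le_add_of_nonneg_left (by positivity)) a1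
    rw [Real.exp_neg]
    calc _ ≤ 4 * ((η ^ 2 / (8 * (3 * h))) ^ 2 / 2)⁻¹ := by gcongr
      _ = _ := by field_simp; norm_num
  have K3 := mean_mono hS (f := {x | ∃ u ∈ Icc 0 T, ∃ v ∈ Icc 0 T, |u - v| ≤ h ∧
      ε < |W x u - W x v|}.indicator 1) (g := fun x => A.Bad.indicator 1 x +
      ∑ j ∈ Finset.range J, (B j).indicator 1 x) fun x hx => by
    have n1 : ∀ (U : Set α), (0 : ℝ) ≤ U.indicator 1 x := fun U =>
      indicator_nonneg (fun _ _ => zero_le_one) x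
    have n2 := Finset.sum_nonneg (s := Finset.range J) fun j _ => n1 (B j)
    refine indicator_apply_le' (fun hm => ?_) fun _ => add_nonneg (n1 _) n2
    by_cases hb : x ∈ A.Bad
    · rw [indicator_of_mem hb]; exact le_add_of_nonneg_right n2
    suffices ∃ j < J, x ∈ B j by
      obtain ⟨j, hj, hj'⟩ := this
      have := Finset.single_le_sum (f := fun j => (B j).indicator (1 : α → ℝ) x)
        (fun j _ => n1 (B j)) (Finset.mem_range.2 hj)
      simp only [indicator_of_mem hj'] at this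
      exact le_add_of_nonneg_of_le (n1 _) this
    by_contra hB
    push Not at hB
    have key : ∀ u ∈ Icc 0 T, ∀ v ∈ Icc 0 T, u ≤ v → v - u ≤ h → |W x u - W x v| ≤ ε := by
      intro u hu v hv huv hvu
      let j := ⌊u / h⌋₊
      have j1 : j * h ≤ u := by
        rw [← le_div_iff₀ hh]; exact Nat.floor_le (div_nonneg hu.1 hh.le)
      have j2 : u < (j + 1) * h := by rw [← div_lt_iff₀ hh]; exact Nat.lt_floor_add_one _
      have j3 : j < J := Nat.lt_succ_of_le (Nat.floor_mono (by gcongr; exact hu.2))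
      have b1 := A.le_at hx hb (s := j * h) (by linarith [hu.2])
      have b2 := (A.at_le he0 hx (s := j * h) (by positivity)).2
      have b3 : j * h + 2 * h ≤ A.t (σ' j x) x := by
        rcases (s3 j x hx).2.2.1 with (h1 | h1) | h1
        · exact absurd h1 (hB j j3)
        · linarith
        · rw [h1]; linarith [A.good_t hx hb, hu.2]
      have b4 : ∀ z, j * h ≤ z → z ≤ j * h + 2 * h → |W x z - A.w (σ j x) x| ≤ η + 2 * e := by
        intro z z1 z2
        rcases le_total z (A.t (σ j x) x) with h1 | h1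
        · linarith [b2 z ⟨z1, h1⟩]
        · linarith [(s4 j x hx).2 z ⟨h1, z2.trans b3⟩]
      have c1 := abs_le.1 (b4 u j1 (by linarith))
      have c2 := abs_le.1 (b4 v (by linarith) (by linarith))
      simp only [η] at c1 c2
      exact abs_le.2 ⟨by linarith, by linarith⟩
    obtain ⟨u, hu, v, hv, h1, h2⟩ := hm
    rcases le_total u v with h3 | h3
    · exact h2.not_ge (key u hu v hv h3 (by linarith [(abs_le.1 h1).1]))
    · rw [abs_sub_comm] at h2
      exact h2.not_ge (key v hv u hu h3 (by linarith [(abs_le.1 h1).2]))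
  rw [mean_add hS, mean_sum hS] at K3
  have K4 := Finset.sum_le_card_nsmul (Finset.range J) _ _ fun j _ => K2 j
  rw [Finset.card_range, nsmul_eq_mul] at K4
  have K5 : (J : ℝ) * h ≤ T + 1 := by
    have := Nat.floor_le (a := T / h) (by positivity)
    rw [le_div_iff₀ hh] at this
    simp only [J]
    push_cast
    linarith
  have K6 : (J : ℝ) * (4608 * h ^ 2 / η ^ 4) ≤ ε / 2 := by
    rw [← mul_div_assoc, div_le_iff₀ (by positivity)]
    nlinarith
  linarith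

theorem modOut {α : ℕ → Type} {S : ∀ n, Set (α n)} {W : ∀ n, α n → ℝ → ℝ} (h : Seq S W) :
    ModOut S W := by
  intro T ε hT hε
  obtain ⟨h0, hh, L, hL, e0, he0, H⟩ := mod_one hT hε
  refine ⟨h0, hh, ?_⟩
  filter_upwards [h.2 L (T + 2) e0 hL (by positivity) he0] with n ⟨A⟩
  exact H _ _ _ _ A (h.1 n).1 (h.1 n).2 le_rfl

/-- uniform bound on `[0, T]` -/
theorem supOut {α : ℕ → Type} {S : ∀ n, Set (α n)} {W : ∀ n, α n → ℝ → ℝ} (h : Seq S W)
    {T ε : ℝ} (hT : 0 < T) (hε : 0 < ε) : ∃ L > (0 : ℝ), ∀ᶠ n in atTop,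
      mean (S n) ({x | ∃ u ∈ Icc 0 T, L < |W n x u|}.indicator 1) ≤ ε := by
  obtain ⟨L, hL, H⟩ := exit_small hT hε
  refine ⟨L + 1, by positivity, ?_⟩
  filter_upwards [h.2 L T 1 hL hT one_pos] with n ⟨A⟩
  refine le_trans (mean_mono (h.1 n).1 fun x hx => ?_) (H L le_rfl _ _ _ _ A (h.1 n).1 (h.1 n).2 le_rfl)
  refine indicator_apply_le' (fun ⟨u, hu, h1⟩ => ?_) fun _ =>
    indicator_nonneg (fun _ _ => zero_le_one) x
  by_cases hb : x ∈ A.Bad
  · rw [indicator_of_mem hb]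
  · exact absurd (A.good_w hL.le zero_le_one hx hb u hu) h1.not_ge

/-- the paths start at zero -/
theorem zeroOut {α : ℕ → Type} {S : ∀ n, Set (α n)} {W : ∀ n, α n → ℝ → ℝ} (h : Seq S W) :
    ∀ᶠ n in atTop, ∀ x ∈ S n, W n x 0 = 0 := by
  filter_upwards [h.2 1 1 1 one_pos one_pos one_pos] with n ⟨A⟩ using A.w0

end Pool.Agent.Lib.MP_6359c9_pr.Bm
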