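import Pool.Agent.Lib.MP_6359c9_pr.Bm5B
import Pool.Agent.Lib.MP_6359c9_pr.BmMod

/-! The laws of the driving functions converge to the law of `2 B`. -/

namespace Pool.Agent.Lib.MP_6359c9_pr.Bm

open Set Filter Topology MeasureTheory ProbabilityTheory Real
open scoped NNReal ENNReal

lemma int_bdd {ν : Measure Pth} [IsProbabilityMeasure ν] {F : Pth → ℝ} (c : Continuous F)
    (b : ∀ w, |F w| ≤ 1) : Integrable F ν :=
  (integrable_const (1 : ℝ)).mono' c.aestronglyMeasurable (Eventually.of_forall b)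

lemma abs_mul_le_one {a b : ℝ} (ha : |a| ≤ 1) (hb : |b| ≤ 1) : |a * b| ≤ 1 := by
  rw [abs_mul]; exact mul_le_one₀ ha (abs_nonneg _) hb

lemma int_exp {ν : Measure Pth} [IsProbabilityMeasure ν] {F : Pth → ℝ} (c : Continuous F)
    {a : ℝ} (h1 : ∫ w, cos (F w) ∂ν = a) (h2 : ∫ w, sin (F w) ∂ν = 0) :
    ∫ w, Complex.exp (F w * Complex.I) ∂ν = a := by
  have i1 := int_bdd (ν := ν) (F := fun w => cos (F w)) (by fun_prop) fun w => abs_cos_le_one _
  have i2 := int_bdd (ν := ν) (F := fun w => sin (F w)) (by fun_prop) fun w => abs_sin_le_one _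
  simp only [Complex.exp_mul_I, ← Complex.ofReal_cos, ← Complex.ofReal_sin]
  rw [integral_add i1.ofReal (i2.ofReal.mul_const _), integral_mul_const, integral_complex_ofReal,
    integral_complex_ofReal, h1, h2]
  simp

/-- independent Gaussian increments through trigonometric integrals -/
structure Trig (ν : Measure Pth) : Prop where
  zero : ∀ θ : ℝ, ∫ w, cos (θ * w 0) ∂ν = 1 ∧ ∫ w, sin (θ * w 0) ∂ν = 0
  step : ∀ (k : ℕ) (c : ℕ → ℝ) (p q : ℕ → ℝ≥0) (s s' : ℝ≥0) (θ : ℝ) (φ : ℝ → ℝ), Continuous φ →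
    (∀ y, |φ y| ≤ 1) → (∀ i < k, p i ≤ s ∧ q i ≤ s) → s ≤ s' →
    ∫ w, φ (∑ i ∈ Finset.range k, c i * (w (p i) - w (q i))) * cos (θ * (w s' - w s)) ∂ν =
      exp (-2 * θ ^ 2 * (s' - s)) *
        ∫ w, φ (∑ i ∈ Finset.range k, c i * (w (p i) - w (q i))) ∂ν ∧
    ∫ w, φ (∑ i ∈ Finset.range k, c i * (w (p i) - w (q i))) * sin (θ * (w s' - w s)) ∂ν = 0

lemma Trig.sum {ν : Measure Pth} [IsProbabilityMeasure ν] (h : Trig ν) {t : ℕ → ℝ≥0}
    (ht : Monotone t) (c : ℕ → ℝ) (k : ℕ) :
    ∫ w, cos (∑ i ∈ Finset.range k, c i * (w (t (i + 1)) - w (t i))) ∂ν =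
      ∏ i ∈ Finset.range k, exp (-2 * c i ^ 2 * (t (i + 1) - t i)) ∧
    ∫ w, sin (∑ i ∈ Finset.range k, c i * (w (t (i + 1)) - w (t i))) ∂ν = 0 := by
  induction k with
  | zero => simp
  | succ k ih =>
    have hk : ∀ i < k, t (i + 1) ≤ t k ∧ t i ≤ t k := fun i hi => ⟨ht hi, ht hi.le⟩
    have a := h.step k c (fun i => t (i + 1)) t (t k) (t (k + 1)) (c k) cos continuous_cos
      abs_cos_le_one hk (ht k.le_succ)
    have b := h.step k c (fun i => t (i + 1)) t (t k) (t (k + 1)) (c k) sin continuous_sin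
      abs_sin_le_one hk (ht k.le_succ)
    simp only [Finset.sum_range_succ, Finset.prod_range_succ, cos_add, sin_add]
    rw [integral_sub, integral_add, a.1, a.2, b.1, b.2, ih.1, ih.2]
    · exact ⟨by ring, by ring⟩
    · exact int_bdd (by fun_prop) fun w => abs_mul_le_one (abs_sin_le_one _) (abs_cos_le_one _)
    · exact int_bdd (by fun_prop) fun w => abs_mul_le_one (abs_cos_le_one _) (abs_sin_le_one _)
    · exact int_bdd (by fun_prop) fun w => abs_mul_le_one (abs_cos_le_one _) (abs_cos_le_one _)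
    · exact int_bdd (by fun_prop) fun w => abs_mul_le_one (abs_sin_le_one _) (abs_sin_le_one _)

lemma Trig.chf {ν : Measure Pth} [IsProbabilityMeasure ν] (h : Trig ν) {s s' : ℝ≥0} (hs : s ≤ s')
    (θ : ℝ) : charFun (ν.map fun w => w s' / 2 - w s / 2) θ =
      (exp (-2 * (θ / 2) ^ 2 * (s' - s)) : ℝ) := by
  have a := h.step 0 0 0 0 s s' (θ / 2) (fun _ => 1) continuous_const (by simp) (by simp) hs
  simp only [one_mul, integral_const, probReal_univ, smul_eq_mul, mul_one] at a
  rw [charFun_apply_real, integral_map (by fun_prop) (by fun_prop),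
    ← int_exp (by fun_prop) a.1 a.2]
  refine integral_congr_ae (Eventually.of_forall fun w => ?_)
  push_cast
  ring_nf

lemma Trig.isW {ν : Measure Pth} [IsProbabilityMeasure ν] (h : Trig ν) : IsW ν := by
  have z : ∀ᵐ w ∂ν, w 0 / 2 = 0 := by
    refine HasLaw.ae_eq_of_dirac ⟨((meas_ev 0).div_const 2).aemeasurable,
      Measure.ext_of_charFun (funext fun θ => ?_)⟩
    rw [charFun_apply_real, integral_map ((meas_ev 0).div_const 2).aemeasurable (by fun_prop),
      charFun_dirac]
    have := int_exp (ν := ν) (by fun_prop) (h.zero (θ / 2)).1 (h.zero (θ / 2)).2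
    simp only [inner_zero_left, Complex.ofReal_zero, zero_mul, Complex.exp_zero]
    rw [← Complex.ofReal_one, ← this]
    refine integral_congr_ae (Eventually.of_forall fun w => ?_)
    push_cast
    ring_nf
  refine ⟨HasIndepIncrements.isPreBrownianReal_of_hasLaw (fun t => ?_) fun n t ht => ?_,
    Eventually.of_forall fun w => w.continuous.div_const 2⟩
  · refine ⟨((meas_ev t).div_const 2).aemeasurable, ?_⟩
    rw [Measure.map_congr (g := fun w : Pth => w t / 2 - w 0 / 2)
      (z.mono fun w hw => by simp only [hw, sub_zero])]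
    refine Measure.ext_of_charFun (funext fun θ => ?_)
    rw [h.chf zero_le, charFun_gaussianReal]
    push_cast
    ring_nf
  · have m : ∀ i : Fin n, Measurable fun w : Pth => w (t i.succ) / 2 - w (t i.castSucc) / 2 :=
      fun i => ((meas_ev _).div_const 2).sub ((meas_ev _).div_const 2)
    rw [iIndepFun_iff_charFun_pi fun i => (m i).aemeasurable]
    intro θ
    let t' : ℕ → ℝ≥0 := fun k => t ⟨min k n, by omega⟩
    have ht' : Monotone t' := fun a b hab => ht (by simp only [Fin.mk_le_mk]; omega)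
    let c : ℕ → ℝ := fun k => if hk : k < n then θ.ofLp ⟨k, hk⟩ / 2 else 0
    have e1 : ∀ i : Fin n, t' (i + 1) = t i.succ := fun i => by
      simp only [t']; congr 1; ext; simp
    have e2 : ∀ i : Fin n, t' i = t i.castSucc := fun i => by
      simp only [t']; congr 1; ext; simp
    have e3 : ∀ i : Fin n, c i = θ.ofLp i / 2 := fun i => by simp [c]
    have a := h.sum ht' c n
    simp only [Finset.sum_range, Finset.prod_range, e1, e2, e3] at a
    have hi : ∀ i : Fin n, t i.castSucc ≤ t i.succ := fun i => ht i.castSucc_lt_succ.le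
    simp only [fun i => h.chf (hi i)]
    rw [← Complex.ofReal_prod, ← int_exp (by fun_prop) a.1 a.2, charFun_apply,
      integral_map (by fun_prop) (by fun_prop)]
    refine integral_congr_ae (Eventually.of_forall fun w => ?_)
    simp only [PiLp.inner_apply, RCLike.inner_apply, conj_trivial]
    congr 3
    exact Finset.sum_congr rfl fun i _ => by ring

variable {α : ℕ → Type} {S : ∀ n, Set (α n)} {W : ∀ n, α n → ℝ → ℝ} {V : ∀ n, α n → Pth}

/-- every limit point of the laws is the law of `2 B` -/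
theorem isW_lim (hS : ∀ n, (S n).Finite ∧ (S n).Nonempty)
    (hV : ∀ᶠ n in atTop, ∀ x ∈ S n, ∀ t : ℝ≥0, V n x t = W n x t)
    (h0 : ∀ᶠ n in atTop, ∀ x ∈ S n, W n x 0 = 0) (hc : ChfOut S W)
    {l : Filter ℕ} [l.NeBot] (hl : l ≤ atTop) {ν : ProbabilityMeasure Pth}
    (h : Tendsto (fun n => plaw (hS n) (V n)) l (𝓝 ν)) : IsW ν := by
  have T : ∀ F : Pth → ℝ, Continuous F → (∀ w, |F w| ≤ 1) →
      Tendsto (fun n => mean (S n) fun x => F (V n x)) l (𝓝 (∫ w, F w ∂(ν : Measure Pth))) :=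
    fun F c b => (tendsto_plaw hS V).1 h (BoundedContinuousFunction.ofNormedAddCommGroup F c 1 b)
  refine Trig.isW ⟨fun θ => ⟨?_, ?_⟩, fun k c p q s s' θ φ φc φb hp hs => ?_⟩
  · refine tendsto_nhds_unique (T _ (by fun_prop) fun w => abs_cos_le_one _)
      (tendsto_const_nhds.congr' ((hV.and h0).filter_mono hl |>.mono fun n hn => ?_))
    rw [← End.mean_const (hS n).1 (hS n).2 1]
    exact mean_congr (hS n).1 fun x hx => by simp [hn.1 x hx, hn.2 x hx]
  · refine tendsto_nhds_unique (T _ (by fun_prop) fun w => abs_sin_le_one _)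
      (tendsto_const_nhds.congr' ((hV.and h0).filter_mono hl |>.mono fun n hn => ?_))
    rw [← End.mean_const (hS n).1 (hS n).2 0]
    exact mean_congr (hS n).1 fun x hx => by simp [hn.1 x hx, hn.2 x hx]
  · let f : (ℝ → ℝ) → ℝ := fun w => φ (∑ i ∈ Finset.range k, c i * (w (p i) - w (q i)))
    have fd : ∀ w w' : ℝ → ℝ, (∀ u ∈ Icc (0 : ℝ) s, w u = w' u) → f w = f w' := by
      intro w w' e
      refine congrArg φ (Finset.sum_congr rfl fun i hi => ?_)
      obtain ⟨a, b⟩ := hp i (Finset.mem_range.1 hi)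
      rw [e (p i) ⟨(p i).2, a⟩, e (q i) ⟨(q i).2, b⟩]
    have T0 := T _ (show Continuous fun w : Pth =>
      φ (∑ i ∈ Finset.range k, c i * (w (p i) - w (q i))) by fun_prop) fun w => φb _
    have T1 := T _ (show Continuous fun w : Pth =>
      φ (∑ i ∈ Finset.range k, c i * (w (p i) - w (q i))) * cos (θ * (w s' - w s)) by fun_prop)
      fun w => abs_mul_le_one (φb _) (abs_cos_le_one _)
    have T2 := T _ (show Continuous fun w : Pth =>
      φ (∑ i ∈ Finset.range k, c i * (w (p i) - w (q i))) * sin (θ * (w s' - w s)) by fun_prop)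
      fun w => abs_mul_le_one (φb _) (abs_sin_le_one _)
    have key : ∀ ε > (0 : ℝ), ∀ᶠ n in l,
        |(mean (S n) fun x => φ (∑ i ∈ Finset.range k, c i * (V n x (p i) - V n x (q i))) *
          cos (θ * (V n x s' - V n x s))) - exp (-2 * θ ^ 2 * (s' - s)) *
          mean (S n) fun x => φ (∑ i ∈ Finset.range k, c i * (V n x (p i) - V n x (q i)))| ≤ ε ∧
        |mean (S n) fun x => φ (∑ i ∈ Finset.range k, c i * (V n x (p i) - V n x (q i))) *
          sin (θ * (V n x s' - V n x s))| ≤ ε := by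
      intro ε ε0
      filter_upwards [hl (hc s s' θ ε s.2 hs ε0), hl hV] with n h1 h2
      have := h1 f (fun w => φb _) fd
      rwa [mean_congr (hS n).1 (f := fun x => f (W n x) * cos (θ * (W n x s' - W n x s)))
          fun x hx => by simp only [f, ← h2 x hx]; rfl,
        mean_congr (hS n).1 (f := fun x => f (W n x) * sin (θ * (W n x s' - W n x s)))
          fun x hx => by simp only [f, ← h2 x hx]; rfl,
        mean_congr (hS n).1 (f := fun x => f (W n x))
          fun x hx => by simp only [f, ← h2 x hx]; rfl] at this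
    constructor
    · rw [← sub_eq_zero, ← abs_nonpos_iff]
      exact le_of_forall_pos_le_add fun ε ε0 => by
        rw [zero_add]
        exact le_of_tendsto (T1.sub (T0.const_mul _)).abs ((key ε ε0).mono fun n hn => hn.1)
    · rw [← abs_nonpos_iff]
      exact le_of_forall_pos_le_add fun ε ε0 => by
        rw [zero_add]
        exact le_of_tendsto T2.abs ((key ε ε0).mono fun n hn => hn.2)

/-- the laws of the driving functions converge to the law of `2 B` -/
theorem b3 (hS : ∀ n, (S n).Finite ∧ (S n).Nonempty)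
    (hV : ∀ᶠ n in atTop, ∀ x ∈ S n, ∀ t : ℝ≥0, V n x t = W n x t)
    (h0 : ∀ᶠ n in atTop, ∀ x ∈ S n, W n x 0 = 0) (hc : ChfOut S W) (hm : ModOut S W) :
    ∃ ν : ProbabilityMeasure Pth, IsW ν ∧ Tendsto (fun n => plaw (hS n) (V n)) atTop (𝓝 ν) := by
  have K := isCompact_closure_of_isTightMeasureSet (S := range fun n => plaw (hS n) (V n))
    ((tight hS hV h0 hm).subset (by rintro _ ⟨_, ⟨n, rfl⟩, rfl⟩; exact ⟨n, rfl⟩))
  have U : ∀ u : Ultrafilter ℕ, (u : Filter ℕ) ≤ atTop → ∃ ν : ProbabilityMeasure Pth,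
      IsW ν ∧ Tendsto (fun n => plaw (hS n) (V n)) u (𝓝 ν) := by
    intro u hu
    obtain ⟨ν, -, hν⟩ := isCompact_iff_ultrafilter_le_nhds.1 K (u.map fun n => plaw (hS n) (V n))
      (le_principal_iff.2 (mem_map.2 (univ_mem' fun n => subset_closure ⟨n, rfl⟩)))
    exact ⟨ν, isW_lim hS hV h0 hc hu hν, hν⟩
  obtain ⟨ν, h1, -⟩ := U (Ultrafilter.of atTop) (Ultrafilter.of_le _)
  refine ⟨ν, h1, (Filter.tendsto_iff_ultrafilter _ _ _).2 fun u hu => ?_⟩
  obtain ⟨ν', h2, h3⟩ := U u hu
  rwa [Subtype.ext (h1.uniq h2) (a1 := ν) (a2 := ν')]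

/-- approximate martingale chains: the driving functions are tight and converge in law to `2 B` -/
theorem drive (h : Seq S W) (hV : ∀ᶠ n in atTop, ∀ x ∈ S n, ∀ t : ℝ≥0, V n x t = W n x t) :
    IsTightMeasureSet (range fun n => ulaw (h.1 n).1 (V n)) ∧
      ∃ ν : ProbabilityMeasure Pth, IsW ν ∧
        Tendsto (fun n => plaw (h.1 n) (V n)) atTop (𝓝 ν) :=
  have h0 : ∀ᶠ n in atTop, ∀ x ∈ S n, W n x 0 = 0 :=
    (h.2 1 1 1 one_pos one_pos one_pos).mono fun _ ⟨A⟩ => A.w0
  ⟨tight h.1 hV h0 (modOut h), b3 h.1 hV h0 (chfOut h) (modOut h)⟩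

end Pool.Agent.Lib.MP_6359c9_pr.Bm
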