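import Pool.Agent.Lib.MP_6359c9_pr.BmDef

/-! Laws on path space: uniform laws on finite sets, uniqueness of the Wiener law. -/

namespace Pool.Agent.Lib.MP_6359c9_pr.Bm

open Set Filter Topology MeasureTheory ProbabilityTheory
open scoped NNReal ENNReal

section law

variable {α β : Type} [MeasurableSpace β] {S : Set α}

/-- the law of `Y` under the uniform measure on `S` -/
noncomputable def ulaw (hS : S.Finite) (Y : α → β) : Measure β :=
  (S.ncard : ℝ≥0∞)⁻¹ • ∑ w ∈ hS.toFinset, Measure.dirac (Y w)

lemma ulaw_prob (hS : S.Finite) (hn : S.Nonempty) (Y : α → β) :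
    IsProbabilityMeasure (ulaw hS Y) := ⟨by
  have : (S.ncard : ℝ≥0∞) ≠ 0 := by exact_mod_cast ((ncard_pos hS).2 hn).ne'
  simp only [ulaw, Measure.smul_apply, Measure.coe_finsetSum, Finset.sum_apply, measure_univ,
    Finset.sum_const, ← ncard_eq_toFinset_card _ hS, nsmul_eq_mul, mul_one, smul_eq_mul]
  exact ENNReal.inv_mul_cancel this (by simp)⟩

/-- the same law as a probability measure -/
noncomputable def plaw (hS : S.Finite ∧ S.Nonempty) (Y : α → β) : ProbabilityMeasure β :=
  ⟨ulaw hS.1 Y, ulaw_prob hS.1 hS.2 Y⟩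

lemma ulaw_map {γ : Type} [MeasurableSpace γ] (hS : S.Finite) (Y : α → β) {g : β → γ}
    (hg : Measurable g) : (ulaw hS Y).map g = ulaw hS fun x => g (Y x) := by
  rw [ulaw, ulaw, Measure.map_smul, ← Measure.mapₗ_apply_of_measurable hg, map_sum]
  simp only [Measure.mapₗ_apply_of_measurable hg, Measure.map_dirac' hg]

variable [MeasurableSingletonClass β]

lemma int_ulaw (hS : S.Finite) (Y : α → β) (f : β → ℝ) :
    ∫ x, f x ∂ulaw hS Y = mean S fun w => f (Y w) := by
  rw [ulaw, integral_smul_measure,
    integral_finsetSum_measure fun w _ => integrable_dirac enorm_lt_top, End.mean_eq hS]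
  simp

lemma ulaw_apply (hS : S.Finite) (Y : α → β) (A : Set β) :
    ulaw hS Y A = ENNReal.ofReal (mean S ({x | Y x ∈ A}.indicator 1)) := by
  classical
  rcases S.eq_empty_or_nonempty with rfl | hn
  · simp [ulaw, mean]
  have h0 : (0 : ℝ) < S.ncard := by exact_mod_cast (ncard_pos hS).2 hn
  rw [End.mean_eq hS, ENNReal.ofReal_mul (by positivity), ENNReal.ofReal_inv_of_pos h0,
    ENNReal.ofReal_natCast, ENNReal.ofReal_sum_of_nonneg (f := fun x => {x | Y x ∈ A}.indicator 1 x)
      fun _ _ => indicator_nonneg (fun _ _ => zero_le_one) _]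
  simp only [ulaw, Measure.smul_apply, Measure.coe_finsetSum, Finset.sum_apply, smul_eq_mul,
    Measure.dirac_apply]
  congr 1
  refine Finset.sum_congr rfl fun x _ => ?_
  by_cases h : Y x ∈ A <;> simp [h]

lemma tendsto_plaw [TopologicalSpace β] [OpensMeasurableSpace β] {α : ℕ → Type}
    {S : ∀ n, Set (α n)} (hS : ∀ n, (S n).Finite ∧ (S n).Nonempty) (Y : ∀ n, α n → β)
    {l : Filter ℕ} {ν : ProbabilityMeasure β} :
    Tendsto (fun n => plaw (hS n) (Y n)) l (𝓝 ν) ↔ ∀ F : BoundedContinuousFunction β ℝ,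
      Tendsto (fun n => mean (S n) fun x => F (Y n x)) l (𝓝 (∫ w, F w ∂(ν : Measure β))) := by
  rw [ProbabilityMeasure.tendsto_iff_forall_integral_tendsto]
  refine forall_congr' fun F => ?_
  have : ∀ n, ∫ w, F w ∂((plaw (hS n) (Y n) : ProbabilityMeasure β) : Measure β) =
      mean (S n) fun x => F (Y n x) := fun n => int_ulaw (hS n).1 (Y n) F
  simp only [this]

end law

/-- continuous real paths -/
abbrev Pth := C(ℝ≥0, ℝ)

noncomputable instance msPth : MeasurableSpace Pth := borel _

instance bsPth : BorelSpace Pth := ⟨rfl⟩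

lemma meas_ev (t : ℝ≥0) : Measurable fun w : Pth => w t :=
  (continuous_eval_const t).measurable

/-- under `ν` half of the path is a standard Brownian motion -/
def IsW (ν : Measure Pth) : Prop := IsBrownianReal (fun t (w : Pth) => w t / 2) ν

lemma IsW.prob {ν : Measure Pth} (h : IsW ν) : IsProbabilityMeasure ν :=
  h.toIsPreBrownianReal.isGaussianProcess.isProbabilityMeasure

/-- measures on path space are determined by their finite dimensional marginals -/
lemma pth_ext {ν ν' : Measure Pth} [IsFiniteMeasure ν] [IsFiniteMeasure ν']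
    (h : ∀ I : Finset ℝ≥0, ν.map (fun w => I.restrict fun t => w t / 2) =
      ν'.map fun w => I.restrict fun t => w t / 2) : ν = ν' := by
  have me : Measurable fun (w : Pth) (t : ℝ≥0) => w t / 2 :=
    measurable_pi_lambda _ fun t => (meas_ev t).div_const 2
  have h1 := isProjectiveLimit_map (X := fun t (w : Pth) => w t / 2) (P := ν) me.aemeasurable
  have h2 := isProjectiveLimit_map (X := fun t (w : Pth) => w t / 2) (P := ν') me.aemeasurable
  simp only [h] at h1
  have e := h1.unique h2
  obtain ⟨d, hd⟩ := TopologicalSpace.exists_dense_seq ℝ≥0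
  let r : (ℝ≥0 → ℝ) → ℕ → ℝ := fun f k => f (d k)
  have mr : Measurable r := measurable_pi_lambda _ fun k => measurable_pi_apply _
  have emb : MeasurableEmbedding (r ∘ fun (w : Pth) (t : ℝ≥0) => w t / 2) := by
    refine Continuous.measurableEmbedding (continuous_pi fun k => ?_) fun w w' hw => ?_
    · exact (continuous_eval_const (d k)).div_const 2
    · refine DFunLike.coe_injective (hd.equalizer w.continuous w'.continuous (funext fun k => ?_))
      have := congrFun hw k
      simp only [Function.comp_apply, r] at this ⊢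
      linarith
  apply emb.map_injective
  rw [← Measure.map_map mr me, ← Measure.map_map mr me, e]

theorem IsW.uniq {ν ν' : Measure Pth} (h : IsW ν) (h' : IsW ν') : ν = ν' := by
  have := h.prob
  have := h'.prob
  exact pth_ext fun I => (h.hasLaw I).map_eq.trans (h'.hasLaw I).map_eq.symm

/-- the law of `2 B` on path space -/
lemma IsW.of_hasLaw {Ω : Type} [MeasurableSpace Ω] {P : Measure Ω} {B : ℝ≥0 → Ω → ℝ}
    (hB : IsBrownianReal B P) {V : Ω → Pth} {ν : Measure Pth} (hV : HasLaw V ν P)
    (e : ∀ t, ∀ᵐ ω ∂P, V ω t = 2 * B t ω) : IsW ν := by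
  refine ⟨⟨fun I => ?_⟩, Eventually.of_forall fun w => w.continuous.div_const 2⟩
  have mI : Measurable fun w : Pth => I.restrict fun t => w t / 2 :=
    measurable_pi_lambda _ fun t => (meas_ev t).div_const 2
  refine ⟨mI.aemeasurable, ?_⟩
  rw [← hV.map_eq, AEMeasurable.map_map_of_aemeasurable mI.aemeasurable hV.aemeasurable,
    ← (hB.hasLaw I).map_eq]
  refine Measure.map_congr ?_
  have : ∀ᵐ ω ∂P, ∀ i : I, V ω i = 2 * B i ω := ae_all_iff.2 fun _ => e _
  filter_upwards [this] with ω hω
  funext i
  simp [hω i]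

/-- a measure that projects to the Wiener law carries a Brownian motion -/
lemma IsW.pull {Ω : Type} [MeasurableSpace Ω] {P : Measure Ω} {V : Ω → Pth} (mV : Measurable V)
    (h : IsW (P.map V)) : IsBrownianReal (fun t ω => V ω t / 2) P := by
  refine ⟨⟨fun I => ?_⟩, Eventually.of_forall fun ω => (V ω).continuous.div_const 2⟩
  exact (h.hasLaw I).comp ⟨mV.aemeasurable, rfl⟩

end Pool.Agent.Lib.MP_6359c9_pr.Bm
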