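import Pool.Agent.Lib.MP_6359c9_pr.Bm5A

/-! Tightness on path space from a modulus of continuity. -/

namespace Pool.Agent.Lib.MP_6359c9_pr.Bm

open Set Filter Topology MeasureTheory ProbabilityTheory
open scoped NNReal ENNReal

/-- paths that oscillate by more than `ε` at scale `h` before time `T` -/
def OscS (T : ℝ≥0) (h ε : ℝ) : Set Pth :=
  {w | ∃ u ≤ T, ∃ v ≤ T, |(u : ℝ) - v| ≤ h ∧ ε < |w u - w v|}

lemma ev_not_oscS (w : Pth) (T : ℝ≥0) {ε : ℝ} (hε : 0 < ε) :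
    ∀ᶠ h in 𝓝[>] (0 : ℝ), w ∉ OscS T h ε := by
  obtain ⟨d, d0, hd⟩ := Metric.uniformContinuousOn_iff.1
    ((isCompact_Icc (a := (0 : ℝ≥0)) (b := T)).uniformContinuousOn_of_continuous
      w.continuous.continuousOn) ε hε
  filter_upwards [mem_nhdsWithin_of_mem_nhds (Iio_mem_nhds d0)] with h hh
  rintro ⟨u, hu, v, hv, h1, h2⟩
  have := hd u ⟨zero_le, hu⟩ v ⟨zero_le, hv⟩ (by rw [NNReal.dist_eq]; exact h1.trans_lt hh)
  rw [Real.dist_eq] at this
  linarith

lemma cpt_oscS (B : ℝ) {h ε : ℕ → ℝ} (h0 : ∀ j, 0 < h j) (hε : Tendsto ε atTop (𝓝 0)) :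
    IsCompact {w : Pth | |w 0| ≤ B ∧ ∀ j : ℕ, w ∉ OscS (j + 1) (h j) (ε j)} := by
  let G : Set (ℝ≥0 → ℝ) := {f | |f 0| ≤ B ∧ ∀ j : ℕ, ∀ u ≤ (j + 1 : ℝ≥0), ∀ v ≤ (j + 1 : ℝ≥0),
    |(u : ℝ) - v| ≤ h j → |f u - f v| ≤ ε j}
  have mG : ∀ w : Pth, (|w 0| ≤ B ∧ ∀ j : ℕ, w ∉ OscS (j + 1) (h j) (ε j)) ↔ ⇑w ∈ G := by
    intro w
    simp only [OscS, mem_ofPred_eq, G, not_exists, not_and, not_lt]
  have eq : ∀ (t : ℝ≥0) (η : ℝ), 0 < η → ∀ᶠ u in 𝓝 t, ∀ f ∈ G, dist (f t) (f u) < η := by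
    intro t η η0
    obtain ⟨j, j1, j2⟩ := ((hε.eventually (Iio_mem_nhds η0)).and
      (tendsto_natCast_atTop_atTop.eventually_ge_atTop t)).exists
    have j3 : t < (j + 1 : ℝ≥0) := lt_add_of_le_of_pos j2 one_pos
    filter_upwards [Iio_mem_nhds j3, Metric.ball_mem_nhds t (h0 j)] with u u1 u2 f hf
    rw [Real.dist_eq]
    refine (hf.2 j t j3.le u (le_of_lt u1) ?_).trans_lt j1
    rw [← NNReal.dist_eq, dist_comm]
    exact le_of_lt u2
  have im : ContinuousMap.toFun ''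
      {w : Pth | |w 0| ≤ B ∧ ∀ j : ℕ, w ∉ OscS (j + 1) (h j) (ε j)} = G := by
    ext f
    refine ⟨?_, fun hf => ?_⟩
    · rintro ⟨w, hw, rfl⟩
      exact (mG w).1 hw
    · have fc : Continuous f := continuous_iff_continuousAt.2 fun t =>
        Metric.tendsto_nhds.2 fun η η0 => (eq t η η0).mono fun u hu => by
          rw [dist_comm]; exact hu f hf
      exact ⟨⟨f, fc⟩, (mG ⟨f, fc⟩).2 hf, rfl⟩
  have cl : IsClosed G := by
    refine (isClosed_le (f := fun f : ℝ≥0 → ℝ => |f 0|) (by fun_prop) continuous_const).inter ?_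
    change IsClosed {f : ℝ≥0 → ℝ | ∀ j : ℕ, ∀ u ≤ (j + 1 : ℝ≥0), ∀ v ≤ (j + 1 : ℝ≥0),
      |(u : ℝ) - v| ≤ h j → |f u - f v| ≤ ε j}
    simp only [ofPred_forall]
    exact isClosed_iInter fun j => isClosed_iInter fun u => isClosed_iInter fun _ =>
      isClosed_iInter fun v => isClosed_iInter fun _ => isClosed_iInter fun _ =>
        isClosed_le (by fun_prop) continuous_const
  have bd : ∀ t : ℝ≥0, ∃ C : ℝ, ∀ f ∈ G, |f t| ≤ C := by
    intro t
    obtain ⟨j, hj⟩ := exists_nat_ge t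
    have key : ∀ f ∈ G, ∀ m : ℕ, ∀ u ≤ (j + 1 : ℝ≥0), (u : ℝ) ≤ m * h j →
        |f u| ≤ B + m * ε j := by
      intro f hf m
      induction m with
      | zero =>
        intro u _ hu
        have : u = 0 := le_antisymm (by exact_mod_cast (by simpa using hu : (u : ℝ) ≤ 0)) zero_le
        simpa [this] using hf.1
      | succ m ih =>
        intro u u1 u2
        have hp := h0 j
        push_cast at u2 ⊢
        have c : ((Real.toNNReal (u - h j) : ℝ≥0) : ℝ) = max (u - h j) 0 := Real.coe_toNNReal' _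
        have l : Real.toNNReal (u - h j) ≤ u := by
          rw [← NNReal.coe_le_coe, c]; exact max_le (by linarith) u.2
        have a1 := ih _ (l.trans u1) (by rw [c]; exact max_le (by linarith) (by positivity))
        have a2 := hf.2 j u u1 _ (l.trans u1) (by
          rw [c, abs_of_nonneg (by rw [← c]; exact sub_nonneg.2 l)]
          linarith [le_max_left ((u : ℝ) - h j) 0])
        have := abs_add_le (f u - f (Real.toNNReal (u - h j))) (f (Real.toNNReal (u - h j)))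
        rw [sub_add_cancel] at this
        linarith
    obtain ⟨m, hm⟩ := exists_nat_ge ((t : ℝ) / h j)
    exact ⟨_, fun f hf => key f hf m t (hj.trans le_self_add) ((div_le_iff₀ (h0 j)).1 hm)⟩
  choose C hC using bd
  refine ArzelaAscoli.isCompact_of_equicontinuous _ ?_ fun t => ?_
  · rw [im]
    exact (isCompact_univ_pi fun t => isCompact_Icc (a := -C t) (b := C t)).of_isClosed_subset cl
      fun f hf t _ => abs_le.1 (hC t f hf)
  · exact Metric.equicontinuousAt_iff_right.2 fun η η0 =>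
      (eq t η η0).mono fun u hu w => hu _ ((mG w.1).1 w.2)

variable {α : ℕ → Type} {S : ∀ n, Set (α n)} {W : ∀ n, α n → ℝ → ℝ} {V : ∀ n, α n → Pth}

lemma mod_all (hS : ∀ n, (S n).Finite ∧ (S n).Nonempty)
    (hV : ∀ᶠ n in atTop, ∀ x ∈ S n, ∀ t : ℝ≥0, V n x t = W n x t) (hm : ModOut S W)
    {T : ℝ≥0} (hT : 0 < T) {ε : ℝ} (hε : 0 < ε) :
    ∃ h > (0 : ℝ), ∀ n, ulaw (hS n).1 (V n) (OscS T h ε) ≤ ENNReal.ofReal ε := by
  obtain ⟨h1, h10, hh⟩ := hm T ε hT hε
  obtain ⟨N, hN⟩ := eventually_atTop.1 (hh.and hV)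
  have e : ∀ᶠ h in 𝓝[>] (0 : ℝ), ∀ n ∈ Iio N, ∀ x ∈ S n, V n x ∉ OscS T h ε :=
    (eventually_all_finite (finite_Iio N)).2 fun n _ =>
      (eventually_all_finite (hS n).1).2 fun x _ => ev_not_oscS _ T hε
  obtain ⟨h, ⟨a1, a2⟩, a3⟩ := ((e.and (mem_nhdsWithin_of_mem_nhds (Iio_mem_nhds h10))).and
    self_mem_nhdsWithin).exists
  refine ⟨h, a3, fun n => ?_⟩
  rw [ulaw_apply]
  refine ENNReal.ofReal_le_ofReal ?_
  rcases lt_or_ge n N with hn | hn
  · refine le_trans (End.mean_mono (hS n).1 fun x hx => ?_)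
      (End.mean_const (hS n).1 (hS n).2 ε).le
    rw [indicator_of_notMem (show x ∉ {x | V n x ∈ OscS T h ε} from a1 n hn x hx)]
    exact hε.le
  · refine le_trans (End.mean_mono (hS n).1 fun x hx => ?_) (hN n hn).1
    by_cases hx' : V n x ∈ OscS T h ε
    · obtain ⟨u, hu, v, hv, b1, b2⟩ := id hx'
      rw [(hN n hn).2 x hx, (hN n hn).2 x hx] at b2
      rw [indicator_of_mem (show x ∈ {x | V n x ∈ OscS T h ε} from hx'), indicator_of_mem]
      exact ⟨u, ⟨u.2, hu⟩, v, ⟨v.2, hv⟩, b1.trans (le_of_lt a2), b2⟩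
    · rw [indicator_of_notMem (show x ∉ {x | V n x ∈ OscS T h ε} from hx')]
      exact indicator_nonneg (fun _ _ => zero_le_one) _

/-- the laws of the driving functions are tight -/
theorem tight (hS : ∀ n, (S n).Finite ∧ (S n).Nonempty)
    (hV : ∀ᶠ n in atTop, ∀ x ∈ S n, ∀ t : ℝ≥0, V n x t = W n x t)
    (h0 : ∀ᶠ n in atTop, ∀ x ∈ S n, W n x 0 = 0) (hm : ModOut S W) :
    IsTightMeasureSet (range fun n => ulaw (hS n).1 (V n)) := by
  rw [isTightMeasureSet_iff_exists_isCompact_measure_compl_le]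
  intro ε ε0
  obtain ⟨e, -, e0, e1⟩ := ENNReal.lt_iff_exists_real_btwn.1 ε0
  rw [ENNReal.ofReal_pos] at e0
  obtain ⟨B, hB⟩ : ∃ B : ℝ, ∀ n, ∀ x ∈ S n, |V n x 0| ≤ B := by
    obtain ⟨N, hN⟩ := eventually_atTop.1 (hV.and h0)
    obtain ⟨B, hB⟩ := ((finite_Iio N).biUnion fun n _ =>
      (hS n).1.image fun x => |V n x 0|).bddAbove
    refine ⟨max B 0, fun n x hx => ?_⟩
    rcases lt_or_ge n N with hn | hn
    · exact (hB (mem_biUnion (show n ∈ Iio N from hn) (mem_image_of_mem _ hx))).trans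
        (le_max_left _ _)
    · rw [(hN n hn).1 x hx, NNReal.coe_zero, (hN n hn).2 x hx, abs_zero]
      exact le_max_right _ _
  have p : ∀ j : ℕ, 0 < e / 2 / 2 ^ j := fun j => by positivity
  choose h hp hh using fun j : ℕ => mod_all hS hV hm (T := j + 1) (by positivity) (p j)
  refine ⟨_, cpt_oscS B hp (summable_geometric_two' e).tendsto_atTop_zero, ?_⟩
  rintro _ ⟨n, rfl⟩
  have z : ulaw (hS n).1 (V n) {w | B < |w 0|} = 0 := by
    rw [ulaw_apply, ENNReal.ofReal_eq_zero]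
    refine le_trans (End.mean_mono (hS n).1 fun x hx => ?_) (End.mean_const (hS n).1 (hS n).2 0).le
    rw [indicator_of_notMem]
    exact not_lt.2 (hB n x hx)
  refine le_trans (measure_mono (t := {w | B < |w 0|} ∪
    ⋃ j : ℕ, OscS (j + 1) (h j) (e / 2 / 2 ^ j)) fun w hw => ?_) ?_
  · by_contra c
    simp only [mem_union, mem_ofPred_eq, mem_iUnion, not_or, not_lt, not_exists] at c
    exact hw c
  · refine (measure_union_le _ _).trans ?_
    rw [z, zero_add]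
    refine (measure_iUnion_le _).trans ((ENNReal.tsum_le_tsum fun j => hh j n).trans ?_)
    rw [← ENNReal.ofReal_tsum_of_nonneg (fun j => (p j).le) (summable_geometric_two' e),
      tsum_geometric_two']
    exact e1.le

end Pool.Agent.Lib.MP_6359c9_pr.Bm
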