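import Pool.Agent.Lib.MP_6359c9_pr.BmDef

/-! Basic facts on approximate martingale chains: stopping steps, optional stopping. -/

namespace Pool.Agent.Lib.MP_6359c9_pr.Bm

open Set Filter Topology End

lemma mean_congr {α : Type} {S : Set α} (hS : S.Finite) {f g : α → ℝ} (h : ∀ x ∈ S, f x = g x) :
    mean S f = mean S g :=
  le_antisymm (mean_mono hS fun x hx => (h x hx).le) (mean_mono hS fun x hx => (h x hx).ge)

lemma mean_zero {α : Type} {S : Set α} (hS : S.Finite) : mean S (fun _ => (0 : ℝ)) = 0 := by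
  simp [mean_eq hS]

lemma mean_sum {α : Type} {S : Set α} (hS : S.Finite) (n : ℕ) (f : ℕ → α → ℝ) :
    mean S (fun x => ∑ k ∈ Finset.range n, f k x) = ∑ k ∈ Finset.range n, mean S (f k) := by
  induction n with
  | zero => simpa using mean_zero hS
  | succ n ih => simp only [Finset.sum_range_succ]; rw [mean_add hS, ih]

namespace AM

variable {α : Type} {S : Set α} {W : α → ℝ → ℝ} {L T e : ℝ} (A : AM S W L T e)
  {x y : α} {i j k : ℕ} {σ σ' : α → ℕ}

variable {A} in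
lemma Lv.mono (h : A.Lv k x) (hj : j ≤ k) : A.Lv j x := fun i hi => h i (hi.trans_le hj)

lemma lv0 (x : α) : A.Lv 0 x := fun _ hi => absurd hi (Nat.not_lt_zero _)

lemma r_le (h : A.r k x y) (hj : j ≤ k) : A.r j x y := by
  induction hj with
  | refl => exact h
  | step _ ih => exact ih (A.anti _ _ _ h)

lemma t_mono (hx : x ∈ S) (h : A.Lv k x) (hj : j ≤ k) : A.t j x ≤ A.t k x := by
  induction hj with
  | refl => exact le_rfl
  | step _ ih => exact (ih (h.mono (Nat.le_succ _))).trans (A.step x hx _ h).1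

lemma t_nn (hx : x ∈ S) (h : A.Lv k x) : 0 ≤ A.t k x := by
  rw [← A.t0 x hx]; exact A.t_mono hx h (Nat.zero_le _)

lemma E_nn (hx : x ∈ S) : 0 ≤ A.E x := (abs_nonneg _).trans (A.errM x hx 0 (A.lv0 x))

include A in
lemma e_nn (hS : S.Finite) : 0 ≤ e := by
  refine le_trans ?_ A.errE
  rw [← mean_zero hS]
  exact mean_mono hS fun x hx => A.E_nn hx

lemma w_zero (hx : x ∈ S) : A.w 0 x = 0 := by rw [w, A.t0 x hx, A.w0 x hx]

lemma t_le (hT : 0 ≤ T) (he : 0 ≤ e) (hx : x ∈ S) (h : A.Lv k x) : A.t k x ≤ T + e := by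
  cases k with
  | zero => rw [A.t0 x hx]; positivity
  | succ k => linarith [(A.step x hx k h).2.1, (h k (Nat.lt_succ_self k)).2]

lemma w_step (hx : x ∈ S) (h : A.Lv (k + 1) x) : |A.w (k + 1) x - A.w k x| ≤ e :=
  (A.step x hx k h).2.2 _ ⟨(A.step x hx k h).1, le_rfl⟩

lemma w_le (hL : 0 ≤ L) (he : 0 ≤ e) (hx : x ∈ S) (h : A.Lv k x) : |A.w k x| ≤ L + e := by
  cases k with
  | zero => rw [A.w_zero hx, abs_zero]; positivity
  | succ k =>
    have h1 := A.w_step hx h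
    have h2 : |A.w k x| < L := (h k (Nat.lt_succ_self k)).1
    have := abs_add_le (A.w (k + 1) x - A.w k x) (A.w k x)
    rw [sub_add_cancel] at this
    linarith

lemma ad_tw (h : A.r k x y) (hl : A.Lv k x) (hj : j ≤ k) :
    A.t j x = A.t j y ∧ A.w j x = A.w j y := by
  obtain ⟨h1, h2⟩ := A.ad j x y (A.r_le h hj) (hl.mono hj)
  refine ⟨h1, ?_⟩
  rw [w, w, ← h1]
  exact h2 _ ⟨A.t_nn (A.mem _ _ _ h) (hl.mono hj), le_rfl⟩

/-- liveness at step `k + 1` is known at step `k` -/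
lemma ad_lv (h : A.r k x y) (hl : A.Lv (k + 1) x) : A.Lv (k + 1) y := fun j hj => by
  obtain ⟨h1, h2⟩ := A.ad_tw h (hl.mono (Nat.le_succ _)) (Nat.lt_succ_iff.1 hj)
  have h3 : |A.w j x| < L ∧ A.t j x < T := hl j hj
  rw [h1, h2] at h3
  exact h3

/-- oscillation of `W` between two steps -/
lemma osc (he : 0 ≤ e) (hx : x ∈ S) (hjk : j ≤ k) (h : A.Lv k x) {c δ : ℝ}
    (h0 : |A.w j x - c| ≤ δ) (hb : ∀ i, j ≤ i → i < k → |A.w i x - c| ≤ δ) :
    ∀ u ∈ Icc (A.t j x) (A.t k x), |W x u - c| ≤ δ + e := by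
  induction hjk with
  | refl =>
    intro u hu
    rw [le_antisymm hu.2 hu.1]
    exact h0.trans (le_add_of_nonneg_right he)
  | @step k hk ih =>
    intro u hu
    by_cases hc : u ≤ A.t k x
    · exact ih (h.mono (Nat.le_succ _)) (fun i h1 h2 => hb i h1 (Nat.lt_succ_of_lt h2)) u ⟨hu.1, hc⟩
    · have h1 := (A.step x hx k h).2.2 u ⟨(not_le.1 hc).le, hu.2⟩
      have h2 := hb k hk (Nat.lt_succ_self k)
      have := abs_sub_le (W x u) (A.w k x) c
      rw [w] at this h2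
      linarith

/-- known at the stopping step `σ` -/
def Mes (σ : α → ℕ) {β : Type} (g : α → β) : Prop := ∀ x y, A.r (σ x) x y → g x = g y

lemma st_zero : A.St fun _ => 0 := ⟨fun _ _ _ => rfl, fun x _ => A.lv0 x⟩

variable {A}

lemma St.eq (h : A.St σ) (hr : A.r k x y) (hk : σ x ≤ k) : σ y = σ x := h.1 x y (A.r_le hr hk)

lemma St.lt (h : A.St σ) (hr : A.r k x y) (hk : k < σ x) : k < σ y := by
  by_contra hc
  have := h.eq (A.symm _ _ _ hr) (not_lt.1 hc)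
  omega

lemma St.mes_t (h : A.St σ) : A.Mes σ fun x => A.t (σ x) x := fun x y hr => by
  simp only [h.1 x y hr]; exact (A.ad_tw hr (h.2 x (A.mem _ _ _ hr)) le_rfl).1

lemma St.mes_w (h : A.St σ) : A.Mes σ fun x => A.w (σ x) x := fun x y hr => by
  simp only [h.1 x y hr]; exact (A.ad_tw hr (h.2 x (A.mem _ _ _ hr)) le_rfl).2

lemma Mes.mono {β : Type} {g : α → β} (h : A.Mes σ g) (hle : ∀ x ∈ S, σ x ≤ σ' x) : A.Mes σ' g :=
  fun x y hr => h x y (A.r_le hr (hle x (A.mem _ _ _ hr)))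

/-- optional stopping -/
lemma opt (hS : S.Finite) (h : A.St σ) (h' : A.St σ') (hle : ∀ x ∈ S, σ x ≤ σ' x) {g : α → ℝ}
    (hg : A.Mes σ g) : mean S (fun x => g x * (A.M (σ' x) x - A.M (σ x) x)) = 0 ∧
      mean S (fun x => g x * (A.N (σ' x) x - A.N (σ x) x)) = 0 := by
  classical
  obtain ⟨n, hn⟩ := (hS.image σ').bddAbove
  let G : ℕ → α → ℝ := fun k x => if x ∈ S ∧ σ x ≤ k ∧ k < σ' x then g x else 0
  have key : ∀ (F : ℕ → α → ℝ), ∀ x ∈ S, g x * (F (σ' x) x - F (σ x) x) =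
      ∑ k ∈ Finset.range n, G k x * (F (k + 1) x - F k x) := by
    intro F x hx
    have h1 : σ' x ≤ n := hn (mem_image_of_mem _ hx)
    rw [← Finset.sum_Ico_sub (fun k => F k x) (hle x hx), Finset.mul_sum]
    symm
    rw [← Finset.sum_subset (s₁ := Finset.Ico (σ x) (σ' x))]
    · exact Finset.sum_congr rfl fun k hk => by
        simp only [G, if_pos (And.intro hx (Finset.mem_Ico.1 hk))]
    · intro k hk
      exact Finset.mem_range.2 ((Finset.mem_Ico.1 hk).2.trans_le h1)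
    · intro k _ hk
      simp only [G]
      rw [if_neg fun hc => hk (Finset.mem_Ico.2 hc.2), zero_mul]
  have hG : ∀ k, mean S (fun x => G k x * (A.M (k + 1) x - A.M k x)) = 0 ∧
      mean S (fun x => G k x * (A.N (k + 1) x - A.N k x)) = 0 := by
    intro k
    refine A.mart k (G k) (fun x y hr => ?_) fun x hx => ?_
    · have aux : ∀ x y, A.r k x y → x ∈ S ∧ σ x ≤ k ∧ k < σ' x → y ∈ S ∧ σ y ≤ k ∧ k < σ' y :=
        fun x y hr hc => ⟨A.mem _ _ _ (A.symm _ _ _ hr), (h.eq hr hc.2.1).trans_le hc.2.1,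
          h'.lt hr hc.2.2⟩
      simp only [G]
      by_cases hc : x ∈ S ∧ σ x ≤ k ∧ k < σ' x
      · rw [if_pos hc, if_pos (aux x y hr hc)]
        exact hg x y (A.r_le hr hc.2.1)
      · rw [if_neg hc, if_neg fun hc' => hc (aux y x (A.symm _ _ _ hr) hc')]
    · simp only [G]
      exact if_neg fun hc => hx ((h'.2 x hc.1).mono hc.2.2)
  constructor
  · rw [mean_congr hS (key A.M), mean_sum hS]
    exact Finset.sum_eq_zero fun k _ => (hG k).1
  · rw [mean_congr hS (key A.N), mean_sum hS]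
    exact Finset.sum_eq_zero fun k _ => (hG k).2

/-- the first step `k ≥ σ` with `P k`, or `σ'` -/
noncomputable def hit (σ σ' : α → ℕ) (P : ℕ → α → Prop) (x : α) : ℕ :=
  sInf {k | σ x ≤ k ∧ (P k x ∨ k = σ' x)}

lemma hit_spec (P : ℕ → α → Prop) (hle : σ x ≤ σ' x) :
    σ x ≤ hit σ σ' P x ∧ hit σ σ' P x ≤ σ' x ∧ (P (hit σ σ' P x) x ∨ hit σ σ' P x = σ' x) ∧
      ∀ k, σ x ≤ k → k < hit σ σ' P x → ¬P k x := by
  have hm : σ' x ∈ {k | σ x ≤ k ∧ (P k x ∨ k = σ' x)} := ⟨hle, Or.inr rfl⟩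
  have h1 := Nat.sInf_mem ⟨_, hm⟩
  exact ⟨h1.1, Nat.sInf_le hm, h1.2, fun k hk hk' hp =>
    Nat.notMem_of_lt_sInf hk' ⟨hk, Or.inl hp⟩⟩

lemma St.hit (h : A.St σ) (h' : A.St σ') (hle : ∀ x ∈ S, σ x ≤ σ' x) {P : ℕ → α → Prop}
    (hP : ∀ k x y, A.r k x y → σ x ≤ k → k ≤ σ' x → P k x → P k y) : A.St (hit σ σ' P) := by
  have aux : ∀ x y, A.r (AM.hit σ σ' P x) x y → AM.hit σ σ' P y ≤ AM.hit σ σ' P x := by
    intro x y hr
    obtain ⟨h1, h2, h3, -⟩ := hit_spec P (hle x (A.mem _ _ _ hr))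
    refine Nat.sInf_le ⟨(h.eq hr h1).trans_le h1, h3.imp (hP _ x y hr h1 h2) fun h4 => ?_⟩
    rw [h'.eq hr h4.ge]; exact h4
  refine ⟨fun x y hr => ?_, fun x hx => (h'.2 x hx).mono (hit_spec P (hle x hx)).2.1⟩
  have h1 := aux x y hr
  exact le_antisymm h1 (aux y x (A.symm _ _ _ (A.r_le hr h1)))

variable (A)

/-- the last live step -/
noncomputable def tau (x : α) : ℕ := sInf {k | ¬A.Lv (k + 1) x}

lemma tau_spec (hx : x ∈ S) : A.Lv (A.tau x) x ∧ ¬A.Lv (A.tau x + 1) x := by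
  obtain ⟨k, hk⟩ := A.exit x hx
  have hne : {k | ¬A.Lv (k + 1) x}.Nonempty := ⟨k, fun h => hk (h.mono (Nat.le_succ _))⟩
  refine ⟨?_, Nat.sInf_mem hne⟩
  cases ht : A.tau x with
  | zero => exact A.lv0 x
  | succ m =>
    have : m ∉ {k | ¬A.Lv (k + 1) x} := Nat.notMem_of_lt_sInf (by rw [← tau, ht]; omega)
    exact not_not.1 this

lemma le_tau (hx : x ∈ S) (h : A.Lv k x) : k ≤ A.tau x := by
  by_contra hc
  exact (A.tau_spec hx).2 (h.mono (by omega))

lemma tau_exit (hx : x ∈ S) : L ≤ |A.w (A.tau x) x| ∨ T ≤ A.t (A.tau x) x := by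
  obtain ⟨h1, h2⟩ := A.tau_spec hx
  by_contra hc
  push Not at hc
  refine h2 fun j hj => ?_
  rcases Nat.lt_succ_iff_lt_or_eq.1 hj with h | h
  · exact h1 j h
  · rw [h]; exact hc

lemma st_tau : A.St A.tau := by
  refine ⟨fun x y hr => ?_, fun x hx => (A.tau_spec hx).1⟩
  have hx := A.mem _ _ _ hr
  have hy := A.mem _ _ _ (A.symm _ _ _ hr)
  have h1 : A.tau y ≤ A.tau x := Nat.sInf_le fun h =>
    (A.tau_spec hx).2 (A.ad_lv (A.symm _ _ _ hr) h)
  refine le_antisymm h1 (Nat.sInf_le fun h => (A.tau_spec hy).2 (A.ad_lv (A.r_le hr h1) h))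

variable {A}

lemma St.le_tau (h : A.St σ) (hx : x ∈ S) : σ x ≤ A.tau x := A.le_tau hx (h.2 x hx)

/-- approximate optional stopping for `W` and for its quadratic increment -/
lemma opt_w (hS : S.Finite) (hL : 0 ≤ L) (h : A.St σ) (h' : A.St σ') (hle : ∀ x ∈ S, σ x ≤ σ' x)
    {g : α → ℝ} (hg : A.Mes σ g) {C : ℝ} (hC : 0 ≤ C) (hb : ∀ x ∈ S, |g x| ≤ C) :
    |mean S fun x => g x * (A.w (σ' x) x - A.w (σ x) x)| ≤ C * (2 * e) ∧
      |mean S fun x => g x * ((A.w (σ' x) x - A.w (σ x) x) ^ 2 -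
        4 * (A.t (σ' x) x - A.t (σ x) x))| ≤ C * ((2 + 4 * (L + e)) * e) := by
  have he := A.e_nn hS
  have gen : ∀ (F G : ℕ → α → ℝ) (g : α → ℝ) (C : ℝ), 0 ≤ C → (∀ x ∈ S, |g x| ≤ C) →
      (∀ x ∈ S, ∀ k, A.Lv k x → |F k x - G k x| ≤ A.E x) →
      mean S (fun x => g x * (F (σ' x) x - F (σ x) x)) = 0 →
      |mean S fun x => g x * (G (σ' x) x - G (σ x) x)| ≤ C * (2 * e) := by
    intro F G g C hC hb hE h0
    have h1 : |mean S fun x => g x * (G (σ' x) x - G (σ x) x) - g x * (F (σ' x) x - F (σ x) x)| ≤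
        mean S fun x => (C * 2) * A.E x := by
      refine abs_mean_le hS fun x hx => ?_
      have h2 := abs_le.1 (hE x hx _ (h.2 x hx))
      have h3 := abs_le.1 (hE x hx _ (h'.2 x hx))
      rw [← mul_sub, abs_mul, mul_assoc]
      exact mul_le_mul (hb x hx) (abs_le.2 ⟨by linarith, by linarith⟩) (abs_nonneg _) hC
    rw [mean_sub hS, h0, sub_zero, mean_mul hS] at h1
    nlinarith [A.errE]
  have h1 := gen A.M A.w g C hC hb A.errM (opt hS h h' hle hg).1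
  have h2 := gen A.N (fun k x => A.w k x ^ 2 - 4 * A.t k x) g C hC hb A.errN (opt hS h h' hle hg).2
  have hg' : A.Mes σ fun x => g x * A.w (σ x) x := fun x y hr => by
    have h3 := h.mes_w x y hr
    simp only at h3 ⊢
    rw [hg x y hr, h3]
  have h3 := gen A.M A.w _ (C * (L + e)) (by positivity) (fun x hx => by
    rw [abs_mul]
    exact mul_le_mul (hb x hx) (A.w_le hL he hx (h.2 x hx)) (abs_nonneg _) hC) A.errM
    (opt hS h h' hle hg').1
  refine ⟨h1, ?_⟩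
  have h4 : (mean S fun x => g x * ((A.w (σ' x) x - A.w (σ x) x) ^ 2 -
      4 * (A.t (σ' x) x - A.t (σ x) x))) =
      (mean S fun x => g x * (A.w (σ' x) x ^ 2 - 4 * A.t (σ' x) x -
        (A.w (σ x) x ^ 2 - 4 * A.t (σ x) x))) -
      2 * mean S fun x => g x * A.w (σ x) x * (A.w (σ' x) x - A.w (σ x) x) := by
    rw [← mean_mul hS, ← mean_sub hS]
    exact mean_congr hS fun x _ => by ring
  rw [h4]
  have h5 := abs_le.1 h2
  have h6 := abs_le.1 h3
  exact abs_le.2 ⟨by nlinarith [h5.1, h6.2], by nlinarith [h5.2, h6.1]⟩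

end AM

end Pool.Agent.Lib.MP_6359c9_pr.Bm
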