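import Pool.Agent.Lib.MP_6359c9_pr.BmExp

/-! Exit probability and conditional characteristic functions. -/

namespace Pool.Agent.Lib.MP_6359c9_pr.Bm

open Set Filter Topology End

namespace AM

variable {α : Type} {S : Set α} {W : α → ℝ → ℝ} {L T e : ℝ} (A : AM S W L T e) {x : α} {s s' : ℝ}

/-- the level `L` is reached at the last live step -/
def Bad : Set α := {x | L ≤ |A.w (A.tau x) x|}

lemma good_t (hx : x ∈ S) (hb : x ∉ A.Bad) : T ≤ A.t (A.tau x) x :=
  (A.tau_exit hx).resolve_left hb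

/-- off the bad set `|W| ≤ L + e` on `[0, T]` -/
lemma good_w (hL : 0 ≤ L) (he : 0 ≤ e) (hx : x ∈ S) (hb : x ∉ A.Bad) :
    ∀ u ∈ Icc 0 T, |W x u| ≤ L + e := fun u hu => by
  have hl := (A.tau_spec hx).1
  have := A.osc he hx (Nat.zero_le _) hl (c := 0) (δ := L) (by simpa [A.w_zero hx] using hL)
    (fun i _ hi => by rw [sub_zero]; exact (hl i hi).1.le) u
    ⟨by rw [A.t0 x hx]; exact hu.1, hu.2.trans (A.good_t hx hb)⟩
  rwa [sub_zero] at this

lemma bad_le (hS : S.Finite) (hn : S.Nonempty) (hL : 0 < L) (hT : 0 ≤ T) :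
    mean S (A.Bad.indicator 1) ≤ (4 * (T + e) + (2 + 4 * (L + e)) * e) / L ^ 2 := by
  have he := A.e_nn hS
  have h1 := (opt_w hS hL.le A.st_zero A.st_tau (fun _ _ => Nat.zero_le _) (g := fun _ => 1)
    (fun _ _ _ => rfl) zero_le_one (by simp)).2
  have h2 : mean S (fun x => L ^ 2 * A.Bad.indicator 1 x) ≤ mean S fun x =>
      1 * ((A.w (A.tau x) x - A.w 0 x) ^ 2 - 4 * (A.t (A.tau x) x - A.t 0 x)) + 4 * (T + e) := by
    refine mean_mono hS fun x hx => ?_
    have h3 := A.t_le hT he hx (A.tau_spec hx).1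
    rw [A.w_zero hx, A.t0 x hx, sub_zero, sub_zero]
    by_cases hb : x ∈ A.Bad
    · have : L ^ 2 ≤ A.w (A.tau x) x ^ 2 := by
        rw [← sq_abs (A.w _ _)]; exact pow_le_pow_left₀ hL.le hb 2
      simp only [indicator_of_mem hb, Pi.one_apply]
      linarith
    · rw [indicator_of_notMem hb]
      nlinarith [sq_nonneg (A.w (A.tau x) x)]
  rw [mean_mul hS, mean_add hS, mean_const hS hn] at h2
  rw [le_div_iff₀ (by positivity)]
  linarith [(abs_le.1 h1).2]

/-- the first step with time at least `s` -/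
noncomputable def at' (s : ℝ) : α → ℕ := hit (fun _ => 0) A.tau fun k x => s ≤ A.t k x

lemma st_at (s : ℝ) : A.St (A.at' s) :=
  A.st_zero.hit A.st_tau (fun _ _ => Nat.zero_le _) fun k x y hr _ h2 hp => by
    rwa [← (A.ad_tw hr ((A.tau_spec (A.mem _ _ _ hr)).1.mono h2) le_rfl).1]

lemma at_mono (h : s ≤ s') (x : α) : A.at' s x ≤ A.at' s' x :=
  Nat.sInf_le ⟨Nat.zero_le _, (hit_spec (σ := fun _ => 0) (σ' := A.tau) (x := x)
    (fun k x => s' ≤ A.t k x) (Nat.zero_le _)).2.2.1.imp_left h.trans⟩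

lemma le_at (hx : x ∈ S) (hb : x ∉ A.Bad) (hs : s ≤ T) : s ≤ A.t (A.at' s x) x := by
  rcases (hit_spec (σ := fun _ => 0) (σ' := A.tau) (x := x) (fun k x => s ≤ A.t k x)
    (Nat.zero_le _)).2.2.1 with h | h
  · exact h
  · rw [at', h]; exact hs.trans (A.good_t hx hb)

lemma at_le (he : 0 ≤ e) (hx : x ∈ S) (hs : 0 ≤ s) : A.t (A.at' s x) x ≤ s + e ∧
    ∀ u ∈ Icc s (A.t (A.at' s x) x), |W x u - A.w (A.at' s x) x| ≤ 2 * e := by
  have hl := (A.st_at s).2 x hx
  have h4 := (hit_spec (σ := fun _ => 0) (σ' := A.tau) (x := x) (fun k x => s ≤ A.t k x)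
    (Nat.zero_le _)).2.2.2
  rw [← at'] at h4
  generalize A.at' s x = k at hl h4 ⊢
  cases k with
  | zero =>
    refine ⟨by rw [A.t0 x hx]; positivity, fun u hu => ?_⟩
    have : u = A.t 0 x := le_antisymm hu.2 (by rw [A.t0 x hx]; exact hs.trans hu.1)
    rw [this, w, sub_self, abs_zero]; positivity
  | succ m =>
    have h5 := not_le.1 (h4 m (Nat.zero_le _) (Nat.lt_succ_self m))
    obtain ⟨-, a2, a3⟩ := A.step x hx m hl
    refine ⟨by linarith, fun u hu => ?_⟩
    have a4 := abs_le.1 (a3 u ⟨h5.le.trans hu.1, hu.2⟩)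
    have a5 := abs_le.1 (A.w_step hx hl)
    rw [w] at a5 ⊢
    rw [w] at a5
    exact abs_le.2 ⟨by linarith, by linarith⟩

end AM

/-- the exit probability is small for a large level -/
lemma exit_small {T ε : ℝ} (hT : 0 < T) (hε : 0 < ε) : ∃ L0 > (0 : ℝ), ∀ L, L0 ≤ L →
    ∀ (α : Type) (S : Set α) (W : α → ℝ → ℝ) (e : ℝ) (A : AM S W L T e), S.Finite → S.Nonempty →
    e ≤ 1 → mean S (A.Bad.indicator 1) ≤ ε := by
  refine ⟨max 1 ((4 * T + 14) / ε), by positivity, fun L hL α S W e A hS hn he => ?_⟩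
  have h1 : 1 ≤ L := (le_max_left _ _).trans hL
  have h2 : (4 * T + 14) / ε ≤ L := (le_max_right _ _).trans hL
  have h0 := A.e_nn hS
  rw [div_le_iff₀ hε] at h2
  refine (A.bad_le hS hn (by positivity) hT.le).trans ?_
  rw [div_le_iff₀ (by positivity)]
  have h3 : (2 + 4 * (L + e)) * e ≤ (2 + 4 * (L + 1)) * 1 := by gcongr
  nlinarith [mul_le_mul_of_nonneg_left h2 (zero_le_one.trans h1)]

open Complex in
theorem chf_one {s s' ε : ℝ} (θ : ℝ) (hs : 0 ≤ s) (hss : s ≤ s') (hε : 0 < ε) :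
    ∃ L > (0 : ℝ), ∃ T > (0 : ℝ), ∃ e0 > (0 : ℝ), ∀ (α : Type) (S : Set α) (W : α → ℝ → ℝ) (e : ℝ)
    (_ : AM S W L T e), S.Finite → S.Nonempty → e ≤ e0 → ∀ f : (ℝ → ℝ) → ℝ, (∀ w, |f w| ≤ 1) →
    (∀ w w', (∀ u ∈ Icc 0 s, w u = w' u) → f w = f w') → ∀ c : ℂ, ‖c‖ ≤ 1 →
    |mean S (fun x => f (W x) * (c * exp ((θ * (W x s' - W x s) : ℝ) * I)).re) -
      Real.exp (-2 * θ ^ 2 * (s' - s)) * (c.re * mean S fun x => f (W x))| ≤ ε := by
  classical
  have hT : 0 < s' + 1 := by linarith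
  let B := 1 + Real.exp (2 * θ ^ 2 * (s' + 2))
  have hB : 0 < B := by positivity
  let κ := 4 * |θ| + 2 * θ ^ 2 + 1
  have hκ : 0 < κ := by positivity
  obtain ⟨L, hL, H1⟩ := exit_small hT (ε := ε / 4 / (B + 1)) (by positivity)
  obtain ⟨e1, he1, H2⟩ := exp_mart (θ * I) hL hT (ε := ε / 4) (by positivity)
  refine ⟨L, hL, _, hT, min (min e1 1) (min (1 / κ) (ε / 4 / κ)), by positivity,
    fun α S W e A hS hn he f hf1 hf c hc => ?_⟩
  simp only [le_min_iff] at he
  obtain ⟨⟨ha, hb⟩, hc1, hd⟩ := he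
  rw [le_div_iff₀ hκ] at hc1 hd
  have he0 := A.e_nn hS
  let σ := A.at' s
  let σ' := A.at' s'
  let f' : α → ℝ := fun x => if s ≤ A.t (σ x) x then f (W x) else 0
  have hf' : A.Mes σ f' := fun x y hr => by
    have e1 : A.t (σ x) x = A.t (σ y) y := (A.st_at s).mes_t x y hr
    simp only [f', ← e1]
    split_ifs with h
    · exact hf _ _ fun u hu => (A.ad _ x y hr ((A.st_at s).2 x (A.mem _ _ _ hr))).2 u
        ⟨hu.1, hu.2.trans h⟩
    · rfl
  have hf'1 : ∀ x, |f' x| ≤ 1 := fun x => by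
    simp only [f']; split_ifs
    · exact hf1 _
    · simp
  have K1 := H1 L le_rfl α S W e A hS hn hb
  have K2 := H2 α S W e A hS hn ha σ σ' (A.st_at s) (A.st_at s') (fun x _ => A.at_mono hss x) f' hf'
    (fun x _ => hf'1 x) c hc
  set G := Real.exp (-2 * θ ^ 2 * (s' - s)) with hG
  have hG0 : 0 < G := Real.exp_pos _
  have hG1 : G ≤ 1 := Real.exp_le_one_iff.2 (by nlinarith [sq_nonneg θ])
  have hre : ∀ (a : ℝ) (u : ℂ), |a| ≤ 1 → |a * (c * u).re| ≤ ‖u‖ := fun a u ha => by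
    rw [abs_mul]
    refine (mul_le_of_le_one_left (abs_nonneg _) ha).trans ((abs_re_le_norm _).trans ?_)
    rw [norm_mul]; exact mul_le_of_le_one_left (norm_nonneg _) hc
  have K3 : |mean S fun x => f (W x) * (c * exp ((θ * (W x s' - W x s) : ℝ) * I)).re -
      G * (f' x * (c * A.X (θ * I) (σ x) (σ' x) x).re)| ≤
      mean S fun x => 2 * (e * κ) + B * A.Bad.indicator 1 x := by
    refine abs_mean_le hS fun x hx => ?_
    have eX : A.X (θ * I) (σ x) (σ' x) x = exp ((θ * (A.w (σ' x) x - A.w (σ x) x) : ℝ) * I +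
        (2 * θ ^ 2 * (A.t (σ' x) x - A.t (σ x) x) : ℝ)) := by
      rw [AM.X, mul_pow, I_sq]; congr 1; push_cast; ring
    obtain ⟨a1, a2⟩ := A.at_le he0 hx hs
    obtain ⟨a3, a4⟩ := A.at_le he0 hx (hs.trans hss)
    by_cases hb : x ∈ A.Bad
    · simp only [indicator_of_mem hb, Pi.one_apply, mul_one]
      have b1 := hre _ (exp ((θ * (W x s' - W x s) : ℝ) * I)) (hf1 (W x))
      rw [norm_exp_ofReal_mul_I] at b1
      have b2 := hre _ (A.X (θ * I) (σ x) (σ' x) x) (hf'1 x)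
      have b3 : ‖A.X (θ * I) (σ x) (σ' x) x‖ ≤ Real.exp (2 * θ ^ 2 * (s' + 2)) := by
        rw [eX, exp_add, norm_mul, norm_exp_ofReal_mul_I, one_mul, norm_exp_ofReal]
        gcongr
        linarith [A.t_nn hx ((A.st_at s).2 x hx)]
      refine (abs_sub _ _).trans ?_
      rw [abs_mul G, abs_of_pos hG0]
      have := mul_le_of_le_one_left (abs_nonneg (f' x * (c * A.X (θ * I) (σ x) (σ' x) x).re)) hG1
      have : 0 ≤ e * κ := by positivity
      simp only [B]
      linarith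
    · have b1 := A.le_at hx hb (s := s) (by linarith)
      have b2 := A.le_at hx hb (s := s') (by linarith)
      have b3 := abs_le.1 (a2 s ⟨le_rfl, b1⟩)
      have b4 := abs_le.1 (a4 s' ⟨le_rfl, b2⟩)
      have e1 : f' x = f (W x) := if_pos b1
      let y : ℂ := (θ * (A.w (σ' x) x - A.w (σ x) x - (W x s' - W x s)) : ℝ) * I +
        (2 * θ ^ 2 * (A.t (σ' x) x - A.t (σ x) x - (s' - s)) : ℝ)
      have b5 : ‖y‖ ≤ e * κ := by
        refine (norm_add_le _ _).trans ?_
        rw [norm_mul, norm_I, mul_one, norm_real, norm_real, Real.norm_eq_abs, Real.norm_eq_abs,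
          abs_mul, abs_mul, abs_of_nonneg (by positivity : 0 ≤ 2 * θ ^ 2)]
        have c1 : |A.w (σ' x) x - A.w (σ x) x - (W x s' - W x s)| ≤ 4 * e :=
          abs_le.2 ⟨by linarith, by linarith⟩
        have c2 : |A.t (σ' x) x - A.t (σ x) x - (s' - s)| ≤ e := abs_le.2 ⟨by linarith, by linarith⟩
        simp only [κ]
        nlinarith [mul_le_mul_of_nonneg_left c1 (abs_nonneg θ),
          mul_le_mul_of_nonneg_left c2 (sq_nonneg θ)]
      have e2 : f (W x) * (c * exp ((θ * (W x s' - W x s) : ℝ) * I)).re -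
          G * (f' x * (c * A.X (θ * I) (σ x) (σ' x) x).re) =
          f (W x) * (c * (exp ((θ * (W x s' - W x s) : ℝ) * I) * -(exp y - 1))).re := by
        have e3 : (G : ℂ) * A.X (θ * I) (σ x) (σ' x) x =
            exp ((θ * (W x s' - W x s) : ℝ) * I) * exp y := by
          rw [eX, hG, ofReal_exp, ← exp_add, ← exp_add]
          congr 1
          simp only [y]
          push_cast
          ring
        rw [e1, mul_left_comm G, ← re_ofReal_mul G, mul_left_comm (G : ℂ), e3, ← mul_sub, ← sub_re]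
        congr 2
        ring
      rw [e2, indicator_of_notMem hb, mul_zero, add_zero]
      refine (hre _ _ (hf1 _)).trans ?_
      rw [norm_mul, norm_exp_ofReal_mul_I, one_mul, norm_neg]
      exact (norm_exp_sub_one_le (b5.trans hc1)).trans (by linarith)
  have K4 : |mean S fun x => f' x - f (W x)| ≤ mean S (A.Bad.indicator 1) := by
    refine abs_mean_le hS fun x hx => ?_
    by_cases hb : x ∈ A.Bad
    · simp only [indicator_of_mem hb, Pi.one_apply, f']
      split_ifs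
      · simp
      · simpa using hf1 _
    · have e1 : f' x = f (W x) := if_pos (A.le_at hx hb (s := s) (by linarith))
      simp [e1, indicator_of_notMem hb]
  rw [mean_sub hS, mean_mul hS, mean_add hS, mean_mul hS B, mean_const hS hn] at K3
  rw [mean_sub hS] at K4
  rw [le_div_iff₀ (by positivity)] at K1
  have K5 : |G * (mean S (fun x => f' x * (c * A.X (θ * I) (σ x) (σ' x) x).re) -
      c.re * mean S f')| ≤ ε / 4 := by
    rw [abs_mul, abs_of_pos hG0]
    exact (mul_le_of_le_one_left (abs_nonneg _) hG1).trans K2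
  have K6 : |G * (c.re * (mean S f' - mean S fun x => f (W x)))| ≤ mean S (A.Bad.indicator 1) := by
    rw [abs_mul, abs_of_pos hG0, abs_mul]
    exact (mul_le_of_le_one_left (by positivity) hG1).trans
      ((mul_le_of_le_one_left (abs_nonneg _) ((abs_re_le_norm c).trans hc)).trans K4)
  rw [abs_le] at K3 K5 K6 ⊢
  constructor <;> nlinarith [K3.1, K3.2, K5.1, K5.2, K6.1, K6.2]

theorem chfOut {α : ℕ → Type} {S : ∀ n, Set (α n)} {W : ∀ n, α n → ℝ → ℝ} (h : Seq S W) :
    ChfOut S W := by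
  intro s s' θ ε hs hss hε
  obtain ⟨L, hL, T, hT, e0, he0, H⟩ := chf_one θ hs hss hε
  filter_upwards [h.2 L T e0 hL hT he0] with n ⟨A⟩ f hf1 hf
  have H1 := H _ _ _ _ A (h.1 n).1 (h.1 n).2 le_rfl f hf1 hf
  constructor
  · have := H1 1 (by simp)
    simpa only [one_mul, Complex.one_re, Complex.exp_ofReal_mul_I_re] using this
  · have := H1 (-Complex.I) (by simp)
    simpa only [neg_mul, Complex.neg_re, Complex.I_re, neg_zero, zero_mul, mul_zero, sub_zero,
      Complex.mul_re, Complex.I_im, one_mul, zero_sub, neg_neg, Complex.exp_ofReal_mul_I_im]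
      using this

end Pool.Agent.Lib.MP_6359c9_pr.Bm
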