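import Pool.Agent.Lib.MP_6359c9_pr.EndM

/-! Approximate martingale chains on a finite uniform space: interface. -/

namespace Pool.Agent.Lib.MP_6359c9_pr.Bm

open Set Filter Topology

/-- `k ≤ τ` for the first step `τ` with `L ≤ |W|` or `T ≤ t` -/
def Live (w : ℝ → ℝ) (t : ℕ → ℝ) (L T : ℝ) (k : ℕ) : Prop := ∀ j < k, |w (t j)| < L ∧ t j < T

/-- an exploration in steps `k` (`r k x y`: same history up to step `k`, `t k x`: time at step `k`)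
along which `W` and `W ^ 2 - 4 t` are within `E` of true martingales `M`, `N`, mean of `E` at most
`e`, steps at most `e`, all until `|W|` reaches `L` or the time reaches `T` -/
structure AM {α : Type} (S : Set α) (W : α → ℝ → ℝ) (L T e : ℝ) where
  r : ℕ → α → α → Prop
  t : ℕ → α → ℝ
  M : ℕ → α → ℝ
  N : ℕ → α → ℝ
  E : α → ℝ
  mem : ∀ k x y, r k x y → x ∈ S
  symm : ∀ k x y, r k x y → r k y x
  anti : ∀ k x y, r (k + 1) x y → r k x y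
  ad : ∀ k x y, r k x y → Live (W x) (t · x) L T k →
    t k x = t k y ∧ ∀ u ∈ Icc 0 (t k x), W x u = W y u
  t0 : ∀ x ∈ S, t 0 x = 0
  w0 : ∀ x ∈ S, W x 0 = 0
  step : ∀ x ∈ S, ∀ k, Live (W x) (t · x) L T (k + 1) → t k x ≤ t (k + 1) x ∧
    t (k + 1) x ≤ t k x + e ∧ ∀ u ∈ Icc (t k x) (t (k + 1) x), |W x u - W x (t k x)| ≤ e
  exit : ∀ x ∈ S, ∃ k, ¬Live (W x) (t · x) L T k
  errM : ∀ x ∈ S, ∀ k, Live (W x) (t · x) L T k → |M k x - W x (t k x)| ≤ E x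
  errN : ∀ x ∈ S, ∀ k, Live (W x) (t · x) L T k →
    |N k x - (W x (t k x) ^ 2 - 4 * t k x)| ≤ E x
  errE : mean S E ≤ e
  mart : ∀ (k : ℕ) (g : α → ℝ), (∀ x y, r k x y → g x = g y) →
    (∀ x, ¬Live (W x) (t · x) L T (k + 1) → g x = 0) →
    mean S (fun x => g x * (M (k + 1) x - M k x)) = 0 ∧
      mean S (fun x => g x * (N (k + 1) x - N k x)) = 0

namespace AM

variable {α : Type} {S : Set α} {W : α → ℝ → ℝ} {L T e : ℝ} (A : AM S W L T e)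

/-- the value of `W` at step `k` -/
def w (k : ℕ) (x : α) : ℝ := W x (A.t k x)

/-- `k ≤ τ` -/
def Lv (k : ℕ) (x : α) : Prop := Live (W x) (A.t · x) L T k

/-- stopping steps not later than `τ` -/
def St (σ : α → ℕ) : Prop :=
  (∀ x y, A.r (σ x) x y → σ y = σ x) ∧ ∀ x ∈ S, A.Lv (σ x) x

/-- `Φ` has a second order expansion with adapted coefficients `a`, `b` between the steps `σ` and
`σ'` (upper bound only) -/
structure Tay (σ σ' : α → ℕ) (Φ a b : ℕ → α → ℝ) (C ρ0 : ℝ) : Prop where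
  ad : ∀ j x y, A.r j x y → σ x ≤ j → j < σ' x → a j x = a j y ∧ b j x = b j y
  bd : ∀ x ∈ S, ∀ j, σ x ≤ j → j ≤ σ' x → |Φ j x| ≤ C ∧ |a j x| ≤ C ∧ |b j x| ≤ C
  tay : ∀ x ∈ S, ∀ j k, σ x ≤ j → j ≤ k → k ≤ σ' x → ∀ ρ, 0 < ρ → ρ ≤ ρ0 →
    A.t k x - A.t j x ≤ ρ → (∀ u ∈ Icc (A.t j x) (A.t k x), |W x u - A.w j x| ≤ ρ) →
    Φ k x - Φ j x - a j x * (A.w k x - A.w j x) -
      b j x * ((A.w k x - A.w j x) ^ 2 - 4 * (A.t k x - A.t j x)) ≤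
      C * ρ * ((A.w k x - A.w j x) ^ 2 + (A.t k x - A.t j x))

end AM

/-- approximate Ito formula -/
def ItoSt : Prop := ∀ C ρ0 L T ε : ℝ, 0 < C → 0 < ρ0 → 0 < L → 0 < T → 0 < ε → ∃ e0 > (0 : ℝ),
  ∀ (α : Type) (S : Set α) (W : α → ℝ → ℝ) (e : ℝ) (A : AM S W L T e), S.Finite → S.Nonempty →
    e ≤ e0 → ∀ σ σ' : α → ℕ, A.St σ → A.St σ' → (∀ x ∈ S, σ x ≤ σ' x) →
    ∀ Φ a b : ℕ → α → ℝ, A.Tay σ σ' Φ a b C ρ0 →
      mean S (fun x => Φ (σ' x) x - Φ (σ x) x) ≤ ε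

/-- the hypothesis on a sequence of finite spaces -/
def Seq {α : ℕ → Type} (S : ∀ n, Set (α n)) (W : ∀ n, α n → ℝ → ℝ) : Prop :=
  (∀ n, (S n).Finite ∧ (S n).Nonempty) ∧
    ∀ L T e : ℝ, 0 < L → 0 < T → 0 < e → ∀ᶠ n in atTop, Nonempty (AM (S n) (W n) L T e)

/-- conditional characteristic function of an increment -/
def ChfOut {α : ℕ → Type} (S : ∀ n, Set (α n)) (W : ∀ n, α n → ℝ → ℝ) : Prop :=
  ∀ s s' θ ε : ℝ, 0 ≤ s → s ≤ s' → 0 < ε → ∀ᶠ n in atTop, ∀ f : (ℝ → ℝ) → ℝ, (∀ w, |f w| ≤ 1) →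
    (∀ w w', (∀ u ∈ Icc 0 s, w u = w' u) → f w = f w') →
    |mean (S n) (fun x => f (W n x) * Real.cos (θ * (W n x s' - W n x s))) -
        Real.exp (-2 * θ ^ 2 * (s' - s)) * mean (S n) fun x => f (W n x)| ≤ ε ∧
      |mean (S n) fun x => f (W n x) * Real.sin (θ * (W n x s' - W n x s))| ≤ ε

/-- modulus of continuity -/
def ModOut {α : ℕ → Type} (S : ∀ n, Set (α n)) (W : ∀ n, α n → ℝ → ℝ) : Prop :=
  ∀ T ε : ℝ, 0 < T → 0 < ε → ∃ h > (0 : ℝ), ∀ᶠ n in atTop,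
    mean (S n) ({x | ∃ u ∈ Icc 0 T, ∃ v ∈ Icc 0 T, |u - v| ≤ h ∧
      ε < |W n x u - W n x v|}.indicator 1) ≤ ε

end Pool.Agent.Lib.MP_6359c9_pr.Bm
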