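import Pool.Agent.Lib.MP_6359c9_pr.BmIto

/-! The exponential martingale. -/

namespace Pool.Agent.Lib.MP_6359c9_pr.Bm

open Set Filter Topology End Complex

lemma exp_tay (z : ℂ) : ∃ D : ℝ, 0 ≤ D ∧ ∀ d s ρ : ℝ, |d| ≤ ρ → 0 ≤ s → s ≤ ρ → ρ ≤ 1 →
    ‖exp (z * d - 2 * z ^ 2 * s) - 1 - z * d - z ^ 2 / 2 * (d ^ 2 - 4 * s)‖ ≤
      D * ρ * (d ^ 2 + s) := by
  set n := ‖z‖ with hn
  have n0 : 0 ≤ n := norm_nonneg z
  refine ⟨(n + 2 * n ^ 2) * (2 * n ^ 2 + 8 * n ^ 4) * Real.exp (n + 2 * n ^ 2) + 2 * n ^ 3 +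
    2 * n ^ 4, by positivity, fun d s ρ hd hs hsρ hρ => ?_⟩
  set x : ℂ := z * d - 2 * z ^ 2 * s with hx
  have hρ0 : 0 ≤ ρ := hs.trans hsρ
  have h1 : ‖x‖ ≤ n * |d| + 2 * n ^ 2 * s := by
    refine (norm_sub_le _ _).trans (le_of_eq ?_)
    simp [hn, abs_of_nonneg hs]
  have h2 : ‖x‖ ≤ (n + 2 * n ^ 2) * ρ := by
    nlinarith [mul_le_mul_of_nonneg_left hd n0, mul_le_mul_of_nonneg_left hsρ (sq_nonneg n)]
  have h3 : ‖x‖ ^ 2 ≤ (2 * n ^ 2 + 8 * n ^ 4) * (d ^ 2 + s) := by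
    have a1 : ‖x‖ ^ 2 ≤ (n * |d| + 2 * n ^ 2 * s) ^ 2 := pow_le_pow_left₀ (norm_nonneg _) h1 2
    have a2 : s ^ 2 ≤ s := by nlinarith
    have a3 : (n * |d|) ^ 2 = n ^ 2 * d ^ 2 := by rw [mul_pow, sq_abs]
    nlinarith [sq_nonneg (n * |d| - 2 * n ^ 2 * s), mul_le_mul_of_nonneg_left a2 (pow_nonneg n0 4),
      mul_nonneg (pow_nonneg n0 4) (sq_nonneg d), mul_nonneg (sq_nonneg n) hs]
  have h4 := norm_exp_sub_sum_le_norm_mul_exp x 3
  have h5 : Real.exp ‖x‖ ≤ Real.exp (n + 2 * n ^ 2) :=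
    Real.exp_le_exp.2 (h2.trans (mul_le_of_le_one_right (by positivity) hρ))
  have h6 : ‖x‖ ^ 3 * Real.exp ‖x‖ ≤ ((n + 2 * n ^ 2) * ρ) * ((2 * n ^ 2 + 8 * n ^ 4) * (d ^ 2 + s)) *
      Real.exp (n + 2 * n ^ 2) := by
    rw [pow_succ' ‖x‖ 2]
    gcongr
  have e1 : exp x - 1 - z * d - z ^ 2 / 2 * (d ^ 2 - 4 * s) =
      (exp x - ∑ m ∈ Finset.range 3, x ^ m / m.factorial) + (-2 * z ^ 3 * d * s) +
        2 * z ^ 4 * s ^ 2 := by
    simp only [Finset.sum_range_succ, Finset.sum_range_zero, Nat.factorial, hx]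
    push_cast
    ring
  have h7 : ‖(-2 * z ^ 3 * d * s : ℂ)‖ ≤ 2 * n ^ 3 * ρ * (d ^ 2 + s) := by
    have : ‖(-2 * z ^ 3 * d * s : ℂ)‖ = 2 * n ^ 3 * |d| * s := by simp [hn, abs_of_nonneg hs]
    rw [this]
    gcongr
    exact le_add_of_nonneg_left (sq_nonneg d)
  have h8 : ‖(2 * z ^ 4 * s ^ 2 : ℂ)‖ ≤ 2 * n ^ 4 * ρ * (d ^ 2 + s) := by
    have : ‖(2 * z ^ 4 * s ^ 2 : ℂ)‖ = 2 * n ^ 4 * s * s := by simp [hn, abs_of_nonneg hs]; ring
    rw [this]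
    gcongr
    exact le_add_of_nonneg_left (sq_nonneg d)
  rw [e1]
  refine (norm_add₃_le).trans ?_
  nlinarith

/-- the exponential of an increment -/
noncomputable def AM.X {α : Type} {S : Set α} {W : α → ℝ → ℝ} {L T e : ℝ} (A : AM S W L T e)
    (z : ℂ) (j k : ℕ) (x : α) : ℂ :=
  exp (z * (A.w k x - A.w j x : ℝ) - 2 * z ^ 2 * (A.t k x - A.t j x : ℝ))

theorem exp_mart (z : ℂ) {L T ε : ℝ} (hL : 0 < L) (hT : 0 < T) (hε : 0 < ε) : ∃ e0 > (0 : ℝ),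
    ∀ (α : Type) (S : Set α) (W : α → ℝ → ℝ) (e : ℝ) (A : AM S W L T e), S.Finite → S.Nonempty →
    e ≤ e0 → ∀ σ σ' : α → ℕ, A.St σ → A.St σ' → (∀ x ∈ S, σ x ≤ σ' x) →
    ∀ f : α → ℝ, A.Mes σ f → (∀ x ∈ S, |f x| ≤ 1) → ∀ c : ℂ, ‖c‖ ≤ 1 →
      |mean S (fun x => f x * (c * A.X z (σ x) (σ' x) x).re) - c.re * mean S f| ≤ ε := by
  obtain ⟨D, hD, hd⟩ := exp_tay z
  let B := Real.exp (‖z‖ * (2 * (L + 1)) + 2 * ‖z‖ ^ 2 * (T + 1))
  have hB : 0 < B := Real.exp_pos _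
  obtain ⟨e0, he0, H⟩ := ito (B * (1 + ‖z‖ + ‖z‖ ^ 2 + D)) 1 L T ε (by positivity) one_pos hL hT hε
  refine ⟨min e0 1, by positivity, fun α S W e A hS hn he σ σ' h h' hle f hf hf1 => ?_⟩
  have he1 : e ≤ 1 := he.trans (min_le_right _ _)
  have hen := A.e_nn hS
  suffices K : ∀ c : ℂ, ‖c‖ ≤ 1 →
      mean S (fun x => f x * (c * A.X z (σ x) (σ' x) x).re) - c.re * mean S f ≤ ε by
    intro c hc
    refine abs_le.2 ⟨?_, K c hc⟩
    have := K (-c) (by rwa [norm_neg])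
    simp only [neg_mul, neg_re, mul_neg] at this
    rw [mean_neg hS] at this
    linarith
  intro c hc
  have hX : ∀ x ∈ S, ∀ j, σ x ≤ j → j ≤ σ' x → ‖A.X z (σ x) j x‖ ≤ B := by
    intro x hx j h1 h2
    have l1 := (h'.2 x hx).mono h2
    refine (norm_exp_le_exp_norm _).trans (Real.exp_le_exp.2 ((norm_sub_le _ _).trans ?_))
    have a1 := abs_le.1 (A.w_le hL.le hen hx l1)
    have a2 := abs_le.1 (A.w_le hL.le hen hx (h.2 x hx))
    have a3 := A.t_le hT.le hen hx l1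
    have a4 := A.t_nn hx (h.2 x hx)
    have a5 := A.t_mono hx l1 h1
    simp only [norm_mul, norm_real, norm_pow, Real.norm_eq_abs, norm_ofNat]
    gcongr
    · exact abs_le.2 ⟨by linarith, by linarith⟩
    · exact abs_le.2 ⟨by linarith, by linarith⟩
  have hre : ∀ x ∈ S, ∀ (u : ℂ) (R : ℝ), ‖u‖ ≤ R → |f x * (c * u).re| ≤ R := by
    intro x hx u R hu
    rw [abs_mul]
    have : |(c * u).re| ≤ R := (abs_re_le_norm _).trans (by
      rw [norm_mul]; exact (mul_le_of_le_one_left (norm_nonneg _) hc).trans hu)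
    exact (mul_le_of_le_one_left (abs_nonneg _) (hf1 x hx)).trans this
  have := H α S W e A hS hn (he.trans (min_le_left _ _)) σ σ' h h' hle
    (fun k x => f x * (c * A.X z (σ x) k x).re) (fun k x => f x * (c * (A.X z (σ x) k x * z)).re)
    (fun k x => f x * (c * (A.X z (σ x) k x * (z ^ 2 / 2))).re) ⟨?_, ?_, ?_⟩
  · rw [← mean_mul hS, ← mean_sub hS]
    refine le_trans (le_of_eq (mean_congr hS fun x _ => ?_)) this
    simp [AM.X, mul_comm]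
  · intro j x y hr h1 h2
    have hl := (h'.2 x (A.mem _ _ _ hr)).mono h2.le
    obtain ⟨e1, e2⟩ := A.ad_tw hr hl le_rfl
    obtain ⟨e3, e4⟩ := A.ad_tw hr hl h1
    have e5 : A.X z (σ x) j x = A.X z (σ y) j y := by
      rw [h.eq hr h1, AM.X, AM.X, e1, e2, e3, e4]
    rw [e5, hf x y (A.r_le hr h1)]
    exact ⟨rfl, rfl⟩
  · intro x hx j h1 h2
    have a1 := hX x hx j h1 h2
    have n0 := norm_nonneg z
    refine ⟨hre x hx _ _ (a1.trans ?_), hre x hx _ _ ?_, hre x hx _ _ ?_⟩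
    · exact le_mul_of_one_le_right hB.le (by nlinarith)
    · rw [norm_mul]; gcongr; nlinarith
    · rw [norm_mul, norm_div, norm_pow, norm_ofNat]; gcongr; nlinarith
  · intro x hx j k h1 h2 h3 ρ hρ hρ1 ht hw
    have l1 := (h'.2 x hx).mono h3
    have a5 := A.t_mono hx l1 h2
    have a6 := hd (A.w k x - A.w j x) (A.t k x - A.t j x) ρ (hw _ ⟨a5, le_rfl⟩) (sub_nonneg.2 a5)
      ht hρ1
    set d := A.w k x - A.w j x with hdd
    set s := A.t k x - A.t j x with hs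
    have s0 : 0 ≤ s := sub_nonneg.2 a5
    have e1 : A.X z (σ x) k x = A.X z (σ x) j x * exp (z * d - 2 * z ^ 2 * s) := by
      rw [AM.X, AM.X, ← exp_add, hdd, hs]
      congr 1
      push_cast
      ring
    have a7 := hre x hx (A.X z (σ x) j x * (exp (z * d - 2 * z ^ 2 * s) - 1 - z * d -
      z ^ 2 / 2 * (d ^ 2 - 4 * s))) (B * (D * ρ * (d ^ 2 + s))) (by
        rw [norm_mul]; exact mul_le_mul (hX x hx j h1 (h2.trans h3)) a6 (norm_nonneg _) hB.le)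
    refine le_trans (le_of_eq ?_) ((le_abs_self _).trans (a7.trans ?_))
    · rw [e1]
      have e2 : ∀ (u : ℂ) (r : ℝ), u.re * r = (u * r).re := fun u r => by simp
      rw [mul_assoc (f x), mul_assoc (f x), e2, e2, ← mul_sub, ← mul_sub, ← mul_sub, ← sub_re, ← sub_re,
        ← sub_re]
      congr 2
      push_cast
      ring
    · have : 0 ≤ B * (1 + ‖z‖ + ‖z‖ ^ 2) * ρ * (d ^ 2 + s) := by positivity
      nlinarith

end Pool.Agent.Lib.MP_6359c9_pr.Bm
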