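import Mathlib

/-! Expansion of `arg (g t z - W t)` at far points, from the Loewner equation. -/

namespace Pool.Agent.Lib.MP_6359c9_pr.Far

open Set Complex

/-- `g` solves the Loewner equation driven by `W` on `[0, t]` from `z` -/
def Sol (W : ℝ → ℝ) (t : ℝ) (z : ℂ) (g : ℝ → ℂ) : Prop :=
  g 0 = z ∧ ∀ s ∈ Icc 0 t, HasDerivWithinAt g (2 / (g s - W s)) (Icc 0 t) s

variable {W : ℝ → ℝ} {t L T : ℝ} {z : ℂ} {g : ℝ → ℂ}

lemma far_norm {w : ℝ} {p : ℂ} (hw : |w| ≤ L) (hz : 2 * (L + 1) ≤ ‖z‖) (hp : ‖p - z‖ ≤ 1) :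
    ‖z‖ / 2 ≤ ‖p - w‖ := by
  have h1 : ‖z‖ ≤ ‖p - w‖ + ‖p - z‖ + ‖(w : ℂ)‖ := by
    calc ‖z‖ = ‖(p - w) - (p - z) + w‖ := by congr 1; ring
      _ ≤ _ := (norm_add_le _ _).trans (add_le_add (norm_sub_le _ _) le_rfl)
  rw [norm_real, Real.norm_eq_abs] at h1
  linarith

lemma Sol.disp (h : Sol W t z g) (hT : t ≤ T) (hW : ∀ s ∈ Icc 0 t, |W s| ≤ L) (hL : 0 ≤ L)
    (hz : 2 * (L + 1) ≤ ‖z‖) (hz' : 5 * T ≤ ‖z‖) {s : ℝ} (hs : s ∈ Icc 0 t) :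
    ‖g s - z‖ ≤ 5 / ‖z‖ * s := by
  have h0 : 0 < ‖z‖ := by linarith
  refine image_norm_le_of_norm_deriv_right_lt_deriv_boundary (f := fun s => g s - z)
    (f' := fun s => 2 / (g s - W s)) (B := fun s => 5 / ‖z‖ * s) (B' := fun _ => 5 / ‖z‖)
    (fun s hs => ((h.2 s hs).continuousWithinAt).sub continuousWithinAt_const)
    (fun s hs => (((h.2 s (Ico_subset_Icc_self hs)).mono_of_mem_nhdsWithin
      (Icc_mem_nhdsGE_of_mem hs)).sub_const z)) (by simp [h.1])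
    (fun x => by simpa using (hasDerivAt_id x).const_mul (5 / ‖z‖)) (fun x hx he => ?_) hs
  have h1 : ‖g x - z‖ ≤ 1 := by
    rw [he, div_mul_eq_mul_div, div_le_one h0]; linarith [hx.2]
  have h2 := far_norm (hW x (Ico_subset_Icc_self hx)) hz h1
  rw [norm_div, Complex.norm_two, div_lt_div_iff₀ (by linarith) h0]
  linarith

lemma Sol.disp2 (h : Sol W t z g) (ht : 0 ≤ t) (hT : t ≤ T) (hW : ∀ s ∈ Icc 0 t, |W s| ≤ L)
    (hL : 0 ≤ L) (hz : 2 * (L + 1) ≤ ‖z‖) (hz' : 5 * T ≤ ‖z‖) :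
    ‖g t - z - 2 * t / z‖ ≤ 4 * (L + 1) * T / ‖z‖ ^ 2 := by
  have h0 : 0 < ‖z‖ := by linarith
  have hz0 : z ≠ 0 := norm_pos_iff.1 h0
  have := norm_image_sub_le_of_norm_deriv_le_segment' (f := fun s : ℝ => g s - 2 / z * (s : ℂ))
    (f' := fun s => 2 / (g s - W s) - 2 / z * 1) (C := 4 * (L + 1) / ‖z‖ ^ 2) (a := 0) (b := t)
    (fun s hs => (h.2 s hs).sub
      ((Complex.ofRealCLM.hasDerivAt (x := s)).const_mul (2 / z)).hasDerivWithinAt)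
    (fun s hs => by
      have hs' := Ico_subset_Icc_self hs
      have h1 : ‖g s - z‖ ≤ 1 := (h.disp hT hW hL hz hz' hs').trans (by
        rw [div_mul_eq_mul_div, div_le_one h0]; linarith [hs.2])
      have h2 := far_norm (hW s hs') hz h1
      have h3 : g s - W s ≠ 0 := norm_pos_iff.1 (by linarith)
      have h4 : ‖(W s : ℂ) - (g s - z)‖ ≤ L + 1 := (norm_sub_le _ _).trans
        (add_le_add (by rw [norm_real, Real.norm_eq_abs]; exact hW s hs') h1)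
      rw [show 2 / (g s - W s) - 2 / z * 1 = 2 * (W s - (g s - z)) / ((g s - W s) * z) by
        field_simp; ring, norm_div, norm_mul, norm_mul, Complex.norm_two,
        show 4 * (L + 1) / ‖z‖ ^ 2 = 2 * (L + 1) / (‖z‖ / 2 * ‖z‖) by field_simp; ring]
      gcongr) t (right_mem_Icc.2 ht)
  rw [h.1, show g t - 2 / z * (t : ℂ) - (z - 2 / z * ((0 : ℝ) : ℂ)) = g t - z - 2 * t / z by
    push_cast; ring, sub_zero] at this
  refine this.trans ?_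
  rw [show 4 * (L + 1) * T / ‖z‖ ^ 2 = 4 * (L + 1) / ‖z‖ ^ 2 * T by ring]
  gcongr

/-- second order expansion of the argument at a far point of the right half plane -/
theorem Sol.arg_exp (h : Sol W t z g) (ht : 0 ≤ t) (hT : t ≤ T) (hW : ∀ s ∈ Icc 0 t, |W s| ≤ L)
    (hL : 0 ≤ L) (hz : 2 * (L + 1) ≤ ‖z‖) (hz' : 5 * T ≤ ‖z‖) (hre : 0 ≤ z.re) :
    |arg (g t - W t) - arg z - (-(W t : ℂ) / z + (2 * t - W t ^ 2 / 2) / z ^ 2).im| ≤
      (9 * (L + 1) * T + (L + 1) ^ 3) / ‖z‖ ^ 3 := by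
  have h0 : 0 < ‖z‖ := by linarith
  have hz0 : z ≠ 0 := norm_pos_iff.1 h0
  have hT0 : 0 ≤ T := ht.trans hT
  have d1 : ‖g t - z‖ ≤ 5 * T / ‖z‖ := (h.disp hT hW hL hz hz' (right_mem_Icc.2 ht)).trans (by
    rw [div_mul_eq_mul_div]; gcongr)
  have d1' : ‖g t - z‖ ≤ 1 := d1.trans ((div_le_one h0).2 hz')
  have d2 := h.disp2 ht hT hW hL hz hz'
  have hw : ‖(W t : ℂ)‖ ≤ L := by
    rw [norm_real, Real.norm_eq_abs]; exact hW t (right_mem_Icc.2 ht)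
  obtain ⟨u, hu⟩ : ∃ u, u = (g t - z - W t) / z := ⟨_, rfl⟩
  have e1 : g t - W t = z * (1 + u) := by rw [hu]; field_simp; ring
  have u1 : ‖u‖ ≤ (L + 1) / ‖z‖ := by
    rw [hu, norm_div]
    gcongr
    linarith [norm_sub_le (g t - z) (W t)]
  have u2 : ‖u‖ ≤ 1 / 2 := u1.trans (by rw [div_le_iff₀ h0]; linarith)
  have re1 : 0 < (1 + u).re := by
    have := (abs_le.1 ((abs_re_le_norm u).trans u2)).1
    simp only [add_re, one_re]; linarith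
  have u0 : 1 + u ≠ 0 := fun h => by simp [h] at re1
  have a1 := abs_le.1 (abs_arg_le_pi_div_two_iff.2 hre)
  have a2 := abs_lt.1 (abs_arg_lt_pi_div_two_iff.2 (Or.inl re1))
  rw [e1, arg_mul hz0 u0 ⟨by linarith, by linarith⟩, add_sub_cancel_left, ← log_im, ← sub_im]
  refine (abs_im_le_norm _).trans ?_
  have l1 := norm_log_sub_logTaylor_le 2 (z := u) (by linarith)
  have l2 : logTaylor (2 + 1) u = u - u ^ 2 / 2 := by
    simp [logTaylor, Finset.sum_range_succ]; ring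
  rw [l2] at l1
  have l3 : ‖log (1 + u) - (u - u ^ 2 / 2)‖ ≤ (L + 1) ^ 3 / ‖z‖ ^ 3 := by
    refine l1.trans ?_
    have : (1 - ‖u‖)⁻¹ ≤ 2 := by rw [inv_le_comm₀ (by linarith) two_pos]; linarith
    calc ‖u‖ ^ (2 + 1) * (1 - ‖u‖)⁻¹ / (((2 : ℕ) : ℝ) + 1) ≤ ((L + 1) / ‖z‖) ^ 3 * 2 / 2 := by
          have h3 : 0 ≤ (1 - ‖u‖)⁻¹ := inv_nonneg.2 (by linarith)
          gcongr; norm_num
      _ = _ := by rw [div_pow]; ring
  have l4 : ‖(g t - z - 2 * t / z) / z‖ ≤ 4 * (L + 1) * T / ‖z‖ ^ 3 := by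
    rw [norm_div, show 4 * (L + 1) * T / ‖z‖ ^ 3 = 4 * (L + 1) * T / ‖z‖ ^ 2 / ‖z‖ by field_simp]
    gcongr
  have l5 : ‖(g t - z) * (g t - z - 2 * W t) / (2 * z ^ 2)‖ ≤ 5 * (L + 1) * T / ‖z‖ ^ 3 := by
    have : ‖g t - z - 2 * W t‖ ≤ 2 * (L + 1) := by
      refine (norm_sub_le _ _).trans ?_
      rw [norm_mul, Complex.norm_two]; linarith
    rw [norm_div, norm_mul, norm_mul, norm_pow, Complex.norm_two,
      show 5 * (L + 1) * T / ‖z‖ ^ 3 = 5 * T / ‖z‖ * (2 * (L + 1)) / (2 * ‖z‖ ^ 2) by field_simp]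
    gcongr
  rw [show log (1 + u) - (-(W t : ℂ) / z + (2 * t - W t ^ 2 / 2) / z ^ 2) =
    (log (1 + u) - (u - u ^ 2 / 2)) + ((g t - z - 2 * t / z) / z -
      (g t - z) * (g t - z - 2 * W t) / (2 * z ^ 2)) by rw [hu]; field_simp; ring]
  refine (norm_add_le _ _).trans ((add_le_add le_rfl (norm_sub_le _ _)).trans ?_)
  have : (9 * (L + 1) * T + (L + 1) ^ 3) / ‖z‖ ^ 3 = (L + 1) ^ 3 / ‖z‖ ^ 3 +
      (4 * (L + 1) * T / ‖z‖ ^ 3 + 5 * (L + 1) * T / ‖z‖ ^ 3) := by ring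
  linarith

lemma arg_diag : arg (1 + I) = Real.pi / 4 := by
  have h : (1 + I : ℂ) = (√2 : ℝ) * (cos ((Real.pi / 4 : ℝ) : ℂ) + sin ((Real.pi / 4 : ℝ) : ℂ) * I) := by
    rw [← ofReal_cos, ← ofReal_sin, Real.cos_pi_div_four, Real.sin_pi_div_four]
    have : ((√2 : ℝ) : ℂ) * (√2 : ℝ) = 2 := by
      rw [← ofReal_mul, Real.mul_self_sqrt two_pos.le]; norm_num
    push_cast
    linear_combination (-(1 + I) / 2) * this
  rw [h]
  exact arg_mul_cos_add_sin_mul_I (by positivity) ⟨by linarith [Real.pi_pos], by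
    linarith [Real.pi_pos]⟩

/-- the two test points `R i` and `R (1 + i)` see `W` and `W ^ 2 - 4 t` -/
theorem two_points {R : ℝ} {g1 g2 : ℝ → ℂ} (h1 : Sol W t (R * I) g1) (h2 : Sol W t (R * (1 + I)) g2)
    (ht : 0 ≤ t) (hT : t ≤ T) (hW : ∀ s ∈ Icc 0 t, |W s| ≤ L) (hL : 0 ≤ L)
    (hR : 2 * (L + 1) ≤ R) (hR' : 5 * T ≤ R) :
    |R * (arg (g1 t - W t) - Real.pi / 2) - W t| ≤ (9 * (L + 1) * T + (L + 1) ^ 3) / R ^ 2 ∧
      |4 * R ^ 2 * (arg (g2 t - W t) - Real.pi / 4) - 2 * R ^ 2 * (arg (g1 t - W t) - Real.pi / 2) -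
        (W t ^ 2 - 4 * t)| ≤ 6 * (9 * (L + 1) * T + (L + 1) ^ 3) / R := by
  have hR0 : 0 < R := by linarith
  have hC : 0 ≤ 9 * (L + 1) * T + (L + 1) ^ 3 := by have := ht.trans hT; positivity
  have n1 : ‖(R : ℂ) * I‖ = R := by simp [hR0.le]
  have n2 : R ≤ ‖(R : ℂ) * (1 + I)‖ := by
    refine le_trans ?_ (re_le_norm _); simp
  have k1 := h1.arg_exp ht hT hW hL (n1.symm ▸ hR) (n1.symm ▸ hR') (by simp)
  have k2 := (h2.arg_exp ht hT hW hL (hR.trans n2) (hR'.trans n2) (by simp [hR0.le])).trans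
    (show _ ≤ (9 * (L + 1) * T + (L + 1) ^ 3) / R ^ 3 by gcongr)
  have hRc : (R : ℂ) ≠ 0 := by exact_mod_cast hR0.ne'
  have i1 : (-(W t : ℂ) / (R * I) + (2 * t - W t ^ 2 / 2) / (R * I) ^ 2).im = W t / R := by
    rw [show -(W t : ℂ) / (R * I) + (2 * t - W t ^ 2 / 2) / (R * I) ^ 2 =
      ((-(2 * t - W t ^ 2 / 2) / R ^ 2 : ℝ) : ℂ) + ((W t / R : ℝ) : ℂ) * I by
        rw [mul_pow, I_sq, div_mul_eq_div_div, div_I]; push_cast; field_simp; ring]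
    simp only [add_im, ofReal_im, mul_im, ofReal_re, I_im, I_re]; ring
  have i2 : (-(W t : ℂ) / (R * (1 + I)) + (2 * t - W t ^ 2 / 2) / (R * (1 + I)) ^ 2).im =
      W t / (2 * R) + (W t ^ 2 - 4 * t) / (4 * R ^ 2) := by
    have e1 : (1 + I : ℂ)⁻¹ = (1 - I) / 2 := by
      refine inv_eq_of_mul_eq_one_right ?_
      linear_combination (-1 / 2 : ℂ) * I_sq
    rw [show -(W t : ℂ) / (R * (1 + I)) + (2 * t - W t ^ 2 / 2) / (R * (1 + I)) ^ 2 =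
      ((-W t / (2 * R) : ℝ) : ℂ) +
        ((W t / (2 * R) + (W t ^ 2 - 4 * t) / (4 * R ^ 2) : ℝ) : ℂ) * I by
        rw [div_eq_mul_inv, div_eq_mul_inv _ ((R * (1 + I)) ^ 2), ← inv_pow, mul_inv, e1]
        push_cast; field_simp
        linear_combination (4 * (4 * (t : ℂ) - (W t : ℂ) ^ 2)) * I_sq]
    simp only [add_im, ofReal_im, mul_im, ofReal_re, I_im, I_re]; ring
  rw [arg_real_mul _ hR0, arg_I, i1, n1] at k1
  rw [arg_real_mul _ hR0, arg_diag, i2] at k2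
  generalize 9 * (L + 1) * T + (L + 1) ^ 3 = C at *
  generalize arg (g1 t - W t) - Real.pi / 2 = p at *
  generalize arg (g2 t - W t) - Real.pi / 4 = q at *
  constructor
  · rw [show R * p - W t = R * (p - W t / R) by field_simp, abs_mul, abs_of_pos hR0,
      show C / R ^ 2 = R * (C / R ^ 3) by field_simp]
    gcongr
  · rw [show 4 * R ^ 2 * q - 2 * R ^ 2 * p - (W t ^ 2 - 4 * t) =
      4 * R ^ 2 * (q - (W t / (2 * R) + (W t ^ 2 - 4 * t) / (4 * R ^ 2))) -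
        2 * R ^ 2 * (p - W t / R) by field_simp; ring,
      show 6 * C / R = 4 * R ^ 2 * (C / R ^ 3) + 2 * R ^ 2 * (C / R ^ 3) by field_simp; ring]
    refine (abs_sub _ _).trans ?_
    rw [abs_mul, abs_mul (2 * R ^ 2), abs_of_pos (by positivity : 0 < 4 * R ^ 2),
      abs_of_pos (by positivity : 0 < 2 * R ^ 2)]
    gcongr

end Pool.Agent.Lib.MP_6359c9_pr.Far
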