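import Pool.Agent.Lib.MP_6359c9_pr.BmDef
import Pool.Agent.Lib.MP_6359c9_pr.BmFar

/-! From two observables of an exploration to an approximate martingale chain. -/

namespace Pool.Agent.Lib.MP_6359c9_pr.Far

open Set Complex Bm

/-- tower property on a finite set -/
lemma tower {α ι : Type} {S : Set α} (hS : S.Finite) (F : α → ι) (Y : α → ℝ) {g : α → ℝ}
    (hg : ∀ x ∈ S, ∀ y ∈ S, F x = F y → g x = g y) :
    mean S (fun x => g x * mean {y ∈ S | F y = F x} Y) = mean S fun x => g x * Y x := by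
  classical
  rw [End.mean_eq hS, End.mean_eq hS,
    ← Finset.sum_fiberwise_of_maps_to (g := F) (fun x hx => Finset.mem_image_of_mem F hx),
    ← Finset.sum_fiberwise_of_maps_to (g := F) (fun x hx => Finset.mem_image_of_mem F hx)
      fun x => g x * Y x]
  congr 1
  refine Finset.sum_congr rfl fun i hi => ?_
  obtain ⟨x0, hx0, rfl⟩ := Finset.mem_image.1 hi
  set s := hS.toFinset.filter fun x => F x = F x0 with hs
  have hm : ∀ x ∈ s, x ∈ S ∧ F x = F x0 := fun x hx => by simpa [hs] using hx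
  have he : {y ∈ S | F y = F x0} = (s : Set α) := by ext y; simp [hs]
  have h0 : x0 ∈ s := by simpa [hs] using hx0
  have hc : (s.card : ℝ) ≠ 0 := by exact_mod_cast (Finset.card_pos.2 ⟨x0, h0⟩).ne'
  have h1 : ∀ x ∈ s, g x * mean {y ∈ S | F y = F x} Y = g x0 * ((∑ y ∈ s, Y y) / s.card) :=
    fun x hx => by
      rw [(hm x hx).2, hg x (hm x hx).1 x0 (hm x0 h0).1 (hm x hx).2, he, mean,
        finsum_mem_coe_finset, ncard_coe_finset]
  have h2 : ∀ x ∈ s, g x * Y x = g x0 * Y x := fun x hx => by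
    rw [hg x (hm x hx).1 x0 (hm x0 h0).1 (hm x hx).2]
  rw [Finset.sum_congr rfl h1, Finset.sum_congr rfl h2, Finset.sum_const, nsmul_eq_mul,
    ← Finset.mul_sum]
  field_simp

lemma live_bd {w : ℝ → ℝ} {t : ℕ → ℝ} {L T e : ℝ} (hL : 0 < L) (hT : 0 < T) (he : 0 < e)
    (t0 : t 0 = 0) (w0 : w 0 = 0) (st : ∀ k, Live w t L T (k + 1) → t k ≤ t (k + 1) ∧
      t (k + 1) ≤ t k + e ∧ ∀ u ∈ Icc (t k) (t (k + 1)), |w u - w (t k)| ≤ e) {k : ℕ}
    (h : Live w t L T k) : 0 ≤ t k ∧ t k ≤ T + e ∧ ∀ u ∈ Icc 0 (t k), |w u| ≤ L + e := by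
  induction k with
  | zero =>
    rw [t0]
    exact ⟨le_rfl, by positivity, fun u hu => by
      rw [le_antisymm hu.2 hu.1, w0, abs_zero]; positivity⟩
  | succ k ih =>
    obtain ⟨h1, -, h3⟩ := ih fun j hj => h j (hj.trans k.lt_succ_self)
    obtain ⟨h4, h5, h6⟩ := st k h
    obtain ⟨h7, h8⟩ := h k k.lt_succ_self
    refine ⟨h1.trans h4, by linarith, fun u hu => ?_⟩
    rcases le_total u (t k) with h9 | h9
    · exact h3 u ⟨hu.1, h9⟩
    · have := abs_add_le (w u - w (t k)) (w (t k))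
      rw [sub_add_cancel] at this
      linarith [h6 u ⟨h9, hu.2⟩]

/-- an exploration with labels `F k` (history up to step `k`) and two variables whose
conditional means are within `E` of `arg (g t z - W t)` at `z = R i` and `z = R (1 + i)` -/
structure Ob {α : Type} (ι : Type) (S : Set α) (W : α → ℝ → ℝ) (L T e R η : ℝ) where
  F : ℕ → α → ι
  t : ℕ → α → ℝ
  Y1 : α → ℝ
  Y2 : α → ℝ
  E : α → ℝ
  anti : ∀ k, ∀ x ∈ S, ∀ y ∈ S, F (k + 1) x = F (k + 1) y → F k x = F k y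
  ad : ∀ k, ∀ x ∈ S, ∀ y ∈ S, F k x = F k y → Live (W x) (t · x) L T k →
    t k x = t k y ∧ ∀ u ∈ Icc 0 (t k x), W x u = W y u
  t0 : ∀ x ∈ S, t 0 x = 0
  w0 : ∀ x ∈ S, W x 0 = 0
  step : ∀ x ∈ S, ∀ k, Live (W x) (t · x) L T (k + 1) → t k x ≤ t (k + 1) x ∧
    t (k + 1) x ≤ t k x + e ∧ ∀ u ∈ Icc (t k x) (t (k + 1) x), |W x u - W x (t k x)| ≤ e
  exit : ∀ x ∈ S, ∃ k, ¬Live (W x) (t · x) L T k
  obs1 : ∀ x ∈ S, ∀ k, Live (W x) (t · x) L T k → ∃ g, Sol (W x) (t k x) (R * I) g ∧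
    |mean {y ∈ S | F k y = F k x} Y1 - arg (g (t k x) - W x (t k x))| ≤ E x
  obs2 : ∀ x ∈ S, ∀ k, Live (W x) (t · x) L T k → ∃ g, Sol (W x) (t k x) (R * (1 + I)) g ∧
    |mean {y ∈ S | F k y = F k x} Y2 - arg (g (t k x) - W x (t k x))| ≤ E x
  errE : mean S E ≤ η

/-- two observables give an approximate martingale chain -/
theorem mkAM {L T e : ℝ} (hL : 0 < L) (hT : 0 < T) (he : 0 < e) : ∃ R0 : ℝ, ∀ R, R0 ≤ R →
    ∃ η > (0 : ℝ), ∀ (α ι : Type) (S : Set α) (W : α → ℝ → ℝ) (O : Ob ι S W L T e R η),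
      S.Finite → S.Nonempty → ∃ A : AM S W L T e, A.t = O.t ∧
        ∀ k x y, A.r k x y ↔ x ∈ S ∧ y ∈ S ∧ O.F k x = O.F k y := by
  obtain ⟨C, hC⟩ : ∃ C, C = 9 * (L + e + 1) * (T + e) + (L + e + 1) ^ 3 := ⟨_, rfl⟩
  have hC0 : 0 < C := hC ▸ by positivity
  refine ⟨2 * (L + e + 1) + 5 * (T + e) + 12 * C / e, fun R hR => ?_⟩
  have h12 : 0 < 12 * C / e := by positivity
  have hR1 : 1 ≤ R := by linarith
  have hR2 : 6 * C / R ≤ e / 2 := by
    have : 12 * C / e ≤ R := by linarith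
    rw [div_le_iff₀ he] at this
    rw [div_le_iff₀ (by linarith)]; linarith
  refine ⟨e / 2 / (6 * R ^ 2), by positivity, fun α ι S W O hS hne => ?_⟩
  let m : (α → ℝ) → ℕ → α → ℝ := fun Y k x => mean {y ∈ S | O.F k y = O.F k x} Y
  have key : ∀ x ∈ S, ∀ k, Live (W x) (O.t · x) L T k →
      |R * (m O.Y1 k x - Real.pi / 2) - W x (O.t k x)| ≤ 6 * C / R + 6 * R ^ 2 * O.E x ∧
      |4 * R ^ 2 * (m O.Y2 k x - Real.pi / 4) - 2 * R ^ 2 * (m O.Y1 k x - Real.pi / 2) -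
        (W x (O.t k x) ^ 2 - 4 * O.t k x)| ≤ 6 * C / R + 6 * R ^ 2 * O.E x := fun x hx k hk => by
    obtain ⟨b1, b2, b3⟩ := live_bd hL hT he (O.t0 x hx) (O.w0 x hx) (O.step x hx) hk
    obtain ⟨g1, s1, o1⟩ := O.obs1 x hx k hk
    obtain ⟨g2, s2, o2⟩ := O.obs2 x hx k hk
    obtain ⟨k1, k2⟩ := two_points s1 s2 b1 b2 b3 (by linarith) (by linarith) (by linarith)
    rw [← hC] at k1 k2
    have hE : 0 ≤ O.E x := (abs_nonneg _).trans o1
    have c1 : C / R ^ 2 ≤ 6 * C / R := by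
      rw [div_le_div_iff₀ (by positivity) (by linarith)]
      nlinarith [mul_pos hC0 (by linarith : 0 < R)]
    have c2 : R * O.E x ≤ 6 * R ^ 2 * O.E x := by gcongr; nlinarith
    obtain ⟨o3, o4⟩ := abs_le.1 o1
    obtain ⟨o5, o6⟩ := abs_le.1 o2
    obtain ⟨k3, k4⟩ := abs_le.1 k1
    obtain ⟨k5, k6⟩ := abs_le.1 k2
    have hR0 : 0 ≤ R := by linarith
    have q1 := mul_le_mul_of_nonneg_left o3 hR0
    have q2 := mul_le_mul_of_nonneg_left o4 hR0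
    have q3 := mul_le_mul_of_nonneg_left o3 (sq_nonneg R)
    have q4 := mul_le_mul_of_nonneg_left o4 (sq_nonneg R)
    have q5 := mul_le_mul_of_nonneg_left o5 (sq_nonneg R)
    have q6 := mul_le_mul_of_nonneg_left o6 (sq_nonneg R)
    simp only [m]
    exact ⟨abs_le.2 ⟨by linarith, by linarith⟩, abs_le.2 ⟨by linarith, by linarith⟩⟩
  have tw : ∀ (Y : α → ℝ) (k : ℕ) (g : α → ℝ),
      (∀ x y, x ∈ S ∧ y ∈ S ∧ O.F k x = O.F k y → g x = g y) →
      mean S (fun x => g x * m Y (k + 1) x) = mean S fun x => g x * m Y k x := fun Y k g hg =>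
    (tower hS _ Y fun x hx y hy h => hg x y ⟨hx, hy, O.anti k x hx y hy h⟩).trans
      (tower hS _ Y fun x hx y hy h => hg x y ⟨hx, hy, h⟩).symm
  refine ⟨⟨fun k x y => x ∈ S ∧ y ∈ S ∧ O.F k x = O.F k y, O.t,
    fun k x => R * (m O.Y1 k x - Real.pi / 2),
    fun k x => 4 * R ^ 2 * (m O.Y2 k x - Real.pi / 4) - 2 * R ^ 2 * (m O.Y1 k x - Real.pi / 2),
    fun x => 6 * C / R + 6 * R ^ 2 * O.E x, fun _ _ _ h => h.1, fun _ _ _ h => ⟨h.2.1, h.1, h.2.2.symm⟩,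
    fun k x y h => ⟨h.1, h.2.1, O.anti k x h.1 y h.2.1 h.2.2⟩,
    fun k x y h => O.ad k x h.1 y h.2.1 h.2.2, O.t0, O.w0, O.step, O.exit,
    fun x hx k hk => (key x hx k hk).1, fun x hx k hk => (key x hx k hk).2, ?_,
    fun k g hg _ => ⟨?_, ?_⟩⟩, rfl, fun _ _ _ => Iff.rfl⟩
  · rw [End.mean_add hS, End.mean_const hS hne, End.mean_mul hS]
    have := mul_le_mul_of_nonneg_left O.errE (by positivity : 0 ≤ 6 * R ^ 2)
    rw [mul_div_cancel₀ _ (by positivity)] at this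
    linarith
  · rw [show (fun x => g x * (R * (m O.Y1 (k + 1) x - Real.pi / 2) - R * (m O.Y1 k x - Real.pi / 2))) =
      fun x => R * (g x * m O.Y1 (k + 1) x) - R * (g x * m O.Y1 k x) by ext; ring,
      End.mean_sub hS, End.mean_mul hS, End.mean_mul hS, tw _ k g hg, sub_self]
  · rw [show (fun x => g x * (4 * R ^ 2 * (m O.Y2 (k + 1) x - Real.pi / 4) -
        2 * R ^ 2 * (m O.Y1 (k + 1) x - Real.pi / 2) - (4 * R ^ 2 * (m O.Y2 k x - Real.pi / 4) -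
        2 * R ^ 2 * (m O.Y1 k x - Real.pi / 2)))) =
      fun x => (4 * R ^ 2 * (g x * m O.Y2 (k + 1) x) - 4 * R ^ 2 * (g x * m O.Y2 k x)) -
        (2 * R ^ 2 * (g x * m O.Y1 (k + 1) x) - 2 * R ^ 2 * (g x * m O.Y1 k x)) by ext; ring,
      End.mean_sub hS, End.mean_sub hS, End.mean_sub hS, End.mean_mul hS, End.mean_mul hS,
      End.mean_mul hS, End.mean_mul hS, tw _ k g hg, tw _ k g hg, sub_self, sub_self, sub_self]

/-- the sequence form -/
theorem mkSeq {α ι : ℕ → Type} {S : ∀ n, Set (α n)} {W : ∀ n, α n → ℝ → ℝ}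
    (hS : ∀ n, (S n).Finite ∧ (S n).Nonempty)
    (h : ∀ L T e R η : ℝ, 0 < L → 0 < T → 0 < e → 0 < R → 0 < η →
      ∀ᶠ n in Filter.atTop, Nonempty (Ob (ι n) (S n) (W n) L T e R η)) : Seq S W := by
  refine ⟨hS, fun L T e hL hT he => ?_⟩
  obtain ⟨R0, H⟩ := mkAM hL hT he
  obtain ⟨η, hη, H⟩ := H (max R0 1) (le_max_left _ _)
  filter_upwards [h L T e (max R0 1) η hL hT he (lt_max_of_lt_right one_pos) hη] with n ⟨O⟩
  obtain ⟨A, -⟩ := H _ _ _ _ O (hS n).1 (hS n).2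
  exact ⟨A⟩

end Pool.Agent.Lib.MP_6359c9_pr.Far
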