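import Pool.Agent.Lib.MP_6359c9_pr.Top

/-! Boxes, parallelograms, rings. -/

namespace Pool.Agent.Lib.MP_6359c9_pr

/-- the parallelogram `[x, x'] × [y, y']` -/
def Rec (x x' y y' : ℤ) : Set V := {v | x ≤ v.1 ∧ v.1 ≤ x' ∧ y ≤ v.2 ∧ v.2 ≤ y'}

/-- the box of radius `m` around `z` -/
def Bx (z : V) (m : ℤ) : Set V := Rec (z.1 - m) (z.1 + m) (z.2 - m) (z.2 + m)

lemma mem_Rec {x x' y y' : ℤ} {v : V} :
    v ∈ Rec x x' y y' ↔ x ≤ v.1 ∧ v.1 ≤ x' ∧ y ≤ v.2 ∧ v.2 ≤ y' := Iff.rfl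

lemma mem_Bx {z v : V} {m : ℤ} :
    v ∈ Bx z m ↔ z.1 - m ≤ v.1 ∧ v.1 ≤ z.1 + m ∧ z.2 - m ≤ v.2 ∧ v.2 ≤ z.2 + m := Iff.rfl

lemma mem_Bx0 {v : V} {m : ℤ} : v ∈ Bx 0 m ↔ -m ≤ v.1 ∧ v.1 ≤ m ∧ -m ≤ v.2 ∧ v.2 ≤ m := by
  simp [mem_Bx]

lemma Rec_finite (x x' y y' : ℤ) : (Rec x x' y y').Finite :=
  ((Set.finite_Icc x x').prod (Set.finite_Icc y y')).subset
    fun _ h => ⟨⟨h.1, h.2.1⟩, h.2.2.1, h.2.2.2⟩

lemma Bx_finite (z : V) (m : ℤ) : (Bx z m).Finite := Rec_finite _ _ _ _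

lemma conn_row' {S : Set V} {u v : V} (h0 : u.2 = v.2)
    (h : ∀ k, (u.1 ≤ k ∧ k ≤ v.1) ∨ (v.1 ≤ k ∧ k ≤ u.1) → (k, u.2) ∈ S) : Conn S u v := by
  obtain ⟨a, b⟩ := u
  obtain ⟨c, d⟩ := v
  simp only at h0 h
  subst h0
  rcases le_total a c with h1 | h1
  · exact conn_row h1 fun k h2 h3 => h k (Or.inl ⟨h2, h3⟩)
  · exact (conn_row h1 fun k h2 h3 => h k (Or.inr ⟨h2, h3⟩)).symm

lemma conn_col' {S : Set V} {u v : V} (h0 : u.1 = v.1)
    (h : ∀ k, (u.2 ≤ k ∧ k ≤ v.2) ∨ (v.2 ≤ k ∧ k ≤ u.2) → (u.1, k) ∈ S) : Conn S u v := by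
  obtain ⟨a, b⟩ := u
  obtain ⟨c, d⟩ := v
  simp only at h0 h
  subst h0
  rcases le_total b d with h1 | h1
  · exact conn_col h1 fun k h2 h3 => h k (Or.inl ⟨h2, h3⟩)
  · exact (conn_col h1 fun k h2 h3 => h k (Or.inr ⟨h2, h3⟩)).symm

lemma Rec_conn {x x' y y' : ℤ} {u v : V} (hu : u ∈ Rec x x' y y') (hv : v ∈ Rec x x' y y') :
    Conn (Rec x x' y y') u v := by
  rw [mem_Rec] at hu hv
  exact (conn_row' (u := u) (v := (v.1, u.2)) rfl fun k hk => by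
    simp only [mem_Rec] at *; omega).trans
    (conn_col' (u := (v.1, u.2)) rfl fun k hk => by simp only [mem_Rec] at *; omega)

lemma coRec_conn {x x' y y' : ℤ} {u v : V} (hu : u ∉ Rec x x' y y') (hv : v ∉ Rec x x' y y') :
    Conn (Rec x x' y y')ᶜ u v := by
  have key : ∀ w : V, w ∉ Rec x x' y y' → Conn (Rec x x' y y')ᶜ w (x - 1, y - 1) := by
    intro w hw
    simp only [mem_Rec] at hw
    by_cases h : w.1 < x ∨ x' < w.1
    · exact (conn_col' (u := w) (v := (w.1, y - 1)) rfl fun k _ => by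
        simp only [Set.mem_compl_iff, mem_Rec]; omega).trans
        (conn_row' (u := (w.1, y - 1)) rfl fun k _ => by
          simp only [Set.mem_compl_iff, mem_Rec]; omega)
    · exact (conn_row' (u := w) (v := (x - 1, w.2)) rfl fun k _ => by
        simp only [Set.mem_compl_iff, mem_Rec]; omega).trans
        (conn_col' (u := (x - 1, w.2)) rfl fun k _ => by
          simp only [Set.mem_compl_iff, mem_Rec]; omega)
  exact (key u hu).trans (key v hv).symm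

/-- a path from `I` to `O` contains a crossing of the region between them -/
lemma Conn.cut {S I O : Set V} {w x : V} (h : Conn S w x) (hw : w ∈ I) (hx : x ∈ O)
    (d : Disjoint I O) (n : ∀ u ∈ I, ∀ v ∈ O, ¬Adj u v) :
    ∃ i ∈ I, ∃ o ∈ O, ∃ u v, Adj i u ∧ Adj o v ∧ Conn (S ∩ (I ∪ O)ᶜ) u v ∧ Conn S w u ∧
      Conn S u x := by
  obtain ⟨a, b, h1, h2, h3, h4⟩ := h.exit (T := Oᶜ) (Set.disjoint_left.1 d hw) (fun h => h hx)
  have hb : b ∈ O := not_not.1 h3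
  have ha : a ∈ Iᶜ := fun h => n a h b hb h2
  obtain ⟨i, u, h5, h6, h7, h8⟩ := h1.entry (T := Iᶜ) (fun h => h hw) ha
  have h9 : Conn S u a := h8.mono fun _ h => h.1.1
  refine ⟨i, not_not.1 h6, b, hb, u, a, h7, h2.symm, h8.mono ?_,
    (h5.mono fun _ h => h.1).tail h7 h9.left, h9.trans (Conn.head h9.right h2 h4)⟩
  rintro y ⟨⟨h1, h2⟩, h3⟩
  exact ⟨h1, fun h => h.elim h3 h2⟩

/-- left right crossing of a parallelogram -/
def LR (S : Set V) (x x' y y' : ℤ) : Prop := Cr (S ∩ Rec x x' y y') {v | v.1 = x} {v | v.1 = x'}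

/-- bottom top crossing of a parallelogram -/
def BT (S : Set V) (x x' y y' : ℤ) : Prop := Cr (S ∩ Rec x x' y y') {v | v.2 = y} {v | v.2 = y'}

lemma LR.of_conn {S : Set V} {x x' y y' : ℤ} {u v : V} (h : Conn S u v) (hx : x ≤ x')
    (hS : ∀ w ∈ S, y ≤ w.2 ∧ w.2 ≤ y') (hu : u.1 ≤ x) (hv : x' ≤ v.1) : LR S x x' y y' := by
  have h1 : ∃ a, a.1 = x' ∧ Conn (S ∩ {w | w.1 ≤ x'}) u a := by
    obtain ⟨b, c, h4, h5, h6, -⟩ := (Conn.tail (S := S ∪ {(v.1 + 1, v.2)}) (w := (v.1 + 1, v.2))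
      (h.mono Set.subset_union_left) (by simp [Adj]) (Or.inr rfl)).exit (T := {w | w.1 ≤ x'})
      (hu.trans hx) (by simp only [Set.mem_ofPred_eq]; omega)
    refine ⟨b, ?_, h4.mono ?_⟩
    · have := h4.right.2
      simp only [Set.mem_ofPred_eq, Adj] at *; omega
    · rintro w ⟨h7 | h7, h8⟩
      · exact ⟨h7, h8⟩
      · rw [Set.mem_singleton_iff.1 h7] at h8
        simp only [Set.mem_ofPred_eq] at h8; omega
  obtain ⟨a, ha, h1⟩ := h1
  have h2 : ∃ b, b.1 = x ∧ Conn (S ∩ {w | w.1 ≤ x'} ∩ {w | x ≤ w.1}) b a := by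
    obtain ⟨b, c, h3, h4, h5, h6⟩ := (Conn.head (S := (S ∩ {w | w.1 ≤ x'}) ∪ {(u.1 - 1, u.2)})
      (u := (u.1 - 1, u.2)) (Or.inr rfl) (by simp [Adj]) (h1.mono Set.subset_union_left)).entry
      (T := {w | x ≤ w.1}) (by simp only [Set.mem_ofPred_eq]; omega)
      (by simp only [Set.mem_ofPred_eq]; omega)
    refine ⟨c, ?_, h6.mono ?_⟩
    · have := h6.left.2
      simp only [Set.mem_ofPred_eq, Adj] at *; omega
    · rintro w ⟨h7 | h7, h8⟩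
      · exact ⟨h7, h8⟩
      · rw [Set.mem_singleton_iff.1 h7] at h8
        simp only [Set.mem_ofPred_eq] at h8; omega
  obtain ⟨b, hb, h2⟩ := h2
  exact ⟨b, hb, a, ha, h2.mono fun w hw => ⟨hw.1.1, hw.2, hw.1.2, hS w hw.1.1⟩⟩

lemma adj_swap {u v : V} (h : Adj u v) : Adj u.swap v.swap := by
  simp only [Adj, Prod.fst_swap, Prod.snd_swap] at *; omega

lemma BT.of_conn {S : Set V} {x x' y y' : ℤ} {u v : V} (h : Conn S u v) (hy : y ≤ y')
    (hS : ∀ w ∈ S, x ≤ w.1 ∧ w.1 ≤ x') (hu : u.2 ≤ y) (hv : y' ≤ v.2) : BT S x x' y y' := by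
  obtain ⟨a, ha, b, hb, h1⟩ := LR.of_conn (S := {w | w.swap ∈ S}) (y := x) (y' := x')
    (h.map (f := Prod.swap) (fun _ _ => adj_swap) fun a ha => by simpa using ha) hy
    (fun w hw => hS _ hw) hu hv
  exact ⟨a.swap, ha, b.swap, hb, h1.map (f := Prod.swap) (fun _ _ => adj_swap)
    fun w hw => ⟨hw.1, hw.2.2.2.1, hw.2.2.2.2, hw.2.1, hw.2.2.1⟩⟩

lemma LR.mono {S S' : Set V} {x x' y y' a a' b b' : ℤ} (h : LR S x x' y y') (hS : S ⊆ S')
    (h1 : x ≤ a) (h2 : a ≤ a') (h3 : a' ≤ x') (h4 : b ≤ y) (h5 : y' ≤ b') : LR S' a a' b b' := by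
  obtain ⟨u, hu, v, hv, h⟩ := h
  exact Cr.mono (LR.of_conn (y := b) (y' := b') h h2
    (fun w hw => ⟨h4.trans hw.2.2.2.1, hw.2.2.2.2.trans h5⟩) (hu.le.trans h1) (h3.trans hv.ge))
    (fun w hw => ⟨hS hw.1.1, hw.2⟩) subset_rfl subset_rfl

lemma BT.mono {S S' : Set V} {x x' y y' a a' b b' : ℤ} (h : BT S x x' y y') (hS : S ⊆ S')
    (h1 : y ≤ b) (h2 : b ≤ b') (h3 : b' ≤ y') (h4 : a ≤ x) (h5 : x' ≤ a') : BT S' a a' b b' := by
  obtain ⟨u, hu, v, hv, h⟩ := h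
  exact Cr.mono (BT.of_conn (x := a) (x' := a') h h2
    (fun w hw => ⟨h4.trans hw.2.1, hw.2.2.1.trans h5⟩) (hu.le.trans h1) (h3.trans hv.ge))
    (fun w hw => ⟨hS hw.1.1, hw.2⟩) subset_rfl subset_rfl

/-- disjoint sets do not cross a parallelogram in both directions -/
lemma LR.not_BT {S T : Set V} {x x' y y' : ℤ} (h : LR S x x' y y') (d : Disjoint S T) :
    ¬BT T x x' y y' := by
  obtain ⟨a, ha, c, hc, h1⟩ := h
  rintro ⟨e, he, b, hb, h2⟩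
  have := interlace (R := Rec x x' y y') (sa := .L) (sb := .T) (sc := .R) (se := .B)
    Set.inter_subset_right Set.inter_subset_right
    (d.mono Set.inter_subset_left Set.inter_subset_left)
    (fun w hw _ => by rw [ha]; exact hw.1) (fun w hw => by rw [hb]; exact hw.2.2.2)
    (fun w hw _ => by rw [hc]; exact hw.2.1) (fun w hw => by rw [he]; exact hw.2.2.1) h1 h2.symm
  simp [Aft] at this

/-- Hex lemma in a parallelogram -/
lemma hex_Rec (S : Set V) {x x' y y' : ℤ} (hx : x ≤ x') (hy : y ≤ y') :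
    LR S x x' y y' ∨ BT Sᶜ x x' y y' := by
  have := hex (R := Rec x x' y y') (O0 := {v | v.1 < x ∧ y ≤ v.2 ∧ v.2 ≤ y'})
    (O1 := {v | y' < v.2}) (O2 := {v | x' < v.1 ∧ y ≤ v.2 ∧ v.2 ≤ y'}) (O3 := {v | v.2 < y})
    (fun v hv => by simp only [mem_Rec, Set.mem_ofPred_eq] at *; omega)
    (Set.disjoint_left.2 fun v h h' => by simp only [mem_Rec, Set.mem_ofPred_eq] at *; omega)
    (Set.disjoint_left.2 fun v h h' => by simp only [mem_Rec, Set.mem_ofPred_eq] at *; omega)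
    (Set.disjoint_left.2 fun v h h' => by simp only [mem_Rec, Set.mem_ofPred_eq] at *; omega)
    (Set.disjoint_left.2 fun v h h' => by simp only [mem_Rec, Set.mem_ofPred_eq] at *; omega)
    (Set.disjoint_left.2 fun v h h' => by simp only [Set.mem_ofPred_eq] at *; omega)
    (Set.disjoint_left.2 fun v h h' => by simp only [Set.mem_ofPred_eq] at *; omega)
    (Set.disjoint_left.2 fun v h h' => by simp only [Set.mem_ofPred_eq] at *; omega)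
    (Set.disjoint_left.2 fun v h h' => by simp only [Set.mem_ofPred_eq] at *; omega)
    (Set.disjoint_left.2 fun v h h' => by simp only [Set.mem_ofPred_eq] at *; omega)
    (Set.disjoint_left.2 fun v h h' => by simp only [Set.mem_ofPred_eq] at *; omega)
    (fun u h v h' a => by simp only [Set.mem_ofPred_eq, Adj] at *; omega)
    (fun u h v h' a => by simp only [Set.mem_ofPred_eq, Adj] at *; omega)
    ⟨(x - 1, y), (x - 1, y'), (x - 1, y' + 1), (x' + 1, y' + 1), (x' + 1, y'), (x' + 1, y),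
      (x' + 1, y - 1), (x - 1, y - 1),
      conn_col hy fun k h1 h2 => by simp only [Set.mem_ofPred_eq]; omega, by simp [Adj],
      conn_row (by omega) fun k h1 h2 => by simp only [Set.mem_ofPred_eq]; omega, by simp [Adj],
      (conn_col hy fun k h1 h2 => by simp only [Set.mem_ofPred_eq]; omega).symm, by simp [Adj],
      (conn_row (by omega) fun k h1 h2 => by simp only [Set.mem_ofPred_eq]; omega).symm,
      by simp [Adj]⟩ S
  rcases this with ⟨u, ⟨o, ho, a⟩, v, ⟨o', ho', a'⟩, h⟩ | ⟨u, ⟨o, ho, a⟩, v, ⟨o', ho', a'⟩, h⟩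
  · have h1 := h.left.2
    have h2 := h.right.2
    exact Or.inl ⟨u, by simp only [mem_Rec, Set.mem_ofPred_eq, Adj] at *; omega, v,
      by simp only [mem_Rec, Set.mem_ofPred_eq, Adj] at *; omega, h⟩
  · have h1 := h.left.2
    have h2 := h.right.2
    exact Or.inr ⟨v, by simp only [mem_Rec, Set.mem_ofPred_eq, Adj] at *; omega, u,
      by simp only [mem_Rec, Set.mem_ofPred_eq, Adj] at *; omega, h.symm⟩

/-- `S` does not cross the region between `I` and `O` -/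
def Blk (S I O : Set V) : Prop := ¬Cr (S ∩ (I ∪ O)ᶜ) (nb I) (nb O)

lemma Blk.anti {S T I O : Set V} (h : Blk S I O) (hT : T ∩ (I ∪ O)ᶜ ⊆ S) : Blk T I O :=
  fun h' => h (h'.mono (fun _ hx => ⟨hT hx, hx.2⟩) subset_rfl subset_rfl)

lemma Blk.not_conn {S I O : Set V} (h : Blk S I O) (d : Disjoint I O)
    (n : ∀ u ∈ I, ∀ v ∈ O, ¬Adj u v) {w x : V} (hw : w ∈ I) (hx : x ∈ O) : ¬Conn S w x := by
  intro hc
  obtain ⟨i, hi, o, ho, u, v, a1, a2, h1, -⟩ := hc.cut hw hx d n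
  exact h ⟨u, ⟨i, hi, a1⟩, v, ⟨o, ho, a2⟩, h1⟩

/-- a blocked annulus blocks every larger one -/
lemma Blk.mono {S I O I' O' : Set V} (h : Blk S I O) (d : Disjoint I O)
    (n : ∀ u ∈ I, ∀ v ∈ O, ¬Adj u v) (hI : I' ⊆ I) (hO : O' ⊆ O) : Blk S I' O' := by
  rintro ⟨u, ⟨i, hi, a1⟩, v, ⟨o, ho, a2⟩, h1⟩
  have h2 : Conn (S ∪ I ∪ O) i o :=
    (Conn.head (Or.inl (Or.inr (hI hi))) a1 (h1.mono fun _ hx => Or.inl (Or.inl hx.1))).tail
      a2.symm (Or.inr (hO ho))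
  obtain ⟨i', hi', o', ho', u', v', b1, b2, h3, -⟩ := h2.cut (hI hi) (hO ho) d n
  refine h ⟨u', ⟨i', hi', b1⟩, v', ⟨o', ho', b2⟩, h3.mono ?_⟩
  rintro x ⟨(h4 | h4) | h4, h5⟩
  · exact ⟨h4, h5⟩
  · exact absurd (Or.inl h4) h5
  · exact absurd (Or.inr h4) h5

lemma Bx_disj {z : V} {m m' : ℤ} (h : m ≤ m') : Disjoint (Bx z m) (Bx z m')ᶜ :=
  Set.disjoint_left.2 fun v h1 h2 => h2 (by simp only [mem_Bx] at *; omega)

lemma Bx_nadj {z : V} {m m' : ℤ} (h : m < m') : ∀ u ∈ Bx z m, ∀ v ∈ (Bx z m')ᶜ, ¬Adj u v :=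
  fun u h1 v h2 a => h2 (by simp only [mem_Bx, Adj] at *; omega)

/-- four long crossings block the complementary colour -/
lemma blk_of_four {S : Set V} {z : V} {m m' : ℤ} (hm : m < m')
    (h1 : LR S (z.1 - m') (z.1 + m') (z.2 + m + 1) (z.2 + m'))
    (h2 : LR S (z.1 - m') (z.1 + m') (z.2 - m') (z.2 - m - 1))
    (h3 : BT S (z.1 + m + 1) (z.1 + m') (z.2 - m') (z.2 + m'))
    (h4 : BT S (z.1 - m') (z.1 - m - 1) (z.2 - m') (z.2 + m')) :
    Blk Sᶜ (Bx z m) (Bx z m')ᶜ := by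
  rintro ⟨u, ⟨i, hi, a1⟩, v, ⟨o, ho, a2⟩, h⟩
  have hB : ∀ w ∈ Sᶜ ∩ (Bx z m ∪ (Bx z m')ᶜ)ᶜ, w ∈ Bx z m' := fun w hw =>
    not_not.1 fun h => hw.2 (Or.inr h)
  have hv := hB v h.right
  have hu := hB u h.left
  have d : Disjoint S (Sᶜ ∩ (Bx z m ∪ (Bx z m')ᶜ)ᶜ) :=
    Set.disjoint_left.2 fun w h1 h2 => h2.1 h1
  have : v.2 = z.2 + m' ∨ v.2 = z.2 - m' ∨ v.1 = z.1 + m' ∨ v.1 = z.1 - m' := by
    simp only [mem_Bx, Adj, Set.mem_compl_iff] at *; omega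
  have hu' : z.1 - m - 1 ≤ u.1 ∧ u.1 ≤ z.1 + m + 1 ∧ z.2 - m - 1 ≤ u.2 ∧ u.2 ≤ z.2 + m + 1 := by
    simp only [mem_Bx, Adj] at *; omega
  rcases this with h0 | h0 | h0 | h0
  · exact h1.not_BT d (BT.of_conn h (by omega) (fun w hw => ⟨(hB w hw).1, (hB w hw).2.1⟩)
      (by omega) (by omega))
  · exact h2.not_BT d (BT.of_conn h.symm (by omega) (fun w hw => ⟨(hB w hw).1, (hB w hw).2.1⟩)
      (by omega) (by omega))
  · exact (LR.of_conn h (by omega) (fun w hw => (hB w hw).2.2) (by omega) (by omega)).not_BT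
      d.symm h3
  · exact (LR.of_conn h.symm (by omega) (fun w hw => (hB w hw).2.2) (by omega) (by omega)).not_BT
      d.symm h4

/-- a blocked annulus joins the paths that cross it -/
lemma Blk.join {S : Set V} {z : V} {m m' : ℤ} (h : Blk Sᶜ (Bx z m) (Bx z m')ᶜ) (hm : m < m')
    {R : Set V} (hR : Bx z m' ⊆ R) {w x w' x' : V} (hw : w ∈ Bx z m) (hx : x ∉ Bx z m')
    (hw' : w' ∈ Bx z m) (hx' : x' ∉ Bx z m') (c : Conn (S ∩ R) w x) (c' : Conn (S ∩ R) w' x') :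
    Conn (S ∩ R) x x' := by
  obtain ⟨i, hi, o, ho, u, v, a1, a2, h1, -, h2⟩ := c.cut hw hx (Bx_disj hm.le) (Bx_nadj hm)
  obtain ⟨i', hi', o', ho', u', v', a3, a4, h3, -, h4⟩ :=
    c'.cut hw' hx' (Bx_disj hm.le) (Bx_nadj hm)
  have := ring (S := S) (Bx_disj hm.le) (Bx_nadj hm) h (Rec_conn hi hi') (coRec_conn ho ho')
    a1 a2 a3 a4 (h1.mono fun _ hx => ⟨hx.1.1, hx.2⟩) (h3.mono fun _ hx => ⟨hx.1.1, hx.2⟩)
  exact h2.symm.trans ((this.mono (T := S ∩ R) fun y hy =>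
    ⟨hy.1, hR (not_not.1 fun h => hy.2 (Or.inr h))⟩).trans h4)

end Pool.Agent.Lib.MP_6359c9_pr
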