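import Pool.Agent.Lib.MP_6359c9_pr.WTop

/-! The affine extension as an average over the vertices of a triangle; tent weights. -/

namespace Pool.Agent.Lib.MP_6359c9_pr

open MeasureTheory

/-- the vertices of a lattice triangle that contains `z` -/
noncomputable def vt (δ : ℝ) (z : ℂ) : Fin 3 → V :=
  if Int.fract (cx δ z) + Int.fract (cy δ z) ≤ 1 then
    ![(⌊cx δ z⌋, ⌊cy δ z⌋), (⌊cx δ z⌋ + 1, ⌊cy δ z⌋), (⌊cx δ z⌋, ⌊cy δ z⌋ + 1)]
  else ![(⌊cx δ z⌋ + 1, ⌊cy δ z⌋ + 1), (⌊cx δ z⌋ + 1, ⌊cy δ z⌋), (⌊cx δ z⌋, ⌊cy δ z⌋ + 1)]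

/-- the barycentric coordinates of `z` -/
noncomputable def bw (δ : ℝ) (z : ℂ) : Fin 3 → ℝ :=
  if Int.fract (cx δ z) + Int.fract (cy δ z) ≤ 1 then
    ![1 - Int.fract (cx δ z) - Int.fract (cy δ z), Int.fract (cx δ z), Int.fract (cy δ z)]
  else ![Int.fract (cx δ z) + Int.fract (cy δ z) - 1, 1 - Int.fract (cy δ z),
    1 - Int.fract (cx δ z)]

/-- the affine extension of a real function of the vertices -/
noncomputable def exR (δ : ℝ) (h : V → ℝ) (z : ℂ) : ℝ := ∑ i, bw δ z i * h (vt δ z i)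

/-- the weight of the vertex `v` in the pairing with `f` -/
noncomputable def Wt (δ : ℝ) (f : ℂ → ℝ) (v : V) : ℝ := ∫ z, exR δ (Pi.single v 1) z * f z

/-- `S` contains the vertices near the support of `f` -/
def Cvr (δ : ℝ) (f : ℂ → ℝ) (S : Finset V) : Prop :=
  ∀ z, f z ≠ 0 → ∀ v, ‖pos δ v - z‖ ≤ δ → v ∈ S

variable {δ : ℝ} {f : ℂ → ℝ} {S : Finset V}

lemma ext_eq (δ : ℝ) (h : V → ℤ) (z : ℂ) : ext δ h z = exR δ (fun v => h v) z := by
  change (if Int.fract (cx δ z) + Int.fract (cy δ z) ≤ 1 then _ else _) = _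
  unfold exR vt bw
  split_ifs <;> simp [Fin.sum_univ_three, cx, cy]

lemma bw_nonneg (δ : ℝ) (z : ℂ) (i : Fin 3) : 0 ≤ bw δ z i := by
  have := Int.fract_nonneg (cx δ z)
  have := Int.fract_nonneg (cy δ z)
  have := Int.fract_lt_one (cx δ z)
  have := Int.fract_lt_one (cy δ z)
  unfold bw
  split_ifs <;> fin_cases i <;> simp <;> linarith

lemma bw_sum (δ : ℝ) (z : ℂ) : ∑ i, bw δ z i = 1 := by
  unfold bw
  split_ifs <;> simp [Fin.sum_univ_three]
  ring

lemma pos_sub_sq (hδ : 0 < δ) (v : V) (z : ℂ) : ‖pos δ v - z‖ ^ 2 =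
    δ ^ 2 * ((v.1 - cx δ z) ^ 2 + (v.1 - cx δ z) * (v.2 - cy δ z) + (v.2 - cy δ z) ^ 2) := by
  have h3 : (√3 : ℝ) ≠ 0 := by positivity
  have e : (√3 : ℝ) ^ 2 = 3 := Real.sq_sqrt (by norm_num)
  have e1 : z.im = δ * (cy δ z * (√3 / 2)) := by simp only [cy]; field_simp
  have e2 : z.re = δ * (cx δ z + cy δ z / 2) := by simp only [cx]; field_simp; ring
  rw [Complex.sq_norm, Complex.normSq_apply, Complex.sub_re, Complex.sub_im]
  generalize cx δ z = x, cy δ z = y at *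
  simp only [pos, e1, e2]
  linear_combination (δ ^ 2 * (v.2 - y) ^ 2 / 4) * e

lemma vt_near (hδ : 0 < δ) (z : ℂ) (i : Fin 3) : ‖pos δ (vt δ z i) - z‖ ≤ δ := by
  refine abs_le_of_sq_le_sq' ?_ hδ.le |>.2
  rw [pos_sub_sq hδ]
  refine mul_le_of_le_one_right (by positivity) ?_
  have := Int.fract_nonneg (cx δ z)
  have := Int.fract_nonneg (cy δ z)
  have := Int.fract_lt_one (cx δ z)
  have := Int.fract_lt_one (cy δ z)
  have e1 := Int.floor_add_fract (cx δ z)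
  have e2 := Int.floor_add_fract (cy δ z)
  unfold vt
  generalize Int.fract (cx δ z) = s, Int.fract (cy δ z) = t, ⌊cx δ z⌋ = a, ⌊cy δ z⌋ = b at *
  rw [← e1, ← e2]
  split_ifs <;> fin_cases i <;> simp <;> nlinarith

lemma exR_le {h : V → ℝ} {z : ℂ} {c : ℝ} (e : ∀ i, h (vt δ z i) ≤ c) : exR δ h z ≤ c := by
  refine (Finset.sum_le_sum fun i _ => mul_le_mul_of_nonneg_left (e i) (bw_nonneg δ z i)).trans ?_
  rw [← Finset.sum_mul, bw_sum, one_mul]

lemma le_exR {h : V → ℝ} {z : ℂ} {c : ℝ} (e : ∀ i, c ≤ h (vt δ z i)) : c ≤ exR δ h z := by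
  refine le_trans ?_
    (Finset.sum_le_sum fun i _ => mul_le_mul_of_nonneg_left (e i) (bw_nonneg δ z i))
  rw [← Finset.sum_mul, bw_sum, one_mul]

lemma exR_near (hδ : 0 < δ) {h : V → ℝ} {z : ℂ} {c ε : ℝ}
    (e : ∀ v, ‖pos δ v - z‖ ≤ δ → |h v - c| ≤ ε) : |exR δ h z - c| ≤ ε := by
  have h1 : exR δ h z ≤ c + ε :=
    exR_le fun i => by linarith [(abs_le.1 (e _ (vt_near hδ z i))).2]
  have h2 : c - ε ≤ exR δ h z :=
    le_exR fun i => by linarith [(abs_le.1 (e _ (vt_near hδ z i))).1]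
  exact abs_le.2 ⟨by linarith, by linarith⟩

lemma exR_const (δ c : ℝ) (z : ℂ) : exR δ (fun _ => c) z = c :=
  le_antisymm (exR_le fun _ => le_rfl) (le_exR fun _ => le_rfl)

lemma meas_exR (δ : ℝ) (h : V → ℝ) : Measurable (exR δ h) := by
  have mx := (cont_cx δ).measurable
  have my := (cont_cy δ).measurable
  have ms := measurableSet_le (mx.fract.add my.fract) (measurable_const (a := (1 : ℝ)))
  have mh := measurable_of_countable h
  have fx := mx.floor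
  have fy := my.floor
  refine Finset.measurable_sum _ fun i _ => Measurable.mul ?_ (mh.comp ?_)
  · simp only [bw, ite_apply]
    refine Measurable.ite ms ?_ ?_ <;> fin_cases i <;> simp <;> fun_prop
  · simp only [vt, ite_apply]
    refine Measurable.ite ms ?_ ?_ <;> fin_cases i <;> simp <;> fun_prop

lemma tent_mem (δ : ℝ) (v : V) (z : ℂ) :
    0 ≤ exR δ (Pi.single v 1) z ∧ exR δ (Pi.single v 1) z ≤ 1 :=
  ⟨le_exR fun i => by rw [Pi.single_apply]; split_ifs <;> norm_num,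
    exR_le fun i => by rw [Pi.single_apply]; split_ifs <;> norm_num⟩

lemma int_tent (δ : ℝ) (hf : Integrable f) (v : V) :
    Integrable fun z => exR δ (Pi.single v 1) z * f z :=
  hf.bdd_mul (c := 1) (meas_exR δ _).aestronglyMeasurable (Filter.Eventually.of_forall fun z => by
    rw [Real.norm_of_nonneg (tent_mem δ v z).1]; exact (tent_mem δ v z).2)

lemma exR_sum (hδ : 0 < δ) (hS : Cvr δ f S) (h : V → ℝ) (z : ℂ) :
    exR δ h z * f z = ∑ v ∈ S, exR δ (Pi.single v 1) z * f z * h v := by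
  by_cases hz : f z = 0
  · simp [hz]
  simp only [exR, Finset.sum_mul]
  rw [Finset.sum_comm]
  refine Finset.sum_congr rfl fun i _ => ?_
  rw [Finset.sum_eq_single_of_mem _ (hS z hz _ (vt_near hδ z i)) fun v _ hv => by
    rw [Pi.single_eq_of_ne' hv]; ring, Pi.single_eq_same]
  ring

theorem int_exR' (hδ : 0 < δ) (hf : Integrable f) (hS : Cvr δ f S) (h : V → ℝ) :
    Integrable fun z => exR δ h z * f z := by
  simp only [exR_sum hδ hS h]
  exact integrable_finsetSum _ fun v _ => (int_tent δ hf v).mul_const _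

/-- the pairing with the affine extension is a finite sum -/
theorem int_exR (hδ : 0 < δ) (hf : Integrable f) (hS : Cvr δ f S) (h : V → ℝ) :
    ∫ z, exR δ h z * f z = ∑ v ∈ S, Wt δ f v * h v := by
  simp only [exR_sum hδ hS h]
  rw [integral_finsetSum _ fun v _ => (int_tent δ hf v).mul_const _]
  simp only [integral_mul_const, Wt]

theorem int_ext (hδ : 0 < δ) (hf : Integrable f) (hS : Cvr δ f S) (h : V → ℤ) :
    ∫ z, ext δ h z * f z = ∑ v ∈ S, Wt δ f v * h v := by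
  simp only [ext_eq, int_exR hδ hf hS]

theorem sum_Wt (hδ : 0 < δ) (hf : Integrable f) (hS : Cvr δ f S) :
    ∑ v ∈ S, Wt δ f v = ∫ z, f z := by
  simpa only [exR_const, one_mul, mul_one] using (int_exR hδ hf hS fun _ => 1).symm

theorem Wt_ne (hδ : 0 < δ) {v : V} (h : Wt δ f v ≠ 0) : ∃ z, f z ≠ 0 ∧ ‖pos δ v - z‖ ≤ δ := by
  by_contra hn
  push Not at hn
  refine h ((integral_congr_ae (Filter.Eventually.of_forall fun z => ?_)).trans (integral_zero _ _))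
  by_cases hz : f z = 0
  · simp [hz]
  refine mul_eq_zero_of_left (Finset.sum_eq_zero fun i _ => ?_) _
  rw [Pi.single_eq_of_ne, mul_zero]
  rintro rfl
  exact (hn z hz).not_ge (vt_near hδ z i)

lemma abs_Wt (δ : ℝ) (f : ℂ → ℝ) (v : V) : |Wt δ f v| ≤ Wt δ (fun z => |f z|) v := by
  refine abs_integral_le_integral_abs.trans (le_of_eq ?_)
  simp only [abs_mul, abs_of_nonneg (tent_mem δ v _).1, Wt]

lemma Cvr.abs (hS : Cvr δ f S) : Cvr δ (fun z => |f z|) S := fun z hz => hS z (abs_ne_zero.1 hz)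

/-- absolute sums against nonnegative functions -/
theorem sum_abs_Wt (hδ : 0 < δ) (hf : Integrable f) (hS : Cvr δ f S) {k : V → ℝ}
    (hk : ∀ v, 0 ≤ k v) : ∑ v ∈ S, |Wt δ f v| * k v ≤ ∫ z, exR δ k z * |f z| := by
  rw [int_exR hδ hf.abs hS.abs]
  exact Finset.sum_le_sum fun v _ => mul_le_mul_of_nonneg_right (abs_Wt δ f v) (hk v)

lemma pos_fin (hδ : 0 < δ) (c : ℂ) (r : ℝ) : {v : V | ‖pos δ v - c‖ ≤ r}.Finite := by
  have hK := isCompact_closedBall c r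
  obtain ⟨A, hA⟩ := hK.exists_bound_of_continuousOn (cont_cx δ).continuousOn
  obtain ⟨B, hB⟩ := hK.exists_bound_of_continuousOn (cont_cy δ).continuousOn
  have aux : ∀ (C : ℝ) (m : ℤ), ‖(m : ℝ)‖ ≤ C → m ∈ Set.Icc (-⌈C⌉) ⌈C⌉ := by
    intro C m h
    have h1 := abs_le.1 (h.trans (Int.le_ceil _))
    exact ⟨by exact_mod_cast h1.1, by exact_mod_cast h1.2⟩
  refine ((Set.finite_Icc (-⌈A⌉) ⌈A⌉).prod (Set.finite_Icc (-⌈B⌉) ⌈B⌉)).subset
    fun p hp => ⟨aux A _ ?_, aux B _ ?_⟩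
  · rw [← cx_pos' hδ]; exact hA _ (mem_closedBall_iff_norm.2 hp)
  · rw [← cy_pos' hδ]; exact hB _ (mem_closedBall_iff_norm.2 hp)

/-- the least cover of a function with bounded support -/
theorem exists_cvr (hδ : 0 < δ) {c : ℂ} {r : ℝ} (h : ∀ z, f z ≠ 0 → ‖z - c‖ ≤ r) :
    ∃ S, Cvr δ f S ∧ ∀ v ∈ S, ∃ z, f z ≠ 0 ∧ ‖pos δ v - z‖ ≤ δ := by
  have : {v : V | ∃ z, f z ≠ 0 ∧ ‖pos δ v - z‖ ≤ δ}.Finite := (pos_fin hδ c (δ + r)).subset
    fun v ⟨z, h1, h2⟩ => (norm_sub_le_norm_sub_add_norm_sub _ z _).trans (add_le_add h2 (h z h1))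
  exact ⟨this.toFinset, fun z hz v hv => this.mem_toFinset.2 ⟨z, hz, hv⟩,
    fun v hv => this.mem_toFinset.1 hv⟩

end Pool.Agent.Lib.MP_6359c9_pr
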