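import Pool.Agent.Lib.MP_6359c9_pr.Defs
import Pool.Agent.Lib.MP_6359c9_pr.Box

/-! Combinatorial data of a discrete domain (interior vertices and boundary cycle), pockets and
one sided points: the vocabulary of the flat wall estimate. -/

namespace Pool.Agent.Lib.MP_6359c9_pr

/-- sup distance in lattice coordinates; `Bx z m` is its ball -/
def ds (u v : V) : ℤ := max |u.1 - v.1| |u.2 - v.2|

/-- an edge with an end point in `R`, or an edge of the cycle `γ` -/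
def DE (R : Set V) (γ : ℕ → V) (a b : V) : Prop :=
  Adj a b ∧ (a ∈ R ∨ b ∈ R ∨ ∃ i, (γ i = a ∧ γ (i + 1) = b) ∨ (γ i = b ∧ γ (i + 1) = a))

/-- a path inside `S` along edges of the closed domain -/
def DConn (R : Set V) (γ : ℕ → V) (S : Set V) (u v : V) : Prop :=
  u ∈ S ∧ Relation.ReflTransGen (fun a b => DE R γ a b ∧ b ∈ S) u v

/-- interior vertices `R` and boundary cycle `γ` (period `n`) of a discrete domain, with the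
planar facts that are used -/
structure Wall where
  R : Set V
  n : ℕ
  γ : ℕ → V
  fin : R.Finite
  three : 3 ≤ n
  per : ∀ i, γ (i + n) = γ i
  inj : ∀ i j, i < j → j < i + n → γ i ≠ γ j
  adj : ∀ i, Adj (γ i) (γ (i + 1))
  out : ∀ i, γ i ∉ R
  bd : ∀ u ∈ R, ∀ v, Adj u v → v ∈ R ∨ ∃ i, γ i = v
  coconn : ∀ u, u ∉ R → ∀ v, v ∉ R → Conn Rᶜ u v
  nc : ∀ i0 a i1 b : ℕ, i0 < a → a < i1 → i1 < b → b < i0 + n → ∀ S T : Set V,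
    DConn R γ S (γ i0) (γ i1) → DConn R γ T (γ a) (γ b) → ¬Disjoint S T
  hex : ∀ i0 i1 : ℕ, i0 < i1 → i1 < i0 + n → ¬Adj (γ i0) (γ i1) →
    (∃ u v, Adj (γ i0) u ∧ Conn R u v ∧ Adj v (γ i1)) → ∀ B : Set V,
    (∃ (a b : ℕ) (u v : V), i0 < a ∧ a < i1 ∧ i1 < b ∧ b < i0 + n ∧ Adj (γ a) u ∧
      Conn (R ∩ B) u v ∧ Adj v (γ b)) ∨
    ∃ u v, Adj (γ i0) u ∧ Conn (R \ B) u v ∧ Adj v (γ i1)

namespace Wall

variable (W : Wall)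

/-- the open arc from `γ i0` to `γ i1` -/
def Lt (i0 i1 : ℕ) : Set V := {v | ∃ a, i0 < a ∧ a < i1 ∧ W.γ a = v}

/-- the open arc from `γ i1` back to `γ i0` -/
def Rt (i0 i1 : ℕ) : Set V := {v | ∃ b, i1 < b ∧ b < i0 + W.n ∧ W.γ b = v}

/-- a path inside `S` along edges with an interior end point -/
def IC (S : Set V) (u v : V) : Prop := NConn W.Rᶜ S u v

/-- `d` is the distance from `y` to the complement of the interior -/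
def Dist (y : V) (d : ℤ) : Prop := 1 ≤ d ∧ Bx y (d - 1) ⊆ W.R ∧ ∃ w ∈ Bx y d, w ∉ W.R

/-- up to `K` times its distance to the wall, `y` only sees the part `Γ` of the wall -/
def Sided (K : ℤ) (Γ : Set V) (y : V) (d : ℤ) : Prop :=
  W.Dist y d ∧ ∀ w, w ∉ W.R → W.IC (Bx y (K * d)) y w → w ∈ Γ

/-- the part `U` of the domain cut off around `x` by a crosscut at distance `r`; the wall has
the constant value `s` in `U` -/
structure Pocket (ξ : V → ℤ) (z0 x : V) (d r : ℤ) (i0 i1 : ℕ) (U : Set V) (s : ℤ) : Prop where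
  lt : i0 < i1
  lt' : i1 < i0 + W.n
  near : W.IC (Bx x d) x (W.γ i0)
  far : W.γ i1 ∉ Bx x (4 * r)
  mem : x ∈ U
  closed : ∀ u ∈ U, ∀ v, W.IC (Bx x (r - 2)) u v → v ∈ U
  flat : ∀ w ∈ U, w ∉ W.R → ξ w = s
  bulk : ∀ v, Conn (W.R \ Bx x (r + 1)) z0 v → v ∉ U
  rest : ∀ v, v ∉ U → (v ∈ W.R ∨ ∃ i, W.γ i = v) → DConn W.R W.γ Uᶜ v (W.γ i1)
  cut : ∀ r', d < r' → r' ≤ r - 2 → ∃ u ∈ U, ∃ v, (∃ a ∈ W.Lt i0 i1, Adj a u) ∧
    (∃ b ∈ W.Rt i0 i1, Adj v b) ∧ Conn (W.R ∩ {y | ds y x = r'}) u v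

end Wall

/-- W2a: a crosscut at distance `r` from `x` gives a microscopic bottleneck, or two one sided
points joined by a chain of bulk balls of bounded length -/
def ChainSt : Prop := ∀ K C0 : ℤ, 2 ≤ K → 1 ≤ C0 → ∃ A r0 : ℤ, 0 < A ∧
  ∀ (W : Wall) (i0 i1 : ℕ) (x u v : V) (r : ℤ), i0 < i1 → i1 < i0 + W.n → r0 ≤ r →
    W.γ i0 ∈ Bx x (r / 8) → W.γ i1 ∉ Bx x (4 * r) → (∃ a ∈ W.Lt i0 i1, Adj a u) →
    (∃ b ∈ W.Rt i0 i1, Adj v b) → Conn (W.R ∩ {y | ds y x = r}) u v →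
    (∃ y, W.IC (Bx x (2 * r)) u y ∧ Bx y (K * C0) ⊆ Bx x (2 * r) \ Bx x (r / 4) ∧
      ∃ a ∈ W.Lt i0 i1, ∃ b ∈ W.Rt i0 i1, W.IC (Bx y (K * C0)) y a ∧ W.IC (Bx y (K * C0)) y b) ∨
    ∃ (ρ dL dR : ℤ) (yL yR z : V) (P : Set V), C0 ≤ ρ ∧ Conn P yL yR ∧
      W.IC (Bx x (2 * r)) u yL ∧
      (∀ p ∈ P, Bx p ρ ⊆ W.R ∧ p ∈ Bx z (A * ρ) ∧ Bx p ρ ⊆ Bx x (2 * r) \ Bx x (r / 4)) ∧
      W.Sided K (W.Lt i0 i1) yL dL ∧ W.Sided K (W.Rt i0 i1) yR dR ∧ dL ≤ A * ρ ∧ dR ≤ A * ρ ∧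
      Bx yL (K * dL) ⊆ Bx x (2 * r) \ Bx x (r / 4) ∧ Bx yR (K * dR) ⊆ Bx x (2 * r) \ Bx x (r / 4)

/-- W2b: pockets exist around every point that is reached from `z0` off two exceptional boxes -/
def PocketSt : Prop := ∀ (W : Wall) (ξ : V → ℤ) (ia ib : ℕ),
  (∀ i, ξ (W.γ i) ≠ ξ (W.γ (i + 1)) → W.γ i = W.γ ia ∨ W.γ i = W.γ ib) → ∀ (z0 : V) (r : ℤ),
  ∃ xa xb : V, ∀ (x : V) (d : ℤ), W.Dist x d → d + 4 ≤ r → z0 ∉ Bx x (4 * r) →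
    Conn (W.R \ (Bx xa (2 * r + 2) ∪ Bx xb (2 * r + 2))) z0 x →
    ∃ i0 i1 U s, W.Pocket ξ z0 x d r i0 i1 U s

/-- W2c: no exceptional box for a flat wall -/
def PocketFlatSt : Prop := ∀ (W : Wall) (ξ : V → ℤ) (s : ℤ), (∀ i, ξ (W.γ i) = s) →
  ∀ (z0 x : V) (d r : ℤ), W.Dist x d → d + 4 ≤ r → z0 ∉ Bx x (4 * r) → Conn W.R z0 x →
    ∃ i0 i1 U, W.Pocket ξ z0 x d r i0 i1 U s

end Pool.Agent.Lib.MP_6359c9_pr
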