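import Pool.Agent.Lib.MP_6359c9_pr.WTop
import Pool.Agent.Lib.MP_6359c9_pr.WDef

/-! A discrete domain is a wall: fans, non crossing, Sperner parity and Hex. -/

namespace Pool.Agent.Lib.MP_6359c9_pr

namespace WD

/-- `u v` is the edge `a b` -/
def SE (a b u v : V) : Prop := (a = u ∧ b = v) ∨ (a = v ∧ b = u)

/-- `u v` is an edge of the cycle -/
def CE (γ : ℕ → V) (u v : V) : Prop := ∃ i, SE (γ i) (γ (i + 1)) u v

/-- the face `c` has the vertex `v` -/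
def Ar (v c : V) : Prop := ∃ w, Adj v w ∧ lf v w = c

lemma ar_l {u v : V} (h : Adj u v) : Ar u (lf u v) := ⟨v, h, rfl⟩

lemma ar_r {u v : V} (h : Adj u v) : Ar v (lf u v) := ⟨_, h.thd.2, lf_thd u v⟩

lemma ar_t {u v : V} (h : Adj u v) : Ar (thd u v) (lf u v) := ⟨_, h.thd.1.symm, lf_thd' u v⟩

lemma thd_thd (u v : V) : thd v (thd u v) = u := by ext <;> simp only [thd] <;> ring

lemma thd_thd' (u v : V) : thd (thd u v) u = v := by ext <;> simp only [thd] <;> ring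

/-- the six neighbours in cyclic order -/
def dir (v : V) (k : Fin 6) : V :=
  ![(v.1 + 1, v.2), (v.1, v.2 + 1), (v.1 - 1, v.2 + 1), (v.1 - 1, v.2), (v.1, v.2 - 1),
    (v.1 + 1, v.2 - 1)] k

lemma adj_dir (v : V) (k : Fin 6) : Adj v (dir v k) := by
  fin_cases k <;> simp [dir, Adj]

lemma ex_dir {v w : V} (h : Adj v w) : ∃ k, dir v k = w := by
  obtain ⟨w1, w2⟩ := w
  rcases h with h | h | h | h | h | h <;> simp only at h <;> rw [h.1, h.2]
  exacts [⟨0, rfl⟩, ⟨3, rfl⟩, ⟨1, rfl⟩, ⟨4, rfl⟩, ⟨5, rfl⟩, ⟨2, rfl⟩]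

lemma dir_inj (v : V) {k k' : Fin 6} (h : dir v k = dir v k') : k = k' := by
  fin_cases k <;> fin_cases k' <;> simp [dir, Prod.ext_iff] at h ⊢ <;> omega

lemma lf_dir (v : V) (k : Fin 6) : lf (dir v (k + 1)) v = lf v (dir v k) := by
  fin_cases k <;> ext <;> simp [dir, lf_fst, lf_snd] <;> ring

lemma fan6 {α : Type} (l : Fin 6 → Prop) (y : Fin 6 → α) (a b : Fin 6)
    (h : ∀ k, k + 1 ≠ a → k + 1 ≠ b → (l (k + 1) ↔ l k))
    (g : ∀ k, l (k + 1) → l k → y (k + 1) = y k) (k k' : Fin 6) (c : l k) (c' : l k') :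
    y k = y k' := by
  have h0 : 1 ≠ a → 1 ≠ b → (l 1 ↔ l 0) := h 0
  have h1 : 2 ≠ a → 2 ≠ b → (l 2 ↔ l 1) := h 1
  have h2 : 3 ≠ a → 3 ≠ b → (l 3 ↔ l 2) := h 2
  have h3 : 4 ≠ a → 4 ≠ b → (l 4 ↔ l 3) := h 3
  have h4 : 5 ≠ a → 5 ≠ b → (l 5 ↔ l 4) := h 4
  have h5 : 0 ≠ a → 0 ≠ b → (l 0 ↔ l 5) := h 5
  have g0 : l 1 → l 0 → y 1 = y 0 := g 0
  have g1 : l 2 → l 1 → y 2 = y 1 := g 1
  have g2 : l 3 → l 2 → y 3 = y 2 := g 2
  have g3 : l 4 → l 3 → y 4 = y 3 := g 3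
  have g4 : l 5 → l 4 → y 5 = y 4 := g 4
  have g5 : l 0 → l 5 → y 0 = y 5 := g 5
  have key : ∃ x : α, (l 0 → y 0 = x) ∧ (l 1 → y 1 = x) ∧ (l 2 → y 2 = x) ∧ (l 3 → y 3 = x) ∧
      (l 4 → y 4 = x) ∧ (l 5 → y 5 = x) := by
    clear h g c c'
    by_cases l 0
    · exact ⟨y 0, by
        by_cases l 1 <;> by_cases l 2 <;> by_cases l 3 <;> by_cases l 4 <;> by_cases l 5 <;> grind⟩
    by_cases l 1
    · exact ⟨y 1, by by_cases l 2 <;> by_cases l 3 <;> by_cases l 4 <;> by_cases l 5 <;> grind⟩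
    by_cases l 2
    · exact ⟨y 2, by by_cases l 3 <;> by_cases l 4 <;> by_cases l 5 <;> grind⟩
    by_cases l 3
    · exact ⟨y 3, by by_cases l 4 <;> by_cases l 5 <;> grind⟩
    by_cases l 4
    · exact ⟨y 4, by by_cases l 5 <;> grind⟩
    · exact ⟨y 5, by grind⟩
  obtain ⟨x, e⟩ := key
  have e' : ∀ k, l k → y k = x := fun k => by
    fin_cases k
    exacts [e.1, e.2.1, e.2.2.1, e.2.2.2.1, e.2.2.2.2.1, e.2.2.2.2.2]
  rw [e' k c, e' k' c']

/-- the faces of `L` around a vertex with at most two cuts form a fan -/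
lemma fan {α : Type} {L : V → Prop} {Y : V → α} {v p q : V}
    (h1 : ∀ w, Adj v w → w ≠ p → w ≠ q → (L (lf v w) ↔ L (lf w v)))
    (h2 : ∀ w, Adj v w → L (lf v w) → L (lf w v) → Y (lf v w) = Y (lf w v)) {c c' : V}
    (a : Ar v c) (a' : Ar v c') (b : L c) (b' : L c') : Y c = Y c' := by
  obtain ⟨w, a, rfl⟩ := a
  obtain ⟨w', a', rfl⟩ := a'
  obtain ⟨k, rfl⟩ := ex_dir a
  obtain ⟨k', rfl⟩ := ex_dir a'
  have ex : ∀ p, ∃ k1, ∀ k, k ≠ k1 → dir v k ≠ p := fun p => by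
    by_cases c : ∃ k1, dir v k1 = p
    · obtain ⟨k1, rfl⟩ := c
      exact ⟨k1, fun k n e => n (dir_inj v e)⟩
    · exact ⟨0, fun k _ e => c ⟨k, e⟩⟩
  obtain ⟨k1, e1⟩ := ex p
  obtain ⟨k2, e2⟩ := ex q
  refine fan6 (fun k => L (lf v (dir v k))) (fun k => Y (lf v (dir v k))) k1 k2
    (fun k n1 n2 => ?_) (fun k c c' => ?_) k k' b b'
  · rw [← lf_dir v k]; exact h1 _ (adj_dir v _) (e1 _ n1) (e2 _ n2)
  · beta_reduce at *
    rw [← lf_dir v k] at c' ⊢; exact h2 _ (adj_dir v _) c c'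

instance (a b u v : V) : Decidable (SE a b u v) := by unfold SE; infer_instance

/-- the chain of one edge -/
def ed (a b u v : V) : ZMod 2 := if SE a b u v then 1 else 0

/-- the indicator of a vertex -/
def chi (a v : V) : ZMod 2 := if v = a then 1 else 0

/-- boundary of a chain -/
def dv (om : V → V → ZMod 2) (v : V) : ZMod 2 := ∑ k, om v (dir v k)

lemma ed_symm (a b u v : V) : ed a b u v = ed a b v u :=
  if_congr or_comm rfl rfl

lemma dv_ed {a b : V} (h : Adj a b) (v : V) : dv (ed a b) v = chi a v + chi b v := by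
  have n := h.ne
  have one : ∀ {v w : V}, Adj v w → ∑ k, (if dir v k = w then (1 : ZMod 2) else 0) = 1 := by
    intro v w h
    obtain ⟨k, rfl⟩ := ex_dir h
    rw [Finset.sum_eq_single k (fun j _ e => if_neg fun e' => e (dir_inj v e')) (by simp),
      if_pos rfl]
  unfold dv ed chi
  by_cases ha : v = a
  · subst ha
    rw [if_pos rfl, if_neg n, add_zero]
    refine Eq.trans (Finset.sum_congr rfl fun k _ => if_congr ?_ rfl rfl) (one h)
    unfold SE; grind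
  by_cases hb : v = b
  · subst hb
    rw [if_pos rfl, if_neg n.symm, zero_add]
    refine Eq.trans (Finset.sum_congr rfl fun k _ => if_congr ?_ rfl rfl) (one h.symm)
    unfold SE; grind
  · rw [if_neg ha, if_neg hb, add_zero]
    exact Finset.sum_eq_zero fun k _ => if_neg (by unfold SE; grind)

lemma dv_add (f g : V → V → ZMod 2) (v : V) :
    dv (fun a b => f a b + g a b) v = dv f v + dv g v := Finset.sum_add_distrib

lemma two (x : ZMod 2) : x + x = 0 := by revert x; decide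

lemma bnd' (om : V → V → ZMod 2) (hs : ∀ u v, om u v = om v u) (hd : ∀ v, dv om v = 0) :
    ∃ G : V → ZMod 2, ∀ u v, Adj u v → G (lf u v) + G (lf v u) = om u v :=
  bnd om hs fun v => by simpa [dv, Fin.sum_univ_six, dir] using hd v

/-- the chain of a path -/
lemma chain {E : V → V → Prop} {S : Set V} (hE : ∀ u v, E u v → Adj u v) {a b : V} (ha : a ∈ S)
    (h : Relation.ReflTransGen (fun u v => E u v ∧ v ∈ S) a b) :
    b ∈ S ∧ ∃ om : V → V → ZMod 2, (∀ u v, om u v = om v u) ∧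
      (∀ u v, om u v ≠ 0 → u ∈ S ∧ (E u v ∨ E v u)) ∧ ∀ v, dv om v = chi a v + chi b v := by
  induction h with
  | refl => exact ⟨ha, fun _ _ => 0, by simp, by simp, fun v => by simp [dv, two]⟩
  | @tail b c _ e ih =>
    obtain ⟨hb, om, h1, h2, h3⟩ := ih
    refine ⟨e.2, fun u v => om u v + ed b c u v, fun u v => congrArg₂ _ (h1 u v) (ed_symm ..),
      fun u v k => ?_, fun v => ?_⟩
    · by_cases q : om u v = 0
      · have : SE b c u v := by
          by_contra s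
          exact k (by simp [q, ed, s])
        rcases this with ⟨rfl, rfl⟩ | ⟨rfl, rfl⟩
        exacts [⟨hb, .inl e.1⟩, ⟨e.2, .inr e.1⟩]
      · exact h2 u v q
    · rw [dv_add, h3, dv_ed (hE _ _ e.1)]
      linear_combination two (chi b v)

/-- a simple closed lattice path -/
structure Cyc (n : ℕ) (γ : ℕ → V) : Prop where
  three : 3 ≤ n
  per : ∀ i, γ (i + n) = γ i
  inj : ∀ i j, i < j → j < i + n → γ i ≠ γ j
  adj : ∀ i, Adj (γ i) (γ (i + 1))

namespace Cyc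

variable {n : ℕ} {γ : ℕ → V} (C : Cyc n γ)
include C

lemma mul (i k : ℕ) : γ (i + k * n) = γ i := by
  induction k with
  | zero => simp
  | succ k ih => rw [Nat.succ_mul, ← add_assoc, C.per, ih]

/-- every index has a representative in a window of length `n` -/
lemma rep (i0 i : ℕ) : ∃ j, i0 ≤ j ∧ j < i0 + n ∧ ∀ k, γ (j + k) = γ (i + k) := by
  have hn : 0 < n := by have := C.three; omega
  have key : ∀ m, ∃ j, i0 ≤ j ∧ j < i0 + n ∧ ∀ k, γ (j + k) = γ (i0 + m + k) := fun m => by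
    refine ⟨i0 + m % n, by omega, by have := Nat.mod_lt m hn; omega, fun k => ?_⟩
    rw [← C.mul _ (m / n)]
    congr 1
    have := Nat.mod_add_div' m n
    omega
  obtain ⟨j, a, b, c⟩ := key (i + i0 * n - i0)
  refine ⟨j, a, b, fun k => ?_⟩
  rw [c, ← C.mul (i + k) i0]
  congr 1
  have := Nat.le_mul_of_pos_right i0 hn
  omega

lemma eq {i0 i j : ℕ} (a : i0 ≤ i) (b : i < i0 + n) (c : i0 ≤ j) (d : j < i0 + n)
    (h : γ i = γ j) : i = j := by
  rcases lt_trichotomy i j with k | k | k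
  exacts [(C.inj i j k (by omega) h).elim, k, (C.inj j i k (by omega) h.symm).elim]

lemma se {i j : ℕ} (a : i < j) (b : j < i + n) : ¬SE (γ i) (γ (i + 1)) (γ j) (γ (j + 1)) := by
  have := C.three
  rintro (h | h)
  · exact C.inj i j a b h.1
  · have h1 := C.eq (i0 := i + 1) (i := i + 1) (j := j) le_rfl (by omega) a (by omega) h.2
    exact C.inj i (j + 1) (by omega) (by omega) h.1

/-- the cycle edges at a cycle vertex -/
lemma ce {j : ℕ} {w : V} (h : CE γ (γ (j + 1)) w) : w = γ j ∨ w = γ (j + 2) := by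
  have := C.three
  obtain ⟨i, h⟩ := h
  obtain ⟨i', a, b, c⟩ := C.rep j i
  rw [← c 1, show γ i = γ i' from (c 0).symm] at h
  rcases h with h | h
  · obtain rfl := C.eq (i0 := j) a b (by omega) (by omega) h.1
    exact .inr h.2.symm
  · obtain rfl : i' = j := by
      have := C.eq (i0 := j + 1) (i := i' + 1) (j := j + 1) (by omega) (by omega) le_rfl (by omega) h.2
      omega
    exact .inl h.1.symm

/-- at most two cycle edges at a vertex -/
lemma pair (v : V) : ∃ p q, ∀ w, w ≠ p → w ≠ q → ¬CE γ v w := by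
  by_cases h : ∃ i, γ i = v
  · obtain ⟨i, rfl⟩ := h
    obtain ⟨j, a, -, c⟩ := C.rep 1 i
    obtain ⟨j, rfl⟩ : ∃ k, j = k + 1 := ⟨j - 1, by omega⟩
    rw [show γ i = γ (j + 1) from (c 0).symm]
    exact ⟨γ j, γ (j + 2), fun w a b e => (C.ce e).elim a b⟩
  · exact ⟨v, v, fun w _ _ ⟨i, e⟩ => e.elim (fun e => h ⟨_, e.1⟩) fun e => h ⟨_, e.2⟩⟩

/-- the chain of an arc -/
lemma arc {i0 i1 : ℕ} (h : i0 ≤ i1) (h' : i1 ≤ i0 + n) : ∃ om : V → V → ZMod 2,
    (∀ u v, om u v = om v u) ∧ (∀ u v, ¬CE γ u v → om u v = 0) ∧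
    (∀ j, i0 ≤ j → j < i0 + n → om (γ j) (γ (j + 1)) = if j < i1 then 1 else 0) ∧
    ∀ v, dv om v = chi (γ i0) v + chi (γ i1) v := by
  induction i1, h using Nat.le_induction with
  | base => exact ⟨fun _ _ => 0, by simp, by simp, fun j a _ => (if_neg (by omega)).symm,
      fun v => by simp [dv, two]⟩
  | succ m hm ih =>
    obtain ⟨om, h1, h2, h3, h4⟩ := ih (by omega)
    refine ⟨fun u v => om u v + ed (γ m) (γ (m + 1)) u v,
      fun u v => congrArg₂ _ (h1 u v) (ed_symm ..), fun u v k => ?_, fun j a b => ?_, fun v => ?_⟩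
    · beta_reduce
      rw [h2 u v k, ed, if_neg fun s => k ⟨m, s⟩, add_zero]
    · beta_reduce
      rw [h3 j a b, ed]
      rcases lt_trichotomy j m with k | rfl | k
      · rw [if_pos k, if_pos (by omega : j < m + 1), if_neg, add_zero]
        have := C.se k (by omega)
        unfold SE at *; grind
      · rw [if_neg (lt_irrefl _), if_pos (.inl ⟨rfl, rfl⟩), if_pos (by omega), zero_add]
      · rw [if_neg (by omega), if_neg (C.se k (by omega)), if_neg (by omega), add_zero]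
    · rw [dv_add, h4, dv_ed (C.adj m)]
      linear_combination two (chi (γ m) v)

end Cyc

/-- an edge of a face of `L` -/
def IE (L : V → Prop) (u v : V) : Prop := Adj u v ∧ (L (lf u v) ∨ L (lf v u))

/-- a finite set `L` of faces bounded by the cycle `γ`, with interior vertices `R` -/
structure FaceD (R : Set V) (n : ℕ) (γ : ℕ → V) (L : V → Prop) : Prop extends Cyc n γ where
  jump : ∀ u v, Adj u v → ((L (lf u v) ↔ L (lf v u)) ↔ ¬CE γ u v)
  fin : {v | ∃ c, Ar v c ∧ L c}.Finite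
  inn : ∀ v ∈ R, ∀ c, Ar v c → L c
  cl : ∀ v, (∃ c, Ar v c ∧ L c) → v ∈ R ∨ ∃ i, γ i = v

namespace FaceD

variable {R : Set V} {n : ℕ} {γ : ℕ → V} {L : V → Prop} (D : FaceD R n γ L)
include D

lemma cyc (i : ℕ) : ¬(L (lf (γ i) (γ (i + 1))) ↔ L (lf (γ (i + 1)) (γ i))) := fun h =>
  (D.jump _ _ (D.adj i)).1 h ⟨i, .inl ⟨rfl, rfl⟩⟩

lemma out (i : ℕ) : γ i ∉ R := fun h =>
  D.cyc i (iff_of_true (D.inn _ h _ (ar_l (D.adj i))) (D.inn _ h _ (ar_r (D.adj i).symm)))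

lemma bd (u : V) (hu : u ∈ R) (v : V) (a : Adj u v) : v ∈ R ∨ ∃ i, γ i = v :=
  D.cl v ⟨_, ar_r a, D.inn u hu _ (ar_l a)⟩

lemma ie {u v : V} (h : DE R γ u v) : IE L u v := by
  obtain ⟨a, h | h | ⟨i, ⟨rfl, rfl⟩ | ⟨rfl, rfl⟩⟩⟩ := h
  · exact ⟨a, .inl (D.inn _ h _ (ar_l a))⟩
  · exact ⟨a, .inl (D.inn _ h _ (ar_r a))⟩
  · exact ⟨a, by have := D.cyc i; tauto⟩
  · exact ⟨a, by have := D.cyc i; tauto⟩

lemma coconn (u : V) (hu : u ∉ R) : Conn Rᶜ u (γ 0) := by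
  have hc : ∀ i, Conn Rᶜ (γ 0) (γ i) := fun i => by
    induction i with
    | zero => exact Conn.refl (D.out 0)
    | succ i ih => exact ih.tail (D.adj i) (D.out _)
  have h : Conn (Rec (min u.1 (γ 0).1) (max u.1 (γ 0).1) (min u.2 (γ 0).2) (max u.2 (γ 0).2))
      u (γ 0) := Rec_conn (by simp [mem_Rec]) (by simp [mem_Rec])
  have st : ∀ x, Conn Rᶜ u x → (Conn Rᶜ u x ∧ ¬∃ i, γ i = x) ∨ Conn Rᶜ u (γ 0) := fun x c => by
    by_cases e : ∃ i, γ i = x
    · obtain ⟨i, rfl⟩ := e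
      exact .inr (c.trans (hc i).symm)
    · exact .inl ⟨c, e⟩
  rcases h.ind (P := fun x => (Conn Rᶜ u x ∧ ¬∃ i, γ i = x) ∨ Conn Rᶜ u (γ 0))
    (st u (Conn.refl hu)) (fun a b _ ab _ ih => ih.elim (fun c => st b (c.1.tail ab fun hb =>
      (D.bd b hb a ab.symm).elim c.1.right c.2)) .inr) with h | h
  exacts [h.1, h]

/-- non crossing for paths along edges of faces of `L` -/
lemma nc {i0 a i1 b : ℕ} (h1 : i0 < a) (h2 : a < i1) (h3 : i1 < b) (h4 : b < i0 + n) {S T : Set V}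
    (s0 : γ i0 ∈ S) (p : Relation.ReflTransGen (fun u v => IE L u v ∧ v ∈ S) (γ i0) (γ i1))
    (t0 : γ a ∈ T) (q : Relation.ReflTransGen (fun u v => IE L u v ∧ v ∈ T) (γ a) (γ b)) :
    ¬Disjoint S T := by
  intro d
  have d' : ∀ x ∈ T, x ∉ S := fun x h => Set.disjoint_right.1 d h
  obtain ⟨-, o1, a1, a2, a3⟩ := chain (fun _ _ h => h.1) s0 p
  obtain ⟨o2, b1, b2, b3, b4⟩ := D.arc (i0 := i0) (i1 := i1) (by omega) (by omega)
  obtain ⟨G, hG⟩ := bnd' (fun u v => o1 u v + o2 u v) (fun u v => by rw [a1, b1]) fun v => by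
    rw [dv_add, a3, b4, two]
  have eq : ∀ x y : ZMod 2, x + y = 0 → x = y := by decide
  have fo : ∀ v c c', Ar v c → Ar v c' → ¬L c → ¬L c' → G c = G c' := fun v c c' => by
    obtain ⟨p, q, e⟩ := D.pair v
    refine fan (L := fun c => ¬L c) (p := p) (q := q)
      (fun w k n1 n2 => not_congr ((D.jump _ _ k).2 (e w n1 n2))) fun w k l1 l2 => eq _ _ ?_
    rw [hG _ _ k, b2 _ _ ((D.jump _ _ k).1 (iff_of_false l1 l2)), add_zero]
    by_contra z
    rcases (a2 _ _ z).2 with z | z <;> rcases z.2 with z | z <;> contradiction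
  have fi : ∀ v ∈ T, ∀ c c', Ar v c → Ar v c' → L c → L c' → G c = G c' := fun v hv c c' => by
    obtain ⟨p, q, e⟩ := D.pair v
    refine fan (p := p) (q := q)
      (fun w k n1 n2 => (D.jump _ _ k).2 (e w n1 n2)) fun w k l1 l2 => eq _ _ ?_
    rw [hG _ _ k, b2 _ _ ((D.jump _ _ k).1 (iff_of_true l1 l2)), add_zero]
    by_contra z
    exact d' v hv (a2 _ _ z).1
  have io : ∀ j, ∃ c c', Ar (γ j) c ∧ Ar (γ (j + 1)) c ∧ ¬L c ∧ Ar (γ j) c' ∧ L c' ∧
      G c + G c' = o1 (γ j) (γ (j + 1)) + o2 (γ j) (γ (j + 1)) := fun j => by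
    have k := D.adj j
    have := D.cyc j
    by_cases e : L (lf (γ j) (γ (j + 1)))
    · exact ⟨_, _, ar_r k.symm, ar_l k.symm, by tauto, ar_l k, e, by rw [add_comm, hG _ _ k]⟩
    · exact ⟨_, _, ar_l k, ar_r k, e, ar_r k.symm, by tauto, hG _ _ k⟩
  obtain ⟨c, c', e1, -, e3, e4, e5, e6⟩ := io a
  have ho : ∀ j, a ≤ j → ∀ x, Ar (γ j) x → ¬L x → G x = G c := fun j hj => by
    induction j, hj using Nat.le_induction with
    | base => exact fun x k l => fo _ _ _ k e1 l e3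
    | succ j _ ih =>
      obtain ⟨y, -, f1, f2, f3, -⟩ := io j
      exact fun x k l => (fo _ _ _ k f2 l f3).trans (ih y f1 f3)
  have hi : γ b ∈ T ∧ ∀ x, Ar (γ b) x → L x → G x = G c' := by
    generalize γ b = z at q
    induction q with
    | refl => exact ⟨t0, fun x k l => fi _ t0 _ _ k e4 l e5⟩
    | @tail u v _ e ih =>
      refine ⟨e.2, fun x k l => ?_⟩
      rcases e.1.2 with y | y
      · exact (fi _ e.2 _ _ k (ar_r e.1.1) l y).trans (ih.2 _ (ar_l e.1.1) y)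
      · exact (fi _ e.2 _ _ k (ar_l e.1.1.symm) l y).trans (ih.2 _ (ar_r e.1.1.symm) y)
  obtain ⟨x, x', f1, -, f3, f4, f5, f6⟩ := io b
  have z : ∀ u ∈ T, ∀ v, o1 u v = 0 := fun u hu v => by
    by_contra z
    exact d' u hu (a2 _ _ z).1
  rw [z _ t0, b3 a h1.le (by omega), if_pos h2] at e6
  rw [z _ hi.1, b3 b (by omega) h4, if_neg (by omega), ho b (by omega) x f1 f3, hi.2 x' f4 f5,
    e6] at f6
  exact absurd f6 (by decide)

/-- Sperner parity -/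
lemma sperner {A B : Set V} (d : Disjoint A B)
    (h : ∀ x ∈ A, ∀ y ∈ B, ∀ w, Adj x w → IE L y w → (∃ c, Ar w c ∧ L c) → w ∈ A ∨ w ∈ B)
    {i : ℕ} (ha : γ i ∈ A) (hb : γ (i + 1) ∈ B)
    (un : ∀ u ∈ A, ∀ v ∈ B, CE γ u v → u = γ i ∧ v = γ (i + 1)) : False := by
  classical
  have d' : ∀ x ∈ A, x ∉ B := fun x h => Set.disjoint_left.1 d h
  have fin : {p : V × V | Adj p.1 p.2 ∧ L (lf p.1 p.2) ∧
      ((p.1 ∈ A ∧ p.2 ∈ B) ∨ (p.1 ∈ B ∧ p.2 ∈ A))}.Finite :=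
    (D.fin.prod D.fin).subset fun p h => ⟨⟨_, ar_l h.1, h.2.1⟩, ⟨_, ar_r h.1, h.2.1⟩⟩
  set E := fin.toFinset with hE
  have mem : ∀ p : V × V, p ∈ E ↔ Adj p.1 p.2 ∧ L (lf p.1 p.2) ∧
      ((p.1 ∈ A ∧ p.2 ∈ B) ∨ (p.1 ∈ B ∧ p.2 ∈ A)) := fun p => by simp [hE]
  have th : ∀ p ∈ E, thd p.1 p.2 ∈ A ∨ thd p.1 p.2 ∈ B := fun p hp => by
    obtain ⟨k, l, s | s⟩ := (mem p).1 hp
    · exact h _ s.1 _ s.2 _ k.thd.1 ⟨k.thd.2, .inl (by rwa [lf_thd])⟩ ⟨_, ar_t k, l⟩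
    · exact h _ s.2 _ s.1 _ k.thd.2 ⟨k.thd.1, .inr (by rwa [lf_thd'])⟩ ⟨_, ar_t k, l⟩
  have s1 : ∑ _p ∈ E, (1 : ZMod 2) = 0 := by
    refine Finset.sum_involution (fun p _ => if (thd p.1 p.2 ∈ A ↔ p.1 ∈ A) then (p.2, thd p.1 p.2)
      else (thd p.1 p.2, p.1)) (fun _ _ => two 1) (fun p hp _ => ?_) (fun p hp => ?_)
      fun p hp => ?_
    · have := ((mem p).1 hp).1.ne
      split_ifs <;> simp only [ne_eq, Prod.ext_iff] <;> grind
    · obtain ⟨k, l, s⟩ := (mem p).1 hp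
      have := th p hp
      have := d' p.1; have := d' p.2; have := d' (thd p.1 p.2)
      split_ifs <;> rw [mem]
      · exact ⟨k.thd.2, by rwa [lf_thd], by grind⟩
      · exact ⟨k.thd.1.symm, by rwa [lf_thd'], by grind⟩
    · obtain ⟨k, l, s⟩ := (mem p).1 hp
      have := th p hp
      have := d' p.1; have := d' p.2; have := d' (thd p.1 p.2)
      by_cases e : (thd p.1 p.2 ∈ A ↔ p.1 ∈ A)
      · simp only [if_pos e, thd_thd]
        rw [if_neg (by grind)]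
      · simp only [if_neg e, thd_thd']
        rw [if_pos (by grind)]
  obtain ⟨e0, m0, n0, c0⟩ : ∃ e0 ∈ E, e0.swap ∉ E ∧ SE (γ i) (γ (i + 1)) e0.1 e0.2 := by
    have k := D.adj i
    have := D.cyc i
    by_cases e : L (lf (γ i) (γ (i + 1)))
    · exact ⟨(γ i, γ (i + 1)), (mem _).2 ⟨k, e, .inl ⟨ha, hb⟩⟩,
        fun z => this (iff_of_true e ((mem _).1 z).2.1), .inl ⟨rfl, rfl⟩⟩
    · exact ⟨(γ (i + 1), γ i), (mem _).2 ⟨k.symm, by tauto, .inr ⟨hb, ha⟩⟩,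
        fun z => e ((mem _).1 z).2.1, .inr ⟨rfl, rfl⟩⟩
  have s2 : ∑ _p ∈ E.erase e0, (1 : ZMod 2) = 0 := by
    refine Finset.sum_involution (fun p _ => p.swap) (fun _ _ => two 1) (fun p hp _ => ?_)
      (fun p hp => ?_) fun p _ => Prod.swap_swap p
    · have := ((mem p).1 (Finset.mem_of_mem_erase hp)).1.ne
      simp only [ne_eq, Prod.ext_iff, Prod.fst_swap, Prod.snd_swap]; grind
    · obtain ⟨n1, hp⟩ := Finset.mem_erase.1 hp
      obtain ⟨k, l, s⟩ := (mem p).1 hp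
      have n2 : p.swap ≠ e0 := fun e => n0 (by rwa [← e, Prod.swap_swap])
      refine Finset.mem_erase.2 ⟨n2, (mem _).2 ⟨k.symm, ((D.jump _ _ k).2 fun c => ?_).1 l,
        by simp only [Prod.fst_swap, Prod.snd_swap]; tauto⟩⟩
      have : SE (γ i) (γ (i + 1)) p.1 p.2 := by
        rcases s with s | s
        · have := un _ s.1 _ s.2 c
          exact .inl ⟨this.1.symm, this.2.symm⟩
        · have := un _ s.2 _ s.1 (c.imp fun _ => Or.symm)
          exact .inr ⟨this.1.symm, this.2.symm⟩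
      simp only [ne_eq, Prod.ext_iff, Prod.fst_swap, Prod.snd_swap, SE] at *
      grind
  rw [← Finset.add_sum_erase _ _ m0, s2] at s1
  exact absurd s1 (by decide)

/-- Hex with two point sides -/
lemma hex {i0 i1 : ℕ} (h1 : i0 < i1) (h2 : i1 < i0 + n) (na : ¬Adj (γ i0) (γ i1))
    (hp : ∃ u v, Adj (γ i0) u ∧ Conn R u v ∧ Adj v (γ i1)) (B : Set V) :
    (∃ (a b : ℕ) (u v : V), i0 < a ∧ a < i1 ∧ i1 < b ∧ b < i0 + n ∧ Adj (γ a) u ∧
      Conn (R ∩ B) u v ∧ Adj v (γ b)) ∨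
    ∃ u v, Adj (γ i0) u ∧ Conn (R \ B) u v ∧ Adj v (γ i1) := by
  by_contra hc
  rw [not_or] at hc
  obtain ⟨n1, n2⟩ := hc
  have := D.three
  have h3 : i0 + 1 < i1 := by
    by_contra e
    obtain rfl : i1 = i0 + 1 := by omega
    exact na (D.adj i0)
  refine D.sperner (A := {v | v = γ i0 ∨ ∃ u, Adj (γ i0) u ∧ Conn (R \ B) u v})
    (B := {v | ∃ a, i0 < a ∧ a < i1 ∧ (v = γ a ∨ ∃ u, Adj (γ a) u ∧ Conn (R ∩ B) u v)})
    (Set.disjoint_left.2 ?_) ?_ (.inl rfl) ⟨_, by omega, h3, .inl rfl⟩ ?_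
  · rintro v (rfl | ⟨u, -, c⟩) ⟨a, a1, a2, e | ⟨u', -, c'⟩⟩
    · exact D.inj _ _ a1 (by omega) e
    · exact D.out _ c'.right.1
    · exact D.out _ (e ▸ c.right.1)
    · exact c.right.2 c'.right.2
  · rintro x hx y ⟨a, a1, a2, hy⟩ w xw yw hw
    rcases D.cl w hw with r | ⟨j, rfl⟩
    · by_cases b : w ∈ B
      · refine .inr ⟨a, a1, a2, .inr ?_⟩
        rcases hy with rfl | ⟨u, k, c⟩
        exacts [⟨w, yw.1, Conn.refl ⟨r, b⟩⟩, ⟨u, k, c.tail yw.1 ⟨r, b⟩⟩]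
      · refine .inl (.inr ?_)
        rcases hx with rfl | ⟨u, k, c⟩
        exacts [⟨w, xw, Conn.refl ⟨r, b⟩⟩, ⟨u, k, c.tail xw ⟨r, b⟩⟩]
    obtain ⟨b, b1, b2, e⟩ := D.rep i0 j
    rw [show γ j = γ b from (e 0).symm] at *
    rcases b1.eq_or_lt with rfl | b1
    · exact .inl (.inl rfl)
    rcases lt_trichotomy b i1 with b3 | rfl | b3
    · exact .inr ⟨b, b1, b3, .inl rfl⟩
    · rcases hx with rfl | ⟨u, k, c⟩
      exacts [(na xw).elim, (n2 ⟨u, x, k, c, xw⟩).elim]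
    rcases hy with rfl | ⟨u, k, c⟩
    swap
    · exact (n1 ⟨a, b, u, y, a1, a2, b3, b2, k, c, yw.1⟩).elim
    obtain ⟨u, v, k1, c, k2⟩ := hp
    refine (D.nc a1 a2 b3 b2 (S := {x | x ∈ R ∨ x = γ i0 ∨ x = γ i1})
      (T := {x | x = γ a ∨ x = γ b}) (.inr (.inl rfl)) ?_ (.inl rfl)
      (.single ⟨yw, .inr rfl⟩) (Set.disjoint_left.2 ?_)).elim
    · refine Relation.ReflTransGen.tail ?_ ⟨D.ie ⟨k2, .inl c.right⟩, .inr (.inr rfl)⟩
      exact c.ind (P := fun z => Relation.ReflTransGen _ (γ i0) z)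
        (.single ⟨D.ie ⟨k1, .inr (.inl c.left)⟩, .inl c.left⟩)
        fun _ _ _ k r ih => ih.tail ⟨D.ie ⟨k, .inr (.inl r)⟩, .inl r⟩
    · rintro z (r | e | e) (rfl | rfl)
      · exact D.out _ r
      · exact D.out _ r
      · exact D.inj _ _ a1 (by omega) e.symm
      · exact D.inj _ _ b1 b2 e.symm
      · exact D.inj _ _ a2 (by omega) e
      · exact D.inj _ _ b3 (by omega) e.symm
  · have cy : ∀ u v, CE γ u v → u ∉ R ∧ v ∉ R := by
      rintro u v ⟨i, ⟨rfl, rfl⟩ | ⟨rfl, rfl⟩⟩ <;> exact ⟨D.out _, D.out _⟩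
    rintro u (rfl | ⟨_, -, c⟩) v ⟨a, a1, a2, rfl | ⟨_, -, c'⟩⟩ e
    · obtain ⟨m, rfl⟩ : ∃ m, n = m + 1 := ⟨n - 1, by omega⟩
      rw [← D.per i0, ← add_assoc] at e
      rcases D.ce e with e | e
      · exact (D.inj _ _ (by omega) (by omega) e).elim
      · exact ⟨rfl, by rw [e, ← D.per (i0 + 1)]; congr 1; omega⟩
    · exact ((cy _ _ e).2 c'.right.1).elim
    · exact ((cy _ _ e).1 c.right.1).elim
    · exact ((cy _ _ e).1 c.right.1).elim

/-- the wall of a face set -/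
def wall : Wall where
  R := R
  n := n
  γ := γ
  fin := D.fin.subset fun v hv =>
    ⟨_, ar_l (adj_dir v 0), D.inn v hv _ (ar_l (adj_dir v 0))⟩
  three := D.three
  per := D.per
  inj := D.inj
  adj := D.adj
  out := D.out
  bd := D.bd
  coconn := fun u hu v hv => (D.coconn u hu).trans (D.coconn v hv).symm
  nc := fun _ _ _ _ h1 h2 h3 h4 _ _ p q => D.nc h1 h2 h3 h4 p.1
    (.mono (fun _ _ e => ⟨D.ie e.1, e.2⟩) _ _ p.2) q.1 (.mono (fun _ _ e => ⟨D.ie e.1, e.2⟩) _ _ q.2)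
  hex := fun _ _ => D.hex

end FaceD

end WD

/-- the wall of a discrete domain -/
theorem wall_of_dom {d : ℝ} (hd : 0 < d) (Q : Dom d) : ∃ W : Wall,
    W.R = {v | pos d v ∈ Q.D} ∧ W.n = Q.n ∧ (∀ i, W.γ i = Q.c (i % Q.n)) ∧
      ∀ v, pos d v ∈ closure Q.D ↔ (v ∈ W.R ∨ ∃ i, W.γ i = v) := by
  have h3 := Q.three
  have hn : 0 < Q.n := by omega
  have sc : ∀ i, Q.c ((i + 1) % Q.n) = Q.c (i % Q.n + 1) := fun i => by
    rw [← Nat.mod_add_mod]
    rcases (Nat.succ_le_of_lt (Nat.mod_lt i hn)).eq_or_lt with h | h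
    · rw [show i % Q.n + 1 = Q.n from h, Nat.mod_self, Q.closed]
    · rw [Nat.mod_eq_of_lt h]
  have cl : ∀ v, pos d v ∈ closure Q.D ↔ (pos d v ∈ Q.D ∨ ∃ i, Q.c (i % Q.n) = v) := fun v => by
    rw [Q.vert_cl' hd]
    exact or_congr Iff.rfl ⟨fun ⟨i, a, e⟩ => ⟨i, by rwa [Nat.mod_eq_of_lt a]⟩,
      fun ⟨i, e⟩ => ⟨_, Nat.mod_lt i hn, e⟩⟩
  obtain ⟨F, -, f2, f3, f4⟩ := Q.face hd
  have f5 : ∀ v, (∃ c, WD.Ar v c ∧ c ∈ F) → pos d v ∈ closure Q.D :=
    fun v ⟨_, ⟨w, a, e⟩, h⟩ => (f4 v).2 ⟨w, a, e ▸ h⟩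
  have D : WD.FaceD {v | pos d v ∈ Q.D} Q.n (fun i => Q.c (i % Q.n)) fun c => c ∈ F :=
    { three := h3
      per := fun i => by rw [Nat.add_mod_right]
      inj := fun i j a b e => by
        have := Nat.le_of_dvd (by omega) ((Nat.modEq_iff_dvd' a.le).1
          (Q.simple _ (Nat.mod_lt i hn) _ (Nat.mod_lt j hn) e))
        omega
      adj := fun i => by rw [sc]; exact Q.adj _ (Nat.mod_lt i hn)
      jump := fun u v a => by
        rw [f2 u v a]
        refine not_congr ⟨fun ⟨i, b, e⟩ => ⟨i, ?_⟩, fun ⟨i, e⟩ => ⟨_, Nat.mod_lt i hn, ?_⟩⟩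
        · beta_reduce
          rwa [sc, Nat.mod_eq_of_lt b]
        · beta_reduce at e
          rwa [sc] at e
      fin := (Q.fin_pos hd one_pos).subset fun v h => by simpa using f5 v h
      inn := fun v h c ⟨w, a, e⟩ => e ▸ (f3 v).1 h w a
      cl := fun v h => (cl v).1 (f5 v h) }
  exact ⟨D.wall, rfl, rfl, fun _ => rfl, cl⟩

end Pool.Agent.Lib.MP_6359c9_pr
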