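import Pool.Agent.Lib.MP_6359c9_pr.SpecC
import Pool.Agent.Lib.MP_6359c9_pr.WDom
import Pool.Agent.Lib.MP_6359c9_pr.CovA

/-! From the domains of the statement to sequences of discrete domains. -/

namespace Pool.Agent.Lib.MP_6359c9_pr

open Set Filter Topology MeasureTheory

lemma vt_face {d : ℝ} (hd : 0 < d) (z : ℂ) :
    ∃ p, Face p ∧ z ∈ Tg d p ∧ ∀ i, pos d (vt d z i) ∈ Tg d p := by
  have h1 := Int.fract_nonneg (cx d z)
  have h2 := Int.fract_nonneg (cy d z)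
  have h3 := Int.fract_lt_one (cx d z)
  have h4 := Int.fract_lt_one (cy d z)
  have e1 := Int.floor_add_fract (cx d z)
  have e2 := Int.floor_add_fract (cy d z)
  unfold vt
  simp only [Tg, InI, mem_ofPred_eq, cx_pos' hd, cy_pos' hd]
  generalize Int.fract (cx d z) = s, Int.fract (cy d z) = t, ⌊cx d z⌋ = a, ⌊cy d z⌋ = b at *
  rw [← e1, ← e2]
  split_ifs with h
  · refine ⟨(3 * a + 1, 3 * b + 1), Or.inl ⟨by simp only; omega, by simp only; omega⟩, ?_⟩
    rw [show (3 * a + 1) / 3 = a by omega, show (3 * b + 1) / 3 = b by omega,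
      show (3 * a + 1 + (3 * b + 1)) / 3 = a + b by omega]
    push_cast
    refine ⟨⟨⟨by linarith, by linarith⟩, ⟨by linarith, by linarith⟩, by linarith, by linarith⟩,
      fun i => ?_⟩
    fin_cases i <;> simp <;> linarith
  · refine ⟨(3 * a + 2, 3 * b + 2), Or.inr ⟨by simp only; omega, by simp only; omega⟩, ?_⟩
    rw [show (3 * a + 2) / 3 = a by omega, show (3 * b + 2) / 3 = b by omega,
      show (3 * a + 2 + (3 * b + 2)) / 3 = a + b + 1 by omega]
    push_cast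
    refine ⟨⟨⟨by linarith, by linarith⟩, ⟨by linarith, by linarith⟩, by linarith, by linarith⟩,
      fun i => ?_⟩
    fin_cases i <;> simp <;> constructor <;> linarith

namespace Dom

variable {d : ℝ} (Q : Dom d)

lemma vt_cl (hd : 0 < d) {z : ℂ} (hz : z ∈ Q.D) (i : Fin 3) : pos d (vt d z i) ∈ closure Q.D := by
  obtain ⟨p, hp, h1, h2⟩ := vt_face hd z
  exact (Q.cl_iff hd).2 ⟨p, hp, (Q.tg_iff hd hp h1 (Q.not_fr hz)).1 hz, h2 i⟩

/-- the interior vertices -/
def R : Set V := {v | pos d v ∈ Q.D}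

open Classical in
/-- the data: one on the plus arc, zero elsewhere -/
noncomputable def xi (v : V) : ℤ := if ∃ i < Q.m, Q.c i = v then 1 else 0

open Classical in
/-- from Lipschitz functions to height functions -/
noncomputable def up (g : V → ℤ) (v : V) : ℤ := if pos d v ∈ closure Q.D then 2 * g v - 1 else 0

lemma xi_two (v : V) : Q.xi v = 0 ∨ Q.xi v = 1 := by unfold xi; split_ifs <;> simp

lemma xi_lt {i : ℕ} (h : i < Q.m) : Q.xi (Q.c i) = 1 := if_pos ⟨i, h, rfl⟩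

lemma xi_ge {i : ℕ} (h : Q.m ≤ i) (h' : i < Q.n) : Q.xi (Q.c i) = 0 :=
  if_neg fun ⟨j, h1, h2⟩ => by
    have := Q.simple j (h1.trans Q.m_lt) i h' h2
    omega

lemma c_out (hd : 0 < d) {i : ℕ} (h : i < Q.n) : Q.c i ∉ Q.R := fun h' =>
  Q.not_fr h' ((Q.vert_fr hd).2 ⟨i, h, rfl⟩)

lemma c_cl (hd : 0 < d) {i : ℕ} (h : i < Q.n) : pos d (Q.c i) ∈ closure Q.D :=
  (Q.vert_cl' hd _).2 (Or.inr ⟨i, h, rfl⟩)

lemma bij_up (hd : 0 < d) : BijOn Q.up (HD Q.R Q.xi) Q.H := by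
  classical
  obtain ⟨W, e1, -, -, e4⟩ := wall_of_dom hd Q
  have nb : ∀ u v, Adj u v → pos d v ∉ closure Q.D → u ∉ Q.R := fun u v a hv hu =>
    hv ((e4 v).2 (W.bd u (by rw [e1]; exact hu) v a))
  have o : ∀ v, pos d v ∉ closure Q.D → v ∉ Q.R := fun v hv h => hv (subset_closure h)
  have bd : ∀ h ∈ Q.H, ∀ v, v ∉ Q.R → pos d v ∈ closure Q.D → h v = 2 * Q.xi v - 1 := by
    intro h hh v h1 h2
    obtain ⟨i, hi, rfl⟩ := ((Q.vert_cl' hd v).1 h2).resolve_left h1
    rcases lt_or_ge i Q.m with h3 | h3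
    · rw [hh.2.2.1 i h3, Q.xi_lt h3]; rfl
    · rw [hh.2.2.2.1 i h3 hi, Q.xi_ge h3 hi]; rfl
  refine bij_of_inv (ψ := fun h v => if pos d v ∈ closure Q.D then (h v + 1) / 2 else Q.xi v)
    (fun g hg => ⟨fun v hv => if_neg hv, fun v hv => ?_, fun i hi => ?_, fun i h1 h2 => ?_,
      fun u v hu hv a => ?_⟩) (fun h hh => ⟨fun u v a => ?_, fun v hv => ?_⟩)
    (fun g hg => funext fun v => ?_) fun h hh => funext fun v => ?_
  · rw [up, if_pos hv]
    exact ⟨g v - 1, by ring⟩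
  · have := hi.trans Q.m_lt
    rw [up, if_pos (Q.c_cl hd this), hg.2 _ (Q.c_out hd this), Q.xi_lt hi]; rfl
  · rw [up, if_pos (Q.c_cl hd h2), hg.2 _ (Q.c_out hd h2), Q.xi_ge h1 h2]; rfl
  · have := hg.1 u v a
    unfold Hp at this
    rw [up, up, if_pos hu, if_pos hv]
    rcases abs_cases (2 * g u - 1 - (2 * g v - 1)) with h | h <;> omega
  · have t1 := Q.xi_two u
    have t2 := Q.xi_two v
    unfold Hp
    beta_reduce
    split_ifs with hu hv hv
    · obtain ⟨p, h1⟩ := hh.2.1 u hu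
      obtain ⟨q, h2⟩ := hh.2.1 v hv
      have := hh.2.2.2.2 u v hu hv a
      rcases abs_cases (h u - h v) with h | h <;> omega
    · rw [bd h hh u (nb u v a hv) hu]; omega
    · rw [bd h hh v (nb v u a.symm hu) hv]; omega
    · omega
  · beta_reduce
    split_ifs with h1
    · rw [bd h hh v hv h1]; omega
    · rfl
  · split_ifs with h1
    · rw [up, if_pos h1]; omega
    · exact (hg.2 v (o v h1)).symm
  · rw [up]
    split_ifs with h1
    · obtain ⟨p, h2⟩ := hh.2.1 v h1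
      omega
    · exact (hh.1 v h1).symm

lemma ext_up (hd : 0 < d) (g : V → ℤ) {z : ℂ} (hz : z ∈ Q.D) :
    ext d (Q.up g) z = 2 * ext d g z - 1 := by
  rw [ext_eq, ext_eq, exR, exR, Finset.mul_sum]
  rw [← bw_sum d z, ← Finset.sum_sub_distrib]
  refine Finset.sum_congr rfl fun i _ => ?_
  rw [up, if_pos (Q.vt_cl hd hz i)]
  push_cast
  ring

lemma cls_R (hd : 0 < d) : Cls Q.R := by
  obtain ⟨W, e1, -⟩ := wall_of_dom hd Q
  have : Q.R = W.R := e1.symm
  rw [this]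
  exact ⟨W.fin, W.coconn⟩

lemma pair_up (hd : 0 < d) {φ : ℂ → ℝ} (hφ : tsupport φ ⊆ Q.D) (g : V → ℤ) :
    Q.pair φ (Q.up g) =
      ∫ z, 2 * (ext d g z - mean (HD Q.R Q.xi) fun g' => ext d g' z) * φ z := by
  have ok : Ok (HD Q.R Q.xi) :=
    ok_two (k := 0) (Q.cls_R hd).fin fun v _ => by simpa using Q.xi_two v
  refine Eq.trans ?_ (setIntegral_eq_integral_of_forall_compl_eq_zero (s := Q.D) fun z hz => by
    rw [image_eq_zero_of_notMem_tsupport fun h => hz (hφ h), mul_zero])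
  refine setIntegral_congr_fun Q.isOpen.measurableSet fun z hz => ?_
  have e : mean Q.H (fun h => ext d h z) = 2 * mean (HD Q.R Q.xi) (fun g' => ext d g' z) - 1 := by
    change Ex _ _ = 2 * Ex _ _ - 1
    rw [← ex_bij (Q.bij_up hd), ex_congr fun g _ => Q.ext_up hd g hz, ex_sub, ex_mul, ex_const ok]
  rw [e, Q.ext_up hd g hz]
  ring

end Dom

theorem bridgeSt : BridgeSt := by
  intro hc Ω δ hδ hl Q hQ
  refine ⟨⟨δ, fun n => (Q n).R, fun n => (Q n).xi, hδ, hl, fun n => (Q n).cls_R (hδ n),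
    fun n v _ => (Q n).xi_two v, fun K h1 h2 => (hQ.1 K h1 h2).mono fun n hn v hv => hn hv,
    fun w hw ε hε => ?_⟩, fun n => ?_, fun k φ hφ => ?_⟩
  · filter_upwards [(hQ.2 w hw).eventually (gt_mem_nhds (half_pos hε)),
      hl.eventually (gt_mem_nhds (half_pos hε))] with n h1 h2
    have h0 : 0 < (Q n).n := by have := (Q n).three; omega
    obtain ⟨p, hp, h3⟩ := (Metric.infDist_lt_iff ⟨_, ((Q n).vert_fr (hδ n)).2 ⟨0, h0, rfl⟩⟩).1 h1
    obtain ⟨i, hi, h4⟩ := (Q n).fr_iff.1 hp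
    refine ⟨_, (Q n).c_out (hδ n) hi, ?_⟩
    obtain ⟨t, t0, t1, e1, e2⟩ := seg_co (hδ n) h4
    have h5 : ‖pos (δ n) ((Q n).c i) - p‖ ≤ δ n := by
      refine abs_le_of_sq_le_sq' ?_ (hδ n).le |>.2
      rw [pos_sub_sq (hδ n), e1, e2]
      refine mul_le_of_le_one_right (by positivity) ?_
      rcases (Q n).adj i hi with h | h | h | h | h | h <;> rw [h.1, h.2] <;> push_cast <;> nlinarith
    rw [dist_comm, dist_eq_norm] at h3
    linarith [norm_sub_le_norm_sub_add_norm_sub (pos (δ n) ((Q n).c i)) p w]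
  · obtain ⟨W, e1, -, e3, -⟩ := wall_of_dom (hδ n) (Q n)
    have h1 := (Q n).m_pos
    have h2 := (Q n).m_lt
    refine ⟨W, (Q n).m - 1, (Q n).n - 1, e1, fun i h => ?_⟩
    simp only [e3] at h ⊢
    have hi := Nat.mod_lt i (h1.trans h2)
    rw [← Nat.mod_add_mod] at h
    rw [Nat.mod_eq_of_lt (show (Q n).m - 1 < (Q n).n by omega),
      Nat.mod_eq_of_lt (show (Q n).n - 1 < (Q n).n by omega)]
    generalize i % (Q n).n = j at *
    by_contra hn
    push Not at hn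
    have a1 : j ≠ (Q n).m - 1 := fun e => hn.1 (by rw [e])
    have a2 : j ≠ (Q n).n - 1 := fun e => hn.2 (by rw [e])
    rw [Nat.mod_eq_of_lt (show j + 1 < (Q n).n by omega)] at h
    rcases lt_or_ge j (Q n).m with h3 | h3
    · exact h (by rw [(Q n).xi_lt h3, (Q n).xi_lt (by omega)])
    · exact h (by rw [(Q n).xi_ge h3 hi, (Q n).xi_ge (by omega) (by omega)])
  · filter_upwards [eventually_all.2 fun i => hQ.1 _ (hφ i).2.2 (hφ i).2.1] with n hn F
    change Ex _ _ = Ex _ _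
    rw [← ex_bij ((Q n).bij_up (hδ n))]
    refine ex_congr fun g _ => ?_
    simp only [fun i => (Q n).pair_up (hδ n) (hn i) g]
    rfl

end Pool.Agent.Lib.MP_6359c9_pr
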