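import Pool.Agent.Lib.MP_6359c9_pr.Casc1

/-! General RSW theory by a triangle cascade. -/

namespace Pool.Agent.Lib.MP_6359c9_pr

/-- crossing event in a triangle, end points described by the distances to the three sides -/
def XT (d1 d2 d3 : ℤ) (P Q : ℤ → ℤ → ℤ → Prop) : Set (Set V) :=
  XC (Tri d1 d2 d3) {v | P (v.2 + d1) (v.1 + d2) (d3 - v.1 - v.2)}
    {v | Q (v.2 + d1) (v.1 + d2) (d3 - v.1 - v.2)}

/-- an odd triangle inside the window -/
def TOk (M d1 d2 d3 : ℤ) : Prop :=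
  d1 % 2 = 1 ∧ d2 % 2 = 1 ∧ d3 % 2 = 1 ∧ 0 ≤ d1 ∧ 0 ≤ d2 ∧ 0 ≤ d3 ∧ d1 + d2 + d3 ≤ M

lemma TOk.sub {M d1 d2 d3 : ℤ} (h : TOk M d1 d2 d3) : Tri d1 d2 d3 ⊆ Bx 0 M :=
  Tri_sub h.2.2.2.1 h.2.2.2.2.1 h.2.2.2.2.2.1 h.2.2.2.2.2.2

/-- from the left half of the base to the right side -/
def EE (d1 d2 d3 : ℤ) : Set (Set V) :=
  XT d1 d2 d3 (fun a b c => a = 0 ∧ b ≤ c + 1) fun _ _ c => c = 0

/-- from the right half of the base to the left side -/
def EE' (d1 d2 d3 : ℤ) : Set (Set V) :=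
  XT d1 d2 d3 (fun a b c => a = 0 ∧ c ≤ b + 1) fun _ b _ => b = 0

/-- from the left part of the base, off the middle window, to the right side -/
def EO (d1 d2 d3 : ℤ) : Set (Set V) :=
  XT d1 d2 d3 (fun a b c => a = 0 ∧ d1 + d2 + d3 < 30 * (c - b)) fun _ _ c => c = 0

/-- from the central triangle to the middle window of the right side -/
def AA (d1 d2 d3 m : ℤ) : Set (Set V) :=
  XT d1 d2 d3 (fun a b c => d1 - m ≤ a ∧ d2 - m ≤ b ∧ d3 - m ≤ c)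
    fun a b c => c = 0 ∧ 30 * (a - b) ≤ d1 + d2 + d3 ∧ 30 * (b - a) ≤ d1 + d2 + d3

/-- from the central triangle to the middle window of the base -/
def AB (d1 d2 d3 m : ℤ) : Set (Set V) :=
  XT d1 d2 d3 (fun a b c => d1 - m ≤ a ∧ d2 - m ≤ b ∧ d3 - m ≤ c)
    fun a b c => a = 0 ∧ 30 * (c - b) ≤ d1 + d2 + d3 ∧ 30 * (b - c) ≤ d1 + d2 + d3

/-- from the middle window of the base to the right side, avoiding the central triangle -/
def AV (d1 d2 d3 m : ℤ) : Set (Set V) :=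
  XC (Tri d1 d2 d3 \ Tri m m m) {v | v.2 = -d1 ∧ 30 * (d3 + d1 - d2 - 2 * v.1) ≤ d1 + d2 + d3 ∧
    30 * (2 * v.1 - (d3 + d1 - d2)) ≤ d1 + d2 + d3} {v | v.1 + v.2 = d3}

lemma Tri_conn {d1 d2 d3 : ℤ} {u v : V} (hu : u ∈ Tri d1 d2 d3) (hv : v ∈ Tri d1 d2 d3) :
    Conn (Tri d1 d2 d3) u v := by
  have key : ∀ w ∈ Tri d1 d2 d3, Conn (Tri d1 d2 d3) w (-d2, -d1) := fun w hw =>
    (conn_row' (u := w) (v := (-d2, w.2)) rfl fun k hk => by
      simp only [mem_Tri] at *; omega).trans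
      (conn_col' (u := (-d2, w.2)) rfl fun k hk => by simp only [mem_Tri] at *; omega)
  exact (key u hu).trans (key v hv).symm

lemma cross_tri {S : Set V} {d1 d2 d3 : ℤ} (hS : S ⊆ Tri d1 d2 d3) {x y z t : V}
    (hx : x.2 = -d1) (hy : y.2 = -d1) (hxy : x.1 ≤ y.1 + 1) (hz : z.1 + z.2 = d3) (ht : t.1 = -d2)
    (h1 : Conn S x z) (h2 : Conn S y t) : Conn S x y := by
  rcases hxy.eq_or_lt with h | hxy
  · exact Conn.single h1.left (by unfold Adj; omega) h2.left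
  rcases (Int.lt_add_one_iff.1 hxy).eq_or_lt with h | h
  · rw [show y = x from Prod.ext h.symm (hy.trans hx.symm)]
    exact Conn.refl h1.left
  · exact Conn.cross (sa := .B) (sb := .B) (sc := .R) (se := .L) hS
      (fun w hw => hx ▸ hw.1) (fun w hw => hy ▸ hw.1)
      (fun w hw h => by have := hw.2.2; omega) (fun w hw _ => ht ▸ hw.2.1) h1 h2
      (by simp only [Aft, iff_true, iff_self]; omega)

/-- Hex lemma in a triangle -/
lemma hex_Tri (S : Set V) {d1 d2 d3 : ℤ} (hH : 2 ≤ d1 + d2 + d3) :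
    S ∈ EE d1 d2 d3 ∨ Sᶜ ∈ EE' d1 d2 d3 := by
  have := hex (R := Tri d1 d2 d3) (O0 := {v | v.2 < -d1 ∧ 2 * v.1 ≤ d3 + d1 - d2 + 1})
    (O1 := {v | -d1 ≤ v.2 ∧ v.1 < -d2}) (O2 := {v | -d1 ≤ v.2 ∧ -d2 ≤ v.1 ∧ d3 < v.1 + v.2})
    (O3 := {v | v.2 < -d1 ∧ d3 + d1 - d2 + 1 < 2 * v.1})
    (fun v hv => by simp only [mem_Tri, Set.mem_ofPred_eq] at *; omega)
    (Set.disjoint_left.2 fun v h h' => by simp only [mem_Tri, Set.mem_ofPred_eq] at *; omega)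
    (Set.disjoint_left.2 fun v h h' => by simp only [mem_Tri, Set.mem_ofPred_eq] at *; omega)
    (Set.disjoint_left.2 fun v h h' => by simp only [mem_Tri, Set.mem_ofPred_eq] at *; omega)
    (Set.disjoint_left.2 fun v h h' => by simp only [mem_Tri, Set.mem_ofPred_eq] at *; omega)
    (Set.disjoint_left.2 fun v h h' => by simp only [Set.mem_ofPred_eq] at *; omega)
    (Set.disjoint_left.2 fun v h h' => by simp only [Set.mem_ofPred_eq] at *; omega)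
    (Set.disjoint_left.2 fun v h h' => by simp only [Set.mem_ofPred_eq] at *; omega)
    (Set.disjoint_left.2 fun v h h' => by simp only [Set.mem_ofPred_eq] at *; omega)
    (Set.disjoint_left.2 fun v h h' => by simp only [Set.mem_ofPred_eq] at *; omega)
    (Set.disjoint_left.2 fun v h h' => by simp only [Set.mem_ofPred_eq] at *; omega)
    (fun u h v h' a => by simp only [Set.mem_ofPred_eq, Adj] at *; omega)
    (fun u h v h' a => by simp only [Set.mem_ofPred_eq, Adj] at *; omega)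
    ⟨((d3 + d1 - d2 + 1) / 2, -d1 - 1), (-d2 - 1, -d1 - 1), (-d2 - 1, -d1), (-d2 - 1, d2 + d3 + 1),
      (d3 + 1 - (d2 + d3 + 1), d2 + d3 + 1), (d3 + 1 - (-d1), -d1), (d3 + d1 + 1, -d1 - 1),
      ((d3 + d1 - d2 + 1) / 2 + 1, -d1 - 1),
      (conn_row (by omega) fun k h1 h2 => by simp only [Set.mem_ofPred_eq]; omega).symm,
      by unfold Adj; dsimp only; omega,
      conn_col (by omega) fun k h1 h2 => by simp only [Set.mem_ofPred_eq]; omega,
      by unfold Adj; dsimp only; omega,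
      (conn_diag (by omega) fun k h1 h2 => by simp only [Set.mem_ofPred_eq]; omega).symm,
      by unfold Adj; dsimp only; omega,
      (conn_row (by omega) fun k h1 h2 => by simp only [Set.mem_ofPred_eq]; omega).symm,
      by unfold Adj; dsimp only; omega⟩ S
  rcases this with ⟨u, ⟨o, ho, a⟩, v, ⟨o', ho', a'⟩, h⟩ | ⟨u, ⟨o, ho, a⟩, v, ⟨o', ho', a'⟩, h⟩
  · have h1 := h.left.2
    have h2 := h.right.2
    exact Or.inl ⟨u, by simp only [mem_Tri, Set.mem_ofPred_eq, Adj] at *; omega, v,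
      by simp only [mem_Tri, Set.mem_ofPred_eq, Adj] at *; omega, h⟩
  · have h1 := h.left.2
    have h2 := h.right.2
    exact Or.inr ⟨v, by simp only [mem_Tri, Set.mem_ofPred_eq, Adj] at *; omega, u,
      by simp only [mem_Tri, Set.mem_ofPred_eq, Adj] at *; omega, h.symm⟩

lemma EO_sub (d1 d2 d3 : ℤ) : EO d1 d2 d3 ∩ EE' d1 d2 d3 ⊆ Br d1 d2 d3 := by
  rintro ω ⟨⟨x, hx, z, hz, h1⟩, ⟨y, hy, t, ht, h2⟩⟩
  have tx := h1.left.2
  simp only [Set.mem_ofPred_eq, mem_Tri] at hx hz hy ht tx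
  exact ⟨x, y, by omega, by omega, by omega, cross_tri Set.inter_subset_right (by omega) (by omega)
    (by omega) (by omega) (by omega) h1 h2⟩

lemma EE_sub {d1 d2 d3 : ℤ} (hH : 30 ≤ d1 + d2 + d3) (m : ℤ) : EE d1 d2 d3 ∩ EE' d1 d2 d3 ⊆ AA d1 d2 d3 m ∪ AV d1 d2 d3 m ∪
    EO d1 d2 d3 ∪
    XT d1 d2 d3 (fun a b c => c = 0 ∧ d1 + d2 + d3 < 30 * (a - b)) (fun a _ _ => a = 0) ∪
    XT d1 d2 d3 (fun a b c => c = 0 ∧ d1 + d2 + d3 < 30 * (b - a)) (fun _ b _ => b = 0) := by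
  rintro ω ⟨⟨x, hx, z, hz, h1⟩, ⟨y, hy, t, ht, h2⟩⟩
  simp only [Set.mem_ofPred_eq] at hx hz hy ht
  have h3 : Conn (ω ∩ Tri d1 d2 d3) x y := cross_tri Set.inter_subset_right (by omega) (by omega)
    (by omega) (by omega) (by omega) h1 h2
  by_cases c1 : d1 + d2 + d3 < 30 * (z.1 + d2 - (z.2 + d1))
  · exact Or.inr ⟨z, ⟨hz, c1⟩, t, ht, h1.symm.trans (h3.trans h2)⟩
  by_cases c2 : d1 + d2 + d3 < 30 * (z.2 + d1 - (z.1 + d2))
  · exact Or.inl (Or.inr ⟨z, ⟨hz, c2⟩, x, hx.1, h1.symm⟩)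
  by_cases c3 : d1 + d2 + d3 < 30 * (d3 - x.1 - x.2 - (x.1 + d2))
  · exact Or.inl (Or.inl (Or.inr ⟨x, ⟨hx.1, c3⟩, z, hz, h1⟩))
  have tx := h1.left.2
  rw [mem_Tri] at tx
  rcases h1.hit (Tri m m m) with h4 | ⟨a, ha, -, h4⟩
  · refine Or.inl (Or.inl (Or.inl (Or.inr ⟨x, ?_, z, ?_, h4.mono ?_⟩)))
    · simp only [Set.mem_ofPred_eq]; omega
    · simp only [Set.mem_ofPred_eq]; omega
    · exact fun v hv => ⟨hv.1.1, hv.1.2, hv.2⟩
  · refine Or.inl (Or.inl (Or.inl (Or.inl ⟨a, ?_, z, ?_, h4⟩)))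
    · simp only [Set.mem_ofPred_eq, mem_Tri] at *; omega
    · simp only [Set.mem_ofPred_eq]; omega

lemma AV_sub {n m : ℤ} (hn : 0 ≤ n) (hm : m ≤ 2 * n + 1) :
    AV (2 * n + 1) (4 * n + 3) (4 * n + 3) m ∩ AB (2 * n + 1) n (2 * n + 1) m ∩
      AB (2 * n + 1) (2 * n + 1) n m ⊆ Br (2 * n + 1) (4 * n + 3) (4 * n + 3) := by
  rintro ω ⟨⟨⟨i, hi, z, hz, h0⟩, ⟨wa, hwa, xa, hxa, ha⟩⟩, ⟨wb, hwb, xb, hxb, hb⟩⟩
  simp only [Set.mem_ofPred_eq] at hi hz hwa hxa hwb hxb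
  set T := Tri (2 * n + 1) (4 * n + 3) (4 * n + 3) with hT
  have ha' : Conn (ω ∩ T) wa xa := ha.mono fun v hv => ⟨hv.1, by
    have := hv.2; simp only [hT, mem_Tri] at *; omega⟩
  have hb' : Conn (ω ∩ T) wb xb := hb.mono fun v hv => ⟨hv.1, by
    have := hv.2; simp only [hT, mem_Tri] at *; omega⟩
  have h0' : ∀ v, Conn (ω ∩ (T \ Tri m m m)) i v → Conn (ω ∩ T) i v := fun v hv =>
    hv.mono fun w hw => ⟨hw.1, hw.2.1⟩
  by_cases c1 : Conn (ω ∩ T) i xa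
  · exact ⟨i, xa, by omega, by omega, by omega, c1⟩
  by_cases c2 : Conn (ω ∩ T) i xb
  · exact ⟨xb, i, by omega, by omega, by omega, c2.symm⟩
  exfalso
  have hW : Tri m m m ⊆ T := fun v hv => by simp only [hT, mem_Tri] at *; omega
  have hc : Conn ({v | Conn (ω ∩ T) xb v} ∪ Tri m m m ∪ {v | Conn (ω ∩ T) wa v}) xb xa :=
    ((hb'.symm.cluster.mono fun v hv => Or.inl (Or.inl hv)).trans
      ((Tri_conn (by simp only [mem_Tri]; omega) (by simp only [mem_Tri]; omega)).mono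
        fun v hv => Or.inl (Or.inr hv))).trans (ha'.cluster.mono fun v hv => Or.inr hv)
  have := interlace (R := T) (sa := .B) (sb := .B) (sc := .B) (se := .R)
    (by
      rintro v ((h | h) | h)
      · exact (Conn.right h).2
      · exact hW h
      · exact (Conn.right h).2)
    (fun v hv => (Conn.right hv).2.1)
    (Set.disjoint_left.2 (by
      rintro v ((h | h) | h) h'
      · exact c2 ((h0' v h').trans (Conn.symm h))
      · exact (Conn.right h').2.2 h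
      · exact c1 ((h0' v h').trans ((Conn.symm h).trans ha'))))
    (fun w hw => by have := hw.1; omega) (fun w hw => by have := hw.1; omega)
    (fun w hw => by have := hw.1; omega) (fun w hw h => by have := hw.2.2; omega) hc h0.cluster
  simp only [Aft, iff_true, iff_self] at this
  omega

lemma ring_sub {n m : ℤ} (hm : 0 < m) (hn : 6 * m ≤ 2 * n) :
    {ω | Blk ωᶜ (Bx 0 (2 * m)) (Bx 0 (6 * m))ᶜ} ∩ AB (2 * n + 1) n (2 * n + 1) m ∩
      AB (2 * n + 1) (2 * n + 1) n m ⊆ Br (2 * n + 1) (4 * n + 3) (4 * n + 3) := by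
  rintro ω ⟨⟨h0, ⟨wa, hwa, xa, hxa, ha⟩⟩, ⟨wb, hwb, xb, hxb, hb⟩⟩
  simp only [Set.mem_ofPred_eq] at hwa hxa hwb hxb
  refine ⟨xb, xa, by omega, by omega, by omega, Blk.join h0 (by omega)
    (fun v hv => by simp only [mem_Tri, mem_Bx0] at *; omega) (w := wb) (w' := wa)
    (by simp only [mem_Bx0]; omega) (by simp only [mem_Bx0]; omega)
    (by simp only [mem_Bx0]; omega) (by simp only [mem_Bx0]; omega)
    (hb.mono fun v hv => ⟨hv.1, by have := hv.2; simp only [mem_Tri] at *; omega⟩)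
    (ha.mono fun v hv => ⟨hv.1, by have := hv.2; simp only [mem_Tri] at *; omega⟩)⟩

namespace Perc

variable {p : Set (Set V) → ℝ} {η : ℝ} {M : ℤ}

lemma sw23 (h : Perc p η M) {d1 d2 d3 e1 e2 e3 : ℤ} (hd : TOk M d1 d2 d3) (he : TOk M e1 e2 e3)
    (hs : d1 + d2 + d3 = e1 + e2 + e3) {P Q P' Q' : ℤ → ℤ → ℤ → Prop}
    (hP : ∀ a b c, P a b c → P' a c b) (hQ : ∀ a b c, Q a b c → Q' a c b) :
    p (XT d1 d2 d3 P Q) ≤ p (XT e1 e2 e3 P' Q') + η := by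
  have e : ∀ v : V, (mvq 2 ((d3 - e2) / 2) ((d1 - e1) / 2) v).2 + e1 = v.2 + d1 ∧
      (mvq 2 ((d3 - e2) / 2) ((d1 - e1) / 2) v).1 + e2 = d3 - v.1 - v.2 ∧
      e3 - (mvq 2 ((d3 - e2) / 2) ((d1 - e1) / 2) v).1 -
        (mvq 2 ((d3 - e2) / 2) ((d1 - e1) / 2) v).2 = v.1 + d2 := fun v => by
    simp only [mvq, sy, TOk, Matrix.cons_val] at *; omega
  refine h.move 2 ((d3 - e2) / 2) ((d1 - e1) / 2) hd.sub he.sub
    (fun v hv => by have := e v; simp only [mem_Tri] at *; omega) (fun v _ hv => ?_)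
    fun v _ hv => ?_ <;> simp only [Set.mem_ofPred_eq, (e v).1, (e v).2.1, (e v).2.2]
  · exact hP _ _ _ hv
  · exact hQ _ _ _ hv

lemma sw13 (h : Perc p η M) {d1 d2 d3 e1 e2 e3 : ℤ} (hd : TOk M d1 d2 d3) (he : TOk M e1 e2 e3)
    (hs : d1 + d2 + d3 = e1 + e2 + e3) {P Q P' Q' : ℤ → ℤ → ℤ → Prop}
    (hP : ∀ a b c, P a b c → P' c b a) (hQ : ∀ a b c, Q a b c → Q' c b a) :
    p (XT d1 d2 d3 P Q) ≤ p (XT e1 e2 e3 P' Q') + η := by
  have e : ∀ v : V, (mvq 3 ((d2 - e2) / 2) ((d3 - e1) / 2) v).2 + e1 = d3 - v.1 - v.2 ∧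
      (mvq 3 ((d2 - e2) / 2) ((d3 - e1) / 2) v).1 + e2 = v.1 + d2 ∧
      e3 - (mvq 3 ((d2 - e2) / 2) ((d3 - e1) / 2) v).1 -
        (mvq 3 ((d2 - e2) / 2) ((d3 - e1) / 2) v).2 = v.2 + d1 := fun v => by
    simp only [mvq, sy, TOk, Matrix.cons_val] at *; omega
  refine h.move 3 ((d2 - e2) / 2) ((d3 - e1) / 2) hd.sub he.sub
    (fun v hv => by have := e v; simp only [mem_Tri] at *; omega) (fun v _ hv => ?_)
    fun v _ hv => ?_ <;> simp only [Set.mem_ofPred_eq, (e v).1, (e v).2.1, (e v).2.2]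
  · exact hP _ _ _ hv
  · exact hQ _ _ _ hv

lemma cyc (h : Perc p η M) {d1 d2 d3 e1 e2 e3 : ℤ} (hd : TOk M d1 d2 d3) (he : TOk M e1 e2 e3)
    (hs : d1 + d2 + d3 = e1 + e2 + e3) {P Q P' Q' : ℤ → ℤ → ℤ → Prop}
    (hP : ∀ a b c, P a b c → P' c a b) (hQ : ∀ a b c, Q a b c → Q' c a b) :
    p (XT d1 d2 d3 P Q) ≤ p (XT e1 e2 e3 P' Q') + η := by
  have e : ∀ v : V, (mvq 4 ((d1 - e2) / 2) ((d3 - e1) / 2) v).2 + e1 = d3 - v.1 - v.2 ∧
      (mvq 4 ((d1 - e2) / 2) ((d3 - e1) / 2) v).1 + e2 = v.2 + d1 ∧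
      e3 - (mvq 4 ((d1 - e2) / 2) ((d3 - e1) / 2) v).1 -
        (mvq 4 ((d1 - e2) / 2) ((d3 - e1) / 2) v).2 = v.1 + d2 := fun v => by
    simp only [mvq, sy, TOk, Matrix.cons_val] at *; omega
  refine h.move 4 ((d1 - e2) / 2) ((d3 - e1) / 2) hd.sub he.sub
    (fun v hv => by have := e v; simp only [mem_Tri] at *; omega) (fun v _ hv => ?_)
    fun v _ hv => ?_ <;> simp only [Set.mem_ofPred_eq, (e v).1, (e v).2.1, (e v).2.2]
  · exact hP _ _ _ hv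
  · exact hQ _ _ _ hv

/-- the basic inequality in one triangle -/
lemma split (h : Perc p η M) {d1 d2 d3 : ℤ} (hd : TOk M d1 d2 d3) (hH : 30 ≤ d1 + d2 + d3)
    (m : ℤ) {c φ : ℝ} (hc : 0 < c)
    (h1 : c ≤ p (EE d1 d2 d3)) (h2 : c ≤ p (EE' d1 d2 d3)) (hφ : p (Br d1 d2 d3) ≤ φ) :
    c ^ 2 ≤ p (AA d1 d2 d3 m) + p (AV d1 d2 d3 m) + 3 * (φ / c) + 2 * η := by
  have iX : ∀ P Q, Inc (Bx 0 M) (XT d1 d2 d3 P Q) := fun _ _ => inc_X hd.sub _ _
  have iV : Inc (Bx 0 M) (AV d1 d2 d3 m) := inc_X (Set.sdiff_subset.trans hd.sub) _ _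
  have e0 : p (EO d1 d2 d3) ≤ φ / c := by
    rw [le_div_iff₀ hc]
    exact (h.fkg' (iX _ _) (iX _ _) le_rfl h2 hc.le).trans ((h.mono _ _ (EO_sub d1 d2 d3)).trans hφ)
  have e1 : p (XT d1 d2 d3 (fun a b c => c = 0 ∧ d1 + d2 + d3 < 30 * (a - b))
      (fun a _ _ => a = 0)) ≤ p (EO d1 d2 d3) + η :=
    h.sw13 hd hd rfl (fun _ _ _ h => h) fun _ _ _ h => h
  have e2 : p (XT d1 d2 d3 (fun a b c => c = 0 ∧ d1 + d2 + d3 < 30 * (b - a))
      (fun _ b _ => b = 0)) ≤ p (EO d1 d2 d3) + η :=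
    h.cyc hd hd rfl (fun _ _ _ h => h) fun _ _ _ h => h
  have e3 := (h.fkg' (iX _ _) (iX _ _) h1 h2 hc.le).trans (h.mono _ _ (EE_sub hH m))
  have s1 := h.sub (AA d1 d2 d3 m) _ (iX _ _) iV
  have s2 := h.sub (AA d1 d2 d3 m ∪ AV d1 d2 d3 m) (EO d1 d2 d3) (Inc.union (iX _ _) iV) (iX _ _)
  have s3 := h.sub (AA d1 d2 d3 m ∪ AV d1 d2 d3 m ∪ EO d1 d2 d3) (XT d1 d2 d3
    (fun a b c => c = 0 ∧ d1 + d2 + d3 < 30 * (a - b)) (fun a _ _ => a = 0))
    ((Inc.union (iX _ _) iV).union (iX _ _)) (iX _ _)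
  have s4 := h.sub (AA d1 d2 d3 m ∪ AV d1 d2 d3 m ∪ EO d1 d2 d3 ∪ XT d1 d2 d3
    (fun a b c => c = 0 ∧ d1 + d2 + d3 < 30 * (a - b)) (fun a _ _ => a = 0)) (XT d1 d2 d3
    (fun a b c => c = 0 ∧ d1 + d2 + d3 < 30 * (b - a)) (fun _ b _ => b = 0))
    (((Inc.union (iX _ _) iV).union (iX _ _)).union (iX _ _)) (iX _ _)
  nlinarith

/-- the two arms landing on the base -/
lemma arms (h : Perc p η M) {n m : ℤ} (hn : TOk M n (2 * n + 1) (2 * n + 1)) :
    p (AA n (2 * n + 1) (2 * n + 1) m) ≤ p (AB (2 * n + 1) n (2 * n + 1) m) + η ∧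
    p (AA n (2 * n + 1) (2 * n + 1) m) ≤ p (AB (2 * n + 1) (2 * n + 1) n m) + η :=
  ⟨h.cyc hn (by simp only [TOk] at *; omega) (by ring) (fun _ _ _ h => by omega)
      fun _ _ _ h => by omega,
    h.sw13 hn (by simp only [TOk] at *; omega) (by ring) (fun _ _ _ h => by omega)
      fun _ _ _ h => by omega⟩

lemma inc_AB {n m : ℤ} (hn : TOk M n (2 * n + 1) (2 * n + 1)) :
    Inc (Bx 0 M) (AB (2 * n + 1) n (2 * n + 1) m) ∧ Inc (Bx 0 M) (AB (2 * n + 1) (2 * n + 1) n m) :=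
  ⟨inc_X (TOk.sub (by simp only [TOk] at *; omega)) _ _,
    inc_X (TOk.sub (by simp only [TOk] at *; omega)) _ _⟩

/-- the cascade step -/
lemma step (h : Perc p η M) {n m : ℤ} (hn : TOk M n (2 * n + 1) (2 * n + 1))
    (hn' : TOk M (2 * n + 1) (4 * n + 3) (4 * n + 3)) (hm : m ≤ 2 * n + 1) (h3 : 3 ≤ n)
    {c φ : ℝ} (hc : 0 < c)
    (h1 : c ≤ p (EE (2 * n + 1) (4 * n + 3) (4 * n + 3)))
    (h2 : c ≤ p (EE' (2 * n + 1) (4 * n + 3) (4 * n + 3)))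
    (hφ : p (Br (2 * n + 1) (4 * n + 3) (4 * n + 3)) ≤ φ) (hη : η ≤ c ^ 2 / 16)
    (hφ1 : φ ≤ c ^ 3 / 24) (hφ2 : φ ≤ c ^ 6 / 64)
    (ha : c ^ 2 / 2 ≤ p (AA n (2 * n + 1) (2 * n + 1) m)) :
    c ^ 2 / 2 ≤ p (AA (2 * n + 1) (4 * n + 3) (4 * n + 3) m) := by
  have s := h.split hn' (by omega) m hc h1 h2 hφ
  have a := h.arms (m := m) hn
  have i := inc_AB (m := m) hn
  have iV : Inc (Bx 0 M) (AV (2 * n + 1) (4 * n + 3) (4 * n + 3) m) :=
    inc_X (Set.sdiff_subset.trans hn'.sub) _ _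
  have hc2 : 0 < c ^ 2 / 4 := by positivity
  have e := (h.fkg' (iV.inter i.1) i.2 (h.fkg' iV i.1 le_rfl (y := c ^ 2 / 4) (by linarith [a.1])
    hc2.le) (y := c ^ 2 / 4) (by linarith [a.2]) hc2.le).trans
    ((h.mono _ _ (AV_sub hn.2.2.2.1 hm)).trans (hφ.trans hφ2))
  have e1 : p (AV (2 * n + 1) (4 * n + 3) (4 * n + 3) m) ≤ c ^ 2 / 4 := by
    by_contra hlt
    have := mul_lt_mul_of_pos_right (not_le.1 hlt) (mul_pos hc2 hc2)
    nlinarith
  have e2 : φ / c ≤ c ^ 2 / 24 := by rw [div_le_iff₀ hc]; nlinarith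
  linarith

lemma site (h : Perc p η M) {c0 : ℝ} (hM : 3 ≤ M) (h1 : c0 ≤ p (EE 1 1 1)) {x : V}
    (hx : x ∈ Bx 0 M) (ho : x.2 % 2 = 1) : c0 / 3 - η ≤ p (XC {x} Set.univ Set.univ) := by
  have b : ∀ u : ℤ, -1 ≤ u → u ≤ 1 → ({(u, -1)} : Set V) ⊆ Bx 0 M := by
    rintro u h1 h2 _ rfl; simp only [mem_Bx0]; omega
  have b3 : ({x} : Set V) ⊆ Bx 0 M := by rintro _ rfl; exact hx
  have s : EE 1 1 1 ⊆ XC {(-1, -1)} Set.univ Set.univ ∪ XC {(0, -1)} Set.univ Set.univ ∪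
      XC {(1, -1)} Set.univ Set.univ := by
    rintro ω ⟨u, hu, v, -, h⟩
    have h2 := h.left
    have h3 := h2.2
    simp only [Set.mem_ofPred_eq, mem_Tri] at hu h3
    rcases (by omega : u.1 = -1 ∨ u.1 = 0 ∨ u.1 = 1) with h4 | h4 | h4
    · exact Or.inl (Or.inl ⟨u, trivial, u, trivial,
        Conn.refl ⟨h2.1, Prod.ext h4 (by simp only; omega)⟩⟩)
    · exact Or.inl (Or.inr ⟨u, trivial, u, trivial,
        Conn.refl ⟨h2.1, Prod.ext h4 (by simp only; omega)⟩⟩)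
    · exact Or.inr ⟨u, trivial, u, trivial, Conn.refl ⟨h2.1, Prod.ext h4 (by simp only; omega)⟩⟩
  have i1 := inc_X (b (-1) (by omega) (by omega)) Set.univ Set.univ
  have i2 := inc_X (b 0 (by omega) (by omega)) Set.univ Set.univ
  have i3 := inc_X (b 1 (by omega) (by omega)) Set.univ Set.univ
  have e := h1.trans ((h.mono _ _ s).trans ((h.sub _ _ (i1.union i2) i3).trans
    (add_le_add (h.sub _ _ i1 i2) le_rfl)))
  have e1 : ∀ u : ℤ, -1 ≤ u → u ≤ 1 →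
      p (XC {(u, -1)} Set.univ Set.univ) ≤ p (XC {x} Set.univ Set.univ) + η := by
    intro u u1 u2
    rcases Int.emod_two_eq_zero_or_one (x.1 - u) with h0 | h0
    · refine h.move 0 ((x.1 - u) / 2) ((x.2 + 1) / 2) (b u u1 u2) b3 ?_ (fun _ _ _ => trivial)
        fun _ _ _ => trivial
      rintro _ rfl
      refine Prod.ext ?_ ?_ <;> simp only [mvq, sy, Matrix.cons_val_zero] <;> omega
    · refine h.move 2 ((x.1 + u - 1) / 2) ((x.2 + 1) / 2) (b u u1 u2) b3 ?_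
        (fun _ _ _ => trivial) fun _ _ _ => trivial
      rintro _ rfl
      refine Prod.ext ?_ ?_ <;> simp only [mvq, sy, Matrix.cons_val] <;> omega
  linarith [e1 (-1) (by omega) (by omega), e1 0 (by omega) (by omega), e1 1 (by omega) (by omega)]

lemma base (h : Perc p η M) {c : ℝ} (hc : 0 ≤ c) (hM : 487 ≤ M) (h1 : 2 * c ≤ p (EE 1 1 1))
    (hη : η ≤ c / 6) : (c / 2) ^ 10 ≤ p (Br 97 195 195) := by
  have hb : ∀ i : ℕ, i ≤ 9 → ((i : ℤ), (-97 : ℤ)) ∈ Bx 0 M := fun i hi => by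
    simp only [mem_Bx0]; omega
  refine (h.pow_le (A := fun i => XC {((i : ℤ), (-97 : ℤ))} Set.univ Set.univ) (by positivity) 9
    (fun i hi => inc_X (by rintro _ rfl; exact hb i hi) _ _) fun i hi => by
      have := h.site (by omega) h1 (hb i hi) (by simp)
      linarith).trans (h.mono _ _ fun ω hω => ⟨(0, -97), (9, -97), rfl, rfl, by norm_num,
        conn_row (by norm_num) fun k h1 h2 => ⟨?_, by simp only [mem_Tri]; omega⟩⟩)
  obtain ⟨u, -, v, -, h3⟩ := Set.mem_iInter₂.1 hω k.toNat (by simp only [Set.mem_ofPred_eq]; omega)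
  have := h3.left
  rw [Int.toNat_of_nonneg h1] at this
  exact this.2 ▸ this.1

end Perc

/-- the scales of the cascade -/
def nk (k : ℕ) : ℤ := 98 * 2 ^ k - 1

lemma nk_succ (k : ℕ) : nk (k + 1) = 2 * nk k + 1 := by unfold nk; ring

lemma nk_mono {i j : ℕ} (h : i ≤ j) : nk i ≤ nk j := by
  unfold nk
  have : (2 : ℤ) ^ i ≤ 2 ^ j := pow_le_pow_right₀ (by norm_num) h
  omega

lemma nk_ge (k : ℕ) : 97 ≤ nk k := nk_mono (Nat.zero_le k)

lemma nk_odd (k : ℕ) : nk k % 2 = 1 := by unfold nk; omega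

lemma nk_ok {M : ℤ} {k : ℕ} (h : 5 * nk k + 2 ≤ M) : TOk M (nk k) (2 * nk k + 1) (2 * nk k + 1) := by
  have := nk_ge k; have := nk_odd k
  simp only [TOk]; omega

/-- bridges have positive probability near every scale -/
theorem cascade {c0 : ℝ} (hc0 : 0 < c0) : ∃ η0 > 0, ∃ φ > 0, ∀ (p : Set (Set V) → ℝ) (η : ℝ)
    (M : ℤ), Perc p η M → η ≤ η0 → (∀ d1 d2 d3, TOk M d1 d2 d3 → c0 ≤ p (EE d1 d2 d3)) →
    ∀ k : ℕ, 23 * (5 * nk k + 2) ≤ M →
      ∃ j ≤ k, k ≤ j + 4 ∧ φ ≤ p (Br (nk j) (2 * nk j + 1) (2 * nk j + 1)) := by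
  classical
  obtain ⟨c, hc, rfl⟩ : ∃ c, 0 < c ∧ c0 = 2 * c := ⟨c0 / 2, by positivity, by ring⟩
  obtain ⟨φ0, hφ0, f1, f2, f3⟩ : ∃ φ0 > 0, φ0 ≤ c ^ 3 / 24 ∧ φ0 ≤ c ^ 6 / 64 ∧
      φ0 ≤ (c / 2) ^ 10 :=
    ⟨min (c ^ 3 / 24) (min (c ^ 6 / 64) ((c / 2) ^ 10)), by positivity, min_le_left _ _,
      (min_le_right _ _).trans (min_le_left _ _), (min_le_right _ _).trans (min_le_right _ _)⟩
  obtain ⟨q, hq, hq'⟩ : ∃ q > 0, 2 * q = (φ0 / 120000) ^ (240 * (10 + 1) + 1) :=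
    ⟨(φ0 / 120000) ^ (240 * (10 + 1) + 1) / 2, by positivity, by ring⟩
  obtain ⟨η0, hη0, g1, g2, g3, g4⟩ : ∃ η0 > 0, η0 ≤ c / 6 ∧ η0 ≤ c ^ 2 / 16 ∧
      η0 ≤ φ0 / 120000 ∧ η0 ≤ q :=
    ⟨min (min (c / 6) (c ^ 2 / 16)) (min (φ0 / 120000) q), by positivity,
      (min_le_left _ _).trans (min_le_left _ _), (min_le_left _ _).trans (min_le_right _ _),
      (min_le_right _ _).trans (min_le_left _ _), (min_le_right _ _).trans (min_le_right _ _)⟩
  refine ⟨η0, hη0, min φ0 (q ^ 4 * (c ^ 2 / 4) * (c ^ 2 / 4)), by positivity,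
    fun p η M h hη hE k hk => ?_⟩
  have hk0 := nk_ge k
  have ok : ∀ i ≤ k, TOk M (nk i) (2 * nk i + 1) (2 * nk i + 1) := fun i hi =>
    nk_ok (by have := nk_mono hi; omega)
  have hE1 : ∀ d1 d2 d3, TOk M d1 d2 d3 → c ≤ p (EE d1 d2 d3) := fun d1 d2 d3 hd => by
    linarith [hE d1 d2 d3 hd]
  have hE2 : ∀ d1 d2 d3, TOk M d1 d2 d3 → c ≤ p (EE' d1 d2 d3) := fun d1 d2 d3 hd => by
    have : p (EE d1 d2 d3) ≤ p (EE' d1 d2 d3) + η :=
      h.sw23 hd hd rfl (fun _ _ _ h => h) fun _ _ _ h => h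
    linarith [hE d1 d2 d3 hd]
  set P : ℕ → Prop := fun j => φ0 ≤ p (Br (nk j) (2 * nk j + 1) (2 * nk j + 1)) with hP
  have P0 : P 0 := f3.trans (h.base hc.le (by omega) (hE 1 1 1 (by simp only [TOk]; omega))
    (hη.trans g1))
  obtain ⟨j, hjk, hj, hmax⟩ : ∃ j ≤ k, P j ∧ ∀ i, j < i → i ≤ k → ¬P i :=
    ⟨Nat.findGreatest P k, Nat.findGreatest_le k, Nat.findGreatest_spec (Nat.zero_le k) P0,
      fun i h1 h2 => Nat.findGreatest_is_greatest h1 h2⟩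
  by_cases hkj : k ≤ j + 4
  · exact ⟨j, hjk, hkj, (min_le_left _ _).trans hj⟩
  refine ⟨k, le_rfl, by omega, (min_le_right _ _).trans ?_⟩
  have hj0 := nk_ge j
  have arm : ∀ i, j + 1 ≤ i → i ≤ k →
      c ^ 2 / 2 ≤ p (AA (nk i) (2 * nk i + 1) (2 * nk i + 1) (4 * nk j + 3)) := by
    intro i hi
    induction i, hi using Nat.le_induction with
    | base =>
      intro hi
      have s := h.split (ok _ hi) (by have := nk_ge (j + 1); omega) (4 * nk j + 3) hc (hE1 _ _ _ (ok _ hi)) (hE2 _ _ _ (ok _ hi))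
        (not_le.1 (hmax _ (by omega) hi)).le
      have e : AV (nk (j + 1)) (2 * nk (j + 1) + 1) (2 * nk (j + 1) + 1) (4 * nk j + 3) = ∅ := by
        refine Set.eq_empty_of_forall_notMem ?_
        rintro ω ⟨u, -, v, -, h1⟩
        have h2 := h1.left.2
        refine h2.2 ?_
        have h3 := h2.1
        simp only [mem_Tri, nk_succ] at *; omega
      have e2 : φ0 / c ≤ c ^ 2 / 24 := by rw [div_le_iff₀ hc]; nlinarith
      rw [e, h.empty] at s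
      nlinarith [sq_nonneg c]
    | succ i hi ih =>
      intro hik
      have o := ok _ hik
      have m1 := not_le.1 (hmax (i + 1) (by omega) hik)
      have m2 := nk_mono hi
      have e : 2 * (2 * nk i + 1) + 1 = 4 * nk i + 3 := by ring
      rw [nk_succ] at m2
      rw [nk_succ, e] at o m1 ⊢
      exact h.step (ok i (by omega)) o (by omega) (by omega) hc (hE1 _ _ _ o) (hE2 _ _ _ o) m1.le
        (hη.trans g2) f1 f2 (ih (by omega))
  obtain ⟨i, rfl⟩ : ∃ i, k = i + 1 := ⟨k - 1, by omega⟩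
  have m3 : nk (j + 4) ≤ nk i := nk_mono (by omega)
  simp only [nk_succ] at m3 hk ⊢
  have e : 2 * (2 * nk i + 1) + 1 = 4 * nk i + 3 := by ring
  rw [e]
  have lg : ∀ {x x' y y' : ℤ}, x ≤ x' → x' + 1 ≤ x + 10 * (5 * nk j + 2) →
      y + (5 * nk j + 2) + 1 ≤ y' → -M ≤ x → x' ≤ M → -M ≤ y → y' ≤ M →
      q ≤ p {ω | LR ω x x' y y'} ∧ q ≤ p {ω | BT ω y y' x x'} := by
    intro x x' y y' a1 a2 a3 a4 a5 a6 a7
    have := h.long (by omega) (by omega) (by omega) (by omega) hj (hη.trans g3) 10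
      (by push_cast; omega) a1 (by push_cast; omega) (y := y) (y' := y') (by omega) a4 a5 a6 a7
    rw [← hq'] at this
    constructor <;> linarith [this.1, this.2]
  have hb : Bx 0 (6 * (4 * nk j + 3)) ⊆ Bx 0 M := fun v hv => by
    simp only [mem_Bx0] at *; omega
  have rg := h.ring_of (z := 0) (m := 2 * (4 * nk j + 3)) (m' := 6 * (4 * nk j + 3)) (by omega) hb
    (by omega) hq.le
    (lg (by simp only [Prod.fst_zero]; omega) (by simp only [Prod.fst_zero]; omega)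
      (by simp only [Prod.snd_zero]; omega) (by simp only [Prod.fst_zero]; omega)
      (by simp only [Prod.fst_zero]; omega) (by simp only [Prod.snd_zero]; omega)
      (by simp only [Prod.snd_zero]; omega)).1
    (lg (by simp only [Prod.fst_zero]; omega) (by simp only [Prod.fst_zero]; omega)
      (by simp only [Prod.snd_zero]; omega) (by simp only [Prod.fst_zero]; omega)
      (by simp only [Prod.fst_zero]; omega) (by simp only [Prod.snd_zero]; omega)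
      (by simp only [Prod.snd_zero]; omega)).1
    (lg (by simp only [Prod.snd_zero]; omega) (by simp only [Prod.snd_zero]; omega)
      (by simp only [Prod.fst_zero]; omega) (by simp only [Prod.snd_zero]; omega)
      (by simp only [Prod.snd_zero]; omega) (by simp only [Prod.fst_zero]; omega)
      (by simp only [Prod.fst_zero]; omega)).2
    (lg (by simp only [Prod.snd_zero]; omega) (by simp only [Prod.snd_zero]; omega)
      (by simp only [Prod.fst_zero]; omega) (by simp only [Prod.snd_zero]; omega)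
      (by simp only [Prod.snd_zero]; omega) (by simp only [Prod.fst_zero]; omega)
      (by simp only [Prod.fst_zero]; omega)).2
  have oi := ok i (by omega)
  have a := h.arms (m := 4 * nk j + 3) oi
  have ia := Perc.inc_AB (m := 4 * nk j + 3) oi
  have a0 := arm i (by omega) (by omega)
  have iR : Inc (Bx 0 M) {ω | Blk ωᶜ (Bx 0 (2 * (4 * nk j + 3))) (Bx 0 (6 * (4 * nk j + 3)))ᶜ} :=
    inc_blk fun v hv => hb (not_not.1 fun h => hv (Or.inr h))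
  have hc2 : 0 < c ^ 2 / 4 := by positivity
  exact (h.fkg' (iR.inter ia.1) ia.2 (h.fkg' iR ia.1 rg (y := c ^ 2 / 4) (by linarith [a.1])
    hc2.le) (y := c ^ 2 / 4) (by linarith [a.2]) hc2.le).trans
    (h.mono _ _ (ring_sub (by omega) (by omega)))

/-- RSW theorem: long crossings at every scale, everywhere in the window -/
theorem rsw {c0 : ℝ} (hc0 : 0 < c0) (L : ℕ) : ∃ η0 > 0, ∃ c > 0, ∀ (p : Set (Set V) → ℝ) (η : ℝ)
    (M : ℤ), Perc p η M → η ≤ η0 → (∀ d1 d2 d3, TOk M d1 d2 d3 → c0 ≤ p (EE d1 d2 d3)) →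
    ∀ n : ℤ, 500 ≤ n → (66 * L + 23) * n ≤ M → ∀ x x' y y' : ℤ, x ≤ x' → x' ≤ x + L * n →
      y + n ≤ y' → -M ≤ x → x' ≤ M → -M ≤ y → y' ≤ M →
      c ≤ p {ω | LR ω x x' y y'} ∧ c ≤ p {ω | BT ω y y' x x'} := by
  classical
  obtain ⟨η0, hη0, φ, hφ, H⟩ := cascade hc0
  obtain ⟨q, hq, hq'⟩ : ∃ q > 0, 2 * q = (φ / 120000) ^ (240 * ((33 * L + 1) + 1) + 1) :=
    ⟨(φ / 120000) ^ (240 * ((33 * L + 1) + 1) + 1) / 2, by positivity, by ring⟩
  refine ⟨min η0 (min (φ / 120000) q), by positivity, q, hq,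
    fun p η M h hη hE n hn hM x x' y y' a1 a2 a3 a4 a5 a6 a7 => ?_⟩
  have ex : ∃ k : ℕ, n < 5 * nk (k + 1) + 3 := by
    refine ⟨n.toNat, ?_⟩
    have : (n.toNat : ℤ) < 2 ^ (n.toNat + 1) := by
      exact_mod_cast (Nat.lt_succ_self _).trans (Nat.lt_two_pow_self)
    unfold nk; omega
  obtain ⟨k, hk1, hk2⟩ : ∃ k : ℕ, n < 5 * nk (k + 1) + 3 ∧ 5 * nk k + 3 ≤ n := by
    refine ⟨Nat.find ex, Nat.find_spec ex, ?_⟩
    rcases Nat.eq_zero_or_pos (Nat.find ex) with h0 | h0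
    · rw [h0]; simp only [nk]; omega
    · have := Nat.find_min ex (m := Nat.find ex - 1) (by omega)
      rw [Nat.sub_add_cancel h0] at this
      omega
  have hL : 0 ≤ (L : ℤ) * n := by positivity
  obtain ⟨j, hjk, hkj, hj⟩ := H p η M h (hη.trans (min_le_left _ _)) hE k (by nlinarith)
  have m1 := nk_mono hjk
  have m2 : nk (k + 1) ≤ nk (j + 5) := nk_mono (by omega)
  have m0 := nk_ge j
  simp only [nk_succ] at m2 hk1
  have hnH : n ≤ 33 * (5 * nk j + 2) := by omega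
  have e : nk j + (2 * nk j + 1) + (2 * nk j + 1) = 5 * nk j + 2 := by ring
  have := h.long (by omega) (by omega) (by omega) (by omega) hj
    (hη.trans ((min_le_right _ _).trans (min_le_left _ _))) (33 * L + 1)
    (by rw [e]; push_cast; nlinarith) a1 (by rw [e]; push_cast; nlinarith) (y := y) (y' := y')
    (by omega) a4 a5 a6 a7
  rw [← hq'] at this
  have hηq := hη.trans ((min_le_right _ _).trans (min_le_right _ _))
  constructor <;> linarith [this.1, this.2]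

/-- RSW theorem for rings -/
theorem rsw_ring {c0 : ℝ} (hc0 : 0 < c0) (L : ℕ) : ∃ η0 > 0, ∃ c > 0, ∀ (p : Set (Set V) → ℝ)
    (η : ℝ) (M : ℤ), Perc p η M → η ≤ η0 →
    (∀ d1 d2 d3, TOk M d1 d2 d3 → c0 ≤ p (EE d1 d2 d3)) →
    ∀ n : ℤ, 500 ≤ n → (66 * L + 23) * n ≤ M → ∀ (z : V) (m m' : ℤ), 0 ≤ m → m + n + 1 ≤ m' →
      2 * m' ≤ L * n → Bx z m' ⊆ Bx 0 M → c ≤ p {ω | Blk ωᶜ (Bx z m) (Bx z m')ᶜ} := by
  obtain ⟨η0, hη0, c, hc, H⟩ := rsw hc0 L
  refine ⟨η0, hη0, c ^ 4, by positivity, fun p η M h hη hE n hn hM z m m' a1 a2 a3 a4 => ?_⟩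
  have b1 := a4 (a := (z.1 - m', z.2 - m')) (by simp only [mem_Bx]; omega)
  have b2 := a4 (a := (z.1 + m', z.2 + m')) (by simp only [mem_Bx]; omega)
  simp only [mem_Bx0] at b1 b2
  have K := H p η M h hη hE n hn hM
  exact h.ring_of (by omega) a4 a1 hc.le
    (K _ _ _ _ (by omega) (by omega) (by omega) (by omega) (by omega) (by omega) (by omega)).1
    (K _ _ _ _ (by omega) (by omega) (by omega) (by omega) (by omega) (by omega) (by omega)).1
    (K _ _ _ _ (by omega) (by omega) (by omega) (by omega) (by omega) (by omega) (by omega)).2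
    (K _ _ _ _ (by omega) (by omega) (by omega) (by omega) (by omega) (by omega) (by omega)).2

end Pool.Agent.Lib.MP_6359c9_pr
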