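import Pool.Agent.Lib.MP_6359c9_pr.Box

/-! General RSW theory by a triangle cascade: the setting and long crossings from a bridge. -/

namespace Pool.Agent.Lib.MP_6359c9_pr

/-- the event is increasing and depends only on the sites of `W` -/
def Inc (W : Set V) (A : Set (Set V)) : Prop := ∀ ω ω' : Set V, ω ∩ W ⊆ ω' → ω ∈ A → ω' ∈ A

/-- crossing event -/
def XC (R A B : Set V) : Set (Set V) := {ω | Cr (ω ∩ R) A B}

/-- the six linear symmetries of an upward triangle -/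
def sy (i : Fin 6) (v : V) : V :=
  ![(v.1, v.2), (v.2, v.1), (-v.1 - v.2, v.2), (v.1, -v.1 - v.2), (v.2, -v.1 - v.2),
    (-v.1 - v.2, v.1)] i

/-- a symmetry followed by an even translation -/
def mvq (i : Fin 6) (a b : ℤ) (v : V) : V := ((sy i v).1 + 2 * a, (sy i v).2 + 2 * b)

/-- a positively associated, almost invariant functional on events in the window `Bx 0 M` -/
structure Perc (p : Set (Set V) → ℝ) (η : ℝ) (M : ℤ) : Prop where
  eta : 0 ≤ η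
  empty : p ∅ = 0
  nonneg : ∀ A, 0 ≤ p A
  le_one : ∀ A, p A ≤ 1
  mono : ∀ A B, A ⊆ B → p A ≤ p B
  sub : ∀ A B, Inc (Bx 0 M) A → Inc (Bx 0 M) B → p (A ∪ B) ≤ p A + p B
  fkg : ∀ A B, Inc (Bx 0 M) A → Inc (Bx 0 M) B → p A * p B ≤ p (A ∩ B)
  inv : ∀ i a b R A B, R ⊆ Bx 0 M → mvq i a b '' R ⊆ Bx 0 M →
    p (XC R A B) ≤ p (XC (mvq i a b '' R) (mvq i a b '' A) (mvq i a b '' B)) + η

lemma Inc.inter {W : Set V} {A B : Set (Set V)} (hA : Inc W A) (hB : Inc W B) : Inc W (A ∩ B) :=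
  fun ω ω' h h' => ⟨hA ω ω' h h'.1, hB ω ω' h h'.2⟩

lemma Inc.union {W : Set V} {A B : Set (Set V)} (hA : Inc W A) (hB : Inc W B) : Inc W (A ∪ B) :=
  fun ω ω' h h' => h'.imp (hA ω ω' h) (hB ω ω' h)

lemma Inc.mono {W W' : Set V} {A : Set (Set V)} (hA : Inc W A) (h : W ⊆ W') : Inc W' A :=
  fun ω ω' h1 h2 => hA ω ω' (fun _ hx => h1 ⟨hx.1, h hx.2⟩) h2

lemma inc_X {W R : Set V} (h : R ⊆ W) (A B : Set V) : Inc W (XC R A B) :=
  fun _ _ h1 h2 => Cr.mono h2 (fun _ hx => ⟨h1 ⟨hx.1, h hx.2⟩, hx.2⟩) subset_rfl subset_rfl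

lemma inc_biInter {W : Set V} {ι : Type} {s : Set ι} {A : ι → Set (Set V)}
    (h : ∀ i ∈ s, Inc W (A i)) : Inc W (⋂ i ∈ s, A i) := fun ω ω' h1 h2 =>
  Set.mem_iInter₂.2 fun i hi => h i hi ω ω' h1 (Set.mem_iInter₂.1 h2 i hi)

lemma inc_biUnion {W : Set V} {ι : Type} {s : Set ι} {A : ι → Set (Set V)}
    (h : ∀ i ∈ s, Inc W (A i)) : Inc W (⋃ i ∈ s, A i) := fun ω ω' h1 h2 => by
  obtain ⟨i, hi, h3⟩ := Set.mem_iUnion₂.1 h2
  exact Set.mem_iUnion₂.2 ⟨i, hi, h i hi ω ω' h1 h3⟩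

lemma inc_blk {W I O : Set V} (h : (I ∪ O)ᶜ ⊆ W) : Inc W {ω | Blk ωᶜ I O} :=
  fun _ _ h1 h2 => Blk.anti h2 fun _ hx hy => hx.1 (h1 ⟨hy, h hx.2⟩)

lemma X_mono {R A B R' A' B' : Set V} (hR : R ⊆ R') (hA : ∀ v ∈ R, v ∈ A → v ∈ A')
    (hB : ∀ v ∈ R, v ∈ B → v ∈ B') : XC R A B ⊆ XC R' A' B' := by
  rintro ω ⟨u, hu, v, hv, h⟩
  exact ⟨u, hA u h.left.2 hu, v, hB v h.right.2 hv, h.mono fun _ hx => ⟨hx.1, hR hx.2⟩⟩

lemma X_restr (R A B : Set V) : XC R A B = XC R (A ∩ R) (B ∩ R) :=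
  Set.Subset.antisymm (X_mono subset_rfl (fun _ h h' => ⟨h', h⟩) fun _ h h' => ⟨h', h⟩)
    (X_mono subset_rfl (fun _ _ h' => h'.1) fun _ _ h' => h'.1)

namespace Perc

variable {p : Set (Set V) → ℝ} {η : ℝ} {M : ℤ}

/-- invariance in the form of maps into larger sets -/
lemma move (h : Perc p η M) (i : Fin 6) (a b : ℤ) {R A B R' A' B' : Set V} (hR : R ⊆ Bx 0 M)
    (hR' : R' ⊆ Bx 0 M) (h1 : ∀ v ∈ R, mvq i a b v ∈ R') (h2 : ∀ v ∈ R, v ∈ A → mvq i a b v ∈ A')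
    (h3 : ∀ v ∈ R, v ∈ B → mvq i a b v ∈ B') : p (XC R A B) ≤ p (XC R' A' B') + η := by
  have hs : mvq i a b '' R ⊆ R' := by rintro _ ⟨v, hv, rfl⟩; exact h1 v hv
  rw [X_restr R]
  refine (h.inv i a b R _ _ hR (hs.trans hR')).trans (add_le_add (h.mono _ _ (X_mono hs ?_ ?_))
    le_rfl)
  · rintro _ - ⟨v, hv, rfl⟩; exact h2 v hv.2 hv.1
  · rintro _ - ⟨v, hv, rfl⟩; exact h3 v hv.2 hv.1

lemma fkg' (h : Perc p η M) {A B : Set (Set V)} (hA : Inc (Bx 0 M) A) (hB : Inc (Bx 0 M) B)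
    {x y : ℝ} (hx : x ≤ p A) (hy : y ≤ p B) (hy0 : 0 ≤ y) : x * y ≤ p (A ∩ B) :=
  (mul_le_mul hx hy hy0 (h.nonneg A)).trans (h.fkg A B hA hB)

lemma pow_le (h : Perc p η M) {A : ℕ → Set (Set V)} {q : ℝ} (hq : 0 ≤ q) (n : ℕ)
    (hA : ∀ i ≤ n, Inc (Bx 0 M) (A i)) (hp : ∀ i ≤ n, q ≤ p (A i)) :
    q ^ (n + 1) ≤ p (⋂ i ∈ {i | i ≤ n}, A i) := by
  induction n with
  | zero => simpa using hp 0 le_rfl
  | succ n ih =>
    have e : (⋂ i ∈ {i | i ≤ n + 1}, A i) = (⋂ i ∈ {i | i ≤ n}, A i) ∩ A (n + 1) := by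
      ext ω
      simp only [Set.mem_iInter, Set.mem_inter_iff, Set.mem_ofPred_eq]
      exact ⟨fun h => ⟨fun i hi => h i (by omega), h _ le_rfl⟩, fun h i hi => by
        rcases Nat.le_succ_iff.1 hi with h1 | rfl
        · exact h.1 i h1
        · exact h.2⟩
    rw [e, pow_succ]
    exact h.fkg' (inc_biInter fun i hi => hA i (Nat.le_succ_of_le hi)) (hA _ le_rfl)
      (ih (fun i hi => hA i (by omega)) fun i hi => hp i (by omega)) (hp _ le_rfl) hq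

lemma sum_le (h : Perc p η M) {ι : Type} (s : Finset ι) {A : ι → Set (Set V)}
    (hA : ∀ i ∈ s, Inc (Bx 0 M) (A i)) : p (⋃ i ∈ s, A i) ≤ ∑ i ∈ s, p (A i) := by
  classical
  induction s using Finset.induction_on with
  | empty => simp [h.empty]
  | insert a s ha ih =>
    rw [Finset.set_biUnion_insert, Finset.sum_insert ha]
    exact (h.sub _ _ (hA a (by simp)) (inc_biUnion (s := (s : Set ι)) fun i hi =>
      hA i (Finset.mem_insert_of_mem hi))).trans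
      (add_le_add le_rfl (ih fun i hi => hA i (Finset.mem_insert_of_mem hi)))

end Perc

/-- the triangle with sides on the lines `v = -d1`, `u = -d2`, `u + v = d3` -/
def Tri (d1 d2 d3 : ℤ) : Set V := {v | -d1 ≤ v.2 ∧ -d2 ≤ v.1 ∧ v.1 + v.2 ≤ d3}

lemma mem_Tri {d1 d2 d3 : ℤ} {v : V} :
    v ∈ Tri d1 d2 d3 ↔ -d1 ≤ v.2 ∧ -d2 ≤ v.1 ∧ v.1 + v.2 ≤ d3 := Iff.rfl

/-- a bridge: two far apart points of the base of the triangle are joined -/
def Br (d1 d2 d3 : ℤ) : Set (Set V) :=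
  {ω | ∃ x y : V, x.2 = -d1 ∧ y.2 = -d1 ∧ d1 + d2 + d3 ≤ 60 * (y.1 - x.1) + 30 ∧
    Conn (ω ∩ Tri d1 d2 d3) x y}

lemma inc_Br {W : Set V} {d1 d2 d3 : ℤ} (h : Tri d1 d2 d3 ⊆ W) : Inc W (Br d1 d2 d3) := by
  rintro ω ω' h1 ⟨x, y, h2, h3, h4, h5⟩
  exact ⟨x, y, h2, h3, h4, h5.mono fun _ hx => ⟨h1 ⟨hx.1, h hx.2⟩, hx.2⟩⟩

lemma Tri_sub {d1 d2 d3 M : ℤ} (h1 : 0 ≤ d1) (h2 : 0 ≤ d2) (h3 : 0 ≤ d3) (h : d1 + d2 + d3 ≤ M) :
    Tri d1 d2 d3 ⊆ Bx 0 M := fun v hv => by simp only [mem_Tri, mem_Bx0] at *; omega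

/-- two interlaced paths above a line meet -/
lemma cross_base {S : Set V} {y : ℤ} (hS : ∀ w ∈ S, y ≤ w.2) {a b c e : V} (ha : a.2 = y)
    (hb : b.2 = y) (hc : c.2 = y) (he : e.2 = y) (h1 : a.1 < b.1) (h2 : b.1 < c.1)
    (h3 : c.1 < e.1) (k1 : Conn S a c) (k2 : Conn S b e) : Conn S a b :=
  Conn.cross (R := S) (sa := .B) (sb := .B) (sc := .B) (se := .B) subset_rfl
    (fun w hw => ha ▸ hS w hw) (fun w hw => hb ▸ hS w hw) (fun w hw => hc ▸ hS w hw)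
    (fun w hw => he ▸ hS w hw) k1 k2 (by simp only [Aft]; omega)

/-- window of the base -/
def Win (y x w : ℤ) : Set V := {v | v.2 = y ∧ x ≤ v.1 ∧ v.1 < x + w}

lemma chain_w {ω : Set V} {d1 d2 d3 α β w : ℤ} (hw : 0 < w) (hαβ : α + 2 * w ≤ β) (k : ℕ)
    (h : ∀ r ≤ k, ω ∈ XC (Tri d1 (d2 - r * w) (d3 + r * w)) (Win (-d1) (α + r * w) w)
      (Win (-d1) (β + r * w) w)) :
    ∃ x ∈ Win (-d1) α w, ∃ a ∈ Win (-d1) (α + k * w) w, ∃ c ∈ Win (-d1) (β + k * w) w,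
      Conn (ω ∩ Rec (-d2) (d1 + d3 + k * w) (-d1) (d2 + d3)) x a ∧
      Conn (ω ∩ Rec (-d2) (d1 + d3 + k * w) (-d1) (d2 + d3)) a c := by
  have sub : ∀ r : ℕ, ω ∩ Tri d1 (d2 - r * w) (d3 + r * w) ⊆
      ω ∩ Rec (-d2) (d1 + d3 + r * w) (-d1) (d2 + d3) := by
    intro r v hv
    have : 0 ≤ (r : ℤ) * w := by positivity
    refine ⟨hv.1, ?_⟩
    have := hv.2
    simp only [mem_Tri, mem_Rec] at *; omega
  induction k with
  | zero =>
    obtain ⟨a, ha, c, hc, h0⟩ := h 0 le_rfl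
    exact ⟨a, by simpa using ha, a, ha, c, hc, Conn.refl (sub 0 h0.left), h0.mono (sub 0)⟩
  | succ k ih =>
    obtain ⟨x, hx, a, ha, c, hc, h1, h2⟩ := ih fun r hr => h r (by omega)
    obtain ⟨a', ha', c', hc', h0⟩ := h (k + 1) le_rfl
    have sub2 : ω ∩ Rec (-d2) (d1 + d3 + k * w) (-d1) (d2 + d3) ⊆
        ω ∩ Rec (-d2) (d1 + d3 + (k + 1 : ℕ) * w) (-d1) (d2 + d3) := by
      intro v hv
      refine ⟨hv.1, ?_⟩
      have := hv.2
      simp only [mem_Rec, Nat.cast_add, Nat.cast_one, add_mul, one_mul] at *; omega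
    have h3 := h0.mono (sub (k + 1))
    refine ⟨x, hx, a', ha', c', hc', (h1.mono sub2).trans ?_, h3⟩
    simp only [Win, Set.mem_ofPred_eq, Nat.cast_add, Nat.cast_one, add_mul, one_mul] at ha hc ha' hc'
    exact cross_base (y := -d1) (fun w hw => hw.2.2.2.1) ha.1 ha'.1 hc.1 hc'.1 (by omega)
      (by omega) (by omega) (h2.mono sub2) h3

lemma exists_pairs (N : ℕ) : ∃ s : Finset (ℕ × ℕ),
    (∀ q, q ∈ s ↔ q.1 < N ∧ q.2 < N ∧ q.1 + 2 ≤ q.2) ∧ (s.card : ℝ) ≤ N * N := by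
  refine ⟨(Finset.range N ×ˢ Finset.range N).filter fun q => q.1 + 2 ≤ q.2,
    fun q => by simp [and_assoc], ?_⟩
  have := Finset.card_filter_le (Finset.range N ×ˢ Finset.range N) fun q => q.1 + 2 ≤ q.2
  rw [Finset.card_product, Finset.card_range] at this
  exact_mod_cast this

namespace Perc

variable {p : Set (Set V) → ℝ} {η : ℝ} {M : ℤ}

/-- a bridge gives a long crossing -/
lemma long0 (h : Perc p η M) {d1 d2 d3 : ℤ} (h1 : 0 ≤ d1) (h2 : 0 ≤ d2) (h3 : 0 ≤ d3)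
    (hH : 480 ≤ d1 + d2 + d3) {φ : ℝ} (hφ : φ ≤ p (Br d1 d2 d3)) (hη : η ≤ φ / 120000) (L : ℕ)
    (hM : (2 * L + 3) * (d1 + d2 + d3) ≤ M) :
    (φ / 120000) ^ (240 * (L + 1) + 1) ≤ p (XC (Rec (d1 + d3) (d1 + d3 + L * (d1 + d2 + d3))
      (-d1) (d2 + d3)) {v | v.1 = d1 + d3} {v | v.1 = d1 + d3 + L * (d1 + d2 + d3)}) := by
  classical
  set H := d1 + d2 + d3 with hHdef
  set w := 2 * (H / 240) with hw
  have hw1 : H ≤ 240 * w := by omega
  have hw2 : 120 * w ≤ H := by omega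
  have hw0 : 0 < w := by omega
  have hL0 : 0 ≤ (L : ℤ) * H := by positivity
  have hM' : 2 * (L * H) + 3 * H ≤ M := by linarith
  have hT : Tri d1 d2 d3 ⊆ Bx 0 M := Tri_sub h1 h2 h3 (by omega)
  obtain ⟨s, hs, hc⟩ := exists_pairs 241
  set A : ℕ × ℕ → Set (Set V) := fun q => XC (Tri d1 d2 d3) (Win (-d1) (-d2 + q.1 * w) w)
    (Win (-d1) (-d2 + q.2 * w) w) with hA
  have cov : Br d1 d2 d3 ⊆ ⋃ q ∈ s, A q := by
    rintro ω ⟨x, y, hx, hy, hxy, hc⟩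
    have tx := hc.left.2
    have ty := hc.right.2
    simp only [mem_Tri] at tx ty
    have key : ∀ z : ℤ, 0 ≤ z → z ≤ H → ∃ i : ℕ, i < 241 ∧ i * w ≤ z ∧ z < i * w + w := by
      intro z hz hz'
      have e1 := Int.ediv_mul_le z hw0.ne'
      have e2 := Int.lt_ediv_add_one_mul_self z hw0
      have e3 : 0 ≤ z / w := Int.ediv_nonneg hz hw0.le
      have e4 : z / w ≤ 240 := by nlinarith
      refine ⟨(z / w).toNat, by omega, ?_, ?_⟩ <;> rw [Int.toNat_of_nonneg e3] <;> linarith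
    obtain ⟨i, hi, i1, i2⟩ := key (x.1 + d2) (by omega) (by omega)
    obtain ⟨j, hj, j1, j2⟩ := key (y.1 + d2) (by omega) (by omega)
    have hij : i + 2 ≤ j := by
      by_contra hn
      have : (j : ℤ) ≤ i + 1 := by omega
      have := mul_le_mul_of_nonneg_right this hw0.le
      rw [add_mul, one_mul] at this
      omega
    refine Set.mem_iUnion₂.2 ⟨(i, j), (hs _).2 ⟨hi, hj, hij⟩, x, ?_, y, ?_, hc⟩ <;>
      simp only [Win, Set.mem_ofPred_eq] <;> omega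
  have hsum := hφ.trans ((h.mono _ _ cov).trans (h.sum_le s fun q _ => inc_X hT _ _))
  have hη0 := h.eta
  obtain ⟨q, hq, hpq⟩ : ∃ q ∈ s, φ / 60000 ≤ p (A q) := by
    by_contra hn
    push Not at hn
    push_cast at hc
    have h02 : (0, 2) ∈ s := by simp [hs]
    have hlt := Finset.sum_lt_sum_of_nonempty ⟨_, h02⟩ hn
    rw [Finset.sum_const, nsmul_eq_mul] at hlt
    have hφ0 : 0 ≤ φ := by linarith
    nlinarith
  have hq2 : (q.1 : ℤ) + 2 ≤ q.2 := by exact_mod_cast ((hs q).1 hq).2.2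
  obtain ⟨k, hk⟩ : ∃ k, k = 240 * (L + 1) := ⟨_, rfl⟩
  rw [← hk]
  have hkw : ∀ r ≤ k, (r : ℤ) * w ≤ 2 * (L * H) + 2 * H := by
    intro r hr
    have : (r : ℤ) ≤ 240 * (L + 1) := by exact_mod_cast hk ▸ hr
    nlinarith
  have hTr : ∀ r ≤ k, Tri d1 (d2 - r * w) (d3 + r * w) ⊆ Bx 0 M := by
    intro r hr v hv
    have := hkw r hr
    have : 0 ≤ (r : ℤ) * w := by positivity
    simp only [mem_Tri, mem_Bx0] at *; omega
  have hpow := h.pow_le (A := fun r => XC (Tri d1 (d2 - r * w) (d3 + r * w))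
      (Win (-d1) (-d2 + q.1 * w + r * w) w) (Win (-d1) (-d2 + q.2 * w + r * w) w))
    (q := φ / 120000) (by linarith) k (fun r hr => inc_X (hTr r hr) _ _) fun r hr => by
      have e : 2 * ((r : ℤ) * (H / 240)) = r * w := by rw [hw]; ring
      have := h.move 0 (r * (H / 240)) 0 (A := Win (-d1) (-d2 + q.1 * w) w)
        (B := Win (-d1) (-d2 + q.2 * w) w) (A' := Win (-d1) (-d2 + q.1 * w + r * w) w)
        (B' := Win (-d1) (-d2 + q.2 * w + r * w) w) hT (hTr r hr)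
        (fun v hv => by simp only [mvq, sy, mem_Tri, Matrix.cons_val_zero, e] at *; omega)
        (fun v _ hv => by
          simp only [mvq, sy, Win, Set.mem_ofPred_eq, Matrix.cons_val_zero, e] at *; omega)
        (fun v _ hv => by
          simp only [mvq, sy, Win, Set.mem_ofPred_eq, Matrix.cons_val_zero, e] at *; omega)
      simp only [hA] at hpq
      linarith
  refine hpow.trans (h.mono _ _ fun ω hω => ?_)
  obtain ⟨x, hx, a, -, c, hc, k1, k2⟩ := chain_w (ω := ω) (d1 := d1) (d2 := d2) (d3 := d3)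
    (α := -d2 + q.1 * w) (β := -d2 + q.2 * w) hw0 (by nlinarith) k
    fun r hr => Set.mem_iInter₂.1 hω r hr
  have hx1 : x.1 ≤ d1 + d3 := by
    have hq1 : (q.2 : ℤ) ≤ 240 := by
      have := ((hs q).1 hq).2.1
      omega
    obtain ⟨u, hu, v, hv, k3⟩ := Set.mem_iInter₂.1 hω 0 (Nat.zero_le k)
    have := k3.right.2
    simp only [Win, Set.mem_ofPred_eq, mem_Tri, Nat.cast_zero, zero_mul, add_zero, sub_zero] at *
    nlinarith
  have hc1 : d1 + d3 + L * H ≤ c.1 := by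
    have e : (k : ℤ) * w = (L + 1) * (240 * w) := by rw [hk]; push_cast; ring
    have : ((L : ℤ) + 1) * H ≤ (L + 1) * (240 * w) := mul_le_mul_of_nonneg_left hw1 (by positivity)
    have : 0 ≤ (q.2 : ℤ) * w := by positivity
    simp only [Win, Set.mem_ofPred_eq] at hc
    nlinarith
  exact Cr.mono (LR.of_conn (y := -d1) (y' := d2 + d3) (k1.trans k2) (by omega)
    (fun w hw => hw.2.2.2) hx1 hc1) (fun w hw => ⟨hw.1.1, hw.2⟩) subset_rfl subset_rfl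

/-- a bridge gives long crossings everywhere in the window -/
lemma long (h : Perc p η M) {d1 d2 d3 : ℤ} (h1 : 0 ≤ d1) (h2 : 0 ≤ d2) (h3 : 0 ≤ d3)
    (hH : 480 ≤ d1 + d2 + d3) {φ : ℝ} (hφ : φ ≤ p (Br d1 d2 d3)) (hη : η ≤ φ / 120000) (L : ℕ)
    (hM : (2 * L + 3) * (d1 + d2 + d3) ≤ M) {x x' y y' : ℤ} (hx : x ≤ x')
    (hx' : x' + 1 ≤ x + L * (d1 + d2 + d3)) (hy : y + (d1 + d2 + d3) + 1 ≤ y')
    (w1 : -M ≤ x) (w2 : x' ≤ M) (w3 : -M ≤ y) (w4 : y' ≤ M) :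
    (φ / 120000) ^ (240 * (L + 1) + 1) - η ≤ p {ω | LR ω x x' y y'} ∧
    (φ / 120000) ^ (240 * (L + 1) + 1) - η ≤ p {ω | BT ω y y' x x'} := by
  have h0 := h.long0 h1 h2 h3 hH hφ hη L hM
  set H := d1 + d2 + d3 with hHdef
  have hL0 : 0 ≤ (L : ℤ) * H := by positivity
  have hM' : 2 * (L * H) + 3 * H ≤ M := by linarith
  generalize (L : ℤ) * H = ℓ at *
  set ε := (d1 + d3 - x) % 2 with hε
  have h4 : p (XC (Rec (d1 + d3) (d1 + d3 + ℓ) (-d1) (d2 + d3)) {v | v.1 = d1 + d3}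
      {v | v.1 = d1 + d3 + ℓ}) ≤ p (XC (Rec (d1 + d3 + ε) (d1 + d3 + ε + (x' - x)) (-d1) (d2 + d3))
      {v | v.1 = d1 + d3 + ε} {v | v.1 = d1 + d3 + ε + (x' - x)}) :=
    h.mono _ _ fun ω hω => LR.mono (S := ω) hω subset_rfl (by omega) (by omega) (by omega)
      le_rfl le_rfl
  have hR : Rec (d1 + d3 + ε) (d1 + d3 + ε + (x' - x)) (-d1) (d2 + d3) ⊆ Bx 0 M :=
    fun v hv => by simp only [mem_Rec, mem_Bx0] at *; omega
  constructor
  · have := h.move 0 ((x - (d1 + d3 + ε)) / 2) ((y + d1 + 1) / 2) (A := {v | v.1 = d1 + d3 + ε})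
      (B := {v | v.1 = d1 + d3 + ε + (x' - x)}) (R' := Rec x x' y y') (A' := {v | v.1 = x})
      (B' := {v | v.1 = x'}) hR (fun v hv => by simp only [mem_Rec, mem_Bx0] at *; omega)
      (fun v hv => by simp only [mvq, sy, mem_Rec, Matrix.cons_val_zero] at *; omega)
      (fun v _ hv => by simp only [mvq, sy, Set.mem_ofPred_eq, Matrix.cons_val_zero] at *; omega)
      (fun v _ hv => by simp only [mvq, sy, Set.mem_ofPred_eq, Matrix.cons_val_zero] at *; omega)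
    have e : {ω | LR ω x x' y y'} = XC (Rec x x' y y') {v | v.1 = x} {v | v.1 = x'} := rfl
    rw [e]; linarith
  · have := h.move 1 ((y + d1 + 1) / 2) ((x - (d1 + d3 + ε)) / 2) (A := {v | v.1 = d1 + d3 + ε})
      (B := {v | v.1 = d1 + d3 + ε + (x' - x)}) (R' := Rec y y' x x') (A' := {v | v.2 = x})
      (B' := {v | v.2 = x'}) hR (fun v hv => by simp only [mem_Rec, mem_Bx0] at *; omega)
      (fun v hv => by
        simp only [mvq, sy, mem_Rec, Matrix.cons_val_one, Matrix.cons_val_zero] at *; omega)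
      (fun v _ hv => by
        simp only [mvq, sy, Set.mem_ofPred_eq, Matrix.cons_val_one, Matrix.cons_val_zero] at *
        omega)
      (fun v _ hv => by
        simp only [mvq, sy, Set.mem_ofPred_eq, Matrix.cons_val_one, Matrix.cons_val_zero] at *
        omega)
    have e : {ω | BT ω y y' x x'} = XC (Rec y y' x x') {v | v.2 = x} {v | v.2 = x'} := rfl
    rw [e]; linarith

/-- four long crossings give a ring -/
lemma ring_of (h : Perc p η M) {z : V} {m m' : ℤ} (hm : m < m') (hz : Bx z m' ⊆ Bx 0 M)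
    (hm0 : 0 ≤ m) {q : ℝ} (hq : 0 ≤ q)
    (h1 : q ≤ p {ω | LR ω (z.1 - m') (z.1 + m') (z.2 + m + 1) (z.2 + m')})
    (h2 : q ≤ p {ω | LR ω (z.1 - m') (z.1 + m') (z.2 - m') (z.2 - m - 1)})
    (h3 : q ≤ p {ω | BT ω (z.1 + m + 1) (z.1 + m') (z.2 - m') (z.2 + m')})
    (h4 : q ≤ p {ω | BT ω (z.1 - m') (z.1 - m - 1) (z.2 - m') (z.2 + m')}) :
    q ^ 4 ≤ p {ω | Blk ωᶜ (Bx z m) (Bx z m')ᶜ} := by
  have i1 : Inc (Bx 0 M) {ω | LR ω (z.1 - m') (z.1 + m') (z.2 + m + 1) (z.2 + m')} :=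
    inc_X (fun v hv => hz (by simp only [mem_Rec, mem_Bx] at *; omega)) _ _
  have i2 : Inc (Bx 0 M) {ω | LR ω (z.1 - m') (z.1 + m') (z.2 - m') (z.2 - m - 1)} :=
    inc_X (fun v hv => hz (by simp only [mem_Rec, mem_Bx] at *; omega)) _ _
  have i3 : Inc (Bx 0 M) {ω | BT ω (z.1 + m + 1) (z.1 + m') (z.2 - m') (z.2 + m')} :=
    inc_X (fun v hv => hz (by simp only [mem_Rec, mem_Bx] at *; omega)) _ _
  have i4 : Inc (Bx 0 M) {ω | BT ω (z.1 - m') (z.1 - m - 1) (z.2 - m') (z.2 + m')} :=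
    inc_X (fun v hv => hz (by simp only [mem_Rec, mem_Bx] at *; omega)) _ _
  have := h.fkg' ((i1.inter i2).inter i3) i4 (h.fkg' (i1.inter i2) i3 (h.fkg' i1 i2 h1 h2 hq) h3 hq)
    h4 hq
  refine le_trans (le_of_eq (by ring)) (this.trans (h.mono _ _ fun ω hω => ?_))
  exact blk_of_four hm hω.1.1.1 hω.1.1.2 hω.1.2 hω.2

end Perc

end Pool.Agent.Lib.MP_6359c9_pr
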