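import Pool.Agent.Lib.MP_6359c9_pr.LwG

/-! Short crosscuts in front of the tip. -/

namespace Pool.Agent.Lib.MP_6359c9_pr

open Set Filter Topology Bornology Metric Complex MeasureTheory Pool.Agent.Lib.MP_1e9af3_an Lw
open scoped NNReal

noncomputable section

namespace Lw

lemma preconn_arc (x ρ : ℝ) : IsPreconnected (UH ∩ sphere (x : ℂ) ρ) := by
  rcases le_or_gt ρ 0 with h | h
  · refine Subsingleton.isPreconnected (subsingleton_of_forall_eq (x : ℂ) fun z hz => ?_)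
    exact dist_le_zero.1 ((mem_sphere.1 hz.2).trans_le h)
  have e : UH ∩ sphere (x : ℂ) ρ = (fun θ : ℝ => x + ρ * exp (θ * I)) '' Ioo 0 Real.pi := by
    ext w
    constructor
    · rintro ⟨h1, h2⟩
      have h3 : 0 < (w - x).im := by simpa using mem_UH.1 h1
      refine ⟨arg (w - x), ⟨?_, arg_lt_pi_iff.2 (Or.inr h3.ne')⟩, ?_⟩
      · exact lt_of_le_of_ne (arg_nonneg_iff.2 h3.le) fun h => h3.ne' (arg_eq_zero_iff.1 h.symm).2
      · simp only [← mem_sphere_iff_norm.1 h2, norm_mul_exp_arg_mul_I]; ring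
    · rintro ⟨θ, ⟨h2, h3⟩, rfl⟩
      refine ⟨?_, by simp [abs_of_pos h]⟩
      simp only [mem_UH, add_im, ofReal_im, zero_add, im_ofReal_mul, exp_ofReal_mul_I_im]
      exact mul_pos h (Real.sin_pos_of_pos_of_lt_pi h2 h3)
  rw [e]
  exact isPreconnected_Ioo.image _ (by fun_prop)

lemma vol_ball (p : ℂ) {r : ℝ} (hr : 0 ≤ r) : volume (ball p r) ≤ ENNReal.ofReal (4 * r ^ 2) := by
  rw [Complex.volume_ball, ← ENNReal.ofReal_pow hr, ← ENNReal.ofReal_coe_nnreal,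
    ← ENNReal.ofReal_mul (by positivity)]
  refine ENNReal.ofReal_le_ofReal ?_
  rw [NNReal.coe_real_pi]
  nlinarith [Real.pi_le_four, sq_nonneg r]

/-- connected parts of a suitable circle have small images -/
theorem wolff_conn {U : Set ℂ} {g : ℂ → ℂ} (hU : IsOpen U) (hd : DifferentiableOn ℂ g U)
    (hi : InjOn g U) (p : ℂ) {δ Δ A t : ℝ} (hδ : 0 < δ) (hΔ : δ < Δ)
    (hA : volume (g '' (U ∩ ball p Δ)) ≤ ENNReal.ofReal A) (ht : 0 < t)
    (h : A < t ^ 2 * Real.log (Δ / δ)) : ∃ ρ ∈ Ioo δ Δ, ∀ E, IsPreconnected E →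
      E ⊆ U ∩ sphere p ρ → ∀ u ∈ E, ∀ v ∈ E, ‖g u - g v‖ ≤ 16 * t := by
  obtain ⟨ρ, hρ, H⟩ := wolff hU hd hi p hδ hΔ hA ht h
  refine ⟨ρ, hρ, fun E hE hs u hu v hv => ?_⟩
  have key : ∀ L : ℂ →L[ℝ] ℝ, ‖L‖ ≤ 1 → |L (g u) - L (g v)| ≤ 8 * t := fun L hL =>
    abs_le_of_vol (s := L '' (g '' E)) ((hE.image g (hd.continuousOn.mono
      fun z hz => (hs hz).1)).image L L.continuous.continuousOn) ⟨_, ⟨u, hu, rfl⟩, rfl⟩
      ⟨_, ⟨v, hv, rfl⟩, rfl⟩ (by positivity) ((measure_mono (image_mono (image_mono hs))).trans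
        (H L fun z _ => ⟨L.differentiableAt, by rwa [L.fderiv]⟩))
  have k1 := key reCLM reCLM_norm.le
  have k2 := key imCLM imCLM_norm.le
  refine (norm_le_abs_re_add_abs_im _).trans ?_
  simp only [reCLM_apply, imCLM_apply] at k1 k2
  rw [sub_re, sub_im]; linarith

end Lw

variable {b : ℝ≥0 → ℂ} {s t u : ℝ≥0}

lemma Smp.rad_shf (h : Smp b) (hc : Cap b) {m : ℝ} (hm : ∀ u ∈ Icc s t, |drv b u - drv b s| ≤ m)
    (hu : u ∈ Ioc s t) : ‖gm b s (b u) - drv b s‖ ≤ m + 3 * √(t - s) := by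
  have h1 := (h.shf s).aff (-drv b s) one_pos
  have hs := hu.1.le.trans hu.2
  have := h1.rad (h1.cap_iff.2 fun v => by
    rw [(h.shf s).cap_aff _ one_pos, (h.shf s).cap_iff.1 (h.Cap_shf hc s)]; ring) (t := t - s) (M := m)
    (fun v hv => by
      rw [(h.shf s).drv_aff _ one_pos, h.drv_shf, one_mul, neg_add_eq_sub]
      exact hm _ ⟨le_self_add, add_le_of_le_tsub_left_of_le hs hv⟩) (tsub_le_tsub_right hu.2 s)
  rwa [shf_pos (tsub_pos_of_lt hu.1), add_tsub_cancel_of_le hu.1.le, ofReal_one, one_mul,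
    ofReal_neg, neg_add_eq_sub, NNReal.coe_sub hs] at this

/-- the radius outside of which points are far -/
def Lw.R0 (T M : ℝ) : ℝ := M + 1 + 8 * (M + 3 * √T)

/-- a short crosscut separates a piece of small capacity from infinity -/
theorem Smp.gate (T : ℝ≥0) (M : ℝ) {η : ℝ} (hη : 0 < η) : ∃ θ > 0, ∀ b : ℝ≥0 → ℂ, Smp b → Cap b →
    (∀ u ≤ T, |drv b u| ≤ M) → ∀ s t : ℝ≥0, s ≤ t → t ≤ T → (t : ℝ) - s ≤ θ →
    (∀ u ∈ Icc s t, |drv b u - drv b s| ≤ θ) → ∃ σ : Set ℂ, IsPreconnected σ ∧ σ ⊆ Sl b s ∧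
      σ ⊆ ball 0 (R0 T M) ∧ (∀ u ∈ σ, ∀ v ∈ σ, ‖u - v‖ ≤ η) ∧ (∀ u ≤ t, b u ∉ σ) ∧
      ∀ C, IsPreconnected C → C ⊆ Sl b s → (∃ u ∈ Ioc s t, b u ∈ C) →
        (∃ z ∈ C, R0 T M ≤ ‖z‖) → (C ∩ σ).Nonempty := by
  obtain ⟨δ, d0, d1, d2⟩ := exists_delta (ε := η / 16) (M := 4 * (1 + 8 * (M + 3 * √T)) ^ 2)
    (by positivity)
  refine ⟨(δ / 4) ^ 2, by positivity, fun b h hc hM s t hs ht h1 h2 => ?_⟩
  have H := h.hyd s
  have hsT := hs.trans ht
  have M0 : 0 ≤ M := (abs_nonneg _).trans (hM 0 zero_le)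
  have mv : ∀ z ∈ Sl b s, ‖gm b s z - z‖ ≤ 8 * (M + 3 * √T) := fun z hz => by
    have := h.move hc (fun u hu => hM u (hu.trans hsT)) (Okp.of_sl hz)
    rw [h.ge_eq hz] at this
    linarith [Real.sqrt_le_sqrt (NNReal.coe_le_coe.2 hsT)]
  have mv' : ∀ w ∈ UH, ‖H.inv w - w‖ ≤ 8 * (M + 3 * √T) := fun w hw => by
    simpa only [H.map_inv hw, norm_sub_rev] using mv _ (H.inv_mem hw)
  have nW : ‖(drv b s : ℂ)‖ ≤ M := by rw [norm_real]; exact hM s hsT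
  have nr : ∀ u ∈ Ioc s t, ‖gm b s (b u) - drv b s‖ ≤ δ := fun u hu => by
    have h3 : √(t - s) ≤ δ / 4 := Real.sqrt_le_iff.2 ⟨by positivity, h1⟩
    nlinarith [h.rad_shf hc h2 hu]
  obtain ⟨ρ, hρ, hw⟩ := wolff_conn isOpen_UH H.inv_hol H.inv_inj (drv b s) d0 d1
    ((measure_mono (show _ ⊆ ball (drv b s : ℂ) (1 + 8 * (M + 3 * √T)) by
      rintro _ ⟨w, hw, rfl⟩
      have := norm_sub_le_norm_sub_add_norm_sub (H.inv w) w (drv b s)
      exact mem_ball_iff_norm.2 (by linarith [mv' w hw.1, mem_ball_iff_norm.1 hw.2]))).trans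
      (vol_ball _ (by positivity))) (by positivity) d2
  refine ⟨H.inv '' (UH ∩ sphere (drv b s : ℂ) ρ), (preconn_arc _ _).image _
    (H.inv_hol.continuousOn.mono inter_subset_left), ?_, ?_, ?_, ?_, ?_⟩
  · rintro _ ⟨w, hw, rfl⟩; exact H.inv_mem hw.1
  · rintro _ ⟨w, hw, rfl⟩
    have h3 := norm_sub_norm_le (H.inv w) w
    have h4 := norm_sub_norm_le w (drv b s)
    rw [mem_ball_zero_iff, R0]
    linarith [mv' w hw.1, mem_sphere_iff_norm.1 hw.2, hρ.2]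
  · rintro _ ⟨w, h3, rfl⟩ _ ⟨w', h4, rfl⟩
    linarith [hw _ (preconn_arc _ _) subset_rfl w h3 w' h4]
  · rintro u hu ⟨w, hw, e⟩
    rcases le_or_gt u s with c | c
    · exact (H.inv_mem hw.1).2 ⟨u, c, e.symm⟩
    · have := nr u ⟨c, hu⟩
      rw [← e, H.map_inv hw.1, mem_sphere_iff_norm.1 hw.2] at this
      exact hρ.1.not_ge this
  · rintro C hC hCs ⟨u, hu, h3⟩ ⟨z, hz, h4⟩
    have := hC.intermediate_value h3 hz (f := fun v => ‖gm b s v - drv b s‖)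
      ((H.hol.continuousOn.mono hCs).sub continuousOn_const).norm
    obtain ⟨v, hv, e⟩ := this (a := ρ) ⟨(nr u hu).trans hρ.1.le, by
      have h5 := norm_sub_norm_le (gm b s z) (drv b s)
      have h6 := norm_sub_norm_le z (gm b s z)
      rw [norm_sub_rev] at h6
      rw [R0] at h4
      linarith [mv z (hCs hz), hρ.2]⟩
    exact ⟨v, hv, _, ⟨H.maps (hCs hv), mem_sphere_iff_norm.2 e⟩, H.inv_map (hCs hv)⟩

end

end Pool.Agent.Lib.MP_6359c9_pr
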