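import Pool.Agent.Lib.MP_6359c9_pr.UnB
import Pool.Agent.Lib.MP_6359c9_pr.LwH

/-! The disc chart of a domain, and uniform smallness of the images of small connected sets. -/

namespace Pool.Agent.Lib.MP_6359c9_pr

open Set Filter Topology Bornology Metric Complex MeasureTheory Un Lw

namespace Chart

variable {D : Set ℂ} {a b : ℂ} {Ψ : ℂ → ℂ} (h : Chart D a b Ψ)

open Classical in
/-- the disc chart: `Ψ I ↦ 0`, `a ↦ -1`, `b ↦ 1` -/
noncomputable def dc (z : ℂ) : ℂ := if z = b then 1 else cay I (h.inv z)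

lemma I_UH : I ∈ UH := by simp [UH]

lemma dc_b : h.dc b = 1 := if_pos rfl

lemma dc_map {z : ℂ} (hz : z ∈ UC) : h.dc (Ψ z) = cay I z := by
  rw [dc, if_neg (h.ne z hz), h.inv_map hz]

lemma dc_eq {z : ℂ} (hz : z ∈ Ψ '' UC) : h.dc z = cay I (h.inv z) := by
  obtain ⟨w, hw, rfl⟩ := hz
  rw [h.dc_map hw, h.inv_map hw]

lemma dc_bij : BijOn h.dc D (ball 0 1) :=
  ((cay_bij I_UH).comp h.phi.bij).congr fun _ hz => (h.dc_eq (h.sub_img hz)).symm

lemma dc_hol : DifferentiableOn ℂ h.dc D :=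
  DifferentiableOn.congr (f := cay I ∘ h.inv) (fun z hz =>
    (cay_diff (cay_den I_UH (h.inv_mem (h.sub_img hz)))).comp_differentiableWithinAt z
      (h.phi.hol z hz)) fun _ hz => h.dc_eq (h.sub_img hz)

lemma dc_lt {z : ℂ} (hz : z ∈ D) : ‖h.dc z‖ < 1 := mem_ball_zero_iff.1 (h.dc_bij.mapsTo hz)

lemma dc_cont : ContinuousOn h.dc (closure D) := by
  rw [h.closure_eq]
  have c1 : ∀ z ∈ Ψ '' UC, ContinuousWithinAt (cay I ∘ h.inv) (Ψ '' UC) z := fun z hz =>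
    (cay_diff (cay_den I_UH (h.inv_mem hz))).continuousAt.comp_continuousWithinAt (h.inv_cont z hz)
  rintro z (rfl | hz)
  · refine ContinuousWithinAt.insert ?_
    rw [ContinuousWithinAt, dc_b]
    exact ((cay_lim I).comp h.inv_inf).congr'
      (eventually_nhdsWithin_of_forall fun _ hz => (h.dc_eq hz).symm)
  · have hb : z ≠ b := by obtain ⟨w, hw, rfl⟩ := hz; exact h.ne w hw
    refine ((c1 z hz).congr (fun _ hx => h.dc_eq hx) (h.dc_eq hz)).mono_of_mem_nhdsWithin ?_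
    filter_upwards [self_mem_nhdsWithin, mem_nhdsWithin_of_mem_nhds (isOpen_ne.mem_nhds hb)]
      with x h1 h2 using h1.resolve_left h2

lemma dc_le {z : ℂ} (hz : z ∈ closure D) : ‖h.dc z‖ ≤ 1 :=
  mem_closedBall_zero_iff.1 (closure_minimal (t := closedBall 0 1)
    (by rw [h.dc_bij.image_eq]; exact ball_subset_closedBall) isClosed_closedBall
    (h.dc_cont.image_closure ⟨z, hz, rfl⟩))

lemma dc_inj : InjOn h.dc (closure D) := by
  rw [h.closure_eq]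
  rintro u (rfl | ⟨u, hu, rfl⟩) v (rfl | ⟨v, hv, rfl⟩) e
  · rfl
  · exact absurd (by rw [← h.dc_map hv, ← e, dc_b]) (cay_ne I_UH hv)
  · exact absurd (by rw [← h.dc_map hu, e, dc_b]) (cay_ne I_UH hu)
  · rw [h.dc_map hu, h.dc_map hv] at e
    rw [cay_inj I_UH hu hv e]

/-- the inverse of the disc chart on the open disc -/
noncomputable def dci (_ : Chart D a b Ψ) (ζ : ℂ) : ℂ := Ψ (I * (1 + ζ) / (1 - ζ))

lemma cay_inv {ζ : ℂ} (hζ : ζ ∈ ball (0 : ℂ) 1) :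
    I * (1 + ζ) / (1 - ζ) ∈ UH ∧ cay I (I * (1 + ζ) / (1 - ζ)) = ζ := by
  obtain ⟨z, hz, rfl⟩ := (cay_bij I_UH).surjOn hζ
  have h1 := cay_den I_UH (UH_sub hz)
  have h2 := sub_ne_zero.2 (cay_ne I_UH (UH_sub hz)).symm
  have : I * (1 + cay I z) / (1 - cay I z) = z := by
    rw [div_eq_iff h2, cay]
    rw [conj_I] at *
    field_simp
    ring
  rw [this]; exact ⟨hz, rfl⟩

lemma dci_mem {ζ : ℂ} (hζ : ζ ∈ ball (0 : ℂ) 1) : h.dci ζ ∈ D := h.bij.mapsTo (cay_inv hζ).1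

lemma dc_dci {ζ : ℂ} (hζ : ζ ∈ ball (0 : ℂ) 1) : h.dc (h.dci ζ) = ζ := by
  rw [dci, h.dc_map (UH_sub (cay_inv hζ).1), (cay_inv hζ).2]

lemma dci_dc {z : ℂ} (hz : z ∈ D) : h.dci (h.dc z) = z :=
  h.dc_bij.injOn (h.dci_mem (h.dc_bij.mapsTo hz)) hz (h.dc_dci (h.dc_bij.mapsTo hz))

lemma dci_cont : ContinuousOn h.dci (ball 0 1) :=
  h.hol.continuousOn.comp (ContinuousOn.div (by fun_prop) (by fun_prop) fun ζ hζ e => by
    rw [sub_eq_zero] at e; simp [← e] at hζ) fun _ hζ => (cay_inv hζ).1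

/-- small connected sets have small images when a disc around `w` is mapped far away -/
theorem wolff {w p : ℂ} (hw : w ∈ UH) {c δ Δ t : ℝ} (hc : 0 < c) (hδ : 0 < δ) (hΔ : δ < Δ)
    (ht : 0 < t) (hA : 4 * c⁻¹ ^ 2 < t ^ 2 * Real.log (Δ / δ))
    (far : ∀ z ∈ UH, ‖z - w‖ < c → Δ ≤ ‖Ψ z - p‖) {E : Set ℂ} (hE : IsPreconnected E)
    (hED : E ⊆ D ∩ closedBall p δ) {u v : ℂ} (hu : u ∈ E) (hv : v ∈ E) :
    ‖(h.inv u - w)⁻¹ - (h.inv v - w)⁻¹‖ ≤ 16 * t := by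
  set U := D ∩ ball p Δ with hU
  set g := fun z => (h.inv z - w)⁻¹ with hg
  have w0 : 0 < w.im := hw
  have lo : ∀ z ∈ U, c ≤ ‖h.inv z - w‖ := fun z hz => by
    by_contra! hn
    have := far _ (h.phi.bij.mapsTo hz.1) hn
    rw [h.map_inv (h.sub_img hz.1)] at this
    exact this.not_gt (mem_ball_iff_norm.1 hz.2)
  have ne : ∀ z ∈ U, h.inv z - w ≠ 0 := fun z hz => norm_pos_iff.1 (hc.trans_le (lo z hz))
  have gd : DifferentiableOn ℂ g U := ((h.phi.hol.mono inter_subset_left).sub_const w).inv ne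
  have EU : E ⊆ U := fun z hz => ⟨(hED hz).1, closedBall_subset_ball hΔ (hED hz).2⟩
  obtain ⟨ρ, hρ, H⟩ := Lw.wolff (h.isOpen.inter isOpen_ball) gd
    (fun x hx y hy e => h.phi.bij.injOn hx.1 hy.1 (sub_left_injective (inv_injective e))) p hδ hΔ
    (A := 4 * c⁻¹ ^ 2) (by
      refine (measure_mono (show g '' (U ∩ ball p Δ) ⊆ closedBall 0 c⁻¹ by
        rintro _ ⟨z, hz, rfl⟩
        rw [mem_closedBall_zero_iff, norm_inv]
        exact inv_anti₀ hc (lo z hz.1))).trans ?_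
      rw [Measure.addHaar_closedBall_eq_addHaar_ball]
      exact vol_ball _ (by positivity)) ht hA
  have ray : ∀ z ∈ E, ∀ d : ℂ, d ≠ 0 → ∃ x ∈ U ∩ sphere p ρ, ∃ T : ℝ, g x = g z + T * d := by
    have half : ∀ z ∈ E, ∀ d : ℂ, d ≠ 0 →
        0 ≤ 2 * w.im * ((g z).re * d.re + (g z).im * d.im) - d.im →
        ∃ x ∈ U ∩ sphere p ρ, ∃ T : ℝ, g x = g z + T * d := by
      intro z hz d hd hs
      have im : ∀ ξ : ℂ, ξ ≠ 0 → (w + ξ⁻¹ ∈ UH ↔ 0 < w.im * normSq ξ - ξ.im) := fun ξ hξ => by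
        have := normSq_pos.2 hξ
        rw [mem_UH, add_im, inv_im, neg_div, ← sub_eq_add_neg, sub_pos, sub_pos, div_lt_iff₀ this]
      have q0 : 0 < w.im * normSq (g z) - (g z).im :=
        (im _ (inv_ne_zero (ne z (EU hz)))).1 (by simpa [hg] using h.phi.bij.mapsTo (EU hz).1)
      have q : ∀ T : ℝ, 0 ≤ T → 0 < w.im * normSq (g z + T * d) - (g z + T * d).im := by
        intro T hT
        simp only [normSq_apply, add_re, add_im, re_ofReal_mul, im_ofReal_mul] at q0 ⊢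
        nlinarith [mul_nonneg hT hs, mul_nonneg w0.le (mul_self_nonneg (T * d.re)),
          mul_nonneg w0.le (mul_self_nonneg (T * d.im))]
      have n0 : ∀ T : ℝ, 0 ≤ T → g z + T * d ≠ 0 := fun T hT e => by simpa [e] using q T hT
      have m : ∀ T : ℝ, 0 ≤ T → w + (g z + T * d)⁻¹ ∈ UH := fun T hT => (im _ (n0 T hT)).2 (q T hT)
      have d0 := norm_pos_iff.2 hd
      set S := (‖g z‖ + 2 * c⁻¹) / ‖d‖ with hS
      have S0 : 0 ≤ S := by positivity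
      have hS' : 2 * c⁻¹ ≤ ‖g z + S * d‖ := by
        have h1 : ‖(S : ℂ) * d‖ = ‖g z‖ + 2 * c⁻¹ := by
          rw [norm_mul, norm_real, Real.norm_of_nonneg S0, hS]; field_simp
        have h2 := norm_sub_le (g z + S * d) (g z)
        rw [add_sub_cancel_left, h1] at h2
        linarith
      obtain ⟨T, hT, e⟩ := intermediate_value_Icc S0
        (f := fun T : ℝ => ‖Ψ (w + (g z + T * d)⁻¹) - p‖)
        (((h.hol.continuousOn.comp (ContinuousOn.add continuousOn_const (ContinuousOn.inv₀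
          (by fun_prop) fun T hT => n0 T hT.1)) fun T hT => m T hT.1).sub continuousOn_const).norm)
        (show ρ ∈ Icc _ _ from ⟨by
          simpa [hg, h.map_inv (h.sub_img (EU hz).1)] using
            (mem_closedBall_iff_norm.1 (hED hz).2).trans hρ.1.le,
          hρ.2.le.trans (far _ (m S S0) (by
            rw [add_sub_cancel_left, norm_inv]
            refine (inv_anti₀ (by positivity) hS').trans_lt ?_
            rw [mul_inv, inv_inv]; linarith))⟩)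
      refine ⟨_, ⟨⟨h.bij.mapsTo (m T hT.1), mem_ball_iff_norm.2 (e.trans_lt hρ.2)⟩,
        mem_sphere_iff_norm.2 e⟩, T, ?_⟩
      show (h.inv (Ψ _) - w)⁻¹ = _
      rw [h.inv_map (UH_sub (m T hT.1)), add_sub_cancel_left, inv_inv]
    intro z hz d hd
    rcases le_total 0 (2 * w.im * ((g z).re * d.re + (g z).im * d.im) - d.im) with c | c
    · exact half z hz d hd c
    · obtain ⟨x, hx, T, e⟩ := half z hz (-d) (neg_ne_zero.2 hd) (by simp only [neg_re, neg_im]; linarith)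
      exact ⟨x, hx, -T, by rw [e]; push_cast; ring⟩
  have key : ∀ (L : ℂ →L[ℝ] ℝ) (d : ℂ), ‖L‖ ≤ 1 → d ≠ 0 → L d = 0 → |L (g u) - L (g v)| ≤ 8 * t :=
    fun L d hL hd hLd => abs_le_of_vol (s := L '' (g '' E))
      ((hE.image g (gd.continuousOn.mono EU)).image L L.continuous.continuousOn)
      ⟨_, ⟨u, hu, rfl⟩, rfl⟩ ⟨_, ⟨v, hv, rfl⟩, rfl⟩ (by positivity) ((measure_mono (by
        rintro _ ⟨_, ⟨z, hz, rfl⟩, rfl⟩
        obtain ⟨x, hx, T, e⟩ := ray z hz d hd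
        exact ⟨_, ⟨x, hx, rfl⟩, by rw [e, map_add, ← real_smul, map_smul, hLd]; simp⟩)).trans
        (H L fun z _ => ⟨L.differentiableAt, by rwa [L.fderiv]⟩))
  have k1 := key reCLM I reCLM_norm.le I_ne_zero (by simp)
  have k2 := key imCLM 1 imCLM_norm.le one_ne_zero (by simp)
  refine (norm_le_abs_re_add_abs_im _).trans ?_
  simp only [reCLM_apply, imCLM_apply] at k1 k2
  rw [sub_re, sub_im]; linarith

end Chart

lemma cay_sub_le {x y w : ℂ} (hx : x ∈ UH) (hy : y ∈ UH) (hw : ‖w‖ ≤ 2) (h1 : x - w ≠ 0)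
    (h2 : y - w ≠ 0) : ‖cay I x - cay I y‖ ≤ 32 * ‖(x - w)⁻¹ - (y - w)⁻¹‖ := by
  have k : ∀ x ∈ UH, 1 ≤ ‖x + I‖ ∧ ‖x - w‖ ≤ 4 * ‖x + I‖ := fun x hx => by
    have a : 1 ≤ ‖x + I‖ := le_trans (by simpa using le_of_lt (mem_UH.1 hx)) (im_le_norm _)
    have b := norm_sub_le (x + I) (I + w)
    have c := norm_add_le I w
    rw [add_sub_add_comm, show x - I + (I - w) = x - w by ring] at b
    rw [norm_I] at c
    exact ⟨a, by linarith⟩
  have n1 : x + I ≠ 0 := norm_pos_iff.1 (by linarith [(k x hx).1])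
  have n2 : y + I ≠ 0 := norm_pos_iff.1 (by linarith [(k y hy).1])
  have e : cay I x - cay I y = -2 * I * ((x - w) / (x + I)) * ((y - w) / (y + I)) *
      ((x - w)⁻¹ - (y - w)⁻¹) := by
    simp only [cay, conj_I, sub_neg_eq_add]; field_simp; ring
  have b1 : ‖(x - w) / (x + I)‖ ≤ 4 := by
    rw [norm_div, div_le_iff₀ (norm_pos_iff.2 n1)]; exact (k x hx).2
  have b2 : ‖(y - w) / (y + I)‖ ≤ 4 := by
    rw [norm_div, div_le_iff₀ (norm_pos_iff.2 n2)]; exact (k y hy).2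
  rw [e, norm_mul, norm_mul, norm_mul, norm_mul, norm_I, norm_neg, Complex.norm_two]
  calc _ ≤ 2 * 1 * 4 * 4 * ‖(x - w)⁻¹ - (y - w)⁻¹‖ := by gcongr
    _ = _ := by ring

/-- sets of diameter `r` that are connected inside the domain have images of diameter `ω` -/
def Chart.Small {D : Set ℂ} {a b : ℂ} {Ψ : ℂ → ℂ} (h : Chart D a b Ψ) (r ω : ℝ) : Prop :=
  ∀ (p : ℂ) (E : Set ℂ), IsPreconnected E → E ⊆ D ∩ closedBall p r →
    ∀ u ∈ closure E, ∀ v ∈ closure E, ‖h.dc u - h.dc v‖ ≤ ω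

/-- uniform continuity of the disc charts up to the boundary -/
theorem dc_small {D : ℕ → Set ℂ} {a b : ℕ → ℂ} {Ψ : ℕ → ℂ → ℂ} {ψ : ℂ → ℂ}
    (h : ∀ n, Chart (D n) (a n) (b n) (Ψ n)) (hc : ContinuousOn ψ UH) (hi : InjOn ψ UH)
    (hl : TendstoLocallyUniformlyOn Ψ ψ atTop UH) {ω : ℝ} (hω : 0 < ω) :
    ∃ r > 0, ∀ᶠ n in atTop, (h n).Small r ω := by
  have m1 : I ∈ UH := Chart.I_UH
  have m2 : 2 * I ∈ UH := by simp [UH]
  set Δ := ‖ψ I - ψ (2 * I)‖ / 6 with hΔ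
  have Δ0 : 0 < Δ := div_pos (norm_sub_pos_iff.2 fun e => by
    have := congrArg im (hi m1 m2 e); simp at this) (by norm_num)
  have loc : ∀ w ∈ UH, ∃ c > 0, ∀ᶠ n in atTop, ∀ z ∈ UH, ‖z - w‖ < c → ‖Ψ n z - ψ w‖ ≤ 2 * Δ := by
    intro w hw
    obtain ⟨t, ht, H⟩ := Metric.tendstoLocallyUniformlyOn_iff.1 hl Δ Δ0 w hw
    obtain ⟨c, c0, hs⟩ := Metric.mem_nhdsWithin_iff.1
      (inter_mem ht (Metric.tendsto_nhds.1 (hc w hw) Δ Δ0))
    refine ⟨c, c0, H.mono fun n hn z hz hzw => ?_⟩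
    have := hs ⟨mem_ball_iff_norm.2 hzw, hz⟩
    rw [← dist_eq_norm]
    linarith [dist_triangle_left (Ψ n z) (ψ w) (ψ z), hn z this.1, show dist _ _ < Δ from this.2]
  obtain ⟨c1, c10, H1⟩ := loc _ m1
  obtain ⟨c2, c20, H2⟩ := loc _ m2
  have c0 : 0 < min c1 c2 := lt_min c10 c20
  obtain ⟨δ, d0, d1, d2⟩ := exists_delta (ε := ω / 512) (M := 4 * (min c1 c2)⁻¹ ^ 2) (by positivity)
  refine ⟨δ * Δ, by positivity, ?_⟩
  filter_upwards [H1, H2] with n h1 h2 p E hE hs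
  have key : ∀ w ∈ UH, ‖w‖ ≤ 2 → (∀ z ∈ UH, ‖z - w‖ < min c1 c2 → Δ ≤ ‖Ψ n z - p‖) →
      ∀ u ∈ E, ∀ v ∈ E, ‖(h n).dc u - (h n).dc v‖ ≤ ω := by
    intro w hw w2 far u hu v hv
    have lt : δ * Δ < Δ := mul_lt_of_lt_one_left Δ0 d1
    have := (h n).wolff hw c0 (by positivity) lt (t := ω / 512) (by positivity)
      (by rwa [show Δ / (δ * Δ) = 1 / δ by field_simp]) far hE hs hu hv
    have ne : ∀ x ∈ E, (h n).inv x - w ≠ 0 := fun x hx e => by
      have := far _ ((h n).phi.bij.mapsTo (hs hx).1) (by rw [e, norm_zero]; exact c0)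
      rw [(h n).map_inv ((h n).sub_img (hs hx).1)] at this
      linarith [mem_closedBall_iff_norm.1 (hs hx).2]
    rw [(h n).dc_eq ((h n).sub_img (hs hu).1), (h n).dc_eq ((h n).sub_img (hs hv).1)]
    linarith [cay_sub_le ((h n).phi.bij.mapsTo (hs hu).1) ((h n).phi.bij.mapsTo (hs hv).1) w2
      (ne u hu) (ne v hv)]
  have k2 : ∀ u ∈ E, ∀ v ∈ E, ‖(h n).dc u - (h n).dc v‖ ≤ ω := by
    rcases le_total (3 * Δ) ‖ψ I - p‖ with c | c
    · refine key I m1 (by simp) fun z hz hw => ?_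
      linarith [h1 z hz (hw.trans_le (min_le_left _ _)), norm_sub_rev (ψ I) (Ψ n z),
        norm_sub_le_norm_sub_add_norm_sub (ψ I) (Ψ n z) p]
    · refine key (2 * I) m2 (by simp) fun z hz hw => ?_
      linarith [h2 z hz (hw.trans_le (min_le_right _ _)), norm_sub_rev (Ψ n z) p,
        norm_sub_le_norm_sub_add_norm_sub (ψ I) p (ψ (2 * I)),
        norm_sub_le_norm_sub_add_norm_sub p (Ψ n z) (ψ (2 * I))]
  have cl : ∀ q : ℂ, (∀ u ∈ E, ‖(h n).dc u - q‖ ≤ ω) → ∀ u ∈ closure E, ‖(h n).dc u - q‖ ≤ ω :=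
    fun q hq u hu => mem_closedBall_iff_norm.1 (closure_minimal (t := closedBall q ω)
      (by rintro _ ⟨x, hx, rfl⟩; exact mem_closedBall_iff_norm.2 (hq x hx)) isClosed_closedBall
      (((h n).dc_cont.mono (closure_mono fun x hx => (hs hx).1)).image_closure ⟨u, hu, rfl⟩))
  exact fun u hu v hv => cl _ (fun x hx => by
    rw [norm_sub_rev]; exact cl _ (fun y hy => k2 y hy x hx) v hv) u hu

end Pool.Agent.Lib.MP_6359c9_pr
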