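import Pool.Agent.Lib.MP_6359c9_pr.SpC
import Pool.Agent.Lib.MP_6359c9_pr.Box

/-! Extremality of the double boundary conditions, exploration of the clusters of non double
edges, and the coupling lemma. -/

namespace Pool.Agent.Lib.MP_6359c9_pr

open Set

lemma Bx_coConn (z : V) (m : ℤ) : CoConn (Bx z m) := fun _ hu _ hv => coRec_conn hu hv

lemma Bx_mono {z : V} {m m' : ℤ} (h : m ≤ m') : Bx z m ⊆ Bx z m' := fun v hv => by
  rw [mem_Bx] at *; omega

lemma cl_Bx (z : V) (m : ℤ) : cl (Bx z m) ⊆ Bx z (m + 1) := by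
  rintro v (hv | ⟨u, hu, a⟩)
  · exact Bx_mono (by omega) hv
  · rw [mem_Bx] at *; unfold Adj at a; omega

lemma exists_Bx {F : Set V} (hF : F.Finite) (z : V) : ∃ n : ℕ, F ⊆ Bx z n := by
  obtain ⟨c, hc⟩ := (hF.image fun v => (v.1 - z.1).natAbs + (v.2 - z.2).natAbs).bddAbove
  refine ⟨c, fun v hv => ?_⟩
  have := hc ⟨v, hv, rfl⟩
  rw [mem_Bx]
  beta_reduce at this
  omega

lemma exists_coConn {F : Set V} (hF : F.Finite) : ∃ L, L.Finite ∧ CoConn L ∧ F ⊆ L := by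
  obtain ⟨n, hn⟩ := exists_Bx hF 0
  exact ⟨_, Bx_finite 0 n, Bx_coConn 0 n, hn⟩

lemma mem_ball {x y : V} {n : ℤ} : y ∈ ball x n ↔ x.1 - n ≤ y.1 ∧ y.1 ≤ x.1 + n ∧ x.2 - n ≤ y.2 ∧
    y.2 ≤ x.2 + n ∧ x.1 + x.2 - n ≤ y.1 + y.2 ∧ y.1 + y.2 ≤ x.1 + x.2 + n := by
  simp only [ball, nrm, mem_ofPred_eq, max_le_iff, abs_le, Prod.fst_sub, Prod.snd_sub]
  omega

lemma ball_sub_Bx (x : V) (n : ℤ) : ball x n ⊆ Bx x n := fun v hv => by
  rw [mem_ball] at hv; rw [mem_Bx]; omega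

lemma Bx_sub_ball (x : V) (n : ℤ) : Bx x n ⊆ ball x (2 * n) := fun v hv => by
  rw [mem_Bx] at hv; rw [mem_ball]; omega

lemma ball_finite (x : V) (n : ℤ) : (ball x n).Finite := (Bx_finite x n).subset (ball_sub_Bx x n)

lemma ball_coConn (x : V) (n : ℤ) : CoConn (ball x n) := by
  have key : ∀ u, u ∉ ball x n → ∃ u', u' ∉ Bx x n ∧ Conn (ball x n)ᶜ u u' := by
    intro u hu
    by_cases h : u ∈ Bx x n
    · rw [mem_Bx] at h
      rw [mem_ball] at hu
      by_cases h1 : x.1 + x.2 + n < u.1 + u.2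
      · refine ⟨(x.1 + n + 1, u.2), by rw [mem_Bx]; simp only; omega,
          conn_row' rfl fun k hk => ?_⟩
        rw [mem_compl_iff, mem_ball]; simp only at hk ⊢; omega
      · refine ⟨(x.1 - n - 1, u.2), by rw [mem_Bx]; simp only; omega,
          conn_row' rfl fun k hk => ?_⟩
        rw [mem_compl_iff, mem_ball]; simp only at hk ⊢; omega
    · exact ⟨u, h, Conn.refl hu⟩
  intro u hu v hv
  obtain ⟨u', h1, c1⟩ := key u hu
  obtain ⟨v', h2, c2⟩ := key v hv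
  exact (c1.trans ((Bx_coConn x n u' h1 v' h2).mono (compl_subset_compl.2 (ball_sub_Bx x n)))).trans
    c2.symm

/-! ### the double models -/

lemma dec_off {s : Bool} {ρ : V → Set Bool} {U : Set V} (L : Set V)
    (h : ∀ v ∈ cl (cl U), v ∉ U → ∀ a ∈ ρ v, a = s) : Dec Cp (tm ρ L) (cl U)ᶜ :=
  fun u hu v hv e => Or.inr fun a ha b hb => by
    have hv' : v ∈ cl U := not_not.1 hv
    have : a.1 = b.1 := (h u (mem_cl hv' e.symm) (fun h => hu (sub_cl U h)) _ ha.1).trans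
      (h v (sub_cl _ hv') (fun h => hu (mem_cl h e.symm)) _ hb.1).symm
    exact ⟨Or.inl this, Or.inl this.symm⟩

lemma dec_off' (s : Bool) (U L : Set V) : Dec Cp (tm (off s U) L) (cl U)ᶜ :=
  dec_off (s := s) L fun _ _ hv _ ha => ha hv

/-- the blue domain does not matter once it contains `cl U` -/
theorem ex_off_L (s : Bool) {U L L' : Set V} (hU : U.Finite) (hL : L.Finite) (hL' : L'.Finite)
    (h1 : cl U ⊆ L) (h2 : cl U ⊆ L') {f : Cf → ℝ} (hf : DependsOn f (cl U)) :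
    Ex (Sp (tm (off s U) L)) f = Ex (Sp (tm (off s U) L')) f :=
  markov' (dec_off' s U L) (dec_off' s U L')
    (fun v hv => by
      have hv' : v ∈ cl U := not_not.1 hv
      ext a
      simp only [tm, mem_ofPred_eq, h1 hv', h2 hv'])
    (ok_off s hU hL) (ok_off s hU hL') (by simpa)

theorem ex_off_red (s : Bool) {U L L' : Set V} (hU : U.Finite) (hL : L.Finite) (hL' : L'.Finite)
    (h1 : cl U ⊆ L) (h2 : cl U ⊆ L') (f : (V → Bool) → ℝ) :
    Ex (Sp (tm (off s U) L)) (fun w => f (red w)) =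
      Ex (Sp (tm (off s U) L')) fun w => f (red w) := by
  classical
  have e : ∀ N, Ex (Sp (tm (off s U) N)) (fun w => f (red w)) =
      Ex (Sp (tm (off s U) N)) fun w => f fun v => if v ∈ U then (w v).1 else s := fun N =>
    ex_congr fun w hw => congrArg f (funext fun v => by
      split_ifs with h
      · rfl
      · exact (hw.2 v).1 h)
  rw [e, e]
  exact ex_off_L s hU hL hL' h1 h2 fun x y h => congrArg f (funext fun v => by
    split_ifs with hv
    · rw [h v (sub_cl U hv)]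
    · rfl)

theorem ex_PP {U L : Set V} (hU : U.Finite) (hL : L.Finite) (h : cl U ⊆ L) {f : Cf → ℝ}
    (hf : DependsOn f (cl U)) : Ex (PP U) f = Ex (Sp (pp U L)) f :=
  ex_off_L true hU (cl_finite hU) hL subset_rfl h hf

theorem ex_PP_red {U L : Set V} (hU : U.Finite) (hL : L.Finite) (h : cl U ⊆ L)
    (f : (V → Bool) → ℝ) : Ex (PP U) (fun w => f (red w)) = Ex (Sp (pp U L)) fun w => f (red w) :=
  ex_off_red true hU (cl_finite hU) hL subset_rfl h f

theorem pr_PP_red {U L : Set V} (hU : U.Finite) (hL : L.Finite) (h : cl U ⊆ L)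
    (A : Set (V → Bool)) : Pr (PP U) (red ⁻¹' A) = Pr (Sp (pp U L)) (red ⁻¹' A) := by
  rw [pr_eq, pr_eq]
  exact ex_PP_red hU hL h (A.indicator 1)

/-- the opposite spin field -/
def ng (r : V → Bool) : V → Bool := fun v => !r v

lemma lev_ng (r : V → Bool) (s : Bool) : lev (ng r) s = lev r (!s) := by
  ext v; cases s <;> simp [lev, ng]

lemma ng_ng (r : V → Bool) : ng (ng r) = r := by ext v; simp [ng]

lemma ng_anti : Antitone ng := fun a b h v => by
  have := h v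
  revert this
  unfold ng
  cases a v <;> cases b v <;> simp

theorem bij_off (s : Bool) (U L : Set V) :
    BijOn fr (Sp (tm (off s U) L)) (Sp (tm (off (!s) U) L)) :=
  bij_fr fun v a => by simp [tm, off]

/-- the double plus boundary condition is the largest one -/
theorem le_PP {L U : Set V} (hL : L.Finite) (hc : CoConn L) (hU : U ⊆ L) {A : Set (V → Bool)}
    (hA : ∀ a ∈ A, ∀ b : V → Bool, (∀ v, v ∉ U → b v = true) → a ⊓ b ∈ A)
    (ok : Ok (BL L ∩ red ⁻¹' A)) {f : (V → Bool) → ℝ} (hf : Monotone f) :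
    Ex (BL L ∩ red ⁻¹' A) (fun w => f (red w)) ≤ Ex (PP U) fun w => f (red w) := by
  have hUf := hL.subset hU
  obtain ⟨L', f', c', s'⟩ := exists_coConn (hL.union (cl_finite hUf))
  have o2 := ok_off true hUf f'
  rw [ex_PP_red hUf f' (subset_union_right.trans s')]
  unfold pp
  rw [Sp_tm] at o2 ⊢
  refine (hol_red hL hc f' c' (A' := {r | ∀ v, r v ∈ off true U v})
    (fun a ha b hb => ⟨hA a ha b fun v hv => hb v hv, fun v hv => ?_⟩)
    (fun _ _ c h v hv => h.1 v fun h' => hv (s' (Or.inl h')))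
    fun r hr c h => Kc_zero hL hc f' (fun v hv => hU ?_) h).ex_le ok o2 hf
  · rw [Pi.sup_apply, hb v hv]; simp
  · by_contra h'
    exact Bool.noConfusion ((hr v h').symm.trans hv)

/-- the double minus boundary condition is the smallest one -/
theorem PP_le {L U : Set V} (hL : L.Finite) (hc : CoConn L) (hU : U ⊆ L) {A : Set (V → Bool)}
    (hA : ∀ a ∈ A, ∀ b : V → Bool, (∀ v, v ∉ U → b v = false) → b ⊔ a ∈ A)
    (ok : Ok (BL L ∩ red ⁻¹' A)) {f : (V → Bool) → ℝ} (hf : Monotone f) :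
    Ex (PP U) (fun w => f (ng (red w))) ≤ Ex (BL L ∩ red ⁻¹' A) fun w => f (red w) := by
  have hUf := hL.subset hU
  obtain ⟨L', f', c', s'⟩ := exists_coConn (hL.union (cl_finite hUf))
  have o2 := ok_off false hUf f'
  rw [ex_PP_red hUf f' (subset_union_right.trans s') fun r => f (ng r)]
  refine (ex_bij (bij_off true U L') fun w => f (red w)).le.trans ?_
  rw [Bool.not_true, Sp_tm] at *
  refine (hol_red f' c' hL hc (A := {r | ∀ v, r v ∈ off false U v})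
    (fun b hb a ha => ⟨fun v hv => ?_, hA a ha b fun v hv => hb v hv⟩)
    (fun r hr c h => Kc_zero hL hc f' (fun v hv => hU ?_) h)
    fun _ _ c h v hv => h.1 v fun h' => hv (s' (Or.inl h'))).ex_le o2 ok hf
  · rw [Pi.inf_apply, hb v hv]; simp
  · by_contra h'
    exact Bool.noConfusion ((hr v h').symm.trans hv)

/-- the red spins decrease with the domain -/
theorem PP_anti {U U' : Set V} (hU' : U'.Finite) (h : U ⊆ U') {f : (V → Bool) → ℝ}
    (hf : Monotone f) : Ex (PP U') (fun w => f (red w)) ≤ Ex (PP U) fun w => f (red w) := by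
  obtain ⟨L, f', c', s'⟩ := exists_coConn (cl_finite hU')
  have o := ok_off true hU' f'
  rw [ex_PP_red hU' f' s']
  unfold pp
  rw [Sp_tm] at o ⊢
  refine le_PP f' c' (h.trans ((sub_cl _).trans s')) (A := {r | ∀ v, r v ∈ off true U' v})
    (fun a ha b hb v hv => ?_) o hf
  rw [Pi.inf_apply, ha v hv, hb v fun h' => hv (h h')]; rfl

theorem pr_PP_anti {U U' : Set V} (hU' : U'.Finite) (h : U ⊆ U') {A : Set (V → Bool)}
    (hA : IsUpperSet A) : Pr (PP U') (red ⁻¹' A) ≤ Pr (PP U) (red ⁻¹' A) := by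
  rw [pr_eq, pr_eq]
  exact PP_anti hU' h (mono_ind hA)

theorem pr_PP_anti' {U U' : Set V} (hU' : U'.Finite) (h : U ⊆ U') {A : Set (V → Bool)}
    (hA : IsLowerSet A) : Pr (PP U) (red ⁻¹' A) ≤ Pr (PP U') (red ⁻¹' A) := by
  have := pr_PP_anti hU' h hA.compl
  rw [preimage_compl, pr_compl (ok_PP hU'), pr_compl (ok_PP (hU'.subset h))] at this
  linarith

theorem PP_fkg {U : Set V} (hU : U.Finite) {f g : (V → Bool) → ℝ} (hf : Monotone f)
    (hg : Monotone g) : Ex (PP U) (fun w => f (red w)) * Ex (PP U) (fun w => g (red w)) ≤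
      Ex (PP U) fun w => f (red w) * g (red w) := by
  obtain ⟨L, f', c', s'⟩ := exists_coConn (cl_finite hU)
  rw [ex_PP_red hU f' s', ex_PP_red hU f' s', ex_PP_red hU f' s' fun r => f r * g r]
  exact (hol_tm_self f' c' _).fkg hf hg

theorem pr_PP_fkg {U : Set V} (hU : U.Finite) {A B : Set (V → Bool)} (hA : IsUpperSet A)
    (hB : IsUpperSet B) :
    Pr (PP U) (red ⁻¹' A) * Pr (PP U) (red ⁻¹' B) ≤ Pr (PP U) (red ⁻¹' (A ∩ B)) := by
  obtain ⟨L, f', c', s'⟩ := exists_coConn (cl_finite hU)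
  rw [pr_PP_red hU f' s', pr_PP_red hU f' s', pr_PP_red hU f' s']
  exact (hol_tm_self f' c' _).pr_fkg hA hB

/-- under the double plus condition plus dominates minus -/
theorem PP_ng_le {U : Set V} (hU : U.Finite) {f : (V → Bool) → ℝ} (hf : Monotone f) :
    Ex (PP U) (fun w => f (ng (red w))) ≤ Ex (PP U) fun w => f (red w) := by
  obtain ⟨L, f', c', s'⟩ := exists_coConn (cl_finite hU)
  rw [ex_PP_red hU f' s', ex_PP_red hU f' s' fun r => f (ng r)]
  refine (ex_bij (bij_off true U L) fun w => f (red w)).le.trans ?_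
  refine (hol_tm f' c' fun v => ?_).ex_le (ok_off _ hU f') (ok_off _ hU f') hf
  intro a ha b hb
  exact ⟨fun hv => by rw [ha hv]; simp, fun hv => by rw [hb hv]; simp⟩

/-- the standing assumptions on a model with product red constraints -/
structure Tame (ρ : V → Set Bool) (L : Set V) : Prop where
  fin : L.Finite
  co : CoConn L
  sub : ∃ U : Set V, U.Finite ∧ ∀ v, v ∉ U → (ρ v).Subsingleton
  ne : ∀ v, (ρ v).Nonempty

lemma Tame.ok {ρ : V → Set Bool} {L : Set V} (h : Tame ρ L) : Ok (Sp (tm ρ L)) := by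
  obtain ⟨U, hU, hs⟩ := h.sub
  choose r hr using h.ne
  exact ⟨tm_finite hU h.fin hs, _, mem_tm L hr⟩

lemma tame_off (s : Bool) {U L : Set V} (hU : U.Finite) (hL : L.Finite) (hc : CoConn L) :
    Tame (off s U) L := ⟨hL, hc, ⟨U, hU, fun _ => off_sub⟩, fun _ => ⟨s, fun _ => rfl⟩⟩

lemma Tame.frz {ρ : V → Set Bool} {L : Set V} (h : Tame ρ L) (k : Set V) {r : V → Bool}
    (hr : ∀ v, r v ∈ ρ v) : Tame (frz ρ k r) L := by
  obtain ⟨U, hU, hs⟩ := h.sub
  exact ⟨h.fin, h.co, ⟨U, hU, fun v hv => (hs v hv).anti fun _ h => h.1⟩,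
    fun v => ⟨r v, hr v, fun _ => rfl⟩⟩

lemma Sp_tm_inter (ρ : V → Set Bool) (L : Set V) (B : Set (V → Bool)) :
    Sp (tm ρ L) ∩ red ⁻¹' B = BL L ∩ red ⁻¹' ({r | ∀ v, r v ∈ ρ v} ∩ B) := by
  rw [Sp_tm, inter_assoc, preimage_inter]

/-- upper bound by the double plus model, given the red spins outside `U` -/
theorem pr_inter_le_PP {ρ : V → Set Bool} {L U : Set V} (hL : L.Finite) (hc : CoConn L)
    (hU : U ⊆ L) (hρ : ∀ v ∈ U, false ∈ ρ v) {A B : Set (V → Bool)} (hA : IsUpperSet A)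
    (hB : Dep Uᶜ B) : Pr (Sp (tm ρ L)) (red ⁻¹' (B ∩ A)) ≤
      Pr (Sp (tm ρ L)) (red ⁻¹' B) * Pr (PP U) (red ⁻¹' A) := by
  rw [preimage_inter, pr_cond]
  refine mul_le_mul_of_nonneg_left ?_ (pr_nonneg _ _)
  by_cases ok : Ok (Sp (tm ρ L) ∩ red ⁻¹' B)
  swap
  · rw [pr_eq, ex_nok ok]; exact pr_nonneg _ _
  rw [Sp_tm_inter] at ok ⊢
  rw [pr_eq, pr_eq]
  refine le_PP hL hc hU (A := {r | ∀ v, r v ∈ ρ v} ∩ B)
    (fun a ha b hb => ⟨fun v => ?_, hB a _ (fun v hv => ?_) ha.2⟩) ok (mono_ind hA)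
  · rw [Pi.inf_apply]
    cases h : b v
    · by_cases hv : v ∈ U
      · simpa using hρ v hv
      · exact Bool.noConfusion (h.symm.trans (hb v hv))
    · simpa using ha.1 v
  · rw [Pi.inf_apply, hb v hv]; simp

/-- lower bound by the double minus model, given the red spins outside `U` -/
theorem PP_le_pr_inter {ρ : V → Set Bool} {L U : Set V} (hL : L.Finite) (hc : CoConn L)
    (hU : U ⊆ L) (hρ : ∀ v ∈ U, true ∈ ρ v) {A B : Set (V → Bool)} (hA : IsUpperSet A)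
    (hB : Dep Uᶜ B) : Pr (Sp (tm ρ L)) (red ⁻¹' B) * Pr (PP U) {w | ng (red w) ∈ A} ≤
      Pr (Sp (tm ρ L)) (red ⁻¹' (B ∩ A)) := by
  rw [preimage_inter, pr_cond]
  by_cases ok : Ok (Sp (tm ρ L) ∩ red ⁻¹' B)
  swap
  · have : Pr (Sp (tm ρ L)) (red ⁻¹' B) = 0 := by
      by_contra h
      exact ok (ok_of_pr_pos (lt_of_le_of_ne (pr_nonneg _ _) (Ne.symm h))).2
    simp [this]
  refine mul_le_mul_of_nonneg_left ?_ (pr_nonneg _ _)
  rw [Sp_tm_inter] at ok ⊢
  rw [pr_eq, pr_eq]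
  refine PP_le hL hc hU (A := {r | ∀ v, r v ∈ ρ v} ∩ B)
    (fun a ha b hb => ⟨fun v => ?_, hB a _ (fun v hv => ?_) ha.2⟩) ok (mono_ind hA)
  · rw [Pi.sup_apply]
    cases h : b v
    · simpa using ha.1 v
    · by_cases hv : v ∈ U
      · simpa using hρ v hv
      · exact Bool.noConfusion (h.symm.trans (hb v hv))
  · rw [Pi.sup_apply, hb v hv]; simp

/-! ### paths that avoid double edges -/

namespace NConn

variable {P P' S T : Set V} {u v w : V}

lemma refl (h : u ∈ S) : NConn P S u u := ⟨h, Relation.ReflTransGen.refl⟩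

lemma right (h : NConn P S u v) : v ∈ S := by
  obtain ⟨h1, h2⟩ := h
  induction h2 with
  | refl => exact h1
  | tail _ h _ => exact h.2.1

lemma tail (h : NConn P S u v) (a : Adj v w) (hw : w ∈ S) (n : ¬(v ∈ P ∧ w ∈ P)) :
    NConn P S u w := ⟨h.1, h.2.tail ⟨a, hw, n⟩⟩

lemma trans (h : NConn P S u v) (h' : NConn P S v w) : NConn P S u w := ⟨h.1, h.2.trans h'.2⟩

lemma ind {Q : V → Prop} (h : NConn P S u v) (h0 : Q u)
    (hs : ∀ a b, NConn P S u a → Adj a b → b ∈ S → ¬(a ∈ P ∧ b ∈ P) → Q a → Q b) : Q v := by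
  obtain ⟨h1, h2⟩ := h
  induction h2 with
  | refl => exact h0
  | tail h3 h4 ih => exact hs _ _ ⟨h1, h3⟩ h4.1 h4.2.1 h4.2.2 ih

lemma symm (h : NConn P S u v) : NConn P S v u :=
  h.ind (Q := fun x => NConn P S x u) (refl h.1) fun _ _ ha a hb n ih =>
    ((refl hb).tail a.symm ha.right fun h => n h.symm).trans ih

lemma mono (h : NConn P S u v) (hP : P' ⊆ P) (hS : S ⊆ T) : NConn P' T u v :=
  h.ind (Q := fun x => NConn P' T u x) (refl (hS h.1)) fun _ _ _ a hb n ih =>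
    ih.tail a (hS hb) fun h => n ⟨hP h.1, hP h.2⟩

lemma congr (h : NConn P S u v) (e : ∀ x ∈ S, x ∈ P' → x ∈ P) : NConn P' S u v :=
  h.ind (Q := fun x => NConn P' S u x) (refl h.1) fun _ _ ha a hb n ih =>
    ih.tail a hb fun h => n ⟨e _ ha.right h.1, e _ hb h.2⟩

lemma conn (h : NConn P S u v) : Conn S u v :=
  h.ind (Q := fun x => Conn S u x) (Conn.refl h.1) fun _ _ _ a hb _ ih => ih.tail a hb

end NConn

lemma Conn.nconn {P S : Set V} {u v : V} (h : Conn S u v) (d : ∀ x ∈ S, x ∉ P) : NConn P S u v :=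
  h.ind (P := fun x => NConn P S u x) (NConn.refl h.1) fun _ _ _ a hb ih =>
    ih.tail a hb fun h => d _ hb h.2

lemma Aut.nconn {g : V ≃ V} (h : Aut g) {P A : Set V} {u v : V} :
    NConn (g ⁻¹' P) (g ⁻¹' A) u v ↔ NConn P A (g u) (g v) := by
  refine ⟨fun c => c.ind (Q := fun x => NConn P A (g u) (g x)) (NConn.refl c.1)
    fun a b _ e hb n ih => ih.tail ((h a b).2 e) hb n, fun c => ?_⟩
  simpa using c.ind (Q := fun x => NConn (g ⁻¹' P) (g ⁻¹' A) u (g.symm x))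
    (by simpa using NConn.refl (u := u) c.1) fun a b _ e hb n ih =>
      ih.tail ((h.symm a b).2 e) (by simpa using hb) (by simpa using n)

lemma Sep.mono {P P' I I' O O' : Set V} (h : Sep P I O) (hP : P ⊆ P') (hI : I' ⊆ I) (hO : O' ⊆ O) :
    Sep P' I' O' := fun u hu v hv c => h u (hI hu) v (hO hv) (c.mono hP subset_rfl)

lemma Sep.symm {P I O : Set V} (h : Sep P I O) : Sep P O I := fun u hu v hv c => h v hv u hu c.symm

/-- only the region between `I` and `O` matters -/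
lemma Sep.loc {P P' I O : Set V} (h : Sep P I O) (e : ∀ v ∈ cl Iᶜ, v ∈ cl Oᶜ → v ∈ P → v ∈ P') :
    Sep P' I O := by
  intro u hu v hv c
  have := c.ind (Q := fun x => ∃ u' ∈ I, NConn P univ u' x) ⟨u, hu, NConn.refl trivial⟩
    fun a b _ ab _ n ⟨u', hu', ih⟩ => by
      by_cases hb : b ∈ I
      · exact ⟨b, hb, NConn.refl trivial⟩
      · have ha : a ∉ O := fun ha => h u' hu' a ha ih
        exact ⟨u', hu', ih.tail ab trivial fun h' => n
          ⟨e a (mem_cl hb ab.symm) (sub_cl _ ha) h'.1, e b (sub_cl _ hb) (mem_cl ha ab) h'.2⟩⟩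
  obtain ⟨u', hu', c'⟩ := this
  exact h u' hu' v hv c'

lemma Aut.sep {g : V ≃ V} (h : Aut g) {P I O : Set V} :
    Sep (g ⁻¹' P) (g ⁻¹' I) (g ⁻¹' O) ↔ Sep P I O :=
  ⟨fun s u hu v hv c => s (g.symm u) (by simpa) (g.symm v) (by simpa)
    ((h.nconn (A := univ)).2 (by simpa)),
    fun s u hu v hv c => s _ hu _ hv ((h.nconn (A := univ)).1 c)⟩

/-- the double edges of sign `s` separate `I` from `O` -/
def SepE (s : Bool) (I O : Set V) : Set (V → Bool) := {r | Sep (lev r s) I O}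

lemma lev_mono {a b : V → Bool} (h : a ≤ b) : lev a true ⊆ lev b true := fun v hv => by
  have := h v
  rw [show a v = true from hv] at this
  exact top_le_iff.1 this

lemma lev_anti {a b : V → Bool} (h : a ≤ b) : lev b false ⊆ lev a false := fun v hv => by
  have := h v
  rw [show b v = false from hv] at this
  exact le_bot_iff.1 this

lemma SepE_upper (I O : Set V) : IsUpperSet (SepE true I O) := fun _ _ h s =>
  Sep.mono s (lev_mono h) subset_rfl subset_rfl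

lemma SepE_lower (I O : Set V) : IsLowerSet (SepE false I O) := fun _ _ h s =>
  Sep.mono s (lev_anti h) subset_rfl subset_rfl

lemma SepE_dep (s : Bool) {I O W : Set V} (h : ∀ v ∈ cl Iᶜ, v ∈ cl Oᶜ → v ∈ W) :
    Dep W (SepE s I O) := fun _ _ e hx =>
  Sep.loc hx fun v h1 h2 hv => (e v (h v h1 h2)).symm.trans hv

lemma SepE_mono (s : Bool) {I I' O O' : Set V} (hI : I' ⊆ I) (hO : O' ⊆ O) :
    SepE s I O ⊆ SepE s I' O' := fun _ h => Sep.mono h subset_rfl hI hO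

lemma ng_SepE {r : V → Bool} {s : Bool} {I O : Set V} : ng r ∈ SepE s I O ↔ r ∈ SepE (!s) I O := by
  simp only [SepE, mem_ofPred_eq, lev_ng]

/-! ### exploration -/

/-- the vertices joined to `O` by a path with no edge inside `P` -/
def NK (P O : Set V) : Set V := {v | ∃ o ∈ O, NConn P univ o v}

lemma sub_NK (P O : Set V) : O ⊆ NK P O := fun v hv => ⟨v, hv, NConn.refl trivial⟩

lemma NK_bd {P O : Set V} {u v : V} (hu : u ∈ NK P O) (hv : v ∉ NK P O) (e : Adj u v) :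
    u ∈ P ∧ v ∈ P := by
  by_contra h
  obtain ⟨o, ho, c⟩ := hu
  exact hv ⟨o, ho, c.tail e trivial h⟩

lemma NK_bd' {P O : Set V} {v : V} (h1 : v ∈ cl (NK P O)) (h2 : v ∈ cl (NK P O)ᶜ) : v ∈ P := by
  rcases h1 with h1 | ⟨u, hu, e⟩ <;> rcases h2 with h2 | ⟨u', hu', e'⟩
  · exact absurd h1 h2
  · exact (NK_bd h1 hu' e'.symm).1
  · exact (NK_bd hu h2 e).2
  · by_cases h : v ∈ NK P O
    · exact (NK_bd h hu' e'.symm).1
    · exact (NK_bd hu h e).2

lemma sep_iff {P I O : Set V} : Sep P I O ↔ ∀ v ∈ NK P I, v ∉ O :=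
  ⟨fun h v ⟨u, hu, c⟩ hv => h u hu v hv c, fun h u hu v hv c => h v ⟨u, hu, c⟩ hv⟩

lemma NK_in {P O : Set V} {v : V} (h : v ∈ NK P O) : ∃ o ∈ O, NConn P (NK P O) o v := by
  obtain ⟨o, ho, c⟩ := h
  exact ⟨o, ho, c.ind (Q := fun x => NConn P (NK P O) o x) (NConn.refl (sub_NK P O ho))
    fun a b ha e _ n ih => ih.tail e ⟨o, ho, ha.tail e trivial n⟩ n⟩

lemma NK_eq {P O k : Set V} (hO : O ⊆ k) (h1 : ∀ v ∈ cl k, v ∈ cl kᶜ → v ∈ P)
    (h2 : ∀ v ∈ k, ∃ o ∈ O, NConn P k o v) : NK P O = k := by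
  refine Subset.antisymm (fun v ⟨o, ho, c⟩ => c.ind (Q := fun x => x ∈ k) (hO ho) ?_) fun v hv => ?_
  · intro a b _ e _ n ha
    by_contra hb
    exact n ⟨h1 a (sub_cl _ ha) (mem_cl hb e.symm), h1 b (mem_cl ha e) (sub_cl _ hb)⟩
  · obtain ⟨o, ho, c⟩ := h2 v hv
    exact ⟨o, ho, c.mono subset_rfl (subset_univ _)⟩

lemma NK_congr {P P' O : Set V} (e : ∀ v ∈ cl (NK P O), v ∈ P ↔ v ∈ P') : NK P' O = NK P O :=
  NK_eq (sub_NK P O) (fun v h1 h2 => (e v h1).1 (NK_bd' h1 h2)) fun v hv => by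
    obtain ⟨o, ho, c⟩ := NK_in hv
    exact ⟨o, ho, c.congr fun x hx => (e x (sub_cl _ hx)).2⟩

/-- the complement of an explored cluster is co-connected -/
lemma coConn_NK {P O : Set V} (h : CoConn Oᶜ) : CoConn (NK P O)ᶜ := by
  intro u hu v hv
  rw [compl_compl]
  obtain ⟨o, ho, c⟩ := NK_in (not_not.1 hu)
  obtain ⟨o', ho', c'⟩ := NK_in (not_not.1 hv)
  have := h o (not_not.2 ho) o' (not_not.2 ho')
  rw [compl_compl] at this
  exact (c.conn.symm.trans (this.mono (sub_NK P O))).trans c'.conn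

lemma coConn_cl {k : Set V} (h : CoConn kᶜ) : CoConn (cl k)ᶜ := by
  have key : ∀ u ∈ cl k, ∃ u' ∈ k, Conn (cl k) u' u := by
    rintro u (hu | ⟨u', hu', e⟩)
    · exact ⟨u, hu, Conn.refl (sub_cl _ hu)⟩
    · exact ⟨u', hu', Conn.single (sub_cl _ hu') e (mem_cl hu' e)⟩
  intro u hu v hv
  rw [compl_compl]
  obtain ⟨u', h1, c⟩ := key u (not_not.1 hu)
  obtain ⟨v', h2, c'⟩ := key v (not_not.1 hv)
  have := h u' (not_not.2 h1) v' (not_not.2 h2)
  rw [compl_compl] at this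
  exact (c.symm.trans (this.mono (sub_cl k))).trans c'

/-- the red cluster of non double edges -/
def RK (s : Bool) (O : Set V) (w : Cf) : Set V := NK (lev (red w) s) O

lemma stop_RK (s : Bool) (O : Set V) : Stop fun w => cl (RK s O w) := fun x y e => by
  have : RK s O y = RK s O x := NK_congr fun v hv => by
    simp only [lev, red, mem_ofPred_eq, e v hv]
  simp only [this]

/-- the constraints `T` with red `s` on both sides of the boundary of `k` -/
def bdy (T : V → Set (Bool × Bool)) (k : Set V) (s : Bool) (v : V) : Set (Bool × Bool) :=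
  {a | a ∈ T v ∧ (v ∈ cl k → v ∈ cl kᶜ → a.1 = s)}

lemma dec_of_red {T : V → Set (Bool × Bool)} {k : Set V} {s : Bool}
    (h : ∀ v ∈ cl k, v ∈ cl kᶜ → ∀ a ∈ T v, a.1 = s) : Dec Cp T k :=
  fun u hu v hv e => Or.inr fun a ha b hb => by
    have : a.1 = b.1 := (h u (sub_cl _ hu) (mem_cl hv e.symm) a ha).trans
      (h v (mem_cl hu e) (sub_cl _ hv) b hb).symm
    exact ⟨Or.inl this, Or.inl this.symm⟩

lemma dec_bdy (T : V → Set (Bool × Bool)) (k : Set V) (s : Bool) : Dec Cp (bdy T k s) k :=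
  dec_of_red fun _ h1 h2 _ ha => ha.2 h1 h2

/-- the fibres of the explored cluster -/
theorem fib_RK (T : V → Set (Bool × Bool)) (s : Bool) (O : Set V) (x : Cf) :
    ∃ E, Dep (RK s O x) E ∧
      Sp T ∩ {y | RK s O y = RK s O x} = Sp (bdy T (RK s O x) s) ∩ E := by
  refine ⟨{y | ∀ v ∈ RK s O x, ∃ o ∈ O, NConn (lev (red y) s) (RK s O x) o v},
    fun y z e hy v hv => ?_, Set.ext fun y => ⟨fun ⟨h1, h2⟩ => ?_, fun ⟨h1, h2⟩ =>
      ⟨⟨h1.1, fun v => (h1.2 v).1⟩, NK_eq (sub_NK _ O) (fun v a b => (h1.2 v).2 a b) h2⟩⟩⟩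
  · obtain ⟨o, ho, c⟩ := hy v hv
    exact ⟨o, ho, c.congr fun u hu h => (congrArg Prod.fst (e u hu)).trans h⟩
  · have h3 : RK s O y = RK s O x := h2
    rw [← h3]
    exact ⟨⟨h1.1, fun v => ⟨h1.2 v, NK_bd'⟩⟩, fun v => NK_in⟩

/-- Markov property at the explored cluster -/
theorem explore {T T' : V → Set (Bool × Bool)} {s : Bool} {O : Set V} {x : Cf} {E : Set Cf}
    (hT : (Sp T).Finite) (hx : x ∈ Sp T) (hxE : x ∈ E) (hE : Dep (RK s O x) E)
    (h1 : ∀ v ∈ cl (RK s O x), ∀ a ∈ T' v, a.1 = s)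
    (h2 : ∀ v, v ∉ RK s O x → ∀ a, a ∈ T' v ↔ a ∈ T v ∧ (v ∈ cl (RK s O x) → a.1 = s))
    (ok : Ok (Sp T')) {f : Cf → ℝ} (hf : DependsOn f (RK s O x)ᶜ) :
    Ex (Sp T ∩ E ∩ {y | RK s O y = RK s O x}) f = Ex (Sp T') f := by
  obtain ⟨E', hE', e⟩ := fib_RK T s O x
  have o : Ok (Sp T ∩ E ∩ {y | RK s O y = RK s O x}) :=
    Ok.inter (hT.inter_of_left _) ⟨hx, hxE⟩ rfl
  rw [inter_right_comm, e, inter_assoc] at o ⊢
  rw [markov (T' := T') (dec_bdy T _ s) (dec_of_red fun v h _ => h1 v h) (fun v hv => ?_)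
    (hE'.inter hE) (Dep.univ _) o (by simpa) hf, inter_univ]
  ext a
  rw [h2 v hv]
  exact ⟨fun h => ⟨h.1, fun h' => h.2 h' (sub_cl _ hv)⟩, fun h => ⟨h.1, fun h' _ => h.2 h'⟩⟩

/-- independence of the two sides of the explored cluster -/
theorem explore_indep (T : V → Set (Bool × Bool)) (s : Bool) (O : Set V) (x : Cf) {f g : Cf → ℝ}
    (hf : DependsOn f (RK s O x)ᶜ) (hg : DependsOn g (RK s O x)) :
    Ex (Sp T ∩ {y | RK s O y = RK s O x}) (fun y => f y * g y) =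
      Ex (Sp T ∩ {y | RK s O y = RK s O x}) f * Ex (Sp T ∩ {y | RK s O y = RK s O x}) g := by
  obtain ⟨E', hE', e⟩ := fib_RK T s O x
  rw [e]
  simpa using markov_indep (dec_bdy T _ s) hE' (Dep.univ _) hf hg

/-- the red constraints after the exploration of `k` -/
def aft (ρ : V → Set Bool) (k : Set V) (s : Bool) (v : V) : Set Bool :=
  {a | (v ∈ cl k → a = s) ∧ (v ∉ k → a ∈ ρ v)}

lemma Tame.aft {ρ : V → Set Bool} {L : Set V} (h : Tame ρ L) {s : Bool} {O : Set V} {x : Cf}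
    (hx : x ∈ Sp (tm ρ L)) : Tame (aft ρ (RK s O x) s) L := by
  obtain ⟨U, hU, hs⟩ := h.sub
  refine ⟨h.fin, h.co, ⟨U, hU, fun v hv a ha b hb => ?_⟩, fun v => ?_⟩
  · by_cases hk : v ∈ RK s O x
    · exact (ha.1 (sub_cl _ hk)).trans (hb.1 (sub_cl _ hk)).symm
    · exact hs v hv (ha.2 hk) (hb.2 hk)
  · by_cases hk : v ∈ RK s O x
    · exact ⟨s, fun _ => rfl, fun h => absurd hk h⟩
    · exact ⟨(x v).1, fun h => NK_bd' h (sub_cl _ hk), fun _ => (hx.2 v).1⟩

theorem explore_tm {ρ : V → Set Bool} {L : Set V} (h : Tame ρ L) {s : Bool} {O : Set V} {x : Cf}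
    {E : Set Cf} (hx : x ∈ Sp (tm ρ L)) (hxE : x ∈ E) (hE : Dep (RK s O x) E) {f : Cf → ℝ}
    (hf : DependsOn f (RK s O x)ᶜ) :
    Ex (Sp (tm ρ L) ∩ E ∩ {y | RK s O y = RK s O x}) f =
      Ex (Sp (tm (aft ρ (RK s O x) s) L)) f :=
  explore (T' := tm (aft ρ (RK s O x) s) L) h.ok.1 hx hxE hE (fun _ hv _ ha => ha.1.1 hv)
    (fun _ hv _ =>
    ⟨fun ha => ⟨⟨ha.1.2 hv, ha.2⟩, ha.1.1⟩, fun ha => ⟨⟨ha.2, fun _ => ha.1.1⟩, ha.1.2⟩⟩)
    (h.aft hx).ok hf

lemma sso_aft (ρ : V → Set Bool) (k : Set V) (v : V) : Sso (ρ v) (aft ρ k true v) := by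
  intro a ha b hb
  by_cases hk : v ∈ k
  · rw [hb.1 (sub_cl _ hk)]
    exact ⟨by simpa using ha, fun _ => by simp, fun h => absurd hk h⟩
  · have := sso_refl (ρ v) a ha b (hb.2 hk)
    exact ⟨this.1, fun h => by rw [hb.1 h]; simp, fun _ => this.2⟩

lemma dep_red {W : Set V} {A : Set (V → Bool)} (h : Dep W A) : Dep W (red ⁻¹' A) :=
  fun x y e => h (red x) (red y) fun v hv => congrArg Prod.fst (e v hv)

lemma dep_blue {W : Set V} {A : Set (V → Bool)} (h : Dep W A) : Dep W (blue ⁻¹' A) :=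
  fun x y e => h (blue x) (blue y) fun v hv => congrArg Prod.snd (e v hv)

/-- an increasing event beyond a double separator does not decrease the weight of the inside -/
theorem tv_half {ρ : V → Set Bool} {L : Set V} (h : Tame ρ L) {I O : Set V} {E : Set (V → Bool)}
    (hE : IsUpperSet E) (hO : Dep O E) (ok : Ok (Sp (tm ρ L) ∩ red ⁻¹' E)) {f : Cf → ℝ}
    (f0 : ∀ w, 0 ≤ f w) (hf : DependsOn f I) :
    Ex (Sp (tm ρ L)) ((red ⁻¹' SepE true I O).indicator f) ≤ Ex (Sp (tm ρ L) ∩ red ⁻¹' E) f := by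
  set M := Sp (tm ρ L) with hM
  set G : Set Cf := red ⁻¹' SepE true I O with hG
  obtain ⟨x0, hx0⟩ := ok.2
  have pos := pr_pos h.ok.1 hx0.1 hx0.2
  refine le_of_mul_le_mul_left ?_ pos
  rw [← ex_cond, ← ex_mul]
  refine ex_fib_le (RK true I) fun x hx => ?_
  by_cases hx' : x ∈ G
  · have d1 : DependsOn ((red ⁻¹' E).indicator (1 : Cf → ℝ)) (RK true I x)ᶜ :=
      ((dep_red hO).mono fun v hv hk => sep_iff.1 hx' v hk hv).ind
    have d2 : DependsOn f (RK true I x) := hf.mono (sub_NK _ _)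
    have e1 := explore_indep (tm ρ L) true I x d1 d2
    have e2 := explore_tm h hx (mem_univ x) (Dep.univ _) d1
    rw [inter_univ] at e2
    have e3 := (hol_tm h.fin h.co (sso_aft ρ (RK true I x))).pr_le h.ok (h.aft hx).ok hE
    rw [pr_eq _ (red ⁻¹' E), pr_eq _ (red ⁻¹' E), ← e2, ← pr_eq] at e3
    rw [ex_mul, ex_congr (f := (red ⁻¹' E).indicator f)
      (g := fun y => (red ⁻¹' E).indicator 1 y * f y) fun y _ => by
        by_cases hy : y ∈ red ⁻¹' E <;> simp [hy], e1]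
    exact mul_le_mul e3 (ex_mono fun y _ => indicator_le_self' (fun _ _ => f0 _) y)
      (ex_nonneg fun y _ => indicator_nonneg (fun _ _ => f0 _) y)
      (ex_nonneg fun y _ => indicator_nonneg (fun _ _ => zero_le_one) y)
  · refine ex_mono fun y hy => ?_
    have hy' : y ∉ G := fun h' => hx' (sep_iff.2 fun v hv => sep_iff.1 h' v (by
      have : RK true I y = RK true I x := hy.2
      exact this.ge hv))
    rw [indicator_of_notMem hy', mul_zero]
    exact indicator_nonneg (fun _ _ => f0 _) y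

/-- coupling lemma -/
theorem tv {ρ : V → Set Bool} {L : Set V} (h : Tame ρ L) {I O : Set V} {E : Set (V → Bool)}
    (hE : IsUpperSet E) (hO : Dep O E) (ok : Ok (Sp (tm ρ L) ∩ red ⁻¹' E)) {f : Cf → ℝ}
    (f0 : ∀ w, 0 ≤ f w) (f1 : ∀ w, f w ≤ 1) (hf : DependsOn f I) :
    |Ex (Sp (tm ρ L) ∩ red ⁻¹' E) f - Ex (Sp (tm ρ L)) f| ≤
      Pr (Sp (tm ρ L)) (red ⁻¹' SepE true I O)ᶜ := by
  have key : ∀ g : Cf → ℝ, (∀ w, 0 ≤ g w) → (∀ w, g w ≤ 1) → DependsOn g I →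
      Ex (Sp (tm ρ L)) g - Pr (Sp (tm ρ L)) (red ⁻¹' SepE true I O)ᶜ ≤
        Ex (Sp (tm ρ L) ∩ red ⁻¹' E) g := fun g g0 g1 hg => by
    refine le_trans ?_ (tv_half h hE hO ok g0 hg)
    rw [pr_eq, ← ex_sub]
    refine ex_mono fun w _ => ?_
    by_cases hw : w ∈ red ⁻¹' SepE true I O
    · simp [hw]
    · simp [hw, g1 w]
  have k1 := key f f0 f1 hf
  have k2 := key (fun w => 1 - f w) (fun w => sub_nonneg.2 (f1 w)) (fun w => sub_le_self _ (f0 w))
    fun x y e => by simp only [hf e]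
  rw [ex_sub, ex_sub, ex_const h.ok, ex_const ok] at k2
  rw [abs_le]
  constructor <;> linarith

/-- comparison of a tame model with the double plus model -/
theorem tv_PP {ρ : V → Set Bool} {L U I : Set V} (h : Tame ρ L) (hU : cl U ⊆ L)
    (h1 : ∀ v ∈ U, ρ v = univ) (h2 : ∀ v ∈ cl (cl U), true ∈ ρ v) (hI : I ⊆ cl U) {f : Cf → ℝ}
    (f0 : ∀ w, 0 ≤ f w) (f1 : ∀ w, f w ≤ 1) (hf : DependsOn f I) :
    |Ex (PP U) f - Ex (Sp (tm ρ L)) f| ≤ Pr (Sp (tm ρ L)) (red ⁻¹' SepE true I Uᶜ)ᶜ := by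
  have hUf : U.Finite := h.fin.subset ((sub_cl U).trans hU)
  set ρ' : V → Set Bool := fun v => {a | a ∈ ρ v ∧ (v ∈ cl (cl U) → v ∉ U → a = true)} with hρ'
  have e : Sp (tm ρ L) ∩ red ⁻¹' {r | ∀ v ∈ cl (cl U), v ∉ U → r v = true} = Sp (tm ρ' L) :=
    Set.ext fun w => ⟨fun hw => ⟨hw.1.1, fun v => ⟨⟨(hw.1.2 v).1, hw.2 v⟩, (hw.1.2 v).2⟩⟩,
      fun hw => ⟨⟨hw.1, fun v => ⟨(hw.2 v).1.1, (hw.2 v).2⟩⟩, fun v => (hw.2 v).1.2⟩⟩
  have t' : Tame ρ' L := by
    obtain ⟨W, hW, hs⟩ := h.sub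
    refine ⟨h.fin, h.co, ⟨W, hW, fun v hv => (hs v hv).anti fun _ h => h.1⟩, fun v => ?_⟩
    by_cases hv : v ∈ cl (cl U)
    · exact ⟨true, h2 v hv, fun _ _ => rfl⟩
    · obtain ⟨a, ha⟩ := h.ne v
      exact ⟨a, ha, fun h => absurd h hv⟩
  have := tv h (I := I) (O := Uᶜ) (E := {r | ∀ v ∈ cl (cl U), v ∉ U → r v = true})
    (fun a b hab ha v h1 h2 => lev_mono hab (ha v h1 h2))
    (fun a b e ha v h1 h2 => (e v h2).symm.trans (ha v h1 h2)) (e ▸ t'.ok) f0 f1 hf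
  rw [e] at this
  rwa [markov' (dec_off' true U (cl U))
    (dec_off (s := true) (ρ := ρ') L fun _ h hv _ ha => ha.2 h hv) (fun v hv => ?_) (ok_PP hUf) t'.ok
    (by simpa using hf.mono hI)]
  have hv' : v ∈ cl U := not_not.1 hv
  ext a
  simp only [tm, off, hρ', mem_ofPred_eq, hv', hU hv', sub_cl _ hv', not_true, false_imp_iff,
    and_true, true_imp_iff]
  refine ⟨fun ha => ⟨?_, ha⟩, fun ha => ha.2⟩
  by_cases hu : v ∈ U
  · rw [h1 v hu]; trivial
  · rw [ha hu]; exact h2 v (sub_cl _ hv')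

/-- comparison of two double plus models -/
theorem tv_PP_PP {U U' I : Set V} (hU' : U'.Finite) (hU : U ⊆ U') (hI : I ⊆ cl U) {f : Cf → ℝ}
    (f0 : ∀ w, 0 ≤ f w) (f1 : ∀ w, f w ≤ 1) (hf : DependsOn f I) :
    |Ex (PP U) f - Ex (PP U') f| ≤ Pr (PP U') (red ⁻¹' SepE true I Uᶜ)ᶜ := by
  obtain ⟨L, f', c', s'⟩ := exists_coConn (cl_finite hU')
  rw [ex_PP hU' f' s' (hf.mono (hI.trans (cl_mono hU))), ← preimage_compl, pr_PP_red hU' f' s',
    preimage_compl]
  exact tv_PP (tame_off true hU' f' c') ((cl_mono hU).trans s')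
    (fun v hv => eq_univ_of_forall fun _ h => absurd (hU hv) h) (fun _ _ _ => rfl) hI f0 f1 hf

end Pool.Agent.Lib.MP_6359c9_pr
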