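import Pool.Agent.Lib.MP_6359c9_pr.WDef
import Pool.Agent.Lib.MP_6359c9_pr.SpD

/-! The cut lemma: labels of the edges of a cut that agree inside faces agree along a component;
basic facts on `NConn`. -/

namespace Pool.Agent.Lib.MP_6359c9_pr

/-- cut lemma for a predicate on the edges from `K` to its complement -/
theorem cut_iff {K : Set V} (hK : ∀ u ∈ K, ∀ v ∈ K, Conn K u v) (good : V → V → Prop)
    (f1 : ∀ u ∈ K, ∀ v, v ∉ K → ∀ w, w ∉ K → Adj u v → Adj u w → Adj v w → good u v → good u w)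
    (f2 : ∀ u ∈ K, ∀ u' ∈ K, ∀ v, v ∉ K → Adj u v → Adj u' v → Adj u u' → good u v → good u' v)
    {u v u' v' : V} (hu : u ∈ K) (hu' : u' ∈ K) (a : Adj u v) (a' : Adj u' v')
    (c : Conn Kᶜ v v') (h : good u v) : good u' v' := by
  classical
  set ω : V → V → ZMod 2 := fun a b =>
    if (a ∈ K ∧ b ∉ K ∧ good a b) ∨ (b ∈ K ∧ a ∉ K ∧ good b a) then 1 else 0 with hω
  have two : (1 : ZMod 2) + 1 = 0 := by decide
  obtain ⟨φ, hφ⟩ := exact ω
    (fun a b _ => by
      simp only [hω]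
      by_cases e : (a ∈ K ∧ b ∉ K ∧ good a b) ∨ (b ∈ K ∧ a ∉ K ∧ good b a)
      · rw [if_pos e, if_pos e.symm]; decide
      · rw [if_neg e, if_neg fun e' => e (Or.symm e')]; simp)
    (fun a b c ab bc ac => by
      simp only [hω]
      by_cases ha : a ∈ K <;> by_cases hb : b ∈ K <;> by_cases hc : c ∈ K
      · simp [ha, hb, hc]
      · have := f2 a ha b hb c hc ac bc ab
        have := f2 b hb a ha c hc bc ac ab.symm
        by_cases e : good a c <;> simp_all
      · have := f2 a ha c hc b hb ab bc.symm ac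
        have := f2 c hc a ha b hb bc.symm ab ac.symm
        by_cases e : good a b <;> simp_all
      · have := f1 a ha b hb c hc ab ac bc
        have := f1 a ha c hc b hb ac ab bc.symm
        by_cases e : good a b <;> simp_all
      · have := f2 b hb c hc a ha ab.symm ac.symm bc
        have := f2 c hc b hb a ha ac.symm ab.symm bc.symm
        by_cases e : good b a <;> simp_all
      · have := f1 b hb a ha c hc ab.symm bc ac
        have := f1 b hb c hc a ha bc ab.symm ac.symm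
        by_cases e : good b a <;> simp_all
      · have := f1 c hc a ha b hb ac.symm bc.symm ab
        have := f1 c hc b hb a ha bc.symm ac.symm ab.symm
        by_cases e : good c a <;> simp_all
      · simp [ha, hb, hc])
  have e1 : φ u = φ u' := (hK u hu u' hu').const fun a ha b hb ab => by
    rw [hφ a b ab]; simp [hω, ha, hb]
  have e2 : φ v = φ v' := c.const fun a ha b hb ab => by
    have ha' : a ∉ K := ha
    have hb' : b ∉ K := hb
    rw [hφ a b ab]; simp [hω, ha', hb']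
  have hv : v ∉ K := c.left
  have hv' : v' ∉ K := c.right
  have e3 := hφ u v a
  have e4 := hφ u' v' a'
  by_contra hn
  simp only [hω, hu, hv, h, hu', hv', hn] at e3 e4
  simp only [not_false_eq_true, and_self, not_true_eq_false, false_and, and_false, or_false,
    if_true, if_false, add_zero] at e3 e4
  rw [e2, e4, e1] at e3
  exact absurd (add_eq_left.1 e3.symm) (by decide)

namespace NConn

variable {P S T P' : Set V} {u v w : V}

lemma left (h : NConn P S u v) : u ∈ S := h.1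

lemma single (hu : u ∈ S) (a : Adj u v) (hv : v ∈ S) (n : ¬(u ∈ P ∧ v ∈ P)) : NConn P S u v :=
  (refl hu).tail a hv n

lemma mono' (h : NConn P S u v) (hS : S ⊆ T) (hP : ∀ x ∈ S, x ∈ P' → x ∈ P) : NConn P' T u v :=
  h.ind (Q := fun x => NConn P' T u x) (refl (hS h.1)) fun _ _ ha a hb n ih =>
    ih.tail a (hS hb) fun e => n ⟨hP _ ha.right e.1, hP _ hb e.2⟩

lemma cluster (h : NConn P S u v) : NConn P {x | NConn P S u x} u v :=
  h.ind (Q := fun x => NConn P {x | NConn P S u x} u x) (refl (refl h.1))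
    fun _ _ ha a hb n ih => ih.tail a (ha.tail a hb n) n

/-- first exit from `T` -/
lemma exit (h : NConn P S u v) (hu : u ∈ T) (hv : v ∉ T) :
    ∃ a b, NConn P (S ∩ T) u a ∧ Adj a b ∧ ¬(a ∈ P ∧ b ∈ P) ∧ b ∉ T ∧ NConn P S b v := by
  have key : NConn P (S ∩ T) u v ∨
      ∃ a b, NConn P (S ∩ T) u a ∧ Adj a b ∧ ¬(a ∈ P ∧ b ∈ P) ∧ b ∉ T ∧ NConn P S b v := by
    refine h.ind (Q := fun x => NConn P (S ∩ T) u x ∨
      ∃ a b, NConn P (S ∩ T) u a ∧ Adj a b ∧ ¬(a ∈ P ∧ b ∈ P) ∧ b ∉ T ∧ NConn P S b x)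
      (Or.inl (refl ⟨h.1, hu⟩)) ?_
    rintro a b _ ab hb n (ih | ⟨c, d, h1, h2, h3, h4, h5⟩)
    · by_cases hT : b ∈ T
      · exact Or.inl (ih.tail ab ⟨hb, hT⟩ n)
      · exact Or.inr ⟨a, b, ih, ab, n, hT, refl hb⟩
    · exact Or.inr ⟨c, d, h1, h2, h3, h4, h5.tail ab hb n⟩
  rcases key with h1 | h1
  · exact absurd h1.right.2 hv
  · exact h1

end NConn

lemma Conn.nconn' {P S : Set V} {u v : V} (h : Conn S u v) (d : Disjoint S P) : NConn P S u v :=
  h.ind (P := fun x => NConn P S u x) (NConn.refl h.1) fun _ _ _ a hb ih =>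
    ih.tail a hb fun e => Set.disjoint_left.1 d hb e.2

lemma mem_Bx_ds {z v : V} {m : ℤ} : v ∈ Bx z m ↔ ds v z ≤ m := by
  simp only [mem_Bx, ds, max_le_iff, abs_le]; omega

lemma ds_comm (u v : V) : ds u v = ds v u := by
  simp only [ds, abs_sub_comm]

lemma ds_nonneg (u v : V) : 0 ≤ ds u v := le_max_of_le_left (abs_nonneg _)

lemma ds_self (u : V) : ds u u = 0 := by simp [ds]

lemma ds_tri (u v w : V) : ds u w ≤ ds u v + ds v w := by
  simp only [ds, max_le_iff]
  have := abs_sub_le u.1 v.1 w.1; have := abs_sub_le u.2 v.2 w.2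
  have := le_max_left |u.1 - v.1| |u.2 - v.2|; have := le_max_right |u.1 - v.1| |u.2 - v.2|
  have := le_max_left |v.1 - w.1| |v.2 - w.2|; have := le_max_right |v.1 - w.1| |v.2 - w.2|
  omega

lemma Adj.ds_eq {u v : V} (h : Adj u v) : ds u v = 1 := by
  unfold Adj at h
  simp only [ds]
  rcases h with h | h | h | h | h | h <;> rw [h.1, h.2] <;> simp

lemma Adj.ds_le {u v : V} (h : Adj u v) (x : V) : ds v x ≤ ds u x + 1 := by
  have := ds_tri v u x
  have := h.symm.ds_eq
  omega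

lemma Bx_mono' (z : V) {m m' : ℤ} (h : m ≤ m') : Bx z m ⊆ Bx z m' := fun _ hv =>
  mem_Bx_ds.2 ((mem_Bx_ds.1 hv).trans h)

lemma Bx_conn {z u v : V} {m : ℤ} (hu : u ∈ Bx z m) (hv : v ∈ Bx z m) : Conn (Bx z m) u v :=
  Rec_conn hu hv

lemma coBx_conn {z u v : V} {m : ℤ} (hu : u ∉ Bx z m) (hv : v ∉ Bx z m) : Conn (Bx z m)ᶜ u v :=
  coRec_conn hu hv

end Pool.Agent.Lib.MP_6359c9_pr
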