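import Pool.Agent.Lib.MP_6359c9_pr.InfRP
import Pool.Agent.Lib.MP_6359c9_pr.WCut

/-! Statements of the lattice estimates that carry the plane results to a domain. -/

namespace Pool.Agent.Lib.MP_6359c9_pr

open Set Filter Topology

/-- the tame model: red in `ρ`, blue plus off `W` -/
abbrev MS (ρ : V → Set Bool) (W : Set V) : Set Cf := Sp (tm ρ W)

/-- both spins are free on `A` -/
def Free (ρ : V → Set Bool) (W A : Set V) : Prop := ∀ v ∈ A, ρ v = univ ∧ v ∈ W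

/-- the points at sup distance at most `d` from `I` -/
def Nbd (I : Set V) (d : ℤ) : Set V := {v | ∃ u ∈ I, v ∈ Bx u d}

/-- indicator of: the red double plus edges separate `I` from `O` -/
noncomputable def sepI (I O : Set V) : Cf → ℝ := (red ⁻¹' SepE true I O).indicator 1

/-- red is plus on `S` -/
def RP (S : Set V) : Set Cf := {w | ∀ v ∈ S, (w v).1 = true}

/-- indicator of `RP S` -/
noncomputable def rpI (S : Set V) : Cf → ℝ := (RP S).indicator 1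

/-- increasing red events have comparable probabilities in all models that are free around -/
def CmprSt : Prop := ∀ L : ℕ, ∃ C > (0 : ℝ), ∀ (ρ ρ' : V → Set Bool) (W W' I : Set V) (x : V)
  (d : ℤ) (E : Set (V → Bool)), Tame ρ W → Tame ρ' W' → 1 ≤ d → I ⊆ Bx x (L * d) →
    Free ρ W (Nbd I (d + 1)) → Free ρ' W' (Nbd I (d + 1)) → IsUpperSet E → Dep I E →
    Pr (MS ρ' W') (red ⁻¹' E) ≤ C * Pr (MS ρ W) (red ⁻¹' E)

/-- positivity, FKG and the lower comparison for the events `RP S` -/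
def RpSt : Prop := (∀ S : Set V, S.Finite → 0 < Einf (rpI S)) ∧
  (∀ S S' : Set V, S.Finite → S'.Finite → Einf (rpI S) * Einf (rpI S') ≤ Einf (rpI (S ∪ S'))) ∧
  ∀ L : ℕ, ∃ C > (0 : ℝ), ∀ (ρ : V → Set Bool) (W S : Set V) (x : V) (d : ℤ), Tame ρ W → 1 ≤ d →
    S ⊆ Bx x (L * d) → Free ρ W (Nbd S (d + 1)) → Einf (rpI S) ≤ C * Pr (MS ρ W) (RP S)

/-- one sided ratio mixing -/
def Rm1St : Prop := ∀ L : ℕ, ∃ C > (0 : ℝ), ∀ (ρ : V → Set Bool) (W I J : Set V) (x : V) (d : ℤ)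
  (f : Cf → ℝ), Tame ρ W → 1 ≤ d → I ⊆ J → cl J ⊆ Bx x (L * d) →
    Free ρ W (Nbd (cl J) (d + 1)) → Lcl I f → (∀ w ∈ Val, 0 ≤ f w) →
    Ex (MS ρ W) (fun w => sepI I Jᶜ w * f w) ≤ C * Einf f

/-- two sided ratio mixing in the plane -/
def Rm2St : Prop := ∀ L : ℕ, ∃ C > (0 : ℝ), ∀ (I J I' S : Set V) (x : V) (d : ℤ) (f F : Cf → ℝ),
  1 ≤ d → I ⊆ J → cl J ⊆ Bx x (L * d) → Nbd (cl J) (d + 3) ⊆ I' → S.Finite → Lcl I f →
    Lc Sᶜ F → (∀ w ∈ Val, 0 ≤ f w) → (∀ w ∈ Val, 0 ≤ F w) →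
    Einf (fun w => F w * (sepI I' Sᶜ w * (sepI I Jᶜ w * f w))) ≤ C * (Einf F * Einf f)

/-- decoupling of a box from the far field -/
def MixSt : Prop := ∃ C α : ℝ, 0 < C ∧ 0 < α ∧ ∀ (ρ : V → Set Bool) (W : Set V) (x : V) (n N : ℤ)
  (G F : Cf → ℝ), Tame ρ W → 1 ≤ n → n ≤ N → Free ρ W (Bx x N) → Lcl (Bx x n) G →
    Lcl (Bx x N)ᶜ F → (∀ w ∈ Val, |G w| ≤ 1) → (∀ w ∈ Val, |F w| ≤ 1) →
    |Ex (MS ρ W) (fun w => G w * F w) - Einf G * Ex (MS ρ W) F| ≤ C * ((n : ℝ) / N) ^ α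

/-- one level for all long paths that meet a connected set -/
def OscSt : Prop := ∀ L : ℕ, ∃ (θ : ℝ) (A : ℕ), 0 ≤ θ ∧ θ < 1 ∧ ∀ (ρ : V → Set Bool) (W I : Set V)
  (x : V) (d : ℤ) (j : ℕ), Tame ρ W → 1 ≤ d → I ⊆ Bx x (L * d) → (∀ u ∈ I, ∀ v ∈ I, Conn I u v) →
    Free ρ W (Nbd I (3 * d)) →
    Pr (MS ρ W) {w | ¬∃ k : ℤ, ∀ u ∈ I, ∀ v, v ∉ Bx u d →
      ¬Conn {y | gr w y < k ∨ k + A * (j + 1) < gr w y} u v} ≤ A * θ ^ j

/-- a double plus separator has a conditional probability that is typically bounded below -/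
def TypSt : Prop := ∀ (L : ℕ) (ε : ℝ), 0 < ε → ∃ (c : ℝ) (d0 : ℤ), 0 < c ∧
  ∀ (ρ : V → Set Bool) (W I O : Set V) (x : V) (d : ℤ) (F : Cf → ℝ), Tame ρ W → d0 ≤ d →
    (∀ u ∈ I, ∀ v ∈ I, Conn I u v) → CoConn Oᶜ → Oᶜ ⊆ Bx x (L * d) → Disjoint (Nbd I d) O →
    Free ρ W (I ∪ O)ᶜ → Lcl (I ∪ O) F → (∀ w ∈ Val, 0 ≤ F w ∧ F w ≤ 1) →
    c * (Ex (MS ρ W) F - ε) ≤ Ex (MS ρ W) fun w => sepI I O w * F w

/-- alternating exploration from `O` -/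
def KK (O : Set V) (w : Cf) : ℕ → Set V
  | 0 => O
  | i + 1 => RK (decide (Even i)) (cl (KK O w i)) w

/-- the number of steps after which the exploration from `O` meets `B` -/
noncomputable def Tn (O B : Set V) (w : Cf) : ℕ := sInf {i | ∃ v ∈ B, v ∈ KK O w i}

/-- moments of the exploration time -/
def TtSt : Prop := ∀ q : ℕ, ∃ C > (0 : ℝ), ∀ (ρ : V → Set Bool) (W O : Set V) (x : V) (r N : ℤ),
  Tame ρ W → CoConn Oᶜ → Free ρ W Oᶜ → 0 ≤ r → r ≤ N → (∃ o ∈ O, o ∈ Bx x N) →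
    Ex (MS ρ W) (fun w => ((Tn O (Bx x r) w : ℝ) + 1) ^ q) ≤
      C * (1 + Real.log ((N + 1) / (r + 1))) ^ q

/-- a tame model that is free on `U` and has heights in a pair of levels off `U` -/
structure Clo (ρ : V → Set Bool) (W U : Set V) : Prop where
  tame : Tame ρ W
  co : CoConn U
  free : Free ρ W U
  osc : ∀ w ∈ MS ρ W, ∀ u, u ∉ U → ∀ v, v ∉ U → |gr w u - gr w v| ≤ 1

/-- logarithmic weight of a pair of points at scale `n` -/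
noncomputable def Lg (n : ℤ) (u v : V) : ℝ := 1 + Real.log ((2 * n + 1) / (ds u v + 1))

/-- a linear statistic of the heights relative to `o` -/
noncomputable def lin (s : Finset V) (f : V → ℝ) (o : V) (w : Cf) : ℝ :=
  ∑ v ∈ s, f v * ((gr w v : ℝ) - gr w o)

/-- the quadratic form that controls linear statistics -/
noncomputable def Qf (n : ℤ) (s : Finset V) (f f' : V → ℝ) : ℝ :=
  ∑ u ∈ s, ∑ v ∈ s, |f u| * |f' v| * Lg n u v ^ 2

/-- moments of linear statistics relative to the wall -/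
def MomASt : Prop := ∀ q : ℕ, ∃ C > (0 : ℝ), ∀ (ρ : V → Set Bool) (W U : Set V) (x o : V)
  (n N : ℤ) (s : Finset V) (f : V → ℝ), Clo ρ W U → o ∉ U → 1 ≤ n → n ≤ N → Bx x (2 * n) ⊆ U →
    ¬Bx x N ⊆ U → (s : Set V) ⊆ Bx x n →
    Ex (MS ρ W) (fun w => lin s f o w ^ (2 * q)) ≤ C * Qf N s f f ^ q

/-- moments of neutral linear statistics -/
def MomNSt : Prop := ∀ q : ℕ, ∃ C > (0 : ℝ), ∀ (ρ : V → Set Bool) (W U : Set V) (x o : V)
  (n : ℤ) (s : Finset V) (f : V → ℝ), Clo ρ W U → 1 ≤ n → Bx x (2 * n) ⊆ U →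
    (s : Set V) ⊆ Bx x n → ∑ v ∈ s, f v = 0 →
    Ex (MS ρ W) (fun w => lin s f o w ^ (2 * q)) ≤ C * Qf n s f f ^ q

/-- covariances of neutral linear statistics -/
def CovNSt : Prop := ∃ C > (0 : ℝ), ∀ (ρ : V → Set Bool) (W U : Set V) (x o : V)
  (n : ℤ) (s : Finset V) (f f' : V → ℝ), Clo ρ W U → 1 ≤ n → Bx x (2 * n) ⊆ U →
    (s : Set V) ⊆ Bx x n → ∑ v ∈ s, f v = 0 → ∑ v ∈ s, f' v = 0 →
    |Ex (MS ρ W) fun w => lin s f o w * lin s f' o w| ≤ C * Qf n s f f'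

/-- the same two bounds in the plane -/
def MomISt : Prop := (∀ q : ℕ, ∃ C > (0 : ℝ), ∀ (x o : V) (n : ℤ) (s : Finset V) (f : V → ℝ),
    1 ≤ n → (s : Set V) ⊆ Bx x n → ∑ v ∈ s, f v = 0 →
    Einf (fun w => lin s f o w ^ (2 * q)) ≤ C * Qf n s f f ^ q) ∧
  ∃ C > (0 : ℝ), ∀ (x o : V) (n : ℤ) (s : Finset V) (f f' : V → ℝ), 1 ≤ n →
    (s : Set V) ⊆ Bx x n → ∑ v ∈ s, f v = 0 → ∑ v ∈ s, f' v = 0 →
    |Einf fun w => lin s f o w * lin s f' o w| ≤ C * Qf n s f f'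

/-- moments of neutral linear statistics in every tame model that is free around -/
def MomTSt : Prop := ∀ q : ℕ, ∃ C > (0 : ℝ), ∀ (ρ : V → Set Bool) (W : Set V) (x o : V)
  (n : ℤ) (s : Finset V) (f : V → ℝ), Tame ρ W → 1 ≤ n → Free ρ W (Bx x (4 * n)) →
    (s : Set V) ⊆ Bx x n → ∑ v ∈ s, f v = 0 →
    Ex (MS ρ W) (fun w => lin s f o w ^ (2 * q)) ≤ C * Qf n s f f ^ q

/-- covariances of neutral linear statistics in every tame model that is free around -/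
def CovTSt : Prop := ∃ C > (0 : ℝ), ∀ (ρ : V → Set Bool) (W : Set V) (x o : V)
  (n : ℤ) (s : Finset V) (f f' : V → ℝ), Tame ρ W → 1 ≤ n → Free ρ W (Bx x (4 * n)) →
    (s : Set V) ⊆ Bx x n → ∑ v ∈ s, f v = 0 → ∑ v ∈ s, f' v = 0 →
    |Ex (MS ρ W) fun w => lin s f o w * lin s f' o w| ≤ C * Qf n s f f'

/-- fourth moment bound in every tame model that is free on `B` -/
def Tm4 (C : ℝ) (B : Set V) (X : Cf → ℝ) : Prop :=
  ∀ (ρ : V → Set Bool) (W : Set V), Tame ρ W → Free ρ W B → Ex (MS ρ W) (fun w => X w ^ 4) ≤ C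

/-- a local function that is null for the reflection form is orthogonal to the outside -/
def Null1St : Prop := ∃ K : ℕ, 4 ≤ K ∧ ∀ (ι : Type) (l : Filter ι) (n : ι → ℤ) (x : ι → V)
  (ρ : ι → V → Set Bool) (W : ι → Set V) (X Y : ι → Cf → ℝ) (C : ℝ), Tendsto n l atTop →
    (∀ i, Tame (ρ i) (W i) ∧ Free (ρ i) (W i) (Bx (x i) (K * n i)) ∧ Lcl (Bx (x i) (n i)) (X i) ∧
      Lcl (Bx (x i) (K * n i))ᶜ (Y i) ∧ Tm4 C (Bx (x i) (4 * n i)) (X i) ∧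
      ∀ w ∈ Val, |Y i w| ≤ 1) →
    Tendsto (fun i => Einf fun w => X i w * X i (act (rfj ((x i).2 - 2 * n i)) w)) l (𝓝 0) →
    Tendsto (fun i => Ex (MS (ρ i) (W i)) fun w => X i w * Y i w) l (𝓝 0)

/-- the same under a fourth moment bound for the outside function -/
def NullSt : Prop := ∃ K : ℕ, 4 ≤ K ∧ ∀ (ι : Type) (l : Filter ι) (n : ι → ℤ) (x : ι → V)
  (ρ : ι → V → Set Bool) (W : ι → Set V) (X Y : ι → Cf → ℝ) (C : ℝ), Tendsto n l atTop →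
    (∀ᶠ i in l, Tame (ρ i) (W i) ∧ Free (ρ i) (W i) (Bx (x i) (K * n i)) ∧
      Lcl (Bx (x i) (n i)) (X i) ∧ Lcl (Bx (x i) (K * n i))ᶜ (Y i) ∧
      Tm4 C (Bx (x i) (4 * n i)) (X i) ∧ Ex (MS (ρ i) (W i)) (fun w => Y i w ^ 4) ≤ C) →
    Tendsto (fun i => Einf fun w => X i w * X i (act (rfj ((x i).2 - 2 * n i)) w)) l (𝓝 0) →
    Tendsto (fun i => Ex (MS (ρ i) (W i)) fun w => X i w * Y i w) l (𝓝 0)

end Pool.Agent.Lib.MP_6359c9_pr
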