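import Pool.Agent.Lib.MP_6359c9_pr.SpecC
import Pool.Agent.Lib.MP_6359c9_pr.Spec
import Pool.Agent.Lib.MP_6359c9_pr.CovA

/-! Spin dictionary and geometry for sequences of discrete domains. -/

namespace Pool.Agent.Lib.MP_6359c9_pr

open Set Filter Topology MeasureTheory

/-- the spins of the heights `g - 1` -/
def sq (g : V → ℤ) : Cf := spn fun v => g v - 1

/-- the red data of the wall `ξ` -/
def rhoD (U : Set V) (ξ : V → ℤ) (v : V) : Set Bool := {a | v ∉ U → (a = true ↔ ξ v = 1)}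

lemma mean_eq {α : Type} (S : Set α) (f : α → ℝ) : mean S f = Ex S f := rfl

section

variable {U : Set V} {ξ g : V → ℤ}

theorem bij_sq (hU : Cls U) (h : ∀ v, v ∉ U → ξ v = 0 ∨ ξ v = 1) :
    BijOn sq (HD U ξ) (MS (rhoD U ξ) U) := by
  have b1 : BijOn (fun (g : V → ℤ) v => 1 - g v) (HD U ξ) (HD U fun v => 1 - ξ v) :=
    bij_neg 1 fun v a => by simp [wl]
  have b2 : BijOn spn (HD U fun v => 1 - ξ v) (Sp (tb (rhoD U ξ) U)) :=
    bij_spn hU.fin hU.co (fun v hv a ha => by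
        have : a = 1 - ξ v := ha hv
        have := h v hv
        omega)
      (fun _ hv _ hs => hs.2 hv) fun v a k => by
        have := h v
        simp only [wl, tb, rhoD, mem_ofPred_eq, sp1_red, sp1_blue]
        by_cases h1 : v ∈ U
        · simp [h1]
        · simp only [h1, not_false_eq_true, forall_const] at *
          omega
  refine (((bij_tb _ _).comp b2).comp b1).congr fun g _ => funext fun v => ?_
  simp only [Function.comp, sw, sq, spn, sp1, Prod.swap, Prod.mk.injEq, decide_eq_decide]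
  omega

lemma Lp.pred (hg : Lp g) : (fun v => g v - 1) ∈ Ht fun _ => univ :=
  ⟨fun u v e => by have := hg u v e; simp only [Hp] at *; omega, fun _ => trivial⟩

lemma sq_val (hg : Lp g) : sq g ∈ Val := spn_val hg.pred

lemma gr_sq (hg : Lp g) (v o : V) : gr (sq g) v - gr (sq g) o = g v - g o := by
  rw [sq, gr_spn hg.pred, gr_spn hg.pred]; ring

lemma gr_sq' (hg : Lp g) (v o : V) : (gr (sq g) v : ℝ) - gr (sq g) o = g v - g o := by
  exact_mod_cast gr_sq hg v o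

lemma lin_sq (hg : Lp g) (s : Finset V) (f : V → ℝ) (o : V) :
    lin s f o (sq g) = ∑ v ∈ s, f v * ((g v : ℝ) - g o) := by
  simp only [lin, gr_sq' hg]

theorem clo_rho (hU : Cls U) (h : ∀ v, v ∉ U → ξ v = 0 ∨ ξ v = 1) : Clo (rhoD U ξ) U U := by
  refine ⟨⟨hU.fin, hU.co, ⟨U, hU.fin, fun v hv a ha b hb => ?_⟩,
    fun v => ⟨decide (ξ v = 1), fun _ => by simp⟩⟩, hU.co,
    fun v hv => ⟨eq_univ_of_forall fun _ k => absurd hv k, hv⟩, fun w hw u hu v hv => ?_⟩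
  · exact Bool.eq_iff_iff.2 ((ha hv).trans (hb hv).symm)
  · obtain ⟨g, hg, rfl⟩ := (bij_sq hU h).surjOn hw
    rw [gr_sq hg.1, hg.2 u hu, hg.2 v hv, abs_le]
    have := h u hu; have := h v hv
    omega

end

/-! ### boxes and discs -/

section

variable {d : ℝ}

lemma pos_sq (hd : 0 < d) (u v : V) : ‖pos d u - pos d v‖ ^ 2 =
    d ^ 2 * (((u.1 : ℝ) - v.1) ^ 2 + (u.1 - v.1) * (u.2 - v.2) + (u.2 - v.2) ^ 2) := by
  rw [pos_sub_sq hd, cx_pos' hd, cy_pos' hd]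

lemma ds_cast (u v : V) : (ds u v : ℝ) = max |(u.1 : ℝ) - v.1| |(u.2 : ℝ) - v.2| := by
  simp [ds]

lemma norm_le_ds (hd : 0 < d) (u v : V) : ‖pos d u - pos d v‖ ≤ 2 * d * ds u v := by
  have h0 : (0 : ℝ) ≤ ds u v := by exact_mod_cast ds_nonneg u v
  refine abs_le_of_sq_le_sq' ?_ (by positivity) |>.2
  have h1 := abs_le.1 ((le_max_left _ _).trans (ds_cast u v).ge)
  have h2 := abs_le.1 ((le_max_right _ _).trans (ds_cast u v).ge)
  rw [pos_sq hd]
  generalize (u.1 : ℝ) - v.1 = a at *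
  generalize (u.2 : ℝ) - v.2 = b at *
  generalize (ds u v : ℝ) = m at *
  have : a ^ 2 + a * b + b ^ 2 ≤ 4 * m ^ 2 := by nlinarith [sq_nonneg (a - b)]
  nlinarith [sq_nonneg d]

lemma ds_le_norm (hd : 0 < d) (u v : V) : d * ds u v ≤ 2 * ‖pos d u - pos d v‖ := by
  refine abs_le_of_sq_le_sq' ?_ (by positivity) |>.2
  rw [mul_pow, mul_pow, pos_sq hd, ds_cast]
  generalize (u.1 : ℝ) - v.1 = a
  generalize (u.2 : ℝ) - v.2 = b
  have : max |a| |b| ^ 2 ≤ 2 ^ 2 * (a ^ 2 + a * b + b ^ 2) := by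
    rcases max_choice |a| |b| with h | h <;> rw [h, sq_abs] <;>
      nlinarith [sq_nonneg (a + b), sq_nonneg (a + 2 * b), sq_nonneg (2 * a + b)]
  nlinarith [sq_nonneg d]

/-- a vertex near the point `z` -/
noncomputable def nr (d : ℝ) (z : ℂ) : V := vt d z 0

lemma nr_near (hd : 0 < d) (z : ℂ) : ‖pos d (nr d z) - z‖ ≤ d := vt_near hd z 0

/-- the vertices of a disc lie in a box -/
lemma Bx_of_norm (hd : 0 < d) {c : ℂ} {r : ℝ} {m : ℤ} {x v : V} (hx : ‖pos d x - c‖ ≤ d)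
    (hv : ‖pos d v - c‖ ≤ r) (hm : 2 * r / d + 2 ≤ m) : v ∈ Bx x m := by
  rw [mem_Bx_ds]
  have h1 := ds_le_norm hd v x
  have h2 := norm_sub_le_norm_sub_add_norm_sub (pos d v) c (pos d x)
  rw [norm_sub_rev c] at h2
  have h3 : 2 * r / d * d = 2 * r := by field_simp
  have : (ds v x : ℝ) ≤ m := le_of_mul_le_mul_left (by nlinarith) hd
  exact_mod_cast this

/-- the vertices of a box lie in a disc -/
lemma norm_of_Bx (hd : 0 < d) {c : ℂ} {m : ℤ} {x v : V} (hx : ‖pos d x - c‖ ≤ d)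
    (hv : v ∈ Bx x m) : ‖pos d v - c‖ ≤ 2 * d * m + d := by
  have h1 := norm_le_ds hd v x
  have h2 := norm_sub_le_norm_sub_add_norm_sub (pos d v) (pos d x) c
  have h3 : (ds v x : ℝ) ≤ m := by exact_mod_cast mem_Bx_ds.1 hv
  nlinarith

end

namespace Sq

variable {Ω : Set ℂ} (A : Sq Ω)

/-- the red data of the spin model of `A` -/
def rho (n : ℕ) : V → Set Bool := rhoD (A.U n) (A.ξ n)

/-- the spin model of `A` -/
abbrev M (n : ℕ) : Set Cf := MS (A.rho n) (A.U n)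

theorem clo (n : ℕ) : Clo (A.rho n) (A.U n) (A.U n) := clo_rho (A.cls n) (A.two n)

theorem bij (n : ℕ) : BijOn sq (HD (A.U n) (A.ξ n)) (A.M n) := bij_sq (A.cls n) (A.two n)

theorem ok (n : ℕ) : Ok (HD (A.U n) (A.ξ n)) :=
  ok_two (k := 0) (A.cls n).fin fun v hv => by simpa using A.two n v hv

theorem okM (n : ℕ) : Ok (A.M n) := (A.clo n).tame.ok

variable (hc : ContSt)

theorem mean_sq (n : ℕ) (F : Cf → ℝ) :
    mean ((A.fld hc).S n) (fun g => F (sq g)) = Ex (A.M n) F := ex_bij (A.bij n) F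

/-- averages of the field are averages of the spin model -/
theorem mean_M (n : ℕ) {G : (V → ℤ) → ℝ} {F : Cf → ℝ}
    (h : ∀ g ∈ HD (A.U n) (A.ξ n), G g = F (sq g)) : mean ((A.fld hc).S n) G = Ex (A.M n) F :=
  (ex_congr h).trans (A.mean_sq hc n F)

theorem Phi_eq (n : ℕ) (g : V → ℤ) (z : ℂ) : (A.fld hc).Φ n g z = exR (A.δ n)
    (fun v => 2 * ((g v : ℝ) - Ex (HD (A.U n) (A.ξ n)) fun g' => (g' v : ℝ))) z := by
  change 2 * (ext _ g z - Ex _ fun g' => ext _ g' z) = _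
  simp only [ext_eq, exR, ex_sum, ex_mul, ← Finset.sum_sub_distrib, Finset.mul_sum]
  exact Finset.sum_congr rfl fun _ _ => by ring

variable {f : ℂ → ℝ} {S : Finset V} {n : ℕ}

theorem X_sum (hf : Integrable f) (hS : Cvr (A.δ n) f S) (g : V → ℤ) : (A.fld hc).X f n g =
    2 * ∑ v ∈ S, Wt (A.δ n) f v * ((g v : ℝ) - Ex (HD (A.U n) (A.ξ n)) fun g' => (g' v : ℝ)) := by
  simp only [End.Fld.X, Phi_eq, int_exR (A.δpos n) hf hS, Finset.mul_sum]
  exact Finset.sum_congr rfl fun _ _ => by ring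

/-- the pairing as a centred linear statistic of the spin model -/
theorem X_lin (hf : Integrable f) (hS : Cvr (A.δ n) f S) {o : V}
    (ho : o ∉ A.U n ∨ ∫ z, f z = 0) {g : V → ℤ} (hg : g ∈ HD (A.U n) (A.ξ n)) :
    (A.fld hc).X f n g = 2 * (lin S (Wt (A.δ n) f) o (sq g) -
      Ex (A.M n) (lin S (Wt (A.δ n) f) o)) := by
  rw [A.X_sum hc hf hS, ← ex_bij (A.bij n), ex_congr fun g' h' => lin_sq h'.1 S _ o, lin_sq hg.1]
  simp only [ex_sum, ex_mul, ex_sub, mul_sub, Finset.sum_sub_distrib, ← Finset.sum_mul]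
  rcases ho with ho | ho
  · rw [ex_congr (g := fun _ => (g o : ℝ)) fun g' h' => by rw [h'.2 o ho, hg.2 o ho],
      ex_const (A.ok n)]
    ring
  · rw [sum_Wt (A.δpos n) hf hS, ho]; ring

omit hc

theorem small {ε : ℝ} (hε : 0 < ε) : ∀ᶠ n in atTop, A.δ n ≤ ε :=
  (A.lim.eventually (gt_mem_nhds hε)).mono fun _ => le_of_lt

/-- a neighbourhood of a compact set is eventually free -/
theorem inn' (hΩ : IsOpen Ω) {K : Set ℂ} (hK : K ⊆ Ω) (cK : IsCompact K) : ∃ r > 0,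
    ∀ᶠ n in atTop, ∀ x ∈ K, ∀ v, ‖pos (A.δ n) v - x‖ ≤ r → v ∈ A.U n := by
  obtain ⟨r, hr, h⟩ := cK.exists_cthickening_subset_open hΩ hK
  exact ⟨r, hr, (A.inn _ h cK.cthickening).mono fun n k x hx v hv =>
    k v (Metric.mem_cthickening_of_dist_le _ x _ _ hx (by rwa [dist_eq_norm]))⟩

/-- discs inside `Ω` are eventually free -/
theorem inn_ball {x : ℂ} {r : ℝ} (h : r < Metric.infDist x Ωᶜ) :
    ∀ᶠ n in atTop, ∀ v, ‖pos (A.δ n) v - x‖ ≤ r → v ∈ A.U n :=
  (A.inn _ (fun z hz => by_contra fun k => (h.trans_le (Metric.infDist_le_dist_of_mem k)).not_ge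
    (Metric.mem_closedBall'.1 hz)) (isCompact_closedBall x r)).mono fun n k v hv =>
    k v (by rwa [Metric.mem_closedBall, dist_eq_norm])

/-- the wall is eventually near every point of the frontier -/
theorem out' (hb : Bornology.IsBounded Ω) {ε : ℝ} (hε : 0 < ε) :
    ∀ᶠ n in atTop, ∀ w ∈ frontier Ω, ∃ o, o ∉ A.U n ∧ ‖pos (A.δ n) o - w‖ ≤ ε := by
  have cF : IsCompact (frontier Ω) :=
    hb.isCompact_closure.of_isClosed_subset isClosed_frontier frontier_subset_closure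
  obtain ⟨t, ht, tf, hc⟩ := cF.finite_cover_balls (half_pos hε)
  filter_upwards [(eventually_all_finite tf).2 fun y hy => A.out y (ht hy) _ (half_pos hε)]
    with n k w hw
  obtain ⟨y, hy, hw⟩ := mem_iUnion₂.1 (hc hw)
  obtain ⟨o, h1, h2⟩ := k y hy
  rw [Metric.mem_ball', dist_eq_norm] at hw
  exact ⟨o, h1, by linarith [norm_sub_le_norm_sub_add_norm_sub (pos (A.δ n) o) y w]⟩

/-- the wall is eventually at most at distance `infDist x Ωᶜ + ε` from every `x` -/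
theorem wall (hb : Bornology.IsBounded Ω) {ε : ℝ} (hε : 0 < ε) : ∀ᶠ n in atTop, ∀ x ∈ Ω,
    ∃ o, o ∉ A.U n ∧ ‖pos (A.δ n) o - x‖ ≤ Metric.infDist x Ωᶜ + ε := by
  filter_upwards [A.out' hb hε] with n k x hx
  obtain ⟨w, hw, e⟩ := exists_mem_frontier_infDist_compl_eq_dist hx
    (fun e => NormedSpace.unbounded_univ ℝ ℂ (e ▸ hb))
  obtain ⟨o, h1, h2⟩ := k w hw
  rw [e, dist_comm, dist_eq_norm]
  exact ⟨o, h1, by linarith [norm_sub_le_norm_sub_add_norm_sub (pos (A.δ n) o) w x]⟩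

end Sq

end Pool.Agent.Lib.MP_6359c9_pr
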