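import Pool.Agent.Lib.MP_6359c9_pr.LwH
import Pool.Agent.Lib.MP_6359c9_pr.SqB

/-! The oscillation of a conformal map on small discs, against the area of the images. -/

namespace Pool.Agent.Lib.MP_6359c9_pr.Car

open Set Metric Complex MeasureTheory

lemma osc {g : ℂ → ℂ} {p z : ℂ} {d : ℝ} (hd : 0 < d)
    (hg : DifferentiableOn ℂ g (Metric.ball p (4 / 5 * d))) (hi : InjOn g (Metric.ball p (4 / 5 * d)))
    (hA : volume (g '' Metric.ball p (4 / 5 * d)) ≠ ⊤) (hz : ‖z - p‖ ≤ d / 2) :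
    ‖g z - g p‖ ^ 2 ≤ 3000 * volume.real (g '' Metric.ball p (4 / 5 * d)) := by
  by_contra! hc
  have A0 : 0 ≤ volume.real (g '' Metric.ball p (4 / 5 * d)) := measureReal_nonneg
  have x0 : 0 < ‖g z - g p‖ := by
    by_contra! c
    rw [le_antisymm c (norm_nonneg _)] at hc
    linarith
  have lg : 3 / 8 ≤ Real.log (4 / 5 * d / (d / 2)) := by
    rw [show 4 / 5 * d / (d / 2) = 8 / 5 by field_simp; norm_num]
    linarith [Real.one_sub_inv_le_log_of_pos (x := 8 / 5) (by norm_num)]
  obtain ⟨ρ, hρ, H⟩ := Lw.wolff_conn isOpen_ball hg hi p (δ := d / 2) (Δ := 4 / 5 * d)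
    (A := volume.real (g '' Metric.ball p (4 / 5 * d))) (t := ‖g z - g p‖ / 33) (by linarith)
    (by linarith) (by rw [inter_self, ofReal_measureReal hA]) (by linarith)
    (by nlinarith [sq_nonneg (‖g z - g p‖ / 33)])
  have r0 : 0 < ρ := by linarith [hρ.1]
  have s1 : closedBall p ρ ⊆ Metric.ball p (4 / 5 * d) := closedBall_subset_ball hρ.2
  have K : ∀ y ∈ closedBall p ρ, ‖g y - g (p + ρ)‖ ≤ 16 * (‖g z - g p‖ / 33) := fun y hy =>
    norm_le_of_forall_mem_frontier_norm_le (f := fun y => g y - g (p + ρ)) isBounded_ball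
      (((hg.sub_const _).mono (closure_ball_subset_closedBall.trans s1)).diffContOnCl)
      (fun u hu => H _ (isPreconnected_sphere (by simp) p ρ)
        (fun v hv => ⟨s1 (sphere_subset_closedBall hv), hv⟩) u (frontier_ball_subset_sphere hu) _
        (by simp [r0.le])) (by rwa [closure_ball p r0.ne'])
  have k1 := K z (mem_closedBall_iff_norm.2 (hz.trans hρ.1.le))
  have k2 := K p (mem_closedBall_self r0.le)
  linarith [norm_sub_le_norm_sub_add_norm_sub (g z) (g (p + ρ)) (g p), norm_sub_rev (g p) (g (p + ρ))]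

/-- weights that dominate the increments and have a bounded area -/
theorem area_e {f : ℂ → ℂ} {D : Set ℂ} (hf : DifferentiableOn ℂ f D) (hi : InjOn f D) {d w : ℝ}
    (hd : 0 < d) (R0 : Finset V) (hb : ∀ v ∈ R0, Metric.ball (pos d v) (4 / 5 * d) ⊆ D)
    (hs : ∀ v ∈ R0, ∀ z ∈ Metric.ball (pos d v) (4 / 5 * d), ‖f z - f (pos d v)‖ ≤ w) :
    ∃ e : V → ℝ, (∀ v ∈ R0, 0 ≤ e v) ∧ (∀ v ∈ R0, e v ≤ w) ∧
      (∀ u ∈ R0, ∀ v ∈ R0, Adj u v → ‖f (pos d u) - f (pos d v)‖ ≤ e u + e v) ∧
      ∀ (y : ℂ) (s : ℝ), w ≤ s →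
        ∑ v ∈ R0 with ‖f (pos d v) - y‖ ≤ s, e v ^ 2 ≤ 200000 * s ^ 2 := by
  classical
  set B := fun v => f '' Metric.ball (pos d v) (4 / 5 * d) with hB
  have fin : ∀ v ∈ R0, volume (B v) ≠ ⊤ := fun v hv => ((measure_mono
    (show B v ⊆ closedBall (f (pos d v)) w by
      rintro _ ⟨z, hz, rfl⟩; exact mem_closedBall_iff_norm.2 (hs v hv z hz))).trans_lt
        measure_closedBall_lt_top).ne
  have w0 : ∀ v ∈ R0, 0 ≤ w := fun v hv => (norm_nonneg _).trans
    (hs v hv _ (mem_ball_self (by linarith)))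
  have key : ∀ v ∈ R0, ∀ z, ‖z - pos d v‖ ≤ d / 2 →
      ‖f z - f (pos d v)‖ ≤ min w √(3000 * volume.real (B v)) := fun v hv z hz =>
    le_min (hs v hv z (mem_ball_iff_norm.2 (by linarith))) (Real.le_sqrt_of_sq_le
      (osc hd (hf.mono (hb v hv)) (hi.mono (hb v hv)) (fin v hv) hz))
  refine ⟨fun v => min w √(3000 * volume.real (B v)),
    fun v hv => le_min (w0 v hv) (Real.sqrt_nonneg _), fun v _ => min_le_left _ _,
    fun u hu v hv h => ?_, fun y s hw => ?_⟩
  · have e : ‖pos d u - pos d v‖ ≤ d := by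
      refine abs_le_of_sq_le_sq' ?_ hd.le |>.2
      rw [pos_sq hd]
      rcases h with h | h | h | h | h | h <;> simp [h.1, h.2]
    have k1 := key u hu ((pos d u + pos d v) / 2) (by
      rw [show (pos d u + pos d v) / 2 - pos d u = -(pos d u - pos d v) / 2 by ring, norm_div,
        norm_neg, Complex.norm_two]; linarith)
    have k2 := key v hv ((pos d u + pos d v) / 2) (by
      rw [show (pos d u + pos d v) / 2 - pos d v = (pos d u - pos d v) / 2 by ring, norm_div,
        Complex.norm_two]; linarith)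
    rw [norm_sub_rev] at k1
    linarith [norm_sub_le_norm_sub_add_norm_sub (f (pos d u)) (f ((pos d u + pos d v) / 2))
      (f (pos d v))]
  rcases lt_or_ge s 0 with s0 | s0
  · rw [Finset.filter_false_of_mem fun v _ c => by linarith [norm_nonneg (f (pos d v) - y)]]
    simp only [Finset.sum_empty]
    positivity
  set S := R0.filter fun v => ‖f (pos d v) - y‖ ≤ s with hS
  have cl : ∀ c : ℤ × ℤ, ∑ v ∈ S with (v.1 % 2, v.2 % 2) = c, volume.real (B v) ≤ 16 * s ^ 2 := by
    intro c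
    have mem : ∀ v ∈ S.filter fun v => (v.1 % 2, v.2 % 2) = c, v ∈ R0 ∧ ‖f (pos d v) - y‖ ≤ s ∧
        (v.1 % 2, v.2 % 2) = c := fun v hv => by
      simpa only [hS, Finset.mem_filter, and_assoc] using hv
    rw [← measureReal_biUnion_finset (fun u hu v hv ne => ?_) (fun v hv =>
      measurableSet_ball.image_of_continuousOn_injOn (hf.continuousOn.mono (hb v (mem v hv).1))
        (hi.mono (hb v (mem v hv).1))) fun v hv => fin v (mem v hv).1]
    · refine ENNReal.toReal_le_of_le_ofReal (by positivity) ((measure_mono (t := closedBall y (2 * s))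
        (iUnion₂_subset fun v hv => ?_)).trans ?_)
      · rintro _ ⟨z, hz, rfl⟩
        exact mem_closedBall_iff_norm.2 (by
          linarith [hs v (mem v hv).1 z hz, (mem v hv).2.1,
            norm_sub_le_norm_sub_add_norm_sub (f z) (f (pos d v)) y])
      · rw [Measure.addHaar_closedBall_eq_addHaar_ball]
        exact (Lw.vol_ball _ (by linarith)).trans_eq (by congr 1; ring)
    · have e := (mem u hu).2.2.trans (mem v hv).2.2.symm
      simp only [Prod.mk.injEq] at e
      obtain ⟨a, ha⟩ : ∃ a, u.1 = v.1 + 2 * a := ⟨(u.1 - v.1) / 2, by omega⟩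
      obtain ⟨b, hb2⟩ : ∃ b, u.2 = v.2 + 2 * b := ⟨(u.2 - v.2) / 2, by omega⟩
      have ab : 1 ≤ a ^ 2 + a * b + b ^ 2 := by
        by_contra! c
        have h1 : a = 0 := by nlinarith [sq_nonneg (a + 2 * b)]
        have h2 : b = 0 := by nlinarith [sq_nonneg (2 * a + b)]
        exact ne (Prod.ext (by omega) (by omega))
      have ab' : (1 : ℝ) ≤ a ^ 2 + a * b + b ^ 2 := by exact_mod_cast ab
      have far : 2 * d ≤ ‖pos d u - pos d v‖ := by
        refine abs_le_of_sq_le_sq' ?_ (norm_nonneg _) |>.2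
        rw [pos_sq hd, ha, hb2]
        push_cast
        nlinarith [sq_nonneg d]
      exact (disjoint_image_image fun x hx z hz e => (ball_disjoint_ball (by
        rw [dist_eq_norm]; linarith)).ne_of_mem hx hz
          (hi (hb u (mem u hu).1 hx) (hb v (mem v hv).1 hz) e))
  calc _ ≤ ∑ v ∈ S, 3000 * volume.real (B v) := Finset.sum_le_sum fun v hv => by
        rw [← Real.sq_sqrt (x := 3000 * volume.real (B v)) (by positivity)]
        exact pow_le_pow_left₀ (le_min (w0 v (Finset.mem_filter.1 hv).1) (Real.sqrt_nonneg _))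
          (min_le_right _ _) 2
    _ = 3000 * ∑ c ∈ ({0, 1} : Finset ℤ) ×ˢ ({0, 1} : Finset ℤ),
          ∑ v ∈ S with (v.1 % 2, v.2 % 2) = c, volume.real (B v) := by
        rw [← Finset.mul_sum, Finset.sum_fiberwise_of_maps_to fun v _ => by simp; omega]
    _ ≤ 3000 * (4 * (16 * s ^ 2)) := by
        gcongr
        exact (Finset.sum_le_card_nsmul _ _ _ fun c _ => cl c).trans_eq (by simp)
    _ ≤ _ := by nlinarith [sq_nonneg s]

end Pool.Agent.Lib.MP_6359c9_pr.Car
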