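import Pool.Agent.Lib.MP_6359c9_pr.WCut

/-! Pockets: the part of a discrete domain cut off by a crosscut on a ring around a point. -/

namespace Pool.Agent.Lib.MP_6359c9_pr

lemma DE.symm {R : Set V} {γ : ℕ → V} {a b : V} (h : DE R γ a b) : DE R γ b a := by
  obtain ⟨h1, h2⟩ := h
  refine ⟨h1.symm, ?_⟩
  rcases h2 with h | h | ⟨i, h⟩
  · exact Or.inr (Or.inl h)
  · exact Or.inl h
  · exact Or.inr (Or.inr ⟨i, h.symm⟩)

namespace DConn

variable {R : Set V} {γ : ℕ → V} {S T : Set V} {u v w : V}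

lemma refl (h : u ∈ S) : DConn R γ S u u := ⟨h, Relation.ReflTransGen.refl⟩

lemma left (h : DConn R γ S u v) : u ∈ S := h.1

lemma right (h : DConn R γ S u v) : v ∈ S := by
  obtain ⟨h1, h2⟩ := h
  induction h2 with
  | refl => exact h1
  | tail _ h _ => exact h.2

lemma tail (h : DConn R γ S u v) (a : DE R γ v w) (hw : w ∈ S) : DConn R γ S u w :=
  ⟨h.1, h.2.tail ⟨a, hw⟩⟩

lemma trans (h : DConn R γ S u v) (h' : DConn R γ S v w) : DConn R γ S u w :=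
  ⟨h.1, h.2.trans h'.2⟩

lemma ind {P : V → Prop} (h : DConn R γ S u v) (h0 : P u)
    (hs : ∀ a b, DConn R γ S u a → DE R γ a b → b ∈ S → P a → P b) : P v := by
  obtain ⟨h1, h2⟩ := h
  induction h2 with
  | refl => exact h0
  | tail h3 h4 ih => exact hs _ _ ⟨h1, h3⟩ h4.1 h4.2 ih

lemma symm (h : DConn R γ S u v) : DConn R γ S v u :=
  h.ind (P := fun x => DConn R γ S x u) (refl h.1)
    fun _ _ ha a hb ih => ((refl hb).tail a.symm ha.right).trans ih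

lemma mono (h : DConn R γ S u v) (hS : S ⊆ T) : DConn R γ T u v :=
  h.ind (P := fun x => DConn R γ T u x) (refl (hS h.1)) fun _ _ _ a hb ih => ih.tail a (hS hb)

lemma cluster (h : DConn R γ S u v) : DConn R γ {x | DConn R γ S u x} u v :=
  h.ind (P := fun x => DConn R γ {x | DConn R γ S u x} u x) (refl (refl h.1))
    fun _ _ ha a hb ih => ih.tail a (ha.tail a hb)

lemma of_conn (h : Conn S u v) (hR : S ⊆ R) (hT : S ⊆ T) : DConn R γ T u v :=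
  h.ind (P := fun x => DConn R γ T u x) (refl (hT h.1))
    fun _ _ _ a hb ih => ih.tail ⟨a, Or.inr (Or.inl (hR hb))⟩ (hT hb)

lemma of_nconn (h : NConn Rᶜ S u v) : DConn R γ S u v := by
  obtain ⟨h1, h2⟩ := h
  induction h2 with
  | refl => exact refl h1
  | tail _ h4 ih =>
    refine ih.tail ⟨h4.1, ?_⟩ h4.2.1
    have := h4.2.2
    simp only [Set.mem_compl_iff] at this
    tauto

/-- a path avoids every member of a family, or hits one of them first -/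
lemma first (h : DConn R γ Set.univ u v) (F : Set (Set V)) :
    (∀ S ∈ F, DConn R γ Sᶜ u v) ∨ ∃ S0 ∈ F, ∃ p ∈ S0, ∀ S ∈ F, p ∉ S → DConn R γ Sᶜ u p := by
  refine h.ind (P := fun v => (∀ S ∈ F, DConn R γ Sᶜ u v) ∨
    ∃ S0 ∈ F, ∃ p ∈ S0, ∀ S ∈ F, p ∉ S → DConn R γ Sᶜ u p) ?_ ?_
  · by_cases h0 : ∀ S ∈ F, u ∉ S
    · exact Or.inl fun S hS => refl (h0 S hS)
    · push Not at h0
      obtain ⟨S0, h1, h2⟩ := h0
      exact Or.inr ⟨S0, h1, u, h2, fun S _ h3 => refl h3⟩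
  · rintro a b _ ab _ (ih | ih)
    · by_cases h0 : ∀ S ∈ F, b ∉ S
      · exact Or.inl fun S hS => (ih S hS).tail ab (h0 S hS)
      · push Not at h0
        obtain ⟨S0, h1, h2⟩ := h0
        exact Or.inr ⟨S0, h1, b, h2, fun S hS h3 => (ih S hS).tail ab h3⟩
    · exact Or.inr ih

/-- a path avoids `T` or reaches it -/
lemma hit (h : DConn R γ S u v) (T : Set V) :
    DConn R γ Tᶜ u v ∨ ∃ p ∈ T, DConn R γ S u p := by
  refine h.ind (P := fun v => DConn R γ Tᶜ u v ∨ ∃ p ∈ T, DConn R γ S u p) ?_ ?_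
  · by_cases h0 : u ∈ T
    · exact Or.inr ⟨u, h0, refl h.1⟩
    · exact Or.inl (refl h0)
  · rintro a b ha ab hb (ih | ih)
    · by_cases h0 : b ∈ T
      · exact Or.inr ⟨b, h0, ha.tail ab hb⟩
      · exact Or.inl (ih.tail ab h0)
    · exact Or.inr ih

end DConn

lemma nconn_of_conn {R S T : Set V} {u v : V} (h : Conn S u v) (hR : S ⊆ R) (hT : S ⊆ T) :
    NConn Rᶜ T u v :=
  h.ind (P := fun x => NConn Rᶜ T u x) ⟨hT h.1, Relation.ReflTransGen.refl⟩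
    fun _ _ _ a hb ih => ⟨ih.1, ih.2.tail ⟨a, hT hb, fun h => h.2 (hR hb)⟩⟩

/-- a path from the ball of radius `r` to its outside meets the ring -/
lemma Conn.ring {S : Set V} {u v x : V} {r : ℤ} (h : Conn S u v) (hu : ds u x ≤ r)
    (hv : r < ds v x) : ∃ a, Conn (S ∩ Bx x r) u a ∧ ds a x = r := by
  obtain ⟨a, b, h1, h2, h3, _⟩ := h.exit (T := Bx x r) (mem_Bx_ds.2 hu)
    (fun h => absurd (mem_Bx_ds.1 h) (by omega))
  refine ⟨a, h1, ?_⟩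
  have h4 := mem_Bx_ds.1 h1.right.2
  have h5 := Adj.ds_le h2 x
  rw [mem_Bx_ds] at h3
  omega

namespace Wall

variable (W : Wall)

lemma per_mul (i m : ℕ) : W.γ (i + m * W.n) = W.γ i := by
  induction m with
  | zero => simp
  | succ m ih => rw [Nat.succ_mul, ← add_assoc, W.per, ih]

lemma idx (c j : ℕ) : ∃ k, c ≤ k ∧ k < c + W.n ∧ W.γ k = W.γ j := by
  have hn := W.three
  have h0 : c ≤ j + c * W.n := by nlinarith
  refine ⟨c + (j + c * W.n - c) % W.n, by omega, ?_, ?_⟩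
  · have := Nat.mod_lt (j + c * W.n - c) (by omega : 0 < W.n)
    omega
  · have h1 := Nat.mod_add_div' (j + c * W.n - c) W.n
    rw [← W.per_mul (c + (j + c * W.n - c) % W.n) ((j + c * W.n - c) / W.n), ← W.per_mul j c]
    congr 1
    omega

lemma walk {S : Set V} {i j : ℕ} (hij : i ≤ j) (h : ∀ k, i ≤ k → k ≤ j → W.γ k ∈ S) :
    DConn W.R W.γ S (W.γ i) (W.γ j) := by
  induction j, hij using Nat.le_induction with
  | base => exact DConn.refl (h i le_rfl le_rfl)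
  | succ j hij ih =>
    exact (ih fun k h1 h2 => h k h1 (by omega)).tail
      ⟨W.adj j, Or.inr (Or.inr ⟨j, Or.inl ⟨rfl, rfl⟩⟩)⟩ (h _ (by omega) le_rfl)

/-- the crosscut `S` on the ring of radius `r` around `x`, with its two wall ends -/
structure Cut (z0 x : V) (d r : ℤ) (i0 a i1 b : ℕ) (S : Set V) : Prop where
  l1 : i0 < a
  l2 : a < i1
  l3 : i1 < b
  l4 : b < i0 + W.n
  xR : x ∈ W.R
  zR : z0 ∈ W.R
  d1 : 1 ≤ d
  dr : d + 4 ≤ r
  near : W.IC (Bx x d) x (W.γ i0)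
  far : W.γ i1 ∉ Bx x (4 * r)
  anchor : DConn W.R W.γ (Bx x (4 * r))ᶜ z0 (W.γ i1)
  path : ∃ u v, Adj (W.γ i0) u ∧ Conn W.R u v ∧ Adj v (W.γ i1)
  rng : ∀ p ∈ S, r - 1 ≤ ds p x ∧ ds p x ≤ r + 1
  wall : ∀ k, W.γ k ∈ S → W.γ k = W.γ a ∨ W.γ k = W.γ b
  conn : ∀ p ∈ S, DConn W.R W.γ S (W.γ a) p
  bmem : W.γ b ∈ S

lemma exists_cut {z0 x : V} {d r : ℤ} (hd : W.Dist x d) (hr : d + 4 ≤ r)
    (hz : z0 ∉ Bx x (4 * r)) (hc : Conn W.R z0 x) :
    ∃ i0 a i1 b S, W.Cut z0 x d r i0 a i1 b S := by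
  obtain ⟨d1, hin, w, hw, hwR⟩ := hd
  have hxd : x ∈ Bx x d := mem_Bx_ds.2 (by rw [ds_self]; omega)
  obtain ⟨u0, w0, h1, h2, h3, h4⟩ := (Rec_conn hxd hw).exit hc.right hwR
  obtain ⟨i0, rfl⟩ := (W.bd u0 h1.right.2 w0 h2).resolve_left h3
  have hw0 : W.γ i0 ∈ Bx x d := h4.left
  obtain ⟨w1, hw1⟩ := (W.fin.union (Bx_finite x (4 * r))).infinite_compl.nonempty
  have hw2 : w1 ∉ W.R := fun h => hw1 (Or.inl h)
  have hw3 : w1 ∉ Bx x (4 * r) := fun h => hw1 (Or.inr h)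
  obtain ⟨v0, w2, g1, g2, g3, g4⟩ := (coRec_conn hz hw3).exit hc.left hw2
  obtain ⟨j, rfl⟩ := (W.bd v0 g1.right.2 w2 g2).resolve_left g3
  obtain ⟨i1, k1, k2, k3⟩ := W.idx i0 j
  rw [← k3] at g2 g3 g4
  have hfar : W.γ i1 ∉ Bx x (4 * r) := g4.left
  have e0 := mem_Bx_ds.1 hw0
  have e1 : 4 * r < ds (W.γ i1) x := by rw [mem_Bx_ds] at hfar; omega
  have hlt : i0 < i1 := by
    rcases k1.eq_or_lt with h | h
    · subst h; omega
    · exact h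
  have hna : ¬Adj (W.γ i0) (W.γ i1) := fun h => by have := Adj.ds_le h x; omega
  have hpath : ∃ u v, Adj (W.γ i0) u ∧ Conn W.R u v ∧ Adj v (W.γ i1) :=
    ⟨u0, v0, h2.symm, ((h1.mono fun _ h => h.2).symm.trans hc.symm).trans
      (g1.mono fun _ h => h.2), g2⟩
  rcases W.hex i0 i1 hlt k2 hna hpath {y | ds y x = r} with
    ⟨a, b, u, v, l1, l2, l3, l4, au, uv, vb⟩ | ⟨u, v, au, uv, vb⟩
  · have hu : ds u x = r := uv.left.2
    have hv : ds v x = r := uv.right.2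
    refine ⟨i0, a, i1, b, {y | Conn (W.R ∩ {y | ds y x = r}) u y} ∪ {W.γ a, W.γ b}, l1, l2, l3,
      l4, hc.right, hc.left, d1, hr, ?_, hfar, ?_, hpath, ?_, ?_, ?_, Or.inr (Or.inr rfl)⟩
    · have := nconn_of_conn (R := W.R) (T := Bx x d) h1 (fun _ h => h.2) fun _ h => h.1
      exact ⟨this.1, this.2.tail ⟨h2, hw0, fun h => h.1 h1.right.2⟩⟩
    · exact (DConn.of_conn (T := (Bx x (4 * r))ᶜ) g1 (fun _ h => h.2) fun _ h => h.1).tail
        ⟨g2, Or.inl g1.right.2⟩ hfar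
    · rintro p (hp | rfl | rfl)
      · have : ds p x = r := (Conn.right hp).2
        omega
      · have := Adj.ds_le au x
        have := Adj.ds_le au.symm x
        omega
      · have := Adj.ds_le vb x
        have := Adj.ds_le vb.symm x
        omega
    · rintro k (hp | hp)
      · exact absurd (Conn.right hp).1 (W.out k)
      · exact hp
    · have hu' : DConn W.R W.γ ({y | Conn (W.R ∩ {y | ds y x = r}) u y} ∪ {W.γ a, W.γ b})
          (W.γ a) u :=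
        (DConn.refl (Or.inr (Or.inl rfl))).tail ⟨au, Or.inr (Or.inl uv.left.1)⟩
          (Or.inl (Conn.refl uv.left))
      have key : ∀ p, Conn (W.R ∩ {y | ds y x = r}) u p → DConn W.R W.γ
          ({y | Conn (W.R ∩ {y | ds y x = r}) u y} ∪ {W.γ a, W.γ b}) (W.γ a) p := fun p hp =>
        hu'.trans (DConn.of_conn hp.cluster (fun _ h => (Conn.right h).1) fun _ h => Or.inl h)
      rintro p (hp | rfl | rfl)
      · exact key p hp
      · exact DConn.refl (Or.inr (Or.inl rfl))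
      · exact (key v uv).tail ⟨vb, Or.inl uv.right.1⟩ (Or.inr (Or.inr rfl))
  · have := Adj.ds_le au x
    have := Adj.ds_le vb x
    obtain ⟨c, h5, h6⟩ := uv.ring (x := x) (r := r) (by omega) (by omega)
    exact absurd h6 h5.right.1.2

/-- the vertices of the closed domain that are cut off from `z0` by `S` -/
def Pk (z0 : V) (S : Set V) : Set V :=
  {v | (v ∈ W.R ∨ ∃ i, W.γ i = v) ∧ v ∉ S ∧ ¬DConn W.R W.γ Sᶜ z0 v}

variable {W}

lemma Pk.step {z0 u v : V} {S T : Set V} (hu : u ∈ W.Pk z0 S) (h : DConn W.R W.γ T u v)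
    (hT : T ⊆ Sᶜ) : v ∈ W.Pk z0 S := by
  refine ⟨?_, hT h.right, fun h1 => hu.2.2 (h1.trans (h.mono hT).symm)⟩
  refine h.ind (P := fun v => v ∈ W.R ∨ ∃ i, W.γ i = v) hu.1 ?_
  rintro a b _ ⟨ab, h1 | h1 | ⟨i, h1 | h1⟩⟩ _ _
  · exact W.bd a h1 b ab
  · exact Or.inl h1
  · exact Or.inr ⟨_, h1.2⟩
  · exact Or.inr ⟨_, h1.1⟩

namespace Cut

variable {z0 x : V} {d r : ℤ} {i0 a i1 b : ℕ} {S : Set V}

lemma inner (c : W.Cut z0 x d r i0 a i1 b S) : Bx x (r - 2) ⊆ Sᶜ := fun p hp h => by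
  have := c.rng p h
  have := mem_Bx_ds.1 hp
  omega

lemma outer (c : W.Cut z0 x d r i0 a i1 b S) {m : ℤ} (hm : r + 1 ≤ m) : (Bx x m)ᶜ ⊆ Sᶜ :=
  fun p hp h => hp (mem_Bx_ds.2 (by have := c.rng p h; omega))

lemma anc (c : W.Cut z0 x d r i0 a i1 b S) : DConn W.R W.γ Sᶜ z0 (W.γ i1) :=
  c.anchor.mono (c.outer (by have := c.d1; have := c.dr; omega))

lemma nr (c : W.Cut z0 x d r i0 a i1 b S) : DConn W.R W.γ (Bx x (r - 2)) x (W.γ i0) :=
  (DConn.of_nconn c.near).mono fun p hp => mem_Bx_ds.2 (by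
    have := mem_Bx_ds.1 hp
    have := c.dr
    omega)

lemma mem (c : W.Cut z0 x d r i0 a i1 b S) : x ∈ W.Pk z0 S := by
  refine ⟨Or.inl c.xR, c.inner c.nr.left, fun h => ?_⟩
  exact W.nc i0 a i1 b c.l1 c.l2 c.l3 c.l4 Sᶜ S
    (((c.nr.mono c.inner).symm.trans h.symm).trans c.anc) (c.conn _ c.bmem) disjoint_compl_left

lemma mem0 (c : W.Cut z0 x d r i0 a i1 b S) : W.γ i0 ∈ W.Pk z0 S := Pk.step c.mem c.nr c.inner

lemma off (c : W.Cut z0 x d r i0 a i1 b S) {k : ℕ} (h1 : a < k) (h2 : k < a + W.n)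
    (h3 : k ≠ b) : W.γ k ∉ S := by
  intro h
  have := c.l1
  have := c.l2
  have := c.l3
  have := c.l4
  rcases c.wall k h with h | h
  · exact W.inj a k h1 h2 h.symm
  · rcases lt_or_gt_of_ne h3 with h4 | h4
    · exact W.inj k b h4 (by omega) h
    · exact W.inj b k h4 (by omega) h.symm

lemma reach (c : W.Cut z0 x d r i0 a i1 b S) {k : ℕ} (h1 : a < k) (h2 : k < b) :
    DConn W.R W.γ Sᶜ z0 (W.γ k) := by
  have := c.l1
  have := c.l2
  have := c.l3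
  have := c.l4
  rcases le_total k i1 with h | h
  · exact c.anc.trans (W.walk h fun j j1 j2 => c.off (by omega) (by omega) (by omega)).symm
  · exact c.anc.trans (W.walk h fun j j1 j2 => c.off (by omega) (by omega) (by omega))

lemma arc (c : W.Cut z0 x d r i0 a i1 b S) {k : ℕ} (h1 : b < k) (h2 : k < a + W.n) :
    W.γ k ∈ W.Pk z0 S := by
  have := c.l1
  have := c.l2
  have := c.l3
  have := c.l4
  have h0 : W.γ (i0 + W.n) ∈ W.Pk z0 S := by rw [W.per]; exact c.mem0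
  rcases le_total k (i0 + W.n) with h | h
  · exact Pk.step h0 (W.walk (S := Sᶜ) h fun j j1 j2 =>
      c.off (by omega) (by omega) (by omega)).symm le_rfl
  · exact Pk.step h0 (W.walk (S := Sᶜ) h fun j j1 j2 =>
      c.off (by omega) (by omega) (by omega)) le_rfl

lemma arc' (c : W.Cut z0 x d r i0 a i1 b S) {j : ℕ} (h : W.γ j ∈ W.Pk z0 S) :
    ∃ k, b < k ∧ k < a + W.n ∧ W.γ k = W.γ j := by
  obtain ⟨k, k1, k2, k3⟩ := W.idx a j
  refine ⟨k, ?_, k2, k3⟩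
  rw [← k3] at h
  by_contra hk
  rcases k1.eq_or_lt with h1 | h1
  · subst h1
    exact h.2.1 (c.conn _ c.bmem).left
  · rcases (not_lt.1 hk).eq_or_lt with h2 | h2
    · subst h2
      exact h.2.1 c.bmem
    · exact h.2.2 (c.reach h1 h2)

lemma pocket (c : W.Cut z0 x d r i0 a i1 b S) {ξ : V → ℤ} {s : ℤ}
    (hf : ∀ k, W.γ k ∈ W.Pk z0 S → ξ (W.γ k) = s) :
    W.Pocket ξ z0 x d r i0 i1 (W.Pk z0 S) s := by
  have l1 := c.l1
  have l2 := c.l2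
  have l3 := c.l3
  have l4 := c.l4
  have d1 := c.d1
  have dr := c.dr
  have hre : ∀ v, DConn W.R W.γ Sᶜ z0 v → DConn W.R W.γ (W.Pk z0 S)ᶜ z0 v := fun v h =>
    h.cluster.mono fun p hp hU => hU.2.2 hp
  refine ⟨by omega, by omega, c.near, c.far, c.mem,
    fun u hu v h => Pk.step hu (DConn.of_nconn h) c.inner, ?_, ?_, ?_, ?_⟩
  · intro w hw hR
    obtain ⟨k, rfl⟩ := hw.1.resolve_left hR
    exact hf k hw
  · intro v h hU
    exact hU.2.2 (DConn.of_conn h (fun _ h => h.1) fun _ h => c.outer le_rfl h.2)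
  · intro v hv h
    by_cases hS : v ∈ S
    · refine (((c.conn v hS).mono (T := (W.Pk z0 S)ᶜ) fun p hp hU => hU.2.1 hp).symm).trans
        (W.walk l2.le fun k k1 k2 hU => ?_)
      rcases k1.eq_or_lt with h1 | h1
      · subst h1
        exact hU.2.1 (c.conn v hS).left
      · exact hU.2.2 (c.reach h1 (by omega))
    · have : DConn W.R W.γ Sᶜ z0 v := by
        by_contra h1
        exact hv ⟨h, hS, h1⟩
      exact (hre v this).symm.trans (hre _ c.anc)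
  · intro r' h1 h2
    have e0 := mem_Bx_ds.1 (NConn.right c.near)
    have e1 : 4 * r < ds (W.γ i1) x := by have := c.far; rw [mem_Bx_ds] at this; omega
    have hna : ¬Adj (W.γ i0) (W.γ i1) := fun h => by have := Adj.ds_le h x; omega
    rcases W.hex i0 i1 (by omega) (by omega) hna c.path ({y | ds y x = r'} ∩ W.Pk z0 S) with
      ⟨a', b', u, v, m1, m2, m3, m4, au, uv, vb⟩ | ⟨u, v, au, uv, vb⟩
    · exact ⟨u, uv.left.2.2, v, ⟨_, ⟨a', m1, m2, rfl⟩, au⟩, ⟨_, ⟨b', m3, m4, rfl⟩, vb⟩,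
        uv.mono fun _ h => ⟨h.1, h.2.1⟩⟩
    · have := Adj.ds_le au x
      have := Adj.ds_le vb x
      obtain ⟨p, h5, h6⟩ := uv.ring (x := x) (r := r') (by omega) (by omega)
      have hsub : (W.R \ ({y | ds y x = r'} ∩ W.Pk z0 S)) ∩ Bx x r' ⊆ Bx x (r - 2) :=
        fun q hq => mem_Bx_ds.2 (by have := mem_Bx_ds.1 hq.2; omega)
      have h7 : DConn W.R W.γ (Bx x (r - 2)) (W.γ i0) p :=
        ((DConn.refl c.nr.right).tail ⟨au, Or.inr (Or.inl uv.left.1)⟩ (hsub h5.left)).trans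
          (DConn.of_conn h5 (fun _ h => h.1.1) hsub)
      exact absurd ⟨h6, Pk.step c.mem0 h7 c.inner⟩ h5.right.1.2

/-- the wall is flat in a pocket that contains no jump -/
lemma flat (c : W.Cut z0 x d r i0 a i1 b S) {ξ : V → ℤ}
    (h : ∀ k, W.γ k ∈ W.Pk z0 S → ξ (W.γ k) = ξ (W.γ (k + 1))) (j : ℕ)
    (hj : W.γ j ∈ W.Pk z0 S) : ξ (W.γ j) = ξ (W.γ (b + 1)) := by
  obtain ⟨k, k1, k2, k3⟩ := c.arc' hj
  rw [← k3]
  clear k3
  induction k, (Nat.succ_le_of_lt k1) using Nat.le_induction with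
  | base => rfl
  | succ k hk ih => rw [← h k (c.arc (by omega) (by omega)), ih (by omega) (by omega)]

end Cut

/-- one exceptional box for one marked wall vertex -/
lemma exc (W : Wall) (z0 : V) (r : ℤ) (ia : ℕ) (I : Set V) (d : V → ℤ) (i0 a i1 b : V → ℕ)
    (S : V → Set V) (c : ∀ x ∈ I, W.Cut z0 x (d x) r (i0 x) (a x) (i1 x) (b x) (S x)) :
    ∃ xa, (xa ∈ I ∨ xa = W.γ 0) ∧
      ∀ x ∈ I, Conn (W.R \ Bx xa (2 * r + 2)) z0 x → W.γ ia ∉ W.Pk z0 (S x) := by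
  by_cases hb : ∃ x ∈ I, W.γ ia ∈ W.Pk z0 (S x)
  swap
  · exact ⟨_, Or.inr rfl, fun x hx _ h => hb ⟨x, hx, h⟩⟩
  obtain ⟨x1, hx1, hb1⟩ := hb
  obtain ⟨k, k1, _, k3⟩ := W.idx (i1 x1) ia
  have hp : DConn W.R W.γ Set.univ z0 (W.γ ia) := by
    rw [← k3]
    exact ((c x1 hx1).anc.mono (Set.subset_univ _)).trans (W.walk k1 fun _ _ _ => trivial)
  rcases hp.first {T | ∃ x ∈ I, W.γ ia ∈ W.Pk z0 (S x) ∧ S x = T} with h | h
  · exact absurd (h _ ⟨x1, hx1, hb1, rfl⟩) hb1.2.2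
  obtain ⟨_, ⟨xa, ha, hba, rfl⟩, p, hp1, hp2⟩ := h
  refine ⟨xa, Or.inl ha, fun x hx hc hbx => ?_⟩
  have cx := c x hx
  have ca := c xa ha
  have d1 := cx.d1
  have dr := cx.dr
  have hdis : ∀ q ∈ S xa, q ∉ S x := fun q h1 h2 => by
    have h3 := mem_Bx_ds.2 (ca.rng q h1).2
    have h4 := mem_Bx_ds.2 (cx.rng q h2).2
    have h5 := hc.right.2
    simp only [mem_Bx] at h3 h4 h5
    omega
  have h1 : ∀ q ∈ S xa, DConn W.R W.γ (S x)ᶜ z0 q := fun q hq =>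
    (hp2 _ ⟨x, hx, hbx, rfl⟩ (hdis p hp1)).trans
      (((ca.conn p hp1).symm.trans (ca.conn q hq)).mono hdis)
  have h2 : DConn W.R W.γ (S xa)ᶜ z0 x :=
    DConn.of_conn hc (fun _ h => h.1) fun _ h => ca.outer (by omega) h.2
  rcases h2.hit (S x) with h3 | ⟨q, hq, h3⟩
  · exact cx.mem.2.2 h3
  have h4 : DConn W.R W.γ (S xa)ᶜ z0 (W.γ (b x)) :=
    h3.trans (((cx.conn q hq).symm.trans (cx.conn _ cx.bmem)).mono fun t ht h => hdis t h ht)
  obtain ⟨m, m1, m2, m3⟩ := cx.arc' hbx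
  refine hba.2.2 ?_
  rw [← m3]
  refine h4.trans (W.walk m1.le fun j j1 j2 hj => ?_)
  rcases j1.eq_or_lt with h5 | h5
  · subst h5
    exact hdis _ hj cx.bmem
  · exact (cx.arc h5 (by omega)).2.2 (h1 _ hj)

end Wall

theorem pocketFlatSt : PocketFlatSt := by
  intro W ξ s hs z0 x d r hd hr hz hc
  obtain ⟨i0, a, i1, b, S, c⟩ := W.exists_cut hd hr hz hc
  exact ⟨i0, i1, _, c.pocket fun k _ => hs k⟩

/-- the exceptional boxes are close to the wall -/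
theorem pocketSt2 (W : Wall) (ξ : V → ℤ) (ia ib : ℕ)
    (hξ : ∀ i, ξ (W.γ i) ≠ ξ (W.γ (i + 1)) → W.γ i = W.γ ia ∨ W.γ i = W.γ ib) (z0 : V) (r : ℤ) :
    ∃ xa xb : V, (0 ≤ r → ∃ w, w ∉ W.R ∧ w ∈ Bx xa r) ∧ (0 ≤ r → ∃ w, w ∉ W.R ∧ w ∈ Bx xb r) ∧
      ∀ (x : V) (d : ℤ), W.Dist x d → d + 4 ≤ r → z0 ∉ Bx x (4 * r) →
        Conn (W.R \ (Bx xa (2 * r + 2) ∪ Bx xb (2 * r + 2))) z0 x →
        ∃ i0 i1 U s, W.Pocket ξ z0 x d r i0 i1 U s := by
  have ex : ∀ x : V, ∃ (d : ℤ) (i0 a i1 b : ℕ) (S : Set V),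
      ((∃ d, W.Dist x d ∧ d + 4 ≤ r) ∧ z0 ∉ Bx x (4 * r) ∧ Conn W.R z0 x) →
        W.Dist x d ∧ W.Cut z0 x d r i0 a i1 b S := by
    intro x
    by_cases h : (∃ d, W.Dist x d ∧ d + 4 ≤ r) ∧ z0 ∉ Bx x (4 * r) ∧ Conn W.R z0 x
    · obtain ⟨⟨d, hd, hr⟩, hz, hc⟩ := h
      obtain ⟨i0, a, i1, b, S, c⟩ := W.exists_cut hd hr hz hc
      exact ⟨d, i0, a, i1, b, S, fun _ => ⟨hd, c⟩⟩
    · exact ⟨0, 0, 0, 0, 0, ∅, fun h' => absurd h' h⟩
  choose d i0 a i1 b S c using ex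
  obtain ⟨xa, ha', ha⟩ := W.exc z0 r ia _ d i0 a i1 b S fun x hx => (c x hx).2
  obtain ⟨xb, hb', hb⟩ := W.exc z0 r ib _ d i0 a i1 b S fun x hx => (c x hx).2
  have nr : ∀ y : V, ((∃ d, W.Dist y d ∧ d + 4 ≤ r) ∧ z0 ∉ Bx y (4 * r) ∧ Conn W.R z0 y) ∨
      y = W.γ 0 → 0 ≤ r → ∃ w, w ∉ W.R ∧ w ∈ Bx y r := by
    rintro y (⟨⟨e, ⟨_, _, w, h1, h2⟩, h3⟩, _⟩ | rfl) h
    · refine ⟨w, h2, ?_⟩
      rw [mem_Bx] at h1 ⊢
      omega
    · refine ⟨_, W.out 0, ?_⟩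
      rw [mem_Bx]
      omega
  refine ⟨xa, xb, nr xa ha', nr xb hb', fun x e he hr hz hc => ?_⟩
  have hx : (∃ d, W.Dist x d ∧ d + 4 ≤ r) ∧ z0 ∉ Bx x (4 * r) ∧ Conn W.R z0 x :=
    ⟨⟨e, he, hr⟩, hz, hc.mono fun _ h => h.1⟩
  obtain ⟨hd, cx⟩ := c x hx
  have hed : e = d x := by
    obtain ⟨_, h1, w, h2, h3⟩ := he
    obtain ⟨_, h4, w', h5, h6⟩ := hd
    have g1 : ¬ds w x ≤ d x - 1 := fun h => h3 (h4 (mem_Bx_ds.2 h))
    have g2 : ¬ds w' x ≤ e - 1 := fun h => h6 (h1 (mem_Bx_ds.2 h))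
    have := mem_Bx_ds.1 h2
    have := mem_Bx_ds.1 h5
    omega
  subst hed
  have ga := ha x hx (hc.mono fun _ h => ⟨h.1, fun g => h.2 (Or.inl g)⟩)
  have gb := hb x hx (hc.mono fun _ h => ⟨h.1, fun g => h.2 (Or.inr g)⟩)
  refine ⟨i0 x, i1 x, _, _, cx.pocket (cx.flat fun k hk => ?_)⟩
  by_contra hne
  rcases hξ k hne with h | h
  · exact ga (h ▸ hk)
  · exact gb (h ▸ hk)

theorem pocketSt : PocketSt := fun W ξ ia ib hξ z0 r =>
  let ⟨xa, xb, _, _, h⟩ := pocketSt2 W ξ ia ib hξ z0 r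
  ⟨xa, xb, h⟩

end Pool.Agent.Lib.MP_6359c9_pr
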