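import Pool.Agent.Lib.MP_6359c9_pr.HBase
import Pool.Agent.Lib.MP_6359c9_pr.WPocket

/-! The fjord estimate: definitions and statements. -/

namespace Pool.Agent.Lib.MP_6359c9_pr.Fj

open Set

/-- a gate between the ends `E0` and `E2`: one crosscut in a box, and no path between the ends in
the box that is `l` times larger -/
structure Gt (W : Wall) (l : ℤ) (i0 i1 : ℕ) (E0 E2 : Set V) : Prop where
  lt : i0 < i1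
  lt' : i1 < i0 + W.n
  m0 : W.γ i0 ∈ E0
  m2 : W.γ i1 ∈ E2
  e0 : ∀ v ∈ E0, DConn W.R W.γ E0 (W.γ i0) v
  e2 : ∀ v ∈ E2, DConn W.R W.γ E2 (W.γ i1) v
  cut : ∃ (x : V) (d : ℤ), 1 ≤ d ∧ (∃ a ∈ W.Lt i0 i1, ∃ b ∈ W.Rt i0 i1, ∃ u v, Adj a u ∧ Adj v b ∧
      Conn (W.R ∩ (Bx x d \ (E0 ∪ E2))) u v ∧ a ∈ Bx x d \ (E0 ∪ E2) ∧ b ∈ Bx x d \ (E0 ∪ E2)) ∧
    ∀ p ∈ E0, ∀ q ∈ E2, ¬DConn W.R W.γ (Bx x (l * d)) p q

/-- a path inside `S` from a neighbour of `Z` to `T` -/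
def Att (Z S T : Set V) : Prop := ∃ z ∈ Z, ∃ u, Adj z u ∧ ∃ t ∈ T, Conn S u t

/-- static estimate: a low path from the arc `Z` of zeros through a gate is rare, and the mirror
statement for the arc of ones -/
def GateSt : Prop := ∀ η > (0 : ℝ), ∃ l : ℤ, 1 ≤ l ∧ ∀ (W : Wall) (ξ : V → ℤ) (i0 i1 : ℕ)
  (Z T : Set V), (∀ v, v ∉ W.R → ξ v = 0 ∨ ξ v = 1) → Gt W l i0 i1 Z T →
    ((∀ i, W.γ i ∉ Z → ξ (W.γ i) = 1) →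
      Pr (HD W.R ξ) {g | Att Z (W.R ∩ {v | g v ≤ 0}) T} ≤ η) ∧
    ((∀ i, W.γ i ∉ Z → ξ (W.γ i) = 0) →
      Pr (HD W.R ξ) {g | Att Z (W.R ∩ {v | 1 ≤ g v}) T} ≤ η)

variable {O ι : Type}

/-- the outcomes with the same history as `g` up to step `k` -/
def Fb (Ω : Set O) (lab : ℕ → O → ι) (k : ℕ) (g : O) : Set O := Ω ∩ {g' | lab k g' = lab k g}

/-- an exploration seen from one of the two arcs: `R k g` is the unexplored interior, `Z k g` the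
arc, `lo g` the vertices on the side of the arc; gates of ratio `l` are crossed with conditional
probability at most `η` -/
structure Ch (l : ℤ) (η : ℝ) (Ω : Set O) (lab : ℕ → O → ι) (R Z : ℕ → O → Set V)
    (lo : O → Set V) (N : ℕ) : Prop where
  fin : Ω.Finite
  ref : ∀ k, ∀ g ∈ Ω, ∀ g' ∈ Ω, lab (k + 1) g' = lab (k + 1) g → lab k g' = lab k g
  ad : ∀ k, ∀ g ∈ Ω, ∀ g' ∈ Ω, lab k g' = lab k g → R k g' = R k g ∧ Z k g' = Z k g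
  stop : ∀ g ∈ Ω, R N g = ∅
  sub : ∀ k, ∀ g ∈ Ω, R (k + 1) g ⊆ R k g
  new : ∀ k, ∀ g ∈ Ω, ∀ z ∈ Z (k + 1) g,
    z ∈ Z k g ∨ (z ∈ R k g ∧ z ∈ lo g ∧ ∃ y ∈ Z k g, Adj y z)
  state : ∀ k, ∀ g ∈ Ω, R k g = ∅ ∨ ∃ W : Wall, W.R = R k g ∧ (∀ z ∈ Z k g, ∃ i, W.γ i = z) ∧
    (∀ z ∈ Z k g, ∀ z' ∈ Z k g, DConn W.R W.γ (Z k g) z z') ∧
    ∀ i0 i1 T, Gt W l i0 i1 (Z k g) T →
      Pr (Fb Ω lab k g) {g' | Att (Z k g) (R k g ∩ lo g') T} ≤ η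

/-- `v` is joined to the complement of `R0` inside `S`, and so are all the neighbours in `R0` of
the point that is reached -/
def Esc (R0 S : Set V) (v : V) : Prop :=
  ∃ v' w, Conn (R0 ∩ S) v v' ∧ Adj v' w ∧ w ∉ R0 ∧ ∀ x ∈ R0, Adj w x → x ∈ S

/-- a chart of `R0` in the unit disc with mesh `ω`: oscillation `e`, area bound `C`, escapes along
vertical and horizontal chords -/
structure Chart (R0 : Finset V) (Φ : V → ℂ) (e : V → ℝ) (C ω : ℝ) : Prop where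
  disc : ∀ v ∈ R0, ‖Φ v‖ ≤ 1
  pos : ∀ v ∈ R0, 0 ≤ e v
  small : ∀ v ∈ R0, e v ≤ ω
  lip : ∀ u ∈ R0, ∀ v ∈ R0, Adj u v → ‖Φ u - Φ v‖ ≤ e u + e v
  area : ∀ (y : ℂ) (s : ℝ), ω ≤ s → ∑ v ∈ R0 with ‖Φ v - y‖ ≤ s, e v ^ 2 ≤ C * s ^ 2
  re : ∀ v ∈ R0, Esc R0 {x | |(Φ x).re - (Φ v).re| ≤ ω} v
  im : ∀ v ∈ R0, Esc R0 {x | |(Φ x).im - (Φ v).im| ≤ ω} v

/-- a vertex that is cut off from the arc by a set of chart radius `η` at distance `ρ` joins the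
arc later -/
def Bad (R Z : ℕ → O → Set V) (Φ : V → ℂ) (η ρ : ℝ) : Set O :=
  {g | ∃ (k j : ℕ) (y : ℂ) (v : V) (B : Set V), k ≤ j ∧ v ∈ Z (j + 1) g ∧ v ∈ R j g ∧
    ρ ≤ ‖Φ v - y‖ ∧ (∀ x ∈ B, ‖Φ x - y‖ ≤ η) ∧ ¬Att (Z k g) (R k g \ B) {v}}

/-- the fjord estimate -/
def FjSt : Prop := ∃ η0 > (0 : ℝ), ∀ (l : ℤ) (C ε ρ : ℝ), 1 ≤ l → 0 < ε → 0 < ρ →
  ∃ η > (0 : ℝ), ∃ ω > (0 : ℝ), ∀ (O ι : Type) (Ω : Set O) (lab : ℕ → O → ι)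
    (R Z : ℕ → O → Set V) (lo : O → Set V) (N : ℕ) (R0 : Finset V) (Φ : V → ℂ) (e : V → ℝ)
    (ω' : ℝ), Ch l η0 Ω lab R Z lo N → (∀ g ∈ Ω, R 0 g ⊆ R0) → 0 < ω' → ω' ≤ ω →
    Chart R0 Φ e C ω' → Pr Ω (Bad R Z Φ η ρ) ≤ ε

/-- levels without local maxima: `hi v` is the largest level in the star of `v` -/
structure Lev (R0 : Finset V) (lam hi : V → ℝ) : Prop where
  le : ∀ v ∈ R0, lam v ≤ hi v
  adj : ∀ v ∈ R0, ∀ x ∈ R0, Adj v x → lam x ≤ hi v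
  att : ∀ v ∈ R0, hi v ≤ lam v ∨ ∃ x ∈ R0, Adj v x ∧ hi v ≤ lam x
  esc : ∀ v ∈ R0, Esc R0 {x | lam v ≤ lam x} v

/-- normalisation of a potential -/
def NormSt : Prop := ∀ (R0 : Finset V) (u e : V → ℝ) (ω : ℝ), (∀ v ∈ R0, 0 ≤ e v ∧ e v ≤ ω) →
  (∀ v ∈ R0, ∀ x ∈ R0, Adj v x → u v - u x ≤ e v + e x) →
  (∀ v ∈ R0, Esc R0 {x | u v - ω ≤ u x} v) →
  ∃ lam hi, Lev R0 lam hi ∧
    ∀ v ∈ R0, u v - 2 * ω ≤ lam v ∧ hi v ≤ u v + ω ∧ hi v - lam v ≤ 2 * e v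

/-- the vertices whose interval meets the strip -/
def Sp (lam hi : V → ℝ) (t0 t1 : ℝ) : Set V := {v | lam v < t1 ∧ t0 < hi v}

/-- the length of the interval of `v` inside the strip -/
noncomputable def len (lam hi : V → ℝ) (t0 t1 : ℝ) (v : V) : ℝ :=
  max (min (hi v) t1 - max (lam v) t0) 0

/-- the energy of `C` in the strip -/
noncomputable def en (R0 : Finset V) (lam hi : V → ℝ) (t0 t1 : ℝ) (C : Set V) : ℝ :=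
  ∑ v ∈ R0, C.indicator (fun v => len lam hi t0 t1 v ^ 2) v

/-- discrete length area argument: a channel of small energy contains a gate -/
def LenSt : Prop := ∀ l : ℤ, 1 ≤ l → ∃ M > (0 : ℝ), ∀ (W : Wall) (R0 : Finset V) (lam hi : V → ℝ)
  (Z C T : Set V) (t0 t t1 δ : ℝ) (z0 v0 v1 : V), Lev R0 lam hi → W.R ⊆ R0 →
    (∀ z ∈ Z, ∃ i, W.γ i = z) → (∀ z ∈ Z, ∀ z' ∈ Z, DConn W.R W.γ Z z z') →
    C ⊆ W.R ∩ Sp lam hi t0 t1 → (∀ v ∈ C, ∀ x ∈ W.R, Adj v x → x ∈ Sp lam hi t0 t1 → x ∈ C) →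
    (∀ u ∈ C, ∀ v ∈ C, Conn C u v) → (∀ z ∈ Z, ∀ v ∈ C, Adj z v → z ∈ R0 ∧ hi z ≤ t0) →
    z0 ∈ Z → v0 ∈ C → Adj z0 v0 → T ⊆ C → (∀ u ∈ T, ∀ v ∈ T, Conn T u v) →
    (∀ v ∈ T, t ≤ lam v) → v1 ∈ T → t1 ≤ hi v1 → 0 < δ → en R0 lam hi t0 t1 C ≤ δ ^ 2 →
    t0 + M * δ ≤ t → t + 2 * δ ≤ t1 →
    ∃ i0 i1 T', T ⊆ T' ∧ Gt W l i0 i1 Z T'

/-- after step `k` a vertex of `T` joins the arc before a vertex of `B` did -/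
def Hit (R Z : ℕ → O → Set V) (k : ℕ) (T B : Set V) : Set O :=
  {g | ∃ j, k ≤ j ∧ (∃ v ∈ T, v ∈ Z (j + 1) g ∧ v ∈ R j g) ∧
    ∀ i, k ≤ i → i < j → ∀ v ∈ B, v ∈ Z (i + 1) g → v ∉ R i g}

/-- a union of components of the strip that the arc only touches from below -/
structure Reg (R0 : Finset V) (lam hi : V → ℝ) (R Z : Set V) (t0 t1 : ℝ) (C : Set V) : Prop where
  sub : C ⊆ R ∩ Sp lam hi t0 t1
  cls : ∀ v ∈ C, ∀ x ∈ R, Adj v x → x ∈ Sp lam hi t0 t1 → x ∈ C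
  low : ∀ z ∈ Z, ∀ v ∈ C, Adj z v → z ∈ R0 ∧ hi z ≤ t0

/-- crossing of a strip, all channels at once -/
def MulSt : Prop := ∃ η0 > (0 : ℝ), ∀ l : ℤ, 1 ≤ l → ∃ K > (0 : ℝ), ∀ (O ι : Type) (Ω : Set O)
  (lab : ℕ → O → ι) (R Z : ℕ → O → Set V) (lo : O → Set V) (N : ℕ) (R0 : Finset V)
  (lam hi : V → ℝ), Ch l η0 Ω lab R Z lo N → (∀ g ∈ Ω, R 0 g ⊆ R0) → Lev R0 lam hi →
  ∀ (k : ℕ) (g : O) (t0 t1 b : ℝ) (C : Set V), g ∈ Ω → t0 < t1 →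
    Reg R0 lam hi (R k g) (Z k g) t0 t1 C →
    (∀ v ∈ C, en R0 lam hi t0 t1 {x | Conn C v x} ≤ b) →
    Pr (Fb Ω lab k g) (Hit R Z k (C ∩ {v | t1 ≤ hi v}) (cl C ∩ {v | t1 ≤ hi v})) ≤
      K * b ^ 5 * en R0 lam hi t0 t1 C / (t1 - t0) ^ 12

end Pool.Agent.Lib.MP_6359c9_pr.Fj
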