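import Pool.Agent.Lib.MP_6359c9_pr.ChA
import Pool.Agent.Lib.MP_6359c9_pr.CovA
import Pool.Agent.Lib.MP_6359c9_pr.Bridge
import Pool.Agent.Lib.MP_6359c9_pr.FjDef

/-! The disc chart on the lattice: oscillation, area and escapes. -/

namespace Pool.Agent.Lib.MP_6359c9_pr

open Set Filter Topology Bornology Metric Complex MeasureTheory Lw Pool.Agent.Lib.MP_1e9af3_an

/-- the open hexagon of size `θ` around a vertex -/
def Star (d θ : ℝ) (x : V) : Set ℂ :=
  {z | |cx d z - x.1| < θ ∧ |cy d z - x.2| < θ ∧ |cx d z + cy d z - (x.1 + x.2)| < θ}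

section

variable {d θ : ℝ} {x y : V} {z : ℂ}

lemma star_open : IsOpen (Star d θ x) :=
  (isOpen_lt ((cont_cx d).sub continuous_const).abs continuous_const).and
    ((isOpen_lt ((cont_cy d).sub continuous_const).abs continuous_const).and
      (isOpen_lt (((cont_cx d).add (cont_cy d)).sub continuous_const).abs continuous_const))

lemma star_convex : Convex ℝ (Star d θ x) := by
  intro u hu v hv s t hs ht e
  have key : ∀ p q m : ℝ, |p - m| < θ → |q - m| < θ → |s * p + t * q - m| < θ := fun p q m h1 h2 =>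
    convex_ball m θ (mem_ball_iff_norm.2 h1) (mem_ball_iff_norm.2 h2) hs ht e
  refine ⟨?_, ?_, ?_⟩
  · rw [cx_comb]; exact key _ _ _ hu.1 hv.1
  · rw [cy_comb]; exact key _ _ _ hu.2.1 hv.2.1
  · rw [cx_comb, cy_comb, add_add_add_comm, ← mul_add, ← mul_add]; exact key _ _ _ hu.2.2 hv.2.2

lemma star_self (hd : 0 < d) (h : 0 < θ) : pos d x ∈ Star d θ x := by
  simp [Star, cx_pos' hd, cy_pos' hd, h]

lemma star_mono {θ' : ℝ} (h : θ ≤ θ') : Star d θ x ⊆ Star d θ' x :=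
  fun _ k => ⟨k.1.trans_le h, k.2.1.trans_le h, k.2.2.trans_le h⟩

lemma star_closure {θ' : ℝ} (h : θ < θ') : closure (Star d θ x) ⊆ Star d θ' x := by
  refine (closure_minimal (t := {z | |cx d z - x.1| ≤ θ ∧ |cy d z - x.2| ≤ θ ∧
    |cx d z + cy d z - (x.1 + x.2)| ≤ θ}) (fun _ k => ⟨k.1.le, k.2.1.le, k.2.2.le⟩)
    ((isClosed_le ((cont_cx d).sub continuous_const).abs continuous_const).and
      ((isClosed_le ((cont_cy d).sub continuous_const).abs continuous_const).and (isClosed_le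
        (((cont_cx d).add (cont_cy d)).sub continuous_const).abs continuous_const)))).trans
    fun _ k => ⟨k.1.trans_lt h, k.2.1.trans_lt h, k.2.2.trans_lt h⟩

lemma co_norm (hd : 0 < d) {z w : ℂ} (h1 : |cx d z - cx d w| ≤ 1) (h2 : |cy d z - cy d w| ≤ 1)
    (h3 : |cx d z + cy d z - (cx d w + cy d w)| ≤ 1) : ‖z - w‖ ≤ d := by
  refine (abs_le_of_sq_le_sq' ?_ hd.le).2
  have h0 : (√3 : ℝ) ≠ 0 := by positivity
  have e : (√3 : ℝ) ^ 2 = 3 := Real.sq_sqrt (by norm_num)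
  have e1 : ∀ z : ℂ, z.im = d * (cy d z * (√3 / 2)) := fun z => by simp only [cy]; field_simp
  have e2 : ∀ z : ℂ, z.re = d * (cx d z + cy d z / 2) := fun z => by
    simp only [cx]; field_simp; ring
  obtain ⟨a, ha⟩ : ∃ a, cx d z - cx d w = a := ⟨_, rfl⟩
  obtain ⟨b, hb⟩ : ∃ b, cy d z - cy d w = b := ⟨_, rfl⟩
  have e3 : ‖z - w‖ ^ 2 = d ^ 2 * (a ^ 2 + a * b + b ^ 2) := by
    rw [Complex.sq_norm, normSq_apply, sub_re, sub_im, e1 z, e1 w, e2 z, e2 w, ← ha, ← hb]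
    linear_combination (d ^ 2 * (cy d z - cy d w) ^ 2 / 4) * e
  rw [add_sub_add_comm, ha, hb] at h3
  rw [ha] at h1
  rw [hb] at h2
  rw [e3]
  refine mul_le_of_le_one_right (by positivity) ?_
  have k1 := (sq_le_one_iff_abs_le_one a).2 h1
  have k2 := (sq_le_one_iff_abs_le_one b).2 h2
  have k3 := (sq_le_one_iff_abs_le_one _).2 h3
  by_contra! c
  nlinarith [mul_pos (show 0 < a * (a + b) by nlinarith) (show 0 < b * (a + b) by nlinarith),
    show a * b < 0 by nlinarith, sq_nonneg (a + b)]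

lemma star_ball (hd : 0 < d) : Star d 1 x ⊆ closedBall (pos d x) d := fun z ⟨h1, h2, h3⟩ =>
  mem_closedBall_iff_norm.2 (co_norm hd (by rw [cx_pos' hd]; exact h1.le)
    (by rw [cy_pos' hd]; exact h2.le) (by rw [cx_pos' hd, cy_pos' hd]; exact h3.le))

lemma tg_norm (hd : 0 < d) {p : V} {u v : ℂ} (hu : u ∈ Tg d p) (hv : v ∈ Tg d p) : ‖u - v‖ ≤ d := by
  have key : ∀ {i : ℤ} {s t : ℝ}, InI i s → InI i t → |s - t| ≤ 1 := fun a b =>
    abs_le.2 ⟨by linarith [a.1, b.2], by linarith [a.2, b.1]⟩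
  exact co_norm hd (key hu.1 hv.1) (key hu.2.1 hv.2.1) (key hu.2.2 hv.2.2)

lemma ball_star (hd : 0 < d) : Metric.ball (pos d x) (4 / 5 * d) ⊆ Star d 1 x := fun z hz => by
  rw [mem_ball', dist_eq_norm] at hz
  have h : ‖pos d x - z‖ ^ 2 < (4 / 5 * d) ^ 2 := by gcongr
  rw [pos_sub_sq hd, mul_pow, mul_comm _ (d ^ 2)] at h
  have h := lt_of_mul_lt_mul_left h (by positivity)
  refine ⟨abs_lt_of_sq_lt_sq ?_ zero_le_one, abs_lt_of_sq_lt_sq ?_ zero_le_one,
    abs_lt_of_sq_lt_sq ?_ zero_le_one⟩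
  · nlinarith [sq_nonneg ((x.1 - cx d z) / 2 + (x.2 - cy d z))]
  · nlinarith [sq_nonneg ((x.2 - cy d z) / 2 + (x.1 - cx d z))]
  · nlinarith [sq_nonneg ((x.2 - cy d z) - (x.1 - cx d z))]

lemma star_cover (d : ℝ) (z : ℂ) : ∃ x, z ∈ Star d (3 / 4) x := by
  have := Int.floor_le (cx d z)
  have := Int.lt_floor_add_one (cx d z)
  have := Int.floor_le (cy d z)
  have := Int.lt_floor_add_one (cy d z)
  simp only [Star, mem_ofPred_eq, abs_lt, Prod.exists]
  generalize ⌊cx d z⌋ = a, ⌊cy d z⌋ = b at *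
  generalize cx d z = s, cy d z = t at *
  by_cases h1 : s + t < a + b + 2 / 3
  · exact ⟨a, b, by refine ⟨⟨?_, ?_⟩, ⟨?_, ?_⟩, ?_, ?_⟩ <;> linarith⟩
  by_cases h2 : a + b + 4 / 3 < s + t
  · exact ⟨a + 1, b + 1, by push_cast; refine ⟨⟨?_, ?_⟩, ⟨?_, ?_⟩, ?_, ?_⟩ <;> linarith⟩
  rcases le_total (s - a) (t - b) with h | h
  · exact ⟨a, b + 1, by push_cast; refine ⟨⟨?_, ?_⟩, ⟨?_, ?_⟩, ?_, ?_⟩ <;> linarith⟩
  · exact ⟨a + 1, b, by push_cast; refine ⟨⟨?_, ?_⟩, ⟨?_, ?_⟩, ?_, ?_⟩ <;> linarith⟩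

lemma star_adj (h : z ∈ Star d 1 x) (h' : z ∈ Star d 1 y) : x = y ∨ Adj x y := by
  have key : ∀ (s : ℝ) (m n : ℤ), |s - m| < 1 → |s - n| < 1 → m < n + 2 := fun s m n a b => by
    rw [abs_lt] at a b
    exact_mod_cast (show (m : ℝ) < n + 2 by linarith)
  have a1 := key _ _ _ h.1 h'.1
  have a2 := key _ _ _ h'.1 h.1
  have a3 := key _ _ _ h.2.1 h'.2.1
  have a4 := key _ _ _ h'.2.1 h.2.1
  have a5 := key _ (x.1 + x.2) (y.1 + y.2) (by exact_mod_cast h.2.2) (by exact_mod_cast h'.2.2)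
  have a6 := key _ (y.1 + y.2) (x.1 + x.2) (by exact_mod_cast h'.2.2) (by exact_mod_cast h.2.2)
  simp only [Adj, Prod.ext_iff]
  omega

lemma seg_lim (u v : ℂ) :
    Tendsto (fun t : ℝ => (1 - t) • u + t • v) (𝓝[>] 0) (𝓝 u) :=
  Tendsto.mono_left (Continuous.tendsto' (by fun_prop) _ _ (by simp)) nhdsWithin_le_nhds

lemma adj_closure (hd : 0 < d) (h : Adj x y) : pos d y ∈ closure (Star d 1 x) := by
  refine mem_closure_of_tendsto (seg_lim _ (pos d x)) ?_
  filter_upwards [Ioo_mem_nhdsGT one_pos] with t ⟨t0, t1⟩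
  simp only [Star, mem_ofPred_eq, cx_comb, cy_comb, cx_pos' hd, cy_pos' hd, abs_lt]
  rcases h with h | h | h | h | h | h <;> rw [h.1, h.2] <;> push_cast <;>
    refine ⟨⟨?_, ?_⟩, ⟨?_, ?_⟩, ?_, ?_⟩ <;> linarith

lemma adj_norm (hd : 0 < d) (h : Adj x y) : ‖pos d x - pos d y‖ ≤ d := by
  have := closure_minimal (star_ball hd) isClosed_closedBall (adj_closure hd h)
  rwa [mem_closedBall', dist_eq_norm] at this

namespace Dom

variable (Q : Dom d)

lemma star_sub (hd : 0 < d) (hx : x ∈ Q.R) : Star d 1 x ⊆ Q.D := fun z hz => by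
  refine pre_mem Q.isOpen star_convex.isPreconnected (fun w hw hf => ?_) (star_self hd one_pos) hz hx
  obtain ⟨i, hi, hs⟩ := Q.fr_iff.1 hf
  obtain ⟨t, t0, t1, e1, e2⟩ := seg_co hd hs
  have key : ∀ (s : ℝ) (m n : ℤ), (m : ℝ) ≤ s → |s - n| < 1 → m ≤ n := fun s m n a b => by
    rw [abs_lt] at b
    exact Int.lt_add_one_iff.1 (by exact_mod_cast (show (m : ℝ) < n + 1 by linarith))
  have key' : ∀ (s : ℝ) (m n : ℤ), s ≤ (m : ℝ) → |s - n| < 1 → n ≤ m := fun s m n a b => by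
    rw [abs_lt] at b
    exact Int.lt_add_one_iff.1 (by exact_mod_cast (show (n : ℝ) < m + 1 by linarith))
  have mm : ∀ (s : ℝ) (p q n : ℤ), s = p + t * (q - p) → |s - n| < 1 →
      min p q ≤ n ∧ n ≤ max p q := fun s p q n e h => by
    refine ⟨key s _ _ ?_ h, key' s _ _ ?_ h⟩ <;> push_cast
    · nlinarith [min_le_left (p : ℝ) q, min_le_right (p : ℝ) q]
    · nlinarith [le_max_left (p : ℝ) q, le_max_right (p : ℝ) q]
  have a1 := mm _ _ _ _ e1 hw.1
  have a2 := mm _ _ _ _ e2 hw.2.1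
  have a3 := mm (cx d w + cy d w) ((Q.c i).1 + (Q.c i).2) ((Q.c (i + 1)).1 + (Q.c (i + 1)).2)
    (x.1 + x.2) (by rw [e1, e2]; push_cast; ring) (by exact_mod_cast hw.2.2)
  have ad := Q.adj i hi
  have : x = Q.c i ∨ x = Q.c (i + 1) := by
    simp only [Adj, Prod.ext_iff] at *
    omega
  refine Q.not_fr hx (Q.fr_iff.2 ⟨i, hi, ?_⟩)
  rcases this with rfl | rfl
  exacts [left_mem_segment _ _ _, right_mem_segment _ _ _]

/-- a connected set is followed by a lattice path until the path reaches the wall -/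
lemma follow {Z : Set ℂ} (hZ : IsPreconnected Z) (hx : x ∈ Q.R)
    (hz : (Z ∩ Star d (3 / 4) x).Nonempty) {G : Set V}
    (hG : ∀ u ∈ Q.R, (Z ∩ Star d (3 / 4) u).Nonempty → u ∈ G) :
    (∃ u w, Conn (Q.R ∩ G) x u ∧ Adj u w ∧ w ∉ Q.R) ∨
      Z ⊆ ⋃ u ∈ {u | Conn (Q.R ∩ G) x u}, Star d (3 / 4) u := by
  by_contra! hc
  obtain ⟨h1, h2⟩ := hc
  obtain ⟨z, hz', h3, h4⟩ := hZ (⋃ u ∈ {u | Conn (Q.R ∩ G) x u}, Star d (3 / 4) u)
    (⋃ u ∈ {u | Conn (Q.R ∩ G) x u}ᶜ, Star d (3 / 4) u) (isOpen_biUnion fun _ _ => star_open)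
    (isOpen_biUnion fun _ _ => star_open)
    (fun z _ => by
      obtain ⟨u, hu⟩ := star_cover d z
      by_cases c : Conn (Q.R ∩ G) x u
      exacts [Or.inl (mem_biUnion c hu), Or.inr (mem_biUnion c hu)])
    (hz.mono (inter_subset_inter_right _ (subset_biUnion_of_mem (u := Star d (3 / 4))
      (Conn.refl ⟨hx, hG x hx hz⟩))))
    (by
      obtain ⟨z, a, b⟩ := not_subset.1 h2
      obtain ⟨u, hu⟩ := star_cover d z
      exact ⟨z, a, mem_biUnion (fun c => b (mem_biUnion c hu)) hu⟩)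
  obtain ⟨u, hu, k1⟩ := mem_iUnion₂.1 h3
  obtain ⟨w, hw, k2⟩ := mem_iUnion₂.1 h4
  rcases star_adj (star_mono (by norm_num) k1) (star_mono (by norm_num) k2) with rfl | e
  · exact hw hu
  · exact hw (Conn.tail hu e ⟨h1 u w hu e, hG w (h1 u w hu e) ⟨z, hz', k2⟩⟩)

lemma fin_R (hd : 0 < d) : Q.R.Finite := (Q.cls_R hd).fin

end Dom

/-- the oscillation of a univalent map is bounded by the area of the image -/
lemma area_osc {f : ℂ → ℂ} {c : ℂ} {r A : ℝ} (hr : 0 < r) (hA0 : 0 ≤ A)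
    (hf : DifferentiableOn ℂ f (Metric.ball c (4 / 5 * r))) (hi : InjOn f (Metric.ball c (4 / 5 * r)))
    (hA : volume (f '' Metric.ball c (4 / 5 * r)) ≤ ENNReal.ofReal A) (hz : z ∈ closedBall c (r / 2)) :
    ‖f z - f c‖ ≤ 64 * √A := by
  refine le_of_forall_pos_le_add fun ε hε => ?_
  obtain ⟨ρ, hρ, H⟩ := wolff_conn isOpen_ball hf hi c (δ := r / 2) (Δ := 4 / 5 * r) (A := A)
    (t := 2 * √A + ε / 32) (by positivity) (by linarith) (by rwa [inter_self]) (by positivity) (by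
      have h1 := Real.one_sub_inv_le_log_of_pos (show (0 : ℝ) < 8 / 5 by norm_num)
      rw [show 4 / 5 * r / (r / 2) = 8 / 5 by field_simp; norm_num]
      have h2 : 4 * A < (2 * √A + ε / 32) ^ 2 := by
        nlinarith [Real.sq_sqrt hA0, Real.sqrt_nonneg A]
      nlinarith)
  have ρ0 : 0 < ρ := by linarith [hρ.1]
  have hq : c + ρ ∈ sphere c ρ := by simp [ρ0.le]
  have key : ∀ x ∈ closedBall c ρ, ‖f x - f (c + ρ)‖ ≤ 16 * (2 * √A + ε / 32) := fun x hx =>
    norm_le_of_forall_mem_frontier_norm_le (U := Metric.ball c ρ) (f := fun x => f x - f (c + ρ))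
      isBounded_ball (DifferentiableOn.diffContOnCl ((hf.mono (by
        rw [closure_ball c ρ0.ne']; exact closedBall_subset_ball hρ.2)).sub_const _))
      (fun w hw => H _ (isPreconnected_sphere (by simp) c ρ)
        (fun w hw => ⟨sphere_subset_ball hρ.2 hw, hw⟩) w (frontier_ball_subset_sphere hw) _ hq)
      (by rwa [closure_ball c ρ0.ne'])
  linarith [key z (closedBall_subset_closedBall hρ.1.le hz), key c (mem_closedBall_self ρ0.le),
    norm_sub_le_norm_sub_add_norm_sub (f z) (f (c + ρ)) (f c), norm_sub_rev (f c) (f (c + ρ))]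

end

namespace Chart

variable {d r ω : ℝ} {Q : Dom d} {a b : ℂ} {Ψ : ℂ → ℂ} {h : Chart Q.D a b Ψ}

lemma Small.star (H : h.Small r ω) (hd : 0 < d) (hr : d ≤ r) {x : V} (hx : x ∈ Q.R) {z : ℂ}
    (hz : z ∈ closure (Star d 1 x)) : ‖h.dc z - h.dc (pos d x)‖ ≤ ω :=
  H (pos d x) _ star_convex.isPreconnected (subset_inter (Q.star_sub hd hx)
    ((star_ball hd).trans (closedBall_subset_closedBall hr))) z hz _
    (subset_closure (star_self hd one_pos))

/-- the oscillation on the closed triangles of the domain -/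
lemma Small.tg (H : h.Small r ω) (hd : 0 < d) (hr : d ≤ r) {p : V} (hp : Face p)
    (hD : pos (d / 3) p ∈ Q.D) {u v : ℂ} (hu : u ∈ Tg d p) (hv : v ∈ Tg d p) :
    ‖h.dc u - h.dc v‖ ≤ ω := by
  let J : ℤ → Set ℝ := fun q => Ioo ((q / 3 : ℤ) : ℝ) ((q / 3 : ℤ) + 1)
  let E : Set ℂ := {z | cx d z ∈ J p.1 ∧ cy d z ∈ J p.2 ∧ cx d z + cy d z ∈ J (p.1 + p.2)}
  have ET : E ⊆ Tg d p := fun z k =>
    ⟨⟨k.1.1.le, k.1.2.le⟩, ⟨k.2.1.1.le, k.2.1.2.le⟩, k.2.2.1.le, k.2.2.2.le⟩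
  have cv : Convex ℝ E := fun u hu v hv s t hs ht e => by
    refine ⟨?_, ?_, ?_⟩
    · rw [cx_comb]; exact convex_Ioo _ _ hu.1 hv.1 hs ht e
    · rw [cy_comb]; exact convex_Ioo _ _ hu.2.1 hv.2.1 hs ht e
    · rw [cx_comb, cy_comb, add_add_add_comm, ← mul_add, ← mul_add]
      exact convex_Ioo _ _ hu.2.2 hv.2.2 hs ht e
  have co : ∀ (q : ℤ) (s t : ℝ), q % 3 ≠ 0 → InI (q / 3) s → t ∈ Ioc (0 : ℝ) 1 →
      (1 - t) * s + t * (q / 3) ∈ J q := by
    intro q s t hq ⟨h1, h2⟩ ⟨t0, t1⟩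
    have b1 : 3 * (q / 3) + 1 ≤ q := by omega
    have b2 : q ≤ 3 * (q / 3) + 2 := by omega
    simp only [J]
    generalize q / 3 = k at *
    have c1 : 3 * (k : ℝ) + 1 ≤ q := by exact_mod_cast b1
    have c2 : (q : ℝ) ≤ 3 * k + 2 := by exact_mod_cast b2
    exact ⟨by nlinarith, by nlinarith⟩
  have sg : ∀ w ∈ Tg d p, ∀ t ∈ Ioc (0 : ℝ) 1, (1 - t) • w + t • pos (d / 3) p ∈ E := by
    intro w hw t ht
    simp only [E, mem_ofPred_eq, cx_comb, cy_comb, cx_pos hd, cy_pos hd]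
    refine ⟨co _ _ _ (by unfold Face at hp; omega) hw.1 ht,
      co _ _ _ (by unfold Face at hp; omega) hw.2.1 ht, ?_⟩
    convert co (p.1 + p.2) _ _ (by unfold Face at hp; omega) hw.2.2 ht using 1
    push_cast; ring
  have cl : Tg d p ⊆ closure E := fun w hw => mem_closure_of_tendsto (seg_lim w (pos (d / 3) p))
    (by filter_upwards [Ioc_mem_nhdsGT one_pos] with t ht using sg w hw t ht)
  refine H u E cv.isPreconnected (fun z hz => ⟨(Q.tg_iff hd hp (ET hz) fun hf => ?_).2 hD,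
    mem_closedBall_iff_norm.2 ((tg_norm hd (ET hz) hu).trans hr)⟩) u (cl hu) v (cl hv)
  obtain ⟨i, hi, hs⟩ := Q.fr_iff.1 hf
  obtain ⟨m, hm⟩ := seg_int hd (Q.adj i hi) hs
  have no : ∀ q : ℤ, (m : ℝ) ∉ J q := fun q k => by
    have k1 : q / 3 < m := by exact_mod_cast k.1
    have k2 : m < q / 3 + 1 := by exact_mod_cast k.2
    omega
  rcases hm with e | e | e
  exacts [no _ (e ▸ hz.1), no _ (e ▸ hz.2.1), no _ (e ▸ hz.2.2)]

lemma Small.adj (H : h.Small r ω) (hd : 0 < d) (hr : d ≤ r) {x y : V} (hx : x ∈ Q.R)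
    (e : Adj x y) : ‖h.dc (pos d y) - h.dc (pos d x)‖ ≤ ω := H.star hd hr hx (adj_closure hd e)

/-- escape along the preimage of a chord -/
lemma Small.esc (H : h.Small r ω) (hd : 0 < d) (hr : d ≤ r) (l : ℂ →L[ℝ] ℝ) (hl : ‖l‖ ≤ 1)
    {c : ℂ} (hc : ‖c‖ = 1) (hlc : l c = 0) {x : V} (hx : x ∈ Q.R) :
    Fj.Esc Q.R {y | |l (h.dc (pos d y)) - l (h.dc (pos d x))| ≤ 3 * ω} x := by
  have ω0 : 0 ≤ ω := by simpa using H.star hd hr hx (subset_closure (star_self hd one_pos))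
  have lip : ∀ u v, |l u - l v| ≤ ‖u - v‖ := fun u v => by
    rw [← map_sub]; simpa using l.le_of_opNorm_le hl (u - v)
  set ζ := h.dc (pos d x) with hζ
  set C := {w | l w = l ζ} ∩ Metric.ball 0 1 with hC
  have cv : Convex ℝ C := (convex_hyperplane l.toLinearMap.isLinear _).inter (convex_ball _ _)
  have x1 : ζ ∈ C := ⟨rfl, h.dc_bij.mapsTo hx⟩
  rcases Q.follow (Z := h.dci '' C) (G := {y | |l (h.dc (pos d y)) - l ζ| ≤ ω})
    (cv.isPreconnected.image _ (h.dci_cont.mono inter_subset_right)) hx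
    ⟨pos d x, ⟨ζ, x1, h.dci_dc hx⟩, star_self hd (by norm_num)⟩
    (by
      rintro u hu ⟨_, ⟨w, hw, rfl⟩, k⟩
      have := H.star hd hr hu (subset_closure (star_mono (by norm_num) k))
      rw [h.dc_dci hw.2, norm_sub_rev] at this
      exact hw.1 ▸ (lip _ _).trans this) with ⟨u, w, h1, h2, h3⟩ | h1
  · refine ⟨u, w, h1.mono fun y hy => ⟨hy.1, le_trans (b := ω) hy.2 (by linarith)⟩, h2, h3, fun y hy e => ?_⟩
    have a1 := (lip _ _).trans (H.adj hd hr hy e.symm)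
    have a2 := (lip _ _).trans (H.adj hd hr h1.right.1 h2)
    have a3 : |l (h.dc (pos d u)) - l ζ| ≤ ω := h1.right.2
    rw [abs_le] at a1 a2 a3
    show |l (h.dc (pos d y)) - l ζ| ≤ 3 * ω
    exact abs_le.2 ⟨by linarith, by linarith⟩
  · exfalso
    have hK : IsCompact (⋃ u ∈ Q.R, closure (Star d (3 / 4) u)) :=
      (Q.fin_R hd).isCompact_biUnion fun u _ => (isBounded_closedBall.subset
        ((star_mono (by norm_num)).trans (star_ball hd))).isCompact_closure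
    have KD : (⋃ u ∈ Q.R, closure (Star d (3 / 4) u)) ⊆ Q.D := iUnion₂_subset fun u hu =>
      (star_closure (by norm_num)).trans (Q.star_sub hd hu)
    obtain ⟨ρ, ρ1, hρ⟩ := exists_lt_subset_ball (x := (0 : ℂ)) (r := 1)
      (hK.image_of_continuousOn (h.dc_hol.continuousOn.mono KD)).isClosed
      (by rintro _ ⟨z, hz, rfl⟩; exact h.dc_bij.mapsTo (KD hz))
    have hb : ∀ w ∈ C, ‖w‖ < ρ := fun w hw => by
      obtain ⟨u, hu, k⟩ := mem_iUnion₂.1 (h1 ⟨w, hw, rfl⟩)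
      exact mem_ball_zero_iff.1 (hρ ⟨_, mem_biUnion (Conn.right hu).1 (subset_closure k),
        h.dc_dci hw.2⟩)
    obtain ⟨T, -, e⟩ := intermediate_value_Icc zero_le_two (f := fun T : ℝ => ‖ζ + T • c‖)
      (by fun_prop) (show ρ ∈ Icc _ _ from ⟨by simpa using (hb ζ x1).le, by
        have := norm_sub_le (ζ + (2 : ℝ) • c) ζ
        rw [add_sub_cancel_left, norm_smul, hc] at this
        simp only [Real.norm_ofNat] at this
        linarith [hb ζ x1]⟩)
    exact (hb (ζ + T • c) ⟨by simp [-real_smul, hlc], mem_ball_zero_iff.2 (e.trans_lt ρ1)⟩).ne e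

/-- the area of the image of the disc around a vertex -/
noncomputable def ar (h : Chart Q.D a b Ψ) (v : V) : ℝ :=
  (volume (h.dc '' Metric.ball (pos d v) (4 / 5 * d))).toReal

/-- the chart data -/
theorem Small.chart (H : h.Small r ω) (hd : 0 < d) (hr : d ≤ r) (hω : 0 ≤ ω) :
    Fj.Chart (Q.fin_R hd).toFinset (fun v => h.dc (pos d v)) (fun v => 64 * √(h.ar v)) (2 ^ 18)
      (128 * ω) := by
  have bD : ∀ v ∈ Q.R, Metric.ball (pos d v) (4 / 5 * d) ⊆ Q.D := fun v hv =>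
    (ball_star hd).trans (Q.star_sub hd hv)
  have im : ∀ v ∈ Q.R, h.dc '' Metric.ball (pos d v) (4 / 5 * d) ⊆
      closedBall (h.dc (pos d v)) ω := fun v hv => by
    rintro _ ⟨z, hz, rfl⟩
    exact mem_closedBall_iff_norm.2 (H.star hd hr hv (subset_closure (ball_star hd hz)))
  have vol : ∀ (y : ℂ) (s : ℝ), 0 ≤ s → volume (closedBall y s) ≤ ENNReal.ofReal (4 * s ^ 2) :=
    fun y s hs => by rw [Measure.addHaar_closedBall_eq_addHaar_ball]; exact vol_ball y hs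
  have fin : ∀ v ∈ Q.R, volume (h.dc '' Metric.ball (pos d v) (4 / 5 * d)) ≠ ⊤ := fun v hv =>
    ((measure_mono (im v hv)).trans_lt measure_closedBall_lt_top).ne
  have osc : ∀ v ∈ Q.R, ∀ z ∈ closedBall (pos d v) (d / 2),
      ‖h.dc z - h.dc (pos d v)‖ ≤ 64 * √(h.ar v) := fun v hv z hz =>
    area_osc hd ENNReal.toReal_nonneg (h.dc_hol.mono (bD v hv)) (h.dc_bij.injOn.mono (bD v hv))
      (ENNReal.ofReal_toReal (fin v hv)).ge hz
  have esc : ∀ {S T : Set V} {v}, Fj.Esc Q.R S v → S ⊆ T →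
      Fj.Esc (Q.fin_R hd).toFinset T v := fun ⟨u, w, a1, a2, a3, a4⟩ hs => by
    rw [Finite.coe_toFinset]
    exact ⟨u, w, a1.mono (inter_subset_inter_right _ hs), a2, a3, fun x hx e => hs (a4 x hx e)⟩
  refine ⟨fun v hv => (h.dc_lt ((Q.fin_R hd).mem_toFinset.1 hv)).le, fun v _ => by positivity,
    fun v hv => ?_, fun u hu v hv e => ?_, fun y s hs => ?_,
    fun v hv => esc (H.esc hd hr reCLM reCLM_norm.le norm_I (by simp) (by simpa using hv))
      fun x hx => le_trans (b := 3 * ω) hx (by linarith),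
    fun v hv => esc (H.esc hd hr imCLM imCLM_norm.le norm_one (by simp) (by simpa using hv))
      fun x hx => le_trans (b := 3 * ω) hx (by linarith)⟩
  · have : h.ar v ≤ (2 * ω) ^ 2 := ENNReal.toReal_le_of_le_ofReal (by positivity)
      ((measure_mono (im v (by simpa using hv))).trans ((vol _ _ hω).trans_eq (by congr 1; ring)))
    linarith [Real.sqrt_le_iff.2 ⟨by positivity, this⟩]
  · have n := adj_norm hd e
    have m1 : midpoint ℝ (pos d u) (pos d v) ∈ closedBall (pos d u) (d / 2) := by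
      rw [mem_closedBall, dist_midpoint_left, dist_eq_norm]; simp; linarith
    have m2 : midpoint ℝ (pos d u) (pos d v) ∈ closedBall (pos d v) (d / 2) := by
      rw [mem_closedBall, dist_midpoint_right, dist_eq_norm]; simp; linarith
    linarith [osc u (by simpa using hu) _ m1, osc v (by simpa using hv) _ m2,
      norm_sub_le_norm_sub_add_norm_sub (h.dc (pos d u)) (h.dc (midpoint ℝ (pos d u) (pos d v)))
        (h.dc (pos d v)), norm_sub_rev (h.dc (pos d u)) (h.dc (midpoint ℝ (pos d u) (pos d v)))]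
  · have s0 : 0 ≤ s := le_trans (by positivity) hs
    set F := (Q.fin_R hd).toFinset.filter fun v => ‖h.dc (pos d v) - y‖ ≤ s with hF
    have mF : ∀ v ∈ F, v ∈ Q.R ∧ ‖h.dc (pos d v) - y‖ ≤ s := fun v hv => by simpa [hF] using hv
    have cls : ∀ j : ℤ × ℤ, ∑ v ∈ F with (v.1 % 2, v.2 % 2) = j, h.ar v ≤ 4 * (2 * s) ^ 2 := by
      intro j
      have mG : ∀ v ∈ F.filter fun v => (v.1 % 2, v.2 % 2) = j, v ∈ Q.R := fun v hv =>
        (mF v (Finset.mem_filter.1 hv).1).1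
      simp only [ar]
      rw [← ENNReal.toReal_sum fun v hv => fin v (mG v hv), ← measure_biUnion_finset]
      · refine ENNReal.toReal_le_of_le_ofReal (by positivity)
          ((measure_mono (iUnion₂_subset fun v hv => (im v (mG v hv)).trans
            (closedBall_subset_closedBall' ?_))).trans (vol y _ (by positivity)))
        rw [dist_eq_norm]
        linarith [(mF v (Finset.mem_filter.1 hv).1).2]
      · intro u hu v hv ne
        refine (disjoint_image_image fun z hz w hw e => ?_)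
        obtain rfl := h.dc_bij.injOn (bD u (mG u hu) hz) (bD v (mG v hv) hw) e
        have e1 := (Finset.mem_filter.1 hu).2.trans (Finset.mem_filter.1 hv).2.symm
        rcases star_adj (ball_star hd hz) (ball_star hd hw) with k | k
        · exact ne k
        · simp only [Adj, Prod.mk.injEq] at k e1
          omega
      · exact fun v hv => (isOpen_image_of_injOn h.isOpen h.dc_hol h.dc_bij.injOn isOpen_ball
          (bD v (mG v hv))).measurableSet
    have e : ∀ v, (64 * √(h.ar v)) ^ 2 = 4096 * h.ar v := fun v => by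
      rw [mul_pow, Real.sq_sqrt (x := h.ar v) ENNReal.toReal_nonneg]; norm_num
    simp only [e]
    rw [← Finset.mul_sum, ← Finset.sum_fiberwise_of_maps_to (g := fun v : V => (v.1 % 2, v.2 % 2))
      (t := {0, 1} ×ˢ {0, 1}) (fun v _ => by simp; omega)]
    have := Finset.sum_le_card_nsmul ({0, 1} ×ˢ {0, 1} : Finset (ℤ × ℤ)) _ _ fun j _ => cls j
    simp only [Finset.card_product, nsmul_eq_mul] at this
    norm_num at this ⊢
    linarith

end Chart

end Pool.Agent.Lib.MP_6359c9_pr
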