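import Pool.Agent.Lib.MP_6359c9_pr.Bridge

/-! The exploration of the zero line: definitions. -/

namespace Pool.Agent.Lib.MP_6359c9_pr.Xp

open Set WD

/-- one step: the face on the left of `u → v` is crossed; the first vertex keeps its height -/
def stp (g : V → ℤ) (e : V × V) : V × V :=
  if g (thd e.1 e.2) = g e.1 then (thd e.1 e.2, e.2) else (e.1, thd e.1 e.2)

/-- a discrete domain in combinatorial form: faces `L` inside the cycle `c`, interior vertices
`R`, data `s` on `c 0, …, c (m - 1)` and `1 - s` on `c m, …, c (n - 1)`; the face on the left of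
`c 0 → c (n - 1)` is inside -/
structure St (s : ℤ) where
  R : Set V
  n : ℕ
  m : ℕ
  c : ℕ → V
  L : V → Prop
  hs : s = 0 ∨ s = 1
  D : FaceD R n c L
  face : ∀ p, L p → Face p
  m_pos : 0 < m
  m_lt : m < n
  ori : L (lf (c 0) (c (n - 1)))

/-- the midpoint of an edge -/
noncomputable def mid (d : ℝ) (e : V × V) : ℂ := pos (d / 2) (e.1 + e.2)

/-- the polygon through `x 0, …, x N`, at `x k` at time `k`, constant off `[0, N]` -/
noncomputable def pl (N : ℕ) (x : ℕ → ℂ) (t : ℝ) : ℂ :=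
  x 0 + ∑ k ∈ Finset.range N, (max 0 (min 1 (t - k)) : ℝ) • (x (k + 1) - x k)

namespace St

variable {s : ℤ} (S : St s)

/-- Lipschitz functions with the data of `S` on the cycle -/
def Adm (g : V → ℤ) : Prop :=
  Lp g ∧ (∀ i < S.m, g (S.c i) = s) ∧ ∀ i, S.m ≤ i → i < S.n → g (S.c i) = 1 - s

open Classical in
/-- two valued data -/
noncomputable def xi (v : V) : ℤ := if ∃ i < S.m, S.c i = v then s else 1 - s

/-- the edge after `k` steps -/
def e (g : V → ℤ) (k : ℕ) : V × V := (stp g)^[k] (S.c 0, S.c (S.n - 1))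

/-- the face ahead after `k` steps -/
def ah (g : V → ℤ) (k : ℕ) : V := lf (S.e g k).1 (S.e g k).2

/-- the vertex that is read to make step `k + 1` -/
def nw (g : V → ℤ) (k : ℕ) : V := thd (S.e g k).1 (S.e g k).2

/-- the number of steps inside the domain -/
noncomputable def K (g : V → ℤ) : ℕ := sInf {k | ¬S.L (S.ah g k)}

/-- the history up to step `k` -/
def hist (k : ℕ) (g : V → ℤ) : ℕ → V × V := fun j => S.e g (min j k)

/-- the vertices read in the first `k` steps -/
def Rev (g : V → ℤ) (k : ℕ) : Set V := {v | ∃ j < k, S.nw g j = v}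

/-- `S'` is the domain that remains to be explored after `k` steps -/
structure After (g : V → ℤ) (k : ℕ) (S' : St s) : Prop where
  cur : S.e g k = (S'.c 0, S'.c (S'.n - 1))
  adm : S'.Adm g
  sub : ∀ p, S'.L p → S.L p
  old : ∀ j < k, S.L (S.ah g j) ∧ ¬S'.L (S.ah g j)
  bd : ∀ u v, Adj u v → S'.L (lf u v) → S.L (lf v u) → S'.L (lf v u) ∨ ∃ j < k, S.ah g j = lf v u
  wall : ∀ i, (∃ j, S.c j = S'.c i) ∨ S'.c i ∈ S.Rev g k
  fin : S'.c (S'.m - 1) = S.c (S.m - 1) ∧ S'.c S'.m = S.c S.m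

/-- the union of the closed triangles of the domain -/
def Cl (d : ℝ) : Set ℂ := {z | ∃ p, S.L p ∧ z ∈ Tg d p}

/-- the union of the closed triangles crossed in the first `k` steps -/
def Xd (d : ℝ) (g : V → ℤ) (k : ℕ) : Set ℂ := {z | ∃ j < k, z ∈ Tg d (S.ah g j)}

/-- the interface, at the midpoint of the edge `e k` at time `k` -/
noncomputable def Gam (d : ℝ) (g : V → ℤ) : ℝ → ℂ := pl (S.K g) fun k => mid d (S.e g k)

/-- `S` is the combinatorial form of `Q`; the cycle is reversed when `s = 0` -/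
structure Of {d : ℝ} (Q : Dom d) : Prop where
  R : S.R = Q.R
  n : S.n = Q.n
  L : ∀ p, S.L p ↔ Face p ∧ pos (d / 3) p ∈ Q.D
  c : (s = 1 ∧ S.m = Q.m ∧ ∀ i < Q.n, S.c i = Q.c i) ∨
    (s = 0 ∧ S.m = Q.n - Q.m ∧ ∀ i < Q.n, S.c i = Q.c (Q.n - 1 - i))

end St

end Pool.Agent.Lib.MP_6359c9_pr.Xp
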