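import Pool.Agent.Lib.MP_6359c9_pr.GeC
import Pool.Agent.Lib.MP_6359c9_pr.Bm5A

/-! Tightness of curves, uniqueness of the law of SLE4, and passage to the limit. -/

namespace Pool.Agent.Lib.MP_6359c9_pr.Ge

open Set Filter Topology Metric MeasureTheory ProbabilityTheory TopologicalSpace Bm
open scoped NNReal ENNReal

/-- the Riemann sphere is a round sphere -/
noncomputable def sph : OnePoint ℂ ≃ₜ sphere (0 : EuclideanSpace ℝ (Fin 3)) 1 :=
  onePointEquivSphereOfFinrankEq (by simp)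

instance : MetrizableSpace (OnePoint ℂ) := sph.isEmbedding.metrizableSpace

instance : SecondCountableTopology (OnePoint ℂ) := sph.isEmbedding.secondCountableTopology

instance : BorelSpace Crv := ⟨rfl⟩

instance : PolishSpace Crv := by
  letI := metrizableSpaceMetric (OnePoint ℂ)
  infer_instance

instance : PolishSpace Pth := inferInstance

/-- small oscillation on `[0, j]` at scale `θ` -/
def Md (j : ℕ) (θ : ℝ) : Set Crv := {γ | ∀ u v : ℝ≥0, u ≤ j → v ≤ j → dist u v ≤ θ →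
  ∃ a b : ℂ, γ u = a ∧ γ v = b ∧ ‖a - b‖ ≤ 1 / (j + 1)}

/-- outside the ball of radius `j` after time `T` -/
def Tr (j : ℕ) (T : ℝ≥0) : Set Crv :=
  {γ | ∀ t : ℝ≥0∞, (T : ℝ≥0∞) ≤ t → ∀ a : ℂ, γ t = a → (j : ℝ) ≤ ‖a‖}

theorem cpt_crv {θ : ℕ → ℝ} (hθ : ∀ j, 0 < θ j) (T : ℕ → ℝ≥0) :
    IsCompact (closure (⋂ j, Md j (θ j) ∩ Tr j (T j))) := by
  letI := metrizableSpaceMetric (OnePoint ℂ)
  set A := ⋂ j, Md j (θ j) ∩ Tr j (T j) with hA
  let e := (ContinuousMap.isometryEquivBoundedOfCompact ℝ≥0∞ (OnePoint ℂ)).toHomeomorph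
  have uc : UniformContinuous ((↑) : ℂ → OnePoint ℂ) :=
    OnePoint.continuous_coe.uniformContinuous_of_tendsto_cocompact
      (by simpa only [coclosedCompact_eq_cocompact] using OnePoint.tendsto_coe_infty (X := ℂ))
  have := BoundedContinuousFunction.arzela_ascoli univ isCompact_univ (e '' A)
    (fun _ _ _ => mem_univ _) fun x => Metric.equicontinuousAt_iff_right.2 fun ε hε => by
      suffices h : ∀ᶠ y in 𝓝 x, ∀ γ ∈ A, dist (γ x) (γ y) < ε by
        filter_upwards [h] with y hy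
        rintro ⟨_, γ, hγ, rfl⟩
        exact hy γ hγ
      induction x using ENNReal.recTopCoe with
      | top =>
        obtain ⟨K, ⟨-, hK⟩, hs⟩ := OnePoint.hasBasis_nhds_infty.mem_iff.1
          (ball_mem_nhds (OnePoint.infty : OnePoint ℂ) (half_pos hε))
        obtain ⟨C, hC⟩ := hK.isBounded.exists_norm_le
        obtain ⟨j, hj⟩ := exists_nat_gt C
        have key : ∀ γ ∈ A, ∀ t, (T j : ℝ≥0∞) ≤ t → γ t ∈ ball OnePoint.infty (ε / 2) := by
          intro γ hγ t ht
          refine hs ?_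
          have := (mem_iInter.1 hγ j).2 t ht
          induction h : γ t using OnePoint.rec with
          | infty => exact Or.inr rfl
          | coe a => exact Or.inl ⟨a, fun ha => by linarith [hC a ha, this a h], rfl⟩
        filter_upwards [Ici_mem_nhds (ENNReal.coe_lt_top (r := T j))] with y hy γ hγ
        linarith [dist_triangle_right (γ ⊤) (γ y) OnePoint.infty, mem_ball.1 (key γ hγ ⊤ le_top),
          mem_ball.1 (key γ hγ y hy)]
      | coe t =>
        obtain ⟨δ, hδ, H⟩ := Metric.uniformContinuous_iff.1 uc ε hε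
        obtain ⟨j, j1, j2⟩ := ((tendsto_one_div_add_atTop_nhds_zero_nat.eventually_lt_const hδ).and
          (tendsto_natCast_atTop_atTop.eventually_gt_atTop t)).exists
        rw [ENNReal.nhds_coe, eventually_map]
        filter_upwards [Iic_mem_nhds j2, closedBall_mem_nhds t (hθ j)] with y y1 y2 γ hγ
        obtain ⟨a, b, ea, eb, h⟩ := (mem_iInter.1 hγ j).1 t y j2.le y1 (mem_closedBall'.1 y2)
        rw [ea, eb]
        exact H (by rw [dist_eq_norm]; exact h.trans_lt j1)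
  rw [← e.image_closure] at this
  exact e.isCompact_image.1 this

section

variable {α : ℕ → Type} {S : ∀ n, Set (α n)}

/-- the probability of an event under the uniform law -/
noncomputable abbrev pr {α : Type} (S E : Set α) : ℝ := mean S (E.indicator 1)

theorem pr_mono {α : Type} {S E E' : Set α} (hS : S.Finite) (h : ∀ x ∈ S, x ∈ E → x ∈ E') :
    pr S E ≤ pr S E' :=
  End.mean_mono hS fun x hx => by
    by_cases h1 : x ∈ E
    · simp [h1, h x hx h1]
    · rw [indicator_of_notMem h1]; exact indicator_nonneg (fun _ _ => zero_le_one) x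

/-- a bound for all large `n` becomes a bound for all `n` -/
theorem upgrade (hS : ∀ n, (S n).Finite ∧ (S n).Nonempty) {ι : Type} {l : Filter ι} [l.NeBot]
    (E : ∀ n, ι → Set (α n)) {ε : ℝ} (hε : 0 ≤ ε) (h1 : ∀ n, ∀ x ∈ S n, ∀ᶠ i in l, x ∉ E n i)
    {F : ∀ n, Set (α n)} (h2 : ∀ᶠ i in l, ∀ n, ∀ x ∈ S n, x ∈ E n i → x ∈ F n)
    (h3 : ∀ᶠ n in atTop, pr (S n) (F n) ≤ ε) : ∀ᶠ i in l, ∀ n, pr (S n) (E n i) ≤ ε := by
  obtain ⟨N, hN⟩ := eventually_atTop.1 h3
  have : ∀ᶠ i in l, ∀ n ∈ Iio N, ∀ x ∈ S n, x ∉ E n i :=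
    (eventually_all_finite (finite_Iio N)).2 fun n _ => (eventually_all_finite (hS n).1).2 (h1 n)
  filter_upwards [this, h2] with i a b n
  rcases lt_or_ge n N with h | h
  · refine (pr_mono (E' := ∅) (hS n).1 fun x hx hx' => a n h x hx hx').trans ?_
    simpa [pr, mean] using hε
  · exact (pr_mono (hS n).1 (b n)).trans (hN n h)

/-- modulus of continuity of the curves on bounded time intervals -/
def ModC (S : ∀ n, Set (α n)) (b : ∀ n, α n → ℝ≥0 → ℂ) : Prop :=
  ∀ (T : ℝ≥0) (ε : ℝ), 0 < ε → ∃ θ > (0 : ℝ), ∀ᶠ n in atTop,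
    pr (S n) {x | ∃ u ≤ T, ∃ v ≤ T, dist u v ≤ θ ∧ ε < ‖b n x u - b n x v‖} ≤ ε

/-- uniform transience of the curves -/
def TraC (S : ∀ n, Set (α n)) (b : ∀ n, α n → ℝ≥0 → ℂ) : Prop :=
  ∀ R ε : ℝ, 0 < ε → ∃ T : ℝ≥0, ∀ᶠ n in atTop, pr (S n) {x | ∃ t, T ≤ t ∧ ‖b n x t‖ < R} ≤ ε

variable {γ : ∀ n, α n → Crv} {b : ∀ n, α n → ℝ≥0 → ℂ}

theorem tight_crv (hS : ∀ n, (S n).Finite ∧ (S n).Nonempty)
    (hb : ∀ n, ∀ x ∈ S n, ∀ t : ℝ≥0, γ n x t = b n x t)
    (ht : ∀ n, ∀ x ∈ S n, γ n x ⊤ = OnePoint.infty) (hm : ModC S b) (hr : TraC S b) :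
    IsTightMeasureSet (range fun n => ulaw (hS n).1 (γ n)) := by
  refine isTightMeasureSet_iff_exists_isCompact_measure_compl_le.2 fun ε hε => ?_
  obtain ⟨η, η0, hη⟩ := ENNReal.exists_pos_sum_of_countable hε.ne' ℕ
  have c1 : ∀ j : ℕ, ∃ θ > (0 : ℝ), ∀ n, pr (S n) {x | γ n x ∈ (Md j θ)ᶜ} ≤ η j / 2 := by
    intro j
    have h0 : (0 : ℝ) < η j := η0 j
    obtain ⟨θ, θ0, H⟩ := hm j (min (1 / (j + 1)) (η j / 2)) (by positivity)
    have key : ∀ n, ∀ x ∈ S n, ∀ i : ℝ, γ n x ∈ (Md j i)ᶜ → ∃ u ≤ (j : ℝ≥0), ∃ v ≤ (j : ℝ≥0),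
        dist u v ≤ i ∧ 1 / (j + 1 : ℝ) < ‖b n x u - b n x v‖ := fun n x hx i h => by
      by_contra! hc
      exact h fun u v hu hv huv => ⟨_, _, hb n x hx u, hb n x hx v, hc u hu v hv huv⟩
    have := upgrade hS (l := 𝓝[>] (0 : ℝ)) (fun n i => {x | γ n x ∈ (Md j i)ᶜ}) (half_pos h0).le
      (fun n x hx => by
        have hc : Continuous (b n x) := by
          rw [OnePoint.isOpenEmbedding_coe.isInducing.continuous_iff]
          exact ((γ n x).continuous.comp ENNReal.continuous_coe).congr fun t => hb n x hx t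
        obtain ⟨δ, δ0, hδ⟩ := Metric.uniformContinuousOn_iff_le.1
          ((isCompact_Icc (a := 0) (b := (j : ℝ≥0))).uniformContinuousOn_of_continuous
            hc.continuousOn) (1 / (j + 1)) (by positivity)
        filter_upwards [Ioo_mem_nhdsGT δ0] with i hi h
        obtain ⟨u, hu, v, hv, h1, h2⟩ := key n x hx i h
        exact h2.not_ge (by
          simpa only [dist_eq_norm] using hδ u ⟨zero_le, hu⟩ v ⟨zero_le, hv⟩ (h1.trans hi.2.le)))
      (by
        filter_upwards [Ioo_mem_nhdsGT θ0] with i hi n x hx h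
        obtain ⟨u, hu, v, hv, h1, h2⟩ := key n x hx i h
        exact ⟨u, hu, v, hv, h1.trans hi.2.le, (min_le_left _ _).trans_lt h2⟩)
      (H.mono fun n h => h.trans (min_le_right _ _))
    obtain ⟨i, h1, h2⟩ := (this.and self_mem_nhdsWithin).exists
    exact ⟨i, h2, h1⟩
  have c2 : ∀ j : ℕ, ∃ T : ℝ≥0, ∀ n, pr (S n) {x | γ n x ∈ (Tr j T)ᶜ} ≤ η j / 2 := by
    intro j
    have h0 : (0 : ℝ) < η j := η0 j
    obtain ⟨T, H⟩ := hr j (η j / 2) (half_pos h0)
    have key : ∀ n, ∀ x ∈ S n, ∀ i : ℝ≥0, γ n x ∈ (Tr j i)ᶜ → ∃ t, i ≤ t ∧ ‖b n x t‖ < j :=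
      fun n x hx i h => by
      by_contra! hc
      refine h fun t hi a ha => ?_
      induction t using ENNReal.recTopCoe with
      | top => exact absurd ((ht n x hx).symm.trans ha) (OnePoint.infty_ne_coe a)
      | coe t =>
        rw [hb n x hx, OnePoint.coe_eq_coe] at ha
        exact ha ▸ hc t (by exact_mod_cast hi)
    exact (upgrade hS (l := atTop) (fun n i => {x | γ n x ∈ (Tr j i)ᶜ}) (half_pos h0).le
      (fun n x hx => by
        have h1 : Tendsto (fun t : ℝ≥0 => γ n x t) atTop (𝓝 OnePoint.infty) :=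
          ht n x hx ▸ ((γ n x).continuous.tendsto ⊤).comp
            (ENNReal.tendsto_coe_nhds_top.2 tendsto_id)
        obtain ⟨N, hN⟩ := eventually_atTop.1 (h1 (OnePoint.hasBasis_nhds_infty.mem_of_mem
          (i := closedBall 0 j) ⟨isClosed_closedBall, isCompact_closedBall _ _⟩))
        filter_upwards [eventually_ge_atTop N] with i hi h
        obtain ⟨t, h1, h2⟩ := key n x hx i h
        have := hN t (hi.trans h1)
        simp [hb n x hx] at this
        exact h2.not_gt this)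
      (by
        filter_upwards [eventually_ge_atTop T] with i hi n x hx h
        obtain ⟨t, h1, h2⟩ := key n x hx i h
        exact ⟨t, hi.trans h1, h2⟩) H).exists
  choose θ θ0 hθ using c1
  choose T hT using c2
  refine ⟨_, cpt_crv θ0 T, ?_⟩
  rintro _ ⟨n, rfl⟩
  refine (measure_mono (compl_subset_compl.2 subset_closure)).trans ?_
  rw [compl_iInter]
  refine (measure_iUnion_le _).trans ((ENNReal.tsum_le_tsum fun j => ?_).trans hη.le)
  rw [compl_inter]
  refine (measure_union_le _ _).trans ?_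
  rw [ulaw_apply, ulaw_apply]
  refine (add_le_add (ENNReal.ofReal_le_ofReal (hθ j n)) (ENNReal.ofReal_le_ofReal (hT j n))).trans ?_
  rw [← ENNReal.ofReal_add (by positivity) (by positivity)]
  simp

end

/-- a law carried by `Gen` is determined by the law of the driving function -/
theorem law_unique {μ μ' : Measure (Crv × Pth)} (h : ∀ᵐ p ∂μ, Gen p.1 p.2)
    (h' : ∀ᵐ p ∂μ', Gen p.1 p.2) (e : μ.snd = μ'.snd) : μ = μ' := by
  have key : ∀ {μ : Measure (Crv × Pth)}, (∀ᵐ p ∂μ, Gen p.1 p.2) → ∀ A, MeasurableSet A →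
      μ A = μ.snd (Prod.snd '' (A ∩ {p | Gen p.1 p.2})) := by
    intro μ h A hA
    have inj : InjOn Prod.snd {p : Crv × Pth | Gen p.1 p.2} := fun p hp q hq e =>
      Prod.ext (gen_inj q.2.continuous (e ▸ hp) hq) e
    rw [Measure.snd_apply ((hA.inter isClosed_gen.measurableSet).image_of_continuousOn_injOn
      continuous_snd.continuousOn (inj.mono inter_subset_right))]
    refine measure_congr ?_
    filter_upwards [h] with p hp
    exact propext ⟨fun a => ⟨p, ⟨a, hp⟩, rfl⟩, fun ⟨q, hq, e⟩ => inj hq.2 hp e ▸ hq.1⟩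
  ext A hA
  rw [key h A hA, key h' A hA, e]

/-- passage to the limit, for the pair of the curve and the driving function -/
theorem endgame {α : ℕ → Type} {S : ∀ n, Set (α n)} (hS : ∀ n, (S n).Finite ∧ (S n).Nonempty)
    {γ : ∀ n, α n → Crv} {W : ∀ n, α n → Pth} (hg : ∀ n, ∀ x ∈ S n, Gen (γ n x) (W n x))
    (ht : IsTightMeasureSet (range fun n => ulaw (hS n).1 (γ n))) {ν : ProbabilityMeasure Pth}
    (hW : Tendsto (fun n => plaw (hS n) (W n)) atTop (𝓝 ν)) :
    ∃ μ : ProbabilityMeasure (Crv × Pth), (μ : Measure (Crv × Pth)).snd = ν ∧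
      (∀ᵐ p ∂(μ : Measure (Crv × Pth)), Gen p.1 p.2) ∧
      Tendsto (fun n => plaw (hS n) fun x => (γ n x, W n x)) atTop (𝓝 μ) := by
  set P := fun n => plaw (hS n) fun x => (γ n x, W n x) with hP
  have f0 : ∀ n, (P n : Measure (Crv × Pth)) = ulaw (hS n).1 fun x => (γ n x, W n x) :=
    fun n => rfl
  have f1 : ∀ n, (P n : Measure (Crv × Pth)).fst = ulaw (hS n).1 (γ n) := fun n => by
    rw [f0, Measure.fst, ulaw_map _ _ measurable_fst]
  have f2 : ∀ n, (P n : Measure (Crv × Pth)).snd = (plaw (hS n) (W n) : Measure Pth) := fun n => by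
    rw [f0, Measure.snd, ulaw_map _ _ measurable_snd]; rfl
  clear_value P
  have hc : IsCompact (closure (range P)) := by
    refine isCompact_closure_of_isTightMeasureSet (IsTightMeasureSet.prodMk (ht.subset ?_) ?_)
    · rintro _ ⟨_, ⟨_, ⟨n, rfl⟩, rfl⟩, rfl⟩
      exact ⟨n, (f1 n).symm⟩
    · letI := upgradeIsCompletelyMetrizable Pth
      refine (isTightMeasureSet_of_isCompact_closure (S := insert ν (range fun n => plaw (hS n) (W n)))
        (by rw [hW.isCompact_insert_range.isClosed.closure_eq]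
            exact hW.isCompact_insert_range)).subset ?_
      rintro _ ⟨_, ⟨_, ⟨n, rfl⟩, rfl⟩, rfl⟩
      exact ⟨_, Or.inr ⟨n, rfl⟩, (f2 n).symm⟩
  have cl : ∀ μ, MapClusterPt μ atTop P → (μ : Measure (Crv × Pth)).snd = ν ∧
      ∀ᵐ p ∂(μ : Measure (Crv × Pth)), Gen p.1 p.2 := by
    intro μ hμ
    obtain ⟨U, hU, hl⟩ := mapClusterPt_iff_ultrafilter.1 hμ
    constructor
    · have h1 := ProbabilityMeasure.tendsto_map_of_tendsto_of_continuous _ _ hl continuous_snd
      have h2 : ∀ n, (P n).map continuous_snd.measurable.aemeasurable = plaw (hS n) (W n) :=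
        fun n => Subtype.ext (f2 n)
      simp only [h2] at h1
      have h3 := tendsto_nhds_unique h1 (hW.mono_left hU)
      exact congrArg Subtype.val h3
    · have h1 := ProbabilityMeasure.le_liminf_measure_open_of_tendsto hl isClosed_gen.isOpen_compl
      have h2 : ∀ n, (P n : Measure (Crv × Pth)) {p | Gen p.1 p.2}ᶜ = 0 := fun n => by
        rw [f0, ulaw_apply, ENNReal.ofReal_eq_zero]
        refine le_trans (pr_mono (E' := ∅) (hS n).1 fun x hx h => h (hg n x hx)) ?_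
        simp [pr, mean]
      simp only [h2, liminf_const] at h1
      exact le_zero_iff.1 h1
  have hm : ∀ᶠ n in atTop, P n ∈ closure (range P) :=
    Eventually.of_forall fun n => subset_closure ⟨n, rfl⟩
  obtain ⟨μ, -, hμ⟩ := hc.exists_mapClusterPt (le_principal_iff.2 (mem_map.2 hm))
  refine ⟨μ, (cl μ hμ).1, (cl μ hμ).2, hc.tendsto_nhds_of_unique_mapClusterPt hm fun μ' _ h' => ?_⟩
  exact Subtype.ext (law_unique (cl μ' h').2 (cl μ hμ).2 ((cl μ' h').1.trans (cl μ hμ).1.symm))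

/-- convergence to SLE4 from convergence of the driving functions and tightness -/
theorem sle_end {α : ℕ → Type} {S : ∀ n, Set (α n)} (hS : ∀ n, (S n).Finite ∧ (S n).Nonempty)
    {γ : ∀ n, α n → Crv} {b : ∀ n, α n → ℝ≥0 → ℂ} {W : ∀ n, α n → Pth}
    (hb : ∀ n, ∀ x ∈ S n, ∀ t : ℝ≥0, γ n x t = b n x t)
    (ht : ∀ n, ∀ x ∈ S n, γ n x ⊤ = OnePoint.infty)
    (hg : ∀ n, ∀ x ∈ S n, Gen (γ n x) (W n x)) (hm : ModC S b) (hr : TraC S b)
    {ν : Measure Pth} (hν : IsW ν) (hW : ∀ F : BoundedContinuousFunction Pth ℝ,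
      Tendsto (fun n => mean (S n) fun x => F (W n x)) atTop (𝓝 (∫ w, F w ∂ν))) :
    ∃ μ : Measure Crv, IsProbabilityMeasure μ ∧ IsSLE4 μ ∧
      ∀ F : BoundedContinuousFunction Crv ℝ,
        Tendsto (fun n => mean (S n) fun x => F (γ n x)) atTop (𝓝 (∫ c, F c ∂μ)) := by
  obtain ⟨μ, h1, h2, h3⟩ := endgame hS hg (tight_crv hS hb ht hm hr) (ν := ⟨ν, hν.prob⟩)
    ((tendsto_plaw hS W).2 hW)
  refine ⟨(μ : Measure (Crv × Pth)).fst, inferInstance,
    ⟨Crv × Pth, inferInstance, μ, Prod.fst, fun t p => p.2 t / 2,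
      IsW.pull measurable_snd (by rw [← Measure.snd, h1]; exact hν),
      ⟨measurable_fst.aemeasurable, rfl⟩, h2.mono fun p hp => ?_⟩, fun F => ?_⟩
  · simpa only [mul_div_cancel₀ _ (two_ne_zero (α := ℝ))] using hp
  · rw [Measure.fst, integral_map measurable_fst.aemeasurable F.continuous.aestronglyMeasurable]
    exact (tendsto_plaw hS _).1 h3 (F.compContinuous ⟨Prod.fst, continuous_fst⟩)

theorem sle_lift {μ : Measure Crv} (h : IsSLE4 μ) :
    ∃ m : Measure (Crv × Pth), m.fst = μ ∧ IsW m.snd ∧ ∀ᵐ p ∂m, Gen p.1 p.2 := by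
  classical
  obtain ⟨Ω, _, P, γ, B, hB, hγ, hg⟩ := h
  let V : Ω → Pth := fun ω =>
    if h : Continuous (B · ω) then ⟨fun t => 2 * B t ω, continuous_const.mul h⟩ else 0
  have e : ∀ᵐ ω ∂P, ∀ t, V ω t = 2 * B t ω := hB.cont.mono fun ω h t => by simp [V, h]
  obtain ⟨d, hd⟩ := exists_dense_seq ℝ≥0
  have emb : MeasurableEmbedding fun (w : Pth) (k : ℕ) => w (d k) :=
    Continuous.measurableEmbedding (continuous_pi fun k => continuous_eval_const (d k))
      fun w w' hw => DFunLike.coe_injective (hd.equalizer w.continuous w'.continuous hw)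
  have mV : AEMeasurable V P := by
    refine emb.aemeasurable_comp_iff.1 (AEMeasurable.congr (f := fun ω k => 2 * B (d k) ω)
      (aemeasurable_pi_lambda _ fun k =>
        (hB.toIsPreBrownianReal.aemeasurable (d k)).const_mul 2) ?_)
    filter_upwards [e] with ω h using funext fun k => (h _).symm
  have mp := hγ.aemeasurable.prodMk mV
  refine ⟨P.map fun ω => (γ ω, V ω), ?_, ?_, ?_⟩
  · rw [Measure.fst_map_prodMk₀ mV, hγ.map_eq]
  · rw [Measure.snd_map_prodMk₀ hγ.aemeasurable]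
    exact IsW.of_hasLaw hB ⟨mV, rfl⟩ fun t => e.mono fun ω h => h t
  · refine (ae_map_iff mp isClosed_gen.measurableSet).2 ?_
    filter_upwards [e, hg] with ω h1 h2
    rwa [← funext h1] at h2

/-- the law of SLE4 is unique -/
theorem sle_unique {μ μ' : Measure Crv} (h : IsSLE4 μ) (h' : IsSLE4 μ') : μ = μ' := by
  obtain ⟨m, rfl, h1, h2⟩ := sle_lift h
  obtain ⟨m', rfl, h1', h2'⟩ := sle_lift h'
  rw [law_unique h2 h2' (h1.uniq h1')]

end Pool.Agent.Lib.MP_6359c9_pr.Ge
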