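import Pool.Agent.Lib.MP_6359c9_pr.LwF

/-! Flow property, scaling, parametrisation by capacity, continuity at the tip. -/

namespace Pool.Agent.Lib.MP_6359c9_pr

open Set Filter Topology Bornology Metric Complex Pool.Agent.Lib.MP_1e9af3_an Lw
open scoped NNReal ENNReal

noncomputable section

variable {b : ℝ≥0 → ℂ} {s t u T : ℝ≥0} {z : ℂ}

lemma Smp.of_hyd (h : Smp b) {g : ℂ → ℂ} {a : ℝ} (H : Hyd (Sl b t) g a) :
    cap b t = a ∧ EqOn (gm b t) g (Sl b t) := (h.hyd t).uniq H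

lemma Smp.drv_eq (h : Smp b) {g : ℂ → ℂ} {a : ℝ} (H : Hyd (Sl b t) g a) {w : ℂ}
    (hw : Tendsto (fun u => g (b u)) (𝓝[>] t) (𝓝 w)) : (drv b t : ℂ) = w :=
  tendsto_nhds_unique_of_eventuallyEq (h.tendsto_drv t) hw
    (eventually_mem_nhdsWithin.mono fun _ hu => (h.of_hyd H).2 (h.mem_sl hu))

/-! ### the curve after time `s` -/

/-- the image of the curve after time `s` -/
def shf (b : ℝ≥0 → ℂ) (s u : ℝ≥0) : ℂ := if u = 0 then drv b s else gm b s (b (s + u))

lemma shf_zero : shf b s 0 = drv b s := if_pos rfl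

lemma shf_pos (hu : 0 < u) : shf b s u = gm b s (b (s + u)) := if_neg hu.ne'

lemma Lw.tendsto_add_gt (s t : ℝ≥0) : Tendsto (fun u => s + u) (𝓝[>] t) (𝓝[>] (s + t)) :=
  tendsto_nhdsWithin_iff.2 ⟨((continuous_const_add s).tendsto t).mono_left nhdsWithin_le_nhds,
    eventually_mem_nhdsWithin.mono fun _ hu => add_lt_add_right hu s⟩

theorem Smp.shf (h : Smp b) (s : ℝ≥0) : Smp (shf b s) := by
  have m : ∀ u, 0 < u → b (s + u) ∈ Sl b s := fun u hu => h.mem_sl (lt_add_of_pos_right s hu)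
  have up : ∀ u, 0 < u → MP_6359c9_pr.shf b s u ∈ UH := fun u hu =>
    shf_pos hu ▸ (h.hyd s).maps (m u hu)
  refine ⟨continuous_iff_continuousAt.2 fun u => ?_, fun u v e => ?_, by simp [shf_zero], up⟩
  · rcases (zero_le (a := u)).eq_or_lt with rfl | hu
    · rw [← continuousWithinAt_univ, ← Ici_bot, bot_eq_zero, ← continuousWithinAt_Ioi_iff_Ici]
      have := (h.tendsto_drv (s + 0)).comp (tendsto_add_gt s 0)
      rw [add_zero, ← shf_zero] at this
      exact this.congr' (eventually_mem_nhdsWithin.mono fun v hv => (shf_pos hv).symm)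
    · refine (((h.cont_gm s).continuousAt (Ioi_mem_nhds (lt_add_of_pos_right s hu))).comp
        (continuous_const_add s).continuousAt).congr ?_
      filter_upwards [Ioi_mem_nhds hu] with v hv using (shf_pos hv).symm
  · rcases (zero_le (a := u)).eq_or_lt with rfl | hu <;>
      rcases (zero_le (a := v)).eq_or_lt with rfl | hv
    · rfl
    · simpa [← e, shf_zero, mem_UH] using up v hv
    · simpa [e, shf_zero, mem_UH] using up u hu
    · rw [shf_pos hu, shf_pos hv] at e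
      exact add_left_cancel (h.inj ((h.hyd s).bij.injOn (m u hu) (m v hv) e))

lemma Smp.sl_shf (h : Smp b) (s t : ℝ≥0) : Sl (MP_6359c9_pr.shf b s) t = gm b s '' Sl b (s + t) := by
  have e := h.hull (le_self_add : s ≤ s + t)
  have hs := (h.quot (le_self_add : s ≤ s + t)).sub
  rw [← sdiff_sdiff_cancel_left hs, e]
  ext w
  refine and_congr_right fun hw => not_congr ⟨?_, ?_⟩
  · rintro ⟨u, hu, rfl⟩
    rcases (zero_le (a := u)).eq_or_lt with rfl | h0
    · simp [shf_zero, mem_UH] at hw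
    · exact ⟨s + u, ⟨lt_add_of_pos_right s h0, add_le_add_right hu s⟩, (shf_pos h0).symm⟩
  · rintro ⟨u, hu, rfl⟩
    exact ⟨u - s, tsub_le_iff_left.2 hu.2, by
      rw [shf_pos (tsub_pos_of_lt hu.1), add_tsub_cancel_of_le hu.1.le]⟩

lemma Smp.hyd_shf (h : Smp b) (s t : ℝ≥0) : Hyd (Sl (MP_6359c9_pr.shf b s) t)
    (gm b (s + t) ∘ (h.hyd s).inv) (cap b (s + t) - cap b s) :=
  h.sl_shf s t ▸ h.quot le_self_add

lemma Smp.cap_shf (h : Smp b) (s t : ℝ≥0) :
    cap (MP_6359c9_pr.shf b s) t = cap b (s + t) - cap b s := ((h.shf s).of_hyd (h.hyd_shf s t)).1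

/-- the flow property -/
lemma Smp.gm_shf (h : Smp b) (hz : z ∈ Sl b (s + t)) :
    gm (MP_6359c9_pr.shf b s) t (gm b s z) = gm b (s + t) z := by
  rw [((h.shf s).of_hyd (h.hyd_shf s t)).2 (h.sl_shf s t ▸ mem_image_of_mem _ hz), Function.comp,
    (h.hyd s).inv_map (Sl_anti b le_self_add hz)]

lemma Smp.drv_shf (h : Smp b) (s t : ℝ≥0) : drv (MP_6359c9_pr.shf b s) t = drv b (s + t) :=
  ofReal_injective ((h.shf s).drv_eq (h.hyd_shf s t) (((h.tendsto_drv (s + t)).comp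
    (tendsto_add_gt s t)).congr' (eventually_mem_nhdsWithin.mono fun u hu => by
      have h0 : 0 < u := zero_le.trans_lt hu
      simp only [Function.comp, shf_pos h0,
        (h.hyd s).inv_map (h.mem_sl (lt_add_of_pos_right s h0))])))

lemma Smp.Cap_shf (h : Smp b) (hc : Cap b) (s : ℝ≥0) : Cap (MP_6359c9_pr.shf b s) :=
  (h.shf s).cap_iff.2 fun t => by
    rw [h.cap_shf, h.cap_iff.1 hc, h.cap_iff.1 hc]; push_cast; ring

lemma Smp.ok_shf (h : Smp b) (hz : Okp b (s + t) z) : Okp (MP_6359c9_pr.shf b s) t (ge b s z) := by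
  have h1 := hz.mono (le_self_add : s ≤ s + t)
  refine ⟨((h.hyd s).ext_im (h.ok_mir h1) hz.1).1, ?_⟩
  rintro ⟨u, hu, e⟩
  rcases (zero_le (a := u)).eq_or_lt with rfl | h0
  · exact h.ge_ne h1 (e ▸ shf_zero)
  · have h2 := h.mem_sl (lt_add_of_pos_right s h0)
    rw [shf_pos h0, ← h.ge_eq h2] at e
    exact hz.2 ⟨s + u, add_le_add_right hu s, (h.hyd s).ext_inj
      ⟨h.ok_mir (Okp.of_sl h2), (Okp.of_sl h2).1⟩ ⟨h.ok_mir h1, hz.1⟩ e⟩

lemma Smp.ge_shf (h : Smp b) (hz : Okp b (s + t) z) :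
    ge (MP_6359c9_pr.shf b s) t (ge b s z) = ge b (s + t) z := by
  have := mem_closure_iff_nhdsWithin_neBot.1 (closure_UH hz.1)
  have ev := (h.hyd _).ev_nhds (h.ok_mir hz)
  exact tendsto_nhds_unique_of_eventuallyEq (((h.shf s).tendsto_ge (h.ok_shf hz)).comp
    (tendsto_nhdsWithin_iff.2 ⟨h.tendsto_ge (hz.mono le_self_add),
      ev.mono fun v hv => (h.hyd s).maps (Sl_anti b le_self_add hv)⟩)) (h.tendsto_ge hz)
    (ev.mono fun v hv => h.gm_shf hv)

/-! ### translation and scaling -/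

section aff

variable (h : Smp b) (x : ℝ) {c : ℝ} (hc : 0 < c)
include h hc

theorem Smp.aff : Smp fun u => x + c * b u :=
  ⟨by have := h.cont; fun_prop, fun u v e => h.inj (mul_left_cancel₀ (ofReal_ne_zero.2 hc.ne')
    (add_left_cancel e)), by simp [h.zero], fun t ht => by
      simpa [mem_UH] using mul_pos hc (h.up t ht)⟩

omit h in
lemma Sl_aff (t : ℝ≥0) : Sl (fun u => x + c * b u) t = {z : ℂ | (z - x) / c ∈ Sl b t} := by
  have hc' : (c : ℂ) ≠ 0 := ofReal_ne_zero.2 hc.ne'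
  ext z
  refine and_congr (by simp [mem_UH, div_ofReal_im, hc]) (not_congr (exists_congr fun u =>
    and_congr_right fun _ => ?_))
  rw [eq_div_iff hc', eq_sub_iff_add_eq', mul_comm]

lemma Smp.hyd_aff (t : ℝ≥0) : Hyd (Sl (fun u => x + c * b u) t)
    (fun z => x + c * gm b t ((z - x) / c)) (c ^ 2 * cap b t) :=
  Sl_aff x hc t ▸ (h.hyd t).affine x hc

lemma Smp.cap_aff (t : ℝ≥0) : cap (fun u => x + c * b u) t = c ^ 2 * cap b t :=
  ((h.aff x hc).of_hyd (h.hyd_aff x hc t)).1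

lemma Smp.gm_aff (hz : z ∈ Sl b t) :
    gm (fun u => x + c * b u) t (x + c * z) = x + c * gm b t z := by
  have e : (x + c * z - x) / c = z := by
    rw [add_sub_cancel_left, mul_div_cancel_left₀ _ (ofReal_ne_zero.2 hc.ne')]
  rw [((h.aff x hc).of_hyd (h.hyd_aff x hc t)).2 (by rwa [Sl_aff x hc, mem_ofPred_eq, e])]
  simp only [e]

lemma Smp.drv_aff (t : ℝ≥0) : drv (fun u => x + c * b u) t = x + c * drv b t :=
  ofReal_injective ((h.aff x hc).drv_eq (h.hyd_aff x hc t) (by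
    simpa only [add_sub_cancel_left, mul_div_cancel_left₀ _ (ofReal_ne_zero.2 hc.ne'), ofReal_add,
      ofReal_mul] using ((h.tendsto_drv t).const_mul (c : ℂ)).const_add (x : ℂ)))

end aff

/-! ### change of time -/

lemma gc_congr {b' : ℝ≥0 → ℂ} (e : Sl b' s = Sl b t) : gc b' s = gc b t := by
  unfold gc
  generalize Sl b' s = U at e
  subst e
  rfl

section time

variable {τ : ℝ≥0 → ℝ≥0} (hτ : Continuous τ) (hm : StrictMono τ) (h0 : τ 0 = 0)
include hτ hm h0

theorem Smp.time (h : Smp b) : Smp (b ∘ τ) :=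
  ⟨h.cont.comp hτ, h.inj.comp hm.injective, by simp [h0, h.zero],
    fun t ht => h.up _ (h0 ▸ hm ht)⟩

lemma Lw.image_Iic (t : ℝ≥0) : τ '' Iic t = Iic (τ t) := by
  have := ContinuousOn.image_Icc_of_monotoneOn (zero_le (a := t)) hτ.continuousOn
    (hm.monotone.monotoneOn _)
  rwa [h0, ← bot_eq_zero, Icc_bot, Icc_bot] at this

lemma Sl_time (t : ℝ≥0) : Sl (b ∘ τ) t = Sl b (τ t) := by
  rw [Sl, image_comp, image_Iic hτ hm h0, Sl]

lemma gm_time (t : ℝ≥0) : gm (b ∘ τ) t = gm b (τ t) := by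
  rw [gm, gm, gc_congr (Sl_time hτ hm h0 t)]

lemma cap_time (t : ℝ≥0) : cap (b ∘ τ) t = cap b (τ t) := by
  rw [cap, cap, gc_congr (Sl_time hτ hm h0 t)]

lemma ge_time (t : ℝ≥0) : ge (b ∘ τ) t = ge b (τ t) := by
  simp only [ge, gm_time hτ hm h0, Sl_time hτ hm h0]

lemma Smp.drv_time (h : Smp b) (t : ℝ≥0) : drv (b ∘ τ) t = drv b (τ t) :=
  ofReal_injective ((h.time hτ hm h0).drv_eq (Sl_time hτ hm h0 t ▸ h.hyd (τ t))
    ((h.tendsto_drv (τ t)).comp (tendsto_nhdsWithin_iff.2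
      ⟨(hτ.tendsto t).mono_left nhdsWithin_le_nhds,
        eventually_mem_nhdsWithin.mono fun _ hu => hm hu⟩)))

end time

/-- parametrisation by capacity -/
theorem Smp.exists_cap (h : Smp b) (hb : ∀ M, ∃ t, M ≤ cap b t) :
    ∃ τ : ℝ≥0 ≃o ℝ≥0, Cap (b ∘ τ) := by
  have h0 : ∀ t, 0 ≤ cap b t / 2 := fun t => div_nonneg (h.hyd t).nonneg two_pos.le
  set c : ℝ≥0 → ℝ≥0 := fun t => (cap b t / 2).toNNReal with hc
  have e : ∀ t, (c t : ℝ) = cap b t / 2 := fun t => Real.coe_toNNReal _ (h0 t)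
  have m : StrictMono c := fun s t hs => by
    rw [← NNReal.coe_lt_coe, e, e]; linarith [h.cap_strictMono hs]
  have c0 : c 0 = 0 := by simp [hc, h.cap_zero]
  have cc : Continuous c := continuous_real_toNNReal.comp (h.cont_cap.div_const _)
  have su : Function.Surjective c := fun y => by
    obtain ⟨t, ht⟩ := hb (2 * y)
    obtain ⟨s, -, hs⟩ : y ∈ c '' Iic t := by
      rw [image_Iic cc m c0, mem_Iic, ← NNReal.coe_le_coe, e]; linarith
    exact ⟨s, hs⟩
  set σ := m.orderIsoOfSurjective c su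
  refine ⟨σ.symm, ((h.time σ.symm.continuous σ.symm.strictMono σ.symm.map_bot).cap_iff).2
    fun t => ?_⟩
  have := e (σ.symm t)
  rw [show c (σ.symm t) = t from σ.apply_symm_apply t] at this
  rw [cap_time σ.symm.continuous σ.symm.strictMono σ.symm.map_bot]; linarith

lemma Smp.cap_unbdd (h : Smp b) (hb : ∀ M, ∃ t, M ≤ (b t).im) (M : ℝ) : ∃ t, M ≤ cap b t := by
  obtain ⟨t, ht⟩ := hb (16 * |M| + 1)
  refine ⟨t, ?_⟩
  nlinarith [h.height (le_refl t), le_abs_self M, abs_nonneg M]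

/-- the parametrisation by capacity is unique -/
theorem Smp.cap_unique (h : Smp b) (hc : Cap b) (hi : IsInducing b) {b' : ℝ≥0 → ℂ} (h' : Smp b')
    (hc' : Cap b') (hr : range b' ⊆ range b) : b' = b := by
  choose σ hσ using fun t => hr (mem_range_self t)
  have e : b' = b ∘ σ := funext fun t => (hσ t).symm
  have σc : Continuous σ := hi.continuous_iff.2 (e ▸ h'.cont)
  have σ0 : σ 0 = 0 := by_contra fun c => by
    simpa [hσ, mem_UH, h'.zero] using h.up _ (pos_iff_ne_zero.2 c)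
  have σi : Function.Injective σ := Function.Injective.of_comp (f := b) (e ▸ h'.inj)
  have σm : StrictMono σ := (σc.strictMono_of_inj σi).resolve_right fun c => by
    simpa [σ0] using c (zero_lt_one' ℝ≥0)
  rw [e]
  funext t
  have := h'.cap_iff.1 hc' t
  rw [e, cap_time σc σm σ0, h.cap_iff.1 hc] at this
  rw [Function.comp, show σ t = t from NNReal.eq (by linarith)]

/-! ### the tip -/

lemma Smp.tip_conn (h : Smp b) (ht : 0 < t) {δ : ℝ} (hδ : 0 < δ) : ∃ δ' > 0, ∃ E, IsPreconnected E ∧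
    E ⊆ Sl b t ∩ ball (b t) δ ∧ Sl b t ∩ ball (b t) δ' ⊆ E := by
  obtain ⟨ρ, ρ0, hρ⟩ := Metric.isOpen_iff.1 (isOpen_UH.inter isOpen_ball) (b t)
    ⟨h.up t ht, mem_ball_self hδ⟩
  obtain ⟨l, hl, h0⟩ := (mem_nhdsLE_iff_exists_Ioc_subset' ht).1 (nhdsWithin_le_nhds
    (h.cont.continuousAt.preimage_mem_nhds (ball_mem_nhds (b t) ρ0)))
  obtain ⟨s, hls, hs⟩ := exists_between (mem_Iio.1 hl)
  have h1 := (Icc_subset_Ioc_left hls).trans h0
  obtain ⟨r, r0, hr⟩ := Metric.isOpen_iff.1 ((h.cpt s).isClosed.isOpen_compl.inter isOpen_ball) (b t)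
    ⟨fun ⟨_, hu, e⟩ => hs.not_ge (h.inj e ▸ hu), mem_ball_self ρ0⟩
  rcases (Sl b t ∩ ball (b t) r).eq_empty_or_nonempty with e | ⟨p, hp⟩
  · exact ⟨r, r0, ∅, isPreconnected_empty, empty_subset _, e.subset⟩
  have hA := isCompact_Icc.image h.cont (s := Icc s t)
  have hB : IsCompact (b '' Iic s ∪ sphere (b t) ρ) := (h.cpt s).union (isCompact_sphere _ _)
  have hn : ∀ q ∈ Sl b t, q ∉ b '' Icc s t := fun q hq c => hq.2 (image_mono Icc_subset_Iic_self c)
  have hb : ball (b t) r ⊆ (b '' Iic s ∪ sphere (b t) ρ)ᶜ := fun z hz c =>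
    c.elim (hr hz).1 fun c => (mem_ball.1 (hr hz).2).ne c
  have hs' := connectedComponentIn_subset (b '' Icc s t ∪ (b '' Iic s ∪ sphere (b t) ρ))ᶜ p
  have h2 : connectedComponentIn (b '' Icc s t ∪ (b '' Iic s ∪ sphere (b t) ρ))ᶜ p ⊆
      ball (b t) ρ :=
    isPreconnected_connectedComponentIn.subset_left_of_subset_union isOpen_ball
      (isClosed_closedBall (x := b t) (ε := ρ)).isOpen_compl
      (disjoint_compl_right.mono_left ball_subset_closedBall) (fun z hz =>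
        (lt_or_gt_of_ne fun c => hs' hz (Or.inr (Or.inr c))).imp id fun c c2 => c.not_ge c2)
      ⟨p, mem_connectedComponentIn fun c => c.elim (hn p hp.1) (hb hp.2), (hr hp.2).2⟩
  refine ⟨r, r0, _, isPreconnected_connectedComponentIn, fun z hz =>
    ⟨⟨(hρ (h2 hz)).1, ?_⟩, (hρ (h2 hz)).2⟩, fun q hq => MP_d32f96_gt.sJan_of _ _ p q hA hB
      (Subsingleton.isPreconnected (subsingleton_of_forall_eq (b s) ?_))
      (arc_cc h.cont h.inj.injOn (hn p hp.1) (hn q hq.1))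
      ((convex_ball _ _).isPreconnected.subset_connectedComponentIn hp.2 hb hq.2)⟩
  · rintro ⟨u, hu, rfl⟩
    rcases le_total u s with c | c
    · exact hs' hz (Or.inr (Or.inl ⟨u, c, rfl⟩))
    · exact hs' hz (Or.inl ⟨u, ⟨c, hu⟩, rfl⟩)
  · rintro _ ⟨⟨u, hu, rfl⟩, ⟨v, hv, e⟩ | c⟩
    · rw [le_antisymm (h.inj e ▸ hv) hu.1]
    · exact absurd c (mem_ball.1 (h1 hu)).ne

/-- the normalised map sends the tip to the driving function -/
theorem Smp.tip (h : Smp b) (t : ℝ≥0) :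
    Tendsto (gm b t) (𝓝[Sl b t] (b t)) (𝓝 (drv b t)) := by
  rcases (zero_le (a := t)).eq_or_lt with rfl | ht
  · rw [h.drv_zero, h.sl_zero]
    exact (tendsto_id.mono_left nhdsWithin_le_nhds).congr'
      (eventually_mem_nhdsWithin.mono fun _ hz => (h.gm_zero hz).symm)
  refine Metric.nhds_basis_closedBall.tendsto_right_iff.2 fun ε hε => ?_
  obtain ⟨r, hr⟩ := (h.cpt t).isBounded.subset_closedBall ((0 : ℝ) : ℂ)
  have r0 : 0 ≤ r := nonneg_of_mem_closedBall (hr ⟨t, mem_Iic.2 le_rfl, rfl⟩)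
  obtain ⟨δ, d0, d1, d2⟩ := exists_delta (ε := ε / 16) (M := 4 * (1 + 8 * r) ^ 2) (by positivity)
  obtain ⟨δ', d3, E, E1, E2, E3⟩ := h.tip_conn ht d0
  filter_upwards [self_mem_nhdsWithin, nhdsWithin_le_nhds (ball_mem_nhds _ d3)] with z h1 h2
  refine mem_closedBall_iff_norm.2 (le_of_tendsto ((h.tendsto_drv t).const_sub _).norm ?_)
  filter_upwards [self_mem_nhdsWithin, nhdsWithin_le_nhds
    (h.cont.continuousAt.preimage_mem_nhds (ball_mem_nhds _ d3))] with u h3 h4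
  have := (h.hyd t).wolff (Sl_hull.trans hr) r0 d0 d1 (by positivity) d2 E1
    (E2.trans (inter_subset_inter_right _ ball_subset_closedBall)) (E3 ⟨h1, h2⟩) (E3 ⟨h.mem_sl h3, h4⟩)
  linarith

end

end Pool.Agent.Lib.MP_6359c9_pr
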