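import Pool.Agent.Lib.MP_6359c9_pr.LwD

/-! Charts of Jordan domains with two marked boundary points. -/

namespace Pool.Agent.Lib.MP_6359c9_pr

open Set Filter Topology Bornology Metric Complex ComplexConjugate Pool.Agent.Lib.MP_1e9af3_an

/-- the closed upper half plane -/
def UC : Set ℂ := {z | 0 ≤ z.im}

/-- `Ψ` maps the half plane conformally onto `D`, extends to a homeomorphism of the closures,
`0 ↦ a` and `∞ ↦ b` -/
structure Chart (D : Set ℂ) (a b : ℂ) (Ψ : ℂ → ℂ) : Prop where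
  cont : ContinuousOn Ψ UC
  inj : InjOn Ψ UC
  hol : DifferentiableOn ℂ Ψ UH
  img : Ψ '' UH = D
  zero : Ψ 0 = a
  inf : Tendsto Ψ (cobounded ℂ ⊓ 𝓟 UC) (𝓝 b)
  ne : ∀ z ∈ UC, Ψ z ≠ b
  bd : frontier D = insert b (range fun x : ℝ => Ψ x)

/-- `φ` maps `D` conformally onto the half plane, `a ↦ 0` and `b ↦ ∞` -/
structure Phi (D : Set ℂ) (a b : ℂ) (φ : ℂ → ℂ) : Prop where
  hol : DifferentiableOn ℂ φ D
  bij : BijOn φ D UH
  zero : Tendsto φ (𝓝[D] a) (𝓝 0)
  inf : Tendsto φ (𝓝[D] b) (cobounded ℂ)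

namespace Un

open Lw

lemma UH_sub : UH ⊆ UC := fun _ h => le_of_lt (mem_UH.1 h)

lemma real_UC (x : ℝ) : (x : ℂ) ∈ UC := by simp [UC]

lemma zero_UC : (0 : ℂ) ∈ UC := by simp [UC]

lemma isClosed_UC : IsClosed UC := isClosed_le continuous_const continuous_im

lemma UC_cases {z : ℂ} (h : z ∈ UC) : z ∈ UH ∨ ∃ x : ℝ, z = x :=
  (show 0 ≤ z.im from h).lt_or_eq.imp id fun e => ⟨z.re, Complex.ext rfl (by simp [← e])⟩

/-- the Cayley map with zero at `w` -/
noncomputable def cay (w z : ℂ) : ℂ := (z - w) / (z - conj w)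

variable {w z : ℂ}

lemma cay_den (hw : w ∈ UH) (hz : z ∈ UC) : z - conj w ≠ 0 := fun e => by
  have := congrArg im e
  have h1 : 0 < w.im := hw
  have h2 : 0 ≤ z.im := hz
  simp at this; linarith

lemma cay_sq (w z : ℂ) : ‖z - conj w‖ ^ 2 = ‖z - w‖ ^ 2 + 4 * (z.im * w.im) := by
  simp only [← normSq_eq_norm_sq, normSq_apply, sub_re, sub_im, conj_re, conj_im]; ring

lemma cay_lt (hw : w ∈ UH) (hz : z - conj w ≠ 0) : ‖cay w z‖ < 1 ↔ z ∈ UH := by
  rw [cay, norm_div, div_lt_one (norm_pos_iff.2 hz), ← sq_lt_sq₀ (norm_nonneg _) (norm_nonneg _),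
    cay_sq, lt_add_iff_pos_right, mul_pos_iff_of_pos_left four_pos,
    mul_pos_iff_of_pos_right (mem_UH.1 hw), mem_UH]

lemma cay_le (hw : w ∈ UH) (hz : z - conj w ≠ 0) : ‖cay w z‖ ≤ 1 ↔ z ∈ UC := by
  rw [cay, norm_div, div_le_one (norm_pos_iff.2 hz), ← sq_le_sq₀ (norm_nonneg _) (norm_nonneg _),
    cay_sq, le_add_iff_nonneg_right, mul_nonneg_iff_of_pos_left four_pos,
    mul_nonneg_iff_of_pos_right (mem_UH.1 hw)]
  rfl

lemma conj_ne (hw : w ∈ UH) : conj w - w ≠ 0 := fun e => by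
  have := congrArg im e
  have h1 : 0 < w.im := hw
  simp at this; linarith

lemma cay_eq (hz : z - conj w ≠ 0) : cay w z = 1 + (conj w - w) / (z - conj w) := by
  rw [cay]; field_simp; ring

lemma cay_ne (hw : w ∈ UH) (hz : z ∈ UC) : cay w z ≠ 1 := by
  rw [cay_eq (cay_den hw hz), Ne, add_eq_left]
  exact div_ne_zero (conj_ne hw) (cay_den hw hz)

lemma cay_inj (hw : w ∈ UH) : InjOn (cay w) UC := fun u hu v hv e => by
  rw [cay_eq (cay_den hw hu), cay_eq (cay_den hw hv), add_right_inj, div_eq_mul_inv, div_eq_mul_inv,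
    mul_right_inj' (conj_ne hw), inv_inj, sub_left_inj] at e
  exact e

lemma cay_surj (hw : w ∈ UH) {ζ : ℂ} (h : ζ ≠ 1) : ∃ z, z - conj w ≠ 0 ∧ cay w z = ζ := by
  have h1 := sub_ne_zero.2 h
  have h2 := conj_ne hw
  have e : conj w + (conj w - w) / (ζ - 1) - conj w ≠ 0 := by
    rw [add_sub_cancel_left]; exact div_ne_zero h2 h1
  refine ⟨_, e, ?_⟩
  rw [cay_eq e, add_sub_cancel_left]
  field_simp
  ring

lemma cay_diff (hz : z - conj w ≠ 0) : DifferentiableAt ℂ (cay w) z :=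
  (differentiableAt_id.sub_const w).div (differentiableAt_id.sub_const _) hz

lemma cay_lim (w : ℂ) : Tendsto (cay w) (cobounded ℂ) (𝓝 1) := by
  have h1 : Tendsto (fun z : ℂ => z - conj w) (cobounded ℂ) (cobounded ℂ) :=
    tendsto_sub_const_cobounded _
  have h2 := ((tendsto_inv₀_cobounded.comp h1).const_mul (conj w - w)).const_add 1
  rw [mul_zero, add_zero] at h2
  refine h2.congr' ?_
  filter_upwards [h1.eventually (eventually_ne_cobounded 0)] with z hz
  rw [cay_eq hz, div_eq_mul_inv]; rfl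

lemma cay_bij (hw : w ∈ UH) : BijOn (cay w) UH (ball 0 1) :=
  ⟨fun _ hz => mem_ball_zero_iff.2 ((cay_lt hw (cay_den hw (UH_sub hz))).2 hz),
    (cay_inj hw).mono UH_sub, fun ζ h => by
      have h1 := mem_ball_zero_iff.1 h
      obtain ⟨z, h2, rfl⟩ := cay_surj hw (ζ := ζ) (fun e => by simp [e] at h1)
      exact ⟨z, (cay_lt hw h2).1 h1, rfl⟩⟩

/-- the theorem of Caratheodory for the disc -/
lemma jordan_disc {P : ℝ → ℂ} (hc : Continuous P) (hp : Function.Periodic P 1)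
    (hi : ∀ s t, P s = P t → ∃ n : ℤ, s = t + n) {D : Set ℂ} (ho : IsOpen D)
    (hD : IsConnected D) (hb : IsBounded D) (hf : frontier D = range P) :
    ∃ G : ℂ → ℂ, ContinuousOn G (closedBall 0 1) ∧ InjOn G (closedBall 0 1) ∧
      DifferentiableOn ℂ G (ball 0 1) ∧ G '' ball 0 1 = D ∧ G '' sphere 0 1 = frontier D := by
  have pol : ∀ z ∈ sphere (0 : ℂ) 1, ee (arg z / (2 * Real.pi) : ℝ) = z := fun z hz => by
    have h1 := norm_mul_exp_arg_mul_I z
    rw [mem_sphere_zero_iff_norm.1 hz, ofReal_one, one_mul] at h1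
    rw [← h1, ee, tpi, h1]
    convert h1 using 2
    have : (Real.pi : ℂ) ≠ 0 := ofReal_ne_zero.2 Real.pi_ne_zero
    push_cast
    field_simp
  have ms : ∀ t : ℝ, ee t ∈ sphere (0 : ℂ) 1 := fun t =>
    mem_sphere_zero_iff_norm.2 (norm_ee_real t)
  let γ : ℂ → ℂ := fun z => P (arg z / (2 * Real.pi))
  have γe : ∀ t : ℝ, γ (ee t) = P t := fun t => by
    obtain ⟨n, hn⟩ := ee_eq_iff.1 (pol _ (ms t))
    have : arg (ee t) / (2 * Real.pi) = t + n * 1 := by rw [mul_one]; exact_mod_cast hn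
    simp only [γ, this]
    exact hp.int_mul n t
  have sur : ∀ z ∈ sphere (0 : ℂ) 1, ∃ t ∈ Icc (0 : ℝ) 1, ee t = z := fun z hz =>
    ⟨Int.fract (arg z / (2 * Real.pi)), ⟨Int.fract_nonneg _, (Int.fract_lt_one _).le⟩, by
      rw [← pol z hz, pol z hz]
      refine Eq.trans (ee_eq_iff.2 ⟨-⌊arg z / (2 * Real.pi)⌋, ?_⟩) (pol z hz)
      rw [Int.fract]; push_cast; ring⟩
  have γc : ContinuousOn γ (sphere 0 1) := by
    refine continuousOn_iff_isClosed.2 fun t ht => ⟨(fun s : ℝ => ee s) '' (Icc 0 1 ∩ P ⁻¹' t),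
      ((isCompact_Icc.inter_right (ht.preimage hc)).image (by fun_prop)).isClosed, ?_⟩
    ext z
    constructor
    · rintro ⟨h1, h2⟩
      obtain ⟨s, hs, rfl⟩ := sur z h2
      exact ⟨⟨s, ⟨hs, by rwa [mem_preimage, γe] at h1⟩, rfl⟩, h2⟩
    · rintro ⟨⟨s, hs, rfl⟩, h2⟩
      exact ⟨by rw [mem_preimage, γe]; exact hs.2, h2⟩
  have γi : InjOn γ (sphere 0 1) := fun z hz w hw e => by
    obtain ⟨n, hn⟩ := hi _ _ e
    rw [← pol z hz, ← pol w hw]
    exact ee_eq_iff.2 ⟨n, by exact_mod_cast hn⟩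
  obtain ⟨F, hF⟩ := MP_d32f96_gt.sSP_of (MP_d32f96_gt.xRMT_of (MP_d32f96_gt.sLogC_of
    (MP_d32f96_gt.sHD_of MP_d32f96_gt.sLogOut_of))) (MP_d32f96_gt.sJCT_of MP_d32f96_gt.sLogPair_of
    (MP_d32f96_gt.sHD_of MP_d32f96_gt.sLogOut_of)) MP_d32f96_gt.sJan_of MP_d32f96_gt.sLogOut_of
    γ γc γi
  have Fs : F '' sphere 0 1 = frontier D := by
    rw [hf]
    refine Subset.antisymm ?_ ?_
    · rintro _ ⟨z, hz, rfl⟩
      exact ⟨_, (hF z (mem_sphere_zero_iff_norm.1 hz)).symm⟩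
    · rintro _ ⟨t, rfl⟩
      exact ⟨ee t, ms t, by rw [hF _ (norm_ee_real t), γe]⟩
  have dj : ∀ z ∈ D, z ∉ frontier D := fun z hz h => (ho.frontier_eq ▸ h).2 hz
  have sub : ∀ A : Set ℂ, IsPreconnected A → (∀ z ∈ A, z ∉ frontier D) → (A ∩ D).Nonempty →
      A ⊆ D := fun A hA h hn => hA.subset_of_closure_inter_subset ho hn fun z hz => by
    rw [closure_eq_self_union_frontier] at hz
    exact hz.1.resolve_right (h z hz.2)
  have nm : ∀ A : Set ℂ, Disjoint A (sphere 0 1) → ∀ z ∈ F '' A, z ∉ frontier D := by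
    rintro A hA _ ⟨z, hz, rfl⟩ h
    obtain ⟨v, hv, e⟩ := Fs.ge h
    exact disjoint_left.1 hA hz (F.injective e ▸ hv)
  have Fb : F '' ball 0 1 = D := by
    have h1 : (D ∩ F '' ball 0 1).Nonempty := by
      obtain ⟨z, hz⟩ := hD.nonempty
      obtain ⟨v, rfl⟩ := F.surjective z
      rcases lt_trichotomy ‖v‖ 1 with h | h | h
      · exact ⟨_, hz, v, mem_ball_zero_iff.2 h, rfl⟩
      · exact absurd (Fs.le ⟨v, mem_sphere_zero_iff_norm.2 h, rfl⟩) (dj _ hz)
      · exact absurd ((MP_d32f96_gt.isBounded_image_iff F).1 (hb.subset (sub _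
          ((MP_d32f96_gt.preconn_out' 1).image F F.continuous.continuousOn) (nm _
          (disjoint_left.2 fun u hu hu' => ne_of_gt hu (mem_sphere_zero_iff_norm.1 hu')))
          ⟨_, ⟨v, h, rfl⟩, hz⟩))) (MP_d32f96_gt.not_bdd_out 1)
    refine Subset.antisymm (sub _ ((convex_ball 0 1).isPreconnected.image F
      F.continuous.continuousOn) (nm _ sphere_disjoint_ball.symm) (inter_comm _ _ ▸ h1)) ?_
    exact MP_d32f96_gt.subset_image_ball F hD.isPreconnected (Fs ▸ dj) h1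
  obtain ⟨ψ, g, ψd, -, Fg, gc, gi, -, gb, gs⟩ := MP_069d55_gt.cara F
  refine ⟨fun z => F (g z), F.continuous.comp_continuousOn gc,
    fun z hz v hv e => gi hz hv (F.injective e), ψd.congr Fg, by rw [← image_image, gb, Fb], ?_⟩
  rw [← image_image, ← Fs]
  congr 1
  refine Subset.antisymm ?_ fun v hv => ?_
  · rintro _ ⟨z, hz, rfl⟩
    exact mem_sphere_zero_iff_norm.2 (gs z (mem_sphere_zero_iff_norm.1 hz))
  · obtain ⟨z, hz, rfl⟩ := closure_minimal (gb ▸ image_mono ball_subset_closedBall)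
      ((isCompact_closedBall 0 1).image_of_continuousOn gc).isClosed
      (show v ∈ closure (ball 0 1) by
        rw [closure_ball 0 one_ne_zero]; exact sphere_subset_closedBall hv)
    rcases (mem_closedBall_zero_iff.1 hz).lt_or_eq with h | h
    · exact absurd (gb.le (mem_image_of_mem g (mem_ball_zero_iff.2 h)))
        (disjoint_left.1 sphere_disjoint_ball hv)
    · exact ⟨z, mem_sphere_zero_iff_norm.2 h, rfl⟩

/-- a chart from a map of the closed disc -/
lemma chart_of_disc {G : ℂ → ℂ} {D : Set ℂ} (Gc : ContinuousOn G (closedBall 0 1))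
    (Gi : InjOn G (closedBall 0 1)) (Gd : DifferentiableOn ℂ G (ball 0 1)) (Gb : G '' ball 0 1 = D)
    (Gs : G '' sphere 0 1 = frontier D) {a b : ℂ} (ha : a ∈ frontier D) (hb : b ∈ frontier D)
    (hab : a ≠ b) : ∃ Ψ, Chart D a b Ψ := by
  obtain ⟨α, hα, rfl⟩ := Gs.ge ha
  obtain ⟨β, hβ, rfl⟩ := Gs.ge hb
  have nα := mem_sphere_zero_iff_norm.1 hα
  have nβ := mem_sphere_zero_iff_norm.1 hβ
  have β0 : β ≠ 0 := fun e => by simp [e] at nβ
  obtain ⟨w, hw, w0⟩ : ∃ w ∈ UH, β * cay w 0 = α := by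
    set u := α / β with hu
    have nu : ‖u‖ = 1 := by rw [hu, norm_div, nα, nβ, div_one]
    have u1 : u ≠ 1 := fun e => hab (by rw [(div_eq_one_iff_eq β0).1 e])
    have u0 : u ≠ 0 := fun e => by simp [e] at nu
    have uc : conj u = u⁻¹ := (inv_eq_conj nu).symm
    refine ⟨I * (1 - u), mem_UH.2 ?_, ?_⟩
    · have h1 : u.re ≤ 1 := nu ▸ re_le_norm u
      have h2 : u.re ≠ 1 := fun e => u1 (by
        have := normSq_eq_norm_sq u
        rw [nu, normSq_apply, e] at this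
        exact Complex.ext e (by simpa using this))
      simpa using h1.lt_of_ne h2
    · have := sub_ne_zero.2 u1
      have e : cay (I * (1 - u)) 0 = u := by
        simp only [cay, map_mul, map_sub, conj_I, map_one, uc]
        field_simp
        ring
      rw [e, hu, mul_div_cancel₀ _ β0]
  have nm : ∀ z, ‖β * cay w z‖ = ‖cay w z‖ := fun z => by rw [norm_mul, nβ, one_mul]
  have mc : MapsTo (fun z => β * cay w z) UC (closedBall 0 1) := fun z hz =>
    mem_closedBall_zero_iff.2 (nm z ▸ (cay_le hw (cay_den hw hz)).2 hz)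
  have mb : MapsTo (fun z => β * cay w z) UH (ball 0 1) := fun z hz =>
    mem_ball_zero_iff.2 (nm z ▸ (cay_lt hw (cay_den hw (UH_sub hz))).2 hz)
  have md : DifferentiableOn ℂ (fun z => β * cay w z) UC := fun z hz =>
    ((cay_diff (cay_den hw hz)).const_mul β).differentiableWithinAt
  have sur : ∀ ζ : ℂ, ζ ≠ β → ∃ z, z - conj w ≠ 0 ∧ β * cay w z = ζ := fun ζ h => by
    obtain ⟨z, h1, h2⟩ := cay_surj hw (ζ := ζ / β) fun e => h ((div_eq_one_iff_eq β0).1 e)
    exact ⟨z, h1, by rw [h2, mul_div_cancel₀ _ β0]⟩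
  refine ⟨fun z => G (β * cay w z), Gc.comp md.continuousOn mc,
    fun u hu v hv e => cay_inj hw hu hv (mul_left_cancel₀ β0 (Gi (mc hu) (mc hv) e)),
    Gd.comp (md.mono UH_sub) mb, ?_, by simp only [w0], ?_, fun z hz e => cay_ne hw hz ?_, ?_⟩
  · rw [← Gb]
    refine Subset.antisymm (by rintro _ ⟨z, hz, rfl⟩; exact ⟨_, mb hz, rfl⟩) ?_
    rintro _ ⟨ζ, h, rfl⟩
    have h1 := mem_ball_zero_iff.1 h
    obtain ⟨z, h2, rfl⟩ := sur ζ fun e => by simp [e, nβ] at h1
    exact ⟨z, (cay_lt hw h2).1 (nm z ▸ h1), rfl⟩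
  · refine (Gc β (sphere_subset_closedBall hβ)).tendsto.comp (tendsto_nhdsWithin_iff.2 ⟨?_,
      eventually_inf_principal.2 (Eventually.of_forall mc)⟩)
    simpa using ((cay_lim w).const_mul β).mono_left inf_le_left
  · exact mul_left_cancel₀ β0 ((Gi (mc hz) (sphere_subset_closedBall hβ) e).trans (mul_one β).symm)
  · rw [← Gs]
    refine Subset.antisymm ?_ (insert_subset ⟨β, hβ, rfl⟩ ?_)
    · rintro _ ⟨ζ, h, rfl⟩
      by_cases e : ζ = β
      · exact Or.inl (by rw [e])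
      · obtain ⟨z, h2, rfl⟩ := sur ζ e
        have h1 := mem_sphere_zero_iff_norm.1 h
        rw [nm] at h1
        rcases UC_cases ((cay_le hw h2).1 h1.le) with h3 | ⟨x, rfl⟩
        · exact absurd ((cay_lt hw h2).2 h3) h1.not_lt
        · exact Or.inr ⟨x, rfl⟩
    · rintro _ ⟨x, rfl⟩
      have h2 := cay_den hw (real_UC x)
      refine ⟨_, mem_sphere_zero_iff_norm.2 ?_, rfl⟩
      rw [nm]
      exact ((cay_le hw h2).2 (real_UC x)).eq_of_not_lt fun h => by
        simpa [mem_UH] using (cay_lt hw h2).1 h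

end Un

end Pool.Agent.Lib.MP_6359c9_pr
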