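import Pool.Agent.Lib.MP_6359c9_pr.SlStmt
import Pool.Agent.Lib.MP_6359c9_pr.UnA
import Pool.Agent.Lib.MP_6359c9_pr.LwG
import Pool.Agent.Lib.MP_6359c9_pr.GeD
import Pool.Agent.Lib.MP_6359c9_pr.BmMk
import Pool.Agent.Lib.MP_6359c9_pr.ExDef

/-! The setting and the intermediate statements of the convergence to SLE4. -/

namespace Pool.Agent.Lib.MP_6359c9_pr

open Set Filter Topology Bornology MeasureTheory Xp
open scoped NNReal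

/-- the level line without its end points -/
def Dom.core {d : ℝ} (Q : Dom d) (g : V → ℤ) : Set ℂ := Q.line (Q.up g) \ {Q.a, Q.b}

/-- `p` is the capacity parametrisation of the preimage of `G` -/
structure Trc (Ψ : ℂ → ℂ) (G : Set ℂ) (p : ℝ≥0 → ℂ) : Prop where
  smp : Smp p
  cap : Cap p
  zero : p 0 = 0
  inf : Tendsto p atTop (cobounded ℂ)
  img : Ψ '' (p '' Ioi 0) = G

/-- `t g k` is the capacity time at which the curve `p g` is at the midpoint of the edge `e k` -/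
structure Tim {d : ℝ} {s : ℤ} (X : St s) (S : Set (V → ℤ)) (Ψ : ℂ → ℂ)
    (p : (V → ℤ) → ℝ≥0 → ℂ) (t : (V → ℤ) → ℕ → ℝ≥0) : Prop where
  pos : ∀ g ∈ S, 0 < X.K g
  zero : ∀ g ∈ S, t g 0 = 0
  mono : ∀ g ∈ S, ∀ k, k + 1 < X.K g → t g k < t g (k + 1)
  tip : ∀ g ∈ S, ∀ k < X.K g, Ψ (p g (t g k)) = mid d (X.e g k)
  arc : ∀ g ∈ S, ∀ k, k + 1 < X.K g → (fun u => Ψ (p g u)) '' Icc (t g k) (t g (k + 1)) =
    segment ℝ (mid d (X.e g k)) (mid d (X.e g (k + 1)))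
  last : ∀ g ∈ S, ∀ k, k + 1 = X.K g → (fun u => Ψ (p g u)) '' Ici (t g k) =
    segment ℝ (mid d (X.e g k)) (mid d (X.e g (k + 1))) \ {mid d (X.e g (k + 1))}
  ad : ∀ g ∈ S, ∀ g' ∈ S, ∀ k < X.K g, X.hist k g = X.hist k g' →
    t g k = t g' k ∧ ∀ u ≤ t g k, p g u = p g' u ∧ drv (p g) u = drv (p g') u

/-- domains, charts, curves and times -/
structure Sett where
  Ω : Set ℂ
  ψ : ℂ → ℂ
  δ : ℕ → ℝ
  Q : ∀ n, Dom (δ n)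
  Ψ : ℕ → ℂ → ℂ
  s : ℕ → ℤ
  X : ∀ n, St (s n)
  p : ℕ → (V → ℤ) → ℝ≥0 → ℂ
  t : ℕ → (V → ℤ) → ℕ → ℝ≥0
  bdd : IsBounded Ω
  hol : DifferentiableOn ℂ ψ UH
  bij : BijOn ψ UH Ω
  dpos : ∀ n, 0 < δ n
  dlim : Tendsto δ atTop (𝓝 0)
  chart : ∀ n, Chart (Q n).D (Q n).a (Q n).b (Ψ n)
  conv : TendstoLocallyUniformlyOn Ψ ψ atTop UH
  of : ∀ n, (X n).Of (Q n)
  trc : ∀ n, ∀ g ∈ HD (Q n).R (Q n).xi, Trc (Ψ n) ((Q n).core g) (p n g)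
  tim : ∀ n, Tim (d := δ n) (X n) (HD (Q n).R (Q n).xi) (Ψ n) (p n) (t n)

namespace Sett

variable (A : Sett)

/-- the sample space -/
abbrev S (n : ℕ) : Set (V → ℤ) := HD (A.Q n).R (A.Q n).xi

/-- the driving function -/
noncomputable def W (n : ℕ) (g : V → ℤ) : ℝ → ℝ := Ge.rl (drv (A.p n g))

/-- a step inside the domain with bounded time and bounded driving function -/
structure Good (L T : ℝ) (n : ℕ) (g : V → ℤ) (k : ℕ) : Prop where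
  mem : g ∈ A.S n
  lt : k < (A.X n).K g
  le : (A.t n g k : ℝ) ≤ T
  bd : ∀ u ≤ A.t n g k, |drv (A.p n g) u| ≤ L

end Sett

/-- U: a uniformising map extends to the closed half plane -/
def UnifSt : Prop := ∀ (d : ℝ), 0 < d → ∀ (Q : Dom d) (ψ : ℂ → ℂ), Unif Q.D Q.a Q.b ψ →
  ∃ Ψ, Chart Q.D Q.a Q.b Ψ ∧ EqOn Ψ ψ UH

/-- U: one half line goes to the plus arc and the other one to the minus arc -/
def ArcSt : Prop := ∀ (d : ℝ), 0 < d → ∀ (Q : Dom d) (Ψ : ℂ → ℂ), Chart Q.D Q.a Q.b Ψ →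
  ∃ s : ℤ, (s = 0 ∨ s = 1) ∧ ∀ g ∈ HD Q.R Q.xi, ∀ x : ℝ, x ≠ 0 →
    (1 / 2 < ext d g (Ψ x) ↔ (if x < 0 then s else 1 - s) = 1) ∧ ext d g (Ψ x) ≠ 1 / 2

/-- X: the combinatorial form of a domain -/
def OfSt : Prop := ∀ (d : ℝ), 0 < d → ∀ Q : Dom d, ∃ (s : ℤ) (X : St s), X.Of Q

/-- P: existence and uniqueness of the capacity parametrisation -/
def ParSt : Prop := ∀ (d : ℝ), 0 < d → ∀ (Q : Dom d) (Ψ : ℂ → ℂ), Chart Q.D Q.a Q.b Ψ →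
  ∀ g ∈ HD Q.R Q.xi, Q.b ∈ Q.line (Q.up g) ∧ ∃! p, Trc Ψ (Q.core g) p

/-- P: the times of the steps -/
def TimSt : Prop := ∀ (d : ℝ), 0 < d → ∀ (Q : Dom d) (Ψ : ℂ → ℂ), Chart Q.D Q.a Q.b Ψ →
  ∀ (s : ℤ) (X : St s), X.Of Q → ∀ p : (V → ℤ) → ℝ≥0 → ℂ,
    (∀ g ∈ HD Q.R Q.xi, Trc Ψ (Q.core g) (p g)) → ∃ t, Tim (d := d) X (HD Q.R Q.xi) Ψ p t

/-- E: connected sets with a small image are small -/
def EqcSt : Prop := ∀ (Ψ : ℕ → ℂ → ℂ) (ψ : ℂ → ℂ),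
  (∀ n, DifferentiableOn ℂ (Ψ n) UH ∧ InjOn (Ψ n) UH) → InjOn ψ UH →
  TendstoLocallyUniformlyOn Ψ ψ atTop UH → ∀ M ε : ℝ, 0 < ε → ∃ η > (0 : ℝ), ∀ᶠ n in atTop,
    ∀ C ⊆ UH, IsPreconnected C → ∀ u ∈ C, ‖u‖ ≤ M → (∀ v ∈ C, ‖Ψ n v - Ψ n u‖ ≤ η) →
      ∀ v ∈ C, ‖v - u‖ ≤ ε

/-- M: the steps are small -/
def MicSt : Prop := ∀ (A : Sett) (L T e : ℝ), 0 < e → ∀ᶠ n in atTop, ∀ g k, A.Good L T n g k →
  k + 1 < (A.X n).K g ∧ (A.t n g (k + 1) : ℝ) ≤ A.t n g k + e ∧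
    ∀ u ∈ Icc (A.t n g k) (A.t n g (k + 1)),
      |drv (A.p n g) u - drv (A.p n g) (A.t n g k)| ≤ e

/-- O1: the mean height in a sequence of domains with two arcs -/
def Obs1St : Prop := ∀ Φ : ℂ → ℂ, DifferentiableOn ℂ Φ UH → InjOn Φ UH → IsBounded (Φ '' UH) →
  ∀ (B : Sq (Φ '' UH)) (W : ℕ → Wall) (ia ib : ℕ → ℕ) (s : ℤ), (s = 0 ∨ s = 1) →
  (∀ n, (W n).R = B.U n ∧ ∀ i, B.ξ n ((W n).γ i) ≠ B.ξ n ((W n).γ (i + 1)) →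
    (W n).γ i = (W n).γ (ia n) ∨ (W n).γ i = (W n).γ (ib n)) →
  (∀ x : ℝ, x ≠ 0 → ∃ η > (0 : ℝ), ∀ w ∈ UH, ‖w - x‖ ≤ η → ∀ᶠ n in atTop, ∀ v q,
    ‖pos (B.δ n) v - Φ w‖ ≤ B.δ n → q ∉ B.U n →
    (W n).IC {y | ‖pos (B.δ n) y - Φ w‖ ≤ η} v q → B.ξ n q = if x < 0 then s else 1 - s) →
  ∀ ρ, End.Bump ρ → ∀ w ∈ UH, ∀ r > (0 : ℝ), Metric.closedBall (Φ w) r ⊆ Φ '' UH →
    Tendsto (fun n => Ex (HD (B.U n) (B.ξ n)) fun g => End.av ρ r (ext (B.δ n) g) (Φ w)) atTop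
      (𝓝 (s * (w.arg / Real.pi) + (1 - s) * (1 - w.arg / Real.pi)))

/-- O: the observable, uniformly over the good steps -/
def ObsSt : Prop := ∀ (A : Sett) (L T : ℝ) (z : ℂ), z ∈ UH → L + 3 * √T + 1 ≤ ‖z‖ →
  ∃ Y : ℕ → (V → ℤ) → ℝ, ∀ η > (0 : ℝ), ∀ᶠ n in atTop, ∀ g k, A.Good L T n g k →
    |mean {g' ∈ A.S n | (A.X n).hist k g' = (A.X n).hist k g} (Y n) -
      (gm (A.p n g) (A.t n g k) z - drv (A.p n g) (A.t n g k)).arg| ≤ η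

/-- the driving functions are approximate martingale chains -/
def SeqSt : Prop := ∀ A : Sett, Bm.Seq A.S A.W

/-- modulus of continuity -/
def ModSt : Prop := ∀ A : Sett, Bm.Seq A.S A.W → Ge.ModC A.S A.p

/-- transience -/
def TraSt : Prop := ∀ A : Sett, Bm.Seq A.S A.W → Ge.TraC A.S A.p

/-- real points on both sides of `w u` at time `u` are `ρ` away from `w s` at time `s` -/
def Apart (w : ℝ → ℝ) (ρ u s : ℝ) : Prop := ∀ G : ℝ → ℝ,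
  (∀ v ∈ Icc u s, G v ≠ w v ∧ HasDerivWithinAt G (2 / (G v - w v)) (Icc u s) v) → ρ ≤ |G s - w s|

/-- G: both sides of the recent past are visible -/
def GridSt : Prop := ∀ (α : ℕ → Type) (S : ∀ n, Set (α n)) (W : ∀ n, α n → ℝ → ℝ), Bm.Seq S W →
  (∀ n, ∀ x ∈ S n, Continuous (W n x)) → ∀ T θ ε : ℝ, 0 < θ → 0 < ε → ∃ ρ > (0 : ℝ),
    ∀ᶠ n in atTop, Ge.pr (S n)
      {x | ∃ s ∈ Icc θ T, ∀ u ∈ Icc (s - θ) s, ¬Apart (W n x) ρ u s} ≤ ε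

/-- G: the curve does not come close to the real line away from the origin -/
def AvoSt : Prop := ∀ A : Sett, Bm.Seq A.S A.W → ∀ (T : ℝ≥0) (a ε : ℝ), 0 < a → 0 < ε →
  ∃ η > (0 : ℝ), ∀ᶠ n in atTop,
    Ge.pr (A.S n) {g | ∃ u ≤ T, a ≤ |(A.p n g u).re| ∧ (A.p n g u).im ≤ η} ≤ ε

/-- D: the near future is not larger than the recent past -/
def TipSt : Prop := ∀ L T ρ l : ℝ, 0 < ρ → 0 < l → ∃ r > (0 : ℝ), ∀ p : ℝ≥0 → ℂ, Smp p → Cap p →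
  ∀ u s s' : ℝ≥0, u ≤ s → s ≤ s' → (s' : ℝ) ≤ T → (∀ v ≤ s', |drv p v| ≤ L) →
    Apart (Ge.rl (drv p)) ρ u s → (s' : ℝ) ≤ s + r → (∀ v ∈ Icc s s', |drv p v - drv p s| ≤ r) →
    Metric.diam (p '' Icc s s') ≤ l + Metric.diam (p '' Icc u s)

/-- T: the number of macroscopic pieces in a compact set is tight -/
def PieSt : Prop := ∀ (A : Sett) (K : Set ℂ), K ⊆ UH → IsCompact K → ∀ ε η : ℝ, 0 < ε → 0 < η →
  ∃ N : ℕ, ∀ᶠ n in atTop, Ge.pr (A.S n) {g | ∃ a b : ℕ → ℝ≥0,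
    ∀ i < N, a i ≤ b i ∧ b i ≤ a (i + 1) ∧ A.p n g '' Icc (a i) (b i) ⊆ K ∧
      ε ≤ ‖A.p n g (a i) - A.p n g (b i)‖} ≤ η

end Pool.Agent.Lib.MP_6359c9_pr
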