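import Pool.Agent.Lib.MP_6359c9_pr.ChB
import Pool.Agent.Lib.MP_6359c9_pr.SlSpec

/-! The chart data in the setting of the theorem. -/

namespace Pool.Agent.Lib.MP_6359c9_pr.Sett

open Set Filter Topology

variable (A : Sett)

/-- the disc chart -/
noncomputable def dc (n : ℕ) : ℂ → ℂ := (A.chart n).dc

/-- the disc chart on the vertices -/
noncomputable def Phv (n : ℕ) (v : V) : ℂ := A.dc n (pos (A.δ n) v)

/-- the interior vertices -/
noncomputable def R0 (n : ℕ) : Finset V := ((A.Q n).fin_R (A.dpos n)).toFinset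

theorem coe_R0 (n : ℕ) : (A.R0 n : Set V) = (A.Q n).R := Finite.coe_toFinset _

/-- sets of diameter `m` mesh sizes that are connected in the domain have small images -/
theorem small (m : ℝ) {ω : ℝ} (hω : 0 < ω) :
    ∃ r > 0, ∀ᶠ n in atTop, m * A.δ n ≤ r ∧ (A.chart n).Small r ω := by
  obtain ⟨r, r0, H⟩ := dc_small A.chart A.hol.continuousOn A.bij.injOn A.conv hω
  refine ⟨r, r0, Eventually.and ?_ H⟩
  exact (A.dlim.const_mul m).eventually (ge_mem_nhds (by simpa using r0))

/-- the oscillation of the disc chart on the closed triangles of the domain -/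
theorem small_tg {ω : ℝ} (hω : 0 < ω) : ∀ᶠ n in atTop, ∀ p, (A.X n).L p →
    ∀ u ∈ Tg (A.δ n) p, ∀ v ∈ Tg (A.δ n) p, ‖A.dc n u - A.dc n v‖ ≤ ω := by
  obtain ⟨r, -, H⟩ := A.small 1 hω
  filter_upwards [H] with n ⟨h1, h2⟩ p hp u hu v hv
  have := ((A.of n).L p).1 hp
  exact h2.tg (A.dpos n) (by linarith) this.1 this.2 hu hv

/-- the chart data for the fjord estimate -/
theorem fj_chart {ω : ℝ} (hω : 0 < ω) :
    ∀ᶠ n in atTop, ∃ e, Fj.Chart (A.R0 n) (A.Phv n) e (2 ^ 18) ω := by
  obtain ⟨r, -, H⟩ := A.small 1 (ω := ω / 128) (by positivity)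
  filter_upwards [H] with n ⟨h1, h2⟩
  have := h2.chart (A.dpos n) (by linarith) (by positivity)
  rw [show 128 * (ω / 128) = ω by ring] at this
  exact ⟨_, this⟩

end Pool.Agent.Lib.MP_6359c9_pr.Sett
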