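import Pool.Agent.Lib.MP_6359c9_pr.ExSub
import Pool.Agent.Lib.MP_6359c9_pr.FjDef

/-! Sealing: a region that is cut off from the end point sees only one arc. -/

namespace Pool.Agent.Lib.MP_6359c9_pr.Xp

open Set WD Relation

/-- two faces with a common edge -/
def FA (a b : V) : Prop := ∃ u v, Adj u v ∧ lf u v = a ∧ lf v u = b

/-- a chain of faces of `L` off `F` -/
def FC (L : V → Prop) (F : Set V) (a b : V) : Prop :=
  (L a ∧ a ∉ F) ∧ ReflTransGen (fun a b => FA a b ∧ L b ∧ b ∉ F) a b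

/-- the vertices of the faces in `F` -/
def Vx (F : Set V) : Set V := {x | ∃ p ∈ F, Ar x p}

/-- a path along edges of faces of `L` off `B` -/
def VP (L : V → Prop) (B : Set V) (u v : V) : Prop :=
  u ∉ B ∧ ReflTransGen (fun a b => IE L a b ∧ b ∉ B) u v

variable {L : V → Prop} {F B : Set V} {a b c u v w : V}

lemma FA.symm (h : FA a b) : FA b a := by
  obtain ⟨u, v, e, h1, h2⟩ := h
  exact ⟨v, u, e.symm, h2, h1⟩

lemma FC.refl (h : L a) (h' : a ∉ F) : FC L F a a := ⟨⟨h, h'⟩, .refl⟩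

lemma FC.right (h : FC L F a b) : L b ∧ b ∉ F := by
  obtain ⟨h1, h2⟩ := h
  induction h2 with
  | refl => exact h1
  | tail _ e _ => exact e.2

lemma FC.tail (h : FC L F a b) (e : FA b c) (h1 : L c) (h2 : c ∉ F) : FC L F a c :=
  ⟨h.1, h.2.tail ⟨e, h1, h2⟩⟩

lemma FC.trans (h : FC L F a b) (h' : FC L F b c) : FC L F a c := ⟨h.1, h.2.trans h'.2⟩

lemma FC.head (h1 : L a) (h2 : a ∉ F) (e : FA a b) (h : FC L F b c) : FC L F a c :=
  ((FC.refl h1 h2).tail e h.1.1 h.1.2).trans h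

lemma FC.ind {P : V → Prop} (h : FC L F a b) (h0 : P a)
    (hs : ∀ x y, FC L F a x → FA x y → L y → y ∉ F → P x → P y) : P b := by
  obtain ⟨h1, h2⟩ := h
  induction h2 with
  | refl => exact h0
  | tail h3 h4 ih => exact hs _ _ ⟨h1, h3⟩ h4.1 h4.2.1 h4.2.2 ih

lemma FC.symm (h : FC L F a b) : FC L F b a :=
  h.ind (P := fun x => FC L F x a) (.refl h.1.1 h.1.2) fun _ _ _ e h1 h2 ih => .head h1 h2 e.symm ih

lemma IE_symm (h : IE L u v) : IE L v u := ⟨h.1.symm, h.2.symm⟩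

lemma VP.refl (h : u ∉ B) : VP L B u u := ⟨h, .refl⟩

lemma VP.right (h : VP L B u v) : v ∉ B := by
  obtain ⟨h1, h2⟩ := h
  induction h2 with
  | refl => exact h1
  | tail _ e _ => exact e.2

lemma VP.tail (h : VP L B u v) (e : IE L v w) (h1 : w ∉ B) : VP L B u w :=
  ⟨h.1, h.2.tail ⟨e, h1⟩⟩

lemma VP.trans (h : VP L B u v) (h' : VP L B v w) : VP L B u w := ⟨h.1, h.2.trans h'.2⟩

lemma VP.ind {P : V → Prop} (h : VP L B u v) (h0 : P u)
    (hs : ∀ x y, VP L B u x → IE L x y → y ∉ B → P x → P y) : P v := by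
  obtain ⟨h1, h2⟩ := h
  induction h2 with
  | refl => exact h0
  | tail h3 h4 ih => exact hs _ _ ⟨h1, h3⟩ h4.1 h4.2 ih

lemma VP.symm (h : VP L B u v) : VP L B v u :=
  h.ind (P := fun x => VP L B x u) (.refl h.1) fun _ _ hx e h1 ih =>
    ((VP.refl h1).tail (IE_symm e) hx.right).trans ih

lemma lf_eq {p q : V} (h : Adj u v) (h' : Adj p q) (e : lf u v = lf p q) :
    (u = p ∧ v = q) ∨ (u = q ∧ v = thd p q) ∨ (u = thd p q ∧ v = p) := by
  have e1 := congrArg Prod.fst e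
  have e2 := congrArg Prod.snd e
  rw [lf_fst, lf_fst] at e1
  rw [lf_snd, lf_snd] at e2
  clear e
  obtain ⟨u1, u2⟩ := u
  obtain ⟨v1, v2⟩ := v
  obtain ⟨p1, p2⟩ := p
  obtain ⟨q1, q2⟩ := q
  simp only [thd, Prod.mk.injEq, Adj] at *
  rcases h with ⟨rfl, rfl⟩ | ⟨rfl, rfl⟩ | ⟨rfl, rfl⟩ | ⟨rfl, rfl⟩ | ⟨rfl, rfl⟩ | ⟨rfl, rfl⟩ <;>
    rcases h' with ⟨rfl, rfl⟩ | ⟨rfl, rfl⟩ | ⟨rfl, rfl⟩ | ⟨rfl, rfl⟩ | ⟨rfl, rfl⟩ | ⟨rfl, rfl⟩ <;>
    omega

lemma ar_adj {x y : V} (h : Ar x c) (h' : Ar y c) :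
    x = y ∨ (Adj x y ∧ (lf x y = c ∨ lf y x = c)) := by
  obtain ⟨u, e, rfl⟩ := h
  obtain ⟨v, e', k⟩ := h'
  rcases lf_eq e' e k with ⟨rfl, -⟩ | ⟨rfl, -⟩ | ⟨rfl, -⟩
  · exact Or.inl rfl
  · exact Or.inr ⟨e, Or.inl rfl⟩
  · exact Or.inr ⟨e.thd.1, Or.inr (lf_thd' _ _)⟩

/-- two vertices of a face -/
lemma VP.face (hc : L c) (h : Ar u c) (h' : Ar v c) (hu : u ∉ B) (hv : v ∉ B) : VP L B u v := by
  rcases ar_adj h h' with rfl | ⟨e, k⟩
  · exact .refl hu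
  · exact (VP.refl hu).tail ⟨e, k.imp (fun k => by rwa [k]) fun k => by rwa [k]⟩ hv

/-- the faces around a vertex off the bad faces are joined -/
lemma fc_fan {R : Set V} {n : ℕ} {γ : ℕ → V} (D : FaceD R n γ L) {x : V} (hx : x ∉ Vx F)
    (h : Ar x a) (h' : Ar x b) (la : L a) (lb : L b) : FC L F a b := by
  obtain ⟨p, q, e⟩ := D.pair x
  have nF : ∀ c, Ar x c → c ∉ F := fun c hc k => hx ⟨c, k, hc⟩
  have := fan (L := L) (Y := fun c => FC L F a c) (p := p) (q := q)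
    (fun w k n1 n2 => (D.jump _ _ k).2 (e w n1 n2)) (fun w k l1 l2 => propext
      ⟨fun t => t.tail ⟨_, _, k, rfl, rfl⟩ l2 (nF _ (ar_r k.symm)),
        fun t => t.tail ⟨_, _, k.symm, rfl, rfl⟩ l1 (nF _ (ar_l k))⟩) h h' la lb
  exact this ▸ FC.refl la (nF _ h)

namespace St

variable {s : ℤ} {S : St s} {g : V → ℤ}

/-- the last face -/
def fb (S : St s) : V := lf (S.c S.m) (S.c (S.m - 1))

lemma adj_b (S : St s) : Adj (S.c S.m) (S.c (S.m - 1)) := by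
  have := (S.D.adj (S.m - 1)).symm
  rwa [Nat.sub_add_cancel S.m_pos] at this

lemma After.fb_mem {k : ℕ} {S' : St s} (h : S.After g k S') (hb : S.L S.fb) : S'.L S.fb := by
  have h1 := S.D.cyc (S.m - 1)
  have h2 := S'.D.cyc (S'.m - 1)
  rw [Nat.sub_add_cancel S.m_pos] at h1
  rw [Nat.sub_add_cancel S'.m_pos, h.fin.1, h.fin.2] at h2
  by_contra k
  exact h2 (iff_of_false (fun t => h1 (iff_of_true (h.sub _ t) hb)) k)

/-- the arc with data `a` -/
def arc (S : St s) (a : ℤ) : Set V := {z | ∃ i < S.n, S.c i = z ∧ (i < S.m ↔ a = s)}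

/-- the face `c` sees the arc with data `a` off `X` -/
def See (S : St s) (X : Set V) (c : V) (a : ℤ) : Prop :=
  ∃ x, Ar x c ∧ ∃ z ∈ S.arc a, VP S.L X x z

lemma ne_s (S : St s) : 1 - s ≠ s := by have := S.hs; omega

/-- a path from the tip to the end meets every path between the two arcs -/
lemma nc_tip {S : St s} {X : Set V} (hw : w = S.c 0 ∨ w = S.c (S.n - 1))
    (p' : VP S.L Xᶜ w (S.c S.m)) (h1 : u ∈ S.arc s) (h2 : v ∈ S.arc (1 - s)) :
    ¬VP S.L X u v := by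
  intro p
  obtain ⟨i, -, rfl, hi⟩ := h1
  obtain ⟨j, hj', rfl, hj⟩ := h2
  replace hi := hi.2 rfl
  replace hj : S.m ≤ j := not_lt.1 fun h => S.ne_s (hj.1 h)
  have sw : w ∈ X := not_not.1 p'.1
  have jm : j ≠ S.m := fun e => p.right (e ▸ not_not.1 p'.right)
  have cv : ReflTransGen (fun u v => IE S.L u v ∧ v ∈ X) w (S.c S.m) :=
    ReflTransGen.mono (fun _ _ e => ⟨e.1, not_not.1 e.2⟩) _ _ p'.2
  rcases hw with rfl | rfl
  · have i0 : i ≠ 0 := fun e => p.1 (e ▸ sw)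
    exact S.D.nc (T := Xᶜ) (i0 := 0) (a := i) (i1 := S.m) (b := j) (by omega) hi (by omega)
      (by omega) sw cv p.1 p.2 disjoint_compl_right
  · have j0 : j ≠ S.n - 1 := fun e => p.right (e ▸ sw)
    refine S.D.nc (T := Xᶜ) (i0 := S.n - 1) (a := i + S.n) (i1 := S.m + S.n) (b := j + S.n)
      (by omega) (by omega) (by omega) (by omega) sw ?_ ?_ ?_ disjoint_compl_right <;>
      simp only [S.D.per]
    exacts [cv, p.1, p.2]

/-- the vertices of a chain of faces -/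
lemma vp_of_fc {f q x y : V} (hq : FC L F f q) (hx : Ar x q) (hy : Ar y f) :
    VP L (Vx {c | FC L F c f})ᶜ x y :=
  hq.ind (P := fun q => ∀ x, Ar x q → VP L (Vx {c | FC L F c f})ᶜ x y)
    (fun x hx => .face hq.1.1 hx hy (not_not.2 ⟨f, FC.refl hq.1.1 hq.1.2, hx⟩)
      (not_not.2 ⟨f, FC.refl hq.1.1 hq.1.2, hy⟩))
    (fun x y hx e l1 l2 ih z hz => by
      have hy := (hx.tail e l1 l2).symm
      obtain ⟨u, v, e, rfl, rfl⟩ := e
      exact (VP.face l1 hz (ar_r e.symm) (not_not.2 ⟨_, hy, hz⟩)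
        (not_not.2 ⟨_, hy, ar_r e.symm⟩)).trans (ih u (ar_l e))) x hx

/-- off the vertices of a chain of faces from the tip to the end one sees one arc only -/
lemma one_arc' {S : St s} {f q : V} (hb : Ar (S.c S.m) f) (hw : w = S.c 0 ∨ w = S.c (S.n - 1))
    (hq : FC S.L F q f) (wq : Ar w q) (hc : S.L c) :
    ¬S.See (Vx {c | FC S.L F c f}) c s ∨ ¬S.See (Vx {c | FC S.L F c f}) c (1 - s) := by
  by_contra k
  simp only [not_or, not_not] at k
  obtain ⟨⟨x1, a1, z1, h1, p1⟩, x2, a2, z2, h2, p2⟩ := k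
  exact nc_tip hw (vp_of_fc hq.symm wq hb) h1 h2
    ((p1.symm.trans (.face hc a1 a2 p1.1 p2.1)).trans p2)

/-- a face that is not joined to the last face, while a tip vertex is, sees one arc only -/
lemma one_arc {S : St s} {f q : V} (hb : Ar (S.c S.m) f) (hw : w = S.c 0 ∨ w = S.c (S.n - 1))
    (hq : FC S.L F q f) (wq : Ar w q) (hc : S.L c) (n : ¬FC S.L F c f) :
    ¬S.See (Vx F) c s ∨ ¬S.See (Vx F) c (1 - s) := by
  have inT : ∀ x c, Ar x c → S.L c → ¬FC S.L F c f → x ∉ Vx F → x ∉ Vx {c | FC S.L F c f} :=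
    fun x c hx l n h ⟨q, hq, xq⟩ => n ((fc_fan S.D h hx xq l hq.1.1).trans hq)
  have pT : ∀ a, S.See (Vx F) c a → S.See (Vx {c | FC S.L F c f}) c a :=
    fun a ⟨x, hx, z, hz, p⟩ => ⟨x, hx, z, hz, p.ind
      (P := fun z => VP S.L (Vx {c | FC S.L F c f}) x z) (.refl (inT x c hx hc n p.1))
      fun y z _ e hz ih => ih.tail e (by
        rcases e.2 with l | l
        · exact inT z _ (ar_r e.1) l (fun k => ih.right ⟨_, k, ar_l e.1⟩) hz
        · exact inT z _ (ar_l e.1.symm) l (fun k => ih.right ⟨_, k, ar_r e.1.symm⟩) hz)⟩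
  exact (one_arc' hb hw hq wq hc).imp (mt (pT _)) (mt (pT _))

lemma After.tip {k : ℕ} {S' : St s} (h : S.After g (k + 1) S') :
    S.nw g k = S'.c 0 ∨ S.nw g k = S'.c (S'.n - 1) := by
  have e := h.cur
  rw [St.e, Function.iterate_succ_apply', stp] at e
  split_ifs at e
  · exact Or.inl (congrArg Prod.fst e)
  · exact Or.inr (congrArg Prod.snd e)

/-- sealing -/
theorem sealed {A : ℕ → St s} {k : ℕ} (hA : ∀ j ≤ k, S.After g j (A j))
    (hm : ∀ j < k, ∀ p, (A (j + 1)).L p → (A j).L p) (h0 : FC (A 0).L F c S.fb)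
    (hk : ¬FC (A k).L F c S.fb) (hc : ∀ j ≤ k, (A j).L c) :
    ∃ j ≤ k, ¬(A j).See (Vx F) c s ∨ ¬(A j).See (Vx F) c (1 - s) := by
  classical
  have ex : ∃ j, ¬FC (A j).L F c S.fb := ⟨k, hk⟩
  have jk : Nat.find ex ≤ k := Nat.find_min' ex hk
  have n := Nat.find_spec ex
  obtain ⟨j, hj⟩ : ∃ j, Nat.find ex = j + 1 :=
    Nat.exists_eq_succ_of_ne_zero fun e => n (e ▸ h0)
  have y : FC (A j).L F c S.fb := not_not.1 (Nat.find_min ex (by omega))
  rw [hj] at jk n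
  have a1 := hA j (by omega)
  have a2 := hA (j + 1) jk
  have lb : (A (j + 1)).L S.fb := a2.fb_mem (a1.sub _ y.right.1)
  have ad : Adj (S.e g j).1 (S.e g j).2 := by rw [a1.cur]; exact (A j).adj_zero
  have key : FC (A (j + 1)).L F c S.fb ∨ ∃ q, FC (A (j + 1)).L F q S.fb ∧ Ar (S.nw g j) q := by
    refine y.symm.ind (P := fun c => FC (A (j + 1)).L F c S.fb ∨
      ∃ q, FC (A (j + 1)).L F q S.fb ∧ Ar (S.nw g j) q) (Or.inl (.refl lb y.right.2)) ?_
    rintro x z - e l1 l2 (ih | ih)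
    swap
    · exact Or.inr ih
    by_cases l : (A (j + 1)).L z
    · exact Or.inl (.head l l2 e.symm ih)
    obtain ⟨u, v, e, rfl, rfl⟩ := e
    obtain ⟨i, i1, i2⟩ := (a2.bd u v e ih.1.1 (a1.sub _ l1)).resolve_left l
    obtain rfl : i = j := by
      by_contra k
      exact (a1.old i (by omega)).2 (i2 ▸ l1)
    refine Or.inr ⟨_, ih, ?_⟩
    rcases lf_eq e.symm ad i2.symm with ⟨h1, h2⟩ | ⟨-, h2⟩ | ⟨h1, -⟩
    · refine absurd (hm i (by omega) _ ih.1.1) ?_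
      rw [h1, h2, a1.cur]
      exact (A i).behind
    · exact (show u = S.nw g i from h2) ▸ ar_l e
    · exact (show v = S.nw g i from h1) ▸ ar_r e
  obtain ⟨q, hq, wq⟩ := key.resolve_left n
  exact ⟨j + 1, jk, one_arc (a2.fin.2 ▸ ar_l S.adj_b) a2.tip hq wq (hc _ jk) n⟩

lemma Adm.arc {a : ℤ} (h : S.Adm g) {i : ℕ} (e : g (S.c i) = a) :
    S.c i ∈ S.arc a := by
  obtain ⟨j, hj, e'⟩ := S.rep i
  refine ⟨j, hj, e', fun k => by rw [← e, ← e', h.2.1 j k], fun k => ?_⟩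
  by_contra n
  have := h.2.2 j (by omega) hj
  have := S.ne_s
  rw [e', e] at *
  omega

/-- a vertex of a later edge that is cut off from its arc -/
theorem bad_of {A : ℕ → St s} {k m : ℕ} {a : ℤ} {X : Set V} (hk : k ≤ m)
    (hA : ∀ j ≤ m, (A j).Adm g ∧ (A j).L c) (hv : Ar v c) (gv : g v = a)
    (vX : v ∉ X) (vm : v ∉ (A m).R) (h : ¬(A k).See X c a) :
    ∃ j, k ≤ j ∧ j < m ∧ v ∈ (A (j + 1)).arc a ∧ v ∈ (A j).R ∧
      ¬Fj.Att ((A k).arc a) ((A k).R \ cl X) {v} := by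
  classical
  have wall : ∀ j ≤ m, v ∉ (A j).R → v ∈ (A j).arc a := fun j hj n => by
    obtain ⟨i, rfl⟩ := ((A j).D.cl v ⟨c, hv, (hA j hj).2⟩).resolve_left n
    exact (hA j hj).1.arc gv
  have vk : v ∈ (A k).R := by
    by_contra n
    exact h ⟨v, hv, v, wall k hk n, .refl vX⟩
  have ex : ∃ j, v ∉ (A (k + j)).R := ⟨m - k, by rwa [Nat.add_sub_cancel' hk]⟩
  have jm : Nat.find ex ≤ m - k := Nat.find_min' ex (by rwa [Nat.add_sub_cancel' hk])
  have n := Nat.find_spec ex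
  obtain ⟨j, hj⟩ : ∃ j, Nat.find ex = j + 1 :=
    Nat.exists_eq_succ_of_ne_zero fun e => n (e ▸ vk)
  have y : v ∈ (A (k + j)).R := not_not.1 (Nat.find_min ex (by omega))
  rw [hj] at jm n
  refine ⟨k + j, by omega, by omega, wall _ (by omega) n, y, ?_⟩
  rintro ⟨z, hz, u, e, _, rfl, p⟩
  have ie : ∀ x ∈ (A k).R, ∀ y, Adj y x → IE (A k).L y x := fun x hx y e =>
    ⟨e, Or.inl ((A k).D.inn x hx _ (ar_r e))⟩
  refine h ⟨_, hv, z, hz, VP.symm ?_⟩
  exact p.ind (P := fun x => VP (A k).L X z x)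
    ((VP.refl fun k => p.left.2 (mem_cl k e)).tail (ie _ p.left.1 _ e)
      fun k => p.left.2 (sub_cl _ k))
    fun x y _ e hy ih => ih.tail (ie _ hy.1 _ e) fun k => hy.2 (sub_cl _ k)

end St

end Pool.Agent.Lib.MP_6359c9_pr.Xp
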