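import Pool.Agent.Lib.MP_6359c9_pr.ExSt
import Pool.Agent.Lib.MP_6359c9_pr.UsA

/-! The exploration seen from one of the two arcs. -/

namespace Pool.Agent.Lib.MP_6359c9_pr.Xp

open Set WD

namespace St

variable {s : ℤ} {S : St s} {g : V → ℤ} {a : ℤ} {z : V}

open Classical in
/-- the unexplored interior -/
noncomputable def Rk (S : St s) (k : ℕ) (g : V → ℤ) : Set V :=
  if k < S.K g then (S.sat g k).R else ∅

open Classical in
/-- the arc with data `a` after `k` steps -/
noncomputable def Zk (S : St s) (a : ℤ) (k : ℕ) (g : V → ℤ) : Set V :=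
  if k < S.K g then (S.sat g k).arc a else ∅

/-- the vertices on the side of the data `a` -/
def lo (a : ℤ) (g : V → ℤ) : Set V := {v | if a = 0 then g v ≤ 0 else 1 ≤ g v}

lemma Adm.val (h : S.Adm g) (ha : a = 0 ∨ a = 1) (hz : z ∈ S.arc a) : g z = a := by
  obtain ⟨i, hi, rfl, e⟩ := hz
  have := S.hs
  by_cases c : i < S.m
  · rw [h.2.1 i c, e.1 c]
  · rw [h.2.2 i (by omega) hi]
    have := mt e.2 c
    omega

lemma arc_conn (S : St s) (a : ℤ) {i j : ℕ} (hij : i ≤ j) (hj : j < S.n) (h1 : i < S.m ↔ a = s)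
    (h2 : j < S.m ↔ a = s) : DConn S.R S.c (S.arc a) (S.c i) (S.c j) := by
  induction j, hij using Nat.le_induction with
  | base => exact .refl ⟨i, hj, rfl, h1⟩
  | succ j hij ih =>
    refine (ih (by omega) ⟨fun c => ?_, fun c => ?_⟩).tail
      ⟨S.D.adj j, .inr (.inr ⟨j, .inl ⟨rfl, rfl⟩⟩)⟩ ⟨_, hj, rfl, h2⟩
    · exact h1.1 (by omega)
    · have := h2.2 c; omega

/-- the exploration is a chain for the fjord estimate -/
theorem ch (hG : Fj.GateSt) {η : ℝ} (hη : 0 < η) : ∃ l : ℤ, 1 ≤ l ∧ ∀ (s : ℤ) (S : St s)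
    (ξ : V → ℤ), S.Adm ξ → ∀ a : ℤ, a = 0 ∨ a = 1 →
    ∃ N, Fj.Ch l η (HD S.R ξ) S.hist S.Rk (S.Zk a) (lo a) N := by
  obtain ⟨l, hl, H⟩ := hG η hη
  refine ⟨l, hl, fun s S ξ hξ a ha => ?_⟩
  obtain ⟨N, hN⟩ := (hξ.ok.1.image S.K).bddAbove
  refine ⟨N, hξ.ok.1, fun k g _ g' _ e => hist_anti e k.le_succ, fun k g hg g' hg' e => ?_,
    fun g hg => if_neg (not_lt.2 (hN ⟨g, hg, rfl⟩)), fun k g hg => ?_, fun k g hg z hz => ?_,
    fun k g hg => ?_⟩
  · have h := hξ.of_mem hg
    have h' := hξ.of_mem hg'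
    have i : k < S.K g' ↔ k < S.K g := ⟨hist_lt h e.symm, hist_lt h' e⟩
    simp only [Rk, Zk, i, sat_congr h h' e, and_self]
  · have h := hξ.of_mem hg
    by_cases c : k + 1 < S.K g
    · rw [Rk, Rk, if_pos c, if_pos (by omega)]
      exact fun v hv => (mem_R _).2 fun p e => (h.form c).2.1 p ((mem_R _).1 hv p e)
    · rw [Rk, if_neg c]; exact empty_subset _
  · have h := hξ.of_mem hg
    by_cases c : k + 1 < S.K g
    swap
    · rw [Zk, if_neg c] at hz; exact hz.elim
    have c' : k < S.K g := by omega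
    have A := h.after c'
    have A' := h.after c
    rw [Zk, if_pos c] at hz
    rw [Zk, Rk, if_pos c', if_pos c']
    have gz := A'.adm.val ha hz
    have old : ∀ i, (S.sat g k).c i = z → z ∈ (S.sat g k).arc a := fun i e =>
      e ▸ A.adm.arc (e ▸ gz)
    have ew : S.nw g k = (S.sat g k).w := by rw [nw, A.cur]; rfl
    have lz : z ∈ lo a g := by
      rcases ha with rfl | rfl <;> simp [lo, gz]
    have t3 := (S.sat g k).three
    obtain ⟨i, hi, ez, -⟩ := hz
    rcases (h.form c).1 with ⟨f1, f2, f3, -, f5, f6⟩ | ⟨f1, f2, f3, -, f5, f6⟩ |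
      ⟨j, -, -, -, -, -, f3, -, f6⟩ | ⟨j, -, -, -, -, -, f3, -, f6⟩
    · rcases i with _ | i
      · obtain rfl : (S.sat g k).w = z := f5.symm.trans ez
        refine .inr ⟨f1, lz, _, A.adm.arc (i := 0) ?_, (adj_zero _).thd.1⟩
        rw [A.adm.2.1 0 (m_pos _), ← gz, ← ew, f2]
      · exact .inl (old i ((f6 i (by omega)).symm.trans ez))
    · rcases (Nat.lt_succ_iff.1 (f3 ▸ hi)).lt_or_eq with hi | rfl
      · exact .inl (old i ((f6 i hi).symm.trans ez))
      · obtain rfl : (S.sat g k).w = z := f5.symm.trans ez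
        refine .inr ⟨f1, lz, _, A.adm.arc (i := (S.sat g k).n - 1) ?_, (adj_zero _).thd.2⟩
        have := (S.sat g k).m_lt
        rw [A.adm.2.2 _ (by omega) (by omega), ← gz, ← ew, f2]
    · exact .inl (old _ ((f6 i (by omega)).symm.trans ez))
    · exact .inl (old _ ((f6 i (by omega)).symm.trans ez))
  · have h := hξ.of_mem hg
    by_cases c : k < S.K g
    swap
    · exact .inl (if_neg c)
    rw [Rk, Zk, if_pos c, if_pos c]
    refine .inr ⟨(S.sat g k).D.wall, rfl, fun z ⟨i, _, e, _⟩ => ⟨i, e⟩, ?_, fun i0 i1 T hT => ?_⟩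
    · rintro _ ⟨i, hi, rfl, h1⟩ _ ⟨j, hj, rfl, h2⟩
      rcases le_total i j with e | e
      · exact arc_conn _ a e hj h1 h2
      · exact (arc_conn _ a e hi h2 h1).symm
    have dep : Dep (S.sat g k).R
        {g' | Fj.Att ((S.sat g k).arc a) ((S.sat g k).R ∩ lo a g') T} := by
      rintro x y e ⟨z, hz, u, hu, t, ht, p⟩
      exact ⟨z, hz, u, hu, t, ht, p.mono fun v hv => ⟨hv.1, by
        have := hv.2
        simp only [lo, mem_ofPred_eq, e v hv.1] at this
        exact this⟩⟩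
    have m := markov hξ hg c dep.ind
    rw [← pr_eq, ← pr_eq] at m
    refine (le_of_eq m).trans ?_
    have G := H _ (S.sat g k).xi i0 i1 _ T (fun v _ => xi_two _ v) hT
    have n : ∀ i, (S.sat g k).c i ∉ (S.sat g k).arc a → (S.sat g k).xi ((S.sat g k).c i) = 1 - a :=
      fun i hi => by
        have := mt ((xi_adm _).arc (a := a)) hi
        have := xi_two (S.sat g k) ((S.sat g k).c i)
        omega
    rcases ha with rfl | rfl
    · simp only [lo, if_true]
      exact G.1 n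
    · simp only [lo, one_ne_zero, if_false]
      exact G.2 n

end St

end Pool.Agent.Lib.MP_6359c9_pr.Xp
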