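import Pool.Agent.Lib.MP_6359c9_pr.UnA

/-! Charts: inverse, uniqueness, scaling, reversal, the two arcs. -/

namespace Pool.Agent.Lib.MP_6359c9_pr

open Set Filter Topology Bornology Metric Complex ComplexConjugate Pool.Agent.Lib.MP_1e9af3_an Lw Un

namespace Un

lemma ultra (F : Ultrafilter ℂ) : (F : Filter ℂ) ≤ cobounded ℂ ∨ ∃ w, (F : Filter ℂ) ≤ 𝓝 w := by
  rw [or_iff_not_imp_left, cobounded_eq_cocompact, hasBasis_cocompact.ge_iff]
  intro h
  push Not at h
  obtain ⟨K, hK, h⟩ := h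
  obtain ⟨w, -, hw⟩ := hK.ultrafilter_le_nhds F
    (le_principal_iff.2 (Ultrafilter.compl_notMem_iff.1 h))
  exact ⟨w, hw⟩

lemma neBot_inf : (cobounded ℂ ⊓ 𝓟 UH).NeBot := (tendsto_up 0).neBot

lemma neBot_UH {z : ℂ} (h : z ∈ UC) : (𝓝[UH] z).NeBot :=
  mem_closure_iff_nhdsWithin_neBot.1 (closure_UH h)

/-- automorphisms of the half plane that fix zero and infinity -/
lemma aut {m : ℂ → ℂ} (hd : DifferentiableOn ℂ m UH) (hb : BijOn m UH UH)
    (h0 : Tendsto m (𝓝[UH] 0) (𝓝 0)) (h1 : Tendsto m (cobounded ℂ ⊓ 𝓟 UH) (cobounded ℂ)) :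
    ∃ c : ℝ, 0 < c ∧ ∀ z ∈ UH, m z = c * z := by
  have hI : I ∈ UH := mem_UH.2 (by simp)
  have hw := hb.mapsTo hI
  set w := m I with hwd
  have cd : ∀ v ∈ UH, DifferentiableOn ℂ (cay v) UH := fun v hv z hz =>
    (cay_diff (cay_den hv (UH_sub hz))).differentiableWithinAt
  have b1 := cay_bij hI
  set k := Function.invFunOn (cay I) UH
  have k1 : ∀ z ∈ UH, k (cay I z) = z := fun z hz => b1.injOn.leftInvOn_invFunOn hz
  have kb : BijOn k (ball 0 1) UH :=
    BijOn.symm (f := cay I) (g := k) ⟨fun z hz => Function.invFunOn_eq (b1.surjOn hz), k1⟩ b1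
  have kd : DifferentiableOn ℂ k (ball 0 1) := fun ζ h => by
    obtain ⟨z, hz, rfl⟩ := b1.surjOn h
    exact (inv_analyticAt isOpen_UH (cd I hI) b1.injOn k1 hz).differentiableAt.differentiableWithinAt
  set f := cay w ∘ m ∘ k with hf
  have fb : BijOn f (ball 0 1) (ball 0 1) := (cay_bij hw).comp (hb.comp kb)
  have fd : DifferentiableOn ℂ f (ball 0 1) :=
    (cd w hw).comp (hd.comp kd kb.mapsTo) (hb.comp kb).mapsTo
  have fe : ∀ z ∈ UH, f (cay I z) = cay w (m z) := fun z hz => by simp [hf, k1 z hz]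
  have f0 : f 0 = 0 := by simpa [cay, ← hwd] using fe I hI
  set g := Function.invFunOn f (ball 0 1)
  have g1 : ∀ z ∈ ball (0 : ℂ) 1, g (f z) = z := fun z hz => fb.injOn.leftInvOn_invFunOn hz
  have gd : DifferentiableOn ℂ g (ball 0 1) := fun ζ h => by
    obtain ⟨z, hz, rfl⟩ := fb.surjOn h
    exact (inv_analyticAt isOpen_ball fd fb.injOn g1 hz).differentiableAt.differentiableWithinAt
  have g0 : g 0 = 0 := by simpa only [f0] using g1 0 (mem_ball_self one_pos)
  have hz : (1 / 2 : ℂ) ∈ ball (0 : ℂ) 1 := by simp; norm_num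
  have fm : MapsTo f (ball 0 1) (closedBall 0 1) := fb.mapsTo.mono_right ball_subset_closedBall
  have n1 := norm_le_norm_of_mapsTo_ball fd fm f0 (mem_ball_zero_iff.1 hz)
  have n2 := norm_le_norm_of_mapsTo_ball gd (fun ζ h => ball_subset_closedBall
    (Function.invFunOn_mem (fb.surjOn h))) g0 (mem_ball_zero_iff.1 (fb.mapsTo hz))
  rw [g1 _ hz] at n2
  obtain ⟨u, -, hu⟩ := affine_of_mapsTo_ball_of_exists_norm_dslope_eq_div' (R₂ := 1) fd
    (by rwa [f0]) ⟨_, hz, by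
      rw [dslope_of_ne _ (by norm_num), slope_def_field, f0, sub_zero, sub_zero, norm_div,
        le_antisymm n1 n2, div_self (by simp), div_one]⟩
  have e1 : ∀ z ∈ UH, cay w (m z) = cay I z * u := fun z hz => by
    rw [← fe z hz, hu (b1.mapsTo hz)]; simp [f0]
  have := neBot_inf
  have u1 : u = 1 := by
    have a1 := (cay_lim w).comp h1
    have a2 := ((cay_lim I).mul_const u).mono_left (inf_le_left (b := 𝓟 UH))
    rw [one_mul] at a2
    exact tendsto_nhds_unique (a2.congr' (ev_iff.2 ⟨0, fun z hz _ => (e1 z hz).symm⟩)) a1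
  have e2 : ∀ z ∈ UH, m z = w.re + w.im * z := fun z hz => by
    have h2 : (w.re + w.im * z : ℂ) ∈ UH := mem_UH.2 (by
      simpa using mul_pos (mem_UH.1 hw) (mem_UH.1 hz))
    refine cay_inj hw (UH_sub (hb.mapsTo hz)) (UH_sub h2) ?_
    rw [e1 z hz, u1, mul_one, cay, cay, div_eq_div_iff (cay_den hI (UH_sub hz))
      (cay_den hw (UH_sub h2))]
    have a1 : conj w = w.re - w.im * I := by apply Complex.ext <;> simp
    rw [a1, conj_I]
    linear_combination (z + I) * (re_add_im w).symm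
  have := neBot_UH zero_UC
  have a3 : Tendsto (fun z : ℂ => (w.re + w.im * z : ℂ)) (𝓝[UH] 0) (𝓝 (w.re + w.im * 0)) :=
    (Continuous.tendsto (by fun_prop) 0).mono_left nhdsWithin_le_nhds
  have a4 := tendsto_nhds_unique (a3.congr' (eventually_nhdsWithin_of_forall
    fun z hz => (e2 z hz).symm)) h0
  rw [mul_zero, add_zero] at a4
  exact ⟨w.im, hw, fun z hz => by rw [e2 z hz, a4, zero_add]⟩

end Un

namespace Chart

variable {D : Set ℂ} {a b : ℂ} {Ψ : ℂ → ℂ} (h : Chart D a b Ψ)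
include h

lemma injH : InjOn Ψ UH := h.inj.mono UH_sub

lemma bij : BijOn Ψ UH D := h.img ▸ h.injH.bijOn_image

lemma isOpen : IsOpen D := h.img ▸ isOpen_image_of_injOn isOpen_UH h.hol h.injH isOpen_UH subset_rfl

lemma ab : a ≠ b := h.zero ▸ h.ne 0 zero_UC

lemma real_fr (x : ℝ) : Ψ x ∈ frontier D := h.bd ▸ Or.inr ⟨x, rfl⟩

lemma b_fr : b ∈ frontier D := h.bd ▸ Or.inl rfl

lemma a_fr : a ∈ frontier D := by simpa [h.zero] using h.real_fr 0

lemma closure_eq : closure D = insert b (Ψ '' UC) := by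
  rw [closure_eq_self_union_frontier, h.bd, union_insert]
  congr 1
  refine Subset.antisymm (union_subset (h.img ▸ image_mono UH_sub) ?_) ?_
  · rintro _ ⟨x, rfl⟩; exact ⟨x, real_UC x, rfl⟩
  · rintro _ ⟨z, hz, rfl⟩
    rcases UC_cases hz with h1 | ⟨x, rfl⟩
    exacts [Or.inl (h.bij.mapsTo h1), Or.inr ⟨x, rfl⟩]

/-- the inverse of a chart, also on the boundary -/
noncomputable def inv (_ : Chart D a b Ψ) : ℂ → ℂ := Function.invFunOn Ψ UC

lemma inv_map {z : ℂ} (hz : z ∈ UC) : h.inv (Ψ z) = z := h.inj.leftInvOn_invFunOn hz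

lemma map_inv {w : ℂ} (hw : w ∈ Ψ '' UC) : Ψ (h.inv w) = w := Function.invFunOn_eq hw

lemma inv_mem {w : ℂ} (hw : w ∈ Ψ '' UC) : h.inv w ∈ UC := Function.invFunOn_mem hw

/-- cluster values of the inverse -/
lemma inv_ultra {p : ℂ} {F : Ultrafilter ℂ} (hF : (F : Filter ℂ) ≤ 𝓝[Ψ '' UC] p) :
    (p = b ∧ Tendsto h.inv F (cobounded ℂ)) ∨ ∃ w ∈ UC, Ψ w = p ∧ Tendsto h.inv F (𝓝 w) := by
  have hm : ∀ᶠ z in (F : Filter ℂ), z ∈ Ψ '' UC := hF self_mem_nhdsWithin
  have hU : Tendsto h.inv F (𝓟 UC) := tendsto_principal.2 (hm.mono fun z => h.inv_mem)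
  have key : ∀ q, Tendsto (Ψ ∘ h.inv) F (𝓝 q) → p = q := fun q hq =>
    tendsto_nhds_unique (tendsto_id.mono_left (hF.trans nhdsWithin_le_nhds))
      (hq.congr' (hm.mono fun z hz => h.map_inv hz))
  rcases ultra (F.map h.inv) with h1 | ⟨w, h1⟩
  · exact Or.inl ⟨key b (h.inf.comp (tendsto_inf.2 ⟨h1, hU⟩)), h1⟩
  · have hw : w ∈ UC := isClosed_UC.mem_of_tendsto (f := h.inv) (b := F) h1 (tendsto_principal.1 hU)
    exact Or.inr ⟨w, hw, (key _ ((h.cont w hw).tendsto.comp (tendsto_inf.2 ⟨h1, hU⟩))).symm, h1⟩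

lemma inv_cont : ContinuousOn h.inv (Ψ '' UC) := by
  rintro _ ⟨z, hz, rfl⟩
  refine (tendsto_iff_ultrafilter _ _ _).2 fun F hF => ?_
  rcases h.inv_ultra hF with ⟨h1, -⟩ | ⟨w, hw, h1, h2⟩
  · exact absurd h1 (h.ne z hz)
  · rwa [h.inv_map hz, ← h.inj hw hz h1]

lemma inv_inf : Tendsto h.inv (𝓝[Ψ '' UC] b) (cobounded ℂ) := by
  refine (tendsto_iff_ultrafilter _ _ _).2 fun F hF => ?_
  rcases h.inv_ultra hF with ⟨-, h1⟩ | ⟨w, hw, h1, -⟩
  · exact h1
  · exact absurd h1 (h.ne w hw)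

lemma sub_img : D ⊆ Ψ '' UC := h.img ▸ image_mono UH_sub

theorem phi : Phi D a b h.inv := by
  have k1 : ∀ z ∈ UH, h.inv (Ψ z) = z := fun z hz => h.inv_map (UH_sub hz)
  refine ⟨fun w hw => ?_, BijOn.symm (f := Ψ) (g := h.inv)
    ⟨fun w hw => h.map_inv (h.sub_img hw), k1⟩ h.bij, ?_,
    h.inv_inf.mono_left (nhdsWithin_mono _ h.sub_img)⟩
  · obtain ⟨z, hz, rfl⟩ := h.bij.surjOn hw
    exact (inv_analyticAt isOpen_UH h.hol h.injH k1 hz).differentiableAt.differentiableWithinAt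
  · have := (h.inv_cont _ ⟨0, zero_UC, rfl⟩).mono h.sub_img
    rwa [ContinuousWithinAt, h.inv_map zero_UC, h.zero] at this

theorem scale {c : ℝ} (hc : 0 < c) : Chart D a b fun z => Ψ (c * z) := by
  have c0 : (c : ℂ) ≠ 0 := ofReal_ne_zero.2 hc.ne'
  have m1 : MapsTo (fun z : ℂ => c * z) UC UC := fun z hz => by
    simpa [UC] using mul_nonneg hc.le hz
  have m2 : MapsTo (fun z : ℂ => c * z) UH UH := fun z hz => by
    simpa [UH] using mul_pos hc hz
  refine ⟨h.cont.comp (by fun_prop) m1, fun u hu v hv e =>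
    mul_left_cancel₀ c0 (h.inj (m1 hu) (m1 hv) e), h.hol.comp (by fun_prop) m2, ?_,
    by simp [h.zero], h.inf.comp (tendsto_inf.2 ⟨(tendsto_mul_left_cobounded c0).mono_left
      inf_le_left, tendsto_principal.2 (eventually_inf_principal.2 (Eventually.of_forall m1))⟩),
    fun z hz => h.ne _ (m1 hz), ?_⟩
  · rw [← h.img]
    refine Subset.antisymm (by rintro _ ⟨z, hz, rfl⟩; exact ⟨_, m2 hz, rfl⟩) ?_
    rintro _ ⟨z, hz, rfl⟩
    exact ⟨z / c, by simpa [UH, div_ofReal_im] using div_pos hz hc, by simp [mul_div_cancel₀ _ c0]⟩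
  · rw [h.bd]
    congr 1
    refine Subset.antisymm ?_ ?_ <;> rintro _ ⟨x, rfl⟩
    · exact ⟨x / c, by simp [mul_div_cancel₀ _ c0]⟩
    · exact ⟨c * x, by simp⟩

/-- every conformal map with the two boundary limits is the inverse of a chart -/
theorem of_phi {φ : ℂ → ℂ} (hφ : Phi D a b φ) :
    ∃ Ψ', Chart D a b Ψ' ∧ (∀ w ∈ D, Ψ' (φ w) = w) ∧ ∀ z ∈ UH, φ (Ψ' z) = z := by
  have hm : ∀ l : Filter ℂ, Tendsto Ψ (l ⊓ 𝓟 UH) (𝓟 D) := fun l =>
    tendsto_principal.2 (eventually_inf_principal.2 (Eventually.of_forall h.bij.mapsTo))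
  obtain ⟨c, hc, e⟩ := aut (m := φ ∘ Ψ) (hφ.hol.comp h.hol h.bij.mapsTo) (hφ.bij.comp h.bij)
    (hφ.zero.comp (tendsto_inf.2 ⟨h.zero ▸ ((h.cont 0 zero_UC).mono UH_sub).tendsto, hm _⟩))
    (hφ.inf.comp (tendsto_inf.2 ⟨h.inf.mono_left (inf_le_inf_left _ (principal_mono.2 UH_sub)),
      hm _⟩))
  have c0 : (c : ℂ) ≠ 0 := ofReal_ne_zero.2 hc.ne'
  have e1 : ∀ w ∈ D, Ψ ((c⁻¹ : ℝ) * φ w) = w := fun w hw => by
    obtain ⟨z, hz, rfl⟩ := h.bij.surjOn hw
    rw [show φ (Ψ z) = c * z from e z hz, ofReal_inv, inv_mul_cancel_left₀ c0]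
  refine ⟨_, h.scale (inv_pos.2 hc), e1, fun z hz => ?_⟩
  obtain ⟨w, hw, rfl⟩ := hφ.bij.surjOn hz
  rw [e1 w hw]

open Classical in
/-- the chart of the reversed pair -/
theorem rev : Chart D b a fun z => if z = 0 then b else Ψ (-z⁻¹) := by
  have m1 : MapsTo (fun z : ℂ => -z⁻¹) UC UC := fun z hz => by
    simpa [UC, neg_div] using div_nonneg hz (normSq_nonneg z)
  have n0 : ∀ z ∈ UH, z ≠ 0 := fun z hz e => by simp [e, UH] at hz
  have m2 : MapsTo (fun z : ℂ => -z⁻¹) UH UH := fun z hz => by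
    simpa [UH, neg_div] using div_pos hz (normSq_pos.2 (n0 z hz))
  have c1 : ∀ z ∈ UC, z ≠ 0 → ContinuousWithinAt (fun z : ℂ => Ψ (-z⁻¹)) UC z := fun z hz e =>
    ContinuousWithinAt.comp (f := fun z : ℂ => -z⁻¹) (h.cont _ (m1 hz))
      (continuousAt_inv₀ e).neg.continuousWithinAt m1
  refine ⟨fun z hz => ?_, fun u hu v hv e => ?_, ?_, ?_, if_pos rfl, ?_, fun z hz => ?_, ?_⟩
  · by_cases e : z = 0
    · subst e
      rw [← continuousWithinAt_sdiff_self, ContinuousWithinAt, if_pos rfl]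
      refine Tendsto.congr' (eventually_nhdsWithin_of_forall fun z hz => (if_neg hz.2).symm)
        (h.inf.comp (tendsto_inf.2 ⟨?_, tendsto_principal.2
          (eventually_nhdsWithin_of_forall fun z hz => m1 hz.1)⟩))
      exact tendsto_neg_cobounded.comp (tendsto_inv₀_nhdsNE_zero.mono_left
        (nhdsWithin_mono _ fun z hz => hz.2))
    · refine (c1 z hz e).congr_of_eventuallyEq ?_ (if_neg e)
      filter_upwards [nhdsWithin_le_nhds (isOpen_ne.mem_nhds e)] with v hv using if_neg hv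
  · by_cases e1 : u = 0 <;> by_cases e2 : v = 0 <;> simp only [e1, e2, if_true, if_false] at e
    · rw [e1, e2]
    · exact absurd e.symm (h.ne _ (m1 hv))
    · exact absurd e (h.ne _ (m1 hu))
    · exact inv_injective (neg_injective (h.inj (m1 hu) (m1 hv) e))
  · exact (h.hol.comp (fun z hz => (differentiableAt_inv (n0 z hz)).neg.differentiableWithinAt)
      m2).congr fun z hz => if_neg (n0 z hz)
  · rw [← h.img]
    refine Subset.antisymm ?_ ?_ <;> rintro _ ⟨z, hz, rfl⟩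
    · exact ⟨_, m2 hz, (if_neg (n0 z hz)).symm⟩
    · exact ⟨_, m2 hz, by simp [n0 z hz]⟩
  · refine Tendsto.congr' (f₁ := fun z => Ψ (-z⁻¹)) (((eventually_ne_cobounded 0).filter_mono
      inf_le_left).mono fun z hz => (if_neg hz).symm) ?_
    rw [← h.zero]
    refine (h.cont 0 zero_UC).tendsto.comp (tendsto_inf.2 ⟨?_, tendsto_principal.2
      (eventually_inf_principal.2 (Eventually.of_forall m1))⟩)
    simpa using (tendsto_inv₀_cobounded (α := ℂ)).neg.mono_left inf_le_left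
  · split_ifs with e
    · exact h.ab.symm
    · exact fun e' => e (by simpa using h.inj (m1 hz) zero_UC (e'.trans h.zero.symm))
  · refine Subset.antisymm ?_ (insert_subset h.a_fr ?_)
    · rw [h.bd]
      rintro _ (rfl | ⟨x, rfl⟩)
      · exact Or.inr ⟨0, by simp⟩
      · by_cases e : x = 0
        · exact Or.inl (by simp [e, h.zero])
        · exact Or.inr ⟨-x⁻¹, by simp [e]⟩
    · rintro _ ⟨x, rfl⟩
      simp only
      split_ifs
      · exact h.b_fr
      · simpa using h.real_fr (-x⁻¹)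

/-- the two half lines go to the two arcs -/
theorem sides {A B : Set ℂ} (hA : A.Nonempty) (hB : B.Nonempty)
    (hu : frontier D \ {a, b} = A ∪ B) (h1 : Disjoint (closure A) B) (h2 : Disjoint A (closure B)) :
    ((fun x : ℝ => Ψ x) '' Ioi 0 = A ∧ (fun x : ℝ => Ψ x) '' Iio 0 = B) ∨
      ((fun x : ℝ => Ψ x) '' Ioi 0 = B ∧ (fun x : ℝ => Ψ x) '' Iio 0 = A) := by
  set f := fun x : ℝ => Ψ x with hf
  have fc : Continuous f := h.cont.comp_continuous continuous_ofReal real_UC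
  have dj : Disjoint A B := h1.mono_left subset_closure
  have e : f '' Ioi 0 ∪ f '' Iio 0 = A ∪ B := by
    rw [← hu, ← image_union]
    refine Subset.antisymm ?_ ?_
    · rintro _ ⟨x, hx, rfl⟩
      refine ⟨h.real_fr x, ?_⟩
      rintro (e | e)
      · have : x = 0 := by simpa using h.inj (real_UC x) zero_UC (e.trans h.zero.symm)
        simp [this] at hx
      · exact h.ne _ (real_UC x) e
    · rw [h.bd]
      rintro _ ⟨rfl | ⟨x, rfl⟩, h3⟩
      · exact absurd (Or.inr rfl) h3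
      · have : x ≠ 0 := fun e => h3 (Or.inl (by simp [e, h.zero]))
        exact ⟨x, this.lt_or_gt.symm, rfl⟩
  have key : ∀ s : Set ℝ, IsPreconnected s → f '' s ⊆ A ∪ B → f '' s ⊆ A ∨ f '' s ⊆ B := by
    intro s hs hsub
    rcases isPreconnected_iff_subset_of_disjoint_closed.1 (hs.image f fc.continuousOn) _ _
      isClosed_closure isClosed_closure (hsub.trans (union_subset_union subset_closure
        subset_closure)) (eq_empty_of_forall_notMem fun z hz => (hsub hz.1).elim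
          (fun h3 => disjoint_left.1 h2 h3 hz.2.2) fun h3 => disjoint_left.1 h1 hz.2.1 h3)
      with h3 | h3
    · exact Or.inl fun z hz => (hsub hz).resolve_right (disjoint_left.1 h1 (h3 hz))
    · exact Or.inr fun z hz => (hsub hz).resolve_left fun h4 => disjoint_left.1 h2 h4 (h3 hz)
  have fin : ∀ {X Y A B : Set ℂ}, X ∪ Y = A ∪ B → Disjoint A B → X ⊆ A → Y ⊆ B → X = A ∧ Y = B :=
    fun e dj h3 h4 => ⟨h3.antisymm fun z hz => (e.ge (Or.inl hz)).resolve_right
      fun h5 => disjoint_left.1 dj hz (h4 h5), h4.antisymm fun z hz =>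
      (e.ge (Or.inr hz)).resolve_left fun h5 => disjoint_left.1 dj (h3 h5) hz⟩
  rcases key _ isPreconnected_Ioi (subset_union_left.trans e.le) with h3 | h3 <;>
    rcases key _ isPreconnected_Iio (subset_union_right.trans e.le) with h4 | h4
  · obtain ⟨z, hz⟩ := hB
    exact absurd hz (disjoint_left.1 dj (union_subset h3 h4 (e.ge (Or.inr hz))))
  · exact Or.inl (fin e dj h3 h4)
  · exact Or.inr (fin (e.trans (union_comm _ _)) dj.symm h3 h4)
  · obtain ⟨z, hz⟩ := hA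
    exact absurd (union_subset h3 h4 (e.ge (Or.inl hz))) (disjoint_left.1 dj hz)

end Chart

end Pool.Agent.Lib.MP_6359c9_pr
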