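import Pool.Agent.Lib.MP_6359c9_pr.SlSpec
import Pool.Agent.Lib.MP_6359c9_pr.UnB
import Pool.Agent.Lib.MP_6359c9_pr.ExFj

/-! The fjord estimate for the level line. -/

namespace Pool.Agent.Lib.MP_6359c9_pr

open Set Filter Xp

/-- the chart of the vertices in the unit disc -/
noncomputable def Sett.Φ (A : Sett) (n : ℕ) (v : V) : ℂ :=
  Un.cay Complex.I ((A.chart n).inv (pos (A.δ n) v))

/-- the charts have small mesh and bounded area -/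
def ChartSt : Prop := ∀ A : Sett, ∃ C : ℝ, ∀ ω > (0 : ℝ), ∀ᶠ n in atTop, ∃ (e : V → ℝ) (ω' : ℝ),
  0 < ω' ∧ ω' ≤ ω ∧ Fj.Chart (A.X n).fin_R.toFinset (A.Φ n) e C ω'

/-- the exploration does not enter fjords -/
def FjUse : Prop := ∀ (A : Sett) (ε ρ : ℝ), 0 < ε → 0 < ρ → ∃ η > (0 : ℝ), ∀ᶠ n in atTop,
  ∀ a : ℤ, a = 0 ∨ a = 1 → Pr (A.S n) (Fj.Bad (A.X n).Rk ((A.X n).Zk a) (A.Φ n) η ρ) ≤ ε

theorem fjUse (hF : Fj.FjSt) (hG : Fj.GateSt) (hC : ChartSt) : FjUse := fun A ε ρ hε hρ => by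
  obtain ⟨η0, h0, hF⟩ := hF
  obtain ⟨l, hl, H⟩ := St.ch hG h0
  obtain ⟨C, hC⟩ := hC A
  obtain ⟨η, hη, ω, hω, F⟩ := hF l C ε ρ hl hε hρ
  refine ⟨η, hη, (hC ω hω).mono fun n ⟨e, ω', h1, h2, h3⟩ a ha => ?_⟩
  obtain ⟨N, c⟩ := H _ (A.X n) _ (A.of n).adm a ha
  rw [(A.of n).R] at c
  refine F _ _ _ _ _ _ _ N _ _ e ω' c (fun g _ v hv => ?_) h1 h2 h3
  rw [St.Rk] at hv
  split_ifs at hv
  · exact (Finite.mem_toFinset _).2 hv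
  · exact hv.elim

end Pool.Agent.Lib.MP_6359c9_pr
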