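import Pool.Agent.Lib.MP_6359c9_pr.ChC
import Pool.Agent.Lib.MP_6359c9_pr.SlFj

/-! The chart data in the form used by the fjord estimate. -/

namespace Pool.Agent.Lib.MP_6359c9_pr

open Set Filter

lemma Fj.Chart.congr {R0 : Finset V} {Φ Φ' : V → ℂ} {e : V → ℝ} {C ω : ℝ}
    (h : Fj.Chart R0 Φ e C ω) (k : ∀ v ∈ R0, Φ' v = Φ v) : Fj.Chart R0 Φ' e C ω := by
  have esc : ∀ {S T : Set V} {v}, Fj.Esc R0 S v → (∀ x ∈ R0, x ∈ S → x ∈ T) → Fj.Esc R0 T v :=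
    fun ⟨u, w, a1, a2, a3, a4⟩ hs => ⟨u, w, a1.mono fun x hx => ⟨hx.1, hs x hx.1 hx.2⟩, a2, a3,
      fun x hx e => hs x hx (a4 x hx e)⟩
  refine ⟨fun v hv => k v hv ▸ h.disc v hv, h.pos, h.small,
    fun u hu v hv a => by rw [k u hu, k v hv]; exact h.lip u hu v hv a, fun y s hs => ?_,
    fun v hv => esc (h.re v hv) fun x hx a => by simpa only [mem_ofPred_eq, k x hx, k v hv] using a,
    fun v hv => esc (h.im v hv) fun x hx a => by simpa only [mem_ofPred_eq, k x hx, k v hv] using a⟩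
  rw [Finset.filter_congr (q := fun v => ‖Φ v - y‖ ≤ s) fun v hv => by rw [k v hv]]
  exact h.area y s hs

theorem chartSt : ChartSt := fun A => ⟨2 ^ 18, fun ω hω => (A.fj_chart hω).mono fun n ⟨e, h⟩ => by
  have e1 : (A.X n).fin_R.toFinset = A.R0 n :=
    Finset.coe_injective (by rw [Finite.coe_toFinset, A.coe_R0, (A.of n).R])
  refine ⟨e, ω, hω, le_rfl, e1 ▸ h.congr fun v hv => ?_⟩
  have : v ∈ (A.Q n).R := by rwa [← A.coe_R0]
  exact ((A.chart n).dc_eq ((A.chart n).sub_img this)).symm⟩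

end Pool.Agent.Lib.MP_6359c9_pr
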