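import Pool.Agent.Lib.MP_6359c9_pr.SpMain

/-! Comparison of the red spins near a rough wall with the double minus model in a full box. -/

namespace Pool.Agent.Lib.MP_6359c9_pr

open Set

/-- the product formula for a subgroup and a coset, through a homomorphism -/
theorem card_mul_le' {Γ : Type} [AddCommGroup Γ] {A B C D : Set Γ} (φ : Γ →+ Γ) (hC : C.Finite)
    (hD : D.Finite) (hA : ∀ a ∈ A, ∀ b ∈ A, a - b ∈ A) (h1 : ∀ a ∈ A, ∀ b ∈ B, b - φ a ∈ C)
    (h2 : ∀ a ∈ A, ∀ b ∈ B, ∀ b' ∈ B, φ a = b - b' → a ∈ D) :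
    A.ncard * B.ncard ≤ D.ncard * C.ncard := by
  classical
  have : ∀ c : Γ, ∃ s : Γ, (∃ a ∈ A, c + φ a ∈ B) → s ∈ A ∧ c + φ s ∈ B := fun c => by
    by_cases h : ∃ a ∈ A, c + φ a ∈ B
    · obtain ⟨a, ha⟩ := h
      exact ⟨a, fun _ => ha⟩
    · exact ⟨0, fun h' => absurd h' h⟩
  choose s hs using this
  rw [← Set.ncard_prod, ← Set.ncard_prod]
  refine Set.ncard_le_ncard_of_injOn (fun p => (p.1 - s (p.2 - φ p.1), p.2 - φ p.1)) ?_ ?_
    (hD.prod hC)
  · rintro ⟨a, b⟩ ⟨ha, hb⟩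
    obtain ⟨s1, s2⟩ := hs (b - φ a) ⟨a, ha, by simpa using hb⟩
    refine ⟨h2 _ (hA _ ha _ s1) b hb _ s2 ?_, h1 a ha b hb⟩
    rw [map_sub]; abel
  · rintro ⟨a, b⟩ - ⟨a', b'⟩ - h
    simp only [Prod.mk.injEq] at h
    obtain ⟨e1, e2⟩ := h
    rw [e2, sub_left_inj] at e1
    subst e1
    rw [sub_left_inj.1 e2]

/-- functions that only change along edges with both ends in `P`, with blue data `β` off `R` -/
def Ab (β : V → Set Bool) (R P : Set V) : Set (V → ZMod 2) :=
  {a | (∀ v, v ∉ R → decide (a v = 0) ∈ β v) ∧ ∀ u v, Adj u v → ¬(u ∈ P ∧ v ∈ P) → a u = a v}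

lemma Ab_finite {β : V → Set Bool} {R F : Set V} (hR : R.Finite) (hF : F.Finite)
    (h : ∀ v, v ∉ F → (β v).Subsingleton) (P : Set V) : (Ab β R P).Finite :=
  (finite_pi (T := fun v => {a : ZMod 2 | v ∉ R → decide (a = 0) ∈ β v}) (hR.union hF)
    (fun _ _ => Set.toFinite _) fun v hv _ ha _ hb => (zm_inj _ _).1
      (h v (fun h => hv (Or.inr h)) (ha fun h => hv (Or.inl h))
        (hb fun h => hv (Or.inl h)))).subset fun _ hc => hc.1

lemma Ab_off {R L : Set V} (h : R ⊆ L) (P : Set V) : Ab (off true L) R P = Kc P L := by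
  ext a
  refine and_congr ⟨fun H v hv => (zm_true _).1 (H v (fun h' => hv (h h')) hv),
    fun H v _ hv => (zm_true _).2 (H v hv)⟩ Iff.rfl

/-- the number of blue configurations compatible with `r`, for red plus off `R` -/
theorem wt_tb {R : Set V} (hR : R.Finite) (hc : CoConn R) {β : V → Set Bool}
    (hβ : ∀ v ∈ R, β v = univ) {r : V → Bool} (hr : ∀ v, v ∉ R → r v = true) :
    wt (Sp (tb β R)) red r = (Ab β R (lev r true)).ncard * (Kc (lev r false) R).ncard := by
  classical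
  obtain ⟨o, ho⟩ := hR.exists_notMem
  have B : BijOn (fun (p : (V → ZMod 2) × (V → ZMod 2)) v => (r v, decide (p.1 v + p.2 v = 0)))
      (Ab β R (lev r true) ×ˢ Kc (lev r false) R) (Sp (tb β R) ∩ {x | red x = r}) := by
    refine ⟨?_, ?_, ?_⟩
    · rintro ⟨a, b⟩ ⟨ha, hb⟩
      dsimp only at ha hb
      refine ⟨⟨fun u v e => ?_, fun v => ⟨?_, hr v⟩⟩, rfl⟩
      · by_cases h : r u = r v
        · exact Or.inl h
        · refine Or.inr ((zm_inj _ _).2 ?_)
          dsimp only
          rw [ha.2 u v e fun h' => h (h'.1.trans h'.2.symm),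
            hb.2 u v e fun h' => h (h'.1.trans h'.2.symm)]
      · by_cases hv : v ∈ R
        · rw [hβ v hv]; trivial
        · simpa only [hb.1 v hv, add_zero] using ha.1 v hv
    · rintro ⟨a, b⟩ ⟨ha, hb⟩ ⟨a', b'⟩ ⟨ha', hb'⟩ e
      dsimp only at ha hb ha' hb'
      have e1 : ∀ v, a v + b v = a' v + b' v := fun v =>
        (zm_inj _ _).1 (congrArg Prod.snd (congrFun e v))
      have e2 : ∀ v, b o - b' o = b v - b' v := fun v =>
        (conn_univ o v).const (f := fun v => b v - b' v) fun x _ y _ xy => by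
          by_cases h : x ∈ lev r false ∧ y ∈ lev r false
          · have h' : ¬(x ∈ lev r true ∧ y ∈ lev r true) := fun h' =>
              Bool.noConfusion (h.1.symm.trans h'.1)
            linear_combination e1 x - e1 y - ha.2 x y xy h' + ha'.2 x y xy h'
          · rw [hb.2 x y xy h, hb'.2 x y xy h]
      have e3 : ∀ v, b v = b' v := fun v => by
        have := e2 v
        rw [hb.1 o ho, hb'.1 o ho, sub_zero] at this
        exact sub_eq_zero.1 this.symm
      refine Prod.ext (funext fun v => ?_) (funext e3)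
      have := e1 v
      rw [e3 v] at this
      exact add_right_cancel this
    · rintro w ⟨hw, rfl⟩
      set c : V → ZMod 2 := fun v => if (w v).2 = true then 0 else 1 with hcd
      have hθ : ∀ u v, Adj u v → (w u).1 ≠ (w v).1 → c u = c v := fun u v e h => by
        simp only [hcd, (hw.1 u v e).resolve_left h]
      obtain ⟨g, hg⟩ := exact
        (fun u v => if (w u).1 = false ∧ (w v).1 = false then c v - c u else 0)
        (fun u v _ => by
          by_cases h1 : (w u).1 = true <;> by_cases h2 : (w v).1 = true <;> simp [h1, h2])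
        fun u v x e1 e2 e3 => by
          have t1 := hθ u v e1
          have t2 := hθ v x e2
          have t3 := hθ u x e3
          by_cases h1 : (w u).1 = true <;> by_cases h2 : (w v).1 = true <;>
            by_cases h3 : (w x).1 = true <;> simp only [h1, h2, h3] at * <;> simp_all
      have g0 : ∀ v, v ∉ R → g v - g o = 0 := fun v hv => by
        rw [← (hc o ho v hv).const (f := g) fun x hx y _ xy => by
          rw [hg x y xy, if_neg fun h => Bool.noConfusion (h.1.symm.trans ((hw.2 x).2 hx)),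
            add_zero], sub_self]
      refine ⟨(fun v => c v - (g v - g o), fun v => g v - g o), ⟨⟨fun v hv => ?_,
        fun u v e h => ?_⟩, g0, fun u v e h => ?_⟩, ?_⟩
      · simp only [g0 v hv, sub_zero, hcd, zm_bool]
        exact (hw.2 v).1
      · simp only
        rw [hg u v e]
        split_ifs with h1
        · ring
        · rw [hθ u v e fun h2 => ?_, add_zero]
          cases h3 : (w u).1
          · exact h1 ⟨h3, h2.symm.trans h3⟩
          · exact h ⟨h3, h2.symm.trans h3⟩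
      · simp only
        rw [hg u v e, if_neg (show ¬((w u).1 = false ∧ (w v).1 = false) from h), add_zero]
      · ext v
        · rfl
        · simp only [sub_add_cancel, hcd, zm_bool]
  rw [wt, ← Set.ncard_prod, ← B.image_eq, B.injOn.ncard_image]

open Classical in
/-- restriction to `O` -/
noncomputable def cut (O : Set V) : (V → ZMod 2) →+ (V → ZMod 2) where
  toFun a := O.indicator a
  map_zero' := indicator_zero' _
  map_add' a b := indicator_add' _ a b

lemma cut_in {O : Set V} (a : V → ZMod 2) {v : V} (h : v ∈ O) : cut O a v = a v :=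
  indicator_of_mem h a

lemma cut_out {O : Set V} (a : V → ZMod 2) {v : V} (h : v ∉ O) : cut O a v = 0 :=
  indicator_of_notMem h a

/-- the restriction only changes along edges of `Q` -/
lemma cut_edge {O P Q Z Y : Set V} {a : V → ZMod 2}
    (ha : ∀ u v, Adj u v → ¬(u ∈ P ∧ v ∈ P) → a u = a v) (hz : ∀ v, v ∉ Z → a v = 0)
    (hP : ∀ v ∈ O, v ∈ P → v ∈ Q) (hY : ∀ v, v ∉ Y → v ∈ Q)
    (hO : ∀ u ∈ O, ∀ v, Adj u v → (u ∈ Z ∨ v ∈ Z) → (u ∈ Y ∨ v ∈ Y) → v ∈ O) (u v : V)
    (e : Adj u v) (h : ¬(u ∈ Q ∧ v ∈ Q)) : cut O a u = cut O a v := by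
  have k : ∀ u v, Adj u v → ¬(u ∈ Q ∧ v ∈ Q) → u ∈ O → v ∉ O → cut O a u = cut O a v := by
    intro u v e h hu hv
    rw [cut_in a hu, cut_out a hv]
    refine hz u fun h1 => hv (hO u hu v e (Or.inl h1) ?_)
    by_contra h2
    exact h ⟨hY u fun h => h2 (Or.inl h), hY v fun h => h2 (Or.inr h)⟩
  by_cases hu : u ∈ O <;> by_cases hv : v ∈ O
  · rw [cut_in a hu, cut_in a hv]
    exact ha u v e fun h' => h ⟨hP u hu h'.1, hP v hv h'.2⟩
  · exact k u v e h hu hv
  · exact (k v u e.symm (fun h' => h h'.symm) hv hu).symm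
  · rw [cut_out a hu, cut_out a hv]

/-- if the restriction does not change along an edge that meets `I`, the function does not -/
lemma cut_back {O P P1 P2 I : Set V} {a c : V → ZMod 2} (hc : cut O a = c)
    (h1 : ∀ u v, Adj u v → ¬(u ∈ P1 ∧ v ∈ P1) → a u = a v)
    (h2 : ∀ u v, Adj u v → ¬(u ∈ P2 ∧ v ∈ P2) → c u = c v)
    (hI : ∀ u ∈ I, u ∈ O ∧ ∀ v, Adj u v → v ∈ O) (hP : ∀ v ∈ P1, (v ∈ I → v ∈ P2) → v ∈ P)
    (u v : V) (e : Adj u v) (h : ¬(u ∈ P ∧ v ∈ P)) : a u = a v := by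
  by_contra n
  have k1 : u ∈ P1 ∧ v ∈ P1 := by
    by_contra k
    exact n (h1 u v e k)
  have k2 : u ∈ O → v ∈ O → u ∈ P2 ∧ v ∈ P2 := fun hu hv => by
    by_contra k
    have := h2 u v e k
    rw [← hc, cut_in a hu, cut_in a hv] at this
    exact n this
  exact h ⟨hP u k1.1 fun hu => (k2 (hI u hu).1 ((hI u hu).2 v e)).1,
    hP v k1.2 fun hv => (k2 ((hI v hv).2 u e.symm) (hI v hv).1).2⟩

open Classical in
/-- the values `x` on `I` and `r` elsewhere -/
noncomputable def glu (I : Set V) (x r : V → Bool) : V → Bool := fun v => if v ∈ I then x v else r v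

lemma glu_in {I : Set V} (x r : V → Bool) {v : V} (h : v ∈ I) : glu I x r v = x v := if_pos h

lemma glu_out {I : Set V} (x r : V → Bool) {v : V} (h : v ∉ I) : glu I x r v = r v := if_neg h

/-- the counting inequality behind the comparison -/
theorem cmp_card {R U L O I F : Set V} {β : V → Set Bool} (hR : R.Finite) (hU : U.Finite)
    (hL : L.Finite) (hRL : R ⊆ L) (hF : F.Finite) (hβ : ∀ v, v ∉ F → (β v).Subsingleton)
    (hb : ∀ v ∈ O, v ∈ U → β v = univ) (hI : ∀ v, v ∈ I ↔ v ∈ O ∧ v ∈ R ∧ v ∈ U)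
    (hO : ∀ u ∈ O, ∀ v, Adj u v → (u ∈ U ∨ v ∈ U) → (u ∈ R ∨ v ∈ R) → v ∈ O)
    {r0 r1 : V → Bool} (h0 : ∀ v, v ∉ R → r0 v = true) (h1 : ∀ v, v ∉ U → r1 v = false)
    (x y : V → Bool) :
    ((Kc (lev (glu I x r1) false) L).ncard * (Kc (lev (glu I x r1) true) U).ncard) *
      ((Ab β R (lev (glu I y r0) true)).ncard * (Kc (lev (glu I y r0) false) R).ncard) ≤
    ((Kc (lev (glu I (x ⊓ y) r1) false) L).ncard * (Kc (lev (glu I (x ⊓ y) r1) true) U).ncard) *
      ((Ab β R (lev (glu I (x ⊔ y) r0) true)).ncard *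
        (Kc (lev (glu I (x ⊔ y) r0) false) R).ncard) := by
  have self : ∀ P N : Set V, ∀ x ∈ Kc P N, ∀ y ∈ Kc P N, x - y ∈ Kc P N := fun P N x hx y hy =>
    Kc_sub hx hy subset_rfl subset_rfl hx.1 hy.1
  have hI' : ∀ u ∈ I, u ∈ O ∧ ∀ v, Adj u v → v ∈ O := fun u hu =>
    ⟨((hI u).1 hu).1, fun v e => hO u ((hI u).1 hu).1 v e (Or.inl ((hI u).1 hu).2.2)
      (Or.inl ((hI u).1 hu).2.1)⟩
  have nR : ∀ z v, v ∉ R → glu I z r0 v = true := fun z v hv => by
    rw [glu_out _ _ fun h => hv ((hI v).1 h).2.1, h0 v hv]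
  have nU : ∀ z v, v ∉ U → glu I z r1 v = false := fun z v hv => by
    rw [glu_out _ _ fun h => hv ((hI v).1 h).2.2, h1 v hv]
  have p1 := card_mul_le' (A := Kc (lev (glu I x r1) true) U) (B := Ab β R (lev (glu I y r0) true))
    (cut O) (Ab_finite hR hF hβ (lev (glu I (x ⊔ y) r0) true))
    (Kc_finite (lev (glu I (x ⊓ y) r1) true) hU) (self _ _) (fun a ha b hb' => ⟨fun v hv => ?_,
      fun u v e h => ?_⟩) fun a ha b hb' b' hb'' e => ⟨ha.1, cut_back e ha.2 (P2 := lev (glu I y r0) true)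
        (fun u v e h => by rw [Pi.sub_apply, Pi.sub_apply, hb'.2 u v e h, hb''.2 u v e h]) hI'
        fun v hv hv' => ?_⟩
  rotate_left
  · by_cases k : v ∈ O ∧ v ∈ U
    · rw [hb v k.1 k.2]; trivial
    · have : cut O a v = 0 := by
        by_cases k1 : v ∈ O
        · rw [cut_in a k1]; exact ha.1 v fun k2 => k ⟨k1, k2⟩
        · exact cut_out a k1
      rw [Pi.sub_apply, this, sub_zero]
      exact hb'.1 v hv
  · rw [Pi.sub_apply, Pi.sub_apply, hb'.2 u v e fun h' => h ⟨?_, ?_⟩,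
      cut_edge ha.2 ha.1 (Y := R) (fun z hz k => ?_) (fun z hz => nR _ z hz) hO u v e h]
    · by_cases k1 : z ∈ I
      · have : glu I x r1 z = true := k
        rw [glu_in _ _ k1] at this
        show glu I (x ⊔ y) r0 z = true
        rw [glu_in _ _ k1, Pi.sup_apply, this]; simp
      · refine nR _ z fun k2 => k1 ((hI z).2 ⟨hz, k2, ?_⟩)
        by_contra k3
        exact Bool.noConfusion ((nU x z k3).symm.trans k)
    all_goals
      refine lev_mono (fun z => ?_) (by first | exact h'.1 | exact h'.2)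
      by_cases k1 : z ∈ I
      · rw [glu_in _ _ k1, glu_in _ _ k1]; exact le_sup_right
      · rw [glu_out _ _ k1, glu_out _ _ k1]
  · by_cases k1 : v ∈ I
    · have t1 : glu I x r1 v = true := hv
      have t2 : glu I y r0 v = true := hv' k1
      rw [glu_in _ _ k1] at t1 t2
      show glu I (x ⊓ y) r1 v = true
      rw [glu_in _ _ k1, Pi.inf_apply, t1, t2]; rfl
    · have t1 : glu I x r1 v = true := hv
      rw [glu_out _ _ k1] at t1
      show glu I (x ⊓ y) r1 v = true
      rw [glu_out _ _ k1, t1]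
  have p2 := card_mul_le' (A := Kc (lev (glu I y r0) false) R) (B := Kc (lev (glu I x r1) false) L)
    (cut O) (Kc_finite (lev (glu I (x ⊓ y) r1) false) hL)
    (Kc_finite (lev (glu I (x ⊔ y) r0) false) hR) (self _ _) (fun a ha b hb' => ⟨fun v hv => ?_,
      fun u v e h => ?_⟩) fun a ha b hb' b' hb'' e => ⟨ha.1, cut_back e ha.2 (P2 := lev (glu I x r1) false)
        (fun u v e h => by rw [Pi.sub_apply, Pi.sub_apply, hb'.2 u v e h, hb''.2 u v e h]) hI'
        fun v hv hv' => ?_⟩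
  rotate_left
  · have : cut O a v = 0 := by
      by_cases k1 : v ∈ O
      · rw [cut_in a k1]; exact ha.1 v fun k2 => hv (hRL k2)
      · exact cut_out a k1
    rw [Pi.sub_apply, this, sub_zero]
    exact hb'.1 v hv
  · rw [Pi.sub_apply, Pi.sub_apply, hb'.2 u v e fun h' => h ⟨?_, ?_⟩,
      cut_edge ha.2 ha.1 (Y := U) (fun z hz k => ?_) (fun z hz => nU _ z hz)
        (fun u hu v e a b => hO u hu v e b a) u v e h]
    · by_cases k1 : z ∈ I
      · have : glu I y r0 z = false := k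
        rw [glu_in _ _ k1] at this
        show glu I (x ⊓ y) r1 z = false
        rw [glu_in _ _ k1, Pi.inf_apply, this]; simp
      · refine nU _ z fun k2 => k1 ((hI z).2 ⟨hz, ?_, k2⟩)
        by_contra k3
        exact Bool.noConfusion ((nR y z k3).symm.trans k)
    all_goals
      refine lev_anti (fun z => ?_) (by first | exact h'.1 | exact h'.2)
      by_cases k1 : z ∈ I
      · rw [glu_in _ _ k1, glu_in _ _ k1]; exact inf_le_left
      · rw [glu_out _ _ k1, glu_out _ _ k1]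
  · by_cases k1 : v ∈ I
    · have t1 : glu I y r0 v = false := hv
      have t2 : glu I x r1 v = false := hv' k1
      rw [glu_in _ _ k1] at t1 t2
      show glu I (x ⊔ y) r0 v = false
      rw [glu_in _ _ k1, Pi.sup_apply, t1, t2]; rfl
    · have t1 : glu I y r0 v = false := hv
      rw [glu_out _ _ k1] at t1
      show glu I (x ⊔ y) r0 v = false
      rw [glu_out _ _ k1, t1]
  calc _ = ((Kc (lev (glu I x r1) true) U).ncard * (Ab β R (lev (glu I y r0) true)).ncard) *
        ((Kc (lev (glu I y r0) false) R).ncard * (Kc (lev (glu I x r1) false) L).ncard) := by ring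
    _ ≤ _ := Nat.mul_le_mul p1 p2
    _ = _ := by ring

lemma glu_glu (I : Set V) (x r s : V → Bool) : glu I (glu I x r) s = glu I x s := by
  funext v
  by_cases h : v ∈ I
  · rw [glu_in _ _ h, glu_in _ _ h, glu_in _ _ h]
  · rw [glu_out _ _ h, glu_out _ _ h]

lemma glu_eq {I : Set V} {x r : V → Bool} (h : ∀ v, v ∉ I → x v = r v) : glu I x r = x := by
  funext v
  by_cases k : v ∈ I
  · rw [glu_in _ _ k]
  · rw [glu_out _ _ k, h v k]

open Classical in
/-- weights of the projection to `I`, given the values off `I` -/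
lemma wt_glu (M : Set Cf) (q : Cf → V → Bool) (I : Set V) (r x : V → Bool) :
    wt (M ∩ {w | ∀ v, v ∉ I → q w v = r v}) (fun w => glu I (q w) fun _ => true) x =
      if ∀ v, v ∉ I → x v = true then wt M q (glu I x r) else 0 := by
  unfold wt
  split_ifs with h
  · refine congrArg _ (Set.ext fun w => ⟨fun hw => ⟨hw.1.1, ?_⟩, fun hw => ⟨⟨hw.1, fun v hv => ?_⟩, ?_⟩⟩)
    · have : (glu I (q w) fun _ => true) = x := hw.2
      show q w = _
      rw [← this, glu_glu, glu_eq hw.1.2]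
    · rw [show q w = _ from hw.2, glu_out _ _ hv]
    · show (glu I (q w) fun _ => true) = x
      rw [show q w = _ from hw.2, glu_glu, glu_eq h]
  · rw [Set.eq_empty_of_forall_notMem (s := _ ∩ _) fun w hw => h fun v hv => ?_, ncard_empty]
    rw [← show (glu I (q w) fun _ => true) = x from hw.2, glu_out _ _ hv]

lemma wt_ng (M : Set Cf) (x : V → Bool) : wt M (fun w => ng (red w)) x = wt M red (ng x) :=
  congrArg _ (Set.ext fun w => and_congr Iff.rfl
    ⟨fun h => by rw [← show ng (red w) = x from h, ng_ng]; rfl,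
      fun h => show ng (red w) = x by rw [show red w = ng x from h, ng_ng]⟩)

/-- comparison with the double minus model in `U`, given the red spins off the intrinsic part -/
theorem cmp_ex {R U O : Set V} {β : V → Set Bool} (hR : R.Finite) (cR : CoConn R) (hU : U.Finite)
    (cU : CoConn U) (hβ : ∃ F : Set V, F.Finite ∧ ∀ v, v ∉ F → (β v).Subsingleton)
    (hb : ∀ v, v ∈ R ∨ (v ∈ O ∧ v ∈ U) → β v = univ)
    (hO : ∀ u ∈ O, ∀ v, Adj u v → (u ∈ U ∨ v ∈ U) → (u ∈ R ∨ v ∈ R) → v ∈ O)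
    {B : Set (V → Bool)} (hB : Dep (O ∩ R ∩ U)ᶜ B) (ok : Ok (Sp (tb β R) ∩ red ⁻¹' B))
    {f : (V → Bool) → ℝ} (hf : Monotone f) (df : DependsOn f (O ∩ U)) :
    Ex (PP U) (fun w => f (ng (red w))) ≤ Ex (Sp (tb β R) ∩ red ⁻¹' B) fun w => f (red w) := by
  classical
  obtain ⟨F, hF, hβ⟩ := hβ
  set I := O ∩ R ∩ U with hId
  have hI : ∀ v, v ∈ I ↔ v ∈ O ∧ v ∈ R ∧ v ∈ U := fun v => and_assoc
  have hL : (R ∪ cl U).Finite := hR.union (cl_finite hU)
  have o1 := ok_off true hU hL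
  rw [ex_PP_red hU hL subset_union_right fun r => f (ng r),
    ex_fib _ fun w => glu I (fun _ => true) (ng (red w))]
  refine ex_le o1 fun w1 h1 => ?_
  rw [ex_fib (Sp (tb β R) ∩ red ⁻¹' B) fun w => glu I (fun _ => true) (red w)]
  refine le_ex ok fun w0 h0 => ?_
  have fib : ∀ r r' : V → Bool, glu I (fun _ => true) r = glu I (fun _ => true) r' ↔
      ∀ v, v ∉ I → r v = r' v := fun r r' => ⟨fun e v hv => by
        have := congrFun e v
        rwa [glu_out _ _ hv, glu_out _ _ hv] at this, fun e => funext fun v => by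
        by_cases hv : v ∈ I
        · rw [glu_in _ _ hv, glu_in _ _ hv]
        · rw [glu_out _ _ hv, glu_out _ _ hv, e v hv]⟩
  simp only [fib]
  have e0 : Sp (tb β R) ∩ red ⁻¹' B ∩ {y | ∀ v, v ∉ I → red y v = red w0 v} =
      Sp (tb β R) ∩ {y | ∀ v, v ∉ I → red y v = red w0 v} :=
    Set.ext fun y => ⟨fun h => ⟨h.1.1, h.2⟩,
      fun h => ⟨⟨h.1, hB _ _ (fun v hv => (h.2 v hv).symm) h0.2⟩, h.2⟩⟩
  have f0 : (Sp (tb β R)).Finite := Loc_finite (hR.union hF) fun v hv _ ha _ hb' =>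
    Prod.ext ((ha.2 fun h => hv (Or.inl h)).trans (hb'.2 fun h => hv (Or.inl h)).symm)
      (hβ v (fun h => hv (Or.inr h)) ha.1 hb'.1)
  rw [e0]
  have n0 : ∀ v, v ∉ R → red w0 v = true := fun v hv => (h0.1.2 v).2 hv
  have n1 : ∀ v, v ∉ U → ng (red w1) v = false := fun v hv => by
    rw [ng, show red w1 v = true from (h1.2 v).1 hv]; rfl
  have H : Hol (Sp (pp U (R ∪ cl U)) ∩ {y | ∀ v, v ∉ I → ng (red y) v = ng (red w1) v})
      (fun w => glu I (ng (red w)) fun _ => true)
      (Sp (tb β R) ∩ {y | ∀ v, v ∉ I → red y v = red w0 v})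
      fun w => glu I (red w) fun _ => true := by
    intro x y
    rw [wt_glu _ fun w => ng (red w), wt_glu _ red, wt_glu _ fun w => ng (red w), wt_glu _ red]
    by_cases hx : ∀ v, v ∉ I → x v = true
    swap
    · rw [if_neg hx, zero_mul]; exact Nat.zero_le _
    by_cases hy : ∀ v, v ∉ I → y v = true
    swap
    · rw [if_neg hy, mul_zero]; exact Nat.zero_le _
    have a1 : ∀ z, wt (Sp (pp U (R ∪ cl U))) (fun w => ng (red w)) (glu I z (ng (red w1))) =
        (Kc (lev (glu I z (ng (red w1))) false) (R ∪ cl U)).ncard *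
          (Kc (lev (glu I z (ng (red w1))) true) U).ncard := fun z => by
      rw [wt_ng, pp_eq_tb, wt_tb (β := off true (R ∪ cl U)) hU cU (fun v hv => eq_univ_of_forall fun a h =>
        absurd (Or.inr (sub_cl U hv)) h) fun v hv => ?_,
        Ab_off ((sub_cl U).trans subset_union_right), lev_ng, lev_ng]
      · rfl
      · rw [ng, glu_out _ _ fun h => hv h.2, n1 v hv]; rfl
    have a0 : ∀ z, wt (Sp (tb β R)) red (glu I z (red w0)) = _ := fun z =>
      wt_tb hR cR (fun v hv => hb v (Or.inl hv)) fun v hv => by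
        rw [glu_out _ _ fun h => hv h.1.2, n0 v hv]
    rw [if_pos hx, if_pos hy, if_pos fun v hv => by rw [Pi.inf_apply, hx v hv, hy v hv]; rfl,
      if_pos fun v hv => by rw [Pi.sup_apply, hx v hv, hy v hv]; rfl, a1, a1, a0, a0]
    exact cmp_card hR hU hL subset_union_left hF hβ (fun v h h' => hb v (Or.inr ⟨h, h'⟩)) hI hO
      n0 n1 x y
  have g1 : ∀ (r r' : V → Bool), (∀ v ∈ O, v ∈ U → r v ≤ r' v) → f r ≤ f r' := fun r r' h => by
    rw [df (y := glu (O ∩ U) r r') fun v hv => (glu_in _ _ hv).symm]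
    refine hf fun v => ?_
    by_cases hv : v ∈ O ∩ U
    · rw [glu_in _ _ hv]; exact h v hv.1 hv.2
    · rw [glu_out _ _ hv]
  refine le_trans (ex_mono fun w _ => g1 _ _ fun v _ _ => ?_) ((H.ex_le
    (Ok.inter o1.1 h1 fun _ _ => rfl) (Ok.inter f0 h0.1 fun _ _ => rfl) hf).trans
      (ex_mono fun w hw => g1 _ _ fun v h h' => ?_))
  · by_cases hv : v ∈ I
    · rw [glu_in _ _ hv]
    · rw [glu_out _ _ hv]; exact le_top
  · by_cases hv : v ∈ I
    · rw [glu_in _ _ hv]
    · rw [glu_out _ _ hv, show red w v = true from (hw.1.2 v).2 fun k => hv ⟨⟨h, k⟩, h'⟩]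

theorem cmp {R U O : Set V} {β : V → Set Bool} (hR : R.Finite) (cR : CoConn R) (hU : U.Finite)
    (cU : CoConn U) (hβ : ∃ F : Set V, F.Finite ∧ ∀ v, v ∉ F → (β v).Subsingleton)
    (hb : ∀ v, v ∈ R ∨ (v ∈ O ∧ v ∈ U) → β v = univ)
    (hO : ∀ u ∈ O, ∀ v, Adj u v → (u ∈ U ∨ v ∈ U) → (u ∈ R ∨ v ∈ R) → v ∈ O)
    {A B : Set (V → Bool)} (hA : IsUpperSet A) (dA : Dep (O ∩ U) A) (hB : Dep (O ∩ R ∩ U)ᶜ B) :
    Pr (Sp (tb β R)) (red ⁻¹' B) * Pr (PP U) {w | ng (red w) ∈ A} ≤
      Pr (Sp (tb β R)) (red ⁻¹' (B ∩ A)) := by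
  rw [preimage_inter, pr_cond]
  by_cases ok : Ok (Sp (tb β R) ∩ red ⁻¹' B)
  swap
  · have : Pr (Sp (tb β R)) (red ⁻¹' B) = 0 := by
      by_contra h
      exact ok (ok_of_pr_pos (lt_of_le_of_ne (pr_nonneg _ _) (Ne.symm h))).2
    simp [this]
  refine mul_le_mul_of_nonneg_left ?_ (pr_nonneg _ _)
  rw [pr_eq, pr_eq]
  exact cmp_ex hR cR hU cU hβ hb hO hB ok (mono_ind hA) dA.ind

end Pool.Agent.Lib.MP_6359c9_pr
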