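import Pool.Agent.Lib.MP_6359c9_pr.SpecC
import Pool.Agent.Lib.MP_6359c9_pr.CovA

/-! Continuity of the affine extension. -/

namespace Pool.Agent.Lib.MP_6359c9_pr

open Set Filter Topology MeasureTheory

/-- the tent function in lattice coordinates -/
noncomputable def tent (s t : ℝ) : ℝ := max 0 (1 - max (max |s| |t|) |s + t|)

lemma tent_zero {s t : ℝ} (h : 1 ≤ |s| ∨ 1 ≤ |t| ∨ 1 ≤ |s + t|) : tent s t = 0 := by
  refine max_eq_left (sub_nonpos.2 ?_)
  simpa only [le_max_iff, or_assoc] using h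

lemma ext_tent (δ : ℝ) (h : V → ℤ) (z : ℂ) (S : Finset V)
    (hS : ∀ v : V, ⌊cx δ z⌋ ≤ v.1 → v.1 ≤ ⌊cx δ z⌋ + 1 → ⌊cy δ z⌋ ≤ v.2 → v.2 ≤ ⌊cy δ z⌋ + 1 →
      v ∈ S) : ext δ h z = ∑ v ∈ S, h v * tent (cx δ z - v.1) (cy δ z - v.2) := by
  have x0 := Int.fract_nonneg (cx δ z)
  have y0 := Int.fract_nonneg (cy δ z)
  have x1 := Int.fract_lt_one (cx δ z)
  have y1 := Int.fract_lt_one (cy δ z)
  have ex := Int.floor_add_fract (cx δ z)
  have ey := Int.floor_add_fract (cy δ z)
  rw [ext_eq, exR, vt, bw]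
  generalize Int.fract (cx δ z) = s at *
  generalize Int.fract (cy δ z) = t at *
  generalize ⌊cx δ z⌋ = a at *
  generalize ⌊cy δ z⌋ = b at *
  rw [← ex, ← ey, ← Finset.sum_subset (s₁ := ({a, a + 1} : Finset ℤ) ×ˢ ({b, b + 1} : Finset ℤ))
    (fun v hv => by
      simp only [Finset.mem_product, Finset.mem_insert, Finset.mem_singleton] at hv
      exact hS v (by omega) (by omega) (by omega) (by omega)) fun v _ hv => ?_]
  · rw [Finset.sum_product, Finset.sum_pair (by omega), Finset.sum_pair (by omega),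
      Finset.sum_pair (by omega)]
    push_cast
    rw [show (a : ℝ) + s - a = s by ring, show (b : ℝ) + t - b = t by ring,
      show (a : ℝ) + s - (a + 1) = s - 1 by ring, show (b : ℝ) + t - (b + 1) = t - 1 by ring]
    have e1 : tent s t = max 0 (1 - s - t) := by unfold tent; grind
    have e2 : tent s (t - 1) = min t (1 - s) := by unfold tent; grind
    have e3 : tent (s - 1) t = min s (1 - t) := by unfold tent; grind
    have e4 : tent (s - 1) (t - 1) = max 0 (s + t - 1) := by unfold tent; grind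
    rw [e1, e2, e3, e4]
    split_ifs with c
    · rw [max_eq_right (by linarith), min_eq_left (by linarith), min_eq_left (by linarith),
        max_eq_left (by linarith)]
      simp [Fin.sum_univ_three]; ring
    · rw [max_eq_left (by linarith), min_eq_right (by linarith), min_eq_right (by linarith),
        max_eq_right (by linarith)]
      simp [Fin.sum_univ_three]; ring
  · simp only [Finset.mem_product, Finset.mem_insert, Finset.mem_singleton] at hv
    have k : ∀ (a m : ℤ) (s : ℝ), 0 ≤ s → s < 1 → ¬(m = a ∨ m = a + 1) → 1 ≤ |a + s - m| := by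
      intro a m s h0 h1 n
      rw [le_abs]
      rcases (by omega : m + 1 ≤ a ∨ a + 2 ≤ m) with c | c
      · have : (m : ℝ) + 1 ≤ a := by exact_mod_cast c
        exact .inl (by linarith)
      · have : (a : ℝ) + 2 ≤ m := by exact_mod_cast c
        exact .inr (by linarith)
    rw [tent_zero ((not_and_or.1 hv).imp (k _ _ _ x0 x1) fun c => .inl (k _ _ _ y0 y1 c)), mul_zero]

theorem contSt : ContSt := fun δ h => continuous_iff_continuousAt.2 fun z => by
  have k : ∀ {f : ℂ → ℝ}, Continuous f → ∀ᶠ w in 𝓝 z, ⌊f z⌋ - 1 ≤ ⌊f w⌋ ∧ ⌊f w⌋ ≤ ⌊f z⌋ + 1 := by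
    intro f hf
    filter_upwards [hf.continuousAt.eventually (gt_mem_nhds (lt_add_one (f z))),
      hf.continuousAt.eventually (lt_mem_nhds (sub_one_lt (f z)))] with w h1 h2
    rw [← Int.floor_sub_one, ← Int.floor_add_one]
    exact ⟨Int.floor_mono h2.le, Int.floor_mono h1.le⟩
  have cx' := cont_cx δ
  have cy' := cont_cy δ
  refine ContinuousAt.congr (f := fun w => ∑ v ∈ Finset.Icc (⌊cx δ z⌋ - 1) (⌊cx δ z⌋ + 2) ×ˢ
    Finset.Icc (⌊cy δ z⌋ - 1) (⌊cy δ z⌋ + 2), h v * tent (cx δ w - v.1) (cy δ w - v.2))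
    (Continuous.continuousAt (by unfold tent; fun_prop)) ?_
  filter_upwards [k cx', k cy'] with w h1 h2
  exact (ext_tent δ h w _ fun v _ _ _ _ => by
    simp only [Finset.mem_product, Finset.mem_Icc]; omega).symm

end Pool.Agent.Lib.MP_6359c9_pr
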