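import Pool.Agent.Lib.MP_6359c9_pr.InfRP

/-! Neutral linear functionals of the heights and their covariances in the plane. -/

namespace Pool.Agent.Lib.MP_6359c9_pr

open Set Filter Topology

/-- a linear functional of the heights -/
noncomputable def XL (s : Finset V) (c : V → ℝ) (w : Cf) : ℝ := ∑ v ∈ s, c v * gr w v

variable {s s' : Finset V} {c c' : V → ℝ}

lemma lc_XL (s : Finset V) (c : V → ℝ) : Lc univ (XL s c) :=
  Lc.sum s fun v _ => (lc_gru v).smul (c v)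

lemma XL_sub (h0 : ∑ v ∈ s, c v = 0) (w : Cf) (t : ℝ) :
    XL s c w = ∑ v ∈ s, c v * (gr w v - t) := by
  simp only [XL, mul_sub, Finset.sum_sub_distrib, ← Finset.sum_mul, h0, zero_mul, sub_zero]

/-- neutral functionals are local -/
lemma lcl_XL {S : Set V} {o : V} (h0 : ∑ v ∈ s, c v = 0)
    (hc : ∀ v ∈ s, c v ≠ 0 → Conn S o v) : Lcl S (XL s c) := by
  intro w hw w' hw' e
  rw [XL_sub h0 w (gr w o), XL_sub h0 w' (gr w' o)]
  refine Finset.sum_congr rfl fun v hv => ?_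
  by_cases h : c v = 0
  · simp [h]
  · exact congrArg (c v * ·) (lcl_gr (hc v hv h) w hw w' hw' e)

lemma XL_act {g : V → V} (hg : ∀ u v, Adj u v → Adj (g u) (g v)) (h0 : ∑ v ∈ s, c v = 0)
    {w : Cf} (hw : w ∈ Val) : XL s c (act g w) = ∑ v ∈ s, c v * gr w (g v) := by
  simp only [XL, gr_act hg hw, Int.cast_sub, mul_sub, Finset.sum_sub_distrib, ← Finset.sum_mul,
    h0, zero_mul, sub_zero]

lemma Einf_gr_sq (x y : V) : Einf (fun w => ((gr w x : ℝ) - gr w y) ^ 2) = 2 * vg (x - y) := by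
  rw [vg, ← Einf_act (aut_add y) ((lc_gru (x - y)).comp (· ^ 2)), ← mul_assoc,
    mul_one_div_cancel two_ne_zero, one_mul]
  refine Einf_congr fun w hw => ?_
  rw [gr_act (aut_add y).adj hw]
  simp

/-- covariance of two neutral functionals -/
theorem Einf_XL {g : V → V} (hg : ∀ u v, Adj u v → Adj (g u) (g v)) (h0 : ∑ v ∈ s, c v = 0)
    (h0' : ∑ v ∈ s', c' v = 0) : Einf (fun w => XL s c w * XL s' c' (act g w)) =
      -∑ u ∈ s, ∑ v ∈ s', c u * c' v * vg (u - g v) := by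
  have l : ∀ u v : V, Lc univ fun w => -(c u * c' v / 2) * ((gr w u : ℝ) - gr w (g v)) ^ 2 :=
    fun u v => (((lc_gru u).sub (lc_gru (g v))).comp (· ^ 2)).smul _
  rw [Einf_congr (G := fun w => ∑ u ∈ s, ∑ v ∈ s',
    -(c u * c' v / 2) * ((gr w u : ℝ) - gr w (g v)) ^ 2) fun w hw => ?_,
    Einf_sum s fun u _ => Lc.sum s' fun v _ => l u v, ← Finset.sum_neg_distrib]
  · refine Finset.sum_congr rfl fun u _ => ?_
    rw [Einf_sum s' fun v _ => l u v, ← Finset.sum_neg_distrib]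
    refine Finset.sum_congr rfl fun v _ => ?_
    rw [Einf_mul _ (((lc_gru u).sub (lc_gru (g v))).comp (· ^ 2)), Einf_gr_sq]
    ring
  · rw [XL_act hg h0' hw, XL, Finset.sum_mul_sum]
    have e : ∀ u v : V, -(c u * c' v / 2) * ((gr w u : ℝ) - gr w (g v)) ^ 2 =
        c u * gr w u * (c' v * gr w (g v)) - c u * (gr w u) ^ 2 / 2 * c' v -
          c u * (c' v * (gr w (g v)) ^ 2 / 2) := fun u v => by ring
    simp only [e, Finset.sum_sub_distrib, ← Finset.mul_sum, ← Finset.sum_mul, h0, h0', mul_zero,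
      zero_mul, sub_zero, Finset.sum_const_zero]

theorem Einf_XL' (h0 : ∑ v ∈ s, c v = 0) (h0' : ∑ v ∈ s', c' v = 0) :
    Einf (fun w => XL s c w * XL s' c' w) = -∑ u ∈ s, ∑ v ∈ s', c u * c' v * vg (u - v) :=
  Einf_XL (g := id) (fun _ _ h => h) h0 h0'

end Pool.Agent.Lib.MP_6359c9_pr
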