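import Pool.Agent.Lib.MP_6359c9_pr.CovQ
import Pool.Agent.Lib.MP_6359c9_pr.CovLat

/-! Covariances of smeared heights in the plane: fusion and null vectors. -/

namespace Pool.Agent.Lib.MP_6359c9_pr.Pl

open Filter Topology MeasureTheory Set Metric

variable {C κ δ : ℝ} {s s₁ : Finset V} {f f₁ ψ : ℂ → ℝ}

lemma lin_eq {c : V → ℝ} (h0 : ∑ v ∈ s, c v = 0) (o : V) : lin s c o = XL s c :=
  funext fun w => (XL_sub h0 w _).symm

lemma lcl_lin {c : V → ℝ} (h0 : ∑ v ∈ s, c v = 0) (o : V) {x : V} {n : ℤ} (hn : 0 ≤ n)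
    (h : ∀ v ∈ s, c v ≠ 0 → v ∈ Bx x n) : Lcl (Bx x n) (lin s c o) := by
  rw [lin_eq h0]
  exact lcl_XL (o := x) h0 fun v hv hc => Rec_conn (by simp only [mem_Rec]; omega) (h v hv hc)

lemma mem_Bx_of_norm (hδ : 0 < δ) {v x : V} {n : ℤ} (h : 2 * ‖pos δ v - pos δ x‖ ≤ n * δ) :
    v ∈ Bx x n := by
  rw [norm_pos_sub hδ] at h
  have h1 : 2 * ‖emb (v - x)‖ ≤ n := le_of_mul_le_mul_right (by linarith) hδ
  have h2 : |(v - x).1| ≤ n := by exact_mod_cast (emb_co (v - x)).1.trans h1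
  have h3 : |(v - x).2| ≤ n := by exact_mod_cast (emb_co (v - x)).2.trans h1
  simp only [Prod.fst_sub, Prod.snd_sub, abs_le] at h2 h3
  simp only [mem_Bx]
  omega

lemma exists_Tf (hf : Continuous f) (hc : HasCompactSupport f) : ∃ L, Tf 0 L L f := by
  obtain ⟨B, hB⟩ := hf.bounded_above_of_compact_support hc
  obtain ⟨r, hr⟩ := hc.isBounded.subset_closedBall 0
  exact ⟨max r B, Tf.mono ⟨hf.aestronglyMeasurable, hB, fun z hz =>
    mem_closedBall_iff_norm.1 (hr (subset_tsupport _ hz))⟩ (le_max_left _ _) (le_max_right _ _)⟩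

/-- the covariance of two neutral pairings -/
lemma cov_eq (hδ : 0 < δ) (hf : Integrable f) (hf₁ : Integrable f₁) (h0 : ∫ z, f z = 0)
    (h1 : ∫ z, f₁ z = 0) (hS : Cvr δ f s) (hS₁ : Cvr δ f₁ s₁) (o o₁ : V) {g : V → V}
    (hg : ∀ u v, Adj u v → Adj (g u) (g v)) :
    Einf (fun w => lin s (Wt δ f) o w * lin s₁ (Wt δ f₁) o₁ (act g w)) =
      -∑ u ∈ s, ∑ v ∈ s₁, Wt δ f u * Wt δ f₁ v * vg (u - g v) := by
  have e0 := (sum_Wt hδ hf hS).trans h0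
  have e1 := (sum_Wt hδ hf₁ hS₁).trans h1
  rw [lin_eq e0, lin_eq e1, Einf_XL hg e0 e1]

/-- uniform bound of covariances at the scale `r` -/
theorem cov_sq (h : Vario vg C) : ∃ C₁ : ℝ, ∀ (δ r B B₁ : ℝ) (c : ℂ) (f f₁ : ℂ → ℝ)
    (s s₁ : Finset V) (o o₁ : V), 0 < δ → δ ≤ r → Tf c r B f → Tf c r B₁ f₁ → ∫ z, f z = 0 →
    ∫ z, f₁ z = 0 → Cvr δ f s → Cvr δ f₁ s₁ →
    |Einf fun w => lin s (Wt δ f) o w * lin s₁ (Wt δ f₁) o₁ w| ≤ C₁ * B * B₁ * r ^ 4 := by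
  obtain ⟨C₁, hC⟩ := cov_bd h
  refine ⟨C₁, fun δ r B B₁ c f f₁ s s₁ o o₁ hδ hr hf hf₁ h0 h1 hS hS₁ => ?_⟩
  have := cov_eq hδ hf.int hf₁.int h0 h1 hS hS₁ o o₁ (g := id) fun _ _ h => h
  change Einf (fun w => lin s (Wt δ f) o w * lin s₁ (Wt δ f₁) o₁ w) = _ at this
  rw [this, abs_neg]
  exact hC δ r B B₁ c f f₁ s s₁ hδ hr hf hf₁ h0 hS hS₁

/-- the covariance with the pairing against a Laplacian, twisted by a lattice symmetry -/
theorem cov_lap (h : Vario vg C) (hk : LogLaw vg κ) (hψ : ContDiff ℝ 2 ψ)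
    (hc : HasCompactSupport ψ) (L : ℝ) {ε : ℝ} (hε : 0 < ε) :
    ∃ δ0 > 0, ∀ δ, 0 < δ → δ < δ0 → ∀ (R : ℂ → ℂ) (g : V → V),
      (∀ p q, ‖R p - R q‖ ≤ ‖p - q‖) → (∀ v, pos δ (g v) = R (pos δ v)) → ‖R 0‖ ≤ L →
      (∀ u v, Adj u v → Adj (g u) (g v)) → ∀ (f₁ : ℂ → ℝ) (s s₁ : Finset V) (o o₁ : V),
      Tf 0 L L f₁ → ∫ z, f₁ z = 0 → Cvr δ (Laplacian.laplacian ψ) s → Cvr δ f₁ s₁ →
      |Einf (fun w => lin s (Wt δ (Laplacian.laplacian ψ)) o w * lin s₁ (Wt δ f₁) o₁ (act g w)) +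
        2 * Real.pi * κ * ∫ z, f₁ z * ψ (R z)| ≤ ε := by
  obtain ⟨L', hL'⟩ := exists_Tf (lap_cont hψ) (lap_cs hψ hc)
  obtain ⟨δ0, d0, hP⟩ := covlim h hk (max L L') hε
  refine ⟨δ0, d0, fun δ hδ hδ' R g hR hg h0 ha f₁ s s₁ o o₁ hf₁ h1 hS hS₁ => ?_⟩
  have := hP δ hδ hδ' R g hR hg (h0.trans (le_max_left _ _)) _ f₁ s s₁
    (hL'.mono (le_max_right _ _) (le_max_right _ _)) (hf₁.mono (le_max_left _ _) (le_max_left _ _))
    (int_lap hψ hc) hS hS₁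
  simp only [fund hψ hc, mul_left_comm _ (2 * Real.pi), integral_const_mul] at this
  rw [cov_eq hδ hL'.int hf₁.int (int_lap hψ hc) h1 hS hS₁ o o₁ ha, ← abs_neg]
  exact le_trans (le_of_eq (by congr 1; ring)) this

/-- fusion -/
theorem cov_fus (h : Vario vg C) (hk : LogLaw vg κ) (hψ : ContDiff ℝ 2 ψ)
    (hc : HasCompactSupport ψ) (L : ℝ) {ε : ℝ} (hε : 0 < ε) :
    ∃ δ0 > 0, ∀ δ, 0 < δ → δ < δ0 → ∀ (f₁ : ℂ → ℝ) (s s₁ : Finset V) (o o₁ : V),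
      Tf 0 L L f₁ → ∫ z, f₁ z = 0 → Cvr δ (Laplacian.laplacian ψ) s → Cvr δ f₁ s₁ →
      |Einf (fun w => lin s (Wt δ (Laplacian.laplacian ψ)) o w * lin s₁ (Wt δ f₁) o₁ w) +
        2 * Real.pi * κ * ∫ z, f₁ z * ψ z| ≤ ε := by
  obtain ⟨δ0, d0, hP⟩ := cov_lap h hk hψ hc L hε
  exact ⟨δ0, d0, fun δ hδ hδ' f₁ s s₁ o o₁ hf₁ => hP δ hδ hδ' id id (fun _ _ => le_rfl)
    (fun _ => rfl) (by simpa using hf₁.nonneg) (fun _ _ h => h) f₁ s s₁ o o₁ hf₁⟩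

/-- the pairing against a Laplacian is null for the reflection in a row below the support -/
theorem cov_null (h : Vario vg C) (hk : LogLaw vg κ) (hψ : ContDiff ℝ 2 ψ)
    (hc : HasCompactSupport ψ) (L : ℝ) {ε : ℝ} (hε : 0 < ε) :
    ∃ δ0 > 0, ∀ δ, 0 < δ → δ < δ0 → ∀ (j : ℤ) (s : Finset V) (o : V),
      Cvr δ (Laplacian.laplacian ψ) s → |δ * j| ≤ L → (∀ z, ψ z ≠ 0 → δ * j * (√3 / 2) < z.im) →
      |Einf fun w => lin s (Wt δ (Laplacian.laplacian ψ)) o w *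
        lin s (Wt δ (Laplacian.laplacian ψ)) o (act (rfj j) w)| ≤ ε := by
  obtain ⟨L', hL'⟩ := exists_Tf (lap_cont hψ) (lap_cs hψ hc)
  obtain ⟨δ0, d0, hP⟩ := cov_lap h hk hψ hc (max (2 * L) L') hε
  refine ⟨δ0, d0, fun δ hδ hδ' j s o hS hj hs => ?_⟩
  have h4 : √3 ≤ 2 := Real.sqrt_le_iff.2 ⟨by norm_num, by norm_num⟩
  have := hP δ hδ hδ' (fun z => (starRingEnd ℂ) z + (δ * j * √3 : ℝ) * Complex.I) (rfj j)
    (fun p q => by rw [add_sub_add_right_eq_sub, ← map_sub, Complex.norm_conj])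
    (fun v => by apply Complex.ext <;> simp [pos, rfj, -mul_eq_mul_left_iff] <;> ring)
    (le_max_of_le_left (by
      rw [map_zero, zero_add, norm_mul, Complex.norm_I, mul_one, Complex.norm_real,
        Real.norm_eq_abs, abs_mul, abs_of_nonneg (Real.sqrt_nonneg 3)]
      nlinarith [abs_nonneg (δ * j), Real.sqrt_nonneg 3]))
    (aut_rfj j).adj _ s s o o (hL'.mono (le_max_right _ _) (le_max_right _ _)) (int_lap hψ hc) hS hS
  have e : ∀ z, Laplacian.laplacian ψ z *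
      ψ ((starRingEnd ℂ) z + (δ * j * √3 : ℝ) * Complex.I) = 0 := fun z => by
    by_contra hn
    have h1 : z ∈ tsupport ψ := by
      by_contra h1
      exact hn (by rw [lap_zero h1, zero_mul])
    have h2 : δ * j * (√3 / 2) ≤ z.im := closure_minimal (fun z hz => (hs z hz).le)
      (isClosed_le continuous_const Complex.continuous_im) h1
    have h3 := hs _ (right_ne_zero_of_mul hn)
    simp at h3
    linarith
  simpa only [e, integral_zero, mul_zero, add_zero] using this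

/-- the same along a filter -/
theorem cov_null' (h : Vario vg C) (hk : LogLaw vg κ) (hψ : ContDiff ℝ 2 ψ)
    (hc : HasCompactSupport ψ) (L : ℝ) {ι : Type} {l : Filter ι} {δ : ι → ℝ} {j : ι → ℤ}
    {s : ι → Finset V} (o : ι → V) (hδ : Tendsto δ l (𝓝 0))
    (H : ∀ᶠ i in l, 0 < δ i ∧ Cvr (δ i) (Laplacian.laplacian ψ) (s i) ∧ |δ i * j i| ≤ L ∧
      ∀ z, ψ z ≠ 0 → δ i * j i * (√3 / 2) < z.im) :
    Tendsto (fun i => Einf fun w => lin (s i) (Wt (δ i) (Laplacian.laplacian ψ)) (o i) w *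
      lin (s i) (Wt (δ i) (Laplacian.laplacian ψ)) (o i) (act (rfj (j i)) w)) l (𝓝 0) := by
  refine Metric.tendsto_nhds.2 fun ε hε => ?_
  obtain ⟨δ0, d0, hP⟩ := cov_null h hk hψ hc L (half_pos hε)
  filter_upwards [H, hδ.eventually (gt_mem_nhds d0)] with i hi h1
  rw [Real.dist_eq, sub_zero]
  exact (hP _ hi.1 h1 _ _ _ hi.2.1 hi.2.2.1 hi.2.2.2).trans_lt (half_lt_self hε)

end Pool.Agent.Lib.MP_6359c9_pr.Pl
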