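import Pool.Agent.Lib.MP_6c91ae_an.ChLap

/-! The fundamental solution of the planar Laplacian. -/

namespace Pool.Agent.Lib.MP_6359c9_pr.Pl

open Filter Topology MeasureTheory Set Pool.Agent.Lib.MP_6c91ae_an

lemma pd_cd {u : ℂ → ℝ} {n m : ℕ} (h : ContDiff ℝ n u) (hm : m + 1 ≤ n) (v : ℂ) :
    ContDiff ℝ m (pd v u) :=
  contDiff_iff_contDiffAt.2 fun _ => pd_contDiffAt h.contDiffAt hm v

lemma pd_cs {u : ℂ → ℝ} (h : HasCompactSupport u) (v : ℂ) : HasCompactSupport (pd v u) :=
  h.fderiv_apply ℝ v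

/-- integration by parts -/
lemma ibp {f g : ℂ → ℝ} (hf : ContDiff ℝ (1 : ℕ) f) (hc : HasCompactSupport f)
    (hg : ContDiff ℝ (1 : ℕ) g) (v : ℂ) : ∫ z, f z * pd v g z = -∫ z, pd v f z * g z :=
  integral_mul_fderiv_eq_neg_fderiv_mul_of_integrable
    (((pd_cd (m := 0) hf le_rfl v).continuous.mul hg.continuous).integrable_of_hasCompactSupport
      (pd_cs hc v).mul_right)
    ((hf.continuous.mul (pd_cd (m := 0) hg le_rfl v).continuous).integrable_of_hasCompactSupport
      hc.mul_right)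
    ((hf.continuous.mul hg.continuous).integrable_of_hasCompactSupport hc.mul_right)
    (fun x _ => hf.differentiable (by simp) x) fun x _ => hg.differentiable (by simp) x

lemma lap_cont {ψ : ℂ → ℝ} (hψ : ContDiff ℝ 2 ψ) : Continuous (Laplacian.laplacian ψ) := by
  have : Laplacian.laplacian ψ = lap ψ := funext fun z => lap_eq hψ.contDiffAt
  rw [this]
  exact (pd_cd (m := 0) (pd_cd (n := 2) (m := 1) hψ le_rfl 1) le_rfl 1).continuous.add
    (pd_cd (m := 0) (pd_cd (n := 2) (m := 1) hψ le_rfl _) le_rfl _).continuous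

lemma lap_cs {ψ : ℂ → ℝ} (hψ : ContDiff ℝ 2 ψ) (hc : HasCompactSupport ψ) :
    HasCompactSupport (Laplacian.laplacian ψ) := by
  have : Laplacian.laplacian ψ = lap ψ := funext fun z => lap_eq hψ.contDiffAt
  rw [this]
  exact (pd_cs (pd_cs hc 1) 1).add (pd_cs (pd_cs hc _) _)

/-- the Laplacian vanishes off the support -/
lemma lap_zero {ψ : ℂ → ℝ} {z : ℂ} (hz : z ∉ tsupport ψ) : Laplacian.laplacian ψ z = 0 := by
  have := (InnerProductSpace.laplacian_congr_nhds (notMem_tsupport_iff_eventuallyEq.1 hz)).eq_of_nhds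
  rw [this]
  exact congrFun (InnerProductSpace.laplacian_const (c := (0 : ℝ))) z

/-- the second identity of Green -/
theorem green_sym {ψ g : ℂ → ℝ} (hψ : ContDiff ℝ 2 ψ) (hc : HasCompactSupport ψ)
    (hg : ContDiff ℝ 2 g) :
    ∫ z, Laplacian.laplacian ψ z * g z = ∫ z, ψ z * Laplacian.laplacian g z := by
  have key : ∀ v, ∫ z, pd v (pd v ψ) z * g z = ∫ z, ψ z * pd v (pd v g) z := fun v => by
    have a := ibp (pd_cd (n := 2) (m := 1) hψ le_rfl v) (pd_cs hc v) (hg.of_le (by norm_num)) v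
    have b := ibp (hψ.of_le (by norm_num)) hc (pd_cd (n := 2) (m := 1) hg le_rfl v) v
    rw [b, a, neg_neg]
  have i1 : ∀ v, Integrable fun z => pd v (pd v ψ) z * g z := fun v =>
    ((pd_cd (m := 0) (pd_cd (n := 2) (m := 1) hψ le_rfl v) le_rfl v).continuous.mul
      hg.continuous).integrable_of_hasCompactSupport (pd_cs (pd_cs hc v) v).mul_right
  have i2 : ∀ v, Integrable fun z => ψ z * pd v (pd v g) z := fun v =>
    (hψ.continuous.mul (pd_cd (m := 0) (pd_cd (n := 2) (m := 1) hg le_rfl v) le_rfl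
      v).continuous).integrable_of_hasCompactSupport hc.mul_right
  simp only [lap_eq hψ.contDiffAt, lap_eq hg.contDiffAt, lap, add_mul, mul_add]
  rw [integral_add (i1 _) (i1 _), integral_add (i2 _) (i2 _), key, key]

theorem int_lap {ψ : ℂ → ℝ} (hψ : ContDiff ℝ 2 ψ) (hc : HasCompactSupport ψ) :
    ∫ z, Laplacian.laplacian ψ z = 0 := by
  simpa using green_sym (g := fun _ => 1) hψ hc contDiff_const

lemma lap_shift (u : ℂ → ℝ) (a z : ℂ) : lap (fun y => u (y + a)) z = lap u (z + a) := by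
  have e : ∀ (v : ℂ) (u : ℂ → ℝ), pd v (fun y => u (y + a)) = fun y => pd v u (y + a) :=
    fun v u => funext fun y => by unfold pd; rw [fderiv_comp_add_right]
  simp only [lap, e]

lemma locInt_inv : LocallyIntegrable fun z : ℂ => ‖z‖⁻¹ := by
  refine locallyIntegrable_of_norm_le_rpow (C := 1) (α := 1) (by simp) (by simp)
    (Eventually.of_forall fun z => ?_) (by fun_prop : Measurable _).aestronglyMeasurable
  rw [Real.rpow_neg_one, one_mul, norm_inv, norm_norm]

lemma abs_log_le {r : ℝ} (hr : 0 ≤ r) : |Real.log r| ≤ r⁻¹ + r := by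
  rcases hr.eq_or_lt with rfl | hr
  · simp
  have a := Real.one_sub_inv_le_log_of_pos hr
  have b := Real.log_le_sub_one_of_pos hr
  have c := inv_pos.2 hr
  exact abs_le.2 ⟨by linarith, by linarith⟩

lemma locInt_log0 : LocallyIntegrable fun z : ℂ => Real.log ‖z‖ :=
  (locInt_inv.add continuous_norm.locallyIntegrable).mono
    (by fun_prop : Measurable _).aestronglyMeasurable (Eventually.of_forall fun z =>
      (abs_log_le (norm_nonneg z)).trans (le_abs_self _))

lemma int_ker : ∫ y : ℂ, 2 / (‖y‖ ^ 2 + 1) ^ 2 = 2 * Real.pi := by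
  rw [integral_fun_norm_addHaar volume fun t : ℝ => 2 / (t ^ 2 + 1) ^ 2]
  have a : ∫ y in Ioi (0 : ℝ), y * (2 / (y ^ 2 + 1) ^ 2) = 0 - -(0 ^ 2 + 1)⁻¹ := by
    refine integral_Ioi_of_hasDerivAt_of_nonneg' (g := fun y : ℝ => -(y ^ 2 + 1)⁻¹)
      (fun x _ => ?_) (fun x hx => mul_nonneg (le_of_lt hx) (by positivity)) ?_
    · have := (((hasDerivAt_id x).pow 2).add_const 1).inv
        (by simp only [id, Pi.pow_apply]; positivity)
      refine this.neg.congr_deriv ?_
      simp only [id, Pi.pow_apply]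
      push_cast
      ring
    · simpa using (tendsto_inv_atTop_zero.comp
        (tendsto_atTop_add_const_right _ 1 (tendsto_pow_atTop (α := ℝ) two_ne_zero))).neg
  simp only [Complex.finrank_real_complex, Nat.add_one_sub_one, pow_one, smul_eq_mul, a,
    measureReal_def, Complex.volume_ball]
  simp

lemma fund0 {ψ : ℂ → ℝ} (hψ : ContDiff ℝ 2 ψ) (hc : HasCompactSupport ψ) :
    ∫ z, Laplacian.laplacian ψ z * Real.log ‖z‖ = 2 * Real.pi * ψ 0 := by
  have e : ∀ ε : ℝ, 0 < ε →
      ∫ z, Laplacian.laplacian ψ z * (1 / 2 * Real.log (‖z‖ ^ 2 + ε ^ 2)) =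
        ∫ y, ψ (ε • y) * (2 / (‖y‖ ^ 2 + 1) ^ 2) := by
    intro ε e0
    have cd : ContDiff ℝ 2 fun z : ℂ => 1 / 2 * Real.log (‖z‖ ^ 2 + ε ^ 2) :=
      contDiff_const.mul ((nsq_contDiff.add contDiff_const).log fun z => by positivity)
    rw [green_sym hψ hc cd]
    have l : ∀ z : ℂ, Laplacian.laplacian (fun z : ℂ => 1 / 2 * Real.log (‖z‖ ^ 2 + ε ^ 2)) z =
        2 * ε ^ 2 / (‖z‖ ^ 2 + ε ^ 2) ^ 2 := fun z => by
      have h1 : ∀ x : ℝ, 0 ≤ x → HasDerivAt (fun x => 1 / 2 * Real.log (x + ε ^ 2))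
          (1 / 2 * (x + ε ^ 2)⁻¹) x := fun x hx => by
        have := (((hasDerivAt_id x).add_const (ε ^ 2)).log
          (by simp only [id]; positivity)).const_mul (1 / 2)
        simpa only [id, one_div] using this
      have h0 : 0 < ‖z‖ ^ 2 + ε ^ 2 := by positivity
      have h2 : HasDerivAt (fun x : ℝ => 1 / 2 * (x + ε ^ 2)⁻¹)
          (1 / 2 * (-1 / (‖z‖ ^ 2 + ε ^ 2) ^ 2)) (‖z‖ ^ 2) :=
        (((hasDerivAt_id (‖z‖ ^ 2)).add_const (ε ^ 2)).inv h0.ne').const_mul (1 / 2)
      rw [lap_eq cd.contDiffAt, lap_radial (β := fun x => 1 / 2 * Real.log (x + ε ^ 2)) h1 h2]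
      field_simp
      ring
    simp only [l]
    have s := Measure.integral_comp_smul (volume : Measure ℂ)
      (fun z => ψ z * (2 * ε ^ 2 / (‖z‖ ^ 2 + ε ^ 2) ^ 2)) ε
    rw [Complex.finrank_real_complex, abs_of_pos (by positivity), smul_eq_mul,
      eq_inv_mul_iff_mul_eq₀ (by positivity), ← integral_const_mul] at s
    rw [← s]
    refine integral_congr_ae (Eventually.of_forall fun y => ?_)
    simp only [norm_smul, Real.norm_of_nonneg e0.le]
    field_simp
  have c1 : ContinuousWithinAt (fun ε : ℝ =>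
      ∫ z, Laplacian.laplacian ψ z * (1 / 2 * Real.log (‖z‖ ^ 2 + ε ^ 2))) (Ioc 0 1) 0 := by
    have nz : ∀ᵐ z : ℂ, z ≠ 0 := compl_mem_ae_iff.2 (measure_singleton (0 : ℂ))
    refine continuousWithinAt_of_dominated
      (bound := fun z => ‖Laplacian.laplacian ψ z‖ • (‖z‖⁻¹ + ‖z‖ ^ 2))
      (Eventually.of_forall fun ε => ?_) ?_ ?_ ?_
    · exact ((lap_cont hψ).measurable.mul (by fun_prop)).aestronglyMeasurable
    · filter_upwards [self_mem_nhdsWithin] with ε hε
      filter_upwards [nz] with z hz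
      rw [norm_mul, smul_eq_mul]
      refine mul_le_mul_of_nonneg_left ?_ (norm_nonneg _)
      have zp : 0 < ‖z‖ := norm_pos_iff.2 hz
      have a := Real.one_sub_inv_le_log_of_pos zp
      have b := Real.log_le_sub_one_of_pos (show 0 < ‖z‖ ^ 2 + ε ^ 2 by positivity)
      have c := Real.log_le_log (pow_pos zp 2) (show ‖z‖ ^ 2 ≤ ‖z‖ ^ 2 + ε ^ 2 by
        nlinarith [sq_nonneg ε])
      rw [Real.log_pow] at c
      have d : ε ^ 2 ≤ 1 := pow_le_one₀ hε.1.le hε.2
      have f := inv_pos.2 zp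
      push_cast at c
      exact abs_le.2 ⟨by nlinarith [sq_nonneg ‖z‖], by nlinarith [sq_nonneg ‖z‖]⟩
    · exact (locInt_inv.add (continuous_norm.pow 2).locallyIntegrable
        ).integrable_smul_left_of_hasCompactSupport (lap_cont hψ).norm (lap_cs hψ hc).norm
    · filter_upwards [nz] with z hz
      have zp : 0 < ‖z‖ := norm_pos_iff.2 hz
      refine ContinuousAt.continuousWithinAt ?_
      exact continuousAt_const.mul (continuousAt_const.mul
        (ContinuousAt.log (by fun_prop) (by positivity)))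
  have c2 : ContinuousWithinAt (fun ε : ℝ =>
      ∫ y, ψ (ε • y) * (2 / (‖y‖ ^ 2 + 1) ^ 2)) (Ioc 0 1) 0 := by
    obtain ⟨M, hM⟩ := hψ.continuous.bounded_above_of_compact_support hc
    have k : Continuous fun y : ℂ => 2 / (‖y‖ ^ 2 + 1) ^ 2 :=
      continuous_const.div (by fun_prop) fun y => by positivity
    have p := hψ.continuous
    refine continuousWithinAt_of_dominated (bound := fun y => M * (2 / (‖y‖ ^ 2 + 1) ^ 2))
      (Eventually.of_forall fun ε => ?_)
      (Eventually.of_forall fun ε => Eventually.of_forall fun y => ?_) ?_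
      (Eventually.of_forall fun y => ?_)
    · exact ((p.comp (by fun_prop)).mul k).aestronglyMeasurable
    · rw [norm_mul, Real.norm_of_nonneg (r := 2 / _) (by positivity)]
      exact mul_le_mul_of_nonneg_right (hM _) (by positivity)
    · refine Integrable.const_mul ?_ M
      by_contra hn
      have := int_ker
      rw [integral_undef hn] at this
      linarith [Real.pi_pos]
    · exact ((p.comp (by fun_prop)).mul continuous_const).continuousWithinAt
  have : (𝓝[Ioc (0 : ℝ) 1] 0).NeBot := by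
    rw [nhdsWithin_Ioc_eq_nhdsGT one_pos]
    infer_instance
  have u := tendsto_nhds_unique_of_eventuallyEq c1 c2 (by
    filter_upwards [self_mem_nhdsWithin] with ε hε
    exact e ε hε.1)
  simp only [zero_smul, integral_const_mul, int_ker] at u
  rw [mul_comm (2 * Real.pi), ← u]
  refine integral_congr_ae (Eventually.of_forall fun z => ?_)
  simp only [zero_pow two_ne_zero, add_zero, Real.log_pow]
  push_cast
  ring

/-- the logarithm is the fundamental solution -/
theorem fund {ψ : ℂ → ℝ} (hψ : ContDiff ℝ 2 ψ) (hc : HasCompactSupport ψ) (w : ℂ) :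
    ∫ z, Laplacian.laplacian ψ z * Real.log ‖z - w‖ = 2 * Real.pi * ψ w := by
  have cd : ContDiff ℝ 2 fun y => ψ (y + w) := hψ.comp (contDiff_id.add contDiff_const)
  have := fund0 cd (hc.comp_homeomorph (Homeomorph.addRight w))
  rw [zero_add] at this
  rw [← this, ← integral_add_right_eq_self _ w]
  simp only [add_sub_cancel_right, lap_eq cd.contDiffAt, lap_eq hψ.contDiffAt, lap_shift]

lemma locInt_log (w : ℂ) : LocallyIntegrable fun z : ℂ => Real.log ‖z - w‖ := by
  rw [locallyIntegrable_iff]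
  intro K hK
  have := locInt_log0.integrableOn_isCompact (hK.image (continuous_sub_right w))
  exact ((measurePreserving_sub_right volume w).restrict_image_emb
    (measurableEmbedding_subRight w) K).integrable_comp_of_integrable this

end Pool.Agent.Lib.MP_6359c9_pr.Pl
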