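import Pool.Agent.Lib.MP_6359c9_pr.LogDefs

/-! Abel inversion: a radial function whose row integrals are linear is a logarithm. -/

namespace Pool.Agent.Lib.MP_6359c9_pr.Pl

open Filter Topology MeasureTheory Set

lemma int_inv {w : ℝ} (hw : 0 < w) : Integrable fun s : ℝ => (s ^ 2 + w)⁻¹ := by
  refine (integrable_inv_one_add_sq.const_mul (1 + w⁻¹)).mono' ?_ (Eventually.of_forall fun s => ?_)
  · exact (Continuous.inv₀ (by fun_prop) fun s => by positivity).aestronglyMeasurable
  · have h1 : 0 < s ^ 2 + w := by positivity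
    have h2 : 0 < 1 + s ^ 2 := by positivity
    rw [Real.norm_of_nonneg (by positivity), ← div_eq_mul_inv, inv_eq_one_div,
      div_le_div_iff₀ h1 h2]
    have e : (1 + w⁻¹) * (s ^ 2 + w) = s ^ 2 + w + w⁻¹ * s ^ 2 + 1 := by field_simp; ring
    have : 0 ≤ w⁻¹ * s ^ 2 := by positivity
    rw [e]; linarith

/-- injectivity of the Abel transform on functions decaying like the inverse square -/
lemma abel_zero {u : ℝ → ℝ} {K : ℝ} (hc : ContinuousOn u (Ioi 0))
    (hb : ∀ x, 0 < x → |u x| ≤ K / x ^ 2) (h0 : ∀ w, 0 < w → ∫ s : ℝ, u (s ^ 2 + w) = 0) :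
    ∀ x, 0 < x → u x = 0 := by
  have K0 : 0 ≤ K := by simpa using (abs_nonneg _).trans (hb 1 one_pos)
  have tail : ∀ w, 0 < w → ∫ x in Ioi w, u x = 0 := by
    intro w hw
    have hi : Integrable (fun p : ℝ × ℝ => u (p.2 ^ 2 + (p.1 ^ 2 + w))) (volume.prod volume) := by
      refine (((int_inv hw).mul_prod (int_inv hw)).const_mul K).mono' ?_
        (Eventually.of_forall fun p => ?_)
      · exact (hc.comp_continuous (by fun_prop) fun p => by
          simp only [mem_Ioi]; positivity).aestronglyMeasurable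
      · refine (hb _ (by positivity)).trans ?_
        have h1 : 0 < p.1 ^ 2 + w := by positivity
        have h2 : 0 < p.2 ^ 2 + w := by positivity
        rw [← mul_inv, ← div_eq_mul_inv]
        refine div_le_div_of_nonneg_left K0 (by positivity) ?_
        rw [sq (p.2 ^ 2 + _)]
        exact mul_le_mul (by nlinarith [sq_nonneg p.2]) (by nlinarith [sq_nonneg p.1]) h2.le
          (by positivity)
    have e1 : ∫ p : ℝ × ℝ, u (p.2 ^ 2 + (p.1 ^ 2 + w)) = 0 := by
      rw [Measure.volume_eq_prod, integral_prod _ hi]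
      simp only [fun y : ℝ => h0 (y ^ 2 + w) (by positivity), integral_zero]
    rw [← integral_comp_polarCoord_symm] at e1
    have e2 : ∀ p : ℝ × ℝ, p.1 • u ((polarCoord.symm p).2 ^ 2 + ((polarCoord.symm p).1 ^ 2 + w)) =
        (fun r => r * u (r ^ 2 + w)) p.1 * (fun _ => (1 : ℝ)) p.2 := by
      intro p
      simp only [polarCoord_symm_apply, smul_eq_mul, mul_one]
      congr 2
      nlinarith [Real.sin_sq_add_cos_sq p.2]
    simp only [e2] at e1
    rw [polarCoord_target, Measure.volume_eq_prod,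
      setIntegral_prod_mul (fun r => r * u (r ^ 2 + w)) fun _ => (1 : ℝ)] at e1
    have e3 : ∫ y in Ioo (-Real.pi) Real.pi, (1 : ℝ) = 2 * Real.pi := by
      simp only [integral_const, MeasurableSet.univ, measureReal_restrict_apply, univ_inter,
        smul_eq_mul, mul_one]
      rw [Real.volume_real_Ioo_of_le (by linarith [Real.pi_pos])]; ring
    rw [e3] at e1
    have e4 : ∫ r in Ioi (0 : ℝ), r * u (r ^ 2 + w) = 0 :=
      (mul_eq_zero.1 e1).resolve_right (by positivity)
    have e5 := integral_comp_rpow_Ioi_of_pos (g := fun y => u (y + w)) (p := 2) two_pos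
    have e6 : ∫ x in Ioi (0 : ℝ), ((2 : ℝ) * x ^ ((2 : ℝ) - 1)) • u (x ^ (2 : ℝ) + w) =
        2 * ∫ r in Ioi (0 : ℝ), r * u (r ^ 2 + w) := by
      rw [← integral_const_mul]
      refine integral_congr_ae (Eventually.of_forall fun x => ?_)
      norm_num [mul_assoc]
    rw [e6, e4, mul_zero] at e5
    have e7 := (measurePreserving_add_right volume w).setIntegral_preimage_emb
      (measurableEmbedding_addRight w) u (Ioi w)
    rw [preimage_add_const_Ioi, sub_self] at e7
    rw [← e7, ← e5]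
  have io : ∀ w, 0 < w → IntegrableOn u (Ioi w) := by
    intro w hw
    refine Integrable.mono' ((integrableOn_Ioi_rpow_of_lt (a := -2) (by norm_num) hw).const_mul K)
      ((hc.mono (Ioi_subset_Ioi hw.le)).aestronglyMeasurable measurableSet_Ioi) ?_
    filter_upwards [ae_restrict_mem measurableSet_Ioi] with x hx
    have hx0 : 0 < x := hw.trans hx
    rw [Real.rpow_neg hx0.le, ← div_eq_mul_inv]
    simpa using hb x hx0
  intro x hx
  have hd : HasDerivAt (fun y => ∫ z in x..y, u z) (u x) x :=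
    intervalIntegral.integral_hasDerivAt_right IntervalIntegrable.refl
      (hc.stronglyMeasurableAtFilter isOpen_Ioi x hx) (hc.continuousAt (Ioi_mem_nhds hx))
  refine hd.unique ((hasDerivAt_const x (0 : ℝ)).congr_of_eventuallyEq ?_)
  filter_upwards [Ioi_mem_nhds hx] with y hy
  rw [← intervalIntegral.integral_Ioi_sub_Ioi' (io x hx) (io y hy), tail x hx, tail y hy, sub_zero]

lemma log_lip {a b : ℝ} (ha : 0 < a) (hab : a ≤ b) : |Real.log b - Real.log a| ≤ (b - a) / a := by
  have hb : 0 < b := ha.trans_le hab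
  rw [abs_of_nonneg (sub_nonneg.2 (Real.log_le_log ha hab)), ← Real.log_div hb.ne' ha.ne']
  refine (Real.log_le_sub_one_of_pos (by positivity)).trans_eq ?_
  field_simp

lemma log_int {t t' : ℝ} (ht : 0 < t) (htt : t ≤ t') :
    ∫ s : ℝ, (Real.log (s ^ 2 + t' ^ 2) - Real.log (s ^ 2 + t ^ 2)) = 2 * Real.pi * (t' - t) := by
  have ht' : 0 < t' := ht.trans_le htt
  have bd : ∀ s : ℝ, |Real.log (s ^ 2 + t' ^ 2) - Real.log (s ^ 2 + t ^ 2)| ≤
      (t' ^ 2 - t ^ 2) / (s ^ 2 + t ^ 2) := fun s => by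
    have := log_lip (a := s ^ 2 + t ^ 2) (b := s ^ 2 + t' ^ 2) (by positivity) (by gcongr)
    rwa [add_sub_add_left_eq_sub] at this
  have hi : Integrable fun s : ℝ => Real.log (s ^ 2 + t' ^ 2) - Real.log (s ^ 2 + t ^ 2) := by
    refine ((int_inv (w := t ^ 2) (by positivity)).const_mul (t' ^ 2 - t ^ 2)).mono' ?_
      (Eventually.of_forall fun s => bd s)
    exact ((Continuous.log (by fun_prop) fun s => by positivity).sub
      (Continuous.log (by fun_prop) fun s => by positivity)).aestronglyMeasurable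
  have one : ∀ t : ℝ, 0 < t → ∀ s : ℝ, HasDerivAt (fun s : ℝ => s * Real.log (s ^ 2 + t ^ 2) +
      2 * t * Real.arctan (s / t)) (Real.log (s ^ 2 + t ^ 2) + 2) s := by
    intro t ht s
    have h1 : HasDerivAt (fun s : ℝ => s ^ 2 + t ^ 2) (2 * s) s := by
      simpa using (hasDerivAt_pow 2 s).add_const (t ^ 2)
    have h2 := ((hasDerivAt_id s).mul (h1.log (by positivity))).add
      ((((hasDerivAt_id s).div_const t).arctan).const_mul (2 * t))
    refine h2.congr_deriv ?_
    simp only [id]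
    field_simp
    ring
  have lim0 : Tendsto (fun s : ℝ => s * (Real.log (s ^ 2 + t' ^ 2) - Real.log (s ^ 2 + t ^ 2)))
      (atBot ⊔ atTop) (𝓝 0) := by
    have h1 : Tendsto (fun s : ℝ => (t' ^ 2 - t ^ 2) / |s|) (atBot ⊔ atTop) (𝓝 0) :=
      tendsto_const_nhds.div_atTop (tendsto_sup.2 ⟨tendsto_abs_atBot_atTop, tendsto_abs_atTop_atTop⟩)
    refine squeeze_zero_norm' ?_ h1
    have h2 : ∀ᶠ s : ℝ in atBot ⊔ atTop, s ≠ 0 :=
      eventually_sup.2 ⟨eventually_ne_atBot 0, eventually_ne_atTop 0⟩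
    filter_upwards [h2] with s hs
    have h3 : 0 < |s| := abs_pos.2 hs
    have h4 : 0 ≤ t' ^ 2 - t ^ 2 := by nlinarith
    rw [Real.norm_eq_abs, abs_mul, le_div_iff₀ h3]
    have h5 := bd s
    rw [le_div_iff₀ (by positivity)] at h5
    have h6 : |s| * |s| = s ^ 2 := by rw [abs_mul_abs_self, sq]
    nlinarith [abs_nonneg (Real.log (s ^ 2 + t' ^ 2) - Real.log (s ^ 2 + t ^ 2)), sq_nonneg t]
  have top : ∀ t : ℝ, 0 < t → Tendsto (fun s : ℝ => 2 * t * Real.arctan (s / t)) atTop
      (𝓝 (2 * t * (Real.pi / 2))) := fun t ht =>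
    ((Real.tendsto_arctan_atTop.mono_right nhdsWithin_le_nhds).comp
      (tendsto_id.atTop_div_const ht)).const_mul _
  have bot : ∀ t : ℝ, 0 < t → Tendsto (fun s : ℝ => 2 * t * Real.arctan (s / t)) atBot
      (𝓝 (2 * t * (-(Real.pi / 2)))) := fun t ht =>
    ((Real.tendsto_arctan_atBot.mono_right nhdsWithin_le_nhds).comp
      (tendsto_id.atBot_div_const ht)).const_mul _
  have := integral_of_hasDerivAt_of_tendsto (f := fun s : ℝ =>
      s * (Real.log (s ^ 2 + t' ^ 2) - Real.log (s ^ 2 + t ^ 2)) +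
        (2 * t' * Real.arctan (s / t') - 2 * t * Real.arctan (s / t)))
    (fun s => by
      convert (one t' ht' s).sub (one t ht s) using 1
      · ext s; simp only [Pi.sub_apply]; ring
      · ring) hi
    ((lim0.mono_left le_sup_left).add ((bot t' ht').sub (bot t ht)))
    ((lim0.mono_left le_sup_right).add ((top t' ht').sub (top t ht)))
  rw [this]; ring

/-- the square root on the right half plane -/
lemma sqrt_re {ζ : ℂ} (h : 0 < ζ.re) : 0 < (ζ ^ (2⁻¹ : ℂ)).re ∧ ζ.re ≤ (ζ ^ (2⁻¹ : ℂ)).re ^ 2 := by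
  have h1 : (ζ ^ (2⁻¹ : ℂ)).re = √((‖ζ‖ + ζ.re) / 2) := Complex.cpow_inv_two_re ζ
  have h2 := Complex.re_le_norm ζ
  rw [h1, Real.sq_sqrt (by linarith)]
  exact ⟨Real.sqrt_pos.2 (by linarith), by linarith⟩

lemma sqrt_real {x : ℝ} (h : 0 < x) : (x : ℂ) ^ (2⁻¹ : ℂ) = (√x : ℝ) := by
  rw [Real.sqrt_eq_rpow, Complex.ofReal_cpow h.le]; norm_num

lemma Ext.diffs {f : ℝ → ℝ} {C : ℝ} (h : Ext f C) : ContinuousOn (fun x => f (√x)) (Ioi 0) ∧
    (∀ η x : ℝ, 0 ≤ η → 0 < x → |f (√(x + η)) - f (√x)| ≤ C * η / x) ∧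
    ∀ η η' x : ℝ, 0 ≤ η → 0 ≤ η' → 0 < x →
      |f (√(x + η' + η)) - f (√(x + η')) - (f (√(x + η)) - f (√x))| ≤ 4 * C * η * η' / x ^ 2 := by
  obtain ⟨Φ, hd, hr, hl⟩ := h
  have C0 : 0 ≤ C := by
    have := (norm_nonneg _).trans (hl 2 1 (by norm_num) (by norm_num))
    norm_num at this
    exact this
  have hΨ : DifferentiableOn ℂ (fun ζ : ℂ => Φ (ζ ^ (2⁻¹ : ℂ))) {ζ | 0 < ζ.re} :=
    hd.comp (differentiableOn_id.cpow_const fun ζ hζ => Or.inl hζ) fun ζ hζ => (sqrt_re hζ).1
  have re : ∀ x : ℝ, 0 < x → Φ ((x : ℂ) ^ (2⁻¹ : ℂ)) = f (√x) := fun x hx => by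
    rw [sqrt_real hx, hr _ (Real.sqrt_pos.2 hx)]
  have lip : ∀ (η : ℝ) (ζ : ℂ), 0 ≤ η → 0 < ζ.re →
      ‖Φ ((ζ + η) ^ (2⁻¹ : ℂ)) - Φ (ζ ^ (2⁻¹ : ℂ))‖ ≤ C * η / ζ.re := by
    intro η ζ hη hζ
    have h1 := sqrt_re hζ
    have h2 := sqrt_re (ζ := ζ + η) (by simp; linarith)
    refine (hl _ _ h2.1 h1.1).trans ?_
    generalize hp : ζ ^ (2⁻¹ : ℂ) = p at h1 h2
    generalize hq : (ζ + η) ^ (2⁻¹ : ℂ) = q at h1 h2
    have e1 : p ^ 2 = ζ := by rw [← hp]; exact Complex.cpow_nat_inv_pow ζ two_ne_zero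
    have e2 : q ^ 2 = ζ + η := by rw [← hq]; exact Complex.cpow_nat_inv_pow _ two_ne_zero
    have e3 : ‖q - p‖ * ‖q + p‖ = η := by
      rw [← norm_mul, show (q - p) * (q + p) = q ^ 2 - p ^ 2 by ring, e1, e2, add_sub_cancel_left,
        Complex.norm_real, Real.norm_of_nonneg hη]
    have e4 : q.re + p.re ≤ ‖q + p‖ := Complex.re_le_norm (q + p)
    have hm : 0 < min q.re p.re := lt_min h2.1 h1.1
    have e5 : ζ.re ≤ ‖q + p‖ * min q.re p.re := by
      simp only [Complex.add_re, Complex.ofReal_re] at h2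
      rcases le_total q.re p.re with h | h
      · rw [min_eq_left h]; nlinarith [h1.1, h2.1, h2.2]
      · rw [min_eq_right h]; nlinarith [h1.1, h2.1, h1.2]
    rw [div_le_div_iff₀ hm hζ, ← e3, mul_assoc, mul_assoc, mul_assoc]
    gcongr
  refine ⟨?_, fun η x hη hx => ?_, fun η η' x hη hη' hx => ?_⟩
  · refine ContinuousOn.congr (f := fun x : ℝ => (Φ ((x : ℂ) ^ (2⁻¹ : ℂ))).re) ?_
      fun x hx => by simp only [re x hx, Complex.ofReal_re]
    exact Complex.continuous_re.comp_continuousOn (hΨ.continuousOn.comp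
      Complex.continuous_ofReal.continuousOn fun x hx => hx)
  · have := lip η x hη hx
    rwa [← Complex.ofReal_add, re _ hx, re _ (by positivity), ← Complex.ofReal_sub,
      Complex.norm_real] at this
  · have hG : DifferentiableOn ℂ (fun ζ : ℂ => Φ ((ζ + η) ^ (2⁻¹ : ℂ)) - Φ (ζ ^ (2⁻¹ : ℂ)))
        {ζ | 0 < ζ.re} :=
      (hΨ.comp (differentiableOn_id.add_const (η : ℂ)) fun ζ hζ => by
        simp only [mem_ofPred_eq, id, Complex.add_re, Complex.ofReal_re] at *; linarith).sub hΨ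
    generalize hGd : (fun ζ : ℂ => Φ ((ζ + η) ^ (2⁻¹ : ℂ)) - Φ (ζ ^ (2⁻¹ : ℂ))) = G at hG
    have hGb : ∀ ζ : ℂ, 0 < ζ.re → ‖G ζ‖ ≤ C * η / ζ.re := fun ζ hζ => hGd ▸ lip η ζ hη hζ
    have op : IsOpen {ζ : ℂ | 0 < ζ.re} := isOpen_lt continuous_const Complex.continuous_re
    have der : ∀ ζ : ℂ, x ≤ ζ.re → ‖deriv G ζ‖ ≤ 4 * C * η / x ^ 2 := by
      intro ζ hζ
      have sub : ∀ z ∈ Metric.closedBall ζ (x / 2), x / 2 ≤ z.re := fun z hz => by
        have h1 := Complex.re_le_norm (ζ - z)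
        rw [mem_closedBall_iff_norm'] at hz
        simp only [Complex.sub_re] at h1
        linarith
      have := Complex.norm_deriv_le_of_forall_mem_sphere_norm_le (c := ζ) (R := x / 2)
        (C := C * η / (x / 2)) (f := G) (by positivity)
        (hG.diffContOnCl_ball fun z hz => lt_of_lt_of_le (by positivity) (sub z hz))
        fun z hz => by
          have h1 := sub z (Metric.sphere_subset_closedBall hz)
          exact (hGb z (by linarith)).trans
            (div_le_div_of_nonneg_left (by positivity) (by positivity) h1)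
      refine this.trans_eq ?_
      field_simp; ring
    have mv := (convex_halfSpace_re_ge x).norm_image_sub_le_of_norm_deriv_le (𝕜 := ℂ) (f := G)
      (fun z hz => hG.differentiableAt (op.mem_nhds (hx.trans_le hz))) der
      (x := (x : ℂ)) (y := ((x + η' : ℝ) : ℂ)) (le_refl x) (le_add_of_nonneg_right hη')
    rw [← hGd] at mv
    simp only [← Complex.ofReal_add, ← Complex.ofReal_sub, Complex.norm_real, re _ hx,
      re (x + η) (by positivity), re (x + η') (by positivity), re (x + η' + η) (by positivity),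
      add_sub_cancel_left, Real.norm_eq_abs, abs_of_nonneg hη'] at mv
    refine mv.trans_eq ?_
    ring

theorem abel {f : ℝ → ℝ} {C β : ℝ} (h : Ext f C)
    (hI : ∀ t t' : ℝ, 0 < t → 0 < t' →
      ∫ s : ℝ, (f (√(s ^ 2 + t' ^ 2)) - f (√(s ^ 2 + t ^ 2))) = β * (t' - t)) :
    ∀ r r' : ℝ, 0 < r → 0 < r' → f r' - f r = β / Real.pi * Real.log (r' / r) := by
  obtain ⟨hc, h1, h2⟩ := h.diffs
  obtain ⟨κ, hκ⟩ : ∃ κ, κ = β / (2 * Real.pi) := ⟨_, rfl⟩
  obtain ⟨R, hR⟩ : ∃ R : ℝ → ℝ, R = fun x => f (√x) - κ * Real.log x := ⟨_, rfl⟩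
  have Rc : ContinuousOn R (Ioi 0) := hR ▸ hc.sub (continuousOn_const.mul
    (Real.continuousOn_log.mono fun x hx => ne_of_gt hx))
  have R1 : ∀ η x : ℝ, 0 ≤ η → 0 < x → |R (x + η) - R x| ≤ (C + |κ|) * η / x := by
    intro η x hη hx
    have a := h1 η x hη hx
    have b := log_lip hx (le_add_of_nonneg_right hη)
    rw [add_sub_cancel_left] at b
    have e : R (x + η) - R x = (f (√(x + η)) - f (√x)) - κ * (Real.log (x + η) - Real.log x) := by
      rw [hR]; ring
    rw [e]
    refine (abs_sub _ _).trans ?_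
    rw [abs_mul, add_mul, add_div, mul_div_assoc |κ|]
    gcongr
  have R2 : ∀ η η' x : ℝ, 0 ≤ η → 0 ≤ η' → 0 < x →
      |R (x + η' + η) - R (x + η') - (R (x + η) - R x)| ≤ (4 * C + |κ|) * η * η' / x ^ 2 := by
    intro η η' x hη hη' hx
    have a := h2 η η' x hη hη' hx
    have b := log_lip (a := (x + η' + η) * x) (b := (x + η') * (x + η)) (by positivity)
      (by nlinarith [mul_nonneg hη hη'])
    rw [Real.log_mul (by positivity) (by positivity), Real.log_mul (by positivity) hx.ne'] at b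
    have b' : ((x + η') * (x + η) - (x + η' + η) * x) / ((x + η' + η) * x) ≤ η * η' / x ^ 2 := by
      rw [show (x + η') * (x + η) - (x + η' + η) * x = η * η' by ring]
      exact div_le_div_of_nonneg_left (by positivity) (by positivity) (by nlinarith)
    have e : R (x + η' + η) - R (x + η') - (R (x + η) - R x) =
        (f (√(x + η' + η)) - f (√(x + η')) - (f (√(x + η)) - f (√x))) +
        κ * (Real.log (x + η') + Real.log (x + η) - (Real.log (x + η' + η) + Real.log x)) := by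
      rw [hR]; ring
    rw [e]
    refine (abs_add_le _ _).trans ?_
    rw [abs_mul, add_mul, add_mul, add_div, mul_assoc |κ|, mul_div_assoc |κ|]
    gcongr
    exact b.trans b'
  have ct : ∀ {g : ℝ → ℝ}, ContinuousOn g (Ioi 0) → ∀ w : ℝ, 0 < w →
      Continuous fun s : ℝ => g (s ^ 2 + w) := fun hg w hw =>
    hg.comp_continuous (by fun_prop) fun s => by simp only [mem_Ioi]; positivity
  have it : ∀ {g : ℝ → ℝ} {K : ℝ}, ContinuousOn g (Ioi 0) →
      (∀ η x : ℝ, 0 ≤ η → 0 < x → |g (x + η) - g x| ≤ K * η / x) → ∀ η w : ℝ, 0 ≤ η → 0 < w →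
      Integrable fun s : ℝ => g (s ^ 2 + (w + η)) - g (s ^ 2 + w) := by
    intro g K hg hb η w hη hw
    refine ((int_inv hw).const_mul (K * η)).mono'
      ((ct hg _ (by positivity)).sub (ct hg _ hw)).aestronglyMeasurable
      (Eventually.of_forall fun s => ?_)
    rw [← add_assoc]
    exact hb η _ hη (by positivity)
  have I1 : ∀ η w : ℝ, 0 ≤ η → 0 < w → ∫ s : ℝ, (R (s ^ 2 + (w + η)) - R (s ^ 2 + w)) = 0 := by
    intro η w hη hw
    have a := hI (√w) (√(w + η)) (Real.sqrt_pos.2 hw) (Real.sqrt_pos.2 (by positivity))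
    have b := log_int (Real.sqrt_pos.2 hw) (Real.sqrt_le_sqrt (le_add_of_nonneg_right hη))
    rw [Real.sq_sqrt hw.le, Real.sq_sqrt (by positivity)] at a b
    have e : ∀ s : ℝ, R (s ^ 2 + (w + η)) - R (s ^ 2 + w) =
        (f (√(s ^ 2 + (w + η))) - f (√(s ^ 2 + w))) -
          κ * (Real.log (s ^ 2 + (w + η)) - Real.log (s ^ 2 + w)) := fun s => by rw [hR]; ring
    simp only [e]
    rw [integral_sub (it hc h1 η w hη hw) ((it (K := 1)
      (Real.continuousOn_log.mono fun x hx => ne_of_gt hx) (fun η x hη hx => by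
        simpa using log_lip hx (le_add_of_nonneg_right hη)) η w hη hw).const_mul κ),
      integral_const_mul, a, b, hκ]
    field_simp
    ring
  have Z2 : ∀ η η' : ℝ, 0 ≤ η → 0 ≤ η' → ∀ x, 0 < x →
      R (x + η' + η) - R (x + η') - (R (x + η) - R x) = 0 := by
    intro η η' hη hη'
    have sh : ∀ a : ℝ, 0 ≤ a → ContinuousOn (fun x => R (x + a)) (Ioi 0) := fun a ha =>
      Rc.comp (by fun_prop) fun x hx => by simp only [mem_Ioi] at *; linarith
    refine abel_zero (K := (4 * C + |κ|) * η * η') ?_ (fun x hx => R2 η η' x hη hη' hx) ?_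
    · simp only [add_assoc]
      exact ((sh _ (by positivity)).sub (sh _ hη')).sub ((sh _ hη).sub Rc)
    · intro w hw
      have := integral_sub (it Rc R1 η (w + η') hη (by positivity)) (it Rc R1 η w hη hw)
      rw [I1 η _ hη (by positivity), I1 η w hη hw, sub_zero] at this
      simpa only [add_assoc] using this
  have Z1 : ∀ η x : ℝ, 0 ≤ η → 0 < x → R (x + η) = R x := by
    intro η x hη hx
    have t : Tendsto (fun y : ℝ => (C + |κ|) * η / (x + y)) atTop (𝓝 0) :=
      tendsto_const_nhds.div_atTop (tendsto_atTop_add_const_left _ _ tendsto_id)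
    have : |R (x + η) - R x| ≤ 0 := by
      refine ge_of_tendsto t ?_
      filter_upwards [eventually_ge_atTop 0] with y hy
      rw [← sub_eq_zero.1 (Z2 η y hη hy x hx)]
      exact R1 η _ hη (by positivity)
    exact sub_eq_zero.1 (abs_nonpos_iff.1 this)
  have Z : ∀ r r' : ℝ, 0 < r → r ≤ r' → R (r' ^ 2) = R (r ^ 2) := fun r r' hr hr' => by
    have := Z1 (r' ^ 2 - r ^ 2) (r ^ 2) (by nlinarith) (by positivity)
    rwa [add_sub_cancel] at this
  intro r r' hr hr'
  have e : R (r' ^ 2) = R (r ^ 2) := (le_total r r').elim (Z r r' hr) fun h => (Z r' r hr' h).symm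
  simp only [hR, Real.sqrt_sq hr.le, Real.sqrt_sq hr'.le, Real.log_pow, hκ] at e
  rw [Real.log_div hr'.ne' hr.ne']
  have hp := Real.pi_pos
  field_simp at e ⊢
  push_cast at e
  linarith

end Pool.Agent.Lib.MP_6359c9_pr.Pl
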