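import Pool.Agent.Lib.MP_6359c9_pr.LogLiou

/-! Isotropy of the continuum limits. -/

namespace Pool.Agent.Lib.MP_6359c9_pr.Pl

open Filter Topology MeasureTheory Set

lemma cos_re (θ : ℂ) : (Complex.cos θ).re = Real.cos θ.re * Real.cosh θ.im := by
  rw [Complex.cos_eq]
  simp [← Complex.ofReal_cos, ← Complex.ofReal_sin, ← Complex.ofReal_cosh, ← Complex.ofReal_sinh]

lemma cos_im (θ : ℂ) : (Complex.cos θ).im = -(Real.sin θ.re * Real.sinh θ.im) := by
  rw [Complex.cos_eq]
  simp [← Complex.ofReal_cos, ← Complex.ofReal_sin, ← Complex.ofReal_cosh, ← Complex.ofReal_sinh]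

lemma sin_re (θ : ℂ) : (Complex.sin θ).re = Real.sin θ.re * Real.cosh θ.im := by
  rw [Complex.sin_eq]
  simp [← Complex.ofReal_cos, ← Complex.ofReal_sin, ← Complex.ofReal_cosh, ← Complex.ofReal_sinh]

lemma sin_im (θ : ℂ) : (Complex.sin θ).im = Real.cos θ.re * Real.sinh θ.im := by
  rw [Complex.sin_eq]
  simp [← Complex.ofReal_cos, ← Complex.ofReal_sin, ← Complex.ofReal_cosh, ← Complex.ofReal_sinh]

lemma cosh_le (y : ℝ) : Real.cosh y ≤ Real.exp |y| := by
  rw [Real.cosh_eq]
  have h1 := Real.exp_le_exp.2 (le_abs_self y)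
  have h2 := Real.exp_le_exp.2 (neg_le_abs y)
  linarith

lemma norm_le_cosh {z : ℂ} {a b y : ℝ} (h : a ^ 2 + b ^ 2 = 1) (h1 : z.re = a * Real.cosh y)
    (h2 : z.im ^ 2 = (b * Real.sinh y) ^ 2) : ‖z‖ ≤ Real.exp |y| := by
  refine le_trans (abs_le_of_sq_le_sq' ?_ (Real.cosh_pos y).le).2 (cosh_le y)
  rw [Complex.sq_norm, Complex.normSq_apply, ← sq, ← sq, h1, h2, mul_pow, mul_pow]
  have := Real.cosh_sq y
  nlinarith [sq_nonneg b]

lemma norm_cos_le (θ : ℂ) : ‖Complex.cos θ‖ ≤ Real.exp |θ.im| :=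
  norm_le_cosh (Real.cos_sq_add_sin_sq θ.re) (cos_re θ) (by rw [cos_im, neg_sq])

lemma norm_sin_le (θ : ℂ) : ‖Complex.sin θ‖ ≤ Real.exp |θ.im| :=
  norm_le_cosh (Real.sin_sq_add_cos_sq θ.re) (sin_re θ) (by rw [sin_im])

lemma tan_re (θ : ℂ) :
    (Complex.tan θ).re = Real.sin θ.re * Real.cos θ.re / ‖Complex.cos θ‖ ^ 2 := by
  rw [Complex.tan_eq_sin_div_cos, Complex.div_re, Complex.sq_norm, ← add_div, sin_re, sin_im,
    cos_re, cos_im]
  congr 1
  have := Real.cosh_sq θ.im
  linear_combination (Real.sin θ.re * Real.cos θ.re) * this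

/-- the strip -/
def St : Set ℂ := {θ | 0 < θ.re ∧ θ.re < Real.pi / 2}

lemma St.cos_pos {θ : ℂ} (h : θ ∈ St) : 0 < Real.cos θ.re :=
  Real.cos_pos_of_mem_Ioo ⟨by linarith [h.1, Real.pi_pos], h.2⟩

lemma St.sin_pos {θ : ℂ} (h : θ ∈ St) : 0 < Real.sin θ.re :=
  Real.sin_pos_of_pos_of_lt_pi h.1 (by linarith [h.2, Real.pi_pos])

lemma St.re_cos {θ : ℂ} (h : θ ∈ St) : 0 < (Complex.cos θ).re := by
  rw [cos_re]
  exact mul_pos (St.cos_pos h) (Real.cosh_pos _)

lemma St.cos_ne {θ : ℂ} (h : θ ∈ St) : Complex.cos θ ≠ 0 := fun e => by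
  simpa [e] using St.re_cos h

lemma St.re_tan {θ : ℂ} (h : θ ∈ St) : 0 < (Complex.tan θ).re := by
  rw [tan_re]
  exact div_pos (mul_pos (St.sin_pos h) (St.cos_pos h))
    (pow_pos (norm_pos_iff.2 (St.cos_ne h)) 2)

lemma St.tan_diff : DifferentiableOn ℂ Complex.tan St := fun _ h =>
  (Complex.differentiableAt_tan.2 (St.cos_ne h)).differentiableWithinAt

lemma St.log_diff : DifferentiableOn ℂ (fun θ => Complex.log (Complex.cos θ)) St := fun θ h =>
  ((Complex.differentiable_cos θ).clog (Or.inl (St.re_cos h))).differentiableWithinAt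

/-- the size of the relative Lipschitz bound -/
noncomputable def rr (θ : ℂ) : ℝ := ‖Complex.tan θ - 1‖ / min (Complex.tan θ).re 1

/-- the real part of the logarithm of the cosine -/
noncomputable def ll (θ : ℂ) : ℝ := (Complex.log (Complex.cos θ)).re

lemma rr_cont : ContinuousOn rr St := by
  have h := St.tan_diff.continuousOn
  refine ContinuousOn.div (h.sub continuousOn_const).norm
    ((Complex.continuous_re.comp_continuousOn h).inf continuousOn_const) fun θ hθ => ?_
  exact (lt_min (St.re_tan hθ) one_pos).ne'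

lemma ll_cont : ContinuousOn ll St :=
  Complex.continuous_re.comp_continuousOn St.log_diff.continuousOn

lemma mid_bounds {θ : ℂ} (h1 : Real.pi / 12 ≤ θ.re) (h2 : θ.re ≤ 5 * Real.pi / 12) :
    θ ∈ St ∧ rr θ ≤ 20 * Real.exp (5 * |θ.im|) ∧
      Real.exp |ll θ| ≤ 4 * Real.exp (5 * |θ.im|) := by
  have pp := Real.pi_pos
  have hS : θ ∈ St := ⟨by linarith, by linarith⟩
  have sc : 1 / 4 ≤ Real.sin θ.re * Real.cos θ.re := by
    have a : Real.cos (Real.pi / 3) ≤ Real.cos |2 * θ.re - Real.pi / 2| :=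
      Real.cos_le_cos_of_nonneg_of_le_pi (abs_nonneg _) (by linarith)
        (abs_le.2 ⟨by linarith, by linarith⟩)
    rw [Real.cos_abs, Real.cos_pi_div_three, Real.cos_sub_pi_div_two, Real.sin_two_mul] at a
    linarith
  have c4 : 1 / 4 ≤ ‖Complex.cos θ‖ := by
    refine le_trans ?_ (Complex.re_le_norm _)
    rw [cos_re]
    have a := St.cos_pos hS
    have b := Real.one_le_cosh θ.im
    have c := Real.sin_le_one θ.re
    nlinarith
  set e := Real.exp |θ.im| with he
  have e1 : 1 ≤ e := Real.one_le_exp (abs_nonneg _)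
  have e5 : Real.exp (5 * |θ.im|) = e ^ 5 := by rw [he, ← Real.exp_nat_mul]; norm_num
  have cu : ‖Complex.cos θ‖ ≤ e := norm_cos_le θ
  have su : ‖Complex.sin θ‖ ≤ e := norm_sin_le θ
  have cp : 0 < ‖Complex.cos θ‖ := by linarith
  have p1 : e ≤ e ^ 5 := le_self_pow₀ e1 (by norm_num)
  refine ⟨hS, ?_, ?_⟩
  · have t1 : ‖Complex.tan θ - 1‖ ≤ 5 * e := by
      refine (norm_sub_le _ _).trans ?_
      have : ‖Complex.tan θ‖ ≤ 4 * e := by
        rw [Complex.tan_eq_sin_div_cos, norm_div, div_le_iff₀ cp]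
        nlinarith
      rw [norm_one]
      linarith
    have t2 : 1 / (4 * e ^ 2) ≤ min (Complex.tan θ).re 1 := by
      refine le_min ?_ ?_
      · rw [tan_re, div_le_div_iff₀ (by positivity) (by positivity)]
        have := pow_le_pow_left₀ cp.le cu 2
        nlinarith [sq_nonneg e]
      · rw [div_le_one (by positivity)]
        nlinarith
    have p3 : e ^ 3 ≤ e ^ 5 := pow_le_pow_right₀ e1 (by norm_num)
    calc rr θ ≤ 5 * e / (1 / (4 * e ^ 2)) :=
          div_le_div₀ (by positivity) t1 (by positivity) t2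
      _ = 20 * e ^ 3 := by field_simp; norm_num
      _ ≤ _ := by rw [e5]; linarith
  · rw [e5, ll, Complex.log_re]
    rcases abs_cases (Real.log ‖Complex.cos θ‖) with h | h <;> rw [h.1]
    · rw [Real.exp_log cp]
      linarith
    · rw [Real.exp_neg, Real.exp_log cp]
      have : ‖Complex.cos θ‖⁻¹ ≤ 4 := by
        rw [inv_le_comm₀ cp (by norm_num)]
        linarith
      nlinarith

namespace Cont

variable {A : ℂ → ℝ} {C : ℝ}

lemma nonneg (h : Cont A C) : 0 ≤ C := by
  have := (abs_nonneg _).trans (h.lip 2 1 (by norm_num) (by norm_num))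
  norm_num at this
  exact this

lemma contAt (h : Cont A C) {z : ℂ} (hz : z ≠ 0) : ContinuousAt A z := by
  have zp : 0 < ‖z‖ := norm_pos_iff.2 hz
  rw [ContinuousAt, tendsto_iff_norm_sub_tendsto_zero]
  have c : Continuous fun w : ℂ => C * ‖w - z‖ / (‖z‖ / 2) := by fun_prop
  have t := c.tendsto z
  simp only [sub_self, norm_zero, mul_zero, zero_div] at t
  refine squeeze_zero' (Eventually.of_forall fun _ => norm_nonneg _) ?_ t
  filter_upwards [Metric.ball_mem_nhds z (half_pos zp)] with w hw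
  rw [mem_ball_iff_norm] at hw
  have a : ‖z‖ / 2 ≤ ‖w‖ := by
    have := norm_sub_norm_le z w
    rw [norm_sub_rev] at this
    linarith
  have w0 : w ≠ 0 := norm_pos_iff.1 (by linarith)
  refine (h.lip w z w0 hz).trans (div_le_div_of_nonneg_left ?_ (half_pos zp) (le_min a (by linarith)))
  exact mul_nonneg h.nonneg (norm_nonneg _)

lemma grow (h : Cont A C) {z : ℂ} (hz : z ≠ 0) (v : ℝ) :
    |A (Real.exp v * z)| ≤ |A z| + C * Real.exp |v| := by
  have zp : 0 < ‖z‖ := norm_pos_iff.2 hz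
  have ep := Real.exp_pos v
  have a := h.lip (Real.exp v * z) z (mul_ne_zero (by exact_mod_cast ep.ne') hz) hz
  have n1 : ‖(Real.exp v : ℂ) * z - z‖ = |Real.exp v - 1| * ‖z‖ := by
    rw [← sub_one_mul, norm_mul, ← Complex.ofReal_one, ← Complex.ofReal_sub, Complex.norm_real,
      Real.norm_eq_abs]
  have n2 : ‖(Real.exp v : ℂ) * z‖ = Real.exp v * ‖z‖ := by
    rw [norm_mul, Complex.norm_real, Real.norm_of_nonneg ep.le]
  rw [n1, n2, mul_div_assoc] at a
  have b : |Real.exp v - 1| * ‖z‖ / min (Real.exp v * ‖z‖) ‖z‖ ≤ Real.exp |v| := by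
    rw [div_le_iff₀ (lt_min (by positivity) zp)]
    rcases le_total 0 v with hv | hv
    · have e1 := Real.one_le_exp hv
      rw [abs_of_nonneg hv, abs_of_nonneg (by linarith), min_eq_right (by nlinarith)]
      nlinarith
    · have e1 := Real.exp_le_one_iff.2 hv
      rw [abs_of_nonpos hv, abs_of_nonpos (by linarith), min_eq_left (by nlinarith), ← mul_assoc,
        ← Real.exp_add, neg_add_cancel, Real.exp_zero]
      nlinarith
  have c := mul_le_mul_of_nonneg_left b h.nonneg
  have d := abs_sub_abs_le_abs_sub (A (Real.exp v * z)) (A z)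
  linarith

/-- the rescaled holomorphic extensions depend continuously on the scale -/
lemma exP (h : Cont A C) : ∃ P : ℝ → ℂ → ℂ,
    (∀ v, DifferentiableOn ℂ (P v) {τ | 0 < τ.re}) ∧
    (∀ v t : ℝ, 0 < t → P v t = A (Real.exp v * (1 + t * Complex.I))) ∧
    (∀ v τ τ', 0 < τ.re → 0 < τ'.re → ‖P v τ - P v τ'‖ ≤ C * ‖τ - τ'‖ / min τ.re τ'.re) ∧
    ∀ τ : ℂ, 0 < τ.re → Continuous fun v => P v τ := by
  choose Φ hd hr hl using h.ext
  set P : ℝ → ℂ → ℂ := fun v τ => Φ (Real.exp v) (Real.exp v * τ) with hP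
  have re : ∀ (v : ℝ) (τ : ℂ), ((Real.exp v : ℂ) * τ).re = Real.exp v * τ.re := fun v τ =>
    Complex.re_ofReal_mul _ _
  have Pd : ∀ v, DifferentiableOn ℂ (P v) {τ | 0 < τ.re} := fun v => by
    refine (hd _).comp (differentiableOn_id.const_mul _) fun τ hτ => ?_
    change 0 < ((Real.exp v : ℂ) * τ).re
    rw [re]
    exact mul_pos (Real.exp_pos v) hτ
  have Pr : ∀ v t : ℝ, 0 < t → P v t = A (Real.exp v * (1 + t * Complex.I)) := fun v t ht => by
    have := hr (Real.exp v) (Real.exp v * t) (mul_pos (Real.exp_pos v) ht)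
    simp only [hP]
    rw [← Complex.ofReal_mul, this]
    beta_reduce
    congr 2
    rw [Complex.ofReal_mul]
    ring
  have Pl : ∀ v τ τ', 0 < τ.re → 0 < τ'.re →
      ‖P v τ - P v τ'‖ ≤ C * ‖τ - τ'‖ / min τ.re τ'.re := fun v τ τ' h1 h2 => by
    have ep := Real.exp_pos v
    refine (hl _ _ _ (by rw [re]; positivity) (by rw [re]; positivity)).trans (le_of_eq ?_)
    rw [re, re, ← mul_sub, norm_mul, Complex.norm_real, Real.norm_of_nonneg ep.le,
      ← mul_min_of_nonneg _ _ ep.le]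
    have := (lt_min h1 h2).ne'
    field_simp
  have Ac : ∀ t : ℝ, Continuous fun v : ℝ =>
      ((A (Real.exp v * (1 + t * Complex.I)) : ℝ) : ℂ) := fun t => by
    refine Complex.continuous_ofReal.comp (continuous_iff_continuousAt.2 fun v => ?_)
    refine ContinuousAt.comp (g := A) (h.contAt (mul_ne_zero ?_ fun e => ?_)) (by fun_prop)
    · exact_mod_cast (Real.exp_pos v).ne'
    · simpa using congrArg Complex.re e
  refine ⟨P, Pd, Pr, Pl, fun τ hτ => continuous_iff_continuousAt.2 fun v => ?_⟩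
  rw [ContinuousAt, tendsto_iff_ultrafilter]
  intro l hl'
  have tr : ∀ t : ℝ, 0 < t → Tendsto (fun w => P w t) l (𝓝 (P v t)) := fun t ht => by
    simp only [Pr _ t ht]
    exact ((Ac t).tendsto v).mono_left hl'
  obtain ⟨Ψ, d, t, -⟩ := holo_lim l P C (‖P v (1 : ℝ)‖ + 1) (1 : ℝ) (by simp)
    ((tr 1 one_pos).norm.eventually_le_const (lt_add_one _)) (Eventually.of_forall Pd)
    fun δ hδ => Eventually.of_forall fun w ζ ζ' h1 h2 =>
      (Pl w ζ ζ' (by linarith) (by linarith)).trans (div_le_div_of_nonneg_left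
        (mul_nonneg h.nonneg (norm_nonneg _)) hδ (le_min h1 h2))
  have e := eq_of_real isOpen_re_pos (convex_halfSpace_re_gt 0) d (Pd v) (x₀ := 1) (by simp)
    fun x hx => tendsto_nhds_unique (t x hx) (tr x (by simpa using hx))
  rw [← e hτ]
  exact t τ hτ

end Cont

lemma gauss_int : Integrable fun x : ℝ => Real.exp (-(1 / 2) * x ^ 2) :=
  integrable_exp_neg_mul_sq (by norm_num)

lemma gauss_int' : Integrable fun x : ℝ => Real.exp (-(1 / 4) * x ^ 2) :=
  integrable_exp_neg_mul_sq (by norm_num)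

lemma exp_abs_gauss (y : ℝ) :
    Real.exp |y| * Real.exp (-y ^ 2) ≤ Real.exp (1 / 2) * Real.exp (-(1 / 2) * y ^ 2) := by
  rw [← Real.exp_add, ← Real.exp_add, Real.exp_le_exp]
  nlinarith [sq_nonneg (|y| - 1), sq_abs y]

lemma om_eq : om = Complex.exp ((Real.pi / 3 : ℝ) * Complex.I) := by
  apply Complex.ext
  · rw [Complex.exp_ofReal_mul_I_re, Real.cos_pi_div_three]; rfl
  · rw [Complex.exp_ofReal_mul_I_im, Real.sin_pi_div_three]; rfl

namespace Cont

variable {A : ℂ → ℝ} {C : ℝ}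

lemma per (h : Cont A C) (v θ : ℝ) :
    A (Real.exp v * Complex.exp ((θ + Real.pi / 3 : ℝ) * Complex.I)) =
      A (Real.exp v * Complex.exp (θ * Complex.I)) := by
  rw [← h.rot (Real.exp v * Complex.exp (θ * Complex.I))
    (mul_ne_zero (by exact_mod_cast (Real.exp_pos v).ne') (Complex.exp_ne_zero _)), om_eq,
    Complex.ofReal_add, add_mul, Complex.exp_add]
  congr 1
  ring

/-- Gaussian averages along rays do not depend on the ray -/
lemma smooth (h : Cont A C) (u : ℝ) {ε : ℝ} (e0 : 0 < ε) (e1 : ε ≤ 1) {θ θ' : ℝ} (h0 : 0 < θ)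
    (h1 : θ < Real.pi / 2) (h0' : 0 < θ') (h1' : θ' < Real.pi / 2) :
    ∫ x : ℝ, A (Real.exp (u + ε * x) * Complex.exp (θ * Complex.I)) * Real.exp (-x ^ 2) =
      ∫ x : ℝ, A (Real.exp (u + ε * x) * Complex.exp (θ' * Complex.I)) * Real.exp (-x ^ 2) := by
  obtain ⟨P, Pd, Pr, Pl, Pc⟩ := h.exP
  have C0 := h.nonneg
  set f : ℂ → ℝ → ℂ := fun θ x => P (u + ε * x) (Complex.tan θ) *
    Complex.exp (-((x : ℂ) - Complex.log (Complex.cos θ) / ε) ^ 2) with hf
  set A0 := |A (1 + (1 : ℝ) * Complex.I)| with hA0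
  set B : ℂ → ℝ := fun θ => (A0 + C * rr θ + C * (Real.exp |u| * Real.exp |ll θ|)) *
    (Real.exp ((Real.pi / ε) ^ 2) * Real.exp (1 / 2)) with hB
  have rr0 : ∀ θ ∈ St, 0 ≤ rr θ := fun θ hθ =>
    div_nonneg (norm_nonneg _) (lt_min (St.re_tan hθ) one_pos).le
  have B0 : ∀ θ ∈ St, 0 ≤ B θ := fun θ hθ => by
    have := rr0 θ hθ
    positivity
  have fb : ∀ θ ∈ St, ∀ x : ℝ, ‖f θ x‖ ≤ B θ * Real.exp (-(1 / 2) * (x - ll θ / ε) ^ 2) := by
    intro θ hθ x
    set y := x - ll θ / ε with hy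
    have n1 : ‖Complex.exp (-((x : ℂ) - Complex.log (Complex.cos θ) / ε) ^ 2)‖ ≤
        Real.exp ((Real.pi / ε) ^ 2) * Real.exp (-y ^ 2) := by
      rw [Complex.norm_exp, ← Real.exp_add, Real.exp_le_exp, Complex.neg_re, sq, Complex.mul_re]
      simp only [Complex.sub_re, Complex.sub_im, Complex.ofReal_re, Complex.ofReal_im,
        Complex.div_ofReal_re, Complex.div_ofReal_im, Complex.log_im]
      have a : ((Complex.cos θ).arg / ε) ^ 2 ≤ (Real.pi / ε) ^ 2 := by
        rw [div_pow, div_pow]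
        refine div_le_div_of_nonneg_right ?_ (by positivity)
        exact sq_le_sq.2 (by rw [abs_of_pos Real.pi_pos]; exact Complex.abs_arg_le_pi _)
      have b : y = x - (Complex.log (Complex.cos θ)).re / ε := rfl
      rw [← b]
      nlinarith
    have n2 : ‖P (u + ε * x) (Complex.tan θ)‖ ≤
        (A0 + C * rr θ + C * (Real.exp |u| * Real.exp |ll θ|)) * Real.exp |y| := by
      have a := Pl (u + ε * x) (Complex.tan θ) (1 : ℝ) (St.re_tan hθ) (by simp)
      rw [Complex.ofReal_re, mul_div_assoc] at a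
      have a' : ‖P (u + ε * x) (Complex.tan θ) - P (u + ε * x) (1 : ℝ)‖ ≤ C * rr θ := a
      have b : ‖P (u + ε * x) (1 : ℝ)‖ ≤ A0 + C * Real.exp |u + ε * x| := by
        rw [Pr _ 1 one_pos, Complex.norm_real, Real.norm_eq_abs]
        exact h.grow (fun e => by simpa using congrArg Complex.re e) _
      have c : Real.exp |u + ε * x| ≤ Real.exp |u| * Real.exp |ll θ| * Real.exp |y| := by
        rw [← Real.exp_add, ← Real.exp_add, Real.exp_le_exp]
        have e : u + ε * x = u + ll θ + ε * y := by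
          rw [hy]
          field_simp
          ring
        have e' : |ε * y| ≤ |y| := by
          rw [abs_mul, abs_of_pos e0]
          nlinarith [abs_nonneg y]
        rw [e]
        linarith [abs_add_le (u + ll θ) (ε * y), abs_add_le u (ll θ)]
      have d := norm_le_norm_add_norm_sub' (P (u + ε * x) (Complex.tan θ)) (P (u + ε * x) (1 : ℝ))
      have y1 : 1 ≤ Real.exp |y| := Real.one_le_exp (abs_nonneg _)
      have r0 : 0 ≤ A0 + C * rr θ := add_nonneg (abs_nonneg _) (mul_nonneg C0 (rr0 θ hθ))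
      have c' := mul_le_mul_of_nonneg_left c C0
      nlinarith
    have g := exp_abs_gauss y
    have r1 : 0 ≤ A0 + C * rr θ + C * (Real.exp |u| * Real.exp |ll θ|) := by
      have := rr0 θ hθ
      positivity
    calc ‖f θ x‖ ≤ ((A0 + C * rr θ + C * (Real.exp |u| * Real.exp |ll θ|)) * Real.exp |y|) *
          (Real.exp ((Real.pi / ε) ^ 2) * Real.exp (-y ^ 2)) := by
          rw [hf, norm_mul]
          exact mul_le_mul n2 n1 (norm_nonneg _) (by positivity)
      _ = (A0 + C * rr θ + C * (Real.exp |u| * Real.exp |ll θ|)) * Real.exp ((Real.pi / ε) ^ 2) *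
          (Real.exp |y| * Real.exp (-y ^ 2)) := by ring
      _ ≤ (A0 + C * rr θ + C * (Real.exp |u| * Real.exp |ll θ|)) * Real.exp ((Real.pi / ε) ^ 2) *
          (Real.exp (1 / 2) * Real.exp (-(1 / 2) * y ^ 2)) :=
          mul_le_mul_of_nonneg_left g (by positivity)
      _ = _ := by rw [hB]; ring
  have fm : ∀ θ ∈ St, Continuous (f θ) := fun θ hθ =>
    ((Pc _ (St.re_tan hθ)).comp (by fun_prop)).mul (by fun_prop)
  have fd : ∀ x, DifferentiableOn ℂ (fun θ => f θ x) St := fun x => by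
    refine DifferentiableOn.mul ((Pd _).comp St.tan_diff fun θ hθ => St.re_tan hθ) ?_
    exact (((St.log_diff.div_const _).const_sub _).pow 2).neg.cexp
  set K : ℂ → ℂ := fun θ => ∫ x, f θ x with hK
  have Kd : DifferentiableOn ℂ K St := by
    intro θ₀ hθ₀
    set b : ℂ → ℝ := fun θ => B θ * Real.exp ((1 / 2) * (ll θ / ε) ^ 2) with hb
    have bc : ContinuousOn b St := by
      have r := rr_cont
      have l := ll_cont
      simp only [hb, hB]
      fun_prop (disch := exact e0.ne')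
    have o : IsOpen (St ∩ b ⁻¹' Iio (b θ₀ + 1)) :=
      bc.isOpen_inter_preimage (strip_open _ _) isOpen_Iio
    have m : θ₀ ∈ St ∩ b ⁻¹' Iio (b θ₀ + 1) := ⟨hθ₀, lt_add_one (b θ₀)⟩
    refine ((hol_int o (gauss_int'.const_mul (b θ₀ + 1))
      (fun θ hθ => (fm θ hθ.1).aestronglyMeasurable) (Eventually.of_forall fun x =>
        ⟨(fd x).mono inter_subset_left, fun θ hθ => (fb θ hθ.1 x).trans ?_⟩)).differentiableAt
          (o.mem_nhds m)).differentiableWithinAt
    have a : Real.exp (-(1 / 2) * (x - ll θ / ε) ^ 2) ≤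
        Real.exp ((1 / 2) * (ll θ / ε) ^ 2) * Real.exp (-(1 / 4) * x ^ 2) := by
      rw [← Real.exp_add, Real.exp_le_exp]
      nlinarith [sq_nonneg (x - 2 * (ll θ / ε))]
    refine (mul_le_mul_of_nonneg_left a (B0 θ hθ.1)).trans ?_
    rw [← mul_assoc]
    exact mul_le_mul_of_nonneg_right (le_of_lt hθ.2) (Real.exp_pos _).le
  have Kr : ∀ θ : ℝ, 0 < θ → θ < Real.pi / 2 → K θ = ((∫ x : ℝ,
      A (Real.exp (u + ε * x) * Complex.exp (θ * Complex.I)) * Real.exp (-x ^ 2) : ℝ) : ℂ) := by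
    intro θ h0 h1
    have hS : (θ : ℂ) ∈ St := ⟨h0, h1⟩
    have cp : 0 < Real.cos θ := by simpa only [Complex.ofReal_re] using St.cos_pos hS
    have sp : 0 < Real.sin θ := by simpa only [Complex.ofReal_re] using St.sin_pos hS
    simp only [hK]
    rw [← integral_add_right_eq_self _ (Real.log (Real.cos θ) / ε), ← integral_complex_ofReal]
    refine integral_congr_ae (Eventually.of_forall fun x => ?_)
    simp only [hf]
    rw [← Complex.ofReal_tan, Pr _ _ (Real.tan_eq_sin_div_cos θ ▸ div_pos sp cp),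
      ← Complex.ofReal_cos, ← Complex.ofReal_log cp.le, Complex.ofReal_mul]
    congr 1
    · congr 2
      rw [mul_add ε, mul_div_cancel₀ _ e0.ne', ← add_assoc, Real.exp_add, Real.exp_log cp,
        Complex.exp_mul_I, ← Complex.ofReal_cos, ← Complex.ofReal_sin, Real.tan_eq_sin_div_cos,
        Complex.ofReal_mul, Complex.ofReal_div]
      have : (Real.cos θ : ℂ) ≠ 0 := by exact_mod_cast cp.ne'
      field_simp
    · rw [Complex.ofReal_exp]
      congr 1
      push_cast
      ring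
  have key := liou (K := K)
    (M := (A0 + C * 20 + C * (Real.exp |u| * 4)) *
      (Real.exp ((Real.pi / ε) ^ 2) * Real.exp (1 / 2)) * ∫ x : ℝ, Real.exp (-(1 / 2) * x ^ 2))
    Kd (fun x x0 x1 => by
      have := Real.pi_pos
      rw [Kr _ (by linarith) (by linarith), Kr _ x0 (by linarith)]
      simp only [h.per]) (fun θ t0 t1 => by
      obtain ⟨hS, m1, m2⟩ := mid_bounds t0 t1
      have i := (gauss_int.comp_sub_right (ll θ / ε)).const_mul (B θ)
      refine (norm_integral_le_of_norm_le i (Eventually.of_forall (fb θ hS))).trans ?_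
      rw [integral_const_mul,
        integral_sub_right_eq_self (fun x : ℝ => Real.exp (-(1 / 2) * x ^ 2)) (ll θ / ε),
        mul_right_comm _ _ (Real.exp (5 * |θ.im|))]
      refine mul_le_mul_of_nonneg_right ?_ (integral_nonneg fun x => (Real.exp_pos _).le)
      rw [hB, mul_right_comm _ _ (Real.exp (5 * |θ.im|))]
      refine mul_le_mul_of_nonneg_right ?_ (by positivity)
      have y1 : 1 ≤ Real.exp (5 * |θ.im|) := Real.one_le_exp (by positivity)
      have a0 : 0 ≤ A0 := abs_nonneg _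
      have c1 := mul_le_mul_of_nonneg_left m1 C0
      have c2 := mul_le_mul_of_nonneg_left
        (mul_le_mul_of_nonneg_left m2 (Real.exp_pos |u|).le) C0
      nlinarith) θ θ' h0 h1 h0' h1'
  rw [Kr _ h0 h1, Kr _ h0' h1'] at key
  exact_mod_cast key

lemma ray (h : Cont A C) (u θ : ℝ) : ContinuousWithinAt (fun ε : ℝ => ∫ x : ℝ,
    A (Real.exp (u + ε * x) * Complex.exp (θ * Complex.I)) * Real.exp (-x ^ 2)) (Ioc 0 1) 0 := by
  have C0 := h.nonneg
  have ne : ∀ v : ℝ, (Real.exp v : ℂ) * Complex.exp (θ * Complex.I) ≠ 0 := fun v =>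
    mul_ne_zero (by exact_mod_cast (Real.exp_pos v).ne') (Complex.exp_ne_zero _)
  have c : Continuous fun v : ℝ => A (Real.exp v * Complex.exp (θ * Complex.I)) :=
    continuous_iff_continuousAt.2 fun v =>
      ContinuousAt.comp (g := A) (h.contAt (ne v)) (by fun_prop)
  refine continuousWithinAt_of_dominated (bound := fun x =>
    (|A (Complex.exp (θ * Complex.I))| + C * Real.exp |u|) * Real.exp (1 / 2) *
      Real.exp (-(1 / 2) * x ^ 2)) (Eventually.of_forall fun ε => ?_) ?_
    (gauss_int.const_mul _) (Eventually.of_forall fun x => ?_)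
  · exact ((c.comp (by fun_prop)).mul (by fun_prop)).aestronglyMeasurable
  · filter_upwards [self_mem_nhdsWithin] with ε hε
    refine Eventually.of_forall fun x => ?_
    rw [norm_mul, Real.norm_eq_abs, Real.norm_of_nonneg (Real.exp_pos _).le, mul_assoc]
    refine le_trans ?_ (mul_le_mul_of_nonneg_left (exp_abs_gauss x) (by positivity))
    rw [← mul_assoc]
    refine mul_le_mul_of_nonneg_right ((h.grow (Complex.exp_ne_zero _) _).trans ?_)
      (Real.exp_pos _).le
    have a : Real.exp |u + ε * x| ≤ Real.exp |u| * Real.exp |x| := by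
      rw [← Real.exp_add, Real.exp_le_exp]
      have e' : |ε * x| ≤ |x| := by
        rw [abs_mul, abs_of_pos hε.1]
        nlinarith [abs_nonneg x, hε.2]
      linarith [abs_add_le u (ε * x)]
    have y1 : 1 ≤ Real.exp |x| := Real.one_le_exp (abs_nonneg _)
    have c' := mul_le_mul_of_nonneg_left a C0
    nlinarith [abs_nonneg (A (Complex.exp (θ * Complex.I)))]
  · exact ((c.comp (by fun_prop)).mul continuous_const).continuousWithinAt

lemma rays (h : Cont A C) (u θ θ' : ℝ) :
    A (Real.exp u * Complex.exp (θ * Complex.I)) =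
      A (Real.exp u * Complex.exp (θ' * Complex.I)) := by
  have pp := Real.pi_pos
  have p : Function.Periodic (fun θ : ℝ => A (Real.exp u * Complex.exp (θ * Complex.I)))
    (Real.pi / 3) := h.per u
  obtain ⟨a, ha, ea⟩ := p.exists_mem_Ico (by positivity) θ (Real.pi / 12)
  obtain ⟨b, hb, eb⟩ := p.exists_mem_Ico (by positivity) θ' (Real.pi / 12)
  rw [ea, eb]
  have : (𝓝[Ioc (0 : ℝ) 1] 0).NeBot := by
    rw [nhdsWithin_Ioc_eq_nhdsGT one_pos]
    infer_instance
  have e := tendsto_nhds_unique_of_eventuallyEq (h.ray u a) (h.ray u b) (by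
    filter_upwards [self_mem_nhdsWithin] with ε hε
    exact h.smooth u hε.1 hε.2 (by linarith [ha.1]) (by linarith [ha.2]) (by linarith [hb.1])
      (by linarith [hb.2]))
  simp only [zero_mul, add_zero, integral_const_mul] at e
  refine mul_right_cancel₀ (ne_of_gt ?_) e
  have := integral_gaussian 1
  simp only [neg_mul, one_mul] at this
  rw [this]
  positivity

/-- continuum limits are isotropic -/
theorem iso (h : Cont A C) {z w : ℂ} (hz : z ≠ 0) (hw : ‖w‖ = ‖z‖) : A w = A z := by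
  have := h.rays (Real.log ‖z‖) w.arg z.arg
  rw [Real.exp_log (norm_pos_iff.2 hz), Complex.norm_mul_exp_arg_mul_I] at this
  rw [← this, ← hw, Complex.norm_mul_exp_arg_mul_I]

end Cont

end Pool.Agent.Lib.MP_6359c9_pr.Pl
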