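import Pool.Agent.Lib.MP_6359c9_pr.LogDefs

/-! Plane part: the row sums of a variogram are concave, hence asymptotically linear. -/

namespace Pool.Agent.Lib.MP_6359c9_pr.Pl

open Filter Topology MeasureTheory

/-- reflection negativity for indexed families -/
lemma Vario.rp' {a : V → ℝ} {C : ℝ} (h : Vario a C) {ι : Type} (I : Finset ι) (p : ι → V)
    (w : ι → ℝ) (hp : ∀ i ∈ I, 0 ≤ (p i).2) (hw : ∑ i ∈ I, w i = 0) :
    ∑ i ∈ I, ∑ j ∈ I, w i * w j * a (p i - Pl.rfx (p j)) ≤ 0 := by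
  classical
  have key : ∀ F : V → ℝ, ∑ x ∈ I.image p, (∑ i ∈ I with p i = x, w i) * F x =
      ∑ i ∈ I, w i * F (p i) := fun F => by
    rw [← Finset.sum_fiberwise_of_maps_to (g := p) (t := I.image p)
      fun i hi => Finset.mem_image_of_mem p hi]
    refine Finset.sum_congr rfl fun x _ => ?_
    rw [Finset.sum_mul]
    exact Finset.sum_congr rfl fun i hi => by rw [(Finset.mem_filter.1 hi).2]
  have := h.rp (I.image p) (fun x => ∑ i ∈ I with p i = x, w i) (fun x hx => by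
    obtain ⟨i, hi, rfl⟩ := Finset.mem_image.1 hx
    exact hp i hi) (by simpa [hw] using key fun _ => 1)
  simp only [mul_assoc, ← Finset.mul_sum] at this ⊢
  rw [key] at this
  simpa only [key] using this

/-- Fejer means of a summable sequence -/
lemma fejer {c : ℤ → ℝ} (hc : Summable c)
    (h : ∀ L : ℕ, 0 ≤ ∑ i ∈ Finset.range L, ∑ j ∈ Finset.range L, c (i - j)) : 0 ≤ ∑' k, c k := by
  have s1 : Summable fun n : ℕ => c n := hc.comp_injective Nat.cast_injective
  have s2 : Summable fun n : ℕ => c (-(n + 1)) :=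
    hc.comp_injective fun x y e => by simpa using e
  let T : ℕ → ℝ := fun n => ∑ j ∈ Finset.range (n + 1), c j + ∑ j ∈ Finset.range n, c (-(j + 1))
  have hT : Tendsto T atTop (𝓝 (∑' k, c k)) := by
    rw [tsum_of_nat_of_neg_add_one s1 s2]
    exact (s1.hasSum.tendsto_sum_nat.comp (tendsto_add_atTop_nat 1)).add s2.hasSum.tendsto_sum_nat
  have e : ∀ L : ℕ, ∑ i ∈ Finset.range L, ∑ j ∈ Finset.range L, c (i - j) =
      ∑ n ∈ Finset.range L, T n := fun L => by
    induction L with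
    | zero => simp
    | succ L ih =>
      rw [Finset.sum_range_succ, Finset.sum_range_succ T, ← ih]
      simp only [Finset.sum_range_succ (fun j : ℕ => c (_ - j)) L, Finset.sum_add_distrib, T]
      have e1 : ∑ j ∈ Finset.range L, c (L - j) + c (L - L) = ∑ j ∈ Finset.range (L + 1), c j := by
        rw [← Finset.sum_range_succ (fun j : ℕ => c (L - j)), ← Finset.sum_range_reflect]
        refine Finset.sum_congr rfl fun j hj => ?_
        have := Finset.mem_range.1 hj
        congr 1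
        omega
      have e2 : ∑ i ∈ Finset.range L, c (i - L) = ∑ j ∈ Finset.range L, c (-(j + 1)) := by
        rw [← Finset.sum_range_reflect]
        refine Finset.sum_congr rfl fun j hj => ?_
        have := Finset.mem_range.1 hj
        congr 1
        omega
      rw [e1, e2]
      ring
  refine ge_of_tendsto' hT.cesaro fun L => ?_
  rw [← e]
  exact mul_nonneg (by positivity) (h L)

lemma emb_pt' (s t : ℤ) : emb (pt s t) = (s : ℂ) + (Real.sqrt 3 * t : ℝ) * Complex.I := by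
  apply Complex.ext <;> simp [emb, pt, om] <;> ring

/-- integral of a step function -/
lemma int_floor {g : ℤ → ℝ} (hg : Integrable fun y : ℝ => g ⌊y⌋) : ∫ y : ℝ, g ⌊y⌋ = ∑' k, g k := by
  have m : Measurable fun y : ℝ => ⌊y⌋ := Int.measurable_floor
  have i : Integrable g (Measure.map (fun y : ℝ => ⌊y⌋) volume) :=
    (integrable_map_measure (measurable_of_countable g).aestronglyMeasurable m.aemeasurable).2 hg
  rw [← integral_map m.aemeasurable (measurable_of_countable g).aestronglyMeasurable,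
    integral_countable i]
  refine tsum_congr fun k => ?_
  rw [Measure.real, Measure.map_apply m (measurableSet_singleton k), Int.preimage_floor_singleton]
  simp

/-- a concave sequence that does not fall too fast is asymptotically linear -/
lemma conc_lim {e : ℕ → ℝ} {C : ℝ} (h0 : e 0 = 0) (hc : ∀ m, e m + e (m + 2) ≤ 2 * e (m + 1))
    (hb : ∀ᶠ n in atTop, -C * n ≤ e (2 * n) - e n) :
    ∃ β, Tendsto (fun m : ℕ => (m : ℝ)⁻¹ * e m) atTop (𝓝 β) := by
  let d : ℕ → ℝ := fun m => e (m + 1) - e m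
  have an : Antitone d := antitone_nat_of_succ_le fun m => by
    have := hc m
    simp only [d]
    linarith
  have up : ∀ n k : ℕ, e (n + k) - e n ≤ k * d n := fun n k => by
    induction k with
    | zero => simp
    | succ k ih =>
      have : d (n + k) ≤ d n := an (Nat.le_add_right n k)
      simp only [d] at this ih ⊢
      push_cast
      rw [← add_assoc]
      linarith
  have bd : BddBelow (Set.range d) := by
    refine ⟨-C, ?_⟩
    rintro _ ⟨m, rfl⟩
    obtain ⟨n, h1, h2⟩ := (hb.and (eventually_ge_atTop (m + 1))).exists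
    have h3 := up n n
    rw [← two_mul] at h3
    have h4 : (0 : ℝ) < n := by exact_mod_cast (by omega : 0 < n)
    have h5 : -C ≤ d n := le_of_mul_le_mul_left (by linarith) h4
    exact h5.trans (an (by omega))
  refine ⟨_, (tendsto_atTop_ciInf an bd).cesaro.congr fun m => ?_⟩
  rw [Finset.sum_range_sub e m, h0, sub_zero]

/-- the statement of the relative Lipschitz bound -/
def LipS (a : V → ℝ) : Prop := ∃ C₁ : ℝ, 0 ≤ C₁ ∧ ∀ ε > 0, ∃ R : ℝ, ∀ x y : V, R ≤ ‖emb x‖ →
  R ≤ ‖emb y‖ → |a x - a y| ≤ C₁ * ‖emb x - emb y‖ / min ‖emb x‖ ‖emb y‖ + ε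

/-- the statement of the tail bound -/
def TailS (a : V → ℝ) : Prop := ∃ C₂ : ℝ, ∃ K : ℤ, 0 < K ∧ ∀ s t : ℤ, 0 ≤ t → K * t ≤ |s| →
  |a (pt s t) - a (pt s 0)| ≤ C₂ * (t : ℝ) ^ 2 / (s : ℝ) ^ 2

lemma TailS.summ {a : V → ℝ} (ht : TailS a) (m : ℕ) :
    Summable fun s : ℤ => a (pt s m) - a (pt s 0) := by
  obtain ⟨C₂, K, -, h⟩ := ht
  have s : Summable fun s : ℤ => C₂ * ((m : ℤ) : ℝ) ^ 2 / (s : ℝ) ^ 2 := by
    simpa [div_eq_mul_inv] using
      (Real.summable_one_div_int_pow.2 (by norm_num : 1 < 2)).mul_left (C₂ * (m : ℝ) ^ 2)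
  refine s.of_norm_bounded_eventually ?_
  refine (Set.finite_Ioo (-(K * m)) (K * m)).subset fun s hs => ?_
  by_contra n
  refine hs (h s m (by positivity) ?_)
  rw [Set.mem_Ioo, ← abs_lt, not_lt] at n
  exact n

lemma im_le (s t : ℤ) (ht : 0 ≤ t) : (t : ℝ) ≤ ‖emb (pt s t)‖ := by
  have h1 := Complex.im_le_norm (emb (pt s t))
  have h2 : (emb (pt s t)).im = Real.sqrt 3 * t := by simp [emb_pt']
  have h3 : 1 ≤ Real.sqrt 3 := Real.one_le_sqrt.2 (by norm_num)
  have h4 : (0 : ℝ) ≤ t := by exact_mod_cast ht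
  nlinarith

/-- domination of the increments between two rows -/
lemma dom {a : V → ℝ} (hl : LipS a) (ht : TailS a) {α Λ : ℝ} (hα : 0 < α) :
    ∃ B : ℝ, ∀ᶠ n : ℕ in atTop, ∀ m m' : ℤ, α * n ≤ m → α * n ≤ m' → m ≤ Λ * n → m' ≤ Λ * n →
      ∀ y : ℝ, |a (pt ⌊n * y⌋ m') - a (pt ⌊n * y⌋ m)| ≤ B * (1 + y ^ 2)⁻¹ := by
  obtain ⟨C₁, h1, hl⟩ := hl
  obtain ⟨R, hl⟩ := hl 1 one_pos
  obtain ⟨C₂, K, hK, ht⟩ := ht
  have hK' : (1 : ℝ) ≤ K := by exact_mod_cast hK
  set B₁ := C₁ * (2 * Λ) / α + 1 with hB₁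
  set Y := K * Λ + 2 with hY
  refine ⟨max (B₁ * (1 + Y ^ 2)) (16 * |C₂| * Λ ^ 2), ?_⟩
  have ev : ∀ᶠ n : ℕ in atTop, R ≤ α * n :=
    (tendsto_natCast_atTop_atTop.const_mul_atTop hα).eventually_ge_atTop R
  filter_upwards [ev, eventually_ge_atTop 1] with n hR hn m m' l1 l2 u1 u2 y
  have hn' : (1 : ℝ) ≤ n := by exact_mod_cast hn
  have p0 : 0 < α * n := by positivity
  have m0 : 0 ≤ m := by exact_mod_cast (p0.le.trans l1)
  have m0' : 0 ≤ m' := by exact_mod_cast (p0.le.trans l2)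
  have hΛ : 0 < Λ := by
    by_contra c
    nlinarith
  have py : 0 < 1 + y ^ 2 := by positivity
  rw [← div_eq_mul_inv, le_div_iff₀ py]
  set s := ⌊n * y⌋ with hs
  by_cases c : |y| ≤ Y
  · refine le_trans ?_ (le_max_left _ _)
    have a1 := (l1.trans (im_le s m m0))
    have a2 := (l2.trans (im_le s m' m0'))
    have b := hl _ _ (hR.trans a2) (hR.trans a1)
    have e : ‖emb (pt s m') - emb (pt s m)‖ ≤ 2 * Λ * n := by
      rw [emb_pt', emb_pt', add_sub_add_left_eq_sub, ← sub_mul, ← Complex.ofReal_sub, norm_mul,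
        Complex.norm_I, mul_one, Complex.norm_real, ← mul_sub, Real.norm_eq_abs, abs_mul,
        abs_of_nonneg (Real.sqrt_nonneg 3)]
      have q1 : Real.sqrt 3 ≤ 2 := Real.sqrt_le_iff.2 ⟨by norm_num, by norm_num⟩
      have q2 : |(m' : ℝ) - m| ≤ Λ * n := abs_le.2 ⟨by linarith, by linarith⟩
      calc _ ≤ 2 * (Λ * n) := mul_le_mul q1 q2 (abs_nonneg _) (by norm_num)
        _ = _ := by ring
    have b2 : C₁ * ‖emb (pt s m') - emb (pt s m)‖ / min ‖emb (pt s m')‖ ‖emb (pt s m)‖ ≤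
        C₁ * (2 * Λ) / α := by
      calc _ ≤ C₁ * (2 * Λ * n) / (α * n) := by
            gcongr
            exact le_min a2 a1
        _ = _ := by field_simp
    have b3 : y ^ 2 ≤ Y ^ 2 := by
      rw [← sq_abs y]
      gcongr
    have : 0 ≤ B₁ := by positivity
    gcongr
    linarith
  · refine le_trans ?_ (le_max_right _ _)
    rw [not_le] at c
    have f1 : (s : ℝ) ≤ n * y := Int.floor_le _
    have f2 : n * y < s + 1 := Int.lt_floor_add_one _
    have f3 : n * |y| - 1 ≤ |(s : ℝ)| := by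
      have : |(n : ℝ) * y| ≤ |(s : ℝ)| + |n * y - s| := by
        simpa using abs_add_le (s : ℝ) (n * y - s)
      rw [abs_mul, Nat.abs_cast] at this
      have : |n * y - s| ≤ 1 := abs_le.2 ⟨by linarith, by linarith⟩
      linarith
    have y2 : 2 ≤ |y| := by nlinarith [mul_pos (by linarith : (0 : ℝ) < K) hΛ]
    have f4 : n * |y| / 2 ≤ |(s : ℝ)| := by nlinarith
    have f5 : K * (Λ * n) ≤ |(s : ℝ)| := by nlinarith
    have tl : ∀ k : ℤ, 0 ≤ k → (k : ℝ) ≤ Λ * n →
        |a (pt s k) - a (pt s 0)| * (1 + y ^ 2) ≤ 8 * |C₂| * Λ ^ 2 := fun k k0 k1 => by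
      have k2 : (0 : ℝ) ≤ k := by exact_mod_cast k0
      have t1 := ht s k k0 (by
        have : (K : ℝ) * k ≤ |(s : ℝ)| := le_trans (by gcongr) f5
        exact_mod_cast this)
      have ny : 0 < n * |y| / 2 := by positivity
      have t2 : C₂ * (k : ℝ) ^ 2 / (s : ℝ) ^ 2 ≤ |C₂| * (Λ * n) ^ 2 / (n * |y| / 2) ^ 2 := by
        rw [← sq_abs (s : ℝ)]
        gcongr
        exact le_abs_self _
      have t3 : |C₂| * (Λ * n) ^ 2 / (n * |y| / 2) ^ 2 = 4 * |C₂| * Λ ^ 2 / |y| ^ 2 := by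
        field_simp
        ring
      have t4 : 1 + y ^ 2 ≤ 2 * |y| ^ 2 := by rw [← sq_abs y]; nlinarith
      calc _ ≤ 4 * |C₂| * Λ ^ 2 / |y| ^ 2 * (2 * |y| ^ 2) := by
            gcongr
            linarith
        _ = _ := by
            field_simp
            ring
    have := abs_sub (a (pt s m') - a (pt s 0)) (a (pt s m) - a (pt s 0))
    rw [sub_sub_sub_cancel_right] at this
    nlinarith [tl m m0 u1, tl m' m0' u2]

lemma meas_fl (g : ℤ → ℝ) (n : ℝ) : AEStronglyMeasurable (fun y : ℝ => g ⌊n * y⌋) volume :=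
  ((measurable_of_countable g).comp
    (Int.measurable_floor.comp (measurable_const_mul n))).aestronglyMeasurable

lemma int_fl {g : ℤ → ℝ} {n : ℕ} (hn : 1 ≤ n) {B : ℝ}
    (h : ∀ y : ℝ, |g ⌊n * y⌋| ≤ B * (1 + y ^ 2)⁻¹) :
    ∫ y : ℝ, g ⌊n * y⌋ = (n : ℝ)⁻¹ * ∑' k, g k := by
  have h0 : (n : ℝ) ≠ 0 := by positivity
  have i : Integrable fun y : ℝ => g ⌊n * y⌋ :=
    (integrable_inv_one_add_sq.const_mul B).mono' (meas_fl g n) (.of_forall h)
  rw [Measure.integral_comp_mul_left (fun y : ℝ => g ⌊y⌋), int_floor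
    ((integrable_comp_mul_left_iff (fun y : ℝ => g ⌊y⌋) h0).1 i), smul_eq_mul, abs_inv, Nat.abs_cast]

theorem Vario.row_of {a : V → ℝ} {C : ℝ} (h : Vario a C) (hl : LipS a) (ht : TailS a) :
    ∃ β : ℝ, ∀ (l : Filter ℕ) (A : ℂ → ℝ), l ≤ atTop → l.NeBot → l.IsCountablyGenerated →
      Lim a l A → ∀ t t' : ℝ, 0 < t → 0 < t' →
        ∫ s : ℝ, (A (s + t' * Complex.I) - A (s + t * Complex.I)) = β * (t' - t) := by
  let e : ℕ → ℝ := fun m => ∑' s : ℤ, (a (pt s m) - a (pt s 0))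
  have es : ∀ m m' : ℕ, ∑' s : ℤ, (a (pt s m') - a (pt s m)) = e m' - e m := fun m m' => by
    simp only [e]
    rw [← (ht.summ m').tsum_sub (ht.summ m)]
    simp
  have hc : ∀ m, e m + e (m + 2) ≤ 2 * e (m + 1) := fun m => by
    have s := ((ht.summ (m + 1)).mul_left 2).sub ((ht.summ m).add (ht.summ (m + 2)))
    have := fejer s fun L => by
      have := h.rp' (Finset.range L ×ˢ (Finset.univ : Finset Bool))
        (fun p => pt p.1 ((m / 2 : ℕ) + if p.2 then 1 else 0) + (0, ((m % 2 : ℕ) : ℤ)))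
        (fun p => if p.2 then 1 else -1) (fun p _ => by simp only [pt]; split_ifs <;> simp <;> omega)
        (by simp [Finset.sum_product])
      have pe : ∀ i j u v : ℤ, pt i ((m / 2 : ℕ) + u) + (0, ((m % 2 : ℕ) : ℤ)) -
          Pl.rfx (pt j ((m / 2 : ℕ) + v) + (0, ((m % 2 : ℕ) : ℤ))) = pt (i - j) (m + u + v) :=
        fun i j u v => by
          simp only [pt, Pl.rfx, Prod.mk_add_mk, Prod.mk_sub_mk, Prod.mk.injEq]
          omega
      simp only [pe, Finset.sum_product, Fintype.sum_bool, ← Finset.sum_add_distrib] at this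
      rw [← neg_nonneg, ← Finset.sum_neg_distrib] at this
      refine this.trans_eq (Finset.sum_congr rfl fun i _ => ?_)
      rw [← Finset.sum_neg_distrib]
      refine Finset.sum_congr rfl fun j _ => ?_
      simp only [if_true, Bool.false_eq_true, if_false, add_zero]
      push_cast
      rw [show (m : ℤ) + 1 + 1 = m + 2 by ring]
      ring
    rw [((ht.summ (m + 1)).mul_left 2).tsum_sub ((ht.summ m).add (ht.summ (m + 2))),
      (ht.summ m).tsum_add (ht.summ (m + 2)), tsum_mul_left] at this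
    simp only [e]
    linarith
  obtain ⟨B, hB⟩ := dom hl ht (Λ := 2) one_pos
  obtain ⟨β, hβ⟩ := conc_lim (e := e) (C := B * Real.pi) (by simp [e]) hc (by
    filter_upwards [hB, eventually_ge_atTop 1] with n b hn
    have hn' : (1 : ℝ) ≤ n := by exact_mod_cast hn
    have b' := b n (2 * n : ℕ) (by simp) (by push_cast; linarith) (by push_cast; linarith) (by simp)
    have i1 := int_fl (g := fun s => a (pt s (2 * n : ℕ)) - a (pt s n)) hn b'
    have i2 := norm_integral_le_of_norm_le (integrable_inv_one_add_sq.const_mul B)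
      (f := fun y : ℝ => a (pt ⌊n * y⌋ (2 * n : ℕ)) - a (pt ⌊n * y⌋ n)) (.of_forall b')
    rw [i1, es, integral_const_mul, integral_univ_inv_one_add_sq, Real.norm_eq_abs, abs_mul,
      abs_inv, Nat.abs_cast, inv_mul_le_iff₀ (by linarith)] at i2
    linarith [neg_abs_le (e (2 * n) - e n)])
  refine ⟨β / Real.sqrt 3, fun l A hle _ _ hA t t' t0 t0' => ?_⟩
  have r0 : 0 < Real.sqrt 3 := by positivity
  have fl : ∀ u : ℝ, 0 < u → Tendsto (fun n : ℕ => (⌊u * n⌋₊ : ℝ) / n) atTop (𝓝 u) := fun u hu =>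
    (tendsto_nat_floor_mul_div_atTop hu.le).comp tendsto_natCast_atTop_atTop
  have lim : ∀ u : ℝ, 0 < u → Tendsto (fun n : ℕ => (n : ℝ)⁻¹ * e ⌊u * n⌋₊) atTop (𝓝 (β * u)) :=
    fun u hu => by
      have t1 : Tendsto (fun n : ℕ => ⌊u * n⌋₊) atTop atTop :=
        tendsto_nat_floor_atTop.comp (tendsto_natCast_atTop_atTop.const_mul_atTop hu)
      refine ((hβ.comp t1).mul (fl u hu)).congr' ?_
      filter_upwards [t1.eventually_ge_atTop 1] with n hn
      have : (⌊u * n⌋₊ : ℝ) ≠ 0 := by positivity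
      simp only [Function.comp]
      field_simp
  set u := t / Real.sqrt 3 with hu
  set u' := t' / Real.sqrt 3 with hu'
  have u0 : 0 < u := by positivity
  have u0' : 0 < u' := by positivity
  obtain ⟨B', hB'⟩ := dom hl ht (Λ := u + u') (α := min u u' / 2) (by positivity)
  have lo : ∀ w : ℝ, 0 < w → ∀ᶠ n : ℕ in atTop, w / 2 * n ≤ (⌊w * n⌋₊ : ℝ) := fun w hw => by
    filter_upwards [(fl w hw).eventually_const_le (by linarith : w / 2 < w), eventually_ge_atTop 1]
      with n a hn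
    rwa [le_div_iff₀ (by positivity)] at a
  have ev : ∀ᶠ n : ℕ in atTop, ∀ y : ℝ, |a (pt ⌊n * y⌋ (⌊u' * n⌋₊ : ℕ)) - a (pt ⌊n * y⌋ (⌊u * n⌋₊ : ℕ))|
      ≤ B' * (1 + y ^ 2)⁻¹ := by
    filter_upwards [hB', lo u u0, lo u' u0'] with n b l1 l2
    have n0 : (0 : ℝ) ≤ n := n.cast_nonneg
    have f1 := Nat.floor_le (mul_nonneg u0.le n0)
    have f2 := Nat.floor_le (mul_nonneg u0'.le n0)
    refine b _ _ ?_ ?_ ?_ ?_ <;> push_cast
    · exact le_trans (by gcongr; exact min_le_left _ _) l1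
    · exact le_trans (by gcongr; exact min_le_right _ _) l2
    · nlinarith
    · nlinarith
  have nr : ∀ (n : ℕ) (y w : ℝ), 0 < w →
      near n (y + w * Complex.I) = pt ⌊n * y⌋ (⌊w / Real.sqrt 3 * n⌋₊ : ℕ) := fun n y w hw => by
    rw [Int.natCast_floor_eq_floor (by positivity)]
    simp only [near]
    congr 2
    · simp
    · simp
      ring
  have nz : ∀ y w : ℝ, 0 < w → (y + w * Complex.I : ℂ) ≠ 0 := fun y w hw e => by
    have := congrArg Complex.im e
    simp at this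
    linarith
  have dc := tendsto_integral_filter_of_dominated_convergence (l := l) (μ := volume)
    (F := fun (n : ℕ) (y : ℝ) => a (pt ⌊n * y⌋ (⌊u' * n⌋₊ : ℕ)) - a (pt ⌊n * y⌋ (⌊u * n⌋₊ : ℕ)))
    (f := fun y : ℝ => A (y + t' * Complex.I) - A (y + t * Complex.I))
    (fun y => B' * (1 + y ^ 2)⁻¹)
    (.of_forall fun n => meas_fl (fun s => a (pt s (⌊u' * n⌋₊ : ℕ)) - a (pt s (⌊u * n⌋₊ : ℕ))) n)
    ((ev.filter_mono hle).mono fun n b => .of_forall b) (integrable_inv_one_add_sq.const_mul B')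
    (.of_forall fun y => by
      refine ((hA _ (nz y t' t0')).sub (hA _ (nz y t t0))).congr fun n => ?_
      rw [nr n y t' t0', nr n y t t0]
      ring)
  have d2 : Tendsto (fun n : ℕ => ∫ y : ℝ, (a (pt ⌊n * y⌋ (⌊u' * n⌋₊ : ℕ)) -
      a (pt ⌊n * y⌋ (⌊u * n⌋₊ : ℕ)))) atTop (𝓝 (β * u' - β * u)) := by
    refine ((lim u' u0').sub (lim u u0)).congr' ?_
    filter_upwards [ev, eventually_ge_atTop 1] with n b hn
    rw [int_fl (g := fun s => a (pt s (⌊u' * n⌋₊ : ℕ)) - a (pt s (⌊u * n⌋₊ : ℕ))) hn b, es]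
    ring
  rw [tendsto_nhds_unique dc (d2.mono_left hle), hu, hu']
  ring

end Pool.Agent.Lib.MP_6359c9_pr.Pl
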