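import Pool.Agent.Lib.MP_6359c9_pr.LogCore

/-! Second order decay of the variogram along a row. -/

namespace Pool.Agent.Lib.MP_6359c9_pr.Pl

variable {a : V → ℝ} {C : ℝ}

lemma dd_sub_sum (a : V → ℝ) (j k : ℕ) :
    dd a j - dd a (j + k) = ∑ i ∈ Finset.range k, cc a 1 (j + i) := by
  induction k with
  | zero => simp
  | succ k ih =>
    rw [Finset.sum_range_succ, ← ih, ← dd_sub, add_assoc]; ring

lemma Vario.cc_one_le (h : Vario a C) {j : ℕ} (hj : 4 ≤ j) : cc a 1 j ≤ 18 * C / (j : ℝ) ^ 2 := by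
  obtain ⟨i, hi⟩ : ∃ i : ℕ, i = j / 2 := ⟨_, rfl⟩
  obtain ⟨k, hk⟩ : ∃ k : ℕ, j = i + k := ⟨j - i, by omega⟩
  have h1 := dd_sub_sum a i k
  have h2 : ∑ _l ∈ Finset.range k, cc a 1 j ≤ ∑ l ∈ Finset.range k, cc a 1 (i + l) :=
    Finset.sum_le_sum fun l hl => h.cc_anti 1 (by have := Finset.mem_range.mp hl; omega)
  rw [Finset.sum_const, Finset.card_range, nsmul_eq_mul, ← h1] at h2
  have h3 := h.dd_le (j := i) (by omega)
  have h4 := h.dd_nonneg (i + k)
  have hi0 : (0 : ℝ) < i := by exact_mod_cast (by omega : 0 < i)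
  have hj0 : (0 : ℝ) < j := by exact_mod_cast (by omega : 0 < j)
  have h5 : (j : ℝ) ≤ 3 * i := by exact_mod_cast (by omega : j ≤ 3 * i)
  have h6 : (j : ℝ) ≤ 2 * k := by exact_mod_cast (by omega : j ≤ 2 * k)
  have h7 := h.cc_nonneg 1 j
  rw [le_div_iff₀ hi0] at h3
  rw [le_div_iff₀ (by positivity)]
  have h8 : (k : ℝ) * cc a 1 j * i ≤ 3 * C := by
    have : (k : ℝ) * cc a 1 j ≤ dd a i := by linarith
    nlinarith
  have h9 : (j : ℝ) ^ 2 ≤ 6 * (k * i) := by nlinarith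
  nlinarith

lemma Vario.cc_le_sq (h : Vario a C) (t j : ℕ) : cc a t j ≤ (t : ℝ) ^ 2 * cc a 1 j := by
  have e : cc a t j = ∑ i ∈ Finset.range t, (dd a (j + i) - dd a (j + i + t)) := by
    have h1 := dd_sum a j t
    have h2 := dd_sum a (j + t) t
    rw [Finset.sum_sub_distrib, h1,
      Finset.sum_congr rfl fun i _ => by rw [show j + i + t = j + t + i by ring], h2, cc]
    push_cast
    rw [show (j : ℤ) + t + t = j + 2 * t by ring]; ring
  rw [e]
  have : ∀ i ∈ Finset.range t, dd a (j + i) - dd a (j + i + t) ≤ t * cc a 1 j := by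
    intro i _
    rw [dd_sub_sum]
    have h2 : ∑ l ∈ Finset.range t, cc a 1 (j + i + l) ≤ ∑ _l ∈ Finset.range t, cc a 1 j :=
      Finset.sum_le_sum fun l _ => h.cc_anti 1 (by omega)
    rwa [Finset.sum_const, Finset.card_range, nsmul_eq_mul] at h2
  refine (Finset.sum_le_sum this).trans (le_of_eq ?_)
  rw [Finset.sum_const, Finset.card_range, nsmul_eq_mul]; ring

/-- second differences in the direction `(1, 1)` -/
lemma Vario.second₁ (h : Vario a C) (t j : ℕ) {u v : ℤ} (hx : 2 * (j : ℤ) ≤ u + v) :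
    |a (u, v) - 2 * a (u + t, v + t) + a (u + 2 * t, v + 2 * t)| ≤ cc a t j := by
  have := h.second t j (x := Pl.rot (u, v)) hx
  have e1 : Pl.rot (u, v) + pt 0 t = Pl.rot (u + t, v + t) := by
    unfold Pl.rot pt; ext <;> simp <;> ring
  have e2 : Pl.rot (u, v) + pt 0 (2 * t) = Pl.rot (u + 2 * t, v + 2 * t) := by
    unfold Pl.rot pt; ext <;> simp <;> ring
  rwa [e1, e2, h.rot, h.rot, h.rot] at this

/-- second differences in the direction `(-2, 1)` -/
lemma Vario.second₂ (h : Vario a C) (t j : ℕ) {u v : ℤ} (hx : 2 * (j : ℤ) ≤ -u) :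
    |a (u, v) - 2 * a (u - 2 * t, v + t) + a (u - 4 * t, v + 2 * t)| ≤ cc a t j := by
  have := h.second t j (x := (u + v, -u)) hx
  rw [← h.rot, ← h.rot (_ + pt 0 t), ← h.rot (_ + pt 0 (2 * t))] at this
  have e0 : Pl.rot (u + v, -u) = (u, v) := by unfold Pl.rot; ext <;> simp
  have e1 : Pl.rot ((u + v, -u) + pt 0 t) = (u - 2 * t, v + t) := by
    unfold Pl.rot pt; ext <;> simp <;> ring
  have e2 : Pl.rot ((u + v, -u) + pt 0 (2 * t)) = (u - 4 * t, v + 2 * t) := by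
    unfold Pl.rot pt; ext <;> simp <;> ring
  rwa [e0, e1, e2] at this

/-- the mixed difference on the axis -/
lemma Vario.mixed (h : Vario a C) (t j : ℕ) {m : ℤ} (hm : 2 * (j : ℤ) + 2 * t ≤ m) :
    |a (-m, 2 * m) - a (-m + t, 2 * m + t) - a (-m - 2 * t, 2 * m + t) +
      a (-m - t, 2 * m + 2 * t)| ≤ 3 / 2 * cc a t j := by
  have h0 := h.second t j (x := (-m + 2 * t, 2 * m - t)) (by simp; omega)
  have h1 := h.second₁ t j (u := -m - 2 * t) (v := 2 * m + t) (by omega)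
  have h2 := h.second₂ t j (u := -m + 2 * t) (v := 2 * m - t) (by omega)
  have e1 : ((-m + 2 * t, 2 * m - t) : V) + pt 0 t = (-m + t, 2 * m + t) := by
    unfold pt; ext <;> simp <;> ring
  have e2 : ((-m + 2 * t, 2 * m - t) : V) + pt 0 (2 * t) = (-m, 2 * m + 3 * t) := by
    unfold pt; ext <;> simp <;> ring
  rw [e1, e2] at h0
  rw [show -m - 2 * t + t = -m - t by ring, show 2 * m + t + t = 2 * m + 2 * t by ring,
    show -m - 2 * t + 2 * t = -m by ring, show 2 * m + t + 2 * t = 2 * m + 3 * t by ring] at h1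
  rw [show -m + 2 * t - 2 * t = -m by ring, show 2 * m - t + t = 2 * m by ring,
    show -m + 2 * t - 4 * t = -m - 2 * t by ring,
    show 2 * m - t + 2 * t = 2 * m + t by ring] at h2
  rw [abs_le] at h0 h1 h2 ⊢
  constructor <;> linarith [h0.1, h0.2, h1.1, h1.2, h2.1, h2.2]

/-- second differences in the direction `(-2, 1)` at points that are high up -/
lemma Vario.second₃ (h : Vario a C) (t j : ℕ) {u v : ℤ} (hx : 4 * (j : ℤ) + 4 * t ≤ v) :
    |a (u, v) - 2 * a (u - 2 * t, v + t) + a (u - 4 * t, v + 2 * t)| ≤ 3 / 2 * cc a t j := by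
  obtain ⟨k, hk⟩ : ∃ k : ℤ, k = 2 * j + 2 * t := ⟨_, rfl⟩
  obtain ⟨m, hm⟩ : ∃ m : ℤ, m = v - k := ⟨_, rfl⟩
  have := h.cs4 (p := (u + k, m)) (p' := (u + k - 2 * t, m + t)) (q := (0, k))
    (q' := (t, k + t)) (by simp; omega) (by simp; omega) (by simp; omega) (by simp; omega)
  have e1 : ((u + k, m) : V) - Pl.rfx (0, k) = (u, v) := by
    unfold Pl.rfx; ext <;> simp; omega
  have e2 : ((u + k, m) : V) - Pl.rfx (t, k + t) = (u - 2 * t, v + t) := by
    unfold Pl.rfx; ext <;> simp <;> omega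
  have e3 : ((u + k - 2 * t, m + t) : V) - Pl.rfx (0, k) = (u - 2 * t, v + t) := by
    unfold Pl.rfx; ext <;> simp <;> omega
  have e4 : ((u + k - 2 * t, m + t) : V) - Pl.rfx (t, k + t) = (u - 4 * t, v + 2 * t) := by
    unfold Pl.rfx; ext <;> simp <;> omega
  have f1 : ((u + k, m) : V) - Pl.rfx (u + k, m) = (-m, 2 * m) := by
    unfold Pl.rfx; ext <;> simp; omega
  have f2 : ((u + k, m) : V) - Pl.rfx (u + k - 2 * t, m + t) = (-m + t, 2 * m + t) := by
    unfold Pl.rfx; ext <;> simp <;> omega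
  have f3 : ((u + k - 2 * t, m + t) : V) - Pl.rfx (u + k, m) = (-m - 2 * t, 2 * m + t) := by
    unfold Pl.rfx; ext <;> simp <;> omega
  have f4 : ((u + k - 2 * t, m + t) : V) - Pl.rfx (u + k - 2 * t, m + t) =
      (-m - t, 2 * m + 2 * t) := by
    unfold Pl.rfx; ext <;> simp <;> omega
  have g1 : ((0, k) : V) - Pl.rfx (0, k) = (-k, 2 * k) := by
    unfold Pl.rfx; ext <;> simp; omega
  have g2 : ((0, k) : V) - Pl.rfx (t, k + t) = (-k - 2 * t, 2 * k + t) := by
    unfold Pl.rfx; ext <;> simp <;> omega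
  have g3 : ((t, k + t) : V) - Pl.rfx (0, k) = (-k + t, 2 * k + t) := by
    unfold Pl.rfx; ext <;> simp <;> omega
  have g4 : ((t, k + t) : V) - Pl.rfx (t, k + t) = (-k - t, 2 * k + 2 * t) := by
    unfold Pl.rfx; ext <;> simp <;> omega
  rw [e1, e2, e3, e4, f1, f2, f3, f4, g1, g2, g3, g4] at this
  have m1 := h.mixed t j (m := m) (by omega)
  have m2 := h.mixed t j (m := k) (by omega)
  have c3 := h.cc_nonneg t j
  refine abs_le.mpr (abs_le_of_sq_le_sq' ?_ (by positivity))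
  refine le_trans (le_of_eq (by ring)) (this.trans ((le_abs_self _).trans ?_))
  rw [abs_mul, abs_neg, abs_neg, sq]
  refine mul_le_mul m1 (le_trans (le_of_eq ?_) m2) (abs_nonneg _) (by positivity)
  congr 1; ring

theorem Vario.tail (h : Vario a C) : ∃ C₂ : ℝ, ∃ K : ℤ, 0 < K ∧ ∀ s t : ℤ, 0 ≤ t → K * t ≤ |s| →
    |a (pt s t) - a (pt s 0)| ≤ C₂ * (t : ℝ) ^ 2 / (s : ℝ) ^ 2 := by
  have key : ∀ s t : ℤ, 0 < t → 100 * t ≤ s →
      |a (pt s t) - a (pt s 0)| ≤ 2000 * C * (t : ℝ) ^ 2 / (s : ℝ) ^ 2 := by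
    intro s t ht hs
    obtain ⟨t, rfl⟩ := Int.eq_ofNat_of_zero_le ht.le
    obtain ⟨j, hj⟩ := Int.eq_ofNat_of_zero_le (a := s / 10) (by omega)
    have h1 := h.second₃ t j (u := 2 * t) (v := s - t) (by omega)
    have e1 : a (2 * t, s - t) = a (pt s t) := by
      rw [← h.pt_neg s t, ← h.rot (pt s (-t))]
      congr 1; unfold Pl.rot pt; ext <;> simp; ring
    have e2 : a (2 * t - 2 * t, s - t + t) = a (pt s 0) := by
      rw [← h.rot (pt s 0)]
      congr 1; unfold Pl.rot pt; ext <;> simp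
    have e3 : a (2 * t - 4 * t, s - t + 2 * t) = a (pt s t) := by
      rw [← h.rot (pt s t)]
      congr 1; unfold Pl.rot pt; ext <;> simp <;> ring
    rw [e1, e2, e3] at h1
    have h2 := h.cc_le_sq t j
    have h3 := h.cc_one_le (j := j) (by omega)
    have hC := h.C_nonneg
    have hs0 : (0 : ℝ) < s := by exact_mod_cast (by omega : 0 < s)
    have hj0 : (0 : ℝ) < j := by exact_mod_cast (by omega : 0 < j)
    have h4 : (s : ℝ) ≤ 11 * j := by exact_mod_cast (by omega : s ≤ 11 * (j : ℤ))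
    have h5 : 18 * C / (j : ℝ) ^ 2 ≤ 2178 * C / (s : ℝ) ^ 2 := by
      rw [div_le_div_iff₀ (by positivity) (by positivity)]
      have : (s : ℝ) ^ 2 ≤ 121 * (j : ℝ) ^ 2 := by nlinarith
      nlinarith
    have h6 : cc a t j ≤ (t : ℝ) ^ 2 * (2178 * C / (s : ℝ) ^ 2) :=
      h2.trans (mul_le_mul_of_nonneg_left (h3.trans h5) (by positivity))
    have h7 : (t : ℝ) ^ 2 * (2178 * C / (s : ℝ) ^ 2) = 2178 * (C * (t : ℝ) ^ 2 / (s : ℝ) ^ 2) := by
      ring
    have h8 : 0 ≤ C * (t : ℝ) ^ 2 / (s : ℝ) ^ 2 := by positivity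
    rw [show 2000 * C * ((t : ℤ) : ℝ) ^ 2 / (s : ℝ) ^ 2 = 2000 * (C * (t : ℝ) ^ 2 / (s : ℝ) ^ 2) by
      push_cast; ring]
    rw [abs_le] at h1 ⊢
    constructor <;> linarith [h1.1, h1.2]
  refine ⟨2000 * C, 100, by norm_num, fun s t ht hs => ?_⟩
  rcases ht.eq_or_lt with rfl | ht
  · simp
  rcases le_total 0 s with h0 | h0
  · exact key s t ht (by rwa [abs_of_nonneg h0] at hs)
  · have := key (-s) t ht (by rwa [abs_of_nonpos h0] at hs)
    rw [h.neg_pt', h.neg_pt'] at this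
    simpa using this

end Pool.Agent.Lib.MP_6359c9_pr.Pl
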