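import Pool.Agent.Lib.MP_6359c9_pr.LogExt
import Pool.Agent.Lib.MP_6359c9_pr.LogTail
import Pool.Agent.Lib.MP_6359c9_pr.LogIso
import Pool.Agent.Lib.MP_6359c9_pr.LogRow
import Pool.Agent.Lib.MP_6359c9_pr.LogAbel

/-! The logarithmic law of the variogram, from the named inputs. -/

namespace Pool.Agent.Lib.MP_6359c9_pr.Pl

open Filter Topology

/-- the statement of the Abel inversion -/
def AbelS : Prop := ∀ (f : ℝ → ℝ) (C β : ℝ), Ext f C →
  (∀ t t' : ℝ, 0 < t → 0 < t' →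
    ∫ s : ℝ, (f (√(s ^ 2 + t' ^ 2)) - f (√(s ^ 2 + t ^ 2))) = β * (t' - t)) →
  ∀ r r' : ℝ, 0 < r → 0 < r' → f r' - f r = β / Real.pi * Real.log (r' / r)

variable {a : V → ℝ} {C : ℝ}

lemma emb_re (x : V) : (emb x).re = x.1 + x.2 / 2 := by simp [emb, om]; ring

lemma emb_im (x : V) : (emb x).im = x.2 * (√3 / 2) := by simp [emb, om]

lemma emb_rot (x : V) : emb (rot x) = om * emb x := by
  have : √3 * √3 = (3 : ℝ) := Real.mul_self_sqrt (by norm_num)
  apply Complex.ext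
  · simp only [Complex.mul_re, emb_re, emb_im, rot, om]; push_cast
    linear_combination (x.2 / 4 : ℝ) * this
  · simp only [Complex.mul_im, emb_re, emb_im, rot, om]; push_cast; ring

lemma norm_om : ‖om‖ = 1 := by rw [om_eq, Complex.norm_exp_ofReal_mul_I]

lemma emb_co (x : V) : |(x.1 : ℝ)| ≤ 2 * ‖emb x‖ ∧ |(x.2 : ℝ)| ≤ 2 * ‖emb x‖ := by
  have h1 := Complex.abs_re_le_norm (emb x)
  have h2 := Complex.abs_im_le_norm (emb x)
  have h3 : 1 ≤ √3 := Real.one_le_sqrt.2 (by norm_num)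
  rw [emb_re] at h1
  rw [emb_im, abs_mul, abs_of_pos (by positivity : 0 < √3 / 2)] at h2
  have h4 : |(x.2 : ℝ)| ≤ 2 * ‖emb x‖ := by nlinarith [abs_nonneg (x.2 : ℝ)]
  refine ⟨?_, h4⟩
  have h5 := abs_le.1 h1
  have h6 := abs_le.1 h4
  exact abs_le.2 ⟨by linarith, by linarith⟩

lemma emb_pos {x : V} (h : x ≠ 0) : 0 < ‖emb x‖ := by
  refine (norm_nonneg _).lt_of_ne fun e => h ?_
  have := emb_co x
  rw [← e, mul_zero, abs_nonpos_iff, abs_nonpos_iff] at this
  exact Prod.ext (by exact_mod_cast this.1) (by exact_mod_cast this.2)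

lemma emb_fin (ρ : ℝ) : {x : V | ‖emb x‖ ≤ ρ}.Finite := by
  have aux : ∀ m : ℤ, |(m : ℝ)| ≤ 2 * ρ → m ∈ Set.Icc (-⌈2 * ρ⌉) ⌈2 * ρ⌉ := by
    intro m h
    have h1 := abs_le.1 (h.trans (Int.le_ceil _))
    exact ⟨by exact_mod_cast h1.1, by exact_mod_cast h1.2⟩
  refine ((Set.finite_Icc (-⌈2 * ρ⌉) ⌈2 * ρ⌉).prod (Set.finite_Icc (-⌈2 * ρ⌉) ⌈2 * ρ⌉)).subset
    fun p hp => ⟨aux _ ?_, aux _ ?_⟩
  · linarith [(emb_co p).1, show ‖emb p‖ ≤ ρ from hp]
  · linarith [(emb_co p).2, show ‖emb p‖ ≤ ρ from hp]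

lemma near_le (n : ℕ) (z : ℂ) : ‖emb (near n z) - n * z‖ ≤ 3 := by
  have h3 : 0 < √3 := by positivity
  have h4 : √3 ≤ 2 := Real.sqrt_le_iff.2 ⟨by norm_num, by norm_num⟩
  refine (Complex.norm_le_abs_re_add_abs_im _).trans ?_
  have e1 : (emb (near n z) - n * z).re = ⌊n * z.re⌋ - n * z.re := by simp [near, emb_pt]
  have e2 : (emb (near n z) - n * z).im = √3 * (⌊n * z.im / √3⌋ - n * z.im / √3) := by
    simp [near, emb_pt]; field_simp
  have aux : ∀ x : ℝ, |(⌊x⌋ : ℝ) - x| ≤ 1 := fun x =>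
    abs_le.2 ⟨by linarith [Int.lt_floor_add_one x], by linarith [Int.floor_le x]⟩
  rw [e1, e2, abs_mul, abs_of_pos h3]
  nlinarith [aux (n * z.re), aux (n * z.im / √3), abs_nonneg ((⌊n * z.im / √3⌋ : ℝ) - n * z.im / √3)]

lemma near_lim (z : ℂ) : Tendsto (fun n : ℕ => emb (near n z) / ((n : ℝ) : ℂ)) atTop (𝓝 z) := by
  rw [tendsto_iff_norm_sub_tendsto_zero]
  refine squeeze_zero' (Eventually.of_forall fun _ => norm_nonneg _) ?_
    (tendsto_const_div_atTop_nhds_zero_nat (3 : ℝ))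
  filter_upwards [eventually_gt_atTop 0] with n hn
  have h0 : (n : ℂ) ≠ 0 := by exact_mod_cast hn.ne'
  rw [Complex.ofReal_natCast,
    show emb (near n z) / n - z = (emb (near n z) - n * z) / n by field_simp, norm_div,
    Complex.norm_natCast]
  gcongr
  exact near_le n z

lemma near_axis (n K : ℕ) : near n (((K * √3 : ℝ) : ℂ) * Complex.I) = pt 0 (K * n) := by
  have h3 : (√3 : ℝ) ≠ 0 := by positivity
  have e : (n : ℝ) * (K * √3) / √3 = ((K * n : ℤ) : ℝ) := by push_cast; field_simp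
  simp only [near, Complex.mul_re, Complex.mul_im, Complex.ofReal_re, Complex.ofReal_im,
    Complex.I_re, Complex.I_im, mul_zero, mul_one, sub_zero, add_zero, Int.floor_zero, e,
    Int.floor_intCast]

/-- the relative Lipschitz bound passes to scaling limits -/
lemma lip_lim {C₁ : ℝ} (hl : ∀ ε > 0, ∃ R : ℝ, ∀ x y : V, R ≤ ‖emb x‖ → R ≤ ‖emb y‖ →
      |a x - a y| ≤ C₁ * ‖emb x - emb y‖ / min ‖emb x‖ ‖emb y‖ + ε)
    {ι : Type} {l : Filter ι} {n : ι → ℝ} (hn : Tendsto n l atTop) {x y : ι → V} {z w : ℂ}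
    (hz : z ≠ 0) (hw : w ≠ 0) (hx : Tendsto (fun j => emb (x j) / (n j : ℂ)) l (𝓝 z))
    (hy : Tendsto (fun j => emb (y j) / (n j : ℂ)) l (𝓝 w)) {ε : ℝ} (hε : 0 < ε) :
    ∀ᶠ j in l, |a (x j) - a (y j)| ≤ C₁ * ‖z - w‖ / min ‖z‖ ‖w‖ + ε := by
  obtain ⟨R, hR⟩ := hl (ε / 2) (by positivity)
  have big : ∀ {x : ι → V} {z : ℂ}, z ≠ 0 → Tendsto (fun j => emb (x j) / (n j : ℂ)) l (𝓝 z) →
      ∀ᶠ j in l, R ≤ ‖emb (x j)‖ := by
    intro x z hz hx
    filter_upwards [(hn.atTop_mul_pos (norm_pos_iff.2 hz) hx.norm).eventually_ge_atTop R,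
      hn.eventually_gt_atTop 0] with j h1 h2
    rwa [norm_div, Complex.norm_real, Real.norm_of_nonneg h2.le, mul_div_cancel₀ _ h2.ne'] at h1
  have t := (((hx.sub hy).norm.const_mul C₁).div (hx.norm.min hy.norm)
    (lt_min (norm_pos_iff.2 hz) (norm_pos_iff.2 hw)).ne').eventually
    (gt_mem_nhds (lt_add_of_pos_right _ (half_pos hε)))
  filter_upwards [big hz hx, big hw hy, t, hn.eventually_gt_atTop 0] with j h1 h2 h3 h4
  have h5 := hR _ _ h1 h2
  simp only [Pi.div_apply] at h3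
  rw [← sub_div, norm_div, norm_div, norm_div, Complex.norm_real, Real.norm_of_nonneg h4.le,
    min_div_div_right h4.le, ← mul_div_assoc, div_div_div_cancel_right₀ h4.ne'] at h3
  linarith

lemma LipS.zero (hl : LipS a) {ι : Type} {l : Filter ι} {n : ι → ℝ} (hn : Tendsto n l atTop)
    {x y : ι → V} {z : ℂ} (hz : z ≠ 0) (hx : Tendsto (fun j => emb (x j) / (n j : ℂ)) l (𝓝 z))
    (hy : Tendsto (fun j => emb (y j) / (n j : ℂ)) l (𝓝 z)) :
    Tendsto (fun j => a (x j) - a (y j)) l (𝓝 0) := by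
  obtain ⟨C₁, -, hl⟩ := hl
  rw [Metric.tendsto_nhds]
  intro ε hε
  filter_upwards [lip_lim hl hn hz hz hx hy (half_pos hε)] with j h
  rw [Real.dist_eq, sub_zero]
  simp only [sub_self, norm_zero, mul_zero, zero_div, zero_add] at h
  linarith

lemma Ext.mono {f : ℝ → ℝ} {C C' : ℝ} (h : Ext f C) (hC : C ≤ C') : Ext f C' := by
  obtain ⟨Φ, h1, h2, h3⟩ := h
  refine ⟨Φ, h1, h2, fun ζ ζ' a b => (h3 ζ ζ' a b).trans ?_⟩
  have := lt_min a b
  gcongr

/-- the rescaled increments converge to a multiple of the logarithm -/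
theorem Vario.lim_log (h : Vario a C) (hab : AbelS) :
    ∃ κ : ℝ, Lim a atTop fun z => κ * Real.log (‖z‖ / √3) := by
  have hl : LipS a := h.lip
  obtain ⟨β, hβ⟩ := h.row_of hl h.tail
  obtain ⟨C', he⟩ := h.ext
  obtain ⟨C₁, c0, hl1⟩ := id hl
  refine ⟨β / Real.pi, fun z0 hz0 => (tendsto_iff_ultrafilter _ _ _).2 fun U hU => ?_⟩
  have h3 : (0 : ℝ) < √3 := by positivity
  set i3 : ℂ := (((1 : ℕ) * √3 : ℝ) : ℂ) * Complex.I with hi3
  have n3 : ‖i3‖ = √3 := by simp [hi3]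
  have i0 : i3 ≠ 0 := norm_pos_iff.1 (n3 ▸ h3)
  have ax : ∀ n : ℕ, near n i3 = pt 0 n := fun n => by rw [hi3, near_axis]; simp
  set u : ℂ → ℕ → ℝ := fun z n => a (near n z) - a (pt 0 n) with hu
  have cl : ∀ z w : ℂ, z ≠ 0 → w ≠ 0 → ∀ ε > 0, ∀ᶠ n : ℕ in atTop,
      |u z n - u w n| ≤ C₁ * ‖z - w‖ / min ‖z‖ ‖w‖ + ε := fun z w hz hw ε hε => by
    simpa only [hu, sub_sub_sub_cancel_right] using
      lip_lim hl1 tendsto_natCast_atTop_atTop hz hw (near_lim z) (near_lim w) hε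
  have ex : ∀ z : ℂ, ∃ r : ℝ, z ≠ 0 → Tendsto (u z) U (𝓝 r) := by
    intro z
    by_cases hz : z = 0
    · exact ⟨0, fun h => absurd hz h⟩
    obtain ⟨r, -, hr⟩ := (isCompact_closedBall (0 : ℝ)
      (C₁ * ‖z - i3‖ / min ‖z‖ ‖i3‖ + 1)).ultrafilter_le_nhds' (U.map (u z)) (by
        refine Ultrafilter.mem_map.2 (hU ?_)
        filter_upwards [cl z i3 hz i0 1 one_pos] with n hn
        simpa [hu, ax] using hn)
    exact ⟨r, fun _ => hr⟩
  choose A hA using ex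
  have lipA : ∀ z w : ℂ, z ≠ 0 → w ≠ 0 → |A z - A w| ≤ C₁ * ‖z - w‖ / min ‖z‖ ‖w‖ :=
    fun z w hz hw => le_of_forall_pos_le_add fun ε hε =>
      le_of_tendsto ((hA z hz).sub (hA w hw)).abs ((cl z w hz hw ε hε).filter_mono hU)
  obtain ⟨D, Dc, Dd⟩ := TopologicalSpace.exists_countable_dense ℂ
  have : Countable (D \ {0} : Set ℂ) := (Dc.mono Set.sdiff_subset).to_subtype
  set l : Filter ℕ := atTop ⊓ ⨅ q : (D \ {0} : Set ℂ), comap (u q) (𝓝 (A q)) with hl'
  have Ul : (U : Filter ℕ) ≤ l := le_inf hU (le_iInf fun q => (hA q q.2.2).le_comap)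
  have lb : l.NeBot := neBot_of_le Ul
  have lim : Lim a l A := by
    intro z hz
    rw [Metric.tendsto_nhds]
    intro ε hε
    have c : Tendsto (fun q : ℂ => C₁ * ‖z - q‖ / min ‖z‖ ‖q‖) (𝓝 z)
        (𝓝 (C₁ * ‖z - z‖ / min ‖z‖ ‖z‖)) :=
      ContinuousAt.tendsto (ContinuousAt.div (by fun_prop) (by fun_prop) (by simpa using hz))
    rw [sub_self, norm_zero, mul_zero, zero_div] at c
    obtain ⟨q, hq, qD⟩ := mem_closure_iff_nhds.1 (Dd z) _
      ((c.eventually (gt_mem_nhds (by positivity : 0 < ε / 4))).and (eventually_ne_nhds hz))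
    have t : Tendsto (u q) l (𝓝 (A q)) :=
      tendsto_iff_comap.2 (inf_le_right.trans (iInf_le _ (⟨q, qD, hq.2⟩ : (D \ {0} : Set ℂ))))
    filter_upwards [(cl z q hz hq.2 (ε / 4) (by positivity)).filter_mono inf_le_left,
      Metric.tendsto_nhds.1 t (ε / 4) (by positivity)] with n h1 h2
    have h4 := abs_le.1 (lipA z q hz hq.2)
    have h5 := abs_le.1 h1
    have h6 := hq.1
    rw [Real.dist_eq, abs_lt] at h2 ⊢
    change -ε < u z n - A z ∧ u z n - A z < ε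
    constructor <;> linarith [h2.1, h2.2, h4.1, h4.2, h5.1, h5.2]
  have om0 : om ≠ 0 := norm_pos_iff.1 (norm_om ▸ one_pos)
  have cont : Cont A (max C₁ C') := by
    refine ⟨fun z w hz hw => (lipA z w hz hw).trans ?_, fun z hz => ?_,
      fun s => (he l A inf_le_left lb lim s).mono (le_max_right _ _)⟩
    · gcongr
      exact le_max_left _ _
    · have t := hl.zero tendsto_natCast_atTop_atTop (mul_ne_zero om0 hz) (near_lim (om * z))
        (y := fun n => Pl.rot (near n z)) (by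
          simpa only [emb_rot, mul_div_assoc] using (near_lim z).const_mul om)
      refine sub_eq_zero.1 (tendsto_nhds_unique ((hA _ (mul_ne_zero om0 hz)).sub (hA z hz)) ?_)
      simpa only [hu, sub_sub_sub_cancel_right, h.rot] using t.mono_left hU
  have rad : ∀ z : ℂ, z ≠ 0 → A z = A ((0 : ℝ) + ‖z‖ * Complex.I) := fun z hz =>
    (cont.iso hz (by simp)).symm
  have key := hab _ _ β (cont.ext 0) (fun t t' h0 h0' => by
    rw [← hβ l A inf_le_left lb inferInstance lim t t' h0 h0']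
    have e : ∀ s t : ℝ, 0 < t → A (s + t * Complex.I) =
        A ((0 : ℝ) + (√(s ^ 2 + t ^ 2) : ℝ) * Complex.I) := fun s t ht => by
      rw [rad _ (fun e => ht.ne' (by simpa using congrArg Complex.im e)),
        Complex.norm_add_mul_I]
    simp only [e _ _ h0, e _ _ h0']) √3 ‖z0‖ h3 (norm_pos_iff.2 hz0)
  have A3 : A i3 = 0 := tendsto_nhds_unique (hA i3 i0) (by
    simp only [hu, ax, sub_self]; exact tendsto_const_nhds)
  rw [rad i3 i0, n3] at A3
  simp only [A3, sub_zero, ← rad z0 hz0] at key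
  simp only [← key]
  exact hA z0 hz0

/-- the logarithmic law, with the positivity criterion for the constant -/
theorem Vario.log_of (h : Vario a C) (hab : AbelS) :
    ∃ κ : ℝ, (∀ K ε : ℝ, 0 < ε → ∃ R : ℝ, ∀ x y : V, R ≤ ‖emb x‖ → R ≤ ‖emb y‖ →
      ‖emb x‖ ≤ K * ‖emb y‖ → ‖emb y‖ ≤ K * ‖emb x‖ →
      |a x - a y - κ * Real.log (‖emb x‖ / ‖emb y‖)| ≤ ε) ∧
    ((∃ (K : ℕ) (c : ℝ), 0 < c ∧ ∀ m : ℤ, 1 ≤ m → c ≤ a (pt 0 (K * m)) - a (pt 0 m)) → 0 < κ) := by
  have hl : LipS a := h.lip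
  obtain ⟨κ, hκ⟩ := h.lim_log hab
  have h3 : (0 : ℝ) < √3 := by positivity
  refine ⟨κ, fun K ε hε => ?_, ?_⟩
  · by_contra hc
    push Not at hc
    choose x y hx hy hxy hyx hb using fun j : ℕ => hc (j + 1)
    set n : ℕ → ℕ := fun j => ⌊‖emb (x j)‖⌋₊ with hn
    have n1 : ∀ j, j + 1 ≤ n j := fun j => Nat.le_floor (by exact_mod_cast hx j)
    have nt : Tendsto n atTop atTop := tendsto_atTop_mono (fun j => by
      have := n1 j; change j ≤ n j; omega) tendsto_id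
    have np : ∀ j, (1 : ℝ) ≤ n j := fun j => by have := n1 j; exact_mod_cast (by omega : 1 ≤ n j)
    have lo : ∀ j, (n j : ℝ) ≤ ‖emb (x j)‖ := fun j => Nat.floor_le (norm_nonneg _)
    have hi : ∀ j, ‖emb (x j)‖ ≤ 2 * n j := fun j => by
      linarith [Nat.lt_floor_add_one ‖emb (x j)‖, np j]
    have K0 : 0 < K := by
      by_contra hK
      nlinarith [hxy 0, lo 0, np 0, norm_nonneg (emb (y 0))]
    have nd : ∀ (v : V) j, ‖emb v / ((n j : ℝ) : ℂ)‖ = ‖emb v‖ / n j := fun v j => by simp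
    set U : Ultrafilter ℕ := Ultrafilter.of atTop
    have hU : (U : Filter ℕ) ≤ atTop := Ultrafilter.of_le _
    obtain ⟨z, -, hz⟩ := (isCompact_closedBall (0 : ℂ) 2).ultrafilter_le_nhds'
      (U.map fun j => emb (x j) / ((n j : ℝ) : ℂ)) (Ultrafilter.mem_map.2 (univ_mem' fun j => by
        simp only [Set.mem_preimage, mem_closedBall_zero_iff, nd]
        exact (div_le_iff₀ (by linarith [np j])).2 (hi j)))
    obtain ⟨w, -, hw⟩ := (isCompact_closedBall (0 : ℂ) (K * 2)).ultrafilter_le_nhds'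
      (U.map fun j => emb (y j) / ((n j : ℝ) : ℂ)) (Ultrafilter.mem_map.2 (univ_mem' fun j => by
        simp only [Set.mem_preimage, mem_closedBall_zero_iff, nd]
        exact (div_le_iff₀ (by linarith [np j])).2 (by nlinarith [hyx j, hi j])))
    replace hz : Tendsto (fun j => emb (x j) / ((n j : ℝ) : ℂ)) U (𝓝 z) := hz
    replace hw : Tendsto (fun j => emb (y j) / ((n j : ℝ) : ℂ)) U (𝓝 w) := hw
    have z1 : 1 ≤ ‖z‖ := ge_of_tendsto' hz.norm fun j => by
      rw [nd]; exact (one_le_div (by linarith [np j])).2 (lo j)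
    have w1 : 1 ≤ K * ‖w‖ := ge_of_tendsto' (hw.norm.const_mul K) fun j => by
      rw [nd, ← mul_div_assoc]; exact (one_le_div (by linarith [np j])).2 ((lo j).trans (hxy j))
    have zp : 0 < ‖z‖ := by linarith
    have wp : 0 < ‖w‖ := by nlinarith [norm_nonneg w]
    have z0 := norm_pos_iff.1 zp
    have w0 := norm_pos_iff.1 wp
    have nU := nt.mono_left hU
    have nR : Tendsto (fun j => (n j : ℝ)) U atTop := tendsto_natCast_atTop_atTop.comp nU
    have t1 := hl.zero nR z0 hz ((near_lim z).comp nU)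
    have t2 := hl.zero nR w0 hw ((near_lim w).comp nU)
    have t5 := ((hz.norm.div hw.norm wp.ne').log (div_pos zp wp).ne').const_mul κ
    have t := (((t1.sub t2).add (((hκ z z0).comp nU).sub ((hκ w w0).comp nU))).sub t5).abs
    have e : |0 - 0 + (κ * Real.log (‖z‖ / √3) - κ * Real.log (‖w‖ / √3)) -
        κ * Real.log (‖z‖ / ‖w‖)| = 0 := by
      rw [Real.log_div zp.ne' h3.ne', Real.log_div wp.ne' h3.ne', Real.log_div zp.ne' wp.ne',
        abs_eq_zero]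
      ring
    rw [e] at t
    refine absurd (ge_of_tendsto' t fun j => (hb j).le.trans (le_of_eq ?_)) (not_le.2 hε)
    have := np j
    simp only [Function.comp_apply, Pi.div_apply, nd]
    rw [div_div_div_cancel_right₀ (by positivity)]
    congr 1
    ring
  · rintro ⟨K, c, c0, hc⟩
    rcases K.eq_zero_or_pos with rfl | hK
    · have := hc 1 le_rfl
      simp only [Nat.cast_zero, zero_mul, pt_zero, h.zero] at this
      linarith [h.nonneg (pt 0 1)]
    have K1 : (1 : ℝ) ≤ K := by exact_mod_cast hK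
    have nz : ‖((K * √3 : ℝ) : ℂ) * Complex.I‖ = K * √3 := by simp
    have t := hκ (((K * √3 : ℝ) : ℂ) * Complex.I) (norm_pos_iff.1 (by rw [nz]; positivity))
    simp only [near_axis, nz, mul_div_cancel_right₀ _ h3.ne'] at t
    have := ge_of_tendsto t ((eventually_ge_atTop 1).mono fun m hm => hc m (by exact_mod_cast hm))
    by_contra hκ
    nlinarith [Real.log_nonneg K1]

/-- logarithmic bound at all scales -/
theorem LipS.log_bound (hl : LipS a) : ∃ C' : ℝ, ∀ x y : V, x ≠ 0 → y ≠ 0 →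
    |a x - a y| ≤ C' * (1 + |Real.log (‖emb x‖ / ‖emb y‖)|) := by
  obtain ⟨C₁, c0, hl⟩ := hl
  obtain ⟨R, hR⟩ := hl 1 one_pos
  obtain ⟨B, hB⟩ := ((emb_fin (2 * R)).image fun x => |a x|).bddAbove
  obtain ⟨M, M0, one⟩ : ∃ M : ℝ, 0 ≤ M ∧ ∀ x y : V, y ≠ 0 → ‖emb y‖ ≤ ‖emb x‖ →
      ‖emb x‖ ≤ 2 * ‖emb y‖ → |a x - a y| ≤ M := by
    refine ⟨max (C₁ * 3 + 1) (B + B), le_max_of_le_left (by positivity), fun x y hy h1 h2 => ?_⟩
    have yp := emb_pos hy
    rcases le_total R ‖emb y‖ with h | h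
    · refine le_max_of_le_left ((hR x y (h.trans h1) h).trans ?_)
      rw [min_eq_right h1, mul_div_assoc]
      gcongr
      rw [div_le_iff₀ yp]
      linarith [norm_sub_le (emb x) (emb y)]
    · refine le_max_of_le_right ((abs_sub _ _).trans (add_le_add (hB ⟨x, ?_, rfl⟩) (hB ⟨y, ?_, rfl⟩)))
      · change ‖emb x‖ ≤ 2 * R
        linarith
      · change ‖emb y‖ ≤ 2 * R
        linarith
  have chain : ∀ (k : ℕ) (x y : V), y ≠ 0 → ‖emb y‖ ≤ ‖emb x‖ → ‖emb x‖ ≤ 2 ^ (k + 1) * ‖emb y‖ →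
      |a x - a y| ≤ (k + 1) * M := by
    intro k
    induction k with
    | zero => intro x y hy h1 h2; simpa using one x y hy h1 (by simpa using h2)
    | succ k ih =>
      intro x y hy h1 h2
      have k0 : (0 : ℝ) ≤ k * M := by positivity
      push_cast
      rcases le_total ‖emb x‖ (2 * ‖emb y‖) with h | h
      · linarith [one x y hy h1 h]
      have yp := emb_pos hy
      have e : ‖emb (y + y)‖ = 2 * ‖emb y‖ := by rw [emb_add, ← two_mul]; simp
      have y2 : y + y ≠ 0 := fun h0 => hy (by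
        simp only [Prod.ext_iff, Prod.fst_add, Prod.snd_add, Prod.fst_zero, Prod.snd_zero] at h0 ⊢
        omega)
      have b1 := ih x (y + y) y2 (e ▸ h) (by rw [e, ← mul_assoc, ← pow_succ]; exact h2)
      have b2 := one (y + y) y hy (by linarith) e.le
      linarith [abs_sub_le (a x) (a (y + y)) (a y)]
  have half : ∀ x y : V, y ≠ 0 → ‖emb y‖ ≤ ‖emb x‖ →
      |a x - a y| ≤ 2 * M * (1 + |Real.log (‖emb x‖ / ‖emb y‖)|) := by
    intro x y hy h1
    have yp := emb_pos hy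
    obtain ⟨k, k1, k2⟩ := exists_nat_pow_near ((one_le_div yp).2 h1) one_lt_two
    have b1 := chain k x y hy h1 ((div_lt_iff₀ yp).1 k2).le
    have b2 := Real.log_le_log (by positivity) k1
    rw [Real.log_pow] at b2
    have b3 : (k : ℝ) ≤ 2 * |Real.log (‖emb x‖ / ‖emb y‖)| := by
      nlinarith [Real.log_two_gt_d9, le_abs_self (Real.log (‖emb x‖ / ‖emb y‖)),
        (Nat.cast_nonneg k : (0 : ℝ) ≤ k)]
    nlinarith
  refine ⟨2 * M, fun x y hx hy => ?_⟩
  rcases le_total ‖emb y‖ ‖emb x‖ with h | h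
  · exact half x y hy h
  · rw [abs_sub_comm, ← inv_div, Real.log_inv, abs_neg]
    exact half y x hx h

theorem Vario.log_bound (h : Vario a C) : ∃ C' : ℝ, ∀ x y : V, x ≠ 0 → y ≠ 0 →
    |a x - a y| ≤ C' * (1 + |Real.log (‖emb x‖ / ‖emb y‖)|) := LipS.log_bound h.lip

theorem abelS : AbelS := fun _ _ _ h hI => abel h hI

theorem Vario.log_law (h : Vario a C) : ∃ κ : ℝ, ∀ K ε : ℝ, 0 < ε → ∃ R : ℝ, ∀ x y : V,
    R ≤ ‖emb x‖ → R ≤ ‖emb y‖ → ‖emb x‖ ≤ K * ‖emb y‖ → ‖emb y‖ ≤ K * ‖emb x‖ →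
    |a x - a y - κ * Real.log (‖emb x‖ / ‖emb y‖)| ≤ ε := (h.log_of abelS).imp fun _ => And.left

end Pool.Agent.Lib.MP_6359c9_pr.Pl
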