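import Pool.Agent.Lib.MP_6359c9_pr.CovA
import Pool.Agent.Lib.MP_6359c9_pr.LogMain
import Pool.Agent.Lib.MP_6359c9_pr.Fund

/-! Limits and bounds of the variogram paired with test functions. -/

namespace Pool.Agent.Lib.MP_6359c9_pr.Pl

open Filter Topology MeasureTheory Set Metric

/-- the logarithmic law with constant `κ` -/
def LogLaw (a : V → ℝ) (κ : ℝ) : Prop := ∀ K ε : ℝ, 0 < ε → ∃ R : ℝ, ∀ x y : V, R ≤ ‖emb x‖ →
  R ≤ ‖emb y‖ → ‖emb x‖ ≤ K * ‖emb y‖ → ‖emb y‖ ≤ K * ‖emb x‖ →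
    |a x - a y - κ * Real.log (‖emb x‖ / ‖emb y‖)| ≤ ε

/-- functions bounded by `B` with support in the closed disc of radius `r` around `c` -/
structure Tf (c : ℂ) (r B : ℝ) (f : ℂ → ℝ) : Prop where
  meas : AEStronglyMeasurable f
  bd : ∀ z, |f z| ≤ B
  supp : ∀ z, f z ≠ 0 → ‖z - c‖ ≤ r

variable {a : V → ℝ} {C κ r B δ : ℝ} {c : ℂ} {f : ℂ → ℝ}

lemma Tf.nonneg (h : Tf c r B f) : 0 ≤ B := (abs_nonneg _).trans (h.bd 0)

lemma Tf.mono (h : Tf c r B f) {r' B' : ℝ} (hr : r ≤ r') (hB : B ≤ B') : Tf c r' B' f :=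
  ⟨h.meas, fun z => (h.bd z).trans hB, fun z hz => (h.supp z hz).trans hr⟩

lemma Tf.int_mul (h : Tf c r B f) {g : ℂ → ℝ} (hg : LocallyIntegrable g) :
    Integrable fun z => f z * g z := by
  refine IntegrableOn.integrable_of_forall_notMem_eq_zero (s := closedBall c r)
    ((hg.integrableOn_isCompact (isCompact_closedBall c r)).bdd_mul (c := B) h.meas.restrict
      (Eventually.of_forall h.bd)) fun z hz => ?_
  rw [not_imp_comm.1 (h.supp z) (by rwa [mem_closedBall_iff_norm] at hz), zero_mul]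

lemma Tf.int (h : Tf c r B f) : Integrable f := by
  simpa using h.int_mul (locallyIntegrable_const 1)

lemma Tf.int_abs (h : Tf c r B f) : ∫ z, |f z| ≤ 4 * B * r ^ 2 := by
  have h1 : ∫ z, |f z| ≤ ∫ z, (closedBall c r).indicator (fun _ => B) z := by
    refine integral_mono h.int.abs ((integrable_indicator_iff measurableSet_closedBall).2
      (integrableOn_const measure_closedBall_lt_top.ne)) fun z => ?_
    by_cases hz : f z = 0
    · simp only [hz, abs_zero]
      exact indicator_nonneg (fun _ _ => h.nonneg) z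
    · rw [indicator_of_mem (mem_closedBall_iff_norm.2 (h.supp z hz))]
      exact h.bd z
  rw [integral_indicator measurableSet_closedBall, setIntegral_const, Measure.real,
    Complex.volume_closedBall, ENNReal.toReal_mul, ENNReal.toReal_pow, ENNReal.toReal_ofReal',
    smul_eq_mul] at h1
  have h2 : max r 0 ^ 2 ≤ r ^ 2 := by
    rcases le_total r 0 with h | h
    · rw [max_eq_right h]; nlinarith
    · rw [max_eq_left h]
  have h3 : ((NNReal.pi : ENNReal)).toReal ≤ 4 := by simpa using Real.pi_le_four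
  have := h.nonneg
  calc _ ≤ _ := h1
    _ ≤ r ^ 2 * 4 * B := by gcongr
    _ = _ := by ring

lemma pos_emb (δ : ℝ) (v : V) : pos δ v = δ * emb v := by
  apply Complex.ext <;> simp [pos, emb_re, emb_im]

lemma norm_pos_sub (hδ : 0 < δ) (u v : V) : ‖pos δ u - pos δ v‖ = δ * ‖emb (u - v)‖ := by
  rw [pos_emb, pos_emb, ← mul_sub, emb_sub, norm_mul, Complex.norm_real, Real.norm_of_nonneg hδ.le]

lemma one_le_emb {x : V} (h : x ≠ 0) : 1 ≤ ‖emb x‖ := by
  refine (one_le_sq_iff₀ (norm_nonneg _)).1 ?_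
  rw [norm_emb_sq]
  have : 1 ≤ x.1 ^ 2 + x.1 * x.2 + x.2 ^ 2 := by
    by_contra hn
    exact h (Prod.ext (by nlinarith [sq_nonneg (x.1 + 2 * x.2), sq_nonneg x.1] : x.1 = 0)
      (by nlinarith [sq_nonneg (2 * x.1 + x.2), sq_nonneg x.2] : x.2 = 0))
  exact_mod_cast this

lemma exists_ref (hδ : 0 < δ) (hr : δ ≤ r) : ∃ x : V, r ≤ δ * ‖emb x‖ ∧ δ * ‖emb x‖ ≤ 2 * r := by
  have h0 : 0 ≤ r / δ := div_nonneg (hδ.le.trans hr) hδ.le
  have e : ‖emb ((⌈r / δ⌉₊ : ℤ), 0)‖ = ⌈r / δ⌉₊ := by simp [emb]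
  refine ⟨((⌈r / δ⌉₊ : ℤ), 0), ?_, ?_⟩ <;> rw [e]
  · exact (div_le_iff₀' hδ).1 (Nat.le_ceil _)
  · have := mul_lt_mul_of_pos_left (Nat.ceil_lt_add_one h0) hδ
    rw [mul_add, mul_div_cancel₀ _ hδ.ne'] at this
    linarith

/-- comparison with a reference point at the scale `r` -/
lemma Vario.ref_bd (h : Vario a C) : ∃ C₀ : ℝ, 0 ≤ C₀ ∧ ∀ (δ r ρ : ℝ) (x x0 : V), 0 < δ → δ ≤ r →
    0 < ρ → r ≤ δ * ‖emb x0‖ → δ * ‖emb x0‖ ≤ 2 * r → |δ * ‖emb x‖ - ρ| ≤ 2 * δ →
    |a x - a x0| ≤ C₀ * (1 + |Real.log (ρ / r)|) := by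
  obtain ⟨C', hC⟩ := h.log_bound
  have e0 : ((1, 0) : V) ≠ 0 := by decide
  have c0 : 0 ≤ C' := by simpa [(emb_pos e0).ne'] using hC _ _ e0 e0
  have a0 := h.nonneg (1, 0)
  refine ⟨6 * C' + a (1, 0), by positivity, fun δ r ρ x x0 hδ hr hρ h1 h2 h3 => ?_⟩
  have rp := hδ.trans_le hr
  have l0 := abs_nonneg (Real.log (ρ / r))
  have key : ∀ x : V, x ≠ 0 → |δ * ‖emb x‖ - ρ| ≤ 2 * δ →
      |a x - a x0| ≤ 6 * C' * (1 + |Real.log (ρ / r)|) := by
    intro x hx h3
    have x00 : x0 ≠ 0 := by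
      rintro rfl
      simp only [emb, Prod.fst_zero, Prod.snd_zero, Int.cast_zero, zero_mul, add_zero, norm_zero,
        mul_zero] at h1
      linarith
    have t1 : δ ≤ δ * ‖emb x‖ := le_mul_of_one_le_right hδ.le (one_le_emb hx)
    have h4 := abs_le.1 h3
    have := hC x x0 hx x00
    rw [← mul_div_mul_left _ _ hδ.ne'] at this
    generalize δ * ‖emb x‖ = t, δ * ‖emb x0‖ = t0 at *
    have tp : 0 < t0 := by linarith
    have sp : 0 < ρ / r := by positivity
    have lo : ρ / r / 6 ≤ t / t0 := by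
      rw [div_div, div_le_div_iff₀ (by positivity) tp]; nlinarith
    have hi : t / t0 ≤ 3 * max (ρ / r) 1 := by
      have : t / t0 ≤ ρ / r + 2 := by
        rw [div_add' _ _ _ rp.ne', div_le_div_iff₀ tp rp]; nlinarith
      linarith [le_max_left (ρ / r) 1, le_max_right (ρ / r) 1]
    have b1 := Real.log_le_log (by positivity) lo
    have b2 := Real.log_le_log (by have := hδ.trans_le t1; positivity) hi
    rw [Real.log_div sp.ne' (by norm_num)] at b1
    rw [Real.log_mul (by norm_num) (by positivity)] at b2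
    have b3 : Real.log (max (ρ / r) 1) ≤ |Real.log (ρ / r)| := by
      rcases le_total (ρ / r) 1 with h | h
      · rw [max_eq_right h, Real.log_one]; exact l0
      · rw [max_eq_left h]; exact le_abs_self _
    have b4 := Real.log_le_sub_one_of_pos (by norm_num : (0 : ℝ) < 6)
    have b5 := Real.log_le_sub_one_of_pos (by norm_num : (0 : ℝ) < 3)
    have b6 : |Real.log (t / t0)| ≤ 5 + |Real.log (ρ / r)| :=
      abs_le.2 ⟨by linarith [neg_abs_le (Real.log (ρ / r))], by linarith⟩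
    nlinarith
  by_cases hx : x = 0
  · subst hx
    have e1 : ‖emb (1, 0)‖ = 1 := by simp [emb]
    have e2 : ‖emb 0‖ = 0 := by simp [emb]
    rw [e2] at h3
    have h4 := abs_le.1 h3
    have h5 := key _ e0 (by rw [e1]; exact abs_le.2 ⟨by linarith, by linarith⟩)
    have h6 := abs_sub_le (a 0) (a (1, 0)) (a x0)
    rw [h.zero, zero_sub (a (1, 0)), abs_neg, abs_of_nonneg a0] at h6
    rw [h.zero]
    nlinarith
  · nlinarith [key x hx h3]

/-- the logarithmic majorant on the disc of radius `η` -/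
noncomputable def Gl (η : ℝ) : ℂ → ℝ := (closedBall 0 η).indicator fun y => 1 + |Real.log ‖y‖|

lemma Gl_nonneg (η : ℝ) (y : ℂ) : 0 ≤ Gl η y := indicator_nonneg (fun _ _ => by positivity) y

lemma Gl_eq {η : ℝ} {y : ℂ} (h : ‖y‖ ≤ η) : Gl η y = 1 + |Real.log ‖y‖| :=
  indicator_of_mem (mem_closedBall_zero_iff.2 h) _

lemma Gl_int (η : ℝ) : Integrable (Gl η) :=
  (integrable_indicator_iff measurableSet_closedBall).2
    (((locallyIntegrable_const 1).integrableOn_isCompact (isCompact_closedBall 0 η)).add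
      (locInt_log0.integrableOn_isCompact (isCompact_closedBall 0 η)).abs)

lemma Gl_small {ε : ℝ} (hε : 0 < ε) : ∃ η > 0, ∫ y, Gl η y ≤ ε := by
  have t : Tendsto (volume ∘ fun η : ℝ => closedBall (0 : ℂ) η) (𝓝[>] 0) (𝓝 0) := by
    have c : Continuous fun η : ℝ => ENNReal.ofReal η ^ 2 * (NNReal.pi : ENNReal) :=
      (ENNReal.continuous_mul_const ENNReal.coe_ne_top).comp
        ((ENNReal.continuous_pow 2).comp ENNReal.continuous_ofReal)
    simpa [Function.comp_def, Complex.volume_closedBall] using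
      (c.tendsto 0).mono_left (nhdsWithin_le_nhds (s := Ioi 0))
  obtain ⟨η, ⟨h1, h2⟩, h3⟩ := (((((Gl_int 1).tendsto_setIntegral_nhds_zero t).eventually
    (gt_mem_nhds hε)).and (mem_nhdsWithin_of_mem_nhds (Iic_mem_nhds one_pos))).and
    self_mem_nhdsWithin).exists
  refine ⟨η, h3, le_trans (le_of_eq ?_) h1.le⟩
  rw [Gl, integral_indicator measurableSet_closedBall]
  exact setIntegral_congr_fun measurableSet_closedBall fun y hy =>
    (Gl_eq ((mem_closedBall_zero_iff.1 hy).trans h2)).symm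

lemma ae_ne (p : ℂ) : ∀ᵐ z, z ≠ p := by simp [ae_iff]

lemma near_dist (hδ : 0 < δ) {y v : V} {p z : ℂ} (h1 : ‖pos δ y - p‖ ≤ δ) (h2 : ‖pos δ v - z‖ ≤ δ) :
    |δ * ‖emb (v - y)‖ - ‖z - p‖| ≤ 2 * δ := by
  rw [← norm_pos_sub hδ]
  refine (abs_norm_sub_norm_le _ _).trans ?_
  rw [show pos δ v - pos δ y - (z - p) = (pos δ v - z) - (pos δ y - p) by ring]
  linarith [norm_sub_le (pos δ v - z) (pos δ y - p)]

/-- uniform bound of the potential of a neutral function -/
theorem pot_bd (h : Vario a C) : ∃ C₁ : ℝ, 0 ≤ C₁ ∧ ∀ (δ r B : ℝ) (c : ℂ) (f : ℂ → ℝ)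
    (S : Finset V), 0 < δ → δ ≤ r → Tf c r B f → ∫ z, f z = 0 → Cvr δ f S → ∀ y : V,
    ‖pos δ y - c‖ ≤ 2 * r → |∑ u ∈ S, Wt δ f u * a (u - y)| ≤ C₁ * B * r ^ 2 := by
  obtain ⟨C₀, c0, hC⟩ := h.ref_bd
  refine ⟨C₀ * ∫ y, Gl 3 y, mul_nonneg c0 (integral_nonneg (Gl_nonneg 3)),
    fun δ r B c f S hδ hr hf h0 hS y hy => ?_⟩
  have rp := hδ.trans_le hr
  have B0 := hf.nonneg
  obtain ⟨x0, h1, h2⟩ := exists_ref hδ hr
  have e : ∑ u ∈ S, Wt δ f u * a (u - y) = ∫ z, (exR δ (fun u => a (u - y)) z - a x0) * f z := by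
    simp only [sub_mul]
    rw [integral_sub (int_exR' hδ hf.int hS _) (hf.int.const_mul _), integral_const_mul, h0,
      int_exR hδ hf.int hS]
    ring
  have b := norm_integral_le_of_norm_le
    (f := fun z => (exR δ (fun u => a (u - y)) z - a x0) * f z)
    (g := fun z => C₀ * B * Gl 3 (r⁻¹ • (z - pos δ y)))
    ((((Gl_int 3).comp_smul (inv_ne_zero rp.ne')).comp_sub_right (pos δ y)).const_mul _) (by
      filter_upwards [ae_ne (pos δ y)] with z hz
      by_cases hz0 : f z = 0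
      · simp only [hz0, mul_zero, norm_zero]
        exact mul_nonneg (by positivity) (Gl_nonneg _ _)
      have n : ‖r⁻¹ • (z - pos δ y)‖ = ‖z - pos δ y‖ / r := by
        rw [norm_smul, norm_inv, Real.norm_of_nonneg rp.le, inv_mul_eq_div]
      have k := exR_near hδ (h := fun u => a (u - y)) (z := z) fun v hv => hC δ r _ (v - y) x0 hδ hr
        (norm_pos_iff.2 (sub_ne_zero.2 hz)) h1 h2 (near_dist hδ (by simpa using hδ.le) hv)
      rw [Gl_eq (by
        rw [n, div_le_iff₀ rp]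
        linarith [norm_sub_le_norm_sub_add_norm_sub z c (pos δ y), hf.supp z hz0,
          norm_sub_rev c (pos δ y)]), n, Real.norm_eq_abs, abs_mul, mul_right_comm]
      exact mul_le_mul k (hf.bd z) (abs_nonneg _) (by positivity))
  rw [integral_const_mul, integral_sub_right_eq_self (fun z => Gl 3 (r⁻¹ • z)),
    Measure.integral_comp_inv_smul_of_nonneg _ _ rp.le, Complex.finrank_real_complex,
    smul_eq_mul] at b
  rw [e]
  exact b.trans (le_of_eq (by ring))

/-- uniform bound of the covariance of two pairings -/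
theorem cov_bd (h : Vario a C) : ∃ C₁ : ℝ, ∀ (δ r B B₁ : ℝ) (c : ℂ) (f f₁ : ℂ → ℝ)
    (S S₁ : Finset V), 0 < δ → δ ≤ r → Tf c r B f → Tf c r B₁ f₁ → ∫ z, f z = 0 → Cvr δ f S →
    Cvr δ f₁ S₁ →
    |∑ u ∈ S, ∑ v ∈ S₁, Wt δ f u * Wt δ f₁ v * a (u - v)| ≤ C₁ * B * B₁ * r ^ 4 := by
  obtain ⟨C₁, c1, hC⟩ := pot_bd h
  refine ⟨4 * C₁, fun δ r B B₁ c f f₁ S S₁ hδ hr hf hf₁ h0 hS hS₁ => ?_⟩
  have B0 := hf.nonneg
  have e : ∑ u ∈ S, ∑ v ∈ S₁, Wt δ f u * Wt δ f₁ v * a (u - v) =
      ∫ z, exR δ (fun v => ∑ u ∈ S, Wt δ f u * a (u - v)) z * f₁ z := by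
    rw [int_exR hδ hf₁.int hS₁, Finset.sum_comm]
    simp only [Finset.mul_sum]
    exact Finset.sum_congr rfl fun _ _ => Finset.sum_congr rfl fun _ _ => by ring
  have b := norm_integral_le_of_norm_le
    (f := fun z => exR δ (fun v => ∑ u ∈ S, Wt δ f u * a (u - v)) z * f₁ z)
    (hf₁.int.abs.const_mul (C₁ * B * r ^ 2)) (Eventually.of_forall fun z => by
      by_cases hz0 : f₁ z = 0
      · simp [hz0]
      have k := exR_near hδ (h := fun v => ∑ u ∈ S, Wt δ f u * a (u - v)) (z := z) (c := 0)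
        fun v hv => by
          rw [sub_zero]
          refine hC δ r B c f S hδ hr hf h0 hS v ?_
          linarith [norm_sub_le_norm_sub_add_norm_sub (pos δ v) z c, hf₁.supp z hz0]
      rw [sub_zero] at k
      rw [Real.norm_eq_abs, abs_mul]
      gcongr)
  rw [integral_const_mul] at b
  rw [e]
  refine b.trans ((mul_le_mul_of_nonneg_left hf₁.int_abs (by positivity)).trans (le_of_eq ?_))
  ring

lemma log_near {t ρ m : ℝ} (hm : 0 < m) (h1 : m ≤ t) (h2 : m ≤ ρ) :
    |Real.log t - Real.log ρ| ≤ |t - ρ| / m := by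
  have key : ∀ t ρ : ℝ, m ≤ t → m ≤ ρ → Real.log t - Real.log ρ ≤ |t - ρ| / m := fun t ρ h1 h2 => by
    have ρp := hm.trans_le h2
    rw [← Real.log_div (hm.trans_le h1).ne' ρp.ne']
    refine (Real.log_le_sub_one_of_pos (div_pos (hm.trans_le h1) ρp)).trans ?_
    rw [div_sub_one ρp.ne']
    exact (div_le_div_of_nonneg_right (le_abs_self _) ρp.le).trans (by gcongr)
  have := key ρ t h2 h1
  rw [abs_sub_comm] at this
  exact abs_le.2 ⟨by linarith, key t ρ h1 h2⟩

/-- the potential of a neutral function converges to the logarithmic potential -/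
theorem pot_lim (h : Vario a C) (hk : LogLaw a κ) (L : ℝ) {ε : ℝ} (hε : 0 < ε) :
    ∃ δ0 > 0, ∀ δ, 0 < δ → δ < δ0 → ∀ (f : ℂ → ℝ) (S : Finset V), Tf 0 L L f → ∫ z, f z = 0 →
      Cvr δ f S → ∀ (y : V) (p : ℂ), ‖pos δ y - p‖ ≤ δ → ‖p‖ ≤ L →
      |∑ u ∈ S, Wt δ f u * a (u - y) - κ * ∫ z, f z * Real.log ‖z - p‖| ≤ ε := by
  obtain ⟨C₀, c0, hC⟩ := h.ref_bd
  set M := |L| + 1 with hM
  have Mp : 0 < M := by positivity
  have LM : L ≤ M := by linarith [le_abs_self L]
  set A := (C₀ + |κ|) * M + 1 with hA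
  have Ap : 0 < A := by positivity
  obtain ⟨η, ηp, hη⟩ := Gl_small (ε := ε / 2 / A) (by positivity)
  set ε₁ := ε / 2 / (8 * M ^ 3) with hε₁
  have e1 : 0 < ε₁ := by positivity
  set K := max (2 * M + 2) (4 / η) with hK
  obtain ⟨R, hR⟩ := hk K ε₁ e1
  have ev : ∀ᶠ δ in 𝓝 (0 : ℝ), δ < 1 ∧ δ < η / 4 ∧ δ * R < 1 ∧ δ * R < η / 2 ∧
      |κ| * (2 * δ / (η / 2)) < ε₁ := by
    have t1 : Tendsto (fun δ : ℝ => δ * R) (𝓝 0) (𝓝 0) := by
      simpa using (continuous_mul_const R).tendsto 0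
    have t2 : Tendsto (fun δ : ℝ => |κ| * (2 * δ / (η / 2))) (𝓝 0) (𝓝 0) := by
      simpa using (by fun_prop : Continuous fun δ : ℝ => |κ| * (2 * δ / (η / 2))).tendsto 0
    exact (gt_mem_nhds one_pos).and ((gt_mem_nhds (by positivity)).and
      ((t1.eventually (gt_mem_nhds one_pos)).and ((t1.eventually (gt_mem_nhds (by positivity))).and
        (t2.eventually (gt_mem_nhds e1)))))
  obtain ⟨δ0, d0, hδ0⟩ := Metric.eventually_nhds_iff.1 ev
  refine ⟨δ0, d0, fun δ hδ hδ' f S hf h0 hS y p hy hp => ?_⟩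
  obtain ⟨d1, d2, d3, d4, d5⟩ := hδ0 (y := δ) (by rwa [Real.dist_eq, sub_zero, abs_of_pos hδ])
  obtain ⟨x0, h1, h2⟩ := exists_ref hδ d1.le
  set c₀ := a x0 - κ * Real.log (δ * ‖emb x0‖) with hc₀
  have il := hf.int_mul (locInt_log p)
  have e : ∑ u ∈ S, Wt δ f u * a (u - y) - κ * ∫ z, f z * Real.log ‖z - p‖ =
      ∫ z, (exR δ (fun u => a (u - y)) z - (c₀ + κ * Real.log ‖z - p‖)) * f z := by
    have : ∀ z, (exR δ (fun u => a (u - y)) z - (c₀ + κ * Real.log ‖z - p‖)) * f z =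
        exR δ (fun u => a (u - y)) z * f z - c₀ * f z - κ * (f z * Real.log ‖z - p‖) :=
      fun z => by ring
    simp only [this]
    have i0 : Integrable fun z => exR δ (fun u => a (u - y)) z * f z - c₀ * f z :=
      (int_exR' hδ hf.int hS _).sub (hf.int.const_mul _)
    rw [integral_sub i0 (il.const_mul _), integral_sub (int_exR' hδ hf.int hS _) (hf.int.const_mul _), integral_const_mul,
      integral_const_mul, h0, int_exR hδ hf.int hS]
    ring
  have b := norm_integral_le_of_norm_le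
    (f := fun z => (exR δ (fun u => a (u - y)) z - (c₀ + κ * Real.log ‖z - p‖)) * f z)
    (g := fun z => 2 * ε₁ * |f z| + A * Gl η (z - p))
    ((hf.int.abs.const_mul _).add (((Gl_int η).comp_sub_right p).const_mul _)) (by
      filter_upwards [ae_ne p] with z hz
      have g0 := mul_nonneg Ap.le (Gl_nonneg η (z - p))
      by_cases hz0 : f z = 0
      · simp only [hz0, mul_zero, norm_zero, abs_zero, zero_add]
        exact g0
      have ρp : 0 < ‖z - p‖ := norm_pos_iff.2 (sub_ne_zero.2 hz)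
      have ρM : ‖z - p‖ ≤ 2 * M := by
        have := hf.supp z hz0
        rw [sub_zero] at this
        linarith [norm_sub_le z p]
      rw [Real.norm_eq_abs, abs_mul]
      rcases le_total ‖z - p‖ η with hρ | hρ
      · have k := exR_near hδ (h := fun u => a (u - y)) (z := z) (c := c₀ + κ * Real.log ‖z - p‖)
          (ε := (C₀ + |κ|) * (1 + |Real.log ‖z - p‖|)) fun v hv => by
            have b1 := hC δ 1 _ (v - y) x0 hδ d1.le ρp h1 h2 (near_dist hδ hy hv)
            have b2 : |Real.log (δ * ‖emb x0‖) - Real.log ‖z - p‖| ≤ 1 + |Real.log ‖z - p‖| := by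
              refine (abs_sub _ _).trans ?_
              rw [abs_of_nonneg (Real.log_nonneg h1)]
              linarith [Real.log_le_sub_one_of_pos (one_pos.trans_le h1)]
            rw [div_one] at b1
            rw [show a (v - y) - (c₀ + κ * Real.log ‖z - p‖) = a (v - y) - a x0 +
              κ * (Real.log (δ * ‖emb x0‖) - Real.log ‖z - p‖) by rw [hc₀]; ring, add_mul]
            refine (abs_add_le _ _).trans (add_le_add b1 ?_)
            rw [abs_mul]
            gcongr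
        rw [Gl_eq hρ]
        have b3 := mul_le_mul k ((hf.bd z).trans LM) (abs_nonneg _) (by positivity)
        have b4 : 0 ≤ 2 * ε₁ * |f z| := by positivity
        have b5 := abs_nonneg (Real.log ‖z - p‖)
        rw [hA]
        nlinarith
      · have k := exR_near hδ (h := fun u => a (u - y)) (z := z) (c := c₀ + κ * Real.log ‖z - p‖)
          (ε := 2 * ε₁) fun v hv => by
            have b0 := near_dist hδ hy hv
            have b1 := abs_le.1 b0
            have t1 : η / 2 ≤ δ * ‖emb (v - y)‖ := by linarith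
            have k1 : 2 * M + 2 ≤ K := le_max_left _ _
            have k2 : 4 ≤ K * η := (div_le_iff₀ ηp).1 (le_max_right _ _)
            have b2 := hR (v - y) x0 (le_of_mul_le_mul_left (by linarith) hδ)
              (le_of_mul_le_mul_left (by linarith) hδ)
              (le_of_mul_le_mul_left (by nlinarith) hδ) (le_of_mul_le_mul_left (by nlinarith) hδ)
            rw [← mul_div_mul_left _ _ hδ.ne', Real.log_div (by linarith) (by linarith)] at b2
            have b3 := log_near (half_pos ηp) t1 (by linarith : η / 2 ≤ ‖z - p‖)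
            have b4 : |κ * (Real.log (δ * ‖emb (v - y)‖) - Real.log ‖z - p‖)| ≤ ε₁ := by
              rw [abs_mul]
              refine le_trans ?_ d5.le
              gcongr
              exact b3.trans (by gcongr)
            rw [show a (v - y) - (c₀ + κ * Real.log ‖z - p‖) = a (v - y) - a x0 -
              κ * (Real.log (δ * ‖emb (v - y)‖) - Real.log (δ * ‖emb x0‖)) +
              κ * (Real.log (δ * ‖emb (v - y)‖) - Real.log ‖z - p‖) by rw [hc₀]; ring]
            linarith [abs_add_le (a (v - y) - a x0 -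
              κ * (Real.log (δ * ‖emb (v - y)‖) - Real.log (δ * ‖emb x0‖)))
              (κ * (Real.log (δ * ‖emb (v - y)‖) - Real.log ‖z - p‖))]
        linarith [mul_le_mul_of_nonneg_right k (abs_nonneg (f z))])
  rw [integral_add (hf.int.abs.const_mul _) (((Gl_int η).comp_sub_right p).const_mul _),
    integral_const_mul, integral_const_mul, integral_sub_right_eq_self (Gl η)] at b
  have b1 : 2 * ε₁ * ∫ z, |f z| ≤ ε / 2 :=
    (mul_le_mul_of_nonneg_left (hf.mono LM LM).int_abs (by positivity)).trans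
      (le_of_eq (by rw [hε₁]; field_simp; ring))
  have b2 := (le_div_iff₀' Ap).1 hη
  rw [e]
  exact b.trans (by linarith)

/-- the covariance of two pairings converges to the logarithmic energy -/
theorem covlim (h : Vario a C) (hk : LogLaw a κ) (L : ℝ) {ε : ℝ} (hε : 0 < ε) :
    ∃ δ0 > 0, ∀ δ, 0 < δ → δ < δ0 → ∀ (R : ℂ → ℂ) (g : V → V),
      (∀ p q, ‖R p - R q‖ ≤ ‖p - q‖) → (∀ v, pos δ (g v) = R (pos δ v)) → ‖R 0‖ ≤ L →
      ∀ (f f₁ : ℂ → ℝ) (S S₁ : Finset V), Tf 0 L L f → Tf 0 L L f₁ → ∫ z, f z = 0 → Cvr δ f S →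
      Cvr δ f₁ S₁ → |∑ u ∈ S, ∑ v ∈ S₁, Wt δ f u * Wt δ f₁ v * a (u - g v) -
        κ * ∫ z₁, f₁ z₁ * ∫ z, f z * Real.log ‖z - R z₁‖| ≤ ε := by
  set ε₁ := ε / (4 * |L| ^ 3 + 1) with hε₁
  have e1 : 0 < ε₁ := by positivity
  obtain ⟨δ0, d0, hP⟩ := pot_lim h hk (2 * L) e1
  refine ⟨δ0, d0, fun δ hδ hδ' R g hR hg h0 f f₁ S S₁ hf hf₁ hn hS hS₁ => ?_⟩
  have L0 := hf.nonneg
  set H : V → ℝ := fun v => ∑ u ∈ S, Wt δ f u * a (u - g v) with hH
  set P : ℂ → ℝ := fun z₁ => ∫ z, f z * Real.log ‖z - R z₁‖ with hP'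
  have e : ∑ u ∈ S, ∑ v ∈ S₁, Wt δ f u * Wt δ f₁ v * a (u - g v) = ∫ z, exR δ H z * f₁ z := by
    rw [int_exR hδ hf₁.int hS₁, Finset.sum_comm]
    simp only [hH, Finset.mul_sum]
    exact Finset.sum_congr rfl fun _ _ => Finset.sum_congr rfl fun _ _ => by ring
  have k : ∀ z, ‖exR δ H z * f₁ z - κ * (f₁ z * P z)‖ ≤ ε₁ * |f₁ z| := fun z => by
    by_cases hz0 : f₁ z = 0
    · simp [hz0]
    have k := exR_near hδ (h := H) (z := z) fun v hv =>
      hP δ hδ hδ' f S (hf.mono (by linarith) (by linarith)) hn hS (g v) (R z)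
        (by rw [hg]; exact (hR _ _).trans hv)
        (by linarith [norm_le_norm_add_norm_sub' (R z) (R 0), hR z 0, hf₁.supp z hz0])
    rw [show exR δ H z * f₁ z - κ * (f₁ z * P z) = (exR δ H z - κ * P z) * f₁ z by ring,
      Real.norm_eq_abs, abs_mul]
    gcongr
  have cR : Continuous R := (LipschitzWith.mk_one fun p q => by
    simpa only [dist_eq_norm] using hR p q).continuous
  have mP : AEStronglyMeasurable P := AEStronglyMeasurable.integral_prod_right'
    (f := fun q : ℂ × ℂ => f q.2 * Real.log ‖q.2 - R q.1‖)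
    (hf.meas.comp_snd.mul (Measurable.aestronglyMeasurable (by fun_prop)))
  have i1 := int_exR' hδ hf₁.int hS₁ H
  have i2 : Integrable fun z => exR δ H z * f₁ z - κ * (f₁ z * P z) :=
    (hf₁.int.abs.const_mul ε₁).mono' (i1.1.sub ((hf₁.meas.mul mP).const_mul κ))
      (Eventually.of_forall k)
  have i3 : Integrable fun z => κ * (f₁ z * P z) :=
    (i1.sub i2).congr (Eventually.of_forall fun z => by simp)
  have b := norm_integral_le_of_norm_le (hf₁.int.abs.const_mul ε₁) (Eventually.of_forall k)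
  rw [integral_sub i1 i3, integral_const_mul, integral_const_mul] at b
  rw [e]
  refine b.trans ((mul_le_mul_of_nonneg_left hf₁.int_abs e1.le).trans ?_)
  rw [hε₁, abs_of_nonneg L0, div_mul_eq_mul_div, div_le_iff₀ (by positivity)]
  nlinarith

end Pool.Agent.Lib.MP_6359c9_pr.Pl
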