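import Pool.Agent.Lib.MP_6359c9_pr.CovLim
import Pool.Agent.Lib.MP_6359c9_pr.Spec

/-! The quadratic form `Qf` for tent weights. -/

namespace Pool.Agent.Lib.MP_6359c9_pr.Pl

open Filter Topology MeasureTheory Set Metric

/-- the squared logarithmic majorant -/
noncomputable def G2 : ℂ → ℝ := (closedBall 0 3).indicator fun y => (1 + |Real.log ‖y‖|) ^ 2

lemma G2_nonneg (y : ℂ) : 0 ≤ G2 y := indicator_nonneg (fun _ _ => by positivity) y

lemma G2_int : Integrable G2 := by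
  refine (integrable_indicator_iff measurableSet_closedBall).2 (Integrable.mono'
    (g := fun y : ℂ => 8 * ‖y‖⁻¹ + 42)
    (((locInt_inv.integrableOn_isCompact (isCompact_closedBall 0 3)).const_mul 8).add
      ((locallyIntegrable_const 42).integrableOn_isCompact (isCompact_closedBall 0 3)))
    (Measurable.aestronglyMeasurable (by fun_prop))
    ((ae_restrict_mem measurableSet_closedBall).mono fun y hy => ?_))
  have h3 := mem_closedBall_zero_iff.1 hy
  have h0 := norm_nonneg y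
  generalize ‖y‖ = t at *
  have h1 := abs_log_le (Real.sqrt_nonneg t)
  rw [Real.log_sqrt h0, abs_div, abs_two] at h1
  have h2 : ((√t)⁻¹ + √t) ^ 2 ≤ t⁻¹ + 2 + t := by
    rw [add_sq, inv_pow, Real.sq_sqrt h0, mul_assoc]
    linarith [inv_mul_le_one_of_le₀ (le_refl √t) (Real.sqrt_nonneg t)]
  have h4 := pow_le_pow_left₀ (by positivity) h1 2
  rw [Real.norm_of_nonneg (by positivity)]
  nlinarith [sq_nonneg (1 - |Real.log t|)]

lemma Lg_le {δ ρ t : ℝ} {N : ℤ} {u v : V} (hδ : 0 < δ) (hρ : δ ≤ ρ) (hN : ρ ≤ N * δ) (tp : 0 < t)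
    (ht : t ≤ 3 * ρ) (h : |δ * ‖emb (u - v)‖ - t| ≤ 2 * δ) :
    |Lg N u v| ≤ 6 * (1 + Real.log (N * δ / ρ)) * (1 + |Real.log (t / ρ)|) := by
  have ρp := hδ.trans_le hρ
  have N1 : (1 : ℝ) ≤ N := le_of_mul_le_mul_right (by linarith) hδ
  have l0 := Real.log_nonneg ((one_le_div ρp).2 hN)
  have h1 := abs_le.1 h
  have e : (ds u v : ℝ) = max |((u - v).1 : ℝ)| |((u - v).2 : ℝ)| := by simp [ds]
  have d1 : (ds u v : ℝ) ≤ 2 * ‖emb (u - v)‖ := e ▸ max_le (emb_co _).1 (emb_co _).2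
  have d0 : (0 : ℝ) ≤ ds u v := e ▸ le_max_of_le_left (abs_nonneg _)
  have d2 : ‖emb (u - v)‖ ≤ 2 * ds u v := by
    have : ‖emb (u - v)‖ ≤ |((u - v).1 : ℝ)| + |((u - v).2 : ℝ)| := by
      refine (norm_add_le _ _).trans (le_of_eq ?_)
      rw [norm_mul, norm_om, mul_one, Complex.norm_intCast, Complex.norm_intCast]
    linarith [le_max_left |((u - v).1 : ℝ)| |((u - v).2 : ℝ)|,
      le_max_right |((u - v).1 : ℝ)| |((u - v).2 : ℝ)|]
  unfold Lg
  generalize (ds u v : ℝ) = D, ‖emb (u - v)‖ = E at *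
  have hi : (2 * N + 1) / (D + 1) ≤ 6 * (N * δ / ρ) / (t / ρ) := by
    rw [← mul_div_assoc, div_div_div_cancel_right₀ ρp.ne', div_le_div_iff₀ (by positivity) tp]
    have a1 : t ≤ 2 * δ * (D + 1) := by nlinarith
    have a2 : (2 * N + 1) * t ≤ 3 * N * (2 * δ * (D + 1)) := by gcongr; linarith
    linarith
  have lo : 1 / 6 ≤ (2 * N + 1) / (D + 1) := by
    rw [div_le_div_iff₀ (by norm_num) (by positivity)]
    exact le_of_mul_le_mul_right (by nlinarith) hδ
  have b1 := Real.log_le_log (by norm_num) lo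
  have b2 := Real.log_le_log (by positivity) hi
  rw [Real.log_div (x := 6 * _) (by positivity) (by positivity),
    Real.log_mul (by norm_num) (by positivity)] at b2
  rw [one_div, Real.log_inv] at b1
  have b4 := Real.log_le_sub_one_of_pos (by norm_num : (0 : ℝ) < 6)
  have b5 := neg_abs_le (Real.log (t / ρ))
  have b6 := abs_nonneg (Real.log (t / ρ))
  have b7 := mul_nonneg l0 b6
  exact abs_le.2 ⟨by nlinarith, by nlinarith⟩

theorem qf_pot : ∃ C > (0 : ℝ), ∀ (δ ρ B : ℝ) (c : ℂ) (f : ℂ → ℝ) (s : Finset V) (N : ℤ), 0 < δ →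
    δ ≤ ρ → ρ ≤ N * δ → Tf c ρ B f → Cvr δ f s → ∀ y : V, ‖pos δ y - c‖ ≤ 2 * ρ →
    ∑ u ∈ s, |Wt δ f u| * Lg N u y ^ 2 ≤ C * B * ρ ^ 2 * (1 + Real.log (N * δ / ρ)) ^ 2 := by
  have g0 : 0 ≤ ∫ y, G2 y := integral_nonneg G2_nonneg
  refine ⟨36 * (∫ y, G2 y) + 1, by positivity, fun δ ρ B c f s N hδ hρ hN hf hS y hy => ?_⟩
  have ρp := hδ.trans_le hρ
  have B0 := hf.nonneg
  set l := (1 + Real.log (N * δ / ρ)) ^ 2 with hl
  have l0 : 0 ≤ l := sq_nonneg _
  refine (sum_abs_Wt hδ hf.int hS fun v => sq_nonneg _).trans ?_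
  have b := norm_integral_le_of_norm_le (f := fun z => exR δ (fun u => Lg N u y ^ 2) z * |f z|)
    (g := fun z => 36 * l * B * G2 (ρ⁻¹ • (z - pos δ y)))
    (((G2_int.comp_smul (inv_ne_zero ρp.ne')).comp_sub_right (pos δ y)).const_mul _) (by
      filter_upwards [ae_ne (pos δ y)] with z hz
      by_cases hz0 : f z = 0
      · simp only [hz0, abs_zero, mul_zero, norm_zero]
        exact mul_nonneg (by positivity) (G2_nonneg _)
      have n : ‖ρ⁻¹ • (z - pos δ y)‖ = ‖z - pos δ y‖ / ρ := by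
        rw [norm_smul, norm_inv, Real.norm_of_nonneg ρp.le, inv_mul_eq_div]
      have h3 : ‖z - pos δ y‖ ≤ 3 * ρ := by
        linarith [norm_sub_le_norm_sub_add_norm_sub z c (pos δ y), hf.supp z hz0,
          norm_sub_rev c (pos δ y)]
      have k := exR_near hδ (h := fun u => Lg N u y ^ 2) (z := z) (c := 0)
        (ε := 36 * l * (1 + |Real.log (‖z - pos δ y‖ / ρ)|) ^ 2) fun v hv => by
          have := pow_le_pow_left₀ (abs_nonneg _) (Lg_le hδ hρ hN (norm_pos_iff.2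
            (sub_ne_zero.2 hz)) h3 (near_dist hδ (y := y) (by simpa using hδ.le) hv)) 2
          rw [sub_zero, abs_pow]
          exact this.trans (le_of_eq (by rw [hl]; ring))
      rw [G2, indicator_of_mem (mem_closedBall_zero_iff.2 (by rwa [n, div_le_iff₀ ρp])), n,
        Real.norm_eq_abs, abs_mul, abs_abs, mul_right_comm]
      rw [sub_zero] at k
      exact mul_le_mul k (hf.bd z) (abs_nonneg _) (by positivity))
  rw [integral_const_mul, integral_sub_right_eq_self (fun z => G2 (ρ⁻¹ • z)),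
    Measure.integral_comp_inv_smul_of_nonneg _ _ ρp.le, Complex.finrank_real_complex,
    smul_eq_mul] at b
  have : 0 ≤ B * ρ ^ 2 * l := by positivity
  linarith [le_abs_self (∫ z, exR δ (fun u => Lg N u y ^ 2) z * |f z|), Real.norm_eq_abs
    (∫ z, exR δ (fun u => Lg N u y ^ 2) z * |f z|)]

/-- the quadratic form of two test functions at scale `ρ` -/
theorem qf_bd : ∃ C > (0 : ℝ), ∀ (δ ρ B B₁ : ℝ) (c : ℂ) (f f₁ : ℂ → ℝ) (s : Finset V) (N : ℤ),
    0 < δ → δ ≤ ρ → ρ ≤ N * δ → Tf c ρ B f → Tf c ρ B₁ f₁ → Cvr δ f s → Cvr δ f₁ s →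
    Qf N s (Wt δ f) (Wt δ f₁) ≤ C * B * B₁ * ρ ^ 4 * (1 + Real.log (N * δ / ρ)) ^ 2 := by
  obtain ⟨C, C0, hC⟩ := qf_pot
  refine ⟨4 * C, by positivity, fun δ ρ B B₁ c f f₁ s N hδ hρ hN hf hf₁ hS hS₁ => ?_⟩
  have B0 := hf.nonneg
  set M := C * B * ρ ^ 2 * (1 + Real.log (N * δ / ρ)) ^ 2 with hM
  have M0 : 0 ≤ M := by positivity
  have b : Qf N s (Wt δ f) (Wt δ f₁) ≤ ∑ v ∈ s, |Wt δ f₁ v| * M := by
    rw [Qf, Finset.sum_comm]
    refine Finset.sum_le_sum fun v _ => ?_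
    by_cases hv : Wt δ f₁ v = 0
    · simp [hv]
    obtain ⟨z, h1, h2⟩ := Wt_ne hδ hv
    refine le_trans (le_of_eq ?_) (mul_le_mul_of_nonneg_left (hC δ ρ B c f s N hδ hρ hN hf hS v
      (by linarith [norm_sub_le_norm_sub_add_norm_sub (pos δ v) z c, hf₁.supp z h1]))
      (abs_nonneg _))
    rw [Finset.mul_sum]
    exact Finset.sum_congr rfl fun _ _ => by ring
  have b2 := sum_abs_Wt hδ hf₁.int hS₁ (k := fun _ => M) fun _ => M0
  simp only [exR_const, integral_const_mul] at b2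
  refine (b.trans b2).trans ((mul_le_mul_of_nonneg_left hf₁.int_abs M0).trans (le_of_eq ?_))
  rw [hM]
  ring

end Pool.Agent.Lib.MP_6359c9_pr.Pl
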