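import Pool.Agent.Lib.MP_6359c9_pr.Top

/-! Common definitions: double separators, balls. -/

namespace Pool.Agent.Lib.MP_6359c9_pr

/-- the vertices where a spin field takes the value `s` -/
def lev (r : V → Bool) (s : Bool) : Set V := {v | r v = s}

/-- a path inside `S` none of whose edges has both end points in `P` -/
def NConn (P S : Set V) (u v : V) : Prop :=
  u ∈ S ∧ Relation.ReflTransGen (fun a b => Adj a b ∧ b ∈ S ∧ ¬(a ∈ P ∧ b ∈ P)) u v

/-- the edges with both end points in `P` separate `I` from `O` -/
def Sep (P I O : Set V) : Prop := ∀ u ∈ I, ∀ v ∈ O, ¬NConn P Set.univ u v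

/-- graph distance to the origin -/
def nrm (v : V) : ℤ := max (max |v.1| |v.2|) |v.1 + v.2|

/-- hexagonal ball -/
def ball (x : V) (n : ℤ) : Set V := {y | nrm (y - x) ≤ n}

end Pool.Agent.Lib.MP_6359c9_pr
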