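import Pool.Agent.Lib.MP_6359c9_pr.EndC

/-! Identification of the limit with the Green potential. -/

namespace Pool.Agent.Lib.MP_6359c9_pr.End

open MeasureTheory Metric Set Filter Topology Real InnerProductSpace
open scoped Laplacian

variable {ρ : ℂ → ℝ} {Ω : Set ℂ} {H : ℕ → ℂ → ℝ}

/-- convergence against continuous functions with compact support in `Ω` -/
def Cv (Ω : Set ℂ) (H : ℕ → ℂ → ℝ) (U : Filter ℕ) (W : ℂ → ℝ) : Prop :=
  ∀ K ⊆ Ω, IsCompact K → ∀ ψ : ℂ → ℝ, Continuous ψ → (∀ z ∉ K, ψ z = 0) →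
    Tendsto (fun n => ∫ z, H n z * ψ z) U (𝓝 (∫ z, W z * ψ z))

lemma int_scl {r : ℝ} (r0 : 0 < r) (Ψ w : ℂ → ℝ) (x : ℂ) :
    ∫ z, w z * scl Ψ x r z = r ^ 2 * av Ψ r w x := by
  rw [← int_sc r0, ← integral_const_mul]
  congr 1; ext z
  rw [sc, scl]; field_simp

lemma Test.two {φ : ℂ → ℝ} (h : Test Ω φ) : ContDiff ℝ 2 φ :=
  h.1.of_le (WithTop.coe_le_coe.2 (le_top : (2 : ℕ∞) ≤ ⊤))

lemma Test.off {φ : ℂ → ℝ} : ∀ z ∉ tsupport φ, φ z = 0 := fun _ hz =>
  image_eq_zero_of_notMem_tsupport hz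

lemma scl_off {Ψ : ℂ → ℝ} (h : Test (ball 0 1) Ψ) {x : ℂ} {r : ℝ} (r0 : 0 < r) :
    ∀ z ∉ closedBall x r, scl Ψ x r z = 0 := by
  intro z hz
  refine Test.off (φ := Ψ) _ fun h1 => hz ?_
  have := h.2.2 h1
  rw [mem_ball, dist_zero_right, norm_div, Complex.norm_real, Real.norm_of_nonneg r0.le,
    div_lt_one r0] at this
  rw [mem_closedBall, dist_eq_norm]; exact this.le

lemma scl_cd {Ψ : ℂ → ℝ} (h : Test (ball 0 1) Ψ) (x : ℂ) (r : ℝ) : ContDiff ℝ 2 (scl Ψ x r) :=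
  (Test.two h).comp ((contDiff_id.sub contDiff_const).div_const _)

theorem core {Ψ : ℂ → ℝ} (h : Bump ρ) (hΨ : Test (ball 0 1) Ψ)
    (hp : ∀ x r, 0 < r → ∀ z, Δ (scl Ψ x r) z = sc ρ x r z - sc ρ x (r / 2) z)
    (ho : IsOpen Ω) (hb : Bornology.IsBounded Ω) (hH : ∀ n, Continuous (H n)) (hB : HB Ω H)
    {a : ℕ → ℝ} {φ p : ℂ → ℝ} (hS : HSD Ω H a φ) (pc : ContDiff ℝ 2 p) (pl : ∀ x, Δ p x = -φ x)
    (U : Ultrafilter ℕ) (hU : (U : Filter ℕ) ≤ atTop) {A a' : ℝ} (ha : ∀ n, |a n| ≤ A)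
    (hl : Tendsto a U (𝓝 a')) :
    ∃ V : ℂ → ℝ, HarmonicOnNhd V Ω ∧ Cv Ω H U fun z => V z + a' * p z := by
  have pc0 := pc.continuous
  have c' : ∀ n, Continuous fun z => H n z - a n * p z := fun n => by have := hH n; fun_prop
  have sp : ∀ n {K : Set ℂ} {f : ℂ → ℝ}, IsCompact K → Continuous f → (∀ z ∉ K, f z = 0) →
      ∫ z, (H n z - a n * p z) * f z = (∫ z, H n z * f z) - a n * ∫ z, p z * f z := by
    intro n K f kc fc f0
    simp only [sub_mul, mul_assoc]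
    rw [integral_sub (intg_of kc (hH n).continuousOn fc f0)
      ((intg_of kc pc0.continuousOn fc f0).const_mul _), integral_const_mul]
  obtain ⟨V, hV, cv⟩ := h.core0 (H := fun n z => H n z - a n * p z) ho hb c' (by
    intro K hK kc
    obtain ⟨C, hC⟩ := hB K hK kc
    refine ⟨C + A * ∫ z in K, |p z|, hC.mono fun n hn f fc f0 b hb' => ?_⟩
    have h1 : |∫ z, p z * f z| ≤ (∫ z in K, |p z|) * b := by
      rw [← setIntegral_eq_integral_of_forall_compl_eq_zero (s := K)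
        (fun z hz => by rw [f0 z hz, mul_zero]), ← integral_mul_const, ← Real.norm_eq_abs]
      refine norm_integral_le_of_norm_le
        ((pc0.abs.continuousOn.integrableOn_compact kc).mul_const b)
        (Eventually.of_forall fun z => ?_)
      rw [Real.norm_eq_abs, abs_mul]
      exact mul_le_mul_of_nonneg_left (hb' z) (abs_nonneg _)
    rw [sp n kc fc f0, add_mul, mul_assoc]
    refine (abs_sub _ _).trans (add_le_add (hn f fc f0 b hb') ?_)
    rw [abs_mul]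
    exact mul_le_mul (ha n) h1 (abs_nonneg _) ((abs_nonneg _).trans (ha n))) (by
    intro K hK kc ε ε0
    obtain ⟨r0, r00, hr⟩ := hS Ψ hΨ K hK kc ε ε0
    refine ⟨r0, r00, fun r r0' h1 x hx => (hr r r0' h1 x hx).mono fun n hn => ?_⟩
    have kb := isCompact_closedBall x r
    have o1 : ∀ s, 0 < s → s ≤ r → ∀ z ∉ closedBall x r, sc ρ x s z = 0 := fun s s0 hs z hz =>
      h.sc_zero s0 (by rw [mem_closedBall, dist_eq_norm, not_le] at hz; linarith)
    rw [← int_sc r0', ← int_sc (half_pos r0'), ← integral_sub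
      (intg_of kb (c' n).continuousOn (h.sc_cont' x r) (o1 r r0' le_rfl))
      (intg_of kb (c' n).continuousOn (h.sc_cont' x _) (o1 _ (half_pos r0') (by linarith)))]
    simp only [← mul_sub, ← hp x r r0']
    rw [sp n kb (lap_cont (scl_cd hΨ x r)) fun z hz => by
      rw [hp x r r0', o1 r r0' le_rfl z hz, o1 _ (half_pos r0') (by linarith) z hz, sub_self],
      green pc (scl_cd hΨ x r) (HasCompactSupport.intro kb (scl_off hΨ r0'))]
    simp only [pl, neg_mul, integral_neg, mul_neg, sub_neg_eq_add, mul_comm (φ _)]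
    exact hn) U hU
  refine ⟨V, hV, fun K hK kc ψ hψ ψ0 => ?_⟩
  have := (cv K hK kc ψ hψ ψ0).add (hl.mul_const (∫ z, p z * ψ z))
  simp only [sp _ kc hψ ψ0, sub_add_cancel] at this
  simp only [add_mul, mul_assoc]
  rwa [integral_add (intg_of kc (hV.continuousOn.mono hK) hψ ψ0)
    ((intg_of kc pc0.continuousOn hψ ψ0).const_mul _), integral_const_mul]

lemma Cv.av_le {U : Filter ℕ} [U.NeBot] {W Ψ : ℂ → ℝ} (cv : Cv Ω H U W) (hΨ : Test (ball 0 1) Ψ)
    {x : ℂ} {r b : ℝ} (r0 : 0 < r) (hr : r < dd Ω x)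
    (hn : ∀ᶠ n in U, |∫ z, H n z * scl Ψ x r z| ≤ b * r ^ 2) : |av Ψ r W x| ≤ b := by
  have := le_of_tendsto (cv _ (cb_sub hr) (isCompact_closedBall x r) _ (scl_cd hΨ x r).continuous
    (scl_off hΨ r0)).abs hn
  rw [int_scl r0, abs_mul, abs_of_pos (by positivity), mul_comm b] at this
  exact le_of_mul_le_mul_left this (by positivity)

lemma Green.cont {φ u : ℂ → ℝ} (ho : IsOpen Ω) (h : Green Ω φ u) :
    Continuous (Ω.indicator u) := by
  refine continuous_iff_continuousAt.2 fun x => ?_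
  by_cases hx : x ∈ Ω
  · refine (h.1.continuousOn.continuousAt (ho.mem_nhds hx)).congr ?_
    filter_upwards [ho.mem_nhds hx] with y hy using (indicator_of_mem hy u).symm
  rw [ContinuousAt, indicator_of_notMem hx, ← nhdsWithin_univ x, ← union_compl_self Ω,
    nhdsWithin_union, tendsto_sup]
  refine ⟨?_, tendsto_const_nhds.congr' ?_⟩
  · by_cases hf : x ∈ frontier Ω
    · refine (h.2.2 x hf).congr' ?_
      filter_upwards [self_mem_nhdsWithin] with y hy using (indicator_of_mem hy u).symm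
    · rw [ho.frontier_eq, mem_diff, not_and, mem_closure_iff_nhdsWithin_neBot] at hf
      rcases eq_or_neBot (𝓝[Ω] x) with e | e
      · rw [e]; exact tendsto_bot
      · exact absurd hx (hf e)
  · filter_upwards [self_mem_nhdsWithin] with y hy using (indicator_of_notMem hy u).symm

lemma Green.hcs (hb : Bornology.IsBounded Ω) (u : ℂ → ℝ) : HasCompactSupport (Ω.indicator u) :=
  HasCompactSupport.intro hb.isCompact_closure fun _ hz =>
    indicator_of_notMem (fun h => hz (subset_closure h)) u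

lemma Green.small {φ u : ℂ → ℝ} (ho : IsOpen Ω) (hb : Bornology.IsBounded Ω) (h : Green Ω φ u)
    {ε : ℝ} (ε0 : 0 < ε) : ∃ η > 0, ∀ z ∈ Ω, dd Ω z < η → |u z| ≤ ε := by
  obtain ⟨η, η0, hη⟩ := Metric.uniformContinuous_iff.1
    ((Green.hcs hb u).uniformContinuous_of_continuous (Green.cont ho h)) ε ε0
  refine ⟨η, η0, fun z hz hd => ?_⟩
  obtain ⟨w, hw, hd'⟩ := (infDist_lt_iff (compl_ne hb)).1 hd
  have := hη hd'
  rw [indicator_of_mem hz, indicator_of_notMem hw, Real.dist_eq, sub_zero] at this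
  exact this.le

lemma Green.bdd {φ u : ℂ → ℝ} (ho : IsOpen Ω) (hb : Bornology.IsBounded Ω) (h : Green Ω φ u) :
    ∃ B, ∀ z ∈ Ω, |u z| ≤ B := by
  obtain ⟨B, hB⟩ := (Green.hcs hb u).exists_bound_of_continuous (Green.cont ho h)
  exact ⟨B, fun z hz => by simpa [indicator_of_mem hz] using hB z⟩

lemma lim_pt (U : Ultrafilter ℕ) {T R : ℝ} (T0 : 0 < T) (hT : Ω ⊆ ball 0 T) (R0 : 0 < R)
    (R1 : R ≤ 1) {α : ℕ → ℂ} (h : ∀ᶠ n in U, dd Ω (α n) ≤ R / 2) :
    ∃ a, dd Ω a ≤ R ∧ ‖a‖ ≤ T + 1 ∧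
      ∀ᶠ n in U, ∀ G ⊆ Ω \ closedBall a R, Disjoint G (ball (α n) (R / 2)) := by
  rcases U.mem_or_compl_mem {n | α n ∈ closedBall 0 (T + 1)} with h1 | h1
  · obtain ⟨a, ha, hl⟩ := (isCompact_closedBall (0 : ℂ) (T + 1)).ultrafilter_le_nhds (U.map α)
      (le_principal_iff.2 (mem_map.2 h1))
    have hl' : Tendsto α U (𝓝 a) := hl
    refine ⟨a, (le_of_tendsto (((dd_cont Ω).tendsto a).comp hl') h).trans (by linarith),
      by simpa using ha, ?_⟩
    filter_upwards [Metric.tendsto_nhds.1 hl' _ (half_pos R0)] with n hn G hG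
    refine disjoint_left.2 fun z hz hz' => (hG hz).2 ?_
    rw [mem_ball] at hz'
    have := dist_triangle z (α n) a
    rw [mem_closedBall]; linarith
  · refine ⟨(T : ℂ), ?_, by rw [Complex.norm_real, Real.norm_of_nonneg T0.le]; linarith, ?_⟩
    · refine (infDist_zero_of_mem fun h => ?_).trans_le R0.le
      simpa [abs_of_pos T0] using hT h
    · filter_upwards [h1] with n hn G hG
      refine disjoint_left.2 fun z hz hz' => hn ?_
      have h2 := hT (hG hz).1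
      have := dist_triangle (α n) z 0
      rw [mem_ball] at hz' h2
      rw [dist_comm] at hz'
      rw [mem_setOf_eq, mem_closedBall]; linarith

lemma ex_G {S : Set ℂ} (hS : IsOpen S) {z y : ℂ} (hy : y ∈ connectedComponentIn S z) :
    ∃ G ⊆ S, IsCompact G ∧ IsConnected G ∧ z ∈ G ∧ y ∈ G := by
  have hz : z ∈ S := connectedComponentIn_nonempty_iff.1 ⟨y, hy⟩
  obtain ⟨γ, hγ⟩ := (hS.connectedComponentIn.isConnected_iff_isPathConnected.1
    (isConnected_connectedComponentIn_iff.2 hz)).joinedIn z (mem_connectedComponentIn hz) y hy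
  refine ⟨range γ, ?_, isCompact_range γ.continuous, isConnected_range γ.continuous,
    γ.source_mem_range, γ.target_mem_range⟩
  rintro _ ⟨t, rfl⟩
  exact connectedComponentIn_subset _ _ (hγ t)

lemma harm_sub {φ p u : ℂ → ℝ} (ho : IsOpen Ω) (pc : ContDiff ℝ 2 p) (pl : ∀ x, Δ p x = -φ x)
    (hu : Green Ω φ u) : HarmonicOnNhd (p - u) Ω := fun x hx =>
  ⟨pc.contDiffAt.sub (hu.1.contDiffAt (ho.mem_nhds hx)), by
    filter_upwards [ho.mem_nhds hx] with y hy
    rw [pc.contDiffAt.laplacian_sub (hu.1.contDiffAt (ho.mem_nhds hy)), pl, hu.2.1 y hy, sub_self]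
    rfl⟩

theorem uniq (h : Bump ρ) (hρ : Test (ball 0 1) ρ) (ho : IsOpen Ω) (hc : IsConnected Ω)
    (hb : Bornology.IsBounded Ω) {z0 : ℂ} (hz : z0 ∈ Ω) (hM : HM Ω H) (hD : HD Ω z0 H)
    (U : Ultrafilter ℕ) (hU : (U : Filter ℕ) ≤ atTop) {W φ u : ℂ → ℝ} (cv : Cv Ω H U W)
    (hu : Green Ω φ u) {a : ℝ} (har : HarmonicOnNhd (fun z => W z - a * u z) Ω) :
    ∀ x ∈ Ω, W x = a * u x := by
  have uc : ContinuousOn (fun z => a * u z) Ω := continuousOn_const.mul hu.1.continuousOn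
  have Wc : ContinuousOn W Ω := (har.continuousOn.add uc).congr fun z _ => by simp
  have key : ∀ x r b c, 0 < r → r < dd Ω x → |av ρ r W x| ≤ b →
      (∀ z ∈ closedBall x r, |u z| ≤ c) → |W x - a * u x| ≤ b + |a| * c := by
    intro x r b c r0 hr h1 h2
    rw [← h.av_harm r0.le (har.mono (cb_sub hr)), h.av_sub r0.le (Wc.mono (cb_sub hr))
      (uc.mono (cb_sub hr)), av_smul]
    refine (abs_sub _ _).trans (add_le_add h1 ?_)
    rw [abs_mul]
    exact mul_le_mul_of_nonneg_left (h.abs_av_le r0.le h2) (abs_nonneg _)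
  obtain ⟨M, hM⟩ := hM ρ hρ
  obtain ⟨B, hB⟩ := Green.bdd ho hb hu
  have bd : ∀ x ∈ Ω, |W x - a * u x| ≤ M + |a| * B := fun x hx => by
    obtain ⟨r, r0, hr, hn⟩ := hM x hx
    exact key x r _ _ r0 hr (cv.av_le hρ r0 hr (hU hn)) fun z hz => hB z (cb_sub hr hz)
  obtain ⟨T, T0, hT⟩ := hb.subset_ball_lt 0 0
  have sm : ∀ R, 0 < R → R ≤ 1 → ∀ ε > 0, ∃ η > 0, ∃ α β : ℂ, dd Ω α ≤ R ∧ dd Ω β ≤ R ∧
      ‖α‖ ≤ T + 1 ∧ ‖β‖ ≤ T + 1 ∧
      ∀ y ∈ connectedComponentIn (Ω \ (closedBall α R ∪ closedBall β R)) z0,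
        dd Ω y < η → |W y - a * u y| ≤ ε := by
    intro R R0 R1 ε ε0
    obtain ⟨η, η0, α, β, h1, h2⟩ := hD ρ hρ (R / 2) (half_pos R0) (ε / 2) (half_pos ε0)
    obtain ⟨η', η0', h3⟩ := Green.small ho hb hu (show 0 < ε / 2 / (|a| + 1) by positivity)
    obtain ⟨α', a1, a2, a3⟩ := lim_pt U T0 hT R0 R1 (α := α) (hU (h1.mono fun n hn => hn.1))
    obtain ⟨β', b1, b2, b3⟩ := lim_pt U T0 hT R0 R1 (α := β) (hU (h1.mono fun n hn => hn.2))
    refine ⟨min η (η' / 2), by positivity, α', β', a1, b1, a2, b2, fun y hy hd => ?_⟩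
    obtain ⟨G, g1, g2, g3, g4, g5⟩ :=
      ex_G (ho.sdiff (isClosed_closedBall.union isClosed_closedBall)) hy
    rw [lt_min_iff] at hd
    obtain ⟨r, r0, hr, hn⟩ := h2 G (g1.trans diff_subset) g2 g3 g4 y g5 hd.1.le
    have hr' : r < dd Ω y := hr
    refine (key y r (ε / 2) (ε / 2 / (|a| + 1)) r0 hr (cv.av_le hρ r0 hr ?_) fun z hz =>
      h3 z (cb_sub hr hz) ?_).trans ?_
    · filter_upwards [hU hn, a3, b3] with n h4 h5 h6
      exact h4 (h5 G (g1.trans (diff_subset_diff_right subset_union_left)))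
        (h6 G (g1.trans (diff_subset_diff_right subset_union_right)))
    · have := dd_le Ω z y
      rw [mem_closedBall, dist_eq_norm] at hz
      linarith [hd.2]
    · have : |a| * (ε / 2 / (|a| + 1)) ≤ ε / 2 := by
        rw [← mul_div_assoc, div_le_iff₀ (by positivity)]; nlinarith
      linarith
  have mv : ∀ x r, 0 < r → r < dd Ω x → av ρ r (fun z => W z - a * u z) x = W x - a * u x :=
    fun x r r0 hr => h.av_harm r0.le (har.mono (cb_sub hr))
  intro x hx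
  have m1 := h.mp2 ho hc hb hz har.continuousOn mv (fun x hx => (le_abs_self _).trans (bd x hx))
    (T := T + 1) (fun R R0 R1 ε ε0 => by
      obtain ⟨η, η0, α, β, h1, h2, h3, h4, h5⟩ := sm R R0 R1 ε ε0
      exact ⟨η, η0, α, β, h1, h2, h3, h4, fun y hy hd => (le_abs_self _).trans (h5 y hy hd)⟩) x hx
  have m2 := h.mp2 ho hc hb hz (W := fun z => -(W z - a * u z)) har.continuousOn.neg
    (fun x r r0 hr => by rw [av_neg, mv x r r0 hr]) (fun x hx => (neg_le_abs _).trans (bd x hx))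
    (T := T + 1) (fun R R0 R1 ε ε0 => by
      obtain ⟨η, η0, α, β, h1, h2, h3, h4, h5⟩ := sm R R0 R1 ε ε0
      exact ⟨η, η0, α, β, h1, h2, h3, h4, fun y hy hd => (neg_le_abs _).trans (h5 y hy hd)⟩) x hx
  linarith

/-- the functions `H n` are asymptotically `a n` times the Green potential -/
theorem conv (fund : FundSt) (ho : IsOpen Ω) (hc : IsConnected Ω) (hb : Bornology.IsBounded Ω)
    {z0 : ℂ} (hz : z0 ∈ Ω) (hH : ∀ n, Continuous (H n)) (hB : HB Ω H) {a : ℕ → ℝ}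
    {φ u : ℂ → ℝ} (hφ : Test Ω φ) (hS : HSD Ω H a φ) (hM : HM Ω H) (hD : HD Ω z0 H) {A : ℝ}
    (ha : ∀ n, |a n| ≤ A) (hu : Green Ω φ u) {ψ : ℂ → ℝ} (hψ : Test Ω ψ) :
    Tendsto (fun n => (∫ z, H n z * ψ z) - a n * ∫ z in Ω, ψ z * u z) atTop (𝓝 0) := by
  obtain ⟨ρ, Ψ, h, hρ, hΨ, hp⟩ := ex_pair
  obtain ⟨p, pc, pl⟩ := ex_pot fund (Test.two hφ) hφ.2.1
  refine (tendsto_iff_ultrafilter _ _ _).2 fun U hU => ?_
  obtain ⟨a', hl⟩ := ultra_lim U (Eventually.of_forall ha)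
  obtain ⟨V, hV, cv⟩ := core h hΨ hp ho hb hH hB hS pc pl U hU ha hl
  have e := uniq h hρ ho hc hb hz hM hD U hU cv hu (a := a') (by
    have : (fun z => V z + a' * p z - a' * u z) = V + a' • (p - u) := by
      ext z; simp only [Pi.add_apply, Pi.smul_apply, Pi.sub_apply, smul_eq_mul]; ring
    rw [this]
    exact hV.add ((harm_sub ho pc pl hu).const_smul))
  have := (cv _ hψ.2.2 hψ.2.1 ψ hψ.1.continuous Test.off).sub
    (hl.mul_const (∫ z in Ω, ψ z * u z))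
  have e2 : ∫ z, (V z + a' * p z) * ψ z = a' * ∫ z in Ω, ψ z * u z := by
    rw [← integral_const_mul, ← setIntegral_eq_integral_of_forall_compl_eq_zero (s := Ω)
      fun z hz => by rw [Test.off z fun h => hz (hψ.2.2 h), mul_zero]]
    refine setIntegral_congr_fun ho.measurableSet fun z hz => ?_
    simp only [e z hz]; ring
  rwa [e2, sub_self] at this

/-- existence of the Green potential -/
theorem ex_green (fund : FundSt) (ho : IsOpen Ω) (hb : Bornology.IsBounded Ω)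
    (hH : ∀ n, Continuous (H n)) (hB : HB Ω H) {a : ℕ → ℝ} {φ : ℂ → ℝ} (hφ : Test Ω φ)
    (hS : HSD Ω H a φ) (hD : HD0 Ω H) {A c : ℝ} (ha : ∀ n, |a n| ≤ A) (c0 : 0 < c)
    (hc : ∀ᶠ n in atTop, c ≤ a n) : ∃ u, Green Ω φ u := by
  obtain ⟨ρ, Ψ, h, hρ, hΨ, hp⟩ := ex_pair
  obtain ⟨p, pc, pl⟩ := ex_pot fund (Test.two hφ) hφ.2.1
  have hU : ((Ultrafilter.of atTop : Ultrafilter ℕ) : Filter ℕ) ≤ atTop := Ultrafilter.of_le _
  obtain ⟨a', hl⟩ := ultra_lim (Ultrafilter.of atTop) (Eventually.of_forall ha)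
  have a0 : 0 < a' := c0.trans_le (ge_of_tendsto hl (hU hc))
  obtain ⟨V, hV, cv⟩ := core h hΨ hp ho hb hH hB hS pc pl _ hU ha hl
  have hV' : HarmonicOnNhd (a'⁻¹ • V) Ω := hV.const_smul
  refine ⟨a'⁻¹ • V + p, fun x hx => ((hV' x hx).1.add pc.contDiffAt).contDiffWithinAt,
    fun x hx => ?_, fun w hw => Metric.tendsto_nhds.2 fun ε ε0 => ?_⟩
  · rw [(hV' x hx).1.laplacian_add pc.contDiffAt, (hV' x hx).2.eq_of_nhds, pl]; simp
  obtain ⟨η, η0, h1⟩ := hD ρ hρ (a' * (ε / 3)) (by positivity)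
  obtain ⟨δ, δ0, h2⟩ := Metric.uniformContinuousOn_iff.1
    (hb.isCompact_closure.uniformContinuousOn_of_continuous pc.continuous.continuousOn) (ε / 3)
    (by positivity)
  have hw0 : dd Ω w = 0 := infDist_zero_of_mem (by rw [ho.frontier_eq] at hw; exact hw.2)
  have : ∀ᶠ y in 𝓝 w, dd Ω y < min η δ :=
    ((dd_cont Ω).tendsto w).eventually_lt_const (by rw [hw0]; positivity)
  filter_upwards [self_mem_nhdsWithin, nhdsWithin_le_nhds this] with y hy hd
  rw [lt_min_iff] at hd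
  obtain ⟨r, r0, hr, hn⟩ := h1 y hy hd.1.le
  have hr' : r < dd Ω y := hr
  have h3 := cv.av_le hρ r0 hr (hU hn)
  rw [h.av_add (u := fun z => a' * p z) r0.le (hV.continuousOn.mono (cb_sub hr))
    (continuous_const.mul pc.continuous).continuousOn, av_smul,
    h.av_harm r0.le (hV.mono (cb_sub hr))] at h3
  have h4 := h.av_dist (x := y) (w := p) (u := fun _ => p y) (b := ε / 3) r0.le
    pc.continuous.continuousOn continuousOn_const fun z hz => (h2 z (subset_closure (cb_sub hr hz))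
      y (subset_closure hy) (by rw [mem_closedBall] at hz; linarith [hd.2])).le
  rw [h.av_const] at h4
  have e : V y + a' * av ρ r p y = a' * (a'⁻¹ * V y + av ρ r p y) := by field_simp
  rw [e, abs_mul, abs_of_pos a0] at h3
  have h5 := abs_le.1 (le_of_mul_le_mul_left h3 a0)
  have h6 := abs_le.1 h4
  simp only [Real.dist_eq, sub_zero, Pi.add_apply, Pi.smul_apply, smul_eq_mul, abs_lt]
  constructor <;> linarith [h5.1, h5.2, h6.1, h6.2]

lemma scl_le {Ψ w : ℂ → ℝ} (hΨ : Test (ball 0 1) Ψ) {x : ℂ} {r ε : ℝ} (r0 : 0 < r) (ε0 : 0 < ε)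
    (hw : ∀ z ∈ closedBall x r, |w z| ≤ ε / ((∫ y, |Ψ y|) + 1)) :
    |∫ z, w z * scl Ψ x r z| ≤ ε * r ^ 2 := by
  have iψ : Integrable Ψ := hΨ.1.continuous.integrable_of_hasCompactSupport hΨ.2.1
  have I0 : 0 ≤ ∫ z, |Ψ z| := integral_nonneg fun z => abs_nonneg _
  rw [int_scl r0, abs_mul, abs_of_pos (by positivity), mul_comm ε, ← Real.norm_eq_abs]
  refine mul_le_mul_of_nonneg_left ((norm_integral_le_of_norm_le
    (iψ.abs.const_mul (ε / ((∫ z, |Ψ z|) + 1))) (Eventually.of_forall fun z => ?_)).trans ?_)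
    (by positivity)
  · by_cases hz : z ∈ tsupport Ψ
    · rw [Real.norm_eq_abs, abs_mul]
      exact mul_le_mul_of_nonneg_right (hw _ (mem_cb r0.le (mem_ball_zero_iff.1 (hΨ.2.2 hz)).le))
        (abs_nonneg _)
    · simp [Test.off z hz]
  · rw [integral_const_mul, div_mul_eq_mul_div, div_le_iff₀ (by positivity)]
    nlinarith

theorem HDp.hd {z0 : ℂ} (ho : IsOpen Ω) (hb : Bornology.IsBounded Ω) (h : HDp Ω z0 H) :
    HD Ω z0 H := by
  intro Ψ hΨ R R0 ε ε0
  have I0 : 0 ≤ ∫ z, |Ψ z| := integral_nonneg fun z => abs_nonneg _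
  obtain ⟨η, η0, α, β, h1, h2⟩ := h (R / 2) (half_pos R0) (ε / ((∫ y, |Ψ y|) + 1)) (by positivity)
  refine ⟨η / 2, half_pos η0, α, β, h1.mono fun n hn => ⟨by linarith [hn.1], by linarith [hn.2]⟩,
    fun G g1 g2 g3 g4 x hx hd => ?_⟩
  have d0 := dd_pos ho hb (g1 hx)
  have r0 : 0 < min (dd Ω x / 2) (R / 2) := by positivity
  have r1 : min (dd Ω x / 2) (R / 2) < dd Ω x := (min_le_left _ _).trans_lt (by linarith)
  have r2 := min_le_right (dd Ω x / 2) (R / 2)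
  set r := min (dd Ω x / 2) (R / 2)
  have dj : ∀ a, Disjoint G (ball a R) → Disjoint (G ∪ closedBall x r) (ball a (R / 2)) := by
    intro a ha
    refine disjoint_union_left.2 ⟨ha.mono_right (ball_subset_ball (by linarith)),
      disjoint_left.2 fun z hz hz' => disjoint_left.1 ha hx ?_⟩
    have := dist_triangle x z a
    rw [mem_closedBall, dist_comm] at hz
    rw [mem_ball] at *; linarith
  refine ⟨r, r0, r1, (h2 (G ∪ closedBall x r) (union_subset g1 (cb_sub r1))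
    (g2.union (isCompact_closedBall _ _)) (g3.union ⟨x, hx, mem_closedBall_self r0.le⟩
      (isConnected_closedBall r0.le)) (Or.inl g4)).mono fun n hn a1 a2 =>
    scl_le hΨ r0 ε0 fun z hz => hn (dj _ a1) (dj _ a2) z (Or.inr hz) ?_⟩
  have := dd_le Ω z x
  have hd' : dd Ω x ≤ η / 2 := hd
  rw [mem_closedBall, dist_eq_norm] at hz
  change dd Ω z ≤ η
  linarith

theorem HD0p.hd0 (ho : IsOpen Ω) (hb : Bornology.IsBounded Ω) (h : HD0p Ω H) : HD0 Ω H := by
  intro Ψ hΨ ε ε0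
  have I0 : 0 ≤ ∫ z, |Ψ z| := integral_nonneg fun z => abs_nonneg _
  obtain ⟨η, η0, h2⟩ := h (ε / ((∫ y, |Ψ y|) + 1)) (by positivity)
  refine ⟨η / 2, half_pos η0, fun x hx hd => ?_⟩
  have d0 := dd_pos ho hb hx
  have r1 : dd Ω x / 2 < dd Ω x := by linarith
  refine ⟨_, half_pos d0, r1, (h2 _ (cb_sub r1) (isCompact_closedBall _ _)).mono fun n hn =>
    scl_le hΨ (half_pos d0) ε0 fun z hz => hn z hz ?_⟩
  have := dd_le Ω z x
  have hd' : dd Ω x ≤ η / 2 := hd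
  rw [mem_closedBall, dist_eq_norm] at hz
  change dd Ω z ≤ η
  linarith

theorem HD0.hd (hb : Bornology.IsBounded Ω) (z0 : ℂ) (h : HD0 Ω H) : HD Ω z0 H := by
  intro Ψ hΨ R R0 ε ε0
  obtain ⟨η, η0, h1⟩ := h Ψ hΨ ε ε0
  obtain ⟨w, hw⟩ := compl_ne hb
  refine ⟨η, η0, fun _ => w, fun _ => w, Eventually.of_forall fun n => by
    simp [infDist_zero_of_mem hw, R0.le], fun G g1 _ _ _ x hx hd => ?_⟩
  obtain ⟨r, r0, hr, hn⟩ := h1 x (g1 hx) hd
  exact ⟨r, r0, hr, hn.mono fun n hn _ _ => hn⟩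

end Pool.Agent.Lib.MP_6359c9_pr.End
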