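import Pool.Agent.Lib.MP_6359c9_pr.WCut

/-! A crosscut contains a microscopic bottleneck or a chain of bulk balls between two one sided
points. -/

namespace Pool.Agent.Lib.MP_6359c9_pr

namespace Wall

variable (W : Wall)

lemma norm_idx (i0 i : ℕ) : ∃ j, i0 ≤ j ∧ j < i0 + W.n ∧ W.γ j = W.γ i := by
  have h3 := W.three
  have h0 : ∀ i, ∃ j, j < W.n ∧ W.γ j = W.γ i := by
    intro i
    induction i using Nat.strong_induction_on with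
    | _ i ih =>
      by_cases h : i < W.n
      · exact ⟨i, h, rfl⟩
      · obtain ⟨j, h1, h2⟩ := ih (i - W.n) (by omega)
        refine ⟨j, h1, ?_⟩
        rw [h2, ← W.per (i - W.n), Nat.sub_add_cancel (by omega)]
  induction i0 with
  | zero => simpa using h0 i
  | succ k ih =>
    obtain ⟨j, h1, h2, h4⟩ := ih
    by_cases e : j = k
    · exact ⟨j + W.n, by omega, by omega, by rw [W.per, h4]⟩
    · exact ⟨j, by omega, by omega, h4⟩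

variable {W}

lemma cases_idx {i0 i1 : ℕ} (i : ℕ) :
    W.γ i = W.γ i0 ∨ W.γ i ∈ W.Lt i0 i1 ∨ W.γ i = W.γ i1 ∨ W.γ i ∈ W.Rt i0 i1 := by
  obtain ⟨j, h1, h2, h3⟩ := W.norm_idx i0 i
  rcases lt_trichotomy j i1 with h | h | h
  · rcases h1.eq_or_lt with e | e
    · exact Or.inl (by rw [← h3, e])
    · exact Or.inr (Or.inl ⟨j, e, h, h3⟩)
  · exact Or.inr (Or.inr (Or.inl (by rw [← h3, h])))
  · exact Or.inr (Or.inr (Or.inr ⟨j, h, h2, h3⟩))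

lemma Lt_Rt {i0 i1 : ℕ} {w : V} (h : w ∈ W.Lt i0 i1) (h' : w ∈ W.Rt i0 i1) : False := by
  obtain ⟨a, h1, h2, h3⟩ := h
  obtain ⟨b, h4, h5, h6⟩ := h'
  exact W.inj a b (by omega) (by omega) (h3.trans h6.symm)

lemma Lt_out {i0 i1 : ℕ} {w : V} (h : w ∈ W.Lt i0 i1) : w ∉ W.R := by
  obtain ⟨a, -, -, rfl⟩ := h
  exact W.out a

lemma Rt_out {i0 i1 : ℕ} {w : V} (h : w ∈ W.Rt i0 i1) : w ∉ W.R := by
  obtain ⟨a, -, -, rfl⟩ := h
  exact W.out a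

lemma IC.wall {S : Set V} {y w : V} (h : W.IC S y w) (hy : y ∈ W.R) :
    w ∈ W.R ∨ ∃ i, W.γ i = w := by
  refine NConn.ind (Q := fun w => w ∈ W.R ∨ ∃ i, W.γ i = w) h (Or.inl hy) ?_
  intro a b _ ab _ n _
  by_cases hb : b ∈ W.R
  · exact Or.inl hb
  · have ha : a ∈ W.R := by
      by_contra ha
      exact n ⟨ha, hb⟩
    exact W.bd a ha b ab

lemma IC.mono {S T : Set V} {u v : V} (h : W.IC S u v) (hS : S ⊆ T) : W.IC T u v :=
  NConn.mono' h hS fun _ _ h => h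

lemma IC.of_conn {S : Set V} {u v : V} (h : Conn (W.R ∩ S) u v) : W.IC S u v :=
  NConn.mono' (h.nconn' (P := W.Rᶜ) (Set.disjoint_left.2 fun _ h1 h2 => h2 h1.1))
    Set.inter_subset_right fun _ _ h => h

lemma Dist.mem {y : V} {d : ℤ} (h : W.Dist y d) : y ∈ W.R :=
  h.2.1 (mem_Bx_ds.2 (by rw [ds_self]; have := h.1; omega))

lemma Dist.le {y w : V} {d : ℤ} (h : W.Dist y d) (hw : w ∉ W.R) : d ≤ ds w y := by
  by_contra e
  exact hw (h.2.1 (mem_Bx_ds.2 (by omega)))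

lemma exists_dist {y : V} (hy : y ∈ W.R) : ∃ d, W.Dist y d := by
  obtain ⟨d, ⟨w, hw, hd⟩, hmin⟩ := Int.exists_least_of_bdd
    (P := fun d => ∃ w, w ∉ W.R ∧ ds w y = d)
    ⟨0, by rintro d ⟨w, -, rfl⟩; exact ds_nonneg _ _⟩ ⟨_, W.γ 0, W.out 0, rfl⟩
  refine ⟨d, ?_, fun v hv => ?_, w, mem_Bx_ds.2 hd.le, hw⟩
  · by_contra e
    have h0 := ds_nonneg w y
    have h1 : w ∈ Bx y 0 := mem_Bx_ds.2 (by omega)
    rw [mem_Bx] at h1
    exact hw ((Prod.ext (by omega) (by omega) : w = y) ▸ hy)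
  · by_contra e
    have := hmin _ ⟨v, e, rfl⟩
    have := mem_Bx_ds.1 hv
    omega

lemma Dist.sees {y : V} {d : ℤ} (h : W.Dist y d) : ∃ w, w ∉ W.R ∧ W.IC (Bx y d) y w := by
  obtain ⟨w, hw, hR⟩ := h.2.2
  have hy : y ∈ Bx y d := mem_Bx_ds.2 (by rw [ds_self]; have := h.1; omega)
  obtain ⟨a, b, h1, h2, h3, h4⟩ := (Bx_conn hy hw).exit h.mem hR
  exact ⟨b, h3, NConn.tail (IC.of_conn (by rwa [Set.inter_comm])) h2 h4.left
    fun e => e.1 h1.right.2⟩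

/-- an interior path from the left arc to the right arc contains a path of interior vertices -/
lemma IC.bridge {S : Set V} {i0 i1 : ℕ} {a b : V} (h : W.IC S a b) (ha : a ∈ W.Lt i0 i1)
    (hb : b ∈ W.Rt i0 i1) (h0 : W.γ i0 ∉ S) (h1 : W.γ i1 ∉ S) :
    ∃ a' ∈ W.Lt i0 i1, ∃ b' ∈ W.Rt i0 i1, ∃ u v, Adj a' u ∧ Adj v b' ∧ Conn (W.R ∩ S) u v ∧
      a' ∈ S ∧ b' ∈ S := by
  have key : b ∈ W.Lt i0 i1 ∨ (∃ a' ∈ W.Lt i0 i1, ∃ u, Adj a' u ∧ Conn (W.R ∩ S) u b ∧ a' ∈ S) ∨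
      ∃ a' ∈ W.Lt i0 i1, ∃ b' ∈ W.Rt i0 i1, ∃ u v, Adj a' u ∧ Adj v b' ∧ Conn (W.R ∩ S) u v ∧
        a' ∈ S ∧ b' ∈ S := by
    refine NConn.ind (Q := fun c => c ∈ W.Lt i0 i1 ∨
      (∃ a' ∈ W.Lt i0 i1, ∃ u, Adj a' u ∧ Conn (W.R ∩ S) u c ∧ a' ∈ S) ∨
      ∃ a' ∈ W.Lt i0 i1, ∃ b' ∈ W.Rt i0 i1, ∃ u v, Adj a' u ∧ Adj v b' ∧ Conn (W.R ∩ S) u v ∧
        a' ∈ S ∧ b' ∈ S) h (Or.inl ha) ?_
    rintro c e hce ce he n (hc | ⟨a', ha', u, au, cu, sa⟩ | hc)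
    · have : e ∈ W.R := by
        by_contra h2
        exact n ⟨Lt_out hc, h2⟩
      exact Or.inr (Or.inl ⟨c, hc, e, ce, Conn.refl ⟨this, he⟩, hce.right⟩)
    · rcases W.bd c cu.right.1 e ce with h2 | ⟨i, rfl⟩
      · exact Or.inr (Or.inl ⟨a', ha', u, au, cu.tail ce ⟨h2, he⟩, sa⟩)
      · rcases cases_idx (W := W) (i0 := i0) (i1 := i1) i with h2 | h2 | h2 | h2
        · exact absurd (h2 ▸ he) h0
        · exact Or.inl h2
        · exact absurd (h2 ▸ he) h1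
        · exact Or.inr (Or.inr ⟨a', ha', _, h2, u, c, au, ce, cu, sa, he⟩)
    · exact Or.inr (Or.inr hc)
  rcases key with h2 | ⟨_, _, _, _, h2, -⟩ | h2
  · exact (Lt_Rt h2 hb).elim
  · exact absurd h2.right.1 (Rt_out hb)
  · exact h2

lemma Sided.adj {K : ℤ} (hK : 2 ≤ K) {Γ : Set V} {y w : V} {d : ℤ} (h : W.Sided K Γ y d)
    (a : Adj y w) (hw : w ∉ W.R) : w ∈ Γ := by
  have h1 := h.1.1
  have h2 : 1 ≤ K * d := by nlinarith
  refine h.2 w hw (NConn.single (mem_Bx_ds.2 (by rw [ds_self]; omega)) a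
    (mem_Bx_ds.2 (by rw [a.symm.ds_eq]; omega)) fun e => e.1 h.1.mem)

lemma Sided.step {K : ℤ} (hK : 2 ≤ K) {Γ Γ' : Set V} (hΓ : ∀ w ∈ Γ, w ∉ Γ') {y y' : V}
    {d d' : ℤ} (h : W.Sided K Γ y d) (h' : W.Sided K Γ' y' d') (a : Adj y' y) : K * d' ≤ d := by
  by_contra e
  obtain ⟨w, hw, c⟩ := h.1.sees
  have h1 := h.1.1
  have s : Bx y d ⊆ Bx y' (K * d') := fun v hv => mem_Bx_ds.2 (by
    have := mem_Bx_ds.1 hv
    have := ds_tri v y y'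
    have := a.symm.ds_eq
    omega)
  refine hΓ w (h.2 w hw (c.mono (Bx_mono' _ (by nlinarith)))) (h'.2 w hw ?_)
  exact NConn.trans (NConn.single (mem_Bx_ds.2 (by rw [ds_self]; omega)) a (s c.left)
    fun e => e.1 h'.1.mem) (c.mono s)

/-- last left sided point, next right sided point -/
lemma core {i0 i1 : ℕ} {K : ℤ} (hK : 2 ≤ K) (μ : V → ℤ) {Q : Set V} {ρ : ℤ} (hρ : 0 ≤ ρ)
    (hQ : ∀ p ∈ Q, (∃ d, W.Sided K (W.Lt i0 i1) p d ∧ K * d ≤ μ p) ∨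
      (∃ d, W.Sided K (W.Rt i0 i1) p d ∧ K * d ≤ μ p) ∨ Bx p (ρ + 1) ⊆ W.R)
    {u v a b : V} (ha : a ∈ W.Lt i0 i1) (au : Adj a u) (hb : b ∈ W.Rt i0 i1) (vb : Adj v b)
    (c : Conn Q u v) :
    ∃ (dL dR : ℤ) (yL yR : V) (P : Set V), P ⊆ Q ∧ Conn P yL yR ∧ (∀ p ∈ P, Bx p ρ ⊆ W.R) ∧
      W.Sided K (W.Lt i0 i1) yL dL ∧ W.Sided K (W.Rt i0 i1) yR dR ∧ K * dL ≤ μ yL ∧
      K * dR ≤ μ yR := by
  set LS : Set V := {p | ∃ d, W.Sided K (W.Lt i0 i1) p d ∧ K * d ≤ μ p} with hLS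
  set RS : Set V := {p | ∃ d, W.Sided K (W.Rt i0 i1) p d ∧ K * d ≤ μ p} with hRS
  have hu : u ∈ LS := by
    rcases hQ u c.left with h | ⟨d, h, -⟩ | h
    · exact h
    · exact (Lt_Rt ha (h.adj hK au.symm (Lt_out ha))).elim
    · exact absurd (h (mem_Bx_ds.2 (by rw [au.ds_eq]; omega))) (Lt_out ha)
  have hv : v ∉ LS := by
    rintro ⟨d, h, -⟩
    exact Lt_Rt (h.adj hK vb (Rt_out hb)) hb
  have hv' : v ∈ RS := by
    rcases hQ v c.right with h | h | h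
    · exact absurd h hv
    · exact h
    · exact absurd (h (mem_Bx_ds.2 (by rw [vb.symm.ds_eq]; omega))) (Rt_out hb)
  obtain ⟨y, e, c1, hy, ye, c2⟩ := c.entry (T := LSᶜ) (fun h => h hu) hv
  obtain ⟨dL, sL, mL⟩ : y ∈ LS := not_not.1 hy
  have he : e ∈ RSᶜ := by
    rintro ⟨dR, sR, -⟩
    have h1 := sL.step hK (fun w h h' => Lt_Rt h h') sR ye.symm
    have h2 := sR.step hK (fun w h h' => Lt_Rt h' h) sL ye
    have := sL.1.1
    have := sR.1.1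
    nlinarith
  obtain ⟨f, y', c3, fy, hy', c4⟩ := c2.exit he (fun h => h hv')
  obtain ⟨dR, sR, mR⟩ : y' ∈ RS := not_not.1 hy'
  have big : ∀ p ∈ Q ∩ LSᶜ ∩ RSᶜ, Bx p (ρ + 1) ⊆ W.R := fun p hp =>
    ((hQ p hp.1.1).resolve_left hp.1.2).resolve_left hp.2
  have nb : ∀ p q, Adj p q → Bx p ρ ⊆ Bx q (ρ + 1) := fun p q pq w hw => mem_Bx_ds.2 (by
    have := mem_Bx_ds.1 hw
    have := ds_tri w p q
    have := pq.ds_eq
    omega)
  refine ⟨dL, dR, y, y', (Q ∩ LSᶜ ∩ RSᶜ) ∪ {y, y'}, ?_, ?_, ?_, sL, sR, mL, mR⟩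
  · rintro p (hp | rfl | rfl)
    · exact hp.1.1
    · exact c1.right
    · exact c4.left.1
  · exact Conn.head (Or.inr (Or.inl rfl)) ye
      ((c3.mono Set.subset_union_left).tail fy (Or.inr (Or.inr rfl)))
  · rintro p (hp | rfl | rfl)
    · exact (Bx_mono' p (by omega)).trans (big p hp)
    · exact (nb _ _ ye).trans (big e c3.left)
    · exact (nb _ _ fy.symm).trans (big f c3.right)

end Wall

/-- margin of a point in the ring -/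
def mu (x : V) (r : ℤ) (y : V) : ℤ := min (2 * r - ds y x) (ds y x - r / 4 - 1)

lemma Bx_ring {x y : V} {r s : ℤ} (h : s ≤ mu x r y) :
    Bx y s ⊆ Bx x (2 * r) \ Bx x (r / 4) := by
  intro v hv
  have h1 := mem_Bx_ds.1 hv
  have h2 := ds_tri v y x
  have h3 := ds_tri y v x
  have h4 := ds_comm y v
  simp only [mu, le_min_iff] at h
  exact ⟨mem_Bx_ds.2 (by omega), fun e => by have := mem_Bx_ds.1 e; omega⟩

lemma mu_lip (x : V) (r : ℤ) (y p : V) : mu x r y ≤ mu x r p + ds p y := by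
  have h2 := ds_tri p y x
  have h3 := ds_tri y p x
  have h4 := ds_comm y p
  simp only [mu]
  omega

/-- `ChainSt` with a radius at most `3 * K * C0` in the first alternative and `A` independent
of `C0` -/
def ChainSt4 : Prop := ∀ K : ℤ, 2 ≤ K → ∃ A : ℤ, 0 < A ∧ ∀ C0 : ℤ, 1 ≤ C0 → ∃ r0 : ℤ,
  ∀ (W : Wall) (i0 i1 : ℕ) (x u v : V) (r : ℤ), i0 < i1 → i1 < i0 + W.n → r0 ≤ r →
    W.γ i0 ∈ Bx x (r / 8) → W.γ i1 ∉ Bx x (4 * r) → (∃ a ∈ W.Lt i0 i1, Adj a u) →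
    (∃ b ∈ W.Rt i0 i1, Adj v b) → Conn (W.R ∩ {y | ds y x = r}) u v →
    (∃ y s, s ≤ 3 * K * C0 ∧ W.IC (Bx x (2 * r)) u y ∧ Bx y s ⊆ Bx x (2 * r) \ Bx x (r / 4) ∧
      ∃ a ∈ W.Lt i0 i1, ∃ b ∈ W.Rt i0 i1, W.IC (Bx y s) y a ∧ W.IC (Bx y s) y b) ∨
    ∃ (ρ dL dR : ℤ) (yL yR z : V) (P : Set V), C0 ≤ ρ ∧ Conn P yL yR ∧
      W.IC (Bx x (2 * r)) u yL ∧
      (∀ p ∈ P, Bx p ρ ⊆ W.R ∧ p ∈ Bx z (A * ρ) ∧ Bx p ρ ⊆ Bx x (2 * r) \ Bx x (r / 4)) ∧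
      W.Sided K (W.Lt i0 i1) yL dL ∧ W.Sided K (W.Rt i0 i1) yR dR ∧ dL ≤ A * ρ ∧ dR ≤ A * ρ ∧
      Bx yL (K * dL) ⊆ Bx x (2 * r) \ Bx x (r / 4) ∧ Bx yR (K * dR) ⊆ Bx x (2 * r) \ Bx x (r / 4)

theorem chainSt4 : ChainSt4 := by
  intro K hK
  obtain ⟨M, hM⟩ : ∃ M, M = K * K + 2 * K := ⟨_, rfl⟩
  have hKK : 2 * K ≤ K * K := by nlinarith
  have hM0 : 0 < M := by omega
  refine ⟨12 * M, by omega, fun C0 hC => ⟨2 * M * (C0 + 1), ?_⟩⟩
  rintro W i0 i1 x u v r - - hr g0 g1 ⟨a, ha, au⟩ ⟨b, hb, vb⟩ c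
  have hr4 : 4 ≤ r := by nlinarith
  have n0 : W.γ i0 ∉ Bx x (2 * r) \ Bx x (r / 4) := fun h => h.2 (Bx_mono' x (by omega) g0)
  have n1 : W.γ i1 ∉ Bx x (2 * r) \ Bx x (r / 4) := fun h => g1 (Bx_mono' x (by omega) h.1)
  -- a point with a margin is one sided or sees both arcs
  have tri : ∀ p d, W.Dist p d → K * d ≤ mu x r p →
      W.Sided K (W.Lt i0 i1) p d ∨ W.Sided K (W.Rt i0 i1) p d ∨
      ∃ a ∈ W.Lt i0 i1, ∃ b ∈ W.Rt i0 i1, W.IC (Bx p (K * d)) p a ∧ W.IC (Bx p (K * d)) p b := by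
    intro p d hd hm
    have cl : ∀ w, w ∉ W.R → W.IC (Bx p (K * d)) p w → w ∈ W.Lt i0 i1 ∨ w ∈ W.Rt i0 i1 := by
      intro w hw cw
      obtain ⟨i, rfl⟩ := (cw.wall hd.mem).resolve_left hw
      have hi := Bx_ring hm (NConn.right cw)
      rcases Wall.cases_idx (W := W) (i0 := i0) (i1 := i1) i with h2 | h2 | h2 | h2
      · exact absurd (h2 ▸ hi) n0
      · exact Or.inl h2
      · exact absurd (h2 ▸ hi) n1
      · exact Or.inr h2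
    by_contra e
    simp only [Wall.Sided, hd, true_and, not_or, not_forall] at e
    obtain ⟨⟨w, hw, cw, nw⟩, ⟨w', hw', cw', nw'⟩, e⟩ := e
    exact e ⟨w', (cl w' hw' cw').resolve_right nw', w, (cl w hw cw).resolve_left nw, cw', cw⟩
  -- the conclusion from a set `Q` as in `core`
  have fin : ∀ (Q : Set V) (ρ : ℤ) (w u' v' a' b' : V), C0 ≤ ρ → w ∉ W.R →
      (∀ p ∈ Q, W.IC (Bx x (2 * r)) u p ∧ ds w p ≤ 12 * M * ρ ∧ ρ ≤ mu x r p ∧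
        ((∃ d, W.Sided K (W.Lt i0 i1) p d ∧ K * d ≤ mu x r p) ∨
        (∃ d, W.Sided K (W.Rt i0 i1) p d ∧ K * d ≤ mu x r p) ∨ Bx p (ρ + 1) ⊆ W.R)) →
      a' ∈ W.Lt i0 i1 → Adj a' u' → b' ∈ W.Rt i0 i1 → Adj v' b' → Conn Q u' v' →
      ∃ (ρ dL dR : ℤ) (yL yR z : V) (P : Set V), C0 ≤ ρ ∧ Conn P yL yR ∧
        W.IC (Bx x (2 * r)) u yL ∧
        (∀ p ∈ P, Bx p ρ ⊆ W.R ∧ p ∈ Bx z (12 * M * ρ) ∧
          Bx p ρ ⊆ Bx x (2 * r) \ Bx x (r / 4)) ∧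
        W.Sided K (W.Lt i0 i1) yL dL ∧ W.Sided K (W.Rt i0 i1) yR dR ∧ dL ≤ 12 * M * ρ ∧
        dR ≤ 12 * M * ρ ∧ Bx yL (K * dL) ⊆ Bx x (2 * r) \ Bx x (r / 4) ∧
        Bx yR (K * dR) ⊆ Bx x (2 * r) \ Bx x (r / 4) := by
    intro Q ρ w u' v' a' b' hρ hw hQ ha' au' hb' vb' c'
    obtain ⟨dL, dR, yL, yR, P, hP, cP, bP, sL, sR, mL, mR⟩ := Wall.core hK (mu x r)
      (ρ := ρ) (by omega) (fun p hp => (hQ p hp).2.2.2) ha' au' hb' vb' c'
    exact ⟨ρ, dL, dR, yL, yR, w, P, hρ, cP, (hQ _ (hP cP.left)).1,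
      fun p hp => ⟨bP p hp, mem_Bx_ds.2 (ds_comm w p ▸ (hQ p (hP hp)).2.1),
        Bx_ring (hQ p (hP hp)).2.2.1⟩, sL, sR, (sL.1.le hw).trans (hQ _ (hP cP.left)).2.1,
      (sR.1.le hw).trans (hQ _ (hP cP.right)).2.1, Bx_ring mL, Bx_ring mR⟩
  by_cases hG : ∃ d, ∃ p, W.Dist p d ∧ W.IC (Bx x (2 * r)) u p ∧ M * d ≤ mu x r p ∧
      ∃ a ∈ W.Lt i0 i1, ∃ b ∈ W.Rt i0 i1, W.IC (Bx p (K * d)) p a ∧ W.IC (Bx p (K * d)) p b
  · obtain ⟨d, ⟨y, hd, cy, my, a1, ha1, b1, hb1, ca, cb⟩, hmin⟩ := Int.exists_least_of_bdd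
      ⟨1, by rintro d ⟨p, h, -⟩; exact h.1⟩ hG
    have d1 := hd.1
    have hMd : M * d = K * K * d + 2 * (K * d) := by rw [hM]; ring
    have hKd : 2 * d ≤ K * d := by nlinarith
    have hKKd : 2 * (K * d) ≤ K * K * d := by nlinarith
    have s : Bx y (K * d) ⊆ Bx x (2 * r) \ Bx x (r / 4) := Bx_ring (by omega)
    by_cases small : d ≤ 2 * C0 + 1
    · exact Or.inl ⟨y, K * d, by nlinarith, cy, s, a1, ha1, b1, hb1, ca, cb⟩
    have cab : W.IC {p | W.IC (Bx y (K * d)) a1 p} a1 b1 :=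
      NConn.cluster (NConn.trans (NConn.symm ca) cb)
    obtain ⟨a', ha', b', hb', u', v', au', vb', c', -⟩ := cab.bridge ha1 hb1
      (fun h => n0 (s (NConn.right h))) fun h => n1 (s (NConn.right h))
    obtain ⟨w, hw, wR⟩ := hd.2.2
    refine Or.inr (fin _ (d / 2 - 1) w u' v' a' b' (by omega) wR ?_ ha' au' hb' vb' c')
    rintro p ⟨pR, cp⟩
    have cp' : W.IC (Bx x (2 * r)) u p :=
      NConn.trans cy (Wall.IC.mono (NConn.trans ca cp) fun t ht => (s ht).1)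
    have h1 := mem_Bx_ds.1 (NConn.right cp)
    have h2 := mem_Bx_ds.1 hw
    have h3 := ds_tri w y p
    have h4 := ds_comm y p
    have h5 := mu_lip x r y p
    refine ⟨cp', ?_, by omega, ?_⟩
    · have h6 : d ≤ 5 * (d / 2 - 1) := by omega
      have h7 : 0 ≤ d / 2 - 1 := by omega
      have h8 : (K + 1) * d ≤ (K + 1) * (5 * (d / 2 - 1)) :=
        mul_le_mul_of_nonneg_left h6 (by omega)
      have h9 : (K + 1) * 5 * (d / 2 - 1) ≤ 12 * M * (d / 2 - 1) :=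
        mul_le_mul_of_nonneg_right (by omega) h7
      nlinarith
    · obtain ⟨e, he⟩ := Wall.exists_dist pR
      have h6 := he.le wR
      have h7 : K * e ≤ K * (K * d + d) := mul_le_mul_of_nonneg_left (by omega) (by omega)
      have h8 : K * e ≤ mu x r p := by nlinarith
      rcases tri p e he h8 with h | h | h
      · exact Or.inl ⟨e, h, h8⟩
      · exact Or.inr (Or.inl ⟨e, h, h8⟩)
      · refine Or.inr (Or.inr ((Bx_mono' p ?_).trans he.2.1))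
        by_contra h9
        have h10 : M * (2 * e) ≤ M * d := mul_le_mul_of_nonneg_left (by omega) hM0.le
        have := hmin e ⟨p, he, cp', by nlinarith, h⟩
        have := he.1
        omega
  · obtain ⟨q, hq⟩ : ∃ q, q = r / (2 * M) := ⟨_, rfl⟩
    have q1 : q * (2 * M) ≤ r := hq ▸ Int.ediv_mul_le r (by omega)
    have q2 : r < (q + 1) * (2 * M) := hq ▸ Int.lt_ediv_add_one_mul_self r (by omega)
    have q3 : C0 + 1 ≤ q := by
      by_contra e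
      have : (q + 1) * (2 * M) ≤ (C0 + 1) * (2 * M) :=
        mul_le_mul_of_nonneg_right (by omega) (by omega)
      nlinarith
    have q4 : q ≤ q * M := by nlinarith
    refine Or.inr (fin _ (q - 1) (W.γ i0) u v a b (by omega) (W.out i0) ?_ ha au hb vb c.cluster)
    intro p cp
    have cp0 : Conn (W.R ∩ {y | ds y x = r}) u p := cp
    have h1 : ds p x = r := cp0.right.2
    have cp' : W.IC (Bx x (2 * r)) u p := (Wall.IC.of_conn cp0).mono fun t ht =>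
      mem_Bx_ds.2 (by have : ds t x = r := ht; omega)
    have h2 := mem_Bx_ds.1 g0
    have h3 := ds_tri (W.γ i0) x p
    have h4 := ds_comm x p
    have h5 : r ≤ 2 * mu x r p := by simp only [mu]; omega
    refine ⟨cp', ?_, by nlinarith, ?_⟩
    · have h6 : (q + 1) * (2 * M) ≤ 3 * (q - 1) * (2 * M) :=
        mul_le_mul_of_nonneg_right (by omega) (by omega)
      have h7 : r / 8 ≤ r := by omega
      nlinarith
    · obtain ⟨e, he⟩ := Wall.exists_dist cp0.right.1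
      by_cases h6 : e ≤ q
      · have h7 : M * e ≤ M * q := mul_le_mul_of_nonneg_left h6 hM0.le
        have h8 : K * e ≤ M * e := mul_le_mul_of_nonneg_right (by omega) (by have := he.1; omega)
        have h9 : M * e ≤ mu x r p := by nlinarith
        rcases tri p e he (h8.trans h9) with h | h | h
        · exact Or.inl ⟨e, h, h8.trans h9⟩
        · exact Or.inr (Or.inl ⟨e, h, h8.trans h9⟩)
        · exact absurd ⟨e, p, he, cp', h9, h⟩ hG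
      · exact Or.inr (Or.inr ((Bx_mono' p (by omega)).trans he.2.1))

end Pool.Agent.Lib.MP_6359c9_pr
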