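import Pool.Agent.Lib.MP_6359c9_pr.SpecC
import Pool.Agent.Lib.MP_6359c9_pr.EndU
import Pool.Agent.Lib.MP_6359c9_pr.CovA
import Pool.Agent.Lib.MP_6359c9_pr.WPocket
import Pool.Agent.Lib.MP_6359c9_pr.WChain

/-! The Dirichlet condition for the height field from the flat wall estimate. -/

namespace Pool.Agent.Lib.MP_6359c9_pr

open Set Filter Topology Metric

namespace DF

variable {δ : ℝ} {Ω : Set ℂ}

lemma pos_ds (hδ : 0 < δ) (u v : V) :
    ‖pos δ u - pos δ v‖ ≤ 2 * (δ * ds u v) ∧ δ * ds u v ≤ 2 * ‖pos δ u - pos δ v‖ := by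
  have e := pos_sub_sq hδ u (pos δ v)
  rw [cx_pos' hδ, cy_pos' hδ] at e
  have h0 : ((ds u v : ℤ) : ℝ) = max |(u.1 : ℝ) - v.1| |(u.2 : ℝ) - v.2| := by
    simp only [ds]; push_cast; rfl
  rw [h0]
  generalize (u.1 : ℝ) - v.1 = a, (u.2 : ℝ) - v.2 = b at *
  have h1 := le_max_left |a| |b|
  have h2 := le_max_right |a| |b|
  have h3 := abs_nonneg a
  have h4 := abs_nonneg b
  have h5 := sq_abs a
  have h6 := sq_abs b
  have h7 : (max |a| |b|) ^ 2 ≤ 4 * (a ^ 2 + a * b + b ^ 2) := by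
    rcases max_choice |a| |b| with h | h <;> rw [h] <;> nlinarith [sq_nonneg (a + b)]
  have h8 : a ^ 2 + a * b + b ^ 2 ≤ 4 * (max |a| |b|) ^ 2 := by nlinarith [sq_nonneg (a - b)]
  have h9 : 0 ≤ δ ^ 2 := by positivity
  constructor
  · refine (abs_le_of_sq_le_sq' ?_ (by positivity)).2
    rw [e]; nlinarith [mul_le_mul_of_nonneg_left h8 h9]
  · refine (abs_le_of_sq_le_sq' ?_ (by positivity)).2
    rw [mul_pow 2, e]; nlinarith [mul_le_mul_of_nonneg_left h7 h9]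

lemma box_near (hδ : 0 < δ) {u v : V} {m : ℤ} (h : u ∈ Bx v m) :
    dist (pos δ u) (pos δ v) ≤ 2 * (δ * m) := by
  have h1 : ((ds u v : ℤ) : ℝ) ≤ m := by exact_mod_cast mem_Bx_ds.1 h
  have := (pos_ds hδ u v).1
  rw [dist_eq_norm]
  nlinarith

/-- the vertices near a set -/
def Nr (δ : ℝ) (G : Set ℂ) : Set V := {w | ∃ y ∈ G, dist (pos δ w) y ≤ 13 * δ}

/-- vertices near a connected set are joined by lattice paths near it -/
lemma conn_near (hδ : 0 < δ) {G : Set ℂ} (hG : IsPreconnected G) {z z' : ℂ} (hz : z ∈ G)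
    (hz' : z' ∈ G) {u u' : V} (hu : ‖pos δ u - z‖ ≤ δ) (hu' : ‖pos δ u' - z'‖ ≤ δ) :
    Conn (Nr δ G) u u' := by
  refine hG.induction₂' (fun z z' => ∀ u u', ‖pos δ u - z‖ ≤ δ → ‖pos δ u' - z'‖ ≤ δ →
    Conn (Nr δ G) u u') (fun x hx => ?_) (fun x y z _ _ _ h1 h2 u u' a b =>
      (h1 u _ a (vt_near hδ y 0)).trans (h2 _ u' (vt_near hδ y 0) b)) hz hz' u u' hu hu'
  filter_upwards [mem_nhdsWithin_of_mem_nhds (closedBall_mem_nhds x hδ)] with y hy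
  have key : ∀ u u', ‖pos δ u - x‖ ≤ δ → ‖pos δ u' - y‖ ≤ δ → Conn (Nr δ G) u u' := by
    intro u u' a b
    rw [← dist_eq_norm] at a b
    have h1 := dist_triangle4 (pos δ u') y x (pos δ u)
    have h2 := (pos_ds hδ u' u).2
    rw [← dist_eq_norm] at h2
    rw [mem_closedBall] at hy
    rw [dist_comm x] at h1
    have h3 : ((ds u' u : ℤ) : ℝ) ≤ (6 : ℤ) := by
      refine le_of_mul_le_mul_left ?_ hδ
      push_cast
      linarith
    refine (Bx_conn (z := u) (m := 6) (mem_Bx_ds.2 (by rw [ds_self]; omega))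
      (mem_Bx_ds.2 (by exact_mod_cast h3))).mono fun w hw => ⟨x, hx, ?_⟩
    have h4 := box_near hδ hw
    have h5 := dist_triangle (pos δ w) (pos δ u) x
    push_cast at h4
    linarith
  exact ⟨key, fun u u' a b => (key u' u b a).symm⟩

lemma ne_univ (hb : Bornology.IsBounded Ω) : Ω ≠ univ := fun e =>
  NormedSpace.unbounded_univ ℝ ℂ (e ▸ hb)

/-- a compact set lies in a connected part of `Ω` that stays away from the boundary -/
lemma exists_comp (ho : IsOpen Ω) (hc : IsConnected Ω) (hb : Bornology.IsBounded Ω) {z0 : ℂ}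
    (hz : z0 ∈ Ω) {K : Set ℂ} (hK : K ⊆ Ω) (cK : IsCompact K) :
    ∃ ρ > 0, ∃ C, IsPreconnected C ∧ z0 ∈ C ∧ K ⊆ C ∧ ∀ y ∈ C, ρ < infDist y Ωᶜ := by
  have key : ∃ ρ > 0, insert z0 K ⊆ connectedComponentIn {y | ρ < infDist y Ωᶜ} z0 := by
    refine (cK.insert z0).induction_on
      (p := fun K => ∃ ρ > 0, K ⊆ connectedComponentIn {y | ρ < infDist y Ωᶜ} z0)
      ⟨1, one_pos, empty_subset _⟩ (fun s t h ⟨ρ, h1, h2⟩ => ⟨ρ, h1, h.trans h2⟩)
      (fun s t ⟨ρ, h1, h2⟩ ⟨ρ', h3, h4⟩ => ⟨min ρ ρ', lt_min h1 h3, union_subset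
        (h2.trans (connectedComponentIn_mono _ fun y hy => lt_of_le_of_lt (min_le_left ρ ρ') hy))
        (h4.trans (connectedComponentIn_mono _ fun y hy => lt_of_le_of_lt (min_le_right ρ ρ') hy))⟩)
      fun p hp => ?_
    have hp' : p ∈ Ω := hp.elim (fun e => e ▸ hz) fun e => hK e
    obtain ⟨γ, hγ⟩ := (ho.isConnected_iff_isPathConnected.1 hc).joinedIn z0 hz p hp'
    obtain ⟨a, a0, ha⟩ := (isCompact_range γ.continuous).exists_forall_le'
      (f := fun y => infDist y Ωᶜ) (continuous_infDist_pt _).continuousOn (a := 0) (by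
        rintro _ ⟨t, rfl⟩
        exact (ho.isClosed_compl.notMem_iff_infDist_pos
          (nonempty_compl.2 (ne_univ hb))).1 fun h => h (hγ t))
    refine ⟨_, mem_nhdsWithin_of_mem_nhds (IsOpen.mem_nhds ?_ ?_), a / 2, half_pos a0, subset_rfl⟩
    · exact (isOpen_lt continuous_const (continuous_infDist_pt _)).connectedComponentIn
    · exact (isPreconnected_range γ.continuous).subset_connectedComponentIn ⟨0, γ.source⟩
        (fun y hy => (half_lt_self a0).trans_le (ha y hy)) ⟨1, γ.target⟩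
  obtain ⟨ρ, h1, h2⟩ := key
  exact ⟨ρ, h1, _, isPreconnected_connectedComponentIn, h2 (mem_insert _ _),
    (subset_insert _ _).trans h2, fun y hy => connectedComponentIn_subset {y | ρ < infDist y Ωᶜ} z0 hy⟩

lemma small (A : Sq Ω) {c : ℝ} (h : 0 < c) : ∀ᶠ n in atTop, A.δ n ≤ c :=
  A.lim.eventually (eventually_le_nhds h)

lemma inn (hb : Bornology.IsBounded Ω) (A : Sq Ω) {σ : ℝ} (h : 0 < σ) :
    ∀ᶠ n in atTop, ∀ w, σ ≤ infDist (pos (A.δ n) w) Ωᶜ → w ∈ A.U n := by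
  have s : {y | σ ≤ infDist y Ωᶜ} ⊆ Ω := fun y hy => by
    by_contra e
    have : σ ≤ infDist y Ωᶜ := hy
    rw [infDist_zero_of_mem (s := Ωᶜ) e] at this
    linarith
  exact A.inn _ s (isCompact_of_isClosed_isBounded
    (isClosed_le continuous_const (continuous_infDist_pt _)) (hb.subset s))

lemma inn_near (hb : Bornology.IsBounded Ω) (A : Sq Ω) {ρ : ℝ} (h : 0 < ρ) {C : Set ℂ}
    (hC : ∀ y ∈ C, ρ < infDist y Ωᶜ) : ∀ᶠ n in atTop, Nr (A.δ n) C ⊆ A.U n := by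
  filter_upwards [inn hb A (half_pos h), small A (c := ρ / 26) (by positivity)] with n h1 h2
  rintro w ⟨y, hy, hw⟩
  have h3 := infDist_le_infDist_add_dist (x := y) (y := pos (A.δ n) w) (s := Ωᶜ)
  rw [dist_comm] at h3
  exact h1 w (by linarith [hC y hy])

lemma out (hb : Bornology.IsBounded Ω) (A : Sq Ω) {η : ℝ} (h : 0 < η) :
    ∀ᶠ n in atTop, ∀ x ∈ Ω, infDist x Ωᶜ ≤ η →
      ∃ w, w ∉ A.U n ∧ dist (pos (A.δ n) w) x ≤ 3 * η := by
  obtain ⟨t, h1, h2, h3⟩ := finite_cover_balls_of_compact (isCompact_of_isClosed_isBounded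
    isClosed_frontier (hb.closure.subset frontier_subset_closure)) h
  filter_upwards [(eventually_all_finite h2).2 fun p hp => A.out p (h1 hp) η h] with n hn x hx hd
  obtain ⟨y, hy, e⟩ := exists_mem_frontier_infDist_compl_eq_dist hx (ne_univ hb)
  obtain ⟨p, hp, hyp⟩ := mem_iUnion₂.1 (h3 hy)
  obtain ⟨w, hw, h4⟩ := hn p hp
  have h5 := dist_triangle4 (pos (A.δ n) w) p y x
  rw [Metric.mem_ball] at hyp
  rw [← dist_eq_norm] at h4
  rw [dist_comm p y, dist_comm y x] at h5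
  exact ⟨w, hw, by linarith⟩

lemma cov_le {M : Set (V → ℤ)} (hM : Ok M) {U : Set V} {v : V} {s η : ℝ} (hη : 0 ≤ η)
    (h : ∀ Y : (V → ℤ) → ℝ, DependsOn Y Uᶜ →
      |Ex M fun g => ((g v : ℝ) - s) * Y g| ≤ η * √(Ex M fun g => Y g ^ 2))
    {Y : (V → ℤ) → ℝ} (hY : DependsOn Y Uᶜ) (h1 : ∀ g, |Y g| ≤ 1) :
    |Ex M (fun g => (g v : ℝ) * Y g) - Ex M (fun g => (g v : ℝ)) * Ex M Y - 0| ≤ 2 * η := by
  have a1 := (h Y hY).trans (mul_le_of_le_one_right hη (Real.sqrt_le_one.2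
    (ex_le hM fun g _ => (sq_le_one_iff_abs_le_one _).2 (h1 g))))
  have a2 := h (fun _ => 1) fun _ _ _ => rfl
  simp only [mul_one, one_pow, ex_const hM, Real.sqrt_one, ex_sub] at a2
  simp only [sub_mul, ex_sub, ex_mul] at a1
  have a3 : |Ex M Y| ≤ 1 := (abs_ex_le M Y).trans (ex_le hM fun g _ => h1 g)
  have a4 : |(Ex M (fun g => (g v : ℝ)) - s) * Ex M Y| ≤ η := by
    rw [abs_mul]
    exact (mul_le_of_le_one_right (abs_nonneg _) a3).trans a2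
  rw [abs_le] at *
  constructor <;> nlinarith

lemma fld_le (A : Sq Ω) (hc : ContSt) (n : ℕ) (z : ℂ) (Y : (V → ℤ) → ℝ) {c : ℝ}
    (h : ∀ v, ‖pos (A.δ n) v - z‖ ≤ A.δ n →
      |Ex (HD (A.U n) (A.ξ n)) (fun g => (g v : ℝ) * Y g) -
        Ex (HD (A.U n) (A.ξ n)) (fun g => (g v : ℝ)) * Ex (HD (A.U n) (A.ξ n)) Y - 0| ≤ c) :
    |mean ((A.fld hc).S n) fun g => (A.fld hc).Φ n g z * Y g| ≤ 2 * c := by
  have h1 := exR_near (A.δpos n) h
  have e : (mean ((A.fld hc).S n) fun g => (A.fld hc).Φ n g z * Y g) = 2 * (exR (A.δ n)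
      (fun v => Ex (HD (A.U n) (A.ξ n)) (fun g => (g v : ℝ) * Y g) -
        Ex (HD (A.U n) (A.ξ n)) (fun g => (g v : ℝ)) * Ex (HD (A.U n) (A.ξ n)) Y) z - 0) := by
    change Ex (HD (A.U n) (A.ξ n)) (fun g => 2 * (ext (A.δ n) g z -
      Ex (HD (A.U n) (A.ξ n)) fun g' => ext (A.δ n) g' z) * Y g) = _
    simp only [ext_eq, exR, mul_assoc, sub_mul, mul_sub, Finset.sum_mul, ex_mul, ex_sub, ex_sum,
      Finset.sum_sub_distrib, sub_zero]
  rw [e, abs_mul, abs_two]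
  linarith

lemma dep_X (A : Sq Ω) (hc : ContSt) (n : ℕ) (φ : ℂ → ℝ) (T : ℝ → ℝ) {D : Set V}
    (h : ∀ z, φ z ≠ 0 → ∀ i, vt (A.δ n) z i ∈ D) :
    DependsOn (fun g => T ((A.fld hc).X φ n g)) D := by
  intro g g' e
  refine congrArg T (MeasureTheory.integral_congr_ae (Eventually.of_forall fun z => ?_))
  by_cases hz : φ z = 0
  · simp [hz]
  · change 2 * (ext _ g z - _) * φ z = 2 * (ext _ g' z - _) * φ z
    simp only [ext_eq (A.δ n) g, ext_eq (A.δ n) g', exR, fun i => e _ (h z hz i)]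

/-- the estimate near the boundary, given pockets -/
lemma main (hD : DirSt) (hc : ContSt) (ho : IsOpen Ω) (hcn : IsConnected Ω)
    (hb : Bornology.IsBounded Ω) (A : Sq Ω) (W : ℕ → Wall) (hW : ∀ n, (W n).R = A.U n) {z0 : ℂ}
    (hz : z0 ∈ Ω) {φ : ℂ → ℝ} (hφ : Test Ω φ) {T : ℝ → ℝ} (hT : ∀ t, |T t| ≤ 1) {R ε : ℝ}
    (hR : 0 < R) (hε : 0 < ε) : ∃ η > 0, ∃ r : ℕ → ℤ, ∀ᶠ n in atTop,
      (0 ≤ r n ∧ A.δ n * r n ≤ R) ∧ ∀ x ∈ Ω, infDist x Ωᶜ ≤ η →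
        (∀ v, ‖pos (A.δ n) v - x‖ ≤ A.δ n → v ∈ A.U n ∧ ∀ d, (W n).Dist v d → d + 4 ≤ r n →
          vt (A.δ n) z0 0 ∉ Bx v (4 * r n) →
          ∃ i0 i1 U s, (W n).Pocket (A.ξ n) (vt (A.δ n) z0 0) v d (r n) i0 i1 U s) →
        |mean ((A.fld hc).S n) fun g => (A.fld hc).Φ n g x * T ((A.fld hc).X φ n g)| ≤ ε := by
  obtain ⟨l, hl⟩ := hD (ε / 4) (by positivity)
  obtain ⟨ρ, ρ0, C, cC, zC, KC, hC⟩ := exists_comp ho hcn hb hz hφ.2.2 hφ.2.1
  obtain ⟨L, hL⟩ : ∃ L : ℤ, L = max l 1 + 4 := ⟨_, rfl⟩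
  have L5 : (5 : ℝ) ≤ L := by exact_mod_cast (by omega : (5 : ℤ) ≤ L)
  obtain ⟨τ, τ0, τ1, τ2⟩ : ∃ τ > 0, τ ≤ R ∧ τ ≤ ρ / 9 :=
    ⟨min R (ρ / 9), by positivity, min_le_left _ _, min_le_right _ _⟩
  obtain ⟨η, η0, hη⟩ : ∃ η > 0, τ = (8 * L + 1) * η :=
    ⟨τ / (8 * L + 1), by positivity, by field_simp⟩
  refine ⟨η, η0, fun n => ⌊τ / A.δ n⌋, ?_⟩
  filter_upwards [small A η0, out hb A η0, inn_near hb A ρ0 hC] with n h1 h2 h3
  have d0 := A.δpos n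
  have r0 : 0 ≤ ⌊τ / A.δ n⌋ := Int.floor_nonneg.2 (by positivity)
  have r1 : A.δ n * ⌊τ / A.δ n⌋ ≤ τ := by
    have := Int.floor_le (τ / A.δ n)
    rwa [le_div_iff₀' d0] at this
  have r2 : τ < A.δ n * (⌊τ / A.δ n⌋ + 1) := by
    have := Int.lt_floor_add_one (τ / A.δ n)
    rwa [div_lt_iff₀' d0] at this
  generalize ⌊τ / A.δ n⌋ = r at *
  refine ⟨⟨r0, r1.trans τ1⟩, fun x hx hd hp => ?_⟩
  refine (fld_le A hc n x _ (c := 2 * (ε / 4)) fun v hv => ?_).trans (by linarith)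
  obtain ⟨vU, hp⟩ := hp v hv
  obtain ⟨d, dv⟩ := Wall.exists_dist (W := W n) (hW n ▸ vU)
  obtain ⟨w, wU, hw⟩ := h2 x hx hd
  rw [← dist_eq_norm] at hv
  have e1 : L * d ≤ r := by
    have a1 : (d : ℝ) ≤ (ds w v : ℤ) := by exact_mod_cast dv.le (hW n ▸ wU)
    have a2 := (pos_ds d0 w v).2
    rw [← dist_eq_norm] at a2
    have a3 := dist_triangle_right (pos (A.δ n) w) (pos (A.δ n) v) x
    have a4 : A.δ n * d ≤ 8 * η := by nlinarith
    have a5 : A.δ n * (L * d) < A.δ n * (r + 1) := by nlinarith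
    have a6 : ((L * d : ℤ) : ℝ) < (r + 1 : ℤ) := by
      push_cast
      exact lt_of_mul_lt_mul_left a5 d0.le
    have a7 : L * d < r + 1 := by exact_mod_cast a6
    omega
  have d1 := dv.1
  have e2 : l * d ≤ r := le_trans (mul_le_mul_of_nonneg_right (by omega) (by omega)) e1
  have e3 : d + 4 ≤ r := by
    have : 5 * d ≤ L * d := mul_le_mul_of_nonneg_right (by omega) (by omega)
    omega
  have far : ∀ q ∈ Nr (A.δ n) C, q ∉ Bx v (4 * r) := by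
    rintro q ⟨y, hy, hq⟩ hq'
    have a1 := box_near d0 hq'
    have a2 := infDist_le_infDist_add_dist (x := y) (y := x) (s := Ωᶜ)
    have a3 := dist_triangle4 y (pos (A.δ n) q) (pos (A.δ n) v) x
    have a4 := hC y hy
    rw [dist_comm y (pos _ q)] at a3
    have a5 : 41 * η ≤ τ := by nlinarith
    push_cast at a1
    linarith
  have cz : ∀ z ∈ C, ∀ i, Conn (Nr (A.δ n) C) (vt (A.δ n) z0 0) (vt (A.δ n) z i) :=
    fun z hz i => conn_near d0 cC zC hz (vt_near d0 z0 0) (vt_near d0 z i)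
  obtain ⟨i0, i1, U, s, hP⟩ := hp d dv e3 (far _ (cz z0 zC 0).left)
  refine cov_le (U := U) (s := s) ⟨(A.fld hc).fin n, (A.fld hc).ne n⟩ (by positivity)
    (fun Y hY => ?_) (dep_X A hc n φ T fun z hz i => hP.bulk _ ?_) fun _ => hT _
  · have := hl (W n) (A.ξ n) _ v d r s i0 i1 U Y (fun q hq => A.two n q (hW n ▸ hq)) dv e2 hP hY
    rw [hW n] at this
    exact this
  · exact (cz z (KC (subset_tsupport φ hz)) i).mono fun q hq =>
      ⟨hW n ▸ h3 hq, fun e => far q hq (Bx_mono (by omega) e)⟩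

lemma hdp (hD : DirSt) (hc : ContSt) (ho : IsOpen Ω) (hcn : IsConnected Ω)
    (hb : Bornology.IsBounded Ω) (A : Sq Ω) (hA : A.Cyc) {z0 : ℂ} (hz : z0 ∈ Ω) {φ : ℂ → ℝ}
    (hφ : Test Ω φ) {T : ℝ → ℝ} (hT : ∀ t, |T t| ≤ 1) : End.HDp Ω z0 fun n x =>
      mean ((A.fld hc).S n) fun g => (A.fld hc).Φ n g x * T ((A.fld hc).X φ n g) := by
  intro R hR ε hε
  choose W ia ib hW hξ using hA
  obtain ⟨η, η0, r, h⟩ := main hD hc ho hcn hb A W hW hz hφ hT (R := R / 8) (by positivity) hε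
  choose xa xb na nb hP using fun n =>
    pocketSt2 (W n) (A.ξ n) (ia n) (ib n) (hξ n) (vt (A.δ n) z0 0) (r n)
  refine ⟨η, η0, fun n => pos (A.δ n) (xa n), fun n => pos (A.δ n) (xb n), ?_,
    fun G hG cG nG zG => ?_⟩
  · filter_upwards [h, inn hb A (half_pos hR)] with n ⟨⟨r0, r1⟩, _⟩ h2
    have key : ∀ y, (∃ w, w ∉ (W n).R ∧ w ∈ Bx y (r n)) → infDist (pos (A.δ n) y) Ωᶜ ≤ R := by
      rintro y ⟨w, h3, h4⟩
      have a1 := box_near (A.δpos n) h4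
      have a2 := infDist_le_infDist_add_dist (x := pos (A.δ n) y) (y := pos (A.δ n) w) (s := Ωᶜ)
      have a3 : ¬R / 2 ≤ infDist (pos (A.δ n) w) Ωᶜ := fun e => h3 (hW n ▸ h2 w e)
      rw [dist_comm] at a2
      linarith
    exact ⟨key _ (na n r0), key _ (nb n r0)⟩
  obtain ⟨ρ, ρ0, C, -, -, GC, hC⟩ := exists_comp ho hcn hb hz hG cG
  filter_upwards [h, inn_near hb A ρ0 fun y hy => hC y (GC hy),
    small A (c := R / 40) (by positivity)] with n ⟨⟨r0, r1⟩, h1⟩ h2 h3 da db x hx hd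
  refine h1 x (hG hx) hd fun v hv => ?_
  have cv := conn_near (A.δpos n) nG.isPreconnected zG hx (vt_near (A.δpos n) z0 0) hv
  have key : ∀ y, Disjoint G (Metric.ball (pos (A.δ n) y) R) →
      ∀ q ∈ Nr (A.δ n) G, q ∉ Bx y (2 * r n + 2) := by
    rintro y dy q ⟨p, hp, hq⟩ hq'
    refine Set.disjoint_left.1 dy hp (Metric.mem_ball.2 ?_)
    have a1 := box_near (A.δpos n) hq'
    have a2 := dist_triangle_left p (pos (A.δ n) y) (pos (A.δ n) q)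
    push_cast at a1
    linarith
  exact ⟨h2 cv.right, fun d dv e1 e2 => hP n v d dv e1 e2 (cv.mono fun q hq =>
    ⟨hW n ▸ h2 hq, fun e => e.elim (key _ da q hq) (key _ db q hq)⟩)⟩

lemma hd0p (hD : DirSt) (hc : ContSt) (ho : IsOpen Ω) (hcn : IsConnected Ω)
    (hb : Bornology.IsBounded Ω) (A : Sq Ω) (hA : A.Cyc) {φ : ℂ → ℝ} (hφ : Test Ω φ) :
    End.HD0p Ω ((A.flat.fld hc).Hs φ) := by
  intro ε hε
  choose W ia ib hW hξ using hA
  obtain ⟨z0, hz⟩ := hcn.nonempty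
  obtain ⟨η, η0, r, h⟩ := main hD hc ho hcn hb A.flat W hW hz hφ Real.abs_sin_le_one one_pos hε
  refine ⟨η, η0, fun K hK cK => ?_⟩
  obtain ⟨ρ, ρ0, C, cC, zC, KC, hC⟩ := exists_comp ho hcn hb hz hK cK
  filter_upwards [h, inn_near hb A ρ0 hC] with n ⟨_, h1⟩ h2 x hx hd
  refine h1 x (hK hx) hd fun v hv => ?_
  have cv := conn_near (A.δpos n) cC zC (KC hx) (vt_near (A.δpos n) z0 0) hv
  refine ⟨h2 cv.right, fun d dv e1 e2 => ?_⟩
  obtain ⟨i0, i1, U, hP⟩ := pocketFlatSt (W n) (fun _ => 0) 0 (fun _ => rfl) _ v d _ dv e1 e2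
    (cv.mono fun q hq => hW n ▸ h2 hq)
  exact ⟨i0, i1, U, 0, hP⟩

end DF

theorem dirF (hD : DirSt) : DirFSt := fun hc _ ho hcn hb A hA =>
  ⟨fun _ hz _ hφ => ⟨(DF.hdp hD hc ho hcn hb A hA hz hφ Real.abs_cos_le_one).hd ho hb,
    (DF.hdp hD hc ho hcn hb A hA hz hφ Real.abs_sin_le_one).hd ho hb⟩,
    fun _ hφ => (DF.hd0p hD hc ho hcn hb A hA hφ).hd0 ho hb⟩

end Pool.Agent.Lib.MP_6359c9_pr
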