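import Mathlib

/-! Radial bumps, averages over small discs, rotation averaging. -/

namespace Pool.Agent.Lib.MP_6359c9_pr.End

open MeasureTheory Metric Set Filter Topology Real

/-- a continuous radial probability density supported in the closed unit disc -/
structure Bump (ρ : ℂ → ℝ) : Prop where
  cont : Continuous ρ
  nn : ∀ z, 0 ≤ ρ z
  supp : ∀ z, 1 ≤ ‖z‖ → ρ z = 0
  rad : ∀ z w, ‖z‖ = ‖w‖ → ρ z = ρ w
  one : ∫ z, ρ z = 1

/-- the bump centred at `x` with radius `r` -/
noncomputable def sc (ρ : ℂ → ℝ) (x : ℂ) (r : ℝ) (z : ℂ) : ℝ := (r ^ 2)⁻¹ * ρ ((z - x) / r)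

/-- average of `w` against the bump centred at `x` with radius `r` -/
noncomputable def av (ρ : ℂ → ℝ) (r : ℝ) (w : ℂ → ℝ) (x : ℂ) : ℝ := ∫ y, w (x + r * y) * ρ y

variable {ρ : ℂ → ℝ}

lemma int_sc {r : ℝ} (hr : 0 < r) (w : ℂ → ℝ) (x : ℂ) :
    ∫ z, w z * sc ρ x r z = av ρ r w x := by
  have h1 := integral_add_left_eq_self (μ := (volume : Measure ℂ)) (fun z => w z * sc ρ x r z) x
  have h2 := Measure.integral_comp_smul (volume : Measure ℂ)
    (fun z => w (x + z) * sc ρ x r (x + z)) r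
  have hr' : (r : ℂ) ≠ 0 := by exact_mod_cast hr.ne'
  have h3 : ∀ y : ℂ, w (x + r • y) * sc ρ x r (x + r • y) = (r ^ 2)⁻¹ * (w (x + r * y) * ρ y) := by
    intro y
    have : (x + r • y - x) / r = y := by
      rw [Complex.real_smul]; field_simp; ring
    rw [sc, this, Complex.real_smul]; ring
  simp only [h3, Complex.finrank_real_complex, integral_const_mul, smul_eq_mul] at h2
  rw [abs_of_pos (by positivity)] at h2
  rw [← h1, av]
  have h4 : (r ^ 2)⁻¹ ≠ 0 := by positivity
  exact (mul_left_cancel₀ h4 h2).symm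

lemma mem_cb {x y : ℂ} {r : ℝ} (hr : 0 ≤ r) (hy : ‖y‖ ≤ 1) : x + r * y ∈ closedBall x r := by
  rw [mem_closedBall, dist_eq_norm, add_sub_cancel_left, norm_mul, Complex.norm_real,
    Real.norm_of_nonneg hr]
  nlinarith [norm_nonneg y]

/-- multiplication by the bump makes a function continuous -/
lemma Bump.contOn (h : Bump ρ) {T : Type*} [TopologicalSpace T] {s : Set T} {g : T × ℂ → ℝ}
    (hg : ContinuousOn g (s ×ˢ closedBall 0 1)) :
    ContinuousOn (fun p : T × ℂ => g p * ρ p.2) (s ×ˢ univ) := by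
  have e : s ×ˢ (univ : Set ℂ) = s ×ˢ closedBall (0 : ℂ) 1 ∪ s ×ˢ {z : ℂ | 1 ≤ ‖z‖} := by
    ext p
    simp only [mem_prod, mem_univ, and_true, mem_union, mem_closedBall, dist_zero_right,
      mem_setOf_eq]
    rcases le_total ‖p.2‖ 1 with h | h <;> tauto
  intro p hp
  rw [e, continuousWithinAt_union]
  constructor
  · by_cases hb : p.2 ∈ closedBall (0 : ℂ) 1
    · exact (hg p ⟨hp.1, hb⟩).mul (h.cont.comp continuous_snd).continuousWithinAt
    · apply continuousWithinAt_of_notMem_closure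
      intro hc
      have := closure_mono (prod_mono (subset_univ s) Subset.rfl) hc
      rw [(isClosed_univ.prod isClosed_closedBall).closure_eq] at this
      exact hb this.2
  · by_cases hb : 1 ≤ ‖p.2‖
    · refine (continuousWithinAt_const (b := (0 : ℝ))).congr (fun q hq => ?_) ?_
      · rw [h.supp _ hq.2, mul_zero]
      · rw [h.supp _ hb, mul_zero]
    · apply continuousWithinAt_of_notMem_closure
      intro hc
      have := closure_mono (prod_mono (subset_univ s) Subset.rfl) hc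
      rw [(isClosed_univ.prod (isClosed_le continuous_const continuous_norm)).closure_eq] at this
      exact hb this.2

lemma Bump.zero (h : Bump ρ) {z : ℂ} (hz : z ∉ closedBall (0 : ℂ) 1) : ρ z = 0 :=
  h.supp z (by simp only [mem_closedBall, dist_zero_right, not_le] at hz; exact hz.le)

lemma Bump.intg (h : Bump ρ) {g : ℂ → ℝ} (hg : ContinuousOn g (closedBall 0 1)) :
    Integrable (fun y => g y * ρ y) := by
  refine IntegrableOn.integrable_of_forall_notMem_eq_zero (s := closedBall 0 1)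
    ((hg.mul h.cont.continuousOn).integrableOn_compact (isCompact_closedBall _ _)) ?_
  intro z hz
  rw [h.zero hz, mul_zero]

lemma Bump.int (h : Bump ρ) : Integrable ρ := by
  simpa using h.intg (g := fun _ => 1) continuousOn_const

lemma cont_sh {w : ℂ → ℝ} {x : ℂ} {r : ℝ} (hr : 0 ≤ r) (hw : ContinuousOn w (closedBall x r)) :
    ContinuousOn (fun y : ℂ => w (x + r * y)) (closedBall 0 1) :=
  hw.comp (by fun_prop) fun y hy => mem_cb hr (by simpa using hy)

lemma Bump.intav (h : Bump ρ) {w : ℂ → ℝ} {x : ℂ} {r : ℝ} (hr : 0 ≤ r)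
    (hw : ContinuousOn w (closedBall x r)) : Integrable (fun y => w (x + r * y) * ρ y) :=
  h.intg (cont_sh hr hw)

lemma Bump.int_le (h : Bump ρ) {g : ℂ → ℝ} (hg : Integrable (fun y => g y * ρ y)) {b : ℝ}
    (hb : ∀ y, ‖y‖ ≤ 1 → g y ≤ b) : ∫ y, g y * ρ y ≤ b := by
  calc ∫ y, g y * ρ y ≤ ∫ y, b * ρ y := by
        refine integral_mono hg (h.int.const_mul b) fun y => ?_
        rcases le_total ‖y‖ 1 with hy | hy
        · exact mul_le_mul_of_nonneg_right (hb y hy) (h.nn y)
        · simp [h.supp y hy]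
    _ = b := by rw [integral_const_mul, h.one, mul_one]

lemma Bump.abs_int_le (h : Bump ρ) {g : ℂ → ℝ} {b : ℝ}
    (hb : ∀ y, ‖y‖ ≤ 1 → |g y| ≤ b) : |∫ y, g y * ρ y| ≤ b := by
  have := norm_integral_le_of_norm_le (μ := (volume : Measure ℂ)) (f := fun y => g y * ρ y)
    (h.int.const_mul b) (Eventually.of_forall fun y => by
      rw [Real.norm_eq_abs, abs_mul, abs_of_nonneg (h.nn y)]
      rcases le_total ‖y‖ 1 with hy | hy
      · exact mul_le_mul_of_nonneg_right (hb y hy) (h.nn y)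
      · simp [h.supp y hy])
  rwa [integral_const_mul, h.one, mul_one] at this

lemma Bump.av_const (h : Bump ρ) (r b : ℝ) (x : ℂ) : av ρ r (fun _ => b) x = b := by
  rw [av, integral_const_mul, h.one, mul_one]

lemma Bump.av_le (h : Bump ρ) {w : ℂ → ℝ} {x : ℂ} {r b : ℝ} (hr : 0 ≤ r)
    (hw : ContinuousOn w (closedBall x r)) (hb : ∀ z ∈ closedBall x r, w z ≤ b) :
    av ρ r w x ≤ b :=
  h.int_le (h.intav hr hw) fun _ hy => hb _ (mem_cb hr hy)

lemma Bump.abs_av_le (h : Bump ρ) {w : ℂ → ℝ} {x : ℂ} {r b : ℝ} (hr : 0 ≤ r)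
    (hb : ∀ z ∈ closedBall x r, |w z| ≤ b) : |av ρ r w x| ≤ b :=
  h.abs_int_le fun _ hy => hb _ (mem_cb hr hy)

lemma Bump.av_add (h : Bump ρ) {w u : ℂ → ℝ} {x : ℂ} {r : ℝ} (hr : 0 ≤ r)
    (hw : ContinuousOn w (closedBall x r)) (hu : ContinuousOn u (closedBall x r)) :
    av ρ r (fun z => w z + u z) x = av ρ r w x + av ρ r u x := by
  simp only [av, add_mul]
  exact integral_add (h.intav hr hw) (h.intav hr hu)

lemma Bump.av_sub (h : Bump ρ) {w u : ℂ → ℝ} {x : ℂ} {r : ℝ} (hr : 0 ≤ r)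
    (hw : ContinuousOn w (closedBall x r)) (hu : ContinuousOn u (closedBall x r)) :
    av ρ r (fun z => w z - u z) x = av ρ r w x - av ρ r u x := by
  simp only [av, sub_mul]
  exact integral_sub (h.intav hr hw) (h.intav hr hu)

lemma av_smul (c r : ℝ) (w : ℂ → ℝ) (x : ℂ) : av ρ r (fun z => c * w z) x = c * av ρ r w x := by
  simp only [av, mul_assoc, integral_const_mul]

lemma av_neg (r : ℝ) (w : ℂ → ℝ) (x : ℂ) : av ρ r (fun z => -w z) x = -av ρ r w x := by
  simp only [av, neg_mul, integral_neg]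

lemma Bump.av_congr (h : Bump ρ) {w u : ℂ → ℝ} {x : ℂ} {r : ℝ} (hr : 0 ≤ r)
    (e : ∀ z ∈ closedBall x r, w z = u z) : av ρ r w x = av ρ r u x := by
  refine integral_congr_ae (Eventually.of_forall fun y => ?_)
  rcases le_total ‖y‖ 1 with hy | hy
  · simp only [e _ (mem_cb hr hy)]
  · simp [h.supp y hy]

lemma Bump.av_dist (h : Bump ρ) {w u : ℂ → ℝ} {x : ℂ} {r b : ℝ} (hr : 0 ≤ r)
    (hw : ContinuousOn w (closedBall x r)) (hu : ContinuousOn u (closedBall x r))
    (hb : ∀ z ∈ closedBall x r, |w z - u z| ≤ b) : |av ρ r w x - av ρ r u x| ≤ b := by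
  rw [← h.av_sub hr hw hu]; exact h.abs_av_le hr hb

/-- continuity of the average in the centre -/
lemma Bump.av_contOn (h : Bump ρ) {w : ℂ → ℝ} {D s : Set ℂ} {r : ℝ} (hr : 0 ≤ r)
    (hw : ContinuousOn w D) (hs : ∀ x ∈ s, closedBall x r ⊆ D) : ContinuousOn (av ρ r w) s := by
  refine continuousOn_integral_of_compact_support (isCompact_closedBall (0 : ℂ) 1)
    (f := fun x y => w (x + r * y) * ρ y)
    (h.contOn (g := fun p : ℂ × ℂ => w (p.1 + r * p.2)) (hw.comp (by fun_prop) ?_)) ?_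
  · intro p hp
    exact hs _ hp.1 (mem_cb hr (by simpa using hp.2))
  · intro p z _ hz
    rw [h.zero hz, mul_zero]

/-- averages tend to the value at the centre -/
lemma Bump.av_near (h : Bump ρ) {w : ℂ → ℝ} {x : ℂ} {t : ℝ} (ht : 0 < t)
    (hw : ContinuousOn w (closedBall x t)) {ε : ℝ} (hε : 0 < ε) :
    ∃ s, 0 < s ∧ ∀ r, 0 ≤ r → r ≤ s → |av ρ r w x - w x| ≤ ε := by
  obtain ⟨δ, δ0, hδ⟩ := Metric.continuousWithinAt_iff.1 (hw x (mem_closedBall_self ht.le)) ε hε
  refine ⟨min t (δ / 2), by positivity, fun r r0 hr => ?_⟩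
  have h1 : closedBall x r ⊆ closedBall x t := closedBall_subset_closedBall (hr.trans (min_le_left _ _))
  have := h.av_dist (u := fun _ => w x) r0 (hw.mono h1) continuousOn_const (b := ε) fun z hz =>
    (hδ (h1 hz) (by
      have := hr.trans (min_le_right _ _)
      rw [mem_closedBall] at hz; linarith)).le
  rwa [h.av_const] at this

/-- rotation invariance -/
lemma Bump.int_rot (h : Bump ρ) (g : ℂ → ℝ) {a : ℂ} (ha : ‖a‖ = 1) :
    ∫ y, g (a * y) * ρ y = ∫ y, g y * ρ y := by
  let c : Circle := ⟨a, by simpa [Submonoid.unitSphere] using ha⟩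
  have := (rotation c).measurePreserving.integral_comp
    (rotation c).toHomeomorph.measurableEmbedding (fun y => g y * ρ y)
  rw [← this]
  refine integral_congr_ae (Eventually.of_forall fun y => ?_)
  have e : (rotation c) y = a * y := rfl
  simp only [e]
  rw [h.rad (a * y) y (by rw [norm_mul, ha, one_mul])]

lemma circ_eq (w : ℂ → ℝ) (x y : ℂ) :
    (2 * π)⁻¹ * ∫ θ in (0 : ℝ)..2 * π, w (x + Complex.exp (θ * Complex.I) * y) =
      circleAverage w x ‖y‖ := by
  rw [circleAverage_eq_integral_add (Complex.arg y), smul_eq_mul]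
  congr 2
  ext θ
  congr 1
  rw [circleMap]
  conv_lhs => rw [← Complex.norm_mul_exp_arg_mul_I y]
  push_cast
  rw [add_mul, Complex.exp_add]; ring

lemma norm_e (θ : ℝ) : ‖Complex.exp (θ * Complex.I)‖ = 1 := Complex.norm_exp_ofReal_mul_I θ

/-- Fubini for an angle and a bump -/
lemma Bump.swap (h : Bump ρ) {g : ℝ × ℂ → ℝ} (hg : ContinuousOn g (univ ×ˢ closedBall 0 1)) :
    ∫ θ in (0 : ℝ)..2 * π, ∫ y, g (θ, y) * ρ y = ∫ y, (∫ θ in (0 : ℝ)..2 * π, g (θ, y)) * ρ y := by
  have hc : Continuous (fun p : ℝ × ℂ => g p * ρ p.2) := by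
    have := h.contOn hg
    rwa [univ_prod_univ, continuousOn_univ] at this
  rw [intervalIntegral_integral_swap (f := fun θ y => g (θ, y) * ρ y)]
  · simp only [intervalIntegral.integral_mul_const]
  · have hk : IsCompact (uIcc (0 : ℝ) (2 * π) ×ˢ closedBall (0 : ℂ) 1) :=
      isCompact_uIcc.prod (isCompact_closedBall _ _)
    have h1 : IntegrableOn (fun p : ℝ × ℂ => g p * ρ p.2) (uIcc (0 : ℝ) (2 * π) ×ˢ univ)
        ((volume : Measure ℝ).prod volume) := by
      refine (hc.continuousOn.integrableOn_compact hk).of_forall_diff_eq_zero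
        (measurableSet_uIcc.prod MeasurableSet.univ) ?_
      intro p hp
      have : p.2 ∉ closedBall (0 : ℂ) 1 := fun hh => hp.2 ⟨hp.1.1, hh⟩
      rw [h.zero this, mul_zero]
    have h2 := h1.mono_set (prod_mono (uIoc_subset_uIcc (a := (0 : ℝ)) (b := 2 * π)) Subset.rfl)
    rw [IntegrableOn, ← Measure.prod_restrict, Measure.restrict_univ] at h2
    exact h2

/-- the average is an average of circle averages -/
lemma Bump.av_circ (h : Bump ρ) {w : ℂ → ℝ} {x : ℂ} {r : ℝ} (hr : 0 ≤ r)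
    (hw : ContinuousOn w (closedBall x r)) :
    av ρ r w x = ∫ y, circleAverage w x (r * ‖y‖) * ρ y := by
  have h1 := h.swap (g := fun p => w (x + r * (Complex.exp (p.1 * Complex.I) * p.2)))
    (hw.comp (by fun_prop) fun p hp => mem_cb hr (by
      rw [norm_mul, norm_e, one_mul]; simpa using hp.2))
  have h2 : ∀ θ : ℝ, ∫ y, w (x + r * (Complex.exp (θ * Complex.I) * y)) * ρ y = av ρ r w x :=
    fun θ => h.int_rot (fun y => w (x + r * y)) (norm_e θ)
  simp only [h2, intervalIntegral.integral_const, sub_zero, smul_eq_mul] at h1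
  have hp : (2 * π) ≠ 0 := by positivity
  have h3 : ∀ y : ℂ, circleAverage w x (r * ‖y‖) = (2 * π)⁻¹ *
      ∫ θ in (0 : ℝ)..2 * π, w (x + r * (Complex.exp (θ * Complex.I) * y)) := by
    intro y
    have := circ_eq w x (r * y)
    rw [norm_mul, Complex.norm_real, Real.norm_of_nonneg hr] at this
    rw [← this]
    simp only [mul_left_comm (r : ℂ)]
  simp only [h3, mul_assoc, integral_const_mul]
  rw [← h1]
  field_simp

/-- mean value property from circle averages -/
lemma Bump.av_of_circ (h : Bump ρ) {w : ℂ → ℝ} {x : ℂ} {r b : ℝ} (hr : 0 ≤ r)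
    (hw : ContinuousOn w (closedBall x r))
    (e : ∀ t, 0 ≤ t → t ≤ r → circleAverage w x t = b) : av ρ r w x = b := by
  rw [h.av_circ hr hw, ← h.av_const r b x, av]
  refine integral_congr_ae (Eventually.of_forall fun y => ?_)
  rcases le_total ‖y‖ 1 with hy | hy
  · simp only [e _ (mul_nonneg hr (norm_nonneg y)) (mul_le_of_le_one_right hr hy)]
  · simp [h.supp y hy]

lemma Bump.av_harm (h : Bump ρ) {w : ℂ → ℝ} {x : ℂ} {r : ℝ} (hr : 0 ≤ r)
    (hw : InnerProductSpace.HarmonicOnNhd w (closedBall x r)) : av ρ r w x = w x :=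
  h.av_of_circ hr hw.continuousOn fun t t0 ht =>
    InnerProductSpace.HarmonicOnNhd.circleAverage_eq
      (hw.mono (by rw [abs_of_nonneg t0]; exact closedBall_subset_closedBall ht))

/-- two averages commute -/
lemma Bump.av_comm (h : Bump ρ) {w : ℂ → ℝ} {x : ℂ} {r s : ℝ} (hr : 0 ≤ r) (hs : 0 ≤ s)
    (hw : ContinuousOn w (closedBall x (r + s))) :
    av ρ r (av ρ s w) x = av ρ s (av ρ r w) x := by
  have hm : ∀ y z : ℂ, ‖y‖ ≤ 1 → ‖z‖ ≤ 1 → x + r * y + s * z ∈ closedBall x (r + s) := by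
    intro y z hy hz
    have h1 := mem_cb (x := x) hr hy
    have h2 := mem_cb (x := x + r * y) hs hz
    rw [mem_closedBall] at *
    linarith [dist_triangle (x + r * y + s * z) (x + r * y) x]
  have hk : IsCompact (closedBall (0 : ℂ) 1 ×ˢ closedBall (0 : ℂ) 1) :=
    (isCompact_closedBall _ _).prod (isCompact_closedBall _ _)
  have hi : Integrable (fun p : ℂ × ℂ => w (x + r * p.1 + s * p.2) * ρ p.2 * ρ p.1)
      ((volume : Measure ℂ).prod volume) := by
    refine IntegrableOn.integrable_of_forall_notMem_eq_zero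
      (s := closedBall (0 : ℂ) 1 ×ˢ closedBall (0 : ℂ) 1)
      (ContinuousOn.integrableOn_compact hk (ContinuousOn.mul (ContinuousOn.mul ?_
        (h.cont.comp continuous_snd).continuousOn) (h.cont.comp continuous_fst).continuousOn)) ?_
    · exact hw.comp (by fun_prop) fun p hp => hm _ _ (by simpa using hp.1) (by simpa using hp.2)
    · intro p hp
      rw [mem_prod, not_and_or] at hp
      rcases hp with hp | hp <;> simp [h.zero hp]
  have := integral_integral_swap
    (f := fun y z : ℂ => w (x + r * y + s * z) * ρ z * ρ y) hi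
  simp only [av, ← integral_mul_const]
  rw [this]
  congr 1; ext z; congr 1; ext y
  rw [add_right_comm]; ring

end Pool.Agent.Lib.MP_6359c9_pr.End
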