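import Pool.Agent.Lib.MP_6359c9_pr.EndA

/-! Maximum principles for functions with an infinitesimal mean value property. -/

namespace Pool.Agent.Lib.MP_6359c9_pr.End

open MeasureTheory Metric Set Filter Topology Real

variable {ρ : ℂ → ℝ}

/-- second moment of the bump -/
noncomputable def m2 (ρ : ℂ → ℝ) : ℝ := ∫ y, ‖y‖ ^ 2 * ρ y

lemma Bump.hcs (h : Bump ρ) (g : ℂ → ℝ) : HasCompactSupport (fun y => g y * ρ y) :=
  HasCompactSupport.intro (isCompact_closedBall 0 1) fun z hz => by rw [h.zero hz, mul_zero]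

lemma Bump.ex_pos (h : Bump ρ) : ∃ y : ℂ, y ≠ 0 ∧ 0 < ρ y := by
  by_contra hn
  push Not at hn
  have : ∀ᵐ y : ℂ, ρ y = 0 := by
    filter_upwards [compl_mem_ae_iff.2 (measure_singleton (0 : ℂ))] with y hy
    exact le_antisymm (hn y hy) (h.nn y)
  have h1 := h.one
  rw [integral_congr_ae this] at h1
  simp at h1

lemma Bump.m2_pos (h : Bump ρ) : 0 < m2 ρ := by
  obtain ⟨y, y0, hy⟩ := h.ex_pos
  refine Continuous.integral_pos_of_hasCompactSupport_nonneg_nonzero (x := y)
    ((continuous_norm.pow 2).mul h.cont) (h.hcs _) (fun z => mul_nonneg (by positivity) (h.nn z)) ?_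
  have := norm_pos_iff.2 y0
  positivity

lemma Bump.av_sym (h : Bump ρ) (r : ℝ) (w : ℂ → ℝ) (x : ℂ) :
    av ρ r w x = ∫ y, w (x - r * y) * ρ y := by
  have := h.int_rot (fun y => w (x + r * y)) (a := -1) (by simp)
  rw [av, ← this]
  simp [sub_eq_add_neg]

lemma Bump.av_sq (h : Bump ρ) (r : ℝ) (x : ℂ) :
    av ρ r (fun z => ‖z‖ ^ 2) x = ‖x‖ ^ 2 + r ^ 2 * m2 ρ := by
  have i1 : Integrable (fun y : ℂ => ‖x + r * y‖ ^ 2 * ρ y) := h.intg (by fun_prop)
  have i2 : Integrable (fun y : ℂ => ‖x - r * y‖ ^ 2 * ρ y) := h.intg (by fun_prop)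
  have i3 : Integrable (fun y : ℂ => ‖y‖ ^ 2 * ρ y) := h.intg (by fun_prop)
  have e : ∫ y : ℂ, (‖x + r * y‖ ^ 2 * ρ y + ‖x - r * y‖ ^ 2 * ρ y) =
      ∫ y : ℂ, (2 * ‖x‖ ^ 2 * ρ y + 2 * r ^ 2 * (‖y‖ ^ 2 * ρ y)) := by
    congr 1; ext y
    have := parallelogram_law_with_norm ℝ x (r * y)
    rw [norm_mul, Complex.norm_real, Real.norm_eq_abs, mul_pow, sq_abs] at this
    rw [← add_mul, this]; ring
  rw [integral_add i1 i2, integral_add (h.int.const_mul _) (i3.const_mul _), integral_const_mul,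
    integral_const_mul, h.one, ← h.av_sym r (fun z => ‖z‖ ^ 2) x] at e
  have e2 : av ρ r (fun z => ‖z‖ ^ 2) x = ∫ y : ℂ, ‖x + r * y‖ ^ 2 * ρ y := rfl
  rw [← e2] at e
  rw [m2]; linarith

/-- infinitesimal sub mean value property -/
def Sub (ρ : ℂ → ℝ) (w : ℂ → ℝ) (D : Set ℂ) : Prop :=
  ∀ x ∈ D, ∀ ε > 0, ∃ r > 0, closedBall x r ⊆ D ∧ w x ≤ av ρ r w x + ε * r ^ 2

/-- maximum principle -/
theorem Bump.mp (h : Bump ρ) {w : ℂ → ℝ} {D K : Set ℂ} {b : ℝ} (hb : Bornology.IsBounded D)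
    (hw : ContinuousOn w D) (hs : Sub ρ w D) (hK : IsCompact K) (hKD : K ⊆ D)
    (ho : ∀ y ∈ D, y ∉ K → w y ≤ b) : ∀ y ∈ D, w y ≤ b := by
  intro y0 hy0
  by_contra hlt
  push Not at hlt
  obtain ⟨R, hR⟩ := hb.exists_norm_le
  have R0 : 0 ≤ R := (norm_nonneg _).trans (hR y0 hy0)
  set η := (w y0 - b) / (2 * (R ^ 2 + 1)) with hη
  have η0 : 0 < η := by have := sub_pos.2 hlt; positivity
  have hηR : η * R ^ 2 < w y0 - b := by
    have : η * (2 * (R ^ 2 + 1)) = w y0 - b := by rw [hη]; field_simp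
    nlinarith [sq_nonneg R]
  set u : ℂ → ℝ := fun z => w z + η * ‖z‖ ^ 2 with hu
  have uc : ContinuousOn u D := hw.add (by fun_prop)
  have out : ∀ y ∈ D, y ∉ K → u y < u y0 := by
    intro y hy hk
    have h1 := ho y hy hk
    have h2 : ‖y‖ ^ 2 ≤ R ^ 2 := pow_le_pow_left₀ (norm_nonneg _) (hR y hy) 2
    have h3 : 0 ≤ η * ‖y0‖ ^ 2 := by positivity
    simp only [hu]
    nlinarith
  have y0K : y0 ∈ K := by
    by_contra hk
    exact lt_irrefl _ (out y0 hy0 hk)
  obtain ⟨x, xK, hx⟩ := hK.exists_isMaxOn ⟨y0, y0K⟩ (uc.mono hKD)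
  have gl : ∀ y ∈ D, u y ≤ u x := by
    intro y hy
    by_cases hk : y ∈ K
    · exact hx hk
    · exact (out y hy hk).le.trans (hx y0K)
  have m0 := h.m2_pos
  obtain ⟨r, r0, hr, hi⟩ := hs x (hKD xK) (η * m2 ρ / 2) (by positivity)
  have h1 : av ρ r u x ≤ u x := h.av_le r0.le (uc.mono hr) fun z hz => gl z (hr hz)
  rw [hu, h.av_add r0.le (hw.mono hr) (by fun_prop), av_smul, h.av_sq] at h1
  have h2 : 0 < η * m2 ρ * r ^ 2 := by positivity
  simp only at h1
  nlinarith

/-- uniform infinitesimal mean value property -/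
def Imv (ρ : ℂ → ℝ) (w : ℂ → ℝ) (D : Set ℂ) : Prop :=
  ∀ K ⊆ D, IsCompact K → ∀ ε > 0, ∀ s > 0, ∃ r, 0 < r ∧ r ≤ s ∧
    ∀ x ∈ K, |av ρ r w x - w x| ≤ ε * r ^ 2

lemma Imv.neg {w : ℂ → ℝ} {D : Set ℂ} (h : Imv ρ w D) : Imv ρ (fun z => -w z) D := by
  intro K hK kc ε ε0 s s0
  obtain ⟨r, r0, rs, hr⟩ := h K hK kc ε ε0 s s0
  refine ⟨r, r0, rs, fun x hx => ?_⟩
  rw [av_neg, ← abs_neg]
  convert hr x hx using 2; ring

lemma circ_neg (w : ℂ → ℝ) (x : ℂ) (t : ℝ) :
    circleAverage (fun z => -w z) x t = -circleAverage w x t := by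
  simp [circleAverage]

lemma Bump.le_circ (h : Bump ρ) {w : ℂ → ℝ} {D : Set ℂ} (hw : ContinuousOn w D) (hi : Imv ρ w D)
    {x : ℂ} {t : ℝ} (t0 : 0 < t) (ht : closedBall x t ⊆ D) : w x ≤ circleAverage w x t := by
  have hw' := hw.mono ht
  have c0 : ContinuousOn (circleAverage w x) (Icc 0 t) := by
    refine ContinuousOn.circleAverage (hw'.mono fun z hz => ?_) fun r hr => hr.1
    rw [mem_closedBall, dist_eq_norm]; exact hz.2
  set A : ℂ → ℝ := fun y => circleAverage w x ‖y - x‖ with hA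
  have Ac : ContinuousOn A (closedBall x t) :=
    c0.comp (by fun_prop) fun y hy => ⟨norm_nonneg _, by rwa [mem_closedBall, dist_eq_norm] at hy⟩
  have hp : (0 : ℝ) < 2 * π := by positivity
  have sub : Sub ρ A (ball x t) := by
    intro y hy ε ε0
    have hy' : ‖y - x‖ < t := by rwa [mem_ball, dist_eq_norm] at hy
    obtain ⟨r, r0, rs, hr⟩ := hi (closedBall x ‖y - x‖)
      ((closedBall_subset_closedBall hy'.le).trans ht) (isCompact_closedBall _ _) ε ε0
      ((t - ‖y - x‖) / 2) (by linarith)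
    have hsub : ∀ y' : ℂ, ‖y' - x‖ = ‖y - x‖ → closedBall y' r ⊆ ball x t := by
      intro y' e z hz
      rw [mem_closedBall] at hz
      rw [mem_ball]
      have := dist_triangle z y' x
      rw [dist_eq_norm y' x, e] at this
      linarith
    refine ⟨r, r0, hsub y rfl, ?_⟩
    set p : ℝ → ℂ := fun θ => x + Complex.exp (θ * Complex.I) * (y - x) with hp'
    have pn : ∀ θ, ‖p θ - x‖ = ‖y - x‖ := fun θ => by
      simp only [hp', add_sub_cancel_left, norm_mul, norm_e, one_mul]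
    have sw := h.swap
      (g := fun q => w (x + Complex.exp (q.1 * Complex.I) * (y + r * q.2 - x)))
      (hw'.comp (by fun_prop) fun q hq => by
        have := hsub y rfl (mem_cb (x := y) r0.le (y := q.2) (by simpa using hq.2))
        rw [mem_ball, dist_eq_norm] at this
        rw [mem_closedBall, dist_eq_norm, add_sub_cancel_left, norm_mul, norm_e, one_mul]
        exact this.le)
    have e1 : ∀ θ : ℝ, ∫ z, w (x + Complex.exp (θ * Complex.I) * (y + r * z - x)) * ρ z =
        av ρ r w (p θ) := by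
      intro θ
      rw [av, ← h.int_rot (fun z => w (p θ + r * z)) (norm_e θ)]
      congr 1; ext z; congr 2; simp only [hp']; ring
    have e2 : av ρ r A y = (2 * π)⁻¹ * ∫ θ in (0 : ℝ)..2 * π, av ρ r w (p θ) := by
      simp only [e1] at sw
      rw [sw, av, ← integral_const_mul]
      congr 1; ext z
      simp only [hA]
      rw [← circ_eq]; ring
    have e3 : A y = (2 * π)⁻¹ * ∫ θ in (0 : ℝ)..2 * π, w (p θ) := (circ_eq w x (y - x)).symm
    have pc : Continuous p := by fun_prop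
    have pm : ∀ θ, p θ ∈ closedBall x ‖y - x‖ := fun θ => by
      rw [mem_closedBall, dist_eq_norm, pn]
    have i1 : Continuous fun θ => w (p θ) :=
      hw'.comp_continuous pc fun θ => closedBall_subset_closedBall hy'.le (pm θ)
    have i2 : Continuous fun θ => av ρ r w (p θ) :=
      (h.av_contOn (s := {z | ‖z - x‖ = ‖y - x‖}) r0.le hw'
        fun z hz => (hsub z hz).trans ball_subset_closedBall).comp_continuous pc pn
    have le : ∫ θ in (0 : ℝ)..2 * π, w (p θ) ≤
        ∫ θ in (0 : ℝ)..2 * π, (av ρ r w (p θ) + ε * r ^ 2) :=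
      intervalIntegral.integral_mono_on hp.le (i1.intervalIntegrable _ _)
        ((i2.add continuous_const).intervalIntegrable _ _) fun θ _ => by
          have := abs_le.1 (hr _ (pm θ)); linarith [this.1]
    rw [intervalIntegral.integral_add (i2.intervalIntegrable _ _) (by simp),
      intervalIntegral.integral_const, sub_zero, smul_eq_mul] at le
    rw [e2, e3]
    calc _ ≤ (2 * π)⁻¹ * ((∫ θ in (0 : ℝ)..2 * π, av ρ r w (p θ)) + 2 * π * (ε * r ^ 2)) := by
          gcongr
      _ = _ := by field_simp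
  refine le_of_forall_pos_le_add fun η η0 => ?_
  obtain ⟨δ, δ0, hδ⟩ := Metric.continuousWithinAt_iff.1 (c0 t ⟨t0.le, le_rfl⟩) η η0
  have := h.mp (w := A) (D := ball x t) (K := closedBall x (t - min δ t / 2))
    (b := circleAverage w x t + η) isBounded_ball (Ac.mono ball_subset_closedBall) sub
    (isCompact_closedBall _ _) (closedBall_subset_ball (by have := lt_min δ0 t0; linarith))
    (fun y hy hk => by
      rw [mem_ball, dist_eq_norm] at hy
      rw [mem_closedBall, dist_eq_norm, not_le] at hk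
      have := hδ (x := ‖y - x‖) ⟨norm_nonneg _, hy.le⟩ (by
        rw [Real.dist_eq, abs_lt]
        have := min_le_left δ t
        constructor <;> linarith)
      rw [Real.dist_eq, abs_lt] at this
      simp only [hA]; linarith [this.2]) x (mem_ball_self t0)
  simpa [hA] using this

/-- the infinitesimal mean value property gives the mean value property on circles -/
theorem Bump.circ_of_imv (h : Bump ρ) {w : ℂ → ℝ} {D : Set ℂ} (hw : ContinuousOn w D)
    (hi : Imv ρ w D) {x : ℂ} {t : ℝ} (t0 : 0 ≤ t) (ht : closedBall x t ⊆ D) :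
    circleAverage w x t = w x := by
  rcases t0.eq_or_lt with rfl | t0
  · simp
  have h1 := h.le_circ hw hi t0 ht
  have h2 := h.le_circ (w := fun z => -w z) hw.neg hi.neg t0 ht
  rw [circ_neg] at h2
  linarith

/-- distance to the complement -/
noncomputable def dd (Ω : Set ℂ) (x : ℂ) : ℝ := infDist x Ωᶜ

lemma dd_cont (Ω : Set ℂ) : Continuous (dd Ω) := continuous_infDist_pt _

lemma dd_le (Ω : Set ℂ) (x y : ℂ) : dd Ω x ≤ dd Ω y + ‖x - y‖ := by
  rw [← dist_eq_norm]; exact infDist_le_infDist_add_dist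

lemma cb_sub {Ω : Set ℂ} {x : ℂ} {r : ℝ} (hr : r < dd Ω x) : closedBall x r ⊆ Ω := by
  intro y hy
  by_contra hn
  have := infDist_le_dist_of_mem (x := x) (s := Ωᶜ) hn
  rw [mem_closedBall, dist_comm] at hy
  exact absurd (hr.trans_le (this.trans hy)) (lt_irrefl _)

lemma mem_of_dd {Ω : Set ℂ} {x : ℂ} (hx : 0 < dd Ω x) : x ∈ Ω :=
  cb_sub hx (mem_closedBall_self le_rfl)

lemma compl_ne {Ω : Set ℂ} (hb : Bornology.IsBounded Ω) : Ωᶜ.Nonempty := by
  rw [nonempty_compl]
  rintro rfl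
  exact NormedSpace.unbounded_univ ℝ ℂ hb

lemma dd_pos {Ω : Set ℂ} (ho : IsOpen Ω) (hb : Bornology.IsBounded Ω) {x : ℂ} (hx : x ∈ Ω) :
    0 < dd Ω x :=
  (ho.isClosed_compl.notMem_iff_infDist_pos (compl_ne hb)).1 (by simpa using hx)

lemma cpt_dd {Ω : Set ℂ} (hb : Bornology.IsBounded Ω) {t : ℝ} (t0 : 0 < t) :
    IsCompact {x | t ≤ dd Ω x} :=
  isCompact_of_isClosed_isBounded (isClosed_le continuous_const (dd_cont Ω))
    (hb.subset fun _ hx => mem_of_dd (t0.trans_le hx))

lemma ex_dd {Ω K : Set ℂ} (ho : IsOpen Ω) (hb : Bornology.IsBounded Ω) (hK : K ⊆ Ω)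
    (kc : IsCompact K) : ∃ t > 0, ∀ x ∈ K, t ≤ dd Ω x := by
  rcases K.eq_empty_or_nonempty with rfl | hne
  · exact ⟨1, one_pos, by simp⟩
  obtain ⟨x, hx, hm⟩ := kc.exists_isMinOn hne (dd_cont Ω).continuousOn
  exact ⟨_, dd_pos ho hb (hK hx), fun y hy => hm hy⟩

lemma open_rest {S : Set ℂ} (hS : IsOpen S) (z : ℂ) : IsOpen (S \ connectedComponentIn S z) := by
  rw [isOpen_iff_forall_mem_open]
  intro y hy
  refine ⟨connectedComponentIn S y, fun p hp => ⟨connectedComponentIn_subset _ _ hp, fun hq => ?_⟩,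
    hS.connectedComponentIn, mem_connectedComponentIn hy.1⟩
  apply hy.2
  rw [connectedComponentIn_eq hq, ← connectedComponentIn_eq hp]
  exact mem_connectedComponentIn hy.1

lemma harm_log (a : ℂ) {s : Set ℂ} (ha : a ∉ s) :
    InnerProductSpace.HarmonicOnNhd (fun z => Real.log ‖z - a‖) s := fun z hz =>
  AnalyticAt.harmonicAt_log_norm (f := fun z => z - a) (by fun_prop)
    (sub_ne_zero.2 fun e => ha (e ▸ hz))

/-- maximum principle with two small exceptional discs -/
theorem Bump.mp2 (h : Bump ρ) {Ω : Set ℂ} (ho : IsOpen Ω) (hc : IsConnected Ω)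
    (hb : Bornology.IsBounded Ω) {z0 : ℂ} (hz : z0 ∈ Ω) {W : ℂ → ℝ} (hW : ContinuousOn W Ω)
    (mv : ∀ x r, 0 < r → r < dd Ω x → av ρ r W x = W x) {M T : ℝ} (hM : ∀ x ∈ Ω, W x ≤ M)
    (hD : ∀ R, 0 < R → R ≤ 1 → ∀ ε > 0, ∃ η > 0, ∃ α β : ℂ, dd Ω α ≤ R ∧ dd Ω β ≤ R ∧
      ‖α‖ ≤ T ∧ ‖β‖ ≤ T ∧ ∀ y ∈ connectedComponentIn (Ω \ (closedBall α R ∪ closedBall β R)) z0,
        dd Ω y < η → W y ≤ ε) : ∀ x ∈ Ω, W x ≤ 0 := by
  intro x hx
  obtain ⟨γ, hγ⟩ := ((ho.isConnected_iff_isPathConnected).1 hc).joinedIn z0 hz x hx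
  obtain ⟨c, c0, hcγ⟩ := ex_dd ho hb (K := range γ) (by rintro _ ⟨t, rfl⟩; exact hγ t)
    (isCompact_range γ.continuous)
  obtain ⟨B, hB⟩ := hb.exists_norm_le
  have B0 : 0 ≤ B := (norm_nonneg _).trans (hB x hx)
  set N := max M 0 with hN
  have N0 : 0 ≤ N := le_max_right _ _
  set Δ := B + |T| + 3 with hΔ
  have Δ3 : 3 ≤ Δ := by have := abs_nonneg T; linarith
  have key : ∀ R, 0 < R → R ≤ 1 → R ≤ c / 4 → ∀ ε > 0,
      W x ≤ ε + 2 * N * Real.log (Δ / (c / 2)) / Real.log (Δ / (2 * R)) := by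
    intro R R0 R1 Rc ε ε0
    obtain ⟨η, η0, α, β, dα, dβ, nα, nβ, hy⟩ := hD R R0 R1 ε ε0
    set S := Ω \ (closedBall α R ∪ closedBall β R) with hS
    have So : IsOpen S := ho.sdiff (isClosed_closedBall.union isClosed_closedBall)
    set D := connectedComponentIn S z0 with hDd
    have Do : IsOpen D := So.connectedComponentIn
    have DS : D ⊆ S := connectedComponentIn_subset _ _
    have far : ∀ a : ℂ, dd Ω a ≤ R → ∀ y, c ≤ dd Ω y → c / 2 ≤ ‖y - a‖ := by
      intro a da y hy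
      have := dd_le Ω y a
      linarith
    have xD : x ∈ D := by
      refine (isPreconnected_range γ.continuous).subset_connectedComponentIn
        (x := z0) ⟨0, γ.source⟩ ?_ ⟨1, γ.target⟩
      rintro _ ⟨t, rfl⟩
      refine ⟨hγ t, ?_⟩
      have h1 := far α dα _ (hcγ _ ⟨t, rfl⟩)
      have h2 := far β dβ _ (hcγ _ ⟨t, rfl⟩)
      simp only [mem_union, mem_closedBall, dist_eq_norm, not_or, not_le]
      constructor <;> linarith
    set L := Real.log (Δ / (2 * R)) with hL
    have L0 : 0 < L := Real.log_pos (by rw [lt_div_iff₀ (by positivity)]; linarith)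
    set bar : ℂ → ℂ → ℝ := fun a y => Real.log Δ - Real.log ‖y - a‖ with hbar
    have nz : ∀ y ∈ D, R < ‖y - α‖ ∧ R < ‖y - β‖ := by
      intro y hy
      have := (DS hy).2
      simpa only [mem_union, mem_closedBall, dist_eq_norm, not_or, not_le] using this
    have bnn : ∀ a : ℂ, ‖a‖ ≤ T → ∀ y ∈ Ω, R < ‖y - a‖ → 0 ≤ bar a y := by
      intro a ha y hy hr
      have h1 : ‖y - a‖ ≤ Δ := by
        have := norm_sub_le y a
        have := hB y hy
        have := le_abs_self T
        linarith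
      exact sub_nonneg.2 (Real.log_le_log (R0.trans hr) h1)
    have bL : ∀ a y : ℂ, R < ‖y - a‖ → ‖y - a‖ < 2 * R → L ≤ bar a y := by
      intro a y h1 h2
      rw [hL, Real.log_div (by positivity) (by positivity)]
      have := Real.log_le_log (R0.trans h1) h2.le
      simp only [hbar]; linarith
    have bh : ∀ a : ℂ, (∀ y ∈ D, R < ‖y - a‖) →
        InnerProductSpace.HarmonicOnNhd (bar a) D := fun a ha z hz =>
      (InnerProductSpace.harmonicAt_const _).sub (harm_log a (s := D) (fun hh => by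
        have := ha a hh; simp at this; linarith) z hz)
    have bα := bh α fun y hy => (nz y hy).1
    have bβ := bh β fun y hy => (nz y hy).2
    have DΩ : D ⊆ Ω := fun y hy => (DS hy).1
    have mpp := h.mp (w := fun y => W y - N / L * (bar α y + bar β y)) (D := D)
      (K := ({y | η ≤ dd Ω y} ∩ {y | 2 * R ≤ ‖y - α‖} ∩ {y | 2 * R ≤ ‖y - β‖}) \ (S \ D)) (b := ε)
      (hb.subset DΩ)
      ((hW.mono DΩ).sub ((bα.continuousOn.add bβ.continuousOn).const_mul _)) ?_ ?_ ?_ ?_ x xD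
    · have h1 := far α dα x (hcγ _ ⟨1, γ.target⟩)
      have h2 := far β dβ x (hcγ _ ⟨1, γ.target⟩)
      have h3 := Real.log_le_log (by positivity) h1
      have h4 := Real.log_le_log (by positivity) h2
      have h5 : bar α x + bar β x ≤ 2 * Real.log (Δ / (c / 2)) := by
        rw [Real.log_div (by positivity) (by positivity)]
        simp only [hbar]; linarith
      have h6 : N / L * (bar α x + bar β x) ≤ N / L * (2 * Real.log (Δ / (c / 2))) := by gcongr
      have h7 : N / L * (2 * Real.log (Δ / (c / 2))) = 2 * N * Real.log (Δ / (c / 2)) / L := by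
        ring
      linarith
    · intro y hy e e0
      obtain ⟨r, r0, hr⟩ := nhds_basis_closedBall.mem_iff.1 (Do.mem_nhds hy)
      have d0 := dd_pos ho hb (DΩ hy)
      have hr' : closedBall y (min r (dd Ω y / 2)) ⊆ D :=
        (closedBall_subset_closedBall (min_le_left _ _)).trans hr
      have q0 : 0 < min r (dd Ω y / 2) := by positivity
      refine ⟨_, q0, hr', ?_⟩
      rw [h.av_sub (u := fun y => N / L * (bar α y + bar β y)) q0.le (hW.mono (hr'.trans DΩ))
        (((bα.continuousOn.add bβ.continuousOn).const_mul _).mono hr'), av_smul,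
        h.av_add q0.le (bα.continuousOn.mono hr') (bβ.continuousOn.mono hr'),
        h.av_harm q0.le (bα.mono hr'), h.av_harm q0.le (bβ.mono hr'),
        mv y _ q0 ((min_le_right _ _).trans_lt (by linarith))]
      have : 0 ≤ e * min r (dd Ω y / 2) ^ 2 := by positivity
      linarith
    · exact (((cpt_dd hb η0).inter_right (isClosed_le continuous_const (by fun_prop))).inter_right
        (isClosed_le continuous_const (by fun_prop))).diff (open_rest So z0)
    · intro y hy
      by_contra hn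
      refine hy.2 ⟨⟨mem_of_dd (η0.trans_le hy.1.1.1), ?_⟩, hn⟩
      have h1 : 2 * R ≤ ‖y - α‖ := hy.1.1.2
      have h2 : 2 * R ≤ ‖y - β‖ := hy.1.2
      simp only [mem_union, mem_closedBall, dist_eq_norm, not_or, not_le]
      constructor <;> linarith
    · intro y yD hk
      have p1 := bnn α nα y (DΩ yD) (nz y yD).1
      have p2 := bnn β nβ y (DΩ yD) (nz y yD).2
      have NL : 0 ≤ N / L := by positivity
      have hW' : W y ≤ N := (hM y (DΩ yD)).trans (le_max_left _ _)
      have big : L ≤ bar α y + bar β y → W y - N / L * (bar α y + bar β y) ≤ ε := by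
        intro hh
        have : N / L * L ≤ N / L * (bar α y + bar β y) := by gcongr
        rw [div_mul_cancel₀ _ L0.ne'] at this
        linarith
      by_cases c1 : dd Ω y < η
      · have := hy y yD c1
        have : 0 ≤ N / L * (bar α y + bar β y) := by positivity
        linarith
      by_cases c2 : ‖y - α‖ < 2 * R
      · exact big (by linarith [bL α y (nz y yD).1 c2])
      by_cases c3 : ‖y - β‖ < 2 * R
      · exact big (by linarith [bL β y (nz y yD).2 c3])
      exact absurd ⟨⟨⟨not_lt.1 c1, not_lt.1 c2⟩, not_lt.1 c3⟩, fun hh => hh.2 yD⟩ hk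
  have lim : Tendsto (fun R : ℝ => R + 2 * N * Real.log (Δ / (c / 2)) / Real.log (Δ / (2 * R)))
      (𝓝[>] 0) (𝓝 (0 + 0)) := by
    refine (tendsto_nhdsWithin_of_tendsto_nhds tendsto_id).add
      (tendsto_const_nhds.div_atTop (Real.tendsto_log_atTop.comp ?_))
    have : (fun R : ℝ => Δ / (2 * R)) = fun R => Δ / 2 * R⁻¹ := by ext R; ring
    rw [this]
    exact tendsto_inv_nhdsGT_zero.const_mul_atTop (by positivity)
  rw [add_zero] at lim
  refine ge_of_tendsto lim ?_
  filter_upwards [Ioo_mem_nhdsGT (show (0 : ℝ) < min 1 (c / 4) by positivity)] with R hR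
  exact key R hR.1 (hR.2.le.trans (min_le_left _ _)) (hR.2.le.trans (min_le_right _ _)) R hR.1

end Pool.Agent.Lib.MP_6359c9_pr.End
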