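import Pool.Agent.Lib.MP_6359c9_pr.EndDef

/-! The limit along an ultrafilter is harmonic. -/

namespace Pool.Agent.Lib.MP_6359c9_pr.End

open MeasureTheory Metric Set Filter Topology Real InnerProductSpace
open scoped Laplacian

variable {ρ : ℂ → ℝ} {Ω : Set ℂ} {H : ℕ → ℂ → ℝ}

lemma ultra_lim (U : Ultrafilter ℕ) {f : ℕ → ℝ} {B : ℝ} (h : ∀ᶠ n in U, |f n| ≤ B) :
    ∃ l, Tendsto f U (𝓝 l) := by
  obtain ⟨l, _, hl⟩ := (isCompact_Icc (a := -B) (b := B)).ultrafilter_le_nhds (U.map f)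
    (le_principal_iff.2 (mem_map.2 (h.mono fun n hn => abs_le.1 hn)))
  exact ⟨l, hl⟩

lemma HB.pos (hB : HB Ω H) {K : Set ℂ} (hK : K ⊆ Ω) (kc : IsCompact K) :
    ∃ C : ℝ, 0 < C ∧ ∀ᶠ n in atTop, ∀ f : ℂ → ℝ, Continuous f → (∀ z ∉ K, f z = 0) →
      ∀ b, (∀ z, |f z| ≤ b) → |∫ z, H n z * f z| ≤ C * b := by
  obtain ⟨C, hC⟩ := hB K hK kc
  refine ⟨|C| + 1, by positivity, hC.mono fun n hn f fc f0 b hb => (hn f fc f0 b hb).trans ?_⟩
  exact mul_le_mul_of_nonneg_right ((le_abs_self C).trans (by linarith))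
    ((abs_nonneg _).trans (hb 0))

lemma intg_of {f g : ℂ → ℝ} {K : Set ℂ} (kc : IsCompact K) (hf : ContinuousOn f K)
    (hg : Continuous g) (g0 : ∀ z ∉ K, g z = 0) : Integrable fun z => f z * g z :=
  IntegrableOn.integrable_of_forall_notMem_eq_zero
    ((hf.mul hg.continuousOn).integrableOn_compact kc) fun z hz => by rw [g0 z hz, mul_zero]

lemma Bump.sc_cont' (h : Bump ρ) (x : ℂ) (r : ℝ) : Continuous (sc ρ x r) :=
  (h.sc_cont r).comp (continuous_const.prodMk continuous_id)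

lemma Bump.sc_off (h : Bump ρ) {x : ℂ} {s t : ℝ} (s0 : 0 < s) (hx : t ≤ dd Ω x) :
    ∀ z ∉ {z | t - s ≤ dd Ω z}, sc ρ x s z = 0 := by
  intro z hz
  simp only [mem_setOf_eq, not_le] at hz
  have := dd_le Ω x z
  exact h.sc_zero s0 (by rw [norm_sub_rev]; linarith)

lemma Bump.hcs' (h : Bump ρ) : HasCompactSupport ρ :=
  HasCompactSupport.intro (isCompact_closedBall 0 1) fun _ hz => h.zero hz

lemma Bump.equi (h : Bump ρ) (hb : Bornology.IsBounded Ω) (hH : ∀ n, Continuous (H n))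
    (hB : HB Ω H) {s t ε : ℝ} (s0 : 0 < s) (st : s < t) (ε0 : 0 < ε) :
    ∃ δ > 0, ∀ᶠ n in atTop, ∀ x x', t ≤ dd Ω x → t ≤ dd Ω x' → ‖x - x'‖ ≤ δ →
      |av ρ s (H n) x - av ρ s (H n) x'| ≤ ε := by
  have kc := cpt_dd hb (sub_pos.2 st)
  obtain ⟨C, C0, hC⟩ := hB.pos (fun z hz => mem_of_dd ((sub_pos.2 st).trans_le hz)) kc
  obtain ⟨δ, δ0, hδ⟩ := Metric.uniformContinuous_iff.1
    (h.hcs'.uniformContinuous_of_continuous h.cont) (ε * s ^ 2 / C) (by positivity)
  refine ⟨δ * s / 2, by positivity, hC.mono fun n hn x x' hx hx' hd => ?_⟩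
  have := hn (fun z => sc ρ x s z - sc ρ x' s z) ((h.sc_cont' x s).sub (h.sc_cont' x' s))
    (fun z hz => by rw [h.sc_off s0 hx z hz, h.sc_off s0 hx' z hz, sub_self]) (ε / C) fun z => by
      have h1 : dist ((z - x) / s) ((z - x') / s) < δ := by
        rw [dist_eq_norm, ← sub_div, norm_div, Complex.norm_real, Real.norm_of_nonneg s0.le,
          div_lt_iff₀ s0, show z - x - (z - x') = -(x - x') by ring, norm_neg]
        have : 0 < δ * s := by positivity
        linarith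
      have h2 := (hδ h1).le
      rw [Real.dist_eq] at h2
      rw [sc, sc, ← mul_sub, abs_mul, abs_of_pos (by positivity)]
      calc _ ≤ (s ^ 2)⁻¹ * (ε * s ^ 2 / C) := by gcongr
        _ = ε / C := by field_simp
  simp only [mul_sub] at this
  rw [integral_sub (intg_of kc (hH n).continuousOn (h.sc_cont' x s) (h.sc_off s0 hx))
    (intg_of kc (hH n).continuousOn (h.sc_cont' x' s) (h.sc_off s0 hx')), int_sc s0, int_sc s0,
    mul_div_cancel₀ _ C0.ne'] at this
  exact this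

lemma Bump.bdd (h : Bump ρ) (hb : Bornology.IsBounded Ω) (hB : HB Ω H) {s : ℝ} {x : ℂ}
    (s0 : 0 < s) (st : s < dd Ω x) : ∃ B, ∀ᶠ n in atTop, |av ρ s (H n) x| ≤ B := by
  obtain ⟨C, hC⟩ := hB _ (fun z hz => mem_of_dd ((sub_pos.2 st).trans_le hz))
    (cpt_dd hb (sub_pos.2 st))
  obtain ⟨b, hb'⟩ := h.hcs'.exists_bound_of_continuous h.cont
  refine ⟨C * ((s ^ 2)⁻¹ * b), hC.mono fun n hn => ?_⟩
  rw [← int_sc s0]
  refine hn _ (h.sc_cont' x s) (h.sc_off s0 le_rfl) _ fun z => ?_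
  rw [sc, abs_mul, abs_of_pos (by positivity)]
  exact mul_le_mul_of_nonneg_left (hb' _) (by positivity)

/-- smoothing changes a pairing little -/
lemma Bump.smooth (h : Bump ρ) (ho : IsOpen Ω) (hb : Bornology.IsBounded Ω)
    (hH : ∀ n, Continuous (H n)) (hB : HB Ω H) {K : Set ℂ} (hK : K ⊆ Ω) (kc : IsCompact K)
    {ψ : ℂ → ℝ} (hψ : Continuous ψ) (ψ0 : ∀ z ∉ K, ψ z = 0) {ε : ℝ} (ε0 : 0 < ε) :
    ∃ δ > 0, ∀ s, 0 < s → s ≤ δ → ∀ᶠ n in atTop,
      |(∫ z, av ρ s (H n) z * ψ z) - ∫ z, H n z * ψ z| ≤ ε := by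
  obtain ⟨t, t0, ht⟩ := ex_dd ho hb hK kc
  have kc' := cpt_dd hb (half_pos t0)
  obtain ⟨C, C0, hC⟩ := hB.pos (fun z hz => mem_of_dd ((half_pos t0).trans_le hz)) kc'
  have hcs : HasCompactSupport ψ := HasCompactSupport.intro kc ψ0
  obtain ⟨δ, δ0, hδ⟩ := Metric.uniformContinuous_iff.1
    (hcs.uniformContinuous_of_continuous hψ) (ε / C) (by positivity)
  refine ⟨min (δ / 2) (t / 2), by positivity, fun s s0 hs => hC.mono fun n hn => ?_⟩
  have s1 := hs.trans (min_le_left _ _)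
  have s2 := hs.trans (min_le_right _ _)
  have off : ∀ w ∈ closedBall (0 : ℂ) s, ∀ z ∉ {z | t / 2 ≤ dd Ω z}, ψ (z - w) = 0 := by
    intro w hw z hz
    refine ψ0 _ fun hk => hz ?_
    have h1 := ht _ hk
    have h2 := dd_le Ω (z - w) z
    rw [show z - w - z = -w by ring, norm_neg] at h2
    rw [mem_closedBall, dist_zero_right] at hw
    simp only [mem_setOf_eq]; linarith
  set G : ℂ → ℝ := fun w => ∫ z, H n z * ψ (z - w) with hG
  have Gc : ContinuousOn G (closedBall 0 s) :=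
    continuousOn_integral_of_compact_support kc' (f := fun w z => H n z * ψ (z - w))
      (by have := hH n; fun_prop) fun w z hw hz => by rw [off w hw z hz, mul_zero]
  have e1 : ∫ z, av ρ s (H n) z * ψ z = av ρ s G 0 := by
    have hi : Integrable (fun p : ℂ × ℂ => H n (p.1 + s * p.2) * ρ p.2 * ψ p.1)
        ((volume : Measure ℂ).prod volume) := by
      refine IntegrableOn.integrable_of_forall_notMem_eq_zero (s := K ×ˢ closedBall (0 : ℂ) 1)
        (ContinuousOn.integrableOn_compact (kc.prod (isCompact_closedBall _ _))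
          (by have := hH n; have := h.cont; fun_prop)) ?_
      intro p hp
      rw [mem_prod, not_and_or] at hp
      rcases hp with hp | hp
      · rw [ψ0 _ hp, mul_zero]
      · simp [h.zero hp]
    have := integral_integral_swap (f := fun z y : ℂ => H n (z + s * y) * ρ y * ψ z) hi
    simp only [av, ← integral_mul_const, hG]
    rw [this]
    congr 1; ext y
    rw [← integral_add_right_eq_self (fun z => H n z * ψ (z - (0 + s * y)) * ρ y) (s * y)]
    congr 1; ext z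
    rw [zero_add, add_sub_cancel_right]; ring
  have e2 : ∫ z, H n z * ψ z = av ρ s (fun _ => G 0) 0 := by
    rw [h.av_const]; simp [hG]
  rw [e1, e2]
  refine h.av_dist s0.le Gc continuousOn_const fun w hw => ?_
  have z0 := off 0 (mem_closedBall_self s0.le)
  have := hn (fun z => ψ (z - w) - ψ (z - 0)) (by fun_prop)
    (fun z hz => by rw [off w hw z hz, z0 z hz, sub_self]) (ε / C) fun z => by
      rw [← Real.dist_eq]
      refine (hδ ?_).le
      rw [dist_eq_norm, show z - w - (z - 0) = -w by ring, norm_neg]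
      rw [mem_closedBall, dist_zero_right] at hw
      linarith
  simp only [mul_sub] at this
  rwa [integral_sub (intg_of kc' (hH n).continuousOn (by fun_prop) (off w hw))
    (intg_of kc' (hH n).continuousOn (by fun_prop) z0), mul_div_cancel₀ _ C0.ne'] at this

lemma cb_dd {x z : ℂ} {r : ℝ} (hz : z ∈ closedBall x r) : dd Ω x - r ≤ dd Ω z := by
  have := dd_le Ω x z
  rw [mem_closedBall, dist_eq_norm, norm_sub_rev] at hz
  linarith

theorem Bump.core0 (h : Bump ρ) (ho : IsOpen Ω) (hb : Bornology.IsBounded Ω)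
    (hH : ∀ n, Continuous (H n)) (hB : HB Ω H)
    (hS : ∀ K ⊆ Ω, IsCompact K → ∀ ε > 0, ∃ r0 > 0, ∀ r, 0 < r → r ≤ r0 → ∀ x ∈ K,
      ∀ᶠ n in atTop, |av ρ r (H n) x - av ρ (r / 2) (H n) x| ≤ ε * r ^ 2)
    (U : Ultrafilter ℕ) (hU : (U : Filter ℕ) ≤ atTop) :
    ∃ W : ℂ → ℝ, HarmonicOnNhd W Ω ∧ ∀ K ⊆ Ω, IsCompact K → ∀ ψ : ℂ → ℝ, Continuous ψ →
      (∀ z ∉ K, ψ z = 0) → Tendsto (fun n => ∫ z, H n z * ψ z) U (𝓝 (∫ z, W z * ψ z)) := by
  set W : ℝ → ℂ → ℝ := fun s x => limUnder U fun n => av ρ s (H n) x with hW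
  have T1 : ∀ s x, 0 < s → s < dd Ω x → Tendsto (fun n => av ρ s (H n) x) U (𝓝 (W s x)) := by
    intro s x s0 st
    obtain ⟨B, hB'⟩ := h.bdd hb hB s0 st
    exact tendsto_nhds_limUnder (ultra_lim U (hU hB'))
  have Weq : ∀ s t ε, 0 < s → s < t → 0 < ε → ∃ δ > 0, (∀ᶠ n in atTop, ∀ x x', t ≤ dd Ω x →
      t ≤ dd Ω x' → ‖x - x'‖ ≤ δ → |av ρ s (H n) x - av ρ s (H n) x'| ≤ ε) ∧
      ∀ x x', t ≤ dd Ω x → t ≤ dd Ω x' → ‖x - x'‖ ≤ δ → |W s x - W s x'| ≤ ε := by
    intro s t ε s0 st ε0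
    obtain ⟨δ, δ0, hδ⟩ := h.equi hb hH hB s0 st ε0
    refine ⟨δ, δ0, hδ, fun x x' hx hx' hd => ?_⟩
    exact le_of_tendsto ((T1 s x s0 (st.trans_le hx)).sub (T1 s x' s0 (st.trans_le hx'))).abs
      (hU (hδ.mono fun n hn => hn x x' hx hx' hd))
  have UC : ∀ s t ε, 0 < s → s < t → 0 < ε → ∀ᶠ n in U, ∀ x, t ≤ dd Ω x →
      |av ρ s (H n) x - W s x| ≤ ε := by
    intro s t ε s0 st ε0
    obtain ⟨δ, δ0, h1, h2⟩ := Weq s t (ε / 3) s0 st (by positivity)
    obtain ⟨T, hT, Tf, cov⟩ := finite_cover_balls_of_compact (cpt_dd hb (s0.trans st)) δ0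
    have h3 : ∀ᶠ n in U, ∀ y ∈ T, |av ρ s (H n) y - W s y| ≤ ε / 3 := by
      refine (eventually_all_finite Tf).2 fun y hy => ?_
      filter_upwards [Metric.tendsto_nhds.1 (T1 s y s0 (st.trans_le (hT hy))) (ε / 3)
        (by positivity)] with n hn
      rw [Real.dist_eq] at hn; exact hn.le
    filter_upwards [h3, hU h1] with n h3 h1 x hx
    obtain ⟨y, hy, hxy⟩ := mem_iUnion₂.1 (cov hx)
    rw [mem_ball, dist_eq_norm] at hxy
    have a1 := abs_le.1 (h1 x y hx (hT hy) hxy.le)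
    have a2 := abs_le.1 (h2 x y hx (hT hy) hxy.le)
    have a3 := abs_le.1 (h3 y hy)
    rw [abs_le]; constructor <;> linarith [a1.1, a1.2, a2.1, a2.2, a3.1, a3.2]
  have Oo : ∀ s, IsOpen {x | s < dd Ω x} := fun s => isOpen_lt continuous_const (dd_cont Ω)
  have Wc : ∀ s, 0 < s → ContinuousOn (W s) {x | s < dd Ω x} := by
    intro s s0 x hx
    have hx' : s < dd Ω x := hx
    refine ContinuousAt.continuousWithinAt (Metric.continuousAt_iff'.2 fun ε ε0 => ?_)
    obtain ⟨δ, δ0, -, h2⟩ := Weq s ((s + dd Ω x) / 2) (ε / 2) s0 (by linarith) (by positivity)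
    filter_upwards [(Oo ((s + dd Ω x) / 2)).mem_nhds (show (s + dd Ω x) / 2 < dd Ω x by linarith),
      closedBall_mem_nhds x δ0] with y h3 h4
    rw [mem_closedBall, dist_eq_norm] at h4
    rw [Real.dist_eq]
    exact (h2 y x (le_of_lt h3) (by linarith) h4).trans_lt (by linarith)
  have cbO : ∀ x r s, r + s < dd Ω x → closedBall x r ⊆ {z | s < dd Ω z} := fun x r s hx z hz => by
    have := cb_dd (Ω := Ω) hz
    simp only [mem_setOf_eq]; linarith
  have uc : ∀ n s, 0 ≤ s → Continuous (av ρ s (H n)) := fun n s s0 =>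
    continuousOn_univ.1 (h.av_contOn s0 (hH n).continuousOn fun _ _ => subset_univ _)
  have T2 : ∀ r s x, 0 < r → 0 < s → r + s < dd Ω x →
      Tendsto (fun n => av ρ r (av ρ s (H n)) x) U (𝓝 (av ρ r (W s) x)) := by
    intro r s x r0 s0 hx
    refine Metric.tendsto_nhds.2 fun ε ε0 => ?_
    filter_upwards [UC s (dd Ω x - r) (ε / 2) s0 (by linarith) (by positivity)] with n hn
    rw [Real.dist_eq]
    exact (h.av_dist r0.le (uc n s s0.le).continuousOn ((Wc s s0).mono (cbO x r s hx))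
      fun z hz => hn z (cb_dd hz)).trans_lt (by linarith)
  have COMM : ∀ r s x, 0 < r → 0 < s → r + s < dd Ω x → av ρ r (W s) x = av ρ s (W r) x := by
    intro r s x r0 s0 hx
    refine tendsto_nhds_unique (T2 r s x r0 s0 hx) ?_
    refine (T2 s r x s0 r0 (by linarith)).congr fun n => ?_
    exact (h.av_comm r0.le s0.le (hH n).continuousOn).symm
  have imv : ∀ s, 0 < s → Imv ρ (W s) {x | s < dd Ω x} := by
    intro s s0 K hK kc ε ε0 s1 s10
    obtain ⟨τ, τ0, hτ⟩ : ∃ τ > 0, ∀ x ∈ K, s + 2 * τ ≤ dd Ω x := by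
      rcases K.eq_empty_or_nonempty with rfl | hne
      · exact ⟨1, one_pos, by simp⟩
      obtain ⟨x, hx, hm⟩ := kc.exists_isMinOn hne (dd_cont Ω).continuousOn
      have : s < dd Ω x := hK hx
      exact ⟨(dd Ω x - s) / 2, by linarith, fun y hy => by
        have : dd Ω x ≤ dd Ω y := hm hy
        linarith⟩
    obtain ⟨r0, r00, hr0⟩ := hS _ (fun z hz => mem_of_dd ((by positivity : 0 < 2 * τ).trans_le hz))
      (cpt_dd hb (by positivity : 0 < 2 * τ)) (ε / 2) (by positivity)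
    have step : ∀ r, 0 < r → r ≤ r0 → r ≤ τ → ∀ z, 2 * τ ≤ dd Ω z →
        |W r z - W (r / 2) z| ≤ ε / 2 * r ^ 2 := fun r r0' h1 h2 z hz =>
      le_of_tendsto ((T1 r z r0' (by linarith)).sub (T1 (r / 2) z (by positivity)
        (by linarith))).abs (hU (hr0 r r0' h1 z hz))
    set r := min (min r0 τ) s1 with hr
    have rp : 0 < r := by positivity
    have r1 : r ≤ r0 := (min_le_left _ _).trans (min_le_left _ _)
    have r2 : r ≤ τ := (min_le_left _ _).trans (min_le_right _ _)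
    have rj : ∀ j : ℕ, r / 2 ^ j ≤ r := fun j => div_le_self rp.le (one_le_pow₀ (by norm_num))
    have iter : ∀ j : ℕ, ∀ z, 2 * τ ≤ dd Ω z →
        |W r z - W (r / 2 ^ j) z| ≤ ε * r ^ 2 - ε * (r / 2 ^ j) ^ 2 := by
      intro j z hz
      induction j with
      | zero => simp
      | succ j ih =>
        have a1 := abs_le.1 (step (r / 2 ^ j) (by positivity) ((rj j).trans r1) ((rj j).trans r2)
          z hz)
        have a2 := abs_le.1 ih
        have e : r / 2 ^ (j + 1) = r / 2 ^ j / 2 := by rw [pow_succ, div_div]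
        have p : 0 ≤ ε * (r / 2 ^ j) ^ 2 := by positivity
        rw [e, abs_le]
        constructor <;> nlinarith [a1.1, a1.2, a2.1, a2.2]
    refine ⟨r, rp, min_le_right _ _, fun x hx => le_of_forall_pos_le_add fun η η0 => ?_⟩
    have dx := hτ x hx
    obtain ⟨q, q0, hq⟩ := h.av_near τ0 ((Wc s s0).mono (cbO x τ s (by linarith))) η0
    obtain ⟨j, hj⟩ := pow_unbounded_of_one_lt (r / q) (one_lt_two (α := ℝ))
    have jq : r / 2 ^ j ≤ q := by
      rw [div_le_iff₀ (by positivity)]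
      rw [div_lt_iff₀ q0] at hj
      linarith
    have jp : 0 < r / 2 ^ j := by positivity
    have a1 := abs_le.1 (hq _ jp.le jq)
    have jr := rj j
    have a2 := abs_le.1 (h.av_dist (x := x) s0.le ((Wc r rp).mono (cbO x s r (by linarith)))
      ((Wc _ jp).mono (cbO x s _ (by linarith))) (b := ε * r ^ 2) fun z hz =>
        (iter j z (by have := cb_dd (Ω := Ω) hz; linarith)).trans
          (sub_le_self _ (by positivity)))
    rw [← COMM r s x rp s0 (by linarith), ← COMM _ s x jp s0 (by linarith)] at a2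
    rw [abs_le]; constructor <;> linarith [a1.1, a1.2, a2.1, a2.2]
  have hm : ∀ s, 0 < s → HarmonicOnNhd (W s) {x | s < dd Ω x} := fun s s0 =>
    harm_of_circ (Oo s) (Wc s s0) fun x t t0 ht => h.circ_of_imv (Wc s s0) (imv s s0) t0 ht
  have ind0 : ∀ r s x, 0 < r → 0 < s → r + s < dd Ω x → W s x = W r x := by
    intro r s x r0 s0 hx
    rw [← h.av_harm r0.le ((hm s s0).mono (cbO x r s hx)), COMM r s x r0 s0 hx,
      h.av_harm s0.le ((hm r r0).mono (cbO x s r (by linarith)))]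
  have ind : ∀ r s x, 0 < r → 0 < s → r < dd Ω x → s < dd Ω x → W s x = W r x := by
    intro r s x r0 s0 h1 h2
    have q0 : 0 < min (dd Ω x - r) (dd Ω x - s) / 2 := half_pos (lt_min (by linarith) (by linarith))
    have q1 := min_le_left (dd Ω x - r) (dd Ω x - s)
    have q2 := min_le_right (dd Ω x - r) (dd Ω x - s)
    rw [ind0 _ s x q0 s0 (by linarith), ind0 _ r x q0 r0 (by linarith)]
  have Wf : ∀ s x, 0 < s → s < dd Ω x → W (dd Ω x / 2) x = W s x := fun s x s0 hx =>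
    ind _ _ x s0 (by linarith) hx (by linarith)
  have har : HarmonicOnNhd (fun x => W (dd Ω x / 2) x) Ω := by
    intro x hx
    have d0 := dd_pos ho hb hx
    have hx' : dd Ω x / 2 < dd Ω x := by linarith
    refine (harmonicAt_congr_nhds ?_).1 (hm _ (half_pos d0) x hx')
    filter_upwards [(Oo (dd Ω x / 2)).mem_nhds hx'] with y hy
    exact (Wf _ y (half_pos d0) hy).symm
  refine ⟨_, har, fun K hK kc ψ hψ ψ0 => Metric.tendsto_nhds.2 fun ε ε0 => ?_⟩
  obtain ⟨t, t0, ht⟩ := ex_dd ho hb hK kc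
  obtain ⟨δ, δ0, hδ⟩ := h.smooth ho hb hH hB hK kc hψ ψ0 (show 0 < ε / 3 by positivity)
  have s0 : 0 < min δ (t / 2) := by positivity
  have s1 : min δ (t / 2) < t := (min_le_right _ _).trans_lt (by linarith)
  have iψ : Integrable ψ := hψ.integrable_of_hasCompactSupport (HasCompactSupport.intro kc ψ0)
  have I0 : 0 ≤ ∫ z, |ψ z| := integral_nonneg fun z => abs_nonneg _
  filter_upwards [hU (hδ _ s0 (min_le_left _ _)),
    UC _ t (ε / 3 / ((∫ z, |ψ z|) + 1)) s0 s1 (by positivity)] with n h1 h2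
  have h3 : |(∫ z, av ρ (min δ (t / 2)) (H n) z * ψ z) - ∫ z, W (dd Ω z / 2) z * ψ z| ≤ ε / 3 := by
    rw [← integral_sub (intg_of kc (uc n _ s0.le).continuousOn hψ ψ0)
      (intg_of kc (har.continuousOn.mono hK) hψ ψ0)]
    rw [← Real.norm_eq_abs]
    refine (norm_integral_le_of_norm_le (iψ.abs.const_mul (ε / 3 / ((∫ z, |ψ z|) + 1)))
      (Eventually.of_forall fun z => ?_)).trans ?_
    · by_cases hz : z ∈ K
      · rw [← sub_mul, Real.norm_eq_abs, abs_mul, Wf _ z s0 (s1.trans_le (ht z hz))]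
        exact mul_le_mul_of_nonneg_right (h2 z (ht z hz)) (abs_nonneg _)
      · simp [ψ0 z hz]
    · rw [integral_const_mul, div_mul_eq_mul_div, div_le_iff₀ (by positivity)]
      nlinarith
  rw [Real.dist_eq, abs_lt]
  have a1 := abs_le.1 h1
  have a3 := abs_le.1 h3
  constructor <;> linarith [a1.1, a1.2, a3.1, a3.2]

end Pool.Agent.Lib.MP_6359c9_pr.End
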