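import Pool.Agent.Lib.MP_6359c9_pr.EndK

/-! Inputs of the model free end of the proof. -/

namespace Pool.Agent.Lib.MP_6359c9_pr.End

open MeasureTheory Metric Set Filter Topology Real
open scoped Laplacian

/-- local bound of the functions `H n` as measures -/
def HB (Ω : Set ℂ) (H : ℕ → ℂ → ℝ) : Prop :=
  ∀ K ⊆ Ω, IsCompact K → ∃ C : ℝ, ∀ᶠ n in atTop, ∀ f : ℂ → ℝ, Continuous f → (∀ z ∉ K, f z = 0) →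
    ∀ b, (∀ z, |f z| ≤ b) → |∫ z, H n z * f z| ≤ C * b

/-- local Schwinger-Dyson equation -/
def HSD (Ω : Set ℂ) (H : ℕ → ℂ → ℝ) (a : ℕ → ℝ) (φ : ℂ → ℝ) : Prop :=
  ∀ Ψ, Test (ball 0 1) Ψ → ∀ K ⊆ Ω, IsCompact K → ∀ ε > 0, ∃ r0 > 0, ∀ r, 0 < r → r ≤ r0 →
    ∀ x ∈ K, ∀ᶠ n in atTop,
      |(∫ z, H n z * Δ (scl Ψ x r) z) + a n * ∫ z, scl Ψ x r z * φ z| ≤ ε * r ^ 2

/-- uniform bound up to the boundary, at some scale -/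
def HM (Ω : Set ℂ) (H : ℕ → ℂ → ℝ) : Prop :=
  ∀ Ψ, Test (ball 0 1) Ψ → ∃ M : ℝ, ∀ x ∈ Ω, ∃ r, 0 < r ∧ r < infDist x Ωᶜ ∧
    ∀ᶠ n in atTop, |∫ z, H n z * scl Ψ x r z| ≤ M * r ^ 2

/-- Dirichlet condition off two small discs -/
def HD (Ω : Set ℂ) (z0 : ℂ) (H : ℕ → ℂ → ℝ) : Prop :=
  ∀ Ψ, Test (ball 0 1) Ψ → ∀ R > 0, ∀ ε > 0, ∃ η > 0, ∃ α β : ℕ → ℂ,
    (∀ᶠ n in atTop, infDist (α n) Ωᶜ ≤ R ∧ infDist (β n) Ωᶜ ≤ R) ∧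
    ∀ G ⊆ Ω, IsCompact G → IsConnected G → z0 ∈ G → ∀ x ∈ G, infDist x Ωᶜ ≤ η →
      ∃ r, 0 < r ∧ r < infDist x Ωᶜ ∧ ∀ᶠ n in atTop, Disjoint G (ball (α n) R) →
        Disjoint G (ball (β n) R) → |∫ z, H n z * scl Ψ x r z| ≤ ε * r ^ 2

/-- Dirichlet condition everywhere -/
def HD0 (Ω : Set ℂ) (H : ℕ → ℂ → ℝ) : Prop :=
  ∀ Ψ, Test (ball 0 1) Ψ → ∀ ε > 0, ∃ η > 0, ∀ x ∈ Ω, infDist x Ωᶜ ≤ η →
    ∃ r, 0 < r ∧ r < infDist x Ωᶜ ∧ ∀ᶠ n in atTop, |∫ z, H n z * scl Ψ x r z| ≤ ε * r ^ 2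

/-- pointwise form of `HD` -/
def HDp (Ω : Set ℂ) (z0 : ℂ) (H : ℕ → ℂ → ℝ) : Prop :=
  ∀ R > 0, ∀ ε > 0, ∃ η > 0, ∃ α β : ℕ → ℂ,
    (∀ᶠ n in atTop, infDist (α n) Ωᶜ ≤ R ∧ infDist (β n) Ωᶜ ≤ R) ∧
    ∀ G ⊆ Ω, IsCompact G → IsConnected G → z0 ∈ G → ∀ᶠ n in atTop, Disjoint G (ball (α n) R) →
      Disjoint G (ball (β n) R) → ∀ x ∈ G, infDist x Ωᶜ ≤ η → |H n x| ≤ ε

/-- pointwise form of `HD0` -/
def HD0p (Ω : Set ℂ) (H : ℕ → ℂ → ℝ) : Prop :=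
  ∀ ε > 0, ∃ η > 0, ∀ K ⊆ Ω, IsCompact K → ∀ᶠ n in atTop,
    ∀ x ∈ K, infDist x Ωᶜ ≤ η → |H n x| ≤ ε

/-- a sequence of random continuous fields `Φ n`, uniform on the finite sets `S n` -/
structure Fld (O : Type) where
  S : ℕ → Set O
  fin : ∀ n, (S n).Finite
  ne : ∀ n, (S n).Nonempty
  Φ : ℕ → O → ℂ → ℝ
  cont : ∀ n w, Continuous (Φ n w)

/-- pairing with a test function -/
noncomputable def Fld.X {O : Type} (A : Fld O) (φ : ℂ → ℝ) (n : ℕ) (w : O) : ℝ :=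
  ∫ z, A.Φ n w z * φ z

/-- real part of `E [Φ z exp (i X)]` -/
noncomputable def Fld.Hc {O : Type} (A : Fld O) (φ : ℂ → ℝ) (n : ℕ) (z : ℂ) : ℝ :=
  mean (A.S n) fun w => A.Φ n w z * cos (A.X φ n w)

/-- imaginary part of `E [Φ z exp (i X)]` -/
noncomputable def Fld.Hs {O : Type} (A : Fld O) (φ : ℂ → ℝ) (n : ℕ) (z : ℂ) : ℝ :=
  mean (A.S n) fun w => A.Φ n w z * sin (A.X φ n w)

/-- moments, uniformly for bounded continuous functions supported in a compact set -/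
def Fld.Mom {O : Type} (A : Fld O) (Ω : Set ℂ) : Prop :=
  ∀ K ⊆ Ω, IsCompact K → ∀ q : ℕ, ∃ C : ℝ, ∀ᶠ n in atTop, ∀ f : ℂ → ℝ, Continuous f →
    (∀ z ∉ K, f z = 0) → (∀ z, |f z| ≤ 1) → mean (A.S n) (fun w => A.X f n w ^ (2 * q)) ≤ C

/-- Schwinger-Dyson: `E [(Φ, Δ ψ) exp (i X)] + i κ (ψ, φ) E exp (i X)` is small -/
def Fld.SD {O : Type} (A : Fld O) (Ω : Set ℂ) (κ : ℝ) : Prop :=
  ∀ φ, Test Ω φ →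
    HSD Ω (A.Hc φ) (fun n => -κ * mean (A.S n) fun w => sin (A.X φ n w)) φ ∧
    HSD Ω (A.Hs φ) (fun n => κ * mean (A.S n) fun w => cos (A.X φ n w)) φ

/-- first moments at a scale below the distance to the boundary -/
def Fld.Bd {O : Type} (A : Fld O) (Ω : Set ℂ) : Prop :=
  ∀ Ψ, Test (ball 0 1) Ψ → ∃ M : ℝ, ∀ x ∈ Ω, ∃ r, 0 < r ∧ r < infDist x Ωᶜ ∧
    ∀ᶠ n in atTop, mean (A.S n) (fun w => |A.X (scl Ψ x r) n w|) ≤ M * r ^ 2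

/-- Dirichlet condition off two small discs -/
def Fld.Dir {O : Type} (A : Fld O) (Ω : Set ℂ) (z0 : ℂ) : Prop :=
  ∀ φ, Test Ω φ → HD Ω z0 (A.Hc φ) ∧ HD Ω z0 (A.Hs φ)

/-- Dirichlet condition everywhere -/
def Fld.Dir0 {O : Type} (A : Fld O) (Ω : Set ℂ) : Prop :=
  ∀ φ, Test Ω φ → HD0 Ω (A.Hs φ)

end Pool.Agent.Lib.MP_6359c9_pr.End
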