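import Pool.Agent.Lib.MP_6359c9_pr.EndM
import Pool.Agent.Lib.MP_6359c9_pr.Fund

/-! Gaussian limit of a sequence of random fields from the Schwinger-Dyson equation. -/

namespace Pool.Agent.Lib.MP_6359c9_pr.End

open MeasureTheory Metric Set Filter Topology Real ProbabilityTheory Matrix InnerProductSpace
open scoped RealInnerProductSpace Laplacian

variable {Ω : Set ℂ} {φ ψ u v : ℂ → ℝ} {O : Type} {A : Fld O} {κ : ℝ} {z0 : ℂ}

lemma fundSt : FundSt := fun _ h1 h2 w => Pl.fund h1 h2 w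

lemma Test.smul (h : Test Ω φ) (t : ℝ) : Test Ω fun z => t * φ z :=
  ⟨contDiff_const.mul h.1, h.2.1.mul_left, tsupport_mul_subset_right.trans h.2.2⟩

lemma Test.add (h : Test Ω φ) (h' : Test Ω ψ) : Test Ω fun z => φ z + ψ z :=
  ⟨h.1.add h'.1, h.2.1.add h'.2.1, (tsupport_add φ ψ).trans (union_subset h.2.2 h'.2.2)⟩

lemma Green.smul (ho : IsOpen Ω) (h : Green Ω φ u) (t : ℝ) :
    Green Ω (fun z => t * φ z) fun z => t * u z :=
  ⟨contDiffOn_const.mul h.1, fun z hz => by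
    have := laplacian_smul t (h.1.contDiffAt (ho.mem_nhds hz))
    rw [h.2.1 z hz, smul_eq_mul, mul_neg] at this
    exact this, fun w hw => by simpa using (h.2.2 w hw).const_mul t⟩

lemma Green.add (ho : IsOpen Ω) (h : Green Ω φ u) (h' : Green Ω ψ v) :
    Green Ω (fun z => φ z + ψ z) fun z => u z + v z :=
  ⟨h.1.add h'.1, fun z hz => by
    have := (h.1.contDiffAt (ho.mem_nhds hz)).laplacian_add (h'.1.contDiffAt (ho.mem_nhds hz))
    rw [h.2.1 z hz, h'.2.1 z hz, ← neg_add] at this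
    exact this, fun w hw => by simpa using (h.2.2 w hw).add (h'.2.2 w hw)⟩

lemma lin {ι : Type} (ho : IsOpen Ω) {φ u : ι → ℂ → ℝ} (hφ : ∀ i, Test Ω (φ i))
    (hu : ∀ i, Green Ω (φ i) (u i)) (i0 : ι) (θ : ι → ℝ) (s : Finset ι) :
    Test Ω (fun z => ∑ i ∈ s, θ i * φ i z) ∧
      Green Ω (fun z => ∑ i ∈ s, θ i * φ i z) fun z => ∑ i ∈ s, θ i * u i z := by
  classical
  induction s using Finset.induction_on with
  | empty => simpa using And.intro (Test.smul (hφ i0) 0) (Green.smul ho (hu i0) 0)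
  | insert i s hi ih =>
    simp only [Finset.sum_insert hi]
    exact ⟨Test.add (Test.smul (hφ i) _) ih.1, Green.add ho (Green.smul ho (hu i) _) ih.2⟩

lemma Fld.intg (A : Fld O) (h : Test Ω φ) (n : ℕ) (w : O) : Integrable fun z => A.Φ n w z * φ z :=
  intg_of h.2.1 (A.cont n w).continuousOn h.1.continuous Test.off

lemma Fld.X_smul (A : Fld O) (t : ℝ) (φ : ℂ → ℝ) (n : ℕ) (w : O) :
    A.X (fun z => t * φ z) n w = t * A.X φ n w := by
  simp only [Fld.X, ← integral_const_mul, mul_left_comm t]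

/-- the field with a weight -/
noncomputable def Fld.Hw (A : Fld O) (c : ℕ → O → ℝ) (n : ℕ) (z : ℂ) : ℝ :=
  mean (A.S n) fun w => A.Φ n w z * c n w

lemma Fld.Hw_cont (A : Fld O) (c : ℕ → O → ℝ) (n : ℕ) : Continuous (A.Hw c n) :=
  mean_cont (A.fin n) fun w => (A.cont n w).mul continuous_const

lemma Fld.int_Hw (A : Fld O) (c : ℕ → O → ℝ) (n : ℕ) {K : Set ℂ} (kc : IsCompact K) {f : ℂ → ℝ}
    (fc : Continuous f) (f0 : ∀ z ∉ K, f z = 0) :
    ∫ z, A.Hw c n z * f z = mean (A.S n) fun w => A.X f n w * c n w := by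
  have : ∀ z, A.Hw c n z * f z = mean (A.S n) fun w => A.Φ n w z * f z * c n w := fun z => by
    rw [Fld.Hw, mul_comm, ← mean_mul (A.fin n)]
    congr 1; ext w; ring
  simp only [this]
  rw [mean_int (A.fin n) fun w => (intg_of kc (A.cont n w).continuousOn fc f0).mul_const _]
  simp only [integral_mul_const, Fld.X]

lemma Fld.Hw_le (A : Fld O) {c : ℕ → O → ℝ} (hc : ∀ n w, |c n w| ≤ 1) (n : ℕ) {K : Set ℂ}
    (kc : IsCompact K) {f : ℂ → ℝ} (fc : Continuous f) (f0 : ∀ z ∉ K, f z = 0) :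
    |∫ z, A.Hw c n z * f z| ≤ mean (A.S n) fun w => |A.X f n w| := by
  rw [A.int_Hw c n kc fc f0]
  refine abs_mean_le (A.fin n) fun w _ => ?_
  rw [abs_mul]
  exact mul_le_of_le_one_right (abs_nonneg _) (hc n w)

lemma Fld.Mom.pow (h : A.Mom Ω) {K : Set ℂ} (hK : K ⊆ Ω) (kc : IsCompact K) (q : ℕ) :
    ∃ C : ℝ, ∀ᶠ n in atTop, ∀ f : ℂ → ℝ, Continuous f → (∀ z ∉ K, f z = 0) →
      ∀ b, (∀ z, |f z| ≤ b) → mean (A.S n) (fun w => |A.X f n w| ^ q) ≤ (1 + C) * b ^ q := by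
  obtain ⟨C, hC⟩ := h K hK kc q
  refine ⟨C, hC.mono fun n hn f fc f0 b hb => ?_⟩
  have b0 : 0 ≤ b := (abs_nonneg _).trans (hb 0)
  have h1 := hn (fun z => f z / b) (fc.div_const b) (fun z hz => by rw [f0 z hz, zero_div])
    fun z => by rw [abs_div, abs_of_nonneg b0]; exact div_le_one_of_le₀ (hb z) b0
  have e : f = fun z => b * (f z / b) := funext fun z => by
    rcases b0.eq_or_lt with rfl | b0
    · simpa using hb z
    · field_simp
  calc _ ≤ mean (A.S n) fun w => b ^ q * (1 + A.X (fun z => f z / b) n w ^ (2 * q)) := by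
        refine mean_mono (A.fin n) fun w _ => ?_
        conv_lhs => rw [e]
        rw [A.X_smul, abs_mul, mul_pow, abs_of_nonneg b0, mul_comm 2, pow_mul, ← sq_abs (_ ^ q),
          abs_pow]
        refine mul_le_mul_of_nonneg_left ?_ (by positivity)
        nlinarith [sq_nonneg (|A.X (fun z => f z / b) n w| ^ q - 1)]
    _ ≤ _ := by
        rw [mean_mul (A.fin n), mean_add (A.fin n), mean_const (A.fin n) (A.ne n), mul_comm]
        exact mul_le_mul_of_nonneg_right (by linarith) (by positivity)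

lemma Fld.Mom.hb (h : A.Mom Ω) {c : ℕ → O → ℝ} (hc : ∀ n w, |c n w| ≤ 1) : HB Ω (A.Hw c) := by
  intro K hK kc
  obtain ⟨C, hC⟩ := h.pow hK kc 1
  exact ⟨1 + C, hC.mono fun n hn f fc f0 b hb =>
    (A.Hw_le hc n kc fc f0).trans (by simpa using hn f fc f0 b hb)⟩

lemma Fld.Mom.test (h : A.Mom Ω) (hφ : Test Ω φ) (q : ℕ) :
    ∃ C : ℝ, ∀ᶠ n in atTop, mean (A.S n) (fun w => |A.X φ n w| ^ q) ≤ C := by
  obtain ⟨C, hC⟩ := h.pow hφ.2.2 hφ.2.1 q
  obtain ⟨b, hb⟩ := hφ.2.1.exists_bound_of_continuous hφ.1.continuous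
  exact ⟨_, hC.mono fun n hn => hn φ hφ.1.continuous Test.off b hb⟩

lemma Fld.Bd.hm (h : A.Bd Ω) {c : ℕ → O → ℝ} (hc : ∀ n w, |c n w| ≤ 1) : HM Ω (A.Hw c) := by
  intro Ψ hΨ
  obtain ⟨M, hM⟩ := h Ψ hΨ
  refine ⟨M, fun x hx => ?_⟩
  obtain ⟨r, r0, hr, hn⟩ := hM x hx
  exact ⟨r, r0, hr, hn.mono fun n hn => (A.Hw_le hc n (isCompact_closedBall x r)
    (scl_cd hΨ x r).continuous (scl_off hΨ r0)).trans hn⟩

lemma Fld.mean_le (A : Fld O) (n : ℕ) {c : O → ℝ} (hc : ∀ w, |c w| ≤ 1) :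
    |mean (A.S n) c| ≤ 1 :=
  (abs_mean_le (A.fin n) fun w _ => hc w).trans_eq (mean_const (A.fin n) (A.ne n) 1)

lemma Fld.kmean_le (A : Fld O) (κ : ℝ) (n : ℕ) {c : O → ℝ} (hc : ∀ w, |c w| ≤ 1) :
    |κ * mean (A.S n) c| ≤ |κ| := by
  rw [abs_mul]; exact mul_le_of_le_one_right (abs_nonneg _) (A.mean_le n hc)

/-- existence of Green potentials from one field with the full Dirichlet condition -/
theorem exists_green (ho : IsOpen Ω) (hb : Bornology.IsBounded Ω) (κ0 : 0 < κ) (hM : A.Mom Ω)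
    (hS : A.SD Ω κ) (hD : A.Dir0 Ω) (hφ : Test Ω φ) : ∃ u, Green Ω φ u := by
  obtain ⟨C, hC⟩ := hM.test hφ 2
  have t0 : 0 < (|C| + 1)⁻¹ := by positivity
  set t := (|C| + 1)⁻¹ with ht
  have h' := Test.smul hφ t
  obtain ⟨u, hu⟩ := ex_green fundSt ho hb (A.Hw_cont _) (hM.hb fun _ _ => abs_sin_le_one _) h'
    (hS _ h').2 (hD _ h') (fun n => A.kmean_le κ n fun _ => abs_cos_le_one _) (c := κ * (1 / 2))
    (by positivity) (hC.mono fun n hn => mul_le_mul_of_nonneg_left (by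
      have h1 := mean_mono (A.fin n) (f := fun w => 1 - t ^ 2 / 2 * |A.X φ n w| ^ 2)
        (g := fun w => cos (A.X (fun z => t * φ z) n w)) fun w _ => by
          have := one_sub_sq_div_two_le_cos (x := t * A.X φ n w)
          rw [A.X_smul, sq_abs]; linarith
      rw [mean_sub (A.fin n), mean_mul (A.fin n), mean_const (A.fin n) (A.ne n)] at h1
      have h2 : t ^ 2 * C ≤ 1 := by
        rw [ht, inv_pow, inv_mul_le_iff₀ (by positivity)]
        nlinarith [le_abs_self C, abs_nonneg C]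
      nlinarith [sq_nonneg t]) κ0.le)
  refine ⟨fun z => t⁻¹ * u z, ?_⟩
  simpa only [inv_mul_cancel_left₀ t0.ne'] using Green.smul ho hu t⁻¹

/-- all inputs -/
structure Fld.In (A : Fld O) (Ω : Set ℂ) (κ : ℝ) (z0 : ℂ) : Prop where
  ho : IsOpen Ω
  hc : IsConnected Ω
  hb : Bornology.IsBounded Ω
  hz : z0 ∈ Ω
  mom : A.Mom Ω
  sd : A.SD Ω κ
  bd : A.Bd Ω
  dir : A.Dir Ω z0

lemma Fld.In.sin (h : A.In Ω κ z0) (hφ : Test Ω φ) (hu : Green Ω φ u) (hψ : Test Ω ψ) (t : ℝ) :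
    Tendsto (fun n => mean (A.S n) (fun w => A.X ψ n w * sin (t * A.X φ n w)) -
      κ * (∫ z in Ω, ψ z * u z) * t * mean (A.S n) fun w => cos (t * A.X φ n w)) atTop (𝓝 0) := by
  have h' := Test.smul hφ t
  refine (conv fundSt h.ho h.hc h.hb h.hz (A.Hw_cont _) (h.mom.hb fun _ _ => abs_sin_le_one _) h'
    (h.sd _ h').2 (h.bd.hm fun _ _ => abs_sin_le_one _) (h.dir _ h').2
    (fun n => A.kmean_le κ n fun _ => abs_cos_le_one _) (Green.smul h.ho hu t) hψ).congr
    fun n => ?_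
  rw [A.int_Hw _ n hψ.2.1 hψ.1.continuous Test.off]
  simp only [A.X_smul, mul_left_comm _ t, integral_const_mul]
  ring

lemma Fld.In.cos (h : A.In Ω κ z0) (hφ : Test Ω φ) (hu : Green Ω φ u) (hψ : Test Ω ψ) (t : ℝ) :
    Tendsto (fun n => mean (A.S n) (fun w => A.X ψ n w * cos (t * A.X φ n w)) +
      κ * (∫ z in Ω, ψ z * u z) * t * mean (A.S n) fun w => Real.sin (t * A.X φ n w)) atTop
      (𝓝 0) := by
  have h' := Test.smul hφ t
  refine (conv fundSt h.ho h.hc h.hb h.hz (A.Hw_cont _) (h.mom.hb fun _ _ => abs_cos_le_one _) h'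
    (h.sd _ h').1 (h.bd.hm fun _ _ => abs_cos_le_one _) (h.dir _ h').1
    (fun n => A.kmean_le (-κ) n fun _ => abs_sin_le_one _) (Green.smul h.ho hu t) hψ).congr
    fun n => ?_
  rw [A.int_Hw _ n hψ.2.1 hψ.1.continuous Test.off]
  simp only [A.X_smul, mul_left_comm _ t, integral_const_mul]
  ring

lemma Fld.In.chi (h : A.In Ω κ z0) (hφ : Test Ω φ) (hu : Green Ω φ u) :
    Tendsto (fun n => mean (A.S n) fun w => Real.cos (A.X φ n w)) atTop
      (𝓝 (exp (-(κ * ∫ z in Ω, φ z * u z) / 2))) ∧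
    Tendsto (fun n => mean (A.S n) fun w => Real.sin (A.X φ n w)) atTop (𝓝 0) := by
  obtain ⟨B, hB⟩ := h.mom.test hφ 1
  have bd : ∀ g : ℝ → ℝ, (∀ s, |g s| ≤ 1) → ∀ᶠ n in atTop, ∀ t : ℝ,
      |mean (A.S n) fun w => A.X φ n w * g (t * A.X φ n w)| ≤ B := fun g hg =>
    hB.mono fun n hn t => (abs_mean_le (A.fin n) fun w _ => by
      rw [abs_mul, pow_one]; exact mul_le_of_le_one_right (abs_nonneg _) (hg _)).trans hn
  constructor
  · have := ode (c := fun n t => mean (A.S n) fun w => Real.cos (t * A.X φ n w))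
      (d := fun n t => mean (A.S n) fun w => A.X φ n w * -Real.sin (t * A.X φ n w))
      (fun n t => mean_der (A.fin n) fun w =>
        (hasDerivAt_mul_const (A.X φ n w)).cos.congr_deriv (by ring))
      (fun n => mean_cont (A.fin n) fun w => by fun_prop) (k := κ * ∫ z in Ω, φ z * u z) (a := 1)
      ((bd (fun s => -Real.sin s) fun s => by rw [abs_neg]; exact abs_sin_le_one s).mono
        fun n hn t => ⟨A.mean_le n fun _ => abs_cos_le_one _, hn t⟩)
      (fun t => by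
        have := (h.sin hφ hu hφ t).neg
        rw [neg_zero] at this
        refine this.congr fun n => ?_
        simp only [mul_neg, mean_neg (A.fin n)]; ring)
      (fun n => by simp [mean_const (A.fin n) (A.ne n)])
    simpa only [one_mul, mul_one] using this
  · have := ode (c := fun n t => mean (A.S n) fun w => Real.sin (t * A.X φ n w))
      (d := fun n t => mean (A.S n) fun w => A.X φ n w * Real.cos (t * A.X φ n w))
      (fun n t => mean_der (A.fin n) fun w =>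
        (hasDerivAt_mul_const (A.X φ n w)).sin.congr_deriv (by ring))
      (fun n => mean_cont (A.fin n) fun w => by fun_prop) (k := κ * ∫ z in Ω, φ z * u z) (a := 0)
      ((bd Real.cos abs_cos_le_one).mono
        fun n hn t => ⟨A.mean_le n fun _ => abs_sin_le_one _, hn t⟩)
      (h.cos hφ hu hφ) (fun n => by simp [mean_const (A.fin n) (A.ne n)])
    simpa only [one_mul, mul_zero] using this

lemma sin_sym (x y : ℝ) {t : ℝ} (t0 : 0 < t) :
    |y * sin (t * x) - x * sin (t * y)| ≤ t ^ 3 * (|x| ^ 4 + |y| ^ 4) := by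
  have h1 := abs_sub_sin_le (t * x)
  have h2 := abs_sub_sin_le (t * y)
  rw [abs_mul, abs_of_pos t0, mul_pow] at h1 h2
  rw [show y * sin (t * x) - x * sin (t * y) =
    x * (t * y - sin (t * y)) - y * (t * x - sin (t * x)) by ring]
  refine (abs_sub _ _).trans ?_
  rw [abs_mul, abs_mul]
  have a := abs_nonneg x
  have b := abs_nonneg y
  refine (add_le_add (mul_le_mul_of_nonneg_left h2 a) (mul_le_mul_of_nonneg_left h1 b)).trans ?_
  generalize |x| = p, |y| = q at *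
  have : p * q ^ 3 + q * p ^ 3 ≤ p ^ 4 + q ^ 4 := by
    nlinarith [mul_nonneg (sq_nonneg (p - q)) (by positivity : 0 ≤ p ^ 2 + p * q + q ^ 2)]
  have t3 : 0 < t ^ 3 := by positivity
  nlinarith [mul_le_mul_of_nonneg_left this t3.le, (by positivity : 0 ≤ t ^ 3 * (p ^ 4 + q ^ 4))]

lemma Fld.In.sym (h : A.In Ω κ z0) (hφ : Test Ω φ) (hu : Green Ω φ u) (hψ : Test Ω ψ)
    (hv : Green Ω ψ v) : κ * ∫ z in Ω, ψ z * u z = κ * ∫ z in Ω, φ z * v z := by
  have lim : ∀ {φ u ψ}, Test Ω φ → Green Ω φ u → Test Ω ψ → ∀ t : ℝ,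
      Tendsto (fun n => mean (A.S n) fun w => A.X ψ n w * Real.sin (t * A.X φ n w)) atTop
        (𝓝 (t * (κ * (∫ z in Ω, ψ z * u z) * exp (-(κ * (t * (t * ∫ z in Ω, φ z * u z))) / 2)))) := by
    intro φ u ψ hφ hu hψ t
    have h1 := (h.chi (Test.smul hφ t) (Green.smul h.ho hu t)).1
    simp only [A.X_smul, mul_assoc t, mul_left_comm (φ _) t, integral_const_mul] at h1
    have := (h.sin hφ hu hψ t).add (h1.const_mul (κ * (∫ z in Ω, ψ z * u z) * t))
    simp only [sub_add_cancel, zero_add] at this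
    convert this using 2
    ring
  obtain ⟨C, hC⟩ := h.mom.test hφ 4
  obtain ⟨D, hD⟩ := h.mom.test hψ 4
  set a := κ * ∫ z in Ω, ψ z * u z
  set b := κ * ∫ z in Ω, φ z * v z
  set f : ℝ → ℝ := fun t => |a * exp (-(κ * (t * (t * ∫ z in Ω, φ z * u z))) / 2) -
    b * exp (-(κ * (t * (t * ∫ z in Ω, ψ z * v z))) / 2)| - t ^ 2 * (C + D) with hf
  have fc : Continuous f := by fun_prop
  have : f 0 ≤ 0 := by
    refine le_of_tendsto (x := 𝓝[>] (0 : ℝ)) (fc.continuousAt.tendsto.mono_left nhdsWithin_le_nhds) ?_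
    filter_upwards [self_mem_nhdsWithin] with t ht
    have t0 : 0 < t := ht
    have := le_of_tendsto ((lim hφ hu hψ t).sub (lim hψ hv hφ t)).abs (b := t ^ 3 * (C + D)) (by
      filter_upwards [hC, hD] with n h1 h2
      rw [← mean_sub (A.fin n)]
      refine (abs_mean_le (A.fin n) fun w _ => sin_sym _ _ t0).trans ?_
      rw [mean_mul (A.fin n), mean_add (A.fin n)]
      exact mul_le_mul_of_nonneg_left (add_le_add h1 h2) (by positivity))
    rw [← mul_sub, abs_mul, abs_of_pos t0, pow_succ' t 2, mul_assoc t] at this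
    exact sub_nonpos.2 (le_of_mul_le_mul_left this t0)
  simpa [hf, sub_eq_zero] using this

lemma Fld.mom_sum (A : Fld O) {ι : Type} {Y : ι → ℕ → O → ℝ} (p : ℕ)
    (h : ∀ i, ∃ C : ℝ, ∀ᶠ n in atTop, mean (A.S n) (fun w => |Y i n w| ^ p) ≤ C) (s : Finset ι) :
    ∃ C : ℝ, ∀ᶠ n in atTop, mean (A.S n) (fun w => (1 + ∑ i ∈ s, |Y i n w|) ^ p) ≤ C := by
  classical
  induction s using Finset.induction_on with
  | empty => exact ⟨1, Eventually.of_forall fun n => by simp [mean_const (A.fin n) (A.ne n)]⟩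
  | insert i s hi ih =>
    obtain ⟨C, hC⟩ := ih
    obtain ⟨D, hD⟩ := h i
    refine ⟨2 ^ (p - 1) * (C + D), ?_⟩
    filter_upwards [hC, hD] with n h1 h2
    refine (mean_mono (A.fin n) (g := fun w => 2 ^ (p - 1) *
      ((1 + ∑ i ∈ s, |Y i n w|) ^ p + |Y i n w| ^ p)) fun w _ => ?_).trans ?_
    · rw [Finset.sum_insert hi, add_comm |Y i n w|, ← add_assoc]
      exact add_pow_le (by positivity) (abs_nonneg _) p
    · rw [mean_mul (A.fin n), mean_add (A.fin n)]
      exact mul_le_mul_of_nonneg_left (add_le_add h1 h2) (by positivity)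

/-- convergence to the Gaussian law -/
theorem Fld.In.gauss (h : A.In Ω κ z0) {k : ℕ} {φ u : Fin k → ℂ → ℝ} (hφ : ∀ i, Test Ω (φ i))
    (hu : ∀ i, Green Ω (φ i) (u i)) :
    (Matrix.of fun i j => κ * ∫ z in Ω, φ i z * u j z).PosSemidef ∧
    ∀ F : EuclideanSpace ℝ (Fin k) → ℝ, Continuous F →
      (∃ (C : ℝ) (p : ℕ), ∀ x, |F x| ≤ C * (1 + ‖x‖) ^ p) →
      Tendsto (fun n => mean (A.S n) fun w => F (WithLp.toLp 2 fun i => A.X (φ i) n w)) atTop
        (𝓝 (∫ x, F x ∂multivariateGaussian 0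
          (Matrix.of fun i j => κ * ∫ z in Ω, φ i z * u j z))) := by
  set B := Matrix.of fun i j => κ * ∫ z in Ω, φ i z * u j z with hB
  have key : ∀ θ : Fin k → ℝ,
      Tendsto (fun n => mean (A.S n) fun w => Real.cos (∑ i, θ i * A.X (φ i) n w)) atTop
        (𝓝 (exp (-(θ ⬝ᵥ B *ᵥ θ) / 2))) ∧
      Tendsto (fun n => mean (A.S n) fun w => Real.sin (∑ i, θ i * A.X (φ i) n w)) atTop
        (𝓝 0) := by
    intro θ
    rcases isEmpty_or_nonempty (Fin k) with e | ⟨⟨i0⟩⟩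
    · simp [dotProduct, mean_const (A.fin _) (A.ne _)]
    obtain ⟨h1, h2⟩ := lin h.ho hφ hu i0 θ Finset.univ
    have := h.chi h1 h2
    have e1 : ∀ n w, A.X (fun z => ∑ i, θ i * φ i z) n w = ∑ i, θ i * A.X (φ i) n w := by
      intro n w
      simp only [← A.X_smul]
      simp only [Fld.X, Finset.mul_sum]
      exact integral_finsetSum _ fun i _ => A.intg (Test.smul (hφ i) _) n w
    have ii : ∀ i j, IntegrableOn (fun z => φ i z * u j z) Ω := fun i j => by
      simp only [mul_comm (φ i _)]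
      exact (intg_of (hφ i).2.1 ((hu j).1.continuousOn.mono (hφ i).2.2) (hφ i).1.continuous
        Test.off).integrableOn
    have e2 : κ * ∫ z in Ω, (∑ i, θ i * φ i z) * ∑ i, θ i * u i z = θ ⬝ᵥ B *ᵥ θ := by
      simp only [Finset.sum_mul_sum, mul_mul_mul_comm (θ _) (φ _ _)]
      rw [integral_finsetSum _ fun i _ => integrable_finsetSum _ fun j _ => (ii i j).const_mul _]
      simp only [dotProduct, mulVec, hB, of_apply, Finset.mul_sum]
      refine Finset.sum_congr rfl fun i _ => ?_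
      rw [integral_finsetSum _ fun j _ => (ii i j).const_mul _, Finset.mul_sum]
      refine Finset.sum_congr rfl fun j _ => ?_
      rw [integral_const_mul]; ring
    simpa only [e1, e2] using this
  have psd : B.PosSemidef := by
    refine PosSemidef.of_dotProduct_mulVec_nonneg (IsHermitian.ext fun i j => ?_) fun θ => ?_
    · exact h.sym (hφ i) (hu i) (hφ j) (hu j)
    · have := le_of_tendsto' (key θ).1 fun n =>
        (le_abs_self _).trans (A.mean_le n fun _ => abs_cos_le_one _)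
      rw [exp_le_one_iff] at this
      rw [star_trivial]; linarith
  have inn : ∀ (θ : EuclideanSpace ℝ (Fin k)) n w,
      ⟪WithLp.toLp 2 fun i => A.X (φ i) n w, θ⟫ = ∑ i, θ i * A.X (φ i) n w := fun θ n w => by
    simp [PiLp.inner_apply]
  refine ⟨psd, fun F Fc hF => levy A.fin A.ne psd (fun θ => ?_) (fun θ => ?_) (fun p => ?_) Fc hF⟩
  · simpa only [inn] using (key θ).1
  · simpa only [inn] using (key θ).2
  · obtain ⟨C, hC⟩ := A.mom_sum p (fun i => h.mom.test (hφ i) p) Finset.univ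
    refine ⟨C, hC.mono fun n hn => (mean_mono (A.fin n) fun w _ => ?_).trans hn⟩
    gcongr
    rw [EuclideanSpace.norm_eq, sqrt_le_left (by positivity)]
    simpa only [Real.norm_eq_abs] using
      Finset.sum_sq_le_sq_sum_of_nonneg fun i _ => abs_nonneg (A.X (φ i) n w)

end Pool.Agent.Lib.MP_6359c9_pr.End
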