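import Pool.Agent.Lib.MP_6359c9_pr.Lat

/-! Definitions used in the final statement for MP_6359c9_pr (Q2). FROZEN. -/

namespace Pool.Agent.Lib.MP_6359c9_pr

open Filter Topology

/-- the point `δ (a + b exp (i π / 3))` of the lattice of mesh `δ` -/
noncomputable def pos (δ : ℝ) (v : V) : ℂ := ⟨δ * (v.1 + v.2 / 2), δ * (v.2 * (√3 / 2))⟩

/-- a bounded domain `D` whose boundary is the simple closed lattice path `c 0, …, c n = c 0`;
the arc `∂₊` carries the vertices `c 0, …, c (m - 1)`, the arc `∂₋` the vertices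
`c m, …, c (n - 1)`, so the two arcs meet at the midpoints of the edges `c (m - 1) c m` and
`c (n - 1) c n` -/
structure Dom (δ : ℝ) where
  D : Set ℂ
  n : ℕ
  m : ℕ
  c : ℕ → V
  isOpen : IsOpen D
  conn : IsConnected D
  bdd : Bornology.IsBounded D
  three : 3 ≤ n
  m_pos : 0 < m
  m_lt : m < n
  adj : ∀ i < n, Adj (c i) (c (i + 1))
  closed : c n = c 0
  simple : ∀ i < n, ∀ j < n, c i = c j → i = j
  bdry : frontier D = ⋃ i < n, segment ℝ (pos δ (c i)) (pos δ (c (i + 1)))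

/-- height functions: odd on the vertices of the closed domain (zero elsewhere), `1` on `∂₊`,
`-1` on `∂₋`, differences `0` or `2` along edges -/
def Dom.H {δ : ℝ} (Q : Dom δ) : Set (V → ℤ) :=
  {h | (∀ v, pos δ v ∉ closure Q.D → h v = 0) ∧ (∀ v, pos δ v ∈ closure Q.D → Odd (h v)) ∧
    (∀ i < Q.m, h (Q.c i) = 1) ∧ (∀ i, Q.m ≤ i → i < Q.n → h (Q.c i) = -1) ∧
    ∀ u v, pos δ u ∈ closure Q.D → pos δ v ∈ closure Q.D → Adj u v →
      |h u - h v| = 0 ∨ |h u - h v| = 2}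

/-- expectation under the uniform law on a finite set -/
noncomputable def mean {α : Type} (S : Set α) (f : α → ℝ) : ℝ := (∑ᶠ x ∈ S, f x) / S.ncard

/-- the extension of `h` that is affine on each triangle of the lattice of mesh `δ`:
`z = δ (x + y exp (i π / 3))`, with integer parts `a, b` and fractional parts `s, t` of `x, y` -/
noncomputable def ext (δ : ℝ) (h : V → ℤ) (z : ℂ) : ℝ :=
  let y := z.im / δ / (√3 / 2)
  let x := z.re / δ - y / 2
  let a := ⌊x⌋
  let b := ⌊y⌋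
  let s := Int.fract x
  let t := Int.fract y
  if s + t ≤ 1 then (1 - s - t) * h (a, b) + s * h (a + 1, b) + t * h (a, b + 1)
  else (s + t - 1) * h (a + 1, b + 1) + (1 - t) * h (a + 1, b) + (1 - s) * h (a, b + 1)

/-- the pairing `∫ (h - E h) φ` -/
noncomputable def Dom.pair {δ : ℝ} (Q : Dom δ) (φ : ℂ → ℝ) (h : V → ℤ) : ℝ :=
  ∫ z in Q.D, (ext δ h z - mean Q.H fun g => ext δ g z) * φ z

/-- Carathéodory kernel convergence of the domains `D n` to `Ω` -/
def Car (D : ℕ → Set ℂ) (Ω : Set ℂ) : Prop :=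
  (∀ K ⊆ Ω, IsCompact K → ∀ᶠ n in atTop, K ⊆ D n) ∧
    ∀ w ∈ frontier Ω, Tendsto (fun n => Metric.infDist w (frontier (D n))) atTop (𝓝 0)

/-- `u` is the Green potential of `φ` in `Ω`: `-Δ u = φ` in `Ω` and `u → 0` at the boundary -/
def Green (Ω : Set ℂ) (φ u : ℂ → ℝ) : Prop :=
  ContDiffOn ℝ 2 u Ω ∧ (∀ z ∈ Ω, Laplacian.laplacian u z = -φ z) ∧
    ∀ w ∈ frontier Ω, Tendsto u (𝓝[Ω] w) (𝓝 0)

/-- smooth functions with compact support in `Ω` -/
def Test (Ω : Set ℂ) (φ : ℂ → ℝ) : Prop :=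
  ContDiff ℝ (⊤ : ℕ∞) φ ∧ HasCompactSupport φ ∧ tsupport φ ⊆ Ω

end Pool.Agent.Lib.MP_6359c9_pr
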