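import Pool.Agent.Lib.MP_6359c9_pr.EndT
import Pool.Agent.Lib.MP_6359c9_pr.Stmt

/-! Green identity, a radial test function whose Laplacian is a difference of two bumps,
Newton potential. -/

namespace Pool.Agent.Lib.MP_6359c9_pr.End

open MeasureTheory Metric Set Filter Topology Real InnerProductSpace
open scoped Laplacian Convolution

/-- directional derivative -/
noncomputable def dv (v : ℂ) (f : ℂ → ℝ) (x : ℂ) : ℝ := fderiv ℝ f x v

lemma dv_cd {f : ℂ → ℝ} {m n : WithTop ℕ∞} (hf : ContDiff ℝ n f) (h : m + 1 ≤ n) (v : ℂ) :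
    ContDiff ℝ m (dv v f) :=
  (hf.fderiv_right h).clm_apply contDiff_const

lemma dv_hcs {f : ℂ → ℝ} (hf : HasCompactSupport f) (v : ℂ) : HasCompactSupport (dv v f) :=
  hf.fderiv_apply ℝ v

lemma lap_dv {f : ℂ → ℝ} (hf : ContDiff ℝ 2 f) (x : ℂ) :
    Δ f x = dv 1 (dv 1 f) x + dv Complex.I (dv Complex.I f) x := by
  have d := (hf.fderiv_right (m := 1) (by norm_num)).differentiable (by norm_num) x
  have e : ∀ v : ℂ, dv v (dv v f) x = fderiv ℝ (fderiv ℝ f) x v v := by
    intro v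
    have := (d.hasFDerivAt.clm_apply (hasFDerivAt_const v x)).fderiv
    have e2 : dv v f = fun y => fderiv ℝ f y v := rfl
    rw [dv, e2, this]; simp
  rw [lap_eq, e, e]

lemma parts {f g : ℂ → ℝ} (hf : ContDiff ℝ 1 f) (hg : ContDiff ℝ 1 g) (hc : HasCompactSupport g)
    (v : ℂ) : ∫ x, f x * dv v g x = -∫ x, dv v f x * g x := by
  have a1 := (dv_cd (m := 0) hf (by norm_num) v).continuous
  have a2 := (dv_cd (m := 0) hg (by norm_num) v).continuous
  exact integral_mul_fderiv_eq_neg_fderiv_mul_of_integrable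
    ((a1.mul hg.continuous).integrable_of_hasCompactSupport hc.mul_left)
    ((hf.continuous.mul a2).integrable_of_hasCompactSupport (dv_hcs hc v).mul_left)
    ((hf.continuous.mul hg.continuous).integrable_of_hasCompactSupport hc.mul_left)
    (fun x _ => hf.differentiable (by norm_num) x) (fun x _ => hg.differentiable (by norm_num) x)

lemma lap_cont {f : ℂ → ℝ} (hf : ContDiff ℝ 2 f) : Continuous (Δ f) := by
  have : Δ f = fun x => dv 1 (dv 1 f) x + dv Complex.I (dv Complex.I f) x := funext (lap_dv hf)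
  rw [this]
  have a := fun v => (dv_cd (m := 0) (dv_cd (m := 1) hf (by norm_num) v) (by norm_num) v).continuous
  exact (a _).add (a _)

lemma lap_hcs {f : ℂ → ℝ} (hf : ContDiff ℝ 2 f) (hc : HasCompactSupport f) :
    HasCompactSupport (Δ f) := by
  have : Δ f = dv 1 (dv 1 f) + dv Complex.I (dv Complex.I f) := funext (lap_dv hf)
  rw [this]
  exact (dv_hcs (dv_hcs hc _) _).add (dv_hcs (dv_hcs hc _) _)

/-- Green identity -/
theorem green {p ψ : ℂ → ℝ} (hp : ContDiff ℝ 2 p) (hψ : ContDiff ℝ 2 ψ)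
    (hc : HasCompactSupport ψ) : ∫ x, p x * Δ ψ x = ∫ x, Δ p x * ψ x := by
  have e : ∀ v, ∫ x, p x * dv v (dv v ψ) x = ∫ x, dv v (dv v p) x * ψ x := by
    intro v
    rw [parts (hp.of_le (by norm_num)) (dv_cd hψ (by norm_num) v) (dv_hcs hc v),
      parts (dv_cd hp (by norm_num) v) (hψ.of_le (by norm_num)) hc, neg_neg]
  have a := fun {f : ℂ → ℝ} (hf : ContDiff ℝ 2 f) v =>
    (dv_cd (m := 0) (dv_cd (m := 1) hf (by norm_num) v) (by norm_num) v).continuous
  have i1 : ∀ v, Integrable fun x => p x * dv v (dv v ψ) x := fun v =>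
    (hp.continuous.mul (a hψ v)).integrable_of_hasCompactSupport (dv_hcs (dv_hcs hc v) v).mul_left
  have i2 : ∀ v, Integrable fun x => dv v (dv v p) x * ψ x := fun v =>
    ((a hp v).mul hψ.continuous).integrable_of_hasCompactSupport hc.mul_left
  simp only [lap_dv hp, lap_dv hψ, mul_add, add_mul]
  rw [integral_add (i1 _) (i1 _), integral_add (i2 _) (i2 _), e, e]

/-- Laplacian of a radial function -/
lemma lap_rad {k k1 k2 : ℝ → ℝ} (hk : ContDiff ℝ 2 k) (h1 : ∀ u, HasDerivAt k (k1 u) u)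
    (h2 : ∀ u, HasDerivAt k1 (k2 u) u) (x z : ℂ) :
    Δ (fun z : ℂ => k (‖z - x‖ ^ 2)) z =
      4 * k1 (‖z - x‖ ^ 2) + 4 * ‖z - x‖ ^ 2 * k2 (‖z - x‖ ^ 2) := by
  have n : ∀ z : ℂ, HasFDerivAt (fun z : ℂ => ‖z - x‖ ^ 2)
      (2 • (innerSL ℝ (z - x)).comp (ContinuousLinearMap.id ℝ ℂ)) z := fun z =>
    ((hasFDerivAt_id z).sub_const x).norm_sq
  have d1 : ∀ v, dv v (fun z : ℂ => k (‖z - x‖ ^ 2)) =
      fun z => k1 (‖z - x‖ ^ 2) * (2 * inner ℝ v (z - x)) := by
    intro v; ext z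
    have := ((h1 _).comp_hasFDerivAt z (n z)).fderiv
    rw [dv, show (fun z : ℂ => k (‖z - x‖ ^ 2)) = k ∘ fun z : ℂ => ‖z - x‖ ^ 2 from rfl, this]
    simp only [ContinuousLinearMap.smul_apply, ContinuousLinearMap.comp_id, innerSL_apply_apply,
      smul_eq_mul, nsmul_eq_mul, Nat.cast_ofNat, real_inner_comm]
  have d2 : ∀ v, dv v (fun z => k1 (‖z - x‖ ^ 2) * (2 * inner ℝ v (z - x))) z =
      k1 (‖z - x‖ ^ 2) * (2 * inner ℝ v v) +
        2 * inner ℝ v (z - x) * (k2 (‖z - x‖ ^ 2) * (2 * inner ℝ v (z - x))) := by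
    intro v
    have a := (h2 _).comp_hasFDerivAt z (n z)
    have b := (((innerSL ℝ v).hasFDerivAt.comp z ((hasFDerivAt_id z).sub_const x)).const_mul 2)
    have := (a.mul b).fderiv
    rw [dv, show (fun z : ℂ => k1 (‖z - x‖ ^ 2) * (2 * inner ℝ v (z - x))) =
      (k1 ∘ fun z : ℂ => ‖z - x‖ ^ 2) * fun y => 2 * ((innerSL ℝ v) ∘ fun x_1 => id x_1 - x) y
      from rfl, this]
    simp only [ContinuousLinearMap.add_apply, ContinuousLinearMap.smul_apply,
      ContinuousLinearMap.comp_id, innerSL_apply_apply, smul_eq_mul, nsmul_eq_mul, Nat.cast_ofNat,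
      Function.comp, id, real_inner_comm]
  rw [lap_dv (f := fun z : ℂ => k (‖z - x‖ ^ 2)) (hk.comp ((contDiff_norm_sq ℝ).comp (contDiff_id.sub contDiff_const))), d1, d1, d2,
    d2, Complex.sq_norm, Complex.normSq_apply]
  simp [Complex.inner]
  ring

/-- rescaled function -/
noncomputable def scl (Ψ : ℂ → ℝ) (x : ℂ) (r : ℝ) (z : ℂ) : ℝ := Ψ ((z - x) / r)

lemma test_rad {k : ℝ → ℝ} (hk : ContDiff ℝ (⊤ : ℕ∞) k) (h0 : ∀ u, 1 / 2 ≤ u → k u = 0) :
    Test (ball 0 1) fun y : ℂ => k (‖y‖ ^ 2) := by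
  have hs : tsupport (fun y : ℂ => k (‖y‖ ^ 2)) ⊆ closedBall 0 (3 / 4) := by
    refine closure_minimal (fun y hy => ?_) isClosed_closedBall
    by_contra hn
    simp only [mem_closedBall, dist_zero_right, not_le] at hn
    exact hy (h0 _ (by nlinarith))
  exact ⟨hk.comp (contDiff_norm_sq ℝ),
    (isCompact_closedBall _ _).of_isClosed_subset (isClosed_tsupport _) hs,
    hs.trans (closedBall_subset_ball (by norm_num))⟩

/-- a radial test function whose Laplacian is the difference of two bumps -/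
theorem ex_pair : ∃ ρ Ψ : ℂ → ℝ, Bump ρ ∧ Test (ball 0 1) ρ ∧ Test (ball 0 1) Ψ ∧
    ∀ x r, 0 < r → ∀ z, Δ (scl Ψ x r) z = sc ρ x r z - sc ρ x (r / 2) z := by
  set K : ℝ → ℝ := fun u => smoothTransition (2 - 4 * u) with hK
  have Ks : ContDiff ℝ (⊤ : ℕ∞) K := smoothTransition.contDiff.comp (by fun_prop)
  have K1 : ∀ u, u ≤ 1 / 4 → K u = 1 := fun u hu => smoothTransition.one_of_one_le (by linarith)
  have K0 : ∀ u, 1 / 2 ≤ u → K u = 0 := fun u hu => smoothTransition.zero_of_nonpos (by linarith)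
  have Kd : Differentiable ℝ K := Ks.differentiable (by simp)
  have Ka : Antitone K := fun a b hab => smoothTransition.monotone (by linarith)
  set g : ℝ → ℝ := fun u => -deriv K u with hg
  have gs : ContDiff ℝ (⊤ : ℕ∞) g := (contDiff_infty_iff_deriv.1 Ks).2.neg
  have gn : ∀ u, 0 ≤ g u := fun u => neg_nonneg.2 Ka.deriv_nonpos
  have g0 : ∀ u, 1 / 2 ≤ u → g u = 0 := by
    have : EqOn g (fun _ => 0) (Ioi (1 / 2)) := fun u hu => by
      have : K =ᶠ[𝓝 u] fun _ => 0 := by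
        filter_upwards [Ioi_mem_nhds hu] with v hv using K0 v (le_of_lt hv)
      simp [hg, this.deriv_eq]
    have := this.closure gs.continuous continuous_const
    rw [closure_Ioi] at this
    exact fun u hu => this hu
  set q : ℝ → ℝ := fun u => (K (4 * u) - K u) / (4 * u) with hq
  have q0 : ∀ u, u ≤ 1 / 16 → q u = 0 := fun u hu => by
    simp only [hq]; rw [K1 _ (by linarith), K1 _ (by linarith), sub_self, zero_div]
  have q1 : ∀ u, 1 / 2 ≤ u → q u = 0 := fun u hu => by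
    simp only [hq]; rw [K0 _ (by linarith), K0 _ hu, sub_self, zero_div]
  have qs : ContDiff ℝ (⊤ : ℕ∞) q := by
    rw [contDiff_iff_contDiffAt]
    intro u
    by_cases hu : u = 0
    · refine (contDiffAt_const (c := (0 : ℝ))).congr_of_eventuallyEq ?_
      filter_upwards [Iio_mem_nhds (show u < 1 / 16 by rw [hu]; norm_num)] with v hv
        using q0 v (le_of_lt hv)
    · exact ((Ks.comp (by fun_prop)).sub Ks).contDiffAt.div (by fun_prop) (by simpa using hu)
  have qe : (fun u => 4 * u * q u) = fun u => K (4 * u) - K u := by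
    ext u
    by_cases hu : u = 0
    · simp [hu]
    · simp only [hq]; field_simp
  have qd : ∀ u, 4 * q u + 4 * u * deriv q u = g u - 4 * g (4 * u) := by
    intro u
    have a := (((hasDerivAt_id u).const_mul 4).mul (qs.differentiable (by simp) u).hasDerivAt)
    have b := ((Kd (4 * u)).hasDerivAt.comp u ((hasDerivAt_id u).const_mul 4)).sub
      (Kd u).hasDerivAt
    have a' : HasDerivAt (fun u => 4 * u * q u) (4 * q u + 4 * u * deriv q u) u :=
      a.congr_deriv (by simp)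
    rw [qe] at a'
    have := a'.unique b
    simp only [hg]; linarith
  set k : ℝ → ℝ := fun u => ∫ t in (1 : ℝ)..u, q t with hk
  have kd : ∀ u, HasDerivAt k (q u) u := fun u =>
    (qs.continuous.integral_hasStrictDerivAt 1 u).hasDerivAt
  have ks : ContDiff ℝ (⊤ : ℕ∞) k := by
    rw [contDiff_infty_iff_deriv]
    exact ⟨fun u => (kd u).differentiableAt, by rwa [show deriv k = q from funext fun u => (kd u).deriv]⟩
  have k0 : ∀ u, 1 / 2 ≤ u → k u = 0 := fun u hu => by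
    simp only [hk]
    rw [intervalIntegral.integral_congr (g := fun _ => 0) fun t ht => q1 t ?_]
    · simp
    · exact (le_min (by norm_num) hu).trans ht.1
  have T0 := test_rad gs g0
  obtain ⟨u0, hu0, hu1⟩ := exists_deriv_eq_slope K zero_lt_one Kd.continuous.continuousOn
    Kd.differentiableOn
  rw [K0 1 (by norm_num), K1 0 (by norm_num)] at hu1
  have cp : 0 < ∫ y : ℂ, g (‖y‖ ^ 2) :=
    T0.1.continuous.integral_pos_of_hasCompactSupport_nonneg_nonzero (x := (√u0 : ℝ)) T0.2.1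
      (fun z => gn _) (by
        rw [Complex.norm_real, Real.norm_of_nonneg (sqrt_nonneg _), sq_sqrt hu0.1.le]
        simp [hg, hu1])
  set c := ∫ y : ℂ, g (‖y‖ ^ 2) with hc
  have T1 := test_rad (k := fun u => c⁻¹ * g u) (contDiff_const.mul gs) fun u hu => by
    rw [g0 u hu, mul_zero]
  have T2 := test_rad (k := fun u => c⁻¹ * k u) (contDiff_const.mul ks) fun u hu => by
    rw [k0 u hu, mul_zero]
  refine ⟨_, _, ⟨T1.1.continuous, fun z => mul_nonneg (by positivity) (gn _), fun z hz => ?_,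
    fun z w e => by rw [e], ?_⟩, T1, T2, fun x r r0 z => ?_⟩
  · rw [g0 _ (by nlinarith), mul_zero]
  · rw [integral_const_mul, inv_mul_cancel₀ cp.ne']
  have nr : ∀ (s : ℝ) (z : ℂ), 0 < s → ‖(z - x) / s‖ ^ 2 = ‖z - x‖ ^ 2 / s ^ 2 := fun s z s0 => by
    rw [norm_div, Complex.norm_real, Real.norm_of_nonneg s0.le, div_pow]
  have e : scl (fun y : ℂ => c⁻¹ * k (‖y‖ ^ 2)) x r =
      fun z => (fun u => c⁻¹ * k (u / r ^ 2)) (‖z - x‖ ^ 2) := by
    ext z; simp only [scl, nr r z r0]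
  rw [e, lap_rad (k := fun u => c⁻¹ * k (u / r ^ 2))
    (k1 := fun u => c⁻¹ * (q (u / r ^ 2) * (1 / r ^ 2)))
    (k2 := fun u => c⁻¹ * (deriv q (u / r ^ 2) * (1 / r ^ 2) * (1 / r ^ 2)))
    (contDiff_const.mul ((ks.of_le (WithTop.coe_le_coe.2 (le_top : (2 : ℕ∞) ≤ ⊤))).comp
      (by fun_prop)))
    (fun u => ((kd _).comp u ((hasDerivAt_id u).div_const _)).const_mul _)
    (fun u => (((qs.differentiable (by simp) _).hasDerivAt.comp u
      ((hasDerivAt_id u).div_const _)).mul_const _).const_mul _)]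
  simp only [sc, nr r z r0, nr (r / 2) z (by positivity)]
  have := qd (‖z - x‖ ^ 2 / r ^ 2)
  rw [show ‖z - x‖ ^ 2 / (r / 2) ^ 2 = 4 * (‖z - x‖ ^ 2 / r ^ 2) by field_simp; ring]
  have e3 : (r ^ 2)⁻¹ * (c⁻¹ * g (‖z - x‖ ^ 2 / r ^ 2)) -
      ((r / 2) ^ 2)⁻¹ * (c⁻¹ * g (4 * (‖z - x‖ ^ 2 / r ^ 2))) =
      (r ^ 2)⁻¹ * c⁻¹ * (g (‖z - x‖ ^ 2 / r ^ 2) - 4 * g (4 * (‖z - x‖ ^ 2 / r ^ 2))) := by
    field_simp; ring
  rw [e3, ← this]
  field_simp

lemma log_locInt : LocallyIntegrable (fun z : ℂ => Real.log ‖z‖) := by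
  rw [locallyIntegrable_iff]
  intro K hK
  obtain ⟨R, hR⟩ := hK.isBounded.subset_ball 0
  refine IntegrableOn.mono_set ?_ hR
  rw [integrableOn_fun_norm_addHaar volume (f := Real.log)]
  simp only [Complex.finrank_real_complex, smul_eq_mul]
  have : IntervalIntegrable (fun y : ℝ => y ^ (2 - 1) * Real.log y) volume 0 R :=
    intervalIntegral.intervalIntegrable_log'.continuousOn_mul (by fun_prop)
  exact this.1.mono_set Ioo_subset_Ioc_self

lemma dv_conv {f g : ℂ → ℝ} (hf : LocallyIntegrable f) (hg : ContDiff ℝ 1 g)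
    (hc : HasCompactSupport g) (v : ℂ) :
    dv v (f ⋆[ContinuousLinearMap.mul ℝ ℝ] g) = f ⋆[ContinuousLinearMap.mul ℝ ℝ] dv v g := by
  ext x
  rw [dv, (hc.hasFDerivAt_convolution_right _ hf hg x).fderiv,
    convolution_precompR_apply _ hf (hc.fderiv ℝ) (hg.continuous_fderiv (by norm_num))]
  rfl

/-- the fundamental solution -/
def FundSt : Prop := ∀ ψ : ℂ → ℝ, ContDiff ℝ 2 ψ → HasCompactSupport ψ → ∀ w : ℂ,
  ∫ z, Δ ψ z * Real.log ‖z - w‖ = 2 * π * ψ w

/-- Newton potential -/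
theorem ex_pot (fund : FundSt) {φ : ℂ → ℝ} (hφ : ContDiff ℝ 2 φ) (hc : HasCompactSupport φ) :
    ∃ p : ℂ → ℝ, ContDiff ℝ 2 p ∧ ∀ x, Δ p x = -φ x := by
  set p := (fun z : ℂ => Real.log ‖z‖) ⋆[ContinuousLinearMap.mul ℝ ℝ] φ with hp
  have pc : ContDiff ℝ 2 p := hc.contDiff_convolution_right (n := 2) _ log_locInt hφ
  have e : ∀ x, Δ p x = 2 * π * φ x := by
    intro x
    have a := fun v => dv_cd (m := 1) hφ (by norm_num) v
    have b := fun v => (dv_cd (m := 0) (a v) (by norm_num) v).continuous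
    have i := fun v => (dv_hcs (dv_hcs hc v) v).convolutionExists_right
      (ContinuousLinearMap.mul ℝ ℝ) log_locInt (b v) x
    rw [lap_dv pc, hp, dv_conv log_locInt (hφ.of_le (by norm_num)) hc,
      dv_conv log_locInt (hφ.of_le (by norm_num)) hc, dv_conv log_locInt (a _) (dv_hcs hc _),
      dv_conv log_locInt (a _) (dv_hcs hc _), convolution_def, convolution_def,
      ← integral_add (i _) (i _), ← fund φ hφ hc x,
      ← integral_sub_left_eq_self (fun z => Δ φ z * Real.log ‖z - x‖) volume x]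
    congr 1; ext t
    simp only [ContinuousLinearMap.mul_apply', lap_dv hφ]
    rw [show x - t - x = -t by ring, norm_neg]; ring
  refine ⟨(-(2 * π)⁻¹ : ℝ) • p, pc.const_smul (-(2 * π)⁻¹ : ℝ), fun x => ?_⟩
  rw [laplacian_smul _ pc.contDiffAt, e, smul_eq_mul]
  field_simp

end Pool.Agent.Lib.MP_6359c9_pr.End
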