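import Pool.Agent.Lib.MP_6359c9_pr.EndU

/-! Means over finite sets, an ordinary differential equation, and the theorem of Levy. -/

namespace Pool.Agent.Lib.MP_6359c9_pr.End

open MeasureTheory Metric Set Filter Topology Real ProbabilityTheory Matrix
open scoped ENNReal RealInnerProductSpace

section mean

variable {α : Type} {S : Set α}

lemma mean_eq (hS : S.Finite) (f : α → ℝ) :
    mean S f = (S.ncard : ℝ)⁻¹ * ∑ x ∈ hS.toFinset, f x := by
  rw [mean, finsum_mem_eq_finite_toFinset_sum _ hS, div_eq_inv_mul]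

lemma mean_add (hS : S.Finite) (f g : α → ℝ) :
    mean S (fun x => f x + g x) = mean S f + mean S g := by
  simp only [mean_eq hS, Finset.sum_add_distrib, mul_add]

lemma mean_sub (hS : S.Finite) (f g : α → ℝ) :
    mean S (fun x => f x - g x) = mean S f - mean S g := by
  simp only [mean_eq hS, Finset.sum_sub_distrib, mul_sub]

lemma mean_neg (hS : S.Finite) (f : α → ℝ) : mean S (fun x => -f x) = -mean S f := by
  simp only [mean_eq hS, Finset.sum_neg_distrib, mul_neg]

lemma mean_mul (hS : S.Finite) (c : ℝ) (f : α → ℝ) :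
    mean S (fun x => c * f x) = c * mean S f := by
  simp only [mean_eq hS, ← Finset.mul_sum]; ring

lemma mean_const (hS : S.Finite) (hn : S.Nonempty) (c : ℝ) : mean S (fun _ => c) = c := by
  have : (S.ncard : ℝ) ≠ 0 := by exact_mod_cast ((ncard_pos hS).2 hn).ne'
  rw [mean_eq hS, Finset.sum_const, ← ncard_eq_toFinset_card _ hS, nsmul_eq_mul]
  field_simp

lemma mean_mono (hS : S.Finite) {f g : α → ℝ} (h : ∀ x ∈ S, f x ≤ g x) : mean S f ≤ mean S g := by
  simp only [mean_eq hS]
  exact mul_le_mul_of_nonneg_left (Finset.sum_le_sum fun x hx => h x (hS.mem_toFinset.1 hx))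
    (by positivity)

lemma abs_mean_le (hS : S.Finite) {f g : α → ℝ} (h : ∀ x ∈ S, |f x| ≤ g x) :
    |mean S f| ≤ mean S g :=
  abs_le.2 ⟨by rw [← mean_neg hS]; exact mean_mono hS fun x hx => (abs_le.1 (h x hx)).1,
    mean_mono hS fun x hx => (abs_le.1 (h x hx)).2⟩

lemma mean_int (hS : S.Finite) {g : α → ℂ → ℝ} (h : ∀ w, Integrable (g w)) :
    ∫ z, mean S (fun w => g w z) = mean S fun w => ∫ z, g w z := by
  simp only [mean_eq hS]
  rw [integral_const_mul, integral_finsetSum _ fun w _ => h w]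

lemma mean_cont (hS : S.Finite) {T : Type} [TopologicalSpace T] {g : α → T → ℝ}
    (h : ∀ w, Continuous (g w)) : Continuous fun z => mean S fun w => g w z := by
  simp only [mean_eq hS]
  exact continuous_const.mul (continuous_finsetSum _ fun w _ => h w)

lemma mean_der (hS : S.Finite) {g : α → ℝ → ℝ} {d : α → ℝ} {t : ℝ}
    (h : ∀ w, HasDerivAt (g w) (d w) t) :
    HasDerivAt (fun t => mean S fun w => g w t) (mean S d) t := by
  simp only [mean_eq hS]
  exact (HasDerivAt.fun_sum fun w _ => h w).const_mul _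

end mean

lemma ode {c d : ℕ → ℝ → ℝ} (hd : ∀ n t, HasDerivAt (c n) (d n t) t) (dc : ∀ n, Continuous (d n))
    {k B a : ℝ} (hb : ∀ᶠ n in atTop, ∀ t, |c n t| ≤ 1 ∧ |d n t| ≤ B)
    (hl : ∀ t, Tendsto (fun n => d n t + k * t * c n t) atTop (𝓝 0)) (c0 : ∀ n, c n 0 = a) :
    Tendsto (fun n => c n 1) atTop (𝓝 (exp (-k / 2) * a)) := by
  have cc : ∀ n, Continuous (c n) := fun n =>
    continuous_iff_continuousAt.2 fun t => (hd n t).continuousAt
  have gc : ∀ n, Continuous fun t => exp (k * t ^ 2 / 2) * (d n t + k * t * c n t) := fun n => by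
    have := cc n; have := dc n; fun_prop
  have e : ∀ n, ∫ t in (0 : ℝ)..1, exp (k * t ^ 2 / 2) * (d n t + k * t * c n t) =
      exp (k / 2) * c n 1 - a := by
    intro n
    rw [intervalIntegral.integral_eq_sub_of_hasDerivAt
      (f := fun t => exp (k * t ^ 2 / 2) * c n t) (fun t _ => ?_) ((gc n).intervalIntegrable _ _)]
    · simp [c0]
    · have h1 : HasDerivAt (fun t : ℝ => k * t ^ 2 / 2) (k * t) t := by
        refine (((hasDerivAt_pow 2 t).const_mul k).div_const 2).congr_deriv ?_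
        norm_num; ring
      refine (h1.exp.mul (hd n t)).congr_deriv ?_
      ring
  have T := intervalIntegral.tendsto_integral_filter_of_dominated_convergence (μ := volume)
    (a := 0) (b := 1) (l := atTop) (f := fun _ => (0 : ℝ))
    (F := fun n t => exp (k * t ^ 2 / 2) * (d n t + k * t * c n t))
    (fun t => exp (k * t ^ 2 / 2) * (B + |k * t|))
    (Eventually.of_forall fun n => (gc n).aestronglyMeasurable)
    (hb.mono fun n hn => Eventually.of_forall fun t _ => by
      rw [Real.norm_eq_abs, abs_mul, abs_of_pos (exp_pos _)]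
      refine mul_le_mul_of_nonneg_left ((abs_add_le _ _).trans (add_le_add (hn t).2 ?_))
        (exp_pos _).le
      rw [abs_mul]
      exact mul_le_of_le_one_right (abs_nonneg _) (hn t).1)
    (Continuous.intervalIntegrable (by fun_prop) _ _)
    (Eventually.of_forall fun t _ => by simpa using (hl t).const_mul (exp (k * t ^ 2 / 2)))
  simp only [e, intervalIntegral.integral_zero] at T
  have := (T.add_const a).const_mul (exp (-k / 2))
  simp only [sub_add_cancel, ← mul_assoc, ← exp_add, zero_add] at this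
  simpa [show -k / 2 + k / 2 = 0 by ring] using this

section levy

variable {k : ℕ} {α : Type} {S : Set α}

/-- the law of `Y` under the uniform measure -/
noncomputable def law (hS : S.Finite) (Y : α → EuclideanSpace ℝ (Fin k)) :
    Measure (EuclideanSpace ℝ (Fin k)) :=
  (S.ncard : ℝ≥0∞)⁻¹ • ∑ w ∈ hS.toFinset, Measure.dirac (Y w)

lemma law_prob (hS : S.Finite) (hn : S.Nonempty) (Y : α → EuclideanSpace ℝ (Fin k)) :
    IsProbabilityMeasure (law hS Y) := ⟨by
  have : (S.ncard : ℝ≥0∞) ≠ 0 := by exact_mod_cast ((ncard_pos hS).2 hn).ne'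
  simp only [law, Measure.smul_apply, Measure.coe_finsetSum, Finset.sum_apply, measure_univ,
    Finset.sum_const, ← ncard_eq_toFinset_card _ hS, nsmul_eq_mul, mul_one, smul_eq_mul]
  exact ENNReal.inv_mul_cancel this (by simp)⟩

lemma int_law (hS : S.Finite) (Y : α → EuclideanSpace ℝ (Fin k)) {G : Type} [NormedAddCommGroup G]
    [NormedSpace ℝ G] [CompleteSpace G] (f : EuclideanSpace ℝ (Fin k) → G) :
    ∫ x, f x ∂law hS Y = (S.ncard : ℝ)⁻¹ • ∑ w ∈ hS.toFinset, f (Y w) := by
  rw [law, integral_smul_measure,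
    integral_finsetSum_measure fun w _ => integrable_dirac enorm_lt_top]
  simp

lemma char_law (hS : S.Finite) (Y : α → EuclideanSpace ℝ (Fin k)) (θ : EuclideanSpace ℝ (Fin k)) :
    charFun (law hS Y) θ = (mean S fun w => cos ⟪Y w, θ⟫ : ℝ) +
      (mean S fun w => sin ⟪Y w, θ⟫ : ℝ) * Complex.I := by
  rw [charFun_apply, int_law, mean_eq hS, mean_eq hS]
  simp only [Complex.exp_mul_I, Finset.sum_add_distrib, ← Finset.sum_mul, Complex.real_smul]
  push_cast
  ring

lemma trunc_le (a : ℝ) {R : ℝ} (R0 : 0 < R) : |a - max (min a R) (-R)| ≤ R⁻¹ * a ^ 2 := by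
  rw [inv_mul_eq_div, le_div_iff₀ R0]
  rcases le_total a R with h | h
  · rw [min_eq_left h]
    rcases le_total a (-R) with h' | h'
    · rw [max_eq_right h', abs_of_nonpos (by linarith)]; nlinarith
    · rw [max_eq_left h']; simp [sq_nonneg]
  · rw [min_eq_right h, max_eq_left (by linarith), abs_of_nonneg (by linarith)]; nlinarith

theorem levy {S : ℕ → Set α} (hS : ∀ n, (S n).Finite) (hn : ∀ n, (S n).Nonempty)
    {Y : ℕ → α → EuclideanSpace ℝ (Fin k)} {B : Matrix (Fin k) (Fin k) ℝ} (hB : B.PosSemidef)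
    (hc : ∀ θ : EuclideanSpace ℝ (Fin k), Tendsto (fun n => mean (S n) fun w => cos ⟪Y n w, θ⟫)
      atTop (𝓝 (exp (-(θ ⬝ᵥ B *ᵥ θ) / 2))))
    (hs : ∀ θ : EuclideanSpace ℝ (Fin k), Tendsto (fun n => mean (S n) fun w => sin ⟪Y n w, θ⟫)
      atTop (𝓝 0))
    (hm : ∀ p : ℕ, ∃ C, ∀ᶠ n in atTop, mean (S n) (fun w => (1 + ‖Y n w‖) ^ p) ≤ C)
    {F : EuclideanSpace ℝ (Fin k) → ℝ} (Fc : Continuous F)
    (hF : ∃ (C : ℝ) (p : ℕ), ∀ x, |F x| ≤ C * (1 + ‖x‖) ^ p) :
    Tendsto (fun n => mean (S n) fun w => F (Y n w)) atTop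
      (𝓝 (∫ x, F x ∂multivariateGaussian 0 B)) := by
  obtain ⟨C, p, hF⟩ := hF
  let μ : ℕ → ProbabilityMeasure (EuclideanSpace ℝ (Fin k)) := fun n =>
    ⟨law (hS n) (Y n), law_prob (hS n) (hn n) _⟩
  let γ : ProbabilityMeasure (EuclideanSpace ℝ (Fin k)) :=
    ⟨multivariateGaussian 0 B, inferInstance⟩
  have L : Tendsto μ atTop (𝓝 γ) := ProbabilityMeasure.tendsto_of_tendsto_charFun fun θ => by
    change Tendsto (fun n => charFun (law (hS n) (Y n)) θ) atTop
      (𝓝 (charFun (multivariateGaussian 0 B) θ))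
    simp only [char_law, charFun_multivariateGaussian hB]
    convert ((Complex.continuous_ofReal.tendsto _).comp (hc θ)).add
      (((Complex.continuous_ofReal.tendsto _).comp (hs θ)).mul_const Complex.I) using 2
    · rfl
    · simp [neg_div]
  have ip : ∀ q : ℕ, Integrable (fun x => (1 + ‖x‖) ^ q) (multivariateGaussian 0 B) := by
    intro q
    have := ((memLp_const (1 : ℝ)).add
      (IsGaussian.memLp_id (multivariateGaussian 0 B) q (by simp)).norm).integrable_norm_pow'
    refine this.congr (Eventually.of_forall fun x => ?_)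
    simp only [Pi.add_apply, id]
    rw [Real.norm_of_nonneg (by positivity)]
  have F2 : ∀ x, F x ^ 2 ≤ C ^ 2 * (1 + ‖x‖) ^ (p * 2) := fun x => by
    rw [pow_mul, ← mul_pow, ← sq_abs (F x)]
    exact pow_le_pow_left₀ (abs_nonneg _) (hF x) 2
  have i1 : Integrable F (multivariateGaussian 0 B) :=
    ((ip p).const_mul C).mono' Fc.aestronglyMeasurable (Eventually.of_forall hF)
  obtain ⟨D, hD⟩ := hm (p * 2)
  set E := ∫ x, (1 + ‖x‖) ^ (p * 2) ∂multivariateGaussian 0 B
  refine Metric.tendsto_nhds.2 fun ε ε0 => ?_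
  obtain ⟨R, R0, hR⟩ : ∃ R : ℝ, 0 < R ∧ R⁻¹ * (C ^ 2 * D) + R⁻¹ * (C ^ 2 * E) ≤ ε / 2 := by
    refine ⟨(|C ^ 2 * D + C ^ 2 * E| + 1) / (ε / 2), by positivity, ?_⟩
    rw [← mul_add, inv_div, div_mul_eq_mul_div, div_le_iff₀ (by positivity)]
    exact mul_le_mul_of_nonneg_left ((le_abs_self _).trans (by linarith)) (by positivity)
  let G := BoundedContinuousFunction.ofNormedAddCommGroup (fun x => max (min (F x) R) (-R))
    (by fun_prop) R fun x => abs_le.2 ⟨le_max_right _ _, max_le (min_le_right _ _) (by linarith)⟩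
  have tr : ∀ x, |F x - G x| ≤ R⁻¹ * (C ^ 2 * (1 + ‖x‖) ^ (p * 2)) := fun x =>
    (trunc_le (F x) R0).trans (mul_le_mul_of_nonneg_left (F2 x) (by positivity))
  have T := ProbabilityMeasure.tendsto_iff_forall_integral_tendsto.1 L G
  have a2 : |(∫ x, F x ∂multivariateGaussian 0 B) - ∫ x, G x ∂multivariateGaussian 0 B| ≤
      R⁻¹ * (C ^ 2 * E) := by
    rw [← integral_sub i1 (G.integrable _), ← integral_const_mul, ← integral_const_mul,
      ← Real.norm_eq_abs]
    exact norm_integral_le_of_norm_le (((ip _).const_mul _).const_mul _) (Eventually.of_forall tr)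
  filter_upwards [hD, Metric.tendsto_nhds.1 T _ (half_pos ε0)] with n h1 h2
  change dist (∫ x, G x ∂law (hS n) (Y n)) (∫ x, G x ∂multivariateGaussian 0 B) < _ at h2
  rw [int_law, smul_eq_mul, ← mean_eq (hS n) fun w => G (Y n w), Real.dist_eq, abs_lt] at h2
  have a1 := abs_mean_le (hS n) fun w _ => tr (Y n w)
  rw [mean_sub (hS n), mean_mul (hS n), mean_mul (hS n)] at a1
  have a3 := abs_le.1 (a1.trans (mul_le_mul_of_nonneg_left
    (mul_le_mul_of_nonneg_left h1 (sq_nonneg C)) (inv_pos.2 R0).le))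
  have a4 := abs_le.1 a2
  rw [Real.dist_eq, abs_lt]
  constructor <;> linarith [a3.1, a3.2, a4.1, a4.2, h2.1, h2.2]

end levy

end Pool.Agent.Lib.MP_6359c9_pr.End
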