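import Pool.Agent.Lib.MP_6359c9_pr.FinG
import Pool.Agent.Lib.MP_6359c9_pr.EndG

/-! The two statements of the model free end of the proof. -/

namespace Pool.Agent.Lib.MP_6359c9_pr

theorem greenSt : GreenSt := fun _ _ _ ho _ hb κ0 hM hS hD _ hφ =>
  End.exists_green ho hb κ0 hM hS hD hφ

theorem gaussSt : GaussSt := fun _ _ _ _ ho hc hb _ hz hM hS hB hD _ _ _ hφ hu =>
  End.Fld.In.gauss ⟨ho, hc, hb, hz, hM, hS, hB, hD⟩ hφ hu

end Pool.Agent.Lib.MP_6359c9_pr
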