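import Pool.Agent.Lib.MP_6359c9_pr.EndB

/-! Second order expansion of averages, a smooth bump, regularity from the mean value property. -/

namespace Pool.Agent.Lib.MP_6359c9_pr.End

open MeasureTheory Metric Set Filter Topology Real InnerProductSpace
open scoped Laplacian Convolution

variable {ρ : ℂ → ℝ}

lemma taylor_seg {u : ℂ → ℝ} {D : Set ℂ} (ho : IsOpen D) (hu : ContDiffOn ℝ 2 u D) {x v : ℂ}
    {ε : ℝ} (hx : ∀ t ∈ Icc (0 : ℝ) 1, x + t • v ∈ D)
    (hε : ∀ t ∈ Icc (0 : ℝ) 1,
      ‖fderiv ℝ (fderiv ℝ u) (x + t • v) - fderiv ℝ (fderiv ℝ u) x‖ ≤ ε) :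
    |u (x + v) - u x - fderiv ℝ u x v - fderiv ℝ (fderiv ℝ u) x v v / 2| ≤ ε * ‖v‖ ^ 2 := by
  set B := fderiv ℝ (fderiv ℝ u) with hB
  have c2 : ∀ z ∈ D, ContDiffAt ℝ 2 u z := fun z hz => hu.contDiffAt (ho.mem_nhds hz)
  have d1 : ∀ z ∈ D, HasFDerivAt u (fderiv ℝ u z) z := fun z hz =>
    ((c2 z hz).differentiableAt (by norm_num)).hasFDerivAt
  have d2 : ∀ z ∈ D, HasFDerivAt (fderiv ℝ u) (B z) z := fun z hz =>
    (((c2 z hz).fderiv_right (m := 1) (by norm_num)).differentiableAt (by norm_num)).hasFDerivAt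
  have l : ∀ t : ℝ, HasDerivAt (fun t : ℝ => x + t • v) v t := fun t => by
    simpa using ((hasDerivAt_id t).smul_const v).const_add x
  have e1 : ∀ t ∈ Icc (0 : ℝ) 1, HasDerivAt
      (fun t : ℝ => fderiv ℝ u (x + t • v) v - t * B x v v) (B (x + t • v) v v - B x v v) t := by
    intro t ht
    have h1 := ((d2 _ (hx t ht)).comp_hasDerivAt t (l t)).clm_apply (hasDerivAt_const t v)
    have h2 := (hasDerivAt_id t).mul_const (B x v v)
    refine (h1.sub h2).congr_deriv ?_
    simp
  have b1 : ∀ t ∈ Icc (0 : ℝ) 1, ‖B (x + t • v) v v - B x v v‖ ≤ ε * ‖v‖ ^ 2 := by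
    intro t ht
    have := (B (x + t • v) - B x).le_opNorm₂ v v
    simp only [ContinuousLinearMap.sub_apply] at this
    refine this.trans ?_
    rw [mul_assoc, ← sq]
    exact mul_le_mul_of_nonneg_right (hε t ht) (sq_nonneg _)
  have e2 := norm_image_sub_le_of_norm_deriv_le_segment' (a := 0) (b := 1)
    (fun t ht => (e1 t ht).hasDerivWithinAt) (fun t ht => b1 t (Ico_subset_Icc_self ht))
  have ε0 : 0 ≤ ε * ‖v‖ ^ 2 := (norm_nonneg _).trans (b1 0 ⟨le_rfl, zero_le_one⟩)
  have e3 : ∀ t ∈ Icc (0 : ℝ) 1, HasDerivAt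
      (fun t : ℝ => u (x + t • v) - t * fderiv ℝ u x v - t ^ 2 / 2 * B x v v)
      (fderiv ℝ u (x + t • v) v - fderiv ℝ u x v - t * B x v v) t := by
    intro t ht
    have h1 := (d1 _ (hx t ht)).comp_hasDerivAt t (l t)
    have h2 := (hasDerivAt_id t).mul_const (fderiv ℝ u x v)
    have h3 := ((hasDerivAt_pow 2 t).div_const 2).mul_const (B x v v)
    refine ((h1.sub h2).sub h3).congr_deriv ?_
    simp
  have e4 := norm_image_sub_le_of_norm_deriv_le_segment_01' (C := ε * ‖v‖ ^ 2)
    (fun t ht => (e3 t ht).hasDerivWithinAt) (fun t ht => by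
      have := e2 t (Ico_subset_Icc_self ht)
      simp only [zero_smul, add_zero, zero_mul, sub_zero] at this
      rw [sub_right_comm]
      exact this.trans (mul_le_of_le_one_right ε0 ht.2.le))
  rw [Real.norm_eq_abs] at e4
  convert e4 using 2
  simp; ring

lemma Bump.int_lin (h : Bump ρ) (A : ℂ →L[ℝ] ℝ) : ∫ y, A y * ρ y = 0 := by
  have := h.int_rot (fun y => A y) (a := -1) (by simp)
  simp only [neg_mul, one_mul, map_neg, integral_neg] at this
  linarith

lemma Bump.int_bil (h : Bump ρ) (B : ℂ →L[ℝ] ℂ →L[ℝ] ℝ) :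
    ∫ y, B y y * ρ y = m2 ρ / 2 * (B 1 1 + B Complex.I Complex.I) := by
  have h1 := h.int_rot (fun y => B y y) (a := Complex.I) (by simp)
  have i1 : Integrable (fun y => B y y * ρ y) := h.intg (by fun_prop)
  have i2 : Integrable (fun y => B (Complex.I * y) (Complex.I * y) * ρ y) := h.intg (by fun_prop)
  have e : ∫ y, (B y y * ρ y + B (Complex.I * y) (Complex.I * y) * ρ y) =
      ∫ y, (B 1 1 + B Complex.I Complex.I) * (‖y‖ ^ 2 * ρ y) := by
    congr 1; ext y
    have a1 : y = y.re • (1 : ℂ) + y.im • Complex.I := by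
      apply Complex.ext <;> simp
    have a2 : Complex.I * y = (-y.im) • (1 : ℂ) + y.re • Complex.I := by
      apply Complex.ext <;> simp
    have a3 : ‖y‖ ^ 2 = y.re ^ 2 + y.im ^ 2 := by
      rw [Complex.sq_norm, Complex.normSq_apply]; ring
    rw [a3, a2]
    generalize ρ y = q
    conv_lhs => rw [a1]
    simp only [map_add, map_smul, ContinuousLinearMap.add_apply, ContinuousLinearMap.smul_apply,
      smul_eq_mul, Complex.add_re, Complex.add_im, Complex.smul_re, Complex.smul_im,
      Complex.one_re, Complex.one_im, Complex.I_re, Complex.I_im]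
    ring
  rw [integral_add i1 i2, h1, integral_const_mul] at e
  rw [m2]; linarith

lemma lap_eq (u : ℂ → ℝ) (x : ℂ) : Δ u x =
    fderiv ℝ (fderiv ℝ u) x 1 1 + fderiv ℝ (fderiv ℝ u) x Complex.I Complex.I := by
  rw [laplacian_eq_iteratedFDeriv_complexPlane]
  simp [iteratedFDeriv_two_apply]

/-- second order expansion of the averages, uniform on compact sets -/
theorem Bump.taylor (h : Bump ρ) {u : ℂ → ℝ} {D K : Set ℂ} (ho : IsOpen D)
    (hu : ContDiffOn ℝ 2 u D) (hK : K ⊆ D) (kc : IsCompact K) {ε : ℝ} (ε0 : 0 < ε) :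
    ∃ s > 0, ∀ r, 0 ≤ r → r ≤ s → ∀ x ∈ K,
      |av ρ r u x - u x - m2 ρ / 4 * r ^ 2 * Δ u x| ≤ ε * r ^ 2 := by
  obtain ⟨δ, δ0, hδ⟩ := kc.exists_cthickening_subset_open ho hK
  set B := fderiv ℝ (fderiv ℝ u) with hB
  have Bc : ContinuousOn B D :=
    (hu.fderiv_of_isOpen (m := 1) ho (by norm_num)).continuousOn_fderiv_of_isOpen ho le_rfl
  have uc := (kc.cthickening (r := δ)).uniformContinuousOn_of_continuous (Bc.mono hδ)
  obtain ⟨η, η0, hη⟩ := (Metric.uniformContinuousOn_iff (f := B)).1 uc ε ε0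
  refine ⟨min δ (η / 2), by positivity, fun r r0 hr x hx => ?_⟩
  have rδ := hr.trans (min_le_left _ _)
  have rη := hr.trans (min_le_right _ _)
  have sub : closedBall x r ⊆ cthickening δ K :=
    (closedBall_subset_closedBall rδ).trans (closedBall_subset_cthickening hx δ)
  have pt : ∀ y : ℂ, ‖y‖ ≤ 1 → |u (x + r * y) - u x - fderiv ℝ u x (r * y) -
      B x (r * y) (r * y) / 2| ≤ ε * r ^ 2 := by
    intro y hy
    have nv : ‖(r : ℂ) * y‖ ≤ r := by
      rw [norm_mul, Complex.norm_real, Real.norm_of_nonneg r0]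
      exact mul_le_of_le_one_right r0 hy
    have mem : ∀ t ∈ Icc (0 : ℝ) 1, x + t • ((r : ℂ) * y) ∈ closedBall x r := by
      intro t ht
      rw [mem_closedBall, dist_eq_norm, add_sub_cancel_left, norm_smul, Real.norm_of_nonneg ht.1]
      exact (mul_le_of_le_one_left (norm_nonneg _) ht.2).trans nv
    refine (taylor_seg ho hu (fun t ht => hδ (sub (mem t ht))) fun t ht => ?_).trans
      (mul_le_mul_of_nonneg_left (pow_le_pow_left₀ (norm_nonneg _) nv 2) ε0.le)
    refine (dist_eq_norm (B _) (B x)).symm.le.trans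
      (hη _ (sub (mem t ht)) _ (sub (mem_closedBall_self r0)) ?_).le
    have := mem t ht
    rw [mem_closedBall] at this
    linarith
  have := h.abs_int_le pt
  have i1 := h.intav r0 (hu.continuousOn.mono (sub.trans hδ))
  have i2 : Integrable fun y => u x * ρ y := h.int.const_mul _
  have i3 : Integrable fun y : ℂ => fderiv ℝ u x (r * y) * ρ y := h.intg (by fun_prop)
  have i4 : Integrable fun y : ℂ => B x (r * y) (r * y) / 2 * ρ y := h.intg (by fun_prop)
  have v3 : ∫ y : ℂ, fderiv ℝ u x (r * y) * ρ y = 0 := by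
    simp only [← Complex.real_smul, map_smul, smul_eq_mul, mul_assoc, integral_const_mul,
      h.int_lin, mul_zero]
  have v4 : ∫ y : ℂ, B x (r * y) (r * y) / 2 * ρ y = m2 ρ / 4 * r ^ 2 * Δ u x := by
    have : ∀ y : ℂ, B x (r * y) (r * y) / 2 * ρ y = r ^ 2 / 2 * (B x y y * ρ y) := by
      intro y
      simp only [← Complex.real_smul, map_smul, ContinuousLinearMap.smul_apply, smul_eq_mul]
      ring
    simp only [this, integral_const_mul, h.int_bil, lap_eq]
    ring
  simp only [sub_mul] at this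
  have i5 : Integrable fun y : ℂ => u (x + r * y) * ρ y - u x * ρ y := i1.sub i2
  have i6 : Integrable fun y : ℂ => u (x + r * y) * ρ y - u x * ρ y -
      fderiv ℝ u x (r * y) * ρ y := i5.sub i3
  rw [integral_sub i6 i4, integral_sub i5 i3, integral_sub i1 i2, v3,
    v4, integral_const_mul, h.one, mul_one, sub_zero] at this
  exact this

/-- a smooth bump exists -/
theorem ex_bump : ∃ σ : ℂ → ℝ, Bump σ ∧ ContDiff ℝ (⊤ : ℕ∞) σ := by
  set g : ℂ → ℝ := fun y => expNegInvGlue (1 - ‖y‖ ^ 2) with hg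
  have gs : ContDiff ℝ (⊤ : ℕ∞) g :=
    expNegInvGlue.contDiff.comp (contDiff_const.sub (contDiff_norm_sq ℝ))
  have g0 : ∀ z, 1 ≤ ‖z‖ → g z = 0 := fun z hz =>
    expNegInvGlue.zero_of_nonpos (by nlinarith)
  have gc : HasCompactSupport g := HasCompactSupport.intro (isCompact_closedBall 0 1) fun z hz =>
    g0 z (by simp only [mem_closedBall, dist_zero_right, not_le] at hz; exact hz.le)
  have gp : 0 < ∫ y, g y := gs.continuous.integral_pos_of_hasCompactSupport_nonneg_nonzero (x := 0)
    gc (fun z => expNegInvGlue.nonneg _) (expNegInvGlue.pos_of_pos (by simp)).ne'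
  refine ⟨fun y => (∫ y, g y)⁻¹ * g y, ⟨continuous_const.mul gs.continuous, fun z =>
    mul_nonneg (by positivity) (expNegInvGlue.nonneg _), fun z hz => by rw [g0 z hz, mul_zero],
    fun z w e => by simp only [hg, e], ?_⟩, contDiff_const.mul gs⟩
  rw [integral_const_mul, inv_mul_cancel₀ gp.ne']

lemma Bump.sc_zero (h : Bump ρ) {x z : ℂ} {r : ℝ} (r0 : 0 < r) (hz : r ≤ ‖z - x‖) :
    sc ρ x r z = 0 := by
  rw [sc, h.supp, mul_zero]
  rw [norm_div, Complex.norm_real, Real.norm_of_nonneg r0.le, le_div_iff₀ r0, one_mul]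
  exact hz

lemma Bump.sc_cont (h : Bump ρ) (r : ℝ) : Continuous fun p : ℂ × ℂ => sc ρ p.1 r p.2 :=
  continuous_const.mul (h.cont.comp (by fun_prop))

lemma Bump.sc_symm (h : Bump ρ) (r : ℝ) (x z : ℂ) : sc ρ 0 r (x - z) = sc ρ x r z := by
  rw [sc, sc, h.rad ((x - z - 0) / r) ((z - x) / r)]
  rw [norm_div, norm_div, sub_zero, norm_sub_rev]

/-- continuous functions with the mean value property on circles are harmonic -/
theorem harm_of_circ {w : ℂ → ℝ} {D : Set ℂ} (ho : IsOpen D) (hw : ContinuousOn w D)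
    (mv : ∀ x t, 0 ≤ t → closedBall x t ⊆ D → circleAverage w x t = w x) :
    HarmonicOnNhd w D := by
  obtain ⟨σ, h, hs⟩ := ex_bump
  have mv' : ∀ x r, 0 ≤ r → closedBall x r ⊆ D → av σ r w x = w x := fun x r r0 hr =>
    h.av_of_circ r0 (hw.mono hr) fun t t0 ht =>
      mv x t t0 ((closedBall_subset_closedBall ht).trans hr)
  have c2 : ContDiffOn ℝ 2 w D := by
    intro x hx
    obtain ⟨s, s0, hs'⟩ := nhds_basis_closedBall.mem_iff.1 (ho.mem_nhds hx)
    have i1 : Integrable ((closedBall x s).indicator w) :=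
      (integrable_indicator_iff measurableSet_closedBall).2
        ((hw.mono hs').integrableOn_compact (isCompact_closedBall _ _))
    have g1 : ContDiff ℝ (⊤ : ℕ∞) (sc σ 0 (s / 2)) :=
      contDiff_const.mul (hs.comp ((contDiff_id.sub contDiff_const).div_const _))
    have g2 : HasCompactSupport (sc σ 0 (s / 2)) :=
      HasCompactSupport.intro (isCompact_closedBall 0 (s / 2)) fun z hz =>
        h.sc_zero (by positivity) (by
          simp only [mem_closedBall, dist_zero_right, not_le] at hz; simpa using hz.le)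
    have sm := g2.contDiff_convolution_right (ContinuousLinearMap.mul ℝ ℝ) (μ := volume)
      i1.locallyIntegrable g1
    refine (((sm.of_le (m := 2) (WithTop.coe_le_coe.2 (le_top : (2 : ℕ∞) ≤ ⊤))).contDiffAt (x := x)).congr_of_eventuallyEq
      ?_).contDiffWithinAt
    filter_upwards [ball_mem_nhds x (show 0 < s / 2 by positivity)] with y hy
    have hsub : closedBall y (s / 2) ⊆ closedBall x s := fun z hz => by
      rw [mem_closedBall] at hz ⊢
      rw [mem_ball] at hy
      linarith [dist_triangle z y x]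
    rw [← mv' y (s / 2) (by positivity) (hsub.trans hs'),
      h.av_congr (u := (closedBall x s).indicator w) (by positivity)
        (fun z hz => (indicator_of_mem (hsub hz) w).symm), ← int_sc (by positivity)]
    simp only [convolution_def, ContinuousLinearMap.mul_apply', h.sc_symm]
  have l0 : ∀ x ∈ D, Δ w x = 0 := by
    intro x hx
    have m0 := h.m2_pos
    have : ∀ ε > 0, |Δ w x| ≤ ε := by
      intro ε ε0
      obtain ⟨s, s0, hs'⟩ := h.taylor ho c2 (singleton_subset_iff.2 hx) isCompact_singleton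
        (show 0 < m2 σ / 4 * ε by positivity)
      obtain ⟨t, t0, ht⟩ := nhds_basis_closedBall.mem_iff.1 (ho.mem_nhds hx)
      have q0 : 0 < min s t := by positivity
      have := hs' _ q0.le (min_le_left _ _) x rfl
      rw [mv' x _ q0.le ((closedBall_subset_closedBall (min_le_right _ _)).trans ht), sub_self,
        zero_sub, abs_neg, abs_mul, abs_of_pos (by positivity)] at this
      have h3 : 0 < m2 σ / 4 * min s t ^ 2 := by positivity
      refine le_of_mul_le_mul_left (this.trans_eq ?_) h3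
      ring
    exact abs_nonpos_iff.1 (le_of_forall_pos_le_add fun ε ε0 => by simpa using this ε ε0)
  intro x hx
  refine ⟨c2.contDiffAt (ho.mem_nhds hx), ?_⟩
  filter_upwards [ho.mem_nhds hx] with y hy using l0 y hy

end Pool.Agent.Lib.MP_6359c9_pr.End
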