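import Mathlib

/-! Loewner chains by their differential equation, curves that generate them, chordal SLE4. -/

namespace Pool.Agent.Lib.MP_6359c9_pr

open Set MeasureTheory ProbabilityTheory
open scoped NNReal ENNReal

/-- the Loewner equation `g' = 2 / (g - W)` started at `z` has a solution on `[0, t]` -/
def Alive (W : ℝ≥0 → ℝ) (t : ℝ≥0) (z : ℂ) : Prop :=
  ∃ g : ℝ → ℂ, g 0 = z ∧ ∀ s : ℝ≥0, s ≤ t → g s ≠ W s ∧
    HasDerivWithinAt g (2 / (g s - W s)) (Icc 0 (t : ℝ)) s

/-- curves in the Riemann sphere, with the topology of uniform convergence -/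
abbrev Crv := C(ℝ≥0∞, OnePoint ℂ)

noncomputable instance : MeasurableSpace Crv := borel _

/-- the upper half plane minus `γ [0, t]` -/
def Off (γ : Crv) (t : ℝ≥0) : Set ℂ := {z | 0 < z.im ∧ ∀ s ≤ (t : ℝ≥0∞), γ s ≠ z}

/-- `γ` generates the Loewner chain driven by `W`: the points of the upper half plane that are
alive at time `t` form the unbounded component of the half plane minus `γ [0, t]` -/
def Gen (γ : Crv) (W : ℝ≥0 → ℝ) : Prop :=
  ∀ (t : ℝ≥0) (z : ℂ), 0 < z.im →
    (Alive W t z ↔ ¬Bornology.IsBounded (connectedComponentIn (Off γ t) z))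

/-- `μ` is the law of chordal SLE4 in the upper half plane from `0` to `∞`: the law of a curve
that generates the Loewner chain driven by `2 B`, with `B` a standard Brownian motion -/
def IsSLE4 (μ : Measure Crv) : Prop :=
  ∃ (Ω : Type) (_ : MeasurableSpace Ω) (P : Measure Ω) (γ : Ω → Crv) (B : ℝ≥0 → Ω → ℝ),
    IsBrownianReal B P ∧ HasLaw γ μ P ∧ ∀ᵐ ω ∂P, Gen (γ ω) fun t => 2 * B t ω

end Pool.Agent.Lib.MP_6359c9_pr
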