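import Mathlib

/-! Hydrodynamically normalised conformal maps. -/

namespace Pool.Agent.Lib.MP_6359c9_pr

open Set Filter Topology Bornology

/-- the open upper half plane -/
def UH : Set ℂ := {z | 0 < z.im}

/-- `g` maps the domain `U`, the half plane minus a bounded set, conformally onto the half plane
and `g z = z + a / z + o (1 / z)` at infinity; `a` is the half plane capacity -/
structure Hyd (U : Set ℂ) (g : ℂ → ℂ) (a : ℝ) : Prop where
  op : IsOpen U
  bd : IsBounded (UH \ U)
  sub : U ⊆ UH
  hol : DifferentiableOn ℂ g U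
  bij : BijOn g U UH
  lim : Tendsto (fun z => z * (g z - z)) (cobounded ℂ ⊓ 𝓟 UH) (𝓝 a)

end Pool.Agent.Lib.MP_6359c9_pr
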