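import Pool.Agent.Lib.MP_6359c9_pr.Stmt
import Pool.Agent.Lib.MP_6359c9_pr.GeDef
import Pool.Agent.Lib.MP_6359c9_pr.LwDef

/-! Definitions used in the final statement for MP_6359c9_pr (Q1). FROZEN. -/

namespace Pool.Agent.Lib.MP_6359c9_pr

open Set Filter Topology Bornology
open scoped NNReal ENNReal

/-- the common end point of the two arcs on the edge `c (n - 1), c n = c 0` -/
noncomputable def Dom.a {δ : ℝ} (Q : Dom δ) : ℂ :=
  midpoint ℝ (pos δ (Q.c (Q.n - 1))) (pos δ (Q.c Q.n))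

/-- the common end point of the two arcs on the edge `c (m - 1), c m` -/
noncomputable def Dom.b {δ : ℝ} (Q : Dom δ) : ℂ :=
  midpoint ℝ (pos δ (Q.c (Q.m - 1))) (pos δ (Q.c Q.m))

/-- the level line: the connected component of the zero set of the extension of `h` to the
closed domain that contains the end point `a` -/
def Dom.line {δ : ℝ} (Q : Dom δ) (h : V → ℤ) : Set ℂ :=
  connectedComponentIn {z ∈ closure Q.D | ext δ h z = 0} Q.a

/-- `ψ` maps the half plane conformally onto `D`, with `0 ↦ a` and `∞ ↦ b` -/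
structure Unif (D : Set ℂ) (a b : ℂ) (ψ : ℂ → ℂ) : Prop where
  hol : DifferentiableOn ℂ ψ UH
  bij : BijOn ψ UH D
  zero : Tendsto ψ (𝓝[UH] 0) (𝓝 a)
  inf : Tendsto ψ (cobounded ℂ ⊓ 𝓟 UH) (𝓝 b)

/-- `β` is a simple curve from `0` to `∞` in the half plane, `ψ` maps it onto `G` (end points
omitted), and it is parametrised by half plane capacity: `hcap β [0, t] = 2 t` -/
def Param (ψ : ℂ → ℂ) (G : Set ℂ) (β : Crv) : Prop :=
  β ∞ = OnePoint.infty ∧ ∃ p : ℝ≥0 → ℂ, (∀ t : ℝ≥0, β t = p t) ∧ p 0 = 0 ∧ Function.Injective p ∧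
    (∀ t, 0 < t → p t ∈ UH) ∧ ψ '' (p '' Ioi 0) = G ∧
    ∀ t : ℝ≥0, ∃ g, Hyd (UH \ p '' Iic t) g (2 * t)

/-- the statement -/
def SleSt : Prop :=
  ∀ (Ω : Set ℂ) (ψ : ℂ → ℂ), IsBounded Ω → DifferentiableOn ℂ ψ UH → BijOn ψ UH Ω →
  ∀ (δ : ℕ → ℝ), (∀ n, 0 < δ n) → Tendsto δ atTop (𝓝 0) →
  ∀ (Q : ∀ n, Dom (δ n)) (ψn : ℕ → ℂ → ℂ), (∀ n, Unif (Q n).D (Q n).a (Q n).b (ψn n)) →
    TendstoLocallyUniformlyOn ψn ψ atTop UH →
    (∀ n, ∀ h ∈ (Q n).H, (Q n).b ∈ (Q n).line h ∧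
      ∃! β, Param (ψn n) ((Q n).line h \ {(Q n).a, (Q n).b}) β) ∧
    (∃! μ, IsSLE4 μ) ∧
    ∀ μ, IsSLE4 μ → ∀ β : ℕ → (V → ℤ) → Crv,
      (∀ n, ∀ h ∈ (Q n).H, Param (ψn n) ((Q n).line h \ {(Q n).a, (Q n).b}) (β n h)) →
      ∀ F : BoundedContinuousFunction Crv ℝ,
        Tendsto (fun n => mean (Q n).H fun h => F (β n h)) atTop (𝓝 (∫ γ, F γ ∂μ))

end Pool.Agent.Lib.MP_6359c9_pr
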