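import Pool.Agent.Lib.MP_6359c9_pr.ExTri
import Pool.Agent.Lib.MP_6359c9_pr.SlStmt

/-! The interface as a curve. -/

namespace Pool.Agent.Lib.MP_6359c9_pr.Xp

open Set WD Filter Topology

section pl
variable {N k : ℕ} {x : ℕ → ℂ} {t : ℝ}

lemma cont_pl (N : ℕ) (x : ℕ → ℂ) : Continuous (pl N x) := by unfold pl; fun_prop

lemma pl_add (hk : k < N) (x : ℕ → ℂ) (h0 : 0 ≤ t) (h1 : t ≤ 1) :
    pl N x (k + t) = (1 - t) • x k + t • x (k + 1) := by
  obtain ⟨m, rfl⟩ := Nat.exists_eq_add_of_lt hk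
  rw [pl, show k + m + 1 = k + 1 + m by omega, Finset.sum_range_add, Finset.sum_range_succ,
    Finset.sum_congr rfl (g := fun j => x (j + 1) - x j) fun j hj => ?_, Finset.sum_range_sub,
    Finset.sum_eq_zero fun j _ => ?_, add_sub_cancel_left, min_eq_right h1, max_eq_right h0]
  · module
  · rw [max_eq_left (min_le_of_right_le ?_), zero_smul]
    push_cast
    linarith [(Nat.cast_nonneg j : (0 : ℝ) ≤ j)]
  · have : (j : ℝ) + 1 ≤ k := by exact_mod_cast Finset.mem_range.1 hj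
    rw [min_eq_left (by linarith), max_eq_right zero_le_one, one_smul]

lemma pl_ge (h : (N : ℝ) ≤ t) (x : ℕ → ℂ) : pl N x t = x N := by
  rw [pl, Finset.sum_congr rfl (g := fun j => x (j + 1) - x j) fun j hj => ?_, Finset.sum_range_sub,
    add_sub_cancel]
  have : (j : ℝ) + 1 ≤ N := by exact_mod_cast Finset.mem_range.1 hj
  rw [min_eq_left (by linarith), max_eq_right zero_le_one, one_smul]

lemma pl_nat (hk : k ≤ N) (x : ℕ → ℂ) : pl N x k = x k := by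
  rcases hk.eq_or_lt with rfl | hk
  · exact pl_ge le_rfl x
  · simpa using pl_add hk x le_rfl zero_le_one

lemma pl_seg (hk : k < N) (x : ℕ → ℂ) :
    pl N x '' Icc (k : ℝ) (k + 1) = segment ℝ (x k) (x (k + 1)) := by
  rw [segment_eq_image]
  refine Subset.antisymm ?_ ?_
  · rintro _ ⟨t, h, rfl⟩
    refine ⟨t - k, ⟨by linarith [h.1], by linarith [h.2]⟩, ?_⟩
    have := pl_add (t := t - k) hk x (by linarith [h.1]) (by linarith [h.2])
    rw [add_sub_cancel] at this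
    exact this.symm
  · rintro _ ⟨t, h, rfl⟩
    exact ⟨k + t, ⟨by linarith [h.1], by linarith [h.2]⟩, pl_add hk x h.1 h.2⟩

lemma split_time (h0 : 0 ≤ t) (h : t < N) : ∃ k < N, ∃ τ : ℝ, 0 ≤ τ ∧ τ < 1 ∧ t = k + τ :=
  ⟨⌊t⌋₊, (Nat.floor_lt h0).2 h, t - ⌊t⌋₊, by linarith [Nat.floor_le h0],
    by linarith [Nat.lt_floor_add_one t], by ring⟩

end pl

namespace St

variable {s : ℤ} {S : St s} {g g' : V → ℤ} {k j : ℕ} {d τ : ℝ} {z : ℂ}

/-- the boundary polygon -/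
def Fr (S : St s) (d : ℝ) : Set ℂ :=
  {z | ∃ i, z ∈ segment ℝ (pos d (S.c i)) (pos d (S.c (i + 1)))}

/-- the piece of the interface in the face ahead at step `k` -/
def seg (S : St s) (d : ℝ) (g : V → ℤ) (k : ℕ) : Set ℂ :=
  segment ℝ (mid d (S.e g k)) (mid d (S.e g (k + 1)))

/-- the point of the piece `k` with parameter `τ` -/
noncomputable def pt (S : St s) (d : ℝ) (g : V → ℤ) (k : ℕ) (τ : ℝ) : ℂ :=
  (1 - τ) • mid d (S.e g k) + τ • mid d (S.e g (k + 1))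

lemma mem_seg : z ∈ S.seg d g k ↔ ∃ τ, 0 ≤ τ ∧ τ ≤ 1 ∧ S.pt d g k τ = z := by
  rw [seg, segment_eq_image]
  exact ⟨fun ⟨τ, a, b⟩ => ⟨τ, a.1, a.2, b⟩, fun ⟨τ, a, b, c⟩ => ⟨τ, ⟨a, b⟩, c⟩⟩

lemma cont_Gam (S : St s) (d : ℝ) (g : V → ℤ) : Continuous (S.Gam d g) := cont_pl _ _

lemma Gam_add (hk : k < S.K g) (d : ℝ) (h0 : 0 ≤ τ) (h1 : τ ≤ 1) :
    S.Gam d g (k + τ) = S.pt d g k τ := pl_add hk _ h0 h1

lemma Gam_nat (hk : k ≤ S.K g) (d : ℝ) : S.Gam d g k = mid d (S.e g k) := pl_nat hk _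

lemma Gam_seg (hk : k < S.K g) (d : ℝ) : S.Gam d g '' Icc (k : ℝ) (k + 1) = S.seg d g k :=
  pl_seg hk _

lemma Gam_img (hk : k ≤ S.K g) (h0 : 0 < k) (d : ℝ) :
    S.Gam d g '' Icc (0 : ℝ) k = {z | ∃ j < k, z ∈ S.seg d g j} := by
  refine Subset.antisymm ?_ fun z ⟨j, a, b⟩ => ?_
  · rintro _ ⟨t, h, rfl⟩
    rcases h.2.eq_or_lt with e | e
    · obtain ⟨j, rfl⟩ : ∃ j, k = j + 1 := ⟨k - 1, by omega⟩
      exact ⟨j, by omega, by rw [e, Gam_nat hk]; exact right_mem_segment _ _ _⟩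
    · obtain ⟨j, a, τ, b, c, rfl⟩ := split_time h.1 e
      exact ⟨j, a, mem_seg.2 ⟨τ, b, c.le, (Gam_add (by omega) d b c.le).symm⟩⟩
  · rw [← Gam_seg (by omega)] at b
    refine image_mono (Icc_subset_Icc (Nat.cast_nonneg j) ?_) b
    exact_mod_cast a

/-- the history determines the beginning of the curve -/
lemma Gam_hist (h' : S.Adm g') (e : S.hist k g' = S.hist k g) (hk : k ≤ S.K g) (d : ℝ) :
    EqOn (S.Gam d g') (S.Gam d g) (Icc 0 k) := fun t h => by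
  have hk' := hist_le h' e hk
  rcases h.2.eq_or_lt with a | a
  · rw [a, Gam_nat hk, Gam_nat hk', hist_e e le_rfl]
  · obtain ⟨j, a', τ, b, c, rfl⟩ := split_time h.1 a
    rw [Gam_add (by omega) d b c.le, Gam_add (by omega) d b c.le, pt, pt, hist_e e a'.le,
      hist_e e a']

/-- barycentric coordinates along a piece -/
lemma Adm.pt_bc (h : S.Adm g) (d : ℝ) (k : ℕ) (τ : ℝ) :
    (g (S.nw g k) = s ∧ S.e g (k + 1) = (S.nw g k, (S.e g k).2) ∧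
      S.pt d g k τ = bc d (S.e g k).1 (S.e g k).2 ((1 - τ) / 2) (1 / 2) (τ / 2)) ∨
    (g (S.nw g k) = 1 - s ∧ S.e g (k + 1) = ((S.e g k).1, S.nw g k) ∧
      S.pt d g k τ = bc d (S.e g k).1 (S.e g k).2 (1 / 2) ((1 - τ) / 2) (τ / 2)) := by
  refine (h.cases k).imp (fun c => ⟨c.1, c.2, ?_⟩) fun c => ⟨c.1, c.2, ?_⟩ <;>
    rw [pt, c.2, mid_eq, mid_eq, bc, nw] <;> module

lemma Adm.pt_wg (h : S.Adm g) (hd : 0 < d) (k : ℕ) (h0 : 0 ≤ τ) (h1 : τ ≤ 1) :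
    S.pt d g k τ ∈ Tg d (S.ah g k) ∧ wg d (S.nw g k) (S.pt d g k τ) = τ / 2 ∧
      (τ < 1 → wg d (S.e g k).1 (S.pt d g k τ) ≠ 0 ∧ wg d (S.e g k).2 (S.pt d g k τ) ≠ 0) ∧
      (0 < τ → wg d (S.e g (k + 1)).1 (S.pt d g k τ) ≠ 0 ∧
        wg d (S.e g (k + 1)).2 (S.pt d g k τ) ≠ 0) ∧ ext d g (S.pt d g k τ) = 1 / 2 := by
  have a := h.adj k
  obtain ⟨-, l1, l2⟩ := h.lv k
  rcases h.pt_bc d k τ with ⟨c1, c2, c⟩ | ⟨c1, c2, c⟩ <;> rw [c, c2]
  · have B : Bar ((1 - τ) / 2) (1 / 2) (τ / 2) := ⟨by linarith, by norm_num, by linarith, by ring⟩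
    refine ⟨bc_mem hd a B, wg_thd hd a B, fun k => ?_, fun k => ?_, ?_⟩
    · rw [wg_fst hd a B, wg_snd hd a B]; constructor <;> linarith
    · simp only [nw]
      rw [wg_thd hd a B, wg_snd hd a B]; constructor <;> linarith
    · rw [ext_bc hd a B, l1, l2, ← nw, c1]; push_cast; ring
  · have B : Bar (1 / 2) ((1 - τ) / 2) (τ / 2) := ⟨by norm_num, by linarith, by linarith, by ring⟩
    refine ⟨bc_mem hd a B, wg_thd hd a B, fun k => ?_, fun k => ?_, ?_⟩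
    · rw [wg_fst hd a B, wg_snd hd a B]; constructor <;> linarith
    · simp only [nw]
      rw [wg_thd hd a B, wg_fst hd a B]; constructor <;> linarith
    · rw [ext_bc hd a B, l1, l2, ← nw, c1]; push_cast; ring

lemma Adm.seg_tg (h : S.Adm g) (hd : 0 < d) (k : ℕ) : S.seg d g k ⊆ Tg d (S.ah g k) := fun _ hz =>
  have ⟨_, a, b, c⟩ := mem_seg.1 hz
  c ▸ (h.pt_wg hd k a b).1

/-- the level line in a face that is crossed -/
lemma Adm.seg_iff (h : S.Adm g) (hd : 0 < d) (k : ℕ) :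
    z ∈ S.seg d g k ↔ z ∈ Tg d (S.ah g k) ∧ ext d g z = 1 / 2 := by
  refine ⟨fun hz => ⟨h.seg_tg hd k hz, ?_⟩, fun ⟨hz, e⟩ => ?_⟩
  · obtain ⟨τ, a, b, rfl⟩ := mem_seg.1 hz
    exact (h.pt_wg hd k a b).2.2.2.2
  obtain ⟨α, β, γ, B, rfl⟩ := (tg_bc hd (h.adj k)).1 hz
  obtain ⟨-, l1, l2⟩ := h.lv k
  rw [ext_bc hd (h.adj k) B, l1, l2, ← nw] at e
  obtain ⟨b1, b2, b3, b4⟩ := B
  have key : ∀ x y : ℝ, x + y = 1 → x * s + y * (1 - s) = 1 / 2 → x = 1 / 2 ∧ y = 1 / 2 := by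
    intro x y a b
    rcases S.hs with r | r <;> rw [r] at b <;> push_cast at b <;> constructor <;> linarith
  rcases h.pt_bc d k (2 * γ) with ⟨c1, -, c⟩ | ⟨c1, -, c⟩ <;> rw [c1] at e <;> push_cast at e
  · have := key (α + γ) β (by linarith) (by linarith)
    exact mem_seg.2 ⟨2 * γ, by linarith, by linarith, by rw [c]; congr 1 <;> linarith⟩
  · have := key α (β + γ) (by linarith) (by linarith)
    exact mem_seg.2 ⟨2 * γ, by linarith, by linarith, by rw [c]; congr 1 <;> linarith⟩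

/-- the faces at the edge `e k` -/
lemma Adm.two (h : S.Adm g) {p : V} (a : Ar (S.e g k).1 p) (b : Ar (S.e g k).2 p) :
    p = S.ah g k ∨ (∃ j, k = j + 1 ∧ p = S.ah g j) ∨ (k = 0 ∧ ¬S.L p) := by
  refine (ar_two (h.adj k) a b).imp_right fun e => ?_
  rcases k with _ | k
  exacts [.inr ⟨rfl, e ▸ S.behind⟩, .inl ⟨k, rfl, e.trans (S.back g k)⟩]

/-- the faces of the domain that meet the piece `k` -/
lemma Adm.meet (h : S.Adm g) (hd : 0 < d) {p : V} (hp : S.L p) (h1 : z ∈ S.seg d g k)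
    (h2 : z ∈ Tg d p) : p = S.ah g k ∨ (p = S.ah g (k + 1) ∧ z = mid d (S.e g (k + 1))) ∨
      ∃ j, k = j + 1 ∧ p = S.ah g j ∧ z = mid d (S.e g k) := by
  obtain ⟨τ, a, b, rfl⟩ := mem_seg.1 h1
  obtain ⟨-, w1, w2, w3, -⟩ := h.pt_wg hd k a b
  have f := S.face p hp
  rcases b.eq_or_lt with rfl | b
  · rcases h.two (wg_ar hd f h2 (w3 one_pos).1) (wg_ar hd f h2 (w3 one_pos).2) with
      e | ⟨j, e, e'⟩ | e
    exacts [.inr (.inl ⟨e, by simp [pt]⟩), .inl (by rw [e', Nat.succ_injective e]), by omega]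
  have u := wg_ar hd f h2 (w2 b).1
  have v := wg_ar hd f h2 (w2 b).2
  rcases a.eq_or_lt with rfl | a
  · rcases h.two u v with e | ⟨j, e, e'⟩ | e
    exacts [.inl e, .inr (.inr ⟨j, e, e', by simp [pt]⟩), (e.2 hp).elim]
  · exact .inl (ar_three (h.adj k) u v (wg_ar hd f h2 (by rw [← nw, w1]; linarith)))

lemma Adm.e_eq (h : S.Adm g) (a : (S.e g k).1 = (S.e g j).1 ∨ (S.e g k).1 = (S.e g j).2)
    (b : (S.e g k).2 = (S.e g j).1 ∨ (S.e g k).2 = (S.e g j).2) : S.e g k = S.e g j := by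
  obtain ⟨-, k1, k2⟩ := h.lv k
  obtain ⟨-, j1, j2⟩ := h.lv j
  have := S.hs
  exact Prod.ext (a.resolve_right fun e => by rw [e] at k1; omega)
    (b.resolve_left fun e => by rw [e] at k2; omega)

lemma Adm.e_inj (h : S.Adm g) (hk : k ≤ S.K g) (hj : j ≤ S.K g) (e : S.e g k = S.e g j) :
    k = j := by
  have : S.ah g k = S.ah g j := by rw [ah, e]; rfl
  rcases lt_trichotomy k j with a | a | a
  exacts [(h.ah_ne a hj this).elim, a, (h.ah_ne a hk this.symm).elim]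

lemma Adm.ah_inj (h : S.Adm g) (hk : k ≤ S.K g) (hj : j ≤ S.K g) (e : S.ah g k = S.ah g j) :
    k = j := by
  rcases lt_trichotomy k j with a | a | a
  exacts [(h.ah_ne a hj e).elim, a, (h.ah_ne a hk e.symm).elim]

/-- the curve is simple -/
theorem Adm.Gam_inj (h : S.Adm g) (hd : 0 < d) : InjOn (S.Gam d g) (Icc 0 (S.K g)) := by
  have A : ∀ k < S.K g, ∀ τ : ℝ, 0 ≤ τ → τ < 1 → ∀ j ≤ S.K g, S.pt d g k τ = mid d (S.e g j) →
      (k : ℝ) + τ = j := fun k hk τ a b j hj e => by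
    obtain ⟨-, w1, w2, -⟩ := h.pt_wg hd k a b.le
    rw [e] at w1 w2
    have m : ∀ x, wg d x (mid d (S.e g j)) ≠ 0 → x = (S.e g j).1 ∨ x = (S.e g j).2 :=
      fun x => seg_wg hd (h.adj j) (pos_mid _ _ _)
    have e' := h.e_eq (m _ (w2 b).1) (m _ (w2 b).2)
    have : τ / 2 = 0 := by
      by_contra z
      rcases m _ (w1 ▸ z) with y | y <;> rw [← e'] at y
      exacts [(h.adj k).thd.1.ne y.symm, (h.adj k).thd.2.ne y.symm]
    rw [h.e_inj hk.le hj e']; linarith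
  intro t ht t' ht' e
  rcases ht.2.eq_or_lt with rfl | a <;> rcases ht'.2.eq_or_lt with rfl | a'
  · rfl
  · obtain ⟨k, k1, τ, b, c, rfl⟩ := split_time ht'.1 a'
    rw [Gam_add k1 d b c.le, Gam_nat le_rfl] at e
    exact (A k k1 τ b c _ le_rfl e.symm).symm
  · obtain ⟨k, k1, τ, b, c, rfl⟩ := split_time ht.1 a
    rw [Gam_add k1 d b c.le, Gam_nat le_rfl] at e
    exact A k k1 τ b c _ le_rfl e
  obtain ⟨k, k1, τ, b, c, rfl⟩ := split_time ht.1 a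
  obtain ⟨j, j1, σ, b', c', rfl⟩ := split_time ht'.1 a'
  rw [Gam_add k1 d b c.le, Gam_add j1 d b' c'.le] at e
  have w := h.pt_wg hd k b c.le
  have w' := h.pt_wg hd j b' c'.le
  rcases h.meet hd (in_K j1) (mem_seg.2 ⟨τ, b, c.le, rfl⟩) (e ▸ w'.1) with y | y | ⟨i, -, -, y⟩
  · obtain rfl := h.ah_inj j1.le k1.le y
    have := w.2.1.symm.trans (e ▸ w'.2.1)
    linarith
  · have := A k k1 τ b c _ k1 y.2
    push_cast at this; linarith
  · rw [A k k1 τ b c _ k1.le y, A j j1 σ b' c' _ k1.le (e ▸ y)]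

lemma Adm.pt_not_Fr (h : S.Adm g) (hd : 0 < d) (hk : k < S.K g) (h0 : 0 ≤ τ) (h1 : τ < 1)
    (hp : 0 < (k : ℝ) + τ) : S.pt d g k τ ∉ S.Fr d := fun ⟨i, hz⟩ => by
  obtain ⟨-, w1, w2, -⟩ := h.pt_wg hd k h0 h1.le
  have m := fun x => seg_wg (x := x) hd (S.D.adj i) hz
  have a := h.adj k
  have c : CE S.c (S.e g k).1 (S.e g k).2 := ⟨i, by
    have := m _ (w2 h1).1; have := m _ (w2 h1).2; have := a.ne
    unfold SE; grind⟩
  rcases k with _ | k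
  · have := m _ (w1 ▸ (by simp at hp; linarith : τ / 2 ≠ 0))
    have := m _ (w2 h1).1; have := m _ (w2 h1).2
    have := a.ne; have := a.thd.1.ne; have := a.thd.2.ne
    unfold nw at *; grind
  · exact (S.D.jump _ _ a).1 (iff_of_true (in_K hk) (S.back g k ▸ in_K (by omega))) c

lemma Adm.Gam_mem (h : S.Adm g) (hd : 0 < d) {t : ℝ} (ht : t ∈ Icc (0 : ℝ) (S.K g)) :
    S.Gam d g t ∈ S.Cl d ∧ ext d g (S.Gam d g t) = 1 / 2 := by
  obtain ⟨j, a, b⟩ := (Gam_img le_rfl h.K_pos d).le ⟨t, ht, rfl⟩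
  have := (h.seg_iff hd j).1 b
  exact ⟨⟨_, in_K a, this.1⟩, this.2⟩

lemma Adm.Gam_not_Fr (h : S.Adm g) (hd : 0 < d) {t : ℝ} (ht : t ∈ Ioo (0 : ℝ) (S.K g)) :
    S.Gam d g t ∉ S.Fr d := by
  obtain ⟨k, k1, τ, b, c, rfl⟩ := split_time ht.1.le ht.2
  rw [Gam_add k1 d b c.le]
  exact h.pt_not_Fr hd k1 b c ht.1

/-- near the curve the level set is the curve -/
lemma Adm.near (h : S.Adm g) (hd : 0 < d) (hz : z ∈ S.Gam d g '' Icc 0 (S.K g)) :
    ∀ᶠ w in 𝓝 z, w ∈ S.Cl d → ext d g w = 1 / 2 → w ∈ S.Gam d g '' Icc 0 (S.K g) := by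
  rw [Gam_img le_rfl h.K_pos] at *
  obtain ⟨k, k1, hz⟩ := hz
  filter_upwards [tg_near d z] with w hw ⟨p, hp, a⟩ e
  rcases h.meet hd hp hz (hw p a) with rfl | ⟨rfl, -⟩ | ⟨j, rfl, rfl, -⟩
  · exact ⟨k, k1, (h.seg_iff hd _).2 ⟨a, e⟩⟩
  · exact ⟨k + 1, (Nat.succ_le_of_lt k1).lt_of_ne fun y => h.out_K (y ▸ hp),
      (h.seg_iff hd _).2 ⟨a, e⟩⟩
  · exact ⟨j, by omega, (h.seg_iff hd _).2 ⟨a, e⟩⟩

/-- the curve is a connected component of the level set -/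
theorem Adm.comp (h : S.Adm g) (hd : 0 < d) :
    connectedComponentIn {z ∈ S.Cl d | ext d g z = 1 / 2} (S.Gam d g 0) =
      S.Gam d g '' Icc 0 (S.K g) := by
  have m0 : (0 : ℝ) ∈ Icc (0 : ℝ) (S.K g) := ⟨le_rfl, Nat.cast_nonneg _⟩
  refine Subset.antisymm (fun z hz => by_contra fun n => ?_)
    ((isPreconnected_Icc.image _ (S.cont_Gam d g).continuousOn).subset_connectedComponentIn
      ⟨0, m0, rfl⟩ fun _ ⟨t, a, b⟩ => b ▸ h.Gam_mem hd a)
  obtain ⟨w, a, b, c⟩ := isPreconnected_connectedComponentIn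
    (interior {w | w ∈ S.Cl d → ext d g w = 1 / 2 → w ∈ S.Gam d g '' Icc 0 (S.K g)}) _
    isOpen_interior (isCompact_Icc.image (S.cont_Gam d g)).isClosed.isOpen_compl
    (fun w _ => (em _).imp (fun y => mem_interior_iff_mem_nhds.2 (h.near hd y)) id)
    ⟨_, mem_connectedComponentIn (h.Gam_mem hd m0),
      mem_interior_iff_mem_nhds.2 (h.near hd ⟨0, m0, rfl⟩)⟩ ⟨z, hz, n⟩
  have := connectedComponentIn_subset _ _ a
  exact c (interior_subset b this.1 this.2)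

namespace Of

variable {Q : Dom d} (O : S.Of Q) (hd : 0 < d)
include O

lemma ce {u v : V} (hd : 0 < d) (a : Adj u v) : CE S.c u v ↔ Q.CE u v := by
  have := S.D.jump u v a
  rw [O.L, O.L] at this
  simp only [a.face, a.symm.face, true_and] at this
  exact ⟨fun k => not_not.1 fun n => this.1 (Q.same hd a n) k,
    fun k => not_not.1 fun n => Q.diff hd k (this.2 n)⟩

include hd

lemma closure_eq : closure Q.D = S.Cl d := Set.ext fun z => by
  rw [Q.cl_iff hd]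
  exact exists_congr fun p => by rw [O.L, and_assoc]

lemma frontier_eq : frontier Q.D = S.Fr d := Set.ext fun z => by
  rw [Q.fr_iff]
  constructor
  · rintro ⟨i, a, b⟩
    obtain ⟨j, e | e⟩ := (O.ce hd (Q.adj i a)).2 ⟨i, a, .inl ⟨rfl, rfl⟩⟩
    · exact ⟨j, by rwa [e.1, e.2]⟩
    · exact ⟨j, by rwa [e.1, e.2, segment_symm]⟩
  · rintro ⟨i, b⟩
    obtain ⟨j, a, e | e⟩ := (O.ce hd (S.D.adj i)).1 ⟨i, .inl ⟨rfl, rfl⟩⟩
    · exact ⟨j, a, by rwa [e.1, e.2]⟩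
    · exact ⟨j, a, by rwa [e.1, e.2, segment_symm]⟩

lemma D_eq : Q.D = S.Cl d \ S.Fr d := by
  rw [← O.closure_eq hd, ← O.frontier_eq hd, closure_sdiff_frontier, Q.isOpen.interior_eq]

omit hd in
lemma mid_zero (g : V → ℤ) : mid d (S.e g 0) = Q.a := by
  have := Q.three
  change mid d (S.c 0, S.c (S.n - 1)) = _
  rw [O.n, Dom.a, Q.closed, ← mid_midpoint]
  rcases O.c with ⟨-, -, c⟩ | ⟨-, -, c⟩ <;> rw [c _ (by omega), c _ (by omega)]
  · exact mid_swap _ _ _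
  · simp

omit hd in
lemma mid_K (h : S.Adm g) : mid d (S.e g (S.K g)) = Q.b := by
  have := Q.m_pos
  have := Q.m_lt
  rw [h.e_K, Dom.b, ← mid_midpoint]
  rcases O.c with ⟨-, m, c⟩ | ⟨-, m, c⟩ <;> rw [m, c _ (by omega), c _ (by omega)]
  rw [mid_swap]
  congr 3 <;> omega

omit hd in
lemma Gam_zero (g : V → ℤ) : S.Gam d g 0 = Q.a := by
  rw [← O.mid_zero g, ← Gam_nat (Nat.zero_le _), Nat.cast_zero]

omit hd in
lemma Gam_K (h : S.Adm g) : S.Gam d g (S.K g) = Q.b := by rw [Gam_nat le_rfl, O.mid_K h]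

lemma Gam_in (h : S.Adm g) {t : ℝ} (ht : t ∈ Ioo (0 : ℝ) (S.K g)) : S.Gam d g t ∈ Q.D := by
  rw [O.D_eq hd]
  exact ⟨(h.Gam_mem hd (Ioo_subset_Icc_self ht)).1, h.Gam_not_Fr hd ht⟩

lemma ext_up (g : V → ℤ) (hz : z ∈ closure Q.D) : ext d (Q.up g) z = 2 * ext d g z - 1 := by
  obtain ⟨p, f, a, b⟩ := (Q.cl_iff hd).1 hz
  obtain ⟨u, v, k, rfl⟩ := face_lf f
  obtain ⟨α, β, γ, B, rfl⟩ := (tg_bc hd k).1 b
  have : ∀ x, Ar x (lf u v) → Q.up g x = 2 * g x - 1 := fun x y =>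
    if_pos ((Q.cl_iff hd).2 ⟨_, f, a, (ar_tg_iff hd f).2 y⟩)
  rw [ext_bc hd k B, ext_bc hd k B, this _ (ar_l k), this _ (ar_r k), this _ (ar_t k)]
  push_cast
  linear_combination -B.2.2.2

/-- the curve is the level line of the statement -/
theorem line_eq (h : S.Adm g) : Q.line (Q.up g) = S.Gam d g '' Icc 0 (S.K g) := by
  rw [← h.comp hd, O.Gam_zero, ← O.closure_eq hd, Dom.line]
  congr 1
  exact Set.ext fun z => and_congr_right fun hz => by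
    rw [O.ext_up hd g hz]
    constructor <;> intro <;> linarith

/-- the level line without its end points -/
theorem core_eq (h : S.Adm g) :
    Q.line (Q.up g) \ {Q.a, Q.b} = S.Gam d g '' Ioo 0 (S.K g) := by
  have k0 : (0 : ℝ) ≤ S.K g := Nat.cast_nonneg _
  rw [O.line_eq hd h, ← O.Gam_zero g, ← O.Gam_K h, ← image_pair,
    ← (h.Gam_inj hd).image_sdiff_subset (by simp [insert_subset_iff, k0]), Icc_sdiff_both]

end Of

end St

end Pool.Agent.Lib.MP_6359c9_pr.Xp
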