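import Pool.Agent.Lib.MP_6359c9_pr.ExSub

/-! The exploration: states, number of steps, Markov property. -/

namespace Pool.Agent.Lib.MP_6359c9_pr.Xp

open Set WD

/-- the law in `R` only depends on the data on the outer boundary -/
lemma ex_HD_eq {R D : Set V} {x y : V → ℤ} (hx : Lp x) (hy : Lp y)
    (hD : ∀ u ∈ R, ∀ v, Adj u v → v ∈ R ∨ v ∈ D) (e : ∀ v ∈ D, v ∉ R → x v = y v)
    {F F' : (V → ℤ) → ℝ} (hF : ∀ a ∈ HD R x, ∀ b ∈ HD R y, (∀ v ∈ R, a v = b v) → F a = F' b) :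
    Ex (HD R x) F = Ex (HD R y) F' := by
  classical
  have key : ∀ {x y : V → ℤ}, Lp y → (∀ v ∈ D, v ∉ R → x v = y v) → ∀ g ∈ HD R x,
      (fun v => if v ∈ R then g v else y v) ∈ HD R y := fun {x y} hy e g hg =>
    ⟨fun u v a => by
      have h := hg.1 u v a
      beta_reduce
      split_ifs with hu hv hv
      · exact h
      · rwa [← e v ((hD u hu v a).resolve_left hv) hv, ← hg.2 v hv]
      · rwa [← e u ((hD v hv u a.symm).resolve_left hu) hu, ← hg.2 u hu]
      · exact hy u v a, fun v hv => if_neg hv⟩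
  have b : BijOn (fun g v => if v ∈ R then g v else y v) (HD R x) (HD R y) :=
    bij_of_inv (ψ := fun g v => if v ∈ R then g v else x v) (key hy e)
      (key hx fun v a b => (e v a b).symm)
      (fun g hg => funext fun v => by
        by_cases h : v ∈ R
        exacts [by simp only [if_pos h], (if_neg h).trans (hg.2 v h).symm])
      fun g hg => funext fun v => by
        by_cases h : v ∈ R
        exacts [by simp only [if_pos h], (if_neg h).trans (hg.2 v h).symm]
  rw [← ex_bij b]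
  exact ex_congr fun g hg => hF g hg _ (b.1 hg) fun v hv => (if_pos hv).symm

namespace St

variable {s : ℤ} {S S' S'' : St s} {g g' : V → ℤ} {k j : ℕ}

lemma e_succ (S : St s) (g : V → ℤ) (k : ℕ) : S.e g (k + 1) = stp g (S.e g k) :=
  Function.iterate_succ_apply' _ _ _

/-- the face behind is the face that was ahead -/
lemma back (S : St s) (g : V → ℤ) (k : ℕ) :
    lf (S.e g (k + 1)).2 (S.e g (k + 1)).1 = S.ah g k := by rw [e_succ]; exact lf_stp _ _

lemma Adm.lv (h : S.Adm g) (k : ℕ) : Lv s g (S.e g k) := by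
  induction k with
  | zero => exact ⟨S.adj_zero, h.2.1 0 S.m_pos, h.2.2 _ (by have := S.m_lt; omega)
      (by have := S.m_lt; omega)⟩
  | succ k ih => rw [e_succ]; exact ih.stp S.hs h.1

lemma Adm.adj (h : S.Adm g) (k : ℕ) : Adj (S.e g k).1 (S.e g k).2 := (h.lv k).1

/-- the two possible steps -/
lemma Adm.cases (h : S.Adm g) (k : ℕ) :
    (g (S.nw g k) = s ∧ S.e g (k + 1) = (S.nw g k, (S.e g k).2)) ∨
      (g (S.nw g k) = 1 - s ∧ S.e g (k + 1) = ((S.e g k).1, S.nw g k)) := by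
  rw [e_succ]; exact (h.lv k).cases S.hs h.1

lemma Adm.ar_nw (h : S.Adm g) (k : ℕ) : Ar (S.nw g k) (S.ah g k) := ar_t (h.adj k)

lemma Adm.face (h : S.Adm g) (k : ℕ) : Face (S.ah g k) := (h.adj k).face

lemma xi_two (S : St s) (v : V) : S.xi v = 0 ∨ S.xi v = 1 := by
  have := S.hs
  unfold xi; split_ifs <;> omega

lemma xi_adm (S : St s) : S.Adm S.xi :=
  ⟨lp_of_two (k := 0) S.xi_two, fun i h => if_pos ⟨i, h, rfl⟩, fun i h h' => if_neg
    fun ⟨j, a, b⟩ => by have := S.inj (by have := S.m_lt; omega) h' b; omega⟩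

lemma Adm.eq (h : S.Adm g) (h' : S.Adm g') (i : ℕ) : g (S.c i) = g' (S.c i) := by
  obtain ⟨j, a, b⟩ := S.rep i
  rw [← b]
  rcases lt_or_ge j S.m with k | k
  · rw [h.2.1 j k, h'.2.1 j k]
  · rw [h.2.2 j k a, h'.2.2 j k a]

lemma Adm.of_mem {ξ : V → ℤ} (h : S.Adm ξ) (hg : g ∈ HD S.R ξ) : S.Adm g :=
  ⟨hg.1, fun i a => (hg.2 _ (S.D.out i)).trans (h.2.1 i a),
    fun i a b => (hg.2 _ (S.D.out i)).trans (h.2.2 i a b)⟩

lemma fin_R (S : St s) : S.R.Finite := S.D.wall.fin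

lemma cls (S : St s) : Cls S.R := ⟨S.fin_R, S.D.wall.coconn⟩

lemma Adm.ok {ξ : V → ℤ} (h : S.Adm ξ) : Ok (HD S.R ξ) := h.1.ok S.fin_R

/-- the data changes twice along the cycle -/
lemma Adm.chg (h : S.Adm g) (i : ℕ) (e : g (S.c i) ≠ g (S.c (i + 1))) :
    S.c i = S.c (S.m - 1) ∨ S.c i = S.c (S.n - 1) := by
  obtain ⟨j, -, a, b⟩ := S.D.rep 0 i
  have := S.m_lt
  rw [← b 1, show S.c i = S.c j from (b 0).symm] at *
  by_contra z
  have z1 : j ≠ S.m - 1 := fun y => z (.inl (by rw [y]))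
  have z2 : j ≠ S.n - 1 := fun y => z (.inr (by rw [y]))
  rcases lt_or_ge j S.m with k | k
  · exact e (by rw [h.2.1 j k, h.2.1 _ (by omega)])
  · exact e (by rw [h.2.2 j k (by omega), h.2.2 _ (by omega) (by omega)])

namespace After

variable (A : S.After g k S')
include A

lemma e (j : ℕ) : S'.e g j = S.e g (k + j) := by
  rw [add_comm, St.e, St.e, Function.iterate_add_apply, ← A.cur]; rfl

lemma ah (j : ℕ) : S'.ah g j = S.ah g (k + j) := by rw [St.ah, A.e]; rfl

lemma nw (j : ℕ) : S'.nw g j = S.nw g (k + j) := by rw [St.nw, A.e]; rfl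

lemma now : S'.L (S.ah g k) := by rw [St.ah, A.cur]; exact S'.ori

lemma sub_R : S'.R ⊆ S.R := fun _ hv => S.mem_R.2 fun p a => A.sub p (S'.mem_R.1 hv p a)

lemma not_rev (h : S.Adm g) {v : V} (hv : v ∈ S'.R) : v ∉ S.Rev g k := fun ⟨j, a, b⟩ =>
  (A.old j a).2 (S'.mem_R.1 hv _ (b ▸ h.ar_nw j))

lemma trans (B : S'.After g j S'') : S.After g (k + j) S'' where
  cur := by rw [← A.e, B.cur]
  adm := B.adm
  sub p h := A.sub p (B.sub p h)
  old i h := by
    rcases lt_or_ge i k with a | a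
    · exact ⟨(A.old i a).1, fun z => (A.old i a).2 (B.sub _ z)⟩
    · obtain ⟨i, rfl⟩ := Nat.exists_eq_add_of_le a
      rw [← A.ah]
      exact (B.old i (by omega)).imp_left (A.sub _)
  bd u v a h1 h2 := by
    rcases A.bd u v a (B.sub _ h1) h2 with z | ⟨i, b, z⟩
    · exact (B.bd u v a h1 z).imp_right fun ⟨i, b, z⟩ => ⟨k + i, by omega, by rw [← A.ah, z]⟩
    · exact .inr ⟨i, by omega, z⟩
  wall i := by
    rcases B.wall i with ⟨i', z⟩ | ⟨i', b, z⟩
    · rw [← z]
      exact (A.wall i').imp_right fun ⟨i, b, z⟩ => ⟨i, by omega, z⟩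
    · exact .inr ⟨k + i', by omega, by rw [← A.nw, z]⟩
  fin := ⟨B.fin.1.trans A.fin.1, B.fin.2.trans A.fin.2⟩

end After

lemma Adm.refl (h : S.Adm g) : S.After g 0 S :=
  ⟨rfl, h, fun _ => id, by simp, fun _ _ _ _ => .inl, fun i => .inl ⟨i, rfl⟩, rfl, rfl⟩

lemma Adm.one (h : S.Adm g) (F : S.Form (g S.w) S') (H : S.Less S') : S.After g 1 S' := by
  have c : (g S.w = s ∧ S.e g 1 = (S.w, S.c (S.n - 1))) ∨
    (g S.w = 1 - s ∧ S.e g 1 = (S.c 0, S.w)) := h.cases 0
  have := S.three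
  have := S.m_pos
  have := S.m_lt
  have := S.hs
  have key : S.e g 1 = (S'.c 0, S'.c (S'.n - 1)) ∧ ((∀ i < S'.m, g (S'.c i) = s) ∧
      ∀ i, S'.m ≤ i → i < S'.n → g (S'.c i) = 1 - s) ∧
      (∀ i < S'.n, (∃ j, S.c j = S'.c i) ∨ S.w = S'.c i) ∧
      S'.c (S'.m - 1) = S.c (S.m - 1) ∧ S'.c S'.m = S.c S.m := by
    rcases F with ⟨-, a, f1, f2, f3, f4⟩ | ⟨-, a, f1, f2, f3, f4⟩ |
      ⟨j, j1, j2, j3, j4, a, f1, f2, f4⟩ | ⟨j, j1, j2, j3, j4, a, f1, f2, f4⟩ <;> rw [f1, f2]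
    · refine ⟨?_, ⟨fun i p => ?_, fun i p q => ?_⟩, fun i p => ?_, ?_, f4 _ (by omega)⟩
      · rw [(c.resolve_right (by omega)).2, f3, ← f4 _ (by omega)]; congr 2; omega
      · rcases i with _ | i
        exacts [f3 ▸ a, by rw [f4 i (by omega), h.2.1 i (by omega)]]
      · obtain ⟨i, rfl⟩ : ∃ i', i = i' + 1 := ⟨i - 1, by omega⟩
        rw [f4 i (by omega), h.2.2 i (by omega) (by omega)]
      · rcases i with _ | i
        exacts [.inr f3.symm, .inl ⟨i, (f4 i (by omega)).symm⟩]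
      · rw [← f4 _ (by omega)]; congr 1; omega
    · refine ⟨?_, ⟨fun i p => ?_, fun i p q => ?_⟩, fun i p => ?_, f4 _ (by omega), f4 _ (by omega)⟩
      · rw [(c.resolve_left (by omega)).2, Nat.add_sub_cancel, f3, f4 _ (by omega)]
      · rw [f4 i (by omega), h.2.1 i p]
      · rcases (Nat.lt_succ_iff.1 q).eq_or_lt with rfl | q
        exacts [f3 ▸ a, by rw [f4 i q, h.2.2 i p q]]
      · rcases (Nat.lt_succ_iff.1 p).eq_or_lt with rfl | q
        exacts [.inr f3.symm, .inl ⟨i, (f4 i q).symm⟩]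
    · refine ⟨?_, ⟨fun i p => ?_, fun i p q => ?_⟩, fun i p => .inl ⟨_, (f4 i p).symm⟩, ?_, ?_⟩
      · rw [(c.resolve_right (by omega)).2, f4 _ (by omega), f4 _ (by omega), ← j4]; congr 2; omega
      · rw [f4 i (by omega), h.2.1 _ (by omega)]
      · rw [f4 i q, h.2.2 _ (by omega) (by omega)]
      · rw [f4 _ (by omega)]; congr 1; omega
      · rw [f4 _ (by omega)]; congr 1; omega
    · refine ⟨?_, ⟨fun i p => ?_, fun i p q => ?_⟩, fun i p => .inl ⟨_, (f4 i (by omega)).symm⟩,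
        f4 _ (by omega), f4 _ (by omega)⟩
      · rw [(c.resolve_left (by omega)).2, Nat.add_sub_cancel, f4 _ (by omega), f4 _ le_rfl, j4]
      · rw [f4 i (by omega), h.2.1 _ p]
      · rw [f4 i (by omega), h.2.2 _ p (by omega)]
  refine ⟨key.1, ⟨h.1, key.2.1⟩, H.1, fun j a => ?_, fun u v a b c => (H.2.2 u v a b c).imp_right
    fun z => ⟨0, one_pos, z⟩, fun i => ?_, key.2.2.2⟩
  · obtain rfl : j = 0 := by omega
    exact ⟨S.ori, H.2.1⟩
  · obtain ⟨j, a, b⟩ := S'.rep i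
    rw [← b]
    exact (key.2.2.1 j a).imp_right fun z => ⟨0, one_pos, z⟩

/-- the state after one step, `a` being the height read at `S.w` -/
noncomputable def nx (S : St s) (a : ℤ) : St s :=
  @Classical.epsilon _ ⟨S⟩ fun S' => S.Form a S' ∧ S.Less S'


/-- the state after `k` steps -/
noncomputable def sat (S : St s) (g : V → ℤ) : ℕ → St s
  | 0 => S
  | k + 1 => (sat S g k).nx (g (S.nw g k))

/-- either the first step leaves the domain, or `nx` is the new state -/
lemma Adm.step (h : S.Adm g) : S.e g 1 = (S.c (S.m - 1), S.c S.m) ∨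
    (S.Form (g S.w) (S.nx (g S.w)) ∧ S.Less (S.nx (g S.w))) := by
  have c : (g S.w = s ∧ S.e g 1 = (S.w, S.c (S.n - 1))) ∨
    (g S.w = 1 - s ∧ S.e g 1 = (S.c 0, S.w)) := h.cases 0
  have := S.hs
  rcases S.form (g S.w) (c.imp And.left And.left) (fun j a e => e ▸ h.2.1 j a)
    (fun j a b e => e ▸ h.2.2 j a b) with ⟨a, b, e⟩ | ⟨a, b, e⟩ | e
  · exact .inl (by rw [(c.resolve_right (by omega)).2, e, b])
  · exact .inl (by rw [(c.resolve_left (by omega)).2, b, e])
  · exact .inr (@Classical.epsilon_spec _ (fun S' => S.Form (g S.w) S' ∧ S.Less S') e)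

lemma ce_end (S : St s) : CE S.c (S.c (S.m - 1)) (S.c S.m) :=
  ⟨S.m - 1, .inl ⟨rfl, by have := S.m_pos; congr 1; omega⟩⟩

/-- one more step -/
lemma After.step (A : S.After g k S') :
    (S.e g (k + 1) = (S.c (S.m - 1), S.c S.m) ∧ ¬S.L (S.ah g (k + 1))) ∨
      (S'.Form (g (S.nw g k)) (S'.nx (g (S.nw g k))) ∧ S'.Less (S'.nx (g (S.nw g k))) ∧
        S.After g (k + 1) (S'.nx (g (S.nw g k)))) := by
  have e : S'.w = S.nw g k := A.nw 0
  rcases A.adm.step with h | h
  · rw [A.e, A.fin.1, A.fin.2] at h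
    refine .inl ⟨h, fun z => ?_⟩
    have b := A.sub _ A.now
    rw [← S.back, h] at b
    rw [St.ah, h] at z
    exact (S.D.jump _ _ (ce_ie S.D S.ce_end).1).1 (iff_of_true z b) S.ce_end
  · have := A.trans (A.adm.one h.1 h.2)
    rw [e] at h this
    exact .inr ⟨h.1, h.2, this⟩

lemma Adm.after' (h : S.Adm g) (hk : ∀ j ≤ k, S.L (S.ah g j)) : S.After g k (S.sat g k) := by
  induction k with
  | zero => exact h.refl
  | succ k ih =>
    exact ((ih fun j a => hk j (by omega)).step.resolve_left fun z => z.2 (hk _ le_rfl)).2.2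

lemma Adm.ex_out (h : S.Adm g) : ∃ k, ¬S.L (S.ah g k) := by
  by_contra z
  have z' : ∀ k, S.L (S.ah g k) := fun k => not_not.1 fun y => z ⟨k, y⟩
  have ne : ∀ i j, i < j → S.e g i ≠ S.e g j := fun i j a e => by
    have A := h.after' (k := j) fun j _ => z' j
    exact (A.old i a).2 (by have := A.now; rwa [St.ah, ← e] at this)
  refine Set.infinite_of_injective_forall_mem (f := S.e g) (fun i j e => ?_) (fun k => ?_)
    (S.D.fin.prod S.D.fin)
  · rcases lt_trichotomy i j with a | a | a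
    exacts [(ne i j a e).elim, a, (ne j i a e.symm).elim]
  · exact ⟨⟨_, ar_l (h.adj k), z' k⟩, ⟨_, ar_r (h.adj k), z' k⟩⟩

lemma Adm.out_K (h : S.Adm g) : ¬S.L (S.ah g (S.K g)) := Nat.sInf_mem h.ex_out

lemma in_K (hk : k < S.K g) : S.L (S.ah g k) := not_not.1 (Nat.notMem_of_lt_sInf hk)

lemma K_le (hk : ¬S.L (S.ah g k)) : S.K g ≤ k := Nat.sInf_le hk

lemma Adm.lt_K (h : S.Adm g) (hk : ∀ j ≤ k, S.L (S.ah g j)) : k < S.K g :=
  lt_of_not_ge fun z => h.out_K (hk _ z)

lemma Adm.K_pos (h : S.Adm g) : 0 < S.K g :=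
  h.lt_K fun j a => by obtain rfl : j = 0 := by omega
                       exact S.ori

/-- the states along the exploration -/
theorem Adm.after (h : S.Adm g) (hk : k < S.K g) : S.After g k (S.sat g k) :=
  h.after' fun _ a => in_K (a.trans_lt hk)

theorem Adm.form (h : S.Adm g) (hk : k + 1 < S.K g) :
    (S.sat g k).Form (g (S.nw g k)) (S.sat g (k + 1)) ∧ (S.sat g k).Less (S.sat g (k + 1)) := by
  have := (h.after (k := k) (by omega)).step.resolve_left fun z => z.2 (in_K hk)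
  exact ⟨this.1, this.2.1⟩

/-- the exploration ends at the other change of the data -/
theorem Adm.e_K (h : S.Adm g) : S.e g (S.K g) = (S.c (S.m - 1), S.c S.m) := by
  obtain ⟨k, e⟩ : ∃ k, S.K g = k + 1 := ⟨S.K g - 1, by have := h.K_pos; omega⟩
  rw [e]
  refine ((h.after (k := k) (by omega)).step.resolve_right fun z => h.out_K ?_).1
  rw [e]; exact z.2.2.sub _ z.2.2.now

lemma After.lt (A : S.After g k S') (h : S.Adm g) : k < S.K g := h.lt_K fun j a => by
  rcases a.eq_or_lt with rfl | a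
  exacts [A.sub _ A.now, (A.old j a).1]

lemma After.K (A : S.After g k S') (h : S.Adm g) : k + S'.K g = S.K g := by
  have e : S.e g (k + S'.K g) = S.e g (S.K g) := by rw [← A.e, A.adm.e_K, h.e_K, A.fin.1, A.fin.2]
  refine le_antisymm (le_of_not_gt fun z => h.out_K ?_)
    (K_le (by have := h.out_K; rwa [St.ah, ← e] at this))
  obtain ⟨j, b⟩ := Nat.exists_eq_add_of_le (A.lt h).le
  rw [b, ← A.ah]
  exact A.sub _ (in_K (by omega))

/-- no face is crossed twice -/
lemma Adm.ah_ne (h : S.Adm g) (a : j < k) (hk : k ≤ S.K g) : S.ah g j ≠ S.ah g k := fun e => by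
  rcases hk.eq_or_lt with rfl | hk
  · exact h.out_K (e ▸ in_K a)
  · exact ((h.after hk).old j a).2 (e ▸ (h.after hk).now)

lemma Adm.nw_mem (h : S.Adm g) (hk : k < S.K g) : S.nw g k ∈ S.R ∨ ∃ i, S.c i = S.nw g k :=
  S.D.cl _ ⟨_, h.ar_nw k, in_K hk⟩

/-- the history is the list of the heights that were read -/
lemma Adm.hist_iff (h : S.Adm g) (h' : S.Adm g') :
    S.hist k g' = S.hist k g ↔ ∀ v ∈ S.Rev g k, g' v = g v := by
  have := S.hs
  constructor
  · rintro e _ ⟨j, a, rfl⟩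
    have e0 : S.e g' j = S.e g j := by simpa [hist, a.le] using congrFun e j
    have e1 : S.e g' (j + 1) = S.e g (j + 1) := by
      simpa [hist, Nat.succ_le_of_lt a] using congrFun e (j + 1)
    have n : S.nw g' j = S.nw g j := by rw [nw, e0]; rfl
    have ne := (h.adj j).thd.1.ne
    rcases h.cases j with c | c <;> rcases h'.cases j with c' | c' <;>
      rw [e1, e0, n, c.2] at c'
    · rw [c.1, c'.1]
    · exact (ne (congrArg Prod.fst c'.2).symm).elim
    · exact (ne (congrArg Prod.fst c'.2)).elim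
    · rw [c.1, c'.1]
  · intro e
    have key : ∀ j ≤ k, S.e g' j = S.e g j := fun j a => by
      induction j with
      | zero => rfl
      | succ j ih =>
        have e0 := ih (by omega)
        have n : S.nw g' j = S.nw g j := by rw [nw, e0]; rfl
        have := e _ ⟨j, a, rfl⟩
        rcases h.cases j with c | c <;> rcases h'.cases j with c' | c' <;> rw [e0, n] at c'
        exacts [c'.2.trans c.2.symm, by omega, by omega, c'.2.trans c.2.symm]
    exact funext fun j => key _ (min_le_right _ _)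

lemma hist_e (e : S.hist k g' = S.hist k g) (a : j ≤ k) : S.e g' j = S.e g j := by
  simpa [hist, a] using congrFun e j

lemma hist_ah (e : S.hist k g' = S.hist k g) (a : j ≤ k) : S.ah g' j = S.ah g j := by
  rw [ah, hist_e e a]; rfl

lemma hist_nw (e : S.hist k g' = S.hist k g) (a : j ≤ k) : S.nw g' j = S.nw g j := by
  rw [nw, hist_e e a]; rfl

lemma hist_of (e : ∀ j ≤ k, S.e g' j = S.e g j) : S.hist k g' = S.hist k g :=
  funext fun _ => e _ (min_le_right _ _)

lemma hist_anti (e : S.hist k g' = S.hist k g) (a : j ≤ k) : S.hist j g' = S.hist j g :=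
  hist_of fun _ b => hist_e e (b.trans a)

lemma hist_Rev (e : S.hist k g' = S.hist k g) : S.Rev g' k = S.Rev g k :=
  Set.ext fun _ => exists_congr fun j => and_congr_right fun a => by rw [hist_nw e a.le]

lemma hist_Xd (e : S.hist k g' = S.hist k g) (d : ℝ) : S.Xd d g' k = S.Xd d g k :=
  Set.ext fun _ => exists_congr fun j => and_congr_right fun a => by rw [hist_ah e a.le]

lemma hist_lt (h' : S.Adm g') (e : S.hist k g' = S.hist k g) (hk : k < S.K g) : k < S.K g' :=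
  h'.lt_K fun j a => by rw [hist_ah e a]; exact in_K (a.trans_lt hk)

lemma hist_le (h' : S.Adm g') (e : S.hist k g' = S.hist k g) (hk : k ≤ S.K g) : k ≤ S.K g' := by
  rcases k with _ | k
  exacts [Nat.zero_le _, hist_lt h' (hist_anti e k.le_succ) hk]

lemma hist_K (h : S.Adm g) (h' : S.Adm g') (e : S.hist k g' = S.hist k g) (hk : S.K g ≤ k) :
    S.K g' = S.K g :=
  le_antisymm (K_le (by rw [hist_ah e hk]; exact h.out_K)) (hist_le h' (hist_anti e hk) le_rfl)

/-- the state only depends on the history -/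
theorem sat_congr (h : S.Adm g) (h' : S.Adm g') (e : S.hist k g' = S.hist k g) :
    S.sat g' k = S.sat g k := by
  induction k with
  | zero => rfl
  | succ k ih =>
    rw [sat, sat, ih (hist_anti e k.le_succ), hist_nw e k.le_succ,
      (h.hist_iff h').1 e _ ⟨k, k.lt_succ_self, rfl⟩]

lemma After.congr (A : S.After g k S') (h : S.Adm g) (h' : S.Adm g')
    (e : S.hist k g' = S.hist k g) : S.After g' k S' := by
  have w : ∀ i, g' (S'.c i) = g (S'.c i) := fun i => by
    rcases A.wall i with ⟨j, z⟩ | z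
    exacts [z ▸ h'.eq h j, (h.hist_iff h').1 e _ z]
  exact ⟨(hist_e e le_rfl).trans A.cur, ⟨h'.1, fun i a => (w i).trans (A.adm.2.1 i a),
    fun i a b => (w i).trans (A.adm.2.2 i a b)⟩, A.sub,
    fun j a => by rw [hist_ah e a.le]; exact A.old j a,
    fun u v a b c => (A.bd u v a b c).imp_right fun ⟨j, p, q⟩ => ⟨j, p, (hist_ah e p.le).trans q⟩,
    fun i => by rw [hist_Rev e]; exact A.wall i, A.fin⟩

/-- the exploration only reads the closed domain -/
theorem Adm.congr (h : S.Adm g) (h' : S.Adm g') (e : ∀ v ∈ S.R, g' v = g v) :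
    S.K g' = S.K g ∧ S.hist (S.K g) g' = S.hist (S.K g) g := by
  have : S.hist (S.K g) g' = S.hist (S.K g) g := (h.hist_iff h').2 fun v ⟨j, a, b⟩ => by
    rcases h.nw_mem a with z | ⟨i, z⟩
    exacts [e v (b ▸ z), b ▸ z ▸ h'.eq h i]
  exact ⟨hist_K h h' this le_rfl, this⟩

lemma sat_add (A : S.After g k S') (e : S.sat g k = S') (j : ℕ) : S'.sat g j = S.sat g (k + j) := by
  induction j with
  | zero => exact e.symm
  | succ j ih => rw [← add_assoc, sat, sat, ih, A.nw]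

/-- a fibre of the history is a model in a smaller set -/
theorem fibre {ξ : V → ℤ} (hξ : S.Adm ξ) (hg : g ∈ HD S.R ξ) (k : ℕ) :
    {y ∈ HD S.R ξ | S.hist k y = S.hist k g} = HD (S.R \ S.Rev g k) g := by
  rw [← HD_frz hg]
  exact Set.ext fun y => and_congr_right fun hy => (hξ.of_mem hg).hist_iff (hξ.of_mem hy)

/-- Markov property -/
theorem After.markov {ξ ξ' : V → ℤ} (hξ : S.Adm ξ) (hg : g ∈ HD S.R ξ) (A : S.After g k S')
    (hξ' : S'.Adm ξ') {F F' : (V → ℤ) → ℝ}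
    (hF : ∀ x ∈ HD S.R ξ, ∀ y ∈ HD S'.R ξ', S.hist k x = S.hist k g → (∀ v ∈ S'.R, x v = y v) →
      F x = F' y) :
    Ex {y ∈ HD S.R ξ | S.hist k y = S.hist k g} F = Ex (HD S'.R ξ') F' := by
  classical
  have h := hξ.of_mem hg
  have sub : S'.R ⊆ S.R \ S.Rev g k := fun v a => ⟨A.sub_R a, A.not_rev h a⟩
  have fb := fibre hξ hg k
  rw [fb, ex_HD_cond sub, ← ex_const (h.1.ok (S.fin_R.subset sdiff_subset)) (Ex (HD S'.R ξ') F')]
  refine ex_congr fun x hx => ?_
  have mem : ∀ a ∈ HD S'.R x, a ∈ HD S.R ξ ∧ S.hist k a = S.hist k g := fun a ha =>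
    fb.ge (HD_sub hx sub ha)
  have hx' := (A.congr h (hξ.of_mem (fb.ge hx).1) (fb.ge hx).2).adm
  refine ex_HD_eq (D := range S'.c) hx.1 hξ'.1 S'.D.bd ?_
    fun a ha b hb e => hF a (mem a ha).1 b hb (mem a ha).2 e
  rintro _ ⟨i, rfl⟩ -
  exact hx'.eq hξ' i

/-- Markov property for the canonical states -/
theorem markov {ξ : V → ℤ} (hξ : S.Adm ξ) (hg : g ∈ HD S.R ξ) (hk : k < S.K g)
    {F : (V → ℤ) → ℝ} (hF : DependsOn F (S.sat g k).R) :
    Ex {y ∈ HD S.R ξ | S.hist k y = S.hist k g} F =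
      Ex (HD (S.sat g k).R (S.sat g k).xi) F :=
  ((hξ.of_mem hg).after hk).markov hξ hg (xi_adm _) fun _ _ _ _ _ e => hF e

lemma Of.adm {d : ℝ} {Q : Dom d} (O : S.Of Q) : S.Adm Q.xi := by
  have := Q.m_lt
  have := Q.m_pos
  have n := O.n
  refine ⟨lp_of_two (k := 0) Q.xi_two, fun i a => ?_, fun i a b => ?_⟩ <;>
    rcases O.c with ⟨e, m, c⟩ | ⟨e, m, c⟩ <;> rw [c i (by omega), e]
  · exact Q.xi_lt (by omega)
  · exact Q.xi_ge (by omega) (by omega)
  · exact Q.xi_ge (by omega) (by omega)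
  · exact Q.xi_lt (by omega)

lemma Of.mem {d : ℝ} {Q : Dom d} (O : S.Of Q) (hg : g ∈ HD Q.R Q.xi) : S.Adm g :=
  O.adm.of_mem (O.R ▸ hg)

end St

/-- the face set of a domain, for both orientations of the cycle -/
lemma faceD_of {d : ℝ} (hd : 0 < d) (Q : Dom d) {c : ℕ → V} (C : Cyc Q.n c)
    (h : ∀ u v, CE c u v ↔ Q.CE u v) :
    FaceD Q.R Q.n c fun p => Face p ∧ pos (d / 3) p ∈ Q.D :=
  have cl : ∀ v, (∃ p, Ar v p ∧ Face p ∧ pos (d / 3) p ∈ Q.D) → pos d v ∈ closure Q.D :=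
    fun v ⟨_, ⟨w, a, e⟩, k⟩ => (Q.vert_cl hd v).2 ⟨w, a, e ▸ k.2⟩
  { C with
    jump := fun u v a => by
      simp only [a.face, a.symm.face, true_and, h]
      exact ⟨fun k z => Q.diff hd z k, Q.same hd a⟩
    fin := (Q.fin_pos hd one_pos).subset fun v k => by simpa using cl v k
    inn := fun v k p ⟨w, a, e⟩ => e ▸ ⟨a.face, (Q.vert_in hd v).1 k w a⟩
    cl := fun v k => ((Q.vert_cl' hd v).1 (cl v k)).imp_right fun ⟨i, a, e⟩ =>
      ce_left ((h _ _).2 ⟨i, a, .inl ⟨e, rfl⟩⟩) }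

/-- every domain has a combinatorial form -/
theorem exists_of {d : ℝ} (hd : 0 < d) (Q : Dom d) : ∃ (s : ℤ) (S : St s), S.Of Q := by
  have h3 := Q.three
  have := Q.m_lt
  have := Q.m_pos
  have last : Q.c (Q.n - 1 + 1) = Q.c 0 := by rw [← Q.closed]; congr 1; omega
  have la : Adj (Q.c (Q.n - 1)) (Q.c 0) := last ▸ Q.adj _ (by omega)
  have lc : Q.CE (Q.c (Q.n - 1)) (Q.c 0) := ⟨Q.n - 1, by omega, .inl ⟨rfl, last⟩⟩
  have md : ∀ i < Q.n, i % Q.n = i := fun i => Nat.mod_eq_of_lt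
  by_cases o : pos (d / 3) (lf (Q.c 0) (Q.c (Q.n - 1))) ∈ Q.D
  · have C := cyc_mod h3 Q.simple (fun i a => Q.adj i (by omega)) la
    refine ⟨1, ⟨_, _, Q.m, _, _, .inr rfl, faceD_of hd Q C fun u v => ⟨fun k => ?_, fun k => ?_⟩,
      fun _ k => k.1, Q.m_pos, Q.m_lt, ?_⟩, rfl, rfl, fun _ => Iff.rfl,
      .inl ⟨rfl, rfl, fun i a => congrArg _ (md i a)⟩⟩
    · rcases ce_mod (by omega) k with ⟨i, a, k⟩ | k
      exacts [⟨i, by omega, k⟩, ⟨Q.n - 1, by omega, last ▸ k⟩]
    · obtain ⟨i, a, k⟩ := k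
      refine ⟨i, ?_⟩
      rcases succ_mod (by omega : 0 < Q.n) i with z | z <;> simp only [z.2, md i a] at z ⊢
      · exact k
      · rw [← last, ← z.1]; exact k
    · simp only [md 0 (by omega), md (Q.n - 1) (by omega)]
      exact ⟨la.symm.face, o⟩
  · have C := cyc_mod (a := fun i => Q.c (Q.n - 1 - i)) h3
      (fun i a j b e => by have := Q.simple _ (by omega) _ (by omega) e; omega)
      (fun i a => by
        have := (Q.adj (Q.n - 1 - (i + 1)) (by omega)).symm
        rwa [show Q.n - 1 - (i + 1) + 1 = Q.n - 1 - i by omega] at this)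
      (by simpa using la.symm)
    refine ⟨0, ⟨_, _, Q.n - Q.m, _, _, .inl rfl,
      faceD_of hd Q C fun u v => ⟨fun k => ?_, fun k => ?_⟩,
      fun _ k => k.1, by omega, by omega, ?_⟩, rfl, rfl, fun _ => Iff.rfl,
      .inr ⟨rfl, rfl, fun i a => by simp only [md i a]⟩⟩
    · rcases ce_mod (a := fun i => Q.c (Q.n - 1 - i)) (by omega) k with ⟨i, a, k⟩ | k
      · refine ⟨Q.n - 1 - (i + 1), by omega, ?_⟩
        rw [show Q.n - 1 - (i + 1) + 1 = Q.n - 1 - i by omega]
        unfold SE at k; tauto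
      · refine ⟨Q.n - 1, by omega, ?_⟩
        rw [last]
        simp only [SE, Nat.sub_self, Nat.sub_zero] at k; tauto
    · obtain ⟨i, a, k⟩ := k
      rcases (Nat.succ_le_of_lt a).eq_or_lt with z | z
      · refine ⟨Q.n - 1, ?_⟩
        obtain rfl : i = Q.n - 1 := by omega
        rw [last] at k
        simp only [SE, md (Q.n - 1) (by omega), show Q.n - 1 + 1 = Q.n by omega, Nat.mod_self,
          Nat.sub_self, Nat.sub_zero]
        tauto
      · refine ⟨Q.n - 1 - (i + 1), ?_⟩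
        simp only [SE, md (Q.n - 1 - (i + 1)) (by omega), md (Q.n - 1 - (i + 1) + 1) (by omega),
          show Q.n - 1 - (Q.n - 1 - (i + 1)) = i + 1 by omega,
          show Q.n - 1 - (Q.n - 1 - (i + 1) + 1) = i by omega]
        tauto
    · simp only [md 0 (by omega), md (Q.n - 1) (by omega), Nat.sub_self, Nat.sub_zero]
      have := Q.diff hd lc
      exact ⟨la.face, by tauto⟩

end Pool.Agent.Lib.MP_6359c9_pr.Xp
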