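import Pool.Agent.Lib.MP_6359c9_pr.ExDef

/-! A cycle drawn along edges of a face set bounds a smaller face set; one step of the
exploration. -/

namespace Pool.Agent.Lib.MP_6359c9_pr.Xp

open Set WD

lemma succ_mod {n : ℕ} (hn : 0 < n) (i : ℕ) : (i % n + 1 < n ∧ (i + 1) % n = i % n + 1) ∨
    (i % n = n - 1 ∧ (i + 1) % n = 0) := by
  have h := Nat.mod_lt i hn
  rw [← Nat.mod_add_mod]
  rcases (Nat.succ_le_of_lt h).eq_or_lt with e | e
  · exact .inr ⟨by omega, by rw [show i % n + 1 = n from e, Nat.mod_self]⟩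
  · exact .inl ⟨e, Nat.mod_eq_of_lt e⟩

lemma cyc_mod {n : ℕ} {a : ℕ → V} (h3 : 3 ≤ n) (hi : ∀ i < n, ∀ j < n, a i = a j → i = j)
    (ha : ∀ i, i + 1 < n → Adj (a i) (a (i + 1))) (hl : Adj (a (n - 1)) (a 0)) :
    Cyc n fun i => a (i % n) where
  three := h3
  per i := by rw [Nat.add_mod_right]
  inj i j p q e := by
    have hn : 0 < n := by omega
    have := Nat.le_of_dvd (by omega) ((Nat.modEq_iff_dvd' p.le).1
      (hi _ (Nat.mod_lt i hn) _ (Nat.mod_lt j hn) e))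
    omega
  adj i := by
    rcases succ_mod (by omega : 0 < n) i with h | h
    · rw [h.2]; exact ha _ h.1
    · rw [h.1, h.2]; exact hl

lemma ce_mod {n : ℕ} {a : ℕ → V} (hn : 0 < n) {u v : V} (h : CE (fun i => a (i % n)) u v) :
    (∃ i, i + 1 < n ∧ SE (a i) (a (i + 1)) u v) ∨ SE (a (n - 1)) (a 0) u v := by
  obtain ⟨i, h⟩ := h
  beta_reduce at h
  rcases succ_mod hn i with k | k
  · rw [k.2] at h; exact .inl ⟨_, k.1, h⟩
  · rw [k.1, k.2] at h; exact .inr h

lemma ce_symm {c : ℕ → V} {u v : V} (h : CE c u v) : CE c v u := h.imp fun _ => Or.symm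

lemma ce_left {c : ℕ → V} {u v : V} (h : CE c u v) : ∃ i, c i = u := by
  obtain ⟨i, h | h⟩ := h
  exacts [⟨_, h.1⟩, ⟨_, h.2⟩]

lemma ce_ie {R : Set V} {n : ℕ} {c : ℕ → V} {L : V → Prop} (D : FaceD R n c L) {u v : V}
    (h : CE c u v) : IE L u v := by
  obtain ⟨i, ⟨rfl, rfl⟩ | ⟨rfl, rfl⟩⟩ := h
  · exact ⟨D.adj i, by have := D.cyc i; tauto⟩
  · exact ⟨(D.adj i).symm, by have := D.cyc i; tauto⟩

/-- a cycle along edges of faces of `L` bounds a subset of `L` -/
theorem sub_cyc {R : Set V} {n : ℕ} {c : ℕ → V} {L : V → Prop} (D : FaceD R n c L) {n' : ℕ}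
    {c' : ℕ → V} (C : Cyc n' c') (h : ∀ u v, CE c' u v → IE L u v) :
    ∃ L' : V → Prop, (∀ p, L' p → L p) ∧ FaceD {v | ∀ p, Ar v p → L' p} n' c' L' := by
  obtain ⟨om, b1, b2, b3, b4⟩ := C.arc (i0 := 0) (i1 := n') (by omega) (by omega)
  obtain ⟨G, hG⟩ := bnd' om b1 fun v => by
    rw [b4, show c' n' = c' 0 by simpa using C.per 0, two]
  have one : ∀ u v, CE c' u v → om u v = 1 := by
    rintro u v ⟨i, e⟩
    obtain ⟨j, -, j1, j2⟩ := C.rep 0 i
    have := b3 j (by omega) j1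
    rw [if_pos (by omega), j2 1, show c' j = c' i from j2 0] at this
    rcases e with ⟨rfl, rfl⟩ | ⟨rfl, rfl⟩
    exacts [this, (b1 _ _).trans this]
  have eq : ∀ x y : ZMod 2, x + y = 0 → x = y := by decide
  have fo : ∀ v p p', Ar v p → Ar v p' → ¬L p → ¬L p' → G p = G p' := fun v p p' => by
    obtain ⟨x, y, e⟩ := D.pair v
    refine fan (L := fun c => ¬L c) (p := x) (q := y)
      (fun w k n1 n2 => not_congr ((D.jump _ _ k).2 (e w n1 n2))) fun w k l1 l2 => eq _ _ ?_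
    rw [hG _ _ k, b2 _ _ fun z => (h _ _ z).2.elim l1 l2]
  have io : ∀ j, ∃ p, Ar (c j) p ∧ Ar (c (j + 1)) p ∧ ¬L p := fun j => by
    have k := D.adj j
    have := D.cyc j
    by_cases e : L (lf (c j) (c (j + 1)))
    · exact ⟨_, ar_r k.symm, ar_l k.symm, by tauto⟩
    · exact ⟨_, ar_l k, ar_r k, e⟩
  obtain ⟨p0, e1, -, e3⟩ := io 0
  have ho : ∀ j p, Ar (c j) p → ¬L p → G p = G p0 := fun j => by
    induction j with
    | zero => exact fun x k l => fo _ _ _ k e1 l e3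
    | succ j ih =>
      obtain ⟨y, f1, f2, f3⟩ := io j
      exact fun x k l => (fo _ _ _ k f2 l f3).trans (ih y f1 f3)
  have z0 : ∀ x y z : ZMod 2, x + y = 0 → (x ≠ z ↔ y ≠ z) := by decide
  have z1 : ∀ x y z : ZMod 2, x + y = 1 → ¬(x ≠ z ↔ y ≠ z) := by decide
  have J : ∀ u v, Adj u v → (((L (lf u v) ∧ G (lf u v) ≠ G p0) ↔
      (L (lf v u) ∧ G (lf v u) ≠ G p0)) ↔ ¬CE c' u v) := fun u v k => by
    have key : (G (lf u v) ≠ G p0 ↔ G (lf v u) ≠ G p0) ↔ ¬CE c' u v :=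
      ⟨fun a b => z1 _ _ _ ((hG _ _ k).trans (one _ _ b)) a,
        fun b => z0 _ _ _ ((hG _ _ k).trans (b2 _ _ b))⟩
    have cy : ¬(L (lf u v) ↔ L (lf v u)) → ∃ i, c i = u := fun a =>
      ce_left (not_not.1 fun b => a ((D.jump _ _ k).2 b))
    by_cases l1 : L (lf u v) <;> by_cases l2 : L (lf v u)
    · simpa only [l1, l2, true_and] using key
    · obtain ⟨i, rfl⟩ := cy (by tauto)
      have := ho i _ (ar_r k.symm) l2
      rw [← key]; tauto
    · obtain ⟨i, rfl⟩ := cy (by tauto)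
      have := ho i _ (ar_l k) l1
      rw [← key]; tauto
    · exact iff_of_true (by tauto) fun z => (h _ _ z).2.elim l1 l2
  refine ⟨fun p => L p ∧ G p ≠ G p0, fun p a => a.1,
    { C with
      jump := J
      fin := D.fin.subset fun v ⟨p, a, b⟩ => ⟨p, a, b.1⟩
      inn := fun v a => a
      cl := fun v ⟨p, a, b⟩ => ?_ }⟩
  by_cases e : ∃ i, c' i = v
  · exact .inr e
  · refine .inl fun p' a' => ?_
    have := fan (L := fun _ => True) (Y := fun p => L p ∧ G p ≠ G p0) (v := v) (p := v) (q := v)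
      (fun _ _ _ _ => Iff.rfl) (fun w k _ _ => propext ((J _ _ k).2 fun z => e (ce_left z)))
      a a' trivial trivial
    exact this.mp b

/-- an edge from height `s` to height `1 - s` -/
def Lv (s : ℤ) (g : V → ℤ) (e : V × V) : Prop := Adj e.1 e.2 ∧ g e.1 = s ∧ g e.2 = 1 - s

section
variable {s : ℤ} {g : V → ℤ} {e : V × V}

lemma Lv.cases (hs : s = 0 ∨ s = 1) (hg : Lp g) (h : Lv s g e) :
    (g (thd e.1 e.2) = s ∧ Xp.stp g e = (thd e.1 e.2, e.2)) ∨
      (g (thd e.1 e.2) = 1 - s ∧ Xp.stp g e = (e.1, thd e.1 e.2)) := by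
  have h1 := hg _ _ h.1.thd.1
  have h2 := hg _ _ h.1.thd.2
  obtain ⟨-, h3, h4⟩ := h
  unfold Hp at h1 h2
  unfold Xp.stp
  split_ifs with k
  exacts [.inl ⟨by omega, rfl⟩, .inr ⟨by omega, rfl⟩]

lemma Lv.stp (hs : s = 0 ∨ s = 1) (hg : Lp g) (h : Lv s g e) : Lv s g (stp g e) := by
  rcases h.cases hs hg with k | k <;> rw [k.2]
  exacts [⟨h.1.thd.2.symm, k.1, h.2.2⟩, ⟨h.1.thd.1, h.2.1, k.1⟩]

/-- the face behind the new edge is the face that was ahead -/
lemma lf_stp (g : V → ℤ) (e : V × V) : lf (stp g e).2 (stp g e).1 = lf e.1 e.2 := by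
  unfold stp
  split_ifs
  exacts [lf_thd _ _, lf_thd' _ _]

end

namespace St

variable {s : ℤ} (S : St s) {g : V → ℤ}

lemma three : 3 ≤ S.n := S.D.three

lemma inj {i j : ℕ} (hi : i < S.n) (hj : j < S.n) (h : S.c i = S.c j) : i = j :=
  S.D.eq (i0 := 0) (by omega) (by omega) (by omega) (by omega) h

lemma c_n : S.c (S.n - 1 + 1) = S.c 0 := by
  have := S.three
  rw [← S.D.per 0]; congr 1; omega

lemma ce_zero : CE S.c (S.c 0) (S.c (S.n - 1)) := ⟨S.n - 1, .inr ⟨rfl, S.c_n⟩⟩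

lemma adj_zero : Adj (S.c 0) (S.c (S.n - 1)) := (ce_ie S.D S.ce_zero).1

lemma rep (i : ℕ) : ∃ j < S.n, S.c j = S.c i := by
  obtain ⟨j, -, a, b⟩ := S.D.rep 0 i
  exact ⟨j, by omega, b 0⟩

/-- the face behind the first edge is outside -/
lemma behind : ¬S.L (lf (S.c (S.n - 1)) (S.c 0)) := fun h =>
  (S.D.jump _ _ S.adj_zero).1 (iff_of_true S.ori h) S.ce_zero

lemma mem_R {v : V} : v ∈ S.R ↔ ∀ p, Ar v p → S.L p :=
  ⟨S.D.inn v, fun h => (S.D.cl v ⟨_, ar_l (WD.adj_dir v 0), h _ (ar_l (WD.adj_dir v 0))⟩).resolve_right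
    fun ⟨i, e⟩ => S.D.cyc i (iff_of_true (h _ (e ▸ ar_l (S.D.adj i)))
      (h _ (e ▸ ar_r (S.D.adj i).symm)))⟩

/-- the state cut out by a new cycle that uses old edges and edges of the first face -/
lemma cut {n' m' : ℕ} {a : ℕ → V} (h3 : 3 ≤ n') (h0 : 0 < m') (h1 : m' < n')
    (hi : ∀ i < n', ∀ j < n', a i = a j → i = j)
    (ha : ∀ i, i + 1 < n' → CE S.c (a i) (a (i + 1)) ∨
      (Adj (a i) (a (i + 1)) ∧ lf (a i) (a (i + 1)) = lf (S.c 0) (S.c (S.n - 1))))
    (hl : Adj (a (n' - 1)) (a 0) ∧ lf (a (n' - 1)) (a 0) = lf (S.c 0) (S.c (S.n - 1)))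
    (hu : ∀ i < n', ∀ j < n', a i = S.c 0 → a j = S.c (S.n - 1) →
      i + 1 ≠ j ∧ j + 1 ≠ i ∧ ¬(i = 0 ∧ j + 1 = n') ∧ ¬(j = 0 ∧ i + 1 = n')) :
    ∃ S' : St s, S'.n = n' ∧ S'.m = m' ∧ (∀ i < n', S'.c i = a i) ∧ (∀ p, S'.L p → S.L p) ∧
      ¬S'.L (lf (S.c 0) (S.c (S.n - 1))) ∧ ∀ u v, Adj u v → S'.L (lf u v) → S.L (lf v u) →
        S'.L (lf v u) ∨ lf (S.c 0) (S.c (S.n - 1)) = lf v u := by
  have C := cyc_mod h3 hi (fun i k => (ha i k).elim (fun e => (ce_ie S.D e).1) And.left) hl.1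
  have key : ∀ u v, CE (fun i => a (i % n')) u v → CE S.c u v ∨ (Adj u v ∧
      (lf u v = lf (S.c 0) (S.c (S.n - 1)) ∨ lf v u = lf (S.c 0) (S.c (S.n - 1)))) := by
    intro u v e
    rcases ce_mod (by omega) e with ⟨i, k, ⟨rfl, rfl⟩ | ⟨rfl, rfl⟩⟩ | ⟨rfl, rfl⟩ | ⟨rfl, rfl⟩
    · exact (ha i k).imp_right fun z => ⟨z.1, .inl z.2⟩
    · exact (ha i k).imp ce_symm fun z => ⟨z.1.symm, .inr z.2⟩
    · exact .inr ⟨hl.1, .inl hl.2⟩
    · exact .inr ⟨hl.1.symm, .inr hl.2⟩
  obtain ⟨L', l1, D'⟩ := sub_cyc S.D C fun u v e => (key u v e).elim (ce_ie S.D) fun z =>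
    ⟨z.1, z.2.elim (fun y => .inl (y.symm ▸ S.ori)) fun y => .inr (y.symm ▸ S.ori)⟩
  have nf : ¬L' (lf (S.c 0) (S.c (S.n - 1))) := fun z => by
    refine S.behind (l1 _ (((D'.jump _ _ S.adj_zero).2 fun e => ?_).1 z))
    rcases ce_mod (by omega) e with ⟨i, k, y | y⟩ | y | y
    · have := hu i (by omega) (i + 1) k y.1 y.2; omega
    · have := hu (i + 1) k i (by omega) y.2 y.1; omega
    · have := hu (n' - 1) (by omega) 0 (by omega) y.1 y.2; omega
    · have := hu 0 (by omega) (n' - 1) (by omega) y.2 y.1; omega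
  have e0 : a (0 % n') = a 0 := by rw [Nat.zero_mod]
  have e1 : a ((n' - 1) % n') = a (n' - 1) := by rw [Nat.mod_eq_of_lt (by omega)]
  refine ⟨⟨_, n', m', _, L', S.hs, D', fun p k => S.face p (l1 p k), h0, h1, ?_⟩, rfl, rfl,
    fun i k => by simp only [Nat.mod_eq_of_lt k], l1, nf, fun u v k y1 y2 => ?_⟩
  · have := D'.cyc (n' - 1)
    simp only [show n' - 1 + 1 = n' by omega, Nat.mod_self, e1, hl.2] at this
    simp only [e0, e1]
    tauto
  · by_cases y3 : L' (lf v u)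
    · exact .inl y3
    · have : CE (fun i => a (i % n')) u v :=
        not_not.1 fun z => y3 (((D'.jump _ _ k).2 z).1 y1)
      rcases key u v this with z | ⟨-, z | z⟩
      · exact absurd z ((S.D.jump _ _ k).1 (iff_of_true (l1 _ y1) y2))
      · exact absurd (z ▸ y1) nf
      · exact .inr z.symm

/-- the third vertex of the first face -/
def w : V := thd (S.c 0) (S.c (S.n - 1))

/-- the four ways to change the cycle in one step, `a` being the height read at `w` -/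
def Form (a : ℤ) (S' : St s) : Prop :=
  (S.w ∈ S.R ∧ a = s ∧ S'.n = S.n + 1 ∧ S'.m = S.m + 1 ∧ S'.c 0 = S.w ∧
    ∀ i < S.n, S'.c (i + 1) = S.c i) ∨
  (S.w ∈ S.R ∧ a = 1 - s ∧ S'.n = S.n + 1 ∧ S'.m = S.m ∧ S'.c S.n = S.w ∧
    ∀ i < S.n, S'.c i = S.c i) ∨
  (∃ j, 0 < j ∧ j < S.m ∧ j + 3 ≤ S.n ∧ S.c j = S.w ∧ a = s ∧ S'.n = S.n - j ∧ S'.m = S.m - j ∧
    ∀ i < S.n - j, S'.c i = S.c (j + i)) ∨
  ∃ j, S.m ≤ j ∧ 2 ≤ j ∧ j + 2 ≤ S.n ∧ S.c j = S.w ∧ a = 1 - s ∧ S'.n = j + 1 ∧ S'.m = S.m ∧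
    ∀ i ≤ j, S'.c i = S.c i

/-- the face set after one step -/
def Less (S' : St s) : Prop :=
  (∀ p, S'.L p → S.L p) ∧ ¬S'.L (lf (S.c 0) (S.c (S.n - 1))) ∧
    ∀ u v, Adj u v → S'.L (lf u v) → S.L (lf v u) →
      S'.L (lf v u) ∨ lf (S.c 0) (S.c (S.n - 1)) = lf v u

theorem form (a : ℤ) (ha : a = s ∨ a = 1 - s)
    (h1 : ∀ j < S.m, S.c j = S.w → a = s) (h2 : ∀ j, S.m ≤ j → j < S.n → S.c j = S.w → a = 1 - s) :
    (a = s ∧ S.m = S.n - 1 ∧ S.c (S.m - 1) = S.w) ∨ (a = 1 - s ∧ S.m = 1 ∧ S.c 1 = S.w) ∨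
      ∃ S', S.Form a S' ∧ S.Less S' := by
  have t := S.three
  have m0 := S.m_pos
  have m1 := S.m_lt
  have A := S.adj_zero
  have old : ∀ i, CE S.c (S.c i) (S.c (i + 1)) := fun i => ⟨i, .inl ⟨rfl, rfl⟩⟩
  have f1 : Adj S.w (S.c 0) ∧ lf S.w (S.c 0) = lf (S.c 0) (S.c (S.n - 1)) :=
    ⟨A.thd.1.symm, lf_thd' _ _⟩
  have f2 : Adj (S.c (S.n - 1)) S.w ∧ lf (S.c (S.n - 1)) S.w = lf (S.c 0) (S.c (S.n - 1)) :=
    ⟨A.thd.2, lf_thd _ _⟩
  rcases S.D.cl S.w ⟨_, ar_t A, S.ori⟩ with r | ⟨j0, e⟩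
  · have o : ∀ i, S.c i ≠ S.w := fun i e => S.D.out i (e ▸ r)
    refine .inr (.inr ?_)
    rcases ha with ha | ha
    · obtain ⟨S', k1, k2, k3, k4⟩ := S.cut (n' := S.n + 1) (m' := S.m + 1)
        (a := fun i => if i = 0 then S.w else S.c (i - 1)) (by omega) (by omega) (by omega)
        (fun i p j q e => by
          beta_reduce at e
          split_ifs at e with x y y
          · omega
          · exact (o _ e.symm).elim
          · exact (o _ e).elim
          · have := S.inj (by omega) (by omega) e; omega)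
        (fun i p => by
          rcases i with _ | i
          · exact .inr (by simpa using f1)
          · exact .inl (by simpa using old i))
        (by simpa [show S.n ≠ 0 by omega] using f2)
        (fun i p j q e e' => by
          beta_reduce at e e'
          split_ifs at e e' with x y y
          · exact (o _ e.symm).elim
          · exact (o _ e.symm).elim
          · exact (o _ e'.symm).elim
          · have := S.inj (by omega) (by omega) e
            have := S.inj (by omega) (by omega) e'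
            omega)
      exact ⟨S', .inl ⟨r, ha, k1, k2, by simpa using k3 0 (by omega),
        fun i p => by simpa using k3 (i + 1) (by omega)⟩, k4⟩
    · obtain ⟨S', k1, k2, k3, k4⟩ := S.cut (n' := S.n + 1) (m' := S.m)
        (a := fun i => if i = S.n then S.w else S.c i) (by omega) (by omega) (by omega)
        (fun i p j q e => by
          beta_reduce at e
          split_ifs at e with x y y
          · omega
          · exact (o _ e.symm).elim
          · exact (o _ e).elim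
          · exact S.inj (by omega) (by omega) e)
        (fun i p => by
          beta_reduce
          rw [if_neg (by omega : i ≠ S.n)]
          split_ifs with x
          · exact .inr (by rwa [show i = S.n - 1 by omega])
          · exact .inl (old i))
        (by simpa [show 0 ≠ S.n by omega] using f1)
        (fun i p j q e e' => by
          beta_reduce at e e'
          split_ifs at e e' with x y y
          · exact (o _ e.symm).elim
          · exact (o _ e.symm).elim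
          · exact (o _ e'.symm).elim
          · have := S.inj (by omega) (by omega) e
            have := S.inj (by omega) (by omega) e'
            omega)
      exact ⟨S', .inr (.inl ⟨r, ha, k1, k2, by simpa using k3 S.n (by omega),
        fun i p => by simpa [p.ne] using k3 i (by omega)⟩), k4⟩
  obtain ⟨j, j1, e'⟩ := S.rep j0
  replace e := e'.trans e
  have j2 : j ≠ 0 := fun z => f1.1.ne (by rw [← e, z])
  have j3 : j ≠ S.n - 1 := fun z => f2.1.ne (by rw [← e, z])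
  rcases lt_or_ge j S.m with jm | jm
  · have ha := h1 j jm e
    by_cases z : j + 2 = S.n
    · exact .inl ⟨ha, by omega, by rwa [show S.m - 1 = j by omega]⟩
    obtain ⟨S', k1, k2, k3, k4⟩ := S.cut (n' := S.n - j) (m' := S.m - j)
      (a := fun i => S.c (j + i)) (by omega) (by omega) (by omega)
      (fun i p i' q e => by have := S.inj (by omega) (by omega) e; omega)
      (fun i p => .inl (old _))
      (by simpa [show j + (S.n - j - 1) = S.n - 1 by omega, e] using f2)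
      (fun i p i' q y _ => by have := S.inj (by omega) (by omega) y; omega)
    exact .inr (.inr ⟨S', .inr (.inr (.inl ⟨j, by omega, jm, by omega, e, ha, k1, k2, k3⟩)), k4⟩)
  · have ha := h2 j jm j1 e
    by_cases z : j = 1
    · exact .inr (.inl ⟨ha, by omega, z ▸ e⟩)
    obtain ⟨S', k1, k2, k3, k4⟩ := S.cut (n' := j + 1) (m' := S.m) (a := S.c)
      (by omega) (by omega) (by omega) (fun i p i' q e => S.inj (by omega) (by omega) e)
      (fun i p => .inl (old _)) (by simpa [e] using f1)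
      (fun i p i' q _ y => by have := S.inj (by omega) (by omega) y; omega)
    exact .inr (.inr ⟨S', .inr (.inr (.inr ⟨j, jm, by omega, by omega, e, ha, k1, k2,
      fun i p => k3 i (by omega)⟩)), k4⟩)

end St

end Pool.Agent.Lib.MP_6359c9_pr.Xp
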