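import Pool.Agent.Lib.MP_6359c9_pr.ExSt
import Pool.Agent.Lib.MP_6359c9_pr.Cont

/-! Barycentric coordinates in the triangles of the lattice. -/

namespace Pool.Agent.Lib.MP_6359c9_pr.Xp

open Set WD

variable {d : ℝ} {u v x y p : V} {z : ℂ} {α β γ : ℝ}

/-- the weight of the vertex `x` at the point `z` -/
noncomputable def wg (d : ℝ) (x : V) (z : ℂ) : ℝ := tent (cx d z - x.1) (cy d z - x.2)

/-- the point with barycentric coordinates `α, β, γ` in the face on the left of `u → v` -/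
noncomputable def bc (d : ℝ) (u v : V) (α β γ : ℝ) : ℂ :=
  α • pos d u + β • pos d v + γ • pos d (thd u v)

/-- barycentric coordinates -/
def Bar (α β γ : ℝ) : Prop := 0 ≤ α ∧ 0 ≤ β ∧ 0 ≤ γ ∧ α + β + γ = 1

lemma bc_rot (d : ℝ) (u v : V) (α β γ : ℝ) : bc d u v α β γ = bc d v (thd u v) β γ α := by
  rw [bc, bc, thd_thd]; ring

lemma Bar.rot (h : Bar α β γ) : Bar β γ α := ⟨h.2.1, h.2.2.1, h.1, by linarith [h.2.2.2]⟩

lemma cx_bc (hd : 0 < d) : cx d (bc d u v α β γ) = α * u.1 + β * v.1 + γ * (thd u v).1 := by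
  rw [bc, ← one_smul ℝ (α • _ + β • _), cx_comb, cx_comb, cx_pos' hd, cx_pos' hd, cx_pos' hd]
  ring

lemma cy_bc (hd : 0 < d) : cy d (bc d u v α β γ) = α * u.2 + β * v.2 + γ * (thd u v).2 := by
  rw [bc, ← one_smul ℝ (α • _ + β • _), cy_comb, cy_comb, cy_pos' hd, cy_pos' hd, cy_pos' hd]
  ring

lemma co_ext (hd : 0 < d) {w : ℂ} (h1 : cx d z = cx d w) (h2 : cy d z = cy d w) : z = w := by
  have : (√3 : ℝ) ≠ 0 := by positivity
  unfold cx at h1
  rw [h2] at h1
  unfold cy at h2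
  apply Complex.ext
  · field_simp at h1; linarith
  · field_simp at h2; exact h2

lemma face_lf (h : Face p) : ∃ u v, Adj u v ∧ lf u v = p := by
  rcases h with h | h
  · exact ⟨(p.1 / 3, p.2 / 3), (p.1 / 3 + 1, p.2 / 3), by simp [Adj],
      Prod.ext (by simp only [lf_fst]; omega) (by simp only [lf_snd]; omega)⟩
  · exact ⟨(p.1 / 3 + 1, p.2 / 3 + 1), (p.1 / 3, p.2 / 3 + 1), by simp [Adj],
      Prod.ext (by simp only [lf_fst]; omega) (by simp only [lf_snd]; omega)⟩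

lemma ar_iff (h : Adj u v) : Ar x (lf u v) ↔ x = u ∨ x = v ∨ x = thd u v := by
  refine ⟨fun ⟨w, a, e⟩ => ?_, ?_⟩
  · simp only [Prod.ext_iff, lf_fst, lf_snd, thd] at e ⊢
    rcases h with h | h | h | h | h | h <;> rcases a with a | a | a | a | a | a <;> omega
  · rintro (rfl | rfl | rfl)
    exacts [ar_l h, ar_r h, ar_t h]

lemma ar_tg_iff (hd : 0 < d) (hp : Face p) : pos d x ∈ Tg d p ↔ Ar x p :=
  ⟨vert_tg hd hp, fun ⟨_, a, e⟩ => e ▸ tg_vert hd a⟩

/-- a face with both end points of an edge -/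
lemma ar_two (h : Adj u v) (a : Ar u p) (b : Ar v p) : p = lf u v ∨ p = lf v u := by
  obtain ⟨w, k, rfl⟩ := a
  rcases (ar_iff k).1 b with rfl | rfl | rfl
  exacts [(h.ne rfl).elim, .inl rfl, .inr (lf_thd' _ _).symm]

lemma not_ar (h : Adj u v) : ¬Ar (thd u v) (lf v u) := by
  rw [ar_iff h.symm]
  simp only [Prod.ext_iff, thd, Adj] at *; omega

lemma ar_three (h : Adj u v) (a : Ar u p) (b : Ar v p) (c : Ar (thd u v) p) : p = lf u v :=
  (ar_two h a b).resolve_right fun e => not_ar h (e ▸ c)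

lemma lf_ne (h : Adj u v) : lf u v ≠ lf v u := fun e => not_ar h (e ▸ ar_t h)

lemma tg_convex (d : ℝ) (p : V) : Convex ℝ (Tg d p) := by
  have k : ∀ (i : ℤ) (x y a b : ℝ), InI i x → InI i y → 0 ≤ a → 0 ≤ b → a + b = 1 →
      InI i (a * x + b * y) := fun i x y a b h1 h2 ha hb e => by
    obtain rfl : a = 1 - b := by linarith
    exact ⟨by nlinarith [h1.1, h2.1], by nlinarith [h1.2, h2.2]⟩
  intro z hz w hw a b ha hb e
  refine ⟨?_, ?_, ?_⟩
  · rw [cx_comb]; exact k _ _ _ _ _ hz.1 hw.1 ha hb e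
  · rw [cy_comb]; exact k _ _ _ _ _ hz.2.1 hw.2.1 ha hb e
  · rw [cx_comb, cy_comb, show ∀ x y x' y' : ℝ, a * x + b * x' + (a * y + b * y') =
      a * (x + y) + b * (x' + y') from fun _ _ _ _ => by ring]
    exact k _ _ _ _ _ hz.2.2 hw.2.2 ha hb e

lemma tg_closed (d : ℝ) (p : V) : IsClosed (Tg d p) := by
  have := cont_cx d
  have := cont_cy d
  simp only [Tg, InI, ofPred_and]
  refine .inter (.inter ?_ ?_) (.inter (.inter ?_ ?_) (.inter ?_ ?_)) <;>
    exact isClosed_le (by fun_prop) (by fun_prop)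

/-- closed triangles in barycentric coordinates -/
lemma tg_bc (hd : 0 < d) (h : Adj u v) :
    z ∈ Tg d (lf u v) ↔ ∃ α β γ, Bar α β γ ∧ z = bc d u v α β γ := by
  obtain ⟨a, b⟩ := u
  obtain ⟨a', b'⟩ := v
  have key : ∀ i j k : ℤ, (lf (a, b) (a', b')).1 / 3 = i → (lf (a, b) (a', b')).2 / 3 = j →
      ((lf (a, b) (a', b')).1 + (lf (a, b) (a', b')).2) / 3 = k → (z ∈ Tg d (lf (a, b) (a', b')) ↔
      ((i : ℝ) ≤ cx d z ∧ cx d z ≤ i + 1) ∧ ((j : ℝ) ≤ cy d z ∧ cy d z ≤ j + 1) ∧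
        (k : ℝ) ≤ cx d z + cy d z ∧ cx d z + cy d z ≤ k + 1) := by
    rintro _ _ _ rfl rfl rfl; rfl
  have fin : ∀ β γ : ℝ, cx d z = a + β * (a' - a) + γ * (b - b') →
      cy d z = b + β * (b' - b) + γ * (a' - a + (b' - b)) →
      z = bc d (a, b) (a', b') (1 - β - γ) β γ := fun β γ h1 h2 =>
    co_ext hd (by rw [cx_bc hd, h1, thd]; push_cast; ring) (by rw [cy_bc hd, h2, thd]; push_cast; ring)
  constructor
  · intro hz
    have E : ∀ β γ : ℝ, 0 ≤ β → 0 ≤ γ → β + γ ≤ 1 → cx d z = a + β * (a' - a) + γ * (b - b') →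
        cy d z = b + β * (b' - b) + γ * (a' - a + (b' - b)) →
        ∃ α β γ, Bar α β γ ∧ z = bc d (a, b) (a', b') α β γ := fun β γ h1 h2 h3 h4 h5 =>
      ⟨_, β, γ, ⟨by linarith, h1, h2, by ring⟩, fin β γ h4 h5⟩
    rcases h with h | h | h | h | h | h <;> dsimp only at h <;> obtain ⟨rfl, rfl⟩ := h
    · rw [key a b' (a + b') (by simp [lf_fst]; omega) (by simp [lf_snd]; omega)
        (by simp [lf_fst, lf_snd]; omega)] at hz
      push_cast at hz E
      exact E (cx d z - a) (cy d z - b') (by linarith) (by linarith) (by linarith) (by ring) (by ring)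
    · rw [key (a - 1) (b' - 1) (a + b' - 1) (by simp [lf_fst]; omega) (by simp [lf_snd]; omega)
        (by simp [lf_fst, lf_snd]; omega)] at hz
      push_cast at hz E
      exact E (a - cx d z) (b' - cy d z) (by linarith) (by linarith) (by linarith) (by ring) (by ring)
    · rw [key (a' - 1) b (a' + b) (by simp [lf_fst]; omega) (by simp [lf_snd]; omega)
        (by simp [lf_fst, lf_snd]; omega)] at hz
      push_cast at hz E
      exact E (cx d z + cy d z - a' - b) (a' - cx d z) (by linarith) (by linarith) (by linarith)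
        (by ring) (by ring)
    · rw [key a' (b - 1) (a' + b - 1) (by simp [lf_fst]; omega) (by simp [lf_snd]; omega)
        (by simp [lf_fst, lf_snd]; omega)] at hz
      push_cast at hz E
      exact E (a' + b - cx d z - cy d z) (cx d z - a') (by linarith) (by linarith) (by linarith)
        (by ring) (by ring)
    · rw [key a (b - 1) (a + b) (by simp [lf_fst]; omega) (by simp [lf_snd]; omega)
        (by simp [lf_fst, lf_snd]; omega)] at hz
      push_cast at hz E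
      exact E (b - cy d z) (cx d z + cy d z - a - b) (by linarith) (by linarith) (by linarith)
        (by ring) (by ring)
    · rw [key (a - 1) b (a + b - 1) (by simp [lf_fst]; omega) (by simp [lf_snd]; omega)
        (by simp [lf_fst, lf_snd]; omega)] at hz
      push_cast at hz E
      exact E (cy d z - b) (a + b - cx d z - cy d z) (by linarith) (by linarith) (by linarith)
        (by ring) (by ring)
  · rintro ⟨α, β, γ, B, rfl⟩
    have f := h.face
    have := (tg_convex d (lf (a, b) (a', b'))).sum_mem (t := (Finset.univ : Finset (Fin 3)))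
      (w := ![α, β, γ]) (z := ![pos d (a, b), pos d (a', b'), pos d (thd (a, b) (a', b'))])
      (fun i _ => by fin_cases i; exacts [B.1, B.2.1, B.2.2.1])
      (by simpa [Fin.sum_univ_three] using B.2.2.2) fun i _ => by
        fin_cases i
        exacts [(ar_tg_iff hd f).2 (ar_l h), (ar_tg_iff hd f).2 (ar_r h), (ar_tg_iff hd f).2 (ar_t h)]
    simpa [Fin.sum_univ_three, bc] using this

lemma bc_mem (hd : 0 < d) (h : Adj u v) (B : Bar α β γ) : bc d u v α β γ ∈ Tg d (lf u v) :=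
  (tg_bc hd h).2 ⟨_, _, _, B, rfl⟩

/-- only the vertices of a triangle have a weight in it -/
lemma wg_ar (hd : 0 < d) (hp : Face p) (hz : z ∈ Tg d p) (h : wg d x z ≠ 0) : Ar x p := by
  rw [← ar_tg_iff hd hp]
  have k : ∀ (i m : ℤ) (s : ℝ), InI i s → ¬1 ≤ |s - m| → InI i m := fun i m s a b => by
    rw [not_le, abs_lt] at b
    have a1 : i < m + 1 := by exact_mod_cast (by linarith [a.1] : (i : ℝ) < m + 1)
    have a2 : m < i + 2 := by exact_mod_cast (by linarith [a.2] : (m : ℝ) < i + 2)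
    exact ⟨by exact_mod_cast (by omega : i ≤ m), by exact_mod_cast (by omega : m ≤ i + 1)⟩
  refine ⟨?_, ?_, ?_⟩
  · rw [cx_pos' hd]; exact k _ _ _ hz.1 fun a => h (tent_zero (.inl a))
  · rw [cy_pos' hd]; exact k _ _ _ hz.2.1 fun a => h (tent_zero (.inr (.inl a)))
  · rw [cx_pos' hd, cy_pos' hd, ← Int.cast_add]
    refine k _ _ _ hz.2.2 fun a => h (tent_zero (.inr (.inr ?_)))
    rwa [show cx d z - x.1 + (cy d z - x.2) = cx d z + cy d z - (x.1 + x.2 : ℤ) by push_cast; ring]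

lemma wg_fst (hd : 0 < d) (h : Adj u v) (B : Bar α β γ) : wg d u (bc d u v α β γ) = α := by
  obtain ⟨h1, h2, h3, h4⟩ := B
  obtain rfl : α = 1 - β - γ := by linarith
  rw [wg, cx_bc hd, cy_bc hd, thd]
  have e1 : ∀ a a' c : ℝ, (1 - β - γ) * a + β * a' + γ * c - a = β * (a' - a) + γ * (c - a) :=
    fun _ _ _ => by ring
  rw [e1, e1]
  rcases h with h | h | h | h | h | h <;> rw [h.1, h.2] <;> push_cast <;> ring_nf <;>
    unfold tent <;> grind

lemma wg_snd (hd : 0 < d) (h : Adj u v) (B : Bar α β γ) : wg d v (bc d u v α β γ) = β := by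
  rw [bc_rot]; exact wg_fst hd h.thd.2 B.rot

lemma wg_thd (hd : 0 < d) (h : Adj u v) (B : Bar α β γ) :
    wg d (thd u v) (bc d u v α β γ) = γ := by
  rw [bc_rot]; exact wg_snd hd h.thd.2 B.rot

lemma wg_ne (hd : 0 < d) (h : Adj u v) (B : Bar α β γ) (k : wg d x (bc d u v α β γ) ≠ 0) :
    (x = u ∧ α ≠ 0) ∨ (x = v ∧ β ≠ 0) ∨ (x = thd u v ∧ γ ≠ 0) := by
  rcases (ar_iff h).1 (wg_ar hd h.face (bc_mem hd h B) k) with rfl | rfl | rfl
  exacts [.inl ⟨rfl, wg_fst hd h B ▸ k⟩, .inr (.inl ⟨rfl, wg_snd hd h B ▸ k⟩),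
    .inr (.inr ⟨rfl, wg_thd hd h B ▸ k⟩)]

/-- the extension is affine on each closed triangle -/
lemma ext_bc (hd : 0 < d) (h : Adj u v) (B : Bar α β γ) (g : V → ℤ) :
    ext d g (bc d u v α β γ) = α * g u + β * g v + γ * g (thd u v) := by
  classical
  set z := bc d u v α β γ with hz
  have n1 := h.ne
  have n2 := h.thd.1.ne
  have n3 := h.thd.2.ne
  rw [ext_tent d g z (Finset.Icc (⌊cx d z⌋, ⌊cy d z⌋) (⌊cx d z⌋ + 1, ⌊cy d z⌋ + 1) ∪
      {u, v, thd u v}) fun x a b c e => Finset.mem_union_left _ (Finset.mem_Icc.2 ⟨⟨a, c⟩, b, e⟩),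
    ← Finset.sum_subset Finset.subset_union_right fun x _ k => ?_]
  · rw [Finset.sum_insert (by simp [n1, n2]), Finset.sum_pair n3]
    change _ * wg d u z + (_ * wg d v z + _ * wg d _ z) = _
    rw [wg_fst hd h B, wg_snd hd h B, wg_thd hd h B]
    ring
  · refine mul_eq_zero_of_right _ (not_not.1 fun c => k ?_)
    rcases wg_ne hd h B c with c | c | c <;> simp [c.1]

lemma seg_bc (hz : z ∈ segment ℝ (pos d u) (pos d v)) :
    ∃ α β, Bar α β 0 ∧ z = bc d u v α β 0 := by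
  obtain ⟨a, b, h1, h2, h3, rfl⟩ := hz
  exact ⟨a, b, ⟨h1, h2, le_rfl, by linarith⟩, by simp [bc]⟩

lemma bc_seg (B : Bar α β 0) : bc d u v α β 0 ∈ segment ℝ (pos d u) (pos d v) :=
  ⟨α, β, B.1, B.2.1, by linarith [B.2.2.2], by simp [bc]⟩

lemma seg_wg (hd : 0 < d) (h : Adj u v) (hz : z ∈ segment ℝ (pos d u) (pos d v))
    (k : wg d x z ≠ 0) : x = u ∨ x = v := by
  obtain ⟨a, b, B, rfl⟩ := seg_bc hz
  rcases wg_ne hd h B k with c | c | c
  exacts [.inl c.1, .inr c.1, (c.2 rfl).elim]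

lemma seg_tg (hd : 0 < d) (h : Adj u v) : segment ℝ (pos d u) (pos d v) ⊆ Tg d (lf u v) :=
  fun _ hz => by obtain ⟨a, b, B, rfl⟩ := seg_bc hz; exact bc_mem hd h B

lemma mid_eq (d : ℝ) (e : V × V) :
    mid d e = (1 / 2 : ℝ) • pos d e.1 + (1 / 2 : ℝ) • pos d e.2 := by
  apply Complex.ext <;>
    simp only [mid, pos, Prod.fst_add, Prod.snd_add, Complex.add_re, Complex.add_im,
      Complex.smul_re, Complex.smul_im, smul_eq_mul] <;> push_cast <;> ring

lemma mid_midpoint (d : ℝ) (u v : V) : mid d (u, v) = midpoint ℝ (pos d u) (pos d v) := by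
  rw [mid_eq, midpoint_eq_smul_add, smul_add]; norm_num

lemma mid_swap (d : ℝ) (u v : V) : mid d (u, v) = mid d (v, u) := by
  rw [mid_eq, mid_eq, add_comm]

/-- two closed triangles that meet share a vertex, and an edge if the point is not a vertex -/
lemma tg_inter (hd : 0 < d) {q : V} (hp : Face p) (hq : Face q) (h1 : z ∈ Tg d p)
    (h2 : z ∈ Tg d q) : p = q ∨ (∃ u v, Adj u v ∧ p = lf u v ∧ q = lf v u ∧
      z ∈ segment ℝ (pos d u) (pos d v)) ∨ ∃ v, z = pos d v ∧ Ar v p ∧ Ar v q := by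
  have two : ∀ u v β, Adj u v → Bar (1 - β) β 0 → bc d u v (1 - β) β 0 ∈ Tg d q →
      lf u v = q ∨ (∃ x y, Adj x y ∧ lf u v = lf x y ∧ q = lf y x ∧
        bc d u v (1 - β) β 0 ∈ segment ℝ (pos d x) (pos d y)) ∨
        ∃ x, bc d u v (1 - β) β 0 = pos d x ∧ Ar x (lf u v) ∧ Ar x q := fun u v β h B k => by
    by_cases e0 : β = 0
    · subst e0
      exact .inr (.inr ⟨u, by simp [bc], ar_l h, wg_ar hd hq k (by rw [wg_fst hd h B]; simp)⟩)
    by_cases e1 : β = 1
    · subst e1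
      exact .inr (.inr ⟨v, by simp [bc], ar_r h, wg_ar hd hq k (by rw [wg_snd hd h B]; simp)⟩)
    rcases ar_two h (wg_ar hd hq k (by rw [wg_fst hd h B]; exact fun e => e1 (by linarith)))
      (wg_ar hd hq k (by rwa [wg_snd hd h B])) with e | e
    exacts [.inl e.symm, .inr (.inl ⟨u, v, h, rfl, e, bc_seg B⟩)]
  obtain ⟨u, v, h, rfl⟩ := face_lf hp
  obtain ⟨α, β, γ, B, rfl⟩ := (tg_bc hd h).1 h1
  have s := B.2.2.2
  by_cases e3 : γ = 0
  · subst e3
    obtain rfl : α = 1 - β := by linarith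
    exact two u v β h B h2
  by_cases e1 : α = 0
  · subst e1
    obtain rfl : β = 1 - γ := by linarith
    rw [bc_rot] at h2 ⊢
    rw [← lf_thd u v]
    exact two _ _ γ h.thd.2 B.rot h2
  by_cases e2 : β = 0
  · subst e2
    obtain rfl : γ = 1 - α := by linarith
    rw [bc_rot, bc_rot, thd_thd] at h2 ⊢
    rw [← lf_thd' u v]
    exact two _ _ α h.thd.1.symm B.rot.rot h2
  exact .inl (ar_three h (wg_ar hd hq h2 (by rwa [wg_fst hd h B]))
    (wg_ar hd hq h2 (by rwa [wg_snd hd h B])) (wg_ar hd hq h2 (by rwa [wg_thd hd h B]))).symm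

end Pool.Agent.Lib.MP_6359c9_pr.Xp
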