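import Pool.Agent.Lib.MP_6359c9_pr.SpecC

namespace Pool.Agent.Lib.MP_6359c9_pr

open Set Filter Topology MeasureTheory ProbabilityTheory

/-- existence of Green potentials from one field -/
def GreenSt : Prop := ∀ (A : End.Fld (V → ℤ)) (Ω : Set ℂ) (κ : ℝ), IsOpen Ω → IsConnected Ω →
  Bornology.IsBounded Ω → 0 < κ → A.Mom Ω → A.SD Ω κ → A.Dir0 Ω →
  ∀ φ, Test Ω φ → ∃ u, Green Ω φ u

/-- the Gaussian limit of a field -/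
def GaussSt : Prop := ∀ (A : End.Fld (V → ℤ)) (Ω : Set ℂ) (κ : ℝ) (z0 : ℂ), IsOpen Ω →
  IsConnected Ω → Bornology.IsBounded Ω → 0 < κ → z0 ∈ Ω → A.Mom Ω → A.SD Ω κ → A.Bd Ω →
  A.Dir Ω z0 → ∀ (k : ℕ) (φ u : Fin k → ℂ → ℝ), (∀ i, Test Ω (φ i)) →
    (∀ i, Green Ω (φ i) (u i)) →
    (Matrix.of fun i j => κ * ∫ z in Ω, φ i z * u j z).PosSemidef ∧
    ∀ F : EuclideanSpace ℝ (Fin k) → ℝ, Continuous F →
      (∃ (C : ℝ) (p : ℕ), ∀ x, |F x| ≤ C * (1 + ‖x‖) ^ p) →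
      Tendsto (fun n => mean (A.S n) fun w => F (WithLp.toLp 2 fun i => A.X (φ i) n w))
        atTop (𝓝 (∫ x, F x ∂multivariateGaussian 0
          (Matrix.of fun i j => κ * ∫ z in Ω, φ i z * u j z)))

theorem final_of (hc : ContSt) (hb : BridgeSt) (hm : MomFSt) (hs : SDFSt) (hd : DirFSt)
    (hg : GreenSt) (hG : GaussSt) : ∃ c : ℝ, 0 < c ∧
    ∀ (Ω : Set ℂ), IsOpen Ω → IsConnected Ω → Bornology.IsBounded Ω →
    ∀ (δ : ℕ → ℝ), (∀ n, 0 < δ n) → Tendsto δ atTop (𝓝 0) →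
    ∀ (Q : ∀ n, Dom (δ n)), Car (fun n => (Q n).D) Ω →
    ∀ (k : ℕ) (φ : Fin k → ℂ → ℝ), (∀ i, Test Ω (φ i)) →
      (∃ u : Fin k → ℂ → ℝ, ∀ i, Green Ω (φ i) (u i)) ∧
      ∀ u : Fin k → ℂ → ℝ, (∀ i, Green Ω (φ i) (u i)) →
        (Matrix.of fun i j => c ^ 2 * ∫ z in Ω, φ i z * u j z).PosSemidef ∧
        ∀ F : EuclideanSpace ℝ (Fin k) → ℝ, Continuous F →
          (∃ (C : ℝ) (p : ℕ), ∀ x, |F x| ≤ C * (1 + ‖x‖) ^ p) →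
          Tendsto (fun n => mean (Q n).H fun h => F (WithLp.toLp 2 fun i => (Q n).pair (φ i) h))
            atTop (𝓝 (∫ x, F x ∂multivariateGaussian 0
              (Matrix.of fun i j => c ^ 2 * ∫ z in Ω, φ i z * u j z))) := by
  obtain ⟨κ, hκ, hs⟩ := hs
  refine ⟨√κ, Real.sqrt_pos.2 hκ, fun Ω ho hcn hbd δ hδ hl Q hQ k φ hφ => ?_⟩
  obtain ⟨A, hA, hE⟩ := hb hc Ω δ hδ hl Q hQ
  obtain ⟨z0, hz0⟩ := hcn.nonempty
  obtain ⟨d1, d0⟩ := hd hc Ω ho hcn hbd A hA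
  rw [Real.sq_sqrt hκ.le]
  refine ⟨?_, fun u hu => ?_⟩
  · choose u hu using fun i => hg _ Ω κ ho hcn hbd hκ (hm hc Ω ho hcn hbd A.flat).1
      (hs hc Ω ho hcn hbd A.flat) d0 (φ i) (hφ i)
    exact ⟨u, hu⟩
  · obtain ⟨h1, h2⟩ := hG _ Ω κ z0 ho hcn hbd hκ hz0 (hm hc Ω ho hcn hbd A).1
      (hs hc Ω ho hcn hbd A) (hm hc Ω ho hcn hbd A).2 (d1 z0 hz0) k φ u hφ hu
    refine ⟨h1, fun F hF hp => (h2 F hF hp).congr' ?_⟩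
    filter_upwards [hE k φ hφ] with n hn
    exact (hn fun x => F (WithLp.toLp 2 x)).symm

end Pool.Agent.Lib.MP_6359c9_pr
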