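import Pool.Agent.Lib.MP_6359c9_pr.FjDef

/-! The fjord estimate: basic facts on explorations, energies and components. -/

namespace Pool.Agent.Lib.MP_6359c9_pr.Fj

open Set

variable {O ι : Type} {l : ℤ} {η : ℝ} {Ω : Set O} {lab : ℕ → O → ι} {R Z : ℕ → O → Set V}
  {lo : O → Set V} {N i j k : ℕ} {g g' : O} {v z : V}

/-- the vertices that join the arc at step `i` -/
def Rv (R Z : ℕ → O → Set V) (i : ℕ) (g : O) : Set V := {v | v ∈ Z (i + 1) g ∧ v ∈ R i g}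

lemma Fb.self (hg : g ∈ Ω) : g ∈ Fb Ω lab k g := ⟨hg, rfl⟩

namespace Ch

variable (h : Ch l η Ω lab R Z lo N)
include h

lemma lab_le (hg : g ∈ Ω) (hg' : g' ∈ Ω) (ik : i ≤ k) (e : lab k g' = lab k g) :
    lab i g' = lab i g := by
  induction k, ik using Nat.le_induction with
  | base => exact e
  | succ k _ ih => exact ih (h.ref k g hg g' hg' e)

lemma R_eq (hg : g ∈ Ω) (hg' : g' ∈ Fb Ω lab k g) (ik : i ≤ k) : R i g' = R i g :=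
  (h.ad i g hg g' hg'.1 (h.lab_le hg hg'.1 ik hg'.2)).1

lemma Z_eq (hg : g ∈ Ω) (hg' : g' ∈ Fb Ω lab k g) (ik : i ≤ k) : Z i g' = Z i g :=
  (h.ad i g hg g' hg'.1 (h.lab_le hg hg'.1 ik hg'.2)).2

lemma Rv_eq (hg : g ∈ Ω) (hg' : g' ∈ Fb Ω lab k g) (ik : i < k) : Rv R Z i g' = Rv R Z i g := by
  unfold Rv
  rw [h.R_eq hg hg' ik.le, h.Z_eq hg hg' (Nat.succ_le_of_lt ik)]

lemma R_mono (hg : g ∈ Ω) (ij : i ≤ j) : R j g ⊆ R i g := by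
  induction j, ij using Nat.le_induction with
  | base => exact Subset.rfl
  | succ j _ ih => exact (h.sub j g hg).trans ih

lemma empty (hg : g ∈ Ω) (hk : N ≤ k) : R k g = ∅ :=
  subset_empty_iff.1 ((h.R_mono hg hk).trans (h.stop g hg).le)

lemma disj (hg : g ∈ Ω) (hv : v ∈ R k g) : v ∉ Z k g := by
  intro hz
  rcases h.state k g hg with e | ⟨W, e, h1, -⟩
  · rw [e] at hv; exact hv
  · obtain ⟨i, rfl⟩ := h1 v hz
    exact W.out i (e ▸ hv)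

lemma rv (hg : g ∈ Ω) (hv : v ∈ Rv R Z i g) : v ∈ lo g ∧ ∃ y ∈ Z i g, Adj y v :=
  ((h.new i g hg v hv.1).resolve_left (h.disj hg hv.2)).2

lemma mem_Z (hg : g ∈ Ω) (kj : k ≤ j) (hz : z ∈ Z j g) :
    z ∈ Z k g ∨ ∃ i, k ≤ i ∧ i < j ∧ z ∈ Rv R Z i g := by
  induction j, kj using Nat.le_induction with
  | base => exact Or.inl hz
  | succ j kj ih =>
    rcases h.new j g hg z hz with e | e
    · exact (ih e).imp_right fun ⟨i, a, b, c⟩ => ⟨i, a, by omega, c⟩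
    · exact Or.inr ⟨j, kj, by omega, hz, e.1⟩

/-- the neighbour through which a vertex joins the arc -/
lemma pred (hg : g ∈ Ω) (kj : k ≤ j) (hv : v ∈ Rv R Z j g) :
    ∃ y, Adj y v ∧ (y ∈ Z k g ∨ ∃ i, k ≤ i ∧ i < j ∧ y ∈ Rv R Z i g) := by
  obtain ⟨-, y, hy, a⟩ := h.rv hg hv
  exact ⟨y, a, h.mem_Z hg kj hy⟩

lemma att (hg : g ∈ Ω) (kj : k ≤ j) (hv : v ∈ Rv R Z j g) : Att (Z k g) (R k g ∩ lo g) {v} := by
  induction j using Nat.strong_induction_on generalizing v with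
  | _ j ih =>
  have m : v ∈ R k g ∩ lo g := ⟨h.R_mono hg kj hv.2, (h.rv hg hv).1⟩
  obtain ⟨y, a, e | ⟨i, i1, i2, e⟩⟩ := h.pred hg kj hv
  · exact ⟨y, e, v, a, v, rfl, Conn.refl m⟩
  · obtain ⟨z, hz, u, zu, _, rfl, c⟩ := ih i i2 i1 e
    exact ⟨z, hz, u, zu, v, rfl, c.tail a m⟩

lemma Fb_sub (hg' : g' ∈ Fb Ω lab k g) (ki : k ≤ i) :
    Fb Ω lab i g' ⊆ Fb Ω lab k g :=
  fun _ hy => ⟨hy.1, (h.lab_le hg'.1 hy.1 ki hy.2).trans hg'.2⟩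

end Ch

lemma pr_tower {κ : Type} {M A E : Set O} (hM : M.Finite) (K : O → κ) {c : ℝ} (hc : 0 ≤ c)
    (h : ∀ x ∈ M, x ∈ A → Pr (M ∩ {y | K y = K x}) A ≤ c ∧ ∀ y ∈ M, K y = K x → y ∈ E) :
    Pr M A ≤ c * Pr M E := by
  rw [pr_eq, pr_eq, ← ex_mul]
  refine ex_fib_le K fun x hx => ?_
  rw [ex_mul, ← pr_eq, ← pr_eq]
  by_cases e : ∃ y ∈ M ∩ {y | K y = K x}, y ∈ A
  · obtain ⟨y, ⟨hy, (e : K y = K x)⟩, hA⟩ := e
    obtain ⟨h1, h2⟩ := h y hy hA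
    rw [e] at h1 h2
    have : Pr (M ∩ {y | K y = K x}) E = 1 :=
      pr_all ⟨hM.inter_of_left _, x, hx, rfl⟩ fun z hz => h2 z hz.1 hz.2
    rw [this, mul_one]
    exact h1
  · rw [pr_none fun y hy hA => e ⟨y, hy, hA⟩]
    exact mul_nonneg hc (pr_nonneg _ _)

/-- conditioning at a stopping step -/
lemma Ch.pr_stop (h : Ch l η Ω lab R Z lo N) (P : ℕ → O → Prop)
    (hP : ∀ i, ∀ x ∈ Ω, ∀ y ∈ Fb Ω lab (i + 1) x, (P i y ↔ P i x)) {A E : Set O} {c : ℝ}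
    (hc : 0 ≤ c) (H : ∀ x ∈ Fb Ω lab k g, x ∈ A → ∃ s, k ≤ s ∧ P s x ∧
      (∀ i, k ≤ i → i < s → ¬P i x) ∧ Pr (Fb Ω lab (s + 1) x) A ≤ c ∧
      ∀ y ∈ Fb Ω lab (s + 1) x, y ∈ E) :
    Pr (Fb Ω lab k g) A ≤ c * Pr (Fb Ω lab k g) E := by
  set σ : O → ℕ := fun x => sInf {i | k ≤ i ∧ P i x} with hσ
  refine pr_tower (h.fin.inter_of_left _) (fun x => (σ x, lab (σ x + 1) x)) hc fun x hx hA => ?_
  obtain ⟨s, s1, s2, s3, s4, s5⟩ := H x hx hA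
  have k1 : ∀ y ∈ Fb Ω lab (s + 1) x, σ y = s := fun y hy => by
    have m : s ∈ {i | k ≤ i ∧ P i y} := ⟨s1, (hP s x hx.1 y hy).2 s2⟩
    refine le_antisymm (Nat.sInf_le m) (not_lt.1 fun lt => ?_)
    have m' := Nat.sInf_mem ⟨s, m⟩
    exact s3 _ m'.1 lt
      ((hP _ x hx.1 y ⟨hy.1, h.lab_le hx.1 hy.1 (Nat.succ_le_succ lt.le) hy.2⟩).1 m'.2)
  have k2 := k1 x (Fb.self hx.1)
  have e : Fb Ω lab k g ∩ {y | (σ y, lab (σ y + 1) y) = (σ x, lab (σ x + 1) x)} =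
      Fb Ω lab (s + 1) x := by
    ext y
    constructor
    · rintro ⟨hy, e⟩
      obtain ⟨e1, e2⟩ := Prod.mk.inj e
      rw [e1, k2] at e2
      exact ⟨hy.1, e2⟩
    · intro hy
      refine ⟨h.Fb_sub hx (by omega) hy, ?_⟩
      show (σ y, lab (σ y + 1) y) = (σ x, lab (σ x + 1) x)
      rw [k1 y hy, k2, hy.2]
  exact ⟨e ▸ s4, fun y hy e' => s5 y (e ▸ ⟨hy, e'⟩)⟩

variable {R0 : Finset V} {lam hi : V → ℝ} {t0 t1 s0 s1 δ : ℝ} {C D : Set V}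

lemma len_nonneg : 0 ≤ len lam hi t0 t1 v := le_max_right _ _

lemma len_mono (h0 : t0 ≤ s0) (h1 : s1 ≤ t1) : len lam hi s0 s1 v ≤ len lam hi t0 t1 v :=
  max_le_max (sub_le_sub (min_le_min le_rfl h1) (max_le_max le_rfl h0)) le_rfl

lemma en_nonneg : 0 ≤ en R0 lam hi t0 t1 C :=
  Finset.sum_nonneg fun v _ => indicator_nonneg (fun _ _ => sq_nonneg _) v

lemma en_empty : en R0 lam hi t0 t1 ∅ = 0 := by simp [en]

lemma en_le (h : C ⊆ D) (h0 : t0 ≤ s0) (h1 : s1 ≤ t1) :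
    en R0 lam hi s0 s1 C ≤ en R0 lam hi t0 t1 D :=
  Finset.sum_le_sum fun v _ => by
    by_cases hv : v ∈ C
    · rw [indicator_of_mem hv, indicator_of_mem (h hv)]
      exact pow_le_pow_left₀ len_nonneg (len_mono h0 h1) 2
    · rw [indicator_of_notMem hv]
      exact indicator_nonneg (fun _ _ => sq_nonneg _) v

lemma en_split (h : D ⊆ C) :
    en R0 lam hi t0 t1 C = en R0 lam hi t0 t1 D + en R0 lam hi t0 t1 (C \ D) := by
  unfold en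
  rw [← Finset.sum_add_distrib]
  refine Finset.sum_congr rfl fun v _ => ?_
  by_cases hv : v ∈ D
  · simp [hv, h hv]
  · by_cases hc : v ∈ C <;> simp [hv, hc]

lemma len_le (hv : v ∈ C) (h0 : v ∈ R0) (hδ : 0 ≤ δ) (h : en R0 lam hi t0 t1 C ≤ δ ^ 2) :
    min (hi v) t1 ≤ max (lam v) t0 + δ := by
  have : C.indicator (fun v => len lam hi t0 t1 v ^ 2) v ≤ en R0 lam hi t0 t1 C :=
    Finset.single_le_sum (f := fun v => C.indicator (fun v => len lam hi t0 t1 v ^ 2) v)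
      (fun v _ => indicator_nonneg (fun _ _ => sq_nonneg _) v) h0
  rw [indicator_of_mem hv] at this
  have h2 := (abs_le_of_sq_le_sq' (this.trans h) hδ).2
  have h3 : min (hi v) t1 - max (lam v) t0 ≤ len lam hi t0 t1 v := le_max_left _ _
  linarith

/-- the component of `v` in `C` -/
abbrev Km (C : Set V) (v : V) : Set V := {x | Conn C v x}

lemma Km_sub : Km C v ⊆ C := fun _ h => h.right

lemma Km_conn : ∀ x ∈ Km C v, ∀ y ∈ Km C v, Conn (Km C v) x y :=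
  fun _ hx _ hy => (Conn.cluster hx).symm.trans (Conn.cluster hy)

/-- components of a union of components -/
lemma Km_eq (h : D ⊆ C) (hD : ∀ x ∈ D, ∀ y ∈ C, Adj x y → y ∈ D) (hv : v ∈ D) :
    Km D v = Km C v :=
  Subset.antisymm (fun _ c => c.mono h) fun _ c =>
    c.ind (P := fun x => Conn D v x) (Conn.refl hv) fun a b _ ab hb ih =>
      ih.tail ab (hD a ih.right b hb ab)

lemma Hit_mono {T T' B B' : Set V} (hT : T ⊆ T') (hB : B' ⊆ B) : Hit R Z k T B ⊆ Hit R Z k T' B' :=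
  fun _ ⟨j, kj, ⟨v, hv, h1⟩, h2⟩ => ⟨j, kj, ⟨v, hT hv, h1⟩, fun i a b w hw => h2 i a b w (hB hw)⟩

lemma Hit_split (M : Set O) (Tp : Set V) (h : D ⊆ C) :
    Pr M (Hit R Z k (C ∩ Tp) (cl C ∩ Tp)) ≤ Pr M (Hit R Z k (D ∩ Tp) (cl D ∩ Tp)) +
      Pr M (Hit R Z k ((C \ D) ∩ Tp) (cl (C \ D) ∩ Tp)) := by
  refine pr_le_add ?_
  rintro x - ⟨j, kj, ⟨v, hv, h1⟩, h2⟩
  by_cases hD : v ∈ D
  · exact Or.inl ⟨j, kj, ⟨v, ⟨hD, hv.2⟩, h1⟩, fun i a b w hw => h2 i a b w ⟨cl_mono h hw.1, hw.2⟩⟩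
  · exact Or.inr ⟨j, kj, ⟨v, ⟨⟨hv.1, hD⟩, hv.2⟩, h1⟩,
      fun i a b w hw => h2 i a b w ⟨cl_mono sdiff_subset hw.1, hw.2⟩⟩

lemma Hit_none (M : Set O) {T B : Set V} (h : ∀ v, v ∉ T) : Pr M (Hit R Z k T B) = 0 :=
  pr_none fun _ _ ⟨_, _, ⟨v, hv, _⟩, _⟩ => h v hv

/-- sum over the components -/
lemma hit_comp (M : Set O) (Tp : Set V) (c : ℝ) (hC : C.Finite)
    (h : ∀ v ∈ C, Pr M (Hit R Z k (Km C v ∩ Tp) (cl (Km C v) ∩ Tp)) ≤
      c * en R0 lam hi t0 t1 (Km C v)) :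
    Pr M (Hit R Z k (C ∩ Tp) (cl C ∩ Tp)) ≤ c * en R0 lam hi t0 t1 C := by
  induction hn : C.ncard using Nat.strong_induction_on generalizing C with
  | _ n ih =>
  rcases C.eq_empty_or_nonempty with rfl | ⟨v, hv⟩
  · rw [Hit_none M (by simp), en_empty, mul_zero]
  rw [en_split (Km_sub (v := v)), mul_add]
  refine (Hit_split M Tp (Km_sub (v := v))).trans (add_le_add (h v hv) ?_)
  refine ih _ ?_ hC.sdiff (fun x hx => ?_) rfl
  · rw [← hn]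
    exact ncard_lt_ncard ⟨sdiff_subset, fun s => (s hv).2 (Conn.refl hv)⟩ hC
  · rw [Km_eq (D := C \ Km C v) sdiff_subset
      (fun x hx y hy a => ⟨hy, fun c => hx.2 (Conn.tail c a.symm hx.1)⟩) hx]
    exact h x hx.1

variable {S Y : Set V}

lemma Reg.of_sub (h : Reg R0 lam hi S Y t0 t1 C) (hD : D ⊆ C)
    (c : ∀ x ∈ D, ∀ y ∈ C, Adj x y → y ∈ D) : Reg R0 lam hi S Y t0 t1 D :=
  ⟨hD.trans h.sub, fun v hv x hx a s => c v hv x (h.cls v (hD hv) x hx a s) a,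
    fun z hz v hv => h.low z hz v (hD hv)⟩

lemma Reg.km (h : Reg R0 lam hi S Y t0 t1 C) : Reg R0 lam hi S Y t0 t1 (Km C v) :=
  h.of_sub Km_sub fun _ hx _ hy a => Conn.tail hx a hy

/-- a narrower strip -/
lemma Reg.strip (h : Reg R0 lam hi S Y t0 t1 C) (h0 : t0 ≤ s0) (h1 : s1 ≤ t1) :
    Reg R0 lam hi S Y s0 s1 (C ∩ Sp lam hi s0 s1) :=
  ⟨fun _ hv => ⟨(h.sub hv.1).1, hv.2⟩,
    fun v hv x hx a s => ⟨h.cls v hv.1 x hx a ⟨s.1.trans_le h1, h0.trans_lt s.2⟩, s⟩,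
    fun z hz v hv a => (h.low z hz v hv.1 a).imp_right fun e => e.trans h0⟩

end Pool.Agent.Lib.MP_6359c9_pr.Fj
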