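import Pool.Agent.Lib.MP_6359c9_pr.FjA

/-! The fjord estimate: statements with explicit constants. -/

namespace Pool.Agent.Lib.MP_6359c9_pr.Fj

open Set

/-- the body of `MulSt` -/
def MulAt (η0 : ℝ) (l : ℤ) (K : ℝ) : Prop := ∀ (O ι : Type) (Ω : Set O)
  (lab : ℕ → O → ι) (R Z : ℕ → O → Set V) (lo : O → Set V) (N : ℕ) (R0 : Finset V)
  (lam hi : V → ℝ), Ch l η0 Ω lab R Z lo N → (∀ g ∈ Ω, R 0 g ⊆ R0) → Lev R0 lam hi →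
  ∀ (k : ℕ) (g : O) (t0 t1 b : ℝ) (C : Set V), g ∈ Ω → t0 < t1 →
    Reg R0 lam hi (R k g) (Z k g) t0 t1 C →
    (∀ v ∈ C, en R0 lam hi t0 t1 {x | Conn C v x} ≤ b) →
    Pr (Fb Ω lab k g) (Hit R Z k (C ∩ {v | t1 ≤ hi v}) (cl C ∩ {v | t1 ≤ hi v})) ≤
      K * b ^ 5 * en R0 lam hi t0 t1 C / (t1 - t0) ^ 12

lemma mulSt_iff : MulSt ↔ ∃ η0 > (0 : ℝ), ∀ l : ℤ, 1 ≤ l → ∃ K > (0 : ℝ), MulAt η0 l K := Iff.rfl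

/-- one small ball that cuts: the far vertices behind it rarely join the arc -/
def PsiAt (η0 : ℝ) (l : ℤ) : Prop := ∀ C ψ h : ℝ, 0 < ψ → 0 < h → ∃ η > (0 : ℝ), ∃ ω > (0 : ℝ),
  ∀ (O ι : Type) (Ω : Set O) (lab : ℕ → O → ι) (R Z : ℕ → O → Set V) (lo : O → Set V) (N : ℕ)
    (R0 : Finset V) (Φ : V → ℂ) (e : V → ℝ) (ω' : ℝ), Ch l η0 Ω lab R Z lo N →
    (∀ g ∈ Ω, R 0 g ⊆ R0) → 0 < ω' → ω' ≤ ω → Chart R0 Φ e C ω' →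
    ∀ (k : ℕ) (g : O) (y : ℂ) (B : Set V), g ∈ Ω → (∀ x ∈ B, ‖Φ x - y‖ ≤ η) →
      Pr (Fb Ω lab k g) {g' | ∃ j, k ≤ j ∧ ∃ v ∈ Rv R Z j g', h ≤ ‖Φ v - y‖ ∧
        ¬Att (Z k g) (R k g \ B) {v}} ≤ ψ

variable {O ι : Type} {l : ℤ} {η : ℝ} {Ω : Set O} {lab : ℕ → O → ι} {R Z : ℕ → O → Set V}
  {lo : O → Set V} {N k : ℕ} {g : O} {v x : V} {S Y B : Set V}

/-- a vertex next to the arc is attached -/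
lemma Att.of_adj {z : V} (hz : z ∈ Y) (a : Adj z v) (hv : v ∈ S) : Att Y S {v} :=
  ⟨z, hz, v, a, v, rfl, Conn.refl hv⟩

lemma Att.tail (h : Att Y S {v}) (a : Adj v x) (hx : x ∈ S) : Att Y S {x} := by
  obtain ⟨z, hz, u, zu, _, rfl, c⟩ := h
  exact ⟨z, hz, u, zu, x, rfl, c.tail a hx⟩

end Pool.Agent.Lib.MP_6359c9_pr.Fj
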