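import Pool.Agent.Lib.MP_6359c9_pr.FjB

/-! The fjord estimate: crossing of a strip. -/

namespace Pool.Agent.Lib.MP_6359c9_pr.Fj

open Set

variable {O ι : Type} {l : ℤ} {η : ℝ} {Ω : Set O} {lab : ℕ → O → ι} {R Z : ℕ → O → Set V}
  {lo : O → Set V} {N k s : ℕ} {g x : O} {R0 : Finset V} {lam hi : V → ℝ}
  {t0 t1 tm t δ c M : ℝ} {C D T : Set V}

/-- the conditional probability of a first crossing -/
noncomputable abbrev PH (Ω : Set O) (lab : ℕ → O → ι) (R Z : ℕ → O → Set V) (hi : V → ℝ) (k : ℕ)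
    (g : O) (t : ℝ) (C : Set V) : ℝ :=
  Pr (Fb Ω lab k g) (Hit R Z k (C ∩ {v | t ≤ hi v}) (cl C ∩ {v | t ≤ hi v}))

lemma Ch.restart (h : Ch l η Ω lab R Z lo N) (hx : x ∈ Ω) (ks : k ≤ s)
    (no : ∀ i, k ≤ i → i ≤ s → ∀ w ∈ cl C ∩ {v | t ≤ hi v}, w ∉ Rv R Z i x) (hD : D ⊆ C)
    (hT : ∀ v ∈ C, t ≤ hi v → v ∈ R (s + 1) x → v ∈ D) :
    Pr (Fb Ω lab (s + 1) x) (Hit R Z k (C ∩ {v | t ≤ hi v}) (cl C ∩ {v | t ≤ hi v})) ≤
      PH Ω lab R Z hi (s + 1) x t D := by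
  refine pr_mono ?_
  rintro y hy ⟨j, kj, ⟨v, hv, h1⟩, h2⟩
  have sj : s + 1 ≤ j := by
    by_contra lt
    exact no j kj (by omega) v ⟨sub_cl _ hv.1, hv.2⟩ (h.Rv_eq hx hy (by omega : j < s + 1) ▸ h1)
  exact ⟨j, sj, ⟨v, ⟨hT v hv.1 hv.2 (h.R_eq hx hy le_rfl ▸ h.R_mono hy.1 sj h1.2), hv.2⟩, h1⟩,
    fun i a b w hw => h2 i (by omega) b w ⟨cl_mono hD hw.1, hw.2⟩⟩

lemma Reg.fb (h : Ch l η Ω lab R Z lo N) (hg : g ∈ Ω) (hx : x ∈ Fb Ω lab k g)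
    (hC : Reg R0 lam hi (R k g) (Z k g) t0 t1 C) : Reg R0 lam hi (R k x) (Z k x) t0 t1 C := by
  rw [h.R_eq hg hx le_rfl, h.Z_eq hg hx le_rfl]; exact hC

section

variable (h : Ch l η Ω lab R Z lo N) (h0 : ∀ g ∈ Ω, R 0 g ⊆ R0) (hL : Lev R0 lam hi)
include h h0

lemma sub0 (hg : g ∈ Ω) : R k g ⊆ R0 := (h.R_mono hg (Nat.zero_le k)).trans (h0 g hg)

include hL

/-- the arc does not touch the region: one step -/
lemma step_far (hg : g ∈ Ω) (hC : Reg R0 lam hi (R k g) (Z k g) t0 t1 C)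
    (na : ∀ z ∈ Z k g, ∀ v ∈ C, ¬Adj z v) (hc : 0 ≤ c)
    (ih : ∀ g' ∈ Ω, ∀ D ⊆ C, Reg R0 lam hi (R (k + 1) g') (Z (k + 1) g') t0 t1 D →
      PH Ω lab R Z hi (k + 1) g' t1 D ≤ c) : PH Ω lab R Z hi k g t1 C ≤ c := by
  refine (h.pr_stop (E := univ) (fun _ _ => True) (fun _ _ _ _ _ => Iff.rfl) hc ?_).trans
    (mul_le_of_le_one_right hc (pr_le_one _ _))
  rintro x hx ⟨j, kj, ⟨v, hv, h1⟩, h2⟩
  have hC := hC.fb h hg hx
  rw [← h.Z_eq hg hx le_rfl] at na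
  have n1 : ∀ w ∈ C, w ∉ Rv R Z k x := fun w hw r =>
    let ⟨_, y, hy, a⟩ := h.rv hx.1 r
    na y hy w hw a
  have jk : k < j := kj.lt_of_ne fun e => n1 v hv.1 (e ▸ h1)
  have no : ∀ i, k ≤ i → i ≤ k → ∀ w ∈ cl C ∩ {v | t1 ≤ hi v}, w ∉ Rv R Z i x :=
    fun i a b w hw r => h2 i a (by omega) w hw r.1 r.2
  refine ⟨k, le_rfl, trivial, fun i a b => by omega, ?_, fun _ _ => trivial⟩
  refine (h.restart (D := C ∩ R (k + 1) x) hx.1 le_rfl no inter_subset_left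
    fun v a _ b => ⟨a, b⟩).trans (ih x hx.1 _ inter_subset_left ⟨fun w hw => ⟨hw.2, (hC.sub hw.1).2⟩,
      fun w hw y hy a s => ⟨hC.cls w hw.1 y (h.sub k x hx.1 hy) a s, hy⟩, fun z hz w hw a => ?_⟩)
  rcases h.new k x hx.1 z hz with e | e
  · exact absurd a (na z e w hw.1)
  have z0 := sub0 h h0 hx.1 e.1
  refine ⟨z0, not_lt.1 fun lt => ?_⟩
  by_cases e2 : lam z < t1
  · exact n1 z (hC.cls w hw.1 z e.1 a.symm ⟨e2, lt⟩) ⟨hz, e.1⟩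
  · exact no k le_rfl le_rfl z ⟨mem_cl hw.1 a.symm, (not_lt.1 e2).trans (hL.le z z0)⟩ ⟨hz, e.1⟩

/-- two strips, one after the other -/
lemma step_prod (hg : g ∈ Ω) (hC : Reg R0 lam hi (R k g) (Z k g) t0 t1 C) (hδ : 0 ≤ δ)
    (he : en R0 lam hi t0 t1 C ≤ δ ^ 2) (m1 : t0 < tm) (m2 : tm + δ < t1) (hc : 0 ≤ c)
    (ih : ∀ s, k ≤ s → ∀ g' ∈ Ω, ∀ D ⊆ C,
      Reg R0 lam hi (R (s + 1) g') (Z (s + 1) g') (tm + δ) t1 D →
      PH Ω lab R Z hi (s + 1) g' t1 D ≤ c) :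
    PH Ω lab R Z hi k g t1 C ≤ c * PH Ω lab R Z hi k g tm (C ∩ Sp lam hi t0 tm) := by
  classical
  refine h.pr_stop (fun i x => ∃ w ∈ cl C ∩ {v | tm ≤ hi v}, w ∈ Rv R Z i x)
    (fun i x hx y hy => by rw [h.Rv_eq hx hy (Nat.lt_succ_self i)]) hc ?_
  rintro x hx ⟨j, kj, ⟨v, hv, h1⟩, h2⟩
  have hC := hC.fb h hg hx
  have m3 : tm ≤ hi v := le_trans (by linarith : tm ≤ t1) hv.2
  have ex : ∃ i, k ≤ i ∧ ∃ w ∈ cl C ∩ {v | tm ≤ hi v}, w ∈ Rv R Z i x :=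
    ⟨j, kj, v, ⟨sub_cl _ hv.1, m3⟩, h1⟩
  obtain ⟨ks, w, hw, rw⟩ := Nat.find_spec ex
  have sj : Nat.find ex ≤ j := Nat.find_min' ex ⟨kj, v, ⟨sub_cl _ hv.1, m3⟩, h1⟩
  have mn : ∀ i, k ≤ i → i < Nat.find ex → ¬∃ w ∈ cl C ∩ {v | tm ≤ hi v}, w ∈ Rv R Z i x :=
    fun i a b e => Nat.find_min ex b ⟨a, e⟩
  generalize Nat.find ex = s at ks rw sj mn
  have F : ∀ u ∈ C, u ∈ Rv R Z s x → lam u < tm ∧ hi u < tm + δ := fun u hu r => by
    have u0 := sub0 h h0 hx.1 r.2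
    have f1 : lam u < tm := by
      obtain ⟨y, a, e | ⟨i, i1, i2, e⟩⟩ := h.pred hx.1 ks r
      · have := hC.low y e u hu a
        exact ((hL.adj y this.1 u u0 a).trans this.2).trans_lt m1
      · exact (hL.adj y (sub0 h h0 hx.1 e.2) u u0 a).trans_lt
          (not_le.1 fun le => mn i i1 i2 ⟨y, ⟨mem_cl hu a.symm, le⟩, e⟩)
    have f2 := len_le hu u0 hδ he
    have f3 : max (lam u) t0 < tm := max_lt f1 m1
    refine ⟨f1, not_le.1 fun le => ?_⟩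
    have := le_min le m2.le
    linarith
  have sj' : s < j := sj.lt_of_ne fun e => by
    have := (F v hv.1 (e ▸ h1)).2
    have : t1 ≤ hi v := hv.2
    linarith
  have no : ∀ i, k ≤ i → i ≤ s → ∀ w ∈ cl C ∩ {v | t1 ≤ hi v}, w ∉ Rv R Z i x :=
    fun i a b w hw r => h2 i a (by omega) w hw r.1 r.2
  have G : ∀ u ∈ cl C, tm ≤ hi u → u ∈ Rv R Z s x → u ∈ C := by
    rintro u (hu | ⟨y, hy, a⟩) le r
    · exact hu
    refine hC.cls y hy u (h.R_mono hx.1 ks r.2) a ⟨not_le.1 fun e => ?_, m1.trans_le le⟩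
    exact no s ks le_rfl u ⟨mem_cl hy a, e.trans (hL.le u (sub0 h h0 hx.1 r.2))⟩ r
  refine ⟨s, ks, ⟨w, hw, rw⟩, mn, ?_, fun y hy => ⟨s, ks, ⟨w, ⟨⟨G w hw.1 hw.2 rw,
    (F w (G w hw.1 hw.2 rw) rw).1, m1.trans_le hw.2⟩, hw.2⟩,
    (h.Rv_eq hx.1 hy (Nat.lt_succ_self s) ▸ rw : w ∈ Rv R Z s y)⟩, fun i a b u hu r1 r2 =>
      mn i a b ⟨u, ⟨cl_mono inter_subset_left hu.1, hu.2⟩,
        h.Rv_eq hx.1 hy (by omega : i < s + 1) ▸ (⟨r1, r2⟩ : u ∈ Rv R Z i y)⟩⟩⟩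
  have hC2 := hC.strip (by linarith : t0 ≤ tm + δ) le_rfl
  refine (h.restart (D := C ∩ Sp lam hi (tm + δ) t1 ∩ R (s + 1) x) hx.1 ks no (fun _ a => a.1.1)
    fun v a b c => ⟨⟨a, (hC.sub a).2.1, m2.trans_le b⟩, c⟩).trans (ih s ks x hx.1 _
      (fun _ a => a.1.1) ⟨fun w hw => ⟨hw.2, hw.1.2⟩, fun w hw y hy a s' =>
        ⟨hC2.cls w hw.1 y (h.R_mono hx.1 (by omega) hy) a s', hy⟩, fun z hz u hu a => ?_⟩)
  rcases h.mem_Z hx.1 (by omega : k ≤ s + 1) hz with e | ⟨i, i1, i2, e⟩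
  · exact hC2.low z e u hu.1 a
  refine ⟨sub0 h h0 hx.1 e.2, not_lt.1 fun lt => ?_⟩
  have c1 : z ∈ cl C := mem_cl hu.1.1 a.symm
  have c2 : tm ≤ hi z := by linarith
  rcases (by omega : i < s ∨ i = s) with e' | rfl
  · exact mn i i1 e' ⟨z, ⟨c1, c2⟩, e⟩
  · exact lt_asymm lt (F z (G z c1 c2 e) e).2

end

/-- the body of `LenSt` -/
def LenAt (l : ℤ) (M : ℝ) : Prop := ∀ (W : Wall) (R0 : Finset V) (lam hi : V → ℝ)
  (Z C T : Set V) (t0 t t1 δ : ℝ) (z0 v0 v1 : V), Lev R0 lam hi → W.R ⊆ R0 →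
    (∀ z ∈ Z, ∃ i, W.γ i = z) → (∀ z ∈ Z, ∀ z' ∈ Z, DConn W.R W.γ Z z z') →
    C ⊆ W.R ∩ Sp lam hi t0 t1 → (∀ v ∈ C, ∀ x ∈ W.R, Adj v x → x ∈ Sp lam hi t0 t1 → x ∈ C) →
    (∀ u ∈ C, ∀ v ∈ C, Conn C u v) → (∀ z ∈ Z, ∀ v ∈ C, Adj z v → z ∈ R0 ∧ hi z ≤ t0) →
    z0 ∈ Z → v0 ∈ C → Adj z0 v0 → T ⊆ C → (∀ u ∈ T, ∀ v ∈ T, Conn T u v) →
    (∀ v ∈ T, t ≤ lam v) → v1 ∈ T → t1 ≤ hi v1 → 0 < δ → en R0 lam hi t0 t1 C ≤ δ ^ 2 →
    t0 + M * δ ≤ t → t + 2 * δ ≤ t1 →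
    ∃ i0 i1 T', T ⊆ T' ∧ Gt W l i0 i1 Z T'

section

variable (h : Ch l η Ω lab R Z lo N) (h0 : ∀ g ∈ Ω, R 0 g ⊆ R0) (hL : Lev R0 lam hi)
include h h0 hL

/-- one connected target behind a gate -/
lemma step_gate (hM : LenAt l M) (hη : 0 ≤ η) (hg : g ∈ Ω)
    (hC : Reg R0 lam hi (R k g) (Z k g) t0 t1 C) (cC : ∀ u ∈ C, ∀ v ∈ C, Conn C u v) {z0 v0 : V}
    (hz : z0 ∈ Z k g) (hv : v0 ∈ C) (a : Adj z0 v0) (hT : T ⊆ C)
    (cT : ∀ u ∈ T, ∀ v ∈ T, Conn T u v) (lT : ∀ v ∈ T, t ≤ lam v) (hδ : 0 < δ)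
    (he : en R0 lam hi t0 t1 C ≤ δ ^ 2) (m1 : t0 + M * δ ≤ t) (m2 : t + 2 * δ ≤ t1) :
    PH Ω lab R Z hi k g t1 T ≤ η := by
  by_cases ne : ∃ v1, v1 ∈ T ∩ {v | t1 ≤ hi v}
  swap
  · exact (Hit_none _ fun v hv => ne ⟨v, hv⟩).le.trans hη
  obtain ⟨v1, p1, p2⟩ := ne
  rcases h.state k g hg with e | ⟨W, e, w1, w2, w3⟩
  · exact absurd (hC.sub hv).1 (by rw [e]; exact id)
  obtain ⟨i0, i1, T', s1, s2⟩ := hM W R0 lam hi (Z k g) C T t0 t t1 δ z0 v0 v1 hL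
    (e ▸ sub0 h h0 hg) w1 w2 (e ▸ hC.sub) (e ▸ hC.cls) cC hC.low hz hv a hT cT lT p1 p2 hδ he m1 m2
  refine (pr_mono ?_).trans (w3 i0 i1 T' s2)
  rintro y hy ⟨j, kj, ⟨v, hv, h1⟩, -⟩
  obtain ⟨z, hz, u, zu, _, rfl, c⟩ := h.att hy.1 kj h1
  rw [h.R_eq hg hy le_rfl] at c
  rw [h.Z_eq hg hy le_rfl] at hz
  exact ⟨z, hz, u, zu, _, s1 hv.1, c⟩

end

lemma num {K a b e p L L' : ℝ} (hK : 0 ≤ K) (b0 : 0 ≤ b) (ea : e ≤ a) (e0 : 0 ≤ e) (hL : 0 < L)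
    (hp : 0 < p) (h : p * L ≤ L') :
    K * b ^ 5 * e / L' ^ 12 ≤ K * b ^ 5 * a / L ^ 12 / p ^ 12 := by
  rw [div_div, ← mul_pow, mul_comm L]
  have := e0.trans ea
  gcongr

/-- the inductive claim -/
def QM (K : ℝ) (Ω : Set O) (lab : ℕ → O → ι) (R Z : ℕ → O → Set V) (R0 : Finset V)
    (lam hi : V → ℝ) (k n : ℕ) : Prop :=
  ∀ (g : O) (t0 t1 b : ℝ) (C : Set V), g ∈ Ω → t0 < t1 → C.ncard ≤ n →
    Reg R0 lam hi (R k g) (Z k g) t0 t1 C → (∀ v ∈ C, en R0 lam hi t0 t1 (Km C v) ≤ b) →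
    PH Ω lab R Z hi k g t1 C ≤ K * b ^ 5 * en R0 lam hi t0 t1 C / (t1 - t0) ^ 12

lemma step_conn (h : Ch l (1 / 2 ^ 26) Ω lab R Z lo N) (h0 : ∀ g ∈ Ω, R 0 g ⊆ R0)
    (hL : Lev R0 lam hi) (hM : LenAt l M) (M0 : 0 < M) {n : ℕ} {K : ℝ}
    (hK : K = (5 * (M + 1) + 40) ^ 12) (q1 : ∀ s n, k ≤ s → QM K Ω lab R Z R0 lam hi (s + 1) n)
    (q2 : QM K Ω lab R Z R0 lam hi k n) (hg : g ∈ Ω) (lt : t0 < t1) (hn : C.ncard ≤ n + 1)
    (hC : Reg R0 lam hi (R k g) (Z k g) t0 t1 C) (cC : ∀ u ∈ C, ∀ v ∈ C, Conn C u v) :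
    PH Ω lab R Z hi k g t1 C ≤
      K * en R0 lam hi t0 t1 C ^ 5 * en R0 lam hi t0 t1 C / (t1 - t0) ^ 12 := by
  have K0 : 0 ≤ K := by rw [hK]; positivity
  have a0 : 0 ≤ en R0 lam hi t0 t1 C := en_nonneg
  obtain ⟨δ, hδ, he⟩ : ∃ δ, 0 ≤ δ ∧ en R0 lam hi t0 t1 C = δ ^ 2 :=
    ⟨_, Real.sqrt_nonneg _, (Real.sq_sqrt a0).symm⟩
  have L0 : 0 < t1 - t0 := sub_pos.2 lt
  have C0 : C ⊆ R0 := fun v hv => sub0 h h0 hg (hC.sub hv).1
  have fC : C.Finite := R0.finite_toSet.subset C0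
  have sm : ∀ D ⊆ C, ∀ v ∈ C, v ∉ D → D.ncard ≤ n := fun D hD v hv n' =>
    Nat.lt_succ_iff.1 ((ncard_lt_ncard ⟨hD, fun s => n' (s hv)⟩ fC).trans_le hn)
  have up : ∀ s, k ≤ s → ∀ t', t0 ≤ t' → t' < t1 → ∀ g' ∈ Ω, ∀ D ⊆ C,
      Reg R0 lam hi (R (s + 1) g') (Z (s + 1) g') t' t1 D → PH Ω lab R Z hi (s + 1) g' t1 D ≤
        K * (δ ^ 2) ^ 5 * δ ^ 2 / (t1 - t') ^ 12 := fun s ks t' a b g' hg' D hD r => by
    refine (q1 s _ ks g' t' t1 (δ ^ 2) D hg' b le_rfl r fun v _ =>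
      (en_le (Km_sub.trans hD) a le_rfl).trans he.le).trans ?_
    have := (en_le (R0 := R0) (lam := lam) (hi := hi) hD a (le_refl t1)).trans he.le
    have := sub_pos.2 b
    gcongr
  rw [he]
  set X := K * (δ ^ 2) ^ 5 * δ ^ 2 / (t1 - t0) ^ 12 with hX
  have X0 : 0 ≤ X := by positivity
  by_cases na : ∀ z ∈ Z k g, ∀ v ∈ C, ¬Adj z v
  · exact step_far h h0 hL hg hC na X0 (up k le_rfl t0 le_rfl lt)
  push Not at na
  obtain ⟨z0, hz, v0, hv0, a⟩ := na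
  by_cases big : t1 - t0 ≤ (5 * (M + 1) + 40) * δ
  · refine (pr_le_one _ _).trans ((one_le_div (by positivity)).2 ?_)
    calc (t1 - t0) ^ 12 ≤ ((5 * (M + 1) + 40) * δ) ^ 12 := by gcongr
      _ = _ := by rw [hK, mul_pow]; ring
  have big := not_le.1 big
  have Mδ : 0 ≤ M * δ := by positivity
  by_cases ne : ∃ v1, v1 ∈ C ∩ {v | t1 ≤ hi v}
  swap
  · exact (Hit_none _ fun v hv => ne ⟨v, hv⟩).le.trans X0
  obtain ⟨v1, p1, (p2 : t1 ≤ hi v1)⟩ := ne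
  by_cases small : 2 ^ 25 * X ≤ 1
  · have m1 : t0 < t0 + (t1 - t0) / 2 := by linarith
    have m2 : t0 + (t1 - t0) / 2 + δ < t1 := by linarith
    refine (step_prod h h0 hL hg hC hδ he.le m1 m2 (c := 8192 * X) (by positivity)
      fun s ks g' hg' D hD r => (up s ks _ (by linarith) m2 g' hg' D hD r).trans ?_).trans ?_
    · refine (num (p := 19 / 40) K0 (by positivity) le_rfl (by positivity) L0 (by norm_num)
        (by linarith)).trans ?_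
      rw [← hX, div_le_iff₀ (by norm_num)]
      nlinarith
    have e1 := len_le p1 (C0 p1) hδ he.le
    rw [min_eq_right p2] at e1
    have n1 : v1 ∉ C ∩ Sp lam hi t0 (t0 + (t1 - t0) / 2) := fun m => by
      have := max_lt m.2.1 m1
      linarith
    have e2 := (q2 g t0 _ (δ ^ 2) _ hg m1 (sm _ inter_subset_left v1 p1 n1)
      (hC.strip le_rfl (by linarith)) fun v _ => (en_le (Km_sub.trans inter_subset_left) le_rfl
        (by linarith)).trans he.le).trans (num (p := 1 / 2) (a := δ ^ 2) K0 (by positivity)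
          ((en_le inter_subset_left le_rfl (by linarith)).trans he.le) en_nonneg L0 (by norm_num)
          (by linarith))
    rw [← hX] at e2
    refine (mul_le_mul_of_nonneg_left e2 (by positivity)).trans ?_
    calc 8192 * X * (X / (1 / 2) ^ 12) = X * (2 ^ 25 * X) := by ring
      _ ≤ X := mul_le_of_le_one_right X0 small
  have small := not_le.1 small
  have δ0 : 0 < δ := hδ.lt_of_ne fun e => by
    rw [hX, ← e] at small
    norm_num at small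
  set t' := t0 + (t1 - t0) / 5 with ht'
  have c1 : t0 ≤ t' := by linarith
  have c2 : t' < t1 := by linarith
  set C3 := C ∩ Sp lam hi t' t1 with hC3
  have r3 : Reg R0 lam hi (R k g) (Z k g) t' t1 C3 := hC.strip c1 le_rfl
  have e3 : en R0 lam hi t' t1 C3 ≤ δ ^ 2 := (en_le inter_subset_left c1 le_rfl).trans he.le
  set D := {v ∈ C3 | en R0 lam hi t' t1 (Km C3 v) ≤ δ ^ 2 / 2} with hD
  have km : ∀ x ∈ C3, ∀ y, Conn C3 x y → Km C3 y = Km C3 x := fun x _ y c =>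
    Set.ext fun _ => ⟨fun d => c.trans d, fun d => c.symm.trans d⟩
  have D3 : D ⊆ C3 := fun _ m => m.1
  have cD : ∀ x ∈ D, ∀ y ∈ C3, Adj x y → y ∈ D := fun x hx y hy a =>
    ⟨hy, km x hx.1 y (Conn.single hx.1 a hy) ▸ hx.2⟩
  have cD' : ∀ x ∈ C3 \ D, ∀ y ∈ C3, Adj x y → y ∈ C3 \ D := fun x hx y hy a =>
    ⟨hy, fun m => hx.2 (cD y m x hx.1 a.symm)⟩
  have n0 : v0 ∉ D := fun m => by
    have e1 := len_le hv0 (C0 hv0) hδ he.le
    have e2 := hC.low z0 hz v0 hv0 a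
    rw [max_eq_right ((hL.adj z0 e2.1 v0 (C0 hv0) a).trans e2.2)] at e1
    have := lt_min m.1.2.2 c2
    linarith
  have s1 : PH Ω lab R Z hi k g t1 C ≤ PH Ω lab R Z hi k g t1 C3 :=
    pr_mono fun y _ hy => Hit_mono (T' := C3 ∩ {v | t1 ≤ hi v}) (B' := cl C3 ∩ {v | t1 ≤ hi v})
      (fun v m => ⟨⟨m.1, (hC.sub m.1).2.1, c2.trans_le m.2⟩, m.2⟩)
      (inter_subset_inter_left _ (cl_mono inter_subset_left)) hy
  have s2 : PH Ω lab R Z hi k g t1 D ≤ X / 2 := by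
    refine ((q2 g t' t1 (δ ^ 2 / 2) D hg c2 (sm _ (fun _ m => m.1.1) v0 hv0 n0) (r3.of_sub D3 cD)
      fun v hv => by rw [Km_eq D3 cD hv]; exact hv.2).trans (num (p := 4 / 5) (a := δ ^ 2) K0
        (by positivity) ((en_le D3 le_rfl le_rfl).trans e3) en_nonneg L0 (by norm_num)
        (by linarith))).trans ?_
    have : K * (δ ^ 2 / 2) ^ 5 * δ ^ 2 / (t1 - t0) ^ 12 = X / 32 := by rw [hX]; ring
    rw [this, div_le_iff₀ (by norm_num)]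
    nlinarith
  have s3 : PH Ω lab R Z hi k g t1 (C3 \ D) ≤ 1 / 2 ^ 26 := by
    refine step_gate h h0 hL hM (by norm_num) hg hC cC hz hv0 a (fun _ m => m.1.1)
      (fun u hu v hv => ?_) (t := t' - δ) (fun v hv => ?_) δ0 he.le (by linarith) (by linarith)
    · have : v ∈ Km C3 u := by
        by_contra n'
        have f1 := not_le.1 fun le => hu.2 ⟨hu.1, le⟩
        have f2 := not_le.1 fun le => hv.2 ⟨hv.1, le⟩
        have f3 := en_split (R0 := R0) (lam := lam) (hi := hi) (t0 := t') (t1 := t1)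
          (Km_sub (C := C3) (v := u))
        have f4 : en R0 lam hi t' t1 (Km C3 v) ≤ en R0 lam hi t' t1 (C3 \ Km C3 u) :=
          en_le (fun y c => ⟨c.right, fun d => n' (Conn.trans d (Conn.symm c))⟩) le_rfl le_rfl
        linarith
      rwa [← Km_eq sdiff_subset cD' hu] at this
    · have e1 := len_le hv.1.1 (C0 hv.1.1) hδ he.le
      have e2 := lt_min hv.1.2.2 c2
      rcases le_total (lam v) t0 with e | e
      · rw [max_eq_right e] at e1; linarith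
      · rw [max_eq_left e] at e1; linarith
  have := Hit_split (R := R) (Z := Z) (k := k) (Fb Ω lab k g) {v | t1 ≤ hi v} D3
  unfold PH at *
  linarith

theorem mulAt (hM : LenAt l M) (M0 : 0 < M) :
    MulAt (1 / 2 ^ 26) l ((5 * (M + 1) + 40) ^ 12) := by
  intro O ι Ω lab R Z lo N R0 lam hi h h0 hL
  set K := (5 * (M + 1) + 40) ^ 12 with hK
  have K0 : 0 ≤ K := by positivity
  have key : ∀ d k, N ≤ k + d → ∀ n, QM K Ω lab R Z R0 lam hi k n := by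
    have z : ∀ k g t0 t1 b, PH Ω lab R Z hi k g t1 ∅ ≤
        K * b ^ 5 * en R0 lam hi t0 t1 ∅ / (t1 - t0) ^ 12 := fun k g t0 t1 b => by
      rw [en_empty, mul_zero, zero_div]
      exact (Hit_none _ (by simp)).le
    intro d
    induction d with
    | zero =>
      intro k hk n g t0 t1 b C hg _ _ hC _
      obtain rfl : C = ∅ := subset_empty_iff.1 fun v hv => h.empty hg hk ▸ (hC.sub hv).1
      exact z k g t0 t1 b
    | succ d ih =>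
      intro k hk n
      induction n with
      | zero =>
        intro g t0 t1 b C hg _ hn hC _
        obtain rfl : C = ∅ := (ncard_eq_zero (R0.finite_toSet.subset fun v hv =>
          sub0 h h0 hg (hC.sub hv).1)).1 (by omega)
        exact z k g t0 t1 b
      | succ n ihn =>
        intro g t0 t1 b C hg lt hn hC hb
        have fC : C.Finite := R0.finite_toSet.subset fun v hv => sub0 h h0 hg (hC.sub hv).1
        rw [mul_div_right_comm]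
        refine hit_comp _ _ _ fC fun v hv => (step_conn h h0 hL hM M0 hK
          (fun s n ks => ih (s + 1) (by omega) n) ihn hg lt
          ((ncard_le_ncard Km_sub fC).trans hn) hC.km Km_conn).trans ?_
        rw [← mul_div_right_comm]
        have := sub_pos.2 lt
        have := hb v hv
        have : 0 ≤ en R0 lam hi t0 t1 (Km C v) := en_nonneg
        gcongr
  intro k g t0 t1 b C hg lt hC hb
  exact key N k (by omega) _ g t0 t1 b C hg lt le_rfl hC hb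

theorem mulSt (h : LenSt) : MulSt :=
  ⟨1 / 2 ^ 26, by norm_num, fun l hl =>
    let ⟨M, M0, hM⟩ := h l hl
    ⟨_, by positivity, mulAt hM M0⟩⟩

end Pool.Agent.Lib.MP_6359c9_pr.Fj
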