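import Pool.Agent.Lib.MP_6359c9_pr.FjB

/-! The fjord estimate: one small ball that cuts. -/

namespace Pool.Agent.Lib.MP_6359c9_pr.Fj

open Set

/-- the sup norm of `z`, cut off below at `η` -/
noncomputable def Mx (η : ℝ) (z : ℂ) : ℝ := max (max |z.re| |z.im|) η

lemma Mx_ge (η : ℝ) (z : ℂ) : η ≤ Mx η z := le_max_right _ _

lemma Mx_re (η : ℝ) (z : ℂ) : |z.re| ≤ Mx η z := (le_max_left _ _).trans (le_max_left _ _)

lemma Mx_im (η : ℝ) (z : ℂ) : |z.im| ≤ Mx η z := (le_max_right _ _).trans (le_max_left _ _)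

lemma norm_le_Mx (η : ℝ) (z : ℂ) : ‖z‖ ≤ 2 * Mx η z := by
  linarith [Complex.norm_le_abs_re_add_abs_im z, Mx_re η z, Mx_im η z]

lemma Mx_eq {η : ℝ} {z : ℂ} (h : ‖z‖ ≤ η) : Mx η z = η :=
  max_eq_right (max_le ((Complex.abs_re_le_norm z).trans h) ((Complex.abs_im_le_norm z).trans h))

lemma Mx_lip (η : ℝ) (z w : ℂ) : Mx η z ≤ Mx η w + ‖z - w‖ := by
  have h1 := Complex.abs_re_le_norm (z - w)
  have h2 := Complex.abs_im_le_norm (z - w)
  rw [Complex.sub_re] at h1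
  rw [Complex.sub_im] at h2
  refine max_le (max_le ?_ ?_) ?_
  · linarith [abs_sub_abs_le_abs_sub z.re w.re, Mx_re η w]
  · linarith [abs_sub_abs_le_abs_sub z.im w.im, Mx_im η w]
  · linarith [Mx_ge η w, norm_nonneg (z - w)]

lemma log_sub_le {a b d : ℝ} (ha : 0 < a) (hb : 0 < b) (h : a ≤ b + d) :
    Real.log a - Real.log b ≤ d / b := by
  rw [← Real.log_div ha.ne' hb.ne']
  refine (Real.log_le_sub_one_of_pos (div_pos ha hb)).trans ?_
  rw [div_sub_one hb.ne']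
  gcongr
  linarith

lemma Esc.mono' {R0 S T : Set V} {v : V} (h : Esc R0 S v) (hs : ∀ x, x ∈ S → x ∈ T) :
    Esc R0 T v := by
  obtain ⟨v', w, h1, h2, h3, h4⟩ := h
  exact ⟨v', w, h1.mono fun x hx => ⟨hx.1, hs x hx.2⟩, h2, h3, fun x hx a => hs x (h4 x hx a)⟩

variable {R0 : Finset V} {Φ : V → ℂ} {e : V → ℝ} {C ω η : ℝ}

/-- levels for the logarithm of the distance to `y` -/
lemma Chart.lev (hN : NormSt) (c : Chart R0 Φ e C ω) (h0 : 0 < η) (hω : 20 * ω ≤ η) (y : ℂ) :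
    ∃ lam hi, Lev R0 lam hi ∧ ∀ v ∈ R0, Real.log (Mx η (Φ v - y)) - 1 / 5 ≤ lam v ∧
      hi v ≤ Real.log (Mx η (Φ v - y)) + 1 / 10 ∧
      hi v - lam v ≤ 4 * (e v / Mx η (Φ v - y)) := by
  have p : ∀ v, 0 < Mx η (Φ v - y) := fun v => h0.trans_le (Mx_ge _ _)
  have esc : ∀ v x, Mx η (Φ v - y) ≤ Mx η (Φ x - y) + ω →
      Real.log (Mx η (Φ v - y)) - 1 / 10 ≤ Real.log (Mx η (Φ x - y)) := fun v x h => by
    have h1 := log_sub_le (p v) (p x) h
    have h2 : ω / Mx η (Φ x - y) ≤ 1 / 10 := by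
      rw [div_le_iff₀ (p x)]
      linarith [Mx_ge η (Φ x - y)]
    linarith
  refine Exists.imp (fun lam => Exists.imp fun hi => And.imp_right fun H v hv => ?_)
    (hN R0 (fun v => Real.log (Mx η (Φ v - y))) (fun v => 2 * (e v / Mx η (Φ v - y))) (1 / 10)
      (fun v hv => ?_) (fun v hv x hx a => ?_) fun v hv => ?_)
  · obtain ⟨h1, h2, h3⟩ := H v hv
    exact ⟨by linarith, h2, by linarith⟩
  · have h1 : e v / Mx η (Φ v - y) ≤ 1 / 20 := by
      rw [div_le_iff₀ (p v)]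
      linarith [Mx_ge η (Φ v - y), c.small v hv]
    exact ⟨mul_nonneg two_pos.le (div_nonneg (c.pos v hv) (p v).le), by linarith⟩
  · have h1 : Mx η (Φ v - y) ≤ Mx η (Φ x - y) + (e v + e x) := by
      have := Mx_lip η (Φ v - y) (Φ x - y)
      rw [sub_sub_sub_cancel_right] at this
      linarith [c.lip v hv x hx a]
    have h2 := log_sub_le (p v) (p x) h1
    have h3 : e v / Mx η (Φ x - y) ≤ 2 * (e v / Mx η (Φ v - y)) := by
      rw [← mul_div_assoc, div_le_div_iff₀ (p x) (p v)]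
      have : Mx η (Φ v - y) ≤ 2 * Mx η (Φ x - y) := by
        linarith [Mx_ge η (Φ x - y), c.small v hv, c.small x hx]
      nlinarith [c.pos v hv]
    have h4 : 0 ≤ e x / Mx η (Φ x - y) := div_nonneg (c.pos x hx) (p x).le
    rw [add_div] at h2
    show Real.log _ - Real.log _ ≤ 2 * _ + 2 * _
    linarith
  · have w0 : 0 ≤ ω := (c.pos v hv).trans (c.small v hv)
    rcases le_total |(Φ v - y).re| |(Φ v - y).im| with h | h
    · refine (c.im v hv).mono' fun x hx => esc v x ?_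
      have hx' : |(Φ x).im - (Φ v).im| ≤ ω := hx
      have h1 := abs_sub_abs_le_abs_sub (Φ v - y).im (Φ x - y).im
      rw [show (Φ v - y).im - (Φ x - y).im = -((Φ x).im - (Φ v).im) by simp, abs_neg] at h1
      refine max_le (max_le ?_ ?_) ?_ <;>
        linarith [Mx_im η (Φ x - y), Mx_ge η (Φ x - y)]
    · refine (c.re v hv).mono' fun x hx => esc v x ?_
      have hx' : |(Φ x).re - (Φ v).re| ≤ ω := hx
      have h1 := abs_sub_abs_le_abs_sub (Φ v - y).re (Φ x - y).re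
      rw [show (Φ v - y).re - (Φ x - y).re = -((Φ x).re - (Φ v).re) by simp, abs_neg] at h1
      refine max_le (max_le ?_ ?_) ?_ <;>
        linarith [Mx_re η (Φ x - y), Mx_ge η (Φ x - y)]

/-- dyadic shells -/
lemma Chart.shell (c : Chart R0 Φ e C ω) (h0 : 0 < η) (hω : ω ≤ η) (y : ℂ) (m : ℕ) :
    (∑ v ∈ R0, if Mx η (Φ v - y) ≤ η / 2 * 2 ^ m then (e v / Mx η (Φ v - y)) ^ 2 else 0) ≤
      16 * max C 1 * m := by
  induction m with
  | zero =>
    rw [Finset.sum_eq_zero fun v _ => if_neg ?_]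
    · simp
    · have := Mx_ge η (Φ v - y)
      rw [pow_zero]
      linarith
  | succ m ih =>
    set s := η / 2 * 2 ^ m with hs
    have s1 : η / 2 ≤ s := le_mul_of_one_le_right (by linarith) (one_le_pow₀ one_le_two)
    have s0 : 0 < s := by linarith
    have s2 : η / 2 * 2 ^ (m + 1) = 2 * s := by rw [hs]; ring
    have A := c.area y (4 * s) (by linarith)
    rw [Finset.sum_filter] at A
    have B : (∑ v ∈ R0, if ‖Φ v - y‖ ≤ 4 * s then e v ^ 2 else 0) / s ^ 2 ≤ 16 * max C 1 := by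
      rw [div_le_iff₀ (by positivity)]
      nlinarith [le_max_left C 1, sq_nonneg s]
    rw [s2, Nat.cast_succ, mul_add, mul_one]
    refine le_trans ?_ (add_le_add ih B)
    rw [Finset.sum_div, ← Finset.sum_add_distrib]
    refine Finset.sum_le_sum fun v _ => ?_
    have n2 : 0 ≤ (if ‖Φ v - y‖ ≤ 4 * s then e v ^ 2 else 0) / s ^ 2 := by
      split_ifs <;> positivity
    by_cases h1 : Mx η (Φ v - y) ≤ s
    · rw [if_pos h1, if_pos (by linarith)]
      linarith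
    · rw [if_neg h1, zero_add]
      by_cases h2 : Mx η (Φ v - y) ≤ 2 * s
      · rw [if_pos h2, if_pos (by linarith [norm_le_Mx η (Φ v - y)]), div_pow]
        gcongr
        exact (not_le.1 h1).le
      · rw [if_neg h2]
        exact n2

lemma psi_num {K c ψ L : ℝ} {n : ℕ} (n1 : 1 ≤ n)
    (hn : K * c ^ 6 * 2 ^ 12 / ψ ≤ n) (hψ : 0 < ψ) (hL : (n : ℝ) / 2 ≤ L) :
    K * (c * n) ^ 5 * (c * n) / L ^ 12 ≤ ψ := by
  have n0 : (1 : ℝ) ≤ n := by exact_mod_cast n1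
  have L0 : 0 < L := by linarith
  rw [div_le_iff₀ hψ] at hn
  rw [div_le_iff₀ (by positivity)]
  have h1 : ((n : ℝ) / 2) ^ 12 ≤ L ^ 12 := pow_le_pow_left₀ (by linarith) hL 12
  have h2 : (n : ℝ) ^ 7 ≤ (n : ℝ) ^ 12 := pow_le_pow_right₀ n0 (by norm_num)
  have h3 : K * c ^ 6 * 2 ^ 12 * (n : ℝ) ^ 6 ≤ n * ψ * (n : ℝ) ^ 6 := by gcongr
  calc K * (c * n) ^ 5 * (c * n) = K * c ^ 6 * 2 ^ 12 * (n : ℝ) ^ 6 / 2 ^ 12 := by ring
    _ ≤ n * ψ * (n : ℝ) ^ 6 / 2 ^ 12 := by gcongr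
    _ = ψ * ((n : ℝ) ^ 7 / 2 ^ 12) := by ring
    _ ≤ ψ * ((n : ℝ) ^ 12 / 2 ^ 12) := by gcongr
    _ ≤ ψ * L ^ 12 := by rw [← div_pow]; gcongr

theorem psiAt {η0 K : ℝ} {l : ℤ} (hN : NormSt) (hK : 0 < K) (hM : MulAt η0 l K) :
    PsiAt η0 l := by
  intro C ψ h hψ hh
  have c0 : 0 < 256 * max C 1 := by positivity
  obtain ⟨n, hn⟩ := exists_nat_ge (max 20 (K * (256 * max C 1) ^ 6 * 2 ^ 12 / ψ))
  have n20 : (20 : ℝ) ≤ n := (le_max_left _ _).trans hn
  set η := h / 2 ^ n with hη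
  have η0' : 0 < η := by positivity
  refine ⟨η, η0', η / 20, by positivity, ?_⟩
  intro O ι Ω lab R Z lo N R0 Φ e ω hC h0 ω0 hω c k g y B hg hB
  obtain ⟨lam, hi, L, H⟩ := c.lev hN η0' (by linarith) y
  set t0 := Real.log η + 1 with ht0
  set t1 := Real.log (h / 2) - 1 with ht1
  have p : ∀ v, 0 < Mx η (Φ v - y) := fun v => η0'.trans_le (Mx_ge _ _)
  have tt : (n : ℝ) / 2 ≤ t1 - t0 := by
    rw [ht0, ht1, hη, Real.log_div hh.ne' two_ne_zero, Real.log_div hh.ne' (by positivity),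
      Real.log_pow]
    nlinarith [Real.log_two_gt_d9, Real.log_two_lt_d9]
  have t01 : t0 < t1 := by linarith
  have sub : R k g ⊆ R0 := (hC.R_mono hg (Nat.zero_le k)).trans (h0 g hg)
  have nB : ∀ v ∈ R k g, t0 < hi v → v ∈ R k g \ B := fun v hv ht => ⟨hv, fun hb => by
    have := (H v (sub hv)).2.1
    rw [Mx_eq (hB v hb)] at this
    linarith⟩
  set U : Set V := {x | x ∈ R k g ∧ ¬Att (Z k g) (R k g \ B) {x}} with hU
  have back : ∀ v ∈ U, t0 < hi v → ∀ x ∈ R k g, Adj x v → x ∈ U := fun v hv ht x hx a =>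
    ⟨hx, fun A => hv.2 (A.tail a (nB v hv.1 ht))⟩
  have reg : Reg R0 lam hi (R k g) (Z k g) t0 t1 (U ∩ Sp lam hi t0 t1) :=
    ⟨fun v hv => ⟨hv.1.1, hv.2⟩, fun v hv x hx a s => ⟨back v hv.1 hv.2.2 x hx a.symm, s⟩,
      fun z hz v hv a => (hv.1.2 (Att.of_adj hz a (nB v hv.1.1 hv.2.2))).elim⟩
  have en_b : ∀ D, en R0 lam hi t0 t1 D ≤ 256 * max C 1 * n := fun D => by
    have S := c.shell η0' (by linarith) y n
    have e1 : η / 2 * 2 ^ n = h / 2 := by rw [hη]; field_simp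
    rw [e1] at S
    have S2 := mul_le_mul_of_nonneg_left S (by norm_num : (0 : ℝ) ≤ 16)
    rw [Finset.mul_sum] at S2
    refine le_trans (Finset.sum_le_sum fun v hv => ?_) (S2.trans (le_of_eq (by ring)))
    refine (indicator_le_self' (fun _ _ => sq_nonneg _) v).trans ?_
    obtain ⟨h1, -, h3⟩ := H v hv
    by_cases h4 : Mx η (Φ v - y) ≤ h / 2
    · rw [if_pos h4]
      have h5 : len lam hi t0 t1 v ≤ 4 * (e v / Mx η (Φ v - y)) :=
        max_le (by linarith [min_le_left (hi v) t1, le_max_left (lam v) t0])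
          (by linarith [L.le v hv])
      refine (pow_le_pow_left₀ len_nonneg h5 2).trans (le_of_eq (by ring))
    · have h5 := Real.log_le_log (by positivity) (not_le.1 h4).le
      have h6 : len lam hi t0 t1 v = 0 :=
        max_eq_right (by linarith [min_le_right (hi v) t1, le_max_left (lam v) t0])
      rw [if_neg h4, h6]
      norm_num
  refine le_trans (pr_mono (B := Hit R Z k (U ∩ Sp lam hi t0 t1 ∩ {v | t1 ≤ hi v})
    (cl (U ∩ Sp lam hi t0 t1) ∩ {v | t1 ≤ hi v})) ?_) ((hM O ι Ω lab R Z lo N R0 lam hi hC h0 L k g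
      t0 t1 _ _ hg t01 reg fun v _ => en_b _).trans ?_)
  · rintro x hx ⟨j, kj, v, hv, far, na⟩
    have inR : ∀ {i w}, k ≤ i → w ∈ Rv R Z i x → w ∈ R k g := fun ki hw =>
      hC.R_eq hg hx le_rfl ▸ hC.R_mono hx.1 ki hw.2
    have ex : ∃ j, k ≤ j ∧ ∃ v ∈ Rv R Z j x, v ∈ U ∧ t1 ≤ hi v := by
      refine ⟨j, kj, v, hv, ⟨inR kj hv, na⟩, ?_⟩
      have v0 := sub (inR kj hv)
      have h5 : Real.log (h / 2) ≤ Real.log (Mx η (Φ v - y)) :=
        Real.log_le_log (by positivity) (by linarith [norm_le_Mx η (Φ v - y)])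
      linarith [(H v v0).1, L.le v v0]
    classical
    obtain ⟨kj', w, hw, wU, wt⟩ := Nat.find_spec ex
    have mn : ∀ i, k ≤ i → i < Nat.find ex → ∀ u ∈ Rv R Z i x, u ∈ U → hi u < t1 :=
      fun i ki lt u hu uU => not_le.1 fun ht => Nat.find_min ex lt ⟨ki, u, hu, uU, ht⟩
    have w0 : t0 < hi w := t01.trans_le wt
    refine ⟨_, kj', ⟨w, ⟨⟨wU, ?_, w0⟩, wt⟩, hw⟩, fun i ki lt u hu uz ur => ?_⟩
    · obtain ⟨z, a, hz | ⟨i, ki, lt, hz⟩⟩ := hC.pred hx.1 kj' hw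
      · rw [hC.Z_eq hg hx le_rfl] at hz
        exact (wU.2 (Att.of_adj hz a (nB w wU.1 w0))).elim
      · exact (L.adj z (sub (inR ki hz)) w (sub wU.1) a).trans_lt
          (mn i ki lt z hz (back w wU w0 z (inR ki hz) a))
    · have uv : u ∈ Rv R Z i x := ⟨uz, ur⟩
      refine (mn i ki lt u uv ?_).not_ge hu.2
      rcases hu.1 with m | ⟨z, hz, a⟩
      · exact m.1
      · exact back z hz.1 hz.2.2 u (inR ki uv) a.symm
  · refine le_trans ?_ (psi_num (by exact_mod_cast (by linarith : (1 : ℝ) ≤ n))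
      ((le_max_right _ _).trans hn) hψ tt)
    have : 0 < t1 - t0 := by linarith
    gcongr
    exact en_b _

end Pool.Agent.Lib.MP_6359c9_pr.Fj
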