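import Pool.Agent.Lib.MP_6359c9_pr.FjDef

/-! Normalisation of a potential: levels without local maxima. -/

namespace Pool.Agent.Lib.MP_6359c9_pr.Fj

open Set

lemma Esc.mono {R0 S T : Set V} {v : V} (h : Esc R0 S v) (hs : ∀ x ∈ R0, x ∈ S → x ∈ T) :
    Esc R0 T v := by
  obtain ⟨v', w, h1, h2, h3, h4⟩ := h
  exact ⟨v', w, h1.mono fun x hx => ⟨hx.1, hs x hx.1 hx.2⟩, h2, h3,
    fun x hx a => hs x hx (h4 x hx a)⟩

lemma Esc.mem {R0 S : Set V} {v : V} (h : Esc R0 S v) : v ∈ R0 ∧ v ∈ S := by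
  obtain ⟨v', w, h1, -⟩ := h
  exact h1.left

lemma Esc.head {R0 S : Set V} {v x : V} (h : Esc R0 S x) (a : Adj v x) (hv : v ∈ R0)
    (hs : v ∈ S) : Esc R0 S v := by
  obtain ⟨v', w, h1, h2⟩ := h
  exact ⟨v', w, Conn.head ⟨hv, hs⟩ a h1, h2⟩

/-- an escape stays inside the set of the points that escape -/
lemma Esc.self {R0 S : Set V} {v : V} (h : Esc R0 S v) : Esc R0 {x | Esc R0 S x} v := by
  obtain ⟨v', w, h1, h2, h3, h4⟩ := h
  refine ⟨v', w, h1.cluster.mono fun x hx => ?_, h2, h3, fun x hx a => ?_⟩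
  · have hx' : Conn (R0 ∩ S) v x := hx
    exact ⟨hx'.right.1, v', w, hx'.symm.trans h1, h2, h3, h4⟩
  · exact ⟨x, w, Conn.refl ⟨hx, h4 x hx a⟩, a.symm, h3, h4⟩

/-- the largest level along which a vertex escapes -/
lemma exists_top (R0 : Finset V) (f : V → ℝ) (v : V) (c0 : ℝ)
    (h0 : Esc R0 {x | c0 ≤ f x} v) :
    ∃ m : ℝ, Esc R0 {x | m ≤ f x} v ∧ ∀ c, Esc R0 {x | c ≤ f x} v → c ≤ m := by
  classical
  have up : ∀ c, Esc R0 {x | c ≤ f x} v → ∃ y ∈ R0, c ≤ f y ∧ Esc R0 {x | f y ≤ f x} v := by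
    intro c hc
    obtain ⟨y, hy, hm⟩ := Finset.exists_min_image (R0.filter fun x => c ≤ f x) f
      ⟨v, Finset.mem_filter.2 ⟨hc.mem.1, hc.mem.2⟩⟩
    exact ⟨y, (Finset.mem_filter.1 hy).1, (Finset.mem_filter.1 hy).2,
      hc.mono fun x hx hs => hm x (Finset.mem_filter.2 ⟨hx, hs⟩)⟩
  obtain ⟨y0, hy0, -, e0⟩ := up c0 h0
  obtain ⟨y, hy, hm⟩ := Finset.exists_max_image
    (R0.filter fun y => Esc R0 {x | f y ≤ f x} v) f ⟨y0, Finset.mem_filter.2 ⟨hy0, e0⟩⟩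
  refine ⟨f y, (Finset.mem_filter.1 hy).2, fun c hc => ?_⟩
  obtain ⟨z, hz, h1, h2⟩ := up c hc
  exact h1.trans (hm z (Finset.mem_filter.2 ⟨hz, h2⟩))

theorem normSt : NormSt := by
  classical
  intro R0 u e ω he hu hesc
  have h0 : ∀ v ∈ R0, Esc R0 {x | u v - 2 * ω ≤ u x - e x} v := fun v hv =>
    (hesc v hv).mono fun x hx hs => by
      have h1 : u v - ω ≤ u x := hs
      have h2 := (he x hx).2
      show u v - 2 * ω ≤ u x - e x
      linarith
  have h1 : ∀ v, ∃ m : ℝ, v ∈ R0 → Esc R0 {x | m ≤ u x - e x} v ∧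
      ∀ c, Esc R0 {x | c ≤ u x - e x} v → c ≤ m := by
    intro v
    by_cases hv : v ∈ R0
    · obtain ⟨m, hm⟩ := exists_top R0 (fun x => u x - e x) v _ (h0 v hv)
      exact ⟨m, fun _ => hm⟩
    · exact ⟨0, fun h => absurd h hv⟩
  choose lam hl using h1
  have h2 : ∀ v, ∃ y, v ∈ R0 → y ∈ R0 ∧ (y = v ∨ Adj v y) ∧
      ∀ x ∈ R0, x = v ∨ Adj v x → lam x ≤ lam y := by
    intro v
    by_cases hv : v ∈ R0
    · obtain ⟨y, hy, hm⟩ := Finset.exists_max_image (R0.filter fun x => x = v ∨ Adj v x) lam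
        ⟨v, Finset.mem_filter.2 ⟨hv, Or.inl rfl⟩⟩
      exact ⟨y, fun _ => ⟨(Finset.mem_filter.1 hy).1, (Finset.mem_filter.1 hy).2,
        fun x hx hs => hm x (Finset.mem_filter.2 ⟨hx, hs⟩)⟩⟩
    · exact ⟨v, fun h => absurd h hv⟩
  choose y hy using h2
  have top : ∀ v ∈ R0, lam v ≤ u v - e v := fun v hv => (hl v hv).1.mem.2
  refine ⟨lam, fun v => lam (y v), ⟨fun v hv => (hy v hv).2.2 v hv (Or.inl rfl),
    fun v hv x hx a => (hy v hv).2.2 x hx (Or.inr a), fun v hv => ?_, fun v hv => ?_⟩,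
    fun v hv => ⟨(hl v hv).2 _ (h0 v hv), ?_, ?_⟩⟩
  · rcases (hy v hv).2.1 with h | h
    · exact Or.inl (by rw [h])
    · exact Or.inr ⟨y v, (hy v hv).1, h, le_rfl⟩
  · exact (hl v hv).1.self.mono fun x hx hs => (hl x hx).2 _ hs
  · have a1 := top _ (hy v hv).1
    have a2 := he v hv
    show lam (y v) ≤ u v + ω
    rcases (hy v hv).2.1 with h | h
    · rw [h] at a1 ⊢; linarith
    · have a3 := hu _ (hy v hv).1 v hv h.symm
      linarith
  · have a1 := top _ (hy v hv).1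
    have a2 := he v hv
    show lam (y v) - lam v ≤ 2 * e v
    rcases (hy v hv).2.1 with h | h
    · rw [h]; linarith
    · have a3 := hu _ (hy v hv).1 v hv h.symm
      have a6 : Esc R0 {x | min (u v - e v) (lam (y v)) ≤ u x - e x} (y v) :=
        (hl _ (hy v hv).1).1.mono fun x _ hs => (min_le_right (u v - e v) (lam (y v))).trans hs
      have a4 : min (u v - e v) (lam (y v)) ≤ lam v :=
        (hl v hv).2 _ (a6.head h hv (min_le_left (u v - e v) (lam (y v))))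
      rcases min_le_iff.1 a4 with a5 | a5 <;> linarith

end Pool.Agent.Lib.MP_6359c9_pr.Fj
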