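import Pool.Agent.Lib.MP_6359c9_pr.FjB
import Pool.Agent.Lib.MP_6359c9_pr.FjN

/-! The fjord estimate: sealed channels. -/

namespace Pool.Agent.Lib.MP_6359c9_pr.Fj

open Set

variable {O ι : Type} {l : ℤ} {η : ℝ} {Ω : Set O} {lab : ℕ → O → ι} {R Z : ℕ → O → Set V}
  {lo : O → Set V} {N k : ℕ} {g : O} {R0 : Finset V} {lam hi : V → ℝ}
  {t0 t1 K ψ a ε : ℝ} {S Y B : Set V} {F : Set (Set V)} {v x : V}

/-- the vertices of `S` that some member of `F` cuts from `Y` -/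
def Cut (F : Set (Set V)) (S Y : Set V) : Set V := {x | x ∈ S ∧ ∃ B ∈ F, ¬Att Y (S \ B) {x}}

/-- the vertices of the strip that are cut off for the first time at step `k` -/
def New (F : Set (Set V)) (R Z : ℕ → O → Set V) (P : Set V) (k : ℕ) (g : O) : Set V :=
  {x | x ∈ Cut F (R k g) (Z k g) ∩ P ∧ ∀ i < k, x ∉ Cut F (R i g) (Z i g) ∩ P}

lemma Cut.adj (hv : v ∈ Cut F S Y) (n : ∀ B ∈ F, v ∉ B) (a : Adj v x) (hx : x ∈ S) :
    x ∈ Cut F S Y :=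
  let ⟨h1, B, h2, h3⟩ := hv
  ⟨hx, B, h2, fun t => h3 (t.tail a.symm ⟨h1, n B h2⟩)⟩

lemma Cut.far (hv : v ∈ Cut F S Y) (n : ∀ B ∈ F, v ∉ B) (hx : x ∈ Y) : ¬Adj x v :=
  let ⟨h1, B, h2, h3⟩ := hv
  fun a => h3 (Att.of_adj hx a ⟨h1, n B h2⟩)

lemma en_sum (D : ℕ → Set V) (hD : ∀ i k, i < k → ∀ x ∈ D i, x ∉ D k) (n : ℕ) :
    ∑ k ∈ Finset.range n, en R0 lam hi t0 t1 (D k) ≤ en R0 lam hi t0 t1 {x | ∃ k < n, x ∈ D k} := by
  induction n with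
  | zero => simpa using en_nonneg
  | succ n ih =>
    rw [Finset.sum_range_succ, en_split (D := D n) (C := {x | ∃ k < n + 1, x ∈ D k})
      fun x hx => ⟨n, Nat.lt_succ_self n, hx⟩, add_comm]
    exact add_le_add le_rfl (ih.trans (en_le
      (fun x ⟨k, h1, h2⟩ => ⟨⟨k, by omega, h2⟩, hD k n h1 x h2⟩) le_rfl le_rfl))

section

variable (h : Ch l η Ω lab R Z lo N) (h0 : ∀ g ∈ Ω, R 0 g ⊆ R0) (hL : Lev R0 lam hi)
  (low : ∀ B ∈ F, ∀ b ∈ B, b ∈ R0 → hi b ≤ t0)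
include h h0 low

lemma off (hg : g ∈ Ω) (hv : v ∈ R k g) (lt : t0 < hi v) : ∀ B ∈ F, v ∉ B := fun B hB m =>
  lt.not_ge (low B hB v m (h0 g hg (h.R_mono hg (Nat.zero_le k) hv)))

lemma New.reg (hg : g ∈ Ω) :
    Reg R0 lam hi (R k g) (Z k g) t0 t1 (New F R Z (Sp lam hi t0 t1) k g) :=
  ⟨fun _ m => ⟨m.1.1.1, m.1.2⟩, fun _ m _ hx a s =>
    ⟨⟨Cut.adj m.1.1 (off h h0 low hg m.1.1.1 m.1.2.2) a hx, s⟩, fun i ik n => m.2 i ik
      ⟨Cut.adj n.1 (off h h0 low hg n.1.1 s.2) a.symm (h.R_mono hg ik.le m.1.1.1), m.1.2⟩⟩,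
    fun _ hz _ m a => absurd a (Cut.far m.1.1 (off h h0 low hg m.1.1.1 m.1.2.2) hz)⟩

include hL

lemma New.hit (lt : t0 < t1) (hg : g ∈ Ω)
    (e : ∃ j, ∃ k ≤ j, ∃ v ∈ Rv R Z j g, t1 ≤ hi v ∧ v ∈ Cut F (R k g) (Z k g)) :
    ∃ k < N, g ∈ Hit R Z k (New F R Z (Sp lam hi t0 t1) k g ∩ {v | t1 ≤ hi v})
      (cl (New F R Z (Sp lam hi t0 t1) k g) ∩ {v | t1 ≤ hi v}) := by
  classical
  obtain ⟨k, kj, v, r, tv, cv⟩ := Nat.find_spec e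
  have mn := fun i => Nat.find_min e (m := i)
  generalize Nat.find e = j at kj r mn
  have s0 : ∀ i, R i g ⊆ R0 := fun i => (h.R_mono hg (Nat.zero_le i)).trans (h0 g hg)
  have ov := off h h0 low hg r.2 (lt.trans_le tv)
  have sv : v ∈ Sp lam hi t0 t1 := by
    refine ⟨?_, lt.trans_le tv⟩
    obtain ⟨y, a, e' | ⟨i, i1, i2, e'⟩⟩ := h.pred hg kj r
    · exact absurd a (Cut.far cv ov e')
    · exact (hL.adj y (s0 i e'.2) v (s0 j r.2) a).trans_lt (not_le.1 fun le =>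
        mn i i2 ⟨k, i1, y, e', le, Cut.adj cv ov a.symm (h.R_mono hg i1 e'.2)⟩)
  have e2 : ∃ i, v ∈ Cut F (R i g) (Z i g) ∩ Sp lam hi t0 t1 := ⟨k, cv, sv⟩
  have k1 : Nat.find e2 ≤ k := Nat.find_min' e2 ⟨cv, sv⟩
  have k2 := Nat.find_spec e2
  have k3 := fun i => Nat.find_min e2 (m := i)
  generalize Nat.find e2 = s at k1 k2 k3
  refine ⟨s, not_le.1 fun le => (h.empty hg le ▸ k2.1.1 : v ∈ ∅), j, k1.trans kj,
    ⟨v, ⟨⟨k2, k3⟩, tv⟩, r⟩, fun i i1 i2 w hw r1 r2 => mn i i2 ⟨s, i1, w, ⟨r1, r2⟩, hw.2, ?_⟩⟩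
  rcases hw.1 with m | ⟨y, m, a⟩
  · exact m.1.1
  · exact Cut.adj m.1.1 (off h h0 low hg m.1.1.1 m.1.2.2) a (h.R_mono hg i1 r2)

/-- one strip -/
lemma strip_le (hM : MulAt η l K) (lt : t0 < t1) (ε0 : 0 ≤ ε) (e1 : K * a ^ 5 / (t1 - t0) ^ 12 ≤ ε)
    (e2 : ψ ≤ ε * a) (hψ : ∀ k, ∀ g ∈ Ω, ∀ B ∈ F, Pr (Fb Ω lab k g)
      {g' | ∃ j, k ≤ j ∧ ∃ v ∈ Rv R Z j g', t1 ≤ hi v ∧ ¬Att (Z k g) (R k g \ B) {v}} ≤ ψ) :
    Pr Ω {g | ∃ j, ∃ k ≤ j, ∃ v ∈ Rv R Z j g, t1 ≤ hi v ∧ v ∈ Cut F (R k g) (Z k g)} ≤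
      ε * en R0 lam hi t0 t1 univ := by
  by_cases ok : Ok Ω
  swap
  · rw [pr_eq, ex_nok ok]
    exact mul_nonneg ε0 en_nonneg
  set D := New F R Z (Sp lam hi t0 t1) with hD
  have f1 : ∀ k, ∀ g ∈ Ω, Pr (Fb Ω lab k g) (Hit R Z k (D k g ∩ {v | t1 ≤ hi v})
      (cl (D k g) ∩ {v | t1 ≤ hi v})) ≤ ε * en R0 lam hi t0 t1 (D k g) := by
    intro k g hg
    have r := New.reg (t1 := t1) (lam := lam) (k := k) h h0 low hg
    refine hit_comp _ _ _ (R0.finite_toSet.subset fun v hv =>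
      h0 g hg (h.R_mono hg (Nat.zero_le k) (r.sub hv).1)) fun v hv => ?_
    by_cases sm : en R0 lam hi t0 t1 (Km (D k g) v) ≤ a
    · refine (hM O ι Ω lab R Z lo N R0 lam hi h h0 hL k g t0 t1 a _ hg lt r.km fun x _ =>
        (en_le Km_sub le_rfl le_rfl).trans sm).trans ?_
      rw [mul_div_right_comm]
      exact mul_le_mul_of_nonneg_right e1 en_nonneg
    obtain ⟨B, hB, n⟩ := hv.1.1.2
    refine ((pr_mono ?_).trans (hψ k g hg B hB)).trans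
      (e2.trans (mul_le_mul_of_nonneg_left (not_le.1 sm).le ε0))
    rintro y - ⟨j, kj, ⟨w, hw, h1⟩, -⟩
    refine ⟨j, kj, w, h1, hw.2, ?_⟩
    exact Conn.ind (P := fun w => ¬Att (Z k g) (R k g \ B) {w}) hw.1 n fun p q c pq _ ih t =>
      ih (t.tail pq.symm ⟨c.right.1.1.1, off h h0 low hg c.right.1.1.1 c.right.1.2.2 B hB⟩)
  have f2 : ∀ k, ∀ g ∈ Ω, ∀ y ∈ Fb Ω lab k g, D k y = D k g := fun k g hg y hy => by
    ext x
    simp only [hD, New, mem_ofPred_eq, h.R_eq hg hy le_rfl, h.Z_eq hg hy le_rfl]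
    exact and_congr_right fun _ => forall₂_congr fun i ik => by
      rw [h.R_eq hg hy ik.le, h.Z_eq hg hy ik.le]
  have f3 : ∀ k, Pr Ω {g | g ∈ Hit R Z k (D k g ∩ {v | t1 ≤ hi v}) (cl (D k g) ∩ {v | t1 ≤ hi v})} ≤
      Ex Ω fun g => ε * en R0 lam hi t0 t1 (D k g) := fun k => by
    rw [pr_eq]
    refine ex_fib_le (lab k) fun g hg => ?_
    rw [← pr_eq]
    have ok : Ok (Fb Ω lab k g) := ⟨h.fin.inter_of_left _, g, Fb.self hg⟩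
    refine ((pr_mono fun y hy m => ?_).trans (f1 k g hg)).trans
      (le_ex ok fun y hy => by rw [f2 k g hg y hy])
    rw [← f2 k g hg y hy]
    exact m
  refine (pr_mono (B := ⋃ k ∈ Finset.range N, {g | g ∈ Hit R Z k (D k g ∩ {v | t1 ≤ hi v})
    (cl (D k g) ∩ {v | t1 ≤ hi v})}) fun g hg e => ?_).trans ((pr_biUnion_le _ _ _).trans
      ((Finset.sum_le_sum fun k _ => f3 k).trans ?_))
  · obtain ⟨k, k1, k2⟩ := New.hit h h0 hL low lt hg e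
    exact mem_iUnion₂.2 ⟨k, Finset.mem_range.2 k1, k2⟩
  rw [← ex_sum]
  refine ex_le ok fun g _ => ?_
  rw [← Finset.mul_sum]
  exact mul_le_mul_of_nonneg_left ((en_sum (fun k => D k g) (fun i k ik x m n => n.2 i ik m.1)
    N).trans (en_le (subset_univ _) le_rfl le_rfl)) ε0

end

lemma Chart.en_le {Φ : V → ℂ} {e : V → ℝ} {C ω : ℝ} (hc : Chart R0 Φ e C ω) (ω1 : ω ≤ 1)
    (hb : ∀ v ∈ R0, hi v - lam v ≤ 2 * e v) : en R0 lam hi t0 t1 univ ≤ 4 * C := by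
  have := hc.area 0 1 ω1
  rw [Finset.filter_true_of_mem fun v hv => by simpa using hc.disc v hv, one_pow, mul_one] at this
  refine le_trans ?_ (mul_le_mul_of_nonneg_left this (by norm_num))
  rw [Finset.mul_sum, en]
  refine Finset.sum_le_sum fun v hv => ?_
  rw [indicator_univ]
  have a1 := hc.pos v hv
  have a2 : len lam hi t0 t1 v ≤ 2 * e v := max_le
    (le_trans (sub_le_sub (min_le_left _ _) (le_max_left _ _)) (hb v hv)) (by linarith)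
  have a3 : 0 ≤ len lam hi t0 t1 v := len_nonneg
  nlinarith

lemma Esc.abs {f : V → ℝ} {c ω : ℝ} (h : Esc S {x | |f x - c| ≤ ω} v) :
    Esc S {x | c - ω ≤ f x} v ∧ Esc S {x | -c - ω ≤ -f x} v :=
  ⟨h.mono fun x _ (m : |f x - c| ≤ ω) => show c - ω ≤ f x by linarith [(abs_le.1 m).1],
    h.mono fun x _ (m : |f x - c| ≤ ω) => show -c - ω ≤ -f x by linarith [(abs_le.1 m).2]⟩

/-- one direction -/
lemma seal_dir (hN : NormSt) (hM : MulAt η l K) (h : Ch l η Ω lab R Z lo N)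
    (h0 : ∀ g ∈ Ω, R 0 g ⊆ R0) {Φ : V → ℂ} {e : V → ℝ} {C ω d r : ℝ} (hc : Chart R0 Φ e C ω)
    (p : ℂ → ℝ) (p0 : p 0 = 0) (hp : ∀ a b, p a - p b ≤ ‖a - b‖)
    (esc : ∀ v ∈ R0, Esc R0 {x | p (Φ v) - ω ≤ p (Φ x)} v) (d0 : 0 < d) (ω0 : 0 < ω) (ω1 : ω ≤ 1)
    (ω2 : ω ≤ d / 2) (r1 : r ≤ d / 2) (ε0 : 0 ≤ ε) (e1 : K * a ^ 5 / d ^ 12 ≤ ε) (e2 : ψ ≤ ε * a)
    (hψ : ∀ (k : ℕ) (g : O) (y : ℂ) (B : Set V), g ∈ Ω → (∀ x ∈ B, ‖Φ x - y‖ ≤ r) →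
      Pr (Fb Ω lab k g) {g' | ∃ j, k ≤ j ∧ ∃ v ∈ Rv R Z j g', d ≤ ‖Φ v - y‖ ∧
        ¬Att (Z k g) (R k g \ B) {v}} ≤ ψ) :
    Pr Ω {g | ∃ (k j : ℕ) (y : ℂ) (v : V) (B : Set V), k ≤ j ∧ v ∈ Rv R Z j g ∧
      4 * d ≤ p (Φ v) - p y ∧ (∀ x ∈ B, ‖Φ x - y‖ ≤ r) ∧ ¬Att (Z k g) (R k g \ B) {v}} ≤
      (⌊2 / d⌋₊ + 1 : ℕ) * (ε * (4 * C)) := by
  obtain ⟨lam, hi, hL, hb⟩ := hN R0 (fun v => p (Φ v)) e ω (fun v hv => ⟨hc.pos v hv, hc.small v hv⟩)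
    (fun v hv x hx a => (hp _ _).trans (hc.lip v hv x hx a)) esc
  have s0 : ∀ g ∈ Ω, ∀ i, R i g ⊆ R0 := fun g hg i =>
    (h.R_mono hg (Nat.zero_le i)).trans (h0 g hg)
  have en4 := fun t0 t1 => hc.en_le (t0 := t0) (t1 := t1) ω1 fun v hv => (hb v hv).2.2
  obtain ⟨T, hT⟩ : ∃ T : ℕ → ℝ, ∀ i, T i = -1 + (i - 1) * d := ⟨_, fun _ => rfl⟩
  obtain ⟨F, hF⟩ : ∃ F : ℕ → Set (Set V), ∀ i B, B ∈ F i ↔
      ∃ y, p y ≤ T i - 2 * d ∧ ∀ x ∈ B, ‖Φ x - y‖ ≤ r :=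
    ⟨fun i => {B | ∃ y, p y ≤ T i - 2 * d ∧ ∀ x ∈ B, ‖Φ x - y‖ ≤ r}, fun _ _ => Iff.rfl⟩
  generalize hn : ⌊2 / d⌋₊ + 1 = n
  refine le_trans (pr_mono ?_) ((pr_biUnion_le Ω (Finset.range n) fun i => {g | ∃ j, ∃ k ≤ j,
    ∃ v ∈ Rv R Z j g, T i ≤ hi v ∧ v ∈ Cut (F i) (R k g) (Z k g)}).trans ?_)
  · rintro g hg ⟨k, j, y, v, B, kj, rv, b1, b2, b3⟩
    have v0 := s0 g hg j rv.2
    have u1 := hp (Φ v) 0
    have u2 := hp 0 (Φ v)
    rw [p0, sub_zero, sub_zero] at u1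
    rw [p0, zero_sub, zero_sub, norm_neg] at u2
    have u3 := hc.disc v v0
    have u4 : 0 ≤ (p (Φ v) + 1) / d := div_nonneg (by linarith) d0.le
    have u5 := (le_div_iff₀ d0).1 (Nat.floor_le u4)
    have u6 := (div_lt_iff₀ d0).1 (Nat.lt_floor_add_one ((p (Φ v) + 1) / d))
    have u7 := (hb v v0).1
    have u8 := hL.le v v0
    have u9 : ⌊(p (Φ v) + 1) / d⌋₊ ≤ ⌊2 / d⌋₊ :=
      Nat.floor_le_floor (div_le_div_of_nonneg_right (by linarith) d0.le)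
    generalize ⌊(p (Φ v) + 1) / d⌋₊ = i at u5 u6 u9
    have := hT i
    exact mem_iUnion₂.2 ⟨i, Finset.mem_range.2 (by omega), j, k, kj, v, rv, by linarith,
      h.R_mono hg kj rv.2, B, (hF i B).2 ⟨y, by linarith, b2⟩, b3⟩
  refine (Finset.sum_le_card_nsmul _ _ (ε * (4 * C)) fun i _ => ?_).trans
    (by rw [Finset.card_range, nsmul_eq_mul])
  have e3 : K * a ^ 5 / (T i - (T i - d)) ^ 12 ≤ ε := by rwa [sub_sub_cancel]
  refine (strip_le (t0 := T i - d) (t1 := T i) (F := F i) h h0 hL ?_ hM (by linarith) ε0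
    e3 e2 ?_).trans (mul_le_mul_of_nonneg_left (en4 _ _) ε0)
  · intro B hB' b hB b0
    obtain ⟨y, y1, y2⟩ := (hF i B).1 hB'
    have := hp (Φ b) y
    have := y2 b hB
    have := (hb b b0).2.1
    linarith
  · intro k g hg B hB
    obtain ⟨y, y1, y2⟩ := (hF i B).1 hB
    refine (pr_mono ?_).trans (hψ k g y B hg y2)
    rintro g' hg' ⟨j, kj, v, rv, b1, b2⟩
    refine ⟨j, kj, v, rv, ?_, b2⟩
    have := hp (Φ v) y
    have := (hb v (s0 g' hg'.1 j rv.2)).2.1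
    linarith

theorem fjSt_of (hN : NormSt) (hM : MulSt)
    (hP : ∀ η0 l K, 0 < K → MulAt η0 l K → PsiAt η0 l) : FjSt := by
  obtain ⟨η0, h1, hM⟩ := hM
  refine ⟨η0, h1, fun l C ε ρ hl ε0 ρ0 => ?_⟩
  obtain ⟨K, K0, hM⟩ := hM l hl
  set d := ρ / 8 with hd
  have d0 : 0 < d := by positivity
  set n : ℝ := ((⌊2 / d⌋₊ + 1 : ℕ) : ℝ) with hn
  have n0 : 0 < n := by positivity
  have C0 : 0 < max C 1 := lt_max_of_lt_right one_pos
  set ε' := ε / (16 * n * max C 1) with hε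
  have ε1 : 0 < ε' := by positivity
  set a := min 1 (ε' * d ^ 12 / K) with ha
  have a0 : 0 < a := by positivity
  have e1 : K * a ^ 5 / d ^ 12 ≤ ε' := by
    have b1 : a ^ 5 ≤ a := pow_le_of_le_one a0.le (min_le_left _ _) (by norm_num)
    have b2 := (le_div_iff₀ K0).1 (b1.trans (min_le_right _ _))
    rw [div_le_iff₀ (by positivity)]
    linarith
  obtain ⟨η, η0', ω, ω0, hψ⟩ := hP η0 l K K0 hM C (ε' * a) d (by positivity) d0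
  refine ⟨min η (d / 2), by positivity, min ω (min 1 (d / 2)), by positivity, ?_⟩
  intro O ι Ω lab R Z lo N R0 Φ e ω' h h0 w0 w1 hc
  have key := fun p p0 hp esc => seal_dir hN hM h h0 hc p p0 hp esc d0 w0
    (w1.trans ((min_le_right _ _).trans (min_le_left _ _)))
    (w1.trans ((min_le_right _ _).trans (min_le_right _ _))) (min_le_right η _) ε1.le e1 le_rfl
    fun k g y B hg hB => hψ O ι Ω lab R Z lo N R0 Φ e ω' h h0 w0 (w1.trans (min_le_left _ _)) hc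
      k g y B hg fun x hx => (hB x hx).trans (min_le_left _ _)
  have k1 := key (fun z => z.re) rfl (fun a b => Complex.re_le_norm (a - b)) fun v hv =>
    (hc.re v hv).abs.1
  have k2 := key (fun z => -z.re) neg_zero (fun a b => by
    have := (abs_le.1 (Complex.abs_re_le_norm (a - b))).1
    rw [Complex.sub_re] at this; linarith) fun v hv =>
    (hc.re v hv).abs.2
  have k3 := key (fun z => z.im) rfl (fun a b => Complex.im_le_norm (a - b)) fun v hv =>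
    (hc.im v hv).abs.1
  have k4 := key (fun z => -z.im) neg_zero (fun a b => by
    have := (abs_le.1 (Complex.abs_im_le_norm (a - b))).1
    rw [Complex.sub_im] at this; linarith) fun v hv =>
    (hc.im v hv).abs.2
  have fin : n * (ε' * (4 * C)) ≤ ε / 4 := by
    calc n * (ε' * (4 * C)) ≤ n * (ε' * (4 * max C 1)) := by gcongr; exact le_max_left _ _
      _ = ε / 4 := by rw [hε]; field_simp; norm_num
  refine (pr_mono ?_).trans ((pr_union_le _ _ _).trans (add_le_add ((pr_union_le _ _ _).trans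
    (add_le_add k1 k2)) ((pr_union_le _ _ _).trans (add_le_add k3 k4)))) |>.trans (by linarith)
  rintro g - ⟨k, j, y, v, B, kj, r1, r2, b1, b2, b3⟩
  have := Complex.norm_le_abs_re_add_abs_im (Φ v - y)
  rw [Complex.sub_re, Complex.sub_im] at this
  by_cases c1 : 4 * d ≤ (Φ v).re - y.re
  · exact Or.inl (Or.inl ⟨k, j, y, v, B, kj, ⟨r1, r2⟩, c1, b2, b3⟩)
  by_cases c2 : 4 * d ≤ -(Φ v).re - -y.re
  · exact Or.inl (Or.inr ⟨k, j, y, v, B, kj, ⟨r1, r2⟩, c2, b2, b3⟩)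
  by_cases c3 : 4 * d ≤ (Φ v).im - y.im
  · exact Or.inr (Or.inl ⟨k, j, y, v, B, kj, ⟨r1, r2⟩, c3, b2, b3⟩)
  refine Or.inr (Or.inr ⟨k, j, y, v, B, kj, ⟨r1, r2⟩, not_lt.1 fun c4 => ?_, b2, b3⟩)
  have f1 : |(Φ v).re - y.re| < 4 * d := abs_lt.2 ⟨by linarith, by linarith⟩
  have f2 : |(Φ v).im - y.im| < 4 * d := abs_lt.2 ⟨by linarith, by linarith⟩
  linarith

end Pool.Agent.Lib.MP_6359c9_pr.Fj
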