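import Pool.Agent.Lib.MP_6359c9_pr.RgQuad
import Pool.Agent.Lib.MP_6359c9_pr.FjDef

/-! Gates: the static estimate and the discrete length area argument. -/

namespace Pool.Agent.Lib.MP_6359c9_pr

open Set MeasureTheory

open Classical in
/-- every level meets `N` intervals -/
lemma level_sum (G : Finset V) (lam hi e : V → ℝ) {s0 s1 N : ℝ} (h : s0 ≤ s1)
    (he : ∀ v ∈ G, 0 ≤ e v ∧ min (hi v) s1 - max (lam v) s0 ≤ e v)
    (hN : ∀ s, s0 < s → s ≤ s1 → N ≤ (G.filter fun v => lam v < s ∧ s ≤ hi v).card) :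
    N * (s1 - s0) ≤ ∑ v ∈ G, e v := by
  have i1 : ∀ v, Integrable ((Ioc (lam v) (hi v)).indicator fun _ => (1 : ℝ))
      (volume.restrict (Ioc s0 s1)) := fun v => (integrable_const _).indicator measurableSet_Ioc
  calc N * (s1 - s0) = ∫ _s in Ioc s0 s1, N := by
        rw [setIntegral_const, Real.volume_real_Ioc_of_le h, smul_eq_mul, mul_comm]
    _ ≤ ∫ s in Ioc s0 s1, ∑ v ∈ G, (Ioc (lam v) (hi v)).indicator (fun _ => (1 : ℝ)) s := by
        refine setIntegral_mono_on (integrable_const _) (integrable_finsetSum _ fun v _ => i1 v)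
          measurableSet_Ioc fun s hs => (hN s hs.1 hs.2).trans (le_of_eq ?_)
        rw [Finset.card_filter]
        push_cast
        exact Finset.sum_congr rfl fun v _ => by simp only [indicator, mem_Ioc]
    _ = ∑ v ∈ G, ∫ s in Ioc s0 s1, (Ioc (lam v) (hi v)).indicator (fun _ => (1 : ℝ)) s :=
        integral_finsetSum _ fun v _ => i1 v
    _ ≤ _ := Finset.sum_le_sum fun v hv => by
        rw [setIntegral_indicator measurableSet_Ioc, setIntegral_const, Ioc_inter_Ioc,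
          Real.volume_real_Ioc, smul_eq_mul, mul_one]
        refine max_le ?_ (he v hv).1
        rw [min_comm, max_comm]
        exact (he v hv).2

/-- a path visits every distance from its start -/
lemma Conn.many {S : Set V} {p q : V} (h : Conn S p q) (m : ℕ) (hm : (m : ℤ) ≤ ds q p) :
    ∃ A : Finset V, A.card = m + 1 ∧ ∀ v ∈ A, v ∈ S ∧ v ∈ Bx p m := by
  classical
  have : ∀ k : ℕ, ∃ v, k ≤ m → v ∈ S ∧ ds v p = k := fun k => by
    by_cases h1 : k ≤ m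
    · by_cases h2 : ds q p = k
      · exact ⟨q, fun _ => ⟨h.right, h2⟩⟩
      · obtain ⟨a, c, e⟩ := h.ring (x := p) (r := k) (by rw [ds_self]; omega) (by omega)
        exact ⟨a, fun _ => ⟨c.right.1, e⟩⟩
    · exact ⟨p, fun k => absurd k h1⟩
  choose f hf using this
  refine ⟨(Finset.range (m + 1)).image f, ?_, fun v hv => ?_⟩
  · rw [Finset.card_image_of_injOn, Finset.card_range]
    intro a ha b hb e
    have h1 := (hf a (by simpa [Nat.lt_succ_iff] using ha)).2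
    have h2 := (hf b (by simpa [Nat.lt_succ_iff] using hb)).2
    rw [e] at h1
    omega
  · obtain ⟨k, hk, rfl⟩ := Finset.mem_image.1 hv
    have := hf k (by simpa [Nat.lt_succ_iff] using hk)
    have := Finset.mem_range.1 hk
    exact ⟨by tauto, mem_Bx_ds.2 (by omega)⟩

/-- a crosscut inside `B` whose ends are off `E` -/
def Wall.Gate (W : Wall) (i0 i1 : ℕ) (E B : Set V) : Prop :=
  ∃ (a b : ℕ) (u v : V), i0 < a ∧ a < i1 ∧ i1 < b ∧ b < i0 + W.n ∧ W.γ a ∉ E ∧ W.γ b ∉ E ∧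
    Adj (W.γ a) u ∧ Adj v (W.γ b) ∧ Conn (W.R ∩ B) u v

/-- crosscuts at all levels and small energy give a short crosscut of a long channel -/
theorem gateCore (l : ℕ) (l2 : 1 ≤ l) (W : Wall) {i0 i1 : ℕ} {E0 E2 : Set V} (F : Finset V)
    (lam hi e : V → ℝ) {s0 s1 : ℝ} (c0 : ∀ v ∈ E0, DConn W.R W.γ E0 v (W.γ i0))
    (c2 : ∀ v ∈ E2, DConn W.R W.γ E2 v (W.γ i1)) (hF : ∀ v ∈ F, v ∉ E0 ∪ E2) (hs : s0 < s1)
    (cut : ∀ s, s0 < s → s ≤ s1 → W.Gate i0 i1 (E0 ∪ E2) {v | v ∈ F ∧ lam v < s ∧ s ≤ hi v})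
    (he : ∀ v ∈ F, 0 ≤ e v ∧ min (hi v) s1 - max (lam v) s0 ≤ e v)
    (hM : (4 * l + 11) ^ 2 * ∑ v ∈ F, e v ^ 2 ≤ (s1 - s0) ^ 2) :
    ∃ x d, 1 ≤ d ∧ (∃ (a b : ℕ) (u v : V), i0 < a ∧ a < i1 ∧ i1 < b ∧ b < i0 + W.n ∧
      W.γ a ∈ Bx x d \ (E0 ∪ E2) ∧ W.γ b ∈ Bx x d \ (E0 ∪ E2) ∧ Adj (W.γ a) u ∧ Adj v (W.γ b) ∧
      Conn (W.R ∩ (Bx x d \ (E0 ∪ E2))) u v) ∧
      ∀ u ∈ E0, ∀ v ∈ E2, ¬DConn W.R W.γ (Bx x (l * d)) u v := by
  classical
  have sz : ∀ (a b : ℕ) (u v : V) (B : Set V), Conn (W.R ∩ B) u v → ∃ d : ℕ,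
      W.γ b ∈ Bx (W.γ a) d ∧ Conn (W.R ∩ (B ∩ Bx (W.γ a) d)) u v := fun a b u v B c => by
    obtain ⟨d, hd⟩ := exists_Bx (W.fin.insert (W.γ b)) (W.γ a)
    exact ⟨d, hd (Or.inl rfl), c.mono fun y hy => ⟨hy.1, hy.2, hd (Or.inr hy.1)⟩⟩
  obtain ⟨d, ⟨x, hx⟩, hmin⟩ := Int.exists_least_of_bdd
    (P := fun d => ∃ x, W.Gate i0 i1 (E0 ∪ E2 ∪ (Bx x d)ᶜ) (Bx x d \ (E0 ∪ E2)))
    ⟨0, fun d ⟨x, _, _, _, _, _, _, _, _, h, _⟩ => by
      have := mem_Bx_ds.1 (not_not.1 fun k => h (Or.inr k))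
      exact (ds_nonneg _ _).trans this⟩
    (by
      obtain ⟨a, b, u, v, k1, k2, k3, k4, ha, hb, au, vb, c⟩ := cut s1 hs le_rfl
      obtain ⟨d, h1, h2⟩ := sz a b u v _ c
      exact ⟨d, W.γ a, a, b, u, v, k1, k2, k3, k4, fun k => k.elim ha fun k => k
        (mem_Bx_ds.2 (by rw [ds_self]; omega)), fun k => k.elim hb fun k => k h1, au, vb,
        h2.mono fun y hy => ⟨hy.1, hy.2.2, hF y hy.2.1.1⟩⟩)
  obtain ⟨a, b, u, v, k1, k2, k3, k4, ha, hb, au, vb, c⟩ := hx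
  have ha' : W.γ a ∈ Bx x d \ (E0 ∪ E2) := ⟨not_not.1 fun k => ha (Or.inr k), fun k => ha (Or.inl k)⟩
  have hb' : W.γ b ∈ Bx x d \ (E0 ∪ E2) := ⟨not_not.1 fun k => hb (Or.inr k), fun k => hb (Or.inl k)⟩
  have d1 : 1 ≤ d := by
    have h1 := mem_Bx.1 ha'.1
    have h2 := mem_Bx.1 c.left.2.1
    unfold Adj at au
    omega
  refine ⟨x, d, d1, ⟨a, b, u, v, k1, k2, k3, k4, ha', hb', au, vb, c⟩, fun p hp q hq cc => ?_⟩
  obtain ⟨G0, hG1, hG2⟩ := exists_finset_Bx (A := F ∩ Bx x (l * d + 1 + d)) inter_subset_right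
  have key := level_sum G0 lam hi e (N := d / 2) hs.le
    (fun v hv => he v ((hG1 v).1 hv).1) fun s t1 t2 => ?_
  · have cs := Finset.sum_mul_sq_le_sq_mul_sq G0 (fun _ => (1 : ℝ)) e
    simp only [one_mul, one_pow, Finset.sum_const, nsmul_eq_mul, mul_one] at cs
    have h1 : ∑ v ∈ G0, e v ^ 2 ≤ ∑ v ∈ F, e v ^ 2 := Finset.sum_le_sum_of_subset_of_nonneg
      (fun v hv => ((hG1 v).1 hv).1) fun _ _ _ => sq_nonneg _
    have d2 : (1 : ℝ) ≤ d := by exact_mod_cast d1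
    have h2 : (G0.card : ℝ) ≤ ((2 * l + 5) * d) ^ 2 := by
      have h3 : ((2 * (l * d + 1 + d) + 1).toNat : ℤ) ≤ (2 * l + 5) * d := by
        rw [Int.toNat_of_nonneg (by positivity)]; nlinarith
      have h4 : (G0.card : ℤ) ≤ ((2 * l + 5) * d) ^ 2 :=
        le_trans (by exact_mod_cast hG2) (pow_le_pow_left₀ (by positivity) h3 2)
      exact_mod_cast h4
    have h5 : (d / 2 * (s1 - s0)) ^ 2 ≤ ((2 * l + 5) * d) ^ 2 * ∑ v ∈ F, e v ^ 2 :=
      (pow_le_pow_left₀ (by have := sub_pos.2 hs; positivity) key 2).trans (cs.trans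
        (mul_le_mul h2 h1 (Finset.sum_nonneg fun _ _ => sq_nonneg _) (sq_nonneg _)))
    have h6 : 0 < (s1 - s0) ^ 2 := by have := sub_pos.2 hs; positivity
    have h7 : (s1 - s0) ^ 2 ≤ (4 * l + 10) ^ 2 * ∑ v ∈ F, e v ^ 2 := by
      refine le_of_mul_le_mul_left ?_ (by positivity : (0 : ℝ) < d ^ 2)
      nlinarith
    have h8 : 0 < ∑ v ∈ F, e v ^ 2 := by
      by_contra k
      have := mul_nonpos_of_nonneg_of_nonpos (sq_nonneg (4 * (l : ℝ) + 10)) (not_lt.1 k)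
      linarith
    have h9 : (0 : ℝ) ≤ l := Nat.cast_nonneg _
    nlinarith
  · obtain ⟨a', b', u', v', j1, j2, j3, j4, ha1, hb1, au', vb', c'⟩ := cut s t1 t2
    set B := {v | v ∈ F ∧ lam v < s ∧ s ≤ hi v} with hB
    obtain ⟨y, hy, y1⟩ : ∃ y, Conn (W.R ∩ B) u' y ∧ y ∈ Bx x (l * d + 1) := by
      have := W.nc i0 a' i1 b' j1 j2 j3 j4 (E0 ∪ E2 ∪ Bx x (l * d))
        ({W.γ a', W.γ b'} ∪ {y | Conn (W.R ∩ B) u' y})
        ((((c0 p hp).symm.mono fun _ h => Or.inl (Or.inl h)).trans (cc.mono subset_union_right)).trans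
          ((c2 q hq).mono fun _ h => Or.inl (Or.inr h)))
        ((((DConn.refl (Or.inl (Or.inl rfl))).tail ⟨au', Or.inr (Or.inl c'.left.1)⟩
          (Or.inr (Conn.refl c'.left))).trans (DConn.of_conn c'.cluster (fun _ h => h.right.1)
            subset_union_right)).tail ⟨vb', Or.inl c'.right.1⟩ (Or.inl (Or.inr rfl)))
      obtain ⟨y, y1, (rfl | rfl) | y2⟩ := not_disjoint_iff.1 this
      · exact ⟨u', Conn.refl c'.left, Bx_adj (y1.resolve_left ha1) au'⟩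
      · exact ⟨v', c', Bx_adj (y1.resolve_left hb1) vb'.symm⟩
      · exact ⟨y, y2, Bx_mono (by omega) (y1.resolve_left (hF y y2.right.2.1))⟩
    obtain ⟨z, hz, z1⟩ : ∃ z, Conn (W.R ∩ B) y z ∧ d - 1 ≤ ds z y := by
      by_contra k
      push Not at k
      have in1 : ∀ z, Conn (W.R ∩ B) u' z → z ∈ Bx y (d - 2) := fun z hz =>
        mem_Bx_ds.2 (by have := k z (hy.symm.trans hz); omega)
      have := hmin (d - 1) ⟨y, a', b', u', v', j1, j2, j3, j4,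
        fun k => k.elim ha1 fun k => k
          (Bx_mono (by omega) (Bx_adj (in1 u' (Conn.refl c'.left)) au'.symm)),
        fun k => k.elim hb1 fun k => k (Bx_mono (by omega) (Bx_adj (in1 v' c') vb')), au', vb',
        c'.cluster.mono fun w hw => ⟨hw.right.1, Bx_mono (by omega) (in1 w hw), hF w hw.right.2.1⟩⟩
      omega
    obtain ⟨A, A1, A2⟩ := hz.many (d - 1).toNat (by omega)
    have : A ⊆ G0.filter fun v => lam v < s ∧ s ≤ hi v := fun w hw => by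
      obtain ⟨w1, w2⟩ := A2 w hw
      refine Finset.mem_filter.2 ⟨(hG1 w).2 ⟨w1.2.1, mem_Bx_ds.2 ?_⟩, w1.2.2⟩
      have := mem_Bx_ds.1 w2
      have := mem_Bx_ds.1 y1
      have := ds_tri w y x
      omega
    have h1 : d ≤ ((G0.filter fun v => lam v < s ∧ s ≤ hi v).card : ℤ) := by
      have := Finset.card_le_card this
      omega
    have h2 : (d : ℝ) ≤ (G0.filter fun v => lam v < s ∧ s ≤ hi v).card := by exact_mod_cast h1
    have d2 : (1 : ℝ) ≤ d := by exact_mod_cast d1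
    linarith

namespace Fj

lemma Gt.quad {W : Wall} {l l' s : ℤ} {i0 i1 : ℕ} {Z T : Set V} {ξ : V → ℤ} (h : Gt W l i0 i1 Z T)
    (hl : l' ≤ l) (f : ∀ i, W.γ i ∉ Z → ξ (W.γ i) = s) :
    ∃ x d, 1 ≤ d ∧ l' * d ≤ l * d ∧ W.Quad ξ x d (l * d) i0 i1 Z T s := by
  obtain ⟨x, d, d1, ⟨_, ⟨a, a1, a2, rfl⟩, _, ⟨b, b1, b2, rfl⟩, u, v, k1, k2, k3, k4, k5⟩, k⟩ := h.cut
  exact ⟨x, d, d1, mul_le_mul_of_nonneg_right hl (by omega), h.m0, h.m2,
    fun v hv => (h.e0 v hv).symm, fun v hv => (h.e2 v hv).symm, fun i k _ => f i k,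
    ⟨a, b, u, v, a1, a2, b1, b2, k4, k5, k1, k2, k3⟩, k⟩

lemma Gt.att {W : Wall} {l : ℤ} {i0 i1 : ℕ} {Z T S : Set V} (h : Gt W l i0 i1 Z T)
    (k : Att Z (W.R ∩ S) T) :
    DConn W.R W.γ {v | v ∉ Z → v ∉ T → v ∈ S} (W.γ i0) (W.γ i1) := by
  obtain ⟨z, hz, u, zu, t, ht, c⟩ := k
  have k1 : Z ⊆ {v | v ∉ Z → v ∉ T → v ∈ S} := fun y hy k => absurd hy k
  have k2 : W.R ∩ S ⊆ {v | v ∉ Z → v ∉ T → v ∈ S} := fun y hy _ _ => hy.2
  exact ((((h.e0 z hz).mono k1).tail ⟨zu, Or.inr (Or.inl c.left.1)⟩ (k2 c.left)).trans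
    (DConn.of_conn c inter_subset_left k2)).trans
      ((h.e2 t ht).symm.mono fun y hy _ k => absurd hy k)

theorem gateSt : GateSt := fun η hη => by
  obtain ⟨l, hl⟩ := quadSt η hη
  obtain ⟨l', hl'⟩ := quadSt' η hη
  refine ⟨max (max l l') 1, le_max_right _ _, fun W ξ i0 i1 Z T h01 h => ⟨fun f => ?_, fun f => ?_⟩⟩
  · obtain ⟨x, d, d1, d2, Q⟩ := h.quad (l' := l) (by omega) f
    exact (pr_mono fun g _ k => h.att k).trans (hl W ξ x d _ i0 i1 Z T h01 d1 d2 Q)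
  · obtain ⟨x, d, d1, d2, Q⟩ := h.quad (l' := l') (by omega) f
    exact (pr_mono fun g _ k => h.att k).trans (hl' W ξ x d _ i0 i1 Z T h01 d1 d2 Q)

/-- two interior paths between interlaced wall points meet -/
lemma cross (W : Wall) {i0 a i1 b : ℕ} (h1 : i0 < a) (h2 : a < i1) (h3 : i1 < b)
    (h4 : b < i0 + W.n) {S T : Set V} (hS : S ⊆ W.R) (hT : T ⊆ W.R) {u v u' v' : V}
    (k1 : Adj (W.γ i0) u) (c : Conn S u v) (k2 : Adj v (W.γ i1)) (k3 : Adj (W.γ a) u')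
    (c' : Conn T u' v') (k4 : Adj v' (W.γ b)) : ∃ y ∈ S, Conn T u' y := by
  have key : ∀ (S : Set V) (p q u v : V), S ⊆ W.R → Adj p u → Conn S u v → Adj v q →
      DConn W.R W.γ ({p, q} ∪ S) p q := fun S p q u v hS k1 c k2 =>
    (((DConn.refl (Or.inl (Or.inl rfl))).tail ⟨k1, Or.inr (Or.inl (hS c.left))⟩
      (Or.inr c.left)).trans (DConn.of_conn c hS subset_union_right)).tail
        ⟨k2, Or.inl (hS c.right)⟩ (Or.inl (Or.inr rfl))
  obtain ⟨y, y1, y2⟩ := not_disjoint_iff.1 (W.nc i0 a i1 b h1 h2 h3 h4 _ _ (key S _ _ u v hS k1 c k2)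
    (key _ _ _ u' v' (fun y hy => hT hy.right) k3 c'.cluster k4))
  rcases y1 with (rfl | rfl) | y1 <;> rcases y2 with (e | e) | y2
  · exact absurd e (W.inj _ _ h1 (by omega))
  · exact absurd e (W.inj _ _ (by omega) h4)
  · exact absurd (hT y2.right) (W.out _)
  · exact absurd e.symm (W.inj _ _ h2 (by omega))
  · exact absurd e (W.inj _ _ h3 (by omega))
  · exact absurd (hT y2.right) (W.out _)
  · exact absurd (e ▸ hS y1) (W.out _)
  · exact absurd (e ▸ hS y1) (W.out _)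
  · exact ⟨y, y1, y2⟩

theorem lenSt : LenSt := fun l hl => by
  classical
  obtain ⟨l, rfl⟩ : ∃ n : ℕ, l = n := ⟨l.toNat, by omega⟩
  refine ⟨4 * l + 12, by positivity, fun W R0 lam hi Z C T t0 t t1 δ z0 v0 v1 L hR zw zc hC cls cC
    low hz0 hv0 a0 TC cT hT hv1 h1 hδ hen hM ht => ?_⟩
  have CR : C ⊆ W.R := fun v hv => (hC hv).1
  have l0 : (0 : ℝ) ≤ l := Nat.cast_nonneg _
  have tt : t0 + δ < t := by nlinarith
  have nn : ∀ v, 0 ≤ C.indicator (fun v => len lam hi t0 t1 v ^ 2) v :=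
    indicator_nonneg fun _ _ => sq_nonneg _
  have sm : ∀ v ∈ C, min (hi v) t1 - max (lam v) t0 ≤ δ := fun v hv => by
    have k := Finset.single_le_sum (fun v _ => nn v) (hR (CR hv))
    rw [indicator_of_mem hv] at k
    exact (le_max_left _ _).trans (le_of_sq_le_sq (k.trans hen) hδ.le)
  have off : ∀ z ∈ Z, ∀ v ∈ C, Adj z v → hi v ≤ t0 + δ := fun z hz v hv e => by
    have k := sm v hv
    rw [max_eq_right ((L.adj z (low z hz v hv e).1 v (hR (CR hv)) e).trans (low z hz v hv e).2)] at k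
    rcases le_total (hi v) t1 with h | h
    · rw [min_eq_left h] at k; linarith
    · rw [min_eq_right h] at k; linarith
  set P := {y | Conn (W.R ∩ (T ∪ {y | t1 ≤ lam y})) v1 y} with hP
  have TP : T ⊆ P := fun v hv => (cT v1 hv1 v hv).mono fun y hy => ⟨CR (TC hy), Or.inl hy⟩
  have PR : P ⊆ W.R := fun v hv => hv.right.1
  obtain ⟨i0, rfl⟩ := zw z0 hz0
  obtain ⟨p, j, pP, pj, top⟩ : ∃ p j, p ∈ P ∧ Adj p (W.γ j) ∧
      ∀ y ∈ R0, Adj (W.γ j) y → t1 ≤ hi y := by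
    have r1 := hC (TC hv1)
    obtain ⟨x, x0, vx, hx⟩ := (L.att v1 (hR r1.1)).resolve_left (not_le.2 (r1.2.1.trans_le h1))
    obtain ⟨v', w, c, e, hw, ew⟩ := L.esc x x0
    obtain ⟨a, b, c1, ab, hb, c2⟩ := (Conn.tail (S := {v1, w} ∪ R0 ∩ {y | lam x ≤ lam y})
      (Conn.head (Or.inl (Or.inl rfl)) vx (c.mono subset_union_right)) e
      (Or.inl (Or.inr rfl))).exit r1.1 fun k => hw (hR k)
    obtain ⟨j, rfl⟩ := (W.bd a c1.right.2 b ab).resolve_left hb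
    refine ⟨a, j, c1.mono ?_, ab, fun y hy k => (h1.trans hx).trans ?_⟩
    · rintro y ⟨(rfl | rfl) | h, k⟩
      exacts [⟨k, Or.inl hv1⟩, absurd (hR k) hw, ⟨k, Or.inr ((h1.trans hx).trans h.2)⟩]
    · rcases c2.left with (h | h) | h
      · exact absurd (h ▸ r1.1) hb
      · exact le_trans (ew y hy (h ▸ k)) (L.le y hy)
      · exact le_trans h.2 (L.adj y hy _ h.1 k.symm)
  obtain ⟨i1, j1, j2, j3⟩ := W.idx i0 j
  rw [← j3] at pj top
  have z0 := low _ hz0 v0 hv0 a0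
  have j4 : i0 < i1 := lt_of_le_of_ne j1 fun e => by
    have := top v0 (hR (CR hv0)) (e ▸ a0)
    have := off _ hz0 v0 hv0 a0
    linarith
  have ref : Conn (C ∪ P) v0 p := ((cC v0 hv0 v1 (TC hv1)).mono subset_union_left).trans
    ((Conn.cluster pP).mono subset_union_right)
  have c2 : ∀ v ∈ P ∪ {W.γ i1}, DConn W.R W.γ (P ∪ {W.γ i1}) v (W.γ i1) := by
    rintro v (hv | rfl)
    · exact (DConn.of_conn ((Conn.cluster hv).symm.trans (Conn.cluster pP)) PR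
        subset_union_left).tail ⟨pj, Or.inl (PR pP)⟩ (Or.inr rfl)
    · exact DConn.refl (Or.inr rfl)
  have key := gateCore l (by omega) W
    (R0.filter fun v => v ∈ C ∧ lam v < t) lam hi (len lam hi t0 t1) (s0 := t0 + δ) (s1 := t)
    (fun v hv => zc v hv _ hz0) c2 (fun v hv => ?_) tt (fun s s0 s1 => ?_)
    (fun v _ => ⟨le_max_right _ _, le_max_of_le_left (sub_le_sub (min_le_min_left _ (by linarith))
      (max_le_max_left _ (by linarith)))⟩) ?_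
  · obtain ⟨x, d, d1, ⟨a, b, u, v, k1, k2, k3, k4, k5, k6, k7, k8, k9⟩, k⟩ := key
    exact ⟨i0, i1, P ∪ {W.γ i1}, TP.trans subset_union_left, j4, j2, hz0, Or.inr rfl,
      fun v hv => zc _ hz0 v hv, fun v hv => (c2 v hv).symm, x, d, d1,
      ⟨_, ⟨a, k1, k2, rfl⟩, _, ⟨b, k3, k4, rfl⟩, u, v, k7, k8, k9, k5, k6⟩, k⟩
  · obtain ⟨-, h, h'⟩ := Finset.mem_filter.1 hv
    rintro (k | k | rfl)
    · obtain ⟨i, rfl⟩ := zw v k
      exact W.out i (CR h)
    · rcases k.right.2 with k | k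
      · exact absurd (hT v k) (not_le.2 h')
      · exact absurd (show t1 ≤ lam v from k) (not_le.2 (by linarith))
    · exact W.out _ (CR h)
  · rcases W.hex i0 i1 j4 j2 (fun e => by have := top _ z0.1 e.symm; linarith [z0.2])
      ⟨v0, p, a0, ref.mono (union_subset CR PR), pj⟩ {v | lam v < s ∧ s ≤ hi v} with
      ⟨a, b, u, v, k1, k2, k3, k4, k5, k6, k7⟩ | ⟨u, v, k1, k2, k3⟩
    · obtain ⟨y, y1, y2⟩ := cross W k1 k2 k3 k4 (union_subset CR PR) inter_subset_left a0 ref pj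
        k5 k6 k7
      have yC : y ∈ C := y1.elim id fun h => h.right.2.elim (fun h => TC h) fun h =>
        absurd (show t1 ≤ lam y from h) (not_le.2 (by linarith [y2.right.2.1]))
      have all : ∀ w, Conn (W.R ∩ {v | lam v < s ∧ s ≤ hi v}) u w → w ∈ C := fun w hw =>
        (y2.symm.trans hw).ind (P := fun w => w ∈ C) yC fun a b _ e hb ih =>
          cls a ih b hb.1 e ⟨by linarith [hb.2.1], by linarith [hb.2.2]⟩
      have en : ∀ i w, Conn (W.R ∩ {v | lam v < s ∧ s ≤ hi v}) u w → Adj (W.γ i) w →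
          W.γ i ≠ W.γ i1 → W.γ i ∉ Z ∪ (P ∪ {W.γ i1}) := by
        rintro i w hw e ne (h | h | h)
        · linarith [off _ h w (all w hw) e, hw.right.2.2]
        · exact W.out i (PR h)
        · exact ne h
      exact ⟨a, b, u, v, k1, k2, k3, k4, en a u (Conn.refl k6.left) k5 (W.inj _ _ k2 (by omega)),
        en b v k6 k7.symm (W.inj _ _ k3 (by omega)).symm, k5, k7, k6.cluster.mono fun w hw =>
          ⟨hw.right.1, Finset.mem_filter.2 ⟨hR hw.right.1, all w hw, hw.right.2.1.trans_le s1⟩,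
            hw.right.2⟩⟩
    · have st : ∀ y ∈ W.R \ {v | lam v < s ∧ s ≤ hi v}, lam y < s → hi y < s := fun y hy h =>
        not_le.1 fun k => hy.2 ⟨h, k⟩
      have fin : hi v < s := k2.ind (P := fun y => hi y < s)
        (st u k2.left (by linarith [L.adj _ z0.1 u (hR k2.left.1) k1, z0.2]))
        fun y z cy yz hz ih => st z hz ((L.adj y (hR cy.right.1) z (hR hz.1) yz).trans_lt ih)
      linarith [top v (hR k2.right.1) k3.symm]
  · have h2 : ∑ v ∈ R0.filter (fun v => v ∈ C ∧ lam v < t), len lam hi t0 t1 v ^ 2 ≤ δ ^ 2 := by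
      refine le_trans ?_ ((Finset.sum_le_sum_of_subset_of_nonneg
        (Finset.filter_subset (fun v => v ∈ C ∧ lam v < t) R0) fun v _ _ => nn v).trans hen)
      exact Finset.sum_le_sum fun v hv => by rw [indicator_of_mem (Finset.mem_filter.1 hv).2.1]
    refine (mul_le_mul_of_nonneg_left h2 (sq_nonneg _)).trans ?_
    rw [← mul_pow]
    exact pow_le_pow_left₀ (by positivity) (by linarith) 2

end Fj

end Pool.Agent.Lib.MP_6359c9_pr
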