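import Pool.Agent.Lib.MP_6359c9_pr.FjM
import Pool.Agent.Lib.MP_6359c9_pr.FjS
import Pool.Agent.Lib.MP_6359c9_pr.FjP
import Pool.Agent.Lib.MP_6359c9_pr.RgLen

/-! The fjord estimate. -/

namespace Pool.Agent.Lib.MP_6359c9_pr.Fj

theorem fjSt : FjSt := fjSt_of normSt (mulSt lenSt) fun _ _ _ hK hM => psiAt normSt hK hM

end Pool.Agent.Lib.MP_6359c9_pr.Fj
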