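import Pool.Agent.Lib.MP_6359c9_pr.GeDef

/-! The Loewner differential equation `g' = σ / (g - V)`: difference formula, imaginary part,
time reversal, truncated equation, existence and stability. -/

namespace Pool.Agent.Lib.MP_6359c9_pr.Ge

open Set Complex Filter Topology Metric
open scoped ComplexConjugate

/-- `g` solves `g' = σ / (g - V)` on `[0, t]` -/
def Sol (σ : ℝ) (V : ℝ → ℝ) (t : ℝ) (g : ℝ → ℂ) : Prop :=
  ∀ s ∈ Icc 0 t, g s ≠ V s ∧ HasDerivWithinAt g (σ / (g s - V s)) (Icc 0 t) s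

variable {σ ε η t s : ℝ} {V V' : ℝ → ℝ} {g g' : ℝ → ℂ}

theorem Sol.cont (h : Sol σ V t g) : ContinuousOn g (Icc 0 t) :=
  fun s hs => (h s hs).2.continuousWithinAt

theorem Sol.ne (h : Sol σ V t g) (hs : s ∈ Icc 0 t) : g s - V s ≠ 0 := sub_ne_zero.2 (h s hs).1

theorem Sol.mono (h : Sol σ V t g) (hs : s ≤ t) : Sol σ V s g := fun u hu =>
  ⟨(h u ⟨hu.1, hu.2.trans hs⟩).1, (h u ⟨hu.1, hu.2.trans hs⟩).2.mono (Icc_subset_Icc_right hs)⟩

theorem Sol.shift (h : Sol σ V (t + s) g) (ht : 0 ≤ t) :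
    Sol σ (fun u => V (t + u)) s fun u => g (t + u) := fun u hu => by
  have hm : t + u ∈ Icc 0 (t + s) := ⟨add_nonneg ht hu.1, by linarith [hu.2]⟩
  refine ⟨(h _ hm).1, ?_⟩
  have := (h _ hm).2.scomp u ((hasDerivAt_id u).const_add t).hasDerivWithinAt
    (s := Icc 0 s) fun x hx => ⟨add_nonneg ht hx.1, by simpa using hx.2⟩
  simpa [Function.comp_def] using this

theorem Sol.rev (h : Sol σ V t g) : Sol (-σ) (fun u => V (t - u)) t fun u => g (t - u) :=
  fun u hu => by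
  have hm : t - u ∈ Icc 0 t := ⟨by linarith [hu.2], by linarith [hu.1]⟩
  refine ⟨(h _ hm).1, ?_⟩
  have := (h _ hm).2.scomp u ((hasDerivAt_id u).const_sub t).hasDerivWithinAt
    (s := Icc 0 t) fun x hx => ⟨by simpa using hx.2, by simpa using hx.1⟩
  simpa [Function.comp_def, neg_div] using this

theorem Sol.conj (h : Sol σ V t g) : Sol σ V t fun u => conj (g u) := fun u hu => by
  refine ⟨fun e => (h u hu).1 (by simpa using congrArg conj e), ?_⟩
  have := conjCLE.toContinuousLinearMap.hasFDerivAt.comp_hasDerivWithinAt u (h u hu).2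
  simpa [Function.comp_def] using this

theorem Sol.cinv (hV : Continuous V) (h : Sol σ V t g) (h' : Sol σ V' t g') (hV' : Continuous V') :
    ContinuousOn (fun u => ((g u - V u) * (g' u - V' u))⁻¹) (Icc 0 t) :=
  ((h.cont.sub (by fun_prop)).mul (h'.cont.sub (by fun_prop))).inv₀
    fun _ hu => mul_ne_zero (h.ne hu) (h'.ne hu)

/-- the difference of two solutions -/
theorem Sol.diff (hV : Continuous V) (h : Sol σ V t g) (h' : Sol σ V t g') (hs : s ∈ Icc 0 t) :
    g s - g' s = (g 0 - g' 0) * exp (-σ * ∫ u in 0..s, ((g u - V u) * (g' u - V u))⁻¹) := by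
  set a : ℝ → ℂ := fun u => ((g u - V u) * (g' u - V u))⁻¹ with ha
  have hc : ContinuousOn a (Icc 0 t) := h.cinv hV h' hV
  have hA : ∀ x ∈ Icc 0 t, HasDerivWithinAt (fun x => ∫ u in 0..x, a u) (a x) (Icc 0 t) x := by
    intro x hx
    have : Fact (x ∈ Icc 0 t) := ⟨hx⟩
    refine intervalIntegral.integral_hasDerivWithinAt_right
      ((hc.mono ?_).intervalIntegrable) (hc.stronglyMeasurableAtFilter_nhdsWithin measurableSet_Icc x)
      (hc x hx)
    rw [uIcc_of_le hx.1]; exact Icc_subset_Icc_right hx.2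
  have hD : ∀ x ∈ Icc 0 t, HasDerivWithinAt
      (fun x => (g x - g' x) * exp (σ * ∫ u in 0..x, a u)) 0 (Icc 0 t) x := by
    intro x hx
    have := ((h x hx).2.sub (h' x hx).2).mul ((hA x hx).const_mul (σ : ℂ)).cexp
    refine this.congr_deriv ?_
    have h1 := h.ne hx
    have h2 := h'.ne hx
    simp only [ha, Pi.sub_apply]
    field_simp
    ring
  have key := constant_of_has_deriv_right_zero (f := fun x => (g x - g' x) *
      exp (σ * ∫ u in 0..x, a u)) (a := 0) (b := t) (fun x hx => (hD x hx).continuousWithinAt)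
    (fun x hx => (hD x (Ico_subset_Icc_self hx)).mono_of_mem_nhdsWithin (Icc_mem_nhdsGE_of_mem hx))
    s hs
  simp only [intervalIntegral.integral_same, mul_zero, exp_zero, mul_one] at key
  rw [← key, mul_assoc, ← exp_add]
  simp

theorem Sol.uniq (hV : Continuous V) (h : Sol σ V t g) (h' : Sol σ V t g') (h0 : g 0 = g' 0)
    (hs : s ∈ Icc 0 t) : g s = g' s := by
  have := h.diff hV h' hs
  rwa [h0, sub_self, zero_mul, sub_eq_zero] at this

/-- the imaginary part of a solution -/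
theorem Sol.im (hV : Continuous V) (h : Sol σ V t g) (hs : s ∈ Icc 0 t) :
    (g s).im = (g 0).im * Real.exp (-σ * ∫ u in 0..s, (normSq (g u - V u))⁻¹) := by
  have := h.diff hV h.conj hs
  have e : ∀ u, ((g u - V u) * (conj (g u) - V u))⁻¹ = (((normSq (g u - V u))⁻¹ : ℝ) : ℂ) := by
    intro u
    rw [ofReal_inv, ← mul_conj]; simp
  simp only [e, intervalIntegral.integral_ofReal, sub_conj] at this
  have h2 := congrArg Complex.im this
  rw [← ofReal_neg, ← ofReal_mul, ← ofReal_exp] at h2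
  simp only [mul_im, ofReal_re, I_im, ofReal_im, I_re, mul_re] at h2
  linarith

theorem Sol.im_pos (hV : Continuous V) (h : Sol σ V t g) (h0 : 0 < (g 0).im) (hs : s ∈ Icc 0 t) :
    0 < (g s).im := by
  rw [h.im hV hs]; positivity

theorem Sol.cnsq (hV : Continuous V) (h : Sol σ V t g) :
    ContinuousOn (fun u => (normSq (g u - V u))⁻¹) (Icc 0 t) :=
  (continuous_normSq.comp_continuousOn (h.cont.sub (by fun_prop))).inv₀
    fun _ hu => (normSq_pos.2 (h.ne hu)).ne'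

theorem Sol.im_le (hV : Continuous V) (h : Sol σ V t g) (hσ : 0 ≤ σ) (h0 : 0 ≤ (g 0).im)
    (hs : s ∈ Icc 0 t) : (g s).im ≤ (g 0).im := by
  rw [h.im hV hs]
  refine mul_le_of_le_one_right h0 (Real.exp_le_one_iff.2 ?_)
  have : 0 ≤ ∫ u in 0..s, (normSq (g u - V u))⁻¹ :=
    intervalIntegral.integral_nonneg hs.1 fun u _ => inv_nonneg.2 (normSq_nonneg _)
  nlinarith

theorem Sol.im_lt (hV : Continuous V) (h : Sol σ V t g) (hσ : 0 < σ) (h0 : 0 < (g 0).im)
    (ht : 0 < t) : (g t).im < (g 0).im := by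
  rw [h.im hV ⟨ht.le, le_rfl⟩]
  refine mul_lt_of_lt_one_right h0 (Real.exp_lt_one_iff.2 ?_)
  have : 0 < ∫ u in 0..t, (normSq (g u - V u))⁻¹ :=
    intervalIntegral.intervalIntegral_pos_of_pos_on
      (((h.cnsq hV).mono (by rw [uIcc_of_le ht.le])).intervalIntegrable)
      (fun u hu => inv_pos.2 (normSq_pos.2 (h.ne (Ioo_subset_Icc_self hu)))) ht
  nlinarith

/-- along the forward equation the imaginary part is smallest at the end -/
theorem Sol.im_ge (hV : Continuous V) (h : Sol σ V t g) (hσ : 0 ≤ σ) (h0 : 0 < (g 0).im)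
    (hs : s ∈ Icc 0 t) : (g t).im ≤ (g s).im := by
  have h1 : Sol σ V (s + (t - s)) g := by simpa using h
  have := (h1.shift hs.1).im_le (by fun_prop) hσ (by simpa using (h.im_pos hV h0 hs).le)
    (s := t - s) ⟨by linarith [hs.2], le_rfl⟩
  simpa using this

/-- the kernel `1 / ζ`, cut off at `‖ζ‖ = ε` -/
noncomputable def kk (ε : ℝ) (ζ : ℂ) : ℂ := conj ζ / ((max ‖ζ‖ ε : ℝ) : ℂ) ^ 2

theorem kk_eq (hε : 0 < ε) {ζ : ℂ} (h : ε ≤ ‖ζ‖) : kk ε ζ = ζ⁻¹ := by
  rw [kk, max_eq_left h, inv_def, normSq_eq_norm_sq]; simp [div_eq_mul_inv]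

theorem kk_in {ζ : ℂ} (h : ‖ζ‖ ≤ ε) : kk ε ζ = conj ζ / (ε : ℂ) ^ 2 := by
  rw [kk, max_eq_right h]

theorem kk_norm (hε : 0 < ε) (ζ : ℂ) : ‖kk ε ζ‖ ≤ 1 / ε := by
  have h1 : 0 < max ‖ζ‖ ε := lt_max_of_lt_right hε
  rw [kk, norm_div, norm_pow, norm_real, Real.norm_of_nonneg h1.le, norm_conj,
    div_le_div_iff₀ (by positivity) hε, sq, one_mul]
  exact mul_le_mul (le_max_left _ _) (le_max_right _ _) hε.le h1.le

theorem kk_lip (hε : 0 < ε) (a b : ℂ) : ‖kk ε a - kk ε b‖ ≤ 1 / ε ^ 2 * ‖a - b‖ := by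
  have mix : ∀ a b : ℂ, ‖a‖ ≤ ε → ε ≤ ‖b‖ → ‖kk ε a - kk ε b‖ ≤ 1 / ε ^ 2 * ‖a - b‖ := by
    intro a b ha hb
    have hb0 : 0 < ‖b‖ := hε.trans_le hb
    have hb1 : b ≠ 0 := norm_pos_iff.1 hb0
    have he : (ε : ℂ) ≠ 0 := by exact_mod_cast hε.ne'
    have e : kk ε a - kk ε b = (conj a * b - ((ε ^ 2 : ℝ) : ℂ)) / ((ε : ℂ) ^ 2 * b) := by
      rw [kk_in ha, kk_eq hε hb]; push_cast; field_simp
    have e2 : ‖conj a * b - ((‖b‖ ^ 2 : ℝ) : ℂ)‖ = ‖a - b‖ * ‖b‖ := by
      rw [← normSq_eq_norm_sq, normSq_eq_conj_mul_self, ← sub_mul, ← map_sub, norm_mul, norm_conj]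
    have h3 : (conj a * b).re ≤ ε * ‖b‖ := by
      refine (re_le_norm _).trans ?_
      rw [norm_mul, norm_conj]; gcongr
    have h4 : ‖conj a * b - ((ε ^ 2 : ℝ) : ℂ)‖ ≤ ‖a - b‖ * ‖b‖ := by
      rw [← e2]
      refine (abs_le_of_sq_le_sq' ?_ (norm_nonneg _)).2
      generalize conj a * b = c at h3
      rw [← normSq_eq_norm_sq, ← normSq_eq_norm_sq, normSq_apply, normSq_apply]
      simp only [sub_re, ofReal_re, sub_im, ofReal_im, sub_zero]
      have : ε ^ 2 ≤ ‖b‖ ^ 2 := by gcongr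
      nlinarith [mul_nonneg (sub_nonneg.2 this) (show 0 ≤ ε ^ 2 + ‖b‖ ^ 2 - 2 * c.re by
        nlinarith [sq_nonneg (ε - ‖b‖)])]
    rw [e, norm_div, norm_mul, norm_pow, norm_real, Real.norm_of_nonneg hε.le,
      div_le_iff₀ (by positivity)]
    refine h4.trans (le_of_eq ?_)
    field_simp
  rcases le_total ‖a‖ ε with ha | ha <;> rcases le_total ‖b‖ ε with hb | hb
  · rw [kk_in ha, kk_in hb, ← sub_div, ← map_sub, norm_div, norm_conj, norm_pow, norm_real,
      Real.norm_of_nonneg hε.le]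
    exact le_of_eq (by ring)
  · exact mix a b ha hb
  · rw [norm_sub_rev, norm_sub_rev a]; exact mix b a hb ha
  · have ha1 : a ≠ 0 := norm_pos_iff.1 (hε.trans_le ha)
    have hb1 : b ≠ 0 := norm_pos_iff.1 (hε.trans_le hb)
    rw [kk_eq hε ha, kk_eq hε hb, inv_sub_inv ha1 hb1, norm_div, norm_mul, norm_sub_rev,
      div_le_iff₀ (mul_pos (hε.trans_le ha) (hε.trans_le hb))]
    have : ε ^ 2 ≤ ‖a‖ * ‖b‖ := by rw [sq]; gcongr
    calc ‖a - b‖ = 1 / ε ^ 2 * ‖a - b‖ * ε ^ 2 := by field_simp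
      _ ≤ _ := by gcongr

theorem kk_cont (hε : 0 < ε) : Continuous (kk ε) :=
  (LipschitzWith.of_dist_le' (K := 1 / ε ^ 2) fun a b => by
    simpa only [dist_eq_norm] using kk_lip hε a b).continuous

/-- `g` solves the truncated equation -/
def TSol (σ ε : ℝ) (V : ℝ → ℝ) (t : ℝ) (g : ℝ → ℂ) : Prop :=
  ∀ s ∈ Icc 0 t, HasDerivWithinAt g (σ * kk ε (g s - V s)) (Icc 0 t) s

theorem TSol.sol (h : TSol σ ε V t g) (hε : 0 < ε) (hb : ∀ s ∈ Icc 0 t, ε ≤ ‖g s - V s‖) :
    Sol σ V t g := fun s hs =>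
  ⟨sub_ne_zero.1 (norm_pos_iff.1 (hε.trans_le (hb s hs))), by
    simpa only [kk_eq hε (hb s hs), div_eq_mul_inv] using h s hs⟩

theorem Sol.tsol (h : Sol σ V t g) (hε : 0 < ε) (hb : ∀ s ∈ Icc 0 t, ε ≤ ‖g s - V s‖) :
    TSol σ ε V t g := fun s hs => by
  simpa only [kk_eq hε (hb s hs), div_eq_mul_inv] using (h s hs).2

theorem exists_tsol (σ : ℝ) (hε : 0 < ε) (hV : Continuous V) (ht : 0 ≤ t) (z : ℂ) :
    ∃ g, g 0 = z ∧ TSol σ ε V t g := by
  have hP : IsPicardLindelof (fun s (x : ℂ) => σ * kk ε (x - V s)) (tmin := 0) (tmax := t)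
      ⟨0, le_rfl, ht⟩ z (.mk (|σ| / ε * t) (by positivity)) 0 (.mk (|σ| / ε) (by positivity))
      (.mk (|σ| * (1 / ε ^ 2)) (by positivity)) := by
    refine ⟨fun s _ => LipschitzOnWith.of_dist_le_mul fun a _ b _ => ?_, fun x _ => ?_,
      fun s _ x _ => ?_, ?_⟩
    · rw [dist_eq_norm, dist_eq_norm, ← mul_sub, norm_mul, norm_real, Real.norm_eq_abs]
      have := kk_lip hε (a - V s) (b - V s)
      rw [sub_sub_sub_cancel_right] at this
      simp only [NNReal.coe_mk]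
      rw [mul_assoc]; gcongr
    · exact (continuous_const.mul ((kk_cont hε).comp (by fun_prop))).continuousOn
    · rw [norm_mul, norm_real, Real.norm_eq_abs]
      simp only [NNReal.coe_mk]
      rw [div_eq_mul_one_div]
      exact mul_le_mul_of_nonneg_left (kk_norm hε _) (abs_nonneg _)
    · simp [max_eq_left ht]
  exact hP.exists_eq_forall_mem_Icc_hasDerivWithinAt₀

theorem TSol.right (h : TSol σ ε V t g) (hs : s ∈ Ico 0 t) :
    HasDerivWithinAt g (σ * kk ε (g s - V s)) (Ici s) s :=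
  (h s (Ico_subset_Icc_self hs)).mono_of_mem_nhdsWithin (Icc_mem_nhdsGE_of_mem hs)

theorem TSol.cont (h : TSol σ ε V t g) : ContinuousOn g (Icc 0 t) :=
  fun s hs => (h s hs).continuousWithinAt

theorem TSol.move (h : TSol σ ε V t g) (hε : 0 < ε) (hs : s ∈ Icc 0 t) :
    ‖g s - g 0‖ ≤ |σ| / ε * s := by
  have := norm_image_sub_le_of_norm_deriv_right_le_segment (C := |σ| / ε) h.cont
    (fun x hx => h.right hx) (fun x _ => by
      rw [norm_mul, norm_real, Real.norm_eq_abs, div_eq_mul_one_div]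
      exact mul_le_mul_of_nonneg_left (kk_norm hε _) (abs_nonneg _)) s hs
  simpa using this

/-- stability of the truncated equation -/
theorem tsol_stab (σ t : ℝ) (hε : 0 < ε) (hη : 0 < η) : ∃ r > 0, ∀ (V V' : ℝ → ℝ) (g g' : ℝ → ℂ),
    TSol σ ε V t g → TSol σ ε V' t g' → (∀ s ∈ Icc 0 t, |V s - V' s| ≤ r) → ‖g 0 - g' 0‖ ≤ r →
    ∀ s ∈ Icc 0 t, ‖g s - g' s‖ ≤ η := by
  set K := |σ| * (1 / ε ^ 2) with hK
  have hK0 : 0 ≤ K := by positivity
  set B := gronwallBound 1 K K t with hB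
  have lin : ∀ r x : ℝ, gronwallBound r K (K * r) x = r * gronwallBound 1 K K x := by
    intro r x
    by_cases h : K = 0
    · simp [h, gronwallBound_K0]
    · rw [gronwallBound_of_K_ne_0 h, gronwallBound_of_K_ne_0 h]; field_simp
  refine ⟨η / (|B| + 1), by positivity, fun V V' g g' h h' hVV h0 s hs => ?_⟩
  set r := η / (|B| + 1) with hr
  have hr0 : 0 < r := by positivity
  have := norm_le_gronwallBound_of_norm_deriv_right_le (K := K) (ε := K * r) (δ := r)
    (h.cont.sub h'.cont) (fun x hx => (h.right hx).sub (h'.right hx)) h0 (fun x hx => by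
      rw [← mul_sub, norm_mul, norm_real, Real.norm_eq_abs, ← mul_add, hK, mul_assoc]
      refine mul_le_mul_of_nonneg_left ((kk_lip hε _ _).trans ?_) (abs_nonneg _)
      gcongr
      rw [sub_sub_sub_comm]
      refine (norm_sub_le _ _).trans (add_le_add le_rfl ?_)
      rw [← ofReal_sub, norm_real]
      exact hVV x (Ico_subset_Icc_self hx)) s hs
  rw [lin, sub_zero] at this
  refine this.trans ?_
  have h2 : gronwallBound 1 K K s ≤ |B| + 1 :=
    (gronwallBound_mono zero_le_one hK0 hK0 hs.2).trans (by linarith [le_abs_self B])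
  calc r * gronwallBound 1 K K s ≤ r * (|B| + 1) := by gcongr
    _ = η := by rw [hr]; field_simp

theorem Sol.away (hV : Continuous V) (h : Sol σ V t g) :
    ∃ ε > 0, ∀ s ∈ Icc 0 t, ε ≤ ‖g s - V s‖ := by
  rcases (Icc (0 : ℝ) t).eq_empty_or_nonempty with e | e
  · exact ⟨1, one_pos, by simp [e]⟩
  obtain ⟨s, hs, hm⟩ := isCompact_Icc.exists_isMinOn e
    (f := fun s => ‖g s - V s‖) (h.cont.sub (by fun_prop)).norm
  exact ⟨_, norm_pos_iff.2 (h.ne hs), hm⟩

/-- a solution that stays `ε` away from the driving function has neighbours -/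
theorem sol_stab (σ : ℝ) (ht : 0 ≤ t) (hε : 0 < ε) (hη : 0 < η) : ∃ r > 0,
    ∀ (V V' : ℝ → ℝ) (g : ℝ → ℂ) (z : ℂ), Continuous V' → Sol σ V t g →
    (∀ s ∈ Icc 0 t, ε ≤ ‖g s - V s‖) → (∀ s ∈ Icc 0 t, |V s - V' s| ≤ r) → ‖g 0 - z‖ ≤ r →
    ∃ g', g' 0 = z ∧ Sol σ V' t g' ∧ ∀ s ∈ Icc 0 t, ‖g s - g' s‖ ≤ η := by
  obtain ⟨r, hr, H⟩ := tsol_stab σ t (ε := ε / 3) (η := min η (ε / 3)) (by positivity)
    (by positivity)
  refine ⟨min r (ε / 3), by positivity, fun V V' g z hV' h hb hVV h0 => ?_⟩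
  obtain ⟨g', e, h'⟩ := exists_tsol σ (ε := ε / 3) (by positivity) hV' ht z
  have hd := H V V' g g' (h.tsol (by positivity) fun s hs => by linarith [hb s hs]) h'
    (fun s hs => (hVV s hs).trans (min_le_left _ _)) (by rw [e]; exact h0.trans (min_le_left _ _))
  refine ⟨g', e, h'.sol (by positivity) fun s hs => ?_, fun s hs => (hd s hs).trans (min_le_left _ _)⟩
  have h1 := (hd s hs).trans (min_le_right _ _)
  have h2 : ‖(V s : ℂ) - V' s‖ ≤ ε / 3 := by
    rw [← ofReal_sub, norm_real]; exact (hVV s hs).trans (min_le_right _ _)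
  have h3 : g s - V s = (g' s - V' s) + (g s - g' s) - (V s - V' s) := by ring
  have h4 := hb s hs
  rw [h3] at h4
  have := (norm_sub_le _ _).trans (add_le_add (norm_add_le (g' s - V' s) (g s - g' s)) h2)
  linarith

/-- points far from the driving function are alive and hardly move -/
theorem far_sol (hV : Continuous V) (ht : 0 ≤ t) {a M : ℝ} (ha : 0 < a) (hat : |σ| * t ≤ a ^ 2)
    (hM : ∀ s ∈ Icc 0 t, |V s| ≤ M) {z : ℂ} (hz : M + 2 * a ≤ ‖z‖) :
    ∃ g, g 0 = z ∧ Sol σ V t g ∧ ∀ s ∈ Icc 0 t, ‖g s - z‖ ≤ |σ| * t / a := by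
  obtain ⟨g, e, h⟩ := exists_tsol σ ha hV ht z
  have hm : ∀ s ∈ Icc 0 t, ‖g s - z‖ ≤ |σ| * t / a := fun s hs => by
    refine (e ▸ h.move ha hs).trans ?_
    rw [div_mul_eq_mul_div]; gcongr; exact hs.2
  refine ⟨g, e, h.sol ha fun s hs => ?_, hm⟩
  have h1 : ‖g s - z‖ ≤ a := (hm s hs).trans (by rw [div_le_iff₀ ha]; linarith)
  have h2 : ‖(V s : ℂ)‖ ≤ M := by rw [norm_real]; exact hM s hs
  have h3 : z = (g s - V s) - (g s - z) + V s := by ring
  have : ‖z‖ ≤ ‖g s - V s‖ + a + M := by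
    nth_rw 1 [h3]
    exact (norm_add_le _ _).trans (add_le_add ((norm_sub_le _ _).trans (add_le_add le_rfl h1)) h2)
  linarith

/-- the backward equation can be solved from every point of the upper half plane -/
theorem back_sol (hV : Continuous V) (ht : 0 ≤ t) (hσ : σ ≤ 0) {w : ℂ} (hw : 0 < w.im) :
    ∃ g, g 0 = w ∧ Sol σ V t g ∧ ∀ s ∈ Icc 0 t, w.im ≤ ‖g s - V s‖ := by
  obtain ⟨g, e, h⟩ := exists_tsol σ hw hV ht w
  have hd : ∀ x ∈ Ico 0 t, HasDerivWithinAt (fun s => (g s).im ^ 2)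
      (2 * (g x).im * (σ * kk w.im (g x - V x)).im) (Ici x) x := fun x hx => by
    have := (imCLM.hasFDerivAt.comp_hasDerivWithinAt x (h.right hx)).fun_pow 2
    simpa [Function.comp_def, -mul_im] using this
  have hb : ∀ s ∈ Icc 0 t, w.im ≤ ‖g s - V s‖ := fun s hs => by
    have := image_le_of_deriv_right_le_deriv_boundary (f := fun _ => w.im ^ 2) (f' := fun _ => 0)
      (a := 0) (b := t) continuousOn_const (fun x _ => hasDerivWithinAt_const _ _ _)
      (B := fun s => (g s).im ^ 2) (by rw [e]) ((continuous_im.comp_continuousOn h.cont).pow 2) hd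
      (fun x _ => by
        have : (σ * kk w.im (g x - V x)).im = -σ * (g x).im / (max ‖g x - V x‖ w.im) ^ 2 := by
          rw [kk, ← ofReal_pow, im_ofReal_mul, div_ofReal_im]; simp; ring
        rw [this, ← mul_div_assoc]
        exact div_nonneg (by nlinarith [sq_nonneg (g x).im]) (sq_nonneg _)) hs
    have h2 : w.im ≤ |(g s - V s).im| := by
      simpa using Real.le_sqrt_of_sq_le this |>.trans_eq (Real.sqrt_sq_eq_abs _)
    exact h2.trans (abs_im_le_norm _)
  exact ⟨g, e, h.sol hw hb, hb⟩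

end Pool.Agent.Lib.MP_6359c9_pr.Ge
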