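import Pool.Agent.Lib.MP_6359c9_pr.GeA

/-! The domains `H_t` of a Loewner chain and the maps `g_t`, from the differential equation. -/

namespace Pool.Agent.Lib.MP_6359c9_pr.Ge

open Set Complex Filter Topology Metric
open scoped ComplexConjugate

variable {σ ε η t s : ℝ} {V V' : ℝ → ℝ} {g g' : ℝ → ℂ} {z : ℂ}

/-- the points from which the equation has a solution on `[0, t]` -/
def AA (σ : ℝ) (V : ℝ → ℝ) (t : ℝ) : Set ℂ := {z | ∃ g, g 0 = z ∧ Sol σ V t g}

open Classical in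
/-- the solution started at `z` -/
noncomputable def pa (σ : ℝ) (V : ℝ → ℝ) (t : ℝ) (z : ℂ) : ℝ → ℂ :=
  if h : z ∈ AA σ V t then h.choose else 0

/-- the flow at time `t` -/
noncomputable def fl (σ : ℝ) (V : ℝ → ℝ) (t : ℝ) (z : ℂ) : ℂ := pa σ V t z t

/-- the points of the upper half plane that are alive at time `t` -/
def HH (V : ℝ → ℝ) (t : ℝ) : Set ℂ := {z | 0 < z.im ∧ z ∈ AA 2 V t}

theorem pa_spec (h : z ∈ AA σ V t) : pa σ V t z 0 = z ∧ Sol σ V t (pa σ V t z) := by
  rw [pa, dif_pos h]; exact h.choose_spec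

theorem Sol.mem (h : Sol σ V t g) : g 0 ∈ AA σ V t := ⟨g, rfl, h⟩

theorem Sol.pa_eq (hV : Continuous V) (h : Sol σ V t g) (hs : s ∈ Icc 0 t) :
    pa σ V t (g 0) s = g s :=
  (pa_spec h.mem).2.uniq hV h (pa_spec h.mem).1 hs

theorem Sol.fl_eq (hV : Continuous V) (h : Sol σ V t g) (ht : 0 ≤ t) : fl σ V t (g 0) = g t :=
  h.pa_eq hV ⟨ht, le_rfl⟩

/-- joint stability in the starting point and the driving function -/
theorem aa_stab (hV : Continuous V) (ht : 0 ≤ t) (hz : z ∈ AA σ V t) (hη : 0 < η) :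
    ∃ r > 0, ∀ V' : ℝ → ℝ, Continuous V' → (∀ s ∈ Icc 0 t, |V s - V' s| ≤ r) →
      ∀ z' ∈ ball z r, z' ∈ AA σ V' t ∧ ∀ s ∈ Icc 0 t, ‖pa σ V t z s - pa σ V' t z' s‖ ≤ η := by
  obtain ⟨e, h⟩ := pa_spec hz
  obtain ⟨ε, hε, hb⟩ := h.away hV
  obtain ⟨r, hr, H⟩ := sol_stab σ ht hε hη
  refine ⟨r, hr, fun V' hV' hd z' hz' => ?_⟩
  obtain ⟨g', rfl, h', hg⟩ := H V V' _ z' hV' h hb hd (by
    rw [e, norm_sub_rev]; exact (mem_ball_iff_norm.1 hz').le)
  exact ⟨h'.mem, fun s hs => by rw [h'.pa_eq hV' hs]; exact hg s hs⟩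

theorem isOpen_AA (hV : Continuous V) (ht : 0 ≤ t) : IsOpen (AA σ V t) :=
  Metric.isOpen_iff.2 fun z hz => by
    obtain ⟨r, hr, H⟩ := aa_stab hV ht hz one_pos
    exact ⟨r, hr, fun z' hz' => (H V hV (fun s _ => by simpa using hr.le) z' hz').1⟩

theorem isOpen_HH (hV : Continuous V) (ht : 0 ≤ t) : IsOpen (HH V t) :=
  (isOpen_lt continuous_const continuous_im).inter (isOpen_AA hV ht)

theorem pa_tendsto (hV : Continuous V) (ht : 0 ≤ t) (hz : z ∈ AA σ V t) (hη : 0 < η) :
    ∀ᶠ z' in 𝓝 z, z' ∈ AA σ V t ∧ ∀ s ∈ Icc 0 t, ‖pa σ V t z s - pa σ V t z' s‖ ≤ η := by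
  obtain ⟨r, hr, H⟩ := aa_stab hV ht hz hη
  filter_upwards [ball_mem_nhds z hr] with z' hz'
  exact H V hV (fun s _ => by simpa using hr.le) z' hz'

/-- the flow is holomorphic -/
theorem fl_hasDerivAt (hV : Continuous V) (ht : 0 ≤ t) (hz : z ∈ AA σ V t) :
    HasDerivAt (fl σ V t)
      (exp (-σ * ∫ u in 0..t, ((pa σ V t z u - V u) * (pa σ V t z u - V u))⁻¹)) z := by
  obtain ⟨e, h⟩ := pa_spec hz
  obtain ⟨ε, hε, hb⟩ := h.away hV
  set g := pa σ V t z with hg
  have hI : Tendsto (fun z' => ∫ u in 0..t, ((pa σ V t z' u - V u) * (g u - V u))⁻¹) (𝓝 z)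
      (𝓝 (∫ u in 0..t, ((g u - V u) * (g u - V u))⁻¹)) := by
    refine Metric.tendsto_nhds.2 fun η hη => ?_
    filter_upwards [pa_tendsto hV ht hz (η := min (ε / 2) (η * ε ^ 3 / (4 * (t + 1))))
      (by positivity)] with z' ⟨hz', hd⟩
    have h' := (pa_spec hz').2
    have i1 : ∀ {a b : ℝ → ℂ}, Sol σ V t a → Sol σ V t b → IntervalIntegrable
        (fun u => ((a u - V u) * (b u - V u))⁻¹) MeasureTheory.volume 0 t := fun ha hb =>
      ((ha.cinv hV hb hV).mono (by rw [uIcc_of_le ht])).intervalIntegrable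
    rw [dist_eq_norm, ← intervalIntegral.integral_sub (i1 h' h) (i1 h h)]
    refine (intervalIntegral.norm_integral_le_of_norm_le_const (C := η / (2 * (t + 1)))
      fun u hu => ?_).trans_lt ?_
    · rw [uIoc_of_le ht] at hu
      have hu := Ioc_subset_Icc_self hu
      have n1 := h.ne hu
      have n2 := h'.ne hu
      have d1 := (hd u hu).trans (min_le_left _ _)
      have d2 := (hd u hu).trans (min_le_right _ _)
      have b1 := hb u hu
      have b2 : ε / 2 ≤ ‖pa σ V t z' u - V u‖ := by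
        have : g u - V u = (pa σ V t z' u - V u) + (g u - pa σ V t z' u) := by ring
        rw [this] at b1
        linarith [norm_add_le (pa σ V t z' u - V u) (g u - pa σ V t z' u)]
      have : ((pa σ V t z' u - V u) * (g u - V u))⁻¹ - ((g u - V u) * (g u - V u))⁻¹ =
          (g u - pa σ V t z' u) / ((pa σ V t z' u - V u) * (g u - V u) * (g u - V u)) := by
        field_simp; ring
      rw [this, norm_div, norm_mul, norm_mul]
      calc _ ≤ η * ε ^ 3 / (4 * (t + 1)) / (ε / 2 * ε * ε) := by gcongr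
        _ = _ := by field_simp; ring
    · rw [sub_zero, abs_of_nonneg ht, div_mul_eq_mul_div, div_lt_iff₀ (by positivity)]
      nlinarith
  rw [hasDerivAt_iff_tendsto_slope]
  refine (((hI.const_mul (-σ : ℂ)).cexp).mono_left nhdsWithin_le_nhds).congr' ?_
  filter_upwards [self_mem_nhdsWithin, mem_nhdsWithin_of_mem_nhds
    ((isOpen_AA hV ht).mem_nhds hz)] with z' hne hz'
  obtain ⟨e', h'⟩ := pa_spec hz'
  have := h'.diff hV h ⟨ht, le_rfl⟩
  rw [e, e'] at this
  rw [slope_def_field, fl, fl, this, mul_div_cancel_left₀ _ (sub_ne_zero.2 hne)]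

theorem fl_diff (hV : Continuous V) (ht : 0 ≤ t) : DifferentiableOn ℂ (fl σ V t) (AA σ V t) :=
  fun _ hz => (fl_hasDerivAt hV ht hz).differentiableAt.differentiableWithinAt

theorem fl_im_pos (hV : Continuous V) (ht : 0 ≤ t) (hz : z ∈ AA σ V t) (h0 : 0 < z.im) :
    0 < (fl σ V t z).im :=
  (pa_spec hz).2.im_pos hV (by rwa [(pa_spec hz).1]) ⟨ht, le_rfl⟩

theorem HH_anti (h : s ≤ t) : HH V t ⊆ HH V s := fun _ ⟨h0, g, e, hg⟩ => ⟨h0, g, e, hg.mono h⟩

/-- every point of the half plane is the image of a point that is alive -/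
theorem fl_surj (hV : Continuous V) (ht : 0 ≤ t) {w : ℂ} (hw : 0 < w.im) :
    ∃ g, Sol 2 V t g ∧ 0 < (g 0).im ∧ g t = w := by
  obtain ⟨h, e, hh, -⟩ := back_sol (σ := -2) (V := fun u => V (t - u)) (by fun_prop) ht
    (by norm_num) hw
  refine ⟨fun u => h (t - u), by simpa using hh.rev, ?_, by simp [e]⟩
  simpa using hh.im_pos (by fun_prop) (e ▸ hw) ⟨ht, le_rfl⟩

theorem HH_eq (hV : Continuous V) (ht : 0 ≤ t) :
    HH V t = fl (-2) (fun u => V (t - u)) t '' {w | 0 < w.im} := by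
  have hV' : Continuous fun u => V (t - u) := by fun_prop
  ext z
  constructor
  · rintro ⟨h0, g, rfl, hg⟩
    refine ⟨g t, hg.im_pos hV h0 ⟨ht, le_rfl⟩, ?_⟩
    simpa using hg.rev.fl_eq hV' ht
  · rintro ⟨w, hw, rfl⟩
    obtain ⟨g, h1, h2, rfl⟩ := fl_surj hV ht hw
    have := h1.rev.fl_eq hV' ht
    simp only [sub_zero, sub_self] at this
    rw [this]; exact ⟨h2, h1.mem⟩

theorem HH_conn (hV : Continuous V) (ht : 0 ≤ t) : IsPreconnected (HH V t) := by
  rw [HH_eq hV ht]
  refine (convex_halfSpace_im_gt 0).isPreconnected.image _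
    ((fl_diff (by fun_prop) ht).continuousOn.mono fun w hw => ?_)
  obtain ⟨h, e, hh, -⟩ := back_sol (σ := -2) (V := fun u => V (t - u)) (by fun_prop) ht
    (by norm_num) hw
  exact ⟨h, e, hh⟩

/-- far points are alive, and they move little -/
theorem far (hV : Continuous V) (ht : 0 ≤ t) (hε : 0 < ε) :
    ∃ R, ∀ z : ℂ, R ≤ ‖z‖ → z ∈ AA 2 V t ∧ ‖fl 2 V t z - z‖ ≤ ε := by
  obtain ⟨M, hM⟩ := isCompact_Icc.exists_bound_of_continuousOn (s := Icc 0 t) hV.continuousOn
  refine ⟨M + 2 * (2 * t / ε + 2 * t + 1), fun z hz => ?_⟩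
  have h0 : 0 ≤ 2 * t / ε := by positivity
  obtain ⟨g, rfl, h, hm⟩ := far_sol (σ := 2) hV ht (a := 2 * t / ε + 2 * t + 1) (by positivity)
    (by rw [abs_two]; nlinarith) hM hz
  refine ⟨h.mem, ?_⟩
  rw [h.fl_eq hV ht]
  refine (hm t ⟨ht, le_rfl⟩).trans ?_
  rw [abs_two, div_le_iff₀ (by positivity)]
  have : ε * (2 * t / ε) = 2 * t := by field_simp
  nlinarith

theorem HH_meets (hV : Continuous V) (ht : 0 ≤ t) {U : Set ℂ} (hU : ∀ z ∈ U, 0 < z.im)
    (hb : ¬Bornology.IsBounded U) : (U ∩ HH V t).Nonempty := by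
  obtain ⟨R, hR⟩ := far hV ht one_pos
  by_contra hn
  refine hb ((isBounded_ball (x := (0 : ℂ)) (r := R)).subset fun z hz => ?_)
  by_contra h
  exact hn ⟨z, hz, hU z hz, (hR z (by simpa using h)).1⟩

theorem HH_unbdd (hV : Continuous V) (ht : 0 ≤ t) : ¬Bornology.IsBounded (HH V t) := by
  obtain ⟨R, hR⟩ := far hV ht one_pos
  intro hb
  obtain ⟨C, hC⟩ := hb.exists_norm_le
  have h1 : ‖((|R| + |C| + 1 : ℝ) : ℂ) * I‖ = |R| + |C| + 1 := by
    rw [norm_mul, norm_I, mul_one, norm_real, Real.norm_of_nonneg (by positivity)]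
  have := hC (((|R| + |C| + 1 : ℝ) : ℂ) * I) ⟨by simp; positivity, (hR _ (by
    rw [h1]; linarith [le_abs_self R, abs_nonneg C])).1⟩
  rw [h1] at this
  linarith [le_abs_self C, abs_nonneg R]

/-- some point of the half plane dies before any positive time -/
theorem exists_dead (hV : Continuous V) (ht : 0 < t) : ∃ z : ℂ, 0 < z.im ∧ z ∉ AA 2 V t := by
  by_contra! H
  have hI := pa_spec (H I (by simp))
  have h1 : (fl 2 V t I).im < 1 := by
    simpa [hI.1, fl] using hI.2.im_lt hV two_pos (by simp [hI.1]) ht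
  set ε := min (1 / 2) ((1 - (fl 2 V t I).im) / 2) with hε
  have hε0 : 0 < ε := lt_min (by norm_num) (by linarith)
  obtain ⟨R, hR⟩ := far hV ht.le hε0
  set U : Set ℂ := {z | ε < z.im} ∩ ball 0 (|R| + 2)
  have hc : closure U ⊆ {z | ε ≤ z.im} :=
    closure_minimal (fun z hz => le_of_lt (a := ε) hz.1) (isClosed_le continuous_const continuous_im)
  have nrm : ∀ z, ‖exp (I * (fl 2 V t z - z))‖ = Real.exp (z.im - (fl 2 V t z).im) := by
    intro z; rw [norm_exp]; simp
  have := norm_le_of_forall_mem_frontier_norm_le (U := U) (isBounded_ball.subset inter_subset_right)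
    (f := fun z => exp (I * (fl 2 V t z - z))) (C := Real.exp ε) (z := I)
    (DifferentiableOn.diffContOnCl ((((fl_diff hV ht.le).mono fun z hz =>
      H z (hε0.trans_le (hc hz))).sub differentiableOn_id).const_mul I).cexp)
    (fun z hz => by
      rw [nrm, Real.exp_le_exp]
      have h0 : 0 < z.im := hε0.trans_le (hc (frontier_subset_closure hz))
      rcases frontier_inter_subset _ _ hz with h | h
      · have : z.im = ε := by
          simpa using (frontier_lt_subset_eq continuous_const continuous_im h.1).symm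
        linarith [fl_im_pos hV ht.le (H z h0) h0]
      · have h2 : ‖z‖ = |R| + 2 := by simpa using frontier_ball_subset_sphere h.2
        have h3 := (hR z (by linarith [le_abs_self R])).2
        have h4 := (abs_im_le_norm _).trans h3
        rw [sub_im] at h4
        linarith [neg_abs_le ((fl 2 V t z).im - z.im)])
    (subset_closure ⟨(min_le_left (1 / 2 : ℝ) _).trans_lt (show _ < I.im by norm_num),
      by simp; linarith [abs_nonneg R]⟩)
  rw [nrm, Real.exp_le_exp, I_im] at this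
  linarith [min_le_right (1 / 2 : ℝ) ((1 - (fl 2 V t I).im) / 2)]

/-- the domains decrease strictly -/
theorem HH_strict (hV : Continuous V) (ht : 0 ≤ t) (hs : 0 < s) : ¬HH V t ⊆ HH V (t + s) := by
  intro H
  obtain ⟨w, hw, hd⟩ := exists_dead (V := fun u => V (t + u)) (by fun_prop) hs
  obtain ⟨g, h1, h2, rfl⟩ := fl_surj hV ht hw
  obtain ⟨-, g', e, h'⟩ := H ⟨h2, h1.mem⟩
  exact hd ⟨_, by simpa using (h'.mono (by linarith)).uniq hV h1 e ⟨ht, le_rfl⟩, h'.shift ht⟩

/-- the frontier of the later domain meets the earlier domain -/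
theorem HH_frontier (hV : Continuous V) (ht : 0 ≤ t) (hs : 0 < s) :
    ∃ p ∈ HH V t, p ∈ closure (HH V (t + s)) ∧ p ∉ HH V (t + s) := by
  by_contra! H
  refine HH_strict hV ht hs ((HH_conn hV ht).subset_of_closure_inter_subset
    (isOpen_HH hV (by linarith)) ?_ fun p hp => H p hp.2 hp.1)
  exact HH_meets hV (by linarith) (fun z hz => hz.1) (HH_unbdd hV ht)

/-- Harnack inequality for a holomorphic map into the half plane -/
theorem im_harnack {f : ℂ → ℂ} {c : ℂ} {r : ℝ} (hf : DifferentiableOn ℂ f (ball c r))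
    (hp : ∀ z ∈ ball c r, 0 < (f z).im) (hz : z ∈ ball c (r / 2)) : (f c).im / 3 ≤ (f z).im := by
  have hr : 0 < r := by linarith [pos_of_mem_ball hz]
  have hz' : z ∈ ball c r := ball_subset_ball (by linarith) hz
  have hc := hp c (mem_ball_self hr)
  have ne : ∀ x ∈ ball c r, f x - conj (f c) ≠ 0 := fun x hx e => by
    have := congrArg Complex.im e
    simp only [sub_im, conj_im, zero_im] at this
    linarith [hp x hx]
  have := dist_le_div_mul_dist_of_mapsTo_ball (f := fun x => (f x - f c) / (f x - conj (f c)))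
    (R₂ := 1) ((hf.sub_const _).div (hf.sub_const _) ne) (fun x hx => by
      rw [sub_self, zero_div, mem_closedBall_zero_iff, norm_div,
        div_le_one (norm_pos_iff.2 (ne x hx))]
      refine (abs_le_of_sq_le_sq' ?_ (norm_nonneg _)).2
      rw [← normSq_eq_norm_sq, ← normSq_eq_norm_sq, normSq_apply, normSq_apply]
      simp only [sub_re, sub_im, conj_re, conj_im]
      nlinarith [mul_pos hc (hp x hx)]) hz'
  rw [sub_self, zero_div, dist_zero_right, norm_div, div_le_iff₀ (norm_pos_iff.2 (ne z hz'))] at this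
  have h2 : 1 / r * dist z c ≤ 1 / 2 := by
    rw [one_div, inv_mul_le_iff₀ hr]; linarith [mem_ball.1 hz]
  have h3 : 2 * ‖f z - f c‖ ≤ ‖f z - conj (f c)‖ := by
    nlinarith [norm_nonneg (f z - conj (f c))]
  have h4 : (2 * ‖f z - f c‖) ^ 2 ≤ ‖f z - conj (f c)‖ ^ 2 := by gcongr
  rw [mul_pow, ← normSq_eq_norm_sq, ← normSq_eq_norm_sq, normSq_apply, normSq_apply] at h4
  simp only [sub_re, sub_im, conj_re, conj_im] at h4
  by_contra! h
  nlinarith [mul_self_nonneg ((f z).re - (f c).re), hp z hz',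
    mul_pos (show 0 < (f c).im - 3 * (f z).im by linarith)
      (show 0 < 3 * (f c).im - (f z).im by linarith)]

/-- a point whose image stays high for approximating driving functions is alive -/
theorem alive_of_lim (hV : Continuous V) (ht : 0 ≤ t) (hε : 0 < ε) (h0 : 0 < z.im)
    (H : ∀ r > 0, ∃ V' : ℝ → ℝ, Continuous V' ∧ (∀ s ∈ Icc 0 t, |V s - V' s| ≤ r) ∧
      z ∈ AA 2 V' t ∧ ε ≤ (fl 2 V' t z).im) : z ∈ AA 2 V t := by
  obtain ⟨r, hr, hs⟩ := sol_stab 2 ht hε one_pos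
  obtain ⟨V', hV', hd, hz, hi⟩ := H r hr
  obtain ⟨e, h⟩ := pa_spec hz
  obtain ⟨g, e', hg, -⟩ := hs V' V _ z hV h (fun s hs => by
    refine hi.trans ((h.im_ge hV' zero_le_two (by rwa [e]) hs).trans ?_)
    simpa using (le_abs_self _).trans (abs_im_le_norm (pa 2 V' t z s - V' s)))
    (fun s hs => by rw [abs_sub_comm]; exact hd s hs) (by simpa [e] using hr.le)
  exact ⟨g, e', hg⟩

end Pool.Agent.Lib.MP_6359c9_pr.Ge
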