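import Pool.Agent.Lib.MP_6359c9_pr.GeB

/-! The relation `Gen` is closed, and the curve is determined by the driving function. -/

namespace Pool.Agent.Lib.MP_6359c9_pr.Ge

open Set Filter Topology Metric
open scoped NNReal ENNReal

/-- the driving function on the real line -/
noncomputable def rl (W : ℝ≥0 → ℝ) (s : ℝ) : ℝ := W s.toNNReal

theorem rl_cont {W : ℝ≥0 → ℝ} (h : Continuous W) : Continuous (rl W) :=
  h.comp continuous_real_toNNReal

theorem alive_iff (W : ℝ≥0 → ℝ) (t : ℝ≥0) (z : ℂ) : Alive W t z ↔ z ∈ AA 2 (rl W) t := by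
  refine exists_congr fun g => and_congr_right fun _ => ⟨fun h s hs => ?_, fun h s hs => ?_⟩
  · lift s to ℝ≥0 using hs.1
    simpa [rl] using h s (by exact_mod_cast hs.2)
  · simpa [rl] using h s ⟨s.2, by exact_mod_cast hs⟩

theorem gen_iff {γ : Crv} {W : ℝ≥0 → ℝ} : Gen γ W ↔ ∀ (t : ℝ≥0) (z : ℂ), 0 < z.im →
    (z ∈ HH (rl W) t ↔ ¬Bornology.IsBounded (connectedComponentIn (Off γ t) z)) := by
  refine forall_congr' fun t => forall_congr' fun z => forall_congr' fun hz => ?_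
  rw [alive_iff]; simp [HH, hz]

theorem isOpen_Off (γ : Crv) (t : ℝ≥0) : IsOpen (Off γ t) := by
  have h : IsClosed (γ '' Iic (t : ℝ≥0∞)) :=
    (isClosed_Iic.isCompact.image γ.continuous).isClosed
  have : Off γ t = {z : ℂ | 0 < z.im} ∩ (↑) ⁻¹' (γ '' Iic (t : ℝ≥0∞))ᶜ := by
    ext z; simp [Off]
  rw [this]
  exact (isOpen_lt continuous_const Complex.continuous_im).inter
    (h.isOpen_compl.preimage OnePoint.continuous_coe)

section

variable {γ : Crv} {W : ℝ≥0 → ℝ} {t : ℝ≥0} {z : ℂ}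

theorem HH_sub (h : Gen γ W) : HH (rl W) t ⊆ Off γ t := fun z hz => by
  by_contra hn
  exact (gen_iff.1 h t z hz.1).1 hz (by simp [connectedComponentIn_eq_empty hn])

/-- a connected subset of the complement of the curve that meets `H_t` lies in `H_t` -/
theorem sub_HH (h : Gen γ W) {B : Set ℂ} (hB : IsPreconnected B) (hs : B ⊆ Off γ t) (hz : z ∈ B)
    (ha : z ∈ HH (rl W) t) : B ⊆ HH (rl W) t := fun x hx => by
  refine (gen_iff.1 h t x (hs hx).1).2 ?_
  rw [← connectedComponentIn_eq (hB.subset_connectedComponentIn hz hs hx)]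
  exact (gen_iff.1 h t z ha.1).1 ha

/-- criterion for `Gen`: the points alive avoid the curve, and no other point of the complement
of the curve is a limit of points alive -/
theorem gen_of (hW : Continuous W) (h1 : ∀ t : ℝ≥0, HH (rl W) t ⊆ Off γ t)
    (h2 : ∀ t : ℝ≥0, closure (HH (rl W) t) ∩ Off γ t ⊆ HH (rl W) t) : Gen γ W := by
  have hV := rl_cont hW
  refine gen_iff.2 fun t z _ => ⟨fun hz hb => HH_unbdd hV t.2
    (hb.subset ((HH_conn hV t.2).subset_connectedComponentIn hz (h1 t))), fun hb => ?_⟩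
  have hz : z ∈ Off γ t := by
    by_contra hn
    exact hb (by simp [connectedComponentIn_eq_empty hn])
  exact isPreconnected_connectedComponentIn.subset_of_closure_inter_subset (isOpen_HH hV t.2)
    (HH_meets hV t.2 (fun x hx => (connectedComponentIn_subset _ _ hx).1) hb)
    (fun x hx => h2 t ⟨hx.1, connectedComponentIn_subset _ _ hx.2⟩) (mem_connectedComponentIn hz)

/-- a simple criterion: the points alive are exactly the points off the curve -/
theorem gen_of_eq (hW : Continuous W)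
    (h : ∀ (t : ℝ≥0) (z : ℂ), 0 < z.im → (Alive W t z ↔ z ∈ Off γ t)) : Gen γ W :=
  gen_of hW (fun t z hz => (h t z hz.1).1 ((alive_iff _ _ _).2 hz.2))
    fun t z hz => ⟨hz.2.1, (alive_iff _ _ _).1 ((h t z hz.2.1).2 hz.2)⟩

theorem tip (h : Gen γ W) {s : ℝ≥0} {p : ℂ} (h1 : p ∈ HH (rl W) t)
    (h2 : p ∈ closure (HH (rl W) s)) (h3 : p ∉ HH (rl W) s) :
    ∃ u : ℝ≥0∞, (t : ℝ≥0∞) < u ∧ u ≤ s ∧ γ u = p := by
  by_contra! H
  have hp : p ∈ Off γ s := ⟨h1.1, fun u hu => by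
    rcases le_or_gt u t with h' | h'
    · exact (HH_sub h h1).2 u h'
    · exact H u h' hu⟩
  obtain ⟨r, hr, hb⟩ := Metric.isOpen_iff.1 (isOpen_Off γ s) p hp
  obtain ⟨x, hx, hx'⟩ := mem_closure_iff.1 h2 _ isOpen_ball (mem_ball_self hr)
  exact h3 (sub_HH h (convex_ball p r).isPreconnected hb hx hx' (mem_ball_self hr))

end

/-- the curve is determined by the driving function -/
theorem gen_inj {γ γ' : Crv} {W : ℝ≥0 → ℝ} (hW : Continuous W) (h : Gen γ W) (h' : Gen γ' W) :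
    γ = γ' := by
  have key : ∀ t : ℝ≥0, γ t = γ' t := by
    intro t
    refine eq_of_nhds_neBot (Filter.inf_neBot_iff.2 fun A hA B hB => ?_)
    have h1 : ∀ᶠ u in 𝓝 (t : ℝ≥0∞), γ u ∈ A ∧ γ' u ∈ B :=
      inter_mem (γ.continuous.tendsto _ hA) (γ'.continuous.tendsto _ hB)
    obtain ⟨b, hb, hI⟩ := (mem_nhdsGE_iff_exists_Ico_subset' (ENNReal.coe_lt_top (r := t))).1
      (mem_nhdsWithin_of_mem_nhds (t := Ici (t : ℝ≥0∞)) h1)
    obtain ⟨s, hs, hs'⟩ := ENNReal.lt_iff_exists_nnreal_btwn.1 (mem_Ioi.1 hb)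
    have hts : (0 : ℝ) < s - t := sub_pos.2 (by exact_mod_cast hs)
    obtain ⟨p, p1, p2, p3⟩ := HH_frontier (rl_cont hW) t.2 hts
    have e : ((t : ℝ) + (s - t)) = s := by ring
    erw [e] at p2 p3
    obtain ⟨u, u1, u2, u3⟩ := tip h p1 p2 p3
    obtain ⟨v, v1, v2, v3⟩ := tip h' p1 p2 p3
    exact ⟨p, u3 ▸ (hI ⟨u1.le, u2.trans_lt hs'⟩).1, v3 ▸ (hI ⟨v1.le, v2.trans_lt hs'⟩).2⟩
  have hd : Dense (range ((↑) : ℝ≥0 → ℝ≥0∞)) := by
    rw [ENNReal.range_coe', ← compl_Ici, Ici_top]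
    exact dense_compl_singleton _
  exact ContinuousMap.ext (congrFun (γ.continuous.ext_on hd γ'.continuous (by
    rintro _ ⟨t, rfl⟩; exact key t)))

/-- driving functions -/
abbrev Drv := C(ℝ≥0, ℝ)

theorem drv_near (W : Drv) (t : ℝ≥0) {r : ℝ} (hr : 0 < r) :
    ∀ᶠ W' : Drv in 𝓝 W, ∀ s ∈ Icc (0 : ℝ) t, |rl W s - rl W' s| ≤ r := by
  have := ContinuousMap.tendsto_iff_forall_isCompact_tendstoUniformlyOn.1
    (tendsto_id (x := 𝓝 W)) (Icc 0 t) isCompact_Icc
  filter_upwards [Metric.tendstoUniformlyOn_iff.1 this r hr] with W' h s hs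
  exact (h s.toNNReal ⟨zero_le, Real.toNNReal_le_iff_le_coe.2 hs.2⟩).le

theorem crv_near (γ : Crv) (t : ℝ≥0) {K : Set ℂ} (hK : IsCompact K) (h : K ⊆ Off γ t) :
    ∀ᶠ γ' : Crv in 𝓝 γ, K ⊆ Off γ' t := by
  have ho : IsOpen (((↑) : ℂ → OnePoint ℂ) '' K)ᶜ :=
    (hK.image OnePoint.continuous_coe).isClosed.isOpen_compl
  filter_upwards [(ContinuousMap.isOpen_setOf_mapsTo (isClosed_Iic (a := (t : ℝ≥0∞))).isCompact
    ho).mem_nhds (x := γ) (by rintro s hs ⟨x, hx, e⟩; exact (h hx).2 s hs e.symm)]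
    with γ' H x hx
  exact ⟨(h hx).1, fun s hs e => H hs ⟨x, hx, e.symm⟩⟩

/-- `Gen` is a closed relation -/
theorem isClosed_gen : IsClosed {p : Crv × Drv | Gen p.1 p.2} := by
  refine isClosed_of_closure_subset fun ⟨γ, W⟩ hp => ?_
  have hV := rl_cont W.continuous
  have ap : ∀ {P : Crv → Prop} {Q : Drv → Prop}, (∀ᶠ x in 𝓝 γ, P x) → (∀ᶠ x in 𝓝 W, Q x) →
      ∃ (γ' : Crv) (W' : Drv), Gen γ' W' ∧ P γ' ∧ Q W' := fun hP hQ => by
    obtain ⟨q, h1, h2⟩ := mem_closure_iff_nhds.1 hp _ (prod_mem_nhds hP hQ)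
    exact ⟨q.1, q.2, h2, h1⟩
  refine gen_of W.continuous (fun t z hz => ⟨hz.1, fun s hs e => ?_⟩) fun t z ⟨hz, ho⟩ => ?_
  · obtain ⟨r, hr, H⟩ := aa_stab hV t.2 hz.2 one_pos
    have hO : IsOpen (((↑) : ℂ → OnePoint ℂ) '' (ball z r ∩ {x | 0 < x.im})) :=
      OnePoint.isOpen_image_coe.2
        (isOpen_ball.inter (isOpen_lt continuous_const Complex.continuous_im))
    obtain ⟨γ', W', hg, ⟨x, hx, ex⟩, h2⟩ := ap (P := fun x => x s ∈ _)
      ((continuous_eval_const s).tendsto γ (hO.mem_nhds ⟨z, ⟨mem_ball_self hr, hz.1⟩, e.symm⟩))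
      (drv_near W t hr)
    exact (HH_sub hg ⟨hx.2, (H _ (rl_cont W'.continuous) h2 x hx.1).1⟩).2 s hs ex.symm
  · obtain ⟨r, hr, hb⟩ := Metric.nhds_basis_closedBall.mem_iff.1 ((isOpen_Off γ t).mem_nhds ho)
    obtain ⟨c, hc, hc'⟩ := mem_closure_iff.1 hz _ isOpen_ball (mem_ball_self (x := z)
      (show 0 < r / 4 by positivity))
    have hi := fl_im_pos hV t.2 hc'.2 hc'.1
    refine ⟨ho.1, alive_of_lim hV t.2 (ε := (fl 2 (rl W) t c).im / 2 / 3) (by positivity) ho.1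
      fun ρ hρ => ?_⟩
    obtain ⟨r', hr', H⟩ := aa_stab hV t.2 hc'.2 (half_pos hi)
    obtain ⟨γ', W', hg, h1, h2, h3⟩ := ap (crv_near γ t (isCompact_closedBall z r) hb)
      ((drv_near W t hρ).and (drv_near W t hr'))
    have hV' := rl_cont W'.continuous
    obtain ⟨a1, a2⟩ := H _ hV' h3 c (mem_ball_self hr')
    have hB : ball c (r / 2) ⊆ HH (rl W') t :=
      sub_HH hg (convex_ball _ _).isPreconnected ((ball_subset_ball' (by
        linarith [mem_ball.1 hc])).trans (ball_subset_closedBall.trans h1))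
        (mem_ball_self (half_pos hr)) ⟨hc'.1, a1⟩
    have hz' : z ∈ ball c (r / 2 / 2) := by
      rw [mem_ball_comm]; exact ball_subset_ball (by linarith) hc
    refine ⟨_, hV', h2, (hB (ball_subset_ball (by linarith) hz')).2, le_trans ?_
      (im_harnack ((fl_diff hV' t.2).mono fun x hx => (hB hx).2)
        (fun x hx => fl_im_pos hV' t.2 (hB hx).2 (hB hx).1) hz')⟩
    have := (Complex.abs_im_le_norm _).trans (a2 t ⟨t.2, le_rfl⟩)
    rw [Complex.sub_im] at this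
    have h5 : (fl 2 (rl W) t c).im - (fl 2 (rl W') t c).im ≤ (fl 2 (rl W) t c).im / 2 :=
      (le_abs_self _).trans this
    show (fl 2 (rl W) t c).im / 2 / 3 ≤ (fl 2 (rl W') t c).im / 3
    linarith

end Pool.Agent.Lib.MP_6359c9_pr.Ge
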