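import Pool.Agent.Lib.MP_6359c9_pr.SpMain
import Pool.Agent.Lib.MP_6359c9_pr.WCut

/-! Height side: vocabulary and the statements of the flat wall estimate. -/

namespace Pool.Agent.Lib.MP_6359c9_pr

open Set

/-- free in `R`, frozen to `ξ` off `R` -/
def wl (R : Set V) (ξ : V → ℤ) (v : V) : Set ℤ := {a | v ∉ R → a = ξ v}

/-- Lipschitz heights with the data `ξ` off `R` -/
abbrev HD (R : Set V) (ξ : V → ℤ) : Set (V → ℤ) := Ht (wl R ξ)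

/-- a closed domain: finite with connected complement -/
structure Cls (R : Set V) : Prop where
  fin : R.Finite
  co : CoConn R

/-- the values of `ξ` on the outer boundary of `R` lie in `A` -/
def Bd (R : Set V) (ξ : V → ℤ) (A : Set ℤ) : Prop := ∀ v ∈ cl R, v ∉ R → ξ v ∈ A

/-- the conditional mean of the height at `y` given the heights `g` off `U` -/
noncomputable def mn (U : Set V) (y : V) (g : V → ℤ) : ℝ := Ex (HD U g) fun g' => (g' y : ℝ)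

/-- the part of the box `Bx y m` that is reached from `I` along edges with an end in `R` -/
def Oc (R I : Set V) (y : V) (m : ℤ) : Set V := {v | ∃ u ∈ I, NConn Rᶜ (Bx y m) u v}

/-- finite energy -/
def FeSt : Prop := ∀ (R : Set V) (ξ : V → ℤ) (j : ℤ) (F : Finset V), R.Finite → Ok (HD R ξ) →
  Bd R ξ (Ici j) → (∀ v ∈ F, v ∈ R) →
  (1 / 192 : ℝ) ^ F.card ≤ Pr (HD R ξ) {g | ∀ v ∈ F, j + 1 ≤ g v}

/-- climbing: no long low path near the points of `I` -/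
def ClimbSt : Prop := ∀ i L : ℕ, ∃ c > 0, ∃ d0 : ℤ, ∀ (R : Set V) (ξ : V → ℤ) (j d : ℤ) (x : V)
  (I : Set V), Cls R → Ok (HD R ξ) → Bd R ξ (Ici j) → d0 ≤ d → I ⊆ Bx x (L * d) →
  (∀ u ∈ I, Bx u d ⊆ R) →
  c ≤ Pr (HD R ξ) {g | ∀ u ∈ I, ∀ v, v ∉ Bx u d → ¬Conn {w | g w ≤ j + i} u v}

/-- uniqueness of the long cluster along a chain -/
def GiantSt : Prop := ∀ (S P : Set V) (t : ℤ) (a b u v : V), 1 ≤ t → Conn P u v →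
  (∀ p ∈ P, ∀ q ∈ Bx p (6 * t), ∀ q', q' ∉ Bx q t → ¬Conn Sᶜ q q') →
  (∀ p ∈ P, a ∉ Bx p (7 * t) ∧ b ∉ Bx p (7 * t)) → Conn S a u → Conn S b v → Conn S a b

/-- tail of the height barrier between the wall and a box -/
def TailSt : Prop := ∃ θ : ℝ, 0 < θ ∧ θ < 1 ∧ ∃ C : ℝ, ∀ (R : Set V) (ξ : V → ℤ) (k : ℤ) (j : ℕ)
  (y : V) (ρ d : ℤ), Cls R → Ok (HD R ξ) → Bd R ξ (Iic k) → 0 ≤ ρ → ρ ≤ d →
  (∃ w ∈ Bx y d, w ∉ R) →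
  Pr (HD R ξ) {g | ¬Cr ({v | g v ≤ k + j} ∪ Rᶜ) (Bx y ρ) Rᶜ} ≤ C * ((d + 1) / (ρ + 1)) * θ ^ j

/-- moments of the conditional mean -/
def MbSt : Prop := ∀ p : ℕ, ∃ C : ℝ, 0 < C ∧ ∀ (R U : Set V) (ξ : V → ℤ) (k : ℤ) (y : V) (ρ d : ℤ),
  Cls R → Ok (HD R ξ) → Bd R ξ (Icc k (k + 1)) → 1 ≤ ρ → ρ ≤ d → (∃ w ∈ Bx y d, w ∉ R) →
  y ∈ R → U ⊆ R → Bx y (ρ - 2) ⊆ U →
  Ex (HD R ξ) (fun g => |mn U y g - k| ^ p) ≤ C * (1 + Real.log (d / ρ)) ^ p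

/-- screening at the level of the wall, when the visible wall is free in `{0, 1}` -/
def ZSt : Prop := ∃ C α : ℝ, 0 < C ∧ 0 < α ∧ ∀ (R L I : Set V) (y : V) (n N : ℤ), Cls R →
  L.Finite → R ⊆ L → 1 ≤ n → n ≤ N → (∃ w ∈ Bx y n, w ∉ R) → Oc R I y (N + 2) ⊆ L →
  Pr (Ht (dd 0 R L)) {g | ¬Sep ({v | g v = 0 ∨ g v = 1} ∪ (Oc R I y (N + 2))ᶜ) (Bx y n) (Bx y N)ᶜ}
    ≤ C * ((n : ℝ) / N) ^ α

/-- attachment: the high cluster of the visible wall reaches the bulk -/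
def AtSt : Prop := ∃ K : ℤ, 2 ≤ K ∧ ∃ c > 0, ∀ (R : Set V) (ξ : V → ℤ) (y : V) (d : ℤ), Cls R →
  Ok (HD R ξ) → Bd R ξ (Ici 0) → 4 ≤ d → Bx y (d - 1) ⊆ R → (∃ w ∈ Bx y d, w ∉ R) →
  (∀ w, w ∉ R → NConn Rᶜ (Bx y (K * d)) y w → 1 ≤ ξ w) →
  c ≤ Pr (HD R ξ) {g | ∃ w, w ∉ R ∧ NConn Rᶜ (Bx y (K * d)) y w ∧
    ∃ u v, Adj w u ∧ Conn (R ∩ {q | 1 ≤ g q}) u v ∧ v ∈ Bx y (d / 2)}

/-- a crosscut inside `S` between the two arcs, attached at a point seen from `u` inside `B` -/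
def Wall.Crs (W : Wall) (i0 i1 : ℕ) (B : Set V) (u : V) (S : Set V) : Prop :=
  ∃ a ∈ W.Lt i0 i1, ∃ b ∈ W.Rt i0 i1, W.IC B u a ∧ W.IC B u b ∧
    ∃ u' v', Adj a u' ∧ Adj v' b ∧ Conn S u' v'

/-- a high crosscut has positive probability at every scale -/
def XSt : Prop := ∃ c > 0, ∃ r0 : ℤ, ∀ (W : Wall) (i0 i1 : ℕ) (x u v : V) (r : ℤ) (R : Set V)
  (ξ : V → ℤ), i0 < i1 → i1 < i0 + W.n → r0 ≤ r → W.γ i0 ∈ Bx x (r / 8) → W.γ i1 ∉ Bx x (4 * r) →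
  (∃ a ∈ W.Lt i0 i1, Adj a u) → (∃ b ∈ W.Rt i0 i1, Adj v b) →
  Conn (W.R ∩ {y | ds y x = r}) u v → Cls R → R ⊆ W.R → Ok (HD R ξ) → Bd R ξ (Ici 0) →
  (∀ q, W.IC (Bx x (2 * r)) u q → q ∉ Bx x (r / 4) → (q ∈ W.R → q ∈ R) ∧ (q ∉ W.R → 1 ≤ ξ q)) →
  c ≤ Pr (HD R ξ) {g | W.Crs i0 i1 (Bx x (2 * r)) u (R ∩ {q | 1 ≤ g q})}

/-- an arm inside `A` from the box of `x` out of the pocket `U` -/
def Arm (R U : Set V) (x : V) (d : ℤ) (A : Set V) : Prop :=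
  ∃ u ∈ cl (Bx x (d - 1)), ∃ v w, Conn (R ∩ A) u v ∧ Adj v w ∧ w ∉ U

/-- low arms out of a pocket with wall one are rare -/
def ArmSt : Prop := ∀ η > 0, ∃ l : ℤ, ∀ (W : Wall) (ξ : V → ℤ) (z0 x : V) (d r : ℤ) (i0 i1 : ℕ)
  (U : Set V), (∀ v, v ∉ W.R → ξ v = 0 ∨ ξ v = 1) → W.Dist x d → l * d ≤ r →
  W.Pocket ξ z0 x d r i0 i1 U 1 → Pr (HD W.R ξ) {g | Arm W.R U x d {v | g v ≤ 0}} ≤ η

/-- the flat wall estimate -/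
def DirSt : Prop := ∀ η > 0, ∃ l : ℤ, ∀ (W : Wall) (ξ : V → ℤ) (z0 x : V) (d r s : ℤ) (i0 i1 : ℕ)
  (U : Set V) (Y : (V → ℤ) → ℝ), (∀ v, v ∉ W.R → ξ v = 0 ∨ ξ v = 1) → W.Dist x d → l * d ≤ r →
  W.Pocket ξ z0 x d r i0 i1 U s → DependsOn Y Uᶜ →
  |Ex (HD W.R ξ) fun g => ((g x : ℝ) - s) * Y g| ≤ η * √(Ex (HD W.R ξ) fun g => Y g ^ 2)

end Pool.Agent.Lib.MP_6359c9_pr
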