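import Pool.Agent.Lib.MP_6359c9_pr.Cmp
import Pool.Agent.Lib.MP_6359c9_pr.HSpec

/-! Screening at the level of the wall. -/

namespace Pool.Agent.Lib.MP_6359c9_pr

open Set

lemma Oc_step {R I : Set V} {y u v : V} {m : ℤ} (hu : u ∈ Oc R I y m) (e : Adj u v)
    (hv : v ∈ Bx y m) (h : u ∈ R ∨ v ∈ R) : v ∈ Oc R I y m := by
  obtain ⟨i, hi, c⟩ := hu
  exact ⟨i, hi, c.tail e hv fun k => h.elim k.1 k.2⟩

lemma Bx_adj {y u v : V} {m : ℤ} (hu : u ∈ Bx y m) (e : Adj u v) : v ∈ Bx y (m + 1) :=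
  cl_Bx y m (mem_cl hu e)

/-- a separating set of double edges that meets a connected wall is at the level of the wall -/
theorem sep_level {R P P' : Set V} {y : V} {n N : ℤ} (hR : Cls R) (hw : ∃ w ∈ Bx y n, w ∉ R)
    (h0 : ∀ v, v ∉ R → v ∈ P')
    (h1 : ∀ u ∈ P', u ∈ Bx y (N + 1) → ∀ v ∈ P, Adj u v → v ∈ P')
    (h : Sep P (Bx y n) (Bx y N)ᶜ) : Sep P' (Bx y n) (Bx y N)ᶜ := by
  intro a ha b hb c
  obtain ⟨w, hw, hwR⟩ := hw
  obtain ⟨o, ho⟩ := (hR.fin.union (Bx_finite y N)).exists_notMem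
  have sub : ∀ v ∈ NK P (Bx y n), v ∈ Bx y N := fun v hv => not_not.1 (sep_iff.1 h v hv)
  have hK : ∀ u ∈ NK P (Bx y n), Conn (NK P (Bx y n)) w u := by
    rintro u ⟨i, hi, k⟩
    exact ((Bx_conn hw hi).mono (sub_NK _ _)).trans
      (k.cluster.conn.mono fun x hx => ⟨i, hi, hx⟩)
  obtain ⟨v, u, c1, e1, n1, hu, -⟩ := c.symm.exit (T := (NK P (Bx y n))ᶜ)
    (fun k => hb (sub b k)) (not_not.2 (sub_NK _ _ ha))
  obtain ⟨v0, u0, c0, e0, -, hu0, c0'⟩ :=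
    ((hR.co o (fun k => ho (Or.inl k)) w hwR).nconn (P := ∅) fun _ _ k => k).exit
      (T := (NK P (Bx y n))ᶜ) (fun k => ho (Or.inr (sub o k))) (not_not.2 (sub_NK _ _ hw))
  refine n1 (And.symm (cut_iff (K := NK P (Bx y n)) (fun u hu v hv => (hK u hu).symm.trans (hK v hv))
    (fun u v => u ∈ P' ∧ v ∈ P') (fun u hu v _ x hx _ e _ g => ⟨g.1, ?_⟩)
    (fun u hu u' hu' v hv e e' _ g => ⟨?_, g.2⟩) (not_not.1 hu0) (not_not.1 hu) e0.symm e1.symm ?_
    ⟨h0 _ c0'.1, h0 _ c0.right.1⟩))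
  · exact h1 u g.1 (Bx_mono (by omega) (sub u hu)) x (NK_bd hu hx e).2 e
  · exact h1 v g.2 (Bx_adj (sub u hu) e) u' (NK_bd hu' hv e').1 e'.symm
  · exact ((c0.conn.mono inter_subset_right).symm.trans
      ((coBx_conn (fun k => ho (Or.inr k)) hb).mono fun x hx k => hx (sub x k))).trans
      (c1.conn.mono inter_subset_right)

/-- screening by double plus edges inside the intrinsic part of a box, given the red spins
elsewhere, for arbitrary blue data on the part of the wall that is not visible -/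
theorem cmp_arm : ∃ C α : ℝ, 0 < C ∧ 0 < α ∧ ∀ (R I : Set V) (β : V → Set Bool) (y : V) (n N : ℤ)
    (B : Set (V → Bool)), Cls R → (∃ F : Set V, F.Finite ∧ ∀ v, v ∉ F → (β v).Subsingleton) →
    (∀ v, v ∈ R ∨ v ∈ Oc R I y (N + 2) → β v = univ) → 1 ≤ n → n ≤ N →
    Dep (Oc R I y (N + 2) ∩ R ∩ Bx y (N + 1))ᶜ B →
    Pr (Sp (tb β R)) (red ⁻¹' (B ∩
      {r | ¬Sep (lev r true ∪ (Oc R I y (N + 2))ᶜ) (Bx y n) (Bx y N)ᶜ})) ≤
      Pr (Sp (tb β R)) (red ⁻¹' B) * (C * ((n : ℝ) / N) ^ α) := by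
  obtain ⟨C, α, hC, hα, H⟩ := arm_pp
  refine ⟨C, α, hC, hα, fun R I β y n N B hR hβ hb h1 h2 hB => ?_⟩
  have k := cmp (O := Oc R I y (N + 2)) hR.fin hR.co (Bx_finite y (N + 1)) (Bx_coConn y (N + 1)) hβ
    (fun v hv => hb v (hv.imp_right And.left))
    (fun u hu v e h h' => Oc_step hu e (h.elim
      (fun h => Bx_mono (by omega) (Bx_adj h e)) fun h => Bx_mono (by omega) h) h')
    (A := {r | Sep (lev r true ∪ (Oc R I y (N + 2))ᶜ) (Bx y n) (Bx y N)ᶜ})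
    (fun _ _ h s => Sep.mono s (union_subset_union_left _ (lev_mono h)) subset_rfl subset_rfl)
    (fun r r' e s => Sep.loc s fun v _ hv h => by
      by_cases hO : v ∈ Oc R I y (N + 2)
      · rw [compl_compl] at hv
        exact Or.inl ((e v ⟨hO, cl_Bx y N hv⟩).symm.trans (h.resolve_right fun k => k hO))
      · exact Or.inr hO) hB
  have k1 := H false (Bx y (N + 1)) y n N (Bx_finite _ _) h1 h2
    fun _ v hv _ => Bx_mono (by omega) hv
  rw [pr_compl (ok_PP (Bx_finite _ _))] at k1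
  have k2 : Pr (PP (Bx y (N + 1))) (red ⁻¹' SepE false (Bx y n) (Bx y N)ᶜ) ≤
      Pr (PP (Bx y (N + 1))) {w | ng (red w) ∈
        {r | Sep (lev r true ∪ (Oc R I y (N + 2))ᶜ) (Bx y n) (Bx y N)ᶜ}} :=
    pr_mono fun w _ h => Sep.mono (ng_SepE.2 h : ng (red w) ∈ SepE true _ _) subset_union_left
      subset_rfl subset_rfl
  have k3 := pr_split (Sp (tb β R)) (red ⁻¹' B)
    (red ⁻¹' {r | Sep (lev r true ∪ (Oc R I y (N + 2))ᶜ) (Bx y n) (Bx y N)ᶜ})
  have k4 := pr_nonneg (Sp (tb β R)) (red ⁻¹' B)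
  rw [preimage_inter] at k ⊢
  change Pr _ (_ ∩ (red ⁻¹' {r | Sep (lev r true ∪ (Oc R I y (N + 2))ᶜ) (Bx y n) (Bx y N)ᶜ})ᶜ) ≤ _
  nlinarith

theorem zSt : ZSt := by
  obtain ⟨C, α, hC, hα, H⟩ := cmp_arm
  refine ⟨C, α, hC, hα, fun R L I y n N hR hL hRL h1 h2 hw hO => ?_⟩
  have k := H R I (off true L) y n N univ hR ⟨L, hL, fun _ => off_sub⟩
    (fun v hv => eq_univ_of_forall fun a h => absurd (hv.elim (@hRL v) (@hO v)) h) h1 h2
    (Dep.univ _)
  rw [← pp_eq_tb, preimage_univ, pr_all (ok_off true hR.fin hL) fun _ _ => mem_univ _, one_mul,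
    univ_inter, ← pr_bij (bij_dd hR.fin hR.co hRL)] at k
  refine le_trans (pr_mono fun g hg h => ?_) k
  intro s
  refine h ?_
  refine sep_level hR hw (fun v hv => Or.inl (by simpa using (hg.2 v).1 hv))
    (fun u hu hb v hv e => ?_) s
  by_cases o : v ∈ Oc R I y (N + 2)
  swap
  · exact Or.inr o
  refine Or.inl ?_
  by_cases r : v ∈ R
  swap
  · simpa using (hg.2 v).1 r
  have t1 : g u = 0 ∨ g u = 1 := hu.resolve_right fun k =>
    k (Oc_step o e.symm (Bx_mono (by omega) hb) (Or.inl r))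
  have t2 := sp1_red.1 (hv.resolve_right fun k => k o)
  have t3 := hg.1 u v e
  unfold Hp at t3
  show g v = 0 ∨ g v = 1
  omega

end Pool.Agent.Lib.MP_6359c9_pr
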