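import Pool.Agent.Lib.MP_6359c9_pr.HBase
import Pool.Agent.Lib.MP_6359c9_pr.HCmp
import Pool.Agent.Lib.MP_6359c9_pr.WPocket

/-! Low arms out of a pocket are rare: crosscuts at many scales. -/

namespace Pool.Agent.Lib.MP_6359c9_pr

open Set

/-- a negative path from `I` near `x` to distance `N` -/
def Low (R I : Set V) (x : V) (n N : ℤ) : Set (V → ℤ) :=
  {g | ∃ p ∈ I, p ∈ Bx x n ∧ ∃ p', p' ∉ Bx x N ∧ Conn (R ∩ {q | g q ≤ -1}) p p'}

lemma low_le (hz : ZSt) (z : ℝ) (hz0 : 0 < z) : ∃ t > (0 : ℝ), ∀ (R I : Set V) (ξ : V → ℤ) (x : V)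
    (n N : ℤ), Cls R → (∀ v, v ∉ R → ξ v = 0 ∨ ξ v = 1) → 1 ≤ n → n ≤ N → (n : ℝ) ≤ t * N →
    (∃ w ∈ Bx x n, w ∉ R) → (∀ v ∈ Oc R I x (N + 2), v ∉ R → ξ v = 1) →
    Pr (HD R ξ) (Low R I x n N) ≤ z := by
  obtain ⟨C, α, hC, hα, h⟩ := hz
  refine ⟨(z / C) ^ α⁻¹, by positivity, fun R I ξ x n N hR h01 h1 h2 h3 hw hO => ?_⟩
  have fin : (R ∪ Oc R I x (N + 2)).Finite :=
    hR.fin.union ((Bx_finite x (N + 2)).subset fun _ ⟨_, _, c⟩ => c.right)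
  have N0 : (0 : ℝ) < N := by exact_mod_cast (by omega : (0 : ℤ) < N)
  have n0 : (0 : ℝ) ≤ n := by exact_mod_cast (by omega : (0 : ℤ) ≤ n)
  refine (pr_Ht_le' (R := R) (dd_univ 0 subset_union_left) (wl_univ ξ) (fun v _ hv a ha b hb => ?_)
    (ok_dd 0 R fin) (ok_two (k := 0) hR.fin (by simpa using h01)) ?_).trans
    (le_trans (pr_mono ?_) ((h R _ I x n N hR fin subset_union_left h1 h2 hw
      subset_union_right).trans ?_))
  · rw [hb hv]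
    by_cases hv' : v ∈ Oc R I x (N + 2)
    · have := ha.1 hv
      have := hO v hv' hv
      omega
    · have := ha.2 fun h => h.elim hv hv'
      have := h01 v hv
      omega
  · rintro a b _ _ e ha ⟨p, hp, hp1, p', hp2, c⟩
    exact ha ⟨p, hp, hp1, p', hp2, c.mono fun q hq => ⟨hq.1, (e q (sub_cl _ hq.1)).trans hq.2⟩⟩
  · rintro g - ⟨p, hp, hp1, p', hp2, c⟩ hs
    obtain ⟨a, b, c1, ab, hb, -⟩ := c.exit (Bx_mono h2 hp1) hp2
    have k : ∀ q, Conn (R ∩ {q | g q ≤ -1} ∩ Bx x N) p q →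
        q ∉ {v | g v = 0 ∨ g v = 1} ∪ (Oc R I x (N + 2))ᶜ := by
      rintro q hq (h | h)
      · have h1 : g q ≤ -1 := hq.right.1.2
        have h2 : g q = 0 ∨ g q = 1 := h
        omega
      · exact h ⟨p, hp, nconn_of_conn hq (fun _ h => h.1.1) fun _ h => Bx_mono (by omega) h.2⟩
    exact hs p hp1 b hb (((c1.cluster.nconn k).mono subset_rfl (subset_univ _)).tail ab trivial
      fun h => k a c1 h.1)
  · have : ((n : ℝ) / N) ^ α ≤ z / C := by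
      refine (Real.rpow_le_rpow (by positivity) ((div_le_iff₀ N0).2 h3) hα.le).trans (le_of_eq ?_)
      rw [Real.rpow_inv_rpow (by positivity) hα.ne']
    calc C * ((n : ℝ) / N) ^ α ≤ C * (z / C) := mul_le_mul_of_nonneg_left this hC.le
      _ = z := by field_simp

variable {W : Wall} {ξ : V → ℤ} {z0 x u : V} {d r m ρ M : ℤ} {i0 i1 : ℕ} {U : Set V}

/-- a high crosscut in the ring between the radii `m` and `M` -/
def Xe (W : Wall) (i0 i1 : ℕ) (x u : V) (m ρ M : ℤ) : Set (V → ℤ) :=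
  {g | W.Crs i0 i1 (Bx x (2 * ρ)) u (W.R ∩ (Bx x M \ Bx x m) ∩ {q | 1 ≤ g q})}

lemma Xe_dep : Dep (Bx x M) (Xe W i0 i1 x u m ρ M) := by
  rintro g g' e ⟨a, ha, b, hb, h1, h2, u', v', h3, h4, c⟩
  exact ⟨a, ha, b, hb, h1, h2, u', v', h3, h4,
    c.mono fun q hq => ⟨hq.1, (e q hq.1.2.1 ▸ hq.2 : 1 ≤ g' q)⟩⟩

/-- a high crosscut blocks the low arms -/
lemma Xe_block (hP : W.Pocket ξ z0 x d r i0 i1 U 1) (hd : W.Dist x d) (hu : u ∈ U)
    (hm : d + 1 ≤ m) (hρ : 2 * ρ ≤ r - 2) (hM : M ≤ r - 2) {g : V → ℤ}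
    (hX : g ∈ Xe W i0 i1 x u m ρ M) : ¬Arm W.R U x d {v | g v ≤ 0} := by
  rintro ⟨p, hp, v, w, c, vw, hw⟩
  obtain ⟨_, ⟨a, a1, a2, rfl⟩, _, ⟨b, b1, b2, rfl⟩, h1, h2, u', v', h3, h4, c'⟩ := hX
  have hx : x ∈ Bx x (d - 1) := mem_Bx_ds.2 (by rw [ds_self]; have := hd.1; omega)
  have s1 : Bx x d ⊆ Bx x d ∪ W.R ∩ {v | g v ≤ 0} ∪ Uᶜ := fun _ h => Or.inl (Or.inl h)
  have k1 : DConn W.R W.γ (Bx x d ∪ W.R ∩ {v | g v ≤ 0} ∪ Uᶜ) x p := by
    have k : ∀ q ∈ Bx x (d - 1), DConn W.R W.γ (Bx x d ∪ W.R ∩ {v | g v ≤ 0} ∪ Uᶜ) x q :=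
      fun q hq => DConn.of_conn (Bx_conn hx hq) hd.2.1 ((Bx_mono (by omega)).trans s1)
    rcases hp with hp | ⟨q, hq, e⟩
    · exact k p hp
    · exact (k q hq).tail ⟨e, Or.inl (hd.2.1 hq)⟩ (s1 (by simpa using Bx_adj hq e))
  have far : ∀ {q q' : V}, Adj q q' → q' ∉ Bx x m → q ∉ Bx x d := fun e h h' =>
    h (Bx_mono hm (Bx_adj h' e))
  have ua := hP.closed u hu _ (NConn.mono h1 subset_rfl (Bx_mono hρ))
  have ub := hP.closed u hu _ (NConn.mono h2 subset_rfl (Bx_mono hρ))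
  refine W.nc i0 a i1 b a1 a2 b1 b2 _
    ({W.γ a, W.γ b} ∪ {q | Conn (W.R ∩ (Bx x M \ Bx x m) ∩ {q | 1 ≤ g q}) u' q})
    ((((((DConn.of_nconn hP.near).mono s1).symm.trans k1).trans
      (DConn.of_conn c inter_subset_left fun _ h => Or.inl (Or.inr h))).tail
        ⟨vw, Or.inl c.right.1⟩ (Or.inr hw)).trans
      ((hP.rest w hw (W.bd v c.right.1 w vw)).mono subset_union_right))
    ((((DConn.refl (Or.inl (Or.inl rfl))).tail ⟨h3, Or.inr (Or.inl c'.left.1.1)⟩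
      (Or.inr (Conn.refl c'.left))).trans (DConn.of_conn c'.cluster (fun _ h => h.right.1.1)
        subset_union_right)).tail ⟨h4, Or.inl c'.right.1.1⟩ (Or.inl (Or.inr rfl)))
    (disjoint_right.2 ?_)
  rintro q ((rfl | rfl) | hq) ((h | h) | h)
  · exact far h3 c'.left.1.2.2 h
  · exact W.out a h.1
  · exact h ua
  · exact far h4.symm c'.right.1.2.2 h
  · exact W.out b h.1
  · exact h ub
  · exact hq.right.1.2.2 (Bx_mono (by omega) h)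
  · have h1 : 1 ≤ g q := hq.right.2
    have h2 : g q ≤ 0 := h.2
    omega
  · refine h (hP.closed _ ua q (((NConn.refl (P := W.Rᶜ) (Bx_mono hρ h1.right)).tail h3
      (Bx_mono hM c'.left.1.2.1) fun h => h.2 c'.left.1.1).trans ?_))
    exact nconn_of_conn hq (fun _ h => h.1.1) fun _ h => Bx_mono hM h.1.2.1

/-- one scale -/
lemma arm_step {c z t : ℝ} (hc : c ≤ 1)
    (hx : ∀ (R : Set V) (ξ : V → ℤ), Cls R → R ⊆ W.R → Ok (HD R ξ) → Bd R ξ (Ici 0) →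
      (∀ q, W.IC (Bx x (2 * ρ)) u q → q ∉ Bx x (ρ / 4) →
        (q ∈ W.R → q ∈ R) ∧ (q ∉ W.R → 1 ≤ ξ q)) →
      c ≤ Pr (HD R ξ) {g | W.Crs i0 i1 (Bx x (2 * ρ)) u (R ∩ {q | 1 ≤ g q})})
    (hz : ∀ (I : Set V) (n N : ℤ), 1 ≤ n → n ≤ N → (n : ℝ) ≤ t * N → (∃ w ∈ Bx x n, w ∉ W.R) →
      (∀ v ∈ Oc W.R I x (N + 2), v ∉ W.R → ξ v = 1) → Pr (HD W.R ξ) (Low W.R I x n N) ≤ z)
    (h01 : ∀ v, v ∉ W.R → ξ v = 0 ∨ ξ v = 1) (hP : W.Pocket ξ z0 x d r i0 i1 U 1) (hu : u ∈ U)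
    (d0 : 0 ≤ d) (hm : d ≤ m) (h1 : m + 1 ≤ ρ / 4 - 1) (h2 : 2 * ρ + 1 ≤ M - 1)
    (h3 : M + 1 ≤ r - 2) (t1 : ((m + 1 : ℤ) : ℝ) ≤ t * (ρ / 4 - 1 : ℤ))
    (t2 : ((2 * ρ + 1 : ℤ) : ℝ) ≤ t * (M - 1 : ℤ)) {N : Set (V → ℤ)} (hN : Dep (Bx x m) N) :
    Pr (HD W.R ξ) (N ∩ (Xe W i0 i1 x u m ρ M)ᶜ) ≤ (1 - c) * Pr (HD W.R ξ) N + 2 * z := by
  set A := Bx x M \ Bx x m with hA
  set K : (V → ℤ) → Set V := SK (Iic (-1)) univ Aᶜ with hK
  set Z : Set (V → ℤ) :=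
    {g | ∀ q, W.IC (Bx x (2 * ρ)) u q → q ∉ Bx x (ρ / 4) → q ∈ W.R → q ∉ cl (K g)} with hZ
  have g0 : W.γ i0 ∈ Bx x d := hP.near.right
  have flat : ∀ k, k ≤ r - 2 → ∀ q, W.IC (Bx x k) u q → q ∉ W.R → ξ q = 1 := fun k hk q hq h =>
    hP.flat q (hP.closed u hu q (NConn.mono hq subset_rfl (Bx_mono hk))) h
  have co : CoConn (W.R \ Aᶜ) := coConn_diff' W.coconn fun q hq => by
    by_cases h : q ∈ Bx x m
    · exact ⟨_, W.out i0, (Bx_conn (Bx_mono hm g0) h).mono fun _ h => Or.inl fun h' => h'.2 h⟩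
    · obtain ⟨o, ho⟩ := (W.fin.union (Bx_finite x M)).exists_notMem
      exact ⟨o, fun h => ho (Or.inl h), (coBx_conn (fun h => ho (Or.inr h))
        fun h' => hq ⟨h', h⟩).mono fun _ h => Or.inl fun h' => h h'.1⟩
  have p1 : Pr (HD W.R ξ) (N ∩ (Xe W i0 i1 x u m ρ M)ᶜ ∩ Z) ≤ (1 - c) * Pr (HD W.R ξ) N := by
    rw [pr_HD_stop (stop_SK (Iic (-1)) univ Aᶜ), pr_eq _ N, ← ex_mul]
    refine ex_mono fun a ha => ?_
    have cs : Cls (W.R \ cl (K a)) := cls_SK W.fin co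
    have o := Lp.ok ha.1 cs.fin
    have bd : Bd (W.R \ cl (K a)) a (Ici 0) := fun q h1 h2 => by
      obtain ⟨-, h | h | h⟩ := SK_bd h1 h2
      · have := h01 q h.1
        have e : a q = ξ q := ha.2 q h.1
        show 0 ≤ a q
        omega
      · exact absurd trivial h
      · have : ¬a q ≤ -1 := h
        show 0 ≤ a q
        omega
    by_cases h : a ∈ N ∧ a ∈ Z
    · have := hx _ a cs sdiff_subset o bd fun q q1 q2 => ⟨fun h' => ⟨h', h.2 q q1 q2 h'⟩,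
        fun h => ((ha.2 q h).trans (flat _ (by omega) q q1 h)).ge⟩
      rw [indicator_of_mem h.1, Pi.one_apply, mul_one]
      refine le_trans (pr_mono ?_) ((pr_compl o _).le.trans (sub_le_sub_left this 1))
      rintro g - hg ⟨a, ha, b, hb, h1, h2, u', v', h3, h4, c⟩
      exact hg.1.2 ⟨a, ha, b, hb, h1, h2, u', v', h3, h4, c.mono fun q hq =>
        ⟨⟨hq.1.1, by_contra fun h => hq.1.2 (sub_cl _ (sub_SK h))⟩, hq.2⟩⟩
    · rw [pr_none fun g hg hg' => h ⟨hN g a (fun q hq => hg.2 q fun h' =>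
        h'.2 (sub_cl _ (sub_SK fun h'' => h''.2 hq))) hg'.1.1, fun q q1 q2 q3 => by
          rw [show K a = K g from (SK_eq hg).symm]; exact hg'.2 q q1 q2 q3⟩]
      exact mul_nonneg (sub_nonneg.2 hc) (indicator_nonneg (fun _ _ => zero_le_one) _)
  set O := Oc W.R {u} x (M + 1) with hO
  have fo : ∀ k, k ≤ M + 1 → ∀ v ∈ Oc W.R O x k, v ∉ W.R → ξ v = 1 := by
    rintro k hk v ⟨p, ⟨_, rfl, c1⟩, c2⟩ hv
    exact flat _ h3 v (c1.trans (c2.mono subset_rfl (Bx_mono hk))) hv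
  have p2 : Pr (HD W.R ξ) Zᶜ ≤ 2 * z := by
    refine (pr_le_add (B := Low W.R O x (2 * ρ + 1) (M - 1))
      (C := Low W.R O x (m + 1) (ρ / 4 - 1)) fun g hg hZ' => ?_).trans ?_
    · simp only [hZ, mem_compl_iff, mem_ofPred_eq] at hZ'
      push Not at hZ'
      obtain ⟨q, q1, q2, q3, q4⟩ := hZ'
      obtain ⟨p, p1, p2, p3, p4⟩ : ∃ p ∈ K g, p ∈ O ∧ p ∈ Bx x (2 * ρ + 1) ∧
          p ∉ Bx x (ρ / 4 - 1) := by
        have qO : q ∈ O := ⟨u, rfl, NConn.mono q1 subset_rfl (Bx_mono (by omega))⟩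
        rcases q4 with q4 | ⟨p, hp, e⟩
        · exact ⟨q, q4, qO, Bx_mono (by omega) q1.right, fun h => q2 (Bx_mono (by omega) h)⟩
        · have := Bx_adj q1.right e.symm
          exact ⟨p, hp, Oc_step qO e.symm (Bx_mono (by omega) this) (Or.inl q3), this,
            fun h => q2 (by simpa using Bx_adj h e)⟩
      rcases p1 with p1 | ⟨o, ho, w, e, c⟩
      · exact absurd ⟨Bx_mono (by omega) p3, fun h => p4 (Bx_mono (by omega) h)⟩ p1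
      have c' : Conn (W.R ∩ {q | g q ≤ -1}) p w := c.symm.mono fun y hy => ⟨by_contra fun h => by
        have := h01 y h
        have e1 : g y = ξ y := hg.2 y h
        have e2 : g y ≤ -1 := hy.2
        omega, hy.2⟩
      by_cases h : ∃ p', p' ∉ Bx x (M - 1) ∧ Conn (W.R ∩ {q | g q ≤ -1}) p p'
      · exact Or.inl ⟨p, p2, p3, h⟩
      push Not at h
      have hin : ∀ y, Conn (W.R ∩ {q | g q ≤ -1}) p y → y ∈ Bx x (M - 1) := fun y hy =>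
        by_contra fun h' => h y h' hy
      have om : o ∈ Bx x m := by_contra fun h' =>
        ho ⟨by simpa using Bx_adj (hin w c') e.symm, h'⟩
      refine Or.inr ⟨w, ?_, Bx_adj om e, p, p4, c'.symm⟩
      exact c'.ind (P := fun y => y ∈ O) p2 fun a b ha ab hb ih =>
        Oc_step ih ab (Bx_mono (by omega) (hin b (ha.tail ab hb))) (Or.inr hb.1)
    · have a1 := hz O (2 * ρ + 1) (M - 1) (by omega) h2 t2 ⟨_, Bx_mono (by omega) g0, W.out i0⟩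
        (fo _ (by omega))
      have a2 := hz O (m + 1) (ρ / 4 - 1) (by omega) h1 t1 ⟨_, Bx_mono (by omega) g0, W.out i0⟩
        (fo _ (by omega))
      linarith
  rw [pr_split _ _ Z]
  exact add_le_add p1 ((pr_mono fun _ _ h => h.2).trans p2)

theorem armSt (hx : XSt) (hz : ZSt) : ArmSt := by
  intro η hη
  obtain ⟨c0, hc0, r0, hx⟩ := hx
  set c := min c0 (1 / 2) with hc
  have c1 : c ≤ 1 / 2 := min_le_right _ _
  have c2 : 0 < c := lt_min hc0 (by norm_num)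
  obtain ⟨J, hJ⟩ := exists_pow_lt_of_lt_one (half_pos hη) (by linarith : 1 - c < 1)
  obtain ⟨t, ht, hz⟩ := low_le hz (η / (4 * (J + 1))) (by positivity)
  obtain ⟨Λ, L1, L2, L3⟩ : ∃ Λ : ℤ, 16 ≤ Λ ∧ r0 ≤ Λ ∧ 16 ≤ t * Λ := by
    obtain ⟨n, hn⟩ := exists_nat_ge (16 / t)
    refine ⟨max (max 16 r0) n, by omega, by omega, ?_⟩
    have : (n : ℝ) ≤ (max (max 16 r0) n : ℤ) := by exact_mod_cast le_max_right _ _
    rw [div_le_iff₀ ht] at hn
    nlinarith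
  refine ⟨2 * (Λ * Λ) ^ J + 3, fun W ξ z0 x d r i0 i1 U h01 hd hr hP => ?_⟩
  have d1 := hd.1
  have o : Ok (HD W.R ξ) := ok_two (k := 0) W.fin (by simpa using h01)
  have key : ∀ j, j ≤ J → ∃ N, Dep (Bx x (2 * d * (Λ * Λ) ^ j)) N ∧
      (∀ g, Arm W.R U x d {v | g v ≤ 0} → g ∈ N) ∧
      Pr (HD W.R ξ) N ≤ (1 - c) ^ j + j * (2 * (η / (4 * (J + 1)))) := by
    intro j
    induction j with
    | zero => exact fun _ => ⟨univ, Dep.univ _, fun _ _ => trivial, by simpa using pr_le_one _ _⟩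
    | succ j ih =>
      intro hj
      obtain ⟨N, n1, n2, n3⟩ := ih (by omega)
      have l1 : (1 : ℤ) ≤ Λ * Λ := by nlinarith
      have q1 : (1 : ℤ) ≤ (Λ * Λ) ^ j := one_le_pow₀ l1
      have q2 : (Λ * Λ) ^ (j + 1) ≤ (Λ * Λ) ^ J := pow_le_pow_right₀ l1 hj
      rw [pow_succ, ← mul_assoc]
      obtain ⟨m, hm⟩ : ∃ m, m = 2 * d * (Λ * Λ) ^ j := ⟨_, rfl⟩
      have m1 : 2 * d ≤ m := by nlinarith
      have m2 : m * Λ * Λ + 3 ≤ r := by
        rw [pow_succ] at q2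
        have : m * Λ * Λ = 2 * d * ((Λ * Λ) ^ j * (Λ * Λ)) := by rw [hm]; ring
        nlinarith
      rw [← hm] at n1 ⊢
      rw [← mul_assoc]
      have m3 : 16 * m ≤ m * Λ := by nlinarith
      have m4 : Λ ≤ m * Λ := by nlinarith
      obtain ⟨ρ, hρ⟩ : ∃ ρ, ρ = m * Λ := ⟨_, rfl⟩
      have m5 : 16 * ρ ≤ ρ * Λ := by nlinarith
      have t1 : ((m + 1 : ℤ) : ℝ) ≤ t * (ρ / 4 - 1 : ℤ) := by
        have e1 : ((m + 1 : ℤ) : ℝ) ≤ 2 * m := by exact_mod_cast (by omega : m + 1 ≤ 2 * m)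
        have e2 : (m : ℝ) * Λ ≤ 8 * (ρ / 4 - 1 : ℤ) := by
          exact_mod_cast (by omega : m * Λ ≤ 8 * (ρ / 4 - 1))
        have e3 : (0 : ℝ) ≤ m := by exact_mod_cast (by omega : 0 ≤ m)
        nlinarith
      have t2 : ((2 * ρ + 1 : ℤ) : ℝ) ≤ t * (ρ * Λ - 1 : ℤ) := by
        have e1 : ((2 * ρ + 1 : ℤ) : ℝ) ≤ 8 * ρ := by
          exact_mod_cast (by omega : 2 * ρ + 1 ≤ 8 * ρ)
        have e2 : (ρ : ℝ) * Λ ≤ 2 * (ρ * Λ - 1 : ℤ) := by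
          exact_mod_cast (by omega : ρ * Λ ≤ 2 * (ρ * Λ - 1))
        have e3 : (0 : ℝ) ≤ ρ := by exact_mod_cast (by omega : 0 ≤ ρ)
        nlinarith
      rw [← hρ] at m2 m3 m4 ⊢
      obtain ⟨M, hM⟩ : ∃ M, M = ρ * Λ := ⟨_, rfl⟩
      rw [← hM] at m2 m5 t2 ⊢
      obtain ⟨u, hu, v, u1, u2, u3⟩ := hP.cut ρ (by omega) (by omega)
      have st := arm_step (c := c) (m := m) (M := M) (by linarith)
        (fun R ξ' a1 a2 a3 a4 a5 => (min_le_left _ _).trans (hx W i0 i1 x u v ρ R ξ' hP.lt hP.lt'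
          (by omega) (Bx_mono (by omega) hP.near.right)
          (fun h => hP.far (Bx_mono (by omega) h)) u1 u2 u3 a1 a2 a3 a4 a5))
        (fun I n N => hz W.R I ξ x n N ⟨W.fin, W.coconn⟩ h01) h01 hP hu (by omega) (by omega)
        (by omega) (by omega) (by omega) t1 t2 n1
      refine ⟨N ∩ (Xe W i0 i1 x u m ρ M)ᶜ, (n1.mono (Bx_mono (by omega))).inter Xe_dep.compl,
        fun g hg => ⟨n2 g hg, fun h => Xe_block hP hd hu (by omega) (by omega) (by omega) h hg⟩,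
        st.trans ?_⟩
      have := mul_le_mul_of_nonneg_left n3 (by linarith : 0 ≤ 1 - c)
      have e : (0 : ℝ) ≤ c * (j * (2 * (η / (4 * (J + 1))))) := by positivity
      push_cast
      rw [pow_succ]
      nlinarith
  obtain ⟨N, -, n2, n3⟩ := key J le_rfl
  refine (pr_mono fun g _ => n2 g).trans (n3.trans ?_)
  have : (J : ℝ) * (2 * (η / (4 * (J + 1)))) ≤ η / 2 := by
    rw [show (J : ℝ) * (2 * (η / (4 * (J + 1)))) = η / 2 * (J / (J + 1)) by field_simp; ring]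
    exact mul_le_of_le_one_right (half_pos hη).le ((div_le_one (by positivity)).2 (by linarith))
  linarith

end Pool.Agent.Lib.MP_6359c9_pr
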