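import Pool.Agent.Lib.MP_6359c9_pr.HBase

/-! Attachment: the high cluster of the visible wall reaches the bulk. -/

namespace Pool.Agent.Lib.MP_6359c9_pr

open Set

/-- Cauchy-Schwarz for the height at `y` on an event that is determined off `U` -/
lemma at_cs {T : V → Set ℤ} {U : Set V} (hU : U.Finite) (h : ∀ v ∈ U, T v = univ) (y : V)
    {A : Set (V → ℤ)} (hA : Dep Uᶜ A) {C : ℝ}
    (hC : Ex (Ht T) (fun g => |mn U y g - ((0 : ℤ) : ℝ)| ^ 2) ≤ C) :
    Ex (Ht T) (fun g => (g y : ℝ) * A.indicator 1 g) ^ 2 ≤ C * Pr (Ht T) A := by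
  have e := ex_mn hU h y 0 hA.ind
  simp only [sub_zero] at e
  rw [e]
  refine (ex_mul_sq_le _ _ _).trans ?_
  have e2 : Ex (Ht T) (fun g => (A.indicator (1 : (V → ℤ) → ℝ) g) ^ 2) = Pr (Ht T) A := by
    rw [pr_eq]
    refine ex_congr fun g _ => ?_
    by_cases hg : g ∈ A <;> simp [hg]
  rw [e2]
  refine mul_le_mul_of_nonneg_right (le_trans (le_of_eq (ex_congr fun g _ => ?_)) hC)
    (pr_nonneg _ _)
  simp

lemma at_split {M A : Set (V → ℤ)} (f : (V → ℤ) → ℝ) :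
    Ex M f = Ex M (fun g => f g * A.indicator 1 g) + Ex M fun g => f g * Aᶜ.indicator 1 g := by
  rw [← ex_add]
  refine ex_congr fun g _ => ?_
  by_cases hg : g ∈ A <;> simp [hg]

lemma at_adj {y u v : V} {m : ℤ} (hu : u ∈ Bx y m) (e : Adj u v) : v ∈ Bx y (m + 1) :=
  cl_Bx y m (mem_cl hu e)

/-- the sites at the level of the wall, or invisible -/
def atP (O : Set V) (g : V → ℤ) : Set V := {v | g v = 0 ∨ g v = 1} ∪ Oᶜ

open Classical in
/-- reflection of the heights inside the outermost separator -/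
noncomputable def atF (O Z : Set V) (g : V → ℤ) (v : V) : ℤ :=
  if v ∈ O ∧ v ∉ NK (atP O g) Z then 1 - g v else g v

lemma atP_F (O Z : Set V) (g : V → ℤ) : atP O (atF O Z g) = atP O g := by
  ext v
  refine or_congr_left ?_
  show atF O Z g v = 0 ∨ atF O Z g v = 1 ↔ g v = 0 ∨ g v = 1
  rw [atF]
  split_ifs <;> omega

lemma atF_F (O Z : Set V) (g : V → ℤ) : atF O Z (atF O Z g) = g := by
  funext v
  rw [atF, atP_F, atF]
  split_ifs <;> omega

lemma atF_mem {R L I : Set V} {y : V} {N : ℤ} (hO : Oc R I y (N + 2) ⊆ L) {g : V → ℤ}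
    (hg : g ∈ Ht (dd 0 R L)) : atF (Oc R I y (N + 2)) (Bx y N)ᶜ g ∈ Ht (dd 0 R L) := by
  have key : ∀ u v, Adj u v →
      (u ∈ Oc R I y (N + 2) ∧ u ∉ NK (atP (Oc R I y (N + 2)) g) (Bx y N)ᶜ) →
      ¬(v ∈ Oc R I y (N + 2) ∧ v ∉ NK (atP (Oc R I y (N + 2)) g) (Bx y N)ᶜ) →
      (g u = 0 ∨ g u = 1) ∧ (g v = 0 ∨ g v = 1) := by
    intro u v e hu hv
    by_cases o : v ∈ Oc R I y (N + 2)
    · have k := NK_bd (by_contra fun h => hv ⟨o, h⟩) hu.2 e.symm
      exact ⟨k.2.resolve_right fun h => h hu.1, k.1.resolve_right fun h => h o⟩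
    · have b : u ∈ Bx y N := by_contra fun h => hu.2 (sub_NK _ _ h)
      have n : u ∉ R ∧ v ∉ R := by_contra fun h => o (by
        obtain ⟨i, hi, c⟩ := hu.1
        exact ⟨i, hi, c.tail e (Bx_mono (by omega) (at_adj b e)) h⟩)
      exact ⟨by simpa using (hg.2 u).1 n.1, by simpa using (hg.2 v).1 n.2⟩
  refine ⟨fun u v e => ?_, fun v => ⟨fun hv => ?_, fun hv => ?_⟩⟩
  · have h0 := hg.1 u v e
    simp only [atF]
    split_ifs with hu hv hv
    · unfold Hp at *; omega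
    · have := key u v e hu hv
      unfold Hp; omega
    · have := key v u e.symm hv hu
      unfold Hp; omega
    · exact h0
  · have := (hg.2 v).1 hv
    simp only [atF]
    split_ifs <;> omega
  · rw [atF, if_neg fun h => hv (hO h.1)]
    exact (hg.2 v).2 hv

/-- symmetry on the event that a separator exists -/
lemma at_half {R L I J : Set V} {y : V} {N : ℤ} (hO : Oc R I y (N + 2) ⊆ L)
    (hy : y ∈ Oc R I y (N + 2)) (hJ : y ∈ J) :
    Ex (Ht (dd 0 R L)) (fun g => (g y : ℝ) *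
      {g | Sep (atP (Oc R I y (N + 2)) g) J (Bx y N)ᶜ}.indicator 1 g) =
    Pr (Ht (dd 0 R L)) {g | Sep (atP (Oc R I y (N + 2)) g) J (Bx y N)ᶜ} / 2 := by
  set G : Set (V → ℤ) := {g | Sep (atP (Oc R I y (N + 2)) g) J (Bx y N)ᶜ} with hG
  have b := bij_of_inv (φ := atF (Oc R I y (N + 2)) (Bx y N)ᶜ)
    (ψ := atF (Oc R I y (N + 2)) (Bx y N)ᶜ) (fun _ => atF_mem hO) (fun _ => atF_mem hO)
    (fun x _ => atF_F _ _ x) fun x _ => atF_F _ _ x
  have e := ex_bij b fun g => (g y : ℝ) * G.indicator 1 g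
  have e2 : Ex (Ht (dd 0 R L)) (fun g => ((atF (Oc R I y (N + 2)) (Bx y N)ᶜ g y : ℤ) : ℝ) *
      G.indicator 1 (atF (Oc R I y (N + 2)) (Bx y N)ᶜ g)) =
      Ex (Ht (dd 0 R L)) fun g => G.indicator 1 g - (g y : ℝ) * G.indicator 1 g := by
    refine ex_congr fun g _ => ?_
    have i : atF (Oc R I y (N + 2)) (Bx y N)ᶜ g ∈ G ↔ g ∈ G := by
      simp only [hG, mem_ofPred_eq, atP_F]
    by_cases hg : g ∈ G
    · have n : y ∉ NK (atP (Oc R I y (N + 2)) g) (Bx y N)ᶜ := fun h =>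
        sep_iff.1 (Sep.symm hg) y h hJ
      rw [indicator_of_mem (i.2 hg), indicator_of_mem hg, atF, if_pos ⟨hy, n⟩]
      simp
    · rw [indicator_of_notMem (fun h => hg (i.1 h)), indicator_of_notMem hg]
      simp
  rw [e2, ex_sub, ← pr_eq] at e
  linarith

/-- the mean height at `y` is positive when the visible wall is free in `{0, 1}` -/
theorem at_low (hz : ZSt) (hm : MbSt) : ∃ K : ℤ, 2 ≤ K ∧ ∀ (R L : Set V) (y : V) (d : ℤ), Cls R →
    L.Finite → R ⊆ L → 4 ≤ d → Bx y (d - 1) ⊆ R → (∃ w ∈ Bx y d, w ∉ R) →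
    Oc R {y} y (K * d) ⊆ L → 1 / 4 ≤ Ex (Ht (dd 0 R L)) fun g => (g y : ℝ) := by
  obtain ⟨C, α, hC, hα, H⟩ := hz
  obtain ⟨C', hC', H'⟩ := hm 2
  have hε : 0 < min (1 / 4) (1 / (64 * C')) / C := by positivity
  obtain ⟨m, hm1, hm2⟩ : ∃ m : ℕ, 1 ≤ m ∧ (m : ℝ) ^ (-α) < min (1 / 4) (1 / (64 * C')) / C :=
    ((Filter.eventually_ge_atTop 1).and (((tendsto_rpow_neg_atTop hα).comp
      tendsto_natCast_atTop_atTop).eventually (gt_mem_nhds hε))).exists
  refine ⟨m + 1, by omega, fun R L y d hR hL hRL hd hB hw hO => ?_⟩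
  obtain ⟨N, hN⟩ : ∃ N : ℤ, ((m : ℤ) + 1) * d = N + 2 := ⟨(m + 1) * d - 2, by ring⟩
  have hN1 : m * d ≤ N := by nlinarith
  have hN2 : d ≤ N := by nlinarith
  rw [hN] at hO
  set G : Set (V → ℤ) := {g | Sep (atP (Oc R {y} y (N + 2)) g) (Bx y d) (Bx y N)ᶜ} with hG
  have ok := ok_dd 0 R hL
  have h1 : Pr (Ht (dd 0 R L)) Gᶜ ≤ min (1 / 4) (1 / (64 * C')) := by
    refine (H R L {y} y d N hR hL hRL (by omega) hN2 hw hO).trans ?_
    have d0 : (0 : ℝ) < d := by exact_mod_cast (by omega : (0 : ℤ) < d)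
    have m0 : (0 : ℝ) < m := by exact_mod_cast hm1
    have n1 : (m : ℝ) * d ≤ N := by exact_mod_cast hN1
    have : ((d : ℝ) / N) ^ α ≤ (m : ℝ) ^ (-α) := by
      rw [Real.rpow_neg m0.le, ← Real.inv_rpow m0.le]
      refine Real.rpow_le_rpow (div_nonneg d0.le (by nlinarith)) ?_ hα.le
      rw [div_le_iff₀ (by nlinarith), inv_mul_eq_div, le_div_iff₀ m0]
      linarith
    rw [lt_div_iff₀ hC] at hm2
    nlinarith
  have hy : y ∈ Bx y (d - 1) := by rw [mem_Bx]; omega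
  have h2 : Ex (Ht (dd 0 R L)) (fun g => (g y : ℝ) * G.indicator 1 g) =
      Pr (Ht (dd 0 R L)) G / 2 :=
    at_half hO ⟨y, rfl, NConn.refl (by rw [mem_Bx]; omega)⟩ (Bx_mono (by omega) hy)
  have h3 : Ex (Ht (dd 0 R L)) (fun g => (g y : ℝ) * Gᶜ.indicator 1 g) ^ 2 ≤
      C' * Pr (Ht (dd 0 R L)) Gᶜ := by
    refine at_cs (U := Bx y (d - 1)) (Bx_finite _ _) (fun v hv => dd_univ 0 hRL v (hB hv)) y
      (Dep.compl fun a b e s => Sep.loc s fun v hv _ h => ?_) ?_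
    · have n : v ∉ Bx y (d - 1) := by
        rcases hv with hv | ⟨u, hu, a⟩
        · exact fun h => hv (Bx_mono (by omega) h)
        · exact fun h => hu (by simpa using at_adj h a.symm)
      simpa only [atP, mem_union, mem_ofPred_eq, e v n] using h
    · rw [ex_Ht_cond (dd_univ 0 hRL)]
      refine ex_le ok fun x hx => ?_
      have := H' R (Bx y (d - 1)) x 0 y d d hR (Lp.ok hx.1 hR.fin)
        (fun v _ hv => by have := (hx.2 v).1 hv; constructor <;> omega) (by omega) le_rfl hw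
        (hB hy) hB (Bx_mono (by omega))
      rwa [div_self (by exact_mod_cast (by omega : d ≠ 0)), Real.log_one, add_zero, one_pow,
        mul_one] at this
  rw [at_split (A := G), h2]
  have h4 := pr_compl ok G
  have h5 : C' * Pr (Ht (dd 0 R L)) Gᶜ ≤ 1 / 64 := by
    have := mul_le_mul_of_nonneg_left (h1.trans (min_le_right _ _)) hC'.le
    rwa [show C' * (1 / (64 * C')) = 1 / 64 by field_simp] at this
  have h6 := h1.trans (min_le_left _ _)
  have h7 := (abs_le_of_sq_le_sq' (b := (1 / 8 : ℝ)) (h3.trans (h5.trans (by norm_num)))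
    (by norm_num)).1
  linarith

/-- if the high cluster of `S` stays away from `B`, the mean height at `y` is not positive -/
theorem at_off {R S B : Set V} {ξ : V → ℤ} {y : V} (hR : R.Finite) (hy : y ∈ R) (hB : y ∈ B)
    (h0 : ∀ v, v ∉ R → v ∉ S → ξ v ≤ 0) {A : Set V} (hA : cl B ⊆ A) :
    Ex (HD R ξ) (fun g => (g y : ℝ) *
      {g | ∃ v ∈ SK (Ici 1) (R \ B) S g, v ∈ A}ᶜ.indicator 1 g) ≤ 0 := by
  rw [← ex_zero (HD R ξ)]
  refine ex_HD_stop_le (stop_SK (Ici 1) (R \ B) S) fun x hx => ?_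
  rw [ex_zero, ex_congr (g := fun g => (g y : ℝ) *
    {g | ∃ v ∈ SK (Ici 1) (R \ B) S g, v ∈ A}ᶜ.indicator 1 x) fun g hg => ?_, ex_mul']
  swap
  · congr 1
    have : g ∈ {g | ∃ v ∈ SK (Ici 1) (R \ B) S g, v ∈ A}ᶜ ↔
        x ∈ {g | ∃ v ∈ SK (Ici 1) (R \ B) S g, v ∈ A}ᶜ := by
      simp only [mem_compl_iff, mem_ofPred_eq, SK_eq hg]
    by_cases h : x ∈ {g | ∃ v ∈ SK (Ici 1) (R \ B) S g, v ∈ A}ᶜ
    · rw [indicator_of_mem h, indicator_of_mem (this.2 h)]; rfl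
    · rw [indicator_of_notMem h, indicator_of_notMem fun h' => h (this.1 h')]
  by_cases h : x ∈ {g | ∃ v ∈ SK (Ici 1) (R \ B) S g, v ∈ A}ᶜ
  swap
  · rw [indicator_of_notMem h, mul_zero]
  rw [indicator_of_mem h, Pi.one_apply, mul_one]
  have n : ∀ v ∈ cl (SK (Ici 1) (R \ B) S x), v ∉ B := by
    rintro v (hv | ⟨u, hu, a⟩) hb
    · exact h ⟨v, hv, hA (sub_cl _ hb)⟩
    · exact h ⟨u, hu, hA (mem_cl hb a.symm)⟩
  have f : (R \ cl (SK (Ici 1) (R \ B) S x)).Finite := hR.subset sdiff_subset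
  have := mean_le (j := 0) (y := y) f (Lp.ok hx.1 f) (fun v h1 h2 => ?_)
    (sub_cl _ ⟨hy, fun k => n y k hB⟩)
  · simpa using this
  obtain ⟨k1, k2⟩ := SK_bd h1 h2
  by_cases r : v ∈ R
  · have k3 : v ∈ R \ B := ⟨r, n v (by_contra fun k => h2 ⟨r, k⟩)⟩
    have k4 : x v ∉ Ici 1 := (k2.resolve_left fun k => k.1 r).resolve_left fun k => k k3
    simp only [mem_Ici, mem_Iic] at *
    omega
  · show x v ≤ 0
    rw [hx.2 v r]
    exact h0 v r fun k => k1 (sub_SK k)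

theorem atSt (hz : ZSt) (hm : MbSt) : AtSt := by
  classical
  obtain ⟨K, hK, H⟩ := at_low hz hm
  obtain ⟨C, hC, H'⟩ := hm 2
  refine ⟨K, hK, 1 / (64 * C), by positivity, fun R ξ y d hR ok hb hd hB hw h1 => ?_⟩
  set O := Oc R {y} y (K * d) with hO
  have mO : ∀ w, w ∈ O ↔ NConn Rᶜ (Bx y (K * d)) y w := fun w =>
    ⟨fun ⟨_, hu, c⟩ => by rwa [hu] at c, fun c => ⟨y, rfl, c⟩⟩
  have fO : O.Finite := (Bx_finite y (K * d)).subset fun w hw => ((mO w).1 hw).right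
  set ζ : V → ℤ := fun v => if v ∈ O then 1 else 0 with hζ
  have two : ∀ v, ζ v = 0 ∨ ζ v = 0 + 1 := fun v => by simp only [hζ]; split_ifs <;> simp
  have ok' : Ok (HD R ζ) := ok_two hR.fin fun v _ => two v
  have hy : y ∈ Bx y (d / 2 - 1) := by rw [mem_Bx]; omega
  have sB : Bx y (d / 2) ⊆ R := (Bx_mono (by omega)).trans hB
  have sB' : Bx y (d / 2 - 1) ⊆ R := (Bx_mono (by omega)).trans hB
  set A : Set (V → ℤ) := {g | ∃ v ∈ SK (Ici 1) (R \ Bx y (d / 2 - 1)) (O \ R) g, v ∈ Bx y (d / 2)}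
    with hA
  have k1 : 1 / 4 ≤ Ex (HD R ζ) fun g => (g y : ℝ) := by
    refine (H R (R ∪ O) y d hR (hR.fin.union fO) subset_union_left hd hB hw
      subset_union_right).trans (ex_Ht_le (dd_univ 0 subset_union_left) (wl_univ ζ)
      (fun v _ h2 a ha b hb' => ?_) (ok_dd 0 R (hR.fin.union fO)) ok'
      fun a b _ _ h => by exact_mod_cast h y (sub_cl _ (sB' hy)))
    rw [hb' h2]
    have := ha.1 h2
    simp only [hζ]
    split_ifs with o
    · omega
    · exact (ha.2 fun k => k.elim h2 o).le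
  have k2 : Ex (HD R ζ) (fun g => (g y : ℝ) * Aᶜ.indicator 1 g) ≤ 0 :=
    at_off hR.fin (sB' hy) hy (fun v h2 h3 => by
      simp only [hζ]; rw [if_neg fun k => h3 ⟨k, h2⟩])
      ((cl_Bx _ _).trans (Bx_mono (by omega)))
  have k3 : Ex (HD R ζ) (fun g => (g y : ℝ) * A.indicator 1 g) ^ 2 ≤ C * 4 * Pr (HD R ζ) A := by
    refine at_cs (U := Bx y (d / 2 - 1)) (Bx_finite _ _) (fun v hv => wl_univ ζ v (sB' hv)) y
      (fun a b e s => ?_) ?_
    · rw [hA, mem_ofPred_eq, SK_congr (g := a) (g' := b) fun v _ hv => by rw [e v hv.2]]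
      exact s
    · refine (H' R (Bx y (d / 2 - 1)) ζ 0 y (d / 2 + 1) d hR ok'
        (fun v _ _ => by have := two v; constructor <;> omega) (by omega) (by omega) hw (sB' hy) sB'
        (Bx_mono (by omega))).trans (mul_le_mul_of_nonneg_left ?_ hC.le)
      have p0 : (0 : ℝ) < ((d / 2 + 1 : ℤ) : ℝ) := by exact_mod_cast (by omega : (0 : ℤ) < d / 2 + 1)
      have p1 : ((d / 2 + 1 : ℤ) : ℝ) ≤ d := by exact_mod_cast (by omega : d / 2 + 1 ≤ d)
      have p2 : (d : ℝ) ≤ 2 * ((d / 2 + 1 : ℤ) : ℝ) := by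
        exact_mod_cast (by omega : d ≤ 2 * (d / 2 + 1))
      have p3 : (1 : ℝ) ≤ d / ((d / 2 + 1 : ℤ) : ℝ) := (one_le_div p0).2 p1
      have p4 : (d : ℝ) / ((d / 2 + 1 : ℤ) : ℝ) ≤ 2 := (div_le_iff₀ p0).2 p2
      have p5 := Real.log_nonneg p3
      have p6 := Real.log_le_sub_one_of_pos (lt_of_lt_of_le one_pos p3)
      nlinarith
  rw [at_split (A := A)] at k1
  have k4 : 1 / (64 * C) ≤ Pr (HD R ζ) A := by
    rw [div_le_iff₀ (by positivity)]
    nlinarith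
  refine k4.trans ((pr_mono fun g _ h => ?_).trans (pr_HD_le (ξ := ζ) (fun v h2 h3 => ?_) ok' ok ?_))
  · obtain ⟨v, hv | ⟨o, ho, u, e, c⟩, hv'⟩ := h
    · exact absurd (sB hv') hv.2
    · exact ⟨o, ho.2, (mO o).1 ho.1, u, v, e, c.mono fun q hq => ⟨hq.1.1, hq.2⟩, hv'⟩
  · simp only [hζ]
    split_ifs with o
    · exact h1 v h3 ((mO v).1 o)
    · exact hb v h2 h3
  · rintro a b - - e ⟨w, h2, h3, u, v, h4, c, h5⟩
    exact ⟨w, h2, h3, u, v, h4, c.mono fun q hq => ⟨hq.1, le_trans hq.2 (e q (sub_cl _ hq.1))⟩, h5⟩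

end Pool.Agent.Lib.MP_6359c9_pr
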