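import Pool.Agent.Lib.MP_6359c9_pr.HSpec

/-! Height side: conditioning, comparison, means and site clusters. -/

namespace Pool.Agent.Lib.MP_6359c9_pr

open Set

variable {R U W K D O : Set V} {ξ ξ' g x : V → ℤ} {j k : ℤ} {y : V}

/-- Lipschitz functions -/
def Lp (g : V → ℤ) : Prop := ∀ u v, Adj u v → Hp (g u) (g v)

lemma mem_HD : g ∈ HD R ξ ↔ Lp g ∧ ∀ v, v ∉ R → g v = ξ v := Iff.rfl

lemma Cls.box (z : V) (m : ℤ) : Cls (Bx z m) := ⟨Bx_finite z m, Bx_coConn z m⟩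

lemma Bd.mono {A B : Set ℤ} (h : Bd R ξ A) (hA : A ⊆ B) : Bd R ξ B := fun v h1 h2 => hA (h v h1 h2)

lemma HD_finite (hR : R.Finite) (ξ : V → ℤ) : (HD R ξ).Finite :=
  Ht_finite hR fun _ hv _ ha _ hb => (ha hv).trans (hb hv).symm

lemma ok_HD (hR : R.Finite) (hx : x ∈ HD R ξ) : Ok (HD R ξ) := ⟨HD_finite hR ξ, x, hx⟩

lemma Lp.mem (h : Lp g) (U : Set V) : g ∈ HD U g := ⟨h, fun _ _ => rfl⟩

lemma Lp.ok (h : Lp g) (hU : U.Finite) : Ok (HD U g) := ok_HD hU (h.mem U)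

lemma lp_of_two (h : ∀ v, g v = k ∨ g v = k + 1) : Lp g := fun u v _ => by
  have := h u; have := h v; unfold Hp; omega

lemma ok_flat (hR : R.Finite) (j : ℤ) : Ok (HD R fun _ => j) :=
  (lp_of_two (k := j) fun _ => Or.inl rfl).ok hR

lemma ok_two (hR : R.Finite) (h : ∀ v, v ∉ R → ξ v = k ∨ ξ v = k + 1) : Ok (HD R ξ) := by
  classical
  refine ok_HD hR (x := fun v => if v ∈ R then k else ξ v) ⟨lp_of_two (k := k) fun v => ?_,
    fun v hv => if_neg hv⟩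
  split_ifs with hv
  · exact Or.inl rfl
  · exact h v hv

lemma ok_dd (k : ℤ) (U : Set V) (hW : W.Finite) : Ok (Ht (dd k U W)) :=
  ⟨Ht_finite hW fun _ hv _ ha _ hb => (ha.2 hv).trans (hb.2 hv).symm, fun _ => k,
    lp_of_two (k := k) fun _ => Or.inl rfl, fun _ => ⟨fun _ => Or.inl rfl, fun _ => rfl⟩⟩

lemma HD_frz (hx : x ∈ HD R ξ) (K : Set V) :
    HD R ξ ∩ {y | ∀ v ∈ K, y v = x v} = HD (R \ K) x :=
  Set.ext fun g => ⟨fun h => ⟨h.1.1, fun v hv => by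
      by_cases hR : v ∈ R
      · exact h.2 v (by_contra fun hK => hv ⟨hR, hK⟩)
      · exact (h.1.2 v hR).trans (hx.2 v hR).symm⟩,
    fun h => ⟨⟨h.1, fun v hv => (h.2 v fun h' => hv h'.1).trans (hx.2 v hv)⟩,
      fun v hv => h.2 v fun h' => h'.2 hv⟩⟩

lemma HD_sub (hx : x ∈ HD R ξ) (hU : U ⊆ R) : HD U x ⊆ HD R ξ := fun _ hg =>
  ⟨hg.1, fun v hv => (hg.2 v fun h => hv (hU h)).trans (hx.2 v hv)⟩

/-- a model that is free in `R`, conditioned on the outside of `R` -/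
lemma Ht_frz {T : V → Set ℤ} (h : ∀ v ∈ R, T v = univ) (hx : x ∈ Ht T) :
    Ht T ∩ {y | ∀ v ∈ Rᶜ, y v = x v} = HD R x :=
  Set.ext fun g => ⟨fun hg => ⟨hg.1.1, hg.2⟩, fun hg => ⟨⟨hg.1, fun v => by
    by_cases hv : v ∈ R
    · rw [h v hv]; trivial
    · rw [hg.2 v hv]; exact hx.2 v⟩, hg.2⟩⟩

theorem ex_Ht_cond {T : V → Set ℤ} (h : ∀ v ∈ R, T v = univ) (f : (V → ℤ) → ℝ) :
    Ex (Ht T) f = Ex (Ht T) fun x => Ex (HD R x) f := by
  rw [ex_stop (stop_const Rᶜ)]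
  exact ex_congr fun x hx => by rw [Ht_frz h hx]

/-- tower property over a stopping set -/
theorem ex_HD_stop {K : (V → ℤ) → Set V} (hK : Stop K) (R : Set V) (ξ : V → ℤ)
    (f : (V → ℤ) → ℝ) : Ex (HD R ξ) f = Ex (HD R ξ) fun x => Ex (HD (R \ K x) x) f := by
  rw [ex_stop hK]
  exact ex_congr fun x hx => by rw [HD_frz hx]

theorem ex_HD_stop_le {K : (V → ℤ) → Set V} (hK : Stop K) {f f' : (V → ℤ) → ℝ}
    (h : ∀ x ∈ HD R ξ, Ex (HD (R \ K x) x) f ≤ Ex (HD (R \ K x) x) f') :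
    Ex (HD R ξ) f ≤ Ex (HD R ξ) f' := by
  rw [ex_HD_stop hK R ξ f, ex_HD_stop hK R ξ f']
  exact ex_mono h

/-- the explored set does not change in the conditioned model -/
lemma Stop.eq {K : (V → ℤ) → Set V} (hK : Stop K) (hg : g ∈ HD (R \ K x) x) : K g = K x :=
  hK x g fun v hv => hg.2 v fun h => h.2 hv

theorem pr_HD_stop {K : (V → ℤ) → Set V} (hK : Stop K) (R : Set V) (ξ : V → ℤ)
    (A : Set (V → ℤ)) : Pr (HD R ξ) A = Ex (HD R ξ) fun x => Pr (HD (R \ K x) x) A := by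
  simp only [pr_eq]
  exact ex_HD_stop hK R ξ _

theorem ex_HD_cond (hU : U ⊆ R) (ξ : V → ℤ) (f : (V → ℤ) → ℝ) :
    Ex (HD R ξ) f = Ex (HD R ξ) fun x => Ex (HD U x) f :=
  ex_Ht_cond (fun _ hv => eq_univ_of_forall fun _ h => absurd (hU hv) h) f

/-- the conditional mean against a function of the outside -/
theorem ex_mn {T : V → Set ℤ} (hU : U.Finite) (h : ∀ v ∈ U, T v = univ) (y : V) (c : ℝ)
    {Y : (V → ℤ) → ℝ} (hY : DependsOn Y Uᶜ) :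
    Ex (Ht T) (fun g => ((g y : ℝ) - c) * Y g) = Ex (Ht T) fun g => (mn U y g - c) * Y g := by
  rw [ex_Ht_cond h]
  refine ex_congr fun x hx => ?_
  rw [ex_congr (g := fun g => ((g y : ℝ) - c) * Y x) fun g hg => by rw [hY fun v hv => hg.2 v hv],
    ex_mul', ex_sub, ex_const (Lp.ok hx.1 hU)]
  rfl

lemma mn_of_notMem (hU : U.Finite) (hg : Lp g) (hy : y ∉ U) : mn U y g = g y := by
  rw [mn, ex_congr (g := fun _ => (g y : ℝ)) fun g' h => by rw [h.2 y hy], ex_const (hg.ok hU)]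

/-! ### comparison -/

lemma exists_mono_ext {F : Set (V → ℤ)} (hF : F.Finite) (D : Set V) {f : (V → ℤ) → ℝ}
    (hf : ∀ a ∈ F, ∀ b ∈ F, (∀ v ∈ D, a v ≤ b v) → f a ≤ f b) :
    ∃ f' : (V → ℤ) → ℝ, Monotone f' ∧ DependsOn f' D ∧ ∀ a ∈ F, f' a = f a := by
  obtain ⟨c, hc⟩ := (hF.image f).bddBelow
  have fin : ∀ g : V → ℤ, (insert c (f '' (F ∩ {a | ∀ v ∈ D, a v ≤ g v}))).Finite := fun g =>
    ((hF.inter_of_left _).image f).insert c
  refine ⟨fun g => sSup (insert c (f '' (F ∩ {a | ∀ v ∈ D, a v ≤ g v}))), fun a b hab => ?_,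
    fun a b e => ?_, fun a ha => le_antisymm ?_ ?_⟩
  · exact csSup_le_csSup (fin b).bddAbove (insert_nonempty _ _) (insert_subset_insert
      (image_mono fun z hz => ⟨hz.1, fun v hv => (hz.2 v hv).trans (hab v)⟩))
  · have : {z : V → ℤ | ∀ v ∈ D, z v ≤ a v} = {z | ∀ v ∈ D, z v ≤ b v} :=
      Set.ext fun z => forall₂_congr fun v hv => by rw [e v hv]
    simp only [this]
  · refine csSup_le (insert_nonempty _ _) ?_
    rintro _ (rfl | ⟨z, hz, rfl⟩)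
    · exact hc ⟨a, ha, rfl⟩
    · exact hf z hz.1 a ha hz.2
  · exact le_csSup (fin a).bddAbove (Or.inr ⟨a, ⟨ha, fun _ _ => le_rfl⟩, rfl⟩)

/-- comparison of two models that are free in `R` and ordered on the outer boundary -/
theorem ex_Ht_le {T T' : V → Set ℤ} (h : ∀ v ∈ R, T v = univ) (h' : ∀ v ∈ R, T' v = univ)
    (hb : ∀ v ∈ cl R, v ∉ R → ∀ a ∈ T v, ∀ b ∈ T' v, a ≤ b) (o : Ok (Ht T)) (o' : Ok (Ht T'))
    {f : (V → ℤ) → ℝ} (hf : ∀ a b, Lp a → Lp b → (∀ v ∈ cl R, a v ≤ b v) → f a ≤ f b) :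
    Ex (Ht T) f ≤ Ex (Ht T') f := by
  obtain ⟨f', m, d, e⟩ := exists_mono_ext (o.1.union o'.1) (cl R) (f := f) fun a ha b hb =>
    hf a b (ha.elim And.left And.left) (hb.elim And.left And.left)
  rw [← ex_congr fun a ha => e a (Or.inl ha), ← ex_congr fun a ha => e a (Or.inr ha)]
  simpa using ht_le_bd (D := R) (Dep.univ _) (Dep.univ _)
    (fun v hv => by rw [h v hv, h' v hv]; exact sso_refl _)
    (fun a ha b hb' v h1 h2 => hb v h1 h2 _ (ha.1.2 v) _ (hb'.1.2 v)) (by simpa) (by simpa) m d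

lemma wl_univ (ξ : V → ℤ) : ∀ v ∈ R, wl R ξ v = univ := fun _ hv =>
  eq_univ_of_forall fun _ h => absurd hv h

lemma dd_univ (k : ℤ) (h : R ⊆ W) : ∀ v ∈ R, dd k R W v = univ := fun _ hv =>
  eq_univ_of_forall fun _ => ⟨fun h => absurd hv h, fun h' => absurd (h hv) h'⟩

/-- an event that is increasing in the heights on `D` -/
def Up (D : Set V) (A : Set (V → ℤ)) : Prop :=
  ∀ a b, Lp a → Lp b → (∀ v ∈ D, a v ≤ b v) → a ∈ A → b ∈ A

lemma Up.mono {A : Set (V → ℤ)} {D D' : Set V} (h : Up D A) (hD : D ⊆ D') : Up D' A :=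
  fun a b ha hb e => h a b ha hb fun v hv => e v (hD hv)

lemma Up.ind {A : Set (V → ℤ)} (h : Up D A) (a b : V → ℤ) (ha : Lp a) (hb : Lp b)
    (e : ∀ v ∈ D, a v ≤ b v) : A.indicator (1 : (V → ℤ) → ℝ) a ≤ A.indicator 1 b := by
  by_cases h1 : a ∈ A
  · simp [h1, h a b ha hb e h1]
  · rw [indicator_of_notMem h1]; exact indicator_nonneg (fun _ _ => zero_le_one) _

theorem pr_Ht_le {T T' : V → Set ℤ} (h : ∀ v ∈ R, T v = univ) (h' : ∀ v ∈ R, T' v = univ)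
    (hb : ∀ v ∈ cl R, v ∉ R → ∀ a ∈ T v, ∀ b ∈ T' v, a ≤ b) (o : Ok (Ht T)) (o' : Ok (Ht T'))
    {A : Set (V → ℤ)} (hA : Up (cl R) A) : Pr (Ht T) A ≤ Pr (Ht T') A := by
  rw [pr_eq, pr_eq]
  exact ex_Ht_le h h' hb o o' hA.ind

theorem pr_Ht_le' {T T' : V → Set ℤ} (h : ∀ v ∈ R, T v = univ) (h' : ∀ v ∈ R, T' v = univ)
    (hb : ∀ v ∈ cl R, v ∉ R → ∀ a ∈ T v, ∀ b ∈ T' v, a ≤ b) (o : Ok (Ht T)) (o' : Ok (Ht T'))
    {A : Set (V → ℤ)} (hA : Up (cl R) Aᶜ) : Pr (Ht T') A ≤ Pr (Ht T) A := by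
  have := pr_Ht_le h h' hb o o' hA
  rw [pr_compl o, pr_compl o'] at this
  linarith

theorem ex_HD_le (hb : ∀ v ∈ cl R, v ∉ R → ξ v ≤ ξ' v) (o : Ok (HD R ξ)) (o' : Ok (HD R ξ'))
    {f : (V → ℤ) → ℝ} (hf : ∀ a b, Lp a → Lp b → (∀ v ∈ cl R, a v ≤ b v) → f a ≤ f b) :
    Ex (HD R ξ) f ≤ Ex (HD R ξ') f :=
  ex_Ht_le (wl_univ ξ) (wl_univ ξ') (fun v h1 h2 _ ha _ hb' => by
    rw [ha h2, hb' h2]; exact hb v h1 h2) o o' hf

theorem pr_HD_le (hb : ∀ v ∈ cl R, v ∉ R → ξ v ≤ ξ' v) (o : Ok (HD R ξ)) (o' : Ok (HD R ξ'))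
    {A : Set (V → ℤ)} (hA : Up (cl R) A) : Pr (HD R ξ) A ≤ Pr (HD R ξ') A := by
  rw [pr_eq, pr_eq]
  exact ex_HD_le hb o o' hA.ind

theorem pr_HD_le' (hb : ∀ v ∈ cl R, v ∉ R → ξ v ≤ ξ' v) (o : Ok (HD R ξ)) (o' : Ok (HD R ξ'))
    {A : Set (V → ℤ)} (hA : Up (cl R) Aᶜ) : Pr (HD R ξ') A ≤ Pr (HD R ξ) A := by
  have := pr_HD_le hb o o' hA
  rw [pr_compl o, pr_compl o'] at this
  linarith

theorem ex_HD_le_dd (hW : W.Finite) (hR : R ⊆ W) (o : Ok (HD R ξ)) (hb : Bd R ξ (Iic k))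
    {f : (V → ℤ) → ℝ} (hf : ∀ a b, Lp a → Lp b → (∀ v ∈ cl R, a v ≤ b v) → f a ≤ f b) :
    Ex (HD R ξ) f ≤ Ex (Ht (dd k R W)) f :=
  ex_Ht_le (wl_univ ξ) (dd_univ k hR) (fun v h1 h2 a ha b hb' => by
    have : ξ v ≤ k := hb v h1 h2
    have := hb'.1 h2
    rw [ha h2]; omega) o (ok_dd k R hW) hf

theorem ex_dd_le_HD (hW : W.Finite) (hR : R ⊆ W) (o : Ok (HD R ξ)) (hb : Bd R ξ (Ici (k + 1)))
    {f : (V → ℤ) → ℝ} (hf : ∀ a b, Lp a → Lp b → (∀ v ∈ cl R, a v ≤ b v) → f a ≤ f b) :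
    Ex (Ht (dd k R W)) f ≤ Ex (HD R ξ) f :=
  ex_Ht_le (dd_univ k hR) (wl_univ ξ) (fun v h1 h2 a ha b hb' => by
    have : k + 1 ≤ ξ v := hb v h1 h2
    have := ha.1 h2
    rw [hb' h2]; omega) (ok_dd k R hW) o hf

theorem pr_HD_le_dd (hW : W.Finite) (hR : R ⊆ W) (o : Ok (HD R ξ)) (hb : Bd R ξ (Iic k))
    {A : Set (V → ℤ)} (hA : Up (cl R) A) : Pr (HD R ξ) A ≤ Pr (Ht (dd k R W)) A := by
  rw [pr_eq, pr_eq]
  exact ex_HD_le_dd hW hR o hb hA.ind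

theorem pr_dd_le_HD (hW : W.Finite) (hR : R ⊆ W) (o : Ok (HD R ξ)) (hb : Bd R ξ (Ici (k + 1)))
    {A : Set (V → ℤ)} (hA : Up (cl R) A) : Pr (Ht (dd k R W)) A ≤ Pr (HD R ξ) A := by
  rw [pr_eq, pr_eq]
  exact ex_dd_le_HD hW hR o hb hA.ind

/-- FKG for events that are increasing on Lipschitz functions -/
theorem pr_up_fkg {T : V → Set ℤ} {A B : Set (V → ℤ)} (hA : Up univ A) (hB : Up univ B) :
    Pr (Ht T) A * Pr (Ht T) B ≤ Pr (Ht T) (A ∩ B) := by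
  have up : ∀ A : Set (V → ℤ), IsUpperSet {b | ∃ a ∈ A, Lp a ∧ a ≤ b} :=
    fun A b c h ⟨a, h1, h2, h3⟩ => ⟨a, h1, h2, h3.trans h⟩
  have e : ∀ {A : Set (V → ℤ)}, Up univ A → ∀ g ∈ Ht T, g ∈ A ↔ g ∈ {b | ∃ a ∈ A, Lp a ∧ a ≤ b} :=
    fun hA g hg => ⟨fun h => ⟨g, h, hg.1, le_rfl⟩,
      fun ⟨a, h1, h2, h3⟩ => hA a g h2 hg.1 (fun v _ => h3 v) h1⟩
  rw [pr_congr (e hA), pr_congr (e hB)]
  exact (ht_pr_fkg T (up A) (up B)).trans
    (pr_mono fun g hg h => ⟨(e hA g hg).2 h.1, (e hB g hg).2 h.2⟩)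

/-! ### symmetries and means -/

theorem bij_HD_neg (k : ℤ) (R : Set V) (ξ : V → ℤ) :
    BijOn (fun (g : V → ℤ) v => k - g v) (HD R ξ) (HD R fun v => k - ξ v) :=
  bij_neg k fun v a => by
    simp only [wl, mem_ofPred_eq]
    exact imp_congr_right fun _ => by omega

theorem bij_HD_shift (k : ℤ) (R : Set V) (ξ : V → ℤ) :
    BijOn (fun (g : V → ℤ) v => g v + k) (HD R ξ) (HD R fun v => ξ v + k) :=
  bij_shift k fun v a => by
    simp only [wl, mem_ofPred_eq]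
    exact imp_congr_right fun _ => by omega

theorem bij_flat (j : ℤ) (R : Set V) :
    BijOn (fun (g : V → ℤ) v => 2 * j - g v) (HD R fun _ => j) (HD R fun _ => j) := by
  have := bij_HD_neg (2 * j) R fun _ => j
  rwa [show (fun _ : V => 2 * j - j) = fun _ => j from funext fun _ => by ring] at this

theorem mean_flat (hR : R.Finite) (j : ℤ) (y : V) :
    Ex (HD R fun _ => j) (fun g => (g y : ℝ)) = j := by
  have := ex_bij (bij_flat j R) fun g => (g y : ℝ)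
  push_cast at this
  rw [ex_sub, ex_const (ok_flat hR j)] at this
  linarith

theorem mean_le (hR : R.Finite) (o : Ok (HD R ξ)) (hb : Bd R ξ (Iic j)) (hy : y ∈ cl R) :
    Ex (HD R ξ) (fun g => (g y : ℝ)) ≤ j := by
  rw [← mean_flat hR j y]
  exact ex_HD_le hb o (ok_flat hR j) fun a b _ _ h => by exact_mod_cast h y hy

theorem le_mean (hR : R.Finite) (o : Ok (HD R ξ)) (hb : Bd R ξ (Ici j)) (hy : y ∈ cl R) :
    (j : ℝ) ≤ Ex (HD R ξ) fun g => (g y : ℝ) := by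
  rw [← mean_flat hR j y]
  exact ex_HD_le hb (ok_flat hR j) o fun a b _ _ h => by exact_mod_cast h y hy

theorem mn_mono (hU : U.Finite) (hy : y ∈ cl U) {a b : V → ℤ} (ha : Lp a) (hb : Lp b)
    (h : ∀ v ∈ cl U, v ∉ U → a v ≤ b v) : mn U y a ≤ mn U y b :=
  ex_HD_le h (ha.ok hU) (hb.ok hU) fun a b _ _ h => by exact_mod_cast h y hy

theorem mn_neg (hU : U.Finite) (hg : Lp g) (k : ℤ) (y : V) :
    mn U y (fun v => k - g v) = k - mn U y g := by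
  have := ex_bij (bij_HD_neg k U g) fun g => (g y : ℝ)
  push_cast at this
  rw [ex_sub, ex_const (hg.ok hU)] at this
  exact this.symm

theorem mn_shift (hU : U.Finite) (hg : Lp g) (k : ℤ) (y : V) :
    mn U y (fun v => g v + k) = mn U y g + k := by
  have := ex_bij (bij_HD_shift k U g) fun g => (g y : ℝ)
  push_cast at this
  rw [ex_add, ex_const (hg.ok hU)] at this
  exact this.symm

/-! ### site clusters -/

/-- the set `O` with the paths in `D` attached to it along which the height lies in `A` -/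
def SK (A : Set ℤ) (D O : Set V) (g : V → ℤ) : Set V :=
  O ∪ {v | ∃ o ∈ O, ∃ u, Adj o u ∧ Conn (D ∩ {q | g q ∈ A}) u v}

variable {A : Set ℤ}

lemma sub_SK : O ⊆ SK A D O g := subset_union_left

lemma SK_step {u v : V} (hu : u ∈ SK A D O g) (a : Adj u v) (hv : v ∈ D) (hA : g v ∈ A) :
    v ∈ SK A D O g := by
  rcases hu with hu | ⟨o, ho, w, h1, h2⟩
  · exact Or.inr ⟨u, hu, v, a, Conn.refl ⟨hv, hA⟩⟩
  · exact Or.inr ⟨o, ho, w, h1, h2.tail a ⟨hv, hA⟩⟩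

lemma SK_out {v : V} (h1 : v ∈ cl (SK A D O g)) (h2 : v ∉ SK A D O g) : v ∉ D ∨ g v ∉ A := by
  rcases h1 with h1 | ⟨u, hu, a⟩
  · exact absurd h1 h2
  · by_contra h
    push Not at h
    exact h2 (SK_step hu a h.1 h.2)

lemma SK_in {v : V} (h : v ∈ SK A D O g) : ∃ o ∈ O, Conn (SK A D O g) o v := by
  rcases h with h | ⟨o, ho, u, h1, h2⟩
  · exact ⟨v, h, Conn.refl (sub_SK h)⟩
  · exact ⟨o, ho, Conn.head (sub_SK ho) h1 (h2.cluster.mono fun q hq => Or.inr ⟨o, ho, u, h1, hq⟩)⟩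

lemma SK_congr {g g' : V → ℤ} (e : ∀ v ∈ cl (SK A D O g), v ∈ D → (g' v ∈ A ↔ g v ∈ A)) :
    SK A D O g' = SK A D O g := by
  refine Subset.antisymm ?_ ?_
  · rintro v (h | ⟨o, ho, u, h1, h2⟩)
    · exact sub_SK h
    · have k : ∀ a ∈ SK A D O g, ∀ b, Adj a b → b ∈ D ∩ {q | g' q ∈ A} → b ∈ SK A D O g :=
        fun a ha b ab hb => SK_step ha ab hb.1 ((e b (mem_cl ha ab) hb.1).1 hb.2)
      exact h2.ind (P := fun q => q ∈ SK A D O g) (k o (sub_SK ho) u h1 h2.left)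
        fun a b _ ab hb ha => k a ha b ab hb
  · rintro v (h | ⟨o, ho, u, h1, h2⟩)
    · exact sub_SK h
    · exact Or.inr ⟨o, ho, u, h1, h2.cluster.mono fun q hq => ⟨hq.right.1,
        (e q (sub_cl _ (Or.inr ⟨o, ho, u, h1, hq⟩)) hq.right.1).2 hq.right.2⟩⟩

lemma stop_SK (A : Set ℤ) (D O : Set V) : Stop fun g => cl (SK A D O g) := fun x y e => by
  simp only [SK_congr (g := x) (g' := y) fun v hv _ => by rw [e v hv]]

/-- the explored cluster does not change in the conditioned model -/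
lemma SK_eq (hg : g ∈ HD (R \ cl (SK A D O x)) x) : SK A D O g = SK A D O x :=
  SK_congr fun v hv _ => by rw [hg.2 v fun h => h.2 hv]

lemma coConn_diff (h : CoConn (R \ O)) (hO : O ⊆ K) (hK : ∀ v ∈ K, ∃ o ∈ O, Conn K o v) :
    CoConn (R \ K) := by
  have s : (R \ O)ᶜ ⊆ (R \ K)ᶜ := fun v hv h' => hv ⟨h'.1, fun h'' => h'.2 (hO h'')⟩
  have key : ∀ u, u ∉ R \ K → ∃ o, o ∉ R \ O ∧ Conn (R \ K)ᶜ o u := fun u hu => by
    by_cases hR : u ∈ R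
    · obtain ⟨o, ho, c⟩ := hK u (by_contra fun h => hu ⟨hR, h⟩)
      exact ⟨o, fun h => h.2 ho, c.mono fun q hq h => h.2 hq⟩
    · exact ⟨u, fun h => hR h.1, Conn.refl hu⟩
  intro u hu v hv
  obtain ⟨o, ho, c⟩ := key u hu
  obtain ⟨o', ho', c'⟩ := key v hv
  exact (c.symm.trans ((h o ho o' ho').mono s)).trans c'

lemma cl_in (hK : ∀ v ∈ K, ∃ o ∈ O, Conn K o v) : ∀ v ∈ cl K, ∃ o ∈ O, Conn (cl K) o v := by
  rintro v (hv | ⟨u, hu, a⟩)
  · obtain ⟨o, ho, c⟩ := hK v hv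
    exact ⟨o, ho, c.mono (sub_cl K)⟩
  · obtain ⟨o, ho, c⟩ := hK u hu
    exact ⟨o, ho, (c.mono (sub_cl K)).tail a (mem_cl hu a)⟩

/-- the unexplored part is a closed domain -/
lemma cls_SK (hR : R.Finite) (h : CoConn (R \ O)) : Cls (R \ cl (SK A D O g)) :=
  ⟨hR.subset sdiff_subset, coConn_diff h (sub_SK.trans (sub_cl _)) (cl_in fun _ => SK_in)⟩

/-- if every point of `O` is joined to the complement of `R` inside `O ∪ Rᶜ` -/
lemma coConn_diff' (h : CoConn R) (hO : ∀ v ∈ O, ∃ w, w ∉ R ∧ Conn (O ∪ Rᶜ) w v) :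
    CoConn (R \ O) := by
  have := coConn_diff (R := R) (O := Rᶜ) (K := O ∪ Rᶜ) (by rwa [sdiff_compl, inter_self])
    subset_union_right (by
      rintro v (hv | hv)
      · exact hO v hv
      · exact ⟨v, hv, Conn.refl (Or.inr hv)⟩)
  rwa [show R \ (O ∪ Rᶜ) = R \ O from by ext; simp only [mem_sdiff, mem_union, mem_compl_iff]; tauto]
    at this

/-- the outer boundary of the unexplored part -/
lemma SK_bd {v : V} (h1 : v ∈ cl (R \ cl (SK A D O g))) (h2 : v ∉ R \ cl (SK A D O g)) :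
    v ∉ SK A D O g ∧ ((v ∉ R ∧ v ∈ cl R) ∨ v ∉ D ∨ g v ∉ A) := by
  rcases h1 with h1 | ⟨u, hu, a⟩
  · exact absurd h1 h2
  have h3 : v ∉ SK A D O g := fun h => hu.2 (mem_cl h a.symm)
  refine ⟨h3, ?_⟩
  by_cases hR : v ∈ R
  · exact Or.inr (SK_out (by_contra fun h => h2 ⟨hR, h⟩) h3)
  · exact Or.inl ⟨hR, mem_cl hu.1 a⟩

end Pool.Agent.Lib.MP_6359c9_pr
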