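import Pool.Agent.Lib.MP_6359c9_pr.HBase

/-! Height side: finite energy and climbing. -/

namespace Pool.Agent.Lib.MP_6359c9_pr

open Set

lemma pr_le_inj {Ω : Type} {M A B : Set Ω} (hM : M.Finite) {φ : Ω → Ω}
    (h1 : ∀ x ∈ M, x ∈ A → φ x ∈ M ∧ φ x ∈ B) (h2 : InjOn φ (M ∩ A)) : Pr M A ≤ Pr M B := by
  unfold Pr
  refine div_le_div_of_nonneg_right ?_ (Nat.cast_nonneg _)
  exact_mod_cast ncard_le_ncard_of_injOn φ (fun x hx => h1 x hx.1 hx.2) h2 (hM.inter_of_left B)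

/-- FKG for a finite family of increasing events -/
theorem pr_fkg_fin {T : V → Set ℤ} (o : Ok (Ht T)) {ι : Type} (s : Finset ι)
    {A : ι → Set (V → ℤ)} {c : ℝ} (hc : 0 ≤ c) (hA : ∀ i ∈ s, Up univ (A i))
    (h : ∀ i ∈ s, c ≤ Pr (Ht T) (A i)) : c ^ s.card ≤ Pr (Ht T) {g | ∀ i ∈ s, g ∈ A i} := by
  classical
  induction s using Finset.induction_on with
  | empty => simpa using (pr_all (A := univ) o fun _ _ => trivial).ge
  | insert a s ha ih =>
    have h1 := ih (fun i hi => hA i (Finset.mem_insert_of_mem hi))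
      fun i hi => h i (Finset.mem_insert_of_mem hi)
    have h2 := pr_up_fkg (T := T) (hA a (Finset.mem_insert_self a s))
      (B := {g | ∀ i ∈ s, g ∈ A i}) fun x y hx hy e hh i hi =>
        hA i (Finset.mem_insert_of_mem hi) x y hx hy e (hh i hi)
    rw [Finset.card_insert_of_notMem ha, pow_succ']
    refine (mul_le_mul (h a (Finset.mem_insert_self a s)) h1 (by positivity)
      (pr_nonneg _ _)).trans (h2.trans (pr_mono fun g _ hg i hi => ?_))
    rcases Finset.mem_insert.1 hi with rfl | hi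
    · exact hg.1
    · exact hg.2 i hi

variable {R : Set V} {ξ : V → ℤ} {j : ℤ}

theorem half_le (hR : R.Finite) (o : Ok (HD R ξ)) (hb : Bd R ξ (Ici j)) {u : V} (hu : u ∈ cl R) :
    1 / 2 ≤ Pr (HD R ξ) {g | j ≤ g u} := by
  have o' := ok_flat hR j
  have h1 := pr_bij (bij_flat j R) {g | j ≤ g u}
  have h2 : Pr (HD R fun _ => j) {g | j ≤ g u}ᶜ ≤ Pr (HD R fun _ => j) {g | j ≤ g u} := by
    rw [← h1]
    refine pr_mono fun g _ hg => ?_
    simp only [mem_compl_iff, mem_preimage, mem_ofPred_eq] at *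
    omega
  rw [pr_compl o'] at h2
  have h3 := pr_HD_le (ξ := fun _ => j) (A := {g | j ≤ g u}) hb o' o
    fun a b _ _ e h => le_trans h (e u hu)
  linarith

/-- the six neighbours -/
def nbs (v : V) : Finset V := {(v.1 + 1, v.2), (v.1 - 1, v.2), (v.1, v.2 + 1), (v.1, v.2 - 1),
  (v.1 + 1, v.2 - 1), (v.1 - 1, v.2 + 1)}

lemma mem_nbs {u v : V} : u ∈ nbs v ↔ Adj v u := by
  obtain ⟨a, b⟩ := u
  simp only [nbs, Finset.mem_insert, Finset.mem_singleton, Prod.mk.injEq, Adj]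

lemma card_nbs (v : V) : (nbs v).card ≤ 6 := Finset.card_le_six

theorem fe_one (hR : R.Finite) (o : Ok (HD R ξ)) (hb : Bd R ξ (Ici j)) {v : V} (hv : v ∈ R) :
    1 / 192 ≤ Pr (HD R ξ) {g | j + 1 ≤ g v} := by
  classical
  have h1 := pr_fkg_fin o (nbs v) (A := fun u => {g | j ≤ g u}) (c := 1 / 2) (by norm_num)
    (fun u _ a b _ _ e h => le_trans h (e u trivial))
    fun u hu => half_le hR o hb (mem_cl hv (mem_nbs.1 hu))
  have h2 : (1 / 2 : ℝ) ^ 6 ≤ (1 / 2) ^ (nbs v).card :=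
    pow_le_pow_of_le_one (by norm_num) (by norm_num) (card_nbs v)
  have key : ∀ a, a ≤ j → Pr (HD R ξ) {g | (∀ u ∈ nbs v, j ≤ g u) ∧ g v = a} ≤
      Pr (HD R ξ) {g | j + 1 ≤ g v} := fun a ha => by
    refine pr_le_inj o.1 (φ := fun g => Function.update g v (j + 1))
      (fun g hg h => ⟨⟨fun p q e => ?_, fun p hp => ?_⟩, by simp⟩) fun g hg g' hg' e => ?_
    · have e1 := hg.1 p q e
      have e2 := h.2
      unfold Hp at *
      by_cases hp : p = v
      · subst hp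
        have := h.1 q (mem_nbs.2 e)
        rw [Function.update_self, Function.update_of_ne e.ne.symm]
        omega
      · by_cases hq : q = v
        · subst hq
          have := h.1 p (mem_nbs.2 e.symm)
          rw [Function.update_self, Function.update_of_ne hp]
          omega
        · rwa [Function.update_of_ne hp, Function.update_of_ne hq]
    · rw [Function.update_of_ne fun e : p = v => hp (e ▸ hv)]
      exact hg.2 p hp
    · funext p
      by_cases hp : p = v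
      · rw [hp, hg.2.2, hg'.2.2]
      · simpa [hp] using congrFun e p
  have h3 : Pr (HD R ξ) {g | ∀ u ∈ nbs v, g ∈ {g : V → ℤ | j ≤ g u}} ≤
      Pr (HD R ξ) {g | j + 1 ≤ g v} +
        Pr (HD R ξ) ({g | (∀ u ∈ nbs v, j ≤ g u) ∧ g v = j} ∪
          {g | (∀ u ∈ nbs v, j ≤ g u) ∧ g v = j - 1}) := by
    refine pr_le_add fun g hg h => ?_
    have e : Adj v (v.1 + 1, v.2) := Or.inl ⟨rfl, rfl⟩
    have e1 := (hg.1 _ _ e).2
    have e2 : j ≤ g (v.1 + 1, v.2) := h _ (mem_nbs.2 e)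
    by_cases h4 : j + 1 ≤ g v
    · exact Or.inl h4
    · by_cases h5 : g v = j
      · exact Or.inr (Or.inl ⟨h, h5⟩)
      · exact Or.inr (Or.inr ⟨h, by omega⟩)
  have h4 := pr_union_le (HD R ξ) {g | (∀ u ∈ nbs v, j ≤ g u) ∧ g v = j}
    {g | (∀ u ∈ nbs v, j ≤ g u) ∧ g v = j - 1}
  have := key j le_rfl
  have := key (j - 1) (by omega)
  linarith

theorem feSt : FeSt := fun _ _ _ F hR o hb hF =>
  pr_fkg_fin o F (A := fun v => {g | _ ≤ g v}) (by norm_num)
    (fun v _ _ _ _ _ e h => le_trans h (e v trivial)) fun v hv => fe_one hR o hb (hF v hv)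

/-- the absence of a low path out of a set only depends on the set and its neighbours -/
lemma up_not_cr (k : ℤ) {I B : Set V} (h : I ⊆ B) :
    Up (cl B) {g | ¬Cr {v | g v ≤ k} I Bᶜ} := by
  rintro a b - - e ha ⟨u, hu, v, hv, c⟩
  obtain ⟨p, q, c1, pq, hq, c2⟩ := c.exit (h hu) hv
  exact ha ⟨u, hu, q, hq, (c1.mono fun w hw => le_trans (e w (sub_cl _ hw.2)) hw.1).tail pq
    (le_trans (e q (mem_cl c1.right.2 pq)) c2.left)⟩

/-- one step up under data that are at least `j` -/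
theorem climb_one (L : ℕ) : ∃ c > 0, ∀ (R : Set V) (ξ : V → ℤ) (j m n : ℤ) (q : V), Cls R →
    Ok (HD R ξ) → Bd R ξ (Ici j) → 1 ≤ n → m ≤ L * n → Bx q (m + n) ⊆ R →
    c ≤ Pr (HD R ξ) {g | ¬Cr {v | g v ≤ j} (Bx q m) (Bx q (m + n))ᶜ} := by
  obtain ⟨c, hc, h⟩ := climb1 L
  refine ⟨c, hc, fun R ξ j m n q hR o hb hn hm hB => ?_⟩
  have h1 := h n (j - 1) q (Bx q m) (Bx q (m + n))ᶜ R (cl R) hn (cl_finite hR.fin) hR.co subset_rfl
    (Bx_mono hm) fun u hu v hv => by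
      have : v ∈ Bx q (m + n) := by rw [mem_Bx] at *; omega
      exact ⟨hB this, not_not.2 this⟩
  rw [sub_add_cancel] at h1
  exact h1.trans (pr_dd_le_HD (cl_finite hR.fin) (sub_cl R) o (by rwa [sub_add_cancel])
    ((up_not_cr j (Bx_mono (by omega))).mono (cl_mono hB)))

/-- climbing around a single box -/
theorem climb_box (i : ℕ) : ∃ c > 0, ∀ (R : Set V) (ξ : V → ℤ) (j n : ℤ) (q : V), Cls R →
    Ok (HD R ξ) → Bd R ξ (Ici j) → 1 ≤ n → Bx q ((3 * i + 2) * n) ⊆ R →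
    c ≤ Pr (HD R ξ) {g | ¬Cr {v | g v ≤ j + i} (Bx q n) (Bx q ((3 * i + 2) * n))ᶜ} := by
  induction i with
  | zero =>
    obtain ⟨c, hc, h⟩ := climb_one 1
    refine ⟨c, hc, fun R ξ j n q hR o hb hn hB => ?_⟩
    have e : (3 * ((0 : ℕ) : ℤ) + 2) * n = n + n := by push_cast; ring
    rw [e] at hB ⊢
    simpa using h R ξ j n n q hR o hb hn (by simp) hB
  | succ i ih =>
    obtain ⟨c, hc, h⟩ := ih
    obtain ⟨c', hc', h'⟩ := climb_one (3 * i + 3)
    refine ⟨c * c', by positivity, fun R ξ j n q hR o hb hn hB => ?_⟩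
    obtain ⟨m, hm⟩ : ∃ m, m = (3 * i + 2) * n := ⟨_, rfl⟩
    have e : (3 * ((i + 1 : ℕ) : ℤ) + 2) * n = m + 3 * n := by push_cast; rw [hm]; ring
    rw [e] at hB ⊢
    have h1 := h' R ξ j (m + n) n q hR o hb hn (by push_cast; rw [hm]; linarith)
      ((Bx_mono (by omega)).trans hB)
    rw [pr_HD_stop (stop_SK (Iic j) univ (Bx q (m + 3 * n))ᶜ)]
    refine (mul_le_mul_of_nonneg_left h1 hc.le).trans
      (pr_mul_le (fun _ _ => pr_nonneg _ _) fun x hx hA => ?_)
    have hO : R \ (Bx q (m + 3 * n))ᶜ = Bx q (m + 3 * n) := by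
      rw [sdiff_compl, inter_eq_right.2 hB]
    have sub : Bx q m ⊆ R \ cl (SK (Iic j) univ (Bx q (m + 3 * n))ᶜ x) := fun v hv => by
      have k : ∀ w ∈ Bx q (m + n), w ∉ SK (Iic j) univ (Bx q (m + 3 * n))ᶜ x := by
        rintro w hw (h2 | ⟨p, hp, u, a, cc⟩)
        · exact h2 (Bx_mono (by omega) hw)
        · refine hA ⟨w, hw, u, fun hu => hp ?_, cc.symm.mono fun _ h => h.2⟩
          exact Bx_mono (by omega) (cl_Bx q _ (mem_cl hu a.symm))
      refine ⟨hB (Bx_mono (by omega) hv), ?_⟩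
      rintro (h2 | ⟨u, hu, a⟩)
      · exact k v (Bx_mono (by omega) hv) h2
      · exact k u (Bx_mono (by omega) (cl_Bx q _ (mem_cl hv a.symm))) hu
    have cls := cls_SK (A := Iic j) (D := univ) (g := x) hR.fin (hO.symm ▸ Bx_coConn q _)
    have h2 := h _ x (j + 1) n q cls (Lp.ok hx.1 cls.fin) (fun v h1 h2 => by
      obtain ⟨h3, h4 | h4 | h4⟩ := SK_bd h1 h2
      · exact absurd (sub_SK (show v ∈ (Bx q (m + 3 * n))ᶜ from fun h => h4.1 (hB h))) h3
      · exact absurd trivial h4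
      · exact not_le.1 (show ¬x v ≤ j from h4)) hn (hm ▸ sub)
    refine h2.trans (pr_mono fun g _ hg cr => hg (cr.mono (fun v hv => ?_) subset_rfl ?_))
    · simp only [mem_ofPred_eq] at *
      push_cast at hv
      omega
    · exact compl_subset_compl.2 (Bx_mono (by omega))

theorem climbSt : ClimbSt := fun i L => by
  classical
  obtain ⟨c, hc, h⟩ := climb_box i
  obtain ⟨N, hN⟩ : ∃ N : ℤ, N = 2 * L * (3 * i + 3) := ⟨_, rfl⟩
  refine ⟨min c 1 ^ (Finset.Icc (-N) N ×ˢ Finset.Icc (-N) N).card, by positivity, 3 * i + 3,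
    fun R ξ j d x I hR o hb hd hI hB => ?_⟩
  obtain ⟨n, hn⟩ : ∃ n, n = d / (3 * i + 3) := ⟨_, rfl⟩
  have p : (0 : ℤ) < 3 * i + 3 := by positivity
  have n1 : 1 ≤ n := hn ▸ Int.le_ediv_of_mul_le p (by omega)
  have n2 : (3 * i + 3) * n ≤ d := hn ▸ Int.mul_ediv_self_le p.ne'
  have n3 : d < (3 * i + 3) * n + (3 * i + 3) := hn ▸ Int.lt_mul_ediv_self_add p
  have n4 : L * d ≤ N * n := by
    have : d ≤ 2 * (3 * i + 3) * n := by nlinarith
    rw [hN]
    nlinarith [mul_le_mul_of_nonneg_left this (Nat.cast_nonneg (α := ℤ) L)]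
  have := pr_fkg_fin o (Finset.Icc (-N) N ×ˢ Finset.Icc (-N) N) (c := min c 1)
    (A := fun a => {g | Bx (x.1 + n * a.1, x.2 + n * a.2) ((3 * i + 2) * n) ⊆ R →
      ¬Cr {v | g v ≤ j + i} (Bx (x.1 + n * a.1, x.2 + n * a.2) n)
        (Bx (x.1 + n * a.1, x.2 + n * a.2) ((3 * i + 2) * n))ᶜ}) (by positivity)
    (fun a _ g g' _ _ e hg hs cr => hg hs
      (cr.mono (fun v hv => le_trans (e v trivial) hv) subset_rfl subset_rfl))
    fun a _ => by
      by_cases hs : Bx (x.1 + n * a.1, x.2 + n * a.2) ((3 * i + 2) * n) ⊆ R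
      · exact (min_le_left _ _).trans ((h R ξ j n _ hR o hb n1 hs).trans
          (pr_mono fun g _ hg _ => hg))
      · refine (min_le_right _ _).trans (pr_all o fun g _ => ?_).ge
        exact fun h => absurd h hs
  refine this.trans (pr_mono fun g _ hg u hu v hv cc => ?_)
  have hu' := mem_Bx.1 (hI hu)
  have n0 : 0 < n := by omega
  have k : ∀ t : ℤ, -(N * n) ≤ t → t ≤ N * n →
      t / n ∈ Finset.Icc (-N) N ∧ n * (t / n) ≤ t ∧ t < n * (t / n) + n := fun t h1 h2 =>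
    ⟨Finset.mem_Icc.2 ⟨Int.le_ediv_of_mul_le n0 (by linarith),
      Int.ediv_le_of_le_mul n0 h2⟩, Int.mul_ediv_self_le n0.ne', Int.lt_mul_ediv_self_add n0⟩
  obtain ⟨a1, a2, a3⟩ := k (u.1 - x.1) (by omega) (by omega)
  obtain ⟨b1, b2, b3⟩ := k (u.2 - x.2) (by omega) (by omega)
  have s : Bx (x.1 + n * ((u.1 - x.1) / n), x.2 + n * ((u.2 - x.2) / n)) ((3 * i + 2) * n) ⊆
      Bx u d := fun w hw => by
    have e : (3 * i + 3) * n = (3 * i + 2) * n + n := by ring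
    rw [mem_Bx] at *
    dsimp only at hw
    omega
  refine hg ((u.1 - x.1) / n, (u.2 - x.2) / n) (Finset.mem_product.2 ⟨a1, b1⟩)
    (s.trans (hB u hu)) ⟨u, ?_, v, fun h => hv (s h), cc⟩
  rw [mem_Bx]
  dsimp only
  omega

end Pool.Agent.Lib.MP_6359c9_pr
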