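import Pool.Agent.Lib.MP_6359c9_pr.HBase

/-! The flat wall estimate from the arm estimate and the moment bound. -/

namespace Pool.Agent.Lib.MP_6359c9_pr

open Set

lemma Lp.conn_le {g : V → ℤ} (hg : Lp g) {S : Set V} {k : ℤ} {a b : V}
    (h : Conn (S ∩ {q | g q ∈ ({k}ᶜ : Set ℤ)}) a b) (ha : g a ≤ k - 1) :
    Conn (S ∩ {q | g q ≤ k - 1}) a b :=
  h.ind (P := fun q => Conn (S ∩ {q | g q ≤ k - 1}) a q) (Conn.refl ⟨h.left.1, ha⟩)
    fun p q _ e hq ih => ih.tail e ⟨hq.1, by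
      have h1 : g p ≤ k - 1 := ih.right.2
      have h2 : g q ≠ k := hq.2
      have := hg p q e
      unfold Hp at this
      show g q ≤ k - 1
      omega⟩

lemma Lp.conn_ge {g : V → ℤ} (hg : Lp g) {S : Set V} {k : ℤ} {a b : V}
    (h : Conn (S ∩ {q | g q ∈ ({k}ᶜ : Set ℤ)}) a b) (ha : k + 1 ≤ g a) :
    Conn (S ∩ {q | k + 1 ≤ g q}) a b :=
  h.ind (P := fun q => Conn (S ∩ {q | k + 1 ≤ g q}) a q) (Conn.refl ⟨h.left.1, ha⟩)
    fun p q _ e hq ih => ih.tail e ⟨hq.1, by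
      have h1 : k + 1 ≤ g p := ih.right.2
      have h2 : g q ≠ k := hq.2
      have := hg p q e
      unfold Hp at this
      show k + 1 ≤ g q
      omega⟩

lemma Arm.mono {R U A A' : Set V} {x : V} {d : ℤ} (h : Arm R U x d A) (hA : R ∩ A ⊆ A') :
    Arm R U x d A' := by
  obtain ⟨u, hu, v, w, c, a, hw⟩ := h
  exact ⟨u, hu, v, w, c.mono fun q hq => ⟨hq.1, hA hq⟩, a, hw⟩

/-- high arms are rarer than low arms below a wall of height one -/
lemma arm_high {R : Set V} (hR : R.Finite) {ξ : V → ℤ} (h : ∀ v, v ∉ R → ξ v = 0 ∨ ξ v = 1)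
    (U : Set V) (x : V) (d : ℤ) : Pr (HD R ξ) {g | Arm R U x d {v | 2 ≤ g v}} ≤
      Pr (HD R ξ) {g | Arm R U x d {v | g v ≤ 0}} := by
  have o : Ok (HD R ξ) := ok_two (k := 0) hR (by simpa using h)
  have hb : ∀ v ∈ cl R, v ∉ R → ξ v ≤ (fun _ => 1 : V → ℤ) v := fun v _ hv => by
    have := h v hv
    beta_reduce
    omega
  refine (pr_HD_le hb o (ok_flat hR 1) fun a b _ _ e ha => ha.mono fun q hq =>
    le_trans hq.2 (e q (sub_cl _ hq.1))).trans (le_trans (le_of_eq ?_)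
    (pr_HD_le' hb o (ok_flat hR 1) fun a b _ _ e ha hb' => ha (hb'.mono fun q hq =>
      le_trans (e q (sub_cl _ hq.1)) hq.2)))
  rw [← pr_bij (bij_flat 1 R) {g | Arm R U x d {v | g v ≤ 0}}]
  refine pr_congr fun g _ => ?_
  simp only [mem_preimage, mem_ofPred_eq]
  rw [show {v | 2 * 1 - g v ≤ 0} = {v | 2 ≤ g v} from Set.ext fun v => by
    simp only [mem_ofPred_eq]; omega]

lemma Wall.Pocket.cl_sub {W : Wall} {ξ : V → ℤ} {z0 x : V} {d r s : ℤ} {i0 i1 : ℕ} {U : Set V}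
    (hP : W.Pocket ξ z0 x d r i0 i1 U s) (hd : W.Dist x d) (hr : d ≤ r - 2) :
    cl (Bx x (d - 1)) ⊆ U := by
  have hx : x ∈ Bx x (d - 1) := mem_Bx_ds.2 (by rw [ds_self]; have := hd.1; omega)
  have k : ∀ u ∈ Bx x (d - 1), W.IC (Bx x (r - 2)) x u := fun u hu =>
    ((Bx_conn hx hu).nconn (P := W.Rᶜ) fun q hq h => h (hd.2.1 hq)).mono subset_rfl
      (Bx_mono (by omega))
  rintro v (hv | ⟨u, hu, a⟩)
  · exact hP.closed x hP.mem v (k v hv)
  · exact hP.closed x hP.mem v ((k u hu).tail a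
      (Bx_mono (by omega) (cl_Bx x _ (mem_cl hu a))) fun h => h.1 (hd.2.1 hu))

lemma dir_one {W : Wall} {ξ : V → ℤ} {z0 x : V} {d r : ℤ} {i0 i1 : ℕ} {U : Set V}
    {Y : (V → ℤ) → ℝ} (h01 : ∀ v, v ∉ W.R → ξ v = 0 ∨ ξ v = 1) (hd : W.Dist x d) (hr : d ≤ r - 2)
    (hP : W.Pocket ξ z0 x d r i0 i1 U 1) (hY : DependsOn Y Uᶜ) {C η : ℝ} (hη : 0 < η) (hC : 0 < C)
    (hm : Ex (HD W.R ξ) (fun g => |mn (Bx x (d - 1)) x g - (0 : ℤ)| ^ 4) ≤ C)
    (ha : Pr (HD W.R ξ) {g | Arm W.R U x d {v | g v ≤ 0}} ≤ η ^ 4 / (16 * (C + 1))) :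
    |Ex (HD W.R ξ) fun g => ((g x : ℝ) - (1 : ℤ)) * Y g| ≤
      η * √(Ex (HD W.R ξ) fun g => Y g ^ 2) := by
  set B := Bx x (d - 1) with hB
  have hU : cl B ⊆ U := hP.cl_sub hd hr
  have hx : x ∈ B := mem_Bx_ds.2 (by rw [ds_self]; have := hd.1; omega)
  have o : Ok (HD W.R ξ) := ok_two (k := 0) W.fin (by simpa using h01)
  set K : (V → ℤ) → Set V := SK {1}ᶜ (W.R \ B) Uᶜ with hK
  set H : Set (V → ℤ) := {g | ∃ u ∈ cl B, u ∈ K g} with hH
  have dH : Dep Bᶜ H := fun a b e ⟨u, hu, h⟩ =>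
    ⟨u, hu, (SK_congr (g := a) (g' := b) fun v _ hv => by rw [e v hv.2]).ge h⟩
  have nB : ∀ g, g ∉ H → ∀ v ∈ B, v ∉ cl (K g) := by
    rintro g hg v hv (h | ⟨u, hu, a⟩)
    · exact hg ⟨v, sub_cl _ hv, h⟩
    · exact hg ⟨u, mem_cl hv a.symm, hu⟩
  have e0 : Ex (HD W.R ξ) (fun g => ((g x : ℝ) - (1 : ℤ)) * (Hᶜ.indicator 1 g * Y g)) = 0 := by
    rw [ex_HD_stop (stop_SK {1}ᶜ (W.R \ B) Uᶜ), ← ex_zero (HD W.R ξ)]
    refine ex_congr fun a ha => ?_
    have fin : (W.R \ cl (K a)).Finite := W.fin.subset sdiff_subset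
    rw [ex_congr (g := fun g => ((g x : ℝ) - (1 : ℤ)) * (Hᶜ.indicator 1 a * Y a)) fun g hg => ?_,
      ex_mul']
    · by_cases haH : a ∈ H
      · simp [haH]
      have bd : Bd (W.R \ cl (K a)) a {1} := fun v h1 h2 => by
        obtain ⟨h3, h4⟩ := SK_bd h1 h2
        have hv : v ∈ U := by_contra fun h => h3 (sub_SK h)
        have k : v ∉ W.R → a v ∈ ({1} : Set ℤ) := fun h => (ha.2 v h).trans (hP.flat v hv h)
        rcases h4 with h4 | h4 | h4
        · exact k h4.1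
        · by_cases hR : v ∈ W.R
          · exact absurd ⟨hR, nB a haH v (by_contra fun h => h4 ⟨hR, h⟩)⟩ h2
          · exact k hR
        · exact not_not.1 h4
      have hx' : x ∈ cl (W.R \ cl (K a)) := sub_cl _ ⟨hd.2.1 hx, nB a haH x hx⟩
      have m1 := mean_le (j := 1) fin (Lp.ok ha.1 fin) (bd.mono fun _ h => h.le) hx'
      have m2 := le_mean (j := 1) fin (Lp.ok ha.1 fin) (bd.mono fun _ h => h.ge) hx'
      rw [ex_sub, ex_const (Lp.ok ha.1 fin), le_antisymm m1 m2, sub_self, zero_mul]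
    · have e1 : K g = K a := SK_eq hg
      have e2 : Y g = Y a := hY fun v hv => hg.2 v fun h => h.2 (sub_cl _ (sub_SK hv))
      have e3 : g ∈ H ↔ a ∈ H := by simp only [hH, mem_ofPred_eq, e1]
      rw [e2]
      by_cases haH : a ∈ H
      · simp [haH, e3.2 haH]
      · simp [haH, mt e3.1 haH]
  have e1 : Ex (HD W.R ξ) (fun g => ((g x : ℝ) - (1 : ℤ)) * Y g) =
      Ex (HD W.R ξ) fun g => (mn B x g - (1 : ℤ)) * H.indicator 1 g * Y g := by
    have := ex_mn (T := wl W.R ξ) (Bx_finite x (d - 1)) (fun v hv => wl_univ ξ v (hd.2.1 hv)) x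
      ((1 : ℤ) : ℝ) (Y := fun g => H.indicator 1 g * Y g) fun a b e => by
        simp only [dH.ind e, hY fun v hv => e v fun h => hv (hU (sub_cl _ h))]
    simp only [mul_assoc]
    rw [← this, ← add_zero (Ex _ fun g => _ * (H.indicator 1 g * Y g)), ← e0, ← ex_add]
    refine ex_congr fun g _ => ?_
    by_cases hg : g ∈ H <;> simp [hg]
  have pH : Pr (HD W.R ξ) H ≤ η ^ 4 / (8 * (C + 1)) := by
    refine (pr_le_add (B := {g | Arm W.R U x d {v | g v ≤ 0}})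
      (C := {g | Arm W.R U x d {v | 2 ≤ g v}}) ?_).trans ?_
    · rintro g hg ⟨u, hu, h | ⟨w, hw, v, a, c⟩⟩
      · exact absurd (hU hu) h
      · have : g v ≠ 1 := c.left.2
        by_cases h : g v ≤ 1 - 1
        · exact Or.inl ⟨u, hu, v, w, (Lp.conn_le hg.1 c h).symm.mono fun q hq => ⟨hq.1.1, hq.2⟩,
            a.symm, hw⟩
        · exact Or.inr ⟨u, hu, v, w, (Lp.conn_ge hg.1 c (by omega)).symm.mono
            fun q hq => ⟨hq.1.1, hq.2⟩, a.symm, hw⟩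
    · have := arm_high W.fin h01 U x d
      have e : η ^ 4 / (8 * (C + 1)) = η ^ 4 / (16 * (C + 1)) + η ^ 4 / (16 * (C + 1)) := by
        field_simp; ring
      linarith
  have m4 : Ex (HD W.R ξ) (fun g => ((mn B x g - (1 : ℤ)) ^ 2) ^ 2) ≤ 8 * (C + 1) := by
    refine le_trans (ex_mono (g := fun g => 8 * (|mn B x g - (0 : ℤ)| ^ 4 + 1)) fun g _ => ?_) ?_
    · rw [show (4 : ℕ) = 2 * 2 from rfl, pow_mul, sq_abs]
      push_cast
      generalize mn B x g = t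
      nlinarith [sq_nonneg (t + 1), sq_nonneg (t ^ 2 - 1), sq_nonneg ((t + 1) ^ 2),
        sq_nonneg (t ^ 2 + t), sq_nonneg t]
    · rw [ex_mul, ex_add, ex_const o]
      linarith
  have c1 := ex_mul_sq_le (HD W.R ξ) (fun g => (mn B x g - (1 : ℤ)) * H.indicator 1 g) Y
  have c2 := ex_mul_sq_le (HD W.R ξ) (fun g => (mn B x g - (1 : ℤ)) ^ 2) (H.indicator 1)
  have i2 : ∀ g, (H.indicator (1 : (V → ℤ) → ℝ) g) ^ 2 = H.indicator 1 g := fun g => by
    by_cases hg : g ∈ H <;> simp [hg]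
  simp only [mul_pow, i2] at c1 c2
  rw [show (fun g => H.indicator (1 : (V → ℤ) → ℝ) g) = H.indicator 1 from rfl, ← pr_eq] at c2
  have c3 : Ex (HD W.R ξ) (fun g => (mn B x g - (1 : ℤ)) ^ 2 * H.indicator 1 g) ≤ η ^ 2 := by
    refine abs_le_of_sq_le_sq' (c2.trans ?_) (by positivity) |>.2
    refine (mul_le_mul m4 pH (pr_nonneg _ _) (by positivity)).trans (le_of_eq ?_)
    field_simp
  have y0 : 0 ≤ Ex (HD W.R ξ) fun g => Y g ^ 2 := ex_nonneg fun _ _ => sq_nonneg _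
  rw [e1]
  refine abs_le_of_sq_le_sq (c1.trans ?_) (by positivity)
  rw [mul_pow, Real.sq_sqrt y0]
  exact mul_le_mul_of_nonneg_right c3 y0

theorem dirSt (ha : ArmSt) (hm : MbSt) : DirSt := by
  intro η hη
  obtain ⟨C, hC, hm⟩ := hm 4
  obtain ⟨l, hl⟩ := ha (η ^ 4 / (16 * (C + 1))) (by positivity)
  have core : ∀ (W : Wall) (ξ : V → ℤ) (z0 x : V) (d r : ℤ) (i0 i1 : ℕ) (U : Set V)
      (Y : (V → ℤ) → ℝ), (∀ v, v ∉ W.R → ξ v = 0 ∨ ξ v = 1) → W.Dist x d → max l 3 * d ≤ r →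
      W.Pocket ξ z0 x d r i0 i1 U 1 → DependsOn Y Uᶜ →
      |Ex (HD W.R ξ) fun g => ((g x : ℝ) - (1 : ℤ)) * Y g| ≤
        η * √(Ex (HD W.R ξ) fun g => Y g ^ 2) := by
    intro W ξ z0 x d r i0 i1 U Y h01 hd hr hP hY
    have d1 := hd.1
    have r1 : l * d ≤ r := (mul_le_mul_of_nonneg_right (le_max_left l 3) (by omega)).trans hr
    have r2 : 3 * d ≤ r := (mul_le_mul_of_nonneg_right (le_max_right l 3) (by omega)).trans hr
    refine dir_one h01 hd (by omega) hP hY hη hC ?_ (hl W ξ z0 x d r i0 i1 U h01 hd r1 hP)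
    obtain ⟨w, hw, hw'⟩ := hd.2.2
    have := hm W.R (Bx x (d - 1)) ξ 0 x (d + 1) (d + 1) ⟨W.fin, W.coconn⟩
      (ok_two (k := 0) W.fin (by simpa using h01))
      (fun v _ hv => by have := h01 v hv; simp only [mem_Icc]; omega) (by omega) le_rfl
      ⟨w, Bx_mono (by omega) hw, hw'⟩
      (hd.2.1 (mem_Bx_ds.2 (by rw [ds_self]; omega))) hd.2.1 (Bx_mono (by omega))
    rwa [div_self (by exact_mod_cast (by omega : d + 1 ≠ 0)), Real.log_one, add_zero, one_pow,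
      mul_one] at this
  refine ⟨max l 3, fun W ξ z0 x d r s i0 i1 U Y h01 hd hr hP hY => ?_⟩
  have d1 := hd.1
  have r2 : 3 * d ≤ r := (mul_le_mul_of_nonneg_right (le_max_right l 3) (by omega)).trans hr
  have hs := hP.flat _ (hP.closed x hP.mem _ (NConn.mono hP.near subset_rfl (Bx_mono (by omega))))
    (W.out i0)
  rcases h01 _ (W.out i0) with h | h
  · obtain rfl : s = 0 := hs.symm.trans h
    have := core W (fun v => 1 - ξ v) z0 x d r i0 i1 U (fun g => Y fun v => 1 - g v)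
      (fun v hv => by have := h01 v hv; omega) hd hr
      ⟨hP.lt, hP.lt', hP.near, hP.far, hP.mem, hP.closed,
        fun w h1 h2 => by rw [hP.flat w h1 h2]; rfl, hP.bulk, hP.rest, hP.cut⟩
      fun a b e => hY fun v hv => by simp only [e v hv]
    rw [← ex_bij (bij_HD_neg 1 W.R ξ), ← ex_bij (bij_HD_neg 1 W.R ξ)] at this
    simp only [sub_sub_cancel] at this
    rw [← abs_neg, ← ex_neg]
    refine le_trans (le_of_eq (congrArg _ (ex_congr fun g _ => ?_))) this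
    push_cast
    ring
  · obtain rfl : s = 1 := hs.symm.trans h
    exact core W ξ z0 x d r i0 i1 U Y h01 hd hr hP hY

end Pool.Agent.Lib.MP_6359c9_pr
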