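import Pool.Agent.Lib.MP_6359c9_pr.HBase

/-! Height side: the moments of the conditional mean, by reflection inside the outermost blue
double circuit. -/

namespace Pool.Agent.Lib.MP_6359c9_pr

open Set

/-! ### two general facts on averages -/

lemma ex_jensen {Ω : Type} {M : Set Ω} (hM : Ok M) (f : Ω → ℝ) (p : ℕ) :
    |Ex M f| ^ p ≤ Ex M fun x => |f x| ^ p := by
  refine (pow_le_pow_left₀ (abs_nonneg _) (abs_ex_le M f) p).trans ?_
  have h0 := hM.pos
  have := Real.pow_arith_mean_le_arith_mean_pow hM.1.toFinset (fun _ => 1 / (M.ncard : ℝ))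
    (fun x => |f x|) (fun _ _ => by positivity) (by
      rw [Finset.sum_const, ← Set.ncard_eq_toFinset_card M hM.1, nsmul_eq_mul]; field_simp)
    (fun _ _ => abs_nonneg _) p
  rw [ex_eq hM.1, ex_eq hM.1]
  simpa only [Finset.sum_div, one_div, ← div_eq_inv_mul] using this

/-- geometric tails beyond a logarithmic level give logarithmic moments -/
lemma mom_of_tail {θ B : ℝ} (h0 : 0 < θ) (h1 : θ < 1) (hB : 0 ≤ B) (p : ℕ) : ∃ C : ℝ, 0 < C ∧
    ∀ {Ω : Type} (M : Set Ω) (Z : Ω → ℝ) (A : ℝ), Ok M → 1 ≤ A → (∀ x ∈ M, 0 ≤ Z x) →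
      (∀ j : ℕ, Pr M {x | (j : ℝ) + 2 < Z x} ≤ B * A * θ ^ j) →
      Ex M (fun x => Z x ^ p) ≤ C * (1 + Real.log A) ^ p := by
  have hs : Summable fun i : ℕ => ((i : ℝ) + 1) ^ p * θ ^ i := by
    have := (summable_nat_add_iff 1).2 (summable_pow_mul_geometric_of_norm_lt_one p
      (r := θ) (by rwa [Real.norm_eq_abs, abs_of_pos h0]))
    refine (this.mul_left θ⁻¹).congr fun i => ?_
    push_cast
    field_simp
    ring
  set S := ∑' i : ℕ, ((i : ℝ) + 1) ^ p * θ ^ i with hS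
  have S0 : 0 ≤ S := tsum_nonneg fun i => by positivity
  have hc : 0 < -Real.log θ := neg_pos.2 (Real.log_neg h0 h1)
  set c := -Real.log θ with hcd
  refine ⟨(4 + 1 / c) ^ p * (1 + B * S), by positivity, fun {Ω} M Z A hM hA hZ hT => ?_⟩
  have hL := Real.log_nonneg hA
  set j0 := ⌈Real.log A / c⌉₊ with hj
  have e1 : A * θ ^ j0 ≤ 1 := by
    have : Real.log A ≤ j0 * c := (div_le_iff₀ hc).1 (Nat.le_ceil _)
    rw [← Real.log_le_log_iff (by positivity) one_pos, Real.log_mul (by positivity)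
      (by positivity), Real.log_pow, Real.log_one]
    linarith
  have e2 : (j0 : ℝ) + 3 ≤ (4 + 1 / c) * (1 + Real.log A) := by
    have : (j0 : ℝ) < Real.log A * (1 / c) + 1 := by
      rw [← div_eq_mul_one_div]
      exact Nat.ceil_lt_add_one (show 0 ≤ Real.log A / c by positivity)
    have h2 : 0 ≤ 1 / c := by positivity
    nlinarith
  obtain ⟨b, hb⟩ := (hM.1.image Z).bddAbove
  obtain ⟨n, hn⟩ := exists_nat_gt b
  have key : ∀ x ∈ M, Z x ^ p ≤ ((j0 : ℝ) + 3) ^ p * (1 + ∑ i ∈ Finset.range n,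
      ((i : ℝ) + 1) ^ p * indicator {x | ((j0 + i : ℕ) : ℝ) + 2 < Z x} 1 x) := by
    intro x hx
    have nn : ∀ i ∈ Finset.range n, 0 ≤ ((i : ℝ) + 1) ^ p *
        indicator {x | ((j0 + i : ℕ) : ℝ) + 2 < Z x} (1 : Ω → ℝ) x := fun i _ =>
      mul_nonneg (by positivity) (indicator_nonneg (fun _ _ => zero_le_one) _)
    have z0 := hZ x hx
    by_cases h : Z x ≤ j0 + 3
    · exact (pow_le_pow_left₀ z0 h p).trans (le_mul_of_one_le_right (by positivity)
        (le_add_of_nonneg_right (Finset.sum_nonneg nn)))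
    · push Not at h
      set i := ⌈Z x - j0 - 3⌉₊ with hi
      have i1 : Z x - j0 - 3 ≤ i := Nat.le_ceil _
      have i2 : (i : ℝ) < Z x - j0 - 3 + 1 := Nat.ceil_lt_add_one (by linarith)
      have i3 : i ∈ Finset.range n := by
        have : Z x ≤ b := hb ⟨x, hx, rfl⟩
        have h3 : (0 : ℝ) ≤ j0 := Nat.cast_nonneg _
        rw [Finset.mem_range]
        exact_mod_cast (show (i : ℝ) < n by linarith)
      have := Finset.single_le_sum nn i3
      rw [indicator_of_mem (by rw [mem_ofPred_eq]; push_cast; linarith), Pi.one_apply,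
        mul_one] at this
      have h3 : (0 : ℝ) ≤ j0 := Nat.cast_nonneg _
      have h4 : (0 : ℝ) ≤ i := Nat.cast_nonneg _
      calc Z x ^ p ≤ (((j0 : ℝ) + 3) * (i + 1)) ^ p := pow_le_pow_left₀ z0 (by nlinarith) p
        _ = ((j0 : ℝ) + 3) ^ p * (i + 1) ^ p := mul_pow _ _ _
        _ ≤ _ := mul_le_mul_of_nonneg_left (by linarith) (by positivity)
  refine (ex_mono key).trans ?_
  rw [ex_mul, ex_add, ex_const hM, ex_sum]
  have e3 : ∑ i ∈ Finset.range n, Ex M (fun x => ((i : ℝ) + 1) ^ p *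
      indicator {x | ((j0 + i : ℕ) : ℝ) + 2 < Z x} 1 x) ≤ B * S := by
    refine le_trans (Finset.sum_le_sum fun i _ => ?_) ((Finset.mul_sum _ _ _).ge.trans
      (mul_le_mul_of_nonneg_left (hs.sum_le_tsum (Finset.range n) fun i _ => by positivity) hB))
    rw [ex_mul, ← pr_eq]
    have := hT (j0 + i)
    calc _ ≤ ((i : ℝ) + 1) ^ p * (B * A * θ ^ (j0 + i)) :=
          mul_le_mul_of_nonneg_left this (by positivity)
      _ = B * (((i : ℝ) + 1) ^ p * θ ^ i) * (A * θ ^ j0) := by ring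
      _ ≤ _ := mul_le_of_le_one_right (by positivity) e1
  calc _ ≤ ((4 + 1 / c) * (1 + Real.log A)) ^ p * (1 + B * S) :=
        mul_le_mul (pow_le_pow_left₀ (by positivity) e2 p) (add_le_add le_rfl e3)
          (add_nonneg zero_le_one (Finset.sum_nonneg fun i _ => ex_nonneg fun x _ =>
            mul_nonneg (by positivity) (indicator_nonneg (fun _ _ => zero_le_one) _)))
          (by positivity)
    _ = _ := by rw [mul_pow]; ring

/-! ### the reflection -/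

/-- the vertices with blue plus -/
def PB (g : V → ℤ) : Set V := {v | g v % 4 = 3 ∨ g v % 4 = 0}

/-- the component of `y` inside the outermost blue double circuit seen from `O` -/
def QB (O : Set V) (y : V) (g : V → ℤ) : Set V := {v | Conn (NK (PB g) O)ᶜ y v}

/-- the lower height of the blue plus pair -/
def lam (a : ℤ) : ℤ := a - (a + 1) % 4

open Classical in
/-- the level of the boundary of `Q` -/
noncomputable def lvl (Q : Set V) (g : V → ℤ) : ℤ :=
  lam (if h : ∃ u, u ∉ Q ∧ ∃ v ∈ Q, Adj u v then g h.choose else 0)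

open Classical in
/-- the reflection inside `Q` -/
noncomputable def flq (Q : Set V) (g : V → ℤ) (v : V) : ℤ :=
  if v ∈ Q then 2 * lvl Q g + 1 - g v else g v

variable {O Q R U : Set V} {g ξ : V → ℤ} {y : V}

lemma lvl_mod (Q : Set V) (g : V → ℤ) : lvl Q g % 4 = 3 := by unfold lvl lam; omega

lemma flq_in {v : V} (h : v ∈ Q) : flq Q g v = 2 * lvl Q g + 1 - g v := if_pos h

lemma flq_out {v : V} (h : v ∉ Q) : flq Q g v = g v := if_neg h

lemma PB_flq (Q : Set V) (g : V → ℤ) : PB (flq Q g) = PB g := by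
  ext v
  have := lvl_mod Q g
  simp only [PB, mem_ofPred_eq]
  by_cases h : v ∈ Q
  · rw [flq_in h]; omega
  · rw [flq_out h]

lemma lvl_flq (Q : Set V) (g : V → ℤ) : lvl Q (flq Q g) = lvl Q g := by
  conv_lhs => unfold lvl
  conv_rhs => unfold lvl
  split_ifs with h
  · rw [flq_out h.choose_spec.1]
  · rfl

lemma flq_flq (Q : Set V) (g : V → ℤ) : flq Q (flq Q g) = g := by
  ext v
  by_cases h : v ∈ Q
  · rw [flq_in h, flq_in h, lvl_flq]; ring
  · rw [flq_out h, flq_out h]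

lemma QB_sub : QB O y g ⊆ Oᶜ := fun _ hv h => hv.right (sub_NK _ O h)

lemma QB_cut (hO : CoConn Oᶜ) (hg : Lp g) {u v : V} (hu : u ∉ QB O y g) (hv : v ∈ QB O y g)
    (a : Adj u v) : (g u = lvl (QB O y g) g ∨ g u = lvl (QB O y g) g + 1) ∧
      (g v = lvl (QB O y g) g ∨ g v = lvl (QB O y g) g + 1) := by
  have inK : ∀ u v, u ∉ QB O y g → v ∈ QB O y g → Adj u v → u ∈ NK (PB g) O :=
    fun u v hu hv a => by_contra fun h => hu (Conn.tail hv a.symm h)
  have h : ∃ u, u ∉ QB O y g ∧ ∃ v ∈ QB O y g, Adj u v := ⟨u, hu, v, hv, a⟩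
  obtain ⟨h1, v0, h2, a0⟩ := h.choose_spec
  have e : lvl (QB O y g) g = lam (g h.choose) := by unfold lvl; rw [dif_pos h]
  have := cut_iff (K := NK (PB g) O) (fun u hu v hv => by
      simpa using coConn_NK (P := PB g) hO u (not_not.2 hu) v (not_not.2 hv))
    (fun a _ => lam (g a) = lam (g h.choose)) (fun _ _ _ _ _ _ _ _ _ h => h)
    (fun a ha b hb c hc ac bc ab h => by
      have t1 : g a % 4 = 3 ∨ g a % 4 = 0 := (NK_bd ha hc ac).1
      have t2 : g b % 4 = 3 ∨ g b % 4 = 0 := (NK_bd hb hc bc).1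
      have t3 := hg a b ab
      rw [← h]
      unfold Hp at t3
      unfold lam
      omega)
    (inK _ _ h1 h2 a0) (inK _ _ hu hv a) a0 a (h2.symm.trans hv) rfl
  have t1 : g u % 4 = 3 ∨ g u % 4 = 0 := (NK_bd (inK _ _ hu hv a) hv.right a).1
  have t2 : g v % 4 = 3 ∨ g v % 4 = 0 := (NK_bd (inK _ _ hu hv a) hv.right a).2
  have t3 := hg u v a
  rw [e, ← this]
  unfold Hp at t3
  unfold lam
  omega

/-- the reflection inside the outermost blue double circuit around `y` -/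
noncomputable def rfQ (O : Set V) (y : V) (g : V → ℤ) : V → ℤ := flq (QB O y g) g

lemma QB_rfQ (O : Set V) (y : V) (g : V → ℤ) : QB O y (rfQ O y g) = QB O y g := by
  unfold rfQ
  conv_lhs => unfold QB
  rw [PB_flq]
  rfl

lemma rfQ_rfQ (O : Set V) (y : V) (g : V → ℤ) : rfQ O y (rfQ O y g) = g := by
  conv_lhs => unfold rfQ
  rw [show QB O y (flq (QB O y g) g) = QB O y g from QB_rfQ O y g, flq_flq]

lemma Lp.rfQ (hO : CoConn Oᶜ) (hg : Lp g) (y : V) : Lp (rfQ O y g) := fun u v a => by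
  have t := hg u v a
  unfold Pool.Agent.Lib.MP_6359c9_pr.rfQ
  unfold Hp at *
  by_cases hu : u ∈ QB O y g <;> by_cases hv : v ∈ QB O y g
  · rw [flq_in hu, flq_in hv]; omega
  · have := QB_cut hO hg hv hu a.symm
    rw [flq_in hu, flq_out hv]; omega
  · have := QB_cut hO hg hu hv a
    rw [flq_out hu, flq_in hv]; omega
  · rw [flq_out hu, flq_out hv]; omega

/-- the average of the height at `y` and of its reflection -/
noncomputable def LB (O : Set V) (y : V) (g : V → ℤ) : ℝ := ((g y : ℝ) + rfQ O y g y) / 2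

lemma mn_LB (hO : CoConn Oᶜ) (hU : Oᶜ ⊆ U) (y : V) (x : V → ℤ) :
    mn U y x = Ex (HD U x) (LB O y) := by
  have m : ∀ g ∈ HD U x, rfQ O y g ∈ HD U x := fun g hg =>
    ⟨Lp.rfQ hO hg.1 y, fun v hv => (flq_out fun h => hv (hU (QB_sub h))).trans (hg.2 v hv)⟩
  have := ex_bij (bij_of_inv m m (fun g _ => rfQ_rfQ O y g) fun g _ => rfQ_rfQ O y g)
    fun g => (g y : ℝ)
  unfold LB
  simp only [div_eq_mul_inv]
  rw [ex_mul', ex_add, this, mn]
  ring

/-- a path from the wall along which the heights lie in `A` meets the boundary of `Q` -/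
lemma LB_near (hO : CoConn Oᶜ) (hR : Oᶜ ⊆ R) (hy : y ∈ R) (hg : Lp g) {I : Set V} {A : Set ℤ}
    (hI : ∀ u ∈ I, u ∈ QB O y g ∨ u = y) (h : Cr ({v | g v ∈ A} ∪ Rᶜ) I Rᶜ) :
    ∃ a ∈ A, |LB O y g - a| ≤ 1 := by
  obtain ⟨u, hu, w, hw, c⟩ := h
  by_cases hQ : u ∈ QB O y g
  · obtain ⟨a, b, c1, ab, hb, -⟩ := c.exit hQ fun h => hw (hR (QB_sub h))
    refine ⟨g a, c1.right.1.resolve_right fun h => h (hR (QB_sub c1.right.2)), ?_⟩
    have e : rfQ O y g y = _ := flq_in (Q := QB O y g) (Conn.refl hQ.left)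
    rw [LB, e, abs_le]
    push_cast
    rcases (QB_cut hO hg hb c1.right.2 ab.symm).2 with h | h <;> rw [h] <;> push_cast <;>
      constructor <;> linarith
  · obtain rfl := (hI u hu).resolve_left hQ
    refine ⟨g u, c.left.resolve_right fun h => h hy, ?_⟩
    have e : rfQ O u g u = _ := flq_out hQ
    rw [LB, e]
    simp

/-! ### the tails -/

/-- blue double circuits -/
lemma ring_blue : ∃ C α : ℝ, 0 < C ∧ 0 < α ∧ ∀ (R : Set V) (ξ : V → ℤ) (y : V) (n N : ℤ), Cls R →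
    Ok (HD R ξ) → Bd R ξ (Icc 0 1) → 1 ≤ n → n ≤ N → Bx y N ⊆ R →
    Pr (HD R ξ) {g | ¬Sep (PB g) (Bx y n) (Bx y N)ᶜ} ≤ C * ((n : ℝ) / N) ^ α := by
  obtain ⟨C, α, hC, hα, H⟩ := arm_tm
  refine ⟨C, α, hC, hα, fun R ξ y n N hR ok hb h1 h2 hB => ?_⟩
  set ξ' : V → ℤ := fun v => if ξ v = 1 then 1 else 0 with hξ
  have t : ∀ v, ξ' v = 0 ∨ ξ' v = 1 := fun v => by simp only [hξ]; split_ifs <;> simp
  have dec : ∀ η, Dec Hp (wl R η) (cl R)ᶜ := fun η u hu v _ a => Or.inl fun _ ha _ hb =>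
    (ha fun h => hu (mem_cl h a.symm)).trans (hb fun h => hu (mem_cl h a.symm)).symm
  have dep : Dep (cl R)ᶜᶜ {g | ¬Sep (PB g) (Bx y n) (Bx y N)ᶜ} := fun a b e ha hb =>
    ha (hb.loc fun v _ hv hP => by
      have := e v (by rw [compl_compl] at hv ⊢; exact cl_mono hB hv)
      simpa only [PB, mem_ofPred_eq, this] using hP)
  have e1 : Pr (HD R ξ) {g | ¬Sep (PB g) (Bx y n) (Bx y N)ᶜ} =
      Pr (HD R ξ') {g | ¬Sep (PB g) (Bx y n) (Bx y N)ᶜ} := by
    rw [pr_eq, pr_eq]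
    refine markov' (dec ξ) (dec ξ') (fun v hv => Set.ext fun a => imp_congr_right fun h => ?_) ok
      (ok_two (k := 0) hR.fin fun v _ => by simpa using t v) dep.ind
    have := hb v (not_not.1 hv) h
    rw [mem_Icc] at this
    simp only [hξ]
    split_ifs <;> omega
  set ρ : V → Set Bool := fun v => {b | v ∉ R → b = (sp1 (ξ' v)).2} with hρ
  have B1 : BijOn spn (HD R ξ') (Sp (tb ρ R)) := bij_spn hR.fin hR.co
    (fun v hv a ha => by rw [ha hv]; exact t v) (fun v hv s hs => hs.2 hv) fun v a h => by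
      by_cases hv : v ∈ R
      · simp [wl, tb, hρ, hv]
      · simp only [wl, tb, hρ, mem_ofPred_eq, hv, not_false_eq_true, forall_const]
        rcases h hv with rfl | rfl <;> rcases t v with e | e <;> rw [e] <;> decide
  have := H true ρ R y n N ⟨hR.fin, hR.co, ⟨R, hR.fin, fun v hv _ ha _ hb =>
    (ha hv).trans (hb hv).symm⟩, fun v => ⟨_, fun _ => rfl⟩⟩ h1 h2 fun v hv _ =>
      ⟨eq_univ_of_forall fun _ h => absurd (hB hv) h, hB hv⟩
  rw [← pr_bij ((bij_tb ρ R).comp B1)] at this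
  rw [e1]
  refine le_of_eq_of_le (pr_congr fun g _ => ?_) this
  have : lev (red (sw (spn g))) true = PB g := Set.ext fun v => sp1_blue
  simp only [SepE, mem_ofPred_eq, mem_preimage, mem_compl_iff, Function.comp_apply, this]

lemma LB_tail (h : TailSt) : ∃ θ B : ℝ, 0 < θ ∧ θ < 1 ∧ 0 ≤ B ∧ ∀ (R : Set V) (ξ : V → ℤ) (y : V)
    (ρ d : ℤ) (j : ℕ), Cls R → Ok (HD R ξ) → Bd R ξ (Icc 0 1) → 1 ≤ ρ → ρ ≤ d →
    (∃ w ∈ Bx y d, w ∉ R) → y ∈ R → Bx y (ρ - 2) ⊆ R →
    Pr (HD R ξ) {g | (j : ℝ) + 2 < |LB (Bx y (ρ - 2))ᶜ y g|} ≤ B * (d / ρ) * θ ^ j := by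
  obtain ⟨θ, h0, h1, C, H⟩ := h
  obtain ⟨C1, α, hC1, hα, G⟩ := ring_blue
  set τ := √θ with hτ
  have τ0 : 0 < τ := Real.sqrt_pos.2 h0
  have τ1 : τ < 1 := by rw [hτ, Real.sqrt_lt' one_pos]; linarith
  have τ2 : θ = τ * τ := (Real.mul_self_sqrt h0.le).symm
  refine ⟨max τ (τ ^ α), C1 + 12 * |C|, lt_max_of_lt_left τ0,
    max_lt τ1 (Real.rpow_lt_one τ0.le τ1 hα), by positivity,
    fun R ξ y ρ d j hR ok hb r1 rd hw hy hB => ?_⟩
  set μ := max τ (τ ^ α) with hμ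
  have ρ1 : (1 : ℝ) ≤ ρ := by exact_mod_cast r1
  have ρd : (ρ : ℝ) ≤ d := by exact_mod_cast rd
  have A1 : (1 : ℝ) ≤ d / ρ := (one_le_div (by linarith)).2 ρd
  have tj : 0 < τ ^ j := by positivity
  have tj1 : τ ^ j ≤ 1 := pow_le_one₀ τ0.le τ1.le
  obtain ⟨n, n0, n1, n2⟩ : ∃ n : ℤ, 0 ≤ n ∧ (n : ℝ) ≤ ρ * τ ^ j / 3 ∧ ρ * τ ^ j / 3 < (n : ℝ) + 1 :=
    ⟨_, Int.floor_nonneg.2 (by positivity), Int.floor_le _, Int.lt_floor_add_one _⟩
  have n3 : 3 * n ≤ ρ := by
    have : (3 : ℝ) * n ≤ ρ := by nlinarith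
    exact_mod_cast this
  have hO : CoConn (Bx y (ρ - 2))ᶜᶜ := by rw [compl_compl]; exact Bx_coConn _ _
  have hO' : (Bx y (ρ - 2))ᶜᶜ ⊆ R := by rwa [compl_compl]
  have T : ∀ η, Ok (HD R η) → Bd R η (Iic 1) →
      Pr (HD R η) {g | ¬Cr ({v | g v ≤ 1 + j} ∪ Rᶜ) (Bx y n) Rᶜ} ≤ 6 * |C| * (d / ρ) * μ ^ j := by
    intro η ok hb
    refine (H R η 1 j y n d hR ok hb n0 (by omega) hw).trans ?_
    have n4 : (0 : ℝ) ≤ n := by exact_mod_cast n0
    have e : ((d : ℝ) + 1) / (n + 1) * τ ^ j ≤ 6 * (d / ρ) := by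
      rw [div_mul_eq_mul_div, ← mul_div_assoc, div_le_div_iff₀ (by linarith) (by linarith)]
      nlinarith [mul_pos tj (show (0 : ℝ) < ρ by linarith)]
    calc _ ≤ |C| * ((d + 1) / (n + 1)) * θ ^ j := by
          have : (0 : ℝ) ≤ (d + 1) / (n + 1) := div_nonneg (by linarith) (by linarith)
          gcongr
          exact le_abs_self C
      _ = |C| * (((d : ℝ) + 1) / (n + 1) * τ ^ j) * τ ^ j := by rw [τ2, mul_pow]; ring
      _ ≤ |C| * (6 * (d / ρ)) * μ ^ j := by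
          gcongr
          exact le_max_left _ _
      _ = _ := by ring
  have T1 := T ξ ok (hb.mono fun _ h => h.2)
  have T2 := T _ ((ok_bij (bij_HD_neg 1 R ξ)).1 ok) fun v h1 h2 => by
    have := (hb v h1 h2).1
    simp only [mem_Iic]
    omega
  rw [← pr_bij (bij_HD_neg 1 R ξ)] at T2
  have T3 : Pr (HD R ξ) {g | ¬∀ u ∈ Bx y n, u ∈ QB (Bx y (ρ - 2))ᶜ y g ∨ u = y} ≤
      C1 * (d / ρ) * μ ^ j := by
    rcases n0.eq_or_lt with e | e
    · refine le_trans (le_of_eq (pr_none fun g _ hg => hg fun u hu => Or.inr ?_)) (by positivity)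
      rw [← e, mem_Bx] at hu
      exact Prod.ext (by omega) (by omega)
    refine le_trans (pr_mono (B := {g | ¬Sep (PB g) (Bx y n) (Bx y (ρ - 2))ᶜ})
      fun g _ hg hs => hg fun u hu => Or.inl ?_)
      ((G R ξ y n (ρ - 2) hR ok hb (by omega) (by omega) hB).trans ?_)
    · exact (Bx_conn (mem_Bx_ds.2 (by rw [ds_self]; exact n0)) hu).mono
        fun v hv hK => sep_iff.1 hs.symm v hK hv
    · have r3 : (3 : ℝ) ≤ ρ := by exact_mod_cast (show (3 : ℤ) ≤ ρ by omega)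
      have n4 : (0 : ℝ) ≤ n := by exact_mod_cast n0
      have e1 : (n : ℝ) / ((ρ - 2 : ℤ) : ℝ) ≤ τ ^ j := by
        push_cast
        rw [div_le_iff₀ (by linarith)]
        nlinarith
      calc _ ≤ C1 * (τ ^ j) ^ α := by
            gcongr
            push_cast
            exact div_nonneg n4 (by linarith)
        _ = C1 * 1 * (τ ^ α) ^ j := by
            rw [mul_one, ← Real.rpow_natCast, ← Real.rpow_mul τ0.le, mul_comm (j : ℝ),
              Real.rpow_mul τ0.le, Real.rpow_natCast]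
        _ ≤ _ := by
            gcongr
            exact le_max_right _ _
  refine (pr_le_add (B := {g | ¬∀ u ∈ Bx y n, u ∈ QB (Bx y (ρ - 2))ᶜ y g ∨ u = y})
    (C := {g | ¬Cr ({v | g v ≤ 1 + j} ∪ Rᶜ) (Bx y n) Rᶜ} ∪
      {g | ¬Cr ({v | 1 - g v ≤ 1 + j} ∪ Rᶜ) (Bx y n) Rᶜ}) fun g hg hL => ?_).trans
    ((add_le_add T3 ((pr_union_le _ _ _).trans (add_le_add T1 T2))).trans (le_of_eq (by ring)))
  by_contra hc
  simp only [mem_ofPred_eq, mem_union, not_or, not_not] at hc hL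
  obtain ⟨a, ha, la⟩ := LB_near hO hO' hy hg.1 (A := {a | a ≤ 1 + j}) hc.1 hc.2.1
  obtain ⟨b, hb, lb⟩ := LB_near hO hO' hy hg.1 (A := {a | 1 - a ≤ 1 + j}) hc.1 hc.2.2
  have a1 : (a : ℝ) ≤ 1 + j := by exact_mod_cast ha
  have b1 : 1 - (b : ℝ) ≤ 1 + j := by exact_mod_cast hb
  rw [abs_le] at la lb
  exact absurd hL (not_lt.2 (abs_le.2 ⟨by linarith, by linarith⟩))

/-- moments of the conditional mean -/
theorem mbSt (h : TailSt) : MbSt := by
  intro p
  obtain ⟨θ, B, h0, h1, hB, H⟩ := LB_tail h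
  obtain ⟨C, hC, K⟩ := mom_of_tail h0 h1 hB p
  refine ⟨C, hC, fun R U ξ k y ρ d hR ok hb r1 rd hw hy hU hN => ?_⟩
  have hUf := hR.fin.subset hU
  have b := bij_HD_shift (-k) R ξ
  have ok' := (ok_bij b).1 ok
  have e : Ex (HD R ξ) (fun g => |mn U y g - k| ^ p) =
      Ex (HD R fun v => ξ v + -k) fun g => |mn U y g| ^ p := by
    rw [← ex_bij b]
    refine ex_congr fun g hg => ?_
    rw [mn_shift hUf hg.1]
    push_cast
    rfl
  have hO : CoConn (Bx y (ρ - 2))ᶜᶜ := by rw [compl_compl]; exact Bx_coConn _ _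
  have ρ1 : (1 : ℝ) ≤ ρ := by exact_mod_cast r1
  have ρd : (ρ : ℝ) ≤ d := by exact_mod_cast rd
  refine e.trans_le (le_trans ?_ (K _ (fun g => |LB (Bx y (ρ - 2))ᶜ y g|) _ ok'
    ((one_le_div (by linarith)).2 ρd) (fun _ _ => abs_nonneg _) fun j =>
      H R _ y ρ d j hR ok' (fun v h1 h2 => ?_) r1 rd hw hy (hN.trans hU)))
  · rw [ex_HD_cond hU _ fun g => |LB (Bx y (ρ - 2))ᶜ y g| ^ p]
    refine ex_mono fun g hg => ?_
    rw [mn_LB hO (by rwa [compl_compl]) y g]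
    exact ex_jensen (Lp.ok hg.1 hUf) _ p
  · have := hb v h1 h2
    rw [mem_Icc] at this ⊢
    omega

end Pool.Agent.Lib.MP_6359c9_pr
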