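import Pool.Agent.Lib.MP_6359c9_pr.HBase

/-! Tail of the height barrier between the wall and a box. -/

namespace Pool.Agent.Lib.MP_6359c9_pr

open Set

namespace Tl

variable {R W : Set V} {ξ g x : V → ℤ} {k r : ℤ} {y : V}

/-- the low cluster of the wall with its neighbours -/
def LK (R : Set V) (k : ℤ) (g : V → ℤ) : Set V := cl (SK (Iic (k + 1)) R Rᶜ g)

/-- the low cluster reaches the box -/
def Gd (R : Set V) (k : ℤ) (y : V) (r : ℤ) : Set (V → ℤ) := {g | ∃ p ∈ Bx y r, p ∈ LK R k g}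

/-- no low path from the box to the wall -/
def Bad (R : Set V) (l : ℤ) (y : V) (ρ : ℤ) : Set (V → ℤ) :=
  {g | ¬Cr ({v | g v ≤ l} ∪ Rᶜ) (Bx y ρ) Rᶜ}

lemma up_Gd : Up (cl R) (Gd R k y r)ᶜ := fun a b _ _ e ha ⟨p, hp, h⟩ => ha ⟨p, hp, cl_mono (by
  rintro v (hv | ⟨o, ho, u, h1, h2⟩)
  · exact Or.inl hv
  · exact Or.inr ⟨o, ho, u, h1, h2.mono fun q hq =>
      ⟨hq.1, (e q (sub_cl _ hq.1)).trans hq.2⟩⟩) h⟩

lemma ring_Gd (hR : Cls R) (hg : g ∈ Ht (dd 0 R W)) {w : V} (hw : w ∉ R) {a b : ℤ} (h0 : 0 ≤ a)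
    (hab : a < b) {p q : V} (hp : p ∈ Bx y r) (hp' : p ∈ Bx w a) (hq : q ∈ Bx y r)
    (hq' : q ∉ Bx w b) (hs : red (spn g) ∈ SepE true (Bx w a) (Bx w b)ᶜ) (k : ℤ) :
    (fun v => g v + k) ∈ Gd R k y r := by
  set P := lev (red (spn g)) true with hP
  have mP : ∀ v, v ∈ P ↔ g v % 4 = 0 ∨ g v % 4 = 1 := fun v => sp1_red
  have oR : ∀ v, v ∉ R → g v = 0 ∨ g v = 1 := fun v hv => by simpa using (hg.2 v).1 hv
  have blk : Blk (P ∪ Bx y r)ᶜ (Bx w a) (Bx w b)ᶜ := by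
    rintro ⟨u, ⟨i, hi, a1⟩, v, ⟨o, ho, a2⟩, c⟩
    have nP : ∀ z ∈ (P ∪ Bx y r)ᶜ ∩ (Bx w a ∪ (Bx w b)ᶜ)ᶜ, z ∉ P := fun z hz h => hz.1 (Or.inl h)
    exact hs i hi o ho ((((NConn.refl (mem_univ i)).tail a1 trivial fun h => nP _ c.left h.2).trans
      ((c.nconn nP).mono subset_rfl (subset_univ _))).tail a2.symm trivial
        fun h => nP _ c.right h.1)
  obtain ⟨z, hz⟩ := (hR.fin.union (Bx_finite w b)).exists_notMem
  have zR : z ∉ R := fun h => hz (Or.inl h)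
  have c := blk.join hab (subset_univ _) (w := w) (mem_Bx_ds.2 (by rw [ds_self]; exact h0))
    (fun h => hz (Or.inr h)) hp' hq'
    ((hR.co w hw z zR).mono fun v hv => ⟨Or.inl ((mP v).2 (by have := oR v hv; omega)), trivial⟩)
    ((Bx_conn hp hq).mono fun v hv => ⟨Or.inr hv, trivial⟩)
  rcases c.ind (P := fun v => (v ∈ SK (Iic (k + 1)) R Rᶜ (fun v => g v + k) ∧
      (g v = 0 ∨ g v = 1)) ∨ (fun v => g v + k) ∈ Gd R k y r) (Or.inl ⟨sub_SK zR, oR z zR⟩) (by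
    rintro u v - e hv (⟨h1, h2⟩ | h)
    · rcases hv.1 with h3 | h3
      · have h4 := (mP v).1 h3
        have h5 := hg.1 u v e
        unfold Hp at h5
        have h6 : g v = 0 ∨ g v = 1 := by omega
        refine Or.inl ⟨?_, h6⟩
        by_cases hR : v ∈ R
        · exact SK_step h1 e hR (by simp only [mem_Iic]; omega)
        · exact sub_SK hR
      · exact Or.inr ⟨v, h3, mem_cl h1 e⟩
    · exact Or.inr h) with h | h
  · exact ⟨q, hq, sub_cl _ h.1⟩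
  · exact h

lemma low_LK (hx : x ∈ HD R ξ) (hb : Bd R ξ (Iic k)) {v : V} (hv : v ∈ LK R k x) (vR : v ∈ R) :
    x v ≤ k + 2 := by
  have s : ∀ u ∈ SK (Iic (k + 1)) R Rᶜ x, u ∈ cl R → x u ≤ k + 1 := by
    rintro u (hu | ⟨o, -, u', -, c⟩) h
    · have : ξ u ≤ k := hb u h hu
      rw [hx.2 u hu]; omega
    · exact c.right.2
  rcases hv with hv | ⟨u, hu, e⟩
  · have := s v hv (sub_cl _ vR)
    omega
  · have := s u hu (mem_cl vR e.symm)
    have h := hx.1 u v e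
    unfold Hp at h
    omega

/-- the low cluster gains half of the distance with positive probability -/
lemma step : ∃ c : ℝ, 0 < c ∧ c ≤ 1 ∧ ∀ (R : Set V) (ξ : V → ℤ) (k r : ℤ) (y : V), Cls R →
    Ok (HD R ξ) → Bd R ξ (Iic k) → 0 ≤ r → (∃ w ∈ Bx y (2 * r + 1), w ∉ R) →
    c ≤ Pr (HD R ξ) (Gd R k y r) := by
  obtain ⟨c, c0, hc⟩ := rsw_pp 2
  refine ⟨min c 1, lt_min c0 one_pos, min_le_right _ _, ?_⟩
  rintro R ξ k r y hR ok hb hr ⟨w, hw, wR⟩
  by_cases h1 : w ∈ Bx y r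
  · rw [pr_all (A := Gd R k y r) ok fun g _ => ⟨w, h1, sub_cl _ (sub_SK wR)⟩]
    exact min_le_right _ _
  rcases hr.eq_or_lt with rfl | hr
  · rw [pr_all ok fun g hg => ?_]
    · exact min_le_right _ _
    have y0 : y ∈ Bx y 0 := mem_Bx_ds.2 (ds_self y).le
    by_cases e : Adj w y
    · exact ⟨y, y0, mem_cl (sub_SK wR) e⟩
    have e1 : Adj w (w.1, y.2) := by
      simp only [mem_Bx, Adj, true_and] at hw h1 e ⊢; omega
    have e2 : Adj (w.1, y.2) y := by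
      simp only [mem_Bx, Adj, and_true] at hw h1 e ⊢; omega
    refine ⟨y, y0, mem_cl ?_ e2⟩
    by_cases zR : (w.1, y.2) ∈ R
    · refine SK_step (sub_SK wR) e1 zR ?_
      have h2 : ξ w ≤ k := hb w (mem_cl zR e1.symm) wR
      have h3 := hg.1 _ _ e1
      have h4 := hg.2 w wR
      unfold Hp at h3
      simp only [mem_Iic]
      omega
    · exact sub_SK zR
  have fW := cl_finite hR.fin
  have h2 := pr_HD_le_dd fW (sub_cl R) ok hb (up_Gd (k := k) (y := y) (r := r))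
  rw [pr_compl ok, pr_compl (ok_dd k R fW)] at h2
  refine (min_le_left _ _).trans (le_trans ?_ (by linarith : Pr (Ht (dd k R (cl R))) _ ≤ _))
  have h3 := pr_bij (bij_dd_shift 0 k R (cl R)) (Gd R k y r)
  rw [zero_add] at h3
  rw [← h3]
  set a := ds w y - r with ha
  have hd : r < ds w y := lt_of_not_ge fun h => h1 (mem_Bx_ds.2 h)
  have hd' := mem_Bx_ds.1 hw
  refine (hc r w (Bx w a) (Bx w (a + r))ᶜ R hr hR.fin (Bx_mono (by push_cast; omega))
    fun u hu v hv h => h (by simp only [mem_Bx] at *; omega)).trans ?_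
  rw [PP, ← pr_bij (bij_dd hR.fin hR.co (sub_cl R))]
  have hp : ∃ p ∈ Bx y r, p ∈ Bx w a :=
    ⟨(max (y.1 - r) (min w.1 (y.1 + r)), max (y.2 - r) (min w.2 (y.2 + r))), by
      simp only [mem_Bx]; omega, by
      have h4 : w ∈ Bx y (a + r) := mem_Bx_ds.2 (by omega)
      have h5 : 0 ≤ a := by omega
      clear_value a
      simp only [mem_Bx] at h4 ⊢
      omega⟩
  have hq : ∃ q ∈ Bx y r, q ∉ Bx w (a + r) :=
    ⟨(if y.1 ≤ w.1 then y.1 - r else y.1 + r, if y.2 ≤ w.2 then y.2 - r else y.2 + r), by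
      simp only [mem_Bx]; omega, by
      simp only [mem_Bx, ha, ds]
      rcases abs_cases (w.1 - y.1) with h | h <;> rcases abs_cases (w.2 - y.2) with h' | h' <;>
        omega⟩
  obtain ⟨p, hp, hp'⟩ := hp
  obtain ⟨q, hq, hq'⟩ := hq
  exact pr_mono fun g hg hs => ring_Gd hR hg wR (by omega) (by omega) hp hp' hq hq' hs k

lemma bad_sub {l ρ : ℤ} (hx : x ∈ HD R ξ) (hb : Bd R ξ (Iic k)) (hl : k + 2 ≤ l)
    (hg : g ∈ HD (R \ LK R k x) x) (h : g ∈ Bad R l y ρ) : g ∈ Bad (R \ LK R k x) l y ρ := by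
  rintro ⟨u, hu, v, hv, c⟩
  have s : LK R k x ⊆ {v | g v ≤ l} ∪ Rᶜ := fun q hq => by
    by_cases qR : q ∈ R
    · have := low_LK hx hb hq qR
      have := hg.2 q fun h => h.2 hq
      exact Or.inl (by simp only [mem_ofPred_eq]; omega)
    · exact Or.inr qR
  have s' : (R \ LK R k x)ᶜ ⊆ LK R k x := fun q hq => by
    by_contra n
    exact hq ⟨by_contra fun h => n (sub_cl _ (sub_SK h)), n⟩
  obtain ⟨o, ho, c'⟩ := cl_in (fun _ => SK_in) v (s' hv)
  exact h ⟨u, hu, o, ho, (c.mono (union_subset subset_union_left (s'.trans s))).trans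
    (c'.symm.mono s)⟩

lemma rec_bound : ∃ q : ℝ, 0 < q ∧ q < 1 ∧ ∀ (y : V) (ρ : ℤ), 0 ≤ ρ → ∀ (n m : ℕ) (R : Set V)
    (ξ : V → ℤ) (k : ℤ), Cls R → Ok (HD R ξ) → Bd R ξ (Iic k) →
    (∃ w ∈ Bx y (2 ^ m * (ρ + 1) - 1), w ∉ R) →
    Pr (HD R ξ) (Bad R (k + 2 * n) y ρ) ≤ 2 ^ m * q ^ n := by
  obtain ⟨c, c0, c1, hc⟩ := step
  refine ⟨1 - c / 2, by linarith, by linarith, fun y ρ hρ n => ?_⟩
  have q0 : 0 ≤ 1 - c / 2 := by linarith
  induction n with
  | zero =>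
    intro m R ξ k _ _ _ _
    rw [pow_zero, mul_one]
    exact (pr_le_one _ _).trans (one_le_pow₀ one_le_two)
  | succ n ih =>
    rintro m R ξ k hR ok hb ⟨w, hw, wR⟩
    rcases m with _ | m
    · rw [pr_none (A := Bad R _ y ρ) fun g _ h =>
        h ⟨w, by simpa using hw, w, wR, Conn.refl (Or.inr wR)⟩]
      positivity
    set r : ℤ := 2 ^ m * (ρ + 1) - 1 with hr
    have r0 : 0 ≤ r := by
      have : (1 : ℤ) ≤ 2 ^ m := one_le_pow₀ one_le_two
      nlinarith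
    have hw' : w ∈ Bx y (2 * r + 1) := by
      rwa [show 2 * r + 1 = 2 ^ (m + 1) * (ρ + 1) - 1 by rw [hr]; ring]
    have h1 := hc R ξ k r y hR ok hb r0 ⟨w, hw', wR⟩
    set B : ℝ := 2 ^ m * (1 - c / 2) ^ n with hB
    have B0 : 0 ≤ B := by positivity
    rw [pr_HD_stop (K := LK R k) (stop_SK _ _ _)]
    calc _ ≤ Ex (HD R ξ) fun x => 2 * B - B * (Gd R k y r).indicator 1 x := by
          refine ex_mono fun x hx => ?_
          have cR : Cls (R \ LK R k x) := 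
            cls_SK hR.fin (by rw [Set.sdiff_compl, inter_self]; exact hR.co)
          have bR : Bd (R \ LK R k x) x (Iic (k + 2)) := fun v h1 h2 => by
            have vR : v ∈ R := by_contra fun h => (SK_bd h1 h2).1 (sub_SK h)
            exact low_LK hx hb (by_contra fun h => h2 ⟨vR, h⟩) vR
          refine (pr_mono fun g hg h => bad_sub hx hb (by push_cast; omega) hg h).trans ?_
          rw [show k + 2 * ((n + 1 : ℕ) : ℤ) = k + 2 + 2 * n by push_cast; ring]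
          by_cases hG : x ∈ Gd R k y r
          · obtain ⟨p, hp, hp'⟩ := id hG
            refine (ih m _ x _ cR (Lp.ok hx.1 cR.fin) bR ⟨p, hp, fun h => h.2 hp'⟩).trans ?_
            simp only [indicator_of_mem hG, Pi.one_apply]
            linarith
          · refine (ih (m + 1) _ x _ cR (Lp.ok hx.1 cR.fin) bR ⟨w, hw, fun h => wR h.1⟩).trans ?_
            rw [indicator_of_notMem hG, hB, pow_succ]
            linarith
      _ = 2 * B - B * Pr (HD R ξ) (Gd R k y r) := by rw [ex_sub, ex_const ok, ex_mul, pr_eq]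
      _ ≤ 2 * B * (1 - c / 2) := by nlinarith
      _ = _ := by rw [hB]; ring

end Tl

theorem tailSt : TailSt := by
  obtain ⟨q, q0, q1, h⟩ := Tl.rec_bound
  have t0 : 0 < √q := Real.sqrt_pos.2 q0
  have t1 : √q < 1 := by rwa [Real.sqrt_lt' one_pos, one_pow]
  refine ⟨√q, t0, t1, 2 / √q, ?_⟩
  rintro R ξ k j y ρ d hR ok hb h0 hd ⟨w, hw, wR⟩
  have p : (0 : ℝ) < ρ + 1 := by exact_mod_cast (by omega : 0 < ρ + 1)
  obtain ⟨n, h1, h1'⟩ := exists_nat_pow_near (x := ((d : ℝ) + 1) / (ρ + 1))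
    ((one_le_div p).2 (by exact_mod_cast (by omega : ρ + 1 ≤ d + 1))) one_lt_two
  obtain ⟨m, hm, h2⟩ : ∃ m : ℕ, d + 1 ≤ 2 ^ m * (ρ + 1) ∧
      (2 : ℝ) ^ m ≤ 2 * ((d + 1) / (ρ + 1)) :=
    ⟨n + 1, by exact_mod_cast ((div_lt_iff₀ p).1 h1').le, by rw [pow_succ]; linarith⟩
  have h3 : q ^ (j / 2) ≤ √q ^ j / √q := by
    rw [le_div_iff₀ t0]
    calc q ^ (j / 2) * √q = √q ^ (2 * (j / 2) + 1) := by
          rw [pow_succ, pow_mul, Real.sq_sqrt q0.le]
      _ ≤ _ := pow_le_pow_of_le_one t0.le t1.le (by omega)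
  have h4 := h y ρ h0 (j / 2) m R ξ k hR ok hb ⟨w, Bx_mono (le_sub_iff_add_le.2 hm) hw, wR⟩
  have h5 : (2 : ℝ) ^ m * q ^ (j / 2) ≤ 2 * (((d : ℝ) + 1) / (ρ + 1)) * (√q ^ j / √q) :=
    mul_le_mul h2 h3 (by positivity) ((by positivity : (0 : ℝ) ≤ 2 ^ m).trans h2)
  have h6 : k + 2 * ((j / 2 : ℕ) : ℤ) ≤ k + j := by omega
  have h7 : Pr (HD R ξ) (Tl.Bad R (k + j) y ρ) ≤
      Pr (HD R ξ) (Tl.Bad R (k + 2 * ((j / 2 : ℕ) : ℤ)) y ρ) := pr_mono fun g _ hg c =>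
    hg (c.mono (union_subset_union_left _ fun v hv => le_trans hv h6) subset_rfl subset_rfl)
  exact h7.trans (h4.trans (h5.trans_eq (by ring)))

end Pool.Agent.Lib.MP_6359c9_pr
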