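import Pool.Agent.Lib.MP_6359c9_pr.HSpec
import Pool.Agent.Lib.MP_6359c9_pr.WChain

/-! A high crosscut has positive probability at every scale. -/

namespace Pool.Agent.Lib.MP_6359c9_pr

open Set

theorem giantSt : GiantSt := by
  intro S P t a b u v ht c h hab ca cb
  have blk : ∀ p ∈ P, Blk Sᶜ (Bx p (t + 1)) (Bx p (2 * t + 3))ᶜ := by
    rintro p hp ⟨q, ⟨i, hi, a1⟩, q', ⟨o, ho, a2⟩, c1⟩
    refine h p hp q ?_ q' ?_ (c1.mono inter_subset_left)
    · simp only [mem_Bx, Adj] at *; omega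
    · simp only [mem_Bx, Adj, mem_compl_iff] at *; omega
  have join : ∀ p ∈ P, ∀ w ∈ Bx p (t + 1), ∀ w' ∈ Bx p (t + 1), ∀ x, x ∉ Bx p (2 * t + 3) →
      Conn S a w → Conn S w' x → Conn S a x := by
    intro p hp w hw w' hw' x hx c1 c2
    have := (blk p hp).join (by omega) (subset_univ _) hw
      (fun e => (hab p hp).1 (Bx_mono (by omega) e)) hw' hx (by simpa using c1.symm)
      (by simpa using c2)
    simpa using this
  obtain ⟨w, hw, cw⟩ : ∃ w ∈ Bx v t, Conn S a w := by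
    refine c.ind (P := fun p => ∃ w ∈ Bx p t, Conn S a w)
      ⟨u, mem_Bx_ds.2 (by rw [ds_self]; omega), ca⟩ ?_
    rintro p p' - pp hp' ⟨w, hw, cw⟩
    rcases hex_Rec S (x := p'.1) (x' := p'.1 + 2 * t + 4) (y := p'.2 - t) (y' := p'.2 + 1)
      (by omega) (by omega) with ⟨l, hl, e, he, c1⟩ | ⟨l, hl, e, he, c1⟩
    · have h1 := c1.left.2
      have c2 : Conn S l e := c1.mono inter_subset_left
      have h2 : l ∈ Bx p' t := by simp only [mem_Bx, mem_Rec, mem_ofPred_eq] at *; omega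
      refine ⟨l, h2, (join p' hp' w ?_ l (Bx_mono (by omega) h2) e ?_ cw c2).trans c2.symm⟩
      · simp only [mem_Bx, Adj] at *; omega
      · simp only [mem_Bx, mem_ofPred_eq] at *; omega
    · have h1 := c1.left.2
      refine absurd (c1.mono inter_subset_left) (h p' hp' l ?_ e ?_)
      · simp only [mem_Bx, mem_Rec, mem_ofPred_eq] at *; omega
      · simp only [mem_Bx, mem_ofPred_eq] at *; omega
  exact join v c.right w (Bx_mono (by omega) hw) v (mem_Bx_ds.2 (by rw [ds_self]; omega)) b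
    (fun e => (hab v c.right).2 (Bx_mono (by omega) e)) cw cb.symm

/-- a subset of a box as a finset, with a bound on its size -/
lemma exists_finset_Bx {A : Set V} {y : V} {s : ℤ} (h : A ⊆ Bx y s) :
    ∃ F : Finset V, (∀ v, v ∈ F ↔ v ∈ A) ∧ F.card ≤ (2 * s + 1).toNat ^ 2 := by
  classical
  refine ⟨(Finset.Icc (y.1 - s) (y.1 + s) ×ˢ Finset.Icc (y.2 - s) (y.2 + s)).filter (· ∈ A),
    fun v => ?_, (Finset.card_filter_le _ _).trans ?_⟩
  · simp only [Finset.mem_filter, Finset.mem_product, Finset.mem_Icc, and_iff_right_iff_imp]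
    intro hv
    have := mem_Bx.1 (h hv)
    omega
  · rw [Finset.card_product, Int.card_Icc, Int.card_Icc, sq,
      show y.1 + s + 1 - (y.1 - s) = 2 * s + 1 by ring,
      show y.2 + s + 1 - (y.2 - s) = 2 * s + 1 by ring]

/-- the attachment event of `AtSt` -/
def AtE (R : Set V) (K : ℤ) (y : V) (d : ℤ) : Set (V → ℤ) :=
  {g | ∃ w, w ∉ R ∧ NConn Rᶜ (Bx y (K * d)) y w ∧
    ∃ u v, Adj w u ∧ Conn (R ∩ {q | 1 ≤ g q}) u v ∧ v ∈ Bx y (d / 2)}

lemma AtE_upper (R : Set V) (K : ℤ) (y : V) (d : ℤ) : IsUpperSet (AtE R K y d) := by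
  rintro g g' e ⟨w, h1, h2, u, v, h3, h4, h5⟩
  exact ⟨w, h1, h2, u, v, h3, h4.mono fun q hq => ⟨hq.1, le_trans hq.2 (e q)⟩, h5⟩

theorem xSt (hA : AtSt) (hC : ClimbSt) (hF : FeSt) : XSt := by
  obtain ⟨K, hK, c1, hc1, hA⟩ := hA
  obtain ⟨A, hA0, hch⟩ := chainSt4 K hK
  obtain ⟨c2, hc2, d0, hC⟩ := hC 0 (80 * A + 6).toNat
  obtain ⟨r0, hch⟩ := hch (20 * max d0 1) (by omega)
  refine ⟨min ((1 / 192 : ℝ) ^ (2 * (3 * K * (20 * max d0 1)) + 1).toNat ^ 2) (c1 * c1 * c2),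
    by positivity, max r0 0, ?_⟩
  intro W i0 i1 x u v r R ξ h01 h1n hr g0 g1 ha hb c hR hRW ok bd hq
  have n0 : W.γ i0 ∉ Bx x (2 * r) \ Bx x (r / 4) := fun h => h.2 (Bx_mono (by omega) g0)
  have n1 : W.γ i1 ∉ Bx x (2 * r) \ Bx x (r / 4) := fun h => g1 (Bx_mono (by omega) h.1)
  rcases hch W i0 i1 x u v r h01 h1n (by omega) g0 g1 ha hb c with
    ⟨y, s, hs, cy, sy, a, ha, b, hb, ca, cb⟩ |
    ⟨ρ, dL, dR, yL, yR, z, P, hρ, cP, cL, hP, sL, sR, bL, bR, rL, rR⟩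
  · have cab : W.IC {p | W.IC (Bx y s) a p} a b :=
      NConn.cluster (NConn.trans (NConn.symm ca) cb)
    obtain ⟨a', ha', b', hb', u', v', au', vb', c', sa, sb⟩ := cab.bridge ha hb
      (fun h => n0 (sy (NConn.right h))) fun h => n1 (sy (NConn.right h))
    have ic : ∀ p, W.IC (Bx y s) a p → W.IC (Bx x (2 * r)) u p := fun p hp =>
      NConn.trans cy (Wall.IC.mono (NConn.trans ca hp) fun t ht => (sy ht).1)
    obtain ⟨F, hF1, hF2⟩ := exists_finset_Bx (A := W.R ∩ {p | W.IC (Bx y s) a p}) (y := y)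
      (s := 3 * K * (20 * max d0 1)) fun p hp => Bx_mono hs (NConn.right hp.2)
    have FR : ∀ p ∈ F, p ∈ R := fun p hp =>
      (hq p (ic p ((hF1 p).1 hp).2) (sy (NConn.right ((hF1 p).1 hp).2)).2).1 ((hF1 p).1 hp).1
    refine (min_le_left _ _).trans ((pow_le_pow_of_le_one (by norm_num) (by norm_num) hF2).trans
      ((hF R ξ 0 F hR.fin ok bd FR).trans (pr_mono fun g _ hg => ?_)))
    exact ⟨a', ha', b', hb', ic _ sa, ic _ sb, u', v', au', vb', c'.mono fun p hp =>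
      ⟨FR p ((hF1 p).2 hp), by simpa using hg p ((hF1 p).2 hp)⟩⟩
  have c0 : ∀ p m, 0 ≤ m → p ∈ Bx p m := fun p m hm => mem_Bx_ds.2 (by rw [ds_self]; omega)
  have inR : ∀ p m, 0 ≤ m → W.IC (Bx x (2 * r)) u p → Bx p m ⊆ W.R →
      Bx p m ⊆ Bx x (2 * r) \ Bx x (r / 4) → Bx p m ⊆ R := fun p m hm cp h1 h2 q hq' =>
    (hq q (NConn.trans cp (Wall.IC.of_conn ((Bx_conn (c0 p m hm) hq').mono fun w hw =>
      ⟨h1 hw, (h2 hw).1⟩))) (h2 hq').2).1 (h1 hq')
  have icP : ∀ p, Conn P yL p → W.IC (Bx x (2 * r)) u p := fun p cp =>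
    NConn.trans cL (Wall.IC.of_conn (cp.mono fun w hw =>
      ⟨(hP w hw).1 (c0 w ρ (by omega)), ((hP w hw).2.2 (c0 w ρ (by omega))).1⟩))
  obtain ⟨t, ht⟩ : ∃ t, t = ρ / 20 := ⟨_, rfl⟩
  have t1 : 1 ≤ t := by omega
  -- the two ends
  have side : ∀ (Γ : Set V) (y : V) (d : ℤ), Conn P yL y → W.Sided K Γ y d →
      Bx y (K * d) ⊆ Bx x (2 * r) \ Bx x (r / 4) →
      c1 ≤ Pr (HD R ξ) (AtE R K y d) ∧ (∀ p ∈ Bx y (d / 2), Bx p (7 * t + 1) ⊆ R) ∧ 0 ≤ d / 2 ∧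
      ∀ w, w ∉ R → NConn Rᶜ (Bx y (K * d)) y w → w ∈ Γ ∧ W.IC (Bx x (2 * r)) u w := by
    intro Γ y d cy sy ry
    obtain ⟨w0, hw0, wR⟩ := sy.1.2.2
    have d1 : ρ < d := by
      by_contra e
      exact wR ((hP y cy.right).1 (Bx_mono (by omega) hw0))
    have d2 : d ≤ K * d := le_mul_of_one_le_left (by omega) (by omega)
    have h1 : Bx y (d - 1) ⊆ R := inR y _ (by omega) (icP y cy) sy.1.2.1
      ((Bx_mono (by omega)).trans ry)
    have h2 : ∀ w, w ∉ R → NConn Rᶜ (Bx y (K * d)) y w →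
        (w ∈ Γ ∧ W.IC (Bx x (2 * r)) u w) ∧ 1 ≤ ξ w := by
      intro w hw cw
      have cw' : W.IC (Bx y (K * d)) y w := cw.mono (compl_subset_compl.2 hRW) subset_rfl
      have cu := NConn.trans (icP y cy) (cw'.mono fun q hq => (ry hq).1)
      have h3 := hq w cu (ry cw.right).2
      exact ⟨⟨sy.2 w (fun e => hw (h3.1 e)) cw', cu⟩, h3.2 fun e => hw (h3.1 e)⟩
    refine ⟨hA R ξ y d hR ok bd (by omega) h1 ⟨w0, hw0, fun e => wR (hRW e)⟩
      fun w hw cw => (h2 w hw cw).2, fun p hp q hq => h1 ?_, by omega,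
      fun w hw cw => (h2 w hw cw).1⟩
    simp only [mem_Bx] at *
    omega
  obtain ⟨pL, iL, eL, wL⟩ := side _ yL dL (Conn.refl cP.left) sL rL
  obtain ⟨pR, iR, eR, wR⟩ := side _ yR dR cP sR rR
  set P1 : Set V := {p | Conn P yL p} ∪ Bx yL (dL / 2) ∪ Bx yR (dR / 2) with hP1
  have h7 : ∀ p ∈ P1, Bx p (7 * t + 1) ⊆ R := by
    rintro p ((hp | hp) | hp)
    · exact (Bx_mono (by omega)).trans
        (inR p ρ (by omega) (icP p hp) (hP p hp.right).1 (hP p hp.right).2.2)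
    · exact iL p hp
    · exact iR p hp
  have hz : ∀ p ∈ P1, p ∈ Bx z (2 * (A * ρ)) := by
    have h1 := (hP yL cP.left).2.1
    have h2 := (hP yR cP.right).2.1
    rintro p ((hp | hp) | hp)
    · have := (hP p hp.right).2.1
      simp only [mem_Bx] at *; omega
    · simp only [mem_Bx] at *; omega
    · simp only [mem_Bx] at *; omega
  have pC := hC R ξ 0 t z {q | ∃ p ∈ P1, q ∈ Bx p (6 * t)} hR ok bd (by omega) (by
      rintro q ⟨p, hp, hq⟩
      have h1 := hz p hp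
      have h2 : A * ρ ≤ A * (40 * t) := mul_le_mul_of_nonneg_left (by omega) hA0.le
      have h3 : (((80 * A + 6).toNat : ℕ) : ℤ) * t = 2 * (A * (40 * t)) + 6 * t := by
        rw [Int.toNat_of_nonneg (by omega)]; ring
      rw [h3]
      simp only [mem_Bx] at *; omega)
    (by
      rintro q ⟨p, hp, hq⟩ w hw
      refine h7 p hp ?_
      simp only [mem_Bx] at *; omega)
  have up : IsUpperSet {g : V → ℤ | ∀ u ∈ {q | ∃ p ∈ P1, q ∈ Bx p (6 * t)}, ∀ v, v ∉ Bx u t →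
      ¬Conn {w | g w ≤ 0 + ((0 : ℕ) : ℤ)} u v} := fun g g' e hg u hu v hv cc =>
    hg u hu v hv (cc.mono fun w hw => le_trans (e w) hw)
  have f1 := ht_pr_fkg (wl R ξ) (AtE_upper R K yL dL) (AtE_upper R K yR dR)
  have f2 := ht_pr_fkg (wl R ξ) ((AtE_upper R K yL dL).inter (AtE_upper R K yR dR)) up
  refine (min_le_right _ _).trans ((mul_le_mul ((mul_le_mul pL pR hc1.le (pr_nonneg _ _)).trans f1)
    pC hc2.le (pr_nonneg _ _)).trans (f2.trans (pr_mono ?_)))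
  rintro g - ⟨⟨⟨a, aR, ca, u1, v1, a1, c1, m1⟩, ⟨b, bR, cb, u2, v2, a2, c2, m2⟩⟩, hg⟩
  refine ⟨a, (wL a aR ca).1, b, (wR b bR cb).1, (wL a aR ca).2, (wR b bR cb).2, u1, u2, a1,
    a2.symm, giantSt _ P1 t u1 u2 v1 v2 t1 ?_ ?_ ?_ c1 c2⟩
  · exact ((Bx_conn m1 (c0 _ _ eL)).mono fun w hw => Or.inl (Or.inr hw)).trans
      ((cP.cluster.mono fun w hw => Or.inl (Or.inl hw)).trans
        ((Bx_conn (c0 _ _ eR) m2).mono fun w hw => Or.inr hw))
  · intro p hp q hq q' hq' cc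
    obtain ⟨e, f, c3, ef, hf, c4⟩ := cc.exit (c0 q t (by omega)) hq'
    have low : ∀ w ∈ (R ∩ {q | 1 ≤ g q})ᶜ, w ∈ Bx q (t + 1) → g w ≤ 0 + ((0 : ℕ) : ℤ) := by
      intro w hw hw'
      have h1 : w ∈ R := h7 p hp (by simp only [mem_Bx] at *; omega)
      have h2 : ¬1 ≤ g w := fun e => hw ⟨h1, e⟩
      omega
    refine hg q ⟨p, hp, hq⟩ f hf ((c3.mono fun w hw => low w hw.1 (Bx_mono (by omega) hw.2)).tail
      ef (low f c4.left ?_))
    have := c3.right.2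
    simp only [mem_Bx, Adj] at *; omega
  · intro p hp
    constructor
    · refine fun e => aR (h7 p hp ?_)
      simp only [mem_Bx, Adj] at *; omega
    · refine fun e => bR (h7 p hp ?_)
      simp only [mem_Bx, Adj] at *; omega

end Pool.Agent.Lib.MP_6359c9_pr
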