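import Pool.Agent.Lib.MP_6359c9_pr.HArm
import Pool.Agent.Lib.MP_6359c9_pr.HDir
import Pool.Agent.Lib.MP_6359c9_pr.HAt
import Pool.Agent.Lib.MP_6359c9_pr.HClimb
import Pool.Agent.Lib.MP_6359c9_pr.HMb
import Pool.Agent.Lib.MP_6359c9_pr.HTail
import Pool.Agent.Lib.MP_6359c9_pr.HX

/-! The flat wall estimate. -/

namespace Pool.Agent.Lib.MP_6359c9_pr

theorem mb_main : MbSt := mbSt tailSt

theorem dir_main : DirSt := dirSt (armSt (xSt (atSt zSt mb_main) climbSt feSt) zSt) mb_main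

end Pool.Agent.Lib.MP_6359c9_pr
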