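import Pool.Agent.Lib.MP_6359c9_pr.Defs

/-! Plane part: variograms with reflection negativity, their continuum limits. -/

namespace Pool.Agent.Lib.MP_6359c9_pr.Pl

open Filter Topology

/-- rotation by sixty degrees -/
def rot (x : V) : V := (-x.2, x.1 + x.2)

/-- reflection in the horizontal lattice line through the origin -/
def rfx (x : V) : V := (x.1 + x.2, -x.2)

/-- the sixth root of unity `exp (i pi / 3)` -/
noncomputable def om : ℂ := ⟨1 / 2, Real.sqrt 3 / 2⟩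

/-- position of a lattice point in the plane -/
noncomputable def emb (x : V) : ℂ := (x.1 : ℂ) + (x.2 : ℂ) * om

/-- the lattice point at `s + i sqrt 3 t` -/
def pt (s t : ℤ) : V := (s - t, 2 * t)

/-- a lattice point close to `n z` -/
noncomputable def near (n : ℕ) (z : ℂ) : V := pt ⌊n * z.re⌋ ⌊n * z.im / Real.sqrt 3⌋

/-- a positive contraction, symmetric for a positive semidefinite form -/
structure PosCon {W : Type} [AddCommGroup W] [Module ℝ W] (B : W →ₗ[ℝ] W →ₗ[ℝ] ℝ)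
    (T : W →ₗ[ℝ] W) : Prop where
  symm : ∀ x y, B x y = B y x
  adj : ∀ x y, B (T x) y = B x (T y)
  pos : ∀ x, 0 ≤ B x x
  posT : ∀ x, 0 ≤ B x (T x)
  bdd : ∀ x, ∃ C, ∀ n : ℕ, B x ((T ^ n) x) ≤ C

/-- the properties of the variogram that are used -/
structure Vario (a : V → ℝ) (C : ℝ) : Prop where
  zero : a 0 = 0
  nonneg : ∀ x, 0 ≤ a x
  rot : ∀ x, a (rot x) = a x
  rfx : ∀ x, a (rfx x) = a x
  rp : ∀ (s : Finset V) (c : V → ℝ), (∀ x ∈ s, 0 ≤ x.2) → ∑ x ∈ s, c x = 0 →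
    ∑ x ∈ s, ∑ y ∈ s, c x * c y * a (x - Pl.rfx y) ≤ 0
  dbl : ∀ m : ℤ, 1 ≤ m → a (pt 0 (2 * m)) - a (pt 0 m) ≤ C
  far : ∀ ε > 0, ∃ R : ℤ, ∀ x y, Adj x y → R ≤ nrm x → |a x - a y| ≤ ε

/-- `A` is the limit of the rescaled increments of `a` along the filter `l` -/
def Lim (a : V → ℝ) (l : Filter ℕ) (A : ℂ → ℝ) : Prop :=
  ∀ z : ℂ, z ≠ 0 → Tendsto (fun n : ℕ => a (near n z) - a (pt 0 n)) l (𝓝 (A z))

/-- holomorphic extension of `t ↦ f t` from the positive axis to the right half plane,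
Lipschitz at relative scale -/
def Ext (f : ℝ → ℝ) (C : ℝ) : Prop :=
  ∃ Φ : ℂ → ℂ, DifferentiableOn ℂ Φ {ζ | 0 < ζ.re} ∧ (∀ t : ℝ, 0 < t → Φ t = f t) ∧
    ∀ ζ ζ' : ℂ, 0 < ζ.re → 0 < ζ'.re → ‖Φ ζ - Φ ζ'‖ ≤ C * ‖ζ - ζ'‖ / min ζ.re ζ'.re

/-- the properties of a continuum limit -/
structure Cont (A : ℂ → ℝ) (C : ℝ) : Prop where
  lip : ∀ z w : ℂ, z ≠ 0 → w ≠ 0 → |A z - A w| ≤ C * ‖z - w‖ / min ‖z‖ ‖w‖
  rot : ∀ z : ℂ, z ≠ 0 → A (om * z) = A z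
  ext : ∀ s : ℝ, Ext (fun t => A (s + t * Complex.I)) C

end Pool.Agent.Lib.MP_6359c9_pr.Pl
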