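import Pool.Agent.Lib.MP_6359c9_pr.SpD
import Pool.Agent.Lib.MP_6359c9_pr.LogDefs

/-! Local functions of the spins, the infinite volume functional, height increments. -/

namespace Pool.Agent.Lib.MP_6359c9_pr

open Set Filter Topology

/-- valid spin configurations -/
abbrev Val : Set Cf := Sp fun _ => univ

/-- on valid configurations `F` only depends on the spins in `S` -/
def Lcl (S : Set V) (F : Cf → ℝ) : Prop :=
  ∀ w ∈ Val, ∀ w' ∈ Val, (∀ v ∈ S, w v = w' v) → F w = F w'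

/-- `F` is a local function with support in `H` -/
def Lc (H : Set V) (F : Cf → ℝ) : Prop := ∃ S, S.Finite ∧ S ⊆ H ∧ Lcl S F

/-- the infinite volume expectation -/
noncomputable def Einf (F : Cf → ℝ) : ℝ := limUnder atTop fun R : ℕ => Ex (PP (ball 0 R)) F

/-- pull back of a configuration along a lattice map -/
def act (g : V → V) (w : Cf) : Cf := fun v => w (g v)

/-- the height increment between neighbouring spins -/
def dk (a b : Bool × Bool) : ℤ := (ck b - ck a + 1) % 4 - 1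

open Classical in
/-- the height function of a valid configuration, vanishing at the origin -/
noncomputable def gr (w : Cf) : V → ℤ :=
  if h : ∃ g : V → ℤ, g 0 = 0 ∧ ∀ u v, Adj u v → g v = g u + dk (w u) (w v) then h.choose else 0

/-- the variogram -/
noncomputable def vg (x : V) : ℝ := 1 / 2 * Einf fun w => (gr w x : ℝ) ^ 2

lemma Sp_val {T : V → Set (Bool × Bool)} : Sp T ⊆ Val := fun _ hw => ⟨hw.1, fun _ => trivial⟩

lemma val_act {g : V → V} (hg : ∀ u v, Adj u v → Adj (g u) (g v)) {w : Cf} (hw : w ∈ Val) :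
    act g w ∈ Val := ⟨fun u v e => hw.1 _ _ (hg u v e), fun _ => trivial⟩

/-! ### local functions -/

namespace Lcl

variable {S S' : Set V} {F G : Cf → ℝ}

lemma mono (h : Lcl S F) (hS : S ⊆ S') : Lcl S' F :=
  fun w hw w' hw' e => h w hw w' hw' fun v hv => e v (hS hv)

lemma of_dep (h : DependsOn F S) : Lcl S F := fun _ _ _ _ e => h e

lemma const (S : Set V) (c : ℝ) : Lcl S fun _ => c := fun _ _ _ _ _ => rfl

lemma comp (h : Lcl S F) (φ : ℝ → ℝ) : Lcl S fun w => φ (F w) :=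
  fun w hw w' hw' e => by simp only [h w hw w' hw' e]

lemma comp₂ (h : Lcl S F) (h' : Lcl S G) (φ : ℝ → ℝ → ℝ) : Lcl S fun w => φ (F w) (G w) :=
  fun w hw w' hw' e => by simp only [h w hw w' hw' e, h' w hw w' hw' e]

lemma congr (h : Lcl S F) (e : ∀ w ∈ Val, F w = G w) : Lcl S G :=
  fun w hw w' hw' e' => by rw [← e w hw, ← e w' hw', h w hw w' hw' e']

lemma act {g : V → V} (hg : ∀ u v, Adj u v → Adj (g u) (g v)) (h : Lcl S F) :
    Lcl (g '' S) fun w => F (act g w) :=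
  fun _ hw _ hw' e => h _ (val_act hg hw) _ (val_act hg hw') fun v hv => e _ ⟨v, hv, rfl⟩

/-- a function of the spins in `S` that agrees with `F` on valid configurations -/
lemma exists_dep (h : Lcl S F) : ∃ F' : Cf → ℝ, DependsOn F' S ∧ (∀ w ∈ Val, F' w = F w) ∧
    ∀ w, F' w = 0 ∨ ∃ w' ∈ Val, F' w = F w' := by
  classical
  refine ⟨fun w => if h : ∃ w' ∈ Val, ∀ v ∈ S, w' v = w v then F h.choose else 0,
    fun w w' e => ?_, fun w hw => ?_, fun w => ?_⟩
  · have : (fun x : Cf => x ∈ Val ∧ ∀ v ∈ S, x v = w v) =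
        fun x : Cf => x ∈ Val ∧ ∀ v ∈ S, x v = w' v := by
      ext x
      exact and_congr Iff.rfl (forall₂_congr fun v hv => by rw [e v hv])
    simp only [this]
  · have h1 : ∃ w' ∈ Val, ∀ v ∈ S, w' v = w v := ⟨w, hw, fun _ _ => rfl⟩
    simp only [dif_pos h1]
    exact h _ h1.choose_spec.1 _ hw h1.choose_spec.2
  · by_cases h1 : ∃ w' ∈ Val, ∀ v ∈ S, w' v = w v
    · exact Or.inr ⟨_, h1.choose_spec.1, dif_pos h1⟩
    · exact Or.inl (dif_neg h1)

lemma bdd (h : Lcl S F) (hS : S.Finite) : ∃ B, 0 ≤ B ∧ ∀ w ∈ Val, |F w| ≤ B := by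
  classical
  obtain ⟨F', h1, h2, -⟩ := h.exists_dep
  have := hS.to_subtype
  obtain ⟨B, hB⟩ := (Set.finite_range fun x : S → Bool × Bool =>
    |F' fun v => if hv : v ∈ S then x ⟨v, hv⟩ else (true, true)|).bddAbove
  refine ⟨max B 0, le_max_right _ _, fun w hw => le_max_of_le_left ?_⟩
  rw [← h2 w hw, h1 (y := fun v => if hv : v ∈ S then w v else (true, true))
    fun v hv => by simp [hv]]
  exact hB ⟨fun v => w v, rfl⟩

end Lcl

namespace Lc

variable {H H' : Set V} {F G : Cf → ℝ}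

lemma mono (h : Lc H F) (hH : H ⊆ H') : Lc H' F := by
  obtain ⟨S, h1, h2, h3⟩ := h
  exact ⟨S, h1, h2.trans hH, h3⟩

lemma univ (h : Lc H F) : Lc univ F := h.mono (subset_univ _)

lemma const (H : Set V) (c : ℝ) : Lc H fun _ => c :=
  ⟨∅, finite_empty, empty_subset _, Lcl.const _ _⟩

lemma comp (h : Lc H F) (φ : ℝ → ℝ) : Lc H fun w => φ (F w) := by
  obtain ⟨S, h1, h2, h3⟩ := h
  exact ⟨S, h1, h2, h3.comp φ⟩

lemma comp₂ (h : Lc H F) (h' : Lc H G) (φ : ℝ → ℝ → ℝ) : Lc H fun w => φ (F w) (G w) := by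
  obtain ⟨S, h1, h2, h3⟩ := h
  obtain ⟨S', h1', h2', h3'⟩ := h'
  exact ⟨S ∪ S', h1.union h1', union_subset h2 h2',
    (h3.mono subset_union_left).comp₂ (h3'.mono subset_union_right) φ⟩

lemma add (h : Lc H F) (h' : Lc H G) : Lc H fun w => F w + G w := h.comp₂ h' (· + ·)

lemma sub (h : Lc H F) (h' : Lc H G) : Lc H fun w => F w - G w := h.comp₂ h' (· - ·)

lemma mul (h : Lc H F) (h' : Lc H G) : Lc H fun w => F w * G w := h.comp₂ h' (· * ·)

lemma smul (h : Lc H F) (c : ℝ) : Lc H fun w => c * F w := h.comp (c * ·)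

lemma sum {ι : Type} (s : Finset ι) {F : ι → Cf → ℝ} (h : ∀ i ∈ s, Lc H (F i)) :
    Lc H fun w => ∑ i ∈ s, F i w := by
  classical
  induction s using Finset.induction_on with
  | empty => simpa using const H 0
  | insert a s ha ih =>
    simp only [Finset.sum_insert ha]
    exact (h a (by simp)).add (ih fun i hi => h i (by simp [hi]))

lemma congr (h : Lc H F) (e : ∀ w ∈ Val, F w = G w) : Lc H G := by
  obtain ⟨S, h1, h2, h3⟩ := h
  exact ⟨S, h1, h2, h3.congr e⟩

lemma act {g : V → V} (hg : ∀ u v, Adj u v → Adj (g u) (g v)) (h : Lc H F)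
    (hH : ∀ v ∈ H, g v ∈ H') : Lc H' fun w => F (act g w) := by
  obtain ⟨S, h1, h2, h3⟩ := h
  exact ⟨g '' S, h1.image g, image_subset_iff.2 fun v hv => hH v (h2 hv), h3.act hg⟩

lemma bdd (h : Lc H F) : ∃ B, 0 ≤ B ∧ ∀ w ∈ Val, |F w| ≤ B := by
  obtain ⟨S, h1, -, h3⟩ := h
  exact h3.bdd h1

end Lc

/-- the local functions with support in `H` -/
def LcS (H : Set V) : Submodule ℝ (Cf → ℝ) where
  carrier := {F | Lc H F}
  add_mem' := fun h h' => Lc.add h h'
  zero_mem' := Lc.const H 0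
  smul_mem' := fun c _ h => Lc.smul h c

/-! ### heights -/

lemma dk_bd (a b : Bool × Bool) (h : Cp a b) : -1 ≤ dk a b ∧ dk a b ≤ 1 := by
  have := ck_cp a b h
  unfold dk
  omega

lemma gr_spec {w : Cf} (hw : w ∈ Val) :
    gr w 0 = 0 ∧ ∀ u v, Adj u v → gr w v = gr w u + dk (w u) (w v) := by
  obtain ⟨g, -, hg⟩ := lift (fun v => ck (w v)) fun u v e => ck_cp _ _ (hw.1 u v e)
  have h : ∃ g : V → ℤ, g 0 = 0 ∧ ∀ u v, Adj u v → g v = g u + dk (w u) (w v) :=
    ⟨fun v => g v - g 0, by simp, fun u v e => by beta_reduce; rw [hg u v e]; unfold dk; ring⟩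
  simp only [gr, dif_pos h]
  exact h.choose_spec

lemma gr_zero {w : Cf} (hw : w ∈ Val) : gr w 0 = 0 := (gr_spec hw).1

lemma gr_adj {w : Cf} (hw : w ∈ Val) {u v : V} (h : Adj u v) :
    gr w v = gr w u + dk (w u) (w v) := (gr_spec hw).2 u v h

lemma gr_lip {w : Cf} (hw : w ∈ Val) {u v : V} (h : Adj u v) : |gr w v - gr w u| ≤ 1 := by
  have := gr_adj hw h
  have := dk_bd _ _ (hw.1 u v h)
  rw [abs_le]
  omega

/-- increments along a connected set on which two configurations have related increments -/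
lemma gr_conn {w w' : Cf} (hw : w ∈ Val) (hw' : w' ∈ Val) {S : Set V} {x y : V} {g : V → V}
    (hg : ∀ u v, Adj u v → Adj (g u) (g v)) (ε : ℤ) (c : Conn S x y)
    (e : ∀ u ∈ S, ∀ v ∈ S, Adj u v → dk (w' (g u)) (w' (g v)) = ε * dk (w u) (w v)) :
    gr w' (g y) - gr w' (g x) = ε * (gr w y - gr w x) :=
  c.ind (P := fun z => gr w' (g z) - gr w' (g x) = ε * (gr w z - gr w x)) (by simp)
    fun a b ha ab hb ih => by
      rw [gr_adj hw ab, gr_adj hw' (hg _ _ ab), e a ha.right b hb ab]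
      linear_combination ih

lemma gr_eq {w w' : Cf} (hw : w ∈ Val) (hw' : w' ∈ Val) {S : Set V} {x y : V} (c : Conn S x y)
    (e : ∀ v ∈ S, w v = w' v) : gr w y - gr w x = gr w' y - gr w' x := by
  simpa using gr_conn hw' hw (g := id) (fun _ _ h => h) 1 c fun u hu v hv _ => by
    simp [e u hu, e v hv]

lemma gr_act {g : V → V} (hg : ∀ u v, Adj u v → Adj (g u) (g v)) {w : Cf} (hw : w ∈ Val) (x : V) :
    gr (act g w) x = gr w (g x) - gr w (g 0) := by
  have := gr_conn (val_act hg hw) hw hg 1 (conn_univ 0 x) fun u _ v _ _ => by simp [act]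
  rw [gr_zero (val_act hg hw)] at this
  omega

lemma dk_sp1 {a b : ℤ} (h : Hp a b) : dk (sp1 a) (sp1 b) = b - a := by
  have e : ∀ a : ℤ, ck (sp1 a) = a % 4 := fun a => by
    have := sp1_eq.1 (sp1_ck (sp1 a))
    have : 0 ≤ ck (sp1 a) ∧ ck (sp1 a) < 4 := by unfold ck; split_ifs <;> simp
    omega
  unfold Hp at h
  rw [dk, e, e]
  omega

lemma spn_val {T : V → Set ℤ} {g : V → ℤ} (hg : g ∈ Ht T) : spn g ∈ Val :=
  ⟨fun u v e => (hg.1 u v e).cp, fun _ => trivial⟩

lemma gr_spn {T : V → Set ℤ} {g : V → ℤ} (hg : g ∈ Ht T) (x : V) : gr (spn g) x = g x - g 0 :=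
  (conn_univ 0 x).ind (P := fun z => gr (spn g) z = g z - g 0) (by simp [gr_zero (spn_val hg)])
    fun a b _ ab _ ih => by
      rw [gr_adj (spn_val hg) ab, ih]
      simp only [spn, dk_sp1 (hg.1 a b ab)]
      ring

lemma gr_mod {w : Cf} (hw : w ∈ Val) (x y : V) :
    (gr w y - gr w x) % 4 = (ck (w y) - ck (w x)) % 4 :=
  (conn_univ x y).ind (P := fun z => (gr w z - gr w x) % 4 = (ck (w z) - ck (w x)) % 4) (by simp)
    fun a b _ ab _ ih => by
      rw [gr_adj hw ab]
      unfold dk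
      omega

lemma lcl_gr {S : Set V} {x y : V} (c : Conn S x y) :
    Lcl S fun w => (gr w y : ℝ) - gr w x := fun _ hw _ hw' e => by
  beta_reduce
  exact_mod_cast gr_eq hw hw' c e

lemma lc_gr {H : Set V} {x y : V} (c : Conn H x y) : Lc H fun w => (gr w y : ℝ) - gr w x := by
  obtain ⟨F, h1, h2⟩ := c.finite
  exact ⟨F, F.finite_toSet, h1, lcl_gr h2⟩

lemma lc_gr0 {H : Set V} {x : V} (c : Conn H 0 x) : Lc H fun w => (gr w x : ℝ) :=
  (lc_gr c).congr fun w hw => by simp [gr_zero hw]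

lemma lc_gru (x : V) : Lc univ fun w => (gr w x : ℝ) := lc_gr0 (conn_univ 0 x)

/-! ### the lattice symmetries as automorphisms -/

/-- rotation by sixty degrees -/
def rotE : V ≃ V where
  toFun := Pl.rot
  invFun x := (x.1 + x.2, -x.1)
  left_inv x := by simp [Pl.rot]
  right_inv x := by simp [Pl.rot]

/-- reflection in the row `j` -/
def rfj (j : ℤ) : V ≃ V where
  toFun x := (x.1 + x.2 - j, 2 * j - x.2)
  invFun x := (x.1 + x.2 - j, 2 * j - x.2)
  left_inv x := by ext <;> simp only [] <;> ring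
  right_inv x := by ext <;> simp only [] <;> ring

lemma aut_rot : Aut rotE := fun u v => by
  simp only [Adj, rotE, Pl.rot, Equiv.coe_fn_mk]; omega

lemma aut_rfj (j : ℤ) : Aut (rfj j) := fun u v => by
  simp only [Adj, rfj, Equiv.coe_fn_mk]; omega

lemma rfj_zero (x : V) : rfj 0 x = Pl.rfx x := by simp [rfj, Pl.rfx]

lemma rfj_rfj (j : ℤ) (x : V) : rfj j (rfj j x) = x := (rfj j).left_inv x

lemma aut_swap : Aut (Equiv.prodComm ℤ ℤ) := fun u v => by
  simp only [Adj, Equiv.prodComm_apply, Prod.fst_swap, Prod.snd_swap]; omega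

lemma aut_neg (z : V) : Aut (Equiv.subLeft z) := fun u v => by
  simp only [Adj, Equiv.subLeft_apply, Prod.fst_sub, Prod.snd_sub]; omega

lemma Aut.adj {g : V ≃ V} (h : Aut g) : ∀ u v, Adj u v → Adj (g u) (g v) := fun u v => (h u v).2

lemma ev_ball {S : Set V} (h : S.Finite) : ∀ᶠ R : ℕ in atTop, S ⊆ ball 0 R := by
  obtain ⟨n, hn⟩ := exists_Bx h 0
  filter_upwards [eventually_ge_atTop (2 * n)] with R hR v hv
  have : nrm (v - 0) ≤ 2 * (n : ℤ) := Bx_sub_ball 0 n (hn hv)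
  exact this.trans (by exact_mod_cast hR)

end Pool.Agent.Lib.MP_6359c9_pr
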