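import Pool.Agent.Lib.MP_6359c9_pr.InfLim

/-! Flips of the blue spins inside double separators and the logarithmic lower bound. -/

namespace Pool.Agent.Lib.MP_6359c9_pr

open Set Filter Topology

open Classical in
/-- flip of the blue spins in `W` -/
noncomputable def fl (W : Set V) (w : Cf) : Cf :=
  fun v => if v ∈ W then ((w v).1, !(w v).2) else w v

/-- the edges that leave `W` are double edges of sign `s` -/
def Cut (s : Bool) (r : V → Bool) (W : Set V) : Prop :=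
  ∀ u ∈ W, ∀ v, v ∉ W → Adj u v → r u = s ∧ r v = s

variable {W W' : Set V} {w : Cf} {s : Bool}

lemma fl_in {v : V} (h : v ∈ W) : fl W w v = ((w v).1, !(w v).2) := if_pos h

lemma fl_out {v : V} (h : v ∉ W) : fl W w v = w v := if_neg h

lemma red_fl (W : Set V) (w : Cf) : red (fl W w) = red w := funext fun v => by
  by_cases h : v ∈ W
  · simp only [red, fl_in h]
  · simp only [red, fl_out h]

lemma fl_fl (W : Set V) (w : Cf) : fl W (fl W w) = w := funext fun v => by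
  by_cases h : v ∈ W
  · simp only [fl_in h, Bool.not_not]
  · simp only [fl_out h]

lemma fl_comm (W W' : Set V) (w : Cf) : fl W (fl W' w) = fl W' (fl W w) := funext fun v => by
  by_cases h : v ∈ W <;> by_cases h' : v ∈ W' <;> simp [fl, h, h']

lemma fl_val (hw : w ∈ Val) (h : Cut s (red w) W) : fl W w ∈ Val := by
  refine ⟨fun u v e => ?_, fun _ => trivial⟩
  by_cases hu : u ∈ W <;> by_cases hv : v ∈ W
  · rw [fl_in hu, fl_in hv]
    exact (hw.1 u v e).imp id fun h => by simp only [h]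
  · rw [fl_in hu, fl_out hv]
    exact Or.inl ((h u hu v hv e).1.trans (h u hu v hv e).2.symm)
  · rw [fl_out hu, fl_in hv]
    exact Or.inl ((h v hv u hu e.symm).2.trans (h v hv u hu e.symm).1.symm)
  · rw [fl_out hu, fl_out hv]
    exact hw.1 u v e

lemma fl_mem {ρ : V → Set Bool} {L : Set V} (hw : w ∈ Sp (tm ρ L)) (h : Cut s (red w) W)
    (hL : W ⊆ L) : fl W w ∈ Sp (tm ρ L) :=
  ⟨(fl_val (Sp_val hw) h).1, fun v => ⟨by
    rw [show (fl W w v).1 = (w v).1 from congrFun (red_fl W w) v]; exact (hw.2 v).1,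
    fun hv => by rw [fl_out fun h => hv (hL h)]; exact (hw.2 v).2 hv⟩⟩

lemma gr_fl_out (hw : w ∈ Val) (h : Cut s (red w) W) (hc : CoConn W) {x y : V} (hx : x ∉ W)
    (hy : y ∉ W) : gr (fl W w) y - gr (fl W w) x = gr w y - gr w x :=
  gr_eq (fl_val hw h) hw (hc x hx y hy) fun _ hv => fl_out hv

lemma dk_flip : ∀ a b : Bool × Bool, Cp a b → dk (a.1, !a.2) (b.1, !b.2) = -1 * dk a b := by
  unfold Cp; decide

lemma gr_fl_in (hw : w ∈ Val) (h : Cut s (red w) W) {x y : V} (c : Conn W x y) :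
    gr (fl W w) y - gr (fl W w) x = -(gr w y - gr w x) := by
  simpa using gr_conn hw (fl_val hw h) (g := id) (fun _ _ h => h) (-1) c fun u hu v hv e => by
    simp only [id, fl_in hu, fl_in hv, dk_flip _ _ (hw.1 u v e)]

/-- twice the offset of the middle of the double layer -/
def of2 (s : Bool) (a : Bool × Bool) : ℤ := (if s then 1 else 5) - 2 * ck a

lemma dk_bdy : ∀ (s : Bool) (a b : Bool × Bool), a.1 = s → b.1 = s →
    dk a (b.1, !b.2) + dk a b = of2 s a ∧ |of2 s a| = 1 := by decide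

/-- the flip reflects the heights in the middle of the double layer -/
lemma gr_fl_lvl (hw : w ∈ Val) (h : Cut s (red w) W) (hc : CoConn W) {o p u v : V} (ho : o ∉ W)
    (c : Conn W p u) (e : Adj u v) (hv : v ∉ W) :
    gr (fl W w) p - gr (fl W w) o + (gr w p - gr w o) = 2 * (gr w v - gr w o) + of2 s (w v) ∧
      |of2 s (w v)| = 1 := by
  have h1 := gr_fl_in hw h c
  have h2 := gr_fl_out hw h hc ho hv
  have h3 := gr_adj hw e.symm
  have h4 := gr_adj (fl_val hw h) e.symm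
  rw [fl_out hv, fl_in c.right] at h4
  have h5 := dk_bdy s (w v) (w u) (h u c.right v hv e).2 (h u c.right v hv e).1
  exact ⟨by omega, h5.2⟩

/-- the unexplored part of the box -/
def Ho (s : Bool) (x : V) (N : ℤ) (r : V → Bool) : Set V := (NK (lev r s) (Bx x N)ᶜ)ᶜ

lemma Ho_sub (s : Bool) (x : V) (N : ℤ) (r : V → Bool) : Ho s x N r ⊆ Bx x N :=
  fun _ hv => by_contra fun h => hv (sub_NK _ _ h)

lemma Ho_cut (s : Bool) (x : V) (N : ℤ) (r : V → Bool) : Cut s r (Ho s x N r) :=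
  fun _ hu _ hv e => (NK_bd (not_not.1 hv) hu e.symm).symm

lemma Ho_coConn (s : Bool) (x : V) (N : ℤ) (r : V → Bool) : CoConn (Ho s x N r) :=
  coConn_NK (by rw [compl_compl]; exact Bx_coConn x N)

lemma sub_Ho {x : V} {N : ℤ} {r : V → Bool} {I : Set V} (h : r ∈ SepE s I (Bx x N)ᶜ) :
    I ⊆ Ho s x N r := fun v hv hk => sep_iff.1 (Sep.symm h) v hk hv

/-- the flip inside the unexplored part of a box -/
noncomputable def flH (s : Bool) (x : V) (N : ℤ) (w : Cf) : Cf := fl (Ho s x N (red w)) w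

lemma red_flH (s : Bool) (x : V) (N : ℤ) (w : Cf) : red (flH s x N w) = red w := red_fl _ _

lemma flH_flH (s : Bool) (x : V) (N : ℤ) (w : Cf) : flH s x N (flH s x N w) = w := by
  rw [flH, red_flH, flH, fl_fl]

lemma flH_comm (s s' : Bool) (x x' : V) (N N' : ℤ) (w : Cf) :
    flH s x N (flH s' x' N' w) = flH s' x' N' (flH s x N w) := by
  rw [flH, red_flH, flH, fl_comm, flH, red_flH, flH]

lemma flH_mem {ρ : V → Set Bool} {L : Set V} {x : V} {N : ℤ} (hL : Bx x N ⊆ L)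
    (hw : w ∈ Sp (tm ρ L)) : flH s x N w ∈ Sp (tm ρ L) :=
  fl_mem hw (Ho_cut _ _ _ _) ((Ho_sub _ _ _ _).trans hL)

lemma gr_flH_out (hw : w ∈ Val) {x : V} {N : ℤ} {y z : V} (hy : y ∉ Bx x N) (hz : z ∉ Bx x N) :
    gr (flH s x N w) z - gr (flH s x N w) y = gr w z - gr w y :=
  gr_fl_out hw (Ho_cut _ _ _ _) (Ho_coConn _ _ _ _) (fun h => hy (Ho_sub _ _ _ _ h))
    fun h => hz (Ho_sub _ _ _ _ h)

/-! ### involutions -/

section inv

variable {Ω : Type} {M : Set Ω} {φ : Ω → Ω}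

lemma ex_invol (h1 : ∀ x ∈ M, φ x ∈ M) (h2 : ∀ x ∈ M, φ (φ x) = x) (f : Ω → ℝ) :
    Ex M (fun x => f (φ x)) = Ex M f := ex_bij (bij_of_inv h1 h1 h2 h2) f

lemma ex_odd (h1 : ∀ x ∈ M, φ x ∈ M) (h2 : ∀ x ∈ M, φ (φ x) = x) {f : Ω → ℝ}
    (hf : ∀ x ∈ M, f (φ x) = -f x) : Ex M f = 0 := by
  have := ex_invol h1 h2 f
  rw [ex_congr hf, ex_neg] at this
  linarith

lemma ex_sym (h1 : ∀ x ∈ M, φ x ∈ M) (h2 : ∀ x ∈ M, φ (φ x) = x) {f : Ω → ℝ}
    (hf : ∀ x ∈ M, f (φ x) = f x) (g : Ω → ℝ) :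
    Ex M (fun x => f x * g x) = Ex M fun x => f x * ((g (φ x) + g x) / 2) := by
  rw [← sub_eq_zero, ← ex_sub]
  refine ex_odd h1 h2 fun x hx => ?_
  rw [hf x hx, h2 x hx]
  ring

lemma ex_pyth (h1 : ∀ x ∈ M, φ x ∈ M) (h2 : ∀ x ∈ M, φ (φ x) = x) {f g : Ω → ℝ}
    (hf : ∀ x ∈ M, f (φ x) = f x) (hg : ∀ x ∈ M, g (φ x) = -g x) :
    Ex M (fun x => (f x + g x) ^ 2) = Ex M (fun x => f x ^ 2) + Ex M fun x => g x ^ 2 := by
  have := ex_odd h1 h2 (f := fun x => 2 * (f x * g x)) fun x hx => by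
    rw [hf x hx, hg x hx]; ring
  rw [← ex_add, ← add_zero (Ex M fun x => f x ^ 2 + g x ^ 2), ← this, ← ex_add]
  exact ex_congr fun x _ => by ring

end inv

/-! ### the lower bound -/

section low

variable {ρ : V → Set Bool} {L : Set V} {r : V → Bool} {x o : V}

/-- invariance under all flips inside a box -/
def Inv (M : Set Cf) (r : V → Bool) (x : V) (R : ℤ) (Z : Cf → ℝ) : Prop :=
  ∀ W s, W ⊆ Bx x R → Cut s r W → CoConn W → ∀ w ∈ M, Z (fl W w) = Z w

lemma low_split {R R' : ℤ} (hL : Bx x R ⊆ L) (ho : o ∉ Bx x R) (h0 : 0 ≤ R')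
    (hs : r ∈ SepE s (Bx x R') (Bx x R)ᶜ) {Z : Cf → ℝ}
    (hZ : Inv (Sp (tm ρ L) ∩ {y | red y = r}) r x R Z) :
    ∃ l : Cf → ℤ, Inv (Sp (tm ρ L) ∩ {y | red y = r}) r x R' (fun w => (l w : ℝ) / 2) ∧
      (∀ w ∈ Val, l w % 8 = of2 s (w o) % 8) ∧
      Ex (Sp (tm ρ L) ∩ {y | red y = r}) (fun w => (Z w - (gr w x - gr w o : ℤ)) ^ 2) =
        Ex (Sp (tm ρ L) ∩ {y | red y = r}) (fun w => (Z w - (l w : ℝ) / 2) ^ 2) +
        Ex (Sp (tm ρ L) ∩ {y | red y = r})
          fun w => ((l w : ℝ) / 2 - (gr w x - gr w o : ℤ)) ^ 2 := by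
  have hx : x ∈ Ho s x R r := sub_Ho hs (by rw [mem_Bx]; omega)
  have ho' : o ∉ Ho s x R r := fun h => ho (Ho_sub _ _ _ _ h)
  obtain ⟨u, v, c, e, hv, -⟩ := (conn_univ x o).exit hx ho'
  rw [univ_inter] at c
  have cut : ∀ w ∈ Sp (tm ρ L) ∩ {y | red y = r}, Cut s (red w) (Ho s x R r) := fun w hw => by
    rw [show red w = r from hw.2]; exact Ho_cut s x R r
  have inv : ∀ W s', W ⊆ Ho s x R r → Cut s' r W → CoConn W →
      ∀ w ∈ Sp (tm ρ L) ∩ {y | red y = r},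
      2 * (gr (fl W w) v - gr (fl W w) o) + of2 s (fl W w v) =
        2 * (gr w v - gr w o) + of2 s (w v) := fun W s' h1 h2 h3 w hw => by
    rw [fl_out fun h => hv (h1 h), gr_fl_out (Sp_val hw.1) (hw.2.symm ▸ h2) h3
      (fun h => ho' (h1 h)) fun h => hv (h1 h)]
  refine ⟨fun w => 2 * (gr w v - gr w o) + of2 s (w v), fun W s' h1 h2 h3 w hw => ?_,
    fun w hw => ?_, ?_⟩
  · simp only [inv W s' (h1.trans (sub_Ho hs)) h2 h3 w hw]
  · have := gr_mod hw o v
    simp only [of2]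
    omega
  · rw [← ex_pyth (M := Sp (tm ρ L) ∩ {y | red y = r}) (φ := fl (Ho s x R r))
      (fun w hw => ⟨fl_mem hw.1 (cut w hw) ((Ho_sub _ _ _ _).trans hL),
        (red_fl _ _).trans hw.2⟩) (fun w _ => fl_fl _ _) (fun w hw => ?_) fun w hw => ?_]
    · exact ex_congr fun w _ => by ring
    · simp only [hZ _ s (Ho_sub _ _ _ _) (Ho_cut _ _ _ _) (Ho_coConn _ _ _ _) w hw,
        inv _ s subset_rfl (Ho_cut _ _ _ _) (Ho_coConn _ _ _ _) w hw]
    · simp only [inv _ s subset_rfl (Ho_cut _ _ _ _) (Ho_coConn _ _ _ _) w hw]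
      have := (gr_fl_lvl (Sp_val hw.1) (cut w hw) (Ho_coConn _ _ _ _) ho' c e
        hv).1
      have : ((gr (fl (Ho s x R r) w) x - gr (fl (Ho s x R r) w) o : ℤ) : ℝ) =
          (2 * (gr w v - gr w o) + of2 s (w v) : ℤ) - (gr w x - gr w o : ℤ) := by
        exact_mod_cast eq_sub_of_add_eq this
      rw [this]
      ring

/-- a plus separator around a minus separator -/
def Pair (x : V) (K : ℤ) (l : ℕ) : Set (V → Bool) :=
  SepE true (Bx x (K ^ (2 * l + 1))) (Bx x (K ^ (2 * l + 2)))ᶜ ∩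
    SepE false (Bx x (K ^ (2 * l))) (Bx x (K ^ (2 * l + 1)))ᶜ

lemma low_fib {K : ℤ} (hK : 1 ≤ K) (ok : Ok (Sp (tm ρ L) ∩ {y | red y = r})) (n : ℕ) :
    Bx x (K ^ (2 * n)) ⊆ L → o ∉ Bx x (K ^ (2 * n)) → ∀ Z : Cf → ℝ,
      Inv (Sp (tm ρ L) ∩ {y | red y = r}) r x (K ^ (2 * n)) Z →
      ∑ l ∈ Finset.range n, 4 * (Pair x K l).indicator (1 : (V → Bool) → ℝ) r ≤
        Ex (Sp (tm ρ L) ∩ {y | red y = r}) fun w => (Z w - (gr w x - gr w o : ℤ)) ^ 2 := by
  induction n with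
  | zero => exact fun _ _ _ _ => by simpa using ex_nonneg fun _ _ => sq_nonneg _
  | succ n ih =>
    intro hL ho Z hZ
    have m1 : K ^ (2 * n) ≤ K ^ (2 * n + 1) := pow_le_pow_right₀ hK (by omega)
    have m2 : K ^ (2 * n + 1) ≤ K ^ (2 * (n + 1)) := pow_le_pow_right₀ hK (by omega)
    have ih' := ih ((Bx_mono (m1.trans m2)).trans hL) fun h => ho (Bx_mono (m1.trans m2) h)
    rw [Finset.sum_range_succ]
    by_cases hp : r ∈ Pair x K n
    · obtain ⟨l, i1, c1, e1⟩ := low_split hL ho (by positivity) hp.1 hZ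
      obtain ⟨l', i2, c2, e2⟩ := low_split ((Bx_mono m2).trans hL) (fun h => ho (Bx_mono m2 h))
        (by positivity) hp.2 i1
      have a := ih' _ i2
      have b : 4 ≤ Ex (Sp (tm ρ L) ∩ {y | red y = r})
          fun w => ((l w : ℝ) / 2 - (l' w : ℝ) / 2) ^ 2 := le_ex ok fun w hw => by
        have h1 := c1 w (Sp_val hw.1)
        have h2 := c2 w (Sp_val hw.1)
        have : l w - l' w ≤ -4 ∨ 4 ≤ l w - l' w := by
          simp only [of2, if_true, Bool.false_eq_true, if_false] at h1 h2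
          omega
        rcases this with h | h
        · have : (l w : ℝ) - l' w ≤ -4 := by exact_mod_cast h
          nlinarith
        · have : (4 : ℝ) ≤ l w - l' w := by exact_mod_cast h
          nlinarith
      have c := ex_nonneg (M := Sp (tm ρ L) ∩ {y | red y = r})
        (f := fun w => (Z w - (l w : ℝ) / 2) ^ 2) fun _ _ => sq_nonneg _
      rw [e1, e2, indicator_of_mem hp, Pi.one_apply]
      linarith
    · rw [indicator_of_notMem hp, mul_zero, add_zero]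
      exact ih' Z fun W s h1 => hZ W s (h1.trans (Bx_mono (m1.trans m2)))

/-- logarithmic lower bound for the variance of height differences -/
theorem low_PP : ∃ K : ℕ, 2 ≤ K ∧ ∀ (n : ℕ) (U : Set V) (x o : V), U.Finite →
    Bx x (K ^ (2 * n)) ⊆ U → o ∉ Bx x (K ^ (2 * n)) →
    2 * (n : ℝ) ≤ Ex (PP U) fun w => ((gr w x : ℝ) - gr w o) ^ 2 := by
  obtain ⟨C, α, hC, hα, h⟩ := arm_pp
  obtain ⟨K, k1, k2⟩ := ((rate_small (C := C) hα 1 (show (0 : ℝ) < 1 / 4 by norm_num)).and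
    (eventually_ge_atTop 2)).exists
  refine ⟨K, k2, fun n U x o hU hs ho => ?_⟩
  have K1 : (1 : ℤ) ≤ K := by exact_mod_cast (by omega : 1 ≤ K)
  have K0 : (0 : ℝ) < (K : ℤ) := by exact_mod_cast (by omega : 0 < K)
  have arm : ∀ s i, i + 1 ≤ 2 * n →
      Pr (PP U) (red ⁻¹' SepE s (Bx x ((K : ℤ) ^ i)) (Bx x ((K : ℤ) ^ (i + 1)))ᶜ)ᶜ ≤ 1 / 4 :=
    fun s i hi => by
      refine (h s U x _ _ hU (one_le_pow₀ K1) (pow_le_pow_right₀ K1 (by omega))
        fun _ v hv _ => hs (Bx_mono (pow_le_pow_right₀ K1 hi) hv)).trans (le_of_eq_of_le ?_ k1.le)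
      congr 2
      push_cast at K0 ⊢
      field_simp
      ring
  have pair : ∀ l ∈ Finset.range n, (2 : ℝ) ≤ 4 * Pr (PP U) (red ⁻¹' Pair x K l) := fun l hl => by
    rw [Finset.mem_range] at hl
    have a := arm true (2 * l + 1) (by omega)
    have b := arm false (2 * l) (by omega)
    have c := pr_compl (ok_PP hU) (red ⁻¹' Pair x K l)
    have d := pr_union_le (PP U)
      (red ⁻¹' SepE true (Bx x ((K : ℤ) ^ (2 * l + 1))) (Bx x ((K : ℤ) ^ (2 * l + 1 + 1)))ᶜ)ᶜ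
      (red ⁻¹' SepE false (Bx x ((K : ℤ) ^ (2 * l))) (Bx x ((K : ℤ) ^ (2 * l + 1)))ᶜ)ᶜ
    rw [← compl_inter, ← preimage_inter] at d
    unfold Pair at *
    linarith
  have s := Finset.sum_le_sum pair
  simp only [Finset.sum_const, Finset.card_range, nsmul_eq_mul, pr_eq, ← ex_mul, ← ex_sum] at s
  rw [mul_comm, ex_fib (PP U) red]
  refine s.trans (ex_mono fun w hw => ?_)
  refine le_trans (low_fib (x := x) (o := o) K1 (Ok.inter (ok_PP hU).1 hw rfl) n
    (hs.trans (sub_cl U)) ho (fun _ => 0) fun _ _ _ _ _ _ _ => rfl) (ex_congr fun y _ => ?_).le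
  push_cast
  ring

end low

end Pool.Agent.Lib.MP_6359c9_pr
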