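import Pool.Agent.Lib.MP_6359c9_pr.SpF

/-! The RSW estimates for the two spin model and for heights. -/

namespace Pool.Agent.Lib.MP_6359c9_pr

open Set

lemma Blk.dep {S : Type} (P : S → Prop) (I O : Set V) :
    Dep (I ∪ O)ᶜ {g : V → S | Blk {v | P (g v)} I O} := fun _ _ e hx =>
  Blk.anti hx fun v hv => by
    have := hv.1
    rw [mem_ofPred_eq, ← e v hv.2] at this
    exact this

/-- a barrier that avoids two consecutive levels lies above or below them -/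
lemma blk_or {T : V → Set ℤ} {g : V → ℤ} (hg : g ∈ Ht T) {I O : Set V} (d : Disjoint I O)
    (n : ∀ u ∈ I, ∀ v ∈ O, ¬Adj u v) (cI : ∀ u ∈ I, ∀ v ∈ I, Conn I u v)
    (cO : ∀ u ∈ O, ∀ v ∈ O, Conn O u v) {k : ℤ} (h : Blk {v | g v = k ∨ g v = k + 1} I O) :
    Blk {v | g v ≤ k + 1} I O ∨ Blk {v | k ≤ g v} I O := by
  by_contra hc
  rw [not_or, Blk, Blk, not_not, not_not] at hc
  obtain ⟨⟨u, ⟨i, hi, a1⟩, v, ⟨o, ho, a2⟩, c⟩, u', ⟨i', hi', a3⟩, v', ⟨o', ho', a4⟩, c'⟩ := hc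
  set Md : Set V := {v | g v = k ∨ g v = k + 1} ∩ (I ∪ O)ᶜ with hMd
  set K1 : Set V := {x | ∃ y ∈ nb I, Conn Md y x} with hK1
  have k1 : ∀ x ∈ K1, (g x = k ∨ g x = k + 1) ∧ ¬(x ∈ I ∨ x ∈ O) := fun x ⟨_, _, h⟩ => h.right
  have d' := Set.disjoint_left.1 d
  have c0 : Conn ({v | k + 1 < g v} ∩ (I ∪ O)ᶜ)ᶜ u v :=
    c.mono fun x hx h => not_le.2 (show k + 1 < g x from h.1) hx.1
  have c2 : Conn ({v | g v < k} ∩ (I ∪ O)ᶜ)ᶜ u' v' :=
    c'.mono fun x hx h => not_le.2 (show g x < k from h.1) hx.1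
  refine four' (P0 := {v | g v < k} ∩ (I ∪ O)ᶜ) (P1 := I ∪ K1)
    (P2 := {v | k + 1 < g v} ∩ (I ∪ O)ᶜ) (P3 := O ∪ (Md \ K1)) ?_ ?_ ?_ ?_ ?_ ?_ ?_ ?_ ?_
    ((cI i hi i' hi').mono subset_union_left) ((cO o ho o' ho').mono subset_union_left)
    ((Conn.head (fun h => h.2 (Or.inl hi)) a1 c0).tail a2.symm fun h => h.2 (Or.inr ho))
    ((Conn.head (fun h => h.2 (Or.inl hi')) a3 c2).tail a4.symm fun h => h.2 (Or.inr ho'))
  · intro x
    simp only [hMd, mem_union, mem_sdiff, mem_inter_iff, mem_compl_iff, mem_ofPred_eq]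
    grind
  iterate 6
    refine Set.disjoint_left.2 fun x => ?_
    have := k1 x; have := @d' x
    simp only [hMd, mem_union, mem_sdiff, mem_inter_iff, mem_compl_iff, mem_ofPred_eq]
    grind
  · intro x hx y hy a
    have h1 : g x < k := hx.1
    have h2 : k + 1 < g y := hy.1
    have := (hg.1 x y a).2
    omega
  · rintro x (hx | ⟨z, hz, hx⟩) y (hy | hy) a
    · exact n x hx y hy a
    · exact hy.2 ⟨y, ⟨x, hx, a⟩, Conn.refl hy.1⟩
    · exact h ⟨z, hz, x, ⟨y, hy, a.symm⟩, hx⟩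
    · exact hy.2 ⟨z, hz, hx.tail a hy.1⟩

lemma ok_dd0 (k : ℤ) {U W : Set V} (hW : W.Finite) : Ok (Ht (dd k U W)) :=
  ⟨Ht_finite hW fun _ hv _ ha _ hb => (ha.2 hv).trans (hb.2 hv).symm, fun _ => k,
    fun _ _ _ => show Hp k k from ⟨by omega, by omega⟩, fun _ => ⟨fun _ => Or.inl rfl, fun _ => rfl⟩⟩

lemma dec_dd {k : ℤ} {T : V → Set ℤ} {U : Set V} (h : ∀ v, v ∉ U → ∀ a ∈ T v, a = k ∨ a = k + 1) :
    Dec Hp T (cl U)ᶜ := fun u hu v _ e => Or.inr fun a ha b hb => by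
  have := h u (fun h => hu (sub_cl U h)) a ha
  have := h v (fun h => hu (mem_cl h e.symm)) b hb
  unfold Hp
  omega

/-- the reflection `g ↦ 2 k + 1 - g` preserves the law in a closed domain with wall `{k, k + 1}` -/
theorem ex_dd_neg (k : ℤ) {U W : Set V} (hW : W.Finite) (h : cl U ⊆ W) {f : (V → ℤ) → ℝ}
    (hf : DependsOn f (cl U)) :
    Ex (Ht (dd k U W)) (fun g => f fun v => 2 * k + 1 - g v) = Ex (Ht (dd k U W)) f := by
  have B : BijOn (fun (g : V → ℤ) v => 2 * k + 1 - g v) (Ht (dd k U W))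
      (Ht fun v => {a | (v ∉ U → a = k ∨ a = k + 1) ∧ (v ∉ W → a = k + 1)}) :=
    bij_neg _ fun v a => by
      simp only [dd, mem_ofPred_eq]
      by_cases h1 : v ∈ U <;> by_cases h2 : v ∈ W <;> simp [h1, h2] <;> omega
  rw [ex_bij B f]
  refine markov' (dec_dd (k := k) fun _ hv _ ha => ha.1 hv)
    (dec_dd (k := k) fun _ hv _ ha => ha.1 hv) (fun v hv => ?_) ((ok_bij B).1 (ok_dd0 k hW))
    (ok_dd0 k hW) (by simpa)
  ext a
  simp [dd, h (not_not.1 hv)]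

theorem pr_dd_neg (k : ℤ) {U W : Set V} (hW : W.Finite) (h : cl U ⊆ W) {A : Set (V → ℤ)}
    (hA : Dep (cl U) A) :
    Pr (Ht (dd k U W)) {g | (fun v => 2 * k + 1 - g v) ∈ A} = Pr (Ht (dd k U W)) A := by
  rw [pr_eq, pr_eq]
  exact ex_dd_neg k hW h hA.ind

lemma upper_blk (k : ℤ) (I O : Set V) : IsUpperSet {g : V → ℤ | Blk {v | g v ≤ k} I O} :=
  fun _ _ h ha => Blk.anti ha fun v hv => (h v).trans hv.1

theorem climb_bx : ∃ K : ℕ, 2 ≤ K ∧ ∃ c > 0, ∀ (k : ℤ) (z : V) (r : ℤ) (U W : Set V), 0 ≤ r →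
    W.Finite → CoConn U → cl U ⊆ W → Bx z (K * r + 1) ⊆ U →
    c ≤ Pr (Ht (dd k U W)) {g | Blk {v | g v ≤ k + 1} (Bx z r) (Bx z (2 * r + 1))ᶜ} := by
  obtain ⟨K, hK, c, hc, h⟩ := minus_ring
  refine ⟨K, hK, c / 2, by positivity, fun k z r U W hr hW cU sW hz => ?_⟩
  have sU := (sub_cl U).trans sW
  have hU := hW.subset sU
  have h1 := h z r U hr hU hz
  rw [pr_PP_red hU hW sW, ← pr_bij (bij_dd hU cU sU)] at h1
  have h2 := pr_le_add (M := Ht (dd 0 U W)) (A := spn ⁻¹' (red ⁻¹' MR z r))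
    (B := {g | Blk {v | g v ≤ 0 + 1} (Bx z r) (Bx z (2 * r + 1))ᶜ})
    (C := {g | Blk {v | 0 ≤ g v} (Bx z r) (Bx z (2 * r + 1))ᶜ}) fun g hg hm =>
      blk_or hg (Bx_disj (by omega)) (Bx_nadj (by omega)) (fun _ hu _ hv => Rec_conn hu hv)
        (Bx_coConn _ _) (Blk.anti hm fun v hv => sp1_red.2 (by
          have : g v = 0 ∨ g v = 0 + 1 := hv.1
          omega))
  have k2 : 2 * r ≤ K * r := mul_le_mul_of_nonneg_right (by exact_mod_cast hK) hr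
  have h3 : Pr (Ht (dd 0 U W)) {g | Blk {v | 0 ≤ g v} (Bx z r) (Bx z (2 * r + 1))ᶜ} ≤
      Pr (Ht (dd 0 U W)) {g | Blk {v | g v ≤ 0 + 1} (Bx z r) (Bx z (2 * r + 1))ᶜ} :=
    le_trans (pr_mono fun g _ hg => Blk.anti hg fun v hv => by
      have : 2 * 0 + 1 - g v ≤ 0 + 1 := hv.1
      change 0 ≤ g v
      omega) (pr_dd_neg 0 hW sW ((Blk.dep (fun a : ℤ => a ≤ 0 + 1) (Bx z r)
        (Bx z (2 * r + 1))ᶜ).mono fun v hv => sub_cl U (hz (Bx_mono (by omega)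
          (not_not.1 fun h => hv (Or.inr h)))))).le
  have B := bij_dd_shift 0 k U W
  rw [zero_add] at B
  rw [← pr_bij B]
  refine le_trans ((div_le_iff₀ two_pos).2 ((h1.trans (h2.trans (add_le_add le_rfl h3))).trans
    (mul_two _).ge)) (pr_mono fun g _ hg => Blk.anti hg fun v hv => ?_)
  have : g v + k ≤ k + 1 := hv.1
  change g v ≤ 0 + 1
  omega

/-- one step up: a barrier of heights at least `k + 2` in a closed domain with wall `{k, k + 1}` -/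
theorem climb1 (L : ℕ) : ∃ c > 0, ∀ (d k : ℤ) (x : V) (I O U W : Set V), 1 ≤ d → W.Finite →
    CoConn U → cl U ⊆ W → I ⊆ Bx x (L * d) → (∀ u ∈ I, ∀ v ∈ Bx u d, v ∈ U ∧ v ∉ O) →
    c ≤ Pr (Ht (dd k U W)) {g | ¬Cr {v | g v ≤ k + 1} I O} := by
  obtain ⟨K, hK, c, hc, h⟩ := climb_bx
  obtain ⟨c', hc', h'⟩ := local_of_box L K hc
  refine ⟨c', hc', fun d k x I O U W hd hW cU sW hI hO => ?_⟩
  refine h' (Pr (Ht (dd k U W))) IsUpperSet isUpperSet_univ (fun _ _ => IsUpperSet.inter)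
    (pr_all (ok_dd0 k hW) fun _ _ => trivial).ge (pr_nonneg _)
    (fun _ _ h => pr_mono fun _ _ hx => h hx) (fun _ _ => ht_pr_fkg _) d x I hd hI
    (fun z r => {g | Blk {v | g v ≤ k + 1} (Bx z r) (Bx z (2 * r + 1))ᶜ}) _
    (fun z r hr ⟨u, hu, s⟩ => ⟨upper_blk _ _ _,
      h k z r U W hr hW cU sW fun v hv => (hO u hu v (s hv)).1⟩) ?_
  rintro g r hg hr ⟨u, hu, v, hv, c⟩
  obtain ⟨z, h1, ⟨u', hu', s⟩, h2⟩ := hg u hu
  have k2 : 2 * r ≤ K * r := mul_le_mul_of_nonneg_right (by exact_mod_cast hK) hr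
  exact Blk.not_conn h2 (Bx_disj (by omega)) (Bx_nadj (by omega)) h1
    (fun h => (hO u' hu' v (s (Bx_mono (by omega) h))).2 hv) c

/-- the cluster of `O` among the vertices of height at most `k` -/
def LK (k : ℤ) (O : Set V) (g : V → ℤ) : Set V := {v | ∃ o ∈ O, Conn {x | g x ≤ k} o v}

lemma LK_in {k : ℤ} {O : Set V} {g : V → ℤ} {v : V} (h : v ∈ LK k O g) :
    ∃ o ∈ O, Conn (LK k O g) o v := by
  obtain ⟨o, ho, c⟩ := h
  exact ⟨o, ho, c.cluster.mono fun x hx => ⟨o, ho, hx⟩⟩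

lemma LK_bd {k : ℤ} {O : Set V} {T : V → Set ℤ} {g : V → ℤ} (hg : g ∈ Ht T) {v : V}
    (h1 : v ∈ cl (LK k O g)) (h2 : v ∉ LK k O g) : g v = k + 1 := by
  obtain ⟨u, ⟨o, ho, c⟩, e⟩ := h1.resolve_left h2
  have a1 : g u ≤ k := c.right
  have a2 : ¬g v ≤ k := fun h => h2 ⟨o, ho, c.tail e h⟩
  have := (hg.1 u v e).2
  omega

lemma LK_congr {k : ℤ} {O : Set V} {x y : V → ℤ} (e : ∀ v ∈ cl (LK k O x) ∪ O, y v = x v) :
    LK k O y = LK k O x := by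
  refine Subset.antisymm (fun v ⟨o, ho, c⟩ => ?_) fun v hv => ?_
  · refine c.ind (P := fun u => u ∈ LK k O x)
      ⟨o, ho, Conn.refl ((e o (Or.inr ho)).symm.le.trans c.1)⟩ ?_
    rintro a b - ab hb ⟨o', ho', c'⟩
    exact ⟨o', ho', c'.tail ab ((e b (Or.inl (mem_cl ⟨o', ho', c'⟩ ab))).symm.le.trans hb)⟩
  · obtain ⟨o, ho, c⟩ := LK_in hv
    exact ⟨o, ho, c.mono fun u hu => (e u (Or.inl (sub_cl _ hu))).le.trans hu.choose_spec.2.right⟩

lemma stop_LK (k : ℤ) (O : Set V) : Stop fun g => cl (LK k O g) ∪ O := fun _ _ e => by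
  simp only [LK_congr e]

lemma coConn_LK {k : ℤ} {O : Set V} {g : V → ℤ} (h : CoConn Oᶜ) (hO : O ⊆ LK k O g) :
    CoConn (LK k O g)ᶜ := by
  intro u hu v hv
  rw [compl_compl]
  obtain ⟨o, ho, c⟩ := LK_in (not_not.1 hu)
  obtain ⟨o', ho', c'⟩ := LK_in (not_not.1 hv)
  have := h o (not_not.2 ho) o' (not_not.2 ho')
  rw [compl_compl] at this
  exact (c.symm.trans (this.mono hO)).trans c'

theorem sr_box : ∃ K : ℕ, 2 ≤ K ∧ ∃ c > 0, ∀ (z : V) (r : ℤ) (U : Set V), 0 ≤ r → U.Finite →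
    Bx z (K * r + 1) ⊆ U → c ≤ Pr (PP U) (red ⁻¹' SepE false (Bx z r) (Bx z (K * r + 1))ᶜ) := by
  classical
  obtain ⟨K, hK, c, hc, h⟩ := climb_bx
  have p0 : 0 < Pr (PP (Bx 0 1)) (red ⁻¹' SepE false (Bx 0 0) (Bx 0 1)ᶜ) :=
    pr_pos (ok_PP (Bx_finite _ _)).1
      (mem_tm _ (r := fun v => decide (v ∉ Bx 0 1)) fun v hv => by simpa using hv)
      fun u hu v hv c => hv (Bx_mono (by omega) (c.ind (Q := fun x => x ∈ Bx 0 0) hu
        fun a b _ e _ n ha => absurd ⟨by simpa [lev, red] using Bx_mono (by omega) ha,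
          by simpa [lev, red] using cl_Bx 0 0 (mem_cl ha e)⟩ n))
  refine ⟨K * (K + 2), by nlinarith, _, lt_min p0 (mul_pos hc hc), fun z r U hr hU hz => ?_⟩
  refine le_trans ?_ (pr_PP_anti' hU hz (SepE_lower _ _))
  rcases hr.eq_or_lt with rfl | hr1
  · refine (min_le_left _ _).trans ?_
    rw [mul_zero, zero_add, ← pre_Bx z 1, ← pr_bij (bij_PP (aut_add z) (Bx z 1))]
    refine pr_mono fun w _ hw => (aut_add z).sep.1 ?_
    rw [preimage_compl, pre_Bx]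
    exact hw
  refine (min_le_right _ _).trans ?_
  have k0 : (0 : ℤ) ≤ K := by positivity
  have k2 : 2 * r ≤ K * r := mul_le_mul_of_nonneg_right (by exact_mod_cast hK) hr
  have k3 : K * (K * r + 2) ≤ ((K * (K + 2) : ℕ) : ℤ) * r := by push_cast; nlinarith
  have k4 : 2 * (K * r + 2) ≤ K * (K * r + 2) :=
    mul_le_mul_of_nonneg_right (by exact_mod_cast hK) (by omega)
  set n : ℤ := ((K * (K + 2) : ℕ) : ℤ) * r + 1 with hn
  set B := Bx z n with hB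
  have fB : B.Finite := Bx_finite _ _
  have cB : CoConn B := Bx_coConn _ _
  have ok := ok_dd0 0 (U := B) (cl_finite fB)
  have h1 := h 0 z (K * r + 2) B _ (by omega) (cl_finite fB) cB subset_rfl (Bx_mono (by omega))
  set H : Set (V → ℤ) := {g | Blk {v | g v ≤ 1 + 1} (Bx z r) (Bx z (2 * r + 1))ᶜ} with hH
  have h2 : c * c ≤ Pr (Ht (dd 0 B (cl B))) H := by
    refine (mul_le_mul_of_nonneg_left h1 hc.le).trans ?_
    rw [pr_eq _ H, ex_stop_loc (stop_LK 1 Bᶜ)]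
    refine pr_mul_le (fun x _ => ex_nonneg fun y _ =>
      indicator_nonneg (fun _ _ => zero_le_one) y) fun x hx hx' => ?_
    have s1 : Bᶜ ⊆ LK 1 Bᶜ x := fun v hv => ⟨v, hv, Conn.refl (by
      have := (hx.2 v).1 hv
      change x v ≤ 1
      omega)⟩
    rw [union_eq_left.2 (s1.trans (sub_cl _))]
    set D := (cl (LK 1 Bᶜ x))ᶜ with hD
    have s2 : D ⊆ B := fun v hv => not_not.1 fun h => hv (sub_cl _ (s1 h))
    have fD := cl_finite (fB.subset s2)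
    have s3 : Bx z (K * r + 1) ⊆ D := by
      have : ∀ v ∈ LK 1 Bᶜ x, v ∉ Bx z (K * r + 2) := fun v ⟨o, ho, c⟩ hv =>
        Blk.not_conn hx' (Bx_disj (by omega)) (Bx_nadj (by omega)) hv
          (fun h => ho (Bx_mono (by omega) h)) (by simpa using c.symm)
      rintro v hv (h | ⟨u, hu, e⟩)
      · exact this v h (Bx_mono (by omega) hv)
      · exact this u hu (by simpa [add_assoc] using cl_Bx _ _ (mem_cl hv e.symm))
    refine (h 1 z r D _ hr fD (coConn_cl (coConn_LK (by simpa using cB) s1)) subset_rfl s3).trans ?_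
    have o2 : Ok (Ht (frz (dd 0 B (cl B)) (cl (LK 1 Bᶜ x)) x) ∩ univ) := by
      unfold Ht
      rw [inter_univ, Loc_frz]
      exact Ok.inter ok.1 hx fun _ _ => rfl
    have := ht_le_bd (D := D) (Dep.univ _) (Dep.univ _) (T := dd 1 D (cl D))
      (T' := frz (dd 0 B (cl B)) (cl (LK 1 Bᶜ x)) x) (fun v hv a _ b _ =>
      ⟨⟨fun h => absurd hv h, fun h => absurd (sub_cl _ hv) h⟩,
        ⟨fun h => absurd (s2 hv) h, fun h => absurd (sub_cl _ (s2 hv)) h⟩, fun h => absurd h hv⟩)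
      (fun y hy y' hy' v hv hv' => by
        have a1 := (hy.1.2 v).1 hv'
        have a2 := (hy'.1.2 v).2 (not_not.1 hv')
        obtain ⟨u, hu, e⟩ := hv.resolve_left hv'
        have a3 := LK_bd hx (not_not.1 hv') fun h => hu (mem_cl h e.symm)
        omega) (by simpa using ok_dd0 1 fD) o2 (mono_ind (upper_blk (1 + 1) _ _))
      ((Blk.dep (fun a : ℤ => a ≤ 1 + 1) (Bx z r) (Bx z (2 * r + 1))ᶜ).mono fun v hv =>
        sub_cl D (s3 (Bx_mono (by omega) (not_not.1 fun h => hv (Or.inr h))))).ind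
    rw [pr_eq]
    simpa only [inter_univ] using this
  rw [← pr_bij (bij_dd fB cB (sub_cl B))]
  refine h2.trans (pr_mono fun g hg hH u hu v hv c => ?_)
  refine Blk.not_conn hH (Bx_disj (by omega)) (Bx_nadj (by omega)) hu
    (fun h => hv (Bx_mono (by omega) h)) (Conn.symm (c.symm.ind
      (Q := fun x => Conn {v | g v ≤ 1 + 1} v x) (Conn.refl ?_) fun a b _ e _ m ih => ih.tail e ?_))
  · have := (hg.2 v).1 hv
    change g v ≤ 1 + 1
    omega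
  · have a1 : g a ≤ 1 + 1 := ih.right
    have a2 := (hg.1 a b e).2
    by_contra a3
    have a4 : ¬g b ≤ 1 + 1 := a3
    exact m ⟨sp1_red'.2 (by omega), sp1_red'.2 (by omega)⟩

theorem Hol.pr_fkg' {Ω Λ : Type} [DistribLattice Λ] {M : Set Ω} {p : Ω → Λ} (h : Hol M p M p)
    {A B : Set Λ} (hA : IsLowerSet A) (hB : IsLowerSet B) :
    Pr M (p ⁻¹' A) * Pr M (p ⁻¹' B) ≤ Pr M (p ⁻¹' (A ∩ B)) := by
  have m : ∀ {C : Set Λ}, IsLowerSet C → Monotone fun a => -C.indicator (1 : Λ → ℝ) a :=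
    fun {C} hC a b hab => by
      refine neg_le_neg ?_
      by_cases hb : b ∈ C
      · simp [hb, hC hab hb]
      · rw [indicator_of_notMem hb]; exact indicator_nonneg (fun _ _ => zero_le_one) _
  have := h.fkg (m hA) (m hB)
  rw [ex_neg, ex_neg, neg_mul_neg] at this
  simp only [pr_eq]
  refine this.trans (ex_congr fun x _ => ?_).le
  by_cases h1 : p x ∈ A <;> by_cases h2 : p x ∈ B <;> simp [h1, h2]

/-- the opposite double condition is the worst one for separators of sign `s` -/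
lemma PP_sep_le {s : Bool} {ρ : V → Set Bool} {W U : Set V} (h : Tame ρ W) (hU : U ⊆ W)
    (hρ : ∀ v ∈ U, s ∈ ρ v) (I O : Set V) :
    Pr (PP U) (red ⁻¹' SepE false I O) ≤ Pr (Sp (tm ρ W)) (red ⁻¹' SepE s I O) := by
  cases s
  · have := pr_inter_le_PP h.fin h.co hU hρ (SepE_lower I O).compl (Dep.univ _)
    rw [univ_inter, preimage_univ, pr_all h.ok fun x _ => mem_univ x, one_mul, preimage_compl,
      pr_compl h.ok, pr_compl (ok_PP (h.fin.subset hU))] at this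
    linarith
  · have := PP_le_pr_inter h.fin h.co hU hρ (SepE_upper I O) (Dep.univ _)
    rw [univ_inter, preimage_univ, pr_all h.ok fun x _ => mem_univ x, one_mul] at this
    exact le_trans (pr_mono fun w _ hw => (ng_SepE (s := true)).2 hw) this

/-- strong RSW estimate under arbitrary red data, sharp form -/
theorem sr_tm' (L : ℕ) : ∃ c > 0, ∀ (s : Bool) (ρ : V → Set Bool) (W : Set V) (d : ℤ) (x : V)
    (I O : Set V), Tame ρ W → 1 ≤ d → I ⊆ Bx x (L * d) →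
    (∀ u ∈ I, ∀ v ∈ Bx u d, s ∈ ρ v ∧ v ∈ W ∧ v ∉ O) →
    c ≤ Pr (Sp (tm ρ W)) (red ⁻¹' SepE s I O) := by
  obtain ⟨K, hK, c, hc, h⟩ := sr_box
  obtain ⟨c', hc', h'⟩ := local_of_box L K hc
  refine ⟨c', hc', fun s ρ W d x I O hT hd hI hO => ?_⟩
  refine h' (fun A => Pr (Sp (tm ρ W)) (red ⁻¹' A))
    (fun A => (s = true → IsUpperSet A) ∧ (s = false → IsLowerSet A))
    ⟨fun _ => isUpperSet_univ, fun _ => isLowerSet_univ⟩
    (fun _ _ a b => ⟨fun e => (a.1 e).inter (b.1 e), fun e => (a.2 e).inter (b.2 e)⟩)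
    (pr_all hT.ok fun _ _ => trivial).ge (fun _ => pr_nonneg _ _)
    (fun _ _ h => pr_mono fun _ _ hx => h hx) (fun _ _ a b => ?_) d x I hd hI
    (fun z r => SepE s (Bx z r) (Bx z (K * r + 1))ᶜ) _
    (fun z r hr ⟨u, hu, t⟩ => ⟨⟨fun e => e ▸ SepE_upper _ _, fun e => e ▸ SepE_lower _ _⟩,
      (h z r _ hr (Bx_finite _ _) subset_rfl).trans (PP_sep_le hT
        (fun v hv => (hO u hu v (t hv)).2.1) (fun v hv => (hO u hu v (t hv)).1) _ _)⟩) ?_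
  · cases s
    · exact (hol_tm_self hT.fin hT.co ρ).pr_fkg' (a.2 rfl) (b.2 rfl)
    · exact (hol_tm_self hT.fin hT.co ρ).pr_fkg (a.1 rfl) (b.1 rfl)
  · intro a r ha _ u hu v hv c
    obtain ⟨z, h1, ⟨u', hu', t⟩, h2⟩ := ha u hu
    exact h2 u h1 v (fun h => (hO u' hu' v (t h)).2.2 hv) c

/-- strong RSW estimate under arbitrary red data -/
theorem sr_tm (L : ℕ) : ∃ c > 0, ∀ (s : Bool) (ρ : V → Set Bool) (W : Set V) (d : ℤ) (x : V)
    (I O : Set V), Tame ρ W → 1 ≤ d → I ⊆ Bx x (L * d) →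
    (∀ u ∈ I, ∀ v ∈ Bx u d, ρ v = univ ∧ v ∈ W ∧ v ∉ O) →
    c ≤ Pr (Sp (tm ρ W)) (red ⁻¹' SepE s I O) := by
  obtain ⟨c, hc, h⟩ := sr_tm' L
  exact ⟨c, hc, fun s ρ W d x I O hT hd hI hO => h s ρ W d x I O hT hd hI fun u hu v hv =>
    ⟨(hO u hu v hv).1 ▸ mem_univ s, (hO u hu v hv).2⟩⟩

lemma exists_big {U : Set V} (hU : U.Finite) (x : V) (n : ℤ) :
    ∃ W, Tame (off true U) W ∧ cl U ⊆ W ∧ Bx x n ⊆ W := by
  obtain ⟨W, f, c, s⟩ := exists_coConn ((cl_finite hU).union (Bx_finite x n))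
  exact ⟨W, tame_off true hU f c, subset_union_left.trans s, subset_union_right.trans s⟩

lemma Bx_add {x u v : V} {m n : ℤ} (hu : u ∈ Bx x m) (hv : v ∈ Bx u n) : v ∈ Bx x (m + n) := by
  rw [mem_Bx] at *; omega

/-- favourable RSW estimate -/
theorem rsw_pp (L : ℕ) : ∃ c > 0, ∀ (d : ℤ) (x : V) (I O U : Set V), 1 ≤ d → U.Finite →
    I ⊆ Bx x (L * d) → (∀ u ∈ I, ∀ v ∈ Bx u d, v ∉ O) →
    c ≤ Pr (PP U) (red ⁻¹' SepE true I O) := by
  obtain ⟨c, hc, h⟩ := sr_tm' L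
  refine ⟨c, hc, fun d x I O U hd hU hI hO => ?_⟩
  obtain ⟨W, t, s1, s2⟩ := exists_big hU x (L * d + d)
  rw [pr_PP_red hU t.fin s1]
  exact h true _ W d x I O t hd hI fun u hu v hv =>
    ⟨fun _ => rfl, s2 (Bx_add (hI hu) hv), hO u hu v hv⟩

/-- strong RSW estimate in the double plus model -/
theorem sr_pp (L : ℕ) : ∃ c > 0, ∀ (d : ℤ) (x : V) (I O U : Set V), 1 ≤ d → U.Finite →
    I ⊆ Bx x (L * d) → (∀ u ∈ I, ∀ v ∈ Bx u d, v ∈ U ∧ v ∉ O) →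
    c ≤ Pr (PP U) (red ⁻¹' SepE false I O) := by
  obtain ⟨c, hc, h⟩ := sr_tm' L
  refine ⟨c, hc, fun d x I O U hd hU hI hO => ?_⟩
  obtain ⟨W, t, s1, -⟩ := exists_big hU x 0
  rw [pr_PP_red hU t.fin s1]
  exact h false _ W d x I O t hd hI fun u hu v hv => ⟨fun h => absurd (hO u hu v hv).1 h,
    s1 (sub_cl _ (hO u hu v hv).1), (hO u hu v hv).2⟩

/-- conditioning on the red spins outside `U` -/
lemma pr_inter_le_frz {ρ : V → Set Bool} {W U : Set V} (h : Tame ρ W) {A B : Set (V → Bool)}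
    (hB : Dep Uᶜ B) {c : ℝ} (hA : ∀ r : V → Bool, (∀ v, r v ∈ ρ v) →
      Pr (Sp (tm (frz ρ Uᶜ r) W)) (red ⁻¹' A) ≤ c) :
    Pr (Sp (tm ρ W)) (red ⁻¹' (B ∩ A)) ≤ c * Pr (Sp (tm ρ W)) (red ⁻¹' B) := by
  rw [pr_eq, pr_eq, ← ex_mul]
  refine ex_fib_le (fun w => {r : V → Bool | ∀ v ∈ Uᶜ, r v = red w v}) fun x hx => ?_
  have e : Sp (tm ρ W) ∩ {y | {r : V → Bool | ∀ v ∈ Uᶜ, r v = red y v} =
      {r : V → Bool | ∀ v ∈ Uᶜ, r v = red x v}} = Sp (tm (frz ρ Uᶜ (red x)) W) := by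
    ext y
    refine ⟨fun ⟨h1, h2⟩ => ⟨h1.1, fun v => ⟨⟨(h1.2 v).1, fun hv => ?_⟩, (h1.2 v).2⟩⟩,
      fun hy => ⟨⟨hy.1, fun v => ⟨(hy.2 v).1.1, (hy.2 v).2⟩⟩, Set.ext fun r =>
        forall₂_congr fun v hv => by rw [show red y v = red x v from (hy.2 v).1.2 hv]⟩⟩
    have h3 : {r : V → Bool | ∀ v ∈ Uᶜ, r v = red y v} = _ := h2
    exact (h3.le (show red y ∈ _ from fun _ _ => rfl)) v hv
  have hr : ∀ v, red x v ∈ ρ v := fun v => (hx.2 v).1
  have ok := (h.frz Uᶜ hr).ok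
  have iff : ∀ y ∈ Sp (tm (frz ρ Uᶜ (red x)) W), red y ∈ B ↔ red x ∈ B := fun y hy =>
    hB.iff fun v hv => (hy.2 v).1.2 hv
  rw [e, ex_mul, ← pr_eq, ← pr_eq]
  by_cases hx' : red x ∈ B
  · rw [pr_all (A := red ⁻¹' B) ok fun y hy => (iff y hy).2 hx', mul_one]
    exact (pr_mono fun _ _ h => h.2).trans (hA _ hr)
  · rw [pr_none (A := red ⁻¹' B) fun y hy h => hx' ((iff y hy).1 h),
      pr_none fun y hy h => hx' ((iff y hy).1 h.1), mul_zero]

lemma NConn.layer {P : Set V} {x u v : V} {m : ℤ} (c : NConn P univ u v) (hu : u ∈ Bx x (m - 1))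
    (hv : v ∉ Bx x (m - 1)) : ∃ y ∈ Bx x m \ Bx x (m - 1), NConn P univ y v := by
  have := c.ind (Q := fun a => a ∈ Bx x (m - 1) ∨ ∃ y ∈ Bx x m \ Bx x (m - 1), NConn P univ y a)
    (Or.inl hu) (by
      rintro a b - e - n (ha | ⟨y, hy, c⟩)
      · by_cases hb : b ∈ Bx x (m - 1)
        · exact Or.inl hb
        · exact Or.inr ⟨b, ⟨by simpa using cl_Bx _ _ (mem_cl ha e), hb⟩, NConn.refl trivial⟩
      · exact Or.inr ⟨y, hy, c.tail e trivial n⟩)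
  exact this.resolve_left hv

lemma geom_le_rpow {θ : ℝ} (h0 : 0 < θ) (h1 : θ < 1) : ∃ C α : ℝ, 0 < C ∧ 0 < α ∧ ∀ n N : ℤ,
    1 ≤ n → n ≤ N → ∃ J : ℕ, (J = 0 ∨ 4 ^ (J + 1) * n ≤ N) ∧ θ ^ J ≤ C * ((n : ℝ) / N) ^ α := by
  refine ⟨(θ ^ 2)⁻¹, -Real.logb 4 θ, by positivity,
    neg_pos.2 (Real.logb_neg (by norm_num) h0 h1), fun n N hn hN => ?_⟩
  have ex : ∃ j : ℕ, N < 4 ^ (j + 2) * n := by
    obtain ⟨j, hj⟩ := pow_unbounded_of_one_lt N (by norm_num : (1 : ℤ) < 4)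
    have : (4 : ℤ) ^ j ≤ 4 ^ (j + 2) := pow_le_pow_right₀ (by norm_num) (by omega)
    exact ⟨j, by nlinarith [pow_pos (by norm_num : (0 : ℤ) < 4) (j + 2)]⟩
  classical
  refine ⟨Nat.find ex, ?_, ?_⟩
  · rcases Nat.eq_zero_or_pos (Nat.find ex) with h | h
    · exact Or.inl h
    · have := Nat.find_min ex (m := Nat.find ex - 1) (by omega)
      rw [show Nat.find ex - 1 + 2 = Nat.find ex + 1 by omega] at this
      exact Or.inr (not_lt.1 this)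
  · have h2 := Nat.find_spec ex
    generalize Nat.find ex = J at h2
    have n0 : (0 : ℝ) < n := by exact_mod_cast (by omega : 0 < n)
    have N0 : (0 : ℝ) < N := by exact_mod_cast (by omega : 0 < N)
    have h3 : ((4 : ℝ) ^ (J + 2))⁻¹ ≤ (n : ℝ) / N := by
      rw [inv_eq_one_div, div_le_div_iff₀ (by positivity) N0, one_mul, mul_comm]
      exact_mod_cast h2.le
    have h4 := Real.rpow_le_rpow (by positivity) h3
      (neg_pos.2 (Real.logb_neg (by norm_num : (1 : ℝ) < 4) h0 h1)).le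
    rw [Real.inv_rpow (by positivity), Real.rpow_neg (by positivity), inv_inv,
      ← Real.rpow_pow_comm (by norm_num), Real.rpow_logb (by norm_num) (by norm_num) h0] at h4
    rw [inv_mul_eq_div, le_div_iff₀ (by positivity), ← pow_add]
    exact h4

/-- polynomial decay of arms under arbitrary red data, sharp form -/
theorem arm_tm' : ∃ C α : ℝ, 0 < C ∧ 0 < α ∧ ∀ (s : Bool) (ρ : V → Set Bool) (W : Set V) (x : V)
    (n N : ℤ), Tame ρ W → 1 ≤ n → n ≤ N → (∀ v ∈ Bx x N, v ∉ Bx x n → s ∈ ρ v ∧ v ∈ W) →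
    Pr (Sp (tm ρ W)) (red ⁻¹' SepE s (Bx x n) (Bx x N)ᶜ)ᶜ ≤ C * ((n : ℝ) / N) ^ α := by
  obtain ⟨c, hc, h⟩ := sr_tm' 8
  obtain ⟨C, α, hC, hα, h'⟩ := geom_le_rpow (θ := 1 - min c (1 / 2))
    (by linarith [min_le_right c (1 / 2)]) (by linarith [lt_min hc one_half_pos])
  refine ⟨C, α, hC, hα, fun s ρ W x n N hT hn hN hρ => ?_⟩
  obtain ⟨J, hJ, h1⟩ := h' n N hn hN
  refine le_trans ?_ h1
  set G : ℤ → Set (V → Bool) := fun m =>
    SepE s (Bx x (2 * m) \ Bx x (2 * m - 1)) (Bx x (3 * m) \ Bx x (m + 1))ᶜ with hG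
  have dG : ∀ m, Dep (Bx x (3 * m + 1)) (G m) := fun m => SepE_dep s fun v _ hv => by
    rw [compl_compl] at hv
    exact cl_Bx _ _ (cl_mono sdiff_subset hv)
  have p4 : ∀ j : ℕ, ∃ q, 4 ^ (j + 1) * n = 4 * q ∧ n ≤ q := fun j =>
    ⟨4 ^ j * n, by ring, by nlinarith [one_le_pow₀ (by norm_num : (1 : ℤ) ≤ 4) (n := j)]⟩
  have key : ∀ j : ℕ, (j = 0 ∨ 4 ^ (j + 1) * n ≤ N) → Pr (Sp (tm ρ W))
      (red ⁻¹' {r | ∀ i < j, r ∉ G (4 ^ (i + 1) * n)}) ≤ (1 - min c (1 / 2)) ^ j := by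
    intro j
    induction j with
    | zero => intro _; exact pr_le_one _ _
    | succ j ih =>
      intro hj
      have e4 : 4 ^ (j + 1 + 1) * n = 4 * (4 ^ (j + 1) * n) := by ring
      obtain ⟨q, hq, hq'⟩ := p4 j
      have hj' := hj.resolve_left (by omega)
      have := pr_inter_le_frz hT (U := Bx x (4 * (4 * q)) \ Bx x (4 * q)) (A := (G (4 * q))ᶜ)
        (B := {r | ∀ i < j, r ∉ G (4 ^ (i + 1) * n)}) (c := 1 - min c (1 / 2))
        (fun a b e ha i hi => ((dG _).mono (k' := (Bx x (4 * (4 * q)) \ Bx x (4 * q))ᶜ)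
          fun v hv h => h.2 (Bx_mono ?_ hv)).compl a b e (ha i hi))
        fun r hr => by
          rw [preimage_compl, pr_compl (hT.frz _ hr).ok]
          refine sub_le_sub_left ((min_le_left _ _).trans (h s _ W q x _ _ (hT.frz _ hr) (by omega)
            (sdiff_subset.trans (Bx_mono (by push_cast; omega))) fun u hu v hv => ?_)) 1
          have a1 : v ∈ Bx x (3 * (4 * q)) \ Bx x (4 * q + 1) := by
            simp only [mem_sdiff, mem_Bx] at *; omega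
          have a2 := hρ v (Bx_mono (by omega) a1.1) fun h => a1.2 (Bx_mono (by omega) h)
          exact ⟨⟨a2.1, fun h => absurd ⟨Bx_mono (by omega) a1.1,
            fun h => a1.2 (Bx_mono (by omega) h)⟩ h⟩, a2.2, not_not.2 a1⟩
      · rw [pow_succ']
        refine le_trans (le_trans (pr_mono ?_) this)
          (mul_le_mul_of_nonneg_left (ih (Or.inr (by omega)))
            (by linarith [min_le_right c (1 / 2)]))
        refine fun w _ hw => ⟨fun i hi => hw i (by omega), ?_⟩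
        rw [← hq]
        exact hw j (by omega)
      · have a1 : (4 : ℤ) ^ (i + 1 + 1) ≤ 4 ^ (j + 1) := pow_le_pow_right₀ (by norm_num) (by omega)
        have a2 : 4 ^ (i + 1 + 1) * n ≤ 4 ^ (j + 1) * n := mul_le_mul_of_nonneg_right a1 (by omega)
        have a3 : 4 ^ (i + 1 + 1) * n = 4 * (4 ^ (i + 1) * n) := by ring
        obtain ⟨q', hq1, hq2⟩ := p4 i
        omega
  refine le_trans (pr_mono ?_) (key J hJ)
  refine fun w _ hw i hi hs => hw fun u hu v hv c => ?_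
  have a1 : (4 : ℤ) ^ (i + 1 + 1) ≤ 4 ^ (J + 1) := pow_le_pow_right₀ (by norm_num) (by omega)
  have a2 : 4 ^ (i + 1 + 1) * n ≤ 4 ^ (J + 1) * n := mul_le_mul_of_nonneg_right a1 (by omega)
  have a3 : 4 ^ (i + 1 + 1) * n = 4 * (4 ^ (i + 1) * n) := by ring
  obtain ⟨q, hq, hq'⟩ := p4 i
  obtain ⟨y, hy, c'⟩ := c.layer (x := x) (m := 2 * (4 ^ (i + 1) * n)) (Bx_mono (by omega) hu)
    fun h => hv (Bx_mono (by omega) h)
  exact hs y hy v (fun h => hv (Bx_mono (by omega) h.1)) c'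

/-- polynomial decay of arms under arbitrary red data -/
theorem arm_tm : ∃ C α : ℝ, 0 < C ∧ 0 < α ∧ ∀ (s : Bool) (ρ : V → Set Bool) (W : Set V) (x : V)
    (n N : ℤ), Tame ρ W → 1 ≤ n → n ≤ N → (∀ v ∈ Bx x N, v ∉ Bx x n → ρ v = univ ∧ v ∈ W) →
    Pr (Sp (tm ρ W)) (red ⁻¹' SepE s (Bx x n) (Bx x N)ᶜ)ᶜ ≤ C * ((n : ℝ) / N) ^ α := by
  obtain ⟨C, α, hC, hα, h⟩ := arm_tm'
  exact ⟨C, α, hC, hα, fun s ρ W x n N hT hn hN hρ => h s ρ W x n N hT hn hN fun v h1 h2 =>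
    ⟨(hρ v h1 h2).1 ▸ mem_univ s, (hρ v h1 h2).2⟩⟩

/-- polynomial decay of arms in the double plus model -/
theorem arm_pp : ∃ C α : ℝ, 0 < C ∧ 0 < α ∧ ∀ (s : Bool) (U : Set V) (x : V) (n N : ℤ),
    U.Finite → 1 ≤ n → n ≤ N → (s = false → ∀ v ∈ Bx x N, v ∉ Bx x n → v ∈ U) →
    Pr (PP U) (red ⁻¹' SepE s (Bx x n) (Bx x N)ᶜ)ᶜ ≤ C * ((n : ℝ) / N) ^ α := by
  obtain ⟨C, α, hC, hα, h⟩ := arm_tm'
  refine ⟨C, α, hC, hα, fun s U x n N hU hn hN hs => ?_⟩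
  obtain ⟨W, t, s1, s2⟩ := exists_big hU x N
  rw [← preimage_compl, pr_PP_red hU t.fin s1, preimage_compl]
  refine h s _ W x n N t hn hN fun v h1 h2 => ⟨fun hv => ?_, s2 h1⟩
  cases s
  · exact absurd (hs rfl v h1 h2) hv
  · rfl

end Pool.Agent.Lib.MP_6359c9_pr
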