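import Pool.Agent.Lib.MP_6359c9_pr.InfDef
import Pool.Agent.Lib.MP_6359c9_pr.SpMain

/-! Existence, mixing rate, linearity and symmetries of the infinite volume functional. -/

namespace Pool.Agent.Lib.MP_6359c9_pr

open Set Filter Topology

variable {F G : Cf → ℝ}

/-- from functions with values in the unit interval to bounded local functions -/
lemma tv_scale {M M' : Set Cf} (hM : Ok M) (hM' : Ok M') (h1 : M ⊆ Val) (h2 : M' ⊆ Val)
    {I : Set V} {p B : ℝ}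
    (h : ∀ f : Cf → ℝ, (∀ w, 0 ≤ f w) → (∀ w, f w ≤ 1) → DependsOn f I → |Ex M f - Ex M' f| ≤ p)
    (hF : Lcl I F) (hB : ∀ w ∈ Val, |F w| ≤ B) : |Ex M F - Ex M' F| ≤ 2 * B * p := by
  obtain ⟨x, hx⟩ := hM.2
  have B0 : 0 ≤ B := (abs_nonneg _).trans (hB x (h1 hx))
  rcases B0.eq_or_lt with rfl | B0'
  · rw [ex_congr (g := fun _ => 0) fun w hw => abs_nonpos_iff.1 (hB w (h1 hw)),
      ex_congr (M := M') (g := fun _ => 0) fun w hw => abs_nonpos_iff.1 (hB w (h2 hw)),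
      ex_zero, ex_zero]
    simp
  obtain ⟨F', d, e, r⟩ := hF.exists_dep
  have b : ∀ w, |F' w| ≤ B := fun w => by
    rcases r w with r | ⟨w', hw', r⟩
    · rw [r, abs_zero]; exact B0
    · rw [r]; exact hB w' hw'
  have := h (fun w => (2 * B)⁻¹ * (F' w + B))
    (fun w => mul_nonneg (by positivity) (by linarith [(abs_le.1 (b w)).1]))
    (fun w => by
      rw [inv_mul_le_iff₀ (by positivity)]
      linarith [(abs_le.1 (b w)).2])
    fun w w' ee => by simp only [d ee]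
  rw [ex_mul, ex_mul, ex_add, ex_add, ex_const hM, ex_const hM', ← mul_sub, abs_mul,
    abs_of_pos (by positivity), inv_mul_le_iff₀ (by positivity), add_sub_add_right_eq_sub,
    ex_congr fun w hw => e w (h1 hw), ex_congr (M := M') fun w hw => e w (h2 hw)] at this
  exact this

lemma rate_small {C α : ℝ} (hα : 0 < α) (n : ℝ) {ε : ℝ} (hε : 0 < ε) :
    ∀ᶠ N : ℕ in atTop, C * (n / ((N : ℤ) : ℝ)) ^ α < ε := by
  have h1 : Tendsto (fun N : ℕ => n / ((N : ℤ) : ℝ)) atTop (𝓝 0) := by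
    simpa using tendsto_const_div_atTop_nhds_zero_nat n
  have h2 := ((Real.continuousAt_rpow_const 0 α (Or.inr hα.le)).tendsto.comp h1).const_mul C
  rw [Real.zero_rpow hα.ne', mul_zero] at h2
  exact h2.eventually (gt_mem_nhds hε)

lemma mix_PP_PP : ∃ C α : ℝ, 0 < C ∧ 0 < α ∧ ∀ (x : V) (n N : ℤ) (F : Cf → ℝ) (B : ℝ)
    (U U' : Set V), 1 ≤ n → n ≤ N → Lcl (Bx x n) F → (∀ w ∈ Val, |F w| ≤ B) → U.Finite →
    U'.Finite → Bx x N ⊆ U → Bx x N ⊆ U' →
    |Ex (PP U) F - Ex (PP U') F| ≤ B * C * ((n : ℝ) / N) ^ α := by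
  obtain ⟨C, α, hC, hα, h⟩ := arm_pp
  refine ⟨4 * C, α, by positivity, hα, fun x n N F B U U' h1 h2 hF hB hU hU' s s' => ?_⟩
  have key : ∀ U : Set V, U.Finite → Bx x N ⊆ U →
      |Ex (PP (Bx x N)) F - Ex (PP U) F| ≤ 2 * B * (C * ((n : ℝ) / N) ^ α) := fun U hU s =>
    tv_scale (ok_PP (Bx_finite _ _)) (ok_PP hU) Sp_val Sp_val (fun f f0 f1 hf =>
      (tv_PP_PP hU s ((Bx_mono h2).trans (sub_cl _)) f0 f1 hf).trans
        (h true U x n N hU h1 h2 (by simp))) hF hB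
  have a := key U hU s
  have b := key U' hU' s'
  rw [abs_le] at *
  constructor <;> linarith [a.1, a.2, b.1, b.2]

lemma Lc.ex_Bx (h : Lc Set.univ F) (x : V) : ∃ n : ℕ, 1 ≤ n ∧ Lcl (Bx x n) F := by
  obtain ⟨S, h1, -, h3⟩ := h
  obtain ⟨n, hn⟩ := exists_Bx h1 x
  exact ⟨n + 1, by omega, h3.mono (hn.trans (Bx_mono (by push_cast; omega)))⟩

theorem Einf_tendsto (h : Lc univ F) :
    Tendsto (fun R : ℕ => Ex (PP (ball 0 R)) F) atTop (𝓝 (Einf F)) := by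
  refine CauchySeq.tendsto_limUnder (Metric.cauchySeq_iff.2 fun ε hε => ?_)
  obtain ⟨C, α, hC, hα, hm⟩ := mix_PP_PP
  obtain ⟨n, n1, hn⟩ := h.ex_Bx 0
  obtain ⟨B, -, hB⟩ := h.bdd
  obtain ⟨N, h1, h2⟩ := ((rate_small (C := B * C) hα ((n : ℤ) : ℝ) hε).and
    (eventually_ge_atTop n)).exists
  obtain ⟨R, hR⟩ := eventually_atTop.1 (ev_ball (Bx_finite 0 N))
  refine ⟨R, fun a ha b hb => ?_⟩
  rw [Real.dist_eq]
  exact (hm 0 n N F B _ _ (by exact_mod_cast n1) (by exact_mod_cast h2) hn hB (ball_finite _ _)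
    (ball_finite _ _) (hR a ha) (hR b hb)).trans_lt h1

lemma Einf_le (h : Lc univ F) {c : ℝ} (hc : ∀ᶠ R : ℕ in atTop, Ex (PP (ball 0 R)) F ≤ c) :
    Einf F ≤ c := le_of_tendsto (Einf_tendsto h) hc

lemma le_Einf (h : Lc univ F) {c : ℝ} (hc : ∀ᶠ R : ℕ in atTop, c ≤ Ex (PP (ball 0 R)) F) :
    c ≤ Einf F := ge_of_tendsto (Einf_tendsto h) hc

lemma abs_Einf_le (h : Lc univ F) {c : ℝ} (hc : ∀ᶠ R : ℕ in atTop, |Ex (PP (ball 0 R)) F| ≤ c) :
    |Einf F| ≤ c := le_of_tendsto (Einf_tendsto h).abs hc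

lemma Einf_congr (h : ∀ w ∈ Val, F w = G w) : Einf F = Einf G := by
  unfold Einf
  congr 1
  exact funext fun R => ex_congr fun w hw => h w (Sp_val hw)

lemma Einf_const (c : ℝ) : Einf (fun _ => c) = c :=
  tendsto_nhds_unique (Einf_tendsto (Lc.const _ c))
    (by simp only [ex_const (ok_PP (ball_finite _ _))]; exact tendsto_const_nhds)

lemma Einf_add (h : Lc univ F) (h' : Lc univ G) :
    Einf (fun w => F w + G w) = Einf F + Einf G :=
  tendsto_nhds_unique (Einf_tendsto (h.add h'))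
    (by simp only [ex_add]; exact (Einf_tendsto h).add (Einf_tendsto h'))

lemma Einf_sub (h : Lc univ F) (h' : Lc univ G) :
    Einf (fun w => F w - G w) = Einf F - Einf G :=
  tendsto_nhds_unique (Einf_tendsto (h.sub h'))
    (by simp only [ex_sub]; exact (Einf_tendsto h).sub (Einf_tendsto h'))

lemma Einf_mul (c : ℝ) (h : Lc univ F) : Einf (fun w => c * F w) = c * Einf F :=
  tendsto_nhds_unique (Einf_tendsto (h.smul c))
    (by simp only [ex_mul]; exact (Einf_tendsto h).const_mul c)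

lemma Einf_sum {ι : Type} (s : Finset ι) {F : ι → Cf → ℝ} (h : ∀ i ∈ s, Lc univ (F i)) :
    Einf (fun w => ∑ i ∈ s, F i w) = ∑ i ∈ s, Einf (F i) :=
  tendsto_nhds_unique (Einf_tendsto (Lc.sum s h))
    (by simp only [ex_sum]; exact tendsto_finsetSum s fun i hi => Einf_tendsto (h i hi))

lemma Einf_mono (h : Lc univ F) (h' : Lc univ G) (e : ∀ w ∈ Val, F w ≤ G w) : Einf F ≤ Einf G :=
  le_of_tendsto_of_tendsto' (Einf_tendsto h) (Einf_tendsto h') fun _ =>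
    ex_mono fun w hw => e w (Sp_val hw)

lemma Einf_nonneg (h : Lc univ F) (e : ∀ w ∈ Val, 0 ≤ F w) : 0 ≤ Einf F :=
  (Einf_const 0).ge.trans (Einf_mono (Lc.const _ 0) h e)

lemma abs_Einf (h : Lc univ F) : |Einf F| ≤ Einf fun w => |F w| :=
  le_of_tendsto_of_tendsto' (Einf_tendsto h).abs (Einf_tendsto (h.comp abs)) fun _ => abs_ex_le _ _

lemma Einf_mul_sq_le (h : Lc univ F) (h' : Lc univ G) :
    Einf (fun w => F w * G w) ^ 2 ≤ Einf (fun w => F w ^ 2) * Einf fun w => G w ^ 2 :=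
  le_of_tendsto_of_tendsto' ((Einf_tendsto (h.mul h')).pow 2)
    ((Einf_tendsto (h.comp (· ^ 2))).mul (Einf_tendsto (h'.comp (· ^ 2)))) fun _ =>
      ex_mul_sq_le _ _ _

/-- mixing rate in double plus domains and under arbitrary red data -/
theorem mix_red : ∃ C α : ℝ, 0 < C ∧ 0 < α ∧ ∀ (x : V) (n N : ℤ) (F : Cf → ℝ) (B : ℝ),
    1 ≤ n → n ≤ N → Lcl (Bx x n) F → (∀ w ∈ Val, |F w| ≤ B) →
    (∀ U : Set V, U.Finite → Bx x N ⊆ U → |Ex (PP U) F - Einf F| ≤ B * C * ((n : ℝ) / N) ^ α) ∧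
    ∀ (ρ : V → Set Bool) (W : Set V), Tame ρ W → (∀ v ∈ Bx x (N + 2), ρ v = univ ∧ v ∈ W) →
      |Ex (Sp (tm ρ W)) F - Einf F| ≤ B * C * ((n : ℝ) / N) ^ α := by
  obtain ⟨C, α, hC, hα, hm⟩ := mix_PP_PP
  obtain ⟨C', α', hC', hα', ha⟩ := arm_tm
  refine ⟨C + 2 * C', min α α', by positivity, lt_min hα hα', fun x n N F B h1 h2 hF hB => ?_⟩
  have B0 : 0 ≤ B := (abs_nonneg _).trans (hB _ (Sp_val (mem_tm (ρ := fun _ => univ) ∅
    (r := fun _ => true) fun _ => trivial)))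
  have n0 : (0 : ℝ) < n := by exact_mod_cast h1
  have nN : (n : ℝ) ≤ N := by exact_mod_cast h2
  have q0 : (0 : ℝ) < n / N := div_pos n0 (n0.trans_le nN)
  have q1 : (n : ℝ) / N ≤ 1 := (div_le_one (n0.trans_le nN)).2 nN
  have r1 := Real.rpow_le_rpow_of_exponent_ge q0 q1 (min_le_left α α')
  have r2 := Real.rpow_le_rpow_of_exponent_ge q0 q1 (min_le_right α α')
  have r0 := Real.rpow_pos_of_pos q0 (min α α')
  have key : ∀ U : Set V, U.Finite → Bx x N ⊆ U →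
      |Ex (PP U) F - Einf F| ≤ B * C * ((n : ℝ) / N) ^ min α α' := fun U hU s => by
    refine le_trans (le_of_tendsto ((Einf_tendsto ⟨_, Bx_finite _ _, subset_univ _, hF⟩).const_sub
      (Ex (PP U) F)).abs ?_) (mul_le_mul_of_nonneg_left r1 (by positivity))
    filter_upwards [ev_ball (Bx_finite x N)] with R hR
    exact hm x n N F B _ _ h1 h2 hF hB hU (ball_finite _ _) s hR
  refine ⟨fun U hU s => (key U hU s).trans ?_, fun ρ W ht hρ => ?_⟩
  · nlinarith [mul_nonneg (mul_nonneg B0 hC'.le) r0.le]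
  · have a := key _ (Bx_finite x N) subset_rfl
    have s1 : cl (Bx x N) ⊆ Bx x (N + 2) := (cl_Bx _ _).trans (Bx_mono (by omega))
    have s2 : cl (cl (Bx x N)) ⊆ Bx x (N + 2) :=
      (cl_mono (cl_Bx _ _)).trans ((cl_Bx _ _).trans (Bx_mono (by omega)))
    have b := tv_scale (ok_PP (Bx_finite x N)) ht.ok Sp_val Sp_val (fun f f0 f1 hf =>
      (tv_PP ht (fun v hv => (hρ v (s1 hv)).2) (fun v hv => (hρ v (s1 (sub_cl _ hv))).1)
        (fun v hv => by rw [(hρ v (s2 hv)).1]; trivial) ((Bx_mono h2).trans (sub_cl _))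
        f0 f1 hf).trans
        (ha true ρ W x n N ht h1 h2 fun v hv _ => hρ v (s1 (sub_cl _ hv)))) hF hB
    have c := mul_le_mul_of_nonneg_left r2 (show 0 ≤ 2 * B * C' by positivity)
    rw [abs_le] at *
    constructor <;> nlinarith [a.1, a.2, b.1, b.2]

theorem tendsto_PP {ι : Type} {l : Filter ι} (h : Lc univ F) {U : ι → Set V}
    (hU : ∀ i, (U i).Finite) (hl : ∀ N : ℕ, ∀ᶠ i in l, Bx 0 N ⊆ U i) :
    Tendsto (fun i => Ex (PP (U i)) F) l (𝓝 (Einf F)) := by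
  refine Metric.tendsto_nhds.2 fun ε hε => ?_
  obtain ⟨C, α, hC, hα, hm⟩ := mix_red
  obtain ⟨n, n1, hn⟩ := h.ex_Bx 0
  obtain ⟨B, -, hB⟩ := h.bdd
  obtain ⟨N, h1, h2⟩ := ((rate_small (C := B * C) hα ((n : ℤ) : ℝ) hε).and
    (eventually_ge_atTop n)).exists
  filter_upwards [hl N] with i hi
  rw [Real.dist_eq]
  exact ((hm 0 n N F B (by exact_mod_cast n1) (by exact_mod_cast h2) hn hB).1 _ (hU i) hi).trans_lt
    h1

theorem tendsto_tm {ι : Type} {l : Filter ι} (h : Lc univ F) {ρ : ι → V → Set Bool}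
    {W : ι → Set V} (ht : ∀ i, Tame (ρ i) (W i))
    (hl : ∀ N : ℕ, ∀ᶠ i in l, ∀ v ∈ Bx 0 N, ρ i v = univ ∧ v ∈ W i) :
    Tendsto (fun i => Ex (Sp (tm (ρ i) (W i))) F) l (𝓝 (Einf F)) := by
  refine Metric.tendsto_nhds.2 fun ε hε => ?_
  obtain ⟨C, α, hC, hα, hm⟩ := mix_red
  obtain ⟨n, n1, hn⟩ := h.ex_Bx 0
  obtain ⟨B, -, hB⟩ := h.bdd
  obtain ⟨N, h1, h2⟩ := ((rate_small (C := B * C) hα ((n : ℤ) : ℝ) hε).and
    (eventually_ge_atTop n)).exists
  filter_upwards [hl (N + 2)] with i hi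
  rw [Real.dist_eq]
  exact ((hm 0 n N F B (by exact_mod_cast n1) (by exact_mod_cast h2) hn hB).2 _ _ (ht i)
    (by exact_mod_cast hi)).trans_lt h1

/-! ### symmetries -/

theorem Einf_act {g : V ≃ V} (hg : Aut g) (h : Lc univ F) :
    Einf (fun w => F (act g w)) = Einf F := by
  refine tendsto_nhds_unique (Einf_tendsto (h.act hg.adj fun _ _ => trivial)) ?_
  have e : ∀ R : ℕ, Ex (PP (ball 0 R)) (fun w => F (act g w)) = Ex (PP (g ⁻¹' ball 0 R)) F :=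
    fun R => ex_bij (bij_PP hg _) F
  simp only [e]
  refine tendsto_PP h (fun R => (ball_finite _ _).preimage g.injective.injOn) fun N => ?_
  filter_upwards [ev_ball ((Bx_finite 0 N).image g)] with R hR
  exact image_subset_iff.1 hR

lemma val_sw {w : Cf} (hw : w ∈ Val) : sw w ∈ Val :=
  ⟨fun u v e => (hw.1 u v e).symm.symm.elim Or.inr Or.inl, fun _ => trivial⟩

lemma val_fr {w : Cf} (hw : w ∈ Val) : fr w ∈ Val :=
  ⟨fun u v e => (hw.1 u v e).elim (fun h => Or.inl (by simp only [fr, h])) Or.inr,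
    fun _ => trivial⟩

lemma val_fb {w : Cf} (hw : w ∈ Val) : fb w ∈ Val :=
  ⟨fun u v e => (hw.1 u v e).elim Or.inl fun h => Or.inr (by simp only [fb, h]), fun _ => trivial⟩

lemma Lcl.sw {S : Set V} (h : Lcl S F) : Lcl S fun w => F (sw w) :=
  fun w hw w' hw' e => h _ (val_sw hw) _ (val_sw hw') fun v hv => by
    simp only [MP_6359c9_pr.sw, e v hv]

lemma Lcl.fr {S : Set V} (h : Lcl S F) : Lcl S fun w => F (fr w) :=
  fun w hw w' hw' e => h _ (val_fr hw) _ (val_fr hw') fun v hv => by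
    simp only [MP_6359c9_pr.fr, e v hv]

lemma Lcl.fb {S : Set V} (h : Lcl S F) : Lcl S fun w => F (fb w) :=
  fun w hw w' hw' e => h _ (val_fb hw) _ (val_fb hw') fun v hv => by
    simp only [MP_6359c9_pr.fb, e v hv]

lemma Lc.sw {H : Set V} (h : Lc H F) : Lc H fun w => F (sw w) :=
  let ⟨S, h1, h2, h3⟩ := h; ⟨S, h1, h2, h3.sw⟩

lemma Lc.fr {H : Set V} (h : Lc H F) : Lc H fun w => F (fr w) :=
  let ⟨S, h1, h2, h3⟩ := h; ⟨S, h1, h2, h3.fr⟩

lemma Lc.fb {H : Set V} (h : Lc H F) : Lc H fun w => F (fb w) :=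
  let ⟨S, h1, h2, h3⟩ := h; ⟨S, h1, h2, h3.fb⟩

lemma tendsto_off (h : Lc univ F) (s : Bool) (a b : ℕ) :
    Tendsto (fun R : ℕ => Ex (Sp (tm (off s (Bx 0 (R + a))) (Bx 0 (R + b)))) F) atTop
      (𝓝 (Einf F)) := by
  refine tendsto_tm h (fun R => tame_off s (Bx_finite _ _) (Bx_finite _ _) (Bx_coConn _ _))
    fun N => ?_
  filter_upwards [eventually_ge_atTop N] with R hR v hv
  exact ⟨eq_univ_of_forall fun _ h => absurd (Bx_mono (by omega) hv) h, Bx_mono (by omega) hv⟩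

theorem Einf_fr (h : Lc univ F) : Einf (fun w => F (fr w)) = Einf F := by
  refine tendsto_nhds_unique (tendsto_off h.fr true 0 0) ?_
  simp only [ex_bij (bij_off true _ _) F]
  exact tendsto_off h false 0 0

theorem Einf_sw (h : Lc univ F) : Einf (fun w => F (sw w)) = Einf F := by
  refine tendsto_nhds_unique (tendsto_off h.sw true 0 0) ?_
  have e : ∀ U : Set V, Ex (Sp (tm (off true U) U)) (fun w => F (sw w)) =
      Ex (Sp (tm (off true U) U)) F := fun U => by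
    have := ex_bij (bij_tb (off true U) U) F
    rwa [← pp_eq_tb] at this
  simp only [e]
  exact tendsto_off h true 0 0

theorem Einf_fb (h : Lc univ F) : Einf (fun w => F (fb w)) = Einf F := by
  rw [← Einf_sw h, ← Einf_fr h.sw, ← Einf_sw h.sw.fr]
  rfl

/-- mixing rate under arbitrary blue data -/
theorem mix_blue : ∃ C α : ℝ, 0 < C ∧ 0 < α ∧ ∀ (x : V) (n N : ℤ) (F : Cf → ℝ) (B : ℝ),
    1 ≤ n → n ≤ N → Lcl (Bx x n) F → (∀ w ∈ Val, |F w| ≤ B) →
    ∀ (ρ : V → Set Bool) (W : Set V), Tame ρ W → (∀ v ∈ Bx x (N + 2), ρ v = univ ∧ v ∈ W) →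
      |Ex (Sp (tb ρ W)) F - Einf F| ≤ B * C * ((n : ℝ) / N) ^ α := by
  obtain ⟨C, α, hC, hα, hm⟩ := mix_red
  refine ⟨C, α, hC, hα, fun x n N F B h1 h2 hF hB ρ W ht hρ => ?_⟩
  have := (hm x n N _ B h1 h2 hF.sw fun w hw => hB _ (val_sw hw)).2 ρ W ht hρ
  rwa [← ex_bij (bij_tb ρ W), Einf_sw ⟨_, Bx_finite _ _, subset_univ _, hF⟩] at this

end Pool.Agent.Lib.MP_6359c9_pr
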