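import Pool.Agent.Lib.MP_6359c9_pr.InfFlip

/-! Chains of crossings with small oscillation and second moment bounds for heights. -/

namespace Pool.Agent.Lib.MP_6359c9_pr

open Set Filter Topology

/-- long crossings with small oscillation of the heights -/
def OscS : Prop := ∃ (θ : ℝ) (A : ℕ), 0 ≤ θ ∧ θ < 1 ∧ ∀ (U : Set V) (x y n : ℤ) (j : ℕ),
  U.Finite → 1 ≤ n → Bx (x, y) (A * n) ⊆ U →
  Pr (PP U) {w | ¬∃ k : ℤ, LR {v | k ≤ gr w v ∧ gr w v ≤ k + A * (j + 1)} x (x + 2 * n) y (y + n)}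
    ≤ A * θ ^ j

/-- a window of heights -/
def Wn (w : Cf) (k a : ℤ) : Set V := {v | k ≤ gr w v ∧ gr w v ≤ k + a}

/-- horizontal crossing in a window -/
def HG (p : V) (n a : ℤ) : Set Cf := {w | ∃ k, LR (Wn w k a) p.1 (p.1 + 2 * n) p.2 (p.2 + n)}

/-- vertical crossing in a window -/
def VG (p : V) (n a : ℤ) : Set Cf := {w | ∃ k, BT (Wn w k a) p.1 (p.1 + n) p.2 (p.2 + 2 * n)}

/-- heights within `Y` of `c` -/
def Tw (w : Cf) (c Y : ℤ) : Set V := {v | c - Y ≤ gr w v ∧ gr w v ≤ c + Y}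

/-- the cluster of `a` in a window -/
def Cl (w : Cf) (a : V) (c Y : ℤ) : Set V := {v | Conn (Tw w c Y) a v}

/-- all crossings of a chain of scales -/
def CG (p : V) (i I : ℕ) (a : ℤ) : Set Cf :=
  {w | ∀ k, i ≤ k → k ≤ I → w ∈ HG p (4 ^ k) a ∧ w ∈ VG p (2 * 4 ^ k) a}

variable {w : Cf} {a a' p q : V} {c c' Y Y' k A n : ℤ}

lemma Tw_mono (h : Y ≤ Y') : Tw w c Y ⊆ Tw w c Y' := fun v hv => by
  simp only [Tw, mem_ofPred_eq] at *; omega

lemma Cl_mono (h : Y ≤ Y') : Cl w a c Y ⊆ Cl w a c Y' := fun _ hv => Conn.mono hv (Tw_mono h)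

lemma absorb {R : Set V} {u z : V} (hz : z ∈ Cl w a c Y) (h : Conn (Wn w k A ∩ R) u z) :
    {s | Conn (Wn w k A ∩ R) u s} ⊆ Cl w a c (Y + A) ∧ k - Y ≤ c ∧ c ≤ k + A + Y := by
  have h1 := Conn.right hz
  have h2 := h.right.1
  simp only [Tw, Wn, mem_ofPred_eq] at h1 h2
  refine ⟨fun s hs => Conn.trans (Cl_mono (by omega) hz) ((h.symm.trans hs).mono fun v hv => ?_),
    by omega, by omega⟩
  have := hv.1
  simp only [Tw, Wn, mem_ofPred_eq] at *
  omega

lemma step_LB {x x' y y' e e' b b' : ℤ} (h : LR (Cl w a c Y) x x' y y')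
    (h' : BT (Wn w k A) e e' b b') (h1 : x ≤ e) (h2 : e ≤ e') (h3 : e' ≤ x') (h4 : b ≤ y)
    (h5 : y ≤ y') (h6 : y' ≤ b') :
    BT (Cl w a c (Y + A)) e e' b b' ∧ k - Y ≤ c ∧ c ≤ k + A + Y := by
  obtain ⟨u, hu, v, hv, h7⟩ := h'
  have B : BT {s | Conn (Wn w k A ∩ Rec e e' b b') u s} e e' b b' :=
    ⟨u, hu, v, hv, h7.cluster.mono fun z hz => ⟨hz, hz.right.2⟩⟩
  obtain ⟨z, z1, z2⟩ := Set.not_disjoint_iff.1 fun d =>
    (h.mono subset_rfl h1 h2 h3 le_rfl le_rfl).not_BT d (B.mono subset_rfl h4 h5 h6 le_rfl le_rfl)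
  obtain ⟨s, t⟩ := absorb z1 z2
  exact ⟨B.mono s le_rfl (h4.trans (h5.trans h6)) le_rfl le_rfl le_rfl, t⟩

lemma step_BL {x x' y y' e e' b b' : ℤ} (h : BT (Cl w a c Y) x x' y y')
    (h' : LR (Wn w k A) e e' b b') (h1 : e ≤ x) (h2 : x ≤ x') (h3 : x' ≤ e') (h4 : y ≤ b)
    (h5 : b ≤ b') (h6 : b' ≤ y') : LR (Cl w a c (Y + A)) e e' b b' := by
  obtain ⟨u, hu, v, hv, h7⟩ := h'
  have B : LR {s | Conn (Wn w k A ∩ Rec e e' b b') u s} e e' b b' :=
    ⟨u, hu, v, hv, h7.cluster.mono fun z hz => ⟨hz, hz.right.2⟩⟩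
  obtain ⟨z, z1, z2⟩ := Set.not_disjoint_iff.1 fun d =>
    (B.mono subset_rfl h1 h2 h3 le_rfl le_rfl).not_BT d (h.mono subset_rfl h4 h5 h6 le_rfl le_rfl)
  exact B.mono (absorb z2 z1).1 le_rfl (h1.trans (h2.trans h3)) le_rfl le_rfl le_rfl

lemma ochain {i : ℕ} (h : LR (Cl w a c Y) p.1 (p.1 + 2 * 4 ^ i) p.2 (p.2 + 4 ^ i)) (d : ℕ)
    (hg : w ∈ CG p i (i + d) A) :
    LR (Cl w a c (Y + 2 * d * A)) p.1 (p.1 + 2 * 4 ^ (i + d)) p.2 (p.2 + 4 ^ (i + d)) := by
  induction d with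
  | zero => simpa using h
  | succ d ih =>
    have h0 := ih fun k h1 h2 => hg k h1 (by omega)
    obtain ⟨k, h1⟩ := (hg (i + d) (by omega) (by omega)).2
    obtain ⟨k', h2⟩ := (hg (i + (d + 1)) (by omega) le_rfl).1
    have e : (4 : ℤ) ^ (i + (d + 1)) = 4 * 4 ^ (i + d) := by ring
    have p0 : (0 : ℤ) < 4 ^ (i + d) := by positivity
    have h3 := (step_LB h0 h1 le_rfl (by omega) le_rfl le_rfl (by omega) (by omega)).1
    have h4 := step_BL h3 h2 le_rfl (by omega) (by omega) le_rfl (by omega) (by omega)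
    rwa [show Y + 2 * d * A + A + A = Y + 2 * (d + 1 : ℕ) * A by push_cast; ring] at h4

lemma start_pt (hw : w ∈ Val) (p : V) :
    LR (Cl w p (gr w p) 2) p.1 (p.1 + 2 * 4 ^ 0) p.2 (p.2 + 4 ^ 0) := by
  have a1 : Adj p (p.1 + 1, p.2) := by simp [Adj]
  have a2 : Adj (p.1 + 1, p.2) (p.1 + 2, p.2) := by simp [Adj]; omega
  have l1 := abs_le.1 (gr_lip hw a1)
  have l2 := abs_le.1 (gr_lip hw a2)
  have c0 : Conn (Tw w (gr w p) 2) p p := Conn.refl (by simp [Tw])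
  have c1 := c0.tail a1 (by simp only [Tw, mem_ofPred_eq]; omega)
  have c2 := c1.tail a2 (by simp only [Tw, mem_ofPred_eq]; omega)
  refine ⟨p, rfl, (p.1 + 2, p.2), by simp, ((Conn.refl ?_).tail a1 ?_).tail a2 ?_⟩
  · exact ⟨c0, by simp [mem_Rec]⟩
  · exact ⟨c1, by simp [mem_Rec]⟩
  · exact ⟨c2, by simp [mem_Rec]⟩

lemma start_H (h : w ∈ HG p n A) :
    ∃ a ∈ Bx p (2 * n), ∃ c, LR (Cl w a c A) p.1 (p.1 + 2 * n) p.2 (p.2 + n) := by
  obtain ⟨k, u, hu, v, hv, h⟩ := h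
  have := h.left.2
  refine ⟨u, by simp only [mem_Rec, mem_Bx] at *; omega, k, u, hu, v, hv,
    h.cluster.mono fun z hz => ⟨Conn.mono hz fun y hy => ?_, hz.right.2⟩⟩
  have := hy.1
  simp only [Tw, Wn, mem_ofPred_eq] at *
  omega

lemma link (h : LR (Cl w a c Y) p.1 (p.1 + 2 * n) p.2 (p.2 + n))
    (h' : LR (Cl w a' c' Y) q.1 (q.1 + 2 * n) q.2 (q.2 + n)) (hq : q ∈ Bx p n)
    (hg : w ∈ VG (max p.1 q.1, min p.2 q.2) n A) : |c - c'| ≤ 2 * Y + A := by
  obtain ⟨k, h1⟩ := hg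
  rw [mem_Bx] at hq
  simp only at h1
  have := (step_LB h h1 (by omega) (by omega) (by omega) (by omega) (by omega) (by omega)).2
  have := (step_LB h' h1 (by omega) (by omega) (by omega) (by omega) (by omega) (by omega)).2
  rw [abs_le]
  omega

/-- twice the middle between the height and its mirror image -/
noncomputable def md (p : V) (N : ℤ) (o : V) (w : Cf) : ℤ :=
  gr (flH true p N w) p - gr (flH true p N w) o + (gr w p - gr w o)

lemma md_le (hw : w ∈ Val) {N : ℤ} {o : V} (ho : o ∉ Bx p N) (hN : N < 2 * n)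
    (h : LR (Cl w a c Y) p.1 (p.1 + 2 * n) p.2 (p.2 + n))
    (ha : a = p ∨ ∃ m, a ∈ Bx p m ∧ Bx p m ⊆ Ho true p N (red w)) :
    |md p N o w - 2 * (c - gr w o)| ≤ 2 * Y + 1 := by
  obtain ⟨u0, -, b, hb, h⟩ := h
  have cb : Conn (Tw w c Y) a b := h.right.1
  have hb' : b ∉ Ho true p N (red w) := fun h => by
    have := Ho_sub _ _ _ _ h
    simp only [mem_Bx, mem_ofPred_eq] at *
    omega
  have ho' : o ∉ Ho true p N (red w) := fun h => ho (Ho_sub _ _ _ _ h)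
  by_cases hH : a ∈ Ho true p N (red w)
  · obtain ⟨u, v, c1, e, hv, c2⟩ := cb.exit hH hb'
    have c3 : Conn (Ho true p N (red w)) p a := by
      rcases ha with rfl | ⟨m, h1, h2⟩
      · exact Conn.refl hH
      · exact (Rec_conn (u := p) (by simp only [mem_Bx, mem_Rec] at *; omega) h1).mono h2
    have := gr_fl_lvl hw (Ho_cut _ _ _ _) (Ho_coConn _ _ _ _) ho'
      (c3.trans (c1.mono inter_subset_right)) e hv
    have t := c2.left
    simp only [Tw, mem_ofPred_eq] at t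
    unfold md flH
    rw [this.1]
    have := abs_le.1 this.2.le
    rw [abs_le]
    omega
  · have e : a = p := ha.resolve_right fun ⟨m, h1, h2⟩ => hH (h2 h1)
    subst e
    have t := cb.left
    simp only [Tw, mem_ofPred_eq] at t
    unfold md flH
    rw [gr_fl_out hw (Ho_cut _ _ _ _) (Ho_coConn _ _ _ _) ho' hH, abs_le]
    omega

/-! ### moments from tails -/

lemma tail_bound {θ : ℝ} (h0 : 0 ≤ θ) (h1 : θ < 1) (m : ℕ) : ∃ S : ℝ, 0 ≤ S ∧
    ∀ (M : Set Cf) (Z : Cf → ℝ) (G : ℕ → Set Cf) (a b : ℝ), Ok M → 0 ≤ a → 0 ≤ b →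
      (∀ t : ℕ, ∀ w ∈ M, w ∈ G t → Z w ≤ a * (t + 1) ^ m) →
      (∀ t : ℕ, Pr M (G t)ᶜ ≤ b * ((t + 1) * θ ^ t)) → Ex M Z ≤ a * (1 + b * S) := by
  have sm : ∀ m : ℕ, Summable fun t : ℕ => ((t : ℝ) + 2) ^ m * θ ^ t := fun m => by
    simp only [add_pow, Finset.sum_mul]
    refine summable_sum fun i _ => ?_
    have := (summable_pow_mul_geometric_of_norm_lt_one (r := θ) i
      (by rwa [Real.norm_eq_abs, abs_of_nonneg h0])).mul_left ((2 : ℝ) ^ (m - i) * m.choose i)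
    exact this.congr fun t => by ring
  have s1 : Summable fun t : ℕ => ((t : ℝ) + 1 + 1) ^ m * ((t + 1) * θ ^ t) :=
    Summable.of_nonneg_of_le (fun t => by positivity) (fun t => by
      rw [pow_succ ((t : ℝ) + 2), mul_assoc, show (t : ℝ) + 1 + 1 = t + 2 by ring]
      gcongr
      norm_num) (sm (m + 1))
  have s2 : Tendsto (fun t : ℕ => ((t : ℝ) + 1) * θ ^ t) atTop (𝓝 0) :=
    (Summable.of_nonneg_of_le (fun t => by positivity) (fun t => by
      rw [pow_one]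
      gcongr
      norm_num) (sm 1)).tendsto_atTop_zero
  refine ⟨∑' t : ℕ, ((t : ℝ) + 1 + 1) ^ m * ((t + 1) * θ ^ t),
    tsum_nonneg fun t => by positivity, fun M Z G a b ok ha hb hZ hG => ?_⟩
  obtain ⟨B, hB⟩ := (ok.1.image fun w => |Z w|).bddAbove
  have hB' : ∀ w ∈ M, |Z w| ≤ B := fun w hw => hB ⟨w, hw, rfl⟩
  have B0 : 0 ≤ B := let ⟨w, hw⟩ := ok.2; (abs_nonneg _).trans (hB' w hw)
  have pt : ∀ w ∈ M, ∀ T : ℕ, Z w ≤ a + ∑ t ∈ Finset.range T,
      a * ((t : ℝ) + 1 + 1) ^ m * (G t)ᶜ.indicator (1 : Cf → ℝ) w ∨ ∀ t ≤ T, w ∉ G t := by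
    intro w hw T
    induction T with
    | zero =>
      by_cases h : w ∈ G 0
      · exact Or.inl (by simpa using hZ 0 w hw h)
      · exact Or.inr fun t ht => by rwa [Nat.le_zero.1 ht]
    | succ T ih =>
      have n0 : ∀ t : ℕ, 0 ≤ a * ((t : ℝ) + 1 + 1) ^ m * (G t)ᶜ.indicator (1 : Cf → ℝ) w :=
        fun t => mul_nonneg (by positivity) (indicator_nonneg (fun _ _ => zero_le_one) _)
      rw [Finset.sum_range_succ]
      rcases ih with ih | ih
      · exact Or.inl (by linarith [n0 T])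
      · by_cases h : w ∈ G (T + 1)
        · have := hZ (T + 1) w hw h
          have s := Finset.sum_nonneg fun t (_ : t ∈ Finset.range T) => n0 t
          rw [indicator_of_mem (show w ∈ (G T)ᶜ from ih T le_rfl), Pi.one_apply, mul_one]
          push_cast at this
          exact Or.inl (by linarith)
        · exact Or.inr fun t ht => by
            rcases Nat.le_succ_iff.1 ht with ht | rfl
            · exact ih t ht
            · exact h
  have key : ∀ T : ℕ, Ex M Z ≤ a * (1 + b * ∑' t : ℕ, ((t : ℝ) + 1 + 1) ^ m * ((t + 1) * θ ^ t)) +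
      B * (b * ((T + 1) * θ ^ T)) := fun T => by
    have e : Ex M Z ≤ Ex M fun w => a + ∑ t ∈ Finset.range T,
        a * ((t : ℝ) + 1 + 1) ^ m * (G t)ᶜ.indicator (1 : Cf → ℝ) w +
          B * (G T)ᶜ.indicator (1 : Cf → ℝ) w := ex_mono fun w hw => by
      rcases pt w hw T with h | h
      · exact h.trans (le_add_of_nonneg_right
          (mul_nonneg B0 (indicator_nonneg (fun _ _ => zero_le_one) _)))
      · have s : 0 ≤ ∑ t ∈ Finset.range T,
            a * ((t : ℝ) + 1 + 1) ^ m * (G t)ᶜ.indicator (1 : Cf → ℝ) w :=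
          Finset.sum_nonneg fun t _ =>
            mul_nonneg (by positivity) (indicator_nonneg (fun _ _ => zero_le_one) _)
        rw [indicator_of_mem (show w ∈ (G T)ᶜ from h T le_rfl), Pi.one_apply, mul_one]
        linarith [(abs_le.1 (hB' w hw)).2]
    simp only [ex_add, ex_sum, ex_mul, ex_const ok, ← pr_eq] at e
    refine e.trans (add_le_add ?_ (mul_le_mul_of_nonneg_left (hG T) B0))
    rw [mul_add, mul_one, add_le_add_iff_left]
    refine le_trans (Finset.sum_le_sum fun t _ => mul_le_mul_of_nonneg_left (hG t) (by positivity))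
      (le_trans (le_of_eq ?_) (mul_le_mul_of_nonneg_left (mul_le_mul_of_nonneg_left
        (s1.sum_le_tsum (Finset.range T) fun t _ => by positivity) hb) ha))
    simp only [Finset.mul_sum]
    exact Finset.sum_congr rfl fun t _ => by ring
  have := ((s2.const_mul b).const_mul B).const_add
    (a * (1 + b * ∑' t : ℕ, ((t : ℝ) + 1 + 1) ^ m * ((t + 1) * θ ^ t)))
  simpa using ge_of_tendsto' this key

lemma OscS.hv (h : OscS) : ∃ (θ : ℝ) (A : ℕ), 0 ≤ θ ∧ θ < 1 ∧ ∀ (U : Set V) (j : ℕ), U.Finite →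
    (∀ p n, 1 ≤ n → Bx p (A * n) ⊆ U → Pr (PP U) (VG p n (A * (j + 1)))ᶜ ≤ A * θ ^ j) ∧
    ∀ p (i I : ℕ), Bx p (A * (2 * 4 ^ I)) ⊆ U →
      Pr (PP U) (CG p i I (A * (j + 1)))ᶜ ≤ 2 * (I + 1 - i : ℕ) * (A * θ ^ j) := by
  obtain ⟨θ, A, h0, h1, h⟩ := h
  have hH : ∀ (U : Set V) (j : ℕ), U.Finite → ∀ p n, 1 ≤ n → Bx p (A * n) ⊆ U →
      Pr (PP U) (HG p n (A * (j + 1)))ᶜ ≤ A * θ ^ j := fun U j hU p n hn hs =>
    h U p.1 p.2 n j hU hn hs
  have hV : ∀ (U : Set V) (j : ℕ), U.Finite → ∀ p n, 1 ≤ n → Bx p (A * n) ⊆ U →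
      Pr (PP U) (VG p n (A * (j + 1)))ᶜ ≤ A * θ ^ j := fun U j hU p n hn hs => by
    refine le_trans ?_ (hH (Equiv.prodComm ℤ ℤ ⁻¹' U) j
      (hU.preimage (Equiv.injective _).injOn) p.swap n hn fun v hv => hs ?_)
    · rw [← pr_bij (bij_PP aut_swap U)]
      refine pr_mono fun w hw hn ⟨k, u, hu, v, hv, c⟩ => hn ⟨k, u.swap, hu, v.swap, hv,
        c.map (f := Prod.swap) (fun _ _ => adj_swap) fun z hz =>
          ⟨?_, hz.2.2.2.1, hz.2.2.2.2, hz.2.1, hz.2.2.1⟩⟩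
      have e := gr_act aut_swap.adj (Sp_val hw) z
      rw [show (Equiv.prodComm ℤ ℤ) (0 : V) = 0 from rfl, gr_zero (Sp_val hw), sub_zero] at e
      have := hz.1
      simp only [Wn, mem_ofPred_eq] at *
      exact e ▸ this
    · simp only [mem_Bx, Prod.fst_swap, Prod.snd_swap, Equiv.prodComm_apply] at *
      omega
  refine ⟨θ, A, h0, h1, fun U j hU => ⟨hV U j hU, fun p i I hs => ?_⟩⟩
  refine le_trans (pr_mono (B := ⋃ k ∈ Finset.Icc i I,
    ((HG p (4 ^ k) (A * (j + 1)))ᶜ ∪ (VG p (2 * 4 ^ k) (A * (j + 1)))ᶜ)) fun w _ hw => ?_)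
    ((pr_biUnion_le _ _ _).trans ?_)
  · simp only [CG, mem_compl_iff, mem_ofPred_eq, not_forall, not_and_or] at hw
    obtain ⟨k, h1, h2, h3⟩ := hw
    exact mem_biUnion (Finset.mem_Icc.2 ⟨h1, h2⟩) h3
  · refine (Finset.sum_le_card_nsmul _ _ (A * θ ^ j + A * θ ^ j) fun k hk => ?_).trans
      (by rw [Nat.card_Icc, nsmul_eq_mul]; exact le_of_eq (by ring))
    have e : (4 : ℤ) ^ k ≤ 4 ^ I := pow_le_pow_right₀ (by norm_num) (Finset.mem_Icc.1 hk).2
    have p0 : (1 : ℤ) ≤ 4 ^ k := one_le_pow₀ (by norm_num)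
    refine (pr_union_le _ _ _).trans (add_le_add (hH U j hU p _ p0 (Subset.trans (Bx_mono ?_) hs))
      (hV U j hU p _ (by omega) (Subset.trans (Bx_mono ?_) hs))) <;>
    exact mul_le_mul_of_nonneg_left (by omega) (by positivity)

/-- polylogarithmic bound for the height differences -/
theorem OscS.plog (h : OscS) : ∃ C : ℝ, 0 ≤ C ∧ ∀ (I : ℕ) (p q : V), q ∈ Bx p (4 ^ I) →
    ∃ S : Set V, S.Finite ∧ ∀ U : Set V, U.Finite → S ⊆ U →
      Ex (PP U) (fun w => ((gr w q : ℝ) - gr w p) ^ 2) ≤ C * (I + 1) ^ 3 := by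
  obtain ⟨θ, A, h0, h1, h⟩ := h.hv
  obtain ⟨S, S0, hS⟩ := tail_bound h0 h1 2
  refine ⟨(4 + 5 * A) ^ 2 * (1 + 5 * A * S), by positivity, fun I p q hq =>
    ⟨Bx p (A * (2 * 4 ^ I)) ∪ Bx q (A * (2 * 4 ^ I)) ∪ Bx (max p.1 q.1, min p.2 q.2) (A * 4 ^ I),
      ((Bx_finite _ _).union (Bx_finite _ _)).union (Bx_finite _ _), fun U hU hs => ?_⟩⟩
  simp only [union_subset_iff] at hs
  have I0 : (0 : ℝ) ≤ I := by positivity
  refine (hS _ _ (fun t => CG p 0 I (A * (t + 1)) ∩ CG q 0 I (A * (t + 1)) ∩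
    VG (max p.1 q.1, min p.2 q.2) (4 ^ I) (A * (t + 1))) (((4 + 5 * A) * (I + 1)) ^ 2)
    (5 * A * (I + 1)) (ok_PP hU) (by positivity) (by positivity) (fun t w hw hg => ?_)
    fun t => ?_).trans ?_
  · have a := ochain (start_pt (Sp_val hw) p) I (by simpa using hg.1.1)
    have b := ochain (start_pt (Sp_val hw) q) I (by simpa using hg.1.2)
    rw [zero_add] at a b
    have l : (|(gr w p : ℝ) - gr w q|) ≤ 2 * (2 + 2 * I * (A * (t + 1))) + A * (t + 1) := by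
      exact_mod_cast link a b hq hg.2
    rw [← mul_pow, ← sq_abs, abs_sub_comm]
    refine pow_le_pow_left₀ (abs_nonneg _) (l.trans ?_) 2
    have : (0 : ℝ) ≤ t := by positivity
    have : (0 : ℝ) ≤ A := by positivity
    nlinarith [mul_nonneg I0 (show (0 : ℝ) ≤ t by positivity),
      mul_nonneg (mul_nonneg I0 this) (show (0 : ℝ) ≤ t + 1 by positivity),
      mul_nonneg this (show (0 : ℝ) ≤ t + 1 by positivity)]
  · rw [compl_inter, compl_inter]
    have a := (h U t hU).2 p 0 I hs.1.1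
    have b := (h U t hU).2 q 0 I hs.1.2
    have c := (h U t hU).1 _ _ (one_le_pow₀ (by norm_num)) hs.2
    have d : (0 : ℝ) ≤ A * θ ^ t := by positivity
    refine (pr_union_le _ _ _).trans ((add_le_add ((pr_union_le _ _ _).trans (add_le_add a b))
      c).trans ?_)
    push_cast [Nat.sub_zero]
    nlinarith [mul_nonneg d I0, mul_nonneg (mul_nonneg d (show (0 : ℝ) ≤ I + 1 by positivity))
      (show (0 : ℝ) ≤ t by positivity)]
  · have : (0 : ℝ) ≤ (4 + 5 * A) ^ 2 * (I + 1) ^ 2 := by positivity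
    nlinarith [mul_nonneg this I0]

/-- the levels of the double separators at comparable scales and distances are comparable -/
theorem OscS.mid (h : OscS) : ∃ C : ℝ, ∀ (m : ℕ) (p q o : V), 1 ≤ m → q ∈ Bx p (16 * m) →
    o ∉ Bx p m → o ∉ Bx q m → ∃ S : Set V, S.Finite ∧ ∀ U : Set V, U.Finite → S ⊆ U →
      Ex (PP U) (fun w => ((md p m o w : ℝ) - md q m o w) ^ 2) ≤ C := by
  obtain ⟨θ, A, h0, h1, h⟩ := h.hv
  obtain ⟨C, α, hC, hα, ha⟩ := arm_pp
  have β0 : (0 : ℝ) ≤ (1 / 4) ^ α := by positivity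
  have β1 : (1 / 4 : ℝ) ^ α < 1 := Real.rpow_lt_one (by norm_num) (by norm_num) hα
  obtain ⟨S, S0, hS⟩ := tail_bound (le_max_of_le_left h0) (max_lt h1 β1) 4
  refine ⟨(18 + 74 * A) ^ 2 * (1 + (21 * A + 2 * C) * S), fun m p q o hm hq o1 o2 => ?_⟩
  obtain ⟨J, j1, j2⟩ : ∃ J : ℕ, (4 : ℤ) ^ J ≤ m ∧ (m : ℤ) < 4 * 4 ^ J :=
    ⟨Nat.log 4 m, by exact_mod_cast Nat.pow_log_le_self 4 (by omega), by
      have := Nat.lt_pow_succ_log_self (b := 4) (by norm_num) m
      rw [pow_succ'] at this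
      exact_mod_cast this⟩
  have e3 : (4 : ℤ) ^ (J + 3) = 64 * 4 ^ J := by ring
  refine ⟨Bx p (A * (2 * 4 ^ (J + 3))) ∪ Bx q (A * (2 * 4 ^ (J + 3))) ∪
    Bx (max p.1 q.1, min p.2 q.2) (A * 4 ^ (J + 3)),
      ((Bx_finite _ _).union (Bx_finite _ _)).union (Bx_finite _ _), fun U hU hs => ?_⟩
  simp only [union_subset_iff] at hs
  let E : V → ℕ → Set Cf := fun p t => CG p (J - (t + 1)) (J + 3) (A * (t + 1)) ∩
    {w | t + 1 ≤ J → red w ∈ SepE true (Bx p (2 * 4 ^ (J - (t + 1)))) (Bx p m)ᶜ}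
  have det : ∀ p t, ∀ w ∈ Val, w ∈ E p t → o ∉ Bx p m → ∃ a c,
      LR (Cl w a c (2 + A * (t + 1) + 2 * (t + 4) * (A * (t + 1)))) p.1 (p.1 + 2 * 4 ^ (J + 3)) p.2
        (p.2 + 4 ^ (J + 3)) ∧ |md p m o w - 2 * (c - gr w o)| ≤
          2 * (2 + A * (t + 1) + 2 * (t + 4) * (A * (t + 1))) + 1 := fun p t w hw hE ho => by
    have n0 : (0 : ℤ) ≤ A * (t + 1) := by positivity
    obtain ⟨a, c, s1, s2⟩ : ∃ a c, LR (Cl w a c (2 + A * (t + 1))) p.1
        (p.1 + 2 * 4 ^ (J - (t + 1))) p.2 (p.2 + 4 ^ (J - (t + 1))) ∧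
        (a = p ∨ ∃ n, a ∈ Bx p n ∧ Bx p n ⊆ Ho true p m (red w)) := by
      by_cases ht : t + 1 ≤ J
      · obtain ⟨a, a1, c, a2⟩ := start_H (hE.1 _ le_rfl (by omega)).1
        exact ⟨a, c, a2.mono (Cl_mono (by omega)) le_rfl (le_add_of_nonneg_right (by positivity))
          le_rfl le_rfl le_rfl, Or.inr ⟨_, a1, sub_Ho (hE.2 ht)⟩⟩
      · rw [show J - (t + 1) = 0 by omega]
        exact ⟨p, _, (start_pt hw p).mono (Cl_mono (by omega)) le_rfl (by norm_num)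
          le_rfl le_rfl le_rfl, Or.inl rfl⟩
    have e : J - (t + 1) + (J + 3 - (J - (t + 1))) = J + 3 := by omega
    have s3 := ochain s1 (J + 3 - (J - (t + 1))) (A := A * (t + 1)) (by rw [e]; exact hE.1)
    rw [e] at s3
    have s4 := s3.mono (Cl_mono (Y' := 2 + A * (t + 1) + 2 * (t + 4) * (A * (t + 1))) (by
      have : ((J + 3 - (J - (t + 1)) : ℕ) : ℤ) ≤ t + 4 := by omega
      nlinarith)) le_rfl (le_add_of_nonneg_right (by positivity)) le_rfl le_rfl le_rfl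
    exact ⟨a, c, s4, md_le hw ho (by omega) s4 s2⟩
  have pr : ∀ p t, Bx p (A * (2 * 4 ^ (J + 3))) ⊆ U → Pr (PP U) (E p t)ᶜ ≤
      2 * (t + 5) * (A * max θ ((1 / 4) ^ α) ^ t) + C * max θ ((1 / 4) ^ α) ^ t :=
    fun p t hp => by
      rw [compl_inter]
      refine (pr_union_le _ _ _).trans (add_le_add (((h U t hU).2 p _ _ hp).trans ?_) ?_)
      · have : ((J + 3 + 1 - (J - (t + 1)) : ℕ) : ℝ) ≤ t + 5 := by
          exact_mod_cast (by omega : J + 3 + 1 - (J - (t + 1)) ≤ t + 5)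
        gcongr
        exact le_max_left _ _
      · by_cases ht : t + 1 ≤ J
        · obtain ⟨i, rfl⟩ := Nat.exists_eq_add_of_le' ht
          rw [Nat.add_sub_cancel]
          have e4 : (4 : ℤ) ^ (i + (t + 1)) = 4 * 4 ^ t * 4 ^ i := by ring
          have p1 : (1 : ℤ) ≤ 4 ^ i := one_le_pow₀ (by norm_num)
          have p2 : (1 : ℤ) ≤ 4 ^ t := one_le_pow₀ (by norm_num)
          refine le_trans (pr_mono fun w _ hw hs => hw fun _ => hs)
            ((ha true U p (2 * 4 ^ i) m hU (by omega) (by nlinarith) (by simp)).trans ?_)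
          refine mul_le_mul_of_nonneg_left (le_trans ?_
            (pow_le_pow_left₀ β0 (le_max_right _ _) t)) hC.le
          rw [← Real.rpow_natCast, ← Real.rpow_mul (by norm_num), mul_comm α,
            Real.rpow_mul (by norm_num), Real.rpow_natCast]
          refine Real.rpow_le_rpow (by positivity) ?_ hα.le
          have m0 : (0 : ℝ) < ((m : ℤ) : ℝ) := by exact_mod_cast hm
          rw [one_div, inv_pow, div_le_iff₀ m0, le_inv_mul_iff₀ (by positivity)]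
          have : (4 : ℤ) ^ t * (2 * 4 ^ i) ≤ m := by nlinarith
          exact_mod_cast this
        · refine le_trans (le_of_eq (pr_none fun w _ hw => ?_)) (by positivity)
          exact hw fun h => absurd h ht
  refine hS _ _ (fun t => E p t ∩ E q t ∩
    VG (max p.1 q.1, min p.2 q.2) (4 ^ (J + 3)) (A * (t + 1))) _ _ (ok_PP hU) (by positivity)
    (by positivity) (fun t w hw hg => ?_) fun t => ?_
  · obtain ⟨a, c, a1, a2⟩ := det p t w (Sp_val hw) hg.1.1 o1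
    obtain ⟨a', c', b1, b2⟩ := det q t w (Sp_val hw) hg.1.2 o2
    have l := link a1 b1 (Bx_mono (by omega) hq) hg.2
    have : |md p m o w - md q m o w| ≤ (18 + 74 * A) * (t + 1) ^ 2 := by
      have t0 : (0 : ℤ) ≤ t := by positivity
      have A0 : (0 : ℤ) ≤ A := by positivity
      have : 8 * (2 + A * (t + 1) + 2 * (t + 4) * (A * (t + 1))) + 2 * (A * (t + 1)) + 2 ≤
          (18 + 74 * (A : ℤ)) * (t + 1) ^ 2 := by
        nlinarith [mul_nonneg A0 t0, mul_nonneg (mul_nonneg A0 t0) t0, mul_nonneg t0 t0]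
      rw [abs_le] at *
      omega
    have : |(md p m o w : ℝ) - md q m o w| ≤ (18 + 74 * A) * (t + 1) ^ 2 := by exact_mod_cast this
    rw [← sq_abs]
    exact (pow_le_pow_left₀ (abs_nonneg _) this 2).trans (le_of_eq (by ring))
  · rw [compl_inter, compl_inter]
    have c := ((h U t hU).1 _ _ (one_le_pow₀ (by norm_num)) hs.2).trans
      (mul_le_mul_of_nonneg_left (pow_le_pow_left₀ h0 (le_max_left θ ((1 / 4) ^ α)) t)
        (by positivity))
    refine (pr_union_le _ _ _).trans ((add_le_add ((pr_union_le _ _ _).trans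
      (add_le_add (pr p t hs.1.1) (pr q t hs.1.2))) c).trans ?_)
    have d : (0 : ℝ) ≤ max θ ((1 / 4) ^ α) ^ t := by positivity
    have t0 : (0 : ℝ) ≤ t := by positivity
    nlinarith [mul_nonneg (mul_nonneg d t0) hC.le,
      mul_nonneg (mul_nonneg d t0) (show (0 : ℝ) ≤ A by positivity)]

end Pool.Agent.Lib.MP_6359c9_pr
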