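import Pool.Agent.Lib.MP_6359c9_pr.InfLim

/-! Reflection positivity of the infinite volume functional. -/

namespace Pool.Agent.Lib.MP_6359c9_pr

open Set Filter Topology

variable {F G : Cf → ℝ}

/-- the closed half plane above the row `j` -/
def UpH (j : ℤ) : Set V := {v | j ≤ v.2}

lemma rfj_snd (j : ℤ) (v : V) : (rfj j v).2 = 2 * j - v.2 := rfl

lemma rfj_row {j : ℤ} {v : V} (h : v.2 = j) : rfj j v = v :=
  Prod.ext (by simp only [rfj, Equiv.coe_fn_mk]; omega) (by rw [rfj_snd]; omega)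

lemma act_rfj_rfj (j : ℤ) (w : Cf) : act (rfj j) (act (rfj j) w) = w :=
  funext fun v => by simp only [act, rfj_rfj]

/-- reflection positivity for symmetric constraints -/
theorem rp_fin {j : ℤ} {T : V → Set (Bool × Bool)} (hT : ∀ v, T (rfj j v) = T v)
    (h : Lcl (UpH j) F) : 0 ≤ Ex (Sp T) fun w => F w * F (act (rfj j) w) := by
  classical
  obtain ⟨F', d, e, -⟩ := h.exists_dep
  rw [ex_stop_loc (stop_const {v | v.2 = j})]
  refine ex_nonneg fun x _ => ?_
  set T' := frz T {v | v.2 = j} x with hT'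
  have s : (fun v => T' (rfj j v)) = T' := funext fun v => by
    by_cases hv : v.2 = j
    · rw [rfj_row hv]
    · rw [hT', frz_off (k := {v | v.2 = j}) hv, frz_off (k := {v | v.2 = j}), hT]
      show ¬(rfj j v).2 = j
      rw [rfj_snd]; omega
  have b := bij_aut Cp T' (aut_rfj j)
  rw [s] at b
  have dec : Dec Cp T' {v | j < v.2} := fun u hu v hv a => Or.inl (frz_sub (by
    simp only [mem_ofPred_eq, Adj] at *; omega))
  have e1 : ∀ w ∈ Loc Cp T', F' (fun v => if j < v.2 then w v else x v) = F w := fun w hw => by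
    rw [← e w (Sp_val hw)]
    refine d fun v hv => ?_
    split_ifs with h1
    · rfl
    · exact ((hw.2 v).2 (le_antisymm (not_lt.1 h1) hv)).symm
  have e2 : ∀ w ∈ Loc Cp T', F' (act (rfj j) w) = F (act (rfj j) w) := fun w hw =>
    e _ (val_act (aut_rfj j).adj (Sp_val hw))
  have := markov_indep dec (Dep.univ _) (Dep.univ _) (f := fun w => F' (act (rfj j) w))
    (g := fun w => F' fun v => if j < v.2 then w v else x v)
    (fun w w' ee => d fun v hv => ee _ (by
      simp only [UpH, mem_compl_iff, mem_ofPred_eq, rfj_snd] at *; omega))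
    fun w w' ee => congrArg F' (funext fun v => by
      split_ifs with h1
      · exact ee v h1
      · rfl)
  simp only [inter_univ] at this
  rw [ex_congr e1, ex_congr e2, ex_congr (g := fun w => F w * F (act (rfj j) w))
    fun w hw => by rw [e1 w hw, e2 w hw, mul_comm]] at this
  rw [this, show Ex (Loc Cp T') (fun w => F (act (rfj j) w)) = _ from ex_bij b F]
  exact mul_self_nonneg _

lemma Lc.lcl {H : Set V} (h : Lc H F) : Lcl H F := let ⟨_, _, h2, h3⟩ := h; h3.mono h2

lemma Lc.rfj (h : Lc Set.univ F) (j : ℤ) : Lc Set.univ fun w => F (MP_6359c9_pr.act (rfj j) w) :=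
  h.act (aut_rfj j).adj fun _ _ => trivial

/-- reflection positivity -/
theorem Einf_rp {j : ℤ} (h : Lc (UpH j) F) : 0 ≤ Einf fun w => F w * F (act (rfj j) w) := by
  refine ge_of_tendsto' (tendsto_PP (l := atTop) (U := fun R : ℕ => ball (0, j) R)
    (h.univ.mul (h.univ.rfj j)) (fun R => ball_finite _ _) fun N => ?_) fun R => ?_
  · filter_upwards [eventually_ge_atTop (2 * N + 2 * j.natAbs)] with R hR v hv
    rw [mem_Bx0] at hv
    rw [mem_ball]
    simp only
    omega
  · have s : rfj j ⁻¹' ball (0, j) R = ball (0, j) R := by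
      ext v
      simp only [mem_preimage, mem_ball, rfj, Equiv.coe_fn_mk]
      omega
    have s' : rfj j ⁻¹' cl (ball (0, j) R) = cl (ball (0, j) R) := by rw [(aut_rfj j).cl, s]
    refine rp_fin (fun v => ?_) h.lcl
    have a : rfj j v ∈ ball (0, j) R ↔ v ∈ ball (0, j) R := Set.ext_iff.1 s v
    have b : rfj j v ∈ cl (ball (0, j) R) ↔ v ∈ cl (ball (0, j) R) := Set.ext_iff.1 s' v
    simp only [tm, off, a, b]

lemma Einf_rp_symm (j : ℤ) (h : Lc univ F) (h' : Lc univ G) :
    Einf (fun w => F w * G (act (rfj j) w)) = Einf fun w => G w * F (act (rfj j) w) := by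
  rw [← Einf_act (aut_rfj j) (h.mul (h'.rfj j))]
  simp only [act_rfj_rfj, mul_comm]

/-- the reflection form on the local functions with support in `H` -/
noncomputable def Bf (j : ℤ) (H : Set V) : LcS H →ₗ[ℝ] LcS H →ₗ[ℝ] ℝ :=
  LinearMap.mk₂ ℝ (fun F G => Einf fun w => F.1 w * G.1 (act (rfj j) w))
    (fun F F' G => by
      rw [← Einf_add ((Lc.univ F.2).mul ((Lc.univ G.2).rfj j))
        ((Lc.univ F'.2).mul ((Lc.univ G.2).rfj j))]
      simp only [Submodule.coe_add, Pi.add_apply, add_mul])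
    (fun c F G => by
      rw [smul_eq_mul, ← Einf_mul c ((Lc.univ F.2).mul ((Lc.univ G.2).rfj j))]
      simp only [Submodule.coe_smul, Pi.smul_apply, smul_eq_mul, mul_assoc])
    (fun F G G' => by
      rw [← Einf_add ((Lc.univ F.2).mul ((Lc.univ G.2).rfj j))
        ((Lc.univ F.2).mul ((Lc.univ G'.2).rfj j))]
      simp only [Submodule.coe_add, Pi.add_apply, mul_add])
    fun c F G => by
      rw [smul_eq_mul, ← Einf_mul c ((Lc.univ F.2).mul ((Lc.univ G.2).rfj j))]
      simp only [Submodule.coe_smul, Pi.smul_apply, smul_eq_mul, mul_left_comm]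

lemma Bf_apply (j : ℤ) {H : Set V} (F G : LcS H) :
    Bf j H F G = Einf fun w => F.1 w * G.1 (act (rfj j) w) := rfl

lemma Bf_symm (j : ℤ) {H : Set V} (F G : LcS H) : Bf j H F G = Bf j H G F :=
  Einf_rp_symm j (Lc.univ F.2) (Lc.univ G.2)

lemma Bf_pos (j : ℤ) (F : LcS (UpH j)) : 0 ≤ Bf j (UpH j) F F := Einf_rp F.2

/-- Cauchy Schwarz inequality for the reflection form -/
theorem Einf_rp_cs {j : ℤ} (h : Lc (UpH j) F) (h' : Lc (UpH j) G) :
    Einf (fun w => F w * G (act (rfj j) w)) ^ 2 ≤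
      Einf (fun w => F w * F (act (rfj j) w)) * Einf fun w => G w * G (act (rfj j) w) := by
  have key : ∀ t : ℝ, 0 ≤ Bf j (UpH j) ⟨G, h'⟩ ⟨G, h'⟩ * (t * t) +
      2 * Bf j (UpH j) ⟨F, h⟩ ⟨G, h'⟩ * t + Bf j (UpH j) ⟨F, h⟩ ⟨F, h⟩ := fun t => by
    have := Bf_pos j (⟨F, h⟩ + t • ⟨G, h'⟩)
    simp only [map_add, map_smul, LinearMap.add_apply, LinearMap.smul_apply, smul_eq_mul,
      Bf_symm j ⟨G, h'⟩ ⟨F, h⟩] at this
    linarith
  have := discrim_le_zero key
  rw [discrim] at this
  simp only [Bf_apply] at this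
  linarith

end Pool.Agent.Lib.MP_6359c9_pr
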