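import Pool.Agent.Lib.MP_6359c9_pr.Spec

/-! Every long path meets a window of heights of bounded size, with geometric tails. -/

namespace Pool.Agent.Lib.MP_6359c9_pr

open Set

lemma CoConn.cn {k : Set V} (h : CoConn kᶜ) {u v : V} (hu : u ∈ k) (hv : v ∈ k) : Conn k u v := by
  simpa using h u (not_not.2 hu) v (not_not.2 hv)

/-! ### alternating exploration -/

/-- the alternating clusters of non double edges -/
def KA (r : V → Bool) : ℕ → Bool → Set V → Set V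
  | 0, _, k => k
  | i + 1, s, k => KA r i (!s) (NK (lev r s) (cl k))

lemma sub_KA (r : V → Bool) (i : ℕ) : ∀ s k, k ⊆ KA r i s k := by
  induction i with
  | zero => exact fun _ _ => subset_rfl
  | succ i ih => exact fun s k => ((sub_cl k).trans (sub_NK _ _)).trans (ih _ _)

lemma NK_cl_sub {r r' : V → Bool} {k : Set V} (e : ∀ v, v ∉ k → r v = r' v) (s : Bool) :
    NK (lev r s) (cl k) ⊆ NK (lev r' s) (cl k) := by
  rintro v ⟨o, ho, c⟩
  refine c.ind (Q := fun a => a ∈ NK (lev r' s) (cl k)) (sub_NK _ _ ho) fun a b _ ab _ n ih => ?_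
  by_cases hb : b ∈ cl k
  · exact sub_NK _ _ hb
  · obtain ⟨o', ho', c'⟩ := ih
    refine ⟨o', ho', c'.tail ab trivial fun h => n ⟨?_, ?_⟩⟩
    · exact (e a fun ha => hb (mem_cl ha ab)).trans h.1
    · exact (e b fun h' => hb (sub_cl _ h')).trans h.2

lemma KA_congr {r r' : V → Bool} (i : ℕ) : ∀ s k, (∀ v, v ∉ k → r v = r' v) →
    KA r i s k = KA r' i s k := by
  induction i with
  | zero => exact fun _ _ _ => rfl
  | succ i ih =>
    intro s k e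
    have : NK (lev r s) (cl k) = NK (lev r' s) (cl k) :=
      (NK_cl_sub e s).antisymm (NK_cl_sub (fun v hv => (e v hv).symm) s)
    simp only [KA]
    rw [← this]
    exact ih _ _ fun v hv => e v fun h => hv (sub_NK _ _ (sub_cl _ h))

lemma dep_KA (Q : Set V → Prop) (i : ℕ) (s : Bool) (k : Set V) :
    Dep kᶜ {w : Cf | Q (KA (red w) i s k)} := fun x y e hx => by
  have := KA_congr (r := red x) (r' := red y) i s k fun v hv => congrArg Prod.fst (e v hv)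
  rw [mem_ofPred_eq, ← this]
  exact hx

lemma aft_aft (ρ : V → Set Bool) {k k' : Set V} (s s' : Bool) (h : cl k ⊆ k') :
    aft (aft ρ k s) k' s' = aft ρ k' s' := by
  funext v
  ext a
  exact and_congr Iff.rfl (forall_congr' fun hv => ⟨fun ha => ha.2 fun h' => hv (h (sub_cl _ h')),
    fun ha => ⟨fun h' => absurd (h h') hv, fun _ => ha⟩⟩)

lemma sso_aft' (ρ : V → Set Bool) (k : Set V) (v : V) : Sso (aft ρ k false v) (ρ v) := by
  intro b hb a ha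
  by_cases hk : v ∈ k
  · rw [hb.1 (sub_cl _ hk)]
    exact ⟨⟨fun _ => by simp, fun h => absurd hk h⟩, by simpa using ha⟩
  · have := sso_refl (ρ v) b (hb.2 hk) a ha
    exact ⟨⟨fun h => by rw [hb.1 h]; simp, fun _ => this.1⟩, this.2⟩

/-! ### heights along the exploration -/

lemma ck_cases (a : Bool × Bool) : (ck a = 0 ∧ a.1 = true ∧ a.2 = true) ∨
    (ck a = 1 ∧ a.1 = true ∧ a.2 = false) ∨ (ck a = 2 ∧ a.1 = false ∧ a.2 = false) ∨
    (ck a = 3 ∧ a.1 = false ∧ a.2 = true) := by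
  revert a; decide

lemma gr_res {w : Cf} (hw : w ∈ Val) (y : V) : (gr w y + ck (w 0)) % 4 = ck (w y) := by
  have h1 := gr_mod hw 0 y
  have h2 := ck_cases (w y)
  rw [gr_zero hw] at h1
  omega

lemma red_iff {w : Cf} (hw : w ∈ Val) (y : V) (s : Bool) :
    red w y = s ↔ (gr w y + ck (w 0)) % 4 / 2 = if s then 0 else 1 := by
  rw [gr_res hw]
  unfold red
  rcases ck_cases (w y) with h | h | h | h <;> rw [h.1, h.2.1] <;> cases s <;> simp

lemma blue_iff {w : Cf} (hw : w ∈ Val) (y : V) (s : Bool) :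
    blue w y = s ↔ (gr w y + ck (w 0) + 1) % 4 / 2 = if s then 0 else 1 := by
  have := gr_res hw y
  rw [show (gr w y + ck (w 0) + 1) % 4 = (ck (w y) + 1) % 4 by omega]
  unfold blue
  rcases ck_cases (w y) with h | h | h | h <;> rw [h.1, h.2.2] <;> cases s <;> simp

lemma gr_nconn {w : Cf} (hw : w ∈ Val) {s : Bool} {o v : V}
    (c : NConn (lev (red w) s) univ o v) : |gr w v - gr w o| ≤ 3 := by
  have key : (gr w v + ck (w 0) - if s then 1 else 3) / 4 =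
      (gr w o + ck (w 0) - if s then 1 else 3) / 4 := by
    refine c.ind (Q := fun a => (gr w a + ck (w 0) - if s then 1 else 3) / 4 =
      (gr w o + ck (w 0) - if s then 1 else 3) / 4) rfl fun a b _ ab _ n ih => ?_
    have h1 := abs_le.1 (gr_lip hw ab)
    have h2 : ¬(red w a = s ∧ red w b = s) := n
    rw [red_iff hw, red_iff hw] at h2
    rw [← ih]
    cases s <;> simp only [Bool.false_eq_true, if_true, if_false] at h2 ⊢ <;> omega
  rw [abs_le]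
  omega

lemma gr_red {w : Cf} (hw : w ∈ Val) {s : Bool} {S : Set V} {u v : V} (c : Conn S u v)
    (h : ∀ y ∈ S, red w y = s) : |gr w v - gr w u| ≤ 1 := by
  have key : (gr w v + ck (w 0)) / 2 = (gr w u + ck (w 0)) / 2 := by
    refine c.ind (P := fun a => (gr w a + ck (w 0)) / 2 = (gr w u + ck (w 0)) / 2) rfl
      fun a b ha ab hb ih => ?_
    have h1 := abs_le.1 (gr_lip hw ab)
    have h2 := (red_iff hw a s).1 (h a ha.right)
    have h3 := (red_iff hw b s).1 (h b hb)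
    omega
  rw [abs_le]
  omega

lemma gr_blue {w : Cf} (hw : w ∈ Val) {s : Bool} {S : Set V} {u v : V} (c : Conn S u v)
    (h : ∀ y ∈ S, blue w y = s) : |gr w v - gr w u| ≤ 1 := by
  have key : (gr w v + ck (w 0) + 1) / 2 = (gr w u + ck (w 0) + 1) / 2 := by
    refine c.ind (P := fun a => (gr w a + ck (w 0) + 1) / 2 = (gr w u + ck (w 0) + 1) / 2) rfl
      fun a b ha ab hb ih => ?_
    have h1 := abs_le.1 (gr_lip hw ab)
    have h2 := (blue_iff hw a s).1 (h a ha.right)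
    have h3 := (blue_iff hw b s).1 (h b hb)
    omega
  rw [abs_le]
  omega

lemma gr_cl {w : Cf} (hw : w ∈ Val) {k : Set V} {m b : ℤ} (h : ∀ v ∈ k, |gr w v - m| ≤ b) :
    ∀ v ∈ cl k, |gr w v - m| ≤ b + 1 := by
  rintro v (hv | ⟨u, hu, e⟩)
  · exact (h v hv).trans (by omega)
  · have h1 := abs_le.1 (h u hu)
    have h2 := abs_le.1 (gr_lip hw e)
    rw [abs_le]
    omega

lemma gr_KA {w : Cf} (hw : w ∈ Val) (m : ℤ) (i : ℕ) : ∀ (s : Bool) (k : Set V) (b : ℤ),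
    (∀ v ∈ cl k, |gr w v - m| ≤ b) → ∀ v ∈ cl (KA (red w) i s k), |gr w v - m| ≤ b + 4 * i := by
  induction i with
  | zero => exact fun s k b h v hv => by simpa using h v hv
  | succ i ih =>
    intro s k b h v hv
    have := ih (!s) (NK (lev (red w) s) (cl k)) (b + 3 + 1) (gr_cl hw ?_) v hv
    · push_cast; omega
    · rintro y ⟨o, ho, c⟩
      have h1 := abs_le.1 (h o ho)
      have h2 := abs_le.1 (gr_nconn hw c)
      rw [abs_le]
      omega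

lemma gr_dist {w : Cf} (hw : w ∈ Val) (x : V) (a b : ℤ) :
    |gr w (x.1 + a, x.2 + b) - gr w x| ≤ |a| + |b| := by
  have step : ∀ u v, Adj u v → ∀ n : ℤ, |gr w u - gr w x| ≤ n → |gr w v - gr w x| ≤ n + 1 := by
    intro u v e n h
    have := abs_le.1 (gr_lip hw e)
    rw [abs_le] at h ⊢
    omega
  induction a using Int.induction_on with
  | zero =>
    induction b using Int.induction_on with
    | zero => simp
    | succ n ih =>
      refine (step _ (x.1 + 0, x.2 + (n + 1)) (by simp [Adj]; omega) _ ih).trans ?_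
      rw [abs_of_nonneg (by omega : (0 : ℤ) ≤ n), abs_of_nonneg (by omega : (0 : ℤ) ≤ n + 1)]
      omega
    | pred n ih =>
      refine (step _ (x.1 + 0, x.2 + (-n - 1)) (by simp [Adj]; omega) _ ih).trans ?_
      rw [abs_of_nonpos (by omega : -(n : ℤ) ≤ 0), abs_of_nonpos (by omega : -(n : ℤ) - 1 ≤ 0)]
      omega
  | succ n ih =>
    refine (step _ (x.1 + (n + 1), x.2 + b) (by simp [Adj]; omega) _ ih).trans ?_
    rw [abs_of_nonneg (by omega : (0 : ℤ) ≤ n), abs_of_nonneg (by omega : (0 : ℤ) ≤ n + 1)]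
    omega
  | pred n ih =>
    refine (step _ (x.1 + (-n - 1), x.2 + b) (by simp [Adj]; omega) _ ih).trans ?_
    rw [abs_of_nonpos (by omega : -(n : ℤ) ≤ 0), abs_of_nonpos (by omega : -(n : ℤ) - 1 ≤ 0)]
    omega

lemma gr_Bx {w : Cf} (hw : w ∈ Val) {x y : V} {n : ℤ} (h : y ∈ Bx x n) :
    |gr w y - gr w x| ≤ 2 * n := by
  have := gr_dist hw x (y.1 - x.1) (y.2 - x.2)
  rw [add_sub_cancel, add_sub_cancel] at this
  rw [mem_Bx] at h
  have h1 : |y.1 - x.1| ≤ n := abs_le.2 (by omega)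
  have h2 : |y.2 - x.2| ≤ n := abs_le.2 (by omega)
  exact this.trans (by omega)

/-! ### nets of double separators -/

lemma Sep.blk {T S I O : Set V} (h : Sep T I O) (hS : T ⊆ S) : Blk Sᶜ I O := by
  rintro ⟨u, ⟨i, hi, iu⟩, v, ⟨o, ho, ov⟩, c⟩
  have c' := (c.nconn (P := T) fun x hx hT => hx.1 (hS hT)).mono subset_rfl (subset_univ _)
  exact h i hi o ho ((((NConn.refl (mem_univ i)).tail iu trivial fun h => c.left.1 (hS h.2)).trans
    c').tail ov.symm trivial fun h => c.right.1 (hS h.1))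

/-- a connected set that absorbs `T` and crosses a ring blocks the ring -/
lemma Sep.hit {T K : Set V} {a : V} {m m' : ℤ} (h : Sep T (Bx a m) (Bx a m')ᶜ) (hm : m < m')
    (hT : ∀ u ∈ K, ∀ v ∈ T, Adj u v → v ∈ K) (hK : CoConn Kᶜ) {y z : V} (hy : y ∈ K)
    (hy' : y ∈ Bx a m) (hz : z ∈ K) (hz' : z ∉ Bx a m') {u v : V} (hu : u ∈ Bx a m)
    (hv : v ∉ Bx a m') : ¬Conn (cl K)ᶜ u v := fun c => by
  have := (h.blk (S := T ∪ K ∪ (cl K)ᶜ) fun _ h => Or.inl (Or.inl h)).join hm (subset_univ _)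
    hy' hz' hu hv ((hK.cn hy hz).mono fun _ h => ⟨Or.inl (Or.inr h), trivial⟩)
    (c.mono fun _ h => ⟨Or.inr h, trivial⟩)
  refine c.right (sub_cl _ (this.ind (P := fun b => b ∈ K) hz fun b b' _ e hb ih => ?_))
  rcases hb.1 with (h' | h') | h'
  · exact hT b ih b' h' e
  · exact h'
  · exact absurd (mem_cl ih e) h'

lemma sub_Nbd {I : Set V} {d : ℤ} (hd : 0 ≤ d) : I ⊆ Nbd I d := fun v hv =>
  ⟨v, hv, by rw [mem_Bx]; omega⟩

lemma Nbd_mono {I I' : Set V} {d d' : ℤ} (hI : I ⊆ I') (hd : d ≤ d') : Nbd I d ⊆ Nbd I' d' :=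
  fun _ ⟨u, hu, hv⟩ => ⟨u, hI hu, Bx_mono hd hv⟩

lemma Nbd_Nbd {I : Set V} {a b c : ℤ} (h : a + b ≤ c) : Nbd (Nbd I a) b ⊆ Nbd I c :=
  fun _ ⟨_, ⟨u, hu, h1⟩, h2⟩ => ⟨u, hu, by rw [mem_Bx] at *; omega⟩

lemma Nbd_Bx {I : Set V} {x : V} {a b c : ℤ} (hI : I ⊆ Bx x a) (h : a + b ≤ c) :
    Nbd I b ⊆ Bx x c := fun _ ⟨u, hu, h2⟩ => by
  have := hI hu
  rw [mem_Bx] at *; omega

lemma Nbd_conn {I : Set V} {d : ℤ} (hd : 0 ≤ d) (hI : ∀ u ∈ I, ∀ v ∈ I, Conn I u v) :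
    ∀ u ∈ Nbd I d, ∀ v ∈ Nbd I d, Conn (Nbd I d) u v := by
  have key : ∀ u ∈ Nbd I d, ∃ a ∈ I, Conn (Nbd I d) a u := fun u ⟨a, ha, hu⟩ =>
    ⟨a, ha, (Rec_conn (show a ∈ Bx a d by rw [mem_Bx]; omega) hu).mono fun _ h => ⟨a, ha, h⟩⟩
  intro u hu v hv
  obtain ⟨a, ha, c⟩ := key u hu
  obtain ⟨b, hb, c'⟩ := key v hv
  exact (c.symm.trans ((hI a ha b hb).mono (sub_Nbd hd))).trans c'

/-- double separators of sign `s` around all points of `G` -/
def Net (G : Set V) (p : ℤ) (s : Bool) : Set (V → Bool) :=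
  {r | ∀ a ∈ G, Sep (lev r s) (Bx a (4 * p)) (Bx a (7 * p))ᶜ}

/-- every long path that starts in `I` meets `cl K` -/
def Blo (I : Set V) (d : ℤ) (K : Set V) : Prop :=
  ∀ u ∈ I, ∀ v, v ∉ Bx u d → ¬Conn (cl K)ᶜ u v

lemma Blo.mono {I : Set V} {d : ℤ} {K K' : Set V} (h : Blo I d K) (hK : K ⊆ K') : Blo I d K' :=
  fun u hu v hv c => h u hu v hv (c.mono (compl_subset_compl.2 (cl_mono hK)))

/-- a connected set that meets `B` and absorbs a net comes close to all points of `B` -/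
lemma near_of_net {T K B : Set V} {p : ℤ} (hp : 1 ≤ p) (hB : ∀ u ∈ B, ∀ v ∈ B, Conn B u v)
    (h : ∀ a ∈ Nbd B (6 * p), Sep T (Bx a (4 * p)) (Bx a (7 * p))ᶜ)
    (hT : ∀ u ∈ K, ∀ v ∈ T, Adj u v → v ∈ K) (hK : CoConn Kᶜ) {y z : V} (hy : y ∈ K)
    (hy' : y ∈ B) (hz : z ∈ K) (hz' : z ∉ Nbd B (13 * p)) :
    (∀ a ∈ B, ∃ y ∈ K, y ∈ Bx a (4 * p)) ∧ Blo B (7 * p) K := by
  have hit : ∀ a ∈ Nbd B (6 * p), (∃ y ∈ K, y ∈ Bx a (4 * p)) → ∀ u ∈ Bx a (4 * p), ∀ v,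
      v ∉ Bx a (7 * p) → ¬Conn (cl K)ᶜ u v := fun a ha ⟨y, hy, hy'⟩ u hu v hv =>
    (h a ha).hit (by omega) hT hK hy hy' hz
      (fun h => hz' (Nbd_Nbd (by omega) ⟨a, ha, h⟩)) hu hv
  have jump : ∀ a ∈ Nbd B (6 * p), (∃ y ∈ K, y ∈ Bx a (4 * p)) → ∀ a' u v : V,
      u ∈ Bx a' (4 * p - 1) → u ∈ Bx a (4 * p) → v ∈ Bx a' (4 * p - 1) → v ∉ Bx a (7 * p) →
      ∃ y ∈ K, y ∈ Bx a' (4 * p) := by
    intro a ha hg a' u v h1 h2 h3 h4
    by_contra hn
    refine hit a ha hg u h2 v h4 ((Rec_conn h1 h3).mono ?_)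
    rintro b hb (hc | ⟨c, hc, e⟩)
    · exact hn ⟨b, hc, Bx_mono (by omega) hb⟩
    · exact hn ⟨c, hc, by simpa using cl_Bx a' (4 * p - 1) (mem_cl hb e.symm)⟩
  have good : ∀ a ∈ B, ∃ y ∈ K, y ∈ Bx a (4 * p) := fun a ha => by
    refine (hB y hy' a ha).ind (P := fun a => ∃ y ∈ K, y ∈ Bx a (4 * p))
      ⟨y, hy, by rw [mem_Bx]; omega⟩ fun b b' hb e _ ih => ?_
    unfold Adj at e
    have h1 := jump b (sub_Nbd (by omega) hb.right) ih (b.1 + (3 * p + 3), b.2) (b.1 + 4 * p, b.2)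
      (b.1 + (7 * p + 1), b.2) (by simp only [mem_Bx]; omega) (by simp only [mem_Bx]; omega)
      (by simp only [mem_Bx]; omega) (by simp only [mem_Bx]; omega)
    exact jump _ ⟨b, hb.right, by simp only [mem_Bx]; omega⟩ h1 b' (b.1 + (3 - p), b'.2)
      (b'.1 - (4 * p - 1), b'.2) (by simp only [mem_Bx]; omega) (by simp only [mem_Bx]; omega)
      (by simp only [mem_Bx]; omega) (by simp only [mem_Bx]; omega)
  exact ⟨good, fun u hu v hv =>
    hit u (sub_Nbd (by omega) hu) (good u hu) u (by rw [mem_Bx]; omega) v hv⟩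

lemma NK_absorb (r : V → Bool) (s : Bool) (O : Set V) :
    ∀ u ∈ NK (lev r (!s)) O, ∀ v ∈ lev r s, Adj u v → v ∈ NK (lev r (!s)) O := by
  rintro u ⟨o', ho', c'⟩ v hv e
  refine ⟨o', ho', c'.tail e trivial fun h => ?_⟩
  have h5 : r v = s := hv
  have h6 : r v = !s := h.2
  rw [h5] at h6
  cases s <;> simp at h6

lemma Hol.pr_fkg_low {Ω Λ : Type} [DistribLattice Λ] {M : Set Ω} {p : Ω → Λ} (h : Hol M p M p)
    (hM : Ok M) {A B : Set Λ} (hA : IsLowerSet A) (hB : IsLowerSet B) :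
    Pr M (p ⁻¹' A) * Pr M (p ⁻¹' B) ≤ Pr M (p ⁻¹' (A ∩ B)) := by
  have h1 := h.pr_fkg hA.compl hB.compl
  have h2 := pr_split M (p ⁻¹' A)ᶜ (p ⁻¹' B)
  have h3 := pr_split M (p ⁻¹' B) (p ⁻¹' A)
  rw [inter_comm _ (p ⁻¹' A), inter_comm _ (p ⁻¹' A)ᶜ] at h3
  simp only [preimage_inter, preimage_compl, pr_compl hM] at h1 h2 ⊢
  nlinarith

/-- FKG inequality for finitely many increasing, or decreasing, events -/
lemma Hol.pr_iInter {Ω Λ ι : Type} [DistribLattice Λ] {M : Set Ω} {p : Ω → Λ} (h : Hol M p M p)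
    (hM : Ok M) (s : Finset ι) {A : ι → Set Λ}
    (hA : (∀ i, IsUpperSet (A i)) ∨ ∀ i, IsLowerSet (A i)) {c : ℝ} (hc : 0 ≤ c)
    (h1 : ∀ i ∈ s, c ≤ Pr M (p ⁻¹' A i)) : c ^ s.card ≤ Pr M (p ⁻¹' ⋂ i ∈ s, A i) := by
  classical
  induction s using Finset.induction_on with
  | empty => simpa using (pr_all hM fun _ _ => mem_univ _).ge
  | insert a s ha ih =>
    rw [Finset.card_insert_of_notMem ha, pow_succ', Finset.set_biInter_insert]
    refine (mul_le_mul (h1 a (by simp)) (ih fun i hi => h1 i (by simp [hi])) (by positivity)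
      (pr_nonneg _ _)).trans ?_
    rcases hA with hA | hA
    · exact h.pr_fkg (hA a) (isUpperSet_iInter₂ fun i _ => hA i)
    · exact h.pr_fkg_low hM (hA a) (isLowerSet_iInter₂ fun i _ => hA i)

lemma net_ge {M : Set Cf} (h : Hol M red M red) (hM : Ok M) (Λ : ℕ) {c : ℝ} (hc : 0 ≤ c)
    (hc1 : c ≤ 1) {s : Bool} {G : Set V} {x : V} {p : ℤ} (hp : 1 ≤ p) (hG : G ⊆ Bx x (Λ * p))
    (H : ∀ a ∈ Nbd G p, c ≤ Pr M (red ⁻¹' SepE s (Bx a (5 * p)) (Bx a (6 * p))ᶜ)) :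
    c ^ ((2 * Λ + 1) * (2 * Λ + 1)) ≤ Pr M (red ⁻¹' Net G p s) := by
  classical
  let g : ℤ × ℤ → V := fun i => (x.1 + i.1 * p, x.2 + i.2 * p)
  let F : Finset (ℤ × ℤ) :=
    (Finset.Icc (-(Λ : ℤ)) Λ ×ˢ Finset.Icc (-(Λ : ℤ)) Λ).filter fun i => g i ∈ Nbd G p
  have hF : F.card ≤ (2 * Λ + 1) * (2 * Λ + 1) := by
    refine (Finset.card_filter_le _ _).trans ?_
    rw [Finset.card_product, Int.card_Icc]
    rw [show ((Λ : ℤ) + 1 - -Λ).toNat = 2 * Λ + 1 by omega]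
  refine (pow_le_pow_of_le_one hc hc1 hF).trans ((h.pr_iInter hM F
      (A := fun i => SepE s (Bx (g i) (5 * p)) (Bx (g i) (6 * p))ᶜ) ?_ hc
      fun i hi => H _ (Finset.mem_filter.1 hi).2).trans (pr_mono fun w _ hw a ha => ?_))
  · cases s
    · exact Or.inr fun _ => SepE_lower _ _
    · exact Or.inl fun _ => SepE_upper _ _
  · have q : ∀ t : ℤ, -(Λ * p) ≤ t → t ≤ Λ * p → t / p ∈ Finset.Icc (-(Λ : ℤ)) Λ ∧
        t / p * p ≤ t ∧ t < t / p * p + p := fun t h1 h2 => by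
      have e1 := Int.ediv_mul_le t (by omega : p ≠ 0)
      have e2 := Int.lt_ediv_add_one_mul_self t (by omega : 0 < p)
      refine ⟨Finset.mem_Icc.2 ⟨?_, ?_⟩, e1, by linarith⟩
      · exact Int.le_ediv_of_mul_le (by omega) (by linarith)
      · exact Int.ediv_le_of_le_mul (by omega) (by linarith)
    have ha' := mem_Bx.1 (hG ha)
    obtain ⟨a1, a2, a3⟩ := q (a.1 - x.1) (by omega) (by omega)
    obtain ⟨b1, b2, b3⟩ := q (a.2 - x.2) (by omega) (by omega)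
    have := mem_iInter₂.1 hw ((a.1 - x.1) / p, (a.2 - x.2) / p) (Finset.mem_filter.2
      ⟨Finset.mem_product.2 ⟨a1, b1⟩, a, ha, by simp only [g, mem_Bx]; omega⟩)
    refine Sep.mono this subset_rfl (fun v hv => ?_) fun v hv h => hv ?_
    · simp only [g, mem_Bx] at hv ⊢; omega
    · simp only [g, mem_Bx] at h ⊢; omega

lemma net_tm (Λ : ℕ) : ∃ c : ℝ, 0 < c ∧ c ≤ 1 ∧ ∀ (s : Bool) (ρ : V → Set Bool) (W G : Set V)
    (x : V) (p : ℤ), Tame ρ W → 1 ≤ p → G ⊆ Bx x (Λ * p) → Free ρ W (Nbd G (7 * p)) →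
    c ≤ Pr (Sp (tm ρ W)) (red ⁻¹' Net G p s) := by
  obtain ⟨c, hc, H⟩ := sr_tm 5
  have hc' : 0 < min c 1 := lt_min hc one_pos
  refine ⟨min c 1 ^ ((2 * Λ + 1) * (2 * Λ + 1)), by positivity,
    pow_le_one₀ hc'.le (min_le_right _ _), fun s ρ W G x p hT hp hG hf =>
      net_ge (hol_tm_self hT.fin hT.co ρ) hT.ok Λ hc'.le (min_le_right _ _) hp hG fun a ha => ?_⟩
  refine (min_le_left _ _).trans (H s ρ W p a _ _ hT hp subset_rfl fun u hu v hv => ?_)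
  have h1 : v ∈ Bx a (6 * p) := by rw [mem_Bx] at *; push_cast at *; omega
  have := hf v (Nbd_Nbd (by omega) ⟨a, ha, h1⟩)
  exact ⟨this.1, this.2, not_not.2 h1⟩

lemma net_aft {ρ : V → Set Bool} {W k : Set V} {s : Bool} (h : Tame ρ W)
    (h' : Tame (aft ρ k s) W) (G : Set V) (p : ℤ) : Pr (Sp (tm ρ W)) (red ⁻¹' Net G p s) ≤
      Pr (Sp (tm (aft ρ k s) W)) (red ⁻¹' Net G p s) := by
  cases s
  · have := (hol_tm h.fin h.co (sso_aft' ρ k)).pr_le h'.ok h.ok (A := (Net G p false)ᶜ)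
      (IsLowerSet.compl fun a b e hr c hc => SepE_lower _ _ e (hr c hc))
    rw [preimage_compl, pr_compl h.ok, pr_compl h'.ok] at this
    linarith
  · exact (hol_tm h.fin h.co (sso_aft ρ k)).pr_le h.ok h'.ok
      fun a b e hr c hc => SepE_upper _ _ e (hr c hc)

/-! ### the two inductions -/

section

variable {ρ : V → Set Bool} {W B : Set V} {Q : Set V → Prop} {E : Bool → Set (V → Bool)} {c : ℝ}

lemma osc_decay (hc : c ≤ 1) (hQ : ∀ K K', Q K → K ⊆ K' → Q K')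
    (hq : ∀ k s, Tame (aft ρ k s) W → c ≤ Pr (Sp (tm (aft ρ k s) W)) (red ⁻¹' E s))
    (hb : ∀ r s k, CoConn kᶜ → Wᶜ ⊆ k → (k ∩ B).Nonempty → r ∈ E s → Q (NK (lev r (!s)) (cl k)))
    (j : ℕ) : ∀ k s, Tame (aft ρ k s) W → CoConn kᶜ → Wᶜ ⊆ k → (k ∩ B).Nonempty →
      Pr (Sp (tm (aft ρ k s) W)) {w | ¬Q (KA (red w) j (!s) k)} ≤ (1 - c) ^ j := by
  induction j with
  | zero => exact fun _ _ _ _ _ _ => by simpa using pr_le_one _ _
  | succ j ih =>
    intro k s hT hk hW hB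
    set M := Sp (tm (aft ρ k s) W) with hM
    have h1 : Pr M {w | ¬Q (RK (!s) (cl k) w)} ≤ 1 - c := by
      refine le_trans (pr_mono (B := (red ⁻¹' E s)ᶜ) fun w _ hw h => hw (hb _ _ _ hk hW hB h)) ?_
      rw [pr_compl hT.ok]
      linarith [hq k s hT]
    refine le_trans
      (pr_mono (B := {w | ¬Q (RK (!s) (cl k) w)} ∩ {w | ¬Q (KA (red w) (j + 1) (!s) k)})
      fun w _ hw => ⟨fun h => hw (hQ _ _ h (sub_KA _ _ _ _)), hw⟩) ?_
    rw [pr_cond, pow_succ']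
    refine mul_le_mul h1 (pr_fib_le (RK (!s) (cl k)) (by have := sub_nonneg.2 hc; positivity)
      fun x hx => ?_) (pr_nonneg _ _) (sub_nonneg.2 hc)
    have e : M ∩ {w | ¬Q (RK (!s) (cl k) w)} ∩ {y | RK (!s) (cl k) y = RK (!s) (cl k) x} =
        M ∩ univ ∩ {y | RK (!s) (cl k) y = RK (!s) (cl k) x} := by
      ext y
      exact ⟨fun h => ⟨⟨h.1.1, trivial⟩, h.2⟩, fun h => ⟨⟨h.1.1, fun h' => hx.2 (h.2 ▸ h')⟩, h.2⟩⟩
    have hs : cl k ⊆ RK (!s) (cl k) x := sub_NK _ _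
    rw [e, pr_congr (B := {w | ¬Q (KA (red w) j (!!s) (RK (!s) (cl k) x))}) fun y hy => by
      rw [← show RK (!s) (cl k) y = RK (!s) (cl k) x from hy.2]; rfl, pr_eq,
      explore_tm hT hx.1 (mem_univ x) (Dep.univ _) (dep_KA (fun K => ¬Q K) _ _ _).ind, ← pr_eq]
    have hT' := hT.aft (s := !s) (O := cl k) hx.1
    rw [aft_aft _ _ _ hs] at hT' ⊢
    exact ih _ _ hT' (coConn_NK (coConn_cl hk)) (hW.trans ((sub_cl _).trans hs))
      (hB.mono (inter_subset_inter_left _ ((sub_cl _).trans hs)))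

lemma osc_descend (hc : c ≤ 1) (hQ : ∀ K K', Q K → K ⊆ K' → Q K')
    (hq : ∀ k s, Tame (aft ρ k s) W → c ≤ Pr (Sp (tm (aft ρ k s) W)) (red ⁻¹' E s))
    (hb : ∀ r s k, CoConn kᶜ → Wᶜ ⊆ k → (k ∩ B).Nonempty → r ∈ E s → Q (NK (lev r (!s)) (cl k)))
    (hB : B.Nonempty) (j : ℕ) {F : Cf → ℝ} (hF : DependsOn F B) (F1 : ∀ w ∈ Val, F w ≤ 1)
    (F0 : ∀ w ∈ Val, ∀ m K, (∀ v ∈ cl K, |gr w v - m| ≤ 6 + 4 * j) → Q K → F w ≤ 0) (n : ℕ) :
    ∀ k ρ' s, (W \ k).ncard < n → Tame ρ' W → (∀ k', cl k ⊆ k' → aft ρ' k' s = aft ρ k' s) →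
      (∀ w ∈ Sp (tm ρ' W), ∃ m, ∀ v ∈ cl k, |gr w v - m| ≤ 2) → CoConn kᶜ → Wᶜ ⊆ k →
      Disjoint k B → Ex (Sp (tm ρ' W)) F ≤ (1 - c) ^ j := by
  induction n with
  | zero => exact fun _ _ _ h => absurd h (Nat.not_lt_zero _)
  | succ n ih =>
    intro k ρ' s hn hT ha hm hk hW hd
    rw [ex_fib _ (RK s (cl k))]
    refine ex_le hT.ok fun x hx => ?_
    have hs : cl k ⊆ RK s (cl k) x := sub_NK _ _
    have hT' := hT.aft (s := s) (O := cl k) hx
    have hk' : CoConn (RK s (cl k) x)ᶜ := coConn_NK (coConn_cl hk)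
    have hW' := hW.trans ((sub_cl _).trans hs)
    obtain ⟨o, ho⟩ := hT.fin.infinite_compl.nonempty
    rw [ha _ hs] at hT'
    rw [← inter_univ (Sp (tm ρ' W))]
    by_cases hd' : Disjoint (RK s (cl k) x) B
    · rw [explore_tm hT hx (mem_univ x) (Dep.univ _)
        (hF.mono fun v hv h => disjoint_left.1 hd' h hv), ha _ hs]
      refine ih _ _ (!s) ?_ hT' (fun k' h => aft_aft _ _ _ h) (fun w hw => ?_) hk' hW' hd'
      · obtain ⟨b, hb⟩ := hB
        obtain ⟨u, v, c1, e, hv, -⟩ := (conn_univ o b).exit (hW ho) (disjoint_right.1 hd hb)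
        refine lt_of_lt_of_le (ncard_lt_ncard ⟨sdiff_subset_sdiff_right ((sub_cl _).trans hs),
          fun h => (h ⟨not_not.1 fun h' => hv (hW h'), hv⟩).2 (hs (mem_cl c1.right.2 e))⟩
          (hT.fin.subset sdiff_subset)) (Nat.lt_succ_iff.1 hn)
      · refine ⟨gr w o, fun v hv => (gr_red (Sp_val hw) (s := s)
          ((coConn_cl hk').cn (sub_cl _ (hW' ho)) hv) fun y hy => (hw.2 y).1.1 hy).trans ?_⟩
        omega
    · refine (ex_mono (g := {w | ¬Q (KA (red w) j (!s) (RK s (cl k) x))}.indicator 1)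
        fun y hy => ?_).trans ?_
      · have hv := Sp_val hy.1.1
        by_cases h : Q (KA (red y) j (!s) (RK s (cl k) x))
        · obtain ⟨m, hm'⟩ := hm y hy.1.1
          rw [indicator_of_notMem (not_not.2 h)]
          refine F0 y hv m _ (fun v hv' => ?_) h
          rw [← show RK s (cl k) y = RK s (cl k) x from hy.2] at hv'
          have := gr_KA hv m (j + 1) s k 2 hm' v hv'
          push_cast at this
          omega
        · rw [indicator_of_mem h]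
          exact F1 y hv
      · rw [explore_tm hT hx (mem_univ x) (Dep.univ _) (dep_KA (fun K => ¬Q K) _ _ _).ind, ← pr_eq,
          ha _ hs]
        exact osc_decay hc hQ hq hb j _ _ hT' hk' hW' (not_disjoint_iff_nonempty_inter.1 hd')

end

/-- one window of heights of size `A` is met by every path that starts in `I` and moves by more
than `d` -/
def WnS (I : Set V) (d A : ℤ) (g : V → ℤ) : Prop :=
  ∃ k, ∀ u ∈ I, ∀ v, v ∉ Bx u d → ¬Conn {y | g y < k ∨ k + A < g y} u v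

/-- the same for the box of radius `N` around `x` -/
def Wnd (x : V) (N d A : ℤ) (g : V → ℤ) : Prop := WnS (Bx x N) d A g

lemma WnS.congr {I : Set V} {d A t : ℤ} {g g' : V → ℤ} (hd : 0 ≤ d) (h : WnS I d A g)
    (e : ∀ y ∈ Nbd I (d + 1), g' y = g y + t) : WnS I d A g' := by
  obtain ⟨k, hk⟩ := h
  refine ⟨k + t, fun u hu v hv c => ?_⟩
  obtain ⟨a, b, c1, ab, hb, c2⟩ := c.exit (T := Bx u d) (by rw [mem_Bx]; omega) hv
  have hb' := cl_Bx _ _ (mem_cl c1.right.2 ab)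
  refine hk u hu b hb ((c1.mono fun y hy => ?_).tail ab ?_)
  · have h1 := e y ⟨u, hu, Bx_mono (by omega) hy.2⟩
    have h2 : g' y < k + t ∨ k + t + A < g' y := hy.1
    change g y < k ∨ k + A < g y
    omega
  · have h1 := e b ⟨u, hu, hb'⟩
    have h2 : g' b < k + t ∨ k + t + A < g' b := c2.left
    change g b < k ∨ k + A < g b
    omega

lemma WnS.mono {I I' : Set V} {d A d' A' : ℤ} {g : V → ℤ} (h : WnS I d A g) (hI : I' ⊆ I)
    (hd : d ≤ d') (hA : A ≤ A') : WnS I' d' A' g := by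
  obtain ⟨k, hk⟩ := h
  refine ⟨k, fun u hu v hv c => hk u (hI hu) v (fun h => hv (Bx_mono hd h))
    (c.mono fun y hy => ?_)⟩
  have h2 : g y < k ∨ k + A' < g y := hy
  change g y < k ∨ k + A < g y
  omega

lemma WnS.neg {I : Set V} {d A : ℤ} {g : V → ℤ} (h : WnS I d A g) : WnS I d A fun v => -g v := by
  obtain ⟨k, hk⟩ := h
  refine ⟨-k - A, fun u hu v hv c => hk u hu v hv (c.mono fun y hy => ?_)⟩
  have h2 : -g y < -k - A ∨ -k - A + A < -g y := hy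
  change g y < k ∨ k + A < g y
  omega

lemma lcl_wns {I : Set V} {d : ℤ} (A : ℤ) (hI : ∀ u ∈ I, ∀ v ∈ I, Conn I u v) (hd : 0 ≤ d) :
    Lcl (Nbd I (d + 1)) ({w | ¬WnS I d A (gr w)}.indicator 1) := by
  have key : ∀ w ∈ Val, ∀ w' ∈ Val, (∀ v ∈ Nbd I (d + 1), w v = w' v) → WnS I d A (gr w) →
      WnS I d A (gr w') := fun w hw w' hw' e h => by
    rcases I.eq_empty_or_nonempty with rfl | ⟨x, hx⟩
    · exact ⟨0, fun _ h => h.elim⟩
    · refine h.congr hd (t := gr w' x - gr w x) fun y hy => ?_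
      have := gr_eq hw hw' (Nbd_conn (by omega) hI x (sub_Nbd (by omega) hx) y hy) e
      omega
  intro w hw w' hw' e
  by_cases h : WnS I d A (gr w)
  · rw [indicator_of_notMem (not_not.2 h), indicator_of_notMem (not_not.2 (key w hw w' hw' e h))]
  · rw [indicator_of_mem h, indicator_of_mem
      (show ¬WnS I d A (gr w') from fun h' => h (key w' hw' w hw (fun v hv => (e v hv).symm) h'))]
    rfl

lemma Wnd.congr {x : V} {N d A t : ℤ} {g g' : V → ℤ} (hd : 0 ≤ d) (h : Wnd x N d A g)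
    (e : ∀ y ∈ Bx x (N + d + 1), g' y = g y + t) : Wnd x N d A g' :=
  WnS.congr hd h fun y hy => e y (Nbd_Bx subset_rfl (by omega) hy)

lemma Wnd.mono {x : V} {N d A N' d' A' : ℤ} {g : V → ℤ} (h : Wnd x N d A g) (hN : N' ≤ N)
    (hd : d ≤ d') (hA : A ≤ A') : Wnd x N' d' A' g := WnS.mono h (Bx_mono hN) hd hA

lemma Wnd.neg {x : V} {N d A : ℤ} {g : V → ℤ} (h : Wnd x N d A g) : Wnd x N d A fun v => -g v :=
  WnS.neg h

lemma lcl_win (x : V) (N : ℤ) {d : ℤ} (A : ℤ) (hd : 0 ≤ d) :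
    Lcl (Bx x (N + d + 1)) ({w | ¬Wnd x N d A (gr w)}.indicator 1) :=
  (lcl_wns A (fun _ hu _ hv => Rec_conn hu hv) hd).mono (Nbd_Bx subset_rfl (by omega))

/-- oscillation estimate near a connected set in a tame model -/
theorem osc_set (L : ℕ) : ∃ θ : ℝ, 0 ≤ θ ∧ θ < 1 ∧ ∃ A : ℕ, 1 ≤ A ∧ ∀ (ρ : V → Set Bool)
    (W I : Set V) (x : V) (d : ℤ) (j : ℕ), Tame ρ W → 1 ≤ d → I ⊆ Bx x (L * d) →
    (∀ u ∈ I, ∀ v ∈ I, Conn I u v) → Free ρ W (Nbd I (3 * d)) →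
    Pr (Sp (tm ρ W)) {w | ¬WnS I d (A * (j + 1)) (gr w)} ≤ θ ^ j := by
  obtain ⟨c, hc, hc1, H⟩ := net_tm (20 * L + 27)
  refine ⟨1 - c, by linarith, by linarith, 40 * L + 12, by omega,
    fun ρ W I x d j hT hd hx hI hf => ?_⟩
  have hA : (40 * L + 12 : ℤ) ≤ (40 * L + 12 : ℕ) * (j + 1) ∧
      (12 + 8 * j : ℤ) ≤ (40 * L + 12 : ℕ) * (j + 1) := by
    push_cast
    constructor <;> nlinarith [Int.natCast_nonneg L, Int.natCast_nonneg j,
      mul_nonneg (Int.natCast_nonneg L) (Int.natCast_nonneg j)]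
  by_cases h10 : d < 10 ∨ I = ∅
  · refine le_trans (le_of_eq (pr_none fun w hw h => h ⟨gr w x - 20 * L, fun u hu v _ c => ?_⟩))
      (by have := sub_nonneg.2 hc1; positivity)
    have h1 := abs_le.1 (gr_Bx (Sp_val hw) (hx hu))
    have h2 : gr w u < _ ∨ _ < gr w u := c.left
    have h4 : d < 10 := h10.resolve_right fun h => by rw [h] at hu; exact hu
    have h3 : (L : ℤ) * d ≤ L * 10 := by gcongr
    omega
  obtain ⟨h10, hne⟩ := not_or.1 h10
  obtain ⟨p, hp⟩ : ∃ p, p = d / 10 := ⟨_, rfl⟩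
  have h3 : (L : ℤ) * d ≤ L * (20 * p) := by gcongr; omega
  obtain ⟨F, F1, F2, -⟩ :=
    (lcl_wns ((40 * L + 12 : ℕ) * (j + 1)) hI (by omega : 0 ≤ d)).exists_dep
  obtain ⟨o, ho⟩ := hT.fin.infinite_compl.nonempty
  rw [pr_eq, ← ex_congr fun w hw => F2 w (Sp_val hw)]
  refine osc_descend (ρ := ρ) (Q := Blo I d) (E := Net (Nbd (Nbd I (d + 1)) (6 * p)) p) hc1
    (fun _ _ h => h.mono) (fun k s h => (H s ρ W _ x p hT (by omega)
      (Nbd_Bx (Nbd_Bx hx le_rfl) ?_) fun v hv => ?_).trans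
      (net_aft hT h _ _)) (fun r s k h1 h2 hy h4 => ?_)
    ((nonempty_iff_ne_empty.2 hne).mono (sub_Nbd (by omega))) j F1
    (fun w hw => ?_) (fun w hw m K h1 h2 => ?_) _ Wᶜ ρ true (Nat.lt_succ_self _) hT
    (fun _ _ => rfl) (fun w hw => ⟨gr w o, gr_cl (b := 1) (Sp_val hw) fun v hv => ?_⟩)
    (by rw [compl_compl]; exact hT.co) subset_rfl
    (disjoint_left.2 fun v hv h => hv (hf v (Nbd_mono subset_rfl (by omega) h)).2)
  · have : d ≤ 20 * p - 1 := by omega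
    push_cast; nlinarith
  · exact hf v (Nbd_Nbd (by omega) (Nbd_Nbd le_rfl hv))
  · obtain ⟨y, hy⟩ := hy
    have := (near_of_net (by omega) (Nbd_conn (by omega) hI) h4 (NK_absorb r s _)
      (coConn_NK (coConn_cl h1)) (sub_NK _ _ (sub_cl _ hy.1)) hy.2 (sub_NK _ _ (sub_cl _ (h2 ho)))
      fun h => ho (hf o (Nbd_Nbd (by omega) h)).2).2
    exact fun u hu v hv => this u (sub_Nbd (by omega) hu) v fun h => hv (Bx_mono (by omega) h)
  · rw [F2 w hw]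
    exact indicator_le' (fun _ _ => le_rfl) (fun _ _ => zero_le_one) w
  · rw [F2 w hw]
    refine (indicator_of_notMem (not_not.2 ⟨m - (6 + 4 * j), fun u hu v hv c =>
      h2 u hu v hv (c.mono fun y hy hK => ?_)⟩) _).le
    have h5 := abs_le.1 (h1 y hK)
    have h6 : gr w y < _ ∨ _ < gr w y := hy
    omega
  · exact gr_blue (Sp_val hw) (s := true) (hT.co o ho v hv) fun y hy => (hw.2 y).2 hy

theorem oscSt : OscSt := fun L => by
  obtain ⟨θ, h0, h1, A, hA, H⟩ := osc_set L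
  refine ⟨θ, A, h0, h1, fun ρ W I x d j hT hd hx hI hf => (H ρ W I x d j hT hd hx hI hf).trans ?_⟩
  exact le_mul_of_one_le_left (by positivity) (by exact_mod_cast hA)

/-- oscillation estimate in a tame model -/
theorem osc_tm (L : ℕ) : ∃ θ : ℝ, 0 ≤ θ ∧ θ < 1 ∧ ∃ A : ℕ, ∀ (ρ : V → Set Bool) (W : Set V)
    (x : V) (d : ℤ) (j : ℕ), Tame ρ W → 1 ≤ d →
    (∀ v ∈ Bx x ((L + 3) * d), ρ v = univ ∧ v ∈ W) →
    Pr (Sp (tm ρ W)) {w | ¬Wnd x (L * d) d (A * (j + 1)) (gr w)} ≤ θ ^ j := by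
  obtain ⟨θ, h0, h1, A, -, H⟩ := osc_set L
  exact ⟨θ, h0, h1, A, fun ρ W x d j hT hd hf => H ρ W _ x d j hT hd subset_rfl
    (fun _ hu _ hv => Rec_conn hu hv) fun v hv => hf v (Nbd_Bx subset_rfl (by linarith) hv)⟩

lemma pr_win_eq {M M' : Set Cf} (hM : M ⊆ Val) (hM' : M' ⊆ Val) {x : V} {N d : ℤ} (A : ℤ)
    (hd : 0 ≤ d) (h : ∀ F : Cf → ℝ, DependsOn F (Bx x (N + d + 1)) → Ex M F = Ex M' F) :
    Pr M {w | ¬Wnd x N d A (gr w)} = Pr M' {w | ¬Wnd x N d A (gr w)} := by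
  obtain ⟨F, F1, F2, -⟩ := (lcl_win x N A hd).exists_dep
  rw [pr_eq, pr_eq, ← ex_congr fun w hw => F2 w (hM hw), ← ex_congr fun w hw => F2 w (hM' hw),
    h F F1]

/-- oscillation estimate in the double plus model -/
theorem osc_pp (L : ℕ) : ∃ θ : ℝ, 0 ≤ θ ∧ θ < 1 ∧ ∃ A : ℕ, ∀ (U : Set V) (x : V) (d : ℤ) (j : ℕ),
    U.Finite → 1 ≤ d → Bx x ((L + 3) * d) ⊆ U →
    Pr (PP U) {w | ¬Wnd x (L * d) d (A * (j + 1)) (gr w)} ≤ θ ^ j := by
  obtain ⟨θ, h0, h1, A, H⟩ := osc_tm L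
  refine ⟨θ, h0, h1, A, fun U x d j hU hd hB => ?_⟩
  obtain ⟨W, hW, hc, hs⟩ := exists_coConn (cl_finite hU)
  rw [pr_win_eq Sp_val Sp_val _ (by omega) fun F hF => ex_PP hU hW hs
    (hF.mono (((Bx_mono (by rw [add_mul]; omega)).trans hB).trans (sub_cl _)))]
  exact H _ W x d j (tame_off true hU hW hc) hd fun v hv =>
    ⟨eq_univ_of_forall fun _ h => absurd (hB hv) h, hs (sub_cl _ (hB hv))⟩

lemma val_sw' {w : Cf} (hw : w ∈ Val) : sw w ∈ Val :=
  ⟨fun u v e => (hw.1 u v e).elim Or.inr Or.inl, fun _ => trivial⟩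

lemma gr_sw' {w : Cf} (hw : w ∈ Val) (x : V) : gr (sw w) x = -gr w x := by
  have := gr_conn hw (val_sw' hw) (g := id) (fun _ _ h => h) (-1) (conn_univ 0 x)
    fun u _ v _ e => by
      have : ∀ a b : Bool × Bool, Cp a b → dk a.swap b.swap = -1 * dk a b := by
        unfold Cp; decide
      exact this _ _ (hw.1 u v e)
  simp only [id, gr_zero hw, gr_zero (val_sw' hw)] at this
  omega

/-- oscillation estimate with red plus off `W` and arbitrary blue data -/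
theorem osc_tb (L : ℕ) : ∃ θ : ℝ, 0 ≤ θ ∧ θ < 1 ∧ ∃ A : ℕ, ∀ (ρ : V → Set Bool) (W : Set V)
    (x : V) (d : ℤ) (j : ℕ), Tame ρ W → 1 ≤ d →
    (∀ v ∈ Bx x ((L + 3) * d), ρ v = univ ∧ v ∈ W) →
    Pr (Sp (tb ρ W)) {w | ¬Wnd x (L * d) d (A * (j + 1)) (gr w)} ≤ θ ^ j := by
  obtain ⟨θ, h0, h1, A, H⟩ := osc_tm L
  refine ⟨θ, h0, h1, A, fun ρ W x d j hT hd hB => le_trans ?_ (H ρ W x d j hT hd hB)⟩
  rw [← pr_bij (bij_tb ρ W)]
  refine pr_mono fun w hw h h' => h ?_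
  have := Wnd.neg h'
  simpa only [gr_sw' (Sp_val hw), neg_neg] using this

/-- transport to height functions -/
lemma pr_win_ht {T : V → Set ℤ} {M : Set Cf} (h : BijOn spn (Ht T) M) (x : V) (N : ℤ) {d : ℤ}
    (A : ℤ) (hd : 0 ≤ d) :
    Pr (Ht T) {g | ¬Wnd x N d A g} = Pr M {w | ¬Wnd x N d A (gr w)} := by
  rw [← pr_bij h]
  refine pr_congr fun g hg => not_congr ⟨fun h' => h'.congr hd (t := -g 0) fun y _ => ?_,
    fun h' => Wnd.congr hd h' (t := g 0) fun y _ => ?_⟩ <;> rw [gr_spn hg] <;> ring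

/-- a window that blocks long paths is crossed from left to right -/
lemma Wnd.lr {x y n d N A : ℤ} {g : V → ℤ} (h : Wnd (x, y) N d A g) (hd : d < n) (h0 : 0 ≤ n)
    {x' : ℤ} (hx : x ≤ x') (hN : x' ≤ x + N) :
    ∃ k, LR {v | k ≤ g v ∧ g v ≤ k + A} x x' y (y + n) := by
  obtain ⟨k, hk⟩ := h
  refine ⟨k, (hex_Rec _ hx (by omega)).resolve_right ?_⟩
  rintro ⟨u, hu, v, hv, c⟩
  have h1 := mem_Rec.1 c.left.2
  have hu' : u.2 = y := hu
  have hv' : v.2 = y + n := hv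
  refine hk u (by simp only [mem_Bx]; omega) v (by simp only [mem_Bx]; omega)
    (c.mono fun z hz => ?_)
  have h2 : ¬(k ≤ g z ∧ g z ≤ k + A) := hz.1
  change g z < k ∨ k + A < g z
  omega

/-- long crossings with small oscillation -/
theorem osc_lr : ∃ θ : ℝ, 0 ≤ θ ∧ θ < 1 ∧ ∃ A : ℕ, 1 ≤ A ∧ ∀ (U : Set V) (x y n : ℤ) (j : ℕ),
    U.Finite → 1 ≤ n → Bx (x, y) (A * n) ⊆ U →
    Pr (PP U) {w | ¬∃ k, LR {v | k ≤ gr w v ∧ gr w v ≤ k + A * (j + 1)} x (x + 2 * n) y (y + n)} ≤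
      θ ^ j := by
  obtain ⟨θ, h0, h1, A, H⟩ := osc_pp 4
  refine ⟨θ, h0, h1, A + 7, by omega, fun U x y n j hU hn hB => ?_⟩
  have hA : (A : ℤ) * (j + 1) + 7 ≤ (A + 7 : ℕ) * (j + 1) := by
    push_cast; nlinarith [Int.natCast_nonneg j]
  have hA0 : (0 : ℤ) ≤ A * (j + 1) := by positivity
  rcases hn.eq_or_lt with rfl | hn
  · refine le_trans (le_of_eq (pr_none fun w hw h => h ⟨gr w (x, y) - 2,
      (x, y), rfl, (x + 2 * 1, y), rfl, conn_row (by omega) fun k h1 h2 => ⟨?_, ?_⟩⟩))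
      (by positivity)
    · have := gr_dist (Sp_val hw) (x, y) (k - x) 0
      simp only [add_sub_cancel, add_zero, abs_zero] at this
      rw [abs_of_nonneg (by omega : 0 ≤ k - x), abs_le] at this
      change _ ∧ _
      omega
    · simp only [mem_Rec]; omega
  · have h3 : (((4 : ℕ) : ℤ) + 3) * (n - 1) ≤ (A + 7 : ℕ) * n := by
      push_cast; nlinarith [Int.natCast_nonneg A]
    refine le_trans (pr_mono ?_) (H U (x, y) (n - 1) j hU (by omega) ((Bx_mono h3).trans hB))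
    intro w _ h h'
    refine h ?_
    have h2 : Wnd (x, y) ((4 : ℕ) * (n - 1)) (n - 1) ((A + 7 : ℕ) * (j + 1)) (gr w) :=
      Wnd.mono h' le_rfl le_rfl (by omega)
    exact h2.lr (by omega) (by omega) (by omega) (by push_cast; omega)

theorem osc_lr' : ∃ (θ : ℝ) (A : ℕ), 0 ≤ θ ∧ θ < 1 ∧ ∀ (U : Set V) (x y n : ℤ) (j : ℕ),
    U.Finite → 1 ≤ n → Bx (x, y) (A * n) ⊆ U →
    Pr (PP U) {w | ¬∃ k : ℤ, LR {v | k ≤ gr w v ∧ gr w v ≤ k + A * (j + 1)} x (x + 2 * n) y (y + n)}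
      ≤ A * θ ^ j := by
  obtain ⟨θ, h0, h1, A, hA, H⟩ := osc_lr
  exact ⟨θ, A, h0, h1, fun U x y n j hU hn hB => (H U x y n j hU hn hB).trans
    (le_mul_of_one_le_left (by positivity) (by exact_mod_cast hA))⟩

end Pool.Agent.Lib.MP_6359c9_pr
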