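import Pool.Agent.Lib.MP_6359c9_pr.InfOsc
import Pool.Agent.Lib.MP_6359c9_pr.Osc
import Pool.Agent.Lib.MP_6359c9_pr.CovLat
import Pool.Agent.Lib.MP_6359c9_pr.LogMain

/-! The variogram of the plane model and its logarithmic law with a positive constant. -/

namespace Pool.Agent.Lib.MP_6359c9_pr

open Set Filter Topology

theorem oscS : OscS := osc_lr'

lemma lc_df (x y : V) : Lc univ fun w => (gr w x : ℝ) - gr w y := (lc_gru x).sub (lc_gru y)

lemma Einf_cov (x y z t : V) :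
    Einf (fun w => ((gr w x : ℝ) - gr w y) * ((gr w z : ℝ) - gr w t)) =
      vg (x - t) + vg (y - z) - vg (x - z) - vg (y - t) := by
  have l : ∀ a b : V, Lc univ fun w => ((gr w a : ℝ) - gr w b) ^ 2 :=
    fun a b => (lc_df a b).comp (· ^ 2)
  rw [Einf_congr (G := fun w => 1 / 2 * (((gr w x : ℝ) - gr w t) ^ 2 + ((gr w y : ℝ) - gr w z) ^ 2 -
      ((gr w x : ℝ) - gr w z) ^ 2 - ((gr w y : ℝ) - gr w t) ^ 2)) fun w _ => by ring,
    Einf_mul _ ((((l x t).add (l y z)).sub (l x z)).sub (l y t)),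
    Einf_sub (((l x t).add (l y z)).sub (l x z)) (l y t), Einf_sub ((l x t).add (l y z)) (l x z),
    Einf_add (l x t) (l y z)]
  simp only [Einf_gr_sq]
  ring

lemma vg_aut {g : V ≃ V} (hg : Aut g) (h0 : g 0 = 0) (x : V) : vg (g x) = vg x := by
  rw [vg, vg, ← Einf_act hg ((lc_gru x).comp (· ^ 2))]
  congr 1
  refine Einf_congr fun w hw => ?_
  rw [gr_act hg.adj hw, h0, gr_zero hw, sub_zero]

lemma vg_neg (x : V) : vg (-x) = vg x := by
  simpa using vg_aut (aut_neg 0) (by simp) x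

lemma vg_zero : vg 0 = 0 := by
  rw [vg, Einf_congr (G := fun _ => 0) fun w hw => by simp [gr_zero hw], Einf_const, mul_zero]

lemma vg_nonneg (x : V) : 0 ≤ vg x :=
  mul_nonneg (by norm_num) (Einf_nonneg ((lc_gru x).comp (· ^ 2)) fun _ _ => sq_nonneg _)

lemma conn_Up0 {x : V} (h : 0 ≤ x.2) : Conn (UpH 0) 0 x :=
  (Rec_conn (x := -|x.1|) (x' := |x.1|) (y := 0) (y' := x.2) (u := 0) (v := x)
    ⟨by simp, by simp, le_rfl, h⟩ ⟨neg_abs_le _, le_abs_self _, h, le_rfl⟩).mono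
      fun _ hv => hv.2.2.1

lemma vg_rp (s : Finset V) (c : V → ℝ) (hs : ∀ x ∈ s, 0 ≤ x.2) (h0 : ∑ x ∈ s, c x = 0) :
    ∑ x ∈ s, ∑ y ∈ s, c x * c y * vg (x - Pl.rfx y) ≤ 0 := by
  have := Einf_rp (F := XL s c) (Lc.sum s fun v hv => (lc_gr0 (conn_Up0 (hs v hv))).smul (c v))
  rw [Einf_XL (aut_rfj 0).adj h0 h0] at this
  simpa only [rfj_zero, Left.nonneg_neg_iff] using this

/-! ### doubling -/

lemma ex_pair {U : Set V} {p q o : V} {N : ℤ} (hp : Bx p N ⊆ U) (hq : Bx q N ⊆ U)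
    (h1 : p ∉ Bx q N) (h2 : q ∉ Bx p N) (o1 : o ∉ Bx p N) (o2 : o ∉ Bx q N) :
    Ex (PP U) (fun w => ((gr w p : ℝ) - gr w o) * ((gr w q : ℝ) - gr w o)) =
      Ex (PP U) fun w => (md p N o w : ℝ) / 2 * ((md q N o w : ℝ) / 2) := by
  have m1 : ∀ w ∈ PP U, flH true p N w ∈ PP U := fun w hw => flH_mem (hp.trans (sub_cl U)) hw
  have m2 : ∀ w ∈ PP U, flH true q N w ∈ PP U := fun w hw => flH_mem (hq.trans (sub_cl U)) hw
  rw [ex_sym m2 (fun w _ => flH_flH _ _ _ w) (f := fun w => (gr w p : ℝ) - gr w o)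
    fun w hw => by exact_mod_cast gr_flH_out (Sp_val hw) o2 h1]
  refine (ex_congr (g := fun w => (md q N o w : ℝ) / 2 * ((gr w p : ℝ) - gr w o))
    fun w _ => by simp only [md]; push_cast; ring).trans ?_
  rw [ex_sym m1 (fun w _ => flH_flH _ _ _ w) (f := fun w => (md q N o w : ℝ) / 2) fun w hw => by
    simp only [md]
    rw [flH_comm, gr_flH_out (Sp_val (m2 w hw)) o1 h2, gr_flH_out (Sp_val hw) o1 h2]]
  exact ex_congr fun w _ => by simp only [md]; push_cast; ring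

theorem vg_dbl : ∃ C : ℝ, ∀ m : ℤ, 1 ≤ m →
    vg (Pl.pt 0 (2 * m)) - vg (Pl.pt 0 m) ≤ C := by
  obtain ⟨C, hC⟩ := oscS.mid
  refine ⟨C / 8, fun m hm => ?_⟩
  obtain ⟨m, rfl⟩ := Int.eq_ofNat_of_zero_le (zero_le_one.trans hm)
  obtain ⟨p, hp⟩ : ∃ p : ℤ → V, ∀ i, p i = (-(i * m), 2 * (i * m)) := ⟨_, fun _ => rfl⟩
  have ho : ∀ i, 0 ≤ i → ((2 * m, 0) : V) ∉ Bx (p i) m := fun i hi => by
    have : 0 ≤ i * m := by positivity
    simp only [mem_Bx, hp]; omega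
  obtain ⟨S, s1, s2⟩ := hC m (p 1) (p 2) (2 * m, 0) (by omega) (by simp only [mem_Bx, hp]; omega)
    (ho 1 (by omega)) (ho 2 (by omega))
  obtain ⟨S', t1, t2⟩ := hC m (p 0) (p 3) (2 * m, 0) (by omega) (by simp only [mem_Bx, hp]; omega)
    (ho 0 (by omega)) (ho 3 (by omega))
  have e := Einf_cov (p 2) (p 1) (p 3) (p 0)
  have q : p 2 - p 0 = Pl.pt 0 (2 * m) ∧ p 1 - p 3 = -Pl.pt 0 (2 * m) ∧ p 2 - p 3 = -Pl.pt 0 m ∧
      p 1 - p 0 = Pl.pt 0 m := by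
    simp only [hp, Pl.pt, Prod.ext_iff, Prod.fst_sub, Prod.snd_sub, Prod.fst_neg, Prod.snd_neg]
    omega
  rw [q.1, q.2.1, q.2.2.1, q.2.2.2, vg_neg, vg_neg] at e
  have := Einf_le (c := C / 4) ((lc_df (p 2) (p 1)).mul (lc_df (p 3) (p 0))) ?_
  · linarith
  filter_upwards [ev_ball s1, ev_ball t1, ev_ball (Bx_finite (p 0) m), ev_ball (Bx_finite (p 1) m),
    ev_ball (Bx_finite (p 2) m), ev_ball (Bx_finite (p 3) m)] with R r1 r2 b0 b1 b2 b3
  have a := s2 _ (ball_finite _ _) r1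
  have b := t2 _ (ball_finite _ _) r2
  have c23 := ex_pair b2 b3 (by simp only [mem_Bx, hp]; omega) (by simp only [mem_Bx, hp]; omega)
    (ho 2 (by omega)) (ho 3 (by omega))
  have c20 := ex_pair b2 b0 (by simp only [mem_Bx, hp]; omega) (by simp only [mem_Bx, hp]; omega)
    (ho 2 (by omega)) (ho 0 (by omega))
  have c13 := ex_pair b1 b3 (by simp only [mem_Bx, hp]; omega) (by simp only [mem_Bx, hp]; omega)
    (ho 1 (by omega)) (ho 3 (by omega))
  have c10 := ex_pair b1 b0 (by simp only [mem_Bx, hp]; omega) (by simp only [mem_Bx, hp]; omega)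
    (ho 1 (by omega)) (ho 0 (by omega))
  generalize ((2 * m, 0) : V) = o at *
  calc _ = Ex (PP (ball 0 R)) fun w => ((gr w (p 2) : ℝ) - gr w o) * ((gr w (p 3) : ℝ) - gr w o) -
        ((gr w (p 2) : ℝ) - gr w o) * ((gr w (p 0) : ℝ) - gr w o) -
        ((gr w (p 1) : ℝ) - gr w o) * ((gr w (p 3) : ℝ) - gr w o) +
        ((gr w (p 1) : ℝ) - gr w o) * ((gr w (p 0) : ℝ) - gr w o) := ex_congr fun w _ => by ring
    _ ≤ Ex (PP (ball 0 R)) fun w => 1 / 8 * (((md (p 1) m o w : ℝ) - md (p 2) m o w) ^ 2 +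
        ((md (p 0) m o w : ℝ) - md (p 3) m o w) ^ 2) := by
      rw [ex_add, ex_sub, ex_sub, c23, c20, c13, c10, ← ex_sub, ← ex_sub, ← ex_add]
      exact ex_mono fun w _ => by
        nlinarith [sq_nonneg ((md (p 1) m o w : ℝ) - md (p 2) m o w -
          (md (p 0) m o w - md (p 3) m o w))]
    _ ≤ C / 4 := by rw [ex_mul, ex_add]; linarith

/-! ### far increments -/

lemma vg_farJ : ∃ C β : ℝ, 0 ≤ β ∧ β < 1 ∧ ∀ (J : ℕ) (x y : V), Adj x y →
    (0 : V) ∉ Bx x (4 ^ J + 1) → x ∈ Bx 0 (4 * 4 ^ J + 1) →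
    (2 * (vg x - vg y)) ^ 2 ≤ C * ((J + 3) ^ 3 * β ^ J) := by
  obtain ⟨C, C0, hC⟩ := oscS.plog
  obtain ⟨D, α, D0, α0, ha⟩ := arm_pp
  refine ⟨D * C, (1 / 4) ^ α, by positivity, Real.rpow_lt_one (by norm_num) (by norm_num) α0,
    fun J x y e h0 hx => ?_⟩
  have J1 : (1 : ℤ) ≤ 4 ^ J := one_le_pow₀ (by norm_num)
  obtain ⟨S, s1, s2⟩ := hC (J + 2) 0 (x + y) (by
    rw [pow_add]
    simp only [mem_Bx0, Adj, Prod.fst_add, Prod.snd_add] at hx e ⊢
    omega)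
  have e1 := Einf_cov x y (x + y) 0
  rw [sub_zero, sub_zero, show y - (x + y) = -x by abel, show x - (x + y) = -y by abel, vg_neg,
    vg_neg] at e1
  rw [show 2 * (vg x - vg y) = vg x + vg x - vg y - vg y by ring, ← e1]
  refine le_of_tendsto ((Einf_tendsto ((lc_df x y).mul (lc_df (x + y) 0))).pow 2) ?_
  filter_upwards [ev_ball s1, ev_ball (Bx_finite x (4 ^ J))] with R r1 r2
  have a := s2 _ (ball_finite _ _) r1
  have b := ha true _ x 1 (4 ^ J) (ball_finite 0 R) le_rfl J1 nofun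
  obtain ⟨G, hG⟩ : ∃ G, G = red ⁻¹' SepE true (Bx x 1) (Bx x (4 ^ J))ᶜ := ⟨_, rfl⟩
  rw [← hG] at b
  have inv : ∀ w, flH true x (4 ^ J) w ∈ G ↔ w ∈ G := fun w => by
    simp only [hG, mem_preimage, red_flH]
  have odd : Ex (PP (ball 0 R)) (fun w => G.indicator (fun w => (gr w x : ℝ) - gr w y) w *
      ((gr w (x + y) : ℝ) - gr w 0)) = 0 := by
    refine ex_odd (φ := flH true x (4 ^ J)) (fun w hw => flH_mem (r2.trans (sub_cl _)) hw)
      (fun w _ => flH_flH _ _ _ w) fun w hw => ?_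
    by_cases hw' : w ∈ G
    · have s := sub_Ho (show red w ∈ _ from hG ▸ hw')
      have i1 : (gr (flH true x (4 ^ J) w) x : ℝ) - gr (flH true x (4 ^ J) w) y =
          -(gr w x - gr w y) := by
        exact_mod_cast gr_fl_in (Sp_val hw) (Ho_cut _ _ _ _) (Conn.single
          (s (by simp only [mem_Bx, Adj] at e ⊢; omega)) e.symm (s (by rw [mem_Bx]; omega)))
      have i2 : (gr (flH true x (4 ^ J) w) (x + y) : ℝ) - gr (flH true x (4 ^ J) w) 0 =
          gr w (x + y) - gr w 0 := by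
        exact_mod_cast gr_flH_out (Sp_val hw)
          (fun h => h0 (Bx_mono (le_add_of_nonneg_right zero_le_one) h)) (by
          simp only [mem_Bx, Adj, Prod.fst_add, Prod.snd_add, Prod.fst_zero, Prod.snd_zero]
            at h0 e ⊢
          omega)
      rw [indicator_of_mem hw', indicator_of_mem ((inv w).2 hw'), i1, i2, neg_mul]
    · rw [indicator_of_notMem hw', indicator_of_notMem fun h => hw' ((inv w).1 h), zero_mul,
        zero_mul, neg_zero]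
  have sp : Ex (PP (ball 0 R)) (fun w => ((gr w x : ℝ) - gr w y) * ((gr w (x + y) : ℝ) - gr w 0)) =
      Ex (PP (ball 0 R)) fun w => Gᶜ.indicator (fun w => (gr w x : ℝ) - gr w y) w *
        ((gr w (x + y) : ℝ) - gr w 0) := by
    rw [← zero_add (Ex _ fun w => Gᶜ.indicator _ w * _), ← odd, ← ex_add]
    exact ex_congr fun w _ => by rw [← add_mul, indicator_self_add_compl_apply]
  have c : Ex (PP (ball 0 R)) (fun w => Gᶜ.indicator (fun w => (gr w x : ℝ) - gr w y) w ^ 2) ≤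
      Pr (PP (ball 0 R)) Gᶜ := by
    rw [pr_eq]
    refine ex_mono fun w hw => ?_
    by_cases hw' : w ∈ Gᶜ
    · rw [indicator_of_mem hw', indicator_of_mem hw', Pi.one_apply, sq_le_one_iff_abs_le_one]
      exact_mod_cast gr_lip (Sp_val hw) e.symm
    · simp [indicator_of_notMem hw']
  rw [sp]
  refine (ex_mul_sq_le _ _ _).trans ((mul_le_mul (c.trans b) a
    (ex_nonneg fun _ _ => sq_nonneg _) (by positivity)).trans_eq ?_)
  rw [← Real.rpow_natCast ((1 / 4 : ℝ) ^ α), ← Real.rpow_mul (by norm_num), mul_comm α,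
    Real.rpow_mul (by norm_num), Real.rpow_natCast]
  push_cast
  rw [one_div_pow]
  ring

theorem vg_far (ε : ℝ) (hε : 0 < ε) :
    ∃ R : ℤ, ∀ x y, Adj x y → R ≤ nrm x → |vg x - vg y| ≤ ε := by
  obtain ⟨C, β, β0, β1, hC⟩ := vg_farJ
  have t := (tendsto_pow_const_mul_const_pow_of_abs_lt_one 3
    (show |β| < 1 by rwa [abs_of_nonneg β0])).const_mul (|C| * 64)
  rw [mul_zero] at t
  obtain ⟨J0, hJ⟩ := eventually_atTop.1 ((t.eventually_le_const (show 0 < (2 * ε) ^ 2 by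
    positivity)).and (eventually_ge_atTop 1))
  refine ⟨2 * (4 ^ J0 + 2), fun x y e hx => ?_⟩
  obtain ⟨n, hn⟩ : ∃ n : ℕ, (n : ℤ) + 2 = max |x.1| |x.2| ∧ 4 ^ J0 ≤ n := by
    have : (0 : ℤ) < 4 ^ J0 := by positivity
    refine ⟨(max |x.1| |x.2| - 2).toNat, ?_, ?_⟩
    · have := abs_add_le x.1 x.2
      unfold nrm at hx; omega
    · have := abs_add_le x.1 x.2
      zify; unfold nrm at hx; omega
  have n0 : n ≠ 0 := (lt_of_lt_of_le (by positivity) hn.2).ne'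
  have j1 : (4 : ℤ) ^ Nat.log 4 n ≤ n := by exact_mod_cast Nat.pow_log_le_self 4 n0
  have j2 : (n : ℤ) < 4 * 4 ^ Nat.log 4 n := by
    have := Nat.lt_pow_succ_log_self (b := 4) (by norm_num) n
    rw [pow_succ'] at this
    exact_mod_cast this
  obtain ⟨k1, k2⟩ := hJ (Nat.log 4 n) (Nat.le_log_of_pow_le (by norm_num) hn.2)
  have a1 := abs_eq_max_neg (a := x.1)
  have a2 := abs_eq_max_neg (a := x.2)
  have a := hC (Nat.log 4 n) x y e (by simp only [mem_Bx, Prod.fst_zero, Prod.snd_zero]; omega)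
    (by rw [mem_Bx0]; omega)
  generalize Nat.log 4 n = J at *
  have J1 : (1 : ℝ) ≤ J := by exact_mod_cast k2
  have b : C * ((J + 3) ^ 3 * β ^ J) ≤ |C| * 64 * (J ^ 3 * β ^ J) :=
    calc _ ≤ |C| * ((4 * J) ^ 3 * β ^ J) := by gcongr; exacts [le_abs_self C, by linarith]
      _ = _ := by ring
  have := abs_le_of_sq_le_sq' (a.trans (b.trans k1)) (by positivity)
  rw [abs_le]
  constructor <;> linarith [this.1, this.2]

theorem vg_vario : ∃ C, Pl.Vario vg C :=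
  vg_dbl.imp fun _ hC => ⟨vg_zero, vg_nonneg, fun x => vg_aut aut_rot (by simp [rotE, Pl.rot]) x,
    fun x => by rw [← rfj_zero, vg_aut (aut_rfj 0) (by simp [rfj])], vg_rp, hC, vg_far⟩

/-! ### the constant is positive -/

theorem vg_low : ∃ K : ℕ, 2 ≤ K ∧ ∀ n : ℕ, (n : ℝ) ≤ vg (Pl.pt 0 (K ^ (2 * n))) := by
  obtain ⟨K, hK, h⟩ := low_PP
  refine ⟨K, hK, fun n => ?_⟩
  have := le_Einf (c := 2 * n) ((lc_df 0 (Pl.pt 0 (K ^ (2 * n)))).comp (· ^ 2)) ?_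
  · rw [Einf_gr_sq, zero_sub, vg_neg] at this
    linarith
  filter_upwards [ev_ball (Bx_finite 0 (K ^ (2 * n)))] with R hR
  refine h n _ 0 _ (ball_finite _ _) hR ?_
  have : (0 : ℤ) < K ^ (2 * n) := by positivity
  simp only [mem_Bx0, Pl.pt]
  omega

lemma norm_pt {t : ℤ} (h : 0 ≤ t) : ‖Pl.emb (Pl.pt 0 t)‖ = √3 * t := by
  rw [Pl.emb_pt, Int.cast_zero, zero_add, norm_mul, Complex.norm_I, mul_one, Complex.norm_real,
    Real.norm_of_nonneg (by positivity)]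

/-- the variogram grows like a positive multiple of the logarithm -/
theorem vg_log : ∃ C κ : ℝ, Pl.Vario vg C ∧ 0 < κ ∧
    ∀ K ε : ℝ, 0 < ε → ∃ R : ℝ, ∀ x y : V, R ≤ ‖Pl.emb x‖ → R ≤ ‖Pl.emb y‖ →
      ‖Pl.emb x‖ ≤ K * ‖Pl.emb y‖ → ‖Pl.emb y‖ ≤ K * ‖Pl.emb x‖ →
      |vg x - vg y - κ * Real.log (‖Pl.emb x‖ / ‖Pl.emb y‖)| ≤ ε := by
  obtain ⟨C, hC⟩ := vg_vario
  obtain ⟨κ, hκ⟩ := hC.log_law
  refine ⟨C, κ, hC, lt_of_not_ge fun k0 => ?_, hκ⟩
  obtain ⟨K, K2, hK⟩ := vg_low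
  obtain ⟨R, hR⟩ := hκ (K ^ 2) (1 / 2) (by norm_num)
  have K1 : (1 : ℝ) < K := by exact_mod_cast K2
  have s3 : (1 : ℝ) ≤ √3 := Real.one_le_sqrt.2 (by norm_num)
  obtain ⟨n, hn⟩ := pow_unbounded_of_one_lt R K1
  have nm : ∀ i : ℕ, ‖Pl.emb (Pl.pt 0 (K ^ i))‖ = √3 * K ^ i := fun i => by
    rw [norm_pt (by positivity)]; push_cast; rfl
  have big : ∀ i : ℕ, n ≤ i → R ≤ √3 * K ^ i := fun i hi =>
    (hn.le.trans (pow_le_pow_right₀ K1.le hi)).trans (le_mul_of_one_le_left (by positivity) s3)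
  have st : ∀ i : ℕ, vg (Pl.pt 0 (K ^ (2 * (n + i)))) ≤ vg (Pl.pt 0 (K ^ (2 * n))) + i / 2 := by
    intro i
    induction i with
    | zero => simp
    | succ i ih =>
      have e : (√3 * K ^ (2 * (n + (i + 1))) : ℝ) = K ^ 2 * (√3 * K ^ (2 * (n + i))) := by ring
      have p : (0 : ℝ) < √3 * K ^ (2 * (n + i)) := by positivity
      have q : (1 : ℝ) ≤ K ^ 2 := one_le_pow₀ K1.le
      have := hR (Pl.pt 0 (K ^ (2 * (n + (i + 1))))) (Pl.pt 0 (K ^ (2 * (n + i))))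
        (nm _ ▸ big _ (by omega)) (nm _ ▸ big _ (by omega)) (by rw [nm, nm, e])
        (by rw [nm, nm, e]; nlinarith [mul_le_mul q q zero_le_one (by positivity)])
      rw [nm, nm, e, mul_div_cancel_right₀ _ p.ne'] at this
      have := mul_nonpos_of_nonpos_of_nonneg k0 (Real.log_nonneg q)
      push_cast
      linarith [(abs_le.1 ‹|_| ≤ _›).2]
  obtain ⟨i, hi⟩ := exists_nat_gt (2 * vg (Pl.pt 0 (K ^ (2 * n))))
  have a := hK (n + i)
  have b := st i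
  have : (0 : ℝ) ≤ n := by positivity
  push_cast at a
  linarith

end Pool.Agent.Lib.MP_6359c9_pr
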