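import Pool.Agent.Lib.MP_6359c9_pr.SpecK

/-! Cluster expansion of the heights given the red spins. -/

namespace Pool.Agent.Lib.MP_6359c9_pr

open Set

namespace Khi

/-! ### independent signs -/

/-- a family of signs that can be flipped one by one -/
structure Sgn {Ω ι : Type} (N : Set Ω) (S : Finset ι) (t : ι → Ω → ℝ) (φ : ι → Ω → Ω) : Prop where
  pm : ∀ i x, t i x = 1 ∨ t i x = -1
  mem : ∀ i ∈ S, ∀ x ∈ N, φ i x ∈ N
  inv : ∀ i ∈ S, ∀ x ∈ N, φ i (φ i x) = x
  neg : ∀ i ∈ S, ∀ x ∈ N, t i (φ i x) = -t i x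
  fix : ∀ i ∈ S, ∀ j ∈ S, j ≠ i → ∀ x ∈ N, t j (φ i x) = t j x

variable {Ω ι : Type} {N : Set Ω} {S : Finset ι} {t : ι → Ω → ℝ} {φ : ι → Ω → Ω}

lemma Sgn.sym (h : Sgn N S t φ) {i : ι} (hi : i ∈ S) (f : Ω → ℝ) :
    Ex N f = Ex N fun x => (f x + f (φ i x)) / 2 := by
  have := ex_bij (bij_of_inv (h.mem i hi) (h.mem i hi) (h.inv i hi) (h.inv i hi)) f
  simp only [div_eq_mul_inv, ex_mul', ex_add, this]
  ring

lemma Sgn.odd (h : Sgn N S t φ) {i : ι} (hi : i ∈ S) {A : Ω → ℝ}
    (hA : ∀ x ∈ N, A (φ i x) = A x) : Ex N (fun x => A x * t i x) = 0 := by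
  rw [h.sym hi, ← ex_zero N]
  exact ex_congr fun x hx => by rw [hA x hx, h.neg i hi x hx]; ring

lemma Sgn.mgf (h : Sgn N S t φ) (β : ι → ℝ) (s : Finset ι) (hs : s ⊆ S) :
    Ex N (fun x => Real.exp (∑ i ∈ s, β i * t i x)) ≤ Real.exp (∑ i ∈ s, β i ^ 2 / 2) := by
  classical
  by_cases hN : Ok N
  swap
  · rw [ex_nok hN]; positivity
  induction s using Finset.induction_on with
  | empty => simp [ex_const hN]
  | insert i s hi ih =>
    have iS := hs (Finset.mem_insert_self i s)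
    have sS : s ⊆ S := (Finset.subset_insert i s).trans hs
    rw [h.sym iS, Finset.sum_insert hi, Real.exp_add,
      ex_congr (g := fun x => Real.cosh (β i) * Real.exp (∑ j ∈ s, β j * t j x)) fun x hx => by
        simp only [Finset.sum_insert hi, Real.exp_add]
        rw [h.neg i iS x hx, Finset.sum_congr (f := fun j => β j * t j (φ i x))
          (g := fun j => β j * t j x) rfl fun j hj => by
          rw [h.fix i iS j (sS hj) (fun e => hi (e ▸ hj)) x hx], Real.cosh_eq]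
        rcases h.pm i x with e | e <;> rw [e] <;> simp <;> ring, ex_mul]
    exact mul_le_mul (Real.cosh_le_exp_half_sq _) (ih sS)
      (ex_nonneg fun _ _ => (Real.exp_pos _).le) (Real.exp_pos _).le

lemma Sgn.mom (h : Sgn N S t φ) (β : ι → ℝ) (q : ℕ) :
    Ex N (fun x => (∑ i ∈ S, β i * t i x) ^ (2 * q)) ≤
      4 * (2 * q).factorial * (∑ i ∈ S, β i ^ 2) ^ q := by
  have s0 : 0 ≤ ∑ i ∈ S, β i ^ 2 := Finset.sum_nonneg fun _ _ => sq_nonneg _
  rcases s0.eq_or_lt with e | p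
  · have z : ∀ i ∈ S, β i = 0 := fun i hi =>
      pow_eq_zero_iff two_ne_zero |>.1 ((Finset.sum_eq_zero_iff_of_nonneg
        fun _ _ => sq_nonneg _).1 e.symm i hi)
    rw [← e, ex_congr (g := fun _ => 0 ^ q) fun x _ => by
      rw [Finset.sum_eq_zero fun i hi => by rw [z i hi, zero_mul], pow_mul]; simp]
    have f1 : (1 : ℝ) ≤ (2 * q).factorial := by exact_mod_cast Nat.factorial_pos _
    have f2 : (0 : ℝ) ≤ 0 ^ q := by positivity
    by_cases hN : Ok N
    · rw [ex_const hN]; nlinarith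
    · rw [ex_nok hN]; positivity
  set σ := √(∑ i ∈ S, β i ^ 2) with hσ
  have σ0 : 0 < σ := Real.sqrt_pos.2 p
  have σ2 : σ ^ 2 = ∑ i ∈ S, β i ^ 2 := Real.sq_sqrt s0
  have m : ∀ ε : ℝ, ε ^ 2 = 1 → Ex N (fun x => Real.exp (ε / σ * ∑ i ∈ S, β i * t i x)) ≤ 2 := by
    intro ε hε
    have := h.mgf (fun i => ε / σ * β i) S subset_rfl
    simp only [mul_assoc, ← Finset.mul_sum, mul_pow, mul_div_assoc] at this
    rw [← Finset.sum_div, ← σ2, div_pow, hε,
      show 1 / σ ^ 2 * (σ ^ 2 / 2) = 1 / 2 by field_simp] at this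
    refine this.trans ?_
    have h1 := Real.exp_one_lt_d9
    have h2 : Real.exp (1 / 2) ^ 2 = Real.exp 1 := by rw [← Real.exp_nat_mul]; norm_num
    nlinarith [Real.exp_pos (1 / 2)]
  have m1 := m 1 (by norm_num)
  have m2 := m (-1) (by norm_num)
  rw [← σ2, ← pow_mul]
  refine le_trans (ex_mono (g := fun x => ((2 * q).factorial * σ ^ (2 * q)) *
    (Real.exp (1 / σ * ∑ i ∈ S, β i * t i x) + Real.exp (-1 / σ * ∑ i ∈ S, β i * t i x)))
    fun x _ => ?_) ?_
  · generalize ∑ i ∈ S, β i * t i x = y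
    have a1 := Real.pow_div_factorial_le_exp |y / σ| (abs_nonneg _) (2 * q)
    have a2 : Real.exp |y / σ| ≤ Real.exp (1 / σ * y) + Real.exp (-1 / σ * y) := by
      rcases abs_cases (y / σ) with ⟨e, -⟩ | ⟨e, -⟩ <;> rw [e]
      · rw [show 1 / σ * y = y / σ by ring]; linarith [Real.exp_pos (-1 / σ * y)]
      · rw [show -1 / σ * y = -(y / σ) by ring]; linarith [Real.exp_pos (1 / σ * y)]
    rw [(even_two_mul q).pow_abs, div_pow, div_div, div_le_iff₀ (by positivity)] at a1
    refine a1.trans ?_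
    rw [mul_comm, mul_comm (σ ^ (2 * q))]
    exact mul_le_mul_of_nonneg_left a2 (by positivity)
  · rw [ex_mul, ex_add]
    have : (0 : ℝ) ≤ (2 * q).factorial * σ ^ (2 * q) := by positivity
    nlinarith

lemma Sgn.cov (h : Sgn N S t φ) (hN : Ok N) (β β' : ι → ℝ) {A A' : Ω → ℝ}
    (hA : ∀ i ∈ S, ∀ x ∈ N, A (φ i x) = A x) (hA' : ∀ i ∈ S, ∀ x ∈ N, A' (φ i x) = A' x) :
    Ex N (fun x => (A x + ∑ i ∈ S, β i * t i x) * (A' x + ∑ i ∈ S, β' i * t i x)) =
      Ex N (fun x => A x * A' x) + ∑ i ∈ S, β i * β' i := by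
  classical
  have e : ∀ x, (A x + ∑ i ∈ S, β i * t i x) * (A' x + ∑ i ∈ S, β' i * t i x) =
      A x * A' x + ∑ i ∈ S, β' i * (A x * t i x) + ∑ i ∈ S, β i * (A' x * t i x) +
        ∑ i ∈ S, ∑ j ∈ S, β i * β' j * (t j x * t i x) := fun x => by
    rw [add_mul, mul_add, mul_add, Finset.sum_mul_sum, Finset.mul_sum, Finset.sum_mul, ← add_assoc]
    congr 1
    · congr 1
      · congr 1
        exact Finset.sum_congr rfl fun _ _ => by ring
      · exact Finset.sum_congr rfl fun _ _ => by ring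
    · exact Finset.sum_congr rfl fun _ _ => Finset.sum_congr rfl fun _ _ => by ring
  simp only [e, ex_add, ex_sum, ex_mul]
  rw [Finset.sum_eq_zero fun i hi => by rw [h.odd hi (hA i hi), mul_zero],
    Finset.sum_eq_zero fun i hi => by rw [h.odd hi (hA' i hi), mul_zero], add_zero, add_zero]
  congr 1
  refine Finset.sum_congr rfl fun i hi => ?_
  rw [Finset.sum_eq_single_of_mem i hi fun j hj e => by
    rw [h.odd hi (h.fix i hi j hj e), mul_zero],
    ex_congr (g := fun _ => 1) fun x _ => by rcases h.pm i x with e | e <;> rw [e] <;> norm_num,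
    ex_const hN, mul_one]

/-! ### potentials -/

/-- the sign of a spin -/
def sg (b : Bool) : ℝ := if b then 1 else -1

/-- constant along the edges where `r` changes -/
def Th (r : V → Bool) (τ : V → ℝ) : Prop := ∀ x y, Adj x y → r x ≠ r y → τ x = τ y

/-- `g` is a height for the red spins `r` and the blue weights `τ` -/
def Pt (r : V → Bool) (τ g : V → ℝ) : Prop :=
  ∀ x y, Adj x y → g y = g x + (sg (r y) * τ x - sg (r x) * τ y) / 2

open Classical in
/-- the height that vanishes at `o` -/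
noncomputable def pot (r : V → Bool) (o : V) (τ : V → ℝ) : V → ℝ :=
  if h : ∃ g : V → ℝ, g o = 0 ∧ Pt r τ g then h.choose else 0

variable {r : V → Bool} {τ g : V → ℝ} {o : V}

lemma pot_spec (h : Th r τ) (o : V) : pot r o τ o = 0 ∧ Pt r τ (pot r o τ) := by
  obtain ⟨g, hg⟩ := exact (fun x y => (sg (r y) * τ x - sg (r x) * τ y) / 2)
    (fun _ _ _ => by ring) fun x y z e1 e2 e3 => by
      have t1 := h x y e1
      have t2 := h y z e2
      have t3 := h x z e3
      cases h1 : r x <;> cases h2 : r y <;> cases h3 : r z <;>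
        simp only [h1, h2, h3, sg, ne_eq, not_true, false_imp_iff, Bool.false_eq_true,
          Bool.true_eq_false, not_false_iff, true_imp_iff, if_true, if_false] at * <;> linarith
  have ex : ∃ g : V → ℝ, g o = 0 ∧ Pt r τ g :=
    ⟨fun v => g v - g o, sub_self _, fun x y e => by beta_reduce; rw [hg x y e]; ring⟩
  rw [pot, dif_pos ex]
  exact ex.choose_spec

lemma Pt.const (h : Pt r τ g) {S : Set V} (hS : ∀ x ∈ S, τ x = 0) {u v : V} (c : Conn S u v) :
    g u = g v := c.const fun a ha b hb e => by rw [h a b e, hS a ha, hS b hb]; simp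

lemma Pt.uniq {g' : V → ℝ} (h : Pt r τ g) (h' : Pt r τ g') (e : g o = g' o) (v : V) :
    g v = g' v := (conn_univ o v).ind (P := fun x => g x = g' x) e
  fun a b _ ab _ ih => by rw [h a b ab, h' a b ab, ih]

lemma Pt.add {τ' g' : V → ℝ} (h : Pt r τ g) (h' : Pt r τ' g') :
    Pt r (fun x => τ x + τ' x) fun x => g x + g' x := fun x y e => by
  beta_reduce; rw [h x y e, h' x y e]; ring

lemma Pt.sum {ι : Type} (s : Finset ι) (c : ι → ℝ) {τ g : ι → V → ℝ}
    (h : ∀ i ∈ s, Pt r (τ i) (g i)) :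
    Pt r (fun x => ∑ i ∈ s, c i * τ i x) fun x => ∑ i ∈ s, c i * g i x := fun x y e => by
  simp only [Finset.mul_sum, ← Finset.sum_sub_distrib, Finset.sum_div, ← Finset.sum_add_distrib]
  exact Finset.sum_congr rfl fun i hi => by rw [h i hi x y e]; ring

lemma pt_gr {w : Cf} (hw : w ∈ Val) :
    Pt (red w) (fun x => sg (w x).2) fun v => (gr w v : ℝ) - gr w o := fun x y e => by
  have key : ∀ a b : Bool × Bool, Cp a b →
      (dk a b : ℝ) = (sg b.1 * sg a.2 - sg a.1 * sg b.2) / 2 := by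
    rintro ⟨_ | _, _ | _⟩ ⟨_ | _, _ | _⟩ h <;> simp [Cp] at h <;> simp [dk, ck, sg] <;> norm_num
  beta_reduce
  rw [gr_adj hw e]
  push_cast
  rw [key _ _ (hw.1 x y e)]
  unfold red
  ring

lemma Pt.step (h : Pt r τ g) (hb : ∀ x, |τ x| ≤ 1) {x y : V} (e : Adj x y) : |g y - g x| ≤ 1 := by
  have a := abs_le.1 (hb x)
  have b := abs_le.1 (hb y)
  rw [h x y e, abs_le]
  cases r x <;> cases r y <;> simp only [sg, if_true, if_false, Bool.false_eq_true] <;>
    constructor <;> linarith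

lemma Pt.nconn (h : Pt r τ g) (ht : Th r τ) (hb : ∀ x, |τ x| ≤ 1) {s : Bool} {u v : V}
    (c : NConn (lev r s) univ u v) : |g v - g u| ≤ 3 := by
  have := c.ind (Q := fun x => g x - sg s * (if r x = s then 3 / 2 else 1 / 2) * τ x =
      g u - sg s * (if r u = s then 3 / 2 else 1 / 2) * τ u) rfl fun a b _ e _ n ih => by
    rw [← ih, h a b e]
    have t := ht a b e
    have n' : ¬(r a = s ∧ r b = s) := n
    cases s <;> cases h1 : r a <;> cases h2 : r b <;>
      simp only [h1, h2, sg, ne_eq, not_true, false_imp_iff, Bool.false_eq_true, and_self,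
        Bool.true_eq_false, not_false_iff, true_imp_iff, if_true, if_false] at * <;> linarith
  have a := abs_le.1 (hb u)
  have b := abs_le.1 (hb v)
  rw [abs_le]
  cases s <;> simp only [sg, if_true, if_false, Bool.false_eq_true] at this <;>
    split_ifs at this <;> constructor <;> linarith

lemma Pt.KK {w : Cf} (h : Pt (red w) τ g) (ht : Th (red w) τ) (hb : ∀ x, |τ x| ≤ 1) {O : Set V}
    (i : ℕ) : ∀ v ∈ KK O w i, ∃ o ∈ O, |g v - g o| ≤ 4 * i := by
  induction i with
  | zero => exact fun v hv => ⟨v, hv, by simp⟩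
  | succ i ih =>
    rintro v ⟨y, hy, c⟩
    have a1 := abs_le.1 (h.nconn ht hb c)
    rcases hy with hy | ⟨x, hx, e⟩
    · obtain ⟨o, ho, a2⟩ := ih y hy
      rw [abs_le] at a2
      exact ⟨o, ho, abs_le.2 ⟨by push_cast; linarith, by push_cast; linarith⟩⟩
    · obtain ⟨o, ho, a2⟩ := ih x hx
      have a3 := abs_le.1 (h.step hb e)
      rw [abs_le] at a2
      exact ⟨o, ho, abs_le.2 ⟨by push_cast; linarith, by push_cast; linarith⟩⟩

lemma cn_mono {c a b : ℝ} {u v : V} (h : Conn {y | |g y - c| ≤ a} u v) (ab : a ≤ b) :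
    Conn {y | |g y - c| ≤ b} u v := h.mono fun _ hz => le_trans (a := |_|) hz ab

lemma cn_right {c a : ℝ} {u v : V} (h : Conn {y | |g y - c| ≤ a} u v) : |g v - c| ≤ a := h.right

lemma cn_tail {c a : ℝ} {u v x : V} (h : Conn {y | |g y - c| ≤ a} u v) (e : Adj v x)
    (hx : |g x - c| ≤ a) : Conn {y | |g y - c| ≤ a} u x := h.tail e hx

lemma Pt.KKp {w : Cf} {τ' g' : V → ℝ} (h : Pt (red w) τ g) (ht : Th (red w) τ)
    (hb : ∀ x, |τ x| ≤ 1) (h' : Pt (red w) τ' g') (ht' : Th (red w) τ') (hb' : ∀ x, |τ' x| ≤ 1)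
    {O : Set V} (i : ℕ) : ∀ v ∈ MP_6359c9_pr.KK O w i, ∃ o ∈ O, |g v - g o| ≤ 4 * i ∧
      Conn {y | |g' y - g' o| ≤ 4 * i} o v := by
  induction i with
  | zero => exact fun v hv => ⟨v, hv, by simp, Conn.refl (by simp)⟩
  | succ i ih =>
    rintro v ⟨y, hy, c⟩
    have a1 := abs_le.1 (h.nconn ht hb c)
    have k : ∃ o ∈ O, |g y - g o| ≤ 4 * i + 1 ∧ Conn {z | |g' z - g' o| ≤ 4 * i + 1} o y := by
      rcases hy with hy | ⟨x, hx, e⟩
      · obtain ⟨o, ho, a2, c2⟩ := ih y hy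
        exact ⟨o, ho, by linarith, cn_mono c2 (by linarith)⟩
      · obtain ⟨o, ho, a2, c2⟩ := ih x hx
        have a3 := abs_le.1 (h.step hb e)
        have a4 := abs_le.1 (h'.step hb' e)
        have a5 := abs_le.1 (cn_right c2)
        rw [abs_le] at a2
        exact ⟨o, ho, abs_le.2 ⟨by linarith, by linarith⟩,
          cn_tail (cn_mono c2 (by linarith)) e (abs_le.2 ⟨by linarith, by linarith⟩)⟩
    obtain ⟨o, ho, a2, c2⟩ := k
    have a5 := abs_le.1 (cn_right c2)
    rw [abs_le] at a2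
    refine ⟨o, ho, abs_le.2 ⟨by push_cast; linarith, by push_cast; linarith⟩, ?_⟩
    refine c.ind (Q := fun x => Conn {z | |g' z - g' o| ≤ 4 * ((i + 1 : ℕ) : ℝ)} o x)
      (cn_mono c2 (by push_cast; linarith)) fun a b ca e hb2 n ih2 => ?_
    have a6 := abs_le.1 (h'.nconn ht' hb' (ca.tail e hb2 n))
    exact cn_tail ih2 e (abs_le.2 ⟨by push_cast; linarith, by push_cast; linarith⟩)

lemma exists_KK {O : Set V} (ho : o ∈ O) (w : Cf) (v : V) : ∃ i, v ∈ KK O w i :=
  (conn_univ o v).ind (P := fun x => ∃ i, x ∈ KK O w i) ⟨0, ho⟩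
    fun _ _ _ e _ ⟨i, hi⟩ => ⟨i + 1, sub_NK _ _ (mem_cl hi e)⟩

lemma exists_Tn {O : Set V} (ho : o ∈ O) (w : Cf) (u : V) {a : ℤ} (ha : 0 ≤ a) :
    ∃ v ∈ Bx u a, v ∈ KK O w (Tn O (Bx u a) w) := by
  obtain ⟨i, hi⟩ := exists_KK ho w u
  exact Nat.sInf_mem (s := {i | ∃ v ∈ Bx u a, v ∈ KK O w i})
    ⟨i, u, by rw [mem_Bx]; omega, hi⟩

/-! ### clusters -/

/-- the cluster of `x` along the edges where `r` changes -/
def Cl (r : V → Bool) (x : V) : Set V :=
  {y | Relation.ReflTransGen (fun a b => Adj a b ∧ r a ≠ r b) x y}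

lemma mem_Cl (r : V → Bool) (x : V) : x ∈ Cl r x := Relation.ReflTransGen.refl

lemma Cl_eq {x y : V} (h : y ∈ Cl r x) : Cl r y = Cl r x := by
  have h' : x ∈ Cl r y := by
    induction h with
    | refl => exact mem_Cl r x
    | tail _ h ih => exact Relation.ReflTransGen.head ⟨h.1.symm, h.2.symm⟩ ih
  exact Set.ext fun _ => ⟨fun h1 => Relation.ReflTransGen.trans h h1,
    fun h1 => Relation.ReflTransGen.trans h' h1⟩

lemma Cl_adj {x y : V} (e : Adj x y) (h : r x ≠ r y) : Cl r y = Cl r x :=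
  Cl_eq (Relation.ReflTransGen.single ⟨e, h⟩)

lemma mem_Cl_iff {x y : V} : y ∈ Cl r x ↔ Cl r x = Cl r y :=
  ⟨fun h => (Cl_eq h).symm, fun h => h ▸ mem_Cl r y⟩

lemma Cl_nconn {x y : V} (s : Bool) (h : y ∈ Cl r x) : NConn (lev r s) univ x y := by
  induction h with
  | refl => exact NConn.refl trivial
  | tail _ h ih => exact ih.tail h.1 trivial fun n => h.2 (n.1.trans n.2.symm)

lemma Cl_blue {w : Cf} (hw : w ∈ Val) {x y : V} (h : y ∈ Cl (red w) x) : (w y).2 = (w x).2 := by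
  induction h with
  | refl => rfl
  | tail _ h ih => exact ((hw.1 _ _ h.1).resolve_left h.2).symm.trans ih

lemma th_of (F : Set V → ℝ) : Th r fun x => F (Cl r x) := fun x y e h => by
  simp only [Cl_adj e h]

lemma th_ind (x : V) : Th r ((Cl r x).indicator 1) := fun a b e h => by
  simp only [indicator, mem_Cl_iff, Cl_adj e h, Pi.one_apply]

/-- the clusters inside `U` -/
noncomputable def Cs (r : V → Bool) {U : Set V} (hU : U.Finite) : Finset (Set V) :=
  (show {C | C ⊆ U ∧ ∃ x, C = Cl r x}.Finite from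
    hU.finite_subsets.subset fun _ h => h.1).toFinset

lemma mem_Cs {U : Set V} {hU : U.Finite} {C : Set V} :
    C ∈ Cs r hU ↔ C ⊆ U ∧ ∃ x, C = Cl r x := Set.Finite.mem_toFinset _

/-- the coefficient of a cluster -/
noncomputable def co (r : V → Bool) (o : V) (C : Set V) : V → ℝ := pot r o (C.indicator 1)

lemma co_spec {U : Set V} {hU : U.Finite} {C : Set V} (h : C ∈ Cs r hU) (o : V) :
    co r o C o = 0 ∧ Pt r (C.indicator 1) (co r o C) := by
  obtain ⟨-, x, rfl⟩ := mem_Cs.1 h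
  exact pot_spec (th_ind x) o

lemma co_const {U : Set V} {hU : U.Finite} {C : Set V} (h : C ∈ Cs r hU) {S : Set V}
    (hS : ∀ x ∈ S, x ∉ C) {u v : V} (c : Conn S u v) : co r o C u = co r o C v :=
  (co_spec h o).2.const (fun x hx => indicator_of_notMem (hS x hx) _) c

lemma co_out {U : Set V} {hU : U.Finite} (hc : CoConn U) (ho : o ∉ U) {C : Set V}
    (h : C ∈ Cs r hU) {v : V} (hv : v ∉ U) : co r o C v = 0 :=
  (co_const h (S := Uᶜ) (fun _ hx hC => hx ((mem_Cs.1 h).1 hC)) (hc v hv o ho)).trans (co_spec h o).1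

lemma co_far {U : Set V} {hU : U.Finite} (hc : CoConn U) (ho : o ∉ U) {C : Set V}
    (h : C ∈ Cs r hU) {u v : V} {m : ℤ} (hC : C ⊆ Bx u m) (hv : v ∉ Bx u m) : co r o C v = 0 := by
  obtain ⟨z, hz⟩ := (hU.union (Bx_finite u m)).exists_notMem
  exact (co_const h (S := (Bx u m)ᶜ) (fun _ hx h' => hx (hC h'))
    (Bx_coConn u m v hv z fun h => hz (Or.inr h))).trans (co_out hc ho h fun h => hz (Or.inl h))

open Classical in
lemma sum_ind {U : Set V} (hU : U.Finite) (c : Set V → ℝ) (x : V) :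
    ∑ C ∈ Cs r hU, c C * C.indicator 1 x = if Cl r x ⊆ U then c (Cl r x) else 0 := by
  have z : ∀ C ∈ Cs r hU, C ≠ Cl r x → c C * C.indicator (1 : V → ℝ) x = 0 := fun C hC e => by
    obtain ⟨-, y, rfl⟩ := mem_Cs.1 hC
    rw [indicator_of_notMem (fun h => e (mem_Cl_iff.1 h)), mul_zero]
  split_ifs with h
  · rw [Finset.sum_eq_single_of_mem _ (mem_Cs.2 ⟨h, x, rfl⟩) z]
    simp [mem_Cl]
  · exact Finset.sum_eq_zero fun C hC => z C hC fun e => h (e ▸ (mem_Cs.1 hC).1)

lemma sum_co_le {w : Cf} {U : Set V} (hU : U.Finite) (hc : CoConn U) (ho : o ∉ U) {i : ℕ} {v : V}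
    (hv : v ∈ KK Uᶜ w i) : ∑ C ∈ Cs (red w) hU, |co (red w) o C v| ≤ 4 * i := by
  classical
  set c : Set V → ℝ := fun C => if 0 ≤ co (red w) o C v then 1 else -1 with hcd
  have p := Pt.sum (Cs (red w) hU) c fun C hC => (co_spec hC o).2
  simp only [sum_ind] at p
  obtain ⟨o', ho', h⟩ := p.KK (th_of fun C => if C ⊆ U then c C else 0) (fun x => by
    simp only [hcd]; split_ifs <;> simp) i v hv
  rw [Finset.sum_eq_zero (f := fun C => c C * co (red w) o C o') fun C hC => by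
    rw [co_out hc ho hC ho', mul_zero], sub_zero] at h
  refine le_trans (le_of_eq (Finset.sum_congr rfl fun C _ => ?_)) ((le_abs_self _).trans h)
  simp only [hcd]
  split_ifs with h0
  · rw [one_mul, abs_of_nonneg h0]
  · rw [neg_one_mul, abs_of_neg (not_le.1 h0)]

open Classical in
/-- the blue sign of a cluster -/
noncomputable def ts (C : Set V) (w : Cf) : ℝ := if ∀ x ∈ C, (w x).2 = true then 1 else -1

open Classical in
/-- flip of the blue spins of a cluster -/
noncomputable def fc (C : Set V) (w : Cf) : Cf :=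
  fun v => if v ∈ C then ((w v).1, !(w v).2) else w v

open Classical in
/-- the blue signs on the clusters that leave `U` -/
noncomputable def tg (U : Set V) (w : Cf) : V → ℝ :=
  fun x => if Cl (red w) x ⊆ U then 0 else sg (w x).2

lemma ts_eq {w : Cf} (hw : w ∈ Val) (x : V) : ts (Cl (red w) x) w = sg (w x).2 := by
  unfold ts sg
  by_cases h : (w x).2 = true
  · rw [if_pos h, if_pos fun y hy => (Cl_blue hw hy).trans h]
  · rw [if_neg h, if_neg fun h' => h (h' x (mem_Cl _ x))]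

lemma red_fc (C : Set V) (w : Cf) : red (fc C w) = red w := by
  ext v; simp only [red, fc]; split_ifs <;> rfl

lemma fc_val {w : Cf} (hw : w ∈ Val) (x : V) : fc (Cl (red w) x) w ∈ Val := by
  refine ⟨fun u v e => ?_, fun _ => trivial⟩
  by_cases h : red w u = red w v
  · exact Or.inl (by
      rw [show (fc _ w u).1 = _ from congrFun (red_fc _ w) u,
        show (fc _ w v).1 = _ from congrFun (red_fc _ w) v, h])
  · have := (hw.1 u v e).resolve_left h
    refine Or.inr ?_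
    simp only [fc, mem_Cl_iff, Cl_adj e h]
    split_ifs <;> simp [this]

lemma th_tg {w : Cf} (hw : w ∈ Val) (U : Set V) : Th (red w) (tg U w) := fun x y e h => by
  unfold tg
  rw [Cl_adj e h, (hw.1 x y e).resolve_left h]

lemma abs_tg (U : Set V) (w : Cf) (x : V) : |tg U w x| ≤ 1 := by
  unfold tg sg; split_ifs <;> simp

lemma sgn {ρ : V → Set Bool} {W U : Set V} (hU : U.Finite) (hW : U ⊆ W) (r : V → Bool) :
    Sgn (MS ρ W ∩ {y | red y = r}) (Cs r hU) ts fc where
  pm C w := by unfold ts; split_ifs <;> simp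
  mem C hC w hw := by
    obtain ⟨h1, x, rfl⟩ := mem_Cs.1 hC
    obtain ⟨hw, rfl⟩ := hw
    refine ⟨⟨(fc_val (Sp_val hw) x).1, fun v => ⟨?_, fun hv => ?_⟩⟩, red_fc _ _⟩
    · rw [show (fc _ w v).1 = (w v).1 from congrFun (red_fc _ w) v]
      exact (hw.2 v).1
    · rw [fc, if_neg fun h => hv (hW (h1 h))]
      exact (hw.2 v).2 hv
  inv C _ w _ := by
    funext v
    by_cases h : v ∈ C <;> simp [fc, h]
  neg C hC w hw := by
    obtain ⟨-, x, rfl⟩ := mem_Cs.1 hC
    obtain ⟨hw, rfl⟩ := hw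
    have := ts_eq (fc_val (Sp_val hw) x) x
    rw [red_fc] at this
    rw [this, ts_eq (Sp_val hw), fc, if_pos (mem_Cl _ x)]
    cases (w x).2 <;> simp [sg]
  fix C hC D hD e w hw := by
    obtain ⟨-, x, rfl⟩ := mem_Cs.1 hC
    obtain ⟨-, y, rfl⟩ := mem_Cs.1 hD
    obtain ⟨hw, rfl⟩ := hw
    have := ts_eq (fc_val (Sp_val hw) x) y
    rw [red_fc] at this
    rw [this, ts_eq (Sp_val hw), fc, if_neg fun h => e (mem_Cl_iff.1 h).symm]

lemma tg_fc {U : Set V} {hU : U.Finite} {w : Cf} {C : Set V} (hC : C ∈ Cs (red w) hU) :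
    tg U (fc C w) = tg U w := by
  obtain ⟨h1, x, rfl⟩ := mem_Cs.1 hC
  funext v
  unfold tg
  rw [red_fc]
  split_ifs with h
  · rfl
  · rw [fc, if_neg fun h' => h (mem_Cl_iff.1 h' ▸ h1)]

/-- the expansion of the height -/
lemma gr_eq {w : Cf} (hw : w ∈ Val) {U : Set V} (hU : U.Finite) (o v : V) :
    (gr w v : ℝ) - gr w o =
      pot (red w) o (tg U w) v + ∑ C ∈ Cs (red w) hU, ts C w * co (red w) o C v := by
  have p := (pot_spec (th_tg hw U) o).2.add
    (Pt.sum (Cs (red w) hU) (fun C => ts C w) fun C hC => (co_spec hC o).2)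
  have e : (fun x => tg U w x + ∑ C ∈ Cs (red w) hU, ts C w * C.indicator 1 x) =
      fun x => sg (w x).2 := funext fun x => by
    rw [sum_ind hU fun C => ts C w, tg, ts_eq hw]
    split_ifs <;> simp
  rw [e] at p
  refine (pt_gr hw).uniq p (o := o) ?_ v
  rw [(pot_spec (th_tg hw U) o).1, Finset.sum_eq_zero fun C hC => by
    rw [(co_spec hC o).1, mul_zero]]
  simp

lemma lin_eq {w : Cf} (hw : w ∈ Val) {U : Set V} (hU : U.Finite) (s : Finset V) (f : V → ℝ)
    (o : V) : lin s f o w = ∑ v ∈ s, f v * pot (red w) o (tg U w) v +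
      ∑ C ∈ Cs (red w) hU, (∑ v ∈ s, f v * co (red w) o C v) * ts C w := by
  simp only [lin, gr_eq hw hU, mul_add, Finset.sum_add_distrib, Finset.mul_sum, Finset.sum_mul]
  rw [Finset.sum_comm]
  congr 1
  exact Finset.sum_congr rfl fun _ _ => Finset.sum_congr rfl fun _ _ => by ring

lemma quad_le {ι : Type} (S : Finset ι) (s : Finset V) (f f' : V → ℝ) (a : ι → V → ℝ) :
    |∑ C ∈ S, (∑ v ∈ s, f v * a C v) * ∑ v ∈ s, f' v * a C v| ≤
      ∑ u ∈ s, ∑ v ∈ s, |f u| * |f' v| * ∑ C ∈ S, |a C u| * |a C v| := by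
  simp only [Finset.sum_mul_sum]
  rw [Finset.sum_comm]
  refine (Finset.abs_sum_le_sum_abs _ _).trans (Finset.sum_le_sum fun u _ => ?_)
  rw [Finset.sum_comm]
  refine (Finset.abs_sum_le_sum_abs _ _).trans (Finset.sum_le_sum fun v _ => ?_)
  rw [Finset.mul_sum]
  refine (Finset.abs_sum_le_sum_abs _ _).trans (Finset.sum_le_sum fun C _ => le_of_eq ?_)
  simp only [abs_mul]; ring

lemma scr_pt {w : Cf} {U : Set V} (hU : U.Finite) (ho : o ∉ U) {u : V} {a m : ℤ}
    (h : Scr w u a (Bx u m)ᶜ) : ∃ u' ∈ KK Uᶜ w (Tn Uᶜ (Bx u a) w), ∀ C ∈ Cs (red w) hU,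
      co (red w) o C u = co (red w) o C u' ∨ (a ≠ 0 ∧ u ∈ Bx u m ∧ C ⊆ Bx u m) := by
  obtain ⟨u', h1, h2⟩ := exists_Tn (O := Uᶜ) ho w u (a := a) (h.elim Eq.ge And.left)
  refine ⟨u', h2, fun C hC => ?_⟩
  by_cases h0 : a = 0
  · refine Or.inl (congrArg _ (Prod.ext ?_ ?_)) <;> rw [mem_Bx] at h1 <;> omega
  obtain ⟨ha, s, hs⟩ := h.resolve_left h0
  have uu : u ∈ Bx u a := by rw [mem_Bx]; omega
  by_cases hx : ∀ x ∈ Bx u a, x ∉ C
  · exact Or.inl (co_const hC hx (Rec_conn uu h1))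
  · push Not at hx
    obtain ⟨x, hx, hxC⟩ := hx
    obtain ⟨-, y, rfl⟩ := mem_Cs.1 hC
    exact Or.inr ⟨h0, not_not.1 fun h => hs u uu u h (NConn.refl trivial), fun z hz =>
      not_not.1 fun h => hs x hx z h (Cl_nconn s (Cl_eq hxC ▸ hz))⟩

lemma pot_sep {w : Cf} (hw : w ∈ Val) {U B : Set V} {s : Bool} (h : Sep (lev (red w) s) B Uᶜ)
    {u v : V} (c : Conn B u v) : pot (red w) o (tg U w) u = pot (red w) o (tg U w) v :=
  (pot_spec (th_tg hw U) o).2.const (fun x hx => if_pos fun y hy =>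
    not_not.1 fun h' => h x hx y h' (Cl_nconn s hy)) c

end Khi

open Khi

theorem khiSt : KhiSt := by
  refine ⟨fun q => 2 ^ (2 * q) * (4 * (2 * q).factorial), fun q => by positivity,
    fun ρ W Uf o hT hU => ?_⟩
  have fU : ∀ r, (Uf r).Finite := fun r => hT.fin.subset (hU r).1
  refine ⟨fun w => pot (red w) o (tg (Uf (red w)) w), fun w u v =>
    ∑ C ∈ Cs (red w) (fU (red w)), |co (red w) o C u| * |co (red w) o C v|, fun q s f => ?_,
    fun s f f' => ?_, fun w u v => by positivity, fun w _ u v a b m h1 h2 h3 => ?_,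
    fun w hw B s u v h c => pot_sep (Sp_val hw) h c, fun w hw u a h => ?_⟩
  · rw [← ex_mul]
    refine ex_fib_le red fun x hx => ?_
    have ok : Ok (MS ρ W ∩ {y | red y = red x}) := Ok.inter hT.ok.1 hx rfl
    have m := (sgn (ρ := ρ) (fU (red x)) (hU _).1 (red x)).mom
      (fun C => ∑ v ∈ s, f v * co (red x) o C v) q
    have k := quad_le (Cs (red x) (fU (red x))) s f f (co (red x) o)
    simp only [← sq] at k
    have k' := pow_le_pow_left₀ (by positivity) ((le_abs_self _).trans k) q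
    have f1 : (1 : ℝ) ≤ (2 * q).factorial := by exact_mod_cast Nat.factorial_pos _
    refine le_trans (ex_mono (g := fun w => 2 ^ (2 * q) *
      ((∑ v ∈ s, f v * pot (red w) o (tg (Uf (red w)) w) v) ^ (2 * q) +
      (∑ C ∈ Cs (red x) (fU (red x)), (∑ v ∈ s, f v * co (red x) o C v) * ts C w) ^ (2 * q)))
      fun w hw => ?_) ?_
    · have e : red w = red x := hw.2
      rw [lin_eq (Sp_val hw.1) (fU (red w)), ← e]
      refine ((even_two_mul q).add_pow_le).trans (mul_le_mul_of_nonneg_right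
        (pow_le_pow_right₀ (by norm_num) (by omega))
        (add_nonneg ((even_two_mul q).pow_nonneg _) ((even_two_mul q).pow_nonneg _)))
    · rw [ex_mul, ex_mul, ex_add, ex_add, mul_assoc]
      refine mul_le_mul_of_nonneg_left ?_ (by positivity)
      rw [ex_congr (f := fun w => (∑ u ∈ s, ∑ v ∈ s, |f u| * |f v| *
        ∑ C ∈ Cs (red w) (fU (red w)), |co (red w) o C u| * |co (red w) o C v|) ^ q)
        (g := fun _ => (∑ u ∈ s, ∑ v ∈ s, |f u| * |f v| *
        ∑ C ∈ Cs (red x) (fU (red x)), |co (red x) o C u| * |co (red x) o C v|) ^ q)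
        fun w hw => by rw [show red w = red x from hw.2], ex_const ok, mul_add]
      refine add_le_add (le_mul_of_one_le_left
        (ex_nonneg fun _ _ => (even_two_mul q).pow_nonneg _) (by linarith))
        (m.trans (mul_le_mul_of_nonneg_left k' (by positivity)))
  · have key : ∀ x ∈ MS ρ W, |Ex (MS ρ W ∩ {y | red y = red x})
        fun w => lin s f o w * lin s f' o w| ≤ Ex (MS ρ W ∩ {y | red y = red x}) fun w =>
        |∑ v ∈ s, f v * pot (red w) o (tg (Uf (red w)) w) v| *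
          |∑ v ∈ s, f' v * pot (red w) o (tg (Uf (red w)) w) v| + ∑ u ∈ s, ∑ v ∈ s, |f u| * |f' v| *
          ∑ C ∈ Cs (red w) (fU (red w)), |co (red w) o C u| * |co (red w) o C v| := by
      intro x hx
      have ok : Ok (MS ρ W ∩ {y | red y = red x}) := Ok.inter hT.ok.1 hx rfl
      have inv : ∀ g : V → ℝ, ∀ C ∈ Cs (red x) (fU (red x)), ∀ w ∈ MS ρ W ∩ {y | red y = red x},
          ∑ v ∈ s, g v * pot (red x) o (tg (Uf (red x)) (fc C w)) v =
            ∑ v ∈ s, g v * pot (red x) o (tg (Uf (red x)) w) v := fun g C hC w hw => by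
        have e : red w = red x := hw.2
        rw [tg_fc (hU := fU (red x)) (e ▸ hC)]
      have c := (sgn (ρ := ρ) (fU (red x)) (hU _).1 (red x)).cov ok
        (fun C => ∑ v ∈ s, f v * co (red x) o C v) (fun C => ∑ v ∈ s, f' v * co (red x) o C v)
        (A := fun w => ∑ v ∈ s, f v * pot (red x) o (tg (Uf (red x)) w) v)
        (A' := fun w => ∑ v ∈ s, f' v * pot (red x) o (tg (Uf (red x)) w) v) (inv f) (inv f')
      rw [ex_congr fun w hw => by
        rw [lin_eq (Sp_val hw.1) (fU (red x)), lin_eq (Sp_val hw.1) (fU (red x)),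
          show red w = red x from hw.2], c,
        ex_congr (f := fun w => |∑ v ∈ s, f v * pot (red w) o (tg (Uf (red w)) w) v| * _ + _)
          fun w hw => by rw [show red w = red x from hw.2], ex_add, ex_const ok]
      refine (abs_add_le _ _).trans (add_le_add ((abs_ex_le _ _).trans
        (ex_mono fun w _ => (abs_mul _ _).le)) (quad_le _ s f f' _))
    rw [ex_fib _ red, ex_fib (MS ρ W) red fun w => _ + _]
    exact (abs_ex_le _ _).trans (ex_mono key)
  · obtain ⟨u', hu', e1⟩ := scr_pt (fU (red w)) (hU _).2.2 h1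
    obtain ⟨v', hv', e2⟩ := scr_pt (fU (red w)) (hU _).2.2 h2
    have b1 := sum_co_le (fU (red w)) (hU _).2.1 (hU _).2.2 hu'
    have b2 := sum_co_le (fU (red w)) (hU _).2.1 (hU _).2.2 hv'
    refine le_trans (Finset.sum_le_sum (g := fun C => |co (red w) o C u'| *
      ∑ D ∈ Cs (red w) (fU (red w)), |co (red w) o D v'|) fun C hC => ?_) ?_
    · have p : 0 ≤ |co (red w) o C u'| * ∑ D ∈ Cs (red w) (fU (red w)), |co (red w) o D v'| := by
        positivity
      rcases e1 C hC with a1 | ⟨a0, a1, a2⟩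
      · rcases e2 C hC with a3 | ⟨b0, a3, a4⟩
        · rw [a1, a3]
          exact mul_le_mul_of_nonneg_left (Finset.single_le_sum
            (f := fun D => |co (red w) o D v'|) (fun _ _ => abs_nonneg _) hC) (abs_nonneg _)
        · rw [co_far (hU _).2.1 (hU _).2.2 hC a4 (v := u) fun h =>
            Set.disjoint_left.1 (h3.resolve_left fun h => b0 h.2)
              (by rw [mem_Bx] at a3 ⊢; omega) h, abs_zero, zero_mul]
          exact p
      · rw [co_far (hU _).2.1 (hU _).2.2 hC a2 (v := v) fun h =>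
          Set.disjoint_left.1 (h3.resolve_left fun h => a0 h.1) h
            (by rw [mem_Bx] at a1 ⊢; omega), abs_zero, mul_zero]
        exact p
    · rw [← Finset.sum_mul]
      refine (mul_le_mul b1 b2 (by positivity) (by positivity)).trans ?_
      have p1 : (0 : ℝ) ≤ Tn (Uf (red w))ᶜ (Bx u a) w := Nat.cast_nonneg _
      have p2 : (0 : ℝ) ≤ Tn (Uf (red w))ᶜ (Bx v b) w := Nat.cast_nonneg _
      nlinarith [mul_nonneg p1 p2]
  · obtain ⟨u', h1, h2⟩ := exists_Tn (O := (Uf (red w))ᶜ) (hU _).2.2 w u (a := a)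
      (h.elim Eq.ge And.left)
    have hv := Sp_val hw
    obtain ⟨o', ho', b, cp⟩ := (pot_spec (th_tg hv (Uf (red w))) o).2.KKp (th_tg hv _)
      (abs_tg _ _) (pt_gr (o := o) hv) (fun x y e h => by
        rw [(hv.1 x y e).resolve_left h]) (fun x => by unfold sg; split_ifs <;> simp) _ u' h2
    have e : pot (red w) o (tg (Uf (red w)) w) u = pot (red w) o (tg (Uf (red w)) w) u' := by
      rcases h with rfl | ⟨ha, s, hs⟩
      · refine congrArg _ (Prod.ext ?_ ?_) <;> rw [mem_Bx] at h1 <;> omega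
      · exact pot_sep hv hs (Rec_conn (show u ∈ Bx u a by rw [mem_Bx]; omega) h1)
    have p1 : (0 : ℝ) ≤ Tn (Uf (red w))ᶜ (Bx u a) w := Nat.cast_nonneg _
    refine ⟨o', ho', ?_, u', h1, cp.mono fun y hy => ?_⟩
    · rw [Khi.gr_eq hv (fU (red w)), Finset.sum_eq_zero fun C hC => by
        rw [co_out (hU _).2.1 (hU _).2.2 hC ho', mul_zero], add_zero]
      beta_reduce
      rw [e]
      linarith
    · have hy' : |(gr w y : ℝ) - gr w o - (gr w o' - gr w o)| ≤ _ := hy
      rw [sub_sub_sub_cancel_right] at hy'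
      have : ((|gr w y - gr w o'| : ℤ) : ℝ) ≤
          ((5 * ((Tn (Uf (red w))ᶜ (Bx u a) w : ℤ) + 1) : ℤ) : ℝ) := by
        push_cast; linarith
      exact_mod_cast this

end Pool.Agent.Lib.MP_6359c9_pr
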