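import Mathlib

/-! The triangular lattice: adjacency, connections inside a set, exactness of closed forms,
the four colour winding lemma, the Hex lemma and the interlacing lemma. -/

namespace Pool.Agent.Lib.MP_6359c9_pr

/-- vertices of the triangular lattice: `(a, b)` sits at `a + b exp (i pi / 3)` -/
abbrev V := ℤ × ℤ

/-- adjacency in the triangular lattice -/
def Adj (u v : V) : Prop :=
  (v.1 = u.1 + 1 ∧ v.2 = u.2) ∨ (v.1 = u.1 - 1 ∧ v.2 = u.2) ∨ (v.1 = u.1 ∧ v.2 = u.2 + 1) ∨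
    (v.1 = u.1 ∧ v.2 = u.2 - 1) ∨ (v.1 = u.1 + 1 ∧ v.2 = u.2 - 1) ∨
    (v.1 = u.1 - 1 ∧ v.2 = u.2 + 1)

instance : DecidableRel Adj := fun u v => by unfold Adj; infer_instance

lemma Adj.symm {u v : V} (h : Adj u v) : Adj v u := by unfold Adj at *; omega

lemma Adj.ne {u v : V} (h : Adj u v) : u ≠ v := by
  rintro rfl; unfold Adj at h; omega

/-- `u` and `v` are joined by a lattice path inside `S` -/
def Conn (S : Set V) (u v : V) : Prop :=
  u ∈ S ∧ Relation.ReflTransGen (fun a b => Adj a b ∧ b ∈ S) u v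

namespace Conn

variable {S T : Set V} {u v w : V}

lemma refl (h : u ∈ S) : Conn S u u := ⟨h, Relation.ReflTransGen.refl⟩

lemma left (h : Conn S u v) : u ∈ S := h.1

lemma right (h : Conn S u v) : v ∈ S := by
  obtain ⟨h1, h2⟩ := h
  induction h2 with
  | refl => exact h1
  | tail _ h _ => exact h.2

lemma tail (h : Conn S u v) (a : Adj v w) (hw : w ∈ S) : Conn S u w :=
  ⟨h.1, h.2.tail ⟨a, hw⟩⟩

lemma trans (h : Conn S u v) (h' : Conn S v w) : Conn S u w := ⟨h.1, h.2.trans h'.2⟩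

lemma single (hu : u ∈ S) (a : Adj u v) (hv : v ∈ S) : Conn S u v := (refl hu).tail a hv

lemma head (hu : u ∈ S) (a : Adj u v) (h : Conn S v w) : Conn S u w :=
  (single hu a h.1).trans h

/-- induction along a connection -/
lemma ind {P : V → Prop} (h : Conn S u v) (h0 : P u)
    (hs : ∀ a b, Conn S u a → Adj a b → b ∈ S → P a → P b) : P v := by
  obtain ⟨h1, h2⟩ := h
  induction h2 with
  | refl => exact h0
  | tail h3 h4 ih => exact hs _ _ ⟨h1, h3⟩ h4.1 h4.2 ih

lemma symm (h : Conn S u v) : Conn S v u :=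
  h.ind (P := fun x => Conn S x u) (refl h.1) fun _ _ _ a hb ih => head hb a.symm ih

lemma mono (h : Conn S u v) (hS : S ⊆ T) : Conn T u v :=
  h.ind (P := fun x => Conn T u x) (refl (hS h.1)) fun _ _ _ a hb ih => ih.tail a (hS hb)

lemma map (h : Conn S u v) {f : V → V} (hf : ∀ a b, Adj a b → Adj (f a) (f b))
    (hS : ∀ a ∈ S, f a ∈ T) : Conn T (f u) (f v) :=
  h.ind (P := fun x => Conn T (f u) (f x)) (refl (hS _ h.1))
    fun _ _ _ a hb ih => ih.tail (hf _ _ a) (hS _ hb)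

/-- a connection stays inside the cluster of its starting point -/
lemma cluster (h : Conn S u v) : Conn {x | Conn S u x} u v :=
  h.ind (P := fun x => Conn {x | Conn S u x} u x) (refl (refl h.1))
    fun _ _ ha a hb ih => ih.tail a (ha.tail a hb)

/-- a function constant along the edges of `S` is constant along connections -/
lemma const {α : Type} {f : V → α} (h : Conn S u v)
    (hf : ∀ a ∈ S, ∀ b ∈ S, Adj a b → f a = f b) : f u = f v :=
  h.ind (P := fun x => f u = f x) rfl fun a b ha ab hb ih => ih.trans (hf a ha.right b hb ab)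

/-- first exit from `T` -/
lemma exit (h : Conn S u v) (hu : u ∈ T) (hv : v ∉ T) :
    ∃ a b, Conn (S ∩ T) u a ∧ Adj a b ∧ b ∉ T ∧ Conn S b v := by
  have key : Conn (S ∩ T) u v ∨ ∃ a b, Conn (S ∩ T) u a ∧ Adj a b ∧ b ∉ T ∧ Conn S b v := by
    refine h.ind (P := fun x => Conn (S ∩ T) u x ∨
      ∃ a b, Conn (S ∩ T) u a ∧ Adj a b ∧ b ∉ T ∧ Conn S b x) (Or.inl (refl ⟨h.1, hu⟩)) ?_
    rintro a b _ ab hb (ih | ⟨c, d, h1, h2, h3, h4⟩)
    · by_cases hT : b ∈ T
      · exact Or.inl (ih.tail ab ⟨hb, hT⟩)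
      · exact Or.inr ⟨a, b, ih, ab, hT, refl hb⟩
    · exact Or.inr ⟨c, d, h1, h2, h3, h4.tail ab hb⟩
  rcases key with h1 | h1
  · exact absurd h1.right.2 hv
  · exact h1

/-- last entrance into `T` -/
lemma entry (h : Conn S u v) (hu : u ∉ T) (hv : v ∈ T) :
    ∃ a b, Conn S u a ∧ a ∉ T ∧ Adj a b ∧ Conn (S ∩ T) b v := by
  obtain ⟨a, b, h1, h2, h3, h4⟩ := h.symm.exit hv hu
  exact ⟨b, a, h4.symm, h3, h2.symm, h1.symm⟩

/-- a connection avoids `T` or hits it a first time -/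
lemma hit (h : Conn S u v) (T : Set V) :
    Conn (S \ T) u v ∨ ∃ a ∈ T, Conn ((S \ T) ∪ {a}) u a ∧ Conn S a v := by
  by_cases hu : u ∈ T
  · exact Or.inr ⟨u, hu, refl (Or.inr rfl), h⟩
  refine h.ind (P := fun x => Conn (S \ T) u x ∨
    ∃ a ∈ T, Conn ((S \ T) ∪ {a}) u a ∧ Conn S a x) (Or.inl (refl ⟨h.1, hu⟩)) ?_
  rintro a b _ ab hb (ih | ⟨c, h1, h2, h3⟩)
  · by_cases hT : b ∈ T
    · exact Or.inr ⟨b, hT, (ih.mono Set.subset_union_left).tail ab (Or.inr rfl), refl hb⟩
    · exact Or.inl (ih.tail ab ⟨hb, hT⟩)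
  · exact Or.inr ⟨c, h1, h2, h3.tail ab hb⟩

/-- a connection uses finitely many vertices -/
lemma finite (h : Conn S u v) : ∃ F : Finset V, (F : Set V) ⊆ S ∧ Conn F u v := by
  classical
  refine h.ind (P := fun x => ∃ F : Finset V, (F : Set V) ⊆ S ∧ Conn F u x)
    ⟨{u}, by simpa using h.1, refl (by simp)⟩ ?_
  rintro a b _ ab hb ⟨F, h1, h2⟩
  refine ⟨insert b F, ?_, (h2.mono ?_).tail ab (by simp)⟩
  · intro x hx
    rcases Finset.mem_insert.1 hx with rfl | hx
    · exact hb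
    · exact h1 hx
  · intro x hx
    exact Finset.mem_insert_of_mem hx

end Conn

/-- straight segments in a lattice direction -/
lemma conn_line {S : Set V} (p d : V) (hd : Adj 0 d) (n : ℕ)
    (h : ∀ k : ℤ, 0 ≤ k → k ≤ n → (p.1 + k * d.1, p.2 + k * d.2) ∈ S) :
    Conn S p (p.1 + n * d.1, p.2 + n * d.2) := by
  induction n with
  | zero => simpa using Conn.refl (by simpa using h 0 le_rfl (by simp))
  | succ n ih =>
    refine (ih fun k h0 h1 => h k h0 (by push_cast; omega)).tail ?_ (h _ (by positivity) le_rfl)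
    unfold Adj at hd ⊢
    simp only [Prod.fst_zero, Prod.snd_zero, zero_add, zero_sub] at hd
    push_cast
    rcases hd with h | h | h | h | h | h <;> rw [h.1, h.2] <;> omega

lemma conn_row {S : Set V} {x x' y : ℤ} (hx : x ≤ x')
    (h : ∀ k, x ≤ k → k ≤ x' → (k, y) ∈ S) : Conn S (x, y) (x', y) := by
  obtain ⟨n, rfl⟩ := Int.le.dest hx
  simpa using conn_line (S := S) (x, y) (1, 0) (by decide) n fun k h0 h1 => by
    simpa using h _ (by omega) (by omega)

lemma conn_col {S : Set V} {x y y' : ℤ} (hy : y ≤ y')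
    (h : ∀ k, y ≤ k → k ≤ y' → (x, k) ∈ S) : Conn S (x, y) (x, y') := by
  obtain ⟨n, rfl⟩ := Int.le.dest hy
  simpa using conn_line (S := S) (x, y) (0, 1) (by decide) n fun k h0 h1 => by
    simpa using h _ (by omega) (by omega)

lemma conn_diag {S : Set V} {s y y' : ℤ} (hy : y ≤ y')
    (h : ∀ k, y ≤ k → k ≤ y' → (s - k, k) ∈ S) : Conn S (s - y, y) (s - y', y') := by
  obtain ⟨n, rfl⟩ := Int.le.dest hy
  have := conn_line (S := S) (s - y, y) (-1, 1) (by decide) n fun k h0 h1 => by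
    have := h (y + k) (by omega) (by omega)
    simpa [sub_add_eq_sub_sub, sub_eq_add_neg, add_assoc, add_comm, add_left_comm] using this
  simpa [sub_add_eq_sub_sub, sub_eq_add_neg, add_assoc, add_comm, add_left_comm] using this

lemma int_prim {A : Type} [AddCommGroup A] (f : ℤ → A) (a : A) :
    ∃ G : ℤ → A, G 0 = a ∧ ∀ n, G (n + 1) = G n + f n := by
  refine ⟨fun n => a + (∑ k ∈ Finset.Ico 0 n, f k) - ∑ k ∈ Finset.Ico n 0, f k, by simp,
    fun n => ?_⟩
  beta_reduce
  rcases le_or_gt 0 n with h | h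
  · rw [Finset.Ico_eq_empty_of_le h, Finset.Ico_eq_empty_of_le (by omega : (0 : ℤ) ≤ n + 1),
      ← Finset.insert_Ico_right_eq_Ico_add_one h, Finset.sum_insert (by simp)]
    simp only [Finset.sum_empty]; abel
  · rw [Finset.Ico_eq_empty_of_le h.le, Finset.Ico_eq_empty_of_le (by omega : n + 1 ≤ 0),
      ← Finset.insert_Ico_add_one_left_eq_Ico h, Finset.sum_insert (by simp)]
    simp only [Finset.sum_empty]; abel

/-- closed forms are exact -/
lemma exact {A : Type} [AddCommGroup A] (ω : V → V → A)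
    (h1 : ∀ u v, Adj u v → ω v u = -ω u v)
    (h2 : ∀ u v w, Adj u v → Adj v w → Adj u w → ω u v + ω v w = ω u w) :
    ∃ g : V → A, ∀ u v, Adj u v → g v = g u + ω u v := by
  obtain ⟨G, -, hG⟩ := int_prim (fun y => ω (0, y) (0, y + 1)) 0
  choose H hH0 hH using fun y : ℤ => int_prim (fun x => ω (x, y) (x + 1, y)) (G y)
  have hv : ∀ y x, H (y + 1) x = H y x + ω (x, y) (x, y + 1) := by
    intro y
    have step : ∀ x : ℤ, H (y + 1) (x + 1) - (H y (x + 1) + ω (x + 1, y) (x + 1, y + 1)) =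
        H (y + 1) x - (H y x + ω (x, y) (x, y + 1)) := by
      intro x
      have a1 := h2 (x, y) (x + 1, y) (x, y + 1) (by simp [Adj]) (by simp [Adj]) (by simp [Adj])
      have a2 := h2 (x + 1, y) (x, y + 1) (x + 1, y + 1) (by simp [Adj]) (by simp [Adj])
        (by simp [Adj])
      rw [hH, hH, ← a1, ← a2]; abel
    intro x
    rw [← sub_eq_zero]
    induction x using Int.induction_on with
    | zero => rw [hH0, hH0, hG, sub_self]
    | succ n ih => rw [step, ih]
    | pred n ih =>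
      have := step (-(n : ℤ) - 1)
      rw [sub_add_cancel] at this
      rw [← this, ih]
  have hd : ∀ x y : ℤ, H (y + 1) x = H y (x + 1) + ω (x + 1, y) (x, y + 1) := by
    intro x y
    have a1 := h2 (x, y) (x + 1, y) (x, y + 1) (by simp [Adj]) (by simp [Adj]) (by simp [Adj])
    rw [hv, hH, ← a1]; abel
  have key : ∀ u v : V, (v.1 = u.1 + 1 ∧ v.2 = u.2) ∨ (v.1 = u.1 ∧ v.2 = u.2 + 1) ∨
      (v.1 = u.1 - 1 ∧ v.2 = u.2 + 1) → H v.2 v.1 = H u.2 u.1 + ω u v := by
    rintro ⟨a, b⟩ ⟨c, d⟩ (⟨h, h'⟩ | ⟨h, h'⟩ | ⟨h, h'⟩) <;> simp only at h h' ⊢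
    · subst h h'; exact hH _ _
    · subst h h'; exact hv _ _
    · obtain rfl : a = c + 1 := by omega
      subst h'; exact hd _ _
  refine ⟨fun v => H v.2 v.1, fun u v huv => ?_⟩
  by_cases h : (v.1 = u.1 + 1 ∧ v.2 = u.2) ∨ (v.1 = u.1 ∧ v.2 = u.2 + 1) ∨
      (v.1 = u.1 - 1 ∧ v.2 = u.2 + 1)
  · exact key u v h
  · have := key v u (by unfold Adj at huv; omega)
    simp only
    rw [this, h1 u v huv]; abel

/-- a colouring by residues mod four with no opposite neighbours lifts to a height function -/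
lemma lift (k : V → ℤ) (hk : ∀ u v, Adj u v → (k v - k u) % 4 ≠ 2) :
    ∃ g : V → ℤ, (∀ v, g v % 4 = k v % 4) ∧ ∀ u v, Adj u v → g v = g u + ((k v - k u + 1) % 4 - 1) := by
  obtain ⟨g, hg⟩ := exact (fun u v => (k v - k u + 1) % 4 - 1)
    (fun u v h => by have := hk u v h; omega)
    (fun u v w h1 h2 h3 => by
      have := hk u v h1; have := hk v w h2; have := hk u w h3; omega)
  refine ⟨fun v => g v - g 0 + k 0, fun v => ?_, fun u v h => by
    beta_reduce; rw [hg u v h]; ring⟩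
  have hc : Conn Set.univ 0 v := by
    have h1 : Conn Set.univ ((0 : ℤ), (0 : ℤ)) (v.1, 0) := by
      rcases le_total 0 v.1 with h | h
      · exact conn_row h fun _ _ _ => trivial
      · exact (conn_row (S := Set.univ) h fun _ _ _ => trivial).symm
    have h2 : Conn Set.univ (v.1, (0 : ℤ)) (v.1, v.2) := by
      rcases le_total 0 v.2 with h | h
      · exact conn_col h fun _ _ _ => trivial
      · exact (conn_col (S := Set.univ) h fun _ _ _ => trivial).symm
    exact h1.trans h2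
  refine hc.ind (P := fun x => (g x - g 0 + k 0) % 4 = k x % 4) (by simp) ?_
  intro a b _ ab _ ih
  have := hg a b ab
  omega

/-- no winding: four classes, opposite ones not adjacent; a path from class one to class three
that avoids class two and a path that avoids class zero cannot have joined ends -/
lemma four' {P0 P1 P2 P3 : Set V} (cover : ∀ v, v ∈ P0 ∨ v ∈ P1 ∨ v ∈ P2 ∨ v ∈ P3)
    (d01 : Disjoint P0 P1) (d02 : Disjoint P0 P2) (d03 : Disjoint P0 P3) (d12 : Disjoint P1 P2)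
    (d13 : Disjoint P1 P3) (d23 : Disjoint P2 P3)
    (n02 : ∀ u ∈ P0, ∀ v ∈ P2, ¬Adj u v) (n13 : ∀ u ∈ P1, ∀ v ∈ P3, ¬Adj u v)
    {i i' o o' : V} (hi : Conn P1 i i') (ho : Conn P3 o o') (c0 : Conn P2ᶜ i o)
    (c2 : Conn P0ᶜ i' o') : False := by
  classical
  set k : V → ℤ := fun v => if v ∈ P0 then 0 else if v ∈ P1 then 1 else if v ∈ P2 then 2 else 3
    with hk
  have k0 : ∀ v ∈ P0, k v = 0 := fun v h => by simp [hk, h]
  have k1 : ∀ v ∈ P1, k v = 1 := fun v h => by
    simp [hk, h, Set.disjoint_right.1 d01 h]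
  have k2 : ∀ v ∈ P2, k v = 2 := fun v h => by
    simp [hk, h, Set.disjoint_right.1 d02 h, Set.disjoint_right.1 d12 h]
  have k3 : ∀ v ∈ P3, k v = 3 := fun v h => by
    simp [hk, Set.disjoint_right.1 d03 h, Set.disjoint_right.1 d13 h, Set.disjoint_right.1 d23 h]
  have hadj : ∀ u v, Adj u v → (k v - k u) % 4 ≠ 2 := fun u v h => by
    rcases cover u with hu | hu | hu | hu <;> rcases cover v with hv | hv | hv | hv <;>
      first
      | exact absurd h (n02 _ hu _ hv)
      | exact absurd h (n13 _ hu _ hv)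
      | exact absurd h.symm (n02 _ hv _ hu)
      | exact absurd h.symm (n13 _ hv _ hu)
      | (have := k0; have := k1; have := k2; have := k3; grind)
  obtain ⟨g, hm, hg⟩ := lift k hadj
  have g1 : g i = g i' := hi.const fun a ha b hb ab => by
    rw [hg a b ab, k1 a ha, k1 b hb]; simp
  have g3 : g o = g o' := ho.const fun a ha b hb ab => by
    rw [hg a b ab, k3 a ha, k3 b hb]; simp
  have mi := hm i
  have mo := hm o
  rw [k1 _ hi.left] at mi
  rw [k3 _ ho.left] at mo
  have s0 : g i - 2 ≤ g o ∧ g o ≤ g i := by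
    refine c0.ind (P := fun x => g i - 2 ≤ g x ∧ g x ≤ g i) ⟨by omega, le_rfl⟩ ?_
    intro a b _ ab hb ih
    have h1 := hg a b ab
    have h2 := hm b
    have h3 := hadj a b ab
    have h4 : k b = 0 ∨ k b = 1 ∨ k b = 3 := by
      rcases cover b with h | h | h | h
      · exact Or.inl (k0 b h)
      · exact Or.inr (Or.inl (k1 b h))
      · exact absurd h hb
      · exact Or.inr (Or.inr (k3 b h))
    omega
  have s2 : g i' ≤ g o' ∧ g o' ≤ g i' + 2 := by
    refine c2.ind (P := fun x => g i' ≤ g x ∧ g x ≤ g i' + 2) ⟨le_rfl, by omega⟩ ?_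
    intro a b _ ab hb ih
    have h1 := hg a b ab
    have h2 := hm b
    have h3 := hadj a b ab
    have h4 : k b = 1 ∨ k b = 2 ∨ k b = 3 := by
      rcases cover b with h | h | h | h
      · exact absurd h hb
      · exact Or.inl (k1 b h)
      · exact Or.inr (Or.inl (k2 b h))
      · exact Or.inr (Or.inr (k3 b h))
    omega
  omega

/-- no winding: four classes, opposite ones not adjacent, cannot be visited cyclically -/
lemma four {P0 P1 P2 P3 : Set V} (cover : ∀ v, v ∈ P0 ∨ v ∈ P1 ∨ v ∈ P2 ∨ v ∈ P3)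
    (d01 : Disjoint P0 P1) (d02 : Disjoint P0 P2) (d03 : Disjoint P0 P3) (d12 : Disjoint P1 P2)
    (d13 : Disjoint P1 P3) (d23 : Disjoint P2 P3)
    (n02 : ∀ u ∈ P0, ∀ v ∈ P2, ¬Adj u v) (n13 : ∀ u ∈ P1, ∀ v ∈ P3, ¬Adj u v)
    {a0 b0 a1 b1 a2 b2 a3 b3 : V} (c0 : Conn P0 a0 b0) (e0 : Adj b0 a1) (c1 : Conn P1 a1 b1)
    (e1 : Adj b1 a2) (c2 : Conn P2 a2 b2) (e2 : Adj b2 a3) (c3 : Conn P3 a3 b3)
    (e3 : Adj b3 a0) : False := by
  refine four' cover d01 d02 d03 d12 d13 d23 n02 n13 c1 c3.symm ?_ ?_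
  · refine Conn.head (Set.disjoint_left.1 d12 c1.left) e0.symm
      ((c0.symm.mono fun x hx => Set.disjoint_left.1 d02 hx).tail e3.symm
        (Set.disjoint_right.1 d23 c3.right))
  · refine Conn.head (Set.disjoint_right.1 d01 c1.right) e1
      ((c2.mono fun x hx => Set.disjoint_right.1 d02 hx).tail e2
        (Set.disjoint_right.1 d03 c3.left))

end Pool.Agent.Lib.MP_6359c9_pr
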