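import Pool.Agent.Lib.MP_6359c9_pr.LogDefs

/-! Positive contractions: Bernstein positivity, the move lemma, exponential sums. -/

namespace Pool.Agent.Lib.MP_6359c9_pr.Pl

open Filter Topology Polynomial

variable {W : Type} [AddCommGroup W] [Module ℝ W] {B : W →ₗ[ℝ] W →ₗ[ℝ] ℝ} {T : W →ₗ[ℝ] W}

lemma cs_form (Q : W →ₗ[ℝ] W →ₗ[ℝ] ℝ) (hs : ∀ x y, Q x y = Q y x) (hp : ∀ x, 0 ≤ Q x x)
    (x y : W) : (Q x y) ^ 2 ≤ Q x x * Q y y := by
  have h : ∀ t : ℝ, 0 ≤ Q x x * (t * t) + (2 * Q x y) * t + Q y y := by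
    intro t
    have := hp (t • x + y)
    simp only [map_add, map_smul, LinearMap.add_apply, LinearMap.smul_apply, smul_eq_mul] at this
    rw [hs y x] at this
    linarith
  have := discrim_le_zero h
  unfold discrim at this
  nlinarith

lemma abs_le_of_sq_le_mul {a b c : ℝ} (h : a ^ 2 ≤ b * c) (hb : 0 ≤ b) (hc : 0 ≤ c) :
    |a| ≤ (b + c) / 2 := by
  apply abs_le_of_sq_le_sq' _ (by linarith) |> abs_le.mpr
  nlinarith [sq_nonneg (b - c)]

namespace PosCon

lemma cs (h : PosCon B T) (x y : W) : (B x y) ^ 2 ≤ B x x * B y y := cs_form B h.symm h.pos x y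

lemma adj_pow (h : PosCon B T) (n : ℕ) (x y : W) : B ((T ^ n) x) y = B x ((T ^ n) y) := by
  induction n generalizing y with
  | zero => simp
  | succ n ih =>
    rw [pow_succ' T n, Module.End.mul_apply, h.adj, ih, ← Module.End.mul_apply, ← pow_succ,
      pow_succ' T n]

lemma adj_aeval (h : PosCon B T) (p : ℝ[X]) (x y : W) :
    B (aeval T p x) y = B x (aeval T p y) := by
  induction p using Polynomial.induction_on' with
  | add p q hp hq => simp [hp, hq]
  | monomial n c =>
    simp only [aeval_monomial, Module.End.mul_apply, Module.algebraMap_end_apply, map_smul,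
      LinearMap.smul_apply, h.adj_pow]

/-- the polynomial `p` acts as a positive operator -/
def PosP (B : W →ₗ[ℝ] W →ₗ[ℝ] ℝ) (T : W →ₗ[ℝ] W) (p : ℝ[X]) : Prop :=
  ∀ x, 0 ≤ B x (aeval T p x)

lemma posP_sq (h : PosCon B T) {p : ℝ[X]} (hp : PosP B T p) (q : ℝ[X]) :
    PosP B T (q * (p * q)) := by
  intro x
  rw [map_mul, map_mul, Module.End.mul_apply, Module.End.mul_apply, ← h.adj_aeval]
  exact hp _

lemma posP_add {p q : ℝ[X]} (hp : PosP B T p) (hq : PosP B T q) : PosP B T (p + q) := by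
  intro x
  have := hp x
  have := hq x
  simp only [map_add, LinearMap.add_apply]
  linarith

lemma posP_smul {p : ℝ[X]} (hp : PosP B T p) {c : ℝ} (hc : 0 ≤ c) : PosP B T (c • p) := by
  intro x
  have := hp x
  simp only [map_smul, LinearMap.smul_apply, smul_eq_mul]
  positivity

lemma posP_sum {ι : Type} (s : Finset ι) {p : ι → ℝ[X]} (hp : ∀ i ∈ s, PosP B T (p i)) :
    PosP B T (∑ i ∈ s, p i) := by
  intro x
  simp only [map_sum, LinearMap.sum_apply]
  exact Finset.sum_nonneg fun i hi => hp i hi x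

lemma posP_one (h : PosCon B T) : PosP B T 1 := fun x => by simpa using h.pos x

lemma posP_X (h : PosCon B T) : PosP B T X := fun x => by simpa using h.posT x

lemma posP_X_pow (h : PosCon B T) (n : ℕ) : PosP B T (X ^ n) := by
  induction n using Nat.twoStepInduction with
  | zero => simpa using h.posP_one
  | one => simpa using h.posP_X
  | more n ih _ =>
    have := h.posP_sq ih X
    rwa [show X * (X ^ n * X) = (X : ℝ[X]) ^ (n + 2) by ring] at this

lemma pow_nonneg (h : PosCon B T) (n : ℕ) (x : W) : 0 ≤ B x ((T ^ n) x) := by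
  simpa using h.posP_X_pow n x

lemma posP_one_sub (h : PosCon B T) : PosP B T (1 - X) := by
  intro x
  by_contra hc
  simp only [map_sub, map_one, aeval_X, LinearMap.sub_apply, Module.End.one_apply, not_le] at hc
  obtain ⟨C, hC⟩ := h.bdd x
  set p : ℕ → ℝ := fun n => B x ((T ^ n) x) with hp
  have conv : ∀ n, p (n + 1) - p n ≤ p (n + 2) - p (n + 1) := by
    intro n
    have := h.posP_sq (h.posP_X_pow n) (1 - X) x
    rw [show (1 - X) * (X ^ n * (1 - X)) = (X : ℝ[X]) ^ n - X ^ (n + 1) - X ^ (n + 1) + X ^ (n + 2)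
      by ring] at this
    simp only [map_add, map_sub, map_pow, aeval_X, LinearMap.add_apply,
      LinearMap.sub_apply] at this
    simp only [hp]
    linarith
  have inc : ∀ n, p 1 - p 0 ≤ p (n + 1) - p n := by
    intro n
    induction n with
    | zero => exact le_rfl
    | succ n ih => exact ih.trans (conv n)
  have lin : ∀ n : ℕ, p 0 + n * (p 1 - p 0) ≤ p n := by
    intro n
    induction n with
    | zero => simp
    | succ n ih => have := inc n; push_cast; linarith
  have d : 0 < p 1 - p 0 := by simp only [hp, pow_one, pow_zero, Module.End.one_apply]; linarith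
  obtain ⟨n, hn⟩ := exists_nat_gt ((C - p 0) / (p 1 - p 0))
  rw [div_lt_iff₀ d] at hn
  have := lin n
  have := hC n
  simp only [hp] at *
  linarith

lemma posP_mix (h : PosCon B T) (k l : ℕ) : PosP B T (X ^ k * (1 - X) ^ l) := by
  induction l using Nat.twoStepInduction with
  | zero => simpa using h.posP_X_pow k
  | one =>
    induction k using Nat.twoStepInduction with
    | zero => simpa using h.posP_one_sub
    | one =>
      have := posP_add (h.posP_sq h.posP_X (1 - X)) (h.posP_sq h.posP_one_sub X)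
      rwa [show (1 - X) * (X * (1 - X)) + X * ((1 - X) * X) = (X : ℝ[X]) ^ 1 * (1 - X) ^ 1
        by ring] at this
    | more k ih _ =>
      have := h.posP_sq ih X
      rwa [show X * (X ^ k * (1 - X) ^ 1 * X) = (X : ℝ[X]) ^ (k + 2) * (1 - X) ^ 1
        by ring] at this
  | more l ih _ =>
    have := h.posP_sq ih (1 - X)
    rwa [show (1 - X) * (X ^ k * (1 - X) ^ l * (1 - X)) = (X : ℝ[X]) ^ k * (1 - X) ^ (l + 2)
      by ring] at this

lemma pow_succ_le (h : PosCon B T) (n : ℕ) (x : W) : B x ((T ^ (n + 1)) x) ≤ B x ((T ^ n) x) := by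
  have := h.posP_mix n 1 x
  rw [show (X : ℝ[X]) ^ n * (1 - X) ^ 1 = X ^ n - X ^ (n + 1) by ring] at this
  simp only [map_sub, map_pow, aeval_X, LinearMap.sub_apply] at this
  linarith

lemma pow_anti (h : PosCon B T) (x : W) : Antitone fun n : ℕ => B x ((T ^ n) x) :=
  antitone_nat_of_succ_le fun n => h.pow_succ_le n x

lemma pow (h : PosCon B T) (m : ℕ) : PosCon B (T ^ m) where
  symm := h.symm
  adj := h.adj_pow m
  pos := h.pos
  posT := h.pow_nonneg m
  bdd := fun x => ⟨B x x, fun n => by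
    rw [← pow_mul]
    simpa using h.pow_anti x (Nat.zero_le (m * n))⟩

lemma posP_bern (h : PosCon B T) (N k : ℕ) : PosP B T (bernsteinPolynomial ℝ N k) := by
  have := posP_smul (h.posP_mix k (N - k)) (c := (N.choose k : ℝ)) (by positivity)
  unfold bernsteinPolynomial
  rwa [smul_eq_C_mul, map_natCast, ← mul_assoc] at this

lemma posP_cs (h : PosCon B T) {p : ℝ[X]} (hp : PosP B T p) (x y : W) :
    (B x (aeval T p y)) ^ 2 ≤ B x (aeval T p x) * B y (aeval T p y) :=
  cs_form (B.compl₂ (aeval T p)) (fun x y => by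
    simp only [LinearMap.compl₂_apply]
    rw [← h.adj_aeval, h.symm]) hp x y

end PosCon

open PosCon

lemma bern_X {N : ℕ} (hN : 0 < N) :
    ∑ k ∈ Finset.range (N + 1), ((k : ℝ) / N) • bernsteinPolynomial ℝ N k = X := by
  have h := bernsteinPolynomial.sum_smul ℝ N
  have hN' : (N : ℝ) ≠ 0 := by positivity
  have : ∑ k ∈ Finset.range (N + 1), ((k : ℝ) / N) • bernsteinPolynomial ℝ N k =
      (N : ℝ)⁻¹ • ∑ k ∈ Finset.range (N + 1), k • bernsteinPolynomial ℝ N k := by
    rw [Finset.smul_sum]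
    refine Finset.sum_congr rfl fun k _ => ?_
    rw [← Nat.cast_smul_eq_nsmul ℝ, smul_smul, div_eq_inv_mul]
  rw [this, h, ← Nat.cast_smul_eq_nsmul ℝ, smul_smul, inv_mul_cancel₀ hN', one_smul]

/-- `X` is, up to a small positive part, a multiple of `X ^ J` -/
theorem move (J : ℕ) {η : ℝ} (hη : 0 < η) : ∃ q : ℝ[X], ∀ (T : W →ₗ[ℝ] W), PosCon B T →
    ∀ x y : W, (B x (T y) - B x (aeval T (X ^ J * q) y)) ^ 2 ≤ η ^ 2 * (B x x * B y y) := by
  obtain ⟨N, hN⟩ := exists_nat_gt (J / η)
  have hN0 : (0 : ℝ) < N := lt_of_le_of_lt (by positivity) hN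
  have hN1 : 0 < N := by exact_mod_cast hN0
  rw [div_lt_iff₀ hη] at hN
  set lo : ℝ[X] := ∑ k ∈ (Finset.range (N + 1)).filter (· < J),
    ((k : ℝ) / N) • bernsteinPolynomial ℝ N k with hlo
  have hd : X ^ J ∣ (X : ℝ[X]) - lo := by
    have e := bern_X hN1
    rw [← Finset.sum_filter_add_sum_filter_not (Finset.range (N + 1)) (· < J), ← hlo] at e
    rw [sub_eq_of_eq_add' e.symm]
    refine Finset.dvd_sum fun k hk => ?_
    have hk' : J ≤ k := by simpa using (Finset.mem_filter.mp hk).2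
    rw [smul_eq_C_mul]
    unfold bernsteinPolynomial
    exact Dvd.dvd.mul_left (Dvd.dvd.mul_right (Dvd.dvd.mul_left (pow_dvd_pow _ hk') _) _) _
  obtain ⟨q, hq⟩ := hd
  refine ⟨q, fun T h x y => ?_⟩
  have e : B x (T y) - B x (aeval T (X ^ J * q) y) = B x (aeval T lo y) := by
    rw [← hq]; simp
  have p1 : PosP B T lo :=
    posP_sum _ fun k _ => posP_smul (h.posP_bern N k) (by positivity)
  have p2 : ∀ z, B z (aeval T lo z) ≤ η * B z z := by
    intro z
    have e1 : B z z = ∑ k ∈ Finset.range (N + 1), B z (aeval T (bernsteinPolynomial ℝ N k) z) := by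
      rw [← map_sum, ← LinearMap.sum_apply, ← map_sum, bernsteinPolynomial.sum]; simp
    rw [e1, hlo, Finset.mul_sum]
    simp only [map_sum, LinearMap.sum_apply, map_smul, LinearMap.smul_apply, smul_eq_mul]
    refine le_trans (Finset.sum_le_sum (g := fun k =>
      η * B z (aeval T (bernsteinPolynomial ℝ N k) z)) fun k hk => ?_) ?_
    · have hk' : k < J := by simpa using (Finset.mem_filter.mp hk).2
      have hk2 : (k : ℝ) < J := by exact_mod_cast hk'
      refine mul_le_mul_of_nonneg_right ?_ (h.posP_bern N k z)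
      rw [div_le_iff₀ hN0]; linarith
    · exact Finset.sum_le_sum_of_subset_of_nonneg (Finset.filter_subset _ _)
        fun k _ _ => mul_nonneg hη.le (h.posP_bern N k z)
  rw [e]
  calc _ ≤ B x (aeval T lo x) * B y (aeval T lo y) := h.posP_cs p1 x y
    _ ≤ (η * B x x) * (η * B y y) :=
      mul_le_mul (p2 x) (p2 y) (p1 y) (mul_nonneg hη.le (h.pos x))
    _ = _ := by ring

/-- vanishing for all large powers gives vanishing for the first power -/
theorem move_null {ι : Type} (l : Filter ι) (T : ι → W →ₗ[ℝ] W) (h : ∀ i, PosCon B (T i))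
    (x y : ι → W) (C : ℝ) (hx : ∀ᶠ i in l, B (x i) (x i) ≤ C) (hy : ∀ᶠ i in l, B (y i) (y i) ≤ C)
    (J : ℕ) (hJ : ∀ j, J ≤ j → Tendsto (fun i => B (x i) ((T i ^ j) (y i))) l (𝓝 0)) :
    Tendsto (fun i => B (x i) (T i (y i))) l (𝓝 0) := by
  rw [Metric.tendsto_nhds]
  intro ε hε
  obtain ⟨q, hq⟩ := move (B := B) J (η := ε / (2 * (|C| + 1))) (by positivity)
  have t : Tendsto (fun i => B (x i) (aeval (T i) (X ^ J * q) (y i))) l (𝓝 0) := by
    have e : ∀ i, B (x i) (aeval (T i) (X ^ J * q) (y i)) =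
        ∑ k ∈ Finset.range (q.natDegree + 1), q.coeff k * B (x i) ((T i ^ (J + k)) (y i)) := by
      intro i
      rw [map_mul, aeval_eq_sum_range (p := q), Finset.mul_sum]
      simp only [map_pow, aeval_X, LinearMap.sum_apply, map_sum, mul_smul_comm, ← pow_add,
        LinearMap.smul_apply, map_smul, smul_eq_mul]
    simp only [e]
    have := tendsto_finsetSum (Finset.range (q.natDegree + 1))
      fun k _ => (hJ (J + k) (Nat.le_add_right _ _)).const_mul (q.coeff k)
    simpa using this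
  filter_upwards [hx, hy, Metric.tendsto_nhds.mp t (ε / 2) (by positivity)] with i h1 h2 h3
  rw [Real.dist_eq, sub_zero] at h3 ⊢
  have h4 := hq (T i) (h i) (x i) (y i)
  have h5 : B (x i) (x i) * B (y i) (y i) ≤ (|C| + 1) ^ 2 := by
    have := (h i).pos (x i)
    have := (h i).pos (y i)
    have := le_abs_self C
    nlinarith
  have h6 : (B (x i) (T i (y i)) - B (x i) (aeval (T i) (X ^ J * q) (y i))) ^ 2 ≤ (ε / 2) ^ 2 := by
    refine h4.trans ((mul_le_mul_of_nonneg_left h5 (sq_nonneg _)).trans (le_of_eq ?_))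
    field_simp
  have h7 := abs_le_of_sq_le_sq' h6 (by positivity)
  rw [abs_lt] at h3 ⊢
  constructor <;> linarith [h7.1, h7.2]

/-! ### exponential sums -/

lemma bern_choose (N m : ℕ) (hm : m ≤ N) :
    ∑ k ∈ Finset.range (N + 1), (k.choose m : ℝ) • bernsteinPolynomial ℝ N k =
      (N.choose m : ℝ) • X ^ m := by
  obtain ⟨M, rfl⟩ := Nat.exists_eq_add_of_le hm
  rw [show m + M + 1 = m + (M + 1) by ring, Finset.sum_range_add,
    Finset.sum_eq_zero fun k hk => by
      rw [Nat.choose_eq_zero_of_lt (Finset.mem_range.mp hk)]; simp, zero_add]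
  have : ∀ j ∈ Finset.range (M + 1), ((m + j).choose m : ℝ) • bernsteinPolynomial ℝ (m + M) (m + j)
      = ((m + M).choose m : ℝ) • (X ^ m * bernsteinPolynomial ℝ M j) := by
    intro j hj
    have hj' : j ≤ M := Nat.lt_succ_iff.mp (Finset.mem_range.mp hj)
    have e := Nat.choose_mul (n := m + M) (k := m + j) (s := m) (by omega)
    rw [Nat.add_sub_cancel_left, Nat.add_sub_cancel_left] at e
    have e' : (((m + M).choose (m + j) : ℕ) : ℝ[X]) * ((m + j).choose m : ℕ) =
        ((m + M).choose m : ℕ) * (M.choose j : ℕ) := by exact_mod_cast congrArg Nat.cast e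
    unfold bernsteinPolynomial
    rw [smul_eq_C_mul, smul_eq_C_mul, map_natCast, map_natCast,
      show m + M - (m + j) = M - j by omega, pow_add]
    linear_combination (X ^ m * X ^ j * (1 - X) ^ (M - j) : ℝ[X]) * e'
  rw [Finset.sum_congr rfl this, ← Finset.smul_sum, ← Finset.mul_sum, bernsteinPolynomial.sum,
    mul_one]

lemma choose_ratio (m : ℕ) {N k : ℕ} (hk : k ≤ N) (hm : 2 * m ≤ N) (hN : 0 < N) :
    |(k.choose m : ℝ) / N.choose m - ((k : ℝ) / N) ^ m| ≤ 2 * m ^ 2 / N := by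
  have hN' : (0 : ℝ) < N := by exact_mod_cast hN
  have hv0 : (0 : ℝ) ≤ (k : ℝ) / N := by positivity
  have hv1 : (k : ℝ) / N ≤ 1 := by rw [div_le_one hN']; exact_mod_cast hk
  induction m with
  | zero => simp
  | succ m ih =>
    have ih' := ih (by omega)
    have hmN : (2 : ℝ) * (m + 1) ≤ N := by exact_mod_cast hm
    have c0 : (0 : ℝ) < N.choose m := by exact_mod_cast Nat.choose_pos (by omega)
    have c1 : (0 : ℝ) < N.choose (m + 1) := by exact_mod_cast Nat.choose_pos (by omega)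
    have e1 : (k.choose (m + 1) : ℝ) * (m + 1) = k.choose m * ((k - m : ℕ) : ℝ) := by
      exact_mod_cast Nat.choose_succ_right_eq k m
    have e2 : (N.choose (m + 1) : ℝ) * (m + 1) = N.choose m * ((N : ℝ) - m) := by
      have := Nat.choose_succ_right_eq N m
      rw [← Nat.cast_sub (by omega)]
      exact_mod_cast this
    have hNm : (0 : ℝ) < (N : ℝ) - m := by have : (0 : ℝ) ≤ m := by positivity
                                           linarith
    set u : ℝ := ((k - m : ℕ) : ℝ) / ((N : ℝ) - m) with hu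
    have e3 : (k.choose (m + 1) : ℝ) / N.choose (m + 1) = (k.choose m : ℝ) / N.choose m * u := by
      rw [hu, div_mul_div_comm, ← e1, ← e2, mul_div_mul_right _ _ (by positivity)]
    have hu0 : 0 ≤ u := by positivity
    have hkN : (k : ℝ) ≤ N := by exact_mod_cast hk
    have hm0 : (0 : ℝ) ≤ m := by positivity
    have hu2 : |u - (k : ℝ) / N| ≤ 2 * m / N ∧ u ≤ 1 := by
      rcases le_total k m with hkm | hkm
      · have : u = 0 := by rw [hu, Nat.sub_eq_zero_of_le hkm]; simp
        have hkm' : (k : ℝ) ≤ m := by exact_mod_cast hkm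
        rw [this, zero_sub, abs_neg, abs_of_nonneg hv0]
        exact ⟨div_le_div_of_nonneg_right (by linarith) hN'.le, zero_le_one⟩
      · rw [hu, Nat.cast_sub hkm]
        refine ⟨?_, by rw [div_le_one hNm]; linarith⟩
        have : ((k : ℝ) - m) / (N - m) - k / N = -(m * (N - k) / (N * (N - m))) := by
          field_simp; ring
        rw [this, abs_neg, abs_of_nonneg (by apply div_nonneg <;> nlinarith),
          div_le_div_iff₀ (by positivity) hN']
        have hk0 : (0 : ℝ) ≤ k := by positivity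
        have : (m : ℝ) * N * (N - k) ≤ m * N * (2 * (N - m)) :=
          mul_le_mul_of_nonneg_left (by linarith) (by positivity)
        nlinarith
    have hp : ((k : ℝ) / N) ^ m ≤ 1 := pow_le_one₀ hv0 hv1
    have hp0 : 0 ≤ ((k : ℝ) / N) ^ m := by positivity
    rw [e3, pow_succ]
    have e4 : (k.choose m : ℝ) / N.choose m * u - ((k : ℝ) / N) ^ m * (k / N) =
        ((k.choose m : ℝ) / N.choose m - ((k : ℝ) / N) ^ m) * u +
          ((k : ℝ) / N) ^ m * (u - k / N) := by ring
    rw [e4]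
    refine (abs_add_le _ _).trans ?_
    rw [abs_mul, abs_mul, abs_of_nonneg hu0, abs_of_nonneg hp0]
    have b1 : |(k.choose m : ℝ) / N.choose m - ((k : ℝ) / N) ^ m| * u ≤ 2 * m ^ 2 / N :=
      (mul_le_of_le_one_right (abs_nonneg _) hu2.2).trans ih'
    have b2 : ((k : ℝ) / N) ^ m * |u - k / N| ≤ 2 * m / N :=
      (mul_le_of_le_one_left (abs_nonneg _) hp).trans hu2.1
    have b3 : 2 * (m : ℝ) ^ 2 / N + 2 * m / N ≤ 2 * ((m + 1 : ℕ) : ℝ) ^ 2 / N := by
      rw [← add_div]
      refine div_le_div_of_nonneg_right ?_ hN'.le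
      push_cast; nlinarith
    linarith

/-- Bernstein weights -/
noncomputable def bw (B : W →ₗ[ℝ] W →ₗ[ℝ] ℝ) (T : W →ₗ[ℝ] W) (N k : ℕ) (x y : W) : ℝ :=
  B x (aeval T (bernsteinPolynomial ℝ N k) y)

lemma bw_abs (h : PosCon B T) (N k : ℕ) (x y : W) :
    |bw B T N k x y| ≤ (bw B T N k x x + bw B T N k y y) / 2 :=
  abs_le_of_sq_le_mul (h.posP_cs (h.posP_bern N k) x y) (h.posP_bern N k x) (h.posP_bern N k y)

lemma bw_sum (N : ℕ) (x y : W) : ∑ k ∈ Finset.range (N + 1), bw B T N k x y = B x y := by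
  unfold bw
  rw [← map_sum, ← LinearMap.sum_apply, ← map_sum, bernsteinPolynomial.sum]; simp

lemma bw_tendsto (h : PosCon B T) (m : ℕ) (x y : W) :
    Tendsto (fun N : ℕ => ∑ k ∈ Finset.range (N + 1), bw B T N k x y * ((k : ℝ) / N) ^ m) atTop
      (𝓝 (B x ((T ^ m) y))) := by
  rw [tendsto_iff_dist_tendsto_zero]
  have t : Tendsto (fun N : ℕ => (2 * (m : ℝ) ^ 2 * ((B x x + B y y) / 2)) / N) atTop (𝓝 0) :=
    tendsto_const_div_atTop_nhds_zero_nat _
  refine squeeze_zero' (Eventually.of_forall fun _ => dist_nonneg) ?_ t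
  filter_upwards [eventually_ge_atTop (2 * m + 1)] with N hN
  have c0 : (0 : ℝ) < N.choose m := by exact_mod_cast Nat.choose_pos (by omega)
  have e : B x ((T ^ m) y) =
      ∑ k ∈ Finset.range (N + 1), bw B T N k x y * ((k.choose m : ℝ) / N.choose m) := by
    have := congrArg (fun p => B x (aeval T p y)) (bern_choose N m (by omega))
    simp only [map_sum, map_smul, LinearMap.sum_apply, LinearMap.smul_apply, smul_eq_mul, map_pow,
      aeval_X] at this
    rw [← mul_right_inj' c0.ne', ← this, Finset.mul_sum]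
    refine Finset.sum_congr rfl fun k _ => ?_
    unfold bw
    field_simp
  rw [e, Real.dist_eq, ← Finset.sum_sub_distrib]
  refine (Finset.abs_sum_le_sum_abs _ _).trans ?_
  have : ∀ k ∈ Finset.range (N + 1), |bw B T N k x y * ((k : ℝ) / N) ^ m -
      bw B T N k x y * ((k.choose m : ℝ) / N.choose m)| ≤
      (bw B T N k x x + bw B T N k y y) / 2 * (2 * m ^ 2 / N) := by
    intro k hk
    rw [← mul_sub, abs_mul, abs_sub_comm]
    exact mul_le_mul (bw_abs h N k x y)
      (choose_ratio m (Nat.lt_succ_iff.mp (Finset.mem_range.mp hk)) (by omega) (by omega))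
      (abs_nonneg _) ((abs_nonneg _).trans (bw_abs h N k x y))
  refine (Finset.sum_le_sum this).trans (le_of_eq ?_)
  rw [← Finset.sum_mul, ← Finset.sum_div, Finset.sum_add_distrib, bw_sum, bw_sum]
  ring

/-- the exponential sum interpolating the moments -/
noncomputable def Fb (B : W →ₗ[ℝ] W →ₗ[ℝ] ℝ) (T : W →ₗ[ℝ] W) (N : ℕ) (x y : W) (ζ : ℂ) : ℂ :=
  ∑ k ∈ Finset.range N, (bw B T N (k + 1) x y : ℂ) *
    Complex.exp (ζ * (Real.log (((k + 1 : ℕ) : ℝ) / N) : ℝ))

lemma Fb_diff (N : ℕ) (x y : W) : Differentiable ℂ (Fb B T N x y) := by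
  unfold Fb
  fun_prop

lemma Fb_nat (N : ℕ) (x y : W) {m : ℕ} (hm : 0 < m) : Fb B T N x y m =
    (∑ k ∈ Finset.range (N + 1), bw B T N k x y * ((k : ℝ) / N) ^ m : ℝ) := by
  unfold Fb
  rw [Finset.sum_range_succ', Nat.cast_zero, zero_div, zero_pow hm.ne', mul_zero, add_zero,
    Complex.ofReal_sum]
  refine Finset.sum_congr rfl fun k hk => ?_
  have hN : (0 : ℝ) < N := by
    have := Finset.mem_range.mp hk
    exact_mod_cast (by omega : 0 < N)
  rw [Complex.exp_nat_mul, ← Complex.ofReal_exp, Real.exp_log (by positivity)]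
  push_cast
  ring

lemma Fb_tendsto (h : PosCon B T) (x y : W) {m : ℕ} (hm : 0 < m) :
    Tendsto (fun N : ℕ => Fb B T N x y m) atTop (𝓝 (B x ((T ^ m) y) : ℂ)) := by
  simp only [Fb_nat _ x y hm]
  exact (Complex.continuous_ofReal.tendsto _).comp (bw_tendsto h m x y)

lemma exp_lip {E : ℝ} (hE : 0 ≤ E) {j : ℝ} (hj : 0 < j) {ζ ζ' : ℂ} (h1 : 2 * j ≤ ζ.re)
    (h2 : 2 * j ≤ ζ'.re) : ‖Complex.exp (ζ * (-E : ℝ)) - Complex.exp (ζ' * (-E : ℝ))‖ ≤
      ‖ζ - ζ'‖ / j * (Real.exp (-E * j) - Real.exp (-E * (2 * j))) := by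
  have hc : Convex ℝ {z : ℂ | 2 * j ≤ z.re} := convex_halfSpace_re_ge _
  have hd : ∀ z ∈ {z : ℂ | 2 * j ≤ z.re}, HasDerivWithinAt (fun z : ℂ => Complex.exp (z * (-E : ℝ)))
      (Complex.exp (z * (-E : ℝ)) * (-E : ℝ)) {z : ℂ | 2 * j ≤ z.re} z := fun z _ => by
    simpa using ((hasDerivAt_id z).mul_const ((-E : ℝ) : ℂ)).cexp.hasDerivWithinAt
  have hb : ∀ z ∈ {z : ℂ | 2 * j ≤ z.re}, ‖Complex.exp (z * (-E : ℝ)) * (-E : ℝ)‖ ≤
      Real.exp (-E * (2 * j)) * E := fun z hz => by
    rw [norm_mul, Complex.norm_exp, Complex.norm_real, Real.norm_eq_abs, abs_neg, abs_of_nonneg hE]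
    refine mul_le_mul_of_nonneg_right (Real.exp_le_exp.mpr ?_) hE
    have hz' : 2 * j ≤ z.re := hz
    simp only [Complex.mul_re, Complex.ofReal_re, Complex.ofReal_im, mul_zero, sub_zero]
    nlinarith
  refine (hc.norm_image_sub_le_of_norm_hasDerivWithin_le hd hb h2 h1).trans ?_
  have e : Real.exp (-E * j) = Real.exp (-E * (2 * j)) * Real.exp (E * j) := by
    rw [← Real.exp_add]; congr 1; ring
  have : E * j + 1 ≤ Real.exp (E * j) := Real.add_one_le_exp _
  have p := Real.exp_pos (-E * (2 * j))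
  rw [e, div_mul_eq_mul_div, le_div_iff₀ hj]
  have n := norm_nonneg (ζ - ζ')
  have : Real.exp (-E * (2 * j)) * (E * j) ≤
      Real.exp (-E * (2 * j)) * Real.exp (E * j) - Real.exp (-E * (2 * j)) := by nlinarith
  nlinarith

lemma Fb_lip (h : PosCon B T) (N : ℕ) (x y : W) {j : ℕ} (hj : 0 < j) {ζ ζ' : ℂ}
    (h1 : 2 * (j : ℝ) ≤ ζ.re) (h2 : 2 * (j : ℝ) ≤ ζ'.re) :
    ‖Fb B T N x y ζ - Fb B T N x y ζ'‖ ≤ ‖ζ - ζ'‖ / j *
      (((Fb B T N x x j).re - (Fb B T N x x (2 * j : ℕ)).re +
        ((Fb B T N y y j).re - (Fb B T N y y (2 * j : ℕ)).re)) / 2) := by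
  have hj' : (0 : ℝ) < j := by exact_mod_cast hj
  have re : ∀ (z : W) (m : ℕ), (Fb B T N z z m).re = ∑ k ∈ Finset.range N,
      bw B T N (k + 1) z z * Real.exp (Real.log (((k + 1 : ℕ) : ℝ) / N) * m) := by
    intro z m
    unfold Fb
    rw [Complex.re_sum]
    refine Finset.sum_congr rfl fun k _ => ?_
    rw [← Complex.ofReal_natCast, ← Complex.ofReal_mul, ← Complex.ofReal_exp, ← Complex.ofReal_mul,
      Complex.ofReal_re, mul_comm (m : ℝ)]
  rw [re, re, re, re, ← Finset.sum_sub_distrib, ← Finset.sum_sub_distrib, ← Finset.sum_add_distrib,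
    Finset.sum_div, Finset.mul_sum]
  unfold Fb
  rw [← Finset.sum_sub_distrib]
  refine (norm_sum_le _ _).trans (Finset.sum_le_sum fun k hk => ?_)
  have hk' := Finset.mem_range.mp hk
  have hN : (0 : ℝ) < N := by exact_mod_cast (by omega : 0 < N)
  have hE : 0 ≤ -Real.log (((k + 1 : ℕ) : ℝ) / N) := by
    rw [neg_nonneg]
    refine Real.log_nonpos (by positivity) ?_
    rw [div_le_one hN]
    exact_mod_cast hk'
  have b := exp_lip hE hj' h1 h2
  simp only [neg_neg] at b
  rw [← mul_sub, norm_mul, Complex.norm_real, Real.norm_eq_abs]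
  refine (mul_le_mul (bw_abs h N (k + 1) x y) b (norm_nonneg _)
    ((abs_nonneg _).trans (bw_abs h N (k + 1) x y))).trans (le_of_eq ?_)
  push_cast
  ring

end Pool.Agent.Lib.MP_6359c9_pr.Pl
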