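import Pool.Agent.Lib.MP_6359c9_pr.LogBern

/-! The reflection positive form of a variogram; first and second differences. -/

namespace Pool.Agent.Lib.MP_6359c9_pr.Pl

open Filter Topology

variable {a : V → ℝ} {C : ℝ}

lemma rfx_add (x y : V) : rfx (x + y) = rfx x + rfx y := by
  unfold rfx; ext <;> simp <;> ring

lemma rfx_pt (s t : ℤ) : rfx (pt s t) = pt s (-t) := by
  unfold rfx pt; ext <;> simp; ring

lemma pt_add (s t s' t' : ℤ) : pt s t + pt s' t' = pt (s + s') (t + t') := by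
  unfold pt; ext <;> simp <;> ring

lemma neg_pt (s t : ℤ) : -pt s t = pt (-s) (-t) := by
  unfold pt; ext <;> simp; ring

lemma pt_zero : pt 0 0 = 0 := by unfold pt; ext <;> simp

lemma sub_rfx_self (p : V) : p - rfx p = pt 0 p.2 := by
  unfold rfx pt; ext <;> simp; ring

lemma emb_pt (s t : ℤ) : emb (pt s t) = (s : ℂ) + (Real.sqrt 3 * t : ℝ) * Complex.I := by
  unfold emb pt om
  apply Complex.ext <;> simp <;> ring

lemma nrm_le_iff {x : V} {R : ℤ} : nrm x ≤ R ↔
    (-R ≤ x.1 ∧ x.1 ≤ R) ∧ (-R ≤ x.2 ∧ x.2 ≤ R) ∧ (-R ≤ x.1 + x.2 ∧ x.1 + x.2 ≤ R) := by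
  simp only [nrm, max_le_iff, abs_le, and_assoc]

lemma nrm_le_add (x z : V) : nrm x ≤ nrm (x + z) + nrm z := by
  have h1 := nrm_le_iff.mp (le_refl (nrm (x + z)))
  have h2 := nrm_le_iff.mp (le_refl (nrm z))
  rw [nrm_le_iff]
  simp only [Prod.fst_add, Prod.snd_add] at h1
  omega

namespace Vario

lemma neg (h : Vario a C) (x : V) : a (-x) = a x := by
  have : -x = Pl.rot (Pl.rot (Pl.rot x)) := by unfold Pl.rot; ext <;> simp
  rw [this, h.rot, h.rot, h.rot]

lemma pt_neg (h : Vario a C) (s t : ℤ) : a (pt s (-t)) = a (pt s t) := by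
  rw [← rfx_pt, h.rfx]

lemma neg_pt' (h : Vario a C) (s t : ℤ) : a (pt (-s) t) = a (pt s t) := by
  rw [← h.pt_neg, ← neg_pt, h.neg]

lemma sub_rfx (h : Vario a C) (x y : V) : a (x - Pl.rfx y) = a (y - Pl.rfx x) := by
  rw [← h.rfx, ← h.neg]
  congr 1
  unfold Pl.rfx; ext <;> simp <;> ring

lemma far_vec (h : Vario a C) (z : V) : ∀ ε > 0, ∃ R : ℤ, ∀ x, R ≤ nrm x → |a (x + z) - a x| ≤ ε := by
  have step : ∀ z e : V, Adj 0 e → (∀ ε > 0, ∃ R : ℤ, ∀ x, R ≤ nrm x → |a (x + z) - a x| ≤ ε) →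
      ∀ ε > 0, ∃ R : ℤ, ∀ x, R ≤ nrm x → |a (x + (z + e)) - a x| ≤ ε := by
    intro z e he ih ε hε
    obtain ⟨R, hR⟩ := ih (ε / 2) (by positivity)
    obtain ⟨R', hR'⟩ := h.far (ε / 2) (by positivity)
    refine ⟨max R (R' + nrm z), fun x hx => ?_⟩
    have h1 := hR x ((le_max_left _ _).trans hx)
    have h2 := hR' (x + z) (x + (z + e)) (by
      unfold Adj at he ⊢
      simp only [Prod.fst_add, Prod.snd_add, Prod.fst_zero, Prod.snd_zero] at he ⊢
      omega) (by
      have := (le_max_right _ _).trans hx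
      have := nrm_le_add x z
      omega)
    rw [abs_le] at h1 h2 ⊢
    constructor <;> linarith [h1.1, h1.2, h2.1, h2.2]
  obtain ⟨u, v⟩ := z
  induction u using Int.induction_on with
  | zero =>
    induction v using Int.induction_on with
    | zero => exact fun ε hε => ⟨0, fun x _ => by
        rw [show x + (0, 0) = x from add_zero x]; simpa using hε.le⟩
    | succ n ih => simpa using step (0, n) (0, 1) (by decide) ih
    | pred n ih => simpa [sub_eq_add_neg] using step (0, -n) (0, -1) (by decide) ih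
  | succ n ih => simpa using step (n, v) (1, 0) (by decide) ih
  | pred n ih => simpa [sub_eq_add_neg] using step (-n, v) (-1, 0) (by decide) ih

/-- differences by fixed vectors vanish far up along the normal -/
lemma up (h : Vario a C) (x y : V) :
    Tendsto (fun n : ℕ => a (x + pt 0 n) - a (y + pt 0 n)) atTop (𝓝 0) := by
  rw [Metric.tendsto_atTop]
  intro ε hε
  obtain ⟨R, hR⟩ := h.far_vec (x - y) (ε / 2) (by positivity)
  refine ⟨(R + nrm y).toNat, fun n hn => ?_⟩
  have := hR (y + pt 0 n) (by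
    have h1 := nrm_le_iff.mp (le_refl (nrm (y + pt 0 n)))
    have h2 := nrm_le_iff.mp (le_refl (nrm y))
    simp only [Prod.fst_add, Prod.snd_add, pt] at h1 ⊢
    omega)
  rw [show y + pt 0 n + (x - y) = x + pt 0 n by abel] at this
  rw [Real.dist_eq, sub_zero]
  linarith

end Vario

/-- mean zero weights on the upper half plane -/
def Wz : Submodule ℝ (V →₀ ℝ) where
  carrier := {c | (∀ x, x.2 < 0 → c x = 0) ∧ Finsupp.linearCombination ℝ (fun _ => (1 : ℝ)) c = 0}
  add_mem' := fun hc hd => ⟨fun x hx => by simp [hc.1 x hx, hd.1 x hx], by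
    rw [map_add, hc.2, hd.2, add_zero]⟩
  zero_mem' := ⟨fun _ _ => rfl, map_zero _⟩
  smul_mem' := fun r c hc => ⟨fun x hx => by simp [hc.1 x hx], by rw [map_smul, hc.2, smul_zero]⟩

/-- the bilinear form with kernel `k` -/
noncomputable def Bk (k : V → V → ℝ) : (V →₀ ℝ) →ₗ[ℝ] (V →₀ ℝ) →ₗ[ℝ] ℝ :=
  Finsupp.linearCombination ℝ fun x => Finsupp.linearCombination ℝ fun y => k x y

@[simp] lemma Bk_single (k : V → V → ℝ) (x y : V) (r s : ℝ) :
    Bk k (Finsupp.single x r) (Finsupp.single y s) = r * s * k x y := by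
  simp [Bk, mul_assoc]

lemma Bk_apply (k : V → V → ℝ) (c d : V →₀ ℝ) :
    Bk k c d = ∑ x ∈ c.support, ∑ y ∈ d.support, c x * d y * k x y := by
  simp [Bk, Finsupp.linearCombination_apply, Finsupp.sum, Finset.mul_sum, mul_assoc]

/-- translation of weights -/
noncomputable def sh (p : V) : (V →₀ ℝ) →ₗ[ℝ] (V →₀ ℝ) := Finsupp.lmapDomain ℝ ℝ (· + p)

@[simp] lemma sh_single (p x : V) (r : ℝ) : sh p (Finsupp.single x r) = Finsupp.single (x + p) r := by
  simp [sh]

lemma Bk_sh (k : V → V → ℝ) (p q : V) (c d : V →₀ ℝ) :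
    Bk k (sh p c) (sh q d) = Bk (fun x y => k (x + p) (y + q)) c d := by
  induction c using Finsupp.induction_linear with
  | zero => simp
  | add c c' h h' => simp [h, h']
  | single x r =>
    induction d using Finsupp.induction_linear with
    | zero => simp
    | add d d' h h' => simp only [map_add, h, h']
    | single y s => simp

lemma Bk_flip (k : V → V → ℝ) (c d : V →₀ ℝ) : Bk k c d = Bk (fun x y => k y x) d c := by
  rw [Bk_apply, Bk_apply, Finset.sum_comm]
  exact Finset.sum_congr rfl fun _ _ => Finset.sum_congr rfl fun _ _ => by ring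

lemma sh_zero (c : V →₀ ℝ) : sh 0 c = c := by
  induction c using Finsupp.induction_linear with
  | zero => simp
  | add c c' h h' => simp [h, h']
  | single x r => simp

lemma sh_sh (p q : V) (c : V →₀ ℝ) : sh p (sh q c) = sh (q + p) c := by
  induction c using Finsupp.induction_linear with
  | zero => simp
  | add c c' h h' => simp [h, h']
  | single x r => simp [add_assoc]

lemma sh_mem {p : V} (hp : 0 ≤ p.2) {c : V →₀ ℝ} (hc : c ∈ Wz) : sh p c ∈ Wz := by
  refine ⟨fun x hx => ?_, ?_⟩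
  · have := Finsupp.mapDomain_apply (add_left_injective p) c (x - p)
    simp only [sub_add_cancel] at this
    simp only [sh, Finsupp.lmapDomain_apply, this]
    exact hc.1 _ (by simp only [Prod.snd_sub]; omega)
  · simp only [sh, Finsupp.lmapDomain_apply, Finsupp.linearCombination_mapDomain]
    exact hc.2

/-- the reflection positive form -/
noncomputable def Bz (a : V → ℝ) : Wz →ₗ[ℝ] Wz →ₗ[ℝ] ℝ :=
  (Bk fun x y => -a (x - rfx y)).domRestrict₁₂ Wz Wz

/-- the transfer operator -/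
noncomputable def Tz : Wz →ₗ[ℝ] Wz :=
  (sh (pt 0 1)).restrict fun _ hc => sh_mem (by simp [pt]) hc

lemma Tz_pow (n : ℕ) (c : Wz) : ((Tz ^ n) c : V →₀ ℝ) = sh (pt 0 n) c := by
  induction n with
  | zero => simp [pt_zero, sh_zero]
  | succ n ih =>
    rw [pow_succ', Module.End.mul_apply]
    change sh (pt 0 1) ((Tz ^ n) c) = _
    rw [ih, sh_sh, pt_add]; simp

lemma Vario.Bz_pos (h : Vario a C) {c : V →₀ ℝ} (hc : c ∈ Wz) :
    0 ≤ Bk (fun x y => -a (x - Pl.rfx y)) c c := by
  have := h.rp c.support c (fun x hx => not_lt.mp fun hh => Finsupp.mem_support_iff.mp hx (hc.1 x hh))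
    (by simpa [Finsupp.linearCombination_apply, Finsupp.sum] using hc.2)
  rw [Bk_apply]
  simp only [mul_neg, Finset.sum_neg_distrib]
  linarith

theorem Vario.posCon (h : Vario a C) : PosCon (W := Wz) (Bz a) Tz where
  symm := fun c d => by
    change Bk _ c.1 d.1 = Bk _ d.1 c.1
    rw [Bk_flip]; simp only [h.sub_rfx]
  adj := fun c d => by
    change Bk _ (sh _ c.1) d.1 = Bk _ c.1 (sh _ d.1)
    rw [← sh_zero d.1, Bk_sh, sh_zero]
    conv_rhs => rw [← sh_zero c.1, Bk_sh]
    congr 3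
    funext x y
    rw [rfx_add, rfx_add, rfx_pt, show Pl.rfx 0 = 0 from rfl, ← neg_zero (G := ℤ), ← neg_pt]
    congr 2; simp only [neg_zero]; abel
  pos := fun c => h.Bz_pos c.2
  posT := fun c => by
    have := h.Bz_pos (sh_mem (p := (0, 1)) (by simp) c.2)
    rw [Bk_sh] at this
    change 0 ≤ Bk _ c.1 (sh _ c.1)
    rw [← sh_zero c.1, sh_sh, Bk_sh]
    refine this.trans (le_of_eq ?_)
    congr 3
    funext x y
    congr 2
    unfold Pl.rfx pt; ext <;> simp <;> ring
  bdd := fun c => by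
    have t : Tendsto (fun n : ℕ => Bz a c ((Tz ^ n) c)) atTop (𝓝 0) := by
      have e : ∀ n : ℕ, Bz a c ((Tz ^ n) c) = ∑ x ∈ c.1.support, ∑ y ∈ c.1.support,
          -(c.1 x * c.1 y) * (a (x - Pl.rfx y + pt 0 n) - a (0 + pt 0 n)) := by
        intro n
        change Bk _ c.1 ((Tz ^ n) c : V →₀ ℝ) = _
        rw [Tz_pow]
        conv_lhs => rw [← sh_zero c.1, sh_sh, Bk_sh, Bk_apply]
        have z : ∑ y ∈ c.1.support, c.1 y = 0 := by
          simpa [Finsupp.linearCombination_apply, Finsupp.sum] using c.2.2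
        refine Finset.sum_congr rfl fun x _ => ?_
        simp only [mul_sub, Finset.sum_sub_distrib, neg_mul, Finset.sum_neg_distrib]
        rw [← Finset.sum_mul, ← Finset.mul_sum, z, mul_zero, zero_mul, neg_zero, sub_zero,
          ← Finset.sum_neg_distrib]
        refine Finset.sum_congr rfl fun y _ => ?_
        rw [mul_neg]
        congr 3
        unfold Pl.rfx pt; ext <;> simp <;> ring
      simp only [e]
      have := tendsto_finsetSum c.1.support fun x _ => tendsto_finsetSum c.1.support fun y _ =>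
        (h.up (x - Pl.rfx y) 0).const_mul (-(c.1 x * c.1 y))
      simpa using this
    obtain ⟨M, hM⟩ := t.bddAbove_range
    exact ⟨M, fun n => hM ⟨n, rfl⟩⟩

open Classical in
/-- a dipole -/
noncomputable def dp (p q : V) : Wz :=
  if h : 0 ≤ p.2 ∧ 0 ≤ q.2 then ⟨Finsupp.single p 1 - Finsupp.single q 1, fun x hx => by
    have h1 : p ≠ x := by rintro rfl; omega
    have h2 : q ≠ x := by rintro rfl; omega
    simp [h1, h2], by simp⟩ else 0

lemma Bz_dp {p p' q q' : V} (hp : 0 ≤ p.2) (hp' : 0 ≤ p'.2) (hq : 0 ≤ q.2) (hq' : 0 ≤ q'.2)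
    (n : ℕ) : Bz a (dp p p') ((Tz ^ n) (dp q q')) =
      -(a (p - rfx q + pt 0 n) - a (p - rfx q' + pt 0 n) - a (p' - rfx q + pt 0 n) +
        a (p' - rfx q' + pt 0 n)) := by
  change Bk _ (dp p p').1 ((Tz ^ n) (dp q q') : V →₀ ℝ) = _
  have e : ∀ x y : V, x - rfx (y + pt 0 n) = x - rfx y + pt 0 n := by
    intro x y
    unfold Pl.rfx pt; ext <;> simp <;> ring
  rw [Tz_pow]
  simp only [dp, hp, hp', hq, hq', and_self, dite_true, map_sub, sh_single, LinearMap.sub_apply,
    Bk_single, e]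
  ring

/-- Cauchy Schwarz for two dipoles -/
lemma Vario.cs4 (h : Vario a C) {p p' q q' : V} (hp : 0 ≤ p.2) (hp' : 0 ≤ p'.2) (hq : 0 ≤ q.2)
    (hq' : 0 ≤ q'.2) :
    (a (p - Pl.rfx q) - a (p - Pl.rfx q') - a (p' - Pl.rfx q) + a (p' - Pl.rfx q')) ^ 2 ≤
      -(a (p - Pl.rfx p) - a (p - Pl.rfx p') - a (p' - Pl.rfx p) + a (p' - Pl.rfx p')) *
      -(a (q - Pl.rfx q) - a (q - Pl.rfx q') - a (q' - Pl.rfx q) + a (q' - Pl.rfx q')) := by
  have := h.posCon.cs (dp p p') (dp q q')
  have e1 := Bz_dp (a := a) hp hp' hq hq' 0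
  have e2 := Bz_dp (a := a) hp hp' hp hp' 0
  have e3 := Bz_dp (a := a) hq hq' hq hq' 0
  simp only [pow_zero, Module.End.one_apply, Nat.cast_zero, pt_zero, add_zero] at e1 e2 e3
  rwa [e1, e2, e3, neg_sq] at this

/-- minus the second difference with step `t` on the axis -/
def cc (a : V → ℝ) (t j : ℕ) : ℝ := -(a (pt 0 j) - 2 * a (pt 0 (j + t)) + a (pt 0 (j + 2 * t)))

lemma cc_eq (a : V → ℝ) (t j : ℕ) : cc a t j = Bz a (dp 0 (pt 0 t)) ((Tz ^ j) (dp 0 (pt 0 t))) := by
  have ht : 0 ≤ (pt 0 (t : ℤ)).2 := by simp [pt]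
  rw [Bz_dp le_rfl ht le_rfl ht, cc]
  have e1 : (0 : V) - rfx 0 + pt 0 j = pt 0 j := by unfold rfx pt; ext <;> simp
  have e2 : (0 : V) - rfx (pt 0 t) + pt 0 j = pt 0 (j + t) := by unfold rfx pt; ext <;> simp <;> ring
  have e3 : pt 0 t - rfx 0 + pt 0 j = pt 0 (j + t) := by unfold rfx pt; ext <;> simp <;> ring
  have e4 : pt 0 t - rfx (pt 0 t) + pt 0 j = pt 0 (j + 2 * t) := by
    unfold rfx pt; ext <;> simp <;> ring
  rw [e1, e2, e3, e4]; ring

lemma Vario.cc_nonneg (h : Vario a C) (t j : ℕ) : 0 ≤ cc a t j := by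
  rw [cc_eq]; exact h.posCon.pow_nonneg _ _

lemma Vario.cc_anti (h : Vario a C) (t : ℕ) : Antitone (cc a t) := by
  intro i j hij
  rw [cc_eq, cc_eq]; exact h.posCon.pow_anti _ hij

/-- second differences along the normal are dominated by those on the axis -/
lemma Vario.second (h : Vario a C) (t j : ℕ) {x : V} (hx : 2 * (j : ℤ) ≤ x.2) :
    |a x - 2 * a (x + pt 0 t) + a (x + pt 0 (2 * t))| ≤ cc a t j := by
  obtain ⟨k, hk⟩ := Int.eq_ofNat_of_zero_le (a := x.2 - j) (by omega)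
  have := h.cs4 (p := (x.1 + j, k)) (p' := (x.1 + j - t, k + 2 * t)) (q := (0, j))
    (q' := (-t, j + 2 * t)) (by simp) (by simp; omega) (by simp) (by simp; omega)
  have e1 : ((x.1 + j, k) : V) - Pl.rfx (0, j) = x := by
    unfold Pl.rfx; ext <;> simp; omega
  have e2 : ((x.1 + j, k) : V) - Pl.rfx (-t, j + 2 * t) = x + pt 0 t := by
    unfold Pl.rfx pt; ext <;> simp <;> omega
  have e3 : ((x.1 + j - t, k + 2 * t) : V) - Pl.rfx (0, j) = x + pt 0 t := by
    unfold Pl.rfx pt; ext <;> simp <;> omega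
  have e4 : ((x.1 + j - t, k + 2 * t) : V) - Pl.rfx (-t, j + 2 * t) = x + pt 0 (2 * t) := by
    unfold Pl.rfx pt; ext <;> simp <;> omega
  have e5 : ((x.1 + j, k) : V) - Pl.rfx (x.1 + j - t, k + 2 * t) = pt 0 (k + t) := by
    unfold Pl.rfx pt; ext <;> simp <;> omega
  have e6 : ((x.1 + j - t, k + 2 * t) : V) - Pl.rfx (x.1 + j, k) = pt 0 (k + t) := by
    unfold Pl.rfx pt; ext <;> simp <;> omega
  have e7 : ((0, j) : V) - Pl.rfx (-t, j + 2 * t) = pt 0 (j + t) := by
    unfold Pl.rfx pt; ext <;> simp <;> omega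
  have e8 : ((-t, j + 2 * t) : V) - Pl.rfx (0, j) = pt 0 (j + t) := by
    unfold Pl.rfx pt; ext <;> simp <;> omega
  rw [e1, e2, e3, e4, e5, e6, e7, e8] at this
  simp only [sub_rfx_self] at this
  have c1 : cc a t k ≤ cc a t j := h.cc_anti t (by omega)
  have c2 := h.cc_nonneg t k
  have c3 := h.cc_nonneg t j
  refine abs_le.mpr (abs_le_of_sq_le_sq' ?_ c3)
  have c4 : cc a t k * cc a t j ≤ cc a t j ^ 2 := by nlinarith
  refine le_trans ?_ c4
  unfold cc
  refine le_trans (le_of_eq ?_) (this.trans (le_of_eq ?_)) <;> ring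

/-- first difference on the axis -/
def dd (a : V → ℝ) (j : ℕ) : ℝ := a (pt 0 (j + 1)) - a (pt 0 j)

lemma dd_sub (a : V → ℝ) (j : ℕ) : dd a j - dd a (j + 1) = cc a 1 j := by
  unfold dd cc
  push_cast
  rw [show (j : ℤ) + 1 + 1 = j + 2 * 1 by ring]; ring

lemma Vario.dd_anti (h : Vario a C) : Antitone (dd a) :=
  antitone_nat_of_succ_le fun j => by have := dd_sub a j; have := h.cc_nonneg 1 j; linarith

lemma Vario.dd_tendsto (h : Vario a C) : Tendsto (dd a) atTop (𝓝 0) := by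
  have := h.up (pt 0 1) 0
  refine this.congr fun n => ?_
  rw [pt_add, zero_add, zero_add, add_comm]; rfl

lemma Vario.dd_nonneg (h : Vario a C) (j : ℕ) : 0 ≤ dd a j :=
  h.dd_anti.le_of_tendsto h.dd_tendsto j

lemma dd_sum (a : V → ℝ) (j k : ℕ) :
    ∑ i ∈ Finset.range k, dd a (j + i) = a (pt 0 (j + k)) - a (pt 0 j) := by
  induction k with
  | zero => simp
  | succ k ih => rw [Finset.sum_range_succ, ih, dd]; push_cast; rw [add_assoc]; ring

lemma Vario.C_nonneg (h : Vario a C) : 0 ≤ C := by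
  have := h.dbl 1 le_rfl
  have := h.dd_nonneg 1
  unfold dd at this
  norm_num at *
  linarith

lemma Vario.dd_le (h : Vario a C) {j : ℕ} (hj : 2 ≤ j) : dd a j ≤ 3 * C / j := by
  obtain ⟨m, hm⟩ : ∃ m : ℕ, m = j / 2 := ⟨_, rfl⟩
  have h1 := dd_sum a m m
  have h2 := h.dbl m (by omega)
  have h3 : ∑ _i ∈ Finset.range m, dd a j ≤ ∑ i ∈ Finset.range m, dd a (m + i) :=
    Finset.sum_le_sum fun i hi => h.dd_anti (by have := Finset.mem_range.mp hi; omega)
  rw [Finset.sum_const, Finset.card_range, nsmul_eq_mul, h1, ← two_mul] at h3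
  have hj' : (0 : ℝ) < j := by exact_mod_cast (by omega : 0 < j)
  have h4 : (j : ℝ) ≤ 3 * m := by exact_mod_cast (by omega : j ≤ 3 * m)
  rw [le_div_iff₀ hj']
  have := h.dd_nonneg j
  nlinarith

/-- first differences along the normal are dominated by those on the axis -/
lemma Vario.first (h : Vario a C) (j : ℕ) {x : V} (hx : 2 * (j : ℤ) ≤ x.2) :
    |a (x + pt 0 1) - a x| ≤ dd a j := by
  have key : ∀ n : ℕ, |a (x + pt 0 1) - a x - (a (x + pt 0 1 + pt 0 n) - a (x + pt 0 n))| ≤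
      dd a j - dd a (j + n) := by
    intro n
    induction n with
    | zero => simp [pt_zero]
    | succ n ih =>
      have h1 := h.second 1 (j + n) (x := x + pt 0 n) (by simp [pt]; omega)
      have h2 := dd_sub a (j + n)
      simp only [add_assoc, pt_add, Nat.cast_one, add_zero, Nat.cast_add] at h1 h2 ih ⊢
      rw [show (n : ℤ) + 2 * 1 = 1 + (n + 1) by ring] at h1
      rw [add_comm (1 : ℤ) n] at ih
      rw [abs_le] at h1 ih ⊢
      constructor <;> linarith [h1.1, h1.2, ih.1, ih.2]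
  have t1 := ((h.up (x + pt 0 1) x).const_sub (a (x + pt 0 1) - a x)).abs
  have t2 : Tendsto (fun n => dd a j - dd a (j + n)) atTop (𝓝 (dd a j - 0)) :=
    (h.dd_tendsto.comp (tendsto_atTop_mono (fun n => Nat.le_add_left n j) tendsto_id)).const_sub _
  simpa using le_of_tendsto_of_tendsto' t1 t2 key

/-- several steps along the normal -/
lemma Vario.first_nat (h : Vario a C) (j k : ℕ) {x : V} (hx : 2 * (j : ℤ) ≤ x.2) :
    |a (x + pt 0 k) - a x| ≤ k * dd a j := by
  induction k with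
  | zero => simp [pt_zero]
  | succ k ih =>
    have := h.first j (x := x + pt 0 k) (by simp [pt]; omega)
    rw [add_assoc, pt_add, add_zero] at this
    push_cast
    rw [abs_le] at this ih ⊢
    constructor <;> linarith [this.1, this.2, ih.1, ih.2]

end Pool.Agent.Lib.MP_6359c9_pr.Pl
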