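import Pool.Agent.Lib.MP_6359c9_pr.LogDefs

/-! Limits of holomorphic functions along an ultrafilter. -/

namespace Pool.Agent.Lib.MP_6359c9_pr.Pl

open Filter Topology

lemma isOpen_re_pos : IsOpen {ζ : ℂ | 0 < ζ.re} := isOpen_lt continuous_const Complex.continuous_re

lemma rel_le {C δ r : ℝ} {ζ ζ' : ℂ} (hδ : 0 < δ) (h1 : δ ≤ ζ.re) (h2 : δ ≤ ζ'.re)
    (hr : ‖ζ - ζ'‖ ≤ r) : C * ‖ζ - ζ'‖ / min ζ.re ζ'.re ≤ |C| * r / δ := by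
  have hm : δ ≤ min ζ.re ζ'.re := le_min h1 h2
  have hr0 : 0 ≤ r := (norm_nonneg _).trans hr
  calc C * ‖ζ - ζ'‖ / min ζ.re ζ'.re ≤ |C| * r / min ζ.re ζ'.re := by
        refine div_le_div_of_nonneg_right ?_ (hδ.le.trans hm)
        exact mul_le_mul (le_abs_self C) hr (norm_nonneg _) (abs_nonneg _)
    _ ≤ |C| * r / δ := div_le_div_of_nonneg_left (by positivity) hδ hm

theorem holo_lim {ι : Type} (l : Ultrafilter ι) (F : ι → ℂ → ℂ) (C M : ℝ) (ζ₀ : ℂ)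
    (h0 : 0 < ζ₀.re) (hb : ∀ᶠ i in (l : Filter ι), ‖F i ζ₀‖ ≤ M)
    (hd : ∀ᶠ i in (l : Filter ι), DifferentiableOn ℂ (F i) {ζ | 0 < ζ.re})
    (hl : ∀ δ > 0, ∀ᶠ i in (l : Filter ι), ∀ ζ ζ' : ℂ, δ ≤ ζ.re → δ ≤ ζ'.re →
      ‖F i ζ - F i ζ'‖ ≤ C * ‖ζ - ζ'‖ / δ) :
    ∃ Φ : ℂ → ℂ, DifferentiableOn ℂ Φ {ζ | 0 < ζ.re} ∧
      (∀ ζ : ℂ, 0 < ζ.re → Tendsto (fun i => F i ζ) l (𝓝 (Φ ζ))) ∧
      ∀ ζ ζ' : ℂ, 0 < ζ.re → 0 < ζ'.re →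
        ‖Φ ζ - Φ ζ'‖ ≤ C * ‖ζ - ζ'‖ / min ζ.re ζ'.re := by
  have ex : ∀ ζ : ℂ, ∃ w : ℂ, 0 < ζ.re → Tendsto (fun i => F i ζ) l (𝓝 w) := by
    intro ζ
    by_cases hζ : 0 < ζ.re
    swap
    · exact ⟨0, fun h => absurd h hζ⟩
    have ev : ∀ᶠ i in (l : Filter ι),
        F i ζ ∈ Metric.closedBall (0 : ℂ) (M + C * ‖ζ - ζ₀‖ / min ζ.re ζ₀.re) := by
      filter_upwards [hb, hl _ (lt_min hζ h0)] with i h1 h2
      have := h2 ζ ζ₀ (min_le_left _ _) (min_le_right _ _)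
      rw [mem_closedBall_zero_iff]
      calc ‖F i ζ‖ = ‖F i ζ₀ + (F i ζ - F i ζ₀)‖ := by ring_nf
        _ ≤ ‖F i ζ₀‖ + ‖F i ζ - F i ζ₀‖ := norm_add_le _ _
        _ ≤ _ := add_le_add h1 this
    obtain ⟨w, -, hw⟩ := (isCompact_closedBall (0 : ℂ) _).ultrafilter_le_nhds
      (l.map fun i => F i ζ) (le_principal_iff.2 ev)
    exact ⟨w, fun _ => hw⟩
  choose Φ hΦ using ex
  have lip : ∀ ζ ζ' : ℂ, 0 < ζ.re → 0 < ζ'.re →
      ‖Φ ζ - Φ ζ'‖ ≤ C * ‖ζ - ζ'‖ / min ζ.re ζ'.re := by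
    intro ζ ζ' h1 h2
    refine le_of_tendsto ((hΦ ζ h1).sub (hΦ ζ' h2)).norm ?_
    filter_upwards [hl _ (lt_min h1 h2)] with i h
    exact h ζ ζ' (min_le_left _ _) (min_le_right _ _)
  refine ⟨Φ, ?_, hΦ, lip⟩
  refine TendstoLocallyUniformlyOn.differentiableOn (F := F) (φ := (l : Filter ι)) ?_ hd
    isOpen_re_pos
  rw [Metric.tendstoLocallyUniformlyOn_iff]
  intro ε hε x hx
  have hx' : 0 < x.re := hx
  set δ := x.re / 2 with hδ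
  have δ0 : 0 < δ := by positivity
  set r := min δ (ε / 4 * δ / (|C| + 1)) with hr
  have r0 : 0 < r := lt_min δ0 (by positivity)
  have rb : |C| * r / δ ≤ ε / 4 := by
    rw [div_le_iff₀ δ0]
    have h1 : r ≤ ε / 4 * δ / (|C| + 1) := min_le_right _ _
    rw [le_div_iff₀ (by positivity)] at h1
    nlinarith [abs_nonneg C]
  refine ⟨Metric.ball x r, mem_nhdsWithin_of_mem_nhds (Metric.ball_mem_nhds x r0), ?_⟩
  have e1 := (Metric.tendsto_nhds.1 (hΦ x hx')) (ε / 4) (by positivity)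
  filter_upwards [e1, hl δ δ0] with i h1 h2 y hy
  rw [mem_ball_iff_norm] at hy
  have hyre : δ ≤ y.re := by
    have h3 := Complex.abs_re_le_norm (y - x)
    have h4 : r ≤ δ := min_le_left _ _
    rw [Complex.sub_re, abs_le] at h3
    linarith [h3.1]
  have hxre : δ ≤ x.re := by linarith
  have a1 := (lip y x (δ0.trans_le hyre) hx').trans (rel_le δ0 hyre hxre hy.le)
  have a2 : ‖F i y - F i x‖ ≤ |C| * r / δ := (h2 y x hyre hxre).trans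
    (div_le_div_of_nonneg_right
      (mul_le_mul (le_abs_self C) hy.le (norm_nonneg _) (abs_nonneg _)) δ0.le)
  rw [dist_eq_norm] at h1 ⊢
  calc ‖Φ y - F i y‖ = ‖(Φ y - Φ x) - (F i x - Φ x) - (F i y - F i x)‖ := by ring_nf
    _ ≤ ‖Φ y - Φ x‖ + ‖F i x - Φ x‖ + ‖F i y - F i x‖ :=
        (norm_sub_le _ _).trans (add_le_add (norm_sub_le _ _) le_rfl)
    _ < ε := by linarith

end Pool.Agent.Lib.MP_6359c9_pr.Pl
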