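import Pool.Agent.Lib.MP_6359c9_pr.LogLip
import Pool.Agent.Lib.MP_6359c9_pr.LogHolo

/-! Holomorphic extension of the limit variogram along vertical lines. -/

namespace Pool.Agent.Lib.MP_6359c9_pr.Pl

open Filter Topology

variable {a : V → ℝ} {C : ℝ}

lemma Vario.cc_dbl (h : Vario a C) (M : ℕ) {j : ℕ} (hj : 0 < j) :
    cc a M j - cc a M (2 * j) ≤ 2 * C := by
  have h1 := h.dbl j (by omega)
  have h2 := dd_sum a j j
  have h3 := dd_sum a (j + M) j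
  have h4 := dd_sum a (j + 2 * M) j
  have h5 : 0 ≤ ∑ i ∈ Finset.range j, dd a (j + M + i) :=
    Finset.sum_nonneg fun i _ => h.dd_nonneg _
  have h6 : ∑ i ∈ Finset.range j, dd a (j + 2 * M + i) ≤ ∑ i ∈ Finset.range j, dd a (j + i) :=
    Finset.sum_le_sum fun i _ => h.dd_anti (by omega)
  unfold cc
  push_cast at *
  rw [show (j : ℤ) + M + j = 2 * j + M by ring] at h3
  rw [show (j : ℤ) + 2 * M + j = 2 * j + 2 * M by ring] at h4
  rw [← two_mul] at h2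
  linarith

lemma Bz_xy (h : Vario a C) (σ : ℤ) (M m : ℕ) :
    Bz a (dp 0 (pt 0 M)) ((Tz ^ m) (dp (pt σ 0) (pt σ M))) =
      -(a (pt σ m) - 2 * a (pt σ (m + M)) + a (pt σ (m + 2 * M))) := by
  have ht : ∀ σ : ℤ, 0 ≤ (pt σ (M : ℤ)).2 := fun σ => by simp [pt]
  rw [Bz_dp le_rfl (ht 0) (by simp [pt]) (ht σ)]
  have e1 : (0 : V) - rfx (pt σ 0) + pt 0 m = pt (-σ) m := by
    unfold rfx pt; ext <;> simp; ring
  have e2 : (0 : V) - rfx (pt σ M) + pt 0 m = pt (-σ) (m + M) := by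
    unfold rfx pt; ext <;> simp <;> ring
  have e3 : pt 0 M - rfx (pt σ 0) + pt 0 m = pt (-σ) (m + M) := by
    unfold rfx pt; ext <;> simp <;> ring
  have e4 : pt 0 M - rfx (pt σ M) + pt 0 m = pt (-σ) (m + 2 * M) := by
    unfold rfx pt; ext <;> simp <;> ring
  rw [e1, e2, e3, e4, h.neg_pt', h.neg_pt', h.neg_pt']; ring

lemma Bz_yy (σ : ℤ) (M m : ℕ) :
    Bz a (dp (pt σ 0) (pt σ M)) ((Tz ^ m) (dp (pt σ 0) (pt σ M))) = cc a M m := by
  have ht : ∀ σ : ℤ, 0 ≤ (pt σ (M : ℤ)).2 := fun σ => by simp [pt]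
  rw [Bz_dp (by simp [pt]) (ht σ) (by simp [pt]) (ht σ), cc]
  have e1 : pt σ 0 - rfx (pt σ 0) + pt 0 m = pt 0 m := by
    unfold rfx pt; ext <;> simp
  have e2 : pt σ 0 - rfx (pt σ M) + pt 0 m = pt 0 (m + M) := by
    unfold rfx pt; ext <;> simp <;> ring
  have e3 : pt σ M - rfx (pt σ 0) + pt 0 m = pt 0 (m + M) := by
    unfold rfx pt; ext <;> simp <;> ring
  have e4 : pt σ M - rfx (pt σ M) + pt 0 m = pt 0 (m + 2 * M) := by
    unfold rfx pt; ext <;> simp <;> ring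
  rw [e1, e2, e3, e4]; ring

/-- the interpolating exponential sum on the column `σ` -/
noncomputable def Fx (a : V → ℝ) (σ : ℤ) (M N : ℕ) : ℂ → ℂ :=
  Fb (W := Wz) (Bz a) Tz N (dp 0 (pt 0 M)) (dp (pt σ 0) (pt σ M))

lemma Vario.Fx_lip (h : Vario a C) (σ : ℤ) (M : ℕ) {j : ℕ} (hj : 0 < j) : ∀ᶠ N in atTop,
    ∀ ζ ζ' : ℂ, 2 * (j : ℝ) ≤ ζ.re → 2 * (j : ℝ) ≤ ζ'.re →
      ‖Fx a σ M N ζ - Fx a σ M N ζ'‖ ≤ ‖ζ - ζ'‖ / j * (2 * C + 1) := by
  have k : ∀ σ : ℤ, ∀ᶠ N in atTop,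
      (Fb (W := Wz) (Bz a) Tz N (dp (pt σ 0) (pt σ M)) (dp (pt σ 0) (pt σ M)) j).re -
      (Fb (W := Wz) (Bz a) Tz N (dp (pt σ 0) (pt σ M)) (dp (pt σ 0) (pt σ M)) (2 * j : ℕ)).re ≤
        2 * C + 1 := by
    intro σ
    have t1 := (Complex.continuous_re.tendsto _).comp
      (Fb_tendsto h.posCon (dp (pt σ 0) (pt σ M)) (dp (pt σ 0) (pt σ M)) hj)
    have t2 := (Complex.continuous_re.tendsto _).comp
      (Fb_tendsto h.posCon (dp (pt σ 0) (pt σ M)) (dp (pt σ 0) (pt σ M)) (m := 2 * j) (by omega))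
    rw [Bz_yy, Complex.ofReal_re] at t1 t2
    exact (t1.sub t2).eventually_le_const (by linarith [h.cc_dbl M hj])
  filter_upwards [k 0, k σ] with N h1 h2 ζ ζ' z1 z2
  rw [pt_zero] at h1
  refine (Fb_lip h.posCon N _ _ hj z1 z2).trans (mul_le_mul_of_nonneg_left ?_ (by positivity))
  linarith

lemma Vario.Fx_val (h : Vario a C) (σ : ℤ) {m n : ℕ} (hm : 0 < m) (hn : 0 < n) {ε : ℝ}
    (hε : 0 < ε) : ∀ᶠ M in atTop, ∀ᶠ N in atTop,
      ‖Fx a σ M N n - Fx a σ M N m - ((a (pt σ m) - a (pt σ n) : ℝ) : ℂ)‖ < ε := by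
  have u1 := h.up (pt σ m) (pt σ n)
  have u2 := u1.comp (tendsto_id.const_mul_atTop' (show 0 < 2 by norm_num))
  have u3 := ((u1.const_mul 2).sub u2).abs
  rw [mul_zero, sub_zero, abs_zero] at u3
  filter_upwards [u3.eventually_lt_const hε] with M hM
  have t1 := Fb_tendsto h.posCon (dp 0 (pt 0 M)) (dp (pt σ 0) (pt σ M)) hm
  have t2 := Fb_tendsto h.posCon (dp 0 (pt 0 M)) (dp (pt σ 0) (pt σ M)) hn
  have t3 := ((t2.sub t1).sub_const ((a (pt σ m) - a (pt σ n) : ℝ) : ℂ)).norm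
  refine t3.eventually_lt_const ?_
  rw [Bz_xy h, Bz_xy h, ← Complex.ofReal_sub, ← Complex.ofReal_sub, Complex.norm_real,
    Real.norm_eq_abs, ← abs_neg]
  refine lt_of_eq_of_lt ?_ hM
  simp only [Function.comp, id, pt_add, add_zero]
  push_cast
  congr 1; ring

theorem Vario.ext (h : Vario a C) : ∃ C' : ℝ, ∀ (l : Filter ℕ) (A : ℂ → ℝ), l ≤ atTop → l.NeBot →
    Lim a l A → ∀ s : ℝ, Ext (fun t => A (s + t * Complex.I)) C' := by
  refine ⟨4 * (2 * C + 1), fun l A hl hne hA s => ?_⟩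
  have hC := h.C_nonneg
  have q3 : (0 : ℝ) < Real.sqrt 3 := by positivity
  let L : Filter (ℕ × ℕ × ℕ) := l.curry (atTop.curry atTop)
  have hL : L.NeBot := by
    rw [← frequently_true_iff_neBot, frequently_curry_iff]
    refine Eventually.frequently (Eventually.of_forall fun _ => ?_)
    rw [frequently_curry_iff]
    exact Eventually.frequently (Eventually.of_forall fun _ =>
      Eventually.frequently (Eventually.of_forall fun _ => trivial))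
  let G : ℕ × ℕ × ℕ → ℂ → ℂ := fun i ζ =>
    Fx a ⌊i.1 * s⌋ i.2.1 i.2.2 i.1 - Fx a ⌊i.1 * s⌋ i.2.1 i.2.2 ((i.1 / Real.sqrt 3 : ℝ) * ζ) +
      ((a (pt ⌊i.1 * s⌋ i.1) - a (pt 0 i.1) : ℝ) : ℂ)
  have tn : Tendsto (fun n : ℕ => (n : ℝ) / Real.sqrt 3) l atTop :=
    (tendsto_natCast_atTop_atTop.atTop_div_const q3).mono_left hl
  have lip : ∀ δ > 0, ∀ᶠ i in L, ∀ ζ ζ' : ℂ, δ ≤ ζ.re → δ ≤ ζ'.re →
      ‖G i ζ - G i ζ'‖ ≤ 4 * (2 * C + 1) * ‖ζ - ζ'‖ / δ := by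
    intro δ hδ
    rw [eventually_curry_iff]
    filter_upwards [(tn.atTop_mul_const hδ).eventually_ge_atTop 4] with n hn
    rw [eventually_curry_iff]
    refine Eventually.of_forall fun M => ?_
    set lam : ℝ := (n : ℝ) / Real.sqrt 3 with hlam
    have l0 : 0 ≤ lam := by positivity
    have j1 := Nat.floor_le (a := lam * δ / 2) (by positivity)
    have j2 := Nat.lt_floor_add_one (lam * δ / 2)
    have j3 : 0 < ⌊lam * δ / 2⌋₊ := Nat.floor_pos.mpr (by linarith)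
    filter_upwards [h.Fx_lip ⌊n * s⌋ M j3] with N hN ζ ζ' z1 z2
    have := hN ((lam : ℂ) * ζ') ((lam : ℂ) * ζ)
      (by rw [Complex.re_ofReal_mul]; nlinarith) (by rw [Complex.re_ofReal_mul]; nlinarith)
    have e : G (n, M, N) ζ - G (n, M, N) ζ' =
        Fx a ⌊n * s⌋ M N (lam * ζ') - Fx a ⌊n * s⌋ M N (lam * ζ) := by
      simp only [G, hlam]; ring
    rw [e]
    refine this.trans ?_
    rw [← mul_sub, norm_mul, Complex.norm_real, Real.norm_eq_abs, abs_of_nonneg l0, norm_sub_rev]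
    have j4 : (0 : ℝ) < (⌊lam * δ / 2⌋₊ : ℝ) := by exact_mod_cast j3
    rw [div_mul_eq_mul_div, div_le_div_iff₀ j4 hδ]
    have j5 : lam * δ ≤ 4 * (⌊lam * δ / 2⌋₊ : ℝ) := by linarith
    have := mul_le_mul_of_nonneg_left j5 (show 0 ≤ ‖ζ - ζ'‖ * (2 * C + 1) by positivity)
    linarith
  have val : ∀ t : ℝ, 0 < t → Tendsto (fun i => G i t) L (𝓝 (A (s + t * Complex.I) : ℂ)) := by
    intro t ht
    have hz : (s + t * Complex.I : ℂ) ≠ 0 := fun e => by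
      have := congrArg Complex.im e
      simp at this; linarith
    have t1 := (Complex.continuous_ofReal.tendsto _).comp (hA _ hz)
    have fst : Tendsto Prod.fst L l := tendsto_fst.mono_left curry_le_prod
    rw [Metric.tendsto_nhds]
    intro ε hε
    have t2 : Tendsto (fun n : ℕ => 4 * (2 * C + 1) * ((n : ℝ) / Real.sqrt 3)⁻¹ / (t / 2)) l
        (𝓝 0) := by
      simpa using (tn.inv_tendsto_atTop.const_mul (4 * (2 * C + 1))).div_const (t / 2)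
    have k : ∀ᶠ i in L, ‖Fx a ⌊i.1 * s⌋ i.2.1 i.2.2 i.1 -
        Fx a ⌊i.1 * s⌋ i.2.1 i.2.2 (⌊i.1 / Real.sqrt 3 * t⌋₊ : ℕ) -
        ((a (pt ⌊i.1 * s⌋ (⌊i.1 / Real.sqrt 3 * t⌋₊ : ℕ)) - a (pt ⌊i.1 * s⌋ i.1) : ℝ) : ℂ)‖ <
          ε / 3 := by
      rw [eventually_curry_iff]
      filter_upwards [(tn.atTop_mul_const ht).eventually_ge_atTop 1,
        hl (eventually_gt_atTop 0)] with n hn hn'
      rw [eventually_curry_iff]
      exact h.Fx_val _ (Nat.floor_pos.mpr hn) hn' (by positivity)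
    filter_upwards [k, lip (t / 2) (by positivity),
      fst.eventually (Metric.tendsto_nhds.mp t1 (ε / 3) (by positivity)),
      fst.eventually (t2.eventually_lt_const (show 0 < ε / 3 by positivity)),
      fst.eventually ((tn.atTop_mul_const ht).eventually_ge_atTop 2)] with i k1 k2 k3 k4 k5
    obtain ⟨n, M, N⟩ := i
    simp only [Function.comp] at k1 k3 k4 k5
    set lam : ℝ := (n : ℝ) / Real.sqrt 3 with hlam
    have l0 : 0 < lam := by
      by_contra hc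
      nlinarith [not_lt.mp hc]
    have j1 := Nat.floor_le (a := lam * t) (by positivity)
    have j2 := Nat.lt_floor_add_one (lam * t)
    have e0 : (lam : ℂ) * ((⌊lam * t⌋₊ / lam : ℝ) : ℂ) = (⌊lam * t⌋₊ : ℕ) := by
      rw [← Complex.ofReal_mul, mul_div_cancel₀ _ l0.ne', Complex.ofReal_natCast]
    have k6 := k2 t ((⌊lam * t⌋₊ / lam : ℝ) : ℂ) (by rw [Complex.ofReal_re]; linarith)
      (by rw [Complex.ofReal_re, le_div_iff₀ l0]; linarith)
    have k7 : ‖(t : ℂ) - ((⌊lam * t⌋₊ / lam : ℝ) : ℂ)‖ ≤ lam⁻¹ := by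
      rw [← Complex.ofReal_sub, Complex.norm_real, Real.norm_eq_abs,
        show t - ⌊lam * t⌋₊ / lam = (lam * t - ⌊lam * t⌋₊) * lam⁻¹ by field_simp, abs_mul,
        abs_of_pos (inv_pos.mpr l0)]
      refine mul_le_of_le_one_left (by positivity) ?_
      rw [abs_le]; constructor <;> linarith
    have k8 : ‖G (n, M, N) t - G (n, M, N) ((⌊lam * t⌋₊ / lam : ℝ) : ℂ)‖ < ε / 3 := by
      refine k6.trans_lt (lt_of_le_of_lt ?_ k4)
      gcongr
    have e1 : near n (s + t * Complex.I) = pt ⌊n * s⌋ (⌊lam * t⌋₊ : ℕ) := by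
      unfold near
      rw [Int.natCast_floor_eq_floor (by positivity)]
      congr 2
      · simp
      · simp [hlam]; ring
    rw [e1, dist_eq_norm] at k3
    rw [dist_eq_norm]
    have e2 : G (n, M, N) t - (A (s + t * Complex.I) : ℂ) =
        (G (n, M, N) t - G (n, M, N) ((⌊lam * t⌋₊ / lam : ℝ) : ℂ)) +
        (Fx a ⌊n * s⌋ M N n - Fx a ⌊n * s⌋ M N (⌊lam * t⌋₊ : ℕ) -
          ((a (pt ⌊n * s⌋ (⌊lam * t⌋₊ : ℕ)) - a (pt ⌊n * s⌋ n) : ℝ) : ℂ)) +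
        (((a (pt ⌊n * s⌋ (⌊lam * t⌋₊ : ℕ)) - a (pt 0 n) : ℝ) : ℂ) - A (s + t * Complex.I)) := by
      simp only [G, ← hlam, e0]
      push_cast
      ring
    rw [e2]
    have := norm_add₃_le (a := G (n, M, N) t - G (n, M, N) ((⌊lam * t⌋₊ / lam : ℝ) : ℂ))
      (b := Fx a ⌊n * s⌋ M N n - Fx a ⌊n * s⌋ M N (⌊lam * t⌋₊ : ℕ) -
          ((a (pt ⌊n * s⌋ (⌊lam * t⌋₊ : ℕ)) - a (pt ⌊n * s⌋ n) : ℝ) : ℂ))
      (c := ((a (pt ⌊n * s⌋ (⌊lam * t⌋₊ : ℕ)) - a (pt 0 n) : ℝ) : ℂ) - A (s + t * Complex.I))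
    linarith
  have ul : ((Ultrafilter.of L : Ultrafilter _) : Filter _) ≤ L := Ultrafilter.of_le L
  obtain ⟨Φ, d, lim, lp⟩ := holo_lim (Ultrafilter.of L) G (4 * (2 * C + 1))
    (‖(A (s + (1 : ℝ) * Complex.I) : ℂ)‖ + 1) (1 : ℝ) (by simp)
    (((val 1 one_pos).mono_left ul).norm.eventually_le_const (by linarith))
    (Eventually.of_forall fun i => by
      refine Differentiable.differentiableOn ?_
      have := Fb_diff (W := Wz) (B := Bz a) (T := Tz) i.2.2 (dp 0 (pt 0 i.2.1))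
        (dp (pt ⌊i.1 * s⌋ 0) (pt ⌊i.1 * s⌋ i.2.1))
      exact ((differentiable_const _).sub
        (this.comp (differentiable_id.const_mul _))).add (differentiable_const _))
    (fun δ hδ => ul (lip δ hδ))
  exact ⟨Φ, d, fun t ht => tendsto_nhds_unique (lim t (by simpa using ht))
    ((val t ht).mono_left ul), lp⟩

end Pool.Agent.Lib.MP_6359c9_pr.Pl
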