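import Pool.Agent.Lib.MP_6359c9_pr.LogHolo

/-! Holomorphic parametric integrals, the identity theorem from the real axis and a Liouville
theorem for periodic functions of slow growth. -/

namespace Pool.Agent.Lib.MP_6359c9_pr.Pl

open Filter Topology MeasureTheory Set Metric

theorem hol_int {Ω : Type} [MeasurableSpace Ω] {ν : Measure Ω} {f : ℂ → Ω → ℂ} {S : Set ℂ}
    (hS : IsOpen S) {b : Ω → ℝ} (hb : Integrable b ν) (hm : ∀ t ∈ S, AEStronglyMeasurable (f t) ν)
    (hd : ∀ᵐ ω ∂ν, DifferentiableOn ℂ (fun t => f t ω) S ∧ ∀ t ∈ S, ‖f t ω‖ ≤ b ω) :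
    DifferentiableOn ℂ (fun t => ∫ ω, f t ω ∂ν) S := by
  intro t₀ ht₀
  obtain ⟨r, r0, hr⟩ := Metric.isOpen_iff.1 hS t₀ ht₀
  have hn : S ∈ 𝓝 t₀ := hS.mem_nhds ht₀
  have m' : AEStronglyMeasurable (fun ω => deriv (fun t => f t ω) t₀) ν := by
    set u : ℕ → ℂ := fun n => t₀ + ((r / 2 / (n + 1) : ℝ) : ℂ) with hu
    have up : ∀ n : ℕ, 0 < r / 2 / (n + 1) := fun n => by positivity
    have uS : ∀ n, u n ∈ S := fun n => hr (by
      rw [mem_ball_iff_norm, hu, add_sub_cancel_left, Complex.norm_real,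
        Real.norm_of_nonneg (up n).le]
      have : (1 : ℝ) ≤ n + 1 := by simp
      exact (div_le_self (by positivity) this).trans_lt (by linarith))
    have ut : Tendsto u atTop (𝓝[≠] t₀) := by
      refine tendsto_nhdsWithin_iff.2 ⟨?_, Eventually.of_forall fun n => ?_⟩
      · have := (Complex.continuous_ofReal.tendsto 0).comp
          (tendsto_const_div_atTop_nhds_zero_nat (r / 2) |>.comp (tendsto_add_atTop_nat 1))
        simpa [hu, Function.comp_def] using this.const_add t₀
      · simpa [hu, -Complex.ofReal_div] using (up n).ne'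
    refine aestronglyMeasurable_of_tendsto_ae atTop
      (f := fun n ω => slope (fun t => f t ω) t₀ (u n)) (fun n => ?_) ?_
    · exact ((hm _ (uS n)).sub (hm _ ht₀)).const_smul (u n - t₀)⁻¹
    · filter_upwards [hd] with ω h
      exact (hasDerivAt_iff_tendsto_slope.1 (h.1.differentiableAt hn).hasDerivAt).comp ut
  refine (hasDerivAt_integral_of_dominated_loc_of_lip (s := Metric.ball t₀ (r / 2))
    (bound := fun ω => 2 * b ω / (r / 2)) (ball_mem_nhds _ (by positivity))
    (mem_of_superset hn hm) ?_ m' ?_ ((hb.const_mul 2).div_const _)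
    ?_).2.differentiableAt.differentiableWithinAt
  · exact hb.mono' (hm _ ht₀) (hd.mono fun ω h => h.2 _ ht₀)
  · filter_upwards [hd] with ω h
    have hb : ∀ t ∈ Metric.ball t₀ (r / 2), Metric.ball t (r / 2) ⊆ S := fun t ht =>
      (ball_subset_ball' (by rw [mem_ball] at ht; linarith)).trans hr
    refine (convex_ball _ _).lipschitzOnWith_of_nnnorm_deriv_le (𝕜 := ℂ) (fun t ht =>
      h.1.differentiableAt (hS.mem_nhds (hb t ht (mem_ball_self (by positivity))))) fun t ht => ?_
    rw [← NNReal.coe_le_coe, coe_nnnorm, Real.coe_nnabs]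
    refine (Complex.norm_deriv_le_div_of_mapsTo_ball (h.1.mono (hb t ht)) (fun s hs => ?_)
      (by positivity)).trans (le_abs_self _)
    rw [mem_closedBall_iff_norm]
    linarith [norm_sub_le (f s ω) (f t ω), h.2 s (hb t ht hs),
      h.2 t (hb t ht (mem_ball_self (by positivity)))]
  · exact hd.mono fun ω h => (h.1.differentiableAt hn).hasDerivAt

/-- identity theorem from the real points -/
theorem eq_of_real {f g : ℂ → ℂ} {U : Set ℂ} (hU : IsOpen U) (hc : Convex ℝ U)
    (hf : DifferentiableOn ℂ f U) (hg : DifferentiableOn ℂ g U) {x₀ : ℝ} (h0 : (x₀ : ℂ) ∈ U)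
    (h : ∀ x : ℝ, (x : ℂ) ∈ U → f x = g x) : EqOn f g U := by
  refine (hf.analyticOnNhd hU).eqOn_of_preconnected_of_frequently_eq (hg.analyticOnNhd hU)
    hc.isPreconnected h0 ?_
  have t : Tendsto (fun x : ℝ => (x : ℂ)) (𝓝[≠] x₀) (𝓝[≠] (x₀ : ℂ)) := by
    refine tendsto_nhdsWithin_iff.2 ⟨(Complex.continuous_ofReal.tendsto x₀).mono_left
      nhdsWithin_le_nhds, ?_⟩
    filter_upwards [self_mem_nhdsWithin] with x hx
    simpa using hx
  refine t.frequently (Eventually.frequently ?_)
  have : ∀ᶠ x : ℝ in 𝓝[≠] x₀, (x : ℂ) ∈ U :=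
    ((Complex.continuous_ofReal.tendsto x₀).mono_left nhdsWithin_le_nhds).eventually
      (hU.mem_nhds h0)
  exact this.mono h

/-- an entire periodic function of slow growth is constant -/
theorem per_const {E : ℂ → ℂ} {M : ℝ} (hd : Differentiable ℂ E)
    (hp : Function.Periodic E ((Real.pi / 3 : ℝ) : ℂ))
    (hb : ∀ θ, ‖E θ‖ ≤ M * Real.exp (5 * |θ.im|)) (z w : ℂ) : E z = E w := by
  have hh : Real.pi / 3 ≠ 0 := by positivity
  have M0 : 0 ≤ M := by simpa using (norm_nonneg _).trans (hb 0)
  set f := Function.Periodic.cuspFunction (Real.pi / 3) E with hf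
  have fd : ∀ q ≠ 0, DifferentiableAt ℂ f q := fun q hq => by
    have := Function.Periodic.differentiableAt_cuspFunction hh hp
      (hd (Function.Periodic.invQParam (Real.pi / 3) q))
    rwa [Function.Periodic.qParam_right_inv hh hq] at this
  have fb : ∀ q ≠ 0, ‖f q‖ ≤ M * Real.exp (5 / 6 * |Real.log ‖q‖|) := fun q hq => by
    rw [hf, Function.Periodic.cuspFunction_eq_of_nonzero _ _ hq]
    refine (hb _).trans (le_of_eq ?_)
    rw [Function.Periodic.im_invQParam, abs_mul]
    have : -(Real.pi / 3) / (2 * Real.pi) = -(1 / 6) := by field_simp; norm_num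
    rw [this, abs_neg, abs_of_pos (by norm_num : (0 : ℝ) < 1 / 6)]
    ring_nf
  set F : ℂ → ℂ := fun q => q * f q with hF
  have Fc : ContinuousAt F 0 := by
    have c : Continuous fun q : ℂ => M * ‖q‖ ^ (1 / 6 : ℝ) :=
      (continuous_norm.rpow_const fun _ => Or.inr (by norm_num)).const_mul M
    have t := c.tendsto 0
    simp only [norm_zero, Real.zero_rpow (by norm_num : (1 / 6 : ℝ) ≠ 0), mul_zero] at t
    have : F 0 = 0 := by simp [hF]
    rw [ContinuousAt, this]
    refine squeeze_zero_norm' ?_ t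
    filter_upwards [ball_mem_nhds (0 : ℂ) one_pos] with q hq
    rw [mem_ball_zero_iff] at hq
    by_cases h0 : q = 0
    · simp [hF, h0]
    have qp : 0 < ‖q‖ := norm_pos_iff.2 h0
    rw [hF, norm_mul, Real.rpow_def_of_pos qp]
    refine (mul_le_mul_of_nonneg_left (fb q h0) qp.le).trans (le_of_eq ?_)
    rw [abs_of_nonpos (Real.log_nonpos qp.le hq.le)]
    nth_rewrite 1 [← Real.exp_log qp]
    rw [mul_left_comm, ← Real.exp_add]
    ring_nf
  have Fd : Differentiable ℂ F := by
    rw [← differentiableOn_univ, ← Complex.differentiableOn_compl_singleton_and_continuousAt_iff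
      (c := 0) univ_mem]
    exact ⟨fun q hq => (differentiableAt_id.mul (fd q hq.2)).differentiableWithinAt, Fc⟩
  have d1 : Differentiable ℂ (dslope F 0) := by
    rw [← differentiableOn_univ, Complex.differentiableOn_dslope univ_mem]
    exact Fd.differentiableOn
  have d2 : Differentiable ℂ (dslope (dslope F 0) 0) := by
    rw [← differentiableOn_univ, Complex.differentiableOn_dslope univ_mem]
    exact d1.differentiableOn
  have e1 : ∀ q ≠ 0, dslope F 0 q = f q := fun q hq => by
    rw [dslope_of_ne _ hq, slope_def_field]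
    simp only [hF]
    field_simp
    ring
  set c := dslope F 0 0 with hc
  have e2 : ∀ q ≠ 0, dslope (dslope F 0) 0 q = (f q - c) / q := fun q hq => by
    rw [dslope_of_ne _ hq, slope_def_field, e1 q hq, sub_zero]
  have t2 : Tendsto (dslope (dslope F 0) 0) (cocompact ℂ) (𝓝 0) := by
    have tn : Tendsto (fun q : ℂ => ‖q‖) (cocompact ℂ) atTop := tendsto_norm_cocompact_atTop (E := ℂ)
    have t : Tendsto (fun q : ℂ => M * ‖q‖ ^ (-(1 / 6 : ℝ)) + ‖c‖ * ‖q‖⁻¹) (cocompact ℂ)
        (𝓝 (M * 0 + ‖c‖ * 0)) :=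
      (((tendsto_rpow_neg_atTop (by norm_num)).comp tn).const_mul M).add
        ((tendsto_inv_atTop_zero.comp tn).const_mul _)
    simp only [mul_zero, add_zero] at t
    refine squeeze_zero_norm' ?_ t
    filter_upwards [tn.eventually_ge_atTop 1] with q hq
    have qp : 0 < ‖q‖ := by linarith
    have h0 : q ≠ 0 := norm_pos_iff.1 qp
    rw [e2 q h0, norm_div, div_le_iff₀ qp, add_mul, mul_assoc ‖c‖, inv_mul_cancel₀ qp.ne',
      mul_one]
    refine (norm_sub_le _ _).trans (add_le_add ((fb q h0).trans (le_of_eq ?_)) le_rfl)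
    rw [abs_of_nonneg (Real.log_nonneg hq), Real.rpow_def_of_pos qp, mul_assoc]
    nth_rewrite 3 [← Real.exp_log qp]
    rw [← Real.exp_add]
    ring_nf
  have e3 : ∀ q ≠ 0, f q = c := fun q hq => by
    have := d2.apply_eq_of_tendsto_cocompact q t2
    rw [e2 q hq, div_eq_zero_iff] at this
    exact sub_eq_zero.1 (this.resolve_right hq)
  rw [← Function.Periodic.eq_cuspFunction hh hp z, ← Function.Periodic.eq_cuspFunction hh hp w,
    ← hf, e3 _ (Function.Periodic.qParam_ne_zero z), e3 _ (Function.Periodic.qParam_ne_zero w)]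

lemma strip_open (a b : ℝ) : IsOpen {θ : ℂ | a < θ.re ∧ θ.re < b} :=
  (isOpen_lt continuous_const Complex.continuous_re).inter
    (isOpen_lt Complex.continuous_re continuous_const)

lemma strip_convex (a b : ℝ) : Convex ℝ {θ : ℂ | a < θ.re ∧ θ.re < b} :=
  (convex_halfSpace_re_gt a).inter (convex_halfSpace_re_lt b)

theorem liou {K : ℂ → ℂ} {M : ℝ}
    (hd : DifferentiableOn ℂ K {θ | 0 < θ.re ∧ θ.re < Real.pi / 2})
    (hp : ∀ x : ℝ, 0 < x → x < Real.pi / 6 → K (x + Real.pi / 3 : ℝ) = K x)
    (hb : ∀ θ : ℂ, Real.pi / 12 ≤ θ.re → θ.re ≤ 5 * Real.pi / 12 →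
      ‖K θ‖ ≤ M * Real.exp (5 * |θ.im|)) :
    ∀ x y : ℝ, 0 < x → x < Real.pi / 2 → 0 < y → y < Real.pi / 2 → K x = K y := by
  have pp := Real.pi_pos
  set p : ℝ := Real.pi / 3 with hpd
  have p0 : 0 < p := by positivity
  have per : ∀ θ : ℂ, 0 < θ.re → θ.re < Real.pi / 6 → K (θ + p) = K θ := by
    intro θ h1 h2
    refine eq_of_real (f := fun θ => K (θ + p)) (g := K) (strip_open 0 (Real.pi / 6))
      (strip_convex _ _) ?_ (hd.mono fun θ h => ⟨h.1, by linarith [h.2]⟩) (x₀ := Real.pi / 12)
      ⟨by simp; positivity, by simp; linarith⟩ ?_ ⟨h1, h2⟩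
    · refine hd.comp (differentiableOn_id.add_const _) fun θ h => ?_
      simp only [Set.mem_ofPred_eq, Complex.add_re, Complex.ofReal_re] at h ⊢
      constructor <;> linarith [h.1, h.2]
    · intro x hx
      simp only [Set.mem_ofPred_eq, Complex.ofReal_re] at hx
      have := hp x hx.1 hx.2
      rwa [Complex.ofReal_add] at this
  set k : ℂ → ℤ := fun θ => ⌊(θ.re - Real.pi / 12) / p⌋ with hk
  have k1 : ∀ θ : ℂ, Real.pi / 12 ≤ θ.re - k θ * p := fun θ => by
    have := Int.floor_le ((θ.re - Real.pi / 12) / p)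
    rw [le_div_iff₀ p0] at this
    linarith
  have k2 : ∀ θ : ℂ, θ.re - k θ * p < 5 * Real.pi / 12 := fun θ => by
    have := Int.lt_floor_add_one ((θ.re - Real.pi / 12) / p)
    rw [div_lt_iff₀ p0] at this
    linarith
  set E : ℂ → ℂ := fun θ => K (θ - k θ * p) with hE
  have loc : ∀ (θ : ℂ) (m : ℤ), 0 < θ.re - m * p → θ.re - m * p < Real.pi / 2 →
      E θ = K (θ - m * p) := by
    intro θ m h1 h2
    have a1 := k1 θ
    have a2 := k2 θ
    have b1 : (k θ : ℝ) < m + 2 := by
      by_contra hn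
      have := mul_le_mul_of_nonneg_right (not_lt.1 hn) p0.le
      linarith
    have b2 : (m : ℝ) < k θ + 2 := by
      by_contra hn
      have := mul_le_mul_of_nonneg_right (not_lt.1 hn) p0.le
      linarith
    have c1 : k θ < m + 2 := by exact_mod_cast b1
    have c2 : m < k θ + 2 := by exact_mod_cast b2
    obtain h | h | h : k θ = m ∨ k θ = m + 1 ∨ m = k θ + 1 := by omega
    · simp only [hE, h]
    · rw [h] at a1 a2
      push_cast at a1 a2
      have := per (θ - k θ * p) (by simp [h]; linarith) (by simp [h]; linarith)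
      simp only [hE]
      rw [← this, h]
      congr 1
      push_cast
      ring
    · rw [h] at h1 h2
      push_cast at h1 h2
      have := per (θ - m * p) (by simp [h]; linarith) (by simp [h]; linarith)
      simp only [hE]
      rw [← this, h]
      congr 1
      push_cast
      ring
  have Ed : Differentiable ℂ E := by
    intro θ
    have a1 := k1 θ
    have a2 := k2 θ
    have o := strip_open 0 (Real.pi / 2)
    have m : θ - k θ * p ∈ {θ : ℂ | 0 < θ.re ∧ θ.re < Real.pi / 2} := by
      simp only [Set.mem_ofPred_eq, Complex.sub_re, Complex.mul_re, Complex.intCast_re,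
        Complex.ofReal_re, Complex.intCast_im, Complex.ofReal_im, mul_zero, sub_zero]
      constructor <;> linarith
    have d : DifferentiableAt ℂ (fun η : ℂ => K (η - k θ * p)) θ :=
      DifferentiableAt.comp (g := K) (f := fun η : ℂ => η - k θ * p) θ
        (hd.differentiableAt (o.mem_nhds m)) (differentiableAt_id.sub_const _)
    refine d.congr_of_eventuallyEq ?_
    have c : ContinuousAt (fun η : ℂ => η - k θ * p) θ := by fun_prop
    filter_upwards [c.eventually (o.mem_nhds m)] with η hη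
    simp only [Complex.sub_re, Complex.mul_re, Complex.intCast_re,
        Complex.ofReal_re, Complex.intCast_im, Complex.ofReal_im, mul_zero, sub_zero] at hη
    exact loc η _ hη.1 hη.2
  have Ep : Function.Periodic E (p : ℂ) := by
    intro θ
    have a1 := k1 θ
    have a2 := k2 θ
    rw [loc (θ + p) (k θ + 1) (by simp; linarith) (by simp; linarith)]
    simp only [hE]
    congr 1
    push_cast
    ring
  have Eb : ∀ θ, ‖E θ‖ ≤ M * Real.exp (5 * |θ.im|) := fun θ => by
    have := hb (θ - k θ * p) (by simpa using k1 θ) (by simpa using (k2 θ).le)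
    simpa using this
  intro x y x0 x1 y0 y1
  have ex := loc x 0 (by simpa using x0) (by simpa using x1)
  have ey := loc y 0 (by simpa using y0) (by simpa using y1)
  simp only [Int.cast_zero, zero_mul, sub_zero] at ex ey
  rw [← ex, ← ey]
  exact per_const Ed Ep Eb _ _

end Pool.Agent.Lib.MP_6359c9_pr.Pl
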