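import Pool.Agent.Lib.MP_6359c9_pr.LogCore

/-! The variogram is Lipschitz at relative scale. -/

namespace Pool.Agent.Lib.MP_6359c9_pr.Pl

open Filter Topology

variable {a : V → ℝ} {C : ℝ}

lemma rot_add (x y : V) : rot (x + y) = rot x + rot y := by
  unfold rot; ext <;> simp <;> ring

lemma rot_sub (x y : V) : rot (x - y) = rot x - rot y := by
  unfold rot; ext <;> simp <;> ring

lemma nrm_rot (x : V) : nrm (rot x) = nrm x := by
  apply le_antisymm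
  · have := nrm_le_iff.mp (le_refl (nrm x))
    rw [nrm_le_iff]; simp only [rot]; omega
  · have := nrm_le_iff.mp (le_refl (nrm (rot x)))
    rw [nrm_le_iff]; simp only [rot] at this ⊢; omega

lemma nrm_swap (x : V) : nrm x.swap = nrm x := by
  unfold nrm; simp only [Prod.fst_swap, Prod.snd_swap]; rw [max_comm |x.2|, add_comm x.2]

lemma nrm_nonneg (x : V) : 0 ≤ nrm x := by
  have := nrm_le_iff.mp (le_refl (nrm x)); omega

lemma nrm_neg (x : V) : nrm (-x) = nrm x := by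
  unfold nrm; simp only [Prod.fst_neg, Prod.snd_neg, abs_neg, ← neg_add]

lemma nrm_sector {x : V} (h1 : 0 ≤ x.1) (h2 : 0 ≤ x.2) : nrm x = x.1 + x.2 := by
  have := nrm_le_iff.mp (le_refl (nrm x))
  have : nrm x ≤ x.1 + x.2 := by rw [nrm_le_iff]; omega
  omega

lemma Vario.swap (h : Vario a C) (x : V) : a x.swap = a x := by
  rw [← h.rfx x, ← h.rot (Pl.rfx x)]
  congr 1
  unfold Pl.rot Pl.rfx; ext <;> simp

lemma sector {Q : V → V → Prop} (hr : ∀ x y, Q (rot x) (rot y) → Q x y)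
    (hs : ∀ x y : V, Q x.swap y.swap → Q x y) (h : ∀ x y, 0 ≤ x.1 → x.1 ≤ x.2 → Q x y) (x y : V) :
    Q x y := by
  have h1 : ∀ x y, 0 ≤ x.1 → 0 ≤ x.2 → Q x y := by
    intro x y h1 h2
    rcases le_total x.1 x.2 with h3 | h3
    · exact h x y h1 h3
    · exact hs _ _ (h _ _ h2 h3)
  have : (0 ≤ x.1 ∧ 0 ≤ x.2) ∨ (0 ≤ -x.2 ∧ 0 ≤ x.1 + x.2) ∨ (0 ≤ -(x.1 + x.2) ∧ 0 ≤ x.1) ∨
      (0 ≤ -x.1 ∧ 0 ≤ -x.2) ∨ (0 ≤ x.2 ∧ 0 ≤ -(x.1 + x.2)) ∨ (0 ≤ x.1 + x.2 ∧ 0 ≤ -x.1) := by omega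
  rcases this with h | h | h | h | h | h
  · exact h1 _ _ h.1 h.2
  · exact hr _ _ (h1 _ _ (by simp only [rot]; omega) (by simp only [rot]; omega))
  · exact hr _ _ (hr _ _ (h1 _ _ (by simp only [rot]; omega) (by simp only [rot]; omega)))
  · exact hr _ _ (hr _ _ (hr _ _ (h1 _ _ (by simp only [rot]; omega) (by simp only [rot]; omega))))
  · exact hr _ _ (hr _ _ (hr _ _ (hr _ _
      (h1 _ _ (by simp only [rot]; omega) (by simp only [rot]; omega)))))
  · exact hr _ _ (hr _ _ (hr _ _ (hr _ _ (hr _ _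
      (h1 _ _ (by simp only [rot]; omega) (by simp only [rot]; omega))))))

lemma Vario.first_int (h : Vario a C) (j : ℕ) (k : ℤ) {x : V} (hx : 2 * (j : ℤ) ≤ x.2)
    (hx' : 2 * (j : ℤ) ≤ x.2 + 2 * k) : |a (x + pt 0 k) - a x| ≤ |(k : ℝ)| * dd a j := by
  obtain ⟨n, rfl | rfl⟩ := Int.eq_nat_or_neg k
  · simpa using h.first_nat j n hx
  · have := h.first_nat j n (x := x + pt 0 (-n)) (by simpa [pt] using hx')
    rw [add_assoc, pt_add, add_zero, neg_add_cancel, pt_zero, add_zero, abs_sub_comm] at this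
    simpa using this

lemma Vario.first_int' (h : Vario a C) (j : ℕ) (k : ℤ) {x : V} (hx : 2 * (j : ℤ) ≤ x.1 + x.2)
    (hx' : 2 * (j : ℤ) ≤ x.1 + x.2 + 2 * k) : |a (x + (k, k)) - a x| ≤ |(k : ℝ)| * dd a j := by
  have := h.first_int j k (x := Pl.rot x) hx hx'
  rwa [show pt 0 k = Pl.rot (k, k) by unfold pt Pl.rot; ext <;> simp; ring, ← rot_add, h.rot,
    h.rot] at this

lemma Vario.unit (h : Vario a C) : ∀ ε > 0, ∃ R : ℤ, ∀ (x : V) (e : ℤ), -1 ≤ e → e ≤ 1 →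
    R ≤ nrm x → |a (x + (e, 0)) - a x| ≤ ε := by
  intro ε hε
  obtain ⟨R, hR⟩ := h.far ε hε
  refine ⟨R, fun x e h1 h2 hx => ?_⟩
  rcases eq_or_ne e 0 with rfl | he
  · rw [show x + (0, 0) = x from add_zero x]; simpa using hε.le
  · rw [abs_sub_comm]
    exact hR _ _ (by unfold Adj; simp only [Prod.fst_add, Prod.snd_add]; omega) hx

lemma Vario.dd_le' (h : Vario a C) {N : ℤ} (hN : 40 ≤ N) :
    dd a (N / 16).toNat ≤ 96 * C / N := by
  refine (h.dd_le (by omega)).trans ?_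
  have h1 : (0 : ℝ) < ((N / 16).toNat : ℝ) := by exact_mod_cast (by omega : 0 < (N / 16).toNat)
  have h2 : (0 : ℝ) < N := by exact_mod_cast (by omega : 0 < N)
  have h3 : (N : ℝ) ≤ 32 * ((N / 16).toNat : ℝ) := by
    have : N ≤ 32 * ((N / 16).toNat : ℤ) := by omega
    exact_mod_cast this
  have := h.C_nonneg
  rw [div_le_div_iff₀ h1 h2]
  nlinarith

lemma Vario.lip_loc (h : Vario a C) : ∀ ε > 0, ∃ R : ℤ, ∀ x y : V, R ≤ nrm x →
    20 * nrm (x - y) ≤ nrm x → |a x - a y| ≤ 192 * C * nrm (x - y) / nrm x + ε := by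
  intro ε hε
  obtain ⟨R, hR⟩ := h.unit (ε / 2) (by positivity)
  obtain ⟨R', hR'⟩ := exists_int_gt (192 * C / (ε / 2))
  refine ⟨max (max R R') 100, fun x y => ?_⟩
  refine sector (Q := fun x y => max (max R R') 100 ≤ nrm x → 20 * nrm (x - y) ≤ nrm x →
    |a x - a y| ≤ 192 * C * nrm (x - y) / nrm x + ε) ?_ ?_ ?_ x y
  · intro x y; rw [← rot_sub, nrm_rot, nrm_rot, h.rot, h.rot]; exact id
  · intro x y; rw [← Prod.swap_sub, nrm_swap, nrm_swap, h.swap, h.swap]; exact id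
  intro x y h1 h2 hx hz
  simp only [max_le_iff] at hx
  have hN := nrm_sector h1 (h1.trans h2)
  have hb := nrm_le_iff.mp (le_refl (nrm (x - y)))
  simp only [Prod.fst_sub, Prod.snd_sub] at hb
  obtain ⟨α, β, e, e1, e2, e3, e4⟩ : ∃ α β e : ℤ, -1 ≤ e ∧ e ≤ 1 ∧ y.1 = x.1 + e - α + β ∧
      y.2 = x.2 + 2 * α + β :=
    ⟨(y.2 - x.2 - (y.1 - x.1) + 1) / 3, y.2 - x.2 - 2 * ((y.2 - x.2 - (y.1 - x.1) + 1) / 3),
      1 - (y.2 - x.2 - (y.1 - x.1) + 1) % 3, by omega, by omega, by omega, by omega⟩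
  have ey : y = x + (e, 0) + pt 0 α + (β, β) := by
    unfold pt; ext <;> simp <;> omega
  have s1 := hR x e e1 e2 hx.1.1
  have s2 := h.first_int (nrm x / 16).toNat α (x := x + (e, 0)) (by simp; omega) (by simp; omega)
  have s3 := h.first_int' (nrm x / 16).toNat β (x := x + (e, 0) + pt 0 α) (by simp [pt]; omega)
    (by simp [pt]; omega)
  rw [← ey] at s3
  have d1 := h.dd_le' (N := nrm x) (by omega)
  have d0 := h.dd_nonneg (nrm x / 16).toNat
  have b1 : |(α : ℝ)| ≤ nrm (x - y) + 1 := by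
    have : |α| ≤ nrm (x - y) + 1 := by rw [abs_le]; omega
    exact_mod_cast this
  have b2 : |(β : ℝ)| ≤ nrm (x - y) + 1 := by
    have : |β| ≤ nrm (x - y) + 1 := by rw [abs_le]; omega
    exact_mod_cast this
  have n0 : (0 : ℝ) ≤ nrm (x - y) := by exact_mod_cast nrm_nonneg _
  have N0 : (0 : ℝ) < nrm x := by exact_mod_cast (by omega : 0 < nrm x)
  have t2 := s2.trans (mul_le_mul b1 d1 d0 (by linarith))
  have t3 := s3.trans (mul_le_mul b2 d1 d0 (by linarith))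
  have t4 : 192 * C / nrm x ≤ ε / 2 := by
    rw [div_lt_iff₀ (by positivity)] at hR'
    have : (R' : ℝ) ≤ nrm x := by exact_mod_cast hx.1.2
    rw [div_le_iff₀ N0]; nlinarith
  have e5 : 2 * ((nrm (x - y) + 1 : ℝ) * (96 * C / nrm x)) =
      192 * C * nrm (x - y) / nrm x + 192 * C / nrm x := by ring
  rw [abs_le] at s1 t2 t3 ⊢
  constructor <;> linarith [s1.1, s1.2, t2.1, t2.2, t3.1, t3.2]

lemma Vario.axis (h : Vario a C) : ∃ R : ℤ, ∀ x : V, R ≤ nrm x →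
    |a x - a (pt 0 (nrm x))| ≤ 192 * C + 1 := by
  obtain ⟨R, hR⟩ := h.unit 1 one_pos
  refine ⟨max R 100, fun x => ?_⟩
  refine sector (Q := fun x _ => max R 100 ≤ nrm x → |a x - a (pt 0 (nrm x))| ≤ 192 * C + 1)
    ?_ ?_ ?_ x x
  · intro x _; rw [nrm_rot, h.rot]; exact id
  · intro x _; rw [nrm_swap, h.swap]; exact id
  intro x _ h1 h2 hx
  simp only [max_le_iff] at hx
  have hN := nrm_sector h1 (h1.trans h2)
  obtain ⟨α, β, e, e1, e2, e3, e4⟩ : ∃ α β e : ℤ, -1 ≤ e ∧ e ≤ 1 ∧ β = x.1 + e - α ∧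
      β = x.2 + 2 * α :=
    ⟨(x.1 - x.2 + 1) / 3, x.2 + 2 * ((x.1 - x.2 + 1) / 3), 1 - (x.1 - x.2 + 1) % 3 - 0,
      by omega, by omega, by omega, by omega⟩
  have ey : x + (e, 0) + pt 0 α = (β, β) := by
    unfold pt; ext <;> simp <;> omega
  have s1 := hR x e e1 e2 hx.1
  have s2 := h.first_int (nrm x / 16).toNat α (x := x + (e, 0)) (by simp; omega) (by simp; omega)
  have s3 := h.first_int (nrm x / 16).toNat (nrm x - β) (x := pt 0 β) (by simp [pt]; omega)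
    (by simp [pt]; omega)
  rw [ey, ← h.rot (β, β), show Pl.rot (β, β) = pt 0 β by unfold pt Pl.rot; ext <;> simp; ring] at s2
  rw [pt_add, add_zero, add_sub_cancel] at s3
  have d1 := h.dd_le' (N := nrm x) (by omega)
  have d0 := h.dd_nonneg (nrm x / 16).toNat
  have b1 : |(α : ℝ)| ≤ nrm x := by
    have : |α| ≤ nrm x := by rw [abs_le]; omega
    exact_mod_cast this
  have b2 : |((nrm x - β : ℤ) : ℝ)| ≤ nrm x := by
    have : |nrm x - β| ≤ nrm x := by rw [abs_le]; omega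
    exact_mod_cast this
  have N0 : (0 : ℝ) < nrm x := by exact_mod_cast (by omega : 0 < nrm x)
  have t2 := s2.trans (mul_le_mul b1 d1 d0 N0.le)
  have t3 := s3.trans (mul_le_mul b2 d1 d0 N0.le)
  have e5 : (nrm x : ℝ) * (96 * C / nrm x) = 96 * C := by field_simp
  rw [abs_le] at s1 t2 t3 ⊢
  constructor <;> linarith [s1.1, s1.2, t2.1, t2.2, t3.1, t3.2]

lemma Vario.lip_nrm (h : Vario a C) : ∃ C₁ : ℝ, 0 ≤ C₁ ∧ ∀ ε > 0, ∃ R : ℤ, ∀ x y : V, R ≤ nrm x →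
    nrm x ≤ nrm y → |a x - a y| ≤ C₁ * nrm (x - y) / nrm x + ε := by
  have hC := h.C_nonneg
  refine ⟨8000 * C + 40, by positivity, fun ε hε => ?_⟩
  obtain ⟨R, hR⟩ := h.lip_loc ε hε
  obtain ⟨R', hR'⟩ := h.axis
  refine ⟨max (max R R') 100, fun x y hx hy => ?_⟩
  simp only [max_le_iff] at hx
  have n0 : (0 : ℝ) ≤ nrm (x - y) := by exact_mod_cast nrm_nonneg _
  have N0 : (0 : ℝ) < nrm x := by exact_mod_cast (by omega : 0 < nrm x)
  rcases le_total (20 * nrm (x - y)) (nrm x) with hz | hz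
  · refine (hR x y hx.1.1 hz).trans (add_le_add_left ?_ _)
    exact div_le_div_of_nonneg_right (mul_le_mul_of_nonneg_right (by linarith) n0) N0.le
  · have s1 := hR' x hx.1.2
    have s2 := hR' y (hx.1.2.trans hy)
    have s3 := h.first_int (nrm x / 16).toNat (nrm y - nrm x) (x := pt 0 (nrm x))
      (by simp [pt]; omega) (by simp [pt]; omega)
    rw [pt_add, add_zero, add_sub_cancel] at s3
    have d1 := h.dd_le' (N := nrm x) (by omega)
    have d0 := h.dd_nonneg (nrm x / 16).toNat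
    have b1 : |((nrm y - nrm x : ℤ) : ℝ)| ≤ nrm (x - y) := by
      have := nrm_le_add y (x - y)
      rw [add_sub_cancel] at this
      have : |nrm y - nrm x| ≤ nrm (x - y) := by rw [abs_le]; omega
      exact_mod_cast this
    have t3 := s3.trans (mul_le_mul b1 d1 d0 n0)
    have hz' : (1 : ℝ) ≤ 20 * (nrm (x - y) / nrm x) := by
      have : (nrm x : ℝ) ≤ 20 * nrm (x - y) := by exact_mod_cast hz
      rw [← mul_div_assoc, le_div_iff₀ N0]; linarith
    have e1 : (nrm (x - y) : ℝ) * (96 * C / nrm x) = 96 * C * (nrm (x - y) / nrm x) := by ring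
    rw [mul_div_assoc]
    rw [e1] at t3
    have t5 : 2 * (192 * C + 1) ≤ 2 * (192 * C + 1) * (20 * ((nrm (x - y) : ℝ) / nrm x)) :=
      le_mul_of_one_le_right (by positivity) hz'
    have t6 : 0 ≤ C * ((nrm (x - y) : ℝ) / nrm x) := by positivity
    rw [abs_le] at s1 s2 t3 ⊢
    constructor <;> nlinarith [s1.1, s1.2, s2.1, s2.2, t3.1, t3.2]

lemma emb_sub (x y : V) : emb (x - y) = emb x - emb y := by
  unfold emb; simp; ring

lemma emb_add (x y : V) : emb (x + y) = emb x + emb y := by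
  unfold emb; simp; ring

lemma norm_emb_sq (x : V) : ‖emb x‖ ^ 2 = (x.1 : ℝ) ^ 2 + x.1 * x.2 + x.2 ^ 2 := by
  rw [Complex.sq_norm, Complex.normSq_apply]
  have := Real.mul_self_sqrt (show (0 : ℝ) ≤ 3 by norm_num)
  simp [emb, om]
  linear_combination (x.2 : ℝ) ^ 2 / 4 * this

lemma norm_emb_le (x : V) : ‖emb x‖ ≤ nrm x := by
  have n0 : (0 : ℝ) ≤ nrm x := by exact_mod_cast nrm_nonneg _
  refine abs_le_of_sq_le_sq' ?_ n0 |>.2
  rw [norm_emb_sq]
  have hb := nrm_le_iff.mp (le_refl (nrm x))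
  have : x.1 ^ 2 + x.1 * x.2 + x.2 ^ 2 ≤ nrm x ^ 2 := by
    obtain ⟨⟨h1, h2⟩, ⟨h3, h4⟩, h5, h6⟩ := hb
    rcases le_total 0 x.1 with k1 | k1 <;> rcases le_total 0 x.2 with k2 | k2 <;>
      rcases le_total 0 (x.1 + x.2) with k3 | k3 <;> nlinarith
  exact_mod_cast this

lemma nrm_le_norm_emb (x : V) : (nrm x : ℝ) ≤ 2 * ‖emb x‖ := by
  refine abs_le_of_sq_le_sq' ?_ (by positivity) |>.2
  rw [mul_pow, norm_emb_sq]
  have : nrm x ^ 2 ≤ 2 ^ 2 * (x.1 ^ 2 + x.1 * x.2 + x.2 ^ 2) := by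
    unfold nrm
    rcases max_choice (max |x.1| |x.2|) |x.1 + x.2| with h | h
    · rcases max_choice |x.1| |x.2| with h' | h' <;> rw [h, h', sq_abs]
      · nlinarith [sq_nonneg (x.1 + 2 * x.2), sq_nonneg x.1]
      · nlinarith [sq_nonneg (x.2 + 2 * x.1), sq_nonneg x.2]
    · rw [h, sq_abs]; nlinarith [sq_nonneg (x.1 - x.2), sq_nonneg (x.1 + x.2)]
  exact_mod_cast this

theorem Vario.lip (h : Vario a C) : ∃ C₁ : ℝ, 0 ≤ C₁ ∧ ∀ ε > 0, ∃ R : ℝ, ∀ x y : V, R ≤ ‖emb x‖ →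
    R ≤ ‖emb y‖ → |a x - a y| ≤ C₁ * ‖emb x - emb y‖ / min ‖emb x‖ ‖emb y‖ + ε := by
  obtain ⟨C₁, h0, h1⟩ := h.lip_nrm
  refine ⟨2 * C₁, by positivity, fun ε hε => ?_⟩
  obtain ⟨R, hR⟩ := h1 ε hε
  refine ⟨max R 1, fun x y hx hy => ?_⟩
  wlog hxy : nrm x ≤ nrm y generalizing x y
  · rw [abs_sub_comm, norm_sub_rev, min_comm]
    exact this y x hy hx (not_le.mp hxy).le
  simp only [max_le_iff] at hx hy
  have k1 : R ≤ nrm x := by exact_mod_cast hx.1.trans (norm_emb_le x)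
  refine (hR x y k1 hxy).trans (add_le_add_left ?_ _)
  have k2 := nrm_le_norm_emb (x - y)
  rw [emb_sub] at k2
  refine div_le_div₀ (by positivity) (by nlinarith) (lt_min (by linarith) (by linarith)) ?_
  exact (min_le_left _ _).trans (norm_emb_le x)

end Pool.Agent.Lib.MP_6359c9_pr.Pl
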