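import Pool.Agent.Lib.MP_6359c9_pr.LwDef
import Pool.Agent.Lib.MP_1e9af3_an.Cx

/-! Basic properties of hydrodynamically normalised maps. -/

namespace Pool.Agent.Lib.MP_6359c9_pr

open Set Filter Topology Bornology Metric Complex Pool.Agent.Lib.MP_1e9af3_an

noncomputable section

namespace Lw

lemma isOpen_UH : IsOpen UH := isOpen_lt continuous_const continuous_im

lemma mem_UH {z : ℂ} : z ∈ UH ↔ 0 < z.im := Iff.rfl

lemma convex_UH : Convex ℝ UH := convex_halfSpace_im_gt 0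

lemma ev_iff {P : ℂ → Prop} :
    (∀ᶠ z in cobounded ℂ ⊓ 𝓟 UH, P z) ↔ ∃ R : ℝ, ∀ z ∈ UH, R ≤ ‖z‖ → P z := by
  rw [eventually_inf_principal, ← comap_norm_atTop, eventually_comap, eventually_atTop]
  exact ⟨fun ⟨R, h⟩ => ⟨R, fun z hz hR => h _ hR z rfl hz⟩,
    fun ⟨R, h⟩ => ⟨R, fun b hb z e hz => h z hz (e ▸ hb)⟩⟩

lemma tendsto_iff {F : ℂ → ℂ} {c : ℂ} : Tendsto F (cobounded ℂ ⊓ 𝓟 UH) (𝓝 c) ↔
    ∀ ε > 0, ∃ R : ℝ, ∀ z ∈ UH, R ≤ ‖z‖ → ‖F z - c‖ < ε := by
  rw [Metric.tendsto_nhds]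
  simp only [ev_iff, dist_eq_norm]

lemma tendsto_nrm : Tendsto (fun z : ℂ => ‖z‖) (cobounded ℂ ⊓ 𝓟 UH) atTop :=
  (tendsto_norm_cobounded_atTop (E := ℂ)).mono_left inf_le_left

/-- vertical rays tend to infinity in the half plane -/
lemma tendsto_up (w : ℂ) : Tendsto (fun T : ℝ => w + T * I) atTop (cobounded ℂ ⊓ 𝓟 UH) := by
  intro s hs
  obtain ⟨R, hR⟩ := ev_iff.1 hs
  rw [mem_map]
  filter_upwards [eventually_gt_atTop (|w.im| + |R|)] with T hT
  have h1 : (w + T * I).im = w.im + T := by simp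
  have h2 := neg_abs_le w.im
  refine hR _ (mem_UH.2 (by rw [h1]; linarith [abs_nonneg R])) ?_
  refine le_trans ?_ (im_le_norm _)
  rw [h1]; linarith [le_abs_self R]

lemma preconn_far (x R : ℝ) : IsPreconnected {w : ℂ | w ∈ UH ∧ R < ‖w - x‖} := by
  have e : {w : ℂ | w ∈ UH ∧ R < ‖w - x‖} = (fun q : ℝ × ℝ => x + q.1 * exp (q.2 * I)) ''
      (Ioi (max R 0) ×ˢ Ioo 0 Real.pi) := by
    ext w
    constructor
    · rintro ⟨h1, h2⟩
      have h3 : 0 < (w - x).im := by simpa using mem_UH.1 h1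
      have h0 : w - x ≠ 0 := fun h => by simp [h] at h3
      refine ⟨(‖w - x‖, arg (w - x)), ⟨max_lt h2 (norm_pos_iff.2 h0), ?_, ?_⟩, ?_⟩
      · exact lt_of_le_of_ne (arg_nonneg_iff.2 h3.le) fun h => h3.ne' (arg_eq_zero_iff.1 h.symm).2
      · exact arg_lt_pi_iff.2 (Or.inr h3.ne')
      · simp only [norm_mul_exp_arg_mul_I]; ring
    · rintro ⟨⟨ρ, θ⟩, ⟨h1, h2, h3⟩, rfl⟩
      have h4 : 0 < ρ := (le_max_right _ _).trans_lt h1
      refine ⟨?_, ?_⟩
      · simp only [mem_UH, add_im, ofReal_im, zero_add, im_ofReal_mul, exp_ofReal_mul_I_im]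
        exact mul_pos h4 (Real.sin_pos_of_pos_of_lt_pi h2 h3)
      · rw [add_sub_cancel_left, norm_mul, norm_exp_ofReal_mul_I, mul_one, norm_real,
          Real.norm_of_nonneg h4.le]
        exact (le_max_left _ _).trans_lt h1
  rw [e]
  exact (isPreconnected_Ioi.prod isPreconnected_Ioo).image _ (by fun_prop)

/-- minimum principle for the imaginary part in the half plane -/
lemma im_nonneg {P : ℂ → ℂ} (hd : DifferentiableOn ℂ P UH)
    (h1 : ∀ ε > 0, ∃ δ > 0, ∀ w ∈ UH, w.im ≤ δ → -ε ≤ (P w).im)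
    (h2 : ∀ ε > 0, ∃ R : ℝ, ∀ w ∈ UH, R ≤ ‖w‖ → -ε ≤ (P w).im) {w : ℂ} (hw : w ∈ UH) :
    0 ≤ (P w).im := by
  refine le_of_forall_pos_le_add fun ε hε => ?_
  obtain ⟨δ, hδ, h1⟩ := h1 ε hε
  obtain ⟨R, h2⟩ := h2 ε hε
  by_cases c1 : w.im ≤ δ
  · linarith [h1 w hw c1]
  by_cases c2 : R ≤ ‖w‖
  · linarith [h2 w hw c2]
  set V : Set ℂ := {z | δ < z.im} ∩ ball 0 R with hV
  have hc : closure V ⊆ {z | δ ≤ z.im} :=
    closure_minimal (fun z hz => le_of_lt (show δ < z.im from hz.1)) (isClosed_le continuous_const continuous_im)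
  have hU : closure V ⊆ UH := fun z hz => hδ.trans_le (hc hz)
  have hD : DiffContOnCl ℂ (fun z => exp (I * P z)) V :=
    (((hd.const_mul I).cexp).mono hU).diffContOnCl
  have hn : ∀ z, ‖exp (I * P z)‖ = Real.exp (-(P z).im) := fun z => by simp [norm_exp]
  have := norm_le_of_forall_mem_frontier_norm_le (isBounded_ball.subset inter_subset_right) hD
    (C := Real.exp ε) (fun z hz => by
      rw [hn, Real.exp_le_exp]
      have hz1 := hU hz.1
      have hz2 : z ∉ V := fun h => hz.2 (by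
        rwa [((isOpen_lt continuous_const continuous_im).inter isOpen_ball).interior_eq])
      by_cases c : z.im ≤ δ
      · linarith [h1 z hz1 c]
      · have : R ≤ ‖z‖ := not_lt.1 fun h => hz2 ⟨not_le.1 c, mem_ball_zero_iff.2 h⟩
        linarith [h2 z hz1 this])
    (subset_closure (show w ∈ V from ⟨not_le.1 c1, mem_ball_zero_iff.2 (not_le.1 c2)⟩))
  rw [hn, Real.exp_le_exp] at this
  linarith

/-- Harnack type bound for maps into the closed half plane -/
lemma norm_le_up {P : ℂ → ℂ} (hd : DifferentiableOn ℂ P UH) (h0 : ∀ w ∈ UH, 0 ≤ (P w).im)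
    {w : ℂ} (hw : w ∈ UH) {T : ℝ} (hT : 0 ≤ T) :
    ‖P w‖ * w.im ≤ ‖P (w + T * I)‖ * (w.im + 2 * T) := by
  have hy : 0 < w.im := hw
  set c := w + T * I with hc
  have hm : ∀ z ∈ ball (0 : ℂ) (w.im + T), c + z ∈ UH := fun z hz => by
    have h1 := (abs_le.1 (abs_im_le_norm z)).1
    have h2 := mem_ball_zero_iff.1 hz
    simp only [mem_UH, hc, add_im, mul_im, ofReal_re, I_im, ofReal_im, I_re]
    linarith
  have hD : DifferentiableOn ℂ (fun z => I * P (c + z)) (ball 0 (w.im + T)) :=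
    (hd.comp (by fun_prop) hm).const_mul I
  have hn : ‖(-(T * I) : ℂ)‖ = T := by simp [abs_of_nonneg hT]
  have key : ∀ M > 0, ‖P w‖ * w.im ≤ ‖P c‖ * (w.im + 2 * T) + 2 * M * T := fun M hM => by
    have := borelCaratheodory hM hD (fun z hz => by
      show (I * P (c + z)).re ≤ M
      simp only [mul_re, I_re, zero_mul, I_im, one_mul, zero_sub]
      linarith [h0 _ (hm z hz)]) (by linarith) (z := -(T * I))
      (mem_ball_zero_iff.2 (by rw [hn]; linarith))
    rw [hn, show c + -(T * I) = w by simp [hc], add_zero, norm_mul, norm_mul, norm_I, one_mul,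
      one_mul, show w.im + T - T = w.im by ring, ← add_div, le_div_iff₀ hy] at this
    linarith
  refine le_of_forall_pos_le_add fun ε hε => ?_
  have := key (ε / (2 * T + 1)) (by positivity)
  have h2 : 2 * (ε / (2 * T + 1)) * T ≤ ε := by
    rw [show 2 * (ε / (2 * T + 1)) * T = ε * (2 * T / (2 * T + 1)) by ring]
    exact mul_le_of_le_one_right hε.le ((div_le_one (by positivity)).2 (by linarith))
  linarith

lemma norm_le_cap {P : ℂ → ℂ} {a : ℝ} (hd : DifferentiableOn ℂ P UH)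
    (h0 : ∀ w ∈ UH, 0 ≤ (P w).im) (hl : Tendsto (fun w => w * P w) (cobounded ℂ ⊓ 𝓟 UH) (𝓝 (-a)))
    {w : ℂ} (hw : w ∈ UH) : 0 ≤ a ∧ ‖P w‖ * w.im ≤ 2 * a := by
  have hy : 0 < w.im := hw
  have ha : 0 ≤ a := by
    have h1 := (continuous_re.tendsto _).comp (hl.comp (tendsto_up 0))
    have : (-(a : ℂ)).re ≤ 0 := le_of_tendsto h1 (by
      filter_upwards [eventually_gt_atTop 0] with T hT
      have := h0 (0 + T * I) (mem_UH.2 (by simpa using hT))
      simp only [Function.comp, zero_add, mul_re, mul_im, ofReal_re, I_re, I_im, ofReal_im] at this ⊢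
      nlinarith)
    simpa using this
  refine ⟨ha, ?_⟩
  have h1 := (hl.comp (tendsto_up w)).norm.const_mul 2
  rw [norm_neg, norm_real, Real.norm_of_nonneg ha] at h1
  refine ge_of_tendsto h1 ?_
  filter_upwards [eventually_ge_atTop 0] with T hT
  refine (norm_le_up hd h0 hw hT).trans ?_
  have h2 : w.im + T ≤ ‖w + T * I‖ := le_trans (by simp) (im_le_norm _)
  simp only [Function.comp, norm_mul]
  nlinarith [norm_nonneg (P (w + T * I))]

end Lw

open Lw

variable {U : Set ℂ} {g : ℂ → ℂ} {a : ℝ}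

/-- the inverse map -/
def Hyd.inv (_ : Hyd U g a) : ℂ → ℂ := Function.invFunOn g U

lemma Hyd.maps (h : Hyd U g a) {z : ℂ} (hz : z ∈ U) : g z ∈ UH := h.bij.mapsTo hz

lemma Hyd.inv_mem (h : Hyd U g a) {w : ℂ} (hw : w ∈ UH) : h.inv w ∈ U :=
  Function.invFunOn_mem (h.bij.surjOn hw)

lemma Hyd.map_inv (h : Hyd U g a) {w : ℂ} (hw : w ∈ UH) : g (h.inv w) = w :=
  Function.invFunOn_eq (h.bij.surjOn hw)

lemma Hyd.inv_map (h : Hyd U g a) {z : ℂ} (hz : z ∈ U) : h.inv (g z) = z :=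
  h.bij.injOn.leftInvOn_invFunOn hz

lemma Hyd.inv_hol (h : Hyd U g a) : DifferentiableOn ℂ h.inv UH := fun w hw => by
  have := inv_analyticAt h.op h.hol h.bij.injOn (h := h.inv) (fun _ => h.inv_map) (h.inv_mem hw)
  rw [h.map_inv hw] at this
  exact this.differentiableAt.differentiableWithinAt

lemma Hyd.inv_inj (h : Hyd U g a) : InjOn h.inv UH := fun w hw w' hw' e => by
  rw [← h.map_inv hw, e, h.map_inv hw']

lemma Hyd.preconn (h : Hyd U g a) : IsPreconnected U := by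
  have : U = h.inv '' UH := Subset.antisymm (fun z hz => ⟨g z, h.maps hz, h.inv_map hz⟩)
    (by rintro _ ⟨w, hw, rfl⟩; exact h.inv_mem hw)
  rw [this]
  exact convex_UH.isPreconnected.image _ h.inv_hol.continuousOn

lemma Hyd.ev_mem (h : Hyd U g a) : ∀ᶠ z in cobounded ℂ ⊓ 𝓟 UH, z ∈ U := by
  obtain ⟨R, hR⟩ := h.bd.exists_norm_le
  exact ev_iff.2 ⟨R + 1, fun z hz h1 => by_contra fun h2 => by linarith [hR z ⟨hz, h2⟩]⟩

lemma Hyd.lim0 (h : Hyd U g a) : Tendsto (fun z => g z - z) (cobounded ℂ ⊓ 𝓟 UH) (𝓝 0) := by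
  have h1 : Tendsto (fun z : ℂ => z⁻¹) (cobounded ℂ ⊓ 𝓟 UH) (𝓝 0) :=
    tendsto_inv₀_cobounded.mono_left inf_le_left
  have := h1.mul h.lim
  rw [zero_mul] at this
  refine this.congr' (ev_iff.2 ⟨1, fun z _ hz => ?_⟩)
  have : z ≠ 0 := by rintro rfl; norm_num at hz
  field_simp

lemma Hyd.tendsto_map (h : Hyd U g a) :
    Tendsto g (cobounded ℂ ⊓ 𝓟 UH) (cobounded ℂ ⊓ 𝓟 UH) := by
  refine tendsto_inf.2 ⟨?_, tendsto_principal.2 (h.ev_mem.mono fun z => h.maps)⟩
  rw [← tendsto_norm_atTop_iff_cobounded]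
  refine tendsto_atTop_mono' _ ?_ (tendsto_atTop_add_const_right _ (-1) tendsto_nrm)
  filter_upwards [(tendsto_iff.1 h.lim0 1 one_pos).imp (fun _ h => h) |> ev_iff.2] with z hz
  have := norm_sub_norm_le z (g z)
  rw [norm_sub_rev] at this
  simp only [sub_zero] at hz
  linarith

/-- points far away have preimages outside a half circle with bounded image -/
lemma Hyd.trap (h : Hyd U g a) {x ρ R : ℝ} (hb : ∀ z ∈ U, ‖z - x‖ = ρ → ‖g z - x‖ ≤ R) {w : ℂ}
    (hw : w ∈ UH) (hR : R < ‖w - x‖) : ρ < ‖h.inv w - x‖ := by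
  by_contra hn
  have h1 : ∀ᶠ z in cobounded ℂ ⊓ 𝓟 UH, ρ + ‖(x : ℂ)‖ ≤ ‖z‖ := tendsto_nrm.eventually_ge_atTop _
  have h2 : ∀ᶠ z in cobounded ℂ ⊓ 𝓟 UH, R + ‖(x : ℂ)‖ < ‖g z‖ :=
    (tendsto_nrm.comp h.tendsto_map).eventually_gt_atTop _
  obtain ⟨T, ⟨h3, h4⟩, h5⟩ := ((tendsto_up 0).eventually ((h1.and h2).and h.ev_mem)).exists
  set z := (0 : ℂ) + T * I
  have hc : ContinuousOn (fun v => ‖h.inv v - x‖) {w : ℂ | w ∈ UH ∧ R < ‖w - x‖} :=
    ((h.inv_hol.continuousOn.mono fun v hv => hv.1).sub continuousOn_const).norm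
  have := (preconn_far x R).intermediate_value (a := w) (b := g z) ⟨hw, hR⟩
    ⟨h.maps h5, by linarith [norm_sub_norm_le (g z) x]⟩ hc
  obtain ⟨v, hv, e⟩ := this (a := ρ) ⟨not_lt.1 hn, by
    simp only [h.inv_map h5]; linarith [norm_sub_norm_le z x]⟩
  have := hb _ (h.inv_mem hv.1) e
  rw [h.map_inv hv.1] at this
  exact hv.2.not_ge this

lemma Hyd.tendsto_inv (h : Hyd U g a) :
    Tendsto h.inv (cobounded ℂ ⊓ 𝓟 UH) (cobounded ℂ ⊓ 𝓟 UH) := by
  refine tendsto_inf.2 ⟨?_, tendsto_principal.2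
    (ev_iff.2 ⟨0, fun w hw _ => h.sub (h.inv_mem hw)⟩)⟩
  rw [← tendsto_norm_atTop_iff_cobounded, Filter.tendsto_atTop]
  intro b
  obtain ⟨R, hR⟩ := tendsto_iff.1 h.lim0 1 one_pos
  refine ev_iff.2 ⟨max b R + 2, fun w hw h1 => ?_⟩
  have := h.trap (x := 0) (ρ := max b R) (R := max b R + 1) (fun z hz e => by
    simp only [ofReal_zero, sub_zero] at e ⊢
    have := hR z (h.sub hz) (e ▸ le_max_right _ _)
    rw [sub_zero] at this
    linarith [norm_sub_norm_le (g z) z]) hw (by simp only [ofReal_zero, sub_zero]; linarith)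
  simp only [ofReal_zero, sub_zero] at this
  exact (le_max_left _ _).trans this.le

lemma Hyd.inv_lim0 (h : Hyd U g a) :
    Tendsto (fun w => h.inv w - w) (cobounded ℂ ⊓ 𝓟 UH) (𝓝 0) := by
  have := (h.lim0.comp h.tendsto_inv).neg
  rw [neg_zero] at this
  exact this.congr' (ev_iff.2 ⟨0, fun w hw _ => by simp [h.map_inv hw]⟩)

lemma Hyd.inv_lim (h : Hyd U g a) :
    Tendsto (fun w => w * (h.inv w - w)) (cobounded ℂ ⊓ 𝓟 UH) (𝓝 (-a)) := by
  have := ((h.lim.comp h.tendsto_inv).add (h.inv_lim0.mul h.inv_lim0)).neg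
  rw [mul_zero, add_zero] at this
  refine this.congr' (ev_iff.2 ⟨0, fun w hw _ => ?_⟩)
  simp only [Function.comp, h.map_inv hw]; ring

lemma Hyd.im_inv (h : Hyd U g a) {w : ℂ} (hw : w ∈ UH) : w.im ≤ (h.inv w).im := by
  have := im_nonneg (P := fun w => h.inv w - w) (h.inv_hol.sub differentiableOn_id)
    (fun ε hε => ⟨ε, hε, fun v hv h1 => by
      have : 0 < (h.inv v).im := h.sub (h.inv_mem hv)
      simp only [sub_im]; linarith⟩)
    (fun ε hε => (tendsto_iff.1 h.inv_lim0 ε hε).imp fun R hR v hv h1 => by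
      have := hR v hv h1
      rw [sub_zero] at this
      linarith [(abs_le.1 (abs_im_le_norm (h.inv v - v))).1]) hw
  simpa using this

lemma Hyd.im_le (h : Hyd U g a) {z : ℂ} (hz : z ∈ U) : (g z).im ≤ z.im := by
  simpa only [h.inv_map hz] using h.im_inv (h.maps hz)

lemma Hyd.cap_aux (h : Hyd U g a) {w : ℂ} (hw : w ∈ UH) :
    0 ≤ a ∧ ‖h.inv w - w‖ * w.im ≤ 2 * a :=
  norm_le_cap (P := fun w => h.inv w - w) (h.inv_hol.sub differentiableOn_id)
    (fun v hv => by simpa using h.im_inv hv) h.inv_lim hw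

lemma Hyd.nonneg (h : Hyd U g a) : 0 ≤ a := (h.cap_aux (w := I) (mem_UH.2 (by simp))).1

lemma Hyd.inv_sub_le (h : Hyd U g a) {w : ℂ} (hw : w ∈ UH) : ‖h.inv w - w‖ ≤ 2 * a / w.im :=
  (le_div_iff₀ hw).2 (h.cap_aux hw).2

lemma Hyd.sub_le (h : Hyd U g a) {z : ℂ} (hz : z ∈ U) : ‖g z - z‖ ≤ 2 * a / (g z).im := by
  simpa only [h.inv_map hz, norm_sub_rev] using h.inv_sub_le (h.maps hz)

/-- the capacity bounds the height of the hull -/
lemma Hyd.height (h : Hyd U g a) {z : ℂ} (hz : z ∈ UH) (hn : z ∉ U) : z.im ^ 2 ≤ 16 * a := by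
  by_contra hc
  have hy : 0 < z.im := hz
  have hs : ∀ w ∈ closedBall z (z.im / 2), z.im / 2 ≤ w.im := fun w hw => by
    have := (abs_le.1 ((abs_im_le_norm (w - z)).trans (mem_closedBall_iff_norm.1 hw))).1
    simp only [sub_im] at this; linarith
  have hu : closedBall z (z.im / 2) ⊆ UH := fun w hw => lt_of_lt_of_le (by positivity) (hs w hw)
  have hb : ∀ w ∈ closedBall z (z.im / 2), ‖h.inv w - w‖ < z.im / 4 := fun w hw => by
    have h1 := hs w hw
    refine (h.inv_sub_le (hu hw)).trans_lt ?_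
    rw [div_lt_iff₀ (hu hw)]
    nlinarith
  obtain ⟨w, hw, e⟩ := exists_zero_of_min (f := fun w => h.inv w - z) (c := z) (r := z.im / 2)
    (m := z.im / 4) (by positivity)
    (DifferentiableOn.diffContOnCl (by
      rw [closure_ball _ (by positivity)]; exact (h.inv_hol.mono hu).sub_const z))
    (fun w hw => by
      have h1 := hb w (sphere_subset_closedBall hw)
      have h2 := mem_sphere_iff_norm.1 hw
      have := norm_sub_norm_le (w - z) (w - h.inv w)
      rw [norm_sub_rev w (h.inv w), show w - z - (w - h.inv w) = h.inv w - z by ring] at this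
      linarith) (hb z (mem_closedBall_self (by positivity)))
  exact hn (sub_eq_zero.1 e ▸ h.inv_mem (hu (ball_subset_closedBall hw)))

lemma Hyd.pos (h : Hyd U g a) (hn : U ≠ UH) : 0 < a := by
  obtain ⟨z, hz, h1⟩ := not_subset.1 fun h2 => hn (h.sub.antisymm h2)
  have := h.height hz h1
  have hy : 0 < z.im := hz
  nlinarith

lemma hyd_id : Hyd UH id 0 :=
  ⟨isOpen_UH, by simp, subset_rfl, differentiableOn_id, bijOn_id _, by simpa using tendsto_const_nhds⟩

/-- the map that removes the image of the larger hull -/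
lemma Hyd.quot {V : Set ℂ} {k : ℂ → ℂ} {b : ℝ} (h : Hyd U g a) (h' : Hyd V k b) (hV : V ⊆ U) :
    Hyd (g '' V) (k ∘ h.inv) (b - a) := by
  have hs : g '' V ⊆ UH := by rintro _ ⟨z, hz, rfl⟩; exact h.maps (hV hz)
  have hm : MapsTo h.inv (g '' V) V := by rintro _ ⟨z, hz, rfl⟩; rwa [h.inv_map (hV hz)]
  refine ⟨isOpen_image_of_injOn h.op h.hol h.bij.injOn h'.op hV, ?_, hs,
    h'.hol.comp (h.inv_hol.mono hs) hm, h'.bij.comp ⟨hm, h.inv_inj.mono hs, fun z hz =>
      ⟨g z, ⟨z, hz, rfl⟩, h.inv_map (hV hz)⟩⟩, ?_⟩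
  · obtain ⟨R, hR⟩ := ev_iff.1 (h.tendsto_inv.eventually h'.ev_mem)
    refine isBounded_iff_forall_norm_le.2 ⟨R, fun w hw => not_lt.1 fun h1 => hw.2 ?_⟩
    exact ⟨_, hR w hw.1 h1.le, h.map_inv hw.1⟩
  · have := ((h'.lim.comp h.tendsto_inv).add h.inv_lim).sub
      (h.inv_lim0.mul (h'.lim0.comp h.tendsto_inv))
    rw [mul_zero, sub_zero] at this
    push_cast
    refine this.congr fun w => ?_
    simp only [Function.comp]; ring

lemma Hyd.mono {V : Set ℂ} {k : ℂ → ℂ} {b : ℝ} (h : Hyd U g a) (h' : Hyd V k b) (hV : V ⊆ U) :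
    a ≤ b := sub_nonneg.1 (h.quot h' hV).nonneg

lemma Hyd.eq_of_zero (h : Hyd U g 0) {z : ℂ} (hz : z ∈ U) : g z = z := by
  simpa [sub_eq_zero] using h.sub_le hz

lemma Hyd.uniq {k : ℂ → ℂ} {b : ℝ} (h : Hyd U g a) (h' : Hyd U k b) : a = b ∧ EqOn g k U := by
  have e := (h.mono h' subset_rfl).antisymm (h'.mono h subset_rfl)
  refine ⟨e, fun z hz => ?_⟩
  have := h.quot h' subset_rfl
  rw [show b - a = 0 by linarith] at this
  have := this.eq_of_zero ⟨z, hz, rfl⟩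
  simpa [h.inv_map hz] using this.symm

lemma Hyd.comp {V : Set ℂ} {k : ℂ → ℂ} {b : ℝ} (h : Hyd U g a) (h' : Hyd V k b) :
    Hyd (U ∩ g ⁻¹' V) (k ∘ g) (a + b) := by
  have he := h.ev_mem.and (h.tendsto_map.eventually h'.ev_mem)
  refine ⟨h.hol.continuousOn.isOpen_inter_preimage h.op h'.op, ?_, fun z hz => h.sub hz.1,
    h'.hol.comp (h.hol.mono inter_subset_left) fun z hz => hz.2,
    h'.bij.comp ⟨fun z hz => hz.2, h.bij.injOn.mono inter_subset_left, fun w hw =>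
      ⟨h.inv w, ⟨h.inv_mem (h'.sub hw), by
        rwa [mem_preimage, h.map_inv (h'.sub hw)]⟩, h.map_inv (h'.sub hw)⟩⟩, ?_⟩
  · obtain ⟨R, hR⟩ := ev_iff.1 he
    exact isBounded_iff_forall_norm_le.2 ⟨R, fun w hw => not_lt.1 fun h1 =>
      hw.2 (hR w hw.1 h1.le)⟩
  · have := (h.lim.add (h'.lim.comp h.tendsto_map)).sub
      (h.lim0.mul (h'.lim0.comp h.tendsto_map))
    rw [mul_zero, sub_zero] at this
    push_cast
    refine this.congr fun w => ?_
    simp only [Function.comp]; ring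

lemma Hyd.congr {k : ℂ → ℂ} (h : Hyd U g a) (e : EqOn g k U) : Hyd U k a :=
  ⟨h.op, h.bd, h.sub, h.hol.congr fun _ hz => (e hz).symm, h.bij.congr e,
    h.lim.congr' (h.ev_mem.mono fun z hz => by rw [e hz])⟩

/-- properness: towards a point outside the domain the imaginary part tends to zero -/
lemma Hyd.proper (h : Hyd U g a) {p : ℂ} (hp : p ∉ U) :
    Tendsto (fun z => (g z).im) (𝓝[U] p) (𝓝 0) := by
  refine tendsto_order.2 ⟨fun b hb => ?_, fun ε hε => ?_⟩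
  · filter_upwards [self_mem_nhdsWithin] with z hz using hb.trans (h.maps hz)
  · obtain ⟨R, hR⟩ := ev_iff.1 ((tendsto_nrm.comp h.tendsto_inv).eventually_gt_atTop (‖p‖ + 1))
    have hs : {w : ℂ | ε ≤ w.im} ∩ closedBall 0 R ⊆ UH := fun w hw => hε.trans_le hw.1
    have hK := ((isCompact_closedBall (0 : ℂ) R).inter_left
      (isClosed_le continuous_const continuous_im)).image_of_continuousOn
      (h.inv_hol.continuousOn.mono hs)
    have h1 := hK.isClosed.isOpen_compl.mem_nhds (x := p) (by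
      rintro ⟨w, hw, rfl⟩; exact hp (h.inv_mem (hs hw)))
    filter_upwards [self_mem_nhdsWithin, nhdsWithin_le_nhds h1,
      nhdsWithin_le_nhds (ball_mem_nhds p one_pos)] with z hz h2 h3
    by_contra h4
    refine h2 ⟨g z, ⟨not_lt.1 h4, mem_closedBall_zero_iff.2 (not_lt.1 fun h5 => ?_)⟩, h.inv_map hz⟩
    have := hR _ (h.maps hz) h5.le
    simp only [Function.comp, h.inv_map hz] at this
    linarith [mem_ball_iff_norm.1 h3, norm_sub_norm_le z p]

end

end Pool.Agent.Lib.MP_6359c9_pr
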