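import Pool.Agent.Lib.MP_6359c9_pr.LwA

/-! Reflection and the estimates for small hulls. -/

namespace Pool.Agent.Lib.MP_6359c9_pr

open Set Filter Topology Bornology Metric Complex ComplexConjugate Pool.Agent.Lib.MP_1e9af3_an

noncomputable section

namespace Lw

/-- a line is removable for continuous functions -/
lemma removable_line {V : Set ℂ} {F : ℂ → ℂ} (hV : IsOpen V) (hc : ContinuousOn F V)
    (hd : ∀ z ∈ V, z.im ≠ 0 → DifferentiableAt ℂ F z) : DifferentiableOn ℂ F V := by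
  refine (isConservativeOn_and_continuousOn_iff_isDifferentiableOn hV).1 ⟨fun z w hzw => ?_, hc⟩
  rw [← add_eq_zero_iff_eq_neg, wedgeIntegral_add_wedgeIntegral_eq]
  have key : ∀ z w : ℂ, uIcc z.re w.re ×ℂ uIcc z.im w.im ⊆ V →
      (0 : ℝ) ∉ Ioo (min z.im w.im) (max z.im w.im) → _ := fun z w h1 h2 =>
    integral_boundary_rect_eq_zero_of_continuousOn_of_differentiableOn F z w (hc.mono h1)
      fun v hv => (hd v (h1 ⟨Ioo_subset_Icc_self hv.1, Ioo_subset_Icc_self hv.2⟩)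
        fun e => h2 (e ▸ hv.2)).differentiableWithinAt
  by_cases h0 : (0 : ℝ) ∈ Ioo (min z.im w.im) (max z.im w.im)
  swap
  · exact key z w hzw h0
  have h0' : (0 : ℝ) ∈ uIcc z.im w.im := Ioo_subset_Icc_self h0
  have s1 := uIcc_subset_uIcc_left h0'
  have s2 := uIcc_subset_uIcc_right h0'
  have k1 := key z w.re (fun v hv => hzw ⟨hv.1, s1 hv.2⟩) (by
    simp only [ofReal_im, mem_Ioo, not_and, not_lt]
    intro h; rcases le_total z.im 0 with c | c <;> simp_all)
  have k2 := key z.re w (fun v hv => hzw ⟨hv.1, s2 hv.2⟩) (by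
    simp only [ofReal_im, mem_Ioo, not_and, not_lt]
    intro h; rcases le_total w.im 0 with c | c <;> simp_all)
  have hi : ∀ x ∈ uIcc z.re w.re, ∀ p q : ℝ, uIcc p q ⊆ uIcc z.im w.im →
      IntervalIntegrable (fun y : ℝ => F (x + y * I)) MeasureTheory.volume p q :=
    fun x hx p q h => (hc.comp (by fun_prop) fun y hy => hzw
      ⟨by simpa using hx, by simpa using h hy⟩).intervalIntegrable
  rw [← intervalIntegral.integral_add_adjacent_intervals (hi _ right_mem_uIcc _ _ s1)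
    (hi _ right_mem_uIcc _ _ s2), ← intervalIntegral.integral_add_adjacent_intervals
    (hi _ left_mem_uIcc _ _ s1) (hi _ left_mem_uIcc _ _ s2)]
  simp only [ofReal_re, ofReal_im, smul_eq_mul] at k1 k2 ⊢
  linear_combination k1 + k2

/-- the reflected function -/
def refl (ψ : ℂ → ℂ) (z : ℂ) : ℂ := if 0 ≤ z.im then ψ z else conj (ψ (conj z))

lemma refl_up {ψ : ℂ → ℂ} {z : ℂ} (h : 0 ≤ z.im) : refl ψ z = ψ z := if_pos h

lemma refl_down {ψ : ℂ → ℂ} {z : ℂ} (h : z.im ≤ 0) (hr : z.im = 0 → (ψ z).im = 0) :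
    refl ψ z = conj (ψ (conj z)) := by
  rcases h.lt_or_eq with h | h
  · exact if_neg h.not_ge
  · rw [refl_up h.ge, conj_eq_iff_im.2 h, conj_eq_iff_im.2 (hr h)]

lemma refl_conj {ψ : ℂ → ℂ} {z : ℂ} (hr : z.im = 0 → (ψ z).im = 0) :
    refl ψ (conj z) = conj (refl ψ z) := by
  rcases le_total 0 z.im with h | h
  · rw [refl_down (by simpa using h) fun e => ?_, refl_up h, conj_conj]
    have e' : z.im = 0 := by simpa using e
    rw [conj_eq_iff_im.2 e']; exact hr e'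
  · rw [refl_up (by simpa using h), refl_down h hr, conj_conj]

/-- the reflection principle -/
theorem reflect {V : Set ℂ} {ψ : ℂ → ℂ} (hV : IsOpen V) (hs : ∀ z ∈ V, conj z ∈ V)
    (hc : ContinuousOn ψ (V ∩ {z | 0 ≤ z.im})) (hd : DifferentiableOn ℂ ψ (V ∩ UH))
    (hr : ∀ z ∈ V, z.im = 0 → (ψ z).im = 0) : DifferentiableOn ℂ (refl ψ) V := by
  have hd' : ∀ z ∈ V, 0 < z.im → DifferentiableAt ℂ ψ z := fun z hz h =>
    hd.differentiableAt ((hV.inter isOpen_UH).mem_nhds ⟨hz, h⟩)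
  refine removable_line hV ?_ fun z hz h0 => ?_
  · have h1 : ContinuousOn (refl ψ) (V ∩ {z | 0 ≤ z.im}) := hc.congr fun z hz => refl_up hz.2
    have h2 : ContinuousOn (refl ψ) (V ∩ {z | z.im ≤ 0}) :=
      (continuous_conj.comp_continuousOn (hc.comp continuous_conj.continuousOn fun z hz =>
        ⟨hs z hz.1, by simpa using hz.2⟩)).congr fun z hz => refl_down hz.2 (hr z hz.1)
    intro z hz
    have c1 : ContinuousWithinAt (refl ψ) (V ∩ {z | 0 ≤ z.im}) z := by
      by_cases c : 0 ≤ z.im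
      · exact h1 z ⟨hz, c⟩
      · exact continuousWithinAt_of_notMem_closure fun h => c
          (closure_minimal inter_subset_right (isClosed_le continuous_const continuous_im) h)
    have c2 : ContinuousWithinAt (refl ψ) (V ∩ {z | z.im ≤ 0}) z := by
      by_cases c : z.im ≤ 0
      · exact h2 z ⟨hz, c⟩
      · exact continuousWithinAt_of_notMem_closure fun h => c
          (closure_minimal inter_subset_right (isClosed_le continuous_im continuous_const) h)
    exact (c1.union c2).mono fun v hv => (le_total 0 v.im).imp (fun h => ⟨hv, h⟩) fun h => ⟨hv, h⟩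
  · rcases lt_or_gt_of_ne h0 with h | h
    · have := (hd' _ (hs z hz) (by simpa using h)).conj_conj
      rw [conj_conj] at this
      refine this.congr_of_eventuallyEq ?_
      filter_upwards [(isOpen_lt continuous_im continuous_const).mem_nhds h] with v hv
      exact if_neg (not_le.2 hv)
    · refine (hd' z hz h).congr_of_eventuallyEq ?_
      filter_upwards [isOpen_UH.mem_nhds h] with v hv using refl_up (le_of_lt hv)

/-- derivative bound for maps into the half plane -/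
lemma deriv_le_im {g : ℂ → ℂ} {z : ℂ} {ρ : ℝ} (hρ : 0 < ρ) (hd : DifferentiableOn ℂ g (ball z ρ))
    (h0 : ∀ v ∈ ball z ρ, 0 < (g v).im) : ‖deriv g z‖ ≤ 4 * (g z).im / ρ := by
  have hM := h0 z (mem_ball_self hρ)
  refine (hd.differentiableAt (ball_mem_nhds z hρ)).hasDerivAt.le_of_lip' (by positivity) ?_
  filter_upwards [ball_mem_nhds z (half_pos hρ)] with v hv
  have hv' := mem_ball_iff_norm.1 hv
  have hm : ∀ u ∈ ball (0 : ℂ) ρ, z + u ∈ ball z ρ := fun u hu => by simpa using hu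
  have := borelCaratheodory_zero (f := fun u => I * (g (z + u) - g z)) hM
    (((hd.comp (by fun_prop) hm).sub_const _).const_mul I) (fun u hu => by
      show (I * (g (z + u) - g z)).re ≤ _
      simp only [mul_re, I_re, zero_mul, I_im, one_mul, zero_sub, sub_im]
      linarith [h0 _ (hm u hu)]) hρ (z := v - z) (mem_ball_zero_iff.2 (by linarith)) (by simp)
  rw [norm_mul, norm_I, one_mul, add_sub_cancel] at this
  refine this.trans ?_
  rw [div_le_iff₀ (by linarith), div_mul_eq_mul_div, div_mul_eq_mul_div, le_div_iff₀ hρ]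
  have := mul_nonneg hM.le (norm_nonneg (v - z))
  nlinarith

/-- the domain joined with its mirror image -/
def Mir (U : Set ℂ) : Set ℂ := {z | z ∉ closure (UH \ U) ∧ conj z ∉ closure (UH \ U)}

lemma isOpen_sym (U : Set ℂ) : IsOpen (Mir U) :=
  isClosed_closure.isOpen_compl.inter (isClosed_closure.isOpen_compl.preimage continuous_conj)

lemma sym_conj {U : Set ℂ} {z : ℂ} (h : z ∈ Mir U) : conj z ∈ Mir U :=
  ⟨h.2, by rw [conj_conj]; exact h.1⟩

lemma im_closure {U : Set ℂ} {z : ℂ} (h : z ∈ closure (UH \ U)) : 0 ≤ z.im :=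
  closure_minimal (fun _ hz => le_of_lt (mem_UH.1 hz.1))
    (isClosed_le continuous_const continuous_im) h

lemma mem_of_sym {U : Set ℂ} {z : ℂ} (h : z ∈ Mir U) (h0 : z ∈ UH) : z ∈ U :=
  by_contra fun h1 => h.1 (subset_closure ⟨h0, h1⟩)

lemma real_sym {U : Set ℂ} {x : ℝ} (h : (x : ℂ) ∉ closure (UH \ U)) : (x : ℂ) ∈ Mir U :=
  ⟨h, by rwa [conj_ofReal]⟩

lemma far_sym {U : Set ℂ} {x r : ℝ} (hK : UH \ U ⊆ closedBall x r) {z : ℂ} (hz : r < ‖z - x‖) :
    z ∈ Mir U := by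
  have : ∀ v : ℂ, r < ‖v - x‖ → v ∉ closure (UH \ U) := fun v hv h =>
    hv.not_ge (mem_closedBall_iff_norm.1 (closure_minimal hK isClosed_closedBall h))
  exact ⟨this z hz, this _ (by rwa [← conj_ofReal, ← map_sub, norm_conj])⟩

lemma closure_UH {z : ℂ} (h : 0 ≤ z.im) : z ∈ closure UH := by
  rw [UH, closure_setOfPred_lt_im]; exact h

end Lw

open Lw

variable {U : Set ℂ} {g : ℂ → ℂ} {a : ℝ}

lemma Hyd.sub_sym (h : Hyd U g a) : U ⊆ Mir U := fun z hz =>
  ⟨fun h1 => by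
    obtain ⟨v, h2, h3⟩ := mem_closure_iff.1 h1 U h.op hz
    exact h3.2 h2, fun h1 => by
    have := im_closure h1
    have h2 := mem_UH.1 (h.sub hz)
    rw [conj_im] at this; linarith⟩

lemma Hyd.nhdsWithin_eq (h : Hyd U g a) {z : ℂ} (hz : z ∈ Mir U) : 𝓝[U] z = 𝓝[UH] z := by
  refine nhdsWithin_eq_iff_eventuallyEq.2 ?_
  filter_upwards [(isOpen_sym U).mem_nhds hz] with v hv
  exact propext ⟨fun h1 => h.sub h1, mem_of_sym hv⟩

lemma Hyd.closure_sym (h : Hyd U g a) {z : ℂ} (hz : z ∈ Mir U) (h0 : 0 ≤ z.im) :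
    z ∈ closure U := by
  rw [mem_closure_iff_nhdsWithin_neBot, h.nhdsWithin_eq hz, ← mem_closure_iff_nhdsWithin_neBot]
  exact closure_UH h0

lemma Hyd.exists_lim (h : Hyd U g a) {z : ℂ} (hz : z ∈ Mir U) (h0 : 0 ≤ z.im) :
    ∃ y, Tendsto g (𝓝[U] z) (𝓝 y) := by
  rcases h0.lt_or_eq with h0 | h0
  · exact ⟨_, h.hol.continuousOn z (mem_of_sym hz h0)⟩
  obtain ⟨ρ, hρ, hb⟩ := Metric.isOpen_iff.1 (isOpen_sym U) z hz
  have hs : ∀ v ∈ ball z (ρ / 2) ∩ UH, ball v v.im ⊆ U := fun v hv u hu => by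
    have h1 := mem_ball_iff_norm.1 hu
    have h2 := mem_ball_iff_norm.1 hv.1
    have h3 := (abs_le.1 (abs_im_le_norm (u - v))).1
    have h4 := im_le_norm (v - z)
    simp only [sub_im] at h3 h4
    refine mem_of_sym (hb (mem_ball_iff_norm.2 ?_)) (mem_UH.2 (by linarith))
    linarith [norm_sub_le_norm_sub_add_norm_sub u v z]
  have hU : ball z (ρ / 2) ∩ UH ⊆ U := fun v hv => hs v hv (mem_ball_self hv.2)
  have hl : ∀ u ∈ ball z (ρ / 2) ∩ UH, ∀ v ∈ ball z (ρ / 2) ∩ UH, ‖g v - g u‖ ≤ 4 * ‖v - u‖ :=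
    fun u hu v hv => ((convex_ball _ _).inter convex_UH).norm_image_sub_le_of_norm_deriv_le
      (fun v hv => h.hol.differentiableAt (h.op.mem_nhds (hU hv))) (fun v hv => by
        refine (deriv_le_im hv.2 (h.hol.mono (hs v hv)) fun u hu => h.maps (hs v hv hu)).trans ?_
        rw [div_le_iff₀ hv.2]
        linarith [h.im_le (hU hv)]) hu hv
  have := mem_closure_iff_nhdsWithin_neBot.1 (h.closure_sym hz h0.le)
  refine cauchy_map_iff_exists_tendsto.1 (Metric.cauchy_iff.2 ⟨inferInstance, fun ε hε =>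
    ⟨g '' (ball z (min (ρ / 2) (ε / 8)) ∩ U), image_mem_map (inter_mem (nhdsWithin_le_nhds
      (ball_mem_nhds z (by positivity))) self_mem_nhdsWithin), ?_⟩⟩)
  rintro _ ⟨u, hu, rfl⟩ _ ⟨v, hv, rfl⟩
  have h1 := lt_min_iff.1 (mem_ball_iff_norm.1 hu.1)
  have h2 := lt_min_iff.1 (mem_ball_iff_norm.1 hv.1)
  have := hl v ⟨mem_ball_iff_norm.2 h2.1, h.sub hv.2⟩ u ⟨mem_ball_iff_norm.2 h1.1, h.sub hu.2⟩
  have h3 := norm_sub_le_norm_sub_add_norm_sub u z v
  rw [norm_sub_rev z v] at h3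
  rw [dist_eq_norm]; linarith

/-- the extension of `g` to the symmetric domain -/
def Hyd.ext (_ : Hyd U g a) : ℂ → ℂ := refl (extendFrom U g)

lemma Hyd.ext_eq (h : Hyd U g a) {z : ℂ} (hz : z ∈ U) : h.ext z = g z :=
  (refl_up (le_of_lt (h.sub hz))).trans (extendFrom_extends h.hol.continuousOn z hz)

lemma Hyd.tendsto_ext (h : Hyd U g a) {z : ℂ} (hz : z ∈ Mir U) (h0 : 0 ≤ z.im) :
    Tendsto g (𝓝[UH] z) (𝓝 (h.ext z)) := by
  rw [← h.nhdsWithin_eq hz, Hyd.ext, refl_up h0]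
  exact tendsto_extendFrom (h.exists_lim hz h0)

/-- closed properties pass to the extension -/
lemma Hyd.ext_mem (h : Hyd U g a) {C : Set (ℂ × ℂ)} (hC : IsClosed C) {z : ℂ} (hz : z ∈ Mir U)
    (h0 : 0 ≤ z.im) (hm : ∀ᶠ v in 𝓝[U] z, (v, g v) ∈ C) : (z, h.ext z) ∈ C := by
  have := mem_closure_iff_nhdsWithin_neBot.1 (h.closure_sym hz h0)
  exact hC.mem_of_tendsto ((tendsto_id.mono_left nhdsWithin_le_nhds).prodMk_nhds
    (h.nhdsWithin_eq hz ▸ h.tendsto_ext hz h0)) hm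

lemma Hyd.ext_im (h : Hyd U g a) {z : ℂ} (hz : z ∈ Mir U) (h0 : 0 ≤ z.im) :
    0 ≤ (h.ext z).im ∧ (h.ext z).im ≤ z.im :=
  h.ext_mem (C := {q | 0 ≤ q.2.im ∧ q.2.im ≤ q.1.im})
    (IsClosed.and (isClosed_le continuous_const (by fun_prop))
      (isClosed_le (by fun_prop) (by fun_prop)))
    hz h0 (eventually_mem_nhdsWithin.mono fun _ hv => ⟨le_of_lt (h.maps hv), h.im_le hv⟩)

lemma Hyd.ext_real (h : Hyd U g a) {z : ℂ} (hz : z ∈ Mir U) (h0 : z.im = 0) : (h.ext z).im = 0 :=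
  le_antisymm ((h.ext_im hz h0.ge).2.trans h0.le) (h.ext_im hz h0.ge).1

lemma Hyd.ext_real' (h : Hyd U g a) {z : ℂ} (hz : z ∈ Mir U) (h0 : z.im = 0) :
    (extendFrom U g z).im = 0 := by
  have := h.ext_real hz h0
  rwa [Hyd.ext, refl_up h0.ge] at this

lemma Hyd.ext_conj (h : Hyd U g a) {z : ℂ} (hz : z ∈ Mir U) : h.ext (conj z) = conj (h.ext z) :=
  refl_conj (h.ext_real' hz)

lemma Hyd.ext_hol (h : Hyd U g a) : DifferentiableOn ℂ h.ext (Mir U) :=
  reflect (isOpen_sym U) (fun _ => sym_conj)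
    (continuousOn_extendFrom (fun _ hz => h.closure_sym hz.1 hz.2) fun _ hz => h.exists_lim hz.1 hz.2)
    ((h.hol.mono fun _ hz => mem_of_sym hz.1 hz.2).congr fun z hz =>
      extendFrom_extends h.hol.continuousOn z (mem_of_sym hz.1 hz.2)) fun _ => h.ext_real'

lemma Hyd.ext_lim (h : Hyd U g a) :
    Tendsto (fun z => z * (h.ext z - z)) (cobounded ℂ) (𝓝 a) := by
  refine Metric.nhds_basis_closedBall.tendsto_right_iff.2 fun ε hε => ?_
  obtain ⟨R, hR⟩ := tendsto_iff.1 h.lim ε hε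
  obtain ⟨r, hr⟩ := h.bd.subset_closedBall ((0 : ℝ) : ℂ)
  have key : ∀ z : ℂ, max R r < ‖z‖ → 0 ≤ z.im → ‖z * (h.ext z - z) - a‖ ≤ ε := fun z hz h0 =>
    h.ext_mem (C := {q | ‖q.1 * (q.2 - q.1) - a‖ ≤ ε}) (isClosed_le (by fun_prop) continuous_const)
      (far_sym hr (by simpa using (max_lt_iff.1 hz).2)) h0 (by
        filter_upwards [self_mem_nhdsWithin, nhdsWithin_le_nhds
          ((isOpen_lt continuous_const continuous_norm).mem_nhds (max_lt_iff.1 hz).1)] with v h1 h2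
        exact (hR v (h.sub h1) (le_of_lt h2)).le)
  filter_upwards [(tendsto_norm_cobounded_atTop (E := ℂ)).eventually_gt_atTop (max R r)] with z hz
  rw [mem_closedBall_iff_norm]
  rcases le_total 0 z.im with c | c
  · exact key z hz c
  · have := key (conj z) (by rwa [norm_conj]) (by simpa using c)
    rwa [h.ext_conj (far_sym hr (by simpa using (max_lt_iff.1 hz).2)), ← map_sub, ← map_mul,
      ← conj_ofReal, ← map_sub, norm_conj] at this

lemma Hyd.ext_sign (h : Hyd U g a) {z : ℂ} (hz : z ∈ Mir U) :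
    0 ≤ z.im * (z - h.ext z).im ∧ z.im * (z - h.ext z).im ≤ z.im ^ 2 := by
  rcases le_total 0 z.im with c | c
  · have := h.ext_im hz c
    rw [sub_im]; constructor <;> nlinarith [this.1, this.2]
  · have := h.ext_im (sym_conj hz) (by simpa using c)
    rw [h.ext_conj hz, conj_im, conj_im] at this
    rw [sub_im]; constructor <;> nlinarith [this.1, this.2]

/-- the estimates for a hull inside a small disc -/
theorem Hyd.small (h : Hyd U g a) {x r R : ℝ} (hK : UH \ U ⊆ closedBall x r) (hR : r < R)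
    (hR0 : 0 < R) : a ≤ 2 * R ^ 2 ∧ ∀ z : ℂ, 2 * R ≤ ‖z - x‖ →
      ‖(z - x) * (h.ext z - z) - a‖ ≤ 6 * a * R / ‖z - x‖ := by
  have ha := h.nonneg
  have hR' : (R : ℂ) ≠ 0 := ofReal_ne_zero.2 hR0.ne'
  set q : ℂ → ℂ := Function.update (fun ζ => R / ζ * (h.ext (x + R / ζ) - (x + R / ζ))) 0 a with hq
  have q0 : q 0 = a := Function.update_self ..
  have q1 : ∀ ζ, ζ ≠ 0 → q ζ = R / ζ * (h.ext (x + R / ζ) - (x + R / ζ)) := fun ζ hζ =>
    Function.update_of_ne hζ ..
  have hs : ∀ ζ ∈ closedBall (0 : ℂ) 1, ζ ≠ 0 → x + R / ζ ∈ Mir U := fun ζ h1 h2 => far_sym hK (by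
    rw [add_sub_cancel_left, norm_div, norm_real, Real.norm_of_nonneg hR0.le]
    exact hR.trans_le (le_div_self hR0.le (norm_pos_iff.2 h2) (mem_closedBall_zero_iff.1 h1)))
  have qd : ∀ ζ ∈ closedBall (0 : ℂ) 1, ζ ≠ 0 → DifferentiableAt ℂ q ζ := fun ζ h1 h2 => by
    have d1 : DifferentiableAt ℂ (fun ζ : ℂ => (R : ℂ) / ζ) ζ := by fun_prop (disch := assumption)
    refine (d1.mul (((h.ext_hol.differentiableAt ((isOpen_sym U).mem_nhds (hs ζ h1 h2))).comp ζ
      (d1.const_add (x : ℂ))).sub (d1.const_add (x : ℂ)))).congr_of_eventuallyEq ?_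
    filter_upwards [isOpen_ne.mem_nhds h2] with v hv using q1 v hv
  have qc : ContinuousAt q 0 := by
    refine continuousAt_update_same.2 ?_
    have t1 : Tendsto (fun ζ : ℂ => x + R / ζ) (𝓝[≠] 0) (cobounded ℂ) :=
      (tendsto_const_add_cobounded _).comp ((tendsto_mul_left_cobounded hR').comp
        tendsto_inv₀_nhdsNE_zero)
    have t2 := (tendsto_inv₀_cobounded (α := ℂ)).mul h.ext_lim
    have := (h.ext_lim.sub (t2.const_mul (x : ℂ))).comp t1
    rw [zero_mul, mul_zero, sub_zero] at this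
    refine this.congr' ?_
    filter_upwards [t1.eventually (eventually_ne_cobounded 0)] with ζ hζ
    simp only [Function.comp]
    field_simp; ring
  have qD : DifferentiableOn ℂ q (closedBall 0 1) :=
    (differentiableOn_compl_singleton_and_continuousAt_iff (closedBall_mem_nhds 0 one_pos)).1
      ⟨fun ζ hζ => (qd ζ hζ.1 hζ.2).differentiableWithinAt, qc⟩
  set p : ℂ → ℂ := fun ζ => (1 - ζ ^ 2) * q ζ with hp
  have pD : DifferentiableOn ℂ p (closedBall 0 1) := DifferentiableOn.mul (by fun_prop) qD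
  have pb : ∀ ζ ∈ sphere (0 : ℂ) 1, 0 ≤ (p ζ).re ∧ (p ζ).re ≤ 2 * R ^ 2 := fun ζ hζ => by
    have n1 := mem_sphere_zero_iff_norm.1 hζ
    have h0 : ζ ≠ 0 := by rintro rfl; simp at n1
    have e1 : ζ⁻¹ = conj ζ := (inv_eq_conj n1)
    have := h.ext_sign (hs ζ (sphere_subset_closedBall hζ) h0)
    have e2 : (x + R / ζ : ℂ).im = -(R * ζ.im) := by simp [div_eq_mul_inv, e1]
    have e3 : (1 - ζ ^ 2) * (R / ζ) = ((-(2 * R * ζ.im) : ℝ) : ℂ) * I := by
      rw [show (1 - ζ ^ 2) * (R / ζ) = R * (ζ⁻¹ - ζ) by field_simp, e1]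
      apply Complex.ext <;> simp; ring
    have e4 : (p ζ).re = 2 * ((x + R / ζ : ℂ).im * (x + R / ζ - h.ext (x + R / ζ)).im) := by
      simp only [hp, q1 ζ h0, ← mul_assoc, e3]
      rw [mul_assoc, re_ofReal_mul, mul_re, I_re, I_im, sub_im, sub_im, e2]; ring
    have h5 : ζ.im ^ 2 ≤ 1 := (sq_le_one_iff_abs_le_one _).2 ((abs_im_le_norm ζ).trans n1.le)
    rw [e4]
    refine ⟨by linarith [this.1], ?_⟩
    have h6 := this.2
    rw [e2] at h6 ⊢
    nlinarith [sq_nonneg R]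
  have mx : ∀ (σ : ℂ) (C : ℝ), (∀ ζ ∈ sphere (0 : ℂ) 1, (σ * p ζ).re ≤ C) →
      ∀ ζ ∈ closedBall (0 : ℂ) 1, (σ * p ζ).re ≤ C := fun σ C hC ζ hζ => by
    have := norm_le_of_forall_mem_frontier_norm_le (isBounded_ball (x := (0 : ℂ)) (r := 1))
      (f := fun ζ => exp (σ * p ζ)) (DifferentiableOn.diffContOnCl (by
        rw [closure_ball _ one_ne_zero]; exact (pD.const_mul σ).cexp)) (C := Real.exp C)
      (fun v hv => by
        rw [frontier_ball _ one_ne_zero] at hv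
        rw [norm_exp, Real.exp_le_exp]; exact hC v hv) (z := ζ)
      (by rwa [closure_ball _ one_ne_zero])
    rwa [norm_exp, Real.exp_le_exp] at this
  have p0 : p 0 = a := by simp [hp, q0]
  refine ⟨by simpa [p0] using mx 1 _ (fun ζ hζ => by simpa using (pb ζ hζ).2) 0 (by simp),
    fun z hz => ?_⟩
  have hz0 : 0 < ‖z - x‖ := by linarith
  have hz1 : z - x ≠ 0 := norm_pos_iff.1 hz0
  set ζ := (R : ℂ) / (z - x) with hζ
  have n1 : ‖ζ‖ = R / ‖z - x‖ := by rw [hζ, norm_div, norm_real, Real.norm_of_nonneg hR0.le]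
  have n2 : ‖ζ‖ ≤ 1 / 2 := by rw [n1, div_le_iff₀ hz0]; linarith
  have n0 := norm_nonneg ζ
  have e1 : R / ζ = z - x := by rw [hζ]; field_simp
  have e2 : q ζ = (z - x) * (h.ext z - z) := by
    rw [q1 ζ (div_ne_zero hR' hz1), e1, add_sub_cancel]
  have b1 : ‖a - p ζ‖ ≤ 4 * a * ‖ζ‖ := by
    refine le_of_forall_pos_le_add fun ε hε => ?_
    have := borelCaratheodory_zero (M := a + ε / 2) (f := fun v => a - p v) (by positivity)
      ((pD.mono ball_subset_closedBall).const_sub _) (fun v hv => by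
        have := mx (-1) 0 (fun ζ hζ => by simpa using (pb ζ hζ).1) v (ball_subset_closedBall hv)
        show (a - p v).re ≤ _
        simp only [neg_mul, one_mul, neg_re, sub_re, ofReal_re] at this ⊢
        linarith) one_pos (z := ζ) (mem_ball_zero_iff.2 (by linarith)) (by simp [p0])
    refine this.trans ?_
    rw [div_le_iff₀ (by linarith)]
    nlinarith [mul_nonneg ha n0, mul_nonneg hε.le n0]
  have b2 : 3 / 4 ≤ ‖1 - ζ ^ 2‖ := by
    have := norm_sub_norm_le (1 : ℂ) (ζ ^ 2)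
    rw [norm_one, norm_pow] at this
    nlinarith
  have b3 : ‖1 - ζ ^ 2‖ * ‖q ζ - a‖ ≤ 4 * a * ‖ζ‖ + a * ‖ζ‖ ^ 2 := by
    rw [← norm_mul, show (1 - ζ ^ 2) * (q ζ - a) = a * ζ ^ 2 - (a - p ζ) by simp only [hp]; ring]
    refine (norm_sub_le _ _).trans ?_
    rw [norm_mul, norm_pow, norm_real, Real.norm_of_nonneg ha]
    linarith
  rw [← e2, mul_div_assoc, ← n1]
  nlinarith [mul_nonneg ha n0, norm_nonneg (q ζ - a)]

/-- the map moves points by at most a multiple of the radius of the hull -/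
theorem Hyd.move (h : Hyd U g a) {x r : ℝ} (hK : UH \ U ⊆ closedBall x r) (hr : 0 ≤ r) {z : ℂ}
    (hz : z ∈ U) : ‖g z - z‖ ≤ 8 * r := by
  have key : ∀ R, r < R → ‖g z - z‖ ≤ 8 * R := fun R hR => by
    have hR0 := hr.trans_lt hR
    obtain ⟨h1, h2⟩ := h.small hK hR hR0
    have ha := h.nonneg
    have k : ∀ v ∈ U, 2 * R ≤ ‖v - x‖ → ‖g v - v‖ ≤ 4 * R := fun v hv h3 => by
      have h4 := h2 v h3
      have h5 : 6 * a * R / ‖v - x‖ ≤ 3 * a := by
        rw [div_le_iff₀ (by linarith)]; nlinarith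
      have h6 := norm_sub_norm_le ((v - x) * (h.ext v - v)) a
      rw [norm_mul, norm_real, Real.norm_of_nonneg ha, h.ext_eq hv] at h6
      rw [h.ext_eq hv] at h4
      nlinarith [norm_nonneg (g v - v)]
    by_cases c : 2 * R ≤ ‖z - x‖
    · linarith [k z hz c]
    have : ‖g z - x‖ ≤ 6 * R := not_lt.1 fun h3 => by
      have := h.trap (x := x) (ρ := 2 * R) (fun v hv e => by
        linarith [k v hv e.ge, norm_sub_le_norm_sub_add_norm_sub (g v) v x]) (h.maps hz) h3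
      rw [h.inv_map hz] at this
      exact c this.le
    have h4 := norm_sub_le_norm_sub_add_norm_sub (g z) x z
    rw [norm_sub_rev (x : ℂ)] at h4
    linarith
  exact le_of_forall_pos_le_add fun ε hε => by linarith [key (r + ε / 8) (by linarith)]

theorem Hyd.cap_le (h : Hyd U g a) {x r : ℝ} (hK : UH \ U ⊆ closedBall x r) (hr : 0 ≤ r) :
    a ≤ 2 * r ^ 2 :=
  ge_of_tendsto (f := fun R => 2 * R ^ 2) (x := 𝓝[>] r)
    (ContinuousAt.continuousWithinAt (by fun_prop))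
    (eventually_mem_nhdsWithin.mono fun _ hR => (h.small hK hR (hr.trans_lt hR)).1)

theorem Hyd.ext_move (h : Hyd U g a) {x r : ℝ} (hK : UH \ U ⊆ closedBall x r) (hr : 0 ≤ r) {z : ℂ}
    (hz : z ∈ Mir U) (h0 : 0 ≤ z.im) : ‖h.ext z - z‖ ≤ 8 * r :=
  h.ext_mem (C := {q | ‖q.2 - q.1‖ ≤ 8 * r}) (isClosed_le (by fun_prop) continuous_const) hz h0
    (eventually_mem_nhdsWithin.mono fun _ hv => h.move hK hr hv)

end

end Pool.Agent.Lib.MP_6359c9_pr
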