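import Pool.Agent.Lib.MP_6359c9_pr.LwB
import Pool.Agent.Lib.MP_069d55_gt.LenArea

/-! The length and area argument of Wolff. -/

namespace Pool.Agent.Lib.MP_6359c9_pr

open Set Filter Topology Bornology Metric Complex MeasureTheory Pool.Agent.Lib.MP_1e9af3_an

noncomputable section

namespace Lw

lemma exists_slice {W : Set ℂ} (hW : IsOpen W) {φ : ℂ → ℂ} (hd : DifferentiableOn ℂ φ W)
    (hi : InjOn φ W) {A c d η : ℝ} (hA : volume (φ '' W) ≤ ENNReal.ofReal A) (hcd : c < d)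
    (hη : 0 < η) (h : A < η * (d - c)) :
    ∃ x ∈ Ioo c d, ∫⁻ y : ℝ, W.indicator (fun w => ENNReal.ofReal (‖deriv φ w‖ ^ 2)) (x + y * I)
      ≤ ENNReal.ofReal η := by
  set G : ℂ → ENNReal := W.indicator (fun w => ENNReal.ofReal (‖deriv φ w‖ ^ 2)) with hG
  have hGm : Measurable G := by
    refine Measurable.indicator ?_ hW.measurableSet
    exact ENNReal.measurable_ofReal.comp ((measurable_deriv φ).norm.pow_const 2)
  have h1 : ∫⁻ w, G w ≤ ENNReal.ofReal A := by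
    rw [hG, lintegral_indicator hW.measurableSet]
    have := lintegral_abs_det_fderiv_eq_addHaar_image volume hW.measurableSet
      (f := φ) (f' := fun w => deriv φ w • (1 : ℂ →L[ℝ] ℂ))
      (fun w hw => (hd.differentiableAt (hW.mem_nhds hw)).hasDerivAt.complexToReal_fderiv
        |>.hasFDerivWithinAt) hi
    simp only [MP_069d55_gt.det_cmul, abs_pow, abs_norm] at this
    rw [this]; exact hA
  have h2 : ∫⁻ w, G w = ∫⁻ x : ℝ, ∫⁻ y : ℝ, G (x + y * I) := by
    rw [← (volume_preserving_equiv_real_prod.symm).lintegral_comp_emb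
      measurableEquivRealProd.symm.measurableEmbedding, Measure.volume_eq_prod, lintegral_prod]
    · congr 1; funext x; congr 1; funext y; congr 1
      apply Complex.ext <;> simp
    · exact (hGm.comp measurableEquivRealProd.symm.measurable).aemeasurable
  by_contra hcon
  push Not at hcon
  have h3 : ∫⁻ x in Ioo c d, ENNReal.ofReal η ≤ ∫⁻ x : ℝ, ∫⁻ y : ℝ, G (x + y * I) := by
    refine le_trans ?_ (setLIntegral_le_lintegral (Ioo c d) _)
    exact setLIntegral_mono' measurableSet_Ioo fun x hx => (hcon x hx).le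
  rw [setLIntegral_const, Real.volume_Ioo, ← h2, ← ENNReal.ofReal_mul hη.le] at h3
  exact (h3.trans h1).not_gt ((ENNReal.ofReal_lt_ofReal_iff (mul_pos hη (sub_pos.2 hcd))).2 h)

/-- some circle of radius between `δ` and `Δ` has a short image -/
theorem wolff' {U : Set ℂ} {g : ℂ → ℂ} (hU : IsOpen U) (hd : DifferentiableOn ℂ g U)
    (hi : InjOn g U) (p : ℂ) {δ Δ A t : ℝ} (hδ : 0 < δ) (hΔ : δ < Δ)
    (hA : volume (g '' (U ∩ ball p Δ)) ≤ ENNReal.ofReal A) (ht : 0 < t)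
    (h : A < t ^ 2 * Real.log (Δ / δ)) : ∃ ρ ∈ Ioo δ Δ, ∀ l : ℂ → ℝ,
      (∀ z ∈ U ∩ sphere p ρ, DifferentiableAt ℝ l (g z) ∧ ‖fderiv ℝ l (g z)‖ ≤ 1) →
      volume (l '' (g '' (U ∩ sphere p ρ))) ≤ ENNReal.ofReal (8 * t) := by
  have hΔ0 := hδ.trans hΔ
  set W : Set ℂ := {w | w.re < Real.log Δ ∧ w.im ∈ Ioo (-Real.pi) Real.pi ∧ p + exp w ∈ U} with hW
  have hWo : IsOpen W := (isOpen_lt continuous_re continuous_const).inter
    ((isOpen_Ioo.preimage continuous_im).inter (hU.preimage (by fun_prop)))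
  set φ : ℂ → ℂ := fun w => g (p + exp w) with hφ
  have φd : DifferentiableOn ℂ φ W := hd.comp (by fun_prop) fun w hw => hw.2.2
  have φi : InjOn φ W := fun w hw v hv e =>
    exp_inj_of_neg_pi_lt_of_le_pi hw.2.1.1 hw.2.1.2.le hv.2.1.1 hv.2.1.2.le
      (add_left_cancel (hi hw.2.2 hv.2.2 e))
  obtain ⟨x, hx, hJ⟩ := exists_slice hWo φd φi (A := A) (c := Real.log δ) (d := Real.log Δ)
    (η := t ^ 2) ((measure_mono (by
      rintro _ ⟨w, hw, rfl⟩
      refine ⟨_, ⟨hw.2.2, ?_⟩, rfl⟩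
      rw [mem_ball_iff_norm, add_sub_cancel_left, norm_exp]
      exact (Real.lt_log_iff_exp_lt hΔ0).1 hw.1)).trans hA) (Real.log_lt_log hδ hΔ)
    (by positivity) (by rwa [← Real.log_div hΔ0.ne' hδ.ne'])
  refine ⟨Real.exp x, ⟨(Real.log_lt_iff_lt_exp hδ).1 hx.1, (Real.lt_log_iff_exp_lt hΔ0).1 hx.2⟩,
    fun l hl' => ?_⟩
  set S : Set ℝ := {y | (x + y * I : ℂ) ∈ W} with hS
  have hl := fun y (hy : y ∈ S) => hl' (p + exp (x + y * I)) ⟨hy.2.2, by simp [norm_exp]⟩
  have hSm : MeasurableSet S := (hWo.preimage (by fun_prop)).measurableSet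
  set ψ : ℝ → ℝ := fun y => l (φ (x + y * I)) with hψ
  have ψd : ∀ y ∈ S, HasDerivAt ψ (fderiv ℝ l (φ (x + y * I)) (deriv φ (x + y * I) * I)) y := by
    intro y hy
    have h1 : HasDerivAt (fun w : ℂ => φ (x + w * I)) (deriv φ (x + y * I) * I) (y : ℂ) := by
      have := (φd.differentiableAt (hWo.mem_nhds hy)).hasDerivAt.comp (y : ℂ)
        (((hasDerivAt_id (y : ℂ)).mul_const I).const_add (x : ℂ))
      rw [one_mul] at this
      exact this
    exact (hl y hy).1.hasFDerivAt.comp_hasDerivAt y h1.comp_ofReal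
  have h1 := addHaar_image_le_lintegral_abs_det_fderiv volume hSm
    fun y hy => (ψd y hy).hasFDerivAt.hasFDerivWithinAt
  simp only [ContinuousLinearMap.det_toSpanSingleton] at h1
  have h2 : ∀ y ∈ S, ENNReal.ofReal |fderiv ℝ l (φ (x + y * I)) (deriv φ (x + y * I) * I)| ≤
      ENNReal.ofReal t + ENNReal.ofReal t⁻¹ *
        W.indicator (fun w => ENNReal.ofReal (‖deriv φ w‖ ^ 2)) (x + y * I) := by
    intro y hy
    rw [indicator_of_mem (show (x + y * I : ℂ) ∈ W from hy), ← ENNReal.ofReal_mul (by positivity),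
      ← ENNReal.ofReal_add ht.le (by positivity)]
    refine ENNReal.ofReal_le_ofReal ?_
    have h3 := (fderiv ℝ l (φ (x + y * I))).le_of_opNorm_le (hl y hy).2
      (deriv φ (x + y * I) * I)
    rw [norm_mul, norm_I, mul_one, one_mul, Real.norm_eq_abs] at h3
    refine h3.trans ?_
    set d := ‖deriv φ (x + y * I)‖
    have : d * t ≤ (t + t⁻¹ * d ^ 2) * t := by
      have : (t + t⁻¹ * d ^ 2) * t = t ^ 2 + d ^ 2 := by field_simp
      rw [this]; nlinarith [sq_nonneg (d - t), sq_nonneg d, sq_nonneg t]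
    exact le_of_mul_le_mul_right this ht
  have h3 := h1.trans (setLIntegral_mono' hSm h2)
  rw [lintegral_add_left measurable_const, setLIntegral_const,
    lintegral_const_mul' _ _ ENNReal.ofReal_ne_top] at h3
  have h4 : volume S ≤ ENNReal.ofReal 7 := by
    refine (measure_mono (show S ⊆ Ioo (-Real.pi) Real.pi from fun y hy => by
      simpa using hy.2.1)).trans ?_
    rw [Real.volume_Ioo]
    exact ENNReal.ofReal_le_ofReal (by linarith [Real.pi_lt_d2])
  have h5 : l '' (g '' (U ∩ sphere p (Real.exp x))) ⊆ insert (l (g (p - Real.exp x))) (ψ '' S) := by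
    rintro _ ⟨_, ⟨z, ⟨hz, hz'⟩, rfl⟩, rfl⟩
    have e : z = p + exp (x + arg (z - p) * I) := by
      rw [exp_add, ← ofReal_exp, ← mem_sphere_iff_norm.1 hz', norm_mul_exp_arg_mul_I]; ring
    rcases (arg_le_pi (z - p)).lt_or_eq with c | c
    · refine Or.inr ⟨arg (z - p), ⟨by simpa using hx.2, by simpa using ⟨neg_pi_lt_arg _, c⟩,
        e ▸ hz⟩, ?_⟩
      simp only [hψ, hφ, ← e]
    · left
      rw [e, c, exp_add, exp_pi_mul_I, ofReal_exp, mul_neg_one, sub_eq_add_neg]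
  refine (measure_mono h5).trans ((measure_union_le {_} _).trans ?_)
  rw [Real.volume_singleton, zero_add]
  refine h3.trans ?_
  have := (setLIntegral_le_lintegral S _).trans hJ
  calc _ ≤ ENNReal.ofReal t * ENNReal.ofReal 7 + ENNReal.ofReal t⁻¹ * ENNReal.ofReal (t ^ 2) := by
        gcongr
    _ = _ := by
        rw [← ENNReal.ofReal_mul ht.le, ← ENNReal.ofReal_mul (by positivity),
          ← ENNReal.ofReal_add (by positivity) (by positivity)]
        congr 1; field_simp; ring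

theorem wolff {U : Set ℂ} {g : ℂ → ℂ} (hU : IsOpen U) (hd : DifferentiableOn ℂ g U)
    (hi : InjOn g U) (p : ℂ) {δ Δ A t : ℝ} (hδ : 0 < δ) (hΔ : δ < Δ)
    (hA : volume (g '' (U ∩ ball p Δ)) ≤ ENNReal.ofReal A) (ht : 0 < t)
    (h : A < t ^ 2 * Real.log (Δ / δ)) : ∃ ρ ∈ Ioo δ Δ, ∀ l : ℂ → ℝ,
      (∀ z ∈ U, DifferentiableAt ℝ l (g z) ∧ ‖fderiv ℝ l (g z)‖ ≤ 1) →
      volume (l '' (g '' (U ∩ sphere p ρ))) ≤ ENNReal.ofReal (8 * t) :=
  (wolff' hU hd hi p hδ hΔ hA ht h).imp fun _ H => ⟨H.1, fun l hl => H.2 l fun z hz => hl z hz.1⟩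

lemma tendsto_ray (w : ℂ) {d : ℂ} (hd : 0 < d.im) :
    Tendsto (fun T : ℝ => w + T * d) atTop (cobounded ℂ ⊓ 𝓟 UH) := by
  intro s hs
  obtain ⟨R, hR⟩ := ev_iff.1 hs
  rw [mem_map]
  filter_upwards [eventually_gt_atTop ((|w.im| + |R|) / d.im)] with T hT
  rw [div_lt_iff₀ hd] at hT
  have h1 : (w + T * d).im = w.im + T * d.im := by simp
  have h2 := neg_abs_le w.im
  refine hR _ (mem_UH.2 (by rw [h1]; linarith [abs_nonneg R])) ?_
  refine le_trans ?_ (im_le_norm _)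
  rw [h1]; linarith [le_abs_self R]

lemma abs_le_of_vol {s : Set ℝ} (hs : IsPreconnected s) {u v c : ℝ} (hu : u ∈ s) (hv : v ∈ s)
    (hc : 0 ≤ c) (h : volume s ≤ ENNReal.ofReal c) : |u - v| ≤ c := by
  have := (measure_mono (hs.ordConnected.uIcc_subset hv hu)).trans h
  rwa [Real.volume_interval, ENNReal.ofReal_le_ofReal_iff hc] at this

end Lw

open Lw

variable {U : Set ℂ} {g : ℂ → ℂ} {a : ℝ}

lemma Hyd.ray (h : Hyd U g a) {p z d : ℂ} {ρ : ℝ} (hz : z ∈ U) (h1 : ‖z - p‖ ≤ ρ) (hd : 0 < d.im) :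
    ∃ v ∈ U ∩ sphere p ρ, ∃ T : ℝ, 0 ≤ T ∧ g v = g z + T * d := by
  have hm : ∀ T : ℝ, 0 ≤ T → g z + T * d ∈ UH := fun T hT => mem_UH.2 (by
    have := mem_UH.1 (h.maps hz)
    simp only [add_im, im_ofReal_mul]; positivity)
  obtain ⟨S, h2, h3⟩ := (((tendsto_nrm.comp (h.tendsto_inv.comp
    (tendsto_ray (g z) hd))).eventually_ge_atTop (ρ + ‖p‖)).and (eventually_ge_atTop 0)).exists
  have H := intermediate_value_Icc h3 (f := fun T : ℝ => ‖h.inv (g z + T * d) - p‖)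
    (((h.inv_hol.continuousOn.comp (by fun_prop) fun T hT => hm T hT.1).sub
      continuousOn_const).norm)
  obtain ⟨T, hT, e⟩ := H (a := ρ) ⟨by simpa [h.inv_map hz] using h1, by
      simp only [Function.comp] at h2
      linarith [norm_sub_norm_le (h.inv (g z + S * d)) p]⟩
  exact ⟨_, ⟨h.inv_mem (hm T hT.1), mem_sphere_iff_norm.2 e⟩, T, hT.1, h.map_inv (hm T hT.1)⟩

/-- small connected sets have small images, uniformly over hulls of bounded size -/
theorem Hyd.wolff (h : Hyd U g a) {x r : ℝ} (hK : UH \ U ⊆ closedBall x r) (hr : 0 ≤ r) {p : ℂ}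
    {δ Δ t : ℝ} (hδ : 0 < δ) (hΔ : δ < Δ) (ht : 0 < t)
    (hA : 4 * (Δ + 8 * r) ^ 2 < t ^ 2 * Real.log (Δ / δ)) {E : Set ℂ} (hE : IsPreconnected E)
    (hEU : E ⊆ U ∩ closedBall p δ) {u v : ℂ} (hu : u ∈ E) (hv : v ∈ E) :
    ‖g u - g v‖ ≤ 16 * t := by
  obtain ⟨ρ, hρ, H⟩ := Lw.wolff h.op h.hol h.bij.injOn p hδ hΔ (A := 4 * (Δ + 8 * r) ^ 2) (by
    refine (measure_mono (show _ ⊆ ball p (Δ + 8 * r) by
      rintro _ ⟨z, hz, rfl⟩
      have := norm_sub_le_norm_sub_add_norm_sub (g z) z p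
      exact mem_ball_iff_norm.2 (by linarith [h.move hK hr hz.1, mem_ball_iff_norm.1 hz.2]))).trans ?_
    rw [Complex.volume_ball, ← ENNReal.ofReal_pow (by linarith), ← ENNReal.ofReal_coe_nnreal,
      ← ENNReal.ofReal_mul (by positivity)]
    refine ENNReal.ofReal_le_ofReal ?_
    rw [NNReal.coe_real_pi]
    nlinarith [Real.pi_le_four, sq_nonneg (Δ + 8 * r)]) ht hA
  have key : ∀ σ : ℝ, |σ| = 1 →
      |((g u).im + σ * (g u).re) / 2 - ((g v).im + σ * (g v).re) / 2| ≤ 8 * t := by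
    intro σ hσ
    set L : ℂ →L[ℝ] ℝ := (1 / 2 : ℝ) • (imCLM + σ • reCLM) with hL
    have e : ∀ w, L w = (w.im + σ * w.re) / 2 := fun w => by simp [hL]; ring
    rw [← e, ← e]
    refine abs_le_of_vol (s := L '' (g '' E)) ((hE.image g (h.hol.continuousOn.mono
      fun z hz => (hEU hz).1)).image L L.continuous.continuousOn) ⟨_, ⟨u, hu, rfl⟩, rfl⟩
      ⟨_, ⟨v, hv, rfl⟩, rfl⟩ (by positivity) ((measure_mono ?_).trans (H L fun z _ =>
        ⟨L.differentiableAt, ?_⟩))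
    · rintro _ ⟨_, ⟨z, hz, rfl⟩, rfl⟩
      obtain ⟨v, hv, T, -, e1⟩ := h.ray (p := p) (ρ := ρ) (d := ⟨-σ, 1⟩) (hEU hz).1
        ((mem_closedBall_iff_norm.1 (hEU hz).2).trans hρ.1.le) one_pos
      refine ⟨_, ⟨v, hv, rfl⟩, ?_⟩
      have : σ * σ = 1 := by rw [← abs_mul_abs_self, hσ, mul_one]
      rw [e, e, e1]
      simp only [add_im, add_re, im_ofReal_mul, re_ofReal_mul]
      linear_combination (-T / 2) * this
    · rw [L.fderiv]
      refine L.opNorm_le_bound one_pos.le fun w => ?_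
      rw [e, Real.norm_eq_abs, abs_div, abs_two]
      have := abs_add_le w.im (σ * w.re)
      rw [abs_mul, hσ] at this
      linarith [abs_re_le_norm w, abs_im_le_norm w]
  have k1 := abs_le.1 (key 1 abs_one)
  have k2 := abs_le.1 (key (-1) (by simp))
  refine (norm_le_abs_re_add_abs_im _).trans ?_
  rw [sub_re, sub_im]
  rcases abs_cases ((g u).re - (g v).re) with c | c <;>
    rcases abs_cases ((g u).im - (g v).im) with c' | c' <;> linarith [k1.1, k1.2, k2.1, k2.2]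

end

end Pool.Agent.Lib.MP_6359c9_pr
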