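import Pool.Agent.Lib.MP_6359c9_pr.LwB
import Pool.Agent.Lib.MP_d32f96_gt.T1
import Pool.Agent.Lib.MP_d32f96_gt.T2
import Pool.Agent.Lib.MP_d32f96_gt.C1x
import Pool.Agent.Lib.MP_d32f96_gt.E

/-! Existence of hydrodynamically normalised maps. -/

namespace Pool.Agent.Lib.MP_6359c9_pr

open Set Filter Topology Bornology Metric Complex ComplexConjugate Pool.Agent.Lib.MP_1e9af3_an

noncomputable section

open Lw in
lemma Hyd.affine {U : Set ℂ} {g : ℂ → ℂ} {a : ℝ} (h : Hyd U g a) (x : ℝ) {c : ℝ} (hc : 0 < c) :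
    Hyd {z | (z - x) / c ∈ U} (fun z => x + c * g ((z - x) / c)) (c ^ 2 * a) := by
  have hc' : (c : ℂ) ≠ 0 := ofReal_ne_zero.2 hc.ne'
  have e1 : ∀ z : ℂ, (z - x) / c ∈ UH ↔ z ∈ UH := fun z => by
    simp [mem_UH, div_ofReal_im, hc]
  have e2 : ∀ w : ℂ, (x + c * w - x) / c = w := fun w => by field_simp; ring
  have t : Tendsto (fun z : ℂ => (z - x) / c) (cobounded ℂ ⊓ 𝓟 UH) (cobounded ℂ ⊓ 𝓟 UH) :=
    tendsto_inf.2 ⟨((tendsto_mul_right_cobounded (inv_ne_zero hc')).comp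
      (tendsto_sub_const_cobounded _)).mono_left inf_le_left,
      tendsto_principal.2 (ev_iff.2 ⟨0, fun z hz _ => (e1 z).2 hz⟩)⟩
  refine ⟨h.op.preimage (by fun_prop), ?_, fun z hz => (e1 z).1 (h.sub hz),
    ((h.hol.comp (f := fun z : ℂ => (z - x) / c) (by fun_prop) fun z hz => hz).const_mul _).const_add _,
    ⟨fun z hz => (e1 _).1 (by rw [e2]; exact h.maps hz), fun z hz v hv e => ?_, fun w hw => ?_⟩, ?_⟩
  · obtain ⟨R, hR⟩ := ev_iff.1 (t.eventually h.ev_mem)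
    exact isBounded_iff_forall_norm_le.2 ⟨R, fun w hw => not_lt.1 fun h1 =>
      hw.2 (hR w hw.1 h1.le)⟩
  · have := h.bij.injOn hz hv (mul_left_cancel₀ hc' (add_left_cancel e))
    exact sub_left_injective ((div_left_inj' hc').1 this)
  · refine ⟨x + c * h.inv ((w - x) / c), ?_, ?_⟩
    · rw [mem_ofPred_eq, e2]; exact h.inv_mem ((e1 w).2 hw)
    · simp only [e2, h.map_inv ((e1 w).2 hw)]; field_simp; ring
  · have := ((h.lim.comp t).const_mul ((c : ℂ) ^ 2)).add ((h.lim0.comp t).const_mul ((x : ℂ) * c))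
    rw [mul_zero, add_zero] at this
    push_cast
    refine this.congr fun z => ?_
    simp only [Function.comp]; field_simp; ring

namespace Lw

/-- the map of Joukowski -/
def jk (ζ : ℂ) : ℂ := ζ + ζ⁻¹

lemma jk_conj (ζ : ℂ) : jk (conj ζ) = conj (jk ζ) := by simp [jk]

lemma jk_im (ζ : ℂ) : (jk ζ).im = ζ.im * (1 - (‖ζ‖ ^ 2)⁻¹) := by
  rw [jk, add_im, inv_im, normSq_eq_norm_sq]; ring

lemma jk_diff {ζ : ℂ} (h : ζ ≠ 0) : DifferentiableAt ℂ jk ζ :=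
  differentiableAt_id.add (differentiableAt_inv h)

lemma jk_neg {ζ : ℂ} (h0 : ζ ≠ 0) (h1 : ‖ζ‖ < 1) : 1 - (‖ζ‖ ^ 2)⁻¹ < 0 := by
  have := norm_pos_iff.2 h0
  rw [sub_neg, one_lt_inv₀ (by positivity)]; nlinarith

lemma jk_norm {ζ : ℂ} (h1 : ‖ζ‖ ≤ 1) : ‖ζ‖⁻¹ ≤ ‖jk ζ‖ + 1 ∧ ‖jk ζ‖ ≤ ‖ζ‖⁻¹ + 1 := by
  have h2 := norm_sub_norm_le ζ⁻¹ (jk ζ)
  have h3 := norm_add_le ζ ζ⁻¹
  rw [show ζ⁻¹ - jk ζ = -ζ by simp [jk], norm_neg] at h2
  rw [norm_inv] at h2 h3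
  exact ⟨by linarith, by rw [jk]; linarith⟩

lemma jk_real {ζ : ℂ} (h0 : ζ ≠ 0) (h1 : ‖ζ‖ < 1) (h : ζ.im = 0) : 2 < ‖jk ζ‖ := by
  obtain ⟨x, rfl⟩ : ∃ x : ℝ, ζ = x := ⟨ζ.re, Complex.ext rfl (by simp [h])⟩
  have hx : x ≠ 0 := ofReal_ne_zero.1 h0
  rw [norm_real, Real.norm_eq_abs] at h1
  have h2 := abs_pos.2 hx
  rw [show jk x = ((x ^ 2 + 1) / x : ℝ) by rw [jk]; push_cast; field_simp, norm_real,
    Real.norm_eq_abs, abs_div, lt_div_iff₀ h2, abs_of_pos (a := x ^ 2 + 1) (by positivity), ← sq_abs]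
  nlinarith

lemma jk_inj : InjOn jk {ζ | ζ ≠ 0 ∧ ‖ζ‖ ≤ 1 ∧ ζ.im ≤ 0} := fun u hu v hv e => by
  have h1 : (u - v) * (u * v - 1) = 0 := by
    have hu0 := hu.1
    have hv0 := hv.1
    rw [jk, jk] at e
    field_simp at e
    linear_combination e
  rcases mul_eq_zero.1 h1 with h | h
  · exact sub_eq_zero.1 h
  have h2 : ‖u‖ * ‖v‖ = 1 := by rw [← norm_mul, sub_eq_zero.1 h, norm_one]
  have h3 : ‖u‖ = 1 := by nlinarith [hu.2.1, hv.2.1, norm_nonneg u, norm_nonneg v]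
  have h4 : v = conj u := by rw [← inv_eq_conj h3]; exact eq_inv_of_mul_eq_one_right (sub_eq_zero.1 h)
  have h5 := hv.2.2
  rw [h4, conj_im] at h5
  rw [h4, conj_eq_iff_im.2 (le_antisymm hu.2.2 (by linarith))]

lemma jk_surj {z : ℂ} (h : 0 ≤ z.im) : ∃ ζ, ζ ≠ 0 ∧ ‖ζ‖ ≤ 1 ∧ ζ.im ≤ 0 ∧ jk ζ = z := by
  obtain ⟨s, hs⟩ := IsAlgClosed.exists_pow_nat_eq (z ^ 2 - 4) two_pos
  have e : (z + s) / 2 * ((z - s) / 2) = 1 := by linear_combination (-1 / 4) * hs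
  obtain ⟨ζ, h0, h1, h2⟩ : ∃ ζ, ζ ≠ 0 ∧ ‖ζ‖ ≤ 1 ∧ jk ζ = z := by
    have n0 := left_ne_zero_of_mul_eq_one e
    have j : jk ((z + s) / 2) = z := by rw [jk, ← eq_inv_of_mul_eq_one_right e]; ring
    rcases le_total ‖(z + s) / 2‖ 1 with c | c
    · exact ⟨_, n0, c, j⟩
    · exact ⟨((z + s) / 2)⁻¹, inv_ne_zero n0, by rw [norm_inv]; exact inv_le_one_of_one_le₀ c,
        by rw [jk, inv_inv, add_comm]; exact j⟩
  rcases le_or_gt ζ.im 0 with c | c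
  · exact ⟨ζ, h0, h1, c, h2⟩
  rcases h1.lt_or_eq with h1 | h1
  · have := jk_im ζ
    rw [h2] at this
    nlinarith [jk_neg h0 h1]
  · refine ⟨conj ζ, (map_ne_zero _).2 h0, by rw [norm_conj, h1], by simpa using c.le, ?_⟩
    rw [jk_conj, conj_eq_iff_im.2 (by rw [jk_im, h1]; simp), h2]

/-- the lower half disc -/
def LD : Set ℂ := {ζ | ‖ζ‖ < 1 ∧ ζ.im < 0}

lemma LD_ne {ζ : ℂ} (h : ζ ∈ LD) : ζ ≠ 0 := fun e => by simpa [e] using h.2

lemma isOpen_LD : IsOpen LD :=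
  (isOpen_lt continuous_norm continuous_const).inter (isOpen_lt continuous_im continuous_const)

lemma jk_bij : BijOn jk LD UH := by
  refine ⟨fun ζ h => mem_UH.2 ?_, jk_inj.mono fun ζ h => by exact ⟨LD_ne h, h.1.le, h.2.le⟩, fun z hz => ?_⟩
  · rw [jk_im]; exact mul_pos_of_neg_of_neg h.2 (jk_neg (LD_ne h) h.1)
  · obtain ⟨ζ, h0, h1, h2, rfl⟩ := jk_surj (le_of_lt hz)
    have h3 := mem_UH.1 hz
    rw [jk_im] at h3
    exact ⟨ζ, ⟨lt_of_le_of_ne h1 fun e => by simp [e] at h3,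
      lt_of_le_of_ne h2 fun e => by simp [e] at h3⟩, rfl⟩

/-- the inverse of the map of Joukowski -/
def jv : ℂ → ℂ := Function.invFunOn jk LD

lemma jv_mem {z : ℂ} (h : z ∈ UH) : jv z ∈ LD := Function.invFunOn_mem (jk_bij.surjOn h)

lemma jk_jv {z : ℂ} (h : z ∈ UH) : jk (jv z) = z := Function.invFunOn_eq (jk_bij.surjOn h)

lemma jv_jk {ζ : ℂ} (h : ζ ∈ LD) : jv (jk ζ) = ζ := jk_bij.injOn.leftInvOn_invFunOn h

lemma jv_hol : DifferentiableOn ℂ jv UH := fun w hw => by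
  have := inv_analyticAt isOpen_LD (fun ζ h => (jk_diff (LD_ne h)).differentiableWithinAt) jk_bij.injOn
    (h := jv) (fun _ => jv_jk) (jv_mem hw)
  rw [jk_jv hw] at this
  exact this.differentiableAt.differentiableWithinAt

lemma tendsto_jv : Tendsto jv (cobounded ℂ ⊓ 𝓟 UH) (𝓝[≠] 0) := by
  refine tendsto_nhdsWithin_iff.2 ⟨tendsto_iff.2 fun ε hε => ⟨ε⁻¹ + 2, fun z hz h => ?_⟩,
    ev_iff.2 ⟨0, fun z hz _ => LD_ne (jv_mem hz)⟩⟩
  have := (jk_norm (jv_mem hz).1.le).2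
  rw [jk_jv hz] at this
  rw [sub_zero, ← inv_lt_inv₀ hε (norm_pos_iff.2 (LD_ne (jv_mem hz)))]
  linarith

lemma sym_of {V : Set ℂ} (hV : IsOpen V) (h0 : (0 : ℂ) ∈ V) (hs : ∀ z ∈ V, conj z ∈ V)
    {χ : ℂ → ℂ} {l : ℝ} (hl : 0 < l) (χd : DifferentiableOn ℂ χ V) (χb : BijOn χ V (ball 0 1))
    (χ0 : χ 0 = 0) (χ1 : HasDerivAt χ l 0) : ∀ z ∈ V, χ (conj z) = conj (χ z) := by
  set k := Function.invFunOn χ V
  have k1 : ∀ w ∈ V, k (χ w) = w := fun w hw => χb.injOn.leftInvOn_invFunOn hw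
  have km : ∀ w ∈ ball (0 : ℂ) 1, k w ∈ V := fun w hw => Function.invFunOn_mem (χb.surjOn hw)
  have k0 : k 0 = 0 := by simpa only [χ0] using k1 0 h0
  have hl' : (l : ℂ) ≠ 0 := ofReal_ne_zero.2 hl.ne'
  have md : DifferentiableOn ℂ ((conj ∘ χ ∘ conj) ∘ k) (ball 0 1) := fun w hw => by
    obtain ⟨z, hz, rfl⟩ := χb.surjOn hw
    have := (χd.differentiableAt (hV.mem_nhds (hs z hz))).conj_conj
    rw [conj_conj, ← k1 z hz] at this
    exact (this.comp _ (inv_analyticAt hV χd χb.injOn k1 hz).differentiableAt).differentiableWithinAt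
  have m1 : HasDerivAt ((conj ∘ χ ∘ conj) ∘ k) 1 0 := by
    have h1 := inv_diff_aux hV χd χb.injOn k1 h0 (by rwa [χ1.deriv])
    have h2 := χ1.conj_conj
    rw [χ0, χ1.deriv] at h1
    rw [map_zero, conj_ofReal, ← k0] at h2
    have := h2.comp 0 h1
    rwa [mul_inv_cancel₀ hl'] at this
  have m0 : ((conj ∘ χ ∘ conj) ∘ k) 0 = 0 := by
    simp only [Function.comp, k0, map_zero, χ0]
  have := affine_of_mapsTo_ball_of_norm_dslope_eq_div (R₂ := 1) md (fun w hw => by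
    have := χb.mapsTo (hs _ (km w hw))
    rw [m0]
    simpa using (mem_ball_zero_iff.1 this).le) (mem_ball_self one_pos)
    (by rw [dslope_same, m1.deriv]; simp)
  intro z hz
  have := this (χb.mapsTo hz)
  simp only [m0, dslope_same, m1.deriv] at this
  simp only [Function.comp, k1 z hz] at this
  rw [← conj_conj (χ _), this]; simp

/-- the Riemann map of a symmetric domain -/
lemma sym_rmt {V : Set ℂ} (hV : IsOpen V) (hb : IsBounded V) (hc : IsPreconnected V)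
    (hc' : IsPreconnected Vᶜ) (h0 : (0 : ℂ) ∈ V) (hs : ∀ z ∈ V, conj z ∈ V) :
    ∃ (χ : ℂ → ℂ) (l : ℝ), 0 < l ∧ DifferentiableOn ℂ χ V ∧ BijOn χ V (ball 0 1) ∧ χ 0 = 0 ∧
      deriv χ 0 = l ∧ ∀ z ∈ V, χ (conj z) = conj (χ z) := by
  obtain ⟨φ, φd, φi, φm, φ0⟩ := MP_d32f96_gt.xRMT_of (MP_d32f96_gt.sLogC_of
    (MP_d32f96_gt.sHD_of MP_d32f96_gt.sLogOut_of)) V 0 hV hb hc hc' h0
  set k := Function.invFunOn φ (ball 0 1)
  have m0 : (0 : ℂ) ∈ ball (0 : ℂ) 1 := mem_ball_self one_pos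
  have k1 : ∀ w ∈ ball (0 : ℂ) 1, k (φ w) = w := fun w hw => φi.leftInvOn_invFunOn hw
  have kd : DifferentiableOn ℂ k V := by
    rw [← φm]; rintro _ ⟨w, hw, rfl⟩
    exact (inv_analyticAt isOpen_ball φd φi k1 hw).differentiableAt.differentiableWithinAt
  have kb : BijOn k V (ball 0 1) :=
    BijOn.symm (f := φ) (g := k) ⟨fun z hz => Function.invFunOn_eq (by rwa [← φm] at hz), k1⟩
      (φm ▸ φi.bijOn_image)
  have k0 : k 0 = 0 := by simpa only [φ0] using k1 0 m0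
  have d0 := deriv_ne_zero_of_injOn hV kd kb.injOn h0
  set c : ℂ := ‖deriv k 0‖ / deriv k 0 with hcd
  have n0 := norm_pos_iff.2 d0
  have c1 : ‖c‖ = 1 := by rw [hcd, norm_div, norm_real, norm_norm, div_self n0.ne']
  have c0 : c ≠ 0 := by rintro e; simp [e] at c1
  have χb : BijOn (fun z => c * k z) V (ball 0 1) :=
    BijOn.comp (g := fun w => c * w) ⟨fun w hw => by simpa [c1] using hw,
      (mul_right_injective₀ c0).injOn, fun w hw => ⟨c⁻¹ * w, by simpa [c1] using hw,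
        mul_inv_cancel_left₀ c0 w⟩⟩ kb
  have χd : DifferentiableOn ℂ (fun z => c * k z) V := kd.const_mul c
  have χ1 : HasDerivAt (fun z => c * k z) (‖deriv k 0‖ : ℝ) 0 := by
    have := (kd.differentiableAt (hV.mem_nhds h0)).hasDerivAt.const_mul c
    rwa [hcd, div_mul_cancel₀ _ d0] at this
  have χ0 : c * k 0 = 0 := by rw [k0, mul_zero]
  exact ⟨_, _, n0, χd, χb, χ0, χ1.deriv, sym_of hV h0 hs n0 χd χb χ0 χ1⟩

/-- the symmetric domain seen in the unit disc -/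
def Dk (U : Set ℂ) : Set ℂ := {ζ | ‖ζ‖ < 1 ∧ (ζ = 0 ∨ jk ζ ∈ Mir U)}

variable {U : Set ℂ}

lemma sub_mir (hU : IsOpen U) (hs : U ⊆ UH) : U ⊆ Mir U := fun z hz =>
  ⟨fun h1 => by
    obtain ⟨v, h2, h3⟩ := mem_closure_iff.1 h1 U hU hz
    exact h3.2 h2, fun h1 => by
    have := im_closure h1
    have h2 := mem_UH.1 (hs hz)
    rw [conj_im] at this; linarith⟩

lemma dk_conj {ζ : ℂ} (h : ζ ∈ Dk U) : conj ζ ∈ Dk U :=
  ⟨by rw [norm_conj]; exact h.1, h.2.imp (fun e => by simp [e]) fun e => jk_conj ζ ▸ sym_conj e⟩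

lemma dk_far (hK : UH \ U ⊆ closedBall ((0 : ℝ) : ℂ) 2) {ζ : ℂ} (h1 : ‖ζ‖ < 1)
    (h : ζ ≠ 0 → 2 < ‖jk ζ‖) : ζ ∈ Dk U :=
  ⟨h1, or_iff_not_imp_left.2 fun e => far_sym hK (by simpa using h e)⟩

lemma dk_small (hK : UH \ U ⊆ closedBall ((0 : ℝ) : ℂ) 2) : ball 0 (1 / 3) ⊆ Dk U := fun ζ h => by
  have h1 := mem_ball_zero_iff.1 h
  refine dk_far hK (by linarith) fun e => ?_
  have := (jk_norm (ζ := ζ) (by linarith)).1
  have h3 : 3 < ‖ζ‖⁻¹ := by rw [lt_inv_comm₀ three_pos (norm_pos_iff.2 e)]; linarith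
  linarith

lemma isOpen_dk (hK : UH \ U ⊆ closedBall ((0 : ℝ) : ℂ) 2) : IsOpen (Dk U) := by
  refine isOpen_iff_mem_nhds.2 fun ζ h => ?_
  by_cases e : ζ = 0
  · exact e ▸ mem_of_superset (ball_mem_nhds 0 (by norm_num)) (dk_small hK)
  · filter_upwards [(isOpen_lt continuous_norm continuous_const).mem_nhds h.1,
      (jk_diff e).continuousAt.preimage_mem_nhds ((isOpen_sym U).mem_nhds (h.2.resolve_left e))]
      with v h1 h2 using ⟨h1, Or.inr h2⟩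

lemma dk_low (hU : IsOpen U) (hs : U ⊆ UH) : jv '' U = Dk U ∩ LD := by
  refine Subset.antisymm ?_ fun ζ h => ⟨jk ζ, mem_of_sym (h.1.2.resolve_left (LD_ne h.2))
    (jk_bij.mapsTo h.2), jv_jk h.2⟩
  rintro _ ⟨z, hz, rfl⟩
  exact ⟨⟨(jv_mem (hs hz)).1, Or.inr (by rw [jk_jv (hs hz)]; exact sub_mir hU hs hz)⟩,
    jv_mem (hs hz)⟩

lemma preconn_dk (hU : IsOpen U) (hs : U ⊆ UH) (hK : UH \ U ⊆ closedBall ((0 : ℝ) : ℂ) 2)
    (hc : IsPreconnected U) : IsPreconnected (Dk U) := by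
  have h1 : IsPreconnected (Dk U ∩ {ζ | ζ.im ≤ 0}) := by
    refine (hc.image jv (jv_hol.continuousOn.mono hs)).subset_closure ?_ fun ζ h => ?_
    · rw [dk_low hU hs]; exact fun ζ h => ⟨h.1, le_of_lt h.2.2⟩
    · rw [dk_low hU hs]
      have : ζ ∈ closure {ζ : ℂ | ζ.im < 0} := by rw [closure_setOfPred_im_lt]; exact h.2
      exact closure_mono (fun v hv => by exact ⟨hv.1, hv.1.1, hv.2⟩)
        ((isOpen_dk hK).inter_closure ⟨h.1, this⟩)
  have h0 : (0 : ℂ) ∈ Dk U ∩ {ζ | ζ.im ≤ 0} := ⟨⟨by simp, Or.inl rfl⟩, by simp⟩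
  have := IsPreconnected.union 0 h0 (by exact ⟨0, h0, by simp⟩) h1
    (h1.image conj continuous_conj.continuousOn)
  convert this using 1
  refine Subset.antisymm (fun ζ h => (le_total ζ.im 0).imp (fun c => ⟨h, c⟩) fun c =>
    ⟨conj ζ, ⟨dk_conj h, by simpa using c⟩, conj_conj ζ⟩) (union_subset inter_subset_left ?_)
  rintro _ ⟨ζ, h, rfl⟩
  exact dk_conj h.1

lemma preconn_compl_dk (hU : IsOpen U) (hs : U ⊆ UH) (hK : UH \ U ⊆ closedBall ((0 : ℝ) : ℂ) 2)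
    (hc : IsPreconnected Uᶜ) : IsPreconnected (Dk U)ᶜ := by
  set C : Set ℂ := (closedBall 0 1 \ ball 0 (1 / 3)) ∩ {ζ | ζ.im ≤ 0} with hC
  have Cc : IsCompact C := ((isCompact_closedBall 0 1).diff isOpen_ball).inter_right
    (isClosed_le continuous_im continuous_const)
  have C0 : ∀ ζ ∈ C, ζ ≠ 0 := fun ζ h e => h.1.2 (by simp [e])
  have Ci : InjOn jk C := jk_inj.mono fun ζ h => by
    exact ⟨C0 ζ h, mem_closedBall_zero_iff.1 h.1.1, h.2⟩
  set π : ℂ → ℂ := fun z => (max (-2) (min z.re 2) : ℝ) + (max z.im 0 : ℝ) * I with hπ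
  have π1 : ∀ z ∈ UH \ U, π z = z := fun z hz => by
    have := abs_le.1 ((abs_re_le_norm z).trans (by simpa using hK hz))
    rw [hπ]; simp only []
    rw [min_eq_left this.2, max_eq_right this.1, max_eq_left (le_of_lt hz.1), re_add_im]
  have π2 : ∀ z ∈ Uᶜ, π z ∈ UH \ U ∨ ((π z).im = 0 ∧ ‖π z‖ ≤ 2) := fun z hz => by
    rcases lt_or_ge 0 z.im with c | c
    · exact Or.inl (by rw [π1 z ⟨c, hz⟩]; exact ⟨c, hz⟩)
    · right
      rw [hπ]; simp only []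
      rw [max_eq_right c, ofReal_zero, zero_mul, add_zero, norm_real, Real.norm_eq_abs, abs_le]
      exact ⟨ofReal_im _, le_max_left _ _, max_le (by norm_num) (min_le_right _ _)⟩
  have π3 : π '' Uᶜ ⊆ jk '' C := by
    rintro _ ⟨z, hz, rfl⟩
    have h1 : 0 ≤ (π z).im ∧ ‖π z‖ ≤ 2 := (π2 z hz).elim
      (fun h => ⟨le_of_lt h.1, by simpa using hK h⟩) fun h => ⟨h.1.ge, h.2⟩
    obtain ⟨ζ, h0, h2, h3, e⟩ := jk_surj h1.1
    refine ⟨ζ, ⟨⟨mem_closedBall_zero_iff.2 h2, fun h => ?_⟩, h3⟩, e⟩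
    have := (jk_norm h2).1
    have h3 : 3 < ‖ζ‖⁻¹ := by
      rw [lt_inv_comm₀ three_pos (norm_pos_iff.2 h0)]; linarith [mem_ball_zero_iff.1 h]
    rw [e] at this; linarith [h1.2]
  set B := Function.invFunOn jk C '' (π '' Uᶜ) with hB
  have Bc : IsPreconnected B := (hc.image π (by fun_prop)).image _
    ((MP_d32f96_gt.E.cont_inv Cc (fun ζ h => (jk_diff (C0 ζ h)).continuousAt.continuousWithinAt)
      Ci).mono π3)
  have B1 : ∀ ζ ∈ C, jk ζ ∈ π '' Uᶜ → ζ ∈ B := fun ζ h1 h2 => ⟨_, h2, Ci.leftInvOn_invFunOn h1⟩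
  have B2 : B ⊆ (Dk U)ᶜ := by
    rintro _ ⟨w, hw, rfl⟩ h
    have h1 := Function.invFunOn_mem (π3 hw)
    have h2 := Function.invFunOn_eq (π3 hw)
    set ζ := Function.invFunOn jk C w
    obtain ⟨z, hz, rfl⟩ := hw
    rcases π2 z hz with c | c
    · exact (h.2.resolve_left (C0 ζ h1)).1 (subset_closure (h2 ▸ c))
    · have h3 := jk_im ζ
      rw [h2, c.1, eq_comm, mul_eq_zero] at h3
      have := jk_real (C0 ζ h1) h.1 (h3.resolve_right (jk_neg (C0 ζ h1) h.1).ne)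
      rw [h2] at this; linarith [c.2]
  have B3 : (1 : ℂ) ∈ B := B1 1 ⟨⟨by simp, by norm_num⟩, by simp⟩
    ⟨2, fun h => by simpa [mem_UH] using hs h, by simp [hπ, jk]; norm_num⟩
  have B4 : ∀ ζ ∈ (Dk U)ᶜ, ‖ζ‖ < 1 → ζ.im ≤ 0 → ζ ∈ B := fun ζ h h1 h2 => by
    have h0 : ζ ≠ 0 := fun e => h ⟨h1, Or.inl e⟩
    have h3 : ζ ∈ LD := ⟨h1, lt_of_le_of_ne h2 fun e => h (dk_far hK h1 fun e' => jk_real e' h1 e)⟩
    have h4 := jk_bij.mapsTo h3
    have h5 : jk ζ ∉ U := fun c => h ⟨h1, Or.inr (sub_mir hU hs c)⟩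
    exact B1 ζ ⟨⟨mem_closedBall_zero_iff.2 h1.le, fun c => h (dk_small hK c)⟩, h2⟩
      ⟨_, h5, π1 _ ⟨h4, h5⟩⟩
  have O := MP_d32f96_gt.preconn_out 1
  have := IsPreconnected.union (1 : ℂ) (by exact Or.inr B3) (by exact ⟨1, B3, by simp⟩)
    (IsPreconnected.union (1 : ℂ) (by simp) B3 O Bc) (Bc.image conj continuous_conj.continuousOn)
  convert this using 1
  refine Subset.antisymm (fun ζ h => ?_) (union_subset (union_subset
    (fun ζ h h' => h'.1.not_ge h) B2) ?_)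
  · rcases le_or_gt 1 ‖ζ‖ with c | c
    · exact Or.inl (Or.inl c)
    rcases le_total ζ.im 0 with c' | c'
    · exact Or.inl (Or.inr (B4 ζ h c c'))
    · exact Or.inr ⟨conj ζ, B4 _ (fun h' => h (conj_conj ζ ▸ dk_conj h')) (by rwa [norm_conj])
        (by simpa using c'), conj_conj ζ⟩
  · rintro _ ⟨ζ, h, rfl⟩ h'
    exact B2 h (conj_conj ζ ▸ dk_conj h')

lemma exists_hyd_aux (hU : IsOpen U) (hs : U ⊆ UH) (hK : UH \ U ⊆ closedBall ((0 : ℝ) : ℂ) 2)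
    (hc : IsPreconnected U) (hc' : IsPreconnected Uᶜ) : ∃ g a, Hyd U g a := by
  have V0 : (0 : ℂ) ∈ Dk U := ⟨by simp, Or.inl rfl⟩
  have Vo := isOpen_dk hK
  have Vn := Vo.mem_nhds V0
  obtain ⟨χ, l, hl, χd, χb, χ0, χ1, χs⟩ := sym_rmt Vo
    (isBounded_ball.subset fun ζ h => mem_ball_zero_iff.2 h.1) (preconn_dk hU hs hK hc)
    (preconn_compl_dk hU hs hK hc') V0 fun _ => dk_conj
  have hl' : (l : ℂ) ≠ 0 := ofReal_ne_zero.2 hl.ne'
  have r1 : ∀ ζ ∈ Dk U, (χ ζ).im = 0 ↔ ζ.im = 0 := fun ζ h => by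
    rw [← conj_eq_iff_im, ← conj_eq_iff_im, ← χs ζ h]
    exact χb.injOn.eq_iff (dk_conj h) h
  set u := dslope χ 0 with hu
  have ud : DifferentiableOn ℂ u (Dk U) := (differentiableOn_dslope Vn).2 χd
  have u0 : u 0 = l := by rw [hu, dslope_same, χ1]
  have u1 : ∀ ζ, χ ζ = ζ * u ζ := fun ζ => by
    simpa [χ0] using (sub_smul_dslope χ 0 ζ).symm
  have u2 : ∀ ζ, u ζ = l + ζ * dslope u 0 ζ := fun ζ => by
    have := sub_smul_dslope u 0 ζ
    rw [sub_zero, smul_eq_mul, u0] at this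
    rw [this]; ring
  have u3 : ∀ ζ ∈ Dk U, ζ ≠ 0 → u ζ ≠ 0 := fun ζ h h0 e =>
    h0 (χb.injOn h V0 (by rw [χ0, u1, e, mul_zero]))
  have jU : ∀ z ∈ U, jv z ∈ Dk U ∩ LD := fun z hz => dk_low hU hs ▸ mem_image_of_mem _ hz
  obtain ⟨R, hR⟩ : ∃ R : ℝ, ∀ z ∈ UH, R ≤ ‖z‖ → z ∈ U := ⟨3, fun z hz h => by_contra fun c => by
    have := hK ⟨hz, c⟩
    simp only [ofReal_zero, mem_closedBall_zero_iff] at this; linarith⟩
  have neg : ∀ ζ ∈ Dk U ∩ LD, (χ ζ).im < 0 := by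
    have h1 : ∀ᶠ y : ℝ in 𝓝[>] 0, (-(y * I) : ℂ) ∈ Dk U ∧ 0 < (u (-(y * I))).re := by
      have t : Tendsto (fun y : ℝ => (-(y * I) : ℂ)) (𝓝[>] 0) (𝓝 0) :=
        (Continuous.tendsto' (by fun_prop) _ _ (by simp)).mono_left nhdsWithin_le_nhds
      exact t.eventually (Eventually.and Vn ((continuous_re.continuousAt.comp
        (ud.differentiableAt Vn).continuousAt).eventually (lt_mem_nhds (by simpa [u0] using hl))))
    obtain ⟨y, ⟨h2, h3⟩, h4⟩ := (h1.and self_mem_nhdsWithin).exists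
    have h5 : (0 : ℝ) < y := h4
    intro ζ hζ
    by_contra c
    have H := (dk_low hU hs ▸ hc.image jv (jv_hol.continuousOn.mono hs)).intermediate_value
      (a := -(y * I)) ⟨h2, h2.1, by simpa using h5⟩ hζ (continuous_im.comp_continuousOn
        (χd.continuousOn.mono inter_subset_left))
    obtain ⟨v, hv, e⟩ := H (a := 0) ⟨by
          simp only [Function.comp, u1 (-(y * I))]
          simpa using mul_nonneg h5.le h3.le, not_lt.1 c⟩
    exact hv.2.2.ne ((r1 v hv.1).1 e)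
  have χL : BijOn χ (Dk U ∩ LD) LD := by
    refine ⟨fun ζ h => ⟨mem_ball_zero_iff.1 (χb.mapsTo h.1), neg ζ h⟩,
      χb.injOn.mono inter_subset_left, fun η hη => ?_⟩
    obtain ⟨ζ, h, rfl⟩ := χb.surjOn (mem_ball_zero_iff.2 hη.1)
    refine ⟨ζ, ⟨h, h.1, lt_of_le_of_ne (not_lt.1 fun c => ?_) fun c => hη.2.ne ((r1 ζ h).2 c)⟩, rfl⟩
    have := neg _ ⟨dk_conj h, (dk_conj h).1, by simpa using c⟩
    rw [χs ζ h, conj_im] at this
    linarith [hη.2]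
  set E : ℂ → ℂ := fun ζ => l * χ ζ - ζ - dslope u 0 ζ / u ζ with hE
  have E1 : ∀ ζ ∈ Dk U, ζ ≠ 0 → E ζ = l * jk (χ ζ) - jk ζ := fun ζ h h0 => by
    have := u3 ζ h h0
    have e : dslope u 0 ζ = (u ζ - l) / ζ := by rw [u2 ζ]; field_simp; ring
    simp only [hE, jk, u1 ζ, e]; field_simp; ring
  have Ed : DifferentiableAt ℂ E 0 := (((χd.differentiableAt Vn).const_mul _).sub
    differentiableAt_id).sub ((((differentiableOn_dslope Vn).2 ud).differentiableAt Vn).div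
      (ud.differentiableAt Vn) (by rwa [u0]))
  have tr : Tendsto (fun x : ℝ => (x : ℂ)) (𝓝[≠] 0) (𝓝[≠] 0) := tendsto_nhdsWithin_iff.2
    ⟨(continuous_ofReal.tendsto' 0 0 rfl).mono_left nhdsWithin_le_nhds,
      eventually_mem_nhdsWithin.mono fun x hx => ofReal_ne_zero.2 hx⟩
  have Er : ∀ᶠ x : ℝ in 𝓝[≠] 0, (E x).im = 0 := by
    filter_upwards [tr.eventually (nhdsWithin_le_nhds Vn), self_mem_nhdsWithin] with x h1 h2
    rw [E1 x h1 (ofReal_ne_zero.2 h2), sub_im, im_ofReal_mul, jk_im, jk_im,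
      (r1 x h1).2 (ofReal_im x)]
    simp
  have E0 : (E 0).im = 0 := tendsto_nhds_unique_of_eventuallyEq ((continuous_im.tendsto _).comp
    ((Ed.continuousAt.mono_left nhdsWithin_le_nhds).comp tr)) tendsto_const_nhds Er
  have Es := hasDerivAt_iff_tendsto_slope_zero.1 Ed.hasDerivAt
  simp only [zero_add, smul_eq_mul] at Es
  have E2 : (deriv E 0).im = 0 := tendsto_nhds_unique_of_eventuallyEq
    ((continuous_im.tendsto _).comp (Es.comp tr)) tendsto_const_nhds (Er.mono fun x hx => by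
      simp only [Function.comp, ← ofReal_inv, im_ofReal_mul, sub_im, hx, E0, sub_self, mul_zero])
  refine ⟨fun z => l * jk (χ (jv z)) - E 0, (deriv E 0).re, hU, isBounded_closedBall.subset hK, hs,
    DifferentiableOn.sub_const (DifferentiableOn.const_mul (fun z hz => ?_) _) _, ?_, ?_⟩
  · exact (jk_diff (LD_ne (χL.mapsTo (jU z hz)))).comp_differentiableWithinAt z
      ((χd.comp (jv_hol.mono hs) fun z hz => (jU z hz).1) z hz)
  · refine BijOn.comp (g := fun w => l * w - E 0) ⟨fun w hw => ?_, fun w _ v _ e => ?_,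
      fun w hw => ⟨(w + E 0) / l, ?_, ?_⟩⟩ (jk_bij.comp (χL.comp (f := jv) ⟨jU, fun z hz v hv e => ?_,
        fun ζ h => by rwa [dk_low hU hs]⟩))
    · simpa [mem_UH, E0] using mul_pos hl hw
    · exact mul_left_cancel₀ hl' (sub_left_injective e)
    · simpa [mem_UH, div_ofReal_im, E0] using div_pos hw hl
    · simp only []; field_simp; ring
    · rw [← jk_jv (hs hz), e, jk_jv (hs hv)]
  · have t1 : Tendsto (fun ζ => ζ * (E ζ - E 0)) (𝓝[≠] 0) (𝓝 (0 * (E 0 - E 0))) :=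
      (tendsto_id.mul (Ed.continuousAt.sub_const _)).mono_left nhdsWithin_le_nhds
    have := (t1.add Es).comp tendsto_jv
    rw [zero_mul, zero_add, ← re_add_im (deriv E 0), E2, ofReal_zero, zero_mul, add_zero] at this
    refine this.congr' (ev_iff.2 ⟨R, fun z hz h => ?_⟩)
    have h1 := jU z (hR z hz h)
    simp only [Function.comp]
    rw [← add_mul, ← jk, E1 _ h1.1 (LD_ne h1.2), jk_jv hz]; ring

end Lw

/-- existence of the normalised map -/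
theorem exists_hyd {U : Set ℂ} (hU : IsOpen U) (hs : U ⊆ UH) (hb : IsBounded (UH \ U))
    (hc : IsPreconnected U) (hc' : IsPreconnected Uᶜ) : ∃ g a, Hyd U g a := by
  obtain ⟨r, hr, hK⟩ := hb.subset_closedBall_lt 0 0
  have hr' : (r : ℂ) ≠ 0 := ofReal_ne_zero.2 hr.ne'
  have e : ∀ s : Set ℂ, (fun z : ℂ => r * z) ⁻¹' s = (fun z => (r : ℂ)⁻¹ * z) '' s := fun s =>
    (congrFun (image_eq_preimage_of_inverse (mul_inv_cancel_left₀ hr')
      (inv_mul_cancel_left₀ hr')) s).symm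
  obtain ⟨g, a, h⟩ := Lw.exists_hyd_aux (U := (fun z : ℂ => r * z) ⁻¹' U)
    (hU.preimage (by fun_prop)) (fun z hz => by simpa [Lw.mem_UH, hr] using hs hz)
    (fun z hz => by
      have := hK ⟨show (r * z : ℂ) ∈ UH by simpa [Lw.mem_UH, hr] using hz.1, hz.2⟩
      simp only [ofReal_zero, mem_closedBall_zero_iff, norm_mul, norm_real,
        Real.norm_of_nonneg hr.le] at this ⊢
      nlinarith) (e U ▸ hc.image _ (by fun_prop))
    (by rw [← preimage_compl, e]; exact hc'.image _ (by fun_prop))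
  have := h.affine 0 hr
  refine ⟨_, _, (show {z : ℂ | (z - (0 : ℝ)) / r ∈ (fun z : ℂ => r * z) ⁻¹' U} = U from ?_) ▸ this⟩
  ext z
  simp [mul_div_cancel₀ _ hr']

end

end Pool.Agent.Lib.MP_6359c9_pr
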