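import Pool.Agent.Lib.MP_6359c9_pr.LwC
import Pool.Agent.Lib.MP_6359c9_pr.LwD

/-! Simple curves: normalised maps, capacity and driving function. -/

namespace Pool.Agent.Lib.MP_6359c9_pr

open Set Filter Topology Bornology Metric Complex Pool.Agent.Lib.MP_1e9af3_an
open scoped NNReal

noncomputable section

/-- a simple curve in the half plane that starts on the real line -/
structure Smp (b : ℝ≥0 → ℂ) : Prop where
  cont : Continuous b
  inj : Function.Injective b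
  zero : (b 0).im = 0
  up : ∀ t, 0 < t → b t ∈ UH

/-- the half plane slit along `b [0, t]` -/
def Sl (b : ℝ≥0 → ℂ) (t : ℝ≥0) : Set ℂ := UH \ b '' Iic t

namespace Lw

lemma cpt_Iic (t : ℝ≥0) : IsCompact (Iic t) := by
  rw [← Icc_bot]; exact isCompact_Icc

/-- an arc does not separate the plane -/
lemma arc_cc {c : ℝ≥0 → ℂ} (hc : Continuous c) {s t : ℝ≥0} (hi : InjOn c (Icc s t)) {p q : ℂ}
    (hp : p ∉ c '' Icc s t) (hq : q ∉ c '' Icc s t) : q ∈ connectedComponentIn (c '' Icc s t)ᶜ p := by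
  refine (MP_d32f96_gt.sLogPair_of _ p q (isCompact_Icc.image hc) hp hq).1 ?_
  rcases lt_or_ge t s with h | h
  · rw [Icc_eq_empty_of_lt h, image_empty]
    exact ⟨0, continuousOn_empty _, fun _ h => h.elim⟩
  set k : ℝ → ℝ≥0 := fun x => max s (min x.toNNReal t) with hk
  have kc : Continuous k := continuous_const.max (continuous_real_toNNReal.min continuous_const)
  have km : ∀ x, k x ∈ Icc s t := fun x => ⟨le_max_left _ _, max_le h (min_le_right _ _)⟩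
  have ke : ∀ u ∈ Icc s t, k u = u := fun u hu => by
    simp only [hk, Real.toNNReal_coe, min_eq_left hu.2, max_eq_right hu.1]
  have hna : ∀ x, c (k x) - p ≠ 0 := fun x h => hp ⟨_, km x, sub_eq_zero.1 h⟩
  have hnb : ∀ x, c (k x) - q ≠ 0 := fun x h => hq ⟨_, km x, sub_eq_zero.1 h⟩
  obtain ⟨l, hl, he⟩ := exists_lift (U := (univ : Set ℝ)) convex_univ isOpen_univ univ_nonempty
    (g := fun x => (c (k x) - p) / (c (k x) - q))
    ((((hc.comp kc).sub continuous_const).div ((hc.comp kc).sub continuous_const) hnb).continuousOn)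
    (fun t _ => div_ne_zero (hna t) (hnb t))
  have h4 : ∀ u ∈ Icc s t, l (Function.invFunOn c (Icc s t) (c u) : ℝ≥0) = l u := fun u hu => by
    rw [hi.leftInvOn_invFunOn hu]
  refine ⟨fun z => l (Function.invFunOn c (Icc s t) z : ℝ≥0), MP_d32f96_gt.T2.continuousOn_image
    (l := fun u : ℝ≥0 => l u) isCompact_Icc hc.continuousOn
    ((continuousOn_univ.1 hl).comp NNReal.continuous_coe).continuousOn h4, ?_⟩
  rintro _ ⟨u, hu, rfl⟩
  refine (congrArg ee (h4 u hu)).trans ((he u trivial).trans ?_)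
  simp only [ke u hu]

/-- an arc that meets the complement of a bounded convex set in a connected set does not
separate the convex set -/
lemma arc_convex {c : ℝ≥0 → ℂ} (hc : Continuous c) {s t : ℝ≥0} (hi : InjOn c (Icc s t))
    {O : Set ℂ} (ho : IsOpen O) (hv : Convex ℝ O) (hb : IsBounded O)
    (hx : IsPreconnected (c '' Icc s t \ O)) : IsPreconnected (O \ c '' Icc s t) := by
  have hA := isCompact_Icc.image hc (s := Icc s t)
  obtain ⟨R, hR⟩ := (hb.union hA.isBounded).subset_ball 0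
  refine isPreconnected_of_forall_pair fun p hp q hq => ?_
  have hB : IsCompact (closedBall 0 R \ O) := (isCompact_closedBall 0 R).diff ho
  have key := MP_d32f96_gt.sJan_of _ _ p q hA hB (by
    convert hx using 1
    exact Subset.antisymm (fun z hz => ⟨hz.1, hz.2.2⟩)
      fun z hz => ⟨hz.1, ball_subset_closedBall (hR (Or.inr hz.1)), hz.2⟩) (arc_cc hc hi hp.2 hq.2)
    (hv.isPreconnected.subset_connectedComponentIn hp.1 
      (show O ⊆ (closedBall 0 R \ O)ᶜ from fun z hz h => h.2 hz) hq.1)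
  have hp' : p ∈ (c '' Icc s t ∪ closedBall 0 R \ O)ᶜ := fun h => h.elim hp.2 fun h => h.2 hp.1
  have hs := connectedComponentIn_subset (c '' Icc s t ∪ closedBall 0 R \ O)ᶜ p
  refine ⟨_, fun z hz => ⟨?_, fun h => hs hz (Or.inl h)⟩,
    mem_connectedComponentIn hp', key, isPreconnected_connectedComponentIn⟩
  refine isPreconnected_connectedComponentIn.subset_left_of_subset_union ho
    (isClosed_closedBall (x := 0) (ε := R)).isOpen_compl (disjoint_compl_right.mono_left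
      fun z hz => ball_subset_closedBall (hR (Or.inl hz))) (fun z hz => ?_)
    ⟨p, mem_connectedComponentIn hp', hp.1⟩ hz
  exact or_iff_not_imp_left.2 fun h1 h2 => hs hz (Or.inr ⟨h2, h1⟩)

lemma exists_delta {ε M : ℝ} (hε : 0 < ε) :
    ∃ δ, 0 < δ ∧ δ < 1 ∧ M < ε ^ 2 * Real.log (1 / δ) := by
  refine ⟨Real.exp (-(|M| / ε ^ 2 + 1)), Real.exp_pos _,
    Real.exp_lt_one_iff.2 (neg_neg_of_pos (by positivity)), ?_⟩
  rw [one_div, ← Real.exp_neg, neg_neg, Real.log_exp, mul_add, mul_div_cancel₀ _ (by positivity)]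
  linarith [le_abs_self M, sq_pos_of_pos hε]

end Lw

open Lw

variable {b : ℝ≥0 → ℂ} {s t u : ℝ≥0}

lemma Smp.im_nonneg (h : Smp b) (t : ℝ≥0) : 0 ≤ (b t).im :=
  (zero_le (a := t)).eq_or_lt.elim (fun e => e ▸ h.zero.ge) fun e => le_of_lt (h.up t e)

lemma Smp.cpt (h : Smp b) (t : ℝ≥0) : IsCompact (b '' Iic t) := (cpt_Iic t).image h.cont

lemma Sl_anti (b : ℝ≥0 → ℂ) (h : s ≤ t) : Sl b t ⊆ Sl b s :=
  sdiff_subset_sdiff_right (image_mono (Iic_subset_Iic.2 h))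

lemma Sl_hull : UH \ Sl b t ⊆ b '' Iic t := fun _ h => by_contra fun c => h.2 ⟨h.1, c⟩

lemma Smp.mem_sl (h : Smp b) (hu : t < u) : b u ∈ Sl b t :=
  ⟨h.up u ((zero_le (a := t)).trans_lt hu), fun ⟨_, hv, e⟩ => hu.not_ge (h.inj e ▸ hv)⟩

lemma Smp.sl_zero (h : Smp b) : Sl b 0 = UH := by
  refine sdiff_eq_left.2 (disjoint_right.2 ?_)
  rintro _ ⟨v, hv, rfl⟩ c
  rw [le_zero_iff.1 (mem_Iic.1 hv)] at c
  exact (mem_UH.1 c).ne' h.zero

lemma Smp.isOpen_sl (h : Smp b) (t : ℝ≥0) : IsOpen (Sl b t) := isOpen_UH.sdiff (h.cpt t).isClosed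

lemma Smp.preconn_sl (h : Smp b) (t : ℝ≥0) : IsPreconnected (Sl b t) := by
  refine isPreconnected_of_forall_pair fun p hp q hq => ?_
  obtain ⟨R, hR⟩ := (((h.cpt t).isBounded.insert p).insert q).subset_ball 0
  refine ⟨(UH ∩ ball 0 R) \ b '' Icc 0 t, fun z hz => ⟨hz.1.1, by simpa using hz.2⟩,
    ⟨⟨hp.1, hR (by simp)⟩, by simpa using hp.2⟩, ⟨⟨hq.1, hR (by simp)⟩, by simpa using hq.2⟩,
    arc_convex h.cont h.inj.injOn (isOpen_UH.inter isOpen_ball) (convex_UH.inter (convex_ball _ _))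
      (isBounded_ball.subset inter_subset_right) (Subsingleton.isPreconnected ?_)⟩
  refine subsingleton_of_forall_eq (b 0) ?_
  rintro _ ⟨⟨v, hv, rfl⟩, c⟩
  rcases (zero_le (a := v)).eq_or_lt with e | e
  · rw [← e]
  · exact absurd ⟨h.up v e, hR (Or.inr (Or.inr ⟨v, hv.2, rfl⟩))⟩ c

lemma Smp.exists_hyd (h : Smp b) (t : ℝ≥0) : ∃ g a, Hyd (Sl b t) g a := by
  refine _root_.Pool.Agent.Lib.MP_6359c9_pr.exists_hyd (h.isOpen_sl t) sdiff_subset
    ((h.cpt t).isBounded.subset Sl_hull) (h.preconn_sl t) ?_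
  rw [Sl, compl_sdiff]
  refine IsPreconnected.union (b 0) ⟨0, mem_Iic.2 zero_le, rfl⟩ (fun c => (mem_UH.1 c).ne' h.zero)
    (isPreconnected_Iic.image _ h.cont.continuousOn) ?_
  rw [show UHᶜ = {z : ℂ | z.im ≤ 0} by ext z; simp [mem_UH]]
  exact (convex_halfSpace_im_le 0).isPreconnected

open Classical in
/-- the normalised map of the slit half plane and its capacity -/
def gc (b : ℝ≥0 → ℂ) (t : ℝ≥0) : (ℂ → ℂ) × ℝ :=
  if h : ∃ q : (ℂ → ℂ) × ℝ, Hyd (Sl b t) q.1 q.2 then h.choose else (id, 0)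

/-- the normalised map of the slit half plane -/
def gm (b : ℝ≥0 → ℂ) (t : ℝ≥0) : ℂ → ℂ := (gc b t).1

/-- the half plane capacity of `b [0, t]` -/
def cap (b : ℝ≥0 → ℂ) (t : ℝ≥0) : ℝ := (gc b t).2

lemma Smp.hyd (h : Smp b) (t : ℝ≥0) : Hyd (Sl b t) (gm b t) (cap b t) := by
  obtain ⟨g, a, H⟩ := h.exists_hyd t
  have e : ∃ q : (ℂ → ℂ) × ℝ, Hyd (Sl b t) q.1 q.2 := ⟨(g, a), H⟩
  rw [gm, cap, gc, dif_pos e]
  exact e.choose_spec

lemma Smp.cap_zero (h : Smp b) : cap b 0 = 0 := ((h.hyd 0).uniq (h.sl_zero ▸ hyd_id)).1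

lemma Smp.gm_zero (h : Smp b) {z : ℂ} (hz : z ∈ UH) : gm b 0 z = z :=
  ((h.hyd 0).uniq (h.sl_zero ▸ hyd_id)).2 (h.sl_zero ▸ hz)

lemma Smp.quot (h : Smp b) (hs : s ≤ t) :
    Hyd (gm b s '' Sl b t) (gm b t ∘ (h.hyd s).inv) (cap b t - cap b s) :=
  (h.hyd s).quot (h.hyd t) (Sl_anti b hs)

lemma Smp.hull (h : Smp b) (hs : s ≤ t) :
    UH \ gm b s '' Sl b t = (fun u => gm b s (b u)) '' Ioc s t := by
  refine Subset.antisymm (fun w hw => ?_) ?_
  · have h1 := (h.hyd s).inv_mem hw.1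
    obtain ⟨u, hu, e⟩ : (h.hyd s).inv w ∈ b '' Iic t := by_contra fun c =>
      hw.2 ⟨_, ⟨h1.1, c⟩, (h.hyd s).map_inv hw.1⟩
    exact ⟨u, ⟨not_le.1 fun c => h1.2 ⟨u, c, e⟩, hu⟩, by simp only [e, (h.hyd s).map_inv hw.1]⟩
  · rintro _ ⟨u, hu, rfl⟩
    refine ⟨(h.hyd s).maps (h.mem_sl hu.1), fun ⟨z, hz, e⟩ => hz.2 ⟨u, hu.2, ?_⟩⟩
    exact ((h.hyd s).bij.injOn (Sl_anti b hs hz) (h.mem_sl hu.1) e).symm

lemma Smp.cap_strictMono (h : Smp b) : StrictMono (cap b) := fun s t hs =>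
  sub_pos.1 ((h.quot hs.le).pos fun e => by
    have : gm b s (b t) ∈ UH \ gm b s '' Sl b t := h.hull hs.le ▸ ⟨t, ⟨hs, le_rfl⟩, rfl⟩
    exact this.2 (e ▸ this.1))

lemma Smp.cont_gm (h : Smp b) (s : ℝ≥0) : ContinuousOn (fun u => gm b s (b u)) (Ioi s) :=
  (h.hyd s).hol.continuousOn.comp h.cont.continuousOn fun _ hu => h.mem_sl hu

/-- quantitative local growth -/
lemma Smp.grow_of (h : Smp b) {r δ ε : ℝ} (hr : ∀ u ≤ s, ‖b u‖ ≤ r) (hδ : 0 < δ) (h1 : δ < 1)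
    (hε : 0 < ε) (hA : 4 * (1 + 8 * r) ^ 2 < ε ^ 2 * Real.log (1 / δ))
    (hb : ∀ u ∈ Ioc s t, ‖b u - b s‖ ≤ δ) {u v : ℝ≥0} (hu : u ∈ Ioc s t) (hv : v ∈ Ioc s t) :
    ‖gm b s (b u) - gm b s (b v)‖ ≤ 16 * ε :=
  (h.hyd s).wolff (x := 0) (fun z hz => by
    obtain ⟨u, hu, rfl⟩ := Sl_hull hz
    simpa using hr u hu) ((norm_nonneg _).trans (hr 0 (zero_le (a := s)))) hδ h1 hε hA
    (isPreconnected_Ioc.image b h.cont.continuousOn) (by
      rintro _ ⟨u, hu, rfl⟩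
      exact ⟨h.mem_sl hu.1, mem_closedBall_iff_norm.2 (hb u hu)⟩) ⟨u, hu, rfl⟩ ⟨v, hv, rfl⟩

lemma Smp.grow (h : Smp b) (T : ℝ≥0) {ε : ℝ} (hε : 0 < ε) : ∃ η : ℝ≥0, 0 < η ∧ ∀ s ≤ T,
    ∀ u ∈ Ioc s (s + η), ∀ v ∈ Ioc s (s + η), ‖gm b s (b u) - gm b s (b v)‖ ≤ ε := by
  obtain ⟨r, hr⟩ := (h.cpt T).isBounded.exists_norm_le
  obtain ⟨δ, d0, d1, d2⟩ := exists_delta (ε := ε / 16) (M := 4 * (1 + 8 * r) ^ 2) (by positivity)
  obtain ⟨η, η0, hη⟩ := Metric.uniformContinuousOn_iff_le.1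
    ((cpt_Iic (T + 1)).uniformContinuousOn_of_continuous h.cont.continuousOn) δ d0
  refine ⟨min ⟨η, η0.le⟩ 1, lt_min η0 one_pos, fun s hs u hu v hv => ?_⟩
  have := h.grow_of (fun u hu => hr _ ⟨u, hu.trans hs, rfl⟩) d0 d1 (by positivity) d2
    (fun u hu => by
      rw [← dist_eq_norm]
      refine hη u (hu.2.trans (add_le_add hs (min_le_right _ _))) s (hs.trans le_self_add) ?_
      have h1 : (u : ℝ) ≤ s + η := by exact_mod_cast hu.2.trans (add_le_add_right (min_le_left _ _) s)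
      have h2 : (s : ℝ) < u := hu.1
      rw [NNReal.dist_eq, abs_le]; constructor <;> linarith) hu hv
  linarith

/-- the driving function -/
def drv (b : ℝ≥0 → ℂ) (s : ℝ≥0) : ℝ := (limUnder (𝓝[>] s) fun u => gm b s (b u)).re

lemma Smp.tendsto_drv (h : Smp b) (s : ℝ≥0) :
    Tendsto (fun u => gm b s (b u)) (𝓝[>] s) (𝓝 (drv b s)) := by
  have h1 : ∃ y, Tendsto (fun u => gm b s (b u)) (𝓝[>] s) (𝓝 y) := by
    refine cauchy_map_iff_exists_tendsto.1 (Metric.cauchy_iff.2 ⟨inferInstance, fun ε hε => ?_⟩)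
    obtain ⟨η, η0, hη⟩ := h.grow s (half_pos hε)
    refine ⟨_, image_mem_map (Ioc_mem_nhdsGT (lt_add_of_pos_right s η0)), ?_⟩
    rintro _ ⟨u, hu, rfl⟩ _ ⟨v, hv, rfl⟩
    rw [dist_eq_norm]; linarith [hη s le_rfl u hu v hv]
  have h2 := tendsto_nhds_limUnder h1
  have h3 := tendsto_nhds_unique ((continuous_im.tendsto _).comp h2)
    (((h.hyd s).proper (p := b s) fun c => c.2 ⟨s, mem_Iic.2 le_rfl, rfl⟩).comp (tendsto_nhdsWithin_iff.2
      ⟨h.cont.continuousAt.mono_left nhdsWithin_le_nhds,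
        eventually_mem_nhdsWithin.mono fun _ hu => h.mem_sl hu⟩))
  rwa [← re_add_im (limUnder _ _), h3, ofReal_zero, zero_mul, add_zero] at h2

lemma Smp.drv_zero (h : Smp b) : (drv b 0 : ℂ) = b 0 :=
  tendsto_nhds_unique_of_eventuallyEq (h.tendsto_drv 0)
    (h.cont.continuousAt.mono_left nhdsWithin_le_nhds)
    (eventually_mem_nhdsWithin.mono fun u hu => h.gm_zero (h.up u hu))

lemma Smp.near_of (h : Smp b) {ε : ℝ}
    (H : ∀ u ∈ Ioc s t, ∀ v ∈ Ioc s t, ‖gm b s (b u) - gm b s (b v)‖ ≤ ε) (hu : u ∈ Ioc s t) :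
    ‖gm b s (b u) - drv b s‖ ≤ ε :=
  le_of_tendsto ((h.tendsto_drv s).const_sub _).norm
    (mem_of_superset (Ioc_mem_nhdsGT (hu.1.trans_le hu.2)) fun v hv => H u hu v hv)

lemma Smp.near (h : Smp b) (T : ℝ≥0) {ε : ℝ} (hε : 0 < ε) : ∃ η : ℝ≥0, 0 < η ∧ ∀ s ≤ T,
    ∀ u ∈ Ioc s (s + η), ‖gm b s (b u) - drv b s‖ ≤ ε :=
  (h.grow T hε).imp fun _ H => ⟨H.1, fun s hs _ hu => h.near_of (H.2 s hs) hu⟩

section step

variable (h : Smp b) (hs : s ≤ t) {ε : ℝ} (hε : 0 ≤ ε)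
  (H : ∀ u ∈ Ioc s t, ‖gm b s (b u) - drv b s‖ ≤ ε)
include h hs H

lemma Smp.step_hull : UH \ gm b s '' Sl b t ⊆ closedBall (drv b s : ℂ) ε := by
  rw [h.hull hs]
  rintro _ ⟨u, hu, rfl⟩
  exact mem_closedBall_iff_norm.2 (H u hu)

include hε

lemma Smp.step_cap : cap b t - cap b s ≤ 2 * ε ^ 2 := (h.quot hs).cap_le (h.step_hull hs H) hε

lemma Smp.step_move {z : ℂ} (hz : z ∈ Sl b t) : ‖gm b t z - gm b s z‖ ≤ 8 * ε := by
  simpa only [Function.comp, (h.hyd s).inv_map (Sl_anti b hs hz)] using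
    (h.quot hs).move (h.step_hull hs H) hε ⟨z, hz, rfl⟩

lemma Smp.step_drv : |drv b t - drv b s| ≤ 9 * ε := by
  rcases hs.eq_or_lt with rfl | hs'
  · simpa using hε
  have h1 : Tendsto (fun u => gm b s (b u)) (𝓝[>] t) (𝓝 (gm b s (b t))) :=
    ((h.cont_gm s).continuousAt (Ioi_mem_nhds hs')).mono_left nhdsWithin_le_nhds
  have h2 := le_of_tendsto ((h.tendsto_drv t).sub h1).norm
    (eventually_mem_nhdsWithin.mono fun u hu => h.step_move hs hε H (h.mem_sl hu))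
  have h3 := norm_sub_le_norm_sub_add_norm_sub (drv b t : ℂ) (gm b s (b t)) (drv b s)
  rw [← ofReal_sub, norm_real, Real.norm_eq_abs] at h3
  linarith [H t ⟨hs', le_rfl⟩]

end step

lemma Lw.cont_of {X : Type*} [PseudoMetricSpace X] {F : ℝ≥0 → X} (T : ℝ≥0)
    (H : ∀ ε > 0, ∃ η : ℝ≥0, 0 < η ∧ ∀ s t, s ≤ t → t ≤ s + η → t ≤ T → dist (F t) (F s) ≤ ε) :
    ContinuousOn F (Iic T) := by
  refine Metric.continuousOn_iff.2 fun s hs ε hε => ?_
  obtain ⟨η, η0, hη⟩ := H (ε / 2) (half_pos hε)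
  refine ⟨η, η0, fun t ht hd => ?_⟩
  rw [NNReal.dist_eq, abs_lt] at hd
  rcases le_total s t with c | c
  · exact (hη s t c (by rw [← NNReal.coe_le_coe, NNReal.coe_add]; linarith) ht).trans_lt
      (half_lt_self hε)
  · rw [dist_comm]
    exact (hη t s c (by rw [← NNReal.coe_le_coe, NNReal.coe_add]; linarith) hs).trans_lt
      (half_lt_self hε)

lemma Lw.cont_all {X : Type*} [TopologicalSpace X] {F : ℝ≥0 → X}
    (H : ∀ T, ContinuousOn F (Iic T)) : Continuous F :=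
  continuous_iff_continuousAt.2 fun t => (H (t + 1)).continuousAt (Iic_mem_nhds (lt_add_one t))

lemma Smp.cont_drv (h : Smp b) : Continuous (drv b) :=
  cont_all fun T => cont_of T fun ε hε => (h.near T (ε := ε / 9) (by positivity)).imp fun _ H =>
    ⟨H.1, fun s t h1 h2 h3 => by
      have := h.step_drv h1 (by positivity) fun u hu => H.2 s (h1.trans h3) u ⟨hu.1, hu.2.trans h2⟩
      rw [Real.dist_eq]; linarith⟩

lemma Smp.cont_cap (h : Smp b) : Continuous (cap b) :=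
  cont_all fun T => cont_of T fun ε hε => (h.near T (ε := √(ε / 2)) (by positivity)).imp
    fun _ H => ⟨H.1, fun s t h1 h2 h3 => by
      have := h.step_cap h1 (by positivity) fun u hu => H.2 s (h1.trans h3) u ⟨hu.1, hu.2.trans h2⟩
      rw [Real.sq_sqrt (by positivity)] at this
      rw [Real.dist_eq, abs_of_nonneg (sub_nonneg.2 (h.cap_strictMono.monotone h1))]; linarith⟩

lemma Smp.height (h : Smp b) (hu : u ≤ t) : (b u).im ^ 2 ≤ 16 * cap b t := by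
  rcases (zero_le (a := u)).eq_or_lt with e | e
  · rw [← e, h.zero]; linarith [(h.hyd t).nonneg]
  · exact (h.hyd t).height (h.up u e) fun c => c.2 ⟨u, hu, rfl⟩

end

end Pool.Agent.Lib.MP_6359c9_pr
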