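import Pool.Agent.Lib.MP_6359c9_pr.LwE
import Pool.Agent.Lib.MP_6359c9_pr.GeC

/-! The theorem of Loewner for simple curves. -/

namespace Pool.Agent.Lib.MP_6359c9_pr

open Set Filter Topology Bornology Metric Complex Pool.Agent.Lib.MP_1e9af3_an Lw
open scoped NNReal ENNReal

noncomputable section

section ext

variable {U : Set ℂ} {g : ℂ → ℂ} {a : ℝ}

lemma Hyd.mem_of_ext (h : Hyd U g a) {z : ℂ} (hz : z ∈ Mir U) (h0 : 0 < (h.ext z).im) : z ∈ U := by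
  refine mem_of_sym hz (mem_UH.2 (not_le.1 fun c => ?_))
  have := (h.ext_im (sym_conj hz) (by simpa using c)).1
  rw [h.ext_conj hz, conj_im] at this
  linarith

lemma Hyd.ev_nhds (h : Hyd U g a) {z : ℂ} (hz : z ∈ Mir U) : ∀ᶠ v in 𝓝[UH] z, v ∈ U :=
  h.nhdsWithin_eq hz ▸ self_mem_nhdsWithin

lemma Hyd.ext_open (h : Hyd U g a) {z : ℂ} (hz : z ∈ Mir U) (h0 : 0 ≤ z.im) :
    𝓝 (h.ext z) ≤ map h.ext (𝓝 z) := by
  refine ((h.ext_hol.analyticAt
    ((isOpen_sym U).mem_nhds hz)).eventually_constant_or_nhds_le_map_nhds).resolve_left fun c => ?_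
  obtain ⟨v, ⟨h1, h2⟩, h3⟩ := mem_closure_iff_nhds.1 (h.closure_sym hz h0) _ c.eventually_nhds |>.imp
    fun v hv => And.intro (And.intro hv.1 hv.1.self_of_nhds) hv.2
  refine not_const_of_injOn h.op h.bij.injOn h3 ?_
  filter_upwards [h1, h.op.mem_nhds h3] with w h4 h5
  rw [← h.ext_eq h5, ← h.ext_eq h3, h4, h2]

/-- a boundary value reached along points that stay away from `z` differs from the value at `z` -/
lemma Hyd.ext_ne (h : Hyd U g a) {z p w : ℂ} (hz : z ∈ Mir U) (h0 : 0 ≤ z.im) (hp : z ≠ p)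
    {ι : Type*} {l : Filter ι} [l.NeBot] {c : ι → ℂ} (h1 : ∀ᶠ i in l, c i ∈ U)
    (h2 : Tendsto c l (𝓝 p)) (h3 : Tendsto (fun i => g (c i)) l (𝓝 w)) : h.ext z ≠ w := by
  rintro rfl
  obtain ⟨N, N', o1, o2, m1, m2, hd⟩ := t2_separation hp
  have := h3.eventually (h.ext_open hz h0 (image_mem_map (inter_mem (o1.mem_nhds m1)
    ((isOpen_sym U).mem_nhds hz))))
  obtain ⟨i, ⟨⟨v, hv, e⟩, h4⟩, h5⟩ := ((this.and h1).and (h2.eventually (o2.mem_nhds m2))).exists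
  have h6 := h.mem_of_ext hv.2 (e ▸ h.maps h4)
  rw [h.ext_eq h6] at e
  exact disjoint_left.1 hd hv.1 (h.bij.injOn h6 h4 e ▸ h5)

lemma Hyd.ext_inj (h : Hyd U g a) : InjOn h.ext (Mir U ∩ {z | 0 ≤ z.im}) := fun z hz p hp e =>
  by_contra fun c => by
    have := mem_closure_iff_nhdsWithin_neBot.1 (closure_UH hp.2)
    exact h.ext_ne hz.1 hz.2 c (h.ev_nhds hp.1) (tendsto_id.mono_left nhdsWithin_le_nhds)
      (h.tendsto_ext hp.1 hp.2) e

end ext

variable {b : ℝ≥0 → ℂ} {s t u T : ℝ≥0} {z : ℂ}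

/-- the normalised map extended to the real points -/
def ge (b : ℝ≥0 → ℂ) (t : ℝ≥0) : ℂ → ℂ := refl (extendFrom (Sl b t) (gm b t))

/-- points of the closed half plane that are not on `b [0, t]` -/
def Okp (b : ℝ≥0 → ℂ) (t : ℝ≥0) (z : ℂ) : Prop := 0 ≤ z.im ∧ z ∉ b '' Iic t

lemma Okp.mono (h : Okp b t z) (hs : s ≤ t) : Okp b s z :=
  ⟨h.1, fun c => h.2 (image_mono (Iic_subset_Iic.2 hs) c)⟩

lemma Okp.of_sl (h : z ∈ Sl b t) : Okp b t z := ⟨le_of_lt h.1, h.2⟩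

lemma Smp.ok_real (h : Smp b) {x : ℝ} (hx : (x : ℂ) ≠ b 0) (t : ℝ≥0) : Okp b t x :=
  ⟨(ofReal_im x).ge, fun ⟨u, _, e⟩ => (zero_le (a := u)).eq_or_lt.elim (fun c => hx (c ▸ e.symm))
    fun c => by simpa [e, mem_UH] using h.up u c⟩

lemma Smp.ge_def (h : Smp b) (t : ℝ≥0) : ge b t = (h.hyd t).ext := rfl

lemma Smp.ge_eq (h : Smp b) (hz : z ∈ Sl b t) : ge b t z = gm b t z := (h.hyd t).ext_eq hz

lemma Smp.ok_mir (h : Smp b) (hz : Okp b t z) : z ∈ Mir (Sl b t) := by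
  have h1 : z ∉ closure (UH \ Sl b t) := fun c =>
    hz.2 (closure_minimal Sl_hull (h.cpt t).isClosed c)
  refine ⟨h1, fun c => h1 ?_⟩
  have := im_closure c
  rw [conj_im] at this
  rwa [conj_eq_iff_im.2 (le_antisymm (by linarith) hz.1)] at c

lemma Smp.tendsto_ge (h : Smp b) (hz : Okp b t z) : Tendsto (gm b t) (𝓝[UH] z) (𝓝 (ge b t z)) :=
  (h.hyd t).tendsto_ext (h.ok_mir hz) hz.1

lemma Smp.ge_zero (h : Smp b) (hz : 0 ≤ z.im) : ge b 0 z = z := by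
  have := mem_closure_iff_nhdsWithin_neBot.1 (closure_UH hz)
  have hm : z ∈ Mir (Sl b 0) := by simp [h.sl_zero, Mir]
  exact tendsto_nhds_unique_of_eventuallyEq ((h.hyd 0).tendsto_ext hm hz)
    (tendsto_id.mono_left nhdsWithin_le_nhds) (eventually_mem_nhdsWithin.mono fun _ => h.gm_zero)

lemma Smp.ge_real (h : Smp b) {x : ℝ} (hx : (x : ℂ) ≠ b 0) (t : ℝ≥0) : (ge b t x).im = 0 :=
  (h.hyd t).ext_real (h.ok_mir (h.ok_real hx t)) (ofReal_im x)

lemma Smp.ge_ne (h : Smp b) (hz : Okp b s z) : ge b s z ≠ drv b s :=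
  (h.hyd s).ext_ne (h.ok_mir hz) hz.1 (p := b s) (fun c => hz.2 ⟨s, mem_Iic.2 le_rfl, c.symm⟩)
    (l := 𝓝[>] s) (eventually_mem_nhdsWithin.mono fun _ hu => h.mem_sl hu)
    (h.cont.continuousAt.mono_left nhdsWithin_le_nhds) (h.tendsto_drv s)

section step

variable (h : Smp b) (hs : s ≤ t) {ε : ℝ} (hε : 0 ≤ ε)
  (H : ∀ u ∈ Ioc s t, ‖gm b s (b u) - drv b s‖ ≤ ε) (hz : Okp b t z)
include h hs hε H hz

lemma Smp.step_move' : ‖ge b t z - ge b s z‖ ≤ 8 * ε := by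
  have := mem_closure_iff_nhdsWithin_neBot.1 (closure_UH hz.1)
  exact le_of_tendsto ((h.tendsto_ge hz).sub (h.tendsto_ge (hz.mono hs))).norm
    (((h.hyd t).ev_nhds (h.ok_mir hz)).mono fun v hv => h.step_move hs hε H hv)

lemma Smp.step_est {R : ℝ} (hR : ε < R) (h2 : 2 * R < ‖ge b s z - drv b s‖) :
    ‖(ge b s z - drv b s) * (ge b t z - ge b s z) - (cap b t - cap b s : ℝ)‖ ≤
      6 * (cap b t - cap b s) * R / ‖ge b s z - drv b s‖ := by
  have := mem_closure_iff_nhdsWithin_neBot.1 (closure_UH hz.1)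
  have t1 := h.tendsto_ge (hz.mono hs)
  have t2 := (t1.sub_const (drv b s : ℂ)).norm
  refine le_of_tendsto_of_tendsto (((t1.sub_const _).mul ((h.tendsto_ge hz).sub t1)).sub_const _).norm
    (tendsto_const_nhds.div t2 (by linarith)) ?_
  filter_upwards [(h.hyd t).ev_nhds (h.ok_mir hz), t2.eventually (lt_mem_nhds h2)] with v h3 h4
  have := ((h.quot hs).small (h.step_hull hs H) hR (hε.trans_lt hR)).2 _ h4.le
  rwa [(h.quot hs).ext_eq ⟨v, h3, rfl⟩, Function.comp, (h.hyd s).inv_map (Sl_anti b hs h3)] at this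

end step

lemma Smp.cont_ge (h : Smp b) (hz : Okp b T z) : ContinuousOn (fun s => ge b s z) (Iic T) :=
  cont_of T fun ε hε => (h.near T (ε := ε / 8) (by positivity)).imp fun _ H =>
    ⟨H.1, fun s t h1 h2 h3 => by
      have := h.step_move' h1 (by positivity)
        (fun u hu => H.2 s (h1.trans h3) u ⟨hu.1, hu.2.trans h2⟩) (hz.mono h3)
      rw [dist_eq_norm]; linarith⟩

/-- the curve is parametrised by half plane capacity -/
def Cap (b : ℝ≥0 → ℂ) : Prop := ∀ t : ℝ≥0, ∃ g, Hyd (Sl b t) g (2 * t)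

lemma Smp.cap_iff (h : Smp b) : Cap b ↔ ∀ t, cap b t = 2 * t :=
  forall_congr' fun t => ⟨fun ⟨_, H⟩ => ((h.hyd t).uniq H).1, fun e => ⟨_, e ▸ h.hyd t⟩⟩

/-- the equation of Loewner -/
theorem Smp.sol (h : Smp b) (hc : Cap b) (hz : Okp b T z) :
    Ge.Sol 2 (Ge.rl (drv b)) T fun s => ge b s.toNNReal z := by
  have hc := h.cap_iff.1 hc
  set d : ℝ≥0 → ℂ := fun s => ge b s z - drv b s with hd
  have d0 : ∀ s ≤ T, d s ≠ 0 := fun s hs => sub_ne_zero.2 (h.ge_ne (hz.mono hs))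
  have dc : ContinuousOn d (Iic T) :=
    (h.cont_ge hz).sub (continuous_ofReal.comp h.cont_drv).continuousOn
  obtain ⟨s₀, hs₀, hm⟩ := (cpt_Iic T).exists_isMinOn nonempty_Iic dc.norm
  have m0 := norm_pos_iff.2 (d0 s₀ hs₀)
  set m := ‖d s₀‖
  have key : ∀ c > 0, ∃ η : ℝ≥0, 0 < η ∧ ∀ s t, s ≤ t → t ≤ s + η → t ≤ T →
      ‖ge b t z - ge b s z - ((t : ℝ) - s) • (2 / d s)‖ ≤ c * (t - s) := fun c c0 => by
    obtain ⟨η, η0, H⟩ := h.near T (ε := min (m / 5) (c * m ^ 2 / 24)) (by positivity)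
    refine ⟨η, η0, fun s t h1 h2 h3 => ?_⟩
    have h4 : m ≤ ‖d s‖ := hm (h1.trans h3)
    have h5 := min_le_left (m / 5) (c * m ^ 2 / 24)
    have h6 := min_le_right (m / 5) (c * m ^ 2 / 24)
    have h0 : 0 < min (m / 5) (c * m ^ 2 / 24) := by positivity
    have := h.step_est h1 h0.le (fun u hu => H s (h1.trans h3) u ⟨hu.1, hu.2.trans h2⟩)
      (hz.mono h3) (R := 2 * min (m / 5) (c * m ^ 2 / 24)) (by linarith) (by linarith)
    have h7 := d0 s (h1.trans h3)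
    have h8 : (0 : ℝ) ≤ t - s := sub_nonneg.2 h1
    rw [hc, hc, le_div_iff₀ (m0.trans_le h4), show (ge b s z - drv b s) * (ge b t z - ge b s z) -
      (2 * t - 2 * s : ℝ) = d s * (ge b t z - ge b s z - ((t : ℝ) - s) • (2 / d s)) by
        rw [real_smul]; push_cast; field_simp; ring, norm_mul] at this
    set X := ‖ge b t z - ge b s z - ((t : ℝ) - s) • (2 / d s)‖
    have h9 : m * m * X ≤ ‖d s‖ * X * ‖d s‖ := by
      rw [mul_right_comm _ X]; gcongr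
    refine le_of_mul_le_mul_left ?_ (mul_pos m0 m0)
    nlinarith [mul_le_mul_of_nonneg_left h6 h8]
  intro s hs
  lift s to ℝ≥0 using hs.1
  have hs' : s ≤ T := by exact_mod_cast hs.2
  simp only [Ge.rl, Real.toNNReal_coe]
  refine ⟨h.ge_ne (hz.mono hs'), hasDerivWithinAt_iff_isLittleO.2
    (Asymptotics.isLittleO_iff.2 fun c c0 => ?_)⟩
  obtain ⟨η, η0, H⟩ := key (c / 2) (half_pos c0)
  have t1 : Tendsto (fun x : ℝ => 2 / d x.toNNReal) (𝓝[Icc 0 T] s) (𝓝 (2 / d s)) :=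
    tendsto_const_nhds.div ((dc s hs').tendsto.comp (tendsto_nhdsWithin_iff.2
      ⟨(continuous_real_toNNReal.tendsto' _ _ Real.toNNReal_coe).mono_left nhdsWithin_le_nhds,
        eventually_mem_nhdsWithin.mono fun x hx => Real.toNNReal_le_iff_le_coe.2 hx.2⟩)) (d0 s hs')
  filter_upwards [self_mem_nhdsWithin, nhdsWithin_le_nhds (ball_mem_nhds (s : ℝ) (NNReal.coe_pos.2 η0)),
    Metric.tendsto_nhds.1 t1 _ (half_pos c0)] with x h1 h2 h3
  lift x to ℝ≥0 using h1.1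
  have hx : x ≤ T := by exact_mod_cast h1.2
  rw [mem_ball, Real.dist_eq, abs_lt] at h2
  rw [Real.toNNReal_coe, dist_eq_norm] at h3
  simp only [Real.toNNReal_coe, ofReal_ofNat, Real.norm_eq_abs]
  rcases le_total s x with e | e
  · have h4 : (0 : ℝ) ≤ x - s := sub_nonneg.2 e
    refine (H s x e (by rw [← NNReal.coe_le_coe, NNReal.coe_add]; linarith) hx).trans ?_
    rw [abs_of_nonneg h4]; nlinarith
  · have h4 : (0 : ℝ) ≤ s - x := sub_nonneg.2 e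
    have h5 := H x s e (by rw [← NNReal.coe_le_coe, NNReal.coe_add]; linarith) hs'
    rw [show ge b x z - ge b s z - ((x : ℝ) - s) • (2 / (ge b s z - drv b s)) =
      -(ge b s z - ge b x z - ((s : ℝ) - x) • (2 / d x)) - ((s : ℝ) - x) • (2 / d x - 2 / d s) by
        simp only [hd, real_smul]; push_cast; ring, abs_sub_comm, abs_of_nonneg h4]
    refine (norm_sub_le _ _).trans ?_
    rw [norm_neg, norm_smul, Real.norm_of_nonneg h4]
    nlinarith

/-- the points that are alive are those off the curve -/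
theorem Smp.mem_AA (h : Smp b) (hc : Cap b) (hz : 0 ≤ z.im) :
    z ∈ Ge.AA 2 (Ge.rl (drv b)) t ↔ z ∉ b '' Iic t := by
  refine ⟨?_, fun H => ⟨_, by simp [h.ge_zero hz], h.sol hc ⟨hz, H⟩⟩⟩
  rintro ⟨y, y0, hy⟩ ⟨u, hu, rfl⟩
  have hV := Ge.rl_cont h.cont_drv
  rcases (zero_le (a := u)).eq_or_lt with rfl | u0
  · exact (hy 0 ⟨le_rfl, t.2⟩).1 (by simp [y0, Ge.rl, h.drv_zero])
  obtain ⟨ε, ε0, hε⟩ := hy.away hV
  obtain ⟨η, η0, H⟩ := h.near t (half_pos ε0)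
  obtain ⟨s, h1, h2⟩ : ∃ s, s < u ∧ u ≤ s + η := ⟨u - η, tsub_lt_self u0 η0, le_tsub_add⟩
  have h3 : (s : ℝ) ≤ t := by exact_mod_cast h1.le.trans hu
  have h4 := (hy.mono h3).uniq hV (h.sol hc (Okp.of_sl (h.mem_sl h1)))
    (by simp [y0, h.ge_zero hz]) ⟨s.2, le_rfl⟩
  have h5 := hε s ⟨s.2, h3⟩
  simp only [NNReal.val_eq_coe, Real.toNNReal_coe, h.ge_eq (h.mem_sl h1)] at h4
  simp only [h4, Ge.rl, Real.toNNReal_coe] at h5
  linarith [H s h3 u ⟨h1, h2⟩]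

theorem Smp.alive (h : Smp b) (hc : Cap b) (hz : 0 ≤ z.im) :
    Alive (drv b) t z ↔ z ∉ b '' Iic t := (Ge.alive_iff _ _ _).trans (h.mem_AA hc hz)

lemma Smp.fl_eq (h : Smp b) (hc : Cap b) (hz : Okp b t z) :
    Ge.fl 2 (Ge.rl (drv b)) t z = ge b t z := by
  simpa [h.ge_zero hz.1] using (h.sol hc hz).fl_eq (Ge.rl_cont h.cont_drv) t.2

lemma off_eq {γ : Crv} (e : ∀ t : ℝ≥0, γ t = b t) (t : ℝ≥0) : Off γ t = Sl b t := by
  ext z
  refine and_congr_right fun _ => ⟨fun H ⟨u, hu, c⟩ => H u (ENNReal.coe_le_coe.2 hu)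
    (c ▸ e u), fun H u hu c => ?_⟩
  lift u to ℝ≥0 using ne_top_of_le_ne_top ENNReal.coe_ne_top hu
  exact H ⟨u, ENNReal.coe_le_coe.1 hu, OnePoint.coe_injective ((e u).symm.trans c)⟩

/-- a simple curve parametrised by capacity generates the chain of its driving function -/
theorem Smp.gen (h : Smp b) (hc : Cap b) {γ : Crv} (e : ∀ t : ℝ≥0, γ t = b t) : Gen γ (drv b) :=
  Ge.gen_of_eq h.cont_drv fun t z hz => by
    rw [off_eq e, h.alive hc hz.le]; exact (and_iff_right hz).symm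

/-- the radius of the curve -/
theorem Smp.rad (h : Smp b) (hc : Cap b) {M : ℝ} (hM : ∀ s ≤ t, |drv b s| ≤ M) (hu : u ≤ t) :
    ‖b u‖ ≤ M + 3 * √t := by
  refine le_of_forall_pos_le_add fun ε hε => not_lt.1 fun c => ?_
  have h1 := Real.sq_sqrt t.2
  have h2 := Real.sqrt_nonneg t
  obtain ⟨g, e, H, -⟩ := Ge.far_sol (σ := 2) (Ge.rl_cont h.cont_drv) t.2
    (a := (3 * √t + ε) / 2) (by positivity) (by rw [abs_two]; simp only [NNReal.val_eq_coe] at *; nlinarith)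
    (fun s hs => hM _ (Real.toNNReal_le_iff_le_coe.2 hs.2)) (z := b u) (by linarith)
  exact (h.mem_AA hc (h.im_nonneg u)).1 ⟨g, e, H⟩ ⟨u, hu, rfl⟩

theorem Smp.move (h : Smp b) (hc : Cap b) {M : ℝ} (hM : ∀ s ≤ t, |drv b s| ≤ M) (hz : Okp b t z) :
    ‖ge b t z - z‖ ≤ 8 * (M + 3 * √t) :=
  (h.hyd t).ext_move (x := 0) (fun v hv => by
    obtain ⟨u, hu, rfl⟩ := Sl_hull hv
    simpa using h.rad hc hM hu) (add_nonneg ((abs_nonneg _).trans (hM 0 zero_le)) (by positivity))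
    (h.ok_mir hz) hz.1

/-- the driving function is bounded by the radius -/
theorem Smp.drv_le (h : Smp b) {x r : ℝ} (hr : ∀ u ≤ t, ‖b u - x‖ ≤ r) : |drv b t - x| ≤ 9 * r := by
  have h1 := le_of_tendsto ((h.tendsto_drv t).sub
    (h.cont.continuousAt.mono_left nhdsWithin_le_nhds)).norm
    (eventually_mem_nhdsWithin.mono fun u hu => (h.hyd t).move (x := x) (fun v hv => by
      obtain ⟨u, hu, rfl⟩ := Sl_hull hv
      exact mem_closedBall_iff_norm.2 (hr u hu)) ((norm_nonneg _).trans (hr 0 zero_le))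
      (h.mem_sl hu))
  have h2 := norm_sub_le_norm_sub_add_norm_sub (drv b t : ℂ) (b t) x
  rw [← ofReal_sub, norm_real, Real.norm_eq_abs] at h2
  linarith [hr t le_rfl]

end

end Pool.Agent.Lib.MP_6359c9_pr
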