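import Pool.Agent.Lib.MP_6359c9_pr.MdGrid

/-! The curve does not come close to the real line away from the origin. -/

namespace Pool.Agent.Lib.MP_6359c9_pr.Mdc

open Set Filter Topology Metric Complex Bm Bes
open scoped NNReal

lemma lim2 {E : Set ℂ} {g : ℂ → ℂ} {p q a b : ℂ} {c : ℝ} (hp : p ∈ closure E) (hq : q ∈ closure E)
    (ha : Tendsto g (𝓝[E] p) (𝓝 a)) (hb : Tendsto g (𝓝[E] q) (𝓝 b))
    (h : ∀ u ∈ E, ∀ v ∈ E, ‖g u - g v‖ ≤ c) : ‖a - b‖ ≤ c := by
  have := mem_closure_iff_nhdsWithin_neBot.1 hp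
  have := mem_closure_iff_nhdsWithin_neBot.1 hq
  exact le_of_tendsto (hb.const_sub a).norm (eventually_mem_nhdsWithin.mono fun v hv =>
    le_of_tendsto (ha.sub_const _).norm (eventually_mem_nhdsWithin.mono fun u hu => h u hu v hv))

/-- real points flow along the real equation -/
lemma rs_ge {p : ℝ≥0 → ℂ} (h : Smp p) (hc : Cap p) {x : ℝ} (hx : (x : ℂ) ≠ p 0) (T : ℝ≥0) :
    Rs (Ge.rl (drv p)) 0 T fun v => (ge p v.toNNReal x).re := fun v hv => by
  obtain ⟨h1, h2⟩ := h.sol hc (h.ok_real hx T) v hv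
  have e : ge p v.toNNReal x = (ge p v.toNNReal x).re :=
    Complex.ext (by simp) (by simp [h.ge_real hx])
  refine ⟨fun c => h1 (e.trans (congrArg _ c)), ?_⟩
  refine (reCLM.hasFDerivAt.comp_hasDerivWithinAt v h2).congr_deriv ?_
  beta_reduce
  rw [e, ← ofReal_sub, ← ofReal_div, reCLM_apply, ofReal_re, ofReal_re]

/-- a low point of the curve pinches the real point below it -/
lemma avo (L : ℝ) (T : ℝ≥0) {ρ : ℝ} (hρ : 0 < ρ) : ∃ η > (0 : ℝ), ∀ p : ℝ≥0 → ℂ, Smp p → Cap p →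
    (∀ v ≤ T, |drv p v| ≤ L) → ∀ u ≤ T, (p u).im ≤ η → (p u).re ≠ (p 0).re →
    ∃ t ≤ u, |(ge p t (p u).re).re - drv p t| ≤ ρ := by
  obtain ⟨δ, d0, d1, d2⟩ := Lw.exists_delta (ε := ρ / 16) (M := 4 * (1 + 8 * (L + 3 * √T)) ^ 2)
    (by positivity)
  refine ⟨δ, d0, fun p h hc hL u hu h1 h2 => ?_⟩
  obtain ⟨x, hx⟩ : ∃ x, x = (p u).re := ⟨_, rfl⟩
  rw [← hx] at h2 ⊢
  obtain ⟨t, ⟨t1, t2, t3⟩, hm⟩ := ((Lw.cpt_Iic u).inter_right (t := {v | (p v).re = x ∧ (p v).im ≤ δ})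
    ((isClosed_eq (continuous_re.comp h.cont) continuous_const).inter
      (isClosed_le (continuous_im.comp h.cont) continuous_const))).exists_isLeast
    ⟨u, mem_Iic.2 le_rfl, hx.symm, h1⟩
  have y0 : 0 < (p t).im := h.up t (pos_iff_ne_zero.2 fun c => h2 (t2.symm.trans (c ▸ rfl)))
  have hE : openSegment ℝ (x : ℂ) (p t) ⊆ Sl p t ∩ closedBall (x : ℂ) δ := by
    rintro z ⟨a, b, a0, b0, ab, rfl⟩
    have e1 : (a • (x : ℂ) + b • p t).re = x := by simp [t2, ← add_mul, ab]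
    have e2 : (a • (x : ℂ) + b • p t).im = b * (p t).im := by simp
    have e3 : b * (p t).im < (p t).im := by nlinarith
    have e4 := mul_pos b0 y0
    refine ⟨⟨e4.trans_eq e2.symm, fun ⟨v, hv, e⟩ => ?_⟩, mem_closedBall_iff_norm.2
      ((norm_le_abs_re_add_abs_im _).trans ?_)⟩
    · have : v = t := le_antisymm hv (hm ⟨mem_Iic.2 (hv.trans t1), e ▸ e1, by rw [e, e2]; linarith⟩)
      rw [← e, this] at e2; linarith
    · rw [sub_re, sub_im, e1, e2, ofReal_re, ofReal_im, sub_self, sub_zero, abs_zero,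
        abs_of_pos e4]
      linarith
  have L0 : 0 ≤ L := (abs_nonneg _).trans (hL 0 zero_le)
  have := lim2 (segment_subset_closure_openSegment (left_mem_segment ℝ _ _))
    (segment_subset_closure_openSegment (right_mem_segment ℝ _ _))
    ((h.tendsto_ge (h.ok_real (fun c => h2 (by rw [← c, ofReal_re])) t)).mono_left
      (nhdsWithin_mono _ fun z hz => (hE hz).1.1))
    ((h.tip t).mono_left (nhdsWithin_mono _ fun z hz => (hE hz).1))
    fun _ hz _ hz' => (h.hyd t).wolff (x := 0) (r := L + 3 * √T) (fun z hz => by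
      obtain ⟨v, hv, rfl⟩ := Sl_hull hz
      simpa using h.rad hc hL (hv.trans (t1.trans hu))) (by positivity) d0 d1 (by positivity) d2
      (convex_openSegment _ _).isPreconnected hE hz hz'
  refine ⟨t, t1, ?_⟩
  have h3 := abs_re_le_norm (ge p t x - drv p t)
  rw [sub_re, ofReal_re] at h3
  linarith

theorem avoSt : AvoSt := by
  intro A h T a ε ha hε
  obtain ⟨L, L0, H1⟩ := supOut h (T := T + 1) (by positivity) (half_pos hε)
  obtain ⟨ρ, ρ0, e0, e00, H2⟩ := stay (L := L + 1) (T := T + 1) (γ := ε / 4) ha le_rfl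
    (by positivity) (by positivity) (by positivity)
  obtain ⟨η, η0, H3⟩ := avo L T ρ0
  refine ⟨η, η0, ?_⟩
  filter_upwards [H1, h.2 (L + 1) (T + 1) e0 (by positivity) (by positivity) e00] with n h1 ⟨B⟩
  obtain ⟨fin, ne⟩ := h.1 n
  have hW : ∀ g ∈ A.S n, Continuous (A.W n g) := fun g hg => Ge.rl_cont (A.trc n g hg).smp.cont_drv
  have k1 := (H2 _ _ _ _ B fin ne le_rfl hW _ (st_zero B) (fun _ => a) (fun _ _ _ => rfl)
    fun _ _ => ⟨le_rfl, le_rfl⟩).1
  have k2 := (H2 _ _ _ _ (neg B fin) fin ne le_rfl (fun g hg => (hW g hg).neg) _ (st_zero _)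
    (fun _ => a) (fun _ _ _ => rfl) fun _ _ => ⟨le_rfl, le_rfl⟩).1
  refine le_trans (le_trans (Ge.pr_mono fin ?_) (pr_un fin h1 (pr_un fin k1 k2))) (by linarith)
  rintro g hg ⟨u, hu, u1, u2⟩
  have P := A.trc n g hg
  by_contra hc
  obtain ⟨n1, n2, n3⟩ : _ ∧ _ ∧ _ := by simpa only [mem_union, not_or] using hc
  have hb : ∀ u ∈ Icc (0 : ℝ) (T + 1), |A.W n g u| ≤ L := fun u hu =>
    not_lt.1 fun c => n1 ⟨u, hu, c⟩
  have hb' : ∀ u ∈ Icc (0 : ℝ) (T + 1), |A.W n g u| < L + 1 := fun u hu =>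
    (hb u hu).trans_lt (lt_add_one L)
  have x0 : (A.p n g u).re ≠ 0 := abs_pos.1 (ha.trans_le u1)
  obtain ⟨t, ht, H⟩ := H3 _ P.smp P.cap (fun v hv => by
    simpa [Sett.W, Ge.rl] using hb v ⟨v.2, by linarith [NNReal.coe_le_coe.2 hv]⟩) u hu u2
    (by rwa [P.zero])
  have R := rs_ge P.smp P.cap (x := (A.p n g u).re) (by rw [P.zero]; exact ofReal_ne_zero.2 x0) t
  have tT : (t : ℝ) ≤ T + 1 := by linarith [NNReal.coe_le_coe.2 (ht.trans hu)]
  have z := P.smp.ge_zero (z := (A.p n g u).re) (by simp)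
  rcases le_abs.1 u1 with c | c
  · have S : Stay (A.W n g) ρ 0 (T + 1) a := by
      simpa [B.t0 g hg, B.w_zero hg] using not_not.1 fun c => n2 ⟨hb', c⟩
    have := R.stay (hW g hg) ρ0 S (by simpa [z] using c) t.2 tT
    simp only [Ge.rl, Real.toNNReal_coe] at this
    linarith [(abs_le.1 H).2]
  · have S : Stay (fun v => -A.W n g v) ρ 0 (T + 1) a := by
      simpa [neg, AM.w, B.t0 g hg, B.w0 g hg] using
        not_not.1 fun c => n3 ⟨by simpa using hb', c⟩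
    have := R.neg.stay (hW g hg).neg ρ0 S (by simpa [z] using c) t.2 tT
    simp only [Ge.rl, Real.toNNReal_coe] at this
    linarith [(abs_le.1 H).1]

end Pool.Agent.Lib.MP_6359c9_pr.Mdc
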