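import Pool.Agent.Lib.MP_6359c9_pr.MdMain
import Pool.Agent.Lib.MP_6359c9_pr.Bm3

/-! Both sides of the recent past are visible. -/

namespace Pool.Agent.Lib.MP_6359c9_pr.Mdc

open Set Filter Topology Bm Bes

/-- solutions of the Loewner equation on the real line -/
def Rs (w : ℝ → ℝ) (u s : ℝ) (G : ℝ → ℝ) : Prop :=
  ∀ v ∈ Icc u s, G v ≠ w v ∧ HasDerivWithinAt G (2 / (G v - w v)) (Icc u s) v

variable {w G G' : ℝ → ℝ} {u s a b ρ : ℝ}

lemma Rs.mono (h : Rs w u s G) (ha : u ≤ a) (hb : b ≤ s) : Rs w a b G := fun v hv =>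
  (h v ⟨ha.trans hv.1, hv.2.trans hb⟩).imp_right (·.mono (Icc_subset_Icc ha hb))

lemma Rs.cont (h : Rs w u s G) : ContinuousOn G (Icc u s) := fun v hv =>
  (h v hv).2.continuousWithinAt

lemma Rs.neg (h : Rs w u s G) : Rs (fun v => -w v) u s fun v => -G v := fun v hv =>
  ⟨fun e => (h v hv).1 (neg_injective e), by
    rw [show 2 / (-G v - -w v) = -(2 / (G v - w v)) by rw [← div_neg]; congr 1; ring]
    exact (h v hv).2.neg⟩

lemma Rs.gt (h : Rs w u s G) (hw : Continuous w) (h0 : w u < G u) {v : ℝ} (hv : v ∈ Icc u s) :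
    w v < G v := not_le.1 fun c => by
  obtain ⟨x, hx, e⟩ := intermediate_value_Icc' hv.1 (f := fun v => G v - w v)
    ((h.mono le_rfl hv.2).cont.sub hw.continuousOn) ⟨sub_nonpos.2 c, (sub_pos.2 h0).le⟩
  exact (h x ⟨hx.1, hx.2.trans hv.2⟩).1 (sub_eq_zero.1 e)

lemma Rs.le (h : Rs w u s G) (hw : Continuous w) (h0 : w u < G u) (hs : u ≤ s) : G u ≤ G s :=
  monotoneOn_of_hasDerivWithinAt_nonneg (convex_Icc u s) h.cont
    (fun v hv => (h v (interior_subset hv)).2.mono interior_subset)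
    (fun _ hv => (div_pos two_pos (sub_pos.2 (h.gt hw h0 (interior_subset hv)))).le)
    ⟨le_rfl, hs⟩ ⟨hs, le_rfl⟩ hs

lemma Rs.cmp (h : Rs w u s G) (h' : Rs w u s G') (hw : Continuous w) (h0 : w u < G u)
    (h1 : G u ≤ G' u) (hs : u ≤ s) : G s ≤ G' s := not_lt.1 fun c => by
  obtain ⟨x, hx, e⟩ := intermediate_value_Icc' hs (f := fun v => G' v - G v)
    (h'.cont.sub h.cont) ⟨sub_nonpos.2 c.le, sub_nonneg.2 h1⟩
  exact c.ne' (sol_unique hw.continuousOn (sub_eq_zero.1 e).symm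
    (fun v hv => ⟨h.gt hw h0 ⟨hx.1.trans hv.1, hv.2⟩, ((h.mono hx.1 le_rfl) v hv).2⟩)
    (fun v hv => ⟨h'.gt hw (h0.trans_le h1) ⟨hx.1.trans hv.1, hv.2⟩,
      ((h'.mono hx.1 le_rfl) v hv).2⟩) ⟨hx.2, le_rfl⟩)

/-- a solution above a solution that stays away -/
lemma Rs.stay {T x : ℝ} (h : Rs w u s G) (hw : Continuous w) (hρ : 0 < ρ) (hS : Stay w ρ u T x)
    (hx : x ≤ G u) (hs : u ≤ s) (hT : s ≤ T) : ρ < G s - w s := by
  obtain ⟨G', e, H⟩ := hS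
  have h' : Rs w u T G' := fun v hv => ⟨by linarith [(H v hv).1] |> ne_of_gt, (H v hv).2⟩
  linarith [(H s ⟨hs, hT⟩).1, (h'.mono le_rfl hT).cmp h hw
    (by linarith [(H u ⟨le_rfl, hs.trans hT⟩).1]) (e ▸ hx) hs]

/-- the right half of `Apart` -/
def ApR (w : ℝ → ℝ) (ρ u s : ℝ) : Prop := ∀ G, Rs w u s G → w u < G u → ρ ≤ G s - w s

lemma apart {ρ' : ℝ} (hs : u ≤ s) (h : ApR w ρ u s) (h' : ApR (fun v => -w v) ρ' u s) :
    Apart w (min ρ ρ') u s := fun G hG => by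
  rcases lt_or_gt_of_ne (hG u ⟨le_rfl, hs⟩).1 with c | c
  · have := h' _ (Rs.neg hG) (neg_lt_neg c)
    exact (min_le_right _ _).trans (le_abs.2 (Or.inr (by linarith)))
  · exact (min_le_left _ _).trans ((h G hG c).trans (le_abs_self _))

theorem one {θ L T γ : ℝ} (hθ : 0 < θ) (hL : 0 < L) (hT : 0 < T) (hγ : 0 < γ) :
    ∃ ρ > (0 : ℝ), ∃ e0 > (0 : ℝ), ∀ (α : Type) (S : Set α) (W : α → ℝ → ℝ) (e : ℝ)
      (A : AM S W L T e), S.Finite → S.Nonempty → e ≤ e0 → (∀ x ∈ S, Continuous (W x)) →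
      ∀ σ : α → ℕ, A.St σ → Ge.pr S {x | (∀ u ∈ Icc 0 T, |W x u| < L) ∧
        ∃ s ∈ Icc (A.t (σ x) x + θ) T, ¬ApR (W x) ρ (A.t (σ x) x) s} ≤ γ := by
  obtain ⟨a, ha⟩ : ∃ a, a = γ / 4 * √θ := ⟨_, rfl⟩
  have a0 : 0 < a := ha ▸ by positivity
  obtain ⟨e1, e10, H1⟩ := above a0 hθ hL hT (ε := γ / 4) (by positivity)
  obtain ⟨ρ, ρ0, e2, e20, H2⟩ := stay (half_pos a0) le_rfl hL hT (half_pos hγ)
  refine ⟨ρ, ρ0, min (min e1 e2) (a / 2), by positivity, fun α S W e A hS hne he hW σ hσ => ?_⟩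
  obtain ⟨he1, he3⟩ := le_min_iff.1 he
  obtain ⟨he1, he2⟩ := le_min_iff.1 he1
  obtain ⟨σ', hσ', hp⟩ := Bes.hit hσ (p := fun k x => A.w k x ≤ A.w (σ x) x - a / 2)
    fun k x x' hr hl hk hp => by
      rwa [st_eq hσ hr hk, ad_w hr hl, ad_w (r_le hk hr) (lv_le hk hl)]
  have k1 := H1 α S W e A hS hne he1 σ hσ (fun _ => 1) (fun _ _ _ => rfl)
    fun _ _ => ⟨zero_le_one, le_rfl⟩
  simp only [one_mul, End.mean_const hS hne, mul_one] at k1
  have k2 := (H2 α S W e A hS hne he2 hW σ' hσ' (fun _ => a / 2) (fun _ _ _ => rfl)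
    fun _ _ => ⟨le_rfl, le_rfl⟩).1
  refine le_trans (le_trans (Ge.pr_mono hS ?_) (pr_un hS k1 k2))
    (by rw [ha, mul_div_assoc, div_self (by positivity)]; linarith)
  rintro x hx ⟨hb, s, hs, hn⟩
  by_contra hc
  obtain ⟨n1, n2⟩ : _ ∧ _ := by simpa only [mem_union, not_or] using hc
  obtain ⟨v, hv, hv'⟩ : ∃ v ∈ Icc (A.t (σ x) x) (A.t (σ x) x + θ), W x v ≤ A.w (σ x) x - a := by
    by_contra! H
    exact n1 ⟨hb, hs.1.trans hs.2, H⟩
  obtain ⟨p1, p2, p3⟩ := hp x hx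
  have l' := hσ'.2 x hx
  have q1 : A.t (σ' x) x ≤ v := not_lt.1 fun c => by
    obtain ⟨i, i1, i2, i3⟩ := Bes.cover (A := A) (p1.lt_of_ne fun e => c.not_ge (e ▸ hv.1))
      ⟨hv.1, c.le⟩
    have := (abs_le.1 ((A.step x hx i (lv_le i2 l')).2.2 v i3)).1
    exact p2 i i1 i2 (by simp only [AM.w] at *; linarith)
  have q2 : A.w (σ' x) x ≤ A.w (σ x) x - a / 2 := p3.elim id fun c => by
    have : A.t (σ' x) x = v := le_antisymm q1 (by linarith [T_le hx l' c hb, hv.2, hs.1, hs.2])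
    rw [AM.w, this]; linarith
  refine hn fun G hG h0 => le_of_lt ?_
  have q3 := t_le_t hx p1 l'
  have q4 : A.t (σ' x) x ≤ s := by linarith [hv.2, hs.1]
  refine (hG.mono q3 le_rfl).stay (hW x hx) ρ0 (not_not.1 fun c => n2 ⟨hb, c⟩) ?_ q4 hs.2
  have := (hG.mono le_rfl q4).le (hW x hx) h0 q3
  simp only [AM.w] at *
  linarith

lemma pr_iun {α : Type} {S : Set α} {E : ℕ → Set α} {γ : ℝ} (hS : S.Finite) (N : ℕ)
    (h : ∀ j, Ge.pr S (E j) ≤ γ) : Ge.pr S {x | ∃ j < N, x ∈ E j} ≤ N * γ := by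
  induction N with
  | zero => simp [Ge.pr, mean]
  | succ N ih =>
    refine le_trans (le_trans (Ge.pr_mono hS ?_) (pr_un hS ih (h N))) (by push_cast; linarith)
    rintro x - ⟨j, hj, H⟩
    rcases Nat.lt_succ_iff_lt_or_eq.1 hj with c | rfl
    exacts [Or.inl ⟨j, c, H⟩, Or.inr H]

theorem gridSt : GridSt := by
  intro α S W h hW T θ ε hθ hε
  obtain ⟨T', hT', T0⟩ : ∃ T', T ≤ T' ∧ 0 < T' := ⟨|T| + 1, by linarith [le_abs_self T], by positivity⟩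
  obtain ⟨L, L0, H1⟩ := supOut h T0 (half_pos hε)
  obtain ⟨N, hN⟩ := exists_nat_gt (T' / (θ / 3) + 1)
  have N0 : (0 : ℝ) < N := lt_trans (by positivity) hN
  obtain ⟨ρ, ρ0, e0, e00, H2⟩ := one (θ := θ / 3) (L := L + 1) (γ := ε / 4 / N) (by positivity)
    (by positivity) T0 (by positivity)
  refine ⟨ρ, ρ0, ?_⟩
  filter_upwards [H1, h.2 (L + 1) T' (min e0 (θ / 3)) (by positivity) T0 (by positivity)]
    with n h1 ⟨A⟩
  obtain ⟨fin, ne⟩ := h.1 n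
  choose σ hσ hp using fun j : ℕ => Bes.hit (st_zero A) (p := fun k x => j * (θ / 3) ≤ A.t k x)
    fun k x x' hr hl _ hp => by rwa [ad_t hr hl]
  have k := pr_iun fin N fun j => pr_un fin
    (H2 _ _ _ _ A fin ne (min_le_left _ _) (hW n) (σ j) (hσ j))
    (H2 _ _ _ _ (neg A fin) fin ne (min_le_left _ _) (fun x hx => (hW n x hx).neg) (σ j)
      (st_neg fin (hσ j)))
  refine le_trans (le_trans (Ge.pr_mono fin ?_) (pr_un fin h1 k))
    (le_of_eq (by field_simp; ring))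
  rintro x hx ⟨s, hs, hn⟩
  by_contra hc
  obtain ⟨n1, n2⟩ : _ ∧ _ := by simpa only [mem_union, not_or] using hc
  have hb : ∀ u ∈ Icc 0 T', |W n x u| < L + 1 := fun u hu =>
    (not_lt.1 fun c => n1 ⟨u, hu, c⟩).trans_lt (lt_add_one L)
  obtain ⟨j, hj⟩ : ∃ j, j = ⌈(s - θ) / (θ / 3)⌉₊ := ⟨_, rfl⟩
  have j1 : s - θ ≤ j * (θ / 3) := by
    rw [← div_le_iff₀ (by positivity), hj]; exact Nat.le_ceil _
  have j2 : (j : ℝ) < (s - θ) / (θ / 3) + 1 :=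
    hj ▸ Nat.ceil_lt_add_one (div_nonneg (sub_nonneg.2 hs.1) (by positivity))
  have j3 : j * (θ / 3) ≤ s - θ + θ / 3 := by
    rw [div_add_one (by positivity), lt_div_iff₀ (by positivity)] at j2; exact j2.le
  have j4 : j < N := by
    have : (s - θ) / (θ / 3) ≤ T' / (θ / 3) := by gcongr; linarith [hs.2]
    exact_mod_cast (by linarith : (j : ℝ) < N)
  obtain ⟨-, p2, p3⟩ := hp j x hx
  have l := (hσ j).2 x hx
  have q1 : s - θ ≤ A.t (σ j x) x := p3.elim j1.trans fun c => by linarith [T_le hx l c hb, hs.2]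
  have q2 : A.t (σ j x) x + θ / 3 ≤ s := by
    rcases e : σ j x with _ | i
    · rw [A.t0 x hx]; linarith [hs.1]
    · linarith [(A.step x hx i (e ▸ l)).2.1, not_le.1 (p2 i i.zero_le (by omega)),
        min_le_right e0 (θ / 3)]
  have q3 : A.t (σ j x) x ≤ s := by linarith
  refine hn _ ⟨q1, q3⟩ (min_self ρ ▸ apart q3 (not_not.1 fun c => n2 ⟨j, j4, Or.inl ?_⟩)
    (not_not.1 fun c => n2 ⟨j, j4, Or.inr ?_⟩))
  · exact ⟨hb, s, ⟨q2, hs.2.trans hT'⟩, c⟩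
  · exact ⟨by simpa using hb, s, ⟨q2, hs.2.trans hT'⟩, c⟩

end Pool.Agent.Lib.MP_6359c9_pr.Mdc
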