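import Pool.Agent.Lib.MP_6359c9_pr.MdAvo
import Pool.Agent.Lib.MP_6359c9_pr.LwH

/-! The inverse map at the tip, and its boundary values near the driving function. -/

namespace Pool.Agent.Lib.MP_6359c9_pr.Mdc

open Set Filter Topology Metric Complex Lw
open scoped NNReal

variable {p : ℝ≥0 → ℂ} {t u s : ℝ≥0}

lemma preconn_out (c : ℂ) (ε : ℝ) : IsPreconnected (closedBall c ε)ᶜ := by
  have e : (closedBall c ε)ᶜ =
      (fun x : ℝ × ℝ => c + x.1 * exp (x.2 * I)) '' Ioi ε ×ˢ univ := by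
    ext z
    simp only [mem_compl_iff, mem_closedBall_iff_norm, not_le]
    refine ⟨fun h => ⟨(‖z - c‖, arg (z - c)), ⟨h, trivial⟩, by simp⟩, ?_⟩
    rintro ⟨x, hx, rfl⟩
    simpa using hx.1.trans_le (le_abs_self _)
  exact e ▸ (isPreconnected_Ioi.prod isPreconnected_univ).image _ (by fun_prop)

/-- points away from the tip are joined away from the tip -/
lemma conn_far (h : Smp p) (ht : 0 < t) {ε : ℝ} (hε : 0 < ε) : ∃ δ > (0 : ℝ), ∀ z ∈ Sl p t,
    ∀ q ∈ Sl p t, z ∉ closedBall (p t) ε → q ∉ closedBall (p t) ε →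
    ∃ C ⊆ Sl p t \ closedBall (p t) δ, z ∈ C ∧ q ∈ C ∧ IsPreconnected C := by
  obtain ⟨l, hl, h0⟩ := (mem_nhdsLE_iff_exists_Ioc_subset' ht).1 (nhdsWithin_le_nhds
    (h.cont.continuousAt.preimage_mem_nhds (closedBall_mem_nhds (p t) hε)))
  obtain ⟨s, hls, hs⟩ := exists_between (mem_Iio.1 hl)
  have h1 := (Icc_subset_Ioc_left hls).trans h0
  have s0 : 0 < s := zero_le.trans_lt hls
  obtain ⟨δ, δ0, hδ⟩ := nhds_basis_closedBall.mem_iff.1 (inter_mem (inter_mem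
    ((h.cpt s).isClosed.isOpen_compl.mem_nhds (x := p t)
      fun ⟨_, hu, e⟩ => hs.not_ge (h.inj e ▸ hu)) (isOpen_UH.mem_nhds (h.up t ht)))
    (closedBall_mem_nhds (p t) hε))
  refine ⟨δ, δ0, fun z hz q hq z1 q1 => ?_⟩
  obtain ⟨R, hR⟩ := (((h.cpt t).isBounded.union (isBounded_closedBall (x := p t) (r := δ))).union
    (toFinite {z, q}).isBounded).subset_ball 0
  have oO : IsOpen (UH ∩ Metric.ball 0 R) := isOpen_UH.inter isOpen_ball
  have hA : IsCompact (p '' Iic s ∪ closedBall 0 R \ (UH ∩ Metric.ball 0 R)) :=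
    (h.cpt s).union ((isCompact_closedBall 0 R).diff oO)
  have hB : IsCompact (p '' Icc s t ∪ closedBall (p t) δ) :=
    (isCompact_Icc.image h.cont).union (isCompact_closedBall _ _)
  have pR : ∀ v ≤ t, p v ∈ Metric.ball (0 : ℂ) R := fun v hv => hR (Or.inl (Or.inl ⟨v, hv, rfl⟩))
  have hO : IsPreconnected ((UH ∩ Metric.ball 0 R) \ p '' Icc 0 s) :=
    arc_convex h.cont h.inj.injOn oO (convex_UH.inter (convex_ball _ _))
      (isBounded_ball.subset inter_subset_right)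
      (Subsingleton.isPreconnected (subsingleton_of_forall_eq (p 0) (by
        rintro _ ⟨⟨v, hv, rfl⟩, c⟩
        rw [le_antisymm (not_lt.1 fun v0 => c ⟨h.up v v0, pR v (hv.2.trans hs.le)⟩) hv.1])))
  have mO : ∀ y ∈ Sl p t, y ∈ Metric.ball (0 : ℂ) R → y ∈ (UH ∩ Metric.ball 0 R) \ p '' Icc 0 s :=
    fun y hy y1 => ⟨⟨hy.1, y1⟩, fun ⟨v, hv, e⟩ => hy.2 ⟨v, hv.2.trans hs.le, e⟩⟩
  have sA : (UH ∩ Metric.ball 0 R) \ p '' Icc 0 s ⊆ (p '' Iic s ∪ closedBall 0 R \ (UH ∩ Metric.ball 0 R))ᶜ :=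
    fun y hy c => c.elim (fun ⟨v, hv, e⟩ => hy.2 ⟨v, ⟨zero_le, hv⟩, e⟩) fun c => c.2 hy.1
  have sB : (closedBall (p t) ε)ᶜ ⊆ (p '' Icc s t ∪ closedBall (p t) δ)ᶜ := fun y hy c =>
    hy (c.elim (fun ⟨v, hv, e⟩ => e ▸ h1 hv) fun c => (hδ c).2)
  have mz := mO z hz (hR (Or.inr (by simp)))
  have key := MP_d32f96_gt.sJan_of _ _ z q hA hB (Subsingleton.isPreconnected
    (subsingleton_of_forall_eq (p s) (by
      rintro y ⟨⟨v, hv, rfl⟩ | c, ⟨w, hw, e⟩ | c'⟩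
      · rw [le_antisymm (mem_Iic.1 hv) (hw.1.trans_eq (h.inj e))]
      · exact absurd ⟨v, hv, rfl⟩ (hδ c').1.1
      · exact absurd (e ▸ ⟨h.up w (s0.trans_le hw.1), pR w hw.2⟩) c.2
      · exact absurd ⟨(hδ c').1.2, hR (Or.inl (Or.inr c'))⟩ c.2)))
    (hO.subset_connectedComponentIn mz sA (mO q hq (hR (Or.inr (by simp)))))
    ((preconn_out _ ε).subset_connectedComponentIn z1 sB q1)
  have hz' := mem_connectedComponentIn (show z ∈ (_ ∪ _)ᶜ from fun c => c.elim (sA mz) (sB z1))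
  refine ⟨_, fun y hy => ?_, hz', key, isPreconnected_connectedComponentIn⟩
  have y1 := connectedComponentIn_subset _ _ hy
  have y2 : y ∈ UH ∩ Metric.ball 0 R := by
    refine isPreconnected_connectedComponentIn.subset_left_of_subset_union oO
      (isClosed_closedBall (x := 0) (ε := R)).isOpen_compl (disjoint_compl_right.mono_left
        fun z hz => ball_subset_closedBall hz.2) (fun z hz => ?_) ⟨z, hz', mz.1⟩ hy
    have := connectedComponentIn_subset _ _ hz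
    exact or_iff_not_imp_left.2 fun h1 h2 => this (Or.inl (Or.inr ⟨h2, h1⟩))
  refine ⟨⟨y2.1, fun ⟨v, hv, e⟩ => y1 ?_⟩, fun c => y1 (Or.inr (Or.inr c))⟩
  rcases le_total v s with c | c
  exacts [Or.inl (Or.inl ⟨v, c, e⟩), Or.inr (Or.inl ⟨v, ⟨c, hv⟩, e⟩)]

/-- the inverse map sends the driving function to the tip -/
theorem inv_tip (h : Smp p) (t : ℝ≥0) :
    Tendsto (h.hyd t).inv (𝓝[UH] (drv p t : ℂ)) (𝓝 (p t)) := by
  have H := h.hyd t
  rcases (zero_le (a := t)).eq_or_lt with rfl | ht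
  · rw [h.drv_zero]
    exact (tendsto_id.mono_left nhdsWithin_le_nhds).congr' (eventually_mem_nhdsWithin.mono
      fun w hw => (H.map_inv hw).symm.trans (h.gm_zero (H.inv_mem hw).1))
  refine nhds_basis_closedBall.tendsto_right_iff.2 fun ε hε => ?_
  obtain ⟨δ, δ0, hδ⟩ := conn_far h ht hε
  obtain ⟨r, hr⟩ := (h.cpt t).isBounded.subset_closedBall ((0 : ℝ) : ℂ)
  have rt := hr ⟨t, mem_Iic.2 le_rfl, rfl⟩
  have r0 : 0 ≤ r := nonneg_of_mem_closedBall rt
  have mv : ∀ w ∈ UH, ‖H.inv w - w‖ ≤ 8 * r := fun w hw => by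
    simpa only [H.map_inv hw, norm_sub_rev] using H.move (Sl_hull.trans hr) r0 (H.inv_mem hw)
  obtain ⟨v, tv, hv⟩ := mem_nhdsGE_iff_exists_Icc_subset.1 (nhdsWithin_le_nhds
    (h.cont.continuousAt.preimage_mem_nhds (closedBall_mem_nhds (p t) (half_pos δ0))))
  obtain ⟨Δ, hΔ⟩ : ∃ Δ, Δ = min 1 ‖gm p t (p v) - drv p t‖ := ⟨_, rfl⟩
  have Δ0 : 0 < Δ := hΔ ▸ lt_min one_pos (norm_pos_iff.2 (sub_ne_zero.2 fun c => by
    simpa [c, mem_UH] using H.maps (h.mem_sl tv)))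
  have Δ1 : Δ ≤ 1 := hΔ ▸ min_le_left _ _
  obtain ⟨d, d0, d1, d2⟩ := exists_delta (ε := δ / 32) (M := 4 * (1 + 8 * r) ^ 2) (by positivity)
  obtain ⟨ρ, hρ, hw⟩ := wolff_conn isOpen_UH H.inv_hol H.inv_inj (drv p t) (δ := Δ * d) (Δ := Δ)
    (by positivity) (mul_lt_of_lt_one_right Δ0 d1)
    ((MeasureTheory.measure_mono (show _ ⊆ Metric.ball (drv p t : ℂ) (1 + 8 * r) by
      rintro _ ⟨w, hw, rfl⟩
      have := norm_sub_le_norm_sub_add_norm_sub (H.inv w) w (drv p t)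
      exact mem_ball_iff_norm.2 (by linarith [mv w hw.1, mem_ball_iff_norm.1 hw.2]))).trans
      (vol_ball _ (by positivity))) (t := δ / 32) (by positivity)
    (by rwa [div_mul_cancel_left₀ Δ0.ne', ← one_div])
  have ρ0 : 0 < ρ := lt_trans (by positivity) hρ.1
  obtain ⟨v1, m1, m2⟩ := (((h.tendsto_drv t).eventually (closedBall_mem_nhds _ ρ0)).and
    (Ioc_mem_nhdsGT tv)).exists
  obtain ⟨v2, m3, m4⟩ := (isPreconnected_Ioc (a := t) (b := v)).intermediate_value m2 ⟨tv, le_rfl⟩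
    (f := fun v => ‖gm p t (p v) - drv p t‖)
    (((h.cont_gm t).mono Ioc_subset_Ioi_self).sub continuousOn_const).norm
    (show ρ ∈ _ from ⟨mem_closedBall_iff_norm.1 m1, hρ.2.le.trans (hΔ ▸ min_le_right _ _)⟩)
  obtain ⟨K, hK⟩ : ∃ K, K = ε + 1 + |drv p t| + 9 * r := ⟨_, rfl⟩
  have K0 : 0 < K := hK ▸ by positivity
  have q0 : (drv p t : ℂ) + K * I ∈ UH := by simpa [mem_UH] using K0
  have nK : ‖(drv p t : ℂ) + K * I - drv p t‖ = K := by simp [abs_of_pos K0]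
  filter_upwards [self_mem_nhdsWithin, nhdsWithin_le_nhds (closedBall_mem_nhds _ ρ0)] with w w0 w1
  by_contra c
  obtain ⟨C, C1, C2, C3, C4⟩ := hδ _ (H.inv_mem w0) _ (H.inv_mem q0) c fun c => by
    have k1 := norm_sub_le_norm_sub_add_norm_sub ((drv p t : ℂ) + K * I) (p t) (drv p t)
    have k2 := norm_sub_le_norm_sub_add_norm_sub ((drv p t : ℂ) + K * I) (H.inv (drv p t + K * I)) (p t)
    have k3 := norm_sub_le (p t) (drv p t)
    have k4 := mv _ q0
    rw [norm_sub_rev] at k4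
    rw [norm_real, Real.norm_eq_abs] at k3
    rw [ofReal_zero, mem_closedBall_zero_iff] at rt
    linarith [mem_closedBall_iff_norm.1 c]
  obtain ⟨y, y1, y2⟩ := C4.intermediate_value C2 C3 (f := fun y => ‖gm p t y - drv p t‖)
    ((H.hol.continuousOn.mono fun _ hy => (C1 hy).1).sub continuousOn_const).norm
    (show ρ ∈ _ by
      simp only [H.map_inv w0, H.map_inv q0, nK]
      exact ⟨mem_closedBall_iff_norm.1 w1, by linarith [hρ.2, abs_nonneg (drv p t)]⟩)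
  have := hw _ (preconn_arc _ _) subset_rfl _ ⟨H.maps (C1 y1).1, mem_sphere_iff_norm.2 y2⟩ _
    ⟨H.maps (h.mem_sl m3.1), mem_sphere_iff_norm.2 m4⟩
  rw [H.inv_map (C1 y1).1, H.inv_map (h.mem_sl m3.1)] at this
  refine (C1 y1).2 (mem_closedBall_iff_norm.2 ?_)
  linarith [norm_sub_le_norm_sub_add_norm_sub y (p v2) (p t),
    mem_closedBall_iff_norm.1 (hv ⟨m3.1.le, m3.2⟩)]

lemma Rs.shift {w w' G : ℝ → ℝ} {a b : ℝ} (h : Rs w' 0 b G) (e : ∀ v ∈ Icc 0 b, w' v = w (a + v)) :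
    Rs w a (a + b) fun v => G (v - a) := fun v hv => by
  have m : MapsTo (fun v => v - a) (Icc a (a + b)) (Icc 0 b) := fun v hv =>
    ⟨sub_nonneg.2 hv.1, sub_le_iff_le_add'.2 hv.2⟩
  obtain ⟨h1, h2⟩ := h _ (m hv)
  rw [e _ (m hv), add_sub_cancel] at h1 h2
  exact ⟨h1, (h2.comp v ((hasDerivWithinAt_id v _).sub_const a) m).congr_deriv (mul_one _)⟩

/-- the boundary values of the inverse map near the driving function are in the recent past -/
theorem lim_mem (h : Smp p) (hc : Cap p) (hu : u ≤ s) {ρ x : ℝ}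
    (ap : Apart (Ge.rl (drv p)) ρ u s) (hx : |x - drv p s| < ρ) {z : ℂ}
    (hz : MapClusterPt z (𝓝[UH] (x : ℂ)) (h.hyd s).inv) : z ∈ p '' Icc u s := by
  obtain ⟨s, rfl⟩ := exists_add_of_le hu
  obtain ⟨F, hF, Fz⟩ := mapClusterPt_iff_ultrafilter.1 hz
  have H := h.hyd (u + s)
  have b := h.shf u
  have FU : ∀ᶠ w in F, w ∈ UH := hF self_mem_nhdsWithin
  have m1 : ∀ w ∈ UH, gm p u (H.inv w) ∈ Sl (shf p u) s := fun w hw =>
    h.sl_shf u s ▸ ⟨_, H.inv_mem hw, rfl⟩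
  have m2 : ∀ w ∈ UH, (h.hyd u).inv (gm p u (H.inv w)) = H.inv w := fun w hw =>
    (h.hyd u).inv_map (Sl_anti p hu (H.inv_mem hw))
  obtain ⟨r, hr⟩ := (h.cpt u).isBounded.subset_closedBall ((0 : ℝ) : ℂ)
  have r0 : 0 ≤ r := nonneg_of_mem_closedBall (hr ⟨u, mem_Iic.2 le_rfl, rfl⟩)
  obtain ⟨y, -, Fy⟩ := (isCompact_closedBall z (1 + 8 * r)).ultrafilter_le_nhds
    (F.map fun w => gm p u (H.inv w)) (tendsto_principal.2 (by
      filter_upwards [FU, Fz.eventually (closedBall_mem_nhds z one_pos)] with w w0 w1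
      have := (h.hyd u).move (Sl_hull.trans hr) r0 (Sl_anti p hu (H.inv_mem w0))
      exact mem_closedBall_iff_norm.2 (by
        linarith [norm_sub_le_norm_sub_add_norm_sub (gm p u (H.inv w)) (H.inv w) z,
          mem_closedBall_iff_norm.1 w1])))
  have Ty : Tendsto (fun w => gm p u (H.inv w)) F (𝓝[UH] y) :=
    tendsto_nhdsWithin_iff.2 ⟨Fy, FU.mono fun w hw => (m1 w hw).1⟩
  by_cases c : y ∈ shf p u '' Iic s
  · obtain ⟨v, hv, rfl⟩ := c
    refine ⟨u + v, ⟨le_self_add, add_le_add_right hv u⟩, tendsto_nhds_unique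
      ((Tendsto.comp ?_ Ty).congr' (FU.mono m2)) Fz⟩
    rcases (zero_le (a := v)).eq_or_lt with rfl | v0
    · rw [shf_zero, add_zero]; exact inv_tip h u
    · have m := h.mem_sl (lt_add_of_pos_right u v0)
      have := (h.hyd u).inv_hol.continuousOn _ ((h.hyd u).maps m)
      rwa [ContinuousWithinAt, (h.hyd u).inv_map m, ← shf_pos v0] at this
  have y0 : 0 ≤ y.im := ge_of_tendsto ((continuous_im.tendsto y).comp Fy)
    (FU.mono fun w hw => le_of_lt (m1 w hw).1)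
  have e : ge (shf p u) s y = x := tendsto_nhds_unique (((b.tendsto_ge ⟨y0, c⟩).comp Ty).congr'
    (FU.mono fun w hw => (h.gm_shf (H.inv_mem hw)).trans (H.map_inv hw)))
    (hF.trans nhdsWithin_le_nhds)
  have y1 : y = y.re := Complex.ext (by simp) (y0.eq_or_lt.elim (fun c => by simp [← c]) fun c' => by
    simpa [← b.ge_eq ⟨c', c⟩, e, mem_UH] using (b.hyd s).maps ⟨c', c⟩)
  have R := (rs_ge b (h.Cap_shf hc u) (x := y.re) (fun c' => c ⟨0, mem_Iic.2 zero_le,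
    c'.symm.trans y1.symm⟩) s).shift (w := Ge.rl (drv p)) (a := u) fun v hv => by
      lift v to ℝ≥0 using hv.1
      simp only [Ge.rl, h.drv_shf, ← NNReal.coe_add, Real.toNNReal_coe]
  have := ap _ R
  simp only [NNReal.coe_add, add_sub_cancel_left, Real.toNNReal_coe, ← y1, e, ofReal_re] at this
  simp only [Ge.rl, ← NNReal.coe_add, Real.toNNReal_coe] at this
  exact absurd hx this.not_gt

end Pool.Agent.Lib.MP_6359c9_pr.Mdc
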