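import Pool.Agent.Lib.MP_6359c9_pr.SlSpec
import Pool.Agent.Lib.MP_6359c9_pr.BmMod

/-! The modulus of continuity of the curves from the statements G, D and T. -/

namespace Pool.Agent.Lib.MP_6359c9_pr.Mdc

open Set Filter Topology
open scoped NNReal

/-- first time at level `d` -/
lemma hit {f : ℝ≥0 → ℝ} (hf : Continuous f) {x y : ℝ≥0} (h : x ≤ y) {d : ℝ} (hx : f x ≤ d)
    (hy : d ≤ f y) : ∃ t ∈ Icc x y, f t = d ∧ ∀ v ∈ Icc x t, f v ≤ d := by
  obtain ⟨t, ⟨ht, e⟩, hm⟩ := (isCompact_Icc.inter_right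
    ((isClosed_singleton (x := d)).preimage hf)).exists_isLeast
    (by obtain ⟨t, ht, e⟩ := intermediate_value_Icc h hf.continuousOn ⟨hx, hy⟩; exact ⟨t, ht, e⟩)
  refine ⟨t, ht, e, fun v hv => not_lt.1 fun c => ?_⟩
  obtain ⟨w, hw, e'⟩ := intermediate_value_Icc hv.1 hf.continuousOn ⟨hx, c.le⟩
  have : v = w := le_antisymm (hv.2.trans (hm ⟨⟨hw.1, hw.2.trans (hv.2.trans ht.2)⟩, e'⟩)) hw.2 |>.symm ▸ rfl
  exact c.ne' (this ▸ e')

/-- last time at level `d` -/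
lemma hit' {f : ℝ≥0 → ℝ} (hf : Continuous f) {x y : ℝ≥0} (h : x ≤ y) {d : ℝ} (hx : d ≤ f x)
    (hy : f y ≤ d) : ∃ t ∈ Icc x y, f t = d ∧ ∀ v ∈ Icc t y, f v ≤ d := by
  obtain ⟨t, ⟨ht, e⟩, hm⟩ := (isCompact_Icc.inter_right
    ((isClosed_singleton (x := d)).preimage hf)).exists_isGreatest
    (by obtain ⟨t, ht, e⟩ := intermediate_value_Icc' h hf.continuousOn ⟨hy, hx⟩; exact ⟨t, ht, e⟩)
  refine ⟨t, ht, e, fun v hv => not_lt.1 fun c => ?_⟩
  obtain ⟨w, hw, e'⟩ := intermediate_value_Icc' hv.2 hf.continuousOn ⟨hy, c.le⟩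
  have : v = w := le_antisymm hw.1 ((hm ⟨⟨ht.1.trans (hv.1.trans hw.1), hw.2⟩, e'⟩).trans hv.1)
  exact c.ne' (this ▸ e')

/-- `k` consecutive pieces in `K` before the time `s` -/
def Pcs (p : ℝ≥0 → ℂ) (K : Set ℂ) (d : ℝ) : ℕ → ℝ≥0 → Prop
  | 0, _ => True
  | k + 1, s => ∃ x y, x ≤ y ∧ y ≤ s ∧ p '' Icc x y ⊆ K ∧ d ≤ ‖p x - p y‖ ∧ Pcs p K d k x

variable {p : ℝ≥0 → ℂ} {K : Set ℂ} {d c : ℝ} {k : ℕ} {s s' T : ℝ≥0}

lemma Pcs.mono (h : Pcs p K d k s) (hs : s ≤ s') : Pcs p K d k s' := by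
  cases k with
  | zero => trivial
  | succ k =>
    obtain ⟨x, y, h1, h2, h3⟩ := h
    exact ⟨x, y, h1, h2.trans hs, h3⟩

lemma Pcs.seq (h : Pcs p K d k s) : ∃ a b : ℕ → ℝ≥0, a k = s ∧
    ∀ i < k, a i ≤ b i ∧ b i ≤ a (i + 1) ∧ p '' Icc (a i) (b i) ⊆ K ∧ d ≤ ‖p (a i) - p (b i)‖ := by
  induction k generalizing s with
  | zero => exact ⟨fun _ => s, fun _ => s, rfl, fun _ h => absurd h (Nat.not_lt_zero _)⟩
  | succ k ih =>
    obtain ⟨x, y, h1, h2, h3, h4, h5⟩ := h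
    obtain ⟨a, b, e, H⟩ := ih h5
    refine ⟨fun i => if i ≤ k then a i else s, fun i => if i < k then b i else y, by simp,
      fun i hi => ?_⟩
    rcases (Nat.lt_succ_iff.1 hi).lt_or_eq with h | rfl
    · simpa only [if_pos h.le, if_pos h, if_pos (Nat.succ_le_of_lt h)] using H i h
    · simpa only [if_pos le_rfl, if_neg (lt_irrefl _), if_neg (Nat.not_succ_le_self _), e] using
        ⟨h1, h2, h3, h4⟩

/-- a large arc contains a piece away from the origin -/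
lemma piece (hp : Continuous p) (hc : 0 < c) (hK : ∀ u ≤ T, c / 4 ≤ ‖p u‖ → p u ∈ K) (hT : s' ≤ T)
    (hd : c < Metric.diam (p '' Icc s s')) (h : Pcs p K (c / 4) k s) :
    Pcs p K (c / 4) (k + 1) s' := by
  obtain ⟨x, hx, y, hy, hxy, hl⟩ : ∃ x ∈ Icc s s', ∃ y ∈ Icc s s', x ≤ y ∧ c < ‖p x - p y‖ := by
    by_contra! H
    refine hd.not_ge (Metric.diam_le_of_forall_dist_le hc.le ?_)
    rintro _ ⟨x, hx, rfl⟩ _ ⟨y, hy, rfl⟩
    rcases le_total x y with h | h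
    · exact dist_eq_norm (p x) (p y) ▸ H x hx y hy h
    · exact dist_eq_norm' (p x) (p y) ▸ H y hy x hx h
  have tri := norm_sub_le (p x) (p y)
  rcases le_total (c / 2) ‖p x‖ with h1 | h1
  · obtain ⟨t, ht, e, H⟩ := hit (f := fun v => ‖p x - p v‖) (by fun_prop) hxy (d := c / 4)
      (by simpa using by positivity) (by linarith)
    refine ⟨x, t, ht.1, ht.2.trans hy.2, ?_, e.ge, h.mono hx.1⟩
    rintro _ ⟨v, hv, rfl⟩
    refine hK v (hv.2.trans (ht.2.trans (hy.2.trans hT))) ?_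
    linarith [H v hv, norm_sub_norm_le (p x) (p v)]
  · obtain ⟨t, ht, e, H⟩ := hit' (f := fun v => ‖p v - p y‖) (by fun_prop) hxy (d := c / 4)
      (by linarith) (by simpa using by positivity)
    refine ⟨t, y, ht.2, hy.2, ?_, e.ge, h.mono (hx.1.trans ht.1)⟩
    rintro _ ⟨v, hv, rfl⟩
    refine hK v (hv.2.trans (hy.2.trans hT)) ?_
    linarith [H v hv, norm_sub_norm_le (p y) (p v), norm_sub_rev (p y) (p v)]

lemma pr_un {α : Type} {S E E' : Set α} {a b : ℝ} (hS : S.Finite) (h : Ge.pr S E ≤ a)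
    (h' : Ge.pr S E' ≤ b) : Ge.pr S (E ∪ E') ≤ a + b := by
  refine le_trans ?_ (add_le_add h h')
  rw [← End.mean_add hS]
  refine End.mean_mono hS fun x _ => ?_
  by_cases h1 : x ∈ E <;> by_cases h2 : x ∈ E' <;> simp [h1, h2]

/-- bounded driving function, away from the real line, small at small times -/
structure Gd (p : ℝ≥0 → ℂ) (K : Set ℂ) (T : ℝ≥0) (L c t : ℝ) : Prop where
  bd : ∀ v ≤ T, |drv p v| ≤ L
  inK : ∀ u ≤ T, c / 4 ≤ ‖p u‖ → p u ∈ K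
  sm : ∀ v : ℝ≥0, (v : ℝ) ≤ t → ‖p v‖ ≤ c / 2

/-- a fast move that does not come after `k` pieces -/
def Bad (p : ℝ≥0 → ℂ) (K : Set ℂ) (T : ℝ≥0) (L c t : ℝ) (k : ℕ) (c' θ : ℝ) : Prop :=
  Gd p K T L c t ∧ ∃ s s' : ℝ≥0, s ≤ s' ∧ s' ≤ T ∧ (s' : ℝ) ≤ s + θ ∧
    c' < Metric.diam (p '' Icc s s') ∧ ¬Pcs p K (c / 4) k s'

theorem mesh (hG : GridSt) (hT : TipSt) (A : Sett) (h : Bm.Seq A.S A.W) (K : Set ℂ) (T : ℝ≥0)
    (L : ℝ) {c t : ℝ} (hc : 0 < c) (ht : 0 < t) (k : ℕ) : ∀ c' > c, ∀ e > (0 : ℝ), ∃ θ > (0 : ℝ),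
      2 * θ ≤ t ∧ ∀ᶠ n in atTop, Ge.pr (A.S n) {g | Bad (A.p n g) K T L c t k c' θ} ≤ e := by
  induction k with
  | zero =>
    refine fun c' _ e he => ⟨t / 2, by positivity, by linarith, .of_forall fun n => ?_⟩
    refine le_trans (Ge.pr_mono (E' := ∅) (h.1 n).1 ?_) (by simpa [Ge.pr, mean] using he.le)
    exact fun g _ ⟨_, _, _, _, _, _, _, H⟩ => H trivial
  | succ k ih =>
    intro c' hc' e he
    obtain ⟨θ, θ0, θ1, H1⟩ := ih ((c + c') / 2) (by linarith) (e / 3) (by positivity)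
    obtain ⟨ρ, ρ0, H2⟩ := hG _ A.S A.W h (fun n g hg => Ge.rl_cont (A.trc n g hg).smp.cont_drv)
      T θ (e / 3) θ0 (by positivity)
    obtain ⟨r, r0, H3⟩ := hT L T ρ ((c' - c) / 2) ρ0 (by linarith)
    obtain ⟨η, η0, H4⟩ := Bm.modOut h (T + 1) (min r (e / 3)) (by positivity) (by positivity)
    have m1 := min_le_left θ (min r η)
    have m2 := (min_le_right θ (min r η)).trans (min_le_left _ _)
    have m3 := (min_le_right θ (min r η)).trans (min_le_right _ _)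
    refine ⟨min θ (min r η), by positivity, by linarith, ?_⟩
    filter_upwards [H1, H2, H4] with n h1 h2 h4
    have fin := (h.1 n).1
    refine le_trans (le_trans (Ge.pr_mono fin ?_) (pr_un fin h1 (pr_un fin h2 h4)))
      (by linarith [min_le_right r (e / 3)])
    rintro g hg ⟨G, s, s', a1, a2, a3, a4, a5⟩
    have P := A.trc n g hg
    by_contra hn
    obtain ⟨n1, n2, n4⟩ : _ ∧ _ ∧ _ := by simpa only [mem_union, not_or] using hn
    have b1 : (s : ℝ) ≤ s' := a1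
    have b2 : (s' : ℝ) ≤ T := a2
    rcases lt_or_ge (s : ℝ) θ with hs | hs
    · refine a4.not_ge (le_trans (Metric.diam_le_of_subset_closedBall (x := 0) (r := c / 2)
        (by positivity) ?_) (by linarith))
      rintro _ ⟨v, hv, rfl⟩
      have : (v : ℝ) ≤ s' := hv.2
      simpa using G.sm v (by linarith)
    obtain ⟨u, hu, ap⟩ : ∃ u ∈ Icc (s - θ) (s : ℝ), Apart (A.W n g) ρ u s := by
      by_contra! H
      exact n2 ⟨s, ⟨hs, b1.trans b2⟩, H⟩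
    lift u to ℝ≥0 using by linarith [hu.1]
    have tip := H3 _ P.smp P.cap u s s' hu.2 a1 b2 (fun v hv => G.bd v (hv.trans a2)) ap
      (by linarith) fun v hv => not_lt.1 fun H => by
        have v1 : (s : ℝ) ≤ v := hv.1
        have v2 : (v : ℝ) ≤ s' := hv.2
        refine n4 ⟨v, ⟨v.2, by linarith⟩, s, ⟨s.2, by linarith⟩,
          abs_le.2 ⟨by linarith, by linarith⟩, (min_le_left _ _).trans_lt ?_⟩
        simpa [Sett.W, Ge.rl] using H
    exact n1 ⟨G, u, s, hu.2, a1.trans a2, by linarith [hu.1], by linarith, fun H =>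
      a5 (piece P.smp.cont hc G.inK a2 (by linarith) H)⟩

theorem modSt (hG : GridSt) (hA : AvoSt) (hT : TipSt) (hP : PieSt) : ModSt := by
  intro A h T ε hε
  obtain ⟨L, L0, H1⟩ := Bm.supOut h (T := T + 1) (ε := ε / 5) (by positivity) (by positivity)
  obtain ⟨η, η0, H2⟩ := hA A h T (ε / 16) (ε / 5) (by positivity) (by positivity)
  obtain ⟨t, t0, H3⟩ := Bm.modOut h 1 (ε / 8) one_pos (by positivity)
  set K : Set ℂ := {z | min η (ε / 16) ≤ z.im} ∩ Metric.closedBall 0 (L + 3 * √T) with hK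
  obtain ⟨N, H4⟩ := hP A K (fun z hz => (lt_min η0 (by positivity)).trans_le hz.1)
    ((isCompact_closedBall _ _).inter_left (isClosed_le continuous_const Complex.continuous_im))
    (ε / 2 / 4) (ε / 5) (by positivity) (by positivity)
  obtain ⟨θ, θ0, -, H5⟩ := mesh hG hT A h K T L (c := ε / 2) (t := min (min t 1) ((ε / 24) ^ 2))
    (by positivity) (by positivity) N ε (by linarith) (ε / 5) (by positivity)
  refine ⟨θ, θ0, ?_⟩
  filter_upwards [H1, H2, H3, H4, H5] with n h1 h2 h3 h4 h5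
  have fin := (h.1 n).1
  refine le_trans (le_trans (Ge.pr_mono fin ?_)
    (pr_un fin h1 (pr_un fin h2 (pr_un fin h3 (pr_un fin h4 h5))))) (by linarith)
  rintro g hg ⟨u, hu, v, hv, huv, hl⟩
  have P := A.trc n g hg
  by_contra hn
  obtain ⟨n1, n2, n3, n4, n5⟩ : _ ∧ _ ∧ _ ∧ _ ∧ _ := by simpa only [mem_union, not_or] using hn
  have bd : ∀ v ≤ T, |drv (A.p n g) v| ≤ L := fun v hv => not_lt.1 fun H =>
    n1 ⟨v, ⟨v.2, by linarith [NNReal.coe_le_coe.2 hv]⟩, by simpa [Sett.W, Ge.rl] using H⟩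
  have z : drv (A.p n g) 0 = 0 := by exact_mod_cast P.smp.drv_zero.trans P.zero
  have G : Gd (A.p n g) K T L (ε / 2) (min (min t 1) ((ε / 24) ^ 2)) := by
    refine ⟨bd, fun u hu H => ⟨le_of_not_gt (b := (A.p n g u).im) fun H' => ?_,
      by simpa using P.smp.rad P.cap bd hu⟩, fun v hv => ?_⟩
    · obtain ⟨k1, k2⟩ := lt_min_iff.1 H'
      have k3 := Complex.norm_le_abs_re_add_abs_im (A.p n g u)
      rw [abs_of_nonneg (P.smp.im_nonneg u)] at k3
      exact n2 ⟨u, hu, by linarith, k1.le⟩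
    · obtain ⟨k1, k2⟩ := le_min_iff.1 hv
      obtain ⟨k3, k4⟩ := le_min_iff.1 k1
      have := P.smp.rad P.cap (M := ε / 8) (t := v) (fun w hw => not_lt.1 fun H => by
        have : (w : ℝ) ≤ v := hw
        refine n3 ⟨w, ⟨w.2, by linarith⟩, 0, ⟨le_rfl, zero_le_one⟩, ?_, ?_⟩
        · rw [sub_zero, NNReal.abs_eq]; exact this.trans k3
        · simpa [Sett.W, Ge.rl, z] using H) le_rfl
      linarith [Real.sqrt_le_iff.2 ⟨(by positivity : 0 ≤ ε / 24), k2⟩]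
  wlog o : u ≤ v generalizing u v
  · exact this v hv u hu (by rwa [dist_comm]) (by rwa [norm_sub_rev]) (le_of_not_ge o)
  refine n5 ⟨G, u, v, o, hv, ?_, hl.trans_le ?_, fun H => ?_⟩
  · rw [NNReal.dist_eq, abs_le] at huv; linarith [huv.1]
  · rw [← dist_eq_norm]
    exact Metric.dist_le_diam_of_mem (isCompact_Icc.image P.smp.cont).isBounded
      ⟨u, ⟨le_rfl, o⟩, rfl⟩ ⟨v, ⟨o, le_rfl⟩, rfl⟩
  · obtain ⟨a, b, -, H⟩ := H.seq
    exact n4 ⟨a, b, H⟩

end Pool.Agent.Lib.MP_6359c9_pr.Mdc
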