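import Pool.Agent.Lib.MP_6359c9_pr.ObSide
import Pool.Agent.Lib.MP_6359c9_pr.LwH

/-! The near future of a curve is not larger than the recent past. -/

namespace Pool.Agent.Lib.MP_6359c9_pr.Mdc

open Set Filter Topology Bornology Metric Complex Lw Un Og
open scoped NNReal

variable {p : ℝ≥0 → ℂ} {s t u : ℝ≥0} {r : ℝ} (h : Smp p)
include h

/-- points of the slit domain away from the tip are joined away from the tip -/
lemma join (hs : s ≤ t) {ε η : ℝ} (hB : closedBall (p t) ε ⊆ UH)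
    (h1 : p '' Icc s t ⊆ closedBall (p t) ε) (hη : η ≤ ε) (h2 : ∀ v ≤ s, η < ‖p v - p t‖)
    {a b : ℂ} (ha : a ∈ Sl p t) (hb : b ∈ Sl p t) (a1 : ε < ‖a - p t‖) (b1 : ε < ‖b - p t‖) :
    ∃ C, IsPreconnected C ∧ C ⊆ Sl p t \ closedBall (p t) η ∧ a ∈ C ∧ b ∈ C := by
  obtain ⟨R, hR⟩ := ((((h.cpt t).isBounded.union (isBounded_closedBall (x := p t) (r := ε))).insert
    a).insert b).subset_ball 0
  set O := UH ∩ Metric.ball 0 R with hO
  have oO : IsOpen O := isOpen_UH.inter isOpen_ball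
  have s1 : p '' Icc s t ∪ closedBall (p t) η ⊆ closedBall (p t) ε :=
    union_subset h1 (closedBall_subset_closedBall hη)
  have s2 : closedBall (p t) ε ⊆ O := fun z hz => ⟨hB hz, hR (.inr (.inr (.inr hz)))⟩
  have s3 : O \ p '' Icc 0 s ⊆ (p '' Icc 0 s ∪ closedBall 0 R \ O)ᶜ := fun z hz c =>
    c.elim hz.2 fun c => c.2 hz.1
  have m : ∀ z ∈ Sl p t, z ∉ p '' Icc 0 s := fun z hz ⟨v, hv, e⟩ => hz.2 ⟨v, hv.2.trans hs, e⟩
  have ma : a ∈ O \ p '' Icc 0 s := ⟨⟨ha.1, hR (by simp)⟩, m a ha⟩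
  have key := MP_d32f96_gt.sJan_of _ _ a b
    ((isCompact_Icc.image h.cont).union ((isCompact_closedBall 0 R).diff oO))
    ((isCompact_Icc.image h.cont).union (isCompact_closedBall (p t) η))
    (Subsingleton.isPreconnected (subsingleton_of_forall_eq (p s) (by
      rintro z ⟨⟨v, hv, rfl⟩ | c, d⟩
      · rcases d with ⟨w, hw, e⟩ | d
        · rw [le_antisymm hv.2 (h.inj e ▸ hw.1)]
        · exact absurd (mem_closedBall_iff_norm.1 d) (h2 v hv.2).not_ge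
      · exact absurd (s2 (s1 d)) c.2)))
    ((arc_convex h.cont h.inj.injOn oO (convex_UH.inter (convex_ball _ _))
      (isBounded_ball.subset inter_subset_right) (Subsingleton.isPreconnected
        (subsingleton_of_forall_eq (p 0) (by
      rintro _ ⟨⟨v, hv, rfl⟩, c⟩
      rcases (zero_le (a := v)).eq_or_lt with e | e
      · rw [← e]
      · exact absurd ⟨h.up v e, hR (.inr (.inr (.inl ⟨v, hv.2.trans hs, rfl⟩)))⟩
          c)))).subset_connectedComponentIn ma s3 ⟨⟨hb.1, hR (by simp)⟩, m b hb⟩)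
    (((MP_d32f96_gt.preconn_out' ε).image (· + p t) (by fun_prop)).subset_connectedComponentIn
      ⟨a - p t, a1, sub_add_cancel _ _⟩ (by
        rintro _ ⟨z, hz, rfl⟩ c
        exact (show ε < ‖z‖ from hz).not_ge (by simpa using s1 c))
      ⟨b - p t, b1, sub_add_cancel _ _⟩)
  have hs' := connectedComponentIn_subset ((p '' Icc 0 s ∪ closedBall 0 R \ O) ∪
    (p '' Icc s t ∪ closedBall (p t) η))ᶜ a
  have ma' := mem_connectedComponentIn (x := a) (F := ((p '' Icc 0 s ∪ closedBall 0 R \ O) ∪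
    (p '' Icc s t ∪ closedBall (p t) η))ᶜ) fun c => c.elim (s3 ma) fun c =>
      a1.not_ge (mem_closedBall_iff_norm.1 (s1 c))
  refine ⟨_, isPreconnected_connectedComponentIn, fun z hz => ⟨⟨?_, ?_⟩,
    fun c => hs' hz (.inr (.inr c))⟩, ma', key⟩
  · exact (isPreconnected_connectedComponentIn.subset_left_of_subset_union oO
      (isClosed_closedBall (x := 0) (ε := R)).isOpen_compl (disjoint_compl_right.mono_left
        fun z hz => ball_subset_closedBall hz.2) (fun z hz => or_iff_not_imp_left.2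
        fun c1 c2 => hs' hz (.inl (.inr ⟨c2, c1⟩))) ⟨a, ma', ma.1⟩ hz).1
  · rintro ⟨v, hv, rfl⟩
    rcases le_total v s with c | c
    exacts [hs' hz (.inl (.inl ⟨v, ⟨zero_le, c⟩, rfl⟩)), hs' hz (.inr (.inl ⟨v, ⟨c, hv⟩, rfl⟩))]

/-- a half circle with a short preimage -/
lemma cut (hr : ∀ v ≤ t, ‖p v‖ ≤ r) {Δ δ τ : ℝ} (hΔ : 0 < Δ) (d0 : 0 < δ) (d1 : δ < 1) (hτ : 0 < τ)
    (d2 : 4 * (Δ + 17 * r) ^ 2 < τ ^ 2 * Real.log (1 / δ)) : ∃ ρ ∈ Ioo (Δ * δ) Δ,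
      ∀ z ∈ UH, ∀ w ∈ UH, ‖z‖ = ρ → ‖w‖ = ρ → ‖fm p t z - fm p t w‖ ≤ 16 * τ := by
  have r0 : 0 ≤ r := (norm_nonneg _).trans (hr 0 zero_le)
  obtain ⟨ρ, hρ, H⟩ := wolff_conn isOpen_UH (fm_hol (t := t) h) (fm_inj h) (0 : ℝ) (mul_pos hΔ d0)
    (mul_lt_of_lt_one_right hΔ d1) ((MeasureTheory.measure_mono
      (show _ ⊆ Metric.ball (0 : ℂ) (Δ + 17 * r) by
      rintro _ ⟨w, hw, rfl⟩
      have h1 := hm_move h hr (fm_mem h hw.1)
      have h2 : ‖w‖ < Δ := by simpa using hw.2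
      rw [hm_fm h hw.1, norm_sub_rev] at h1
      exact mem_ball_zero_iff.2 (by linarith [norm_sub_norm_le (fm p t w) w]))).trans
      (vol_ball _ (by positivity))) hτ (by rwa [div_mul_cancel_left₀ hΔ.ne', ← one_div])
  exact ⟨ρ, hρ, fun z hz w hw e e' => H _ (preconn_arc _ _) subset_rfl z ⟨hz, by simpa using e⟩ w
    ⟨hw, by simpa using e'⟩⟩

/-- the inverse map is continuous at the tip -/
theorem tip_inv (t : ℝ≥0) : Tendsto (fm p t) (𝓝[UH] 0) (𝓝 (p t)) := by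
  rcases (zero_le (a := t)).eq_or_lt with rfl | ht
  · have : Tendsto (fun z : ℂ => z + drv p 0) (𝓝[UH] 0) (𝓝 (p 0)) := by
      rw [← h.drv_zero]
      exact ((continuous_add_const _).tendsto' _ _ (zero_add _)).mono_left nhdsWithin_le_nhds
    refine this.congr' (eventually_mem_nhdsWithin.mono fun z hz => ?_)
    have e := hm_fm (t := 0) h hz
    rw [Og.hm, h.gm_zero (fm_mem h hz).1] at e
    exact (sub_eq_iff_eq_add.1 e).symm
  refine (nhds_basis_closedBall.restrict_subset (isOpen_UH.mem_nhds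
    (h.up t ht))).tendsto_right_iff.2 fun ε ⟨hε, hB⟩ => ?_
  obtain ⟨l, hl, h0⟩ := (mem_nhdsLE_iff_exists_Ioc_subset' ht).1 (nhdsWithin_le_nhds
    (h.cont.continuousAt.preimage_mem_nhds (closedBall_mem_nhds (p t) hε)))
  obtain ⟨s, hls, hs⟩ := exists_between (mem_Iio.1 hl)
  obtain ⟨η, ⟨η0, h2⟩, h3⟩ := (nhds_basis_closedBall.restrict (q := fun η => η ≤ ε) fun η η0 =>
    ⟨min η ε, lt_min η0 hε, min_le_right _ _,
      closedBall_subset_closedBall (min_le_left _ _)⟩).mem_iff.1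
    ((h.cpt s).isClosed.isOpen_compl.mem_nhds (x := p t)
      fun ⟨_, hu, e⟩ => hs.not_ge (h.inj e ▸ hu))
  obtain ⟨v, hv, h4⟩ := (mem_nhdsGE_iff_exists_Icc_subset).1 (nhdsWithin_le_nhds
    (h.cont.continuousAt.preimage_mem_nhds (closedBall_mem_nhds (p t) (half_pos η0))))
  obtain ⟨r, hr⟩ := exists_rad h t
  have h5 : 0 < ‖Og.hm p t (p v)‖ := norm_pos_iff.2 fun e => by
    simpa [e, mem_UH] using hm_mem h (h.mem_sl hv)
  obtain ⟨δ, d0, d1, d2⟩ := exists_delta (ε := η / 32) (M := 4 * (‖Og.hm p t (p v)‖ + 17 * r) ^ 2)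
    (by positivity)
  obtain ⟨ρ, hρ, H⟩ := cut h hr h5 d0 d1 (by positivity) d2
  have ρ0 : 0 < ρ := (mul_pos h5 d0).trans hρ.1
  have iv : ∀ C, IsPreconnected C → C ⊆ Sl p t → ∀ a ∈ C, ∀ b ∈ C, ‖Og.hm p t a‖ ≤ ρ →
      ρ ≤ ‖Og.hm p t b‖ → ∃ c ∈ C, ‖Og.hm p t c‖ = ρ := fun C hC hs a ha b hb h1 h2 =>
    hC.intermediate_value ha hb ((hm_cont h).mono hs).norm ⟨h1, h2⟩
  obtain ⟨w, w1, w2⟩ := ((((h.tendsto_drv t).sub_const (drv p t : ℂ)).norm.eventually_le_const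
    (by simpa using ρ0)).and (Ioc_mem_nhdsGT hv)).exists
  obtain ⟨_, ⟨x, hx, rfl⟩, x1⟩ := iv (p '' Ioc t v) (isPreconnected_Ioc.image _ h.cont.continuousOn)
    (image_subset_iff.2 fun x hx => h.mem_sl hx.1) _ ⟨w, w2, rfl⟩ _ ⟨v, ⟨hv, le_rfl⟩, rfl⟩ w1 hρ.2.le
  have := neBot_inf
  obtain ⟨b, ⟨b1, b2⟩, b3⟩ := ((((tendsto_nrm.comp (fm_inf (t := t) h)).eventually_gt_atTop (ε + ‖p t‖)).and
      (tendsto_nrm.eventually_ge_atTop ρ)).and (mem_inf_of_right (mem_principal_self UH))).exists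
  filter_upwards [self_mem_nhdsWithin, nhdsWithin_le_nhds (closedBall_mem_nhds 0 ρ0)] with z z1 z2
  refine mem_closedBall_iff_norm.2 (not_lt.1 fun c => ?_)
  obtain ⟨C, C1, C2, C3, C4⟩ := join h hs.le hB (image_subset_iff.2
    ((Icc_subset_Ioc_left hls).trans h0)) h2 (fun y hy => not_le.1 fun k =>
      h3 (mem_closedBall_iff_norm.2 k) ⟨y, hy, rfl⟩) (fm_mem h z1) (fm_mem h b3) c
    (by linarith [norm_sub_norm_le (fm p t b) (p t), show ε + ‖p t‖ < ‖fm p t b‖ from b1])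
  obtain ⟨y, y1, y2⟩ := iv C C1 (fun y hy => (C2 hy).1) _ C3 _ C4
    (by rw [hm_fm h z1]; simpa using z2) (by rwa [hm_fm h b3])
  have := H _ (hm_mem h (C2 y1).1) _ (hm_mem h (h.mem_sl hx.1)) y2 x1
  rw [fm_hm h (C2 y1).1, fm_hm h (h.mem_sl hx.1)] at this
  refine (C2 y1).2 (mem_closedBall_iff_norm.2 ?_)
  linarith [norm_sub_le_norm_sub_add_norm_sub y (p x) (p t),
    mem_closedBall_iff_norm.1 (h4 (Ioc_subset_Icc_self hx))]

/-- boundary points seen near the tip lie on the recent past -/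
lemma recent (hc : Cap p) (hu : u ≤ s) {ρ x : ℝ} (hA : Apart (Ge.rl (drv p)) ρ u s) (hx : |x| < ρ)
    {F : Ultrafilter ℂ} {z : ℂ} (hF : (F : Filter ℂ) ≤ 𝓝[Sl p s] z) (hz : z ∉ Sl p s)
    (hl : Tendsto (Og.hm p s) F (𝓝 x)) : z ∈ p '' Icc u s := by
  by_contra hn
  obtain ⟨t, rfl⟩ := exists_add_of_le hu
  obtain ⟨r, hr⟩ := exists_rad h u
  have ev : ∀ᶠ v in (F : Filter ℂ), v ∈ Sl p (u + t) := hF self_mem_nhdsWithin
  obtain ⟨y, -, y1⟩ := exit h hr (hF.trans (nhdsWithin_mono _ (Sl_anti p hu))) fun c => by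
    obtain ⟨v, hv, rfl⟩ := Sl_hull ⟨c.1, hz⟩
    exact hn ⟨v, ⟨not_lt.1 fun k => c.2 ⟨v, k.le, rfl⟩, hv⟩, rfl⟩
  by_cases y0 : y = 0
  · refine hn ⟨u, ⟨le_rfl, hu⟩, tendsto_nhds_unique (l := F) (f := fun v => v) ?_
      (tendsto_id'.2 (hF.trans nhdsWithin_le_nhds))⟩
    rw [y0, ofReal_zero] at y1
    exact ((tip_inv h u).comp y1).congr' (ev.mono fun v hv => fm_hm h (Sl_anti p hu hv))
  have k0 : ((y + drv p u : ℝ) : ℂ) ≠ shf p u 0 := by simpa [shf_zero] using y0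
  have k1 := (h.shf u).ok_real k0 t
  have k2 : Tendsto (gm p u) F (𝓝[UH] (y + drv p u : ℝ)) := tendsto_nhdsWithin_iff.2
    ⟨by simpa [Og.hm] using (y1.mono_right nhdsWithin_le_nhds).add_const (drv p u : ℂ),
      ev.mono fun v hv => (h.hyd u).maps (Sl_anti p hu hv)⟩
  have k3 := tendsto_nhds_unique (((((h.shf u).tendsto_ge k1).comp k2).congr'
    (ev.mono fun v hv => h.gm_shf hv)).sub_const (drv p (u + t) : ℂ)) hl
  have k4 := (h.shf u).sol (h.Cap_shf hc u) k1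
  have m : MapsTo (fun v : ℝ => v - u) (Icc (u : ℝ) (u + t : ℝ≥0)) (Icc (0 : ℝ) t) := fun v hv =>
    ⟨sub_nonneg.2 hv.1, sub_le_iff_le_add'.2 hv.2⟩
  have := hA (fun v => (ge (shf p u) (v - u).toNNReal (y + drv p u : ℝ)).re) fun v hv => by
    obtain ⟨a, b⟩ := k4 _ (m hv)
    have e1 : Ge.rl (drv (shf p u)) (v - u) = Ge.rl (drv p) v := by
      rw [Ge.rl, Ge.rl, h.drv_shf]
      congr 1
      refine NNReal.eq ?_
      rw [NNReal.coe_add, Real.coe_toNNReal _ (m hv).1, Real.coe_toNNReal _ (u.2.trans hv.1)]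
      ring
    have e2 := re_add_im (ge (shf p u) (v - u).toNNReal (y + drv p u : ℝ))
    rw [(h.shf u).ge_real k0, ofReal_zero, zero_mul, add_zero] at e2
    simp only [e1] at a b
    refine ⟨fun c => a (by rw [← e2, c]), ?_⟩
    have := reCLM.hasFDerivAt.comp_hasDerivWithinAt v (b.scomp v
      ((hasDerivAt_id' v).sub_const (u : ℝ)).hasDerivWithinAt m)
    rw [← e2, one_smul, reCLM_apply] at this
    norm_cast at this
  simp only [NNReal.coe_add, add_sub_cancel_left, Real.toNNReal_coe] at this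
  rw [← NNReal.coe_add, Ge.rl, Real.toNNReal_coe] at this
  have k5 := congrArg re k3
  rw [sub_re, ofReal_re, ofReal_re] at k5
  exact hx.not_ge (k5 ▸ this)

omit h in
theorem tipSt : TipSt := fun L T ρ l ρ0 l0 => by
  obtain ⟨δ, d0, d1, d2⟩ := exists_delta (ε := l / 16) (M := 4 * (ρ + 17 * (L + 3 * √T)) ^ 2)
    (by positivity)
  have m0 : 0 < min 1 (ρ * δ / 4) := by positivity
  refine ⟨min 1 (ρ * δ / 4) ^ 2, by positivity, fun p h hc u s s' hu hs hT hL hA h1 h2 => ?_⟩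
  have hr : ∀ v ≤ s, ‖p v‖ ≤ L + 3 * √T := fun v hv => by
    linarith [h.rad hc (fun v hv => hL v (hv.trans hs)) hv,
      Real.sqrt_le_sqrt ((NNReal.coe_le_coe.2 hs).trans hT)]
  obtain ⟨σ, hσ, H⟩ := cut h hr ρ0 d0 d1 (by positivity) d2
  have σ0 : 0 < σ := (mul_pos ρ0 d0).trans hσ.1
  have bd : ∀ a ∈ p '' Icc u s, ∀ b ∈ p '' Icc u s, ‖a - b‖ ≤ diam (p '' Icc u s) :=
    fun a ha b hb => dist_eq_norm a b ▸
      dist_le_diam_of_mem (isCompact_Icc.image h.cont).isBounded ha hb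
  obtain ⟨c, c1, c2⟩ : ∃ c ∈ p '' Icc u s, ∀ z ∈ UH, ‖z‖ = σ → ‖fm p s z - c‖ ≤ l := by
    have := mem_closure_iff_nhdsWithin_neBot.1 (show (σ : ℂ) ∈ closure (UH ∩ sphere 0 σ) from
      mem_closure_of_tendsto (f := fun θ : ℝ => σ * exp (θ * I)) (b := 𝓝[>] 0)
        ((Continuous.tendsto' (by fun_prop) _ _ (by simp)).mono_left nhdsWithin_le_nhds)
        (mem_of_superset (Ioo_mem_nhdsGT Real.pi_pos) fun θ hθ => ⟨by
          simpa [mem_UH, σ0] using Real.sin_pos_of_pos_of_lt_pi hθ.1 hθ.2, by simp [σ0.le]⟩))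
    have hF := Ultrafilter.of_le (𝓝[UH ∩ sphere 0 σ] (σ : ℂ))
    have ev := hF self_mem_nhdsWithin
    obtain ⟨w, -, w1, -, w2⟩ := entry (t := s) h (hF.trans (nhdsWithin_mono _ inter_subset_left))
      σ0.ne'
    refine ⟨w, recent h hc hu hA (x := σ) (by rw [abs_of_pos σ0]; exact hσ.2)
      (F := Ultrafilter.map _ _) w2 w1 (tendsto_map' ((tendsto_id'.2 (hF.trans
        nhdsWithin_le_nhds)).congr' (mem_of_superset ev fun v hv => (hm_fm h hv.1).symm))),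
      fun z hz e => le_of_tendsto ((w2.mono_right nhdsWithin_le_nhds).const_sub _).norm
        (mem_of_superset ev fun v hv => ?_)⟩
    exact (H z hz v hv.1 e (mem_sphere_zero_iff_norm.1 hv.2)).trans_eq (by ring)
  set V := fm p s '' (UH ∩ Metric.ball 0 σ) with hV
  have v1 : ∀ z ∈ V, z ∈ Sl p s ∧ ‖Og.hm p s z‖ < σ := by
    rintro _ ⟨z, hz, rfl⟩
    exact ⟨fm_mem h hz.1, by rw [hm_fm h hz.1]; exact mem_ball_zero_iff.1 hz.2⟩
  have v2 : ∀ z ∈ Sl p s, ‖Og.hm p s z‖ < σ → z ∈ V := fun z hz e =>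
    ⟨_, ⟨hm_mem h hz, mem_ball_zero_iff.2 e⟩, fm_hm h hz⟩
  have vo : IsOpen V := MP_1e9af3_an.isOpen_image_of_injOn isOpen_UH (fm_hol h) (fm_inj h)
    (isOpen_UH.inter isOpen_ball) inter_subset_left
  have fr : ∀ z ∈ frontier V, z ∈ p '' Icc u s ∨ ∃ w ∈ UH, ‖w‖ = σ ∧ fm p s w = z := fun z hz => by
    rw [vo.frontier_eq] at hz
    have := mem_closure_iff_nhdsWithin_neBot.1 hz.1
    have hF := Ultrafilter.of_le (𝓝[V] z)
    have hF' := hF.trans (nhdsWithin_mono _ fun v hv => (v1 v hv).1)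
    have le : ∀ y, Tendsto (Og.hm p s) (Ultrafilter.of (𝓝[V] z)) (𝓝 y) → ‖y‖ ≤ σ := fun y hy =>
      le_of_tendsto hy.norm (mem_of_superset (hF self_mem_nhdsWithin) fun v hv => (v1 v hv).2.le)
    by_cases k : z ∈ Sl p s
    · exact .inr ⟨_, hm_mem h k, (le _ ((hm_cont h z k).tendsto.mono_left hF')).antisymm
        (not_lt.1 fun e => hz.2 (v2 z k e)), fm_hm h k⟩
    · obtain ⟨x, -, x1⟩ := exit h hr hF' k
      have x2 := x1.mono_right nhdsWithin_le_nhds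
      exact .inl (recent h hc hu hA (lt_of_le_of_lt (by simpa using le _ x2) hσ.2) hF' k x2)
  have mx : ∀ b, (∀ a ∈ frontier V, ‖a - b‖ ≤ l + diam (p '' Icc u s)) →
      ∀ a ∈ closure V, ‖b - a‖ ≤ l + diam (p '' Icc u s) := fun b hb a ha =>
    norm_sub_rev a b ▸ norm_le_of_forall_mem_frontier_norm_le (f := fun z => z - b)
      (isBounded_iff_forall_norm_le.2 ⟨σ + 17 * (L + 3 * √T), fun z hz => by
        have := hm_move h hr (v1 z hz).1
        rw [norm_sub_rev] at this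
        linarith [norm_sub_norm_le z (Og.hm p s z), (v1 z hz).2]⟩)
      (Differentiable.diffContOnCl (by fun_prop)) hb ha
  have d0' := diam_nonneg (s := p '' Icc u s)
  have in1 : ∀ v ∈ Ioc s s', p v ∈ V := fun v hv => v2 _ (h.mem_sl hv.1) (by
    have h3 : √(s' - s) ≤ min 1 (ρ * δ / 4) := Real.sqrt_le_iff.2 ⟨m0.le, by linarith⟩
    rw [Og.hm]
    nlinarith [h.rad_shf hc h2 hv, hσ.1, min_le_left 1 (ρ * δ / 4), min_le_right 1 (ρ * δ / 4)])
  have in2 : p '' Icc s s' ⊆ closure V := by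
    rintro _ ⟨v, hv, rfl⟩
    rcases hv.1.eq_or_lt with rfl | k
    · have := neBot_UH zero_UC
      exact mem_closure_of_tendsto (tip_inv h s) (mem_of_superset (inter_mem self_mem_nhdsWithin
        (nhdsWithin_le_nhds (ball_mem_nhds 0 σ0))) fun z hz => ⟨z, hz, rfl⟩)
    · exact subset_closure (in1 v ⟨k, hv.2⟩)
  refine diam_le_of_forall_dist_le (by positivity) fun a ha b hb => dist_eq_norm a b ▸
    mx a (fun b hb => mx b (fun a ha => ?_) a (in2 ha)) b (in2 hb)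
  rcases fr a ha with k | ⟨w, w1, w2, rfl⟩ <;> rcases fr b hb with k' | ⟨w', w3, w4, rfl⟩
  · linarith [bd a k b k']
  · linarith [norm_sub_le_norm_sub_add_norm_sub a c (fm p s w'), bd a k c c1,
      norm_sub_rev c (fm p s w'), c2 w' w3 w4]
  · linarith [norm_sub_le_norm_sub_add_norm_sub (fm p s w) c b, bd c c1 b k', c2 w w1 w2]
  · linarith [H w w1 w' w3 w2 w4]

end Pool.Agent.Lib.MP_6359c9_pr.Mdc
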