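import Pool.Agent.Lib.MP_6359c9_pr.Spec

/-! Decoupling of a box from the far field. -/

namespace Pool.Agent.Lib.MP_6359c9_pr

open Set Filter Topology

/-- exploration from `O`: beyond a double plus separator the inside is decoupled -/
lemma mx_step {ρ : V → Set Bool} {W I O : Set V} (ht : Tame ρ W) {G F : Cf → ℝ} {e c : ℝ}
    (c0 : 0 ≤ c) (hG : DependsOn G I) (hF : DependsOn F O) (G1 : ∀ w, |G w| ≤ 1)
    (F1 : ∀ w, |F w| ≤ 1) (e1 : |e| ≤ 1)
    (h : ∀ x ∈ MS ρ W, (∀ v ∈ RK true O x, v ∉ I) →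
      |Ex (MS (aft ρ (RK true O x) true) W) G - e| ≤ c) :
    |Ex (MS ρ W) (fun w => G w * F w) - e * Ex (MS ρ W) F| ≤
      c + 2 * Pr (MS ρ W) (red ⁻¹' SepE true I O)ᶜ := by
  have e0 : Ex (MS ρ W) (fun w => G w * F w) - e * Ex (MS ρ W) F =
      Ex (MS ρ W) fun w => (G w - e) * F w := by
    rw [← ex_mul, ← ex_sub]
    exact ex_congr fun w _ => by ring
  rw [e0, ex_fib _ (RK true O), pr_eq, ← ex_mul, ← ex_const ht.ok c, ← ex_add]
  refine (abs_ex_le _ _).trans (ex_mono fun x hx => ?_)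
  have o : Ok (MS ρ W ∩ {y | RK true O y = RK true O x}) := Ok.inter ht.ok.1 hx rfl
  by_cases hx' : x ∈ red ⁻¹' SepE true I O
  · have hk : ∀ v ∈ RK true O x, v ∉ I := sep_iff.1 (Sep.symm hx')
    have d1 : DependsOn (fun w => G w - e) (RK true O x)ᶜ := fun y z ee => by
      simp only [hG fun v hv => ee v fun h' => hk v h' hv]
    have d2 : DependsOn F (RK true O x) := hF.mono (sub_NK _ _)
    have e2 := explore_tm ht hx (mem_univ x) (Dep.univ _) d1
    rw [inter_univ, ex_sub (Sp (tm (aft ρ (RK true O x) true) W)),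
      ex_const (ht.aft hx).ok] at e2
    have e3 : |Ex (MS ρ W ∩ {y | RK true O y = RK true O x}) F| ≤ 1 :=
      (abs_ex_le _ _).trans (ex_le o fun y _ => F1 y)
    rw [explore_indep (tm ρ W) true O x d1 d2, e2, abs_mul,
      indicator_of_notMem (not_not.2 hx'), mul_zero, add_zero]
    exact (mul_le_mul (h x hx hk) e3 (abs_nonneg _) c0).trans (mul_one c).le
  · rw [indicator_of_mem hx', Pi.one_apply]
    refine (abs_ex_le _ _).trans (ex_le o fun y _ => ?_)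
    have a := abs_sub (G y) e
    rw [abs_mul]
    nlinarith [G1 y, F1 y, abs_nonneg (F y), abs_nonneg (G y - e)]

lemma mx_dep {S : Set V} {F : Cf → ℝ} (h : Lcl S F) (F1 : ∀ w ∈ Val, |F w| ≤ 1) :
    ∃ F' : Cf → ℝ, DependsOn F' S ∧ (∀ w ∈ Val, F' w = F w) ∧ ∀ w, |F' w| ≤ 1 := by
  obtain ⟨F', d, e, r⟩ := h.exists_dep
  refine ⟨F', d, e, fun w => ?_⟩
  rcases r w with r | ⟨w', hw', r⟩
  · rw [r, abs_zero]; exact zero_le_one
  · rw [r]; exact F1 w' hw'

/-- decoupling with an intermediate scale -/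
lemma mx_mid : ∃ C α : ℝ, 0 < C ∧ 0 < α ∧ ∀ (ρ : V → Set Bool) (W : Set V) (x : V) (n m N : ℤ)
    (G F : Cf → ℝ), Tame ρ W → 1 ≤ n → n ≤ m → Free ρ W (Bx x N) → Lcl (Bx x n) G →
    Lcl (Bx x N)ᶜ F → (∀ w ∈ Val, |G w| ≤ 1) → (∀ w ∈ Val, |F w| ≤ 1) →
    |Ex (MS ρ W) (fun w => G w * F w) - Einf G * Ex (MS ρ W) F| ≤
      C * (((n : ℝ) / m) ^ α + (((m + 3 : ℤ) : ℝ) / N) ^ α) ∨ N < m + 3 := by
  obtain ⟨C, α, hC, hα, hm⟩ := mix_red
  obtain ⟨C', α', hC', hα', ha⟩ := arm_tm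
  refine ⟨C + 2 * C', min α α', by positivity, lt_min hα hα',
    fun ρ W x n m N G F ht h1 h2 hf hG hF G1 F1 => ?_⟩
  rcases lt_or_ge N (m + 3) with h3 | h3
  · exact Or.inr h3
  left
  obtain ⟨G', dG, eG, bG⟩ := mx_dep hG G1
  obtain ⟨F', dF, eF, bF⟩ := mx_dep hF F1
  have e1 : |Einf G| ≤ 1 := abs_Einf_le ⟨_, Bx_finite _ _, subset_univ _, hG⟩
    (Eventually.of_forall fun R => (abs_ex_le _ _).trans
      (ex_le (ok_PP (ball_finite _ _)) fun w hw => G1 w (Sp_val hw)))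
  have n0 : (0 : ℝ) < n := by exact_mod_cast h1
  have nm : (n : ℝ) ≤ m := by exact_mod_cast h2
  have m0 : (0 : ℝ) < ((m + 3 : ℤ) : ℝ) := by exact_mod_cast (show 0 < m + 3 by omega)
  have mN : ((m + 3 : ℤ) : ℝ) ≤ N := by exact_mod_cast h3
  have q0 : (0 : ℝ) < n / m := div_pos n0 (n0.trans_le nm)
  have q1 : (n : ℝ) / m ≤ 1 := (div_le_one (n0.trans_le nm)).2 nm
  have p0 : (0 : ℝ) < ((m + 3 : ℤ) : ℝ) / N := div_pos m0 (m0.trans_le mN)
  have p1 : ((m + 3 : ℤ) : ℝ) / N ≤ 1 := (div_le_one (m0.trans_le mN)).2 mN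
  have r1 := Real.rpow_le_rpow_of_exponent_ge q0 q1 (min_le_left α α')
  have r2 := Real.rpow_le_rpow_of_exponent_ge p0 p1 (min_le_right α α')
  have r3 := Real.rpow_pos_of_pos q0 (min α α')
  have r4 := Real.rpow_pos_of_pos p0 (min α α')
  have a := mx_step (I := Bx x (m + 3)) (O := (Bx x N)ᶜ) ht (c := 1 * C * ((n : ℝ) / m) ^ α)
    (by positivity) (dG.mono (Bx_mono (by omega))) dF bG bF e1 fun y hy hk => by
      rw [ex_congr fun w hw => eG w (Sp_val hw)]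
      refine (hm x n m G 1 h1 h2 hG G1).2 _ W (ht.aft hy) fun v hv => ?_
      have hv' := hf v (Bx_mono (by omega) hv)
      refine ⟨eq_univ_of_forall fun a => ⟨fun hc => ?_, fun _ => hv'.1 ▸ mem_univ a⟩, hv'.2⟩
      exfalso
      rcases hc with hc | ⟨u, hu, e⟩
      · exact hk v hc (Bx_mono (by omega) hv)
      · exact hk u hu (by
          have := cl_Bx x (m + 2) (mem_cl hv e.symm)
          rwa [show m + 2 + 1 = m + 3 by ring] at this)
  have b := ha true ρ W x (m + 3) N ht (by omega) h3 fun v hv _ => hf v hv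
  rw [ex_congr (g := fun w => G w * F w) fun w hw => by rw [eG w (Sp_val hw), eF w (Sp_val hw)],
    ex_congr fun w hw => eF w (Sp_val hw)] at a
  refine a.trans ?_
  nlinarith [mul_le_mul_of_nonneg_left r1 hC.le, mul_le_mul_of_nonneg_left r2 hC'.le,
    mul_pos hC r4, mul_pos hC' r3]

/-- decoupling of a box from the far field -/
theorem mixSt : MixSt := by
  obtain ⟨C, α, hC, hα, h⟩ := mx_mid
  refine ⟨(2 * C + 2) * 5 ^ α, α / 2, by positivity, by positivity,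
    fun ρ W x n N G F ht h1 h2 hf hG hF G1 F1 => ?_⟩
  have n1 : (1 : ℝ) ≤ n := by exact_mod_cast h1
  have nN : (n : ℝ) ≤ N := by exact_mod_cast h2
  have N0 : (0 : ℝ) < N := by linarith
  set s : ℝ := √((n : ℝ) / N) with hs
  have q0 : (0 : ℝ) < n / N := by positivity
  have s0 : 0 < s := Real.sqrt_pos.2 q0
  have s2 : s * s * N = n := by
    rw [hs, Real.mul_self_sqrt q0.le]; field_simp
  have s1 : s ≤ 1 := Real.sqrt_le_one.2 ((div_le_one N0).2 nN)
  have t1 : (n : ℝ) ≤ s * N := by nlinarith [mul_pos s0 N0]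
  have e : ((n : ℝ) / N) ^ (α / 2) = s ^ α := by
    rw [hs, Real.sqrt_eq_rpow, ← Real.rpow_mul q0.le]
    congr 1
    ring
  have e5 : (5 * s) ^ α = 5 ^ α * s ^ α := Real.mul_rpow (by norm_num) s0.le
  have m1 := Int.le_ceil (s * N)
  have m2 := Int.ceil_lt_add_one (s * N)
  set m : ℤ := ⌈s * N⌉ with hm
  have m3 : ((m + 3 : ℤ) : ℝ) ≤ 5 * s * N := by push_cast; nlinarith
  have p5 : 0 < (5 * s) ^ α := by positivity
  rw [e, mul_assoc, ← e5]
  rcases h ρ W x n m N G F ht h1 (by exact_mod_cast t1.trans m1) hf hG hF G1 F1 with a | a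
  · have m0 : (0 : ℝ) < m := by linarith
    have b1 : ((n : ℝ) / m) ^ α ≤ (5 * s) ^ α :=
      Real.rpow_le_rpow (by positivity) (by rw [div_le_iff₀ m0]; nlinarith) hα.le
    have b2 : (((m + 3 : ℤ) : ℝ) / N) ^ α ≤ (5 * s) ^ α :=
      Real.rpow_le_rpow (div_nonneg (by push_cast; linarith) N0.le) ((div_le_iff₀ N0).2 m3) hα.le
    refine a.trans ?_
    nlinarith [mul_le_mul_of_nonneg_left (add_le_add b1 b2) hC.le]
  · have a' : (N : ℝ) < ((m + 3 : ℤ) : ℝ) := by exact_mod_cast a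
    have b : 1 ≤ (5 * s) ^ α := Real.one_le_rpow (by nlinarith) hα.le
    have e1 : |Einf G| ≤ 1 := abs_Einf_le ⟨_, Bx_finite _ _, subset_univ _, hG⟩
      (Eventually.of_forall fun R => (abs_ex_le _ _).trans
        (ex_le (ok_PP (ball_finite _ _)) fun w hw => G1 w (Sp_val hw)))
    have e2 : |Ex (MS ρ W) F| ≤ 1 :=
      (abs_ex_le _ _).trans (ex_le ht.ok fun w hw => F1 w (Sp_val hw))
    have e3 : |Ex (MS ρ W) fun w => G w * F w| ≤ 1 :=
      (abs_ex_le _ _).trans (ex_le ht.ok fun w hw => by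
        rw [abs_mul]
        exact mul_le_one₀ (G1 w (Sp_val hw)) (abs_nonneg _) (F1 w (Sp_val hw)))
    have e4 := abs_sub (Ex (MS ρ W) fun w => G w * F w) (Einf G * Ex (MS ρ W) F)
    rw [abs_mul] at e4
    have e6 := mul_le_one₀ e1 (abs_nonneg _) e2
    nlinarith [mul_pos hC p5]

end Pool.Agent.Lib.MP_6359c9_pr
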