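import Pool.Agent.Lib.MP_6359c9_pr.SpecK
import Pool.Agent.Lib.MP_6359c9_pr.Osc

/-! Moments and covariances of linear statistics of the heights. -/

namespace Pool.Agent.Lib.MP_6359c9_pr

open Set Filter Topology

/-- moments of a variable whose index is random with a geometric tail -/
lemma ex_rand (p : ℕ) {θ C1 C2 : ℝ} (h0 : 0 ≤ θ) (h1 : θ < 1) (c1 : 0 ≤ C1) (c2 : 0 ≤ C2) :
    ∃ C : ℝ, 1 ≤ C ∧ ∀ (M : Set Cf) (k : Cf → ℕ) (T : ℕ → Cf → ℝ) (L : ℝ), 0 ≤ L →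
      (∀ i, Pr M {w | k w = i} ≤ C1 * θ ^ i) →
      (∀ i : ℕ, Ex M (fun w => T i w ^ 2) ≤ C2 * ((1 + i) ^ p * L) ^ 2) →
      Ex M (fun w => T (k w) w) ≤ C * L := by
  set τ := (1 + θ) / 2 with hτ
  have t0 : 0 < τ := by positivity
  have t1 : τ < 1 := by linarith
  have t2 : θ ≤ τ ^ 2 := by rw [hτ]; nlinarith [sq_nonneg (1 - θ)]
  have sm : Summable fun i : ℕ => (1 + (i : ℝ)) ^ p * τ ^ i := by
    have := ((summable_nat_add_iff 1).2 (summable_pow_mul_geometric_of_norm_lt_one p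
      (r := τ) (by rw [Real.norm_eq_abs, abs_of_pos t0]; exact t1))).mul_left τ⁻¹
    refine this.congr fun i => ?_
    push_cast
    field_simp
    ring
  set S := ∑' i : ℕ, (1 + (i : ℝ)) ^ p * τ ^ i
  have s0 : 0 ≤ S := tsum_nonneg fun i => by positivity
  refine ⟨1 + (C1 + C2) * S, by nlinarith [mul_nonneg (add_nonneg c1 c2) s0],
    fun M k T L hL hk hT => ?_⟩
  by_cases ok : Ok M
  swap
  · rw [ex_nok ok]; positivity
  obtain ⟨I, hI⟩ := (ok.1.image k).bddAbove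
  have e : ∀ w ∈ M, T (k w) w =
      ∑ i ∈ Finset.range (I + 1), {w | k w = i}.indicator 1 w * T i w := fun w hw => by
    rw [Finset.sum_eq_single (k w) (fun i _ h => by
        rw [indicator_of_notMem (show w ∉ {x | k x = i} from Ne.symm h), zero_mul])
      fun h => absurd (Finset.mem_range.2 (Nat.lt_succ_of_le (hI ⟨w, hw, rfl⟩))) h,
      indicator_of_mem (show w ∈ {x | k x = k w} from rfl), Pi.one_apply, one_mul]
  rw [ex_congr e, ex_sum]
  have b : ∀ i : ℕ, Ex M (fun w => {w | k w = i}.indicator 1 w * T i w) ≤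
      (C1 + C2) * L * ((1 + (i : ℝ)) ^ p * τ ^ i) := fun i => by
    refine le_of_sq_le_sq ((ex_mul_sq_le M _ _).trans ?_) (by positivity)
    have a1 : Ex M (fun w => {w | k w = i}.indicator (1 : Cf → ℝ) w ^ 2) ≤ C1 * (τ ^ i) ^ 2 := by
      rw [ex_congr (g := {w | k w = i}.indicator 1) fun w _ => by
        by_cases h : w ∈ {w | k w = i} <;> simp [h], ← pr_eq, ← pow_mul, mul_comm i, pow_mul]
      exact (hk i).trans (by gcongr)
    refine (mul_le_mul a1 (hT i) (ex_nonneg fun _ _ => sq_nonneg _) (by positivity)).trans ?_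
    have : C1 * C2 ≤ (C1 + C2) ^ 2 := by nlinarith [mul_nonneg c1 c2]
    calc _ = C1 * C2 * (L * ((1 + (i : ℝ)) ^ p * τ ^ i)) ^ 2 := by ring
      _ ≤ (C1 + C2) ^ 2 * (L * ((1 + (i : ℝ)) ^ p * τ ^ i)) ^ 2 := by gcongr
      _ = _ := by ring
  refine (Finset.sum_le_sum fun i _ => b i).trans ?_
  rw [← Finset.mul_sum]
  have := sm.sum_le_tsum (Finset.range (I + 1)) fun i _ => by positivity
  have := mul_le_mul_of_nonneg_left this (mul_nonneg (add_nonneg c1 c2) hL)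
  nlinarith

/-- tail of the first index at which an event occurs -/
lemma pr_first {M : Set Cf} {P : ℕ → Cf → Prop} {C θ : ℝ} (hC : 0 ≤ C) (h0 : 0 < θ)
    (h : ∀ i, Pr M {w | ¬P i w} ≤ C * θ ^ i) (i : ℕ) :
    Pr M {w | sInf {j | P j w} = i} ≤ (1 + C / θ) * θ ^ i := by
  cases i with
  | zero => exact (pr_le_one _ _).trans (by rw [pow_zero, mul_one]; linarith [div_nonneg hC h0.le])
  | succ i =>
    refine (pr_mono fun w _ hw => ?_).trans ((h i).trans ?_)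
    · exact Nat.notMem_of_lt_sInf (s := {j | P j w}) (by rw [show sInf _ = _ from hw]; omega)
    · rw [add_mul, pow_succ, show C / θ * (θ ^ i * θ) = C * θ ^ i by field_simp]
      linarith [mul_pos (pow_pos h0 i) h0]

lemma log_dy {A B : ℝ} (i : ℕ) (hA : 0 < A) (hB : 1 ≤ B) (h : A ≤ 2 ^ i * B) :
    1 + Real.log A ≤ (1 + i) * (1 + Real.log B) := by
  have h1 := Real.log_le_log hA h
  rw [Real.log_mul (by positivity) (by positivity), Real.log_pow] at h1
  have h2 : Real.log 2 ≤ 1 := by linarith [Real.log_two_lt_d9]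
  have h3 := Real.log_nonneg hB
  have h4 : (0 : ℝ) ≤ i := by positivity
  nlinarith [mul_nonneg h4 h3, mul_le_mul_of_nonneg_left h2 h4]

/-- no double plus ring between two scales of ratio `2 ^ i` -/
lemma arm_dy : ∃ C θ : ℝ, 0 ≤ C ∧ 0 < θ ∧ θ < 1 ∧ ∀ (ρ : V → Set Bool) (W : Set V) (x : V)
    (n N : ℤ) (i : ℕ), Tame ρ W → 1 ≤ n → 2 ^ i * n ≤ N → Free ρ W (Bx x N) →
    Pr (MS ρ W) {w | ¬Sep (lev (red w) true) (Bx x n) (Bx x N)ᶜ} ≤ C * θ ^ i := by
  obtain ⟨C, α, hC, hα, h⟩ := arm_tm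
  refine ⟨C, (1 / 2) ^ α, hC.le, by positivity, Real.rpow_lt_one (by norm_num) (by norm_num) hα,
    fun ρ W x n N i hT hn hN hF => ?_⟩
  have p : (1 : ℤ) ≤ 2 ^ i := one_le_pow₀ (by norm_num)
  have hN' : n ≤ N := by nlinarith
  refine (h true ρ W x n N hT hn hN' fun v hv _ => hF v hv).trans ?_
  have n0 : (0 : ℝ) < n := by exact_mod_cast (by omega : 0 < n)
  have N0 : (0 : ℝ) < N := by exact_mod_cast (by omega : 0 < N)
  have : (2 : ℝ) ^ i * n ≤ N := by exact_mod_cast hN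
  rw [← Real.rpow_natCast, ← Real.rpow_mul (by norm_num), mul_comm α, Real.rpow_mul (by norm_num),
    Real.rpow_natCast]
  gcongr
  rw [div_pow, one_pow, div_le_div_iff₀ N0 (by positivity)]
  linarith

/-- the largest screened dyadic radius below `m` -/
noncomputable def rad (u : V) (m : ℤ) (w : Cf) : ℤ :=
  m / 2 ^ sInf {i : ℕ | Scr w u (m / 2 ^ i) (Bx u m)ᶜ}

lemma scr_rad (u : V) {m : ℤ} (hm : 0 ≤ m) (w : Cf) : Scr w u (rad u m w) (Bx u m)ᶜ := by
  obtain ⟨i, hi⟩ := pow_unbounded_of_one_lt m (by norm_num : (1 : ℤ) < 2)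
  exact Nat.sInf_mem (s := {i : ℕ | Scr w u (m / 2 ^ i) (Bx u m)ᶜ})
    ⟨i, Or.inl (Int.ediv_eq_zero_of_lt hm hi)⟩

/-- the exploration time from `O` to the largest screened box around `u` -/
noncomputable def ZZ (O : Set V) (u : V) (m : ℤ) (w : Cf) : ℝ := Tn O (Bx u (rad u m w)) w + 1

lemma one_le_ZZ (O : Set V) (u : V) (m : ℤ) (w : Cf) : 1 ≤ ZZ O u m w :=
  le_add_of_nonneg_left (Nat.cast_nonneg _)

lemma zz_mom (ht : TtSt) (p : ℕ) : ∃ C : ℝ, 1 ≤ C ∧ ∀ (ρ : V → Set Bool) (W D : Set V) (u : V)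
    (m N : ℤ), Tame ρ W → CoConn D → Free ρ W D → 0 ≤ m → m ≤ N → Bx u m ⊆ D →
    (∃ o, o ∉ D ∧ o ∈ Bx u N) →
    Ex (MS ρ W) (fun w => ZZ Dᶜ u m w ^ p) ≤ C * (1 + Real.log ((N + 1) / (m + 1))) ^ p := by
  obtain ⟨C1, θ, c1, t0, t1, ha⟩ := arm_dy
  obtain ⟨C2, c2, ht⟩ := ht (p * 2)
  obtain ⟨C, hC, h⟩ := ex_rand p t0.le t1 (by positivity : 0 ≤ 1 + C1 / θ) c2.le
  refine ⟨C, hC, fun ρ W D u m N hT hD hF m0 mN hm ho => ?_⟩
  have m1 : (0 : ℝ) ≤ m := by exact_mod_cast m0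
  have m2 : (m : ℝ) ≤ N := by exact_mod_cast mN
  have l1 : (1 : ℝ) ≤ (N + 1) / (m + 1) := by rw [le_div_iff₀ (by positivity)]; linarith
  have l0 := Real.log_nonneg l1
  refine h _ (fun w => sInf {i : ℕ | Scr w u (m / 2 ^ i) (Bx u m)ᶜ})
    (fun i w => ((Tn Dᶜ (Bx u (m / 2 ^ i)) w : ℝ) + 1) ^ p) _ (by positivity)
    (pr_first c1 t0 fun i => ?_) fun i => ?_
  · by_cases z : m / 2 ^ i = 0
    · exact (pr_none fun w _ (hw : ¬_) => hw (Or.inl z)).trans_le (by positivity)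
    have r0 : 0 ≤ m / 2 ^ i := Int.ediv_nonneg m0 (by positivity)
    refine le_trans (pr_mono fun w _ (hw : ¬_) (s : Sep _ _ _) => hw (Or.inr ⟨r0, true, s⟩))
      (ha ρ W u (m / 2 ^ i) m i hT (by omega) (Int.mul_ediv_self_le (by positivity))
        fun v hv => hF v (hm hv))
  · have r0 : 0 ≤ m / 2 ^ i := Int.ediv_nonneg m0 (by positivity)
    have r1 : m / 2 ^ i ≤ N := (Int.ediv_le_self _ m0).trans mN
    have r2 : m + 1 ≤ 2 ^ i * (m / 2 ^ i + 1) := by
      have := Int.lt_mul_ediv_self_add (x := m) (k := 2 ^ i) (by positivity)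
      linarith
    simp only [← pow_mul]
    refine (ht ρ W Dᶜ u (m / 2 ^ i) N hT (by rwa [compl_compl]) (by rwa [compl_compl]) r0 r1
      ho).trans ?_
    generalize m / 2 ^ i = r at *
    have r3 : (0 : ℝ) ≤ r := by exact_mod_cast r0
    have r4 : (r : ℝ) ≤ N := by exact_mod_cast r1
    have r5 : (m : ℝ) + 1 ≤ 2 ^ i * (r + 1) := by exact_mod_cast r2
    have l2 : (1 : ℝ) ≤ (N + 1) / (r + 1) := by rw [le_div_iff₀ (by positivity)]; linarith
    have l3 := Real.log_nonneg l2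
    rw [← mul_pow, ← pow_mul]
    gcongr
    refine log_dy i (by positivity) l1 ?_
    rw [← mul_div_assoc, div_le_div_iff₀ (by positivity) (by positivity)]
    nlinarith

/-- Jensen inequality for a weighted sum -/
lemma ex_pow_sum_le {ι : Type} (M : Set Cf) (s : Finset ι) (c L : ι → ℝ) (Y : ι → Cf → ℝ) (q : ℕ)
    {C : ℝ} (hC : 1 ≤ C) (hc : ∀ i ∈ s, 0 ≤ c i) (hL : ∀ i ∈ s, 0 < L i)
    (hY : ∀ i ∈ s, ∀ w, 0 ≤ Y i w) (h : ∀ i ∈ s, Ex M (fun w => Y i w ^ q) ≤ C * L i ^ q) :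
    Ex M (fun w => (∑ i ∈ s, c i * Y i w) ^ q) ≤ C * (∑ i ∈ s, c i * L i) ^ q := by
  have p : ∀ i ∈ s, 0 ≤ c i * L i := fun i hi => mul_nonneg (hc i hi) (hL i hi).le
  by_cases ok : Ok M
  swap
  · rw [ex_nok ok]; exact mul_nonneg (by linarith) (pow_nonneg (Finset.sum_nonneg p) _)
  rcases (Finset.sum_nonneg p).eq_or_lt with S0 | S0
  · have z : ∀ i ∈ s, c i = 0 := fun i hi =>
      (mul_eq_zero.1 ((Finset.sum_eq_zero_iff_of_nonneg p).1 S0.symm i hi)).resolve_right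
        (hL i hi).ne'
    rw [← S0]
    refine ex_le ok fun w _ => ?_
    rw [Finset.sum_eq_zero fun i hi => by rw [z i hi, zero_mul]]
    exact le_mul_of_one_le_left (by positivity) hC
  set S := ∑ i ∈ s, c i * L i
  have k : ∀ w, (∑ i ∈ s, c i * Y i w) ^ q ≤
      ∑ i ∈ s, (S ^ q * (c i * L i / S) / L i ^ q) * Y i w ^ q := fun w => by
    have := Real.pow_arith_mean_le_arith_mean_pow s (fun i => c i * L i / S) (fun i => Y i w / L i)
      (fun i hi => div_nonneg (p i hi) S0.le) (by rw [← Finset.sum_div, div_self S0.ne'])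
      (fun i hi => div_nonneg (hY i hi w) (hL i hi).le) q
    calc _ = S ^ q * (∑ i ∈ s, c i * L i / S * (Y i w / L i)) ^ q := by
          rw [← mul_pow, Finset.mul_sum]
          refine congrArg (· ^ q) (Finset.sum_congr rfl fun i hi => ?_)
          have := (hL i hi).ne'
          field_simp
      _ ≤ S ^ q * _ := mul_le_mul_of_nonneg_left this (by positivity)
      _ = _ := by
          rw [Finset.mul_sum]
          refine Finset.sum_congr rfl fun i hi => ?_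
          rw [div_pow]; ring
  refine (ex_mono fun w _ => k w).trans ?_
  rw [ex_sum]
  calc _ ≤ ∑ i ∈ s, C * S ^ q * (c i * L i / S) := Finset.sum_le_sum fun i hi => by
        have := hL i hi
        have := p i hi
        rw [ex_mul]
        refine (mul_le_mul_of_nonneg_left (h i hi) (by positivity)).trans (le_of_eq ?_)
        field_simp
    _ = _ := by rw [← Finset.mul_sum, ← Finset.sum_div, div_self S0.ne', mul_one]

/-- radius of two disjoint boxes around `u` and `v` -/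
def mrad (u v : V) : ℤ := max 0 ((ds u v - 1) / 2)

lemma mrad_comm (u v : V) : mrad u v = mrad v u := by rw [mrad, mrad, ds_comm]

lemma Lg_comm (N : ℤ) (u v : V) : Lg N u v = Lg N v u := by rw [Lg, Lg, ds_comm]

lemma ds_box {x u v : V} {n : ℤ} (hu : u ∈ Bx x n) (hv : v ∈ Bx x n) : ds u v ≤ 2 * n := by
  have := ds_tri u x v
  have := mem_Bx_ds.1 hu
  have := mem_Bx_ds.1 hv
  have := ds_comm x v
  omega

lemma mrad_box {x u v : V} {n : ℤ} (hu : u ∈ Bx x n) (hv : v ∈ Bx x n) :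
    mrad u v ≤ n ∧ Bx u (mrad u v) ⊆ Bx x (2 * n) := by
  have h1 := ds_box hu hv
  have h2 := mem_Bx_ds.1 hu
  have h3 := ds_nonneg u x
  have h : mrad u v ≤ n := by unfold mrad; omega
  refine ⟨h, fun y hy => mem_Bx_ds.2 ?_⟩
  have := ds_tri y u x
  have := mem_Bx_ds.1 hy
  omega

lemma one_le_ratio {N : ℤ} {u v : V} (h : ds u v ≤ 2 * N) :
    (1 : ℝ) ≤ (2 * N + 1) / (ds u v + 1) := by
  have h0 : (0 : ℝ) ≤ ds u v := by exact_mod_cast ds_nonneg u v
  have h1 : (ds u v : ℝ) ≤ 2 * N := by exact_mod_cast h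
  rw [le_div_iff₀ (by positivity)]; linarith

lemma one_le_Lg {N : ℤ} {u v : V} (h : ds u v ≤ 2 * N) : 1 ≤ Lg N u v :=
  le_add_of_nonneg_right (Real.log_nonneg (one_le_ratio h))

lemma log_mrad {N N' : ℤ} {u v : V} (i : ℕ) (h : ds u v ≤ 2 * N) (h0 : mrad u v ≤ N')
    (h1 : N' + 1 ≤ 2 ^ i * (2 * N + 1)) :
    0 ≤ 1 + Real.log ((N' + 1) / (mrad u v + 1)) ∧
      1 + Real.log ((N' + 1) / (mrad u v + 1)) ≤ (3 + i) * Lg N u v := by
  have d0 := ds_nonneg u v
  have m0 : (0 : ℝ) ≤ mrad u v := by exact_mod_cast le_max_left _ _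
  have m1 : (ds u v : ℝ) + 1 ≤ 4 * (mrad u v + 1) := by
    have : ds u v + 1 ≤ 4 * (mrad u v + 1) := by unfold mrad; omega
    exact_mod_cast this
  have m2 : (mrad u v : ℝ) ≤ N' := by exact_mod_cast h0
  have m3 : (N' : ℝ) + 1 ≤ 2 ^ i * (2 * N + 1) := by exact_mod_cast h1
  have d1 : (0 : ℝ) ≤ ds u v := by exact_mod_cast d0
  have l1 : (1 : ℝ) ≤ (N' + 1) / (mrad u v + 1) := by rw [le_div_iff₀ (by positivity)]; linarith
  refine ⟨by linarith [Real.log_nonneg l1], ?_⟩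
  have := log_dy (i + 2) (by positivity : (0 : ℝ) < (N' + 1) / (mrad u v + 1)) (one_le_ratio h) (by
    rw [← mul_div_assoc, div_le_div_iff₀ (by positivity) (by positivity), pow_add]
    nlinarith [mul_le_mul m3 m1 (by positivity) (by linarith)])
  refine this.trans (le_of_eq ?_)
  unfold Lg
  push_cast
  ring

/-- the estimates in terms of the moments of the exploration times -/
theorem mom_core (hk : KhiSt) (q : ℕ) {Cz : ℝ} (hz : 1 ≤ Cz) : ∃ C > (0 : ℝ),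
    ∀ (ρ : V → Set Bool) (W : Set V) (Uf : (V → Bool) → Set V) (o x : V) (n N : ℤ) (s : Finset V),
    Tame ρ W → (∀ r, Uf r ⊆ W ∧ CoConn (Uf r) ∧ o ∉ Uf r) → (∀ r, Bx x (2 * n) ⊆ Uf r) → n ≤ N →
    (s : Set V) ⊆ Bx x n → (∀ u ∈ s, ∀ v ∈ s, Ex (MS ρ W)
      (fun w => ZZ (Uf (red w))ᶜ u (mrad u v) w ^ (2 * q)) ≤ Cz * Lg N u v ^ (2 * q)) →
    ∀ f f' : V → ℝ, (∀ w ∈ MS ρ W, (∀ o', o' ∉ Uf (red w) → |gr w o' - gr w o| ≤ 1) ∨
      (∑ v ∈ s, f v = 0 ∧ ∃ b, Sep (lev (red w) b) (Bx x n) (Uf (red w))ᶜ)) →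
    Ex (MS ρ W) (fun w => lin s f o w ^ (2 * q)) ≤ C * Qf N s f f ^ q ∧
      (q = 1 → |Ex (MS ρ W) fun w => lin s f o w * lin s f' o w| ≤ C * Qf N s f f') := by
  obtain ⟨K, hK, hk⟩ := hk
  have K0 := hK q
  refine ⟨(K q + 1) * (2 * 36 ^ q * Cz), by positivity,
    fun ρ W Uf o x n N s hT hU hB nN hs hZ f f' hw => ?_⟩
  obtain ⟨G, Q, k1, k2, k3, k4, k5, k6⟩ := hk ρ W Uf o hT hU
  set Y : V × V → Cf → ℝ := fun p w =>
    ZZ (Uf (red w))ᶜ p.1 (mrad p.1 p.2) w * ZZ (Uf (red w))ᶜ p.2 (mrad p.2 p.1) w with hY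
  set SS : (V → ℝ) → Cf → ℝ := fun g w => ∑ p ∈ s ×ˢ s, |f p.1| * |g p.2| * Y p w with hSS
  have Y0 : ∀ p w, 0 ≤ Y p w := fun p w =>
    mul_nonneg (zero_le_one.trans (one_le_ZZ _ _ _ _)) (zero_le_one.trans (one_le_ZZ _ _ _ _))
  have m0 : ∀ u v, 0 ≤ mrad u v := fun u v => le_max_left _ _
  have dN : ∀ u ∈ s, ∀ v ∈ s, ds u v ≤ 2 * N := fun u hu v hv =>
    (ds_box (hs hu) (hs hv)).trans (by omega)
  have S0 : ∀ g w, 0 ≤ SS g w := fun g w => Finset.sum_nonneg fun p _ => by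
    have := Y0 p w
    positivity
  have S1 : ∀ g, Ex (MS ρ W) (fun w => SS g w ^ q) ≤ Cz * Qf N s f g ^ q := fun g => by
    have := ex_pow_sum_le (MS ρ W) (s ×ˢ s) (fun p => |f p.1| * |g p.2|) (fun p => Lg N p.1 p.2 ^ 2)
      Y q hz (fun _ _ => by positivity) (fun p hp => pow_pos (zero_lt_one.trans_le (one_le_Lg
        (dN _ (Finset.mem_product.1 hp).1 _ (Finset.mem_product.1 hp).2))) _)
      (fun p _ => Y0 p) fun p hp => by
        obtain ⟨h1, h2⟩ := Finset.mem_product.1 hp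
        have a1 := hZ _ h1 _ h2
        have a2 := hZ _ h2 _ h1
        rw [Lg_comm] at a2
        refine (ex_mono (g := fun w => 1 / 2 * (ZZ (Uf (red w))ᶜ p.1 (mrad p.1 p.2) w ^ (2 * q) +
          ZZ (Uf (red w))ᶜ p.2 (mrad p.2 p.1) w ^ (2 * q))) fun w _ => ?_).trans ?_
        · simp only [hY, mul_pow, pow_mul']
          nlinarith [sq_nonneg (ZZ (Uf (red w))ᶜ p.1 (mrad p.1 p.2) w ^ q -
            ZZ (Uf (red w))ᶜ p.2 (mrad p.2 p.1) w ^ q)]
        · rw [ex_mul, ex_add, ← pow_mul]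
          linarith
    rwa [Qf, ← Finset.sum_product']
  have q1 : ∀ g, ∀ w ∈ MS ρ W, ∑ u ∈ s, ∑ v ∈ s, |f u| * |g v| * Q w u v ≤ 36 * SS g w := by
    intro g w hw'
    rw [← Finset.sum_product', hSS, Finset.mul_sum]
    refine Finset.sum_le_sum fun p _ => ?_
    have := k4 w hw' p.1 p.2 _ _ (mrad p.1 p.2) (scr_rad p.1 (m0 _ _) w) (scr_rad p.2 (m0 _ _) w) (by
      by_cases z : mrad p.1 p.2 = 0
      · left; simp [rad, z]
      · refine Or.inr (disjoint_left.2 fun y h1 h2 => ?_)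
        have := ds_tri p.1 y p.2
        have := ds_comm p.1 y
        have := mem_Bx_ds.1 h1
        have := mem_Bx_ds.1 h2
        unfold mrad at *
        omega)
    have y0 := Y0 p w
    have e : Q w p.1 p.2 ≤ 36 * Y p w := by
      refine this.trans ?_
      simp only [hY, mrad_comm p.2 p.1] at y0 ⊢
      unfold ZZ at y0 ⊢
      linarith
    calc _ ≤ |f p.1| * |g p.2| * (36 * Y p w) := by gcongr
      _ = _ := by ring
  have g1 : ∀ g, ∀ w ∈ MS ρ W,
      |∑ v ∈ s, f v * G w v| * |∑ v ∈ s, g v * G w v| ≤ 36 * SS g w := by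
    intro g w hw'
    rcases hw w hw' with h | ⟨h, b, hb⟩
    · have a : ∀ u ∈ s, ∀ v ∈ s, |G w u| ≤ 6 * ZZ (Uf (red w))ᶜ u (mrad u v) w := by
        intro u hu v hv
        obtain ⟨o', h1, h2, -⟩ := k6 w hw' u (rad u (mrad u v) w) ((scr_rad u (m0 u v) w).imp_right
          fun ⟨r, b, hb⟩ => ⟨r, b, hb.mono subset_rfl subset_rfl
            (compl_subset_compl.2 ((mrad_box (hs hu) (hs hv)).2.trans (hB _)))⟩)
        have h3 : |(gr w o' : ℝ) - gr w o| ≤ 1 := by exact_mod_cast h o' h1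
        have h4 := one_le_ZZ (Uf (red w))ᶜ u (mrad u v) w
        have h5 := abs_sub_abs_le_abs_sub (G w u) (gr w o' - gr w o)
        unfold ZZ at h4 ⊢
        linarith
      refine (mul_le_mul (Finset.abs_sum_le_sum_abs _ _) (Finset.abs_sum_le_sum_abs _ _)
        (abs_nonneg _) (Finset.sum_nonneg fun _ _ => abs_nonneg _)).trans ?_
      rw [Finset.sum_mul_sum, ← Finset.sum_product', hSS, Finset.mul_sum]
      refine Finset.sum_le_sum fun p hp => ?_
      obtain ⟨h1, h2⟩ := Finset.mem_product.1 hp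
      have := mul_le_mul (a _ h1 _ h2) (a _ h2 _ h1) (abs_nonneg _)
        ((abs_nonneg _).trans (a _ h1 _ h2))
      rw [abs_mul, abs_mul]
      calc _ = |f p.1| * |g p.2| * (|G w p.1| * |G w p.2|) := by ring
        _ ≤ |f p.1| * |g p.2| * _ := mul_le_mul_of_nonneg_left this (by positivity)
        _ = _ := by simp only [hY]; ring
    · have : ∑ v ∈ s, f v * G w v = 0 := by
        rcases s.eq_empty_or_nonempty with rfl | ⟨u, hu⟩
        · simp
        · rw [Finset.sum_congr rfl fun v hv => by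
            rw [k5 w hw' _ b v u hb (Bx_conn (hs hv) (hs hu))], ← Finset.sum_mul, h, zero_mul]
      rw [this, abs_zero, zero_mul]
      linarith [S0 g w]
  have Q0 : ∀ g, 0 ≤ Qf N s f g := fun g =>
    Finset.sum_nonneg fun _ _ => Finset.sum_nonneg fun _ _ => by positivity
  refine ⟨(k1 q s f).trans ?_, fun e => (k2 s f f').trans ?_⟩
  · have : Ex (MS ρ W) (fun w => (∑ v ∈ s, f v * G w v) ^ (2 * q) +
        (∑ u ∈ s, ∑ v ∈ s, |f u| * |f v| * Q w u v) ^ q) ≤ 2 * 36 ^ q * (Cz * Qf N s f f ^ q) := by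
      refine (ex_mono (g := fun w => 2 * 36 ^ q * SS f w ^ q) fun w hw' => ?_).trans ?_
      · have a1 : (∑ v ∈ s, f v * G w v) ^ (2 * q) ≤ (36 * SS f w) ^ q := by
          rw [pow_mul]
          refine pow_le_pow_left₀ (sq_nonneg _) ?_ q
          rw [← sq_abs, sq]
          exact g1 f w hw'
        have a2 := pow_le_pow_left₀ (Finset.sum_nonneg fun u _ => Finset.sum_nonneg fun v _ => by
          have := k3 w u v
          positivity) (q1 f w hw') q
        rw [mul_pow] at a1 a2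
        linarith
      · rw [ex_mul]
        exact mul_le_mul_of_nonneg_left (S1 f) (by positivity)
    have a := pow_nonneg (Q0 f) q
    calc _ ≤ K q * (2 * 36 ^ q * (Cz * Qf N s f f ^ q)) := by gcongr
      _ ≤ (K q + 1) * (2 * 36 ^ q * (Cz * Qf N s f f ^ q)) := by gcongr; linarith
      _ = _ := by ring
  · subst e
    have a := S1 f'
    have b := Q0 f'
    simp only [pow_one] at a ⊢
    refine (ex_mono (g := fun w => 72 * SS f' w) fun w hw' => by
      linarith [g1 f' w hw', q1 f' w hw']).trans ?_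
    rw [ex_mul]
    nlinarith [mul_nonneg K0.le (mul_nonneg (zero_le_one.trans hz) b)]

lemma Bx_shift {x u o : V} {n N : ℤ} (hu : u ∈ Bx x n) (ho : o ∈ Bx x N) : o ∈ Bx u (N + n) := by
  rw [mem_Bx] at *
  omega

theorem momA (hk : KhiSt) (ht : TtSt) : MomASt := fun q => by
  obtain ⟨Cz, hz, hZ⟩ := zz_mom ht (2 * q)
  obtain ⟨C, hC, h⟩ := mom_core hk q (Cz := Cz * 3 ^ (2 * q))
    (one_le_mul_of_one_le_of_one_le hz (one_le_pow₀ (by norm_num)))
  refine ⟨C, hC, fun ρ W U x o n N s f hc ho h1 h2 hB hN hs => (h ρ W (fun _ => U) o x n N s hc.tame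
    (fun _ => ⟨fun v hv => (hc.free v hv).2, hc.co, ho⟩) (fun _ => hB) h2 hs
    (fun u hu v hv => ?_) f f fun w hw => Or.inl fun o' h' => hc.osc w hw o' h' o ho).1⟩
  obtain ⟨y, y1, y2⟩ := not_subset.1 hN
  obtain ⟨m1, m2⟩ := mrad_box (hs hu) (hs hv)
  obtain ⟨l1, l2⟩ := log_mrad (N := N) (N' := 2 * N) 0 ((ds_box (hs hu) (hs hv)).trans (by omega))
    (by omega) (by omega)
  refine (hZ ρ W U u (mrad u v) (2 * N) hc.tame hc.co hc.free (le_max_left _ _) (by omega) (m2.trans hB)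
    ⟨y, y2, Bx_mono (by omega) (Bx_shift (hs hu) y1)⟩).trans ?_
  rw [mul_assoc, ← mul_pow]
  refine mul_le_mul_of_nonneg_left (pow_le_pow_left₀ l1 (l2.trans (by simp)) _) (by linarith)

lemma lin_neutral {s : Finset V} {f : V → ℝ} (h : ∑ v ∈ s, f v = 0) (o o' : V) (w : Cf) :
    lin s f o w = lin s f o' w := by
  simp only [lin, mul_sub, Finset.sum_sub_distrib, ← Finset.sum_mul, h, zero_mul]

theorem mom_neutral (hk : KhiSt) (ht : TtSt) (q : ℕ) : ∃ C > (0 : ℝ),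
    ∀ (ρ : V → Set Bool) (W U : Set V) (x o : V) (n : ℤ) (s : Finset V) (f f' : V → ℝ),
    Clo ρ W U → 1 ≤ n → Bx x (2 * n) ⊆ U → (s : Set V) ⊆ Bx x n → ∑ v ∈ s, f v = 0 →
    ∑ v ∈ s, f' v = 0 → Ex (MS ρ W) (fun w => lin s f o w ^ (2 * q)) ≤ C * Qf n s f f ^ q ∧
      (q = 1 → |Ex (MS ρ W) fun w => lin s f o w * lin s f' o w| ≤ C * Qf n s f f') := by
  classical
  obtain ⟨Cz, hz, hZ⟩ := zz_mom ht (2 * q * 2)
  obtain ⟨C1, θ, c1, t0, t1, ha⟩ := arm_dy
  obtain ⟨C2, c2, hr⟩ := ex_rand (2 * q) t0.le t1 (by positivity : 0 ≤ 1 + C1 / θ)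
    (by positivity : 0 ≤ Cz * 4 ^ (2 * q * 2))
  obtain ⟨C, hC, h⟩ := mom_core hk q c2
  refine ⟨C, hC, fun ρ W U x o n s f f' hc h1 hB hs hf hf' => ?_⟩
  obtain ⟨o', ho'⟩ := hc.tame.fin.exists_notMem
  have UW : U ⊆ W := fun v hv => (hc.free v hv).2
  set D : ℕ → Set V := fun i => if Bx x (2 ^ (i + 1) * n) ⊆ U then Bx x (2 ^ (i + 1) * n) else U
    with hD
  set P : ℕ → (V → Bool) → Prop := fun i r => ¬Bx x (2 ^ (i + 1) * n) ⊆ U ∨
    Sep (lev r true) (Bx x n) (Bx x (2 ^ (i + 1) * n))ᶜ with hP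
  have p2 : ∀ i : ℕ, 2 * n ≤ 2 ^ (i + 1) * n ∧ 2 ^ i * n ≤ 2 ^ (i + 1) * n := fun i => by
    have : (1 : ℤ) ≤ 2 ^ i := one_le_pow₀ (by norm_num)
    rw [pow_succ]
    constructor <;> nlinarith
  have D1 : ∀ i, D i ⊆ U ∧ CoConn (D i) ∧ Bx x (2 * n) ⊆ D i ∧
      ∃ y, y ∉ D i ∧ y ∈ Bx x (2 ^ (i + 1) * n + 1) := fun i => by
    simp only [hD]
    split_ifs with k
    · refine ⟨k, Bx_coConn _ _, Bx_mono (p2 i).1, (x.1 + (2 ^ (i + 1) * n + 1), x.2), ?_, ?_⟩ <;>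
      · have := p2 i
        rw [mem_Bx]
        generalize 2 ^ (i + 1) * n = a at *
        dsimp only
        omega
    · obtain ⟨y, y1, y2⟩ := not_subset.1 k
      exact ⟨subset_rfl, hc.co, hB, y, y2, Bx_mono (by omega) y1⟩
  have P1 : ∀ r, P (sInf {i | P i r}) r := fun r => by
    refine Nat.sInf_mem (s := {i | P i r}) ?_
    obtain ⟨a, ha⟩ := exists_Bx hc.tame.fin x
    obtain ⟨i, hi⟩ := pow_unbounded_of_one_lt (a : ℤ) (by norm_num : (1 : ℤ) < 2)
    refine ⟨i, Or.inl fun k => ?_⟩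
    have t1 : (2 : ℤ) ^ i ≤ 2 ^ i * n := le_mul_of_one_le_right (by positivity) h1
    have t2 := (p2 i).2
    have := ha (UW (k (show (x.1 + (a + 1), x.2) ∈ _ from ?_)))
    all_goals
      rw [mem_Bx] at *
      dsimp only at *
      omega
  simp only [lin_neutral hf o o', lin_neutral hf' o o']
  refine h ρ W (fun r => D (sInf {i | P i r})) o' x n n s hc.tame
    (fun r => ⟨(D1 _).1.trans UW, (D1 _).2.1, fun k => ho' (UW ((D1 _).1 k))⟩)
    (fun r => (D1 _).2.2.1) le_rfl hs (fun u hu v hv => ?_) f f' fun w hw => ?_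
  · have d1 := ds_box (hs hu) (hs hv)
    have L1 := one_le_Lg d1
    refine hr _ (fun w => sInf {i | P i (red w)}) (fun i w => ZZ (D i)ᶜ u (mrad u v) w ^ (2 * q)) _
      (by positivity) (pr_first c1 t0 fun i => ?_) fun i => ?_
    · by_cases k : Bx x (2 ^ (i + 1) * n) ⊆ U
      · exact le_trans (pr_mono fun w _ (hw : ¬_) (s : Sep _ _ _) => hw (Or.inr s))
          (ha ρ W x n _ i hc.tame h1 (p2 i).2 fun v hv => hc.free v (k hv))
      · exact (pr_none fun w _ (hw : ¬_) => hw (Or.inl k)).trans_le (by positivity)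
    · obtain ⟨a1, a2, a3, y, y1, y2⟩ := D1 i
      obtain ⟨m1, m2⟩ := mrad_box (hs hu) (hs hv)
      have t := p2 i
      obtain ⟨l1, l2⟩ := log_mrad (N := n) (N' := 2 ^ (i + 1) * n + 1 + n) (i + 1) d1 (by omega) (by
        have : (2 : ℤ) ≤ 2 ^ (i + 1) := le_self_pow₀ (by norm_num) (by omega)
        nlinarith)
      simp only [← pow_mul]
      refine (hZ ρ W (D i) u (mrad u v) _ hc.tame a2 (fun v hv => hc.free v (a1 hv)) (le_max_left _ _)
        (by omega) (m2.trans a3) ⟨y, y1, Bx_shift (hs hu) y2⟩).trans ?_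
      rw [← mul_pow, ← pow_mul, mul_assoc Cz, ← mul_pow]
      refine mul_le_mul_of_nonneg_left (pow_le_pow_left₀ l1 (l2.trans ?_) _) (by linarith)
      have : (0 : ℝ) ≤ i := by positivity
      push_cast
      nlinarith
  · have := P1 (red w)
    simp only [hD]
    split_ifs with k
    · exact Or.inr ⟨hf, true, this.resolve_left (not_not.2 k)⟩
    · exact Or.inl fun y hy => hc.osc w hw y hy o' fun k => ho' (UW k)

theorem momN (hk : KhiSt) (ht : TtSt) : MomNSt := fun q => by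
  obtain ⟨C, hC, h⟩ := mom_neutral hk ht q
  exact ⟨C, hC, fun ρ W U x o n s f hc h1 hB hs hf => (h ρ W U x o n s f f hc h1 hB hs hf hf).1⟩

theorem covN (hk : KhiSt) (ht : TtSt) : CovNSt := by
  obtain ⟨C, hC, h⟩ := mom_neutral hk ht 1
  exact ⟨C, hC, fun ρ W U x o n s f f' hc h1 hB hs hf hf' =>
    (h ρ W U x o n s f f' hc h1 hB hs hf hf').2 rfl⟩

end Pool.Agent.Lib.MP_6359c9_pr
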