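import Pool.Agent.Lib.MP_6359c9_pr.SqB
import Pool.Agent.Lib.MP_6359c9_pr.CovQ

/-! Moment bounds for the height field paired with bounded functions. -/

namespace Pool.Agent.Lib.MP_6359c9_pr

open Set Filter Topology MeasureTheory Metric Pl

namespace MF

lemma dict (hc : ContSt) {Ω : Set ℂ} (A : Sq Ω) (n : ℕ) : ∃ ρ, Clo ρ (A.U n) (A.U n) ∧
    ∀ o, o ∉ A.U n → ∀ (c : ℂ) (r b : ℝ) (f : ℂ → ℝ) (S : Finset V), Tf c r b f → Cvr (A.δ n) f S →
    ∀ F : ℝ → ℝ, mean ((A.fld hc).S n) (fun g => F ((A.fld hc).X f n g)) =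
      Ex (MS ρ (A.U n)) fun w => F (2 * (lin S (Wt (A.δ n) f) o w -
        Ex (MS ρ (A.U n)) (lin S (Wt (A.δ n) f) o))) :=
  ⟨A.rho n, A.clo n, fun _ ho _ _ _ _ _ hf hS _ =>
    A.mean_M hc n fun _ hg => by rw [A.X_lin hc hf.int hS (Or.inl ho) hg]⟩

lemma jensen {Ω : Type} {M : Set Ω} (hM : Ok M) (f : Ω → ℝ) (q : ℕ) :
    Ex M f ^ (2 * q) ≤ Ex M fun x => f x ^ (2 * q) := by
  have p := hM.pos
  have := Real.pow_arith_mean_le_arith_mean_pow_of_even hM.1.toFinset (fun _ => 1 / (M.ncard : ℝ)) f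
    (fun _ _ => by positivity) (by
      rw [Finset.sum_const, ← ncard_eq_toFinset_card M hM.1, nsmul_eq_mul]; field_simp)
    (even_two_mul q)
  simp only [ex_eq hM.1, ← Finset.mul_sum] at *
  rwa [div_eq_inv_mul, div_eq_inv_mul (Finset.sum _ _), ← one_div]

lemma add_pow (a b : ℝ) (q : ℕ) : (a + b) ^ (2 * q) ≤ 4 ^ q * (a ^ (2 * q) + b ^ (2 * q)) := by
  refine (even_two_mul q).add_pow_le.trans (mul_le_mul_of_nonneg_right ?_
    (add_nonneg ((even_two_mul q).pow_nonneg a) ((even_two_mul q).pow_nonneg b)))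
  rw [show (4 : ℝ) ^ q = 2 ^ (2 * q) by rw [pow_mul]; norm_num]
  exact pow_le_pow_right₀ one_le_two (Nat.sub_le _ _)

lemma centred {Ω : Type} {M : Set Ω} (hM : Ok M) (f : Ω → ℝ) (q : ℕ) :
    Ex M (fun x => (2 * (f x - Ex M f)) ^ (2 * q)) ≤ 2 * 16 ^ q * Ex M fun x => f x ^ (2 * q) := by
  have h1 : Ex M (fun x => (2 * (f x - Ex M f)) ^ (2 * q)) ≤
      Ex M fun x => 16 ^ q * (f x ^ (2 * q) + Ex M f ^ (2 * q)) := ex_mono fun x _ => by
    have := add_pow (f x) (-Ex M f) q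
    rw [(even_two_mul q).neg_pow] at this
    rw [mul_pow, sub_eq_add_neg, show (16 : ℝ) ^ q = 2 ^ (2 * q) * 4 ^ q by
      rw [pow_mul, ← mul_pow]; norm_num, mul_assoc]
    exact mul_le_mul_of_nonneg_left this (by positivity)
  rw [ex_mul, ex_add, ex_const hM] at h1
  have := mul_le_mul_of_nonneg_left (jensen hM f q) (by positivity : (0 : ℝ) ≤ 16 ^ q)
  linarith

lemma log_sq {t T : ℝ} (h1 : 1 ≤ t) (h2 : t ≤ T) : (1 + Real.log t) ^ 2 ≤ 4 * T := by
  have h0 : 0 ≤ t := by linarith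
  have h3 := Real.log_le_sub_one_of_pos (Real.sqrt_pos.2 (by linarith : 0 < t))
  rw [Real.log_sqrt h0] at h3
  have h4 := Real.log_nonneg h1
  have h5 := Real.sq_sqrt h0
  nlinarith [pow_le_pow_left₀ (by linarith) (by linarith : 1 + Real.log t ≤ 2 * √t) 2]

variable {δ t : ℝ} {y v : V} {x : ℂ} {m : ℤ}

lemma to_box (hδ : 0 < δ) (hy : ‖pos δ y - x‖ ≤ δ) (hv : ‖pos δ v - x‖ ≤ t)
    (hm : 2 * (t + δ) ≤ m * δ) : v ∈ Bx y m := by
  have h1 := norm_pos_sub hδ v y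
  have h2 := nrm_le_norm_emb (v - y)
  have h3 := norm_sub_le (pos δ v - x) (pos δ y - x)
  rw [sub_sub_sub_cancel_right] at h3
  refine ball_sub_Bx y m ?_
  have : (nrm (v - y) : ℝ) ≤ m := le_of_mul_le_mul_right (by nlinarith) hδ
  exact_mod_cast this

lemma of_box (hδ : 0 < δ) (hy : ‖pos δ y - x‖ ≤ δ) (hv : v ∈ Bx y m) :
    ‖pos δ v - x‖ ≤ 2 * (m * δ) + δ := by
  have h1 := norm_pos_sub hδ v y
  have h2 := norm_emb_le (v - y)
  have h3 := norm_sub_le_norm_sub_add_norm_sub (pos δ v) (pos δ y) x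
  have h4 : ((nrm (v - y) : ℤ) : ℝ) ≤ (2 * m : ℤ) := Int.cast_le.2 (Bx_sub_ball y m hv)
  push_cast at h4
  nlinarith

lemma exists_scale (hδ : 0 < δ) (t : ℝ) : ∃ m : ℤ, t ≤ m * δ ∧ m * δ ≤ t + δ := by
  refine ⟨⌈t / δ⌉, (div_le_iff₀ hδ).1 (Int.le_ceil _), ?_⟩
  have := mul_lt_mul_of_pos_right (Int.ceil_lt_add_one (t / δ)) hδ
  rw [add_mul, div_mul_cancel₀ _ hδ.ne'] at this
  linarith

/-- moment bounds at a fixed mesh -/
theorem core (hA : MomASt) (hN : MomNSt) (q : ℕ) : ∃ C > (0 : ℝ), ∀ (hc : ContSt) (Ω : Set ℂ)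
    (A : Sq Ω) (n : ℕ) (x : ℂ) (r D b : ℝ) (f : ℂ → ℝ), A.δ n ≤ r → Tf x r b f →
    (∀ v, ‖pos (A.δ n) v - x‖ ≤ 30 * r → v ∈ A.U n) →
    (∃ o, o ∉ A.U n ∧ ‖pos (A.δ n) o - x‖ ≤ D) →
    mean ((A.fld hc).S n) (fun g => (A.fld hc).X f n g ^ (2 * q)) ≤ C * (b ^ 2 * r ^ 3 * D) ^ q ∧
    (∫ z, f z = 0 →
      mean ((A.fld hc).S n) (fun g => (A.fld hc).X f n g ^ (2 * q)) ≤ C * (b ^ 2 * r ^ 4) ^ q) := by
  obtain ⟨C1, c1, h1⟩ := hA q
  obtain ⟨C2, c2, h2⟩ := hN q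
  obtain ⟨C3, c3, h3⟩ := qf_bd
  refine ⟨2 * 16 ^ q * ((C1 + C2) * (28 * C3) ^ q), by positivity, ?_⟩
  rintro hc Ω A n x r D b f hr hf hU ⟨o, ho, hD⟩
  obtain ⟨ρ, clo, e⟩ := dict hc A n
  have hδ := A.δpos n
  generalize A.δ n = δ at *
  have rp : 0 < r := hδ.trans_le hr
  have rD : 30 * r < D := (not_le.1 fun h => ho (hU o h)).trans_le hD
  obtain ⟨S, hS, hS'⟩ := exists_cvr hδ hf.supp
  obtain ⟨m, m1, m2⟩ := exists_scale hδ (6 * r)
  obtain ⟨N, N1, N2⟩ := exists_scale hδ (4 * D)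
  have hy := vt_near hδ x 0
  generalize vt δ x 0 = y at hy
  have m0 : 1 ≤ m := by
    have : (0 : ℝ) < m := (mul_pos_iff_of_pos_right hδ).1 (by linarith)
    exact_mod_cast this
  have mN : m ≤ N := by
    have : (m : ℝ) ≤ N := le_of_mul_le_mul_right (by linarith) hδ
    exact_mod_cast this
  have s1 : Bx y (2 * m) ⊆ A.U n := fun v hv => hU v ((of_box hδ hy hv).trans (by
    push_cast; linarith))
  have s2 : (S : Set V) ⊆ Bx y m := fun v hv => by
    obtain ⟨z, z1, z2⟩ := hS' v hv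
    exact to_box hδ hy (t := 2 * r) (by
      linarith [norm_sub_le_norm_sub_add_norm_sub (pos δ v) z x, hf.supp z z1]) (by linarith)
  have s3 : ¬Bx y N ⊆ A.U n := fun h => ho (h (to_box hδ hy hD (by linarith)))
  have q0 : ∀ k, 0 ≤ Qf k S (Wt δ f) (Wt δ f) := fun k =>
    Finset.sum_nonneg fun _ _ => Finset.sum_nonneg fun _ _ => by positivity
  have key : ∀ (k : ℤ) (T C : ℝ), r ≤ k * δ → k * δ ≤ 7 * (T * r) → 0 ≤ C → C ≤ C1 + C2 →
      Ex (MS ρ (A.U n)) (fun w => lin S (Wt δ f) o w ^ (2 * q)) ≤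
        C * Qf k S (Wt δ f) (Wt δ f) ^ q →
      mean ((A.fld hc).S n) (fun g => (A.fld hc).X f n g ^ (2 * q)) ≤
        2 * 16 ^ q * ((C1 + C2) * (28 * C3) ^ q) * (b ^ 2 * r ^ 4 * T) ^ q := by
    intro k T C k1 k2 C0 hC h
    rw [e o ho x r b f S hf hS fun s => s ^ (2 * q), mul_assoc]
    refine (centred clo.tame.ok _ q).trans (mul_le_mul_of_nonneg_left (h.trans ?_) (by positivity))
    rw [mul_assoc, ← mul_pow]
    refine mul_le_mul hC (pow_le_pow_left₀ (q0 k) ((h3 δ r b b x f f S k hδ hr k1 hf hf hS hS).trans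
      ?_) q) (pow_nonneg (q0 k) q) (by positivity)
    have := log_sq (T := 7 * T) ((one_le_div rp).2 k1) ((div_le_iff₀ rp).2 (by linarith))
    have p : 0 ≤ C3 * b * b * r ^ 4 := by have := hf.nonneg; positivity
    nlinarith [mul_le_mul_of_nonneg_left this p]
  refine ⟨?_, fun h0 => ?_⟩
  · have := key N (D / r) C1 (by linarith) (by rw [div_mul_cancel₀ _ rp.ne']; linarith) c1.le
      (by linarith) (h1 ρ _ _ y o m N S _ clo ho m0 mN s1 s3 s2)
    rwa [show b ^ 2 * r ^ 4 * (D / r) = b ^ 2 * r ^ 3 * D by field_simp] at this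
  · simpa using key m 1 C2 (by linarith) (by linarith) c2.le (by linarith)
      (h2 ρ _ _ y o m S _ clo m0 s1 s2 ((sum_Wt hδ hf.int hS).trans h0))

lemma ne_univ {Ω : Set ℂ} (hb : Bornology.IsBounded Ω) : Ω ≠ univ := fun h =>
  NormedSpace.unbounded_univ ℝ ℂ (h ▸ hb)

/-- the hypotheses of `core` hold for small meshes -/
lemma ev {Ω : Set ℂ} (A : Sq Ω) {x w : ℂ} {r ε : ℝ} (hr : 0 < r) (hε : 0 < ε)
    (hx : closedBall x (30 * r) ⊆ Ω) (hw : w ∈ frontier Ω) : ∀ᶠ n in atTop, A.δ n ≤ r ∧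
      (∀ v, ‖pos (A.δ n) v - x‖ ≤ 30 * r → v ∈ A.U n) ∧
      ∃ o, o ∉ A.U n ∧ ‖pos (A.δ n) o - x‖ ≤ ‖w - x‖ + ε := by
  filter_upwards [A.lim.eventually (ge_mem_nhds hr), A.inn _ hx (isCompact_closedBall _ _),
    A.out w hw ε hε] with n h1 h2 ⟨o, h3, h4⟩
  exact ⟨h1, fun v hv => h2 v (mem_closedBall_iff_norm.2 hv), o, h3, by
    linarith [norm_sub_le_norm_sub_add_norm_sub (pos (A.δ n) o) w x]⟩

lemma exists_fr {Ω : Set ℂ} (hb : Bornology.IsBounded Ω) {x : ℂ} (hx : x ∈ Ω) :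
    ∃ w ∈ frontier Ω, infDist x Ωᶜ = ‖w - x‖ := by
  obtain ⟨w, h1, h2⟩ := exists_mem_frontier_infDist_compl_eq_dist hx (ne_univ hb)
  exact ⟨w, h1, by rw [h2, dist_comm, dist_eq_norm]⟩

lemma X_add {O : Type} (B : End.Fld O) (n : ℕ) (w : O) {c : ℂ} {r b : ℝ} {f f' : ℂ → ℝ}
    (hf : Tf c r b f) (hf' : Tf c r b f') :
    B.X (fun z => f z + f' z) n w = B.X f n w + B.X f' n w := by
  have h := (B.cont n w).locallyIntegrable (μ := volume)
  simp only [End.Fld.X, mul_comm (B.Φ n w _), add_mul]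
  exact integral_add (hf.int_mul h) (hf'.int_mul h)

lemma Tf_ind {c : ℂ} {r b : ℝ} {f : ℂ → ℝ} (hf : Tf c r b f) {T : Set ℂ} (hT : MeasurableSet T) :
    Tf c r b (T.indicator f) :=
  ⟨hf.meas.indicator hT, fun z => (norm_indicator_le_norm_self f z).trans (hf.bd z),
    fun z hz => hf.supp z fun h => hz (by rw [indicator_apply_eq_zero]; exact fun _ => h)⟩

end MF

open MF

theorem momS (hA : MomASt) (hN : MomNSt) : MomSSt := by
  intro hc Ω ho _ hb A K hK cK q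
  obtain ⟨C, c0, h⟩ := core hA hN q
  obtain ⟨ε, ε0, hε⟩ := cK.exists_cthickening_subset_open ho hK
  obtain ⟨R, hR⟩ := hb.closure.subset_closedBall 0
  refine ⟨C * (2 * |R| + 1) ^ q, ε / 30, by positivity, fun r rp hr x hx => ?_⟩
  obtain ⟨w, hw, -⟩ := exists_fr hb (hK hx)
  have wx : ‖w - x‖ + 1 ≤ 2 * |R| + 1 := by
    linarith [norm_sub_le w x, mem_closedBall_zero_iff.1 (hR (frontier_subset_closure hw)),
      mem_closedBall_zero_iff.1 (hR (subset_closure (hK hx))), le_abs_self R]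
  filter_upwards [ev A rp one_pos (((closedBall_subset_closedBall (by linarith)).trans
    (closedBall_subset_cthickening hx ε)).trans hε) hw] with n ⟨h1, h2, o, h3, h4⟩ f fc fs b fb
  obtain ⟨k1, k2⟩ := h hc Ω A n x r (2 * |R| + 1) b f h1 ⟨fc.aestronglyMeasurable, fb,
    fun z hz => (not_le.1 fun h => hz (fs z h)).le⟩ h2 ⟨o, h3, h4.trans wx⟩
  refine ⟨k1.trans (le_of_eq ?_), fun h0 => (k2 h0).trans ?_⟩
  · rw [pow_mul, mul_pow b, mul_pow r, Real.sq_sqrt rp.le, mul_assoc C, ← mul_pow]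
    ring
  · rw [pow_mul, mul_pow b, ← pow_mul r]
    exact mul_le_mul_of_nonneg_right (le_mul_of_one_le_right c0.le
      (one_le_pow₀ (by linarith [abs_nonneg R]))) (by positivity)

theorem momF (hA : MomASt) (hN : MomNSt) : MomFSt := by
  intro hc Ω ho _ hb A
  refine ⟨fun K hK cK q => ?_, fun Ψ hΨ => ?_⟩
  · obtain ⟨C, c0, h⟩ := core hA hN q
    have := cK.induction_on (p := fun s => ∃ T ⊇ s, MeasurableSet T ∧ Bornology.IsBounded T ∧
        ∃ C : ℝ, ∀ᶠ n in atTop, ∀ f : ℂ → ℝ, AEStronglyMeasurable f volume → (∀ z ∉ T, f z = 0) →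
          (∀ z, |f z| ≤ 1) → mean ((A.fld hc).S n) (fun g => (A.fld hc).X f n g ^ (2 * q)) ≤ C)
      ⟨∅, subset_rfl, MeasurableSet.empty, Bornology.isBounded_empty, 1,
        Eventually.of_forall fun n f _ h0 _ => ?_⟩
      (fun s t st ⟨T, h1, h2⟩ => ⟨T, st.trans h1, h2⟩) ?_ fun x hx => ?_
    · obtain ⟨T, h1, -, -, C, h2⟩ := this
      exact ⟨C, h2.mono fun n hn f fc fs fb => hn f fc.aestronglyMeasurable
        (fun z hz => fs z fun h => hz (h1 h)) fb⟩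
    · refine ex_le ⟨(A.fld hc).fin n, (A.fld hc).ne n⟩ fun g _ => ?_
      simp only [End.Fld.X, h0 _ (notMem_empty _), mul_zero, integral_zero]
      exact pow_le_one₀ le_rfl zero_le_one
    · rintro s t ⟨T, h1, m1, b1, C1, e1⟩ ⟨T', h2, m2, b2, C2, e2⟩
      refine ⟨T ∪ T', union_subset_union h1 h2, m1.union m2, b1.union b2, 4 ^ q * (C1 + C2), ?_⟩
      obtain ⟨R, hR⟩ := (b1.union b2).subset_closedBall 0
      filter_upwards [e1, e2] with n e1 e2 f fm fs fb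
      have tf : Tf 0 R 1 f := ⟨fm, fb, fun z hz =>
        mem_closedBall_iff_norm.1 (hR (by_contra fun h => hz (fs z h)))⟩
      have t1 := Tf_ind tf m1
      have t2 := Tf_ind tf m1.compl
      have k1 := e1 _ t1.meas (fun z hz => indicator_of_notMem hz _) t1.bd
      have k2 := e2 _ t2.meas (fun z hz => by
        rw [indicator_apply_eq_zero]; exact fun h => fs z fun h' => h'.elim h hz) t2.bd
      refine (ex_mono (g := fun g => 4 ^ q * ((A.fld hc).X (T.indicator f) n g ^ (2 * q) +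
        (A.fld hc).X (Tᶜ.indicator f) n g ^ (2 * q))) fun g _ => ?_).trans ?_
      · rw [← funext (indicator_self_add_compl_apply T f), X_add _ n g t1 t2]
        simp only [indicator_self_add_compl_apply]
        exact MF.add_pow _ _ q
      · rw [ex_mul, ex_add]
        exact mul_le_mul_of_nonneg_left (add_le_add k1 k2) (by positivity)
    · obtain ⟨ε, ε0, hε⟩ := nhds_basis_closedBall.mem_iff.1 (ho.mem_nhds (hK hx))
      obtain ⟨w, hw, -⟩ := exists_fr hb (hK hx)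
      have rp : 0 < ε / 30 := by positivity
      refine ⟨_, mem_nhdsWithin_of_mem_nhds (closedBall_mem_nhds x rp), _, subset_rfl,
        measurableSet_closedBall, isBounded_closedBall,
        C * (1 ^ 2 * (ε / 30) ^ 3 * (‖w - x‖ + 1)) ^ q, ?_⟩
      filter_upwards [ev A rp one_pos ((closedBall_subset_closedBall (by linarith)).trans hε) hw]
        with n ⟨h1, h2, h3⟩ f fm fs fb
      exact (h hc Ω A n x _ _ 1 f h1 ⟨fm, fb, fun z hz =>
        mem_closedBall_iff_norm.1 (by_contra fun h => hz (fs z h))⟩ h2 h3).1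
  · obtain ⟨C, c0, h⟩ := core hA hN 1
    obtain ⟨b, hB⟩ := hΨ.1.continuous.bounded_above_of_compact_support hΨ.2.1
    refine ⟨(32 * C * b ^ 2 + 1) / 2, fun x hx => ?_⟩
    obtain ⟨w, hw, e⟩ := exists_fr hb hx
    have dp : 0 < infDist x Ωᶜ := (ho.isClosed_compl.notMem_iff_infDist_pos
      (nonempty_compl.2 (ne_univ hb))).1 (not_not.2 hx)
    obtain ⟨r, hr⟩ : ∃ r, r = infDist x Ωᶜ / 31 := ⟨_, rfl⟩
    have rp : 0 < r := by rw [hr]; positivity
    refine ⟨r, rp, by linarith, ?_⟩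
    filter_upwards [ev A rp rp ((closedBall_subset_ball (by linarith)).trans
      ball_infDist_compl_subset) hw] with n ⟨h1, h2, h3⟩
    have k := (h hc Ω A n x r _ b (End.scl Ψ x r) h1 ⟨(hΨ.1.continuous.comp
      (by fun_prop)).aestronglyMeasurable, fun z => hB _, fun z hz => by
        have := mem_ball_zero_iff.1 (hΨ.2.2 (subset_tsupport Ψ hz))
        rw [norm_div, Complex.norm_real, Real.norm_of_nonneg rp.le, div_lt_one rp] at this
        exact this.le⟩ h2 h3).1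
    refine (ex_mono (g := fun g => 1 / (2 * r ^ 2) * (A.fld hc).X (End.scl Ψ x r) n g ^ (2 * 1) +
      r ^ 2 / 2) fun g _ => ?_).trans ?_
    · generalize (A.fld hc).X (End.scl Ψ x r) n g = s
      rw [mul_one, ← sq_abs s, ← sub_nonneg,
        show 1 / (2 * r ^ 2) * |s| ^ 2 + r ^ 2 / 2 - |s| = (|s| - r ^ 2) ^ 2 / (2 * r ^ 2) by
          field_simp; ring]
      positivity
    · rw [ex_add, ex_mul, ex_const ⟨(A.fld hc).fin n, (A.fld hc).ne n⟩]
      refine (add_le_add_left (mul_le_mul_of_nonneg_left k (by positivity)) _).trans (le_of_eq ?_)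
      rw [← e, show infDist x Ωᶜ = 31 * r by linarith]
      field_simp
      ring

end Pool.Agent.Lib.MP_6359c9_pr
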