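import Pool.Agent.Lib.MP_6359c9_pr.Spec

/-! Moments of neutral linear statistics in the plane, as limits of the finite volume bounds. -/

namespace Pool.Agent.Lib.MP_6359c9_pr

open Set Filter Topology

lemma lc_linu (s : Finset V) (f : V → ℝ) (o : V) : Lc univ (lin s f o) :=
  Lc.sum s fun v _ => (lc_gr (conn_univ o v)).smul (f v)

/-- the model with both spins plus off `U` -/
lemma clo_off0 {U : Set V} (hU : U.Finite) (hc : CoConn U) : Clo (off true U) U U := by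
  refine ⟨tame_off true hU hU hc, hc,
    fun v hv => ⟨eq_univ_of_forall fun _ h => absurd hv h, hv⟩, fun w hw u hu v hv => ?_⟩
  have e : ∀ a, a ∉ U → w a = (true, true) := fun a ha =>
    Prod.ext ((hw.2 a).1 ha) ((hw.2 a).2 ha)
  rw [(hc u hu v hv).const (f := gr w) fun a ha b hb ab => by
    rw [gr_adj (Sp_val hw) ab, e a ha, e b hb]; simp [dk]]
  simp

lemma tendsto_box {F : Cf → ℝ} (h : Lc univ F) :
    Tendsto (fun R : ℕ => Ex (MS (off true (Bx 0 R)) (Bx 0 R)) F) atTop (𝓝 (Einf F)) := by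
  simpa using tendsto_off h true 0 0

lemma ev_box (x : V) (m : ℤ) : ∀ᶠ R : ℕ in atTop, Bx x m ⊆ Bx 0 R := by
  obtain ⟨n, hn⟩ := exists_Bx (Bx_finite x m) 0
  filter_upwards [eventually_ge_atTop n] with R hR
  exact hn.trans (Bx_mono (by exact_mod_cast hR))

lemma free_off {U B : Set V} (h : B ⊆ U) : Free (off true U) U B := fun _ hv =>
  ⟨eq_univ_of_forall fun _ h' => absurd (h hv) h', h hv⟩

lemma momI_N (hN : MomNSt) (q : ℕ) : ∃ C > (0 : ℝ), ∀ (x o : V) (n : ℤ) (s : Finset V)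
    (f : V → ℝ), 1 ≤ n → (s : Set V) ⊆ Bx x n → ∑ v ∈ s, f v = 0 →
    Einf (fun w => lin s f o w ^ (2 * q)) ≤ C * Qf n s f f ^ q := by
  obtain ⟨C, h0, H⟩ := hN q
  refine ⟨C, h0, fun x o n s f h1 h2 h3 =>
    le_of_tendsto (tendsto_box ((lc_linu s f o).comp (· ^ (2 * q)))) ?_⟩
  filter_upwards [ev_box x (2 * n)] with R hR
  exact H _ _ _ x o n s f (clo_off0 (Bx_finite _ _) (Bx_coConn _ _)) h1 hR h2 h3

lemma momI_T (hN : MomTSt) (q : ℕ) : ∃ C > (0 : ℝ), ∀ (x o : V) (n : ℤ) (s : Finset V)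
    (f : V → ℝ), 1 ≤ n → (s : Set V) ⊆ Bx x n → ∑ v ∈ s, f v = 0 →
    Einf (fun w => lin s f o w ^ (2 * q)) ≤ C * Qf n s f f ^ q := by
  obtain ⟨C, h0, H⟩ := hN q
  refine ⟨C, h0, fun x o n s f h1 h2 h3 =>
    le_of_tendsto (tendsto_box ((lc_linu s f o).comp (· ^ (2 * q)))) ?_⟩
  filter_upwards [ev_box x (4 * n)] with R hR
  exact H _ _ x o n s f (clo_off0 (Bx_finite _ _) (Bx_coConn _ _)).tame h1 (free_off hR) h2 h3

lemma covI (hC : CovNSt) : ∃ C > (0 : ℝ), ∀ (x o : V) (n : ℤ) (s : Finset V) (f f' : V → ℝ),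
    1 ≤ n → (s : Set V) ⊆ Bx x n → ∑ v ∈ s, f v = 0 → ∑ v ∈ s, f' v = 0 →
    |Einf fun w => lin s f o w * lin s f' o w| ≤ C * Qf n s f f' := by
  obtain ⟨C, h0, H⟩ := hC
  refine ⟨C, h0, fun x o n s f f' h1 h2 h3 h4 =>
    le_of_tendsto (tendsto_box ((lc_linu s f o).mul (lc_linu s f' o))).abs ?_⟩
  filter_upwards [ev_box x (2 * n)] with R hR
  exact H _ _ _ x o n s f f' (clo_off0 (Bx_finite _ _) (Bx_coConn _ _)) h1 hR h2 h3 h4

theorem momI0 (hN : MomNSt) (hC : CovNSt) : MomISt := ⟨momI_N hN, covI hC⟩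

theorem momI' (hN : MomTSt) (hC : CovNSt) : MomISt := ⟨momI_T hN, covI hC⟩

end Pool.Agent.Lib.MP_6359c9_pr
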