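import Pool.Agent.Lib.MP_6359c9_pr.Mom

/-! Moments of neutral linear statistics in all tame models. -/

namespace Pool.Agent.Lib.MP_6359c9_pr

open Set Filter Topology

namespace Mt

/-- events whose complements have vanishing probability exhaust a finite model -/
lemma first_ex {M : Set Cf} (hM : M.Finite) {P : ℕ → Cf → Prop} {C θ : ℝ} (h0 : 0 ≤ θ) (h1 : θ < 1)
    (h : ∀ i, Pr M {w | ¬P i w} ≤ C * θ ^ i) {w : Cf} (hw : w ∈ M) : ∃ i, P i w := by
  by_contra hn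
  have p := pr_pos (A := {w}) hM hw rfl
  have t := (tendsto_pow_atTop_nhds_zero_of_lt_one h0 h1).const_mul C
  rw [mul_zero] at t
  refine absurd (ge_of_tendsto' t fun i => le_trans (pr_mono fun y _ hy => ?_) (h i)) (not_le.2 p)
  rw [show y = w from hy]
  exact fun k => hn ⟨i, k⟩

/-- the conditional covariance part -/
lemma q_part {M : Set Cf} {O : Set V} {x : V} {n : ℤ} {s : Finset V} {Q : Cf → V → V → ℝ} (q : ℕ)
    {Cz : ℝ} (hz : 1 ≤ Cz) (hs : (s : Set V) ⊆ Bx x n) (k3 : ∀ w u v, 0 ≤ Q w u v)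
    (k4 : ∀ w ∈ M, ∀ (u v : V) (a b m : ℤ), Scr w u a (Bx u m)ᶜ → Scr w v b (Bx v m)ᶜ →
      (a = 0 ∧ b = 0 ∨ Disjoint (Bx u m) (Bx v m)) → Q w u v ≤
        25 * (((Tn O (Bx u a) w : ℝ) + 1) * ((Tn O (Bx v b) w : ℝ) + 1)))
    (hZ : ∀ u ∈ s, ∀ v ∈ s, Ex M (fun w => ZZ O u (mrad u v) w ^ (2 * q)) ≤ Cz * Lg n u v ^ (2 * q))
    (f : V → ℝ) : Ex M (fun w => (∑ u ∈ s, ∑ v ∈ s, |f u| * |f v| * Q w u v) ^ q) ≤
      25 ^ q * (Cz * Qf n s f f ^ q) := by
  set Y : V × V → Cf → ℝ := fun p w => ZZ O p.1 (mrad p.1 p.2) w * ZZ O p.2 (mrad p.2 p.1) w with hY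
  have Y0 : ∀ p w, 0 ≤ Y p w := fun p w =>
    mul_nonneg (zero_le_one.trans (one_le_ZZ _ _ _ _)) (zero_le_one.trans (one_le_ZZ _ _ _ _))
  have m0 : ∀ u v, 0 ≤ mrad u v := fun u v => le_max_left _ _
  have S1 := ex_pow_sum_le M (s ×ˢ s) (fun p => |f p.1| * |f p.2|) (fun p => Lg n p.1 p.2 ^ 2)
    Y q hz (fun _ _ => by positivity) (fun p hp => pow_pos (zero_lt_one.trans_le (one_le_Lg
      (ds_box (hs (Finset.mem_product.1 hp).1) (hs (Finset.mem_product.1 hp).2)))) _)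
    (fun p _ => Y0 p) fun p hp => by
      obtain ⟨h1, h2⟩ := Finset.mem_product.1 hp
      have a1 := hZ _ h1 _ h2
      have a2 := hZ _ h2 _ h1
      rw [Lg_comm] at a2
      refine (ex_mono (g := fun w => 1 / 2 * (ZZ O p.1 (mrad p.1 p.2) w ^ (2 * q) +
        ZZ O p.2 (mrad p.2 p.1) w ^ (2 * q))) fun w _ => ?_).trans ?_
      · simp only [hY, mul_pow, pow_mul']
        nlinarith [sq_nonneg (ZZ O p.1 (mrad p.1 p.2) w ^ q - ZZ O p.2 (mrad p.2 p.1) w ^ q)]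
      · rw [ex_mul, ex_add, ← pow_mul]
        linarith
  rw [Qf, ← Finset.sum_product']
  refine le_trans ?_ (mul_le_mul_of_nonneg_left S1 (by positivity))
  rw [← ex_mul]
  refine ex_mono fun w hw => ?_
  rw [← mul_pow]
  refine pow_le_pow_left₀ (Finset.sum_nonneg fun u _ => Finset.sum_nonneg fun v _ => by
    have := k3 w u v
    positivity) ?_ q
  rw [← Finset.sum_product', Finset.mul_sum]
  refine Finset.sum_le_sum fun p _ => ?_
  have := k4 w hw p.1 p.2 _ _ (mrad p.1 p.2) (scr_rad p.1 (m0 _ _) w) (scr_rad p.2 (m0 _ _) w) (by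
    by_cases z : mrad p.1 p.2 = 0
    · left; simp [rad, z]
    · refine Or.inr (disjoint_left.2 fun y h1 h2 => ?_)
      have := ds_tri p.1 y p.2
      have := ds_comm p.1 y
      have := mem_Bx_ds.1 h1
      have := mem_Bx_ds.1 h2
      unfold mrad at *
      omega)
  have e : Q w p.1 p.2 ≤ 25 * Y p w := by
    refine this.trans_eq ?_
    simp only [hY, mrad_comm p.2 p.1]
    rfl
  calc _ ≤ |f p.1| * |f p.2| * (25 * Y p w) := by gcongr
    _ = _ := by ring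

lemma sum_sq_le {x : V} {n : ℤ} {s : Finset V} (hs : (s : Set V) ⊆ Bx x n) (f : V → ℝ) :
    (∑ v ∈ s, |f v| * 1) ^ 2 ≤ Qf n s f f := by
  rw [sq, Finset.sum_mul_sum]
  refine Finset.sum_le_sum fun u hu => Finset.sum_le_sum fun v hv => ?_
  rw [mul_one, mul_one]
  exact le_mul_of_one_le_right (by positivity) (one_le_pow₀ (one_le_Lg (ds_box (hs hu) (hs hv))))

lemma rad_le (u : V) {m : ℤ} (hm : 0 ≤ m) (w : Cf) : rad u m w ≤ m := Int.ediv_le_self _ hm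

end Mt

open Mt in
/-- moments of neutral linear statistics in tame models -/
theorem momT (hk : KhiSt) (ht : TtSt) (ho : OscSt) : MomTSt := fun q => by
  classical
  obtain ⟨K, hK, hk⟩ := hk
  obtain ⟨Cz, hz, hZ⟩ := zz_mom ht (2 * q)
  obtain ⟨θ, A, t0, t1, ho⟩ := ho 3
  have u0 : 0 < max θ (1 / 2) := lt_max_of_lt_right one_half_pos
  have u1 : max θ (1 / 2) < 1 := max_lt t1 one_half_lt_one
  obtain ⟨Cj, hj, hJ⟩ := ex_rand (2 * q) u0.le u1
    (by positivity : (0 : ℝ) ≤ 1 + A / max θ (1 / 2)) zero_le_one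
  have K0 := hK q
  set Cy : ℝ := 1 + 2 ^ (2 * q) * (10 ^ (2 * q) * (Cz * 4 ^ (2 * q)) + A ^ (2 * q) * Cj) with hCy
  have y1 : 1 ≤ Cy := le_add_of_nonneg_right (by positivity)
  refine ⟨K q * (Cy + 25 ^ q * (Cz * 4 ^ (2 * q))), by positivity,
    fun ρ W x o n s f hT h1 hF hs hf => ?_⟩
  obtain ⟨o', ho'⟩ := hT.fin.exists_notMem
  have DW : Bx x (2 * n) ⊆ W := fun v hv => (hF v (Bx_mono (by omega) hv)).2
  have DF : Free ρ W (Bx x (2 * n)) := fun v hv => hF v (Bx_mono (by omega) hv)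
  obtain ⟨G, Q, k1, -, k3, k4, -, k6⟩ := hk ρ W (fun _ => Bx x (2 * n)) o' hT
    fun _ => ⟨DW, Bx_coConn _ _, fun k => ho' (DW k)⟩
  have far : ∀ u ∈ s, ∃ y, y ∉ Bx x (2 * n) ∧ y ∈ Bx u (3 * n + 1) := fun u hu => by
    have := mem_Bx.1 (hs hu)
    refine ⟨(x.1 + (2 * n + 1), x.2), ?_, ?_⟩ <;>
    · rw [mem_Bx]
      dsimp only
      omega
  set P : ℕ → Cf → Prop := fun j w => ∃ k : ℤ, ∀ u ∈ Bx x (n + n / 2), ∀ v, v ∉ Bx u (n - n / 2) →
    ¬Conn {y | gr w y < k ∨ k + A * (j + 1) < gr w y} u v with hP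
  have hPr : ∀ j, Pr (MS ρ W) {w | ¬P j w} ≤ A * max θ (1 / 2) ^ j := fun j =>
    (ho ρ W (Bx x (n + n / 2)) x (n - n / 2) j hT (by omega) (Bx_mono (by push_cast; omega))
      (fun u hu v hv => Bx_conn hu hv) fun v ⟨u, hu, hv⟩ =>
        hF v (Bx_mono (by omega) (Bx_add hu hv))).trans (by gcongr; exact le_max_left _ _)
  set J : Cf → ℕ := fun w => sInf {j | P j w} with hJd
  set Y : V → Cf → ℝ := fun u w => 10 * ZZ (Bx x (2 * n))ᶜ u (n / 2) w + A * (1 + J w) with hY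
  have Y0 : ∀ u w, 0 ≤ Y u w := fun u w => by
    have := one_le_ZZ (Bx x (2 * n))ᶜ u (n / 2) w
    positivity
  have n2 : 0 ≤ n / 2 := by omega
  have g1 : ∀ w ∈ MS ρ W, |∑ v ∈ s, f v * G w v| ≤ ∑ v ∈ s, |f v| * Y v w := fun w hw => by
    obtain ⟨k, hk⟩ : P (J w) w :=
      Nat.sInf_mem (s := {j | P j w}) (first_ex hT.ok.1 u0.le u1 hPr hw)
    have e : ∑ v ∈ s, f v * G w v = ∑ v ∈ s, f v * (G w v - ((k : ℝ) - gr w o')) := by
      simp only [mul_sub (f _) (G w _), Finset.sum_sub_distrib, ← Finset.sum_mul, hf, zero_mul,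
        sub_zero]
    rw [e]
    refine (Finset.abs_sum_le_sum_abs _ _).trans (Finset.sum_le_sum fun u hu => ?_)
    rw [abs_mul]
    refine mul_le_mul_of_nonneg_left ?_ (abs_nonneg _)
    have b1 : Bx u (n / 2) ⊆ Bx x (n + n / 2) := fun y hy => Bx_add (hs hu) hy
    obtain ⟨p, p1, p2, u', p3, p4⟩ := k6 w hw u (rad u (n / 2) w) ((scr_rad u n2 w).imp_right
      fun ⟨r, b, hb⟩ => ⟨r, b, hb.mono subset_rfl subset_rfl
        (compl_subset_compl.2 (b1.trans (Bx_mono (by omega))))⟩)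
    have p5 : u' ∈ Bx x (n + n / 2) := b1 (Bx_mono (rad_le u n2 w) p3)
    have p6 : p ∉ Bx u' (n - n / 2) := fun h => p1 (Bx_mono (by omega) (Bx_add p5 h))
    have p7 : ∃ y, |gr w y - gr w p| ≤ 5 * ((Tn (Bx x (2 * n))ᶜ (Bx u (rad u (n / 2) w)) w : ℤ) + 1) ∧
        ¬(gr w y < k ∨ k + A * (J w + 1) < gr w y) := by
      by_contra hn
      refine hk u' p5 p p6 (p4.symm.mono fun y hy => ?_)
      by_contra h
      exact hn ⟨y, hy, h⟩
    obtain ⟨y, y1, y2⟩ := p7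
    have y3 : |gr w p - k| ≤ 5 * ((Tn (Bx x (2 * n))ᶜ (Bx u (rad u (n / 2) w)) w : ℤ) + 1) +
        A * (J w + 1) := by
      have : (0 : ℤ) ≤ A * (J w + 1) := by positivity
      rw [abs_le] at *
      omega
    have y4 : |(gr w p : ℝ) - k| ≤
        5 * ((Tn (Bx x (2 * n))ᶜ (Bx u (rad u (n / 2) w)) w : ℝ) + 1) + A * (J w + 1) := by
      exact_mod_cast y3
    simp only [hY, ZZ]
    rw [abs_le] at *
    constructor <;> linarith [p2.1, p2.2, y4.1, y4.2]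
  have mJ : Ex (MS ρ W) (fun w => (1 + (J w : ℝ)) ^ (2 * q)) ≤ Cj * 1 :=
    hJ _ J (fun i _ => (1 + (i : ℝ)) ^ (2 * q)) 1 zero_le_one
      (pr_first (by positivity) u0 hPr) fun i => ex_le hT.ok fun _ _ => by simp
  have mY : ∀ u ∈ s, Ex (MS ρ W) (fun w => Y u w ^ (2 * q)) ≤ Cy * 1 ^ (2 * q) := fun u hu => by
    have a := hZ ρ W (Bx x (2 * n)) u (n / 2) (3 * n + 1) hT (Bx_coConn _ _) DF n2 (by omega)
      (fun y hy => Bx_mono (by omega) (Bx_add (hs hu) hy)) (far u hu)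
    have r0 : (0 : ℝ) ≤ (n / 2 : ℤ) := by exact_mod_cast n2
    have r1 : ((3 * n + 1 : ℤ) : ℝ) + 1 ≤ 8 * ((n / 2 : ℤ) + 1) := by
      exact_mod_cast (by omega : 3 * n + 1 + 1 ≤ 8 * (n / 2 + 1))
    have r2 : ((n / 2 : ℤ) : ℝ) + 1 ≤ (3 * n + 1 : ℤ) + 1 := by
      exact_mod_cast (by omega : n / 2 + 1 ≤ 3 * n + 1 + 1)
    have l0 := Real.log_nonneg (show (1 : ℝ) ≤ (((3 * n + 1 : ℤ) : ℝ) + 1) / ((n / 2 : ℤ) + 1) by
      rw [le_div_iff₀ (by positivity)]; linarith)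
    have l1 := log_dy (A := (((3 * n + 1 : ℤ) : ℝ) + 1) / ((n / 2 : ℤ) + 1)) (B := 1) 3
      (div_pos (by linarith) (by linarith)) le_rfl (by rw [div_le_iff₀ (by positivity)]; linarith)
    rw [Real.log_one] at l1
    have a2 : Ex (MS ρ W) (fun w => ZZ (Bx x (2 * n))ᶜ u (n / 2) w ^ (2 * q)) ≤ Cz * 4 ^ (2 * q) :=
      a.trans (mul_le_mul_of_nonneg_left (pow_le_pow_left₀ (by linarith)
        (l1.trans (by norm_num)) _) (by linarith))
    refine (ex_mono (g := fun w => 2 ^ (2 * q) * (10 ^ (2 * q) * ZZ (Bx x (2 * n))ᶜ u (n / 2) w ^ (2 * q)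
      + A ^ (2 * q) * (1 + (J w : ℝ)) ^ (2 * q))) fun w _ => ?_).trans ?_
    · have z := one_le_ZZ (Bx x (2 * n))ᶜ u (n / 2) w
      rw [← mul_pow, ← mul_pow]
      refine (add_pow_le (by positivity) (by positivity) _).trans ?_
      gcongr
      · norm_num
      · omega
    · rw [ex_mul, ex_add, ex_mul, ex_mul, one_pow, mul_one, hCy]
      rw [mul_one] at mJ
      refine le_add_of_nonneg_of_le zero_le_one ?_
      gcongr
  have mG := ex_pow_sum_le (MS ρ W) s (fun v => |f v|) (fun _ => 1) Y (2 * q) y1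
    (fun _ _ => abs_nonneg _) (fun _ _ => one_pos) (fun u _ => Y0 u) mY
  have mQ := q_part (M := MS ρ W) (O := (Bx x (2 * n))ᶜ) q (Cz := Cz * 4 ^ (2 * q))
    (one_le_mul_of_one_le_of_one_le hz (one_le_pow₀ (by norm_num))) hs k3 k4 (fun u hu v hv => by
      obtain ⟨m1, m2⟩ := mrad_box (hs hu) (hs hv)
      obtain ⟨l1, l2⟩ := log_mrad (N := n) (N' := 3 * n + 1) 1 (ds_box (hs hu) (hs hv))
        (by omega) (by omega)
      refine (hZ ρ W _ u (mrad u v) (3 * n + 1) hT (Bx_coConn _ _) DF (le_max_left _ _) (by omega) m2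
        (far u hu)).trans ?_
      rw [mul_assoc, ← mul_pow]
      exact mul_le_mul_of_nonneg_left (pow_le_pow_left₀ l1 (l2.trans (by norm_num)) _)
        (by linarith)) f
  simp only [lin_neutral hf o o']
  refine (k1 q s f).trans ?_
  rw [mul_assoc, ex_add]
  refine mul_le_mul_of_nonneg_left ?_ K0.le
  have a1 : Ex (MS ρ W) (fun w => (∑ v ∈ s, f v * G w v) ^ (2 * q)) ≤ Cy * Qf n s f f ^ q := by
    refine (ex_mono fun w hw => ?_).trans (mG.trans ?_)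
    · rw [← Even.pow_abs (even_two_mul q)]
      exact pow_le_pow_left₀ (abs_nonneg _) (g1 w hw) _
    · rw [pow_mul]
      exact mul_le_mul_of_nonneg_left (pow_le_pow_left₀ (sq_nonneg _) (sum_sq_le hs f) q)
        (by linarith)
  linarith

end Pool.Agent.Lib.MP_6359c9_pr
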