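import Pool.Agent.Lib.MP_6359c9_pr.NlDef

/-! The conditional mean inside a loop with forced double edges. -/

namespace Pool.Agent.Lib.MP_6359c9_pr

open Set

namespace Nl

theorem condSt : CondSt := by
  classical
  intro D H Ξ X hD hX hΞ hH
  obtain ⟨X', d, e, -⟩ := hX.exists_dep
  set T : V → Set (Bool × Bool) := fun v => {a | v ∈ H → a.1 = true} with hT
  have ok : ∀ y ∈ Sp T, Ok (Sp (frz T Dᶜ y)) := fun y hy =>
    ⟨Loc_finite hD fun _ hv => frz_sub hv, y, hy.1, fun v => ⟨hy.2 v, fun _ => rfl⟩⟩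
  have dec : ∀ y, Dec Cp (frz T Dᶜ y) (D ∪ Ξ)ᶜ := fun y u hu v hv a => by
    by_cases h : v ∈ D
    · obtain ⟨h1, h2⟩ := hH u (fun h => hu (Or.inl h)) (fun h => hu (Or.inr h)) v h a
      exact Or.inr fun p hp q hq => ⟨Or.inl ((hp.1 h1).trans (hq.1 h2).symm),
        Or.inl ((hq.1 h2).trans (hp.1 h1).symm)⟩
    · exact Or.inl (frz_sub h)
  have key : ∀ y ∈ Sp T, ∀ z ∈ Sp T, (∀ v ∈ Ξ, y v = z v) →
      Ex (Sp (frz T Dᶜ y)) X' = Ex (Sp (frz T Dᶜ z)) X' := fun y hy z hz h =>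
    markov' (dec y) (dec z) (fun v hv => by
      rcases not_not.1 hv with hv | hv
      · rw [frz_off (not_not.2 hv), frz_off (not_not.2 hv)]
      · unfold frz
        rw [h v hv]) (ok y hy) (ok z hz) (by
        rw [compl_compl]; exact d.mono subset_union_left)
  refine ⟨fun w => if h : ∃ y ∈ Sp T, ∀ v ∈ Ξ, y v = w v then Ex (Sp (frz T Dᶜ h.choose)) X'
    else 0, fun w w' h => ?_, fun ρ W _ hf Y hY => ?_⟩
  · have : (fun x : Cf => x ∈ Sp T ∧ ∀ v ∈ Ξ, x v = w v) =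
        fun x : Cf => x ∈ Sp T ∧ ∀ v ∈ Ξ, x v = w' v := by
      ext x
      exact and_congr Iff.rfl (forall₂_congr fun v hv => by rw [h v hv])
    simp only [this]
  · rw [ex_stop_loc (stop_const Dᶜ) Cp (tm (fo ρ H) W)]
    refine ex_congr fun y hy => ?_
    have hy' : y ∈ Sp T := ⟨hy.1, fun v => (hy.2 v).1.2⟩
    have h1 : ∃ z ∈ Sp T, ∀ v ∈ Ξ, z v = y v := ⟨y, hy', fun _ _ => rfl⟩
    have e1 : Sp (frz (tm (fo ρ H) W) Dᶜ y) = Sp (frz T Dᶜ y) :=
      Loc_congr fun v a => ⟨fun h => ⟨h.1.1.2, h.2⟩, fun h => ⟨by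
        by_cases hv : v ∈ D
        · exact ⟨⟨(hf v hv).1 ▸ trivial, h.1⟩, fun h => absurd (hf v hv).2 h⟩
        · rw [h.2 hv]; exact hy.2 v, h.2⟩⟩
    rw [ex_congr (g := fun w => X' w * Y y) fun w hw => by
      rw [hY w (Sp_val hw) y (Sp_val hy) fun v hv => (hw.2 v).2 hv, e w (Sp_val hw)], ex_mul']
    beta_reduce
    rw [dif_pos h1, key _ h1.choose_spec.1 y hy' h1.choose_spec.2]
    exact congrArg (fun M => Ex M X' * Y y) e1

end Nl

end Pool.Agent.Lib.MP_6359c9_pr
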