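import Pool.Agent.Lib.MP_6359c9_pr.NlFac
import Pool.Agent.Lib.MP_6359c9_pr.Osc

/-! Contiguity of conditioned models, and the conditioned plane as a limit. -/

namespace Pool.Agent.Lib.MP_6359c9_pr.Nl

open Set Filter Topology

lemma ex_fo (ρ : V → Set Bool) (S W : Set V) (G : Cf → ℝ) :
    Ex (MS ρ W) (fun w => G w * rpI S w) = Pr (MS ρ W) (RP S) * Ex (MS (fo ρ S) W) G := by
  rw [MS_fo, ← ex_cond]
  refine ex_congr fun w _ => ?_
  by_cases h : w ∈ RP S <;> simp [rpI, h]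

theorem ctgSt (h : TypG) : CtgSt := by
  intro ε hε
  obtain ⟨c, d0, hc, h⟩ := h 7 ε hε
  obtain ⟨C1, hC1, h1⟩ := rm1St 9
  obtain ⟨C2, hC2, h2⟩ := rpSt.2.2 7
  refine ⟨C1 * C2 / c, max d0 1, by positivity, fun ρ W S x n F ht hn hf hS hF F1 => ?_⟩
  have n1 : 1 ≤ n := (le_max_right _ _).trans hn
  have fS : S.Finite := (Bx_finite _ _).subset hS
  have a1 := h (fo ρ S) W (Bx x (7 * n)) x n F
    (tame_fo ht fun v hv => (hf v (Bx_mono (by omega) (hS hv))).1 ▸ mem_univ _)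
    ((le_max_left _ _).trans hn) subset_rfl
    (free_fo (fun v hv => hf v (Nbd_Bx subset_rfl (by omega) hv.1)) fun v hv h => hv.2 (hS h))
    (hF.mono subset_union_left) F1
  have cJ : cl (Nbd (Bx x (7 * n)) n) ⊆ Bx x (8 * n + 1) :=
    (Rm.cl_nbd _ _).trans (Nbd_Bx subset_rfl (by omega))
  have lf : Lcl (Bx x (7 * n)) fun w => F w * rpI S w :=
    hF.comp₂ ((lcl_rpI S).mono hS) (· * ·)
  have f0 : ∀ w ∈ Val, 0 ≤ F w * rpI S w := fun w hw => mul_nonneg (F1 w hw).1 (rpI_nonneg S w)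
  have a2 := h1 ρ W (Bx x (7 * n)) (Nbd (Bx x (7 * n)) n) x n _ ht n1 (sub_Nbd (by omega))
    (cJ.trans (Bx_mono (by push_cast; omega))) (fun v hv => hf v (Nbd_Bx cJ (by omega) hv)) lf f0
  have a3 := h2 ρ W S x n ht n1 hS fun v hv => hf v (Nbd_Bx hS (by omega) hv)
  have e0 := rpSt.1 S fS
  have g0 := Einf_nonneg ⟨_, Bx_finite _ _, subset_univ _, lf⟩ f0
  simp only [← mul_assoc] at a2
  rw [ex_fo] at a2
  have p0 : 0 < Pr (MS ρ W) (RP S) := pos_of_mul_pos_left (e0.trans_le (a3.trans_eq (mul_comm _ _)))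
    hC2.le
  have e1 : Einf (fun w => F w * rpI S w) = Einf (rpI S) * Pc S F := by
    rw [Pc]; field_simp
  have q0 : 0 ≤ Pc S F := div_nonneg g0 e0.le
  rw [e1] at a2
  have a4 : Ex (MS (fo ρ S) W) (fun w => sepI (Bx x (7 * n)) (Nbd (Bx x (7 * n)) n)ᶜ w * F w) ≤
      C1 * C2 * Pc S F := by
    refine le_of_mul_le_mul_left (a2.trans ?_) p0
    calc C1 * (Einf (rpI S) * Pc S F) ≤ C1 * (C2 * Pr (MS ρ W) (RP S) * Pc S F) := by gcongr
      _ = _ := by ring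
  rw [div_mul_eq_mul_div, ← sub_le_iff_le_add', le_div_iff₀ hc, mul_comm]
  exact a1.trans a4

theorem limSt : LimSt := by
  intro S G hS hG
  have e0 := rpSt.1 S hS
  have t := (Rm.lim (hG.mul (Rm.lc_rp hS))).div (Rm.lim (Rm.lc_rp hS)) e0.ne'
  refine t.congr' ?_
  filter_upwards [(Rm.lim (Rm.lc_rp hS)).eventually (lt_mem_nhds e0)] with R hR
  have e : Ex (Rm.Bg R) (rpI S) = Pr (Rm.Bg R) (RP S) := (pr_eq _ _).symm
  rw [e] at hR
  rw [Pi.div_apply, ex_fo, e, mul_div_cancel_left₀ _ hR.ne']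

end Pool.Agent.Lib.MP_6359c9_pr.Nl
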