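import Pool.Agent.Lib.MP_6359c9_pr.LogBern
import Pool.Agent.Lib.MP_6359c9_pr.InfRP

/-! Moving observables along the lattice normals (Reeh Schlieder argument). -/

namespace Pool.Agent.Lib.MP_6359c9_pr

open Set Filter Topology Polynomial Pl Pl.PosCon

/-! ### the abstract move lemma for families of spaces -/

theorem move' (J : ℕ) {η : ℝ} (hη : 0 < η) : ∃ q : ℝ[X], ∀ (W : Type) [AddCommGroup W]
    [Module ℝ W] (B : W →ₗ[ℝ] W →ₗ[ℝ] ℝ) (T : W →ₗ[ℝ] W), PosCon B T →
    ∀ x y : W, (B x (T y) - B x (aeval T (X ^ J * q) y)) ^ 2 ≤ η ^ 2 * (B x x * B y y) := by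
  obtain ⟨N, hN⟩ := exists_nat_gt (J / η)
  have hN0 : (0 : ℝ) < N := lt_of_le_of_lt (by positivity) hN
  have hN1 : 0 < N := by exact_mod_cast hN0
  rw [div_lt_iff₀ hη] at hN
  set lo : ℝ[X] := ∑ k ∈ (Finset.range (N + 1)).filter (· < J),
    ((k : ℝ) / N) • bernsteinPolynomial ℝ N k with hlo
  have hd : X ^ J ∣ (X : ℝ[X]) - lo := by
    have e := bern_X hN1
    rw [← Finset.sum_filter_add_sum_filter_not (Finset.range (N + 1)) (· < J), ← hlo] at e
    rw [sub_eq_of_eq_add' e.symm]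
    refine Finset.dvd_sum fun k hk => ?_
    have hk' : J ≤ k := by simpa using (Finset.mem_filter.mp hk).2
    rw [smul_eq_C_mul]
    unfold bernsteinPolynomial
    exact Dvd.dvd.mul_left (Dvd.dvd.mul_right (Dvd.dvd.mul_left (pow_dvd_pow _ hk') _) _) _
  obtain ⟨q, hq⟩ := hd
  refine ⟨q, fun W _ _ B T h x y => ?_⟩
  have e : B x (T y) - B x (aeval T (X ^ J * q) y) = B x (aeval T lo y) := by
    rw [← hq]; simp
  have p1 : PosP B T lo :=
    posP_sum _ fun k _ => posP_smul (h.posP_bern N k) (by positivity)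
  have p2 : ∀ z, B z (aeval T lo z) ≤ η * B z z := by
    intro z
    have e1 : B z z = ∑ k ∈ Finset.range (N + 1), B z (aeval T (bernsteinPolynomial ℝ N k) z) := by
      rw [← map_sum, ← LinearMap.sum_apply, ← map_sum, bernsteinPolynomial.sum]; simp
    rw [e1, hlo, Finset.mul_sum]
    simp only [map_sum, LinearMap.sum_apply, map_smul, LinearMap.smul_apply, smul_eq_mul]
    refine le_trans (Finset.sum_le_sum (g := fun k =>
      η * B z (aeval T (bernsteinPolynomial ℝ N k) z)) fun k hk => ?_) ?_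
    · have hk' : k < J := by simpa using (Finset.mem_filter.mp hk).2
      have hk2 : (k : ℝ) < J := by exact_mod_cast hk'
      refine mul_le_mul_of_nonneg_right ?_ (h.posP_bern N k z)
      rw [div_le_iff₀ hN0]; linarith
    · exact Finset.sum_le_sum_of_subset_of_nonneg (Finset.filter_subset _ _)
        fun k _ _ => mul_nonneg hη.le (h.posP_bern N k z)
  rw [e]
  calc _ ≤ B x (aeval T lo x) * B y (aeval T lo y) := h.posP_cs p1 x y
    _ ≤ (η * B x x) * (η * B y y) :=
      mul_le_mul (p2 x) (p2 y) (p1 y) (mul_nonneg hη.le (h.pos x))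
    _ = _ := by ring

theorem move_null' {ι : Type} (l : Filter ι) (W : ι → Type) [∀ i, AddCommGroup (W i)]
    [∀ i, Module ℝ (W i)] (B : ∀ i, W i →ₗ[ℝ] W i →ₗ[ℝ] ℝ) (T : ∀ i, W i →ₗ[ℝ] W i)
    (h : ∀ i, PosCon (B i) (T i)) (x y : ∀ i, W i) (C : ℝ) (hx : ∀ i, B i (x i) (x i) ≤ C)
    (hy : ∀ i, B i (y i) (y i) ≤ C) (J : ℕ)
    (hJ : ∀ j, J ≤ j → Tendsto (fun i => B i (x i) ((T i ^ j) (y i))) l (𝓝 0)) :
    Tendsto (fun i => B i (x i) (T i (y i))) l (𝓝 0) := by
  rw [Metric.tendsto_nhds]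
  intro ε hε
  obtain ⟨q, hq⟩ := move' J (η := ε / (2 * (|C| + 1))) (by positivity)
  have t : Tendsto (fun i => B i (x i) (aeval (T i) (X ^ J * q) (y i))) l (𝓝 0) := by
    have e : ∀ i, B i (x i) (aeval (T i) (X ^ J * q) (y i)) =
        ∑ k ∈ Finset.range (q.natDegree + 1), q.coeff k * B i (x i) ((T i ^ (J + k)) (y i)) := by
      intro i
      rw [map_mul, aeval_eq_sum_range (p := q), Finset.mul_sum]
      simp only [map_pow, aeval_X, LinearMap.sum_apply, map_sum, mul_smul_comm, ← pow_add,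
        LinearMap.smul_apply, map_smul, smul_eq_mul]
    simp only [e]
    have := tendsto_finsetSum (Finset.range (q.natDegree + 1))
      fun k _ => (hJ (J + k) (Nat.le_add_right _ _)).const_mul (q.coeff k)
    simpa using this
  filter_upwards [Metric.tendsto_nhds.mp t (ε / 2) (by positivity)] with i h3
  rw [Real.dist_eq, sub_zero] at h3 ⊢
  have h4 := hq (W i) (B i) (T i) (h i) (x i) (y i)
  have h5 : B i (x i) (x i) * B i (y i) (y i) ≤ (|C| + 1) ^ 2 := by
    have := (h i).pos (x i)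
    have := (h i).pos (y i)
    have := le_abs_self C
    have := hx i
    have := hy i
    nlinarith
  have h6 : (B i (x i) (T i (y i)) - B i (x i) (aeval (T i) (X ^ J * q) (y i))) ^ 2 ≤
      (ε / 2) ^ 2 := by
    refine h4.trans ((mul_le_mul_of_nonneg_left h5 (sq_nonneg _)).trans (le_of_eq ?_))
    field_simp
  have h7 := abs_le_of_sq_le_sq' h6 (by positivity)
  rw [abs_lt] at h3 ⊢
  constructor <;> linarith [h7.1, h7.2]

/-! ### directions -/

/-- a lattice normal with its reflections -/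
structure Dir where
  ℓ : V → ℤ
  t : V
  θ : ℤ → V ≃ V
  aut : ∀ j, Aut (θ j)
  inv : ∀ j v, θ j (θ j v) = v
  lt : ∀ v, ℓ (v + t) = ℓ v + 2
  lθ : ∀ j v, ℓ (θ j v) = 2 * j - ℓ v
  θt : ∀ j v, θ j (v + t) = θ j v - t
  θs : ∀ j v, θ (j + 1) (v + t) = θ j v
  rp : ∀ j F, Lc {v | j ≤ ℓ v} F → 0 ≤ Einf fun w => F w * F (act (θ j) w)

/-- reflection positivity in the rows -/
def RPS : Prop := ∀ (j : ℤ) (F : Cf → ℝ), Lc {v | j ≤ v.2} F →
  0 ≤ Einf fun w => F w * F (act (rfj j) w)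

theorem rps : RPS := fun _ _ h => Einf_rp h

/-- the vertical direction -/
def dir0 (h : RPS) : Dir where
  ℓ := fun v => v.2
  t := (-1, 2)
  θ := rfj
  aut := aut_rfj
  inv := rfj_rfj
  lt := fun v => rfl
  lθ := fun j v => rfl
  θt := fun j v => by ext <;> simp [rfj] <;> ring
  θs := fun j v => by ext <;> simp [rfj] <;> ring
  rp := h

lemma Lc.aut {H : Set V} {F : Cf → ℝ} (h : Lc H F) {g : V ≃ V} (hg : Aut g) :
    Lc Set.univ fun w => F (MP_6359c9_pr.act g w) := h.act hg.adj fun _ _ => trivial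

/-- rotation of a direction by sixty degrees -/
def Dir.rot (D : Dir) : Dir where
  ℓ := fun v => D.ℓ (rotE.symm v)
  t := rotE D.t
  θ := fun j => rotE.symm.trans ((D.θ j).trans rotE)
  aut := fun j => aut_rot.symm.trans ((D.aut j).trans aut_rot)
  inv := fun j v => by simp [D.inv]
  lt := fun v => by
    rw [← D.lt]; congr 1
    ext <;> simp [rotE, Pl.rot] <;> ring
  lθ := fun j v => by simp [D.lθ]
  θt := fun j v => by
    have : rotE.symm (v + rotE D.t) = rotE.symm v + D.t := by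
      ext <;> simp [rotE, Pl.rot] <;> ring
    simp only [Equiv.trans_apply, this, D.θt]
    ext <;> simp [rotE, Pl.rot] <;> ring
  θs := fun j v => by
    have : rotE.symm (v + rotE D.t) = rotE.symm v + D.t := by
      ext <;> simp [rotE, Pl.rot] <;> ring
    simp only [Equiv.trans_apply, this, D.θs]
  rp := fun j F hF => by
    have h2 : Lc {v | j ≤ D.ℓ v} fun w => F (act rotE.symm w) :=
      hF.act aut_rot.symm.adj fun v hv => hv
    have h3 := D.rp j _ h2
    rw [← Einf_act aut_rot (h2.univ.mul (h2.aut (D.aut j)))] at h3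
    refine h3.trans (le_of_eq (congrArg Einf (funext fun w => ?_)))
    congr 2
    funext v
    simp [act]

/-- translation of an observable -/
def tr (p : V) (F : Cf → ℝ) : Cf → ℝ := fun w => F (act (Equiv.addRight p) w)

lemma tr_tr (p q : V) (F : Cf → ℝ) : tr p (tr q F) = tr (q + p) F := by
  funext w
  simp only [tr]
  congr 1
  funext v
  simp [act, add_assoc]

lemma Lc.tr {H H' : Set V} {F : Cf → ℝ} (h : Lc H F) (p : V) (hH : ∀ v ∈ H, v + p ∈ H') :
    Lc H' (tr p F) := Lc.act (g := Equiv.addRight p) (aut_add p).adj h hH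

lemma tr_zero (F : Cf → ℝ) : tr 0 F = F := by
  funext w
  simp only [tr]
  congr 1
  funext v
  simp [act]

namespace Dir

variable (D : Dir)

lemma l_smul (k : ℕ) (v : V) : D.ℓ (v + k • D.t) = D.ℓ v + 2 * k := by
  induction k with
  | zero => simp
  | succ k ih => rw [succ_nsmul, ← add_assoc, D.lt, ih]; push_cast; ring

lemma l_sub (k : ℕ) (v : V) : D.ℓ (v + -(k • D.t)) = D.ℓ v - 2 * k := by
  have := D.l_smul k (v + -(k • D.t))
  rw [neg_add_cancel_right] at this
  omega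

/-- the reflection positive form -/
noncomputable def B (j : ℤ) : LcS {v | j ≤ D.ℓ v} →ₗ[ℝ] LcS {v | j ≤ D.ℓ v} →ₗ[ℝ] ℝ :=
  LinearMap.mk₂ ℝ (fun F G => Einf fun w => G.1 w * F.1 (act (D.θ j) w))
    (fun F F' G => by
      rw [← Einf_add ((Lc.univ G.2).mul (Lc.aut F.2 (D.aut j)))
        ((Lc.univ G.2).mul (Lc.aut F'.2 (D.aut j)))]
      simp [mul_add])
    (fun c F G => by
      rw [smul_eq_mul, ← Einf_mul c ((Lc.univ G.2).mul (Lc.aut F.2 (D.aut j)))]
      simp [mul_left_comm])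
    (fun F G G' => by
      rw [← Einf_add ((Lc.univ G.2).mul (Lc.aut F.2 (D.aut j)))
        ((Lc.univ G'.2).mul (Lc.aut F.2 (D.aut j)))]
      simp [add_mul])
    (fun c F G => by
      rw [smul_eq_mul, ← Einf_mul c ((Lc.univ G.2).mul (Lc.aut F.2 (D.aut j)))]
      simp [mul_assoc])

lemma B_apply (j : ℤ) (F G : LcS {v | j ≤ D.ℓ v}) :
    D.B j F G = Einf fun w => G.1 w * F.1 (act (D.θ j) w) := rfl

/-- the transfer operator -/
noncomputable def T (j : ℤ) : LcS {v | j ≤ D.ℓ v} →ₗ[ℝ] LcS {v | j ≤ D.ℓ v} where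
  toFun F := ⟨tr D.t F.1, Lc.tr F.2 (H' := {v | j ≤ D.ℓ v}) D.t fun v hv => by
    have := D.lt v
    simp only [mem_ofPred_eq] at hv ⊢
    omega⟩
  map_add' _ _ := rfl
  map_smul' _ _ := rfl

lemma T_pow (j : ℤ) (k : ℕ) (F : LcS {v | j ≤ D.ℓ v}) :
    ((D.T j ^ k) F).1 = tr (k • D.t) F.1 := by
  induction k with
  | zero => simp [tr_zero]
  | succ k ih =>
    rw [pow_succ', Module.End.mul_apply]
    change tr D.t ((D.T j ^ k) F).1 = _
    rw [ih, tr_tr, succ_nsmul]

theorem posCon (j : ℤ) : PosCon (W := LcS {v | j ≤ D.ℓ v}) (D.B j) (D.T j) where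
  symm := fun F G => by
    rw [B_apply, B_apply, ← Einf_act (D.aut j) ((Lc.univ G.2).mul (Lc.aut F.2 (D.aut j)))]
    refine congrArg Einf (funext fun w => ?_)
    rw [mul_comm, show act (D.θ j) (act (D.θ j) w) = w from funext fun v => by simp [act, D.inv]]
  adj := fun F G => by
    rw [B_apply, B_apply,
      ← Einf_act (aut_add D.t) ((Lc.univ G.2).mul (Lc.aut (D.T j F).2 (D.aut j)))]
    refine congrArg Einf (funext fun w => ?_)
    change _ * F.1 _ = _ * F.1 _
    refine congrArg₂ _ rfl (congrArg _ (funext fun v => ?_))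
    simp [act, D.θt]
  pos := fun F => D.rp j F.1 F.2
  posT := fun F => by
    have := D.rp (j + 1) (tr D.t F.1) (Lc.tr F.2 D.t fun v hv => by
      have := D.lt v
      simp only [mem_ofPred_eq] at hv ⊢
      omega)
    refine this.trans (le_of_eq (congrArg Einf (funext fun w => ?_)))
    change _ * F.1 _ = _ * F.1 _
    refine congrArg₂ _ rfl (congrArg _ (funext fun v => ?_))
    simp [act, D.θs]
  bdd := fun F => by
    obtain ⟨M, h0, hM⟩ := Lc.bdd F.2
    refine ⟨M * M, fun n => ?_⟩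
    rw [B_apply, ← Einf_const (M * M)]
    refine Einf_mono ((Lc.univ ((D.T j ^ n) F).2).mul (Lc.aut F.2 (D.aut j))) (Lc.const _ _)
      fun w hw => (le_abs_self _).trans ?_
    rw [T_pow, abs_mul]
    exact mul_le_mul (hM _ (val_act (aut_add _).adj hw)) (hM _ (val_act (D.aut j).adj hw))
      (abs_nonneg _) h0

end Dir

/-! ### tame and good observables -/

/-- conditionally bounded observables with support `S` -/
def Tm (C : ℝ) (S : Set V) (F : Cf → ℝ) : Prop := Lcl S F ∧ ∀ g : V ≃ V, Aut g → ∀ G : Cf → ℝ,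
  Lc (g '' S)ᶜ G → (∀ w ∈ Val, 0 ≤ G w) → Einf (fun w => G w * |F (act g w)|) ≤ C * Einf G

/-- observables with bounded reflection norms -/
def Gd (K : ℝ) (S : Set V) (F : Cf → ℝ) : Prop := S.Finite ∧ Lcl S F ∧ ∀ g : V ≃ V, Aut g →
  Disjoint S (g '' S) → Einf (fun w => |F w| * |F (act g w)|) ≤ K

lemma Tm.of_bdd {C : ℝ} {S : Set V} {F : Cf → ℝ} (hS : S.Finite) (h : Lcl S F)
    (hC : ∀ w ∈ Val, |F w| ≤ C) : Tm C S F := by
  refine ⟨h, fun g hg G hG h0 => ?_⟩
  have hF : Lc S F := ⟨S, hS, subset_rfl, h⟩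
  rw [← Einf_mul C hG.univ]
  refine Einf_mono (hG.univ.mul ((hF.aut hg).comp abs)) (hG.univ.smul C) fun w hw => ?_
  rw [mul_comm C]
  exact mul_le_mul_of_nonneg_left (hC _ (val_act hg.adj hw)) (h0 w hw)

lemma Tm.act {C : ℝ} {S : Set V} {F : Cf → ℝ} (h : Tm C S F) {g : V ≃ V} (hg : Aut g) :
    Tm C (g '' S) fun w => F (act g w) :=
  ⟨h.1.act hg.adj, fun g' hg' G hG h0 => h.2 (g.trans g') (hg.trans hg') G (by
    rwa [Equiv.coe_trans, image_comp]) h0⟩

lemma Tm.tr {C : ℝ} {S : Set V} {F : Cf → ℝ} (h : Tm C S F) (p : V) :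
    Tm C (Equiv.addRight p '' S) (tr p F) := h.act (aut_add p)

lemma Gd.lc {K : ℝ} {S H : Set V} {F : Cf → ℝ} (h : Gd K S F) (hH : S ⊆ H) : Lc H F :=
  ⟨S, h.1, hH, h.2.1⟩

lemma Gd.of_sq {K : ℝ} {S : Set V} {F : Cf → ℝ} (hS : S.Finite) (h : Lcl S F)
    (hK : Einf (fun w => F w ^ 2) ≤ K) : Gd K S F := by
  refine ⟨hS, h, fun g hg _ => ?_⟩
  have hF : Lc S F := ⟨S, hS, subset_rfl, h⟩
  have h1 := Einf_mul_sq_le (hF.univ.comp abs) ((hF.aut hg).comp abs)
  simp only [sq_abs] at h1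
  rw [Einf_act hg (hF.univ.comp (· ^ 2)), ← sq] at h1
  exact (abs_le_of_sq_le_sq' h1 (Einf_nonneg (hF.univ.comp (· ^ 2)) fun w _ => sq_nonneg _)).2.trans
    hK

lemma Gd.one : Gd 1 ∅ fun _ => 1 :=
  ⟨finite_empty, Lcl.const _ _, fun _ _ _ => by simp [Einf_const]⟩

lemma Gd.mul {K C : ℝ} {S S' : Set V} {F G : Cf → ℝ} (h : Gd K S F) (h' : Tm C S' G) (hC : 0 ≤ C)
    (hS : S'.Finite) (d : Disjoint S S') : Gd (C * (C * K)) (S ∪ S') fun w => F w * G w := by
  refine ⟨h.1.union hS, (h.2.1.mono subset_union_left).comp₂ (h'.1.mono subset_union_right) (· * ·),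
    fun g hg dg => ?_⟩
  rw [image_union, disjoint_union_left, disjoint_union_right, disjoint_union_right] at dg
  obtain ⟨⟨d1, d2⟩, d3, d4⟩ := dg
  have d5 : Disjoint (g '' S) (g '' S') := (disjoint_image_iff g.injective).2 d
  have lF : ∀ H : Set V, S ⊆ H → g '' S ⊆ H → Lc H fun w => |F w| * |F (act g w)| :=
    fun H h1 h2 => ((h.lc h1).comp abs).mul
      (((h.lc subset_rfl).act hg.adj fun v hv => h2 ⟨v, hv, rfl⟩).comp abs)
  have k1 := h'.2 g hg (fun w => |F w| * |F (act g w)| * |G w|)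
    ((lF _ d2.subset_compl_right d5.subset_compl_right).mul
      (Lc.comp ⟨S', hS, d4.subset_compl_right, h'.1⟩ abs)) fun w _ => by positivity
  have k2 := h'.2 (Equiv.refl V) aut_refl (fun w => |F w| * |F (act g w)|)
    (by
      rw [Equiv.coe_refl, image_id]
      exact lF _ d.subset_compl_right d3.symm.subset_compl_right) fun w _ => by positivity
  have k3 := h.2.2 g hg d1
  refine le_trans (le_of_eq (congrArg Einf (funext fun w => ?_))) (k1.trans
    (mul_le_mul_of_nonneg_left (k2.trans (mul_le_mul_of_nonneg_left k3 hC)) hC))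
  simp only [abs_mul]; ring

lemma Tm.gd {C : ℝ} {S : Set V} {G : Cf → ℝ} (h : Tm C S G) (hC : 0 ≤ C) (hS : S.Finite) :
    Gd (C * (C * 1)) S G := by
  simpa using Gd.one.mul h hC hS (empty_disjoint _)

lemma Gd.norm {K : ℝ} {S : Set V} {F : Cf → ℝ} (h : Gd K S F) (D : Dir) (j : ℤ)
    (hS : (∀ v ∈ S, j < D.ℓ v) ∨ ∀ v ∈ S, D.ℓ v < j) :
    Einf (fun w => F w * F (act (D.θ j) w)) ≤ K := by
  refine le_trans (Einf_mono ((h.lc (subset_univ _)).mul ((h.lc subset_rfl).aut (D.aut j)))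
    (((h.lc (subset_univ _)).comp abs).mul (((h.lc subset_rfl).aut (D.aut j)).comp abs))
    fun w _ => by rw [← abs_mul]; exact le_abs_self _) (h.2.2 _ (D.aut j) ?_)
  rw [disjoint_left]
  rintro _ hv ⟨u, hu, rfl⟩
  have := D.lθ j u
  rcases hS with hS | hS
  · have := hS _ hv; have := hS _ hu; omega
  · have := hS _ hv; have := hS _ hu; omega

/-- one move -/
theorem mv (D : Dir) {ι : Type} (l : Filter ι) {K C : ℝ} (hC : 0 ≤ C) (m : ι → ℕ) (j : ι → ℤ)
    {P A : ι → Cf → ℝ} {SP SA : ι → Set V} (hP : ∀ i, Gd K (SP i) (P i))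
    (hA : ∀ i, Tm C (SA i) (A i)) (fA : ∀ i, (SA i).Finite)
    (h1 : ∀ i, ∀ v ∈ SP i, D.ℓ v < j i) (h2 : ∀ i, ∀ v ∈ SA i, j i + 2 * m i < D.ℓ v) (J : ℕ)
    (hJ : ∀ k : ℕ, J ≤ k →
      Tendsto (fun i => Einf fun w => P i w * tr ((k * m i) • D.t) (A i) w) l (𝓝 0)) :
    Tendsto (fun i => Einf fun w => P i w * A i w) l (𝓝 0) := by
  have lx : ∀ i, Lc {v | j i ≤ D.ℓ v} fun w => P i (act (D.θ (j i)) w) := fun i =>
    ((hP i).lc subset_rfl).act (D.aut _).adj fun v hv => by
      have := h1 i v hv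
      have := D.lθ (j i) v
      simp only [mem_ofPred_eq]; omega
  have gy : ∀ i, Gd (C * (C * 1)) (Equiv.addRight (-(m i • D.t)) '' SA i)
      (tr (-(m i • D.t)) (A i)) := fun i => ((hA i).tr _).gd hC ((fA i).image _)
  have sy : ∀ i, ∀ v ∈ Equiv.addRight (-(m i • D.t)) '' SA i, j i < D.ℓ v := by
    rintro i _ ⟨v, hv, rfl⟩
    have := h2 i v hv
    have := D.l_sub (m i) v
    simp only [Equiv.coe_addRight]; omega
  have ly : ∀ i, Lc {v | j i ≤ D.ℓ v} (tr (-(m i • D.t)) (A i)) := fun i =>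
    (gy i).lc fun v hv => (sy i v hv).le
  have θθ : ∀ i (w : Cf), act (D.θ (j i)) (act (D.θ (j i)) w) = w := fun i w => by
    funext v; simp [act, D.inv]
  have key : ∀ i (k : ℕ), D.B (j i) ⟨_, lx i⟩ (((D.T (j i) ^ m i) ^ (k + 1)) ⟨_, ly i⟩) =
      Einf fun w => P i w * tr ((k * m i) • D.t) (A i) w := by
    intro i k
    rw [Dir.B_apply, ← pow_mul, Dir.T_pow]
    simp only [θθ, tr_tr]
    rw [show -(m i • D.t) + (m i * (k + 1)) • D.t = (k * m i) • D.t by
      rw [mul_add, mul_one, add_nsmul, mul_comm]; abel]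
    simp only [mul_comm]
  have := move_null' l (fun i => LcS {v | j i ≤ D.ℓ v}) (fun i => D.B (j i))
    (fun i => D.T (j i) ^ m i) (fun i => (D.posCon (j i)).pow (m i)) (fun i => ⟨_, lx i⟩)
    (fun i => ⟨_, ly i⟩) (max K (C * (C * 1)))
    (fun i => le_max_of_le_left (by
      have := (hP i).norm D (j i) (Or.inr (h1 i))
      rw [Dir.B_apply]
      simpa only [θθ, mul_comm] using this))
    (fun i => le_max_of_le_right ((gy i).norm D (j i) (Or.inl (sy i)))) (J + 1) fun k hk => by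
      obtain ⟨k, rfl⟩ : ∃ k', k = k' + 1 := ⟨k - 1, by omega⟩
      simp only [key]
      exact hJ k (by omega)
  refine this.congr fun i => ?_
  have := key i 0
  rw [zero_add, pow_one, zero_mul, zero_nsmul, tr_zero] at this
  exact this

/-- the last step: Cauchy Schwarz -/
theorem fin_null (D : Dir) {ι : Type} (l : Filter ι) {K : ℝ} (j : ι → ℤ) {X G : ι → Cf → ℝ}
    {SG : ι → Set V} (hX : ∀ i, Lc {v | j i ≤ D.ℓ v} (X i)) (hG : ∀ i, Gd K (SG i) (G i))
    (h1 : ∀ i, ∀ v ∈ SG i, D.ℓ v < j i)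
    (null : Tendsto (fun i => Einf fun w => X i w * X i (act (D.θ (j i)) w)) l (𝓝 0)) :
    Tendsto (fun i => Einf fun w => X i w * G i w) l (𝓝 0) := by
  have lx : ∀ i, Lc {v | j i ≤ D.ℓ v} fun w => G i (act (D.θ (j i)) w) := fun i =>
    ((hG i).lc subset_rfl).act (D.aut _).adj fun v hv => by
      have := h1 i v hv
      have := D.lθ (j i) v
      simp only [mem_ofPred_eq]; omega
  have θθ : ∀ i (w : Cf), act (D.θ (j i)) (act (D.θ (j i)) w) = w := fun i w => by
    funext v; simp [act, D.inv]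
  have b : ∀ i, (Einf fun w => X i w * G i w) ^ 2 ≤
      K * Einf fun w => X i w * X i (act (D.θ (j i)) w) := by
    intro i
    have c := (D.posCon (j i)).cs ⟨_, lx i⟩ ⟨_, hX i⟩
    have n := (hG i).norm D (j i) (Or.inr (h1 i))
    simp only [Dir.B_apply, θθ] at c
    refine c.trans (mul_le_mul_of_nonneg_right ?_ (D.rp _ _ (hX i)))
    simpa only [mul_comm] using n
  have t := squeeze_zero (fun i => sq_nonneg _) b (by simpa using null.const_mul K)
  have t2 := (Real.continuous_sqrt.tendsto 0).comp t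
  rw [Real.sqrt_zero] at t2
  rw [tendsto_zero_iff_abs_tendsto_zero]
  refine t2.congr fun i => ?_
  simp [Real.sqrt_sq_eq_abs]

/-- Reeh Schlieder argument for three groups around a triangle -/
theorem rs3 {ι : Type} (l : Filter ι) (L : ℕ) {C : ℝ} (hC : 0 ≤ C) (m : ι → ℕ)
    (a b c : ι → ℤ) {X F A B : ι → Cf → ℝ} {SX SF SA SB : ι → Set V} (hm : ∀ i, 1 ≤ m i)
    (bX : ∀ i, SX i ⊆ Bx 0 (L * m i)) (bF : ∀ i, SF i ⊆ Bx 0 (L * m i))
    (bA : ∀ i, SA i ⊆ Bx 0 (L * m i)) (bB : ∀ i, SB i ⊆ Bx 0 (L * m i))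
    (aA : ∀ i, ∀ v ∈ SA i, v.1 < a i - 2 * m i) (aX : ∀ i, ∀ v ∈ SX i, a i < v.1)
    (aF : ∀ i, ∀ v ∈ SF i, a i < v.1) (aB : ∀ i, ∀ v ∈ SB i, a i < v.1)
    (sB : ∀ i, ∀ v ∈ SB i, b i + 2 * m i < v.1 + v.2) (sX : ∀ i, ∀ v ∈ SX i, v.1 + v.2 < b i)
    (sF : ∀ i, ∀ v ∈ SF i, v.1 + v.2 < b i) (cF : ∀ i, ∀ v ∈ SF i, v.2 < c i)
    (cX : ∀ i, ∀ v ∈ SX i, c i < v.2) (hb : ∀ i, -(2 * (L * m i : ℤ)) ≤ b i)
    (hc : ∀ i, -(L * m i : ℤ) ≤ c i) (lX : ∀ i, Lcl (SX i) (X i))
    (X2 : ∀ i, Einf (fun w => X i w ^ 2) ≤ C) (tF : ∀ i, Tm C (SF i) (F i))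
    (tA : ∀ i, Tm C (SA i) (A i)) (tB : ∀ i, Tm C (SB i) (B i))
    (null : Tendsto (fun i => Einf fun w => X i w * X i (act (rfj (c i)) w)) l (𝓝 0)) :
    Tendsto (fun i => Einf fun w => X i w * F i w * A i w * B i w) l (𝓝 0) := by
  have fX := fun i => (Bx_finite _ _).subset (bX i)
  have fF := fun i => (Bx_finite _ _).subset (bF i)
  have fA := fun i => (Bx_finite _ _).subset (bA i)
  have fB := fun i => (Bx_finite _ _).subset (bB i)
  have qX := fun i v hv => mem_Bx0.1 (bX i (a := v) hv)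
  have qF := fun i v hv => mem_Bx0.1 (bF i (a := v) hv)
  have qA := fun i v hv => mem_Bx0.1 (bA i (a := v) hv)
  have qB := fun i v hv => mem_Bx0.1 (bB i (a := v) hv)
  have m1 : ∀ i, (1 : ℤ) ≤ m i := fun i => by exact_mod_cast hm i
  have L0 : ∀ i, (0 : ℤ) ≤ L * m i := fun i => by positivity
  have gX := fun i => Gd.of_sq (fX i) (lX i) (X2 i)
  have gXF := fun i => (gX i).mul (tF i) hC (fF i) (disjoint_left.2 fun v h1 h2 => by
    have := cX i v h1; have := cF i v h2; omega)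
  have gXFB := fun i => (gXF i).mul (tB i) hC (fB i) (disjoint_left.2 fun v h1 h2 => by
    have := sB i v h2
    rcases h1 with h1 | h1
    · have := sX i v h1; omega
    · have := sF i v h1; omega)
  let D0 := dir0 rps
  have big : ∀ {k r s : ℕ}, r * L + s ≤ k → ∀ i, (r : ℤ) * (L * m i) + s * m i ≤ k * m i := by
    intro k r s h i
    have h' : (r : ℤ) * L + s ≤ k := by exact_mod_cast h
    nlinarith [m1 i]
  -- first move of `A`
  have step : Tendsto (fun i => Einf fun w => X i w * F i w * B i w * A i w) l (𝓝 0) := by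
    refine mv D0.rot l hC m (fun i => -a i) gXFB tA fA ?_ ?_ (4 * L + 4) fun k1 hk1 => ?_
    · intro i v hv
      change -v.1 < _
      rcases hv with (hv | hv) | hv
      · have := aX i v hv; omega
      · have := aF i v hv; omega
      · have := aB i v hv; omega
    · intro i v hv
      change _ < -v.1
      have := aA i v hv; omega
    have b1 := big hk1
    have tA1 := fun i => (tA i).tr ((k1 * m i) • D0.rot.t)
    have qA1 : ∀ i, ∀ v ∈ Equiv.addRight ((k1 * m i) • D0.rot.t) '' SA i, ∃ u ∈ SA i,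
        v.1 = u.1 - 2 * (k1 * m i) ∧ v.2 = u.2 + k1 * m i := by
      rintro i _ ⟨u, hu, rfl⟩
      refine ⟨u, hu, ?_, ?_⟩ <;> simp [D0, dir0, Dir.rot, rotE, Pl.rot]; ring
    -- second move of `A`
    refine mv D0.rot.rot l hC m (fun i => 2 * (L * m i) + 1) gXFB tA1 (fun i => (fA i).image _)
      ?_ ?_ (2 * L + (k1 + 1)) fun k2 hk2 => ?_
    · intro i v hv
      change -(v.1 + v.2) < _
      rcases hv with (hv | hv) | hv
      · have := qX i v hv; omega
      · have := qF i v hv; omega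
      · have := qB i v hv; omega
    · intro i v hv
      change _ < -(v.1 + v.2)
      obtain ⟨u, hu, e1, e2⟩ := qA1 i v hv
      have := qA i u hu
      have := b1 i
      have := m1 i
      push_cast at *
      omega
    have b2 := big hk2
    have tA2 := fun i => (tA1 i).tr ((k2 * m i) • D0.rot.rot.t)
    have fA2 := fun i => ((fA i).image (Equiv.addRight ((k1 * m i) • D0.rot.t))).image
      (Equiv.addRight ((k2 * m i) • D0.rot.rot.t))
    have qA2 : ∀ i, ∀ v ∈ Equiv.addRight ((k2 * m i) • D0.rot.rot.t) ''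
        (Equiv.addRight ((k1 * m i) • D0.rot.t) '' SA i),
        v.1 < -(L * m i : ℤ) ∧ v.2 < -(L * m i : ℤ) := by
      rintro i _ ⟨v, hv, rfl⟩
      obtain ⟨u, hu, e1, e2⟩ := qA1 i v hv
      have := qA i u hu
      have := b1 i
      have := b2 i
      have := m1 i
      have := L0 i
      have e3 : (Equiv.addRight ((k2 * m i) • D0.rot.rot.t) v).1 = v.1 - k2 * m i := by
        simp [D0, dir0, Dir.rot, rotE, Pl.rot]; ring
      have e4 : (Equiv.addRight ((k2 * m i) • D0.rot.rot.t) v).2 = v.2 - k2 * m i := by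
        simp [D0, dir0, Dir.rot, rotE, Pl.rot]; ring
      rw [e3, e4]
      push_cast at *
      rw [add_mul] at *
      omega
    have gXFA := fun i => (gXF i).mul (tA2 i) hC (fA2 i) (disjoint_left.2 fun v h1 h2 => by
      have := qA2 i v h2
      rcases h1 with h1 | h1
      · have := qX i v h1; omega
      · have := qF i v h1; omega)
    simp only [mul_right_comm _ (B _ _)]
    -- first move of `B`
    refine mv D0.rot.rot.rot.rot.rot l hC m b gXFA tB fB ?_ ?_ (2 * L + 4) fun k3 hk3 => ?_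
    · intro i v hv
      have e : D0.rot.rot.rot.rot.rot.ℓ v = v.1 + v.2 := by simp [D0, dir0, Dir.rot, rotE]
      rw [e]
      rcases hv with (hv | hv) | hv
      · exact sX i v hv
      · exact sF i v hv
      · have := qA2 i v hv; have := hb i; omega
    · intro i v hv
      have e : D0.rot.rot.rot.rot.rot.ℓ v = v.1 + v.2 := by simp [D0, dir0, Dir.rot, rotE]
      rw [e]
      exact sB i v hv
    have b3 := big hk3
    have tB1 := fun i => (tB i).tr ((k3 * m i) • D0.rot.rot.rot.rot.rot.t)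
    have qB1 : ∀ i, ∀ v ∈ Equiv.addRight ((k3 * m i) • D0.rot.rot.rot.rot.rot.t) '' SB i,
        ∃ u ∈ SB i, v.1 = u.1 + k3 * m i ∧ v.2 = u.2 + k3 * m i := by
      rintro i _ ⟨u, hu, rfl⟩
      refine ⟨u, hu, ?_, ?_⟩ <;> simp [D0, dir0, Dir.rot, rotE, Pl.rot]
    -- second move of `B`
    refine mv D0.rot.rot.rot.rot l hC m (fun i => L * m i + 1) gXFA tB1 (fun i => (fB i).image _)
      ?_ ?_ (2 * L + (k3 + 1)) fun k4 hk4 => ?_
    · intro i v hv
      have e : D0.rot.rot.rot.rot.ℓ v = v.1 := by simp [D0, dir0, Dir.rot, rotE]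
      rw [e]
      rcases hv with (hv | hv) | hv
      · have := qX i v hv; omega
      · have := qF i v hv; omega
      · have := qA2 i v hv; have := L0 i; omega
    · intro i v hv
      have e : D0.rot.rot.rot.rot.ℓ v = v.1 := by simp [D0, dir0, Dir.rot, rotE]
      rw [e]
      obtain ⟨u, hu, e1, e2⟩ := qB1 i v hv
      have := qB i u hu
      have := b3 i
      have := m1 i
      push_cast at *
      omega
    have b4 := big hk4
    have tB2 := fun i => (tB1 i).tr ((k4 * m i) • D0.rot.rot.rot.rot.t)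
    have fB2 := fun i => ((fB i).image (Equiv.addRight ((k3 * m i) •
      D0.rot.rot.rot.rot.rot.t))).image (Equiv.addRight ((k4 * m i) • D0.rot.rot.rot.rot.t))
    have qB2 : ∀ i, ∀ v ∈ Equiv.addRight ((k4 * m i) • D0.rot.rot.rot.rot.t) ''
        (Equiv.addRight ((k3 * m i) • D0.rot.rot.rot.rot.rot.t) '' SB i),
        (L * m i : ℤ) < v.1 ∧ v.2 < -(L * m i : ℤ) := by
      rintro i _ ⟨v, hv, rfl⟩
      obtain ⟨u, hu, e1, e2⟩ := qB1 i v hv
      have := qB i u hu
      have := b3 i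
      have := b4 i
      have := m1 i
      have := L0 i
      have e3 : (Equiv.addRight ((k4 * m i) • D0.rot.rot.rot.rot.t) v).1 =
          v.1 + 2 * (k4 * m i) := by
        simp [D0, dir0, Dir.rot, rotE, Pl.rot]; ring
      have e4 : (Equiv.addRight ((k4 * m i) • D0.rot.rot.rot.rot.t) v).2 = v.2 - k4 * m i := by
        simp [D0, dir0, Dir.rot, rotE, Pl.rot]; ring
      rw [e3, e4]
      push_cast at *
      rw [add_mul] at *
      omega
    have gFA := fun i => ((tF i).gd hC (fF i)).mul (tA2 i) hC (fA2 i)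
      (disjoint_left.2 fun v h1 h2 => by have := qA2 i v h2; have := qF i v h1; omega)
    have gFAB := fun i => (gFA i).mul (tB2 i) hC (fB2 i) (disjoint_left.2 fun v h1 h2 => by
      have := qB2 i v h2
      rcases h1 with h1 | h1
      · have := qF i v h1; omega
      · have := qA2 i v h1; have := L0 i; omega)
    have := fin_null D0 l c (fun i => ⟨SX i, fX i, fun v hv => (cX i v hv).le, lX i⟩) gFAB
      (fun i v hv => by
        change v.2 < _
        rcases hv with (hv | hv) | hv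
        · exact cF i v hv
        · have := qA2 i v hv; have := hc i; omega
        · have := qB2 i v hv; have := hc i; omega) null
    simpa only [mul_assoc] using this
  simpa only [mul_right_comm _ (B _ _)] using step

end Pool.Agent.Lib.MP_6359c9_pr
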