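import Pool.Agent.Lib.MP_6359c9_pr.Rm
import Pool.Agent.Lib.MP_6359c9_pr.Rs

/-! Vocabulary and intermediate statements for the orthogonality of null functions. -/

namespace Pool.Agent.Lib.MP_6359c9_pr

open Set Filter Topology

namespace Nl

/-- the typical conditional probability of a separator in a thick annulus -/
def TypG : Prop := ∀ (L : ℕ) (ε : ℝ), 0 < ε → ∃ (c : ℝ) (d0 : ℤ), 0 < c ∧
  ∀ (ρ : V → Set Bool) (W I : Set V) (x : V) (d : ℤ) (F : Cf → ℝ), Tame ρ W → d0 ≤ d →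
    I ⊆ Bx x (L * d) → Free ρ W (Nbd I d \ I) → Lcl (I ∪ (Nbd I d)ᶜ) F →
    (∀ w ∈ Val, 0 ≤ F w ∧ F w ≤ 1) →
    c * (Ex (MS ρ W) F - ε) ≤ Ex (MS ρ W) fun w => sepI I (Nbd I d)ᶜ w * F w

/-- the constraints `ρ` with red plus forced on `S` -/
def fo (ρ : V → Set Bool) (S : Set V) (v : V) : Set Bool := {a | a ∈ ρ v ∧ (v ∈ S → a = true)}

lemma MS_fo (ρ : V → Set Bool) (S W : Set V) : MS (fo ρ S) W = MS ρ W ∩ RP S :=
  Set.ext fun _ => ⟨fun h => ⟨⟨h.1, fun v => ⟨(h.2 v).1.1, (h.2 v).2⟩⟩, fun v => (h.2 v).1.2⟩,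
    fun h => ⟨h.1.1, fun v => ⟨⟨(h.1.2 v).1, h.2 v⟩, (h.1.2 v).2⟩⟩⟩

lemma tame_fo {ρ : V → Set Bool} {S W : Set V} (h : Tame ρ W) (hS : ∀ v ∈ S, true ∈ ρ v) :
    Tame (fo ρ S) W where
  fin := h.fin
  co := h.co
  sub := let ⟨U, h1, h2⟩ := h.sub; ⟨U, h1, fun v hv => (h2 v hv).anti fun _ ha => ha.1⟩
  ne := fun v => by
    by_cases hv : v ∈ S
    · exact ⟨true, hS v hv, fun _ => rfl⟩
    · exact let ⟨a, ha⟩ := h.ne v; ⟨a, ha, fun h => absurd h hv⟩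

lemma free_fo {ρ : V → Set Bool} {S W A : Set V} (h : Free ρ W A) (d : ∀ v ∈ A, v ∉ S) :
    Free (fo ρ S) W A := fun v hv => ⟨eq_univ_of_forall fun _ =>
      ⟨(h v hv).1 ▸ mem_univ _, fun hs => absurd hs (d v hv)⟩, (h v hv).2⟩

lemma fo_fo (ρ : V → Set Bool) (S S' : Set V) : fo (fo ρ S) S' = fo ρ (S ∪ S') := by
  funext v; ext a
  simp only [fo, mem_setOf_eq, mem_union, or_imp, and_assoc]

/-- the plane expectation given red plus on `S` -/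
noncomputable def Pc (S : Set V) (G : Cf → ℝ) : ℝ := Einf (fun w => G w * rpI S w) / Einf (rpI S)

/-- large boxes with red plus forced on `S` -/
abbrev BgS (S : Set V) (R : ℕ) : Set Cf := MS (fo (off true (Bx 0 R)) S) (Bx 0 R)

/-- `wt` is a renewal weight for the region `A` with defect `b` and support `B` -/
structure Rn (M : Set Cf) (A B : Set V) (wt b : Cf → ℝ) : Prop where
  lw : Lcl B wt
  lb : Lcl B b
  bd : ∀ w ∈ Val, 0 ≤ b w ∧ b w ≤ 1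
  id : ∀ G : Cf → ℝ, Lcl Aᶜ G → Ex M (fun w => G w * wt w) = Ex M fun w => G w * (1 - b w)

lemma Rn.mono {M : Set Cf} {A A' B B' : Set V} {wt b : Cf → ℝ} (h : Rn M A B wt b) (hA : A ⊆ A')
    (hB : B ⊆ B') : Rn M A' B' wt b :=
  ⟨h.lw.mono hB, h.lb.mono hB, h.bd, fun G hG => h.id G (hG.mono (compl_subset_compl.2 hA))⟩

lemma Rn.mul {M : Set Cf} {A A' B B' : Set V} {wt wt' b b' : Cf → ℝ} (h : Rn M A B wt b)
    (h' : Rn M A' B' wt' b') (d : B ⊆ A'ᶜ) (d' : B' ⊆ Aᶜ) :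
    Rn M (A ∪ A') (B ∪ B') (fun w => wt w * wt' w) fun w => b w + b' w - b w * b' w where
  lw := (h.lw.mono subset_union_left).comp₂ (h'.lw.mono subset_union_right) (· * ·)
  lb := (h.lb.mono subset_union_left).comp₂ (h'.lb.mono subset_union_right)
    fun s t => s + t - s * t
  bd := fun w hw => by
    have := h.bd w hw
    have := h'.bd w hw
    constructor <;> nlinarith
  id := fun G hG => by
    have e1 := h'.id (fun w => G w * wt w)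
      ((hG.mono (compl_subset_compl.2 subset_union_right)).comp₂ (h.lw.mono d) (· * ·))
    have e2 := h.id (fun w => G w * (1 - b' w))
      ((hG.mono (compl_subset_compl.2 subset_union_left)).comp₂ (h'.lb.mono d')
        fun s t => s * (1 - t))
    calc _ = Ex M fun w => G w * wt w * wt' w := ex_congr fun w _ => by ring
      _ = Ex M fun w => G w * (1 - b' w) * wt w := e1.trans (ex_congr fun w _ => by ring)
      _ = _ := e2.trans (ex_congr fun w _ => by ring)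

lemma Rn.mul_le {M : Set Cf} (hM : M ⊆ Val) {A A' B B' : Set V} {wt wt' b b' : Cf → ℝ}
    (h : Rn M A B wt b) (h' : Rn M A' B' wt' b') :
    Ex M (fun w => b w + b' w - b w * b' w) ≤ Ex M b + Ex M b' := by
  rw [← ex_add]
  exact ex_mono fun w hw => by nlinarith [h.bd w (hM hw), h'.bd w (hM hw)]

/-- the double layer along the loop -/
def Lam (x : V) (n : ℤ) : Set V := Bx x (6 * n + 1) \ Bx x (6 * n - 1)

/-- the boxes around the three cut points -/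
def Cn (x : V) (n r : ℤ) : Set V :=
  Bx (x.1 - 2 * n, x.2 + 6 * n) r ∪ Bx (x.1 - 2 * n, x.2 - 6 * n) r ∪
    Bx (x.1 + 6 * n, x.2 - 3 * n) r

/-- the left arc -/
def IA (x : V) (n z : ℤ) : Set V := {v | v ∈ Lam x n ∧ v.1 < x.1 - 2 * n - z}

/-- the lower arc -/
def IF (x : V) (n z : ℤ) : Set V :=
  {v | v ∈ Lam x n ∧ x.1 - 2 * n + z < v.1 ∧ v.2 < x.2 - 3 * n - z}

/-- the upper right arc -/
def IB (x : V) (n z : ℤ) : Set V :=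
  {v | v ∈ Lam x n ∧ x.1 - 2 * n + z < v.1 ∧ x.2 - 3 * n + z < v.2}

/-- one renewal weight -/
def RnSt : Prop := ∀ (L : ℕ) (ε : ℝ), 0 < ε → ∃ (c : ℝ) (d0 : ℤ), 0 < c ∧
  ∀ (I : Set V) (x : V) (d : ℤ), d0 ≤ d → I ⊆ Bx x (L * d) → ∃ wt b : Cf → ℝ,
    Lcl (cl (Nbd I d \ I)) wt ∧ (∀ w ∈ Val, 0 ≤ wt w ∧ c * wt w ≤ sepI I (Nbd I d)ᶜ w) ∧
    ∀ (ρ : V → Set Bool) (W : Set V), Tame ρ W → Free ρ W (Nbd I d \ I) →
      Rn (MS ρ W) (Nbd I d \ I) (cl (Nbd I d \ I)) wt b ∧ Ex (MS ρ W) b ≤ ε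

/-- the weight of a group: two rings -/
def GrpSt : Prop := ∀ (L : ℕ) (ε : ℝ), 0 < ε → ∃ (C : ℝ) (d0 : ℤ), 0 < C ∧
  ∀ (I : Set V) (x : V) (d : ℤ), d0 ≤ d → I ⊆ Bx x (L * d) → ∃ wt b : Cf → ℝ,
    Lcl (Nbd I (4 * d)) wt ∧
    (∀ g : Cf → ℝ, Lcl I g → (∀ w ∈ Val, 0 ≤ g w) →
      Tm C (Nbd I (4 * d)) fun w => g w * wt w / Einf g) ∧
    ∀ (ρ : V → Set Bool) (W : Set V), Tame ρ W → Free ρ W (Nbd I (4 * d) \ I) →
      Rn (MS ρ W) (Nbd I (4 * d) \ I) (Nbd I (4 * d)) wt b ∧ Ex (MS ρ W) b ≤ ε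

/-- expansion over the spins of the three groups -/
def FacSt : Prop := ∀ (I1 I2 I3 S1 S2 S3 : Set V) (X s W1 W2 W3 : Cf → ℝ) (η : ℝ), I1.Finite →
  I2.Finite → I3.Finite → S1 ⊆ I1 → S2 ⊆ I2 → S3 ⊆ I3 → Lc univ X → Lc univ W1 → Lc univ W2 →
  Lc univ W3 → DependsOn s (I1 ∪ I2 ∪ I3) → (∀ w, |s w| ≤ 1) →
  (∀ g1 g2 g3 : Cf → ℝ, Lcl I1 g1 → Lcl I2 g2 → Lcl I3 g3 → (∀ w ∈ Val, 0 ≤ g1 w) →
    (∀ w ∈ Val, 0 ≤ g2 w) → (∀ w ∈ Val, 0 ≤ g3 w) → |Einf fun w => X w *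
      (g1 w * W1 w / Einf g1) * (g2 w * W2 w / Einf g2) * (g3 w * W3 w / Einf g3)| ≤ η) →
  |Pc (S1 ∪ S2 ∪ S3) fun w => X w * s w * (W1 w * W2 w * W3 w)| ≤ η

/-- the conditional mean given the spins on `Ξ` and red plus on `H` does not depend on the model -/
def CondSt : Prop := ∀ (D H Ξ : Set V) (X : Cf → ℝ), D.Finite → Lcl D X → Ξ ⊆ Dᶜ →
  (∀ u, u ∉ D → u ∉ Ξ → ∀ v ∈ D, Adj u v → u ∈ H ∧ v ∈ H) → ∃ f : Cf → ℝ, DependsOn f Ξ ∧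
    ∀ (ρ : V → Set Bool) (W : Set V), Tame ρ W → Free ρ W D → ∀ Y : Cf → ℝ, Lcl Dᶜ Y →
      Ex (MS (fo ρ H) W) (fun w => X w * Y w) = Ex (MS (fo ρ H) W) fun w => f w * Y w

/-- contiguity of a conditioned domain model and the conditioned plane -/
def CtgSt : Prop := ∀ ε : ℝ, 0 < ε → ∃ (C : ℝ) (n0 : ℤ), 0 < C ∧ ∀ (ρ : V → Set Bool)
  (W S : Set V) (x : V) (n : ℤ) (F : Cf → ℝ), Tame ρ W → n0 ≤ n → Free ρ W (Bx x (11 * n)) →
    S ⊆ Bx x (7 * n) → Lcl (Bx x (7 * n)) F → (∀ w ∈ Val, 0 ≤ F w ∧ F w ≤ 1) →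
    Ex (MS (fo ρ S) W) F ≤ ε + C * Pc S F

/-- the conditioned plane as a limit -/
def LimSt : Prop := ∀ (S : Set V) (G : Cf → ℝ), S.Finite → Lc univ G →
  Tendsto (fun R : ℕ => Ex (BgS S R) G) atTop (𝓝 (Pc S G))

/-- forcing red plus near the cut points changes little -/
def TvSt : Prop := ∃ Ca α : ℝ, 0 < Ca ∧ 0 < α ∧ ∀ (ρ : V → Set Bool) (W S : Set V) (x : V)
  (n r r' : ℤ) (G : Cf → ℝ) (C M : ℝ), Tame ρ W → 1 ≤ r → r ≤ r' →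
    (∀ v ∈ Cn x n r', true ∈ ρ v ∧ v ∈ W) → S ⊆ Cn x n r → Lcl (Cn x n r')ᶜ G →
    Ex (MS ρ W) (fun w => G w ^ 2) ≤ C → Ex (MS (fo ρ S) W) (fun w => G w ^ 2) ≤ C → 0 < M →
    |Ex (MS (fo ρ S) W) G - Ex (MS ρ W) G| ≤ 2 * C / M + M * (Ca * ((r : ℝ) / r') ^ α)

/-- the Reeh Schlieder argument, uniformly in the three groups -/
def RsSt : Prop := ∀ (ι : Type) (l : Filter ι) (q : ℕ) (C : ℝ) (n d : ι → ℤ) (x : ι → V)
  (X : ι → Cf → ℝ), 0 ≤ C →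
    (∀ᶠ i in l, 1 ≤ d i ∧ 12 * d i ≤ n i ∧ n i ≤ q * d i ∧ Lcl (Bx (x i) (n i)) (X i) ∧
      Einf (fun w => X i w ^ 2) ≤ C) →
    Tendsto (fun i => Einf fun w => X i w * X i (act (rfj ((x i).2 - 2 * n i)) w)) l (𝓝 0) →
    ∀ η : ℝ, 0 < η → ∀ᶠ i in l, ∀ F A B : Cf → ℝ,
      Tm C (Nbd (IF (x i) (n i) (12 * d i)) (4 * d i)) F →
      Tm C (Nbd (IA (x i) (n i) (12 * d i)) (4 * d i)) A →
      Tm C (Nbd (IB (x i) (n i) (12 * d i)) (4 * d i)) B →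
      |Einf fun w => X i w * F w * A w * B w| ≤ η

end Nl

end Pool.Agent.Lib.MP_6359c9_pr
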