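import Pool.Agent.Lib.MP_6359c9_pr.NlDef

/-! Expansion over the spins of the three groups. -/

namespace Pool.Agent.Lib.MP_6359c9_pr

open Set Filter Topology

namespace Nl

open Classical in
/-- the indicator of a spin pattern on `I` -/
noncomputable def pat (I : Set V) (p : I → Bool × Bool) (w : Cf) : ℝ :=
  if (fun v : I => w v) = p then 1 else 0

lemma pat_lcl (I : Set V) (p : I → Bool × Bool) : Lcl I (pat I p) := fun w _ w' _ e => by
  unfold pat
  rw [show (fun v : I => w v) = fun v : I => w' v from funext fun v => e v v.2]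

lemma pat_nonneg (I : Set V) (p : I → Bool × Bool) (w : Cf) : 0 ≤ pat I p w := by
  unfold pat; split_ifs <;> norm_num

lemma sum_pat {I : Set V} [Fintype (I → Bool × Bool)] (w : Cf) (F : (I → Bool × Bool) → ℝ) :
    ∑ p, pat I p w * F p = F fun v => w v := by
  classical
  rw [Finset.sum_eq_single (fun v : I => w v) (fun p _ e => by
    rw [pat, if_neg e.symm, zero_mul]) (by simp), pat, if_pos rfl, one_mul]

lemma rpI_nonneg (S : Set V) (w : Cf) : 0 ≤ rpI S w := indicator_nonneg (fun _ _ => zero_le_one) _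

lemma lcl_rpI (S : Set V) : Lcl S (rpI S) := fun w _ w' _ e => by
  have : w ∈ RP S ↔ w' ∈ RP S := forall₂_congr fun v hv => by rw [e v hv]
  by_cases h : w ∈ RP S
  · rw [rpI, indicator_of_mem h, indicator_of_mem (this.1 h)]; rfl
  · rw [rpI, indicator_of_notMem h, indicator_of_notMem (mt this.2 h)]

lemma rpI_union (S S' : Set V) (w : Cf) : rpI (S ∪ S') w = rpI S w * rpI S' w := by
  have : RP (S ∪ S') = RP S ∩ RP S' := Set.ext fun w => by
    simp only [RP, mem_ofPred_eq, mem_union, or_imp, forall_and, mem_inter_iff]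
  rw [rpI, this, inter_indicator_one]; rfl

lemma einf_zero {g F : Cf → ℝ} (hg : Lc univ g) (hF : Lc univ F) (g0 : ∀ w ∈ Val, 0 ≤ g w)
    (h : Einf g = 0) : Einf (fun w => g w * F w) = 0 := by
  obtain ⟨B, -, hB⟩ := hF.bdd
  have h1 := (abs_Einf (hg.mul hF)).trans (Einf_mono ((hg.mul hF).comp fun t => |t|) (hg.smul B)
    fun w hw => by
      rw [abs_mul, abs_of_nonneg (g0 w hw), mul_comm B]
      exact mul_le_mul_of_nonneg_left (hB w hw) (g0 w hw))
  rw [Einf_mul B hg, h, mul_zero] at h1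
  exact abs_nonpos_iff.1 h1

lemma fac_one {X W1 W2 W3 g1 g2 g3 : Cf → ℝ} {η : ℝ} (hX : Lc univ X) (h1 : Lc univ W1)
    (h2 : Lc univ W2) (h3 : Lc univ W3) (l1 : Lc univ g1) (l2 : Lc univ g2) (l3 : Lc univ g3)
    (p1 : ∀ w ∈ Val, 0 ≤ g1 w) (p2 : ∀ w ∈ Val, 0 ≤ g2 w) (p3 : ∀ w ∈ Val, 0 ≤ g3 w)
    (h : |Einf fun w => X w * (g1 w * W1 w / Einf g1) * (g2 w * W2 w / Einf g2) *
      (g3 w * W3 w / Einf g3)| ≤ η) :
    |Einf fun w => X w * (g1 w * W1 w) * (g2 w * W2 w) * (g3 w * W3 w)| ≤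
      η * (Einf g1 * (Einf g2 * Einf g3)) := by
  by_cases z1 : Einf g1 = 0
  · rw [Einf_congr (G := fun w => g1 w * (X w * W1 w * (g2 w * W2 w) * (g3 w * W3 w)))
      fun w _ => by ring, einf_zero l1 (((hX.mul h1).mul (l2.mul h2)).mul (l3.mul h3)) p1 z1, z1]
    simp
  by_cases z2 : Einf g2 = 0
  · rw [Einf_congr (G := fun w => g2 w * (X w * W2 w * (g1 w * W1 w) * (g3 w * W3 w)))
      fun w _ => by ring, einf_zero l2 (((hX.mul h2).mul (l1.mul h1)).mul (l3.mul h3)) p2 z2, z2]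
    simp
  by_cases z3 : Einf g3 = 0
  · rw [Einf_congr (G := fun w => g3 w * (X w * W3 w * (g1 w * W1 w) * (g2 w * W2 w)))
      fun w _ => by ring, einf_zero l3 (((hX.mul h3).mul (l1.mul h1)).mul (l2.mul h2)) p3 z3, z3]
    simp
  have q : 0 ≤ Einf g1 * (Einf g2 * Einf g3) := mul_nonneg (Einf_nonneg l1 p1)
    (mul_nonneg (Einf_nonneg l2 p2) (Einf_nonneg l3 p3))
  rw [Einf_congr (G := fun w => Einf g1 * (Einf g2 * Einf g3) * (X w * (g1 w * W1 w / Einf g1) *
    (g2 w * W2 w / Einf g2) * (g3 w * W3 w / Einf g3))) fun w _ => by field_simp,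
    Einf_mul _ (((hX.mul ((l1.mul h1).comp (· / Einf g1))).mul
      ((l2.mul h2).comp (· / Einf g2))).mul ((l3.mul h3).comp (· / Einf g3))), abs_mul,
    abs_of_nonneg q, mul_comm]
  exact mul_le_mul_of_nonneg_right h q

lemma sum_einf {I S : Set V} [Fintype (I → Bool × Bool)] (hI : I.Finite) (hS : S ⊆ I) :
    ∑ p, Einf (fun w => pat I p w * rpI S w) = Einf (rpI S) := by
  rw [← Einf_sum _ fun p _ => ⟨I, hI, subset_univ _,
    (pat_lcl I p).comp₂ ((lcl_rpI S).mono hS) (· * ·)⟩]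
  exact Einf_congr fun w _ => sum_pat w fun _ => rpI S w

theorem facSt : FacSt := by
  classical
  intro I1 I2 I3 S1 S2 S3 X s W1 W2 W3 η f1 f2 f3 s1 s2 s3 hX h1 h2 h3 hs sb h
  have := f1.fintype
  have := f2.fintype
  have := f3.fintype
  have η0 : 0 ≤ η := (abs_nonneg _).trans (h (fun _ => 0) (fun _ => 0) (fun _ => 0)
    (Lcl.const _ _) (Lcl.const _ _) (Lcl.const _ _) (fun _ _ => le_rfl) (fun _ _ => le_rfl)
    fun _ _ => le_rfl)
  set sv : (I1 → Bool × Bool) → (I2 → Bool × Bool) → (I3 → Bool × Bool) → ℝ := fun p1 p2 p3 =>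
    s fun v => if a : v ∈ I1 then p1 ⟨v, a⟩ else if b : v ∈ I2 then p2 ⟨v, b⟩
      else if c : v ∈ I3 then p3 ⟨v, c⟩ else (true, true) with hsv
  have e : ∀ w : Cf, sv (fun v => w v) (fun v => w v) (fun v => w v) = s w := fun w =>
    hs fun v hv => by
      split_ifs with a b c
      exacts [rfl, rfl, rfl, absurd hv (by simp [a, b, c])]
  have l : ∀ {I S : Set V}, S ⊆ I → ∀ p, Lcl I fun w => pat I p w * rpI S w := fun hS p =>
    (pat_lcl _ p).comp₂ ((lcl_rpI _).mono hS) (· * ·)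
  have lc : ∀ {I S : Set V}, I.Finite → S ⊆ I → ∀ p, Lc univ fun w => pat I p w * rpI S w :=
    fun hI hS p => ⟨_, hI, subset_univ _, l hS p⟩
  have n : ∀ (I S : Set V) (p : I → Bool × Bool), ∀ w ∈ Val, 0 ≤ pat I p w * rpI S w :=
    fun I S p w _ => mul_nonneg (pat_nonneg _ _ _) (rpI_nonneg _ _)
  have lt : ∀ p1 p2 p3, Lc univ fun w => X w * (pat I1 p1 w * rpI S1 w * W1 w) *
      (pat I2 p2 w * rpI S2 w * W2 w) * (pat I3 p3 w * rpI S3 w * W3 w) := fun p1 p2 p3 =>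
    ((hX.mul ((lc f1 s1 p1).mul h1)).mul ((lc f2 s2 p2).mul h2)).mul ((lc f3 s3 p3).mul h3)
  have g1 := f1.subset s1
  have g2 := f2.subset s2
  have g3 := f3.subset s3
  have pos := rpSt.1 _ ((g1.union g2).union g3)
  have fk : Einf (rpI S1) * (Einf (rpI S2) * Einf (rpI S3)) ≤ Einf (rpI (S1 ∪ S2 ∪ S3)) := by
    rw [← mul_assoc]
    exact (mul_le_mul_of_nonneg_right (rpSt.2.1 _ _ g1 g2) (rpSt.1 _ g3).le).trans
      (rpSt.2.1 _ _ (g1.union g2) g3)
  rw [Pc, abs_div, abs_of_pos pos, div_le_iff₀ pos,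
    Einf_congr (G := fun w => ∑ p1, ∑ p2, ∑ p3, sv p1 p2 p3 *
      (X w * (pat I1 p1 w * rpI S1 w * W1 w) * (pat I2 p2 w * rpI S2 w * W2 w) *
        (pat I3 p3 w * rpI S3 w * W3 w))) fun w _ => by
      rw [rpI_union, rpI_union, ← e w, ← sum_pat w fun p1 => sv p1 (fun v => w v) fun v => w v]
      simp only [Finset.mul_sum, Finset.sum_mul]
      refine Finset.sum_congr rfl fun p1 _ => ?_
      rw [← sum_pat w fun p2 => sv p1 p2 fun v => w v]
      simp only [Finset.mul_sum, Finset.sum_mul]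
      refine Finset.sum_congr rfl fun p2 _ => ?_
      rw [← sum_pat w fun p3 => sv p1 p2 p3]
      simp only [Finset.mul_sum, Finset.sum_mul]
      exact Finset.sum_congr rfl fun p3 _ => by ring,
    Einf_sum _ fun p1 _ => Lc.sum _ fun p2 _ => Lc.sum _ fun p3 _ => (lt p1 p2 p3).smul _]
  refine le_trans ?_ (mul_le_mul_of_nonneg_left fk η0)
  rw [← sum_einf f1 s1, ← sum_einf f2 s2, ← sum_einf f3 s3, Finset.sum_mul, Finset.mul_sum]
  refine (Finset.abs_sum_le_sum_abs _ _).trans (Finset.sum_le_sum fun p1 _ => ?_)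
  rw [Einf_sum _ fun p2 _ => Lc.sum _ fun p3 _ => (lt p1 p2 p3).smul _, Finset.sum_mul,
    Finset.mul_sum, Finset.mul_sum]
  refine (Finset.abs_sum_le_sum_abs _ _).trans (Finset.sum_le_sum fun p2 _ => ?_)
  rw [Einf_sum _ fun p3 _ => (lt p1 p2 p3).smul _, Finset.mul_sum, Finset.mul_sum,
    Finset.mul_sum]
  refine (Finset.abs_sum_le_sum_abs _ _).trans (Finset.sum_le_sum fun p3 _ => ?_)
  rw [Einf_mul _ (lt p1 p2 p3), abs_mul]
  exact (mul_le_of_le_one_left (abs_nonneg _) (sb _)).trans (fac_one hX h1 h2 h3 (lc f1 s1 p1)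
    (lc f2 s2 p2) (lc f3 s3 p3) (n _ _ p1) (n _ _ p2) (n _ _ p3)
    (h _ _ _ (l s1 p1) (l s2 p2) (l s3 p3) (n _ _ p1) (n _ _ p2) (n _ _ p3)))

end Nl

end Pool.Agent.Lib.MP_6359c9_pr
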