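import Pool.Agent.Lib.MP_6359c9_pr.NlDef

/-! The renewal weight of a group is carried by two rings. -/

namespace Pool.Agent.Lib.MP_6359c9_pr

open Set Filter Topology

namespace Nl

/-- it suffices to test tameness with the identity -/
lemma tm_of_id {C : ℝ} {S : Set V} {F : Cf → ℝ} (hS : S.Finite) (hF : Lcl S F)
    (h : ∀ G : Cf → ℝ, Lc Sᶜ G → (∀ w ∈ Val, 0 ≤ G w) →
      Einf (fun w => G w * |F w|) ≤ C * Einf G) : Tm C S F := by
  refine ⟨hF, fun g hg G hG G0 => ?_⟩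
  have l1 : Lc Sᶜ fun w => G (act g.symm w) := hG.act hg.symm.adj fun v hv k =>
    hv ⟨_, k, g.apply_symm_apply v⟩
  have l2 : Lc univ fun w => |F w| := Lc.comp ⟨S, hS, subset_univ _, hF⟩ abs
  have := h _ l1 fun w hw => G0 _ (val_act hg.symm.adj hw)
  rw [Einf_act hg.symm hG.univ, ← Einf_act hg (l1.univ.mul l2)] at this
  refine le_of_eq_of_le (congrArg Einf (funext fun w => ?_)) this
  rw [show act g.symm (act g w) = w from funext fun v => by simp [act]]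

lemma nbd_nbd (I : Set V) (a b : ℤ) : Nbd (Nbd I a) b ⊆ Nbd I (a + b) :=
  fun _ ⟨_, ⟨u, hu, h1⟩, h2⟩ => ⟨u, hu, Bx_add h1 h2⟩

lemma nbd_sub {I J : Set V} (h : I ⊆ J) (a : ℤ) : Nbd I a ⊆ Nbd J a :=
  fun _ ⟨u, hu, h1⟩ => ⟨u, h hu, h1⟩

lemma nbd_box {I : Set V} {x : V} {n : ℤ} (h : I ⊆ Bx x n) (a : ℤ) : Nbd I a ⊆ Bx x (n + a) :=
  fun _ ⟨_, hu, h1⟩ => Bx_add (h hu) h1

lemma sepI_mono {I I' O O' : Set V} (hI : I' ⊆ I) (hO : O' ⊆ O) (w : Cf) :
    sepI I O w ≤ sepI I' O' w :=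
  indicator_le_indicator_of_subset (preimage_mono (SepE_mono true hI hO)) (fun _ => zero_le_one) w

theorem grpSt (h : RnSt) : GrpSt := fun L ε hε => by
  obtain ⟨c, d0, c0, h⟩ := h (L + 3) (ε / 2) (by positivity)
  obtain ⟨C, C0, hr⟩ := rm2St (L + 3)
  refine ⟨C / c ^ 2, max d0 5, by positivity, fun I x d hd hI => ?_⟩
  have d1 : d0 ≤ d := (le_max_left _ _).trans hd
  have d5 : 5 ≤ d := (le_max_right _ _).trans hd
  have big : ∀ a, a ≤ 3 * d → Nbd I a ⊆ Bx x (((L + 3 : ℕ) : ℤ) * d) := fun a ha =>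
    (nbd_box hI a).trans (Bx_mono (by push_cast; linarith))
  obtain ⟨w1, b1, l1, p1, r1⟩ := h I x d d1 ((Rm.sub_nbd I le_rfl).trans (big 0 (by omega)))
  obtain ⟨w2, b2, l2, p2, r2⟩ := h (Nbd I (2 * d + 4)) x d d1 (big _ (by omega))
  have s0 : I ⊆ Nbd I (2 * d + 4) := Rm.sub_nbd I (by omega)
  have s1 : cl (Nbd I d \ I) ⊆ Nbd I (d + 1) := (cl_mono sdiff_subset).trans (Rm.cl_nbd I d)
  have s2 : Nbd (Nbd I (2 * d + 4)) d ⊆ Nbd I (3 * d + 4) :=
    (nbd_nbd _ _ _).trans (Rm.nbd_mono (by omega))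
  have s3 : cl (Nbd (Nbd I (2 * d + 4)) d \ Nbd I (2 * d + 4)) ⊆ Nbd I (4 * d) :=
    (cl_mono (sdiff_subset.trans s2)).trans ((Rm.cl_nbd I _).trans (Rm.nbd_mono (by omega)))
  have s4 : cl (Nbd I d \ I) ⊆ Nbd I (4 * d) := s1.trans (Rm.nbd_mono (by omega))
  have a1 : Nbd I d \ I ⊆ Nbd I (4 * d) \ I := sdiff_subset_sdiff_left (Rm.nbd_mono (by omega))
  have a2 : Nbd (Nbd I (2 * d + 4)) d \ Nbd I (2 * d + 4) ⊆ Nbd I (4 * d) \ I :=
    sdiff_subset_sdiff (s2.trans (Rm.nbd_mono (by omega))) s0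
  have lw : Lcl (Nbd I (4 * d)) fun w => w1 w * w2 w := (l1.mono s4).comp₂ (l2.mono s3) (· * ·)
  have fS : (Nbd I (4 * d)).Finite := Rm.nbd_fin hI
  refine ⟨fun w => w1 w * w2 w, fun w => b1 w + b2 w - b1 w * b2 w, lw, fun g lg g0 => ?_,
    fun ρ W t f => ?_⟩
  · have lg' : Lcl (Nbd I (4 * d)) g := lg.mono (Rm.sub_nbd I (by omega))
    have lF := lg'.comp₂ lw fun s t => s * t / Einf g
    have cg : Lc univ g := ⟨_, fS, subset_univ _, lg'⟩
    refine tm_of_id fS lF fun G lG G0 => ?_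
    have e0 := Einf_nonneg lG.univ G0
    rcases (Einf_nonneg cg g0).eq_or_lt with z | z
    · simp only [← z, div_zero, abs_zero, mul_zero, Einf_const]
      positivity
    have k := hr I (Nbd I d) (Nbd I (2 * d + 4)) (Nbd I (4 * d)) x d g G (by omega)
      (Rm.sub_nbd I (by omega)) ((Rm.cl_nbd I d).trans (big _ (by omega)))
      ((nbd_sub (Rm.cl_nbd I d) _).trans ((nbd_nbd _ _ _).trans (Rm.nbd_mono (by omega))))
      fS lg lG g0 G0
    have q1 : Lc univ (sepI (Nbd I (2 * d + 4)) (Nbd I (4 * d))ᶜ) :=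
      ⟨_, cl_finite fS, subset_univ _, .of_dep (Rm.dep_sep _ _)⟩
    have q2 : Lc univ (sepI I (Nbd I d)ᶜ) :=
      ⟨_, cl_finite (Rm.nbd_fin hI), subset_univ _, .of_dep (Rm.dep_sep _ _)⟩
    have q3 := lG.univ.mul (q1.mul (q2.mul cg))
    refine (Einf_mono (lG.univ.mul (Lc.comp ⟨_, fS, subset_univ _, lF⟩ abs))
      (q3.smul (c ^ 2 * Einf g)⁻¹) fun w hw => ?_).trans ?_
    · obtain ⟨u1, u2⟩ := p1 w hw
      obtain ⟨v1, v2⟩ := p2 w hw
      have v3 := v2.trans (sepI_mono subset_rfl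
        (compl_subset_compl.2 (s2.trans (Rm.nbd_mono (by omega : 3 * d + 4 ≤ 4 * d)))) w)
      have g1 := g0 w hw
      have G1 := G0 w hw
      rw [abs_of_nonneg (by positivity), le_inv_mul_iff₀ (by positivity)]
      calc _ = G w * (c * w2 w * (c * w1 w * g w)) := by field_simp
        _ ≤ _ := by
          have := (Rm.sep_le (Nbd I (2 * d + 4)) (Nbd I (4 * d))ᶜ w).1
          gcongr
    · rw [Einf_mul _ q3, inv_mul_le_iff₀ (by positivity)]
      refine k.trans_eq ?_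
      field_simp
  · obtain ⟨x1, y1⟩ := r1 ρ W t (Rm.free_mono f a1)
    obtain ⟨x2, y2⟩ := r2 ρ W t (Rm.free_mono f a2)
    refine ⟨(x1.mul x2 (fun v hv k => k.2 (Rm.nbd_mono (by omega) (s1 hv))) ?_).mono
      (union_subset a1 a2) (union_subset s4 s3), (x1.mul_le Sp_val x2).trans (by linarith)⟩
    rintro v (hv | ⟨u, hu, a⟩) k
    · exact hv.2 (Rm.nbd_mono (by omega) k.1)
    · exact hu.2 (Rm.nbd_mono (by omega) (Rm.cl_nbd I d (mem_cl k.1 a.symm)))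

end Nl

end Pool.Agent.Lib.MP_6359c9_pr
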