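import Pool.Agent.Lib.MP_6359c9_pr.NlTv

/-! Assembly of the orthogonality of null functions from the intermediate statements. -/

namespace Pool.Agent.Lib.MP_6359c9_pr

open Set Filter Topology

namespace Nl

/-- the data of a group -/
def Gp (C ε : ℝ) (I : Set V) (d : ℤ) (wt b : Cf → ℝ) : Prop :=
  Lcl (Nbd I (4 * d)) wt ∧
    (∀ g : Cf → ℝ, Lcl I g → (∀ w ∈ Val, 0 ≤ g w) →
      Tm C (Nbd I (4 * d)) fun w => g w * wt w / Einf g) ∧
    ∀ (ρ : V → Set Bool) (W : Set V), Tame ρ W → Free ρ W (Nbd I (4 * d) \ I) →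
      Rn (MS ρ W) (Nbd I (4 * d) \ I) (Nbd I (4 * d)) wt b ∧ Ex (MS ρ W) b ≤ ε

/-- the total variation estimate with given constants -/
def TvB (Ca α : ℝ) : Prop := ∀ (ρ : V → Set Bool) (W S : Set V) (x : V)
  (n r r' : ℤ) (G : Cf → ℝ) (C M : ℝ), Tame ρ W → 1 ≤ r → r ≤ r' →
    (∀ v ∈ Cn x n r', true ∈ ρ v ∧ v ∈ W) → S ⊆ Cn x n r → Lcl (Cn x n r')ᶜ G →
    Ex (MS ρ W) (fun w => G w ^ 2) ≤ C → Ex (MS (fo ρ S) W) (fun w => G w ^ 2) ≤ C → 0 < M →
    |Ex (MS (fo ρ S) W) G - Ex (MS ρ W) G| ≤ 2 * C / M + M * (Ca * ((r : ℝ) / r') ^ α)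

lemma Rn.err {M : Set Cf} (hM : M ⊆ Val) {A B : Set V} {wt b G : Cf → ℝ} {C T ε : ℝ}
    (h : Rn M A B wt b) (hG : Lcl Aᶜ G) (h2 : Ex M (fun w => G w ^ 2) ≤ C) (hb : Ex M b ≤ ε)
    (hT : 0 < T) : |Ex M G - Ex M fun w => G w * wt w| ≤ C / T + T * ε := by
  rw [h.id G hG, ← ex_sub]
  refine (abs_ex_le _ _).trans ((ex_mono (g := fun w => G w ^ 2 * T⁻¹ + T * b w)
    fun w hw => ?_).trans ?_)
  · obtain ⟨b0, b1⟩ := h.bd w (hM hw)
    rw [show G w - G w * (1 - b w) = G w * b w by ring, abs_mul, abs_of_nonneg b0,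
      ← mul_le_mul_iff_of_pos_left hT, mul_add, mul_comm (G w ^ 2), ← mul_assoc T T⁻¹,
      mul_inv_cancel₀ hT.ne', one_mul, ← sq_abs]
    nlinarith [sq_nonneg (|G w| - T * b w), mul_nonneg (mul_nonneg hT.le (abs_nonneg (G w))) b0,
      mul_nonneg (mul_nonneg (mul_pos hT hT).le b0) (sub_nonneg.2 b1)]
  · rw [ex_add, ex_mul', ex_mul, div_eq_mul_inv]
    exact add_le_add (mul_le_mul_of_nonneg_right h2 (by positivity))
      (mul_le_mul_of_nonneg_left hb hT.le)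

variable {x : V} {n d a : ℤ} {X : Cf → ℝ} {C : ℝ}

lemma sq_fo (h4 : Tm4 C (Bx x (4 * n)) X) (hn : 1 ≤ n) {ρ : V → Set Bool} {W S : Set V}
    (t : Tame ρ W) (f : Free ρ W (Bx x (7 * n))) (hS : S ⊆ Lam x n) {s : Cf → ℝ}
    (s1 : ∀ w ∈ Val, |s w| ≤ 1) :
    Tame (fo ρ S) W ∧ Ex (MS (fo ρ S) W) (fun w => (X w * s w) ^ 2) ≤ C + 1 := by
  have t' := tame_fo t (S := S) fun v hv => (f v (Lam_sub hn (hS hv))).1 ▸ mem_univ _
  exact ⟨t', ex_sq_le t'.ok (ex_pow4_mul (h4 _ _ t' (free_fo (Rm.free_mono f (Bx_mono (by omega)))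
    fun v hv h => Lam_out hn v hv (hS h))) fun w hw => s1 w (Sp_val hw))⟩

lemma plane1 (hL : LimSt) (hF : FacSt) {Ca α : ℝ} (htv : TvB Ca α) {s wF bF wA bA wB bB : Cf → ℝ}
    {C4 ε η M : ℝ} (hd : 1 ≤ d) (hz : 12 * d ≤ a) (ha : a + 1 ≤ n) (hX : Lcl (Bx x n) X)
    (h4 : Tm4 C (Bx x (4 * n)) X) (hs : DependsOn s (Xi x n a)) (s1 : ∀ w, |s w| ≤ 1)
    (gF : Gp C4 ε (IF x n (12 * d)) d wF bF) (gA : Gp C4 ε (IA x n (12 * d)) d wA bA)
    (gB : Gp C4 ε (IB x n (12 * d)) d wB bB)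
    (hη : ∀ F A B : Cf → ℝ, Tm C4 (Nbd (IF x n (12 * d)) (4 * d)) F →
      Tm C4 (Nbd (IA x n (12 * d)) (4 * d)) A → Tm C4 (Nbd (IB x n (12 * d)) (4 * d)) B →
      |Einf fun w => X w * F w * A w * B w| ≤ η) (hM : 0 < M) :
    |Pc (HH x n a) fun w => X w * s w| ≤
      3 * (C + 1) / M + M * (Ca * (((12 * d : ℤ) : ℝ) / a) ^ α) + M * (3 * ε) + η := by
  have hn : 1 ≤ n := by omega
  set H1 := HH x n a \ Cn x n (12 * d) with hH1
  have arc : ∀ v ∈ Lam x n, v ∉ Cn x n (12 * d) →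
      v ∈ IF x n (12 * d) ∪ IA x n (12 * d) ∪ IB x n (12 * d) :=
    fun v h1 h2 => arcs (by omega) (by omega) h1 h2
  have aX : Xi x n a ⊆ IF x n (12 * d) ∪ IA x n (12 * d) ∪ IB x n (12 * d) :=
    fun v hv => arc v hv.1 fun h => hv.2 (Or.inr (Cn_mono x n hz h))
  have aH : H1 ⊆ IF x n (12 * d) ∪ IA x n (12 * d) ∪ IB x n (12 * d) :=
    fun v hv => arc v hv.1.1 hv.2
  have eH : H1 ∩ IF x n (12 * d) ∪ H1 ∩ IA x n (12 * d) ∪ H1 ∩ IB x n (12 * d) = H1 := by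
    rw [← inter_union_distrib_left, ← inter_union_distrib_left, inter_eq_left.2 aH]
  have sZ : ∀ I ⊆ Lam x n, Nbd I (4 * d) ⊆ Bx x (8 * n) := fun I hI v ⟨u, hu, hv⟩ =>
    Bx_mono (by omega) (Bx_add (Lam_sub hn (hI hu)) hv)
  have lW : ∀ {I : Set V} {wt b : Cf → ℝ}, I ⊆ Lam x n → Gp C4 ε I d wt b → Lc univ wt :=
    fun hI g => ⟨_, (Bx_finite _ _).subset (sZ _ hI), subset_univ _, g.1⟩
  have iF : IF x n (12 * d) ⊆ Lam x n := fun _ h => h.1
  have iA : IA x n (12 * d) ⊆ Lam x n := fun _ h => h.1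
  have iB : IB x n (12 * d) ⊆ Lam x n := fun _ h => h.1
  have lX : Lc univ X := ⟨_, Bx_finite _ _, subset_univ _, hX⟩
  have ls : Lc univ s := ⟨_, Lam_fin.subset sdiff_subset, subset_univ _, .of_dep hs⟩
  have fac := hF _ _ _ _ _ _ X s wF wA wB η (Lam_fin.subset iF) (Lam_fin.subset iA)
    (Lam_fin.subset iB) (inter_subset_right (s := H1)) (inter_subset_right (s := H1))
    (inter_subset_right (s := H1)) lX (lW iF gF) (lW iA gA) (lW iB gB) (hs.mono aX) s1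
    fun g1 g2 g3 l1 l2 l3 p1 p2 p3 => hη _ _ _ (gF.2.1 g1 l1 p1) (gA.2.1 g2 l2 p2) (gB.2.1 g3 l3 p3)
  rw [eH] at fac
  have sH : HH x n a ⊆ Lam x n := inter_subset_left
  have sH1 : H1 ⊆ Lam x n := sdiff_subset.trans sH
  have t1 := hL (HH x n a) _ (Lam_fin.subset sH) (lX.mul ls)
  have t2 := hL H1 _ (Lam_fin.subset sH1)
    ((lX.mul ls).mul (((lW iF gF).mul (lW iA gA)).mul (lW iB gB)))
  have key := le_of_tendsto (t1.sub t2).abs (b := 3 * (C + 1) / M +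
      M * (Ca * (((12 * d : ℤ) : ℝ) / a) ^ α) + M * (3 * ε)) (by
    filter_upwards [Rm.ev_free (Bx_finite x (8 * n))] with R fr
    have f7 := Rm.free_mono fr (Bx_mono (m := 7 * n) (by omega))
    obtain ⟨t, q1⟩ := sq_fo h4 hn (Rm.tame_big R) f7 sH1 fun w _ => s1 w
    obtain ⟨-, q2⟩ := sq_fo h4 hn (Rm.tame_big R) f7 sH fun w _ => s1 w
    have e : fo (fo (off true (Bx 0 R)) H1) (HH x n a ∩ Cn x n (12 * d)) =
        fo (off true (Bx 0 R)) (HH x n a) := by rw [fo_fo, hH1, sdiff_union_inter]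
    have k1 := htv _ _ (HH x n a ∩ Cn x n (12 * d)) x n (12 * d) a (fun w => X w * s w) (C + 1) M t
      (by omega) hz (fun v hv => ⟨⟨fun _ => rfl, fun _ => rfl⟩, (f7 v (Cn_sub (by omega) hv)).2⟩)
      inter_subset_right ((hX.mono (Cn_out (by omega) hn)).comp₂ ((Lcl.of_dep hs).mono
        fun v hv h => hv.2 (Or.inr h)) (· * ·)) q1 (e ▸ q2) hM
    rw [e] at k1
    have nb : ∀ {I : Set V} {v : V}, v ∈ I → v ∈ Nbd I (4 * d) :=
      fun h => Rm.sub_nbd _ (by omega) h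
    have dFA : ∀ v ∈ Nbd (IF x n (12 * d)) (4 * d), v ∉ Nbd (IA x n (12 * d)) (4 * d) :=
      fun v h1 h2 => by have := zoneF h1; have := zoneA h2; omega
    have dFB : ∀ v ∈ Nbd (IF x n (12 * d)) (4 * d), v ∉ Nbd (IB x n (12 * d)) (4 * d) :=
      fun v h1 h2 => by have := zoneF h1; have := zoneB hd hn h2; omega
    have dAB : ∀ v ∈ Nbd (IA x n (12 * d)) (4 * d), v ∉ Nbd (IB x n (12 * d)) (4 * d) :=
      fun v h1 h2 => by have := zoneA h1; have := zoneB hd hn h2; omega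
    have out : ∀ v ∈ IF x n (12 * d) ∪ IA x n (12 * d) ∪ IB x n (12 * d),
        v ∉ Nbd (IF x n (12 * d)) (4 * d) \ IF x n (12 * d) ∪
          Nbd (IA x n (12 * d)) (4 * d) \ IA x n (12 * d) ∪
          Nbd (IB x n (12 * d)) (4 * d) \ IB x n (12 * d) := by
      rintro v ((h | h) | h) ((k | k) | k)
      exacts [k.2 h, dFA v (nb h) k.1, dFB v (nb h) k.1, dFA v k.1 (nb h), k.2 h, dAB v (nb h) k.1,
        dFB v k.1 (nb h), dAB v k.1 (nb h), k.2 h]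
    obtain ⟨rF, eF⟩ := gF.2.2 _ _ t (free_fo (Rm.free_mono fr (sdiff_subset.trans (sZ _ iF)))
      fun v hv h => out v (aH h) (Or.inl (Or.inl hv)))
    obtain ⟨rA, eA⟩ := gA.2.2 _ _ t (free_fo (Rm.free_mono fr (sdiff_subset.trans (sZ _ iA)))
      fun v hv h => out v (aH h) (Or.inl (Or.inr hv)))
    obtain ⟨rB, eB⟩ := gB.2.2 _ _ t (free_fo (Rm.free_mono fr (sdiff_subset.trans (sZ _ iB)))
      fun v hv h => out v (aH h) (Or.inr hv))
    have r1 := rF.mul rA (fun v h k => dFA v h k.1) fun v h k => dFA v k.1 h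
    have r2 := r1.mul rB (fun v h k => h.elim (fun h => dFB v h k.1) fun h => dAB v h k.1)
      fun v h k => k.elim (fun k => dFB v k.1 h) fun k => dAB v k.1 h
    have oX : Bx x n ⊆ (Nbd (IF x n (12 * d)) (4 * d) \ IF x n (12 * d) ∪
          Nbd (IA x n (12 * d)) (4 * d) \ IA x n (12 * d) ∪
          Nbd (IB x n (12 * d)) (4 * d) \ IB x n (12 * d))ᶜ := by
      intro v hv k
      rw [mem_Bx] at hv
      rcases k with (k | k) | k
      · have := zoneF k.1; omega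
      · have := zoneA k.1; omega
      · have := zoneB hd hn k.1; omega
    have k2 := r2.err Sp_val (G := fun w => X w * s w) (ε := 3 * ε)
      ((hX.mono oX).comp₂ ((Lcl.of_dep hs).mono fun v hv => out v (aX hv)) (· * ·))
      q1 (by linarith [r1.mul_le Sp_val rB, rF.mul_le Sp_val rA]) hM
    rw [abs_le] at k1 k2 ⊢
    have e3 : 3 * (C + 1) / M = 2 * (C + 1) / M + (C + 1) / M := by ring
    constructor <;> linarith [k1.1, k1.2, k2.1, k2.2])
  rw [abs_le] at key fac ⊢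
  constructor <;> linarith [key.1, key.2, fac.1, fac.2]

lemma dom1 (hL : LimSt) (hC : CondSt) {Ca α : ℝ} (htv : TvB Ca α) {ρ : V → Set Bool} {W : Set V}
    {Y : Cf → ℝ} {C3 ε τ M : ℝ} (h0 : 0 ≤ a) (ha : a + 1 ≤ n) (t : Tame ρ W)
    (fr : Free ρ W (Bx x (11 * n))) (hX : Lcl (Bx x n) X) (hY : Lcl (Bx x (11 * n))ᶜ Y)
    (h4 : Tm4 C (Bx x (4 * n)) X) (Y1 : ∀ w ∈ Val, |Y w| ≤ 1) (C0 : 0 ≤ C3)
    (ctg : ∀ F : Cf → ℝ, Lcl (Bx x (7 * n)) F → (∀ w ∈ Val, 0 ≤ F w ∧ F w ≤ 1) →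
      Ex (MS (fo ρ (HH x n a)) W) F ≤ ε + C3 * Pc (HH x n a) F)
    (hτ : ∀ s : Cf → ℝ, DependsOn s (Xi x n a) → (∀ w, |s w| ≤ 1) →
      |Pc (HH x n a) fun w => X w * s w| ≤ τ) (hM : 0 < M) :
    |Ex (MS ρ W) fun w => X w * Y w| ≤
      3 * (C + 1) / M + M * (Ca * (((a + 1 : ℤ) : ℝ) / n) ^ α) + M * ε + C3 * τ := by
  have hn : 1 ≤ n := by omega
  have sH : HH x n a ⊆ Lam x n := inter_subset_left
  have sX : Xi x n a ⊆ (Bx x (6 * n))ᶜ := fun v hv h => hv.2 (Or.inl h)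
  have sX7 : Xi x n a ⊆ Bx x (7 * n) := sdiff_subset.trans (Lam_sub hn)
  have f7 := Rm.free_mono fr (Bx_mono (m := 7 * n) (by omega))
  obtain ⟨f, df, hf⟩ := hC (Bx x (6 * n)) (HH x n a) (Xi x n a) X (Bx_finite _ _)
    (hX.mono (Bx_mono (by omega))) sX cut_adj
  have lf : Lcl (Xi x n a) f := .of_dep df
  -- first step
  obtain ⟨t', q2⟩ := sq_fo h4 hn t f7 sH Y1
  have k1 := htv ρ W (HH x n a) x n (a + 1) n (fun w => X w * Y w) (C + 1) M t (by omega) ha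
    (fun v hv => ⟨(f7 v (Cn_sub le_rfl hv)).1 ▸ mem_univ _, (f7 v (Cn_sub le_rfl hv)).2⟩)
    inter_subset_right ((hX.mono (Cn_out le_rfl hn)).comp₂ (hY.mono fun v hv h =>
      hv (Bx_mono (by omega) (Cn_sub le_rfl h))) (· * ·))
    (ex_sq_le t.ok (ex_pow4_mul (h4 _ _ t (Rm.free_mono fr (Bx_mono (by omega))))
      fun w hw => Y1 w (Sp_val hw))) q2 hM
  -- second step
  have f6 := Rm.free_mono fr (Bx_mono (m := 6 * n) (by omega))
  have k2 := hf ρ W t f6 Y (hY.mono (compl_subset_compl.2 (Bx_mono (by omega))))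
  have k3 : Ex (MS (fo ρ (HH x n a)) W) (fun w => f w ^ 2) ≤ C + 1 := by
    have e := hf ρ W t f6 f (lf.mono sX)
    have q := (sq_fo h4 hn t f7 sH (s := fun _ => 1) fun _ _ => by simp).2
    have : Ex (MS (fo ρ (HH x n a)) W) (fun w => 2 * (X w * f w)) ≤
        Ex (MS (fo ρ (HH x n a)) W) fun w => (X w * 1) ^ 2 + f w ^ 2 :=
      ex_mono fun w _ => by nlinarith [sq_nonneg (X w - f w)]
    rw [ex_mul, ex_add, e] at this
    simp only [← sq] at this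
    linarith
  -- third step
  have F01 : ∀ w, 0 ≤ min |f w| M / M ∧ min |f w| M / M ≤ 1 := fun w =>
    ⟨div_nonneg (le_min (abs_nonneg _) hM.le) hM.le, div_le_one_of_le₀ (min_le_right _ _) hM.le⟩
  have lF : Lcl (Xi x n a) fun w => min |f w| M / M := lf.comp fun y => min |y| M / M
  have k4 := ctg _ (lF.mono sX7) fun w _ => F01 w
  have k5 : |Ex (MS (fo ρ (HH x n a)) W) fun w => f w * Y w| ≤
      (C + 1) / M + M * Ex (MS (fo ρ (HH x n a)) W) fun w => min |f w| M / M := by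
    refine (abs_ex_le _ _).trans ((ex_mono (g := fun w => f w ^ 2 * M⁻¹ + M * (min |f w| M / M))
      fun w hw => ?_).trans ?_)
    · rw [abs_mul, mul_div_cancel₀ _ hM.ne']
      refine (mul_le_of_le_one_right (abs_nonneg _) (Y1 w (Sp_val hw))).trans ?_
      rcases le_total |f w| M with h | h
      · rw [min_eq_left h]
        exact le_add_of_nonneg_left (by positivity)
      · rw [min_eq_right h]
        refine le_add_of_le_of_nonneg ?_ hM.le
        rw [← div_eq_mul_inv, le_div_iff₀ hM, ← sq_abs, sq]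
        exact mul_le_mul_of_nonneg_left h (abs_nonneg _)
    · rw [ex_add, ex_mul', ex_mul, div_eq_mul_inv (C + 1)]
      exact add_le_add (mul_le_mul_of_nonneg_right k3 (by positivity)) le_rfl
  -- passage to the plane
  set s : Cf → ℝ := fun w => if 0 ≤ f w then 1 else -1 with hs
  have ds : DependsOn s (Xi x n a) := fun w w' e => by simp only [hs, df e]
  have fX : (Xi x n a).Finite := Lam_fin.subset sdiff_subset
  have k6 : M * Pc (HH x n a) (fun w => min |f w| M / M) ≤ Pc (HH x n a) fun w => X w * s w := by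
    refine le_of_tendsto_of_tendsto
      ((hL _ _ (Lam_fin.subset sH) ⟨_, fX, subset_univ _, lF⟩).const_mul M)
      (hL _ _ (Lam_fin.subset sH) (Lc.mul ⟨_, Bx_finite _ _, subset_univ _, hX⟩
        ⟨_, fX, subset_univ _, .of_dep ds⟩)) ?_
    filter_upwards [Rm.ev_free (Bx_finite x (6 * n))] with R fR
    rw [hf _ _ (Rm.tame_big R) fR s ((Lcl.of_dep ds).mono sX), ← ex_mul]
    refine ex_mono fun w _ => ?_
    rw [mul_div_cancel₀ _ hM.ne']
    refine (min_le_left _ _).trans (le_of_eq ?_)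
    simp only [hs]
    split_ifs with h
    · rw [abs_of_nonneg h, mul_one]
    · rw [abs_of_neg (not_le.1 h), mul_neg_one]
  have k7 := (abs_le.1 (hτ s ds fun w => by simp only [hs]; split_ifs <;> simp)).2
  have k8 := mul_le_mul_of_nonneg_left (k6.trans k7) C0
  have k9 := mul_le_mul_of_nonneg_left k4 hM.le
  rw [← k2] at k5
  rw [abs_le] at k1 k5 ⊢
  have e3 : 3 * (C + 1) / M = 2 * (C + 1) / M + (C + 1) / M := by ring
  constructor <;> nlinarith [k1.1, k1.2, k5.1, k5.2]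

lemma Tm.mono' {C C' : ℝ} {S : Set V} {F : Cf → ℝ} (h : Tm C S F) (hC : C ≤ C') : Tm C' S F :=
  ⟨h.1, fun g hg G hG h0 => (h.2 g hg G hG h0).trans
    (mul_le_mul_of_nonneg_right hC (Einf_nonneg hG.univ h0))⟩

lemma exists_M (C : ℝ) {ε : ℝ} (hε : 0 < ε) : ∃ M : ℝ, 0 < M ∧ C / M ≤ ε := by
  obtain ⟨T, h1, h2⟩ := exists_trc C hε 0
  exact ⟨T, by linarith, by simpa using h2⟩

theorem null1_of (hL : LimSt) (hF : FacSt) (hC : CondSt) (hG : GrpSt) (hK : CtgSt) (hR : RsSt) :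
    Null1St := by
  refine ⟨11, by norm_num, fun ι l n x ρ W X Y C hn h null => Metric.tendsto_nhds.2 fun ε hε => ?_⟩
  obtain ⟨Ca, α, hCa, hα, htv⟩ := tvSt
  obtain ⟨M, hM, m1⟩ := exists_M (3 * (C + 1)) (ε := ε / 8) (by positivity)
  obtain ⟨C3, n0, hC3, ctg⟩ := hK (ε / 8 / M) (by positivity)
  obtain ⟨p', hp', m2⟩ := ((eventually_ge_atTop 2).and
    (rate_small (C := M * Ca) hα 2 (ε := ε / 8) (by positivity))).exists
  obtain ⟨M', hM', m3⟩ := exists_M (3 * (C + 1)) (ε := ε / 8 / C3) (by positivity)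
  obtain ⟨p, hp, m4⟩ := ((eventually_ge_atTop 1).and
    (rate_small (C := M' * Ca) hα 1 (ε := ε / 8 / C3) (by positivity))).exists
  obtain ⟨C4, d0, hC4, grp⟩ := hG (14 * (12 * p * p')) (ε / 8 / C3 / M' / 3) (by positivity)
  set q : ℤ := 12 * p * p' with hq
  have p1 : (1 : ℤ) ≤ p := by exact_mod_cast hp
  have p2 : (2 : ℤ) ≤ p' := by exact_mod_cast hp'
  have q0 : 0 < q := by positivity
  have ev : ∀ᶠ i in l, (1 ≤ n i / q ∧ d0 ≤ n i / q ∧ n0 ≤ n i) ∧ q * (n i / q) ≤ n i ∧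
      n i ≤ 2 * (q * (n i / q)) := by
    filter_upwards [hn.eventually_ge_atTop (1 * q), hn.eventually_ge_atTop (d0 * q),
      hn.eventually_ge_atTop n0] with i h1 h2 h3
    have a1 := Int.le_ediv_of_mul_le q0 h1
    have a2 := Int.mul_ediv_add_emod (n i) q
    have a3 := Int.emod_nonneg (n i) q0.ne'
    have a4 := Int.emod_lt_of_pos (n i) q0
    refine ⟨⟨a1, Int.le_ediv_of_mul_le q0 h2, h3⟩, by omega, by nlinarith⟩
  have q12 : 12 ≤ q := by nlinarith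
  have rs := hR ι l (2 * (12 * p * p')) (max (C + 1) C4) n (fun i => n i / q) x X
    (le_max_of_le_right hC4.le) (ev.mono fun i ⟨⟨a1, _⟩, a2, a3⟩ => ⟨a1,
      (mul_le_mul_of_nonneg_right q12 (by omega)).trans a2,
      by push_cast; rw [mul_assoc]; exact a3, (h i).2.2.1, le_max_of_le_left
        ((h i).2.2.2.2.1.einf2 (Bx_finite _ _) ⟨_, Bx_finite _ _, subset_univ _, (h i).2.2.1⟩)⟩)
    null (ε / 8 / C3) (by positivity)
  filter_upwards [ev, rs] with i ⟨⟨a1, a2, a3⟩, a4, a5⟩ hi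
  obtain ⟨t, fr, lX, lY, h4, Y1⟩ := h i
  generalize n i / q = d at *
  have b1 : 12 * d ≤ 12 * p * d := by nlinarith
  have b2 : 12 * p * d * p' ≤ n i := by linarith
  have b3 : 12 * p * d + 1 ≤ n i := by nlinarith
  have n1 : 1 ≤ n i := by omega
  have sI : Lam (x i) (n i) ⊆ Bx (x i) ((14 * (12 * p * p') : ℕ) * d) :=
    (Lam_sub n1).trans (Bx_mono (by push_cast; linarith))
  obtain ⟨wF, bF, gF⟩ := grp (IF (x i) (n i) (12 * d)) (x i) d a2 fun _ h => sI h.1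
  obtain ⟨wA, bA, gA⟩ := grp (IA (x i) (n i) (12 * d)) (x i) d a2 fun _ h => sI h.1
  obtain ⟨wB, bB, gB⟩ := grp (IB (x i) (n i) (12 * d)) (x i) d a2 fun _ h => sI h.1
  have k := dom1 hL hC htv (a := 12 * p * d) (by omega) b3 t fr lX lY h4 Y1 hC3.le
    (fun F => ctg _ _ _ _ _ F t a3 fr (inter_subset_left.trans (Lam_sub n1)))
    (fun s ds s1 => plane1 hL hF htv a1 b1 b3 lX h4 ds s1 gF gA gB (fun F A B k1 k2 k3 =>
      hi F A B (Tm.mono' k1 (le_max_right _ _)) (Tm.mono' k2 (le_max_right _ _))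
        (Tm.mono' k3 (le_max_right _ _))) hM') hM
  have d1 : (0 : ℝ) < d := by exact_mod_cast (by omega : 0 < d)
  have r1 : (0 : ℝ) < p := by exact_mod_cast hp
  have r2 : (0 : ℝ) < p' := by exact_mod_cast (by omega : 0 < p')
  have r3 : (0 : ℝ) < n i := by exact_mod_cast (by omega : 0 < n i)
  have e1 : ((12 * d : ℤ) : ℝ) / ((12 * p * d : ℤ) : ℝ) = 1 / ((p : ℤ) : ℝ) := by
    push_cast; field_simp
  have e2 : ((12 * p * d + 1 : ℤ) : ℝ) / n i ≤ 2 / ((p' : ℤ) : ℝ) := by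
    rw [div_le_div_iff₀ r3 (by exact_mod_cast r2)]
    exact_mod_cast (by nlinarith : (12 * p * d + 1) * p' ≤ 2 * n i)
  have e3 := mul_le_mul_of_nonneg_left (Real.rpow_le_rpow
    (div_nonneg (by exact_mod_cast (by omega : 0 ≤ 12 * p * d + 1)) r3.le) e2 hα.le)
    (mul_pos hM hCa).le
  rw [e1] at k
  have e4 : M * (ε / 8 / M) = ε / 8 := by field_simp
  have e5 : M' * (3 * (ε / 8 / C3 / M' / 3)) = ε / 8 / C3 := by field_simp
  have e6 : C3 * (ε / 8 / C3) = ε / 8 := by field_simp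
  have e7 := mul_le_mul_of_nonneg_left m3 hC3.le
  have e8 := mul_le_mul_of_nonneg_left m4.le hC3.le
  rw [e4, e5] at k
  rw [Real.dist_eq, sub_zero]
  nlinarith

end Nl

end Pool.Agent.Lib.MP_6359c9_pr
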