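import Pool.Agent.Lib.MP_6359c9_pr.NlDef

/-! Renewal weights. -/

namespace Pool.Agent.Lib.MP_6359c9_pr

open Set

namespace Nl

/-- the conditional mean of `s` given the spins off `A` -/
noncomputable def cm (A : Set V) (s : Cf → ℝ) (w : Cf) : ℝ := Ex (Sp (frz (fun _ => univ) Aᶜ w)) s

lemma cm_out (A : Set V) (s : Cf → ℝ) : DependsOn (cm A s) Aᶜ := fun y z e => by
  have : Sp (frz (fun _ => univ) Aᶜ y) = Sp (frz (fun _ => univ) Aᶜ z) :=
    Loc_congr fun v a => and_congr_right fun _ => imp_congr_right fun hv => by rw [e v hv]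
  simp only [cm, this]

lemma ok_frz {A : Set V} (hA : A.Finite) {w : Cf} (hw : w ∈ Val) :
    Ok (Sp (frz (fun _ => univ) Aᶜ w)) :=
  ⟨Loc_finite hA fun _ hv => frz_sub hv, w, hw.1, fun _ => ⟨trivial, fun _ => rfl⟩⟩

lemma cm_lcl {A : Set V} (hA : A.Finite) {s : Cf → ℝ} (hs : DependsOn s (cl A)) :
    Lcl (cl A) (cm A s) := fun w hw w' hw' e =>
  markov' (dec_frz _ _ A w) (dec_frz _ _ A w') (fun v hv => by
    unfold frz
    rw [e v (not_not.1 hv)]) (ok_frz hA hw) (ok_frz hA hw') (by simpa)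

lemma ex_cm {ρ : V → Set Bool} {W A : Set V} (hf : Free ρ W A) (s : Cf → ℝ) {G : Cf → ℝ}
    (hG : Lcl Aᶜ G) : Ex (MS ρ W) (fun w => s w * G w) = Ex (MS ρ W) fun w => cm A s w * G w := by
  rw [ex_stop_loc (stop_const Aᶜ) Cp (tm ρ W)]
  refine ex_congr fun y hy => ?_
  have e1 : Sp (frz (tm ρ W) Aᶜ y) = Sp (frz (fun _ => univ) Aᶜ y) :=
    Loc_congr fun v a => ⟨fun h => ⟨trivial, h.2⟩, fun h => ⟨by
      by_cases hv : v ∈ A
      · exact ⟨(hf v hv).1 ▸ trivial, fun h => absurd (hf v hv).2 h⟩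
      · rw [h.2 hv]; exact hy.2 v, h.2⟩⟩
  rw [ex_congr (g := fun w => s w * G y) fun w hw => by
    rw [hG w (Sp_val hw) y (Sp_val hy) fun v hv => (hw.2 v).2 hv], ex_mul']
  exact congrArg (fun M => Ex M s * G y) e1

theorem rnSt (h : TypG) : RnSt := by
  classical
  intro L ε hε
  obtain ⟨c, d0, hc, h⟩ := h L (ε / 2) (by positivity)
  refine ⟨c / 2, max d0 1, by positivity, fun I x d hd hI => ?_⟩
  have d1 : 1 ≤ d := le_of_max_le_right hd
  set A := Nbd I d \ I with hA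
  set s := sepI I (Nbd I d)ᶜ with hs
  have fA : A.Finite := (Rm.nbd_fin hI).subset sdiff_subset
  have nb : ∀ u ∈ I, ∀ v, Adj u v → v ∈ Nbd I d := fun u hu v e =>
    ⟨u, hu, mem_Bx_ds.2 (by rw [e.symm.ds_eq]; exact d1)⟩
  have ds : DependsOn s (cl A) := (dep_red (SepE_dep true fun v h1 h2 => by
    rw [compl_compl] at h2
    by_cases hv : v ∈ I
    · rcases h1 with h1 | ⟨u, hu, e⟩
      · exact absurd hv h1
      · exact mem_cl ⟨nb v hv u e.symm, hu⟩ e
    · rcases h2 with h2 | ⟨u, hu, e⟩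
      · exact sub_cl _ ⟨h2, hv⟩
      · by_cases hu' : u ∈ I
        · exact sub_cl _ ⟨nb u hu' v e, hv⟩
        · exact mem_cl ⟨hu, hu'⟩ e)).ind
  have lc := cm_lcl fA ds
  have lo := Lcl.of_dep (cm_out A s)
  have lw : Lcl (cl A) fun w => s w * if c / 2 ≤ cm A s w then (cm A s w)⁻¹ else 0 :=
    (Lcl.of_dep ds).comp₂ lc fun a b => a * if c / 2 ≤ b then b⁻¹ else 0
  have b01 : ∀ w, 0 ≤ (if c / 2 ≤ cm A s w then (0 : ℝ) else 1) ∧
      (if c / 2 ≤ cm A s w then (0 : ℝ) else 1) ≤ 1 := fun w => by split_ifs <;> simp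
  refine ⟨_, fun w => if c / 2 ≤ cm A s w then 0 else 1, lw, fun w _ => ?_, fun ρ W ht hf =>
    ⟨⟨lw, lc.comp fun b => if c / 2 ≤ b then 0 else 1, fun w _ => b01 w, fun G hG => ?_⟩, ?_⟩⟩
  · have s0 := (Rm.sep_le I (Nbd I d)ᶜ w).1
    split_ifs with h1
    · have p : 0 < cm A s w := lt_of_lt_of_le (by positivity) h1
      refine ⟨by positivity, ?_⟩
      rw [mul_left_comm]
      exact mul_le_of_le_one_right s0 (by rwa [← div_eq_mul_inv, div_le_one p])
    · simpa using s0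
  · have := ex_cm hf s (hG.comp₂ lo fun a b => a * if c / 2 ≤ b then b⁻¹ else 0)
    rw [ex_congr (g := fun w => s w * (G w * if c / 2 ≤ cm A s w then (cm A s w)⁻¹ else 0))
      fun w _ => by ring, this]
    refine ex_congr fun w _ => ?_
    split_ifs with h1
    · have p : 0 < cm A s w := lt_of_lt_of_le (by positivity) h1
      field_simp
      ring
    · ring
  · have lb := lo.comp fun b => if c / 2 ≤ b then (0 : ℝ) else 1
    have h1 := h ρ W I x d _ ht (le_of_max_le_left hd) hI hf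
      (lb.mono fun v hv => by_contra fun h' => hv ⟨by_contra fun h => h' (Or.inr h),
        fun h => h' (Or.inl h)⟩) fun w _ => b01 w
    rw [ex_cm hf s lb] at h1
    have h2 : Ex (MS ρ W) (fun w => cm A s w * if c / 2 ≤ cm A s w then (0 : ℝ) else 1) ≤
        c / 2 * Ex (MS ρ W) fun w => if c / 2 ≤ cm A s w then (0 : ℝ) else 1 := by
      rw [← ex_mul]
      refine ex_mono fun w _ => ?_
      split_ifs with h1
      · simp
      · linarith [not_le.1 h1]
    nlinarith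

end Nl

end Pool.Agent.Lib.MP_6359c9_pr
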