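import Pool.Agent.Lib.MP_6359c9_pr.NlDef

/-! The Reeh Schlieder argument, uniformly in the three groups. -/

namespace Pool.Agent.Lib.MP_6359c9_pr

open Set Filter Topology

namespace Nl

lemma mem_sh {x v : V} {S : Set V} (h : v ∈ Equiv.addRight (-x) '' S) :
    ∃ u ∈ S, v.1 = u.1 - x.1 ∧ v.2 = u.2 - x.2 := by
  obtain ⟨u, hu, rfl⟩ := h
  exact ⟨u, hu, by simp [sub_eq_add_neg], by simp [sub_eq_add_neg]⟩

lemma nbd_lam {x u : V} {n d : ℤ} {I : Set V} (hI : I ⊆ Lam x n) (h : u ∈ Nbd I d) :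
    ∃ y ∈ I, (y.1 - d ≤ u.1 ∧ u.1 ≤ y.1 + d ∧ y.2 - d ≤ u.2 ∧ u.2 ≤ y.2 + d) ∧
      (x.1 - (6 * n + 1) ≤ y.1 ∧ y.1 ≤ x.1 + (6 * n + 1) ∧ x.2 - (6 * n + 1) ≤ y.2 ∧
        y.2 ≤ x.2 + (6 * n + 1)) ∧ ¬(x.1 - (6 * n - 1) ≤ y.1 ∧ y.1 ≤ x.1 + (6 * n - 1) ∧
        x.2 - (6 * n - 1) ≤ y.2 ∧ y.2 ≤ x.2 + (6 * n - 1)) :=
  let ⟨y, hy, h1⟩ := h
  ⟨y, hy, h1, (hI hy).1, (hI hy).2⟩

lemma lc_nbd {x : V} {n d : ℤ} {I : Set V} (hI : I ⊆ Lam x n) {F : Cf → ℝ}
    (h : Lcl (Nbd I d) F) : Lc univ F :=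
  ⟨_, Rm.nbd_fin (x := x) (n := 6 * n + 1) fun _ hv => (hI hv).1, subset_univ _, h⟩

theorem rsSt : RsSt := by
  intro ι l q C n d x X hC hg null η hη
  by_contra hn
  have hf := (not_eventually.1 hn).and_eventually hg
  simp only [not_forall, not_le] at hf
  let S := {i : ι | (∃ (F A B : Cf → ℝ) (_ : Tm C (Nbd (IF (x i) (n i) (12 * d i)) (4 * d i)) F)
    (_ : Tm C (Nbd (IA (x i) (n i) (12 * d i)) (4 * d i)) A)
    (_ : Tm C (Nbd (IB (x i) (n i) (12 * d i)) (4 * d i)) B),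
      η < |Einf fun w => X i w * F w * A w * B w|) ∧ 1 ≤ d i ∧ 12 * d i ≤ n i ∧ n i ≤ q * d i ∧
      Lcl (Bx (x i) (n i)) (X i) ∧ Einf (fun w => X i w ^ 2) ≤ C}
  have nb : NeBot (comap (Subtype.val : S → ι) l) :=
    comap_neBot_iff_frequently.2 (hf.mono fun i hi => ⟨⟨i, hi⟩, rfl⟩)
  choose F A B tF tA tB big using fun i : S => i.2.1
  have d1 : ∀ i : S, 1 ≤ d i := fun i => i.2.2.1
  have d2 : ∀ i : S, 12 * d i ≤ n i := fun i => i.2.2.2.1
  have d3 : ∀ i : S, n i ≤ q * d i := fun i => i.2.2.2.2.1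
  have lX : ∀ i : S, Lcl (Bx (x i) (n i)) (X i) := fun i => i.2.2.2.2.2.1
  have cX : ∀ i : S, Lc univ (X i) := fun i => ⟨_, Bx_finite _ _, subset_univ _, lX i⟩
  have e : ∀ i : S, (((d i).toNat : ℕ) : ℤ) = d i := fun i => Int.toNat_of_nonneg (by
    have := d1 i; omega)
  have eL : ∀ i : S, ((7 * q + 5 : ℕ) : ℤ) * ((d i).toNat : ℕ) = 7 * (q * d i) + 5 * d i :=
    fun i => by rw [e i]; push_cast; ring
  have sF : ∀ i : S, IF (x i) (n i) (12 * d i) ⊆ Lam (x i) (n i) := fun _ _ h => h.1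
  have sA : ∀ i : S, IA (x i) (n i) (12 * d i) ⊆ Lam (x i) (n i) := fun _ _ h => h.1
  have sB : ∀ i : S, IB (x i) (n i) (12 * d i) ⊆ Lam (x i) (n i) := fun _ _ h => h.1
  have bx : ∀ (i : S) (I : Set V), I ⊆ Lam (x i) (n i) →
      Equiv.addRight (-x i) '' Nbd I (4 * d i) ⊆
        Bx 0 (((7 * q + 5 : ℕ) : ℤ) * ((d i).toNat : ℕ)) := fun i I hI v hv => by
    obtain ⟨u, hu, e1, e2⟩ := mem_sh hv
    obtain ⟨y, -, h1, h2, -⟩ := nbd_lam hI hu
    have := d1 i; have := d2 i; have := d3 i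
    rw [eL i, mem_Bx0]; omega
  have key := rs3 (comap (Subtype.val : S → ι) l) (7 * q + 5) hC (fun i => (d i).toNat)
    (fun i => -(2 * n i)) (fun i => 3 * n i + 1) (fun i => -(2 * n i))
    (X := fun i => tr (-x i) (X i)) (F := fun i => tr (-x i) (F i))
    (A := fun i => tr (-x i) (A i)) (B := fun i => tr (-x i) (B i))
    (SX := fun i => Equiv.addRight (-x i) '' Bx (x i) (n i))
    (fun i => by have := d1 i; omega)
    (fun i v hv => by
      obtain ⟨u, hu, e1, e2⟩ := mem_sh hv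
      have := d1 i; have := d2 i; have := d3 i
      rw [mem_Bx] at hu
      rw [eL i, mem_Bx0]; omega)
    (fun i => bx i _ (sF i)) (fun i => bx i _ (sA i)) (fun i => bx i _ (sB i))
    (fun i v hv => by
      obtain ⟨u, hu, e1, e2⟩ := mem_sh hv
      obtain ⟨y, hy, h1, -⟩ := nbd_lam (sA i) hu
      have := d1 i; have := hy.2
      rw [e i]; omega)
    (fun i v hv => by
      obtain ⟨u, hu, e1, e2⟩ := mem_sh hv
      have := d1 i; have := d2 i
      rw [mem_Bx] at hu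
      omega)
    (fun i v hv => by
      obtain ⟨u, hu, e1, e2⟩ := mem_sh hv
      obtain ⟨y, hy, h1, -⟩ := nbd_lam (sF i) hu
      have := d1 i; have := hy.2.1
      omega)
    (fun i v hv => by
      obtain ⟨u, hu, e1, e2⟩ := mem_sh hv
      obtain ⟨y, hy, h1, -⟩ := nbd_lam (sB i) hu
      have := d1 i; have := hy.2.1
      omega)
    (fun i v hv => by
      obtain ⟨u, hu, e1, e2⟩ := mem_sh hv
      obtain ⟨y, hy, h1, h2, h3⟩ := nbd_lam (sB i) hu
      have := d1 i; have := d2 i; have := hy.2.1; have := hy.2.2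
      rw [e i]; omega)
    (fun i v hv => by
      obtain ⟨u, hu, e1, e2⟩ := mem_sh hv
      have := d1 i; have := d2 i
      rw [mem_Bx] at hu
      omega)
    (fun i v hv => by
      obtain ⟨u, hu, e1, e2⟩ := mem_sh hv
      obtain ⟨y, hy, h1, h2, -⟩ := nbd_lam (sF i) hu
      have := d1 i; have := hy.2.2
      omega)
    (fun i v hv => by
      obtain ⟨u, hu, e1, e2⟩ := mem_sh hv
      obtain ⟨y, hy, h1, -⟩ := nbd_lam (sF i) hu
      have := d1 i; have := d2 i; have := hy.2.2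
      omega)
    (fun i v hv => by
      obtain ⟨u, hu, e1, e2⟩ := mem_sh hv
      have := d1 i; have := d2 i
      rw [mem_Bx] at hu
      omega)
    (fun i => by have := d1 i; have := d2 i; have := d3 i; rw [eL i]; omega)
    (fun i => by have := d1 i; have := d2 i; have := d3 i; rw [eL i]; omega)
    (fun i => (lX i).act (g := Equiv.addRight (-x i)) (aut_add _).adj)
    (fun i => (Einf_act (aut_add (-x i)) ((cX i).comp (· ^ 2))).trans_le i.2.2.2.2.2.2)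
    (fun i => (tF i).tr _) (fun i => (tA i).tr _) (fun i => (tB i).tr _)
    ((null.comp tendsto_comap).congr fun i => by
      rw [Function.comp, ← Einf_act (aut_add (-x i)) ((cX i).mul ((cX i).rfj _))]
      refine congrArg Einf (funext fun w => congrArg₂ _ rfl (congrArg (X i) (funext fun v => ?_)))
      refine congrArg w (Prod.ext ?_ ?_) <;> simp [rfj] <;> ring)
  obtain ⟨i, hi⟩ := ((Metric.tendsto_nhds.1 key) η hη).exists
  rw [Real.dist_eq, sub_zero] at hi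
  have := Einf_act (aut_add (-x i)) ((((cX i).mul (lc_nbd (sF i) (tF i).1)).mul
    (lc_nbd (sA i) (tA i).1)).mul (lc_nbd (sB i) (tB i).1))
  exact absurd (big i) (not_lt.2 (this ▸ hi.le))

end Nl

end Pool.Agent.Lib.MP_6359c9_pr
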