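import Pool.Agent.Lib.MP_6359c9_pr.Spec

/-! Truncation lemmas, and the passage from bounded to unbounded outside functions. -/

namespace Pool.Agent.Lib.MP_6359c9_pr

open Set Filter Topology

/-- truncation at level `T` -/
def trc (T a : ℝ) : ℝ := max (-T) (min T a)

lemma abs_trc_le {T : ℝ} (hT : 0 ≤ T) (a : ℝ) : |trc T a| ≤ T := by
  unfold trc
  rw [abs_le]
  exact ⟨le_max_left _ _, max_le (by linarith) (min_le_left _ _)⟩

lemma trc_cases {T : ℝ} (hT : 0 ≤ T) (a : ℝ) :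
    trc T a = a ∨ T ≤ |a| ∧ |a - trc T a| ≤ |a| := by
  unfold trc
  rcases le_total a T with h | h
  · rcases le_total (-T) a with h' | h'
    · exact Or.inl (by rw [min_eq_right h, max_eq_right h'])
    · refine Or.inr ⟨by rw [abs_of_nonpos (by linarith)]; linarith, ?_⟩
      rw [min_eq_right h, max_eq_left h', abs_of_nonpos (by linarith), abs_of_nonpos (by linarith)]
      linarith
  · refine Or.inr ⟨by rw [abs_of_nonneg (by linarith)]; linarith, ?_⟩
    rw [min_eq_left h, max_eq_right (by linarith), abs_of_nonneg (by linarith),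
      abs_of_nonneg (by linarith)]
    linarith

lemma abs_sub_trc {T : ℝ} (hT : 0 < T) (a : ℝ) (k : ℕ) : |a - trc T a| ≤ |a| ^ (k + 1) / T ^ k := by
  rcases trc_cases hT.le a with h | ⟨h1, h2⟩
  · rw [h, sub_self, abs_zero]; positivity
  · rw [le_div_iff₀ (by positivity), pow_succ']
    exact mul_le_mul h2 (pow_le_pow_left₀ hT.le h1 k) (by positivity) (abs_nonneg _)

lemma abs_sub_trc4 {T : ℝ} (hT : 0 < T) (a : ℝ) : |a - trc T a| ≤ a ^ 4 / T ^ 3 := by
  have := abs_sub_trc hT a 3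
  rwa [show |a| ^ (3 + 1) = a ^ 4 from Even.pow_abs (by decide) a] at this

lemma abs_le_trc4 {T : ℝ} (hT : 0 < T) (a : ℝ) : |a| ≤ T + a ^ 4 / T ^ 3 := by
  have h1 := abs_sub_trc4 hT a
  have h2 := abs_trc_le hT.le a
  have h3 := abs_add_le (trc T a) (a - trc T a)
  rw [add_sub_cancel] at h3
  linarith

lemma mul_sub_trc {T : ℝ} (hT : 0 < T) (a b : ℝ) :
    |a * b - a * trc T b| ≤ (a ^ 4 + b ^ 4) / T ^ 2 := by
  rw [← mul_sub, abs_mul]
  refine (mul_le_mul_of_nonneg_left (abs_sub_trc hT b 2) (abs_nonneg a)).trans ?_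
  rw [← mul_div_assoc]
  refine div_le_div_of_nonneg_right ?_ (by positivity)
  rw [← Even.pow_abs (by decide : Even 4) a, ← Even.pow_abs (by decide : Even 4) b]
  have ha := abs_nonneg a
  have hb := abs_nonneg b
  generalize |a| = s at *
  generalize |b| = t at *
  change s * t ^ 3 ≤ _
  rcases le_total s t with h | h
  · have : s * t ^ 3 ≤ t * t ^ 3 := mul_le_mul_of_nonneg_right h (by positivity)
    have e : t * t ^ 3 = t ^ 4 := by ring
    linarith [pow_nonneg ha 4]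
  · have : s * t ^ 3 ≤ s * s ^ 3 := mul_le_mul_of_nonneg_left (pow_le_pow_left₀ hb h 3) ha
    have e : s * s ^ 3 = s ^ 4 := by ring
    linarith [pow_nonneg hb 4]

section
variable {Ω : Type} {M : Set Ω} {F : Ω → ℝ} {C T : ℝ}

/-- an unbounded function against a weight with values in the unit interval -/
lemma ex_abs_wt (hT : 0 < T) (hC : Ex M (fun w => F w ^ 4) ≤ C) {h : Ω → ℝ}
    (h0 : ∀ w ∈ M, 0 ≤ h w) (h1 : ∀ w ∈ M, h w ≤ 1) :
    Ex M (fun w => |F w| * h w) ≤ T * Ex M h + C / T ^ 3 := by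
  have : Ex M (fun w => |F w| * h w) ≤ Ex M fun w => T * h w + F w ^ 4 * (T ^ 3)⁻¹ := by
    refine ex_mono fun w hw => ?_
    have a := mul_le_mul_of_nonneg_right (abs_le_trc4 hT (F w)) (h0 w hw)
    have b : F w ^ 4 / T ^ 3 * h w ≤ F w ^ 4 / T ^ 3 :=
      mul_le_of_le_one_right (by positivity) (h1 w hw)
    rw [add_mul] at a
    rw [← div_eq_mul_inv]
    linarith
  rw [ex_add, ex_mul, ex_mul', ← div_eq_mul_inv] at this
  exact this.trans (add_le_add le_rfl (div_le_div_of_nonneg_right hC (by positivity)))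

/-- an unbounded function on an event of small probability -/
lemma ex_abs_ind (hT : 0 < T) (hC : Ex M (fun w => F w ^ 4) ≤ C) (A : Set Ω) :
    Ex M (fun w => |F w| * A.indicator 1 w) ≤ T * Pr M A + C / T ^ 3 := by
  rw [pr_eq]
  exact ex_abs_wt hT hC (fun w _ => indicator_nonneg (fun _ _ => zero_le_one) w)
    fun w _ => indicator_le_self' (fun _ _ => zero_le_one) w

/-- the same for a signed weight that is bounded by one and vanishes off `A` -/
lemma abs_ex_bad (hT : 0 < T) (hC : Ex M (fun w => F w ^ 4) ≤ C) {A : Set Ω} {h : Ω → ℝ}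
    (h1 : ∀ w ∈ M, |h w| ≤ 1) (h0 : ∀ w ∈ M, w ∉ A → h w = 0) :
    |Ex M fun w => F w * h w| ≤ T * Pr M A + C / T ^ 3 := by
  refine (abs_ex_le _ _).trans (le_trans (ex_mono fun w hw => ?_) (ex_abs_ind hT hC A))
  rw [abs_mul]
  refine mul_le_mul_of_nonneg_left ?_ (abs_nonneg _)
  by_cases hA : w ∈ A
  · simpa [hA] using h1 w hw
  · simp [hA, h0 w hw hA]

lemma abs_ex_sub_trc (hT : 0 < T) (hC : Ex M (fun w => F w ^ 4) ≤ C) :
    |Ex M F - Ex M fun w => trc T (F w)| ≤ C / T ^ 3 := by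
  rw [← ex_sub]
  refine (abs_ex_le _ _).trans ((ex_mono fun w _ => abs_sub_trc4 hT (F w)).trans ?_)
  simp only [div_eq_mul_inv, ex_mul']
  exact mul_le_mul_of_nonneg_right hC (by positivity)

lemma ex_pow4_mul (hC : Ex M (fun w => F w ^ 4) ≤ C) {h : Ω → ℝ} (h1 : ∀ w ∈ M, |h w| ≤ 1) :
    Ex M (fun w => (F w * h w) ^ 4) ≤ C := by
  refine (ex_mono fun w hw => ?_).trans hC
  rw [mul_pow, ← Even.pow_abs (by decide : Even 4) (h w)]
  exact mul_le_of_le_one_right (by positivity) (pow_le_one₀ (abs_nonneg _) (h1 w hw))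

lemma ex_sq_le (hM : Ok M) (hC : Ex M (fun w => F w ^ 4) ≤ C) :
    Ex M (fun w => F w ^ 2) ≤ C + 1 := by
  have : Ex M (fun w => F w ^ 2) ≤ Ex M fun w => F w ^ 4 + 1 :=
    ex_mono fun w _ => by nlinarith [sq_nonneg (F w ^ 2 - 1), sq_nonneg (F w)]
  rw [ex_add, ex_const hM] at this
  linarith

end

/-- total variation bounds for functions with bounded fourth moments -/
lemma tv_l4 {M M' : Set Cf} (hM : Ok M) (hM' : Ok M') (h1 : M ⊆ Val) (h2 : M' ⊆ Val)
    {I : Set V} {p C T : ℝ} {F : Cf → ℝ} (hT : 0 < T)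
    (h : ∀ f : Cf → ℝ, (∀ w, 0 ≤ f w) → (∀ w, f w ≤ 1) → DependsOn f I → |Ex M f - Ex M' f| ≤ p)
    (hF : Lcl I F) (hC : Ex M (fun w => F w ^ 4) ≤ C) (hC' : Ex M' (fun w => F w ^ 4) ≤ C) :
    |Ex M F - Ex M' F| ≤ 2 * T * p + 2 * (C / T ^ 3) := by
  have a := tv_scale hM hM' h1 h2 h (hF.comp (trc T)) fun w _ => abs_trc_le hT.le (F w)
  have b := abs_ex_sub_trc hT hC
  have c := abs_ex_sub_trc hT hC'
  rw [abs_le] at *
  constructor <;> linarith [a.1, a.2, b.1, b.2, c.1, c.2]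

/-- the choice of the truncation level -/
lemma exists_trc (C : ℝ) {ε : ℝ} (hε : 0 < ε) (k : ℕ) : ∃ T : ℝ, 1 ≤ T ∧ C / T ^ (k + 1) ≤ ε := by
  refine ⟨max 1 (C / ε), le_max_left _ _, ?_⟩
  have h1 : (1 : ℝ) ≤ max 1 (C / ε) := le_max_left _ _
  have h2 : C / ε ≤ max 1 (C / ε) := le_max_right _ _
  generalize max 1 (C / ε) = T at *
  rw [div_le_iff₀ hε] at h2
  rw [div_le_iff₀ (by positivity)]
  have : T ≤ T ^ (k + 1) := le_self_pow₀ h1 (by omega)
  nlinarith

lemma Tm4.mono {C : ℝ} {B B' : Set V} {X : Cf → ℝ} (h : Tm4 C B X) (hB : B ⊆ B') : Tm4 C B' X :=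
  fun ρ W t f => h ρ W t fun v hv => f v (hB hv)

lemma Tm4.einf {C : ℝ} {B : Set V} {X : Cf → ℝ} (h : Tm4 C B X) (hB : B.Finite)
    (hX : Lc univ X) : Einf (fun w => X w ^ 4) ≤ C := by
  refine le_of_tendsto (tendsto_off (hX.comp (· ^ 4)) true 0 0) ?_
  obtain ⟨n, hn⟩ := exists_Bx hB 0
  filter_upwards [eventually_ge_atTop n] with R hR
  have s : B ⊆ Bx 0 ((R : ℤ) + (0 : ℕ)) := hn.trans (Bx_mono (by push_cast; omega))
  exact h _ _ (tame_off true (Bx_finite _ _) (Bx_finite _ _) (Bx_coConn _ _)) fun v hv =>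
    ⟨eq_univ_of_forall fun _ h => absurd (s hv) h, s hv⟩

lemma Tm4.einf2 {C : ℝ} {B : Set V} {X : Cf → ℝ} (h : Tm4 C B X) (hB : B.Finite)
    (hX : Lc univ X) : Einf (fun w => X w ^ 2) ≤ C + 1 := by
  have a := Einf_mono (hX.comp (· ^ 2)) ((hX.comp (· ^ 4)).add (Lc.const _ 1)) fun w _ => by
    nlinarith [sq_nonneg (X w ^ 2 - 1), sq_nonneg (X w)]
  rw [Einf_add (hX.comp (· ^ 4)) (Lc.const _ 1), Einf_const] at a
  linarith [h.einf hB hX]

/-- from bounded to unbounded outside functions -/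
theorem null_of (h : Null1St) : NullSt := by
  obtain ⟨K, hK, h⟩ := h
  refine ⟨K, hK, fun ι l n x ρ W X Y C hn hl h0 => ?_⟩
  set P : ι → Prop := fun i => Tame (ρ i) (W i) ∧ Free (ρ i) (W i) (Bx (x i) (K * n i)) ∧
      Lcl (Bx (x i) (n i)) (X i) ∧ Lcl (Bx (x i) (K * n i))ᶜ (Y i) ∧
      Tm4 C (Bx (x i) (4 * n i)) (X i) ∧ Ex (MS (ρ i) (W i)) (fun w => Y i w ^ 4) ≤ C with hP
  have e : map (Subtype.val : {i // P i} → ι) (comap Subtype.val l) = l :=
    map_comap_of_mem (by rwa [Subtype.range_val_subtype])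
  have key : ∀ T : ℝ, 0 < T →
      Tendsto (fun i => Ex (MS (ρ i) (W i)) fun w => X i w * trc T (Y i w)) l (𝓝 0) := by
    intro T hT
    have := h {i // P i} (comap Subtype.val l) (fun i => n i) (fun i => x i) (fun i => ρ i)
      (fun i => W i) (fun i => X i) (fun i w => T⁻¹ * trc T (Y i w)) C (hn.comp tendsto_comap)
      (fun i => ⟨i.2.1, i.2.2.1, i.2.2.2.1, i.2.2.2.2.1.comp fun a => T⁻¹ * trc T a,
        i.2.2.2.2.2.1, fun w _ => by
          rw [abs_mul, abs_of_pos (inv_pos.2 hT), inv_mul_le_iff₀ hT, mul_one]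
          exact abs_trc_le hT.le _⟩) (h0.comp tendsto_comap)
    have h2 := this.const_mul T
    rw [mul_zero] at h2
    rw [← e, tendsto_map'_iff]
    refine h2.congr fun i => ?_
    rw [← ex_mul]
    exact ex_congr fun w _ => by field_simp
  rw [Metric.tendsto_nhds]
  intro ε hε
  obtain ⟨T, hT, hC⟩ := exists_trc (2 * C) (by positivity : 0 < ε / 2) 1
  have T0 : 0 < T := by linarith
  filter_upwards [hl, Metric.tendsto_nhds.1 (key T T0) (ε / 2) (by positivity),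
    hn.eventually_ge_atTop 0] with i hi h1 h2
  rw [Real.dist_eq, sub_zero] at h1 ⊢
  have hX := hi.2.2.2.2.1 _ _ hi.1 fun v hv => hi.2.1 v (Bx_mono
    (mul_le_mul_of_nonneg_right (by exact_mod_cast hK) h2) hv)
  have a : |Ex (MS (ρ i) (W i)) (fun w => X i w * Y i w) -
      Ex (MS (ρ i) (W i)) fun w => X i w * trc T (Y i w)| ≤ 2 * C / T ^ (1 + 1) := by
    rw [← ex_sub]
    refine (abs_ex_le _ _).trans ((ex_mono fun w _ => mul_sub_trc T0 _ _).trans ?_)
    simp only [div_eq_mul_inv, ex_mul', ex_add]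
    exact mul_le_mul_of_nonneg_right (by linarith [hi.2.2.2.2.2]) (by positivity)
  have := abs_sub_abs_le_abs_sub (Ex (MS (ρ i) (W i)) (fun w => X i w * Y i w))
    (Ex (MS (ρ i) (W i)) fun w => X i w * trc T (Y i w))
  linarith

end Pool.Agent.Lib.MP_6359c9_pr
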