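import Pool.Agent.Lib.MP_6359c9_pr.NlDef
import Pool.Agent.Lib.MP_6359c9_pr.NullOf

/-! Forcing red plus near the cut points, and the geometry of the loop. -/

namespace Pool.Agent.Lib.MP_6359c9_pr

open Set Filter Topology

namespace Nl

lemma Cn_mono (x : V) (n : ℤ) {r r' : ℤ} (h : r ≤ r') : Cn x n r ⊆ Cn x n r' :=
  union_subset_union (union_subset_union (Bx_mono h) (Bx_mono h)) (Bx_mono h)

lemma abs_ex_trc {Ω : Type} {M : Set Ω} {G : Ω → ℝ} {C T : ℝ} (hT : 0 < T)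
    (hC : Ex M (fun w => G w ^ 2) ≤ C) : |Ex M G - Ex M fun w => trc T (G w)| ≤ C / T := by
  rw [← ex_sub]
  refine (abs_ex_le _ _).trans ((ex_mono (g := fun w => G w ^ 2 * T⁻¹) fun w _ => ?_).trans ?_)
  · simpa [div_eq_mul_inv] using abs_sub_trc hT (G w) 1
  · rw [ex_mul', div_eq_mul_inv]
    exact mul_le_mul_of_nonneg_right hC (by positivity)

theorem tvSt : TvSt := by
  obtain ⟨C0, α, hC0, hα, arm⟩ := arm_tm'
  refine ⟨6 * C0, α, by positivity, hα, fun ρ W S x n r r' G C M t hr hr' hρ hS hG h1 h2 hM => ?_⟩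
  have t' : Tame (fo ρ S) W := tame_fo t fun v hv => (hρ v (Cn_mono x n hr' (hS hv))).1
  have a : ∀ P : V, Bx P r' ⊆ Cn x n r' →
      Pr (MS ρ W) (red ⁻¹' SepE true (Bx P r) (Bx P r')ᶜ)ᶜ ≤ C0 * ((r : ℝ) / r') ^ α :=
    fun P hP => arm true ρ W P r r' t hr hr' fun v hv _ => hρ v (hP hv)
  have p : Pr (MS ρ W) (red ⁻¹' SepE true (Cn x n r')ᶜ (Cn x n r))ᶜ ≤
      3 * (C0 * ((r : ℝ) / r') ^ α) := by
    have a1 := a _ (subset_union_left.trans subset_union_left)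
    have a2 := a _ (subset_union_right.trans subset_union_left)
    have a3 := a _ subset_union_right
    refine le_trans (pr_mono fun w _ hw => ?_) (((pr_union_le _ _ _).trans
      (add_le_add ((pr_union_le _ _ _).trans (add_le_add a1 a2)) a3)).trans (le_of_eq (by ring)))
    by_contra hc
    simp only [mem_union, mem_compl_iff, not_or, not_not] at hc
    refine hw fun u hu v hv c => ?_
    rcases hv with (hv | hv) | hv
    · exact hc.1.1 v hv u (fun h => hu (Or.inl (Or.inl h))) c.symm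
    · exact hc.1.2 v hv u (fun h => hu (Or.inl (Or.inr h))) c.symm
    · exact hc.2 v hv u (fun h => hu (Or.inr h)) c.symm
  have k := tv_scale t'.ok t.ok Sp_val Sp_val (I := (Cn x n r')ᶜ) (fun f f0 f1 hf => by
    have ok := t'.ok
    change Ok (MS (fo ρ S) W) at ok
    change |Ex (MS (fo ρ S) W) f - _| ≤ _
    rw [MS_fo] at ok ⊢
    exact (tv t (Rm.pl_up S) ((Rm.pl_dep S).mono hS) ok f0 f1 hf).trans p)
    (hG.comp (trc M)) fun w _ => abs_trc_le hM.le (G w)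
  have b1 := abs_ex_trc hM h1
  have b2 := abs_ex_trc hM h2
  rw [abs_le] at k b1 b2 ⊢
  have e : 2 * C / M = C / M + C / M := by ring
  constructor <;> nlinarith [k.1, k.2, b1.1, b1.2, b2.1, b2.2]

/-! ### geometry -/

/-- red plus is forced here -/
def HH (x : V) (n a : ℤ) : Set V := Lam x n ∩ Cn x n (a + 1)

/-- the frozen part of the loop -/
def Xi (x : V) (n a : ℤ) : Set V := Lam x n \ (Bx x (6 * n) ∪ Cn x n a)

variable {x : V} {n a z d : ℤ}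

lemma Lam_sub (hn : 1 ≤ n) : Lam x n ⊆ Bx x (7 * n) := fun _ hv => Bx_mono (by omega) hv.1

lemma Lam_fin : (Lam x n).Finite := (Bx_finite _ _).subset sdiff_subset

lemma Lam_out (hn : 1 ≤ n) : ∀ v ∈ Bx x (4 * n), v ∉ Lam x n :=
  fun _ hv h => h.2 (Bx_mono (by omega) hv)

lemma cut_adj (u : V) (h1 : u ∉ Bx x (6 * n)) (h2 : u ∉ Xi x n a) (v : V) (hv : v ∈ Bx x (6 * n))
    (e : Adj u v) : u ∈ HH x n a ∧ v ∈ HH x n a := by
  have u1 : u ∈ Lam x n := ⟨cl_Bx _ _ (mem_cl hv e.symm), fun h => h1 (Bx_mono (by omega) h)⟩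
  have u2 : u ∈ Cn x n a := by
    by_contra h
    exact h2 ⟨u1, fun h' => h'.elim h1 h⟩
  refine ⟨⟨u1, Cn_mono x n (by omega) u2⟩, ⟨Bx_mono (by omega) hv, fun h => h1 ?_⟩, ?_⟩
  · simpa using cl_Bx _ _ (mem_cl h e.symm)
  · rcases u2 with (h | h) | h
    · exact Or.inl (Or.inl (cl_Bx _ _ (mem_cl h e)))
    · exact Or.inl (Or.inr (cl_Bx _ _ (mem_cl h e)))
    · exact Or.inr (cl_Bx _ _ (mem_cl h e))

lemma Cn_sub (h : a ≤ n) : Cn x n a ⊆ Bx x (7 * n) := by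
  rintro v ((hv | hv) | hv) <;> simp only [mem_Bx] at * <;> omega

lemma Cn_out (h : a ≤ n) (hn : 1 ≤ n) : Bx x n ⊆ (Cn x n a)ᶜ := by
  rintro v h ((hv | hv) | hv) <;> simp only [mem_Bx] at * <;> omega

lemma arcs (h1 : 1 ≤ z) (h2 : z ≤ n) {v : V} (hv : v ∈ Lam x n) (h : v ∉ Cn x n z) :
    v ∈ IF x n z ∪ IA x n z ∪ IB x n z := by
  have h3 := hv
  simp only [Cn, Lam, mem_union, Set.mem_sdiff, mem_Bx] at h h3
  simp only [IF, IA, IB, mem_union, mem_ofPred_eq, hv, true_and]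
  omega

lemma zoneF {v : V} (h : v ∈ Nbd (IF x n (12 * d)) (4 * d)) : x.1 - 2 * n + 8 * d < v.1 ∧
    v.1 + v.2 < x.1 + x.2 + 3 * n + 1 - 4 * d ∧ v.2 < x.2 - 3 * n - 8 * d := by
  obtain ⟨u, ⟨h1, h2⟩, h3⟩ := h
  simp only [Lam, Set.mem_sdiff, mem_Bx] at h1 h3
  omega

lemma zoneA {v : V} (h : v ∈ Nbd (IA x n (12 * d)) (4 * d)) : v.1 < x.1 - 2 * n - 8 * d := by
  obtain ⟨u, ⟨-, h2⟩, h3⟩ := h
  simp only [mem_Bx] at h3
  omega

lemma zoneB (_hd : 1 ≤ d) (_hn : 1 ≤ n) {v : V} (h : v ∈ Nbd (IB x n (12 * d)) (4 * d)) :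
    x.1 - 2 * n + 8 * d < v.1 ∧ x.1 + x.2 + 3 * n + 4 * d < v.1 + v.2 := by
  obtain ⟨u, ⟨h1, h2⟩, h3⟩ := h
  simp only [Lam, Set.mem_sdiff, mem_Bx] at h1 h3
  omega

end Nl

end Pool.Agent.Lib.MP_6359c9_pr
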