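import Pool.Agent.Lib.MP_6359c9_pr.Typ
import Pool.Agent.Lib.MP_6359c9_pr.NlDef

/-! The typical separator estimate in the form used for null functions. -/

namespace Pool.Agent.Lib.MP_6359c9_pr.Nl

theorem typG : TypG := fun L ε hε =>
  let ⟨c, d0, hc, _, h⟩ := typ_gen L ε hε
  ⟨c, d0, hc, h⟩

end Pool.Agent.Lib.MP_6359c9_pr.Nl
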