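import Pool.Agent.Lib.MP_6359c9_pr.NlMain
import Pool.Agent.Lib.MP_6359c9_pr.NlCond
import Pool.Agent.Lib.MP_6359c9_pr.NlCtg
import Pool.Agent.Lib.MP_6359c9_pr.NlFac
import Pool.Agent.Lib.MP_6359c9_pr.NlGrp
import Pool.Agent.Lib.MP_6359c9_pr.NlRn
import Pool.Agent.Lib.MP_6359c9_pr.NlRs
import Pool.Agent.Lib.MP_6359c9_pr.NlTyp

/-! Null functions of the reflection form are orthogonal to the outside. -/

namespace Pool.Agent.Lib.MP_6359c9_pr

theorem null1 : Null1St :=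
  Nl.null1_of Nl.limSt Nl.facSt Nl.condSt (Nl.grpSt (Nl.rnSt Nl.typG)) (Nl.ctgSt Nl.typG) Nl.rsSt

theorem nullSt : NullSt := null_of null1

end Pool.Agent.Lib.MP_6359c9_pr
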