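import Pool.Agent.Lib.MP_6359c9_pr.SdDef
import Pool.Agent.Lib.MP_6359c9_pr.EndG

/-! Splitting a bounded function into near, middle and far parts; rescaled test functions. -/

namespace Pool.Agent.Lib.MP_6359c9_pr.Sd

open Set Filter Topology MeasureTheory Pl
open scoped Laplacian

theorem split {φ : ℂ → ℝ} {L b t R : ℝ} (hφ : Tf 0 L b φ) (x : ℂ) (t0 : 0 < t) (hR : 4 * t ≤ R) :
    ∃ f₁ f₂ f₃ : ℂ → ℝ, (∀ z, φ z = f₁ z + f₂ z + f₃ z) ∧ Tf x (4 * t) (2 * b) f₁ ∧
      ∫ z, f₁ z = 0 ∧ (∀ z, ‖z - x‖ ≤ t → f₁ z = φ z) ∧ Tf x R (3 * b) f₂ ∧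
      (∀ z, f₂ z ≠ 0 → t < ‖z - x‖) ∧ Tf x R b (fun z => f₁ z + f₂ z) ∧ Tf 0 L b f₃ ∧
      ∀ z, f₃ z ≠ 0 → R < ‖z - x‖ := by
  have cut : ∀ s, Tf x s b ((Metric.closedBall x s).indicator φ) := fun s =>
    have h := MF.Tf_ind hφ (measurableSet_closedBall (x := x) (ε := s))
    ⟨h.meas, h.bd, fun z hz => mem_closedBall_iff_norm.1 (mem_of_indicator_ne_zero hz)⟩
  have on : ∀ s z, ‖z - x‖ ≤ s → (Metric.closedBall x s).indicator φ z = φ z := fun s z hz =>
    indicator_of_mem (mem_closedBall_iff_norm.2 hz) φ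
  obtain ⟨g, hg⟩ : ∃ g, g = (Metric.closedBall x t).indicator φ := ⟨_, rfl⟩
  have tg : Tf x t b g := hg ▸ cut t
  have n3 : ‖((3 * t : ℝ) : ℂ)‖ = 3 * t := by
    rw [Complex.norm_real, Real.norm_of_nonneg (by positivity)]
  have e3 : ∀ z : ℂ, z - x = z - ((3 * t : ℝ) : ℂ) - x + ((3 * t : ℝ) : ℂ) := fun z => by ring
  have t1 : Tf x (4 * t) (2 * b) fun z => g z - g (z - ((3 * t : ℝ) : ℂ)) := by
    refine ⟨tg.meas.sub (tg.int.comp_sub_right _).1, fun z => (abs_sub _ _).trans ?_,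
      fun z hz => ?_⟩
    · linarith [tg.bd z, tg.bd (z - ((3 * t : ℝ) : ℂ))]
    · by_cases h : g z = 0
      · have := tg.supp (z - ((3 * t : ℝ) : ℂ)) fun h' => hz (by rw [h, h', sub_zero])
        rw [e3]
        linarith [norm_add_le (z - ((3 * t : ℝ) : ℂ) - x) ((3 * t : ℝ) : ℂ)]
      · linarith [tg.supp z h]
  have nr1 : ∀ z, ‖z - x‖ ≤ t → g z - g (z - ((3 * t : ℝ) : ℂ)) = φ z := by
    intro z hz
    have : g (z - ((3 * t : ℝ) : ℂ)) = 0 := by
      by_contra h
      have a := tg.supp _ h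
      have c := norm_sub_le (z - x) (z - ((3 * t : ℝ) : ℂ) - x)
      rw [show z - x - (z - ((3 * t : ℝ) : ℂ) - x) = ((3 * t : ℝ) : ℂ) by ring, n3] at c
      linarith
    rw [this, sub_zero, hg, on t z hz]
  refine ⟨fun z => g z - g (z - ((3 * t : ℝ) : ℂ)), fun z => (Metric.closedBall x R).indicator φ z -
    (g z - g (z - ((3 * t : ℝ) : ℂ))), (Metric.closedBall x R)ᶜ.indicator φ, fun z => ?_, t1, ?_,
    nr1, ⟨(cut R).meas.sub t1.meas, fun z => (abs_sub _ _).trans ?_, fun z hz => ?_⟩,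
    fun z hz => ?_, ?_, MF.Tf_ind hφ measurableSet_closedBall.compl, fun z hz => ?_⟩
  · rw [add_sub_cancel, indicator_self_add_compl_apply]
  · rw [integral_sub tg.int (tg.int.comp_sub_right _), integral_sub_right_eq_self, sub_self]
  · linarith [(cut R).bd z, t1.bd z]
  · by_cases h : (Metric.closedBall x R).indicator φ z = 0
    · exact (t1.supp z fun h' => hz (by rw [h, h', sub_zero])).trans hR
    · exact (cut R).supp z h
  · by_contra h
    rw [not_lt] at h
    exact hz (by simp only [nr1 z h, on R z (by linarith), sub_self])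
  · simpa only [add_sub_cancel] using cut R
  · exact not_le.1 fun h => mem_of_indicator_ne_zero hz (mem_closedBall_iff_norm.2 h)

lemma dv_scl {Ψ : ℂ → ℝ} (h : Differentiable ℝ Ψ) (x v : ℂ) (r : ℝ) :
    End.dv v (End.scl Ψ x r) = fun z => r⁻¹ * End.scl (End.dv v Ψ) x r z := by
  ext z
  have d : HasFDerivAt (fun z : ℂ => (z - x) / r) (r⁻¹ • ContinuousLinearMap.id ℝ ℂ) z := by
    refine (((hasFDerivAt_id (𝕜 := ℝ) z).sub_const x).const_smul r⁻¹).congr_of_eventuallyEq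
      (Eventually.of_forall fun y => ?_)
    simp [div_eq_inv_mul]
  have := ((h ((z - x) / r)).hasFDerivAt.comp z d).fderiv
  rw [End.dv, show End.scl Ψ x r = Ψ ∘ fun z : ℂ => (z - x) / r from rfl, this]
  simp only [End.scl, End.dv, ContinuousLinearMap.comp_apply, smul_apply,
    ContinuousLinearMap.id_apply, map_smul, smul_eq_mul]

lemma lap_scl {Ψ : ℂ → ℝ} (h : Test (Metric.ball 0 1) Ψ) (x z : ℂ) (r : ℝ) :
    Δ (End.scl Ψ x r) z = (r ^ 2)⁻¹ * Δ Ψ ((z - x) / r) := by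
  have c2 := End.Test.two h
  have e : ∀ v, End.dv v (End.dv v (End.scl Ψ x r)) z =
      (r ^ 2)⁻¹ * End.dv v (End.dv v Ψ) ((z - x) / r) := by
    intro v
    have d1 := (End.dv_cd (m := 1) c2 (by norm_num) v).differentiable (by norm_num)
    have d2 : DifferentiableAt ℝ (End.scl (End.dv v Ψ) x r) z :=
      (((End.dv_cd (m := 1) c2 (by norm_num) v).comp
        ((contDiff_id.sub contDiff_const).div_const _)).differentiable (by norm_num)) z
    rw [dv_scl (c2.differentiable (by norm_num)), End.dv, fderiv_const_mul d2,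
      smul_apply, smul_eq_mul, ← End.dv, dv_scl d1]
    simp only [End.scl]
    ring
  rw [End.lap_dv (End.scl_cd h x r), End.lap_dv c2, e, e, mul_add]

theorem scl_Tf {Ψ : ℂ → ℝ} (h : Test (Metric.ball 0 1) Ψ) : ∃ B > (0 : ℝ), ∀ (x : ℂ) (r : ℝ),
    0 < r → HasCompactSupport (End.scl Ψ x r) ∧ Tf x r B (End.scl Ψ x r) ∧
      Tf x r (B / r ^ 2) (Δ (End.scl Ψ x r)) := by
  have c2 := End.Test.two h
  obtain ⟨B₁, h1⟩ := c2.continuous.bounded_above_of_compact_support h.2.1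
  obtain ⟨B₂, h2⟩ := (End.lap_cont c2).bounded_above_of_compact_support (End.lap_hcs c2 h.2.1)
  have p1 := (norm_nonneg _).trans (h1 0)
  have p2 := (norm_nonneg _).trans (h2 0)
  refine ⟨B₁ + B₂ + 1, by positivity, fun x r r0 => ?_⟩
  have off := End.scl_off h (x := x) r0
  have cd := End.scl_cd h x r
  refine ⟨HasCompactSupport.intro (isCompact_closedBall x r) off,
    ⟨cd.continuous.aestronglyMeasurable, fun z => (h1 _).trans (by linarith), fun z hz => ?_⟩,
    (End.lap_cont cd).aestronglyMeasurable, fun z => ?_, fun z hz => ?_⟩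
  · exact mem_closedBall_iff_norm.1 (by_contra fun hn => hz (off z hn))
  · rw [lap_scl h, abs_mul, abs_of_pos (by positivity), div_eq_inv_mul (B₁ + B₂ + 1)]
    exact mul_le_mul_of_nonneg_left ((h2 _).trans (by linarith)) (by positivity)
  · refine mem_closedBall_iff_norm.1 (by_contra fun hn => hz (lap_zero fun hs => hn ?_))
    exact closure_minimal (s := Function.support _)
      (fun y hy => by_contra fun hn => hy (off y hn)) Metric.isClosed_closedBall hs

lemma Tf_move {c c' : ℂ} {ρ B : ℝ} {f : ℂ → ℝ} (h : Tf c ρ B f) : Tf c' (ρ + ‖c - c'‖) B f :=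
  ⟨h.meas, h.bd, fun z hz => (norm_sub_le_norm_sub_add_norm_sub z c c').trans
    (add_le_add_left (h.supp z hz) _)⟩

end Pool.Agent.Lib.MP_6359c9_pr.Sd
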