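import Pool.Agent.Lib.MP_6359c9_pr.Osc

/-! Moments of the time at which the alternating exploration reaches a box. -/

namespace Pool.Agent.Lib.MP_6359c9_pr

open Set Filter Topology

lemma KA_succ (r : V → Bool) (i : ℕ) : ∀ s k, KA r (i + 1) s k =
    NK (lev r (if Even i then s else !s)) (cl (KA r i s k)) := by
  induction i with
  | zero => exact fun _ _ => rfl
  | succ i ih =>
    intro s k
    rw [KA, ih]
    by_cases h : Even i <;> simp [Nat.even_add_one, h, KA]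

lemma KK_eq (O : Set V) (w : Cf) (i : ℕ) : KK O w i = KA (red w) i true O := by
  induction i with
  | zero => rfl
  | succ i ih =>
    rw [KA_succ, KK, ih, RK]
    by_cases h : Even i <;> simp [h]

/-- the ball for the sum of the two coordinates -/
def Dm (x : V) (m : ℤ) : Set V := {y | |y.1 - x.1| + |y.2 - x.2| ≤ m}

lemma Dm_step {x y : V} {m : ℤ} (hm : 0 ≤ m) (h : y ∈ Dm x (m + 1)) :
    ∃ z ∈ Dm x m, z = y ∨ Adj y z := by
  simp only [Dm, mem_ofPred_eq] at h ⊢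
  rcases lt_trichotomy y.1 x.1 with h1 | h1 | h1
  · refine ⟨(y.1 + 1, y.2), ?_, Or.inr (by simp [Adj])⟩
    rw [abs_of_nonpos (by omega)] at h
    rw [abs_of_nonpos (by simp only []; omega)]
    simp only []; omega
  · rcases lt_trichotomy y.2 x.2 with h2 | h2 | h2
    · refine ⟨(y.1, y.2 + 1), ?_, Or.inr (by simp [Adj])⟩
      rw [abs_of_nonpos (a := y.2 - x.2) (by omega)] at h
      rw [abs_of_nonpos (a := (y.1, y.2 + 1).2 - x.2) (by simp only []; omega)]
      simp only []; omega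
    · exact ⟨y, by simp [h1, h2, hm], Or.inl rfl⟩
    · refine ⟨(y.1, y.2 - 1), ?_, Or.inr (by simp [Adj])⟩
      rw [abs_of_nonneg (a := y.2 - x.2) (by omega)] at h
      rw [abs_of_nonneg (a := (y.1, y.2 - 1).2 - x.2) (by simp only []; omega)]
      simp only []; omega
  · refine ⟨(y.1 - 1, y.2), ?_, Or.inr (by simp [Adj])⟩
    rw [abs_of_nonneg (by omega)] at h
    rw [abs_of_nonneg (by simp only []; omega)]
    simp only []; omega

lemma Dm_cl {x : V} {m : ℤ} {k : Set V} (hm : 0 ≤ m) (h : (k ∩ Dm x (m + 1)).Nonempty) :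
    (cl k ∩ Dm x m).Nonempty := by
  obtain ⟨y, hy, hy'⟩ := h
  obtain ⟨z, hz, rfl | e⟩ := Dm_step hm hy'
  · exact ⟨z, sub_cl _ hy, hz⟩
  · exact ⟨z, mem_cl hy e, hz⟩

lemma Dm_mono {x : V} {m m' : ℤ} (h : m ≤ m') : Dm x m ⊆ Dm x m' := fun _ hy => le_trans hy h

lemma Dm_sub_Bx (x : V) (m : ℤ) : Dm x m ⊆ Bx x m := fun y hy => by
  have h : |y.1 - x.1| + |y.2 - x.2| ≤ m := hy
  have h1 := abs_le.1 (show |y.1 - x.1| ≤ m by linarith [abs_nonneg (y.2 - x.2)])
  have h2 := abs_le.1 (show |y.2 - x.2| ≤ m by linarith [abs_nonneg (y.1 - x.1)])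
  rw [mem_Bx]; omega

lemma Bx_sub_Dm (x : V) (m : ℤ) : Bx x m ⊆ Dm x (2 * m) := fun y hy => by
  rw [mem_Bx] at hy
  have h1 : |y.1 - x.1| ≤ m := abs_le.2 (by omega)
  have h2 : |y.2 - x.2| ≤ m := abs_le.2 (by omega)
  exact (add_le_add h1 h2).trans (by omega)

open Classical in
/-- the time at which the exploration meets `D`, truncated at `t` -/
noncomputable def TA (r : V → Bool) (D : Set V) : ℕ → Bool → Set V → ℕ
  | 0, _, _ => 0
  | t + 1, s, k => if (k ∩ D).Nonempty then 0 else TA r D t (!s) (NK (lev r s) (cl k)) + 1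

lemma TA_congr {r r' : V → Bool} (D : Set V) (t : ℕ) : ∀ s k, (∀ v, v ∉ k → r v = r' v) →
    TA r D t s k = TA r' D t s k := by
  induction t with
  | zero => exact fun _ _ _ => rfl
  | succ t ih =>
    intro s k e
    have : NK (lev r s) (cl k) = NK (lev r' s) (cl k) :=
      (NK_cl_sub e s).antisymm (NK_cl_sub (fun v hv => (e v hv).symm) s)
    simp only [TA]
    rw [← this, ih _ _ fun v hv => e v fun h => hv (sub_NK _ _ (sub_cl _ h))]

lemma TA_spec (r : V → Bool) (x : V) {m : ℤ} (hm : 0 ≤ m) (t : ℕ) : ∀ s k,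
    (k ∩ Dm x (m + t)).Nonempty → (KA r (TA r (Dm x m) t s k) s k ∩ Dm x m).Nonempty := by
  induction t with
  | zero => exact fun _ _ h => by simpa [TA, KA] using h
  | succ t ih =>
    intro s k h
    by_cases hk : (k ∩ Dm x m).Nonempty
    · simp [TA, hk, KA]
    · simp only [TA, hk, if_false, KA]
      refine ih _ _ ((Dm_cl (by omega) (by rwa [Nat.cast_succ, ← add_assoc] at h)).mono
        (inter_subset_inter_left _ (sub_NK _ _)))

/-- the sequence of scales -/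
def mm (r : ℤ) : ℕ → ℤ
  | 0 => r
  | n + 1 => if 8 ≤ mm r n then 2 * mm r n else mm r n + 1

lemma mm_ge (r : ℤ) (n : ℕ) : r + n ≤ mm r n := by
  induction n with
  | zero => simp [mm]
  | succ n ih => rw [mm]; split_ifs <;> push_cast <;> omega

lemma mm_pow {r : ℤ} (hr : 0 ≤ r) (i : ℕ) : 2 ^ i * (r + 8) ≤ mm r (8 + i) := by
  induction i with
  | zero => simpa using mm_ge r 8
  | succ i ih =>
    have := mm_ge r (8 + i)
    rw [← add_assoc, mm, if_pos (by push_cast at this; omega), pow_succ]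
    linarith

lemma aft_off {ρ : V → Set Bool} {W O k : Set V} (hf : Free ρ W Oᶜ) (hk : O ⊆ k) (s : Bool) :
    aft ρ k s = off s (cl k)ᶜ := by
  funext v
  ext a
  exact ⟨fun h hv => h.1 (not_not.1 hv), fun h => ⟨fun hv => h (not_not.2 hv), fun hv => by
    rw [(hf v fun ho => hv (hk ho)).1]; trivial⟩⟩

lemma cl_compl_cl (k : Set V) : cl (cl k)ᶜ ⊆ kᶜ := by
  rintro v (hv | ⟨u, hu, e⟩) h
  · exact hv (sub_cl _ h)
  · exact hu (mem_cl h e.symm)

/-- with positive probability one step of the exploration gains one scale -/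
lemma tt_step : ∃ c : ℝ, 0 < c ∧ c ≤ 1 ∧ ∀ (ρ : V → Set Bool) (W O k : Set V) (s : Bool) (x : V)
    (m : ℤ), Tame (aft ρ k s) W → Free ρ W Oᶜ → O ⊆ k → Wᶜ ⊆ k → CoConn kᶜ → 0 ≤ m →
    (k ∩ Dm x (if 8 ≤ m then 2 * m else m + 1)).Nonempty →
    c ≤ Pr (Sp (tm (aft ρ k s) W)) {w | (RK (!s) (cl k) w ∩ Dm x m).Nonempty} := by
  obtain ⟨c, hc, H⟩ := rsw_pp 5
  have hc' : 0 < min c 1 := lt_min hc one_pos
  have hc1 : min c 1 ^ ((2 * 38 + 1) * (2 * 38 + 1)) ≤ 1 := pow_le_one₀ hc'.le (min_le_right _ _)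
  refine ⟨_, by positivity, hc1, fun ρ W O k s x m hT hf hO hW hk hm h => ?_⟩
  split_ifs at h with h8
  swap
  · exact hc1.trans (pr_all hT.ok fun w _ =>
      (Dm_cl hm h).mono (inter_subset_inter_left _ (sub_NK _ _))).ge
  obtain ⟨p, hp⟩ : ∃ p, p = m / 8 := ⟨_, rfl⟩
  obtain ⟨y, hy, hy'⟩ := h
  have hU : cl (cl k)ᶜ ⊆ W := fun v hv => (hf v fun ho => cl_compl_cl k hv (hO ho)).2
  have hU' : (cl k)ᶜ.Finite := hT.fin.subset ((sub_cl _).trans hU)
  obtain ⟨z, hz⟩ := (hT.fin.union (Bx_finite x (2 * m + 13 * p))).infinite_compl.nonempty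
  refine le_trans (net_ge (hol_tm_self hT.fin hT.co _) hT.ok 38 hc'.le (min_le_right _ _)
    (s := s) (G := Nbd (Bx x (2 * m)) (6 * p)) (x := x) (p := p) (by omega)
    (Nbd_Bx subset_rfl (by push_cast; omega)) fun a _ => (min_le_left _ _).trans ?_) (pr_mono ?_)
  · refine (H p a (Bx a (5 * p)) (Bx a (6 * p))ᶜ _ (by omega) hU' subset_rfl fun u hu v hv =>
      not_not.2 (by rw [mem_Bx] at *; omega)).trans (le_of_eq ?_)
    rw [pr_PP_red hU' hT.fin hU, aft_off hf hO]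
    cases s
    · exact (pr_bij (bij_off false _ W) _).symm.trans (pr_congr fun w _ => ng_SepE (s := true))
    · rfl
  · intro w _ hw
    obtain ⟨u, hu, hu'⟩ := (near_of_net (by omega) (fun _ hu _ hv => Rec_conn hu hv) hw
      (NK_absorb (red w) s (cl k)) (coConn_NK (coConn_cl hk)) (sub_NK _ _ (sub_cl _ hy))
      (Dm_sub_Bx _ _ hy') (sub_NK _ _ (sub_cl _ (hW fun h => hz (Or.inl h))))
      fun h => hz (Or.inr (Nbd_Bx subset_rfl le_rfl h))).1 x (by rw [mem_Rec]; omega)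
    exact ⟨u, hu, Dm_mono (by omega) (Bx_sub_Dm _ _ hu')⟩

lemma dep_TA (l : ℝ) (D : Set V) (t : ℕ) (s : Bool) (k : Set V) :
    DependsOn (fun w : Cf => l ^ TA (red w) D t s k) kᶜ := fun x y e => by
  simp only [TA_congr (r := red x) (r' := red y) D t s k fun v hv => congrArg Prod.fst (e v hv)]

/-- exponential moment of the exploration time -/
lemma tt_exp : ∃ l : ℝ, 1 < l ∧ ∀ (ρ : V → Set Bool) (W O : Set V) (x : V) (r : ℤ) (t n : ℕ),
    Tame ρ W → CoConn Oᶜ → Free ρ W Oᶜ → 0 ≤ r → (O ∩ Dm x (mm r n)).Nonempty →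
    Ex (Sp (tm ρ W)) (fun w => l ^ TA (red w) (Dm x r) t true O) ≤ l * 2 ^ n := by
  obtain ⟨c, hc, hc1, H⟩ := tt_step
  obtain ⟨l, hl⟩ : ∃ l : ℝ, l = 1 / (1 - c / 2) := ⟨_, rfl⟩
  have hl1 : 1 < l := by rw [hl, lt_div_iff₀ (by linarith)]; linarith
  have hl2 : l * (1 - c / 2) = 1 := by rw [hl, one_div, inv_mul_cancel₀ (by linarith)]
  refine ⟨l, hl1, fun ρ W O x r t n hT hO hf hr hn => ?_⟩
  have hW : Wᶜ ⊆ O := fun v hv => not_not.1 fun h => hv (hf v h).2
  have key : ∀ (t n : ℕ) (k : Set V) (s : Bool), Tame (aft ρ k s) W → CoConn kᶜ → O ⊆ k →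
      (k ∩ Dm x (mm r n)).Nonempty →
      Ex (Sp (tm (aft ρ k s) W)) (fun w => l ^ TA (red w) (Dm x r) t (!s) k) ≤ 2 ^ n := by
    intro t
    induction t with
    | zero =>
      exact fun n k s h _ _ _ => ex_le h.ok fun _ _ => by simpa [TA] using one_le_pow₀ one_le_two
    | succ t ih =>
      intro n k s h hk hs hn
      by_cases hD : (k ∩ Dm x r).Nonempty
      · exact ex_le h.ok fun _ _ => by simpa [TA, hD] using one_le_pow₀ one_le_two
      obtain _ | n := n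
      · exact absurd hn hD
      have h1 := H ρ W O k s x (mm r n) h hf hs (hW.trans hs) hk
        (le_trans (by positivity) (mm_ge r n)) hn
      simp only [TA, hD, if_false, pow_succ l]
      rw [ex_mul', ex_fib _ (RK (!s) (cl k))]
      have h2 : Ex (Sp (tm (aft ρ k s) W)) (fun y => 2 ^ (n + 1) - 2 ^ n *
          {w | (RK (!s) (cl k) w ∩ Dm x (mm r n)).Nonempty}.indicator 1 y) ≤
          2 ^ (n + 1) * (1 - c / 2) := by
        rw [ex_sub, ex_const h.ok, ex_mul, ← pr_eq, pow_succ]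
        nlinarith [mul_le_mul_of_nonneg_left h1 (by positivity : (0 : ℝ) ≤ 2 ^ n)]
      refine (mul_le_mul_of_nonneg_right ((ex_mono fun y hy => ?_).trans h2) (by linarith)).trans
        (le_of_eq (by rw [mul_assoc, mul_comm _ l, hl2, mul_one]))
      have hs' : cl k ⊆ RK (!s) (cl k) y := sub_NK _ _
      have hT' := h.aft (s := !s) (O := cl k) hy
      rw [← inter_univ (Sp (tm (aft ρ k s) W)), ex_congr (g := fun w =>
        l ^ TA (red w) (Dm x r) t (!!s) (RK (!s) (cl k) y)) fun z hz => by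
          rw [← show RK (!s) (cl k) z = RK (!s) (cl k) y from hz.2]; rfl,
        explore_tm h hy (mem_univ y) (Dep.univ _) (dep_TA _ _ _ _ _)]
      rw [aft_aft _ _ _ hs'] at hT' ⊢
      have hk' : CoConn (RK (!s) (cl k) y)ᶜ := coConn_NK (coConn_cl hk)
      have hO' := hs.trans ((sub_cl _).trans hs')
      by_cases hy' : y ∈ {w | (RK (!s) (cl k) w ∩ Dm x (mm r n)).Nonempty}
      · rw [indicator_of_mem hy', pow_succ]
        exact (ih n _ _ hT' hk' hO' hy').trans (le_of_eq (by simp; ring))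
      · rw [indicator_of_notMem hy', mul_zero, sub_zero]
        exact ih (n + 1) _ _ hT' hk' hO' (hn.mono (inter_subset_inter_left _ ((sub_cl _).trans hs')))
  have h0 : (1 : ℝ) ≤ l * 2 ^ n := one_le_mul_of_one_le_of_one_le hl1.le (one_le_pow₀ one_le_two)
  obtain _ | t := t
  · exact ex_le hT.ok fun _ _ => by simpa [TA] using h0
  by_cases hD : (O ∩ Dm x r).Nonempty
  · exact ex_le hT.ok fun _ _ => by simpa [TA, hD] using h0
  simp only [TA, hD, if_false, pow_succ l]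
  rw [ex_mul', ex_fib _ (RK true (cl O)), mul_comm l]
  refine mul_le_mul_of_nonneg_right (ex_le hT.ok fun y hy => ?_) (by linarith)
  have hs' : O ⊆ RK true (cl O) y := (sub_cl _).trans (sub_NK _ _)
  rw [← inter_univ (Sp (tm ρ W)), ex_congr (g := fun w =>
    l ^ TA (red w) (Dm x r) t (!true) (RK true (cl O) y)) fun z hz => by
      rw [← show RK true (cl O) z = RK true (cl O) y from hz.2]; rfl,
    explore_tm hT hy (mem_univ y) (Dep.univ _) (dep_TA _ _ _ _ _)]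
  exact key t n _ _ (hT.aft hy) (coConn_NK (coConn_cl hO)) hs'
    (hn.mono (inter_subset_inter_left _ hs'))

lemma pow_le_exp {l : ℝ} (hl : 1 < l) (q : ℕ) : ∃ C : ℝ, 0 < C ∧ ∀ T n : ℕ,
    ((T : ℝ) + 1) ^ q ≤ C * (n + 1) ^ q * (1 + l ^ T / 2 ^ n) := by
  obtain ⟨K, hK⟩ := pow_unbounded_of_one_lt 2 hl
  obtain ⟨B, hB⟩ := (tendsto_pow_const_div_const_pow_of_one_lt q hl).bddAbove_range
  have hB' : ∀ i : ℕ, ((i : ℝ) + 1) ^ q ≤ B * l * l ^ i := fun i => by
    have := hB ⟨i + 1, rfl⟩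
    rw [div_le_iff₀ (by positivity)] at this
    push_cast at this
    rw [mul_assoc, ← pow_succ']
    exact this
  have hB1 : 1 ≤ B * l := by simpa using hB' 0
  refine ⟨(K + 1) ^ q * (B * l), by positivity, fun T n => ?_⟩
  have h0 : (0 : ℝ) ≤ l ^ T / 2 ^ n := by positivity
  have hKn : ((K * n : ℕ) : ℝ) + 1 ≤ (K + 1) * (n + 1) := by
    push_cast; nlinarith [Nat.cast_nonneg (α := ℝ) K, Nat.cast_nonneg (α := ℝ) n]
  rcases le_total T (K * n) with h | h
  · have h1 : (T : ℝ) + 1 ≤ (K + 1) * (n + 1) :=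
      le_trans (by exact_mod_cast Nat.succ_le_succ h) hKn
    calc ((T : ℝ) + 1) ^ q ≤ ((K + 1) * (n + 1)) ^ q * 1 * 1 := by
          rw [mul_one, mul_one]; gcongr
      _ ≤ ((K + 1) * (n + 1)) ^ q * (B * l) * (1 + l ^ T / 2 ^ n) := by gcongr; linarith
      _ = _ := by rw [mul_pow]; ring
  · obtain ⟨i, rfl⟩ := Nat.exists_eq_add_of_le h
    have h1 : ((K * n + i : ℕ) : ℝ) + 1 ≤ (K + 1) * (n + 1) * (i + 1) := by
      have h2 : (0 : ℝ) ≤ (K * n : ℕ) := Nat.cast_nonneg _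
      have h3 : (0 : ℝ) ≤ i := Nat.cast_nonneg _
      rw [Nat.cast_add]
      nlinarith [mul_nonneg h2 h3]
    have h2 : l ^ i ≤ 1 + l ^ (K * n + i) / 2 ^ n := by
      have h3 : (2 : ℝ) ^ n ≤ l ^ (K * n) := by rw [pow_mul]; gcongr
      have h4 : l ^ i ≤ l ^ (K * n + i) / 2 ^ n := by
        rw [le_div_iff₀ (by positivity), pow_add, mul_comm]; gcongr
      linarith
    calc (((K * n + i : ℕ) : ℝ) + 1) ^ q ≤ ((K + 1) * (n + 1) * (i + 1)) ^ q := by gcongr
      _ = ((K + 1) * (n + 1)) ^ q * (i + 1) ^ q := mul_pow _ _ _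
      _ ≤ ((K + 1) * (n + 1)) ^ q * (B * l * (1 + l ^ (K * n + i) / 2 ^ n)) := by
          gcongr
          exact (hB' i).trans (by gcongr)
      _ = _ := by rw [mul_pow]; ring

theorem ttSt : TtSt := fun q => by
  obtain ⟨l, hl, H⟩ := tt_exp
  obtain ⟨C, hC, HC⟩ := pow_le_exp hl q
  refine ⟨C * 11 ^ q * (1 + l), by positivity, fun ρ W O x r N hT hO hf hr hN ⟨o, ho, ho'⟩ => ?_⟩
  have hr' : (0 : ℝ) < r + 1 := by exact_mod_cast (by omega : 0 < r + 1)
  have hy : (1 : ℝ) ≤ (N + 1) / (r + 1) := by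
    rw [le_div_iff₀ hr', one_mul]; exact_mod_cast (by omega : r + 1 ≤ N + 1)
  obtain ⟨i, h1, h2⟩ := exists_nat_pow_near hy one_lt_two
  have hm : 2 * N ≤ mm r (8 + (i + 2)) := by
    refine le_trans ?_ (mm_pow hr _)
    rw [div_lt_iff₀ hr'] at h2
    have h3 : N + 1 < 2 ^ (i + 1) * (r + 1) := by exact_mod_cast h2
    have h4 : (0 : ℤ) < 2 ^ (i + 1) := by positivity
    rw [pow_succ 2 (i + 1)]
    nlinarith
  have hi : ((8 + (i + 2) : ℕ) : ℝ) + 1 ≤ 11 * (1 + Real.log ((N + 1) / (r + 1))) := by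
    have h3 := Real.log_le_log (by positivity) h1
    rw [Real.log_pow] at h3
    have h4 := Real.log_two_gt_d9
    have h5 : (0 : ℝ) ≤ i := Nat.cast_nonneg _
    push_cast
    nlinarith
  obtain ⟨t, ht⟩ := Int.eq_ofNat_of_zero_le (a := 2 * N - r) (by omega)
  have h3 := H ρ W O x r t _ hT hO hf hr ⟨o, ho, Dm_mono hm (Bx_sub_Dm _ _ ho')⟩
  set n := 8 + (i + 2) with hn
  refine (ex_mono (g := fun w => C * (n + 1) ^ q + C * (n + 1) ^ q / 2 ^ n *
    l ^ TA (red w) (Dm x r) t true O) fun w _ => ?_).trans ?_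
  · obtain ⟨v, hv, hv'⟩ := TA_spec (red w) x hr t true O
      ⟨o, ho, Dm_mono (by omega) (Bx_sub_Dm _ _ ho')⟩
    have h4 : Tn O (Bx x r) w ≤ TA (red w) (Dm x r) t true O :=
      Nat.sInf_le ⟨v, Dm_sub_Bx _ _ hv', by rwa [KK_eq]⟩
    refine le_trans ?_ ((HC (TA (red w) (Dm x r) t true O) n).trans (le_of_eq (by ring)))
    gcongr
  · rw [ex_add, ex_const hT.ok, ex_mul]
    calc _ ≤ C * (n + 1) ^ q + C * (n + 1) ^ q / 2 ^ n * (l * 2 ^ n) := by gcongr
      _ = C * (n + 1) ^ q * (1 + l) := by field_simp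
      _ ≤ C * (11 * (1 + Real.log ((N + 1) / (r + 1)))) ^ q * (1 + l) := by gcongr
      _ = _ := by rw [mul_pow]; ring

end Pool.Agent.Lib.MP_6359c9_pr
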