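import Pool.Agent.Lib.MP_6359c9_pr.SdD
import Pool.Agent.Lib.MP_6359c9_pr.SdE
import Pool.Agent.Lib.MP_6359c9_pr.Null
import Pool.Agent.Lib.MP_6359c9_pr.MomT
import Pool.Agent.Lib.MP_6359c9_pr.Khi
import Pool.Agent.Lib.MP_6359c9_pr.Tt
import Pool.Agent.Lib.MP_6359c9_pr.InfVar
import Pool.Agent.Lib.MP_6359c9_pr.HMain
import Pool.Agent.Lib.MP_6359c9_pr.DirF
import Pool.Agent.Lib.MP_6359c9_pr.Cont

/-! The mean height: harmonic limits and boundary values. -/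

namespace Pool.Agent.Lib.MP_6359c9_pr.Obs

open Set Filter Topology Metric MeasureTheory InnerProductSpace Pl
open scoped Laplacian

variable {Ω : Set ℂ} (A : Sq Ω)

/-- the mean height at a vertex -/
noncomputable def hv (n : ℕ) (v : V) : ℝ := Ex (HD (A.U n) (A.ξ n)) fun g => (g v : ℝ)

/-- the mean of the extended height -/
noncomputable def Hm (n : ℕ) (z : ℂ) : ℝ := mean (HD (A.U n) (A.ξ n)) fun g => ext (A.δ n) g z

lemma Hm_eq (n : ℕ) (z : ℂ) : Hm A n z = exR (A.δ n) (hv A n) z := by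
  change Ex _ _ = _
  simp only [ext_eq, exR, ex_sum, ex_mul, hv]

lemma hv_le (n : ℕ) (v : V) : |hv A n v - 1 / 2| ≤ 1 / 2 := by
  by_cases h : v ∈ A.U n
  · have h1 := mean_le (j := 1) (A.cls n).fin (A.ok n)
      (fun w _ hw => by have := A.two n w hw; simp only [mem_Iic]; omega) (sub_cl _ h)
    have h2 := le_mean (j := 0) (A.cls n).fin (A.ok n)
      (fun w _ hw => by have := A.two n w hw; simp only [mem_Ici]; omega) (sub_cl _ h)
    push_cast at h1 h2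
    exact abs_le.2 ⟨by unfold hv; linarith, by unfold hv; linarith⟩
  · rw [hv, ex_congr (g := fun _ => (A.ξ n v : ℝ)) fun g hg => by rw [hg.2 v h], ex_const (A.ok n)]
    rcases A.two n v h with e | e <;> rw [e] <;> norm_num [abs_le]

lemma Hm_le (n : ℕ) (z : ℂ) : |Hm A n z - 1 / 2| ≤ 1 / 2 := by
  rw [Hm_eq]
  exact exR_near (A.δpos n) fun v _ => hv_le A n v

lemma Hm_cont (n : ℕ) : Continuous (Hm A n) :=
  End.mean_cont (A.ok n).1 fun _ => contSt _ _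

lemma Hm_HB : End.HB Ω (Hm A) := fun K _ kc => ⟨volume.real K, .of_forall fun n f fc f0 b hb => by
  rw [← setIntegral_eq_integral_of_forall_compl_eq_zero (s := K)
    (fun z hz => by rw [f0 z hz, mul_zero]), ← Real.norm_eq_abs, mul_comm]
  refine norm_setIntegral_le_of_norm_le_const kc.measure_lt_top fun z _ => ?_
  have := abs_le.1 (Hm_le A n z)
  rw [Real.norm_eq_abs, abs_mul]
  exact (mul_le_of_le_one_left (abs_nonneg _) (abs_le.2 ⟨by linarith, by linarith⟩)).trans (hb z)⟩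

lemma Hm_SD (ho : IsOpen Ω) : End.HSD Ω (Hm A) (fun _ => 0) fun _ => 0 := by
  obtain ⟨Cv, k, hv', -, hk⟩ := vg_log
  obtain ⟨T, T28, hnull⟩ := Sd.null_seq nullSt (momT khiSt ttSt oscSt) hv' hk
  intro Ψ hΨ K hK cK ε hε
  obtain ⟨B, -, hB⟩ := Sd.scl_Tf hΨ
  obtain ⟨r1, r10, hin⟩ := A.inn' ho hK cK
  refine ⟨r1 / (3 * T), by positivity, fun r r0 hr x hx => ?_⟩
  rw [le_div_iff₀ (by positivity)] at hr
  obtain ⟨ψc, ψ1, ψ2⟩ := hB x r r0
  have ψd := End.scl_cd hΨ x r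
  generalize End.scl Ψ x r = ψ at *
  have n2 := (hnull Ω A ψ x r _ _ 1 (fun _ _ => 1) r0 ψd ψc ψ1 ψ2 (by
    filter_upwards [A.small r0, hin] with n h1 h2
    exact ⟨Sd.free_Bs A fun v hv => h2 x hx v (by nlinarith), Lcl.const _ _,
      by simp [ex_const (A.okM n)]⟩)).abs
  rw [abs_zero] at n2
  filter_upwards [n2.eventually (ge_mem_nhds (show 0 < ε * r ^ 2 by positivity))] with n hn
  have δ0 := A.δpos n
  have hS := Sd.cvr_cv δ0 ψ2
  refine le_trans (le_of_eq (congrArg _ ?_)) hn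
  simp only [Hm_eq, int_exR δ0 ψ2.int hS, zero_mul, add_zero, mul_one, Sd.LL]
  rw [← ex_bij (A.bij n), ex_congr fun g' h' => lin_sq h'.1 _ _ 0]
  simp only [ex_sum, ex_mul, ex_sub, mul_sub, Finset.sum_sub_distrib, ← Finset.sum_mul]
  rw [sum_Wt δ0 ψ2.int hS, int_lap ψd ψc]
  simp [hv]

theorem harm (ho : IsOpen Ω) (hb : Bornology.IsBounded Ω) (U : Ultrafilter ℕ)
    (hU : (U : Filter ℕ) ≤ atTop) : ∃ u : ℂ → ℝ, HarmonicOnNhd u Ω ∧ End.Cv Ω (Hm A) U u := by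
  obtain ⟨ρ, Ψ, h, -, hΨ, hp⟩ := End.ex_pair
  simpa using End.core h hΨ hp ho hb (Hm_cont A) (Hm_HB A) (Hm_SD A ho) (p := fun _ => 0)
    contDiff_const (fun x => by simp) U hU
    (A := 0) (by simp) tendsto_const_nhds

/-- near the boundary the mean height is close to the value at a visible wall vertex -/
theorem pk (ho : IsOpen Ω) (hcn : IsConnected Ω) (hb : Bornology.IsBounded Ω) (hA : A.Cyc) {z0 : ℂ}
    (hz : z0 ∈ Ω) {R ε : ℝ} (hR : 0 < R) (hε : 0 < ε) : ∃ η > 0, ∃ α β : ℕ → ℂ,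
      (∀ᶠ n in atTop, infDist (α n) Ωᶜ ≤ R ∧ infDist (β n) Ωᶜ ≤ R) ∧
      ∀ G ⊆ Ω, IsCompact G → IsConnected G → z0 ∈ G → ∀ᶠ n in atTop,
        Disjoint G (Metric.ball (α n) R) → Disjoint G (Metric.ball (β n) R) → ∀ x ∈ G,
        infDist x Ωᶜ ≤ η → ∀ v, ‖pos (A.δ n) v - x‖ ≤ A.δ n → ∃ u q,
          Conn (A.U n ∩ {y | ‖pos (A.δ n) y - x‖ ≤ R}) v u ∧ Adj u q ∧ q ∉ A.U n ∧
            |hv A n v - A.ξ n q| ≤ ε := by
  choose W ia ib hW hξ using hA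
  obtain ⟨l, hl⟩ := dir_main ε hε
  obtain ⟨ρ, hρ⟩ : ∃ ρ, ρ = infDist z0 Ωᶜ := ⟨_, rfl⟩
  have ρ0 : 0 < ρ := hρ ▸ End.dd_pos ho hb hz
  obtain ⟨L, hL⟩ : ∃ L : ℤ, L = max l 1 + 4 := ⟨_, rfl⟩
  have L5 : (5 : ℝ) ≤ L := by exact_mod_cast (by omega : (5 : ℤ) ≤ L)
  obtain ⟨τ, τ0, τ1, τ2⟩ : ∃ τ > 0, τ ≤ R / 8 ∧ τ ≤ ρ / 9 :=
    ⟨min (R / 8) (ρ / 9), by positivity, min_le_left _ _, min_le_right _ _⟩
  obtain ⟨η, η0, hη⟩ : ∃ η > 0, τ = (8 * L + 1) * η :=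
    ⟨τ / (8 * L + 1), by positivity, by field_simp⟩
  have a5 : 41 * η ≤ τ := by nlinarith
  obtain ⟨r, hr⟩ : ∃ r : ℕ → ℤ, ∀ n, 0 ≤ r n ∧ A.δ n * r n ≤ τ ∧ τ < A.δ n * (r n + 1) :=
    ⟨fun n => ⌊τ / A.δ n⌋, fun n => have d0 := A.δpos n
      ⟨Int.floor_nonneg.2 (by positivity), (le_div_iff₀' d0).1 (Int.floor_le _),
        (div_lt_iff₀' d0).1 (Int.lt_floor_add_one _)⟩⟩
  choose xa xb na nb hP using fun n =>
    pocketSt2 (W n) (A.ξ n) (ia n) (ib n) (hξ n) (vt (A.δ n) z0 0) (r n)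
  refine ⟨η, η0, fun n => pos (A.δ n) (xa n), fun n => pos (A.δ n) (xb n), ?_,
    fun G hG cG nG zG => ?_⟩
  · filter_upwards [DF.inn hb A (half_pos hR)] with n h2
    have key : ∀ y, (∃ w, w ∉ (W n).R ∧ w ∈ Bx y (r n)) → infDist (pos (A.δ n) y) Ωᶜ ≤ R := by
      rintro y ⟨w, h3, h4⟩
      have a1 := DF.box_near (A.δpos n) h4
      have a2 := infDist_le_infDist_add_dist (x := pos (A.δ n) y) (y := pos (A.δ n) w) (s := Ωᶜ)
      have a3 : ¬R / 2 ≤ infDist (pos (A.δ n) w) Ωᶜ := fun e => h3 (hW n ▸ h2 w e)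
      rw [dist_comm] at a2
      linarith [(hr n).2.1]
    exact ⟨key _ (na n (hr n).1), key _ (nb n (hr n).1)⟩
  obtain ⟨σ, σ0, C, -, -, GC, hC⟩ := DF.exists_comp ho hcn hb hz hG cG
  filter_upwards [DF.inn_near hb A σ0 fun y hy => hC y (GC hy), A.small η0, DF.out hb A η0]
    with n h2 h1 h3 da db x hx hd v hv'
  have d0 := A.δpos n
  obtain ⟨r0, r1, r2⟩ := hr n
  have cv := DF.conn_near d0 nG.isPreconnected zG hx (vt_near d0 z0 0) hv'
  have key : ∀ y, Disjoint G (Metric.ball (pos (A.δ n) y) R) →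
      ∀ q ∈ DF.Nr (A.δ n) G, q ∉ Bx y (2 * r n + 2) := by
    rintro y dy q ⟨p, hp, hq⟩ hq'
    refine Set.disjoint_left.1 dy hp (Metric.mem_ball.2 ?_)
    have a1 := DF.box_near d0 hq'
    have a2 := dist_triangle_left p (pos (A.δ n) y) (pos (A.δ n) q)
    push_cast at a1
    linarith
  have vU : v ∈ (W n).R := hW n ▸ h2 cv.right
  obtain ⟨d, dv⟩ := Wall.exists_dist vU
  obtain ⟨w, wU, hw⟩ := h3 x (hG hx) hd
  rw [← dist_eq_norm] at hv'
  have e1 : L * d ≤ r n := by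
    have a1 : (d : ℝ) ≤ (ds w v : ℤ) := by exact_mod_cast dv.le (hW n ▸ wU)
    have a2 := (DF.pos_ds d0 w v).2
    rw [← dist_eq_norm] at a2
    have a3 := dist_triangle_right (pos (A.δ n) w) (pos (A.δ n) v) x
    have a4 : A.δ n * d ≤ 8 * η := by nlinarith
    have a5 : A.δ n * (L * d) < A.δ n * (r n + 1) := by nlinarith
    have a6 : ((L * d : ℤ) : ℝ) < (r n + 1 : ℤ) := by
      push_cast
      exact lt_of_mul_lt_mul_left a5 d0.le
    have a7 : L * d < r n + 1 := by exact_mod_cast a6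
    omega
  have d1 := dv.1
  have e2 : l * d ≤ r n := le_trans (mul_le_mul_of_nonneg_right (by omega) (by omega)) e1
  have e3 : d + 4 ≤ r n := by
    have : 5 * d ≤ L * d := mul_le_mul_of_nonneg_right (by omega) (by omega)
    omega
  obtain ⟨i0, i1, U, s, hP⟩ := hP n v d dv e3 (fun hq => by
      have a1 := DF.box_near d0 hq
      have a2 := infDist_le_infDist_add_dist (x := z0) (y := x) (s := Ωᶜ)
      have a3 := dist_triangle4 z0 (pos (A.δ n) (vt (A.δ n) z0 0)) (pos (A.δ n) v) x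
      have a4 := vt_near d0 z0 0
      rw [← dist_eq_norm, dist_comm] at a4
      push_cast at a1
      linarith)
    (cv.mono fun q hq => ⟨hW n ▸ h2 hq, fun e => e.elim (key _ da q hq) (key _ db q hq)⟩)
  obtain ⟨-, -, w', hw1, hw2⟩ := id dv
  obtain ⟨u, q, c1, c2, c3, c4⟩ :=
    (Bx_conn (z := v) (mem_Bx_ds.2 (by rw [ds_self]; omega)) hw1).exit vU hw2
  have sub : Bx v d ⊆ Bx v (r n - 2) := Bx_mono (by omega)
  have c5 := nconn_of_conn (R := (W n).R) (T := Bx v (r n - 2)) c1 (fun _ h => h.2)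
    fun _ h => sub h.1
  refine ⟨u, q, c1.mono fun y hy => ⟨hW n ▸ hy.2, ?_⟩, c2, hW n ▸ c3, ?_⟩
  · have a1 := DF.box_near d0 (Bx_mono (show d ≤ r n by omega) hy.1)
    have a2 := dist_triangle (pos (A.δ n) y) (pos (A.δ n) v) x
    rw [mem_ofPred_eq, ← dist_eq_norm]
    linarith
  · have := hl (W n) (A.ξ n) _ v d (r n) s i0 i1 U (fun _ => 1)
      (fun q hq => A.two n q (hW n ▸ hq)) dv e2 hP fun _ _ _ => rfl
    rw [hW n] at this
    simp only [mul_one, one_pow, ex_const (A.ok n), Real.sqrt_one, ex_sub] at this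
    rwa [hP.flat q (hP.closed v hP.mem q
      ⟨c5.1, c5.2.tail ⟨c2, sub c4.left, fun h => h.1 c1.right.2⟩⟩) c3]

end Pool.Agent.Lib.MP_6359c9_pr.Obs
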