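import Pool.Agent.Lib.MP_6359c9_pr.ObEL
import Pool.Agent.Lib.MP_069d55_gt.RMT

/-! Sequences of conformal maps on the half plane. -/

namespace Pool.Agent.Lib.MP_6359c9_pr.Obs

open Set Filter Topology Metric Complex Function

variable {F : ℕ → ℂ → ℂ} {G f : ℂ → ℂ} {K : Set ℂ} {B : ℝ}

lemma ex_Kb (hK : K ⊆ UH) (cK : IsCompact K) : ∃ R η, 0 < η ∧ K ⊆ Kb R η := by
  obtain ⟨R, hR⟩ := cK.isBounded.exists_norm_le
  obtain ⟨η, h0, h⟩ := cK.exists_forall_le' (f := fun w : ℂ => w.im) (a := 0)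
    continuous_im.continuousOn fun w hw => hK hw
  exact ⟨R, η, h0, fun w hw => ⟨hR w hw, h w hw⟩⟩

lemma Kb_mono {R R' η η' : ℝ} (h : R ≤ R') (h' : η' ≤ η) : Kb R η ⊆ Kb R' η' :=
  fun _ hw => ⟨hw.1.trans h, h'.trans hw.2⟩

lemma unif {l : Filter ℕ} (hl : TendstoLocallyUniformlyOn F G l UH) (hK : K ⊆ UH)
    (cK : IsCompact K) {e : ℝ} (he : 0 < e) : ∀ᶠ n in l, ∀ w ∈ K, ‖G w - F n w‖ < e := by
  simpa only [dist_eq_norm] using Metric.tendstoUniformlyOn_iff.1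
    ((tendstoLocallyUniformlyOn_iff_forall_isCompact isOpen_UH).1 hl _ hK cK) e he

lemma montel (U : Ultrafilter ℕ) (hd : ∀ n, DifferentiableOn ℂ (F n) UH)
    (hb : ∀ K ⊆ UH, IsCompact K → ∀ᶠ n in U, ∀ w ∈ K, ‖F n w‖ ≤ B) :
    ∃ G, TendstoLocallyUniformlyOn F G U UH := by
  have h1 : ∀ z, ∃ y, z ∈ UH → Tendsto (fun i => F i z) U (𝓝 y) := fun z => by
    by_cases hz : z ∈ UH
    · obtain ⟨y, -, hy⟩ := (isCompact_closedBall (0 : ℂ) B).ultrafilter_le_nhds'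
        (U.map fun i => F i z) (Ultrafilter.mem_map.2 ((hb {z} (by simpa) isCompact_singleton).mono
          fun i hi => by simpa using hi))
      exact ⟨y, fun _ => hy⟩
    · exact ⟨0, fun h => absurd h hz⟩
  choose g hg using h1
  refine ⟨g, Metric.tendstoLocallyUniformlyOn_iff.2 fun ε hε x hx => ?_⟩
  obtain ⟨R, hR, hRU⟩ := nhds_basis_closedBall.mem_iff.1 (isOpen_UH.mem_nhds hx)
  have sub := ball_subset_closedBall.trans hRU
  obtain ⟨L, hL⟩ : ∃ L, L = 2 * B / R := ⟨_, rfl⟩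
  have hlip : ∀ᶠ i in U, ∀ z ∈ Metric.ball x R, ‖F i z - F i x‖ ≤ L * ‖z - x‖ :=
    (hb _ hRU (isCompact_closedBall _ _)).mono fun i hi z hz => hL ▸
      MP_1e9af3_an.lip_of_bdd ((hd i).mono sub) (fun w hw => hi w (ball_subset_closedBall hw)) hz
  have hc : ContinuousAt (fun z : ℂ => L * ‖z - x‖) x := by fun_prop
  refine ⟨_, mem_nhdsWithin_of_mem_nhds (inter_mem (ball_mem_nhds x hR)
    (hc.eventually (gt_mem_nhds (show L * ‖x - x‖ < ε / 3 by simpa)))), ?_⟩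
  filter_upwards [hlip, (hg x hx).eventually (ball_mem_nhds (g x) (show 0 < ε / 3 by positivity))]
    with i h1 hi y hy
  have a1 := h1 y hy.1
  have a2 := le_of_tendsto ((hg y (sub hy.1)).sub (hg x hx)).norm (hlip.mono fun i h => h y hy.1)
  have a3 : L * ‖y - x‖ < ε / 3 := hy.2
  rw [← dist_eq_norm] at a1 a2
  linarith [dist_triangle4 (g y) (g x) (F i x) (F i y), dist_comm (g x) (F i x),
    dist_comm (F i x) (F i y)]

lemma subseq (hd : ∀ n, DifferentiableOn ℂ (F n) UH)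
    (hb : ∀ K ⊆ UH, IsCompact K → ∀ᶠ n in atTop, ∀ w ∈ K, ‖F n w‖ ≤ B) (cK : IsCompact K)
    {z : ℕ → ℂ} (hz : ∀ n, z n ∈ K) : ∃ (m : ℕ → ℕ) (G : ℂ → ℂ), ∃ a ∈ K, Tendsto m atTop atTop ∧
      TendstoLocallyUniformlyOn (fun n => F (m n)) G atTop UH ∧
      Tendsto (fun n => z (m n)) atTop (𝓝 a) := by
  obtain ⟨U, hU⟩ := Ultrafilter.exists_le (atTop : Filter ℕ)
  obtain ⟨G, hG⟩ := montel U hd fun K h1 h2 => hU (hb K h1 h2)
  obtain ⟨a, ha, hl⟩ := cK.ultrafilter_le_nhds' (U.map z)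
    (Ultrafilter.mem_map.2 (univ_mem' hz))
  have p : ∀ j : ℕ, 0 < 1 / ((j : ℝ) + 1) := fun j => by positivity
  have q := tendsto_one_div_add_atTop_nhds_zero_nat (𝕜 := ℝ)
  choose m h1 h2 h3 using fun j : ℕ => (((eventually_ge_atTop j).filter_mono hU).and
    ((unif hG (Kb_sub (R := j) (p j)) (Kb_cpt _ _) (p j)).and
      (Metric.tendsto_nhds.1 (show Tendsto z U (𝓝 a) from hl) _ (p j)))).exists
  refine ⟨m, G, a, ha, tendsto_atTop_mono h1 tendsto_id,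
    (tendstoLocallyUniformlyOn_iff_forall_isCompact isOpen_UH).2 fun K' k1 k2 =>
      Metric.tendstoUniformlyOn_iff.2 fun e he => ?_,
    tendsto_iff_dist_tendsto_zero.2 (squeeze_zero (fun _ => dist_nonneg) (fun j => (h3 j).le) q)⟩
  obtain ⟨R, η, η0, hk⟩ := ex_Kb k1 k2
  filter_upwards [q.eventually (ge_mem_nhds η0), q.eventually (ge_mem_nhds he),
    tendsto_natCast_atTop_atTop.eventually_ge_atTop R] with j a1 a2 a3 w hw
  rw [dist_eq_norm]
  exact (h2 j w (Kb_mono a3 a1 (hk hw))).trans_le a2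

lemma lim_mem {l : Filter ℕ} (hl : TendstoLocallyUniformlyOn F G l UH) (gc : ContinuousOn G UH)
    (hK : K ⊆ UH) (cK : IsCompact K) {y : ℂ} (h : ∃ᶠ n in l, y ∈ F n '' K) : y ∈ G '' K := by
  rw [← (cK.image_of_continuousOn (gc.mono hK)).isClosed.closure_eq, Metric.mem_closure_iff]
  intro e he
  obtain ⟨n, ⟨w, hw, rfl⟩, h2⟩ := (h.and_eventually (unif hl hK cK he)).exists
  exact ⟨_, mem_image_of_mem _ hw, by rw [dist_comm, dist_eq_norm]; exact h2 w hw⟩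

lemma conv_UH : Convex ℝ UH := convex_halfSpace_im_gt 0

lemma lim_inj (hF : ∀ n, DifferentiableOn ℂ (F n) UH ∧ InjOn (F n) UH)
    (hl : TendstoLocallyUniformlyOn F G atTop UH) {a b : ℂ} (ha : a ∈ UH) (hb : b ∈ UH)
    (h : G a ≠ G b) : InjOn G UH := by
  by_cases h0 : ∀ z ∈ UH, deriv G z = 0
  · exact absurd (isOpen_UH.is_const_of_deriv_eq_zero conv_UH.isPreconnected
      (hl.differentiableOn (.of_forall fun n => (hF n).1) isOpen_UH) h0 ha hb) h
  push Not at h0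
  obtain ⟨z, hz, h0⟩ := h0
  exact MP_069d55_gt.hurwitz_inj isOpen_UH conv_UH.isPreconnected (fun n => (hF n).1)
    (fun n => (hF n).2) hl hz h0

lemma inv_an (hd : DifferentiableOn ℂ f UH) (hi : InjOn f UH) {y : ℂ} (hy : y ∈ f '' UH) :
    AnalyticAt ℂ (invFunOn f UH) y := by
  obtain ⟨z, hz, rfl⟩ := hy
  exact MP_1e9af3_an.inv_analyticAt isOpen_UH hd hi (fun w hw => hi.leftInvOn_invFunOn hw) hz

lemma inv_cont (hd : DifferentiableOn ℂ f UH) (hi : InjOn f UH) :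
    ContinuousOn (invFunOn f UH) (f '' UH) := fun _ hy =>
  (inv_an hd hi hy).continuousAt.continuousWithinAt

/-- Schwarz lemma for the inverse map -/
lemma pick (hd : DifferentiableOn ℂ f UH) (hi : InjOn f UH) {a b : ℂ} {t : ℝ} (ha : a ∈ UH)
    (hb : b ∈ UH) (ht : Metric.ball (f b) t ⊆ f '' UH) (t0 : 0 < t) (h : ‖f a - f b‖ ≤ t / 2)
    {R η : ℝ} (hk : b ∈ Kb R η) : a ∈ Kb (3 * R) (η / 3) := by
  have b0 : 0 < b.im := hb
  have ne : ∀ p ∈ UH, p - (starRingEnd ℂ) b ≠ 0 := fun p hp e => by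
    have h1 := congrArg im e
    have h2 : 0 < p.im := hp
    simp only [sub_im, conj_im, zero_im] at h1
    linarith
  have sq : ∀ p : ℂ, ‖p - (starRingEnd ℂ) b‖ ^ 2 = ‖p - b‖ ^ 2 + 4 * (p.im * b.im) := fun p => by
    simp only [Complex.sq_norm, normSq_apply, sub_re, sub_im, conj_re, conj_im]; ring
  have mem : ∀ y ∈ Metric.ball (f b) t, invFunOn f UH y ∈ UH := fun y hy => invFunOn_mem (ht hy)
  have key := dist_le_div_mul_dist_of_mapsTo_ball (c := f b) (R₁ := t) (R₂ := 1) (z := f a)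
    (f := fun y => (invFunOn f UH y - b) / (invFunOn f UH y - (starRingEnd ℂ) b))
    (fun y hy => (((inv_an hd hi (ht hy)).differentiableAt.sub_const _).div
      ((inv_an hd hi (ht hy)).differentiableAt.sub_const _)
      (ne _ (mem y hy))).differentiableWithinAt)
    (fun y hy => by
      have h1 : 0 < (invFunOn f UH y).im := mem y hy
      simp only [hi.leftInvOn_invFunOn hb, sub_self, zero_div, mem_closedBall_zero_iff, norm_div]
      refine div_le_one_of_le₀ (abs_le_of_sq_le_sq' ?_ (norm_nonneg _)).2 (norm_nonneg _)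
      rw [sq]; nlinarith)
    (mem_ball_iff_norm.2 (by linarith))
  simp only [hi.leftInvOn_invFunOn hb, hi.leftInvOn_invFunOn ha, sub_self, zero_div,
    dist_eq_norm, sub_zero, norm_div] at key
  have k1 : 1 / t * ‖f a - f b‖ ≤ 1 / 2 := by
    rw [div_mul_eq_mul_div, div_le_iff₀ t0]; linarith
  have k2 := (div_le_iff₀ (norm_pos_iff.2 (ne a ha))).1 (key.trans k1)
  have k3 := sq a
  have k4 := abs_le.1 (abs_im_le_norm (a - b))
  have k5 := pow_le_pow_left₀ (norm_nonneg _) k2 2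
  have k6 := abs_le.1 (abs_im_le_norm b)
  have k7 := sq_le_sq' k4.1 k4.2
  have a0 : 0 < a.im := ha
  rw [sub_im] at k4 k7
  have k8 : b.im ≤ 3 * a.im := by nlinarith
  have k9 : a.im ≤ 3 * b.im := by nlinarith
  have k10 : ‖a - b‖ ≤ 2 * b.im := (abs_le_of_sq_le_sq' (by nlinarith) (by positivity)).2
  exact ⟨by linarith [norm_le_norm_add_norm_sub' a b, hk.1], by linarith [hk.2]⟩

variable (hF : ∀ n, DifferentiableOn ℂ (F n) UH ∧ InjOn (F n) UH) (hG : InjOn G UH)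
  (hl : TendstoLocallyUniformlyOn F G atTop UH)

include hF hG hl

lemma hit (R : ℝ) {η s : ℝ} (hs : 0 < s) (hη : s < η) : ∃ b > 0, ∀ᶠ n in atTop, ∀ w ∈ Kb R η,
    ∀ y, ‖y - G w‖ ≤ b → y ∈ F n '' closedBall w s := by
  obtain ⟨b, b0, h⟩ := cover hF hG hl R hs hη
  refine ⟨b / 2, half_pos b0, ?_⟩
  filter_upwards [h, unif hl (Kb_sub (R := R) (hs.trans hη)) (Kb_cpt _ _) (half_pos b0)]
    with n h1 h2 w hw y hy
  exact h1 w hw (mem_ball_iff_norm.2
    (by linarith [h2 w hw, norm_sub_le_norm_sub_add_norm_sub y (G w) (F n w)]))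

/-- kernel convergence -/
lemma kern {w : ℂ} (hw : w ∈ frontier (G '' UH)) {ε : ℝ} (hε : 0 < ε) :
    ∀ᶠ n in atTop, ∃ p, p ∉ F n '' UH ∧ ‖p - w‖ ≤ ε := by
  have gd := hl.differentiableOn (.of_forall fun n => (hF n).1) isOpen_UH
  have ho := MP_1e9af3_an.isOpen_image_of_injOn isOpen_UH gd hG isOpen_UH subset_rfl
  obtain ⟨_, ⟨u, hu, rfl⟩, h1⟩ := Metric.mem_closure_iff.1 hw.1 (ε / 4) (by positivity)
  have u0 : 0 < u.im := hu
  obtain ⟨b, b0, h2⟩ := hit hF hG hl ‖u‖ (half_pos u0) (half_lt_self u0)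
  by_contra hc
  rw [ho.frontier_eq] at hw
  refine hw.2 (image_mono (Kb_sub (R := 3 * (‖u‖ + u.im / 2)) (η := (u.im - u.im / 2) / 3)
    (by linarith)) (lim_mem hl gd.continuousOn (Kb_sub (by linarith)) (Kb_cpt _ _) ?_))
  refine ((not_eventually.1 hc).and_eventually h2).mono fun n ⟨h3, h4⟩ => ?_
  have hk : u ∈ Kb ‖u‖ u.im := ⟨le_rfl, le_rfl⟩
  obtain ⟨v, hv, e⟩ := h4 u hk (G u) (by simpa using b0.le)
  have h5 : ∀ p, ‖p - w‖ ≤ ε → p ∈ F n '' UH := fun p hp => by_contra fun k => h3 ⟨p, k, hp⟩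
  obtain ⟨a, ha, rfl⟩ := h5 w (by simpa using hε.le)
  rw [← e, dist_eq_norm] at h1
  exact mem_image_of_mem _ (pick (hF n).1 (hF n).2 ha (Kb_sub (by linarith) (cb_Kb hk hv))
    (t := ε / 2) (fun p hp => h5 p (by
      linarith [mem_ball_iff_norm.1 hp, norm_sub_rev (F n a) (F n v),
        norm_sub_le_norm_sub_add_norm_sub p (F n v) (F n a)])) (half_pos hε) (by linarith)
    (cb_Kb hk hv))

end Pool.Agent.Lib.MP_6359c9_pr.Obs
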