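import Pool.Agent.Lib.MP_6359c9_pr.ObA
import Pool.Agent.Lib.MP_6359c9_pr.ObB

/-! The mean height converges to the harmonic measure. -/

namespace Pool.Agent.Lib.MP_6359c9_pr.Obs

open Set Filter Topology Metric Complex Function InnerProductSpace

/-- the harmonic function with the values `σ` and `1 - σ` on the two half lines -/
noncomputable def hm (σ : ℤ) (w : ℂ) : ℝ := σ + (1 - 2 * σ) * (arg w / Real.pi)

lemma arg_mem {w : ℂ} (hw : w ∈ UH) : 0 ≤ arg w / Real.pi ∧ arg w / Real.pi ≤ 1 :=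
  ⟨div_nonneg (arg_nonneg_iff.2 (le_of_lt hw)) Real.pi_pos.le,
    (div_le_one Real.pi_pos).2 (arg_le_pi w)⟩

lemma arg_near {w : ℂ} (hw : w ∈ UH) {θ e x : ℝ} (h1 : θ ≤ ‖w‖) (θ0 : 0 < θ) (e0 : 0 < e)
    (e1 : e ≤ 1 / 2) (h2 : ‖w - x‖ ≤ e * θ) :
    (0 ≤ x → arg w / Real.pi ≤ e) ∧ (x ≤ 0 → 1 - arg w / Real.pi ≤ e) := by
  have p0 := Real.pi_pos
  have a0 := arg_nonneg_iff.2 (le_of_lt hw)
  have a1 := abs_le.1 ((abs_re_le_norm _).trans h2)
  have a2 := abs_le.1 ((abs_im_le_norm _).trans h2)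
  simp only [sub_re, ofReal_re, sub_im, ofReal_im, sub_zero] at a1 a2
  have a3 : ‖w‖ ≤ e * θ + |x| := by
    have := norm_le_norm_add_norm_sub' w x
    rw [norm_real, Real.norm_eq_abs] at this; linarith
  have a4 : Real.sin (arg w) ≤ e := by
    rw [sin_arg, div_le_iff₀ (by linarith)]; nlinarith
  have key : ∀ t, 0 ≤ t → t ≤ Real.pi / 2 → Real.sin t ≤ e → t / Real.pi ≤ e := fun t k1 k2 k3 => by
    have := Real.mul_le_sin k1 k2
    rw [show 2 / Real.pi * t = 2 * (t / Real.pi) by ring] at this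
    linarith
  refine ⟨fun hx => key _ a0 ((le_abs_self _).trans (abs_arg_le_pi_div_two_iff.2 ?_)) a4,
    fun hx => ?_⟩
  · rw [abs_of_nonneg hx] at a3; nlinarith
  · rw [abs_of_nonpos hx] at a3
    have a5 : ¬|arg w| < Real.pi / 2 := fun h => (abs_arg_lt_pi_div_two_iff.1 h).elim
      (fun h => by nlinarith) fun h => by rw [h, norm_zero] at h1; linarith
    rw [abs_of_nonneg a0] at a5
    have := key (Real.pi - arg w) (by linarith [arg_le_pi w]) (by linarith)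
      (by rwa [Real.sin_pi_sub])
    rwa [sub_div, div_self p0.ne'] at this

/-- barrier for the two end points -/
noncomputable def bar (w : ℂ) : ℝ := Real.log ‖(w + I) ^ 2 / w‖

lemma le_bar {w : ℂ} (hw : w ∈ UH) : |Real.log ‖w‖| ≤ bar w := by
  have h0 : 0 < w.im := hw
  have h1 : 0 < ‖w‖ := h0.trans_le ((le_abs_self _).trans (abs_im_le_norm w))
  have h2 : ‖w‖ ^ 2 + 1 ≤ ‖w + I‖ ^ 2 := by
    simp only [Complex.sq_norm, normSq_apply, add_re, add_im, I_re, I_im]; nlinarith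
  rw [bar, norm_div, norm_pow, abs_le, neg_le, ← Real.log_inv, ← one_div]
  exact ⟨Real.log_le_log (by positivity) (div_le_div_of_nonneg_right (by nlinarith) h1.le),
    Real.log_le_log h1 (by rw [le_div_iff₀ h1]; nlinarith)⟩

/-- a convergent sequence of states -/
structure Dat where
  σ : ℤ
  B : ℝ
  δ : ℕ → ℝ
  W : ℕ → Wall
  ξ : ℕ → V → ℤ
  F : ℕ → ℂ → ℂ
  G : ℂ → ℂ
  two : σ = 0 ∨ σ = 1
  δpos : ∀ n, 0 < δ n
  lim : Tendsto δ atTop (𝓝 0)
  geo : ∀ n, Geo B (δ n) (W n) (ξ n) σ (F n)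
  inj : InjOn G UH
  conv : TendstoLocallyUniformlyOn F G atTop UH
  bd : ∀ w ∈ UH, ‖G w‖ ≤ B

namespace Dat

variable (D : Dat)

lemma hF (n : ℕ) : DifferentiableOn ℂ (D.F n) UH ∧ InjOn (D.F n) UH := ⟨(D.geo n).hol, (D.geo n).inj⟩

lemma hol : DifferentiableOn ℂ D.G UH := D.conv.differentiableOn (.of_forall fun n => (D.hF n).1)
  isOpen_UH

lemma op : IsOpen (D.G '' UH) :=
  MP_1e9af3_an.isOpen_image_of_injOn isOpen_UH D.hol D.inj isOpen_UH subset_rfl

lemma cn : IsConnected (D.G '' UH) :=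
  (conv_UH.isConnected ⟨I, by simp [UH]⟩).image _ D.hol.continuousOn

lemma bdd : Bornology.IsBounded (D.G '' UH) :=
  isBounded_iff_forall_norm_le.2 ⟨D.B, by rintro _ ⟨w, hw, rfl⟩; exact D.bd w hw⟩

lemma small {a : ℝ} (h : 0 < a) : ∀ᶠ n in atTop, D.δ n ≤ a := D.lim.eventually (ge_mem_nhds h)

lemma inn {K : Set ℂ} (hK : K ⊆ UH) (cK : IsCompact K) : ∀ᶠ n in atTop, ∀ z ∈ K, ∀ v,
    ‖pos (D.δ n) v - D.F n z‖ ≤ D.δ n → v ∈ (D.W n).R := by
  obtain ⟨R, η, η0, hk⟩ := ex_Kb hK cK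
  obtain ⟨a, a0, h⟩ := mesoSt D.F D.G atTop D.hF D.inj D.conv (max R (D.B + η)) (η / 3)
    (by positivity)
  filter_upwards [h, D.small (show 0 < a / 18 by positivity)] with n h1 h2 z hz
  have z0 := (hk hz).2
  rcases (D.geo n).inn z (hK hz) with k | ⟨E, e1, e2, e3, e4, e5⟩ |
    ⟨p, -, k, E, e1, e2, e3, e4, x, hx, e5⟩
  · exact k
  · have s : E ⊆ closedBall z (η / 3) := fun w hw => mem_closedBall_iff_norm.2 (h1 E e1 e2 z e3
      ((hk hz).1.trans (le_max_left _ _)) (fun w hw => by linarith [e4 w hw, D.δpos n]) w hw)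
    obtain ⟨x, -, hx⟩ := e5.resolve_left (not_not.2 (isBounded_closedBall.subset s))
    have := abs_le.1 ((abs_im_le_norm _).trans
      (mem_closedBall_iff_norm.1 (closure_minimal s isClosed_closedBall hx)))
    simp only [sub_im, ofReal_im] at this
    linarith
  · obtain ⟨y, hy, hd⟩ := Metric.mem_closure_iff.1 e5 (η / 3) (by positivity)
    rw [dist_eq_norm] at hd
    have a1 := norm_le_norm_add_norm_sub' y x
    rw [norm_sub_rev] at a1
    rw [norm_real, Real.norm_eq_abs] at a1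
    have a2 := abs_le.1 ((abs_im_le_norm _).trans (h1 E e1 e2 y hy
      (le_trans (by linarith) (le_max_right _ _)) (fun w hw => by
        linarith [e4 w hw, e4 y hy, norm_sub_rev (D.F n p) (D.F n y),
          norm_sub_le_norm_sub_add_norm_sub (D.F n w) (D.F n p) (D.F n y)]) p e3))
    have a3 := abs_le.1 ((abs_im_le_norm _).trans hd.le)
    simp only [sub_im, ofReal_im] at a2 a3
    linarith

/-- the discrete domains approximate the image of the limit map -/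
def sq : Sq (D.G '' UH) where
  δ := D.δ
  U n := (D.W n).R
  ξ := D.ξ
  δpos := D.δpos
  lim := D.lim
  cls n := ⟨(D.W n).fin, (D.W n).coconn⟩
  two n := (D.geo n).two
  inn K hK cK := by
    obtain ⟨R, η, η0, hk⟩ := ex_Kb (K := invFunOn D.G UH '' K)
      (by rintro _ ⟨y, hy, rfl⟩; exact invFunOn_mem (hK hy))
      (cK.image_of_continuousOn ((inv_cont D.hol D.inj).mono hK))
    obtain ⟨b, b0, h⟩ := hit D.hF D.inj D.conv R (half_pos η0) (half_lt_self η0)
    filter_upwards [h, D.inn (Kb_sub (R := R + η / 2) (η := η - η / 2) (by linarith)) (Kb_cpt _ _)]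
      with n h1 h2 v hv
    have k := hk (mem_image_of_mem _ hv)
    obtain ⟨w, hw, e⟩ := h1 _ k _ (by rw [invFunOn_eq (hK hv), sub_self, norm_zero]; exact b0.le)
    exact h2 w (cb_Kb k hw) v (by rw [e, sub_self, norm_zero]; exact (D.δpos n).le)
  out w hw ε hε := by
    filter_upwards [kern D.hF D.inj D.conv hw (half_pos hε), D.small (half_pos hε)]
      with n ⟨p, h1, h2⟩ h3
    obtain ⟨v, k1, k2⟩ := (D.geo n).out p h1
    exact ⟨v, k1, by linarith [norm_sub_le_norm_sub_add_norm_sub (pos (D.δ n) v) p w]⟩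

lemma cyc : D.sq.Cyc := fun n =>
  let ⟨ia, ib, h⟩ := (D.geo n).cyc
  ⟨D.W n, ia, ib, rfl, h⟩

/-- a visible wall vertex lies over the half line of its colour -/
lemma sgn (M : ℝ) {θ : ℝ} (θ0 : 0 < θ) : ∃ a > 0, ∀ η > 0, ∀ᶠ n in atTop, ∀ w ∈ Kb M η, ∀ v u q,
    ‖pos (D.δ n) v - D.G w‖ ≤ D.δ n →
    Conn ((D.W n).R ∩ {y | ‖pos (D.δ n) y - D.G w‖ ≤ a}) v u → Adj u q → q ∉ (D.W n).R →
    ∃ x : ℝ, ‖w - x‖ ≤ θ ∧ 0 ≤ (if D.ξ n q = D.σ then 1 else -1) * x := by
  obtain ⟨a, a0, h⟩ := mesoSt D.F D.G atTop D.hF D.inj D.conv (M + θ / 2) (θ / 2) (by positivity)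
  refine ⟨a / 3, by positivity, fun η η0 => ?_⟩
  obtain ⟨s, s0, s1, s2⟩ : ∃ s > 0, s < η ∧ s ≤ θ / 2 :=
    ⟨min (η / 2) (θ / 2), by positivity, (min_le_left _ _).trans_lt (half_lt_self η0),
      min_le_right _ _⟩
  obtain ⟨b, b0, hb⟩ := hit D.hF D.inj D.conv M s0 s1
  filter_upwards [h, hb, D.small b0, D.small (show 0 < a / 27 by positivity)]
    with n h1 h2 h3 h4 w hw v u q hv hc ha hq
  have g := D.geo n
  obtain ⟨w', k1, k2⟩ := h2 w hw _ (hv.trans h3)
  have k3 := cb_Kb hw k1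
  have k4 := Kb_sub (by linarith) k3
  obtain ⟨E, e1, e2, e3, ⟨p, e4, e5⟩, e6⟩ := hc.ind (P := fun y => ∃ E ⊆ UH, IsPreconnected E ∧
      w' ∈ E ∧ (∃ p ∈ E, D.F n p = pos (D.δ n) y) ∧ ∀ z ∈ E, ‖D.F n z - D.G w‖ ≤ a / 3)
    ⟨{w'}, by simpa, isPreconnected_singleton, rfl, ⟨w', rfl, k2⟩,
      by rintro _ rfl; rw [k2]; exact hc.left.2⟩ (by
    rintro y y' hy ad hy' ⟨E, e1, e2, e3, ⟨p, e4, e5⟩, e6⟩
    have sg := g.seg y hy.right.1 y' hy'.1 (.inl ad)
    refine ⟨E ∪ invFunOn (D.F n) UH '' segment ℝ (pos (D.δ n) y) (pos (D.δ n) y'),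
      union_subset e1 (by rintro _ ⟨t, ht, rfl⟩; exact invFunOn_mem (sg ht)),
      e2.union p e4 ⟨_, left_mem_segment _ _ _, e5 ▸ g.inj.leftInvOn_invFunOn (e1 e4)⟩
        ((convex_segment _ _).isPreconnected.image _ ((inv_cont g.hol g.inj).mono sg)),
      .inl e3, ⟨_, .inr (mem_image_of_mem _ (right_mem_segment _ _ _)),
        invFunOn_eq (sg (right_mem_segment _ _ _))⟩, ?_⟩
    rintro z (hz | ⟨t, ht, rfl⟩)
    · exact e6 z hz
    · rw [invFunOn_eq (sg ht)]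
      exact mem_closedBall_iff_norm.1 ((convex_closedBall _ _).segment_subset
        (mem_closedBall_iff_norm.2 hy.right.2) (mem_closedBall_iff_norm.2 hy'.2) ht))
  obtain ⟨E', f1, f2, f3, f4, f5⟩ := g.tie u hc.right.1 q hq ha p (e1 e4) e5
  have f6 := e6 w' e3
  rw [norm_sub_rev] at f6
  have sb : E' ⊆ closedBall w' (θ / 2) := fun z hz => mem_closedBall_iff_norm.2
    (h1 (E ∪ E') (union_subset e1 f1) (e2.union p e4 f3 f2) w' (.inl e3) (by linarith [k3.1])
      (fun y hy => (norm_sub_le_norm_sub_add_norm_sub _ (D.G w) _).trans (hy.elim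
        (fun hy => by linarith [e6 y hy]) fun hy => by
          linarith [f4 y hy, e6 p e4, norm_sub_le_norm_sub_add_norm_sub (D.F n y) (D.F n p) (D.G w)]))
      z (.inr hz))
  obtain ⟨x, x1, x2⟩ := f5.resolve_left (not_not.2 (isBounded_closedBall.subset sb))
  refine ⟨x, ?_, x1⟩
  linarith [mem_closedBall_iff_norm'.1 (closure_minimal sb isClosed_closedBall x2),
    mem_closedBall_iff_norm'.1 k1, norm_sub_le_norm_sub_add_norm_sub w w' x]

lemma hm_le {w : ℂ} (hw : w ∈ UH) : |hm D.σ w - 1 / 2| ≤ 1 / 2 := by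
  have := arg_mem hw
  rcases D.two with e | e <;> rw [hm, e, abs_le] <;> push_cast <;> constructor <;> linarith

lemma hm_near {w : ℂ} (hw : w ∈ UH) {θ e x : ℝ} (h1 : θ ≤ ‖w‖) (θ0 : 0 < θ) (e0 : 0 < e)
    (e1 : e ≤ 1 / 2) (h2 : ‖w - x‖ ≤ e * θ) {k : ℤ} (hk : k = 0 ∨ k = 1)
    (h3 : 0 ≤ (if k = D.σ then 1 else -1) * x) : |k - hm D.σ w| ≤ e := by
  have a1 := arg_mem hw
  have a2 := arg_near hw h1 θ0 e0 e1 h2
  rw [hm, abs_le]
  rcases D.two with e | e <;> rcases hk with rfl | rfl <;> rw [e] at h3 ⊢ <;> norm_num at h3 ⊢ <;>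
    constructor <;> first | linarith | linarith [a2.1 h3] | linarith [a2.2 h3]

lemma hm_harm : HarmonicOnNhd (fun x => hm D.σ (invFunOn D.G UH x)) (D.G '' UH) := fun x hx => by
  have := (harmonicAt_const (x := x) (D.σ : ℝ)).add
    (((inv_an D.hol D.inj hx).clog (.inr (ne_of_gt (invFunOn_mem hx)))).harmonicAt_im.const_smul
      (c := (1 - 2 * (D.σ : ℝ)) / Real.pi))
  convert this using 1
  ext z
  simp only [hm, Pi.add_apply, Pi.smul_apply, log_im, smul_eq_mul]; ring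

lemma bar_harm : HarmonicOnNhd (fun x => bar (invFunOn D.G UH x)) (D.G '' UH) := fun x hx => by
  have h0 : 0 < (invFunOn D.G UH x).im := invFunOn_mem hx
  have h1 : invFunOn D.G UH x ≠ 0 := fun e => by simp [e] at h0
  have h := inv_an D.hol D.inj hx
  exact (((h.add analyticAt_const).pow 2).div h h1).harmonicAt_log_norm
    (div_ne_zero (pow_ne_zero _ fun e => by
      have := congrArg im e
      simp only [Pi.add_apply, add_im, I_im, zero_im] at this; linarith) h1)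

variable {ρ u : ℂ → ℝ} {U : Ultrafilter ℕ}

lemma avlim (h : End.Bump ρ) (hu : HarmonicOnNhd u (D.G '' UH))
    (cv : End.Cv (D.G '' UH) (Hm D.sq) U u) {y : ℂ} {r : ℝ} (r0 : 0 < r)
    (hr : closedBall y r ⊆ D.G '' UH) : Tendsto (fun n => End.av ρ r (Hm D.sq n) y) U (𝓝 (u y)) := by
  have := cv _ hr (isCompact_closedBall y r) _ (h.sc_cont' y r) fun z hz =>
    h.sc_zero r0 (not_le.1 fun k => hz (mem_closedBall_iff_norm.2 k)).le
  simpa only [End.int_sc r0, h.av_harm r0.le (hu.mono hr)] using this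

lemma near (h : End.Bump ρ) (hu : HarmonicOnNhd u (D.G '' UH))
    (cv : End.Cv (D.G '' UH) (Hm D.sq) U u) {f : ℂ → ℝ} (hf : HarmonicOnNhd f (D.G '' UH)) {y : ℂ}
    {r e : ℝ} (r0 : 0 < r) (hr : closedBall y r ⊆ D.G '' UH)
    (he : ∀ᶠ n in U, ∀ x ∈ closedBall y r, |Hm D.sq n x - f x| ≤ e) : |u y - f y| ≤ e :=
  le_of_tendsto ((D.avlim h hu cv r0 hr).sub_const (f y)).abs (he.mono fun n hn => by
    rw [← h.av_harm r0.le (hf.mono hr)]
    exact h.av_dist r0.le (Hm_cont _ n).continuousOn (hf.continuousOn.mono hr) hn)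

theorem ident (h : End.Bump ρ) (hU : (U : Filter ℕ) ≤ atTop) (hu : HarmonicOnNhd u (D.G '' UH))
    (cv : End.Cv (D.G '' UH) (Hm D.sq) U u) :
    ∀ x ∈ D.G '' UH, u x = hm D.σ (invFunOn D.G UH x) := by
  have ho := D.op
  have hb := D.bdd
  have gc := inv_cont D.hol D.inj
  have h1 := D.hm_harm
  have h2 := D.bar_harm
  have gm : ∀ x ∈ D.G '' UH, invFunOn D.G UH x ∈ UH ∧ D.G (invFunOn D.G UH x) = x :=
    fun x hx => ⟨invFunOn_mem hx, invFunOn_eq hx⟩
  generalize invFunOn D.G UH = g at *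
  obtain ⟨z0, hz⟩ := D.cn.nonempty
  obtain ⟨T, T0, hT⟩ := hb.subset_ball_lt 0 0
  have b1 : ∀ y ∈ D.G '' UH, |u y - hm D.σ (g y)| ≤ 1 := fun y hy => by
    obtain ⟨r, r0, hr⟩ := nhds_basis_closedBall.mem_iff.1 (ho.mem_nhds hy)
    have k1 := abs_le.1 (D.near h hu cv (harmonicOnNhd_const (1 / 2)) r0 hr
      (.of_forall fun n x _ => Hm_le _ n x))
    have k2 := abs_le.1 (D.hm_le (gm y hy).1)
    exact abs_le.2 ⟨by linarith, by linarith⟩
  have sm : ∀ k R, 0 < R → R ≤ 1 → ∀ ε > 0, ∃ η > 0, ∃ α β : ℂ, End.dd (D.G '' UH) α ≤ R ∧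
      End.dd (D.G '' UH) β ≤ R ∧ ‖α‖ ≤ T + 1 ∧ ‖β‖ ≤ T + 1 ∧
      ∀ y ∈ connectedComponentIn (D.G '' UH \ (closedBall α R ∪ closedBall β R)) z0,
        End.dd (D.G '' UH) y < η → |Real.log ‖g y‖| < k → |u y - hm D.σ (g y)| ≤ ε := by
    intro k R R0 R1 ε ε0
    obtain ⟨e, e0, e1, e2⟩ : ∃ e > 0, e ≤ 1 / 2 ∧ e ≤ ε / 2 :=
      ⟨min (1 / 2) (ε / 2), by positivity, min_le_left _ _, min_le_right _ _⟩
    obtain ⟨a, a0, ha⟩ := D.sgn (Real.exp k) (mul_pos e0 (Real.exp_pos (-k)))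
    obtain ⟨η, η0, α, β, p1, p2⟩ := pk D.sq ho D.cn hb D.cyc hz (lt_min (half_pos R0) a0)
      (half_pos ε0)
    obtain ⟨α', a1, a2, a3⟩ := End.lim_pt U T0 hT R0 R1 (α := α)
      (hU (p1.mono fun n hn => hn.1.trans (min_le_left _ _)))
    obtain ⟨β', c1, c2, c3⟩ := End.lim_pt U T0 hT R0 R1 (α := β)
      (hU (p1.mono fun n hn => hn.2.trans (min_le_left _ _)))
    refine ⟨η, η0, α', β', a1, c1, a2, c2, fun y hy hd hk => ?_⟩
    have So := ho.sdiff ((isClosed_closedBall (x := α') (ε := R)).union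
      (isClosed_closedBall (x := β') (ε := R)))
    obtain ⟨C, g1, g2, g3, g4, g5⟩ := End.ex_G So hy
    have y1 := (g1 g5).1
    have n0 : ∀ x ∈ D.G '' UH, 0 < ‖g x‖ := fun x hx =>
      lt_of_lt_of_le (gm x hx).1 ((le_abs_self _).trans (abs_im_le_norm _))
    obtain ⟨r, r0, hr⟩ := nhds_basis_closedBall.mem_iff.1 (inter_mem (So.mem_nhds (g1 g5))
      (inter_mem ((End.dd_cont _).continuousAt.eventually (gt_mem_nhds hd))
        ((((gc.continuousAt (ho.mem_nhds y1)).norm.log (n0 y y1).ne').abs).eventually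
          (gt_mem_nhds hk))))
    have r1 : closedBall y r ⊆ D.G '' UH := fun x hx => (hr hx).1.1
    obtain ⟨M, t, t0, ht⟩ := ex_Kb (K := g '' closedBall y r)
      (by rintro _ ⟨x, hx, rfl⟩; exact (gm x (r1 hx)).1)
      ((isCompact_closedBall y r).image_of_continuousOn (gc.mono r1))
    have s1 : C ∪ closedBall y r ⊆ _ := union_subset g1 fun x hx => (hr hx).1
    refine D.near h hu cv h1 r0 r1 ?_
    filter_upwards [hU (p2 _ (s1.trans sdiff_subset) (g2.union (isCompact_closedBall _ _))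
      (g3.union ⟨y, g5, mem_closedBall_self r0.le⟩ (isConnected_closedBall r0.le)) (.inl g4)),
      a3, c3, hU (ha t t0)] with n q1 q2 q3 q4 x hx
    have q5 := abs_lt.1 (show |Real.log ‖g x‖| < k from (hr hx).2.2)
    rw [Hm_eq]
    refine exR_near (D.δpos n) fun v hv => ?_
    obtain ⟨w, q, d1, d2, d3, d4⟩ := q1
      ((q2 _ (s1.trans (sdiff_subset_sdiff_right subset_union_left))).mono_right
        (ball_subset_ball (min_le_left _ _)))
      ((q3 _ (s1.trans (sdiff_subset_sdiff_right subset_union_right))).mono_right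
        (ball_subset_ball (min_le_left _ _))) x (.inr hx) (le_of_lt (hr hx).2.1) v hv
    obtain ⟨s, d5, d6⟩ := q4 (g x) ⟨((Real.log_lt_iff_lt_exp (n0 x (r1 hx))).1 q5.2).le,
      (ht (mem_image_of_mem _ hx)).2⟩ v w q (by rw [(gm x (r1 hx)).2]; exact hv)
      (by rw [(gm x (r1 hx)).2]
          exact d1.mono (inter_subset_inter_right _ fun y (k : _ ≤ _) =>
            (k.trans (min_le_right _ _) : _ ≤ a))) d2 d3
    have d7 := D.hm_near (gm x (r1 hx)).1 ((Real.lt_log_iff_exp_lt (n0 x (r1 hx))).1 q5.1).le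
      (Real.exp_pos _) e0 e1 d5 ((D.geo n).two q d3) d6
    exact (abs_sub_le _ (D.ξ n q : ℝ) _).trans ((add_le_add d4 d7).trans (by linarith))
  have mx : ∀ f : ℂ → ℝ, HarmonicOnNhd f (D.G '' UH) → (∀ y, f y ≤ |u y - hm D.σ (g y)|) →
      ∀ x ∈ D.G '' UH, f x ≤ 0 := fun f hf fl x hx => by
    have b0 : ∀ y ∈ D.G '' UH, 0 ≤ bar (g y) := fun y hy => (abs_nonneg _).trans (le_bar (gm y hy).1)
    refine le_of_forall_pos_le_add fun e e0 => ?_
    obtain ⟨κ, κ0, hκ⟩ : ∃ κ > 0, κ * bar (g x) ≤ e :=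
      ⟨e / (bar (g x) + 1), by have := b0 x hx; positivity, by
        have := b0 x hx
        rw [div_mul_eq_mul_div, div_le_iff₀ (by positivity)]; nlinarith⟩
    have hw : HarmonicOnNhd (f - κ • fun y => bar (g y)) (D.G '' UH) := hf.sub h2.const_smul
    have := h.mp2 ho D.cn hb hz hw.continuousOn
      (fun x r r0 hr => h.av_harm r0.le (hw.mono (End.cb_sub hr))) (M := 1) (T := T + 1)
      (fun y hy => by
        have := mul_nonneg κ0.le (b0 y hy)
        simp only [Pi.sub_apply, Pi.smul_apply, smul_eq_mul]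
        linarith [fl y, b1 y hy])
      (fun R R0 R1 ε ε0 => by
        obtain ⟨η, η0, α, β, k1, k2, k3, k4, k5⟩ := sm κ⁻¹ R R0 R1 ε ε0
        refine ⟨η, η0, α, β, k1, k2, k3, k4, fun y hy hd => ?_⟩
        have y1 := (connectedComponentIn_subset _ _ hy).1
        have := mul_nonneg κ0.le (b0 y y1)
        simp only [Pi.sub_apply, Pi.smul_apply, smul_eq_mul]
        by_cases hk : |Real.log ‖g y‖| < κ⁻¹
        · linarith [fl y, k5 y hy hd hk]
        · have k6 := mul_le_mul_of_nonneg_left ((not_lt.1 hk).trans (le_bar (gm y y1).1)) κ0.le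
          rw [mul_inv_cancel₀ κ0.ne'] at k6
          linarith [fl y, b1 y y1]) x hx
    simp only [Pi.sub_apply, Pi.smul_apply, smul_eq_mul] at this
    linarith
  intro x hx
  have m1 := mx _ (hu.sub h1) (fun y => le_abs_self _) x hx
  have m2 := mx _ (h1.sub hu) (fun y => by rw [abs_sub_comm]; exact le_abs_self _) x hx
  simp only [Pi.sub_apply] at m1 m2
  linarith

theorem final (h : End.Bump ρ) {w : ℂ} (hw : w ∈ UH) {r : ℝ} (r0 : 0 < r)
    (hr : closedBall (D.G w) r ⊆ D.G '' UH) :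
    Tendsto (fun n => End.av ρ r (Hm D.sq n) (D.G w)) atTop (𝓝 (hm D.σ w)) := by
  refine (tendsto_iff_ultrafilter _ _ _).2 fun U hU => ?_
  obtain ⟨u, hu, cv⟩ := harm D.sq D.op D.bdd U hU
  have := D.avlim h hu cv r0 hr
  rwa [D.ident h hU hu cv _ (mem_image_of_mem _ hw), D.inj.leftInvOn_invFunOn hw] at this

end Dat

theorem obsSt : ObsSt := by
  intro ρ h σ hσ δ W ξ F z c r B K d0 dl geo hB r0 hK cK hc hz
  suffices H : Tendsto (fun n : ℕ => n) atTop (comap (fun n => End.av ρ r (mh (δ n) (W n) (ξ n)) c -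
      (σ + (1 - 2 * σ) * (arg (z n) / Real.pi))) (𝓝 0) ⊓
      𝓟 {n | ∀ y ∈ closedBall c r, ∀ v, ‖pos (δ n) v - y‖ ≤ δ n → v ∈ (W n).R}) from
    ⟨tendsto_comap_iff.1 (tendsto_inf.1 H).1, tendsto_principal.1 (tendsto_inf.1 H).2⟩
  refine tendsto_of_subseq_tendsto fun ns hns => ?_
  obtain ⟨m, G, a, ha, hm', hl, hz'⟩ := subseq (F := fun n => F (ns n)) (fun n => (geo _).hol)
    (fun K k1 k2 => hns.eventually (hB K k1 k2)) cK (z := fun n => z (ns n)) fun n => (hz _).1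
  have hF := fun n => And.intro (geo (ns (m n))).hol (geo (ns (m n))).inj
  have gc := hl.continuousOn (.of_forall fun n => (hF n).1.continuousOn)
  have sub : closedBall c r ⊆ G '' K := fun y hy =>
    lim_mem hl gc hK cK (.of_forall fun n => hc _ hy)
  have ea : G a = c := tendsto_nhds_unique (hl.tendsto_comp (gc a (hK ha)) (hK ha)
    (tendsto_nhdsWithin_iff.2 ⟨hz', .of_forall fun n => hK (hz _).1⟩))
    (tendsto_const_nhds.congr fun n => (hz _).2.symm)
  obtain ⟨b, hb, eb⟩ := sub (show c + r ∈ _ by simp [abs_of_pos r0])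
  let D : Dat := ⟨σ, B, fun n => δ (ns (m n)), fun n => W (ns (m n)), fun n => ξ (ns (m n)),
    fun n => F (ns (m n)), G, hσ, fun n => d0 _, dl.comp (hns.comp hm'), fun n => geo _,
    lim_inj hF hl (hK ha) (hK hb) (by rw [ea, eb]; simpa using r0.ne'), hl, fun w hw =>
      le_of_tendsto (hl.tendsto_at hw).norm (((hns.comp hm').eventually
        (hB {w} (by simpa) isCompact_singleton)).mono fun n hn => hn w rfl)⟩
  refine ⟨m, tendsto_inf.2 ⟨tendsto_comap_iff.2 ?_, tendsto_principal.2 ?_⟩⟩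
  · have k1 := D.final h (hK ha) r0 (by
      change closedBall (G a) r ⊆ _
      rw [ea]; exact sub.trans (image_mono hK))
    have k2 := (((((continuousAt_arg (.inr (ne_of_gt (hK ha)))).tendsto.comp hz').div_const
      Real.pi).const_mul (1 - 2 * (σ : ℝ))).const_add (σ : ℝ))
    have k3 := k1.sub k2
    change Tendsto (fun n => End.av ρ r _ (G a) - _) _ (𝓝 (hm σ a - hm σ a)) at k3
    rw [ea, sub_self] at k3
    exact k3
  · filter_upwards [D.inn hK cK] with n hn y hy v hv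
    obtain ⟨w, hw, rfl⟩ := hc (ns (m n)) hy
    exact hn w hw v hv

end Pool.Agent.Lib.MP_6359c9_pr.Obs
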