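import Pool.Agent.Lib.MP_6359c9_pr.SpecC
import Pool.Agent.Lib.MP_6359c9_pr.LwDef

/-! The observable: interface. -/

namespace Pool.Agent.Lib.MP_6359c9_pr.Obs

open Set Filter Topology Metric Complex

/-- `p` is joined to the closed half line of sign `ε` (or to infinity) by a connected subset of
the half plane whose image under `F` stays within `a` of `F p` -/
def Tie (F : ℂ → ℂ) (a ε : ℝ) (p : ℂ) : Prop :=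
  ∃ E ⊆ UH, IsPreconnected E ∧ p ∈ E ∧ (∀ z ∈ E, ‖F z - F p‖ ≤ a) ∧
    (¬Bornology.IsBounded E ∨ ∃ x : ℝ, 0 ≤ ε * x ∧ (x : ℂ) ∈ closure E)

/-- the discrete domain `W` with data `ξ` fills the image of the half plane under `F`; the data
are `σ` along the positive half line and `1 - σ` along the negative half line -/
structure Geo (B δ : ℝ) (W : Wall) (ξ : V → ℤ) (σ : ℤ) (F : ℂ → ℂ) : Prop where
  hol : DifferentiableOn ℂ F UH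
  inj : InjOn F UH
  two : ∀ v, v ∉ W.R → ξ v = 0 ∨ ξ v = 1
  cyc : ∃ ia ib : ℕ, ∀ i, ξ (W.γ i) ≠ ξ (W.γ (i + 1)) → W.γ i = W.γ ia ∨ W.γ i = W.γ ib
  out : ∀ p, p ∉ F '' UH → ∃ w, w ∉ W.R ∧ ‖pos δ w - p‖ ≤ δ
  seg : ∀ u ∈ W.R, ∀ v ∈ W.R, Adj u v ∨ u = v → segment ℝ (pos δ u) (pos δ v) ⊆ F '' UH
  tie : ∀ u ∈ W.R, ∀ w, w ∉ W.R → Adj u w → ∀ p ∈ UH, F p = pos δ u →
    Tie F (9 * δ) (if ξ w = σ then 1 else -1) p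
  inn : ∀ z ∈ UH, (∀ v, ‖pos δ v - F z‖ ≤ δ → v ∈ W.R) ∨ Tie F (9 * δ) 0 z ∨
    ∃ p ∈ UH, z.im ≤ p.im ∧ ∃ E ⊆ UH, IsPreconnected E ∧ p ∈ E ∧
      (∀ w ∈ E, ‖F w - F p‖ ≤ 9 * δ) ∧ ∃ x : ℝ, |x| ≤ B ∧ (x : ℂ) ∈ closure E

/-- the mean of the extended height function -/
noncomputable def mh (δ : ℝ) (W : Wall) (ξ : V → ℤ) (z : ℂ) : ℝ :=
  mean (HD W.R ξ) fun g => ext δ g z

/-- the averaged mean height is close to the harmonic measure, uniformly over the states -/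
def ObsSt : Prop := ∀ (ρ : ℂ → ℝ), End.Bump ρ → ∀ (σ : ℤ), σ = 0 ∨ σ = 1 →
  ∀ (δ : ℕ → ℝ) (W : ℕ → Wall) (ξ : ℕ → V → ℤ) (F : ℕ → ℂ → ℂ) (z : ℕ → ℂ) (c : ℂ) (r B : ℝ)
    (K : Set ℂ), (∀ n, 0 < δ n) → Tendsto δ atTop (𝓝 0) →
    (∀ n, Geo B (δ n) (W n) (ξ n) σ (F n)) →
    (∀ K' ⊆ UH, IsCompact K' → ∀ᶠ n in atTop, ∀ w ∈ K', ‖F n w‖ ≤ B) →
    0 < r → K ⊆ UH → IsCompact K → (∀ n, closedBall c r ⊆ F n '' K) →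
    (∀ n, z n ∈ K ∧ F n (z n) = c) →
    Tendsto (fun n => End.av ρ r (mh (δ n) (W n) (ξ n)) c -
      (σ + (1 - 2 * σ) * (arg (z n) / Real.pi))) atTop (𝓝 0) ∧
    ∀ᶠ n in atTop, ∀ y ∈ closedBall c r, ∀ v, ‖pos (δ n) v - y‖ ≤ δ n → v ∈ (W n).R

/-- equicontinuity of the inverse maps up to the boundary -/
def MesoSt : Prop := ∀ (F : ℕ → ℂ → ℂ) (G : ℂ → ℂ) (l : Filter ℕ),
  (∀ n, DifferentiableOn ℂ (F n) UH ∧ InjOn (F n) UH) → InjOn G UH →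
  TendstoLocallyUniformlyOn F G l UH → ∀ R ε : ℝ, 0 < ε → ∃ a > 0, ∀ᶠ n in l,
    ∀ E ⊆ UH, IsPreconnected E → ∀ y ∈ E, ‖y‖ ≤ R → (∀ z ∈ E, ‖F n z - F n y‖ ≤ a) →
      ∀ z ∈ E, ‖z - y‖ ≤ ε

end Pool.Agent.Lib.MP_6359c9_pr.Obs
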