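import Pool.Agent.Lib.MP_6359c9_pr.ObDef
import Pool.Agent.Lib.MP_069d55_gt.LenArea

/-! Length and area in the logarithmic metric; equicontinuity of inverse conformal maps. -/

namespace Pool.Agent.Lib.MP_6359c9_pr.Obs

open Set Filter Topology Metric Complex MeasureTheory

lemma cov {W : Set ℂ} (hW : MeasurableSet W) {φ φ' : ℂ → ℂ} (hd : ∀ w ∈ W, HasDerivAt φ (φ' w) w)
    (hi : InjOn φ W) (g : ℂ → ENNReal) :
    ∫⁻ u in φ '' W, g u = ∫⁻ w in W, ENNReal.ofReal (‖φ' w‖ ^ 2) * g (φ w) := by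
  have := lintegral_image_eq_lintegral_abs_det_fderiv_mul volume hW
    (f := φ) (f' := fun w => φ' w • (1 : ℂ →L[ℝ] ℂ))
    (fun w hw => (hd w hw).complexToReal_fderiv.hasFDerivWithinAt) hi g
  simpa only [MP_069d55_gt.det_cmul, abs_pow, abs_norm] using this

lemma ann (q : ℂ) {a b : ℝ} (ha : 0 < a) (hab : a < b) :
    ∫⁻ u in {u | a < ‖u - q‖ ∧ ‖u - q‖ < b}, ENNReal.ofReal (‖u - q‖ ^ 2)⁻¹ ≤
      ENNReal.ofReal (7 * Real.log (b / a)) := by
  set T : Set ℂ := measurableEquivRealProd ⁻¹'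
    (Ioo (Real.log a) (Real.log b) ×ˢ Ioc (-Real.pi) Real.pi) with hT
  have hTm : MeasurableSet T :=
    measurableEquivRealProd.measurable (measurableSet_Ioo.prod measurableSet_Ioc)
  have h1 : {u | a < ‖u - q‖ ∧ ‖u - q‖ < b} ⊆ (fun w => q + exp w) '' T := fun u hu => by
    have h0 : u - q ≠ 0 := norm_pos_iff.1 (ha.trans hu.1)
    refine ⟨log (u - q), ?_, by simp [exp_log h0]⟩
    simp only [hT, mem_preimage, measurableEquivRealProd_apply, mem_prod, log_re, log_im]
    exact ⟨⟨Real.log_lt_log ha hu.1, Real.log_lt_log (ha.trans hu.1) hu.2⟩,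
      neg_pi_lt_arg _, arg_le_pi _⟩
  refine (lintegral_mono_set h1).trans ?_
  rw [cov hTm (φ' := exp) (fun w _ => (hasDerivAt_exp w).const_add q) fun w hw v hv e =>
    exp_inj_of_neg_pi_lt_of_le_pi hw.2.1 hw.2.2 hv.2.1 hv.2.2 (add_left_cancel e)]
  have h2 : ∀ w : ℂ, ENNReal.ofReal (‖exp w‖ ^ 2) * ENNReal.ofReal (‖q + exp w - q‖ ^ 2)⁻¹ = 1 :=
    fun w => by
      have : 0 < ‖exp w‖ ^ 2 := pow_pos (norm_pos_iff.2 (exp_ne_zero w)) 2
      rw [add_sub_cancel_left, ← ENNReal.ofReal_mul this.le, mul_inv_cancel₀ this.ne',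
        ENNReal.ofReal_one]
  simp only [h2, setLIntegral_one]
  rw [hT, volume_preserving_equiv_real_prod.measure_preimage
    (measurableSet_Ioo.prod measurableSet_Ioc).nullMeasurableSet, Measure.volume_eq_prod,
    Measure.prod_prod, Real.volume_Ioo, Real.volume_Ioc, ← Real.log_div (ha.trans hab).ne' ha.ne',
    ← ENNReal.ofReal_mul (Real.log_nonneg ((one_le_div ha).2 hab.le)), mul_comm]
  refine ENNReal.ofReal_le_ofReal (mul_le_mul_of_nonneg_right (by linarith [Real.pi_lt_d2])
    (Real.log_nonneg ((one_le_div ha).2 hab.le)))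

/-- if all circles around `c` with radius between `r1` and `r2` have images that meet the disc
of radius `a` around `q` and have their tops off the disc of radius `b`, the moduli are bounded -/
theorem el {F : ℂ → ℂ} (hd : DifferentiableOn ℂ F UH) (hi : InjOn F UH) {c q : ℂ}
    {r1 r2 a b : ℝ} (h1 : 0 < r1) (h2 : r1 < r2) (ha : 0 < a) (hab : a < b)
    (hin : ∀ ρ ∈ Ioo r1 r2, ∃ z ∈ UH, ‖z - c‖ = ρ ∧ ‖F z - q‖ ≤ a)
    (hout : ∀ ρ ∈ Ioo r1 r2, b ≤ ‖F (c + ρ * I) - q‖) :
    Real.log (b / a) * Real.log (r2 / r1) ≤ 49 := by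
  have hU : IsOpen UH := isOpen_lt continuous_const continuous_im
  obtain ⟨Λ, hΛ⟩ : ∃ Λ, Λ = Real.log (b / a) := ⟨_, rfl⟩
  have hΛ0 : 0 < Λ := hΛ ▸ Real.log_pos ((one_lt_div ha).2 hab)
  set e : ℂ → ℂ := fun w => c + exp w * I with he
  have ec : Continuous e := by fun_prop
  set φ : ℂ → ℂ := fun w => F (e w) with hφ
  have o1 : IsOpen (e ⁻¹' UH) := hU.preimage ec
  have φd : DifferentiableOn ℂ φ (e ⁻¹' UH) := hd.comp (by fun_prop) fun w hw => hw
  set W : Set ℂ := {w | w.im ∈ Ioo (-Real.pi) Real.pi} ∩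
    (e ⁻¹' UH ∩ φ ⁻¹' {u | a < ‖u - q‖ ∧ ‖u - q‖ < b}) with hW
  have hWo : IsOpen W := (isOpen_Ioo.preimage continuous_im).inter
    (φd.continuousOn.isOpen_inter_preimage o1
      (isOpen_Ioo.preimage (f := fun u : ℂ => ‖u - q‖) (by fun_prop)))
  have dφ : ∀ w ∈ W, HasDerivAt φ (deriv φ w) w := fun w hw =>
    (φd.differentiableAt (o1.mem_nhds hw.2.1)).hasDerivAt
  have φi : InjOn φ W := fun w hw v hv h =>
    exp_inj_of_neg_pi_lt_of_le_pi hw.1.1 hw.1.2.le hv.1.1 hv.1.2.le
      (mul_right_cancel₀ I_ne_zero (add_left_cancel (hi hw.2.1 hv.2.1 h)))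
  set G : ℂ → ENNReal := W.indicator fun w => ENNReal.ofReal ((‖deriv φ w‖ / ‖φ w - q‖) ^ 2)
    with hG
  have hGm : AEMeasurable G := by
    refine (aemeasurable_indicator_iff hWo.measurableSet).2 (ENNReal.measurable_ofReal.comp_aemeasurable
      (((measurable_deriv φ).norm.aemeasurable.div ?_).pow_const 2))
    exact (((φd.continuousOn.mono fun w hw => hw.2.1).sub continuousOn_const).norm).aemeasurable
      hWo.measurableSet
  have a1 : ∫⁻ w, G w ≤ ENNReal.ofReal (7 * Λ) := by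
    rw [hG, lintegral_indicator hWo.measurableSet, hΛ]
    refine le_trans (le_of_eq ?_) ((lintegral_mono_set (show φ '' W ⊆ _ by
      rintro _ ⟨w, hw, rfl⟩; exact hw.2.2)).trans (ann q ha hab))
    rw [cov hWo.measurableSet dφ φi]
    refine lintegral_congr fun w => ?_
    rw [← ENNReal.ofReal_mul (by positivity), div_pow, div_eq_mul_inv]
  have a2 : ∫⁻ w, G w = ∫⁻ x : ℝ, ∫⁻ y : ℝ, G (x + y * I) := by
    rw [← (volume_preserving_equiv_real_prod.symm).lintegral_comp_emb
      measurableEquivRealProd.symm.measurableEmbedding, Measure.volume_eq_prod, lintegral_prod]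
    · congr 1; funext x; congr 1; funext y; congr 1
      apply Complex.ext <;> simp
    · exact hGm.comp_quasiMeasurePreserving
        (volume_preserving_equiv_real_prod.symm).quasiMeasurePreserving
  have a3 : ∀ x ∈ Ioo (Real.log r1) (Real.log r2),
      ENNReal.ofReal (Λ ^ 2 / 7) ≤ ∫⁻ y : ℝ, G (x + y * I) := fun x hx => by
    have hρ : Real.exp x ∈ Ioo r1 r2 :=
      ⟨(Real.log_lt_iff_lt_exp h1).1 hx.1, (Real.lt_log_iff_exp_lt (h1.trans h2)).1 hx.2⟩
    set S : Set ℝ := {y | (x + y * I : ℂ) ∈ W} with hS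
    have hSm : MeasurableSet S := (hWo.preimage (by fun_prop)).measurableSet
    set ψ : ℝ → ℝ := fun y => Real.log (‖φ (x + y * I) - q‖ ^ 2) / 2 with hψ
    have ψd : ∀ y ∈ S, HasDerivAt ψ (2 * inner ℝ (φ (x + y * I) - q) (deriv φ (x + y * I) * I) /
        ‖φ (x + y * I) - q‖ ^ 2 / 2) y := fun y hy => by
      have k1 : HasDerivAt (fun w : ℂ => φ (x + w * I)) (deriv φ (x + y * I) * I) (y : ℂ) := by
        have := (dφ _ hy).comp (y : ℂ) (((hasDerivAt_id (y : ℂ)).mul_const I).const_add (x : ℂ))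
        rw [one_mul] at this
        exact this
      exact (((k1.comp_ofReal.sub_const q).norm_sq).log
        (pow_pos (ha.trans hy.2.2.1) 2).ne').div_const 2
    have k1 := addHaar_image_le_lintegral_abs_det_fderiv volume hSm
      fun y hy => (ψd y hy).hasFDerivAt.hasFDerivWithinAt
    simp only [ContinuousLinearMap.det_toSpanSingleton] at k1
    have k2 : ∀ y ∈ S, ENNReal.ofReal |2 * inner ℝ (φ (x + y * I) - q) (deriv φ (x + y * I) * I) /
        ‖φ (x + y * I) - q‖ ^ 2 / 2| ≤ ENNReal.ofReal (Λ / 14) +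
          ENNReal.ofReal (7 / (2 * Λ)) * G (x + y * I) := fun y hy => by
      rw [hG, indicator_of_mem (show (x + y * I : ℂ) ∈ W from hy),
        ← ENNReal.ofReal_mul (by positivity), ← ENNReal.ofReal_add (by positivity) (by positivity)]
      refine ENNReal.ofReal_le_ofReal ?_
      have n0 : 0 < ‖φ (x + y * I) - q‖ := ha.trans hy.2.2.1
      have k3 := abs_real_inner_le_norm (φ (x + y * I) - q) (deriv φ (x + y * I) * I)
      rw [norm_mul, norm_I, mul_one] at k3
      have k4 : |2 * inner ℝ (φ (x + y * I) - q) (deriv φ (x + y * I) * I) /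
          ‖φ (x + y * I) - q‖ ^ 2 / 2| ≤ ‖deriv φ (x + y * I)‖ / ‖φ (x + y * I) - q‖ := by
        rw [mul_div_assoc, mul_div_cancel_left₀ _ two_ne_zero, abs_div, abs_of_pos (pow_pos n0 2),
          div_le_div_iff₀ (pow_pos n0 2) n0]
        nlinarith
      refine k4.trans ?_
      generalize ‖deriv φ (x + y * I)‖ / ‖φ (x + y * I) - q‖ = d
      have : d * Λ ≤ (Λ / 14 + 7 / (2 * Λ) * d ^ 2) * Λ := by
        rw [show (Λ / 14 + 7 / (2 * Λ) * d ^ 2) * Λ = Λ ^ 2 / 14 + 7 / 2 * d ^ 2 by field_simp]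
        nlinarith [sq_nonneg (Λ - 7 * d)]
      exact le_of_mul_le_mul_right this hΛ0
    have k3 := k1.trans (setLIntegral_mono' hSm k2)
    rw [lintegral_add_left measurable_const, setLIntegral_const,
      lintegral_const_mul' _ _ ENNReal.ofReal_ne_top] at k3
    have k4 : volume S ≤ ENNReal.ofReal 7 := by
      refine (measure_mono (show S ⊆ Ioo (-Real.pi) Real.pi from fun y hy => by
        simpa using hy.1)).trans ?_
      rw [Real.volume_Ioo]
      exact ENNReal.ofReal_le_ofReal (by linarith [Real.pi_lt_d2])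
    have k5 : Ioo (Real.log a) (Real.log b) ⊆ ψ '' S := fun v hv => by
      obtain ⟨z, hz, hz1, hz2⟩ := hin _ hρ
      set y0 := arg ((z - c) / I) with hy0
      have e0 : e (x + y0 * I) = z := by
        have := norm_mul_exp_arg_mul_I ((z - c) / I)
        rw [norm_div, norm_I, div_one, hz1] at this
        simp only [he]
        rw [exp_add, ← ofReal_exp, this]; field_simp; ring
      have eim : ∀ y : ℝ, (e (x + y * I)).im = c.im + Real.exp x * Real.cos y := fun y => by
        simp [he, exp_re]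
      have hmem : ∀ y ∈ uIcc 0 y0, e (x + y * I) ∈ UH ∧ |y| ≤ |y0| := fun y hy => by
        have k6 : |y| ≤ |y0| := by simpa using abs_sub_left_of_mem_uIcc hy
        have k7 := Real.cos_le_cos_of_nonneg_of_le_pi (abs_nonneg y) (abs_arg_le_pi _) k6
        rw [Real.cos_abs, Real.cos_abs] at k7
        have k8 : 0 < (e (x + y0 * I)).im := e0 ▸ hz
        rw [eim] at k8
        refine ⟨?_, k6⟩
        change 0 < (e (x + y * I)).im
        rw [eim]
        nlinarith [Real.exp_pos x]
      have k9 := intermediate_value_uIcc (a := 0) (b := y0)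
        (f := fun y : ℝ => ‖φ (x + y * I) - q‖)
        (((φd.continuousOn.comp (by fun_prop) fun y hy => (hmem y hy).1).sub
          continuousOn_const).norm)
      have v1 : a < Real.exp v := (Real.log_lt_iff_lt_exp ha).1 hv.1
      have v2 : Real.exp v < b := (Real.lt_log_iff_exp_lt (ha.trans hab)).1 hv.2
      obtain ⟨y, hy, hy'⟩ := k9 (show Real.exp v ∈ _ from mem_uIcc.2 (Or.inr ⟨by
        simp only [hφ, e0]; linarith, by
        have := hout _ hρ
        simp only [hφ, he, ofReal_zero, zero_mul, add_zero, ← ofReal_exp]; linarith⟩))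
      simp only at hy'
      refine ⟨y, ⟨?_, (hmem y hy).1, by rw [mem_preimage, mem_ofPred_eq, hy']; exact ⟨v1, v2⟩⟩, ?_⟩
      · have k10 : y ≠ y0 := fun h => by rw [h] at hy'; simp only [hφ, e0] at hy'; linarith
        have k11 : |y0| ≤ Real.pi := abs_arg_le_pi _
        have k12 := abs_le.1 k11
        simp only [mem_ofPred_eq, add_im, ofReal_im, mul_im, ofReal_re, I_im, I_re]
        rcases mem_uIcc.1 hy with h | h
        · exact ⟨by linarith [Real.pi_pos, h.1], by linarith [lt_of_le_of_ne h.2 k10]⟩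
        · exact ⟨by linarith [lt_of_le_of_ne h.1 k10.symm], by linarith [Real.pi_pos, h.2]⟩
      · simp only [hψ, hy', Real.log_pow, Real.log_exp]; push_cast; ring
    have k6 := (measure_mono k5).trans k3
    rw [Real.volume_Ioo, ← Real.log_div (ha.trans hab).ne' ha.ne', ← hΛ] at k6
    by_contra hcon
    have k7 := (setLIntegral_le_lintegral S _).trans_lt (not_le.1 hcon)
    refine k6.not_gt (lt_of_le_of_lt (add_le_add (mul_le_mul_right k4 _) le_rfl)
      (lt_of_lt_of_eq (ENNReal.add_lt_add_left (ENNReal.mul_ne_top ENNReal.ofReal_ne_top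
        ENNReal.ofReal_ne_top) (ENNReal.mul_lt_mul_right (ENNReal.ofReal_pos.2 (by positivity)).ne'
          ENNReal.ofReal_ne_top k7)) ?_))
    rw [← ENNReal.ofReal_mul (by positivity), ← ENNReal.ofReal_mul (by positivity),
      ← ENNReal.ofReal_add (by positivity) (by positivity)]
    congr 1; field_simp; ring
  have a4 : ∫⁻ x in Ioo (Real.log r1) (Real.log r2), ENNReal.ofReal (Λ ^ 2 / 7) ≤
      ∫⁻ x : ℝ, ∫⁻ y : ℝ, G (x + y * I) :=
    le_trans (setLIntegral_mono' measurableSet_Ioo a3) (setLIntegral_le_lintegral _ _)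
  rw [setLIntegral_const, Real.volume_Ioo, ← a2, ← ENNReal.ofReal_mul (by positivity),
    ← Real.log_div (h1.trans h2).ne' h1.ne'] at a4
  have a5 := (ENNReal.ofReal_le_ofReal_iff (by positivity)).1 (a4.trans a1)
  rw [← hΛ]
  nlinarith

lemma isOpen_UH : IsOpen UH := isOpen_lt continuous_const continuous_im

/-- a compact box in the half plane -/
def Kb (R η : ℝ) : Set ℂ := {w | ‖w‖ ≤ R ∧ η ≤ w.im}

lemma Kb_cpt (R η : ℝ) : IsCompact (Kb R η) :=
  isCompact_of_isClosed_isBounded ((isClosed_le continuous_norm continuous_const).inter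
    (isClosed_le continuous_const continuous_im))
    ((isBounded_closedBall (x := (0 : ℂ)) (r := R)).subset fun w hw => by simpa using hw.1)

lemma Kb_sub {R η : ℝ} (h : 0 < η) : Kb R η ⊆ UH := fun _ hw => h.trans_le hw.2

lemma cb_Kb {R η s : ℝ} {w : ℂ} (hw : w ∈ Kb R η) : closedBall w s ⊆ Kb (R + s) (η - s) :=
  fun u hu => by
    rw [mem_closedBall_iff_norm] at hu
    have h1 := (abs_le.1 ((abs_im_le_norm _).trans hu)).1
    rw [sub_im] at h1
    exact ⟨by linarith [norm_le_norm_add_norm_sub' u w, hw.1], by linarith [hw.2]⟩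

/-- the images of small discs contain discs of a fixed radius -/
lemma cover {F : ℕ → ℂ → ℂ} {G : ℂ → ℂ} {l : Filter ℕ}
    (hF : ∀ n, DifferentiableOn ℂ (F n) UH ∧ InjOn (F n) UH) (hG : InjOn G UH)
    (hl : TendstoLocallyUniformlyOn F G l UH) (R : ℝ) {η s : ℝ} (hs : 0 < s) (hη : s < η) :
    ∃ b > 0, ∀ᶠ n in l, ∀ w ∈ Kb R η, Metric.ball (F n w) b ⊆ F n '' closedBall w s := by
  rcases l.eq_or_neBot with rfl | hne
  · exact ⟨1, one_pos, by simp⟩
  have gc : ContinuousOn G UH := hl.continuousOn (.of_forall fun n => (hF n).1.continuousOn)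
  have sub : ∀ w ∈ Kb R η, closedBall w s ⊆ UH := fun w hw =>
    (cb_Kb hw).trans (Kb_sub (by linarith))
  obtain ⟨m, hm, H⟩ := ((Kb_cpt R η).prod (isCompact_sphere (0 : ℂ) s)).exists_forall_le'
    (f := fun p => ‖G (p.1 + p.2) - G p.1‖) (a := 0)
    (((gc.comp (by fun_prop) fun p hp => sub _ hp.1 (by simpa using hp.2.le)).sub
      (gc.comp continuousOn_fst fun p hp => Kb_sub (hs.trans hη) hp.1)).norm)
    fun p hp => norm_pos_iff.2 (sub_ne_zero.2 fun e => by
      have h1 := hG (sub _ hp.1 (by simpa using hp.2.le)) (Kb_sub (hs.trans hη) hp.1) e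
      have h2 : ‖p.2‖ = s := by simpa using hp.2
      rw [add_eq_left.1 h1, norm_zero] at h2
      linarith)
  have hu := (tendstoLocallyUniformlyOn_iff_forall_isCompact isOpen_UH).1 hl _
    (Kb_sub (R := R + s) (sub_pos.2 hη)) (Kb_cpt _ _)
  refine ⟨m / 2 / 2, by positivity, ?_⟩
  filter_upwards [Metric.tendstoUniformlyOn_iff.1 hu (m / 4) (by positivity)] with n hn w hw
  refine DiffContOnCl.ball_subset_image_closedBall
    ((hF n).1.diffContOnCl_ball (sub w hw)) hs (fun z hz => ?_) ?_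
  · have h1 := H (w, z - w) ⟨hw, by simpa [dist_eq_norm] using hz⟩
    have h2 := hn z (cb_Kb hw (sphere_subset_closedBall hz))
    have h3 := hn w (cb_Kb hw (mem_closedBall_self hs.le))
    simp only [add_sub_cancel] at h1
    rw [← dist_eq_norm] at h1 ⊢
    linarith [dist_triangle4 (G z) (F n z) (F n w) (G w), dist_comm (F n w) (G w)]
  · have hw' := Kb_sub (hs.trans hη) hw
    refine Frequently.filter_mono (Eventually.frequently ?_) (nhdsWithin_le_nhds (s := {w}ᶜ))
    filter_upwards [self_mem_nhdsWithin, mem_nhdsWithin_of_mem_nhds (isOpen_UH.mem_nhds hw')]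
      with z h1 h2 e using h1 ((hF n).2 h2 hw' e)

theorem mesoSt : MesoSt := by
  intro F G l hF hG hl R ε hε
  obtain ⟨b, hb, H⟩ := cover hF hG hl (R + ε) (η := ε / 2) (s := ε / 4) (by positivity)
    (by linarith)
  have l2 : 0 < Real.log 2 := Real.log_pos one_lt_two
  have e1 : 1 < Real.exp (50 / Real.log 2) := Real.one_lt_exp_iff.2 (by positivity)
  refine ⟨b / Real.exp (50 / Real.log 2), by positivity, ?_⟩
  filter_upwards [H] with n hn E hE hc y hy hR ha z hz
  by_contra hcon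
  have hy0 : 0 < y.im := hE hy
  have := el (hF n).1 (hF n).2 (c := y) (q := F n y) (half_pos hε) (half_lt_self hε)
    (a := b / Real.exp (50 / Real.log 2)) (b := b) (by positivity) (div_lt_self hb e1)
    (fun ρ hρ => by
      obtain ⟨w, hw, e⟩ := hc.intermediate_value hy hz (f := fun w => ‖w - y‖) (by fun_prop)
        (show ρ ∈ _ from ⟨by simp; linarith [hρ.1], by linarith [hρ.2, not_le.1 hcon]⟩)
      exact ⟨w, hE hw, e, ha w hw⟩)
    (fun ρ hρ => by
      have ρ0 : 0 < ρ := (half_pos hε).trans hρ.1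
      have hn' : ‖(ρ : ℂ) * I‖ = ρ := by simp [ρ0.le]
      have hk : y + ρ * I ∈ Kb (R + ε) (ε / 2) :=
        ⟨(norm_add_le _ _).trans (by linarith [hρ.2]), by simp; linarith [hρ.1]⟩
      by_contra h
      obtain ⟨w, hw, e⟩ := hn _ hk (show F n y ∈ _ from mem_ball_iff_norm'.2 (not_le.1 h))
      rw [(hF n).2 (Kb_sub (by linarith) (cb_Kb hk hw)) (hE hy) e, mem_closedBall_iff_norm',
        add_sub_cancel_left, hn'] at hw
      linarith [hρ.1])
  rw [div_div_cancel₀ hb.ne', Real.log_exp, div_div_cancel₀ hε.ne', div_mul_cancel₀ _ l2.ne'] at this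
  linarith

end Pool.Agent.Lib.MP_6359c9_pr.Obs
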