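import Pool.Agent.Lib.MP_6359c9_pr.ObSide
import Pool.Agent.Lib.MP_6359c9_pr.ObEL
import Pool.Agent.Lib.MP_6359c9_pr.ExSt
import Pool.Agent.Lib.MP_6359c9_pr.EndT
import Pool.Agent.Lib.MP_6359c9_pr.Cont

/-! The observable along the exploration. -/

namespace Pool.Agent.Lib.MP_6359c9_pr.Og

open Set Filter Topology Bornology Metric Complex Lw Xp MeasureTheory
open scoped NNReal

section far

variable {b : ℝ≥0 → ℂ} {t : ℝ≥0} {L T : ℝ} {w w' : ℂ} (h : Smp b) (hc : Cap b)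
  (hT : (t : ℝ) ≤ T) (hM : ∀ s ≤ t, |drv b s| ≤ L)

include h hc hT hM

lemma far_rad {u : ℝ≥0} (hu : u ≤ t) : ‖b u‖ ≤ L + 3 * √T := by
  have := h.rad hc hM hu
  have := Real.sqrt_le_sqrt hT
  linarith

lemma far_away (hw : w ∈ UH) (hn : L + 3 * √T + 1 / 2 ≤ ‖w‖) : w ∈ Sl b t ∧ ∃ g, g 0 = w ∧
    g t = gm b t w ∧ Ge.Sol 2 (Ge.rl (drv b)) t g ∧
      ∀ s ∈ Icc (0 : ℝ) t, 1 / 4 ≤ ‖g s - Ge.rl (drv b) s‖ := by
  have m : w ∈ Sl b t := ⟨hw, fun ⟨u, hu, e⟩ => by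
    have := far_rad h hc hT hM hu
    rw [e] at this
    linarith⟩
  have h1 := Real.sq_sqrt (t.coe_nonneg.trans hT)
  have h2 := Real.sqrt_nonneg T
  have bd : ∀ s ∈ Icc (0 : ℝ) t, |Ge.rl (drv b) s| ≤ L := fun s hs =>
    hM _ (Real.toNNReal_le_iff_le_coe.2 hs.2)
  have a2 : |(2 : ℝ)| * t ≤ ((3 * √T + 1 / 2) / 2) ^ 2 := by rw [abs_two]; nlinarith
  obtain ⟨g, e, H, k⟩ := Ge.far_sol (σ := 2) (Ge.rl_cont h.cont_drv) t.coe_nonneg
    (a := (3 * √T + 1 / 2) / 2) (by positivity) a2 bd (z := w) (by linarith)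
  refine ⟨m, g, e, ?_, H, fun s hs => ?_⟩
  · rw [H.uniq (Ge.rl_cont h.cont_drv) (h.sol hc (.of_sl m))
      (by simp [e, h.ge_zero (le_of_lt hw)]) ⟨t.coe_nonneg, le_rfl⟩]
    simpa using h.ge_eq m
  · have k1 := (k s hs).trans ((div_le_iff₀ (by positivity)).2 (a2.trans_eq (sq _)))
    have k2 := bd s hs
    rw [← Real.norm_eq_abs, ← norm_real] at k2
    have k3 := norm_add₃_le (a := g s - Ge.rl (drv b) s) (b := (Ge.rl (drv b) s : ℂ))
      (c := -(g s - w))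
    rw [norm_neg, show g s - Ge.rl (drv b) s + Ge.rl (drv b) s + -(g s - w) = w by ring] at k3
    linarith

lemma far_im (hw : w ∈ UH) (hn : L + 3 * √T + 1 / 2 ≤ ‖w‖) :
    w.im * Real.exp (-32 * T) ≤ (gm b t w).im := by
  obtain ⟨-, g, e, e', H, k⟩ := far_away h hc hT hM hw hn
  rw [← e', H.im (Ge.rl_cont h.cont_drv) ⟨t.coe_nonneg, le_rfl⟩, e]
  refine mul_le_mul_of_nonneg_left (Real.exp_le_exp.2 ?_) (le_of_lt hw)
  have := intervalIntegral.norm_integral_le_of_norm_le_const (a := 0) (b := t) (C := 16)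
    (f := fun u => (normSq (g u - Ge.rl (drv b) u))⁻¹) fun u hu => by
      rw [uIoc_of_le t.coe_nonneg] at hu
      have := k u ⟨hu.1.le, hu.2⟩
      rw [normSq_eq_norm_sq, Real.norm_of_nonneg (by positivity)]
      exact inv_le_of_inv_le₀ (by norm_num) (by nlinarith)
  rw [sub_zero, abs_of_nonneg t.coe_nonneg] at this
  have := (le_abs_self _).trans this
  linarith

lemma far_lip (hw : w ∈ UH) (hn : L + 3 * √T + 1 / 2 ≤ ‖w‖) (hw' : w' ∈ UH)
    (hn' : L + 3 * √T + 1 / 2 ≤ ‖w'‖) :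
    ‖gm b t w - gm b t w'‖ ≤ ‖w - w'‖ * Real.exp (32 * T) := by
  obtain ⟨-, g, e, e', H, k⟩ := far_away h hc hT hM hw hn
  obtain ⟨-, g', f, f', H', k'⟩ := far_away h hc hT hM hw' hn'
  rw [← e', ← f', H.diff (Ge.rl_cont h.cont_drv) H' ⟨t.coe_nonneg, le_rfl⟩, e, f, norm_mul]
  refine mul_le_mul_of_nonneg_left ((norm_exp_le_exp_norm _).trans (Real.exp_le_exp.2 ?_))
    (norm_nonneg _)
  have := intervalIntegral.norm_integral_le_of_norm_le_const (a := 0) (b := t) (C := 16)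
    (f := fun u => ((g u - Ge.rl (drv b) u) * (g' u - Ge.rl (drv b) u))⁻¹) fun u hu => by
      rw [uIoc_of_le t.coe_nonneg] at hu
      have := k u ⟨hu.1.le, hu.2⟩
      have := k' u ⟨hu.1.le, hu.2⟩
      rw [norm_inv, norm_mul]
      exact inv_le_of_inv_le₀ (by norm_num) (by nlinarith)
  rw [sub_zero, abs_of_nonneg t.coe_nonneg] at this
  rw [norm_mul, norm_neg, norm_real, Real.norm_ofNat]
  linarith

end far

lemma ex_av {ρ : ℂ → ℝ} (hρ : End.Bump ρ) {M : Set (V → ℤ)} (hM : M.Finite) (d : ℝ) {r : ℝ}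
    (hr : 0 ≤ r) (c : ℂ) : Ex M (fun g => End.av ρ r (ext d g) c) =
      End.av ρ r (fun z => mean M fun g => ext d g z) c := by
  have e : ∀ z, (mean M fun g => ext d g z) = (M.ncard : ℝ)⁻¹ * ∑ g ∈ hM.toFinset, ext d g z :=
    fun z => (ex_eq hM _).trans (div_eq_inv_mul _ _)
  simp only [e]
  rw [End.av_smul, ex_eq hM, div_eq_inv_mul]
  congr 1
  simp only [End.av, Finset.sum_mul]
  exact (integral_finsetSum _ fun g _ => hρ.intav hr (contSt d g).continuousOn).symm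

lemma av_dep {ρ : ℂ → ℝ} (hρ : End.Bump ρ) {d r : ℝ} (hd : 0 < d) (hr : 0 ≤ r) {c : ℂ} {R : Set V}
    (h : ∀ y ∈ closedBall c r, ∀ v, ‖pos d v - y‖ ≤ d → v ∈ R) :
    DependsOn (fun g => End.av ρ r (ext d g) c) R := fun x y e =>
  hρ.av_congr hr fun z hz => by
    rw [ext_eq, ext_eq, exR, exR]
    exact Finset.sum_congr rfl fun i _ => by rw [e _ (h z hz _ (vt_near hd z i))]

theorem obsSt (hO : Obs.ObsSt) (hG : GeoSt) : ObsSt := fun A L T z hz hn => by
  classical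
  obtain ⟨ρ, hρ, -⟩ := End.ex_bump
  choose σ hσ geo using hG A
  have z0 : 0 < z.im := hz
  have ij : ∀ n, DifferentiableOn ℂ (A.Ψ n) UH ∧ InjOn (A.Ψ n) UH := fun n =>
    ⟨(A.chart n).hol, (A.chart n).inj.mono Un.UH_sub⟩
  have lim : Tendsto (fun n => A.Ψ n z) atTop (𝓝 (A.ψ z)) := A.conv.tendsto_at hz
  have cov : ∀ s > (0 : ℝ), s < z.im → ∃ r > (0 : ℝ), ∀ᶠ n in atTop,
      closedBall (A.ψ z) r ⊆ A.Ψ n '' closedBall z s := fun s s0 s1 => by
    obtain ⟨c, c0, hc⟩ := Obs.cover ij A.bij.injOn A.conv ‖z‖ s0 s1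
    refine ⟨c / 3, by positivity, (hc.and (lim (ball_mem_nhds _ (show 0 < c / 3 by
      positivity)))).mono fun n hn y hy => hn.1 z ⟨le_rfl, le_rfl⟩ ?_⟩
    have h1 : dist (A.Ψ n z) (A.ψ z) < c / 3 := hn.2
    have h2 := dist_triangle_right y (A.Ψ n z) (A.ψ z)
    rw [mem_closedBall] at hy
    rw [Metric.mem_ball]
    linarith
  set s0 := min (1 / 2) (z.im / 2) with hs0
  have s1 : s0 ≤ 1 / 2 := min_le_left _ _
  have s2 : s0 ≤ z.im / 2 := min_le_right _ _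
  have s3 : 0 < s0 := lt_min (by norm_num) (by linarith)
  obtain ⟨r, r0, hr⟩ := cov s0 s3 (by linarith)
  set K := Obs.Kb (‖z‖ + 1 / 2 + 17 * (L + 3 * √T)) (z.im / 2 * Real.exp (-32 * T)) with hK
  have KU : K ⊆ UH := Obs.Kb_sub (by positivity)
  have nb : ∀ w ∈ closedBall z s0, w ∈ UH ∧ z.im / 2 ≤ w.im ∧ L + 3 * √T + 1 / 2 ≤ ‖w‖ ∧
      ‖w‖ ≤ ‖z‖ + 1 / 2 := fun w hw => by
    rw [mem_closedBall_iff_norm] at hw
    have h1 := abs_le.1 ((abs_im_le_norm _).trans hw)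
    have h2 := abs_le.1 ((abs_norm_sub_norm_le w z).trans hw)
    rw [sub_im] at h1
    exact ⟨mem_UH.2 (by linarith), by linarith, by linarith, by linarith⟩
  have inK : ∀ n g k, A.Good L T n g k → ∀ w ∈ closedBall z s0,
      w ∈ Sl (A.p n g) (A.t n g k) ∧ hm (A.p n g) (A.t n g k) w ∈ K := fun n g k G w hw => by
    obtain ⟨w1, w2, w3, w4⟩ := nb w hw
    have h := A.trc n g G.mem
    have m := (far_away h.smp h.cap G.le G.bd w1 w3).1
    have h1 := hm_move h.smp (fun u hu => far_rad h.smp h.cap G.le G.bd hu) m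
    have h2 := far_im h.smp h.cap G.le G.bd w1 w3
    have h3 := norm_le_norm_add_norm_sub' (hm (A.p n g) (A.t n g k) w) w
    refine ⟨m, by linarith, ?_⟩
    simp only [hm, sub_im, ofReal_im, sub_zero]
    exact (mul_le_mul_of_nonneg_right w2 (Real.exp_pos _).le).trans h2
  obtain ⟨B0, hB0⟩ := A.bdd.exists_norm_le
  set B := max (18 * (L + 3 * √T)) (B0 + 1) with hB
  refine ⟨fun n g => Real.pi * (1 - 2 * σ n) * (End.av ρ r (ext (A.δ n) g) (A.ψ z) - σ n),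
    fun η hη => ?_⟩
  have ua : UniformContinuousOn arg K := (Obs.Kb_cpt _ _).uniformContinuousOn_of_continuous
    fun w hw => (continuousAt_arg (.inr (ne_of_gt (KU hw)))).continuousWithinAt
  obtain ⟨θ, θ0, hθ⟩ := Metric.uniformContinuousOn_iff_le.1 ua (η / 2) (by positivity)
  set s := min s0 (θ / Real.exp (32 * T)) with hs
  have t1 : s ≤ s0 := min_le_left _ _
  have t2 : s * Real.exp (32 * T) ≤ θ := (le_div_iff₀ (Real.exp_pos _)).1 (min_le_right _ _)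
  obtain ⟨r', r1, hr'⟩ := cov s (lt_min s3 (by positivity)) (by linarith)
  suffices H : ∀ a : ℤ, a = 0 ∨ a = 1 → ∀ᶠ n in atTop, σ n = a → ∀ g k, A.Good L T n g k →
      |mean {g' ∈ A.S n | (A.X n).hist k g' = (A.X n).hist k g} (fun g => Real.pi *
        (1 - 2 * σ n) * (End.av ρ r (ext (A.δ n) g) (A.ψ z) - σ n)) -
        (gm (A.p n g) (A.t n g k) z - drv (A.p n g) (A.t n g k)).arg| ≤ η from
    ((H 0 (.inl rfl)).and (H 1 (.inr rfl))).mono fun n h => (hσ n).elim h.1 h.2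
  intro a ha
  by_contra c
  obtain ⟨φ, hφ, k⟩ := extraction_of_frequently_atTop
    ((not_eventually.1 c).and_eventually (hr.and hr'))
  simp only [not_forall, not_le, exists_prop] at k
  choose k1 k2 k3 using k
  choose k0 g k G k1 using k1
  choose w w1 w2 using fun n => k3 n (mem_closedBall_self r1.le)
  have h := fun n => A.trc _ _ (G n).mem
  have ad := fun n => (A.of (φ n)).mem (G n).mem
  have rad := fun n u hu => far_rad (h n).smp (h n).cap (G n).le (G n).bd (u := u) hu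
  have w3 := fun n => inK _ _ _ (G n) _ (closedBall_subset_closedBall t1 (w1 n))
  obtain ⟨o1, o2⟩ := hO ρ hρ a ha (fun n => A.δ (φ n))
    (fun n => ((A.X (φ n)).sat (g n) (k n)).D.wall) (fun n => ((A.X (φ n)).sat (g n) (k n)).xi)
    (fun n v => A.Ψ (φ n) (fm (A.p (φ n) (g n)) (A.t (φ n) (g n) (k n)) v))
    (fun n => hm (A.p (φ n) (g n)) (A.t (φ n) (g n) (k n)) (w n)) (A.ψ z) r B K
    (fun n => A.dpos _) (A.dlim.comp hφ.tendsto_atTop)
    (fun n => k0 n ▸ geo _ _ (G n).mem _ _ ((ad n).after (G n).lt) B fun u hu =>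
      le_max_of_le_left (by linarith [rad n u hu]))
    (fun K' K1 K2 => by
      obtain ⟨R, hR⟩ := K2.isBounded.exists_norm_le
      obtain ⟨e, e0, he⟩ : ∃ e > (0 : ℝ), ∀ v ∈ K', e ≤ v.im :=
        K2.exists_forall_le' continuous_im.continuousOn K1
      have u := (tendstoLocallyUniformlyOn_iff_forall_isCompact isOpen_UH).1 A.conv _
        (Obs.Kb_sub (R := R + 17 * (L + 3 * √T)) e0) (Obs.Kb_cpt _ _)
      refine (hφ.tendsto_atTop.eventually (Metric.tendstoUniformlyOn_iff.1 u 1 one_pos)).mono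
        fun n hn v hv => le_max_of_le_right ?_
      have m := fm_mem (t := A.t (φ n) (g n) (k n)) (h n).smp (K1 hv)
      have h1 := hm_move (h n).smp (rad n) m
      rw [hm_fm (h n).smp (K1 hv), norm_sub_rev] at h1
      have h2 := norm_le_norm_add_norm_sub' (fm (A.p (φ n) (g n)) (A.t (φ n) (g n) (k n)) v) v
      have h3 := hn _ ⟨show ‖fm (A.p (φ n) (g n)) (A.t (φ n) (g n) (k n)) v‖ ≤ _ by
        linarith [hR v hv], (he v hv).trans (by
          rw [fm_eq (h n).smp]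
          simpa using ((h n).smp.hyd _).im_inv (add_mem (K1 hv) _))⟩
      have h4 := hB0 _ (A.bij.mapsTo m.1)
      rw [dist_comm, dist_eq_norm] at h3
      exact (norm_le_norm_add_norm_sub' _ _).trans (add_le_add h4 h3.le))
    r0 KU (Obs.Kb_cpt _ _)
    (fun n y hy => by
      obtain ⟨v, hv, rfl⟩ := k2 n hy
      obtain ⟨m, m'⟩ := inK _ _ _ (G n) v hv
      exact ⟨_, m', by simp only [fm_hm (h n).smp m]⟩)
    fun n => ⟨(w3 n).2, by simp only [fm_hm (h n).smp (w3 n).1, w2 n]⟩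
  have pi0 := Real.pi_pos
  obtain ⟨n, n1, n2⟩ := (o2.and (o1 (closedBall_mem_nhds 0
    (show 0 < η / 2 / Real.pi by positivity)))).exists
  refine (k1 n).not_ge ?_
  have hg : g n ∈ HD (A.X (φ n)).R (A.Q (φ n)).xi := (A.of _).R ▸ (G n).mem
  have m := St.markov (A.of (φ n)).adm hg (G n).lt (av_dep hρ (A.dpos _) r0.le n1)
  have ok : Ok {y ∈ HD (A.X (φ n)).R (A.Q (φ n)).xi |
      (A.X (φ n)).hist (k n) y = (A.X (φ n)).hist (k n) (g n)} :=
    Ok.inter (A.of (φ n)).adm.ok.1 hg rfl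
  rw [ex_av hρ (St.xi_adm _).ok.1 _ r0.le] at m
  rw [(A.of _).R] at m ok
  have zz := nb z (mem_closedBall_self s3.le)
  have ww := nb _ (closedBall_subset_closedBall t1 (w1 n))
  have l := far_lip (h n).smp (h n).cap (G n).le (G n).bd ww.1 ww.2.2.1 zz.1 zz.2.2.1
  have l2 := hθ _ (w3 n).2 _ (inK _ _ _ (G n) z (mem_closedBall_self s3.le)).2 (by
    rw [dist_eq_norm, hm, hm, sub_sub_sub_cancel_right]
    exact l.trans ((mul_le_mul_of_nonneg_right (mem_closedBall_iff_norm.1 (w1 n))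
      (Real.exp_pos _).le).trans t2))
  change |Ex _ _ - arg (hm _ _ z)| ≤ η
  rw [ex_mul, ex_sub, ex_const ok, m, k0 n]
  have n3 := mem_closedBall_zero_iff.1 n2
  rw [Real.dist_eq] at l2
  change |End.av ρ r (fun z => mean (HD (St.R _) _) _) _ - _| ≤ _ at n3
  generalize End.av ρ r _ _ = x at n3 ⊢
  generalize arg (hm _ _ z) = y at l2 ⊢
  generalize arg (hm _ _ (w n)) = y' at l2 n3
  rw [le_div_iff₀ pi0, ← abs_of_pos pi0, ← abs_mul, abs_of_pos pi0, sub_mul, add_mul, mul_assoc,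
    div_mul_cancel₀ _ pi0.ne', abs_le] at n3
  rw [abs_le] at l2 ⊢
  rcases ha with rfl | rfl <;> push_cast at n3 ⊢ <;> constructor <;> linarith [n3.1, n3.2]

end Pool.Agent.Lib.MP_6359c9_pr.Og
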