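import Pool.Agent.Lib.MP_6359c9_pr.UnD
import Pool.Agent.Lib.MP_6359c9_pr.SlSpec
import Pool.Agent.Lib.MP_6359c9_pr.Cont

/-! The chart, the two arcs, the capacity parametrisation and the times of the steps. -/

namespace Pool.Agent.Lib.MP_6359c9_pr

open Set Filter Topology Bornology Metric Lw Un Xp
open scoped NNReal

namespace Un

/-- the extension is affine on an edge -/
lemma ext_edge {d : ℝ} (hd : 0 < d) (g : V → ℤ) {v w : V} (h : Adj v w) {u : ℝ} (u0 : 0 ≤ u)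
    (u1 : u ≤ 1) : ext d g ((1 - u) • pos d v + u • pos d w) = (1 - u) * g v + u * g w := by
  classical
  set z := (1 - u) • pos d v + u • pos d w with hz
  have e1 : cx d z = (1 - u) * v.1 + u * w.1 := by rw [hz, cx_comb, cx_pos' hd, cx_pos' hd]
  have e2 : cy d z = (1 - u) * v.2 + u * w.2 := by rw [hz, cy_comb, cy_pos' hd, cy_pos' hd]
  rw [ext_tent d g z ({v, w} ∪ Finset.Icc (⌊cx d z⌋, ⌊cy d z⌋) (⌊cx d z⌋ + 1, ⌊cy d z⌋ + 1))
    fun y a b c e => Finset.mem_union_right _ (Finset.mem_Icc.2 ⟨⟨a, c⟩, b, e⟩),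
    ← Finset.sum_subset Finset.subset_union_left fun y _ hy => ?_, Finset.sum_pair h.ne, e1, e2]
  · have k : ∀ (r : ℝ) (a b : ℤ), 0 ≤ r → r ≤ 1 → Adj 0 (a, b) → tent (r * a) (r * b) = 1 - r := by
      intro r a b r0 r1 h
      have : max (max |r * a| |r * b|) |r * a + r * b| = r := by
        simp only [Adj, Prod.fst_zero, Prod.snd_zero, zero_add, zero_sub] at h
        rcases h with h | h | h | h | h | h <;> simp [h.1, h.2, abs_of_nonneg r0, r0]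
      rw [tent, this, max_eq_right (sub_nonneg.2 r1)]
    have k1 := k u (w.1 - v.1) (w.2 - v.2) u0 u1 (by simp only [Adj] at h ⊢; simp; omega)
    have k2 := k (1 - u) (v.1 - w.1) (v.2 - w.2) (by linarith) (by linarith)
      (by simp only [Adj] at h ⊢; simp; omega)
    push_cast at k1 k2
    rw [show (1 - u) * v.1 + u * w.1 - v.1 = u * (w.1 - v.1) by ring,
      show (1 - u) * v.2 + u * w.2 - v.2 = u * (w.2 - v.2) by ring,
      show (1 - u) * v.1 + u * w.1 - w.1 = (1 - u) * (v.1 - w.1) by ring,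
      show (1 - u) * v.2 + u * w.2 - w.2 = (1 - u) * (v.2 - w.2) by ring, k1, k2]
    ring
  · have cv : ∀ p q : ℤ, (1 ≤ p ∧ 1 ≤ q) ∨ (p ≤ -1 ∧ q ≤ -1) → 1 ≤ |(1 - u) * p + u * q| := by
      rintro p q (⟨a, b⟩ | ⟨a, b⟩)
      · have a' : (1 : ℝ) ≤ p := by exact_mod_cast a
        have b' : (1 : ℝ) ≤ q := by exact_mod_cast b
        exact le_abs.2 (Or.inl (by nlinarith))
      · have a' : (p : ℝ) ≤ -1 := by exact_mod_cast a
        have b' : (q : ℝ) ≤ -1 := by exact_mod_cast b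
        exact le_abs.2 (Or.inr (by nlinarith))
    simp only [Finset.mem_insert, Finset.mem_singleton, not_or, Prod.ext_iff] at hy
    have c1 := cv (v.1 - y.1) (w.1 - y.1)
    have c2 := cv (v.2 - y.2) (w.2 - y.2)
    have c3 := cv (v.1 - y.1 + (v.2 - y.2)) (w.1 - y.1 + (w.2 - y.2))
    rw [tent_zero, mul_zero]
    rw [e1, e2]
    have k : ∀ p q p' q' : ℤ, Adj (p, q) (p', q') → (p ≠ 0 ∨ q ≠ 0) → (p' ≠ 0 ∨ q' ≠ 0) →
        ((1 ≤ p ∧ 1 ≤ p') ∨ (p ≤ -1 ∧ p' ≤ -1)) ∨ ((1 ≤ q ∧ 1 ≤ q') ∨ (q ≤ -1 ∧ q' ≤ -1)) ∨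
        ((1 ≤ p + q ∧ 1 ≤ p' + q') ∨ (p + q ≤ -1 ∧ p' + q' ≤ -1)) := by
      intro p q p' q' h h1 h2
      rcases lt_trichotomy p 0 with a | rfl | a <;> rcases lt_trichotomy p' 0 with b | rfl | b <;>
        simp only [Adj] at h <;> omega
    refine Or.imp (fun c => ?_) (Or.imp (fun c => ?_) fun c => ?_) (k (v.1 - y.1) (v.2 - y.2)
      (w.1 - y.1) (w.2 - y.2) (h.imp (by omega) (Or.imp (by omega) (Or.imp (by omega) (Or.imp
        (by omega) (Or.imp (by omega) (by omega)))))) (by omega) (by omega))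
    · convert c1 c using 2; push_cast; ring
    · convert c2 c using 2; push_cast; ring
    · convert c3 c using 2; push_cast; ring

lemma poly_seg (f : ℕ → ℂ) {n k : ℕ} (hk : k < n) :
    poly f n '' Icc k (k + 1) = segment ℝ (f k) (f (k + 1)) := by
  rw [segment_eq_image]
  refine Subset.antisymm ?_ ?_ <;> rintro _ ⟨s, hs, rfl⟩
  · exact ⟨s - k, ⟨by linarith [hs.1], by linarith [hs.2]⟩, by
      simp only; rw [← poly_eq f hk (by linarith [hs.1]) (by linarith [hs.2]), add_sub_cancel]⟩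
  · exact ⟨k + s, ⟨by linarith [hs.1], by linarith [hs.2]⟩, poly_eq f hk hs.1 hs.2⟩

lemma poly_nat (f : ℕ → ℂ) {n k : ℕ} (h0 : 0 < n) (hk : k ≤ n) : poly f n k = f k := by
  cases k with
  | zero => simpa using poly_eq f h0 le_rfl zero_le_one
  | succ k => simpa using poly_eq f (k := k) hk zero_le_one le_rfl

end Un

theorem unifSt : UnifSt := fun _ hd Q _ h => Q.chart_of_unif hd h

lemma Dom.ext_bp {d : ℝ} (hd : 0 < d) (Q : Dom d) {g : V → ℤ} (hg : g ∈ HD Q.R Q.xi) {s : ℝ}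
    (h0 : 0 ≤ s) (h1 : s < Q.n) :
    (s < Q.m - 1 / 2 ∨ Q.n - 1 / 2 < s → 1 / 2 < ext d g (Q.bp s)) ∧
      (Q.m - 1 / 2 < s → s < Q.n - 1 / 2 → ext d g (Q.bp s) < 1 / 2) := by
  have G : ∀ i < Q.n, g (Q.c i) = Q.xi (Q.c i) := fun i hi => hg.2 _ (Q.c_out hd hi)
  have G1 : ∀ i < Q.m, g (Q.c i) = 1 := fun i hi => by rw [G i (hi.trans Q.m_lt), Q.xi_lt hi]
  have G0 : ∀ i, Q.m ≤ i → i < Q.n → g (Q.c i) = 0 := fun i h hi => by rw [G i hi, Q.xi_ge h hi]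
  have hk : ⌊s⌋₊ < Q.n := (Nat.floor_lt h0).2 h1
  have u0 := Nat.floor_le h0
  have u1 := Nat.lt_floor_add_one s
  generalize ⌊s⌋₊ = k at hk u0 u1
  obtain ⟨u, rfl⟩ : ∃ u, s = k + u := ⟨s - k, by ring⟩
  rw [Q.bp_eq hk (by linarith) (by linarith), ext_edge hd g (Q.adj k hk) (by linarith) (by linarith)]
  have mn : (Q.m : ℝ) + 1 ≤ Q.n := by exact_mod_cast Q.m_lt
  rcases lt_trichotomy (k + 1) Q.m with c | c | c
  · have : (k : ℝ) + 1 + 1 ≤ Q.m := by exact_mod_cast c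
    rw [G1 k (by omega), G1 _ c]
    exact ⟨fun _ => by norm_num, fun h => by linarith⟩
  · have : (k : ℝ) + 1 = Q.m := by exact_mod_cast c
    rw [G1 k (by omega), G0 _ c.ge (c ▸ Q.m_lt)]
    push_cast
    exact ⟨fun h => by rcases h with h | h <;> linarith, fun h _ => by linarith⟩
  · have : (Q.m : ℝ) ≤ k := by exact_mod_cast Nat.lt_succ_iff.1 c
    rw [G0 k (by omega) hk]
    rcases (Nat.succ_le_of_lt hk).lt_or_eq with e | e
    · have : (k : ℝ) + 1 + 1 ≤ Q.n := by exact_mod_cast e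
      rw [G0 _ c.le e]
      exact ⟨fun h => by rcases h with h | h <;> linarith, fun _ _ => by norm_num⟩
    · have : (k : ℝ) + 1 = Q.n := by exact_mod_cast e
      rw [show k + 1 = Q.n from e, Q.closed, G1 0 Q.m_pos]
      push_cast
      exact ⟨fun h => by rcases h with h | h <;> linarith, fun _ _ => by linarith⟩

theorem arcSt : ArcSt := by
  intro d hd Q Ψ H
  rw [Q.a_eq, Q.b_eq] at H
  obtain ⟨x, -, h2, h3, h4, h5⟩ := Q.order hd H
  have mn : (Q.m : ℝ) + 1 ≤ Q.n := by exact_mod_cast Q.m_lt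
  have m0 : (1 : ℝ) ≤ Q.m := by exact_mod_cast Q.m_pos
  have key : ∀ g ∈ HD Q.R Q.xi, ∀ s ∈ Ioo ((Q.m : ℝ) - 1 / 2 - Q.n) (Q.m - 1 / 2),
      (-1 / 2 < s → 1 / 2 < ext d g (Ψ (x s))) ∧ (s < -1 / 2 → ext d g (Ψ (x s)) < 1 / 2) := by
    intro g hg s hs
    rw [h2 s hs]
    rcases le_or_gt 0 s with c | c
    · exact ⟨fun _ => (Q.ext_bp hd hg c (by linarith [hs.2])).1 (Or.inl hs.2), fun h => by linarith⟩
    · rw [← Q.bp_per]
      have := Q.ext_bp hd hg (s := s + Q.n) (by linarith [hs.1]) (by linarith)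
      exact ⟨fun h => this.1 (Or.inr (by linarith)),
        fun h => this.2 (by linarith [hs.1]) (by linarith)⟩
  rcases h5 with h5 | h5
  · refine ⟨0, Or.inl rfl, fun g hg y hy => ?_⟩
    obtain ⟨s, hs, rfl⟩ := h3.ge (mem_univ y)
    rcases hy.lt_or_gt with c | c
    · have := (key g hg s hs).2 ((h5.lt_iff_lt hs Q.half_mem).1 (h4 ▸ c))
      exact ⟨by simp [c, this.le, -one_div], this.ne⟩
    · have := (key g hg s hs).1 ((h5.lt_iff_lt Q.half_mem hs).1 (h4 ▸ c))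
      exact ⟨by simp [c.not_gt, this, -one_div], this.ne'⟩
  · refine ⟨1, Or.inr rfl, fun g hg y hy => ?_⟩
    obtain ⟨s, hs, rfl⟩ := h3.ge (mem_univ y)
    rcases hy.lt_or_gt with c | c
    · have := (key g hg s hs).1 ((h5.lt_iff_gt hs Q.half_mem).1 (h4 ▸ c))
      exact ⟨by simp [c, this, -one_div], this.ne'⟩
    · have := (key g hg s hs).2 ((h5.lt_iff_gt Q.half_mem hs).1 (h4 ▸ c))
      exact ⟨by simp [c.not_gt, this.le, -one_div], this.ne⟩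

namespace Trk

variable {Ψ : ℂ → ℂ} {Γ Γ' : ℝ → ℂ} {K K' s s' : ℝ} {p p' : ℝ≥0 → ℂ} {σ σ' : ℝ → ℝ≥0}
  (h : Trk Ψ Γ K p σ)
include h

lemma img_Ici (hs : s ∈ Ico 0 K) : σ '' Ico s K = Ici (σ s) := by
  refine Subset.antisymm ?_ fun t ht => ?_
  · rintro _ ⟨u, hu, rfl⟩
    exact h.mono.monotoneOn hs ⟨hs.1.trans hu.1, hu.2⟩ hu.1
  · obtain ⟨u, hu, rfl⟩ := h.surj t
    exact ⟨u, ⟨(h.mono.le_iff_le hs hu).1 ht, hu.2⟩, rfl⟩

lemma img_Icc (hs : s ∈ Ico 0 K) (hs' : s' ∈ Ico 0 K) : σ '' Icc s s' = Icc (σ s) (σ s') := by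
  refine Subset.antisymm ?_ fun t ht => ?_
  · rintro _ ⟨u, hu, rfl⟩
    have : u ∈ Ico 0 K := ⟨hs.1.trans hu.1, hu.2.trans_lt hs'.2⟩
    exact ⟨h.mono.monotoneOn hs this hu.1, h.mono.monotoneOn this hs' hu.2⟩
  · obtain ⟨u, hu, rfl⟩ := h.surj t
    exact ⟨u, ⟨(h.mono.le_iff_le hs hu).1 ht.1, (h.mono.le_iff_le hu hs').1 ht.2⟩, rfl⟩

lemma img_Iic (hs : s ∈ Ico 0 K) : σ '' Icc 0 s = Iic (σ s) := by
  rw [h.img_Icc ⟨le_rfl, h.pos⟩ hs, h.s0, ← bot_eq_zero, Icc_bot]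

lemma img {A : Set ℝ} (hA : A ⊆ Ico 0 K) : (fun u => Ψ (p u)) '' (σ '' A) = Γ '' A := by
  rw [image_image]; exact image_congr fun s hs => h.eq s (hA hs)

theorem trc : Trc Ψ (Γ '' Ioo 0 K) p := by
  refine ⟨h.smp, h.cap, h.zero, h.inf, ?_⟩
  rw [image_image, ← h.img Ioo_subset_Ico_self]
  congr 1
  refine Subset.antisymm (fun t ht => ?_) ?_
  · obtain ⟨u, hu, rfl⟩ := h.surj t
    exact ⟨u, ⟨(h.mono.lt_iff_lt ⟨le_rfl, h.pos⟩ hu).1 (h.s0 ▸ ht), hu.2⟩, rfl⟩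
  · rintro _ ⟨u, hu, rfl⟩
    exact h.s0 ▸ h.mono ⟨le_rfl, h.pos⟩ (Ioo_subset_Ico_self hu) hu.1

theorem adapt (h' : Trk Ψ Γ' K' p' σ') (hi : InjOn Ψ UC) {k : ℝ} (hk : k < K) (hk' : k < K')
    (e : EqOn Γ Γ' (Icc 0 k)) (hs : s ∈ Icc 0 k) :
    σ s = σ' s ∧ p (σ s) = p' (σ s) ∧ drv p (σ s) = drv p' (σ s) := by
  have e1 : ∀ s ∈ Icc 0 k, p (σ s) = p' (σ' s) := fun s hs =>
    hi (h.smp.im_nonneg _) (h'.smp.im_nonneg _) (by
      rw [h.eq s ⟨hs.1, hs.2.trans_lt hk⟩, h'.eq s ⟨hs.1, hs.2.trans_lt hk'⟩, e hs])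
  have e2 : Sl p (σ s) = Sl p' (σ' s) := by
    rw [Sl, Sl, ← h.img_Iic ⟨hs.1, hs.2.trans_lt hk⟩, ← h'.img_Iic ⟨hs.1, hs.2.trans_lt hk'⟩,
      image_image, image_image, image_congr fun u hu => e1 u ⟨hu.1, hu.2.trans hs.2⟩]
  have e3 := gc_congr e2
  have e4 : σ s = σ' s := by
    have : MP_6359c9_pr.cap p (σ s) = MP_6359c9_pr.cap p' (σ' s) := congrArg Prod.snd e3
    rw [h.smp.cap_iff.1 h.cap, h'.smp.cap_iff.1 h'.cap] at this
    exact NNReal.eq (by linarith)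
  refine ⟨e4, e4 ▸ e1 s hs, ?_⟩
  have e5 : gm p (σ s) = gm p' (σ' s) := congrArg Prod.fst e3
  have t1 := h'.smp.tip (σ' s)
  rw [← e5, ← e2, ← e1 s hs, ← e4] at t1
  exact Complex.ofReal_injective (tendsto_nhds_unique (h.smp.tendsto_drv _) (t1.comp
    (tendsto_nhdsWithin_iff.2 ⟨h.smp.cont.continuousAt.mono_left nhdsWithin_le_nhds,
      eventually_mem_nhdsWithin.mono fun _ hu => h.smp.mem_sl hu⟩)))

end Trk

theorem Trc.unique {Ψ : ℂ → ℂ} {G : Set ℂ} {p p' : ℝ≥0 → ℂ} (h : Trc Ψ G p) (h' : Trc Ψ G p')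
    (hi : InjOn Ψ UC) : p' = p := by
  refine h.smp.cap_unique h.cap (IsClosedEmbedding.of_continuous_injective_isClosedMap h.smp.cont
    h.smp.inj (isProperMap_iff_tendsto_cocompact.2 ⟨h.smp.cont, ?_⟩).isClosedMap).isInducing
    h'.smp h'.cap ?_
  · rw [cocompact_eq_atTop, ← cobounded_eq_cocompact]; exact h.inf
  · rintro _ ⟨t, rfl⟩
    rcases (zero_le (a := t)).eq_or_lt with rfl | ht
    · exact ⟨0, h.zero.trans h'.zero.symm⟩
    · obtain ⟨_, ⟨u, -, rfl⟩, e⟩ := h.img.ge (h'.img.le ⟨_, ⟨t, ht, rfl⟩, rfl⟩)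
      exact ⟨u, hi (h.smp.im_nonneg _) (h'.smp.im_nonneg _) e⟩

/-- the interface is a simple arc from `a` to `b` in the domain -/
def CvSt : Prop := ∀ (d : ℝ), 0 < d → ∀ (Q : Dom d) (s : ℤ) (X : St s), X.Of Q →
  ∀ g ∈ HD Q.R Q.xi, 0 < X.K g ∧ InjOn (X.Gam d g) (Icc 0 (X.K g)) ∧ mid d (X.e g 0) = Q.a ∧
    mid d (X.e g (X.K g)) = Q.b ∧ (∀ t ∈ Ioo (0 : ℝ) (X.K g), X.Gam d g t ∈ Q.D) ∧
    Q.line (Q.up g) = X.Gam d g '' Icc 0 (X.K g)

lemma Un.gam_eq {s : ℤ} (X : St s) (d : ℝ) (g : V → ℤ) :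
    X.Gam d g = poly (fun k => mid d (X.e g k)) (X.K g) := rfl

theorem CvSt.trk (h : CvSt) {d : ℝ} (hd : 0 < d) {Q : Dom d} {Ψ : ℂ → ℂ}
    (H : Chart Q.D Q.a Q.b Ψ) {s : ℤ} {X : St s} (hX : X.Of Q) {g : V → ℤ} (hg : g ∈ HD Q.R Q.xi) :
    Q.b ∈ Q.line (Q.up g) ∧ Q.core g = X.Gam d g '' Ioo 0 (X.K g) ∧
      ∃ p σ, Trk Ψ (X.Gam d g) (X.K g) p σ := by
  obtain ⟨h1, h2, h3, h4, h5, h6⟩ := h d hd Q s X hX g hg
  have K0 : (0 : ℝ) < X.K g := by exact_mod_cast h1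
  have e0 : X.Gam d g 0 = Q.a := by
    rw [gam_eq]
    simpa only [Nat.cast_zero, h3] using poly_nat (fun k => mid d (X.e g k)) h1 (Nat.zero_le _)
  have e1 : X.Gam d g (X.K g) = Q.b := h4 ▸ poly_nat (fun k => mid d (X.e g k)) h1 le_rfl
  refine ⟨h6 ▸ ⟨_, ⟨K0.le, le_rfl⟩, e1⟩, ?_, H.exists_trk K0
    (poly_cont (fun k => mid d (X.e g k)) (X.K g)).continuousOn h2 e0 e1 h5 fun M => ?_⟩
  · rw [Dom.core, h6, ← e0, ← e1, ← image_pair, ← h2.image_sdiff_subset (by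
      rintro _ (rfl | rfl); exacts [⟨le_rfl, K0.le⟩, ⟨K0.le, le_rfl⟩]), Icc_sdiff_both]
  · obtain ⟨k, hk⟩ : ∃ k, X.K g = k + 1 := ⟨X.K g - 1, by omega⟩
    have hk' : (X.K g : ℝ) = k + 1 := by exact_mod_cast hk
    have e2 : ∀ u ∈ Ioo (0 : ℝ) 1, X.Gam d g (k + (1 - u)) = Q.b + u * (mid d (X.e g k) - Q.b) :=
      fun u hu => by
        rw [gam_eq, poly_eq _ (by omega) (by linarith [hu.2]) (by linarith [hu.1]), ← hk, h4]
        simp only [Complex.real_smul]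
        push_cast
        ring
    have e3 : ∀ u ∈ Ioo (0 : ℝ) 1, k + (1 - u) ∈ Ioo (0 : ℝ) (X.K g) := fun u hu =>
      ⟨by linarith [hu.2, k.cast_nonneg (α := ℝ)], by linarith [hu.1]⟩
    obtain ⟨u, hu, h7⟩ := Q.transv hd H one_pos (fun u hu => e2 u hu ▸ h5 _ (e3 u hu)) M
    exact ⟨_, e3 u hu, e2 u hu ▸ h7⟩

theorem parSt (ho : OfSt) (h : CvSt) : ParSt := fun d hd Q Ψ H g hg => by
  obtain ⟨s, X, hX⟩ := ho d hd Q
  obtain ⟨h1, h2, p, σ, h3⟩ := h.trk hd H hX hg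
  exact ⟨h1, p, h2 ▸ h3.trc, fun p' h' => (h2 ▸ h3.trc).unique h' H.inj⟩

theorem timSt (h : CvSt) : TimSt := by
  intro d hd Q Ψ H s X hX p hp
  have : ∀ g, ∃ σ, g ∈ HD Q.R Q.xi → Trk Ψ (X.Gam d g) (X.K g) (p g) σ := fun g => by
    by_cases hg : g ∈ HD Q.R Q.xi
    · obtain ⟨-, h2, p', σ, h3⟩ := h.trk hd H hX hg
      exact ⟨σ, fun _ => (h2 ▸ h3.trc).unique (hp g hg) H.inj ▸ h3⟩
    · exact ⟨0, fun c => absurd c hg⟩
  choose σ hσ using this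
  have K0 : ∀ g ∈ HD Q.R Q.xi, 0 < X.K g := fun g hg => (h d hd Q s X hX g hg).1
  have mem : ∀ {k K : ℕ}, k < K → (k : ℝ) ∈ Ico (0 : ℝ) K := fun hk =>
    ⟨Nat.cast_nonneg _, Nat.cast_lt.2 hk⟩
  refine ⟨fun g k => σ g k, K0, fun g hg => by simpa using (hσ g hg).s0, fun g hg k hk =>
    (hσ g hg).mono (mem (by omega)) (mem hk) (Nat.cast_lt.2 (Nat.lt_succ_self k)),
    fun g hg k hk => ((hσ g hg).eq k (mem hk)).trans 
      (poly_nat (fun k => mid d (X.e g k)) (K0 g hg) hk.le),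
    fun g hg k hk => ?_, fun g hg k hk => ?_, fun g hg g' hg' k hk e => ?_⟩
  · rw [← (hσ g hg).img_Icc (mem (by omega)) (mem hk), (hσ g hg).img fun u hu =>
      ⟨(Nat.cast_nonneg k).trans hu.1, hu.2.trans_lt (mem hk).2⟩, gam_eq, Nat.cast_add_one,
      poly_seg _ (by omega)]
  · have hk' : (X.K g : ℝ) = k + 1 := by exact_mod_cast hk.symm
    have k0 : (0 : ℝ) ≤ k := Nat.cast_nonneg k
    rw [← (hσ g hg).img_Ici (mem (by omega)), (hσ g hg).img (Ico_subset_Ico_left k0),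
      ← poly_seg (fun k => mid d (X.e g k)) (n := X.K g) (by omega), ← gam_eq,
      ← poly_nat (fun k => mid d (X.e g k)) (K0 g hg) hk.le, ← gam_eq, ← image_singleton,
      ← ((h d hd Q s X hX g hg).2.1.mono (Icc_subset_Icc k0 hk'.ge)).image_sdiff_subset
        (by simp), Nat.cast_add_one, Icc_sdiff_right, hk']
  · have e1 : ∀ j ≤ k, X.e g j = X.e g' j := fun j hj => by
      simpa only [St.hist, min_eq_left hj] using congrFun e j
    have hk' : k < X.K g' := by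
      by_contra c
      have h1 : ¬X.L (X.ah g' (X.K g')) := Nat.sInf_mem (Nat.nonempty_of_pos_sInf (K0 g' hg'))
      rw [St.ah, ← e1 _ (not_lt.1 c)] at h1
      exact Nat.notMem_of_lt_sInf (s := {k | ¬X.L (X.ah g k)}) ((not_lt.1 c).trans_lt hk) h1
    have e2 : EqOn (X.Gam d g) (X.Gam d g') (Icc 0 k) := fun u hu => by
      have j1 : ⌊u⌋₊ ≤ k := Nat.floor_le_of_le hu.2
      have j2 := Nat.floor_le hu.1
      have j3 := Nat.lt_floor_add_one u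
      generalize ⌊u⌋₊ = j at j1 j2 j3
      obtain ⟨v, rfl⟩ : ∃ v, u = j + v := ⟨u - j, by ring⟩
      rw [gam_eq, gam_eq, poly_eq _ (j1.trans_lt hk) (by linarith) (by linarith),
        poly_eq _ (j1.trans_lt hk') (by linarith) (by linarith), e1 j j1]
      rcases j1.lt_or_eq with c | rfl
      · rw [e1 _ c]
      · rw [show v = 0 by linarith [hu.2], zero_smul, zero_smul]
    have A := fun u hu => (hσ g hg).adapt (s := u) (hσ g' hg') H.inj (mem hk).2 (mem hk').2 e2 hu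
    refine ⟨(A k ⟨Nat.cast_nonneg k, le_rfl⟩).1, fun u hu => ?_⟩
    obtain ⟨v, hv, rfl⟩ := ((hσ g hg).img_Iic (mem hk)).ge hu
    exact (A v hv).2

end Pool.Agent.Lib.MP_6359c9_pr
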