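import Pool.Agent.Lib.MP_6359c9_pr.ObSide
import Pool.Agent.Lib.MP_6359c9_pr.ExTri
import Pool.Agent.Lib.MP_6359c9_pr.UnE

/-! The states of the exploration fill the slit domains. -/

namespace Pool.Agent.Lib.MP_6359c9_pr.Og

open Set Filter Topology Bornology Complex Lw Un Xp WD Obs
open scoped NNReal

variable {d : ℝ} {s : ℤ} {X S : St s} {Q : Dom d} {g : V → ℤ} {j k : ℕ} {u v q : V} {y : ℂ}

/-- the piece of the curve in the face crossed at step `j + 1` -/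
def sgm (d : ℝ) (X : St s) (g : V → ℤ) (j : ℕ) : Set ℂ :=
  segment ℝ (mid d (X.e g j)) (mid d (X.e g (j + 1)))

/-- the point of an edge with parameter `c` -/
noncomputable def lm (d : ℝ) (u v : V) (c : ℝ) : ℂ := bc d u v (1 - c) c 0

lemma lm_cont (d : ℝ) (u v : V) : Continuous (lm d u v) := by unfold lm bc; fun_prop

lemma lm_zero : lm d u v 0 = pos d u := by simp [lm, bc]

lemma lm_one : lm d u v 1 = pos d v := by simp [lm, bc]

lemma lm_half : lm d u v (1 / 2) = mid d (u, v) := by rw [Xp.mid_eq, lm, bc]; norm_num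

lemma seg_lm : segment ℝ (pos d u) (pos d v) = lm d u v '' Icc 0 1 := by
  rw [segment_eq_image]; congr 1; ext c; simp [lm, bc]

lemma lm_end {c : ℝ} (hc : 0 < c) : (𝓝[lm d u v '' Ico 0 c] lm d u v c).NeBot :=
  mem_closure_iff_nhdsWithin_neBot.1 (map_mem_closure (lm_cont d u v)
    (by rw [closure_Ico hc.ne]; exact right_mem_Icc.2 hc.le) (mapsTo_image _ _))

lemma bc_comb (a b x y z x' y' z' : ℝ) : a • bc d u v x y z + b • bc d u v x' y' z' =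
    bc d u v (a * x + b * x') (a * y + b * y') (a * z + b * z') := by
  simp only [bc]; module

lemma closed_tg (d : ℝ) (P : V → Prop) : IsClosed {y | ∃ q, P q ∧ y ∈ Tg d q} :=
  isClosed_of_closure_subset fun y hy =>
    let ⟨_, h1, q, h2, h3⟩ := ((tg_near d y).and_frequently (mem_closure_iff_frequently.1 hy)).exists
    ⟨q, h2, h1 q h3⟩

section
variable (hd : 0 < d)
include hd

lemma tg_ar (h : Ar v q) : pos d v ∈ Tg d q := let ⟨_, a, e⟩ := h; e ▸ tg_vert hd a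

lemma tg_diam {z : ℂ} (h1 : y ∈ Tg d q) (h2 : z ∈ Tg d q) : ‖y - z‖ ≤ d := by
  have e := pos_sub_sq hd 0 (z - y)
  rw [show pos d 0 - (z - y) = y - z by simp [pos, Complex.ext_iff],
    show z - y = (1 : ℝ) • z + (-1 : ℝ) • y by module, cx_comb, cy_comb] at e
  refine (abs_le_of_sq_le_sq' (e ▸ mul_le_of_le_one_right (by positivity) ?_) hd.le).2
  obtain ⟨⟨a1, a2⟩, ⟨a3, a4⟩, a5, a6⟩ := h1
  obtain ⟨⟨b1, b2⟩, ⟨b3, b4⟩, b5, b6⟩ := h2
  have k : ∀ x y : ℝ, |x| ≤ 1 → |y| ≤ 1 → |x + y| ≤ 1 → x ^ 2 + x * y + y ^ 2 ≤ 1 := by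
    intro x y h1 h2 h3
    rw [abs_le] at h1 h2 h3
    rcases le_total 0 x with a | a <;> rcases le_total 0 y with b | b <;>
      rcases le_total 0 (x + y) with c | c <;> nlinarith
  exact k _ _ (abs_le.2 ⟨by simp; linarith, by simp; linarith⟩)
    (abs_le.2 ⟨by simp; linarith, by simp; linarith⟩)
    (abs_le.2 ⟨by simp; linarith, by simp; linarith⟩)

lemma bc_int {a b c : ℝ} (uv : Adj u v) (ha : 0 < a) (hb : 0 < b) (hc : 0 < c) (h : a + b + c = 1)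
    (hq : Face q) (hm : bc d u v a b c ∈ Tg d q) : q = lf u v :=
  have B : Bar a b c := ⟨ha.le, hb.le, hc.le, h⟩
  ar_three uv (wg_ar hd hq hm ((wg_fst hd uv B).symm ▸ ha.ne'))
    (wg_ar hd hq hm ((wg_snd hd uv B).symm ▸ hb.ne'))
    (wg_ar hd hq hm ((wg_thd hd uv B).symm ▸ hc.ne'))

lemma lm_mem (uv : Adj u v) {c : ℝ} (h : c ∈ Icc (0 : ℝ) 1) : lm d u v c ∈ Tg d (lf u v) :=
  bc_mem hd uv ⟨sub_nonneg.2 h.2, h.1, le_rfl, by ring⟩

lemma lm_near (uv : Adj u v) {c : ℝ} (h : c ∈ Icc (0 : ℝ) 1) : ‖lm d u v c - pos d u‖ ≤ d :=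
  tg_diam hd (lm_mem hd uv h) (tg_vert hd uv)

lemma lm_ext (uv : Adj u v) {c : ℝ} (h : c ∈ Icc (0 : ℝ) 1) :
    ext d g (lm d u v c) = (1 - c) * g u + c * g v := by
  rw [lm, ext_bc hd uv ⟨sub_nonneg.2 h.2, h.1, le_rfl, by ring⟩, zero_mul, add_zero]

lemma lm_face (uv : Adj u v) {c : ℝ} (h : c ∈ Ico (0 : ℝ) 1) (hq : Face q)
    (hm : lm d u v c ∈ Tg d q) : Ar u q :=
  wg_ar hd hq hm ((wg_fst hd uv ⟨sub_nonneg.2 h.2.le, h.1, le_rfl, by ring⟩).symm ▸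
    (sub_pos.2 h.2).ne')

lemma mid_face (uv : Adj u v) (hq : Face q) (hm : mid d (u, v) ∈ Tg d q) :
    q = lf u v ∨ q = lf v u :=
  have c : (1 / 2 : ℝ) ∈ Ico 0 1 := by norm_num
  ar_two uv (lm_face hd uv c hq (lm_half (d := d) ▸ hm))
    (lm_face hd uv.symm c hq (lm_half (d := d) ▸ mid_swap d u v ▸ hm))

lemma in0 (O : X.Of Q) (hy : y ∈ Q.D) (hq : Face q) (hm : y ∈ Tg d q) : X.L q :=
  (O.L q).2 ⟨hq, (Q.tg_iff hd hq hm (Q.not_fr hy)).1 hy⟩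

lemma out0 (O : X.Of Q) (hy : y ∉ Q.D) : ∃ q, (Face q ∧ ¬X.L q) ∧ y ∈ Tg d q := by
  by_cases hf : y ∈ frontier Q.D
  · obtain ⟨i, hi, h⟩ := Q.fr_iff.1 hf
    have a := Q.adj i hi
    have := Q.diff hd ⟨i, hi, .inl ⟨rfl, rfl⟩⟩
    by_cases c : pos (d / 3) (lf (Q.c i) (Q.c (i + 1))) ∈ Q.D
    · exact ⟨_, ⟨a.symm.face, fun e => this (iff_of_true c ((O.L _).1 e).2)⟩,
        (tg_convex d _).segment_subset (tg_ar hd (ar_r a.symm)) (tg_ar hd (ar_l a.symm)) h⟩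
    · exact ⟨_, ⟨a.face, fun e => c ((O.L _).1 e).2⟩,
        (tg_convex d _).segment_subset (tg_ar hd (ar_l a)) (tg_ar hd (ar_r a)) h⟩
  · obtain ⟨q, hq, h⟩ := tg_cover d y
    exact ⟨q, ⟨hq, fun e => hy ((Q.tg_iff hd hq h hf).2 ((O.L q).1 e).2)⟩, h⟩

omit hd in
lemma sgm_bar (hg : X.Adm g) (j : ℕ) : ∃ a b : ℝ, ((a = 0 ∧ b = 1 ∧ g (X.nw g j) = s) ∨
    (a = 1 ∧ b = 0 ∧ g (X.nw g j) = 1 - s)) ∧ ∀ c c' : ℝ, c + c' = 1 →
    c • mid d (X.e g j) + c' • mid d (X.e g (j + 1)) =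
      bc d (X.e g j).1 (X.e g j).2 ((c + a * c') / 2) ((c + b * c') / 2) (c' / 2) := by
  rcases hg.cases j with h | h
  exacts [⟨0, 1, .inl ⟨rfl, rfl, h.1⟩, fun c c' _ => by
      rw [h.2, Xp.mid_eq, Xp.mid_eq]; simp only [bc, St.nw]; module⟩,
    ⟨1, 0, .inr ⟨rfl, rfl, h.1⟩, fun c c' _ => by
      rw [h.2, Xp.mid_eq, Xp.mid_eq]; simp only [bc, St.nw]; module⟩]

lemma sgm_iff (hg : X.Adm g) : y ∈ sgm d X g j ↔ y ∈ Tg d (X.ah g j) ∧ ext d g y = 1 / 2 := by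
  obtain ⟨a, b, h, e⟩ := sgm_bar (d := d) hg j
  obtain ⟨l1, l2, l3⟩ := hg.lv j
  constructor
  · rintro ⟨c, c', h1, h2, h3, rfl⟩
    have k : Bar ((c + a * c') / 2) ((c + b * c') / 2) (c' / 2) := by
      rcases h with ⟨rfl, rfl, -⟩ | ⟨rfl, rfl, -⟩ <;> refine ⟨?_, ?_, ?_, ?_⟩ <;> linarith
    rw [e c c' h3, ext_bc hd l1 k, l2, l3]
    refine ⟨bc_mem hd l1 k, ?_⟩
    rcases h with ⟨rfl, rfl, h⟩ | ⟨rfl, rfl, h⟩ <;> rw [show g (thd _ _) = _ from h] <;>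
      push_cast <;> linear_combination (1 / 2 : ℝ) * h3 + 0 * h3
  · rintro ⟨h1, h2⟩
    obtain ⟨x, y, z, B, rfl⟩ := (tg_bc hd l1).1 h1
    rw [ext_bc hd l1 B, l2, l3] at h2
    obtain ⟨hx, hy, hz, h3⟩ := B
    have k : x = (1 - 2 * z + a * (2 * z)) / 2 ∧ y = (1 - 2 * z + b * (2 * z)) / 2 ∧
        0 ≤ 1 - 2 * z := by
      rcases h with ⟨rfl, rfl, h⟩ | ⟨rfl, rfl, h⟩ <;> rw [show g (thd _ _) = _ from h] at h2 <;>
        rcases X.hs with rfl | rfl <;> push_cast at h2 <;> refine ⟨?_, ?_, ?_⟩ <;> linarith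
    refine ⟨1 - 2 * z, 2 * z, k.2.2, by linarith, by ring, ?_⟩
    rw [e _ _ (by ring), ← k.1, ← k.2.1, mul_div_cancel_left₀ z two_ne_zero]

lemma sgm_face (hg : X.Adm g) (hy : y ∈ sgm d X g j) (hq : Face q) (hm : y ∈ Tg d q) :
    q = X.ah g j ∨ q = lf (X.e g j).2 (X.e g j).1 ∨
      (y = mid d (X.e g (j + 1)) ∧ q = X.ah g (j + 1)) := by
  obtain ⟨a, b, h, e⟩ := sgm_bar (d := d) hg j
  obtain ⟨c, c', h1, h2, h3, rfl⟩ := hy
  rcases h1.eq_or_lt with rfl | h1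
  · obtain rfl : c' = 1 := by linarith
    rw [zero_smul, one_smul, zero_add] at hm ⊢
    exact (mid_face hd (hg.adj _) hq hm).elim (fun k => .inr (.inr ⟨rfl, k⟩))
      fun k => .inl (k.trans (X.back g j))
  rcases h2.eq_or_lt with rfl | h2
  · obtain rfl : c = 1 := by linarith
    rw [zero_smul, one_smul, add_zero] at hm
    exact (mid_face hd (hg.adj _) hq hm).imp_right .inl
  rw [e c c' h3] at hm
  refine .inl (bc_int hd (hg.adj j) ?_ ?_ ?_ ?_ hq hm) <;>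
    rcases h with ⟨rfl, rfl, -⟩ | ⟨rfl, rfl, -⟩ <;> linarith

variable (O : X.Of Q) (A : X.After g k S) (hg : X.Adm g)
include O A hg

/-- a segment inside the domain from a point of a crossed face to the curve -/
lemma path (hj : j < k) (hy : y ∈ Q.D) (hm : y ∈ Tg d (X.ah g j)) :
    ∃ m ∈ sgm d X g j, segment ℝ y m ⊆ Q.D := by
  obtain ⟨a, b, h, e⟩ := sgm_bar (d := d) hg j
  refine ⟨_, ⟨1 / 2, 1 / 2, by norm_num, by norm_num, by norm_num, rfl⟩, ?_⟩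
  rintro _ ⟨c, c', h1, h2, h3, rfl⟩
  rcases h2.eq_or_lt with rfl | h2
  · obtain rfl : c = 1 := by linarith
    simpa using hy
  obtain ⟨x, x', z, ⟨hx, hx', hz, h4⟩, rfl⟩ := (tg_bc hd (hg.adj j)).1 hm
  rw [e _ _ (by norm_num), bc_comb]
  by_contra n
  obtain ⟨q, ⟨q1, q2⟩, q3⟩ := out0 hd O n
  have := mul_nonneg h1 hx
  have := mul_nonneg h1 hx'
  have := mul_nonneg h1 hz
  refine q2 (bc_int hd (hg.adj j) ?_ ?_ ?_ ?_ q1 q3 ▸ (A.old j hj).1) <;>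
    rcases h with ⟨rfl, rfl, -⟩ | ⟨rfl, rfl, -⟩ <;>
    first | linarith | linear_combination c * h4 + h3

/-- a connected set that meets the state and its complement -/
lemma meet {E : Set ℂ} (hE : IsPreconnected E) (h1 : ∃ y ∈ E, ∃ q, S.L q ∧ y ∈ Tg d q)
    (h2 : ∃ y ∈ E, ∃ q, (Face q ∧ ¬S.L q) ∧ y ∈ Tg d q) :
    ∃ y ∈ E, y ∈ Q.D → ∃ j < k, y ∈ Tg d (X.ah g j) := by
  obtain ⟨y, hy, ⟨p, p1, p2⟩, q, ⟨q1, q2⟩, q3⟩ := isPreconnected_closed_iff.1 hE _ _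
    (closed_tg d S.L) (closed_tg d fun q => Face q ∧ ¬S.L q) (fun y _ => by
      obtain ⟨q, a, b⟩ := tg_cover d y
      by_cases c : S.L q
      exacts [.inl ⟨q, c, b⟩, .inr ⟨q, ⟨a, c⟩, b⟩]) h1 h2
  refine ⟨y, hy, fun hD => ?_⟩
  rcases tg_inter hd (S.face p p1) q1 p2 q3 with rfl | ⟨u, v, a, rfl, rfl, -⟩ | ⟨v, rfl, a, b⟩
  · exact (q2 p1).elim
  · obtain ⟨j, b, e⟩ := (A.bd u v a p1 (in0 hd O hD q1 q3)).resolve_left q2
    exact ⟨j, b, e ▸ q3⟩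
  · obtain ⟨i, rfl⟩ := (S.D.cl v ⟨p, a, p1⟩).resolve_left fun c => q2 (S.D.inn v c q b)
    rcases A.wall i with ⟨j, e⟩ | ⟨j, a, e⟩
    · exact (X.D.out j (by rw [e, O.R]; exact hD)).elim
    · exact ⟨j, a, e ▸ tg_ar hd (hg.ar_nw j)⟩

omit hg in
/-- near the end point the domain lies in the state -/
lemma near_b : ∀ᶠ y in 𝓝 Q.b, y ∈ Q.D → ∃ q, S.L q ∧ y ∈ Tg d q := by
  have m0 := Q.m_pos
  have m1 := Q.m_lt
  have e : Q.b = mid d (X.c (X.m - 1), X.c X.m) := by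
    rw [Dom.b, mid_midpoint]
    rcases O.c with ⟨-, a, b⟩ | ⟨-, a, b⟩
    · rw [a, b _ (by omega), b _ m1]
    · rw [a, b _ (by omega), b _ (by omega), midpoint_comm]
      congr 3 <;> omega
  have c1 := X.D.cyc (X.m - 1)
  have c2 := S.D.cyc (S.m - 1)
  have a := X.D.adj (X.m - 1)
  rw [Nat.sub_add_cancel X.m_pos] at c1 a
  rw [Nat.sub_add_cancel S.m_pos, A.fin.1, A.fin.2] at c2
  filter_upwards [tg_near d Q.b] with y h hy
  obtain ⟨q, q1, q2⟩ := tg_cover d y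
  have := in0 hd O hy q1 q2
  have := A.sub (lf (X.c (X.m - 1)) (X.c X.m))
  have := A.sub (lf (X.c X.m) (X.c (X.m - 1)))
  refine ⟨q, ?_, q2⟩
  rcases mid_face hd a q1 (e ▸ h q q2) with rfl | rfl <;> tauto

variable {G : Set ℂ} (hG : ∀ y ∈ Q.D, y ∈ G ↔ ∃ j < k, y ∈ sgm d X g j)
include hG

lemma out1 (hy : y ∉ Q.D \ G) : ∃ q, (Face q ∧ ¬S.L q) ∧ y ∈ Tg d q := by
  by_cases c : y ∈ Q.D
  · obtain ⟨j, a, b⟩ := (hG y c).1 (by_contra fun n => hy ⟨c, n⟩)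
    exact ⟨_, ⟨hg.face j, (A.old j a).2⟩, ((sgm_iff hd hg).1 b).1⟩
  · exact (out0 hd O c).imp fun q h => ⟨⟨h.1.1, fun e => h.1.2 (A.sub q e)⟩, h.2⟩

lemma star (hu : u ∈ S.R) (uv : Adj u v) {c : ℝ} (h : c ∈ Ico (0 : ℝ) 1) :
    lm d u v c ∈ Q.D \ G := by_contra fun n =>
  let ⟨q, a, b⟩ := out1 hd O A hg hG n
  a.2 (S.D.inn u hu q (lm_face hd uv h a.1 b))

omit A in
/-- no other zero near the curve -/
lemma alone (hj : j < k) (hy : y ∈ sgm d X g j) (hn : y ≠ mid d (X.e g k)) :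
    ∀ᶠ y' in 𝓝 y, y' ∈ Q.D \ G → ext d g y' ≠ 1 / 2 := by
  filter_upwards [tg_near d y] with y' h h1 h2
  obtain ⟨q, q1, q2⟩ := tg_cover d y'
  have key : ∀ i < k, q ≠ X.ah g i := fun i a e =>
    h1.2 ((hG y' h1.1).2 ⟨i, a, (sgm_iff hd hg).2 ⟨e ▸ q2, h2⟩⟩)
  rcases sgm_face hd hg hy q1 (h q q2) with e | e | ⟨e, e'⟩
  · exact key j hj e
  · cases j with
    | zero => exact X.behind (show X.L (lf (X.e g 0).2 (X.e g 0).1) from e ▸ in0 hd O h1.1 q1 q2)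
    | succ j => exact key j (by omega) (e.trans (X.back g j))
  · exact key (j + 1) (lt_of_le_of_ne hj fun c => hn (c ▸ e)) e'

/-- a short path in the slit domain from an interior vertex to the boundary, along which the
sign is the sign of a given vertex of the wall -/
lemma link (hu : u ∈ S.R) (hv : v ∉ S.R) (uv : Adj u v) : ∃ E ⊆ Q.D \ G, IsPreconnected E ∧
    pos d u ∈ E ∧ (∀ y ∈ E, ‖y - pos d u‖ ≤ 2 * d) ∧ ∃ y ∉ Q.D \ G, ∃ l : Filter ℂ, l.NeBot ∧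
      l ≤ 𝓝[E] y ∧ ∀ᶠ y' in l, 0 < (g v - 1 / 2) * (ext d g y' - 1 / 2) := by
  obtain ⟨i, rfl⟩ := (S.D.bd u hu v uv).resolve_left hv
  have two : g (S.c i) = 0 ∨ g (S.c i) = 1 := A.adm.eq S.xi_adm i ▸ S.xi_two _
  have sq : 0 < ((g (S.c i) : ℝ) - 1 / 2) * (g (S.c i) - 1 / 2) := by
    rcases two with e | e <;> rw [e] <;> norm_num
  have s1 : lm d u (S.c i) '' Ico 0 1 ⊆ Q.D \ G :=
    image_subset_iff.2 fun c => star hd O A hg hG hu uv
  by_cases hD : pos d (S.c i) ∈ Q.D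
  swap
  · refine ⟨_, s1, isPreconnected_Ico.image _ (lm_cont ..).continuousOn,
      ⟨0, ⟨le_rfl, one_pos⟩, lm_zero⟩, ?_, lm d u (S.c i) 1, fun c => hD (lm_one ▸ c.1), _,
      lm_end one_pos, le_rfl, mem_nhdsWithin_of_mem_nhds ?_⟩
    · rintro _ ⟨c, hc, rfl⟩
      linarith [lm_near hd uv (Ico_subset_Icc_self hc)]
    · refine (continuous_const.mul ((contSt d g).sub continuous_const)).continuousAt.eventually
        (lt_mem_nhds ?_)
      simpa [lm_ext hd uv (right_mem_Icc.2 zero_le_one)] using sq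
  have hR : S.c i ∈ X.R := by rw [O.R]; exact hD
  obtain ⟨j, hj, e⟩ := (A.wall i).resolve_left fun ⟨j, e⟩ => X.D.out j (e ▸ hR)
  obtain ⟨w, a, w1, w2⟩ : ∃ w, Adj (S.c i) w ∧ g w = 1 - g (S.c i) ∧
      mid d (S.c i, w) = mid d (X.e g (j + 1)) := by
    have l := hg.lv (j + 1)
    rcases hg.cases j with h | h <;> rw [h.2, e] at l ⊢
    · exact ⟨_, l.1, by rw [l.2.2, show g (S.c i) = s from l.2.1], rfl⟩
    · exact ⟨_, l.1.symm, by rw [l.2.1, show g (S.c i) = 1 - s from l.2.2]; ring,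
        mid_swap ..⟩
  have sb : Ico (0 : ℝ) (1 / 2) ⊆ Ico 0 1 := Ico_subset_Ico_right (by norm_num)
  have s2 : ∀ c ∈ Ico (0 : ℝ) (1 / 2),
      0 < (g (S.c i) - 1 / 2) * (ext d g (lm d (S.c i) w c) - 1 / 2) := fun c hc => by
    rw [lm_ext hd a (Ico_subset_Icc_self (sb hc)), w1]
    push_cast
    nlinarith [mul_pos sq (sub_pos.2 hc.2)]
  have s3 : lm d (S.c i) w '' Ico 0 (1 / 2) ⊆ Q.D \ G := image_subset_iff.2 fun c hc => by
    have : lm d (S.c i) w c ∈ Q.D := by_contra fun n =>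
      let ⟨q, x, y⟩ := out0 hd O n
      x.2 (X.D.inn _ hR q (lm_face hd a (sb hc) x.1 y))
    refine ⟨this, fun n => ?_⟩
    obtain ⟨j, -, b⟩ := (hG _ this).1 n
    simpa [((sgm_iff hd hg).1 b).2] using s2 c hc
  have m : pos d (S.c i) ∈ lm d (S.c i) w '' Ico 0 (1 / 2) := ⟨0, ⟨le_rfl, one_half_pos⟩, lm_zero⟩
  refine ⟨lm d u (S.c i) '' Icc 0 1 ∪ lm d (S.c i) w '' Ico 0 (1 / 2), union_subset ?_ s3,
    (isPreconnected_Icc.image _ (lm_cont ..).continuousOn).union _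
      ⟨1, right_mem_Icc.2 zero_le_one, lm_one⟩ m
      (isPreconnected_Ico.image _ (lm_cont ..).continuousOn),
    .inl ⟨0, left_mem_Icc.2 zero_le_one, lm_zero⟩, ?_, lm d (S.c i) w (1 / 2), fun c => c.2 ?_, _,
    lm_end one_half_pos, nhdsWithin_mono _ subset_union_right,
    mem_of_superset self_mem_nhdsWithin (image_subset_iff.2 s2)⟩
  · rintro _ ⟨c, hc, rfl⟩
    rcases hc.2.eq_or_lt with rfl | h
    exacts [lm_one (d := d) (u := u) ▸ s3 m, s1 ⟨c, ⟨hc.1, h⟩, rfl⟩]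
  · rintro _ (⟨c, hc, rfl⟩ | ⟨c, hc, rfl⟩)
    · linarith [lm_near hd uv hc]
    · linarith [lm_near hd a (Ico_subset_Icc_self (sb hc)), norm_sub_le_norm_sub_add_norm_sub
        (lm d (S.c i) w c) (pos d (S.c i)) (pos d u),
        lm_one (d := d) (u := u) ▸ lm_near hd uv (right_mem_Icc.2 zero_le_one)]
  · refine (hG _ c.1).2 ⟨j, hj, ?_⟩
    rw [lm_half, w2]
    exact right_mem_segment _ _ _

end

lemma curve {T : Set (V → ℤ)} {Ψ : ℂ → ℂ} {p : (V → ℤ) → ℝ≥0 → ℂ} {t : (V → ℤ) → ℕ → ℝ≥0}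
    (h : Tim (d := d) X T Ψ p t) (hg : g ∈ T) (hk : k < X.K g) :
    y ∈ (fun u => Ψ (p g u)) '' Iic (t g k) ↔
      y = mid d (X.e g 0) ∨ ∃ j < k, y ∈ sgm d X g j := by
  induction k with
  | zero =>
    have := h.tip g hg 0 hk
    rw [h.zero g hg] at this ⊢
    simp [this, eq_comm]
  | succ k ih =>
    rw [← Iic_union_Icc_eq_Iic (h.mono g hg k hk).le, image_union, mem_union, ih (by omega),
      h.arc g hg k hk, or_assoc]
    simp only [Nat.lt_succ_iff_lt_or_eq, or_and_right, exists_or, exists_eq_left]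
    rfl

theorem geoSt : GeoSt := fun A n => by
  have H := A.chart n
  have hd := A.dpos n
  have O := A.of n
  obtain ⟨s0, hs, hS⟩ := arcSt _ hd _ _ H
  refine ⟨1 - s0, by omega, fun g hT k S F B hB => ?_⟩
  have hg := O.mem hT
  have hk := F.lt hg
  have h := (A.trc n g hT).smp
  have h0 := (A.trc n g hT).zero
  have cv := fun y => curve (y := y) (A.tim n) hT hk
  have tip := (A.tim n).tip g hT k hk
  have e0 : mid (A.δ n) ((A.X n).e g 0) = A.Ψ n 0 := by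
    rw [← (A.tim n).tip g hT 0 (by omega), (A.tim n).zero g hT, h0]
  specialize hS g hT
  generalize A.p n g = p, A.t n g k = t, A.Ψ n = Ψ, A.X n = X at *
  generalize A.Q n = Q at *
  generalize A.δ n = d at *
  have hG : ∀ y ∈ Q.D, y ∈ (fun u => Ψ (p u)) '' Iic t ↔ ∃ j < k, y ∈ sgm d X g j := fun y hy =>
    (cv y).trans (or_iff_right fun e => Q.not_fr hy (by rw [e, e0, H.zero]; exact H.a_fr))
  have hr : ∀ u ≤ t, ‖p u‖ ≤ B / 18 := fun u hu => by linarith [hB u hu]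
  have im := (img_eq (t := t) h Ψ).trans (sl_eq h H)
  have sl := sl_eq (t := t) h H
  have mem : ∀ z ∈ UH, Ψ (fm p t z) ∈ Q.D := fun z hz => (im.subset ⟨z, hz, rfl⟩).1
  have hN : ∀ w ∈ UC, w ∉ Sl p t → w ≠ p t → ∀ᶠ v in 𝓝[Sl p t] w, ext d g (Ψ v) ≠ 1 / 2 := by
    intro w w1 w2 w3
    have c := (H.cont w w1).mono fun v (hv : v ∈ Sl p t) => UH_sub hv.1
    by_cases c0 : ext d g (Ψ w) = 1 / 2
    swap
    · exact ((contSt d g).continuousAt.tendsto.comp c).eventually_ne c0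
    have n : Ψ w ≠ mid d (X.e g k) := fun e => w3 (H.inj w1 (h.im_nonneg t) (e.trans tip.symm))
    obtain ⟨j, a, b⟩ : ∃ j < k, Ψ w ∈ sgm d X g j := by
      refine ((cv _).1 ?_).elim (fun e => ⟨0, Nat.pos_of_ne_zero ?_, by
        rw [e]; exact left_mem_segment _ _ _⟩) id
      · rcases UC_cases w1 with c | ⟨x, rfl⟩
        · obtain ⟨u, a, rfl⟩ := Sl_hull ⟨c, w2⟩
          exact ⟨u, a, rfl⟩
        · obtain rfl : x = 0 := by_contra fun c => (hS x c).2 c0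
          exact ⟨0, mem_Iic.2 zero_le, by simp [h0]⟩
      · rintro rfl; exact n e
    filter_upwards [c.tendsto.eventually (alone hd O hg hG a b n), self_mem_nhdsWithin] with v v1 v2
    exact v1 (sl.subset ⟨v, v2, rfl⟩)
  have near : ∀ z ∈ UH, ∀ y ∉ Q.D \ (fun u => Ψ (p u)) '' Iic t, ‖y - Ψ (fm p t z)‖ ≤ 2 * d →
      Tie (fun z => Ψ (fm p t z)) (9 * d) 0 z := fun z hz y y1 y2 => by
    obtain ⟨E, a1, a2, a3, a4, _, -, -, a5⟩ := first h H hr hz (sl ▸ y1)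
    exact ⟨E, a1, a2, a3, fun v hv => by linarith [a4 v hv],
      a5.imp And.right fun ⟨x, x1, _⟩ => ⟨x, by simp, x1⟩⟩
  refine ⟨H.hol.comp (fm_hol h) fun z hz => (fm_mem h hz).1,
    fun u hu v hv e => fm_inj h hu hv (H.injH (fm_mem h hu).1 (fm_mem h hv).1 e),
    fun v _ => S.xi_two v, ⟨_, _, S.xi_adm.chg⟩, fun y hy => ?_, fun u hu v hv uv => ?_,
    fun u hu w hw uw z hz e => ?_, fun z hz => ?_⟩
  · obtain ⟨q, ⟨q1, q2⟩, q3⟩ := out1 hd O F hg hG (im ▸ hy)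
    obtain ⟨u, v, a, rfl⟩ := face_lf q1
    exact ⟨u, fun c => q2 (S.D.inn u c _ (ar_l a)), tg_diam hd (tg_vert hd a) q3⟩
  · have k0 : ∀ v ∈ S.R, pos d v ∈ Q.D \ (fun u => Ψ (p u)) '' Iic t := fun v hv =>
      lm_zero (d := d) ▸ star hd O F hg hG hv (WD.adj_dir v 0) ⟨le_rfl, one_pos⟩
    rw [im]
    rcases uv with a | rfl
    · rw [seg_lm]
      rintro _ ⟨c, hc, rfl⟩
      rcases hc.2.eq_or_lt with rfl | b
      exacts [lm_one (d := d) (u := u) ▸ k0 v hv, star hd O F hg hG hu a ⟨hc.1, b⟩]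
    · simpa using k0 u hu
  · obtain ⟨E, a1, a2, a3, a4, y, a5, l, a6, a7, a8⟩ := link hd O F hg hG hu hw uw
    obtain ⟨E', b1, b2, b3, b4, b5⟩ := reach h H hr (sl ▸ a1) a2 hz (e ▸ a3) (sl ▸ a5) a7
    refine ⟨E', b1, b2, b3, fun v hv => by simp only [e]; linarith [a4 _ (b4 v hv)],
      b5.imp And.right fun ⟨x, x1, _, x3⟩ => ⟨x, not_lt.1 fun c => ?_, x1⟩⟩
    obtain ⟨i, rfl⟩ := (S.D.bd u hu w uw).resolve_left hw
    rw [← F.adm.eq S.xi_adm i] at c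
    have two : g (S.c i) = 0 ∨ g (S.c i) = 1 := F.adm.eq S.xi_adm i ▸ S.xi_two _
    have hs' : ∀ x : ℝ, 0 < (-if g (S.c i) = 1 - s0 then 1 else -1) * x →
        0 < -((g (S.c i) - 1 / 2) * (ext d g (Ψ x) - 1 / 2)) := fun x hx => by
      obtain ⟨c1, c2⟩ := hS x (by rintro rfl; simp at hx)
      rcases c2.lt_or_gt with c3 | c3 <;> rcases hs with rfl | rfl <;> rcases two with e | e <;>
        rcases lt_or_ge x 0 with c4 | c4 <;>
        simp [e, c4, c4.not_gt] at c1 hx ⊢ <;> linarith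
    obtain ⟨v, v1, v2⟩ := ((side (t := t) h h0
      (κ := fun v => -((g (S.c i) - 1 / 2) * (ext d g (Ψ v) - 1 / 2)))
      (continuousOn_const.mul (((contSt d g).comp_continuousOn H.cont).sub continuousOn_const)).neg
      (fun w w1 w2 w3 => (hN w w1 w2 w3).mono fun v hv => neg_ne_zero.2 (mul_ne_zero
        (by rcases two with e | e <;> rw [e] <;> norm_num) (sub_ne_zero.2 hv)))
      (by split_ifs <;> simp) hs' (x := x) (by linarith)).and_frequently (x3 _ a8)).exists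
    linarith
  · by_cases hv : ∀ v, ‖pos d v - Ψ (fm p t z)‖ ≤ d → v ∈ S.R
    · exact .inl hv
    obtain ⟨v, v1, v2⟩ : ∃ v, ‖pos d v - Ψ (fm p t z)‖ ≤ d ∧ v ∉ S.R := by simpa using hv
    obtain ⟨q, q1, q2⟩ := tg_cover d (Ψ (fm p t z))
    by_cases c : S.L q
    · obtain ⟨q', a, b⟩ : ∃ q, Ar v q ∧ ¬S.L q := by simpa [S.mem_R] using v2
      obtain ⟨y, y1, y2⟩ := meet hd O F hg (convex_segment _ (pos d v)).isPreconnected
        ⟨_, left_mem_segment _ _ _, q, c, q2⟩ ⟨_, right_mem_segment _ _ _, q',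
          ⟨let ⟨_, a, e⟩ := a; e ▸ a.face, b⟩, tg_ar hd a⟩
      have y3 : ‖y - Ψ (fm p t z)‖ ≤ d := le_trans (by
        simpa [dist_eq_norm, norm_sub_rev (pos d v)] using segment_subset_closedBall_left _ _ y1) v1
      by_cases hD : y ∈ Q.D
      · obtain ⟨j, a, b⟩ := y2 hD
        have m : _ ∈ sgm d X g j := left_mem_segment _ _ _
        exact .inr (.inl (near z hz _ (fun c => c.2 ((hG _ c.1).2 ⟨j, a, m⟩)) (by
          linarith [tg_diam hd ((sgm_iff hd hg).1 m).1 b,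
            norm_sub_le_norm_sub_add_norm_sub (mid d (X.e g j)) y (Ψ (fm p t z))])))
      · exact .inr (.inl (near z hz y (fun c => hD c.1) (by linarith)))
    have up : ∀ T ∈ Ici (0 : ℝ), z + T * I ∈ UH := fun T hT => by
      simpa [mem_UH] using add_pos_of_pos_of_nonneg hz hT
    obtain ⟨T, T1, T2⟩ := ((eventually_ge_atTop (0 : ℝ)).and (((H.inf.mono_left (inf_le_inf_left _
      (principal_mono.2 UH_sub))).comp ((fm_inf (t := t) h).comp (tendsto_up z))).eventually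
      (near_b hd O F))).exists
    obtain ⟨_, ⟨T, T0, rfl⟩, y2⟩ := meet hd O F hg
      (E := (fun T : ℝ => Ψ (fm p t (z + T * I))) '' Ici 0)
      (isPreconnected_Ici.image _ ((H.hol.continuousOn.comp (fm_hol h).continuousOn
        fun z hz => (fm_mem h hz).1).comp (by fun_prop) up))
      ⟨_, ⟨T, T1, rfl⟩, T2 (mem _ (up T T1))⟩ ⟨_, ⟨0, self_mem_Ici, by simp⟩, q, ⟨q1, c⟩, q2⟩
    obtain ⟨j, a, b⟩ := y2 (mem _ (up T T0))
    obtain ⟨m, m1, m2⟩ := path hd O F hg a (mem _ (up T T0)) b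
    obtain ⟨E, a1, a2, a3, a4, y, a5, a6, a7⟩ := first h H hr (up T T0)
      (sl ▸ fun c : m ∈ Q.D \ _ => c.2 ((hG _ c.1).2 ⟨j, a, m1⟩))
    obtain ⟨x, x1, x2⟩ := a7.resolve_left fun c => Q.not_fr (m2 a5) (c.1 ▸ H.b_fr)
    obtain ⟨u, hu, rfl⟩ : y ∈ (fun u => Ψ (p u)) '' Iic t :=
      by_contra fun n => a6 (sl ▸ ⟨m2 a5, n⟩)
    refine .inr (.inr ⟨_, up T T0, by simpa using T0, E, a1, a2, a3, fun w hw => ?_, x, ?_, x1⟩)
    · linarith [a4 w hw, tg_diam hd ((sgm_iff hd hg).1 m1).1 b]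
    · rw [← Real.norm_eq_abs, ← norm_real]
      linarith [x2 _ (h.im_nonneg u) rfl, hr u hu, norm_le_insert' (x : ℂ) (p u)]

end Pool.Agent.Lib.MP_6359c9_pr.Og
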