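import Pool.Agent.Lib.MP_6359c9_pr.SlSpec
import Pool.Agent.Lib.MP_6359c9_pr.ObDef
import Pool.Agent.Lib.MP_6359c9_pr.UnB

/-! The chart of a slit domain: the two sides of the slit. -/

namespace Pool.Agent.Lib.MP_6359c9_pr.Og

open Set Filter Topology Bornology Metric Complex Lw Un
open scoped NNReal

/-- the inverse of the normalised map, centred at the tip -/
noncomputable def fm (p : ℝ≥0 → ℂ) (t : ℝ≥0) (z : ℂ) : ℂ :=
  Function.invFunOn (gm p t) (Sl p t) (z + drv p t)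

/-- the normalised map, centred at the tip -/
noncomputable def hm (p : ℝ≥0 → ℂ) (t : ℝ≥0) (w : ℂ) : ℂ := gm p t w - drv p t

/-- the states of the exploration fill the slit domains -/
def GeoSt : Prop := ∀ (A : Sett) (n : ℕ), ∃ σ : ℤ, (σ = 0 ∨ σ = 1) ∧ ∀ g ∈ A.S n,
  ∀ (k : ℕ) (S' : Xp.St (A.s n)), (A.X n).After g k S' → ∀ B : ℝ,
    (∀ u ≤ A.t n g k, 18 * ‖A.p n g u‖ ≤ B) → Obs.Geo B (A.δ n) S'.D.wall S'.xi σ
      fun z => A.Ψ n (fm (A.p n g) (A.t n g k) z)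

variable {p : ℝ≥0 → ℂ} {t : ℝ≥0} {z w : ℂ} {r : ℝ}

lemma add_mem (hz : z ∈ UH) (x : ℝ) : z + x ∈ UH := by simpa [mem_UH] using hz

section
variable (h : Smp p)
include h

lemma fm_eq (z : ℂ) : fm p t z = (h.hyd t).inv (z + drv p t) := rfl

lemma fm_mem (hz : z ∈ UH) : fm p t z ∈ Sl p t := (h.hyd t).inv_mem (add_mem hz _)

lemma hm_fm (hz : z ∈ UH) : hm p t (fm p t z) = z := by
  rw [hm, fm_eq h, (h.hyd t).map_inv (add_mem hz _), add_sub_cancel_right]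

lemma fm_hm (hw : w ∈ Sl p t) : fm p t (hm p t w) = w := by
  rw [hm, fm_eq h, sub_add_cancel, (h.hyd t).inv_map hw]

lemma hm_mem (hw : w ∈ Sl p t) : hm p t w ∈ UH := by
  simpa [hm, mem_UH] using mem_UH.1 ((h.hyd t).maps hw)

lemma fm_hol : DifferentiableOn ℂ (fm p t) UH :=
  (h.hyd t).inv_hol.comp (differentiableOn_id.add_const _) fun _ hz => add_mem hz _

lemma fm_inj : InjOn (fm p t) UH := fun u hu v hv e => by rw [← hm_fm (t := t) h hu, e, hm_fm h hv]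

lemma hm_cont : ContinuousOn (hm p t) (Sl p t) :=
  (h.hyd t).hol.continuousOn.sub continuousOn_const

lemma fm_img : fm p t '' UH = Sl p t :=
  Subset.antisymm (image_subset_iff.2 fun _ => fm_mem h) fun _ hw => ⟨_, hm_mem h hw, fm_hm h hw⟩

lemma fm_inf : Tendsto (fm p t) (cobounded ℂ ⊓ 𝓟 UH) (cobounded ℂ ⊓ 𝓟 UH) :=
  (h.hyd t).tendsto_inv.comp (tendsto_inf.2 ⟨(tendsto_add_const_cobounded _).mono_left inf_le_left,
    tendsto_principal.2 (mem_inf_of_right fun _ hz => add_mem hz _)⟩)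

lemma exists_rad (t : ℝ≥0) : ∃ r, ∀ u ≤ t, ‖p u‖ ≤ r :=
  let ⟨r, hr⟩ := (cpt_Iic t).exists_bound_of_continuousOn h.cont.continuousOn
  ⟨r, hr⟩

lemma hm_move (hr : ∀ u ≤ t, ‖p u‖ ≤ r) (hw : w ∈ Sl p t) : ‖hm p t w - w‖ ≤ 17 * r := by
  have h1 := (h.hyd t).move (x := 0) (r := r) (Sl_hull.trans (image_subset_iff.2 fun u hu => by
    simpa using hr u hu)) ((norm_nonneg _).trans (hr 0 zero_le)) hw
  have h2 := h.drv_le (x := 0) (r := r) (t := t) (by simpa using hr)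
  rw [sub_zero, ← Real.norm_eq_abs, ← norm_real] at h2
  rw [show hm p t w - w = gm p t w - w - drv p t by rw [hm]; ring]
  linarith [norm_sub_le (gm p t w - w) (drv p t)]

/-- cluster values of the normalised map at a boundary point -/
lemma exit (hr : ∀ u ≤ t, ‖p u‖ ≤ r) {F : Ultrafilter ℂ} (hF : (F : Filter ℂ) ≤ 𝓝[Sl p t] w)
    (hw : w ∉ Sl p t) : ∃ x : ℝ, ‖x - w‖ ≤ 17 * r ∧ Tendsto (hm p t) F (𝓝[UH] x) := by
  have hm' : ∀ᶠ v in (F : Filter ℂ), v ∈ Sl p t := hF self_mem_nhdsWithin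
  have hi : Tendsto (fun v => v) F (𝓝 w) := hF.trans nhdsWithin_le_nhds
  obtain ⟨y, hy, h1⟩ := (isCompact_closedBall (0 : ℂ) (17 * r)).ultrafilter_le_nhds
    (F.map fun v => hm p t v - v) (le_principal_iff.2 (hm'.mono fun v hv => by
      simpa using hm_move h hr hv))
  have h2 : Tendsto (hm p t) F (𝓝 (y + w)) := by
    simpa using Tendsto.add (f := fun v => hm p t v - v) h1 hi
  have h3 : (y + w).im = 0 := tendsto_nhds_unique ((continuous_im.tendsto _).comp h2)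
    ((((h.hyd t).proper hw).mono_left hF).congr fun v => by simp [hm])
  have h4 : ((y + w).re : ℂ) = y + w := Complex.ext (by simp) (by simpa using h3.symm)
  exact ⟨(y + w).re, by rw [h4]; simpa using hy,
    tendsto_nhdsWithin_iff.2 ⟨h4.symm ▸ h2, hm'.mono fun v => hm_mem h⟩⟩

/-- cluster values of the inverse map at a real point -/
lemma entry {F : Ultrafilter ℂ} {x : ℝ} (hF : (F : Filter ℂ) ≤ 𝓝[UH] (x : ℂ)) (hx : x ≠ 0) :
    ∃ w ∈ UC, w ∉ Sl p t ∧ w ≠ p t ∧ Tendsto (fm p t) F (𝓝[Sl p t] w) := by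
  obtain ⟨r, hr⟩ := exists_rad h t
  have hm' : ∀ᶠ v in (F : Filter ℂ), v ∈ UH := hF self_mem_nhdsWithin
  have hi : Tendsto (fun v => v) F (𝓝 (x : ℂ)) := hF.trans nhdsWithin_le_nhds
  obtain ⟨y, -, h1⟩ := (isCompact_closedBall (0 : ℂ) (17 * r)).ultrafilter_le_nhds
    (F.map fun v => v - fm p t v) (le_principal_iff.2 (hm'.mono fun v hv => by
      simpa [hm_fm h hv] using hm_move h hr (fm_mem h hv)))
  have h2 : Tendsto (fm p t) F (𝓝 (x - y)) := by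
    simpa using hi.sub (g := fun v => v - fm p t v) h1
  have h3 : Tendsto (fm p t) F (𝓝[Sl p t] (x - y)) :=
    tendsto_nhdsWithin_iff.2 ⟨h2, hm'.mono fun v => fm_mem h⟩
  have key : ∀ q, Tendsto (hm p t) (𝓝[Sl p t] (x - y)) (𝓝 q) → q = x := fun q hq =>
    tendsto_nhds_unique ((hq.comp h3).congr' (hm'.mono fun v => hm_fm h)) hi
  refine ⟨_, isClosed_UC.mem_of_tendsto h2 (hm'.mono fun v hv => UH_sub (fm_mem h hv).1),
    fun c => ?_, fun c => hx ?_, h3⟩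
  · simpa [key _ (hm_cont h _ c), mem_UH] using hm_mem h c
  · have := key _ (c ▸ (h.tip t).sub_const (drv p t : ℂ))
    rw [sub_self] at this
    exact_mod_cast this.symm

/-- the sign of `κ` on the two sides -/
theorem side (h0 : p 0 = 0) {κ : ℂ → ℝ} (hc : ContinuousOn κ UC)
    (hN : ∀ w ∈ UC, w ∉ Sl p t → w ≠ p t → ∀ᶠ v in 𝓝[Sl p t] w, κ v ≠ 0) {ε : ℝ} (hε : ε = 1 ∨ ε = -1)
    (hS : ∀ x : ℝ, 0 < ε * x → 0 < κ x) {x : ℝ} (hx : 0 < ε * x) :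
    ∀ᶠ z in 𝓝[UH] (x : ℂ), 0 < κ (fm p t z) := by
  obtain ⟨r, hr⟩ := exists_rad h t
  have r0 : 0 ≤ r := (norm_nonneg _).trans (hr 0 zero_le)
  have c1 : ContinuousOn (fun z => κ (fm p t z)) UH :=
    hc.comp (fm_hol h).continuousOn fun _ hz => UH_sub (fm_mem h hz).1
  have op : ∀ P : ℂ → Prop, IsOpen {x : ℝ | ∀ᶠ z in 𝓝[UH] (x : ℂ), P z} := fun P =>
    isOpen_iff_mem_nhds.2 fun x hx => continuous_ofReal.continuousAt.eventually
      (eventually_nhds_nhdsWithin.2 hx)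
  have dj : ∀ x : ℝ, (∀ᶠ z in 𝓝[UH] (x : ℂ), κ (fm p t z) < 0) →
      ¬∃ᶠ z in 𝓝[UH] (x : ℂ), 0 < κ (fm p t z) := fun x a b =>
    let ⟨_, c⟩ := (a.and_frequently b).exists; lt_asymm c.1 c.2
  have cv : IsPreconnected {x : ℝ | 0 < ε * x} :=
    (convex_halfSpace_gt (f := fun x : ℝ => ε * x) ⟨mul_add ε, fun a b => by simp; ring⟩
      0).isPreconnected
  have cov : {x : ℝ | 0 < ε * x} ⊆ {x : ℝ | ∀ᶠ z in 𝓝[UH] (x : ℂ), 0 < κ (fm p t z)} ∪
      {x : ℝ | ∀ᶠ z in 𝓝[UH] (x : ℂ), κ (fm p t z) < 0} := fun x hx => by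
    have n0 : ∀ᶠ z in 𝓝[UH] (x : ℂ), κ (fm p t z) ≠ 0 := mem_iff_ultrafilter.2 fun F hF => by
      obtain ⟨w, w1, w2, w3, w4⟩ := entry (t := t) h hF (by rintro rfl; simp at hx)
      exact w4.eventually (hN w w1 w2 w3)
    obtain ⟨ρ, hρ, H⟩ := Metric.mem_nhdsWithin_iff.1 n0
    have m : Metric.ball (x : ℂ) ρ ∩ UH ∈ 𝓝[UH] (x : ℂ) :=
      inter_mem (mem_nhdsWithin_of_mem_nhds (ball_mem_nhds _ hρ)) self_mem_nhdsWithin
    rcases (((convex_ball (x : ℂ) ρ).inter convex_UH).isPreconnected.image _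
      (c1.mono inter_subset_right)).subset_or_subset isOpen_Ioi isOpen_Iio
      (disjoint_left.2 fun a (b : 0 < a) (c : a < 0) => lt_asymm b c)
      (by rintro _ ⟨z, hz, rfl⟩; exact (H hz).symm.lt_or_gt) with K | K
    exacts [.inl (mem_of_superset m (image_subset_iff.1 K)),
      .inr (mem_of_superset m (image_subset_iff.1 K))]
  rcases cv.subset_or_subset (op fun z => 0 < κ (fm p t z)) (op fun z => κ (fm p t z) < 0)
    (disjoint_left.2 fun x a b => by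
      have := neBot_UH (real_UC x)
      exact dj x b (Eventually.frequently a)) cov with H | H
  · exact H hx
  · have e1 : 0 < ε * (ε * (17 * r + 1)) := by rcases hε with rfl | rfl <;> linarith
    have hw : Okp p t (ε * (17 * r + 1) : ℝ) := h.ok_real (by
      rw [h0, ofReal_ne_zero]; rintro c; simp [c] at e1) t
    have := mem_closure_iff_nhdsWithin_neBot.1 ((h.hyd t).closure_sym (h.ok_mir hw) hw.1)
    have hF := Ultrafilter.of_le (𝓝[Sl p t] ((ε * (17 * r + 1) : ℝ) : ℂ))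
    obtain ⟨y, y1, y2⟩ := exit h hr hF fun c => by simpa [mem_UH] using c.1
    rw [← ofReal_sub, norm_real, Real.norm_eq_abs, abs_le] at y1
    have y3 : 0 < ε * y := by
      rcases hε with rfl | rfl <;> linarith [y1.1, y1.2]
    refine (dj y (H y3) (y2.frequently (Eventually.frequently (hF ?_)))).elim
    filter_upwards [((hc _ (real_UC _)).mono fun v (hv : v ∈ Sl p t) => UH_sub hv.1).eventually
      (lt_mem_nhds (hS _ e1)), self_mem_nhdsWithin] with v v1 v2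
    rwa [fm_hm h v2]

lemma img_eq (Ψ : ℂ → ℂ) : (fun z => Ψ (fm p t z)) '' UH = Ψ '' Sl p t := by
  rw [← fm_img (t := t) h, image_image]

variable {D : Set ℂ} {a b : ℂ} {Ψ : ℂ → ℂ} (H : Chart D a b Ψ)
include H

lemma sl_eq : Ψ '' Sl p t = D \ (fun u => Ψ (p u)) '' Iic t := by
  rw [← H.img]
  refine Subset.antisymm ?_ ?_
  · rintro _ ⟨w, hw, rfl⟩
    exact ⟨⟨w, hw.1, rfl⟩, fun ⟨u, hu, e⟩ =>
      hw.2 ⟨u, hu, H.inj (h.im_nonneg u) (UH_sub hw.1) e⟩⟩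
  · rintro _ ⟨⟨w, hw, rfl⟩, c⟩
    exact ⟨w, ⟨hw, fun ⟨u, hu, e⟩ => c ⟨u, hu, congrArg Ψ e⟩⟩, rfl⟩

lemma isOpen_sl : IsOpen (Ψ '' Sl p t) := by
  rw [sl_eq h H]
  exact H.isOpen.sdiff ((cpt_Iic t).image (H.cont.comp_continuous h.cont h.im_nonneg)).isClosed

/-- a connected set of the slit domain that reaches the boundary point `y` -/
lemma reach (hr : ∀ u ≤ t, ‖p u‖ ≤ r) {E : Set ℂ} (hE : E ⊆ Ψ '' Sl p t) (hc : IsPreconnected E)
    (hz : z ∈ UH) (hm' : Ψ (fm p t z) ∈ E) {y : ℂ} (hy : y ∉ Ψ '' Sl p t) {l : Filter ℂ} [l.NeBot]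
    (hl : l ≤ 𝓝[E] y) : ∃ E' ⊆ UH, IsPreconnected E' ∧ z ∈ E' ∧ (∀ v ∈ E', Ψ (fm p t v) ∈ E) ∧
      ((y = b ∧ ¬IsBounded E') ∨ ∃ x : ℝ, (x : ℂ) ∈ closure E' ∧
        (∀ w ∈ UC, Ψ w = y → ‖x - w‖ ≤ 17 * r) ∧
        ∀ P : ℂ → Prop, (∀ᶠ v in l, P v) → ∃ᶠ v in 𝓝[UH] (x : ℂ), P (Ψ (fm p t v))) := by
  have s1 : Ψ '' Sl p t ⊆ Ψ '' UC := image_mono fun _ c => UH_sub c.1
  have k1 : ∀ v ∈ E, H.inv v ∈ Sl p t := fun v hv => by
    obtain ⟨w, hw, rfl⟩ := hE hv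
    rwa [H.inv_map (UH_sub hw.1)]
  have k2 : ∀ v ∈ E, Ψ (fm p t (hm p t (H.inv v))) = v := fun v hv => by
    rw [fm_hm h (k1 v hv), H.map_inv (s1 (hE hv))]
  have hF := (Ultrafilter.of_le l).trans hl
  have ev : ∀ᶠ v in (Ultrafilter.of l : Filter ℂ), v ∈ E := hF self_mem_nhdsWithin
  refine ⟨(fun v => hm p t (H.inv v)) '' E, image_subset_iff.2 fun v hv => hm_mem h (k1 v hv),
    hc.image _ ((hm_cont h).comp (H.inv_cont.mono (hE.trans s1)) k1),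
    ⟨_, hm', by simp only [H.inv_map (UH_sub (fm_mem h hz).1), hm_fm h hz]⟩,
    by rintro _ ⟨v, hv, rfl⟩; rwa [k2 v hv], ?_⟩
  rcases H.inv_ultra (hF.trans (nhdsWithin_mono _ (hE.trans s1))) with ⟨e, h1⟩ | ⟨w, hw, e, h1⟩
  · refine .inl ⟨e, fun c => ?_⟩
    obtain ⟨M, hM⟩ := c.exists_norm_le
    obtain ⟨v, v1, v2⟩ := (ev.and ((tendsto_norm_cobounded_atTop (E := ℂ)).comp h1 |>.eventually
      (eventually_gt_atTop (M + 17 * r)))).exists
    have := norm_sub_norm_le (H.inv v) (hm p t (H.inv v))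
    rw [norm_sub_rev] at this
    linarith [hM _ ⟨v, v1, rfl⟩, hm_move h hr (k1 v v1), show M + 17 * r < ‖H.inv v‖ from v2]
  · obtain ⟨x, x1, x2⟩ := exit h hr (F := (Ultrafilter.of l).map H.inv) (w := w)
      (tendsto_nhdsWithin_iff.2 ⟨h1, ev.mono k1⟩) fun c => hy ⟨w, c, e⟩
    have x3 : Tendsto (fun v => hm p t (H.inv v)) (Ultrafilter.of l) (𝓝[UH] x) := x2
    refine .inr ⟨x, mem_closure_of_tendsto (x3.mono_right nhdsWithin_le_nhds)
      (ev.mono fun v hv => ⟨v, hv, rfl⟩), fun w' hw' e' => H.inj hw hw' (e.trans e'.symm) ▸ x1,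
      fun P hP => x3.frequently (Eventually.frequently ?_)⟩
    filter_upwards [ev, Ultrafilter.of_le l hP] with v v1 v2
    rwa [k2 v v1]

/-- the first exit along a segment -/
lemma first (hr : ∀ u ≤ t, ‖p u‖ ≤ r) (hz : z ∈ UH) {y : ℂ} (hy : y ∉ Ψ '' Sl p t) :
    ∃ E ⊆ UH, IsPreconnected E ∧ z ∈ E ∧
      (∀ v ∈ E, ‖Ψ (fm p t v) - Ψ (fm p t z)‖ ≤ ‖y - Ψ (fm p t z)‖) ∧
      ∃ y' ∈ segment ℝ (Ψ (fm p t z)) y, y' ∉ Ψ '' Sl p t ∧ ((y' = b ∧ ¬IsBounded E) ∨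
        ∃ x : ℝ, (x : ℂ) ∈ closure E ∧ ∀ w ∈ UC, Ψ w = y' → ‖x - w‖ ≤ 17 * r) := by
  have m : Ψ (fm p t z) ∈ Ψ '' Sl p t := ⟨_, fm_mem h hz, rfl⟩
  set c := Ψ (fm p t z)
  have lc : Continuous (AffineMap.lineMap c y : ℝ → ℂ) := AffineMap.lineMap_continuous
  obtain ⟨τ, ⟨t1, t2⟩, t3⟩ := (isCompact_Icc.inter_right
    ((isOpen_sl (t := t) h H).isClosed_compl.preimage lc)).exists_isLeast
    ⟨1, ⟨zero_le_one, le_rfl⟩, by simpa using hy⟩
  have t0 : 0 < τ := t1.1.lt_of_ne fun e => t2 (by simpa [← e] using m)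
  have sg : ∀ u ∈ Icc (0 : ℝ) 1, AffineMap.lineMap c y u ∈ segment ℝ c y := fun u hu =>
    segment_eq_image_lineMap ℝ c y ▸ ⟨u, hu, rfl⟩
  have := mem_closure_iff_nhdsWithin_neBot.1 (map_mem_closure lc
    (show τ ∈ closure (Ico 0 τ) by rw [closure_Ico t0.ne]; exact right_mem_Icc.2 t0.le)
    (mapsTo_image _ _))
  obtain ⟨E', a1, a2, a3, a4, a5⟩ := reach h H hr (image_subset_iff.2 fun u hu => by_contra fun k =>
    hu.2.not_ge (t3 ⟨⟨hu.1, hu.2.le.trans t1.2⟩, k⟩)) (isPreconnected_Ico.image _ lc.continuousOn)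
    hz ⟨0, ⟨le_rfl, t0⟩, by simp [c]⟩ t2 le_rfl
  refine ⟨E', a1, a2, a3, fun v hv => ?_, _, sg τ t1, t2,
    a5.imp_right fun ⟨x, x1, x2, _⟩ => ⟨x, x1, x2⟩⟩
  obtain ⟨u, hu, e⟩ := a4 v hv
  simpa [dist_eq_norm, e, norm_sub_rev c y] using
    segment_subset_closedBall_left c y (sg u ⟨hu.1, hu.2.le.trans t1.2⟩)

end

end Pool.Agent.Lib.MP_6359c9_pr.Og
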