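import Pool.Agent.Lib.MP_6359c9_pr.HMain

/-! A high crosscut in a sector of a ring has positive probability at every scale. -/

namespace Pool.Agent.Lib.MP_6359c9_pr

open Set

/-- the ring at scale `r` -/
abbrev Rg (x : V) (r : ℤ) : Set V := Bx x (2 * r) \ Bx x (r / 4)

theorem chainRg (K : ℤ) (hK : 2 ≤ K) : ∃ A : ℤ, 0 < A ∧ ∀ C0 : ℤ, 1 ≤ C0 → ∃ r0 : ℤ,
    ∀ (W : Wall) (i0 i1 : ℕ) (x u v w0 : V) (r : ℤ), r0 ≤ r → w0 ∉ W.R → w0 ∈ Bx x (r / 8) →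
    (∀ q, W.IC (Rg x r) u q → q ≠ W.γ i0 ∧ q ≠ W.γ i1) → (∃ a ∈ W.Lt i0 i1, Adj a u) →
    (∃ b ∈ W.Rt i0 i1, Adj v b) → Conn (W.R ∩ {y | ds y x = r}) u v →
    (∃ y s, s ≤ 3 * K * C0 ∧ W.IC (Rg x r) u y ∧ Bx y s ⊆ Rg x r ∧
      ∃ a ∈ W.Lt i0 i1, ∃ b ∈ W.Rt i0 i1, W.IC (Bx y s) y a ∧ W.IC (Bx y s) y b) ∨
    ∃ (ρ dL dR : ℤ) (yL yR z : V) (P : Set V), C0 ≤ ρ ∧ Conn P yL yR ∧ W.IC (Rg x r) u yL ∧
      (∀ p ∈ P, Bx p ρ ⊆ W.R ∧ p ∈ Bx z (A * ρ) ∧ Bx p ρ ⊆ Rg x r) ∧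
      W.Sided K (W.Lt i0 i1) yL dL ∧ W.Sided K (W.Rt i0 i1) yR dR ∧ dL ≤ A * ρ ∧ dR ≤ A * ρ ∧
      Bx yL (K * dL) ⊆ Rg x r ∧ Bx yR (K * dR) ⊆ Rg x r := by
  obtain ⟨M, hM⟩ : ∃ M, M = K * K + 2 * K := ⟨_, rfl⟩
  have hKK : 2 * K ≤ K * K := by nlinarith
  have hM0 : 0 < M := by omega
  refine ⟨12 * M, by omega, fun C0 hC => ⟨2 * M * (C0 + 1), ?_⟩⟩
  rintro W i0 i1 x u v w0 r hr w0R g0 hn ⟨a, ha, au⟩ ⟨b, hb, vb⟩ c
  have hr4 : 4 ≤ r := by nlinarith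
  -- a point with a margin is one sided or sees both arcs
  have tri : ∀ p d, W.IC (Rg x r) u p → W.Dist p d → K * d ≤ mu x r p →
      W.Sided K (W.Lt i0 i1) p d ∨ W.Sided K (W.Rt i0 i1) p d ∨
      ∃ a ∈ W.Lt i0 i1, ∃ b ∈ W.Rt i0 i1, W.IC (Bx p (K * d)) p a ∧ W.IC (Bx p (K * d)) p b := by
    intro p d cp hd hm
    have cl : ∀ w, w ∉ W.R → W.IC (Bx p (K * d)) p w → w ∈ W.Lt i0 i1 ∨ w ∈ W.Rt i0 i1 := by
      intro w hw cw
      obtain ⟨i, rfl⟩ := (cw.wall hd.mem).resolve_left hw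
      have hi := hn _ (NConn.trans cp (cw.mono (Bx_ring hm)))
      rcases Wall.cases_idx (W := W) (i0 := i0) (i1 := i1) i with h2 | h2 | h2 | h2
      · exact absurd h2 hi.1
      · exact Or.inl h2
      · exact absurd h2 hi.2
      · exact Or.inr h2
    by_contra e
    simp only [Wall.Sided, hd, true_and, not_or, not_forall] at e
    obtain ⟨⟨w, hw, cw, nw⟩, ⟨w', hw', cw', nw'⟩, e⟩ := e
    exact e ⟨w', (cl w' hw' cw').resolve_right nw', w, (cl w hw cw).resolve_left nw, cw', cw⟩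
  -- the conclusion from a set `Q` as in `core`
  have fin : ∀ (Q : Set V) (ρ : ℤ) (w u' v' a' b' : V), C0 ≤ ρ → w ∉ W.R →
      (∀ p ∈ Q, W.IC (Rg x r) u p ∧ ds w p ≤ 12 * M * ρ ∧ ρ ≤ mu x r p ∧
        ((∃ d, W.Sided K (W.Lt i0 i1) p d ∧ K * d ≤ mu x r p) ∨
        (∃ d, W.Sided K (W.Rt i0 i1) p d ∧ K * d ≤ mu x r p) ∨ Bx p (ρ + 1) ⊆ W.R)) →
      a' ∈ W.Lt i0 i1 → Adj a' u' → b' ∈ W.Rt i0 i1 → Adj v' b' → Conn Q u' v' →
      ∃ (ρ dL dR : ℤ) (yL yR z : V) (P : Set V), C0 ≤ ρ ∧ Conn P yL yR ∧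
        W.IC (Rg x r) u yL ∧
        (∀ p ∈ P, Bx p ρ ⊆ W.R ∧ p ∈ Bx z (12 * M * ρ) ∧
          Bx p ρ ⊆ Rg x r) ∧
        W.Sided K (W.Lt i0 i1) yL dL ∧ W.Sided K (W.Rt i0 i1) yR dR ∧ dL ≤ 12 * M * ρ ∧
        dR ≤ 12 * M * ρ ∧ Bx yL (K * dL) ⊆ Rg x r ∧
        Bx yR (K * dR) ⊆ Rg x r := by
    intro Q ρ w u' v' a' b' hρ hw hQ ha' au' hb' vb' c'
    obtain ⟨dL, dR, yL, yR, P, hP, cP, bP, sL, sR, mL, mR⟩ := Wall.core hK (mu x r)
      (ρ := ρ) (by omega) (fun p hp => (hQ p hp).2.2.2) ha' au' hb' vb' c'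
    exact ⟨ρ, dL, dR, yL, yR, w, P, hρ, cP, (hQ _ (hP cP.left)).1,
      fun p hp => ⟨bP p hp, mem_Bx_ds.2 (ds_comm w p ▸ (hQ p (hP hp)).2.1),
        Bx_ring (hQ p (hP hp)).2.2.1⟩, sL, sR, (sL.1.le hw).trans (hQ _ (hP cP.left)).2.1,
      (sR.1.le hw).trans (hQ _ (hP cP.right)).2.1, Bx_ring mL, Bx_ring mR⟩
  by_cases hG : ∃ d, ∃ p, W.Dist p d ∧ W.IC (Rg x r) u p ∧ M * d ≤ mu x r p ∧
      ∃ a ∈ W.Lt i0 i1, ∃ b ∈ W.Rt i0 i1, W.IC (Bx p (K * d)) p a ∧ W.IC (Bx p (K * d)) p b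
  · obtain ⟨d, ⟨y, hd, cy, my, a1, ha1, b1, hb1, ca, cb⟩, hmin⟩ := Int.exists_least_of_bdd
      ⟨1, by rintro d ⟨p, h, -⟩; exact h.1⟩ hG
    have d1 := hd.1
    have hMd : M * d = K * K * d + 2 * (K * d) := by rw [hM]; ring
    have hKd : 2 * d ≤ K * d := by nlinarith
    have hKKd : 2 * (K * d) ≤ K * K * d := by nlinarith
    have s : Bx y (K * d) ⊆ Rg x r := Bx_ring (by omega)
    by_cases small : d ≤ 2 * C0 + 1
    · exact Or.inl ⟨y, K * d, by nlinarith, cy, s, a1, ha1, b1, hb1, ca, cb⟩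
    have cab : W.IC {p | W.IC (Bx y (K * d)) a1 p} a1 b1 :=
      NConn.cluster (NConn.trans (NConn.symm ca) cb)
    obtain ⟨a', ha', b', hb', u', v', au', vb', c', -⟩ := cab.bridge ha1 hb1
      (fun h => (hn _ (NConn.trans cy (Wall.IC.mono (NConn.trans ca h) s))).1 rfl)
      fun h => (hn _ (NConn.trans cy (Wall.IC.mono (NConn.trans ca h) s))).2 rfl
    obtain ⟨w, hw, wR⟩ := hd.2.2
    refine Or.inr (fin _ (d / 2 - 1) w u' v' a' b' (by omega) wR ?_ ha' au' hb' vb' c')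
    rintro p ⟨pR, cp⟩
    have cp' : W.IC (Rg x r) u p :=
      NConn.trans cy (Wall.IC.mono (NConn.trans ca cp) s)
    have h1 := mem_Bx_ds.1 (NConn.right cp)
    have h2 := mem_Bx_ds.1 hw
    have h3 := ds_tri w y p
    have h4 := ds_comm y p
    have h5 := mu_lip x r y p
    refine ⟨cp', ?_, by omega, ?_⟩
    · have h6 : d ≤ 5 * (d / 2 - 1) := by omega
      have h7 : 0 ≤ d / 2 - 1 := by omega
      have h8 : (K + 1) * d ≤ (K + 1) * (5 * (d / 2 - 1)) :=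
        mul_le_mul_of_nonneg_left h6 (by omega)
      have h9 : (K + 1) * 5 * (d / 2 - 1) ≤ 12 * M * (d / 2 - 1) :=
        mul_le_mul_of_nonneg_right (by omega) h7
      nlinarith
    · obtain ⟨e, he⟩ := Wall.exists_dist pR
      have h6 := he.le wR
      have h7 : K * e ≤ K * (K * d + d) := mul_le_mul_of_nonneg_left (by omega) (by omega)
      have h8 : K * e ≤ mu x r p := by nlinarith
      rcases tri p e cp' he h8 with h | h | h
      · exact Or.inl ⟨e, h, h8⟩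
      · exact Or.inr (Or.inl ⟨e, h, h8⟩)
      · refine Or.inr (Or.inr ((Bx_mono' p ?_).trans he.2.1))
        by_contra h9
        have h10 : M * (2 * e) ≤ M * d := mul_le_mul_of_nonneg_left (by omega) hM0.le
        have := hmin e ⟨p, he, cp', by nlinarith, h⟩
        have := he.1
        omega
  · obtain ⟨q, hq⟩ : ∃ q, q = r / (2 * M) := ⟨_, rfl⟩
    have q1 : q * (2 * M) ≤ r := hq ▸ Int.ediv_mul_le r (by omega)
    have q2 : r < (q + 1) * (2 * M) := hq ▸ Int.lt_ediv_add_one_mul_self r (by omega)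
    have q3 : C0 + 1 ≤ q := by
      by_contra e
      have : (q + 1) * (2 * M) ≤ (C0 + 1) * (2 * M) :=
        mul_le_mul_of_nonneg_right (by omega) (by omega)
      nlinarith
    have q4 : q ≤ q * M := by nlinarith
    refine Or.inr (fin _ (q - 1) w0 u v a b (by omega) w0R ?_ ha au hb vb c.cluster)
    intro p cp
    have cp0 : Conn (W.R ∩ {y | ds y x = r}) u p := cp
    have h1 : ds p x = r := cp0.right.2
    have cp' : W.IC (Rg x r) u p := (Wall.IC.of_conn cp0).mono fun t ht => by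
      have : ds t x = r := ht
      exact ⟨mem_Bx_ds.2 (by omega), fun k => by have := mem_Bx_ds.1 k; omega⟩
    have h2 := mem_Bx_ds.1 g0
    have h3 := ds_tri w0 x p
    have h4 := ds_comm x p
    have h5 : r ≤ 2 * mu x r p := by simp only [mu]; omega
    refine ⟨cp', ?_, by nlinarith, ?_⟩
    · have h6 : (q + 1) * (2 * M) ≤ 3 * (q - 1) * (2 * M) :=
        mul_le_mul_of_nonneg_right (by omega) (by omega)
      have h7 : r / 8 ≤ r := by omega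
      nlinarith
    · obtain ⟨e, he⟩ := Wall.exists_dist cp0.right.1
      by_cases h6 : e ≤ q
      · have h7 : M * e ≤ M * q := mul_le_mul_of_nonneg_left h6 hM0.le
        have h8 : K * e ≤ M * e := mul_le_mul_of_nonneg_right (by omega) (by have := he.1; omega)
        have h9 : M * e ≤ mu x r p := by nlinarith
        rcases tri p e cp' he (h8.trans h9) with h | h | h
        · exact Or.inl ⟨e, h, h8.trans h9⟩
        · exact Or.inr (Or.inl ⟨e, h, h8.trans h9⟩)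
        · exact absurd ⟨e, p, he, cp', h9, h⟩ hG
      · exact Or.inr (Or.inr ((Bx_mono' p (by omega)).trans he.2.1))

theorem xRg : ∃ c > 0, ∃ r0 : ℤ, ∀ (W : Wall) (i0 i1 : ℕ) (x u v w0 : V) (r : ℤ) (R : Set V)
    (ξ : V → ℤ), r0 ≤ r → w0 ∉ W.R → w0 ∈ Bx x (r / 8) →
    (∃ a ∈ W.Lt i0 i1, Adj a u) → (∃ b ∈ W.Rt i0 i1, Adj v b) →
    Conn (W.R ∩ {y | ds y x = r}) u v → Cls R → R ⊆ W.R → Ok (HD R ξ) → Bd R ξ (Ici 0) →
    (∀ q, W.IC (Rg x r) u q → q ≠ W.γ i0 ∧ q ≠ W.γ i1) →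
    (∀ q, W.IC (Rg x r) u q → (q ∈ W.R → q ∈ R) ∧ (q ∉ W.R → 1 ≤ ξ q)) →
    c ≤ Pr (HD R ξ) {g | W.Crs i0 i1 (Rg x r) u (R ∩ {q | 1 ≤ g q})} := by
  have hF := feSt
  obtain ⟨K, hK, c1, hc1, hA⟩ := atSt zSt mb_main
  obtain ⟨A, hA0, hch⟩ := chainRg K hK
  obtain ⟨c2, hc2, d0, hC⟩ := climbSt 0 (80 * A + 6).toNat
  obtain ⟨r0, hch⟩ := hch (20 * max d0 1) (by omega)
  refine ⟨min ((1 / 192 : ℝ) ^ (2 * (3 * K * (20 * max d0 1)) + 1).toNat ^ 2) (c1 * c1 * c2),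
    by positivity, max r0 0, ?_⟩
  intro W i0 i1 x u v w0 r R ξ hr w0R g0 ha hb c hR hRW ok bd hn hq
  rcases hch W i0 i1 x u v w0 r (by omega) w0R g0 hn ha hb c with
    ⟨y, s, hs, cy, sy, a, ha, b, hb, ca, cb⟩ |
    ⟨ρ, dL, dR, yL, yR, z, P, hρ, cP, cL, hP, sL, sR, bL, bR, rL, rR⟩
  · have cab : W.IC {p | W.IC (Bx y s) a p} a b :=
      NConn.cluster (NConn.trans (NConn.symm ca) cb)
    have ic : ∀ p, W.IC (Bx y s) a p → W.IC (Rg x r) u p := fun p hp =>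
      NConn.trans cy (Wall.IC.mono (NConn.trans ca hp) sy)
    obtain ⟨a', ha', b', hb', u', v', au', vb', c', sa, sb⟩ := cab.bridge ha hb
      (fun h => (hn _ (ic _ h)).1 rfl) fun h => (hn _ (ic _ h)).2 rfl
    obtain ⟨F, hF1, hF2⟩ := exists_finset_Bx (A := W.R ∩ {p | W.IC (Bx y s) a p}) (y := y)
      (s := 3 * K * (20 * max d0 1)) fun p hp => Bx_mono hs (NConn.right hp.2)
    have FR : ∀ p ∈ F, p ∈ R := fun p hp =>
      (hq p (ic p ((hF1 p).1 hp).2)).1 ((hF1 p).1 hp).1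
    refine (min_le_left _ _).trans ((pow_le_pow_of_le_one (by norm_num) (by norm_num) hF2).trans
      ((hF R ξ 0 F hR.fin ok bd FR).trans (pr_mono fun g _ hg => ?_)))
    exact ⟨a', ha', b', hb', ic _ sa, ic _ sb, u', v', au', vb', c'.mono fun p hp =>
      ⟨FR p ((hF1 p).2 hp), by simpa using hg p ((hF1 p).2 hp)⟩⟩
  have c0 : ∀ p m, 0 ≤ m → p ∈ Bx p m := fun p m hm => mem_Bx_ds.2 (by rw [ds_self]; omega)
  have inR : ∀ p m, 0 ≤ m → W.IC (Rg x r) u p → Bx p m ⊆ W.R →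
      Bx p m ⊆ Rg x r → Bx p m ⊆ R := fun p m hm cp h1 h2 q hq' =>
    (hq q (NConn.trans cp (Wall.IC.of_conn ((Bx_conn (c0 p m hm) hq').mono fun w hw =>
      ⟨h1 hw, h2 hw⟩)))).1 (h1 hq')
  have icP : ∀ p, Conn P yL p → W.IC (Rg x r) u p := fun p cp =>
    NConn.trans cL (Wall.IC.of_conn (cp.mono fun w hw =>
      ⟨(hP w hw).1 (c0 w ρ (by omega)), (hP w hw).2.2 (c0 w ρ (by omega))⟩))
  obtain ⟨t, ht⟩ : ∃ t, t = ρ / 20 := ⟨_, rfl⟩
  have t1 : 1 ≤ t := by omega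
  -- the two ends
  have side : ∀ (Γ : Set V) (y : V) (d : ℤ), Conn P yL y → W.Sided K Γ y d →
      Bx y (K * d) ⊆ Rg x r →
      c1 ≤ Pr (HD R ξ) (AtE R K y d) ∧ (∀ p ∈ Bx y (d / 2), Bx p (7 * t + 1) ⊆ R) ∧ 0 ≤ d / 2 ∧
      ∀ w, w ∉ R → NConn Rᶜ (Bx y (K * d)) y w → w ∈ Γ ∧ W.IC (Rg x r) u w := by
    intro Γ y d cy sy ry
    obtain ⟨w0, hw0, wR⟩ := sy.1.2.2
    have d1 : ρ < d := by
      by_contra e
      exact wR ((hP y cy.right).1 (Bx_mono (by omega) hw0))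
    have d2 : d ≤ K * d := le_mul_of_one_le_left (by omega) (by omega)
    have h1 : Bx y (d - 1) ⊆ R := inR y _ (by omega) (icP y cy) sy.1.2.1
      ((Bx_mono (by omega)).trans ry)
    have h2 : ∀ w, w ∉ R → NConn Rᶜ (Bx y (K * d)) y w →
        (w ∈ Γ ∧ W.IC (Rg x r) u w) ∧ 1 ≤ ξ w := by
      intro w hw cw
      have cw' : W.IC (Bx y (K * d)) y w := cw.mono (compl_subset_compl.2 hRW) subset_rfl
      have cu := NConn.trans (icP y cy) (cw'.mono ry)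
      have h3 := hq w cu
      exact ⟨⟨sy.2 w (fun e => hw (h3.1 e)) cw', cu⟩, h3.2 fun e => hw (h3.1 e)⟩
    refine ⟨hA R ξ y d hR ok bd (by omega) h1 ⟨w0, hw0, fun e => wR (hRW e)⟩
      fun w hw cw => (h2 w hw cw).2, fun p hp q hq => h1 ?_, by omega,
      fun w hw cw => (h2 w hw cw).1⟩
    simp only [mem_Bx] at *
    omega
  obtain ⟨pL, iL, eL, wL⟩ := side _ yL dL (Conn.refl cP.left) sL rL
  obtain ⟨pR, iR, eR, wR⟩ := side _ yR dR cP sR rR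
  set P1 : Set V := {p | Conn P yL p} ∪ Bx yL (dL / 2) ∪ Bx yR (dR / 2) with hP1
  have h7 : ∀ p ∈ P1, Bx p (7 * t + 1) ⊆ R := by
    rintro p ((hp | hp) | hp)
    · exact (Bx_mono (by omega)).trans
        (inR p ρ (by omega) (icP p hp) (hP p hp.right).1 (hP p hp.right).2.2)
    · exact iL p hp
    · exact iR p hp
  have hz : ∀ p ∈ P1, p ∈ Bx z (2 * (A * ρ)) := by
    have h1 := (hP yL cP.left).2.1
    have h2 := (hP yR cP.right).2.1
    rintro p ((hp | hp) | hp)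
    · have := (hP p hp.right).2.1
      simp only [mem_Bx] at *; omega
    · simp only [mem_Bx] at *; omega
    · simp only [mem_Bx] at *; omega
  have pC := hC R ξ 0 t z {q | ∃ p ∈ P1, q ∈ Bx p (6 * t)} hR ok bd (by omega) (by
      rintro q ⟨p, hp, hq⟩
      have h1 := hz p hp
      have h2 : A * ρ ≤ A * (40 * t) := mul_le_mul_of_nonneg_left (by omega) hA0.le
      have h3 : (((80 * A + 6).toNat : ℕ) : ℤ) * t = 2 * (A * (40 * t)) + 6 * t := by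
        rw [Int.toNat_of_nonneg (by omega)]; ring
      rw [h3]
      simp only [mem_Bx] at *; omega)
    (by
      rintro q ⟨p, hp, hq⟩ w hw
      refine h7 p hp ?_
      simp only [mem_Bx] at *; omega)
  have up : IsUpperSet {g : V → ℤ | ∀ u ∈ {q | ∃ p ∈ P1, q ∈ Bx p (6 * t)}, ∀ v, v ∉ Bx u t →
      ¬Conn {w | g w ≤ 0 + ((0 : ℕ) : ℤ)} u v} := fun g g' e hg u hu v hv cc =>
    hg u hu v hv (cc.mono fun w hw => le_trans (e w) hw)
  have f1 := ht_pr_fkg (wl R ξ) (AtE_upper R K yL dL) (AtE_upper R K yR dR)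
  have f2 := ht_pr_fkg (wl R ξ) ((AtE_upper R K yL dL).inter (AtE_upper R K yR dR)) up
  refine (min_le_right _ _).trans ((mul_le_mul ((mul_le_mul pL pR hc1.le (pr_nonneg _ _)).trans f1)
    pC hc2.le (pr_nonneg _ _)).trans (f2.trans (pr_mono ?_)))
  rintro g - ⟨⟨⟨a, aR, ca, u1, v1, a1, c1, m1⟩, ⟨b, bR, cb, u2, v2, a2, c2, m2⟩⟩, hg⟩
  refine ⟨a, (wL a aR ca).1, b, (wR b bR cb).1, (wL a aR ca).2, (wR b bR cb).2, u1, u2, a1,
    a2.symm, giantSt _ P1 t u1 u2 v1 v2 t1 ?_ ?_ ?_ c1 c2⟩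
  · exact ((Bx_conn m1 (c0 _ _ eL)).mono fun w hw => Or.inl (Or.inr hw)).trans
      ((cP.cluster.mono fun w hw => Or.inl (Or.inl hw)).trans
        ((Bx_conn (c0 _ _ eR) m2).mono fun w hw => Or.inr hw))
  · intro p hp q hq q' hq' cc
    obtain ⟨e, f, c3, ef, hf, c4⟩ := cc.exit (c0 q t (by omega)) hq'
    have low : ∀ w ∈ (R ∩ {q | 1 ≤ g q})ᶜ, w ∈ Bx q (t + 1) → g w ≤ 0 + ((0 : ℕ) : ℤ) := by
      intro w hw hw'
      have h1 : w ∈ R := h7 p hp (by simp only [mem_Bx] at *; omega)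
      have h2 : ¬1 ≤ g w := fun e => hw ⟨h1, e⟩
      omega
    refine hg q ⟨p, hp, hq⟩ f hf ((c3.mono fun w hw => low w hw.1 (Bx_mono (by omega) hw.2)).tail
      ef (low f c4.left ?_))
    have := c3.right.2
    simp only [mem_Bx, Adj] at *; omega
  · intro p hp
    constructor
    · refine fun e => aR (h7 p hp ?_)
      simp only [mem_Bx, Adj] at *; omega
    · refine fun e => bR (h7 p hp ?_)
      simp only [mem_Bx, Adj] at *; omega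

end Pool.Agent.Lib.MP_6359c9_pr
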