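import Pool.Agent.Lib.MP_6359c9_pr.RgCmp
import Pool.Agent.Lib.MP_6359c9_pr.RgX

/-! Low crossings of a sector of a ring with wall one are rare. -/

namespace Pool.Agent.Lib.MP_6359c9_pr

open Set

/-- a negative path inside `O` from distance `n` to distance `N` -/
def LowR (R O : Set V) (x : V) (n N : ℤ) : Set (V → ℤ) :=
  {g | ∃ p ∈ Bx x n, ∃ p', p' ∉ Bx x N ∧ Conn (R ∩ O ∩ {q | g q ≤ -1}) p p'}

lemma lowR_le (z : ℝ) (hz0 : 0 < z) : ∃ t > (0 : ℝ), ∀ (R O : Set V) (ξ : V → ℤ) (x : V)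
    (n N : ℤ), Cls R → (∀ v, v ∉ R → ξ v = 0 ∨ ξ v = 1) → 1 ≤ n → n ≤ N → (n : ℝ) ≤ t * N →
    (∃ w ∈ Bx x n, w ∉ R) →
    (∀ u ∈ O, ∀ v, Adj u v → v ∈ Bx x (N + 2) → v ∉ Bx x (n - 2) → (u ∈ R ∨ v ∈ R) → v ∈ O) →
    (∀ v ∈ O, v ∉ R → ξ v = 1) → Pr (HD R ξ) (LowR R O x n N) ≤ z := by
  obtain ⟨C, α, hC, hα, h⟩ := zRing
  refine ⟨(z / C) ^ α⁻¹, by positivity, fun R O ξ x n N hR h01 h1 h2 h3 hw hc hO => ?_⟩
  have fin : (R ∪ O ∩ Bx x (N + 1)).Finite :=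
    hR.fin.union ((Bx_finite x (N + 1)).subset inter_subset_right)
  have N0 : (0 : ℝ) < N := by exact_mod_cast (by omega : (0 : ℤ) < N)
  have n0 : (0 : ℝ) ≤ n := by exact_mod_cast (by omega : (0 : ℤ) ≤ n)
  refine (pr_Ht_le' (R := R) (dd_univ 0 subset_union_left) (wl_univ ξ) (fun v _ hv a ha b hb => ?_)
    (ok_dd 0 R fin) (ok_two (k := 0) hR.fin (by simpa using h01)) ?_).trans
    (le_trans (pr_mono ?_) ((h R _ O x n N hR fin subset_union_left h1 h2 hw hc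
      fun v h h' => Or.inr ⟨h, h'⟩).trans ?_))
  · rw [hb hv]
    by_cases hv' : v ∈ O ∩ Bx x (N + 1)
    · have := ha.1 hv
      have := hO v hv'.1 hv
      omega
    · have := ha.2 fun h => h.elim hv hv'
      have := h01 v hv
      omega
  · rintro a b _ _ e ha ⟨p, hp, p', hp2, c⟩
    exact ha ⟨p, hp, p', hp2, c.mono fun q hq => ⟨hq.1, (e q (sub_cl _ hq.1.1)).trans hq.2⟩⟩
  · rintro g - ⟨p, hp, p', hp2, c⟩ hs
    refine hs p hp p' hp2 ((c.nconn fun q hq => ?_).mono subset_rfl (subset_univ _))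
    rintro (h | h)
    · have h1 : g q ≤ -1 := hq.2
      have h2 : g q = 0 ∨ g q = 1 := h
      omega
    · exact h hq.1.2
  · have : ((n : ℝ) / N) ^ α ≤ z / C := by
      refine (Real.rpow_le_rpow (by positivity) ((div_le_iff₀ N0).2 h3) hα.le).trans (le_of_eq ?_)
      rw [Real.rpow_inv_rpow (by positivity) hα.ne']
    calc C * ((n : ℝ) / N) ^ α ≤ C * (z / C) := mul_le_mul_of_nonneg_left this hC.le
      _ = z := by field_simp

/-- a sector `S` of the ring between the radii `d` and `r`, where the wall has the value one and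
every sphere carries a crosscut -/
structure Wall.Sec (W : Wall) (ξ : V → ℤ) (x : V) (d r : ℤ) (i0 i1 : ℕ) (S : Set V) : Prop where
  lt : i0 < i1
  lt' : i1 < i0 + W.n
  near : ∃ w ∈ Bx x d, w ∉ W.R
  n0 : W.γ i0 ∉ S
  n1 : W.γ i1 ∉ S
  closed : ∀ u ∈ S, ∀ v, Adj u v → v ∈ Bx x r → v ∉ Bx x d → (u ∈ W.R ∨ v ∈ W.R) → v ∈ S
  flat : ∀ w ∈ S, w ∉ W.R → ξ w = 1
  cut : ∀ ρ, d < ρ → ρ ≤ r → ∃ u ∈ S, ∃ v, (∃ a ∈ W.Lt i0 i1, Adj a u) ∧
    (∃ b ∈ W.Rt i0 i1, Adj v b) ∧ Conn (W.R ∩ {y | ds y x = ρ}) u v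

variable {W : Wall} {ξ : V → ℤ} {x u : V} {d r m ρ M : ℤ} {i0 i1 : ℕ} {S : Set V}

lemma Wall.Sec.ic (hP : W.Sec ξ x d r i0 i1 S) (hu : u ∈ S) {B : Set V}
    (hB : B ⊆ Bx x r \ Bx x d) {q : V} (h : W.IC B u q) : q ∈ S :=
  NConn.ind (Q := fun q => q ∈ S) h hu fun a b _ ab hb n ha =>
    hP.closed a ha b ab (hB hb).1 (hB hb).2 (by
      by_contra k
      exact n ⟨fun h => k (Or.inl h), fun h => k (Or.inr h)⟩)

/-- a high crosscut in the ring between the radii `m` and `M` -/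
def Xr (W : Wall) (i0 i1 : ℕ) (x u : V) (m ρ M : ℤ) : Set (V → ℤ) :=
  {g | W.Crs i0 i1 (Rg x ρ) u (W.R ∩ (Bx x M \ Bx x m) ∩ {q | 1 ≤ g q})}

lemma Xr_dep : Dep (Bx x M) (Xr W i0 i1 x u m ρ M) := by
  rintro g g' e ⟨a, ha, b, hb, h1, h2, u', v', h3, h4, c⟩
  exact ⟨a, ha, b, hb, h1, h2, u', v', h3, h4,
    c.mono fun q hq => ⟨hq.1, (e q hq.1.2.1 ▸ hq.2 : 1 ≤ g' q)⟩⟩

/-- a path between the two marked points that is low in the interior part of `S` -/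
def Thru (W : Wall) (i0 i1 : ℕ) (S : Set V) : Set (V → ℤ) :=
  {g | DConn W.R W.γ {v | v ∈ S → v ∈ W.R ∧ g v ≤ 0} (W.γ i0) (W.γ i1)}

/-- a high crosscut blocks the low paths -/
lemma Xr_block (hP : W.Sec ξ x d r i0 i1 S) (hu : u ∈ S) (hm : d ≤ m) (h1 : m ≤ ρ / 4)
    (h2 : 2 * ρ ≤ M) (hM : M ≤ r) {g : V → ℤ} (hX : g ∈ Xr W i0 i1 x u m ρ M) :
    g ∉ Thru W i0 i1 S := by
  intro c
  obtain ⟨_, ⟨a, a1, a2, rfl⟩, _, ⟨b, b1, b2, rfl⟩, k1, k2, u', v', h3, h4, c'⟩ := hX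
  have s : Rg x ρ ⊆ Bx x r \ Bx x d := sdiff_subset_sdiff (Bx_mono (by omega)) (Bx_mono (by omega))
  have s' : Bx x M \ Bx x m ⊆ Bx x r \ Bx x d := sdiff_subset_sdiff (Bx_mono hM) (Bx_mono hm)
  have ua := hP.ic hu s k1
  have ub := hP.ic hu s k2
  refine W.nc i0 a i1 b a1 a2 b1 b2 _
    ({W.γ a, W.γ b} ∪ {q | Conn (W.R ∩ (Bx x M \ Bx x m) ∩ {q | 1 ≤ g q}) u' q}) c
    ((((DConn.refl (Or.inl (Or.inl rfl))).tail ⟨h3, Or.inr (Or.inl c'.left.1.1)⟩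
      (Or.inr (Conn.refl c'.left))).trans (DConn.of_conn c'.cluster (fun _ h => h.right.1.1)
        subset_union_right)).tail ⟨h4, Or.inl c'.right.1.1⟩ (Or.inl (Or.inr rfl)))
    (disjoint_right.2 ?_)
  rintro q ((rfl | rfl) | hq) h
  · exact W.out a (h ua).1
  · exact W.out b (h ub).1
  · have h5 : 1 ≤ g q := hq.right.2
    have h6 := (h (hP.ic (hP.closed _ ua u' h3 (s' c'.left.1.2).1 (s' c'.left.1.2).2
      (Or.inr c'.left.1.1)) s' (nconn_of_conn hq (fun _ h => h.1.1) fun _ h => h.1.2))).2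
    omega

/-- one scale -/
lemma sec_step {c z t : ℝ} (hc : c ≤ 1)
    (hx : ∀ (R : Set V) (ξ : V → ℤ), Cls R → R ⊆ W.R → Ok (HD R ξ) → Bd R ξ (Ici 0) →
      (∀ q, W.IC (Rg x ρ) u q → (q ∈ W.R → q ∈ R) ∧ (q ∉ W.R → 1 ≤ ξ q)) →
      c ≤ Pr (HD R ξ) {g | W.Crs i0 i1 (Rg x ρ) u (R ∩ {q | 1 ≤ g q})})
    (hz : ∀ (n N : ℤ), d + 2 ≤ n → n ≤ N → N + 2 ≤ r → (n : ℝ) ≤ t * N →
      Pr (HD W.R ξ) (LowR W.R S x n N) ≤ z)
    (h01 : ∀ v, v ∉ W.R → ξ v = 0 ∨ ξ v = 1) (hP : W.Sec ξ x d r i0 i1 S) (hu : u ∈ S)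
    (d0 : 0 ≤ d) (hm : d + 1 ≤ m) (h1 : m + 1 ≤ ρ / 4 - 1) (h2 : 2 * ρ + 1 ≤ M - 1)
    (h3 : M + 1 ≤ r) (t1 : ((m + 1 : ℤ) : ℝ) ≤ t * (ρ / 4 - 1 : ℤ))
    (t2 : ((2 * ρ + 1 : ℤ) : ℝ) ≤ t * (M - 1 : ℤ)) {N : Set (V → ℤ)} (hN : Dep (Bx x m) N) :
    Pr (HD W.R ξ) (N ∩ (Xr W i0 i1 x u m ρ M)ᶜ) ≤ (1 - c) * Pr (HD W.R ξ) N + 2 * z := by
  set A := Bx x M \ Bx x m with hA
  set K : (V → ℤ) → Set V := SK (Iic (-1)) univ Aᶜ with hK
  set Z : Set (V → ℤ) := {g | ∀ q, W.IC (Rg x ρ) u q → q ∈ W.R → q ∉ cl (K g)} with hZ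
  obtain ⟨w0, g0, w0R⟩ := hP.near
  have s : Rg x ρ ⊆ Bx x r \ Bx x d := sdiff_subset_sdiff (Bx_mono (by omega)) (Bx_mono (by omega))
  have co : CoConn (W.R \ Aᶜ) := coConn_diff' W.coconn fun q hq => by
    by_cases h : q ∈ Bx x m
    · exact ⟨_, w0R, (Bx_conn (Bx_mono (by omega) g0) h).mono fun _ h => Or.inl fun h' => h'.2 h⟩
    · obtain ⟨o, ho⟩ := (W.fin.union (Bx_finite x M)).exists_notMem
      exact ⟨o, fun h => ho (Or.inl h), (coBx_conn (fun h => ho (Or.inr h))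
        fun h' => hq ⟨h', h⟩).mono fun _ h => Or.inl fun h' => h h'.1⟩
  have p1 : Pr (HD W.R ξ) (N ∩ (Xr W i0 i1 x u m ρ M)ᶜ ∩ Z) ≤ (1 - c) * Pr (HD W.R ξ) N := by
    rw [pr_HD_stop (stop_SK (Iic (-1)) univ Aᶜ), pr_eq _ N, ← ex_mul]
    refine ex_mono fun a ha => ?_
    have cs : Cls (W.R \ cl (K a)) := cls_SK W.fin co
    have o := Lp.ok ha.1 cs.fin
    have bd : Bd (W.R \ cl (K a)) a (Ici 0) := fun q h1 h2 => by
      obtain ⟨-, h | h | h⟩ := SK_bd h1 h2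
      · have := h01 q h.1
        have e : a q = ξ q := ha.2 q h.1
        show 0 ≤ a q
        omega
      · exact absurd trivial h
      · have : ¬a q ≤ -1 := h
        show 0 ≤ a q
        omega
    by_cases h : a ∈ N ∧ a ∈ Z
    · have := hx _ a cs sdiff_subset o bd fun q q1 => ⟨fun h' => ⟨h', h.2 q q1 h'⟩,
        fun h => ((ha.2 q h).trans (hP.flat q (hP.ic hu s q1) h)).ge⟩
      rw [indicator_of_mem h.1, Pi.one_apply, mul_one]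
      refine le_trans (pr_mono ?_) ((pr_compl o _).le.trans (sub_le_sub_left this 1))
      rintro g - hg ⟨a, ha, b, hb, h1, h2, u', v', h3, h4, c⟩
      exact hg.1.2 ⟨a, ha, b, hb, h1, h2, u', v', h3, h4, c.mono fun q hq =>
        ⟨⟨hq.1.1, by_contra fun h => hq.1.2 (sub_cl _ (sub_SK h))⟩, hq.2⟩⟩
    · rw [pr_none fun g hg hg' => h ⟨hN g a (fun q hq => hg.2 q fun h' =>
        h'.2 (sub_cl _ (sub_SK fun h'' => h''.2 hq))) hg'.1.1, fun q q1 q3 => by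
          rw [show K a = K g from (SK_eq hg).symm]; exact hg'.2 q q1 q3⟩]
      exact mul_nonneg (sub_nonneg.2 hc) (indicator_nonneg (fun _ _ => zero_le_one) _)
  have p2 : Pr (HD W.R ξ) Zᶜ ≤ 2 * z := by
    refine (pr_le_add (B := LowR W.R S x (2 * ρ + 1) (M - 1))
      (C := LowR W.R S x (m + 1) (ρ / 4 - 1)) fun g hg hZ' => ?_).trans ?_
    · simp only [hZ, mem_compl_iff, mem_ofPred_eq] at hZ'
      push Not at hZ'
      obtain ⟨q, q1, q3, q4⟩ := hZ'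
      have q2 := q1.right
      obtain ⟨p, p1, p2, p3, p4⟩ : ∃ p ∈ K g, p ∈ S ∧ p ∈ Bx x (2 * ρ + 1) ∧
          p ∉ Bx x (ρ / 4 - 1) := by
        have qO : q ∈ S := hP.ic hu s q1
        rcases q4 with q4 | ⟨p, hp, e⟩
        · exact ⟨q, q4, qO, Bx_mono (by omega) q2.1, fun h => q2.2 (Bx_mono (by omega) h)⟩
        · have k1 := Bx_adj q2.1 e.symm
          have k2 : p ∉ Bx x (ρ / 4 - 1) := fun h => q2.2 (by simpa using Bx_adj h e)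
          exact ⟨p, hp, hP.closed q qO p e.symm (Bx_mono (by omega) k1)
            (fun h => k2 (Bx_mono (by omega) h)) (Or.inl q3), k1, k2⟩
      rcases p1 with p1 | ⟨o, ho, w, e, c⟩
      · exact absurd ⟨Bx_mono (by omega) p3, fun h => p4 (Bx_mono (by omega) h)⟩ p1
      have c' : Conn (W.R ∩ {q | g q ≤ -1}) p w := c.symm.mono fun y hy => ⟨by_contra fun h => by
        have := h01 y h
        have e1 : g y = ξ y := hg.2 y h
        have e2 : g y ≤ -1 := hy.2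
        omega, hy.2⟩
      have wo : w ∉ Bx x (M - 1) \ Bx x (m + 1) := fun h => ho
        ⟨by simpa using Bx_adj h.1 e.symm, fun k => h.2 (Bx_adj k e)⟩
      obtain ⟨a, b, c1, ab, hb, c2⟩ := c'.exit (T := Bx x (M - 1) \ Bx x (m + 1))
        ⟨Bx_mono (by omega) p3, fun h => p4 (Bx_mono (by omega) h)⟩ wo
      have s2 : Bx x (M - 1) \ Bx x (m + 1) ⊆ Bx x r \ Bx x d :=
        sdiff_subset_sdiff (Bx_mono (by omega)) (Bx_mono (by omega))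
      have inS : ∀ y, Conn (W.R ∩ {q | g q ≤ -1} ∩ (Bx x (M - 1) \ Bx x (m + 1))) p y → y ∈ S :=
        fun y hy => hP.ic p2 s2 (nconn_of_conn hy (fun _ h => h.1.1) fun _ h => h.2)
      have bS : b ∈ S := hP.closed a (inS a c1) b ab (Bx_mono (by omega) (Bx_adj c1.right.2.1 ab))
        (fun h => c1.right.2.2 (Bx_mono (by omega) (Bx_adj h ab.symm))) (Or.inl c1.right.1.1)
      have c3 : Conn (W.R ∩ S ∩ {q | g q ≤ -1}) p b :=
        Conn.tail (c1.cluster.mono fun y hy => ⟨⟨hy.right.1.1, inS y hy⟩, hy.right.1.2⟩) ab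
          ⟨⟨c2.left.1, bS⟩, c2.left.2⟩
      by_cases h : b ∈ Bx x (M - 1)
      · exact Or.inr ⟨b, by_contra fun k => hb ⟨h, k⟩, p, p4, c3.symm⟩
      · exact Or.inl ⟨p, p3, b, h, c3⟩
    · have a1 := hz (2 * ρ + 1) (M - 1) (by omega) h2 (by omega) t2
      have a2 := hz (m + 1) (ρ / 4 - 1) (by omega) h1 (by omega) t1
      linarith
  rw [pr_split _ _ Z]
  exact add_le_add p1 ((pr_mono fun _ _ h => h.2).trans p2)

/-- low paths through a long sector with wall one are rare -/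
theorem secSt (η : ℝ) (hη : 0 < η) : ∃ l : ℤ, ∀ (W : Wall) (ξ : V → ℤ) (x : V) (d r : ℤ)
    (i0 i1 : ℕ) (S : Set V), (∀ v, v ∉ W.R → ξ v = 0 ∨ ξ v = 1) → 1 ≤ d → l * d ≤ r →
    W.Sec ξ x d r i0 i1 S → Pr (HD W.R ξ) (Thru W i0 i1 S) ≤ η := by
  obtain ⟨c0, hc0, r0, hx⟩ := xRg
  set c := min c0 (1 / 2) with hc
  have c1 : c ≤ 1 / 2 := min_le_right _ _
  have c2 : 0 < c := lt_min hc0 (by norm_num)
  obtain ⟨J, hJ⟩ := exists_pow_lt_of_lt_one (half_pos hη) (by linarith : 1 - c < 1)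
  obtain ⟨t, ht, hz⟩ := lowR_le (η / (4 * (J + 1))) (by positivity)
  obtain ⟨Λ, L1, L2, L3⟩ : ∃ Λ : ℤ, 16 ≤ Λ ∧ r0 ≤ Λ ∧ 16 ≤ t * Λ := by
    obtain ⟨n, hn⟩ := exists_nat_ge (16 / t)
    refine ⟨max (max 16 r0) n, by omega, by omega, ?_⟩
    have : (n : ℝ) ≤ (max (max 16 r0) n : ℤ) := by exact_mod_cast le_max_right _ _
    rw [div_le_iff₀ ht] at hn
    nlinarith
  refine ⟨2 * (Λ * Λ) ^ J + 3, fun W ξ x d r i0 i1 S h01 d1 hr hP => ?_⟩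
  obtain ⟨w0, g0, w0R⟩ := hP.near
  have key : ∀ j, j ≤ J → ∃ N, Dep (Bx x (2 * d * (Λ * Λ) ^ j)) N ∧ Thru W i0 i1 S ⊆ N ∧
      Pr (HD W.R ξ) N ≤ (1 - c) ^ j + j * (2 * (η / (4 * (J + 1)))) := by
    intro j
    induction j with
    | zero => exact fun _ => ⟨univ, Dep.univ _, fun _ _ => trivial, by simpa using pr_le_one _ _⟩
    | succ j ih =>
      intro hj
      obtain ⟨N, n1, n2, n3⟩ := ih (by omega)
      have l1 : (1 : ℤ) ≤ Λ * Λ := by nlinarith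
      have q1 : (1 : ℤ) ≤ (Λ * Λ) ^ j := one_le_pow₀ l1
      have q2 : (Λ * Λ) ^ (j + 1) ≤ (Λ * Λ) ^ J := pow_le_pow_right₀ l1 hj
      rw [pow_succ, ← mul_assoc]
      obtain ⟨m, hm⟩ : ∃ m, m = 2 * d * (Λ * Λ) ^ j := ⟨_, rfl⟩
      have m1 : 2 * d ≤ m := by nlinarith
      have m2 : m * Λ * Λ + 3 ≤ r := by
        rw [pow_succ] at q2
        have : m * Λ * Λ = 2 * d * ((Λ * Λ) ^ j * (Λ * Λ)) := by rw [hm]; ring
        nlinarith
      rw [← hm] at n1 ⊢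
      rw [← mul_assoc]
      have m3 : 16 * m ≤ m * Λ := by nlinarith
      have m4 : Λ ≤ m * Λ := by nlinarith
      obtain ⟨ρ, hρ⟩ : ∃ ρ, ρ = m * Λ := ⟨_, rfl⟩
      have m5 : 16 * ρ ≤ ρ * Λ := by nlinarith
      have t1 : ((m + 1 : ℤ) : ℝ) ≤ t * (ρ / 4 - 1 : ℤ) := by
        have e1 : ((m + 1 : ℤ) : ℝ) ≤ 2 * m := by exact_mod_cast (by omega : m + 1 ≤ 2 * m)
        have e2 : (m : ℝ) * Λ ≤ 8 * (ρ / 4 - 1 : ℤ) := by
          exact_mod_cast (by omega : m * Λ ≤ 8 * (ρ / 4 - 1))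
        have e3 : (0 : ℝ) ≤ m := by exact_mod_cast (by omega : 0 ≤ m)
        nlinarith
      have t2 : ((2 * ρ + 1 : ℤ) : ℝ) ≤ t * (ρ * Λ - 1 : ℤ) := by
        have e1 : ((2 * ρ + 1 : ℤ) : ℝ) ≤ 8 * ρ := by
          exact_mod_cast (by omega : 2 * ρ + 1 ≤ 8 * ρ)
        have e2 : (ρ : ℝ) * Λ ≤ 2 * (ρ * Λ - 1 : ℤ) := by
          exact_mod_cast (by omega : ρ * Λ ≤ 2 * (ρ * Λ - 1))
        have e3 : (0 : ℝ) ≤ ρ := by exact_mod_cast (by omega : 0 ≤ ρ)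
        nlinarith
      rw [← hρ] at m2 m3 m4 ⊢
      obtain ⟨M, hM⟩ : ∃ M, M = ρ * Λ := ⟨_, rfl⟩
      rw [← hM] at m2 m5 t2 ⊢
      obtain ⟨u, hu, v, u1, u2, u3⟩ := hP.cut ρ (by omega) (by omega)
      have s : Rg x ρ ⊆ Bx x r \ Bx x d :=
        sdiff_subset_sdiff (Bx_mono (by omega)) (Bx_mono (by omega))
      have st := sec_step (c := c) (m := m) (M := M) (by linarith)
        (fun R ξ' a1 a2 a3 a4 a5 => (min_le_left _ _).trans (hx W i0 i1 x u v w0 ρ R ξ'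
          (by omega) w0R (Bx_mono (by omega) g0) u1 u2 u3 a1 a2 a3 a4
          (fun q hq => ⟨fun e => hP.n0 (e ▸ hP.ic hu s hq), fun e => hP.n1 (e ▸ hP.ic hu s hq)⟩) a5))
        (fun n N a1 a2 a3 a4 => hz W.R S ξ x n N ⟨W.fin, W.coconn⟩ h01 (by omega) a2 a4
          ⟨w0, Bx_mono (by omega) g0, w0R⟩ (fun a ha b ab b1 b2 => hP.closed a ha b ab
            (Bx_mono a3 b1) fun k => b2 (Bx_mono (by omega) k)) hP.flat)
        h01 hP hu (by omega) (by omega) (by omega) (by omega) (by omega) t1 t2 n1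
      refine ⟨N ∩ (Xr W i0 i1 x u m ρ M)ᶜ, (n1.mono (Bx_mono (by omega))).inter Xr_dep.compl,
        fun g hg => ⟨n2 hg, fun h =>
          Xr_block hP hu (by omega) (by omega) (by omega) (by omega) h hg⟩, st.trans ?_⟩
      have := mul_le_mul_of_nonneg_left n3 (by linarith : 0 ≤ 1 - c)
      have e : (0 : ℝ) ≤ c * (j * (2 * (η / (4 * (J + 1))))) := by positivity
      push_cast
      rw [pow_succ]
      nlinarith
  obtain ⟨N, -, n2, n3⟩ := key J le_rfl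
  refine (pr_mono fun g _ h => n2 h).trans (n3.trans ?_)
  have : (J : ℝ) * (2 * (η / (4 * (J + 1)))) ≤ η / 2 := by
    rw [show (J : ℝ) * (2 * (η / (4 * (J + 1)))) = η / 2 * (J / (J + 1)) by field_simp; ring]
    exact mul_le_of_le_one_right (half_pos hη).le ((div_le_one (by positivity)).2 (by linarith))
  linarith

end Pool.Agent.Lib.MP_6359c9_pr
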