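import Pool.Agent.Lib.MP_6359c9_pr.HCmp

/-! Screening at the level of the wall inside a sector of a ring. -/

namespace Pool.Agent.Lib.MP_6359c9_pr

open Set

/-- projected measures whose weights agree up to a factor two -/
lemma pr_le_two {Ω Ω' Λ : Type} {M : Set Ω} {p : Ω → Λ} {M' : Set Ω'} {p' : Ω' → Λ} (hM : Ok M)
    (hM' : Ok M') (h1 : ∀ a, wt M p a ≤ wt M' p' a) (h2 : ∀ a, wt M' p' a ≤ 2 * wt M p a)
    (E : Set Λ) : Pr M (p ⁻¹' E) ≤ 2 * Pr M' (p' ⁻¹' E) := by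
  classical
  set s := hM.1.toFinset.image p ∪ hM'.1.toFinset.image p' with hs
  have s1 : ∀ x ∈ M, p x ∈ s := fun x hx =>
    Finset.mem_union_left _ (Finset.mem_image_of_mem p (hM.1.mem_toFinset.2 hx))
  have s2 : ∀ x ∈ M', p' x ∈ s := fun x hx =>
    Finset.mem_union_right _ (Finset.mem_image_of_mem p' (hM'.1.mem_toFinset.2 hx))
  have a1 := sum_wt hM.1 p (E.indicator 1) s s1
  have a2 := sum_wt hM'.1 p' (E.indicator 1) s s2
  have a3 := sum_wt hM.1 p (fun _ => 1) s s1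
  have a4 := sum_wt hM'.1 p' (fun _ => 1) s s2
  rw [Finset.sum_const, nsmul_eq_mul, ← Set.ncard_eq_toFinset_card _ hM.1] at a3
  rw [Finset.sum_const, nsmul_eq_mul, ← Set.ncard_eq_toFinset_card _ hM'.1] at a4
  have b1 : ∑ a ∈ s, (wt M p a : ℝ) * E.indicator 1 a ≤ ∑ a ∈ s, (wt M' p' a : ℝ) * E.indicator 1 a :=
    Finset.sum_le_sum fun a _ => mul_le_mul_of_nonneg_right (by exact_mod_cast h1 a)
      (indicator_nonneg (fun _ _ => zero_le_one) _)
  have b2 : ∑ a ∈ s, (wt M' p' a : ℝ) * 1 ≤ 2 * ∑ a ∈ s, (wt M p a : ℝ) * 1 := by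
    rw [Finset.mul_sum]
    exact Finset.sum_le_sum fun a _ => by rw [mul_one, mul_one]; exact_mod_cast h2 a
  have b3 : 0 ≤ ∑ a ∈ s, (wt M' p' a : ℝ) * E.indicator 1 a :=
    Finset.sum_nonneg fun a _ => mul_nonneg (Nat.cast_nonneg _)
      (indicator_nonneg (fun _ _ => zero_le_one) _)
  rw [pr_eq, pr_eq, ex_eq hM.1, ex_eq hM'.1]
  change (∑ x ∈ _, E.indicator 1 (p x)) / _ ≤ 2 * ((∑ x ∈ _, E.indicator 1 (p' x)) / _)
  rw [a1, a2, ← mul_div_assoc, div_le_div_iff₀ hM.pos hM'.pos]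
  have := hM.pos
  have := hM'.pos
  nlinarith

/-- weights of the projection to `I`, given the values off `I` -/
lemma wt_glu' {Ω : Type} (M : Set Ω) (q : Ω → V → Bool) (I : Set V) (r x : V → Bool)
    (h : ∀ v, v ∉ I → x v = true) :
    wt (M ∩ {w | ∀ v, v ∉ I → q w v = r v}) (fun w => glu I (q w) fun _ => true) x =
      wt M q (glu I x r) := by
  unfold wt
  refine congrArg _ (Set.ext fun w => ⟨fun hw => ⟨hw.1.1, ?_⟩, fun hw => ⟨⟨hw.1, fun v hv => ?_⟩, ?_⟩⟩)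
  · have : (glu I (q w) fun _ => true) = x := hw.2
    show q w = _
    rw [← this, glu_glu, glu_eq hw.1.2]
  · rw [show q w = _ from hw.2, glu_out _ _ hv]
  · show (glu I (q w) fun _ => true) = x
    rw [show q w = _ from hw.2, glu_glu, glu_eq h]

lemma wt_glu0 {Ω : Type} (M : Set Ω) (q : Ω → V → Bool) (I : Set V) (x : V → Bool)
    (h : ¬∀ v, v ∉ I → x v = true) : wt M (fun w => glu I (q w) fun _ => true) x = 0 := by
  unfold wt
  rw [Set.eq_empty_of_forall_notMem (s := _ ∩ _) fun w hw => h fun v hv => ?_, ncard_empty]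
  rw [← show (glu I (q w) fun _ => true) = x from hw.2, glu_out _ _ hv]

/-- the model with product weights -/
def RM (U L : Set V) : Set ((V → Bool) × (V → ZMod 2) × (V → ZMod 2)) :=
  {p | (∀ v, v ∉ U → p.1 v = false) ∧ p.2.1 ∈ Kc (lev p.1 false) L ∧ p.2.2 ∈ Kc (lev p.1 true) U}

lemma ok_RM {U L : Set V} (hU : U.Finite) (hL : L.Finite) : Ok (RM U L) := by
  refine ⟨((finite_pi (T := fun v => {a : Bool | v ∉ U → a = false}) hU (fun _ _ => Set.toFinite _)
    fun _ hv _ ha _ hb => (ha hv).trans (hb hv).symm).prod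
      ((Kc_finite univ hL).prod (Kc_finite univ hU))).subset fun p hp => ⟨hp.1,
        ⟨hp.2.1.1, fun _ _ _ h => (h ⟨trivial, trivial⟩).elim⟩,
        hp.2.2.1, fun _ _ _ h => (h ⟨trivial, trivial⟩).elim⟩,
    (fun _ => false, 0, 0), fun _ _ => rfl, ⟨fun _ _ => rfl, fun _ _ _ _ => rfl⟩,
    fun _ _ => rfl, fun _ _ _ _ => rfl⟩

lemma wt_RM {U L : Set V} {r : V → Bool} (h : ∀ v, v ∉ U → r v = false) :
    wt (RM U L) Prod.fst r = (Kc (lev r false) L).ncard * (Kc (lev r true) U).ncard := by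
  rw [wt, ← Set.ncard_prod, ← Set.ncard_image_of_injective
    (Kc (lev r false) L ×ˢ Kc (lev r true) U) (Prod.mk_right_injective r)]
  refine congrArg _ (Set.ext ?_)
  rintro ⟨a, b⟩
  constructor
  · rintro ⟨hp, rfl : a = r⟩
    exact ⟨b, hp.2, rfl⟩
  · rintro ⟨c, hc, e⟩
    cases e
    exact ⟨⟨h, hc⟩, rfl⟩

lemma wt_RM0 {U L : Set V} {r : V → Bool} (h : ¬∀ v, v ∉ U → r v = false) :
    wt (RM U L) Prod.fst r = 0 := by
  rw [wt, Set.eq_empty_of_forall_notMem (s := _ ∩ _) fun w hw => h ?_, ncard_empty]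
  rw [← show w.1 = r from hw.2]
  exact hw.1.1

/-- comparison with the product model in an arbitrary finite set `U` -/
theorem cmp_RM {R U L O : Set V} {β : V → Set Bool} (hR : R.Finite) (cR : CoConn R)
    (hU : U.Finite) (hL : L.Finite) (hRL : R ⊆ L)
    (hβ : ∃ F : Set V, F.Finite ∧ ∀ v, v ∉ F → (β v).Subsingleton)
    (hb : ∀ v, v ∈ R ∨ (v ∈ O ∧ v ∈ U) → β v = univ)
    (hO : ∀ u ∈ O, ∀ v, Adj u v → (u ∈ U ∨ v ∈ U) → (u ∈ R ∨ v ∈ R) → v ∈ O)
    (ok : Ok (Sp (tb β R))) {f : (V → Bool) → ℝ} (hf : Monotone f) (df : DependsOn f (O ∩ U)) :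
    Ex (RM U L) (fun w => f w.1) ≤ Ex (Sp (tb β R)) fun w => f (red w) := by
  classical
  obtain ⟨F, hF, hβ⟩ := hβ
  set I := O ∩ R ∩ U with hId
  have hI : ∀ v, v ∈ I ↔ v ∈ O ∧ v ∈ R ∧ v ∈ U := fun v => and_assoc
  have o1 := ok_RM hU hL
  rw [ex_fib _ fun w : (V → Bool) × (V → ZMod 2) × (V → ZMod 2) => glu I (fun _ => true) w.1]
  refine ex_le o1 fun w1 h1 => ?_
  rw [ex_fib (Sp (tb β R)) fun w => glu I (fun _ => true) (red w)]
  refine le_ex ok fun w0 h0 => ?_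
  have fib : ∀ r r' : V → Bool, glu I (fun _ => true) r = glu I (fun _ => true) r' ↔
      ∀ v, v ∉ I → r v = r' v := fun r r' => ⟨fun e v hv => by
        have := congrFun e v
        rwa [glu_out _ _ hv, glu_out _ _ hv] at this, fun e => funext fun v => by
        by_cases hv : v ∈ I
        · rw [glu_in _ _ hv, glu_in _ _ hv]
        · rw [glu_out _ _ hv, glu_out _ _ hv, e v hv]⟩
  simp only [fib]
  have n0 : ∀ v, v ∉ R → red w0 v = true := fun v hv => (h0.2 v).2 hv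
  have H : Hol (RM U L ∩ {y | ∀ v, v ∉ I → y.1 v = w1.1 v})
      (fun w => glu I w.1 fun _ => true)
      (Sp (tb β R) ∩ {y | ∀ v, v ∉ I → red y v = red w0 v})
      fun w => glu I (red w) fun _ => true := by
    intro x y
    by_cases hx : ∀ v, v ∉ I → x v = true
    swap
    · rw [wt_glu0 _ Prod.fst I x hx, zero_mul]; exact Nat.zero_le _
    by_cases hy : ∀ v, v ∉ I → y v = true
    swap
    · rw [wt_glu0 _ red I y hy, mul_zero]; exact Nat.zero_le _
    have a1 : ∀ z, wt (RM U L) Prod.fst (glu I z w1.1) = _ := fun z =>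
      wt_RM fun v hv => by rw [glu_out _ _ fun h => hv h.2, h1.1 v hv]
    have a0 : ∀ z, wt (Sp (tb β R)) red (glu I z (red w0)) = _ := fun z =>
      wt_tb hR cR (fun v hv => hb v (Or.inl hv)) fun v hv => by
        rw [glu_out _ _ fun h => hv h.1.2, n0 v hv]
    rw [wt_glu' _ Prod.fst I _ _ hx, wt_glu' _ red I _ _ hy,
      wt_glu' _ Prod.fst I _ _ fun v hv => by rw [Pi.inf_apply, hx v hv, hy v hv]; rfl,
      wt_glu' _ red I _ _ fun v hv => by rw [Pi.sup_apply, hx v hv, hy v hv]; rfl, a1, a1, a0, a0]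
    exact cmp_card hR hU hL hRL hF hβ (fun v h h' => hb v (Or.inr ⟨h, h'⟩)) hI hO n0 h1.1 x y
  have g1 : ∀ (r r' : V → Bool), (∀ v ∈ O, v ∈ U → r v ≤ r' v) → f r ≤ f r' := fun r r' h => by
    rw [df (y := glu (O ∩ U) r r') fun v hv => (glu_in _ _ hv).symm]
    refine hf fun v => ?_
    by_cases hv : v ∈ O ∩ U
    · rw [glu_in _ _ hv]; exact h v hv.1 hv.2
    · rw [glu_out _ _ hv]
  refine le_trans (ex_mono fun w _ => g1 _ _ fun v _ _ => ?_) ((H.ex_le
    (Ok.inter o1.1 h1 fun _ _ => rfl) (Ok.inter ok.1 h0 fun _ _ => rfl) hf).trans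
      (ex_mono fun w hw => g1 _ _ fun v h h' => ?_))
  · by_cases hv : v ∈ I
    · rw [glu_in _ _ hv]
    · rw [glu_out _ _ hv]; exact le_top
  · by_cases hv : v ∈ I
    · rw [glu_in _ _ hv]
    · rw [glu_out _ _ hv, show red w v = true from (hw.1.2 v).2 fun k => hv ⟨⟨h, k⟩, h'⟩]

/-- a connected hole that misses `P` costs a factor two -/
lemma Kc_hole {P U K : Set V} (hU : U.Finite) (hK : ∀ u ∈ K, ∀ v ∈ K, Conn K u v)
    (hP : ∀ v ∈ K, v ∉ P) : (Kc P U).ncard ≤ 2 * (Kc P (U \ K)).ncard := by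
  classical
  by_cases hk : K.Nonempty
  swap
  · rw [not_nonempty_iff_eq_empty.1 hk, sdiff_empty]; omega
  obtain ⟨k, hk⟩ := hk
  have con : ∀ c ∈ Kc P U, ∀ v ∈ K, c v = c k := fun c hc v hv =>
    (hK v hv k hk).const (f := c) fun x hx y _ xy => hc.2 x y xy fun h => hP x hx h.1
  have : ∀ t : ZMod 2, ∃ s : V → ZMod 2, (∃ c ∈ Kc P U, c k = t) → s ∈ Kc P U ∧ s k = t := fun t => by
    by_cases h : ∃ c ∈ Kc P U, c k = t
    · obtain ⟨c, hc⟩ := h
      exact ⟨c, fun _ => hc⟩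
    · exact ⟨0, fun h' => absurd h' h⟩
  choose s hs using this
  have e2 : (univ : Set (ZMod 2)).ncard = 2 := by simp [Set.ncard_univ]
  refine le_of_le_of_eq ?_ (congrArg (· * _) e2)
  rw [← Set.ncard_prod]
  refine Set.ncard_le_ncard_of_injOn (fun c => (c k, c - s (c k))) ?_ ?_
    ((Set.toFinite _).prod (Kc_finite _ (hU.subset sdiff_subset)))
  · intro c hc
    obtain ⟨s1, s2⟩ := hs (c k) ⟨c, hc, rfl⟩
    refine ⟨trivial, fun v hv => ?_, fun u v e h => ?_⟩ <;> dsimp only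
    · by_cases h : v ∈ K
      · rw [Pi.sub_apply, con c hc v h, con _ s1 v h, s2, sub_self]
      · rw [Pi.sub_apply, hc.1 v fun h' => hv ⟨h', h⟩, s1.1 v fun h' => hv ⟨h', h⟩, sub_self]
    · rw [Pi.sub_apply, Pi.sub_apply, hc.2 u v e h, s1.2 u v e h]
  · intro c _ c' _ h
    simp only [Prod.mk.injEq] at h
    obtain ⟨e1, e2⟩ := h
    rwa [e1, sub_left_inj] at e2

/-- the product model in a ring against the double plus model -/
lemma RM_le {U K L : Set V} (hU : U.Finite) (cU : CoConn U) (hL : L.Finite) (hUL : U ⊆ L)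
    (hK : ∀ u ∈ K, ∀ v ∈ K, Conn K u v) (E : Set (V → Bool)) :
    Pr (RM (U \ K) L) (Prod.fst ⁻¹' E) ≤
      2 * Pr (Sp (pp (U \ K) L)) ((fun w => ng (red w)) ⁻¹' E) := by
  have hU' : (U \ K).Finite := hU.subset sdiff_subset
  have key : ∀ r : V → Bool, (∀ v, v ∉ U \ K → r v = false) →
      wt (Sp (pp (U \ K) L)) (fun w => ng (red w)) r =
        (Kc (lev r false) L).ncard * (Kc (lev r true) U).ncard := fun r hr => by
    have t : ∀ v, v ∉ U \ K → ng r v = true := fun v hv => by rw [ng, hr v hv]; rfl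
    have e : wt (Sp (pp (U \ K) L)) red (ng r) = wt (Sp (pp U L)) red (ng r) :=
      congrArg Set.ncard (Set.ext fun w => ⟨fun h => ⟨⟨h.1.1, fun v =>
        ⟨fun hv => (h.1.2 v).1 fun k => hv k.1, (h.1.2 v).2⟩⟩, h.2⟩, fun h => ⟨⟨h.1.1, fun v =>
        ⟨fun hv => (congrFun (show red w = ng r from h.2) v).trans (t v hv), (h.1.2 v).2⟩⟩, h.2⟩⟩)
    rw [wt_ng, e, pp_eq_tb, wt_tb (β := off true L) hU cU
      (fun v hv => eq_univ_of_forall fun a h => absurd (hUL hv) h) fun v hv => t v fun k => hv k.1,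
      Ab_off hUL, lev_ng, lev_ng]
    rfl
  refine pr_le_two (ok_RM hU' hL) (ok_off true hU' hL) (fun r => ?_) (fun r => ?_) E
  · by_cases h : ∀ v, v ∉ U \ K → r v = false
    · rw [wt_RM h, key r h]
      exact Nat.mul_le_mul_left _ (Set.ncard_le_ncard
        (fun c hc => ⟨fun v hv => hc.1 v fun k => hv k.1, hc.2⟩) (Kc_finite _ hU))
    · rw [wt_RM0 h]; exact Nat.zero_le _
  · by_cases h : ∀ v, v ∉ U \ K → r v = false
    · rw [wt_RM h, key r h, mul_left_comm]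
      exact Nat.mul_le_mul_left _ (Kc_hole hU hK fun v hv k =>
        Bool.noConfusion ((h v fun k => k.2 hv).symm.trans k))
    · rw [wt, Set.eq_empty_of_forall_notMem (s := _ ∩ _) fun w hw => h fun v hv => ?_, ncard_empty]
      · exact Nat.zero_le _
      · rw [← show ng (red w) = r from hw.2, ng, show red w v = true from (hw.1.2 v).1 hv]; rfl

/-- screening at the level of the wall, inside a sector `O` of a ring -/
theorem zRing : ∃ C α : ℝ, 0 < C ∧ 0 < α ∧ ∀ (R L O : Set V) (y : V) (n N : ℤ), Cls R →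
    L.Finite → R ⊆ L → 1 ≤ n → n ≤ N → (∃ w ∈ Bx y n, w ∉ R) →
    (∀ u ∈ O, ∀ v, Adj u v → v ∈ Bx y (N + 2) → v ∉ Bx y (n - 2) → (u ∈ R ∨ v ∈ R) → v ∈ O) →
    (∀ v ∈ O, v ∈ Bx y (N + 1) → v ∈ L) →
    Pr (Ht (dd 0 R L)) {g | ¬Sep ({v | g v = 0 ∨ g v = 1} ∪ Oᶜ) (Bx y n) (Bx y N)ᶜ} ≤
      C * ((n : ℝ) / N) ^ α := by
  obtain ⟨C, α, hC, hα, H⟩ := arm_tm'
  refine ⟨2 * C, α, by positivity, hα, fun R L O y n N hR hL hRL h1 h2 hw hO hOL => ?_⟩
  obtain ⟨m, hm⟩ := exists_Bx (hR.fin.union (Bx_finite y (N + 1))) y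
  set U := Bx y (N + 1) \ Bx y (n - 1) with hUd
  have hU : U.Finite := (Bx_finite _ _).subset sdiff_subset
  set A : Set (V → Bool) := {r | Sep (lev r true \ Bx y (n - 1) ∪ Oᶜ) (Bx y n) (Bx y N)ᶜ} with hA
  have out : ∀ v ∈ cl (Bx y n)ᶜ, v ∉ Bx y (n - 1) := by
    rintro v (hv | ⟨u, hu, e⟩) h
    · exact hv (Bx_mono (by omega) h)
    · exact hu (by simpa using Bx_adj h e.symm)
  have o0 := ok_off true hR.fin hL
  have k := cmp_RM (O := O) (β := off true L) hR.fin hR.co hU (Bx_finite y m)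
    (subset_union_left.trans hm) ⟨L, hL, fun _ => off_sub⟩
    (fun v hv => eq_univ_of_forall fun a h =>
      absurd (hv.elim (@hRL v) fun k => hOL v k.1 k.2.1) h)
    (fun u hu v e h h' => hO u hu v e
      (h.elim (fun h => Bx_mono (by omega) (Bx_adj h.1 e)) fun h => Bx_mono (by omega) h.1)
      (h.elim (fun h k => h.2 (Bx_mono (by omega) (Bx_adj k e.symm)))
        fun h k => h.2 (Bx_mono (by omega) k)) h')
    (by rw [← pp_eq_tb]; exact o0)
    (mono_ind (A := A) fun _ _ h s => Sep.mono s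
      (union_subset_union_left _ (sdiff_subset_sdiff_left (lev_mono h))) subset_rfl subset_rfl)
    (Dep.ind (A := A) fun r r' e s => Sep.loc s fun v _ hv h => by
      by_cases o : v ∈ O
      · rw [compl_compl] at hv
        have h' := h.resolve_right fun k => k o
        exact Or.inl ⟨(e v ⟨o, cl_Bx y N hv, h'.2⟩).symm.trans h'.1, h'.2⟩
      · exact Or.inr o)
  have k1 := RM_le (K := Bx y (n - 1)) (Bx_finite y (N + 1)) (Bx_coConn _ _) (Bx_finite y m)
    (subset_union_right.trans hm) (fun _ hu _ hv => Bx_conn hu hv) Aᶜ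
  have k2 := H false (off true U) (Bx y m) y n N (tame_off true hU (Bx_finite _ _) (Bx_coConn _ _))
    h1 h2 fun v hv hv' => ⟨fun k => absurd
      ⟨Bx_mono (by omega) hv, fun k => hv' (Bx_mono (by omega) k)⟩ k,
      hm (Or.inr (Bx_mono (by omega) hv))⟩
  have k3 : Pr (Sp (pp U (Bx y m))) ((fun w => ng (red w)) ⁻¹' Aᶜ) ≤
      Pr (Sp (tm (off true U) (Bx y m))) (red ⁻¹' SepE false (Bx y n) (Bx y N)ᶜ)ᶜ :=
    pr_mono fun w _ h s => h (Sep.loc (ng_SepE.2 s : ng (red w) ∈ SepE true _ _)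
      fun v hv _ k => Or.inl ⟨k, out v hv⟩)
  have k4 : Pr (Sp (pp R L)) (red ⁻¹' A)ᶜ ≤ Pr (RM U (Bx y m)) (Prod.fst ⁻¹' Aᶜ) := by
    rw [pr_compl o0, preimage_compl, pr_compl (ok_RM hU (Bx_finite _ _)), pr_eq, pr_eq]
    rw [← pp_eq_tb] at k
    exact sub_le_sub_left k 1
  rw [← pr_bij (bij_dd hR.fin hR.co hRL)] at k4
  refine le_trans (pr_mono fun g hg h => ?_) (k4.trans (k1.trans (by linarith)))
  intro s
  refine h ?_
  have s' : Sep ((lev (red (spn g)) true ∪ Oᶜ) \ Bx y (n - 1)) (Bx y n) (Bx y N)ᶜ :=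
    Sep.loc s fun v hv _ k => ⟨k.imp_left And.left, out v hv⟩
  refine sep_level hR hw (fun v hv => Or.inl (by simpa using (hg.2 v).1 hv))
    (fun u hu hb v hv e => ?_) s'
  by_cases o : v ∈ O
  swap
  · exact Or.inr o
  refine Or.inl ?_
  by_cases r : v ∈ R
  swap
  · simpa using (hg.2 v).1 r
  have t1 : g u = 0 ∨ g u = 1 := hu.resolve_right fun k =>
    k (hO v o u e.symm (Bx_mono (by omega) hb) (fun k => hv.2 (Bx_mono (by omega) (Bx_adj k e)))
      (Or.inl r))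
  have t2 := sp1_red.1 (hv.1.resolve_right fun k => k o)
  have t3 := hg.1 u v e
  unfold Hp at t3
  show g v = 0 ∨ g v = 1
  omega

end Pool.Agent.Lib.MP_6359c9_pr
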