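import Pool.Agent.Lib.MP_6359c9_pr.WDom

/-! The Hex lemma for two wall points that may be adjacent through the outside. -/

namespace Pool.Agent.Lib.MP_6359c9_pr

namespace WD

namespace FaceD

variable {R : Set V} {n : ℕ} {γ : ℕ → V} {L : V → Prop} (D : FaceD R n γ L)
include D

/-- Sperner parity, inner edges only -/
lemma sperner' {A B : Set V} (d : Disjoint A B)
    (h : ∀ x ∈ A, ∀ y ∈ B, ∀ w, IE L x w → IE L y w → (∃ c, Ar w c ∧ L c) → w ∈ A ∨ w ∈ B)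
    {i : ℕ} (ha : γ i ∈ A) (hb : γ (i + 1) ∈ B)
    (un : ∀ u ∈ A, ∀ v ∈ B, CE γ u v → u = γ i ∧ v = γ (i + 1)) : False := by
  classical
  have d' : ∀ x ∈ A, x ∉ B := fun x h => Set.disjoint_left.1 d h
  have fin : {p : V × V | Adj p.1 p.2 ∧ L (lf p.1 p.2) ∧
      ((p.1 ∈ A ∧ p.2 ∈ B) ∨ (p.1 ∈ B ∧ p.2 ∈ A))}.Finite :=
    (D.fin.prod D.fin).subset fun p h => ⟨⟨_, ar_l h.1, h.2.1⟩, ⟨_, ar_r h.1, h.2.1⟩⟩
  set E := fin.toFinset with hE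
  have mem : ∀ p : V × V, p ∈ E ↔ Adj p.1 p.2 ∧ L (lf p.1 p.2) ∧
      ((p.1 ∈ A ∧ p.2 ∈ B) ∨ (p.1 ∈ B ∧ p.2 ∈ A)) := fun p => by simp [hE]
  have th : ∀ p ∈ E, thd p.1 p.2 ∈ A ∨ thd p.1 p.2 ∈ B := fun p hp => by
    obtain ⟨k, l, s | s⟩ := (mem p).1 hp
    · exact h _ s.1 _ s.2 _ ⟨k.thd.1, .inr (by rwa [lf_thd'])⟩ ⟨k.thd.2, .inl (by rwa [lf_thd])⟩
        ⟨_, ar_t k, l⟩
    · exact h _ s.2 _ s.1 _ ⟨k.thd.2, .inl (by rwa [lf_thd])⟩ ⟨k.thd.1, .inr (by rwa [lf_thd'])⟩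
        ⟨_, ar_t k, l⟩
  have s1 : ∑ _p ∈ E, (1 : ZMod 2) = 0 := by
    refine Finset.sum_involution (fun p _ => if (thd p.1 p.2 ∈ A ↔ p.1 ∈ A) then (p.2, thd p.1 p.2)
      else (thd p.1 p.2, p.1)) (fun _ _ => two 1) (fun p hp _ => ?_) (fun p hp => ?_)
      fun p hp => ?_
    · have := ((mem p).1 hp).1.ne
      split_ifs <;> simp only [ne_eq, Prod.ext_iff] <;> grind
    · obtain ⟨k, l, s⟩ := (mem p).1 hp
      have := th p hp
      have := d' p.1; have := d' p.2; have := d' (thd p.1 p.2)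
      split_ifs <;> rw [mem]
      · exact ⟨k.thd.2, by rwa [lf_thd], by grind⟩
      · exact ⟨k.thd.1.symm, by rwa [lf_thd'], by grind⟩
    · obtain ⟨k, l, s⟩ := (mem p).1 hp
      have := th p hp
      have := d' p.1; have := d' p.2; have := d' (thd p.1 p.2)
      by_cases e : (thd p.1 p.2 ∈ A ↔ p.1 ∈ A)
      · simp only [if_pos e, thd_thd]
        rw [if_neg (by grind)]
      · simp only [if_neg e, thd_thd']
        rw [if_pos (by grind)]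
  obtain ⟨e0, m0, n0, c0⟩ : ∃ e0 ∈ E, e0.swap ∉ E ∧ SE (γ i) (γ (i + 1)) e0.1 e0.2 := by
    have k := D.adj i
    have := D.cyc i
    by_cases e : L (lf (γ i) (γ (i + 1)))
    · exact ⟨(γ i, γ (i + 1)), (mem _).2 ⟨k, e, .inl ⟨ha, hb⟩⟩,
        fun z => this (iff_of_true e ((mem _).1 z).2.1), .inl ⟨rfl, rfl⟩⟩
    · exact ⟨(γ (i + 1), γ i), (mem _).2 ⟨k.symm, by tauto, .inr ⟨hb, ha⟩⟩,
        fun z => e ((mem _).1 z).2.1, .inr ⟨rfl, rfl⟩⟩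
  have s2 : ∑ _p ∈ E.erase e0, (1 : ZMod 2) = 0 := by
    refine Finset.sum_involution (fun p _ => p.swap) (fun _ _ => two 1) (fun p hp _ => ?_)
      (fun p hp => ?_) fun p _ => Prod.swap_swap p
    · have := ((mem p).1 (Finset.mem_of_mem_erase hp)).1.ne
      simp only [ne_eq, Prod.ext_iff, Prod.fst_swap, Prod.snd_swap]; grind
    · obtain ⟨n1, hp⟩ := Finset.mem_erase.1 hp
      obtain ⟨k, l, s⟩ := (mem p).1 hp
      have n2 : p.swap ≠ e0 := fun e => n0 (by rwa [← e, Prod.swap_swap])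
      refine Finset.mem_erase.2 ⟨n2, (mem _).2 ⟨k.symm, ((D.jump _ _ k).2 fun c => ?_).1 l,
        by simp only [Prod.fst_swap, Prod.snd_swap]; tauto⟩⟩
      have : SE (γ i) (γ (i + 1)) p.1 p.2 := by
        rcases s with s | s
        · have := un _ s.1 _ s.2 c
          exact .inl ⟨this.1.symm, this.2.symm⟩
        · have := un _ s.2 _ s.1 (c.imp fun _ => Or.symm)
          exact .inr ⟨this.1.symm, this.2.symm⟩
      simp only [ne_eq, Prod.ext_iff, Prod.fst_swap, Prod.snd_swap, SE] at *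
      grind
  rw [← Finset.add_sum_erase _ _ m0, s2] at s1
  exact absurd s1 (by decide)

/-- Hex with two point sides that are not joined by an inner edge -/
lemma hex' {i0 i1 : ℕ} (h1 : i0 < i1) (h2 : i1 < i0 + n) (na : ¬IE L (γ i0) (γ i1))
    (hp : ∃ u v, Adj (γ i0) u ∧ Conn R u v ∧ Adj v (γ i1)) (B : Set V) :
    (∃ (a b : ℕ) (u v : V), i0 < a ∧ a < i1 ∧ i1 < b ∧ b < i0 + n ∧ Adj (γ a) u ∧
      Conn (R ∩ B) u v ∧ Adj v (γ b)) ∨
    ∃ u v, Adj (γ i0) u ∧ Conn (R \ B) u v ∧ Adj v (γ i1) := by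
  by_contra hc
  rw [not_or] at hc
  obtain ⟨n1, n2⟩ := hc
  have := D.three
  have h3 : i0 + 1 < i1 := by
    by_contra e
    obtain rfl : i1 = i0 + 1 := by omega
    exact na (D.ie ⟨D.adj i0, .inr (.inr ⟨i0, .inl ⟨rfl, rfl⟩⟩)⟩)
  refine D.sperner' (A := {v | v = γ i0 ∨ ∃ u, Adj (γ i0) u ∧ Conn (R \ B) u v})
    (B := {v | ∃ a, i0 < a ∧ a < i1 ∧ (v = γ a ∨ ∃ u, Adj (γ a) u ∧ Conn (R ∩ B) u v)})
    (Set.disjoint_left.2 ?_) ?_ (.inl rfl) ⟨_, by omega, h3, .inl rfl⟩ ?_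
  · rintro v (rfl | ⟨u, -, c⟩) ⟨a, a1, a2, e | ⟨u', -, c'⟩⟩
    · exact D.inj _ _ a1 (by omega) e
    · exact D.out _ c'.right.1
    · exact D.out _ (e ▸ c.right.1)
    · exact c.right.2 c'.right.2
  · rintro x hx y ⟨a, a1, a2, hy⟩ w xw yw hw
    rcases D.cl w hw with r | ⟨j, rfl⟩
    · by_cases b : w ∈ B
      · refine .inr ⟨a, a1, a2, .inr ?_⟩
        rcases hy with rfl | ⟨u, k, c⟩
        exacts [⟨w, yw.1, Conn.refl ⟨r, b⟩⟩, ⟨u, k, c.tail yw.1 ⟨r, b⟩⟩]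
      · refine .inl (.inr ?_)
        rcases hx with rfl | ⟨u, k, c⟩
        exacts [⟨w, xw.1, Conn.refl ⟨r, b⟩⟩, ⟨u, k, c.tail xw.1 ⟨r, b⟩⟩]
    obtain ⟨b, b1, b2, e⟩ := D.rep i0 j
    rw [show γ j = γ b from (e 0).symm] at *
    rcases b1.eq_or_lt with rfl | b1
    · exact .inl (.inl rfl)
    rcases lt_trichotomy b i1 with b3 | rfl | b3
    · exact .inr ⟨b, b1, b3, .inl rfl⟩
    · rcases hx with rfl | ⟨u, k, c⟩
      exacts [(na xw).elim, (n2 ⟨u, x, k, c, xw.1⟩).elim]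
    rcases hy with rfl | ⟨u, k, c⟩
    swap
    · exact (n1 ⟨a, b, u, y, a1, a2, b3, b2, k, c, yw.1⟩).elim
    obtain ⟨u, v, k1, c, k2⟩ := hp
    refine (D.nc a1 a2 b3 b2 (S := {x | x ∈ R ∨ x = γ i0 ∨ x = γ i1})
      (T := {x | x = γ a ∨ x = γ b}) (.inr (.inl rfl)) ?_ (.inl rfl)
      (.single ⟨yw, .inr rfl⟩) (Set.disjoint_left.2 ?_)).elim
    · refine Relation.ReflTransGen.tail ?_ ⟨D.ie ⟨k2, .inl c.right⟩, .inr (.inr rfl)⟩
      exact c.ind (P := fun z => Relation.ReflTransGen _ (γ i0) z)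
        (.single ⟨D.ie ⟨k1, .inr (.inl c.left)⟩, .inl c.left⟩)
        fun _ _ _ k r ih => ih.tail ⟨D.ie ⟨k, .inr (.inl r)⟩, .inl r⟩
    · rintro z (r | e | e) (rfl | rfl)
      · exact D.out _ r
      · exact D.out _ r
      · exact D.inj _ _ a1 (by omega) e.symm
      · exact D.inj _ _ b1 b2 e.symm
      · exact D.inj _ _ a2 (by omega) e
      · exact D.inj _ _ b3 (by omega) e.symm
  · have cy : ∀ u v, CE γ u v → u ∉ R ∧ v ∉ R := by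
      rintro u v ⟨i, ⟨rfl, rfl⟩ | ⟨rfl, rfl⟩⟩ <;> exact ⟨D.out _, D.out _⟩
    rintro u (rfl | ⟨_, -, c⟩) v ⟨a, a1, a2, rfl | ⟨_, -, c'⟩⟩ e
    · obtain ⟨m, rfl⟩ : ∃ m, n = m + 1 := ⟨n - 1, by omega⟩
      rw [← D.per i0, ← add_assoc] at e
      rcases D.ce e with e | e
      · exact (D.inj _ _ (by omega) (by omega) e).elim
      · exact ⟨rfl, by rw [e, ← D.per (i0 + 1)]; congr 1; omega⟩
    · exact ((cy _ _ e).2 c'.right.1).elim
    · exact ((cy _ _ e).1 c.right.1).elim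
    · exact ((cy _ _ e).1 c.right.1).elim

end FaceD

end WD

end Pool.Agent.Lib.MP_6359c9_pr
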