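import Pool.Agent.Lib.MP_6359c9_pr.RgLen
import Pool.Agent.Lib.MP_6359c9_pr.RgHex

/-! Low crossings of a quadrilateral of large modulus are rare. -/

namespace Pool.Agent.Lib.MP_6359c9_pr

open Set

/-- crosscuts at all levels and small energy -/
theorem engCore (η : ℝ) (hη : 0 < η) : ∃ M : ℝ, 0 < M ∧ ∀ (W : Wall) (ξ : V → ℤ) (i0 i1 : ℕ)
    (E0 E2 : Set V) (F : Finset V) (lam hi e : V → ℝ) (s0 s1 : ℝ),
    (∀ v, v ∉ W.R → ξ v = 0 ∨ ξ v = 1) → W.γ i0 ∈ E0 → W.γ i1 ∈ E2 →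
    (∀ v ∈ E0, DConn W.R W.γ E0 v (W.γ i0)) → (∀ v ∈ E2, DConn W.R W.γ E2 v (W.γ i1)) →
    (∀ i, W.γ i ∉ E0 → W.γ i ∉ E2 → ξ (W.γ i) = 1) → (∀ v ∈ F, v ∉ E0 ∪ E2) → s0 < s1 →
    (∀ s, s0 < s → s ≤ s1 → W.Gate i0 i1 (E0 ∪ E2) {v | v ∈ F ∧ lam v < s ∧ s ≤ hi v}) →
    (∀ v ∈ F, 0 ≤ e v ∧ min (hi v) s1 - max (lam v) s0 ≤ e v) →
    M * ∑ v ∈ F, e v ^ 2 ≤ (s1 - s0) ^ 2 → Pr (HD W.R ξ) (Crx W i0 i1 E0 E2) ≤ η := by
  obtain ⟨l0, hl⟩ := quadSt η hη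
  obtain ⟨l, l1, l2⟩ : ∃ l : ℕ, l0 ≤ l ∧ 1 ≤ l := ⟨max l0.toNat 1, by omega, by omega⟩
  refine ⟨(4 * l + 11) ^ 2, by positivity,
    fun W ξ i0 i1 E0 E2 F lam hi e s0 s1 h01 m0 m2 c0 c2 flat hF hs cut he hM => ?_⟩
  obtain ⟨x, d, d1, k1, k2⟩ := gateCore l l2 W F lam hi e c0 c2 hF hs cut he hM
  exact hl W ξ x d (l * d) i0 i1 E0 E2 h01 d1 (mul_le_mul_of_nonneg_right l1 (by omega))
    ⟨m0, m2, c0, c2, flat, k1, k2⟩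

/-- the part of a path between two sets -/
lemma DConn.mid {R P E0 E2 : Set V} {γ : ℕ → V} {u v : V} (h : DConn R γ P u v) (hu : u ∈ E0)
    (hv : v ∈ E2) (d : Disjoint E0 E2) (n : ∀ a ∈ E0, ∀ b ∈ E2, ¬DE R γ a b) :
    ∃ a ∈ E0, ∃ b ∈ E2, ∃ p q, DE R γ a p ∧ DConn R γ (P \ (E0 ∪ E2)) p q ∧ DE R γ q b := by
  obtain ⟨p, a, c1, e1, ha, -⟩ := h.symm.exit (T := E0ᶜ) (fun k => disjoint_left.1 d k hv)
    fun k => k hu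
  obtain ⟨q, b, c2, e2, hb, -⟩ := c1.symm.exit (T := E2ᶜ)
    (fun k => n a (not_not.1 ha) p k e1.symm) fun k => k hv
  exact ⟨a, not_not.1 ha, b, not_not.1 hb, p, q, e1.symm,
    c2.mono fun y hy => ⟨hy.1.1, fun k => k.elim hy.1.2 hy.2⟩, e2⟩

/-- a wall point of an end that is reached through the interior -/
lemma Wall.anchor (W : Wall) {E : Set V} {i : ℕ} {a p : V} (c : DConn W.R W.γ E a (W.γ i))
    (e : Adj a p) (hp : p ∈ W.R) : ∃ j u, W.γ j ∈ E ∧ Adj (W.γ j) u ∧ Conn W.R u p := by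
  rcases W.bd p hp a e.symm with h | ⟨j, rfl⟩
  · obtain ⟨a', b', c1, e1, hb, c2⟩ := c.exit h (W.out i)
    obtain ⟨j, rfl⟩ := (W.bd a' c1.right.2 b' e1.1).resolve_left hb
    exact ⟨j, a', c2.left, e1.1.symm, (c1.conn.mono inter_subset_right).symm.tail e hp⟩
  · exact ⟨j, p, c.left, e, Conn.refl hp⟩

/-- low crossings of a quadrilateral of small energy are rare -/
theorem engSt (η : ℝ) (hη : 0 < η) : ∃ M : ℝ, 0 < M ∧ ∀ (R : Set V) (n : ℕ) (γ : ℕ → V)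
    (L : V → Prop) (D : WD.FaceD R n γ L) (ξ : V → ℤ) (i0 i1 : ℕ) (E0 E2 : Set V) (F : Finset V)
    (lam hi e : V → ℝ) (t0 t1 : ℝ), (∀ v, v ∉ R → ξ v = 0 ∨ ξ v = 1) → γ i0 ∈ E0 → γ i1 ∈ E2 →
    (∀ v ∈ E0, DConn R γ E0 v (γ i0)) → (∀ v ∈ E2, DConn R γ E2 v (γ i1)) → Disjoint E0 E2 →
    (∀ a ∈ E0, ∀ b ∈ E2, ¬WD.IE L a b) → (∀ i, γ i ∉ E0 → γ i ∉ E2 → ξ (γ i) = 1) →
    (∀ v, v ∈ F ↔ v ∈ R \ (E0 ∪ E2)) → t0 < t1 →
    (∀ u ∈ F, ∀ v ∈ F, Adj u v → lam v ≤ hi u) → (∀ u ∈ E0, ∀ v ∈ F, Adj u v → lam v ≤ t0) →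
    (∀ u ∈ E2, ∀ v ∈ F, Adj u v → t1 ≤ hi v) →
    (∀ v ∈ F, 0 ≤ e v ∧ min (hi v) t1 - max (lam v) t0 ≤ e v) →
    M * ∑ v ∈ F, e v ^ 2 ≤ (t1 - t0) ^ 2 → Pr (HD R ξ) (Crx D.wall i0 i1 E0 E2) ≤ η := by
  obtain ⟨M, hM, H⟩ := engCore η hη
  refine ⟨9 * M + 10, by positivity, fun R n γ L D ξ i0 i1 E0 E2 F lam hi e t0 t1 h01 m0 m2 c0 c2 dj
    ne flat hF ht h1 h2 h3 he hE => ?_⟩
  by_cases ex : ∃ g ∈ HD R ξ, g ∈ Crx D.wall i0 i1 E0 E2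
  swap
  · rw [pr_none fun g hg h => ex ⟨g, hg, h⟩]; exact hη.le
  obtain ⟨g, hg, c⟩ := ex
  have ne' : ∀ a ∈ E0, ∀ b ∈ E2, ¬DE R γ a b := fun a ha b hb k => ne a ha b hb (D.ie k)
  obtain ⟨a, ha, b, hb, p, q, e1, c1, e2⟩ := DConn.mid (R := R) (γ := γ) c m0 m2 dj ne'
  have c3 : DConn R γ R p q := c1.cluster.mono fun y hy => by
    have y0 : y ∉ E0 := fun k => hy.right.2 (Or.inl k)
    have y2 : y ∉ E2 := fun k => hy.right.2 (Or.inr k)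
    rcases D.wall.dwall (S := univ) ((((c0 a ha).symm.mono (subset_univ _)).tail e1 trivial).trans
      (hy.mono (subset_univ _))) with k | ⟨j, rfl⟩
    · exact k
    · have k1 := (hg.2 _ (D.out j)).trans (flat j y0 y2)
      have k2 : g (γ j) ≤ 0 := hy.right.1 y0 y2
      omega
  obtain ⟨j0, u, a0, au, cu⟩ := D.wall.anchor (c0 a ha) e1.1 c3.left
  obtain ⟨j, v, a2, av, cv⟩ := D.wall.anchor (c2 b hb) e2.1.symm c3.right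
  obtain ⟨j1, k1, k2, k3⟩ := D.wall.idx j0 j
  rw [← k3] at a2 av
  change γ j0 ∈ E0 at a0
  change γ j1 ∈ E2 at a2
  have k4 : j0 < j1 := lt_of_le_of_ne k1 fun k => disjoint_left.1 dj a0 (k ▸ a2)
  have S0 : 0 ≤ ∑ v ∈ F, e v ^ 2 := Finset.sum_nonneg fun _ _ => sq_nonneg _
  have sm : ∀ v ∈ F, e v < (t1 - t0) / 3 := fun v hv => by
    have k5 := Finset.single_le_sum (f := fun v => e v ^ 2) (fun _ _ => sq_nonneg _) hv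
    refine lt_of_pow_lt_pow_left₀ 2 (by linarith) ?_
    have : 0 < (t1 - t0) ^ 2 := by have := sub_pos.2 ht; positivity
    nlinarith
  refine le_trans (pr_mono fun g' _ c' => ?_) (H D.wall ξ j0 j1 E0 E2 F lam hi e
    (t0 + (t1 - t0) / 3) (t1 - (t1 - t0) / 3) h01 a0 a2
    (fun v hv => (c0 v hv).trans (c0 _ a0).symm) (fun v hv => (c2 v hv).trans (c2 _ a2).symm) flat
    (fun v hv => ((hF v).1 hv).2) (by linarith) (fun s s0 s1 => ?_)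
    (fun v hv => ⟨(he v hv).1, le_trans (sub_le_sub (min_le_min_left _ (by linarith))
      (max_le_max_left _ (by linarith))) (he v hv).2⟩) (by nlinarith))
  · exact DConn.trans (DConn.trans ((c0 _ a0).mono fun y hy k => absurd hy k) c')
      ((c2 _ a2).symm.mono fun y hy _ k => absurd hy k)
  have off : ∀ w ∈ F, lam w < s → s ≤ hi w → ∀ y, Adj y w → y ∉ E0 ∪ E2 := by
    rintro w hw l1 l2 y yw (k | k)
    · have k5 := (he w hw).2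
      rw [max_eq_right (h2 y k w hw yw)] at k5
      have := sm w hw
      have : s ≤ min (hi w) t1 := le_min l2 (by linarith)
      linarith
    · have k5 := (he w hw).2
      rw [min_eq_right (h3 y k w hw yw)] at k5
      have := sm w hw
      have : max (lam w) t0 ≤ s := max_le l1.le (by linarith)
      linarith
  rcases D.hex' k4 k2 (ne _ a0 _ a2) ⟨u, v, au, (cu.trans c3.conn).trans cv.symm, av.symm⟩
    {v | v ∈ F ∧ lam v < s ∧ s ≤ hi v} with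
    ⟨a', b', u', v', l1, l2, l3, l4, l5, l6, l7⟩ | ⟨u', v', l1, l2, l3⟩
  · exact ⟨a', b', u', v', l1, l2, l3, l4, off u' l6.left.2.1 l6.left.2.2.1 l6.left.2.2.2 _ l5,
      off v' l6.right.2.1 l6.right.2.2.1 l6.right.2.2.2 _ l7.symm, l5, l7, l6⟩
  exfalso
  obtain ⟨a', ha', b', hb', p', q', e3, c4, e4⟩ := ((((DConn.refl (R := R) (γ := γ)
    (S := E0 ∪ E2 ∪ R \ {v | v ∈ F ∧ lam v < s ∧ s ≤ hi v}) (Or.inl (Or.inl a0))).tail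
      ⟨l1, Or.inr (Or.inl l2.left.1)⟩ (Or.inr l2.left)).trans
    (DConn.of_conn l2 sdiff_subset subset_union_right)).tail ⟨l3, Or.inl l2.right.1⟩
      (Or.inl (Or.inr a2))).mid a0 a2 dj ne'
  have inF : ∀ y ∈ (E0 ∪ E2 ∪ R \ {v | v ∈ F ∧ lam v < s ∧ s ≤ hi v}) \ (E0 ∪ E2),
      y ∈ F ∧ (lam y < s → hi y < s) := fun y hy => by
    have k5 := hy.1.resolve_left hy.2
    have k6 := (hF y).2 ⟨k5.1, hy.2⟩
    exact ⟨k6, fun k7 => not_le.1 fun k8 => k5.2 ⟨k6, k7, k8⟩⟩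
  have fin : hi q' < s := c4.ind (P := fun y => hi y < s)
    ((inF p' c4.left).2 ((h2 a' ha' p' (inF p' c4.left).1 e3.1).trans_lt (by linarith)))
    fun y z cy yz hz ih => (inF z hz).2 ((h1 y (inF y cy.right).1 z (inF z hz).1 yz.1).trans_lt ih)
  have := h3 b' hb' q' (inF q' c4.right).1 e4.1.symm
  linarith

/-- high crossings of a quadrilateral of small energy with wall zero are rare -/
theorem engSt' (η : ℝ) (hη : 0 < η) : ∃ M : ℝ, 0 < M ∧ ∀ (R : Set V) (n : ℕ) (γ : ℕ → V)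
    (L : V → Prop) (_ : WD.FaceD R n γ L) (ξ : V → ℤ) (i0 i1 : ℕ) (E0 E2 : Set V) (F : Finset V)
    (lam hi e : V → ℝ) (t0 t1 : ℝ), (∀ v, v ∉ R → ξ v = 0 ∨ ξ v = 1) → γ i0 ∈ E0 → γ i1 ∈ E2 →
    (∀ v ∈ E0, DConn R γ E0 v (γ i0)) → (∀ v ∈ E2, DConn R γ E2 v (γ i1)) → Disjoint E0 E2 →
    (∀ a ∈ E0, ∀ b ∈ E2, ¬WD.IE L a b) → (∀ i, γ i ∉ E0 → γ i ∉ E2 → ξ (γ i) = 0) →
    (∀ v, v ∈ F ↔ v ∈ R \ (E0 ∪ E2)) → t0 < t1 →
    (∀ u ∈ F, ∀ v ∈ F, Adj u v → lam v ≤ hi u) → (∀ u ∈ E0, ∀ v ∈ F, Adj u v → lam v ≤ t0) →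
    (∀ u ∈ E2, ∀ v ∈ F, Adj u v → t1 ≤ hi v) →
    (∀ v ∈ F, 0 ≤ e v ∧ min (hi v) t1 - max (lam v) t0 ≤ e v) →
    M * ∑ v ∈ F, e v ^ 2 ≤ (t1 - t0) ^ 2 →
    Pr (HD R ξ) {g | DConn R γ {v | v ∉ E0 → v ∉ E2 → 1 ≤ g v} (γ i0) (γ i1)} ≤ η := by
  obtain ⟨M, hM, H⟩ := engSt η hη
  refine ⟨M, hM, fun R n γ L D ξ i0 i1 E0 E2 F lam hi e t0 t1 h01 m0 m2 c0 c2 dj
    ne flat hF ht h1 h2 h3 he hE => ?_⟩
  have k := H R n γ L D (fun v => 1 - ξ v) i0 i1 E0 E2 F lam hi e t0 t1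
    (fun v hv => by have := h01 v hv; omega) m0 m2 c0 c2 dj ne
    (fun i h h' => by rw [flat i h h']; rfl) hF ht h1 h2 h3 he hE
  rw [← pr_bij (bij_HD_neg 1 R ξ)] at k
  refine le_trans (pr_mono fun g _ h => ?_) k
  exact DConn.mono h fun y hy h1 h2 => by
    have := hy h1 h2
    show 1 - g y ≤ 0
    omega

end Pool.Agent.Lib.MP_6359c9_pr
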