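import Pool.Agent.Lib.MP_6359c9_pr.RgArm

/-! Low crossings of a long quadrilateral with wall one are rare. -/

namespace Pool.Agent.Lib.MP_6359c9_pr

open Set

namespace DConn

variable {R S T : Set V} {γ : ℕ → V} {u v : V}

lemma exit (h : DConn R γ S u v) (hu : u ∈ T) (hv : v ∉ T) :
    ∃ a b, DConn R γ (S ∩ T) u a ∧ DE R γ a b ∧ b ∉ T ∧ DConn R γ S b v := by
  have key : DConn R γ (S ∩ T) u v ∨
      ∃ a b, DConn R γ (S ∩ T) u a ∧ DE R γ a b ∧ b ∉ T ∧ DConn R γ S b v := by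
    refine h.ind (P := fun v => DConn R γ (S ∩ T) u v ∨
      ∃ a b, DConn R γ (S ∩ T) u a ∧ DE R γ a b ∧ b ∉ T ∧ DConn R γ S b v)
      (Or.inl (refl ⟨h.left, hu⟩)) ?_
    rintro a b - e hb (c | ⟨a', b', c1, e', n, c2⟩)
    · by_cases k : b ∈ T
      · exact Or.inl (c.tail e ⟨hb, k⟩)
      · exact Or.inr ⟨a, b, c, e, k, refl hb⟩
    · exact Or.inr ⟨a', b', c1, e', n, c2.tail e hb⟩
  exact key.resolve_left fun c => hv c.right.2

lemma conn (h : DConn R γ S u v) : Conn S u v :=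
  h.ind (P := fun x => Conn S u x) (Conn.refl h.left) fun _ _ _ e hb ih => ih.tail e.1 hb

end DConn

lemma Wall.dwall (W : Wall) {S : Set V} {i : ℕ} {v : V} (h : DConn W.R W.γ S (W.γ i) v) :
    v ∈ W.R ∨ ∃ j, W.γ j = v := by
  refine h.ind (P := fun v => v ∈ W.R ∨ ∃ j, W.γ j = v) (Or.inr ⟨i, rfl⟩) ?_
  rintro a b - ⟨e, h | h | ⟨j, h | h⟩⟩ - -
  · exact W.bd a h b e
  · exact Or.inl h
  · exact Or.inr ⟨_, h.2⟩
  · exact Or.inr ⟨_, h.1⟩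

/-- a path between the two marked points that is low off the two ends -/
def Crx (W : Wall) (i0 i1 : ℕ) (E0 E2 : Set V) : Set (V → ℤ) :=
  {g | DConn W.R W.γ {v | v ∉ E0 → v ∉ E2 → g v ≤ 0} (W.γ i0) (W.γ i1)}

/-- the end `E2` is far from the crosscut `T` -/
lemma quad_half (η : ℝ) (hη : 0 < η) : ∃ l : ℤ, ∀ (W : Wall) (ξ : V → ℤ) (x u : V) (d r : ℤ)
    (i0 a i1 b : ℕ) (E0 E2 T : Set V), (∀ v, v ∉ W.R → ξ v = 0 ∨ ξ v = 1) → 1 ≤ d → l * d ≤ r →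
    i0 < a → a < i1 → i1 < b → b < i0 + W.n → (∀ v ∈ E0, DConn W.R W.γ E0 v (W.γ i0)) →
    (∀ v ∈ E2, DConn W.R W.γ E2 v (W.γ i1)) → W.γ i1 ∈ E2 →
    (∀ i, W.γ i ∉ E0 → W.γ i ∉ E2 → ξ (W.γ i) = 1) → T ⊆ Bx x d \ (E0 ∪ E2) → W.γ b ∈ T →
    (∀ t ∈ T, DConn W.R W.γ T (W.γ a) t) → Adj (W.γ a) u → (∀ t ∈ T, t ∈ W.R → Conn W.R u t) →
    (∀ t ∈ T, ∀ v ∈ E2, ¬DConn W.R W.γ (Bx x r) t v) →
    Pr (HD W.R ξ) (Crx W i0 i1 E0 E2) ≤ η := by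
  obtain ⟨l, hl⟩ := secSt η hη
  refine ⟨max l 2, fun W ξ x u d r i0 a i1 b E0 E2 T h01 d1 hr l1 l2 l3 l4 c0 c2 m2 flat hT bT cT
    au uT far => ?_⟩
  have r1 : l * d ≤ r := (mul_le_mul_of_nonneg_right (le_max_left _ _) (by omega)).trans hr
  have r2 : 2 * d ≤ r := (mul_le_mul_of_nonneg_right (le_max_right _ _) (by omega)).trans hr
  by_cases ne : ∃ g ∈ HD W.R ξ, g ∈ Crx W i0 i1 E0 E2
  swap
  · rw [pr_none fun g hg h => ne ⟨g, hg, h⟩]; exact hη.le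
  set G : Set V := {v | DConn W.R W.γ Tᶜ v (W.γ i1)} with hG
  set N : Set V := {v | ∃ t ∈ T, DConn W.R W.γ (Bx x r) t v} with hN
  have aT : W.γ a ∈ T := (cT _ bT).left
  have blk : ¬DConn W.R W.γ Tᶜ (W.γ i0) (W.γ i1) := fun c =>
    W.nc i0 a i1 b l1 l2 l3 l4 _ _ c (cT _ bT) disjoint_compl_left
  have nG : ∀ v ∈ G, v ∉ E0 := fun v hv h =>
    blk (((c0 v h).symm.mono fun y hy k => (hT k).2 (Or.inl hy)).trans hv)
  have nN : ∀ v ∈ E2, v ∉ N := fun v hv ⟨t, ht, c⟩ => far t ht v hv c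
  have TN : T ⊆ N := fun t ht => ⟨t, ht, DConn.refl (Bx_mono (by omega) (hT ht).1)⟩
  have NB : N ⊆ Bx x r := fun v ⟨_, _, c⟩ => c.right
  have low : ∀ g ∈ HD W.R ξ, ∀ v, (v ∈ W.R ∨ ∃ j, W.γ j = v) → v ∉ E0 → v ∉ E2 → g v ≤ 0 →
      v ∈ W.R := by
    rintro g hg v (h | ⟨j, rfl⟩) h0 h2 h3
    · exact h
    · have := (hg.2 _ (W.out j)).trans (flat j h0 h2)
      omega
  have last : ∀ P, DConn W.R W.γ P (W.γ i0) (W.γ i1) → ∃ s ∈ T, s ∈ P ∧ ∃ s', DE W.R W.γ s s' ∧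
      DConn W.R W.γ (P ∩ G) s' (W.γ i1) := fun P c => by
    obtain ⟨p, hp, c1⟩ := (c.symm.hit T).resolve_left fun k => blk k.symm
    obtain ⟨s', s, c3, e, hs, c4⟩ := c1.exit (T := Tᶜ) (fun k => (hT k).2 (Or.inr m2)) fun k => k hp
    exact ⟨s, not_not.1 hs, c4.left, s', e.symm, DConn.symm (c3.cluster.mono fun y hy =>
      ⟨hy.right.1, (hy.mono inter_subset_right).symm⟩)⟩
  obtain ⟨j, v, j1, j2, jr, uv, vj, jN⟩ : ∃ j v, a ≤ j ∧ j < a + W.n ∧ W.γ j ∉ Bx x r ∧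
      Conn W.R u v ∧ Adj v (W.γ j) ∧ DConn W.R W.γ Nᶜ (W.γ j) (W.γ i1) := by
    obtain ⟨g, hg, c⟩ := ne
    obtain ⟨s, sT, sP, s', e, c1⟩ := last _ c
    have s0 : s ∉ E0 := fun k => (hT sT).2 (Or.inl k)
    have s2 : s ∉ E2 := fun k => (hT sT).2 (Or.inr k)
    have sR : s ∈ W.R := low g hg s (W.dwall (cT s sT)) s0 s2 (sP s0 s2)
    obtain ⟨p, e2, c3, e', he, -⟩ := (((DConn.refl (S := {s} ∪ ({v | v ∉ E0 → v ∉ E2 → g v ≤ 0} ∩ G))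
      (Or.inl rfl)).tail e (Or.inr c1.left)).trans (c1.mono subset_union_right)).exit
        (T := E2ᶜ) s2 fun k => k m2
    have c4 : DConn W.R W.γ W.R s p := c3.mono (by
      rintro y ⟨rfl | hy, h2⟩
      · exact sR
      · exact low g hg y (W.dwall hy.2.symm) (nG y hy.2) h2 (hy.1 (nG y hy.2) h2))
    have c5 : DConn W.R W.γ Nᶜ e2 (W.γ i1) := (c2 e2 (not_not.1 he)).mono nN
    obtain ⟨p', q, k1, k2, k3, k4⟩ : ∃ p' q, p' ∈ N ∧ DConn W.R W.γ W.R s p' ∧ DE W.R W.γ p' q ∧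
        DConn W.R W.γ Nᶜ q (W.γ i1) := by
      by_cases h : p ∈ N
      · exact ⟨p, e2, h, c4, e', c5⟩
      · obtain ⟨q, p', c6, e3, hp', c7⟩ := c4.symm.exit (T := Nᶜ) h fun k => k (TN sT)
        exact ⟨p', q, not_not.1 hp', c7.symm, e3.symm,
          (((c6.mono inter_subset_right).symm.tail e' c5.left)).trans c5⟩
    have qr : q ∉ Bx x r := fun k => by
      obtain ⟨t, ht, c8⟩ := k1
      exact k4.left ⟨t, ht, c8.tail k3 k⟩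
    have up : Conn W.R u p' := (uT s sT sR).trans k2.conn
    suffices ∃ j v, W.γ j ∉ Bx x r ∧ Conn W.R u v ∧ Adj v (W.γ j) ∧
        DConn W.R W.γ Nᶜ (W.γ j) (W.γ i1) by
      obtain ⟨j, v, h⟩ := this
      obtain ⟨k, h1, h2, h3⟩ := W.idx a j
      exact ⟨k, v, h1, h2, by rwa [h3]⟩
    rcases W.bd p' up.right q k3.1 with h | ⟨j, rfl⟩
    · obtain ⟨o, ho⟩ := (W.fin.union (Bx_finite x r)).exists_notMem
      obtain ⟨a', b', c9, e4, hb', c10⟩ := (coBx_conn qr fun k => ho (Or.inr k)).exit h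
        fun k => ho (Or.inl k)
      obtain ⟨j, rfl⟩ := (W.bd a' c9.right.2 b' e4).resolve_left hb'
      exact ⟨j, a', c10.left, (up.tail k3.1 h).trans (c9.mono inter_subset_right), e4,
        ((DConn.of_conn c9 inter_subset_right fun y hy k => hy.1 (NB k)).tail
          ⟨e4, Or.inl c9.right.2⟩ fun k => c10.left (NB k)).symm.trans k4⟩
    · exact ⟨j, p', qr, up, k3.1, k4⟩
  have ad := (hT aT).1
  have aj : a < j := lt_of_le_of_ne j1 fun e => jr (e ▸ Bx_mono (by omega) ad)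
  have jG : W.γ j ∈ G := jN.mono (compl_subset_compl.2 TN)
  refine le_trans (pr_mono fun g hg c => ?_) (hl W ξ x d r a j (G ∩ N) h01 d1 r1
    ⟨aj, j2, ⟨_, ad, W.out a⟩, fun k => k.1.left aT, fun k => jr (NB k.2), ?_, ?_, ?_⟩)
  · obtain ⟨s, sT, -, s', e, c1⟩ := last _ c
    have k : DConn W.R W.γ {v | v ∈ G ∩ N → v ∈ W.R ∧ g v ≤ 0} s' (W.γ i1) :=
      c1.mono fun y hy h => by
        have h2 : y ∉ E2 := fun k => nN y k h.2
        have h3 := hy.1 (nG y h.1) h2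
        exact ⟨low g hg y (W.dwall h.1.symm) (nG y h.1) h2 h3, h3⟩
    have k' : DConn W.R W.γ {v | v ∈ G ∩ N → v ∈ W.R ∧ g v ≤ 0} (W.γ a) s :=
      (cT s sT).mono fun y hy h => absurd hy h.1.left
    exact ((k'.tail e k.left).trans k).trans (jN.symm.mono fun y hy h => absurd h.2 hy)
  · rintro p ⟨p1, t, ht, p2⟩ q e q1 q2 h
    have e' : DE W.R W.γ p q := ⟨e, h.imp_right Or.inl⟩
    exact ⟨((DConn.refl (S := Tᶜ) fun k => q2 (hT k).1).tail e'.symm p1.left).trans p1, t, ht, p2.tail e' q1⟩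
  · intro w hw wR
    obtain ⟨i, rfl⟩ := (W.dwall hw.1.symm).resolve_left wR
    exact flat i (nG _ hw.1) fun k => nN _ k hw.2
  · intro ρ h1 h2
    rcases W.hex a j aj j2 (fun e => jr (Bx_mono (by omega) (Bx_adj ad e))) ⟨u, v, au, uv, vj⟩
      (G ∩ N ∩ {y | ds y x = ρ}) with
      ⟨a', b', u', v', k1, k2, k3, k4, k5, k6, k7⟩ | ⟨u', v', k1, k2, k3⟩
    · exact ⟨u', k6.left.2.1, v', ⟨_, ⟨a', k1, k2, rfl⟩, k5⟩, ⟨_, ⟨b', k3, k4, rfl⟩, k7⟩,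
        k6.mono fun y hy => ⟨hy.1, hy.2.2⟩⟩
    exfalso
    obtain ⟨s', s, c1, e, hs, -⟩ := ((((DConn.refl (R := W.R) (γ := W.γ)
      (S := {W.γ a, W.γ j} ∪ W.R \ (G ∩ N ∩ {y | ds y x = ρ})) (Or.inl (Or.inr rfl))).tail
        ⟨k3.symm, Or.inr (Or.inl k2.right.1)⟩ (Or.inr k2.right)).trans
      (DConn.of_conn k2.symm sdiff_subset subset_union_right)).tail
        ⟨k1.symm, Or.inl k2.left.1⟩ (Or.inl (Or.inl rfl))).exit (T := Tᶜ) jG.left fun k => k aT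
    have sT : s ∈ T := not_not.1 hs
    have s1 : s' ∈ Bx x ρ := Bx_mono (by omega) (Bx_adj (hT sT).1 e.1.symm)
    obtain ⟨y, y', c3, e', hy', -⟩ := c1.cluster.symm.exit s1 fun k => jr (Bx_mono h2 k)
    have y1 := c3.right
    rcases y1.1.right.1 with (h | h) | h
    · exact y1.1.right.2 (h ▸ aT)
    · exact jr (Bx_mono h2 (h ▸ y1.2))
    · refine h.2 ⟨⟨(y1.1.mono inter_subset_right).symm.trans jG, s, sT,
        ((DConn.refl (NB (TN sT))).tail e.symm (Bx_mono h2 s1)).trans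
          (c3.mono fun z hz => Bx_mono h2 hz.2)⟩, ?_⟩
      have t1 := mem_Bx_ds.1 y1.2
      have t2 : ¬ds y' x ≤ ρ := fun k => hy' (mem_Bx_ds.2 k)
      have t3 := e'.1.ds_le x
      show ds y x = ρ
      omega

/-- a quadrilateral between the ends `E0`, `E2` with wall `s`, a crosscut of size `d` and no
crossing of size `r` -/
structure Wall.Quad (W : Wall) (ξ : V → ℤ) (x : V) (d r : ℤ) (i0 i1 : ℕ) (E0 E2 : Set V) (s : ℤ) :
    Prop where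
  m0 : W.γ i0 ∈ E0
  m2 : W.γ i1 ∈ E2
  c0 : ∀ v ∈ E0, DConn W.R W.γ E0 v (W.γ i0)
  c2 : ∀ v ∈ E2, DConn W.R W.γ E2 v (W.γ i1)
  flat : ∀ i, W.γ i ∉ E0 → W.γ i ∉ E2 → ξ (W.γ i) = s
  cut : ∃ (a b : ℕ) (u v : V), i0 < a ∧ a < i1 ∧ i1 < b ∧ b < i0 + W.n ∧
    W.γ a ∈ Bx x d \ (E0 ∪ E2) ∧ W.γ b ∈ Bx x d \ (E0 ∪ E2) ∧ Adj (W.γ a) u ∧ Adj v (W.γ b) ∧
    Conn (W.R ∩ (Bx x d \ (E0 ∪ E2))) u v
  long : ∀ u ∈ E0, ∀ v ∈ E2, ¬DConn W.R W.γ (Bx x r) u v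

/-- low crossings of a long quadrilateral with wall one are rare -/
theorem quadSt (η : ℝ) (hη : 0 < η) : ∃ l : ℤ, ∀ (W : Wall) (ξ : V → ℤ) (x : V) (d r : ℤ)
    (i0 i1 : ℕ) (E0 E2 : Set V), (∀ v, v ∉ W.R → ξ v = 0 ∨ ξ v = 1) → 1 ≤ d → l * d ≤ r →
    W.Quad ξ x d r i0 i1 E0 E2 1 → Pr (HD W.R ξ) (Crx W i0 i1 E0 E2) ≤ η := by
  obtain ⟨l, hl⟩ := quad_half η hη
  refine ⟨max l 1, fun W ξ x d r i0 i1 E0 E2 h01 d1 hr hQ => ?_⟩
  have r1 : l * d ≤ r := (mul_le_mul_of_nonneg_right (le_max_left _ _) (by omega)).trans hr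
  have r2 : 1 * d ≤ r := (mul_le_mul_of_nonneg_right (le_max_right _ _) (by omega)).trans hr
  obtain ⟨a, b, u, v, l1, l2, l3, l4, ha, hb, au, vb, c⟩ := hQ.cut
  set T := {W.γ a, W.γ b} ∪ {q | Conn (W.R ∩ (Bx x d \ (E0 ∪ E2))) u q} with hTd
  have hT : T ⊆ Bx x d \ (E0 ∪ E2) := by
    rintro q ((rfl | rfl) | h)
    exacts [ha, hb, h.right.2]
  have aT : W.γ a ∈ T := Or.inl (Or.inl rfl)
  have bT : W.γ b ∈ T := Or.inl (Or.inr rfl)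
  have k1 : ∀ q, Conn (W.R ∩ (Bx x d \ (E0 ∪ E2))) u q → DConn W.R W.γ T (W.γ a) q := fun q h =>
    ((DConn.refl aT).tail ⟨au, Or.inr (Or.inl c.left.1)⟩ (Or.inr (Conn.refl c.left))).trans
      (DConn.of_conn h.cluster (fun _ h => h.right.1) subset_union_right)
  have cT : ∀ t ∈ T, DConn W.R W.γ T (W.γ a) t := by
    rintro q ((rfl | rfl) | h)
    exacts [DConn.refl aT, (k1 v c).tail ⟨vb, Or.inl c.right.1⟩ bT, k1 q h]
  have uT : ∀ t ∈ T, t ∈ W.R → Conn W.R u t := by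
    rintro q ((rfl | rfl) | h) k
    exacts [absurd k (W.out a), absurd k (W.out b), h.mono inter_subset_left]
  by_cases far : ∀ t ∈ T, ∀ v ∈ E2, ¬DConn W.R W.γ (Bx x r) t v
  · exact hl W ξ x u d r i0 a i1 b E0 E2 T h01 d1 r1 l1 l2 l3 l4 hQ.c0 hQ.c2 hQ.m2 hQ.flat hT bT cT
      au uT far
  push Not at far
  obtain ⟨t, ht, e, he, ce⟩ := far
  refine le_trans (pr_mono fun g _ h => ?_) (hl W ξ x v d r i1 b (i0 + W.n) (a + W.n) E2 E0 T h01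
    d1 r1 l3 l4 (by omega) (by omega) hQ.c2 (by rw [W.per]; exact hQ.c0) (by rw [W.per]; exact hQ.m0)
    (fun i h h' => hQ.flat i h' h) (by rwa [union_comm]) (by rwa [W.per])
    (fun q hq => (cT _ bT).symm.trans (cT q hq)) vb.symm
    (fun q hq k => (c.mono inter_subset_left).symm.trans (uT q hq k)) fun q hq w hw cw => ?_)
  · show DConn _ _ _ _ _
    rw [W.per]
    exact (DConn.symm h).mono fun y hy h1 h2 => hy h2 h1
  · exact hQ.long w hw e he ((cw.symm.trans (((cT q hq).symm.trans (cT t ht)).mono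
      fun y hy => Bx_mono (by omega) (hT hy).1)).trans ce)

/-- high crossings of a long quadrilateral with wall zero are rare -/
theorem quadSt' (η : ℝ) (hη : 0 < η) : ∃ l : ℤ, ∀ (W : Wall) (ξ : V → ℤ) (x : V) (d r : ℤ)
    (i0 i1 : ℕ) (E0 E2 : Set V), (∀ v, v ∉ W.R → ξ v = 0 ∨ ξ v = 1) → 1 ≤ d → l * d ≤ r →
    W.Quad ξ x d r i0 i1 E0 E2 0 → Pr (HD W.R ξ)
      {g | DConn W.R W.γ {v | v ∉ E0 → v ∉ E2 → 1 ≤ g v} (W.γ i0) (W.γ i1)} ≤ η := by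
  obtain ⟨l, hl⟩ := quadSt η hη
  refine ⟨l, fun W ξ x d r i0 i1 E0 E2 h01 d1 hr hQ => ?_⟩
  have k := hl W (fun v => 1 - ξ v) x d r i0 i1 E0 E2
    (fun v hv => by have := h01 v hv; omega) d1 hr
    ⟨hQ.m0, hQ.m2, hQ.c0, hQ.c2, fun i h h' => by rw [hQ.flat i h h']; rfl, hQ.cut, hQ.long⟩
  rw [← pr_bij (bij_HD_neg 1 W.R ξ)] at k
  refine le_trans (pr_mono fun g _ h => ?_) k
  exact DConn.mono h fun y hy h1 h2 => by
    have := hy h1 h2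
    show 1 - g y ≤ 0
    omega

end Pool.Agent.Lib.MP_6359c9_pr
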