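import Pool.Agent.Lib.MP_6359c9_pr.Spec

/-! Comparison of models that are free around a set, and ratio mixing. -/

namespace Pool.Agent.Lib.MP_6359c9_pr

open Set Filter Topology

namespace Rm

variable {ρ ρ' : V → Set Bool} {W W' I J U A k : Set V} {E : Set (V → Bool)} {d d' : ℤ}
  {F f : Cf → ℝ}

lemma nbd_mono (h : d ≤ d') : Nbd I d ⊆ Nbd I d' := fun _ ⟨u, hu, hv⟩ => ⟨u, hu, Bx_mono h hv⟩

lemma cl_nbd (I : Set V) (d : ℤ) : cl (Nbd I d) ⊆ Nbd I (d + 1) := by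
  rintro v (hv | ⟨_, ⟨u, hu, h⟩, a⟩)
  · exact nbd_mono (by omega) hv
  · exact ⟨u, hu, cl_Bx _ _ (mem_cl h a)⟩

lemma sub_nbd (I : Set V) (h : 0 ≤ d) : I ⊆ Nbd I d :=
  fun v hv => ⟨v, hv, by rw [mem_Bx]; omega⟩

lemma nbd_fin {x : V} {n : ℤ} (h : I ⊆ Bx x n) : (Nbd I d).Finite :=
  (Bx_finite x (n + d)).subset fun _ ⟨_, hu, hv⟩ => Bx_add (h hu) hv

lemma free_mono (h : Free ρ W A) (s : U ⊆ A) : Free ρ W U := fun v hv => h v (s hv)

/-- the double plus model on the free set is an upper bound -/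
lemma up (t : Tame ρ W) (f : Free ρ W U) (hE : IsUpperSet E) :
    Pr (MS ρ W) (red ⁻¹' E) ≤ Pr (PP U) (red ⁻¹' E) := by
  have := pr_inter_le_PP t.fin t.co (fun v hv => (f v hv).2)
    (fun v hv => (f v hv).1 ▸ mem_univ _) hE (Dep.univ _)
  rwa [univ_inter, preimage_univ, pr_all t.ok fun x _ => mem_univ x, one_mul] at this

/-- and a lower bound behind a separator -/
lemma low (t : Tame ρ W) (f : Free ρ W (cl U)) (hE : IsUpperSet E) (hI : Dep I E) :
    Pr (PP U) (red ⁻¹' E) * Pr (MS ρ W) (red ⁻¹' SepE true I Uᶜ) ≤ Pr (MS ρ W) (red ⁻¹' E) := by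
  have Uf : U.Finite := t.fin.subset fun v hv => (f v (sub_cl _ hv)).2
  rw [pr_eq (MS ρ W), pr_eq (MS ρ W), ← ex_mul]
  refine ex_fib_le (RK true Uᶜ) fun x hx => ?_
  by_cases hx' : x ∈ red ⁻¹' SepE true I Uᶜ
  · have e := explore_tm t hx (mem_univ x) (Dep.univ _) ((dep_red hI).mono
      (k' := (RK true Uᶜ x)ᶜ) fun v hv hk => sep_iff.1 (Sep.symm hx') v hk hv).ind
    have s : (cl (RK true Uᶜ x))ᶜ ⊆ U := fun v hv =>
      not_not.1 fun h => hv (sub_cl _ (sub_NK _ _ h))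
    have e2 : aft ρ (RK true Uᶜ x) true = off true (cl (RK true Uᶜ x))ᶜ := by
      funext v
      ext a
      refine ⟨fun h hv => h.1 (not_not.1 hv), fun h => ⟨fun hv => h (not_not.2 hv), fun hv => ?_⟩⟩
      rw [(f v (sub_cl _ (not_not.1 fun h => hv (sub_NK _ _ h)))).1]
      trivial
    rw [inter_univ] at e
    rw [e, e2, ← pr_eq, ← pr_PP_red (Uf.subset s) t.fin
      ((cl_mono s).trans fun v hv => (f v hv).2)]
    refine le_trans (ex_le (Ok.inter (A := {y | RK true Uᶜ y = RK true Uᶜ x}) t.ok.1 hx rfl)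
      fun y _ => ?_) (pr_PP_anti Uf s hE)
    exact mul_le_of_le_one_right (pr_nonneg _ _) (indicator_le_self' (fun _ _ => zero_le_one) y)
  · refine ex_mono fun y hy => ?_
    have hy' : y ∉ red ⁻¹' SepE true I Uᶜ := fun h => hx' (Sep.symm (sep_iff.2 fun v hv =>
      sep_iff.1 (Sep.symm h) v ((show RK true Uᶜ y = RK true Uᶜ x from hy.2).ge hv)))
    rw [indicator_of_notMem hy', mul_zero]
    exact indicator_nonneg (fun _ _ => zero_le_one) y

/-- the models in large boxes -/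
abbrev Bg (R : ℕ) : Set Cf := MS (off true (Bx 0 R)) (Bx 0 R)

lemma tame_big (R : ℕ) : Tame (off true (Bx 0 R)) (Bx 0 R) :=
  tame_off true (Bx_finite _ _) (Bx_finite _ _) (Bx_coConn _ _)

lemma lim (h : Lc univ F) : Tendsto (fun R => Ex (Bg R) F) atTop (𝓝 (Einf F)) := by
  simpa using tendsto_off h true 0 0

lemma ev_free (hA : A.Finite) : ∀ᶠ R : ℕ in atTop, Free (off true (Bx 0 R)) (Bx 0 R) A := by
  obtain ⟨n, hn⟩ := exists_Bx hA 0
  filter_upwards [eventually_ge_atTop n] with R hR v hv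
  have := Bx_mono (m' := R) (by exact_mod_cast hR) (hn hv)
  exact ⟨eq_univ_of_forall fun _ h => absurd this h, this⟩

/-- red is plus on `S` -/
def Pl (S : Set V) : Set (V → Bool) := {r | ∀ v ∈ S, r v = true}

lemma pl_up (S : Set V) : IsUpperSet (Pl S) := fun _ _ h ha v hv => lev_mono h (ha v hv)

lemma pl_dep (S : Set V) : Dep S (Pl S) := fun _ _ e h v hv => (e v hv).symm.trans (h v hv)

lemma lc_rp (h : A.Finite) : Lc univ (rpI A) :=
  ⟨A, h, subset_univ _, .of_dep (dep_red (pl_dep A)).ind⟩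

lemma lim_rp (h : A.Finite) :
    Tendsto (fun R => Pr (Bg R) (red ⁻¹' Pl A)) atTop (𝓝 (Einf (rpI A))) := by
  simp only [pr_eq]
  exact lim (lc_rp h)

/-- `k` is filled by paths from `I` -/
def Ek (I k : Set V) : Set Cf := {y | ∀ v ∈ k, ∃ o ∈ I, NConn (lev (red y) true) k o v}

lemma dep_Ek : Dep k (Ek I k) := fun _ _ e hy v hv =>
  let ⟨o, ho, c⟩ := hy v hv
  ⟨o, ho, c.congr fun u hu h => (congrArg Prod.fst (e u hu)).trans h⟩

lemma RK_iff (h : I ⊆ k) (y : Cf) :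
    RK true I y = k ↔ y ∈ red ⁻¹' Pl (cl k ∩ cl kᶜ) ∧ y ∈ Ek I k :=
  ⟨fun e => e ▸ ⟨fun _ hv => NK_bd' hv.1 hv.2, fun _ => NK_in⟩,
    fun e => NK_eq h (fun v a b => e.1 v ⟨a, b⟩) e.2⟩

lemma sp_bdy (T : V → Set (Bool × Bool)) (k : Set V) :
    Sp T ∩ red ⁻¹' Pl (cl k ∩ cl kᶜ) = Sp (bdy T k true) :=
  Set.ext fun _ => ⟨fun h => ⟨h.1.1, fun v => ⟨h.1.2 v, fun a b => h.2 v ⟨a, b⟩⟩⟩,
    fun h => ⟨⟨h.1, fun v => (h.2 v).1⟩, fun v hv => (h.2 v).2 hv.1 hv.2⟩⟩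

/-- decomposition over the cluster of `I` -/
lemma split (T : V → Set (Bool × Bool)) {s : Finset (Set V)} (hs : ∀ k, k ∈ s ↔ I ⊆ k ∧ k ⊆ J)
    (f : Cf → ℝ) : Ex (Sp T) (fun w => sepI I Jᶜ w * f w) = ∑ k ∈ s,
      Pr (Sp T) (red ⁻¹' Pl (cl k ∩ cl kᶜ)) * Ex (Sp (bdy T k true)) ((Ek I k).indicator f) := by
  simp only [← sp_bdy, ← ex_cond, ← ex_sum, indicator_indicator]
  refine ex_congr fun w _ => ?_
  have z : ∀ k ∈ s, k ≠ RK true I w →
      (red ⁻¹' Pl (cl k ∩ cl kᶜ) ∩ Ek I k).indicator f w = 0 := fun k hk n =>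
    indicator_of_notMem (s := _ ∩ _) (fun h => n ((RK_iff ((hs k).1 hk).1 w).2 h).symm) f
  by_cases h : w ∈ red ⁻¹' SepE true I Jᶜ
  · rw [sepI, indicator_of_mem h, Pi.one_apply, one_mul, Finset.sum_eq_single_of_mem _
      ((hs _).2 ⟨sub_NK _ _, fun v hv => not_not.1 (sep_iff.1 h v hv)⟩) z,
      indicator_of_mem (s := _ ∩ _) ((RK_iff (sub_NK _ _) w).1 rfl)]
  · rw [sepI, indicator_of_notMem h, zero_mul, Finset.sum_eq_zero fun k hk => z k hk fun e =>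
      h (sep_iff.2 fun v hv n => n (((hs k).1 hk).2 (e.ge hv)))]

/-- comparison of the insides of two models -/
lemma ratio {T T' : V → Set (Bool × Bool)} (hJ : J.Finite) (e : ∀ v ∈ J, T v = T' v) {C : ℝ}
    (C0 : 0 < C) (hC : ∀ k ⊆ J, Pr (Sp T) (red ⁻¹' Pl (cl k ∩ cl kᶜ)) ≤
      C * Pr (Sp T') (red ⁻¹' Pl (cl k ∩ cl kᶜ))) (f0 : ∀ w, 0 ≤ f w) (hf : DependsOn f I) :
    Ex (Sp T) (fun w => sepI I Jᶜ w * f w) ≤ C * Ex (Sp T') fun w => sepI I Jᶜ w * f w := by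
  have fs : {k | I ⊆ k ∧ k ⊆ J}.Finite := hJ.finite_subsets.subset fun _ h => h.2
  rw [split T fun k => fs.mem_toFinset, split T' fun k => fs.mem_toFinset, Finset.mul_sum]
  refine Finset.sum_le_sum fun k hk => ?_
  obtain ⟨h1, h2⟩ := fs.mem_toFinset.1 hk
  have n : 0 ≤ Ex (Sp (bdy T' k true)) ((Ek I k).indicator f) :=
    ex_nonneg fun y _ => indicator_nonneg (fun _ _ => f0 _) y
  rcases (pr_nonneg (Sp T) (red ⁻¹' Pl (cl k ∩ cl kᶜ))).eq_or_lt with p | p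
  · rw [← p, zero_mul]
    exact mul_nonneg C0.le (mul_nonneg (pr_nonneg _ _) n)
  have o := (ok_of_pr_pos p).2
  have o' := (ok_of_pr_pos ((mul_pos_iff_of_pos_left C0).1 (p.trans_le (hC k h2)))).2
  rw [sp_bdy] at o o'
  have dc : ∀ T, Dec Cp (bdy T k true) kᶜ := fun T =>
    dec_of_red (s := true) fun _ a b _ ha => ha.2 (compl_compl k ▸ b) a
  rw [markov' (dc T) (dc T') (fun v hv => ?_) o o' (fun y z ee => ?_), ← mul_assoc]
  · exact mul_le_mul_of_nonneg_right (hC k h2) n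
  · unfold bdy
    rw [e v (h2 (not_not.1 hv))]
  · rw [compl_compl] at ee
    by_cases hy : y ∈ Ek I k
    · rw [indicator_of_mem hy, indicator_of_mem (dep_Ek y z ee hy), hf fun v hv => ee v (h1 hv)]
    · rw [indicator_of_notMem hy, indicator_of_notMem (mt (dep_Ek.iff ee).2 hy)]

lemma sep_le (I O : Set V) (w : Cf) : 0 ≤ sepI I O w ∧ sepI I O w ≤ 1 :=
  ⟨indicator_nonneg (fun _ _ => zero_le_one) w, indicator_le_self' (fun _ _ => zero_le_one) w⟩

lemma dep_sep (I J : Set V) : DependsOn (sepI I Jᶜ) (cl J) :=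
  (dep_red (SepE_dep true fun _ _ h => compl_compl J ▸ h)).ind

/-- a non negative version on all configurations -/
lemma ext (h : Lcl I f) (f0 : ∀ w ∈ Val, 0 ≤ f w) :
    ∃ g : Cf → ℝ, DependsOn g I ∧ (∀ w ∈ Val, g w = f w) ∧ ∀ w, 0 ≤ g w := by
  obtain ⟨g, a, b, c⟩ := h.exists_dep
  refine ⟨g, a, b, fun w => ?_⟩
  rcases c w with c | ⟨w', hw', c⟩
  exacts [c.ge, (f0 w' hw').trans c.ge]

end Rm

open Rm

theorem cmprSt : CmprSt := fun L => by
  obtain ⟨c, c0, h⟩ := sr_tm L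
  refine ⟨c⁻¹, by positivity, fun ρ ρ' W W' I x d E t t' hd hI f f' hE dE => ?_⟩
  rw [le_inv_mul_iff₀' c0]
  exact (mul_le_mul (up t' (free_mono f' (nbd_mono (by omega))) hE) (h true ρ W d x I (Nbd I d)ᶜ t hd
    hI fun u hu v hv => ⟨(f v ⟨u, hu, Bx_mono (by omega) hv⟩).1,
      (f v ⟨u, hu, Bx_mono (by omega) hv⟩).2, not_not.2 ⟨u, hu, hv⟩⟩) c0.le (pr_nonneg _ _)).trans
    (low t (free_mono f (cl_nbd I d)) hE dE)

theorem rpSt : RpSt := by
  refine ⟨fun S hS => ?_, fun S S' hS hS' => ?_, fun L => ?_⟩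
  · obtain ⟨n, hn⟩ := exists_Bx hS 0
    obtain ⟨C, C0, h⟩ := cmprSt n
    have ev := ev_free (nbd_fin (d := 1 + 1) hn)
    obtain ⟨R, hR⟩ := ev.exists
    refine (mul_pos_iff_of_pos_left C0).1 ((pr_pos (A := red ⁻¹' Pl S) (tame_big R).ok.1
      (mem_tm _ (r := fun _ => true) fun _ _ => rfl) fun _ _ => rfl).trans_le (ge_of_tendsto
        ((lim_rp hS).const_mul C) (ev.mono fun R' f => h _ _ _ _ S 0 1 _ (tame_big R') (tame_big R)
          le_rfl (by simpa) f hR (pl_up S) (pl_dep S))))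
  · refine le_of_tendsto_of_tendsto' ((lim_rp hS).mul (lim_rp hS')) (lim_rp (hS.union hS'))
      fun R => ((hol_tm_self (Bx_finite _ _) (Bx_coConn _ _) _).pr_fkg (pl_up S)
        (pl_up S')).trans (pr_mono fun w _ h v hv => hv.elim (h.1 v) (h.2 v))
  · obtain ⟨C, C0, h⟩ := cmprSt L
    exact ⟨C, C0, fun ρ W S x d t hd hS f => le_of_tendsto (lim_rp ((Bx_finite _ _).subset hS))
      ((ev_free (nbd_fin hS)).mono fun R f' =>
        h _ _ _ _ S x d _ t (tame_big R) hd hS f f' (pl_up S) (pl_dep S))⟩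

theorem rm1St : Rm1St := fun L => by
  obtain ⟨C, C0, h⟩ := cmprSt L
  refine ⟨C, C0, fun ρ W I J x d f t hd hI hJ fr hf f0 => ?_⟩
  obtain ⟨g, a, b, g0⟩ := Rm.ext hf f0
  have Jf : J.Finite := (Bx_finite _ _).subset ((sub_cl J).trans hJ)
  have s : J ⊆ Nbd (cl J) (d + 1) := (sub_cl J).trans (sub_nbd _ (by omega))
  rw [← Einf_congr b, ← ex_congr (f := fun w => sepI I Jᶜ w * g w) fun w hw => by
    rw [b w (Sp_val hw)]]
  refine ge_of_tendsto ((lim ⟨I, Jf.subset hI, subset_univ _, .of_dep a⟩).const_mul C)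
    ((ev_free (nbd_fin (d := d + 1) hJ)).mono fun R fr' => (ratio Jf (fun v hv => ?_) C0
      (fun k hk => h _ _ _ _ (cl J) x d _ (tame_big R) t hd hJ fr' fr (pl_up _)
        ((pl_dep _).mono (inter_subset_left.trans (cl_mono hk)))) g0 a).trans
      (mul_le_mul_of_nonneg_left (ex_mono fun w _ =>
        mul_le_of_le_one_left (g0 w) (sep_le _ _ w).2) C0.le))
  ext a
  simp only [tm, mem_ofPred_eq, fr v (s hv), fr' v (s hv)]

theorem rm2St : Rm2St := fun L => by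
  obtain ⟨C, C0, h⟩ := rm1St L
  refine ⟨C, C0, fun I J I' S x d f F hd hI hJ hI' hS hf hF f0 F0 => ?_⟩
  obtain ⟨g, a, b, g0⟩ := Rm.ext hf f0
  obtain ⟨G, A, B, G0⟩ := Rm.ext hF.lcl F0
  have Jf := (Bx_finite _ _).subset hJ
  have lf : Lc univ f := ⟨I, Jf.subset (hI.trans (sub_cl J)), subset_univ _, hf⟩
  have e0 := mul_nonneg C0.le (Einf_nonneg lf f0)
  have dg : DependsOn (fun w => sepI I Jᶜ w * g w) (cl J) := fun y z e => by
    simp only [dep_sep I J e, a fun v hv => e v (sub_cl J (hI hv))]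
  rw [mul_comm (Einf F), ← mul_assoc]
  refine le_of_tendsto_of_tendsto (lim (hF.univ.mul (.mul ⟨_, cl_finite hS, subset_univ _,
    .of_dep (dep_sep I' S)⟩ (.mul ⟨_, Jf, subset_univ _, .of_dep (dep_sep I J)⟩ lf))))
    ((lim hF.univ).const_mul _) ((ev_free (nbd_fin (d := d + 1) hJ)).mono fun R fr => ?_)
  beta_reduce
  rw [← ex_congr (f := G) fun w hw => B w (Sp_val hw), ← ex_mul,
    ← ex_congr (f := fun w => G w * (sepI I' Sᶜ w * (sepI I Jᶜ w * g w))) fun w hw => by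
      rw [b w (Sp_val hw), B w (Sp_val hw)]]
  refine ex_fib_le (RK true Sᶜ) fun y hy => ?_
  by_cases hy' : y ∈ red ⁻¹' SepE true I' Sᶜ
  · have n : ∀ v ∈ Nbd (cl J) (d + 3), v ∉ RK true Sᶜ y := fun v hv hk =>
      sep_iff.1 (Sep.symm hy') v hk (hI' hv)
    have d1 := dg.mono (t := (RK true Sᶜ y)ᶜ) fun v hv => n v (sub_nbd _ (by omega) hv)
    have e1 := explore_indep (tm (off true (Bx 0 R)) (Bx 0 R)) true Sᶜ y d1 (A.mono (sub_NK _ _))
    have e2 := explore_tm (tame_big R) hy (mem_univ y) (Dep.univ _) d1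
    rw [inter_univ] at e2
    have e3 := h _ _ I J x d g ((tame_big R).aft (s := true) (O := Sᶜ) hy) hd hI hJ
      (fun v hv => ⟨eq_univ_of_forall fun c => ⟨fun hc => ?_, fun _ => (fr v hv).1 ▸ mem_univ c⟩,
        (fr v hv).2⟩) (.of_dep a) fun w _ => g0 w
    · rw [← e2, Einf_congr b] at e3
      rw [ex_mul]
      refine le_trans (ex_mono fun w _ => ?_) (e1.le.trans (mul_le_mul_of_nonneg_right e3
        (ex_nonneg fun w _ => G0 w)))
      rw [mul_comm]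
      exact mul_le_mul_of_nonneg_right (mul_le_of_le_one_left (mul_nonneg (sep_le _ _ w).1 (g0 w))
        (sep_le _ _ w).2) (G0 w)
    · rcases hc with hc | ⟨u, hu, e⟩
      · exact (n v (nbd_mono (by omega) hv) hc).elim
      · exact (n u (nbd_mono (by omega) (cl_nbd _ _ (mem_cl hv e.symm))) hu).elim
  · refine ex_mono fun z hz => ?_
    have hz' : z ∉ red ⁻¹' SepE true I' Sᶜ := fun h => hy' (Sep.symm (sep_iff.2 fun v hv =>
      sep_iff.1 (Sep.symm h) v ((show RK true Sᶜ z = RK true Sᶜ y from hz.2).ge hv)))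
    rw [sepI, indicator_of_notMem hz', zero_mul, mul_zero]
    exact mul_nonneg e0 (G0 z)

end Pool.Agent.Lib.MP_6359c9_pr
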