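import Pool.Agent.Lib.MP_6359c9_pr.SdB
import Pool.Agent.Lib.MP_6359c9_pr.NullOf

/-! Decoupling of a product of two local statistics from the far field. -/

namespace Pool.Agent.Lib.MP_6359c9_pr.Sd

open Set Filter Topology MeasureTheory Pl

lemma trc_prod {τ s : ℝ} (hτ : 0 < τ) (hs : 0 < s) (a b : ℝ) :
    |a * b - trc (τ * s) (a * b)| ≤ s / τ * a ^ 4 + (τ * s ^ 3)⁻¹ * b ^ 4 := by
  refine (abs_sub_trc (by positivity) (a * b) 1).trans ?_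
  rw [show |a * b| ^ (1 + 1) = (a * b) ^ 2 from sq_abs _, pow_one, div_le_iff₀ (by positivity)]
  have e : (s / τ * a ^ 4 + (τ * s ^ 3)⁻¹ * b ^ 4) * (τ * s) =
      (s * a ^ 2 - b ^ 2 / s) ^ 2 + 2 * (a * b) ^ 2 := by
    field_simp
    ring
  rw [e]
  nlinarith [sq_nonneg (s * a ^ 2 - b ^ 2 / s), sq_nonneg (a * b)]

lemma exists_lam {C α T η : ℝ} (hα : 0 < α) (hη : 0 < η) (K : ℝ) :
    ∃ Λ : ℝ, K ≤ Λ ∧ C * (T / Λ) ^ α ≤ η := by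
  have h1 : Tendsto (fun Λ : ℝ => T / Λ) atTop (𝓝 0) := tendsto_const_nhds.div_atTop tendsto_id
  have h2 := ((Real.continuousAt_rpow_const 0 α (Or.inr hα.le)).tendsto.comp h1).const_mul C
  rw [Real.zero_rpow hα.ne', mul_zero] at h2
  exact ((eventually_ge_atTop K).and (h2.eventually_le_const hη)).exists

theorem mix_step (hM : MixSt) (hT : MomTSt) (T B b : ℝ) (T1 : 1 ≤ T) {ε : ℝ} (hε : 0 < ε) :
    ∃ Λ : ℝ, 28 * 4 * T ≤ Λ ∧ ∀ (δ r : ℝ) (x : ℂ) (f₀ f₁ : ℂ → ℝ) (ρ : V → Set Bool) (W : Set V)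
      (F : Cf → ℝ), 0 < δ → δ ≤ r → Tf x r (B / r ^ 2) f₀ → ∫ z, f₀ z = 0 → Tf x (T * r) b f₁ →
      ∫ z, f₁ z = 0 → Tame ρ W → Free ρ W (Bs δ x (Λ * r)) → Lcl (Bs δ x (Λ * r))ᶜ F →
      (∀ w ∈ Val, |F w| ≤ 1) →
      |Ex (MS ρ W) (fun w => LL δ x r f₀ 0 w * LL δ x (T * r) f₁ 0 w * F w) -
        Einf (fun w => LL δ x r f₀ 0 w * LL δ x (T * r) f₁ 0 w) * Ex (MS ρ W) F| ≤ ε * r ^ 2 := by
  obtain ⟨Cm, α, C0, α0, hM⟩ := hM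
  obtain ⟨C, c0, h4⟩ := tm4 hT
  obtain ⟨τ, τ1, hτ⟩ := exists_trc (C * B ^ 4 + C * (b * T ^ 2) ^ 4) (by positivity : 0 < ε / 4) 0
  rw [zero_add, pow_one] at hτ
  have τ0 : 0 < τ := by linarith
  obtain ⟨Λ, hΛ, hL⟩ := exists_lam (C := Cm) (T := 7 * T) α0 (by positivity : 0 < ε / (2 * τ))
    (28 * 4 * T)
  refine ⟨Λ, hΛ, fun δ r x f₀ f₁ ρ W F hδ hr t0 i0 t1 i1 ht fr lF bF => ?_⟩
  have r0 : 0 < r := hδ.trans_le hr
  have r1 : r ≤ T * r := le_mul_of_one_le_left r0.le T1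
  have r2 : 28 * 4 * (T * r) ≤ Λ * r := by nlinarith
  obtain ⟨lX, mX⟩ := h4 δ r _ x f₀ 0 hδ hr t0 i0
  obtain ⟨lZ, mZ⟩ := h4 δ (T * r) _ x f₁ 0 hδ (hr.trans r1) t1 i1
  rw [div_mul_cancel₀ _ (by positivity)] at mX
  set X := LL δ x r f₀ 0
  set Z := LL δ x (T * r) f₁ 0
  have a1 := ceil_le hδ (6 * r)
  have a2 := ceil_le hδ (6 * (T * r))
  have a3 := le_ceil hδ (6 * (T * r))
  have a4 := le_ceil hδ (Λ * r)
  have sX : Bx (nr δ x) (4 * ⌈6 * r / δ⌉) ⊆ Bs δ x (Λ * r) :=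
    Bx_sub_Bs hδ (by push_cast; linarith)
  have sZ : Bx (nr δ x) (4 * ⌈6 * (T * r) / δ⌉) ⊆ Bs δ x (Λ * r) :=
    Bx_sub_Bs hδ (by push_cast; linarith)
  have lG : Lcl (Bs δ x (6 * (T * r))) fun w => X w * Z w :=
    (lX.mono (Bs_mono hδ (by linarith))).comp₂ lZ (· * ·)
  have cX : Lc univ X := ⟨_, Bx_finite _ _, subset_univ _, lX⟩
  have cZ : Lc univ Z := ⟨_, Bx_finite _ _, subset_univ _, lZ⟩
  have cG : Lc univ fun w => X w * Z w := cX.mul cZ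
  have cT : Lc univ fun w => trc (τ * r ^ 2) (X w * Z w) := cG.comp _
  have s0 : 0 < τ * r ^ 2 := by positivity
  have e0 : r ^ 2 / τ * (C * B ^ 4) + (τ * (r ^ 2) ^ 3)⁻¹ * (C * (b * (T * r) ^ 2) ^ 4) ≤
      ε / 4 * r ^ 2 := by
    refine le_of_eq_of_le ?_ (mul_le_mul_of_nonneg_right hτ (by positivity))
    field_simp
  have e1 : |Ex (MS ρ W) (fun w => X w * Z w * F w) -
      Ex (MS ρ W) fun w => trc (τ * r ^ 2) (X w * Z w) * F w| ≤ ε / 4 * r ^ 2 := by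
    rw [← ex_sub]
    refine (abs_ex_le _ _).trans ((ex_mono (g := fun w => r ^ 2 / τ * X w ^ 4 +
      (τ * (r ^ 2) ^ 3)⁻¹ * Z w ^ 4) fun w hw => ?_).trans (le_trans ?_ e0))
    · rw [← sub_mul, abs_mul]
      exact (mul_le_of_le_one_right (abs_nonneg _) (bF w (Sp_val hw))).trans
        (trc_prod τ0 (by positivity) _ _)
    · rw [ex_add, ex_mul, ex_mul]
      gcongr
      exacts [mX.mono sX ρ W ht fr, mZ.mono sZ ρ W ht fr]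
  have e2 : |Einf (fun w => X w * Z w) - Einf fun w => trc (τ * r ^ 2) (X w * Z w)| ≤
      ε / 4 * r ^ 2 := by
    rw [← Einf_sub cG cT]
    have c1 := (cX.comp (· ^ 4)).smul (r ^ 2 / τ)
    have c2 := (cZ.comp (· ^ 4)).smul (τ * (r ^ 2) ^ 3)⁻¹
    refine (abs_Einf (cG.sub cT)).trans ((Einf_mono ((cG.sub cT).comp abs) (c1.add c2)
      fun w _ => trc_prod τ0 (by positivity) _ _).trans (le_trans ?_ e0))
    rw [Einf_add c1 c2, Einf_mul _ (cX.comp (· ^ 4)), Einf_mul _ (cZ.comp (· ^ 4))]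
    gcongr
    exacts [tm4_einf mX cX, tm4_einf mZ cZ]
  have n1 : (1 : ℤ) ≤ ⌈6 * (T * r) / δ⌉ := Int.ceil_pos.2 (by have := r0.trans_le r1; positivity)
  have n2 : ⌈6 * (T * r) / δ⌉ ≤ ⌈Λ * r / δ⌉ :=
    Int.ceil_le_ceil (div_le_div_of_nonneg_right (by linarith) hδ.le)
  have e3 := hM ρ W (nr δ x) _ _ (fun w => (τ * r ^ 2)⁻¹ * trc (τ * r ^ 2) (X w * Z w)) F ht n1 n2
    fr (lG.comp fun a => (τ * r ^ 2)⁻¹ * trc (τ * r ^ 2) a) lF (fun w _ => by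
      rw [abs_mul, abs_of_pos (inv_pos.2 s0), inv_mul_le_iff₀ s0, mul_one]
      exact abs_trc_le s0.le _) bF
  simp only [mul_assoc (τ * r ^ 2)⁻¹] at e3
  rw [ex_mul, Einf_mul _ cT, mul_assoc, ← mul_sub, abs_mul, abs_of_pos (inv_pos.2 s0),
    inv_mul_le_iff₀ s0] at e3
  have n3 : (0 : ℝ) < (⌈6 * (T * r) / δ⌉ : ℤ) := by exact_mod_cast (by omega : 0 < ⌈6 * (T * r) / δ⌉)
  have n4 : (0 : ℝ) < (⌈Λ * r / δ⌉ : ℤ) := by exact_mod_cast (by omega : 0 < ⌈Λ * r / δ⌉)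
  have L0 : 0 < Λ := by linarith
  have q : ((⌈6 * (T * r) / δ⌉ : ℤ) : ℝ) / (⌈Λ * r / δ⌉ : ℤ) ≤ 7 * T / Λ := by
    rw [div_le_div_iff₀ n4 L0]
    refine le_of_mul_le_mul_right ?_ hδ
    have b1 : ((⌈6 * (T * r) / δ⌉ : ℤ) : ℝ) * δ * Λ ≤ 7 * (T * r) * Λ :=
      mul_le_mul_of_nonneg_right (by linarith) L0.le
    have b2 := mul_le_mul_of_nonneg_left a4 (by positivity : 0 ≤ 7 * T)
    linarith
  have e4 : τ * r ^ 2 * (Cm * (((⌈6 * (T * r) / δ⌉ : ℤ) : ℝ) / (⌈Λ * r / δ⌉ : ℤ)) ^ α) ≤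
      ε / 2 * r ^ 2 := by
    calc _ ≤ τ * r ^ 2 * (Cm * (7 * T / Λ) ^ α) := by gcongr
      _ ≤ τ * r ^ 2 * (ε / (2 * τ)) := by gcongr
      _ = _ := by field_simp
  have e5 : |Ex (MS ρ W) F| ≤ 1 :=
    (abs_ex_le _ _).trans (ex_le ht.ok fun w hw => bF w (Sp_val hw))
  have e6 : |(Einf (fun w => X w * Z w) - Einf fun w => trc (τ * r ^ 2) (X w * Z w)) *
      Ex (MS ρ W) F| ≤ ε / 4 * r ^ 2 := by
    rw [abs_mul]
    exact (mul_le_of_le_one_right (abs_nonneg _) e5).trans e2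
  rw [sub_mul] at e6
  have e7 := e3.trans e4
  rw [abs_le] at e1 e6 e7 ⊢
  constructor <;> linarith [e1.1, e1.2, e6.1, e6.2, e7.1, e7.2]

end Pool.Agent.Lib.MP_6359c9_pr.Sd
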