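import Pool.Agent.Lib.MP_6359c9_pr.SdB

/-! The pairing against a Laplacian is orthogonal to the outside. -/

namespace Pool.Agent.Lib.MP_6359c9_pr.Sd

open Set Filter Topology MeasureTheory Pl
open scoped Laplacian

theorem null_seq (hN : NullSt) (hT : MomTSt) {Cv k : ℝ} (hv : Vario vg Cv) (hk : LogLaw vg k) :
    ∃ T : ℝ, 28 ≤ T ∧ ∀ (Ω : Set ℂ) (A : Sq Ω) (ψ : ℂ → ℝ) (x : ℂ) (r B B' C : ℝ)
      (Y : ℕ → Cf → ℝ), 0 < r → ContDiff ℝ 2 ψ → HasCompactSupport ψ → Tf x r B' ψ →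
      Tf x r B (Δ ψ) →
      (∀ᶠ n in atTop, Free (A.rho n) (A.U n) (Bs (A.δ n) x (T * r)) ∧
        Lcl (Bs (A.δ n) x (T * r))ᶜ (Y n) ∧ Ex (A.M n) (fun w => Y n w ^ 4) ≤ C) →
      Tendsto (fun n => Ex (A.M n) fun w => LL (A.δ n) x r (Δ ψ) 0 w * Y n w) atTop (𝓝 0) := by
  obtain ⟨K, K4, hK⟩ := hN
  obtain ⟨C₁, -, h1⟩ := tm4 hT
  have K4' : (4 : ℝ) ≤ K := by exact_mod_cast K4
  refine ⟨7 * K, by linarith, fun Ω A ψ x r B B' C Y hr hψ hc tψ tΔ H => ?_⟩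
  have sm := A.lim.eventually (ge_mem_nhds hr)
  refine hK ℕ atTop (fun n => ⌈6 * r / A.δ n⌉) (fun n => nr (A.δ n) x) A.rho A.U _ Y
    (max C (C₁ * (B * r ^ 2) ^ 4)) ?_ ?_ ?_
  · refine tendsto_ceil_atTop.comp (Tendsto.const_mul_atTop (by linarith)
      (tendsto_inv_nhdsGT_zero.comp (tendsto_nhdsWithin_iff.2 ⟨A.lim, .of_forall A.δpos⟩)))
  · filter_upwards [H, sm] with n h hd
    have hδ := A.δpos n
    obtain ⟨a1, a2⟩ := h1 _ r B x _ 0 hδ hd tΔ (int_lap hψ hc)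
    have s : Bx (nr (A.δ n) x) (K * ⌈6 * r / A.δ n⌉) ⊆ Bs (A.δ n) x (7 * K * r) :=
      Bx_sub_Bs hδ (by push_cast; nlinarith [ceil_le hδ (6 * r)])
    exact ⟨(A.clo n).tame, fun v hv => h.1 v (s hv), a1, h.2.1.mono (compl_subset_compl.2 s),
      fun ρ W t f => (a2 ρ W t f).trans (le_max_right _ _), h.2.2.trans (le_max_left _ _)⟩
  · refine cov_null' hv hk hψ hc (2 * ‖x‖ + 16 * r) (fun _ => 0) A.lim ?_
    filter_upwards [sm] with n hd
    have hδ := A.δpos n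
    have a1 := (Complex.abs_im_le_norm _).trans (nr_near hδ x)
    have a2 := abs_le.1 (Complex.abs_im_le_norm x)
    have a3 := le_ceil hδ (6 * r)
    have a4 := ceil_le hδ (6 * r)
    have a5 : 1 ≤ √3 := Real.one_le_sqrt.2 (by norm_num)
    rw [Complex.sub_im, abs_le, pos] at a1
    refine ⟨hδ, cvr_cv hδ tΔ, ?_, fun z hz => ?_⟩
    · have : |A.δ n * (nr (A.δ n) x).2| ≤ 2 * ‖x‖ + 2 * r := by
        have b : |A.δ n * ((nr (A.δ n) x).2 * (√3 / 2))| ≤ ‖x‖ + r :=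
          abs_le.2 ⟨by linarith [a1.1], by linarith [a1.2]⟩
        rw [← mul_assoc, abs_mul, abs_of_pos (by positivity : 0 < √3 / 2)] at b
        nlinarith [abs_nonneg (A.δ n * (nr (A.δ n) x).2)]
      push_cast
      rw [abs_le] at this ⊢
      constructor <;> linarith
    · have b := abs_le.1 ((Complex.abs_im_le_norm _).trans (tψ.supp z hz))
      rw [Complex.sub_im] at b
      push_cast
      nlinarith [a1.2]

end Pool.Agent.Lib.MP_6359c9_pr.Sd
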