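import Pool.Agent.Lib.MP_6359c9_pr.SdA
import Pool.Agent.Lib.MP_6359c9_pr.SdC
import Pool.Agent.Lib.MP_6359c9_pr.SdD
import Pool.Agent.Lib.MP_6359c9_pr.SdE
import Pool.Agent.Lib.MP_6359c9_pr.InfVar

/-! The Schwinger Dyson equation for the height field. -/

namespace Pool.Agent.Lib.MP_6359c9_pr

open Set Filter Topology MeasureTheory Pl Real
open scoped Laplacian

namespace Sd

lemma X_add {O : Type} (B : End.Fld O) (n : ℕ) (w : O) {c c' : ℂ} {r b r' b' : ℝ} {f f' : ℂ → ℝ}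
    (hf : Tf c r b f) (hf' : Tf c' r' b' f') :
    B.X (fun z => f z + f' z) n w = B.X f n w + B.X f' n w := by
  have h := (B.cont n w).locallyIntegrable (μ := volume)
  simp only [End.Fld.X, mul_comm (B.Φ n w _), add_mul]
  exact integral_add (hf.int_mul h) (hf'.int_mul h)

lemma small (a : ℝ) {e : ℝ} (he : 0 < e) : ∀ᶠ r in 𝓝 (0 : ℝ), a * r ≤ e := by
  have : Tendsto (fun r : ℝ => a * r) (𝓝 0) (𝓝 (a * 0)) := tendsto_id.const_mul a
  rw [mul_zero] at this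
  exact this.eventually (ge_mem_nhds he)

/-- twice the centred version -/
noncomputable def cen (M : Set Cf) (F : Cf → ℝ) (w : Cf) : ℝ := 2 * (F w - Ex M F)

lemma X_LL {Ω : Set ℂ} (A : Sq Ω) (hc : ContSt) {n : ℕ} {c : ℂ} {r b : ℝ} {f : ℂ → ℝ}
    (hf : Tf c r b f) {o : V} (ho : o ∉ A.U n ∨ ∫ z, f z = 0) {g : V → ℤ}
    (hg : g ∈ HD (A.U n) (A.ξ n)) :
    (A.fld hc).X f n g = cen (A.M n) (LL (A.δ n) c r f o) (sq g) :=
  A.X_lin hc hf.int (cvr_cv (A.δpos n) hf) ho hg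

lemma int_pair {x : ℂ} {r B b : ℝ} {ψ φ : ℂ → ℝ} (h : Tf x r B ψ) (hφ : ∀ z, |φ z| ≤ b) :
    |∫ z, ψ z * φ z| ≤ b * (4 * B * r ^ 2) := by
  have b0 := (abs_nonneg _).trans (hφ 0)
  refine le_trans ?_ (mul_le_mul_of_nonneg_left h.int_abs b0)
  rw [← integral_const_mul, ← Real.norm_eq_abs]
  refine norm_integral_le_of_norm_le (h.int.abs.const_mul b) (.of_forall fun z => ?_)
  rw [Real.norm_eq_abs, abs_mul, mul_comm]
  exact mul_le_mul_of_nonneg_right (hφ z) (abs_nonneg _)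

theorem phase (hN : NullSt) (hM : MixSt) (hA : MomASt) (hN' : MomNSt) (hT : MomTSt) {Cv k : ℝ}
    (hv : Vario vg Cv) (hk : LogLaw vg k) (k0 : 0 < k) (hc : ContSt) {Ω : Set ℂ} (ho : IsOpen Ω)
    (hb : Bornology.IsBounded Ω) (A : Sq Ω) {φ Ψ : ℂ → ℝ} (hφ : Test Ω φ)
    (hΨ : Test (Metric.ball 0 1) Ψ) {K : Set ℂ} (hK : K ⊆ Ω) (cK : IsCompact K) (s : ℝ) {ε : ℝ}
    (hε : 0 < ε) : ∀ᶠ r in 𝓝 (0 : ℝ), 0 < r → ∀ x ∈ K, ∀ᶠ n in atTop,
      |mean ((A.fld hc).S n) (fun g => (A.fld hc).X (Δ (End.scl Ψ x r)) n g *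
          cos ((A.fld hc).X φ n g + s)) - 8 * π * k * (∫ z, End.scl Ψ x r z * φ z) *
        mean ((A.fld hc).S n) fun g => sin ((A.fld hc).X φ n g + s)| ≤ ε * r ^ 2 := by
  obtain ⟨T, T28, hnull⟩ := null_seq hN hT hv hk
  obtain ⟨B, B0, hB⟩ := scl_Tf hΨ
  obtain ⟨L, hL⟩ := exists_Tf hφ.1.continuous hφ.2.1
  have L0 := hL.nonneg
  obtain ⟨Ct, Ct0, htm⟩ := tm4 hT
  obtain ⟨Cc, Cc0, hcore⟩ := MF.core hA hN' 2
  obtain ⟨τ, hτ⟩ : ∃ τ, τ = 4 * (2 * T + 4) := ⟨_, rfl⟩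
  obtain ⟨Λ, hΛ, hmix⟩ := mix_step hM hT τ B (2 * L) (by linarith) (show 0 < ε / 24 by positivity)
  obtain ⟨μ, hμ⟩ : ∃ μ, μ = 2 * Λ + 4 := ⟨_, rfl⟩
  obtain ⟨D, hD⟩ := cK.bddAbove_image (Metric.continuous_infDist_pt Ωᶜ).continuousOn
  obtain ⟨r1, r10, hin⟩ := A.inn' ho hK cK
  obtain ⟨C, hC⟩ : ∃ C, C = Ct * B ^ 4 + Ct * (2 * L * τ ^ 2) ^ 4 + Cc * (L ^ 2 * (D + 1)) ^ 2 :=
    ⟨_, rfl⟩
  have c1 : 0 ≤ Ct * B ^ 4 := by positivity
  have c2 : 0 ≤ Ct * (2 * L * τ ^ 2) ^ 4 := by positivity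
  have c3 : 0 ≤ Cc * (L ^ 2 * (D + 1)) ^ 2 := by positivity
  have e6 : 0 < ε / 6 := by positivity
  filter_upwards [small μ one_pos, small (30 * μ) r10,
    small (8 * π * k * (L * (4 * B)) * (1 + C) * μ) e6, small (1000 * (1 + C) * μ ^ 3) e6]
    with r R1 R2 R3 R4 r0 x hx
  obtain ⟨ψc, ψ1, ψ2⟩ := hB x r r0
  have ψd := End.scl_cd hΨ x r
  generalize End.scl Ψ x r = ψ at *
  have ψ0 := int_lap ψd ψc
  have i1 : 28 * r ≤ T * r := mul_le_mul_of_nonneg_right T28 r0.le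
  have i2 : τ * r = 8 * (T * r) + 16 * r := by rw [hτ]; ring
  have i3 : 112 * (τ * r) ≤ Λ * r := by
    linarith only [mul_le_mul_of_nonneg_right hΛ r0.le]
  have i4 : μ * r = 2 * (Λ * r) + 4 * r := by rw [hμ]; ring
  have R0 : 0 < μ * r := by linarith
  have hr1 : r ≤ 1 := by linarith
  have τ0 : 0 ≤ τ := by linarith
  obtain ⟨f₁, f₂, f₃, hs, a1, a2, a3, b1, b2, b3, d1, d2⟩ := split (t := (2 * T + 4) * r)
    (R := μ * r) hL x (by linarith) (by linarith)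
  rw [← mul_assoc, ← hτ] at a1
  have hex : ∀ n, ∃ o, o ∉ A.U n := fun n => by
    by_contra h
    exact (A.cls n).fin.not_infinite (eq_univ_of_forall (not_exists_not.1 h) ▸ infinite_univ)
  choose o hon using hex
  set X : ℕ → Cf → ℝ := fun n => LL (A.δ n) x r (Δ ψ) 0 with hX
  set Z : ℕ → Cf → ℝ := fun n => LL (A.δ n) x (τ * r) f₁ 0 with hZ
  set Y : ℕ → Cf → ℝ := fun n w => cen (A.M n) (LL (A.δ n) x (μ * r) f₂ (o n)) w -
    2 * Ex (A.M n) (Z n) with hY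
  set O : ℕ → Cf → ℝ := fun n => cen (A.M n) (LL (A.δ n) 0 L f₃ (o n)) with hO
  have eI : ∀ n, ∀ g ∈ HD (A.U n) (A.ξ n), (A.fld hc).X (fun z => f₁ z + f₂ z) n g =
      2 * Z n (sq g) + Y n (sq g) := fun n g hg => by
    rw [X_add _ n g a1 b1, X_LL A hc a1 (o := 0) (.inr a2) hg, X_LL A hc b1 (.inl (hon n)) hg]
    simp only [hY, hZ, cen]; ring
  have eθ : ∀ n, ∀ g ∈ HD (A.U n) (A.ξ n), (A.fld hc).X φ n g =
      2 * Z n (sq g) + Y n (sq g) + O n (sq g) := fun n g hg => by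
    rw [show φ = fun z => (f₁ z + f₂ z) + f₃ z from funext hs, X_add _ n g b3 d1, eI n g hg,
      X_LL A hc d1 (.inl (hon n)) hg]
  have TΛ : T * r ≤ Λ * r := by linarith
  have F : ∀ᶠ n in atTop, A.δ n ≤ r ∧ Free (A.rho n) (A.U n) (Bs (A.δ n) x (Λ * r)) ∧
      Lcl (Bs (A.δ n) x (Λ * r))ᶜ (O n) ∧ Lcl (Bs (A.δ n) x (T * r))ᶜ (Y n) ∧
      Ex (A.M n) (fun w => X n w ^ 4) ≤ C ∧ Ex (A.M n) (fun w => Z n w ^ 4) ≤ C ∧
      Ex (A.M n) (fun w => (2 * Z n w + Y n w) ^ 4) ≤ C * (μ * r) ^ 6 := by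
    filter_upwards [A.small r0, hin, A.wall hb one_pos] with n h1 h2 h3
    have δ0 := A.δpos n
    have h4 : ∀ v, ‖pos (A.δ n) v - x‖ ≤ 30 * (μ * r) → v ∈ A.U n := fun v hv =>
      h2 x hx v (by linarith)
    have fr : Free (A.rho n) (A.U n) (Bs (A.δ n) x (Λ * r)) :=
      free_Bs A fun v hv => h4 v (by linarith)
    have on : o n ∉ Bs (A.δ n) x (Λ * r) := fun h => hon n (fr _ h).2
    have fr' : ∀ ρ, A.δ n ≤ ρ → 28 * ρ ≤ Λ * r →
        Free (A.rho n) (A.U n) (Bx (nr (A.δ n) x) (4 * ⌈6 * ρ / A.δ n⌉)) := fun ρ k1 k2 v hv =>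
      fr v (Bx_sub_Bs δ0 (by push_cast; linarith [ceil_le δ0 (6 * ρ)]) hv)
    have τr : r ≤ τ * r := by linarith
    refine ⟨h1, fr, (lcl_out δ0 _ (fun z hz => ?_) on).comp fun a => 2 * (a - _),
      (lcl_out δ0 _ (fun z hz => ?_) fun h => on (Bs_mono δ0 TΛ h)).comp
        fun a => 2 * (a - _) - _, ?_, ?_, ?_⟩
    · linarith [d2 z hz]
    · linarith [b2 z hz]
    · refine ((htm _ _ _ x _ 0 δ0 h1 ψ2 ψ0).2 _ _ (A.clo n).tame
        (fr' r h1 (by linarith))).trans ?_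
      rw [div_mul_cancel₀ _ (by positivity)]
      linarith
    · refine ((htm _ _ _ x _ 0 δ0 (h1.trans τr) a1 a2).2 _ _ (A.clo n).tame
        (fr' _ (h1.trans τr) (by linarith))).trans ?_
      have : Ct * (2 * L * (τ * r) ^ 2) ^ 4 ≤ Ct * (2 * L * τ ^ 2) ^ 4 := by
        gcongr
        exact mul_le_of_le_one_right τ0 hr1
      linarith
    · obtain ⟨o', k1, k2⟩ := h3 x (hK hx)
      have := (hcore hc Ω A n x (μ * r) (D + 1) L _ (by linarith) b3 h4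
        ⟨o', k1, by linarith [hD (mem_image_of_mem _ hx)]⟩).1
      rw [A.mean_M hc n (F := fun w => (2 * Z n w + Y n w) ^ 4)
        fun g hg => by rw [eI n g hg]] at this
      refine this.trans ?_
      have p6 : 0 ≤ (μ * r) ^ 6 := by positivity
      calc _ = Cc * (L ^ 2 * (D + 1)) ^ 2 * (μ * r) ^ 6 := by ring
        _ ≤ _ := mul_le_mul_of_nonneg_right (by linarith) p6
  have C0 : 0 ≤ C := by linarith
  have fT : ∀ n, Free (A.rho n) (A.U n) (Bs (A.δ n) x (Λ * r)) →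
      Free (A.rho n) (A.U n) (Bs (A.δ n) x (T * r)) := fun n h v hv =>
    h v (Bs_mono (A.δpos n) TΛ hv)
  have n1 := hnull Ω A ψ x r _ _ (10 ^ 7 * (1 + C))
    (fun n w => 2 * (Wo (Y n) (O n) s w - Ex (A.M n) (Wo (Y n) (O n) s))) r0 ψd ψc ψ1 ψ2
    (F.mono fun n ⟨_, h2, h3, h4, _, h6, h7⟩ => ⟨fT n h2,
      h4.comp₂ (h3.mono (compl_subset_compl.2 (Bs_mono (A.δpos n) TΛ)))
        fun a b => 2 * (cos (b + s) - a * sin (b + s) - _),
      Wo4 (A.okM n) (Z n) _ _ s h6 (h7.trans (mul_le_of_le_one_right C0 (pow_le_one₀ R0.le R1)))⟩)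
  have n2 := hnull Ω A ψ x r _ _ 1 (fun _ _ => 1) r0 ψd ψc ψ1 ψ2
    (F.mono fun n h => ⟨fT n h.2.1, Lcl.const _ _, by simp [ex_const (A.okM n)]⟩)
  simp only [mul_one] at n2
  have n3 := (n2.abs.const_mul (4 * (1 + C)))
  rw [abs_zero, mul_zero] at n3
  have n4 := n1.abs
  rw [abs_zero] at n4
  have er : 0 < ε / 6 * r ^ 2 := by positivity
  obtain ⟨δ1, δ10, hf⟩ := cov_fus hv hk ψd ψc (τ * r + ‖x - 0‖ + 2 * L)
    (show 0 < ε / 24 * r ^ 2 by positivity)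
  have eJ : ∫ z, f₁ z * ψ z = ∫ z, ψ z * φ z := by
    congr 1; funext z
    by_cases hz : ψ z = 0
    · simp [hz]
    · rw [a3 z ((ψ1.supp z hz).trans (by linarith)), mul_comm]
  have bJ : |8 * π * k * ∫ z, ψ z * φ z| ≤ 8 * π * k * (L * (4 * B * r ^ 2)) := by
    rw [abs_mul, abs_of_pos (by positivity)]
    exact mul_le_mul_of_nonneg_left (int_pair ψ1 hL.bd) (by positivity)
  filter_upwards [F, n3.eventually (ge_mem_nhds er), n4.eventually (ge_mem_nhds er),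
    A.lim.eventually (gt_mem_nhds δ10)] with n ⟨h1, h2, h3, h4, h5, h6, h7⟩ m1 m2 m3
  have δ0 := A.δpos n
  rw [A.mean_M hc n (F := fun w => 2 * (X n w - Ex (A.M n) (X n)) *
      cos (2 * Z n w + Y n w + O n w + s))
      fun g hg => by rw [eθ n g hg, X_LL A hc ψ2 (o := 0) (.inr ψ0) hg]; rfl,
    A.mean_M hc n (F := fun w => sin (2 * Z n w + Y n w + O n w + s))
      fun g hg => by rw [eθ n g hg]]
  refine (alg (A.okM n) (X n) (Z n) (Y n) (O n) (Einf fun w => X n w * Z n w) _ s R0 R1 h5 h6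
    h7).trans ?_
  have m4 := hmix (A.δ n) r x _ f₁ _ _ (fun w => sin (O n w + s)) δ0 h1 ψ2 ψ0 a1 a2
    (A.clo n).tame h2 (h3.comp fun a => sin (a + s)) fun w _ => abs_sin_le_one _
  have τ1 : 0 ≤ τ * r := by linarith
  have m5 := hf _ δ0 m3 f₁ _ _ 0 0 ((Tf_move a1).mono (by linarith)
    (by linarith [norm_nonneg (x - 0)])) a2 (cvr_cv δ0 ψ2) (cvr_cv δ0 a1)
  rw [eJ] at m5
  have m6 : |4 * (Einf fun w => X n w * Z n w) + 8 * π * k * ∫ z, ψ z * φ z| ≤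
      ε / 6 * r ^ 2 := by
    have := abs_le.1 m5
    exact abs_le.2 ⟨by simp only [hX, hZ, LL]; linarith, by simp only [hX, hZ, LL]; linarith⟩
  have m7 : |8 * π * k * ∫ z, ψ z * φ z| * (1 + C) * (μ * r) ≤ ε / 6 * r ^ 2 :=
    calc _ ≤ 8 * π * k * (L * (4 * B * r ^ 2)) * (1 + C) * (μ * r) := by gcongr
      _ = 8 * π * k * (L * (4 * B)) * (1 + C) * μ * r * r ^ 2 := by ring
      _ ≤ _ := by gcongr
  have m8 : 1000 * (1 + C) * (μ * r) ^ 3 ≤ ε / 6 * r ^ 2 :=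
    calc _ = 1000 * (1 + C) * μ ^ 3 * r * r ^ 2 := by ring
      _ ≤ _ := by gcongr
  have m9 : |Ex (A.M n) (fun w => X n w * Z n w * sin (O n w + s)) -
      (Einf fun w => X n w * Z n w) * Ex (A.M n) fun w => sin (O n w + s)| ≤ ε / 24 * r ^ 2 := m4
  have m10 : |Ex (A.M n) fun w => X n w * (2 * (Wo (Y n) (O n) s w -
      Ex (A.M n) (Wo (Y n) (O n) s)))| ≤ ε / 6 * r ^ 2 := m2
  have m11 : 4 * (1 + C) * |Ex (A.M n) (X n)| ≤ ε / 6 * r ^ 2 := m1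
  linarith

end Sd

open Sd

/-- the Schwinger Dyson equation -/
theorem sdF (hN : NullSt) (hM : MixSt) (hA : MomASt) (hN' : MomNSt) (hT : MomTSt) : SDFSt := by
  obtain ⟨Cv, k, hv, k0, hk⟩ := vg_log
  refine ⟨8 * π * k, by positivity, fun hc Ω ho _ hb A φ hφ => ?_⟩
  have key : ∀ (T : ℝ → ℝ) (s : ℝ) (a : ℕ → ℝ), (∀ t, T t = cos (t + s)) →
      (∀ n, a n = -(8 * π * k) * mean ((A.fld hc).S n) fun g => sin ((A.fld hc).X φ n g + s)) →
      End.HSD Ω ((A.fld hc).Hw fun n g => T ((A.fld hc).X φ n g)) a φ := by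
    intro T s a e1 e2 Ψ hΨ K hK cK ε hε
    obtain ⟨e, e0, he⟩ := Metric.eventually_nhds_iff.1
      (phase hN hM hA hN' hT hv hk k0 hc ho hb A hφ hΨ hK cK s hε)
    refine ⟨e / 2, by positivity, fun r r0 r1 x hx => ?_⟩
    filter_upwards [he (y := r) (by rw [dist_zero_right, Real.norm_of_nonneg r0.le]; linarith)
      r0 x hx] with n hn
    obtain ⟨B, -, hB⟩ := scl_Tf hΨ
    rw [(A.fld hc).int_Hw _ n (isCompact_closedBall x r) (lap_cont (End.scl_cd hΨ x r))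
      fun z hz => by_contra fun h => hz (mem_closedBall_iff_norm.2 ((hB x r r0).2.2.supp z h)),
      e2 n]
    simp only [e1]
    refine le_trans (le_of_eq ?_) hn
    congr 1; ring
  refine ⟨key cos 0 _ (by simp) fun n => by simp only [add_zero],
    key sin (-(π / 2)) _ (fun t => by rw [← sub_eq_add_neg, cos_sub_pi_div_two]) fun n => ?_⟩
  simp only [← sub_eq_add_neg, sin_sub_pi_div_two, mean_eq, ex_neg]
  ring

end Pool.Agent.Lib.MP_6359c9_pr
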