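import Pool.Agent.Lib.MP_6359c9_pr.SdDef

/-! The algebra of the Schwinger Dyson step. -/

namespace Pool.Agent.Lib.MP_6359c9_pr.Sd

open Set

/-- the outside factor -/
noncomputable def Wo {α : Type} (Y O : α → ℝ) (s : ℝ) (w : α) : ℝ :=
  Real.cos (O w + s) - Y w * Real.sin (O w + s)

lemma cos_taylor (u t : ℝ) : |Real.cos (t + u) - (Real.cos u - t * Real.sin u)| ≤ 2 * t ^ 2 := by
  have h1 : |Real.cos t - 1| ≤ t ^ 2 := by
    rw [abs_le]
    constructor <;> nlinarith [Real.one_sub_sq_div_two_le_cos (x := t), Real.cos_le_one t]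
  have h2 : |t - Real.sin t| ≤ t ^ 2 := by
    have a := abs_nonneg t
    rw [← sq_abs t]
    rcases le_total |t| 2 with h | h
    · nlinarith [Real.abs_sub_sin_le t, mul_nonneg (sq_nonneg |t|) (sub_nonneg.2 h)]
    · nlinarith [abs_sub t (Real.sin t), Real.abs_sin_le_abs (x := t)]
  rw [Real.cos_add, show Real.cos t * Real.cos u - Real.sin t * Real.sin u -
    (Real.cos u - t * Real.sin u) = (Real.cos t - 1) * Real.cos u + (t - Real.sin t) * Real.sin u
    by ring]
  refine (abs_add_le _ _).trans ?_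
  rw [abs_mul, abs_mul]
  nlinarith [mul_le_of_le_one_right (abs_nonneg (Real.cos t - 1)) (Real.abs_cos_le_one u),
    mul_le_of_le_one_right (abs_nonneg (t - Real.sin t)) (Real.abs_sin_le_one u)]

lemma abs_le_four {R : ℝ} (R0 : 0 < R) (a : ℝ) : |a| ≤ R + a ^ 4 * (R ^ 3)⁻¹ := by
  rcases le_total |a| R with h | h
  · exact h.trans (le_add_of_nonneg_right (by positivity))
  · refine le_add_of_nonneg_of_le R0.le ?_
    rw [← div_eq_mul_inv, le_div_iff₀ (by positivity), ← Even.pow_abs (by decide : Even 4) a,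
      pow_succ' |a| 3]
    exact mul_le_mul_of_nonneg_left (pow_le_pow_left₀ R0.le h 3) (abs_nonneg a)

theorem alg {α : Type} {M : Set α} (hM : Ok M) (X Z Y O : α → ℝ) (a c s : ℝ) {C R : ℝ}
    (R0 : 0 < R) (R1 : R ≤ 1) (hX : Ex M (fun w => X w ^ 4) ≤ C)
    (hZ : Ex M (fun w => Z w ^ 4) ≤ C) (hI : Ex M (fun w => (2 * Z w + Y w) ^ 4) ≤ C * R ^ 6) :
    |Ex M (fun w => 2 * (X w - Ex M X) * Real.cos (2 * Z w + Y w + O w + s)) -
        c * Ex M fun w => Real.sin (2 * Z w + Y w + O w + s)| ≤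
      |Ex M fun w => X w * (2 * (Wo Y O s w - Ex M (Wo Y O s)))| + 4 * (1 + C) * |Ex M X| +
      4 * |Ex M (fun w => X w * Z w * Real.sin (O w + s)) -
        a * Ex M fun w => Real.sin (O w + s)| + |4 * a + c| + |c| * (1 + C) * R +
      1000 * (1 + C) * R ^ 3 := by
  have C0 : 0 ≤ C := (ex_nonneg fun w _ => by positivity).trans hX
  have R3 : 0 < R ^ 3 := by positivity
  have hI' : Ex M (fun w => (2 * Z w + Y w) ^ 4 * (R ^ 3)⁻¹) ≤ C * R ^ 3 := by
    rw [ex_mul', ← div_eq_mul_inv, div_le_iff₀ R3]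
    linarith
  set m := Ex M X with hm
  set e1 : α → ℝ := fun w => Real.cos (2 * Z w + Y w + (O w + s)) -
    (Real.cos (O w + s) - (2 * Z w + Y w) * Real.sin (O w + s)) with he1
  set e2 : α → ℝ := fun w => Real.sin (2 * Z w + Y w + (O w + s)) - Real.sin (O w + s) with he2
  have d1 : Ex M (fun w => 2 * (X w - m) * Real.cos (2 * Z w + Y w + O w + s)) =
      2 * Ex M (fun w => X w * Wo Y O s w) - 2 * m * Ex M (Wo Y O s) -
      4 * Ex M (fun w => X w * Z w * Real.sin (O w + s)) +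
      4 * m * Ex M (fun w => Z w * Real.sin (O w + s)) +
      2 * Ex M fun w => (X w - m) * e1 w := by
    simp only [← ex_mul, ← ex_sub, ← ex_add]
    exact ex_congr fun w _ => by simp only [he1, Wo, add_assoc]; ring
  have d2 : Ex M (fun w => Real.sin (2 * Z w + Y w + O w + s)) =
      Ex M (fun w => Real.sin (O w + s)) + Ex M e2 := by
    rw [← ex_add]
    exact ex_congr fun w _ => by simp only [he2, add_assoc]; ring
  have d3 : Ex M (fun w => X w * (2 * (Wo Y O s w - Ex M (Wo Y O s)))) =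
      2 * Ex M (fun w => X w * Wo Y O s w) - 2 * m * Ex M (Wo Y O s) := by
    rw [hm, mul_assoc, ← ex_mul', ← ex_mul, ← ex_mul, ← ex_sub]
    exact ex_congr fun w _ => by ring
  have b1 : |Ex M fun w => Z w * Real.sin (O w + s)| ≤ 1 + C := by
    refine (abs_ex_le _ _).trans ((ex_mono (g := fun w => 1 + Z w ^ 4) fun w _ => ?_).trans ?_)
    · rw [abs_mul]
      refine (mul_le_of_le_one_right (abs_nonneg _) (Real.abs_sin_le_one _)).trans ?_
      simpa using abs_le_four one_pos (Z w)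
    · rw [ex_add, ex_const hM]; linarith
  have b2 : |Ex M fun w => Real.sin (O w + s)| ≤ 1 :=
    (abs_ex_le _ _).trans (ex_le hM fun w _ => Real.abs_sin_le_one _)
  have b3 : |Ex M e2| ≤ (1 + C) * R := by
    refine (abs_ex_le _ _).trans ((ex_mono
      (g := fun w => R + (2 * Z w + Y w) ^ 4 * (R ^ 3)⁻¹) fun w _ => ?_).trans ?_)
    · refine (Real.abs_sin_sub_sin_le _ _).trans ?_
      rw [add_sub_cancel_right]
      exact abs_le_four R0 _
    · rw [ex_add, ex_const hM]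
      have : R ^ 3 ≤ R := by simpa using pow_le_pow_of_le_one R0.le R1 (show 1 ≤ 3 by norm_num)
      nlinarith
  have b4 : Ex M (fun w => (X w - m) ^ 2) ≤ 1 + C := by
    have e : Ex M (fun w => (X w - m) ^ 2) = Ex M (fun w => X w ^ 2) - m ^ 2 := by
      rw [ex_congr (g := fun w => X w ^ 2 - 2 * m * X w + m ^ 2) fun w _ => by ring, ex_add,
        ex_sub, ex_mul, ex_const hM, ← hm]
      ring
    have : Ex M (fun w => X w ^ 2) ≤ Ex M fun w => 1 + X w ^ 4 :=
      ex_mono fun w _ => by nlinarith [sq_nonneg (X w ^ 2 - 1), sq_nonneg (X w)]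
    rw [ex_add, ex_const hM] at this
    nlinarith [sq_nonneg m]
  have b5 : |Ex M fun w => (X w - m) * e1 w| ≤ 2 * (1 + C) * R ^ 3 := by
    refine (abs_ex_le _ _).trans ((ex_mono
      (g := fun w => R ^ 3 * (X w - m) ^ 2 + (2 * Z w + Y w) ^ 4 * (R ^ 3)⁻¹) fun w _ => ?_).trans ?_)
    · rw [abs_mul]
      refine (mul_le_mul_of_nonneg_left (cos_taylor _ _) (abs_nonneg _)).trans ?_
      rw [← sq_abs (X w - m)]
      generalize |X w - m| = p, 2 * Z w + Y w = q
      have : (R ^ 3 * p - q ^ 2) ^ 2 * (R ^ 3)⁻¹ =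
          R ^ 3 * p ^ 2 + q ^ 4 * (R ^ 3)⁻¹ - p * (2 * q ^ 2) := by field_simp; ring
      have h0 : 0 ≤ (R ^ 3 * p - q ^ 2) ^ 2 * (R ^ 3)⁻¹ := by positivity
      linarith
    · rw [ex_add, ex_mul]
      nlinarith
  rw [d1, d2, d3]
  generalize Ex M (fun w => X w * Wo Y O s w) = p1, Ex M (Wo Y O s) = p2,
    Ex M (fun w => X w * Z w * Real.sin (O w + s)) = p3,
    Ex M (fun w => Z w * Real.sin (O w + s)) = p4, Ex M (fun w => (X w - m) * e1 w) = p5,
    Ex M (fun w => Real.sin (O w + s)) = p6, Ex M e2 = p7 at *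
  have c1 : |m * p4| ≤ (1 + C) * |m| := by
    rw [abs_mul, mul_comm]; exact mul_le_mul_of_nonneg_right b1 (abs_nonneg _)
  have c2 : |(4 * a + c) * p6| ≤ |4 * a + c| := by
    rw [abs_mul]; exact mul_le_of_le_one_right (abs_nonneg _) b2
  have c3 : |c * p7| ≤ |c| * ((1 + C) * R) := by
    rw [abs_mul]; exact mul_le_mul_of_nonneg_left b3 (abs_nonneg _)
  have c4 : 0 ≤ (1 + C) * R ^ 3 := by positivity
  have c5 := le_abs_self (2 * p1 - 2 * m * p2)
  have c6 := neg_abs_le (2 * p1 - 2 * m * p2)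
  have c7 := le_abs_self (p3 - a * p6)
  have c8 := neg_abs_le (p3 - a * p6)
  rw [abs_le] at c1 c2 c3 b5 ⊢
  constructor <;> nlinarith [c1.1, c1.2, c2.1, c2.2, c3.1, c3.2, b5.1, b5.2]

theorem Wo4 {α : Type} {M : Set α} (hM : Ok M) (Z Y O : α → ℝ) (s : ℝ) {C : ℝ}
    (hZ : Ex M (fun w => Z w ^ 4) ≤ C) (hI : Ex M (fun w => (2 * Z w + Y w) ^ 4) ≤ C) :
    Ex M (fun w => (2 * (Wo Y O s w - Ex M (Wo Y O s))) ^ 4) ≤ 10 ^ 7 * (1 + C) := by
  have C0 : 0 ≤ C := (ex_nonneg fun w _ => by positivity).trans hZ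
  have h1 : Ex M (fun w => Wo Y O s w ^ (2 * 2)) ≤
      Ex M fun w => 16 + 256 * (2 * Z w + Y w) ^ 4 + 4096 * Z w ^ 4 := ex_mono fun w _ => by
    have a1 := MF.add_pow (Real.cos (O w + s)) (-(Y w * Real.sin (O w + s))) 2
    have a2 := MF.add_pow (2 * Z w + Y w) (-(2 * Z w)) 2
    have a3 : Real.cos (O w + s) ^ 4 ≤ 1 := by
      rw [← Even.pow_abs (by decide : Even 4)]
      exact pow_le_one₀ (abs_nonneg _) (Real.abs_cos_le_one _)
    have a4 : Real.sin (O w + s) ^ 4 ≤ 1 := by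
      rw [← Even.pow_abs (by decide : Even 4)]
      exact pow_le_one₀ (abs_nonneg _) (Real.abs_sin_le_one _)
    have a5 := mul_le_of_le_one_right (show 0 ≤ Y w ^ 4 by positivity) a4
    rw [show 2 * Z w + Y w + -(2 * Z w) = Y w by ring] at a2
    rw [Wo, sub_eq_add_neg]
    norm_num at a1 a2 ⊢
    nlinarith
  rw [ex_add, ex_add, ex_const hM, ex_mul, ex_mul] at h1
  have := MF.centred hM (Wo Y O s) 2
  norm_num at this h1 ⊢
  linarith

end Pool.Agent.Lib.MP_6359c9_pr.Sd
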