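import Pool.Agent.Lib.MP_6359c9_pr.SdDef
import Pool.Agent.Lib.MP_6359c9_pr.NullOf

/-! Locality and fourth moments of the linear statistics. -/

namespace Pool.Agent.Lib.MP_6359c9_pr.Sd

open Set Filter Topology MeasureTheory Pl

theorem tm4 (hT : MomTSt) : ∃ C > (0 : ℝ), ∀ (δ ρ B : ℝ) (x : ℂ) (f : ℂ → ℝ) (o : V), 0 < δ →
    δ ≤ ρ → Tf x ρ B f → ∫ z, f z = 0 → Lcl (Bs δ x (6 * ρ)) (LL δ x ρ f o) ∧
      Tm4 (C * (B * ρ ^ 2) ^ 4) (Bx (nr δ x) (4 * ⌈6 * ρ / δ⌉)) (LL δ x ρ f o) := by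
  obtain ⟨C1, c1, h1⟩ := hT 2
  obtain ⟨C2, c2, h2⟩ := qf_bd
  refine ⟨C1 * (C2 * 28) ^ 2, by positivity, fun δ ρ B x f o hδ hρ hf h0 => ?_⟩
  have hS := cvr_cv hδ hf
  have s0 := (sum_Wt hδ hf.int hS).trans h0
  have sub : ∀ v ∈ cv δ x (ρ + δ), v ∈ Bs δ x (6 * ρ) := fun v hv =>
    mem_Bs hδ ((mem_cv hδ).1 hv) (by linarith)
  have ρ0 : 0 < ρ := by linarith
  have n1 : (1 : ℤ) ≤ ⌈6 * ρ / δ⌉ := Int.one_le_ceil_iff.2 (by positivity)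
  have l1 := le_ceil hδ (6 * ρ)
  have l2 := ceil_le hδ (6 * ρ)
  refine ⟨lcl_lin s0 o (by omega) fun v hv _ => sub v hv, fun ρ' W t fr => ?_⟩
  refine (h1 ρ' W _ o _ _ _ t n1 fr (fun v hv => sub v hv) s0).trans ?_
  have q := h2 δ ρ B B x f f _ ⌈6 * ρ / δ⌉ hδ hρ (by linarith) hf hf hS hS
  have lg := MF.log_sq (t := (⌈6 * ρ / δ⌉ : ℤ) * δ / ρ) (T := 7)
    ((le_div_iff₀ ρ0).2 (by linarith)) ((div_le_iff₀ ρ0).2 (by linarith))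
  have B0 := hf.nonneg
  have q0 : 0 ≤ Qf ⌈6 * ρ / δ⌉ (cv δ x (ρ + δ)) (Wt δ f) (Wt δ f) :=
    Finset.sum_nonneg fun _ _ => Finset.sum_nonneg fun _ _ => by positivity
  calc _ ≤ C1 * (C2 * B * B * ρ ^ 4 * (4 * 7)) ^ 2 := by
        gcongr
        exact q.trans (by gcongr)
    _ = _ := by ring

theorem tm4_einf {C : ℝ} {y : V} {m : ℤ} {X : Cf → ℝ} (h : Tm4 C (Bx y m) X) (hX : Lc univ X) :
    Einf (fun w => X w ^ 4) ≤ C := h.einf (Bx_finite _ _) hX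

theorem lcl_out {δ t : ℝ} {x : ℂ} {f : ℂ → ℝ} {o : V} (hδ : 0 < δ) (s : Finset V)
    (h : ∀ z, f z ≠ 0 → 2 * t + 4 * δ < ‖z - x‖) (ho : o ∉ Bs δ x t) :
    Lcl (Bs δ x t)ᶜ (lin s (Wt δ f) o) := fun w hw w' hw' e =>
  Finset.sum_congr rfl fun v _ => by
    by_cases hv : Wt δ f v = 0
    · simp only [hv, zero_mul]
    obtain ⟨z, h1, h2⟩ := Wt_ne hδ hv
    have : v ∉ Bs δ x t := fun k => by
      have := norm_sub_le_norm_sub_add_norm_sub z (pos δ v) x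
      rw [norm_sub_rev z (pos δ v)] at this
      linarith [norm_Bs hδ k, h z h1]
    exact congrArg _ (lcl_gr (coBx_conn ho this) w hw w' hw' e)

end Pool.Agent.Lib.MP_6359c9_pr.Sd
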