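import Pool.Agent.Lib.MP_6359c9_pr.MomF
import Pool.Agent.Lib.MP_6359c9_pr.CovFus

/-! Boxes, covers and linear statistics at a continuum scale. -/

namespace Pool.Agent.Lib.MP_6359c9_pr.Sd

open Set Filter Topology MeasureTheory Pl

open Classical in
/-- the vertices within `ρ` of `c` -/
noncomputable def cv (δ : ℝ) (c : ℂ) (ρ : ℝ) : Finset V :=
  if h : {v : V | ‖pos δ v - c‖ ≤ ρ}.Finite then h.toFinset else ∅

/-- the pairing of the heights relative to `o` with a function supported within `ρ` of `c` -/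
noncomputable def LL (δ : ℝ) (c : ℂ) (ρ : ℝ) (f : ℂ → ℝ) (o : V) : Cf → ℝ :=
  lin (cv δ c (ρ + δ)) (Wt δ f) o

/-- the lattice box of continuum size `t` at `x` -/
def Bs (δ : ℝ) (x : ℂ) (t : ℝ) : Set V := Bx (nr δ x) ⌈t / δ⌉

variable {δ ρ B t : ℝ} {c x : ℂ} {f : ℂ → ℝ} {v : V}

lemma mem_cv (hδ : 0 < δ) : v ∈ cv δ c ρ ↔ ‖pos δ v - c‖ ≤ ρ := by
  rw [cv, dif_pos (pos_fin hδ c ρ), Finite.mem_toFinset, mem_setOf_eq]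

lemma cvr_cv (hδ : 0 < δ) (h : Tf c ρ B f) : Cvr δ f (cv δ c (ρ + δ)) := fun z hz v hv =>
  (mem_cv hδ).2 (by linarith [h.supp z hz, norm_sub_le_norm_sub_add_norm_sub (pos δ v) z c])

lemma le_ceil (hδ : 0 < δ) (t : ℝ) : t ≤ (⌈t / δ⌉ : ℤ) * δ :=
  (div_le_iff₀ hδ).1 (Int.le_ceil _)

lemma ceil_le (hδ : 0 < δ) (t : ℝ) : (⌈t / δ⌉ : ℤ) * δ ≤ t + δ := by
  have := mul_le_mul_of_nonneg_right (Int.ceil_lt_add_one (t / δ)).le hδ.le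
  rwa [add_mul, div_mul_cancel₀ _ hδ.ne', one_mul] at this

lemma mem_Bs (hδ : 0 < δ) (hv : ‖pos δ v - x‖ ≤ ρ) (ht : 2 * (ρ + δ) ≤ t) : v ∈ Bs δ x t :=
  MF.to_box hδ (nr_near hδ x) hv (ht.trans (le_ceil hδ t))

lemma norm_Bs (hδ : 0 < δ) (hv : v ∈ Bs δ x t) : ‖pos δ v - x‖ ≤ 2 * t + 3 * δ := by
  linarith [MF.of_box hδ (nr_near hδ x) hv, ceil_le hδ t]

lemma Bs_mono (hδ : 0 < δ) {t' : ℝ} (h : t ≤ t') : Bs δ x t ⊆ Bs δ x t' :=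
  Bx_mono' _ (Int.ceil_le_ceil (div_le_div_of_nonneg_right h hδ.le))

lemma Bx_sub_Bs (hδ : 0 < δ) {m : ℤ} (h : m * δ ≤ t) : Bx (nr δ x) m ⊆ Bs δ x t :=
  Bx_mono' _ (by exact_mod_cast ((le_div_iff₀ hδ).2 h).trans (Int.le_ceil _))

lemma free_Bs {Ω : Set ℂ} (A : Sq Ω) {n : ℕ}
    (h : ∀ v, ‖pos (A.δ n) v - x‖ ≤ 2 * t + 3 * A.δ n → v ∈ A.U n) :
    Free (A.rho n) (A.U n) (Bs (A.δ n) x t) := fun v hv =>
  (A.clo n).free v (h v (norm_Bs (A.δpos n) hv))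

end Pool.Agent.Lib.MP_6359c9_pr.Sd
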