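import Pool.Agent.Lib.MP_6359c9_pr.SlMic
import Pool.Agent.Lib.MP_6359c9_pr.ObDef

/-! The driving functions are approximate martingale chains. -/

namespace Pool.Agent.Lib.MP_6359c9_pr

open Set Filter Topology Complex Xp Bm
open scoped NNReal

namespace Mic

lemma hist_anti {s : ℤ} (X : St s) {k : ℕ} {x y : V → ℤ} (h : X.hist (k + 1) x = X.hist (k + 1) y) :
    X.hist k x = X.hist k y := funext fun j => by
  have := congrFun h (min j k)
  simp only [St.hist] at this ⊢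
  rwa [min_eq_left ((min_le_right j k).trans k.le_succ)] at this

variable (A : Sett)

lemma ok_S (n : ℕ) : (A.S n).Finite ∧ (A.S n).Nonempty :=
  ok_two (k := 0) ((A.Q n).cls_R (A.dpos n)).fin fun v _ => by simpa using (A.Q n).xi_two v

lemma W_coe (n : ℕ) (g : V → ℤ) (u : ℝ≥0) : A.W n g u = drv (A.p n g) u := by
  simp [Sett.W, Ge.rl]

variable {A} {L T e : ℝ} {n : ℕ} {g : V → ℤ}

lemma drv0 (hg : g ∈ A.S n) : drv (A.p n g) 0 = 0 :=
  ofReal_injective ((A.trc n g hg).smp.drv_zero.trans (by rw [(A.trc n g hg).zero, ofReal_zero]))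

/-- live steps are good -/
lemma good (hL : 0 < L) (hT : 0 < T) (he : e ≤ 1)
    (H : ∀ g k, A.Good (L + 1) (T + 1) n g k → k + 1 < (A.X n).K g ∧
      (A.t n g (k + 1) : ℝ) ≤ A.t n g k + e ∧ ∀ u ∈ Icc (A.t n g k) (A.t n g (k + 1)),
        |drv (A.p n g) u - drv (A.p n g) (A.t n g k)| ≤ e) (hg : g ∈ A.S n) {k : ℕ}
    (h : Live (A.W n g) (fun j => A.t n g j) L T k) : A.Good (L + 1) (T + 1) n g k := by
  induction k with
  | zero =>
    have t0 := (A.tim n).zero g hg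
    refine ⟨hg, (A.tim n).pos g hg, by rw [t0]; push_cast; linarith, fun u hu => ?_⟩
    rw [t0, le_zero_iff] at hu
    rw [hu, drv0 hg, abs_zero]; linarith
  | succ k ih =>
    have G := ih fun j hj => h j (hj.trans k.lt_succ_self)
    obtain ⟨h1, h2, h3⟩ := H g k G
    obtain ⟨h4, h5⟩ := h k k.lt_succ_self
    rw [W_coe] at h4
    refine ⟨hg, h1, by linarith, fun u hu => ?_⟩
    rcases le_total u (A.t n g k) with c | c
    · exact G.bd u c
    · have := abs_add_le (drv (A.p n g) u - drv (A.p n g) (A.t n g k)) (drv (A.p n g) (A.t n g k))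
      rw [sub_add_cancel] at this
      linarith [h3 u ⟨c, hu⟩]

/-- the Loewner equation at a far point -/
lemma far_sol {k : ℕ} (G : A.Good L T n g k) {z : ℂ} (hz : z ∈ UH) (hR : L + 3 * √T + 1 ≤ ‖z‖) :
    ∃ f, Far.Sol (A.W n g) (A.t n g k) z f ∧ f (A.t n g k) = gm (A.p n g) (A.t n g k) z := by
  have tr := A.trc n g G.mem
  have hs : z ∈ Sl (A.p n g) (A.t n g k) := ⟨hz, fun ⟨u, hu, c⟩ => by
    have := G.rad hu
    rw [c] at this
    linarith⟩
  refine ⟨fun s => ge (A.p n g) s.toNNReal z, ⟨by simpa using tr.smp.ge_zero (le_of_lt hz),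
    fun s hs' => ?_⟩, by simpa using tr.smp.ge_eq hs⟩
  simpa only [ofReal_ofNat, Sett.W] using (tr.smp.sol tr.cap (Okp.of_sl hs) s hs').2

end Mic

open Mic

theorem seqSt (hM : MicSt) (hO : ObsSt) : SeqSt := by
  intro A
  refine ⟨ok_S A, fun L T e hL hT he => ?_⟩
  obtain ⟨R0, H⟩ := Far.mkAM hL hT he
  obtain ⟨R, h0, h1⟩ : ∃ R, R0 ≤ R ∧ L + 1 + 3 * √(T + 1) + 1 ≤ R :=
    ⟨_, le_max_left _ _, le_max_right _ _⟩
  have R0 : 0 < R := lt_of_lt_of_le (by positivity) h1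
  obtain ⟨η, η0, H⟩ := H R h0
  have u1 : (R * I : ℂ) ∈ UH := by simpa [Lw.mem_UH] using R0
  have u2 : (R * (1 + I) : ℂ) ∈ UH := by simpa [Lw.mem_UH] using R0
  have n1 : L + 1 + 3 * √(T + 1) + 1 ≤ ‖(R * I : ℂ)‖ :=
    h1.trans (by simpa using im_le_norm (R * I : ℂ))
  have n2 : L + 1 + 3 * √(T + 1) + 1 ≤ ‖(R * (1 + I) : ℂ)‖ :=
    h1.trans (by simpa using im_le_norm (R * (1 + I) : ℂ))
  obtain ⟨Y1, o1⟩ := hO A (L + 1) (T + 1) _ u1 n1
  obtain ⟨Y2, o2⟩ := hO A (L + 1) (T + 1) _ u2 n2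
  filter_upwards [hM A (L + 1) (T + 1) (min e 1) (by positivity), o1 η η0, o2 η η0] with n m o1 o2
  have gd := fun g hg k => good (g := g) (k := k) hL hT (min_le_right e 1) m hg
  have tm := A.tim n
  let O : Far.Ob (ℕ → V × V) (A.S n) (A.W n) L T e R η :=
    { F := (A.X n).hist
      t := fun k g => A.t n g k
      Y1 := Y1 n
      Y2 := Y2 n
      E := fun _ => η
      anti := fun k x _ y _ => hist_anti _
      ad := fun k x hx y hy h hl => by
        obtain ⟨a, b⟩ := tm.ad x hx y hy k (gd x hx k hl).lt h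
        exact ⟨congrArg _ a, fun u hu => (b _ (Real.toNNReal_le_iff_le_coe.2 hu.2)).2⟩
      t0 := fun x hx => by rw [tm.zero x hx, NNReal.coe_zero]
      w0 := fun x hx => (W_coe A n x 0).trans (drv0 hx)
      step := fun x hx k hl => by
        obtain ⟨a, b, c⟩ := m x k (gd x hx k fun j hj => hl j (hj.trans k.lt_succ_self))
        refine ⟨(tm.mono x hx k a).le, by linarith [min_le_left e 1], fun u hu => ?_⟩
        lift u to ℝ≥0 using (A.t n x k).2.trans hu.1
        rw [W_coe, W_coe]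
        exact (c u hu).trans (min_le_left e 1)
      exit := fun x hx => ⟨_, fun hl => lt_irrefl _ (gd x hx ((A.X n).K x) hl).lt⟩
      obs1 := fun x hx k hl => by
        obtain ⟨f, a, b⟩ := far_sol (gd x hx k hl) u1 n1
        exact ⟨f, a, by rw [b, W_coe]; exact o1 x k (gd x hx k hl)⟩
      obs2 := fun x hx k hl => by
        obtain ⟨f, a, b⟩ := far_sol (gd x hx k hl) u2 n2
        exact ⟨f, a, by rw [b, W_coe]; exact o2 x k (gd x hx k hl)⟩
      errE := (End.mean_const (ok_S A n).1 (ok_S A n).2 η).le }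
  obtain ⟨B, -⟩ := H _ _ _ _ O (ok_S A n).1 (ok_S A n).2
  exact ⟨B⟩

theorem eqcSt_of (h : Obs.MesoSt) : EqcSt := fun Ψ ψ => h Ψ ψ atTop

theorem seqSt_of (h : Obs.MesoSt) (hO : ObsSt) : SeqSt := seqSt (micSt (eqcSt_of h)) hO

end Pool.Agent.Lib.MP_6359c9_pr
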