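import Pool.Agent.Lib.MP_6359c9_pr.UsC

/-! Late returns and large oscillations of one curve. -/

namespace Pool.Agent.Lib.MP_6359c9_pr.Xp

open Set WD Complex
open scoped NNReal

variable {d : ℝ} {s : ℤ} {S : St s} {Q : Dom d} {Ψ : ℂ → ℂ} {g : V → ℤ} {p : ℝ≥0 → ℂ}
  {t : ℕ → ℝ≥0}

lemma mem_cl {X : Set V} {x : V} (h : x ∈ cl X) : ∃ y ∈ X, x = y ∨ Adj y x :=
  h.elim (fun h => ⟨x, h, .inl rfl⟩) fun ⟨y, a, b⟩ => ⟨y, a, .inr b⟩

lemma Cv.le (H : Cv Q S Ψ g p t) {u v : ℝ≥0} {k m : ℕ} (h : u ≤ v) (k1 : k < S.K g) (k2 : t k ≤ u)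
    (m3 : m + 1 < S.K g → v < t (m + 1)) : k ≤ m := by
  by_contra n
  exact absurd ((m3 (by omega)).trans_le ((H.mono _ _ (by omega) k1).trans (k2.trans h)))
    (lt_irrefl _)

lemma ray_up {z v : ℂ} {τ : ℝ} (hz : z ∈ UH) (hv : 0 ≤ v.im) (hτ : 0 ≤ τ) : z + τ * v ∈ UH := by
  have : 0 < z.im := hz
  show 0 < (z + τ * v).im
  simp only [add_im, mul_im, ofReal_re, ofReal_im, zero_mul, add_zero]
  positivity

theorem traDet : TraDet := by
  intro d s S Q Ψ g p t H hc h0 R r ho hR hr u hu h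
  classical
  have hg := H.adm
  set Fn : Set V := {c | S.L c ∧ ∃ z ∈ UH, Ψ z ∈ Tg d c ∧ ‖z‖ ≤ r} with hFn
  have u0 : 0 < u := by
    have : (0 : ℝ) < u := lt_of_lt_of_le (by nlinarith) hu
    exact_mod_cast this
  have zu := H.smp.up u u0
  obtain ⟨u1, a1, a2⟩ : ∃ u1 ≤ u, r + 2 < ‖p u1‖ := by
    by_contra k
    push Not at k
    obtain ⟨G, hG⟩ := hc u
    have := hG.cap_le (x := 0) (r := r + 2) (fun z hz => by
      obtain ⟨v, hv, rfl⟩ := Sl_hull hz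
      simpa using k v hv) (by linarith)
    nlinarith
  have z1 : p u1 ∈ UH := H.smp.up _ (pos_iff_ne_zero.2 fun e => by
    rw [e, h0, norm_zero] at a2; linarith)
  obtain ⟨k, k1, k2, -, k4⟩ := H.step u1
  obtain ⟨m, m1, -, m3, m4⟩ := H.step u
  have km := H.le a1 k1 k2 m3
  have hk : FC S.L Fn (S.ah g k) S.fb := by
    refine H.ray z1 (le_of_lt z1) (fun e => by rw [e, norm_zero] at a2; linarith) ?_ (hg.face k) k4
    rintro τ hτ c lc hc x hx ⟨c', ⟨b0, z, b1, b2, b3⟩, b4⟩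
    have h1 := ho x c c' lc b0 hx b4 _ (ray_up z1 (le_of_lt z1) hτ) z b1 hc b2 (by linarith)
    have h2 := norm_le_norm_add_norm_sub' (p u1 + τ * p u1) z
    rw [show p u1 + τ * p u1 = ((1 + τ : ℝ) : ℂ) * p u1 by push_cast; ring] at h1 h2
    rw [norm_mul, Complex.norm_real, Real.norm_of_nonneg (by linarith)] at h2
    nlinarith [norm_nonneg (p u1)]
  have ex : ∃ j, FC S.L Fn (S.ah g j) S.fb := ⟨k, hk⟩
  have jm : Nat.find ex ≤ m := (Nat.find_min' ex hk).trans km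
  have hj := Nat.find_spec ex
  have mn := fun i => Nat.find_min ex (m := i)
  generalize Nat.find ex = j at jm hj mn
  have A := hg.after (k := j) (by omega)
  have hq : FC (S.sat g j).L Fn S.fb (S.ah g j) := by
    refine hj.symm.ind (FC.refl (A.fb_mem hj.right.1) hj.right.2) fun x y a e ly fy hx => ?_
    obtain ⟨a1, a2, a3, rfl, rfl⟩ := id e
    refine hx.tail e ((A.bd _ _ a3 hx.right.1 ly).resolve_right fun ⟨i, i1, i2⟩ => mn i i1 ?_) fy
    rw [i2]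
    exact (a.tail e ly fy).symm
  have far : ∀ c, FC (S.sat g j).L Fn c S.fb → S.L c ∧ ∃ z ∈ UH, Ψ z ∈ Tg d c ∧ r < ‖z‖ :=
    fun c a => by
      obtain ⟨z, b1, b2⟩ := H.ctr (A.sub c a.1.1)
      exact ⟨A.sub c a.1.1, z, b1, b2, not_le.1 fun k => a.1.2 ⟨A.sub c a.1.1, z, b1, b2, k⟩⟩
  refine hg.vis (y := 1) jm m1 ?_ (fun v hv a => ?_) (fun x hx a => ?_)
    (St.one_arc' (w := (S.e g j).1) (by rw [A.fin.2]; exact ar_l S.adj_b) (.inl (by rw [A.cur]))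
      hq.symm (ar_l (hg.adj j)) (hg.sat_mem jm m1))
  · rintro v hv ⟨c, a, b⟩
    obtain ⟨lc, z, b1, b2, b3⟩ := far c a
    have h1 := ho v c _ lc (St.in_K m1) b hv z b1 _ zu b2 m4 (by linarith)
    linarith [norm_le_norm_add_norm_sub' z (p u)]
  · have h1 := H.next ho hv (.inl rfl) (St.in_K m1) a zu m4 (.inl (by linarith))
    have h2 := Un.UH_sub (H.vert hv).1
    have h3 := norm_le_norm_add_norm_sub' (H.ch.inv (pos d v)) (p u)
    rw [div_le_iff₀ (by linarith)]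
    exact (cay_one h2).symm.trans_le
      (mul_le_mul_of_nonneg_left (by linarith [(cay_den' h2).2.2]) (norm_nonneg _))
  · obtain ⟨y, ⟨c, a, b⟩, e⟩ := mem_cl a
    obtain ⟨lc, z, b1, b2, b3⟩ := far c a
    have h2 := Un.UH_sub (H.vert hx).1
    rw [le_div_iff₀ (by linarith)]
    refine (mul_le_mul_of_nonneg_left (le_trans ?_ (cay_den' h2).2.1) (norm_nonneg _)).trans_eq
      (cay_one h2)
    by_contra n
    have h1 := H.next ho hx e lc b b1 b2 (.inr (by linarith))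
    rw [norm_sub_rev] at h1
    linarith [norm_le_norm_add_norm_sub' z (H.ch.inv (pos d x))]

theorem modDet : ModDet := by
  intro d s S Q Ψ g p t H u v σ M η ω ε ho u0 uv hε hp hσ σM ση cut ω0 ω1 ωε ηε
  have hg := H.adm
  have M0 : 0 ≤ M := (norm_nonneg _).trans (hp v le_rfl)
  have σM' : ∀ z ∈ σ, ‖z‖ ≤ M := fun z hz => (mem_ball_zero_iff.1 (σM hz)).le
  obtain ⟨y, y1, y2, y3⟩ : ∃ y ∈ UC, ‖y‖ ≤ M ∧ ∀ z ∈ σ, ‖z - y‖ ≤ η := by
    rcases σ.eq_empty_or_nonempty with rfl | ⟨y, hy⟩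
    · exact ⟨0, Un.real_UC 0, by simpa using M0, fun _ h => h.elim⟩
    · exact ⟨y, Un.UH_sub (hσ hy).1, σM' y hy, fun z hz => ση z hz y hy⟩
  have zu := H.smp.up u u0
  have zv := H.smp.up v (u0.trans_le uv)
  obtain ⟨k, k1, k2, k3, k4⟩ := H.step u
  obtain ⟨m', m1, m2, m3, m4⟩ := H.step v
  have same : ∀ j < S.K g, ∀ w, 0 < w → Ψ (p w) ∈ Tg d (S.ah g j) → Ψ (p u) ∈ Tg d (S.ah g j) →
      ‖p w - p u‖ ≤ ω := fun j hj w hw a b =>
    ho _ _ _ (St.in_K hj) (St.in_K hj) (ar_l (hg.adj j)) (ar_l (hg.adj j)) _ (H.smp.up w hw) _ zu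
      a b (hp u uv)
  have km : k + 1 ≤ m' := by
    refine lt_of_le_of_ne (H.le uv k1 k2 m3) fun e => ?_
    have := same m' m1 v (u0.trans_le uv) m4 (e ▸ k4)
    rw [norm_sub_rev] at this
    linarith
  have k5 := k3 (by omega)
  obtain ⟨w, w1, w2, m, n1, n2, n3, n4⟩ : ∃ w, u < w ∧ w ≤ v ∧ ∃ m, k + 1 ≤ m ∧ m < S.K g ∧
      Ψ (p w) ∈ Tg d (S.ah g m) ∧ ε / 2 - ω ≤ ‖p w - y‖ := by
    have k6 := (H.mono _ _ km m1).trans m2
    by_cases h : ε / 2 ≤ ‖p v - y‖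
    · exact ⟨v, k5.trans_le k6, le_rfl, m', km, m1, m4, by linarith⟩
    · have e := H.tip (k + 1) (by omega)
      have h1 := same k k1 _ (u0.trans k5) (e ▸ (mid_ah H.hd hg k).2) k4
      refine ⟨_, k5, k6, k + 1, le_rfl, by omega, e ▸ (mid_ah H.hd hg (k + 1)).1, ?_⟩
      have h2 := norm_sub_le_norm_sub_add_norm_sub (p u) y (p v)
      have h3 := norm_sub_le_norm_sub_add_norm_sub (p u) (p (t (k + 1))) y
      rw [norm_sub_rev y] at h2
      rw [norm_sub_rev (p u) (p _)] at h3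
      linarith
  have zw := H.smp.up w (u0.trans w1)
  set F : Set V := {c | S.L c ∧ ∃ z ∈ σ, Ψ z ∈ Tg d c} with hF
  have off : ∀ z ∈ UH, ε / 2 - ω ≤ ‖z - y‖ → ∀ c, S.L c → Ψ z ∈ Tg d c → ∀ x, Ar x c → x ∉ Vx F := by
    rintro z hz h c lc hc x hx ⟨c', ⟨b0, z', b1, b2⟩, b4⟩
    have h1 := ho x c c' lc b0 hx b4 z hz z' (hσ b1).1 hc b2 (σM' z' b1)
    linarith [norm_sub_le_norm_sub_add_norm_sub z z' y, y3 z' b1]
  have h0 : FC S.L F (S.ah g m) S.fb := by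
    obtain ⟨e, e0, e1⟩ : ∃ e : ℝ, e ≠ 0 ∧ 0 ≤ e * (p w - y).re := by
      rcases le_total 0 (p w - y).re with h | h
      · exact ⟨1, one_ne_zero, by linarith⟩
      · exact ⟨-1, by norm_num, by linarith⟩
    refine H.ray (v := e) zw (by simp) (by exact_mod_cast e0) (fun τ hτ => off _
      (ray_up zw (by simp) hτ) (n4.trans (le_of_sq_le_sq ?_ (norm_nonneg _)))) (hg.face m) n3
    rw [add_sub_right_comm]
    simp only [Complex.sq_norm, normSq_apply, add_re, add_im, mul_re, mul_im, ofReal_re, ofReal_im]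
    nlinarith [mul_nonneg hτ e1, sq_nonneg (τ * e)]
  have A := hg.after (k := k + 1) (by omega)
  have h1 : ¬FC (S.sat g (k + 1)).L F (S.ah g m) S.fb := fun h => by
    obtain ⟨N, hN⟩ := H.far
    obtain ⟨z, z1, z2, z3⟩ : ∃ z ∈ UH, N ≤ ‖z‖ ∧ M < ‖z‖ := by
      have : ‖((|N| + M + 1 : ℝ) : ℂ) * I‖ = |N| + M + 1 := by
        rw [norm_mul, norm_I, mul_one, Complex.norm_real, Real.norm_of_nonneg (by positivity)]
      refine ⟨(|N| + M + 1 : ℝ) * I, ?_, by linarith [le_abs_self N], by linarith [abs_nonneg N]⟩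
      show 0 < im _
      rw [mul_I_im, ofReal_re]
      positivity
    obtain ⟨q, q1, q2⟩ := tg_cover d (Ψ z)
    obtain rfl := hN z z1 z2 q q1 q2
    obtain ⟨C, c1, c2, c3, c4⟩ := h.conn H.hd (S.sat g (k + 1)).face n3 q2
    have iw := H.ch.inv_map (Un.UH_sub zw)
    have iz := H.ch.inv_map (Un.UH_sub z1)
    have cD : C ⊆ Q.D := fun x hx => by
      rcases (c4 x hx).1 with rfl | rfl | a
      · exact H.ch.bij.mapsTo zw
      · exact H.ch.bij.mapsTo z1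
      · exact H.of.In_eq H.hd ▸ fun c b1 b2 => A.sub c (a c b1 b2)
    obtain ⟨_, ⟨x, hx, rfl⟩, xσ⟩ := cut (H.ch.inv '' C) (c1.image _ (H.ch.phi.hol.continuousOn.mono cD))
      (by
        rintro _ ⟨x, hx, rfl⟩
        refine ⟨(chart_inv H.ch (cD hx)).1, ?_⟩
        rintro ⟨τ, hτ, e⟩
        rcases (c4 x hx).1 with rfl | rfl | a
        · exact w1.not_ge (H.smp.inj (e.trans iw) ▸ hτ)
        · exact z3.not_ge (iz ▸ e ▸ hp τ (le_trans hτ uv))
        · obtain ⟨j, j1, j2, -, j4⟩ := H.step τ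
          rw [e, (chart_inv H.ch (cD hx)).2] at j4
          exact (A.old j (Nat.lt_succ_of_le (H.le hτ j1 j2 k3))).2 (a _ (hg.face j) j4))
      ⟨w, ⟨w1, w2⟩, _, c2, iw⟩ ⟨z, ⟨_, c3, iz⟩, z3.le⟩
    obtain ⟨q, a, b⟩ := (c4 x hx).2
    exact a.right.2 ⟨A.sub q a.right.1, _, xσ, by rwa [(chart_inv H.ch (cD hx)).2]⟩
  obtain ⟨j, j1, j2⟩ := St.sealed (A := S.sat g) (fun j hj => hg.after (by omega))
    (fun j hj => (hg.form (by omega)).2.1) h0 h1 fun j hj => hg.sat_mem (hj.trans n1) n2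
  have dy := cay_den' y1
  refine hg.vis (y := Un.cay I y) (j1.trans n1) n2 (off _ zw n4 _ (St.in_K n2) n3)
    (fun x hx a => ?_) (fun x hx a => ?_) j2
  · have h1 := H.next ho hx (.inl rfl) (St.in_K n2) a zw n3 (.inl (hp w w2))
    have h2 := Un.UH_sub (H.vert hx).1
    have h3 := norm_le_norm_add_norm_sub' (H.ch.inv (pos d x)) (p w)
    have h4 := norm_sub_le_norm_sub_add_norm_sub (p w) (H.ch.inv (pos d x)) y
    have h5 := cay_den' h2
    rw [norm_sub_rev (p w) (H.ch.inv _)] at h4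
    rw [div_le_iff₀ (by positivity)]
    refine le_trans (by linarith) ((cay_sub h2 y1).symm.trans_le
      (mul_le_mul_of_nonneg_left ?_ (norm_nonneg _)))
    rw [sq]
    exact mul_le_mul (by linarith [hp w w2]) (by linarith) (norm_nonneg _) (by linarith)
  · obtain ⟨x', ⟨c, ⟨lc, z, b1, b2⟩, b⟩, e⟩ := mem_cl a
    have h1 := H.next ho hx e lc b (hσ b1).1 b2 (.inl (σM' z b1))
    have h2 := Un.UH_sub (H.vert hx).1
    have h4 := norm_sub_le_norm_sub_add_norm_sub (H.ch.inv (pos d x)) z y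
    refine le_trans (le_mul_of_one_le_right (norm_nonneg _)
      (one_le_mul_of_one_le_of_one_le (cay_den' h2).1 dy.1)) ((cay_sub h2 y1).trans_le ?_)
    linarith [y3 z b1]

end Pool.Agent.Lib.MP_6359c9_pr.Xp
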