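import Pool.Agent.Lib.MP_6359c9_pr.UsC
import Pool.Agent.Lib.MP_6359c9_pr.LwH
import Pool.Agent.Lib.MP_6359c9_pr.BmMod

/-! Transience and modulus of continuity from the fjord estimate. -/

namespace Pool.Agent.Lib.MP_6359c9_pr.Xp

open Set Filter Topology
open scoped NNReal

lemma St.Vis.mono {s : ℤ} {S : St s} {g : V → ℤ} {Φ : V → ℂ} {η η' ρ : ℝ} (h : S.Vis g Φ η ρ)
    (e : η ≤ η') : S.Vis g Φ η' ρ := by
  obtain ⟨a, ha, k, j, y, v, B, h1, h2, h3, h4, h5, h6, h7⟩ := h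
  exact ⟨a, ha, k, j, y, v, B, h1, h2, h3, h4, h5, fun x hx => (h6 x hx).trans e, h7⟩

lemma pr_Pr {α : Type} (S E : Set α) : Ge.pr S E = Pr S E := (pr_eq S E).symm

lemma vis_pr (hF : FjUse) (A : Sett) {ε ρ : ℝ} (hε : 0 < ε) (hρ : 0 < ρ) : ∃ η > (0 : ℝ),
    ∀ᶠ n in atTop, Pr (A.S n) {g | (A.X n).Vis g (A.Φ n) η ρ} ≤ ε := by
  obtain ⟨η, h0, H⟩ := hF A (ε / 2) ρ (by positivity) hρ
  refine ⟨η, h0, H.mono fun n h => ?_⟩
  refine le_trans (pr_le_add ?_) ((add_le_add (h 0 (Or.inl rfl)) (h 1 (Or.inr rfl))).trans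
    (by linarith))
  rintro g - ⟨a, ha, k, j, y, v, B, h1, h2, h3, h4, h5, h6, h7⟩
  have : g ∈ Fj.Bad (A.X n).Rk ((A.X n).Zk a) (A.Φ n) η ρ := by
    refine ⟨k, j, y, v, B, h1, ?_, ?_, h5, h6, ?_⟩
    · rwa [St.Zk, if_pos h2]
    · rwa [St.Rk, if_pos (by omega)]
    · rwa [St.Zk, St.Rk, if_pos (by omega), if_pos (by omega)]
  rcases ha with rfl | rfl
  exacts [Or.inl this, Or.inr this]

theorem traSt (hF : FjUse) (hO : OscSt) (hD : TraDet) : TraSt := by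
  intro A _ R ε hε
  have R0 : 0 < max R 1 := one_pos.trans_le (le_max_right _ _)
  obtain ⟨η, η0, H1⟩ := vis_pr hF A hε (ρ := 2 / (max R 1 + 2)) (by positivity)
  set r := max (max R 1 + 2) (2 / η + 1) with hr
  have r1 : 2 / η + 1 ≤ r := le_max_right _ _
  have r2 : 0 < 2 / η := by positivity
  have r3 : 2 / (r - 1) ≤ η := by
    rw [div_le_comm₀ (by linarith) η0]
    linarith
  refine ⟨((r + 3) ^ 2).toNNReal, ?_⟩
  filter_upwards [H1, hO A (r + 1) 1 one_pos] with n h1 h2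
  rw [pr_Pr]
  refine le_trans (pr_mono ?_) h1
  rintro g hg ⟨u, hu, hl⟩
  have P := A.trc n g hg
  exact (hD _ _ _ _ _ _ _ _ (Sett.cv A n hg) P.cap P.zero _ r h2 R0 (le_max_left _ _) u
    (Real.toNNReal_le_iff_le_coe.1 hu) (hl.trans_le (le_max_left _ _))).mono r3

theorem modSt (hF : FjUse) (hO : OscSt) (hD : ModDet) : ModSt := by
  intro A h T ε hε
  obtain ⟨L, L0, H1⟩ := Bm.supOut h (T := T + 1) (ε := ε / 3) (by positivity) (by positivity)
  have M0 : L + 3 * √T ≤ Lw.R0 T L := by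
    have := Real.sqrt_nonneg T
    unfold Lw.R0
    linarith
  have M1 : 0 < Lw.R0 T L := lt_of_lt_of_le (by positivity) M0
  obtain ⟨η, η0, H2⟩ := vis_pr hF A (ε := ε / 3) (ρ := ε / 2 / (Lw.R0 T L + 2) ^ 2)
    (by positivity) (by positivity)
  set ω := min (min (η / 4) (ε / 8)) 1 with hω
  have w0 : 0 < ω := by positivity
  have w1 : ω ≤ η / 4 := (min_le_left _ _).trans (min_le_left _ _)
  have w2 : ω ≤ ε / 8 := (min_le_left _ _).trans (min_le_right _ _)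
  have w3 : ω ≤ 1 := min_le_right _ _
  obtain ⟨θ, θ0, G⟩ := Smp.gate T L w0
  obtain ⟨c, c0, H3⟩ := Bm.modOut h (T + 1) (min θ (ε / 3)) (by positivity) (by positivity)
  refine ⟨min θ c, by positivity, ?_⟩
  filter_upwards [H1, H2, H3, hO A (Lw.R0 T L) ω w0] with n h1 h2 h3 h4
  replace h1 := (pr_Pr _ _).symm.trans_le h1
  replace h3 := (pr_Pr _ _).symm.trans_le (h3.trans (min_le_right _ _))
  rw [pr_Pr]
  refine le_trans (pr_le_add ?_) ((add_le_add h2 ((pr_union_le _ _ _).trans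
    (add_le_add h1 h3))).trans (by linarith))
  rintro g hg ⟨u, hu, v, hv, huv, hl⟩
  have P := A.trc n g hg
  refine or_iff_not_imp_right.2 fun hn => ?_
  obtain ⟨n1, n3⟩ : _ ∧ _ := by simpa only [mem_union, not_or] using hn
  have bd : ∀ v ≤ T, |drv (A.p n g) v| ≤ L := fun v hv => not_lt.1 fun H =>
    n1 ⟨v, ⟨v.2, by linarith [NNReal.coe_le_coe.2 hv]⟩, by simpa [Sett.W, Ge.rl] using H⟩
  wlog o : u ≤ v generalizing u v
  · exact this v hv u hu (by rwa [dist_comm]) (by rwa [norm_sub_rev]) (le_of_not_ge o)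
  have lt : u < v := o.lt_of_ne fun e => by
    rw [e, sub_self, norm_zero] at hl
    exact hl.not_gt hε
  have ev : ∀ᶠ w in 𝓝[>] u, ε < ‖A.p n g w - A.p n g v‖ :=
    ((P.smp.cont.sub continuous_const).norm.continuousAt.eventually
      (lt_mem_nhds hl)).filter_mono nhdsWithin_le_nhds
  obtain ⟨w, hw, k⟩ := (ev.and (Ioc_mem_nhdsGT lt)).exists
  have b1 : (u : ℝ) < w := k.1
  have b2 : (w : ℝ) ≤ v := k.2
  have b3 : (v : ℝ) ≤ T := hv
  have b4 := min_le_left θ c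
  have b5 := min_le_right θ c
  rw [NNReal.dist_eq, abs_le] at huv
  obtain ⟨σ, -, s2, s3, s4, -, s6⟩ := G _ P.smp P.cap bd w v k.2 hv (by linarith [huv.1])
    fun x hx => not_lt.1 fun H => by
      have v1 : (w : ℝ) ≤ x := hx.1
      have v2 : (x : ℝ) ≤ v := hx.2
      refine n3 ⟨x, ⟨x.2, by linarith⟩, w, ⟨w.2, by linarith⟩,
        abs_le.2 ⟨by linarith, by linarith [huv.1]⟩, (min_le_left _ _).trans_lt ?_⟩
      simpa [Sett.W, Ge.rl] using H
  exact (hD _ _ _ _ _ _ _ _ (Sett.cv A n hg) w v σ _ ω ω ε h4 (zero_le.trans_lt k.1) k.2 hw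
    (fun x hx => (P.smp.rad P.cap bd (hx.trans hv)).trans M0) s2 s3 s4 s6 w0 w3 (by linarith)
    (by linarith)).mono (by linarith)

end Pool.Agent.Lib.MP_6359c9_pr.Xp
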