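import Pool.Agent.Lib.MP_6359c9_pr.UsC

/-! The preimages of the stars of the vertices are small. -/

namespace Pool.Agent.Lib.MP_6359c9_pr.Xp

open Set WD Filter Topology

theorem oscSt (hE : EqcSt) : OscSt := fun A M w hw => by
  obtain ⟨η, hη, H⟩ := hE A.Ψ A.ψ (fun n => ⟨(A.chart n).hol, (A.chart n).injH⟩) A.bij.injOn
    A.conv M w hw
  filter_upwards [H, A.dlim.eventually (ge_mem_nhds (by positivity : (0 : ℝ) < η / 6))]
    with n hn hd x c c' l l' a a' z hz z' hz' t t' hM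
  have h := A.chart n
  have d0 := A.dpos n
  obtain ⟨C, c1, c2, c3, c4⟩ := (fc_fan (F := {p | ¬Ar x p}) (A.X n).D
    (fun ⟨_, k, k'⟩ => k k') a' a l' l).conn d0 (A.X n).face t' t
  have CD : C ⊆ (A.Q n).D := fun y hy => by
    rcases (c4 y hy).1 with rfl | rfl | k
    exacts [h.bij.mapsTo hz', h.bij.mapsTo hz, (A.of n).In_eq d0 ▸ k]
  refine hn (h.inv '' C) ?_ (c1.image _ (h.inv_cont.mono (CD.trans h.sub_img))) z'
    ⟨_, c2, h.inv_map (Un.UH_sub hz')⟩ hM ?_ z ⟨_, c3, h.inv_map (Un.UH_sub hz)⟩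
  · rintro _ ⟨y, hy, rfl⟩
    exact h.phi.bij.mapsTo (CD hy)
  · rintro _ ⟨y, hy, rfl⟩
    obtain ⟨p, p1, p2⟩ := (c4 y hy).2
    rw [h.map_inv (h.sub_img (CD hy))]
    linarith [norm_sub_le_norm_sub_add_norm_sub y (pos (A.δ n) x) (A.Ψ n z'),
      tg_diam d0 p2 (ar_tg d0 (not_not.1 p1.right.2)), tg_diam d0 (ar_tg d0 a') t']

end Pool.Agent.Lib.MP_6359c9_pr.Xp
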