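import Pool.Agent.Lib.MP_6359c9_pr.SlMain
import Pool.Agent.Lib.MP_6359c9_pr.UnE
import Pool.Agent.Lib.MP_6359c9_pr.ExCv
import Pool.Agent.Lib.MP_6359c9_pr.SlSeq
import Pool.Agent.Lib.MP_6359c9_pr.ObC
import Pool.Agent.Lib.MP_6359c9_pr.ObGeo
import Pool.Agent.Lib.MP_6359c9_pr.ObFin
import Pool.Agent.Lib.MP_6359c9_pr.UsMain
import Pool.Agent.Lib.MP_6359c9_pr.UsD
import Pool.Agent.Lib.MP_6359c9_pr.UsO

/-! Convergence to SLE4 from the fjord estimate. -/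

namespace Pool.Agent.Lib.MP_6359c9_pr

theorem cvSt : CvSt := fun _ hd _ _ _ O g hg =>
  have h := O.mem hg
  ⟨h.K_pos, h.Gam_inj hd, O.mid_zero g, O.mid_K h, fun _ ht => O.Gam_in hd h ht, O.line_eq hd h⟩

theorem ofSt : OfSt := fun _ hd Q => Xp.exists_of hd Q

theorem sle_of_fj (h : FjUse) : SleSt :=
  have ho := Xp.oscSt (eqcSt_of Obs.mesoSt)
  sle_of unifSt ofSt (parSt ofSt cvSt) (timSt cvSt)
    (seqSt_of Obs.mesoSt (Og.obsSt Obs.obsSt Og.geoSt)) (Xp.modSt h ho Xp.modDet)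
    (Xp.traSt h ho Xp.traDet)

end Pool.Agent.Lib.MP_6359c9_pr
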