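import Pool.Agent.Lib.MP_6359c9_pr.SlSpec
import Pool.Agent.Lib.MP_6359c9_pr.Bm5

/-! The final assembly of the convergence to SLE4. -/

namespace Pool.Agent.Lib.MP_6359c9_pr

open Set Filter Topology Bornology MeasureTheory Xp
open scoped NNReal ENNReal

namespace Sle

/-- a curve that tends to infinity, in the Riemann sphere -/
lemma exists_crv {p : ℝ≥0 → ℂ} (hc : Continuous p) (hi : Tendsto p atTop (cobounded ℂ)) :
    ∃ β : Crv, β ∞ = OnePoint.infty ∧ ∀ t : ℝ≥0, β t = p t := by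
  classical
  let f : ℝ≥0∞ → OnePoint ℂ := fun t => if t = ∞ then OnePoint.infty else p t.toNNReal
  have f1 : ∀ t : ℝ≥0, f t = p t := fun t => by simp [f]
  have f2 : f ∞ = OnePoint.infty := by simp [f]
  refine ⟨⟨f, continuous_iff_continuousAt.2 fun t => ?_⟩, f2, f1⟩
  induction t with
  | coe t =>
    rw [ContinuousAt, ENNReal.tendsto_nhds_coe_iff, f1, show f ∘ (↑) = fun t : ℝ≥0 =>
      (p t : OnePoint ℂ) from funext f1]
    exact (OnePoint.continuous_coe.comp hc).tendsto t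
  | top =>
    have h : Tendsto (fun t => (p t : OnePoint ℂ)) atTop (𝓝 OnePoint.infty) := by
      refine OnePoint.tendsto_coe_infty.comp ?_
      rwa [Filter.coclosedCompact_eq_cocompact, ← Metric.cobounded_eq_cocompact]
    rw [ContinuousAt, f2]
    intro U hU
    obtain ⟨T, hT⟩ := eventually_atTop.1 (h hU)
    rw [mem_map, ENNReal.nhds_top']
    refine mem_iInf_of_mem T (mem_principal.2 fun t ht => ?_)
    induction t with
    | coe t => exact mem_preimage.2 (f1 t ▸ hT t (ENNReal.coe_lt_coe.1 ht).le)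
    | top => exact mem_preimage.2 (f2 ▸ mem_of_mem_nhds hU)

lemma crv_ext {β β' : Crv} (h : ∀ t : ℝ≥0, β t = β' t) (h' : β ∞ = β' ∞) : β = β' := by
  ext t
  induction t with
  | coe t => exact h t
  | top => exact h'

variable {ψ Ψ : ℂ → ℂ} {G : Set ℂ}

lemma param_iff (e : EqOn Ψ ψ UH) {β : Crv} : Param ψ G β ↔
    β ∞ = OnePoint.infty ∧ ∃ p, Trc Ψ G p ∧ ∀ t : ℝ≥0, β t = p t := by
  refine and_congr_right fun h0 => exists_congr fun p => ⟨fun ⟨h1, h2, h3, h4, h5, h6⟩ => ?_,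
    fun ⟨h, h1⟩ => ⟨h1, h.zero, h.smp.inj, h.smp.up, ?_, h.cap⟩⟩
  · have c : Continuous fun t : ℝ≥0 => (p t : OnePoint ℂ) := by
      rw [← funext h1]
      exact β.continuous.comp ENNReal.continuous_coe
    refine ⟨⟨⟨OnePoint.isOpenEmbedding_coe.isInducing.continuous_iff.2 c, h3, by simp [h2], h4⟩,
      h6, h2, ?_, ?_⟩, h1⟩
    · have k : Tendsto (fun t : ℝ≥0 => (p t : OnePoint ℂ)) atTop (𝓝 OnePoint.infty) := by
        rw [← funext h1, ← h0]
        exact (β.continuous.tendsto ∞).comp (ENNReal.tendsto_coe_nhds_top.2 tendsto_id)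
      rw [Metric.cobounded_eq_cocompact, ← Filter.coclosedCompact_eq_cocompact,
        ← OnePoint.comap_coe_nhds_infty]
      exact tendsto_comap_iff.2 k
    · rw [← h5]
      exact image_congr (by rintro _ ⟨t, ht, rfl⟩; exact e (h4 t ht))
  · rw [← h.img]
    exact image_congr (by rintro _ ⟨t, ht, rfl⟩; exact (e (h.smp.up t ht)).symm)

end Sle

open Sle

theorem sle_of (hU : UnifSt) (hO : OfSt) (hP : ParSt) (hT : TimSt) (hS : SeqSt) (hM : ModSt)
    (hR : TraSt) : SleSt := by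
  classical
  intro Ω ψ hb hd hj δ δ0 δ1 Q ψn hu hc
  choose Ψ hΨ eΨ using fun n => hU (δ n) (δ0 n) (Q n) (ψn n) (hu n)
  choose s X hX using fun n => hO (δ n) (δ0 n) (Q n)
  have hp : ∀ n g, ∃ p, g ∈ HD (Q n).R (Q n).xi → Trc (Ψ n) ((Q n).core g) p := fun n g => by
    by_cases h : g ∈ HD (Q n).R (Q n).xi
    · obtain ⟨p, hp, -⟩ := (hP _ (δ0 n) _ _ (hΨ n) g h).2
      exact ⟨p, fun _ => hp⟩
    · exact ⟨0, fun h' => absurd h' h⟩
  choose p hp using hp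
  choose t ht using fun n => hT _ (δ0 n) _ _ (hΨ n) _ _ (hX n) (p n) (hp n)
  let A : Sett := ⟨Ω, ψ, δ, Q, Ψ, s, X, p, t, hb, hd, hj, δ0, δ1, hΨ,
    hc.congr fun n => (eΨ n).symm, hX, hp, ht⟩
  have uq : ∀ n, ∀ g ∈ HD (Q n).R (Q n).xi, ∀ β, Param (ψn n) ((Q n).core g) β →
      β ∞ = OnePoint.infty ∧ ∀ u : ℝ≥0, β u = p n g u := fun n g hg β h => by
    obtain ⟨h0, q, h1, h2⟩ := (param_iff (eΨ n)).1 h
    rw [(hP _ (δ0 n) _ _ (hΨ n) g hg).2.unique (hp n g hg) h1]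
    exact ⟨h0, h2⟩
  have ex : ∀ n, ∀ h ∈ (Q n).H, (Q n).b ∈ (Q n).line h ∧
      ∃! β, Param (ψn n) ((Q n).line h \ {(Q n).a, (Q n).b}) β := fun n h hh => by
    obtain ⟨g, hg, rfl⟩ := ((Q n).bij_up (δ0 n)).surjOn hh
    obtain ⟨β, b0, b1⟩ := exists_crv (hp n g hg).smp.cont (hp n g hg).inf
    refine ⟨(hP _ (δ0 n) _ _ (hΨ n) g hg).1, β, (param_iff (eΨ n)).2 ⟨b0, _, hp n g hg, b1⟩,
      fun β' h' => ?_⟩
    obtain ⟨c0, c1⟩ := uq n g hg β' h'
    exact crv_ext (fun u => (c1 u).trans (b1 u).symm) (c0.trans b0.symm)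
  have main : ∀ β : ℕ → (V → ℤ) → Crv,
      (∀ n, ∀ h ∈ (Q n).H, Param (ψn n) ((Q n).line h \ {(Q n).a, (Q n).b}) (β n h)) →
      ∃ μ, IsSLE4 μ ∧ ∀ F : BoundedContinuousFunction Crv ℝ,
        Tendsto (fun n => mean (Q n).H fun h => F (β n h)) atTop (𝓝 (∫ γ, F γ ∂μ)) := by
    intro β hβ
    have sq := hS A
    let Wp : ∀ n, (V → ℤ) → Bm.Pth := fun n g =>
      if h : g ∈ A.S n then ⟨drv (p n g), (hp n g h).smp.cont_drv⟩ else 0
    have eW : ∀ n, ∀ g ∈ A.S n, ⇑(Wp n g) = drv (p n g) := fun n g h => by simp [Wp, h]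
    obtain ⟨-, ν, hν, hl⟩ := Bm.drive (V := Wp) sq (.of_forall fun n g h u => by
      rw [eW n g h]; simp [Sett.W, Ge.rl, A])
    have k := fun n g (hg : g ∈ A.S n) =>
      uq n g hg _ (hβ n _ (((Q n).bij_up (δ0 n)).mapsTo hg))
    obtain ⟨μ, -, h1, h2⟩ := Ge.sle_end (γ := fun n g => β n ((Q n).up g)) (b := p) (W := Wp)
      sq.1 (fun n g hg => (k n g hg).2) (fun n g hg => (k n g hg).1)
      (fun n g hg => by
        rw [eW n g hg]
        exact (hp n g hg).smp.gen (hp n g hg).cap (k n g hg).2)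
      (hM A sq) (hR A sq) hν ((Bm.tendsto_plaw sq.1 Wp).1 hl)
    refine ⟨μ, h1, fun F => (h2 F).congr fun n => ?_⟩
    exact ex_bij ((Q n).bij_up (δ0 n)) fun h => F (β n h)
  refine ⟨ex, ?_, fun μ hμ β hβ => ?_⟩
  · have : ∀ n h, ∃ β, h ∈ (Q n).H →
        Param (ψn n) ((Q n).line h \ {(Q n).a, (Q n).b}) β := fun n h => by
      by_cases hh : h ∈ (Q n).H
      · obtain ⟨β, hβ, -⟩ := (ex n h hh).2
        exact ⟨β, fun _ => hβ⟩
      · exact ⟨.const _ OnePoint.infty, fun h' => absurd h' hh⟩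
    choose β hβ using this
    obtain ⟨μ, h1, -⟩ := main β hβ
    exact ⟨μ, h1, fun μ' h' => Ge.sle_unique h' h1⟩
  · obtain ⟨μ', h1, h2⟩ := main β hβ
    rwa [Ge.sle_unique hμ h1]

end Pool.Agent.Lib.MP_6359c9_pr
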