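import Pool.Agent.Lib.MP_6359c9_pr.SlSpec
import Pool.Agent.Lib.MP_6359c9_pr.ExSub

/-! The steps of the exploration are small in capacity and in the driving function. -/

namespace Pool.Agent.Lib.MP_6359c9_pr

open Set Filter Topology Bornology Metric Xp
open scoped NNReal

namespace Mic

lemma pos_adj {d : ℝ} (hd : 0 < d) {u v : V} (h : Adj u v) (w : V) :
    ‖pos d (u + w) - pos d (v + w)‖ ≤ d := by
  refine abs_le_of_sq_le_sq' ?_ hd.le |>.2
  rw [pos_sub_sq hd, cx_pos' hd, cy_pos' hd]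
  refine mul_le_of_le_one_right (by positivity) ?_
  simp only [Prod.fst_add, Prod.snd_add]
  push_cast
  rcases h with h | h | h | h | h | h <;> rw [h.1, h.2] <;> push_cast <;> linarith

lemma adj_stp (g : V → ℤ) {e : V × V} (h : Adj e.1 e.2) : Adj (stp g e).1 (stp g e).2 := by
  unfold stp
  split_ifs
  exacts [h.thd.2.symm, h.thd.1]

lemma mid_stp {d : ℝ} (hd : 0 < d) (g : V → ℤ) {e : V × V} (h : Adj e.1 e.2) :
    ‖mid d e - mid d (stp g e)‖ ≤ d / 2 := by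
  unfold stp
  split_ifs
  · exact pos_adj (half_pos hd) h.thd.1 e.2
  · simpa only [mid, add_comm e.1] using pos_adj (half_pos hd) h.thd.2 e.1

variable {s : ℤ} (X : St s) (g : V → ℤ)

lemma e_succ (k : ℕ) : X.e g (k + 1) = stp g (X.e g k) := Function.iterate_succ_apply' _ _ _

lemma adj_e (k : ℕ) : Adj (X.e g k).1 (X.e g k).2 := by
  induction k with
  | zero => exact X.adj_zero
  | succ k ih => rw [e_succ]; exact adj_stp g ih

lemma seg_le {d : ℝ} (hd : 0 < d) (k : ℕ) {x y : ℂ}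
    (hx : x ∈ segment ℝ (mid d (X.e g k)) (mid d (X.e g (k + 1))))
    (hy : y ∈ segment ℝ (mid d (X.e g k)) (mid d (X.e g (k + 1)))) : ‖x - y‖ ≤ d := by
  have h1 := mem_closedBall.1 (segment_subset_closedBall_left _ _ hx)
  have h2 := mem_closedBall.1 (segment_subset_closedBall_left _ _ hy)
  have h3 := mid_stp hd g (adj_e X g k)
  rw [← e_succ, ← dist_eq_norm] at h3
  rw [← dist_eq_norm]
  linarith [dist_triangle_right x y (mid d (X.e g k))]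

/-- a piece of a curve with a small image is small -/
lemma piece {b : ℝ≥0 → ℂ} (h : Smp b) {Ψ : ℂ → ℂ} {M ε η : ℝ}
    (H : ∀ C ⊆ UH, IsPreconnected C → ∀ u ∈ C, ‖u‖ ≤ M + 1 → (∀ v ∈ C, ‖Ψ v - Ψ u‖ ≤ η) →
      ∀ v ∈ C, ‖v - u‖ ≤ ε) {s t : ℝ≥0} (hM : ‖b s‖ ≤ M)
    (hη : ∀ u ∈ Ioc s t, ∀ v ∈ Ioc s t, ‖Ψ (b u) - Ψ (b v)‖ ≤ η) {u : ℝ≥0} (hu : u ∈ Ioc s t) :
    ‖b u - b s‖ ≤ ε := by
  have c : Tendsto b (𝓝[>] s) (𝓝 (b s)) := h.cont.continuousAt.mono_left nhdsWithin_le_nhds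
  refine le_of_tendsto (c.const_sub (b u)).norm ?_
  filter_upwards [Ioc_mem_nhdsGT (hu.1.trans_le hu.2),
    c.norm.eventually (gt_mem_nhds (show ‖b s‖ < M + 1 by linarith))] with v hv h1
  refine H (b '' Ioc s t) ?_ (isPreconnected_Ioc.image b h.cont.continuousOn) _ ⟨v, hv, rfl⟩ h1.le
    ?_ _ ⟨u, hu, rfl⟩
  · rintro _ ⟨w, hw, rfl⟩
    exact h.up w (zero_le.trans_lt hw.1)
  · rintro _ ⟨w, hw, rfl⟩
    exact hη w hw v hv

end Mic

open Mic

lemma Sett.Good.rad {A : Sett} {L T : ℝ} {n k : ℕ} {g : V → ℤ} (h : A.Good L T n g k) {u : ℝ≥0}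
    (hu : u ≤ A.t n g k) : ‖A.p n g u‖ ≤ L + 3 * √T := by
  have := (A.trc n g h.mem).smp.rad (A.trc n g h.mem).cap h.bd hu
  linarith [Real.sqrt_le_sqrt h.le]

theorem micSt (hE : EqcSt) : MicSt := by
  intro A L T e he
  obtain ⟨ε, ε0, ε1, ε2⟩ : ∃ ε > (0 : ℝ), 9 * (16 * ε) ≤ e ∧ (16 * ε) ^ 2 ≤ e := by
    refine ⟨min e 1 / 144, by positivity, by linarith [min_le_left e 1], ?_⟩
    have h0 : 0 < min e 1 := by positivity
    nlinarith [min_le_left e 1, min_le_right e 1]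
  obtain ⟨δ, d0, d1, d2⟩ := Lw.exists_delta (M := 4 * (1 + 8 * (L + 3 * √T)) ^ 2) ε0
  obtain ⟨η, η0, H⟩ := hE A.Ψ A.ψ (fun n => ⟨(A.chart n).hol, (A.chart n).inj.mono
    fun z hz => le_of_lt (Lw.mem_UH.1 hz)⟩) A.bij.injOn A.conv (L + 3 * √T + 1) δ d0
  filter_upwards [H, A.dlim.eventually (gt_mem_nhds η0)] with n H hd g k G
  have tr := A.trc n g G.mem
  have tm := A.tim n
  have key : ∀ t, (∀ u ∈ Ioc (A.t n g k) t, A.Ψ n (A.p n g u) ∈ segment ℝ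
      (mid (A.δ n) ((A.X n).e g k)) (mid (A.δ n) ((A.X n).e g (k + 1)))) →
      ∀ u ∈ Ioc (A.t n g k) t, ‖A.p n g u - A.p n g (A.t n g k)‖ ≤ δ := fun t ht u hu =>
    piece tr.smp H (G.rad le_rfl)
      (fun u hu v hv => (seg_le _ g (A.dpos n) k (ht u hu) (ht v hv)).trans hd.le) hu
  have hk : k + 1 < (A.X n).K g := by
    refine (Nat.succ_le_of_lt G.lt).lt_of_ne fun c => ?_
    obtain ⟨u, h1, h2⟩ := ((eventually_gt_atTop (A.t n g k)).and
      ((tendsto_norm_atTop_iff_cobounded.2 tr.inf).eventually_gt_atTop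
        (‖A.p n g (A.t n g k)‖ + δ))).exists
    have h3 := key u (fun v hv => ((tm.last g G.mem k c).subset ⟨v, hv.1.le, rfl⟩).1) u ⟨h1, le_rfl⟩
    have h4 := norm_sub_norm_le (A.p n g u) (A.p n g (A.t n g k))
    linarith
  have k1 := key _ fun v hv => (tm.arc g G.mem k hk).subset ⟨v, ⟨hv.1.le, hv.2⟩, rfl⟩
  have k2 : ∀ u ∈ Ioc (A.t n g k) (A.t n g (k + 1)),
      ‖gm (A.p n g) (A.t n g k) (A.p n g u) - drv (A.p n g) (A.t n g k)‖ ≤ 16 * ε := fun u hu =>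
    tr.smp.near_of (fun u hu v hv => tr.smp.grow_of (fun u hu => G.rad hu) d0 d1 ε0 d2 k1 hu hv) hu
  refine ⟨hk, ?_, fun u hu => ?_⟩
  · have := tr.smp.step_cap (tm.mono g G.mem k hk).le (by positivity) k2
    rw [tr.smp.cap_iff.1 tr.cap, tr.smp.cap_iff.1 tr.cap] at this
    linarith
  · exact (tr.smp.step_drv hu.1 (by positivity) fun v hv => k2 v ⟨hv.1, hv.2.trans hu.2⟩).trans ε1

end Pool.Agent.Lib.MP_6359c9_pr
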