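import Mathlib

/-! Uniform averages over finite sets: conditioning, fibres, bijections, products,
Holley and FKG inequalities for projections to a distributive lattice. -/

namespace Pool.Agent.Lib.MP_6359c9_pr

open Set

variable {Ω Ω' : Type}

/-- the average of `f` over the finite set `M` -/
noncomputable def Ex (M : Set Ω) (f : Ω → ℝ) : ℝ := (∑ᶠ x ∈ M, f x) / M.ncard

/-- the proportion of `M` that lies in `A` -/
noncomputable def Pr (M A : Set Ω) : ℝ := (M ∩ A).ncard / M.ncard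

/-- finite and nonempty -/
def Ok (M : Set Ω) : Prop := M.Finite ∧ M.Nonempty

lemma Ok.pos {M : Set Ω} (h : Ok M) : (0 : ℝ) < M.ncard := by
  exact_mod_cast (Set.ncard_pos h.1).2 h.2

lemma Ok.inter {M : Set Ω} (h : M.Finite) {A : Set Ω} {x : Ω} (hx : x ∈ M) (hA : x ∈ A) :
    Ok (M ∩ A) := ⟨h.inter_of_left _, x, hx, hA⟩

lemma ex_eq {M : Set Ω} (h : M.Finite) (f : Ω → ℝ) :
    Ex M f = (∑ x ∈ h.toFinset, f x) / M.ncard := by
  rw [Ex, finsum_mem_eq_finite_toFinset_sum _ h]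

lemma ex_inf {M : Set Ω} (h : ¬M.Finite) (f : Ω → ℝ) : Ex M f = 0 := by
  rw [Ex, Set.Infinite.ncard h]; simp

lemma ex_empty (f : Ω → ℝ) : Ex (∅ : Set Ω) f = 0 := by simp [Ex]

lemma ex_nok {M : Set Ω} (h : ¬Ok M) (f : Ω → ℝ) : Ex M f = 0 := by
  by_cases h1 : M.Finite
  · have : M = ∅ := by
      by_contra h2
      exact h ⟨h1, Set.nonempty_iff_ne_empty.2 h2⟩
    rw [this, ex_empty]
  · exact ex_inf h1 f

lemma ex_mono {M : Set Ω} {f g : Ω → ℝ} (h : ∀ x ∈ M, f x ≤ g x) : Ex M f ≤ Ex M g := by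
  by_cases h1 : M.Finite
  · rw [ex_eq h1, ex_eq h1]
    exact div_le_div_of_nonneg_right (Finset.sum_le_sum fun x hx => h x (by simpa using hx))
      (Nat.cast_nonneg _)
  · rw [ex_inf h1, ex_inf h1]

lemma ex_congr {M : Set Ω} {f g : Ω → ℝ} (h : ∀ x ∈ M, f x = g x) : Ex M f = Ex M g :=
  le_antisymm (ex_mono fun x hx => (h x hx).le) (ex_mono fun x hx => (h x hx).ge)

lemma ex_const {M : Set Ω} (h : Ok M) (c : ℝ) : Ex M (fun _ => c) = c := by
  rw [ex_eq h.1, Finset.sum_const, ← Set.ncard_eq_toFinset_card M h.1, nsmul_eq_mul]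
  have := h.pos
  field_simp

lemma ex_zero (M : Set Ω) : Ex M (fun _ => 0) = 0 := by simp [Ex]

lemma ex_nonneg {M : Set Ω} {f : Ω → ℝ} (h : ∀ x ∈ M, 0 ≤ f x) : 0 ≤ Ex M f :=
  (ex_zero M).symm.le.trans (ex_mono h)

lemma ex_le {M : Set Ω} (hM : Ok M) {f : Ω → ℝ} {c : ℝ} (h : ∀ x ∈ M, f x ≤ c) : Ex M f ≤ c :=
  (ex_mono h).trans (ex_const hM c).le

lemma le_ex {M : Set Ω} (hM : Ok M) {f : Ω → ℝ} {c : ℝ} (h : ∀ x ∈ M, c ≤ f x) : c ≤ Ex M f :=
  (ex_const hM c).ge.trans (ex_mono h)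

lemma ex_add (M : Set Ω) (f g : Ω → ℝ) : Ex M (fun x => f x + g x) = Ex M f + Ex M g := by
  by_cases h1 : M.Finite
  · simp only [ex_eq h1, Finset.sum_add_distrib, add_div]
  · simp only [ex_inf h1, add_zero]

lemma ex_mul (M : Set Ω) (c : ℝ) (f : Ω → ℝ) : Ex M (fun x => c * f x) = c * Ex M f := by
  by_cases h1 : M.Finite
  · simp only [ex_eq h1, ← Finset.mul_sum, mul_div_assoc]
  · simp only [ex_inf h1, mul_zero]

lemma ex_mul' (M : Set Ω) (c : ℝ) (f : Ω → ℝ) : Ex M (fun x => f x * c) = Ex M f * c := by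
  simp only [mul_comm _ c, ex_mul]

lemma ex_neg (M : Set Ω) (f : Ω → ℝ) : Ex M (fun x => -f x) = -Ex M f := by
  simpa using ex_mul M (-1) f

lemma ex_sub (M : Set Ω) (f g : Ω → ℝ) : Ex M (fun x => f x - g x) = Ex M f - Ex M g := by
  simp only [sub_eq_add_neg, ex_add, ex_neg]

lemma ex_sum (M : Set Ω) {ι : Type} (s : Finset ι) (f : ι → Ω → ℝ) :
    Ex M (fun x => ∑ i ∈ s, f i x) = ∑ i ∈ s, Ex M (f i) := by
  classical
  induction s using Finset.induction_on with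
  | empty => simp [ex_zero]
  | insert i s hi ih => simp only [Finset.sum_insert hi, ex_add, ih]

lemma abs_ex_le (M : Set Ω) (f : Ω → ℝ) : |Ex M f| ≤ Ex M fun x => |f x| := by
  rw [abs_le]
  refine ⟨?_, ex_mono fun x _ => le_abs_self _⟩
  rw [← ex_neg]
  exact ex_mono fun x _ => neg_abs_le _

/-- Cauchy-Schwarz -/
lemma ex_mul_sq_le (M : Set Ω) (f g : Ω → ℝ) :
    Ex M (fun x => f x * g x) ^ 2 ≤ Ex M (fun x => f x ^ 2) * Ex M fun x => g x ^ 2 := by
  by_cases h1 : M.Finite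
  · simp only [ex_eq h1]
    rw [div_pow, div_mul_div_comm, ← sq]
    exact div_le_div_of_nonneg_right (Finset.sum_mul_sq_le_sq_mul_sq _ _ _) (by positivity)
  · simp [ex_inf h1]

lemma pr_eq (M A : Set Ω) : Pr M A = Ex M (A.indicator 1) := by
  classical
  by_cases h1 : M.Finite
  · rw [ex_eq h1, Pr]
    congr 1
    simp only [Set.indicator_apply, Pi.one_apply, Finset.sum_boole]
    rw [Set.ncard_eq_toFinset_card _ (h1.inter_of_left A)]
    congr 2
    ext x; simp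
  · rw [ex_inf h1, Pr, Set.Infinite.ncard h1]; simp

lemma pr_nonneg (M A : Set Ω) : 0 ≤ Pr M A := by unfold Pr; positivity

lemma pr_mono {M A B : Set Ω} (h : ∀ x ∈ M, x ∈ A → x ∈ B) : Pr M A ≤ Pr M B := by
  rw [pr_eq, pr_eq]
  refine ex_mono fun x hx => ?_
  by_cases hA : x ∈ A
  · simp [hA, h x hx hA]
  · rw [Set.indicator_of_notMem hA]; exact Set.indicator_nonneg (fun _ _ => zero_le_one) _

lemma pr_congr {M A B : Set Ω} (h : ∀ x ∈ M, x ∈ A ↔ x ∈ B) : Pr M A = Pr M B :=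
  le_antisymm (pr_mono fun x hx => (h x hx).1) (pr_mono fun x hx => (h x hx).2)

lemma pr_all {M A : Set Ω} (hM : Ok M) (h : ∀ x ∈ M, x ∈ A) : Pr M A = 1 := by
  rw [Pr, Set.inter_eq_left.2 h, div_self hM.pos.ne']

lemma pr_none {M A : Set Ω} (h : ∀ x ∈ M, x ∉ A) : Pr M A = 0 := by
  rw [Pr, show M ∩ A = ∅ from Set.eq_empty_of_forall_notMem fun x hx => h x hx.1 hx.2]; simp

lemma pr_le_one (M A : Set Ω) : Pr M A ≤ 1 := by
  by_cases h : Ok M
  · exact (pr_mono fun x _ _ => Set.mem_univ x).trans (pr_all h fun _ _ => trivial).le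
  · rw [pr_eq, ex_nok h]; exact zero_le_one

lemma pr_split (M A B : Set Ω) : Pr M A = Pr M (A ∩ B) + Pr M (A ∩ Bᶜ) := by
  simp only [pr_eq]
  rw [← ex_add]
  refine ex_congr fun x _ => ?_
  by_cases hA : x ∈ A <;> by_cases hB : x ∈ B <;> simp [hA, hB]

lemma pr_compl {M : Set Ω} (h : Ok M) (A : Set Ω) : Pr M Aᶜ = 1 - Pr M A := by
  have := pr_split M univ A
  rw [pr_all h fun x _ => mem_univ x, univ_inter, univ_inter] at this
  linarith

lemma pr_union_le (M A B : Set Ω) : Pr M (A ∪ B) ≤ Pr M A + Pr M B := by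
  rw [pr_split M (A ∪ B) A]
  exact add_le_add (pr_mono fun x _ h => h.2) (pr_mono fun x _ h => h.1.resolve_left h.2)

lemma pr_le_add {M A B C : Set Ω} (h : ∀ x ∈ M, x ∈ A → x ∈ B ∨ x ∈ C) :
    Pr M A ≤ Pr M B + Pr M C := (pr_mono h).trans (pr_union_le M B C)

lemma pr_biUnion_le (M : Set Ω) {ι : Type} (s : Finset ι) (A : ι → Set Ω) :
    Pr M (⋃ i ∈ s, A i) ≤ ∑ i ∈ s, Pr M (A i) := by
  classical
  induction s using Finset.induction_on with
  | empty => simp [pr_none]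
  | insert i s hi ih =>
    rw [Finset.sum_insert hi, Finset.set_biUnion_insert]
    exact (pr_union_le _ _ _).trans (add_le_add le_rfl ih)

lemma pr_pos {M A : Set Ω} (h : M.Finite) {x : Ω} (hx : x ∈ M) (hA : x ∈ A) : 0 < Pr M A :=
  div_pos (Ok.inter h hx hA).pos (Ok.pos ⟨h, x, hx⟩)

lemma ok_of_pr_pos {M A : Set Ω} (h : 0 < Pr M A) : Ok M ∧ Ok (M ∩ A) := by
  have h1 : Ok M := by
    by_contra h1
    rw [pr_eq, ex_nok h1] at h
    exact lt_irrefl _ h
  refine ⟨h1, h1.1.inter_of_left _, ?_⟩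
  by_contra h2
  rw [Pr, Set.not_nonempty_iff_eq_empty.1 h2] at h
  simp at h

/-- conditioning -/
lemma ex_cond (M A : Set Ω) (f : Ω → ℝ) : Ex M (A.indicator f) = Pr M A * Ex (M ∩ A) f := by
  classical
  by_cases h1 : M.Finite
  · have h2 := h1.inter_of_left A
    have e : ∑ x ∈ h1.toFinset, A.indicator f x = ∑ x ∈ h2.toFinset, f x := by
      simp only [Set.indicator_apply]
      rw [← Finset.sum_filter]
      congr 1
      ext x; simp
    rw [ex_eq h1, ex_eq h2, Pr, e]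
    by_cases h3 : (M ∩ A).Nonempty
    · have := Ok.pos ⟨h2, h3⟩
      field_simp
    · have h4 : h2.toFinset = ∅ := by simpa using Set.not_nonempty_iff_eq_empty.1 h3
      simp [h4]
  · rw [ex_inf h1, Pr, Set.Infinite.ncard h1]; simp

lemma pr_cond (M A B : Set Ω) : Pr M (A ∩ B) = Pr M A * Pr (M ∩ A) B := by
  rw [pr_eq, pr_eq (M ∩ A), ← ex_cond, Set.indicator_indicator]

/-- Markov inequality -/
lemma pr_mul_le {M A : Set Ω} {f : Ω → ℝ} {c : ℝ} (h0 : ∀ x ∈ M, 0 ≤ f x)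
    (h : ∀ x ∈ M, x ∈ A → c ≤ f x) : c * Pr M A ≤ Ex M f := by
  rw [pr_eq, ← ex_mul]
  refine ex_mono fun x hx => ?_
  by_cases hA : x ∈ A
  · simpa [hA] using h x hx hA
  · simpa [hA] using h0 x hx

/-- total expectation over the fibres of `K` -/
lemma ex_fib {ι : Type} (M : Set Ω) (K : Ω → ι) (f : Ω → ℝ) :
    Ex M f = Ex M fun x => Ex (M ∩ {y | K y = K x}) f := by
  classical
  by_cases h1 : M.Finite
  · have key : ∀ g : Ω → ℝ, Ex M g =
        ∑ k ∈ h1.toFinset.image K, Pr M {y | K y = k} * Ex (M ∩ {y | K y = k}) g := by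
      intro g
      simp only [← ex_cond]
      rw [← ex_sum]
      refine ex_congr fun x hx => ?_
      rw [Finset.sum_eq_single (K x)]
      · simp
      · intro k _ hk
        exact Set.indicator_of_notMem (s := {y | K y = k}) (fun h => hk (Eq.symm h)) g
      · intro h
        exact absurd (Finset.mem_image_of_mem K (by simpa using hx)) h
    rw [key f, key]
    refine Finset.sum_congr rfl fun k hk => ?_
    obtain ⟨x, hx, rfl⟩ := Finset.mem_image.1 hk
    congr 1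
    rw [← ex_const (Ok.inter (A := {y | K y = K x}) h1 (by simpa using hx) rfl)
      (Ex (M ∩ {y | K y = K x}) f)]
    exact ex_congr fun y hy => by rw [show K y = K x from hy.2]
  · rw [ex_inf h1, ex_inf h1]

lemma ex_fib_le {ι : Type} {M : Set Ω} (K : Ω → ι) {f g : Ω → ℝ}
    (h : ∀ x ∈ M, Ex (M ∩ {y | K y = K x}) f ≤ Ex (M ∩ {y | K y = K x}) g) : Ex M f ≤ Ex M g := by
  rw [ex_fib M K f, ex_fib M K g]
  exact ex_mono h

lemma pr_fib_le {ι : Type} {M A : Set Ω} (K : Ω → ι) {c : ℝ} (hc : 0 ≤ c)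
    (h : ∀ x ∈ M, Pr (M ∩ {y | K y = K x}) A ≤ c) : Pr M A ≤ c := by
  by_cases hM : Ok M
  · rw [pr_eq, ex_fib M K]
    exact ex_le hM fun x hx => by rw [← pr_eq]; exact h x hx
  · rw [pr_eq, ex_nok hM]; exact hc

lemma le_pr_fib {ι : Type} {M A : Set Ω} (hM : Ok M) (K : Ω → ι) {c : ℝ}
    (h : ∀ x ∈ M, c ≤ Pr (M ∩ {y | K y = K x}) A) : c ≤ Pr M A := by
  rw [pr_eq, ex_fib M K]
  exact le_ex hM fun x hx => by rw [← pr_eq]; exact h x hx

/-- bijections preserve averages -/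
lemma ex_bij {M : Set Ω} {M' : Set Ω'} {φ : Ω → Ω'} (h : Set.BijOn φ M M') (f : Ω' → ℝ) :
    Ex M (fun x => f (φ x)) = Ex M' f := by
  rw [Ex, Ex, finsum_mem_eq_of_bijOn φ h fun _ _ => rfl, ← h.image_eq,
    Set.InjOn.ncard_image h.injOn]

lemma pr_bij {M : Set Ω} {M' : Set Ω'} {φ : Ω → Ω'} (h : Set.BijOn φ M M') (A : Set Ω') :
    Pr M (φ ⁻¹' A) = Pr M' A := by
  rw [pr_eq, pr_eq, ← ex_bij h]
  rfl

lemma ok_bij {M : Set Ω} {M' : Set Ω'} {φ : Ω → Ω'} (h : Set.BijOn φ M M') : Ok M ↔ Ok M' := by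
  refine and_congr ⟨fun h1 => h.image_eq ▸ h1.image φ,
    fun h1 => Set.Finite.of_finite_image (h.image_eq.symm ▸ h1) h.injOn⟩ ?_
  rw [← h.image_eq, Set.image_nonempty]

lemma bij_of_inv {M : Set Ω} {M' : Set Ω'} {φ : Ω → Ω'} {ψ : Ω' → Ω} (h1 : ∀ x ∈ M, φ x ∈ M')
    (h2 : ∀ y ∈ M', ψ y ∈ M) (h3 : ∀ x ∈ M, ψ (φ x) = x) (h4 : ∀ y ∈ M', φ (ψ y) = y) :
    Set.BijOn φ M M' := Set.InvOn.bijOn ⟨h3, h4⟩ h1 h2

/-- an involution of `M` that maps `A` into `B` -/
lemma pr_le_invol {M A B : Set Ω} {φ : Ω → Ω} (h1 : ∀ x ∈ M, φ x ∈ M) (h2 : ∀ x ∈ M, φ (φ x) = x)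
    (h : ∀ x ∈ M, x ∈ A → φ x ∈ B) : Pr M A ≤ Pr M B := by
  rw [← pr_bij (bij_of_inv h1 h1 h2 h2) B]
  exact pr_mono h

/-! ### products -/

section Prod

variable {ι S : Type}

/-- the set `A` of configurations depends only on the values in `k` -/
def Dep (k : Set ι) (A : Set (ι → S)) : Prop := ∀ x y, (∀ v ∈ k, x v = y v) → x ∈ A → y ∈ A

lemma Dep.mono {k k' : Set ι} {A : Set (ι → S)} (h : Dep k A) (hk : k ⊆ k') : Dep k' A :=
  fun x y e => h x y fun v hv => e v (hk hv)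

lemma Dep.iff {k : Set ι} {A : Set (ι → S)} (h : Dep k A) {x y : ι → S}
    (e : ∀ v ∈ k, x v = y v) : x ∈ A ↔ y ∈ A :=
  ⟨h x y e, h y x fun v hv => (e v hv).symm⟩

lemma Dep.inter {k : Set ι} {A B : Set (ι → S)} (h : Dep k A) (h' : Dep k B) : Dep k (A ∩ B) :=
  fun x y e hx => ⟨h x y e hx.1, h' x y e hx.2⟩

lemma Dep.union {k : Set ι} {A B : Set (ι → S)} (h : Dep k A) (h' : Dep k B) : Dep k (A ∪ B) :=
  fun x y e hx => hx.imp (h x y e) (h' x y e)

lemma Dep.compl {k : Set ι} {A : Set (ι → S)} (h : Dep k A) : Dep k Aᶜ :=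
  fun _ _ e hx hy => hx ((h.iff e).2 hy)

lemma Dep.univ (k : Set ι) : Dep k (univ : Set (ι → S)) := fun _ _ _ _ => trivial

lemma Dep.ind {k : Set ι} {A : Set (ι → S)} (h : Dep k A) :
    DependsOn (A.indicator (1 : (ι → S) → ℝ)) k := by
  intro x y e
  by_cases hx : x ∈ A
  · simp [hx, h x y e hx]
  · simp [hx, mt (h.iff e).2 hx]

/-- exchange of the coordinates in `k` between two configurations -/
lemma sum_swap {k : Set ι} {A A' B B' : Set (ι → S)} (hA : Dep k A) (hA' : Dep k A')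
    (hB : Dep kᶜ B) (hB' : Dep kᶜ B') (h1 : (A ∩ B).Finite) (h2 : (A' ∩ B').Finite)
    (h3 : (A' ∩ B).Finite) (h4 : (A ∩ B').Finite) {f g : (ι → S) → ℝ} (hf : DependsOn f kᶜ)
    (hg : DependsOn g k) :
    (∑ x ∈ h1.toFinset, f x * g x) * (A' ∩ B').ncard =
      (∑ x ∈ h3.toFinset, f x) * ∑ x ∈ h4.toFinset, g x := by
  classical
  have i1 : ∀ x y : ι → S, ∀ v ∈ k, x v = k.piecewise x y v := fun x y v hv => by simp [hv]
  have i2 : ∀ x y : ι → S, ∀ v ∈ kᶜ, y v = k.piecewise x y v := fun x y v hv => by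
    simp [show v ∉ k from hv]
  have inv : ∀ x y : ι → S, k.piecewise (k.piecewise x y) (k.piecewise y x) = x := fun x y => by
    ext v; by_cases hv : v ∈ k <;> simp [hv]
  rw [Set.ncard_eq_toFinset_card _ h2, Finset.card_eq_sum_ones, Nat.cast_sum,
    Finset.sum_mul_sum, Finset.sum_mul_sum, ← Finset.sum_product', ← Finset.sum_product']
  refine Finset.sum_nbij' (fun p => (k.piecewise p.2 p.1, k.piecewise p.1 p.2))
    (fun p => (k.piecewise p.2 p.1, k.piecewise p.1 p.2)) ?_ ?_ ?_ ?_ ?_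
  · rintro ⟨x, y⟩ h
    simp only [Finset.mem_product, Set.Finite.mem_toFinset] at h ⊢
    exact ⟨⟨hA' _ _ (i1 _ _) h.2.1, hB _ _ (i2 _ _) h.1.2⟩,
      hA _ _ (i1 _ _) h.1.1, hB' _ _ (i2 _ _) h.2.2⟩
  · rintro ⟨x, y⟩ h
    simp only [Finset.mem_product, Set.Finite.mem_toFinset] at h ⊢
    exact ⟨⟨hA _ _ (i1 _ _) h.2.1, hB _ _ (i2 _ _) h.1.2⟩,
      hA' _ _ (i1 _ _) h.1.1, hB' _ _ (i2 _ _) h.2.2⟩
  · rintro ⟨x, y⟩ _
    simp only [inv]
  · rintro ⟨x, y⟩ _
    simp only [inv]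
  · rintro ⟨x, y⟩ _
    simp only [Nat.cast_one, mul_one]
    rw [← hf (i2 y x), ← hg (i1 x y)]

/-- the law off `k` does not depend on the condition imposed on `k` -/
theorem ex_prod {k : Set ι} {A A' B : Set (ι → S)} (hA : Dep k A) (hA' : Dep k A')
    (hB : Dep kᶜ B) (h1 : Ok (A ∩ B)) (h2 : Ok (A' ∩ B)) {f : (ι → S) → ℝ}
    (hf : DependsOn f kᶜ) : Ex (A ∩ B) f = Ex (A' ∩ B) f := by
  have := sum_swap hA hA' hB hB h1.1 h2.1 h2.1 h1.1 hf (g := fun _ => 1) fun _ _ _ => rfl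
  simp only [mul_one, Finset.sum_const, nsmul_eq_mul] at this
  rw [ex_eq h1.1, ex_eq h2.1, div_eq_div_iff h1.pos.ne' h2.pos.ne', this,
    Set.ncard_eq_toFinset_card _ h1.1]

/-- independence of the two sides -/
theorem ex_indep {k : Set ι} {A B : Set (ι → S)} (hA : Dep k A) (hB : Dep kᶜ B)
    {f g : (ι → S) → ℝ} (hf : DependsOn f kᶜ) (hg : DependsOn g k) :
    Ex (A ∩ B) (fun x => f x * g x) = Ex (A ∩ B) f * Ex (A ∩ B) g := by
  by_cases h1 : Ok (A ∩ B)
  · have := sum_swap hA hA hB hB h1.1 h1.1 h1.1 h1.1 hf hg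
    have h0 := h1.pos
    rw [ex_eq h1.1, ex_eq h1.1, ex_eq h1.1, div_mul_div_comm, ← this]
    field_simp
  · simp [ex_nok h1]

end Prod

/-! ### Holley and FKG -/

section Hol

variable {Λ : Type} [DistribLattice Λ]

/-- number of points of `M` above `a` -/
noncomputable def wt {Λ : Type} (M : Set Ω) (p : Ω → Λ) (a : Λ) : ℕ := (M ∩ {x | p x = a}).ncard

/-- the Holley condition for the projections of the uniform measures on `M` and `M'` -/
def Hol (M : Set Ω) (p : Ω → Λ) (M' : Set Ω') (p' : Ω' → Λ) : Prop :=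
  ∀ a b, wt M p a * wt M' p' b ≤ wt M p (a ⊓ b) * wt M' p' (a ⊔ b)

lemma sum_wt {Λ : Type} {M : Set Ω} (h : M.Finite) (p : Ω → Λ) (f : Λ → ℝ) (s : Finset Λ)
    (hs : ∀ x ∈ M, p x ∈ s) : ∑ x ∈ h.toFinset, f (p x) = ∑ a ∈ s, wt M p a * f a := by
  classical
  rw [← Finset.sum_fiberwise_of_maps_to (t := s) (g := p) (fun x hx => hs x (by simpa using hx))]
  refine Finset.sum_congr rfl fun a _ => ?_
  rw [Finset.sum_congr rfl (g := fun _ => f a) fun x hx => by rw [(Finset.mem_filter.1 hx).2],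
    Finset.sum_const, nsmul_eq_mul, wt, Set.ncard_eq_toFinset_card _ (h.inter_of_left _)]
  congr 3
  ext x; simp

lemma sum_wt_le {Λ : Type} {M : Set Ω} (h : M.Finite) (p : Ω → Λ) {f : Λ → ℝ} (hf : ∀ a, 0 ≤ f a)
    (s : Finset Λ) : ∑ a ∈ s, wt M p a * f a ≤ ∑ x ∈ h.toFinset, f (p x) := by
  classical
  rw [sum_wt h p f (s ∪ h.toFinset.image p) fun x hx =>
    Finset.mem_union_right _ (Finset.mem_image_of_mem p (by simpa using hx))]
  exact Finset.sum_le_sum_of_subset_of_nonneg Finset.subset_union_left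
    fun a _ _ => mul_nonneg (Nat.cast_nonneg _) (hf a)

/-- the four functions theorem for projected uniform measures -/
theorem Hol.four {M : Set Ω} {p : Ω → Λ} {M' : Set Ω'} {p' : Ω' → Λ} (h : Hol M p M' p')
    {f1 f2 f3 f4 : Λ → ℝ} (h1 : ∀ a, 0 ≤ f1 a) (h2 : ∀ a, 0 ≤ f2 a) (h3 : ∀ a, 0 ≤ f3 a)
    (h4 : ∀ a, 0 ≤ f4 a) (hf : ∀ a b, f1 a * f2 b ≤ f3 (a ⊓ b) * f4 (a ⊔ b)) :
    Ex M (fun x => f1 (p x)) * Ex M' (fun x => f2 (p' x)) ≤
      Ex M (fun x => f3 (p x)) * Ex M' fun x => f4 (p' x) := by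
  classical
  by_cases hM : M.Finite
  swap
  · simp [ex_inf hM]
  by_cases hM' : M'.Finite
  swap
  · simp [ex_inf hM']
  simp only [ex_eq hM, ex_eq hM', div_mul_div_comm]
  refine div_le_div_of_nonneg_right ?_ (by positivity)
  have := four_functions_theorem (fun a => (wt M p a : ℝ) * f1 a) (fun a => (wt M' p' a : ℝ) * f2 a)
    (fun a => (wt M p a : ℝ) * f3 a) (fun a => (wt M' p' a : ℝ) * f4 a)
    (fun a => mul_nonneg (Nat.cast_nonneg _) (h1 a))
    (fun a => mul_nonneg (Nat.cast_nonneg _) (h2 a))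
    (fun a => mul_nonneg (Nat.cast_nonneg _) (h3 a))
    (fun a => mul_nonneg (Nat.cast_nonneg _) (h4 a))
    (fun a b => by
      rw [mul_mul_mul_comm, mul_mul_mul_comm (wt M p (a ⊓ b) : ℝ)]
      exact mul_le_mul (by exact_mod_cast h a b) (hf a b) (mul_nonneg (h1 a) (h2 b))
        (by positivity))
    (hM.toFinset.image p) (hM'.toFinset.image p')
  rw [sum_wt hM p f1 _ fun x hx => Finset.mem_image_of_mem p (hM.mem_toFinset.2 hx),
    sum_wt hM' p' f2 _ fun x hx => Finset.mem_image_of_mem p' (hM'.mem_toFinset.2 hx)]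
  refine this.trans (mul_le_mul (sum_wt_le hM p h3 _) (sum_wt_le hM' p' h4 _) ?_ ?_)
  · exact Finset.sum_nonneg fun a _ => mul_nonneg (Nat.cast_nonneg _) (h4 a)
  · exact Finset.sum_nonneg fun a _ => h3 _

/-- a bounded below truncation of a monotone function -/
lemma exists_trunc {M : Set Ω} (hM : M.Finite) {M' : Set Ω'} (hM' : M'.Finite) (g : Ω → ℝ)
    (g' : Ω' → ℝ) : ∃ c : ℝ, (∀ x ∈ M, c ≤ g x) ∧ ∀ x ∈ M', c ≤ g' x := by
  obtain ⟨c, hc⟩ := (hM.image g).bddBelow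
  obtain ⟨c', hc'⟩ := (hM'.image g').bddBelow
  exact ⟨min c c', fun x hx => (min_le_left _ _).trans (hc ⟨x, hx, rfl⟩),
    fun x hx => (min_le_right _ _).trans (hc' ⟨x, hx, rfl⟩)⟩

/-- Holley inequality -/
theorem Hol.ex_le {M : Set Ω} {p : Ω → Λ} {M' : Set Ω'} {p' : Ω' → Λ} (h : Hol M p M' p')
    (hM : Ok M) (hM' : Ok M') {f : Λ → ℝ} (hf : Monotone f) :
    Ex M (fun x => f (p x)) ≤ Ex M' fun x => f (p' x) := by
  obtain ⟨c, h1, h2⟩ := exists_trunc hM.1 hM'.1 (fun x => f (p x)) fun x => f (p' x)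
  have := h.four (f1 := fun a => max (f a - c) 0) (f2 := fun _ => 1) (f3 := fun _ => 1)
    (f4 := fun a => max (f a - c) 0) (fun _ => le_max_right _ _) (fun _ => zero_le_one)
    (fun _ => zero_le_one) (fun _ => le_max_right _ _) fun a b => by
      rw [mul_one, one_mul]
      exact max_le_max (sub_le_sub_right (hf le_sup_left) c) le_rfl
  rw [ex_const hM, ex_const hM', mul_one, one_mul,
    ex_congr (g := fun x => f (p x) - c) fun x hx => max_eq_left (sub_nonneg.2 (h1 x hx)),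
    ex_congr (g := fun x => f (p' x) - c) fun x hx => max_eq_left (sub_nonneg.2 (h2 x hx)),
    ex_sub, ex_sub, ex_const hM, ex_const hM'] at this
  linarith

lemma mono_ind {A : Set Λ} (hA : IsUpperSet A) : Monotone (A.indicator (1 : Λ → ℝ)) := by
  intro a b hab
  by_cases ha : a ∈ A
  · simp [ha, hA hab ha]
  · rw [Set.indicator_of_notMem ha]; exact Set.indicator_nonneg (fun _ _ => zero_le_one) _

theorem Hol.pr_le {M : Set Ω} {p : Ω → Λ} {M' : Set Ω'} {p' : Ω' → Λ} (h : Hol M p M' p')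
    (hM : Ok M) (hM' : Ok M') {A : Set Λ} (hA : IsUpperSet A) :
    Pr M (p ⁻¹' A) ≤ Pr M' (p' ⁻¹' A) := by
  rw [pr_eq, pr_eq]
  exact h.ex_le hM hM' (mono_ind hA)

/-- FKG inequality -/
theorem Hol.fkg {M : Set Ω} {p : Ω → Λ} (h : Hol M p M p) {f g : Λ → ℝ} (hf : Monotone f)
    (hg : Monotone g) :
    Ex M (fun x => f (p x)) * Ex M (fun x => g (p x)) ≤ Ex M fun x => f (p x) * g (p x) := by
  by_cases hM : Ok M
  swap
  · simp [ex_nok hM]
  obtain ⟨c, h1, h2⟩ := exists_trunc hM.1 hM.1 (fun x => f (p x)) fun x => g (p x)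
  have := h.four (f1 := fun a => max (f a - c) 0) (f2 := fun a => max (g a - c) 0)
    (f3 := fun _ => 1) (f4 := fun a => max (f a - c) 0 * max (g a - c) 0)
    (fun _ => le_max_right _ _) (fun _ => le_max_right _ _) (fun _ => zero_le_one)
    (fun _ => mul_nonneg (le_max_right _ _) (le_max_right _ _)) fun a b => by
      rw [one_mul]
      exact mul_le_mul (max_le_max (sub_le_sub_right (hf le_sup_left) c) le_rfl)
        (max_le_max (sub_le_sub_right (hg le_sup_right) c) le_rfl) (le_max_right _ _)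
        (le_max_right _ _)
  rw [ex_const hM, one_mul,
    ex_congr (g := fun x => f (p x) - c) fun x hx => max_eq_left (sub_nonneg.2 (h1 x hx)),
    ex_congr (g := fun x => g (p x) - c) fun x hx => max_eq_left (sub_nonneg.2 (h2 x hx)),
    ex_congr (f := fun x => max (f (p x) - c) 0 * max (g (p x) - c) 0)
      (g := fun x => f (p x) * g (p x) - c * f (p x) - c * g (p x) + c * c) fun x hx => by
      rw [max_eq_left (sub_nonneg.2 (h1 x hx)), max_eq_left (sub_nonneg.2 (h2 x hx))]; ring,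
    ex_add, ex_sub, ex_sub, ex_sub, ex_sub, ex_mul, ex_mul, ex_const hM, ex_const hM] at this
  linarith

theorem Hol.pr_fkg {M : Set Ω} {p : Ω → Λ} (h : Hol M p M p) {A B : Set Λ} (hA : IsUpperSet A)
    (hB : IsUpperSet B) : Pr M (p ⁻¹' A) * Pr M (p ⁻¹' B) ≤ Pr M (p ⁻¹' (A ∩ B)) := by
  simp only [pr_eq]
  refine (h.fkg (mono_ind hA) (mono_ind hB)).trans (ex_congr fun x _ => ?_).le
  by_cases h1 : p x ∈ A <;> by_cases h2 : p x ∈ B <;> simp [h1, h2]

lemma wt_inter {Λ : Type} (M : Set Ω) (p : Ω → Λ) (A : Set Λ) (a : Λ) [Decidable (a ∈ A)] :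
    wt (M ∩ p ⁻¹' A) p a = if a ∈ A then wt M p a else 0 := by
  unfold wt
  split_ifs with h
  · congr 1
    ext x
    exact ⟨fun hx => ⟨hx.1.1, hx.2⟩, fun hx => ⟨⟨hx.1, by
      rw [Set.mem_preimage, show p x = a from hx.2]; exact h⟩, hx.2⟩⟩
  · rw [show (M ∩ p ⁻¹' A) ∩ {x | p x = a} = ∅ from Set.eq_empty_of_forall_notMem fun x hx =>
      h ((show p x = a from hx.2) ▸ hx.1.2), Set.ncard_empty]

/-- conditioning on sets that are ordered in the strong set order -/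
theorem Hol.inter {M : Set Ω} {p : Ω → Λ} {M' : Set Ω'} {p' : Ω' → Λ} (h : Hol M p M' p')
    {A A' : Set Λ} (hA : ∀ a ∈ A, ∀ b ∈ A', a ⊓ b ∈ A ∧ a ⊔ b ∈ A') :
    Hol (M ∩ p ⁻¹' A) p (M' ∩ p' ⁻¹' A') p' := by
  classical
  intro a b
  simp only [wt_inter]
  by_cases ha : a ∈ A
  · by_cases hb : b ∈ A'
    · simp only [ha, hb, (hA a ha b hb).1, (hA a ha b hb).2, if_true]
      exact h a b
    · simp [hb]
  · simp [ha]

/-- the Holley condition for the identity projection -/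
theorem hol_id {M M' : Set Λ} (h : ∀ a ∈ M, ∀ b ∈ M', a ⊓ b ∈ M ∧ a ⊔ b ∈ M') :
    Hol M id M' id := by
  classical
  have e : ∀ (N : Set Λ) (a : Λ), wt N id a = if a ∈ N then 1 else 0 := fun N a => by
    unfold wt
    split_ifs with ha
    · rw [show N ∩ {x | id x = a} = {a} from by ext x; simp; rintro rfl; exact ha, ncard_singleton]
    · rw [show N ∩ {x | id x = a} = ∅ from by ext x; simp; rintro h rfl; exact ha h, ncard_empty]
  intro a b
  simp only [e]
  by_cases ha : a ∈ M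
  · by_cases hb : b ∈ M'
    · simp [ha, hb, (h a ha b hb).1, (h a ha b hb).2]
    · simp [hb]
  · simp [ha]

end Hol

/-- the product formula for subgroups, as an inequality -/
theorem card_mul_le {Γ : Type} [AddCommGroup Γ] {A B C D : Set Γ} (hC : C.Finite) (hD : D.Finite)
    (hA : ∀ a ∈ A, ∀ b ∈ A, a - b ∈ A) (hB : ∀ a ∈ B, ∀ b ∈ B, a - b ∈ B)
    (h1 : ∀ a ∈ A, ∀ b ∈ B, a - b ∈ C) (h2 : ∀ a ∈ A, a ∈ B → a ∈ D) :
    A.ncard * B.ncard ≤ C.ncard * D.ncard := by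
  classical
  have : ∀ c : Γ, ∃ s : Γ, (∃ a ∈ A, a - c ∈ B) → s ∈ A ∧ s - c ∈ B := fun c => by
    by_cases h : ∃ a ∈ A, a - c ∈ B
    · obtain ⟨a, ha⟩ := h
      exact ⟨a, fun _ => ha⟩
    · exact ⟨0, fun h' => absurd h' h⟩
  choose s hs using this
  rw [← Set.ncard_prod, ← Set.ncard_prod]
  refine Set.ncard_le_ncard_of_injOn (fun p => (p.1 - p.2, p.1 - s (p.1 - p.2))) ?_ ?_ (hC.prod hD)
  · rintro ⟨a, b⟩ ⟨ha, hb⟩
    obtain ⟨s1, s2⟩ := hs (a - b) ⟨a, ha, by simpa using hb⟩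
    refine ⟨h1 a ha b hb, h2 _ (hA _ ha _ s1) ?_⟩
    have := hB _ hb _ s2
    rwa [show b - (s (a - b) - (a - b)) = a - s (a - b) by abel] at this
  · rintro ⟨a, b⟩ - ⟨a', b'⟩ - h
    simp only [Prod.mk.injEq] at h
    obtain ⟨e1, e2⟩ := h
    rw [e1, sub_left_inj] at e2
    subst e2
    rw [sub_right_inj.1 e1]

/-- second moment method -/
theorem pr_none_le {M : Set Ω} {ι : Type} (s : Finset ι) (hs : s.Nonempty) (A : ι → Set Ω)
    {c ε : ℝ} (hc : 0 < c) (hε : 0 ≤ ε) (h1 : ∀ i ∈ s, c ≤ Pr M (A i))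
    (h2 : ∀ i ∈ s, ∀ j ∈ s, i ≠ j → Pr M (A i ∩ A j) ≤ Pr M (A i) * Pr M (A j) + ε) :
    Pr M {x | ∀ i ∈ s, x ∉ A i} ≤ (1 / s.card + ε) / c ^ 2 := by
  classical
  have hn : (0 : ℝ) < s.card := by exact_mod_cast hs.card_pos
  obtain ⟨i0, hi0⟩ := hs
  have hM := (ok_of_pr_pos (hc.trans_le (h1 i0 hi0))).1
  set Y : ι → Ω → ℝ := fun i x => (A i).indicator 1 x - Pr M (A i) with hY
  have cov : ∀ i j, Ex M (fun x => Y i x * Y j x) = Pr M (A i ∩ A j) - Pr M (A i) * Pr M (A j) := by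
    intro i j
    rw [ex_congr (g := fun x => (A i ∩ A j).indicator 1 x - Pr M (A j) * (A i).indicator 1 x -
      Pr M (A i) * (A j).indicator 1 x + Pr M (A i) * Pr M (A j)) fun x _ => by
        simp only [hY, Set.inter_indicator_one, Pi.mul_apply]; ring,
      ex_add, ex_sub, ex_sub, ex_mul, ex_mul, ex_const hM, ← pr_eq, ← pr_eq, ← pr_eq]
    ring
  have up : Ex M (fun x => (∑ i ∈ s, Y i x) ^ 2) ≤ s.card * (1 + s.card * ε) := by
    simp only [sq, Finset.sum_mul_sum, ex_sum, cov]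
    rw [← nsmul_eq_mul, ← Finset.sum_const]
    refine Finset.sum_le_sum fun i hi => ?_
    calc _ ≤ ∑ j ∈ s, ((if j = i then (1 : ℝ) else 0) + ε) := Finset.sum_le_sum fun j hj => by
          split_ifs with e
          · have := pr_le_one M (A i ∩ A j)
            have := mul_nonneg (pr_nonneg M (A i)) (pr_nonneg M (A j))
            linarith
          · have := h2 i hi j hj (Ne.symm e)
            linarith
      _ = _ := by simp [Finset.sum_add_distrib, hi]
  have lo := pr_mul_le (M := M) (A := {x | ∀ i ∈ s, x ∉ A i}) (c := (s.card * c) ^ 2)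
    (f := fun x => (∑ i ∈ s, Y i x) ^ 2) (fun x _ => sq_nonneg _) fun x _ hx => by
      have e : ∑ i ∈ s, Y i x = -∑ i ∈ s, Pr M (A i) := by
        rw [← Finset.sum_neg_distrib]
        exact Finset.sum_congr rfl fun i hi => by simp [hY, hx i hi]
      have : s.card * c ≤ ∑ i ∈ s, Pr M (A i) := by
        rw [← nsmul_eq_mul, ← Finset.sum_const]
        exact Finset.sum_le_sum h1
      rw [e, neg_sq]
      exact pow_le_pow_left₀ (by positivity) this 2
  rw [le_div_iff₀ (by positivity)]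
  have h3 := lo.trans up
  have h4 : (1 / s.card + ε) = s.card * (1 + s.card * ε) / (s.card : ℝ) ^ 2 := by field_simp
  rw [h4, le_div_iff₀ (by positivity)]
  linarith

/-- pigeonhole for arrays that are monotone in the second index -/
theorem exists_flat {ε : ℝ} (hε : 0 < ε) (I : ℕ) : ∃ L : ℕ, ∀ G : ℕ → ℕ → ℝ,
    (∀ i k, 0 ≤ G i k ∧ G i k ≤ 1) → (∀ i, Antitone (G i)) → ∀ s : ℕ, ∃ J : Finset ℕ,
      J.card = I ∧ (∀ j ∈ J, s ≤ j ∧ j ≤ s + L) ∧
        ∀ a ∈ J, ∀ b ∈ J, ∀ c, a < b → b ≤ c → c ≤ s + L → (∃ d ∈ J, c ≤ d) →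
          G a b - G a c ≤ ε := by
  induction I with
  | zero => exact ⟨0, fun G _ _ s => ⟨∅, rfl, by simp, by simp⟩⟩
  | succ I ih =>
    obtain ⟨L, hL⟩ := ih
    obtain ⟨n, hn⟩ := exists_nat_gt (1 / ε)
    refine ⟨1 + (n + 1) * L, fun G hG hm s => ?_⟩
    have : ∃ t ≤ n, G s (s + 1 + t * L) - G s (s + 1 + (t + 1) * L) ≤ ε := by
      by_contra hc
      push Not at hc
      have key : ∀ t ≤ n + 1, t * ε ≤ G s (s + 1) - G s (s + 1 + t * L) := by
        intro t ht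
        induction t with
        | zero => simp
        | succ t ih =>
          have := ih (by omega)
          have := hc t (by omega)
          push_cast
          linarith
      have h1 := key (n + 1) le_rfl
      have h2 := (hG s (s + 1)).2
      have h3 := (hG s (s + 1 + (n + 1) * L)).1
      rw [div_lt_iff₀ hε] at hn
      push_cast at h1
      linarith
    obtain ⟨t, ht, h1⟩ := this
    obtain ⟨J, hJ, h2, h3⟩ := hL G hG hm (s + 1 + t * L)
    have hle : (t + 1) * L ≤ (n + 1) * L := Nat.mul_le_mul_right L (by omega)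
    have hadd : (t + 1) * L = t * L + L := by ring
    have hs : s ∉ J := fun h => by have := (h2 s h).1; omega
    refine ⟨insert s J, by rw [Finset.card_insert_of_notMem hs, hJ], ?_, ?_⟩
    · intro j hj
      rcases Finset.mem_insert.1 hj with rfl | hj
      · omega
      · have := h2 j hj; omega
    · rintro a ha b hb c hab hbc - ⟨d, hd, hcd⟩
      have hb' : b ∈ J := by
        rcases Finset.mem_insert.1 hb with rfl | hb
        · rcases Finset.mem_insert.1 ha with rfl | ha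
          · omega
          · have := h2 a ha; omega
        · exact hb
      have hd' : d ∈ J := by
        rcases Finset.mem_insert.1 hd with rfl | hd
        · have := h2 b hb'; omega
        · exact hd
      have := h2 b hb'
      have := h2 d hd'
      rcases Finset.mem_insert.1 ha with rfl | ha
      · have := hm a (show a + 1 + t * L ≤ b by omega)
        have := hm a (show c ≤ a + 1 + (t + 1) * L by omega)
        linarith
      · exact h3 a ha b hb' c hab hbc (by omega) ⟨d, hd', hcd⟩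

end Pool.Agent.Lib.MP_6359c9_pr
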