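import Pool.Agent.Lib.MP_6359c9_pr.SpA
import Pool.Agent.Lib.MP_6359c9_pr.Defs

/-! Nearest neighbour constraint models: Markov property, symmetries, heights and spins. -/

namespace Pool.Agent.Lib.MP_6359c9_pr

open Set

variable {S S' : Type}

/-- configurations with `R` along the edges and with value in `T v` at `v` -/
def Loc (R : S → S → Prop) (T : V → Set S) : Set (V → S) :=
  {w | (∀ u v, Adj u v → R (w u) (w v)) ∧ ∀ v, w v ∈ T v}

/-- a set together with its neighbours -/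
def cl (U : Set V) : Set V := U ∪ nb U

/-- the complement of `L` is connected -/
def CoConn (L : Set V) : Prop := ∀ u, u ∉ L → ∀ v, v ∉ L → Conn Lᶜ u v

lemma sub_cl (U : Set V) : U ⊆ cl U := subset_union_left

lemma mem_cl {U : Set V} {u v : V} (hu : u ∈ U) (h : Adj u v) : v ∈ cl U := Or.inr ⟨u, hu, h⟩

lemma cl_mono {U U' : Set V} (h : U ⊆ U') : cl U ⊆ cl U' := by
  rintro v (hv | ⟨u, hu, a⟩)
  · exact Or.inl (h hv)
  · exact mem_cl (h hu) a

lemma adj_finite (u : V) : {v | Adj u v}.Finite := by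
  refine (Set.toFinite ({(u.1 + 1, u.2), (u.1 - 1, u.2), (u.1, u.2 + 1), (u.1, u.2 - 1),
    (u.1 + 1, u.2 - 1), (u.1 - 1, u.2 + 1)} : Set V)).subset ?_
  rintro ⟨a, b⟩ h
  simp only [Adj, mem_ofPred_eq] at h
  simp only [mem_insert_iff, mem_singleton_iff, Prod.mk.injEq]
  exact h

lemma cl_finite {U : Set V} (h : U.Finite) : (cl U).Finite :=
  h.union ((h.biUnion fun u _ => adj_finite u).subset fun _ ⟨_, hu, a⟩ => mem_biUnion hu a)

lemma conn_univ (u v : V) : Conn univ u v := by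
  have h1 : Conn univ (u.1, u.2) (v.1, u.2) := by
    rcases le_total u.1 v.1 with h | h
    · exact conn_row h fun _ _ _ => trivial
    · exact (conn_row (S := univ) h fun _ _ _ => trivial).symm
  have h2 : Conn univ (v.1, u.2) (v.1, v.2) := by
    rcases le_total u.2 v.2 with h | h
    · exact conn_col h fun _ _ _ => trivial
    · exact (conn_col (S := univ) h fun _ _ _ => trivial).symm
  exact h1.trans h2

lemma finite_pi {T : V → Set S} {F : Set V} (hF : F.Finite) (h1 : ∀ v ∈ F, (T v).Finite)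
    (h2 : ∀ v, v ∉ F → (T v).Subsingleton) : {w : V → S | ∀ v, w v ∈ T v}.Finite := by
  have := hF.to_subtype
  refine Set.Finite.of_injOn (f := fun w (v : F) => w v) (t := {x | ∀ v : F, x v ∈ T v})
    (fun w hw v => hw v) (fun w hw w' hw' e => funext fun v => ?_)
    (Set.Finite.pi' fun v : F => h1 v v.2)
  by_cases hv : v ∈ F
  · exact congrFun e ⟨v, hv⟩
  · exact h2 v hv (hw v) (hw' v)

lemma Loc_finite [Finite S] {R : S → S → Prop} {T : V → Set S} {F : Set V} (hF : F.Finite)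
    (h2 : ∀ v, v ∉ F → (T v).Subsingleton) : (Loc R T).Finite :=
  (finite_pi hF (fun _ _ => Set.toFinite _) h2).subset fun _ hw => hw.2

lemma Loc_congr {R : S → S → Prop} {T T' : V → Set S} (h : ∀ v a, a ∈ T v ↔ a ∈ T' v) :
    Loc R T = Loc R T' := by
  rw [show T = T' from funext fun v => Set.ext (h v)]

lemma Loc_inter (R : S → S → Prop) (T T' : V → Set S) :
    Loc R T ∩ {w | ∀ v, w v ∈ T' v} = Loc R fun v => T v ∩ T' v :=
  Set.ext fun _ => ⟨fun h => ⟨h.1.1, fun v => ⟨h.1.2 v, h.2 v⟩⟩,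
    fun h => ⟨⟨h.1, fun v => (h.2 v).1⟩, fun v => (h.2 v).2⟩⟩

/-! ### Markov property -/

/-- the constraints inside `k` -/
def In (R : S → S → Prop) (T : V → Set S) (k : Set V) : Set (V → S) :=
  {w | (∀ u ∈ k, ∀ v ∈ k, Adj u v → R (w u) (w v)) ∧ ∀ v ∈ k, w v ∈ T v}

/-- the edges that leave `k` end at a frozen vertex or carry no constraint -/
def Dec (R : S → S → Prop) (T : V → Set S) (k : Set V) : Prop :=
  ∀ u ∈ k, ∀ v, v ∉ k → Adj u v →
    (T v).Subsingleton ∨ ∀ a ∈ T u, ∀ b ∈ T v, R a b ∧ R b a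

lemma dep_In (R : S → S → Prop) (T : V → Set S) (k : Set V) : Dep k (In R T k) :=
  fun _ _ e hx => ⟨fun u hu v hv a => e u hu ▸ e v hv ▸ hx.1 u hu v hv a,
    fun v hv => e v hv ▸ hx.2 v hv⟩

lemma Dec.split {R : S → S → Prop} {T : V → Set S} {k : Set V} (h : Dec R T k) :
    ∃ A, Dep k A ∧ Loc R T = A ∩ In R T kᶜ := by
  refine ⟨In R T k ∩ {w | ∀ u ∈ k, ∀ v, v ∉ k → Adj u v → ∀ b ∈ T v, R (w u) b ∧ R b (w u)},
    (dep_In R T k).inter fun x y e hx u hu => e u hu ▸ hx u hu, Set.ext fun w => ⟨fun hw => ?_,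
      fun ⟨⟨h1, h2⟩, h3⟩ => ⟨fun u v a => ?_, fun v => ?_⟩⟩⟩
  · refine ⟨⟨⟨fun u _ v _ a => hw.1 u v a, fun v _ => hw.2 v⟩, fun u hu v hv a b hb => ?_⟩,
      fun u _ v _ a => hw.1 u v a, fun v _ => hw.2 v⟩
    rcases h u hu v hv a with h1 | h1
    · rw [h1 hb (hw.2 v)]
      exact ⟨hw.1 u v a, hw.1 v u a.symm⟩
    · exact h1 _ (hw.2 u) b hb
  · by_cases hu : u ∈ k <;> by_cases hv : v ∈ k
    · exact h1.1 u hu v hv a
    · exact (h2 u hu v hv a _ (h3.2 v hv)).1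
    · exact (h2 v hv u hu a.symm _ (h3.2 u hu)).2
    · exact h3.1 u hu v hv a
  · by_cases hv : v ∈ k
    · exact h1.2 v hv
    · exact h3.2 v hv

lemma In_congr {R : S → S → Prop} {T T' : V → Set S} {k : Set V} (e : ∀ v ∈ k, T v = T' v) :
    In R T k = In R T' k :=
  Set.ext fun _ => and_congr Iff.rfl (forall₂_congr fun v hv => by rw [e v hv])

/-- Markov property: the law off `k` only depends on the constraints off `k` -/
theorem markov {R : S → S → Prop} {T T' : V → Set S} {k : Set V} (hT : Dec R T k)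
    (hT' : Dec R T' k) (e : ∀ v, v ∉ k → T v = T' v) {E E' : Set (V → S)} (hE : Dep k E)
    (hE' : Dep k E') (h1 : Ok (Loc R T ∩ E)) (h2 : Ok (Loc R T' ∩ E')) {f : (V → S) → ℝ}
    (hf : DependsOn f kᶜ) : Ex (Loc R T ∩ E) f = Ex (Loc R T' ∩ E') f := by
  obtain ⟨A, hA, eA⟩ := hT.split
  obtain ⟨A', hA', eA'⟩ := hT'.split
  rw [← In_congr (k := kᶜ) e] at eA'
  rw [eA, inter_right_comm A] at h1 ⊢
  rw [eA', inter_right_comm A'] at h2 ⊢
  exact ex_prod (hA.inter hE) (hA'.inter hE') (dep_In R T kᶜ) h1 h2 hf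

theorem markov' {R : S → S → Prop} {T T' : V → Set S} {k : Set V} (hT : Dec R T k)
    (hT' : Dec R T' k) (e : ∀ v, v ∉ k → T v = T' v) (h1 : Ok (Loc R T)) (h2 : Ok (Loc R T'))
    {f : (V → S) → ℝ} (hf : DependsOn f kᶜ) : Ex (Loc R T) f = Ex (Loc R T') f := by
  simpa using markov hT hT' e (Dep.univ k) (Dep.univ k) (by simpa) (by simpa) hf

/-- independence of the two sides of a decoupled set -/
theorem markov_indep {R : S → S → Prop} {T : V → Set S} {k : Set V} (hT : Dec R T k)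
    {E E' : Set (V → S)} (hE : Dep k E) (hE' : Dep kᶜ E') {f g : (V → S) → ℝ}
    (hf : DependsOn f kᶜ) (hg : DependsOn g k) :
    Ex (Loc R T ∩ E ∩ E') (fun x => f x * g x) =
      Ex (Loc R T ∩ E ∩ E') f * Ex (Loc R T ∩ E ∩ E') g := by
  obtain ⟨A, hA, eA⟩ := hT.split
  rw [eA, inter_right_comm A, inter_assoc]
  exact ex_indep (hA.inter hE) ((dep_In R T kᶜ).inter hE') hf hg

/-- the constraints `T` with the values on `k` frozen to those of `x` -/
def frz (T : V → Set S) (k : Set V) (x : V → S) (v : V) : Set S :=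
  {a | a ∈ T v ∧ (v ∈ k → a = x v)}

lemma Loc_frz (R : S → S → Prop) (T : V → Set S) (k : Set V) (x : V → S) :
    Loc R (frz T k x) = Loc R T ∩ {y | ∀ v ∈ k, y v = x v} :=
  Set.ext fun _ => ⟨fun h => ⟨⟨h.1, fun v => (h.2 v).1⟩, fun v => (h.2 v).2⟩,
    fun h => ⟨h.1.1, fun v => ⟨h.1.2 v, h.2 v⟩⟩⟩

lemma frz_sub {T : V → Set S} {k : Set V} {x : V → S} {v : V} (hv : v ∈ k) :
    (frz T k x v).Subsingleton := fun _ ha _ hb => (ha.2 hv).trans (hb.2 hv).symm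

lemma frz_off {T : V → Set S} {k : Set V} {x : V → S} {v : V} (hv : v ∉ k) :
    frz T k x v = T v := Set.ext fun _ => ⟨fun h => h.1, fun h => ⟨h, fun h' => absurd h' hv⟩⟩

/-- a random set that is determined by the values on itself -/
def Stop (K : (V → S) → Set V) : Prop := ∀ x y, (∀ v ∈ K x, y v = x v) → K y = K x

/-- tower property over a stopping set -/
theorem ex_stop {K : (V → S) → Set V} (hK : Stop K) (M : Set (V → S)) (f : (V → S) → ℝ) :
    Ex M f = Ex M fun x => Ex (M ∩ {y | ∀ v ∈ K x, y v = x v}) f := by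
  rw [ex_fib M (fun x => {y : V → S | ∀ v ∈ K x, y v = x v}) f]
  refine ex_congr fun x _ => ?_
  congr 2
  ext y
  constructor
  · intro h
    have h' : {z : V → S | ∀ v ∈ K y, z v = y v} = {z | ∀ v ∈ K x, z v = x v} := h
    exact h' ▸ fun _ _ => rfl
  · intro h
    have e := hK x y h
    ext z
    simp only [mem_ofPred_eq, e]
    exact forall₂_congr fun v hv => by rw [h v hv]

theorem ex_stop_loc {K : (V → S) → Set V} (hK : Stop K) (R : S → S → Prop) (T : V → Set S)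
    (f : (V → S) → ℝ) :
    Ex (Loc R T) f = Ex (Loc R T) fun x => Ex (Loc R (frz T (K x) x)) f := by
  simp only [Loc_frz]
  exact ex_stop hK _ f

lemma stop_const (k : Set V) : Stop fun _ : V → S => k := fun _ _ _ => rfl

/-! ### symmetries -/

/-- lattice automorphisms -/
def Aut (g : V ≃ V) : Prop := ∀ u v, Adj (g u) (g v) ↔ Adj u v

lemma Aut.symm {g : V ≃ V} (h : Aut g) : Aut g.symm := fun u v => by
  rw [← h, g.apply_symm_apply, g.apply_symm_apply]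

lemma Aut.trans {g g' : V ≃ V} (h : Aut g) (h' : Aut g') : Aut (g.trans g') := fun u v =>
  (h' _ _).trans (h u v)

lemma aut_refl : Aut (Equiv.refl V) := fun _ _ => Iff.rfl

lemma aut_add (x : V) : Aut (Equiv.addRight x) := fun u v => by
  simp only [Adj, Equiv.coe_addRight, Prod.fst_add, Prod.snd_add]
  omega

lemma Aut.cl {g : V ≃ V} (h : Aut g) (U : Set V) : g ⁻¹' cl U = cl (g ⁻¹' U) := by
  ext v
  constructor
  · rintro (hv | ⟨u, hu, a⟩)
    · exact Or.inl hv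
    · exact mem_cl (u := g.symm u) (by simpa using hu) ((h _ _).1 (by simpa using a))
  · rintro (hv | ⟨u, hu, a⟩)
    · exact Or.inl hv
    · exact mem_cl hu ((h _ _).2 a)

lemma Aut.conn {g : V ≃ V} (h : Aut g) {A : Set V} {u v : V} :
    Conn (g ⁻¹' A) u v ↔ Conn A (g u) (g v) :=
  ⟨fun c => c.map (fun a b => (h a b).2) fun _ ha => ha, fun c => by
    simpa using c.map (T := g ⁻¹' A) (fun a b => (h.symm a b).2) fun a ha => by simpa using ha⟩

lemma Aut.coConn {g : V ≃ V} (h : Aut g) {L : Set V} (hL : CoConn L) : CoConn (g ⁻¹' L) :=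
  fun _ hu _ hv => (h.conn (A := Lᶜ)).2 (hL _ hu _ hv)

theorem bij_loc {R : S → S → Prop} {R' : S' → S' → Prop} {T : V → Set S} {T' : V → Set S'}
    {g : V ≃ V} (hg : Aut g) (σ : S ≃ S') (hσ : ∀ a b, R' (σ a) (σ b) ↔ R a b)
    (h : ∀ v a, σ a ∈ T' v ↔ a ∈ T (g v)) :
    BijOn (fun w v => σ (w (g v))) (Loc R T) (Loc R' T') := by
  refine bij_of_inv (ψ := fun w v => σ.symm (w (g.symm v)))
    (fun w hw => ⟨fun u v a => (hσ _ _).2 (hw.1 _ _ ((hg u v).2 a)), fun v => (h v _).2 (hw.2 _)⟩)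
    (fun w hw => ⟨fun u v a => (hσ _ _).1 ?_, fun v => ?_⟩) (fun w _ => by ext v; simp)
    fun w _ => by ext v; simp
  · simpa using hw.1 _ _ ((hg.symm u v).2 a)
  · have := (h (g.symm v) (σ.symm (w (g.symm v)))).1 (by simpa using hw.2 _)
    simpa using this

theorem bij_aut (R : S → S → Prop) (T : V → Set S) {g : V ≃ V} (hg : Aut g) :
    BijOn (fun w v => w (g v)) (Loc R T) (Loc R fun v => T (g v)) :=
  bij_loc hg (Equiv.refl S) (fun _ _ => Iff.rfl) fun _ _ => Iff.rfl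

/-! ### heights -/

/-- neighbouring heights differ by at most one -/
def Hp (a b : ℤ) : Prop := a ≤ b + 1 ∧ b ≤ a + 1

/-- Lipschitz height functions with value in `T v` at `v` -/
abbrev Ht (T : V → Set ℤ) : Set (V → ℤ) := Loc Hp T

lemma lip_bound (u v : V) : ∃ n : ℤ, ∀ T, ∀ g ∈ Ht T, g u - n ≤ g v ∧ g v ≤ g u + n := by
  refine (conn_univ u v).ind (P := fun x => ∃ n : ℤ, ∀ T, ∀ g ∈ Ht T, g u - n ≤ g x ∧ g x ≤ g u + n)
    ⟨0, fun _ _ _ => by simp⟩ ?_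
  rintro a b - ab - ⟨n, hn⟩
  refine ⟨n + 1, fun T g hg => ?_⟩
  have := hn T g hg
  have := hg.1 a b ab
  unfold Hp at this
  omega

lemma Ht_finite {T : V → Set ℤ} {F : Set V} (hF : F.Finite)
    (h2 : ∀ v, v ∉ F → (T v).Subsingleton) : (Ht T).Finite := by
  obtain ⟨o, ho⟩ := hF.exists_notMem
  rcases (Ht T).eq_empty_or_nonempty with h | ⟨g0, h0⟩
  · rw [h]; exact finite_empty
  choose n hn using lip_bound o
  refine (finite_pi (T := fun v => T v ∩ Icc (g0 o - n v) (g0 o + n v)) hF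
    (fun v _ => (finite_Icc _ _).inter_of_right _)
    fun v hv => (h2 v hv).anti inter_subset_left).subset fun g hg v => ⟨hg.2 v, ?_⟩
  rw [← h2 o ho (hg.2 o) (h0.2 o)]
  exact hn v T g hg

/-- the strong set order -/
def Sso {Λ : Type} [Lattice Λ] (A B : Set Λ) : Prop := ∀ a ∈ A, ∀ b ∈ B, a ⊓ b ∈ A ∧ a ⊔ b ∈ B

lemma sso_refl {Λ : Type} [LinearOrder Λ] (A : Set Λ) : Sso A A := fun a ha b hb => by
  rcases le_total a b with h | h
  · rw [inf_eq_left.2 h, sup_eq_right.2 h]; exact ⟨ha, hb⟩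
  · rw [inf_eq_right.2 h, sup_eq_left.2 h]; exact ⟨hb, ha⟩

lemma sso_of_le {Λ : Type} [Lattice Λ] {A B : Set Λ} (h : ∀ a ∈ A, ∀ b ∈ B, a ≤ b) : Sso A B :=
  fun a ha b hb => by
    rw [inf_eq_left.2 (h a ha b hb), sup_eq_right.2 (h a ha b hb)]; exact ⟨ha, hb⟩

lemma Hp.inf {a b c d : ℤ} (h : Hp a b) (h' : Hp c d) : Hp (a ⊓ c) (b ⊓ d) := by
  unfold Hp at *; omega

lemma Hp.sup {a b c d : ℤ} (h : Hp a b) (h' : Hp c d) : Hp (a ⊔ c) (b ⊔ d) := by
  unfold Hp at *; omega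

lemma sso_Ht {T T' : V → Set ℤ} (h : ∀ v, Sso (T v) (T' v)) : Sso (Ht T) (Ht T') :=
  fun _ ha _ hb =>
    ⟨⟨fun u v e => (ha.1 u v e).inf (hb.1 u v e), fun v => (h v _ (ha.2 v) _ (hb.2 v)).1⟩,
      fun u v e => (ha.1 u v e).sup (hb.1 u v e), fun v => (h v _ (ha.2 v) _ (hb.2 v)).2⟩

/-- Holley condition for heights -/
theorem hol_ht {T T' : V → Set ℤ} (h : ∀ v, Sso (T v) (T' v)) : Hol (Ht T) id (Ht T') id :=
  hol_id (sso_Ht h)

theorem ht_le {T T' : V → Set ℤ} (h : ∀ v, Sso (T v) (T' v)) (h1 : Ok (Ht T)) (h2 : Ok (Ht T'))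
    {f : (V → ℤ) → ℝ} (hf : Monotone f) : Ex (Ht T) f ≤ Ex (Ht T') f :=
  (hol_ht h).ex_le h1 h2 hf

theorem ht_fkg (T : V → Set ℤ) {f g : (V → ℤ) → ℝ} (hf : Monotone f) (hg : Monotone g) :
    Ex (Ht T) f * Ex (Ht T) g ≤ Ex (Ht T) fun x => f x * g x :=
  (hol_ht fun v => sso_refl (T v)).fkg hf hg

theorem ht_pr_fkg (T : V → Set ℤ) {A B : Set (V → ℤ)} (hA : IsUpperSet A) (hB : IsUpperSet B) :
    Pr (Ht T) A * Pr (Ht T) B ≤ Pr (Ht T) (A ∩ B) :=
  (hol_ht fun v => sso_refl (T v)).pr_fkg hA hB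

lemma ok_prod {ι : Type} {k : Set ι} {A B : Set (ι → S)} (hA : Dep k A) (hB : Dep kᶜ B)
    (h : Ok (A ∩ B)) (c : ι → S) : Ok ({w | ∀ v ∈ k, w v = c v} ∩ B) := by
  classical
  obtain ⟨hf, x, hx⟩ := h
  refine ⟨Set.Finite.of_injOn (f := fun w => k.piecewise x w) (t := A ∩ B)
    (fun w hw => ⟨hA x _ (fun v hv => by simp [hv]) hx.1,
      hB w _ (fun v hv => by simp [show v ∉ k from hv]) hw.2⟩)
    (fun w hw w' hw' e => funext fun v => ?_) hf, k.piecewise c x, fun v hv => by simp [hv],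
    hB x _ (fun v hv => by simp [show v ∉ k from hv]) hx.2⟩
  by_cases hv : v ∈ k
  · rw [hw.1 v hv, hw'.1 v hv]
  · simpa [hv] using congrFun e v

/-- comparison of two height models that are decoupled from `k` and ordered off `k` -/
theorem ht_le_dec {T T' : V → Set ℤ} {k : Set V} (hT : Dec Hp T k) (hT' : Dec Hp T' k)
    (h : ∀ v, v ∉ k → Sso (T v) (T' v)) (h1 : Ok (Ht T)) (h2 : Ok (Ht T'))
    {f : (V → ℤ) → ℝ} (hf : Monotone f) (hd : DependsOn f kᶜ) : Ex (Ht T) f ≤ Ex (Ht T') f := by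
  obtain ⟨A, hA, eA⟩ := hT.split
  obtain ⟨A', hA', eA'⟩ := hT'.split
  have hZ : Dep k {w : V → ℤ | ∀ v ∈ k, w v = (0 : V → ℤ) v} := fun x y e hx v hv =>
    e v hv ▸ hx v hv
  unfold Ht at *
  rw [eA] at h1 ⊢
  rw [eA'] at h2 ⊢
  have o1 := ok_prod hA (dep_In _ _ _) h1 0
  have o2 := ok_prod hA' (dep_In _ _ _) h2 0
  rw [ex_prod hA hZ (dep_In _ _ _) h1 o1 hd, ex_prod hA' hZ (dep_In _ _ _) h2 o2 hd]
  refine (hol_id fun a ha b hb => ?_).ex_le o1 o2 hf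
  exact ⟨⟨fun v hv => by simp [ha.1 v hv, hb.1 v hv],
      fun u hu v hv e => (ha.2.1 u hu v hv e).inf (hb.2.1 u hu v hv e),
      fun v hv => (h v hv _ (ha.2.2 v hv) _ (hb.2.2 v hv)).1⟩,
    fun v hv => by simp [ha.1 v hv, hb.1 v hv],
      fun u hu v hv e => (ha.2.1 u hu v hv e).sup (hb.2.1 u hu v hv e),
      fun v hv => (h v hv _ (ha.2.2 v hv) _ (hb.2.2 v hv)).2⟩

lemma dec_frz (R : S → S → Prop) (T : V → Set S) (D : Set V) (x : V → S) :
    Dec R (frz T Dᶜ x) (cl D)ᶜ := fun _ hu _ _ a =>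
  Or.inl (frz_sub fun hD => hu (mem_cl hD a.symm))

/-- comparison of two height models that are ordered on the outer boundary of `D` -/
theorem ht_le_bd {T T' : V → Set ℤ} {D : Set V} {E E' : Set (V → ℤ)} (hE : Dep Dᶜ E)
    (hE' : Dep Dᶜ E') (h : ∀ v ∈ D, Sso (T v) (T' v))
    (hb : ∀ x ∈ Ht T ∩ E, ∀ y ∈ Ht T' ∩ E', ∀ v ∈ cl D, v ∉ D → x v ≤ y v)
    (h1 : Ok (Ht T ∩ E)) (h2 : Ok (Ht T' ∩ E')) {f : (V → ℤ) → ℝ} (hf : Monotone f)
    (hd : DependsOn f (cl D)) : Ex (Ht T ∩ E) f ≤ Ex (Ht T' ∩ E') f := by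
  have key : ∀ {T : V → Set ℤ} {E : Set (V → ℤ)}, Dep Dᶜ E → ∀ x ∈ Ht T ∩ E,
      Ht T ∩ E ∩ {y | ∀ v ∈ Dᶜ, y v = x v} = Ht (frz T Dᶜ x) := fun hE x hx => by
    unfold Ht
    rw [Loc_frz]
    ext y
    exact ⟨fun h => ⟨h.1.1, h.2⟩, fun h => ⟨⟨h.1, hE x y (fun v hv => (h.2 v hv).symm) hx.2⟩, h.2⟩⟩
  rw [ex_stop (stop_const Dᶜ) (Ht T ∩ E), ex_stop (stop_const Dᶜ) (Ht T' ∩ E')]
  refine ex_le h1 fun x hx => le_ex h2 fun y hy => ?_
  have o1 := Ok.inter (A := {z | ∀ v ∈ Dᶜ, z v = x v}) h1.1 hx fun _ _ => rfl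
  have o2 := Ok.inter (A := {z | ∀ v ∈ Dᶜ, z v = y v}) h2.1 hy fun _ _ => rfl
  rw [key hE x hx] at o1 ⊢
  rw [key hE' y hy] at o2 ⊢
  refine ht_le_dec (dec_frz _ _ _ _) (dec_frz _ _ _ _) (fun v hv => ?_) o1 o2 hf (by simpa)
  by_cases hD : v ∈ D
  · rw [frz_off (not_not.2 hD), frz_off (not_not.2 hD)]
    exact h v hD
  · refine sso_of_le fun a ha b hb' => ?_
    rw [ha.2 hD, hb'.2 hD]
    exact hb x hx y hy v (not_not.1 hv) hD

end Pool.Agent.Lib.MP_6359c9_pr
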