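import Pool.Agent.Lib.MP_6359c9_pr.SpB

/-! The two spin model: product formula, Holley inequalities for the red spins, symmetries,
and the bijection with height functions. -/

namespace Pool.Agent.Lib.MP_6359c9_pr

open Set

/-- two spin configurations: red and blue, `true` is plus -/
abbrev Cf := V → Bool × Bool

/-- neighbours agree in one of the two colours -/
def Cp (a b : Bool × Bool) : Prop := a.1 = b.1 ∨ a.2 = b.2

/-- valid spin configurations with value in `T v` at `v` -/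
abbrev Sp (T : V → Set (Bool × Bool)) : Set Cf := Loc Cp T

/-- the red spins -/
def red (w : Cf) : V → Bool := fun v => (w v).1

/-- the blue spins -/
def blue (w : Cf) : V → Bool := fun v => (w v).2

/-- red in `ρ v`, blue plus off `L` -/
def tm (ρ : V → Set Bool) (L : Set V) (v : V) : Set (Bool × Bool) :=
  {a | a.1 ∈ ρ v ∧ (v ∉ L → a.2 = true)}

/-- the value `s` off `U` -/
def off (s : Bool) (U : Set V) (v : V) : Set Bool := {a | v ∉ U → a = s}

/-- red plus off `U`, blue plus off `L` -/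
abbrev pp (U L : Set V) : V → Set (Bool × Bool) := tm (off true U) L

/-- the red double plus model in `U` -/
abbrev PP (U : Set V) : Set Cf := Sp (pp U (cl U))

/-- valid configurations with blue plus off `L` -/
abbrev BL (L : Set V) : Set Cf := Sp (tm (fun _ => univ) L)

lemma Cp.symm {a b : Bool × Bool} (h : Cp a b) : Cp b a := h.imp Eq.symm Eq.symm

lemma Sp_tm (ρ : V → Set Bool) (L : Set V) :
    Sp (tm ρ L) = BL L ∩ red ⁻¹' {r | ∀ v, r v ∈ ρ v} :=
  Set.ext fun _ => ⟨fun h => ⟨⟨h.1, fun v => ⟨trivial, (h.2 v).2⟩⟩, fun v => (h.2 v).1⟩,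
    fun h => ⟨h.1.1, fun v => ⟨h.2 v, (h.1.2 v).2⟩⟩⟩

lemma tm_finite {ρ : V → Set Bool} {U L : Set V} (hU : U.Finite) (hL : L.Finite)
    (h : ∀ v, v ∉ U → (ρ v).Subsingleton) : (Sp (tm ρ L)).Finite :=
  Loc_finite (hU.union hL) fun v hv _ ha _ hb => Prod.ext (h v (fun h => hv (Or.inl h)) ha.1 hb.1)
    ((ha.2 fun h => hv (Or.inr h)).trans (hb.2 fun h => hv (Or.inr h)).symm)

lemma off_sub {s : Bool} {U : Set V} {v : V} (hv : v ∉ U) : (off s U v).Subsingleton :=
  fun _ ha _ hb => (ha hv).trans (hb hv).symm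

/-- every red configuration is compatible with the constant blue one -/
lemma mem_tm {ρ : V → Set Bool} (L : Set V) {r : V → Bool} (h : ∀ v, r v ∈ ρ v) :
    (fun v => (r v, true)) ∈ Sp (tm ρ L) := ⟨fun _ _ _ => Or.inr rfl, fun v => ⟨h v, fun _ => rfl⟩⟩

lemma ok_off (s : Bool) {U L : Set V} (hU : U.Finite) (hL : L.Finite) :
    Ok (Sp (tm (off s U) L)) :=
  ⟨tm_finite hU hL fun _ => off_sub, _, mem_tm L (r := fun _ => s) fun _ _ => rfl⟩

lemma ok_PP {U : Set V} (hU : U.Finite) : Ok (PP U) := ok_off true hU (cl_finite hU)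

/-! ### the product formula -/

/-- functions that vanish off `L` and only change along edges with both ends in `P` -/
def Kc (P L : Set V) : Set (V → ZMod 2) :=
  {c | (∀ v, v ∉ L → c v = 0) ∧ ∀ u v, Adj u v → ¬(u ∈ P ∧ v ∈ P) → c u = c v}

lemma Kc_finite (P : Set V) {L : Set V} (hL : L.Finite) : (Kc P L).Finite :=
  (finite_pi (T := fun v => {a | v ∉ L → a = 0}) hL (fun _ _ => Set.toFinite _)
    fun _ hv _ ha _ hb => (ha hv).trans (hb hv).symm).subset fun _ hc => hc.1

lemma Kc_sub {P P' Q L L' N : Set V} {a b : V → ZMod 2} (ha : a ∈ Kc P L) (hb : b ∈ Kc P' L')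
    (h1 : P ⊆ Q) (h2 : P' ⊆ Q) (h3 : ∀ v, v ∉ N → a v = 0) (h4 : ∀ v, v ∉ N → b v = 0) :
    a - b ∈ Kc Q N :=
  ⟨fun v hv => by rw [Pi.sub_apply, h3 v hv, h4 v hv, sub_zero], fun u v e h => by
    rw [Pi.sub_apply, Pi.sub_apply, ha.2 u v e fun h' => h ⟨h1 h'.1, h1 h'.2⟩,
      hb.2 u v e fun h' => h ⟨h2 h'.1, h2 h'.2⟩]⟩

lemma Kc_inter {P P' Q L L' : Set V} {a : V → ZMod 2} (ha : a ∈ Kc P L) (hb : a ∈ Kc P' L')
    (h : P ∩ P' ⊆ Q) : a ∈ Kc Q L ∧ a ∈ Kc Q L' := by
  have : ∀ u v, Adj u v → ¬(u ∈ Q ∧ v ∈ Q) → a u = a v := fun u v e hQ => by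
    by_cases h1 : u ∈ P ∧ v ∈ P
    · exact hb.2 u v e fun h2 => hQ ⟨h ⟨h1.1, h2.1⟩, h ⟨h1.2, h2.2⟩⟩
    · exact ha.2 u v e h1
  exact ⟨⟨ha.1, this⟩, hb.1, this⟩

lemma zm_true : ∀ a : ZMod 2, decide (a = 0) = true ↔ a = 0 := by decide

lemma zm_inj : ∀ a b : ZMod 2, decide (a = 0) = decide (b = 0) ↔ a = b := by decide

lemma zm_bool : ∀ b : Bool, decide ((if b = true then 0 else 1 : ZMod 2) = 0) = b := by decide

/-- the number of blue configurations compatible with `r` -/
theorem wt_red {L : Set V} (hL : L.Finite) (hc : CoConn L) (r : V → Bool) :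
    wt (BL L) red r = (Kc (lev r true) L).ncard * (Kc (lev r false) L).ncard := by
  classical
  obtain ⟨o, ho⟩ := hL.exists_notMem
  have B : BijOn (fun (p : (V → ZMod 2) × (V → ZMod 2)) v => (r v, decide (p.1 v + p.2 v = 0)))
      (Kc (lev r true) L ×ˢ Kc (lev r false) L) (BL L ∩ {x | red x = r}) := by
    refine ⟨?_, ?_, ?_⟩
    · rintro ⟨a, b⟩ ⟨ha, hb⟩
      dsimp only at ha hb
      refine ⟨⟨fun u v e => ?_, fun v => ⟨trivial, fun hv => ?_⟩⟩, rfl⟩
      · by_cases h : r u = r v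
        · exact Or.inl h
        · refine Or.inr ((zm_inj _ _).2 ?_)
          dsimp only
          rw [ha.2 u v e fun h' => h (h'.1.trans h'.2.symm),
            hb.2 u v e fun h' => h (h'.1.trans h'.2.symm)]
      · simp [ha.1 v hv, hb.1 v hv]
    · rintro ⟨a, b⟩ ⟨ha, hb⟩ ⟨a', b'⟩ ⟨ha', hb'⟩ e
      dsimp only at ha hb ha' hb'
      have e1 : ∀ v, a v + b v = a' v + b' v := fun v =>
        (zm_inj _ _).1 (congrArg Prod.snd (congrFun e v))
      have e2 : ∀ v, a o - a' o = a v - a' v := fun v =>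
        (conn_univ o v).const (f := fun v => a v - a' v) fun x _ y _ xy => by
          by_cases h : x ∈ lev r true ∧ y ∈ lev r true
          · have h' : ¬(x ∈ lev r false ∧ y ∈ lev r false) := fun h' =>
              Bool.noConfusion (h.1.symm.trans h'.1)
            linear_combination e1 x - e1 y - hb.2 x y xy h' + hb'.2 x y xy h'
          · rw [ha.2 x y xy h, ha'.2 x y xy h]
      have e3 : ∀ v, a v = a' v := fun v => by
        have := e2 v
        rw [ha.1 o ho, ha'.1 o ho, sub_zero] at this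
        exact sub_eq_zero.1 this.symm
      refine Prod.ext (funext e3) (funext fun v => ?_)
      have := e1 v
      rw [e3 v] at this
      exact add_left_cancel this
    · rintro w ⟨hw, rfl⟩
      set c : V → ZMod 2 := fun v => if (w v).2 = true then 0 else 1 with hcd
      have hθ : ∀ u v, Adj u v → (w u).1 ≠ (w v).1 → c u = c v := fun u v e h => by
        simp only [hcd, (hw.1 u v e).resolve_left h]
      obtain ⟨g, hg⟩ := exact (fun u v => if (w u).1 = true ∧ (w v).1 = true then c v - c u else 0)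
        (fun u v _ => by
          by_cases h1 : (w u).1 = true <;> by_cases h2 : (w v).1 = true <;> simp [h1, h2])
        fun u v x e1 e2 e3 => by
          have t1 := hθ u v e1
          have t2 := hθ v x e2
          have t3 := hθ u x e3
          by_cases h1 : (w u).1 = true <;> by_cases h2 : (w v).1 = true <;>
            by_cases h3 : (w x).1 = true <;> simp only [h1, h2, h3] at * <;> simp_all
      have c0 : ∀ v, v ∉ L → c v = 0 := fun v hv => by simp only [hcd, (hw.2 v).2 hv, if_true]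
      have g0 : ∀ v, v ∉ L → g v - g o = 0 := fun v hv => by
        rw [← (hc o ho v hv).const (f := g) fun x hx y hy xy => by
          rw [hg x y xy, c0 x hx, c0 y hy]; simp, sub_self]
      refine ⟨(fun v => g v - g o, fun v => c v - (g v - g o)), ⟨⟨g0, fun u v e h => ?_⟩,
        fun v hv => by simp only [c0 v hv, g0 v hv, sub_zero], fun u v e h => ?_⟩, ?_⟩
      · simp only
        rw [hg u v e, if_neg (show ¬((w u).1 = true ∧ (w v).1 = true) from h), add_zero]
      · simp only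
        rw [hg u v e]
        split_ifs with h1
        · ring
        · rw [hθ u v e fun h2 => ?_, add_zero]
          cases h3 : (w u).1
          · exact h ⟨h3, h2.symm.trans h3⟩
          · exact h1 ⟨h3, h2.symm.trans h3⟩
      · ext v
        · rfl
        · simp only [add_sub_cancel, hcd, zm_bool]
  rw [wt, ← Set.ncard_prod, ← B.image_eq, B.injOn.ncard_image]

lemma lev_sup (a b : V → Bool) : lev (a ⊔ b) true = lev a true ∪ lev b true := by
  ext v; simp [lev]

lemma lev_inf (a b : V → Bool) : lev (a ⊓ b) true = lev a true ∩ lev b true := by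
  ext v; simp [lev]

lemma lev_sup' (a b : V → Bool) : lev (a ⊔ b) false = lev a false ∩ lev b false := by
  ext v; simp [lev]

lemma lev_inf' (a b : V → Bool) : lev (a ⊓ b) false = lev a false ∪ lev b false := by
  ext v; cases h : a v <;> simp [lev, h]

/-- Holley condition for the red spins, with effective inclusions of the blue domains -/
theorem hol_red {L L' : Set V} (hL : L.Finite) (hc : CoConn L) (hL' : L'.Finite) (hc' : CoConn L')
    {A A' : Set (V → Bool)} (hA : Sso A A')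
    (hp : ∀ r ∈ A, ∀ c ∈ Kc (lev r true) L, ∀ v, v ∉ L' → c v = 0)
    (hm : ∀ r ∈ A', ∀ c ∈ Kc (lev r false) L', ∀ v, v ∉ L → c v = 0) :
    Hol (BL L ∩ red ⁻¹' A) red (BL L' ∩ red ⁻¹' A') red := by
  classical
  intro a b
  simp only [wt_inter]
  by_cases ha : a ∈ A
  swap
  · simp [ha]
  by_cases hb : b ∈ A'
  swap
  · simp [hb]
  simp only [ha, hb, (hA a ha b hb).1, (hA a ha b hb).2, if_true, wt_red hL hc, wt_red hL' hc']
  have self : ∀ P N : Set V, ∀ x ∈ Kc P N, ∀ y ∈ Kc P N, x - y ∈ Kc P N := fun P N x hx y hy =>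
    Kc_sub hx hy subset_rfl subset_rfl hx.1 hy.1
  have h1 := card_mul_le (Kc_finite (lev (a ⊔ b) true) hL') (Kc_finite (lev (a ⊓ b) true) hL)
    (self (lev a true) L) (self (lev b true) L')
    (fun x hx y hy => Kc_sub hx hy (by rw [lev_sup]; exact subset_union_left)
      (by rw [lev_sup]; exact subset_union_right) (hp a ha x hx) hy.1)
    fun x hx hy => (Kc_inter hx hy (lev_inf a b).ge).1
  have h2 := card_mul_le (Kc_finite (lev (a ⊓ b) false) hL) (Kc_finite (lev (a ⊔ b) false) hL')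
    (self (lev a false) L) (self (lev b false) L')
    (fun x hx y hy => Kc_sub hx hy (by rw [lev_inf']; exact subset_union_left)
      (by rw [lev_inf']; exact subset_union_right) hx.1 (hm b hb y hy))
    fun x hx hy => (Kc_inter hx hy (lev_sup' a b).ge).2
  calc _ = ((Kc (lev a true) L).ncard * (Kc (lev b true) L').ncard) *
        ((Kc (lev a false) L).ncard * (Kc (lev b false) L').ncard) := by ring
    _ ≤ _ := Nat.mul_le_mul h1 h2
    _ = _ := by ring

theorem hol_red_same {L : Set V} (hL : L.Finite) (hc : CoConn L) {A A' : Set (V → Bool)}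
    (hA : Sso A A') : Hol (BL L ∩ red ⁻¹' A) red (BL L ∩ red ⁻¹' A') red :=
  hol_red hL hc hL hc hA (fun _ _ _ h => h.1) fun _ _ _ h => h.1

lemma sso_pi {ρ ρ' : V → Set Bool} (h : ∀ v, Sso (ρ v) (ρ' v)) :
    Sso {r : V → Bool | ∀ v, r v ∈ ρ v} {r | ∀ v, r v ∈ ρ' v} :=
  fun _ ha _ hb => ⟨fun v => (h v _ (ha v) _ (hb v)).1, fun v => (h v _ (ha v) _ (hb v)).2⟩

theorem hol_tm {L : Set V} (hL : L.Finite) (hc : CoConn L) {ρ ρ' : V → Set Bool}
    (h : ∀ v, Sso (ρ v) (ρ' v)) : Hol (Sp (tm ρ L)) red (Sp (tm ρ' L)) red := by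
  rw [Sp_tm, Sp_tm]
  exact hol_red_same hL hc (sso_pi h)

/-- FKG for the red spins -/
theorem hol_tm_self {L : Set V} (hL : L.Finite) (hc : CoConn L) (ρ : V → Set Bool) :
    Hol (Sp (tm ρ L)) red (Sp (tm ρ L)) red := hol_tm hL hc fun v => sso_refl (ρ v)

/-- a function of `Kc P L'` vanishes on a connected set that misses `P` and leaves `L'` -/
lemma Kc_zero {P L L' : Set V} (hL : L.Finite) (hc : CoConn L) (hL' : L'.Finite) (hP : P ⊆ L)
    {c : V → ZMod 2} (h : c ∈ Kc P L') (v : V) (hv : v ∉ L) : c v = 0 := by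
  obtain ⟨o, ho⟩ := (hL.union hL').exists_notMem
  rw [← h.1 o fun h => ho (Or.inr h)]
  exact (hc v hv o fun h => ho (Or.inl h)).const fun x hx y _ xy => h.2 x y xy fun h' => hx (hP h'.1)

/-! ### symmetries -/

lemma wt_bij {Ω Ω' Λ : Type} {M : Set Ω} {N : Set Ω'} {φ : Ω → Ω'} (h : BijOn φ M N) (q : Ω' → Λ)
    (a : Λ) : wt M (fun x => q (φ x)) a = wt N q a := by
  have B : BijOn φ (M ∩ {x | q (φ x) = a}) (N ∩ {y | q y = a}) :=
    ⟨fun x hx => ⟨h.1 hx.1, hx.2⟩, h.injOn.mono inter_subset_left, fun y hy => by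
      obtain ⟨x, hx, rfl⟩ := h.2.2 hy.1
      exact ⟨x, ⟨hx, hy.2⟩, rfl⟩⟩
  rw [wt, wt, ← B.image_eq, B.injOn.ncard_image]

lemma Hol.bij {Ω₁ Ω₂ Ω₃ Ω₄ Λ : Type} [DistribLattice Λ] {M : Set Ω₁} {N : Set Ω₂} {M' : Set Ω₃}
    {N' : Set Ω₄} {φ : Ω₁ → Ω₂} {φ' : Ω₃ → Ω₄} {q : Ω₂ → Λ} {q' : Ω₄ → Λ} (h : Hol N q N' q')
    (b : BijOn φ M N) (b' : BijOn φ' M' N') :
    Hol M (fun x => q (φ x)) M' fun x => q' (φ' x) := fun x y => by
  simp only [wt_bij b, wt_bij b']
  exact h x y

/-- exchange of the two colours -/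
def sw (w : Cf) : Cf := fun v => (w v).swap

/-- flip of the red spins -/
def fr (w : Cf) : Cf := fun v => (!(w v).1, (w v).2)

/-- flip of the blue spins -/
def fb (w : Cf) : Cf := fun v => ((w v).1, !(w v).2)

theorem bij_sw {T T' : V → Set (Bool × Bool)} (h : ∀ v a, a.swap ∈ T' v ↔ a ∈ T v) :
    BijOn sw (Sp T) (Sp T') :=
  bij_loc aut_refl (Equiv.prodComm _ _) (fun _ _ => Or.comm) h

theorem bij_fr {T T' : V → Set (Bool × Bool)} (h : ∀ v a, (!a.1, a.2) ∈ T' v ↔ a ∈ T v) :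
    BijOn fr (Sp T) (Sp T') :=
  bij_loc aut_refl (Equiv.prodCongr Equiv.boolNot (Equiv.refl _))
    (fun a b => by simp [Cp]) h

theorem bij_fb {T T' : V → Set (Bool × Bool)} (h : ∀ v a, (a.1, !a.2) ∈ T' v ↔ a ∈ T v) :
    BijOn fb (Sp T) (Sp T') :=
  bij_loc aut_refl (Equiv.prodCongr (Equiv.refl _) Equiv.boolNot)
    (fun a b => by simp [Cp]) h

/-- blue in `ρ v`, red plus off `L` -/
def tb (ρ : V → Set Bool) (L : Set V) (v : V) : Set (Bool × Bool) :=
  {a | a.2 ∈ ρ v ∧ (v ∉ L → a.1 = true)}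

theorem bij_tb (ρ : V → Set Bool) (L : Set V) : BijOn sw (Sp (tb ρ L)) (Sp (tm ρ L)) :=
  bij_sw fun _ _ => Iff.rfl

lemma pp_eq_tb (U L : Set V) : pp U L = tb (off true L) U :=
  funext fun _ => Set.ext fun _ => And.comm

/-- Holley condition for the blue spins -/
theorem hol_tb {L : Set V} (hL : L.Finite) (hc : CoConn L) {ρ ρ' : V → Set Bool}
    (h : ∀ v, Sso (ρ v) (ρ' v)) : Hol (Sp (tb ρ L)) blue (Sp (tb ρ' L)) blue :=
  (hol_tm hL hc h).bij (bij_tb ρ L) (bij_tb ρ' L)

theorem bij_PP {g : V ≃ V} (hg : Aut g) (U : Set V) :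
    BijOn (fun (w : Cf) v => w (g v)) (PP U) (PP (g ⁻¹' U)) := by
  have := bij_aut Cp (pp U (cl U)) hg
  unfold PP
  rw [← hg.cl]
  exact this

/-! ### heights and spins -/

/-- the spins of a height: red plus on `0, 1`, blue plus on `3, 0` modulo four -/
def sp1 (a : ℤ) : Bool × Bool := (decide (a % 4 = 0 ∨ a % 4 = 1), decide (a % 4 = 3 ∨ a % 4 = 0))

/-- the spins of a height function -/
def spn (g : V → ℤ) : Cf := fun v => sp1 (g v)

/-- the residue modulo four with given spins -/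
def ck (s : Bool × Bool) : ℤ := if s.1 then (if s.2 then 0 else 1) else if s.2 then 3 else 2

lemma sp1_red {a : ℤ} : (sp1 a).1 = true ↔ a % 4 = 0 ∨ a % 4 = 1 := by simp [sp1]

lemma sp1_red' {a : ℤ} : (sp1 a).1 = false ↔ a % 4 = 2 ∨ a % 4 = 3 := by simp [sp1]; omega

lemma sp1_blue {a : ℤ} : (sp1 a).2 = true ↔ a % 4 = 3 ∨ a % 4 = 0 := by simp [sp1]

lemma sp1_blue' {a : ℤ} : (sp1 a).2 = false ↔ a % 4 = 1 ∨ a % 4 = 2 := by simp [sp1]; omega

lemma sp1_eq {a b : ℤ} : sp1 a = sp1 b ↔ a % 4 = b % 4 := by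
  simp only [sp1, Prod.mk.injEq, decide_eq_decide]; omega

lemma sp1_ck : ∀ s, sp1 (ck s) = s := by decide

lemma ck_cp : ∀ a b, Cp a b → (ck b - ck a) % 4 ≠ 2 := by unfold Cp; decide

lemma Hp.cp {a b : ℤ} (h : Hp a b) : Cp (sp1 a) (sp1 b) := by
  unfold Hp at h
  simp only [Cp, sp1, decide_eq_decide]; omega

/-- heights that lie in `{0, 1}` off `U` correspond to spins with red plus off `U` -/
theorem bij_spn {U : Set V} (hU : U.Finite) (hc : CoConn U) {T : V → Set ℤ}
    {T' : V → Set (Bool × Bool)} (h1 : ∀ v, v ∉ U → ∀ a ∈ T v, a = 0 ∨ a = 1)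
    (h2 : ∀ v, v ∉ U → ∀ s ∈ T' v, s.1 = true)
    (h : ∀ v a, (v ∉ U → a = 0 ∨ a = 1) → (a ∈ T v ↔ sp1 a ∈ T' v)) :
    BijOn spn (Ht T) (Sp T') := by
  obtain ⟨o, ho⟩ := hU.exists_notMem
  refine ⟨fun g hg => ⟨fun u v e => (hg.1 u v e).cp,
    fun v => (h v _ fun hv => h1 v hv _ (hg.2 v)).1 (hg.2 v)⟩, fun g hg g' hg' e => ?_,
    fun w hw => ?_⟩
  · have e1 : ∀ v, g v % 4 = g' v % 4 := fun v => sp1_eq.1 (congrFun e v)
    refine funext fun v => (conn_univ o v).ind (P := fun x => g x = g' x) ?_ ?_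
    · have := e1 o
      have := h1 o ho _ (hg.2 o)
      have := h1 o ho _ (hg'.2 o)
      omega
    · intro a b _ ab _ ih
      have := e1 b
      have t1 := hg.1 a b ab
      have t2 := hg'.1 a b ab
      unfold Hp at t1 t2
      omega
  · obtain ⟨g, hm, hg⟩ := lift (fun v => ck (w v)) fun u v e => ck_cp _ _ (hw.1 u v e)
    have k1 : ∀ v, v ∉ U → ck (w v) = 0 ∨ ck (w v) = 1 := fun v hv => by
      simp only [ck, h2 v hv _ (hw.2 v), if_true]
      split_ifs <;> simp
    have e : ∀ v, sp1 (g v - g o + ck (w o)) = w v := fun v => by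
      rw [← sp1_ck (w v), sp1_eq]
      have := hm v
      have := hm o
      omega
    have z : ∀ v, v ∉ U → g v - g o + ck (w o) = ck (w v) := fun v hv => by
      refine (hc o ho v hv).ind (P := fun x => g x - g o + ck (w o) = ck (w x)) (by simp) ?_
      intro a b ha ab hb ih
      have := hg a b ab
      have := k1 a ha.right
      have := k1 b hb
      omega
    refine ⟨fun v => g v - g o + ck (w o), ⟨fun u v a => ?_, fun v => (h v _ fun hv => ?_).2 ?_⟩,
      funext e⟩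
    · have := hg u v a
      have := ck_cp _ _ (hw.1 u v a)
      unfold Hp
      beta_reduce
      omega
    · beta_reduce
      rw [z v hv]; exact k1 v hv
    · beta_reduce
      rw [e v]; exact hw.2 v

/-- heights in `{k, k + 1}` off `U` and equal to `k` off `L` -/
def dd (k : ℤ) (U L : Set V) (v : V) : Set ℤ :=
  {a | (v ∉ U → a = k ∨ a = k + 1) ∧ (v ∉ L → a = k)}

theorem bij_dd {U L : Set V} (hU : U.Finite) (hc : CoConn U) (hL : U ⊆ L) :
    BijOn spn (Ht (dd 0 U L)) (Sp (pp U L)) :=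
  bij_spn hU hc (fun _ hv _ ha => by simpa using ha.1 hv) (fun _ hv _ hs => hs.1 hv)
    fun v a h => by
      have := @hL v
      simp only [dd, tm, off, mem_ofPred_eq, sp1_red, sp1_blue]
      by_cases h1 : v ∈ U <;> by_cases h2 : v ∈ L <;> simp_all <;> omega

/-- shift of the heights -/
theorem bij_shift {T T' : V → Set ℤ} (k : ℤ) (h : ∀ v a, a + k ∈ T' v ↔ a ∈ T v) :
    BijOn (fun (g : V → ℤ) v => g v + k) (Ht T) (Ht T') :=
  bij_loc aut_refl (Equiv.addRight k) (fun a b => by simp only [Hp, Equiv.coe_addRight]; omega) h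

/-- reflection of the heights -/
theorem bij_neg {T T' : V → Set ℤ} (k : ℤ) (h : ∀ v a, k - a ∈ T' v ↔ a ∈ T v) :
    BijOn (fun (g : V → ℤ) v => k - g v) (Ht T) (Ht T') :=
  bij_loc aut_refl (Equiv.subLeft k) (fun a b => by simp only [Hp, Equiv.subLeft_apply]; omega) h

theorem bij_dd_shift (k j : ℤ) (U L : Set V) :
    BijOn (fun (g : V → ℤ) v => g v + j) (Ht (dd k U L)) (Ht (dd (k + j) U L)) :=
  bij_shift j fun v a => by
    simp only [dd, mem_ofPred_eq]
    by_cases h1 : v ∈ U <;> by_cases h2 : v ∈ L <;> simp [h1, h2] <;> omega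

end Pool.Agent.Lib.MP_6359c9_pr
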