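import Pool.Agent.Lib.MP_6359c9_pr.SpD
import Pool.Agent.Lib.MP_6359c9_pr.Casc

/-! Favourable RSW estimate: double plus rings in the double plus model. -/

namespace Pool.Agent.Lib.MP_6359c9_pr

open Set

lemma pow_le_biInter {α ι : Type} {q : Set α → ℝ} {Up : Set α → Prop} (hu : Up univ)
    (hi : ∀ A B, Up A → Up B → Up (A ∩ B)) (q1 : 1 ≤ q univ) (q0 : ∀ A, 0 ≤ q A)
    (fkg : ∀ A B, Up A → Up B → q A * q B ≤ q (A ∩ B)) {c : ℝ} (hc : 0 ≤ c) (s : Finset ι)
    {A : ι → Set α} (hA : ∀ i ∈ s, Up (A i) ∧ c ≤ q (A i)) :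
    Up (⋂ i ∈ s, A i) ∧ c ^ s.card ≤ q (⋂ i ∈ s, A i) := by
  classical
  induction s using Finset.induction_on with
  | empty => simpa using ⟨hu, q1⟩
  | insert i s hs ih =>
    obtain ⟨h1, h2⟩ := ih fun j hj => hA j (Finset.mem_insert_of_mem hj)
    obtain ⟨h3, h4⟩ := hA i (Finset.mem_insert_self i s)
    rw [Finset.set_biInter_insert, Finset.card_insert_of_notMem hs, pow_succ']
    exact ⟨hi _ _ h3 h1, (mul_le_mul h4 h2 (pow_nonneg hc _) (q0 _)).trans (fkg _ _ h3 h1)⟩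

/-- a bounded number of small boxes covers a set -/
lemma cover (L K : ℕ) : ∃ N : ℕ, ∀ (d : ℤ) (x : V) (I : Set V), 1 ≤ d → I ⊆ Bx x (L * d) →
    ∃ (r : ℤ) (s : Finset V), 0 ≤ r ∧ s.card ≤ N ∧
      (∀ z ∈ s, ∃ u ∈ I, Bx z (K * r + 1) ⊆ Bx u d) ∧ ∀ u ∈ I, ∃ z ∈ s, u ∈ Bx z r := by
  classical
  set n : ℤ := L * (K + 1) + 1 with hn
  refine ⟨(Finset.Icc (-n) n ×ˢ Finset.Icc (-n) n).card, fun d x I hd hI => ?_⟩
  set r := (d - 1) / (K + 1) with hr
  have k0 : (0 : ℤ) < K + 1 := by positivity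
  have r0 : 0 ≤ r := Int.ediv_nonneg (by omega) k0.le
  have r1 : r * (K + 1) ≤ d - 1 := Int.ediv_mul_le _ k0.ne'
  have r2 : d - 1 < (r + 1) * (K + 1) := Int.lt_ediv_add_one_mul_self _ k0
  have q0 : 0 < 2 * r + 1 := by omega
  have hL : (L : ℤ) * d ≤ L * (K + 1) * (2 * r + 1) := by
    rw [mul_assoc]
    exact mul_le_mul_of_nonneg_left (by nlinarith) (by positivity)
  have key : ∀ t : ℤ, -(L * d) ≤ t → t ≤ L * d →
      ∃ i, (-n ≤ i ∧ i ≤ n) ∧ i * (2 * r + 1) - r ≤ t ∧ t ≤ i * (2 * r + 1) + r := by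
    intro t h1 h2
    have a1 := Int.ediv_mul_le (t + r) q0.ne'
    have a2 := Int.lt_ediv_add_one_mul_self (t + r) q0
    refine ⟨(t + r) / (2 * r + 1), ⟨?_, ?_⟩, by linarith, by linarith⟩
    · by_contra h
      push Not at h
      nlinarith
    · by_contra h
      push Not at h
      nlinarith
  refine ⟨r, ((Finset.Icc (-n) n ×ˢ Finset.Icc (-n) n).image fun p =>
    (x.1 + p.1 * (2 * r + 1), x.2 + p.2 * (2 * r + 1))).filter fun z => ∃ u ∈ I, u ∈ Bx z r, r0,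
    (Finset.card_filter_le _ _).trans Finset.card_image_le, fun z hz => ?_, fun u hu => ?_⟩
  · obtain ⟨u, hu, h⟩ := (Finset.mem_filter.1 hz).2
    refine ⟨u, hu, fun v hv => ?_⟩
    rw [mem_Bx] at *
    have : r * (K + 1) = K * r + r := by ring
    omega
  · have h := hI hu
    rw [mem_Bx] at h
    obtain ⟨i, hi, h1⟩ := key (u.1 - x.1) (by omega) (by omega)
    obtain ⟨j, hj, h2⟩ := key (u.2 - x.2) (by omega) (by omega)
    have hb : u ∈ Bx (x.1 + i * (2 * r + 1), x.2 + j * (2 * r + 1)) r := by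
      rw [mem_Bx]; simp only; omega
    exact ⟨_, Finset.mem_filter.2 ⟨Finset.mem_image.2 ⟨(i, j), by simp [hi, hj], rfl⟩, u, hu, hb⟩,
      hb⟩

/-- from boxes to arbitrary shapes -/
lemma local_of_box (L K : ℕ) {c : ℝ} (hc : 0 < c) : ∃ c' > 0, ∀ {α : Type} (q : Set α → ℝ)
    (Up : Set α → Prop), Up univ → (∀ A B, Up A → Up B → Up (A ∩ B)) → 1 ≤ q univ →
    (∀ A, 0 ≤ q A) → (∀ A B, A ⊆ B → q A ≤ q B) →
    (∀ A B, Up A → Up B → q A * q B ≤ q (A ∩ B)) →
    ∀ (d : ℤ) (x : V) (I : Set V), 1 ≤ d → I ⊆ Bx x (L * d) → ∀ (G : V → ℤ → Set α) (E : Set α),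
    (∀ z r, 0 ≤ r → (∃ u ∈ I, Bx z (K * r + 1) ⊆ Bx u d) → Up (G z r) ∧ c ≤ q (G z r)) →
    (∀ a r, (∀ u ∈ I, ∃ z, u ∈ Bx z r ∧ (∃ u ∈ I, Bx z (K * r + 1) ⊆ Bx u d) ∧ a ∈ G z r) →
      0 ≤ r → a ∈ E) → c' ≤ q E := by
  obtain ⟨N, hN⟩ := cover L K
  refine ⟨min c 1 ^ N, by positivity, fun q Up hu hi q1 q0 qm fkg d x I hd hI G E hG hE => ?_⟩
  obtain ⟨r, s, r0, h1, h2, h3⟩ := hN d x I hd hI
  have := (pow_le_biInter hu hi q1 q0 fkg (c := min c 1) (by positivity) s (A := fun z => G z r)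
    fun z hz => ⟨(hG z r r0 (h2 z hz)).1, (min_le_left _ _).trans (hG z r r0 (h2 z hz)).2⟩).2
  refine ((pow_le_pow_of_le_one (by positivity) (min_le_right _ _) h1).trans this).trans
    (qm _ _ fun a ha => hE a r (fun u hu => ?_) r0)
  obtain ⟨z, hz, h⟩ := h3 u hu
  exact ⟨z, h, h2 z hz, mem_iInter₂.1 ha z hz⟩

/-! ### the symmetries of the cascade as lattice automorphisms -/

/-- a symmetry followed by a translation -/
def gE (i : Fin 6) (a b : ℤ) : V ≃ V where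
  toFun v := ((sy i v).1 + a, (sy i v).2 + b)
  invFun v := sy (![0, 1, 2, 3, 5, 4] i) (v.1 - a, v.2 - b)
  left_inv v := by fin_cases i <;> ext <;> simp [sy] <;> omega
  right_inv v := by fin_cases i <;> ext <;> simp [sy] <;> omega

lemma gE_apply (i : Fin 6) (a b : ℤ) (v : V) : gE i a b v = ((sy i v).1 + a, (sy i v).2 + b) := rfl

lemma aut_gE (i : Fin 6) (a b : ℤ) : Aut (gE i a b) := fun u v => by
  fin_cases i <;> simp only [gE_apply, sy, Adj] <;> simp <;> omega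

lemma mvq_eq (i : Fin 6) (a b : ℤ) : mvq i a b = gE i (2 * a) (2 * b) := rfl

lemma mvq_add (i : Fin 6) (a b : ℤ) (u v : V) : mvq i a b (u + v) = gE i a b u + gE i a b v := by
  fin_cases i <;> simp only [gE_apply, sy, mvq] <;> ext <;> simp <;> omega

lemma X_map {i : Fin 6} {a b : ℤ} {S S' R A B : Set V} (h : S ∈ XC R A B)
    (hS : ∀ v ∈ S, mvq i a b v ∈ S') : S' ∈ XC (mvq i a b '' R) (mvq i a b '' A) (mvq i a b '' B) := by
  obtain ⟨u, hu, v, hv, c⟩ := h
  exact ⟨_, ⟨u, hu, rfl⟩, _, ⟨v, hv, rfl⟩, c.map (fun x y => (aut_gE i _ _ x y).2)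
    fun x hx => ⟨hS x hx.1, x, hx.2, rfl⟩⟩

/-! ### the half mesh lattice -/

/-- midpoints of the edges with both ends in `P` -/
def hm (P : Set V) : Set V := {m | ∃ u v, Adj u v ∧ u ∈ P ∧ v ∈ P ∧ m = u + v}

lemma hm_mono {P Q : Set V} (h : P ⊆ Q) : hm P ⊆ hm Q :=
  fun _ ⟨u, v, e, hu, hv, hm⟩ => ⟨u, v, e, h hu, h hv, hm⟩

lemma mid_adj {u v u' v' : V} (h : Adj u v) (h' : Adj u' v') (e : Adj (u + v) (u' + v')) :
    u = u' ∨ u = v' ∨ v = u' ∨ v = v' := by
  simp only [Adj, Prod.ext_iff, Prod.fst_add, Prod.snd_add] at *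
  rcases h with h | h | h | h | h | h <;> rcases h' with h' | h' | h' | h' | h' | h' <;> omega

lemma mid_eq {u v u' v' : V} (h : Adj u v) (h' : Adj u' v') (e : u + v = u' + v') :
    (u = u' ∧ v = v') ∨ (u = v' ∧ v = u') := by
  simp only [Adj, Prod.ext_iff, Prod.fst_add, Prod.snd_add] at *
  omega

lemma mid_ne {u v a : V} (h : Adj u v) : a + a ≠ u + v := by
  simp only [Adj, ne_eq, Prod.ext_iff, Prod.fst_add, Prod.snd_add] at *
  omega

lemma adj_mid {u v : V} (h : Adj u v) : Adj (u + u) (u + v) ∧ Adj (u + v) (v + v) := by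
  simp only [Adj, Prod.fst_add, Prod.snd_add] at *
  omega

lemma even_or_mid (m : V) : (∃ v, m = v + v) ∨ ∃ u v x, Adj u v ∧ Adj v x ∧ Adj u x ∧ m = u + v := by
  obtain ⟨a, b⟩ := m
  rcases Int.emod_two_eq_zero_or_one a with ha | ha <;>
    rcases Int.emod_two_eq_zero_or_one b with hb | hb
  · exact Or.inl ⟨(a / 2, b / 2), by ext <;> simp <;> omega⟩
  · exact Or.inr ⟨(a / 2, b / 2), (a / 2, b / 2 + 1), (a / 2 + 1, b / 2), by simp [Adj],
      by simp [Adj], by simp [Adj], by ext <;> simp <;> omega⟩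
  · exact Or.inr ⟨(a / 2, b / 2), (a / 2 + 1, b / 2), (a / 2, b / 2 + 1), by simp [Adj],
      by simp [Adj], by simp [Adj], by ext <;> simp <;> omega⟩
  · exact Or.inr ⟨(a / 2 + 1, b / 2), (a / 2, b / 2 + 1), (a / 2, b / 2), by simp [Adj],
      by simp [Adj], by simp [Adj], by ext <;> simp <;> omega⟩

lemma NConn.half {P : Set V} {u v : V} (h : NConn P univ u v) : Conn (hm P)ᶜ (u + u) (v + v) := by
  have ev : ∀ a : V, a + a ∈ (hm P)ᶜ := fun a ⟨_, _, e, _, _, h⟩ => mid_ne e h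
  refine h.ind (Q := fun x => Conn (hm P)ᶜ (u + u) (x + x)) (Conn.refl (ev u)) ?_
  intro a b _ e _ n ih
  refine (ih.tail (adj_mid e).1 ?_).tail (adj_mid e).2 (ev b)
  rintro ⟨x, y, e', hx, hy, h⟩
  rcases mid_eq e e' h with ⟨rfl, rfl⟩ | ⟨rfl, rfl⟩
  · exact n ⟨hx, hy⟩
  · exact n ⟨hy, hx⟩

/-- midpoints of the edges along which `r` is constant -/
def dbl (r : V → Bool) : Set V := {m | ∃ u v, Adj u v ∧ r u = r v ∧ m = u + v}

lemma dbl_conn {r : V → Bool} {T : Set V} {a b : V} (h : Conn (dbl r ∩ T) a b) :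
    ∃ s, Conn (hm (lev r s) ∩ T) a b := by
  obtain ⟨⟨u, v, e, huv, rfl⟩, hT⟩ := h.1
  refine ⟨r u, h.ind (P := fun x => Conn (hm (lev r (r u)) ∩ T) (u + v) x)
    (Conn.refl ⟨⟨u, v, e, rfl, huv.symm, rfl⟩, hT⟩) ?_⟩
  rintro x y - xy ⟨⟨u2, v2, e2, h2, rfl⟩, hy⟩ ih
  obtain ⟨u1, v1, e1, hu1, hv1, rfl⟩ := ih.right.1
  have : r u2 = r u := by
    rcases mid_adj e1 e2 xy with rfl | rfl | rfl | rfl
    · exact hu1
    · exact h2.trans hu1
    · exact hv1
    · exact h2.trans hv1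
  exact ih.tail xy ⟨⟨u2, v2, e2, this, h2.symm.trans this, rfl⟩, hy⟩

/-- midpoints of the edges of the triangles on which `b` is not constant -/
def yel (b : V → Bool) : Set V :=
  {m | ∃ u v x, Adj u v ∧ Adj v x ∧ Adj u x ∧ m = u + v ∧ ¬(b u = b v ∧ b v = b x)}

lemma yel_sub {T : V → Set (Bool × Bool)} {w : Cf} (hw : w ∈ Sp T) : yel (blue w) ⊆ dbl (red w) := by
  rintro m ⟨u, v, x, e1, e2, e3, rfl, h⟩
  refine ⟨u, v, e1, ?_, rfl⟩
  have h1 := hw.1 u v e1
  have h2 := hw.1 v x e2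
  have h3 := hw.1 u x e3
  unfold Cp blue red at *
  grind

/-- the six directions in cyclic order -/
def dir (i : Fin 6) : V := ![(1, 0), (0, 1), (-1, 1), (-1, 0), (0, -1), (1, -1)] i

lemma adj_dir (x : V) (i : Fin 6) : Adj x (x + dir i) ∧ Adj (x + dir i) (x + dir (i + 1)) := by
  fin_cases i <;> simp [dir, Adj] <;> omega

lemma exists_dir {x y : V} (h : Adj x y) : ∃ i, y = x + dir i := by
  obtain ⟨a, b⟩ := y
  rcases h with h | h | h | h | h | h <;> simp only at h <;> obtain ⟨rfl, rfl⟩ := h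
  · exact ⟨0, by ext <;> simp [dir]⟩
  · exact ⟨3, by ext <;> simp [dir, sub_eq_add_neg]⟩
  · exact ⟨1, by ext <;> simp [dir]⟩
  · exact ⟨4, by ext <;> simp [dir, sub_eq_add_neg]⟩
  · exact ⟨5, by ext <;> simp [dir, sub_eq_add_neg]⟩
  · exact ⟨2, by ext <;> simp [dir, sub_eq_add_neg]⟩

lemma around {S : Set V} {x : V} {i j : Fin 6}
    (hi : x + dir (i + 5) ∈ S ∧ x + dir i ∈ S ∧ x + dir (i + 1) ∈ S)
    (hj : x + dir (j + 5) ∈ S ∧ x + dir j ∈ S ∧ x + dir (j + 1) ∈ S) :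
    Conn S (x + dir i) (x + dir j) := by
  have up : ∀ k, x + dir k ∈ S → x + dir (k + 1) ∈ S → Conn S (x + dir k) (x + dir (k + 1)) :=
    fun k h1 h2 => Conn.single h1 (adj_dir x k).2 h2
  have e : ∀ k : Fin 6, k + 5 + 1 = k := by decide
  have ci := up i hi.2.1 hi.2.2
  have ci' := up (i + 5) hi.1 (by rw [e]; exact hi.2.1)
  have cj := up j hj.2.1 hj.2.2
  have cj' := up (j + 5) hj.1 (by rw [e]; exact hj.2.1)
  rw [e] at ci' cj'
  have : ∀ i j : Fin 6, j = i ∨ j = i + 1 ∨ j + 5 = i + 1 ∨ j + 5 = i + 1 + 1 ∨ j + 1 = i + 5 ∨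
      j = i + 5 := by decide
  rcases this i j with h | h | h | h | h | h
  · rw [h]; exact Conn.refl hi.2.1
  · rw [h]; exact ci
  · exact ci.trans (h ▸ cj')
  · exact (ci.trans (up _ hi.2.2 (h ▸ hj.1))).trans (h ▸ cj')
  · exact ci'.symm.trans (h ▸ cj).symm
  · rw [h]; exact ci'.symm

lemma reroute {b : V → Bool} {T : Set V} (hT : ∀ v y, v + v ∈ T → Adj (v + v) y → y ∈ T) {a c : V}
    (ha : ∀ v, a ≠ v + v) (hc : ∀ v, c ≠ v + v) (h : Conn ((yel b)ᶜ ∩ T) a c) :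
    Conn (dbl b ∩ T) a c := by
  have mid : ∀ y ∈ (yel b)ᶜ ∩ T, (∀ v, y ≠ v + v) → y ∈ dbl b ∩ T := fun y hy hv => by
    rcases even_or_mid y with ⟨v, h⟩ | ⟨u, v, x, e1, e2, e3, h⟩
    · exact absurd h (hv v)
    · refine ⟨⟨u, v, e1, ?_, h⟩, hy.2⟩
      by_contra h'
      exact hy.1 ⟨u, v, x, e1, e2, e3, h, fun h2 => h' h2.1⟩
  have good : ∀ v i, v + v ∈ T → v + v + dir i ∉ yel b → v + v + dir (i + 5) ∈ dbl b ∩ T ∧
      v + v + dir i ∈ dbl b ∩ T ∧ v + v + dir (i + 1) ∈ dbl b ∩ T := fun v i hv hi => by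
    have e : i + 5 + 1 = i := (by decide : ∀ k : Fin 6, k + 5 + 1 = k) i
    have a1 := adj_dir v i
    have a2 := adj_dir v (i + 5)
    rw [e] at a2
    have h1 : b v = b (v + dir i) ∧ b (v + dir i) = b (v + dir (i + 1)) := by
      by_contra h
      exact hi ⟨v, _, _, a1.1, a1.2, (adj_dir v _).1, add_assoc _ _ _, h⟩
    have h2 : b v = b (v + dir i) ∧ b (v + dir i) = b (v + dir (i + 5)) := by
      by_contra h
      exact hi ⟨v, _, _, a1.1, a2.2.symm, a2.1, add_assoc _ _ _, h⟩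
    have k : ∀ j, b v = b (v + dir j) → v + v + dir j ∈ dbl b ∩ T := fun j hj =>
      ⟨⟨v, _, (adj_dir v j).1, hj, add_assoc _ _ _⟩, hT v _ hv (adj_dir _ j).1⟩
    exact ⟨k _ (h2.1.trans h2.2), k _ h1.1, k _ (h1.1.trans h1.2)⟩
  have := h.ind (P := fun x => ((∀ v, x ≠ v + v) ∧ Conn (dbl b ∩ T) a x) ∨
      ∃ v i, x = v + v ∧ v + v + dir i ∉ yel b ∧ Conn (dbl b ∩ T) a (v + v + dir i))
    (Or.inl ⟨ha, Conn.refl (mid a h.1 ha)⟩) (by
      rintro x y hx xy hy (⟨-, ih⟩ | ⟨v, i, rfl, hi, ih⟩)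
      · by_cases hv : ∀ v, y ≠ v + v
        · exact Or.inl ⟨hv, ih.tail xy (mid y hy hv)⟩
        · push Not at hv
          obtain ⟨v, rfl⟩ := hv
          obtain ⟨i, rfl⟩ := exists_dir xy.symm
          exact Or.inr ⟨v, i, rfl, hx.right.1, ih⟩
      · obtain ⟨j, rfl⟩ := exists_dir xy
        exact Or.inl ⟨fun u h => mid_ne (adj_dir v j).1 (h.symm.trans (add_assoc _ _ _)),
          ih.trans (around (good v i hx.right.2 hi) (good v j hx.right.2 hy.1))⟩)
  rcases this with h | ⟨v, _, h, _⟩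
  · exact h.2
  · exact absurd h (hc v)

/-- a double crossing of one of the two colours -/
lemma hex_dbl {T : V → Set (Bool × Bool)} {w : Cf} (hw : w ∈ Sp T) {M d1 d2 d3 : ℤ}
    (h : TOk M d1 d2 d3) : (∃ s, hm (lev (red w) s) ∈ EE d1 d2 d3) ∨
      ∃ s, hm (lev (blue w) s) ∈ EE' d1 d2 d3 := by
  obtain ⟨h1, h2, h3, h4, h5, h6, -⟩ := h
  rcases hex_Tri (yel (blue w)) (d1 := d1) (d2 := d2) (d3 := d3) (by omega) with
    ⟨u, hu, v, hv, c⟩ | ⟨u, hu, v, hv, c⟩
  · obtain ⟨s, c'⟩ := dbl_conn (c.mono (inter_subset_inter_left _ (yel_sub hw)))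
    exact Or.inl ⟨s, u, hu, v, hv, c'⟩
  · obtain ⟨s, c'⟩ := dbl_conn (reroute (fun x y hx e => by
      simp only [mem_Tri, Adj, Prod.fst_add, Prod.snd_add] at *; omega) (fun x e => by
      have := hu.1; rw [e, Prod.snd_add] at this; omega) (fun x e => by
      have : v.1 + d2 = 0 := hv
      rw [e, Prod.fst_add] at this; omega) c)
    exact Or.inr ⟨s, u, hu, v, hv, c'⟩

/-! ### blue under the double plus condition -/

theorem off_ng_le {U L : Set V} (hU : U.Finite) (hL : L.Finite) (hc : CoConn L)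
    {f : (V → Bool) → ℝ} (hf : Monotone f) :
    Ex (Sp (pp U L)) (fun w => f (ng (red w))) ≤ Ex (Sp (pp U L)) fun w => f (red w) := by
  refine (ex_bij (bij_off true U L) fun w => f (red w)).le.trans ?_
  refine (hol_tm hL hc fun v => ?_).ex_le (ok_off _ hU hL) (ok_off _ hU hL) hf
  intro a ha b hb
  exact ⟨fun hv => by rw [ha hv]; simp, fun hv => by rw [hb hv]; simp⟩

theorem bij_sw_PP (U : Set V) : BijOn sw (PP U) (Sp (pp (cl U) U)) := bij_sw fun _ _ => And.comm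

theorem ex_PP_blue (U : Set V) (f : (V → Bool) → ℝ) :
    Ex (PP U) (fun w => f (blue w)) = Ex (Sp (pp (cl U) U)) fun w => f (red w) :=
  ex_bij (bij_sw_PP U) fun w => f (red w)

theorem hol_PP_blue {U : Set V} (hU : U.Finite) (hc : CoConn U) : Hol (PP U) blue (PP U) blue :=
  (hol_tm_self hU hc _).bij (bij_sw_PP U) (bij_sw_PP U)

theorem blue_ng_le {U : Set V} (hU : U.Finite) (hc : CoConn U) {f : (V → Bool) → ℝ}
    (hf : Monotone f) : Ex (PP U) (fun w => f (ng (blue w))) ≤ Ex (PP U) fun w => f (blue w) := by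
  rw [ex_PP_blue U f, ex_PP_blue U fun r => f (ng r)]
  exact off_ng_le (cl_finite hU) hU hc hf

theorem blue_le_red {U : Set V} (hU : U.Finite) (hc : CoConn U) {f : (V → Bool) → ℝ}
    (hf : Monotone f) : Ex (PP U) (fun w => f (blue w)) ≤ Ex (PP U) fun w => f (red w) := by
  have o := ok_off true (cl_finite hU) hU
  rw [ex_PP_blue U f]
  unfold pp
  rw [Sp_tm] at o ⊢
  refine le_PP hU hc subset_rfl (A := {r | ∀ v, r v ∈ off true (cl U) v})
    (fun a ha b hb v hv => ?_) o hf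
  rw [Pi.inf_apply, ha v hv, hb v fun h' => hv (sub_cl _ h')]; rfl

/-! ### the limiting functional -/

/-- the red configurations whose double plus edges realise `A` -/
def hmE (A : Set (Set V)) : Set (V → Bool) := {r | hm (lev r true) ∈ A}

lemma Inc.hmE {W : Set V} {A : Set (Set V)} (h : Inc W A) : IsUpperSet (hmE A) :=
  fun _ _ hab ha => h _ _ (inter_subset_left.trans (hm_mono (lev_mono hab))) ha

/-- the infimum over all finite domains -/
noncomputable def pinf (A : Set (Set V)) : ℝ := ⨅ U : Finset V, Pr (PP U) (red ⁻¹' hmE A)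

lemma pinf_le (A : Set (Set V)) {U : Set V} (hU : U.Finite) :
    pinf A ≤ Pr (PP U) (red ⁻¹' hmE A) := by
  have := ciInf_le (f := fun U : Finset V => Pr (PP U) (red ⁻¹' hmE A))
    ⟨0, by rintro _ ⟨U, rfl⟩; exact pr_nonneg _ _⟩ hU.toFinset
  rwa [hU.coe_toFinset] at this

lemma le_pinf {A : Set (Set V)} {c : ℝ} (h : ∀ U : Set V, U.Finite → c ≤ Pr (PP U) (red ⁻¹' hmE A)) :
    c ≤ pinf A := le_ciInf fun U => h U U.finite_toSet

lemma le_pinf_add {A B : Set (Set V)} {c : ℝ} (h : ∀ U U' : Set V, U.Finite → U'.Finite →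
    c ≤ Pr (PP U) (red ⁻¹' hmE A) + Pr (PP U') (red ⁻¹' hmE B)) : c ≤ pinf A + pinf B := by
  rw [← sub_le_iff_le_add]
  refine le_pinf fun U hU => ?_
  rw [sub_le_comm]
  exact le_pinf fun U' hU' => sub_le_iff_le_add'.2 (h U U' hU hU')

lemma perc_pinf (M : ℤ) : Perc pinf 0 M where
  eta := le_rfl
  empty := le_antisymm ((pinf_le _ finite_empty).trans (pr_none fun _ _ h => h).le)
    (le_pinf fun _ _ => pr_nonneg _ _)
  nonneg _ := le_pinf fun _ _ => pr_nonneg _ _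
  le_one _ := (pinf_le _ finite_empty).trans (pr_le_one _ _)
  mono _ _ h := le_pinf fun _ hU => (pinf_le _ hU).trans (pr_mono fun _ _ hx => h hx)
  sub A B hA hB := le_pinf_add fun U U' hU hU' => (pinf_le _ (hU.union hU')).trans
    ((pr_le_add (B := red ⁻¹' hmE A) (C := red ⁻¹' hmE B) fun _ _ h => h).trans (add_le_add
      (pr_PP_anti (hU.union hU') subset_union_left hA.hmE)
      (pr_PP_anti (hU.union hU') subset_union_right hB.hmE)))
  fkg A B hA hB := le_pinf fun U hU => (mul_le_mul (pinf_le A hU) (pinf_le B hU)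
    (le_pinf fun _ _ => pr_nonneg _ _) (pr_nonneg _ _)).trans (pr_PP_fkg hU hA.hmE hB.hmE)
  inv i a b R A B _ _ := by
    rw [add_zero]
    refine le_pinf fun U hU => (pinf_le _ (hU.preimage (gE i a b).injective.injOn)).trans ?_
    rw [← pr_bij (bij_PP (aut_gE i a b) U)]
    refine pr_mono fun w _ hw => X_map hw ?_
    rintro _ ⟨u, v, e, hu, hv, rfl⟩
    exact ⟨_, _, (aut_gE i a b u v).2 e, hu, hv, mvq_add i a b u v⟩

lemma quarter {M d1 d2 d3 : ℤ} (h : TOk M d1 d2 d3) : 1 / 4 ≤ pinf (EE d1 d2 d3) := by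
  have h1 : pinf (EE' d1 d2 d3) ≤ pinf (EE d1 d2 d3) + 0 :=
    (perc_pinf M).sw23 h h rfl (fun _ _ _ h => h) fun _ _ _ h => h
  have u1 : IsUpperSet (hmE (EE d1 d2 d3)) := Inc.hmE (inc_X subset_rfl _ _)
  have u2 : IsUpperSet (hmE (EE' d1 d2 d3)) := Inc.hmE (inc_X subset_rfl _ _)
  have h2 : 1 / 2 ≤ pinf (EE d1 d2 d3) + pinf (EE' d1 d2 d3) := le_pinf_add fun U U' hU hU' => by
    obtain ⟨B, fB, cB, sB⟩ := exists_coConn (hU.union hU')
    have a1 := pr_PP_anti fB (subset_union_left.trans sB) u1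
    have a2 := pr_PP_anti fB (subset_union_right.trans sB) u2
    have a3 := PP_ng_le fB (mono_ind u1)
    have a4 := blue_ng_le fB cB (mono_ind u2)
    have a5 := blue_le_red fB cB (mono_ind u2)
    have a6 : (1 : ℝ) ≤ Ex (PP B) fun w => (hmE (EE d1 d2 d3)).indicator 1 (red w) +
        (hmE (EE d1 d2 d3)).indicator 1 (ng (red w)) +
        ((hmE (EE' d1 d2 d3)).indicator 1 (blue w) +
        (hmE (EE' d1 d2 d3)).indicator 1 (ng (blue w))) := le_ex (ok_PP fB) fun w hw => by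
      have p : ∀ (A : Set (V → Bool)) r, (0 : ℝ) ≤ A.indicator 1 r := fun A r =>
        indicator_nonneg (fun _ _ => zero_le_one) r
      have p1 := p (hmE (EE d1 d2 d3)) (red w)
      have p2 := p (hmE (EE d1 d2 d3)) (ng (red w))
      have p3 := p (hmE (EE' d1 d2 d3)) (blue w)
      have p4 := p (hmE (EE' d1 d2 d3)) (ng (blue w))
      rcases hex_dbl hw h with ⟨_ | _, h⟩ | ⟨_ | _, h⟩
      · rw [indicator_of_mem (a := ng (red w)) (by simpa [hmE, lev_ng] using h), Pi.one_apply]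
        linarith
      · rw [indicator_of_mem (a := red w) h, Pi.one_apply]; linarith
      · rw [indicator_of_mem (a := ng (blue w)) (by simpa [hmE, lev_ng] using h), Pi.one_apply]
        linarith
      · rw [indicator_of_mem (a := blue w) h, Pi.one_apply]; linarith
    rw [ex_add, ex_add, ex_add] at a6
    rw [pr_eq (PP B)] at a1 a2
    change Ex (PP B) (fun w => (hmE (EE d1 d2 d3)).indicator 1 (red w)) ≤ _ at a1
    change Ex (PP B) (fun w => (hmE (EE' d1 d2 d3)).indicator 1 (red w)) ≤ _ at a2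
    linarith
  linarith

lemma half_le_PP {U : Set V} (hU : U.Finite) (v : V) :
    1 / 2 ≤ Pr (PP U) (red ⁻¹' {r | r v = true}) := by
  have u : IsUpperSet {r : V → Bool | r v = true} := fun _ _ h ha => lev_mono h ha
  have a := PP_ng_le hU (mono_ind u)
  have b := pr_compl (ok_PP hU) (red ⁻¹' {r | r v = true})
  rw [pr_eq, pr_eq, ex_congr (g := fun w => {r : V → Bool | r v = true}.indicator 1 (ng (red w)))
    fun w _ => by cases h : (w v).1 <;> simp [indicator, ng, red, h]] at b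
  rw [pr_eq]
  change _ = 1 - Ex (PP U) (fun w => {r : V → Bool | r v = true}.indicator 1 (red w)) at b
  change _ ≤ Ex (PP U) (fun w => {r : V → Bool | r v = true}.indicator 1 (red w))
  linarith

lemma card_Bx (z : V) (n : ℤ) : (Bx_finite z n).toFinset.card = (2 * n + 1).toNat ^ 2 := by
  have : (Bx_finite z n).toFinset =
      Finset.Icc (z.1 - n) (z.1 + n) ×ˢ Finset.Icc (z.2 - n) (z.2 + n) := by
    ext v; simp [mem_Bx, and_assoc]
  rw [this, Finset.card_product, Int.card_Icc, Int.card_Icc, sq]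
  congr 2 <;> ring

/-- double plus rings in the double plus model -/
theorem ring_pp : ∃ c > 0, ∀ (z : V) (r : ℤ) (U : Set V), 0 ≤ r → U.Finite →
    c ≤ Pr (PP U) (red ⁻¹' SepE true (Bx z r) (Bx z (2 * r + 1))ᶜ) := by
  obtain ⟨η, hη, c, hc, h⟩ := rsw_ring (c0 := 1 / 4) (by norm_num) 4
  refine ⟨min c ((1 / 2) ^ (503 ^ 2)), by positivity, fun z r U hr hU => ?_⟩
  by_cases h0 : 250 ≤ r
  · obtain ⟨M, hM⟩ := exists_Bx (Bx_finite (z + z) (4 * r + 3)) 0
    have := h pinf 0 (max M (287 * (2 * r + 2))) (perc_pinf _) hη.le (fun _ _ _ => quarter)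
      (2 * r + 2) (by omega) (by push_cast; omega) (z + z) (2 * r) (4 * r + 3) (by omega) (by omega)
      (by push_cast; omega) (hM.trans (Bx_mono (le_max_left _ _)))
    refine ((min_le_left _ _).trans this).trans ((pinf_le _ hU).trans (pr_mono fun w _ hw => ?_))
    intro u hu v hv c
    refine Blk.not_conn hw (Bx_disj (by omega)) (Bx_nadj (by omega)) ?_ ?_ c.half
    · simp only [mem_Bx, Prod.fst_add, Prod.snd_add] at *; omega
    · simp only [mem_compl_iff, mem_Bx, Prod.fst_add, Prod.snd_add] at *; omega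
  · have := (pow_le_biInter (q := fun A => Pr (PP U) (red ⁻¹' A)) (Up := IsUpperSet)
      isUpperSet_univ (fun _ _ => IsUpperSet.inter) (pr_all (ok_PP hU) fun _ _ => trivial).ge
      (fun _ => pr_nonneg _ _) (fun _ _ => pr_PP_fkg hU) (c := 1 / 2) (by norm_num)
      (Bx_finite z (r + 1)).toFinset (A := fun v => {r | r v = true})
      fun v _ => ⟨fun _ _ h ha => lev_mono h ha, half_le_PP hU v⟩).2
    refine (min_le_right _ _).trans (le_trans (pow_le_pow_of_le_one (by norm_num) (by norm_num) ?_)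
      (this.trans (pr_mono fun w _ hw u hu v hv c => ?_)))
    · rw [card_Bx]
      exact Nat.pow_le_pow_left (by omega) 2
    · have hw' : ∀ x ∈ Bx z (r + 1), x ∈ lev (red w) true := fun x hx =>
        mem_iInter₂.1 hw x (by simpa using hx)
      refine hv (Bx_mono (by omega) (c.ind (Q := fun x => x ∈ Bx z r) hu fun a b _ e _ n ha => ?_))
      exact absurd ⟨hw' a (Bx_mono (by omega) ha), hw' b (cl_Bx z r (mem_cl ha e))⟩ n

end Pool.Agent.Lib.MP_6359c9_pr
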