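import Pool.Agent.Lib.MP_6359c9_pr.SpE

/-! Strong RSW estimate, first part: simple minus rings in the double plus model. -/

namespace Pool.Agent.Lib.MP_6359c9_pr

open Set

/-- the blue configurations whose plus sites realise `A` -/
def blE (A : Set (Set V)) : Set (V → Bool) := {b | lev b true ∈ A}

lemma Inc.blE {W : Set V} {A : Set (Set V)} (h : Inc W A) : IsUpperSet (blE A) :=
  fun _ _ hab ha => h _ _ (inter_subset_left.trans (lev_mono hab)) ha

lemma Inc.dep {W : Set V} {A : Set (Set V)} (h : Inc W A) : Dep W (Pool.Agent.Lib.MP_6359c9_pr.blE A) :=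
  fun _ _ e hx => h _ _ (fun v hv => (e v hv.2).symm.trans hv.1) hx

lemma pr_tv {U U' I : Set V} (hU' : U'.Finite) (hU : U ⊆ U') (hI : I ⊆ cl U) {E : Set Cf}
    (hE : Dep I E) : |Pr (PP U) E - Pr (PP U') E| ≤ Pr (PP U') (red ⁻¹' SepE true I Uᶜ)ᶜ := by
  rw [pr_eq (PP U), pr_eq (PP U') E]
  exact tv_PP_PP hU' hU hI (fun w => indicator_nonneg (fun _ _ => zero_le_one) w)
    (fun w => indicator_le_self' (fun _ _ => zero_le_one) w) hE.ind

lemma pr_sep_aut {g : V ≃ V} (ag : Aut g) (U : Set V) (s : Bool) {I O I' O' : Set V}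
    (hI : I' ⊆ g ⁻¹' I) (hO : O' ⊆ g ⁻¹' O) :
    Pr (PP (g ⁻¹' U)) (red ⁻¹' SepE s I' O')ᶜ ≤ Pr (PP U) (red ⁻¹' SepE s I O)ᶜ := by
  rw [← pr_bij (bij_PP ag U)]
  refine pr_mono fun w _ hw hs => ?_
  have hs' : Sep (lev (red w) s) I O := hs
  have : Sep (g ⁻¹' lev (red w) s) I' O' := (ag.sep.2 hs').mono subset_rfl hI hO
  exact hw this

/-- blue plus sites percolate almost invariantly below a likely double plus ring -/
lemma perc_blue {M o R : ℤ} {δ : ℝ} (_hM : 0 ≤ M) (ho : M ≤ o) (hR : 19 * o ≤ R)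
    (h : Pr (PP (Bx 0 R)) (red ⁻¹' SepE true (Bx 0 M) (Bx 0 o)ᶜ)ᶜ ≤ δ) :
    Perc (fun A => Pr (PP (Bx 0 R)) (blue ⁻¹' blE A)) (2 * δ) M where
  eta := by have := (pr_nonneg _ _).trans h; positivity
  empty := pr_none fun _ _ h => h
  nonneg _ := pr_nonneg _ _
  le_one _ := pr_le_one _ _
  mono _ _ h := pr_mono fun _ _ hx => h hx
  sub A B _ _ := pr_le_add (B := blue ⁻¹' blE A) (C := blue ⁻¹' blE B) fun _ _ h => h
  fkg A B hA hB := (hol_PP_blue (Bx_finite 0 R) (Bx_coConn 0 R)).pr_fkg hA.blE hB.blE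
  inv i a b T A B h1 h2 := by
    have δ0 := (pr_nonneg _ _).trans h
    rcases T.eq_empty_or_nonempty with rfl | ⟨t, ht⟩
    · refine le_trans (pr_none (A := blue ⁻¹' blE (XC ∅ A B))
        fun w _ ⟨_, _, _, _, c⟩ => c.1.2).le ?_
      have := pr_nonneg (PP (Bx 0 R))
        (blue ⁻¹' blE (XC (mvq i a b '' ∅) (mvq i a b '' A) (mvq i a b '' B)))
      positivity
    have t1 := h1 ht
    have t2 := h2 ⟨t, ht, rfl⟩
    have hab : -(3 * M) ≤ 2 * a ∧ 2 * a ≤ 3 * M ∧ -(3 * M) ≤ 2 * b ∧ 2 * b ≤ 3 * M := by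
      rw [mem_Bx0] at t1 t2
      fin_cases i <;> simp [mvq, sy] at t2 <;> omega
    set g := gE i (2 * a) (2 * b) with hg
    have ag : Aut g := aut_gE _ _ _
    have g1 : ∀ v ∈ Bx 0 (8 * o), g v ∈ Bx 0 R := fun v hv => by
      rw [mem_Bx0] at hv ⊢
      fin_cases i <;> simp [hg, gE_apply, sy] <;> omega
    have g2 : ∀ v, g v ∈ Bx 0 o → v ∈ Bx 0 (8 * o) := fun v hv => by
      rw [mem_Bx0] at hv ⊢
      fin_cases i <;> simp [hg, gE_apply, sy] at hv <;> omega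
    have dE : Dep T (blue ⁻¹' blE (XC T A B)) := dep_blue (inc_X subset_rfl A B).dep
    have sT : T ⊆ cl (Bx 0 (8 * o)) := h1.trans ((Bx_mono (by omega)).trans (sub_cl _))
    have fR := Bx_finite 0 R
    have e1 := pr_tv fR (Bx_mono (by omega : 8 * o ≤ R)) sT dE
    have e2 := pr_tv (fR.preimage g.injective.injOn) g1 sT dE
    have e3 : Pr (PP (Bx 0 R)) (red ⁻¹' SepE true T (Bx 0 (8 * o))ᶜ)ᶜ ≤ δ :=
      le_trans (pr_mono fun w _ hw hs => hw (SepE_mono true h1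
        (compl_subset_compl.2 (Bx_mono (by omega))) hs)) h
    have e4 : Pr (PP (g ⁻¹' Bx 0 R)) (red ⁻¹' SepE true T (Bx 0 (8 * o))ᶜ)ᶜ ≤ δ :=
      le_trans (pr_sep_aut ag _ true (I := Bx 0 M) (O := (Bx 0 o)ᶜ) (fun v hv => h2 ⟨v, hv, rfl⟩)
        fun v hv hv' => hv (g2 v hv')) h
    have e5 : Pr (PP (g ⁻¹' Bx 0 R)) (blue ⁻¹' blE (XC T A B)) ≤ Pr (PP (Bx 0 R))
        (blue ⁻¹' blE (XC (mvq i a b '' T) (mvq i a b '' A) (mvq i a b '' B))) := by
      rw [← pr_bij (bij_PP ag (Bx 0 R))]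
      exact pr_mono fun w _ hw => X_map hw fun _ hv => hv
    rw [abs_le] at e1 e2
    linarith [e1.1, e2.2]

lemma blue_quarter {U : Set V} (hU : U.Finite) (hc : CoConn U) {η : ℝ} {M : ℤ}
    (h : Perc (fun A => Pr (PP U) (blue ⁻¹' blE A)) η M) (hη : η ≤ 1 / 2) {d1 d2 d3 : ℤ}
    (ht : TOk M d1 d2 d3) : 1 / 4 ≤ Pr (PP U) (blue ⁻¹' blE (EE d1 d2 d3)) := by
  have h1 : Pr (PP U) (blue ⁻¹' blE (EE' d1 d2 d3)) ≤ Pr (PP U) (blue ⁻¹' blE (EE d1 d2 d3)) + η :=
    h.sw23 ht ht rfl (fun _ _ _ h => h) fun _ _ _ h => h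
  have u2 : IsUpperSet (blE (EE' d1 d2 d3)) := Inc.blE (inc_X subset_rfl _ _)
  have h2 : Pr (PP U) {w | ng (blue w) ∈ blE (EE' d1 d2 d3)} ≤
      Pr (PP U) (blue ⁻¹' blE (EE' d1 d2 d3)) := by
    rw [pr_eq, pr_eq]
    exact blue_ng_le hU hc (mono_ind u2)
  have h3 := pr_le_add (M := PP U) (A := univ) (B := blue ⁻¹' blE (EE d1 d2 d3))
    (C := {w | ng (blue w) ∈ blE (EE' d1 d2 d3)}) fun w _ _ => by
      obtain ⟨a1, a2, a3, a4, a5, a6, -⟩ := ht
      refine (hex_Tri (lev (blue w) true) (d1 := d1) (d2 := d2) (d3 := d3) (by omega)).imp id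
        fun h => ?_
      have : lev (ng (blue w)) true = (lev (blue w) true)ᶜ := by ext v; simp [lev, ng]
      change lev (ng (blue w)) true ∈ EE' d1 d2 d3
      rwa [this]
  rw [pr_all (ok_PP hU) fun x _ => mem_univ x] at h3
  linarith

open Classical in
/-- flip of the blue spins off the cluster of `O` -/
noncomputable def flp (O : Set V) (w : Cf) : Cf :=
  fun v => if v ∈ RK true O w then w v else ((w v).1, !(w v).2)

lemma red_flp (O : Set V) (w : Cf) : red (flp O w) = red w := by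
  ext v; simp only [red, flp]; split_ifs <;> rfl

lemma RK_flp (O : Set V) (w : Cf) : RK true O (flp O w) = RK true O w := by
  simp only [RK, red_flp]

lemma flp_flp (O : Set V) (w : Cf) : flp O (flp O w) = w := by
  funext v
  rw [flp, RK_flp]
  by_cases h : v ∈ RK true O w <;> simp [flp, h]

lemma flp_mem {ρ : V → Set Bool} {L O : Set V} (hO : Lᶜ ⊆ O) {w : Cf} (hw : w ∈ Sp (tm ρ L)) :
    flp O w ∈ Sp (tm ρ L) := by
  refine ⟨fun u v e => ?_, fun v => ⟨?_, fun hv => ?_⟩⟩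
  · have := hw.1 u v e
    by_cases hu : u ∈ RK true O w <;> by_cases hv : v ∈ RK true O w <;>
      simp only [flp, hu, hv, if_true, if_false]
    · exact this
    · exact Or.inl ((NK_bd hu hv e).1.trans (NK_bd hu hv e).2.symm)
    · exact Or.inl ((NK_bd hv hu e.symm).2.trans (NK_bd hv hu e.symm).1.symm)
    · exact this.imp id (congrArg not)
  · rw [show (flp O w v).1 = (w v).1 from congrFun (red_flp O w) v]
    exact (hw.2 v).1
  · rw [flp, if_pos (show v ∈ RK true O w from sub_NK _ _ (hO hv))]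
    exact (hw.2 v).2 hv

/-- the clusters of disagreement of the two colours that leave `U` -/
def dis (U : Set V) (w : Cf) : Set V := {v | ∃ o, o ∉ U ∧ Conn {x | (w x).1 ≠ (w x).2} o v}

open Classical in
/-- exchange of the colours on the clusters of disagreement inside `U` -/
noncomputable def exc (U : Set V) (w : Cf) : Cf := fun v => if v ∈ dis U w then w v else (w v).swap

lemma dis_exc (U : Set V) (w : Cf) : dis U (exc U w) = dis U w := by
  have : {x | (exc U w x).1 ≠ (exc U w x).2} = {x | (w x).1 ≠ (w x).2} := by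
    ext x
    simp only [exc, mem_ofPred_eq]
    split_ifs
    · rfl
    · exact ne_comm
  simp only [dis, this]

lemma exc_exc (U : Set V) (w : Cf) : exc U (exc U w) = w := by
  funext v
  rw [exc, dis_exc]
  by_cases h : v ∈ dis U w <;> simp [exc, h]

lemma swap_eq {a : Bool × Bool} (h : ¬a.1 ≠ a.2) : a.swap = a :=
  Prod.ext (not_not.1 h).symm (not_not.1 h)

lemma exc_mem {T : V → Set (Bool × Bool)} {U : Set V} (hT : ∀ v ∈ U, T v = univ) {w : Cf}
    (hw : w ∈ Sp T) : exc U w ∈ Sp T := by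
  refine ⟨fun u v e => ?_, fun v => ?_⟩
  · have := hw.1 u v e
    by_cases hu : u ∈ dis U w <;> by_cases hv : v ∈ dis U w <;>
      simp only [exc, hu, hv, if_true, if_false]
    · exact this
    · obtain ⟨o, ho, c⟩ := hu
      rwa [swap_eq fun h => hv ⟨o, ho, c.tail e h⟩]
    · obtain ⟨o, ho, c⟩ := hv
      rwa [swap_eq fun h => hu ⟨o, ho, c.tail e.symm h⟩]
    · exact Or.symm this
  · by_cases hv : v ∈ U
    · rw [hT v hv]; trivial
    · rw [exc]
      split_ifs with h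
      · exact hw.2 v
      · rw [swap_eq fun h' => h ⟨v, hv, Conn.refl h'⟩]
        exact hw.2 v

lemma dis_blue {T : V → Set (Bool × Bool)} {U : Set V} {w : Cf} (hw : w ∈ Sp T) {v : V}
    (h : v ∈ dis U w) (hv : (w v).1 = true) : ∃ o, o ∉ U ∧ Conn (lev (blue w) true)ᶜ v o := by
  obtain ⟨o, ho, c⟩ := h
  have key : ∀ a : Bool × Bool, a.1 ≠ a.2 → a.1 = true → ¬a.2 = true := by decide
  have step : ∀ a b : Bool × Bool, Cp a b → a.1 ≠ a.2 → b.1 ≠ b.2 → a.1 = true → b.1 = true := by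
    unfold Cp; decide
  refine ⟨o, ho, (c.symm.ind (P := fun x => (w x).1 = true ∧ Conn (lev (blue w) true)ᶜ v x)
    ⟨hv, Conn.refl (key _ c.right hv)⟩ ?_).2⟩
  rintro a b ha e hb ⟨h1, h2⟩
  have := step _ _ (hw.1 a b e) ha.right hb h1
  exact ⟨this, h2.tail e (key _ hb this)⟩

/-- no red plus path crosses the annulus -/
def MR (z : V) (r : ℤ) : Set (V → Bool) := {a | Blk (lev a true) (Bx z r) (Bx z (2 * r + 1))ᶜ}

lemma MR_lower (z : V) (r : ℤ) : IsLowerSet (MR z r) := fun _ _ h ha =>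
  Blk.anti ha fun _ hx => lev_mono h hx.1

/-- flip and exchange turn two blue plus rings into a red minus ring -/
lemma two_rings {N M R : ℤ} (hN : 2 * N + 1 ≤ M) (hM : 0 ≤ M) (hR : 2 * M + 1 ≤ R) :
    Pr (PP (Bx 0 R)) (blue ⁻¹' blE ({ω | Blk ωᶜ (Bx 0 N) (Bx 0 (2 * N + 1))ᶜ} ∩
      {ω | Blk ωᶜ (Bx 0 M) (Bx 0 (2 * M + 1))ᶜ}) ∩
        red ⁻¹' SepE true (Bx 0 (2 * N + 1)) (Bx 0 M)ᶜ) ≤ Pr (PP (Bx 0 R)) (red ⁻¹' MR 0 N) := by
  refine le_trans (pr_le_invol (φ := flp (Bx 0 M)ᶜ)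
    (B := {w | Blk (lev (blue w) true) (Bx 0 N) (Bx 0 (2 * N + 1))ᶜ ∧
      Blk (lev (blue w) true)ᶜ (Bx 0 M) (Bx 0 (2 * M + 1))ᶜ})
    (fun w hw => flp_mem (compl_subset_compl.2 ((Bx_mono (by omega)).trans (sub_cl _))) hw)
    (fun w _ => flp_flp _ w) ?_) (pr_le_invol (φ := exc (Bx 0 R))
    (fun w hw => exc_mem (T := pp (Bx 0 R) (cl (Bx 0 R))) (fun v hv => eq_univ_of_forall fun a =>
      ⟨fun h => absurd hv h, fun h => absurd (sub_cl _ hv) h⟩) hw) (fun w _ => exc_exc _ w) ?_)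
  · rintro w - ⟨⟨h1, h2⟩, h3⟩
    refine ⟨Blk.anti h1 fun x ⟨hx, hx'⟩ => ?_, Blk.anti h2 fun x ⟨hx, hx'⟩ => ?_⟩
    · have : x ∉ RK true (Bx 0 M)ᶜ w := fun h =>
        sep_iff.1 (Sep.symm h3) x h (not_not.1 fun h => hx' (Or.inr h))
      simpa [lev, blue, flp, this] using hx
    · have : x ∈ RK true (Bx 0 M)ᶜ w := sub_NK _ _ fun h => hx' (Or.inl h)
      simpa [lev, blue, flp, this] using hx
  · rintro w hw ⟨h1, h2⟩
    refine Blk.anti h1 fun x ⟨hx, hx'⟩ => ?_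
    by_cases h : x ∈ dis (Bx 0 R) w
    · obtain ⟨o, ho, c⟩ := dis_blue hw h (by simpa [lev, red, exc, h] using hx)
      exact absurd c (h2.not_conn (Bx_disj (by omega)) (Bx_nadj (by omega))
        (Bx_mono hN (not_not.1 fun h => hx' (Or.inr h))) fun h => ho (Bx_mono hR h))
    · simpa [lev, red, blue, exc, h] using hx

theorem minus_ring0 : ∃ K : ℕ, ∃ c > 0, ∀ N : ℤ, 500 ≤ N →
    c ≤ Pr (PP (Bx 0 (K * N))) (red ⁻¹' MR 0 N) := by
  obtain ⟨c1, hc1, h1⟩ := ring_pp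
  obtain ⟨η, hη, c2, hc2, h2⟩ := rsw_ring (c0 := 1 / 4) (by norm_num) 5
  obtain ⟨δ, δ0, δ1, δ2, δ3⟩ : ∃ δ > 0, 2 * δ ≤ η ∧ 2 * δ ≤ 1 / 2 ∧ δ ≤ c2 * c2 / 2 :=
    ⟨min (η / 2) (min (1 / 4) (c2 * c2 / 2)), by positivity, by
      linarith [min_le_left (η / 2) (min (1 / 4) (c2 * c2 / 2))], by
      linarith [(min_le_right (η / 2) _).trans (min_le_left (1 / 4) (c2 * c2 / 2))],
      (min_le_right _ _).trans (min_le_right _ _)⟩
  obtain ⟨n, hn⟩ := exists_nat_gt (2 / (δ * c1 ^ 2))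
  obtain ⟨L, hL⟩ := exists_flat (ε := δ * c1 ^ 2 / 2) (by positivity) (2 * n + 3)
  refine ⟨1000 ^ (1 + L), c2 * c2 / 2, by positivity, fun N hN => ?_⟩
  set a : ℕ → ℤ := fun i => 1000 ^ i * N with ha
  have am : ∀ {i j}, i ≤ j → a i ≤ a j := fun h =>
    mul_le_mul_of_nonneg_right (pow_le_pow_right₀ (by norm_num) h) (by omega)
  have as : ∀ {i j}, i < j → 1000 * a i ≤ a j := fun {i j} h =>
    le_trans (by simp only [ha]; rw [pow_succ]; linarith) (am (show i + 1 ≤ j from h))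
  have a0 : a 0 = N := by simp [ha]
  have ap : ∀ i, 500 ≤ a i := fun i => by have := am (Nat.zero_le i); omega
  set A : ℕ → Set (V → Bool) := fun i => SepE true (Bx 0 (a i)) (Bx 0 (2 * a i + 1))ᶜ with hA
  obtain ⟨J, hJ, j1, j2⟩ := hL (fun i k => Pr (PP (Bx 0 (a k - 1))) (red ⁻¹' A i))
    (fun _ _ => ⟨pr_nonneg _ _, pr_le_one _ _⟩)
    (fun i _ _ h => pr_PP_anti (Bx_finite _ _) (Bx_mono (by have := am h; omega))
      (SepE_upper _ _)) 1
  set e : ℕ → ℕ := fun t => if h : t < 2 * n + 3 then J.orderEmbOfFin hJ ⟨t, h⟩ else 0 with he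
  have e1 : ∀ t < 2 * n + 3, e t ∈ J := fun t h => by
    simp only [he, h, dif_pos]; exact J.orderEmbOfFin_mem hJ _
  have e2 : ∀ s t, s < t → t < 2 * n + 3 → e s < e t := fun s t h h' => by
    simp only [he, h', h.trans h', dif_pos]
    exact (J.orderEmbOfFin hJ).strictMono h
  have e3 : ∀ s t, s ≤ t → t < 2 * n + 3 → e s ≤ e t := fun s t h h' => by
    rcases h.eq_or_lt with rfl | h
    · rfl
    · exact (e2 s t h h').le
  set k := e (2 * n + 2) with hk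
  set R := a k - 1 with hR
  have kJ : k ∈ J := e1 _ (by omega)
  have fR := Bx_finite 0 R
  have cov : ∀ s t, s < t → t < 2 * n + 2 → Pr (PP (Bx 0 R)) (red ⁻¹' A (e s) ∩ red ⁻¹' A (e t)) ≤
      Pr (PP (Bx 0 R)) (red ⁻¹' A (e s)) * Pr (PP (Bx 0 R)) (red ⁻¹' A (e t)) +
        δ * c1 ^ 2 / 2 := by
    intro s t hst ht
    obtain ⟨W, fW, cW, sW⟩ := exists_coConn (cl_finite fR)
    have tk : e t ≤ k := e3 t (2 * n + 2) ht.le (by omega)
    have sub : Bx 0 (a (e t) - 1) ⊆ Bx 0 R := Bx_mono (by have := am tk; omega)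
    have b1 := pr_inter_le_PP (ρ := off true (Bx 0 R)) fW cW (sub.trans ((sub_cl _).trans sW))
      (fun v hv h => absurd (sub hv) h) (A := A (e s)) (B := A (e t)) (SepE_upper _ _)
      (SepE_dep true fun v h _ hv => by
        rcases h with h | ⟨u, hu, x⟩
        · exact h (Bx_mono (by omega) hv)
        · exact hu (by simpa using cl_Bx _ _ (mem_cl hv x.symm)))
    rw [← pr_PP_red fR fW sW, ← pr_PP_red fR fW sW, preimage_inter, inter_comm] at b1
    have b2 := j2 _ (e1 s (by omega)) _ (e1 t (by omega)) k (e2 s t hst (by omega)) tk (j1 k kJ).2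
      ⟨k, kJ, le_rfl⟩
    have b3 := pr_nonneg (PP (Bx 0 R)) (red ⁻¹' A (e t))
    have b4 := pr_le_one (PP (Bx 0 R)) (red ⁻¹' A (e t))
    have b5 : 0 ≤ δ * c1 ^ 2 / 2 := by positivity
    beta_reduce at b2
    nlinarith
  have some : ∀ p : ℕ, p + n < 2 * n + 2 → ∀ I O : Set V, I ⊆ Bx 0 (a (e p)) →
      O ⊆ (Bx 0 (2 * a (e (p + n)) + 1))ᶜ →
      Pr (PP (Bx 0 R)) (red ⁻¹' SepE true I O)ᶜ ≤ δ := by
    intro p hp I O hI hO
    have := pr_none_le (M := PP (Bx 0 R)) (Finset.range (n + 1)) (by simp)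
      (fun t => red ⁻¹' A (e (p + t))) hc1 (ε := δ * c1 ^ 2 / 2) (by positivity)
      (fun t _ => h1 0 _ _ (by have := ap (e (p + t)); omega) fR) fun s hs t ht hst => by
        rw [Finset.mem_range] at hs ht
        rcases lt_or_gt_of_ne hst with h | h
        · exact cov _ _ (by omega) (by omega)
        · rw [inter_comm, mul_comm]
          exact cov _ _ (by omega) (by omega)
    refine le_trans (le_trans (pr_mono (B := {x | ∀ i ∈ Finset.range (n + 1),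
      x ∉ red ⁻¹' A (e (p + i))}) fun w _ hw t ht hs => hw ?_) this) ?_
    · rw [Finset.mem_range] at ht
      have t1 := am (e3 p (p + t) (by omega) (by omega))
      have t2 := am (e3 (p + t) (p + n) (by omega) (by omega))
      exact SepE_mono true (hI.trans (Bx_mono t1))
        (hO.trans (compl_subset_compl.2 (Bx_mono (by omega)))) hs
    · rw [div_le_iff₀ (by positivity), Finset.card_range]
      rw [div_lt_iff₀ (by positivity)] at hn
      have : (1 : ℝ) / ((n + 1 : ℕ) : ℝ) ≤ δ * c1 ^ 2 / 2 := by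
        rw [div_le_iff₀ (by positivity)]
        push_cast
        nlinarith [mul_pos δ0 (pow_pos hc1 2)]
      linarith
  have s1 := as (e2 n (n + 1) (by omega) (by omega))
  have s2 := as (e2 (n + 1 + n) (2 * n + 2) (by omega) (by omega))
  have s3 := am (e3 (n + 1) (n + 1 + n) (by omega) (by omega))
  have s4 := as (show 0 < e 0 from (j1 _ (e1 0 (by omega))).1)
  have s5 := am (e3 0 n (by omega) (by omega))
  have s6 := ap (e n)
  have s7 := am (j1 k kJ).2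
  rw [← hk] at s2
  have P := perc_blue (M := 1000 * a (e n)) (o := 2 * a (e (n + 1 + n)) + 1) (R := R) (by omega)
    (by omega) (by omega) (some (n + 1) (by omega) _ _ (Bx_mono s1) subset_rfl)
  have q := h2 _ _ _ P δ1 fun _ _ _ => blue_quarter fR (Bx_coConn _ _) P δ2
  have r1 := q N hN (by push_cast; omega) 0 N (2 * N + 1) (by omega) (by omega)
    (by push_cast; omega) (Bx_mono (by omega))
  have r2 := q (2 * a (e n) + 1) (by omega) (by push_cast; omega) 0 (2 * a (e n) + 1)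
    (2 * (2 * a (e n) + 1) + 1) (by omega) (by omega) (by push_cast; omega) (Bx_mono (by omega))
  have inc : ∀ m : ℤ, 2 * m + 1 ≤ 1000 * a (e n) →
      Inc (Bx 0 (1000 * a (e n))) {ω | Blk ωᶜ (Bx 0 m) (Bx 0 (2 * m + 1))ᶜ} := fun m hm =>
    inc_blk fun x hx => Bx_mono hm (not_not.1 fun h => hx (Or.inr h))
  have r3 := P.fkg' (inc N (by omega)) (inc _ (by omega)) r1 r2 hc2.le
  have r4 := some 0 (by omega) (Bx 0 (2 * N + 1)) (Bx 0 (2 * a (e n) + 1))ᶜ (Bx_mono (by omega))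
    (by rw [zero_add])
  have r5 := two_rings (N := N) (M := 2 * a (e n) + 1) (R := R) (by omega) (by omega) (by omega)
  have r6 := pr_PP_anti' (Bx_finite 0 (a (1 + L))) (Bx_mono (show R ≤ a (1 + L) by omega))
    (MR_lower 0 N)
  have r7 := pr_le_add (M := PP (Bx 0 R)) (A := blue ⁻¹' blE
    ({ω | Blk ωᶜ (Bx 0 N) (Bx 0 (2 * N + 1))ᶜ} ∩ {ω | Blk ωᶜ (Bx 0 (2 * a (e n) + 1))
      (Bx 0 (2 * (2 * a (e n) + 1) + 1))ᶜ}))
    (C := (red ⁻¹' SepE true (Bx 0 (2 * N + 1)) (Bx 0 (2 * a (e n) + 1))ᶜ)ᶜ)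
    fun w _ hw => (em _).imp (fun h => mem_inter hw h) id
  push_cast
  beta_reduce at r3
  linarith

lemma exists_pos_le {f : ℤ → ℝ} (n : ℕ) (h : ∀ r, 0 ≤ r → 0 < f r) :
    ∃ c > 0, ∀ r : ℤ, 0 ≤ r → r < n → c ≤ f r := by
  induction n with
  | zero => exact ⟨1, one_pos, fun r _ _ => by omega⟩
  | succ n ih =>
    obtain ⟨c, hc, h1⟩ := ih
    refine ⟨min c (f n), lt_min hc (h n (by omega)), fun r h0 hr => ?_⟩
    rcases (show r < n ∨ r = n by omega) with h2 | rfl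
    · exact (min_le_left _ _).trans (h1 r h0 h2)
    · exact min_le_right _ _

lemma pre_Bx (z : V) (n : ℤ) : Equiv.addRight z ⁻¹' Bx z n = Bx 0 n := by
  ext v
  simp only [mem_preimage, mem_Bx, Equiv.coe_addRight, Prod.fst_add, Prod.snd_add, Prod.fst_zero,
    Prod.snd_zero]
  omega

lemma Aut.nb {g : V ≃ V} (h : Aut g) {U : Set V} {v : V} (hv : v ∈ nb U) :
    g.symm v ∈ nb (g ⁻¹' U) := by
  obtain ⟨u, hu, e⟩ := hv
  exact ⟨g.symm u, by simpa using hu, (h.symm u v).2 e⟩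

lemma Aut.blk {g : V ≃ V} (h : Aut g) {S I O : Set V} (b : Blk (g ⁻¹' S) (g ⁻¹' I) (g ⁻¹' O)) :
    Blk S I O := fun ⟨u, hu, v, hv, c⟩ =>
  b ⟨_, h.nb hu, _, h.nb hv, (h.conn (A := S ∩ (I ∪ O)ᶜ)).2 (by simpa using c)⟩

/-- simple minus rings in the double plus model -/
theorem minus_ring : ∃ K : ℕ, 2 ≤ K ∧ ∃ c > 0, ∀ (z : V) (r : ℤ) (U : Set V), 0 ≤ r → U.Finite →
    Bx z (K * r + 1) ⊆ U → c ≤ Pr (PP U) (red ⁻¹' MR z r) := by
  classical
  obtain ⟨K, c, hc, h⟩ := minus_ring0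
  obtain ⟨c', hc', h'⟩ := exists_pos_le (f := fun r => Pr (PP (Bx 0 (2 * r + 1))) (red ⁻¹' MR 0 r))
    500 fun r _ => pr_pos (ok_PP (Bx_finite _ _)).1
      (mem_tm _ (r := fun v => decide (v ∉ Bx 0 (2 * r + 1))) fun v hv => by simpa using hv)
      fun ⟨u, _, _, _, c⟩ => c.1.2 (Or.inr (by simpa [lev, red] using c.1.1))
  refine ⟨K + 2, by omega, min c c', lt_min hc hc', fun z r U hr hU hz => ?_⟩
  have k0 : (0 : ℤ) ≤ K * r := by positivity
  have k1 : ((K + 2 : ℕ) : ℤ) * r = K * r + 2 * r := by push_cast; ring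
  have tr : ∀ n, n ≤ K * r + 2 * r + 1 →
      Pr (PP (Bx 0 n)) (red ⁻¹' MR 0 r) ≤ Pr (PP U) (red ⁻¹' MR z r) := fun n hn => by
    refine le_trans ?_ (pr_PP_anti' hU ((Bx_mono (by omega)).trans hz) (MR_lower z r) (U := Bx z n))
    rw [← pre_Bx z n, ← pr_bij (bij_PP (aut_add z) (Bx z n))]
    refine pr_mono fun w _ hw => (aut_add z).blk ?_
    rw [preimage_compl, pre_Bx, pre_Bx]
    exact hw
  by_cases h0 : 500 ≤ r
  · exact ((min_le_left _ _).trans (h r h0)).trans (tr _ (by omega))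
  · exact ((min_le_right _ _).trans (h' r hr (by omega))).trans (tr _ (by omega))

end Pool.Agent.Lib.MP_6359c9_pr
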