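import Pool.Agent.Lib.MP_6359c9_pr.HBase
import Pool.Agent.Lib.MP_6359c9_pr.EndDef

/-! Sequences of discrete domains, their height fields, and the continuum statements. -/

namespace Pool.Agent.Lib.MP_6359c9_pr

open Set Filter Topology

/-- discrete domains with data in `{0, 1}` that approximate `Ω` -/
structure Sq (Ω : Set ℂ) where
  δ : ℕ → ℝ
  U : ℕ → Set V
  ξ : ℕ → V → ℤ
  δpos : ∀ n, 0 < δ n
  lim : Tendsto δ atTop (𝓝 0)
  cls : ∀ n, Cls (U n)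
  two : ∀ n v, v ∉ U n → ξ n v = 0 ∨ ξ n v = 1
  inn : ∀ K ⊆ Ω, IsCompact K → ∀ᶠ n in atTop, ∀ v, pos (δ n) v ∈ K → v ∈ U n
  out : ∀ w ∈ frontier Ω, ∀ ε > 0, ∀ᶠ n in atTop, ∃ v, v ∉ U n ∧ ‖pos (δ n) v - w‖ ≤ ε

/-- the affine extension is continuous -/
def ContSt : Prop := ∀ (δ : ℝ) (h : V → ℤ), Continuous (ext δ h)

/-- the centred field `2 (g - E g)` -/
noncomputable def Sq.fld {Ω : Set ℂ} (A : Sq Ω) (hc : ContSt) : End.Fld (V → ℤ) where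
  S n := HD (A.U n) (A.ξ n)
  fin n := HD_finite (A.cls n).fin _
  ne n := (ok_two (k := 0) (A.cls n).fin fun v hv => by simpa using A.two n v hv).2
  Φ n g z := 2 * (ext (A.δ n) g z - mean (HD (A.U n) (A.ξ n)) fun g' => ext (A.δ n) g' z)
  cont n g := by
    refine continuous_const.mul ((hc _ _).sub ?_)
    have h := HD_finite (A.cls n).fin (A.ξ n)
    have e : ∀ f : (V → ℤ) → ℝ, mean (HD (A.U n) (A.ξ n)) f = _ := fun f => ex_eq h f
    simp only [e]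
    exact (continuous_finsetSum _ fun g' _ => hc _ _).div_const _

/-- the same domains with the data zero -/
def Sq.flat {Ω : Set ℂ} (A : Sq Ω) : Sq Ω :=
  { A with ξ := fun _ _ => 0, two := fun _ _ _ => Or.inl rfl }

/-- the complement of `U n` is bounded by a cycle along which the data change at most twice -/
def Sq.Cyc {Ω : Set ℂ} (A : Sq Ω) : Prop := ∀ n, ∃ (W : Wall) (ia ib : ℕ), W.R = A.U n ∧
  ∀ i, A.ξ n (W.γ i) ≠ A.ξ n (W.γ (i + 1)) → W.γ i = W.γ ia ∨ W.γ i = W.γ ib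

/-- moment bounds for the field -/
def MomFSt : Prop := ∀ (hc : ContSt) (Ω : Set ℂ), IsOpen Ω → IsConnected Ω →
  Bornology.IsBounded Ω → ∀ A : Sq Ω, (A.fld hc).Mom Ω ∧ (A.fld hc).Bd Ω

/-- moments of pairings with functions of small support -/
def MomSSt : Prop := ∀ (hc : ContSt) (Ω : Set ℂ), IsOpen Ω → IsConnected Ω →
  Bornology.IsBounded Ω → ∀ A : Sq Ω, ∀ K ⊆ Ω, IsCompact K → ∀ q : ℕ, ∃ C r0 : ℝ, 0 < r0 ∧
    ∀ r, 0 < r → r ≤ r0 → ∀ x ∈ K, ∀ᶠ n in atTop, ∀ f : ℂ → ℝ, Continuous f →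
      (∀ z, r ≤ ‖z - x‖ → f z = 0) → ∀ b, (∀ z, |f z| ≤ b) →
      mean ((A.fld hc).S n) (fun g => (A.fld hc).X f n g ^ (2 * q)) ≤
        C * (b * (r * √r)) ^ (2 * q) ∧
      (∫ z, f z = 0 → mean ((A.fld hc).S n) (fun g => (A.fld hc).X f n g ^ (2 * q)) ≤
        C * (b * r ^ 2) ^ (2 * q))

/-- the Schwinger Dyson equation -/
def SDFSt : Prop := ∃ κ > (0 : ℝ), ∀ (hc : ContSt) (Ω : Set ℂ), IsOpen Ω → IsConnected Ω →
  Bornology.IsBounded Ω → ∀ A : Sq Ω, (A.fld hc).SD Ω κ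

/-- the Dirichlet condition -/
def DirFSt : Prop := ∀ (hc : ContSt) (Ω : Set ℂ), IsOpen Ω → IsConnected Ω →
  Bornology.IsBounded Ω → ∀ A : Sq Ω, A.Cyc →
    (∀ z0 ∈ Ω, (A.fld hc).Dir Ω z0) ∧ (A.flat.fld hc).Dir0 Ω

/-- from the domains of the statement to the sequences of discrete domains -/
def BridgeSt : Prop := ∀ (hc : ContSt) (Ω : Set ℂ) (δ : ℕ → ℝ), (∀ n, 0 < δ n) →
  Tendsto δ atTop (𝓝 0) → ∀ Q : ∀ n, Dom (δ n), Car (fun n => (Q n).D) Ω →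
    ∃ A : Sq Ω, A.Cyc ∧ ∀ (k : ℕ) (φ : Fin k → ℂ → ℝ), (∀ i, Test Ω (φ i)) →
      ∀ᶠ n in atTop, ∀ F : (Fin k → ℝ) → ℝ,
        mean (Q n).H (fun h => F fun i => (Q n).pair (φ i) h) =
          mean ((A.fld hc).S n) fun g => F fun i => (A.fld hc).X (φ i) n g

end Pool.Agent.Lib.MP_6359c9_pr
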