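import Pool.Agent.Lib.MP_6359c9_pr.Spec

/-! Statement of the cluster expansion of the heights given the red spins. -/

namespace Pool.Agent.Lib.MP_6359c9_pr

open Set

/-- the box of radius `a` around `u` is a point or is screened from `O` by double edges -/
def Scr (w : Cf) (u : V) (a : ℤ) (O : Set V) : Prop :=
  a = 0 ∨ 0 ≤ a ∧ ∃ s, Sep (lev (red w) s) (Bx u a) O

/-- cluster expansion: `G` is the part of the height carried by the clusters that leave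
`Uf (red w)`, and `Q` bounds the conditional covariance of the rest -/
def KhiSt : Prop := ∃ K : ℕ → ℝ, (∀ q, 0 < K q) ∧
  ∀ (ρ : V → Set Bool) (W : Set V) (Uf : (V → Bool) → Set V) (o : V), Tame ρ W →
  (∀ r, Uf r ⊆ W ∧ CoConn (Uf r) ∧ o ∉ Uf r) →
  ∃ (G : Cf → V → ℝ) (Q : Cf → V → V → ℝ),
    (∀ (q : ℕ) (s : Finset V) (f : V → ℝ), Ex (MS ρ W) (fun w => lin s f o w ^ (2 * q)) ≤
      K q * Ex (MS ρ W) fun w => (∑ v ∈ s, f v * G w v) ^ (2 * q) +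
        (∑ u ∈ s, ∑ v ∈ s, |f u| * |f v| * Q w u v) ^ q) ∧
    (∀ (s : Finset V) (f f' : V → ℝ), |Ex (MS ρ W) fun w => lin s f o w * lin s f' o w| ≤
      Ex (MS ρ W) fun w => |∑ v ∈ s, f v * G w v| * |∑ v ∈ s, f' v * G w v| +
        ∑ u ∈ s, ∑ v ∈ s, |f u| * |f' v| * Q w u v) ∧
    (∀ w u v, 0 ≤ Q w u v) ∧
    (∀ w ∈ MS ρ W, ∀ (u v : V) (a b m : ℤ), Scr w u a (Bx u m)ᶜ → Scr w v b (Bx v m)ᶜ →
      (a = 0 ∧ b = 0 ∨ Disjoint (Bx u m) (Bx v m)) → Q w u v ≤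
        25 * (((Tn (Uf (red w))ᶜ (Bx u a) w : ℝ) + 1) * ((Tn (Uf (red w))ᶜ (Bx v b) w : ℝ) + 1))) ∧
    (∀ w ∈ MS ρ W, ∀ (B : Set V) (s : Bool) (u v : V), Sep (lev (red w) s) B (Uf (red w))ᶜ →
      Conn B u v → G w u = G w v) ∧
    ∀ w ∈ MS ρ W, ∀ (u : V) (a : ℤ), Scr w u a (Uf (red w))ᶜ → ∃ o', o' ∉ Uf (red w) ∧
      |G w u - ((gr w o' : ℝ) - gr w o)| ≤ 5 * ((Tn (Uf (red w))ᶜ (Bx u a) w : ℝ) + 1) ∧
      ∃ u' ∈ Bx u a, Conn {y | |gr w y - gr w o'| ≤ 5 * ((Tn (Uf (red w))ᶜ (Bx u a) w : ℤ) + 1)} o' u'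

end Pool.Agent.Lib.MP_6359c9_pr
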