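import Pool.Agent.Lib.MP_6359c9_pr.HMain

/-! Crossing count, part A: attachment to a wall two levels above the frame. -/

namespace Pool.Agent.Lib.MP_6359c9_pr

open Set

/-- heights in `{1, 2}` on `L` off `R`, zero off `L` -/
def tcT (R L : Set V) (v : V) : Set ℤ := {a | (v ∉ R → v ∈ L → a = 1 ∨ a = 2) ∧ (v ∉ L → a = 0)}

/-- the same modulo four -/
def tcM (R L : Set V) (v : V) : Set ℤ :=
  {a | (v ∉ R → v ∈ L → a % 4 = 1 ∨ a % 4 = 2) ∧ (v ∉ L → a = 0)}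

/-- the blue data of this model -/
def tcB (R L : Set V) (v : V) : Set Bool :=
  {b | (v ∉ R → v ∈ L → b = false) ∧ (v ∉ L → b = true)}

lemma tcM_eq {R L : Set V} (hR : Cls R) (hL : L.Finite) (s : R ⊆ L) :
    Ht (tcM R L) = Ht (tcT R L) := by
  refine Subset.antisymm (fun g hg => ⟨hg.1, fun v => ⟨fun h1 h2 => ?_, (hg.2 v).2⟩⟩)
    fun g hg => ⟨hg.1, fun v => ⟨fun h1 h2 => by have := (hg.2 v).1 h1 h2; omega, (hg.2 v).2⟩⟩
  obtain ⟨o, ho⟩ := hL.exists_notMem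
  have key : g v = 0 ∧ v ∉ L ∨ g v = 1 ∨ g v = 2 := by
    refine (hR.co o (fun h => ho (s h)) v h1).ind
      (P := fun x => g x = 0 ∧ x ∉ L ∨ g x = 1 ∨ g x = 2) (Or.inl ⟨(hg.2 o).2 ho, ho⟩) ?_
    intro a b _ ab hb ih
    by_cases h : b ∈ L
    · have h3 := (hg.2 b).1 hb h
      have h4 := hg.1 a b ab
      unfold Hp at h4
      right
      omega
    · exact Or.inl ⟨(hg.2 b).2 h, h⟩
  exact key.resolve_left fun h => h.2 h2

lemma bij_tc {R L : Set V} (hR : Cls R) (hL : Cls L) (s : R ⊆ L) :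
    BijOn spn (Ht (tcT R L)) (Sp (tb (tcB R L) L)) := by
  rw [← tcM_eq hR hL.fin s]
  refine bij_spn hL.fin hL.co (fun _ hv _ ha => Or.inl (ha.2 hv)) (fun _ hv _ hs => hs.2 hv)
    fun v a h => ?_
  simp only [tcM, tb, tcB, mem_ofPred_eq, sp1_red, sp1_blue, sp1_blue']
  by_cases h1 : v ∈ R <;> by_cases h2 : v ∈ L <;> simp_all <;> omega

lemma ok_tcT (R : Set V) {L : Set V} (hL : L.Finite) : Ok (Ht (tcT R L)) := by
  classical
  refine ⟨Ht_finite hL fun _ hv _ ha _ hb => (ha.2 hv).trans (hb.2 hv).symm,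
    fun v => if v ∈ L then 1 else 0, lp_of_two (k := 0) fun v => ?_, fun v => ⟨fun _ h => ?_,
      fun h => ?_⟩⟩
  · split_ifs <;> simp
  · simp [h]
  · simp [h]

/-- a path of non positive heights across a ring -/
def tcLow (R : Set V) (y : V) (m M : ℤ) : Set (V → ℤ) :=
  {g | ∃ p ∈ Bx y m, ∃ p', p' ∉ Bx y M ∧ Conn (R ∩ {q | g q ≤ 0}) p p'}

theorem tc_low : ∃ Λ : ℤ, 1 ≤ Λ ∧ ∀ (R L : Set V) (ξ : V → ℤ) (y : V) (m M : ℤ), Cls R → Cls L →
    R ⊆ L → Ok (HD R ξ) → Bd R ξ (Ici 0) → (∀ w ∈ cl R, w ∉ R → w ∈ L → 2 ≤ ξ w) → 1 ≤ m →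
    Λ * m ≤ M → Bx y (M + 1) ⊆ L → (∃ w ∈ Bx y m, w ∉ R) →
    Pr (HD R ξ) (tcLow R y m M) ≤ 1 / 2 := by
  obtain ⟨C, α, hC, hα, H⟩ := arm_tm
  obtain ⟨k, k1, k2⟩ : ∃ k : ℕ, 1 ≤ k ∧ (k : ℝ) ^ (-α) < 1 / 2 / C :=
    ((Filter.eventually_ge_atTop 1).and (((tendsto_rpow_neg_atTop hα).comp
      tendsto_natCast_atTop_atTop).eventually (gt_mem_nhds (by positivity)))).exists
  refine ⟨k, by omega, fun R L ξ y m M hR hL s o hb h2 hm hM hB hw => ?_⟩
  have mM : m ≤ M := by nlinarith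
  have u1 : ∀ v ∈ R, tcT R L v = univ := fun v hv =>
    eq_univ_of_forall fun _ => ⟨fun h => absurd hv h, fun h => absurd (s hv) h⟩
  refine (pr_Ht_le' (R := R) u1 (wl_univ ξ) (fun v h1 hv a ha b hb' => ?_) (ok_tcT R hL.fin) o
    ?_).trans ?_
  · rw [hb' hv]
    by_cases h : v ∈ L
    · have := ha.1 hv h
      have := h2 v h1 hv h
      omega
    · rw [ha.2 h]; exact hb v h1 hv
  · rintro a b _ _ e ha ⟨p, hp, p', hp', c⟩
    exact ha ⟨p, hp, p', hp', c.mono fun q hq => ⟨hq.1, (e q (sub_cl _ hq.1)).trans hq.2⟩⟩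
  have t0 : Tame (off true L) L := tame_off true hL.fin hL.fin hL.co
  have k3 := H false (off true L) L y m M t0 hm mM fun v hv _ =>
    ⟨eq_univ_of_forall fun _ h => absurd (hB (Bx_mono (by omega) hv)) h,
      hB (Bx_mono (by omega) hv)⟩
  have ok1 : Ok (Sp (tm (tcB R L) L)) :=
    (ok_bij (bij_tb _ L)).1 ((ok_bij (bij_tc hR hL s)).1 (ok_tcT R hL.fin))
  have k4 : Pr (Sp (tm (tcB R L) L)) (red ⁻¹' (SepE false (Bx y m) (Bx y M)ᶜ)ᶜ) ≤
      Pr (Sp (tm (off true L) L)) (red ⁻¹' (SepE false (Bx y m) (Bx y M)ᶜ)ᶜ) := by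
    refine (hol_tm hL.fin hL.co fun v => ?_).pr_le ok1 t0.ok (SepE_lower _ _).compl
    intro a ha b hb
    refine ⟨⟨fun h1 h2 => by rw [ha.1 h1 h2]; simp, fun h => by rw [ha.2 h, hb h]; simp⟩,
      fun h => by rw [hb h]; simp⟩
  rw [← pr_bij (bij_tb _ L), ← pr_bij (bij_tc hR hL s)] at k4
  have k5 : C * ((m : ℝ) / M) ^ α ≤ 1 / 2 := by
    have d0 : (0 : ℝ) < m := by exact_mod_cast (by omega : (0 : ℤ) < m)
    have m0 : (0 : ℝ) < k := by exact_mod_cast k1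
    have n1 : (k : ℝ) * m ≤ M := by exact_mod_cast hM
    have : ((m : ℝ) / M) ^ α ≤ (k : ℝ) ^ (-α) := by
      rw [Real.rpow_neg m0.le, ← Real.inv_rpow m0.le]
      refine Real.rpow_le_rpow (div_nonneg d0.le (by nlinarith)) ?_ hα.le
      rw [div_le_iff₀ (by nlinarith), inv_mul_eq_div, le_div_iff₀ m0]
      linarith
    rw [lt_div_iff₀ hC] at k2
    nlinarith
  refine le_trans (pr_mono ?_) (k4.trans (k3.trans k5))
  rintro g hg ⟨p, hp, p', hp', c⟩ hs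
  have hs' : Sep ({v | g v = 1 ∨ g v = 2} ∪ (Bx y (M + 1))ᶜ) (Bx y m) (Bx y M)ᶜ := by
    refine sep_level hR hw (fun v hv => ?_) (fun u hu hb v hv e => Or.inl ?_) hs
    · by_cases h : v ∈ Bx y (M + 1)
      · exact Or.inl ((hg.2 v).1 hv (hB h))
      · exact Or.inr h
    · have t1 : g u = 1 ∨ g u = 2 := hu.resolve_right fun k => k hb
      have t2 := sp1_blue'.1 hv
      have t3 := hg.1 u v e
      unfold Hp at t3
      show g v = 1 ∨ g v = 2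
      omega
  obtain ⟨a, b, c1, ab, hb, -⟩ := c.exit (Bx_mono mM hp) hp'
  have k : ∀ q, Conn (R ∩ {q | g q ≤ 0} ∩ Bx y M) p q →
      q ∉ {v | g v = 1 ∨ g v = 2} ∪ (Bx y (M + 1))ᶜ := by
    rintro q hq (h | h)
    · have h1 : g q ≤ 0 := hq.right.1.2
      have h2 : g q = 1 ∨ g q = 2 := h
      omega
    · exact h (Bx_mono (by omega) hq.right.2)
  exact hs' p hp b hb (((c1.cluster.nconn k).mono subset_rfl (subset_univ _)).tail ab trivial
    fun h => k a c1 h.1)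

/-- a high path from the wall near `y` to the box of radius `r` -/
def tcAt (R : Set V) (y : V) (M r : ℤ) : Set (V → ℤ) :=
  {g | ∃ w ∈ Bx y M, w ∉ R ∧ ∃ u v, Adj w u ∧ Conn (R ∩ {q | 2 ≤ g q}) u v ∧ v ∈ Bx y r}

theorem tc_at : ∃ K : ℤ, 2 ≤ K ∧ ∃ c > (0 : ℝ), ∀ (R L : Set V) (ξ : V → ℤ) (y : V) (d : ℤ),
    Cls R → Cls L → R ⊆ L → Ok (HD R ξ) → Bd R ξ (Ici 0) →
    (∀ w ∈ cl R, w ∉ R → w ∈ L → 2 ≤ ξ w) → 4 ≤ d → Bx y (d - 1) ⊆ R → (∃ w ∈ Bx y d, w ∉ R) →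
    Bx y (K * d) ⊆ L → c ≤ Pr (HD R ξ) (tcAt R y (K * d) (d / 2)) := by
  obtain ⟨K, hK, c, hc, H⟩ := atSt zSt mb_main
  obtain ⟨Λ, hΛ, H'⟩ := tc_low
  refine ⟨Λ * (K + 1) + 1, by nlinarith, c / 2, by positivity,
    fun R L ξ y d hR hL s o hb h2 hd hB hw hBL => ?_⟩
  set m := K * d + 1 with hm
  set M := Λ * m + 1 with hM
  have m1 : 2 * d ≤ K * d := by nlinarith
  have m2 : m ≤ Λ * m := by nlinarith
  have m3 : M ≤ (Λ * (K + 1) + 1) * d := by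
    have : Λ * 1 ≤ Λ * d := by nlinarith
    rw [hM, hm]; nlinarith
  have sL : Bx y M ⊆ L := (Bx_mono m3).trans hBL
  set A := Bx y M with hA
  set Kf : (V → ℤ) → Set V := SK (Iic 0) R Aᶜ with hKf
  set Z : Set (V → ℤ) := {g | ∀ q ∈ Bx y (K * d), q ∈ R → q ∉ cl (Kf g)} with hZ
  obtain ⟨w0, w1, w2⟩ := hw
  have co : CoConn (R \ Aᶜ) := coConn_diff' hR.co fun q hq => by
    obtain ⟨o, ho⟩ := (hR.fin.union (Bx_finite y M)).exists_notMem
    exact ⟨o, fun h => ho (Or.inl h), (coBx_conn (fun h => ho (Or.inr h)) hq).mono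
      subset_union_left⟩
  have p2 : Pr (HD R ξ) Zᶜ ≤ 1 / 2 := by
    refine le_trans (pr_mono fun g _ hg => ?_) (H' R L ξ y m (M - 1) hR hL s o hb h2 (by omega)
      (by omega) (by rwa [sub_add_cancel]) ⟨w0, Bx_mono (by omega) w1, w2⟩)
    simp only [hZ, mem_compl_iff, mem_ofPred_eq] at hg
    push Not at hg
    obtain ⟨q, q1, -, q3⟩ := hg
    obtain ⟨p, p1, p2⟩ : ∃ p ∈ Kf g, p ∈ Bx y m := by
      rcases q3 with q3 | ⟨p, hp, e⟩
      · exact ⟨q, q3, Bx_mono (by omega) q1⟩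
      · exact ⟨p, hp, Bx_adj q1 e.symm⟩
    rcases p1 with p1 | ⟨o, ho, w, e, c⟩
    · exact absurd (Bx_mono (by omega) p2) p1
    exact ⟨p, p2, w, fun h => ho (by simpa using Bx_adj h e.symm), c.symm⟩
  have p1 : c * Pr (HD R ξ) Z ≤ Pr (HD R ξ) (tcAt R y ((Λ * (K + 1) + 1) * d) (d / 2)) := by
    rw [pr_HD_stop (stop_SK (Iic 0) R Aᶜ) R ξ (tcAt _ _ _ _), pr_eq _ Z, ← ex_mul]
    refine ex_mono fun a ha => ?_
    by_cases h : a ∈ Z
    swap
    · rw [indicator_of_notMem h, mul_zero]; exact pr_nonneg _ _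
    rw [indicator_of_mem h, Pi.one_apply, mul_one]
    have cs : Cls (R \ cl (Kf a)) := cls_SK hR.fin co
    have o' := Lp.ok ha.1 cs.fin
    have B := bij_HD_shift (-1) (R \ cl (Kf a)) a
    have wall : ∀ v ∈ cl (R \ cl (Kf a)), v ∉ R → v ∈ A → 2 ≤ a v := fun v h1 h3 h4 => by
      rw [ha.2 v h3]
      exact h2 v (cl_mono sdiff_subset h1) h3 (sL h4)
    have nR : ∀ w ∈ Bx y (K * d), w ∉ R \ cl (Kf a) → w ∉ R := fun w h1 h3 h4 =>
      h3 ⟨h4, h w h1 h4⟩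
    have sB : Bx y (d - 1) ⊆ R \ cl (Kf a) := fun v hv =>
      ⟨hB hv, h v (Bx_mono (by omega) hv) (hB hv)⟩
    have := H (R \ cl (Kf a)) (fun v => a v + -1) y d cs ((ok_bij B).1 o') (fun v h1 h3 => ?_) hd sB
      ⟨w0, w1, fun k => w2 k.1⟩ fun w h1 c1 => ?_
    · rw [← pr_bij B] at this
      refine this.trans (pr_mono ?_)
      rintro g - ⟨w, h1, c1, u, v, e, c2, hv⟩
      refine ⟨w, Bx_mono (by omega) c1.right, nR w c1.right h1, u, v, e,
        c2.mono fun q hq => ⟨hq.1.1, ?_⟩, hv⟩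
      have : 1 ≤ g q + -1 := hq.2
      show 2 ≤ g q
      omega
    · obtain ⟨k1, k2⟩ := SK_bd h1 h3
      show 0 ≤ a v + -1
      by_cases r : v ∈ R
      · have k3 : a v ∉ Iic 0 := (k2.resolve_left fun k => k.1 r).resolve_left fun k => k r
        simp only [mem_Iic] at k3
        omega
      · have := wall v h1 r (by_contra fun k => k1 (sub_SK k))
        omega
    · have hy : y ∈ R \ cl (Kf a) := sB (by rw [mem_Bx]; omega)
      have k1 : w ∈ cl (R \ cl (Kf a)) := by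
        refine c1.ind (Q := fun x => x ∈ cl (R \ cl (Kf a))) (sub_cl _ hy) ?_
        intro p q _ e _ n _
        by_cases k : p ∈ R \ cl (Kf a)
        · exact mem_cl k e
        · exact sub_cl _ (by_contra fun k' => n ⟨k, k'⟩)
      have := wall w k1 (nR w c1.right h1) (Bx_mono (by omega) c1.right)
      show 1 ≤ a w + -1
      omega
  rw [pr_compl o] at p2
  nlinarith

end Pool.Agent.Lib.MP_6359c9_pr
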