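import Pool.Agent.Lib.MP_6359c9_pr.TcA

/-! Crossing count, part B: closing a parallelogram to the right of a high wall. -/

namespace Pool.Agent.Lib.MP_6359c9_pr

open Set

/-- the horizontal strip between two rows -/
def Stp (y y' : ℤ) : Set V := {v | y ≤ v.2 ∧ v.2 ≤ y'}

lemma Conn.row {S : Set V} {u v : V} {y : ℤ} (h : Conn S u v) (hu : u.2 ≤ y) (hv : y ≤ v.2) :
    ∃ w ∈ S, w.2 = y := by
  by_cases e : u.2 = y
  · exact ⟨u, h.left, e⟩
  obtain ⟨a, b, h1, h2, h3, h4⟩ := h.exit (T := {w | w.2 < y}) (lt_of_le_of_ne hu e) (not_lt.2 hv)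
  have h5 : a.2 < y := h1.right.2
  have h6 : ¬b.2 < y := h3
  refine ⟨b, h4.left, ?_⟩
  unfold Adj at h2
  omega

theorem tc_core : ∃ c > (0 : ℝ), ∃ n0 : ℤ, ∀ (R G : Set V) (ξ : V → ℤ) (x y n : ℤ), n0 ≤ n →
    Cls R → R ⊆ Rec x (x + 6 * n) y (y + n) → Ok (HD R ξ) → Bd R ξ (Ici 0) →
    (∀ w ∈ cl R, w ∉ R → w.1 ≤ x + 6 * n → w ∈ Stp y (y + n) →
      2 ≤ ξ w ∧ ∃ u : V, u.1 ≤ x ∧ Conn (G ∩ Stp y (y + n)) u w) →
    Rec (x + 5 * n + 1) (x + 6 * n) y (y + n) ⊆ R → BT Rᶜ x (x + 5 * n) y (y + n) →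
    c ≤ Pr (HD R ξ) {g | ¬BT ({v | g v ≤ 1} \ G) x (x + 5 * n) y (y + n)} := by
  obtain ⟨K, hK, c, hc, H⟩ := tc_at
  obtain ⟨K', rfl⟩ := Int.eq_ofNat_of_zero_le (by omega : 0 ≤ K)
  obtain ⟨c', hc', d0, H'⟩ := climbSt 1 (200 * K')
  refine ⟨c * c', by positivity, 4 * K' * (2 * max d0 10 + 4), fun R G ξ x y n hn hR sR o hb hw
    sQ hBT => ?_⟩
  set d := n / (4 * K') with hd
  have K0 : (0 : ℤ) < 4 * K' := by omega
  have d1 : 2 * max d0 10 + 4 ≤ d := by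
    rw [hd]; exact Int.le_ediv_of_mul_le K0 (by linarith)
  have d2 : 4 * (K' * d) ≤ n := by
    have := Int.ediv_mul_le n K0.ne'
    rw [← hd] at this; nlinarith
  have d3 : n < 4 * (K' * d) + 4 * K' := by
    have := Int.lt_ediv_add_one_mul_self n K0
    rw [← hd] at this; nlinarith
  have d4 : 24 ≤ d := by omega
  have d5 : 2 * d ≤ K' * d := by nlinarith
  have d6 : K' * 24 ≤ K' * d := by nlinarith
  set τ := d / 2 - 1 with hτ
  have d7 : K' * d ≤ 2 * (K' * τ) + 3 * K' := by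
    have : d ≤ 2 * τ + 3 := by omega
    nlinarith
  set m := y + n / 2 with hm
  obtain ⟨t, ⟨t1, t2⟩, t3⟩ : ∃ t : ℤ, (x ≤ t ∧ t ≤ x + 5 * n + d ∧ ¬Bx (t, m) d ⊆ R) ∧
      ∀ s, (x ≤ s ∧ s ≤ x + 5 * n + d ∧ ¬Bx (s, m) d ⊆ R) → s ≤ t := by
    refine Int.exists_greatest_of_bdd ⟨_, fun s hs => hs.2.1⟩ ?_
    obtain ⟨e, he, b, hb', c1⟩ := hBT
    obtain ⟨w, w1, w2⟩ := c1.row (y := m) (by have : e.2 = y := he; omega)
      (by have : b.2 = y + n := hb'; omega)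
    have := w1.2
    rw [mem_Rec] at this
    exact ⟨w.1, by omega, by omega, fun h => w1.1 (h (by rw [mem_Bx]; simp only; omega))⟩
  obtain ⟨t2, t4⟩ := t2
  have t5 : ∀ s, t < s → s ≤ x + 5 * n + d + 1 → Bx (s, m) d ⊆ R := fun s s1 s2 => by
    by_cases e : s = x + 5 * n + d + 1
    · refine Subset.trans (fun v hv => ?_) sQ
      rw [mem_Bx] at hv
      simp only at hv
      rw [mem_Rec]; omega
    · by_contra h
      have := t3 s ⟨by omega, by omega, h⟩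
      omega
  set I := Rec (t - d / 2) (x + 5 * n + d + d / 2) (m - d / 2) (m + d / 2) with hI
  have hL : Cls (Rec (x - n) (x + 6 * n) y (y + n)) :=
    ⟨Rec_finite _ _ _ _, fun _ hu _ hv => coRec_conn hu hv⟩
  have sB : Bx (t, m) (K' * d) ⊆ Rec (x - n) (x + 6 * n) y (y + n) := fun v hv => by
    rw [mem_Bx] at hv
    simp only at hv
    rw [mem_Rec]; omega
  have k1 := H R _ ξ (t, m) d hR hL (fun v hv => by have := sR hv; rw [mem_Rec] at *; omega) o hb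
    (fun w h1 h2 h3 => (hw w h1 h2 h3.2.1 h3.2.2).1) (by omega)
    (Subset.trans (fun v hv => by rw [mem_Bx] at *; simp only at *; omega)
      (t5 (t + 1) (by omega) (by omega))) (not_subset.1 t4) sB
  have k2 := H' R ξ 0 τ (x, y) I hR o hb (by omega) (fun v hv => by
      rw [hI, mem_Rec] at hv
      rw [mem_Bx]
      push_cast
      simp only [mul_assoc]
      omega)
    (fun u hu => by
      rw [hI, mem_Rec] at hu
      refine Subset.trans (fun v hv => ?_)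
        (t5 (min (max u.1 (t + 1)) (x + 5 * n + d + 1)) (by omega) (by omega))
      rw [mem_Bx] at *
      simp only
      omega)
  refine le_trans (mul_le_mul k1 k2 hc'.le (pr_nonneg _ _)) ((pr_up_fkg ?_ ?_).trans (pr_mono ?_))
  · rintro a b _ _ e ⟨w, h1, h2, u, v, h3, c1, h4⟩
    exact ⟨w, h1, h2, u, v, h3, c1.mono fun q hq => ⟨hq.1, le_trans hq.2 (e q trivial)⟩, h4⟩
  · intro a b _ _ e ha u hu v hv c1
    exact ha u hu v hv (c1.mono fun q hq => le_trans (e q trivial) hq)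
  rintro g - ⟨⟨w, h1, h2, u, v, h3, c1, h4⟩, hC⟩ ⟨e, he, b, hb', c2⟩
  have h5 := sB h1
  obtain ⟨-, u0, h6, c0⟩ := hw w (mem_cl c1.left.1 h3.symm) h2 h5.2.1 h5.2.2
  have vI : v ∈ I := by
    rw [mem_Bx] at h4
    simp only at h4
    rw [hI, mem_Rec]; omega
  have zI : ((x + 5 * n + d, m) : V) ∈ I := by rw [hI, mem_Rec]; simp only; omega
  have lr : LR (G ∩ Stp y (y + n) ∪ R ∩ {q | 2 ≤ g q} ∪ I) x (x + 5 * n) y (y + n) := by
    refine LR.of_conn (u := u0) (v := (x + 5 * n + d, m))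
      (((c0.mono fun _ h => Or.inl (Or.inl h)).trans (Conn.head (Or.inl (Or.inl c0.right)) h3
        (c1.mono fun _ h => Or.inl (Or.inr h)))).trans ((Rec_conn vI zI).mono subset_union_right))
      (by omega) ?_ h6 (by simp only; omega)
    rintro q ((hq | hq) | hq)
    · exact hq.2
    · exact (sR hq.1).2.2
    · rw [hI, mem_Rec] at hq; omega
  refine lr.not_BT (T := {q | Conn (({v | g v ≤ 1} \ G) ∩ Rec x (x + 5 * n) y (y + n)) e q})
    (disjoint_left.2 ?_) ⟨e, he, b, hb', c2.cluster.cluster.mono fun q hq =>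
      ⟨hq.right, hq.right.right.2⟩⟩
  rintro q ((hq | hq) | hq) c3
  · exact c3.right.1.2 hq.1
  · have a1 : g q ≤ 1 := c3.right.1.1
    have a2 : 2 ≤ g q := hq.2
    omega
  · refine hC q hq e (fun h => ?_) (c3.symm.mono fun p hp => ?_)
    · have : e.2 = y := he
      rw [hI, mem_Rec] at hq
      rw [mem_Bx] at h
      omega
    · have : g p ≤ 1 := hp.1.1
      show g p ≤ 0 + ((1 : ℕ) : ℤ)
      omega

end Pool.Agent.Lib.MP_6359c9_pr
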