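import Pool.Agent.Lib.MP_6359c9_pr.TcB

/-! Crossing count, part C: one step of the colour exploration of a parallelogram. -/

namespace Pool.Agent.Lib.MP_6359c9_pr

open Set

/-- an explored set: the half plane on the left with paths attached inside the parallelogram -/
structure TcK (K : Set V) (x y n : ℤ) : Prop where
  left : ∀ v : V, v.1 < x → v ∈ K
  conn : ∀ v ∈ K, x ≤ v.1 → ∃ u : V, u.1 = x ∧ Conn (K ∩ Rec x (x + 5 * n) y (y + n)) u v
  stop : ∀ v ∈ K, v.1 < x + 5 * n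

variable {K : Set V} {x y n : ℤ}

lemma TcK.back (h : TcK K x y n) {v : V} (hv : v ∈ cl K) :
    ∃ u : V, u.1 ≤ x ∧ Conn (K ∩ Stp y (y + n) ∪ {v}) u v := by
  by_cases e : v.1 ≤ x
  · exact ⟨v, e, Conn.refl (Or.inr rfl)⟩
  have s : K ∩ Rec x (x + 5 * n) y (y + n) ⊆ K ∩ Stp y (y + n) ∪ {v} := fun q hq =>
    Or.inl ⟨hq.1, hq.2.2.2⟩
  rcases hv with hv | ⟨k, hk, a⟩
  · obtain ⟨u, h1, c⟩ := h.conn v hv (by omega)
    exact ⟨u, h1.le, c.mono s⟩
  · obtain ⟨u, h1, c⟩ := h.conn k hk (by unfold Adj at a; omega)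
    exact ⟨u, h1.le, (c.mono s).tail a (Or.inr rfl)⟩

lemma TcK.col (h : TcK K x y n) {v : V} (hv : v.1 ≤ x) : v ∈ cl K :=
  mem_cl (h.left (v.1 - 1, v.2) (by simp only; omega)) (by simp [Adj])

lemma TcK.wall (h : TcK K x y n) (hn : 0 ≤ n) : BT (cl K \ K) x (x + 5 * n) y (y + n) := by
  refine ((hex_Rec (cl K \ K)ᶜ (by omega) (by omega)).resolve_left ?_).mono (by simp) le_rfl
    (by omega) le_rfl le_rfl le_rfl
  rintro ⟨a, ha, c, hc, k⟩
  have : c ∈ K := k.ind (P := fun q => q ∈ K)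
    (by_contra fun e => k.left.1 ⟨h.col (le_of_eq ha), e⟩)
    fun p q _ e hq ih => by_contra fun e' => hq.1 ⟨mem_cl ih e, e'⟩
  have h1 := h.stop c this
  have h2 : c.1 = x + 5 * n := hc
  omega

/-- escape to the outside of the large parallelogram -/
lemma TcK.esc (h : TcK K x y n) {S : Set V} {v : V} (hv : v ∈ cl K) (hS : K ⊆ S) (hv' : v ∈ S)
    (hQ : (Rec x (x + 6 * n) y (y + n))ᶜ ⊆ S) :
    ∃ o, o ∉ Rec x (x + 6 * n) y (y + n) ∧ Conn S o v := by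
  by_cases e : v ∈ Rec x (x + 6 * n) y (y + n)
  swap
  · exact ⟨v, e, Conn.refl hv'⟩
  obtain ⟨u, h1, c⟩ := h.back hv
  have n1 : ((u.1 - 1, u.2) : V) ∉ Rec x (x + 6 * n) y (y + n) := by
    rw [mem_Rec]; simp only; omega
  refine ⟨_, n1, Conn.head (hQ n1) (by simp [Adj]) (c.mono ?_)⟩
  rintro q (hq | rfl)
  · exact hS hq.1
  · exact hv'

lemma coConn_of_esc {R Q : Set V} (hQ : CoConn Q) (s : R ⊆ Q)
    (h : ∀ u, u ∉ R → ∃ o, o ∉ Q ∧ Conn Rᶜ o u) : CoConn R := fun u hu v hv => by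
  obtain ⟨o, ho, c⟩ := h u hu
  obtain ⟨o', ho', c'⟩ := h v hv
  exact (c.symm.trans ((hQ o ho o' ho').mono (compl_subset_compl.2 s))).trans c'

/-- free on `R`, minus on `C`, plus elsewhere -/
def tcR (R C : Set V) (v : V) : Set Bool := {a | v ∉ R → (v ∈ C → a = false) ∧ (v ∉ C → a = true)}

theorem tc_step0 : ∃ c > (0 : ℝ), ∃ n0 : ℤ, ∀ (ρ : V → Set Bool) (W K : Set V) (x y n : ℤ),
    n0 ≤ n → Tame ρ W → TcK K x y n → Rec x (x + 6 * n) y (y + n) ⊆ W →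
    (∀ v ∈ Rec x (x + 6 * n) y (y + n), v ∉ cl K → ρ v = univ) →
    (∀ v ∈ Rec x (x + 5 * n) y (y + n), v ∈ cl K → v ∉ K → ∀ a ∈ ρ v, a = false) →
    c ≤ Pr (Sp (tm ρ W)) (red ⁻¹' {r | ¬BT (lev r true \ cl K) x (x + 5 * n) y (y + n)}) := by
  classical
  obtain ⟨c, hc, n0, H⟩ := tc_core
  refine ⟨c, hc, max n0 1, fun ρ W K x y n hn hT hK sW h1 h2 => ?_⟩
  have n1 : 1 ≤ n := by omega
  set Q := Rec x (x + 5 * n) y (y + n) with hQ
  set Q' := Rec x (x + 6 * n) y (y + n) with hQ'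
  have fQ : Q'.Finite := Rec_finite _ _ _ _
  have cQ : CoConn Q' := fun _ hu _ hv => coRec_conn hu hv
  have QQ : Q ⊆ Q' := fun v hv => by rw [hQ, mem_Rec] at hv; rw [hQ', mem_Rec]; omega
  obtain ⟨e, he, b, hb, c0⟩ := hK.wall (by omega)
  set C := {q | Conn ((cl K \ K) ∩ Q) e q} with hC
  have bC : BT C x (x + 5 * n) y (y + n) :=
    ⟨e, he, b, hb, c0.cluster.cluster.mono fun q hq => ⟨hq.right, hq.right.right.2⟩⟩
  set z : V := (x + 6 * n, y) with hz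
  set R := {v | Conn (Q' \ C) z v} with hR
  have sR : R ⊆ Q' := fun v hv => hv.right.1
  have sQ : Rec (x + 5 * n + 1) (x + 6 * n) y (y + n) ⊆ R := fun v hv =>
    (Rec_conn (by rw [hz, mem_Rec]; simp only; omega) hv).mono fun q hq => ⟨by
      rw [mem_Rec] at hq; rw [hQ', mem_Rec]; omega, fun k => by
        have := k.right.2
        rw [hQ, mem_Rec] at this
        rw [mem_Rec] at hq
        omega⟩
  have RK : ∀ v ∈ R, v ∉ cl K := fun v hv k => by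
    obtain ⟨u, u1, c1⟩ := hK.back k
    refine (LR.of_conn (S := K ∩ Stp y (y + n) ∪ Q' \ C) (u := u) (v := z)
      ((c1.mono ?_).trans (hv.symm.mono subset_union_right)) (by omega) ?_ u1
      (by rw [hz]; simp only; omega)).not_BT (disjoint_left.2 ?_) bC
    · rintro q (hq | rfl)
      · exact Or.inl hq
      · exact Or.inr hv.right
    · rintro q (hq | hq)
      · exact hq.2
      · exact hq.1.2.2
    · rintro q (hq | hq) k'
      · exact k'.right.1.2 hq.1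
      · exact hq.2 k'
  have bd : ∀ w ∈ cl R, w ∉ R → w ∈ Q' → w ∈ C := by
    rintro w (k | ⟨v, hv, a⟩) k1 k2
    · exact absurd k k1
    · exact by_contra fun k3 => k1 (hv.tail a ⟨k2, k3⟩)
  have KR : K ⊆ Rᶜ := fun v hv k => RK v k (sub_cl _ hv)
  have cR : Cls R := ⟨fQ.subset sR, coConn_of_esc cQ sR fun u hu => by
    have k1 : ∀ v, v ∉ Q' \ C → ∃ o, o ∉ Q' ∧ Conn Rᶜ o v := fun v hv => by
      by_cases k : v ∈ Q'
      · have k2 : v ∈ C := by_contra fun k' => hv ⟨k, k'⟩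
        exact hK.esc k2.right.1.1 KR (fun k3 => RK v k3 k2.right.1.1) (compl_subset_compl.2 sR)
      · exact ⟨v, k, Conn.refl fun k' => k (sR k')⟩
    by_cases k : u ∈ Q' \ C
    swap
    · exact k1 u k
    obtain ⟨o, ho⟩ := fQ.exists_notMem
    obtain ⟨p, q, c1, a, k2, -⟩ := (conn_univ u o).exit k fun k' => ho k'.1
    obtain ⟨o', ho', c2⟩ := k1 q k2
    refine ⟨o', ho', c2.trans (Conn.head c2.right a.symm (c1.cluster.symm.mono fun w hw k3 => ?_))⟩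
    exact hu (Conn.trans k3 (hw.symm.mono inter_subset_right))⟩
  have cU : CoConn (Q' \ K) := coConn_of_esc cQ sdiff_subset fun u hu => by
    by_cases k : u ∈ K
    · exact hK.esc (sub_cl _ k) (fun v hv k' => k'.2 hv) hu fun v hv k' => hv k'.1
    · exact ⟨u, fun k' => hu ⟨k', k⟩, Conn.refl hu⟩
  have RU : R ⊆ Q' \ K := fun v hv => ⟨sR hv, fun k => KR k hv⟩
  have CU : C ⊆ Q' \ K := fun v hv => ⟨QQ hv.right.2, hv.right.1.2⟩
  have t1 : Tame (tcR R C) W := ⟨hT.fin, hT.co, ⟨R, cR.fin, fun v hv a ha b hb => by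
      by_cases k : v ∈ C
      · rw [(ha hv).1 k, (hb hv).1 k]
      · rw [(ha hv).2 k, (hb hv).2 k]⟩,
    fun v => ⟨decide (v ∉ C), fun _ => ⟨fun k => by simp [k], fun k => by simp [k]⟩⟩⟩
  set A := {r : V → Bool | ¬BT (lev r true \ cl K) x (x + 5 * n) y (y + n)} with hA
  have up : IsUpperSet Aᶜ := fun a b h ha hb => ha fun k =>
    hb (k.mono (sdiff_subset_sdiff_left (lev_mono h)) le_rfl (by omega) le_rfl le_rfl le_rfl)
  have k1 := (hol_tm hT.fin hT.co (ρ := ρ) (ρ' := tcR R C) fun v a ha b hb => ?_).pr_le hT.ok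
    t1.ok up
  swap
  · by_cases r : v ∈ R
    · rw [h1 v (sR r) (RK v r)]
      exact ⟨trivial, fun k => absurd r k⟩
    by_cases k : v ∈ C
    · obtain rfl := h2 v k.right.2 k.right.1.1 k.right.1.2 a ha
      rw [(hb r).1 k]
      exact ⟨ha, fun _ => ⟨fun _ => rfl, fun k' => absurd k k'⟩⟩
    · rw [(hb r).2 k]
      exact ⟨by simpa using ha, fun _ => ⟨fun k' => absurd k' k, fun _ => by simp⟩⟩
  rw [preimage_compl, pr_compl hT.ok, pr_compl t1.ok] at k1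
  refine le_trans ?_ (by linarith : Pr (Sp (tm (tcR R C) W)) (red ⁻¹' A) ≤ _)
  set T : V → Set ℤ := fun v => {a | sp1 a ∈ tm (tcR R C) W v ∧ (v ∉ Q' \ K → a = 0 ∨ a = 1)}
    with hT'
  have B : BijOn spn (Ht T) (Sp (tm (tcR R C) W)) := bij_spn (fQ.subset sdiff_subset) cU
    (fun v hv a ha => ha.2 hv)
    (fun v hv s hs => (hs.1 fun k => hv (RU k)).2 fun k => hv (CU k))
    fun v a h => ⟨fun k => k.1, fun k => ⟨k, h⟩⟩
  have uT : ∀ v ∈ R, T v = univ := fun v hv => eq_univ_of_forall fun a =>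
    ⟨⟨fun k => absurd hv k, fun k => absurd (sW (sR hv)) k⟩, fun k => absurd (RU hv) k⟩
  rw [← pr_bij B, pr_eq, ex_Ht_cond uT]
  refine le_ex ((ok_bij B).2 t1.ok) fun ξ hξ => ?_
  rw [← pr_eq]
  have two : ∀ v, v ∉ Q' \ K → ξ v = 0 ∨ ξ v = 1 := fun v hv => (hξ.2 v).2 hv
  have onC : ∀ v ∈ C, ξ v = 2 ∨ ξ v = -1 := fun v hv => by
    obtain ⟨k, hk, a⟩ := hv.right.1.1.resolve_left hv.right.1.2
    have a1 := two k fun k' => k'.2 hk
    have a2 := sp1_red'.1 (((hξ.2 v).1.1 fun k' => RK v k' hv.right.1.1).1 hv)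
    have a3 := hξ.1 k v a
    unfold Hp at a3
    omega
  have cst : ∀ v ∈ C, ξ v = ξ e := fun v hv => (hv.cluster.const fun p hp q hq a => by
    have a1 := onC p hp
    have a2 := onC q hq
    have a3 := hξ.1 p q a
    unfold Hp at a3
    omega).symm
  have inQ : ∀ w ∈ cl R, w ∉ R → w.1 ≤ x + 6 * n → w ∈ Stp y (y + n) →
      w ∈ C ∧ ∃ u : V, u.1 ≤ x ∧ Conn (cl K ∩ Stp y (y + n)) u w := fun w k1 k2 k3 k4 => by
    obtain ⟨v, hv, a⟩ := k1.resolve_left k2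
    have a1 : ¬v.1 ≤ x := fun k => RK v hv (hK.col k)
    have a2 : w ∈ C := bd w k1 k2 ⟨by unfold Adj at a; omega, k3, k4⟩
    obtain ⟨u, u1, c1⟩ := hK.back a2.right.1.1
    refine ⟨a2, u, u1, c1.mono ?_⟩
    rintro q (hq | rfl)
    · exact ⟨sub_cl _ hq.1, hq.2⟩
    · exact ⟨a2.right.1.1, k4⟩
  have bR : BT Rᶜ x (x + 5 * n) y (y + n) :=
    bC.mono (fun v hv k => k.right.2 hv) le_rfl (by omega) le_rfl le_rfl le_rfl
  have fin : ∀ g ∈ HD R ξ, spn g ∉ red ⁻¹' A →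
      BT ({v | g v = 0 ∨ g v = 1} \ cl K) x (x + 5 * n) y (y + n) := fun g hg k => by
    obtain ⟨p, hp, q, hq, c1⟩ := not_not.1 k
    refine ⟨p, hp, q, hq, c1.cluster.mono fun w hw => ⟨⟨?_, hw.right.1.2⟩, hw.right.2⟩⟩
    have step : ∀ a b, Adj a b → (g a = 0 ∨ g a = 1) → b ∈ lev (red (spn g)) true →
        g b = 0 ∨ g b = 1 := fun a b ab ha hb => by
      have a1 := sp1_red.1 hb
      have a2 := hg.1 a b ab
      unfold Hp at a2
      omega
    refine hw.ind (P := fun v => g v = 0 ∨ g v = 1) ?_ fun a b _ ab hb ih => step a b ab ih hb.1.1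
    have a1 : ((p.1, p.2 - 1) : V) ∉ Q' := by
      have : p.2 = y := hp
      rw [hQ', mem_Rec]; simp only; omega
    refine step (p.1, p.2 - 1) p (by simp [Adj]) ?_ hw.left.1.1
    rw [hg.2 _ fun k => a1 (sR k)]
    exact two _ fun k => a1 k.1
  have ok := Lp.ok hξ.1 cR.fin
  have eC : e ∈ C := Conn.refl c0.left
  rcases onC e eC with he2 | he2
  · refine (H R (cl K) ξ x y n (by omega) cR sR ok (fun w k1 k2 => ?_)
      (fun w k1 k2 k3 k4 => ?_) sQ bR).trans (pr_mono fun g hg k => by_contra fun k' => k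
        ((fin g hg k').mono (fun v hv => ⟨?_, hv.2⟩) le_rfl (by omega) le_rfl le_rfl le_rfl))
    · show 0 ≤ ξ w
      by_cases k : w ∈ Q'
      · rw [cst w (bd w k1 k2 k)]; omega
      · have := two w fun k' => k k'.1
        omega
    · obtain ⟨a1, a2⟩ := inQ w k1 k2 k3 k4
      exact ⟨by rw [cst w a1]; omega, a2⟩
    · have : g v = 0 ∨ g v = 1 := hv.1
      show g v ≤ 1
      omega
  · have B' := bij_HD_neg 1 R ξ
    have := H R (cl K) (fun v => 1 - ξ v) x y n (by omega) cR sR ((ok_bij B').1 ok)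
      (fun w k1 k2 => ?_) (fun w k1 k2 k3 k4 => ?_) sQ bR
    · rw [← pr_bij B'] at this
      refine this.trans (pr_mono fun g hg k => by_contra fun k' => k
        ((fin g hg k').mono (fun v hv => ⟨?_, hv.2⟩) le_rfl (by omega) le_rfl le_rfl le_rfl))
      have : g v = 0 ∨ g v = 1 := hv.1
      show 1 - g v ≤ 1
      omega
    · show 0 ≤ 1 - ξ w
      by_cases k : w ∈ Q'
      · rw [cst w (bd w k1 k2 k)]; omega
      · have := two w fun k' => k k'.1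
        omega
    · obtain ⟨a1, a2⟩ := inQ w k1 k2 k3 k4
      exact ⟨by rw [cst w a1]; omega, a2⟩

theorem tc_step : ∃ c > (0 : ℝ), ∃ n0 : ℤ, ∀ (s : Bool) (ρ : V → Set Bool) (W K : Set V)
    (x y n : ℤ), n0 ≤ n → Tame ρ W → TcK K x y n → Rec x (x + 6 * n) y (y + n) ⊆ W →
    (∀ v ∈ Rec x (x + 6 * n) y (y + n), v ∉ cl K → ρ v = univ) →
    (∀ v ∈ Rec x (x + 5 * n) y (y + n), v ∈ cl K → v ∉ K → ∀ a ∈ ρ v, a = s) →
    c ≤ Pr (Sp (tm ρ W)) (red ⁻¹' {r | ¬BT (lev r (!s) \ cl K) x (x + 5 * n) y (y + n)}) := by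
  obtain ⟨c, hc, n0, H⟩ := tc_step0
  refine ⟨c, hc, n0, fun s ρ W K x y n hn hT hK sW h1 h2 => ?_⟩
  cases s
  · exact H ρ W K x y n hn hT hK sW h1 h2
  have B : BijOn fr (Sp (tm ρ W)) (Sp (tm (fun v => {a | (!a) ∈ ρ v}) W)) :=
    bij_fr fun v a => by simp [tm]
  obtain ⟨U, hU, hs⟩ := hT.sub
  have := H (fun v => {a | (!a) ∈ ρ v}) W K x y n hn ⟨hT.fin, hT.co, ⟨U, hU, fun v hv a ha b hb =>
      Bool.not_inj (hs v hv ha hb)⟩, fun v => (hT.ne v).elim fun a ha => ⟨!a, by simpa using ha⟩⟩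
    hK sW (fun v k1 k2 => by rw [h1 v k1 k2]; rfl) fun v k1 k2 k3 a ha => by
      simpa using h2 v k1 k2 k3 _ ha
  rw [← pr_bij B] at this
  refine this.trans (pr_mono fun w _ k k' => k ?_)
  have e : lev (red (fr w)) true = lev (red w) (!true) := lev_ng (red w) true
  rwa [e]

end Pool.Agent.Lib.MP_6359c9_pr
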