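import Pool.Agent.Lib.MP_6359c9_pr.TcC
import Pool.Agent.Lib.MP_6359c9_pr.SqB

/-! Crossing count, part D: the number of disjoint strands across a ring is tight. -/

namespace Pool.Agent.Lib.MP_6359c9_pr

open Set

/-- `O` with the paths of colour `s` in `D` attached to it -/
def TK (s : Bool) (D O : Set V) (r : V → Bool) : Set V :=
  SK {1} D O fun v => if r v = s then 1 else 0

lemma TK_mem {s : Bool} {r : V → Bool} {v : V} :
    (if r v = s then (1 : ℤ) else 0) ∈ ({1} : Set ℤ) ↔ r v = s := by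
  by_cases h : r v = s <;> simp [h]

/-- the alternating exploration of the parallelogram from the left -/
def EK (x y n : ℤ) (r : V → Bool) : ℕ → Set V
  | 0 => {v | v.1 < x}
  | j + 1 => TK (decide (Even j)) (Rec x (x + 5 * n) y (y + n)) (EK x y n r j) r

variable {x y n : ℤ} {r r' : V → Bool}

lemma EK_congr (j : ℕ) (e : ∀ v ∈ cl (EK x y n r j), r' v = r v) :
    EK x y n r' j = EK x y n r j := by
  induction j with
  | zero => rfl
  | succ j ih =>
    have := ih fun v hv => e v (cl_mono sub_SK hv)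
    simp only [EK, TK, this]
    exact SK_congr fun v hv _ => by rw [e v hv]

lemma EK_left (j : ℕ) (v : V) (hv : v.1 < x) : v ∈ EK x y n r j := by
  induction j with
  | zero => exact hv
  | succ j ih => exact sub_SK ih

lemma EK_conn (j : ℕ) : ∀ v ∈ EK x y n r j, x ≤ v.1 →
    ∃ u : V, u.1 = x ∧ Conn (EK x y n r j ∩ Rec x (x + 5 * n) y (y + n)) u v := by
  induction j with
  | zero => exact fun v hv h => absurd hv (not_lt.2 h)
  | succ j ih =>
    have s : EK x y n r j ∩ Rec x (x + 5 * n) y (y + n) ⊆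
        EK x y n r (j + 1) ∩ Rec x (x + 5 * n) y (y + n) := inter_subset_inter_left _ sub_SK
    rintro v (hv | ⟨o, ho, u, a, c⟩) h
    · obtain ⟨u, h1, c⟩ := ih v hv h
      exact ⟨u, h1, c.mono s⟩
    have c' : Conn (EK x y n r (j + 1) ∩ Rec x (x + 5 * n) y (y + n)) u v :=
      c.cluster.mono fun q hq => ⟨Or.inr ⟨o, ho, u, a, hq⟩, hq.right.1⟩
    by_cases k : x ≤ o.1
    · obtain ⟨u', h1, c1⟩ := ih o ho k
      exact ⟨u', h1, (c1.mono s).trans (Conn.head (s c1.right) a c')⟩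
    · have := c.left.1.1
      exact ⟨u, by unfold Adj at a; omega, c'⟩

/-- the exploration has not reached the right side -/
def TcE (x y n : ℤ) (j : ℕ) : Set (V → Bool) := {r | ∀ v ∈ EK x y n r j, v.1 < x + 5 * n}

lemma EK_next (hn : 0 ≤ n) (j : ℕ) (h : r ∈ TcE x y n (j + 2)) :
    BT (lev r (!decide (Even (j + 1))) \ cl (EK x y n r (j + 1))) x (x + 5 * n) y (y + n) := by
  rcases hex_Rec (x := x) (x' := x + 5 * n) (y := y) (y' := y + n)
    (lev r (!decide (Even (j + 1))) \ cl (EK x y n r (j + 1)))ᶜ (by omega) (by omega) with k | k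
  swap
  · rwa [compl_compl] at k
  obtain ⟨a, ha, c, hc, k⟩ := k
  exfalso
  have step : ∀ p ∈ EK x y n r (j + 2), ∀ q, Adj p q →
      q ∈ (lev r (!decide (Even (j + 1))) \ cl (EK x y n r (j + 1)))ᶜ ∩
        Rec x (x + 5 * n) y (y + n) → q ∈ EK x y n r (j + 2) := fun p hp q e hq => by
    by_cases k1 : q ∈ EK x y n r (j + 1)
    · exact sub_SK k1
    refine SK_step hp e hq.2 (TK_mem.2 ?_)
    by_contra k2
    refine hq.1 ⟨Bool.eq_not_iff.2 k2, fun k3 => ?_⟩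
    have := (SK_out k3 k1).resolve_left fun k => k hq.2
    rw [TK_mem] at this
    revert this k2
    cases r q <;> by_cases k4 : Even j <;> simp [k4, Nat.even_add_one]
  have : c ∈ EK x y n r (j + 2) := k.ind (P := fun q => q ∈ EK x y n r (j + 2))
    (step (a.1 - 1, a.2) (EK_left _ _ (by have : a.1 = x := ha; simp only; omega)) a
      (by simp [Adj]) k.left) fun p q _ e hq ih => step p ih q e hq
  have h1 := h c this
  have h2 : c.1 = x + 5 * n := hc
  omega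

lemma pr_stop_red {ρ : V → Set Bool} {W : Set V} (h : Tame ρ W) {K : (V → Bool) → Set V}
    (hK : Stop K) {A B : Set (V → Bool)}
    (hB : ∀ r r', (∀ v ∈ K r, r' v = r v) → (r' ∈ B ↔ r ∈ B)) {c : ℝ}
    (hA : ∀ r ∈ B, (∀ v, r v ∈ ρ v) → Pr (Sp (tm (frz ρ (K r) r) W)) (red ⁻¹' A) ≤ c) :
    Pr (Sp (tm ρ W)) (red ⁻¹' (B ∩ A)) ≤ c * Pr (Sp (tm ρ W)) (red ⁻¹' B) := by
  rw [pr_eq, pr_eq, ← ex_mul]
  refine ex_fib_le (fun w => {r : V → Bool | ∀ v ∈ K (red w), r v = red w v}) fun x hx => ?_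
  have e : Sp (tm ρ W) ∩ {y | {r : V → Bool | ∀ v ∈ K (red y), r v = red y v} =
      {r : V → Bool | ∀ v ∈ K (red x), r v = red x v}} = Sp (tm (frz ρ (K (red x)) (red x)) W) := by
    ext y
    refine ⟨fun ⟨h1, h2⟩ => ⟨h1.1, fun v => ⟨⟨(h1.2 v).1, fun hv => ?_⟩, (h1.2 v).2⟩⟩,
      fun hy => ⟨⟨hy.1, fun v => ⟨(hy.2 v).1.1, (hy.2 v).2⟩⟩, ?_⟩⟩
    · have h3 : {r : V → Bool | ∀ v ∈ K (red y), r v = red y v} = _ := h2
      exact (h3.le (show red y ∈ _ from fun _ _ => rfl)) v hv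
    · have e1 : ∀ v ∈ K (red x), red y v = red x v := fun v hv => (hy.2 v).1.2 hv
      show {r : V → Bool | ∀ v ∈ K (red y), r v = red y v} = _
      rw [hK _ _ e1]
      exact Set.ext fun r => forall₂_congr fun v hv => by rw [e1 v hv]
  have hr : ∀ v, red x v ∈ ρ v := fun v => (hx.2 v).1
  have ok := (h.frz (K (red x)) hr).ok
  have iff : ∀ y ∈ Sp (tm (frz ρ (K (red x)) (red x)) W), red y ∈ B ↔ red x ∈ B := fun y hy =>
    hB _ _ fun v hv => (hy.2 v).1.2 hv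
  rw [e, ex_mul, ← pr_eq, ← pr_eq]
  by_cases hx' : red x ∈ B
  · rw [pr_all (A := red ⁻¹' B) ok fun y hy => (iff y hy).2 hx', mul_one]
    exact (pr_mono fun _ _ h => h.2).trans (hA _ hx' hr)
  · rw [pr_none (A := red ⁻¹' B) fun y hy h => hx' ((iff y hy).1 h),
      pr_none fun y hy h => hx' ((iff y hy).1 h.1), mul_zero]

theorem tc_geom : ∃ θ : ℝ, 0 ≤ θ ∧ θ < 1 ∧ ∃ n0 : ℤ, ∀ (ρ : V → Set Bool) (W : Set V)
    (x y n : ℤ) (j : ℕ), n0 ≤ n → Tame ρ W → Free ρ W (Rec x (x + 6 * n) y (y + n)) →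
    Pr (Sp (tm ρ W)) (red ⁻¹' TcE x y n (j + 1)) ≤ θ ^ j := by
  obtain ⟨c, hc, n0, H⟩ := tc_step
  refine ⟨max (1 - c) 0, le_max_right _ _, max_lt (by linarith) one_pos, max n0 0,
    fun ρ W x y n j hn hT hF => ?_⟩
  induction j with
  | zero => simpa using pr_le_one _ _
  | succ j ih =>
    have e : TcE x y n (j + 2) = TcE x y n (j + 1) ∩ TcE x y n (j + 2) :=
      Set.ext fun r => ⟨fun h => ⟨fun v hv => h v (sub_SK hv), h⟩, fun h => h.2⟩
    rw [e, pow_succ']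
    refine (pr_stop_red hT (K := fun r => cl (EK x y n r (j + 1)))
      (fun r r' e => congrArg cl (EK_congr _ e)) (fun r r' e => by
        simp only [TcE, mem_ofPred_eq, EK_congr _ e]) fun r hr hρ => ?_).trans
      (mul_le_mul_of_nonneg_left ih (le_max_right _ _))
    have t := hT.frz (cl (EK x y n r (j + 1))) hρ
    have k := H (decide (Even (j + 1))) _ W (EK x y n r (j + 1)) x y n (by omega) t
      ⟨EK_left _, EK_conn _, hr⟩ (fun v hv => (hF v hv).2)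
      (fun v hv h => by rw [frz_off h]; exact (hF v hv).1) fun v h1 h2 h3 a ha => by
        have := (SK_out h2 h3).resolve_left fun k => k h1
        rw [TK_mem] at this
        rw [ha.2 h2]
        revert this
        cases r v <;> by_cases k4 : Even j <;> simp [k4, Nat.even_add_one]
    refine le_trans (pr_mono (B := (red ⁻¹' {r' | ¬BT (lev r' (!decide (Even (j + 1))) \
      cl (EK x y n r (j + 1))) x (x + 5 * n) y (y + n)})ᶜ) fun w hw h k' => k' ?_) ?_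
    · have := EK_next (by omega) j h
      rwa [EK_congr (r := r) (r' := red w) _ fun v hv => (hw.2 v).1.2 hv] at this
    · rw [pr_compl t.ok]
      exact le_trans (by linarith) (le_max_left _ _)

/-- midpoints (on the lattice of half mesh) of the edges along which `r` changes -/
def Bi (r : V → Bool) : Set V := {m | ∃ u v, Adj u v ∧ r u ≠ r v ∧ m = u + v}

lemma dbl_mem {x x' y y' : ℤ} {u v : V} (hu : u ∈ Rec x x' y y') (hv : v ∈ Rec x x' y y') :
    u + v ∈ Rec (2 * x) (2 * x') (2 * y) (2 * y') := by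
  simp only [mem_Rec, Prod.fst_add, Prod.snd_add] at *; omega

lemma even_nBi (a : V) : a + a ∉ Bi r := fun ⟨_, _, e, _, h⟩ => mid_ne e h

lemma EK_path (j : ℕ) : ∀ v ∈ EK x y n r j, x ≤ v.1 → v ∈ Rec x (x + 5 * n) y (y + n) ∧
    ∃ F : Finset V, F.card + 1 ≤ j ∧ ∃ u : V, u.1 = x ∧
      Conn (((Bi r)ᶜ ∪ F) ∩ Rec (2 * x) (2 * (x + 5 * n)) (2 * y) (2 * (y + n))) (u + u) (v + v) := by
  classical
  induction j with
  | zero => exact fun v hv h => absurd hv (not_lt.2 h)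
  | succ j ih =>
    rintro v (hv | ⟨o, ho, u, a, c⟩) h
    · obtain ⟨h0, F, h1, h2⟩ := ih v hv h
      exact ⟨h0, F, by omega, h2⟩
    have c' : ∀ F : Finset V, Conn (((Bi r)ᶜ ∪ F) ∩
        Rec (2 * x) (2 * (x + 5 * n)) (2 * y) (2 * (y + n))) (u + u) (v + v) := fun F => by
      refine c.ind (P := fun q => Conn (((Bi r)ᶜ ∪ F) ∩
        Rec (2 * x) (2 * (x + 5 * n)) (2 * y) (2 * (y + n))) (u + u) (q + q))
        (Conn.refl ⟨Or.inl (even_nBi u), dbl_mem c.left.1 c.left.1⟩) fun p q hp e hq k => ?_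
      refine (k.tail (adj_mid e).1 ⟨Or.inl ?_, dbl_mem hp.right.1 hq.1⟩).tail (adj_mid e).2
        ⟨Or.inl (even_nBi q), dbl_mem hq.1 hq.1⟩
      rintro ⟨p', q', e', n1, h'⟩
      have a1 := (TK_mem.1 hp.right.2).trans (TK_mem.1 hq.2).symm
      rcases mid_eq e e' h' with ⟨rfl, rfl⟩ | ⟨rfl, rfl⟩
      · exact n1 a1
      · exact n1 a1.symm
    refine ⟨c.right.1, ?_⟩
    by_cases k : x ≤ o.1
    · obtain ⟨h0, F, h1, u', h2, c1⟩ := ih o ho k
      refine ⟨insert (o + u) F, by have := Finset.card_insert_le (o + u) F; omega, u', h2,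
        ((c1.mono (inter_subset_inter_left _ (union_subset_union_right _ ?_))).tail (adj_mid a).1
          ⟨Or.inr (by simp), dbl_mem h0 c.left.1⟩).trans (Conn.head ⟨Or.inr (by simp),
            dbl_mem h0 c.left.1⟩ (adj_mid a).2 (c' _))⟩
      exact fun _ h => Finset.mem_insert_of_mem h
    · have := c.left.1.1
      exact ⟨∅, by simp, u, by unfold Adj at a; omega, c' _⟩

/-- `N` disjoint strands of colour changes that satisfy `P` -/
def Strands (r : V → Bool) (N : ℕ) (P : Set V → Prop) : Prop :=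
  ∃ (s : Finset ℕ) (S : ℕ → Set V), N ≤ s.card ∧ (s : Set ℕ).PairwiseDisjoint S ∧
    ∀ i ∈ s, S i ⊆ Bi r ∧ P (S i)

lemma strands_EE (hn : 0 ≤ n) {N : ℕ}
    (h : Strands r N fun S => BT S (2 * x) (2 * (x + 5 * n)) (2 * y) (2 * (y + n))) :
    r ∈ TcE x y n N := by
  obtain ⟨s, S, h1, h2, h3⟩ := h
  intro v hv
  by_contra k
  obtain ⟨h0, F, h4, u, h5, c⟩ := EK_path N v hv (by omega)
  have lr : LR ((Bi r)ᶜ ∪ F) (2 * x) (2 * (x + 5 * n)) (2 * y) (2 * (y + n)) :=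
    ⟨u + u, by show u.1 + u.1 = _; omega, v + v, by
      have := h0.2.1
      show v.1 + v.1 = _
      omega, c⟩
  have : ∀ i ∈ s, ∃ m ∈ F, m ∈ S i := fun i hi => by
    by_contra k'
    push Not at k'
    exact lr.not_BT (disjoint_left.2 fun q hq hq' => hq.elim (fun k => k ((h3 i hi).1 hq'))
      fun k => k' q k hq') (h3 i hi).2
  choose! f f1 f2 using this
  have := Finset.card_le_card_of_injOn f (fun i hi => f1 i hi) fun i hi j hj e =>
    by_contra fun ne => disjoint_left.1 (h2 hi hj ne) (f2 i hi) (e ▸ f2 j hj)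
  omega

theorem tc_rect (η : ℝ) (hη : 0 < η) : ∃ (N : ℕ) (n0 : ℤ), ∀ (ρ : V → Set Bool) (W : Set V)
    (x y n : ℤ), n0 ≤ n → Tame ρ W → Free ρ W (Rec x (x + 6 * n) y (y + n)) →
    Pr (Sp (tm ρ W)) {w | Strands (red w) N fun S =>
      BT S (2 * x) (2 * (x + 5 * n)) (2 * y) (2 * (y + n))} ≤ η := by
  obtain ⟨θ, -, h1, n0, H⟩ := tc_geom
  obtain ⟨j, hj⟩ := exists_pow_lt_of_lt_one hη h1
  refine ⟨j + 1, max n0 0, fun ρ W x y n hn hT hF => ?_⟩
  refine le_trans (pr_mono fun w _ h => ?_) ((H ρ W x y n j (by omega) hT hF).trans hj.le)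
  rw [mem_ofPred_eq] at h
  rw [mem_preimage]
  exact strands_EE (by omega) h

theorem tc_rect' (η : ℝ) (hη : 0 < η) : ∃ (N : ℕ) (n0 : ℤ), ∀ (ρ : V → Set Bool) (W : Set V)
    (x y n : ℤ), n0 ≤ n → Tame ρ W → Free ρ W (Rec y (y + n) x (x + 6 * n)) →
    Pr (Sp (tm ρ W)) {w | Strands (red w) N fun S =>
      LR S (2 * y) (2 * (y + n)) (2 * x) (2 * (x + 5 * n))} ≤ η := by
  obtain ⟨N, n0, H⟩ := tc_rect η hη
  refine ⟨N, n0, fun ρ W x y n hn hT hF => ?_⟩
  obtain ⟨U, hU, hs⟩ := hT.sub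
  have inj := (Equiv.prodComm ℤ ℤ).injective
  have k := H (fun v => ρ v.swap) (Equiv.prodComm ℤ ℤ ⁻¹' W) x y n hn
    ⟨hT.fin.preimage inj.injOn, aut_swap.coConn hT.co,
      ⟨_, hU.preimage inj.injOn, fun v hv => hs _ hv⟩, fun v => hT.ne _⟩
    fun v hv => hF v.swap ⟨hv.2.2.1, hv.2.2.2, hv.1, hv.2.1⟩
  have B : BijOn (fun (w : Cf) v => w (Equiv.prodComm ℤ ℤ v)) (Sp (tm ρ W))
      (Sp (tm (fun v => ρ v.swap) (Equiv.prodComm ℤ ℤ ⁻¹' W))) := bij_aut Cp (tm ρ W) aut_swap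
  rw [← pr_bij B] at k
  refine le_trans (pr_mono ?_) k
  rintro w - ⟨s, S, h1, h2, h3⟩
  refine ⟨s, fun i => Prod.swap ⁻¹' S i, h1, fun i hi j hj ne => (h2 hi hj ne).preimage _,
    fun i hi => ⟨fun m hm => ?_, ?_⟩⟩
  · obtain ⟨u, v, e, n1, h⟩ := (h3 i hi).1 hm
    exact ⟨u.swap, v.swap, adj_swap e, n1, by rw [← Prod.swap_add, ← h, Prod.swap_swap]⟩
  · obtain ⟨a, ha, b, hb, c⟩ := (h3 i hi).2
    exact ⟨a.swap, ha, b.swap, hb, c.map (f := Prod.swap) (fun _ _ => adj_swap)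
      fun w hw => ⟨hw.1, hw.2.2.2.1, hw.2.2.2.2, hw.2.1, hw.2.2.1⟩⟩

lemma Strands.or {N M : ℕ} {P P' : Set V → Prop} (h : Strands r (N + M) fun S => P S ∨ P' S) :
    Strands r N P ∨ Strands r M P' := by
  classical
  obtain ⟨s, S, h1, h2, h3⟩ := h
  have := Finset.card_filter_add_card_filter_not (s := s) fun i => P (S i)
  by_cases k : N ≤ (s.filter fun i => P (S i)).card
  · exact Or.inl ⟨_, S, k, h2.subset (Finset.coe_subset.2 (Finset.filter_subset _ _)), fun i hi =>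
      ⟨(h3 i (Finset.mem_filter.1 hi).1).1, (Finset.mem_filter.1 hi).2⟩⟩
  · exact Or.inr ⟨s.filter fun i => ¬P (S i), S, by omega, h2.subset (Finset.coe_subset.2 (Finset.filter_subset _ _)), fun i hi =>
      ⟨(h3 i (Finset.mem_filter.1 hi).1).1,
        (h3 i (Finset.mem_filter.1 hi).1).2.resolve_left (Finset.mem_filter.1 hi).2⟩⟩

lemma Strands.mono {N : ℕ} {P P' : Set V → Prop} (h : Strands r N P) (e : ∀ S, P S → P' S) :
    Strands r N P' := by
  obtain ⟨s, S, h1, h2, h3⟩ := h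
  exact ⟨s, S, h1, h2, fun i hi => ⟨(h3 i hi).1, e _ (h3 i hi).2⟩⟩

lemma ring_four {S : Set V} {z : V} (hn : 0 ≤ n)
    (h : Cr S (Bx (z + z) (2 * n)) (Bx (z + z) (4 * n))ᶜ) :
    (BT S (2 * (z.1 - 2 * n)) (2 * (z.1 - 2 * n + 5 * n)) (2 * (z.2 + n)) (2 * (z.2 + n + n)) ∨
      BT S (2 * (z.1 - 2 * n)) (2 * (z.1 - 2 * n + 5 * n)) (2 * (z.2 - 2 * n))
        (2 * (z.2 - 2 * n + n))) ∨
    LR S (2 * (z.1 + n)) (2 * (z.1 + n + n)) (2 * (z.2 - 2 * n)) (2 * (z.2 - 2 * n + 5 * n)) ∨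
      LR S (2 * (z.1 - 2 * n)) (2 * (z.1 - 2 * n + n)) (2 * (z.2 - 2 * n))
        (2 * (z.2 - 2 * n + 5 * n)) := by
  obtain ⟨u, hu, v, hv, c⟩ := h
  obtain ⟨a, b, c1, e, hb, -⟩ := c.exit (Bx_mono (by omega) hu) hv
  have ha := c1.right.2
  have s : ∀ w ∈ S ∩ Bx (z + z) (4 * n), (2 * (z.1 - 2 * n) ≤ w.1 ∧
      w.1 ≤ 2 * (z.1 - 2 * n + 5 * n)) ∧ 2 * (z.2 - 2 * n) ≤ w.2 ∧
      w.2 ≤ 2 * (z.2 - 2 * n + 5 * n) := fun w hw => by
    have := hw.2
    simp only [mem_Bx, Prod.fst_add, Prod.snd_add] at this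
    omega
  simp only [mem_Bx, Prod.fst_add, Prod.snd_add, Adj] at hu ha hb e
  by_cases k1 : 2 * (z.2 + n + n) ≤ a.2
  · exact Or.inl (Or.inl ((BT.of_conn c1 (by omega) (fun w hw => (s w hw).1) (by omega) k1).mono
      inter_subset_left le_rfl (by omega) le_rfl le_rfl le_rfl))
  by_cases k2 : a.2 ≤ 2 * (z.2 - 2 * n)
  · exact Or.inl (Or.inr ((BT.of_conn c1.symm (by omega) (fun w hw => (s w hw).1) k2
      (by omega)).mono inter_subset_left le_rfl (by omega) le_rfl le_rfl le_rfl))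
  by_cases k3 : 2 * (z.1 + n + n) ≤ a.1
  · exact Or.inr (Or.inl ((LR.of_conn c1 (by omega) (fun w hw => (s w hw).2) (by omega) k3).mono
      inter_subset_left le_rfl (by omega) le_rfl le_rfl le_rfl))
  · exact Or.inr (Or.inr ((LR.of_conn c1.symm (by omega) (fun w hw => (s w hw).2) (by omega)
      (by omega)).mono inter_subset_left le_rfl (by omega) le_rfl le_rfl le_rfl))

/-- the number of disjoint strands of red colour changes across a free ring is tight -/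
theorem tc_tm (η : ℝ) (hη : 0 < η) : ∃ (N : ℕ) (n0 : ℤ), ∀ (ρ : V → Set Bool) (W : Set V)
    (z : V) (n : ℤ), n0 ≤ n → Tame ρ W → Free ρ W (Bx z (4 * n)) →
    Pr (Sp (tm ρ W)) {w | Strands (red w) N fun S =>
      Cr S (Bx (z + z) (2 * n)) (Bx (z + z) (4 * n))ᶜ} ≤ η := by
  obtain ⟨N, n0, H⟩ := tc_rect (η / 4) (by positivity)
  obtain ⟨N', n0', H'⟩ := tc_rect' (η / 4) (by positivity)
  refine ⟨N + N + (N' + N'), max (max n0 n0') 0, fun ρ W z n hn hT hF => ?_⟩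
  have n1 : 0 ≤ n := by omega
  have f : ∀ a a' b b', z.1 - 4 * n ≤ a → a' ≤ z.1 + 4 * n → z.2 - 4 * n ≤ b → b' ≤ z.2 + 4 * n →
      Free ρ W (Rec a a' b b') := fun a a' b b' h1 h2 h3 h4 v hv =>
    hF v (by rw [mem_Rec] at hv; rw [mem_Bx]; omega)
  have k1 := H ρ W (z.1 - 2 * n) (z.2 + n) n (by omega) hT
    (f _ _ _ _ (by omega) (by omega) (by omega) (by omega))
  have k2 := H ρ W (z.1 - 2 * n) (z.2 - 2 * n) n (by omega) hT
    (f _ _ _ _ (by omega) (by omega) (by omega) (by omega))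
  have k3 := H' ρ W (z.2 - 2 * n) (z.1 + n) n (by omega) hT
    (f _ _ _ _ (by omega) (by omega) (by omega) (by omega))
  have k4 := H' ρ W (z.2 - 2 * n) (z.1 - 2 * n) n (by omega) hT
    (f _ _ _ _ (by omega) (by omega) (by omega) (by omega))
  have add : ∀ {A B : Set Cf} {a b : ℝ}, Pr (Sp (tm ρ W)) A ≤ a → Pr (Sp (tm ρ W)) B ≤ b →
      Pr (Sp (tm ρ W)) (A ∪ B) ≤ a + b := fun h h' => (pr_union_le _ _ _).trans (add_le_add h h')
  refine le_trans (pr_mono fun w _ h => ?_) ((add (add k1 k2) (add k3 k4)).trans (by linarith))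
  rw [mem_ofPred_eq] at h
  simp only [mem_union, mem_ofPred_eq]
  rcases (h.mono fun S k => ring_four (S := S) (z := z) n1 k).or with h | h <;>
    rcases h.or with h | h
  · exact Or.inl (Or.inl h)
  · exact Or.inl (Or.inr h)
  · exact Or.inr (Or.inl h)
  · exact Or.inr (Or.inr h)

/-- a walk of distinct edges from height one to height zero, consecutive edges in a triangle,
with `N` disjoint intervals of time in each of which it meets `Bx z n` and the outside of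
`Bx z (2 n + 1)` -/
def Alt (g : V → ℤ) (z : V) (n : ℤ) (N : ℕ) : Prop :=
  ∃ (K : ℕ) (p q : ℕ → V) (a b : ℕ → ℕ), (∀ k ≤ K, Adj (p k) (q k) ∧ g (p k) = 1 ∧ g (q k) = 0) ∧
    (∀ k < K, (p (k + 1) = p k ∧ Adj (q k) (q (k + 1))) ∨
      (q (k + 1) = q k ∧ Adj (p k) (p (k + 1)))) ∧
    (∀ i ≤ K, ∀ j ≤ K, p i = p j → q i = q j → i = j) ∧ (∀ i < N, b i ≤ K) ∧
    (∀ i j, i < j → j < N → b i < a j) ∧
    ∀ i < N, ∃ k ∈ Icc (a i) (b i), ∃ k' ∈ Icc (a i) (b i),
      p k ∈ Bx z (n - 1) ∧ p k' ∉ Bx z (2 * n + 1)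

/-- tightness of the number of crossings of a ring in the bulk -/
def TcSt : Prop := ∀ η > (0 : ℝ), ∃ (N : ℕ) (n0 : ℤ), ∀ (R : Set V) (ξ : V → ℤ) (z : V) (n : ℤ),
  Cls R → (∀ v, v ∉ R → ξ v = 0 ∨ ξ v = 1) → n0 ≤ n → Bx z (4 * n) ⊆ R →
  Pr (HD R ξ) {g | Alt g z n N} ≤ η

lemma conn_walk {S : Set V} {m : ℕ → V} {a b : ℕ} (h0 : ∀ k ∈ Icc a b, m k ∈ S)
    (h1 : ∀ k, a ≤ k → k < b → Adj (m k) (m (k + 1))) {k : ℕ} (hk : k ∈ Icc a b) :
    Conn S (m a) (m k) := by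
  obtain ⟨h2, h3⟩ := hk
  induction k, h2 using Nat.le_induction with
  | base => exact Conn.refl (h0 a ⟨le_rfl, h3⟩)
  | succ k h4 ih => exact (ih (by omega)).tail (h1 k h4 (by omega)) (h0 _ ⟨by omega, h3⟩)

theorem tcSt : TcSt := fun η hη => by
  obtain ⟨N, n0, H⟩ := tc_tm η hη
  refine ⟨N, n0, fun R ξ z n hR h01 hn hB => ?_⟩
  have cl := clo_rho hR h01
  have k := H _ R z n hn cl.tame fun v hv => cl.free v (hB hv)
  rw [← pr_bij (bij_sq hR h01)] at k
  refine le_trans (pr_mono ?_) k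
  rintro g - ⟨K, p, q, a, b, h1, h2, h3, h4, h5, h6⟩
  refine ⟨Finset.range N, fun i => (fun k => p k + q k) '' Icc (a i) (b i), by simp, ?_,
    fun i hi => ⟨?_, ?_⟩⟩
  · intro i hi j hj ne
    rw [Finset.coe_range] at hi hj
    refine disjoint_left.2 ?_
    rintro _ ⟨k, hk, rfl⟩ ⟨k', hk', e⟩
    have a1 := hk.2.trans (h4 i hi)
    have a2 := hk'.2.trans (h4 j hj)
    have a3 : k' = k := by
      rcases mid_eq (h1 k' a2).1 (h1 k a1).1 e with e | e
      · exact h3 _ a2 _ a1 e.1 e.2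
      · have b1 := (h1 k' a2).2.1
        have b2 := (h1 k a1).2.2
        rw [e.1] at b1
        omega
    have := hk.1; have := hk.2; have := hk'.1; have := hk'.2
    rcases lt_or_gt_of_ne ne with l | l
    · have := h5 i j l hj; omega
    · have := h5 j i l hi; omega
  · rintro _ ⟨k, hk, rfl⟩
    obtain ⟨a1, a2, a3⟩ := h1 k (hk.2.trans (h4 i (Finset.mem_range.1 hi)))
    exact ⟨_, _, a1, by simp [red, sq, spn, sp1, a2, a3], rfl⟩
  · have i1 := Finset.mem_range.1 hi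
    obtain ⟨k, hk, k', hk', a1, a2⟩ := h6 i i1
    have w : ∀ k ∈ Icc (a i) (b i), Conn ((fun k => p k + q k) '' Icc (a i) (b i))
        (p (a i) + q (a i)) (p k + q k) := fun k hk =>
      conn_walk (m := fun k => p k + q k) (fun k hk => mem_image_of_mem _ hk) (fun k _ l => by
        rcases h2 k (l.trans_le (h4 i i1)) with e | e <;> rw [e.1] <;> have := e.2 <;>
          simp only [Adj, Prod.fst_add, Prod.snd_add] at * <;> omega) hk
    have b1 := (h1 k (hk.2.trans (h4 i i1))).1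
    have b2 := (h1 k' (hk'.2.trans (h4 i i1))).1
    refine ⟨_, ?_, _, ?_, (w k hk).symm.trans (w k' hk')⟩
    · simp only [mem_Bx, Adj, Prod.fst_add, Prod.snd_add] at a1 b1 ⊢; omega
    · simp only [mem_compl_iff, mem_Bx, Adj, Prod.fst_add, Prod.snd_add] at a2 b2 ⊢; omega

end Pool.Agent.Lib.MP_6359c9_pr
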