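import Pool.Agent.Lib.MP_6359c9_pr.TcD
import Pool.Agent.Lib.MP_6359c9_pr.SlSpec
import Pool.Agent.Lib.MP_6359c9_pr.ExSt

/-! Crossing count, part E: the number of macroscopic pieces of the curve in a compact set. -/

namespace Pool.Agent.Lib.MP_6359c9_pr

open Set Filter Topology Metric Xp
open scoped NNReal

namespace Pie

lemma sep {ψ : ℂ → ℂ} {K : Set ℂ} (hK : IsCompact K) (hc : ContinuousOn ψ K) (hi : InjOn ψ K)
    {ε : ℝ} (hε : 0 < ε) : ∃ κ > (0 : ℝ), ∀ z ∈ K, ∀ w ∈ K, ε ≤ ‖z - w‖ → κ ≤ ‖ψ z - ψ w‖ := by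
  have h1 : IsCompact ((K ×ˢ K) ∩ {p : ℂ × ℂ | ε ≤ ‖p.1 - p.2‖}) :=
    (hK.prod hK).inter_right (isClosed_le continuous_const (by fun_prop))
  have h2 : ContinuousOn (fun p : ℂ × ℂ => ‖ψ p.1 - ψ p.2‖)
      ((K ×ˢ K) ∩ {p : ℂ × ℂ | ε ≤ ‖p.1 - p.2‖}) :=
    ((hc.comp continuousOn_fst fun p hp => hp.1.1).sub
      (hc.comp continuousOn_snd fun p hp => hp.1.2)).norm
  obtain ⟨κ, k1, k2⟩ := h1.exists_forall_le' h2 (a := 0) fun p hp => norm_pos_iff.2
    (sub_ne_zero.2 fun e => by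
      have h3 : ε ≤ ‖p.1 - p.2‖ := hp.2
      rw [hi hp.1.1 hp.1.2 e, sub_self, norm_zero] at h3
      linarith)
  exact ⟨κ, k1, fun z hz w hw h => k2 (z, w) ⟨⟨hz, hw⟩, h⟩⟩

/-- separation, interior balls and a bound, uniformly along the sequence of charts -/
lemma geo (A : Sett) {K : Set ℂ} (hK : K ⊆ UH) (hc : IsCompact K) {ε : ℝ} (hε : 0 < ε) :
    ∃ κ > (0 : ℝ), ∃ B : ℝ, ∀ᶠ n in atTop, ∀ z ∈ K, ‖A.Ψ n z‖ ≤ B ∧
      Metric.ball (A.Ψ n z) (κ / 2) ⊆ (A.Q n).D ∧ ∀ w ∈ K, ε ≤ ‖z - w‖ → κ ≤ ‖A.Ψ n z - A.Ψ n w‖ := by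
  obtain ⟨r, hr, s⟩ := hc.exists_cthickening_subset_open Lw.isOpen_UH hK
  have c2 : IsCompact (cthickening r K) := hc.cthickening
  obtain ⟨κ, k1, k2⟩ := sep c2 (A.hol.continuousOn.mono s) (A.bij.injOn.mono s) (lt_min hε hr)
  obtain ⟨B, hB⟩ := c2.exists_bound_of_continuousOn (A.hol.continuousOn.mono s)
  have u := Metric.tendstoUniformlyOn_iff.1
    ((tendstoLocallyUniformlyOn_iff_tendstoUniformlyOn_of_compact c2).1 (A.conv.mono s))
    (κ / 3) (by positivity)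
  refine ⟨κ / 3, by positivity, B + κ / 3, u.mono fun n hn z hz => ?_⟩
  have hz' := self_subset_cthickening (δ := r) K hz
  have key : ∀ w ∈ cthickening r K, min ε r ≤ ‖z - w‖ → κ / 3 ≤ ‖A.Ψ n z - A.Ψ n w‖ :=
    fun w hw h => by
      have a1 := k2 z hz' w hw h
      have a2 := hn z hz'
      have a3 := hn w hw
      have a4 := dist_triangle4 (A.ψ z) (A.Ψ n z) (A.Ψ n w) (A.ψ w)
      rw [dist_comm (A.Ψ n w)] at a4
      simp only [dist_eq_norm] at a2 a3 a4
      linarith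
  have sb : closedBall z r ⊆ cthickening r K := closedBall_subset_cthickening hz r
  refine ⟨?_, ?_, fun w hw h => key w (self_subset_cthickening K hw) ((min_le_left _ _).trans h)⟩
  · have a1 := hB z hz'
    have a2 := hn z hz'
    have a3 := norm_sub_norm_le (A.Ψ n z) (A.ψ z)
    rw [dist_comm, dist_eq_norm] at a2
    linarith
  · have d : DiffContOnCl ℂ (A.Ψ n) (Metric.ball z r) :=
      DifferentiableOn.diffContOnCl_ball (A.chart n).hol (sb.trans s)
    refine (d.ball_subset_image_closedBall hr (fun w hw => ?_) ?_).trans ?_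
    · rw [norm_sub_rev]
      refine key w (sb (sphere_subset_closedBall hw)) ((min_le_right _ _).trans ?_)
      rw [norm_sub_rev, mem_sphere_iff_norm.1 hw]
    · have : ∀ᶠ w in 𝓝[≠] z, A.Ψ n w ≠ A.Ψ n z := by
        filter_upwards [self_mem_nhdsWithin, mem_nhdsWithin_of_mem_nhds
          (Lw.isOpen_UH.mem_nhds (hK hz))] with w h1 h2 e
        exact h1 ((A.chart n).inj (Un.UH_sub h2) (Un.UH_sub (hK hz)) e)
      exact this.frequently.filter_mono nhdsWithin_le_nhds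
    · rw [← (A.chart n).img]
      exact image_mono (sb.trans s)

variable {s : ℤ} {X : St s} {g : V → ℤ}

/-- the end of the edge with height one -/
def hi (X : St s) (g : V → ℤ) (k : ℕ) : V := if s = 1 then (X.e g k).1 else (X.e g k).2

/-- the end of the edge with height zero -/
def lo (X : St s) (g : V → ℤ) (k : ℕ) : V := if s = 1 then (X.e g k).2 else (X.e g k).1

lemma alt (h : X.Adm g) {z : V} {m : ℤ} {N : ℕ} {a b : ℕ → ℕ} (h1 : ∀ i < N, b i ≤ X.K g)
    (h2 : ∀ i j, i < j → j < N → b i < a j)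
    (h3 : ∀ i < N, ∃ k ∈ Icc (a i) (b i), ∃ k' ∈ Icc (a i) (b i),
      hi X g k ∈ Bx z (m - 1) ∧ hi X g k' ∉ Bx z (2 * m + 1)) : Alt g z m N := by
  have inj : ∀ i ≤ X.K g, ∀ j ≤ X.K g, X.e g i = X.e g j → i = j := fun i hi j hj e => by
    have e' : X.ah g i = X.ah g j := by rw [St.ah, St.ah, e]
    rcases lt_trichotomy i j with l | l | l
    exacts [absurd e' (h.ah_ne l hj), l, absurd e'.symm (h.ah_ne l hi)]
  refine ⟨X.K g, hi X g, lo X g, a, b, fun k _ => ?_, fun k _ => ?_, fun i hi j hj e e' => ?_,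
    h1, h2, h3⟩
  · obtain ⟨a1, a2, a3⟩ := h.lv k
    rcases X.hs with rfl | rfl
    · exact ⟨a1.symm, a3, a2⟩
    · exact ⟨a1, a2, a3⟩
  · have t := (h.adj k).thd
    rcases X.hs with rfl | rfl <;> rcases h.cases k with e | e <;>
      simp only [hi, lo, e.2, zero_ne_one, if_false, if_true, true_and]
    exacts [Or.inl t.1, Or.inr t.2, Or.inr t.1, Or.inl t.2]
  · refine inj i hi j hj ?_
    rcases X.hs with rfl | rfl
    · exact Prod.ext e' e
    · exact Prod.ext e e'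

lemma seg_near {d : ℝ} (hd : 0 < d) (h : X.Adm g) (k : ℕ) {u : ℂ}
    (hu : u ∈ segment ℝ (mid d (X.e g k)) (mid d (X.e g (k + 1)))) :
    ‖pos d (hi X g k) - u‖ ≤ 3 * d := by
  have key : ∀ e : V × V, ds (hi X g k + hi X g k) (e.1 + e.2) ≤ 3 →
      mid d e ∈ closedBall (pos d (hi X g k)) (3 * d) := fun e he => by
    have := norm_le_ds (half_pos hd) (hi X g k + hi X g k) (e.1 + e.2)
    have h1 : (ds (hi X g k + hi X g k) (e.1 + e.2) : ℝ) ≤ 3 := by exact_mod_cast he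
    rw [pos_two] at this
    rw [mem_closedBall_iff_norm', mid]
    nlinarith
  have a := h.adj k
  have t := a.thd
  refine mem_closedBall_iff_norm'.1 ((convex_closedBall _ _).segment_subset (key _ ?_) (key _ ?_) hu)
  · simp only [hi, ds, Adj, Prod.fst_add, Prod.snd_add, max_le_iff, abs_le] at *
    split_ifs <;> omega
  · rcases h.cases k with e | e <;> rw [e.2] <;>
      simp only [hi, St.nw, ds, Adj, Prod.fst_add, Prod.snd_add, max_le_iff, abs_le] at * <;>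
      split_ifs <;> omega

/-- the step during which the time `u` occurs -/
noncomputable def idx (t : ℕ → ℝ≥0) (K : ℕ) (u : ℝ≥0) : ℕ :=
  Nat.findGreatest (fun k => t k ≤ u) (K - 1)

lemma idx_mono (t : ℕ → ℝ≥0) (K : ℕ) {u v : ℝ≥0} (h : u ≤ v) : idx t K u ≤ idx t K v :=
  Nat.findGreatest_mono_left (fun _ k => le_trans k h) _

lemma idx_le (t : ℕ → ℝ≥0) (K : ℕ) (u : ℝ≥0) : idx t K u ≤ K :=
  (Nat.findGreatest_le _).trans (Nat.sub_le _ _)

lemma idx_seg {d : ℝ} {S : Set (V → ℤ)} {Ψ : ℂ → ℂ} {p : (V → ℤ) → ℝ≥0 → ℂ}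
    {t : (V → ℤ) → ℕ → ℝ≥0} (T : Tim (d := d) X S Ψ p t) (hg : g ∈ S) (u : ℝ≥0) :
    Ψ (p g u) ∈ segment ℝ (mid d (X.e g (idx (t g) (X.K g) u)))
      (mid d (X.e g (idx (t g) (X.K g) u + 1))) := by
  have h0 := T.pos g hg
  have h1 : t g (idx (t g) (X.K g) u) ≤ u :=
    Nat.findGreatest_spec (P := fun k => t g k ≤ u) (Nat.zero_le _) (by simp [T.zero g hg])
  have h2 : idx (t g) (X.K g) u ≤ X.K g - 1 := Nat.findGreatest_le _
  by_cases h : idx (t g) (X.K g) u + 1 < X.K g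
  · rw [← T.arc g hg _ h]
    exact ⟨u, ⟨h1, (not_le.1 (Nat.findGreatest_is_greatest (P := fun k => t g k ≤ u)
      (Nat.lt_succ_self _) (Nat.le_sub_one_of_lt h))).le⟩, rfl⟩
  · exact ((T.last g hg _ (by omega)).le ⟨u, h1, rfl⟩).1

end Pie

open Pie in
theorem pieSt : PieSt := by
  classical
  intro A K hK hc ε η hε hη
  obtain ⟨κ, hκ, B, H⟩ := geo A hK hc hε
  obtain ⟨F, -, fF, hF⟩ := finite_approx_of_totallyBounded
    (isCompact_closedBall (0 : ℂ) B).totallyBounded (κ / 160) (by positivity)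
  obtain ⟨F, rfl⟩ := fF.exists_finset_coe
  obtain ⟨N, n0, H'⟩ := tcSt (η / (F.card + 1)) (by positivity)
  refine ⟨F.card * N + 1, ?_⟩
  have big : ∀ᶠ n in atTop, (n0 : ℝ) * A.δ n < κ / 40 := by
    have := A.dlim.const_mul (n0 : ℝ)
    rw [mul_zero] at this
    exact this.eventually (gt_mem_nhds (by positivity))
  filter_upwards [H, big, A.dlim.eventually (gt_mem_nhds (by positivity : 0 < κ / 1000))]
    with n h1 h2 h3
  set d := A.δ n with hd
  have d0 : 0 < d := A.dpos n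
  set m := ⌈κ / 40 / d⌉ with hm
  have m1 : κ / 40 ≤ d * m := by
    have := Int.le_ceil (κ / 40 / d)
    rwa [div_le_iff₀' d0] at this
  have m2 : d * m ≤ κ / 40 + d := by
    have := mul_le_mul_of_nonneg_left (Int.ceil_lt_add_one (κ / 40 / d)).le d0.le
    rwa [mul_add, mul_one, mul_div_cancel₀ _ d0.ne'] at this
  have m3 : n0 ≤ m := by
    have : (n0 : ℝ) < m := lt_of_mul_lt_mul_right (a := d) (by linarith) d0.le
    exact_mod_cast this.le
  set E : ℂ → Set (V → ℤ) := fun c =>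
    {g | (∃ z ∈ K, ‖A.Ψ n z - c‖ < κ / 160) ∧ Alt g (nr d c) m N} with hE
  have k1 : ∀ c, Pr (A.S n) (E c) ≤ η / (F.card + 1) := fun c => by
    by_cases e : ∃ z ∈ K, ‖A.Ψ n z - c‖ < κ / 160
    swap
    · rw [pr_none fun g _ k => e k.1]; positivity
    obtain ⟨z, hz, e⟩ := e
    refine (pr_mono fun g _ k => k.2).trans (H' _ _ (nr d c) m ((A.Q n).cls_R d0)
      (fun v _ => (A.Q n).xi_two v) m3 fun v hv => (h1 z hz).2.1 ?_)
    have a1 := norm_le_ds d0 v (nr d c)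
    have a2 : (ds v (nr d c) : ℝ) ≤ 4 * m := by exact_mod_cast mem_Bx_ds.1 hv
    have a3 := nr_near d0 c
    have a4 := dist_triangle4 (pos d v) (pos d (nr d c)) c (A.Ψ n z)
    rw [dist_comm c] at a4
    simp only [dist_eq_norm] at a4
    rw [mem_ball_iff_norm]
    nlinarith
  have k2 : Pr (A.S n) (⋃ c ∈ F, E c) ≤ η := by
    refine (pr_biUnion_le _ F E).trans ((Finset.sum_le_card_nsmul _ _ _ fun c _ => k1 c).trans ?_)
    rw [nsmul_eq_mul, mul_div_assoc', div_le_iff₀ (by positivity)]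
    nlinarith
  refine le_trans (le_of_eq (pr_eq _ _).symm) (le_trans (pr_mono ?_) k2)
  rintro g hg ⟨a, b, h⟩
  have adm := (A.of n).mem hg
  have T := A.tim n
  have aK : ∀ i < F.card * N + 1, A.p n g (a i) ∈ K := fun i hi =>
    (h i hi).2.2.1 ⟨_, ⟨le_rfl, (h i hi).1⟩, rfl⟩
  have bK : ∀ i < F.card * N + 1, A.p n g (b i) ∈ K := fun i hi =>
    (h i hi).2.2.1 ⟨_, ⟨(h i hi).1, le_rfl⟩, rfl⟩
  have chain : ∀ i j, i < j → j < F.card * N + 1 → b i ≤ a j := fun i j l => by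
    induction j, l using Nat.le_induction with
    | base => exact fun k => (h i (by omega)).2.1
    | succ j l ih => exact fun k => (ih (by omega)).trans ((h j (by omega)).1.trans
        (h j (by omega)).2.1)
  have cov : ∀ i ∈ Finset.range (F.card * N + 1), ∃ c ∈ F,
      ‖A.Ψ n (A.p n g (a i)) - c‖ < κ / 160 := fun i hi => by
    have := hF (mem_closedBall_zero_iff.2 (h1 _ (aK i (Finset.mem_range.1 hi))).1)
    simpa only [mem_iUnion, mem_ball_iff_norm, exists_prop, Finset.mem_coe] using this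
  choose! c c1 c2 using cov
  obtain ⟨y, hy, k3⟩ := Finset.exists_lt_card_fiber_of_mul_lt_card_of_maps_to c1
    (by rw [Finset.card_range]; exact Nat.lt_succ_self _)
  set I := (Finset.range (F.card * N + 1)).filter fun i => c i = y with hI
  have fI : {i | i ∈ I}.Finite := I.finite_toSet
  have cI : fI.toFinset = I := by simp
  have mI : ∀ j ≤ N, Nat.nth (· ∈ I) j < F.card * N + 1 ∧
      ‖A.Ψ n (A.p n g (a (Nat.nth (· ∈ I) j))) - y‖ < κ / 160 := fun j hj => by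
    have := Finset.mem_filter.1 (Nat.nth_mem_of_lt_card fI (by rw [cI]; omega : j < _))
    exact ⟨Finset.mem_range.1 this.1, this.2 ▸ c2 _ this.1⟩
  set ix := idx (A.t n g) ((A.X n).K g) with hix
  have near : ∀ u, ‖pos d (hi (A.X n) g (ix u)) - A.Ψ n (A.p n g u)‖ ≤ 3 * d := fun u =>
    seg_near d0 adm _ (idx_seg T hg u)
  have a3 := nr_near d0 y
  have inn : ∀ j ≤ N, hi (A.X n) g (ix (a (Nat.nth (· ∈ I) j))) ∈ Bx (nr d y) (m - 1) :=
    fun j hj => by
      have a1 := ds_le_norm d0 (hi (A.X n) g (ix (a (Nat.nth (· ∈ I) j)))) (nr d y)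
      have a2 := near (a (Nat.nth (· ∈ I) j))
      have a4 := dist_triangle4 (pos d (hi (A.X n) g (ix (a (Nat.nth (· ∈ I) j)))))
        (A.Ψ n (A.p n g (a (Nat.nth (· ∈ I) j)))) y (pos d (nr d y))
      have a5 := (mI j hj).2
      rw [dist_comm y] at a4
      simp only [dist_eq_norm] at a4
      have : (ds (hi (A.X n) g (ix (a (Nat.nth (· ∈ I) j)))) (nr d y) : ℝ) ≤ m - 1 :=
        le_of_mul_le_mul_left (a := d) (by linarith) d0
      exact mem_Bx_ds.2 (by exact_mod_cast this)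
  have out : ∀ j ≤ N, hi (A.X n) g (ix (b (Nat.nth (· ∈ I) j))) ∉ Bx (nr d y) (2 * m + 1) :=
    fun j hj k => by
      have i1 := (mI j hj).1
      have a0 := (h1 _ (aK _ i1)).2.2 _ (bK _ i1) (h _ i1).2.2.2
      have a1 := norm_le_ds d0 (hi (A.X n) g (ix (b (Nat.nth (· ∈ I) j)))) (nr d y)
      have a2 := near (b (Nat.nth (· ∈ I) j))
      have a4 := dist_triangle4 (A.Ψ n (A.p n g (b (Nat.nth (· ∈ I) j))))
        (pos d (hi (A.X n) g (ix (b (Nat.nth (· ∈ I) j))))) (pos d (nr d y)) y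
      have a5 := (mI j hj).2
      have a6 : (ds (hi (A.X n) g (ix (b (Nat.nth (· ∈ I) j)))) (nr d y) : ℝ) ≤ 2 * m + 1 := by
        exact_mod_cast mem_Bx_ds.1 k
      have a7 := dist_triangle_right (A.Ψ n (A.p n g (a (Nat.nth (· ∈ I) j))))
        (A.Ψ n (A.p n g (b (Nat.nth (· ∈ I) j)))) y
      rw [dist_comm (A.Ψ n (A.p n g (b (Nat.nth (· ∈ I) j)))) (pos d _)] at a4
      simp only [dist_eq_norm] at a4 a7
      nlinarith
  refine mem_biUnion hy ⟨⟨_, aK _ (mI 0 (Nat.zero_le _)).1, (mI 0 (Nat.zero_le _)).2⟩, ?_⟩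
  refine alt adm (a := fun j => ix (a (Nat.nth (· ∈ I) j)))
    (b := fun j => ix (b (Nat.nth (· ∈ I) j))) (fun j _ => idx_le _ _ _) (fun i j l hj => ?_)
    fun j hj => ?_
  · refine lt_of_le_of_ne (idx_mono _ _ (chain _ _
      (Nat.nth_lt_nth_of_lt_card fI l (by rw [cI]; omega)) (mI j hj.le).1)) fun e => ?_
    have m0 : 0 < m := Int.ceil_pos.2 (by positivity)
    refine out i (by omega) ?_
    rw [show ix (b (Nat.nth (· ∈ I) i)) = ix (a (Nat.nth (· ∈ I) j)) from e]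
    exact Bx_mono (by omega) (inn j hj.le)
  · have l := idx_mono (A.t n g) ((A.X n).K g) (h _ (mI j hj.le).1).1
    exact ⟨_, ⟨le_rfl, l⟩, _, ⟨l, le_rfl⟩, inn j hj.le, out j hj.le⟩

end Pool.Agent.Lib.MP_6359c9_pr
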