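import Pool.Agent.Lib.MP_6359c9_pr.Lat

/-! Planar topology of the triangular lattice: Hex lemma, annulus lemma, interlacing lemma. -/

namespace Pool.Agent.Lib.MP_6359c9_pr

/-- the neighbours of a set -/
def nb (O : Set V) : Set V := {u | ∃ o ∈ O, Adj o u}

/-- `S` contains a path from `A` to `B` -/
def Cr (S A B : Set V) : Prop := ∃ u ∈ A, ∃ v ∈ B, Conn S u v

lemma Cr.symm {S A B : Set V} (h : Cr S A B) : Cr S B A := by
  obtain ⟨u, hu, v, hv, h⟩ := h
  exact ⟨v, hv, u, hu, h.symm⟩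

lemma Cr.mono {S A B S' A' B' : Set V} (h : Cr S A B) (hS : S ⊆ S') (hA : A ⊆ A') (hB : B ⊆ B') :
    Cr S' A' B' := by
  obtain ⟨u, hu, v, hv, h⟩ := h
  exact ⟨u, hA hu, v, hB hv, h.mono hS⟩

/-- four sets that wind once around: each is crossed and touches the next one -/
def Wind (O0 O1 O2 O3 : Set V) : Prop :=
  ∃ a0 b0 a1 b1 a2 b2 a3 b3, Conn O0 a0 b0 ∧ Adj b0 a1 ∧ Conn O1 a1 b1 ∧ Adj b1 a2 ∧
    Conn O2 a2 b2 ∧ Adj b2 a3 ∧ Conn O3 a3 b3 ∧ Adj b3 a0

/-- Hex lemma for a region `R` whose complement is cut in four sectors -/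
theorem hex {R O0 O1 O2 O3 : Set V} (cover : ∀ v, v ∉ R → v ∈ O0 ∨ v ∈ O1 ∨ v ∈ O2 ∨ v ∈ O3)
    (r0 : Disjoint R O0) (r1 : Disjoint R O1) (r2 : Disjoint R O2) (r3 : Disjoint R O3)
    (d01 : Disjoint O0 O1) (d02 : Disjoint O0 O2) (d03 : Disjoint O0 O3) (d12 : Disjoint O1 O2)
    (d13 : Disjoint O1 O3) (d23 : Disjoint O2 O3)
    (n02 : ∀ u ∈ O0, ∀ v ∈ O2, ¬Adj u v) (n13 : ∀ u ∈ O1, ∀ v ∈ O3, ¬Adj u v)
    (w : Wind O0 O1 O2 O3) (S : Set V) :
    Cr (S ∩ R) (nb O0) (nb O2) ∨ Cr (Sᶜ ∩ R) (nb O1) (nb O3) := by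
  by_contra hc
  rw [not_or] at hc
  obtain ⟨h02, h13⟩ := hc
  obtain ⟨a0, b0, a1, b1, a2, b2, a3, b3, c0, e0, c1, e1, c2, e2, c3, e3⟩ := w
  set K0 : Set V := {v | ∃ u ∈ nb O0, Conn (S ∩ R) u v} with hK0
  set K1 : Set V := {v | ∃ u ∈ nb O1, Conn (Sᶜ ∩ R) u v} with hK1
  have k0 : ∀ v ∈ K0, v ∈ S ∧ v ∈ R := fun v ⟨_, _, h⟩ => h.right
  have k1 : ∀ v ∈ K1, v ∉ S ∧ v ∈ R := fun v ⟨_, _, h⟩ => h.right
  have r0' := Set.disjoint_left.1 r0
  have r1' := Set.disjoint_left.1 r1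
  have r2' := Set.disjoint_left.1 r2
  have r3' := Set.disjoint_left.1 r3
  have d01' := Set.disjoint_left.1 d01
  have d02' := Set.disjoint_left.1 d02
  have d03' := Set.disjoint_left.1 d03
  have d12' := Set.disjoint_left.1 d12
  have d13' := Set.disjoint_left.1 d13
  have d23' := Set.disjoint_left.1 d23
  refine four (P0 := O0 ∪ K0) (P1 := O1 ∪ K1) (P2 := O2 ∪ ((S ∩ R) \ K0))
    (P3 := O3 ∪ ((Sᶜ ∩ R) \ K1)) ?_ ?_ ?_ ?_ ?_ ?_ ?_ ?_ ?_
    (c0.mono Set.subset_union_left) e0 (c1.mono Set.subset_union_left) e1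
    (c2.mono Set.subset_union_left) e2 (c3.mono Set.subset_union_left) e3
  · intro v
    have := cover v
    simp only [Set.mem_union, Set.mem_sdiff, Set.mem_inter_iff, Set.mem_compl_iff]
    grind
  iterate 6
    refine Set.disjoint_left.2 fun v => ?_
    have := k0 v; have := k1 v; have := @r0' v; have := @r1' v; have := @r2' v; have := @r3' v
    have := @d01' v; have := @d02' v; have := @d03' v; have := @d12' v; have := @d13' v
    have := @d23' v
    simp only [Set.mem_union, Set.mem_sdiff, Set.mem_inter_iff, Set.mem_compl_iff]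
    grind
  · rintro u (hu | ⟨x, hx, hu⟩) v (hv | hv) a
    · exact n02 u hu v hv a
    · exact hv.2 ⟨v, ⟨u, hu, a⟩, Conn.refl hv.1⟩
    · exact h02 ⟨x, hx, u, ⟨v, hv, a.symm⟩, hu⟩
    · exact hv.2 ⟨x, hx, hu.tail a hv.1⟩
  · rintro u (hu | ⟨x, hx, hu⟩) v (hv | hv) a
    · exact n13 u hu v hv a
    · exact hv.2 ⟨v, ⟨u, hu, a⟩, Conn.refl hv.1⟩
    · exact h13 ⟨x, hx, u, ⟨v, hv, a.symm⟩, hu⟩
    · exact hv.2 ⟨x, hx, hu.tail a hv.1⟩

/-- annulus lemma: if the complement of `S` does not cross the region between `I` and `O`, then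
any two crossings by `S` are joined inside the region -/
theorem ring {I O S : Set V} (d : Disjoint I O) (n : ∀ u ∈ I, ∀ v ∈ O, ¬Adj u v)
    (h : ¬Cr (Sᶜ ∩ (I ∪ O)ᶜ) (nb I) (nb O)) {i i' o o' u v u' v' : V}
    (hi : Conn I i i') (ho : Conn O o o') (a1 : Adj i u) (a2 : Adj o v) (a3 : Adj i' u')
    (a4 : Adj o' v') (c : Conn (S ∩ (I ∪ O)ᶜ) u v) (c' : Conn (S ∩ (I ∪ O)ᶜ) u' v') :
    Conn (S ∩ (I ∪ O)ᶜ) u u' := by
  by_contra hc
  set K0 : Set V := {x | Conn (S ∩ (I ∪ O)ᶜ) u x} with hK0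
  set K1 : Set V := {x | ∃ y ∈ nb I, Conn (Sᶜ ∩ (I ∪ O)ᶜ) y x} with hK1
  have k0 : ∀ x ∈ K0, x ∈ S ∧ ¬(x ∈ I ∨ x ∈ O) := fun x h => Conn.right h
  have k1 : ∀ x ∈ K1, x ∉ S ∧ ¬(x ∈ I ∨ x ∈ O) := fun x ⟨_, _, h⟩ => h.right
  have d' := Set.disjoint_left.1 d
  have c2 : Conn ((S ∩ (I ∪ O)ᶜ) \ K0) u' v' := by
    refine c'.cluster.mono fun x hx => ⟨Conn.right hx, fun h0 => hc (Conn.trans h0 (Conn.symm hx))⟩
  refine four (P0 := K0) (P1 := I ∪ K1) (P2 := (S ∩ (I ∪ O)ᶜ) \ K0)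
    (P3 := O ∪ ((Sᶜ ∩ (I ∪ O)ᶜ) \ K1)) ?_ ?_ ?_ ?_ ?_ ?_ ?_ ?_ ?_
    c.cluster.symm a1.symm (hi.mono Set.subset_union_left) a3 c2 a4.symm
    (ho.symm.mono Set.subset_union_left) a2
  · intro x
    simp only [Set.mem_union, Set.mem_sdiff, Set.mem_inter_iff, Set.mem_compl_iff]
    grind
  iterate 6
    refine Set.disjoint_left.2 fun x => ?_
    have := k0 x; have := k1 x; have := @d' x
    simp only [Set.mem_union, Set.mem_sdiff, Set.mem_inter_iff, Set.mem_compl_iff]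
    grind
  · intro x hx y hy a
    exact hy.2 (Conn.tail hx a hy.1)
  · rintro x (hx | ⟨z, hz, hx⟩) y (hy | hy) a
    · exact n x hx y hy a
    · exact hy.2 ⟨y, ⟨x, hx, a⟩, Conn.refl hy.1⟩
    · exact h ⟨z, hz, x, ⟨y, hy, a.symm⟩, hx⟩
    · exact hy.2 ⟨z, hz, hx.tail a hy.1⟩

/-- the four sides of a region: left, top, right, bottom -/
inductive Side | L | T | R | B

/-- `v` lies on the given side of `R` -/
def On (R : Set V) : Side → V → Prop
  | .L, v => ∀ w ∈ R, w.2 = v.2 → v.1 ≤ w.1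
  | .T, v => ∀ w ∈ R, w.2 ≤ v.2
  | .R, v => ∀ w ∈ R, w.2 = v.2 → w.1 ≤ v.1
  | .B, v => ∀ w ∈ R, v.2 ≤ w.2

/-- clockwise order of the boundary, starting from the bottom of the left side -/
def Aft : Side → V → Side → V → Prop
  | .L, a, .L, v => a.2 < v.2
  | .T, a, .T, v => a.1 < v.1
  | .R, a, .R, v => v.2 < a.2
  | .B, a, .B, v => v.1 < a.1
  | .L, _, _, _ => True
  | .T, _, .R, _ => True
  | .T, _, .B, _ => True
  | .R, _, .B, _ => True
  | _, _, _, _ => False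

/-- the invariants of the crossing parity of a path from `a` to `c` inside `S` -/
structure Par (S : Set V) (a c : V) (F : V → Prop) : Prop where
  hor : ∀ u v, u ∉ S → v ∉ S → v.2 = u.2 → v.1 = u.1 + 1 → (F u ↔ F v)
  ver : ∀ u v, u ∉ S → v ∉ S → v.2 = u.2 + 1 → (v.1 = u.1 ∨ v.1 = u.1 - 1) →
    ((F u ↔ F v) ↔ ((a.2 = v.2 ∧ a.1 < v.1) ↔ (c.2 = v.2 ∧ c.1 < v.1)))
  lft : ∀ v, v ∉ S → (∀ w ∈ S, w.2 = v.2 → v.1 ≤ w.1) → ¬F v
  top : ∀ v, (∀ w ∈ S, w.2 ≤ v.2) → ¬F v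
  rgt : ∀ v, v ∉ S → (∀ w ∈ S, w.2 = v.2 → w.1 ≤ v.1) → (F v ↔ ¬(v.2 < a.2 ↔ v.2 < c.2))
  bot : ∀ v, v ∉ S → (∀ w ∈ S, v.2 ≤ w.2) →
    (F v ↔ ¬((a.2 = v.2 ∧ a.1 < v.1) ↔ (c.2 = v.2 ∧ c.1 < v.1)))

lemma ne_coord {S : Set V} {u v : V} (hu : u ∈ S) (hv : v ∉ S) : ¬(u.1 = v.1 ∧ u.2 = v.2) :=
  fun h => hv (Prod.ext h.1 h.2 ▸ hu)

lemma par_edge {S : Set V} {c e : V} (hc : c ∈ S) (he : e ∈ S) (h : Adj c e) :
    Par S c e fun v => (c.2 = v.2 ∧ e.2 = v.2 + 1 ∧ c.1 < v.1) ∨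
      (e.2 = v.2 ∧ c.2 = v.2 + 1 ∧ e.1 < v.1) := by
  unfold Adj at h
  constructor
  · intro u v hu hv h1 h2
    have := ne_coord hc hu; have := ne_coord he hu
    omega
  · intro u v hu hv h1 h2
    have := ne_coord hc hu; have := ne_coord he hu
    have := ne_coord hc hv; have := ne_coord he hv
    rcases h with h | h | h | h | h | h <;> omega
  · intro v hv h1
    have := h1 c hc; have := h1 e he
    omega
  · intro v h1
    have := h1 c hc; have := h1 e he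
    omega
  · intro v hv h1
    have := h1 c hc; have := h1 e he
    have := ne_coord hc hv; have := ne_coord he hv
    rcases h with h | h | h | h | h | h <;> omega
  · intro v hv h1
    have := h1 c hc; have := h1 e he
    have := ne_coord hc hv; have := ne_coord he hv
    rcases h with h | h | h | h | h | h <;> omega

lemma Par.trans {S : Set V} {a c e : V} {F G : V → Prop} (h : Par S a c F) (h' : Par S c e G) :
    Par S a e fun v => ¬(F v ↔ G v) := by
  constructor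
  · intro u v hu hv h1 h2
    have := h.hor u v hu hv h1 h2; have := h'.hor u v hu hv h1 h2
    grind
  · intro u v hu hv h1 h2
    have := h.ver u v hu hv h1 h2; have := h'.ver u v hu hv h1 h2
    generalize (a.2 = v.2 ∧ a.1 < v.1) = p, (c.2 = v.2 ∧ c.1 < v.1) = q,
      (e.2 = v.2 ∧ e.1 < v.1) = r at *
    grind
  · intro v hv h1
    have := h.lft v hv h1; have := h'.lft v hv h1
    grind
  · intro v h1
    have := h.top v h1; have := h'.top v h1
    grind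
  · intro v hv h1
    have := h.rgt v hv h1; have := h'.rgt v hv h1
    grind
  · intro v hv h1
    have := h.bot v hv h1; have := h'.bot v hv h1
    generalize (a.2 = v.2 ∧ a.1 < v.1) = p, (c.2 = v.2 ∧ c.1 < v.1) = q,
      (e.2 = v.2 ∧ e.1 < v.1) = r at *
    grind

lemma Conn.par {S : Set V} {a c : V} (h : Conn S a c) : ∃ F, Par S a c F := by
  refine h.ind (P := fun x => ∃ F, Par S a x F) ⟨fun _ => False, ?_⟩ ?_
  · constructor <;> intros <;> grind
  · rintro x y hx xy hy ⟨F, hF⟩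
    exact ⟨_, hF.trans (par_edge hx.right hy xy)⟩

/-- the correction that removes the cut of an end point -/
def chi : Side → V → V → Prop
  | .L, a, v => a.2 ≤ v.2
  | .T, a, v => a.2 = v.2 ∧ a.1 < v.1
  | _, _, _ => False

lemma chi_hor {R : Set V} {s : Side} {a u v : V} (ha : On R s a) (hu : u ∈ R) (hv : v ∈ R)
    (n1 : ¬(a.1 = u.1 ∧ a.2 = u.2)) (h1 : v.2 = u.2) (h2 : v.1 = u.1 + 1) :
    chi s a u ↔ chi s a v := by
  cases s <;> simp only [chi] <;> omega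

lemma chi_ver {R : Set V} {s : Side} {a u v : V} (ha : On R s a) (hu : u ∈ R) (hv : v ∈ R)
    (n2 : ¬(a.1 = v.1 ∧ a.2 = v.2)) (h1 : v.2 = u.2 + 1) :
    (chi s a u ↔ chi s a v) ↔ ¬(a.2 = v.2 ∧ a.1 < v.1) := by
  cases s <;> simp only [chi, On] at * <;> have := ha u hu <;> have := ha v hv <;>
    first | omega | (simp only [true_iff]; omega)

lemma chi_val {R : Set V} {s t : Side} {a v : V} (ha : On R s a) (haR : a ∈ R) (hv : On R t v)
    (hvR : v ∈ R) (n : ¬(a.1 = v.1 ∧ a.2 = v.2)) :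
    Aft s a t v ↔ match t with
      | .L => chi s a v
      | .T => chi s a v
      | .R => ¬(chi s a v ↔ v.2 < a.2)
      | .B => (chi s a v ↔ (a.2 = v.2 ∧ a.1 < v.1)) := by
  cases s <;> cases t <;> simp only [chi, On, Aft] at * <;> have := ha v hvR <;>
    have := hv a haR <;> first | omega | (simp only [true_iff, false_iff, iff_false]; omega)

/-- interlacing lemma: two disjoint paths in `R` between boundary points do not interlace -/
theorem interlace {R S T : Set V} (hS : S ⊆ R) (hT : T ⊆ R) (d : Disjoint S T) {a b c e : V}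
    {sa sb sc se : Side} (ha : On R sa a) (hb : On R sb b) (hc : On R sc c) (he : On R se e)
    (h1 : Conn S a c) (h2 : Conn T b e) :
    (Aft sa a sb b ↔ Aft sc c sb b) ↔ (Aft sa a se e ↔ Aft sc c se e) := by
  obtain ⟨F, hF⟩ := h1.par
  have nS : ∀ v ∈ T, v ∉ S := fun v hv => Set.disjoint_right.1 d hv
  have step : ∀ u ∈ T, ∀ v ∈ T, (v.1 = u.1 + 1 ∧ v.2 = u.2) ∨ (v.1 = u.1 ∧ v.2 = u.2 + 1) ∨
      (v.1 = u.1 - 1 ∧ v.2 = u.2 + 1) →
      ((F u ↔ (chi sa a u ↔ chi sc c u)) ↔ (F v ↔ (chi sa a v ↔ chi sc c v))) := by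
    intro u hu v hv h
    by_cases h0 : v.2 = u.2
    · have := hF.hor u v (nS u hu) (nS v hv) h0 (by omega)
      have := chi_hor ha (hT hu) (hT hv) (ne_coord h1.left (nS u hu)) h0 (by omega)
      have := chi_hor hc (hT hu) (hT hv) (ne_coord h1.right (nS u hu)) h0 (by omega)
      grind
    · have := hF.ver u v (nS u hu) (nS v hv) (by omega) (by omega)
      have := chi_ver ha (hT hu) (hT hv) (ne_coord h1.left (nS v hv)) (by omega)
      have := chi_ver hc (hT hu) (hT hv) (ne_coord h1.right (nS v hv)) (by omega)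
      generalize (a.2 = v.2 ∧ a.1 < v.1) = p, (c.2 = v.2 ∧ c.1 < v.1) = q at *
      grind
  have cst : (F b ↔ (chi sa a b ↔ chi sc c b)) = (F e ↔ (chi sa a e ↔ chi sc c e)) :=
    h2.const (f := fun v => (F v ↔ (chi sa a v ↔ chi sc c v))) fun u hu v hv uv => by
      apply propext
      by_cases h : (v.1 = u.1 + 1 ∧ v.2 = u.2) ∨ (v.1 = u.1 ∧ v.2 = u.2 + 1) ∨
          (v.1 = u.1 - 1 ∧ v.2 = u.2 + 1)
      · exact step u hu v hv h
      · exact (step v hv u hu (by unfold Adj at uv; omega)).symm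
  have val : ∀ (t : Side) (v : V), v ∈ T → On R t v →
      ((F v ↔ (chi sa a v ↔ chi sc c v)) ↔ ¬(Aft sa a t v ↔ Aft sc c t v)) := by
    intro t v hv ht
    have e1 := chi_val ha (hS h1.left) ht (hT hv) (ne_coord h1.left (nS v hv))
    have e2 := chi_val hc (hS h1.right) ht (hT hv) (ne_coord h1.right (nS v hv))
    rw [e1, e2]
    cases t
    · have := hF.lft v (nS v hv) fun w hw => ht w (hS hw)
      simp only; grind
    · have := hF.top v fun w hw => ht w (hS hw)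
      simp only; grind
    · have := hF.rgt v (nS v hv) fun w hw => ht w (hS hw)
      simp only; grind
    · have := hF.bot v (nS v hv) fun w hw => ht w (hS hw)
      generalize (a.2 = v.2 ∧ a.1 < v.1) = p, (c.2 = v.2 ∧ c.1 < v.1) = q at *
      simp only; grind
  have v1 := val sb b h2.left hb
  have v2 := val se e h2.right he
  rw [cst] at v1
  grind

/-- two interlaced connections inside the same set are joined -/
theorem Conn.cross {R S : Set V} (hS : S ⊆ R) {a b c e : V}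
    {sa sb sc se : Side} (ha : On R sa a) (hb : On R sb b) (hc : On R sc c) (he : On R se e)
    (h1 : Conn S a c) (h2 : Conn S b e)
    (h : ¬((Aft sa a sb b ↔ Aft sc c sb b) ↔ (Aft sa a se e ↔ Aft sc c se e))) :
    Conn S a b := by
  by_contra hn
  refine h (interlace (S := {x | Conn S a x}) (T := {x | Conn S b x})
    (fun x hx => hS (Conn.right hx)) (fun x hx => hS (Conn.right hx)) ?_ ha hb hc he
    h1.cluster h2.cluster)
  exact Set.disjoint_left.2 fun x hx hx' => hn (Conn.trans hx (Conn.symm hx'))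

end Pool.Agent.Lib.MP_6359c9_pr
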