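import Pool.Agent.Lib.MP_6359c9_pr.Osc
import Pool.Agent.Lib.MP_6359c9_pr.HClimb

/-! A double plus separator has a conditional probability that is typically bounded below. -/

namespace Pool.Agent.Lib.MP_6359c9_pr

open Set

/-- the height function of a valid configuration, normalised at `o` -/
noncomputable def hgt (o : V) (w : Cf) (v : V) : ℤ := gr w v - gr w o + ck (w o)

lemma spn_hgt (o : V) {w : Cf} (hw : w ∈ Val) : spn (hgt o w) = w := by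
  funext v
  have := gr_mod hw o v
  rw [spn, ← sp1_ck (w v), sp1_eq, hgt]
  omega

lemma lp_hgt (o : V) {w : Cf} (hw : w ∈ Val) : Lp (hgt o w) := fun u v a => by
  have := abs_le.1 (gr_lip hw a)
  simp only [Hp, hgt]
  omega

lemma spn_off {R : Set V} {o : V} {x : Cf} (hx : x ∈ Val) {g : V → ℤ} (hg : g ∈ HD R (hgt o x))
    {v : V} (hv : v ∉ R) : spn g v = x v := by
  rw [← spn_hgt o hx, spn, spn, (mem_HD.1 hg).2 v hv]

lemma hgt_spn {R : Set V} {o : V} (ho : o ∉ R) {x : Cf} (hx : x ∈ Val) {g : V → ℤ}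
    (hg : g ∈ HD R (hgt o x)) : hgt o (spn g) = g := by
  funext v
  have := (mem_HD.1 hg).2 o ho
  rw [hgt, gr_spn hg, gr_spn hg, spn_off hx hg ho]
  simp only [hgt] at this
  omega

open Classical in
/-- conditioning on the heights off a free set -/
theorem ex_hgt {T : V → Set (Bool × Bool)} {R : Set V} (hT : ∀ v ∈ R, T v = univ) {o : V}
    (ho : o ∉ R) (f : Cf → ℝ) :
    Ex (Sp T) f = Ex (Sp T) fun x => Ex (HD R (hgt o x)) fun g => f (spn g) := by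
  rw [ex_fib (Sp T) (fun w v => if v ∈ R then 0 else hgt o w v) f]
  refine ex_congr fun x hx => (ex_bij (φ := spn) (bij_of_inv (ψ := hgt o) ?_ ?_
    (fun g hg => hgt_spn ho (Sp_val hx) hg) fun y hy => spn_hgt o (Sp_val hy.1)) f).symm
  · intro g hg
    refine ⟨⟨(spn_val hg).1, fun v => ?_⟩, funext fun v => ?_⟩
    · by_cases hv : v ∈ R
      · rw [hT v hv]; trivial
      · rw [spn_off (Sp_val hx) hg hv]; exact hx.2 v
    · simp only [hgt_spn ho (Sp_val hx) hg]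
      split_ifs with hv
      · rfl
      · exact (mem_HD.1 hg).2 v hv
  · intro y hy
    refine mem_HD.2 ⟨lp_hgt o (Sp_val hy.1), fun v hv => ?_⟩
    simpa only [if_neg hv] using congrFun hy.2 v

/-- a median level -/
lemma median {Ω : Type} {M : Set Ω} (hM : Ok M) {Lo Hi : ℤ → Set Ω}
    (hL : ∀ k k', k ≤ k' → Lo k' ⊆ Lo k) (hH : ∀ k k', k ≤ k' → Hi k ⊆ Hi k')
    (h : Pr M {x | ∃ k, x ∈ Lo k ∧ x ∈ Hi k}ᶜ ≤ 1 / 4) :
    ∃ m, 1 / 4 ≤ Pr M (Lo m) ∧ 1 / 4 ≤ Pr M (Hi m) := by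
  have ex : ∀ x, ∃ k, (∃ k, x ∈ Lo k ∧ x ∈ Hi k) → x ∈ Lo k ∧ x ∈ Hi k := fun x => by
    by_cases hx : ∃ k, x ∈ Lo k ∧ x ∈ Hi k
    · exact hx.imp fun k hk _ => hk
    · exact ⟨0, fun h => absurd h hx⟩
  choose k hk using ex
  obtain ⟨a, ha⟩ := (hM.1.image k).bddAbove
  obtain ⟨b, hb⟩ := (hM.1.image k).bddBelow
  obtain ⟨m, h1, h2⟩ := Int.exists_greatest_of_bdd (P := fun m => 1 / 2 ≤ Pr M {x | m ≤ k x})
    ⟨a, fun z hz => by
      by_contra hc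
      rw [pr_none (A := {x | z ≤ k x}) fun x hx h => hc (le_trans h (ha ⟨x, hx, rfl⟩))] at hz
      norm_num at hz⟩
    ⟨b, by rw [pr_all (A := {x | b ≤ k x}) hM fun x hx => hb ⟨x, hx, rfl⟩]; norm_num⟩
  have h3 : Pr M {x | m + 1 ≤ k x} < 1 / 2 := not_le.1 fun h => by have := h2 _ h; omega
  have h4 := pr_compl hM {x | m + 1 ≤ k x}
  have h5 := pr_le_add (M := M) (A := {x | m ≤ k x}) (B := Lo m)
    (C := {x | ∃ k, x ∈ Lo k ∧ x ∈ Hi k}ᶜ) fun x _ hx =>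
      (em _).imp (fun h => hL _ _ hx (hk x h).1) id
  have h6 := pr_le_add (M := M) (A := {x | m + 1 ≤ k x}ᶜ) (B := Hi m)
    (C := {x | ∃ k, x ∈ Lo k ∧ x ∈ Hi k}ᶜ) fun x _ hx =>
      (em _).imp (fun h => hH _ _ (Int.lt_add_one_iff.1 (not_le.1 hx)) (hk x h).2) id
  exact ⟨m, by linarith, by linarith⟩

/-- no long path that starts in `S` has all its heights in `A` -/
def NoP (A : Set ℤ) (S : Set V) (e : ℤ) : Set (V → ℤ) :=
  {g | ∀ u ∈ S, ∀ v, v ∉ Bx u e → ¬Conn {y | g y ∈ A} u v}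

lemma NoP.mono {A A' : Set ℤ} {S S' : Set V} {e : ℤ} {g : V → ℤ} (h : g ∈ NoP A S e) (hA : A' ⊆ A)
    (hS : S' ⊆ S) : g ∈ NoP A' S' e := fun u hu v hv c => h u (hS hu) v hv (c.mono fun _ hy => hA hy)

/-- climbing in a box of an arbitrary domain -/
theorem box_up (i : ℕ) : ∃ c > 0, ∃ d0 : ℤ, ∀ (R : Set V) (ξ : V → ℤ) (m e : ℤ) (q : V), R.Finite →
    d0 ≤ e → Bx q (4 * e) ⊆ R →
    c * Pr (HD R ξ) (NoP (Iio m) (Bx q (4 * e)) e) ≤ Pr (HD R ξ) (NoP (Iic (m + i)) (Bx q e) e) := by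
  obtain ⟨c, hc, d0, h⟩ := climbSt i 1
  refine ⟨c, hc, max d0 2, fun R ξ m e q hR hd hB => ?_⟩
  have e2 : 2 ≤ e := (le_max_right _ _).trans hd
  rw [pr_HD_stop (stop_SK (Iio m) univ (Bx q (4 * e))ᶜ) R ξ (NoP (Iic (m + i)) _ _), pr_eq, ← ex_mul]
  refine ex_mono fun x hx => ?_
  by_cases hx' : x ∈ NoP (Iio m) (Bx q (4 * e)) e
  swap
  · rw [indicator_of_notMem hx', mul_zero]; exact pr_nonneg _ _
  rw [indicator_of_mem hx', Pi.one_apply, mul_one]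
  have hcl : Cls (R \ cl (SK (Iio m) univ (Bx q (4 * e))ᶜ x)) := cls_SK hR (by
    rw [sdiff_compl, inter_eq_right.2 hB]; exact Bx_coConn _ _)
  refine h _ x m e q (Bx q e) hcl ((mem_HD.1 hx).1.ok hcl.fin) (fun v h1 h2 => ?_)
    ((le_max_left _ _).trans hd) (by simp) fun u hu v hv => ⟨hB ?_, fun hk => ?_⟩
  · obtain ⟨h3, h4 | h4 | h4⟩ := SK_bd h1 h2
    · exact absurd (sub_SK (show v ∈ (Bx q (4 * e))ᶜ from fun h => h4.1 (hB h))) h3
    · exact absurd trivial h4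
    · exact not_lt.1 (show ¬x v < m from h4)
  · rw [mem_Bx] at *; omega
  · have key : ∀ y ∈ SK (Iio m) univ (Bx q (4 * e))ᶜ x, y ∉ Bx q (2 * e + 1) := by
      rintro y (hy | ⟨o, ho, z, a, c⟩) hy'
      · exact hy (Bx_mono (by omega) hy')
      · refine hx' y (Bx_mono (by omega) hy') z (fun hz => ho ?_) (c.symm.mono fun _ h => h.2)
        rw [mem_Bx] at *; unfold Adj at a; omega
    have hv' : v ∈ Bx q (2 * e) := by rw [mem_Bx] at *; omega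
    rcases hk with hk | ⟨y, hy, a⟩
    · exact key v hk (Bx_mono (by omega) hv')
    · exact key y hy (cl_Bx _ _ (mem_cl hv' a.symm))

theorem box_down (i : ℕ) : ∃ c > 0, ∃ d0 : ℤ, ∀ (R : Set V) (ξ : V → ℤ) (m e : ℤ) (q : V),
    R.Finite → d0 ≤ e → Bx q (4 * e) ⊆ R →
    c * Pr (HD R ξ) (NoP (Ioi m) (Bx q (4 * e)) e) ≤ Pr (HD R ξ) (NoP (Ici (m - i)) (Bx q e) e) := by
  obtain ⟨c, hc, d0, h⟩ := box_up i
  refine ⟨c, hc, d0, fun R ξ m e q hR hd hB => ?_⟩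
  have := h R (fun v => 0 - ξ v) (-m) e q hR hd hB
  rw [← pr_bij (bij_HD_neg 0 R ξ), ← pr_bij (bij_HD_neg 0 R ξ)] at this
  have e1 : ∀ g : V → ℤ, {y | 0 - g y ∈ Iio (-m)} = {y | g y ∈ Ioi m} := fun g => by
    ext y; simp only [mem_ofPred_eq, mem_Iio, mem_Ioi]; omega
  have e2 : ∀ g : V → ℤ, {y | 0 - g y ∈ Iic (-m + i)} = {y | g y ∈ Ici (m - i)} := fun g => by
    ext y; simp only [mem_ofPred_eq, mem_Iic, mem_Ici]; omega
  simpa only [NoP, preimage_ofPred_eq, e1, e2] using this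

/-- a net of bounded size -/
lemma net (L : ℕ) : ∃ N : ℕ, ∀ (d : ℤ) (x : V) (C : Set V), 1 ≤ d → C ⊆ Bx x (L * d) →
    ∃ s : Finset V, s.card ≤ N ∧ (∀ q ∈ s, q ∈ C) ∧ ∀ u ∈ C, ∃ q ∈ s, u ∈ Bx q d := by
  classical
  obtain ⟨N, hN⟩ := cover L 1
  refine ⟨N, fun d x C hd hC => ?_⟩
  obtain ⟨r, s, r0, h1, h2, h3⟩ := hN d x C hd hC
  choose! p hp using h2
  refine ⟨s.image p, Finset.card_image_le.trans h1, fun q hq => ?_, fun u hu => ?_⟩
  · obtain ⟨z, hz, rfl⟩ := Finset.mem_image.1 hq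
    exact (hp z hz).1
  · obtain ⟨z, hz, h⟩ := h3 u hu
    exact ⟨p z, Finset.mem_image_of_mem p hz, (hp z hz).2 (Bx_mono (by push_cast; omega) h)⟩

lemma NConn.cross {P A B : Set V} {u v : V} (h : NConn P univ u v) (hu : u ∈ A) (hv : v ∉ B)
    (hA : cl A ⊆ B) : ∃ u' ∈ cl A, ∃ v' ∈ cl Bᶜ, NConn P (B \ A) u' v' := by
  have := h.ind (Q := fun y => (∃ u' ∈ cl A, ∃ v' ∈ cl Bᶜ, NConn P (B \ A) u' v') ∨ y ∈ A ∨
      ∃ u' ∈ cl A, NConn P (B \ A) u' y) (Or.inr (Or.inl hu)) (by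
    rintro a b - ab - n (h | h | ⟨u', hu', h⟩)
    · exact Or.inl h
    · by_cases hb : b ∈ A
      · exact Or.inr (Or.inl hb)
      · exact Or.inr (Or.inr ⟨b, mem_cl h ab, NConn.refl ⟨hA (mem_cl h ab), hb⟩⟩)
    · by_cases hb : b ∈ A
      · exact Or.inr (Or.inl hb)
      by_cases hb' : b ∈ B
      · exact Or.inr (Or.inr ⟨u', hu', h.tail ab ⟨hb', hb⟩ n⟩)
      · exact Or.inl ⟨u', hu', a, mem_cl hb' ab.symm, h⟩)
  rcases this with h | h | ⟨u', -, h⟩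
  · exact h
  · exact absurd (hA (sub_cl _ h)) hv
  · exact absurd h.right.1 hv

/-- a path without double plus edge stays on one side of a double plus level -/
lemma NConn.side {S : Set V} {g : V → ℤ} (hg : Lp g) {u v : V} {j : ℤ} (hj : j % 4 = 0)
    (h : NConn (lev (red (spn g)) true) S u v) (hu : u ∈ S) :
    Conn (S ∩ {y | g y ≤ j}) u v ∨ Conn (S ∩ {y | j < g y}) u v := by
  have key : ∀ a b, Adj a b → ¬(a ∈ lev (red (spn g)) true ∧ b ∈ lev (red (spn g)) true) →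
      (g a ≤ j ↔ g b ≤ j) := fun a b ab n => by
    have := hg a b ab
    simp only [lev, red, spn, mem_ofPred_eq, sp1_red, Hp] at n this
    omega
  rcases le_or_gt (g u) j with h0 | h0
  · exact Or.inl (h.ind (Q := fun y => Conn (S ∩ {y | g y ≤ j}) u y) (Conn.refl ⟨hu, h0⟩)
      fun a b _ ab hb n ih => ih.tail ab ⟨hb, (key a b ab n).1 ih.right.2⟩)
  · exact Or.inr (h.ind (Q := fun y => Conn (S ∩ {y | j < g y}) u y) (Conn.refl ⟨hu, h0⟩)
      fun a b _ ab hb n ih => ih.tail ab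
        ⟨hb, not_le.1 fun h => not_le.2 ih.right.2 ((key a b ab n).2 h)⟩)

lemma cl_Nbd (I : Set V) (d : ℤ) : cl (Nbd I d) ⊆ Nbd I (d + 1) := by
  rintro v (⟨u, hu, h⟩ | ⟨y, ⟨u, hu, h⟩, a⟩)
  · exact ⟨u, hu, Bx_mono (by omega) h⟩
  · exact ⟨u, hu, cl_Bx _ _ (mem_cl h a)⟩

lemma Nbd_step {I : Set V} {a b c : ℤ} {u v : V} (hu : u ∈ Nbd I a) (hv : v ∈ Bx u b)
    (h : a + b ≤ c) : v ∈ Nbd I c := Nbd_Nbd h ⟨u, hu, hv⟩

lemma Nbd_step' {I : Set V} {a b c : ℤ} {u v : V} (hu : u ∈ Nbd I a) (hv : u ∈ Bx v b)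
    (h : a + b ≤ c) : v ∈ Nbd I c := Nbd_step hu (by rw [mem_Bx] at *; omega) h

lemma Nbd_adj {I : Set V} {a : ℤ} {u v : V} (hu : u ∈ Nbd I a) (h : Adj u v) :
    v ∈ Nbd I (a + 1) := cl_Nbd I a (mem_cl hu h)

/-- the component of `q` in the thick annulus -/
def Cmq (I : Set V) (e : ℤ) (q : V) : Set V := {v | Conn (Nbd I (27 * e) \ Nbd I (3 * e)) q v}

/-- the two lanes -/
def Lns (I : Set V) (e : ℤ) : Set V :=
  (Nbd I (14 * e) \ Nbd I (4 * e)) ∪ (Nbd I (25 * e) \ Nbd I (15 * e))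

lemma Bx_Cmq {I : Set V} {e : ℤ} {q : V} (he : 1 ≤ e) (h1 : q ∈ Nbd I (21 * e))
    (h2 : q ∉ Nbd I (9 * e)) : Bx q (4 * e) ⊆ Cmq I e q := fun v hv =>
  (Rec_conn (by rw [mem_Rec]; omega) hv).mono fun y hy =>
    ⟨Nbd_step h1 hy (by omega), fun h => h2 (Nbd_step' h hy (by omega))⟩

lemma Cmq_eq {I : Set V} {e : ℤ} {q p : V} (h : p ∈ Cmq I e q) : Cmq I e p = Cmq I e q :=
  Set.ext fun _ => ⟨fun c => Conn.trans h c, fun c => Conn.trans (Conn.symm h) c⟩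

/-- the conditional probability of the separator given the heights off the lanes -/
theorem typ_ht (a N : ℕ) : ∃ c > 0, ∃ d0 : ℤ, 1 ≤ d0 ∧ ∀ (I : Set V) (e : ℤ) (ξ : V → ℤ)
    (s : Finset V), I.Finite → d0 ≤ e → Ok (HD (Lns I e) ξ) → s.card ≤ N →
    (∀ q ∈ s, q ∈ (Nbd I (9 * e + 1) \ Nbd I (9 * e)) ∪ (Nbd I (20 * e + 1) \ Nbd I (20 * e))) →
    (∀ u ∈ (Nbd I (9 * e + 1) \ Nbd I (9 * e)) ∪ (Nbd I (20 * e + 1) \ Nbd I (20 * e)),
      ∃ q ∈ s, u ∈ Bx q e) →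
    (∀ q ∈ s, Pr (HD (Lns I e) ξ) {g | ¬WnS (Cmq I e q) e a g} ≤ 1 / 4) →
    c ≤ Pr (HD (Lns I e) ξ) {g | Sep (lev (red (spn g)) true) I (Nbd I (27 * e))ᶜ} := by
  classical
  obtain ⟨c1, hc1, d1, h1⟩ := box_up 3
  obtain ⟨c2, hc2, d2, h2⟩ := box_down a
  obtain ⟨c, hc, c1', c2', c3⟩ : ∃ c : ℝ, 0 < c ∧ c ≤ c1 * (1 / 4) ∧ c ≤ c2 * (1 / 4) ∧ c ≤ 1 :=
    ⟨min (min (c1 * (1 / 4)) (c2 * (1 / 4))) 1, by positivity,
      (min_le_left _ _).trans (min_le_left _ _), (min_le_left _ _).trans (min_le_right _ _),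
      min_le_right _ _⟩
  refine ⟨c ^ N * c ^ N, by positivity, max (max d1 d2) 2, by omega,
    fun I e ξ s hI hd ok hs hq hu hb => ?_⟩
  have fin : (Lns I e).Finite := by
    obtain ⟨n, hn⟩ := exists_Bx hI 0
    refine (Bx_finite 0 (n + 25 * e)).subset fun v hv => Nbd_Bx hn le_rfl ?_
    exact hv.elim (fun h => Nbd_mono subset_rfl (by omega) h.1) fun h => h.1
  have med : ∀ S : Set V, ∃ m : ℤ, Pr (HD (Lns I e) ξ) {g | ¬WnS S e a g} ≤ 1 / 4 →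
      1 / 4 ≤ Pr (HD (Lns I e) ξ) (NoP (Iio m) S e) ∧
        1 / 4 ≤ Pr (HD (Lns I e) ξ) (NoP (Ioi (m + a)) S e) := by
    intro S
    by_cases h : Pr (HD (Lns I e) ξ) {g | ¬WnS S e a g} ≤ 1 / 4
    swap
    · exact ⟨0, fun h' => absurd h' h⟩
    have hle : Pr (HD (Lns I e) ξ) {g | ∃ k, g ∈ NoP (Iio k) S e ∧ g ∈ NoP (Ioi (k + a)) S e}ᶜ ≤
        Pr (HD (Lns I e) ξ) {g | ¬WnS S e a g} := by
      refine pr_mono fun g _ hg => ?_
      rintro ⟨k, hk⟩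
      exact hg ⟨k, fun u hu v hv c => hk u hu v hv (c.mono fun _ => Or.inl),
        fun u hu v hv c => hk u hu v hv (c.mono fun _ => Or.inr)⟩
    obtain ⟨m, hm⟩ := median ok (Lo := fun k => NoP (Iio k) S e)
      (Hi := fun k => NoP (Ioi (k + a)) S e)
      (fun k k' hk g hg => NoP.mono hg (Iio_subset_Iio hk) subset_rfl)
      (fun k k' hk g hg => NoP.mono hg (Ioi_subset_Ioi (by omega)) subset_rfl) (hle.trans h)
    exact ⟨m, fun _ => hm⟩
  choose m hm using med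
  obtain ⟨k, hk⟩ : ∃ k, k = Nbd I (14 * e) := ⟨_, rfl⟩
  let U : V → Set (V → ℤ) := fun q => {g | q ∈ k → ∀ u ∈ Bx q e, ∀ v, v ∉ Bx u e →
    ¬Conn (k ∩ {y | g y ≤ m (Cmq I e q) + 3}) u v}
  let D : V → Set (V → ℤ) := fun q => {g | q ∉ k → ∀ u ∈ Bx q e, ∀ v, v ∉ Bx u e →
    ¬Conn (kᶜ ∩ {y | m (Cmq I e q) ≤ g y}) u v}
  have sub : ∀ q ∈ s, Bx q (4 * e) ⊆ Cmq I e q := fun q h =>
    Bx_Cmq (by omega) ((hq q h).elim (fun h => Nbd_mono subset_rfl (by omega) h.1)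
      fun h => Nbd_mono subset_rfl (by omega) h.1)
      ((hq q h).elim (fun h => h.2) fun h h' => h.2 (Nbd_mono subset_rfl (by omega) h'))
  have sub' : ∀ q ∈ s, Bx q (4 * e) ⊆ Lns I e := fun q h v hv =>
    (hq q h).imp (fun h => ⟨Nbd_step h.1 hv (by omega), fun h' => h.2 (Nbd_step' h' hv (by omega))⟩)
      fun h => ⟨Nbd_step h.1 hv (by omega), fun h' => h.2 (Nbd_step' h' hv (by omega))⟩
  have pU : c ^ N ≤ Pr (HD (Lns I e) ξ) {g | ∀ q ∈ s, g ∈ U q} := by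
    refine (pow_le_pow_of_le_one hc.le c3 hs).trans (pr_fkg_fin ok s hc.le
      (fun q _ g g' _ _ hg h hq u hu v hv c => h hq u hu v hv
        (c.mono fun y hy => ⟨hy.1, (hg y trivial).trans hy.2⟩)) fun q h => ?_)
    refine c1'.trans ((mul_le_mul_of_nonneg_left ((hm _ (hb q h)).1.trans
      (pr_mono fun g _ hg => NoP.mono hg subset_rfl (sub q h))) hc1.le).trans
      ((h1 _ ξ _ e q fin (by omega) (sub' q h)).trans (pr_mono fun g _ hg _ u hu v hv c =>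
        hg u hu v hv (c.mono fun y hy => hy.2))))
  have pD : c ^ N ≤ Pr (HD (Lns I e) ξ) {g | ∀ q ∈ s, g ∈ D q} := by
    have b := bij_HD_neg 0 (Lns I e) ξ
    have := pr_fkg_fin ((ok_bij b).1 ok) s (A := fun q => {g | (fun v => 0 - g v) ∈ D q}) hc.le
      (fun q _ g g' _ _ hg h hq u hu v hv c => h hq u hu v hv
        (c.mono fun y hy => ⟨hy.1, le_trans hy.2 (sub_le_sub_left (hg y trivial) 0)⟩)) fun q h => by
        rw [← pr_bij b]
        refine c2'.trans ((mul_le_mul_of_nonneg_left ((hm _ (hb q h)).2.trans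
          (pr_mono fun g _ hg => NoP.mono hg subset_rfl (sub q h))) hc2.le).trans
          ((h2 _ ξ _ e q fin (by omega) (sub' q h)).trans (pr_mono fun g _ hg _ u hu v hv c =>
            hg u hu v hv (c.mono fun y hy => ?_))))
        have := hy.2
        simp only [mem_ofPred_eq, mem_Ici] at this ⊢
        omega
    rw [← pr_bij b] at this
    refine (pow_le_pow_of_le_one hc.le c3 hs).trans (this.trans (pr_mono fun g _ hg q h => ?_))
    simpa only [mem_ofPred_eq, sub_sub_cancel] using hg q h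
  have ind := markov_indep (R := Hp) (T := wl (Lns I e) ξ) (k := k) (E := univ) (E' := univ)
    (f := {g | ∀ q ∈ s, g ∈ D q}.indicator 1) (g := {g | ∀ q ∈ s, g ∈ U q}.indicator 1)
    (fun u hu v hv a => Or.inl fun b hb b' hb' => by
      rw [hk] at hu hv
      have : v ∉ Lns I e := fun h => h.elim (fun h => hv h.1)
        fun h => h.2 (Nbd_mono subset_rfl (by omega) (Nbd_adj hu a))
      rw [hb this, hb' this]) (Dep.univ _) (Dep.univ _)
    (Dep.ind fun g g' e hg q h hq u hu v hv c => hg q h hq u hu v hv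
      (c.mono fun y hy => ⟨hy.1, hy.2.trans_eq (e y hy.1).symm⟩))
    (Dep.ind fun g g' e hg q h hq u hu v hv c => hg q h hq u hu v hv
      (c.mono fun y hy => ⟨hy.1, (e y hy.1).trans_le hy.2⟩))
  simp only [inter_univ, ← pr_eq] at ind
  refine (mul_le_mul pD pU (by positivity) (pr_nonneg _ _)).trans (ind.ge.trans ?_)
  rw [pr_eq]
  refine ex_mono fun g hg => ?_
  by_cases gD : g ∈ {g | ∀ q ∈ s, g ∈ D q}
  swap
  · rw [indicator_of_notMem gD, zero_mul]; exact indicator_nonneg (fun _ _ => zero_le_one) _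
  by_cases gU : g ∈ {g | ∀ q ∈ s, g ∈ U q}
  swap
  · rw [indicator_of_notMem gU, mul_zero]; exact indicator_nonneg (fun _ _ => zero_le_one) _
  rw [indicator_of_mem gD, indicator_of_mem gU, indicator_of_mem]
  · simp
  intro u hu' v hv c
  obtain ⟨u', h3, v', h4, c'⟩ := c.cross (A := Nbd I (3 * e)) (sub_Nbd (by omega) hu') hv
    ((cl_Nbd _ _).trans (Nbd_mono subset_rfl (by omega)))
  have h3' := cl_Nbd _ _ h3
  have h4' : v' ∉ Nbd I (26 * e) := fun h => by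
    rcases h4 with h4 | ⟨y, hy, a⟩
    · exact h4 (Nbd_mono subset_rfl (by omega) h)
    · exact hy (Nbd_mono subset_rfl (by omega) (Nbd_adj h a.symm))
  obtain ⟨j, j1, j2, j3⟩ : ∃ j : ℤ, j % 4 = 0 ∧ m (Cmq I e u') ≤ j ∧ j ≤ m (Cmq I e u') + 3 :=
    ⟨4 * ((m (Cmq I e u') + 3) / 4), by omega, by omega, by omega⟩
  have same : ∀ q ∈ s, ∀ b ∈ Bx q e, b ∈ Cmq I e u' → Cmq I e q = Cmq I e u' := fun q h b h1 h2 =>
    (Cmq_eq (sub q h (Bx_mono (by omega) h1))).symm.trans (Cmq_eq h2)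
  rcases c'.side (mem_HD.1 hg).1 j1 c'.conn.left with c1 | c1
  · obtain ⟨a, b, p1, ab, hb', p2⟩ := c1.exit (T := Nbd I (9 * e))
      (Nbd_mono subset_rfl (by omega) h3') fun h => h4' (Nbd_mono subset_rfl (by omega) h)
    have hb1 := Nbd_adj p1.right.2 ab
    obtain ⟨q, h, hbq⟩ := hu b (Or.inl ⟨hb1, hb'⟩)
    have p3 : Conn ((Nbd I (27 * e) \ Nbd I (3 * e)) ∩ {y | g y ≤ j} ∩ k) u' b :=
      Conn.tail (p1.mono fun y hy => ⟨hy.1, hk ▸ Nbd_mono subset_rfl (by omega) hy.2⟩) ab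
        ⟨p2.left, hk ▸ Nbd_mono subset_rfl (by omega) hb1⟩
    have e1 := same q h b hbq (p3.mono fun y hy => hy.1.1)
    refine gU q h (hk ▸ Nbd_step' hb1 hbq (by omega)) b hbq u'
      (fun h => hb' (Nbd_step' h3' h (by omega))) (p3.symm.mono fun y hy => ⟨hy.2, ?_⟩)
    rw [e1]
    exact le_trans hy.1.2 j3
  · obtain ⟨a, b, p1, ab, hb', p2⟩ := c1.symm.exit (T := (Nbd I (20 * e + 1))ᶜ)
      (fun h => h4' (Nbd_mono subset_rfl (by omega) h))
      (not_not.2 (Nbd_mono subset_rfl (by omega) h3'))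
    have hb1 : b ∈ Nbd I (20 * e + 1) := not_not.1 hb'
    have hb2 : b ∉ Nbd I (20 * e) := fun h => p1.right.2 (Nbd_adj h ab.symm)
    obtain ⟨q, h, hbq⟩ := hu b (Or.inr ⟨hb1, hb2⟩)
    have p3 : Conn ((Nbd I (27 * e) \ Nbd I (3 * e)) ∩ {y | j < g y} ∩ kᶜ) v' b :=
      Conn.tail (p1.mono fun y hy =>
        ⟨hy.1, fun h => hy.2 (Nbd_mono subset_rfl (by omega) (hk ▸ h))⟩) ab
        ⟨p2.left, fun h => hb2 (Nbd_mono subset_rfl (by omega) (hk ▸ h))⟩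
    have e1 := same q h b hbq (p2.symm.mono fun y hy => hy.1)
    refine gD q h (fun h => hb2 (Nbd_step (hk ▸ h) hbq (by omega))) b hbq v'
      (fun h => h4' (Nbd_step hb1 h (by omega))) (p3.symm.mono fun y hy => ⟨hy.2, ?_⟩)
    rw [e1]
    exact j2.trans (le_of_lt hy.1.2)

/-- typical lower bound for the conditional probability of a double plus separator -/
theorem typ_gen (L : ℕ) (ε : ℝ) (hε : 0 < ε) : ∃ (c : ℝ) (d0 : ℤ), 0 < c ∧ 1 ≤ d0 ∧
    ∀ (ρ : V → Set Bool) (W I : Set V) (x : V) (d : ℤ) (F : Cf → ℝ), Tame ρ W → d0 ≤ d →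
      I ⊆ Bx x (L * d) → Free ρ W (Nbd I d \ I) → Lcl (I ∪ (Nbd I d)ᶜ) F →
      (∀ w ∈ Val, 0 ≤ F w ∧ F w ≤ 1) →
      c * (Ex (MS ρ W) F - ε) ≤ Ex (MS ρ W) fun w => sepI I (Nbd I d)ᶜ w * F w := by
  obtain ⟨θ, θ0, θ1, A, -, ho⟩ := osc_set (60 * L + 27)
  obtain ⟨N, hN⟩ := net (60 * L + 27)
  obtain ⟨j, hj⟩ := exists_pow_lt_of_lt_one (x := ε / (4 * N + 1)) (by positivity) θ1
  obtain ⟨c, hc, d0, d1, h⟩ := typ_ht (A * (j + 1)) N
  refine ⟨c, 30 * d0, hc, by omega, fun ρ W I x d F ht hd hI hf hF F1 => ?_⟩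
  obtain ⟨e, e1, e2⟩ : ∃ e : ℤ, 30 * e ≤ d ∧ d < 30 * e + 30 := ⟨d / 30, by omega, by omega⟩
  have hL : (L : ℤ) * d + 27 * e ≤ (60 * L + 27 : ℕ) * e := by
    have : (L : ℤ) * d ≤ L * (60 * e) := mul_le_mul_of_nonneg_left (by omega) (by positivity)
    push_cast; linarith
  have hB : Nbd I (27 * e) ⊆ Bx x ((60 * L + 27 : ℕ) * e) := Nbd_Bx hI hL
  obtain ⟨s, s1, s2, s3⟩ := hN e x
    ((Nbd I (9 * e + 1) \ Nbd I (9 * e)) ∪ (Nbd I (20 * e + 1) \ Nbd I (20 * e))) (by omega)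
    fun v hv => hB (hv.elim (fun h => Nbd_mono subset_rfl (by omega) h.1)
      fun h => Nbd_mono subset_rfl (by omega) h.1)
  have fI : I.Finite := (Bx_finite _ _).subset hI
  have lns : Lns I e ⊆ Nbd I (27 * e) \ Nbd I (3 * e) := fun v hv => hv.elim
    (fun h => ⟨Nbd_mono subset_rfl (by omega) h.1, fun h' => h.2 (Nbd_mono subset_rfl (by omega) h')⟩)
    fun h => ⟨Nbd_mono subset_rfl (by omega) h.1, fun h' => h.2 (Nbd_mono subset_rfl (by omega) h')⟩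
  have fL : (Lns I e).Finite := (Bx_finite _ _).subset fun v hv => hB (lns hv).1
  have in1 : Nbd (Nbd I (27 * e) \ Nbd I (3 * e)) (3 * e) ⊆ Nbd I d \ I := by
    rintro v ⟨u, hu, h⟩
    exact ⟨Nbd_step hu.1 h (by omega), fun h' => hu.2 (Nbd_step' (sub_Nbd le_rfl h') h (by omega))⟩
  have in2 : Lns I e ⊆ Nbd I d \ I := fun v hv => in1 (sub_Nbd (by omega) (lns hv))
  obtain ⟨o, ho'⟩ : ∃ o, o ∉ Lns I e := fL.exists_notMem
  have hT : ∀ v ∈ Lns I e, tm ρ W v = univ := fun v hv => eq_univ_of_forall fun a =>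
    ⟨(hf v (in2 hv)).1 ▸ trivial, fun h => absurd (hf v (in2 hv)).2 h⟩
  obtain ⟨B, hBd⟩ : ∃ B : Set Cf,
    B = ⋃ q ∈ s, {w | ¬WnS (Cmq I e q) e (A * (j + 1)) (gr w)} := ⟨_, rfl⟩
  have pB : 4 * Pr (MS ρ W) B ≤ ε := by
    have := (pr_biUnion_le (MS ρ W) s _).trans (Finset.sum_le_card_nsmul s _ (θ ^ j) fun q _ =>
      ho ρ W (Cmq I e q) x e j ht (by omega) (fun v hv => hB (Conn.right hv).1)
        (fun u hu v hv => (Conn.cluster hu).symm.trans (Conn.cluster hv))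
        fun v hv => hf v (in1 (Nbd_mono (fun y hy => Conn.right hy) le_rfl hv)))
    rw [← hBd, nsmul_eq_mul] at this
    have h1 : (s.card : ℝ) ≤ N := by exact_mod_cast s1
    rw [lt_div_iff₀ (by positivity)] at hj
    nlinarith [pow_nonneg θ0 j]
  rw [ex_hgt hT ho' fun w => sepI I (Nbd I d)ᶜ w * F w]
  rw [pr_eq, ex_hgt hT ho'] at pB
  refine le_trans (mul_le_mul_of_nonneg_left (sub_le_sub_left pB _) hc.le) ?_
  rw [← ex_mul, ← ex_sub, ← ex_mul]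
  refine ex_mono fun w hw => ?_
  have hv := Sp_val hw
  have ok := (lp_hgt o hv).ok fL
  have e3 : Ex (HD (Lns I e) (hgt o w)) (fun g => sepI I (Nbd I d)ᶜ (spn g) * F (spn g)) =
      Pr (HD (Lns I e) (hgt o w)) (spn ⁻¹' (red ⁻¹' SepE true I (Nbd I d)ᶜ)) * F w := by
    rw [pr_eq, ← ex_mul']
    refine ex_congr fun g hg => ?_
    rw [hF _ (spn_val hg) w hv fun v h => spn_off hv hg fun h' =>
      h.elim (in2 h').2 fun h => h (in2 h').1]
    rfl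
  have e4 : Ex (HD (Lns I e) (hgt o w)) (fun g => B.indicator 1 (spn g)) =
      Pr (HD (Lns I e) (hgt o w)) (spn ⁻¹' B) := (pr_eq _ _).symm
  rw [e3, e4]
  have p0 := pr_nonneg (HD (Lns I e) (hgt o w)) (spn ⁻¹' B)
  have p1 := pr_nonneg (HD (Lns I e) (hgt o w)) (spn ⁻¹' (red ⁻¹' SepE true I (Nbd I d)ᶜ))
  obtain ⟨f0, f1⟩ := F1 w hv
  rcases le_total (Pr (HD (Lns I e) (hgt o w)) (spn ⁻¹' B)) (1 / 4) with hp | hp
  · have := (h I e _ s fI (by omega) ok s1 s2 s3 fun q hq => le_trans (pr_mono fun g hg hb => by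
        rw [hBd]
        refine mem_iUnion₂.2 ⟨q, hq, fun hw => hb ?_⟩
        push_cast
        exact hw.congr (t := g 0) (by omega) fun y _ => by rw [gr_spn hg]; ring) hp).trans
      (pr_mono (B := spn ⁻¹' (red ⁻¹' SepE true I (Nbd I d)ᶜ)) fun g _ hg =>
        Sep.mono hg subset_rfl subset_rfl (compl_subset_compl.2 (Nbd_mono subset_rfl (by omega))))
    nlinarith
  · nlinarith

theorem typSt : TypSt := by
  intro L ε hε
  obtain ⟨c, d0, hc, d1, h⟩ := typ_gen L ε hε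
  refine ⟨c, d0, hc, fun ρ W I O x d F ht hd _ _ hO hD hf hF F1 => ?_⟩
  have hO' : O ⊆ (Nbd I d)ᶜ := hD.subset_compl_left
  refine (h ρ W I x d F ht hd (fun v hv => hO fun h => hO' h (sub_Nbd (by omega) hv))
    (fun v hv => hf v fun h => h.elim hv.2 fun h => hO' h hv.1)
    (hF.mono (union_subset_union_right _ hO')) F1).trans (ex_mono fun w hw => ?_)
  exact mul_le_mul_of_nonneg_right (indicator_le_indicator_of_subset
    (preimage_mono (SepE_mono true subset_rfl hO')) (fun _ => zero_le_one) w) (F1 w (Sp_val hw)).1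

/-- the form with the conditional probability given the spins off the free set -/
theorem typ (L : ℕ) (ε : ℝ) (hε : 0 < ε) : ∃ c > 0, ∃ d0 : ℤ, ∀ (ρ : V → Set Bool) (W : Set V)
    (x : V) (d : ℤ) (I : Set V), Tame ρ W → d0 ≤ d → I ⊆ Bx x (L * d) → Free ρ W (Nbd I d) →
    Pr (MS ρ W) {w | Pr (Sp (frz (fun _ => univ) (Nbd I d)ᶜ w))
      (red ⁻¹' SepE true I (Nbd I d)ᶜ) < c} ≤ ε := by
  obtain ⟨c, d0, hc, d1, h⟩ := typ_gen L (ε / 2) (by positivity)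
  refine ⟨c / 2, by positivity, d0, fun ρ W x d I ht hd hI hf => ?_⟩
  obtain ⟨E, hE⟩ : ∃ E : Set Cf, E = {w | Pr (Sp (frz (fun _ => univ) (Nbd I d)ᶜ w))
    (red ⁻¹' SepE true I (Nbd I d)ᶜ) < c / 2} := ⟨_, rfl⟩
  have dep : Dep (Nbd I d)ᶜ E := fun y z e hy => by
    have : Sp (frz (fun _ => univ) (Nbd I d)ᶜ z) = Sp (frz (fun _ => univ) (Nbd I d)ᶜ y) :=
      Loc_congr fun v a => and_congr_right fun _ => imp_congr_right fun hv => by rw [e v hv]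
    rw [hE] at hy ⊢
    simpa only [mem_ofPred_eq, this] using hy
  have := h ρ W I x d (E.indicator 1) ht hd hI (fun v hv => hf v hv.1)
    ((Lcl.of_dep dep.ind).mono subset_union_right) fun w _ => by
      by_cases hw : w ∈ E <;> simp [hw]
  rw [ex_stop_loc (stop_const (Nbd I d)ᶜ) Cp (tm ρ W) fun w => sepI _ _ w * _, ← pr_eq] at this
  have h2 : Ex (MS ρ W) (fun y => Ex (Sp (frz (tm ρ W) (Nbd I d)ᶜ y))
      fun w => sepI I (Nbd I d)ᶜ w * E.indicator 1 w) ≤ c / 2 * Pr (MS ρ W) E := by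
    rw [pr_eq, ← ex_mul]
    refine ex_mono fun y hy => ?_
    have e1 : Sp (frz (tm ρ W) (Nbd I d)ᶜ y) = Sp (frz (fun _ => univ) (Nbd I d)ᶜ y) :=
      Loc_congr fun v a => ⟨fun h => ⟨trivial, h.2⟩, fun h => ⟨by
        by_cases hv : v ∈ Nbd I d
        · exact ⟨(hf v hv).1 ▸ trivial, fun h => absurd (hf v hv).2 h⟩
        · rw [h.2 hv]; exact hy.2 v, h.2⟩⟩
    rw [ex_congr (g := fun w => sepI I (Nbd I d)ᶜ w * E.indicator 1 y) fun w hw => by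
      rw [dep.ind fun v hv => (hw.2 v).2 hv], ex_mul', e1, sepI, ← pr_eq]
    by_cases hy' : y ∈ E
    · rw [indicator_of_mem hy']
      exact mul_le_mul_of_nonneg_right (le_of_lt (hE ▸ hy' :)) zero_le_one
    · simp [hy']
  rw [← hE]
  have := this.trans h2
  nlinarith

end Pool.Agent.Lib.MP_6359c9_pr
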