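import Pool.Agent.Lib.MP_6359c9_pr.WBnd

/-! The face set of a discrete domain. -/

namespace Pool.Agent.Lib.MP_6359c9_pr

open Filter Topology

/-- second lattice coordinate of a point -/
noncomputable def cy (d : ℝ) (z : ℂ) : ℝ := z.im / d / (√3 / 2)

/-- first lattice coordinate of a point -/
noncomputable def cx (d : ℝ) (z : ℂ) : ℝ := z.re / d - cy d z / 2

lemma cont_cy (d : ℝ) : Continuous (cy d) := by unfold cy; fun_prop

lemma cont_cx (d : ℝ) : Continuous (cx d) := by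
  have := cont_cy d
  unfold cx; fun_prop

lemma cy_comb (d a b : ℝ) (z w : ℂ) : cy d (a • z + b • w) = a * cy d z + b * cy d w := by
  simp only [cy, Complex.add_im, Complex.smul_im, smul_eq_mul]; ring

lemma cx_comb (d a b : ℝ) (z w : ℂ) : cx d (a • z + b • w) = a * cx d z + b * cx d w := by
  simp only [cx, cy_comb, Complex.add_re, Complex.smul_re, smul_eq_mul]; ring

lemma cy_pos {d : ℝ} (hd : 0 < d) (k : ℝ) (p : V) : cy d (pos (d / k) p) = p.2 / k := by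
  have : (√3 : ℝ) ≠ 0 := by positivity
  simp only [cy, pos]; field_simp

lemma cx_pos {d : ℝ} (hd : 0 < d) (k : ℝ) (p : V) : cx d (pos (d / k) p) = p.1 / k := by
  rw [cx, cy_pos hd]
  simp only [pos]; field_simp; ring

lemma cy_pos' {d : ℝ} (hd : 0 < d) (p : V) : cy d (pos d p) = p.2 := by
  simpa using cy_pos hd 1 p

lemma cx_pos' {d : ℝ} (hd : 0 < d) (p : V) : cx d (pos d p) = p.1 := by
  simpa using cx_pos hd 1 p

/-- closed unit interval with integer end points -/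
def InI (i : ℤ) (x : ℝ) : Prop := (i : ℝ) ≤ x ∧ x ≤ i + 1

/-- `p` is three times the centre of a face -/
def Face (p : V) : Prop := (p.1 % 3 = 1 ∧ p.2 % 3 = 1) ∨ (p.1 % 3 = 2 ∧ p.2 % 3 = 2)

/-- the closed triangle of the face `p` -/
def Tg (d : ℝ) (p : V) : Set ℂ :=
  {z | InI (p.1 / 3) (cx d z) ∧ InI (p.2 / 3) (cy d z) ∧ InI ((p.1 + p.2) / 3) (cx d z + cy d z)}

lemma Adj.face {u v : V} (h : Adj u v) : Face (lf u v) := by
  simp only [Face, lf_fst, lf_snd, Adj] at *; omega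

lemma tg_cover (d : ℝ) (z : ℂ) : ∃ p, Face p ∧ z ∈ Tg d p := by
  have h1 := Int.floor_le (cx d z)
  have h2 := Int.lt_floor_add_one (cx d z)
  have h3 := Int.floor_le (cy d z)
  have h4 := Int.lt_floor_add_one (cy d z)
  set i := ⌊cx d z⌋
  set j := ⌊cy d z⌋
  rcases le_total (cx d z + cy d z) (i + j + 1) with h | h
  · refine ⟨(3 * i + 1, 3 * j + 1), by simp only [Face]; omega, ?_⟩
    simp only [Tg, Set.mem_ofPred_eq]
    rw [show (3 * i + 1) / 3 = i by omega, show (3 * j + 1) / 3 = j by omega,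
      show (3 * i + 1 + (3 * j + 1)) / 3 = i + j by omega]
    refine ⟨⟨h1, h2.le⟩, ⟨h3, h4.le⟩, ?_, ?_⟩ <;> push_cast <;> linarith
  · refine ⟨(3 * i + 2, 3 * j + 2), by simp only [Face]; omega, ?_⟩
    simp only [Tg, Set.mem_ofPred_eq]
    rw [show (3 * i + 2) / 3 = i by omega, show (3 * j + 2) / 3 = j by omega,
      show (3 * i + 2 + (3 * j + 2)) / 3 = i + j + 1 by omega]
    refine ⟨⟨h1, h2.le⟩, ⟨h3, h4.le⟩, ?_, ?_⟩ <;> push_cast <;> linarith

lemma in_near {f : ℂ → ℝ} (hf : Continuous f) (z : ℂ) :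
    ∀ᶠ w in 𝓝 z, ∀ i : ℤ, InI i (f w) → InI i (f z) := by
  have h1 : ∀ᶠ w in 𝓝 z, f w < (⌊f z⌋ : ℝ) + 1 :=
    hf.continuousAt.eventually (gt_mem_nhds (Int.lt_floor_add_one _))
  have h2 : ∀ᶠ w in 𝓝 z, (⌈f z⌉ : ℝ) - 1 < f w :=
    hf.continuousAt.eventually (lt_mem_nhds (by linarith [Int.ceil_lt_add_one (f z)]))
  filter_upwards [h1, h2] with w h1 h2 i hi
  have a1 : i < ⌊f z⌋ + 1 := by exact_mod_cast hi.1.trans_lt h1
  have a2 : ⌈f z⌉ - 1 < i + 1 := by exact_mod_cast h2.trans_le hi.2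
  refine ⟨Int.le_floor.1 (by omega), ?_⟩
  have : f z ≤ ((i + 1 : ℤ) : ℝ) := Int.ceil_le.1 (by omega)
  exact_mod_cast this

lemma tg_near (d : ℝ) (z : ℂ) : ∀ᶠ w in 𝓝 z, ∀ p, w ∈ Tg d p → z ∈ Tg d p := by
  filter_upwards [in_near (cont_cx d) z, in_near (cont_cy d) z,
    in_near ((cont_cx d).add (cont_cy d)) z] with w h1 h2 h3 p hp
  exact ⟨h1 _ hp.1, h2 _ hp.2.1, h3 _ hp.2.2⟩

lemma in_half {i m : ℤ} : InI i ((m : ℝ) / 2) ↔ 2 * i ≤ m ∧ m ≤ 2 * i + 2 := by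
  constructor
  · rintro ⟨h1, h2⟩
    constructor
    · exact_mod_cast (by linarith : 2 * (i : ℝ) ≤ m)
    · exact_mod_cast (by linarith : (m : ℝ) ≤ 2 * i + 2)
  · rintro ⟨h1, h2⟩
    have a1 : 2 * (i : ℝ) ≤ m := by exact_mod_cast h1
    have a2 : (m : ℝ) ≤ 2 * i + 2 := by exact_mod_cast h2
    exact ⟨by linarith, by linarith⟩

/-- half lattice points in a closed triangle -/
lemma tg_half {d : ℝ} (hd : 0 < d) (p m : V) : pos (d / 2) m ∈ Tg d p ↔
    (2 * (p.1 / 3) ≤ m.1 ∧ m.1 ≤ 2 * (p.1 / 3) + 2) ∧ (2 * (p.2 / 3) ≤ m.2 ∧ m.2 ≤ 2 * (p.2 / 3) + 2) ∧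
      (2 * ((p.1 + p.2) / 3) ≤ m.1 + m.2 ∧ m.1 + m.2 ≤ 2 * ((p.1 + p.2) / 3) + 2) := by
  simp only [Tg, Set.mem_ofPred_eq, cx_pos hd, cy_pos hd]
  rw [← add_div, ← Int.cast_add, in_half, in_half, in_half]

lemma pos_two (d : ℝ) (v : V) : pos (d / 2) (v + v) = pos d v := by
  apply Complex.ext <;> simp only [pos, Prod.fst_add, Prod.snd_add] <;> push_cast <;> ring

lemma pos_mid (d : ℝ) (u v : V) : pos (d / 2) (u + v) ∈ segment ℝ (pos d u) (pos d v) := by
  refine ⟨1 / 2, 1 / 2, by norm_num, by norm_num, by norm_num, ?_⟩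
  apply Complex.ext <;>
    simp only [pos, Prod.fst_add, Prod.snd_add, Complex.add_re, Complex.add_im, Complex.smul_re,
      Complex.smul_im, smul_eq_mul] <;> push_cast <;> ring

lemma seg_co {d : ℝ} (hd : 0 < d) {a b : V} {w : ℂ} (h : w ∈ segment ℝ (pos d a) (pos d b)) :
    ∃ t : ℝ, 0 ≤ t ∧ t ≤ 1 ∧ cx d w = a.1 + t * (b.1 - a.1) ∧ cy d w = a.2 + t * (b.2 - a.2) := by
  obtain ⟨s, t, hs, ht, hst, rfl⟩ := h
  obtain rfl : s = 1 - t := by linarith
  refine ⟨t, ht, by linarith, ?_, ?_⟩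
  · rw [cx_comb, cx_pos' hd, cx_pos' hd]; ring
  · rw [cy_comb, cy_pos' hd, cy_pos' hd]; ring

lemma seg_int {d : ℝ} (hd : 0 < d) {a b : V} (ab : Adj a b) {w : ℂ}
    (h : w ∈ segment ℝ (pos d a) (pos d b)) :
    ∃ m : ℤ, cx d w = m ∨ cy d w = m ∨ cx d w + cy d w = m := by
  obtain ⟨t, -, -, h1, h2⟩ := seg_co hd h
  rcases ab with h | h | h | h | h | h <;> rw [h.1] at h1 <;> rw [h.2] at h2 <;> push_cast at h1 h2
  · exact ⟨a.2, Or.inr (Or.inl (by linarith))⟩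
  · exact ⟨a.2, Or.inr (Or.inl (by linarith))⟩
  · exact ⟨a.1, Or.inl (by linarith)⟩
  · exact ⟨a.1, Or.inl (by linarith)⟩
  · exact ⟨a.1 + a.2, Or.inr (Or.inr (by push_cast; linarith))⟩
  · exact ⟨a.1 + a.2, Or.inr (Or.inr (by push_cast; linarith))⟩

lemma seg_half {d : ℝ} (hd : 0 < d) {a b m : V} (ab : Adj a b)
    (h : pos (d / 2) m ∈ segment ℝ (pos d a) (pos d b)) : m = a + a ∨ m = a + b ∨ m = b + b := by
  obtain ⟨t, t0, t1, h1, h2⟩ := seg_co hd h
  rw [cx_pos hd] at h1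
  rw [cy_pos hd] at h2
  have key : ∀ (x y m : ℤ), (m : ℝ) / 2 = x + t * (y - x) →
      (x ≤ y → 2 * x ≤ m ∧ m ≤ 2 * y) ∧ (y ≤ x → 2 * y ≤ m ∧ m ≤ 2 * x) := by
    intro x y m h
    refine ⟨fun hxy => ?_, fun hxy => ?_⟩
    · have : (x : ℝ) ≤ y := by exact_mod_cast hxy
      constructor
      · exact_mod_cast (by nlinarith : 2 * (x : ℝ) ≤ m)
      · exact_mod_cast (by nlinarith : (m : ℝ) ≤ 2 * y)
    · have : (y : ℝ) ≤ x := by exact_mod_cast hxy
      constructor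
      · exact_mod_cast (by nlinarith : 2 * (y : ℝ) ≤ m)
      · exact_mod_cast (by nlinarith : (m : ℝ) ≤ 2 * x)
  have k1 := key _ _ _ h1
  have k2 := key _ _ _ h2
  have k3 := key (a.1 + a.2) (b.1 + b.2) (m.1 + m.2) (by push_cast; linarith)
  simp only [Prod.ext_iff, Prod.fst_add, Prod.snd_add, Adj] at *
  omega

lemma pre_mem {D S : Set ℂ} (hO : IsOpen D) (hS : IsPreconnected S)
    (h : ∀ w ∈ S, w ∉ frontier D) {a b : ℂ} (ha : a ∈ S) (hb : b ∈ S) (hD : a ∈ D) : b ∈ D := by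
  have := hS.subset_or_subset hO isClosed_closure.isOpen_compl
    (Set.disjoint_left.2 fun x hx hx' => hx' (subset_closure hx)) (v := (closure D)ᶜ) (fun w hw => by
      by_cases h1 : w ∈ closure D
      · left
        by_contra h2
        exact h w hw ⟨h1, fun h3 => h2 (interior_subset h3)⟩
      · exact Or.inr h1)
  rcases this with h1 | h1
  · exact h1 hb
  · exact absurd (subset_closure hD) (h1 ha)

lemma tg_vert {d : ℝ} (hd : 0 < d) {v w : V} (h : Adj v w) : pos d v ∈ Tg d (lf v w) := by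
  rw [← pos_two, tg_half hd]
  simp only [lf_fst, lf_snd, Prod.fst_add, Prod.snd_add, Adj] at *
  omega

lemma vert_tg {d : ℝ} (hd : 0 < d) {v p : V} (hp : Face p) (h : pos d v ∈ Tg d p) :
    ∃ w, Adj v w ∧ lf v w = p := by
  rw [← pos_two, tg_half hd] at h
  refine ⟨(v.1 + (2 * p.1 + p.2) / 3 - (2 * v.1 + v.2), v.2 + (p.2 - p.1) / 3 - (v.2 - v.1)), ?_, ?_⟩ <;>
    simp only [lf_fst, lf_snd, Prod.fst_add, Prod.snd_add, Adj, Face, Prod.ext_iff] at * <;> omega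

/-- turning around a vertex -/
lemma par {F : V → Prop} {v a : V} (ha : Adj v a)
    (h : ∀ w, Adj v w → w ≠ a → (F (lf v w) ↔ F (lf w v))) : F (lf v a) ↔ F (lf a v) := by
  have a1 := ha.thd.1
  have a2 := a1.thd.1
  have a3 := a2.thd.1
  have a4 := a3.thd.1
  have a5 := a4.thd.1
  have e : thd v (thd v (thd v (thd v (thd v (thd v a))))) = a := by
    ext <;> simp only [thd] <;> ring
  have h1 := h _ a1 (by simp only [ne_eq, Prod.ext_iff, thd, Adj] at ha ⊢; omega)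
  have h2 := h _ a2 (by simp only [ne_eq, Prod.ext_iff, thd, Adj] at ha ⊢; omega)
  have h3 := h _ a3 (by simp only [ne_eq, Prod.ext_iff, thd, Adj] at ha ⊢; omega)
  have h4 := h _ a4 (by simp only [ne_eq, Prod.ext_iff, thd, Adj] at ha ⊢; omega)
  have h5 := h _ a5 (by simp only [ne_eq, Prod.ext_iff, thd, Adj] at ha ⊢; omega)
  rw [lf_thd'] at h1 h2 h3 h4 h5
  have h6 := lf_thd' v (thd v (thd v (thd v (thd v (thd v a)))))
  rw [e] at h6
  rw [h6, h5, h4, h3, h2, h1]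

/-- a finite nonempty set of faces has a boundary edge -/
lemma no_bd {F : Set V} (hF : F.Finite) {p : V} (hp : Face p) (hpF : p ∈ F) :
    ¬∀ u v, Adj u v → (lf u v ∈ F ↔ lf v u ∈ F) := by
  intro h
  have s1 : ∀ a b : ℤ, ((3 * a + 1, 3 * b + 1) : V) ∈ F ↔ ((3 * a + 2, 3 * b + 2) : V) ∈ F := by
    intro a b
    have := h (a + 1, b) (a, b + 1) (by simp [Adj])
    convert this using 2 <;> ext <;> simp only [lf_fst, lf_snd] <;> ring
  have s2 : ∀ a b : ℤ,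
      ((3 * a + 2, 3 * b + 2) : V) ∈ F ↔ ((3 * (a + 1) + 1, 3 * b + 1) : V) ∈ F := by
    intro a b
    have := h (a + 1, b) (a + 1, b + 1) (by simp [Adj])
    convert this using 2 <;> ext <;> simp only [lf_fst, lf_snd] <;> ring
  have h0 : ((3 * (p.1 / 3) + 1, 3 * (p.2 / 3) + 1) : V) ∈ F := by
    rcases hp with hp | hp
    · convert hpF using 1
      ext <;> simp only <;> omega
    · rw [s1]
      convert hpF using 1
      ext <;> simp only <;> omega
  refine Set.infinite_of_injective_forall_mem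
    (f := fun k : ℕ => ((3 * (p.1 / 3 + k) + 1, 3 * (p.2 / 3) + 1) : V)) ?_ ?_ hF
  · intro k l hkl
    simp only [Prod.ext_iff] at hkl
    omega
  · intro k
    induction k with
    | zero => simpa using h0
    | succ k ih =>
      have := (s2 _ _).1 ((s1 _ _).1 ih)
      push_cast
      rwa [← add_assoc]

namespace Dom

variable {d : ℝ} (Q : Dom d)

lemma fr_iff {w : ℂ} : w ∈ frontier Q.D ↔
    ∃ i < Q.n, w ∈ segment ℝ (pos d (Q.c i)) (pos d (Q.c (i + 1))) := by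
  rw [Q.bdry]; simp

lemma not_fr {w : ℂ} (h : w ∈ Q.D) : w ∉ frontier Q.D := fun h' =>
  h'.2 (by rwa [Q.isOpen.interior_eq])

/-- off the boundary a closed triangle lies inside or outside -/
lemma tg_iff (hd : 0 < d) {p : V} (hp : Face p) {z : ℂ} (hz : z ∈ Tg d p)
    (hf : z ∉ frontier Q.D) : z ∈ Q.D ↔ pos (d / 3) p ∈ Q.D := by
  have key : ∀ w ∈ segment ℝ z (pos (d / 3) p), w ∉ frontier Q.D := by
    rintro w ⟨s, t, hs, ht, hst, rfl⟩ hw
    rcases ht.eq_or_lt with rfl | ht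
    · obtain rfl : s = 1 := by linarith
      exact hf (by simpa using hw)
    obtain ⟨i, hi, hw⟩ := Q.fr_iff.1 hw
    obtain ⟨m, hm⟩ := seg_int hd (Q.adj i hi) hw
    rw [cx_comb, cy_comb, cx_pos hd, cy_pos hd] at hm
    have aux : ∀ (x : ℝ) (q : ℤ), InI (q / 3) x → q % 3 ≠ 0 → s * x + t * (q / 3) ≠ m := by
      intro x q hx hq he
      obtain ⟨h1, h2⟩ := hx
      have b1 : 3 * (q / 3) < q := by omega
      have b2 : q < 3 * (q / 3) + 3 := by omega
      generalize q / 3 = k at *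
      have c1 : 3 * (k : ℝ) < q := by exact_mod_cast b1
      have c2 : (q : ℝ) < 3 * k + 3 := by exact_mod_cast b2
      obtain rfl : s = 1 - t := by linarith
      have d1 : (k : ℝ) < m := by nlinarith
      have d2 : (m : ℝ) < k + 1 := by nlinarith
      have e1 : k < m := by exact_mod_cast d1
      have e2 : m < k + 1 := by exact_mod_cast d2
      omega
    rcases hm with hm | hm | hm
    · exact aux _ _ hz.1 (by unfold Face at hp; omega) hm
    · exact aux _ _ hz.2.1 (by unfold Face at hp; omega) hm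
    · exact aux _ _ hz.2.2 (by unfold Face at hp; omega) (by push_cast; linarith)
  have hc := (convex_segment z (pos (d / 3) p)).isPreconnected
  exact ⟨pre_mem Q.isOpen hc key (left_mem_segment _ _ _) (right_mem_segment _ _ _),
    pre_mem Q.isOpen hc key (right_mem_segment _ _ _) (left_mem_segment _ _ _)⟩

/-- the closed domain is the union of the closed triangles with centre inside -/
lemma cl_iff (hd : 0 < d) {z : ℂ} :
    z ∈ closure Q.D ↔ ∃ p, Face p ∧ pos (d / 3) p ∈ Q.D ∧ z ∈ Tg d p := by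
  constructor
  · intro h
    obtain ⟨w, hw, hD⟩ := ((tg_near d z).and_frequently (mem_closure_iff_frequently.1 h)).exists
    obtain ⟨p, hp, hT⟩ := tg_cover d w
    exact ⟨p, hp, (Q.tg_iff hd hp hT (Q.not_fr hD)).1 hD, hw p hT⟩
  · rintro ⟨p, hp, hD, hT⟩
    by_cases hf : z ∈ frontier Q.D
    · exact frontier_subset_closure hf
    · exact subset_closure ((Q.tg_iff hd hp hT hf).2 hD)

lemma fin_pos (hd : 0 < d) {k : ℝ} (hk : 0 < k) : {p : V | pos (d / k) p ∈ closure Q.D}.Finite := by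
  have hK := Q.bdd.isCompact_closure
  obtain ⟨A, hA⟩ := hK.exists_bound_of_continuousOn (cont_cx d).continuousOn
  obtain ⟨B, hB⟩ := hK.exists_bound_of_continuousOn (cont_cy d).continuousOn
  have aux : ∀ (C : ℝ) (m : ℤ), ‖(m : ℝ) / k‖ ≤ C → m ∈ Set.Icc (-⌈C * k⌉) ⌈C * k⌉ := by
    intro C m h
    rw [Real.norm_eq_abs, abs_div, abs_of_pos hk, div_le_iff₀ hk] at h
    have h1 := abs_le.1 (h.trans (Int.le_ceil _))
    exact ⟨by exact_mod_cast h1.1, by exact_mod_cast h1.2⟩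
  refine ((Set.finite_Icc (-⌈A * k⌉) ⌈A * k⌉).prod (Set.finite_Icc (-⌈B * k⌉) ⌈B * k⌉)).subset
    fun p hp => ⟨aux A _ ?_, aux B _ ?_⟩
  · rw [← cx_pos hd]; exact hA _ hp
  · rw [← cy_pos hd]; exact hB _ hp

lemma CE.symm {Q : Dom d} {u v : V} (h : Q.CE u v) : Q.CE v u :=
  let ⟨i, hi, h⟩ := h; ⟨i, hi, h.symm⟩

/-- the two faces of an edge off the cycle are on the same side -/
lemma same (hd : 0 < d) {u v : V} (uv : Adj u v) (h : ¬Q.CE u v) :
    pos (d / 3) (lf u v) ∈ Q.D ↔ pos (d / 3) (lf v u) ∈ Q.D := by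
  have hf : pos (d / 2) (u + v) ∉ frontier Q.D := by
    intro hf
    obtain ⟨i, hi, hw⟩ := Q.fr_iff.1 hf
    have a := Q.adj i hi
    have := seg_half hd a hw
    refine h ⟨i, hi, ?_⟩
    simp only [Prod.ext_iff, Prod.fst_add, Prod.snd_add, Adj] at *
    omega
  rw [← Q.tg_iff hd uv.face ?_ hf, ← Q.tg_iff hd uv.symm.face ?_ hf] <;> rw [tg_half hd] <;>
    simp only [lf_fst, lf_snd, Prod.fst_add, Prod.snd_add, Adj] at * <;> omega

lemma fin_face (hd : 0 < d) : {p : V | pos (d / 3) p ∈ Q.D}.Finite :=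
  (Q.fin_pos hd three_pos).subset fun _ h => subset_closure h

/-- the two faces of an edge of the cycle are on different sides -/
lemma diff (hd : 0 < d) {u v : V} (h : Q.CE u v) :
    ¬(pos (d / 3) (lf u v) ∈ Q.D ↔ pos (d / 3) (lf v u) ∈ Q.D) := by
  set F : V → Prop := fun p => pos (d / 3) p ∈ Q.D with hF
  have step : ∀ i, i + 1 < Q.n → ((F (lf (Q.c i) (Q.c (i + 1))) ↔ F (lf (Q.c (i + 1)) (Q.c i))) ↔
      (F (lf (Q.c (i + 1)) (Q.c (i + 2))) ↔ F (lf (Q.c (i + 2)) (Q.c (i + 1))))) := by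
    intro i hi
    have ce : ∀ w, Q.CE (Q.c (i + 1)) w → w = Q.c i ∨ w = Q.c (i + 2) := by
      rintro w ⟨j, hj, ⟨h1, h2⟩ | ⟨h1, h2⟩⟩
      · rw [Q.simple j hj _ hi h1] at h2
        exact Or.inr h2.symm
      · rcases (Nat.succ_le_of_lt hj).eq_or_lt with h3 | h3
        · rw [show j + 1 = Q.n from h3, Q.closed] at h2
          exact absurd (Q.simple 0 (by omega) _ hi h2) (by omega)
        · rw [← h1, Nat.succ_injective (Q.simple _ h3 _ hi h2)]
          exact Or.inl rfl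
    refine ⟨fun h1 => par (Q.adj _ hi) fun w hw hne => ?_, fun h1 =>
      (par (Q.adj i (by omega)).symm fun w hw hne => ?_).symm⟩
    · by_cases h2 : Q.CE (Q.c (i + 1)) w
      · rcases ce w h2 with rfl | rfl
        · exact h1.symm
        · exact absurd rfl hne
      · exact Q.same hd hw h2
    · by_cases h2 : Q.CE (Q.c (i + 1)) w
      · rcases ce w h2 with rfl | rfl
        · exact absurd rfl hne
        · exact h1
      · exact Q.same hd hw h2
  have all : ∀ i < Q.n, ((F (lf (Q.c i) (Q.c (i + 1))) ↔ F (lf (Q.c (i + 1)) (Q.c i))) ↔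
      (F (lf (Q.c 0) (Q.c 1)) ↔ F (lf (Q.c 1) (Q.c 0)))) := by
    intro i
    induction i with
    | zero => exact fun _ => Iff.rfl
    | succ i ih => exact fun hi => (step i hi).symm.trans (ih (by omega))
  have ce : ∀ u v, Q.CE u v → ((F (lf u v) ↔ F (lf v u)) ↔
      (F (lf (Q.c 0) (Q.c 1)) ↔ F (lf (Q.c 1) (Q.c 0)))) := by
    rintro u v ⟨i, hi, ⟨rfl, rfl⟩ | ⟨rfl, rfl⟩⟩
    · exact all i hi
    · exact iff_comm.trans (all i hi)
  intro h0
  obtain ⟨z, hz⟩ := Q.conn.nonempty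
  obtain ⟨p, hp, hD, -⟩ := (Q.cl_iff hd).1 (subset_closure hz)
  refine no_bd (Q.fin_face hd) hp hD fun a b ab => ?_
  by_cases h2 : Q.CE a b
  · exact (ce a b h2).2 ((ce u v h).1 h0)
  · exact Q.same hd ab h2

lemma vert_fr (hd : 0 < d) {v : V} : pos d v ∈ frontier Q.D ↔ ∃ i < Q.n, Q.c i = v := by
  rw [Q.fr_iff]
  refine ⟨?_, fun ⟨i, hi, h⟩ => ⟨i, hi, h ▸ left_mem_segment _ _ _⟩⟩
  rintro ⟨i, hi, hw⟩
  have a := Q.adj i hi
  rw [← pos_two d v] at hw
  have : Q.c i = v ∨ Q.c (i + 1) = v := by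
    have := seg_half hd a hw
    simp only [Prod.ext_iff, Prod.fst_add, Prod.snd_add, Adj] at *
    omega
  rcases this with h | h
  · exact ⟨i, hi, h⟩
  · rcases (Nat.succ_le_of_lt hi).eq_or_lt with h3 | h3
    · rw [show i + 1 = Q.n from h3, Q.closed] at h
      exact ⟨0, by omega, h⟩
    · exact ⟨_, h3, h⟩

lemma vert_in (hd : 0 < d) (v : V) :
    pos d v ∈ Q.D ↔ ∀ w, Adj v w → pos (d / 3) (lf v w) ∈ Q.D := by
  refine ⟨fun h w hw => (Q.tg_iff hd hw.face (tg_vert hd hw) (Q.not_fr h)).1 h, fun h => ?_⟩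
  have a : Adj v (v.1 + 1, v.2) := by simp [Adj]
  refine (Q.tg_iff hd a.face (tg_vert hd a) fun hf => ?_).2 (h _ a)
  obtain ⟨i, hi, rfl⟩ := (Q.vert_fr hd).1 hf
  have b := Q.adj i hi
  refine Q.diff hd ⟨i, hi, Or.inl ⟨rfl, rfl⟩⟩ (iff_of_true (h _ b) ?_)
  have b5 := b.thd.1.thd.1.thd.1.thd.1.thd.1
  convert h _ b5 using 2
  ext <;> simp only [lf_fst, lf_snd, thd] <;> ring

lemma vert_cl (hd : 0 < d) (v : V) :
    pos d v ∈ closure Q.D ↔ ∃ w, Adj v w ∧ pos (d / 3) (lf v w) ∈ Q.D := by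
  rw [Q.cl_iff hd]
  constructor
  · rintro ⟨p, hp, hD, hT⟩
    obtain ⟨w, hw, rfl⟩ := vert_tg hd hp hT
    exact ⟨w, hw, hD⟩
  · rintro ⟨w, hw, hD⟩
    exact ⟨_, hw.face, hD, tg_vert hd hw⟩

/-- vertices of the closed domain: interior vertices and the cycle -/
lemma vert_cl' (hd : 0 < d) (v : V) :
    pos d v ∈ closure Q.D ↔ pos d v ∈ Q.D ∨ ∃ i < Q.n, Q.c i = v := by
  rw [← Q.vert_fr hd, closure_eq_self_union_frontier, Set.mem_union]

/-- the face set of a domain -/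
theorem face (hd : 0 < d) : ∃ F : Set V, F.Finite ∧
    (∀ u v, Adj u v → ((lf u v ∈ F ↔ lf v u ∈ F) ↔ ¬Q.CE u v)) ∧
    (∀ v, pos d v ∈ Q.D ↔ ∀ w, Adj v w → lf v w ∈ F) ∧
    ∀ v, pos d v ∈ closure Q.D ↔ ∃ w, Adj v w ∧ lf v w ∈ F :=
  ⟨_, Q.fin_face hd, fun _ _ uv => ⟨fun h h' => Q.diff hd h' h, Q.same hd uv⟩, Q.vert_in hd,
    Q.vert_cl hd⟩

end Dom

end Pool.Agent.Lib.MP_6359c9_pr
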