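import Pool.Agent.Lib.MP_6359c9_pr.UnB
import Pool.Agent.Lib.MP_6359c9_pr.WTop

/-! Uniformisation of lattice domains. -/

namespace Pool.Agent.Lib.MP_6359c9_pr

open Set Filter Topology Bornology Metric Complex Lw Un

namespace Un

/-- a periodic parametrisation of the boundary of the Jordan domain `D` -/
structure Par (D : Set ℂ) (P : ℝ → ℂ) (τ : ℝ) : Prop where
  pos : 0 < τ
  cont : Continuous P
  per : Function.Periodic P τ
  inj : ∀ s t, P s = P t → ∃ n : ℤ, s = t + n * τ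
  fr : frontier D = range P

namespace Par

variable {D : Set ℂ} {P : ℝ → ℂ} {τ α β : ℝ} (h : Par D P τ)
include h

lemma injOn (c : ℝ) : InjOn P (Ioc (c - τ) c) := fun s hs t ht e => by
  obtain ⟨n, hn⟩ := h.inj s t e
  have h1 : (n : ℝ) < 1 := lt_of_mul_lt_mul_right (by linarith [hs.2, ht.1]) h.pos.le
  have h2 : (-1 : ℝ) < n := lt_of_mul_lt_mul_right (by linarith [hs.1, ht.2]) h.pos.le
  have h3 : n = 0 := by
    have a1 : n < 1 := by exact_mod_cast h1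
    have a2 : -1 < n := by exact_mod_cast h2
    omega
  simpa [h3] using hn

theorem chart (ho : IsOpen D) (hD : IsConnected D) (hb : IsBounded D) (hα : α ∈ Ioo (β - τ) β) :
    ∃ Ψ, Chart D (P α) (P β) Ψ := by
  have t0 := h.pos.ne'
  obtain ⟨G, h1, h2, h3, h4, h5⟩ := jordan_disc (P := fun t => P (t * τ))
    (h.cont.comp (by fun_prop)) (fun t => by simpa [add_mul] using h.per (t * τ))
    (fun s t e => (h.inj _ _ e).imp fun n hn => mul_right_cancel₀ t0 (by rw [hn]; ring)) ho hD hb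
    (h.fr.trans (Subset.antisymm (by rintro _ ⟨t, rfl⟩; exact ⟨t / τ, by simp [t0]⟩)
      (by rintro _ ⟨t, rfl⟩; exact ⟨_, rfl⟩)))
  exact chart_of_disc h1 h2 h3 h4 h5 (h.fr ▸ mem_range_self _) (h.fr ▸ mem_range_self _)
    fun e => hα.2.ne (h.injOn β ⟨hα.1, hα.2.le⟩ ⟨sub_lt_self _ h.pos, le_rfl⟩ e)

/-- the boundary correspondence is monotone -/
theorem order {Ψ : ℂ → ℂ} {a : ℂ} (H : Chart D a (P β) Ψ) : ∃ x : ℝ → ℝ,
    ContinuousOn x (Ioo (β - τ) β) ∧ (∀ s ∈ Ioo (β - τ) β, Ψ (x s) = P s) ∧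
    x '' Ioo (β - τ) β = univ ∧
    (StrictMonoOn x (Ioo (β - τ) β) ∨ StrictAntiOn x (Ioo (β - τ) β)) := by
  have h1 : ∀ s ∈ Ioo (β - τ) β, ∃ y : ℝ, Ψ y = P s := fun s hs =>
    (H.bd.le (h.fr ▸ mem_range_self s)).resolve_left fun e =>
      hs.2.ne (h.injOn β ⟨hs.1, hs.2.le⟩ ⟨sub_lt_self _ h.pos, le_rfl⟩ e)
  have h2 : ∀ s ∈ Ioo (β - τ) β, Ψ (H.inv (P s)).re = P s := fun s hs => by
    obtain ⟨y, hy⟩ := h1 s hs
    rw [← hy, H.inv_map (real_UC y), ofReal_re]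
  have h3 : ContinuousOn (fun s => (H.inv (P s)).re) (Ioo (β - τ) β) :=
    continuous_re.comp_continuousOn (H.inv_cont.comp h.cont.continuousOn fun s hs =>
      (h1 s hs).elim fun y hy => ⟨y, real_UC y, hy⟩)
  refine ⟨_, h3, h2, eq_univ_of_forall fun y => ?_,
    h3.strictMonoOn_of_injOn_Ioo (sub_lt_self _ h.pos) fun s hs t ht e =>
      h.injOn β ⟨hs.1, hs.2.le⟩ ⟨ht.1, ht.2.le⟩ (by rw [← h2 s hs, ← h2 t ht]; exact congrArg _ (congrArg _ e))⟩
  obtain ⟨t, ht⟩ := h.fr.le (H.real_fr y)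
  obtain ⟨s, hs, e⟩ := h.per.exists_mem_Ioc h.pos t (β - τ)
  rw [sub_add_cancel] at hs
  refine ⟨s, ⟨hs.1, hs.2.lt_of_ne fun e' => H.ne _ (real_UC y) (by rw [← ht, e, e'])⟩, ?_⟩
  simp only [← e, ht, H.inv_map (real_UC y), ofReal_re]

end Par

lemma edge_inj {v w v' w' : V} (h : Adj v w) (h' : Adj v' w') {u u' : ℝ} (u0 : 0 ≤ u) (u1 : u < 1)
    (u0' : 0 ≤ u') (u1' : u' < 1) (e1 : (v.1 : ℝ) + u * (w.1 - v.1) = v'.1 + u' * (w'.1 - v'.1))
    (e2 : (v.2 : ℝ) + u * (w.2 - v.2) = v'.2 + u' * (w'.2 - v'.2)) :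
    (v = v' ∧ u = u' ∧ (u = 0 ∨ w = w')) ∨ (v = w' ∧ w = v' ∧ u + u' = 1) := by
  have sm : ∀ (x : ℝ) (k : ℤ), -1 < x → x < 1 → x = k → x = 0 := fun x k a b c => by
    rw [c] at a b ⊢
    have a1 : k < 1 := by exact_mod_cast b
    have a2 : -1 < k := by exact_mod_cast a
    exact_mod_cast (by omega : k = 0)
  obtain ⟨p, q⟩ := v
  obtain ⟨p', q'⟩ := v'
  obtain ⟨a, b, rfl⟩ : ∃ a b, w = (p + a, q + b) := ⟨w.1 - p, w.2 - q, by simp⟩
  obtain ⟨a', b', rfl⟩ : ∃ a b, w' = (p' + a, q' + b) := ⟨w'.1 - p', w'.2 - q', by simp⟩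
  simp only [Int.cast_add, add_sub_cancel_left, Prod.mk.injEq] at e1 e2 ⊢
  have z : u = 0 → u' = 0 → p = p' ∧ q = q' := fun h1 h2 => by
    rw [h1, h2, zero_mul, zero_mul, add_zero, add_zero] at e1 e2
    exact ⟨by exact_mod_cast e1, by exact_mod_cast e2⟩
  have hd : ∃ s t : ℤ, s * a + t * b = 1 := by
    simp only [Adj] at h
    rcases (by omega : a = 1 ∨ a = -1 ∨ b = 1 ∨ b = -1) with c | c | c | c
    exacts [⟨1, 0, by omega⟩, ⟨-1, 0, by omega⟩, ⟨0, 1, by omega⟩, ⟨0, -1, by omega⟩]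
  obtain ⟨s, t, hst⟩ := hd
  have hst' : (s : ℝ) * a + t * b = 1 := by exact_mod_cast hst
  have hk : (∃ k : ℤ, k * (a * b' - b * a') = 1) ∨ (a' = a ∧ b' = b) ∨ (a' = -a ∧ b' = -b) := by
    simp only [Adj, add_right_inj, sub_eq_add_neg, add_eq_left] at h h'
    rcases h with h | h | h | h | h | h <;> rcases h' with h' | h' | h' | h' | h' | h' <;>
      rw [h.1, h.2, h'.1, h'.2] <;>
      first | exact Or.inl ⟨1, rfl⟩ | exact Or.inl ⟨-1, rfl⟩ | simp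
  rcases hk with ⟨k, hk⟩ | ⟨rfl, rfl⟩ | ⟨rfl, rfl⟩
  · have hk' : (k : ℝ) * (a * b' - b * a') = 1 := by exact_mod_cast hk
    have h1 := sm u (k * ((p' - p) * b' - (q' - q) * a')) (by linarith) u1 (by
      push_cast; linear_combination (k * b') * e1 - (k * a') * e2 - u * hk')
    have h2 := sm u' (k * ((p' - p) * b - (q' - q) * a)) (by linarith) u1' (by
      push_cast; linear_combination (k * b) * e1 - (k * a) * e2 - u' * hk')
    exact Or.inl ⟨z h1 h2, h1.trans h2.symm, Or.inl h1⟩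
  · have h1 := sm (u - u') (s * (p' - p) + t * (q' - q)) (by linarith) (by linarith) (by
      push_cast; linear_combination s * e1 + t * e2 - (u - u') * hst')
    obtain rfl : u = u' := by linarith
    have a1 : p = p' := by exact_mod_cast add_right_cancel e1
    have a2 : q = q' := by exact_mod_cast add_right_cancel e2
    exact Or.inl ⟨⟨a1, a2⟩, rfl, Or.inr ⟨by rw [a1], by rw [a2]⟩⟩
  · push_cast at e1 e2
    by_cases c : u + u' = 0
    · exact Or.inl ⟨z (by linarith) (by linarith), by linarith, Or.inl (by linarith)⟩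
    have h1 := sm (u + u' - 1) (s * (p' - p) + t * (q' - q) - 1)
      (by linarith [(add_nonneg u0 u0').lt_of_ne' c]) (by linarith) (by
      push_cast; linear_combination s * e1 + t * e2 - (u + u') * hst')
    have a1 : p + a = p' := by
      exact_mod_cast (by linear_combination e1 - a * h1 : (p : ℝ) + a = p')
    have a2 : q + b = q' := by
      exact_mod_cast (by linear_combination e2 - b * h1 : (q : ℝ) + b = q')
    exact Or.inr ⟨⟨by omega, by omega⟩, ⟨a1, a2⟩, by linarith⟩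

/-- the polygon through `f 0, …, f n` -/
noncomputable def poly (f : ℕ → ℂ) (n : ℕ) (s : ℝ) : ℂ :=
  f 0 + ∑ i ∈ Finset.range n, max 0 (min 1 (s - i)) • (f (i + 1) - f i)

lemma poly_cont (f : ℕ → ℂ) (n : ℕ) : Continuous (poly f n) := by unfold poly; fun_prop

lemma poly_eq (f : ℕ → ℂ) {n k : ℕ} (hk : k < n) {u : ℝ} (u0 : 0 ≤ u) (u1 : u ≤ 1) :
    poly f n (k + u) = (1 - u) • f k + u • f (k + 1) := by
  rw [poly, ← Finset.sum_subset (Finset.range_mono (Nat.succ_le_of_lt hk)) fun i _ hi => ?_,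
    Finset.sum_range_succ, Finset.sum_congr rfl (g := fun i => f (i + 1) - f i) fun i hi => ?_,
    Finset.sum_range_sub, add_sub_cancel_left, min_eq_right u1, max_eq_right u0]
  · module
  · have : (i : ℝ) + 1 ≤ k := by exact_mod_cast Finset.mem_range.1 hi
    rw [min_eq_left (by linarith), max_eq_right zero_le_one, one_smul]
  · have : (k : ℝ) + 1 ≤ i := by exact_mod_cast not_lt.1 (mt Finset.mem_range.2 hi)
    rw [max_eq_left ((min_le_right _ _).trans (by linarith)), zero_smul]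

end Un

namespace Dom

variable {d : ℝ} (Q : Dom d)

/-- the boundary polygon, with period `n` -/
noncomputable def bp (s : ℝ) : ℂ := poly (fun i => pos d (Q.c i)) Q.n (Int.fract (s / Q.n) * Q.n)

lemma n_pos : (0 : ℝ) < Q.n := by have := Q.three; positivity

lemma poly_zero : poly (fun i => pos d (Q.c i)) Q.n 0 = pos d (Q.c 0) := by
  simpa using poly_eq (fun i => pos d (Q.c i)) (k := 0) (Q.m_pos.trans Q.m_lt) le_rfl zero_le_one

lemma poly_n : poly (fun i => pos d (Q.c i)) Q.n Q.n = pos d (Q.c 0) := by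
  obtain ⟨k, hk⟩ : ∃ k, Q.n = k + 1 := ⟨Q.n - 1, by have := Q.three; omega⟩
  have := poly_eq (fun i => pos d (Q.c i)) (n := Q.n) (k := k) (by omega) zero_le_one le_rfl
  rw [← Nat.cast_add_one, ← hk, Q.closed] at this
  simpa using this

lemma bp_eq {k : ℕ} (hk : k < Q.n) {u : ℝ} (u0 : 0 ≤ u) (u1 : u ≤ 1) :
    Q.bp (k + u) = (1 - u) • pos d (Q.c k) + u • pos d (Q.c (k + 1)) := by
  rw [← poly_eq (fun i => pos d (Q.c i)) hk u0 u1, bp]
  have h1 : (k : ℝ) + 1 ≤ Q.n := by exact_mod_cast hk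
  rcases (show (k : ℝ) + u ≤ Q.n by linarith).lt_or_eq with h | h
  · rw [Int.fract_eq_self.2 ⟨div_nonneg (by positivity) Q.n_pos.le, (div_lt_one Q.n_pos).2 h⟩,
      div_mul_cancel₀ _ Q.n_pos.ne']
  · rw [h, div_self Q.n_pos.ne', Int.fract_one, zero_mul, poly_zero, poly_n]

lemma bp_nat {k : ℕ} (hk : k < Q.n) : Q.bp k = pos d (Q.c k) := by
  simpa using Q.bp_eq hk le_rfl zero_le_one

lemma bp_per : Function.Periodic Q.bp Q.n := fun s => by
  rw [bp, add_div, div_self Q.n_pos.ne', Int.fract_add_one, bp]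

lemma bp_rep (s : ℝ) : ∃ (k : ℕ) (u : ℝ) (j : ℤ), k < Q.n ∧ 0 ≤ u ∧ u < 1 ∧ s = k + u + j * Q.n := by
  have h0 : 0 ≤ Int.fract (s / Q.n) * Q.n := mul_nonneg (Int.fract_nonneg _) Q.n_pos.le
  refine ⟨⌊Int.fract (s / Q.n) * Q.n⌋₊, _ - _, ⌊s / Q.n⌋, (Nat.floor_lt h0).2
    (mul_lt_of_lt_one_left Q.n_pos (Int.fract_lt_one _)), sub_nonneg.2 (Nat.floor_le h0),
    by linarith [Nat.lt_floor_add_one (Int.fract (s / Q.n) * Q.n)], ?_⟩
  rw [add_sub_cancel, ← add_mul, Int.fract_add_floor, div_mul_cancel₀ _ Q.n_pos.ne']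

theorem par (hd : 0 < d) : Par Q.D Q.bp Q.n := by
  refine ⟨Q.n_pos, ?_, Q.bp_per, fun s t e => ?_, ?_⟩
  · exact (ContinuousOn.comp_fract'' (f := fun x : ℝ => poly (fun i => pos d (Q.c i)) Q.n (x * Q.n))
      ((poly_cont _ _).comp (by fun_prop)).continuousOn
      (by simp only [zero_mul, one_mul, poly_zero, poly_n])).comp (continuous_id.div_const _)
  · obtain ⟨k, u, j, hk, u0, u1, rfl⟩ := Q.bp_rep s
    obtain ⟨k', u', j', hk', u0', u1', rfl⟩ := Q.bp_rep t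
    rw [Q.bp_per.int_mul, Q.bp_per.int_mul, Q.bp_eq hk u0 u1.le, Q.bp_eq hk' u0' u1'.le] at e
    have e1 := congrArg (cx d) e
    have e2 := congrArg (cy d) e
    simp only [cx_comb, cy_comb, cx_pos' hd, cy_pos' hd] at e1 e2
    rcases edge_inj (Q.adj k hk) (Q.adj k' hk') u0 u1 u0' u1' (by linarith) (by linarith) with
      ⟨h1, rfl, -⟩ | ⟨h1, h2, -⟩
    · rw [Q.simple k hk k' hk' h1]
      exact ⟨j - j', by push_cast; ring⟩
    · have inj : ∀ i j, i < Q.n → j < Q.n → Q.c (i + 1) = Q.c j →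
          i + 1 = j ∨ (i + 1 = Q.n ∧ j = 0) := fun i j hi hj e => by
        rcases (Nat.succ_le_of_lt hi).lt_or_eq with h | h
        · exact Or.inl (Q.simple _ h _ hj e)
        · rw [show i + 1 = Q.n from h, Q.closed] at e
          exact Or.inr ⟨h, (Q.simple 0 (by omega) j hj e).symm⟩
      have := inj k k' hk hk' h2
      have := inj k' k hk' hk h1.symm
      have := Q.three
      omega
  · rw [Q.bdry]
    refine Subset.antisymm (iUnion₂_subset fun i hi => ?_) ?_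
    · rintro _ ⟨s, t, hs, ht, hst, rfl⟩
      exact ⟨i + t, by rw [Q.bp_eq hi ht (by linarith), ← hst, add_sub_cancel_right]⟩
    · rintro _ ⟨s, rfl⟩
      obtain ⟨k, u, j, hk, u0, u1, rfl⟩ := Q.bp_rep s
      rw [Q.bp_per.int_mul, Q.bp_eq hk u0 u1.le]
      exact mem_iUnion₂.2 ⟨k, hk, _, _, by linarith, u0, by ring, rfl⟩

/-- the end point where the plus arc starts -/
noncomputable def ea : ℂ := (pos d (Q.c (Q.n - 1)) + pos d (Q.c 0)) / 2

/-- the end point where the plus arc ends -/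
noncomputable def eb : ℂ := (pos d (Q.c (Q.m - 1)) + pos d (Q.c Q.m)) / 2

lemma bp_half {k : ℕ} (h0 : 0 < k) (hk : k ≤ Q.n) :
    Q.bp (k - 1 / 2) = (pos d (Q.c (k - 1)) + pos d (Q.c k)) / 2 := by
  obtain ⟨j, rfl⟩ : ∃ j, k = j + 1 := ⟨k - 1, by omega⟩
  rw [show ((j + 1 : ℕ) : ℝ) - 1 / 2 = j + 1 / 2 by push_cast; ring,
    Q.bp_eq hk (by norm_num) (by norm_num), Nat.add_sub_cancel]
  simp only [real_smul]
  push_cast
  ring

lemma bp_eb : Q.bp (Q.m - 1 / 2) = Q.eb := Q.bp_half Q.m_pos Q.m_lt.le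

lemma bp_ea : Q.bp (-1 / 2) = Q.ea := by
  rw [← Q.bp_per, show (-1 / 2 : ℝ) + Q.n = Q.n - 1 / 2 by ring,
    Q.bp_half (Q.m_pos.trans Q.m_lt) le_rfl, Q.closed, ea]

lemma half_mem : (-1 / 2 : ℝ) ∈ Ioo ((Q.m : ℝ) - 1 / 2 - Q.n) (Q.m - 1 / 2) := by
  have h1 : (0 : ℝ) < Q.m := by exact_mod_cast Q.m_pos
  have h2 : (Q.m : ℝ) < Q.n := by exact_mod_cast Q.m_lt
  exact ⟨by linarith, by linarith⟩

theorem exists_chart (hd : 0 < d) : ∃ Ψ, Chart Q.D Q.ea Q.eb Ψ := by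
  rw [← bp_ea, ← bp_eb]
  exact (Q.par hd).chart Q.isOpen Q.conn Q.bdd Q.half_mem

theorem exists_phi (hd : 0 < d) : ∃ φ, Phi Q.D Q.ea Q.eb φ :=
  (Q.exists_chart hd).elim fun _ h => ⟨_, h.phi⟩

theorem exists_phi' (hd : 0 < d) : ∃ φ, Phi Q.D Q.eb Q.ea φ :=
  (Q.exists_chart hd).elim fun _ h => ⟨_, h.rev.phi⟩

theorem chart_of_phi (hd : 0 < d) {φ : ℂ → ℂ} (h : Phi Q.D Q.ea Q.eb φ) :
    ∃ Ψ, Chart Q.D Q.ea Q.eb Ψ ∧ (∀ w ∈ Q.D, Ψ (φ w) = w) ∧ ∀ z ∈ UH, φ (Ψ z) = z :=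
  (Q.exists_chart hd).elim fun _ H => H.of_phi h

theorem chart_of_phi' (hd : 0 < d) {φ : ℂ → ℂ} (h : Phi Q.D Q.eb Q.ea φ) :
    ∃ Ψ, Chart Q.D Q.eb Q.ea Ψ ∧ (∀ w ∈ Q.D, Ψ (φ w) = w) ∧ ∀ z ∈ UH, φ (Ψ z) = z :=
  (Q.exists_chart hd).elim fun _ H => H.rev.of_phi h

/-- the boundary correspondence: the parameter interval `(m - 1/2 - n, m - 1/2)` goes
monotonically onto the real line and `-1/2` goes to zero; the plus arc is `(-1/2, m - 1/2)` -/
theorem order (hd : 0 < d) {Ψ : ℂ → ℂ} (H : Chart Q.D Q.ea Q.eb Ψ) : ∃ x : ℝ → ℝ,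
    ContinuousOn x (Ioo (Q.m - 1 / 2 - Q.n) (Q.m - 1 / 2)) ∧
    (∀ s ∈ Ioo ((Q.m : ℝ) - 1 / 2 - Q.n) (Q.m - 1 / 2), Ψ (x s) = Q.bp s) ∧
    x '' Ioo (Q.m - 1 / 2 - Q.n) (Q.m - 1 / 2) = univ ∧ x (-1 / 2) = 0 ∧
    (StrictMonoOn x (Ioo (Q.m - 1 / 2 - Q.n) (Q.m - 1 / 2)) ∨
      StrictAntiOn x (Ioo (Q.m - 1 / 2 - Q.n) (Q.m - 1 / 2))) := by
  obtain ⟨x, h1, h2, h3, h4⟩ := (Q.par hd).order (β := Q.m - 1 / 2) (Q.bp_eb ▸ H)
  refine ⟨x, h1, h2, h3, ?_, h4⟩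
  simpa using H.inj (real_UC _) zero_UC ((h2 _ Q.half_mem).trans (Q.bp_ea.trans H.zero.symm))

end Dom

end Pool.Agent.Lib.MP_6359c9_pr
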