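import Pool.Agent.Lib.MP_6359c9_pr.UnC
import Pool.Agent.Lib.MP_6359c9_pr.SlStmt
import Pool.Agent.Lib.MP_6359c9_pr.LwG

/-! Charts from the statement, transversality at the end point, capacity parametrisation. -/

namespace Pool.Agent.Lib.MP_6359c9_pr

open Set Filter Topology Bornology Metric Complex ComplexConjugate Lw Un
open scoped NNReal ENNReal

namespace Un

/-- a function that is real on the real line maps tangential sequences to tangential sequences -/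
lemma tang {F : ℂ → ℂ} (hF : AnalyticAt ℂ F 0) (hr : ∀ᶠ x : ℝ in 𝓝 0, (F x).im = 0) {ι : Type}
    {l : Filter ι} [l.NeBot] {w : ι → ℂ} (hw : Tendsto w l (𝓝[≠] 0))
    (ht : Tendsto (fun i => (w i).im / ‖w i‖) l (𝓝 0)) {ω : ℂ} (hω : ω.im ≠ 0)
    (hs : ∀ᶠ i in l, ∃ s : ℝ, s ≠ 0 ∧ F (w i) = s * ω) : False := by
  have ω0 : ω ≠ 0 := fun e => hω (by simp [e])
  have hw0 := hw.mono_right nhdsWithin_le_nhds
  have hn : ∀ᶠ i in l, w i ≠ 0 := hw self_mem_nhdsWithin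
  obtain ⟨n, G, hG, G0, e⟩ := hF.exists_eventuallyEq_pow_smul_nonzero_iff.2 fun h => by
    obtain ⟨i, h1, s, h2, h3⟩ := ((hw0.eventually h).and hs).exists
    exact mul_ne_zero (ofReal_ne_zero.2 h2) ω0 (h3 ▸ h1)
  simp only [sub_zero, smul_eq_mul] at e
  have tr : Tendsto (fun x : ℝ => (x : ℂ)) (𝓝 0) (𝓝 0) := by simpa using continuous_ofReal.tendsto 0
  have Gr : (G 0).im = 0 := by
    refine tendsto_nhds_unique_of_eventuallyEq (l := 𝓝[≠] (0 : ℝ)) (((continuous_im.tendsto _).comp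
      (hG.continuousAt.tendsto.comp tr)).mono_left nhdsWithin_le_nhds) tendsto_const_nhds ?_
    filter_upwards [nhdsWithin_le_nhds hr, nhdsWithin_le_nhds (tr.eventually e),
      self_mem_nhdsWithin] with x h1 h2 h3
    rw [h2, ← ofReal_pow, im_ofReal_mul] at h1
    exact (mul_eq_zero.1 h1).resolve_left (pow_ne_zero n h3)
  have t1 : Tendsto (fun i => w i / conj (w i)) l (𝓝 1) := by
    rw [tendsto_iff_norm_sub_tendsto_zero]
    have := ht.abs.const_mul 2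
    rw [abs_zero, mul_zero] at this
    refine this.congr' (hn.mono fun i hi => ?_)
    have c0 : conj (w i) ≠ 0 := by simpa using hi
    simp only
    rw [div_sub_one c0, sub_conj, norm_div, norm_conj, abs_div, abs_norm]
    simp [mul_div_assoc]
  have t2 := hG.continuousAt.tendsto.comp hw0
  have t3 := (t1.pow n).mul (t2.div ((continuous_conj.tendsto _).comp t2) (by simpa using G0))
  rw [conj_eq_iff_im.2 Gr, div_self G0, one_pow, one_mul] at t3
  have := tendsto_nhds_unique_of_eventuallyEq t3 (tendsto_const_nhds (x := ω / conj ω)) (by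
    filter_upwards [hw0.eventually e, hs] with i h1 ⟨s, h2, h3⟩
    have := congrArg (fun z => z / conj z) (h1.symm.trans h3)
    simp only [map_mul, map_pow, conj_ofReal, mul_div_mul_left _ _ (ofReal_ne_zero.2 h2)] at this
    rw [← this, div_pow, ← div_mul_div_comm]
    rfl)
  exact hω (conj_eq_iff_im.1 ((div_eq_one_iff_eq (by simpa using ω0)).1 this.symm).symm)

end Un

namespace Chart

variable {D : Set ℂ} {a b : ℂ} {Ψ : ℂ → ℂ} (h : Chart D a b Ψ)
include h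

theorem unif : Unif D a b Ψ :=
  ⟨h.hol, h.bij, h.zero ▸ ((h.cont 0 zero_UC).mono UH_sub).tendsto,
    h.inf.mono_left (inf_le_inf_left _ (principal_mono.2 UH_sub))⟩

theorem of_unif {ψ : ℂ → ℂ} (hψ : Unif D a b ψ) : ∃ Ψ', Chart D a b Ψ' ∧ EqOn Ψ' ψ UH := by
  have hm : ∀ l : Filter ℂ, Tendsto ψ (l ⊓ 𝓟 UH) (𝓟 D) := fun l =>
    tendsto_principal.2 (eventually_inf_principal.2 (Eventually.of_forall hψ.bij.mapsTo))
  obtain ⟨c, hc, e⟩ := aut (m := h.inv ∘ ψ) (h.phi.hol.comp hψ.hol hψ.bij.mapsTo)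
    (h.phi.bij.comp hψ.bij) (h.phi.zero.comp (tendsto_inf.2 ⟨hψ.zero, hm _⟩))
    (h.phi.inf.comp (tendsto_inf.2 ⟨hψ.inf, hm _⟩))
  exact ⟨_, h.scale hc, fun z hz => by
    simp only [← e z hz]; exact h.map_inv (h.sub_img (hψ.bij.mapsTo hz))⟩

lemma inv_UH {w : ℂ} (hw : w ∈ D) : h.inv w ∈ UH := h.phi.bij.mapsTo hw

/-- a segment that ends transversally on a straight piece of the boundary -/
theorem transv {e ω : ℂ} {ε s0 : ℝ} (hε : 0 < ε) (hs0 : 0 < s0)
    (hl : ∀ z ∈ frontier D, ‖z - b‖ < ε → ((z - b) / e).im = 0) (hω : (ω / e).im ≠ 0)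
    (hm : ∀ s ∈ Ioo 0 s0, b + s * ω ∈ D) (M : ℝ) :
    ∃ s ∈ Ioo 0 s0, M ≤ (h.inv (b + s * ω)).im := by
  classical
  by_contra hc
  push Not at hc
  have R := h.rev
  set Ψ' := fun z => if z = 0 then b else Ψ (-z⁻¹) with hΨ'
  obtain ⟨ρ, hρ, H⟩ := Metric.continuousWithinAt_iff.1 (R.cont 0 zero_UC) ε hε
  have hre : ∀ z ∈ ball (0 : ℂ) ρ, z.im = 0 → ((Ψ' z - b) / e).im = 0 := fun z hz h0 => by
    obtain ⟨x, rfl⟩ : ∃ x : ℝ, z = x := ⟨z.re, Complex.ext rfl (by simp [h0])⟩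
    have := H (real_UC x) hz
    rw [R.zero, dist_eq_norm] at this
    exact hl _ (R.real_fr x) this
  have hd := reflect (V := ball 0 ρ) (ψ := fun z => (Ψ' z - b) / e) isOpen_ball
    (fun z hz => by simpa using hz) (((R.cont.mono inter_subset_right).sub
      continuousOn_const).div_const e) (((R.hol.mono inter_subset_right).sub_const b).div_const e)
    hre
  have ev : ∀ᶠ s in 𝓝[>] (0 : ℝ), s ∈ Ioo 0 s0 := Ioo_mem_nhdsGT hs0
  have t1 : Tendsto (fun s : ℝ => h.inv (b + s * ω)) (𝓝[>] 0) (cobounded ℂ) := by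
    refine h.phi.inf.comp (tendsto_nhdsWithin_iff.2 ⟨?_, ev.mono hm⟩)
    have : Continuous fun s : ℝ => b + s * ω := by fun_prop
    simpa using (this.tendsto 0).mono_left nhdsWithin_le_nhds
  have n0 := t1.eventually (eventually_ne_cobounded 0)
  refine tang (hd.analyticAt (ball_mem_nhds 0 hρ)) ?_ (l := 𝓝[>] (0 : ℝ))
    (w := fun s : ℝ => -(h.inv (b + s * ω))⁻¹) (tendsto_nhdsWithin_iff.2 ⟨?_,
      n0.mono fun s hs => by simpa using hs⟩) ?_ hω ?_
  · filter_upwards [ball_mem_nhds (0 : ℝ) hρ] with x hx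
    rw [refl_up (by simp)]
    exact hre _ (by simpa using hx) (by simp)
  · simpa using (tendsto_inv₀_cobounded.comp t1).neg
  · have t2 := (tendsto_inv_atTop_zero.comp
      ((tendsto_norm_cobounded_atTop (E := ℂ)).comp t1)).const_mul M
    rw [mul_zero] at t2
    refine squeeze_zero' (ev.mono fun s hs => div_nonneg ?_ (norm_nonneg _)) ?_ t2
    · simpa [neg_div] using div_nonneg (UH_sub (h.inv_UH (hm s hs))) (normSq_nonneg _)
    · filter_upwards [ev, n0] with s hs h0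
      have h1 := norm_pos_iff.2 h0
      simp only [neg_im, inv_im, neg_div, neg_neg, norm_neg, norm_inv, Function.comp,
        normSq_eq_norm_sq]
      rw [div_inv_eq_mul, sq, div_mul_eq_mul_div, mul_div_mul_right _ _ h1.ne', div_eq_mul_inv]
      exact mul_le_mul_of_nonneg_right (hc s hs).le (by positivity)
  · filter_upwards [ev, n0] with s hs h0
    refine ⟨s, hs.1.ne', ?_⟩
    rw [refl_up (by
      simpa [neg_div] using div_nonneg (UH_sub (h.inv_UH (hm s hs))) (normSq_nonneg _))]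
    simp only [hΨ', neg_eq_zero, inv_eq_zero, h0, if_false, inv_neg, inv_inv, neg_neg]
    rw [h.map_inv (h.sub_img (hm s hs)), add_sub_cancel_left, mul_div_assoc]

end Chart

namespace Dom

variable {d : ℝ} (Q : Dom d)

lemma a_eq : Q.a = Q.ea := by
  rw [a, ea, Q.closed, midpoint_eq_smul_add]; simp [div_eq_inv_mul, mul_add]

lemma b_eq : Q.b = Q.eb := by
  rw [b, eb, midpoint_eq_smul_add]; simp [div_eq_inv_mul, mul_add]

theorem exists_chart' (hd : 0 < d) : ∃ Ψ, Chart Q.D Q.a Q.b Ψ := by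
  rw [a_eq, b_eq]; exact Q.exists_chart hd

theorem exists_unif (hd : 0 < d) : ∃ ψ, Unif Q.D Q.a Q.b ψ :=
  (Q.exists_chart' hd).imp fun _ h => h.unif

theorem chart_of_unif (hd : 0 < d) {ψ : ℂ → ℂ} (h : Unif Q.D Q.a Q.b ψ) :
    ∃ Ψ, Chart Q.D Q.a Q.b Ψ ∧ EqOn Ψ ψ UH := (Q.exists_chart' hd).elim fun _ H => H.of_unif h

theorem transv (hd : 0 < d) {Ψ : ℂ → ℂ} (H : Chart Q.D Q.a Q.b Ψ) {ω : ℂ} {s0 : ℝ} (hs0 : 0 < s0)
    (hm : ∀ s ∈ Ioo 0 s0, Q.b + s * ω ∈ Q.D) (M : ℝ) :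
    ∃ s ∈ Ioo 0 s0, M ≤ (H.inv (Q.b + s * ω)).im := by
  obtain ⟨k, hk⟩ : ∃ k, Q.m = k + 1 := ⟨Q.m - 1, by have := Q.m_pos; omega⟩
  have hkn : k < Q.n := by have := Q.m_lt; omega
  have P := Q.par hd
  have n3 : (3 : ℝ) ≤ Q.n := by exact_mod_cast Q.three
  set e := pos d (Q.c (k + 1)) - pos d (Q.c k) with he
  have hb : Q.b = Q.bp (k + 1 / 2) := by
    rw [b_eq, ← bp_eb, hk]; congr 1; push_cast; ring
  have e1 : ∀ u : ℝ, 0 ≤ u → u ≤ 1 → Q.bp (k + u) = Q.b + (u - 1 / 2 : ℝ) * e := fun u h0 h1 => by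
    rw [hb, Q.bp_eq hkn h0 h1, Q.bp_eq hkn (by norm_num) (by norm_num), he]
    simp only [real_smul]
    push_cast
    ring
  have hi := P.injOn (k + Q.n)
  rw [add_sub_cancel_right] at hi
  have hK : IsClosed (Q.bp '' Icc (k + 1) (k + Q.n)) := (isCompact_Icc.image P.cont).isClosed
  obtain ⟨ε, hε, hb'⟩ := Metric.isOpen_iff.1 hK.isOpen_compl Q.b (by
    rintro ⟨s, hs, e⟩
    have := hi ⟨by linarith [hs.1], hs.2⟩ ⟨by linarith, by linarith⟩ (e.trans hb)
    linarith [hs.1])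
  have e0 : e ≠ 0 := fun c => by
    have := hi (x₁ := k + 1) ⟨by linarith, by linarith⟩ (x₂ := k + 1 / 2)
      ⟨by linarith, by linarith⟩ (by rw [e1 1 zero_le_one le_rfl, c, mul_zero, add_zero, hb])
    linarith
  refine H.transv (e := e) hε hs0 (fun z hz h1 => ?_) (fun c => ?_) hm M
  · obtain ⟨t, rfl⟩ := P.fr.le hz
    obtain ⟨s, hs, e2⟩ := P.per.exists_mem_Ioc P.pos t k
    rw [e2] at h1 ⊢
    rcases le_total s (k + 1) with c | c
    · rw [show s = k + (s - k) by ring, e1 _ (by linarith [hs.1]) (by linarith), add_sub_cancel_left,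
        mul_div_cancel_right₀ _ e0, ofReal_im]
    · exact absurd ⟨s, ⟨c, hs.2⟩, rfl⟩ (hb' (mem_ball_iff_norm.2 h1))
  · obtain ⟨x, hx⟩ : ∃ x : ℝ, ω = x * e :=
      ⟨(ω / e).re, by rw [← div_eq_iff e0]; exact Complex.ext rfl (by simp only [c, ofReal_im])⟩
    have t1 : ∀ᶠ s in 𝓝[>] (0 : ℝ), |s * x| < 1 / 2 := by
      have : Continuous fun s : ℝ => |s * x| := by fun_prop
      exact nhdsWithin_le_nhds (this.continuousAt.eventually_lt continuousAt_const (by simp))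
    obtain ⟨s, h1, h2⟩ := (t1.and (Ioo_mem_nhdsGT hs0)).exists
    rw [abs_lt] at h1
    refine Q.not_fr (hm s h2) (P.fr.ge ⟨k + (s * x + 1 / 2), ?_⟩)
    rw [e1 _ (by linarith) (by linarith), hx]
    push_cast
    ring

end Dom

/-- `p` is the preimage under the chart of the arc `Γ : [0, K] → closure D`, parametrised by
capacity; the parameter `s` of `Γ` is the time `σ s` of `p` -/
structure Trk (Ψ : ℂ → ℂ) (Γ : ℝ → ℂ) (K : ℝ) (p : ℝ≥0 → ℂ) (σ : ℝ → ℝ≥0) : Prop where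
  pos : 0 < K
  smp : Smp p
  cap : Cap p
  zero : p 0 = 0
  inf : Tendsto p atTop (cobounded ℂ)
  s0 : σ 0 = 0
  mono : StrictMonoOn σ (Ico 0 K)
  surj : ∀ t, ∃ s ∈ Ico 0 K, σ s = t
  eq : ∀ s ∈ Ico 0 K, Ψ (p (σ s)) = Γ s

theorem Chart.exists_trk {D : Set ℂ} {a b : ℂ} {Ψ : ℂ → ℂ} (h : Chart D a b Ψ) {Γ : ℝ → ℂ} {K : ℝ}
    (hK : 0 < K) (hc : ContinuousOn Γ (Icc 0 K)) (hi : InjOn Γ (Icc 0 K)) (h0 : Γ 0 = a)
    (h1 : Γ K = b) (hm : ∀ s ∈ Ioo 0 K, Γ s ∈ D)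
    (ht : ∀ M, ∃ s ∈ Ioo 0 K, M ≤ (h.inv (Γ s)).im) : ∃ p σ, Trk Ψ Γ K p σ := by
  let κ : ℝ≥0 → ℝ := fun u => K - K / (1 + u)
  let μ : ℝ → ℝ≥0 := fun s => (K / (K - s) - 1).toNNReal
  have κc : Continuous κ := continuous_const.sub (continuous_const.div (by fun_prop)
    fun u => by positivity)
  have κm : StrictMono κ := fun u v huv => by
    have : (u : ℝ) < v := huv
    simp only [κ]
    gcongr
  have κ0 : κ 0 = 0 := by simp [κ]
  have κI : ∀ u, κ u ∈ Ico 0 K := fun u =>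
    ⟨κ0 ▸ κm.monotone zero_le, sub_lt_self _ (by positivity)⟩
  have κμ : ∀ s ∈ Ico 0 K, κ (μ s) = s := fun s hs => by
    have h2 := sub_pos.2 hs.2
    have : 0 ≤ K / (K - s) - 1 := by rw [sub_nonneg, one_le_div h2]; linarith [hs.1]
    simp only [κ, μ, Real.coe_toNNReal _ this, add_sub_cancel]
    rw [div_div_cancel₀ hK.ne', sub_sub_cancel]
  have κt : Tendsto κ atTop (𝓝 K) := by
    have := (tendsto_const_nhds (x := K)).sub ((tendsto_const_nhds (x := K)).div_atTop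
      (tendsto_atTop_add_const_left _ 1 (NNReal.tendsto_coe_atTop.2 tendsto_id)))
    rwa [sub_zero] at this
  have hU : ∀ s ∈ Ico 0 K, Γ s ∈ Ψ '' UC := fun s hs => hs.1.eq_or_lt.elim
    (fun e => ⟨0, zero_UC, by rw [← e, h0, h.zero]⟩) fun e => h.sub_img (hm s ⟨e, hs.2⟩)
  have z0 : h.inv (Γ (κ 0)) = 0 := by rw [κ0, h0.trans h.zero.symm]; exact h.inv_map zero_UC
  have S : Smp fun u => h.inv (Γ (κ u)) := by
    refine ⟨h.inv_cont.comp_continuous (hc.comp_continuous κc fun u => Ico_subset_Icc_self (κI u))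
      fun u => hU _ (κI u), fun u v e => κm.injective (hi (Ico_subset_Icc_self (κI u))
        (Ico_subset_Icc_self (κI v)) ?_), by simp [z0], fun t ht =>
      h.inv_UH (hm _ ⟨κ0 ▸ κm ht, (κI t).2⟩)⟩
    rw [← h.map_inv (hU _ (κI u)), ← h.map_inv (hU _ (κI v))]
    exact congrArg Ψ e
  obtain ⟨τ, hτ⟩ := S.exists_cap (S.cap_unbdd fun M => (ht M).elim fun s hs =>
    ⟨μ s, by rw [κμ s (Ioo_subset_Ico_self hs.1)]; exact hs.2⟩)
  have τ0 : τ 0 = 0 := τ.map_bot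
  refine ⟨_, fun s => τ.symm (μ s), hK, S.time τ.continuous τ.strictMono τ0, hτ, by simp [τ0, z0],
    (h.inv_inf.comp (tendsto_nhdsWithin_iff.2 ⟨?_, Eventually.of_forall fun u =>
      hU _ (κI u)⟩)).comp τ.tendsto_atTop, ?_, fun s hs t ht hst => τ.symm.strictMono
      (κm.lt_iff_lt.1 (by rwa [κμ s hs, κμ t ht])), fun t => ⟨κ (τ t), κI _, ?_⟩, fun s hs => ?_⟩
  · rw [← h1]
    exact (hc K ⟨hK.le, le_rfl⟩).tendsto.comp (tendsto_nhdsWithin_iff.2 ⟨κt,
      Eventually.of_forall fun u => Ico_subset_Icc_self (κI u)⟩)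
  · rw [τ.symm_apply_eq, τ0]
    exact κm.injective (by rw [κμ 0 ⟨le_rfl, hK⟩, κ0])
  · simp only [κm.injective (κμ _ (κI (τ t))), τ.symm_apply_apply]
  · simp only [Function.comp, τ.apply_symm_apply, κμ s hs]
    exact h.map_inv (hU s hs)

end Pool.Agent.Lib.MP_6359c9_pr
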