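import Pool.Agent.Lib.MP_6359c9_pr.UsA
import Pool.Agent.Lib.MP_6359c9_pr.SlStmt

/-! Chains of faces and connected sets of the plane. -/

namespace Pool.Agent.Lib.MP_6359c9_pr.Xp

open Set WD Filter Topology

variable {d : ℝ} {L : V → Prop} {F : Set V} {c c' p p' u v x : V} {z z' w : ℂ}

lemma convex_tg (d : ℝ) (p : V) : Convex ℝ (Tg d p) := by
  have k : ∀ {i : ℤ} {x y a b : ℝ}, InI i x → InI i y → 0 ≤ a → 0 ≤ b → a + b = 1 →
      InI i (a * x + b * y) := fun {i x y a b} hx hy ha hb e => by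
    obtain rfl : b = 1 - a := by linarith
    constructor <;> nlinarith [hx.1, hx.2, hy.1, hy.2]
  intro z hz w hw a b ha hb e
  refine ⟨?_, ?_, ?_⟩
  · rw [cx_comb]; exact k hz.1 hw.1 ha hb e
  · rw [cy_comb]; exact k hz.2.1 hw.2.1 ha hb e
  · rw [cx_comb, cy_comb, show a * cx d z + b * cx d w + (a * cy d z + b * cy d w) =
      a * (cx d z + cy d z) + b * (cx d w + cy d w) by ring]
    exact k hz.2.2 hw.2.2 ha hb e

lemma in_third (q : ℤ) : ((q / 3 : ℤ) : ℝ) ≤ q / 3 ∧ (q : ℝ) / 3 < (q / 3 : ℤ) + 1 ∧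
    (q % 3 ≠ 0 → ((q / 3 : ℤ) : ℝ) < q / 3) := by
  have h1 : (3 * (q / 3 : ℤ) : ℝ) ≤ q := by exact_mod_cast (by omega : 3 * (q / 3) ≤ q)
  have h2 : (q : ℝ) < 3 * (q / 3 : ℤ) + 3 := by exact_mod_cast (by omega : q < 3 * (q / 3) + 3)
  refine ⟨by linarith, by linarith, fun h => ?_⟩
  have h3 : (3 * (q / 3 : ℤ) : ℝ) < q := by exact_mod_cast (by omega : 3 * (q / 3) < q)
  linarith

lemma ctr_tg (hd : 0 < d) (c : V) : pos (d / 3) c ∈ Tg d c := by
  refine ⟨?_, ?_, ?_⟩ <;> simp only [cx_pos hd, cy_pos hd]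
  · exact ⟨(in_third _).1, (in_third _).2.1.le⟩
  · exact ⟨(in_third _).1, (in_third _).2.1.le⟩
  · rw [← add_div, ← Int.cast_add]
    exact ⟨(in_third _).1, (in_third _).2.1.le⟩

/-- the segment from the centre to a point of the triangle only meets this triangle -/
lemma star (hd : 0 < d) (hc : Face c) (hz : z ∈ Tg d c) (hw : w ∈ segment ℝ (pos (d / 3) c) z) :
    w = z ∨ ∀ p, Face p → w ∈ Tg d p → p = c := by
  obtain ⟨s, t, hs, ht, e, rfl⟩ := hw
  rcases hs.eq_or_lt with rfl | hs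
  · obtain rfl : t = 1 := by linarith
    exact Or.inl (by simp)
  refine Or.inr fun p hp h => ?_
  have k : ∀ (q i : ℤ) (x : ℝ), q % 3 ≠ 0 → InI (q / 3) x → InI i (s * (q / 3) + t * x) →
      i = q / 3 := fun q i x h0 hx hi => by
    obtain ⟨-, a2, a3⟩ := in_third q
    have a4 := a3 h0
    obtain rfl : t = 1 - s := by linarith
    have b1 : (i : ℝ) < (q / 3 : ℤ) + 1 := by nlinarith [hi.1, hx.2]
    have b2 : ((q / 3 : ℤ) : ℝ) < i + 1 := by nlinarith [hi.2, hx.1]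
    have c1 : i < q / 3 + 1 := by exact_mod_cast b1
    have c2 : q / 3 < i + 1 := by exact_mod_cast b2
    omega
  obtain ⟨h1, h2, h3⟩ := h
  rw [cx_comb, cx_pos hd] at h1 h3
  rw [cy_comb, cy_pos hd] at h2 h3
  have e1 := k _ _ _ (by unfold Face at hc; omega) hz.1 h1
  have e2 := k _ _ _ (by unfold Face at hc; omega) hz.2.1 h2
  have e3 := k (c.1 + c.2) ((p.1 + p.2) / 3) _ (by unfold Face at hc; omega) hz.2.2 (by
    rwa [show s * (((c.1 + c.2 : ℤ) : ℝ) / 3) + t * (cx d z + cy d z) =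
      s * (c.1 / 3) + t * cx d z + (s * (c.2 / 3) + t * cy d z) by push_cast; ring])
  simp only [Face, Prod.ext_iff] at *
  omega

lemma mid_tg (hd : 0 < d) (e : Adj u v) : pos (d / 2) (u + v) ∈ Tg d (lf u v) :=
  (convex_tg d _).segment_subset (tg_vert hd e) (lf_thd u v ▸ tg_vert hd e.thd.2) (pos_mid d u v)

lemma ar_tg (hd : 0 < d) (h : Ar x p) : pos d x ∈ Tg d p := by
  obtain ⟨w, e, rfl⟩ := h
  exact tg_vert hd e

lemma mid_faces (hd : 0 < d) (e : Adj u v) (hp : Face p) (h : pos (d / 2) (u + v) ∈ Tg d p) :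
    p = lf u v ∨ p = lf v u := by
  rw [tg_half hd] at h
  obtain ⟨u1, u2⟩ := u
  obtain ⟨v1, v2⟩ := v
  simp only [lf_fst, lf_snd, Prod.fst_add, Prod.snd_add, Adj, Face, Prod.ext_iff] at *
  rcases e with ⟨rfl, rfl⟩ | ⟨rfl, rfl⟩ | ⟨rfl, rfl⟩ | ⟨rfl, rfl⟩ | ⟨rfl, rfl⟩ | ⟨rfl, rfl⟩ <;>
    omega

/-- two triangles with a common point have a common vertex -/
lemma tg_common (hd : 0 < d) (hp : Face p) (hp' : Face p') (h : z ∈ Tg d p) (h' : z ∈ Tg d p') :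
    ∃ x, Ar x p ∧ Ar x p' := by
  have k1 : ∀ {i j : ℤ} {x : ℝ}, InI i x → InI j x → i ≤ j + 1 := fun a b => by
    exact_mod_cast a.1.trans b.2
  have k2 : ∀ {i j k : ℤ} {x y : ℝ}, InI i x → InI j y → InI k (x + y) →
      i + j ≤ k + 1 ∧ k ≤ i + j + 2 := fun {i j k x y} a b c =>
    ⟨by exact_mod_cast (by linarith [a.1, b.1, c.2] : (i : ℝ) + j ≤ k + 1),
      by exact_mod_cast (by linarith [a.2, b.2, c.1] : (k : ℝ) ≤ i + j + 2)⟩
  obtain ⟨a1, a2, a3⟩ := h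
  obtain ⟨b1, b2, b3⟩ := h'
  have := k1 a1 b1; have := k1 b1 a1; have := k1 a2 b2; have := k1 b2 a2
  have := k1 a3 b3; have := k1 b3 a3
  have := k2 a1 a2 a3; have := k2 a1 a2 b3; have := k2 a1 b2 a3; have := k2 a1 b2 b3
  have := k2 b1 a2 a3; have := k2 b1 a2 b3; have := k2 b1 b2 a3; have := k2 b1 b2 b3
  obtain ⟨v1, e1⟩ : ∃ v1, v1 = max (max (p.1 / 3) (p'.1 / 3))
    (max ((p.1 + p.2) / 3) ((p'.1 + p'.2) / 3) - min (p.2 / 3) (p'.2 / 3) - 1) := ⟨_, rfl⟩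
  obtain ⟨v2, e2⟩ : ∃ v2, v2 = max (max (p.2 / 3) (p'.2 / 3))
    (max ((p.1 + p.2) / 3) ((p'.1 + p'.2) / 3) - v1) := ⟨_, rfl⟩
  generalize hA : p.1 / 3 = A at *
  generalize hB : p.2 / 3 = B at *
  generalize hC : (p.1 + p.2) / 3 = C at *
  generalize hA' : p'.1 / 3 = A' at *
  generalize hB' : p'.2 / 3 = B' at *
  generalize hC' : (p'.1 + p'.2) / 3 = C' at *
  refine ⟨(v1, v2), vert_tg hd hp ?_, vert_tg hd hp' ?_⟩ <;>
    rw [← pos_two, tg_half hd] <;>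
    simp only [Prod.fst_add, Prod.snd_add, hA, hB, hC, hA', hB', hC'] <;> omega

lemma tg_diam (hd : 0 < d) (h : z ∈ Tg d p) (h' : w ∈ Tg d p) : ‖z - w‖ ≤ 3 * d := by
  have h3 : (0 : ℝ) < √3 := by positivity
  have h4 : √3 ≤ (2 : ℝ) := Real.sqrt_le_iff.2 ⟨by norm_num, by norm_num⟩
  have e1 : ∀ z : ℂ, z.im = cy d z * (d * (√3 / 2)) := fun z => by simp only [cy]; field_simp
  have e2 : ∀ z : ℂ, z.re = (cx d z + cy d z / 2) * d := fun z => by
    simp only [cx]; field_simp; ring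
  have a1 : |cx d z - cx d w| ≤ 1 := abs_le.2 ⟨by linarith [h.1.1, h'.1.2], by
    linarith [h.1.2, h'.1.1]⟩
  have a2 : |cy d z - cy d w| ≤ 1 := abs_le.2 ⟨by linarith [h.2.1.1, h'.2.1.2], by
    linarith [h.2.1.2, h'.2.1.1]⟩
  rw [abs_le] at a1 a2
  refine (Complex.norm_le_abs_re_add_abs_im _).trans ?_
  have b1 : |(z - w).re| ≤ 2 * d := by
    rw [Complex.sub_re, e2 z, e2 w, abs_le]; constructor <;> nlinarith
  have b2 : |(z - w).im| ≤ d := by
    have : d * (√3 / 2) ≤ d := by nlinarith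
    have : 0 ≤ d * (√3 / 2) := by positivity
    rw [Complex.sub_im, e1 z, e1 w, abs_le]; constructor <;> nlinarith
  linarith

/-- the points all of whose faces are in `L` -/
def In (d : ℝ) (L : V → Prop) : Set ℂ := {z | ∀ p, Face p → z ∈ Tg d p → L p}

/-- a chain of faces contains a connected set -/
lemma FC.conn (hd : 0 < d) (hL : ∀ p, L p → Face p) (h : FC L F c c') (hz : z ∈ Tg d c)
    (hz' : z' ∈ Tg d c') : ∃ C, IsPreconnected C ∧ z ∈ C ∧ z' ∈ C ∧ ∀ w ∈ C,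
      (w = z ∨ w = z' ∨ w ∈ In d L) ∧ ∃ p, FC L F c p ∧ w ∈ Tg d p := by
  have sg : ∀ p y, FC L F c p → y ∈ Tg d p → ∀ w ∈ segment ℝ (pos (d / 3) p) y,
      (w = y ∨ w ∈ In d L) ∧ ∃ p, FC L F c p ∧ w ∈ Tg d p := fun p y hp hy w hw =>
    ⟨(star hd (hL _ hp.right.1) hy hw).imp_right fun k q hq hw => by
        rw [k q hq hw]; exact hp.right.1,
      p, hp, (convex_tg d p).segment_subset (ctr_tg hd p) hy hw⟩
  have key : ∃ C, IsPreconnected C ∧ z ∈ C ∧ pos (d / 3) c' ∈ C ∧ ∀ w ∈ C,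
      (w = z ∨ w ∈ In d L) ∧ ∃ p, FC L F c p ∧ w ∈ Tg d p := by
    refine h.ind (P := fun c' => ∃ C, IsPreconnected C ∧ z ∈ C ∧ pos (d / 3) c' ∈ C ∧ ∀ w ∈ C,
      (w = z ∨ w ∈ In d L) ∧ ∃ p, FC L F c p ∧ w ∈ Tg d p)
      ⟨_, (convex_segment _ _).isPreconnected, right_mem_segment _ _ _, left_mem_segment _ _ _,
        sg c z (.refl h.1.1 h.1.2) hz⟩ ?_
    rintro x y hx e l1 l2 ⟨C, c1, c2, c3, c4⟩
    have hy := hx.tail e l1 l2
    obtain ⟨u, v, e, rfl, rfl⟩ := e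
    have m1 := mid_tg hd e
    have m2 := mid_tg hd e.symm
    rw [add_comm v u] at m2
    have m3 : pos (d / 2) (u + v) ∈ In d L := fun p hp h =>
      (mid_faces hd e hp h).elim (fun k => k ▸ hx.right.1) fun k => k ▸ l1
    refine ⟨C ∪ segment ℝ (pos (d / 3) (lf u v)) (pos (d / 2) (u + v)) ∪
      segment ℝ (pos (d / 3) (lf v u)) (pos (d / 2) (u + v)),
      (c1.union _ c3 (left_mem_segment _ _ _) (convex_segment _ _).isPreconnected).union _
        (Or.inr (right_mem_segment _ _ _)) (right_mem_segment _ _ _)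
        (convex_segment _ _).isPreconnected, Or.inl (Or.inl c2), Or.inr (left_mem_segment _ _ _),
      ?_⟩
    rintro w ((hw | hw) | hw)
    · exact c4 w hw
    · exact (sg _ _ hx m1 w hw).imp_left fun k => Or.inr (k.elim (fun k => k ▸ m3) id)
    · exact (sg _ _ hy m2 w hw).imp_left fun k => Or.inr (k.elim (fun k => k ▸ m3) id)
  obtain ⟨C, c1, c2, c3, c4⟩ := key
  refine ⟨C ∪ segment ℝ (pos (d / 3) c') z', c1.union _ c3 (left_mem_segment _ _ _)
    (convex_segment _ _).isPreconnected, Or.inl c2, Or.inr (right_mem_segment _ _ _), ?_⟩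
  rintro w (hw | hw)
  · exact (c4 w hw).imp_left fun k => k.imp_right Or.inr
  · exact (sg _ _ h hz' w hw).imp_left Or.inr

/-- the faces that meet a connected set form a chain -/
lemma fc_of_conn (hd : 0 < d) {R : Set V} {n : ℕ} {γ : ℕ → V} (D : FaceD R n γ L) {P : Set ℂ}
    (hP : IsPreconnected P) (hL : P ⊆ In d L)
    (hF : ∀ z ∈ P, ∀ p, Face p → z ∈ Tg d p → ∀ x, Ar x p → x ∉ Vx F) (hz : z ∈ P) (hz' : z' ∈ P)
    (hp : Face p) (hp' : Face p') (h : z ∈ Tg d p) (h' : z' ∈ Tg d p') : FC L F p p' := by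
  have loc : ∀ y ∈ P, ∀ q q', Face q → Face q' → y ∈ Tg d q → y ∈ Tg d q' → FC L F q q' :=
    fun y hy q q' a a' b b' => by
      obtain ⟨x, x1, x2⟩ := tg_common hd a a' b b'
      exact fc_fan D (hF y hy q a b x x1) x1 x2 (hL hy q a b) (hL hy q' a' b')
  have op : ∀ Y : V → Prop, IsOpen {y | ∀ q, Face q → y ∈ Tg d q → Y q} := fun Y =>
    isOpen_iff_mem_nhds.2 fun y hy => (tg_near d y).mono fun w hw q a b => hy q a (hw q b)
  have := hP.subset_or_subset (op fun q => FC L F p q) (op fun q => ¬FC L F p q)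
    (disjoint_left.2 fun y a b => by
      obtain ⟨q, q1, q2⟩ := tg_cover d y
      exact b q q1 q2 (a q q1 q2)) fun y hy => by
      by_cases k : ∃ q, Face q ∧ y ∈ Tg d q ∧ FC L F p q
      · obtain ⟨q, q1, q2, q3⟩ := k
        exact Or.inl fun q' a b => q3.trans (loc y hy q q' q1 a q2 b)
      · exact Or.inr fun q a b t => k ⟨q, a, b, t⟩
  rcases this with k | k
  · exact k hz' p' hp' h'
  · exact absurd (loc z hz p p hp hp h h) (k hz p hp h)

namespace St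

variable {s : ℤ} {S : St s} {Q : Dom d}

lemma Of.In_eq (O : S.Of Q) (hd : 0 < d) : In d S.L = Q.D := by
  ext z
  refine ⟨fun h => ?_, fun h p hp hz => (O.L p).2 ⟨hp, (Q.tg_iff hd hp hz (Q.not_fr h)).1 h⟩⟩
  have nf : z ∉ frontier Q.D := fun hf => by
    obtain ⟨i, hi, hz⟩ := Q.fr_iff.1 hf
    have e := Q.adj i hi
    refine Q.diff hd (u := Q.c i) (v := Q.c (i + 1)) ⟨i, hi, Or.inl ⟨rfl, rfl⟩⟩ (iff_of_true
      ((O.L _).1 (h _ e.face ?_)).2 ((O.L _).1 (h _ e.symm.face ?_)).2)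
    · exact (convex_tg d _).segment_subset (ar_tg hd (ar_l e)) (ar_tg hd (ar_r e)) hz
    · exact (convex_tg d _).segment_subset (ar_tg hd (ar_r e.symm)) (ar_tg hd (ar_l e.symm)) hz
  obtain ⟨p, p1, p2⟩ := tg_cover d z
  exact (Q.tg_iff hd p1 p2 nf).2 ((O.L p).1 (h p p1 p2)).2

lemma Of.b_eq (O : S.Of Q) : Q.b = pos (d / 2) (S.c S.m + S.c (S.m - 1)) := by
  have m1 := Q.m_pos
  have m2 := Q.m_lt
  have k : ∀ u v : V, midpoint ℝ (pos d u) (pos d v) = pos (d / 2) (u + v) := fun u v => by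
    rw [midpoint_eq_smul_add]
    apply Complex.ext <;>
      simp only [pos, Prod.fst_add, Prod.snd_add, Complex.add_re, Complex.add_im, Complex.smul_re,
        Complex.smul_im, smul_eq_mul, invOf_eq_inv] <;> push_cast <;> ring
  rw [Dom.b, k]
  rcases O.c with ⟨-, e, h⟩ | ⟨-, e, h⟩
  · rw [e, h _ m2, h _ (by omega), add_comm]
  · rw [e, h _ (by omega), h _ (by omega), show Q.n - 1 - (Q.n - Q.m) = Q.m - 1 by omega,
      show Q.n - 1 - (Q.n - Q.m - 1) = Q.m by omega]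

end St

end Pool.Agent.Lib.MP_6359c9_pr.Xp
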