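import Pool.Agent.Lib.MP_6359c9_pr.UsB
import Pool.Agent.Lib.MP_6359c9_pr.SlFj

/-! Large oscillations and late returns of the curve force a visit of a sealed region. -/

namespace Pool.Agent.Lib.MP_6359c9_pr.Xp

open Set WD Filter Topology Bornology Complex
open scoped NNReal

lemma cay_den' {z : ℂ} (hz : z ∈ UC) : 1 ≤ ‖z + I‖ ∧ ‖z‖ ≤ ‖z + I‖ ∧ ‖z + I‖ ≤ ‖z‖ + 1 := by
  have h : 0 ≤ z.im := hz
  have e : ‖z + I‖ ^ 2 = ‖z‖ ^ 2 + 2 * z.im + 1 := by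
    simp only [Complex.sq_norm, normSq_apply, add_re, add_im, I_re, I_im]; ring
  refine ⟨?_, ?_, by simpa using norm_add_le z I⟩ <;>
    refine le_of_sq_le_sq (by nlinarith [sq_nonneg ‖z‖]) (norm_nonneg _)

lemma cay_sub {z w : ℂ} (hz : z ∈ UC) (hw : w ∈ UC) :
    ‖Un.cay I z - Un.cay I w‖ * (‖z + I‖ * ‖w + I‖) = 2 * ‖z - w‖ := by
  have h1 : z + I ≠ 0 := norm_pos_iff.1 (by linarith [(cay_den' hz).1])
  have h2 : w + I ≠ 0 := norm_pos_iff.1 (by linarith [(cay_den' hw).1])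
  rw [← norm_mul, ← norm_mul, show (Un.cay I z - Un.cay I w) * ((z + I) * (w + I)) =
    2 * I * (z - w) by simp only [Un.cay, conj_I, sub_neg_eq_add]; field_simp; ring]
  simp

lemma cay_one {z : ℂ} (hz : z ∈ UC) : ‖Un.cay I z - 1‖ * ‖z + I‖ = 2 := by
  have h1 : z + I ≠ 0 := norm_pos_iff.1 (by linarith [(cay_den' hz).1])
  rw [← norm_mul, show (Un.cay I z - 1) * (z + I) = -(2 * I) by
    simp only [Un.cay, conj_I, sub_neg_eq_add]; field_simp; ring]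
  simp

/-- faces with a common vertex are close in the chart -/
def Osc (d : ℝ) (L : V → Prop) (Ψ : ℂ → ℂ) (M ω : ℝ) : Prop :=
  ∀ x c c', L c → L c' → Ar x c → Ar x c' → ∀ z ∈ UH, ∀ z' ∈ UH, Ψ z ∈ Tg d c → Ψ z' ∈ Tg d c' →
    ‖z'‖ ≤ M → ‖z - z'‖ ≤ ω

/-- a sealed vertex is visited -/
def St.Vis {s : ℤ} (S : St s) (g : V → ℤ) (Φ : V → ℂ) (η ρ : ℝ) : Prop :=
  ∃ a, (a = 0 ∨ a = 1) ∧ ∃ (k j : ℕ) (y : ℂ) (v : V) (B : Set V), k ≤ j ∧ j + 1 < S.K g ∧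
    v ∈ (S.sat g (j + 1)).arc a ∧ v ∈ (S.sat g j).R ∧ ρ ≤ ‖Φ v - y‖ ∧ (∀ x ∈ B, ‖Φ x - y‖ ≤ η) ∧
    ¬Fj.Att ((S.sat g k).arc a) ((S.sat g k).R \ B) {v}

variable {d : ℝ} {s : ℤ} {S : St s} {Q : Dom d} {Ψ : ℂ → ℂ} {g : V → ℤ} {p : ℝ≥0 → ℂ}
  {t : ℕ → ℝ≥0} {F : Set V} {M ω : ℝ}

lemma St.Adm.sat_mem (hg : S.Adm g) {j m : ℕ} (h : j ≤ m) (hm : m < S.K g) :
    (S.sat g j).L (S.ah g m) := by
  induction h using Nat.decreasingInduction with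
  | self => exact (hg.after hm).now
  | of_succ j h ih => exact (hg.form (by omega)).2.1 _ ih

lemma chart_inv {D : Set ℂ} {a b : ℂ} (h : Chart D a b Ψ) {w : ℂ} (hw : w ∈ D) :
    h.inv w ∈ UH ∧ Ψ (h.inv w) = w := ⟨h.phi.bij.mapsTo hw, h.map_inv (h.sub_img hw)⟩

/-- from a face that does not see one of the arcs to the event -/
lemma St.Adm.vis (hg : S.Adm g) {Φ : V → ℂ} {η ρ : ℝ} {y : ℂ} {k m : ℕ} {X : Set V} (hk : k ≤ m)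
    (hm : m < S.K g) (vX : ∀ v, Ar v (S.ah g m) → v ∉ X)
    (h1 : ∀ v ∈ S.R, Ar v (S.ah g m) → ρ ≤ ‖Φ v - y‖) (h2 : ∀ x ∈ S.R, x ∈ cl X → ‖Φ x - y‖ ≤ η)
    (h : ¬(S.sat g k).See X (S.ah g m) s ∨ ¬(S.sat g k).See X (S.ah g m) (1 - s)) :
    S.Vis g Φ η ρ := by
  have key : ∀ a v, (a = 0 ∨ a = 1) → Ar v (S.ah g m) → g v = a → v ∉ (S.sat g m).R →
      ¬(S.sat g k).See X (S.ah g m) a → S.Vis g Φ η ρ := fun a v ha hv gv vm h => by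
    obtain ⟨j, j1, j2, j3, j4, j5⟩ := St.bad_of (A := S.sat g) hk
      (fun j hj => ⟨(hg.after (by omega)).adm, hg.sat_mem hj hm⟩) hv gv (vX v hv) vm h
    refine ⟨a, ha, k, j, y, v, S.R ∩ cl X, j1, by omega, j3, j4,
      h1 v ((hg.after (by omega)).sub_R j4) hv, fun x hx => h2 x hx.1 hx.2, ?_⟩
    rintro ⟨z, hz, u, e, w, hw, c⟩
    exact j5 ⟨z, hz, u, e, w, hw, c.mono fun q hq =>
      ⟨hq.1, fun k => hq.2 ⟨(hg.after (by omega)).sub_R hq.1, k⟩⟩⟩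
  have c := (hg.after hm).cur
  have hs := S.hs
  rcases h with h | h
  · exact key _ _ hs (ar_l (hg.adj m)) (hg.lv m).2.1 (by rw [c]; exact (S.sat g m).D.out _) h
  · exact key _ _ (by omega) (ar_r (hg.adj m)) (hg.lv m).2.2
      (by rw [c]; exact (S.sat g m).D.out _) h

/-- the data of one curve -/
structure Cv (Q : Dom d) (S : St s) (Ψ : ℂ → ℂ) (g : V → ℤ) (p : ℝ≥0 → ℂ) (t : ℕ → ℝ≥0) :
    Prop where
  hd : 0 < d
  of : S.Of Q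
  ch : Chart Q.D Q.a Q.b Ψ
  adm : S.Adm g
  smp : Smp p
  mono : ∀ i j, i ≤ j → j < S.K g → t i ≤ t j
  tip : ∀ k < S.K g, Ψ (p (t k)) = mid d (S.e g k)
  step : ∀ u, ∃ k < S.K g, t k ≤ u ∧ (k + 1 < S.K g → u < t (k + 1)) ∧ Ψ (p u) ∈ Tg d (S.ah g k)

lemma mid_ah (hd : 0 < d) (hg : S.Adm g) (k : ℕ) :
    mid d (S.e g k) ∈ Tg d (S.ah g k) ∧ mid d (S.e g (k + 1)) ∈ Tg d (S.ah g k) :=
  ⟨mid_tg hd (hg.adj k), by
    have := mid_tg hd (hg.adj (k + 1)).symm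
    rwa [S.back g k, add_comm (S.e g (k + 1)).2] at this⟩

lemma Sett.cv (A : Sett) (n : ℕ) {g : V → ℤ} (hg : g ∈ A.S n) :
    Cv (A.Q n) (A.X n) (A.Ψ n) g (A.p n g) (A.t n g) := by
  classical
  have T := A.tim n
  have ad := (A.of n).mem hg
  refine ⟨A.dpos n, A.of n, A.chart n, ad, (A.trc n g hg).smp, fun i j h hj => ?_, T.tip g hg,
    fun u => ?_⟩
  · induction h with
    | refl => exact le_rfl
    | step _ ih => exact (ih (by omega)).trans (T.mono g hg _ hj).le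
  · have ex : ∃ k, k + 1 < (A.X n).K g → u < A.t n g (k + 1) :=
      ⟨(A.X n).K g, fun h => by omega⟩
    have h1 := Nat.find_spec ex
    have h2 : Nat.find ex < (A.X n).K g ∧ A.t n g (Nat.find ex) ≤ u := by
      rcases e : Nat.find ex with _ | k
      · exact ⟨T.pos g hg, by rw [T.zero g hg]; exact zero_le⟩
      · simpa using Nat.find_min ex (show k < Nat.find ex by omega)
    have sg := (convex_tg _ _).segment_subset (mid_ah (A.dpos n) ad (Nat.find ex)).1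
      (mid_ah (A.dpos n) ad (Nat.find ex)).2
    refine ⟨_, h2.1, h2.2, h1, sg ?_⟩
    by_cases h : Nat.find ex + 1 < (A.X n).K g
    · rw [← T.arc g hg _ h]
      exact ⟨u, ⟨h2.2, (h1 h).le⟩, rfl⟩
    · exact ((T.last g hg (Nat.find ex) (by omega)).subset ⟨u, h2.2, rfl⟩).1

namespace Cv

variable (H : Cv Q S Ψ g p t)
include H

lemma mem {z : ℂ} (hz : z ∈ UH) : Ψ z ∈ In d S.L := H.of.In_eq H.hd ▸ H.ch.bij.mapsTo hz

lemma vert {v : V} (hv : v ∈ S.R) : H.ch.inv (pos d v) ∈ UH ∧ Ψ (H.ch.inv (pos d v)) = pos d v :=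
  chart_inv H.ch (by rwa [H.of.R] at hv)

lemma ctr {c : V} (hc : S.L c) : ∃ z ∈ UH, Ψ z ∈ Tg d c := by
  have := chart_inv H.ch ((H.of.L c).1 hc).2
  exact ⟨_, this.1, by rw [this.2]; exact ctr_tg H.hd c⟩

/-- far points lie in the last face -/
lemma far : ∃ M : ℝ, ∀ z ∈ UH, M ≤ ‖z‖ → ∀ c, Face c → Ψ z ∈ Tg d c → c = S.fb := by
  have := H.ch.inf.eventually (tg_near d Q.b)
  rw [eventually_inf_principal, ← comap_norm_atTop, eventually_comap, eventually_atTop] at this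
  obtain ⟨M, hM⟩ := this
  refine ⟨M, fun z hz h c hc k => ?_⟩
  have b := hM _ h z rfl (Un.UH_sub hz) c k
  rw [H.of.b_eq] at b
  refine (mid_faces H.hd S.adj_b hc b).resolve_right fun e => H.adm.out_K ?_
  rw [St.ah, H.adm.e_K, ← e]
  exact H.mem hz c hc k

/-- a chain of faces along a ray -/
lemma ray {z0 v : ℂ} (hz : z0 ∈ UH) (hv : 0 ≤ v.im) (h0 : v ≠ 0)
    (hF : ∀ τ : ℝ, 0 ≤ τ → ∀ c, S.L c → Ψ (z0 + τ * v) ∈ Tg d c → ∀ x, Ar x c → x ∉ Vx F)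
    {c : V} (hc : Face c) (h : Ψ z0 ∈ Tg d c) : FC S.L F c S.fb := by
  obtain ⟨M, hM⟩ := H.far
  have up : ∀ τ : ℝ, 0 ≤ τ → z0 + τ * v ∈ UH := fun τ hτ => by
    have : 0 < z0.im := hz
    show 0 < (z0 + τ * v).im
    simp only [add_im, mul_im, ofReal_re, ofReal_im, zero_mul, add_zero]
    positivity
  have v0 : 0 < ‖v‖ := norm_pos_iff.2 h0
  obtain ⟨τ, t0, t1⟩ : ∃ τ : ℝ, 0 ≤ τ ∧ M ≤ ‖z0 + τ * v‖ := by
    refine ⟨(|M| + ‖z0‖) / ‖v‖, by positivity, ?_⟩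
    have := norm_sub_le (z0 + ((|M| + ‖z0‖) / ‖v‖ : ℝ) * v) z0
    rw [add_sub_cancel_left, norm_mul, Complex.norm_real, Real.norm_of_nonneg (by positivity),
      div_mul_cancel₀ _ v0.ne'] at this
    linarith [le_abs_self M]
  obtain ⟨q, q1, q2⟩ := tg_cover d (Ψ (z0 + τ * v))
  obtain rfl := hM _ (up τ t0) t1 q q1 q2
  refine fc_of_conn H.hd S.D (P := (fun τ : ℝ => Ψ (z0 + τ * v)) '' Ici 0)
    (isPreconnected_Ici.image _ (H.ch.cont.comp (f := fun τ : ℝ => z0 + τ * v) (by fun_prop)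
      fun τ hτ => Un.UH_sub (up τ hτ))) ?_ ?_ ⟨0, self_mem_Ici, by simp⟩ ⟨τ, t0, rfl⟩ hc q1 h q2
  · rintro _ ⟨τ, hτ, rfl⟩
    exact H.mem (up τ hτ)
  · rintro _ ⟨τ, hτ, rfl⟩ c a b
    exact hF τ hτ c (H.mem (up τ hτ) c a b) b

/-- a vertex next to a vertex of a face -/
lemma next (ho : Osc d S.L Ψ M ω) {x y c : V} (hx : x ∈ S.R) (e : x = y ∨ Adj y x) (hc : S.L c)
    (hy : Ar y c) {z : ℂ} (hz : z ∈ UH) (h : Ψ z ∈ Tg d c)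
    (hM : ‖z‖ ≤ M ∨ ‖H.ch.inv (pos d x)‖ ≤ M) : ‖H.ch.inv (pos d x) - z‖ ≤ ω := by
  obtain ⟨c1, a1, a2, a3⟩ : ∃ c1, S.L c1 ∧ Ar y c1 ∧ Ar x c1 := by
    rcases e with rfl | e
    · exact ⟨c, hc, hy, hy⟩
    · exact ⟨_, S.D.inn x hx _ (ar_r e), ar_l e, ar_r e⟩
  have k := H.vert hx
  have k2 : Ψ (H.ch.inv (pos d x)) ∈ Tg d c1 := by rw [k.2]; exact ar_tg H.hd a3
  rcases hM with hM | hM
  · exact ho y c1 c a1 hc a2 hy _ k.1 z hz k2 h hM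
  · rw [norm_sub_rev]
    exact ho y c c1 hc a1 hy a2 z hz _ k.1 h k2 hM

end Cv

/-- faces with a common vertex are eventually close -/
def OscSt : Prop := ∀ (A : Sett) (M ω : ℝ), 0 < ω → ∀ᶠ n in atTop,
  Osc (A.δ n) (A.X n).L (A.Ψ n) M ω

/-- late returns -/
def TraDet : Prop := ∀ (d : ℝ) (s : ℤ) (S : St s) (Q : Dom d) (Ψ : ℂ → ℂ) (g : V → ℤ)
  (p : ℝ≥0 → ℂ) (t : ℕ → ℝ≥0) (H : Cv Q S Ψ g p t), Cap p → p 0 = 0 → ∀ R r : ℝ,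
    Osc d S.L Ψ (r + 1) 1 → 0 < R → R + 2 ≤ r → ∀ u : ℝ≥0, (r + 3) ^ 2 ≤ u → ‖p u‖ < R →
      S.Vis g (fun v => Un.cay I (H.ch.inv (pos d v))) (2 / (r - 1)) (2 / (R + 2))

/-- large oscillations behind a short crosscut -/
def ModDet : Prop := ∀ (d : ℝ) (s : ℤ) (S : St s) (Q : Dom d) (Ψ : ℂ → ℂ) (g : V → ℤ)
  (p : ℝ≥0 → ℂ) (t : ℕ → ℝ≥0) (H : Cv Q S Ψ g p t) (u v : ℝ≥0) (σ : Set ℂ) (M η ω ε : ℝ),
    Osc d S.L Ψ M ω → 0 < u → u ≤ v → ε < ‖p u - p v‖ → (∀ w ≤ v, ‖p w‖ ≤ M) → σ ⊆ Sl p u →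
    σ ⊆ Metric.ball 0 M → (∀ z ∈ σ, ∀ w ∈ σ, ‖z - w‖ ≤ η) →
    (∀ C, IsPreconnected C → C ⊆ Sl p u → (∃ w ∈ Ioc u v, p w ∈ C) → (∃ z ∈ C, M ≤ ‖z‖) →
      (C ∩ σ).Nonempty) → 0 < ω → ω ≤ 1 → 8 * ω ≤ ε → 8 * η ≤ ε →
    S.Vis g (fun v => Un.cay I (H.ch.inv (pos d v))) (2 * (ω + η)) (ε / 2 / (M + 2) ^ 2)

end Pool.Agent.Lib.MP_6359c9_pr.Xp
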