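import Pool.Agent.Lib.MP_6359c9_pr.Stmt

/-! Faces of the lattice, dual exactness. -/

namespace Pool.Agent.Lib.MP_6359c9_pr

/-- the third vertex of the face on the left of `u → v` -/
def thd (u v : V) : V := (u.1 - (v.2 - u.2), u.2 + (v.1 - u.1) + (v.2 - u.2))

/-- three times the centre of the face on the left of `u → v` -/
def lf (u v : V) : V := u + v + thd u v

lemma lf_fst (u v : V) : (lf u v).1 = 2 * u.1 + v.1 - v.2 + u.2 := by
  simp only [lf, thd, Prod.fst_add]; ring

lemma lf_snd (u v : V) : (lf u v).2 = u.2 + 2 * v.2 + v.1 - u.1 := by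
  simp only [lf, thd, Prod.snd_add]; ring

lemma Adj.thd {u v : V} (h : Adj u v) : Adj u (thd u v) ∧ Adj v (thd u v) := by
  simp only [Adj, MP_6359c9_pr.thd] at *; omega

lemma lf_thd (u v : V) : lf v (thd u v) = lf u v := by
  ext
  · simp only [lf_fst, thd]; ring
  · simp only [lf_snd, thd]; ring

lemma lf_thd' (u v : V) : lf (thd u v) u = lf u v := by
  ext
  · simp only [lf_fst, thd]; ring
  · simp only [lf_snd, thd]; ring

/-- dual exactness: a closed chain of edges bounds a function of the faces -/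
theorem bnd (om : V → V → ZMod 2) (hs : ∀ u v, om u v = om v u)
    (hd : ∀ v : V, om v (v.1 + 1, v.2) + om v (v.1, v.2 + 1) + om v (v.1 - 1, v.2 + 1) +
      om v (v.1 - 1, v.2) + om v (v.1, v.2 - 1) + om v (v.1 + 1, v.2 - 1) = 0) :
    ∃ G : V → ZMod 2, ∀ u v, Adj u v → G (lf u v) + G (lf v u) = om u v := by
  set e1 : ℤ → ℤ → ZMod 2 := fun a b => om (a + 1, b) (a, b + 1) with he1
  set e2 : ℤ → ℤ → ZMod 2 := fun a b => om (a + 1, b) (a + 1, b + 1) with he2
  set e3 : ℤ → ℤ → ZMod 2 := fun a b => om (a, b + 1) (a + 1, b + 1) with he3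
  obtain ⟨C, -, hC⟩ := int_prim (fun b => e1 0 b + e3 0 b) 0
  choose U hU0 hU using fun b : ℤ => int_prim (fun a => e1 a b + e2 a b) (C b)
  have two : ∀ x : ZMod 2, x + x = 0 := by decide
  have hv : ∀ b a, U (b + 1) a = U b a + (e1 a b + e3 a b) := by
    intro b
    have step : ∀ a : ℤ, U (b + 1) (a + 1) - (U b (a + 1) + (e1 (a + 1) b + e3 (a + 1) b)) =
        U (b + 1) a - (U b a + (e1 a b + e3 a b)) := by
      intro a
      have h := hd (a + 1, b + 1)
      simp only [add_sub_cancel_right] at h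
      rw [hs _ (a, b + 1), hs _ (a + 1, b), hs _ (a + 1 + 1, b)] at h
      rw [hU, hU]
      simp only [he1, he2, he3]
      have t1 := two (om (a + 1, b) (a + 1, b + 1))
      have t2 := two (om (a + 1, b) (a, b + 1))
      have t3 := two (om (a + 1 + 1, b) (a + 1, b + 1))
      have t4 := two (om (a + 1, b + 1) (a + 1 + 1, b + 1))
      linear_combination h - t1 - t3 - t4
    intro a
    rw [← sub_eq_zero]
    induction a using Int.induction_on with
    | zero => rw [hU0, hU0, hC, sub_self]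
    | succ n ih => rw [step, ih]
    | pred n ih =>
      have := step (-(n : ℤ) - 1)
      rw [sub_add_cancel] at this
      rw [← this, ih]
  set G : V → ZMod 2 := fun p => if p.1 % 3 = 1 then U (p.2 / 3) (p.1 / 3) else
    U (p.2 / 3) (p.1 / 3) + e1 (p.1 / 3) (p.2 / 3) with hG
  have gu : ∀ (p : V) (a b : ℤ), p.1 = 3 * a + 1 → p.2 = 3 * b + 1 → G p = U b a := by
    intro p a b h1 h2
    simp only [hG]
    rw [if_pos (by omega), show p.1 / 3 = a by omega, show p.2 / 3 = b by omega]
  have gd : ∀ (p : V) (a b : ℤ), p.1 = 3 * a + 2 → p.2 = 3 * b + 2 → G p = U b a + e1 a b := by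
    intro p a b h1 h2
    simp only [hG]
    rw [if_neg (by omega), show p.1 / 3 = a by omega, show p.2 / 3 = b by omega]
  have key : ∀ u v : V, (v.1 = u.1 + 1 ∧ v.2 = u.2) ∨ (v.1 = u.1 ∧ v.2 = u.2 + 1) ∨
      (v.1 = u.1 - 1 ∧ v.2 = u.2 + 1) → G (lf u v) + G (lf v u) = om u v := by
    rintro ⟨a, b⟩ ⟨c, e⟩ (⟨h, h'⟩ | ⟨h, h'⟩ | ⟨h, h'⟩) <;> simp only at h h'
    · obtain ⟨b, rfl⟩ : ∃ b', b = b' + 1 := ⟨b - 1, by ring⟩
      subst h h'
      rw [gu _ a (b + 1) (by simp only [lf_fst]; ring) (by simp only [lf_snd]; ring),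
        gd _ a b (by simp only [lf_fst]; ring) (by simp only [lf_snd]; ring), hv]
      have t1 := two (U b a + e1 a b)
      simp only [he3] at *
      linear_combination t1
    · obtain ⟨a, rfl⟩ : ∃ a', a = a' + 1 := ⟨a - 1, by ring⟩
      subst h h'
      rw [gd _ a b (by simp only [lf_fst]; ring) (by simp only [lf_snd]; ring),
        gu _ (a + 1) b (by simp only [lf_fst]; ring) (by simp only [lf_snd]; ring), hU]
      have t1 := two (U b a + e1 a b)
      simp only [he2] at *
      linear_combination t1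
    · obtain rfl : a = c + 1 := by omega
      subst h'
      rw [gu _ c b (by simp only [lf_fst]; ring) (by simp only [lf_snd]; ring),
        gd _ c b (by simp only [lf_fst]; ring) (by simp only [lf_snd]; ring)]
      have t1 := two (U b c)
      simp only [he1] at *
      linear_combination t1
  refine ⟨G, fun u v huv => ?_⟩
  by_cases h : (v.1 = u.1 + 1 ∧ v.2 = u.2) ∨ (v.1 = u.1 ∧ v.2 = u.2 + 1) ∨
      (v.1 = u.1 - 1 ∧ v.2 = u.2 + 1)
  · exact key u v h
  · rw [add_comm, hs]
    exact key v u (by unfold Adj at huv; omega)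

/-- `u v` is an edge of the boundary cycle -/
def Dom.CE {d : ℝ} (Q : Dom d) (u v : V) : Prop :=
  ∃ i < Q.n, (Q.c i = u ∧ Q.c (i + 1) = v) ∨ (Q.c i = v ∧ Q.c (i + 1) = u)

end Pool.Agent.Lib.MP_6359c9_pr
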